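import Pool.Agent.Lib.MP_7c08ba_nt.T1.StA

set_option autoImplicit false

/-!
# Module ARC: the formula of Artin
-/

namespace BKT

namespace AARC

open Finset

variable {Γ : Type} [Group Γ] [Finite Γ]

/-- Integers `b C` (`0` for `C` not cyclic) whose sum over all `C ≥ D` is `1` for all cyclic
subgroups `D`. -/
lemma exists_b [Fintype (Subgroup Γ)] : ∃ b : Subgroup Γ → ℤ, (∀ C, b C ≠ 0 → IsCyclic C) ∧
    ∀ D : Subgroup Γ, IsCyclic D → ∑ C, (open Classical in if D ≤ C then b C else 0) = 1 := by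
  classical
  let F : ∀ D : Subgroup Γ, (∀ C, C > D → ℤ) → ℤ := fun D ih =>
    if IsCyclic D then 1 - ∑ C : {C // C > D}, ih C.1 C.2 else 0
  let b : Subgroup Γ → ℤ := wellFounded_gt.fix F
  have hb : ∀ D, b D = if IsCyclic D then 1 - ∑ C : {C // C > D}, b C.1 else 0 := fun D =>
    wellFounded_gt.fix_eq F D
  refine ⟨b, fun C hC => ?_, fun D hD => ?_⟩
  · by_contra h
    apply hC
    rw [hb, if_neg h]
  · have h1 : ∑ C, (if D ≤ C then b C else 0) = ∑ C ∈ univ.filter (fun C => D ≤ C), b C := by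
      rw [Finset.sum_filter]
    have h2 : (univ.filter fun C : Subgroup Γ => D ≤ C) =
        insert D (univ.filter fun C : Subgroup Γ => C > D) := by
      ext C
      simp only [mem_filter, mem_univ, true_and, mem_insert, gt_iff_lt]
      rw [le_iff_eq_or_lt]
      exact or_congr_left eq_comm
    have h3 : ∑ C : {C // C > D}, b C.1 = ∑ C ∈ univ.filter (fun C => C > D), b C := by
      rw [Finset.sum_subtype (univ.filter fun C : Subgroup Γ => C > D) (p := fun C => C > D)
        (by intro C; simp)]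
    rw [h1, h2, Finset.sum_insert (by simp), hb D, if_pos hD, h3]
    ring

/-- The number of fixed points of `g` on `Γ / C`. -/
lemma card_fix (C : Subgroup Γ) (g : Γ) :
    (Nat.card C) * Nat.card {x : Γ ⧸ C // g • x = x} = Nat.card {y : Γ // y⁻¹ * g * y ∈ C} := by
  have e := QuotientGroup.preimageMkEquivSubgroupProdSet C {x : Γ ⧸ C | g • x = x}
  have h1 := Nat.card_congr e
  rw [Nat.card_prod] at h1
  have h2 : Nat.card {y : Γ // y⁻¹ * g * y ∈ C} =
      Nat.card (QuotientGroup.mk ⁻¹' {x : Γ ⧸ C | g • x = x} : Set Γ) := by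
    refine Nat.card_congr (Equiv.subtypeEquivRight fun y => ?_)
    change y⁻¹ * g * y ∈ C ↔ g • (y : Γ ⧸ C) = y
    rw [MulAction.Quotient.smul_mk, QuotientGroup.eq, ← C.inv_mem_iff]
    have : (y⁻¹ * g * y)⁻¹ = (g • y)⁻¹ * y := by
      rw [smul_eq_mul]
      group
    rw [this]
  rw [h2, h1]
  rfl

end AARC

open AARC in
theorem stArc : StArc := by
  classical
  intro Γ _ _
  have : Fintype Γ := Fintype.ofFinite Γ
  have : Fintype (Subgroup Γ) := Fintype.ofFinite _
  obtain ⟨b, hb1, hb2⟩ := exists_b (Γ := Γ)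
  refine ⟨fun C => Nat.card C * b C, fun C hC => hb1 C (right_ne_zero_of_mul hC), fun g => ?_⟩
  rw [finsum_eq_sum_of_fintype]
  have h1 : ∀ C : Subgroup Γ, (Nat.card C * b C : ℤ) *
      (Nat.card {x : Γ ⧸ C // g • x = x} : ℤ) =
      ∑ y : Γ, if Subgroup.zpowers (y⁻¹ * g * y) ≤ C then b C else 0 := by
    intro C
    have h2 := card_fix C g
    have h3 : (Nat.card {y : Γ // y⁻¹ * g * y ∈ C} : ℤ) =
        ∑ y : Γ, if y⁻¹ * g * y ∈ C then (1 : ℤ) else 0 := by
      rw [Nat.card_eq_fintype_card, Fintype.card_subtype, Finset.sum_boole]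
    calc (Nat.card C * b C : ℤ) * (Nat.card {x : Γ ⧸ C // g • x = x} : ℤ)
        = ((Nat.card C * Nat.card {x : Γ ⧸ C // g • x = x} : ℕ) : ℤ) * b C := by
          push_cast
          ring
      _ = _ := by
          rw [h2, h3, Finset.sum_mul]
          refine Finset.sum_congr rfl fun y _ => ?_
          simp only [Subgroup.zpowers_le]
          split_ifs <;> simp
  rw [Finset.sum_congr rfl fun C _ => h1 C, Finset.sum_comm]
  have h4 : ∀ y : Γ, (∑ C, if Subgroup.zpowers (y⁻¹ * g * y) ≤ C then b C else 0) = 1 :=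
    fun y => hb2 _ inferInstance
  rw [Finset.sum_congr rfl fun y _ => h4 y]
  simp

end BKT
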