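import Pool.Agent.Lib.MP_7c08ba_nt.T1.StA

set_option autoImplicit false

/-!
Parity for general residual representations, part A: the induction theorem of Artin for additive
functions on finite modules killed by `p`.
-/

noncomputable section

namespace BKT

open BKMet

/-- Module ART (from ARC, DEC, INM, CYC): **the induction theorem**. -/
theorem stArt (h1 : StArc) (h2 : StDec) (h3 : StInm) (h4 : StCyc) : StArt := by
  intro p hp Γ _ _ f hf h0 M _ _ ρ hM
  obtain ⟨a, ha, hsum⟩ := h1 Γ
  have h := h2 p hp.out Γ f hf a hsum M ρ hM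
  have hz : ∀ C : Subgroup Γ, (a C : ℝ) * f (Γ ⧸ C → M) (mapA (Γ ⧸ C) ρ) = 0 := by
    intro C
    by_cases hC : a C = 0
    · rw [hC, Int.cast_zero, zero_mul]
    · have hcyc : IsCyclic C := ha C hC
      obtain ⟨hadd, hmap⟩ := h3 p hp.out Γ f hf C
      have h5 := h4 p C hcyc _ hadd (fun k _ _ _ ψ => h0 C hcyc k ψ) M (ρ.comp C.subtype) hM
      rw [hmap M ρ hM]
      rw [show f (IndM C (ρ.comp C.subtype)) (indM C (ρ.comp C.subtype)) = 0 from h5, mul_zero]
  rw [finsum_congr hz, finsum_zero] at h
  have hcard : (Nat.card Γ : ℝ) ≠ 0 := by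
    exact_mod_cast Nat.card_pos.ne'
  exact (mul_eq_zero.mp h).resolve_left hcard

end BKT
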