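import Pool.Agent.Lib.MP_7c08ba_nt.T1.StA

set_option autoImplicit false

/-!
Parity for general residual representations, module CYC: additive functions on the modules of a
cyclic group.
-/

noncomputable section

namespace BKT.ACYC

open BKMet

section Simple

variable {p : ℕ} [Fact p.Prime] {C : Type} [Group C] {M : Type} [AddCommGroup M]
  (ρ : C →* AddMonoid.End M)

/-- the ring generated by the action -/
def Rr : Subring (AddMonoid.End M) := Subring.closure (Set.range ρ)

theorem mem_Rr (g : C) : ρ g ∈ Rr ρ := Subring.subset_closure ⟨g, rfl⟩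

theorem comm_Rr (hC : ∀ g h : C, g * h = h * g) (x y : Rr ρ) : x * y = y * x := by
  have h1 : IsMulCommutative (Subring.closure (Set.range ρ)) := by
    apply Subring.isMulCommutative_closure
    rintro _ ⟨g, rfl⟩ _ ⟨h, rfl⟩
    rw [← map_mul, hC, map_mul]
  exact h1.is_comm.comm x y

/-- evaluation at a vector -/
def evR (m : M) : Rr ρ →+ M where
  toFun r := (r : AddMonoid.End M) m
  map_zero' := rfl
  map_add' _ _ := rfl

theorem evR_apply (m : M) (r : Rr ρ) : evR ρ m r = (r : AddMonoid.End M) m := rfl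

theorem evR_surj (hs : ∀ N : AddSubgroup M, (∀ g, ∀ x ∈ N, ρ g x ∈ N) → N = ⊥ ∨ N = ⊤) (m : M)
    (hm : m ≠ 0) : Function.Surjective (evR ρ m) := by
  have h1 := hs (evR ρ m).range (by
    rintro g _ ⟨r, rfl⟩
    exact ⟨⟨ρ g, mem_Rr ρ g⟩ * r, rfl⟩)
  rcases h1 with h1 | h1
  · exfalso
    apply hm
    have h2 : m ∈ (evR ρ m).range := ⟨1, rfl⟩
    rw [h1] at h2
    exact h2
  · exact AddMonoidHom.range_eq_top.1 h1

theorem evR_inj (hC : ∀ g h : C, g * h = h * g)
    (hs : ∀ N : AddSubgroup M, (∀ g, ∀ x ∈ N, ρ g x ∈ N) → N = ⊥ ∨ N = ⊤) (m : M)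
    (hm : m ≠ 0) : Function.Injective (evR ρ m) := by
  rw [injective_iff_map_eq_zero]
  intro r hr
  apply Subtype.ext
  apply AddMonoidHom.ext
  intro x
  obtain ⟨s, rfl⟩ := evR_surj ρ hs m hm x
  have h1 := comm_Rr ρ hC r s
  have h2 : ((r * s : Rr ρ) : AddMonoid.End M) m = ((s * r : Rr ρ) : AddMonoid.End M) m := by
    rw [h1]
  change (r : AddMonoid.End M) ((s : AddMonoid.End M) m) =
    (s : AddMonoid.End M) ((r : AddMonoid.End M) m) at h2
  rw [evR_apply] at hr
  rw [hr, map_zero] at h2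
  exact h2

theorem field_Rr [Finite M] (hC : ∀ g h : C, g * h = h * g)
    (hs : ∀ N : AddSubgroup M, (∀ g, ∀ x ∈ N, ρ g x ∈ N) → N = ⊥ ∨ N = ⊤) (m : M)
    (hm : m ≠ 0) : IsField (Rr ρ) := by
  have hfin : Finite (Rr ρ) := Finite.of_injective _ (evR_inj ρ hC hs m hm)
  refine ⟨⟨0, 1, ?_⟩, comm_Rr ρ hC, ?_⟩
  · intro h
    apply hm
    have h2 : ((0 : Rr ρ) : AddMonoid.End M) m = ((1 : Rr ρ) : AddMonoid.End M) m := by rw [h]
    exact h2.symm
  · intro a ha
    have h1 : Function.Injective (fun x : Rr ρ => a * x) := by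
      have h2 : Function.Injective (AddMonoidHom.mulLeft a) := by
        rw [injective_iff_map_eq_zero]
        intro x hx
        by_contra hx0
        have hxm : (x : AddMonoid.End M) m ≠ 0 := by
          intro h3
          exact hx0 (evR_inj ρ hC hs m hm (h3.trans (map_zero (evR ρ m)).symm))
        apply ha
        apply evR_inj ρ hC hs _ hxm
        rw [map_zero, evR_apply]
        have h4 : ((a * x : Rr ρ) : AddMonoid.End M) m = ((0 : Rr ρ) : AddMonoid.End M) m := by
          rw [show a * x = 0 from hx]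
        exact h4
      exact h2
    obtain ⟨b, hb⟩ := Finite.surjective_of_injective h1 1
    exact ⟨b, hb⟩

theorem simple [Finite M] (hC : ∀ g h : C, g * h = h * g) (hp : ∀ m : M, p • m = 0)
    (hs : ∀ N : AddSubgroup M, (∀ g, ∀ x ∈ N, ρ g x ∈ N) → N = ⊥ ∨ N = ⊤) (m : M)
    (hm : m ≠ 0) : ∃ (k : Type) (_ : Field k) (_ : Finite k) (_ : Algebra (ZMod p) k)
    (ψ : C →* kˣ) (e : k →+ M), Function.Bijective e ∧
      ∀ g x, e (kch ψ g x) = ρ g (e x) := by
  have hpp : p.Prime := Fact.out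
  let hF : Field (Rr ρ) := (field_Rr ρ hC hs m hm).toField
  have hchar : CharP (Rr ρ) p := by
    rw [CharP.charP_iff_prime_eq_zero hpp]
    apply Subtype.ext
    apply AddMonoidHom.ext
    intro x
    have h1 : (((p : ℕ) : Rr ρ) : AddMonoid.End M) x = p • x := by
      rw [Subring.coe_natCast]
      rfl
    exact h1.trans (hp x)
  let c0 : C →* Rr ρ := ρ.codRestrict (Rr ρ) (mem_Rr ρ)
  refine ⟨Rr ρ, hF, Finite.of_injective _ (evR_inj ρ hC hs m hm), ZMod.algebra _ p,
    c0.toHomUnits, evR ρ m, ⟨evR_inj ρ hC hs m hm, evR_surj ρ hs m hm⟩, ?_⟩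
  intro g x
  rfl

end Simple

variable {p : ℕ} [Fact p.Prime] {C : Type} [Group C]
  (f : ∀ (M : Type) [AddCommGroup M], (C →* AddMonoid.End M) → ℝ)

omit [Fact p.Prime] in
theorem zero_of_subsingleton (hf : AddF p C f) (M : Type) [AddCommGroup M] [Subsingleton M]
    (ρ : C →* AddMonoid.End M) : f M ρ = 0 := by
  have h := hf.add M M M ρ ρ ρ 0 0 (fun m => Subsingleton.elim _ _)
    (fun g x => Subsingleton.elim _ _) (fun g x => Subsingleton.elim _ _)
    (Function.injective_of_subsingleton _) (fun y => ⟨0, Subsingleton.elim _ _⟩)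
    (fun x => ⟨fun _ => ⟨0, Subsingleton.elim _ _⟩, fun _ => Subsingleton.elim _ _⟩)
  linarith

omit [Fact p.Prime] in
theorem iso (hf : AddF p C f) (M' M : Type) [AddCommGroup M'] [AddCommGroup M] [Finite M]
    (ρ' : C →* AddMonoid.End M') (ρ : C →* AddMonoid.End M) (hp : ∀ m : M, p • m = 0)
    (e : M' →+ M) (he : Function.Bijective e) (h : ∀ g x, e (ρ' g x) = ρ g (e x)) :
    f M ρ = f M' ρ' := by
  have h1 := hf.add M' M PUnit ρ' ρ 1 e 0 hp h (fun g x => rfl) he.1
    (fun y => ⟨0, rfl⟩) (fun x => ⟨fun _ => he.2 x, fun _ => rfl⟩)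
  rw [zero_of_subsingleton f hf PUnit 1, add_zero] at h1
  exact h1

/-- restriction of the action to a stable subgroup -/
def resA {M : Type} [AddCommGroup M] (ρ : C →* AddMonoid.End M) (N : AddSubgroup M)
    (hN : ∀ g, ∀ x ∈ N, ρ g x ∈ N) : C →* AddMonoid.End N where
  toFun g :=
    { toFun := fun x => ⟨ρ g x, hN g x x.2⟩
      map_zero' := Subtype.ext (map_zero (ρ g))
      map_add' := fun x y => Subtype.ext (map_add (ρ g) _ _) }
  map_one' := by
    ext x
    change ρ 1 (x : M) = x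
    rw [map_one]
    rfl
  map_mul' g h := by
    ext x
    change ρ (g * h) (x : M) = ρ g (ρ h x)
    rw [map_mul]
    rfl

/-- the action on the quotient by a stable subgroup -/
def quoA {M : Type} [AddCommGroup M] (ρ : C →* AddMonoid.End M) (N : AddSubgroup M)
    (hN : ∀ g, ∀ x ∈ N, ρ g x ∈ N) : C →* AddMonoid.End (M ⧸ N) where
  toFun g := QuotientAddGroup.map N N (ρ g) (fun x hx => hN g x hx)
  map_one' := by
    apply QuotientAddGroup.addMonoidHom_ext
    ext x
    change (QuotientAddGroup.mk (ρ 1 x) : M ⧸ N) = QuotientAddGroup.mk x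
    rw [map_one]
    rfl
  map_mul' g h := by
    apply QuotientAddGroup.addMonoidHom_ext
    ext x
    change (QuotientAddGroup.mk (ρ (g * h) x) : M ⧸ N) = QuotientAddGroup.mk (ρ g (ρ h x))
    rw [map_mul]
    rfl

theorem main (hC : ∀ g h : C, g * h = h * g) (hf : AddF p C f)
    (h0 : ∀ (k : Type) [Field k] [Finite k] [Algebra (ZMod p) k] (ψ : C →* kˣ),
      f k (kch ψ) = 0) (n : ℕ) :
    ∀ (M : Type) [AddCommGroup M] [Finite M] (ρ : C →* AddMonoid.End M),
      (∀ m : M, p • m = 0) → Nat.card M ≤ n → f M ρ = 0 := by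
  induction n with
  | zero =>
    intro M _ _ ρ _ hM
    have := Nat.card_pos (α := M)
    omega
  | succ n ih =>
    intro M _ _ ρ hp hM
    rcases subsingleton_or_nontrivial M with hsub | hnt
    · exact zero_of_subsingleton f hf M ρ
    by_cases hs : ∀ N : AddSubgroup M, (∀ g, ∀ x ∈ N, ρ g x ∈ N) → N = ⊥ ∨ N = ⊤
    · obtain ⟨m, hm⟩ := exists_ne (0 : M)
      obtain ⟨k, hF, hfin, hA, ψ, e, he, hact⟩ := simple (p := p) ρ hC hp hs m hm
      rw [iso f hf k M (kch ψ) ρ hp e he hact]
      exact h0 k ψ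
    · push Not at hs
      obtain ⟨N, hN, hb, ht⟩ := hs
      have h1 := hf.add N M (M ⧸ N) (resA ρ N hN) ρ (quoA ρ N hN) N.subtype
        (QuotientAddGroup.mk' N) hp (fun g x => rfl) (fun g x => rfl)
        N.subtype_injective (QuotientAddGroup.mk'_surjective N) (fun x => by
          rw [QuotientAddGroup.mk'_apply, QuotientAddGroup.eq_zero_iff]
          exact ⟨fun hx => ⟨⟨x, hx⟩, rfl⟩, fun ⟨y, hy⟩ => hy ▸ y.2⟩)
      have hcard := AddSubgroup.card_eq_card_quotient_mul_card_addSubgroup N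
      have hN1 : 1 < Nat.card N := by
        rw [AddSubgroup.one_lt_card_iff_ne_bot]
        exact hb
      have hQ1 : 1 < Nat.card (M ⧸ N) := by
        change 1 < N.index
        have h2 : N.index ≠ 1 := by
          rw [Ne, AddSubgroup.index_eq_one]
          exact ht
        have h3 : N.index ≠ 0 := AddSubgroup.FiniteIndex.index_ne_zero
        omega
      have hN2 : Nat.card N ≤ n := by
        have h4 : 2 * Nat.card N ≤ Nat.card (M ⧸ N) * Nat.card N := Nat.mul_le_mul_right _ hQ1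
        omega
      have hQ2 : Nat.card (M ⧸ N) ≤ n := by
        have h4 : Nat.card (M ⧸ N) * 2 ≤ Nat.card (M ⧸ N) * Nat.card N :=
          Nat.mul_le_mul_left _ hN1
        omega
      have hQp : ∀ x : M ⧸ N, p • x = 0 := by
        intro x
        obtain ⟨y, rfl⟩ := QuotientAddGroup.mk'_surjective N x
        rw [← map_nsmul, hp, map_zero]
      rw [h1, ih N (resA ρ N hN) (fun x => Subtype.ext (hp x)) hN2,
        ih (M ⧸ N) (quoA ρ N hN) hQp hQ2, add_zero]

end BKT.ACYC

namespace BKT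

/-- Module CYC. -/
theorem stCyc : StCyc := by
  intro p _ C _ _ hcyc f hf h0 M _ _ ρ hp
  have hC : ∀ g h : C, g * h = h * g := fun g h =>
    (IsCyclic.commGroup (α := C)).mul_comm g h
  exact ACYC.main f hC hf h0 (Nat.card M) M ρ hp le_rfl

end BKT
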