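import Pool.Agent.Lib.MP_7c08ba_nt.T1.StA

set_option autoImplicit false

/-!
Parity for general residual representations, module DEC: an additive function in terms of the
modules of functions on `Γ / C`.
-/

noncomputable section

namespace BKT

open BKMet

namespace ADEC

variable {p : ℕ} {Γ : Type} [Group Γ]
  {f : ∀ (M : Type) [AddCommGroup M], (Γ →* AddMonoid.End M) → ℝ}

theorem f_unit (hf : AddF p Γ f) : f Unit 1 = 0 := by
  have h := hf.add Unit Unit Unit 1 1 1 (AddMonoidHom.id Unit) (AddMonoidHom.id Unit)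
    (fun _ => rfl) (fun _ _ => rfl) (fun _ _ => rfl) Function.injective_id Function.surjective_id
    (fun x => ⟨fun _ => ⟨x, rfl⟩, fun _ => rfl⟩)
  linarith

theorem f_iso (hf : AddF p Γ f) {M M' : Type} [AddCommGroup M] [AddCommGroup M'] [Finite M']
    (ρ : Γ →* AddMonoid.End M) (ρ' : Γ →* AddMonoid.End M') (hM : ∀ m : M', p • m = 0)
    (e : M →+ M') (he : Function.Bijective e) (h : ∀ g x, e (ρ g x) = ρ' g (e x)) :
    f M ρ = f M' ρ' := by
  have h1 := hf.add M M' Unit ρ ρ' 1 e 0 hM h (fun _ _ => rfl) he.1 (fun x => ⟨0, rfl⟩)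
    (fun x => ⟨fun _ => he.2 x, fun _ => rfl⟩)
  rw [f_unit hf, add_zero] at h1
  exact h1.symm

section S

variable {M : Type} [AddCommGroup M] [Finite M] (ρ : Γ →* AddMonoid.End M)

theorem f_zero (hf : AddF p Γ f) (hM : ∀ m : M, p • m = 0) (X : Type) [MulAction Γ X]
    [IsEmpty X] : f (X → M) (mapA X ρ) = 0 := by
  have h := hf.add (X → M) (X → M) (X → M) (mapA X ρ) (mapA X ρ) (mapA X ρ)
    (AddMonoidHom.id _) (AddMonoidHom.id _) (fun u => by
      funext x
      exact hM _) (fun _ _ => rfl) (fun _ _ => rfl) Function.injective_id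
    Function.surjective_id (fun x => ⟨fun _ => ⟨x, rfl⟩, fun _ => Subsingleton.elim _ _⟩)
  linarith

theorem f_sum (hf : AddF p Γ f) (hM : ∀ m : M, p • m = 0) (X Y : Type) [MulAction Γ X]
    [MulAction Γ Y] [Finite X] [Finite Y] :
    f (X ⊕ Y → M) (mapA (X ⊕ Y) ρ) = f (X → M) (mapA X ρ) + f (Y → M) (mapA Y ρ) := by
  refine hf.add (X → M) (X ⊕ Y → M) (Y → M) (mapA X ρ) (mapA (X ⊕ Y) ρ) (mapA Y ρ)
    { toFun := fun u => Sum.elim u 0
      map_zero' := by
        funext x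
        rcases x with x | x <;> rfl
      map_add' := fun u v => by
        funext x
        rcases x with x | x
        · rfl
        · exact (add_zero (0 : M)).symm }
    { toFun := fun u y => u (Sum.inr y)
      map_zero' := rfl
      map_add' := fun _ _ => rfl } (fun u => by
      funext x
      exact hM _) ?_ (fun _ _ => rfl) ?_ ?_ ?_
  · intro g u
    funext x
    rcases x with x | x
    · rfl
    · exact (map_zero (ρ g)).symm
  · intro u v h
    funext x
    exact congrFun h (Sum.inl x)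
  · intro v
    exact ⟨Sum.elim 0 v, rfl⟩
  · intro u
    constructor
    · intro h
      refine ⟨fun x => u (Sum.inl x), ?_⟩
      funext x
      rcases x with x | x
      · rfl
      · exact (congrFun h x).symm
    · rintro ⟨v, rfl⟩
      rfl

theorem f_one (hf : AddF p Γ f) (hM : ∀ m : M, p • m = 0) :
    f (PUnit.{1} → M) (mapA PUnit.{1} ρ) = f M ρ := by
  refine f_iso hf _ _ hM
    { toFun := fun u => u PUnit.unit
      map_zero' := rfl
      map_add' := fun _ _ => rfl } ⟨fun u v h => ?_, fun m => ⟨fun _ => m, rfl⟩⟩ ?_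
  · funext x
    exact h
  · intro g x
    rfl

/-- the functions of fixed points of the finite sets with an action of `Γ`, together with the
values of the additive function -/
def SS (hf : AddF p Γ f) (hM : ∀ m : M, p • m = 0) : AddSubmonoid ((Γ → ℕ) × ℝ) where
  carrier := {x | ∃ (X : Type) (_ : MulAction Γ X) (_ : Finite X),
    (∀ g : Γ, Nat.card {y : X // g • y = y} = x.1 g) ∧ f (X → M) (mapA X ρ) = x.2}
  zero_mem' := by
    letI i : MulAction Γ Empty :=
      { smul := fun _ b => b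
        one_smul := fun b => b.elim
        mul_smul := fun _ _ b => b.elim }
    refine ⟨Empty, i, inferInstance, fun g => ?_, ?_⟩
    · rw [Nat.card_of_isEmpty]
      rfl
    · exact f_zero ρ hf hM Empty
  add_mem' := by
    rintro ⟨φ, v⟩ ⟨ψ, w⟩ ⟨X, iX, fX, h1, h2⟩ ⟨Y, iY, fY, h3, h4⟩
    refine ⟨X ⊕ Y, inferInstance, inferInstance, fun g => ?_, ?_⟩
    · have e : {y : X ⊕ Y // g • y = y} ≃ {y : X // g • y = y} ⊕ {y : Y // g • y = y} := by
        refine (Equiv.subtypeSum (p := fun y : X ⊕ Y => g • y = y)).trans ?_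
        refine Equiv.sumCongr (Equiv.subtypeEquivRight fun y => ?_)
          (Equiv.subtypeEquivRight fun y => ?_)
        · exact Sum.inl_injective.eq_iff
        · exact Sum.inr_injective.eq_iff
      rw [Nat.card_congr e, Nat.card_sum, h1 g, h3 g]
      rfl
    · rw [f_sum ρ hf hM X Y, h2, h4]
      rfl

end S

end ADEC

open ADEC in
theorem stDec (h : StLat) : StDec := by
  intro p hp Γ _ _ f hf a ha M _ _ ρ hM
  classical
  haveI : Fintype (Subgroup Γ) := Fintype.ofFinite _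
  have hC : ∀ C : Subgroup Γ, ((fun g : Γ => Nat.card {x : Γ ⧸ C // g • x = x},
      f (Γ ⧸ C → M) (mapA (Γ ⧸ C) ρ)) : (Γ → ℕ) × ℝ) ∈ SS ρ hf hM := fun C =>
    ⟨Γ ⧸ C, inferInstance, inferInstance, fun _ => rfl, rfl⟩
  have h1 : ((fun _ : Γ => 1, f M ρ) : (Γ → ℕ) × ℝ) ∈ SS ρ hf hM := by
    refine ⟨PUnit.{1}, inferInstance, inferInstance, fun g => ?_, f_one ρ hf hM⟩
    have : Nonempty {y : PUnit.{1} // g • y = y} := ⟨⟨PUnit.unit, rfl⟩⟩
    exact Nat.card_unique
  have hP : (∑ C : Subgroup Γ, (a C).toNat • ((fun g : Γ => Nat.card {x : Γ ⧸ C // g • x = x},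
      f (Γ ⧸ C → M) (mapA (Γ ⧸ C) ρ)) : (Γ → ℕ) × ℝ)) ∈ SS ρ hf hM :=
    AddSubmonoid.sum_mem _ fun C _ => AddSubmonoid.nsmul_mem _ (hC C) _
  have hN : (Nat.card Γ • ((fun _ : Γ => 1, f M ρ) : (Γ → ℕ) × ℝ) +
      ∑ C : Subgroup Γ, (-a C).toNat • ((fun g : Γ => Nat.card {x : Γ ⧸ C // g • x = x},
      f (Γ ⧸ C → M) (mapA (Γ ⧸ C) ρ)) : (Γ → ℕ) × ℝ)) ∈ SS ρ hf hM :=
    AddSubmonoid.add_mem _ (AddSubmonoid.nsmul_mem _ h1 _)
      (AddSubmonoid.sum_mem _ fun C _ => AddSubmonoid.nsmul_mem _ (hC C) _)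
  obtain ⟨X, iX, fX, hX1, hX2⟩ := hP
  obtain ⟨Y, iY, fY, hY1, hY2⟩ := hN
  have key := h p hp Γ f hf X Y (fun g => by
    rw [hX1 g, hY1 g]
    have hg := ha g
    rw [finsum_eq_sum_of_fintype] at hg
    simp only [Prod.fst_sum, Prod.fst_add, Prod.smul_fst, Finset.sum_apply, Pi.add_apply,
      Pi.smul_apply, smul_eq_mul, mul_one]
    zify
    rw [← hg, ← Finset.sum_add_distrib]
    refine Finset.sum_congr rfl fun C _ => ?_
    have : ((a C).toNat : ℤ) = a C + ((-a C).toNat : ℤ) := by omega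
    rw [this]
    ring) M ρ hM
  rw [hX2, hY2] at key
  rw [finsum_eq_sum_of_fintype]
  simp only [Prod.snd_sum, Prod.snd_add, Prod.smul_snd] at key
  simp only [nsmul_eq_mul] at key
  have hsplit : ∑ C : Subgroup Γ, (a C : ℝ) * f (Γ ⧸ C → M) (mapA (Γ ⧸ C) ρ) =
      ∑ C : Subgroup Γ, ((a C).toNat : ℝ) * f (Γ ⧸ C → M) (mapA (Γ ⧸ C) ρ) -
      ∑ C : Subgroup Γ, ((-a C).toNat : ℝ) * f (Γ ⧸ C → M) (mapA (Γ ⧸ C) ρ) := by
    rw [← Finset.sum_sub_distrib]
    refine Finset.sum_congr rfl fun C _ => ?_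
    have h2 : (a C : ℤ) = ((a C).toNat : ℤ) - ((-a C).toNat : ℤ) := by omega
    have h3 : (a C : ℝ) = ((a C).toNat : ℝ) - ((-a C).toNat : ℝ) := by
      exact_mod_cast congrArg (fun z : ℤ => (z : ℝ)) h2
    rw [h3]
    ring
  rw [hsplit, key]
  ring

end BKT
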