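import Pool.Agent.Lib.MP_7c08ba_nt.T1.StA

set_option autoImplicit false

/-!
Module INM: induction is exact; functions on `Γ / C` are induced.
-/

noncomputable section

namespace BKT

open BKMet

namespace AINM

variable {G : Type*} [Group G] (A : Subgroup G)

/-- the map on induced modules -/
def indMap {N N' : Type*} [AddCommGroup N] [AddCommGroup N'] (σ : A →* AddMonoid.End N)
    (σ' : A →* AddMonoid.End N') (i : N →+ N') (hi : ∀ g x, i (σ g x) = σ' g (i x)) :
    IndM A σ →+ IndM A σ' where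
  toFun F := ⟨fun g => i ((F : G → N) g), fun g a => by
    change i ((F : G → N) (g * a)) = σ' a⁻¹ (i ((F : G → N) g))
    rw [F.2 g a, hi]⟩
  map_zero' := by
    apply Subtype.ext
    funext g
    exact map_zero i
  map_add' F F' := by
    apply Subtype.ext
    funext g
    exact map_add i _ _

theorem indMap_apply {N N' : Type*} [AddCommGroup N] [AddCommGroup N'] (σ : A →* AddMonoid.End N)
    (σ' : A →* AddMonoid.End N') (i : N →+ N') (hi : ∀ g x, i (σ g x) = σ' g (i x))
    (F : IndM A σ) (g : G) : ((indMap A σ σ' i hi F : IndM A σ') : G → N') g =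
      i ((F : G → N) g) := rfl

/-- the representative of the class -/
def rep (g : G) : G := (QuotientGroup.mk g : G ⧸ A).out

theorem rep_mem (g : G) : (rep A g)⁻¹ * g ∈ A := by
  have h : (QuotientGroup.mk (rep A g) : G ⧸ A) = QuotientGroup.mk g :=
    Quotient.out_eq' _
  exact QuotientGroup.eq.1 h

/-- the difference to the representative -/
def dif (g : G) : A := ⟨(rep A g)⁻¹ * g, rep_mem A g⟩

theorem rep_dif (g : G) : rep A g * (dif A g : G) = g := by
  change rep A g * ((rep A g)⁻¹ * g) = g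
  rw [mul_inv_cancel_left]

theorem rep_mul (g : G) (a : A) : rep A (g * a) = rep A g := by
  have h : (QuotientGroup.mk (g * a) : G ⧸ A) = QuotientGroup.mk g := by
    rw [QuotientGroup.eq, mul_inv_rev, inv_mul_cancel_right]
    exact A.inv_mem a.2
  unfold rep
  rw [h]

theorem dif_mul (g : G) (a : A) : dif A (g * a) = dif A g * a := by
  apply Subtype.ext
  change (rep A (g * a))⁻¹ * (g * a) = (rep A g)⁻¹ * g * a
  rw [rep_mul, mul_assoc]

theorem indMap_surj {N N' : Type*} [AddCommGroup N] [AddCommGroup N'] (σ : A →* AddMonoid.End N)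
    (σ' : A →* AddMonoid.End N') (i : N →+ N') (hi : ∀ g x, i (σ g x) = σ' g (i x))
    (hs : Function.Surjective i) : Function.Surjective (indMap A σ σ' i hi) := by
  intro F
  choose s hs using hs
  refine ⟨⟨fun g => σ (dif A g)⁻¹ (s ((F : G → N') (rep A g))), fun g a => ?_⟩, ?_⟩
  · change σ (dif A (g * a))⁻¹ (s ((F : G → N') (rep A (g * a)))) =
      σ a⁻¹ (σ (dif A g)⁻¹ (s ((F : G → N') (rep A g))))
    rw [rep_mul, dif_mul, mul_inv_rev, map_mul]
    rfl
  · apply Subtype.ext
    funext g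
    rw [indMap_apply]
    change i (σ (dif A g)⁻¹ (s ((F : G → N') (rep A g)))) = (F : G → N') g
    rw [hi, hs, ← F.2 (rep A g) (dif A g), rep_dif]

theorem indMap_exact {N N' N'' : Type*} [AddCommGroup N] [AddCommGroup N'] [AddCommGroup N'']
    (σ : A →* AddMonoid.End N) (σ' : A →* AddMonoid.End N') (σ'' : A →* AddMonoid.End N'')
    (i : N →+ N') (hi : ∀ g x, i (σ g x) = σ' g (i x))
    (q : N' →+ N'') (hq : ∀ g x, q (σ' g x) = σ'' g (q x)) (hinj : Function.Injective i)
    (hex : ∀ x, q x = 0 ↔ ∃ y, i y = x) (F : IndM A σ') :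
    indMap A σ' σ'' q hq F = 0 ↔ ∃ F', indMap A σ σ' i hi F' = F := by
  constructor
  · intro h
    have h1 : ∀ g, ∃ y, i y = (F : G → N') g := by
      intro g
      rw [← hex, ← indMap_apply A σ' σ'' q hq F g, h]
      rfl
    choose y hy using h1
    refine ⟨⟨y, fun g a => ?_⟩, ?_⟩
    · apply hinj
      rw [hy, F.2 g a, hi, hy]
    · apply Subtype.ext
      funext g
      exact hy g
  · rintro ⟨F', rfl⟩
    apply Subtype.ext
    funext g
    exact (hex _).2 ⟨_, rfl⟩

/-- functions on the classes are induced -/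
def toInd {M : Type*} [AddCommGroup M] (ρ : G →* AddMonoid.End M) :
    (G ⧸ A → M) →+ IndM A (ρ.comp A.subtype) where
  toFun F := ⟨fun g => ρ g⁻¹ (F (QuotientGroup.mk g)), fun g a => by
    have h : (QuotientGroup.mk (g * a) : G ⧸ A) = QuotientGroup.mk g := by
      rw [QuotientGroup.eq, mul_inv_rev, inv_mul_cancel_right]
      exact A.inv_mem a.2
    change ρ (g * a)⁻¹ (F (QuotientGroup.mk (g * a))) =
      ρ ((a⁻¹ : A) : G) (ρ g⁻¹ (F (QuotientGroup.mk g)))
    rw [h, mul_inv_rev, map_mul]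
    rfl⟩
  map_zero' := by
    apply Subtype.ext
    funext g
    exact map_zero _
  map_add' F F' := by
    apply Subtype.ext
    funext g
    exact map_add _ _ _

theorem toInd_apply {M : Type*} [AddCommGroup M] (ρ : G →* AddMonoid.End M) (F : G ⧸ A → M)
    (g : G) : ((toInd A ρ F : IndM A (ρ.comp A.subtype)) : G → M) g =
      ρ g⁻¹ (F (QuotientGroup.mk g)) := rfl

theorem rho_inv {M : Type*} [AddCommGroup M] (ρ : G →* AddMonoid.End M) (g : G) (x : M) :
    ρ g (ρ g⁻¹ x) = x := by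
  change (ρ g * ρ g⁻¹) x = x
  rw [← map_mul, mul_inv_cancel, map_one]
  rfl

theorem toInd_inj {M : Type*} [AddCommGroup M] (ρ : G →* AddMonoid.End M) :
    Function.Injective (toInd A ρ) := by
  intro F F' h
  funext x
  obtain ⟨g, rfl⟩ := QuotientGroup.mk_surjective x
  have h1 : ρ g⁻¹ (F (QuotientGroup.mk g)) = ρ g⁻¹ (F' (QuotientGroup.mk g)) := by
    rw [← toInd_apply A ρ F g, h, toInd_apply]
  have h2 := congrArg (ρ g) h1
  rwa [rho_inv, rho_inv] at h2

theorem toInd_surj {M : Type*} [AddCommGroup M] (ρ : G →* AddMonoid.End M) :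
    Function.Surjective (toInd A ρ) := by
  intro F
  refine ⟨fun x => ρ x.out ((F : G → M) x.out), ?_⟩
  apply Subtype.ext
  funext g
  rw [toInd_apply]
  change ρ g⁻¹ (ρ (rep A g) ((F : G → M) (rep A g))) = (F : G → M) g
  have h := F.2 (rep A g) (dif A g)
  rw [rep_dif] at h
  rw [h]
  change (ρ g⁻¹ * ρ (rep A g)) ((F : G → M) (rep A g)) =
    ρ (((dif A g)⁻¹ : A) : G) ((F : G → M) (rep A g))
  rw [← map_mul]
  congr 2
  change g⁻¹ * rep A g = ((rep A g)⁻¹ * g)⁻¹
  rw [mul_inv_rev, inv_inv]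

theorem toInd_equi {M : Type*} [AddCommGroup M] (ρ : G →* AddMonoid.End M) (g : G)
    (F : G ⧸ A → M) : toInd A ρ (mapA (G ⧸ A) ρ g F) =
      indM A (ρ.comp A.subtype) g (toInd A ρ F) := by
  apply Subtype.ext
  funext x
  rw [toInd_apply, indM_apply, toInd_apply, mapA_apply, mul_inv_rev, inv_inv, map_mul]
  rfl

end AINM

open AINM

theorem stInm : StInm := by
  intro p hp Γ _ _ f hf C
  refine ⟨⟨?_⟩, ?_⟩
  · intro M' M M'' _ _ _ _ ρ' ρ ρ'' i q hpm hi hq hinj hsurj hex
    refine hf.add (IndM C ρ') (IndM C ρ) (IndM C ρ'') (indM C ρ') (indM C ρ) (indM C ρ'')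
      (indMap C ρ' ρ i hi) (indMap C ρ ρ'' q hq) ?_ ?_ ?_ ?_ ?_ ?_
    · intro F
      apply Subtype.ext
      funext g
      exact hpm _
    · intro g F
      rfl
    · intro g F
      rfl
    · intro F F' h
      apply Subtype.ext
      funext g
      apply hinj
      rw [← indMap_apply C ρ' ρ i hi F g, h, indMap_apply]
    · exact indMap_surj C ρ ρ'' q hq hsurj
    · exact indMap_exact C ρ' ρ ρ'' i hi q hq hinj hex
  · intro M _ _ ρ hpm
    have h0 : f PUnit (1 : Γ →* AddMonoid.End PUnit) = 0 := by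
      have h := hf.add PUnit PUnit PUnit (1 : Γ →* AddMonoid.End PUnit) 1 1 0 0
        (fun _ => rfl) (fun _ _ => rfl) (fun _ _ => rfl) (fun _ _ _ => rfl)
        (fun x => ⟨x, rfl⟩) (fun x => ⟨fun _ => ⟨x, rfl⟩, fun _ => rfl⟩)
      linarith
    have h1 := hf.add (Γ ⧸ C → M) (IndM C (ρ.comp C.subtype)) PUnit (mapA (Γ ⧸ C) ρ)
      (indM C (ρ.comp C.subtype)) 1 (toInd C ρ) 0 (fun F => by
        apply Subtype.ext
        funext g
        exact hpm _) (toInd_equi C ρ) (fun _ _ => rfl) (toInd_inj C ρ)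
        (fun x => ⟨0, rfl⟩) (fun F => ⟨fun _ => toInd_surj C ρ F, fun _ => rfl⟩)
    rw [h1, h0, add_zero]

end BKT
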