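import Pool.Agent.Lib.MP_7c08ba_nt.T1.StA

set_option autoImplicit false

/-!
Parity for general residual representations, module LAT: additive functions take the same values
on the modules of functions on `X` and on `Y` with values in `M`, if `X` and `Y` have the same
numbers of fixed points.
-/

noncomputable section

namespace BKT

open BKMet

namespace ALAT

section basic

variable {p : ℕ} {Γ : Type} [Group Γ]
  {f : ∀ (M : Type) [AddCommGroup M], (Γ →* AddMonoid.End M) → ℝ}

theorem f_unit (hf : AddF p Γ f) : f Unit 1 = 0 := by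
  have h := hf.add Unit Unit Unit 1 1 1 (AddMonoidHom.id Unit) (AddMonoidHom.id Unit)
    (fun _ => rfl) (fun _ _ => rfl) (fun _ _ => rfl) Function.injective_id Function.surjective_id
    (fun x => ⟨fun _ => ⟨x, rfl⟩, fun _ => rfl⟩)
  linarith

theorem f_iso (hf : AddF p Γ f) {M M' : Type} [AddCommGroup M] [AddCommGroup M'] [Finite M']
    (ρ : Γ →* AddMonoid.End M) (ρ' : Γ →* AddMonoid.End M') (hM : ∀ m : M', p • m = 0)
    (e : M →+ M') (he : Function.Bijective e) (h : ∀ g x, e (ρ g x) = ρ' g (e x)) :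
    f M ρ = f M' ρ' := by
  have h1 := hf.add M M' Unit ρ ρ' 1 e 0 hM h (fun _ _ => rfl) he.1 (fun x => ⟨0, rfl⟩)
    (fun x => ⟨fun _ => he.2 x, fun _ => rfl⟩)
  rw [f_unit hf, add_zero] at h1
  exact h1.symm

/-- the action on homomorphisms -/
def hm {A M : Type} [AddCommGroup A] [AddCommGroup M] (a : Γ →* AddMonoid.End A)
    (ρ : Γ →* AddMonoid.End M) : Γ →* AddMonoid.End (A →+ M) where
  toFun g :=
    { toFun := fun φ =>
        { toFun := fun x => ρ g (φ (a g⁻¹ x))
          map_zero' := by rw [map_zero, map_zero, map_zero]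
          map_add' := fun x y => by rw [map_add, map_add, map_add] }
      map_zero' := by
        ext x
        change ρ g 0 = 0
        rw [map_zero]
      map_add' := fun φ ψ => by
        ext x
        change ρ g (φ (a g⁻¹ x) + ψ (a g⁻¹ x)) = ρ g (φ (a g⁻¹ x)) + ρ g (ψ (a g⁻¹ x))
        rw [map_add] }
  map_one' := by
    ext φ x
    change ρ 1 (φ (a (1 : Γ)⁻¹ x)) = φ x
    rw [inv_one, map_one, map_one]
    rfl
  map_mul' g h := by
    ext φ x
    change ρ (g * h) (φ (a (g * h)⁻¹ x)) = ρ g (ρ h (φ (a h⁻¹ (a g⁻¹ x))))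
    rw [mul_inv_rev, map_mul, map_mul]
    rfl

theorem hm_apply {A M : Type} [AddCommGroup A] [AddCommGroup M] (a : Γ →* AddMonoid.End A)
    (ρ : Γ →* AddMonoid.End M) (g : Γ) (φ : A →+ M) (x : A) :
    (hm a ρ g φ : A →+ M) x = ρ g (φ (a g⁻¹ x)) := rfl

/-- the restriction of the action to a stable subgroup -/
def rs {W : Type} [AddCommGroup W] (α : Γ →* AddMonoid.End W) (A : AddSubgroup W)
    (hA : ∀ g, ∀ x ∈ A, α g x ∈ A) : Γ →* AddMonoid.End A where
  toFun g :=
    { toFun := fun x => ⟨α g x, hA g x x.2⟩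
      map_zero' := Subtype.ext (map_zero _)
      map_add' := fun x y => Subtype.ext (map_add (α g) (x : W) (y : W)) }
  map_one' := by
    ext x
    change α 1 (x : W) = x
    rw [map_one]
    rfl
  map_mul' g h := by
    ext x
    change α (g * h) (x : W) = α g (α h (x : W))
    rw [map_mul]
    rfl

theorem rs_apply {W : Type} [AddCommGroup W] (α : Γ →* AddMonoid.End W) (A : AddSubgroup W)
    (hA : ∀ g, ∀ x ∈ A, α g x ∈ A) (g : Γ) (x : A) :
    ((rs α A hA g x : A) : W) = α g (x : W) := rfl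

theorem fin_hom {A M : Type} [AddCommGroup A] [AddCommGroup M] [Finite M]
    (hA : Module.Finite ℤ A) : Finite (A →+ M) := by
  obtain ⟨s, hs⟩ := hA.fg_top
  refine Finite.of_injective (fun (φ : A →+ M) (x : s) => φ x) ?_
  intro φ ψ h
  have h1 : φ.toIntLinearMap = ψ.toIntLinearMap := by
    refine LinearMap.ext_on hs ?_
    intro x hx
    exact congrFun h ⟨x, hx⟩
  ext x
  exact LinearMap.congr_fun h1 x

theorem hom_kill {A M : Type} [AddCommGroup A] [AddCommGroup M] (hM : ∀ m : M, p • m = 0)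
    (φ : A →+ M) : p • φ = 0 := by
  ext x
  exact hM (φ x)

theorem ext_vs {D M : Type} [AddCommGroup D] [AddCommGroup M] [Fact p.Prime]
    [Module (ZMod p) D] [Module (ZMod p) M] (R : AddSubgroup D) (g : R →+ M) :
    ∃ G : D →+ M, ∀ x : R, G x = g x := by
  let D' : Submodule (ZMod p) D := AddSubgroup.toZModSubmodule p R
  let h' : (↥D') →+ M :=
    { toFun := fun x => g ⟨x.1, x.2⟩
      map_zero' := map_zero g
      map_add' := fun x y => map_add g ⟨x.1, x.2⟩ ⟨y.1, y.2⟩ }
  let g'' : (↥D') →ₗ[ZMod p] M :=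
    { toFun := h'
      map_add' := fun x y => map_add h' x y
      map_smul' := fun c x => ZMod.map_smul h' c x }
  obtain ⟨G, hG⟩ := LinearMap.exists_extend g''
  exact ⟨G.toAddMonoidHom, fun x => LinearMap.congr_fun hG ⟨x.1, x.2⟩⟩

/-- the extension lemma -/
theorem ext_hom {S W M : Type} [AddCommGroup S] [AddCommGroup W] [AddCommGroup M]
    (hp : p.Prime) (hM : ∀ m : M, p • m = 0) (j : S →+ W) (g : S →+ M)
    (h : ∀ s, (∃ w, p • w = j s) → g s = 0) : ∃ G : W →+ M, ∀ s, G (j s) = g s := by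
  have : Fact p.Prime := ⟨hp⟩
  let P : AddSubgroup W := (nsmulAddMonoidHom p : W →+ W).range
  have hD : ∀ x : W ⧸ P, p • x = 0 := by
    intro x
    induction x using QuotientAddGroup.induction_on with
    | H w => exact (QuotientAddGroup.eq_zero_iff (p • w)).2 ⟨w, rfl⟩
  let φ : S →+ W ⧸ P := (QuotientAddGroup.mk' P).comp j
  have hk : φ.rangeRestrict.ker ≤ g.ker := by
    intro s hs
    rw [AddMonoidHom.ker_rangeRestrict] at hs
    have h1 : ((j s : W) : W ⧸ P) = 0 := hs
    obtain ⟨w, hw⟩ := (QuotientAddGroup.eq_zero_iff _).1 h1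
    exact h s ⟨w, hw⟩
  let g' : φ.range →+ M :=
    (φ.rangeRestrict.liftOfSurjective φ.rangeRestrict_surjective ⟨g, hk⟩)
  have hg' : ∀ s, g' (φ.rangeRestrict s) = g s := fun s =>
    AddMonoidHom.liftOfRightInverse_comp_apply _ _ _ ⟨g, hk⟩ s
  obtain ⟨G, hG⟩ := @ext_vs p (W ⧸ P) M _ _ _ (AddCommGroup.zmodModule hD)
    (AddCommGroup.zmodModule hM) φ.range g'
  refine ⟨G.comp (QuotientAddGroup.mk' P), fun s => ?_⟩
  have h1 := hG (φ.rangeRestrict s)
  rw [hg' s] at h1
  exact h1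

end basic

section amb

variable {p : ℕ} {Γ : Type} [Group Γ]
  {f : ∀ (M : Type) [AddCommGroup M], (Γ →* AddMonoid.End M) → ℝ}
  {W : Type} [AddCommGroup W] {α : Γ →* AddMonoid.End W} {M : Type} [AddCommGroup M]
  {ρ : Γ →* AddMonoid.End M}

/-- homomorphisms on `B` which vanish on `A` -/
def KK (M : Type) [AddCommGroup M] (A B : AddSubgroup W) : AddSubgroup (B →+ M) where
  carrier := {φ | ∀ x : B, (x : W) ∈ A → φ x = 0}
  add_mem' := fun {φ ψ} h h' x hx => by
    rw [AddMonoidHom.add_apply, h x hx, h' x hx, add_zero]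
  zero_mem' := fun x _ => rfl
  neg_mem' := fun {φ} h x hx => by
    rw [AddMonoidHom.neg_apply, h x hx, neg_zero]

/-- homomorphisms on `A` which vanish on `p B` -/
def II (M : Type) [AddCommGroup M] (A B : AddSubgroup W) (hpB : ∀ x ∈ B, p • x ∈ A) :
    AddSubgroup (A →+ M) where
  carrier := {φ | ∀ x : B, φ ⟨p • (x : W), hpB x x.2⟩ = 0}
  add_mem' := fun {φ ψ} h h' x => by
    rw [AddMonoidHom.add_apply, h x, h' x, add_zero]
  zero_mem' := fun x => rfl
  neg_mem' := fun {φ} h x => by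
    rw [AddMonoidHom.neg_apply, h x, neg_zero]

theorem step1 (hf : AddF p Γ f) (hp : p.Prime) (hM : ∀ m : M, p • m = 0)
    (tf : ∀ w : W, p • w = 0 → w = 0) (A B : AddSubgroup W) (hA : ∀ g, ∀ x ∈ A, α g x ∈ A)
    (hB : ∀ g, ∀ x ∈ B, α g x ∈ B) (hAB : A ≤ B) (hpB : ∀ x ∈ B, p • x ∈ A)
    [Finite (A →+ M)] [Finite (B →+ M)] :
    f (A →+ M) (hm (rs α A hA) ρ) = f (B →+ M) (hm (rs α B hB) ρ) := by
  have hK : ∀ g, ∀ φ ∈ KK M A B, hm (rs α B hB) ρ g φ ∈ KK M A B := by
    intro g φ hφ x hx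
    rw [hm_apply, hφ (rs α B hB g⁻¹ x) (hA g⁻¹ x hx), map_zero]
  have hI : ∀ g, ∀ φ ∈ II M A B hpB, hm (rs α A hA) ρ g φ ∈ II M A B hpB := by
    intro g φ hφ x
    rw [hm_apply]
    have h1 : rs α A hA g⁻¹ ⟨p • (x : W), hpB x x.2⟩ =
        ⟨p • ((rs α B hB g⁻¹ x : B) : W), hpB _ (rs α B hB g⁻¹ x).2⟩ := by
      apply Subtype.ext
      rw [rs_apply]
      change α g⁻¹ (p • (x : W)) = p • α g⁻¹ (x : W)
      rw [map_nsmul]
    rw [h1, hφ, map_zero]
  let inc : A →+ B := AddSubgroup.inclusion hAB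
  let mp : B →+ A :=
    { toFun := fun x => ⟨p • (x : W), hpB x x.2⟩
      map_zero' := Subtype.ext (smul_zero p)
      map_add' := fun x y => Subtype.ext (smul_add p (x : W) (y : W)) }
  have e1 := hf.add (KK M A B) (B →+ M) (II M A B hpB) (rs _ _ hK) (hm (rs α B hB) ρ)
    (rs _ _ hI) (KK M A B).subtype
    { toFun := fun φ => ⟨φ.comp inc, fun x => by
        have h1 : inc ⟨p • (x : W), hpB x x.2⟩ = p • x := rfl
        rw [AddMonoidHom.comp_apply, h1, map_nsmul]
        exact hM _⟩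
      map_zero' := rfl
      map_add' := fun φ ψ => rfl }
    (hom_kill hM) (fun g x => rfl) (fun g φ => rfl) (AddSubgroup.subtype_injective _)
    (by
      intro φ
      obtain ⟨G, hG⟩ := ext_hom hp hM inc φ.1 (by
        rintro s ⟨w, hw⟩
        have h1 := φ.2 w
        have h2 : (⟨p • (w : W), hpB w w.2⟩ : A) = s := by
          apply Subtype.ext
          exact congrArg (fun x : B => (x : W)) hw
        rw [h2] at h1
        exact h1)
      refine ⟨G, Subtype.ext ?_⟩
      ext s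
      exact hG s)
    (by
      intro φ
      constructor
      · intro h
        refine ⟨⟨φ, fun x hx => ?_⟩, rfl⟩
        have h1 := congrArg (fun ψ : II M A B hpB => (ψ : A →+ M) ⟨x, hx⟩) h
        exact h1
      · rintro ⟨y, rfl⟩
        apply Subtype.ext
        ext s
        exact y.2 (inc s) s.2)
  have e2 := hf.add (II M A B hpB) (A →+ M) (KK M A B) (rs _ _ hI) (hm (rs α A hA) ρ)
    (rs _ _ hK) (II M A B hpB).subtype
    { toFun := fun φ => ⟨φ.comp mp, fun x hx => by
        have h1 : mp x = p • (⟨x, hx⟩ : A) := rfl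
        rw [AddMonoidHom.comp_apply, h1, map_nsmul]
        exact hM _⟩
      map_zero' := rfl
      map_add' := fun φ ψ => rfl }
    (hom_kill hM) (fun g x => rfl)
    (fun g φ => by
      apply Subtype.ext
      ext x
      change ρ g (φ (rs α A hA g⁻¹ (mp x))) = ρ g (φ (mp (rs α B hB g⁻¹ x)))
      congr 2
      apply Subtype.ext
      change α g⁻¹ (p • (x : W)) = p • α g⁻¹ (x : W)
      rw [map_nsmul]) (AddSubgroup.subtype_injective _)
    (by
      intro φ
      obtain ⟨G, hG⟩ := ext_hom hp hM mp φ.1 (by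
        rintro s ⟨w, hw⟩
        apply φ.2 s
        have h1 : p • (w : W) = p • (s : W) := congrArg (fun x : A => (x : W)) hw
        have h2 : (w : W) - s = 0 := tf _ (by rw [smul_sub, h1, sub_self])
        rw [← sub_eq_zero.1 h2]
        exact w.2)
      refine ⟨G, Subtype.ext ?_⟩
      ext s
      exact hG s)
    (by
      intro φ
      constructor
      · intro h
        refine ⟨⟨φ, fun x => ?_⟩, rfl⟩
        exact congrArg (fun ψ : KK M A B => (ψ : B →+ M) x) h
      · rintro ⟨y, rfl⟩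
        apply Subtype.ext
        ext s
        exact y.2 s)
  rw [e1, e2, add_comm]

theorem step2 (hf : AddF p Γ f) (hp : p.Prime) (hM : ∀ m : M, p • m = 0)
    (A B : AddSubgroup W) (hA : ∀ g, ∀ x ∈ A, α g x ∈ A)
    (hB : ∀ g, ∀ x ∈ B, α g x ∈ B) (hAB : A ≤ B) (hi : A.relIndex B ≠ 0)
    (hpB : ∀ x ∈ B, ∃ a ∈ A, ∃ b ∈ B, x = a + p • b)
    [Finite (A →+ M)] [Finite (B →+ M)] :
    f (A →+ M) (hm (rs α A hA) ρ) = f (B →+ M) (hm (rs α B hB) ρ) := by
  let inc : A →+ B := AddSubgroup.inclusion hAB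
  -- `p w ∈ A` implies `w ∈ A`
  have key : ∀ w ∈ B, p • w ∈ A → w ∈ A := by
    have hfin : Finite (B ⧸ A.addSubgroupOf B) := by
      apply Nat.finite_of_card_ne_zero
      exact hi
    have hsur : Function.Surjective fun q : B ⧸ A.addSubgroupOf B => p • q := by
      intro q
      induction q using QuotientAddGroup.induction_on with
      | H x =>
        obtain ⟨a, ha, b, hb, hx⟩ := hpB x x.2
        refine ⟨((⟨b, hb⟩ : B) : B ⧸ A.addSubgroupOf B), ?_⟩
        change ((p • (⟨b, hb⟩ : B) : B) : B ⧸ A.addSubgroupOf B) = (x : B ⧸ A.addSubgroupOf B)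
        rw [QuotientAddGroup.eq]
        change -(p • b) + (x : W) ∈ A
        rw [hx, add_comm a, neg_add_cancel_left]
        exact ha
    have hinj := Finite.injective_iff_surjective.2 hsur
    intro w hw hpw
    have h1 : ((⟨w, hw⟩ : B) : B ⧸ A.addSubgroupOf B) = 0 := by
      apply hinj
      change p • ((⟨w, hw⟩ : B) : B ⧸ A.addSubgroupOf B) = p • 0
      rw [smul_zero]
      exact (QuotientAddGroup.eq_zero_iff (p • (⟨w, hw⟩ : B))).2 hpw
    exact (QuotientAddGroup.eq_zero_iff (⟨w, hw⟩ : B)).1 h1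
  symm
  refine f_iso hf _ _ (hom_kill hM)
    { toFun := fun φ => φ.comp inc
      map_zero' := rfl
      map_add' := fun φ ψ => rfl } ⟨?_, ?_⟩ (fun g φ => rfl)
  · intro φ ψ h
    ext x
    obtain ⟨a, ha, b, hb, hx⟩ := hpB x x.2
    have h1 : x = inc ⟨a, ha⟩ + p • (⟨b, hb⟩ : B) := Subtype.ext hx
    rw [h1, map_add, map_add, map_nsmul, map_nsmul, hM, hM]
    congr 1
    exact DFunLike.congr_fun h ⟨a, ha⟩
  · intro φ
    obtain ⟨G, hG⟩ := ext_hom hp hM inc φ (by
      rintro s ⟨w, hw⟩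
      have h1 : p • (w : W) = (s : W) := congrArg (fun x : B => (x : W)) hw
      have h2 : (w : W) ∈ A := key w w.2 (by rw [h1]; exact s.2)
      have h3 : s = p • (⟨w, h2⟩ : A) := Subtype.ext h1.symm
      rw [h3, map_nsmul]
      exact hM _)
    refine ⟨G, ?_⟩
    ext s
    exact hG s

theorem claim (hf : AddF p Γ f) (hp : p.Prime) (hM : ∀ m : M, p • m = 0)
    (tf : ∀ w : W, p • w = 0 → w = 0) (fin : ∀ A : AddSubgroup W, Finite (A →+ M)) :
    ∀ (n : ℕ) (A B : AddSubgroup W) (hA : ∀ g, ∀ x ∈ A, α g x ∈ A)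
      (hB : ∀ g, ∀ x ∈ B, α g x ∈ B), A ≤ B → A.relIndex B = n → n ≠ 0 →
    f (A →+ M) (hm (rs α A hA) ρ) = f (B →+ M) (hm (rs α B hB) ρ) := by
  intro n
  induction n using Nat.strong_induction_on with
  | _ n ih =>
    intro A B hA hB hAB hn hn0
    have _ := fin A
    have _ := fin B
    -- `A + p B`
    let P : AddSubgroup W := B.map (nsmulAddMonoidHom p : W →+ W)
    have hP : ∀ x, x ∈ P ↔ ∃ b ∈ B, p • b = x := fun x => Iff.rfl
    let C : AddSubgroup W := A ⊔ P
    have hPB : P ≤ B := by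
      intro x hx
      obtain ⟨b, hb, rfl⟩ := (hP x).1 hx
      exact B.nsmul_mem hb p
    have hCB : C ≤ B := sup_le hAB hPB
    have hAC : A ≤ C := le_sup_left
    have hC : ∀ g, ∀ x ∈ C, α g x ∈ C := by
      intro g x hx
      obtain ⟨a, ha, y, hy, rfl⟩ := AddSubgroup.mem_sup.1 hx
      obtain ⟨b, hb, rfl⟩ := (hP y).1 hy
      rw [map_add, map_nsmul]
      exact AddSubgroup.add_mem_sup (hA g a ha) ⟨α g b, hB g b hb, rfl⟩
    by_cases h1 : C = A
    · refine step1 hf hp hM tf A B hA hB hAB fun x hx => ?_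
      rw [← h1]
      exact (le_sup_right : P ≤ C) ⟨x, hx, rfl⟩
    by_cases h2 : C = B
    · refine step2 hf hp hM A B hA hB hAB (by rw [hn]; exact hn0) fun x hx => ?_
      rw [← h2] at hx
      obtain ⟨a, ha, y, hy, rfl⟩ := AddSubgroup.mem_sup.1 hx
      obtain ⟨b, hb, rfl⟩ := (hP y).1 hy
      exact ⟨a, ha, b, hb, rfl⟩
    have h3 := AddSubgroup.relIndex_mul_relIndex A C B hAC hCB
    have h4 : A.relIndex C ≠ 1 := by
      intro h
      exact h1 (le_antisymm (AddSubgroup.relIndex_eq_one.1 h) hAC)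
    have h5 : C.relIndex B ≠ 1 := by
      intro h
      exact h2 (le_antisymm hCB (AddSubgroup.relIndex_eq_one.1 h))
    have h6 : A.relIndex C ≠ 0 := by
      intro h
      rw [h, zero_mul] at h3
      omega
    have h7 : C.relIndex B ≠ 0 := by
      intro h
      rw [h, mul_zero] at h3
      omega
    have h8 : A.relIndex C < n := by
      rw [← hn, ← h3]
      exact lt_mul_of_one_lt_right (Nat.pos_of_ne_zero h6) (by omega)
    have h9 : C.relIndex B < n := by
      rw [← hn, ← h3]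
      exact lt_mul_of_one_lt_left (Nat.pos_of_ne_zero h7) (by omega)
    rw [ih _ h8 A C hA hC hAC rfl h6, ih _ h9 C B hC hB hCB rfl h7]

end amb

section fn

variable {p : ℕ} {Γ : Type} [Group Γ]
  {f : ∀ (M : Type) [AddCommGroup M], (Γ →* AddMonoid.End M) → ℝ}

theorem f_pre (hf : AddF p Γ f) {A A' M : Type} [AddCommGroup A] [AddCommGroup A']
    [AddCommGroup M] [Finite (A' →+ M)] {a : Γ →* AddMonoid.End A} {a' : Γ →* AddMonoid.End A'}
    {ρ : Γ →* AddMonoid.End M} (hM : ∀ m : M, p • m = 0) (u : A' ≃+ A)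
    (hu : ∀ g x, u (a' g x) = a g (u x)) : f (A →+ M) (hm a ρ) = f (A' →+ M) (hm a' ρ) := by
  refine f_iso hf _ _ (hom_kill hM)
    { toFun := fun φ => φ.comp (u : A' →+ A)
      map_zero' := rfl
      map_add' := fun φ ψ => rfl } ⟨?_, ?_⟩ ?_
  · intro φ ψ h
    ext x
    have h1 := DFunLike.congr_fun h (u.symm x)
    change φ (u (u.symm x)) = ψ (u (u.symm x)) at h1
    rwa [AddEquiv.apply_symm_apply] at h1
  · intro ψ
    refine ⟨ψ.comp (u.symm : A →+ A'), ?_⟩
    ext x
    change ψ (u.symm (u x)) = ψ x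
    rw [AddEquiv.symm_apply_apply]
  · intro g φ
    ext x
    change ρ g (φ (a g⁻¹ (u x))) = ρ g (φ (u (a' g⁻¹ x)))
    rw [hu]

theorem f_fun (hf : AddF p Γ f) {X M : Type} [MulAction Γ X] [Fintype X] [DecidableEq X]
    [AddCommGroup M] [Finite M] {ρ : Γ →* AddMonoid.End M} (hM : ∀ m : M, p • m = 0) :
    f (X → M) (mapA X ρ) =
      f ((X → ℤ) →+ M) (hm (mapA X (1 : Γ →* AddMonoid.End ℤ)) ρ) := by
  have _ : Finite ((X → ℤ) →+ M) := fin_hom inferInstance
  let E : (X → M) →+ ((X → ℤ) →+ M) :=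
    { toFun := fun F =>
        { toFun := fun v => ∑ x, v x • F x
          map_zero' := Finset.sum_eq_zero fun x _ => zero_smul _ _
          map_add' := fun v w => by
            rw [← Finset.sum_add_distrib]
            exact Finset.sum_congr rfl fun x _ => add_smul _ _ _ }
      map_zero' := by
        refine AddMonoidHom.ext fun v => ?_
        exact Finset.sum_eq_zero fun x _ => smul_zero _
      map_add' := fun F F' => by
        refine AddMonoidHom.ext fun v => ?_
        change ∑ x, v x • (F x + F' x) = ∑ x, v x • F x + ∑ x, v x • F' x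
        rw [← Finset.sum_add_distrib]
        exact Finset.sum_congr rfl fun x _ => smul_add _ _ _ }
  have hE : ∀ F v, E F v = ∑ x, v x • F x := fun _ _ => rfl
  have hEs : ∀ F x, E F (Pi.single x 1) = F x := by
    intro F x
    rw [hE, Finset.sum_eq_single x]
    · rw [Pi.single_eq_same, one_smul]
    · intro y _ hy
      rw [Pi.single_eq_of_ne hy, zero_smul]
    · intro h
      exact absurd (Finset.mem_univ x) h
  refine f_iso hf _ _ (hom_kill hM) E ⟨?_, ?_⟩ ?_
  · intro F F' h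
    ext x
    rw [← hEs F x, h, hEs]
  · intro φ
    refine ⟨fun x => φ (Pi.single x 1), ?_⟩
    ext x
    exact hEs _ x
  · intro g F
    refine AddMonoidHom.ext fun v => ?_
    rw [hm_apply, hE, hE, map_sum]
    rw [← Equiv.sum_comp (MulAction.toPerm g : Equiv.Perm X)]
    refine Finset.sum_congr rfl fun x _ => ?_
    rw [map_zsmul]
    change v (g • x) • ρ g (F (g⁻¹ • g • x)) = v (g⁻¹⁻¹ • x) • ρ g (F x)
    rw [inv_smul_smul, inv_inv]

theorem integ {X Y : Type} [Fintype X] [DecidableEq X] [Finite Y]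
    (e : (X → ℚ) →ₗ[ℚ] (Y → ℚ)) : ∃ (N : ℤ) (θ : (X → ℤ) →+ (Y → ℤ)), N ≠ 0 ∧
      ∀ v y, ((θ v y : ℤ) : ℚ) = N * e (fun x => (v x : ℚ)) y := by
  obtain ⟨b, hb⟩ := IsLocalization.exist_integer_multiples_of_finite (nonZeroDivisors ℤ)
    (fun q : X × Y => e (Pi.single q.1 1) q.2)
  choose a ha using hb
  refine ⟨b, { toFun := fun v y => ∑ x, v x * a (x, y), map_zero' := ?_, map_add' := ?_ },
    nonZeroDivisors.coe_ne_zero b, ?_⟩
  · funext y
    exact Finset.sum_eq_zero fun x _ => zero_mul _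
  · intro v w
    funext y
    change ∑ x, (v x + w x) * a (x, y) = ∑ x, v x * a (x, y) + ∑ x, w x * a (x, y)
    rw [← Finset.sum_add_distrib]
    exact Finset.sum_congr rfl fun x _ => add_mul _ _ _
  · intro v y
    change ((∑ x, v x * a (x, y) : ℤ) : ℚ) = _
    have h1 : (fun x => (v x : ℚ)) = ∑ x, (v x : ℚ) • (Pi.single x 1 : X → ℚ) := by
      funext y
      rw [Finset.sum_apply, Finset.sum_eq_single y]
      · rw [Pi.smul_apply, Pi.single_eq_same, smul_eq_mul, mul_one]
      · intro z _ hz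
        rw [Pi.smul_apply, Pi.single_eq_of_ne hz.symm, smul_zero]
      · intro h
        exact absurd (Finset.mem_univ y) h
    rw [h1, map_sum, Finset.sum_apply, Finset.mul_sum, Int.cast_sum]
    refine Finset.sum_congr rfl fun x _ => ?_
    have h2 : ((a (x, y) : ℤ) : ℚ) = ((b : ℤ) : ℚ) * e (Pi.single x 1) y := by
      have h3 := ha (x, y)
      rw [zsmul_eq_mul] at h3
      exact h3
    rw [Int.cast_mul, h2, map_smul, Pi.smul_apply, smul_eq_mul]
    ring

end fn

end ALAT

open ALAT in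
/-- **Module LAT.** -/
theorem stLat (h : StQis) : StLat := by
  intro p hp Γ _ _ f hf X Y _ _ _ _ hXY M _ _ ρ hM
  classical
  have _ := Fintype.ofFinite X
  have _ := Fintype.ofFinite Y
  obtain ⟨e, he⟩ := h Γ X Y hXY
  obtain ⟨N, θ, hN, hθ⟩ := integ (e : (X → ℚ) →ₗ[ℚ] (Y → ℚ))
  obtain ⟨N', θ', hN', hθ'⟩ := integ (e.symm : (Y → ℚ) →ₗ[ℚ] (X → ℚ))
  have hNq : (N : ℚ) ≠ 0 := Int.cast_ne_zero.2 hN
  have hinj : Function.Injective θ := by
    rw [injective_iff_map_eq_zero]
    intro v hv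
    have h1 : e (fun x => (v x : ℚ)) = 0 := by
      funext y
      have h2 := hθ v y
      rw [hv] at h2
      have h3 : (N : ℚ) * e (fun x => (v x : ℚ)) y = 0 := by
        rw [← LinearEquiv.coe_coe, ← h2]
        exact Int.cast_zero
      exact (mul_eq_zero.1 h3).resolve_left hNq
    have h2 := (LinearEquiv.map_eq_zero_iff e).1 h1
    funext x
    exact Int.cast_eq_zero.1 (congrFun h2 x)
  have hcomp : ∀ w : Y → ℤ, θ (θ' w) = (N * N') • w := by
    intro w
    have h1 : (fun x => ((θ' w x : ℤ) : ℚ)) = (N' : ℚ) • e.symm (fun y => (w y : ℚ)) := by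
      funext x
      exact hθ' w x
    funext y
    have h2 := hθ (θ' w) y
    rw [h1, LinearEquiv.coe_coe, map_smul, LinearEquiv.apply_symm_apply] at h2
    have h3 : ((θ (θ' w) y : ℤ) : ℚ) = (((N * N') • w) y : ℤ) := by
      rw [h2]
      change (N : ℚ) * ((N' : ℚ) * (w y : ℚ)) = (((N * N') • w y : ℤ) : ℚ)
      rw [smul_eq_mul]
      push_cast
      ring
    exact_mod_cast h3
  have heq : ∀ g v, θ (mapA X (1 : Γ →* AddMonoid.End ℤ) g v) =
      mapA Y (1 : Γ →* AddMonoid.End ℤ) g (θ v) := by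
    intro g v
    funext y
    have h1 := hθ (mapA X (1 : Γ →* AddMonoid.End ℤ) g v) y
    have h2 := hθ v (g⁻¹ • y)
    have h3 := he g (fun x => (v x : ℚ)) y
    have h4 : ((θ (mapA X (1 : Γ →* AddMonoid.End ℤ) g v) y : ℤ) : ℚ) =
        ((θ v (g⁻¹ • y) : ℤ) : ℚ) := by
      rw [h1, h2]
      exact congrArg (fun t => (N : ℚ) * t) h3
    exact_mod_cast h4
  have fin : ∀ A : AddSubgroup (Y → ℤ), Finite (A →+ M) := by
    intro A
    apply fin_hom
    have h1 : Module.Finite ℤ (AddSubgroup.toIntSubmodule A) := inferInstance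
    exact h1
  have hA : ∀ g : Γ, ∀ x ∈ θ.range, mapA Y (1 : Γ →* AddMonoid.End ℤ) g x ∈ θ.range := by
    rintro g _ ⟨v, rfl⟩
    exact ⟨_, heq g v⟩
  have hidx : θ.range.relIndex ⊤ ≠ 0 := by
    rw [AddSubgroup.relIndex_top_right]
    have _ : Module.Finite ℤ ((Y → ℤ) ⧸ θ.range) :=
      Module.Finite.of_surjective (QuotientAddGroup.mk' θ.range).toIntLinearMap
        (QuotientAddGroup.mk'_surjective _)
    have _ : Finite ((Y → ℤ) ⧸ θ.range) := by
      apply Module.finite_of_fg_torsion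
      intro q
      induction q using QuotientAddGroup.induction_on with
      | H w =>
        refine ⟨⟨N * N', mem_nonZeroDivisors_of_ne_zero (mul_ne_zero hN hN')⟩, ?_⟩
        exact (QuotientAddGroup.eq_zero_iff ((N * N') • w)).2 ⟨θ' w, hcomp w⟩
    exact AddSubgroup.index_ne_zero_of_finite
  have tf : ∀ w : Y → ℤ, p • w = 0 → w = 0 := by
    intro w hw
    funext y
    have h1 : p • w y = 0 := congrFun hw y
    exact (smul_eq_zero.1 h1).resolve_left hp.ne_zero
  have _ : Finite ((X → ℤ) →+ M) := fin_hom inferInstance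
  have _ : Finite ((Y → ℤ) →+ M) := fin_hom inferInstance
  have c1 := f_pre hf (a := rs (mapA Y (1 : Γ →* AddMonoid.End ℤ)) θ.range hA)
    (a' := mapA X (1 : Γ →* AddMonoid.End ℤ)) (ρ := ρ) hM (AddMonoidHom.ofInjective hinj)
    (fun g x => Subtype.ext (heq g x))
  have c2 := claim (α := mapA Y (1 : Γ →* AddMonoid.End ℤ)) (ρ := ρ) hf hp hM tf fin
    (θ.range.relIndex ⊤) θ.range ⊤ hA (fun _ _ _ => AddSubgroup.mem_top _) le_top rfl hidx
  have c3 := f_pre hf (a := rs (mapA Y (1 : Γ →* AddMonoid.End ℤ)) ⊤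
      (fun _ _ _ => AddSubgroup.mem_top _))
    (a' := mapA Y (1 : Γ →* AddMonoid.End ℤ)) (ρ := ρ) hM AddSubgroup.topEquiv.symm
    (fun g x => rfl)
  rw [f_fun hf hM, f_fun hf hM, ← c1, c2, c3]

end BKT
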