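import Pool.Agent.Lib.MP_7c08ba_nt.T1.StA

set_option autoImplicit false

/-!
Parity for general residual representations, module QIS: permutation representations over `ℚ` with
the same numbers of fixed points are isomorphic.

An equivariant matrix `A` with smallest kernel is chosen. Let `B` be an equivariant generalized
inverse of `A`, `P = 1 - B A`, `Q = 1 - A B`. If the kernel of `A` is not zero, there is an
equivariant `C` with `Qᵀ C P ≠ 0`, as otherwise the sum of the squares of the traces of `g P` is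
zero; then `A + Qᵀ C P` has a smaller kernel.
-/

noncomputable section

open Matrix

namespace BKT

namespace AQIS

variable {Γ : Type} [Group Γ]

section pm
variable {X : Type} [MulAction Γ X] [DecidableEq X]

/-- permutation matrices -/
def pm (g : Γ) : Matrix X X ℚ := Matrix.of fun x x' => if x = g • x' then 1 else 0

theorem pm_apply (g : Γ) (x x' : X) : (pm g : Matrix X X ℚ) x x' = if x = g • x' then 1 else 0 :=
  rfl

theorem pm_tr (g : Γ) : (pm g : Matrix X X ℚ)ᵀ = pm g⁻¹ := by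
  ext x x'
  rw [Matrix.transpose_apply, pm_apply, pm_apply]
  have : (x' = g • x) ↔ (x = g⁻¹ • x') := by
    constructor
    · rintro rfl
      rw [inv_smul_smul]
    · rintro rfl
      rw [smul_inv_smul]
  simp only [this]

variable [Fintype X]

theorem pm_mulVec (g : Γ) (f : X → ℚ) (x : X) : ((pm g : Matrix X X ℚ) *ᵥ f) x = f (g⁻¹ • x) := by
  have h : ∀ x' : X, (x = g • x') ↔ (g⁻¹ • x = x') := by
    intro x'
    constructor
    · rintro rfl
      rw [inv_smul_smul]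
    · rintro rfl
      rw [smul_inv_smul]
  simp only [Matrix.mulVec, dotProduct, pm_apply, h, ite_mul, one_mul, zero_mul,
    Finset.sum_ite_eq, Finset.mem_univ, if_true]

theorem pm_mul (g h : Γ) :
    (pm g : Matrix X X ℚ) * (pm h : Matrix X X ℚ) = pm (g * h) := by
  refine Matrix.ext_iff_mulVec.2 fun v => ?_
  rw [← Matrix.mulVec_mulVec]
  ext x
  rw [pm_mulVec, pm_mulVec, pm_mulVec, _root_.mul_inv_rev, mul_smul]

theorem pm_one : (pm (1 : Γ) : Matrix X X ℚ) = 1 := by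
  refine Matrix.ext_iff_mulVec.2 fun v => ?_
  ext x
  rw [pm_mulVec, inv_one, one_smul, Matrix.one_mulVec]

theorem pm_trace (g : Γ) :
    (pm g : Matrix X X ℚ).trace = ((Nat.card {x : X // g • x = x} : ℕ) : ℚ) := by
  rw [Nat.card_eq_fintype_card, Fintype.card_subtype, Matrix.trace]
  simp only [Matrix.diag_apply, pm_apply, eq_comm]
  rw [Finset.sum_boole]

theorem pm_cancel (g : Γ) : (pm g : Matrix X X ℚ) * (pm g⁻¹ : Matrix X X ℚ) = 1 := by
  rw [pm_mul, mul_inv_cancel, pm_one]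

end pm

variable {X Y : Type} [MulAction Γ X] [MulAction Γ Y] [DecidableEq X] [DecidableEq Y]
  [Fintype X] [Fintype Y] [Fintype Γ]

/-- equivariant matrices -/
def Eqv (A : Matrix Y X ℚ) : Prop :=
  ∀ g : Γ, (pm g : Matrix Y Y ℚ) * A = A * (pm g : Matrix X X ℚ)

theorem eqv_sum (D : Matrix Y X ℚ) :
    Eqv (Γ := Γ) (∑ g : Γ, (pm g : Matrix Y Y ℚ) * D * (pm g⁻¹ : Matrix X X ℚ)) := by
  intro h
  rw [Matrix.mul_sum, Matrix.sum_mul]
  refine Fintype.sum_equiv (Equiv.mulLeft h) _ _ fun g => ?_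
  have h1 : (pm (h * g)⁻¹ : Matrix X X ℚ) * (pm h : Matrix X X ℚ) = pm g⁻¹ := by
    rw [pm_mul, _root_.mul_inv_rev, inv_mul_cancel_right]
  have h2 : (pm (h * g) : Matrix Y Y ℚ) = (pm h : Matrix Y Y ℚ) * (pm g : Matrix Y Y ℚ) :=
    (pm_mul h g).symm
  change (pm h : Matrix Y Y ℚ) * ((pm g : Matrix Y Y ℚ) * D * (pm g⁻¹ : Matrix X X ℚ)) =
    (pm (h * g) : Matrix Y Y ℚ) * D * (pm (h * g)⁻¹ : Matrix X X ℚ) * (pm h : Matrix X X ℚ)
  rw [Matrix.mul_assoc ((pm (h * g) : Matrix Y Y ℚ) * D), h1, h2]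
  simp only [Matrix.mul_assoc]

/-- generalized inverses -/
theorem exists_gi (A : Matrix Y X ℚ) : ∃ B : Matrix X Y ℚ, A * B * A = A := by
  obtain ⟨s, hs⟩ := A.mulVecLin.rangeRestrict.exists_rightInverse_of_surjective
    (LinearMap.range_rangeRestrict _)
  obtain ⟨u, hu⟩ := LinearMap.exists_extend s
  refine ⟨LinearMap.toMatrix' u, ?_⟩
  refine Matrix.ext_iff_mulVec.2 fun v => ?_
  rw [← Matrix.mulVec_mulVec, ← Matrix.mulVec_mulVec]
  have h1 : LinearMap.toMatrix' u *ᵥ (A *ᵥ v) = u (A *ᵥ v) := by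
    rw [← Matrix.toLin'_apply, Matrix.toLin'_toMatrix']
  rw [h1]
  have h2 : u (A *ᵥ v) = s (A.mulVecLin.rangeRestrict v) := by
    rw [← hu]
    rfl
  rw [h2]
  have h3 := congrArg (fun w => ((w : LinearMap.range A.mulVecLin) : Y → ℚ))
    (LinearMap.congr_fun hs (A.mulVecLin.rangeRestrict v))
  exact h3

theorem exists_eqv_gi (A : Matrix Y X ℚ) (hA : Eqv (Γ := Γ) A) :
    ∃ B : Matrix X Y ℚ, Eqv (Γ := Γ) B ∧ A * B * A = A := by
  obtain ⟨B₀, hB₀⟩ := exists_gi A
  refine ⟨(Fintype.card Γ : ℚ)⁻¹ •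
    ∑ g : Γ, (pm g : Matrix X X ℚ) * B₀ * (pm g⁻¹ : Matrix Y Y ℚ), ?_, ?_⟩
  · intro h
    rw [Matrix.mul_smul, Matrix.smul_mul, eqv_sum B₀ h]
  · rw [Matrix.mul_smul, Matrix.smul_mul, Matrix.mul_sum, Matrix.sum_mul]
    have h1 : ∀ g : Γ, A * ((pm g : Matrix X X ℚ) * B₀ * (pm g⁻¹ : Matrix Y Y ℚ)) * A = A := by
      intro g
      have h2 := hA g
      have h3 := hA g⁻¹
      calc A * ((pm g : Matrix X X ℚ) * B₀ * (pm g⁻¹ : Matrix Y Y ℚ)) * A
          = (A * (pm g : Matrix X X ℚ)) * B₀ * ((pm g⁻¹ : Matrix Y Y ℚ) * A) := by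
            simp only [Matrix.mul_assoc]
        _ = (pm g : Matrix Y Y ℚ) * (A * B₀ * A) * (pm g⁻¹ : Matrix X X ℚ) := by
          rw [← h2, h3]
          simp only [Matrix.mul_assoc]
        _ = A * ((pm g : Matrix X X ℚ) * (pm g⁻¹ : Matrix X X ℚ)) := by
          rw [hB₀, h2, Matrix.mul_assoc]
        _ = A := by rw [pm_cancel, Matrix.mul_one]
    rw [Finset.sum_congr rfl fun g _ => h1 g, Finset.sum_const, Finset.card_univ,
      ← Nat.cast_smul_eq_nsmul ℚ, smul_smul, inv_mul_cancel₀, one_smul]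
    exact Nat.cast_ne_zero.2 Fintype.card_ne_zero

theorem sum_entries {n m : Type} [Fintype n] [Fintype m] [DecidableEq n] [DecidableEq m]
    (M : Matrix n n ℚ) (N : Matrix m m ℚ) :
    ∑ y : n, ∑ x : m, (M * Matrix.single y x (1 : ℚ) * N) y x = M.trace * N.trace := by
  have h : ∀ (y : n) (x : m), (M * Matrix.single y x (1 : ℚ) * N) y x = M y y * N x x := by
    intro y x
    rw [Matrix.mul_apply, Finset.sum_eq_single x]
    · rw [Matrix.mul_single_apply_same, mul_one]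
    · intro b _ hb
      rw [Matrix.mul_single_apply_of_ne _ _ _ _ _ hb, zero_mul]
    · intro hx
      exact absurd (Finset.mem_univ x) hx
  simp only [h, Matrix.trace, Matrix.diag_apply]
  rw [Finset.sum_mul_sum]

theorem step (hf : ∀ g : Γ, (pm g : Matrix X X ℚ).trace = (pm g : Matrix Y Y ℚ).trace)
    (A : Matrix Y X ℚ) (hA : Eqv (Γ := Γ) A) (hk : LinearMap.ker A.mulVecLin ≠ ⊥) :
    ∃ A' : Matrix Y X ℚ, Eqv (Γ := Γ) A' ∧
      LinearMap.ker A'.mulVecLin < LinearMap.ker A.mulVecLin := by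
  obtain ⟨B, hB, hABA⟩ := exists_eqv_gi A hA
  set P : Matrix X X ℚ := 1 - B * A with hP
  set Q : Matrix Y Y ℚ := 1 - A * B with hQ
  have hQA : Q * A = 0 := by
    rw [hQ, Matrix.sub_mul, Matrix.one_mul, hABA, sub_self]
  have hAP : A * P = 0 := by
    rw [hP, Matrix.mul_sub, Matrix.mul_one, ← Matrix.mul_assoc, hABA, sub_self]
  have hPP : P * P = P := by
    have : B * A * P = 0 := by rw [Matrix.mul_assoc, hAP, Matrix.mul_zero]
    nth_rewrite 1 [hP]
    rw [Matrix.sub_mul, Matrix.one_mul, this, sub_zero]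
  have hPg : ∀ g : Γ, (pm g : Matrix X X ℚ) * P = P * (pm g : Matrix X X ℚ) := by
    intro g
    rw [hP, Matrix.mul_sub, Matrix.sub_mul, Matrix.mul_one, Matrix.one_mul, ← Matrix.mul_assoc,
      hB g, Matrix.mul_assoc, hA g, Matrix.mul_assoc]
  have hQg : ∀ g : Γ, (pm g : Matrix Y Y ℚ) * Q = Q * (pm g : Matrix Y Y ℚ) := by
    intro g
    rw [hQ, Matrix.mul_sub, Matrix.sub_mul, Matrix.mul_one, Matrix.one_mul, ← Matrix.mul_assoc,
      hA g, Matrix.mul_assoc, hB g, Matrix.mul_assoc]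
  have hQt : ∀ g : Γ, (pm g : Matrix Y Y ℚ) * Qᵀ = Qᵀ * (pm g : Matrix Y Y ℚ) := by
    intro g
    have h := congrArg Matrix.transpose (hQg g⁻¹)
    rw [Matrix.transpose_mul, Matrix.transpose_mul, pm_tr, inv_inv] at h
    exact h.symm
  have htr : ∀ g : Γ, ((pm g : Matrix X X ℚ) * P).trace = ((pm g : Matrix Y Y ℚ) * Q).trace := by
    intro g
    rw [hP, hQ, Matrix.mul_sub, Matrix.mul_sub, Matrix.mul_one, Matrix.mul_one,
      Matrix.trace_sub, Matrix.trace_sub, hf g]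
    congr 1
    rw [← Matrix.mul_assoc, ← Matrix.mul_assoc, hA g, hB g, Matrix.mul_assoc B,
      Matrix.trace_mul_comm B, ← hA g]
  have hP0 : P.trace ≠ 0 := by
    intro h0
    have hid : IsIdempotentElem P.mulVecLin := by
      change P.mulVecLin * P.mulVecLin = P.mulVecLin
      rw [Module.End.mul_eq_comp, ← Matrix.mulVecLin_mul, hPP]
    have h1 : LinearMap.trace ℚ (X → ℚ) P.mulVecLin = 0 := by
      rw [← h0, ← Matrix.trace_toLin'_eq]
      exact congrArg (LinearMap.trace ℚ (X → ℚ)) (LinearMap.ext fun v => rfl)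
    have h2 : P.mulVecLin = 0 := (LinearMap.IsIdempotentElem.trace_eq_zero_iff hid).1 h1
    obtain ⟨v, hv, hv0⟩ := (Submodule.ne_bot_iff _).1 hk
    rw [LinearMap.mem_ker, Matrix.mulVecLin_apply] at hv
    have h3 : P *ᵥ v = v := by
      rw [hP, Matrix.sub_mulVec, Matrix.one_mulVec, ← Matrix.mulVec_mulVec, hv,
        Matrix.mulVec_zero, sub_zero]
    apply hv0
    rw [← h3, ← Matrix.mulVecLin_apply, h2, LinearMap.zero_apply]
  have hC : ∃ C : Matrix Y X ℚ, Eqv (Γ := Γ) C ∧ Qᵀ * C * P ≠ 0 := by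
    by_contra hno
    simp only [not_exists, not_and, not_not] at hno
    have h0 : ∑ g : Γ, ((pm g : Matrix Y Y ℚ) * Qᵀ).trace *
        (P * (pm g⁻¹ : Matrix X X ℚ)).trace = 0 := by
      have h1 : ∀ g : Γ, ((pm g : Matrix Y Y ℚ) * Qᵀ).trace *
          (P * (pm g⁻¹ : Matrix X X ℚ)).trace =
          ∑ y : Y, ∑ x : X, ((pm g : Matrix Y Y ℚ) * Qᵀ * Matrix.single y x (1 : ℚ) *
            (P * (pm g⁻¹ : Matrix X X ℚ))) y x := fun g => (sum_entries _ _).symm
      simp only [h1]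
      rw [Finset.sum_comm]
      refine Finset.sum_eq_zero fun y _ => ?_
      rw [Finset.sum_comm]
      refine Finset.sum_eq_zero fun x _ => ?_
      rw [← Matrix.sum_apply]
      have h2 : ∑ g : Γ, (pm g : Matrix Y Y ℚ) * Qᵀ * Matrix.single y x (1 : ℚ) *
            (P * (pm g⁻¹ : Matrix X X ℚ)) =
          Qᵀ * (∑ g : Γ, (pm g : Matrix Y Y ℚ) * Matrix.single y x (1 : ℚ) *
            (pm g⁻¹ : Matrix X X ℚ)) * P := by
        rw [Matrix.mul_sum, Matrix.sum_mul]
        refine Finset.sum_congr rfl fun g _ => ?_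
        rw [hQt g, ← hPg g⁻¹]
        simp only [Matrix.mul_assoc]
      rw [h2, hno _ (eqv_sum _)]
      rfl
    have h3 : ∀ g : Γ, ((pm g : Matrix Y Y ℚ) * Qᵀ).trace *
        (P * (pm g⁻¹ : Matrix X X ℚ)).trace =
        (((pm g⁻¹ : Matrix X X ℚ) * P).trace) ^ 2 := by
      intro g
      have h4 : ((pm g : Matrix Y Y ℚ) * Qᵀ).trace = ((pm g⁻¹ : Matrix X X ℚ) * P).trace := by
        rw [htr, ← Matrix.trace_transpose, Matrix.transpose_mul, Matrix.transpose_transpose, pm_tr,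
          hQg]
      rw [h4, hPg, sq]
    rw [Finset.sum_congr rfl fun g _ => h3 g,
      Finset.sum_eq_zero_iff_of_nonneg fun g _ => sq_nonneg _] at h0
    have h5 := h0 1 (Finset.mem_univ _)
    rw [inv_one, pm_one, Matrix.one_mul] at h5
    exact hP0 (pow_eq_zero_iff two_ne_zero |>.1 h5)
  obtain ⟨C, hC1, hC2⟩ := hC
  refine ⟨A + Qᵀ * C * P, ?_, ?_⟩
  · intro g
    rw [Matrix.mul_add, Matrix.add_mul, hA g]
    congr 1
    calc (pm g : Matrix Y Y ℚ) * (Qᵀ * C * P) = ((pm g : Matrix Y Y ℚ) * Qᵀ) * C * P := by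
          simp only [Matrix.mul_assoc]
      _ = Qᵀ * ((pm g : Matrix Y Y ℚ) * C) * P := by rw [hQt g]; simp only [Matrix.mul_assoc]
      _ = Qᵀ * C * ((pm g : Matrix X X ℚ) * P) := by rw [hC1 g]; simp only [Matrix.mul_assoc]
      _ = Qᵀ * C * P * (pm g : Matrix X X ℚ) := by rw [hPg g]; simp only [Matrix.mul_assoc]
  · have hkey : ∀ v : X → ℚ, (A + Qᵀ * C * P) *ᵥ v = 0 → A *ᵥ v = 0 ∧ (Qᵀ * C * P) *ᵥ v = 0 := by
      intro v hv
      rw [Matrix.add_mulVec] at hv
      have h1 : A *ᵥ v ⬝ᵥ A *ᵥ v = 0 := by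
        have h2 : A *ᵥ v = -((Qᵀ * C * P) *ᵥ v) := eq_neg_of_add_eq_zero_left hv
        have h3 : A *ᵥ v ⬝ᵥ ((Qᵀ * C * P) *ᵥ v) = 0 := by
          rw [Matrix.mul_assoc, ← Matrix.mulVec_mulVec, Matrix.dotProduct_mulVec,
            Matrix.vecMul_transpose, Matrix.mulVec_mulVec, hQA, Matrix.zero_mulVec,
            zero_dotProduct]
        nth_rewrite 2 [h2]
        rw [dotProduct_neg, h3, neg_zero]
      have h4 : A *ᵥ v = 0 := dotProduct_self_eq_zero.1 h1
      refine ⟨h4, ?_⟩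
      rw [h4, zero_add] at hv
      exact hv
    rw [SetLike.lt_iff_le_and_exists]
    refine ⟨fun v hv => ?_, ?_⟩
    · rw [LinearMap.mem_ker, Matrix.mulVecLin_apply] at hv ⊢
      exact (hkey v hv).1
    · have h6 : ∃ v : X → ℚ, (Qᵀ * C * P) *ᵥ v ≠ 0 := by
        by_contra hno
        simp only [not_exists, not_not] at hno
        refine hC2 (Matrix.ext_iff_mulVec.2 fun v => ?_)
        rw [hno v, Matrix.zero_mulVec]
      obtain ⟨v, hv⟩ := h6
      refine ⟨P *ᵥ v, ?_, fun h7 => ?_⟩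
      · rw [LinearMap.mem_ker, Matrix.mulVecLin_apply, Matrix.mulVec_mulVec, hAP,
          Matrix.zero_mulVec]
      · rw [LinearMap.mem_ker, Matrix.mulVecLin_apply] at h7
        have h8 := (hkey _ h7).2
        rw [Matrix.mulVec_mulVec, Matrix.mul_assoc (Qᵀ * C), hPP] at h8
        exact hv h8

/-- a pair of sets with an injective equivariant matrix -/
theorem exists_inj (hf : ∀ g : Γ, (pm g : Matrix X X ℚ).trace = (pm g : Matrix Y Y ℚ).trace) :
    ∃ A : Matrix Y X ℚ, Eqv (Γ := Γ) A ∧ LinearMap.ker A.mulVecLin = ⊥ := by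
  have key : ∀ (n : ℕ) (A : Matrix Y X ℚ), Eqv (Γ := Γ) A →
      Module.finrank ℚ (LinearMap.ker A.mulVecLin) = n →
      ∃ A : Matrix Y X ℚ, Eqv (Γ := Γ) A ∧ LinearMap.ker A.mulVecLin = ⊥ := by
    intro n
    induction n using Nat.strong_induction_on with
    | _ n ih =>
      intro A hA hn
      by_cases hk : LinearMap.ker A.mulVecLin = ⊥
      · exact ⟨A, hA, hk⟩
      · obtain ⟨A', hA', hlt⟩ := step hf A hA hk
        have h1 := Submodule.finrank_lt_finrank_of_lt hlt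
        rw [hn] at h1
        exact ih _ h1 A' hA' rfl
  refine key _ (0 : Matrix Y X ℚ) (fun g => ?_) rfl
  rw [Matrix.mul_zero, Matrix.zero_mul]

end AQIS

theorem stQis : StQis := by
  intro Γ _ _ X Y _ _ _ _ hf
  classical
  haveI := Fintype.ofFinite Γ
  haveI := Fintype.ofFinite X
  haveI := Fintype.ofFinite Y
  have hf' : ∀ g : Γ, (AQIS.pm g : Matrix X X ℚ).trace = (AQIS.pm g : Matrix Y Y ℚ).trace := by
    intro g
    rw [AQIS.pm_trace, AQIS.pm_trace, hf g]
  obtain ⟨A, hA, hk⟩ := AQIS.exists_inj hf'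
  have hcard : Fintype.card X = Fintype.card Y := by
    have h1 := hf' 1
    rw [AQIS.pm_one, AQIS.pm_one, Matrix.trace_one, Matrix.trace_one] at h1
    exact_mod_cast h1
  have hfr : Module.finrank ℚ (X → ℚ) = Module.finrank ℚ (Y → ℚ) := by
    rw [Module.finrank_fintype_fun_eq_card, Module.finrank_fintype_fun_eq_card, hcard]
  refine ⟨LinearMap.linearEquivOfInjective A.mulVecLin (LinearMap.ker_eq_bot.1 hk) hfr, ?_⟩
  intro g f y
  rw [LinearMap.linearEquivOfInjective_apply, LinearMap.linearEquivOfInjective_apply,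
    Matrix.mulVecLin_apply, Matrix.mulVecLin_apply]
  have h1 : (fun x => f (g⁻¹ • x)) = (AQIS.pm g : Matrix X X ℚ) *ᵥ f := by
    ext x
    rw [AQIS.pm_mulVec]
  rw [h1, Matrix.mulVec_mulVec, ← hA g, ← Matrix.mulVec_mulVec, AQIS.pm_mulVec]

end BKT
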