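import Pool.Agent.Lib.MP_7c08ba_nt.T1.StY
import Pool.Agent.Lib.MP_7c08ba_nt.Met.XLINEA
import Pool.Agent.Lib.MP_7c08ba_nt.Met.XCT

set_option autoImplicit false

/-!
Parity for general residual representations, module LNAT: the left kernel of the pairing for a good
subquotient.
-/

noncomputable section

namespace BKT

open BKPar (Loc1 Loc2)
open BKND (Sm)
open BKMet

namespace YLNAT

open BKMet.XSWAP BKMet.XLINEA

section Res

/-- restriction of a pair along a continuous homomorphism -/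
def res {R : Type} [CommRing R] {G : Type} [Group G] [TopologicalSpace G] {A : Type}
    [AddCommGroup A] {α : G →* AddMonoid.End A} {M M' : Type} [AddCommGroup M] [Module R M]
    [AddCommGroup M'] [Module R M'] (X : Pair R α M M') {D : Type} [Group D] [TopologicalSpace D]
    (r : D →* G) (hr : Continuous r) (β : D →* AddMonoid.End A) (hβ : α.comp r = β) :
    Pair R β M M' where
  ρ := X.ρ.comp r
  ρ' := X.ρ'.comp r
  b := X.b
  sm := by
    obtain ⟨U, hU, h⟩ := X.sm
    exact ⟨U.comap r, hU.preimage hr, fun u hu => h _ hu⟩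
  sm' := by
    obtain ⟨U, hU, h⟩ := X.sm'
    exact ⟨U.comap r, hU.preimage hr, fun u hu => h _ hu⟩
  lin := fun d a m => X.lin (r d) a m
  lin' := fun d a m => X.lin' (r d) a m
  eqv := fun d m m' => by
    subst hβ
    exact X.eqv (r d) m m'
  bal := X.bal
  perf := X.perf
  perf' := X.perf'

end Res

section Quo

variable {R : Type} [CommRing R] {G : Type} [Group G] [TopologicalSpace G] {A : Type}
  [AddCommGroup A] {α : G →* AddMonoid.End A} {M M' : Type} [AddCommGroup M] [Module R M]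
  [AddCommGroup M'] [Module R M'] {X : Pair R α M M'} {P N : Submodule R M}
  {K K' : Type} [AddCommGroup K] [AddCommGroup K'] {Y : Pair ℤ α K K'} {φ : M → K} {φ' : M' → K'}

theorem qstab (hN : X.Stable N) (g : G) (m' : M') (hm' : m' ∈ X.perp N) :
    X.ρ' g m' ∈ X.perp N := by
  intro n hn
  have e1 := X.eqv g (X.ρ g⁻¹ n) m'
  rw [← act_mul, mul_inv_cancel, act_one, hm' _ (hN _ _ hn), map_zero] at e1
  exact e1

theorem qzero (L : IsQuo X P N Y φ φ') : φ 0 = 0 :=
  (L.ker 0 N.zero_mem).2 P.zero_mem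

theorem qsub (L : IsQuo X P N Y φ φ') {x y : M} (hx : x ∈ N) (hy : y ∈ N) :
    φ (x - y) = φ x - φ y := by
  have := L.add (x - y) (N.sub_mem hx hy) y hy
  rw [sub_add_cancel] at this
  rw [this, add_sub_cancel_right]

theorem qsub' (L : IsQuo X P N Y φ φ') {x y : M'} (hx : x ∈ X.perp P)
    (hy : y ∈ X.perp P) : φ' (x - y) = φ' x - φ' y := by
  have := L.add' (x - y) ((X.perp P).sub_mem hx hy) y hy
  rw [sub_add_cancel] at this
  rw [this, add_sub_cancel_right]

/-- the coboundary of a function with values in `N` -/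
theorem qd1 (L : IsQuo X P N Y φ φ') (hN : X.Stable N) {D : Type*} [Group D]
    (r : D →* G) (n : D → M) (hn : ∀ d, n d ∈ N) (d d' : D) :
    φ (X.ρ (r d) (n d') - n (d * d') + n d) =
      Y.ρ (r d) (φ (n d')) - φ (n (d * d')) + φ (n d) := by
  rw [L.add _ (N.sub_mem (hN _ _ (hn _)) (hn _)) _ (hn _), qsub L (hN _ _ (hn _)) (hn _),
    L.act _ _ (hn _)]

/-- the cup product of cocycles is a cocycle -/
theorem cup11_mem {D : Type} [Group D] [TopologicalSpace D] {β : D →* AddMonoid.End A}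
    (Z : Pair ℤ β K K') (f : D → K) (f' : D → K') (hf : f ∈ BKND.Z1 Z.ρ)
    (hf' : f' ∈ BKND.Z1 Z.ρ') : cup11 Z.b Z.ρ' f f' ∈ BKND.Z2 β := by
  refine ⟨?_, fun g h l => ?_⟩
  · have h1 : Loc2 fun g h => Z.ρ' g (f' h) :=
      BKND.Loc2.map2 (loc2_fst (loc1_act Z.sm')) (loc2_snd hf'.1) (fun a b => a b)
    exact BKND.Loc2.map2 (loc2_fst hf.1) h1 (fun a b => Z.b a b)
  · have e1 := hf.2
    have e2 := hf'.2
    simp only [cup11]
    rw [← Z.eqv, e1 g h, e2 h l]
    simp only [act_mul, map_add, AddMonoidHom.add_apply]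
    abel

/-- the cup product of a two-cocycle and an invariant element is a cocycle -/
theorem cup20_mem {D : Type} [Group D] [TopologicalSpace D] {β : D →* AddMonoid.End A}
    (Z : Pair ℤ β K K') (u : D → D → K) (hu : u ∈ BKND.Z2 Z.ρ) (y : K')
    (hy : y ∈ BKND.H0 Z.ρ') : cup20 Z.b Z.ρ' u y ∈ BKND.Z2 β := by
  have hy' : ∀ d, Z.ρ' d y = y := hy
  have e0 : cup20 Z.b Z.ρ' u y = fun d d' => Z.b (u d d') y := by
    funext d d'
    rw [cup20, hy']
  rw [e0]
  refine ⟨BKND.Loc2.map hu.1 (fun a => Z.b a y), fun g h l => ?_⟩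
  have e1 := hu.2 g h l
  have e2 : β g (Z.b (u h l) y) = Z.b (Z.ρ g (u h l)) y := by
    rw [← Z.eqv, hy']
  rw [e2]
  have e3 := congrArg (fun a => Z.b a y) e1
  simp only [map_add, map_sub, AddMonoidHom.add_apply, AddMonoidHom.sub_apply, map_zero,
    AddMonoidHom.zero_apply] at e3
  exact e3

end Quo

end YLNAT

open YLNAT BKMet.XLINEA BKMet.XSWAP in
theorem stLnaT (h : StAnnT) : StLnaT := by
  classical
  intro p _ S _ G _ _ _ _ D _ _ _ _ Γ χ δ hG M M' _ _ _ X T hT hT' P N Q hP hN hQ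
    hPN hNQ K K' _ _ Y hgood φ φ' L x hx hxy
  have h2 := stCT
  obtain ⟨z, m⟩ := x
  obtain ⟨hz, hzQ, hz1, hz2, hz3⟩ := hx
  change Loc1 z at hz
  change ∀ g, z g ∈ Q at hzQ
  change ∀ g h, d1 X.ρ z g h ∈ N at hz1
  change ∀ w ∈ T, m w ∈ Q ∧ ∀ d, z (Γ.r w d) - d0 X.ρ (m w) (Γ.r w d) ∈ N at hz2
  change ∀ w ∉ T, m w = 0 at hz3
  have hfin : Finite K := hgood.fin
  have hα : ∀ w, Γ.α.comp (Γ.r w) = actA (χ.comp (Γ.r w)) := by
    intro w
    rw [hG.act]
    rfl
  -- the local pairs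
  set Yw : ∀ w, Pair ℤ (actA (χ.comp (Γ.r w))) K K' :=
    fun w => res Y (Γ.r w) (Γ.cont w) _ (hα w) with hYw
  -- the two-cocycle with values in `K`
  set u : G → G → K := fun g h => φ (d1 X.ρ z g h) with hu_def
  have hd1 : Loc2 (d1 X.ρ z) := loc2_d1 X.sm hz
  have hu : u ∈ BKND.Z2 Y.ρ := by
    refine ⟨BKND.Loc2.map hd1 φ, fun g h l => ?_⟩
    have e := congrArg φ (d2_d1 X.ρ z g h l)
    rw [qzero L, qsub L (N.add_mem (N.sub_mem (hN _ _ (hz1 _ _)) (hz1 _ _)) (hz1 _ _)) (hz1 _ _),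
      L.add _ (N.sub_mem (hN _ _ (hz1 _ _)) (hz1 _ _)) _ (hz1 _ _),
      qsub L (hN _ _ (hz1 _ _)) (hz1 _ _), L.act _ _ (hz1 _ _)] at e
    exact e
  have hloc : ∀ w, pb2 (Γ.r w) u ∈ BKND.B2 (Y.ρ.comp (Γ.r w)) := by
    intro w
    by_cases hw : w ∈ T
    · refine ⟨fun d => φ (z (Γ.r w d) - d0 X.ρ (m w) (Γ.r w d)),
        BKND.Loc1.map2 (loc1_pb1 (Γ.cont w) hz)
          (loc1_pb1 (Γ.cont w) (loc1_act X.sm)) (fun a b => φ (a - (b (m w) - m w))),
          fun d d' => ?_⟩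
      have e := qd1 L hN (Γ.r w) (fun d => z (Γ.r w d) - d0 X.ρ (m w) (Γ.r w d))
        (hz2 w hw).2 d d'
      refine Eq.trans ?_ e
      change φ (d1 X.ρ z (Γ.r w d) (Γ.r w d')) = φ _
      congr 1
      simp only [d1, d0, map_sub, (Γ.r w).map_mul, act_mul]
      abel
    · refine (hG.loc w).two K K' (Yw w) (pb2 (Γ.r w) u)
        (pb2_mem Y.ρ (Γ.r w) (Γ.cont w) u hu) ?_
      intro y hy
      have hy' : ∀ d, Y.ρ' (Γ.r w d) y = y := hy
      obtain ⟨n, hn, hny⟩ := L.surj' y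
      have hY : ((0 : G → M'), (Pi.single w n : S → M')) ∈
          X.flip.Zr Γ.r Tᶜ (X.perp N) (X.perp P) := by
        refine ⟨BKND.Loc1.const 0, fun g => (X.perp P).zero_mem, fun g h => ?_, fun w' hw' =>
          ⟨?_, fun d => ?_⟩, fun w' hw' => ?_⟩
        · have e : d1 X.flip.ρ (0 : G → M') g h = 0 := by simp [d1]
          change d1 X.flip.ρ (0 : G → M') g h ∈ _
          rw [e]
          exact (X.perp N).zero_mem
        · by_cases hww : w' = w
          · subst hww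
            change (Pi.single w' n : S → M') w' ∈ _
            rw [Pi.single_eq_same]
            exact hn
          · change (Pi.single w n : S → M') w' ∈ _
            rw [Pi.single_eq_of_ne hww]
            exact (X.perp P).zero_mem
        · by_cases hww : w' = w
          · subst hww
            change (0 : M') - d0 X.ρ' ((Pi.single w' n : S → M') w') (Γ.r w' d) ∈ X.perp N
            rw [Pi.single_eq_same, zero_sub, (X.perp N).neg_mem_iff, d0]
            have e1 := hy' d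
            rw [← L.ker' _ ((X.perp P).sub_mem (qstab hP _ _ hn) hn),
              qsub' L (qstab hP _ _ hn) hn, L.act' _ _ hn, hny, sub_eq_zero]
            exact e1
          · change (0 : M') - d0 X.ρ' ((Pi.single w n : S → M') w') (Γ.r w' d) ∈ X.perp N
            rw [Pi.single_eq_of_ne hww, d0, map_zero, sub_zero, sub_zero]
            exact (X.perp N).zero_mem
        · have hww : w' ≠ w := by
            rintro rfl
            exact hw' hw
          change (Pi.single w n : S → M') w' = 0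
          rw [Pi.single_eq_of_ne hww]
      have hCT := hxy _ hY
      set c : D w → D w → QZ p := cup20 (Yw w).b (Yw w).ρ' (pb2 (Γ.r w) u) y with hc_def
      have hc : c ∈ BKND.Z2 (Γ.α.comp (Γ.r w)) := by
        rw [hα]
        exact cup20_mem (Yw w) _ (pb2_mem Y.ρ (Γ.r w) (Γ.cont w) u hu) y hy
      have hXi : Xi Γ X T (z, m) ((0 : G → M'), (Pi.single w n : S → M')) =
          (0, Pi.single w c) := by
        refine Prod.ext ?_ ?_
        · funext g h l
          simp [Xi, cup21]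
        · funext w'
          by_cases hw' : w' ∈ T
          · have hww : w' ≠ w := by
              rintro rfl
              exact hw hw'
            simp only [Xi, if_pos hw', Pi.single_eq_of_ne hww]
            funext d d'
            simp [cup11, pb1]
          · by_cases hww : w' = w
            · subst hww
              simp only [Xi, if_neg hw', Pi.single_eq_same]
              funext d d'
              change X.b (d1 X.ρ z (Γ.r w' d) (Γ.r w' d')) (X.ρ' (Γ.r w' (d * d')) n) =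
                Y.b (φ (d1 X.ρ z (Γ.r w' d) (Γ.r w' d'))) (Y.ρ' (Γ.r w' (d * d')) y)
              rw [L.pair _ (hz1 _ _) _ (qstab hP _ _ hn), L.act' _ _ hn, hny]
            · simp only [Xi, if_neg hw', Pi.single_eq_of_ne hww]
              funext d d'
              simp [cup20]
      have hβ : ∀ w', (Pi.single w c : ∀ w', D w' → D w' → QZ p) w' ∈
          BKND.Z2 (Γ.α.comp (Γ.r w')) := by
        intro w'
        by_cases hww : w' = w
        · subst hww
          rw [Pi.single_eq_same]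
          exact hc
        · rw [Pi.single_eq_of_ne hww]
          exact (BKND.Z2 _).zero_mem
      rw [CT, hXi, tr_zero Γ _ hβ, Finset.sum_eq_single w, Pi.single_eq_same] at hCT
      · exact hCT
      · intro w' _ hww
        rw [Pi.single_eq_of_ne hww, map_zero]
      · intro h
        exact absurd (Finset.mem_univ w) h
  -- the two-cocycle is a coboundary
  obtain ⟨γ₀, hγ0, hγ1⟩ := hgood.two u hu hloc
  choose s hs hs1 using L.surj
  choose s' hs' hs1' using L.surj'
  set n₁ : G → M := fun g => z g - s (γ₀ g) with hn1_def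
  have hn1 : Loc1 n₁ := BKND.Loc1.map2 hz hγ0 (fun a b => a - s b)
  have hn1P : ∀ g h, d1 X.ρ n₁ g h ∈ P := by
    intro g h
    have hmem : X.ρ g (s (γ₀ h)) - s (γ₀ (g * h)) + s (γ₀ g) ∈ N :=
      N.add_mem (N.sub_mem (hN _ _ (hs _)) (hs _)) (hs _)
    have e0 : d1 X.ρ n₁ g h = d1 X.ρ z g h - (X.ρ g (s (γ₀ h)) - s (γ₀ (g * h)) + s (γ₀ g)) := by
      simp only [d1, hn1_def, map_sub]
      abel
    rw [e0, ← L.ker _ (N.sub_mem (hz1 _ _) hmem), qsub L (hz1 _ _) hmem,
      L.add _ (N.sub_mem (hN _ _ (hs _)) (hs _)) _ (hs _), qsub L (hN _ _ (hs _)) (hs _),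
      L.act _ _ (hs _), hs1, hs1, hs1, sub_eq_zero]
    exact hγ1 g h
  have hn1N : ∀ w ∈ T, ∀ d, n₁ (Γ.r w d) - d0 X.ρ (m w) (Γ.r w d) ∈ N := by
    intro w hw d
    have e0 : n₁ (Γ.r w d) - d0 X.ρ (m w) (Γ.r w d) =
        z (Γ.r w d) - d0 X.ρ (m w) (Γ.r w d) - s (γ₀ (Γ.r w d)) := by
      simp only [hn1_def]
      abel
    rw [e0]
    exact N.sub_mem ((hz2 w hw).2 d) (hs _)
  -- the local functions
  set b : ∀ w, D w → K := fun w => if w ∈ T then
    (fun d => φ (n₁ (Γ.r w d) - d0 X.ρ (m w) (Γ.r w d))) else 0 with hb_def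
  have hb1 : ∀ w ∈ T, b w = fun d => φ (n₁ (Γ.r w d) - d0 X.ρ (m w) (Γ.r w d)) :=
    fun w hw => if_pos hw
  have hb : ∀ w, b w ∈ BKND.Z1 (Y.ρ.comp (Γ.r w)) := by
    intro w
    by_cases hw : w ∈ T
    · rw [hb1 w hw]
      refine ⟨BKND.Loc1.map2 (loc1_pb1 (Γ.cont w) hn1) (loc1_pb1 (Γ.cont w) (loc1_act X.sm))
        (fun a b => φ (a - (b (m w) - m w))), fun d d' => ?_⟩
      have e := qd1 L hN (Γ.r w) (fun d => n₁ (Γ.r w d) - d0 X.ρ (m w) (Γ.r w d))
        (hn1N w hw) d d'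
      have e2 : X.ρ (Γ.r w d) (n₁ (Γ.r w d') - d0 X.ρ (m w) (Γ.r w d')) -
          (n₁ (Γ.r w (d * d')) - d0 X.ρ (m w) (Γ.r w (d * d'))) +
          (n₁ (Γ.r w d) - d0 X.ρ (m w) (Γ.r w d)) = d1 X.ρ n₁ (Γ.r w d) (Γ.r w d') := by
        simp only [d1, d0, map_sub, (Γ.r w).map_mul, act_mul]
        abel
      rw [e2, (L.ker _ (hPN (hn1P _ _))).2 (hn1P _ _)] at e
      change φ (n₁ (Γ.r w (d * d')) - d0 X.ρ (m w) (Γ.r w (d * d'))) =
        φ (n₁ (Γ.r w d) - d0 X.ρ (m w) (Γ.r w d)) +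
          Y.ρ (Γ.r w d) (φ (n₁ (Γ.r w d') - d0 X.ρ (m w) (Γ.r w d')))
      rw [eq_comm, ← sub_eq_zero, e]
      abel
    · have : b w = 0 := if_neg hw
      rw [this]
      exact (BKND.Z1 _).zero_mem
  have hann : ∀ e ∈ BKND.Z1 Y.ρ',
      (∀ w ∉ T, pb1 (Γ.r w) e ∈ BKND.B1 (Y.ρ'.comp (Γ.r w))) →
      (∑ w, if w ∈ T then
        Γ.inv w (cup11 Y.b (Y.ρ'.comp (Γ.r w)) (b w) (pb1 (Γ.r w) e)) else 0) = 0 := by
    intro e he hel
    have hF : ∀ w, ∃ f : M', f ∈ X.perp P ∧ (w ∈ T → f = 0) ∧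
        (w ∉ T → ∀ d, e (Γ.r w d) = Y.ρ' (Γ.r w d) (φ' f) - φ' f) := by
      intro w
      by_cases hw : w ∈ T
      · exact ⟨0, (X.perp P).zero_mem, fun _ => rfl, fun h => absurd hw h⟩
      · obtain ⟨c, hc⟩ := hel w hw
        exact ⟨s' c, hs' c, fun h => absurd h hw, fun _ d => by rw [hs1']; exact hc d⟩
    choose F hF1 hF2 hF3 using hF
    have hY : ((fun g => s' (e g)), F) ∈ X.flip.Zr Γ.r Tᶜ (X.perp N) (X.perp P) := by
      refine ⟨BKND.Loc1.map he.1 s', fun g => hs' _, fun g h => ?_, fun w' hw' =>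
          ⟨hF1 w', fun d => ?_⟩, fun w' hw' => ?_⟩
      · change X.ρ' g (s' (e h)) - s' (e (g * h)) + s' (e g) ∈ X.perp N
        rw [← L.ker' _ ((X.perp P).add_mem ((X.perp P).sub_mem (qstab hP _ _ (hs' _)) (hs' _))
          (hs' _)), L.add' _ ((X.perp P).sub_mem (qstab hP _ _ (hs' _)) (hs' _)) _ (hs' _),
          qsub' L (qstab hP _ _ (hs' _)) (hs' _), L.act' _ _ (hs' _), hs1', hs1', hs1',
          he.2 g h]
        abel
      · change s' (e (Γ.r w' d)) - (X.ρ' (Γ.r w' d) (F w') - F w') ∈ X.perp N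
        rw [← L.ker' _ ((X.perp P).sub_mem (hs' _) ((X.perp P).sub_mem
          (qstab hP _ _ (hF1 _)) (hF1 _))), qsub' L (hs' _) ((X.perp P).sub_mem
          (qstab hP _ _ (hF1 _)) (hF1 _)), qsub' L (qstab hP _ _ (hF1 _)) (hF1 _),
          L.act' _ _ (hF1 _), hs1', hF3 w' hw' d, sub_self]
      · exact hF2 w' (not_not.1 hw')
    have hCT := hxy _ hY
    obtain ⟨c1, -, -, c4⟩ := h2 ℤ S G D (QZ p) (QZ p) Γ M M' X T
    have hY' : ((fun g => s' (e g)), F) ∈ X.flip.Zr Γ.r Tᶜ (X.perp N) ⊤ :=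
      ⟨hY.1, fun _ => trivial, hY.2.2.1, fun w hw => ⟨trivial, (hY.2.2.2.1 w hw).2⟩,
        hY.2.2.2.2⟩
    have hv := (c4 N hN).1 ((fun g => s (γ₀ g)), (0 : S → M)) ⟨BKND.Loc1.map hγ0 s, ⟨0, trivial,
      fun g => by
        change s (γ₀ g) - d0 X.ρ 0 g ∈ N
        rw [d0, map_zero, sub_zero, sub_zero]
        exact hs _, fun w _ => by
        change (0 : M) - 0 ∈ N
        rw [sub_zero]
        exact N.zero_mem⟩, fun w _ => rfl⟩ _ hY'
    have hsplit : (z, m) = (n₁, m) + ((fun g => s (γ₀ g)), (0 : S → M)) := by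
      refine Prod.ext ?_ ?_
      · funext g
        change z g = z g - s (γ₀ g) + s (γ₀ g)
        rw [sub_add_cancel]
      · change m = m + 0
        rw [add_zero]
    rw [hsplit, c1, hv, add_zero] at hCT
    have hXi : Xi Γ X T (n₁, m) ((fun g => s' (e g)), F) =
        (0, fun w => if w ∈ T then
          cup11 Y.b (Y.ρ'.comp (Γ.r w)) (b w) (pb1 (Γ.r w) e) else 0) := by
      refine Prod.ext ?_ ?_
      · funext g h l
        exact qstab hP _ _ (hs' _) _ (hn1P _ _)
      · funext w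
        by_cases hw : w ∈ T
        · simp only [Xi, if_pos hw]
          funext d d'
          change X.b (n₁ (Γ.r w d) - d0 X.ρ (m w) (Γ.r w d)) (X.ρ' (Γ.r w d)
            (s' (e (Γ.r w d')))) = Y.b (b w d) (Y.ρ' (Γ.r w d) (e (Γ.r w d')))
          rw [L.pair _ (hn1N w hw d) _ (qstab hP _ _ (hs' _)), L.act' _ _ (hs' _), hs1',
            hb1 w hw]
        · simp only [Xi, if_neg hw]
          funext d d'
          exact qstab hP _ _ (hF1 _) _ (hn1P _ _)
    have hβ : ∀ w, (if w ∈ T then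
        cup11 Y.b (Y.ρ'.comp (Γ.r w)) (b w) (pb1 (Γ.r w) e) else 0) ∈
        BKND.Z2 (Γ.α.comp (Γ.r w)) := by
      intro w
      by_cases hw : w ∈ T
      · rw [if_pos hw, hα]
        refine cup11_mem (Yw w) _ _ (hb w) ⟨loc1_pb1 (Γ.cont w) he.1, fun d d' => ?_⟩
        have := he.2 (Γ.r w d) (Γ.r w d')
        simp only [pb1, map_mul]
        exact this
      · rw [if_neg hw]
        exact (BKND.Z2 _).zero_mem
    rw [CT, hXi, tr_zero Γ _ hβ] at hCT
    refine Eq.trans (Finset.sum_congr rfl fun w _ => ?_) hCT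
    by_cases hw : w ∈ T
    · rw [if_pos hw, if_pos hw]
    · rw [if_neg hw, if_neg hw, map_zero]
  obtain ⟨η, hη, hη1⟩ := (h p S G D Γ χ δ hG K K' Y hgood).1 T b hb (by
    intro e he hel
    have := hann e he hel
    convert this)
  choose! c hc using hη1
  refine ⟨((fun g => n₁ g - s (η g)), fun w => if w ∈ T then m w - s (c w) else 0), ?_, ?_⟩
  · refine ⟨BKND.Loc1.map2 hn1 hη.1 (fun a b => a - s b), fun g => ?_, fun g h => ?_,
      fun w hw => ⟨?_, fun d => ?_⟩, fun w hw => if_neg hw⟩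
    · exact Q.sub_mem (Q.sub_mem (hzQ g) (hNQ (hs _))) (hNQ (hs _))
    · have hmem : X.ρ g (s (η h)) - s (η (g * h)) + s (η g) ∈ N :=
        N.add_mem (N.sub_mem (hN _ _ (hs _)) (hs _)) (hs _)
      have e0 : d1 X.ρ (fun g => n₁ g - s (η g)) g h =
          d1 X.ρ n₁ g h - (X.ρ g (s (η h)) - s (η (g * h)) + s (η g)) := by
        simp only [d1, map_sub]
        abel
      change d1 X.ρ (fun g => n₁ g - s (η g)) g h ∈ P
      rw [e0]
      refine P.sub_mem (hn1P g h) ?_
      rw [← L.ker _ hmem, L.add _ (N.sub_mem (hN _ _ (hs _)) (hs _)) _ (hs _),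
        qsub L (hN _ _ (hs _)) (hs _), L.act _ _ (hs _), hs1, hs1, hs1, hη.2 g h]
      abel
    · change (if w ∈ T then m w - s (c w) else 0) ∈ Q
      rw [if_pos hw]
      exact Q.sub_mem (hz2 w hw).1 (hNQ (hs _))
    · change n₁ (Γ.r w d) - s (η (Γ.r w d)) -
        d0 X.ρ (if w ∈ T then m w - s (c w) else 0) (Γ.r w d) ∈ P
      rw [if_pos hw]
      have hmem : X.ρ (Γ.r w d) (s (c w)) - s (c w) ∈ N := N.sub_mem (hN _ _ (hs _)) (hs _)
      have e0 : n₁ (Γ.r w d) - s (η (Γ.r w d)) - d0 X.ρ (m w - s (c w)) (Γ.r w d) =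
          n₁ (Γ.r w d) - d0 X.ρ (m w) (Γ.r w d) -
            (s (η (Γ.r w d)) - (X.ρ (Γ.r w d) (s (c w)) - s (c w))) := by
        simp only [d0, map_sub]
        abel
      rw [e0, ← L.ker _ (N.sub_mem (hn1N w hw d) (N.sub_mem (hs _) hmem)),
        qsub L (hn1N w hw d) (N.sub_mem (hs _) hmem), qsub L (hs _) hmem,
        qsub L (hN _ _ (hs _)) (hs _), L.act _ _ (hs _), hs1, hs1]
      have e1 := hc w hw d
      have e2 := congrFun (hb1 w hw) d
      simp only [Pi.sub_apply, pb1] at e1 e2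
      rw [e2] at e1
      change η (Γ.r w d) - φ (n₁ (Γ.r w d) - d0 X.ρ (m w) (Γ.r w d)) =
        Y.ρ (Γ.r w d) (c w) - c w at e1
      rw [← e1]
      abel
  · refine ⟨BKND.Loc1.map2 hz (BKND.Loc1.map2 hn1 hη.1 (fun a b => a - s b)) (· - ·),
      ⟨0, Q.zero_mem, fun g => ?_, fun w hw => ?_⟩, fun w hw => ?_⟩
    · change z g - (z g - s (γ₀ g) - s (η g)) - d0 X.ρ 0 g ∈ N
      have e0 : z g - (z g - s (γ₀ g) - s (η g)) - d0 X.ρ 0 g = s (γ₀ g) + s (η g) := by
        rw [d0, map_zero]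
        abel
      rw [e0]
      exact N.add_mem (hs _) (hs _)
    · change m w - (if w ∈ T then m w - s (c w) else 0) - 0 ∈ N
      rw [if_pos hw, sub_zero, sub_sub_cancel]
      exact hs _
    · change m w - (if w ∈ T then m w - s (c w) else 0) = 0
      rw [if_neg hw, hz3 w hw, sub_zero]

end BKT
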