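import Pool.Agent.Lib.MP_7c08ba_nt.T1.StF
import Pool.Agent.Lib.MP_7c08ba_nt.T1.YLNAT
import Pool.Agent.Lib.MP_7c08ba_nt.Met.FGAM

set_option autoImplicit false

/-!
Parity for general residual representations, module GAMT: the global situation of part Y.
-/

noncomputable section

namespace BKT

open BKPar (Loc1 Loc2)
open BKND (Sm)
open BKMet

namespace FGAMT

/-- the local axioms depend only on the vanishing of the invariants on cocycles -/
theorem locG_congr {p : ℕ} [Fact p.Prime] {D : Type} [Group D] [TopologicalSpace D]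
    {χ : D →* ℤ_[p]ˣ} {inv inv' : (D → D → QZ p) →+ QZ p} {d : ℕ} (h : LocG p χ inv d)
    (hi : ∀ z ∈ BKND.Z2 (actA χ), inv' z = 0 ↔ inv z = 0) : LocG p χ inv' d where
  inv_eq := fun z hz => (hi z hz).trans (h.inv_eq z hz)
  one := fun M M' _ _ _ X f hf hf' => h.one M M' X f hf fun f' hf'' =>
    (hi _ (YLNAT.cup11_mem X f f' hf hf'')).1 (hf' f' hf'')
  two := fun M M' _ _ _ X z hz hz' => h.two M M' X z hz fun y hy =>
    (hi _ (YLNAT.cup20_mem X z hz y hy)).1 (hz' y hy)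
  card := h.card

end FGAMT

open FGAMT BKMet.FGAM in
/-- Module GAMT. -/
theorem stGamT : StGamT := by
  intro p _ hp ι _ G _ _ _ _ D _ _ r c χ inv δ U hS
  have hch : ∀ i, ∃ inv' : (D i → D i → QZ p) →+ QZ p,
      (∀ z ∈ BKND.B2 (actA (χ.comp (r i))), inv' z = 0) ∧
      ∀ z ∈ BKND.Z2 (actA (χ.comp (r i))), inv' z = inv i z := fun i =>
    BKMet.FGAM.change (χ.comp (r i)) (inv i) (hS.loc i).inv_eq
  choose inv' h1 h2 using hch
  have ec : χ.comp c = χ := MonoidHom.ext hS.χ_c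
  have e1 : ∀ w, χ.comp (rr r c w) = χ.comp (r w.1) := by
    rintro ⟨i, b⟩
    cases b
    · rfl
    · change χ.comp (c.comp (r i)) = χ.comp (r i)
      rw [← MonoidHom.comp_assoc, ec]
  have e2 : ∀ w, (actA χ).comp (rr r c w) = actA (χ.comp (r w.1)) := by
    intro w
    rw [← e1]
    rfl
  have hcont : ∀ w, Continuous (rr r c w) := by
    rintro ⟨i, b⟩
    cases b
    · exact hS.cont_r i
    · exact hS.cont_c.comp (hS.cont_r i)
  have hpb : ∀ w, ∀ z ∈ BKND.Z2 (actA χ), pb2 (rr r c w) z ∈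
      BKND.Z2 (actA (χ.comp (r w.1))) := by
    intro w z hz
    rw [← e2]
    exact XLINEA.pb2_mem _ _ (hcont w) z hz
  obtain ⟨tr, ht1, ht2⟩ := All.tr p ι G D r hS.cont_r c hS.cont_c hS.inv_c (QZ p) (actA χ)
    (fun g => by
      have := congrArg (fun f : G →* ℤ_[p]ˣ => actA f g) ec
      exact this) inv' h1 (fun z hz => by
      rw [← hS.recip z hz]
      refine Finset.sum_congr rfl fun i _ => ?_
      exact congrArg₂ (· - ·) (h2 i _ (hpb (i, false) z hz)) (h2 i _ (hpb (i, true) z hz)))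
  have hii : ∀ w : ι × Bool, ∀ z ∈ BKND.Z2 (actA (χ.comp (r w.1))),
      ii inv' w z = 0 ↔ inv w.1 z = 0 := by
    rintro ⟨i, b⟩ z hz
    cases b
    · change 2 • inv' i z = 0 ↔ inv i z = 0
      rw [BKMet.FGAM.two hp, h2 i z hz]
    · change -(2 • inv' i z) = 0 ↔ inv i z = 0
      rw [neg_eq_zero, BKMet.FGAM.two hp, h2 i z hz]
  have hie : ∀ w, ∀ z ∈ BKND.Z2 ((actA χ).comp (rr r c w)),
      ii inv' w z = 0 ↔ z ∈ BKND.B2 ((actA χ).comp (rr r c w)) := by
    intro w z hz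
    rw [e2] at hz ⊢
    exact (hii w z hz).trans ((hS.loc w.1).inv_eq z hz)
  let Γ : Glo (ι × Bool) G (DD D) (QZ p) (QZ p) :=
    Glo.mk (rr r c) hcont (actA χ) (psm χ hS.cont_χ) (ii inv') hie tr ht1
  refine ⟨Γ, fun w => rfl, fun i z => rfl, ht2, ⟨rfl, fun w => ?_, ?_⟩, hS.cont_χ, hS.normal,
    hS.open', hS.fix, hS.glob⟩
  · change LocG p (χ.comp (rr r c w)) (ii inv' w) (δ w.1)
    rw [e1]
    exact locG_congr (hS.loc w.1) (hii w)
  · rw [Fintype.sum_prod_type]
    simp only [Fintype.sum_bool]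
    rw [Finset.sum_add_distrib, hS.sum]

end BKT
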