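import Pool.Agent.Lib.MP_7c08ba_nt.T1.StF

set_option autoImplicit false

/-!
Parity for general residual representations: module JHT, the simple subquotients of lattices are
subquotients of the reduction.
-/

noncomputable section

namespace BKT

open BKMet
open Matrix

namespace FJHT

section

variable {p : ℕ} [Fact p.Prime] {L : Type} [NormedField L] [NormedAlgebra ℚ_[p] L]
  [FiniteDimensional ℚ_[p] L] {G : Type} [Group G] {n : ℕ}

/-- multiplication by `π^i` -/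
def mm (p : ℕ) [Fact p.Prime] (L : Type) [NormedField L] [NormedAlgebra ℚ_[p] L]
    [FiniteDimensional ℚ_[p] L] (n i : ℕ) : (Fin n → OO p L) →ₗ[OO p L] (Fin n → OO p L) :=
  LinearMap.lsmul (OO p L) (Fin n → OO p L) (pi0 p L ^ i)

theorem mm_apply (i : ℕ) (x : Fin n → OO p L) : mm p L n i x = pi0 p L ^ i • x := rfl

variable {ρ : G →* GL (Fin n) (OO p L)} {P Q : Submodule (OO p L) (Fin n → OO p L)}

theorem stb_comap (hP : Stb ρ P) (i : ℕ) : Stb ρ (P.comap (mm p L n i)) := by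
  intro g x hx
  have h1 : pi0 p L ^ i • x ∈ P := hx
  have h2 := hP g _ h1
  rw [Matrix.mulVec_smul] at h2
  exact h2

theorem stb_map (hP : Stb ρ P) (i : ℕ) : Stb ρ (P.map (mm p L n i)) := by
  rintro g _ ⟨x, hx, rfl⟩
  refine ⟨_, hP g x hx, ?_⟩
  rw [mm_apply, mm_apply, Matrix.mulVec_smul]

omit [FiniteDimensional ℚ_[p] L] in
theorem stb_sup (hP : Stb ρ P) (hQ : Stb ρ Q) : Stb ρ (P ⊔ Q) := by
  intro g x hx
  obtain ⟨y, hy, z, hz, rfl⟩ := Submodule.mem_sup.1 hx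
  rw [Matrix.mulVec_add]
  exact Submodule.add_mem_sup (hP g y hy) (hQ g z hz)

omit [FiniteDimensional ℚ_[p] L] in
theorem stb_inf (hP : Stb ρ P) (hQ : Stb ρ Q) : Stb ρ (P ⊓ Q) :=
  fun g x hx => ⟨hP g x hx.1, hQ g x hx.2⟩

omit [FiniteDimensional ℚ_[p] L] in
theorem stb_top : Stb ρ ⊤ := fun _ _ _ => Submodule.mem_top

/-- `P + (Q ∩ π^i T)` -/
def RR (P Q : Submodule (OO p L) (Fin n → OO p L)) (i : ℕ) :
    Submodule (OO p L) (Fin n → OO p L) :=
  P ⊔ (Q.comap (mm p L n i)).map (mm p L n i)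

theorem RR_le (h : P ≤ Q) (i : ℕ) : RR P Q i ≤ Q := by
  refine sup_le h ?_
  rintro _ ⟨x, hx, rfl⟩
  exact hx

theorem exists_step (hS : Smp ρ P Q) (hN : ∃ N : ℕ, ∀ x : Fin n → OO p L, pi0 p L ^ N • x ∈ P) :
    ∃ i, RR P Q i = Q ∧ RR P Q (i + 1) = P := by
  classical
  have h1 : ∀ i, RR P Q i = P ∨ RR P Q i = Q := fun i =>
    hS.simple _ (stb_sup hS.stab (stb_map (stb_comap hS.stab' i) i)) le_sup_left
      (RR_le hS.lt.le i)
  obtain ⟨N, hN⟩ := hN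
  have h2 : ∃ j, RR P Q j = P := by
    refine ⟨N, le_antisymm (sup_le le_rfl ?_) le_sup_left⟩
    rintro _ ⟨x, _, rfl⟩
    exact hN x
  have h3 := Nat.find_spec h2
  have h4 : Nat.find h2 ≠ 0 := by
    intro h0
    rw [h0] at h3
    have h5 : Q ≤ RR P Q 0 := by
      intro x hx
      refine Submodule.mem_sup_right ⟨x, ?_, ?_⟩
      · change pi0 p L ^ 0 • x ∈ Q
        rw [pow_zero, one_smul]
        exact hx
      · rw [mm_apply, pow_zero, one_smul]
    rw [h3] at h5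
    exact not_le_of_gt hS.lt h5
  obtain ⟨i, hi⟩ := Nat.exists_eq_succ_of_ne_zero h4
  refine ⟨i, ?_, ?_⟩
  · exact (h1 i).resolve_left (Nat.find_min h2 (by omega))
  · rw [hi] at h3
    exact h3

/-- `{x : π^i x ∈ Q} + π T` -/
def QQ (Q : Submodule (OO p L) (Fin n → OO p L)) (i : ℕ) :
    Submodule (OO p L) (Fin n → OO p L) :=
  Q.comap (mm p L n i) ⊔ (⊤ : Submodule (OO p L) (Fin n → OO p L)).map (mm p L n 1)

theorem QQ_stb (hQ : Stb ρ Q) (i : ℕ) : Stb ρ (QQ Q i) :=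
  stb_sup (stb_comap hQ i) (stb_map stb_top 1)

theorem pi_mem (i : ℕ) (x : Fin n → OO p L) : pi0 p L • x ∈ QQ Q i := by
  refine Submodule.mem_sup_right ⟨x, Submodule.mem_top, ?_⟩
  rw [mm_apply, pow_one]

theorem mem_QQ {i : ℕ} {x : Fin n → OO p L} :
    x ∈ QQ Q i ↔ ∃ u t : Fin n → OO p L, pi0 p L ^ i • u ∈ Q ∧ x = u + pi0 p L • t := by
  constructor
  · intro hx
    obtain ⟨u, hu, _, ⟨t, _, rfl⟩, rfl⟩ := Submodule.mem_sup.1 hx
    refine ⟨u, t, hu, ?_⟩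
    rw [mm_apply, pow_one]
  · rintro ⟨u, t, hu, rfl⟩
    exact Submodule.add_mem _ (Submodule.mem_sup_left hu) (pi_mem i t)

/-- the elements of `π T` whose multiple by `π^i` is in `Q` have their multiple in `P` -/
theorem key {i : ℕ} (h2 : RR P Q (i + 1) = P) {t : Fin n → OO p L}
    (ht : pi0 p L ^ i • pi0 p L • t ∈ Q) : pi0 p L ^ i • pi0 p L • t ∈ P := by
  rw [← h2]
  refine Submodule.mem_sup_right ⟨t, ?_, ?_⟩
  · change pi0 p L ^ (i + 1) • t ∈ Q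
    rw [pow_succ, mul_smul]
    exact ht
  · rw [mm_apply, pow_succ, mul_smul]

/-- the component -/
theorem key2 {i : ℕ} (h2 : RR P Q (i + 1) = P) {u u' t t' : Fin n → OO p L}
    (hu : pi0 p L ^ i • u ∈ Q) (hu' : pi0 p L ^ i • u' ∈ Q)
    (h : u + pi0 p L • t = u' + pi0 p L • t') : pi0 p L ^ i • u - pi0 p L ^ i • u' ∈ P := by
  have h3 : u - u' = pi0 p L • (t' - t) := by
    rw [smul_sub, sub_eq_sub_iff_add_eq_add, h, add_comm]
  rw [← smul_sub, h3]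
  apply key h2
  rw [← h3, smul_sub]
  exact Q.sub_mem hu hu'

theorem mem_P1 {i : ℕ} (hPQ : P ≤ Q) (h2 : RR P Q (i + 1) = P) {u : Fin n → OO p L}
    (hu : pi0 p L ^ i • u ∈ Q) (h : u ∈ QQ P i) : pi0 p L ^ i • u ∈ P := by
  obtain ⟨u', t', hu', e⟩ := mem_QQ.1 h
  have h3 : u + pi0 p L • (0 : Fin n → OO p L) = u' + pi0 p L • t' := by
    rw [smul_zero, add_zero, e]
  have h4 := key2 h2 hu (hPQ hu') h3
  have h5 := P.add_mem h4 hu'
  rwa [sub_add_cancel] at h5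

theorem surj {i : ℕ} (h1 : RR P Q i = Q) {z : Fin n → OO p L} (hz : z ∈ Q) :
    ∃ y ∈ P, ∃ u, pi0 p L ^ i • u ∈ Q ∧ z = y + pi0 p L ^ i • u := by
  rw [← h1] at hz
  obtain ⟨y, hy, _, ⟨u, hu, rfl⟩, rfl⟩ := Submodule.mem_sup.1 hz
  exact ⟨y, hy, u, hu, rfl⟩

theorem smp {i : ℕ} (hS : Smp ρ P Q) (h1 : RR P Q i = Q) (h2 : RR P Q (i + 1) = P) :
    Smp ρ (QQ P i) (QQ Q i) := by
  have hle : QQ P i ≤ QQ Q i := sup_le_sup (Submodule.comap_mono hS.lt.le) le_rfl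
  refine ⟨lt_of_le_of_ne hle ?_, QQ_stb hS.stab i, QQ_stb hS.stab' i, fun N hN hPN hNQ => ?_⟩
  · intro h
    apply not_le_of_gt hS.lt
    intro z hz
    obtain ⟨y, hy, u, hu, rfl⟩ := surj h1 hz
    refine P.add_mem hy (mem_P1 hS.lt.le h2 hu ?_)
    rw [h]
    exact Submodule.mem_sup_left hu
  · have h3 : Stb ρ (P ⊔ (N ⊓ Q.comap (mm p L n i)).map (mm p L n i)) :=
      stb_sup hS.stab (stb_map (stb_inf hN (stb_comap hS.stab' i)) i)
    have h4 : P ⊔ (N ⊓ Q.comap (mm p L n i)).map (mm p L n i) ≤ Q := by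
      refine sup_le hS.lt.le ?_
      rintro _ ⟨x, hx, rfl⟩
      exact hx.2
    rcases hS.simple _ h3 le_sup_left h4 with h5 | h5
    · left
      refine le_antisymm ?_ hPN
      intro x hx
      obtain ⟨u, t, hu, e⟩ := mem_QQ.1 (hNQ hx)
      have h6 : u ∈ N := by
        have h7 : x - pi0 p L • t ∈ N := N.sub_mem hx (hPN (pi_mem i t))
        rw [e, add_sub_cancel_right] at h7
        exact h7
      have h8 : pi0 p L ^ i • u ∈ P := by
        rw [← h5]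
        exact Submodule.mem_sup_right ⟨u, ⟨h6, hu⟩, rfl⟩
      exact mem_QQ.2 ⟨u, t, h8, e⟩
    · right
      refine le_antisymm hNQ ?_
      intro x hx
      obtain ⟨u, t, hu, rfl⟩ := mem_QQ.1 hx
      refine N.add_mem ?_ (hPN (pi_mem i t))
      have h6 := hu
      rw [← h5] at h6
      obtain ⟨y, hy, _, ⟨v, hv, rfl⟩, e⟩ := Submodule.mem_sup.1 h6
      have h7 : pi0 p L ^ i • (u - v) ∈ P := by
        have h8 : pi0 p L ^ i • (u - v) = y := by
          rw [smul_sub, ← e, mm_apply, add_sub_cancel_right]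
        rw [h8]
        exact hy
      have h8 : u - v ∈ N := hPN (Submodule.mem_sup_left h7)
      have h9 := N.add_mem h8 hv.1
      rwa [sub_add_cancel] at h9

open Classical in
/-- the component of an element of `QQ Q i` -/
def cp (Q : Submodule (OO p L) (Fin n → OO p L)) (i : ℕ) (x : Fin n → OO p L) :
    Fin n → OO p L :=
  if h : ∃ u t : Fin n → OO p L, pi0 p L ^ i • u ∈ Q ∧ x = u + pi0 p L • t then h.choose else 0

theorem cp_spec {i : ℕ} {x : Fin n → OO p L} (hx : x ∈ QQ Q i) :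
    pi0 p L ^ i • cp Q i x ∈ Q ∧ ∃ t, x = cp Q i x + pi0 p L • t := by
  have h := mem_QQ.1 hx
  unfold cp
  rw [dif_pos h]
  obtain ⟨t, h1, h2⟩ := h.choose_spec
  exact ⟨h1, t, h2⟩

theorem cp_eq {i : ℕ} (h2 : RR P Q (i + 1) = P) {u t : Fin n → OO p L}
    (hu : pi0 p L ^ i • u ∈ Q) :
    pi0 p L ^ i • cp Q i (u + pi0 p L • t) - pi0 p L ^ i • u ∈ P := by
  obtain ⟨h3, t', h4⟩ := cp_spec (mem_QQ.2 ⟨u, t, hu, rfl⟩ : u + pi0 p L • t ∈ QQ Q i)
  exact key2 h2 h3 hu h4.symm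

theorem form {i : ℕ} (hS : Smp ρ P Q) (h1 : RR P Q i = Q) (h2 : RR P Q (i + 1) = P)
    {c : G →* G} {χ : G →* ℤ_[p]ˣ} {f : (Fin n → OO p L) → (Fin n → OO p L) → kk p L}
    (hf : SymF ρ c χ P Q f) :
    SymF ρ c χ (QQ P i) (QQ Q i)
      (fun x y => f (pi0 p L ^ i • cp Q i x) (pi0 p L ^ i • cp Q i y)) := by
  have hsub : ∀ x ∈ Q, ∀ x' ∈ Q, ∀ y ∈ Q, x - x' ∈ P → f x y = f x' y := by
    intro x hx x' hx' y hy h
    have h3 := (hf.ker _ (hS.lt.le h)).1 h y hy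
    have h4 := hf.add (x - x') (hS.lt.le h) x' hx' y hy
    rw [sub_add_cancel, h3, zero_add] at h4
    exact h4
  -- the value can be computed with any component
  have hcp : ∀ x ∈ QQ Q i, ∀ u t, pi0 p L ^ i • u ∈ Q → x = u + pi0 p L • t → ∀ y ∈ Q,
      f (pi0 p L ^ i • cp Q i x) y = f (pi0 p L ^ i • u) y := by
    intro x hx u t hu e y hy
    refine hsub _ (cp_spec hx).1 _ hu y hy ?_
    subst e
    exact cp_eq h2 hu
  refine ⟨?_, ?_, ?_, ?_, ?_⟩
  · intro x hx x' hx' y hy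
    obtain ⟨hu, t, e⟩ := cp_spec hx
    obtain ⟨hu', t', e'⟩ := cp_spec hx'
    have h3 : pi0 p L ^ i • (cp Q i x + cp Q i x') ∈ Q := by
      rw [smul_add]
      exact Q.add_mem hu hu'
    have h4 : x + x' = (cp Q i x + cp Q i x') + pi0 p L • (t + t') := by
      rw [smul_add]
      nth_rewrite 1 [e, e']
      abel
    change f (pi0 p L ^ i • cp Q i (x + x')) _ = _
    rw [hcp _ (Submodule.add_mem _ hx hx') _ _ h3 h4 _ (cp_spec hy).1, smul_add,
      hf.add _ hu _ hu' _ (cp_spec hy).1]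
  · intro a x hx y hy
    obtain ⟨hu, t, e⟩ := cp_spec hx
    have h3 : pi0 p L ^ i • (a • cp Q i x) ∈ Q := by
      rw [smul_comm]
      exact Q.smul_mem a hu
    have h4 : a • x = a • cp Q i x + pi0 p L • (a • t) := by
      nth_rewrite 1 [e]
      rw [smul_add, smul_comm a (pi0 p L)]
    change f (pi0 p L ^ i • cp Q i (a • x)) _ = _
    rw [hcp _ (Submodule.smul_mem _ a hx) _ _ h3 h4 _ (cp_spec hy).1, smul_comm,
      hf.smul a _ hu _ (cp_spec hy).1]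
  · intro x hx y hy
    exact hf.symm _ (cp_spec hx).1 _ (cp_spec hy).1
  · intro g x hx y hy
    obtain ⟨hu, t, e⟩ := cp_spec hx
    obtain ⟨hv, s, e'⟩ := cp_spec hy
    have hgx := QQ_stb hS.stab' i g x hx
    have hgy := QQ_stb hS.stab' i (c g) y hy
    have h3 : pi0 p L ^ i • ((ρ g : Matrix (Fin n) (Fin n) (OO p L)) *ᵥ cp Q i x) ∈ Q := by
      rw [← Matrix.mulVec_smul]
      exact hS.stab' g _ hu
    have h3' : pi0 p L ^ i • ((ρ (c g) : Matrix (Fin n) (Fin n) (OO p L)) *ᵥ cp Q i y) ∈ Q := by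
      rw [← Matrix.mulVec_smul]
      exact hS.stab' (c g) _ hv
    have h4 : (ρ g : Matrix (Fin n) (Fin n) (OO p L)) *ᵥ x =
        (ρ g : Matrix (Fin n) (Fin n) (OO p L)) *ᵥ cp Q i x +
          pi0 p L • ((ρ g : Matrix (Fin n) (Fin n) (OO p L)) *ᵥ t) := by
      nth_rewrite 1 [e]
      rw [Matrix.mulVec_add, Matrix.mulVec_smul]
    have h4' : (ρ (c g) : Matrix (Fin n) (Fin n) (OO p L)) *ᵥ y =
        (ρ (c g) : Matrix (Fin n) (Fin n) (OO p L)) *ᵥ cp Q i y +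
          pi0 p L • ((ρ (c g) : Matrix (Fin n) (Fin n) (OO p L)) *ᵥ s) := by
      nth_rewrite 1 [e']
      rw [Matrix.mulVec_add, Matrix.mulVec_smul]
    change f (pi0 p L ^ i • cp Q i _) (pi0 p L ^ i • cp Q i _) = _
    rw [hcp _ hgx _ _ h3 h4 _ (cp_spec hgy).1, hf.symm _ h3 _ (cp_spec hgy).1,
      hcp _ hgy _ _ h3' h4' _ h3, hf.symm _ h3' _ h3, ← Matrix.mulVec_smul, ← Matrix.mulVec_smul,
      hf.eqv g _ hu _ hv]
  · intro x hx
    obtain ⟨hu, t, e⟩ := cp_spec hx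
    constructor
    · intro hxP y hy
      obtain ⟨v, s, hv, e'⟩ := mem_QQ.1 hxP
      rw [hcp x hx v s (hS.lt.le hv) e' _ (cp_spec hy).1]
      exact (hf.ker _ (hS.lt.le hv)).1 hv _ (cp_spec hy).1
    · intro h
      refine mem_QQ.2 ⟨cp Q i x, t, (hf.ker _ hu).2 fun z hz => ?_, e⟩
      obtain ⟨y, hy, u, hu', rfl⟩ := surj h1 hz
      have hu'' : u ∈ QQ Q i := Submodule.mem_sup_left hu'
      have h5 : f (pi0 p L ^ i • cp Q i x) (pi0 p L ^ i • cp Q i u) = 0 := h u hu''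
      have h6 : u = u + pi0 p L • (0 : Fin n → OO p L) := by
        rw [smul_zero, add_zero]
      rw [hf.symm _ hu _ (cp_spec hu'').1, hcp u hu'' u 0 hu' h6 _ hu] at h5
      rw [hf.symm _ hu _ hz, hf.add y (hS.lt.le hy) _ hu' _ hu, h5, add_zero]
      exact (hf.ker _ (hS.lt.le hy)).1 hy _ hu

end

end FJHT

open FJHT in
theorem stJhT : StJhT := by
  intro p _ L _ _ _ G _ n ρ c χ hno P Q hN hS f hf
  obtain ⟨i, h1, h2⟩ := exists_step hS hN
  exact hno (QQ P i) (QQ Q i) (fun x => pi_mem i x) (smp hS h1 h2) _ (form hS h1 h2 hf)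

end BKT
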