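import Pool.Agent.Lib.MP_7c08ba_nt.T1.StF
import Pool.Agent.Lib.MP_7c08ba_nt.Met.LLATT

set_option autoImplicit false

/-!
Parity for general residual representations, part F, module LATTT: a unimodular lattice and a
Lagrangian subspace of its reduction.
-/

noncomputable section

namespace BKT

open BKMet
open Matrix

namespace FLATTT

open BKMet.LLATT

variable {p : ℕ} [Fact p.Prime] {L : Type} [NormedField L] [NormedAlgebra ℚ_[p] L]
  {G : Type} [Group G] {n : ℕ}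

/-! ### Residue classes -/

variable (p) in
open Classical in
/-- the residue class of an integral element of `L` -/
def rd (z : L) : kk p L := if h : ‖z‖ ≤ 1 then IsLocalRing.residue (OO p L) ⟨z, h⟩ else 0

theorem rd_eq {z : L} (h : ‖z‖ ≤ 1) : rd p z = IsLocalRing.residue (OO p L) ⟨z, h⟩ := dif_pos h

theorem rd_add {z w : L} (hz : ‖z‖ ≤ 1) (hw : ‖w‖ ≤ 1) : rd p (z + w) = rd p z + rd p w := by
  have h : ‖z + w‖ ≤ 1 := (OO p L).add_mem hz hw
  rw [rd_eq h, rd_eq hz, rd_eq hw, ← map_add]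
  rfl

theorem rd_smul (a : OO p L) {z : L} (hz : ‖z‖ ≤ 1) :
    rd p (a • z) = IsLocalRing.residue (OO p L) a * rd p z := by
  have h : ‖a • z‖ ≤ 1 := (OO p L).mul_mem a.2 hz
  rw [rd_eq h, rd_eq hz, ← map_mul]
  rfl

theorem rd_zero {z : L} (hz : ‖z‖ ≤ 1) : rd p z = 0 ↔ ‖z‖ < 1 := by
  rw [rd_eq hz, IsLocalRing.residue_eq_zero_iff, OO.mem_max]

/-! ### Simple submodules -/

section Max

variable [FiniteDimensional ℚ_[p] L]

theorem finite_sub (N : ℕ) : {P : Submodule (OO p L) (Fin n → OO p L) |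
    ∀ x : Fin n → OO p L, pi0 p L ^ N • x ∈ P}.Finite := by
  have hfin : Finite (MK p L n N) := Pi.finite
  have hfin2 : Finite (Submodule (OO p L) (MK p L n N)) :=
    Finite.of_injective (fun P => (P : Set (MK p L n N))) SetLike.coe_injective
  refine Set.Finite.of_injOn (f := fun P => P.map (rv p L N)) (t := Set.univ)
    (fun _ _ => trivial) ?_ Set.finite_univ
  have key : ∀ R : Submodule (OO p L) (Fin n → OO p L),
      (∀ x : Fin n → OO p L, pi0 p L ^ N • x ∈ R) → ∀ x, x ∈ R ↔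
        rv p L N x ∈ R.map (rv p L N) := by
    intro R hR x
    refine ⟨fun hx => ⟨x, hx, rfl⟩, ?_⟩
    rintro ⟨y, hy, hyx⟩
    have h1 : ∀ i, ∃ z : OO p L, x i - y i = pi0 p L ^ N * z := by
      intro i
      have h2 : (Ideal.Quotient.mk (Ideal.span {pi0 p L ^ N}) (y i)) =
        Ideal.Quotient.mk (Ideal.span {pi0 p L ^ N}) (x i) := congrFun hyx i
      have h3 := Ideal.Quotient.eq.1 h2.symm
      rw [Ideal.mem_span_singleton] at h3
      exact h3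
    choose z hz using h1
    have h2 : x = pi0 p L ^ N • z + y := by
      funext i
      have h3 := hz i
      change x i = pi0 p L ^ N * z i + y i
      rw [← h3]
      ring
    rw [h2]
    exact R.add_mem (hR z) hy
  intro P hP Q hQ hPQ
  have hPQ' : P.map (rv p L N) = Q.map (rv p L N) := hPQ
  ext x
  rw [key P hP, key Q hQ, hPQ']

theorem exists_simple {ρ : G →* GL (Fin n) (OO p L)}
    {T Q : Submodule (OO p L) (Fin n → OO p L)} (hT : Stb ρ T) (hQ : Stb ρ Q) (hTQ : T < Q)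
    (N : ℕ) (hN : ∀ x : Fin n → OO p L, pi0 p L ^ N • x ∈ T) :
    ∃ Q₁ : Submodule (OO p L) (Fin n → OO p L), Q₁ ≤ Q ∧ Smp ρ T Q₁ := by
  have hS : {Q' : Submodule (OO p L) (Fin n → OO p L) | T < Q' ∧ Stb ρ Q' ∧ Q' ≤ Q}.Finite :=
    (finite_sub N).subset fun Q' h x => h.1.le (hN x)
  obtain ⟨Q₁, hQ₁⟩ := hS.exists_minimal ⟨Q, hTQ, hQ, le_rfl⟩
  obtain ⟨⟨h1, h2, h3⟩, h4⟩ := hQ₁
  refine ⟨Q₁, h3, h1, hT, h2, fun R hR hTR hRQ => ?_⟩
  by_cases h5 : T = R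
  · exact Or.inl h5.symm
  · exact Or.inr (le_antisymm hRQ (h4 ⟨lt_of_le_of_ne hTR h5, hR, hRQ.trans h3⟩ hRQ))

theorem pi_mem {ρ : G →* GL (Fin n) (OO p L)} {T Q : Submodule (OO p L) (Fin n → OO p L)}
    (h : Smp ρ T Q) (N : ℕ) (hN : ∀ x : Fin n → OO p L, pi0 p L ^ N • x ∈ T) :
    ∀ x ∈ Q, pi0 p L • x ∈ T := by
  obtain ⟨M, hM⟩ : ∃ M : Submodule (OO p L) (Fin n → OO p L),
      ∀ x, x ∈ M ↔ ∃ y ∈ Q, x - pi0 p L • y ∈ T := by
    refine ⟨{ carrier := {x | ∃ y ∈ Q, x - pi0 p L • y ∈ T}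
              add_mem' := ?_
              zero_mem' := ⟨0, Q.zero_mem, by rw [smul_zero, sub_zero]; exact T.zero_mem⟩
              smul_mem' := ?_ }, fun x => Iff.rfl⟩
    · rintro a b ⟨y, hy, hy'⟩ ⟨z, hz, hz'⟩
      refine ⟨y + z, Q.add_mem hy hz, ?_⟩
      have e : a + b - pi0 p L • (y + z) = (a - pi0 p L • y) + (b - pi0 p L • z) := by
        rw [smul_add]
        abel
      rw [e]
      exact T.add_mem hy' hz'
    · rintro r a ⟨y, hy, hy'⟩
      refine ⟨r • y, Q.smul_mem r hy, ?_⟩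
      have e : r • a - pi0 p L • (r • y) = r • (a - pi0 p L • y) := by
        rw [smul_sub, smul_comm]
      rw [e]
      exact T.smul_mem r hy'
  have h1 : Stb ρ M := by
    intro g x hx
    obtain ⟨y, hy, hy'⟩ := (hM x).1 hx
    refine (hM _).2 ⟨_, h.stab' g y hy, ?_⟩
    rw [← mulVec_smul, ← mulVec_sub]
    exact h.stab g _ hy'
  have h2 : T ≤ M := fun x hx => (hM x).2 ⟨0, Q.zero_mem, by rwa [smul_zero, sub_zero]⟩
  have h3 : M ≤ Q := by
    intro x hx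
    obtain ⟨y, hy, hy'⟩ := (hM x).1 hx
    have e : x = (x - pi0 p L • y) + pi0 p L • y := by abel
    rw [e]
    exact Q.add_mem (h.lt.le hy') (Q.smul_mem _ hy)
  rcases h.simple M h1 h2 h3 with h4 | h4
  · intro x hx
    rw [← h4]
    exact (hM _).2 ⟨x, hx, by rw [sub_self]; exact T.zero_mem⟩
  · exfalso
    have h5 : ∀ k : ℕ, ∀ x ∈ Q, ∃ y ∈ Q, x - pi0 p L ^ k • y ∈ T := by
      intro k
      induction k with
      | zero =>
        intro x hx
        exact ⟨x, hx, by rw [pow_zero, one_smul, sub_self]; exact T.zero_mem⟩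
      | succ k ih =>
        intro x hx
        obtain ⟨y, hy, hy'⟩ := ih x hx
        obtain ⟨z, hz, hz'⟩ := (hM y).1 (by rw [h4]; exact hy)
        refine ⟨z, hz, ?_⟩
        have e : x - pi0 p L ^ (k + 1) • z =
            (x - pi0 p L ^ k • y) + pi0 p L ^ k • (y - pi0 p L • z) := by
          rw [smul_sub, smul_smul, ← pow_succ]
          abel
        rw [e]
        exact T.add_mem hy' (T.smul_mem _ hz')
    refine absurd h.lt (not_lt_of_ge fun x hx => ?_)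
    obtain ⟨y, hy, hy'⟩ := h5 N x hx
    have e : x = (x - pi0 p L ^ N • y) + pi0 p L ^ N • y := by abel
    rw [e]
    exact T.add_mem hy' (hN y)

/-! ### The maximal submodule -/

/-- no simple quotient of lattices has a symmetric form -/
def NS (ρ : G →* GL (Fin n) (OO p L)) (c : G →* G) (χ : G →* ℤ_[p]ˣ) : Prop :=
  ∀ P Q : Submodule (OO p L) (Fin n → OO p L),
    (∃ N : ℕ, ∀ x : Fin n → OO p L, pi0 p L ^ N • x ∈ P) →
    Smp ρ P Q → ∀ f, ¬ SymF ρ c χ P Q f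

theorem exists_max {ρ : G →* GL (Fin n) (OO p L)} (c : G →* G) (hc : ∀ g, c (c g) = g)
    (χ : G →* ℤ_[p]ˣ) (hE : NS ρ c χ) {C : Matrix (Fin n) (Fin n) L}
    (hC : Cᵀ = C) (hd : IsDual χ ((toL p L n).comp ρ) (((toL p L n).comp ρ).comp c) C)
    (T₁ : Submodule (OO p L) (Fin n → OO p L)) (N : ℕ)
    (hN : ∀ x : Fin n → OO p L, pi0 p L ^ N • x ∈ T₁) (hs : Stb ρ T₁)
    (hJ : ∀ x ∈ T₁, ∀ y ∈ T₁, bf C x y ∈ J1 p L) :
    ∃ T : Submodule (OO p L) (Fin n → OO p L), T₁ ≤ T ∧ Stb ρ T ∧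
      ∀ y, y ∈ T ↔ ∀ x ∈ T, bf C x y ∈ J1 p L := by
  obtain ⟨T, ⟨h1, h2, h3⟩, hmax⟩ := (set_has_maximal_iff_noetherian
    (R := OO p L) (M := Fin n → OO p L)).2 inferInstance
    {T | T₁ ≤ T ∧ Stb ρ T ∧ ∀ x ∈ T, ∀ y ∈ T, bf C x y ∈ J1 p L} ⟨T₁, le_rfl, hs, hJ⟩
  refine ⟨T, h1, h2, fun y => ⟨fun hy x hx => h3 x hx y hy, fun hy => ?_⟩⟩
  by_contra hcon
  set Q : Submodule (OO p L) (Fin n → OO p L) :=
    { carrier := {y | ∀ x ∈ T, bf C x y ∈ J1 p L}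
      add_mem' := fun {a b} ha hb x hx => by
        rw [bf_add_right]
        exact (J1 p L).add_mem (ha x hx) (hb x hx)
      zero_mem' := fun x hx => by
        have e : bf C x 0 = 0 := by
          unfold bf
          rw [iv_zero, mulVec_zero, dotProduct_zero]
        rw [e]
        exact (J1 p L).zero_mem
      smul_mem' := fun a b hb x hx => by
        rw [bf_smul_right]
        exact (J1 p L).smul_mem a (hb x hx) } with hQ
  have hTQ : T < Q := by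
    refine lt_of_le_of_ne (fun y hy x hx => h3 x hx y hy) ?_
    intro h
    exact hcon (h ▸ (show y ∈ Q from hy))
  -- the action and the form
  have hact : ∀ (g : G) (x y : Fin n → OO p L),
      bf C x ((ρ g : Matrix (Fin n) (Fin n) (OO p L)) *ᵥ y) =
      zO p L ((χ (c g) : ℤ_[p]ˣ) : ℤ_[p]) •
        bf C ((ρ (c g)⁻¹ : Matrix (Fin n) (Fin n) (OO p L)) *ᵥ x) y := by
    intro g x y
    have e1 : (ρ (c g) : Matrix (Fin n) (Fin n) (OO p L)) *ᵥ
        ((ρ (c g)⁻¹ : Matrix (Fin n) (Fin n) (OO p L)) *ᵥ x) = x := by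
      rw [mulVec_mulVec, ← Units.val_mul, ← map_mul, mul_inv_cancel, map_one, Units.val_one,
        one_mulVec]
    have e2 := bf_act hd (c g) ((ρ (c g)⁻¹ : Matrix (Fin n) (Fin n) (OO p L)) *ᵥ x) y
    rw [e1, hc] at e2
    exact e2
  have hQs : Stb ρ Q := by
    intro g y hy x hx
    rw [hact]
    exact (J1 p L).smul_mem _ (hy _ (h2 _ _ hx))
  obtain ⟨Q₁, hQ₁, hsmp⟩ := exists_simple h2 hQs hTQ N (fun x => h1 (hN x))
  have hpi := pi_mem hsmp N (fun x => h1 (hN x))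
  have hint : ∀ x ∈ Q₁, ∀ y ∈ Q₁, ‖bf C x y‖ ≤ 1 := by
    intro x hx y hy
    have e1 : bf C (pi0 p L • x) y ∈ J1 p L := hQ₁ hy _ (hpi x hx)
    rw [bf_smul_left] at e1
    have e2 : ‖((pi0 p L : OO p L) : L) * bf C x y‖ < 1 := e1
    have e3 := pi0_max p L _ e2
    rw [norm_mul] at e3
    have e4 := pi0_pos p L
    nlinarith [norm_nonneg (bf C x y)]
  have hl : ∀ x ∈ T, ∀ y ∈ Q₁, bf C x y ∈ J1 p L := fun x hx y hy => hQ₁ hy x hx
  -- the kernel of the form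
  obtain ⟨K, hK⟩ : ∃ K : Submodule (OO p L) (Fin n → OO p L),
      ∀ x, x ∈ K ↔ x ∈ Q₁ ∧ ∀ y ∈ Q₁, bf C x y ∈ J1 p L := by
    refine ⟨{ carrier := {x | x ∈ Q₁ ∧ ∀ y ∈ Q₁, bf C x y ∈ J1 p L}
              add_mem' := ?_
              zero_mem' := ⟨Q₁.zero_mem, fun y hy => hl 0 T.zero_mem y hy⟩
              smul_mem' := ?_ }, fun x => Iff.rfl⟩
    · rintro a b ⟨ha, ha'⟩ ⟨hb, hb'⟩
      refine ⟨Q₁.add_mem ha hb, fun y hy => ?_⟩
      rw [bf_add_left]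
      exact (J1 p L).add_mem (ha' y hy) (hb' y hy)
    · rintro r a ⟨ha, ha'⟩
      refine ⟨Q₁.smul_mem r ha, fun y hy => ?_⟩
      rw [bf_smul_left]
      exact (J1 p L).smul_mem r (ha' y hy)
  have hKs : Stb ρ K := by
    intro g x hx
    obtain ⟨hx1, hx2⟩ := (hK x).1 hx
    refine (hK _).2 ⟨hsmp.stab' g x hx1, fun y hy => ?_⟩
    rw [bf_comm hC, hact, bf_comm hC]
    exact (J1 p L).smul_mem _ (hx2 _ (hsmp.stab' _ y hy))
  have hTK : T ≤ K := fun x hx => (hK x).2 ⟨hsmp.lt.le hx, fun y hy => hl x hx y hy⟩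
  have hKQ : K ≤ Q₁ := fun x hx => ((hK x).1 hx).1
  have hKT : K = T := by
    rcases hsmp.simple K hKs hTK hKQ with h | h
    · exact h
    · exfalso
      refine hmax Q₁ ⟨h1.trans hsmp.lt.le, hsmp.stab', fun x hx y hy => ?_⟩ hsmp.lt
      exact ((hK x).1 (h ▸ hx)).2 y hy
  refine hE T Q₁ ⟨N, fun x => h1 (hN x)⟩ hsmp (fun x y => rd p (bf C x y)) ⟨?_, ?_, ?_, ?_, ?_⟩
  · intro x hx x' hx' y hy
    change rd p (bf C (x + x') y) = _
    rw [bf_add_left, rd_add (hint x hx y hy) (hint x' hx' y hy)]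
  · intro a x hx y hy
    change rd p (bf C (a • x) y) = _
    rw [bf_smul_left, rd_smul a (hint x hx y hy)]
  · intro x _ y _
    change rd p (bf C x y) = rd p (bf C y x)
    rw [bf_comm hC]
  · intro g x hx y hy
    change rd p (bf C _ _) = _ * rd p (bf C x y)
    rw [bf_act hd g x y, rd_smul _ (hint x hx y hy), res_zO]
  · intro x hx
    constructor
    · intro hxT y hy
      exact (rd_zero (hint x hx y hy)).2 (hl x hxT y hy)
    · intro h
      rw [← hKT]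
      exact (hK x).2 ⟨hx, fun y hy => (rd_zero (hint x hx y hy)).1 (h y hy)⟩

/-! ### The unimodular lattice -/

theorem dual_smul {c : G →* G} {χ : G →* ℤ_[p]ˣ} {V V' : G →* GL (Fin n) L}
    {C : Matrix (Fin n) (Fin n) L} (hd : IsDual χ V V' C) (a : L) : IsDual χ V V' (a • C) := by
  intro g
  rw [mul_smul_comm, smul_mul_assoc, hd g, smul_comm]

theorem core {ρ : G →* GL (Fin n) (OO p L)}
    (c : G →* G) (hc : ∀ g, c (c g) = g) (χ : G →* ℤ_[p]ˣ) (hE : NS ρ c χ)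
    {C : Matrix (Fin n) (Fin n) L}
    (hC : Cᵀ = C) (hd : IsDual χ ((toL p L n).comp ρ) (((toL p L n).comp ρ).comp c) C)
    (hCu : IsUnit C.det) (N : ℕ)
    (h1 : ∀ i j, ‖((pi0 p L : OO p L) : L) ^ (2 * N) * C i j‖ ≤ 1)
    (h2 : ∀ w : Fin n → L, (∀ i, ‖((pi0 p L : OO p L) : L) ^ N * (C *ᵥ w) i‖ ≤ 1) →
      ∀ i, ‖w i‖ ≤ 1) :
    ∃ (P : Matrix (Fin n) (Fin n) (OO p L)) (Q : GL (Fin n) L) (ρ₁ : G →* GL (Fin n) (OO p L))
      (B₀ : Matrix (Fin n) (Fin n) (OO p L)),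
      (Q : Matrix (Fin n) (Fin n) L) = P.map (OO p L).subtype ∧
      (∀ x : Fin n → OO p L, ∃ y, P *ᵥ y = pi0 p L ^ N • x) ∧
      (∀ g, toL p L n (ρ₁ g) = Q⁻¹ * toL p L n (ρ g) * Q) ∧ B₀ᵀ = B₀ ∧ IsUnit B₀.det ∧
      B₀.map (OO p L).subtype =
        (Q : Matrix (Fin n) (Fin n) L)ᵀ * C * (Q : Matrix (Fin n) (Fin n) L) := by
  -- the lattice
  obtain ⟨D, hD⟩ := exists_mat (p := p) (((pi0 p L : OO p L) : L) ^ (2 * N) • C) h1
  have hJJ : ∀ x y : Fin n → OO p L, bf (((pi0 p L : OO p L) : L) • C) x y ∈ J1 p L ↔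
      bf C x y ∈ J0 p L := by
    intro x y
    have e1 : bf (((pi0 p L : OO p L) : L) • C) x y = ((pi0 p L : OO p L) : L) * bf C x y := by
      unfold bf
      rw [smul_mulVec, dotProduct_smul]
      rfl
    rw [e1]
    change ‖((pi0 p L : OO p L) : L) * bf C x y‖ < 1 ↔ ‖bf C x y‖ ≤ 1
    have e4 := pi0_pos p L
    constructor
    · intro e2
      have e3 := pi0_max p L _ e2
      rw [norm_mul] at e3
      nlinarith [norm_nonneg (bf C x y)]
    · intro e2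
      rw [norm_mul]
      have e5 := pi0_lt p L
      nlinarith [norm_nonneg (bf C x y)]
  obtain ⟨T, hT1, hT2, hT3'⟩ := exists_max c hc χ hE
    (C := ((pi0 p L : OO p L) : L) • C) (by rw [transpose_smul, hC])
    (dual_smul (c := c) hd _)
    (piE p L (Fin n → OO p L) N) N (fun x => ⟨x, rfl⟩)
    (by
      rintro g _ ⟨x, rfl⟩
      refine ⟨(ρ g : Matrix (Fin n) (Fin n) (OO p L)) *ᵥ x, ?_⟩
      change pi0 p L ^ N • ((ρ g : Matrix (Fin n) (Fin n) (OO p L)) *ᵥ x) =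
        (ρ g : Matrix (Fin n) (Fin n) (OO p L)) *ᵥ (pi0 p L ^ N • x)
      rw [mulVec_smul])
    (by
      rintro _ ⟨x, rfl⟩ _ ⟨y, rfl⟩
      rw [hJJ]
      change bf C (pi0 p L ^ N • x) (pi0 p L ^ N • y) ∈ J0 p L
      have e1 : bf C (pi0 p L ^ N • x) (pi0 p L ^ N • y) =
          ((x ⬝ᵥ (D *ᵥ y) : OO p L) : L) := by
        rw [← bf_map, hD, bf_smul_left, bf_smul_right]
        unfold bf
        rw [smul_mulVec, dotProduct_smul]
        change ((pi0 p L ^ N : OO p L) : L) * (((pi0 p L ^ N : OO p L) : L) * _) = _ * _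
        rw [Subring.coe_pow, two_mul, pow_add]
        ring
      rw [e1]
      exact OO.norm_le _)
  have hT3 : ∀ y, y ∈ T ↔ ∀ x ∈ T, bf C x y ∈ J0 p L := by
    intro y
    rw [hT3']
    exact forall₂_congr fun x _ => hJJ x y
  have hN : ∀ x : Fin n → OO p L, pi0 p L ^ N • x ∈ T := fun x => hT1 ⟨x, rfl⟩
  obtain ⟨P, hP, hPT⟩ := exists_basis T N hN
  have hPL : (P.map (OO p L).subtype).det ≠ 0 := by
    intro h3
    have h4 : (OO p L).subtype P.det = 0 := by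
      rw [RingHom.map_det]
      exact h3
    exact hP (Subtype.ext h4)
  obtain ⟨Q, hQ⟩ : ∃ Q : GL (Fin n) L, (Q : Matrix (Fin n) (Fin n) L) =
    P.map (OO p L).subtype := ⟨Matrix.GeneralLinearGroup.mkOfDetNeZero _ hPL, rfl⟩
  have hPv : ∀ y, iv (P *ᵥ y) = (Q : Matrix (Fin n) (Fin n) L) *ᵥ iv y := fun y => by
    rw [hQ, iv_mulVec]
  have hQQ : ((Q⁻¹ : GL (Fin n) L) : Matrix (Fin n) (Fin n) L) *
    (Q : Matrix (Fin n) (Fin n) L) = 1 := Units.inv_mul Q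
  have hes : ∀ j, iv (Pi.single j 1 : Fin n → OO p L) = (Pi.single j 1 : Fin n → L) := by
    intro j
    funext i
    unfold iv
    by_cases hij : i = j
    · subst hij
      rw [Pi.single_eq_same, Pi.single_eq_same]
      rfl
    · rw [Pi.single_eq_of_ne hij, Pi.single_eq_of_ne hij]
      rfl
  -- the representation
  obtain ⟨ρ₁, hρ₁⟩ := exists_rho (p := p) (L := L) (n := n)
    (((MulAut.conj Q⁻¹).toMonoidHom).comp ((toL p L n).comp ρ)) (by
      intro g i j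
      change ‖((Q⁻¹ * toL p L n (ρ g) * (Q⁻¹)⁻¹ : GL (Fin n) L) : Matrix (Fin n) (Fin n) L) i j‖
        ≤ 1
      rw [inv_inv]
      obtain ⟨y, hy⟩ := (hPT _).1 (hT2 g _ ((hPT _).2 ⟨Pi.single j 1, rfl⟩))
      have e1 : (Q : Matrix (Fin n) (Fin n) L) *ᵥ iv y =
          ((toL p L n (ρ g) : GL (Fin n) L) : Matrix (Fin n) (Fin n) L) *ᵥ
            ((Q : Matrix (Fin n) (Fin n) L) *ᵥ Pi.single j 1) := by
        rw [← hes, ← hPv, ← hPv, hy]
        exact iv_mulVec _ _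
      have e2 : iv y = ((Q⁻¹ * toL p L n (ρ g) * Q : GL (Fin n) L) :
          Matrix (Fin n) (Fin n) L) *ᵥ Pi.single j 1 := by
        calc iv y = ((Q⁻¹ : GL (Fin n) L) : Matrix (Fin n) (Fin n) L) *ᵥ
              ((Q : Matrix (Fin n) (Fin n) L) *ᵥ iv y) := by
              rw [mulVec_mulVec, hQQ, one_mulVec]
          _ = _ := by
              rw [e1, mulVec_mulVec, mulVec_mulVec]
              rfl
      have e3 := congrFun e2 i
      rw [mulVec_single_one] at e3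
      change _ = ((Q⁻¹ * toL p L n (ρ g) * Q : GL (Fin n) L) : Matrix (Fin n) (Fin n) L) i j at e3
      rw [← e3]
      exact OO.norm_le (y i))
  have hρ₁' : ∀ g, toL p L n (ρ₁ g) = Q⁻¹ * toL p L n (ρ g) * Q := by
    intro g
    rw [hρ₁]
    change Q⁻¹ * toL p L n (ρ g) * (Q⁻¹)⁻¹ = _
    rw [inv_inv]
  -- the form
  have hX : ∀ i j, ‖((Q : Matrix (Fin n) (Fin n) L)ᵀ * C * (Q : Matrix (Fin n) (Fin n) L)) i j‖
      ≤ 1 := by
    intro i j
    have h3 : bf C (P *ᵥ Pi.single i 1) (P *ᵥ Pi.single j 1) ∈ J0 p L :=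
      (hT3 _).1 ((hPT _).2 ⟨_, rfl⟩) _ ((hPT _).2 ⟨_, rfl⟩)
    have h4 : bf C (P *ᵥ Pi.single i 1) (P *ᵥ Pi.single j 1) =
        ((Q : Matrix (Fin n) (Fin n) L)ᵀ * C * (Q : Matrix (Fin n) (Fin n) L)) i j := by
      unfold bf
      rw [hPv, hPv, hes, hes, dot_tr, mulVec_mulVec, mulVec_mulVec,
        single_one_dotProduct, mulVec_single_one]
      rfl
    rw [← h4]
    exact h3
  obtain ⟨B₀, hB₀⟩ := exists_mat (p := p) _ hX
  have hsym : B₀ᵀ = B₀ := by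
    apply map_inj
    rw [transpose_map, hB₀, transpose_mul, transpose_mul, transpose_transpose, hC, mul_assoc]
  refine ⟨P, Q, ρ₁, B₀, hQ, fun x => (hPT _).1 (hN x), hρ₁', hsym, ?_, hB₀⟩
  rw [← Matrix.isUnit_iff_isUnit_det, ← Matrix.mulVec_surjective_iff_isUnit]
  intro z
  set X : Matrix (Fin n) (Fin n) L := (Q : Matrix (Fin n) (Fin n) L)ᵀ * C *
    (Q : Matrix (Fin n) (Fin n) L) with hXd
  have hXu : IsUnit X.det := by
    rw [hXd, det_mul, det_mul, det_transpose]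
    have h3 : IsUnit (Q : Matrix (Fin n) (Fin n) L).det :=
      (Matrix.isUnit_iff_isUnit_det _).1 Q.isUnit
    exact (h3.mul hCu).mul h3
  set v : Fin n → L := X⁻¹ *ᵥ iv z with hv
  have hXv : X *ᵥ v = iv z := by
    rw [hv, mulVec_mulVec, Matrix.mul_nonsing_inv _ hXu, one_mulVec]
  set w : Fin n → L := (Q : Matrix (Fin n) (Fin n) L) *ᵥ v with hw
  have hQw : ∀ x', iv (P *ᵥ x') ⬝ᵥ (C *ᵥ w) = ((x' ⬝ᵥ z : OO p L) : L) := by
    intro x'
    rw [coe_dot, ← hXv, hPv, hw, dot_tr, mulVec_mulVec, mulVec_mulVec]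
  have hwi : ∀ i, ‖w i‖ ≤ 1 := by
    refine h2 w fun i => ?_
    obtain ⟨x', hx'⟩ := (hPT _).1 (hN (Pi.single i 1))
    have h3 := hQw x'
    rw [hx', iv_smul, hes, smul_dotProduct, single_one_dotProduct] at h3
    change ((pi0 p L ^ N : OO p L) : L) * _ = _ at h3
    rw [Subring.coe_pow] at h3
    rw [h3]
    exact OO.norm_le _
  obtain ⟨w', hw'⟩ := exists_iv (p := p) w hwi
  have hw'T : w' ∈ T := by
    rw [hT3]
    intro x hx
    obtain ⟨x', rfl⟩ := (hPT x).1 hx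
    have h3 := hQw x'
    have h4 : bf C (P *ᵥ x') w' = ((x' ⬝ᵥ z : OO p L) : L) := by
      rw [← h3]
      unfold bf
      rw [hw']
    rw [h4]
    exact OO.norm_le _
  obtain ⟨y, hy⟩ := (hPT w').1 hw'T
  refine ⟨y, iv_inj ?_⟩
  have h5 : iv y = v := by
    have h6 : (Q : Matrix (Fin n) (Fin n) L) *ᵥ iv y = (Q : Matrix (Fin n) (Fin n) L) *ᵥ v := by
      rw [← hPv, hy, hw']
    calc iv y = ((Q⁻¹ : GL (Fin n) L) : Matrix (Fin n) (Fin n) L) *ᵥ
              ((Q : Matrix (Fin n) (Fin n) L) *ᵥ iv y) := by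
              rw [mulVec_mulVec, hQQ, one_mulVec]
      _ = _ := by rw [h6, mulVec_mulVec, hQQ, one_mulVec]
  rw [iv_mulVec, hB₀, h5, hXv]

/-! ### Change of the lattice -/

theorem ns_conj {ρ ρ₁ : G →* GL (Fin n) (OO p L)} {c : G →* G} {χ : G →* ℤ_[p]ˣ}
    (hE : NS ρ c χ) {P : Matrix (Fin n) (Fin n) (OO p L)}
    (hP : Function.Injective fun x : Fin n → OO p L => P *ᵥ x) (N₀ : ℕ)
    (hN₀ : ∀ x : Fin n → OO p L, ∃ y, P *ᵥ y = pi0 p L ^ N₀ • x)
    (hact : ∀ g, (ρ g : Matrix (Fin n) (Fin n) (OO p L)) * P =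
      P * (ρ₁ g : Matrix (Fin n) (Fin n) (OO p L))) : NS ρ₁ c χ := by
  rintro P₁ Q₁ ⟨N, hN⟩ hsmp f hf
  have hact' : ∀ g x, (ρ g : Matrix (Fin n) (Fin n) (OO p L)) *ᵥ (P *ᵥ x) =
      P *ᵥ ((ρ₁ g : Matrix (Fin n) (Fin n) (OO p L)) *ᵥ x) := by
    intro g x
    rw [mulVec_mulVec, mulVec_mulVec, hact]
  have hmem : ∀ (R : Submodule (OO p L) (Fin n → OO p L)) (x : Fin n → OO p L),
      P *ᵥ x ∈ R.map P.mulVecLin ↔ x ∈ R := by
    intro R x
    constructor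
    · rintro ⟨y, hy, hyx⟩
      rw [← hP (show P *ᵥ y = P *ᵥ x from hyx)]
      exact hy
    · intro hx
      exact ⟨x, hx, rfl⟩
  have hstb : ∀ R : Submodule (OO p L) (Fin n → OO p L), Stb ρ₁ R →
      Stb ρ (R.map P.mulVecLin) := by
    rintro R hR g _ ⟨x, hx, rfl⟩
    rw [mulVecLin_apply, hact', hmem]
    exact hR g x hx
  set ψ : (Fin n → OO p L) → (Fin n → OO p L) :=
    Function.invFun (fun x : Fin n → OO p L => P *ᵥ x) with hψ
  have hψP : ∀ x, ψ (P *ᵥ x) = x := fun x => Function.leftInverse_invFun hP x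
  refine hE (P₁.map P.mulVecLin) (Q₁.map P.mulVecLin) ⟨N₀ + N, fun x => ?_⟩
    ⟨?_, hstb _ hsmp.stab, hstb _ hsmp.stab', ?_⟩ (fun x y => f (ψ x) (ψ y)) ⟨?_, ?_, ?_, ?_, ?_⟩
  · obtain ⟨y, hy⟩ := hN₀ x
    refine ⟨pi0 p L ^ N • y, hN y, ?_⟩
    rw [mulVecLin_apply, mulVec_smul, hy, smul_smul, ← pow_add, add_comm]
  · exact Submodule.map_strictMono_of_injective hP hsmp.lt
  · intro R hR h1 h2
    have h3 : R = (R.comap P.mulVecLin).map P.mulVecLin := by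
      refine le_antisymm (fun x hx => ?_) (Submodule.map_comap_le _ _)
      obtain ⟨y, _, rfl⟩ := h2 hx
      exact ⟨y, hx, rfl⟩
    rcases hsmp.simple (R.comap P.mulVecLin) (fun g x hx => by
        change P *ᵥ _ ∈ R
        rw [← hact']
        exact hR g _ hx) (fun x hx => h1 ⟨x, hx, rfl⟩) (fun x hx => (hmem Q₁ x).1 (h2 hx)) with
      h4 | h4
    · left
      rw [h3, h4]
    · right
      rw [h3, h4]
  · rintro _ ⟨x, hx, rfl⟩ _ ⟨x', hx', rfl⟩ _ ⟨y, hy, rfl⟩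
    change f (ψ (P *ᵥ x + P *ᵥ x')) (ψ (P *ᵥ y)) =
      f (ψ (P *ᵥ x)) (ψ (P *ᵥ y)) + f (ψ (P *ᵥ x')) (ψ (P *ᵥ y))
    rw [← mulVec_add, hψP, hψP, hψP, hψP]
    exact hf.add x hx x' hx' y hy
  · rintro a _ ⟨x, hx, rfl⟩ _ ⟨y, hy, rfl⟩
    change f (ψ (a • P *ᵥ x)) (ψ (P *ᵥ y)) = _ * f (ψ (P *ᵥ x)) (ψ (P *ᵥ y))
    rw [← mulVec_smul, hψP, hψP, hψP]
    exact hf.smul a x hx y hy
  · rintro _ ⟨x, hx, rfl⟩ _ ⟨y, hy, rfl⟩
    change f (ψ (P *ᵥ x)) (ψ (P *ᵥ y)) = f (ψ (P *ᵥ y)) (ψ (P *ᵥ x))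
    rw [hψP, hψP]
    exact hf.symm x hx y hy
  · rintro g _ ⟨x, hx, rfl⟩ _ ⟨y, hy, rfl⟩
    change f (ψ ((ρ g : Matrix (Fin n) (Fin n) (OO p L)) *ᵥ (P *ᵥ x)))
      (ψ ((ρ (c g) : Matrix (Fin n) (Fin n) (OO p L)) *ᵥ (P *ᵥ y))) =
      _ * f (ψ (P *ᵥ x)) (ψ (P *ᵥ y))
    rw [hact', hact', hψP, hψP, hψP, hψP]
    exact hf.eqv g x hx y hy
  · rintro _ ⟨x, hx, rfl⟩
    rw [mulVecLin_apply, hmem, hf.ker x hx]
    constructor
    · rintro h _ ⟨y, hy, rfl⟩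
      change f (ψ (P *ᵥ x)) (ψ (P *ᵥ y)) = 0
      rw [hψP, hψP]
      exact h y hy
    · intro h y hy
      have h5 : f (ψ (P *ᵥ x)) (ψ (P *ᵥ y)) = 0 := h (P *ᵥ y) ⟨y, hy, rfl⟩
      rw [hψP, hψP] at h5
      exact h5

end Max

end FLATTT

open BKMet.LLATT in
/-- Module LATTT. -/
theorem stLattT (h : StJhT) : StLattT := by
  intro p _ _ L _ _ _ G _ n V A ρ hρ' c hc χ B hB hd hns
  have hE : FLATTT.NS ρ c χ := h p L G n ρ c χ hns
  -- the scaling
  set s' : Matrix (Fin n) (Fin n) L := ((A⁻¹ : GL (Fin n) L) : Matrix (Fin n) (Fin n) L) with hs'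
  have hss : (A : Matrix (Fin n) (Fin n) L) * s' = 1 := Units.mul_inv A
  have hss' : s' * (A : Matrix (Fin n) (Fin n) L) = 1 := Units.inv_mul A
  have hBu : IsUnit (B : Matrix (Fin n) (Fin n) L).det :=
    (Matrix.isUnit_iff_isUnit_det _).1 B.isUnit
  set C₀ : Matrix (Fin n) (Fin n) L := s'ᵀ * (B : Matrix (Fin n) (Fin n) L) * s' with hC₀
  have hC₀u : IsUnit C₀.det := by
    rw [hC₀, det_mul, det_mul, det_transpose]
    have h3 : IsUnit s'.det := (Matrix.isUnit_iff_isUnit_det _).1 (A⁻¹ : GL (Fin n) L).isUnit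
    exact (h3.mul hBu).mul h3
  have hC₀B : (A : Matrix (Fin n) (Fin n) L)ᵀ * C₀ * (A : Matrix (Fin n) (Fin n) L) =
      (B : Matrix (Fin n) (Fin n) L) := by
    calc (A : Matrix (Fin n) (Fin n) L)ᵀ * C₀ * (A : Matrix (Fin n) (Fin n) L) =
        (s' * (A : Matrix (Fin n) (Fin n) L))ᵀ * (B : Matrix (Fin n) (Fin n) L) *
          (s' * (A : Matrix (Fin n) (Fin n) L)) := by
          rw [hC₀, transpose_mul]
          simp only [mul_assoc]
      _ = (B : Matrix (Fin n) (Fin n) L) := by rw [hss', transpose_one, one_mul, mul_one]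
  obtain ⟨s, hs⟩ := exists_bound (p := p) C₀
  obtain ⟨t, ht⟩ := exists_bound (p := p) C₀⁻¹
  set ϖ : L := ((pi0 p L : OO p L) : L) with hϖ
  have hϖ0 : ϖ ≠ 0 := pi0_ne p L
  set C : Matrix (Fin n) (Fin n) L := (ϖ ^ (2 * (s + t)))⁻¹ • C₀ with hCd
  let u : Lˣ := Units.mk0 (ϖ ^ (s + t)) (pow_ne_zero _ hϖ0)
  set S₀ : GL (Fin n) L := u • A with hS₀
  have hS₀c : (S₀ : Matrix (Fin n) (Fin n) L) = ϖ ^ (s + t) • (A : Matrix (Fin n) (Fin n) L) :=
    rfl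
  have hS₀i : ((S₀⁻¹ : GL (Fin n) L) : Matrix (Fin n) (Fin n) L) = (ϖ ^ (s + t))⁻¹ • s' := by
    rw [hS₀]
    rfl
  have hCB : (S₀ : Matrix (Fin n) (Fin n) L)ᵀ * C * (S₀ : Matrix (Fin n) (Fin n) L) =
      (B : Matrix (Fin n) (Fin n) L) := by
    rw [hS₀c, hCd, transpose_smul, smul_mul_smul_comm, smul_mul_smul_comm, hC₀B]
    have e1 : ϖ ^ (s + t) * (ϖ ^ (2 * (s + t)))⁻¹ * ϖ ^ (s + t) = 1 := by
      rw [mul_right_comm, ← pow_add, ← two_mul]
      exact mul_inv_cancel₀ (pow_ne_zero _ hϖ0)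
    rw [e1, one_smul]
  have hρS : ∀ g, toL p L n (ρ g) = S₀ * V g * S₀⁻¹ := by
    intro g
    rw [hρ']
    apply Units.ext
    change (A : Matrix (Fin n) (Fin n) L) * (V g : Matrix (Fin n) (Fin n) L) * s' =
      (S₀ : Matrix (Fin n) (Fin n) L) * (V g : Matrix (Fin n) (Fin n) L) *
        ((S₀⁻¹ : GL (Fin n) L) : Matrix (Fin n) (Fin n) L)
    rw [hS₀c, hS₀i, smul_mul_assoc, smul_mul_smul_comm, mul_inv_cancel₀ (pow_ne_zero _ hϖ0),
      one_smul]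
  have hCs : Cᵀ = C := by
    rw [hCd, transpose_smul, hC₀, transpose_mul, transpose_mul, transpose_transpose, hB, mul_assoc]
  have hCu : IsUnit C.det := by
    rw [hCd, det_smul]
    exact (IsUnit.mk0 _ (pow_ne_zero _ (inv_ne_zero (pow_ne_zero _ hϖ0)))).mul hC₀u
  have hϖ1 : ‖ϖ‖ ≤ 1 := (pi0_lt p L).le
  obtain ⟨P, Q, ρ₁, B₀, hQP, hPN, hρ₁, hsym, hunit, hB₀⟩ := FLATTT.core c hc χ hE hCs
    (dual_conj hd hρS hCB) hCu
    (2 * s + t) (by
      intro i j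
      have e1 : ϖ ^ (2 * (2 * s + t)) * C i j = ϖ ^ s * (ϖ ^ s * C₀ i j) := by
        rw [hCd, Matrix.smul_apply, smul_eq_mul]
        have e2 : ϖ ^ (2 * (2 * s + t)) = ϖ ^ (2 * (s + t)) * (ϖ ^ s * ϖ ^ s) := by
          rw [← pow_add, ← pow_add]
          congr 1
          ring
        rw [e2]
        have e3 : ϖ ^ (2 * (s + t)) ≠ 0 := pow_ne_zero _ hϖ0
        field_simp
      rw [e1, norm_mul, norm_pow]
      exact mul_le_one₀ (pow_le_one₀ (norm_nonneg _) hϖ1) (norm_nonneg _) (hs i j))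
    (by
      intro w hw
      obtain ⟨z, hz⟩ := exists_iv (p := p) (fun i => ϖ ^ (2 * s + t) * (C *ᵥ w) i) hw
      obtain ⟨E, hE'⟩ := exists_mat (p := p) (ϖ ^ t • C₀⁻¹) ht
      have hz' : iv z = ϖ ^ (2 * s + t) • (C *ᵥ w) := hz
      have e1 : w = iv (E *ᵥ z) := by
        rw [iv_mulVec, hE', hz', hCd, smul_mulVec, smul_mulVec, smul_smul, mulVec_smul,
          mulVec_mulVec, Matrix.nonsing_inv_mul _ hC₀u, one_mulVec, smul_smul]
        have e2 : ϖ ^ t * (ϖ ^ (2 * s + t) * (ϖ ^ (2 * (s + t)))⁻¹) = 1 := by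
          rw [← mul_assoc, ← pow_add]
          have e3 : t + (2 * s + t) = 2 * (s + t) := by ring
          rw [e3]
          exact mul_inv_cancel₀ (pow_ne_zero _ hϖ0)
        rw [e2, one_smul]
      intro i
      rw [e1]
      exact OO.norm_le _)
  -- the change of basis
  set S : GL (Fin n) L := Q⁻¹ * S₀ with hS
  have hρ₁S : ∀ g, toL p L n (ρ₁ g) = S * V g * S⁻¹ := by
    intro g
    rw [hρ₁, hρS, hS]
    group
  have hSB : (S : Matrix (Fin n) (Fin n) L)ᵀ * B₀.map (OO p L).subtype *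
      (S : Matrix (Fin n) (Fin n) L) = (B : Matrix (Fin n) (Fin n) L) := by
    have hQS : (Q : Matrix (Fin n) (Fin n) L) * (S : Matrix (Fin n) (Fin n) L) =
        (S₀ : Matrix (Fin n) (Fin n) L) := by
      have e1 : Q * S = S₀ := by
        rw [hS]
        group
      exact congrArg (fun z : GL (Fin n) L => (z : Matrix (Fin n) (Fin n) L)) e1
    rw [hB₀, ← hCB, ← hQS, transpose_mul]
    simp only [mul_assoc]
  have hE₁ : FLATTT.NS ρ₁ c χ := by
    refine FLATTT.ns_conj hE (P := P) ?_ (2 * s + t) hPN ?_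
    · intro x y hxy
      have e1 : iv (P *ᵥ x) = iv (P *ᵥ y) := congrArg iv hxy
      rw [iv_mulVec, iv_mulVec, ← hQP] at e1
      have e2 : ((Q⁻¹ : GL (Fin n) L) : Matrix (Fin n) (Fin n) L) *
        (Q : Matrix (Fin n) (Fin n) L) = 1 := Units.inv_mul Q
      have e3 := congrArg (fun v => ((Q⁻¹ : GL (Fin n) L) : Matrix (Fin n) (Fin n) L) *ᵥ v) e1
      simp only [mulVec_mulVec, e2, one_mulVec] at e3
      exact iv_inj e3
    · intro g
      apply map_inj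
      rw [Matrix.map_mul, Matrix.map_mul, ← hQP, ← coe_toL, ← coe_toL, ← Units.val_mul,
        ← Units.val_mul, hρ₁]
      congr 1
      group
  obtain ⟨N, hN1, hN2, hN3⟩ := FLATTT.exists_max c hc χ hE₁ (C := B₀.map (OO p L).subtype)
    (by rw [← transpose_map, hsym]) (dual_conj hd hρ₁S hSB)
    (piE p L (Fin n → OO p L) 1) 1 (fun x => ⟨x, rfl⟩)
    (by
      rintro g _ ⟨x, rfl⟩
      refine ⟨(ρ₁ g : Matrix (Fin n) (Fin n) (OO p L)) *ᵥ x, ?_⟩
      change pi0 p L ^ 1 • ((ρ₁ g : Matrix (Fin n) (Fin n) (OO p L)) *ᵥ x) =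
        (ρ₁ g : Matrix (Fin n) (Fin n) (OO p L)) *ᵥ (pi0 p L ^ 1 • x)
      rw [mulVec_smul])
    (by
      rintro _ ⟨x, rfl⟩ y hy
      change bf (B₀.map (OO p L).subtype) (pi0 p L ^ 1 • x) y ∈ J1 p L
      rw [bf_smul_left, bf_map, pow_one]
      change ‖((pi0 p L * (x ⬝ᵥ (B₀ *ᵥ y)) : OO p L) : L)‖ < 1
      rw [← pi0_dvd]
      exact dvd_mul_right _ _)
  refine ⟨S, ρ₁, B₀, N, hρ₁S, hsym, hunit, hSB, fun x => ?_, hN2, fun y => ?_⟩
  · have h3 := hN1 ⟨x, rfl⟩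
    change pi0 p L ^ 1 • x ∈ N at h3
    rwa [pow_one] at h3
  · rw [hN3]
    refine forall₂_congr fun x _ => ?_
    rw [bf_map, pi0_dvd]
    rfl

end BKT
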