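import Pool.Agent.Lib.MP_7c08ba_nt.T1.StF
import Pool.Agent.Lib.MP_7c08ba_nt.Met.FLOCX

set_option autoImplicit false

/-!
Parity for general residual representations, part F, module LOCXT: the local theorem at all
places.
-/

noncomputable section

namespace BKT

open BKPar (Loc1 Loc2)
open BKND (Sm)
open BKMet
open Matrix

namespace FLOCXT

/-- The lattice condition for the restriction to a local group. -/
theorem int_loc {p : ℕ} [Fact p.Prime] {L : Type} [NormedField L] [NormedAlgebra ℚ_[p] L]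
    [FiniteDimensional ℚ_[p] L] {G D : Type} [Group G] [Group D] {n : ℕ}
    {V : G →* GL (Fin n) L} {B S : GL (Fin n) L} {ρ : G →* GL (Fin n) (OO p L)}
    {B₀ : Matrix (Fin n) (Fin n) (OO p L)} {N : Submodule (OO p L) (Fin n → OO p L)}
    (h : Metab V B S ρ B₀ N) (r : D →* G) (d : D) :
    toL p L n ((ρ.comp r) d) = S * (V.comp r) d * S⁻¹ :=
  h.int (r d)

end FLOCXT

open FLOCXT BKMet.FLOCX

/-- Module LOCXT. -/
theorem stLocXT (h : StLvT) : StLocXT := by
  intro p _ L _ _ _ ι _ G _ _ _ _ D _ _ _ _ _ r c χ inv δ U hs n V B hP hN hN'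
  obtain ⟨S, ρ, B₀, N, hM, -⟩ := hP.metab
  have key : ∀ i, LocV (χ.comp (r i)) (δ i) (V.comp (r i)) ((dualC V c B).comp (r i)) := fun i =>
    h p L (D i) (χ.comp (r i)) (hs.cont_χ.comp (hs.cont_r i)) (inv i) (δ i) (hs.loc i) n
      (V.comp (r i)) ((dualC V c B).comp (r i)) (hP.cont.comp (hs.cont_r i))
      ((continuous_dualC hP.cont hs.cont_c B).comp (hs.cont_r i)) (isDual_loc hP.dual (r i)) S
      (ρ.comp (r i)) (int_loc hM (r i)) (hN i) (noInv_dualC (hN' i) B)
  refine ⟨key, fun i hi => ?_⟩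
  have h3 := key i
  have h4 := h3.le
  have h5 := h3.le'
  rw [hi, add_zero, one_mul] at h4 h5
  exact ⟨Z1_le_B1 (hP.cont.comp (hs.cont_r i)) (hN i) h3.fin h4,
    Z1_le_B1_comp B (Z1_le_B1 ((continuous_dualC hP.cont hs.cont_c B).comp (hs.cont_r i))
      (noInv_dualC (hN' i) B) h3.fin' h5)⟩

end BKT
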