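import Pool.Agent.Lib.MP_7c08ba_nt.T1.StF
import Pool.Agent.Lib.MP_7c08ba_nt.Met.LLV
import Pool.Agent.Lib.MP_7c08ba_nt.Met.XEXT
import Pool.Agent.Lib.MP_7c08ba_nt.Met.XHOMS
import Pool.Agent.Lib.MP_7c08ba_nt.Met.XPERF

set_option autoImplicit false

/-!
Parity for general residual representations, module LVT: the local theorem.
-/

noncomputable section

namespace BKT

open BKPar (Loc1 Loc2)
open BKND (Sm)
open BKMet
open Matrix

namespace FLVT

section Forget

variable {R : Type} [CommRing R] {p : ℕ} [Fact p.Prime] {D : Type} [Group D] [TopologicalSpace D]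
  {χ : D →* ℤ_[p]ˣ} {M M' : Type} [AddCommGroup M] [Module R M] [AddCommGroup M'] [Module R M']

theorem inj_left (X : Pair R (actA χ) M M') (m : M) (h : ∀ m', X.b m m' = 0) : m = 0 :=
  (Submodule.mem_bot R).1 (X.perf ⊥ m fun m' _ => h m')

theorem inj_right (X : Pair R (actA χ) M M') (m' : M') (h : ∀ m, X.b m m' = 0) : m' = 0 :=
  (Submodule.mem_bot R).1 (X.perf' ⊥ m' fun m _ => h m)

/-- forget the ring -/
theorem exists_int [Finite M] (X : Pair R (actA χ) M M') : ∃ Z : Pair ℤ (actA χ) M M',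
    Z.ρ = X.ρ ∧ Z.ρ' = X.ρ' ∧ Z.b = X.b := by
  have hp := stPerf (stHoms stExt) p M M' X.b (inj_left X) (inj_right X)
  have := hp.1
  have hp' := stPerf (stHoms stExt) p M' M X.b.flip (inj_right X) (inj_left X)
  refine ⟨{ ρ := X.ρ, ρ' := X.ρ', b := X.b, sm := X.sm, sm' := X.sm'
            lin := fun g a m => map_zsmul (X.ρ g) a m
            lin' := fun g a m => map_zsmul (X.ρ' g) a m
            eqv := X.eqv
            bal := fun a m m' => by
              rw [map_zsmul, map_zsmul, AddMonoidHom.zsmul_apply]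
            perf := fun P m hm => ?_
            perf' := fun P m' hm' => ?_ }, rfl, rfl, rfl⟩
  · let C : AddSubgroup M' :=
      { carrier := {w | ∀ v ∈ P, X.b v w = 0}
        add_mem' := by
          intro a b ha hb v hv
          rw [map_add, ha v hv, hb v hv, add_zero]
        zero_mem' := fun v _ => map_zero _
        neg_mem' := by
          intro a ha v hv
          rw [map_neg, ha v hv, neg_zero] }
    exact ((hp.2.2 P.toAddSubgroup C fun w => Iff.rfl).2.1 m).2 fun w hw => hm w hw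
  · let C : AddSubgroup M :=
      { carrier := {w | ∀ v ∈ P, X.b w v = 0}
        add_mem' := by
          intro a b ha hb v hv
          rw [map_add, AddMonoidHom.add_apply, ha v hv, hb v hv, add_zero]
        zero_mem' := fun v _ => by rw [map_zero, AddMonoidHom.zero_apply]
        neg_mem' := by
          intro a ha v hv
          rw [map_neg, AddMonoidHom.neg_apply, ha v hv, neg_zero] }
    exact ((hp'.2.2 P.toAddSubgroup C fun w => Iff.rfl).2.1 m').2 fun w hw => hm' w hw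

variable {inv : (D → D → QZ p) →+ QZ p} {δ : ℕ}

/-- local duality on `H¹` -/
theorem dual1 (hax : LocG p χ inv δ) [Finite M] (X : Pair R (actA χ) M M') (f : D → M)
    (hf : f ∈ BKND.Z1 X.ρ) (h : ∀ e ∈ BKND.Z1 X.ρ', inv (cup11 X.b X.ρ' f e) = 0) :
    f ∈ BKND.B1 X.ρ := by
  obtain ⟨Z, h1, h2, h3⟩ := exists_int X
  rw [← h1]
  rw [← h1] at hf
  refine hax.one M M' Z f hf fun e he => ?_
  rw [h2] at he ⊢
  rw [h3]
  exact h e he

/-- the number of local cocycles -/
theorem count1 (hax : LocG p χ inv δ) [Finite M] [Finite M'] (X : Pair R (actA χ) M M') :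
    Finite (BKND.Z1 X.ρ) ∧
      Nat.card (BKND.Z1 X.ρ) ≤ Nat.card (BKND.H0 X.ρ') * Nat.card M ^ (1 + δ) := by
  obtain ⟨Z, h1, h2, -⟩ := exists_int X
  have h4 := hax.card M M' Z
  rw [h1, h2] at h4
  refine ⟨?_, h4.le⟩
  apply Nat.finite_of_card_ne_zero
  rw [h4]
  refine Nat.mul_ne_zero ?_ (pow_ne_zero _ Nat.card_pos.ne')
  exact Nat.card_pos.ne'

end Forget

end FLVT

open FLVT in
/-- **Module LVT**: the local theorem. -/
theorem stLvT (h1 : StLam) (h2 : StMk) (h7 : StLimD) : StLvT := by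
  intro p _ L _ _ _ D _ _ _ _ _ χ hχ inv δ hax n V V' hV hV' hdual S ρ hρ hN hN'
  apply LLV.locV_of_cj S
  set W := LLV.cj S V with hW
  set W' := LLV.cj (LLV.tr S)⁻¹ V' with hW'
  have hWc : Continuous W := LLV.continuous_cj hV S
  have hWc' : Continuous W' := LLV.continuous_cj hV' (LLV.tr S)⁻¹
  have hWd : IsDual χ W W' 1 := LLV.isDual_cj hdual S
  have hWn : ∀ g i j, ‖(W g : Matrix (Fin n) (Fin n) L) i j‖ ≤ 1 := by
    intro g i j
    rw [hW, LLV.cj_apply, ← hρ g]
    exact ((ρ g : Matrix (Fin n) (Fin n) (OO p L)) i j).2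
  have hWn' := LLV.norm_dual_le hWd hWn
  have hNW : NoInv W := LLV.noInv_cj hN S
  have hNW' : NoInv W' := LLV.noInv_cj hN' (LLV.tr S)⁻¹
  have hρ1 : ∀ g, toL p L n (ρ g) = W g := hρ
  obtain ⟨ρ', hρ'⟩ := LLV.exists_lift (p := p) W' hWn'
  have hρc : Continuous ρ := LLV.continuous_lift hWc hρ1
  have hρc' : Continuous ρ' := LLV.continuous_lift hWc' hρ'
  have eρ : (toL p L n).comp ρ = W := MonoidHom.ext hρ1
  have eρ' : (toL p L n).comp ρ' = W' := MonoidHom.ext hρ'
  obtain ⟨lam, hlam⟩ := h1 p L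
  have hmk : ∀ k : ℕ, ∃ X : Pair (OO p L) (actA χ) (MK p L n k) (MK p L n k),
      IsMk χ lam k ρ ρ' 1 X := by
    intro k
    refine (h2 p L D χ n ρ ρ' hρc hρc' 1 (by rw [Matrix.det_one]; exact isUnit_one) ?_ lam hlam
      k).2
    rw [eρ, eρ', Matrix.map_one _ (map_zero _) (map_one _)]
    exact hWd
  choose X hX using hmk
  have hmk' : ∀ k, IsMk χ lam k ρ' ρ 1 (X k).flip := by
    intro k
    refine ⟨(hX k).act', (hX k).act, fun x y => ?_⟩
    have e := (hX k).pair y x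
    rw [Matrix.one_mulVec] at e ⊢
    rw [dotProduct_comm] at e
    exact e
  have hE : ∀ k, Finite (BKND.Z1 (X k).ρ) ∧ Nat.card (BKND.Z1 (X k).ρ) ≤
      Nat.card (BKND.H0 (X k).ρ') * Nat.card (MK p L n k) ^ (1 + δ) := fun k =>
    count1 hax (X k)
  have hE' : ∀ k, Finite (BKND.Z1 (X k).flip.ρ) ∧ Nat.card (BKND.Z1 (X k).flip.ρ) ≤
      Nat.card (BKND.H0 (X k).flip.ρ') * Nat.card (MK p L n k) ^ (1 + δ) := fun k =>
    count1 hax (X k).flip
  obtain ⟨f1, f2, f3⟩ := h7 p L D χ hχ inv δ hax.inv_eq n ρ ρ' hρc hρc'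
    (by rw [eρ, eρ']; exact hWd) lam hlam X hX hE (fun k => (hE' k).1)
    (fun k f hf h => dual1 hax (X k) f hf h)
    (by rw [eρ]; exact hNW) (by rw [eρ']; exact hNW')
  obtain ⟨g1, g2, g3⟩ := h7 p L D χ hχ inv δ hax.inv_eq n ρ' ρ hρc' hρc
    (by rw [eρ, eρ']; exact LLV.isDual_symm hWd) lam hlam (fun k => (X k).flip) hmk' hE'
    (fun k => (hE k).1)
    (fun k f hf h => dual1 hax (X k).flip f hf h)
    (by rw [eρ']; exact hNW') (by rw [eρ]; exact hNW)
  rw [eρ] at f1 f2 f3 g3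
  rw [eρ'] at f3 g1 g2 g3
  refine ⟨f1, f2, g1, g2, f3, fun y hy hxy => g3 y hy fun x hx => ?_⟩
  have hd : ∀ g, (W g : Matrix (Fin n) (Fin n) L)ᵀ * (W' g : Matrix (Fin n) (Fin n) L) =
      BKOdd.chL χ L g • (1 : Matrix (Fin n) (Fin n) L) := by
    intro g
    have := hWd g
    rwa [Matrix.mul_one] at this
  have e1 := BKOdd.cup_comm hd hx hy
  have e2 := hxy x hx
  have e3 := (CC.B2 (BKOdd.chL χ L)).sub_mem e1 e2
  rwa [add_sub_cancel_left] at e3

end BKT
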