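import Pool.Agent.Lib.MP_7c08ba_nt.T1.StF
import Pool.Agent.Lib.MP_7c08ba_nt.Met.FMAINX
import Pool.Agent.Lib.MP_7c08ba_nt.Met.FZID
import Pool.Agent.Lib.MP_7c08ba_nt.Met.LHOD
import Pool.Agent.Lib.MP_7c08ba_nt.Met.LLA
import Pool.Agent.Lib.MP_7c08ba_nt.Odd.LineL

set_option autoImplicit false
set_option linter.unusedSectionVars false

/-!
Parity for general residual representations, part F: the parity theorem for groups (assembly).
-/

noncomputable section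

namespace BKT

open BKPar (Loc1 Loc2)
open BKND (Sm)
open BKMet
open Matrix

open BKMet.FMAINX in
theorem stMainXT (h1 : StParXT) (h2 : StLocXT) (h4 : StCupXT) : StMainXT := by
  intro p _ hp L _ _ _ ι _ G _ _ _ _ _ D _ _ _ _ _ r c χ inv δ U hS n V B hP hI hI' i₀ hδ hex
    hLine Zf s s' hH
  have h3 : StZid := BKMet.stZid
  have h5 : StHod := BKMet.stHod BKOdd.stLineL
  have h6 : StLA := BKMet.stLA
  obtain ⟨i₁, hi₁⟩ := hex
  classical
  -- the numbers `δ`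
  have hδ0 : ∀ i, i ≠ i₀ → δ i = 0 := by
    intro i hi
    have e1 := Finset.add_sum_erase Finset.univ δ (Finset.mem_univ i₀)
    rw [hS.sum, hδ] at e1
    have e2 : ∑ x ∈ Finset.univ.erase i₀, δ x = 0 := by omega
    exact Finset.sum_eq_zero_iff.mp e2 i (Finset.mem_erase.mpr ⟨hi, Finset.mem_univ i⟩)
  have hch : CharZero L := charZero_of_injective_algebraMap (algebraMap ℚ_[p] L).injective
  -- the local theorem
  obtain ⟨hLV, hL0⟩ := h2 p L ι G D r c χ inv δ U hS n V B hP hI hI'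
  have hZB : ∀ i, i ≠ i₀ → BKOdd.Z1 (V.comp (r i)) ≤ BKOdd.B1 (V.comp (r i)) ∧
      BKOdd.Z1 ((V.comp c).comp (r i)) ≤ BKOdd.B1 ((V.comp c).comp (r i)) :=
    fun i hi => hL0 i (hδ0 i hi)
  have hLV0 := hLV i₀
  rw [hδ] at hLV0
  have hc1 : Continuous (V.comp (r i₀)) := hP.cont.comp (hS.cont_r i₀)
  have hc2 : Continuous ((dualC V c B).comp (r i₀)) :=
    (continuous_dualC hP.cont hS.cont_c B).comp (hS.cont_r i₀)
  have hn2 : NoInv ((dualC V c B).comp (r i₀)) := noInv_dualC B (hI' i₀)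
  obtain ⟨hss, hcl, hcl', hz, hz', Λ, hΛ, -, hΛB, hΛB', hΛZ⟩ :=
    h5 p L (D i₀) (χ.comp (r i₀)) (hS.cont_χ.comp (hS.cont_r i₀)) hLine n (V.comp (r i₀))
      ((dualC V c B).comp (r i₀)) hc1 hc2 (isDual_dualC hP.dual (r i₀)) (hI i₀) hn2 hLV0 Zf s s' hH
  have hf1 : FiniteDimensional L (BKOdd.Z1 (V.comp (r i₀))) := hLV0.fin
  have hf2 : FiniteDimensional L (BKOdd.Z1 ((dualC V c B).comp (r i₀))) := hLV0.fin'
  -- the global theorem
  obtain ⟨⟨-, hpar⟩, hT⟩ := h1 p hp L ι G D r c χ inv δ U hS n V B hP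
  obtain ⟨hT1, hT2, hT3⟩ := hT {(i₁, false)} (Set.singleton_nonempty _)
    ⟨(i₁, true), by simp⟩
  have hsum : (∑ w : ι × Bool, if w ∈ ({(i₁, false)} : Set (ι × Bool)) then δ w.1 else 0) = 0 := by
    apply Finset.sum_eq_zero
    intro w _
    split_ifs with hw
    · rw [Set.mem_singleton_iff.mp hw]
      exact hδ0 i₁ hi₁
    · rfl
  have hT4 : Module.finrank L (ZTV V (rr r c) {(i₁, false)}) =
      Module.finrank L (ZTV (V.comp c) (rr r c) {(i₁, false)}ᶜ) + n := by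
    rw [← hT3]
    convert (Nat.add_zero _).symm using 2
    rw [Nat.mul_eq_zero]
    right
    convert hsum
  obtain ⟨hfZ, hfr, hW1, hW2⟩ := h3 L ι G D r hS.cont_r c hS.cont_c hS.inv_c n V hP.cont hI hI'
    i₀ i₁ hi₁ hZB hT1
  -- linear algebra
  have hB1 : Module.finrank L ((BKOdd.B1 (V.comp (r i₀))).submoduleOf
      (BKOdd.Z1 (V.comp (r i₀)))) = n :=
    (finrank_sub (BKOdd.Z1 (V.comp (r i₀))) _ (BKOdd.B1 (V.comp (r i₀)))
      fun x => ⟨fun hx => ⟨BKOdd.B1_le hc1 hx, hx⟩, fun ⟨_, hx⟩ => hx⟩).symm.trans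
      (finrank_B1_noInv (hI i₀))
  have hPd : Module.finrank L ((Zf (V.comp (r i₀))).submoduleOf
      (BKOdd.Z1 (V.comp (r i₀)))) = s + n := by
    have hfd : FiniteDimensional L (Zf (V.comp (r i₀))) :=
      Submodule.finiteDimensional_of_le hH.zz
    have e1 := BKOdd.finrank_cls hc1 (Zf (V.comp (r i₀))) hH.bz hH.zz
    rw [hcl, finrank_B1_noInv (hI i₀)] at e1
    exact (finrank_sub (BKOdd.Z1 (V.comp (r i₀))) _ (Zf (V.comp (r i₀)))
      fun x => ⟨fun hx => ⟨hH.zz hx, hx⟩, fun ⟨_, hx⟩ => hx⟩).symm.trans e1.symm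
  have key := h6 L two_ne_zero (BKOdd.Z1 V) (BKOdd.Z1 (V.comp (r i₀)))
    (BKOdd.Z1 ((dualC V c B).comp (r i₀))) (resA V (r i₀) (hS.cont_r i₀))
    (resB V c hS.cont_c B (r i₀) (hS.cont_r i₀))
    (BKOdd.pairZ (V.comp (r i₀)) ((dualC V c B).comp (r i₀)) Λ)
    ((BKOdd.B1 (V.comp (r i₀))).submoduleOf (BKOdd.Z1 (V.comp (r i₀))))
    ((BKOdd.B1 ((dualC V c B).comp (r i₀))).submoduleOf (BKOdd.Z1 ((dualC V c B).comp (r i₀))))
    (fun w => (hΛB w w.2).trans ⟨fun h w' => h w' w'.2, fun h y hy => h ⟨y, hy⟩⟩)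
    (fun w => (hΛB' w w.2).trans ⟨fun h w' => h w' w'.2, fun h y hy => h ⟨y, hy⟩⟩)
    (fun x y => by
      have e1 := hΛ _ (h4 p L ι G D r c χ inv δ U hS n V B hP.cont hP.symm hP.dual i₀ hLine hZB
        x x.2 y y.2)
      rw [map_add] at e1
      exact eq_neg_of_add_eq_zero_left e1)
    (by
      have e1 := hW1 ((((BKOdd.B1 (V.comp (r i₀))).submoduleOf (BKOdd.Z1 (V.comp (r i₀)))).comap
        (resA V (r i₀) (hS.cont_r i₀)) ⊓ ((BKOdd.B1 ((dualC V c B).comp (r i₀))).submoduleOf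
        (BKOdd.Z1 ((dualC V c B).comp (r i₀)))).comap (resB V c hS.cont_c B (r i₀)
        (hS.cont_r i₀))).map (BKOdd.Z1 V).subtype) fun x => by
          rw [mem_map_sub]
          constructor
          · rintro ⟨hx, hx1, hx2⟩
            exact ⟨hx, hx1, (mem_B1_dualC V c B (r i₀) _).mp hx2⟩
          · rintro ⟨hx, hx1, hx2⟩
            exact ⟨hx, hx1, (mem_B1_dualC V c B (r i₀) _).mpr hx2⟩
      have e2 := finrank_sub (BKOdd.Z1 V) _ _ (mem_map_sub (BKOdd.Z1 V)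
        (((BKOdd.B1 (V.comp (r i₀))).submoduleOf (BKOdd.Z1 (V.comp (r i₀)))).comap
        (resA V (r i₀) (hS.cont_r i₀)) ⊓ ((BKOdd.B1 ((dualC V c B).comp (r i₀))).submoduleOf
        (BKOdd.Z1 ((dualC V c B).comp (r i₀)))).comap (resB V c hS.cont_c B (r i₀)
        (hS.cont_r i₀))))
      omega)
    ((Zf (V.comp (r i₀))).submoduleOf (BKOdd.Z1 (V.comp (r i₀))))
    ((Zf ((dualC V c B).comp (r i₀))).submoduleOf (BKOdd.Z1 ((dualC V c B).comp (r i₀))))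
    (fun x hx => hH.bz hx)
    (fun w => (hΛZ w w.2).trans ⟨fun h w' hw' => h w' hw', fun h y hy => h ⟨y, hH.zz hy⟩ hy⟩)
  have e3 := hW2 ((((BKOdd.B1 (V.comp (r i₀))).submoduleOf (BKOdd.Z1 (V.comp (r i₀)))).comap
    (resA V (r i₀) (hS.cont_r i₀))).map (BKOdd.Z1 V).subtype) fun x => by
      rw [mem_map_sub]
      constructor
      · rintro ⟨hx, hx1⟩
        exact ⟨hx, hx1⟩
      · rintro ⟨hx, hx1⟩
        exact ⟨hx, hx1⟩
  have e4 := finrank_sub (BKOdd.Z1 V) _ _ (mem_map_sub (BKOdd.Z1 V)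
    (((BKOdd.B1 (V.comp (r i₀))).submoduleOf (BKOdd.Z1 (V.comp (r i₀)))).comap
    (resA V (r i₀) (hS.cont_r i₀))))
  refine ⟨hfZ, hss, hf1, hf2, hcl, hcl', hZB, ?_⟩
  intro W hW
  have e5 := finrank_sub (BKOdd.Z1 V)
    (((Zf (V.comp (r i₀))).submoduleOf (BKOdd.Z1 (V.comp (r i₀)))).comap
      (resA V (r i₀) (hS.cont_r i₀)) ⊓
    ((Zf ((dualC V c B).comp (r i₀))).submoduleOf (BKOdd.Z1 ((dualC V c B).comp (r i₀)))).comap
      (resB V c hS.cont_c B (r i₀) (hS.cont_r i₀))) W fun x => by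
      rw [hW]
      constructor
      · rintro ⟨hx, hx1, hx2⟩
        exact ⟨hx, hx1, hx2⟩
      · rintro ⟨hx, hx1, hx2⟩
        exact ⟨hx, hx1, hx2⟩
  omega

end BKT
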