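import Pool.Agent.Lib.MP_7c08ba_nt.T1.StF
import Pool.Agent.Lib.MP_7c08ba_nt.Met.NNSD

set_option autoImplicit false

/-!
Parity for general residual representations, module NSDT: subquotients of odd dimension have no
symmetric form.
-/

noncomputable section

namespace BKT

open NumberField BKGen
open BKMet
open Matrix

namespace FNSDT

/-- determinants of similitudes -/
theorem det_sim {k : Type} [Field k] {W : Type} [AddCommGroup W] [Module k W]
    [FiniteDimensional k W] (B : W →ₗ[k] W →ₗ[k] k) (hB : ∀ x, (∀ y, B x y = 0) → x = 0)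
    (a b : W →ₗ[k] W) (z : k) (h : ∀ x y, B (a x) (b y) = z * B x y) :
    LinearMap.det a * LinearMap.det b = z ^ Module.finrank k W := by
  classical
  let e := Module.finBasis k W
  have h1 : LinearMap.toMatrix₂ e e (B.compl₁₂ a b) =
      (LinearMap.toMatrix e e a)ᵀ * LinearMap.toMatrix₂ e e B * LinearMap.toMatrix e e b :=
    LinearMap.toMatrix₂_compl₁₂ _ _ _ _ _ _ _
  have h2 : B.compl₁₂ a b = z • B := by
    ext x y
    rw [LinearMap.compl₁₂_apply, h, LinearMap.smul_apply, LinearMap.smul_apply, smul_eq_mul]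
  have h3 : (LinearMap.toMatrix₂ e e B).det ≠ 0 := by
    rw [← Matrix.separatingLeft_iff_det_ne_zero, LinearMap.separatingLeft_toMatrix₂_iff]
    exact hB
  have h4 := congrArg Matrix.det h1
  rw [h2, map_smul, Matrix.det_mul, Matrix.det_mul, Matrix.det_transpose, Matrix.det_smul,
    Fintype.card_fin, LinearMap.det_toMatrix, LinearMap.det_toMatrix] at h4
  have h5 : (LinearMap.det a * LinearMap.det b) * (LinearMap.toMatrix₂ e e B).det =
      z ^ Module.finrank k W * (LinearMap.toMatrix₂ e e B).det := by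
    rw [h4]
    ring
  exact mul_right_cancel₀ h3 h5

section Alg

variable {R : Type} [CommRing R] [IsLocalRing R] {E : Type} [AddCommGroup E] [Module R E]

/-- the determinants of the elements of a group which acts on `Q / P` -/
theorem exists_det [Finite (IsLocalRing.ResidueField R)] (P Q : Submodule R E)
    (hm : ∀ a ∈ IsLocalRing.maximalIdeal R, ∀ x ∈ Q, a • x ∈ P)
    (f : E → E → IsLocalRing.ResidueField R)
    (hadd : ∀ x ∈ Q, ∀ x' ∈ Q, ∀ y ∈ Q, f (x + x') y = f x y + f x' y)
    (hsmul : ∀ a : R, ∀ x ∈ Q, ∀ y ∈ Q, f (a • x) y = IsLocalRing.residue R a * f x y)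
    (hsymm : ∀ x ∈ Q, ∀ y ∈ Q, f x y = f y x)
    (hker : ∀ x ∈ Q, x ∈ P ↔ ∀ y ∈ Q, f x y = 0)
    {G : Type} [Group G] (ρ : G →* Module.End R E)
    (hP : ∀ g, ∀ x ∈ P, ρ g x ∈ P) (hQ : ∀ g, ∀ x ∈ Q, ρ g x ∈ Q) (d : ℕ)
    (hd : P.toAddSubgroup.relIndex Q.toAddSubgroup = Nat.card (IsLocalRing.ResidueField R) ^ d) :
    ∃ δ : G →* IsLocalRing.ResidueField R, (∀ g, ρ g = 1 → δ g = 1) ∧
      ∀ (g g' : G) (z : IsLocalRing.ResidueField R),
        (∀ x ∈ Q, ∀ y ∈ Q, f (ρ g x) (ρ g' y) = z * f x y) → δ g * δ g' = z ^ d := by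
  classical
  let W : Type := ↥Q ⧸ P.submoduleOf Q
  have hT : Module.IsTorsionBySet R W (IsLocalRing.maximalIdeal R) := by
    rintro w ⟨a, ha⟩
    obtain ⟨x, rfl⟩ := Submodule.Quotient.mk_surjective _ w
    change a • Submodule.Quotient.mk x = 0
    rw [← Submodule.Quotient.mk_smul, Submodule.Quotient.mk_eq_zero]
    exact hm a ha x x.2
  let iW : Module (IsLocalRing.ResidueField R) W := hT.module
  have hST : IsScalarTower R (IsLocalRing.ResidueField R) W := by
    exact Module.IsTorsionBySet.isScalarTower hT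
  have hres : Function.Surjective (algebraMap R (IsLocalRing.ResidueField R)) :=
    IsLocalRing.residue_surjective
  have hcard : Nat.card W = Nat.card (IsLocalRing.ResidueField R) ^ d := by
    rw [← hd]
    rfl
  have hfin : Finite W := by
    apply Nat.finite_of_card_ne_zero
    rw [hcard]
    exact pow_ne_zero _ Nat.card_pos.ne'
  have hrank : Module.finrank (IsLocalRing.ResidueField R) W = d := by
    have h1 := Module.natCard_eq_pow_finrank (K := IsLocalRing.ResidueField R) (V := W)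
    rw [hcard] at h1
    exact (Nat.pow_right_injective Finite.one_lt_card h1).symm
  have hfd : FiniteDimensional (IsLocalRing.ResidueField R) W := Module.Finite.of_finite
  -- representatives
  let mk : ↥Q → W := Submodule.Quotient.mk
  have hsurj : ∀ w : W, ∃ x : ↥Q, mk x = w := fun w => Submodule.Quotient.mk_surjective _ w
  choose s hs using hsurj
  have hmk : ∀ x y : ↥Q, mk x = mk y ↔ (x : E) - y ∈ P := by
    intro x y
    exact Submodule.Quotient.eq _
  -- the form is well defined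
  have haddr : ∀ x ∈ Q, ∀ y ∈ Q, ∀ y' ∈ Q, f x (y + y') = f x y + f x y' := by
    intro x hx y hy y' hy'
    rw [hsymm x hx _ (Q.add_mem hy hy'), hadd y hy y' hy' x hx, hsymm y hy x hx,
      hsymm y' hy' x hx]
  have hwd1 : ∀ x x' y : ↥Q, mk x = mk x' → f x y = f x' y := by
    intro x x' y h
    have h1 := (hker _ (Q.sub_mem x.2 x'.2)).1 ((hmk x x').1 h) y y.2
    have h2 := hadd _ (Q.sub_mem x.2 x'.2) _ x'.2 y y.2
    rw [sub_add_cancel, h1, zero_add] at h2
    exact h2
  have hwd2 : ∀ x y y' : ↥Q, mk y = mk y' → f x y = f x y' := by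
    intro x y y' h
    rw [hsymm x x.2 y y.2, hsymm x x.2 y' y'.2]
    exact hwd1 y y' x h
  have hwd : ∀ x x' y y' : ↥Q, mk x = mk x' → mk y = mk y' → f x y = f x' y' :=
    fun x x' y y' h h' => (hwd1 x x' y h).trans (hwd2 x' y y' h')
  have hmka : ∀ x y : ↥Q, mk (x + y) = mk x + mk y := fun x y => rfl
  have hmks : ∀ (a : R) (x : ↥Q), mk (a • x) = IsLocalRing.residue R a • mk x := fun a x => rfl
  obtain ⟨B, hB⟩ : ∃ B : W →ₗ[IsLocalRing.ResidueField R] W →ₗ[IsLocalRing.ResidueField R]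
      IsLocalRing.ResidueField R, ∀ x y : ↥Q, B (mk x) (mk y) = f x y := by
    refine ⟨LinearMap.mk₂ _ (fun w w' => f (s w) (s w')) ?_ ?_ ?_ ?_, ?_⟩
    · intro w w' v
      have h1 := hwd1 (s (w + w')) (s w + s w') (s v) (by rw [hmka, hs, hs, hs])
      exact h1.trans (hadd _ (s w).2 _ (s w').2 _ (s v).2)
    · intro c w v
      obtain ⟨a, rfl⟩ := hres c
      have h1 := hwd1 (s (IsLocalRing.residue R a • w)) (a • s w) (s v)
        (by rw [hmks, hs, hs])
      exact h1.trans (hsmul a _ (s w).2 _ (s v).2)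
    · intro w v v'
      have h1 := hwd2 (s w) (s (v + v')) (s v + s v') (by rw [hmka, hs, hs, hs])
      exact h1.trans (haddr _ (s w).2 _ (s v).2 _ (s v').2)
    · intro c w v
      obtain ⟨a, rfl⟩ := hres c
      have h1 := hwd2 (s w) (s (IsLocalRing.residue R a • v)) (a • s v)
        (by rw [hmks, hs, hs])
      have h2 : f (s w) ((a • s v : ↥Q) : E) = IsLocalRing.residue R a * f (s w) (s v) := by
        rw [hsymm _ (s w).2 _ (a • s v).2, hsymm _ (s w).2 _ (s v).2]
        exact hsmul a _ (s v).2 _ (s w).2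
      exact h1.trans h2
    · intro x y
      exact hwd _ _ _ _ (hs _) (hs _)
  have hnd : ∀ w, (∀ v, B w v = 0) → w = 0 := by
    intro w h
    rw [← hs w]
    have h1 : (s w : E) ∈ P := by
      rw [hker _ (s w).2]
      intro y hy
      rw [← hB (s w) ⟨y, hy⟩, hs]
      exact h _
    have h2 : mk (s w) = mk 0 := by
      rw [hmk]
      change (s w : E) - 0 ∈ P
      rw [sub_zero]
      exact h1
    rw [h2]
    rfl
  -- the action
  have hmap : ∀ g, P.submoduleOf Q ≤ (P.submoduleOf Q).comap ((ρ g).restrict (hQ g)) := by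
    intro g x hx
    exact hP g x hx
  obtain ⟨T, hT'⟩ : ∃ T : G → (W →ₗ[IsLocalRing.ResidueField R] W),
      ∀ (g : G) (x : ↥Q), T g (mk x) = mk ⟨ρ g x, hQ g x x.2⟩ :=
    ⟨fun g => LinearMap.extendScalarsOfSurjective hres
        (Submodule.mapQ (P.submoduleOf Q) (P.submoduleOf Q) ((ρ g).restrict (hQ g)) (hmap g)),
      fun g x => rfl⟩
  have hT1 : ∀ g, ρ g = 1 → T g = 1 := by
    intro g hg
    refine LinearMap.ext fun w => ?_
    rw [← hs w, hT', Module.End.one_apply]
    congr 1
    apply Subtype.ext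
    change ρ g (s w : E) = s w
    rw [hg, Module.End.one_apply]
  have hTm : ∀ g h, T (g * h) = T g * T h := by
    intro g h
    refine LinearMap.ext fun w => ?_
    rw [← hs w, Module.End.mul_apply, hT', hT', hT']
    congr 1
    apply Subtype.ext
    change ρ (g * h) (s w : E) = ρ g (ρ h (s w))
    rw [map_mul, Module.End.mul_apply]
  refine ⟨⟨⟨fun g => LinearMap.det (T g), ?_⟩, ?_⟩, fun g hg => ?_, fun g g' z h => ?_⟩
  · rw [hT1 1 (map_one ρ), map_one]
  · intro g h
    change LinearMap.det (T (g * h)) = LinearMap.det (T g) * LinearMap.det (T h)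
    rw [hTm, map_mul]
  · change LinearMap.det (T g) = 1
    rw [hT1 g hg, map_one]
  · change LinearMap.det (T g) * LinearMap.det (T g') = z ^ d
    rw [← hrank]
    refine det_sim B hnd _ _ z fun w v => ?_
    rw [← hs w, ← hs v, hT', hT', hB, hB]
    exact h _ (s w).2 _ (s v).2

end Alg

/-- the action of the matrices on vectors -/
def actM {R : Type} [CommRing R] {n : ℕ} {G : Type} [Group G] (ρ : G →* GL (Fin n) R) :
    G →* Module.End R (Fin n → R) where
  toFun g := (ρ g : Matrix (Fin n) (Fin n) R).mulVecLin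
  map_one' := by
    rw [map_one, Units.val_one]
    exact Matrix.mulVecLin_one
  map_mul' g h := by
    rw [map_mul, Units.val_mul]
    exact Matrix.mulVecLin_mul _ _

theorem toL_inj {p : ℕ} [Fact p.Prime] {L : Type} [NormedField L] [NormedAlgebra ℚ_[p] L] {n : ℕ}
    {M : GL (Fin n) (OO p L)} (h : toL p L n M = 1) : M = 1 := by
  apply Units.ext
  ext i j
  have h1 := congrArg (fun N : GL (Fin n) L => (N : Matrix (Fin n) (Fin n) L) i j) h
  change ((M : Matrix (Fin n) (Fin n) (OO p L)) i j : L) = _ at h1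
  rw [h1]
  change (1 : Matrix (Fin n) (Fin n) L) i j = _
  change _ = (((1 : Matrix (Fin n) (Fin n) (OO p L)) i j : OO p L) : L)
  rw [Matrix.one_apply, Matrix.one_apply]
  split_ifs <;> rfl

end FNSDT

open FNSDT NNSD in
/-- Module NSDT: subquotients of odd dimension have no symmetric form. -/
theorem stNsdT (hram : StRamT) : StNsdT := by
  intro p _ hp F _ _ hF hreal c σ hcs L _ _ _ n V A ρ hρ l _ hRd hlp hV P Q hπ hPQ hsP hsQ d hd hodd
    f hf
  obtain ⟨j, t, τ, ht, ⟨a, ha⟩, hin⟩ := hram F hF l hRd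
  have hpp : p.Prime := Fact.out
  obtain ⟨s, hs⟩ := hcs.hσ
  have hσσ : ∀ x, σ (σ x) = x := by
    intro x
    apply (algebraMap F (AlgebraicClosure F)).injective
    rw [← hcs.h, ← hcs.h, hcs.hc]
  -- `τ` is `σ` on `F`
  have hτσ : ∀ b : F, τ (algebraMap F (AlgebraicClosure F) b) =
      algebraMap F (AlgebraicClosure F) (σ b) := by
    have hne : algebraMap F (AlgebraicClosure F) ≠
        (algebraMap F (AlgebraicClosure F)).comp (σ : F →+* F) := by
      intro h0
      exact hs ((algebraMap F (AlgebraicClosure F)).injective (RingHom.congr_fun h0 s)).symm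
    rcases emb2 hF _ _ ((τ : AlgebraicClosure F →+* AlgebraicClosure F).comp
      (algebraMap F (AlgebraicClosure F))) hne with h2 | h2
    · exact absurd (RingHom.congr_fun h2 a) ha
    · exact fun b => RingHom.congr_fun h2 b
  -- the element of the Galois group
  let g : GF F := AlgEquiv.ofRingEquiv (f := τ.trans c) (fun b => by
    change c (τ (algebraMap F _ b)) = _
    rw [hτσ, hcs.h, hσσ])
  have hg : ∀ z, g z = c (τ z) := fun z => rfl
  have hcg : ∀ z, (BKOdd.conj c σ hcs.h g * g) z = τ (τ z) := by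
    intro z
    change c (c (τ (c.symm (c (τ z))))) = τ (τ z)
    rw [RingEquiv.symm_apply_apply, hcs.hc]
  have hI : BKOdd.conj c σ hcs.h g * g ∈ Inert F (AlgebraicClosure F) j := by
    have hu : IsUltrametricDist (PadicAlgCl l) := IsUltrametricDist.of_normedAlgebra ℚ_[l]
    intro x hx
    rw [hcg]
    have h1 := hin x hx
    have h2 : ‖j (τ x)‖ ≤ 1 := by
      have e : j (τ x) = j (τ x - x) + j x := by rw [← map_add, sub_add_cancel]
      rw [e]
      exact (IsUltrametricDist.norm_add_le_max _ _).trans (max_le h1.le hx)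
    have h3 := hin (τ x) h2
    have e : j (τ (τ x) - x) = j (τ (τ x) - τ x) + j (τ x - x) := by
      rw [← map_add, sub_add_sub_cancel]
    rw [e]
    exact (IsUltrametricDist.norm_add_le_max _ _).trans_lt (max_lt h3 h1)
  obtain ⟨m, hm, hVm⟩ := hV j _ hI
  have hρm : ρ (BKOdd.conj c σ hcs.h g * g) ^ m = 1 := by
    apply toL_inj (p := p) (L := L)
    rw [map_pow, hρ, conj_pow, hVm, mul_one, mul_inv_cancel]
  obtain ⟨ζ, hζ⟩ := exists_zeta p F
  have hcz : c ζ = ζ⁻¹ := (BKOdd.stConj p hp F hF hreal ζ hζ c σ hcs).2.2.2.2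
  have hτp : (τ ζ) ^ p = 1 := by rw [← map_pow, hζ.pow_eq_one, map_one]
  have hjζ : (j ζ) ^ p = 1 := by rw [← map_pow, hζ.pow_eq_one, map_one]
  have hjτ : (j (τ ζ)) ^ p = 1 := by rw [← map_pow, hτp, map_one]
  have hn : ‖j ζ‖ = 1 := by
    have h2 : ‖j ζ‖ ^ p = 1 := by rw [← norm_pow, hjζ, norm_one]
    exact (pow_eq_one_iff_of_nonneg (norm_nonneg _) hpp.ne_zero).1 h2
  have hτz : τ ζ = ζ := j.injective (root_eq hpp hlp hjζ hjτ (by
    rw [← map_sub]
    exact hin ζ hn.le))
  have h2 := cyc_neg hζ g (by rw [hg, hτz, hcz])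
  have h3 : PadicInt.toZMod (((cycF p F g : ℤ_[p]ˣ) : ℤ_[p])) = -1 := by
    have h4 : ((cycF p F g : ℤ_[p]ˣ) : ℤ_[p]) + 1 ∈ RingHom.ker (PadicInt.toZMod (p := p)) := by
      rw [PadicInt.ker_toZMod, IsLocalRing.mem_maximalIdeal, PadicInt.mem_nonunits]
      exact h2
    rw [RingHom.mem_ker, map_add, map_one] at h4
    exact eq_neg_of_add_eq_zero_left h4
  obtain ⟨δ, hδ1, hδ⟩ := exists_det P Q
    (by
      intro a ha x hx
      rw [pi0_span, Ideal.mem_span_singleton] at ha
      obtain ⟨b, rfl⟩ := ha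
      rw [mul_smul]
      exact hπ _)
    f hf.add hf.smul hf.symm hf.ker (actM ρ) hsP hsQ d hd
  have h4 := hδ g (BKOdd.conj c σ hcs.h g) _ (hf.eqv g)
  rw [h3, map_neg, map_one, hodd.neg_one_pow, mul_comm, ← map_mul] at h4
  have h5 : δ (BKOdd.conj c σ hcs.h g * g) ^ m = 1 := by
    rw [← map_pow]
    apply hδ1
    change (ρ ((BKOdd.conj c σ hcs.h g * g) ^ m) : Matrix (Fin n) (Fin n) (OO p L)).mulVecLin = 1
    rw [map_pow, hρm, Units.val_one]
    exact Matrix.mulVecLin_one
  rw [h4, hm.neg_one_pow] at h5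
  have hne : ringChar (kk p L) ≠ 2 := by
    rw [ringChar.eq (kk p L) p]
    exact hp
  exact Ring.neg_one_ne_one_of_char_ne_two hne h5


end BKT
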