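import Pool.Agent.Lib.MP_7c08ba_nt.T1.StF

set_option autoImplicit false

/-!
Parity for general residual representations: module PARH, parity in terms of the simple
subquotients of the reduction.
-/

noncomputable section

namespace BKT

open NumberField BKGen
open BKPar (Loc1 Loc2)
open BKND (Sm)
open BKMet
open Matrix

namespace FPARH

/-- the index of the kernel of an additive function -/
theorem relIndex_eq {V W : Type*} [AddCommGroup V] [AddCommGroup W] (K Z : AddSubgroup V)
    (F : V → W) (hadd : ∀ x ∈ Z, ∀ y ∈ Z, F (x + y) = F x + F y)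
    (hsurj : ∀ y, ∃ x ∈ Z, F x = y) (hker : ∀ x ∈ Z, F x = 0 ↔ x ∈ K) :
    K.relIndex Z = Nat.card W := by
  let Φ : Z →+ W := AddMonoidHom.mk' (fun x => F x) fun x y => hadd x x.2 y y.2
  have hk : K.addSubgroupOf Z = Φ.ker := by
    ext x
    rw [AddSubgroup.mem_addSubgroupOf, AddMonoidHom.mem_ker, ← hker x x.2]
    rfl
  have hr : Φ.range = ⊤ := by
    refine AddMonoidHom.range_eq_top.2 fun y => ?_
    obtain ⟨x, hx, e⟩ := hsurj y
    exact ⟨⟨x, hx⟩, e⟩
  rw [AddSubgroup.relIndex, hk, AddSubgroup.index_ker, hr]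
  exact AddSubgroup.card_top

section Index

variable {p : ℕ} [Fact p.Prime] {L : Type} [NormedField L] [NormedAlgebra ℚ_[p] L]
  [FiniteDimensional ℚ_[p] L] {n : ℕ}

/-- the order of a finitely generated module killed by the uniformizer -/
theorem card_pow (Y : Type) [AddCommGroup Y] [Module (OO p L) Y] [Module.Finite (OO p L) Y]
    (h : ∀ y : Y, pi0 p L • y = 0) : ∃ d : ℕ, Nat.card Y = Nat.card (kk p L) ^ d := by
  have ht : Module.IsTorsionBySet (OO p L) Y (IsLocalRing.maximalIdeal (OO p L)) := by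
    rintro y ⟨a, ha⟩
    rw [SetLike.mem_coe, pi0_span, Ideal.mem_span_singleton] at ha
    obtain ⟨b, rfl⟩ := ha
    change (pi0 p L * b) • y = 0
    rw [mul_comm, mul_smul, h, smul_zero]
  let _ : Module (kk p L) Y := ht.module
  have : IsScalarTower (OO p L) (kk p L) Y := ht.isScalarTower
  have : Module.Finite (kk p L) Y := Module.Finite.of_restrictScalars_finite (OO p L) (kk p L) Y
  have : Finite (kk p L) := instFiniteRes p L
  exact ⟨Module.finrank (kk p L) Y, Module.natCard_eq_pow_finrank⟩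

/-- the index of a submodule is a power of the order of the residue field -/
theorem index_pow (P Q : Submodule (OO p L) (Fin n → OO p L))
    (hpi : ∀ x : Fin n → OO p L, pi0 p L • x ∈ P) :
    ∃ d : ℕ, P.toAddSubgroup.relIndex Q.toAddSubgroup = Nat.card (kk p L) ^ d := by
  classical
  have : IsNoetherianRing (OO p L) := inferInstance
  have : Module.Finite (OO p L) Q := inferInstance
  have : Module.Finite (OO p L) (Q ⧸ P.submoduleOf Q) := inferInstance
  have h1 : ∀ y : Q ⧸ P.submoduleOf Q, pi0 p L • y = 0 := by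
    intro y
    obtain ⟨x, rfl⟩ := Submodule.Quotient.mk_surjective _ y
    rw [← Submodule.Quotient.mk_smul, Submodule.Quotient.mk_eq_zero, Submodule.submoduleOf,
      Submodule.mem_comap]
    exact hpi x
  obtain ⟨d, hd⟩ := card_pow (Q ⧸ P.submoduleOf Q) h1
  refine ⟨d, ?_⟩
  have h2 := relIndex_eq (W := Q ⧸ P.submoduleOf Q) P.toAddSubgroup Q.toAddSubgroup
    (fun x => if hx : x ∈ Q then Submodule.Quotient.mk ⟨x, hx⟩ else 0) ?_ ?_ ?_
  · rw [h2, hd]
  · intro x hx y hy
    have hx' : x ∈ Q := hx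
    have hy' : y ∈ Q := hy
    simp only [hx', hy', Q.add_mem hx' hy', dif_pos]
    rfl
  · intro y
    obtain ⟨x, rfl⟩ := Submodule.Quotient.mk_surjective _ y
    refine ⟨x, x.2, ?_⟩
    simp only [x.2, dif_pos]
  · intro x hx
    have hx' : x ∈ Q := hx
    simp only [hx', dif_pos]
    rw [Submodule.Quotient.mk_eq_zero, Submodule.submoduleOf, Submodule.mem_comap]
    rfl

end Index

end FPARH

open FPARH in
theorem stParH (h1 : StParT) (h2 : StLattT) (h3 : StNsdT) : StParH := by
  intro p _ hp F _ _ hF hIm hsp c σ hcs L _ _ _ n V hV P₀ hP₀ hspl hram hinv B hB hdual A ρ hρ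
    hNo hdR hfr
  have hns : NoSym ρ (BKOdd.conj c σ hcs.h) (cycF p F) := by
    intro P Q hpi hsmp f hf
    refine hNo P Q hpi hsmp ?_ f hf
    rintro ⟨l, hl, hram', hlp, hodd⟩
    obtain ⟨d, hd⟩ := index_pow P Q hpi
    rcases Nat.even_or_odd d with he | ho
    · exact ⟨d, he, hd⟩
    · exact absurd hf (h3 p hp F hF hIm c σ hcs L n V A ρ hρ l hram' hlp hodd P Q hpi
        hsmp.lt.le hsmp.stab hsmp.stab' d hd ho f)
  obtain ⟨S, ρ', B₀, N, hM⟩ := h2 p hp L (GF F) n V A ρ hρ (BKOdd.conj c σ hcs.h)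
    (BKOdd.Conj.conj_conj hcs.h hcs.hc) (cycF p F) B hB hdual hns
  exact h1 p hp F hF hIm hsp c σ hcs L n V hV P₀ hP₀ hspl hram hinv B hB hdual S ρ' B₀ N hM
    hdR hfr

end BKT
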