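import Pool.Agent.Lib.MP_7c08ba_nt.T1.StG
import Pool.Agent.Lib.MP_7c08ba_nt.Met.StN

set_option autoImplicit false

/-!
Parity for general residual representations, part F: the theorem for groups, the arithmetic
assembly, lattices, direct sums. Definitions and statements.
-/

noncomputable section

namespace BKT

open NumberField BKGen
open BKPar (Loc1 Loc2)
open BKND (Sm)
open BKMet
open BKV (RU GU dc)
open Matrix

/-! ### The theorem for groups -/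

/-- A profinite group `G` with a conjugation `c`, local groups `D i → G` (each also taken with the
conjugate map), a character `χ`, local invariants, and the local and global theorems for all finite
modules on which `U` acts through a `p`-group. -/
structure SitG (p : ℕ) [Fact p.Prime] {ι : Type} [Fintype ι] {G : Type} [Group G]
    [TopologicalSpace G] {D : ι → Type} [∀ i, Group (D i)] [∀ i, TopologicalSpace (D i)]
    (r : ∀ i, D i →* G) (c : G →* G) (χ : G →* ℤ_[p]ˣ)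
    (inv : ∀ i, (D i → D i → QZ p) →+ QZ p) (δ : ι → ℕ) (U : Subgroup G) : Prop where
  cont_r : ∀ i, Continuous (r i)
  cont_c : Continuous c
  inv_c : ∀ g, c (c g) = g
  cont_χ : Continuous χ
  χ_c : ∀ g, χ (c g) = χ g
  normal : U.Normal
  open' : IsOpen (U : Set G)
  fix : ∀ u ∈ U, PadicInt.toZMod ((χ u : ℤ_[p]ˣ) : ℤ_[p]) = 1
  loc : ∀ i, LocG p (χ.comp (r i)) (inv i) (δ i)
  glob : GlobI p (rr r c) χ U
  recip : ∀ z ∈ BKND.Z2 (actA χ), ∑ i, (inv i (pb2 (r i) z) - inv i (pb2 (c.comp (r i)) z)) = 0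
  sum : ∑ i, δ i = 1

section Pol

variable {p : ℕ} [Fact p.Prime] {L : Type} [NormedField L] [NormedAlgebra ℚ_[p] L]
  [FiniteDimensional ℚ_[p] L] {G : Type} [Group G] {n : ℕ}

/-- A unimodular lattice, given by the matrix `S`, which is stable under `V`, with the matrices `ρ`
of `V` and `B₀` of the form, and a stable submodule `N` which is Lagrangian in the reduction. -/
structure Metab (V : G →* GL (Fin n) L) (B : GL (Fin n) L) (S : GL (Fin n) L)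
    (ρ : G →* GL (Fin n) (OO p L)) (B₀ : Matrix (Fin n) (Fin n) (OO p L))
    (N : Submodule (OO p L) (Fin n → OO p L)) : Prop where
  int : ∀ g, toL p L n (ρ g) = S * V g * S⁻¹
  symm : B₀ᵀ = B₀
  det : IsUnit B₀.det
  form : (S : Matrix (Fin n) (Fin n) L)ᵀ * B₀.map (OO p L).subtype *
    (S : Matrix (Fin n) (Fin n) L) = (B : Matrix (Fin n) (Fin n) L)
  sub : ∀ x : Fin n → OO p L, pi0 p L • x ∈ N
  stab : ∀ g, ∀ x ∈ N, (ρ g : Matrix (Fin n) (Fin n) (OO p L)) *ᵥ x ∈ N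
  lagr : ∀ y, y ∈ N ↔ ∀ x ∈ N, pi0 p L ∣ x ⬝ᵥ (B₀ *ᵥ y)

/-- `U` acts trivially on the reduction. -/
def TrivR (ρ : G →* GL (Fin n) (OO p L)) (U : Subgroup G) : Prop :=
  ∀ u ∈ U, ∀ x : Fin n → OO p L, ∃ y : Fin n → OO p L,
    (ρ u : Matrix (Fin n) (Fin n) (OO p L)) *ᵥ x - x = pi0 p L • y

end Pol

/-- A representation with a symmetric form for which it is conjugate self-dual, and a unimodular
lattice with metabolic reduction on which `U` acts trivially. -/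
structure PolT {p : ℕ} [Fact p.Prime] {L : Type} [NormedField L] [NormedAlgebra ℚ_[p] L]
    [FiniteDimensional ℚ_[p] L] {G : Type} [Group G] [TopologicalSpace G] {n : ℕ}
    (V : G →* GL (Fin n) L) (c : G →* G) (χ : G →* ℤ_[p]ˣ) (B : GL (Fin n) L) (U : Subgroup G) :
    Prop where
  cont : Continuous V
  symm : (B : Matrix (Fin n) (Fin n) L)ᵀ = B
  dual : IsDual χ V (V.comp c) (B : Matrix (Fin n) (Fin n) L)
  metab : ∃ (S : GL (Fin n) L) (ρ : G →* GL (Fin n) (OO p L))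
    (B₀ : Matrix (Fin n) (Fin n) (OO p L)) (N : Submodule (OO p L) (Fin n → OO p L)),
    Metab V B S ρ B₀ N ∧ TrivR ρ U

/-- Module GAMT (from TR; as GAM): the global situation of part Y. -/
def StGamT : Prop :=
  ∀ (p : ℕ) [Fact p.Prime], p ≠ 2 → ∀ (ι : Type) [Fintype ι] (G : Type) [Group G]
    [TopologicalSpace G] [IsTopologicalGroup G] [CompactSpace G] (D : ι → Type)
    [∀ i, Group (D i)] [∀ i, TopologicalSpace (D i)] (r : ∀ i, D i →* G) (c : G →* G)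
    (χ : G →* ℤ_[p]ˣ) (inv : ∀ i, (D i → D i → QZ p) →+ QZ p) (δ : ι → ℕ) (U : Subgroup G),
    SitG p r c χ inv δ U →
    ∃ Γ : Glo (ι × Bool) G (DD D) (QZ p) (QZ p), (∀ w, Γ.r w = rr r c w) ∧
      (∀ i, ∀ z, Γ.inv (i, true) z = - Γ.inv (i, false) z) ∧
      (∀ a β, Γ.tr (cc3 c a, swp (Y := fun i => D i → D i → QZ p) β) = - Γ.tr (a, β)) ∧
      SitY p Γ χ (fun w => δ w.1) U

/-- Module PARXT (from LAM, MK, LAGR, LIMG of `Met`, and YR, SDT, GAMT; as PARX): parity and the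
Euler characteristic with coefficients in `L`. -/
def StParXT : Prop :=
  ∀ (p : ℕ) [Fact p.Prime], p ≠ 2 → ∀ (L : Type) [NormedField L] [NormedAlgebra ℚ_[p] L]
    [FiniteDimensional ℚ_[p] L] (ι : Type) [Fintype ι] (G : Type) [Group G]
    [TopologicalSpace G] [IsTopologicalGroup G] [CompactSpace G] [NonarchimedeanGroup G]
    (D : ι → Type) [∀ i, Group (D i)] [∀ i, TopologicalSpace (D i)]
    [∀ i, IsTopologicalGroup (D i)] [∀ i, CompactSpace (D i)] (r : ∀ i, D i →* G) (c : G →* G)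
    (χ : G →* ℤ_[p]ˣ) (inv : ∀ i, (D i → D i → QZ p) →+ QZ p) (δ : ι → ℕ) (U : Subgroup G),
    SitG p r c χ inv δ U → ∀ (n : ℕ) (V : G →* GL (Fin n) L) (B : GL (Fin n) L),
    PolT V c χ B U →
    (FiniteDimensional L (ZTV V (rr r c) {w | w.2 = false}) ∧
      Module.finrank L (ZTV V (rr r c) {w | w.2 = false}) % 2 = n % 2) ∧
    ∀ T : Set (ι × Bool), T.Nonempty → Tᶜ.Nonempty →
      FiniteDimensional L (ZTV V (rr r c) T) ∧
      FiniteDimensional L (ZTV (V.comp c) (rr r c) Tᶜ) ∧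
      Module.finrank L (ZTV V (rr r c) T) +
        n * (∑ w, open Classical in if w ∈ T then δ w.1 else 0) =
      Module.finrank L (ZTV (V.comp c) (rr r c) Tᶜ) + n

/-- Module LVT (from LAM, MK, LIMD of `Met`; as LV): the local theorem. -/
def StLvT : Prop :=
  ∀ (p : ℕ) [Fact p.Prime] (L : Type) [NormedField L] [NormedAlgebra ℚ_[p] L]
    [FiniteDimensional ℚ_[p] L] (D : Type) [Group D] [TopologicalSpace D] [IsTopologicalGroup D]
    [CompactSpace D] [NonarchimedeanGroup D] (χ : D →* ℤ_[p]ˣ), Continuous χ →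
    ∀ (inv : (D → D → QZ p) →+ QZ p) (δ : ℕ), LocG p χ inv δ →
    ∀ (n : ℕ) (V V' : D →* GL (Fin n) L), Continuous V → Continuous V' → IsDual χ V V' 1 →
    ∀ (S : GL (Fin n) L) (ρ : D →* GL (Fin n) (OO p L)),
    (∀ g, toL p L n (ρ g) = S * V g * S⁻¹) → NoInv V → NoInv V' → LocV χ δ V V'

/-- Module LOCXT (from LVT; as LOCX): the local theorem at all places. -/
def StLocXT : Prop :=
  ∀ (p : ℕ) [Fact p.Prime] (L : Type) [NormedField L] [NormedAlgebra ℚ_[p] L]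
    [FiniteDimensional ℚ_[p] L] (ι : Type) [Fintype ι] (G : Type) [Group G]
    [TopologicalSpace G] [IsTopologicalGroup G] [CompactSpace G]
    (D : ι → Type) [∀ i, Group (D i)] [∀ i, TopologicalSpace (D i)]
    [∀ i, IsTopologicalGroup (D i)] [∀ i, CompactSpace (D i)] [∀ i, NonarchimedeanGroup (D i)]
    (r : ∀ i, D i →* G) (c : G →* G)
    (χ : G →* ℤ_[p]ˣ) (inv : ∀ i, (D i → D i → QZ p) →+ QZ p) (δ : ι → ℕ) (U : Subgroup G),
    SitG p r c χ inv δ U → ∀ (n : ℕ) (V : G →* GL (Fin n) L) (B : GL (Fin n) L),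
    PolT V c χ B U → (∀ i, NoInv (V.comp (r i))) → (∀ i, NoInv ((V.comp c).comp (r i))) →
    (∀ i, LocV (χ.comp (r i)) (δ i) (V.comp (r i)) ((dualC V c B).comp (r i))) ∧
    ∀ i, δ i = 0 → BKOdd.Z1 (V.comp (r i)) ≤ BKOdd.B1 (V.comp (r i)) ∧
      BKOdd.Z1 ((V.comp c).comp (r i)) ≤ BKOdd.B1 ((V.comp c).comp (r i))

/-- Module CUPXT (from RL of `Met`; as CUPX): antisymmetry of the pairing of the restrictions. -/
def StCupXT : Prop :=
  ∀ (p : ℕ) [Fact p.Prime] (L : Type) [NormedField L] [NormedAlgebra ℚ_[p] L]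
    [FiniteDimensional ℚ_[p] L] (ι : Type) [Fintype ι] (G : Type) [Group G]
    [TopologicalSpace G] [IsTopologicalGroup G] [CompactSpace G] [NonarchimedeanGroup G]
    (D : ι → Type) [∀ i, Group (D i)] [∀ i, TopologicalSpace (D i)]
    [∀ i, IsTopologicalGroup (D i)] [∀ i, CompactSpace (D i)] [∀ i, NonarchimedeanGroup (D i)]
    (r : ∀ i, D i →* G) (c : G →* G)
    (χ : G →* ℤ_[p]ˣ) (inv : ∀ i, (D i → D i → QZ p) →+ QZ p) (δ : ι → ℕ) (U : Subgroup G),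
    SitG p r c χ inv δ U → ∀ (n : ℕ) (V : G →* GL (Fin n) L) (B : GL (Fin n) L), Continuous V →
    (B : Matrix (Fin n) (Fin n) L)ᵀ = B → IsDual χ V (V.comp c) (B : Matrix (Fin n) (Fin n) L) →
    ∀ i₀, LineAx p (χ.comp (r i₀)) →
    (∀ i, i ≠ i₀ → BKOdd.Z1 (V.comp (r i)) ≤ BKOdd.B1 (V.comp (r i)) ∧
      BKOdd.Z1 ((V.comp c).comp (r i)) ≤ BKOdd.B1 ((V.comp c).comp (r i))) →
    ∀ x ∈ BKOdd.Z1 V, ∀ y ∈ BKOdd.Z1 V,
      BKOdd.cupV ((dualC V c B).comp (r i₀)) (fun d => x (r i₀ d))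
        (fun d => (B : Matrix (Fin n) (Fin n) L) *ᵥ y (c (r i₀ d))) +
      BKOdd.cupV ((dualC V c B).comp (r i₀)) (fun d => y (r i₀ d))
        (fun d => (B : Matrix (Fin n) (Fin n) L) *ᵥ x (c (r i₀ d))) ∈
      CC.B2 (BKOdd.chL (χ.comp (r i₀)) L)

/-- Module MAINXT (from PARXT, LOCXT, CUPXT, and ZID, HOD, LA of `Met`; as MAINX): **the parity
theorem for groups.** -/
def StMainXT : Prop :=
  ∀ (p : ℕ) [Fact p.Prime], p ≠ 2 → ∀ (L : Type) [NormedField L] [NormedAlgebra ℚ_[p] L]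
    [FiniteDimensional ℚ_[p] L] (ι : Type) [Fintype ι] (G : Type) [Group G]
    [TopologicalSpace G] [IsTopologicalGroup G] [CompactSpace G] [NonarchimedeanGroup G]
    (D : ι → Type) [∀ i, Group (D i)] [∀ i, TopologicalSpace (D i)]
    [∀ i, IsTopologicalGroup (D i)] [∀ i, CompactSpace (D i)] [∀ i, NonarchimedeanGroup (D i)]
    (r : ∀ i, D i →* G) (c : G →* G)
    (χ : G →* ℤ_[p]ˣ) (inv : ∀ i, (D i → D i → QZ p) →+ QZ p) (δ : ι → ℕ) (U : Subgroup G),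
    SitG p r c χ inv δ U → ∀ (n : ℕ) (V : G →* GL (Fin n) L) (B : GL (Fin n) L),
    PolT V c χ B U → (∀ i, NoInv (V.comp (r i))) → (∀ i, NoInv ((V.comp c).comp (r i))) →
    ∀ i₀, δ i₀ = 1 → (∃ i, i ≠ i₀) → LineAx p (χ.comp (r i₀)) →
    ∀ (Zf : (D i₀ →* GL (Fin n) L) → Submodule L (D i₀ → Fin n → L)) (s s' : ℕ),
    BKOdd.HodgePair (BKOdd.chL (χ.comp (r i₀)) L) Zf (V.comp (r i₀))
      ((dualC V c B).comp (r i₀)) s s' →
    FiniteDimensional L (BKOdd.Z1 V) ∧ s + s' = n ∧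
    FiniteDimensional L (BKOdd.Z1 (V.comp (r i₀))) ∧
    FiniteDimensional L (BKOdd.Z1 ((dualC V c B).comp (r i₀))) ∧
    Module.finrank L (BKOdd.cls (V.comp (r i₀)) (Zf (V.comp (r i₀)))) = s ∧
    Module.finrank L (BKOdd.cls ((dualC V c B).comp (r i₀))
      (Zf ((dualC V c B).comp (r i₀)))) = s' ∧
    (∀ i, i ≠ i₀ → BKOdd.Z1 (V.comp (r i)) ≤ BKOdd.B1 (V.comp (r i)) ∧
      BKOdd.Z1 ((V.comp c).comp (r i)) ≤ BKOdd.B1 ((V.comp c).comp (r i))) ∧
    ∀ W : Submodule L (G → Fin n → L), (∀ x, x ∈ W ↔ x ∈ BKOdd.Z1 V ∧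
      (fun d => x (r i₀ d)) ∈ Zf (V.comp (r i₀)) ∧
      (fun d => (B : Matrix (Fin n) (Fin n) L) *ᵥ x (c (r i₀ d))) ∈
        Zf ((dualC V c B).comp (r i₀))) →
      Module.finrank L W % 2 = (s + n) % 2

/-! ### Arithmetic -/

section Arith

open MP_7c08ba.Crys

/-- Module U0T: the group `U₀` of the elements which act trivially on the reduction of the lattice,
with their conjugates. -/
def StU0T : Prop :=
  ∀ (p : ℕ) [Fact p.Prime], p ≠ 2 → ∀ (F : Type) [Field F] [NumberField F],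
    Module.finrank ℚ F = 2 → IsEmpty (F →+* ℝ) →
    ∀ (c : AlgebraicClosure F ≃+* AlgebraicClosure F) (σ : F ≃+* F) (hcs : BKOdd.ConjHyp c σ)
    (L : Type) [NormedField L] [NormedAlgebra ℚ_[p] L] [FiniteDimensional ℚ_[p] L] (n : ℕ)
    (V : GF F →* GL (Fin n) L), Continuous V →
    ∀ (S : GL (Fin n) L) (ρ : GF F →* GL (Fin n) (OO p L)),
    (∀ g, toL p L n (ρ g) = S * V g * S⁻¹) → ∀ P₀ : Set ℕ, p ∈ P₀ →
    (∀ (l : ℕ) [Fact l.Prime], l ∉ P₀ → ∀ j : AlgebraicClosure F →+* PadicAlgCl l,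
      ∀ g ∈ Inert F (AlgebraicClosure F) j, ∃ m : ℕ, ¬ p ∣ m ∧ V g ^ m = 1) →
    ∃ U₀ : Subgroup (GF F), U₀.Normal ∧ IsOpen (U₀ : Set (GF F)) ∧
      (∀ g ∈ U₀, PadicInt.toZMod ((cycF p F g : ℤ_[p]ˣ) : ℤ_[p]) = 1) ∧
      (∀ g ∈ U₀, BKOdd.conj c σ hcs.h g ∈ U₀) ∧ TrivR ρ U₀ ∧
      ∀ (l : ℕ) [Fact l.Prime] (j : AlgebraicClosure F →+* PadicAlgCl l), l ∉ P₀ →
        ∀ g ∈ Inert F (AlgebraicClosure F) j, (∃ m : ℕ, ¬ p ∣ m ∧ g ^ m ∈ U₀) ∧
          (g ∈ U₀ → V g = 1)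

/-- Module DESCT (as DESC): the quotient `GU F P U₀`: the cyclotomic character, complex conjugation
and representations. -/
def StDescT : Prop :=
  ∀ (p : ℕ) [Fact p.Prime], p ≠ 2 → ∀ (F : Type) [Field F] [NumberField F],
    Module.finrank ℚ F = 2 → IsEmpty (F →+* ℝ) →
    ∀ (c : AlgebraicClosure F ≃+* AlgebraicClosure F) (σ : F ≃+* F) (hcs : BKOdd.ConjHyp c σ)
    (P : Set ℕ), p ∈ P → ∀ U₀ : Subgroup (GF F), U₀.Normal → IsOpen (U₀ : Set (GF F)) →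
    (∀ g ∈ U₀, BKOdd.conj c σ hcs.h g ∈ U₀) →
    CompactSpace (GU F P U₀) ∧ NonarchimedeanGroup (GU F P U₀) ∧ T2Space (GU F P U₀) ∧
    ∃ (χ : GU F P U₀ →* ℤ_[p]ˣ) (cG : GU F P U₀ →* GU F P U₀),
      (∀ g : GF F, χ (QuotientGroup.mk g) = cycF p F g) ∧ Continuous χ ∧
      (∀ g : GF F, cG (QuotientGroup.mk g) = QuotientGroup.mk (BKOdd.conj c σ hcs.h g)) ∧
      Continuous cG ∧ (∀ g, cG (cG g) = g) ∧ (∀ g, χ (cG g) = χ g) ∧
      (∀ (l : ℕ) [Fact l.Prime] (j : AlgebraicClosure F →+* PadicAlgCl l) (r : GQ l →* GF F),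
        (∀ (t : GQ l) (x : AlgebraicClosure F), j (r t x) = t (j x)) →
        ∀ t : GQ l, cycF p F (r t) = cycL p l t) ∧
      (∀ (L : Type) [NormedField L] (n : ℕ) (V : GF F →* GL (Fin n) L), Continuous V →
        (∀ (l : ℕ) [Fact l.Prime], l ∉ P → ∀ j : AlgebraicClosure F →+* PadicAlgCl l,
          ∀ g ∈ Inert F (AlgebraicClosure F) j, g ∈ U₀ → V g = 1) →
        ∃ VG : GU F P U₀ →* GL (Fin n) L, Continuous VG ∧
        (∀ g : GF F, VG (QuotientGroup.mk g) = V g) ∧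
        ∀ x ∈ BKOdd.Z1 V, (∀ g ∈ RU F P U₀, x g = 0) → ∃ y ∈ BKOdd.Z1 VG,
          ∀ g : GF F, y (QuotientGroup.mk g) = x g)

/-- Module UNRT (as UNR): cocycles which are unramified away from `p`. -/
def StUnrT : Prop :=
  ∀ (p : ℕ) [Fact p.Prime] (F : Type) [Field F] [NumberField F],
    Module.finrank ℚ F = 2 →
    ∀ (c : AlgebraicClosure F ≃+* AlgebraicClosure F) (σ : F ≃+* F) (hcs : BKOdd.ConjHyp c σ)
    (L : Type) [NormedField L] [NormedAlgebra ℚ_[p] L] [FiniteDimensional ℚ_[p] L] (n : ℕ)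
    (V : GF F →* GL (Fin n) L), Continuous V → ∀ (Λ : Pl F), p ∈ Λ.P →
    ∀ U₀ : Subgroup (GF F), U₀.Normal → IsOpen (U₀ : Set (GF F)) →
    (∀ (l : ℕ) [Fact l.Prime], l ∉ Λ.P → ∀ j : AlgebraicClosure F →+* PadicAlgCl l,
      ∀ g ∈ Inert F (AlgebraicClosure F) j, g ∈ U₀ → V g = 1) →
    (∀ i, Λ.l i ≠ p → BKOdd.Z1 (V.comp (Λ.r i)) ≤ BKOdd.B1 (V.comp (Λ.r i)) ∧
      BKOdd.Z1 ((V.comp (BKOdd.conj c σ hcs.h)).comp (Λ.r i)) ≤
        BKOdd.B1 ((V.comp (BKOdd.conj c σ hcs.h)).comp (Λ.r i))) →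
    ∀ x ∈ BKOdd.Z1 V, BKOdd.UnrAway p V x ↔ ∀ g ∈ RU F Λ.P U₀, x g = 0

/-- Module PART (from ARITHT, MAINXT, U0T, DESCT, UNRT, and LINEQ, CRYM, HODM of `Met`; as PARM):
**parity of `H¹_f` for representations with metabolic reduction.** -/
def StParT : Prop :=
  ∀ (p : ℕ) [Fact p.Prime], p ≠ 2 → ∀ (F : Type) [Field F] [NumberField F],
    Module.finrank ℚ F = 2 → IsEmpty (F →+* ℝ) → Splits F p →
    ∀ (c : AlgebraicClosure F ≃+* AlgebraicClosure F) (σ : F ≃+* F) (hcs : BKOdd.ConjHyp c σ)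
    (L : Type) [NormedField L] [NormedAlgebra ℚ_[p] L] [FiniteDimensional ℚ_[p] L] (n : ℕ)
    (V : GF F →* GL (Fin n) L), Continuous V →
    ∀ P₀ : Set ℕ, P₀.Finite → (∀ l ∈ P₀, Splits F l) →
    (∀ (l : ℕ) [Fact l.Prime], l ≠ p → l ∉ P₀ → ∀ j : AlgebraicClosure F →+* PadicAlgCl l,
      ∀ g ∈ Inert F (AlgebraicClosure F) j, ∃ m : ℕ, ¬ p ∣ m ∧ V g ^ m = 1) →
    (∀ (l : ℕ) [Fact l.Prime], l ≠ p → ∀ j : AlgebraicClosure F →+* PadicAlgCl l,
      ∀ v : Fin n → L, (∀ (g : GF F) (t : GQ l), (∀ z, j (g z) = t (j z)) →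
        (V g : Matrix (Fin n) (Fin n) L) *ᵥ v = v) → v = 0) →
    ∀ B : GL (Fin n) L, (B : Matrix (Fin n) (Fin n) L)ᵀ = B →
    IsDual (cycF p F) V (V.comp (BKOdd.conj c σ hcs.h)) (B : Matrix (Fin n) (Fin n) L) →
    ∀ (S : GL (Fin n) L) (ρ : GF F →* GL (Fin n) (OO p L))
      (B₀ : Matrix (Fin n) (Fin n) (OO p L)) (N : Submodule (OO p L) (Fin n → OO p L)),
    Metab V B S ρ B₀ N →
    (∀ j : AlgebraicClosure F →+* PadicAlgCl p, BKOdd.DeRhamAt j V) →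
    (∀ j : AlgebraicClosure F →+* PadicAlgCl p, BKOdd.FrobAt ⊤ j V) →
    FiniteDimensional L (BKOdd.H1f p V) ∧ ∀ j : AlgebraicClosure F →+* PadicAlgCl p,
      Module.finrank L (BKOdd.H1f p V) % 2 = BKOdd.tdim j V % 2

end Arith

/-! ### Lattices -/

section Lat

variable {p : ℕ} [Fact p.Prime] {L : Type} [NormedField L] [NormedAlgebra ℚ_[p] L]
  [FiniteDimensional ℚ_[p] L] {G : Type} [Group G] {n : ℕ}

/-- stable submodules -/
def Stb (ρ : G →* GL (Fin n) (OO p L)) (P : Submodule (OO p L) (Fin n → OO p L)) : Prop :=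
  ∀ g, ∀ x ∈ P, (ρ g : Matrix (Fin n) (Fin n) (OO p L)) *ᵥ x ∈ P

/-- `Q / P` is a simple module of `G` -/
structure Smp (ρ : G →* GL (Fin n) (OO p L)) (P Q : Submodule (OO p L) (Fin n → OO p L)) :
    Prop where
  lt : P < Q
  stab : Stb ρ P
  stab' : Stb ρ Q
  simple : ∀ N : Submodule (OO p L) (Fin n → OO p L), Stb ρ N → P ≤ N → N ≤ Q → N = P ∨ N = Q

/-- `f` is a nondegenerate symmetric bilinear form on `Q / P` with values in the residue field for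
which `Q / P` is conjugate self-dual. -/
structure SymF (ρ : G →* GL (Fin n) (OO p L)) (c : G →* G) (χ : G →* ℤ_[p]ˣ)
    (P Q : Submodule (OO p L) (Fin n → OO p L))
    (f : (Fin n → OO p L) → (Fin n → OO p L) → kk p L) : Prop where
  add : ∀ x ∈ Q, ∀ x' ∈ Q, ∀ y ∈ Q, f (x + x') y = f x y + f x' y
  smul : ∀ a : OO p L, ∀ x ∈ Q, ∀ y ∈ Q, f (a • x) y = IsLocalRing.residue (OO p L) a * f x y
  symm : ∀ x ∈ Q, ∀ y ∈ Q, f x y = f y x
  eqv : ∀ g, ∀ x ∈ Q, ∀ y ∈ Q, f ((ρ g : Matrix (Fin n) (Fin n) (OO p L)) *ᵥ x)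
    ((ρ (c g) : Matrix (Fin n) (Fin n) (OO p L)) *ᵥ y) =
      algebraMap (ZMod p) (kk p L) (PadicInt.toZMod ((χ g : ℤ_[p]ˣ) : ℤ_[p])) * f x y
  ker : ∀ x ∈ Q, x ∈ P ↔ ∀ y ∈ Q, f x y = 0

/-- No simple subquotient of the reduction has a symmetric form. -/
def NoSym (ρ : G →* GL (Fin n) (OO p L)) (c : G →* G) (χ : G →* ℤ_[p]ˣ) : Prop :=
  ∀ P Q : Submodule (OO p L) (Fin n → OO p L), (∀ x : Fin n → OO p L, pi0 p L • x ∈ P) →
    Smp ρ P Q → ∀ f, ¬ SymF ρ c χ P Q f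

end Lat

/-- Module JHT: the simple subquotients of lattices are subquotients of the reduction. -/
def StJhT : Prop :=
  ∀ (p : ℕ) [Fact p.Prime] (L : Type) [NormedField L] [NormedAlgebra ℚ_[p] L]
    [FiniteDimensional ℚ_[p] L] (G : Type) [Group G] (n : ℕ) (ρ : G →* GL (Fin n) (OO p L))
    (c : G →* G) (χ : G →* ℤ_[p]ˣ), NoSym ρ c χ →
    ∀ P Q : Submodule (OO p L) (Fin n → OO p L),
    (∃ N : ℕ, ∀ x : Fin n → OO p L, pi0 p L ^ N • x ∈ P) →
    Smp ρ P Q → ∀ f, ¬ SymF ρ c χ P Q f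

/-- Module LATTT (from JHT; as LATT): a unimodular lattice with metabolic reduction. -/
def StLattT : Prop :=
  ∀ (p : ℕ) [Fact p.Prime], p ≠ 2 → ∀ (L : Type) [NormedField L] [NormedAlgebra ℚ_[p] L]
    [FiniteDimensional ℚ_[p] L] (G : Type) [Group G] (n : ℕ) (V : G →* GL (Fin n) L)
    (A : GL (Fin n) L) (ρ : G →* GL (Fin n) (OO p L)), (∀ g, toL p L n (ρ g) = A * V g * A⁻¹) →
    ∀ (c : G →* G), (∀ g, c (c g) = g) → ∀ (χ : G →* ℤ_[p]ˣ) (B : GL (Fin n) L),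
    (B : Matrix (Fin n) (Fin n) L)ᵀ = B →
    IsDual χ V (V.comp c) (B : Matrix (Fin n) (Fin n) L) → NoSym ρ c χ →
    ∃ (S : GL (Fin n) L) (ρ' : G →* GL (Fin n) (OO p L)) (B₀ : Matrix (Fin n) (Fin n) (OO p L))
      (N : Submodule (OO p L) (Fin n → OO p L)), Metab V B S ρ' B₀ N

/-- the prime `l` is ramified in `F` -/
def Ramd (F : Type) [Field F] [NumberField F] (l : ℕ) : Prop :=
  ∃ v : IsDedekindDomain.HeightOneSpectrum (𝓞 F), (l : 𝓞 F) ∈ v.asIdeal ^ 2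

/-- Module RAMT (as RAM): elements of the inertia groups of `ℚ` at the ramified primes which are not
the identity on `F`. -/
def StRamT : Prop :=
  ∀ (F : Type) [Field F] [NumberField F], Module.finrank ℚ F = 2 →
    ∀ (l : ℕ) [Fact l.Prime], Ramd F l →
    ∃ (j : AlgebraicClosure F →+* PadicAlgCl l) (t : GQ l)
      (τ : AlgebraicClosure F ≃+* AlgebraicClosure F),
      (∀ z, j (τ z) = t (j z)) ∧
      (∃ a : F, τ (algebraMap F (AlgebraicClosure F) a) ≠ algebraMap F (AlgebraicClosure F) a) ∧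
      ∀ z, ‖j z‖ ≤ 1 → ‖j (τ z - z)‖ < 1

/-- Module NSDT (from RAMT; as NSD): subquotients of odd dimension have no symmetric form. -/
def StNsdT : Prop :=
  ∀ (p : ℕ) [Fact p.Prime], p ≠ 2 → ∀ (F : Type) [Field F] [NumberField F],
    Module.finrank ℚ F = 2 → IsEmpty (F →+* ℝ) →
    ∀ (c : AlgebraicClosure F ≃+* AlgebraicClosure F) (σ : F ≃+* F) (hcs : BKOdd.ConjHyp c σ)
    (L : Type) [NormedField L] [NormedAlgebra ℚ_[p] L] [FiniteDimensional ℚ_[p] L] (n : ℕ)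
    (V : GF F →* GL (Fin n) L) (A : GL (Fin n) L) (ρ : GF F →* GL (Fin n) (OO p L)),
    (∀ g, toL p L n (ρ g) = A * V g * A⁻¹) →
    ∀ (l : ℕ) [Fact l.Prime], Ramd F l → l ≠ p →
    (∀ (j : AlgebraicClosure F →+* PadicAlgCl l), ∀ g ∈ Inert F (AlgebraicClosure F) j,
      ∃ m : ℕ, Odd m ∧ V g ^ m = 1) →
    ∀ P Q : Submodule (OO p L) (Fin n → OO p L), (∀ x : Fin n → OO p L, pi0 p L • x ∈ P) →
    P ≤ Q → Stb ρ P → Stb ρ Q → ∀ d : ℕ,
    P.toAddSubgroup.relIndex Q.toAddSubgroup = Nat.card (kk p L) ^ d → Odd d →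
    ∀ f, ¬ SymF ρ (BKOdd.conj c σ hcs.h) (cycF p F) P Q f

/-- Module PARH (from PART, LATTT, NSDT): **parity of `H¹_f`, in terms of the simple subquotients of
the reduction.** -/
def StParH : Prop :=
  ∀ (p : ℕ) [Fact p.Prime], p ≠ 2 → ∀ (F : Type) [Field F] [NumberField F],
    Module.finrank ℚ F = 2 → IsEmpty (F →+* ℝ) → Splits F p →
    ∀ (c : AlgebraicClosure F ≃+* AlgebraicClosure F) (σ : F ≃+* F) (hcs : BKOdd.ConjHyp c σ)
    (L : Type) [NormedField L] [NormedAlgebra ℚ_[p] L] [FiniteDimensional ℚ_[p] L] (n : ℕ)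
    (V : GF F →* GL (Fin n) L), Continuous V →
    ∀ P₀ : Set ℕ, P₀.Finite → (∀ l ∈ P₀, Splits F l) →
    (∀ (l : ℕ) [Fact l.Prime], l ≠ p → l ∉ P₀ → ∀ j : AlgebraicClosure F →+* PadicAlgCl l,
      ∀ g ∈ Inert F (AlgebraicClosure F) j, ∃ m : ℕ, ¬ p ∣ m ∧ V g ^ m = 1) →
    (∀ (l : ℕ) [Fact l.Prime], l ≠ p → ∀ j : AlgebraicClosure F →+* PadicAlgCl l,
      ∀ v : Fin n → L, (∀ (g : GF F) (t : GQ l), (∀ z, j (g z) = t (j z)) →
        (V g : Matrix (Fin n) (Fin n) L) *ᵥ v = v) → v = 0) →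
    ∀ B : GL (Fin n) L, (B : Matrix (Fin n) (Fin n) L)ᵀ = B →
    IsDual (cycF p F) V (V.comp (BKOdd.conj c σ hcs.h)) (B : Matrix (Fin n) (Fin n) L) →
    ∀ (A : GL (Fin n) L) (ρ : GF F →* GL (Fin n) (OO p L)),
    (∀ g, toL p L n (ρ g) = A * V g * A⁻¹) →
    (∀ P Q : Submodule (OO p L) (Fin n → OO p L), (∀ x : Fin n → OO p L, pi0 p L • x ∈ P) →
      Smp ρ P Q → ((∃ (l : ℕ) (_ : Fact l.Prime), Ramd F l ∧ l ≠ p ∧
        ∀ (j : AlgebraicClosure F →+* PadicAlgCl l), ∀ g ∈ Inert F (AlgebraicClosure F) j,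
          ∃ m : ℕ, Odd m ∧ V g ^ m = 1) → ∃ d : ℕ, Even d ∧
        P.toAddSubgroup.relIndex Q.toAddSubgroup = Nat.card (kk p L) ^ d) →
      ∀ f, ¬ SymF ρ (BKOdd.conj c σ hcs.h) (cycF p F) P Q f) →
    (∀ j : AlgebraicClosure F →+* PadicAlgCl p, BKOdd.DeRhamAt j V) →
    (∀ j : AlgebraicClosure F →+* PadicAlgCl p, BKOdd.FrobAt ⊤ j V) →
    FiniteDimensional L (BKOdd.H1f p V) ∧ ∀ j : AlgebraicClosure F →+* PadicAlgCl p,
      Module.finrank L (BKOdd.H1f p V) % 2 = BKOdd.tdim j V % 2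

/-! ### Direct sums -/

section Sum

variable {R : Type} [CommRing R] {n n' : ℕ}

/-- block diagonal matrices -/
def blk (M : Matrix (Fin n) (Fin n) R) (M' : Matrix (Fin n') (Fin n') R) :
    Matrix (Fin (n + n')) (Fin (n + n')) R :=
  (Matrix.fromBlocks M 0 0 M').submatrix finSumFinEquiv.symm finSumFinEquiv.symm

theorem blk_mul (M N : Matrix (Fin n) (Fin n) R) (M' N' : Matrix (Fin n') (Fin n') R) :
    blk M M' * blk N N' = blk (M * N) (M' * N') := by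
  unfold blk
  rw [Matrix.submatrix_mul_equiv, Matrix.fromBlocks_multiply]
  simp

theorem blk_one : blk (1 : Matrix (Fin n) (Fin n) R) (1 : Matrix (Fin n') (Fin n') R) = 1 := by
  unfold blk
  rw [Matrix.fromBlocks_one, Matrix.submatrix_one_equiv]

/-- block diagonal invertible matrices -/
def blkG (M : GL (Fin n) R) (M' : GL (Fin n') R) : GL (Fin (n + n')) R where
  val := blk (M : Matrix (Fin n) (Fin n) R) (M' : Matrix (Fin n') (Fin n') R)
  inv := blk ((M⁻¹ : GL (Fin n) R) : Matrix (Fin n) (Fin n) R)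
    ((M'⁻¹ : GL (Fin n') R) : Matrix (Fin n') (Fin n') R)
  val_inv := by
    rw [blk_mul, ← Units.val_mul, ← Units.val_mul, mul_inv_cancel, mul_inv_cancel]
    exact blk_one
  inv_val := by
    rw [blk_mul, ← Units.val_mul, ← Units.val_mul, inv_mul_cancel, inv_mul_cancel]
    exact blk_one

/-- the direct sum of two representations -/
def dsum {G : Type} [Group G] (V : G →* GL (Fin n) R) (V' : G →* GL (Fin n') R) :
    G →* GL (Fin (n + n')) R where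
  toFun g := blkG (V g) (V' g)
  map_one' := by
    apply Units.ext
    change blk _ _ = _
    rw [map_one, map_one]
    exact blk_one
  map_mul' g h := by
    apply Units.ext
    change blk _ _ = blk _ _ * blk _ _
    rw [blk_mul, map_mul, map_mul]
    rfl

end Sum

/-- Module SUMH: the Selmer group of a direct sum. -/
def StSumH : Prop :=
  ∀ (p : ℕ) [Fact p.Prime] (F : Type) [Field F] [NumberField F] (L : Type) [NormedField L]
    [NormedAlgebra ℚ_[p] L] [FiniteDimensional ℚ_[p] L] (n n' : ℕ) (V : GF F →* GL (Fin n) L)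
    (V' : GF F →* GL (Fin n') L), Continuous V → Continuous V' →
    Continuous (dsum V V') ∧
    (FiniteDimensional L (BKOdd.H1f p (dsum V V')) →
      FiniteDimensional L (BKOdd.H1f p V) ∧ FiniteDimensional L (BKOdd.H1f p V') ∧
      Module.finrank L (BKOdd.H1f p (dsum V V')) =
        Module.finrank L (BKOdd.H1f p V) + Module.finrank L (BKOdd.H1f p V'))

/-- Module SUMT: the Hodge–Tate data of a direct sum. -/
def StSumT : Prop :=
  ∀ (p : ℕ) [Fact p.Prime] (F : Type) [Field F] [NumberField F], Module.finrank ℚ F = 2 →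
    Splits F p → ∀ (L : Type) [NormedField L]
    [NormedAlgebra ℚ_[p] L] [FiniteDimensional ℚ_[p] L] (n n' : ℕ) (V : GF F →* GL (Fin n) L)
    (V' : GF F →* GL (Fin n') L) (j : AlgebraicClosure F →+* PadicAlgCl p),
    (BKOdd.DeRhamAt j V → BKOdd.DeRhamAt j V' → BKOdd.DeRhamAt j (dsum V V')) ∧
    (BKOdd.FrobAt ⊤ j V → BKOdd.FrobAt ⊤ j V' → BKOdd.FrobAt ⊤ j (dsum V V')) ∧
    (BKOdd.DeRhamAt j V → BKOdd.DeRhamAt j V' →
      BKOdd.tdim j (dsum V V') = BKOdd.tdim j V + BKOdd.tdim j V')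

/-- Module SUMM: the lattice and the form of a direct sum. `N` is a stable Lagrangian submodule of
the reduction of the lattice given by `S`, `S'` with the form `B₀ - B₀'`. -/
def StSumM : Prop :=
  ∀ (p : ℕ) [Fact p.Prime] (L : Type) [NormedField L] [NormedAlgebra ℚ_[p] L]
    [FiniteDimensional ℚ_[p] L] (G : Type) [Group G] (n n' : ℕ) (V : G →* GL (Fin n) L)
    (V' : G →* GL (Fin n') L) (B S : GL (Fin n) L) (B' S' : GL (Fin n') L)
    (ρ : G →* GL (Fin n) (OO p L)) (ρ' : G →* GL (Fin n') (OO p L))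
    (B₀ : Matrix (Fin n) (Fin n) (OO p L)) (B₀' : Matrix (Fin n') (Fin n') (OO p L))
    (N : Submodule (OO p L) ((Fin n → OO p L) × (Fin n' → OO p L))),
    (∀ g, toL p L n (ρ g) = S * V g * S⁻¹) → (∀ g, toL p L n' (ρ' g) = S' * V' g * S'⁻¹) →
    B₀ᵀ = B₀ → B₀'ᵀ = B₀' → IsUnit B₀.det → IsUnit B₀'.det →
    (S : Matrix (Fin n) (Fin n) L)ᵀ * B₀.map (OO p L).subtype *
      (S : Matrix (Fin n) (Fin n) L) = (B : Matrix (Fin n) (Fin n) L) →
    (S' : Matrix (Fin n') (Fin n') L)ᵀ * B₀'.map (OO p L).subtype *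
      (S' : Matrix (Fin n') (Fin n') L) = (B' : Matrix (Fin n') (Fin n') L) →
    (∀ x : Fin n → OO p L, ∀ x' : Fin n' → OO p L, pi0 p L • (x, x') ∈ N) →
    (∀ g, ∀ x ∈ N, ((ρ g : Matrix (Fin n) (Fin n) (OO p L)) *ᵥ x.1,
      (ρ' g : Matrix (Fin n') (Fin n') (OO p L)) *ᵥ x.2) ∈ N) →
    (∀ y, y ∈ N ↔ ∀ x ∈ N, pi0 p L ∣ x.1 ⬝ᵥ (B₀ *ᵥ y.1) - x.2 ⬝ᵥ (B₀' *ᵥ y.2)) →
    ∃ N₁ : Submodule (OO p L) (Fin (n + n') → OO p L),
      Metab (dsum V V') (blkG B (-B')) (blkG S S') (dsum ρ ρ') (blk B₀ (-B₀')) N₁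

/-- The hypotheses on a representation of the Galois group of `F`: conjugate self-dual with a
symmetric form, de Rham at the places above `p`, without invariants at all finite places; the
inertia groups outside the finite set `P₀` of primes which split act through finite groups of order
prime to `p`. -/
structure Hyp (p : ℕ) [Fact p.Prime] {F : Type} [Field F]
    (c : AlgebraicClosure F ≃+* AlgebraicClosure F) {σ : F ≃+* F} (hcs : BKOdd.ConjHyp c σ)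
    {L : Type} [NormedField L] [NormedAlgebra ℚ_[p] L] {n : ℕ} (V : GF F →* GL (Fin n) L)
    (B : GL (Fin n) L) : Prop where
  cont : Continuous V
  ram : ∃ P₀ : Set ℕ, P₀.Finite ∧ (∀ l ∈ P₀, Splits F l) ∧
    ∀ (l : ℕ) [Fact l.Prime], l ≠ p → l ∉ P₀ → ∀ j : AlgebraicClosure F →+* PadicAlgCl l,
      ∀ g ∈ Inert F (AlgebraicClosure F) j, ∃ m : ℕ, ¬ p ∣ m ∧ V g ^ m = 1
  inv : ∀ (l : ℕ) [Fact l.Prime], l ≠ p → ∀ j : AlgebraicClosure F →+* PadicAlgCl l,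
    ∀ v : Fin n → L, (∀ (g : GF F) (t : GQ l), (∀ z, j (g z) = t (j z)) →
      (V g : Matrix (Fin n) (Fin n) L) *ᵥ v = v) → v = 0
  symm : (B : Matrix (Fin n) (Fin n) L)ᵀ = B
  dual : IsDual (cycF p F) V (V.comp (BKOdd.conj c σ hcs.h)) (B : Matrix (Fin n) (Fin n) L)
  dR : ∀ j : AlgebraicClosure F →+* PadicAlgCl p, BKOdd.DeRhamAt j V
  frob : ∀ j : AlgebraicClosure F →+* PadicAlgCl p, BKOdd.FrobAt ⊤ j V

/-- Module PARW (from PART, SUMH, SUMT, SUMM): **the parity of `H¹_f` depends only on the class of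
the reduction in the Witt group.** -/
def StParW : Prop :=
  ∀ (p : ℕ) [Fact p.Prime], p ≠ 2 → ∀ (F : Type) [Field F] [NumberField F],
    Module.finrank ℚ F = 2 → IsEmpty (F →+* ℝ) → Splits F p →
    ∀ (c : AlgebraicClosure F ≃+* AlgebraicClosure F) (σ : F ≃+* F) (hcs : BKOdd.ConjHyp c σ)
    (L : Type) [NormedField L] [NormedAlgebra ℚ_[p] L] [FiniteDimensional ℚ_[p] L] (n n' : ℕ)
    (V : GF F →* GL (Fin n) L) (V' : GF F →* GL (Fin n') L) (B S : GL (Fin n) L)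
    (B' S' : GL (Fin n') L), Hyp p c hcs V B → Hyp p c hcs V' B' →
    ∀ (ρ : GF F →* GL (Fin n) (OO p L)) (ρ' : GF F →* GL (Fin n') (OO p L))
    (B₀ : Matrix (Fin n) (Fin n) (OO p L)) (B₀' : Matrix (Fin n') (Fin n') (OO p L))
    (N : Submodule (OO p L) ((Fin n → OO p L) × (Fin n' → OO p L))),
    (∀ g, toL p L n (ρ g) = S * V g * S⁻¹) → (∀ g, toL p L n' (ρ' g) = S' * V' g * S'⁻¹) →
    IsUnit B₀.det → IsUnit B₀'.det →
    (S : Matrix (Fin n) (Fin n) L)ᵀ * B₀.map (OO p L).subtype *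
      (S : Matrix (Fin n) (Fin n) L) = (B : Matrix (Fin n) (Fin n) L) →
    (S' : Matrix (Fin n') (Fin n') L)ᵀ * B₀'.map (OO p L).subtype *
      (S' : Matrix (Fin n') (Fin n') L) = (B' : Matrix (Fin n') (Fin n') L) →
    (∀ x : Fin n → OO p L, ∀ x' : Fin n' → OO p L, pi0 p L • (x, x') ∈ N) →
    (∀ g, ∀ x ∈ N, ((ρ g : Matrix (Fin n) (Fin n) (OO p L)) *ᵥ x.1,
      (ρ' g : Matrix (Fin n') (Fin n') (OO p L)) *ᵥ x.2) ∈ N) →
    (∀ y, y ∈ N ↔ ∀ x ∈ N, pi0 p L ∣ x.1 ⬝ᵥ (B₀ *ᵥ y.1) - x.2 ⬝ᵥ (B₀' *ᵥ y.2)) →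
    FiniteDimensional L (BKOdd.H1f p V) ∧ FiniteDimensional L (BKOdd.H1f p V') ∧
    ∀ j : AlgebraicClosure F →+* PadicAlgCl p,
      (Module.finrank L (BKOdd.H1f p V) + BKOdd.tdim j V) % 2 =
        (Module.finrank L (BKOdd.H1f p V') + BKOdd.tdim j V') % 2

end BKT
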