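import Pool.Agent.Lib.MP_7c08ba_nt.Met.FPARM
import Pool.Agent.Lib.MP_7c08ba_nt.T1.StF

set_option autoImplicit false

/-!
Parity for general residual representations, part F, module PART: parity of `H¹_f` for
representations with metabolic reduction.
-/

noncomputable section

namespace BKT

open Matrix BKGen BKMet MP_7c08ba.Crys
open BKV (RU GU)
open BKMet.FPARM (nonarch symm_eq conj_eq_iff swapPl sw loc_swap)

namespace FPART

/-! ### The global axioms for permuted places -/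

section Perm

variable {p : ℕ} [Fact p.Prime] {S : Type} [Fintype S] {G : Type} [Group G]
  [TopologicalSpace G] {D : S → Type} [∀ w, Group (D w)] [∀ w, TopologicalSpace (D w)]

theorem globI_ext {r r' : ∀ w, D w →* G} {χ : G →* ℤ_[p]ˣ} {U : Subgroup G}
    (h : ∀ w, r w = r' w) (H : GlobI p r χ U) : GlobI p r' χ U := by
  have e : r = r' := funext h
  rw [← e]
  exact H

theorem globI_perm (e : S ≃ S) {r : ∀ w, D w →* G} {χ : G →* ℤ_[p]ˣ} {U : Subgroup G}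
    (H : GlobI p r χ U) : GlobI p (D := fun w => D (e w)) (fun w => r (e w)) χ U where
  two := by
    intro A A' hA k _ _ _ ψ hψ z hz hw
    refine H.two A A' hA k ψ hψ z hz fun w => ?_
    have h1 := hw (e.symm w)
    have key : ∀ w', w' = w → pb2 (r w') z ∈ BKND.B2 ((indM A (kch ψ)).comp (r w')) →
        pb2 (r w) z ∈ BKND.B2 ((indM A (kch ψ)).comp (r w)) := by
      rintro w' rfl h
      exact h
    exact key _ (e.apply_symm_apply w) h1
  one := by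
    intro A A' hA k _ _ _ ψ hψ f hf hw
    refine H.one A A' hA k ψ hψ f hf fun w => ?_
    have h1 := hw (e.symm w)
    have key : ∀ w', w' = w → pb1 (r w') f ∈ BKND.B1 ((indM A (kch ψ)).comp (r w')) →
        pb1 (r w) f ∈ BKND.B1 ((indM A (kch ψ)).comp (r w)) := by
      rintro w' rfl h
      exact h
    exact key _ (e.apply_symm_apply w) h1
  card := by
    intro A A' hA k _ _ _ ψ ψ' hψ hψ' hrel
    rw [H.card A A' hA k ψ ψ' hψ hψ' hrel]
    congr 1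
    exact (Equiv.prod_comp e (fun w => Nat.card (BKND.H0 ((indM A (kch ψ')).comp (r w))))).symm

end Perm

/-! ### The conjugate places -/

section Swap

variable {F : Type} [Field F] (c : AlgebraicClosure F ≃+* AlgebraicClosure F) (σ : F ≃+* F)
  (hcs : BKOdd.ConjHyp c σ) {p : ℕ} [Fact p.Prime]

theorem arith_swap (Λ : Pl F) {U₀ : Subgroup (GF F)} {χ : GU F Λ.P U₀ →* ℤ_[p]ˣ}
    {cG : GU F Λ.P U₀ →* GU F Λ.P U₀} {inv : ∀ i, (GQ (Λ.l i) → GQ (Λ.l i) → QZ p) →+ QZ p}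
    (hcG : ∀ g : GF F, cG (QuotientGroup.mk g) = QuotientGroup.mk (BKOdd.conj c σ hcs.h g))
    (H : ArithT p Λ U₀ χ cG inv) : ArithT p (swapPl c σ hcs Λ) U₀ χ cG inv where
  loc := H.loc
  glob := globI_ext (loc_swap c σ hcs Λ (QuotientGroup.mk' (RU F Λ.P U₀)) cG hcG)
    (globI_perm (sw Λ.ι) H.glob)
  recip := by
    intro z hz
    have h1 := H.recip z hz
    have e1 : ∀ i, (swapPl c σ hcs Λ).loc (QuotientGroup.mk' (RU F Λ.P U₀)) cG (i, false) =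
        Λ.loc (QuotientGroup.mk' (RU F Λ.P U₀)) cG (i, true) := fun i =>
      (loc_swap c σ hcs Λ (QuotientGroup.mk' (RU F Λ.P U₀)) cG hcG (i, false)).symm
    have e2 : ∀ i, (swapPl c σ hcs Λ).loc (QuotientGroup.mk' (RU F Λ.P U₀)) cG (i, true) =
        Λ.loc (QuotientGroup.mk' (RU F Λ.P U₀)) cG (i, false) := fun i =>
      (loc_swap c σ hcs Λ (QuotientGroup.mk' (RU F Λ.P U₀)) cG hcG (i, true)).symm
    rw [← neg_eq_zero, ← Finset.sum_neg_distrib, ← h1]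
    refine Finset.sum_congr rfl fun i _ => ?_
    rw [neg_sub]
    exact congrArg₂ (fun a b => inv i (pb2 (D := GQ (Λ.l i)) a z) - inv i (pb2 b z))
      (congrArg DFunLike.coe (e2 i)) (congrArg DFunLike.coe (e1 i))

end Swap

/-! ### The situation -/

section Sit

variable {p : ℕ} [Fact p.Prime] {F : Type} [Field F] {Λ : Pl F} {U₀ : Subgroup (GF F)}
  {χ : GU F Λ.P U₀ →* ℤ_[p]ˣ} {cG : GU F Λ.P U₀ →* GU F Λ.P U₀}
  {inv : ∀ i, (GQ (Λ.l i) → GQ (Λ.l i) → QZ p) →+ QZ p}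

/-- the maps to the quotient -/
abbrev rU (Λ : Pl F) (U₀ : Subgroup (GF F)) (i : Λ.ι) : GQ (Λ.l i) →* GU F Λ.P U₀ :=
  (QuotientGroup.mk' (RU F Λ.P U₀)).comp (Λ.r i)

theorem sit_of (H : ArithT p Λ U₀ χ cG inv) (hn : U₀.Normal) (hU : IsOpen (U₀ : Set (GF F)))
    (hfix : ∀ g ∈ U₀, PadicInt.toZMod ((χ (QuotientGroup.mk g) : ℤ_[p]ˣ) : ℤ_[p]) = 1)
    (hχ : Continuous χ)
    (hcG : Continuous cG) (hcc : ∀ g, cG (cG g) = g) (hχc : ∀ g, χ (cG g) = χ g)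
    (hloc : ∀ i, χ.comp (rU Λ U₀ i) = cycL p (Λ.l i)) (hp : p ∈ Λ.P) :
    SitG p (rU Λ U₀) cG χ inv (fun i => if Λ.l i = p then 1 else 0)
      (U₀.map (QuotientGroup.mk' (RU F Λ.P U₀))) where
  cont_r := fun i => continuous_quotient_mk'.comp (Λ.cont i)
  cont_c := hcG
  inv_c := hcc
  cont_χ := hχ
  χ_c := hχc
  normal := hn.map _ (QuotientGroup.mk'_surjective _)
  open' := QuotientGroup.isOpenMap_coe _ hU
  fix := by
    rintro _ ⟨g, hg, rfl⟩
    exact hfix g hg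
  loc := fun i => by
    rw [hloc i]
    exact H.loc i
  glob := by
    refine globI_ext (fun w => ?_) H.glob
    obtain ⟨i, b⟩ := w
    cases b
    · rfl
    · rfl
  recip := H.recip
  sum := by
    obtain ⟨i₀, hi₀⟩ := hp
    rw [Finset.sum_eq_single i₀]
    · rw [if_pos hi₀]
    · intro i _ hi
      rw [if_neg]
      intro h
      exact hi (Λ.inj (h.trans hi₀.symm))
    · intro h
      exact absurd (Finset.mem_univ _) h

end Sit

/-! ### The lattice -/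

section Lattice

variable {p : ℕ} [Fact p.Prime] {L : Type} [NormedField L] [NormedAlgebra ℚ_[p] L]

theorem toL_inj (n : ℕ) : Function.Injective (toL p L n) := by
  intro a b h
  apply Units.ext
  ext i j
  exact congrArg (fun M : GL (Fin n) L => (M : Matrix (Fin n) (Fin n) L) i j) h

variable [FiniteDimensional ℚ_[p] L] {n : ℕ}

/-- The lattice of the quotient. -/
theorem metab_quot {F : Type} [Field F] {P : Set ℕ} {U₀ : Subgroup (GF F)}
    {V : GF F →* GL (Fin n) L} {VG : GU F P U₀ →* GL (Fin n) L}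
    (hVG : ∀ g : GF F, VG (QuotientGroup.mk g) = V g) {B S : GL (Fin n) L}
    {ρ : GF F →* GL (Fin n) (OO p L)} {B₀ : Matrix (Fin n) (Fin n) (OO p L)}
    {N : Submodule (OO p L) (Fin n → OO p L)} (hM : Metab V B S ρ B₀ N) (hT : TrivR ρ U₀) :
    ∃ ρG : GU F P U₀ →* GL (Fin n) (OO p L), Metab VG B S ρG B₀ N ∧
      TrivR ρG (U₀.map (QuotientGroup.mk' (RU F P U₀))) := by
  have hker : ∀ g ∈ RU F P U₀, ρ g = 1 := by
    intro g hg
    apply toL_inj n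
    have h1 : (QuotientGroup.mk g : GU F P U₀) = 1 := (QuotientGroup.eq_one_iff g).mpr hg
    rw [hM.int, ← hVG, h1, map_one, map_one, mul_one, mul_inv_cancel]
  refine ⟨QuotientGroup.lift (RU F P U₀) ρ hker, ⟨?_, hM.symm, hM.det, hM.form, hM.sub, ?_,
    hM.lagr⟩, ?_⟩
  · intro a
    obtain ⟨g, rfl⟩ := QuotientGroup.mk_surjective a
    rw [hVG]
    exact hM.int g
  · intro a
    obtain ⟨g, rfl⟩ := QuotientGroup.mk_surjective a
    exact hM.stab g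
  · rintro _ ⟨g, hg, rfl⟩
    exact hT g hg

end Lattice

/-! ### Cocycles of the quotient -/

section Infl

variable {F : Type} [Field F] {P : Set ℕ} {U₀ : Subgroup (GF F)} {L : Type} [NormedField L]
  {n : ℕ}

theorem infl_mem_Z1 {V : GF F →* GL (Fin n) L} {VG : GU F P U₀ →* GL (Fin n) L}
    (hVG : ∀ g : GF F, VG (QuotientGroup.mk g) = V g) (x : GU F P U₀ → Fin n → L) :
    (fun g : GF F => x (QuotientGroup.mk g)) ∈ BKOdd.Z1 V ↔ x ∈ BKOdd.Z1 VG := by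
  constructor
  · rintro ⟨h1, h2⟩
    refine ⟨?_, fun a b => ?_⟩
    · exact (QuotientGroup.isOpenQuotientMap_mk.isQuotientMap.continuous_iff).mpr h1
    · obtain ⟨g, rfl⟩ := QuotientGroup.mk_surjective a
      obtain ⟨h, rfl⟩ := QuotientGroup.mk_surjective b
      have h3 := h2 g h
      rw [← hVG] at h3
      exact h3
  · rintro ⟨h1, h2⟩
    refine ⟨h1.comp continuous_quotient_mk', fun g h => ?_⟩
    have h3 := h2 (QuotientGroup.mk g) (QuotientGroup.mk h)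
    rw [hVG] at h3
    exact h3

end Infl

/-! ### The theorem at one place -/

section Core

theorem core (h2 : StMainXT) (h5 : StUnrT) (h6 : StLineQ) (h7 : StCrysM) (h8 : StHodM)
    {p : ℕ} [Fact p.Prime] (hp : p ≠ 2) {F : Type} [Field F] [NumberField F]
    (hF : Module.finrank ℚ F = 2) (c : AlgebraicClosure F ≃+* AlgebraicClosure F) (σ : F ≃+* F)
    (hcs : BKOdd.ConjHyp c σ) {L : Type} [NormedField L] [NormedAlgebra ℚ_[p] L]
    [FiniteDimensional ℚ_[p] L] {n : ℕ} {V : GF F →* GL (Fin n) L} (hV : Continuous V)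
    {B : GL (Fin n) L}
    (hinv : ∀ (l : ℕ) [Fact l.Prime], l ≠ p → ∀ j : AlgebraicClosure F →+* PadicAlgCl l,
      ∀ v : Fin n → L, (∀ (g : GF F) (t : GQ l), (∀ z, j (g z) = t (j z)) →
        (V g : Matrix (Fin n) (Fin n) L) *ᵥ v = v) → v = 0)
    (hdual : IsDual (cycF p F) V (V.comp (BKOdd.conj c σ hcs.h))
      (B : Matrix (Fin n) (Fin n) L))
    (hDR : ∀ j : AlgebraicClosure F →+* PadicAlgCl p, BKOdd.DeRhamAt j V)
    (hFr : ∀ j : AlgebraicClosure F →+* PadicAlgCl p, BKOdd.FrobAt ⊤ j V)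
    (Λ : Pl F) {U₀ : Subgroup (GF F)} (hn : U₀.Normal) (hU : IsOpen (U₀ : Set (GF F)))
    (hunr : ∀ (l : ℕ) [Fact l.Prime], l ∉ Λ.P →
      ∀ j : AlgebraicClosure F →+* PadicAlgCl l,
      ∀ g ∈ Inert F (AlgebraicClosure F) j, g ∈ U₀ → V g = 1)
    (i₀ : Λ.ι) (hi₀ : Λ.l i₀ = p) (j₀ : AlgebraicClosure F →+* PadicAlgCl p)
    (hj₀ : HEq (Λ.j i₀) j₀) (hne : ∃ i, i ≠ i₀)
    [CompactSpace (GU F Λ.P U₀)] [NonarchimedeanGroup (GU F Λ.P U₀)]
    {χ : GU F Λ.P U₀ →* ℤ_[p]ˣ} {cG : GU F Λ.P U₀ →* GU F Λ.P U₀}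
    {inv : ∀ i, (GQ (Λ.l i) → GQ (Λ.l i) → QZ p) →+ QZ p}
    (H : ArithT p Λ U₀ χ cG inv)
    (hfix : ∀ g ∈ U₀, PadicInt.toZMod ((χ (QuotientGroup.mk g) : ℤ_[p]ˣ) : ℤ_[p]) = 1)
    (hχ : Continuous χ)
    (hcG : Continuous cG) (hcc : ∀ g, cG (cG g) = g) (hχc : ∀ g, χ (cG g) = χ g)
    (hcj : ∀ g : GF F, cG (QuotientGroup.mk g) = QuotientGroup.mk (BKOdd.conj c σ hcs.h g))
    (hloc : ∀ i, χ.comp (rU Λ U₀ i) = cycL p (Λ.l i))
    {VG : GU F Λ.P U₀ →* GL (Fin n) L} (hVG : ∀ g : GF F, VG (QuotientGroup.mk g) = V g)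
    (hpol : PolT VG cG χ B (U₀.map (QuotientGroup.mk' (RU F Λ.P U₀))))
    (hdesc : ∀ x ∈ BKOdd.Z1 V, (∀ g ∈ RU F Λ.P U₀, x g = 0) → ∃ y ∈ BKOdd.Z1 VG,
      ∀ g : GF F, y (QuotientGroup.mk g) = x g) :
    FiniteDimensional L (BKOdd.H1f p V) ∧
      Module.finrank L (BKOdd.H1f p V) % 2 = BKOdd.tdim j₀ V % 2 := by
  subst hi₀
  obtain rfl := eq_of_heq hj₀
  have hsit := sit_of H hn hU hfix hχ hcG hcc hχc hloc ⟨i₀, rfl⟩
  have hna : ∀ i, NonarchimedeanGroup (GQ (Λ.l i)) := fun i => nonarch _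
  have hcp : ∀ i, CompactSpace (GQ (Λ.l i)) := fun i => inferInstance
  -- the place above `p`
  obtain ⟨hN1, hN2, s, s', hHP, ht, -⟩ := h8 (Λ.l i₀) F hF c σ hcs L n V hV (Λ.j i₀) (Λ.r i₀)
    (Λ.cont i₀) (Λ.spec i₀) B hdual (hDR _) (hFr _) (hFr _)
  have hVr : ∀ i, VG.comp (rU Λ U₀ i) = V.comp (Λ.r i) := fun i =>
    MonoidHom.ext fun t => hVG (Λ.r i t)
  have hVcr : ∀ i, (VG.comp cG).comp (rU Λ U₀ i) =
      (V.comp (BKOdd.conj c σ hcs.h)).comp (Λ.r i) := fun i => MonoidHom.ext fun t => by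
    change VG (cG (QuotientGroup.mk (Λ.r i t))) = V (BKOdd.conj c σ hcs.h (Λ.r i t))
    rw [hcj, hVG]
  have hDr : (dualC VG cG B).comp (rU Λ U₀ i₀) =
      (dualC V (BKOdd.conj c σ hcs.h) B).comp (Λ.r i₀) := MonoidHom.ext fun t => by
    change MulAut.conj B (VG (cG (QuotientGroup.mk (Λ.r i₀ t)))) =
      MulAut.conj B (V (BKOdd.conj c σ hcs.h (Λ.r i₀ t)))
    rw [hcj, hVG]
  -- no invariants
  have hNI : ∀ i, NoInv (VG.comp (rU Λ U₀ i)) := by
    intro i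
    rw [hVr i]
    by_cases hi : i = i₀
    · rw [hi]
      exact hN1
    · have hl : Λ.l i ≠ Λ.l i₀ := fun h => hi (Λ.inj h)
      intro v hv
      refine hinv (Λ.l i) hl (Λ.j i) v fun g t hgt => ?_
      have h1 : g = Λ.r i t := by
        ext z
        apply (Λ.j i).injective
        rw [hgt, Λ.spec]
      rw [h1]
      exact hv t
  have hNI' : ∀ i, NoInv ((VG.comp cG).comp (rU Λ U₀ i)) := by
    intro i
    rw [hVcr i]
    by_cases hi : i = i₀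
    · rw [hi]
      exact hN2
    · have hl : Λ.l i ≠ Λ.l i₀ := fun h => hi (Λ.inj h)
      intro v hv
      refine hinv (Λ.l i) hl ((Λ.j i).comp (c : AlgebraicClosure F →+* AlgebraicClosure F)) v
        fun g t hgt => ?_
      have h1 : g = BKOdd.conj c σ hcs.h (Λ.r i t) := by
        refine conj_eq_iff c σ hcs (Λ.r i t) g fun z => ?_
        apply c.injective
        apply (Λ.j i).injective
        have h2 := hgt (c z)
        change Λ.j i (c (g (c z))) = t (Λ.j i (c (c z))) at h2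
        rw [h2, hcs.hc, hcs.hc, Λ.spec]
      rw [h1]
      exact hv t
  -- the parity theorem
  have hHP' : BKOdd.HodgePair (BKOdd.chL (χ.comp (rU Λ U₀ i₀)) L)
      (Zf (MonoidHom.id (GQ (Λ.l i₀))))
      (VG.comp (rU Λ U₀ i₀)) ((dualC VG cG B).comp (rU Λ U₀ i₀)) s s' := by
    rw [hloc i₀, hVr i₀, hDr]
    exact hHP
  have hline : LineAx (Λ.l i₀) (χ.comp (rU Λ U₀ i₀)) := by
    rw [hloc i₀]
    exact h6 (Λ.l i₀) hp
  obtain ⟨hfd, hss, hfd1, hfd2, hs, hs', htriv, hW⟩ := h2 (Λ.l i₀) hp L Λ.ι (GU F Λ.P U₀)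
    (fun i => GQ (Λ.l i)) (rU Λ U₀) cG χ inv (fun i => if Λ.l i = Λ.l i₀ then 1 else 0) _ hsit
    n VG B hpol hNI hNI' i₀ (if_pos rfl) hne hline (Zf (MonoidHom.id (GQ (Λ.l i₀)))) s s' hHP'
  have htd : BKOdd.tdim (Λ.j i₀) V = s := by
    rw [hVr i₀] at hfd1 hs
    exact ht hfd1 hs
  -- the conditions
  have hur := h5 (Λ.l i₀) F hF c σ hcs L n V hV Λ ⟨i₀, rfl⟩ U₀ hn hU hunr (by
    intro i hi
    have h1 := htriv i (fun h => hi (by rw [h]))
    rw [hVr i, hVcr i] at h1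
    exact h1)
  have hcr := h7 (Λ.l i₀) F hF c σ hcs L n V hV (Λ.j i₀) (Λ.r i₀) (Λ.cont i₀) (Λ.spec i₀) B
  let infl : (GU F Λ.P U₀ → Fin n → L) →ₗ[L] (GF F → Fin n → L) :=
    LinearMap.funLeft L (Fin n → L) (QuotientGroup.mk : GF F → GU F Λ.P U₀)
  have hinj : Function.Injective infl :=
    LinearMap.funLeft_injective_of_surjective _ _ _ QuotientGroup.mk_surjective
  have hinfl : ∀ x : GU F Λ.P U₀ → Fin n → L, infl x = fun g : GF F => x (QuotientGroup.mk g) :=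
    fun x => rfl
  have hWm : ∀ x : GU F Λ.P U₀ → Fin n → L, x ∈ (BKOdd.Z1f (Λ.l i₀) V).comap infl ↔
      x ∈ BKOdd.Z1 VG ∧ (fun d => x (rU Λ U₀ i₀ d)) ∈
        Zf (MonoidHom.id (GQ (Λ.l i₀))) (VG.comp (rU Λ U₀ i₀)) ∧
      (fun d => (B : Matrix (Fin n) (Fin n) L) *ᵥ x (cG (rU Λ U₀ i₀ d))) ∈
        Zf (MonoidHom.id (GQ (Λ.l i₀))) ((dualC VG cG B).comp (rU Λ U₀ i₀)) := by
    intro x
    have e1 : (fun d => x (cG (rU Λ U₀ i₀ d))) =
        fun d => infl x (BKOdd.conj c σ hcs.h (Λ.r i₀ d)) := by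
      funext d
      change x (cG (QuotientGroup.mk (Λ.r i₀ d))) =
        x (QuotientGroup.mk (BKOdd.conj c σ hcs.h (Λ.r i₀ d)))
      rw [hcj]
    have e2 : (fun d => (B : Matrix (Fin n) (Fin n) L) *ᵥ x (cG (rU Λ U₀ i₀ d))) =
        fun d => (B : Matrix (Fin n) (Fin n) L) *ᵥ
          infl x (BKOdd.conj c σ hcs.h (Λ.r i₀ d)) := by
      funext d
      rw [congrFun e1 d]
    rw [hVr i₀, hDr, e2]
    constructor
    · rintro ⟨hz, -, hc⟩
      exact ⟨(infl_mem_Z1 hVG x).mp hz, (hcr (infl x) hz).mp hc⟩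
    · rintro ⟨hz, hc⟩
      have hz' : infl x ∈ BKOdd.Z1 V := (infl_mem_Z1 hVG x).mpr hz
      refine ⟨hz', (hur (infl x) hz').mpr fun g hg => ?_, (hcr (infl x) hz').mpr hc⟩
      change x (QuotientGroup.mk g) = 0
      have h1 : (QuotientGroup.mk g : GU F Λ.P U₀) = 1 := (QuotientGroup.eq_one_iff g).mpr hg
      rw [h1]
      have h3 := hz.2 1 1
      rw [mul_one, map_one, Units.val_one, Matrix.one_mulVec] at h3
      exact (left_eq_add.mp h3)
  have hrange : BKOdd.Z1f (Λ.l i₀) V ≤ LinearMap.range infl := by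
    rintro x ⟨hz, hu, -⟩
    obtain ⟨y, -, hy⟩ := hdesc x hz ((hur x hz).mp hu)
    exact ⟨y, funext hy⟩
  have hmap : ((BKOdd.Z1f (Λ.l i₀) V).comap infl).map infl = BKOdd.Z1f (Λ.l i₀) V := by
    rw [Submodule.map_comap_eq, inf_eq_right.mpr hrange]
  have hWle : (BKOdd.Z1f (Λ.l i₀) V).comap infl ≤ BKOdd.Z1 VG := fun x hx => ((hWm x).mp hx).1
  have hWfd : FiniteDimensional L ((BKOdd.Z1f (Λ.l i₀) V).comap infl) :=
    Submodule.finiteDimensional_of_le hWle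
  have e1 := (Submodule.equivMapOfInjective infl hinj
    ((BKOdd.Z1f (Λ.l i₀) V).comap infl)).finrank_eq
  have hZfd : FiniteDimensional L (BKOdd.Z1f (Λ.l i₀) V) := by
    rw [← hmap]
    infer_instance
  rw [hmap] at e1
  have hpar := hW _ hWm
  rw [e1] at hpar
  -- coboundaries
  have hB1 : BKOdd.B1 V ≤ BKOdd.Z1f (Λ.l i₀) V := by
    rintro _ ⟨v, rfl⟩
    have hz : BKOdd.cob V v ∈ BKOdd.Z1 V := BKOdd.B1_le hV ⟨v, rfl⟩
    refine ⟨hz, fun l _ _ j => ⟨v, fun g _ => rfl⟩, (hcr _ hz).mpr ⟨?_, ?_⟩⟩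
    · exact hHP.bz ⟨v, rfl⟩
    · refine hHP.bz' ⟨(B : Matrix (Fin n) (Fin n) L) *ᵥ v, ?_⟩
      funext t
      have h1 : ((dualC V (BKOdd.conj c σ hcs.h) B).comp (Λ.r i₀)) t =
          B * V (BKOdd.conj c σ hcs.h (Λ.r i₀ t)) * B⁻¹ := rfl
      rw [BKOdd.cob_apply, BKOdd.cob_apply, h1, Matrix.mulVec_mulVec, ← Units.val_mul,
        inv_mul_cancel_right, Matrix.mulVec_sub, Matrix.mulVec_mulVec, Units.val_mul]
  have hB1n : Module.finrank L (BKOdd.B1 V) = n := by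
    have h1 := BKOdd.finrank_B1 (ρ := V)
    have h3 : BKOdd.inv V Set.univ = ⊥ := by
      rw [eq_bot_iff]
      intro v hv
      rw [Submodule.mem_bot]
      exact hN1 v fun t => hv _ trivial
    rw [h3, finrank_bot, add_zero] at h1
    exact h1
  have hZle : BKOdd.Z1f (Λ.l i₀) V ≤ BKOdd.Z1 V := fun x hx => hx.1
  have h10 := BKOdd.finrank_cls hV (BKOdd.Z1f (Λ.l i₀) V) hB1 hZle
  have h11 := BKOdd.finite_cls (BKOdd.Z1f (Λ.l i₀) V) hZle
  refine ⟨h11, ?_⟩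
  rw [htd]
  change Module.finrank L (BKOdd.cls V (BKOdd.Z1f (Λ.l i₀) V)) % 2 = s % 2
  rw [hB1n] at h10
  omega

end Core

end FPART

open FPART in
/-- **Module PART**: parity of `H¹_f` for representations with metabolic reduction. -/
theorem stParT (h1 : StArithT) (h2 : StMainXT) (h3 : StU0T) (h4 : StDescT) (h5 : StUnrT)
    (h6 : StLineQ) (h7 : StCrysM) (h8 : StHodM) : StParT := by
  intro p _ hp F _ _ hF hreal hsp c σ hcs L _ _ _ n V hV P₀ hP₀f hP₀s hunr hinv B hB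
    hdual S ρ B₀ N hM hDR hFr
  have hpP : p ∈ insert p P₀ := Set.mem_insert _ _
  have hunr1 : ∀ (l : ℕ) [Fact l.Prime], l ∉ insert p P₀ →
      ∀ j : AlgebraicClosure F →+* PadicAlgCl l,
      ∀ g ∈ Inert F (AlgebraicClosure F) j, ∃ m : ℕ, ¬ p ∣ m ∧ V g ^ m = 1 := by
    intro l _ hl j g hg
    rw [Set.mem_insert_iff, not_or] at hl
    exact hunr l hl.1 hl.2 j g hg
  obtain ⟨U₀, hUn, hUo, hUχ, hUcj, hUT, hUI⟩ := h3 p hp F hF hreal c σ hcs L n V hV S ρ hM.int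
    (insert p P₀) hpP hunr1
  have hconj : IsConj c := by
    refine ⟨hcs.hc, ?_⟩
    obtain ⟨a, ha⟩ := hcs.hσ
    refine ⟨a, fun h => ha ?_⟩
    rw [hcs.h] at h
    exact (algebraMap F (AlgebraicClosure F)).injective h
  obtain ⟨Λ, hΛ, ⟨l₁, hl₁, hl₁p⟩, hAr⟩ := h1 p hp F hF hreal hsp c hconj (insert p P₀)
    (hP₀f.insert p) (by
      intro l hl
      rcases Set.mem_insert_iff.mp hl with h | h
      · rw [h]
        exact hsp
      · exact hP₀s l h) hpP U₀ hUn hUo hUχ (by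
      intro l _ j hl g hg
      exact (hUI l j hl g hg).1) (by
      intro g hg g' hg'
      rw [conj_eq_iff c σ hcs g g' hg']
      exact hUcj g hg)
  have hpΛ : p ∈ Λ.P := hΛ hpP
  have hunrΛ : ∀ (l : ℕ) [Fact l.Prime], l ∉ Λ.P →
      ∀ j : AlgebraicClosure F →+* PadicAlgCl l,
      ∀ g ∈ Inert F (AlgebraicClosure F) j, g ∈ U₀ → V g = 1 := fun l _ hl j g hg =>
    (hUI l j (fun h => hl (hΛ h)) g hg).2
  obtain ⟨hcomp, hna, -, χ, cG, hχ, hχc, hcG, hcGc, hcc, hχcG, hloc, hdesc⟩ := h4 p hp F hF hreal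
    c σ hcs Λ.P hpΛ U₀ hUn hUo hUcj
  obtain ⟨inv, hAx⟩ := hAr χ cG hχ (by
    intro g g' hg'
    rw [hcG, conj_eq_iff c σ hcs g g' hg'])
  obtain ⟨VG, hVGc, hVG, hdz⟩ := hdesc L n V hV hunrΛ
  have hfix : ∀ g ∈ U₀,
      PadicInt.toZMod ((χ (QuotientGroup.mk g) : ℤ_[p]ˣ) : ℤ_[p]) = 1 := by
    intro g hg
    rw [hχ g]
    exact hUχ g hg
  have hpol : PolT VG cG χ B (U₀.map (QuotientGroup.mk' (RU F Λ.P U₀))) := by
    refine ⟨hVGc, hB, ?_, ?_⟩
    · intro a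
      obtain ⟨g, rfl⟩ := QuotientGroup.mk_surjective a
      have e1 : BKOdd.chL χ L (QuotientGroup.mk g : GU F Λ.P U₀) =
          BKOdd.chL (cycF p F) L g := by
        change algebraMap ℚ_[p] L (((χ (QuotientGroup.mk g) : ℤ_[p]ˣ) : ℤ_[p]) : ℚ_[p]) = _
        rw [hχ]
        rfl
      have e2 : (VG.comp cG) (QuotientGroup.mk g : GU F Λ.P U₀) =
          (V.comp (BKOdd.conj c σ hcs.h)) g := by
        change VG (cG (QuotientGroup.mk g)) = V (BKOdd.conj c σ hcs.h g)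
        rw [hcG, hVG]
      rw [e1, e2, hVG]
      exact hdual g
    · obtain ⟨ρG, hρ1, hρ2⟩ := metab_quot (P := Λ.P) hVG hM hUT
      exact ⟨S, ρG, B₀, N, hρ1, hρ2⟩
  obtain ⟨i₀, hi₀⟩ := id hpΛ
  have hne : ∃ i, i ≠ i₀ := by
    obtain ⟨i, hi⟩ := id hl₁
    refine ⟨i, fun h => hl₁p ?_⟩
    rw [← hi, h, hi₀]
  obtain ⟨j₀, hj₀, hj₀'⟩ : ∃ j₀ : AlgebraicClosure F →+* PadicAlgCl p, HEq (Λ.j i₀) j₀ ∧
      HEq ((swapPl c σ hcs Λ).j i₀)
        (j₀.comp (c : AlgebraicClosure F →+* AlgebraicClosure F)) := by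
    subst hi₀
    exact ⟨_, HEq.rfl, HEq.rfl⟩
  have hloc1 : ∀ i, χ.comp (rU Λ U₀ i) = cycL p (Λ.l i) := by
    intro i
    refine MonoidHom.ext fun t => ?_
    change χ (QuotientGroup.mk (Λ.r i t)) = _
    rw [hχ]
    exact hloc (Λ.l i) (Λ.j i) (Λ.r i) (Λ.spec i) t
  obtain ⟨hfin, hpar⟩ := core h2 h5 h6 h7 h8 hp hF c σ hcs hV hinv hdual hDR hFr Λ hUn hUo
    hunrΛ i₀ hi₀ j₀ hj₀ hne hAx hfix hχc hcGc hcc hχcG hcG hloc1 hVG hpol hdz
  have hloc2 : ∀ i, χ.comp (rU (swapPl c σ hcs Λ) U₀ i) = cycL p (Λ.l i) := by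
    intro i
    refine MonoidHom.ext fun t => ?_
    change χ (QuotientGroup.mk (BKOdd.conj c σ hcs.h (Λ.r i t))) = _
    rw [hχ]
    exact hloc (Λ.l i) ((swapPl c σ hcs Λ).j i) ((swapPl c σ hcs Λ).r i)
      ((swapPl c σ hcs Λ).spec i) t
  have hcomp' : CompactSpace (GU F (swapPl c σ hcs Λ).P U₀) := hcomp
  have hna' : NonarchimedeanGroup (GU F (swapPl c σ hcs Λ).P U₀) := hna
  obtain ⟨-, hpar'⟩ := core h2 h5 h6 h7 h8 hp hF c σ hcs hV hinv hdual hDR hFr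
    (swapPl c σ hcs Λ) hUn hUo hunrΛ i₀ hi₀ _ hj₀' hne (arith_swap c σ hcs Λ hcG hAx) hfix hχc
    hcGc hcc hχcG hcG hloc2 hVG hpol hdz
  refine ⟨hfin, fun j => ?_⟩
  rcases BKOdd.two_places hF j₀ c σ hcs j with ⟨g, hg⟩ | ⟨g, hg⟩
  · rw [BKOdd.tdim_inner j₀ j g V hg]
    exact hpar
  · rw [BKOdd.tdim_inner (j₀.comp (c : AlgebraicClosure F →+* AlgebraicClosure F)) j g V hg]
    exact hpar'

end BKT
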