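import Pool.Agent.Lib.MP_7c08ba_nt.T1.StF

set_option autoImplicit false

/-!
Module PARW: the parity depends only on the class of the reduction in the Witt group.
-/

noncomputable section

namespace BKT

open NumberField BKGen
open BKPar (Loc1 Loc2)
open BKND (Sm)
open BKMet
open BKV (RU GU dc)
open Matrix

namespace FPARW

section Blk

variable {R : Type} [CommRing R] {n n' : ℕ}

theorem blk_transpose (M : Matrix (Fin n) (Fin n) R) (M' : Matrix (Fin n') (Fin n') R) :
    (blk M M')ᵀ = blk Mᵀ M'ᵀ := by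
  unfold blk
  rw [Matrix.transpose_submatrix, Matrix.fromBlocks_transpose]
  simp

theorem blk_smul (a : R) (M : Matrix (Fin n) (Fin n) R) (M' : Matrix (Fin n') (Fin n') R) :
    blk (a • M) (a • M') = a • blk M M' := by
  unfold blk
  have h : a • (Matrix.fromBlocks M 0 0 M' : Matrix (Fin n ⊕ Fin n') (Fin n ⊕ Fin n') R) =
      Matrix.fromBlocks (a • M) 0 0 (a • M') := by
    rw [Matrix.fromBlocks_smul]
    simp
  rw [← h]
  rfl

theorem coe_blkG (M : GL (Fin n) R) (M' : GL (Fin n') R) :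
    ((blkG M M' : GL (Fin (n + n')) R) : Matrix (Fin (n + n')) (Fin (n + n')) R) =
      blk (M : Matrix (Fin n) (Fin n) R) (M' : Matrix (Fin n') (Fin n') R) := rfl

theorem coe_dsum {G : Type} [Group G] (V : G →* GL (Fin n) R) (V' : G →* GL (Fin n') R) (g : G) :
    ((dsum V V' g : GL (Fin (n + n')) R) : Matrix (Fin (n + n')) (Fin (n + n')) R) =
      blk (V g : Matrix (Fin n) (Fin n) R) (V' g : Matrix (Fin n') (Fin n') R) := rfl

theorem blkG_one : blkG (1 : GL (Fin n) R) (1 : GL (Fin n') R) = 1 := by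
  apply Units.ext
  exact blk_one

theorem dsum_pow {G : Type} [Group G] (V : G →* GL (Fin n) R) (V' : G →* GL (Fin n') R) (g : G)
    (m m' : ℕ) (h : V g ^ m = 1) (h' : V' g ^ m' = 1) : dsum V V' g ^ (m * m') = 1 := by
  rw [← map_pow]
  have e : dsum V V' (g ^ (m * m')) = blkG (V (g ^ (m * m'))) (V' (g ^ (m * m'))) := rfl
  rw [e, map_pow, map_pow, pow_mul, h, one_pow, mul_comm m m', pow_mul, h', one_pow]
  exact blkG_one

theorem blk_mulVec_left (M : Matrix (Fin n) (Fin n) R) (M' : Matrix (Fin n') (Fin n') R)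
    (v : Fin (n + n') → R) (i : Fin n) :
    (blk M M' *ᵥ v) (Fin.castAdd n' i) = (M *ᵥ fun k => v (Fin.castAdd n' k)) i := by
  unfold blk Matrix.mulVec dotProduct
  rw [Fin.sum_univ_add]
  simp

theorem blk_mulVec_right (M : Matrix (Fin n) (Fin n) R) (M' : Matrix (Fin n') (Fin n') R)
    (v : Fin (n + n') → R) (i : Fin n') :
    (blk M M' *ᵥ v) (Fin.natAdd n i) = (M' *ᵥ fun k => v (Fin.natAdd n k)) i := by
  unfold blk Matrix.mulVec dotProduct
  rw [Fin.sum_univ_add]
  simp

end Blk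

section Symm

variable {p : ℕ} [Fact p.Prime] {L : Type} [NormedField L] [NormedAlgebra ℚ_[p] L] {n : ℕ}

theorem symm0 (B S : GL (Fin n) L) (B₀ : Matrix (Fin n) (Fin n) (OO p L))
    (hB : (B : Matrix (Fin n) (Fin n) L)ᵀ = B)
    (h : (S : Matrix (Fin n) (Fin n) L)ᵀ * B₀.map (OO p L).subtype *
      (S : Matrix (Fin n) (Fin n) L) = (B : Matrix (Fin n) (Fin n) L)) : B₀ᵀ = B₀ := by
  have h1 : (S : Matrix (Fin n) (Fin n) L)ᵀ * (B₀.map (OO p L).subtype)ᵀ *
      (S : Matrix (Fin n) (Fin n) L) = (B : Matrix (Fin n) (Fin n) L) := by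
    rw [← hB, ← h, Matrix.transpose_mul, Matrix.transpose_mul, Matrix.transpose_transpose,
      Matrix.mul_assoc]
  have hS : (S : Matrix (Fin n) (Fin n) L) * ((S⁻¹ : GL (Fin n) L) : Matrix (Fin n) (Fin n) L) = 1 := by
    rw [← Units.val_mul, mul_inv_cancel, Units.val_one]
  have hST : ((S⁻¹ : GL (Fin n) L) : Matrix (Fin n) (Fin n) L)ᵀ *
      (S : Matrix (Fin n) (Fin n) L)ᵀ = 1 := by
    rw [← Matrix.transpose_mul, hS, Matrix.transpose_one]
  have key : ∀ X : Matrix (Fin n) (Fin n) L,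
      ((S⁻¹ : GL (Fin n) L) : Matrix (Fin n) (Fin n) L)ᵀ *
      ((S : Matrix (Fin n) (Fin n) L)ᵀ * X * (S : Matrix (Fin n) (Fin n) L)) *
      ((S⁻¹ : GL (Fin n) L) : Matrix (Fin n) (Fin n) L) = X := by
    intro X
    rw [Matrix.mul_assoc, Matrix.mul_assoc, hS, Matrix.mul_one, ← Matrix.mul_assoc, hST,
      Matrix.one_mul]
  have h2 : (B₀.map (OO p L).subtype)ᵀ = B₀.map (OO p L).subtype := by
    rw [← key (B₀.map (OO p L).subtype)ᵀ, h1, ← h, key]
  ext i j
  have := congrFun (congrFun h2 i) j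
  exact this

end Symm

end FPARW

open FPARW in
theorem stParW (h1 : StParT) (h2 : StSumH) (h3 : StSumT) (h4 : StSumM) : StParW := by
  intro p _ hp F _ _ hF hre hsp c σ hcs L _ _ _ n n' V V' B S B' S' hV hV' ρ ρ' B₀ B₀' N
    hρ hρ' hdet hdet' hform hform' hsub hstab hlagr
  obtain ⟨P, hPf, hPs, hPr⟩ := hV.ram
  obtain ⟨P', hPf', hPs', hPr'⟩ := hV'.ram
  obtain ⟨hc, hH⟩ := h2 p F L n n' V V' hV.cont hV'.cont
  have hs0 := symm0 B S B₀ hV.symm hform
  have hs0' := symm0 B' S' B₀' hV'.symm hform'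
  obtain ⟨N₁, hN₁⟩ := h4 p L (GF F) n n' V V' B S B' S' ρ ρ' B₀ B₀' N hρ hρ' hs0 hs0' hdet hdet'
    hform hform' hsub hstab hlagr
  have hnB : ((-B' : GL (Fin n') L) : Matrix (Fin n') (Fin n') L) =
      -(B' : Matrix (Fin n') (Fin n') L) := rfl
  have hmain := h1 p hp F hF hre hsp c σ hcs L (n + n') (dsum V V') hc (P ∪ P')
    (hPf.union hPf') (fun l hl => hl.elim (hPs l) (hPs' l))
    (by
      intro l _ hlp hl j g hg
      obtain ⟨m, hm, hVm⟩ := hPr l hlp (fun h => hl (Or.inl h)) j g hg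
      obtain ⟨m', hm', hVm'⟩ := hPr' l hlp (fun h => hl (Or.inr h)) j g hg
      refine ⟨m * m', ?_, dsum_pow V V' g m m' hVm hVm'⟩
      intro hd
      rcases (Fact.out : p.Prime).dvd_mul.mp hd with h | h
      · exact hm h
      · exact hm' h)
    (by
      intro l _ hlp j v hv
      have ha : (fun k => v (Fin.castAdd n' k)) = 0 := by
        apply hV.inv l hlp j
        intro g t hgt
        funext i
        have := congrFun (hv g t hgt) (Fin.castAdd n' i)
        rw [coe_dsum, blk_mulVec_left] at this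
        exact this
      have hb : (fun k => v (Fin.natAdd n k)) = 0 := by
        apply hV'.inv l hlp j
        intro g t hgt
        funext i
        have := congrFun (hv g t hgt) (Fin.natAdd n i)
        rw [coe_dsum, blk_mulVec_right] at this
        exact this
      funext i
      refine Fin.addCases (fun i => ?_) (fun i => ?_) i
      · exact congrFun ha i
      · exact congrFun hb i)
    (blkG B (-B'))
    (by
      rw [coe_blkG, blk_transpose, hV.symm, hnB, Matrix.transpose_neg, hV'.symm])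
    (by
      intro g
      have e1 := hV.dual g
      have e2 := hV'.dual g
      have e3 : (((dsum V V').comp (BKOdd.conj c σ hcs.h)) g :
          Matrix (Fin (n + n')) (Fin (n + n')) L) =
          blk ((V.comp (BKOdd.conj c σ hcs.h)) g : Matrix (Fin n) (Fin n) L)
            ((V'.comp (BKOdd.conj c σ hcs.h)) g : Matrix (Fin n') (Fin n') L) := rfl
      rw [e3, coe_dsum, coe_blkG, blk_transpose, blk_mul, blk_mul, e1, hnB, ← blk_smul,
        smul_neg, ← e2, Matrix.mul_neg, Matrix.neg_mul])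
    (blkG S S') (dsum ρ ρ') (blk B₀ (-B₀')) N₁ hN₁
    (fun j => (h3 p F hF hsp L n n' V V' j).1 (hV.dR j) (hV'.dR j))
    (fun j => (h3 p F hF hsp L n n' V V' j).2.1 (hV.frob j) (hV'.frob j))
  obtain ⟨hfd, hpar⟩ := hmain
  obtain ⟨f1, f2, hsum⟩ := hH hfd
  refine ⟨f1, f2, ?_⟩
  intro j
  have e := hpar j
  rw [hsum, (h3 p F hF hsp L n n' V V' j).2.2 (hV.dR j) (hV'.dR j)] at e
  omega

end BKT
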