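import Pool.Agent.Lib.MP_7c08ba_nt.T1.StF
import Pool.Agent.Lib.MP_7c08ba_nt.Met.NRAM
import Pool.Agent.Lib.MP_7c08ba_nt.Met.GPB

set_option autoImplicit false

/-!
Parity for general residual representations, module RAMT: inertia at ramified primes.
-/

noncomputable section

namespace BKT

open NumberField IsDedekindDomain BKGen BKGen.SUnits
open BKMet

namespace FRAMT

/-- An embedding for a given prime. -/
theorem exists_pl_eq {F : Type} [Field F] [NumberField F] {l : ℕ} [Fact l.Prime]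
    (v : HeightOneSpectrum (𝓞 F)) (h : (l : 𝓞 F) ∈ v.asIdeal) :
    ∃ j : F →+* PadicAlgCl l, pl j = v := by
  have := v.isPrime
  obtain ⟨j, hj⟩ := RT.exists_emb v.asIdeal v.ne_bot h
  refine ⟨j, ?_⟩
  apply HeightOneSpectrum.ext
  rw [hj]
  rfl

/-- A uniformizer at a ramified prime has not the norm of a rational number. -/
theorem ne_norm {F : Type} [Field F] [NumberField F] {l : ℕ} [hl : Fact l.Prime]
    (j : F →+* PadicAlgCl l) (h2 : (l : 𝓞 F) ∈ (pl j).asIdeal ^ 2) (α : F)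
    (hα : (pl j).valuation F α = WithZero.exp (-1 : ℤ)) (b : ℚ) :
    ‖j α‖ ≠ ‖((b : ℚ) : ℚ_[l])‖ := by
  intro hb
  have hα0 : α ≠ 0 := by
    rintro rfl
    rw [map_zero] at hα
    exact WithZero.exp_ne_zero hα.symm
  have hjα : j α ≠ 0 := by
    rw [Ne, map_eq_zero]
    exact hα0
  have hb0 : ((b : ℚ) : ℚ_[l]) ≠ 0 := by
    intro h0
    rw [h0, norm_zero, norm_eq_zero] at hb
    exact hjα hb
  have hl0 : (l : F) ≠ 0 := by exact_mod_cast hl.out.ne_zero
  set k : ℤ := ((b : ℚ) : ℚ_[l]).valuation with hk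
  have hnl : ‖j (l : F)‖ = (l : ℝ)⁻¹ := by
    rw [map_natCast]
    have h3 : ((l : ℕ) : PadicAlgCl l) = algebraMap ℚ_[l] (PadicAlgCl l) ((l : ℕ) : ℚ_[l]) := by
      rw [map_natCast]
    rw [h3]
    exact (PadicAlgCl.norm_extends _ _).trans Padic.norm_p
  have h1 : ‖j (α * ((l : F) ^ k)⁻¹)‖ = 1 := by
    rw [map_mul, map_inv₀, map_zpow₀, norm_mul, norm_inv, norm_zpow, hnl, hb,
      Padic.norm_eq_zpow_neg_valuation hb0, ← hk, inv_zpow, inv_inv, zpow_neg]
    have h4 : (l : ℝ) ^ k ≠ 0 := zpow_ne_zero _ (by exact_mod_cast hl.out.ne_zero)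
    exact inv_mul_cancel₀ h4
  have hx0 : α * ((l : F) ^ k)⁻¹ ≠ 0 := mul_ne_zero hα0 (inv_ne_zero (zpow_ne_zero _ hl0))
  have h5 := ((BKGlob2.stPB F l j).2.1 (Units.mk0 _ hx0)).1 h1
  change (pl j).valuation F (α * ((l : F) ^ k)⁻¹) = 1 at h5
  have hvl0 : (pl j).valuation F (l : F) ≠ 0 := (Valuation.ne_zero_iff _).2 hl0
  obtain ⟨m, hm⟩ : ∃ m : ℤ, (pl j).valuation F (l : F) = WithZero.exp m :=
    ⟨WithZero.log _, (WithZero.exp_log hvl0).symm⟩
  have hm2 : m ≤ -2 := by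
    have h6 : (pl j).intValuation (l : 𝓞 F) ≤ WithZero.exp (-((2 : ℕ) : ℤ)) :=
      ((pl j).intValuation_le_pow_iff_mem _ _).2 h2
    have h7 : (pl j).valuation F (algebraMap (𝓞 F) F (l : 𝓞 F)) =
        (pl j).intValuation (l : 𝓞 F) := (pl j).valuation_of_algebraMap _
    rw [map_natCast, hm] at h7
    rw [← h7, WithZero.exp_le_exp] at h6
    exact_mod_cast h6
  rw [map_mul, map_inv₀, map_zpow₀, hα, hm, ← WithZero.exp_zsmul, ← WithZero.exp_neg,
    ← WithZero.exp_add, ← WithZero.exp_zero, WithZero.exp_inj] at h5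
  have h8 : m * k = -1 := by
    have : k • m = m * k := by rw [smul_eq_mul, mul_comm]
    rw [this] at h5
    linarith
  have h9 : m ∣ 1 := ⟨-k, by linarith⟩
  have h10 := Int.isUnit_iff.1 (isUnit_of_dvd_one h9)
  omega

/-- The extension of an embedding. -/
theorem exists_lift {K Ω : Type} [Field K] [Field Ω] [Algebra K Ω] [Algebra.IsAlgebraic K Ω]
    {l : ℕ} [Fact l.Prime] (j : K →+* PadicAlgCl l) :
    ∃ j' : Ω →+* PadicAlgCl l, ∀ a, j' (algebraMap K Ω a) = j a := by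
  let iA : Algebra K (PadicAlgCl l) := j.toAlgebra
  let j' : Ω →ₐ[K] PadicAlgCl l := IsAlgClosed.lift
  exact ⟨j', fun a => j'.commutes a⟩

end FRAMT

open FRAMT in
theorem stRamT : StRamT := by
  rintro F _ _ hF l _ ⟨v, hv⟩
  have halg : Algebra.IsAlgebraic ℚ (AlgebraicClosure F) :=
    Algebra.IsAlgebraic.trans ℚ F (AlgebraicClosure F)
  have hcl : IsAlgClosure ℚ (AlgebraicClosure F) := ⟨inferInstance, halg⟩
  have hnor : Normal ℚ (AlgebraicClosure F) := IsAlgClosure.normal ℚ (AlgebraicClosure F)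
  obtain ⟨j0, hj0⟩ := exists_pl_eq (l := l) v (Ideal.pow_le_self two_ne_zero hv)
  obtain ⟨α, hα⟩ := v.valuation_exists_uniformizer F
  rw [← hj0] at hα hv
  obtain ⟨j, hj⟩ := exists_lift (Ω := AlgebraicClosure F) j0
  obtain ⟨t, σ, h1, h2, h3⟩ := NRAM.exists_inert j (algebraMap F (AlgebraicClosure F) α) (by
    intro b hb
    have h5 : j (algebraMap ℚ (AlgebraicClosure F) b) = (b : PadicAlgCl l) := by
      rw [eq_ratCast, map_ratCast]
    rw [h5, NRAM.norm_rat, hj] at hb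
    exact ne_norm j0 hv α hα b hb)
  exact ⟨j, t, σ.toRingEquiv, h1, ⟨α, h3⟩, h2⟩

end BKT
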