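import Pool.Agent.Lib.MP_7c08ba_nt.T1.StF

set_option autoImplicit false

/-!
Parity for general residual representations, part F, module SUMH: the Selmer group of a direct sum.
-/

noncomputable section

namespace BKT

open NumberField BKGen
open BKPar (Loc1 Loc2)
open BKND (Sm)
open BKMet
open BKV (RU GU dc)
open Matrix TensorProduct MP_7c08ba.Crys

namespace FSUMH

/-! ### Functoriality of `H¹` -/

section Fun

variable {G : Type*} [Group G] {L : Type} [NormedField L] {m n : ℕ}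

/-- `T` is a homomorphism of representations -/
def Intw (ρ : G →* GL (Fin n) L) (ρ' : G →* GL (Fin m) L)
    (T : (Fin n → L) →ₗ[L] (Fin m → L)) : Prop :=
  ∀ (g : G) (v : Fin n → L), T ((ρ g : Matrix (Fin n) (Fin n) L) *ᵥ v) =
    (ρ' g : Matrix (Fin m) (Fin m) L) *ᵥ T v

variable {ρ : G →* GL (Fin n) L} {ρ' : G →* GL (Fin m) L} {T : (Fin n → L) →ₗ[L] (Fin m → L)}

theorem map_B1 (hT : Intw ρ ρ' T) {x : G → Fin n → L} (hx : x ∈ BKOdd.B1 ρ) :
    T.compLeft G x ∈ BKOdd.B1 ρ' := by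
  obtain ⟨v, rfl⟩ := hx
  refine ⟨T v, ?_⟩
  funext g
  change (ρ' g : Matrix (Fin m) (Fin m) L) *ᵥ T v - T v =
    T ((ρ g : Matrix (Fin n) (Fin n) L) *ᵥ v - v)
  rw [map_sub, hT]

variable [TopologicalSpace G]

theorem map_Z1 (hT : Intw ρ ρ' T) {x : G → Fin n → L} (hx : x ∈ BKOdd.Z1 ρ) :
    T.compLeft G x ∈ BKOdd.Z1 ρ' := by
  obtain ⟨hc, hx⟩ := hx
  refine ⟨(LinearMap.continuous_on_pi T).comp hc, fun g h => ?_⟩
  change T (x (g * h)) = T (x g) + (ρ' g : Matrix (Fin m) (Fin m) L) *ᵥ T (x h)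
  rw [hx, map_add, hT]

/-- the map of cocycles -/
def zmap (hT : Intw ρ ρ' T) : BKOdd.Z1 ρ →ₗ[L] BKOdd.Z1 ρ' :=
  (T.compLeft G).restrict fun _ hx => map_Z1 hT hx

/-- the map of classes -/
def hmap (hT : Intw ρ ρ' T) : BKOdd.H1 ρ →ₗ[L] BKOdd.H1 ρ' :=
  Submodule.mapQ _ _ (zmap hT) fun _ hx => map_B1 hT hx

theorem hmap_mk (hT : Intw ρ ρ' T) (x : G → Fin n → L) (hx : x ∈ BKOdd.Z1 ρ) :
    hmap hT (((BKOdd.B1 ρ).submoduleOf (BKOdd.Z1 ρ)).mkQ ⟨x, hx⟩) =
      ((BKOdd.B1 ρ').submoduleOf (BKOdd.Z1 ρ')).mkQ ⟨T.compLeft G x, map_Z1 hT hx⟩ := rfl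

end Fun

section Sel

variable {p : ℕ} [Fact p.Prime] {F : Type} [Field F] {L : Type} [NormedField L]
  [NormedAlgebra ℚ_[p] L] {m n : ℕ} {ρ : GF F →* GL (Fin n) L} {ρ' : GF F →* GL (Fin m) L}
  {T : (Fin n → L) →ₗ[L] (Fin m → L)}

theorem map_triv (hT : Intw ρ ρ' T) {B : Type} [CommRing B] [Algebra ℚ_[p] B]
    (γ : (PadicAlgCl p ≃ₐ[ℚ_[p]] PadicAlgCl p) → B →ₐ[ℚ_[p]] B)
    (j : AlgebraicClosure F →+* PadicAlgCl p) {x : GF F → Fin n → L}
    (hx : BKGlob.IsTriv γ j ρ x) : BKGlob.IsTriv γ j ρ' (T.compLeft (GF F) x) := by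
  obtain ⟨b, hb⟩ := hx
  let TB : (Fin n → L) ⊗[ℚ_[p]] B →ₗ[L] (Fin m → L) ⊗[ℚ_[p]] B :=
    AlgebraTensorModule.map T (LinearMap.id : B →ₗ[ℚ_[p]] B)
  have key : ∀ (σ : GF F) (t : PadicAlgCl p ≃ₐ[ℚ_[p]] PadicAlgCl p)
      (y : (Fin n → L) ⊗[ℚ_[p]] B),
      TB (BKGlob.actM (ρ σ : Matrix (Fin n) (Fin n) L) (γ t) y) =
        BKGlob.actM (ρ' σ : Matrix (Fin m) (Fin m) L) (γ t) (TB y) := by
    intro σ t y
    induction y with
    | zero => simp
    | tmul v c =>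
      rw [BKGlob.actM_tmul]
      change T ((ρ σ : Matrix (Fin n) (Fin n) L) *ᵥ v) ⊗ₜ[ℚ_[p]] (γ t) c =
        ((ρ' σ : Matrix (Fin m) (Fin m) L) *ᵥ T v) ⊗ₜ[ℚ_[p]] (γ t) c
      rw [hT]
    | add y z hy hz => rw [map_add, map_add, hy, hz, map_add, map_add]
  refine ⟨TB b, fun σ t h => ?_⟩
  rw [← key, ← map_sub, hb σ t h]
  rfl

theorem map_Z1f (hT : Intw ρ ρ' T) {x : GF F → Fin n → L} (hx : x ∈ BKOdd.Z1f p ρ) :
    T.compLeft (GF F) x ∈ BKOdd.Z1f p ρ' := by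
  obtain ⟨h1, h2, h3⟩ := hx
  refine ⟨map_Z1 hT h1, fun l _ hl j => ?_, fun j => map_triv hT galBa j (h3 j)⟩
  obtain ⟨v, hv⟩ := h2 l hl j
  refine ⟨T v, fun σ hσ => ?_⟩
  change T (x σ) = _
  rw [hv σ hσ, map_sub, hT]

theorem hmap_H1f (hT : Intw ρ ρ' T) {ξ : BKOdd.H1 ρ} (hξ : ξ ∈ BKOdd.H1f p ρ) :
    hmap hT ξ ∈ BKOdd.H1f p ρ' := by
  obtain ⟨x, hx, hxf, rfl⟩ := BKOdd.mem_cls.1 hξ
  rw [hmap_mk]
  exact BKOdd.mem_cls.2 ⟨_, map_Z1 hT hx, map_Z1f hT hxf, rfl⟩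

end Sel

/-! ### Direct sums -/

section Sum

variable {L : Type} {n n' : ℕ}

/-- the first projection -/
def P1 [CommSemiring L] : (Fin (n + n') → L) →ₗ[L] (Fin n → L) :=
  LinearMap.funLeft L L fun i => finSumFinEquiv (Sum.inl i)

/-- the second projection -/
def P2 [CommSemiring L] : (Fin (n + n') → L) →ₗ[L] (Fin n' → L) :=
  LinearMap.funLeft L L fun i => finSumFinEquiv (Sum.inr i)

/-- the sum -/
def J (v : Fin n → L) (v' : Fin n' → L) : Fin (n + n') → L :=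
  Sum.elim v v' ∘ finSumFinEquiv.symm

variable [CommRing L]

theorem P1_J (v : Fin n → L) (v' : Fin n' → L) : P1 (J v v') = v := by
  funext i
  change Sum.elim v v' (finSumFinEquiv.symm (finSumFinEquiv (Sum.inl i))) = v i
  rw [Equiv.symm_apply_apply, Sum.elim_inl]

theorem P2_J (v : Fin n → L) (v' : Fin n' → L) : P2 (J v v') = v' := by
  funext i
  change Sum.elim v v' (finSumFinEquiv.symm (finSumFinEquiv (Sum.inr i))) = v' i
  rw [Equiv.symm_apply_apply, Sum.elim_inr]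

theorem J_P (u : Fin (n + n') → L) : J (P1 u) (P2 u) = u := by
  funext i
  obtain ⟨s, rfl⟩ := finSumFinEquiv.surjective i
  change Sum.elim (P1 u) (P2 u) (finSumFinEquiv.symm (finSumFinEquiv s)) = _
  rw [Equiv.symm_apply_apply]
  cases s <;> rfl

theorem J_ext {u w : Fin (n + n') → L} (h1 : P1 u = P1 w) (h2 : P2 u = P2 w) : u = w := by
  rw [← J_P u, ← J_P w, h1, h2]

/-- the first inclusion -/
def I1 : (Fin n → L) →ₗ[L] (Fin (n + n') → L) where
  toFun v := J v 0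
  map_add' v w := J_ext (by rw [map_add, P1_J, P1_J, P1_J])
    (by rw [map_add, P2_J, P2_J, P2_J, add_zero])
  map_smul' a v := J_ext (by rw [map_smul, P1_J, P1_J]; rfl)
    (by rw [map_smul, P2_J, P2_J, smul_zero])

/-- the second inclusion -/
def I2 : (Fin n' → L) →ₗ[L] (Fin (n + n') → L) where
  toFun v := J 0 v
  map_add' v w := J_ext (by rw [map_add, P1_J, P1_J, P1_J, add_zero])
    (by rw [map_add, P2_J, P2_J, P2_J])
  map_smul' a v := J_ext (by rw [map_smul, P1_J, P1_J, smul_zero])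
    (by rw [map_smul, P2_J, P2_J]; rfl)

theorem I1_apply (v : Fin n → L) : (I1 v : Fin (n + n') → L) = J v 0 := rfl

theorem I2_apply (v : Fin n' → L) : (I2 v : Fin (n + n') → L) = J 0 v := rfl

theorem I_P (u : Fin (n + n') → L) : I1 (P1 u) + I2 (P2 u) = u := by
  apply J_ext
  · rw [map_add, I1_apply, I2_apply, P1_J, P1_J, add_zero]
  · rw [map_add, I1_apply, I2_apply, P2_J, P2_J, zero_add]

theorem blk_mulVec (M : Matrix (Fin n) (Fin n) L) (M' : Matrix (Fin n') (Fin n') L)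
    (u : Fin (n + n') → L) : blk M M' *ᵥ u = J (M *ᵥ P1 u) (M' *ᵥ P2 u) := by
  unfold blk J
  rw [Matrix.submatrix_mulVec_equiv, Matrix.fromBlocks_mulVec, Matrix.zero_mulVec,
    Matrix.zero_mulVec, add_zero, zero_add]
  rfl

end Sum

section DSum

variable {G : Type} [Group G] {L : Type} [NormedField L] {n n' : ℕ} (V : G →* GL (Fin n) L)
  (V' : G →* GL (Fin n') L)

theorem dsum_mulVec (g : G) (u : Fin (n + n') → L) :
    (dsum V V' g : Matrix (Fin (n + n')) (Fin (n + n')) L) *ᵥ u =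
      J ((V g : Matrix (Fin n) (Fin n) L) *ᵥ P1 u) ((V' g : Matrix (Fin n') (Fin n') L) *ᵥ P2 u) :=
  blk_mulVec _ _ u

theorem intw_P1 : Intw (dsum V V') V P1 := by
  intro g u
  rw [dsum_mulVec, P1_J]

theorem intw_P2 : Intw (dsum V V') V' P2 := by
  intro g u
  rw [dsum_mulVec, P2_J]

theorem intw_I1 : Intw V (dsum V V') I1 := by
  intro g v
  rw [dsum_mulVec, I1_apply, I1_apply, P1_J, P2_J, Matrix.mulVec_zero]

theorem intw_I2 : Intw V' (dsum V V') I2 := by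
  intro g v
  rw [dsum_mulVec, I2_apply, I2_apply, P1_J, P2_J, Matrix.mulVec_zero]

omit [Group G] in
theorem continuous_blk [TopologicalSpace G] {M : G → Matrix (Fin n) (Fin n) L}
    {M' : G → Matrix (Fin n') (Fin n') L} (hM : Continuous M) (hM' : Continuous M') :
    Continuous fun g => blk (M g) (M' g) := by
  unfold blk
  exact (Continuous.matrix_fromBlocks hM continuous_const continuous_const hM').matrix_submatrix
    _ _

theorem continuous_dsum [TopologicalSpace G] (hV : Continuous V) (hV' : Continuous V') :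
    Continuous (dsum V V') := by
  rw [Units.continuous_iff]
  constructor
  · exact continuous_blk (Units.continuous_val.comp hV) (Units.continuous_val.comp hV')
  · have h1 := Units.continuous_iff.1 hV
    have h2 := Units.continuous_iff.1 hV'
    exact continuous_blk h1.2 h2.2

end DSum

section Main

variable {p : ℕ} [Fact p.Prime] {F : Type} [Field F] {L : Type} [NormedField L]
  [NormedAlgebra ℚ_[p] L] {n n' : ℕ} (V : GF F →* GL (Fin n) L) (V' : GF F →* GL (Fin n') L)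

variable (p) in
/-- the map to the product -/
def E : BKOdd.H1f p (dsum V V') →ₗ[L] BKOdd.H1f p V × BKOdd.H1f p V' :=
  LinearMap.prod
    ((hmap (intw_P1 V V')).restrict fun _ h => hmap_H1f (intw_P1 V V') h)
    ((hmap (intw_P2 V V')).restrict fun _ h => hmap_H1f (intw_P2 V V') h)

theorem E_fst (ξ : BKOdd.H1f p (dsum V V')) :
    ((E p V V' ξ).1 : BKOdd.H1 V) = hmap (intw_P1 V V') (ξ : BKOdd.H1 (dsum V V')) := rfl

theorem E_snd (ξ : BKOdd.H1f p (dsum V V')) :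
    ((E p V V' ξ).2 : BKOdd.H1 V') = hmap (intw_P2 V V') (ξ : BKOdd.H1 (dsum V V')) := rfl

theorem E_inj : Function.Injective (E p V V') := by
  rw [injective_iff_map_eq_zero]
  intro ξ hξ
  have e1 : hmap (intw_P1 V V') (ξ : BKOdd.H1 (dsum V V')) = 0 := by
    rw [← E_fst, hξ]
    rfl
  have e2 : hmap (intw_P2 V V') (ξ : BKOdd.H1 (dsum V V')) = 0 := by
    rw [← E_snd, hξ]
    rfl
  apply Subtype.ext
  obtain ⟨x, hx, -, hx'⟩ := BKOdd.mem_cls.1 ξ.2
  rw [← hx'] at e1 e2 ⊢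
  rw [hmap_mk, Submodule.mkQ_apply, Submodule.Quotient.mk_eq_zero] at e1 e2
  change _ = (0 : BKOdd.H1 (dsum V V'))
  rw [Submodule.mkQ_apply, Submodule.Quotient.mk_eq_zero]
  have f1 : P1.compLeft (GF F) x ∈ BKOdd.B1 V := e1
  have f2 : P2.compLeft (GF F) x ∈ BKOdd.B1 V' := e2
  have f3 := (BKOdd.B1 (dsum V V')).add_mem (map_B1 (intw_I1 V V') f1)
    (map_B1 (intw_I2 V V') f2)
  have f4 : I1.compLeft (GF F) (P1.compLeft (GF F) x) +
      I2.compLeft (GF F) (P2.compLeft (GF F) x) = x := by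
    funext g
    exact I_P (x g)
  rw [f4] at f3
  exact f3

theorem E_surj : Function.Surjective (E p V V') := by
  rintro ⟨⟨ξ, hξ⟩, ⟨η, hη⟩⟩
  obtain ⟨x, hx, hxf, rfl⟩ := BKOdd.mem_cls.1 hξ
  obtain ⟨y, hy, hyf, rfl⟩ := BKOdd.mem_cls.1 hη
  have g1 := (BKOdd.Z1f p (dsum V V')).add_mem (map_Z1f (intw_I1 V V') hxf)
    (map_Z1f (intw_I2 V V') hyf)
  have g2 := (BKOdd.Z1 (dsum V V')).add_mem (map_Z1 (intw_I1 V V') hx)
    (map_Z1 (intw_I2 V V') hy)
  refine ⟨⟨((BKOdd.B1 (dsum V V')).submoduleOf (BKOdd.Z1 (dsum V V'))).mkQ ⟨_, g2⟩,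
    BKOdd.mem_cls.2 ⟨_, g2, g1, rfl⟩⟩, ?_⟩
  apply Prod.ext
  · apply Subtype.ext
    rw [E_fst]
    change hmap (intw_P1 V V') (((BKOdd.B1 (dsum V V')).submoduleOf
      (BKOdd.Z1 (dsum V V'))).mkQ ⟨_, g2⟩) = _
    rw [hmap_mk]
    congr 1
    apply Subtype.ext
    funext g
    change P1 (I1 (x g) + I2 (y g)) = x g
    rw [map_add, I1_apply, I2_apply, P1_J, P1_J, add_zero]
  · apply Subtype.ext
    rw [E_snd]
    change hmap (intw_P2 V V') (((BKOdd.B1 (dsum V V')).submoduleOf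
      (BKOdd.Z1 (dsum V V'))).mkQ ⟨_, g2⟩) = _
    rw [hmap_mk]
    congr 1
    apply Subtype.ext
    funext g
    change P2 (I1 (x g) + I2 (y g)) = y g
    rw [map_add, I1_apply, I2_apply, P2_J, P2_J, zero_add]

end Main

end FSUMH

open FSUMH in
/-- Module SUMH: the Selmer group of a direct sum. -/
theorem stSumH : StSumH := by
  intro p _ F _ _ L _ _ _ n n' V V' hV hV'
  refine ⟨continuous_dsum V V' hV hV', fun hf => ?_⟩
  let e : BKOdd.H1f p (dsum V V') ≃ₗ[L] BKOdd.H1f p V × BKOdd.H1f p V' :=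
    LinearEquiv.ofBijective (E p V V') ⟨E_inj V V', E_surj V V'⟩
  have h0 : FiniteDimensional L (BKOdd.H1f p V × BKOdd.H1f p V') := Module.Finite.equiv e
  have h1 : FiniteDimensional L (BKOdd.H1f p V) :=
    Module.Finite.of_surjective (LinearMap.fst L (BKOdd.H1f p V) (BKOdd.H1f p V'))
      LinearMap.fst_surjective
  have h2 : FiniteDimensional L (BKOdd.H1f p V') :=
    Module.Finite.of_surjective (LinearMap.snd L (BKOdd.H1f p V) (BKOdd.H1f p V'))
      LinearMap.snd_surjective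
  exact ⟨h1, h2, by rw [LinearEquiv.finrank_eq e, Module.finrank_prod]⟩

end BKT
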