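import Pool.Agent.Lib.MP_7c08ba_nt.T1.StF

set_option autoImplicit false

/-!
Parity for general residual representations, part F, module SUMM: the lattice and the form of a
direct sum.
-/

noncomputable section

namespace BKT

open BKMet
open Matrix

namespace FSUMM

variable {R : Type} [CommRing R] {n n' : ℕ}

/-- the two components of a vector -/
def sp : (Fin (n + n') → R) ≃ₗ[R] (Fin n → R) × (Fin n' → R) where
  toFun x := (fun i => x (finSumFinEquiv (Sum.inl i)), fun i => x (finSumFinEquiv (Sum.inr i)))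
  map_add' _ _ := rfl
  map_smul' _ _ := rfl
  invFun x := fun i => Sum.elim x.1 x.2 (finSumFinEquiv.symm i)
  left_inv x := by
    funext i
    obtain ⟨j, rfl⟩ := finSumFinEquiv.surjective i
    change Sum.elim (fun i => x (finSumFinEquiv (Sum.inl i)))
      (fun i => x (finSumFinEquiv (Sum.inr i))) (finSumFinEquiv.symm (finSumFinEquiv j)) = _
    rw [Equiv.symm_apply_apply]
    rcases j with j | j <;> rfl
  right_inv x := by
    ext i
    · change Sum.elim x.1 x.2 (finSumFinEquiv.symm (finSumFinEquiv (Sum.inl i))) = x.1 i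
      rw [Equiv.symm_apply_apply]
      rfl
    · change Sum.elim x.1 x.2 (finSumFinEquiv.symm (finSumFinEquiv (Sum.inr i))) = x.2 i
      rw [Equiv.symm_apply_apply]
      rfl

theorem blk_mulVec (M : Matrix (Fin n) (Fin n) R) (M' : Matrix (Fin n') (Fin n') R)
    (x : Fin (n + n') → R) : sp (blk M M' *ᵥ x) = (M *ᵥ (sp x).1, M' *ᵥ (sp x).2) := by
  unfold blk
  rw [Matrix.submatrix_mulVec_equiv, Matrix.fromBlocks_mulVec]
  ext i
  · change Sum.elim _ _ (finSumFinEquiv.symm (finSumFinEquiv (Sum.inl i))) = _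
    rw [Equiv.symm_apply_apply]
    change (M *ᵥ _ + (0 : Matrix (Fin n) (Fin n') R) *ᵥ _) i = _
    rw [Matrix.zero_mulVec, add_zero]
    rfl
  · change Sum.elim _ _ (finSumFinEquiv.symm (finSumFinEquiv (Sum.inr i))) = _
    rw [Equiv.symm_apply_apply]
    change ((0 : Matrix (Fin n') (Fin n) R) *ᵥ _ + M' *ᵥ _) i = _
    rw [Matrix.zero_mulVec, zero_add]
    rfl

theorem dot_sp (x y : Fin (n + n') → R) :
    x ⬝ᵥ y = (sp x).1 ⬝ᵥ (sp y).1 + (sp x).2 ⬝ᵥ (sp y).2 := by
  unfold dotProduct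
  rw [← finSumFinEquiv.sum_comp, Fintype.sum_sum_type]
  rfl

theorem blk_map {R' : Type} [CommRing R'] (f : R →+* R') (M : Matrix (Fin n) (Fin n) R)
    (M' : Matrix (Fin n') (Fin n') R) : (blk M M').map f = blk (M.map f) (M'.map f) := by
  unfold blk
  rw [← Matrix.submatrix_map, Matrix.fromBlocks_map, Matrix.map_zero _ (map_zero f),
    Matrix.map_zero _ (map_zero f)]

theorem blk_transpose (M : Matrix (Fin n) (Fin n) R) (M' : Matrix (Fin n') (Fin n') R) :
    (blk M M')ᵀ = blk Mᵀ M'ᵀ := by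
  unfold blk
  rw [Matrix.transpose_submatrix, Matrix.fromBlocks_transpose, Matrix.transpose_zero,
    Matrix.transpose_zero]

theorem blk_det (M : Matrix (Fin n) (Fin n) R) (M' : Matrix (Fin n') (Fin n') R) :
    (blk M M').det = M.det * M'.det := by
  unfold blk
  rw [Matrix.det_submatrix_equiv_self, Matrix.det_fromBlocks_zero₂₁]

end FSUMM

open FSUMM

/-- Module SUMM. -/
theorem stSumM : StSumM := by
  intro p _ L _ _ _ G _ n n' V V' B S B' S' ρ ρ' B₀ B₀' N hi hi' hs hs' hd hd' hf hf' hsub hstab hl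
  refine ⟨N.comap (sp (R := OO p L) (n := n) (n' := n')).toLinearMap, ?_⟩
  refine ⟨?_, ?_, ?_, ?_, ?_, ?_, ?_⟩
  · intro g
    apply Units.ext
    have e := congrArg (fun M : GL (Fin n) L => (M : Matrix (Fin n) (Fin n) L)) (hi g)
    have e' := congrArg (fun M : GL (Fin n') L => (M : Matrix (Fin n') (Fin n') L)) (hi' g)
    change (blk (ρ g : Matrix (Fin n) (Fin n) (OO p L))
      (ρ' g : Matrix (Fin n') (Fin n') (OO p L))).map (OO p L).subtype =
      blk (S : Matrix (Fin n) (Fin n) L) (S' : Matrix (Fin n') (Fin n') L) *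
        blk (V g : Matrix (Fin n) (Fin n) L) (V' g : Matrix (Fin n') (Fin n') L) *
        blk ((S⁻¹ : GL (Fin n) L) : Matrix (Fin n) (Fin n) L)
          ((S'⁻¹ : GL (Fin n') L) : Matrix (Fin n') (Fin n') L)
    rw [blk_map, blk_mul, blk_mul]
    change (ρ g : Matrix (Fin n) (Fin n) (OO p L)).map (OO p L).subtype =
      (S : Matrix (Fin n) (Fin n) L) * (V g : Matrix (Fin n) (Fin n) L) *
        ((S⁻¹ : GL (Fin n) L) : Matrix (Fin n) (Fin n) L) at e
    change (ρ' g : Matrix (Fin n') (Fin n') (OO p L)).map (OO p L).subtype =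
      (S' : Matrix (Fin n') (Fin n') L) * (V' g : Matrix (Fin n') (Fin n') L) *
        ((S'⁻¹ : GL (Fin n') L) : Matrix (Fin n') (Fin n') L) at e'
    rw [e, e']
  · rw [blk_transpose, hs, Matrix.transpose_neg, hs']
  · rw [blk_det, Matrix.det_neg]
    exact hd.mul (IsUnit.mul (IsUnit.pow _ isUnit_one.neg) hd')
  · change (blk (S : Matrix (Fin n) (Fin n) L) (S' : Matrix (Fin n') (Fin n') L))ᵀ *
      (blk B₀ (-B₀')).map (OO p L).subtype *
      blk (S : Matrix (Fin n) (Fin n) L) (S' : Matrix (Fin n') (Fin n') L) =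
      blk (B : Matrix (Fin n) (Fin n) L) (-(B' : Matrix (Fin n') (Fin n') L))
    rw [blk_transpose, blk_map, blk_mul, blk_mul, hf]
    have e : (-B₀').map (OO p L).subtype = -(B₀'.map (OO p L).subtype) := by
      ext i j
      exact map_neg (OO p L).subtype (B₀' i j)
    rw [e, Matrix.mul_neg, Matrix.neg_mul, hf']
  · intro x
    change sp (pi0 p L • x) ∈ N
    rw [map_smul]
    exact hsub (sp x).1 (sp x).2
  · intro g x hx
    change sp (blk (ρ g : Matrix (Fin n) (Fin n) (OO p L))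
      (ρ' g : Matrix (Fin n') (Fin n') (OO p L)) *ᵥ x) ∈ N
    rw [blk_mulVec]
    exact hstab g (sp x) hx
  · intro y
    have key : ∀ x : Fin (n + n') → OO p L, x ⬝ᵥ (blk B₀ (-B₀') *ᵥ y) =
        (sp x).1 ⬝ᵥ (B₀ *ᵥ (sp y).1) - (sp x).2 ⬝ᵥ (B₀' *ᵥ (sp y).2) := by
      intro x
      rw [dot_sp, blk_mulVec]
      change (sp x).1 ⬝ᵥ (B₀ *ᵥ (sp y).1) + (sp x).2 ⬝ᵥ ((-B₀') *ᵥ (sp y).2) = _
      rw [Matrix.neg_mulVec, dotProduct_neg, ← sub_eq_add_neg]
    constructor
    · intro hy x hx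
      rw [key]
      exact (hl (sp y)).mp hy (sp x) hx
    · intro h
      refine (hl (sp y)).mpr ?_
      intro x hx
      have h1 := h (sp.symm x) (by
        change sp (sp.symm x) ∈ N
        rw [LinearEquiv.apply_symm_apply]
        exact hx)
      rw [key, LinearEquiv.apply_symm_apply] at h1
      exact h1

end BKT
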