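import Pool.Agent.Lib.MP_7c08ba_nt.T1.StF
import Pool.Agent.Lib.MP_7c08ba_nt.Odd.DRTrans

set_option autoImplicit false

/-!
Parity for general residual representations, module SUMT: the Hodge–Tate data of a direct sum.
-/

noncomputable section

namespace BKT

open Matrix TensorProduct
open BKGen BKMet MP_7c08ba.Crys

namespace FSUMT

/-! ### `B_dR` is a discretely valued field -/

section Fld

variable {p : ℕ} [hp : Fact p.Prime]

theorem form {x : BdRp p} (hx : x ≠ 0) : ∃ (m : ℕ) (u : BdRp p), IsUnit u ∧ x = wD p ^ m * u := by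
  classical
  have h1 : ∃ n : ℕ, ¬ wD p ^ n ∣ x := by
    by_contra h
    push Not at h
    exact hx (hausJ Jp_eq h)
  have h2 := Nat.find_spec h1
  have h0 : Nat.find h1 ≠ 0 := by
    intro h
    rw [h, pow_zero] at h2
    exact h2 (one_dvd x)
  obtain ⟨m, hm⟩ := Nat.exists_eq_succ_of_ne_zero h0
  have h3 : wD p ^ m ∣ x := by
    by_contra h
    have := Nat.find_min' h1 h
    omega
  obtain ⟨u, hu⟩ := h3
  refine ⟨m, u, ?_, hu⟩
  apply isUnit_of_thD
  intro ht
  obtain ⟨v, hv⟩ := thD_eq_zero ht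
  apply h2
  rw [hm]
  refine ⟨v, ?_⟩
  rw [hu, hv, pow_succ, mul_assoc]
  rfl

theorem formD {x : BdR p} (hx : x ≠ 0) : ∃ (a b : ℕ) (u : BdRp p), IsUnit u ∧
    jd (wD p) ^ a * x = jd (wD p) ^ b * jd u := by
  obtain ⟨a, y, h⟩ := exists_jd x
  have hy : y ≠ 0 := by
    rintro rfl
    rw [map_zero] at h
    exact hx (((isUnit_jd_w (p := p)).pow a).mul_right_eq_zero.1 h)
  obtain ⟨b, u, hu, rfl⟩ := form hy
  refine ⟨a, b, u, hu, ?_⟩
  rw [h, map_mul, map_pow]

theorem exists_inv {x : BdR p} (hx : x ≠ 0) : ∃ y : BdR p, x * y = 1 := by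
  obtain ⟨a, b, u, hu, h⟩ := formD hx
  have h1 : IsUnit (jd (wD p) ^ a * x) := by
    rw [h]
    exact ((isUnit_jd_w (p := p)).pow b).mul (hu.map jd)
  have h2 : IsUnit x := isUnit_of_mul_isUnit_right h1
  exact h2.exists_right_inv

/-- a valuation ring -/
theorem mem_or {x y : BdR p} (h : x * y = 1) : x ∈ DpS p ∨ y ∈ DpS p := by
  have hx : x ≠ 0 := by
    rintro rfl
    rw [zero_mul] at h
    exact zero_ne_one h
  obtain ⟨a, b, u, hu, hab⟩ := formD hx
  obtain ⟨v, hv⟩ := hu.exists_right_inv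
  have hv' : jd u * jd v = (1 : BdR p) := by rw [← map_mul, hv, map_one]
  obtain ⟨w', hw'⟩ := (isUnit_jd_w (p := p)).exists_right_inv
  rcases le_total a b with hle | hle
  · left
    obtain ⟨c, rfl⟩ := Nat.exists_eq_add_of_le hle
    refine ⟨wD p ^ c * u, ?_⟩
    have h1 : jd (wD p) ^ a * x = jd (wD p) ^ a * jd (wD p ^ c * u) := by
      rw [hab, map_mul, map_pow, pow_add]; ring
    have h2 : (jd (wD p) ^ a * w' ^ a) * x = (jd (wD p) ^ a * w' ^ a) * jd (wD p ^ c * u) := by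
      linear_combination w' ^ a * h1
    rw [← mul_pow, hw', one_pow, one_mul, one_mul] at h2
    exact h2.symm
  · right
    obtain ⟨c, rfl⟩ := Nat.exists_eq_add_of_le hle
    refine ⟨wD p ^ c * v, ?_⟩
    have h1 : (jd (wD p) ^ b * w' ^ b) * (jd (wD p) ^ c * x) = (jd (wD p) ^ b * w' ^ b) * jd u := by
      linear_combination w' ^ b * hab
    rw [← mul_pow, hw', one_pow, one_mul, one_mul] at h1
    change jd (wD p ^ c * v) = y
    rw [map_mul, map_pow]
    linear_combination (-(jd (wD p) ^ c * jd v)) * h + (y * jd v) * h1 + y * hv'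

theorem unit_or {x : BdR p} (hx : x ∈ DpS p) (y : BdR p) (h : x * y = 1) :
    y ∈ DpS p ∨ ∀ c : BdR p, ∃ N : ℕ, x ^ N * c ∈ DpS p := by
  obtain ⟨a, rfl⟩ := hx
  by_cases ht : thD a = 0
  · right
    intro c
    obtain ⟨b, hb⟩ := thD_eq_zero ht
    obtain ⟨m, z, hz⟩ := exists_jd c
    refine ⟨m, b ^ m * z, ?_⟩
    have hb' : a = wD p * b := hb
    change jd (b ^ m * z) = jd a ^ m * c
    rw [map_mul, map_pow, ← hz, hb', map_mul, mul_pow]
    ring
  · left
    obtain ⟨b, hb⟩ := (isUnit_of_thD ht).exists_right_inv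
    refine ⟨b, ?_⟩
    have h1 : jd a * jd b = (1 : BdR p) := by rw [← map_mul, hb, map_one]
    have h' : jd a * y = 1 := h
    change jd b = y
    linear_combination y * h1 - jd b * h'

end Fld

/-! ### The field of invariants -/

section Inv

variable {p : ℕ} [hp : Fact p.Prime] {G : Type} [Group G]

/-- the invariants of `B_dR` -/
def Kin (α : G → GQp p) : Submodule ℚ_[p] (BdR p) where
  carrier := {b | ∀ g, galD (α g) b = b}
  add_mem' := by
    intro x y hx hy g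
    rw [map_add, hx g, hy g]
  zero_mem' := fun g => map_zero _
  smul_mem' := by
    intro c x hx g
    rw [map_smul, hx g]

theorem mem_Kin (α : G → GQp p) (b : BdR p) : b ∈ Kin α ↔ ∀ g, galD (α g) b = b := Iff.rfl

theorem Kin_mul {α : G → GQp p} {x y : BdR p} (hx : x ∈ Kin α) (hy : y ∈ Kin α) :
    x * y ∈ Kin α := by
  intro g
  rw [map_mul, hx g, hy g]

theorem Kin_inv {α : G → GQp p} {x y : BdR p} (hx : x ∈ Kin α) (h : x * y = 1) : y ∈ Kin α := by
  intro g
  have h1 : x * galD (α g) y = 1 := by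
    have := congrArg (galD (α g)) h
    rw [map_mul, hx g, map_one] at this
    exact this
  linear_combination y * h1 - (galD (α g) y) * h

/-- multiplication by an element of the field of invariants -/
def mulK {α : G → GQp p} (a : Kin α) : Kin α →ₗ[ℚ_[p]] Kin α where
  toFun k := ⟨(a : BdR p) * k, Kin_mul a.2 k.2⟩
  map_add' x y := Subtype.ext (mul_add _ _ _)
  map_smul' c x := Subtype.ext (mul_smul_comm _ _ _)

/-- the elements `k` for which `k * c` lies in `B_dR⁺` -/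
def Ic (α : G → GQp p) (c : BdR p) : Submodule ℚ_[p] (Kin α) where
  carrier := {k | (k : BdR p) * c ∈ DpS p}
  add_mem' := by
    intro x y hx hy
    change ((x : BdR p) + (y : BdR p)) * c ∈ DpS p
    rw [add_mul]
    exact add_mem hx hy
  zero_mem' := by
    change (0 : BdR p) * c ∈ DpS p
    rw [zero_mul]
    exact zero_mem _
  smul_mem' := by
    intro q x hx
    change (q • (x : BdR p)) * c ∈ DpS p
    rw [smul_mul_assoc]
    exact (DpS p).smul_mem hx q

theorem mem_Ic {α : G → GQp p} {c : BdR p} (k : Kin α) :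
    k ∈ Ic α c ↔ (k : BdR p) * c ∈ DpS p := Iff.rfl

theorem finite_quot {α : G → GQp p} {c : BdR p} {Q : Type} [AddCommGroup Q] [Module ℚ_[p] Q]
    [FiniteDimensional ℚ_[p] Q] (f : Kin α →ₗ[ℚ_[p]] Q)
    (hf : ∀ k, f k = 0 → (k : BdR p) * c ∈ DpS p) : Module.Finite ℚ_[p] (Kin α ⧸ Ic α c) := by
  have h1 : Module.Finite ℚ_[p] (Kin α ⧸ LinearMap.ker f) :=
    Module.Finite.equiv f.quotKerEquivRange.symm
  have h2 : LinearMap.ker f ≤ Ic α c := fun k hk => hf k hk
  exact Module.Finite.of_surjective (Submodule.factor h2) (Submodule.factor_surjective h2)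

theorem finite_Kin {α : G → GQp p} {c : BdR p} (hc : c ∉ DpS p)
    (hq : Module.Finite ℚ_[p] (Kin α ⧸ Ic α c)) : Module.Finite ℚ_[p] (Kin α) := by
  -- multiplication by elements of `B_dR⁺`
  have key : ∀ a b : BdR p, a ∈ Kin α → a ∈ DpS p → a * b = 1 → b ∈ DpS p := by
    intro a b haK haD hab
    have hbK : b ∈ Kin α := Kin_inv haK hab
    rcases unit_or haD b hab with h | h
    · exact h
    · exfalso
      obtain ⟨N, hN⟩ := h c
      let μ : Kin α →ₗ[ℚ_[p]] Kin α := mulK ⟨a, haK⟩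
      have hle : Ic α c ≤ (Ic α c).comap μ := by
        intro k hk
        change (a * (k : BdR p)) * c ∈ DpS p
        rw [mul_assoc]
        exact mul_mem haD hk
      have hs : Function.Surjective (Submodule.mapQ (Ic α c) (Ic α c) μ hle) := by
        intro y
        obtain ⟨k, rfl⟩ := Submodule.Quotient.mk_surjective _ y
        refine ⟨Submodule.Quotient.mk ⟨b * (k : BdR p), Kin_mul hbK k.2⟩, ?_⟩
        rw [Submodule.mapQ_apply]
        congr 1
        apply Subtype.ext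
        change a * (b * (k : BdR p)) = k
        rw [← mul_assoc, hab, one_mul]
      have hi : Function.Injective (Submodule.mapQ (Ic α c) (Ic α c) μ hle) :=
        LinearMap.injective_iff_surjective.2 hs
      have step : ∀ k : Kin α, (a * (k : BdR p)) * c ∈ DpS p → (k : BdR p) * c ∈ DpS p := by
        intro k hk
        have h1 : Submodule.mapQ (Ic α c) (Ic α c) μ hle (Submodule.Quotient.mk k) = 0 := by
          rw [Submodule.mapQ_apply, Submodule.Quotient.mk_eq_zero]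
          exact hk
        have h2 := hi (h1.trans (map_zero _).symm)
        rw [Submodule.Quotient.mk_eq_zero] at h2
        exact h2
      have hpow : ∀ M : ℕ, a ^ M ∈ Kin α := by
        intro M
        induction M with
        | zero => intro g; rw [pow_zero, map_one]
        | succ M ih => rw [pow_succ]; exact Kin_mul ih haK
      have hdown : ∀ M : ℕ, a ^ M * c ∈ DpS p → c ∈ DpS p := by
        intro M
        induction M with
        | zero => intro h; rwa [pow_zero, one_mul] at h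
        | succ M ih =>
          intro h
          apply ih
          apply step ⟨a ^ M, hpow M⟩
          change (a * a ^ M) * c ∈ DpS p
          rw [← pow_succ']
          exact h
      exact hc (hdown N hN)
  have hbot : Ic α c = ⊥ := by
    rw [eq_bot_iff]
    intro k hk
    rw [Submodule.mem_bot]
    by_contra hk0
    have hk1 : (k : BdR p) ≠ 0 := fun h => hk0 (Subtype.ext h)
    obtain ⟨y, hy⟩ := exists_inv hk1
    have hyK : y ∈ Kin α := Kin_inv k.2 hy
    have hyD : y ∈ DpS p := by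
      rcases mem_or hy with h | h
      · exact key _ _ k.2 h hy
      · exact h
    apply hc
    have h1 := mul_mem hyD ((mem_Ic k).1 hk)
    rw [← mul_assoc, mul_comm y, hy, one_mul] at h1
    exact h1
  exact Module.Finite.equiv (Submodule.quotEquivOfEqBot (Ic α c) hbot)

end Inv

/-! ### Finiteness of `D_dR` -/

section AbsQ

theorem abs_codim {L M : Type} [Field L] [AddCommGroup M] [Module L M] (S T : Submodule L M)
    (h : BKOdd.codimIn S T ≠ 0) :
    Module.Finite L (S ⧸ T.submoduleOf S) ∧ ∃ x : M, x ∈ S ∧ x ∉ T := by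
  unfold BKOdd.codimIn at h
  refine ⟨Module.finite_of_finrank_pos (Nat.pos_of_ne_zero h), ?_⟩
  by_contra hn
  push Not at hn
  apply h
  have : Subsingleton (S ⧸ T.submoduleOf S) := by
    refine ⟨fun a b => ?_⟩
    obtain ⟨x, rfl⟩ := Submodule.Quotient.mk_surjective _ a
    obtain ⟨y, rfl⟩ := Submodule.Quotient.mk_surjective _ b
    rw [Submodule.Quotient.eq]
    exact hn ((x - y : S) : M) (x - y).2
  exact Module.finrank_zero_of_subsingleton

theorem abs_quot {p : ℕ} [Fact p.Prime] {L M : Type} [Field L] [Algebra ℚ_[p] L]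
    [Module.Finite ℚ_[p] L] [AddCommGroup M] [Module ℚ_[p] M] [Module L M]
    [IsScalarTower ℚ_[p] L M] (S T : Submodule L M)
    (h : Module.Finite L (S ⧸ T.submoduleOf S)) :
    ∃ (Q : Type) (_ : AddCommGroup Q) (_ : Module ℚ_[p] Q) (_ : FiniteDimensional ℚ_[p] Q)
      (f : S →ₗ[ℚ_[p]] Q), ∀ x, f x = 0 → (x : M) ∈ T := by
  refine ⟨S ⧸ T.submoduleOf S, inferInstance, inferInstance, Module.Finite.trans L _,
    (T.submoduleOf S).mkQ.restrictScalars ℚ_[p], fun x hx => ?_⟩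
  have h1 : (Submodule.Quotient.mk x : S ⧸ T.submoduleOf S) = 0 := hx
  rw [Submodule.Quotient.mk_eq_zero] at h1
  exact h1

end AbsQ

section Fin

variable {p : ℕ} [hp : Fact p.Prime] {G : Type} [Group G] {L : Type} [NormedField L]
  [NormedAlgebra ℚ_[p] L] [FiniteDimensional ℚ_[p] L] {n : ℕ}

/-- the multiples of an element -/
def mulX (α : G → GQp p) (ρ : G →* GL (Fin n) L)
    (x : DB (BKOdd.lin ρ) (fun g => galD (α g))) :
    Kin α →ₗ[ℚ_[p]] DB (BKOdd.lin ρ) (fun g => galD (α g)) where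
  toFun k := ⟨mulT (L := L) (k : BdR p) (x : (Fin n → L) ⊗[ℚ_[p]] BdR p), fun g => by
    rw [act_mulT, k.2 g, x.2 g]⟩
  map_add' k l := by
    apply Subtype.ext
    apply eq_of_coord
    intro i
    change coord (mulT (L := L) ((k : BdR p) + l) (x : (Fin n → L) ⊗[ℚ_[p]] BdR p)) i =
      coord (mulT (L := L) (k : BdR p) (x : (Fin n → L) ⊗[ℚ_[p]] BdR p) +
        mulT (L := L) (l : BdR p) (x : (Fin n → L) ⊗[ℚ_[p]] BdR p)) i
    rw [map_add, Finsupp.add_apply, coord_mulT, coord_mulT, coord_mulT, add_mul]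
  map_smul' c k := by
    apply Subtype.ext
    apply eq_of_coord
    intro i
    change coord (mulT (L := L) (c • (k : BdR p)) (x : (Fin n → L) ⊗[ℚ_[p]] BdR p)) i =
      coord (c • mulT (L := L) (k : BdR p) (x : (Fin n → L) ⊗[ℚ_[p]] BdR p)) i
    rw [map_smul, Finsupp.smul_apply, coord_mulT, coord_mulT, smul_mul_assoc]

/-- if `D_dR / Fil⁰` is finite and not zero then the field of invariants is finite -/
theorem dich (α : G → GQp p) (ρ : G →* GL (Fin n) L)
    (h : BKOdd.codimIn (DB (BKOdd.lin ρ) (fun g => galD (α g)))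
      (FilV L (Fin n → L) (DpS p)) ≠ 0) : Module.Finite ℚ_[p] (Kin α) := by
  obtain ⟨hfin, hx⟩ := abs_codim _ _ h
  obtain ⟨x, hxS, hxT⟩ := hx
  rw [mem_FilV] at hxT
  push Not at hxT
  obtain ⟨i, hi⟩ := hxT
  obtain ⟨Q, hQ1, hQ2, hQ3, f, hf⟩ := abs_quot (p := p) _ _ hfin
  refine finite_Kin hi (finite_quot (f.comp (mulX α ρ ⟨x, hxS⟩)) ?_)
  intro k hk
  have h2 : mulT (L := L) (k : BdR p) (x : (Fin n → L) ⊗[ℚ_[p]] BdR p) ∈
    FilV L (Fin n → L) (DpS p) := hf _ hk
  rw [mem_FilV] at h2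
  have h3 := h2 i
  rw [coord_mulT] at h3
  exact h3

/-- coordinates of the Galois action on `L ⊗ B_dR` -/
theorem coord_gR (f : BdR p →ₐ[ℚ_[p]] BdR p) (x : L ⊗[ℚ_[p]] BdR p) (i) :
    coord (gR L f x) i = f (coord x i) := by
  have h : gR L f x = lT (L := L) f x := by
    induction x with
    | zero => rw [map_zero, map_zero]
    | tmul c d => rfl
    | add x y hx hy => rw [map_add, map_add, hx, hy]
  rw [h, coord_lT (L := L)]

/-- the coordinates of an element of `D_dR` in a basis of invariants -/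
theorem fixed_coord {α : G → GQp p} {ρ : G →* GL (Fin n) L}
    {X : GL (Fin n) (L ⊗[ℚ_[p]] BdR p)}
    (hX : ∀ g, mR ℚ_[p] (BdR p) (ρ g : Matrix (Fin n) (Fin n) L) *
      (X : Matrix (Fin n) (Fin n) (L ⊗[ℚ_[p]] BdR p)).map (gR L (galD (α g))) =
        (X : Matrix (Fin n) (Fin n) (L ⊗[ℚ_[p]] BdR p)))
    {x : (Fin n → L) ⊗[ℚ_[p]] BdR p} (hx : x ∈ DB (BKOdd.lin ρ) (fun g => galD (α g))) (g : G)
    (i : Fin n) :
    gR L (galD (α g)) ((((X⁻¹ : GL (Fin n) (L ⊗[ℚ_[p]] BdR p)) :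
      Matrix (Fin n) (Fin n) (L ⊗[ℚ_[p]] BdR p)) *ᵥ Phi x) i) =
    (((X⁻¹ : GL (Fin n) (L ⊗[ℚ_[p]] BdR p)) :
      Matrix (Fin n) (Fin n) (L ⊗[ℚ_[p]] BdR p)) *ᵥ Phi x) i := by
  set Y : Matrix (Fin n) (Fin n) (L ⊗[ℚ_[p]] BdR p) :=
    ((X⁻¹ : GL (Fin n) (L ⊗[ℚ_[p]] BdR p)) : Matrix (Fin n) (Fin n) (L ⊗[ℚ_[p]] BdR p)) with hY
  set y := Y *ᵥ Phi x with hy
  have hXY : (X : Matrix (Fin n) (Fin n) (L ⊗[ℚ_[p]] BdR p)) * Y = 1 := by
    rw [hY, ← Units.val_mul, mul_inv_cancel, Units.val_one]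
  have hYX : Y * (X : Matrix (Fin n) (Fin n) (L ⊗[ℚ_[p]] BdR p)) = 1 := by
    rw [hY, ← Units.val_mul, inv_mul_cancel, Units.val_one]
  have h1 : Phi x = (X : Matrix (Fin n) (Fin n) (L ⊗[ℚ_[p]] BdR p)) *ᵥ y := by
    rw [hy, Matrix.mulVec_mulVec, hXY, Matrix.one_mulVec]
  have h2 : Phi x = mR ℚ_[p] (BdR p) (ρ g : Matrix (Fin n) (Fin n) L) *ᵥ
      (fun j => gR L (galD (α g)) (Phi x j)) := by
    have h3 := Phi_act ρ (fun g => galD (α g)) g x
    have h4 : act (rp ρ) (fun g => galD (α g)) g x = x := hx g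
    rw [h4] at h3
    exact h3
  have h5 : (fun j => gR L (galD (α g)) (Phi x j)) =
      (X : Matrix (Fin n) (Fin n) (L ⊗[ℚ_[p]] BdR p)).map (gR L (galD (α g))) *ᵥ
        (fun j => gR L (galD (α g)) (y j)) := by
    funext j
    rw [h1]
    simp only [Matrix.mulVec, dotProduct, map_sum, map_mul, Matrix.map_apply]
  have h6 : (X : Matrix (Fin n) (Fin n) (L ⊗[ℚ_[p]] BdR p)) *ᵥ y =
      (X : Matrix (Fin n) (Fin n) (L ⊗[ℚ_[p]] BdR p)) *ᵥ
        (fun j => gR L (galD (α g)) (y j)) := by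
    rw [← h1, h2, h5, Matrix.mulVec_mulVec, hX]
  have h7 : y = (fun j => gR L (galD (α g)) (y j)) := by
    have := congrArg (fun v => Y *ᵥ v) h6
    simp only [Matrix.mulVec_mulVec, hYX, Matrix.one_mulVec] at this
    exact this
  exact (congrFun h7 i).symm

/-- if the field of invariants is finite then `D_dR` is finite -/
theorem finite_D {α : G → GQp p} {ρ : G →* GL (Fin n) L}
    {X : GL (Fin n) (L ⊗[ℚ_[p]] BdR p)}
    (hX : ∀ g, mR ℚ_[p] (BdR p) (ρ g : Matrix (Fin n) (Fin n) L) *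
      (X : Matrix (Fin n) (Fin n) (L ⊗[ℚ_[p]] BdR p)).map (gR L (galD (α g))) =
        (X : Matrix (Fin n) (Fin n) (L ⊗[ℚ_[p]] BdR p)))
    (hK : Module.Finite ℚ_[p] (Kin α)) :
    Module.Finite L (DB (BKOdd.lin ρ) (fun g => galD (α g))) := by
  have hι : Finite (Module.Basis.ofVectorSpaceIndex ℚ_[p] L) :=
    Module.Finite.finite_basis (Module.Basis.ofVectorSpace ℚ_[p] L)
  set Y : Matrix (Fin n) (Fin n) (L ⊗[ℚ_[p]] BdR p) :=
    ((X⁻¹ : GL (Fin n) (L ⊗[ℚ_[p]] BdR p)) : Matrix (Fin n) (Fin n) (L ⊗[ℚ_[p]] BdR p)) with hY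
  have hXY : (X : Matrix (Fin n) (Fin n) (L ⊗[ℚ_[p]] BdR p)) * Y = 1 := by
    rw [hY, ← Units.val_mul, mul_inv_cancel, Units.val_one]
  let Θ : DB (BKOdd.lin ρ) (fun g => galD (α g)) →ₗ[ℚ_[p]]
      (Fin n → Module.Basis.ofVectorSpaceIndex ℚ_[p] L → Kin α) :=
    { toFun := fun x i t => ⟨coord ((Y *ᵥ Phi (x : (Fin n → L) ⊗[ℚ_[p]] BdR p)) i) t, fun g => by
        rw [← coord_gR, hY, fixed_coord hX x.2 g i]⟩
      map_add' := by
        intro x y
        funext i t
        apply Subtype.ext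
        change coord ((Y *ᵥ Phi ((x : (Fin n → L) ⊗[ℚ_[p]] BdR p) + y)) i) t =
          coord ((Y *ᵥ Phi (x : (Fin n → L) ⊗[ℚ_[p]] BdR p)) i) t +
          coord ((Y *ᵥ Phi (y : (Fin n → L) ⊗[ℚ_[p]] BdR p)) i) t
        rw [map_add, Matrix.mulVec_add, Pi.add_apply, map_add, Finsupp.add_apply]
      map_smul' := by
        intro c x
        funext i t
        apply Subtype.ext
        change coord ((Y *ᵥ Phi (c • (x : (Fin n → L) ⊗[ℚ_[p]] BdR p))) i) t =
          c • coord ((Y *ᵥ Phi (x : (Fin n → L) ⊗[ℚ_[p]] BdR p)) i) t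
        have h1 : Phi (c • (x : (Fin n → L) ⊗[ℚ_[p]] BdR p)) =
            c • Phi (x : (Fin n → L) ⊗[ℚ_[p]] BdR p) := by
          rw [← algebraMap_smul L c (x : (Fin n → L) ⊗[ℚ_[p]] BdR p), map_smul,
            algebraMap_smul]
        rw [h1, Matrix.mulVec_smul, Pi.smul_apply, map_smul, Finsupp.smul_apply] }
  have hΘ : Function.Injective Θ := by
    intro x y h
    apply Subtype.ext
    have h1 : Y *ᵥ Phi (x : (Fin n → L) ⊗[ℚ_[p]] BdR p) =
        Y *ᵥ Phi (y : (Fin n → L) ⊗[ℚ_[p]] BdR p) := by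
      funext i
      apply eq_of_coord
      intro t
      exact congrArg Subtype.val (congrFun (congrFun h i) t)
    have h2 := congrArg (fun v => (X : Matrix (Fin n) (Fin n) (L ⊗[ℚ_[p]] BdR p)) *ᵥ v) h1
    simp only [Matrix.mulVec_mulVec, hXY, Matrix.one_mulVec] at h2
    rw [← Psi_Phi (x : (Fin n → L) ⊗[ℚ_[p]] BdR p), h2, Psi_Phi]
  have h3 : Module.Finite ℚ_[p] (DB (BKOdd.lin ρ) (fun g => galD (α g))) :=
    Module.Finite.of_injective Θ hΘ
  exact Module.Finite.of_restrictScalars_finite ℚ_[p] L _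

end Fin

/-! ### Direct sums of subspaces -/

section Dir

variable {L M M₁ M₂ : Type} [Field L] [AddCommGroup M] [Module L M] [AddCommGroup M₁]
  [Module L M₁] [AddCommGroup M₂] [Module L M₂]

/-- `M` is the direct sum of `M₁` and `M₂` -/
structure Dir (A₁ : M →ₗ[L] M₁) (A₂ : M →ₗ[L] M₂) (B₁ : M₁ →ₗ[L] M) (B₂ : M₂ →ₗ[L] M) :
    Prop where
  h11 : ∀ x, A₁ (B₁ x) = x
  h12 : ∀ x, A₁ (B₂ x) = 0
  h21 : ∀ x, A₂ (B₁ x) = 0
  h22 : ∀ x, A₂ (B₂ x) = x
  sum : ∀ x, B₁ (A₁ x) + B₂ (A₂ x) = x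

variable {A₁ : M →ₗ[L] M₁} {A₂ : M →ₗ[L] M₂} {B₁ : M₁ →ₗ[L] M} {B₂ : M₂ →ₗ[L] M}

/-- the codimension in a direct sum -/
theorem codim_dir (D : Dir A₁ A₂ B₁ B₂) (S T : Submodule L M) (S₁ T₁ : Submodule L M₁)
    (S₂ T₂ : Submodule L M₂) (hS : ∀ x, x ∈ S ↔ A₁ x ∈ S₁ ∧ A₂ x ∈ S₂)
    (hT : ∀ x, x ∈ T ↔ A₁ x ∈ T₁ ∧ A₂ x ∈ T₂)
    (hf : (BKOdd.codimIn S T = 0 ∧ BKOdd.codimIn S₁ T₁ = 0 ∧ BKOdd.codimIn S₂ T₂ = 0) ∨
      (Module.Finite L S₁ ∧ Module.Finite L S₂)) :
    BKOdd.codimIn S T = BKOdd.codimIn S₁ T₁ + BKOdd.codimIn S₂ T₂ := by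
  rcases hf with ⟨h, h1, h2⟩ | ⟨h1, h2⟩
  · rw [h, h1, h2]
  · let Φ : S →ₗ[L] (S₁ ⧸ T₁.submoduleOf S₁) × (S₂ ⧸ T₂.submoduleOf S₂) :=
      LinearMap.prod
        ((T₁.submoduleOf S₁).mkQ.comp ((A₁.comp S.subtype).codRestrict S₁ fun x =>
          ((hS x).1 x.2).1))
        ((T₂.submoduleOf S₂).mkQ.comp ((A₂.comp S.subtype).codRestrict S₂ fun x =>
          ((hS x).1 x.2).2))
    have hsurj : Function.Surjective Φ := by
      rintro ⟨a, b⟩
      obtain ⟨x, rfl⟩ := Submodule.Quotient.mk_surjective _ a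
      obtain ⟨y, rfl⟩ := Submodule.Quotient.mk_surjective _ b
      have hz1 : A₁ (B₁ x + B₂ y) = x := by rw [map_add, D.h11, D.h12, add_zero]
      have hz2 : A₂ (B₁ x + B₂ y) = y := by rw [map_add, D.h21, D.h22, zero_add]
      have hz : B₁ x + B₂ y ∈ S := by
        rw [hS, hz1, hz2]
        exact ⟨x.2, y.2⟩
      refine ⟨⟨B₁ x + B₂ y, hz⟩, ?_⟩
      refine Prod.ext ?_ ?_
      · change Submodule.Quotient.mk _ = Submodule.Quotient.mk _
        congr 1
        exact Subtype.ext hz1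
      · change Submodule.Quotient.mk _ = Submodule.Quotient.mk _
        congr 1
        exact Subtype.ext hz2
    have hker : LinearMap.ker Φ = T.submoduleOf S := by
      ext x
      rw [LinearMap.mem_ker]
      constructor
      · intro h
        have e1 := congrArg Prod.fst h
        have e2 := congrArg Prod.snd h
        have e1' : (Submodule.Quotient.mk (⟨A₁ x, ((hS x).1 x.2).1⟩ : S₁) :
          S₁ ⧸ T₁.submoduleOf S₁) = 0 := e1
        have e2' : (Submodule.Quotient.mk (⟨A₂ x, ((hS x).1 x.2).2⟩ : S₂) :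
          S₂ ⧸ T₂.submoduleOf S₂) = 0 := e2
        rw [Submodule.Quotient.mk_eq_zero] at e1' e2'
        exact (hT x).2 ⟨e1', e2'⟩
      · intro h
        have h' := (hT x).1 h
        refine Prod.ext ?_ ?_
        · change (Submodule.Quotient.mk (⟨A₁ x, ((hS x).1 x.2).1⟩ : S₁) :
            S₁ ⧸ T₁.submoduleOf S₁) = 0
          rw [Submodule.Quotient.mk_eq_zero]
          exact h'.1
        · change (Submodule.Quotient.mk (⟨A₂ x, ((hS x).1 x.2).2⟩ : S₂) :
            S₂ ⧸ T₂.submoduleOf S₂) = 0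
          rw [Submodule.Quotient.mk_eq_zero]
          exact h'.2
    have e := (Submodule.quotEquivOfEq _ _ hker.symm).trans
      (Φ.quotKerEquivOfSurjective hsurj)
    unfold BKOdd.codimIn
    rw [e.finrank_eq, Module.finrank_prod]

end Dir

/-! ### The direct sum -/

section Blk

variable {R : Type} [CommRing R] {n n' : ℕ}

/-- the first component -/
def c1 (R : Type) [CommRing R] (n n' : ℕ) : (Fin (n + n') → R) →ₗ[R] (Fin n → R) :=
  LinearMap.funLeft R R (fun i => finSumFinEquiv (Sum.inl i))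

/-- the second component -/
def c2 (R : Type) [CommRing R] (n n' : ℕ) : (Fin (n + n') → R) →ₗ[R] (Fin n' → R) :=
  LinearMap.funLeft R R (fun i => finSumFinEquiv (Sum.inr i))

/-- the first inclusion -/
def i1 (R : Type) [CommRing R] (n n' : ℕ) : (Fin n → R) →ₗ[R] (Fin (n + n') → R) where
  toFun v k := Sum.elim v 0 (finSumFinEquiv.symm k)
  map_add' v w := by
    funext k
    rw [Pi.add_apply]
    rcases finSumFinEquiv.symm k with i | i
    · rfl
    · exact (add_zero _).symm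
  map_smul' c v := by
    funext k
    rw [Pi.smul_apply]
    rcases finSumFinEquiv.symm k with i | i
    · rfl
    · exact (smul_zero _).symm

/-- the second inclusion -/
def i2 (R : Type) [CommRing R] (n n' : ℕ) : (Fin n' → R) →ₗ[R] (Fin (n + n') → R) where
  toFun v k := Sum.elim 0 v (finSumFinEquiv.symm k)
  map_add' v w := by
    funext k
    rw [Pi.add_apply]
    rcases finSumFinEquiv.symm k with i | i
    · exact (add_zero _).symm
    · rfl
  map_smul' c v := by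
    funext k
    rw [Pi.smul_apply]
    rcases finSumFinEquiv.symm k with i | i
    · exact (smul_zero _).symm
    · rfl

theorem c1_i1 (v : Fin n → R) : c1 R n n' (i1 R n n' v) = v := by
  funext i
  change Sum.elim v (0 : Fin n' → R) (finSumFinEquiv.symm (finSumFinEquiv (Sum.inl i))) = v i
  rw [Equiv.symm_apply_apply]
  rfl

theorem c1_i2 (v : Fin n' → R) : c1 R n n' (i2 R n n' v) = 0 := by
  funext i
  change Sum.elim (0 : Fin n → R) v (finSumFinEquiv.symm (finSumFinEquiv (Sum.inl i))) = 0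
  rw [Equiv.symm_apply_apply]
  rfl

theorem c2_i1 (v : Fin n → R) : c2 R n n' (i1 R n n' v) = 0 := by
  funext i
  change Sum.elim v (0 : Fin n' → R) (finSumFinEquiv.symm (finSumFinEquiv (Sum.inr i))) = 0
  rw [Equiv.symm_apply_apply]
  rfl

theorem c2_i2 (v : Fin n' → R) : c2 R n n' (i2 R n n' v) = v := by
  funext i
  change Sum.elim (0 : Fin n → R) v (finSumFinEquiv.symm (finSumFinEquiv (Sum.inr i))) = v i
  rw [Equiv.symm_apply_apply]
  rfl

theorem i_c (v : Fin (n + n') → R) : i1 R n n' (c1 R n n' v) + i2 R n n' (c2 R n n' v) = v := by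
  funext k
  change Sum.elim (c1 R n n' v) (0 : Fin n' → R) (finSumFinEquiv.symm k) +
    Sum.elim (0 : Fin n → R) (c2 R n n' v) (finSumFinEquiv.symm k) = v k
  obtain ⟨s, rfl⟩ := finSumFinEquiv.surjective k
  rw [Equiv.symm_apply_apply]
  rcases s with i | i
  · exact add_zero _
  · exact zero_add _

theorem c1_blk (M : Matrix (Fin n) (Fin n) R) (M' : Matrix (Fin n') (Fin n') R)
    (v : Fin (n + n') → R) : c1 R n n' (blk M M' *ᵥ v) = M *ᵥ c1 R n n' v := by
  funext i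
  change (blk M M' *ᵥ v) (finSumFinEquiv (Sum.inl i)) = _
  unfold blk
  rw [Matrix.submatrix_mulVec_equiv, Function.comp_apply, Equiv.symm_apply_apply]
  simp only [Matrix.mulVec, dotProduct, Fintype.sum_sum_type, Matrix.fromBlocks_apply₁₁,
    Matrix.fromBlocks_apply₁₂, Matrix.zero_apply, zero_mul, Finset.sum_const_zero, add_zero]
  rfl

theorem c2_blk (M : Matrix (Fin n) (Fin n) R) (M' : Matrix (Fin n') (Fin n') R)
    (v : Fin (n + n') → R) : c2 R n n' (blk M M' *ᵥ v) = M' *ᵥ c2 R n n' v := by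
  funext i
  change (blk M M' *ᵥ v) (finSumFinEquiv (Sum.inr i)) = _
  unfold blk
  rw [Matrix.submatrix_mulVec_equiv, Function.comp_apply, Equiv.symm_apply_apply]
  simp only [Matrix.mulVec, dotProduct, Fintype.sum_sum_type, Matrix.fromBlocks_apply₂₁,
    Matrix.fromBlocks_apply₂₂, Matrix.zero_apply, zero_mul, Finset.sum_const_zero, zero_add]
  rfl

theorem blk_map {R' : Type} [CommRing R'] (f : R →+* R') (M : Matrix (Fin n) (Fin n) R)
    (M' : Matrix (Fin n') (Fin n') R) : (blk M M').map f = blk (M.map f) (M'.map f) := by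
  unfold blk
  rw [← Matrix.submatrix_map, Matrix.fromBlocks_map, Matrix.map_zero _ (map_zero f),
    Matrix.map_zero _ (map_zero f)]

end Blk

section Ten

variable {p : ℕ} [hp : Fact p.Prime] {L : Type} [NormedField L] [NormedAlgebra ℚ_[p] L]
  {n n' : ℕ} {B : Type} [CommRing B] [Algebra ℚ_[p] B]

/-- a linear map on the first factor -/
def tm (B : Type) [CommRing B] [Algebra ℚ_[p] B] {m m' : ℕ}
    (P : (Fin m → L) →ₗ[L] (Fin m' → L)) :
    (Fin m → L) ⊗[ℚ_[p]] B →ₗ[L] (Fin m' → L) ⊗[ℚ_[p]] B :=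
  AlgebraTensorModule.map P (LinearMap.id : B →ₗ[ℚ_[p]] B)

theorem tm_tmul {m m' : ℕ} (P : (Fin m → L) →ₗ[L] (Fin m' → L)) (v : Fin m → L) (b : B) :
    tm (p := p) B P (v ⊗ₜ b) = P v ⊗ₜ b := rfl

theorem dir_tm : Dir (tm (p := p) B (c1 L n n')) (tm (p := p) B (c2 L n n'))
    (tm (p := p) B (i1 L n n')) (tm (p := p) B (i2 L n n')) where
  h11 x := by
    induction x with
    | zero => rw [map_zero, map_zero]
    | tmul v b => rw [tm_tmul, tm_tmul, c1_i1]
    | add x y hx hy => rw [map_add, map_add, hx, hy]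
  h12 x := by
    induction x with
    | zero => rw [map_zero, map_zero]
    | tmul v b => rw [tm_tmul, tm_tmul, c1_i2, TensorProduct.zero_tmul]
    | add x y hx hy => rw [map_add, map_add, hx, hy, add_zero]
  h21 x := by
    induction x with
    | zero => rw [map_zero, map_zero]
    | tmul v b => rw [tm_tmul, tm_tmul, c2_i1, TensorProduct.zero_tmul]
    | add x y hx hy => rw [map_add, map_add, hx, hy, add_zero]
  h22 x := by
    induction x with
    | zero => rw [map_zero, map_zero]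
    | tmul v b => rw [tm_tmul, tm_tmul, c2_i2]
    | add x y hx hy => rw [map_add, map_add, hx, hy]
  sum x := by
    induction x with
    | zero => rw [map_zero, map_zero, map_zero, map_zero, add_zero]
    | tmul v b =>
      rw [tm_tmul, tm_tmul, tm_tmul, tm_tmul, ← TensorProduct.add_tmul, i_c]
    | add x y hx hy =>
      rw [map_add, map_add, map_add, map_add, add_add_add_comm, hx, hy]

theorem c1_act (M : Matrix (Fin n) (Fin n) L) (M' : Matrix (Fin n') (Fin n') L)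
    (f : B →ₐ[ℚ_[p]] B) (x : (Fin (n + n') → L) ⊗[ℚ_[p]] B) :
    tm (p := p) B (c1 L n n') (BKGlob.actM (blk M M') f x) =
      BKGlob.actM M f (tm (p := p) B (c1 L n n') x) := by
  induction x with
  | zero => rw [map_zero, map_zero, map_zero]
  | tmul v b => rw [BKGlob.actM_tmul, tm_tmul, tm_tmul, BKGlob.actM_tmul, c1_blk]
  | add x y hx hy => rw [map_add, map_add, map_add, map_add, hx, hy]

theorem c2_act (M : Matrix (Fin n) (Fin n) L) (M' : Matrix (Fin n') (Fin n') L)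
    (f : B →ₐ[ℚ_[p]] B) (x : (Fin (n + n') → L) ⊗[ℚ_[p]] B) :
    tm (p := p) B (c2 L n n') (BKGlob.actM (blk M M') f x) =
      BKGlob.actM M' f (tm (p := p) B (c2 L n n') x) := by
  induction x with
  | zero => rw [map_zero, map_zero, map_zero]
  | tmul v b => rw [BKGlob.actM_tmul, tm_tmul, tm_tmul, BKGlob.actM_tmul, c2_blk]
  | add x y hx hy => rw [map_add, map_add, map_add, map_add, hx, hy]

theorem tm_lT {m m' : ℕ} {B' : Type} [CommRing B'] [Algebra ℚ_[p] B']
    (P : (Fin m → L) →ₗ[L] (Fin m' → L)) (f : B →ₐ[ℚ_[p]] B')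
    (x : (Fin m → L) ⊗[ℚ_[p]] B) :
    tm (p := p) B' P (AlgebraTensorModule.lTensor L (Fin m → L) f.toLinearMap x) =
      AlgebraTensorModule.lTensor L (Fin m' → L) f.toLinearMap (tm (p := p) B P x) := by
  induction x with
  | zero => rw [map_zero, map_zero, map_zero, map_zero]
  | tmul v b => rfl
  | add x y hx hy => rw [map_add, map_add, map_add, map_add, hx, hy]

theorem ext_tm {x y : (Fin (n + n') → L) ⊗[ℚ_[p]] B}
    (h1 : tm (p := p) B (c1 L n n') x = tm (p := p) B (c1 L n n') y)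
    (h2 : tm (p := p) B (c2 L n n') x = tm (p := p) B (c2 L n n') y) : x = y := by
  rw [← (dir_tm (p := p) (L := L) (n := n) (n' := n') (B := B)).sum x, h1, h2,
    (dir_tm (p := p) (L := L) (n := n) (n' := n') (B := B)).sum y]

variable {F : Type} [Field F] (γ : GQp p → B →ₐ[ℚ_[p]] B) (H : Subgroup (GF F))
  (j : AlgebraicClosure F →+* PadicAlgCl p) (V : GF F →* GL (Fin n) L) (V' : GF F →* GL (Fin n') L)

theorem mem_DBat (x : (Fin (n + n') → L) ⊗[ℚ_[p]] B) :
    x ∈ BKOdd.DBat γ H j (dsum V V') ↔ tm (p := p) B (c1 L n n') x ∈ BKOdd.DBat γ H j V ∧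
      tm (p := p) B (c2 L n n') x ∈ BKOdd.DBat γ H j V' := by
  constructor
  · intro h
    refine ⟨fun g hg t hgt => ?_, fun g hg t hgt => ?_⟩
    · have h1 := congrArg (tm (p := p) B (c1 L n n')) (h g hg t hgt)
      have h2 := c1_act (V g : Matrix (Fin n) (Fin n) L) (V' g : Matrix (Fin n') (Fin n') L) (γ t) x
      exact h2.symm.trans h1
    · have h1 := congrArg (tm (p := p) B (c2 L n n')) (h g hg t hgt)
      have h2 := c2_act (V g : Matrix (Fin n) (Fin n) L) (V' g : Matrix (Fin n') (Fin n') L) (γ t) x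
      exact h2.symm.trans h1
  · rintro ⟨h1, h2⟩ g hg t hgt
    apply ext_tm
    · exact (c1_act (V g : Matrix (Fin n) (Fin n) L) (V' g : Matrix (Fin n') (Fin n') L)
        (γ t) x).trans (h1 g hg t hgt)
    · exact (c2_act (V g : Matrix (Fin n) (Fin n) L) (V' g : Matrix (Fin n') (Fin n') L)
        (γ t) x).trans (h2 g hg t hgt)

theorem mem_Fil0V (x : (Fin (n + n') → L) ⊗[ℚ_[p]] BdR p) :
    x ∈ BKOdd.Fil0V p L (n + n') ↔
      tm (p := p) (BdR p) (c1 L n n') x ∈ BKOdd.Fil0V p L n ∧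
      tm (p := p) (BdR p) (c2 L n n') x ∈ BKOdd.Fil0V p L n' := by
  constructor
  · rintro ⟨y, rfl⟩
    exact ⟨⟨tm (p := p) (BdRp p) (c1 L n n') y, (tm_lT _ _ _).symm⟩,
      ⟨tm (p := p) (BdRp p) (c2 L n n') y, (tm_lT _ _ _).symm⟩⟩
  · rintro ⟨⟨y, hy⟩, ⟨z, hz⟩⟩
    refine ⟨tm (p := p) (BdRp p) (i1 L n n') y + tm (p := p) (BdRp p) (i2 L n n') z, ?_⟩
    rw [map_add, ← tm_lT, ← tm_lT, hy, hz]
    exact (dir_tm (p := p) (L := L) (n := n) (n' := n') (B := BdR p)).sum x

end Ten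

section Fin2

variable {p : ℕ} [hp : Fact p.Prime] {F : Type} [Field F] {L : Type} [NormedField L]
  [NormedAlgebra ℚ_[p] L] {n n' : ℕ} (j : AlgebraicClosure F →+* PadicAlgCl p)
  (V : GF F →* GL (Fin n) L) (V' : GF F →* GL (Fin n') L)

theorem dR_dsum (h : BKOdd.DeRhamAt j V) (h' : BKOdd.DeRhamAt j V') :
    BKOdd.DeRhamAt j (dsum V V') := by
  obtain ⟨X, hX⟩ := h
  obtain ⟨X', hX'⟩ := h'
  refine ⟨blkG X X', fun g t hgt => ?_⟩
  change (blk (V g : Matrix (Fin n) (Fin n) L) (V' g : Matrix (Fin n') (Fin n') L)).map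
    (algebraMap L (L ⊗[ℚ_[p]] BdR p)) *
      (blk (X : Matrix (Fin n) (Fin n) (L ⊗[ℚ_[p]] BdR p))
        (X' : Matrix (Fin n') (Fin n') (L ⊗[ℚ_[p]] BdR p))).map
        ((Algebra.TensorProduct.map (AlgHom.id ℚ_[p] L) (galD t) :
          L ⊗[ℚ_[p]] BdR p →ₐ[ℚ_[p]] L ⊗[ℚ_[p]] BdR p) :
            L ⊗[ℚ_[p]] BdR p →+* L ⊗[ℚ_[p]] BdR p) =
      blk (X : Matrix (Fin n) (Fin n) (L ⊗[ℚ_[p]] BdR p))
        (X' : Matrix (Fin n') (Fin n') (L ⊗[ℚ_[p]] BdR p))
  rw [blk_map, blk_map, blk_mul]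
  congr 1
  · exact hX g t hgt
  · exact hX' g t hgt

theorem frob_dsum (H : Subgroup (GF F)) (h : BKOdd.FrobAt H j V) (h' : BKOdd.FrobAt H j V') :
    BKOdd.FrobAt H j (dsum V V') := by
  intro y hy
  rw [mem_DBat] at hy
  obtain ⟨a, ⟨ha, hay⟩, hau⟩ := h _ hy.1
  obtain ⟨b, ⟨hb, hby⟩, hbu⟩ := h' _ hy.2
  have D := dir_tm (p := p) (L := L) (n := n) (n' := n') (B := BCris p)
  set z := tm (p := p) (BCris p) (i1 L n n') a + tm (p := p) (BCris p) (i2 L n n') b with hz
  have hz1 : tm (p := p) (BCris p) (c1 L n n') z = a := by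
    rw [hz, map_add, D.h11, D.h12, add_zero]
  have hz2 : tm (p := p) (BCris p) (c2 L n n') z = b := by
    rw [hz, map_add, D.h21, D.h22, zero_add]
  refine ⟨z, ⟨?_, ?_⟩, ?_⟩
  · rw [mem_DBat, hz1, hz2]
    exact ⟨ha, hb⟩
  · apply ext_tm
    · rw [map_sub, tm_lT, hz1, hay]
    · rw [map_sub, tm_lT, hz2, hby]
  · rintro w ⟨hw, hwy⟩
    rw [mem_DBat] at hw
    apply ext_tm
    · rw [hz1]
      refine hau _ ⟨hw.1, ?_⟩
      rw [← tm_lT, ← map_sub, hwy]
    · rw [hz2]
      refine hbu _ ⟨hw.2, ?_⟩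
      rw [← tm_lT, ← map_sub, hwy]

variable [FiniteDimensional ℚ_[p] L]

theorem finite_DBat (h : BKOdd.DeRhamAt j V)
    (hK : Module.Finite ℚ_[p] (Kin fun d : BKOdd.PD j => BKOdd.toQ j d)) :
    Module.Finite L (BKOdd.DBat galD ⊤ j V) := by
  rw [BKOdd.DBat_eq]
  obtain ⟨X, hX⟩ := (BKOdd.deRhamAt_iff j V).1 h
  exact finite_D (X := X) hX hK

theorem tdim_zero (hK : ¬ Module.Finite ℚ_[p] (Kin fun d : BKOdd.PD j => BKOdd.toQ j d)) :
    BKOdd.codimIn (BKOdd.DBat galD ⊤ j V) (BKOdd.Fil0V p L n) = 0 := by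
  rw [BKOdd.DBat_eq, BKOdd.Fil0V_eq]
  by_contra h
  exact hK (dich _ _ h)

theorem tdim_dsum (h : BKOdd.DeRhamAt j V) (h' : BKOdd.DeRhamAt j V') :
    BKOdd.tdim j (dsum V V') = BKOdd.tdim j V + BKOdd.tdim j V' := by
  unfold BKOdd.tdim
  refine codim_dir (dir_tm (p := p) (L := L) (n := n) (n' := n') (B := BdR p)) _ _ _ _ _ _
    (mem_DBat galD ⊤ j V V') mem_Fil0V ?_
  by_cases hK : Module.Finite ℚ_[p] (Kin fun d : BKOdd.PD j => BKOdd.toQ j d)
  · exact Or.inr ⟨finite_DBat j V h hK, finite_DBat j V' h' hK⟩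
  · exact Or.inl ⟨tdim_zero j _ hK, tdim_zero j _ hK, tdim_zero j _ hK⟩

end Fin2

end FSUMT

/-- **Module SUMT.** -/
theorem stSumT : StSumT := by
  intro p _ F _ _ _ _ L _ _ _ n n' V V' j
  exact ⟨FSUMT.dR_dsum j V V', FSUMT.frob_dsum j V V' ⊤, FSUMT.tdim_dsum j V V'⟩

end BKT
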