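import Pool.Agent.Lib.MP_7c08ba_nt.T1.StF
import Pool.Agent.Lib.MP_7c08ba_nt.Met.FU0

set_option autoImplicit false

/-!
Parity for general residual representations, module U0T: the group of the elements which act
trivially on the reduction of the lattice, with their conjugates.
-/

noncomputable section

namespace BKT

open NumberField BKGen
open BKMet
open Matrix

namespace FU0T

/-! ### Matrices which are trivial modulo the maximal ideal -/

section Mat

variable {p : ℕ} [Fact p.Prime] {L : Type} [NormedField L] [NormedAlgebra ℚ_[p] L]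
  [FiniteDimensional ℚ_[p] L] {n : ℕ}

omit [FiniteDimensional ℚ_[p] L] in
theorem natCast_ne {m : ℕ} (hm : ¬ p ∣ m) : ((m : ℕ) : kk p L) ≠ 0 := by
  rw [Ne, CharP.cast_eq_zero_iff (kk p L) p]
  exact hm

omit [FiniteDimensional ℚ_[p] L] in
/-- A matrix of finite order prime to `p` which is trivial modulo the maximal ideal is trivial. -/
theorem eq_one (M : Matrix (Fin n) (Fin n) (OO p L)) {m : ℕ} (hm : ¬ p ∣ m) (h1 : M ^ m = 1)
    (h2 : M.map (IsLocalRing.residue (OO p L)) = 1) : M = 1 := by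
  have h3 : (M - 1) * ∑ i ∈ Finset.range m, M ^ i = 0 := by
    rw [mul_geom_sum, h1, sub_self]
  set W := ∑ i ∈ Finset.range m, M ^ i with hW
  let f : Matrix (Fin n) (Fin n) (OO p L) →+* Matrix (Fin n) (Fin n) (kk p L) :=
    (IsLocalRing.residue (OO p L)).mapMatrix
  have h4 : f W = (m : kk p L) • (1 : Matrix (Fin n) (Fin n) (kk p L)) := by
    have h5 : f M = 1 := h2
    rw [hW, map_sum]
    have h6 : ∀ i ∈ Finset.range m, f (M ^ i) = 1 := by
      intro i _
      rw [map_pow, h5, one_pow]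
    rw [Finset.sum_congr rfl h6, Finset.sum_const, Finset.card_range, ← Nat.cast_smul_eq_nsmul
      (kk p L)]
  have h5 : IsUnit W.det := by
    by_contra h
    have h6 : IsLocalRing.residue (OO p L) W.det = 0 :=
      (IsLocalRing.residue_eq_zero_iff _).2 ((IsLocalRing.mem_maximalIdeal _).2 h)
    rw [RingHom.map_det] at h6
    change (f W).det = 0 at h6
    rw [h4, det_smul, det_one, mul_one] at h6
    exact pow_ne_zero _ (natCast_ne hm) h6
  have h6 : M - 1 = 0 := by
    have h7 := congrArg (fun N => N * W⁻¹) h3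
    simp only [zero_mul] at h7
    rwa [Matrix.mul_assoc, Matrix.mul_nonsing_inv _ h5, Matrix.mul_one] at h7
  exact sub_eq_zero.1 h6

omit [FiniteDimensional ℚ_[p] L] in
theorem toL_inj {A B : GL (Fin n) (OO p L)} (h : toL p L n A = toL p L n B) : A = B := by
  apply Units.ext
  ext i j
  exact congrArg (fun C : GL (Fin n) L => (C : Matrix (Fin n) (Fin n) L) i j) h

/-- the reduction -/
def red (p : ℕ) [Fact p.Prime] (L : Type) [NormedField L] [NormedAlgebra ℚ_[p] L] (n : ℕ) :
    GL (Fin n) (OO p L) →* GL (Fin n) (kk p L) :=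
  Matrix.GeneralLinearGroup.map (IsLocalRing.residue (OO p L))

omit [FiniteDimensional ℚ_[p] L] in
theorem red_eq_one (A : GL (Fin n) (OO p L)) : red p L n A = 1 ↔
    (A : Matrix (Fin n) (Fin n) (OO p L)).map (IsLocalRing.residue (OO p L)) = 1 := by
  rw [← Units.val_inj]
  rfl

omit [FiniteDimensional ℚ_[p] L] in
theorem red_eq_one' (A : GL (Fin n) (OO p L)) : red p L n A = 1 ↔
    ∀ i j, ‖((toL p L n A : GL (Fin n) L) : Matrix (Fin n) (Fin n) L) i j -
      (1 : Matrix (Fin n) (Fin n) L) i j‖ < 1 := by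
  have h0 : ∀ i j, ((((1 : Matrix (Fin n) (Fin n) (OO p L)) i j : OO p L)) : L) =
      (1 : Matrix (Fin n) (Fin n) L) i j := by
    intro i j
    by_cases hij : i = j
    · subst hij
      rw [one_apply_eq, one_apply_eq]
      rfl
    · rw [one_apply_ne hij, one_apply_ne hij]
      rfl
  have h1 : ∀ i j, IsLocalRing.residue (OO p L) ((A : Matrix (Fin n) (Fin n) (OO p L)) i j) =
      (1 : Matrix (Fin n) (Fin n) (kk p L)) i j ↔
      ‖((toL p L n A : GL (Fin n) L) : Matrix (Fin n) (Fin n) L) i j -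
      (1 : Matrix (Fin n) (Fin n) L) i j‖ < 1 := by
    intro i j
    have h2 : (1 : Matrix (Fin n) (Fin n) (kk p L)) i j =
        IsLocalRing.residue (OO p L) ((1 : Matrix (Fin n) (Fin n) (OO p L)) i j) := by
      by_cases hij : i = j
      · subst hij
        rw [one_apply_eq, one_apply_eq, map_one]
      · rw [one_apply_ne hij, one_apply_ne hij, map_zero]
    rw [h2, ← sub_eq_zero, ← map_sub, IsLocalRing.residue_eq_zero_iff, OO.mem_max,
      ← h0 i j]
    rfl
  rw [red_eq_one]
  constructor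
  · intro h i j
    exact (h1 i j).1 (congrFun (congrFun h i) j)
  · intro h
    ext i j
    exact (h1 i j).2 (h i j)

theorem triv (A : GL (Fin n) (OO p L)) (h : red p L n A = 1) (x : Fin n → OO p L) :
    ∃ y : Fin n → OO p L,
      (A : Matrix (Fin n) (Fin n) (OO p L)) *ᵥ x - x = pi0 p L • y := by
  have h1 : ∀ i, pi0 p L ∣ ((A : Matrix (Fin n) (Fin n) (OO p L)) *ᵥ x - x) i := by
    intro i
    rw [← Ideal.mem_span_singleton, ← pi0_span, ← IsLocalRing.residue_eq_zero_iff, Pi.sub_apply,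
      map_sub, sub_eq_zero, RingHom.map_mulVec, (red_eq_one A).1 h, one_mulVec]
    rfl
  choose y hy using h1
  exact ⟨y, funext hy⟩

end Mat

end FU0T

open FU0T BKMet.FU0 in
/-- Module U0T. -/
theorem stU0T : StU0T := by
  intro p _ _ F _ _ _ _ c σ hcs L _ _ _ n V hV S ρ hρ P₀ hpP hin
  have hp : p.Prime := Fact.out
  let f : GF F →* GL (Fin n) (kk p L) × (ZMod p)ˣ := ((red p L n).comp ρ).prod (chp p F)
  let cj : GF F →* GF F := BKOdd.conj c σ hcs.h
  let f' : GF F →* (GL (Fin n) (kk p L) × (ZMod p)ˣ) × (GL (Fin n) (kk p L) × (ZMod p)ˣ) :=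
    f.prod (f.comp cj)
  have hf : ∀ g, f g = 1 ↔ red p L n (ρ g) = 1 ∧ chp p F g = 1 := by
    intro g
    constructor
    · intro h1
      exact ⟨congrArg Prod.fst h1, congrArg Prod.snd h1⟩
    · rintro ⟨h1, h2⟩
      exact Prod.ext h1 h2
  have hf' : ∀ g, g ∈ f'.ker ↔ f g = 1 ∧ f (cj g) = 1 := by
    intro g
    rw [MonoidHom.mem_ker]
    constructor
    · intro h1
      exact ⟨congrArg Prod.fst h1, congrArg Prod.snd h1⟩
    · rintro ⟨h1, h2⟩
      exact Prod.ext h1 h2
  have hcj : Continuous cj := BKOdd.Conj.continuous_conjO c σ hcs.h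
  have hcc : ∀ g, cj (cj g) = g := BKOdd.Conj.conj_conj hcs.h hcs.hc
  have hor : IsOpen {g : GF F | red p L n (ρ g) = 1} := by
    have h1 : {g : GF F | red p L n (ρ g) = 1} = ⋂ i, ⋂ j, {g : GF F |
        ‖((S * V g * S⁻¹ : GL (Fin n) L) : Matrix (Fin n) (Fin n) L) i j -
          (1 : Matrix (Fin n) (Fin n) L) i j‖ < 1} := by
      ext g
      rw [Set.mem_ofPred_eq, red_eq_one', hρ, Set.mem_iInter]
      simp only [Set.mem_iInter]
      rfl
    rw [h1]
    refine isOpen_iInter_of_finite fun i => isOpen_iInter_of_finite fun j => ?_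
    have h2 : Continuous fun g : GF F => (S : Matrix (Fin n) (Fin n) L) *
        (V g : Matrix (Fin n) (Fin n) L) * ((S⁻¹ : GL (Fin n) L) : Matrix (Fin n) (Fin n) L) :=
      (continuous_const.mul (Units.continuous_val.comp hV)).mul continuous_const
    have h3 : Continuous fun g : GF F =>
        ‖((S * V g * S⁻¹ : GL (Fin n) L) : Matrix (Fin n) (Fin n) L) i j -
          (1 : Matrix (Fin n) (Fin n) L) i j‖ :=
      ((h2.matrix_elem i j).sub continuous_const).norm
    exact isOpen_lt h3 continuous_const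
  have hof : IsOpen {g : GF F | f g = 1} := by
    have h1 : {g : GF F | f g = 1} = {g : GF F | red p L n (ρ g) = 1} ∩
        {g : GF F | chp p F g = 1} := by
      ext g
      rw [Set.mem_ofPred_eq, hf]
      rfl
    rw [h1]
    exact hor.inter isOpen_chp
  have hopen : IsOpen (f'.ker : Set (GF F)) := by
    have h1 : (f'.ker : Set (GF F)) = {g : GF F | f g = 1} ∩ cj ⁻¹' {g : GF F | f g = 1} := by
      ext g
      exact hf' g
    rw [h1]
    exact hof.inter (hof.preimage hcj)
  -- finite order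
  have hVρ : ∀ g, V g = 1 ↔ ρ g = 1 := by
    intro g
    constructor
    · intro h
      apply toL_inj
      rw [hρ, h, mul_one, mul_inv_cancel, map_one]
    · intro h
      have h1 := hρ g
      rw [h, map_one] at h1
      have h2 : S * V g * S⁻¹ * S = 1 * S := by rw [← h1]
      rw [inv_mul_cancel_right, one_mul] at h2
      exact mul_eq_left.1 h2
  have hfi : ∀ (l : ℕ) [Fact l.Prime], l ∉ P₀ → ∀ j : AlgebraicClosure F →+* PadicAlgCl l,
      ∀ g ∈ Inert F (AlgebraicClosure F) j, ∃ m : ℕ, ¬ p ∣ m ∧ f (g ^ m) = 1 := by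
    intro l _ hl j g hg
    obtain ⟨m, hm, hVm⟩ := hin l hl j g hg
    refine ⟨m, hm, (hf _).2 ⟨?_, ?_⟩⟩
    · rw [← map_pow] at hVm
      rw [(hVρ _).1 hVm, map_one]
    · rw [map_pow, chp_inert ?_ j hg, one_pow]
      rintro rfl
      exact hl hpP
  refine ⟨f'.ker, inferInstance, hopen, ?_, ?_, ?_, ?_⟩
  · intro g hg
    exact (chp_eq_one g).1 ((hf g).1 ((hf' g).1 hg).1).2
  · intro g hg
    have h1 := (hf' g).1 hg
    refine (hf' (cj g)).2 ⟨h1.2, ?_⟩
    rw [hcc]
    exact h1.1
  · intro u hu x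
    exact triv (ρ u) ((hf u).1 ((hf' u).1 hu).1).1 x
  · intro l _ j hl g hg
    constructor
    · obtain ⟨m, hm, h1⟩ := hfi l hl j g hg
      obtain ⟨m', hm', h2⟩ := hfi l hl _ _ (BKOdd.Conj.conjO_inert c σ hcs.h j g hg)
      refine ⟨m * m', ?_, ?_⟩
      · rw [hp.dvd_mul]
        exact not_or.2 ⟨hm, hm'⟩
      · rw [hf']
        constructor
        · rw [pow_mul, map_pow, h1, one_pow]
        · have h3 : f (cj g ^ m') = 1 := h2
          have h4 : f (cj (g ^ (m * m'))) = f (cj g ^ m') ^ m := by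
            rw [map_pow cj, mul_comm m m', pow_mul, map_pow f]
          rw [h4, h3, one_pow]
    · intro hU
      obtain ⟨m, hm, hVm⟩ := hin l hl j g hg
      rw [hVρ]
      have h1 := ((hf g).1 ((hf' g).1 hU).1).1
      rw [← map_pow, hVρ, map_pow] at hVm
      apply Units.ext
      refine eq_one _ hm ?_ ((red_eq_one _).1 h1)
      rw [← Units.val_pow_eq_pow_val, hVm]
      rfl

end BKT
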