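import Pool.Agent.Lib.MP_7c08ba_nt.T1.StF
import Pool.Agent.Lib.MP_7c08ba_nt.Met.V.UNR

set_option autoImplicit false

/-!
Parity for general residual representations, module UNRT: cocycles which are unramified away
from `p`. An open subgroup of a compact group has finite index, so this is the module UNR of
`Met/V`.
-/

noncomputable section

namespace BKT

open BKGen BKMet

/-- Module UNRT. -/
theorem stUnrT : StUnrT := by
  intro p _ F _ _ hF c σ hcs L _ _ _ n V hV Λ hp U hUn hUo hur hloc x hx
  have hi : U.index ≠ 0 := by
    have : Finite (GF F ⧸ U) := U.quotient_finite_of_isOpen hUo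
    exact Subgroup.index_ne_zero_of_finite
  exact BKV.stUnr p F hF c σ hcs L n V hV Λ hp U hUn hi hur hloc x hx

end BKT
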