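import Pool.Agent.Lib.MP_7c08ba_nt.T1.StG

set_option autoImplicit false

/-!
Parity for general residual representations, module ART2: the arithmetic theorem.
-/

noncomputable section

namespace BKT

open NumberField IsDedekindDomain BKGen
open BKPar (Loc1 Loc2)
open BKND (Sm)
open BKMet
open BKLoc2 (Sys IsLam StLam)
open BKGlob2 (Cp fs CC0 Prin SP InvL StLI StCY StCP StCJ StPL StPR StRE StSA)
open BKV (RU GU dc)

namespace GART2

/-- There are finitely many subgroups which contain an open normal subgroup. -/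
theorem finite_ge {G : Type} [Group G] [TopologicalSpace G] [IsTopologicalGroup G]
    [CompactSpace G] (U : Subgroup G) [U.Normal] (hU : IsOpen (U : Set G)) :
    Finite {A : Subgroup G // U ≤ A} := by
  have : Finite (G ⧸ U) := Subgroup.quotient_finite_of_isOpen U hU
  exact Finite.of_equiv _ (QuotientGroup.comapMk'OrderIso U).toEquiv

/-- The primes for the field fixed by `A`. -/
theorem primes (hPR : StPR) {F : Type} [Field F] [NumberField F] (P₀ : Set ℕ) (hP₀ : P₀.Finite)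
    (U : Subgroup (GF F)) (hU : IsOpen (U : Set (GF F))) (A : {A : Subgroup (GF F) // U ≤ A}) :
    ∃ P : Set ℕ, P.Finite ∧ P.Nonempty ∧ (∀ l ∈ P, l ∉ P₀ ∧ Splits F l) ∧
      ∀ (E : IntermediateField F (AlgebraicClosure F)) [NumberField E],
        (∀ x, x ∈ E ↔ ∀ g ∈ A.1, g x = x) → Prin (SP E P) := by
  have hAo : IsOpen (A.1 : Set (GF F)) := Subgroup.isOpen_mono A.2 hU
  have hAcl : IsClosed (A.1 : Set (GF F)) := A.1.isClosed_of_isOpen hAo
  have hfix : (IntermediateField.fixedField A.1).fixingSubgroup = A.1 :=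
    InfiniteGalois.fixingSubgroup_fixedField (⟨A.1, hAcl⟩ : ClosedSubgroup (GF F))
  have hEfd : FiniteDimensional F (IntermediateField.fixedField A.1) := by
    rw [← InfiniteGalois.isOpen_iff_finite]
    change IsOpen ((IntermediateField.fixedField A.1).fixingSubgroup : Set (GF F))
    rw [hfix]
    exact hAo
  have hEnf : NumberField (IntermediateField.fixedField A.1) := NumberField.of_module_finite F _
  obtain ⟨P, hP1, hP2, hP3, hP4⟩ := hPR (IntermediateField.fixedField A.1) P₀ hP₀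
  refine ⟨P, hP1, hP2, fun l hl => ⟨(hP3 l hl).1, ?_⟩, ?_⟩
  · obtain ⟨-, hF, ⟨f⟩⟩ := hP3 l hl
    exact ⟨hF, ⟨f.comp (algebraMap F (IntermediateField.fixedField A.1))⟩⟩
  · intro E _ hE
    have : E = IntermediateField.fixedField A.1 := by
      ext x
      rw [hE, IntermediateField.mem_fixedField_iff]
    subst this
    exact hP4

end GART2

theorem stArithT (h1 : StLog) (h2 : StGlt) (h3 : StGca) (h4 : StUit) (hLI : StLI) (hLam : StLam)
    (hCY : StCY) (_hCP : StCP) (hCJ : StCJ) (hPL : StPL) (hPR : StPR) (hSA : StSA) (hRE : StRE) :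
    StArithT := by
  intro p _ hp F _ _ hF2 hFreal hFp c₀ hc₀ P₀ hP₀fin hP₀split hpP₀ U₀ hU₀n hU₀o hU₀ζ hU₀r hU₀c
  classical
  -- the primes
  have hfin := GART2.finite_ge U₀ hU₀o
  choose PA hPA1 hPA2 hPA3 hPA4 using GART2.primes hPR P₀ hP₀fin U₀ hU₀o
  have hP₁fin : (⋃ A, PA A).Finite := Set.finite_iUnion hPA1
  obtain ⟨l₁, hl₁⟩ := hPA2 ⟨U₀, le_rfl⟩
  have hsplit : ∀ l ∈ P₀ ∪ ⋃ A, PA A, Splits F l := by
    rintro l (hl | hl)
    · exact hP₀split l hl
    · obtain ⟨A, hA⟩ := Set.mem_iUnion.1 hl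
      exact (hPA3 A l hA).2
  obtain ⟨Λ, hΛ⟩ := hPL F (P₀ ∪ ⋃ A, PA A) (hP₀fin.union hP₁fin) hsplit
  have hPsub : P₀ ⊆ Λ.P := by rw [hΛ]; exact Set.subset_union_left
  have hpΛ : p ∈ Λ.P := hPsub hpP₀
  refine ⟨Λ, hPsub, ⟨l₁, ?_, ?_⟩, ?_⟩
  · rw [hΛ]; exact Or.inr (Set.mem_iUnion.2 ⟨_, hl₁⟩)
  · rintro rfl
    exact (hPA3 _ l₁ hl₁).1 hpP₀
  have hsplitΛ : ∀ i, Splits F (Λ.l i) := fun i => hsplit _ (by rw [← hΛ]; exact ⟨i, rfl⟩)
  have hinr : ∀ (l : ℕ) [Fact l.Prime] (j : AlgebraicClosure F →+* PadicAlgCl l), l ∉ Λ.P →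
      ∀ g ∈ Inert F (AlgebraicClosure F) j, ∃ m : ℕ, ¬ p ∣ m ∧ g ^ m ∈ U₀ :=
    fun l _ j hl g hg => hU₀r l j (fun h => hl (hPsub h)) g hg
  have hsit : SitT p F Λ.P U₀ :=
    { odd := hp
      memP := hpΛ
      finP := by rw [hΛ]; exact hP₀fin.union hP₁fin
      prime := fun l hl => by
        obtain ⟨h, -⟩ := hsplit l (by rw [← hΛ]; exact hl)
        exact h.out
      open' := hU₀o
      normal := hU₀n
      root := hU₀ζ
      inr := hinr
      prin := by
        intro A' hA' E _ hE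
        refine (hSA E).1 _ _ ?_ (hPA4 ⟨A', hA'⟩ E hE)
        rintro v ⟨l, hl, hv⟩
        exact ⟨l, by rw [hΛ]; exact Or.inr (Set.mem_iUnion.2 ⟨_, hl⟩), hv⟩ }
  intro χ c hχ hc
  obtain ⟨⟨cc, hcc⟩, -⟩ := hCJ F hF2 hFreal c₀ hc₀
  have hccc : ∀ g : GF F, c (QuotientGroup.mk g) = QuotientGroup.mk (cc g) := fun g =>
    hc g (cc g) fun z => hcc.eq g z
  have hsiq : SiqT p F U₀ Λ c₀ cc := ⟨hsit, hF2, hFreal, hcc⟩
  -- the invariants
  obtain ⟨⟨lam, hlam⟩, -⟩ := hLam p hp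
  obtain ⟨⟨z, hz⟩, -⟩ := hCY p F (AlgebraicClosure F) F (AlgebraicClosure F)
  have hzi : ∀ i, Sys p (fun n => Λ.j i (z n)) := fun i =>
    { prim := fun n => (hz.prim n).map_of_injective (Λ.j i).injective
      pow := fun n => by rw [← map_pow, hz.pow] }
  choose inv hinv hInvL using fun i => hLI p hp lam hlam (Λ.l i) (fun n => Λ.j i (z n)) (hzi i)
  have hmk : Continuous (QuotientGroup.mk' (RU F Λ.P U₀)) := QuotientGroup.continuous_mk
  refine ⟨inv, ?_, ?_, ?_⟩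
  · exact fun i => h1 p (Λ.l i) hp (inv i) (hinv i).inv_eq
  · refine ⟨?_, ?_, ?_⟩
    · intro A A' hA k _ _ _ ψ hψ
      exact (h2 p F hF2 hFreal c₀ cc hcc Λ U₀ hsit c hccc A A' hA k ψ hψ).1
    · intro A A' hA k _ _ _ ψ hψ
      exact (h2 p F hF2 hFreal c₀ cc hcc Λ U₀ hsit c hccc A A' hA k ψ hψ).2
    · intro A A' hA k _ _ _ ψ ψ' hψ hψ' hrel
      exact h3 p F U₀ Λ c₀ cc hsiq χ c hχ hccc A A' hA k ψ ψ' hψ hψ' hrel
  · intro z₂ hz₂
    -- inflation to `GF F`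
    have hinf : pb2 (QuotientGroup.mk' (RU F Λ.P U₀)) z₂ ∈ BKND.Z2 (actA (cycF p F)) := by
      obtain ⟨⟨W, hW, hW'⟩, h2⟩ := hz₂
      refine ⟨⟨W.comap (QuotientGroup.mk' (RU F Λ.P U₀)), hW.preimage hmk, ?_⟩, ?_⟩
      · intro g h w hw w' hw'
        change z₂ (QuotientGroup.mk' _ (g * w)) (QuotientGroup.mk' _ (h * w')) = _
        rw [map_mul, map_mul]
        exact hW' _ _ _ hw _ hw'
      · intro g h k
        have h3 := h2 (QuotientGroup.mk' _ g) (QuotientGroup.mk' _ h) (QuotientGroup.mk' _ k)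
        have h4 : ∀ x : QZ p, actA χ (QuotientGroup.mk' (RU F Λ.P U₀) g) x =
            actA (cycF p F) g x := by
          intro x
          rw [BKMet.actA_apply, BKMet.actA_apply]
          congr 2
          exact hχ g
        rw [h4] at h3
        exact h3
    have hrec := hRE p hp F hF2 hFreal c₀ cc hcc Λ hsplitΛ hpΛ lam hlam z hz inv hInvL
      (pb2 (QuotientGroup.mk' (RU F Λ.P U₀)) z₂) hinf ?_
    · rw [← hrec]
      refine Finset.sum_congr rfl fun i _ => ?_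
      have e1 : pb2 (Λ.loc (QuotientGroup.mk' (RU F Λ.P U₀)) c (i, false)) z₂ =
          pb2 (Λ.r i) (pb2 (QuotientGroup.mk' (RU F Λ.P U₀)) z₂) := rfl
      have e2 : pb2 (Λ.loc (QuotientGroup.mk' (RU F Λ.P U₀)) c (i, true)) z₂ =
          pb2 (cc.comp (Λ.r i)) (pb2 (QuotientGroup.mk' (RU F Λ.P U₀)) z₂) := by
        funext t t'
        change z₂ (c (QuotientGroup.mk (Λ.r i t))) (c (QuotientGroup.mk (Λ.r i t'))) =
          z₂ (QuotientGroup.mk (cc (Λ.r i t))) (QuotientGroup.mk (cc (Λ.r i t')))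
        rw [hccc, hccc]
      rw [e1, e2]
    · intro l _ hl j
      have h5 := h4 p hp F Λ.P U₀ hU₀n hU₀o hpΛ hinr χ hχ z₂ hz₂ l hl j
      have e1 : actA ((cycF p F).comp (fs (MonoidHom.id (GF F)) j)) =
          (actA χ).comp ((QuotientGroup.mk' (RU F Λ.P U₀)).comp (fs (MonoidHom.id (GF F)) j)) := by
        refine MonoidHom.ext fun d => AddMonoidHom.ext fun x => ?_
        change ((cycF p F (fs (MonoidHom.id (GF F)) j d) : ℤ_[p]ˣ) : ℤ_[p]) • x =
          ((χ (QuotientGroup.mk (fs (MonoidHom.id (GF F)) j d)) : ℤ_[p]ˣ) : ℤ_[p]) • x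
        rw [hχ]
      rw [e1]
      exact h5

end BKT
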