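import Pool.Agent.Lib.MP_7c08ba_nt.T1.StG

set_option autoImplicit false

/-!
Parity for general residual representations, part G, module BC: base change to the field fixed by
an open subgroup.
-/

noncomputable section

namespace BKT

open NumberField IsDedekindDomain BKGen
open BKPar (Loc1 Loc2)
open BKND (Sm)
open BKMet

namespace GBC

section

variable {F : Type} [Field F] [NumberField F] (E : IntermediateField F (AlgebraicClosure F))

theorem isClosure : IsAlgClosure E (AlgebraicClosure F) :=
  ⟨inferInstance, Algebra.IsAlgebraic.tower_top (K := F) E⟩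

/-- the isomorphism of the algebraic closures -/
def eqv : AlgebraicClosure E ≃ₐ[E] AlgebraicClosure F :=
  haveI := isClosure E
  IsAlgClosure.equiv E (AlgebraicClosure E) (AlgebraicClosure F)

/-- the map of the Galois groups -/
def bh : GF E →* GF F where
  toFun g := AlgEquiv.restrictScalars F ((eqv E).autCongr g)
  map_one' := by
    rw [map_one]
    rfl
  map_mul' g h := by
    rw [map_mul]
    rfl

theorem bh_apply (g : GF E) (x : AlgebraicClosure E) : bh E g (eqv E x) = eqv E (g x) := by
  change eqv E (g ((eqv E).symm (eqv E x))) = _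
  rw [AlgEquiv.symm_apply_apply]

theorem bh_apply' (g : GF E) (x : AlgebraicClosure F) :
    bh E g x = eqv E (g ((eqv E).symm x)) := rfl

theorem bh_inj : Function.Injective (bh E) := by
  intro g h hgh
  apply AlgEquiv.ext
  intro x
  apply (eqv E).injective
  rw [← bh_apply, ← bh_apply, hgh]

theorem bh_range : (bh E).range = E.fixingSubgroup := by
  ext y
  constructor
  · rintro ⟨g, rfl⟩
    rw [IntermediateField.mem_fixingSubgroup_iff]
    intro x hx
    have h1 : (eqv E).symm x = algebraMap E (AlgebraicClosure E) ⟨x, hx⟩ := by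
      rw [AlgEquiv.symm_apply_eq, AlgEquiv.commutes]
      rfl
    change bh E g x = x
    rw [bh_apply', h1, AlgEquiv.commutes, AlgEquiv.commutes]
    rfl
  · intro hy
    refine ⟨(eqv E).autCongr.symm (IntermediateField.fixingSubgroupEquiv E ⟨y, hy⟩), ?_⟩
    apply AlgEquiv.ext
    intro x
    change ((eqv E).autCongr ((eqv E).autCongr.symm
      (IntermediateField.fixingSubgroupEquiv E ⟨y, hy⟩))) x = y x
    rw [MulEquiv.apply_symm_apply]
    rfl

theorem bh_cont : Continuous (bh E) := by
  refine continuous_of_continuousAt_one (bh E) ?_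
  intro s hs
  rw [map_one, krullTopology_mem_nhds_one_iff] at hs
  obtain ⟨K, hK, hKs⟩ := hs
  rw [Filter.mem_map, krullTopology_mem_nhds_one_iff]
  let bas := Module.finBasis F K
  let T : Set (AlgebraicClosure E) :=
    Set.range fun i => (eqv E).symm ((bas i : K) : AlgebraicClosure F)
  have hTf : Finite T := Set.finite_range _
  refine ⟨IntermediateField.adjoin E T, ?_, ?_⟩
  · exact IntermediateField.finiteDimensional_adjoin fun x _ =>
      Algebra.IsIntegral.isIntegral (R := E) x
  · intro g hg
    apply hKs
    rw [SetLike.mem_coe, IntermediateField.mem_fixingSubgroup_iff] at hg ⊢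
    have hfix : ∀ i, bh E g ((bas i : K) : AlgebraicClosure F) = ((bas i : K) : AlgebraicClosure F) := by
      intro i
      have h1 := hg _ (IntermediateField.subset_adjoin E T ⟨i, rfl⟩)
      change g ((eqv E).symm ((bas i : K) : AlgebraicClosure F)) =
        (eqv E).symm ((bas i : K) : AlgebraicClosure F) at h1
      rw [bh_apply', h1, AlgEquiv.apply_symm_apply]
    intro x hx
    have h2 := congrArg (Subtype.val) (bas.sum_repr ⟨x, hx⟩)
    rw [AddSubmonoidClass.coe_finsetSum] at h2
    change ∑ i, ((bas.repr ⟨x, hx⟩ i • bas i : K) : AlgebraicClosure F) = x at h2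
    have h3 : ∀ i, ((bas.repr ⟨x, hx⟩ i • bas i : K) : AlgebraicClosure F) =
        bas.repr ⟨x, hx⟩ i • ((bas i : K) : AlgebraicClosure F) := fun i => rfl
    simp only [h3] at h2
    change bh E g x = x
    rw [← h2, map_sum]
    refine Finset.sum_congr rfl fun i _ => ?_
    have h4 : bh E g (bas.repr ⟨x, hx⟩ i • ((bas i : K) : AlgebraicClosure F)) =
        bas.repr ⟨x, hx⟩ i • bh E g ((bas i : K) : AlgebraicClosure F) :=
      by
      have h5 : ∀ (σ : AlgebraicClosure F ≃ₐ[F] AlgebraicClosure F) (c : F)
          (y : AlgebraicClosure F), σ (c • y) = c • σ y := fun σ c y => by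
            rw [Algebra.smul_def, map_mul, AlgEquiv.commutes, Algebra.smul_def]
      exact h5 (bh E g) _ _
    rw [h4, hfix]

end

end GBC

/-- Module BC. -/
theorem stBc : StBc := by
  intro F _ _ A hA
  have hcl : IsClosed (A : Set (GF F)) := A.isClosed_of_isOpen hA
  have hfix : (IntermediateField.fixedField A).fixingSubgroup = A :=
    InfiniteGalois.fixingSubgroup_fixedField (⟨A, hcl⟩ : ClosedSubgroup (GF F))
  let E : IntermediateField F (AlgebraicClosure F) := IntermediateField.fixedField A
  have hEfd : FiniteDimensional F E := by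
    rw [← InfiniteGalois.isOpen_iff_finite]
    change IsOpen ((IntermediateField.fixedField A).fixingSubgroup : Set (GF F))
    rw [hfix]
    exact hA
  have hEnf : NumberField E := NumberField.of_module_finite F E
  have hr : (GBC.bh E).range = A := (GBC.bh_range E).trans hfix
  refine ⟨E, inferInstance, hEnf, (GBC.eqv E).toRingEquiv, GBC.bh E, ?_, ?_, hr⟩
  · intro g x
    exact GBC.bh_apply E g x
  · have hce : Topology.IsClosedEmbedding (GBC.bh E) :=
      (GBC.bh_cont E).isClosedEmbedding (GBC.bh_inj E)
    refine ⟨hce.isEmbedding, ?_⟩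
    have h1 : Set.range (GBC.bh E) = (A : Set (GF F)) := by
      rw [← hr]
      rfl
    rw [h1]
    exact hA

end BKT
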