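import Pool.Agent.Lib.MP_7c08ba_nt.T1.GONA
import Pool.Agent.Lib.MP_7c08ba_nt.Met.HUA

set_option autoImplicit false

/-!
Module CEA: the Kummer description of `Z¹(A, k(ψ))` for the subgroups `A` of `GU F P U`.
-/

noncomputable section

namespace BKT

open NumberField IsDedekindDomain BKGen
open BKPar (Loc1 Loc2)
open BKMet
open BKLoc2 (hq ht PP)
open BKGlob2 (Cp fs sn US IsAct)
open BKV (RU GU dc)

namespace GCEA

section Cong

variable {Δ Δ' N X X' : Type*} [Group Δ] [Group Δ'] [AddCommGroup N] [AddCommGroup X]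
  [AddCommGroup X'] (p : ℕ) (ρ : Δ →* AddMonoid.End N) (ρ' : Δ' →* AddMonoid.End N)
  (a : Δ →* AddMonoid.End X) (a' : Δ' →* AddMonoid.End X') (ε : X ≃+ X') (R : Δ → Δ' → Prop)

include ε in
theorem ht_congr (hR : ∀ d, ∃ d', R d d') (hR' : ∀ d', ∃ d, R d d')
    (hρ : ∀ d d', R d d' → ρ d = ρ' d') (ha : ∀ d d', R d d' → ∀ x, ε (a d x) = a' d' (ε x)) :
    ht ρ a = ht ρ' a' := by
  refine Nat.card_congr ⟨fun f => ⟨ε.toAddMonoidHom.comp f.1, fun d' n => ?_⟩,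
    fun f => ⟨ε.symm.toAddMonoidHom.comp f.1, fun d n => ?_⟩, fun f => ?_, fun f => ?_⟩
  · obtain ⟨d, hd⟩ := hR' d'
    change ε (f.1 (ρ' d' n)) = a' d' (ε (f.1 n))
    rw [← hρ d d' hd, f.2 d n, ha d d' hd]
  · obtain ⟨d', hd⟩ := hR d
    change ε.symm (f.1 (ρ d n)) = a d (ε.symm (f.1 n))
    rw [hρ d d' hd, f.2 d' n, AddEquiv.symm_apply_eq, ha d d' hd, AddEquiv.apply_symm_apply]
  · apply Subtype.ext
    ext n
    exact ε.symm_apply_apply _
  · apply Subtype.ext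
    ext n
    exact ε.apply_symm_apply _

theorem pp_map : (PP p X).map ε.toAddMonoidHom = PP p X' := by
  ext y
  constructor
  · rintro ⟨x, ⟨z, rfl⟩, rfl⟩
    refine ⟨ε z, ?_⟩
    change p • ε z = ε (p • z)
    rw [map_nsmul]
  · rintro ⟨z, rfl⟩
    refine ⟨p • ε.symm z, ⟨ε.symm z, rfl⟩, ?_⟩
    change ε (p • ε.symm z) = p • z
    rw [map_nsmul, AddEquiv.apply_symm_apply]

/-- the isomorphism of the quotients by `p` -/
def qe : X ⧸ PP p X ≃+ X' ⧸ PP p X' :=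
  QuotientAddGroup.congr _ _ ε (pp_map p ε)

theorem qe_mk (x : X) : qe p ε (QuotientAddGroup.mk x) = QuotientAddGroup.mk (ε x) := rfl

include ε in
theorem hq_congr (hR : ∀ d, ∃ d', R d d') (hR' : ∀ d', ∃ d, R d d')
    (hρ : ∀ d d', R d d' → ρ d = ρ' d') (ha : ∀ d d', R d d' → ∀ x, ε (a d x) = a' d' (ε x)) :
    hq p ρ a = hq p ρ' a' := by
  refine Nat.card_congr ⟨fun f => ⟨(qe p ε).toAddMonoidHom.comp f.1, fun d' n x' hx => ?_⟩,
    fun f => ⟨(qe p ε).symm.toAddMonoidHom.comp f.1, fun d n x hx => ?_⟩, fun f => ?_,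
    fun f => ?_⟩
  · obtain ⟨d, hd⟩ := hR' d'
    obtain ⟨x, rfl⟩ := ε.surjective x'
    change qe p ε (f.1 n) = QuotientAddGroup.mk (ε x) at hx
    rw [← qe_mk] at hx
    have h1 := f.2 d n x ((qe p ε).injective hx)
    change qe p ε (f.1 (ρ' d' n)) = QuotientAddGroup.mk (a' d' (ε x))
    rw [← hρ d d' hd, h1, qe_mk, ha d d' hd]
  · obtain ⟨d', hd⟩ := hR d
    change (qe p ε).symm (f.1 n) = QuotientAddGroup.mk x at hx
    rw [AddEquiv.symm_apply_eq, qe_mk] at hx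
    have h1 := f.2 d' n (ε x) hx
    change (qe p ε).symm (f.1 (ρ d n)) = QuotientAddGroup.mk (a d x)
    rw [AddEquiv.symm_apply_eq, hρ d d' hd, h1, qe_mk, ha d d' hd]
  · apply Subtype.ext
    ext n
    exact (qe p ε).symm_apply_apply _
  · apply Subtype.ext
    ext n
    exact (qe p ε).apply_symm_apply _

end Cong

section Card

variable {G H : Type} [Group G] [TopologicalSpace G] [Group H] [TopologicalSpace H]
  {M : Type} [AddCommGroup M]

theorem mem_Z1 (τ : G ≃ₜ* H) (ρ : H →* AddMonoid.End M) (f : H → M) (hf : f ∈ BKND.Z1 ρ) :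
    (fun x => f (τ x)) ∈ BKND.Z1 (ρ.comp τ.toMulEquiv.toMonoidHom) := by
  refine ⟨?_, fun g h => ?_⟩
  · obtain ⟨W, hW, hWf⟩ := hf.1
    refine ⟨W.comap τ.toMulEquiv.toMonoidHom, hW.preimage τ.continuous, fun g w hw => ?_⟩
    show f (τ (g * w)) = f (τ g)
    rw [map_mul]
    exact hWf (τ g) (τ w) hw
  · show f (τ (g * h)) = f (τ g) + ρ (τ g) (f (τ h))
    rw [map_mul, hf.2 (τ g) (τ h)]

theorem mem_Z1' (τ : G ≃ₜ* H) (ρ : H →* AddMonoid.End M) (f : G → M)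
    (hf : f ∈ BKND.Z1 (ρ.comp τ.toMulEquiv.toMonoidHom)) :
    (fun x => f (τ.symm x)) ∈ BKND.Z1 ρ := by
  refine ⟨?_, fun g h => ?_⟩
  · obtain ⟨W, hW, hWf⟩ := hf.1
    refine ⟨W.comap τ.symm.toMulEquiv.toMonoidHom, hW.preimage τ.symm.continuous,
      fun g w hw => ?_⟩
    show f (τ.symm (g * w)) = f (τ.symm g)
    rw [map_mul]
    exact hWf (τ.symm g) (τ.symm w) hw
  · show f (τ.symm (g * h)) = f (τ.symm g) + ρ g (f (τ.symm h))
    have h1 : f (τ.symm g * τ.symm h) = f (τ.symm g) + ρ (τ (τ.symm g)) (f (τ.symm h)) :=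
      hf.2 (τ.symm g) (τ.symm h)
    rw [map_mul, h1, ContinuousMulEquiv.apply_symm_apply]

/-- isomorphic groups have the same cocycles -/
theorem card_Z1 (τ : G ≃ₜ* H) (ρ : H →* AddMonoid.End M) :
    Nat.card (BKND.Z1 (ρ.comp τ.toMulEquiv.toMonoidHom)) = Nat.card (BKND.Z1 ρ) := by
  symm
  refine Nat.card_congr
    { toFun := fun f => ⟨fun x => f.1 (τ x), mem_Z1 τ ρ f.1 f.2⟩
      invFun := fun f => ⟨fun x => f.1 (τ.symm x), mem_Z1' τ ρ f.1 f.2⟩
      left_inv := fun f => Subtype.ext (funext fun x => congrArg f.1 (τ.apply_symm_apply x))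
      right_inv := fun f => Subtype.ext (funext fun x => congrArg f.1 (τ.symm_apply_apply x)) }

theorem card_H0 (τ : G ≃ₜ* H) (ρ : H →* AddMonoid.End M) :
    Nat.card (BKND.H0 (ρ.comp τ.toMulEquiv.toMonoidHom)) = Nat.card (BKND.H0 ρ) := by
  refine Nat.card_congr (Equiv.subtypeEquivRight fun m => ⟨fun h g => ?_, fun h g => h (τ g)⟩)
  have h1 : ρ (τ (τ.symm g)) m = m := h (τ.symm g)
  rwa [ContinuousMulEquiv.apply_symm_apply] at h1

end Card

open GONA in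
theorem main (h3 : BKV.StCE) (h4 : BKV.StCT) (p : ℕ) [Fact p.Prime] (F : Type) [Field F]
    [NumberField F] (P : Set ℕ) (U : Subgroup (GF F)) (hS : SitT p F P U)
    (A A' : Subgroup (GU F P U)) (hA : Adm p (U.map (QuotientGroup.mk' (RU F P U))) A A')
    (F₁ : Type) [Field F₁] [NumberField F₁] (e : AlgebraicClosure F₁ ≃+* AlgebraicClosure F)
    (b₁ : GF F₁ →* GF F) (hBC : BC F (A.comap (QuotientGroup.mk' (RU F P U))) F₁ e b₁)
    (U₁ : Subgroup (GF F₁)) (hU₁ : ∀ g, g ∈ U₁ ↔ b₁ g ∈ A'.comap (QuotientGroup.mk' (RU F P U)))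
    (E₁ : IntermediateField F₁ (AlgebraicClosure F₁)) [NumberField E₁]
    (hsit : BKV.Sit p F₁ P U₁ E₁) (hcyc : ∀ g, cycF p F (b₁ g) = cycF p F₁ g)
    (τ : GU F₁ P U₁ ≃ₜ* A)
    (hτ : ∀ g : GF F₁, ((τ (QuotientGroup.mk g) : A) : GU F P U) = QuotientGroup.mk (b₁ g))
    (k : Type) [Field k] [Finite k] [Algebra (ZMod p) k] (ψ ψ' : A →* kˣ)
    (hψ : ∀ a : A, (a : GU F P U) ∈ A' → ψ a = 1) (hψ' : ∀ a : A, (a : GU F P U) ∈ A' → ψ' a = 1)
    (χ : GU F P U →* ℤ_[p]ˣ) (hχ : ∀ g : GF F, χ (QuotientGroup.mk g) = cycF p F g)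
    (hrel : Rel (χ.comp A.subtype) ψ ψ')
    (b : A →* AddMonoid.End (Additive (US F P (A'.comap (QuotientGroup.mk' (RU F P U))))))
    (hb : IsActA F P U (A'.comap (QuotientGroup.mk' (RU F P U))) A b) :
    Nat.card (BKND.Z1 (kch ψ)) * Nat.card (BKND.H0 (kch ψ)) =
      Nat.card k * hq p (kch ψ') b ∧
    Finite {x : Additive (US F P (A'.comap (QuotientGroup.mk' (RU F P U)))) // p • x = 0} ∧
    ht (kch ψ') b = Nat.card (BKND.H0 (kch ψ)) := by
  have hadm := adm_comap hS hA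
  have hb₁A : ∀ g, b₁ g ∈ A.comap (QuotientGroup.mk' (RU F P U)) := by
    intro g
    rw [← hBC.range]
    exact ⟨g, rfl⟩
  have : U₁.Normal := by
    refine ⟨fun n hn g => ?_⟩
    rw [hU₁, map_mul, map_mul, map_inv]
    exact hadm.nor _ (hb₁A g) _ ((hU₁ n).1 hn)
  -- the characters
  let τm : GU F₁ P U₁ →* A := τ.toMulEquiv.toMonoidHom
  have hψ₁ : ∀ g ∈ U₁, (ψ.comp τm) (QuotientGroup.mk g) = 1 := by
    intro g hg
    refine hψ (τ (QuotientGroup.mk g)) ?_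
    rw [hτ]
    exact (hU₁ g).1 hg
  have hψ₁' : ∀ g ∈ U₁, (ψ'.comp τm) (QuotientGroup.mk g) = 1 := by
    intro g hg
    refine hψ' (τ (QuotientGroup.mk g)) ?_
    rw [hτ]
    exact (hU₁ g).1 hg
  let ψ₀ : GF F₁ ⧸ U₁ →* kˣ :=
    QuotientGroup.lift U₁ ((ψ'.comp τm).comp (QuotientGroup.mk' (RU F₁ P U₁))) hψ₁'
  have hψ₀ : ∀ g : GF F₁, ψ₀ (QuotientGroup.mk g) = (ψ'.comp τm) (QuotientGroup.mk g) :=
    fun g => rfl
  let χ₁ : GU F₁ P U₁ →* ℤ_[p]ˣ := χ.comp (A.subtype.comp τm)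
  have hχ₁ : ∀ g : GF F₁, χ₁ (QuotientGroup.mk g) = cycF p F₁ g := by
    intro g
    change χ ((τ (QuotientGroup.mk g) : A) : GU F P U) = _
    rw [hτ, hχ, hcyc]
  have hrel₁ : Rel χ₁ (ψ.comp τm) (ψ'.comp τm) := fun g => hrel (τ g)
  obtain ⟨a, ha⟩ := BKGlob2.stUA F₁ P U₁
  have k3 := h3 p F₁ P U₁ E₁ hsit k (ψ.comp τm) (ψ'.comp τm) ψ₀ hψ₁ hψ₀ χ₁ hχ₁ hrel₁ a ha
  obtain ⟨k4, k5⟩ := h4 p F₁ P U₁ E₁ hsit k (ψ.comp τm) (ψ'.comp τm) ψ₀ hψ₁ hψ₀ χ₁ hχ₁ hrel₁ a ha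
  -- the units
  have hfix : ∀ x : AlgebraicClosure F₁, (∀ g ∈ U₁, g x = x) ↔
      ∀ g ∈ A'.comap (QuotientGroup.mk' (RU F P U)), g (e x) = e x := by
    intro x
    constructor
    · intro h g hg
      have hgA : g ∈ b₁.range := by
        rw [hBC.range]
        exact hadm.le' hg
      obtain ⟨g₁, rfl⟩ := hgA
      rw [hBC.act, h g₁ ((hU₁ g₁).2 hg)]
    · intro h g hg
      have h5 := h (b₁ g) ((hU₁ g).1 hg)
      rw [hBC.act] at h5
      exact e.injective h5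
  have hmem : ∀ x : (AlgebraicClosure F₁)ˣ, x ∈ US F₁ P U₁ ↔
      Units.map (e : AlgebraicClosure F₁ →* AlgebraicClosure F) x ∈
        US F P (A'.comap (QuotientGroup.mk' (RU F P U))) := by
    intro x
    constructor
    · rintro ⟨h5, h6⟩
      refine ⟨(hfix _).1 h5, fun l _ hl j => ?_⟩
      exact h6 l hl (j.comp (e : AlgebraicClosure F₁ →+* AlgebraicClosure F))
    · rintro ⟨h5, h6⟩
      refine ⟨(hfix _).2 h5, fun l _ hl j => ?_⟩
      have h7 := h6 l hl (j.comp (e.symm : AlgebraicClosure F →+* AlgebraicClosure F₁))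
      change ‖j (e.symm (e (x : AlgebraicClosure F₁)))‖ = 1 at h7
      rwa [RingEquiv.symm_apply_apply] at h7
  let ε : Additive (US F₁ P U₁) ≃+
      Additive (US F P (A'.comap (QuotientGroup.mk' (RU F P U)))) :=
    MulEquiv.toAdditive
    { toFun := fun x => ⟨Units.map (e : AlgebraicClosure F₁ →* AlgebraicClosure F) x.1,
        (hmem x.1).1 x.2⟩
      invFun := fun y => ⟨Units.map (e.symm : AlgebraicClosure F →* AlgebraicClosure F₁) y.1, by
        rw [hmem]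
        have h5 : Units.map (e : AlgebraicClosure F₁ →* AlgebraicClosure F)
            (Units.map (e.symm : AlgebraicClosure F →* AlgebraicClosure F₁) y.1) = y.1 := by
          apply Units.ext
          exact e.apply_symm_apply _
        rw [h5]
        exact y.2⟩
      left_inv := fun x => by
        apply Subtype.ext
        apply Units.ext
        exact e.symm_apply_apply _
      right_inv := fun y => by
        apply Subtype.ext
        apply Units.ext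
        exact e.apply_symm_apply _
      map_mul' := fun x y => by
        apply Subtype.ext
        exact map_mul _ _ _ }
  have hε : ∀ x : Additive (US F₁ P U₁),
      (((ε x).toMul : (AlgebraicClosure F)ˣ) : AlgebraicClosure F) =
        e ((x.toMul : (AlgebraicClosure F₁)ˣ) : AlgebraicClosure F₁) := fun x => rfl
  let R : GF F₁ ⧸ U₁ → A → Prop := fun d d' =>
    ∃ g : GF F₁, QuotientGroup.mk g = d ∧ τ (QuotientGroup.mk g) = d'
  have hR : ∀ d, ∃ d', R d d' := by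
    intro d
    obtain ⟨g, rfl⟩ := QuotientGroup.mk_surjective d
    exact ⟨_, g, rfl, rfl⟩
  have hR' : ∀ d', ∃ d, R d d' := by
    intro d'
    obtain ⟨x, rfl⟩ := τ.surjective d'
    obtain ⟨g, rfl⟩ := QuotientGroup.mk_surjective x
    exact ⟨_, g, rfl, rfl⟩
  have hρ : ∀ d d', R d d' → kch ψ₀ d = kch ψ' d' := by
    rintro d d' ⟨g, rfl, rfl⟩
    ext x
    rfl
  have haa : ∀ d d', R d d' → ∀ x, ε (a d x) = b d' (ε x) := by
    rintro d d' ⟨g, rfl, rfl⟩ x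
    apply Additive.toMul.injective
    apply Subtype.ext
    apply Units.ext
    have h5 : (QuotientGroup.mk (b₁ g) : GU F P U) ∈ A := hb₁A g
    have h6 : τ (QuotientGroup.mk g) = ⟨QuotientGroup.mk (b₁ g), h5⟩ := Subtype.ext (hτ g)
    have h7 := hb (b₁ g) h5 (ε x)
    rw [h6]
    refine Eq.trans ?_ h7.symm
    rw [hε, hε, ha, hBC.act]
  refine ⟨?_, ?_, ?_⟩
  · rw [← hq_congr p (kch ψ₀) (kch ψ') a b ε R hR hR' hρ haa, ← k3, ← card_Z1 τ, ← card_H0 τ]
    rfl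
  · refine Finite.of_injective (β := {x : Additive (US F₁ P U₁) // p • x = 0})
      (fun x => ⟨ε.symm x.1, ?_⟩) ?_
    · rw [← map_nsmul, x.2, map_zero]
    · intro x y hxy
      apply Subtype.ext
      exact ε.symm.injective (congrArg Subtype.val hxy)
  · rw [← ht_congr (kch ψ₀) (kch ψ') a b ε R hR hR' hρ haa, k5, ← card_H0 τ]
    rfl

end GCEA

open GCEA GONA in
/-- Module CEA. -/
theorem stCea (h1 : StBc) (h2 : StSitb) (h3 : BKV.StCE) (h4 : BKV.StCT) : StCea := by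
  intro p _ F _ _ P U hS A A' hA k _ _ _ ψ ψ' hψ hψ' χ hχ hrel b hb
  obtain ⟨F₁, _, _, e, b₁, hBC⟩ := h1 F (A.comap (QuotientGroup.mk' (RU F P U)))
    (open_comap hS hA)
  obtain ⟨⟨E₁, _, hsit⟩, hcyc, θ, hθ⟩ := h2 p F P U hS (A.comap (QuotientGroup.mk' (RU F P U)))
    (A'.comap (QuotientGroup.mk' (RU F P U))) (adm_comap hS hA) F₁ e b₁ hBC
  have hmap : (A.comap (QuotientGroup.mk' (RU F P U))).map (QuotientGroup.mk' (RU F P U)) = A :=
    Subgroup.map_comap_eq_self_of_surjective (QuotientGroup.mk'_surjective _) A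
  let ι : ((A.comap (QuotientGroup.mk' (RU F P U))).map (QuotientGroup.mk' (RU F P U)) :
      Subgroup (GU F P U)) ≃ₜ* A :=
    { MulEquiv.subgroupCongr hmap with
      continuous_toFun := continuous_inclusion hmap.le
      continuous_invFun := continuous_inclusion hmap.ge }
  exact main h3 h4 p F P U hS A A' hA F₁ e b₁ hBC _ (fun g => Iff.rfl) E₁ hsit hcyc (θ.trans ι)
    (fun g => hθ g) k ψ ψ' hψ hψ' χ hχ hrel b hb

end BKT
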