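import Pool.Agent.Lib.MP_7c08ba_nt.T1.StG
import Pool.Agent.Lib.MP_7c08ba_nt.Met.HCG
import Pool.Agent.Lib.MP_7c08ba_nt.Met.LEig

set_option autoImplicit false

/-!
Module CGX: the number of equivariant homomorphisms from `k(ψ)` to the group of the elements fixed
by a normal subgroup, by comparison with the invariant part of a permutation module.
-/

noncomputable section

namespace BKT

open BKMet (kch)
open BKLoc2 (hq ht PP)
open BKGlob2.CGAux (pr pr_apply ht_prod mem_PP exists_equiv hq_eq hq_prod ht_one card_hom nsmul_zero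
  card_triv lc lc_apply)

namespace GCGX

/-! ### passing to a quotient of the group -/

section Lift

variable {B : Type} [Group B] (K : Subgroup B) [K.Normal] {N X : Type} [AddCommGroup N]
  [AddCommGroup X]

theorem ht_lift (ρ : B →* AddMonoid.End N) (a : B →* AddMonoid.End X)
    (ρ' : B ⧸ K →* AddMonoid.End N) (a' : B ⧸ K →* AddMonoid.End X)
    (hρ : ∀ β : B, ρ' (QuotientGroup.mk β) = ρ β) (ha : ∀ β : B, a' (QuotientGroup.mk β) = a β) :
    ht ρ' a' = ht ρ a := by
  rw [ht, ht]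
  refine Nat.card_congr (Equiv.subtypeEquivRight fun f => ?_)
  constructor
  · intro h β n
    rw [← hρ, ← ha]
    exact h _ _
  · intro h d n
    obtain ⟨β, rfl⟩ := QuotientGroup.mk_surjective d
    rw [hρ, ha]
    exact h _ _

theorem hq_lift (p : ℕ) (ρ : B →* AddMonoid.End N) (a : B →* AddMonoid.End X)
    (ρ' : B ⧸ K →* AddMonoid.End N) (a' : B ⧸ K →* AddMonoid.End X)
    (hρ : ∀ β : B, ρ' (QuotientGroup.mk β) = ρ β) (ha : ∀ β : B, a' (QuotientGroup.mk β) = a β) :
    hq p ρ' a' = hq p ρ a := by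
  rw [hq, hq]
  refine Nat.card_congr (Equiv.subtypeEquivRight fun f => ?_)
  constructor
  · intro h β n
    rw [← hρ, ← ha]
    exact h _ _
  · intro h d n
    obtain ⟨β, rfl⟩ := QuotientGroup.mk_surjective d
    rw [hρ, ha]
    exact h _ _

end Lift

/-! ### invariant functions -/

section Inv

variable {Γ : Type} [Group Γ] (A' : Subgroup Γ) (T : Type) [MulAction Γ T] (R : Type)
  [AddCommGroup R]

/-- the invariant functions -/
def Fi : AddSubgroup (T → R) where
  carrier := {y | ∀ x ∈ A', ∀ t, y (x • t) = y t}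
  zero_mem' := fun _ _ _ => rfl
  add_mem' := fun {y z} hy hz x hx t => by
    rw [Pi.add_apply, Pi.add_apply, hy x hx, hz x hx]
  neg_mem' := fun {y} hy x hx t => by
    rw [Pi.neg_apply, Pi.neg_apply, hy x hx]

theorem mem_Fi (y : T → R) : y ∈ Fi A' T R ↔ ∀ x ∈ A', ∀ t, y (x • t) = y t := Iff.rfl

variable {B : Type} [Group B] (π : B →* Γ) (hπ : ∀ β, ∀ x ∈ A', π β * x * (π β)⁻¹ ∈ A')

/-- the action on the invariant functions -/
def fa : B →* AddMonoid.End (Fi A' T R) where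
  toFun β := AddMonoidHom.mk' (fun y => ⟨fun t => y.1 ((π β)⁻¹ • t), fun x hx t => by
      have h1 := y.2 _ (hπ β⁻¹ x hx) ((π β)⁻¹ • t)
      rw [map_inv, inv_inv] at h1
      change y.1 ((π β)⁻¹ • x • t) = y.1 ((π β)⁻¹ • t)
      rw [← h1, smul_smul, smul_smul, mul_assoc, mul_assoc, mul_inv_cancel, mul_one]⟩)
    fun _ _ => rfl
  map_one' := by
    refine DFunLike.ext _ _ fun y => ?_
    apply Subtype.ext
    funext t
    change y.1 ((π 1)⁻¹ • t) = y.1 t
    rw [map_one, inv_one, one_smul]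
  map_mul' β β' := by
    refine DFunLike.ext _ _ fun y => ?_
    apply Subtype.ext
    funext t
    change y.1 ((π (β * β'))⁻¹ • t) = y.1 ((π β')⁻¹ • (π β)⁻¹ • t)
    rw [map_mul, mul_inv_rev, mul_smul]

theorem fa_apply (β : B) (y : Fi A' T R) (t : T) :
    (fa A' T R π hπ β y).1 t = y.1 ((π β)⁻¹ • t) := rfl

theorem fa_triv (β : B) (hβ : π β ∈ A') : fa A' T R π hπ β = 1 := by
  refine DFunLike.ext _ _ fun y => ?_
  apply Subtype.ext
  funext t
  change y.1 ((π β)⁻¹ • t) = y.1 t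
  exact y.2 _ (A'.inv_mem hβ) t

/-- reduction modulo `p` of invariant functions -/
def rd (p : ℕ) : Fi A' T ℤ →+ Fi A' T (ZMod p) :=
  AddMonoidHom.mk' (fun y => ⟨fun t => ((y.1 t : ℤ) : ZMod p), fun x hx t => by
    change ((y.1 (x • t) : ℤ) : ZMod p) = ((y.1 t : ℤ) : ZMod p)
    rw [y.2 x hx]⟩) fun y z => by
      apply Subtype.ext
      funext t
      exact Int.cast_add _ _

theorem rd_apply (p : ℕ) (y : Fi A' T ℤ) (t : T) : (rd A' T p y).1 t = ((y.1 t : ℤ) : ZMod p) :=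
  rfl

theorem rd_surj (p : ℕ) : Function.Surjective (rd A' T p) := by
  intro y
  choose s hs using fun c : ZMod p => ZMod.intCast_surjective c
  refine ⟨⟨fun t => s (y.1 t), fun x hx t => ?_⟩, ?_⟩
  · change s (y.1 (x • t)) = s (y.1 t)
    rw [y.2 x hx]
  · apply Subtype.ext
    funext t
    exact hs _

theorem rd_ker (p : ℕ) [hp : Fact p.Prime] (y : Fi A' T ℤ) :
    rd A' T p y = 0 ↔ y ∈ PP p (Fi A' T ℤ) := by
  rw [mem_PP]
  constructor
  · intro h
    have h1 : ∀ t, ∃ c : ℤ, y.1 t = p * c := by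
      intro t
      have h2 : ((y.1 t : ℤ) : ZMod p) = 0 := congrFun (congrArg Subtype.val h) t
      exact (ZMod.intCast_zmod_eq_zero_iff_dvd _ _).1 h2
    choose c hc using h1
    have hp0 : (p : ℤ) ≠ 0 := by exact_mod_cast hp.out.ne_zero
    refine ⟨⟨c, fun x hx t => ?_⟩, ?_⟩
    · apply mul_left_cancel₀ hp0
      rw [← hc, ← hc, y.2 x hx]
    · apply Subtype.ext
      funext t
      change p • c t = y.1 t
      rw [nsmul_eq_mul, hc t]
  · rintro ⟨c, rfl⟩
    apply Subtype.ext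
    funext t
    change (((p • c.1 t : ℤ)) : ZMod p) = 0
    rw [nsmul_eq_mul]
    push_cast
    rw [CharP.cast_eq_zero, zero_mul]

end Inv

/-! ### homomorphisms from `k` to `ℤ/p` -/

section Lam

variable {p : ℕ} [hp : Fact p.Prime] {k : Type} [Field k] [Finite k] [Algebra (ZMod p) k]

/-- the homomorphisms from `k` to `ℤ/p` -/
theorem exists_lam : ∃ Λ : k ≃ (k →+ ZMod p), ∀ c n, Λ c n = Λ 1 (c * n) := by
  have hN : ∀ n : k, p • n = 0 := nsmul_zero
  have hcard := card_hom (p := p) k hN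
  have hk : 1 < Nat.card k := Finite.one_lt_card
  have hfin : Finite (k →+ ZMod p) := Nat.finite_of_card_ne_zero (by rw [hcard]; omega)
  have hne : ∃ μ : k →+ ZMod p, μ ≠ 0 := by
    by_contra h
    push Not at h
    have h1 : Subsingleton (k →+ ZMod p) := ⟨fun f g => by rw [h f, h g]⟩
    have h2 : Nat.card (k →+ ZMod p) = 1 := Nat.card_of_subsingleton 0
    omega
  obtain ⟨μ, hμ⟩ := hne
  let L : k → (k →+ ZMod p) := fun c => μ.comp (AddMonoidHom.mulLeft c)
  have hL : ∀ c n, L c n = μ (c * n) := fun _ _ => rfl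
  have hinj : Function.Injective L := by
    intro c c' h
    by_contra hcc
    apply hμ
    ext n
    have h1 : μ (c * ((c - c')⁻¹ * n)) = μ (c' * ((c - c')⁻¹ * n)) := by
      rw [← hL, ← hL, h]
    rw [← sub_eq_zero, ← map_sub, ← sub_mul, mul_inv_cancel_left₀ (sub_ne_zero.2 hcc)] at h1
    exact h1
  have hbij : Function.Bijective L := by
    have : Fintype k := Fintype.ofFinite k
    have : Fintype (k →+ ZMod p) := Fintype.ofFinite _
    rw [Fintype.bijective_iff_injective_and_card]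
    refine ⟨hinj, ?_⟩
    rw [← Nat.card_eq_fintype_card, ← Nat.card_eq_fintype_card, hcard]
  refine ⟨Equiv.ofBijective L hbij, fun c n => ?_⟩
  change μ (c * n) = μ (1 * (c * n))
  rw [one_mul]

end Lam

/-! ### counting -/

section Count

variable {p : ℕ} [hp : Fact p.Prime] {Γ : Type} [Group Γ] (A' : Subgroup Γ) {B : Type} [Group B]
  (π : B →* Γ) (hA : A' ≤ π.range) (hπ : ∀ β, ∀ x ∈ A', π β * x * (π β)⁻¹ ∈ A')
  {k : Type} [Field k] [Finite k] [Algebra (ZMod p) k] (ψ : B →* kˣ)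
  (hψ : ∀ β, π β ∈ A' → ψ β = 1)

include hA hψ in
theorem count (T : Type) [MulAction Γ T] :
    ht (kch ψ) (fa A' T (ZMod p) π hπ) =
      Nat.card {f : T → k // ∀ β t, f (π β • t) = ((ψ β : kˣ) : k) * f t} := by
  obtain ⟨Λ, hΛ⟩ := exists_lam (p := p) (k := k)
  have hadd : ∀ c c' : k, Λ (c + c') = Λ c + Λ c' := by
    intro c c'
    ext n
    rw [AddMonoidHom.add_apply, hΛ, hΛ c, hΛ c', add_mul, map_add]
  have hΛs : ∀ c c' n, Λ (c * c') n = Λ c (c' * n) := by
    intro c c' n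
    rw [hΛ, hΛ c, mul_assoc]
  rw [ht]
  refine Nat.card_congr
    { toFun := fun F => ⟨fun t => (Λ.symm ((AddMonoidHom.mk' (fun n => (F.1 n).1 t) fun n n' => by
          rw [map_add]; rfl) : k →+ ZMod p))⁻¹, fun β t => ?_⟩
      invFun := fun f => ⟨AddMonoidHom.mk' (fun n => ⟨fun t => Λ (f.1 t)⁻¹ n, fun x hx t => ?_⟩)
          fun n n' => ?_, fun β n => ?_⟩
      left_inv := fun F => ?_
      right_inv := fun f => ?_ }
  · set m : T → k →+ ZMod p := fun t => AddMonoidHom.mk' (fun n => (F.1 n).1 t) fun n n' => by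
          rw [map_add]; rfl with hm
    change (Λ.symm (m (π β • t)))⁻¹ = ((ψ β : kˣ) : k) * (Λ.symm (m t))⁻¹
    have h1 : m t = Λ (Λ.symm (m (π β • t)) * ((ψ β : kˣ) : k)) := by
      ext n
      rw [hΛs, Equiv.apply_symm_apply]
      change (F.1 n).1 t = (F.1 (((ψ β : kˣ) : k) * n)).1 (π β • t)
      have h2 := F.2 β n
      rw [BKMet.kch_apply] at h2
      rw [h2, fa_apply, inv_smul_smul]
    rw [h1, Equiv.symm_apply_apply, mul_inv, mul_comm (((ψ β : kˣ) : k)) _, mul_assoc,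
      inv_mul_cancel₀ (Units.ne_zero _), mul_one]
  · obtain ⟨β, rfl⟩ := hA hx
    change Λ (f.1 (π β • t))⁻¹ n = Λ (f.1 t)⁻¹ n
    rw [f.2 β t, hψ β hx, Units.val_one, one_mul]
  · apply Subtype.ext
    funext t
    exact map_add _ _ _
  · apply Subtype.ext
    funext t
    rw [fa_apply]
    change Λ (f.1 t)⁻¹ (kch ψ β n) = Λ (f.1 ((π β)⁻¹ • t))⁻¹ n
    rw [BKMet.kch_apply, ← hΛs]
    have h1 := f.2 β ((π β)⁻¹ • t)
    rw [smul_inv_smul] at h1
    rw [h1, mul_inv, mul_comm (((ψ β : kˣ) : k)⁻¹) _, mul_assoc, inv_mul_cancel₀ (Units.ne_zero _),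
      mul_one]
  · apply Subtype.ext
    refine DFunLike.ext _ _ fun n => ?_
    apply Subtype.ext
    funext t
    change Λ (Λ.symm _)⁻¹⁻¹ n = (F.1 n).1 t
    rw [inv_inv, Equiv.apply_symm_apply]
    rfl
  · apply Subtype.ext
    funext t
    change (Λ.symm _)⁻¹ = f.1 t
    have h1 : (AddMonoidHom.mk' (fun n => Λ (f.1 t)⁻¹ n) fun n n' => by
        rw [map_add] : k →+ ZMod p) = Λ (f.1 t)⁻¹ := rfl
    erw [h1]
    rw [Equiv.symm_apply_apply, inv_inv]

omit [Finite k] in
/-- functions on a disjoint union -/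
theorem count_sigma {W : Type} [Fintype W] (D : W → Subgroup Γ) :
    Nat.card {f : (Σ w, Γ ⧸ D w) → k // ∀ β t, f (π β • t) = ((ψ β : kˣ) : k) * f t} =
      ∏ w, Nat.card {f : Γ ⧸ D w → k // ∀ β t, f (π β • t) = ((ψ β : kˣ) : k) * f t} := by
  rw [← Nat.card_pi]
  exact Nat.card_congr
    { toFun := fun f w => ⟨fun t => f.1 ⟨w, t⟩, fun β t => f.2 β ⟨w, t⟩⟩
      invFun := fun f => ⟨fun x => (f x.1).1 x.2, fun β x => (f x.1).2 β x.2⟩
      left_inv := fun f => rfl
      right_inv := fun f => rfl }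

end Count

end GCGX

open GCGX

/-- Module CGX. -/
theorem stCgx : StCgx := by
  intro p hp Γ _ _ B _ π A' hA hπ hidx M N _ _ a b i hi hib hrange W _ D g hg hli hcl hfin k _ _ _
    ψ hψ
  have := Fintype.ofFinite (Σ w, Γ ⧸ D w)
  set T := Σ w, Γ ⧸ D w with hT
  set G : T → M × ℤ := fun x => g x.1 x.2 with hG
  have hN : ∀ n : k, p • n = 0 := nsmul_zero
  have hGd : ∀ (d : Γ) (t : T), G (d • t) = pr a 1 d (G t) := fun d t => hg d t.1 t.2
  have hinj : Function.Injective (lc G) := by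
    rw [injective_iff_map_eq_zero]
    intro y hy
    funext t
    exact Fintype.linearIndependent_iff.1 hli y hy t
  have hequi : ∀ (d : Γ) (y : T → ℤ), lc G (fun t => y (d⁻¹ • t)) = pr a 1 d (lc G y) := by
    intro d y
    rw [lc_apply, lc_apply, map_sum]
    refine Fintype.sum_equiv (MulAction.toPerm d⁻¹ : Equiv.Perm T) _ _ fun t => ?_
    change y (d⁻¹ • t) • G t = pr a 1 d (y (d⁻¹ • t) • G (d⁻¹ • t))
    rw [map_zsmul, ← hGd, smul_inv_smul]
  have hle : AddSubgroup.closure (Set.range G) ≤ (lc G).range := by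
    rw [AddSubgroup.closure_le]
    rintro _ ⟨t, rfl⟩
    classical
    refine ⟨Pi.single t 1, ?_⟩
    rw [lc_apply, Finset.sum_eq_single t]
    · rw [Pi.single_eq_same, one_smul]
    · intro b _ hb
      rw [Pi.single_eq_of_ne hb, zero_smul]
    · intro h
      exact absurd (Finset.mem_univ t) h
  have hidx' : (lc G).range.index ≠ 0 := by
    have : (AddSubgroup.closure (Set.range G)).FiniteIndex := ⟨hcl⟩
    exact (AddSubgroup.finiteIndex_of_le hle).index_ne_zero
  -- the inclusion of `N × ℤ` in `M × ℤ`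
  let j : N × ℤ →+ M × ℤ := AddMonoidHom.prodMap i (AddMonoidHom.id ℤ)
  have hj : ∀ x, j x = (i x.1, x.2) := fun x => rfl
  have hjinj : Function.Injective j := by
    intro x y h
    rw [hj, hj, Prod.mk.injEq] at h
    exact Prod.ext (hi h.1) h.2
  have hjr : ∀ m : M × ℤ, (∀ x ∈ A', pr a 1 x m = m) → ∃ n, j n = m := by
    intro m hm
    have h1 : m.1 ∈ i.range := (hrange m.1).2 fun x hx => congrArg Prod.fst (hm x hx)
    obtain ⟨n, hn⟩ := h1
    exact ⟨(n, m.2), Prod.ext hn rfl⟩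
  -- the linear combinations with invariant coefficients
  have hY : ∀ y : Fi A' T ℤ, ∃ n, j n = lc G y.1 := by
    intro y
    apply hjr
    intro x hx
    rw [← hequi]
    congr 1
    funext t
    exact y.2 _ (A'.inv_mem hx) t
  choose f hf using hY
  let φ : Fi A' T ℤ →+ N × ℤ := AddMonoidHom.mk' f fun y z => by
    apply hjinj
    rw [map_add, hf, hf, hf, AddSubgroup.coe_add, map_add]
  have hφ : ∀ y, j (φ y) = lc G y.1 := hf
  have hφinj : Function.Injective φ := by
    intro y z h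
    apply Subtype.ext
    apply hinj
    rw [← hφ, ← hφ, h]
  have hφe : ∀ β y, φ (fa A' T ℤ π hπ β y) = pr b 1 β (φ y) := by
    intro β y
    apply hjinj
    rw [hφ]
    have h1 : (fa A' T ℤ π hπ β y).1 = fun t => y.1 ((π β)⁻¹ • t) := rfl
    rw [h1, hequi, ← hφ, pr_apply, pr_apply, hj, hj, hib]
    rfl
  have hφr : (lc G).range.comap j ≤ φ.range := by
    rintro n ⟨y, hy⟩
    have h1 : y ∈ Fi A' T ℤ := by
      intro x hx t
      have h2 : lc G (fun t => y ((x⁻¹)⁻¹ • t)) = lc G y := by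
        rw [hequi, hy, pr_apply, hj]
        have h3 : a x⁻¹ (i n.1) = i n.1 := (hrange (i n.1)).1 ⟨n.1, rfl⟩ _ (A'.inv_mem hx)
        change (a x⁻¹ (i n.1), n.2) = (i n.1, n.2)
        rw [h3]
      have h4 := congrFun (hinj h2) t
      rw [inv_inv] at h4
      exact h4
    refine ⟨⟨y, h1⟩, ?_⟩
    apply hjinj
    rw [hφ, hy]
  have hφidx : φ.range.index ≠ 0 := by
    have h1 : ((lc G).range.comap j).index ≠ 0 := by
      rw [AddSubgroup.index_comap]
      have : (lc G).range.FiniteIndex := ⟨hidx'⟩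
      exact fun h => hidx' ((lc G).range.index_eq_zero_of_relIndex_eq_zero h)
    have : ((lc G).range.comap j).FiniteIndex := ⟨h1⟩
    exact (AddSubgroup.finiteIndex_of_le hφr).index_ne_zero
  -- finiteness
  have hfinT : Finite (Fi A' T (ZMod p)) := Subtype.finite
  have hfinY : Finite (Fi A' T ℤ ⧸ PP p (Fi A' T ℤ)) := by
    obtain ⟨E, -⟩ := exists_equiv p (rd A' T p) (rd_surj A' T p) (rd_ker A' T p)
    exact Finite.of_equiv _ E.symm.toEquiv
  have hint : ∀ x : ℤ, p • x = 0 → x = 0 := by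
    intro x hx
    rw [nsmul_eq_mul] at hx
    exact (mul_eq_zero.1 hx).resolve_left (by exact_mod_cast hp.out.ne_zero)
  have hfinX : Finite {x : N × ℤ // p • x = 0} := by
    have hz : ∀ x : {x : N × ℤ // p • x = 0}, p • x.1.1 = 0 ∧ x.1.2 = 0 := by
      rintro ⟨⟨x, m⟩, h⟩
      exact ⟨congrArg Prod.fst h, hint _ (congrArg Prod.snd h)⟩
    refine Finite.of_injective
      (fun x : {x : N × ℤ // p • x = 0} => (⟨x.1.1, (hz x).1⟩ : {x : N // p • x = 0})) ?_
    intro x y h
    apply Subtype.ext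
    refine Prod.ext (congrArg Subtype.val h) ?_
    rw [(hz x).2, (hz y).2]
  -- the quotient of `B`
  set K : Subgroup B := A'.comap π with hK
  have hKn : K.Normal := ⟨fun x hx β => by
    rw [hK, Subgroup.mem_comap, map_mul, map_mul, map_inv]
    exact hπ β _ hx⟩
  have hKidx : K.index = A'.relIndex π.range := Subgroup.index_comap A' π
  have hKcard : Nat.card (B ⧸ K) = A'.relIndex π.range := hKidx
  have hKfin : Finite (B ⧸ K) := by
    apply Nat.finite_of_card_ne_zero
    rw [hKcard]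
    exact fun h => (Subgroup.index_ne_zero_of_finite (H := A'))
      (Subgroup.index_eq_zero_of_relIndex_eq_zero h)
  have hKp : ¬ p ∣ Nat.card (B ⧸ K) := by rwa [hKcard]
  have hkch : K ≤ (kch ψ).ker := by
    intro β hβ
    rw [MonoidHom.mem_ker]
    ext n
    rw [BKMet.kch_apply, hψ β hβ, Units.val_one, one_mul]
    rfl
  have hbK : K ≤ (pr b 1 : B →* AddMonoid.End (N × ℤ)).ker := by
    intro β hβ
    rw [MonoidHom.mem_ker]
    refine DFunLike.ext _ _ fun x => ?_
    rw [pr_apply]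
    refine Prod.ext ?_ rfl
    apply hi
    change i (b β x.1) = i x.1
    rw [hib]
    exact (hrange (i x.1)).1 ⟨x.1, rfl⟩ _ hβ
  have hfK : K ≤ (fa A' T ℤ π hπ).ker := by
    intro β hβ
    rw [MonoidHom.mem_ker]
    exact fa_triv A' T ℤ π hπ β hβ
  have key := (BKLoc2.stEig p (B ⧸ K) hKp k hN (QuotientGroup.lift K (kch ψ) hkch) (N × ℤ)
    (Fi A' T ℤ) (QuotientGroup.lift K (pr b 1) hbK) (QuotientGroup.lift K (fa A' T ℤ π hπ) hfK)
    φ hφinj (fun d y => by
      obtain ⟨β, rfl⟩ := QuotientGroup.mk_surjective d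
      exact hφe β y) hφidx hfinY hfinX).2
  rw [hq_lift K p (kch ψ) (pr b 1) _ _ (fun _ => rfl) (fun _ => rfl),
    ht_lift K (kch ψ) (fa A' T ℤ π hπ) _ _ (fun _ => rfl) (fun _ => rfl),
    hq_lift K p (kch ψ) (fa A' T ℤ π hπ) _ _ (fun _ => rfl) (fun _ => rfl),
    ht_lift K (kch ψ) (pr b 1) _ _ (fun _ => rfl) (fun _ => rfl)] at key
  have e1 : ht (kch ψ) (fa A' T ℤ π hπ) = 1 := by
    refine ht_one (kch ψ) _ hN fun x hx => ?_
    apply Subtype.ext
    funext t
    exact hint _ (congrFun (congrArg Subtype.val hx) t)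
  have e2 : ht (kch ψ) (1 : B →* AddMonoid.End ℤ) = 1 := ht_one (kch ψ) _ hN hint
  have e3 : hq p (kch ψ) (1 : B →* AddMonoid.End ℤ) = Nat.card (BKND.H0 (kch ψ)) := by
    rw [← card_triv (p := p) ψ]
    refine hq_eq (kch ψ) (1 : B →* AddMonoid.End ℤ) p (Int.castAddHom (ZMod p))
      (ZMod.intCast_surjective) ?_ (1 : B →* AddMonoid.End (ZMod p)) fun d x => rfl
    intro x
    rw [mem_PP, Int.coe_castAddHom, ZMod.intCast_zmod_eq_zero_iff_dvd]
    constructor
    · rintro ⟨c, hc⟩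
      exact ⟨c, by rw [hc, nsmul_eq_mul]⟩
    · rintro ⟨c, hc⟩
      exact ⟨c, by rw [← hc, nsmul_eq_mul]⟩
  have e4 : hq p (kch ψ) (fa A' T ℤ π hπ) =
      ∏ w, Nat.card {f : Γ ⧸ D w → k // ∀ β t, f (π β • t) = ((ψ β : kˣ) : k) * f t} := by
    rw [hq_eq (kch ψ) (fa A' T ℤ π hπ) p (rd A' T p) (rd_surj A' T p) (rd_ker A' T p)
      (fa A' T (ZMod p) π hπ) fun d x => rfl, count A' π hA hπ ψ hψ T, count_sigma]
  rw [e1, mul_one, e4, ht_prod, e2, mul_one, hq_prod, e3] at key
  exact key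

end BKT
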