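import Pool.Agent.Lib.MP_7c08ba_nt.T1.StG
import Pool.Agent.Lib.MP_7c08ba_nt.Met.V.RQ

set_option autoImplicit false

/-!
Parity for general residual representations, part G, module GCA: the global Euler characteristic
for modules induced from characters.
-/

noncomputable section

namespace BKT

open NumberField IsDedekindDomain BKGen
open BKPar (Loc1 Loc2)
open BKND (Sm)
open BKMet
open BKLoc2 (hq ht)
open BKGlob2 (Cp fs sn CC0 Prin SP US IsAct Dw Dx jw)
open BKV (RU GU dc)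

namespace GGCA

/-! ### Functions on `Γ ⧸ D` and induced modules -/

section Fn

variable {G Γ : Type} [Group G] [Group Γ] (q : G →* Γ) (A : Subgroup G) {k : Type} [Field k]
  (ψ : A →* kˣ)

/-- equivariant functions on `Γ ⧸ D` -/
abbrev Fn (D : Subgroup Γ) : Type :=
  {f : Γ ⧸ D → k // ∀ (β : A) (t : Γ ⧸ D), f ((q.comp A.subtype) β • t) = ((ψ β : kˣ) : k) * f t}

/-- elements of the induced module which are invariant under the preimage of `D` -/
abbrev Iv (D : Subgroup Γ) : Type :=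
  {F : IndM A (kch ψ) // ∀ x d : G, q d ∈ D → (F : G → k) (d⁻¹ * x) = (F : G → k) x}

/-- the element of the induced module -/
def toI (D : Subgroup Γ) (f : Fn q A ψ D) : Iv q A ψ D :=
  ⟨⟨fun x => f.1 (QuotientGroup.mk (q x)⁻¹), fun g a => by
      change f.1 (QuotientGroup.mk (q (g * a))⁻¹) =
        ((ψ a⁻¹ : kˣ) : k) * f.1 (QuotientGroup.mk (q g)⁻¹)
      rw [← f.2 a⁻¹ (QuotientGroup.mk (q g)⁻¹)]
      refine congrArg f.1 ?_
      change (QuotientGroup.mk (q (g * a))⁻¹ : Γ ⧸ D) =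
        QuotientGroup.mk (q ((a⁻¹ : A) : G) * (q g)⁻¹)
      rw [map_mul, mul_inv_rev, Subgroup.coe_inv, map_inv]⟩, fun x d hd => by
    change f.1 (QuotientGroup.mk (q (d⁻¹ * x))⁻¹) = f.1 (QuotientGroup.mk (q x)⁻¹)
    rw [map_mul, mul_inv_rev, map_inv, inv_inv, QuotientGroup.mk_mul_of_mem _ hd]⟩

theorem toI_apply (D : Subgroup Γ) (f : Fn q A ψ D) (x : G) :
    (((toI q A ψ D f).1 : IndM A (kch ψ)) : G → k) x = f.1 (QuotientGroup.mk (q x)⁻¹) := rfl

variable {q} in
theorem exists_rep (hq : Function.Surjective q) (D : Subgroup Γ) (t : Γ ⧸ D) :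
    ∃ x : G, (QuotientGroup.mk (q x)⁻¹ : Γ ⧸ D) = t := by
  obtain ⟨γ, rfl⟩ := QuotientGroup.mk_surjective t
  obtain ⟨x, hx⟩ := hq γ⁻¹
  exact ⟨x, by rw [hx, inv_inv]⟩

variable {q} in
theorem toI_bij (hq : Function.Surjective q) (D : Subgroup Γ) :
    Function.Bijective (toI q A ψ D) := by
  constructor
  · intro f f' h
    apply Subtype.ext
    funext t
    obtain ⟨x, rfl⟩ := exists_rep hq D t
    rw [← toI_apply, ← toI_apply, h]
  · intro F
    choose s hs using exists_rep hq D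
    have key : ∀ x y : G, (QuotientGroup.mk (q y)⁻¹ : Γ ⧸ D) = QuotientGroup.mk (q x)⁻¹ →
        (F.1 : G → k) y = (F.1 : G → k) x := by
      intro x y h
      have h1 := QuotientGroup.eq.1 h
      rw [inv_inv, ← map_inv, ← map_mul] at h1
      have h2 := F.2 y (y * x⁻¹) h1
      rw [mul_inv_rev, inv_inv, inv_mul_cancel_right] at h2
      exact h2.symm
    refine ⟨⟨fun t => (F.1 : G → k) (s t), fun β t => ?_⟩, ?_⟩
    · have h1 : (F.1 : G → k) (s ((q.comp A.subtype) β • t)) =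
          (F.1 : G → k) (s t * ((β⁻¹ : A) : G)) := by
        refine key _ _ ?_
        rw [hs, map_mul, mul_inv_rev, Subgroup.coe_inv, map_inv, inv_inv]
        conv_lhs => rw [← hs t]
        rfl
      change (F.1 : G → k) (s ((q.comp A.subtype) β • t)) =
        ((ψ β : kˣ) : k) * (F.1 : G → k) (s t)
      rw [h1, F.1.2 (s t) β⁻¹, inv_inv]
      rfl
    · apply Subtype.ext
      apply Subtype.ext
      funext x
      exact key x _ (hs _)

variable {q} in
theorem card_fn (hq : Function.Surjective q) (D : Subgroup Γ) :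
    Nat.card (Fn q A ψ D) = Nat.card (Iv q A ψ D) :=
  Nat.card_congr (Equiv.ofBijective _ (toI_bij A ψ hq D))

variable {q A ψ} in
theorem inv_ker (hker : q.ker ≤ A) (hψ : ∀ a : A, q a = 1 → ψ a = 1) (F : IndM A (kch ψ))
    (x d : G) (hd : q d = 1) : (F : G → k) (d⁻¹ * x) = (F : G → k) x := by
  have h1 : q (x⁻¹ * d⁻¹ * x) = 1 := by
    rw [map_mul, map_mul, map_inv, map_inv, hd, inv_one, mul_one, inv_mul_cancel]
  have h2 : x⁻¹ * d⁻¹ * x ∈ A := hker h1
  have h3 := F.2 x ⟨x⁻¹ * d⁻¹ * x, h2⟩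
  have h4 : x * (x⁻¹ * d⁻¹ * x) = d⁻¹ * x := by group
  change (F : G → k) (x * (x⁻¹ * d⁻¹ * x)) = _ at h3
  rw [h4] at h3
  rw [h3, kch_apply, map_inv, hψ _ h1, inv_one, Units.val_one, one_mul]

variable {q A ψ} in
/-- the functions on `Γ` -/
theorem card_fn_bot (hq : Function.Surjective q) (hker : q.ker ≤ A)
    (hψ : ∀ a : A, q a = 1 → ψ a = 1) :
    Nat.card (Fn q A ψ ⊥) = Nat.card (IndM A (kch ψ)) := by
  rw [card_fn A ψ hq]
  refine Nat.card_congr (Equiv.subtypeUnivEquiv fun F x d hd => ?_)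
  exact inv_ker hker hψ F x d (Subgroup.mem_bot.1 hd)

variable {q A ψ} in
/-- the functions on `Γ ⧸ D` and the invariants of the decomposition group -/
theorem card_fn_range {T : Type} [Group T] (r : T →* G) (hq : Function.Surjective q)
    (hker : q.ker ≤ A) (hψ : ∀ a : A, q a = 1 → ψ a = 1) :
    Nat.card (Fn q A ψ (q.comp r).range) =
      Nat.card (BKND.H0 ((indM A (kch ψ)).comp r)) := by
  rw [card_fn A ψ hq]
  refine Nat.card_congr (Equiv.subtypeEquivRight fun F => ?_)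
  constructor
  · intro h t
    apply Subtype.ext
    funext x
    exact h x (r t) ⟨t, rfl⟩
  · rintro h x d ⟨t, ht⟩
    have ht' : q (r t) = q d := ht
    have h1 : q ((r t)⁻¹ * d) = 1 := by
      rw [map_mul, map_inv, ht', inv_mul_cancel]
    have h2 := inv_ker hker hψ F ((r t)⁻¹ * x) ((r t)⁻¹ * d) h1
    have h3 := congrArg (fun F : IndM A (kch ψ) => (F : G → k) x) (h t)
    change (F : G → k) ((r t)⁻¹ * x) = (F : G → k) x at h3
    rw [h3] at h2
    rw [← h2]
    group

end Fn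

end GGCA

open GGCA in
/-- Module GCA: the global Euler characteristic. -/
theorem stGca (h1 : BKGlob2.StUA) (h2 : StUaa) (h3 : StCea) (h4 : StCgx) (h5 : StCut)
    (h6 : StLsh) : StGca := by
  intro p hp F iF iN U Λ c₀ cc hS χ c hχ hc A A' hA k ik1 ik2 ik3 ψ ψ' hψ hψ' hR
  have hnorm : U.Normal := hS.sit.normal
  have hRU : RU F Λ.P U ≤ U := BKV.RQAux.RU_le_U hS.sit.normal hS.sit.open'
  have hopen := hS.sit.open'
  have : Finite (GF F ⧸ U) := U.quotient_finite_of_isOpen hopen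
  -- the natural map
  let q : GU F Λ.P U →* GF F ⧸ U := QuotientGroup.lift (RU F Λ.P U) (QuotientGroup.mk' U) (by
    rw [QuotientGroup.ker_mk']
    exact hRU)
  have hqm : ∀ g : GF F, q (QuotientGroup.mk g) = QuotientGroup.mk g := fun g => rfl
  have hqs : Function.Surjective q := by
    intro γ
    obtain ⟨g, rfl⟩ := QuotientGroup.mk_surjective γ
    exact ⟨QuotientGroup.mk g, rfl⟩
  have hqk : q.ker = U.map (QuotientGroup.mk' (RU F Λ.P U)) := by
    have h := QuotientGroup.ker_lift (RU F Λ.P U) (QuotientGroup.mk' U) (by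
      rw [QuotientGroup.ker_mk']
      exact hRU)
    exact h.trans (congrArg (Subgroup.map _) (QuotientGroup.ker_mk' U))
  have hkA' : q.ker ≤ A' := hqk.trans_le hA.le
  have hkA : q.ker ≤ A := hkA'.trans hA.le'
  have hψ1 : ∀ a : A, q a = 1 → ψ a = 1 := fun a ha => hψ a (hkA' ha)
  have hψ1' : ∀ a : A, q a = 1 → ψ' a = 1 := fun a ha => hψ' a (hkA' ha)
  -- `A` is open
  have hUo : IsOpen ((U.map (QuotientGroup.mk' (RU F Λ.P U)) : Subgroup (GU F Λ.P U)) :
      Set (GU F Λ.P U)) := QuotientGroup.isOpenMap_coe _ hopen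
  have hAo : IsOpen (A : Set (GU F Λ.P U)) := Subgroup.isOpen_mono (hA.le.trans hA.le') hUo
  have hA'o : IsOpen (A' : Set (GU F Λ.P U)) := Subgroup.isOpen_mono hA.le hUo
  have hsm : ∀ ψ : A →* kˣ, (∀ a : A, (a : GU F Λ.P U) ∈ A' → ψ a = 1) → Sm (kch ψ) := by
    intro ψ hψ
    refine ⟨A'.subgroupOf A, hA'o.preimage continuous_subtype_val, fun w hw => ?_⟩
    ext x
    rw [kch_apply, hψ w hw, Units.val_one, one_mul]
    rfl
  obtain ⟨L1, -, L3, L4⟩ := h6 (GU F Λ.P U) A hAo k ψ (hsm ψ hψ)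
  obtain ⟨L1', -, L3', -⟩ := h6 (GU F Λ.P U) A hAo k ψ' (hsm ψ' hψ')
  -- the actions
  obtain ⟨a, ha⟩ := h1 F Λ.P U
  obtain ⟨b, hb⟩ := h2 p F Λ.P U hopen A A' hA
  obtain ⟨e1, hfin, e2⟩ := h3 p F Λ.P U hS.sit A A' hA k ψ ψ' hψ hψ' χ hχ hR b hb
  obtain ⟨g, hg1, hg2, hg3⟩ := h5 p F U Λ c₀ cc hS a ha
  -- the inclusion of the groups of units
  have hUA : U ≤ A'.comap (QuotientGroup.mk' (RU F Λ.P U)) := Subgroup.map_le_iff_le_comap.1 hA.le
  have hUS : US F Λ.P (A'.comap (QuotientGroup.mk' (RU F Λ.P U))) ≤ US F Λ.P U :=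
    fun x hx => ⟨fun g hg => hx.1 g (hUA hg), hx.2⟩
  let i : Additive (US F Λ.P (A'.comap (QuotientGroup.mk' (RU F Λ.P U)))) →+
      Additive (US F Λ.P U) := MonoidHom.toAdditive (Subgroup.inclusion hUS)
  have hi : ∀ x, (((i x).toMul : (AlgebraicClosure F)ˣ) : AlgebraicClosure F) =
      ((x.toMul : (AlgebraicClosure F)ˣ) : AlgebraicClosure F) := fun x => rfl
  have hext : ∀ x y : Additive (US F Λ.P U),
      ((x.toMul : (AlgebraicClosure F)ˣ) : AlgebraicClosure F) =
        ((y.toMul : (AlgebraicClosure F)ˣ) : AlgebraicClosure F) → x = y := by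
    intro x y hxy
    exact Additive.toMul.injective (Subtype.ext (Units.ext hxy))
  have hinj : Function.Injective i := by
    intro x y hxy
    have h := congrArg (fun z : Additive (US F Λ.P U) =>
      ((z.toMul : (AlgebraicClosure F)ˣ) : AlgebraicClosure F)) hxy
    exact Additive.toMul.injective (Subtype.ext (Units.ext h))
  have e3 := h4 p (GF F ⧸ U) A (q.comp A.subtype) (A'.map q) ?_ ?_ ?_
    (Additive (US F Λ.P U)) (Additive (US F Λ.P (A'.comap (QuotientGroup.mk' (RU F Λ.P U)))))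
    a b i hinj ?_ ?_ (Option (Λ.ι × Bool)) (Dx U Λ cc) g hg1 hg2 hg3 hfin k ψ' ?_
  · rw [Fintype.prod_option] at e3
    have f1 : Nat.card {f : (GF F ⧸ U) ⧸ (Dx U Λ cc none) → k // ∀ (β : A) t,
        f ((q.comp A.subtype) β • t) = ((ψ' β : kˣ) : k) * f t} = Nat.card k ^ A.index := by
      rw [← L1']
      exact card_fn_bot hqs hkA hψ1'
    have f2 : ∀ w : Λ.ι × Bool, Nat.card {f : (GF F ⧸ U) ⧸ (Dx U Λ cc (some w)) → k //
        ∀ (β : A) t, f ((q.comp A.subtype) β • t) = ((ψ' β : kˣ) : k) * f t} =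
        Nat.card (BKND.H0 ((indM A (kch ψ')).comp
          (Λ.loc (QuotientGroup.mk' (RU F Λ.P U)) c w))) := by
      intro w
      rw [← card_fn_range (Λ.loc (QuotientGroup.mk' (RU F Λ.P U)) c w) hqs hkA hψ1']
      have h7 : (Dx U Λ cc (some w)) =
          (q.comp (Λ.loc (QuotientGroup.mk' (RU F Λ.P U)) c w)).range := by
        change ((QuotientGroup.mk' U).comp (Λ.loc (MonoidHom.id (GF F)) cc w)).range = _
        congr 1
        ext t
        obtain ⟨i, b⟩ := w
        cases b with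
        | false => rfl
        | true =>
          change QuotientGroup.mk (cc (Λ.r i t)) = q (c (QuotientGroup.mk (Λ.r i t)))
          rw [hc]
          rfl
      rw [h7]
    rw [f1, e2] at e3
    simp only [f2] at e3
    have hpos : 0 < Nat.card (BKND.H0 (kch ψ)) := Nat.card_pos
    have hposk : 0 < Nat.card k := Nat.card_pos
    rw [L3', L1]
    refine Nat.eq_of_mul_eq_mul_left (Nat.mul_pos hpos hposk) ?_
    calc Nat.card (BKND.H0 (kch ψ)) * Nat.card k *
          (Nat.card (BKND.Z1 (indM A (kch ψ))) * Nat.card (BKND.H0 (kch ψ')))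
        = (Nat.card (BKND.Z1 (indM A (kch ψ))) * Nat.card k) * Nat.card (BKND.H0 (kch ψ)) *
            Nat.card (BKND.H0 (kch ψ')) := by ring
      _ = (Nat.card (BKND.Z1 (kch ψ)) * Nat.card (BKND.H0 (kch ψ))) * Nat.card k ^ A.index *
            Nat.card (BKND.H0 (kch ψ')) := by rw [L4]; ring
      _ = Nat.card k * Nat.card k ^ A.index *
            (hq p (kch ψ') b * Nat.card (BKND.H0 (kch ψ'))) := by rw [e1]; ring
      _ = _ := by rw [e3]; ring
  · rw [MonoidHom.range_comp, Subgroup.range_subtype]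
    exact Subgroup.map_mono hA.le'
  · rintro β _ ⟨x, hx, rfl⟩
    refine ⟨(β : GU F Λ.P U) * x * (β : GU F Λ.P U)⁻¹, hA.nor β β.2 x hx, ?_⟩
    rw [map_mul, map_mul, map_inv]
    rfl
  · rw [MonoidHom.range_comp, Subgroup.range_subtype, Subgroup.relIndex_map_map,
      sup_eq_left.2 hkA', sup_eq_left.2 hkA]
    exact hA.idx
  · rintro ⟨β, hβ⟩ n
    obtain ⟨g', rfl⟩ := QuotientGroup.mk_surjective β
    apply hext
    rw [hi, hb g' hβ n]
    exact (ha g' (i n)).symm
  · intro m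
    constructor
    · rintro ⟨n, rfl⟩ _ ⟨x, hx, rfl⟩
      obtain ⟨g', rfl⟩ := QuotientGroup.mk_surjective x
      apply hext
      rw [hqm, ha g' (i n), hi]
      exact n.toMul.2.1 g' hx
    · intro hm
      have h7 : ∀ g' ∈ A'.comap (QuotientGroup.mk' (RU F Λ.P U)),
          g' ((m.toMul : (AlgebraicClosure F)ˣ) : AlgebraicClosure F) =
            ((m.toMul : (AlgebraicClosure F)ˣ) : AlgebraicClosure F) := by
        intro g' hg'
        have h8 := hm (q (QuotientGroup.mk g')) ⟨QuotientGroup.mk g', hg', rfl⟩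
        rw [hqm] at h8
        rw [← ha g' m, h8]
      refine ⟨Additive.ofMul ⟨(m.toMul : (AlgebraicClosure F)ˣ), h7, m.toMul.2.2⟩, ?_⟩
      exact hext _ _ rfl
  · rintro β ⟨x, hx, hx'⟩
    apply hψ'
    have h7 : q (x⁻¹ * (β : GU F Λ.P U)) = 1 := by
      rw [map_mul, map_inv, hx']
      exact inv_mul_cancel _
    have h8 := A'.mul_mem hx (hkA' h7)
    rwa [mul_inv_cancel_left] at h8

end BKT
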