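import Pool.Agent.Lib.MP_7c08ba_nt.T1.StG
import Pool.Agent.Lib.MP_7c08ba_nt.Met.V.AR

set_option autoImplicit false
set_option linter.unusedSectionVars false

/-!
Parity for general residual representations, module GLT: classes of `GU F P U` with values in
induced modules which are locally trivial.
-/

noncomputable section

namespace BKT

open NumberField IsDedekindDomain BKGen
open BKPar (Loc1 Loc2)
open BKND (Sm)
open BKMet
open BKGlob2 (Cp fs sn CC0 StCJ StCV StCP)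
open BKV (RU GU dc)

namespace GGLT

section Eval

variable {G : Type} [Group G] {A : Subgroup G} {N : Type} [AddCommGroup N]
  (σ : A →* AddMonoid.End N)

/-- evaluation at `1` is equivariant -/
theorem eval_act (a : A) (f : IndM A σ) :
    ((indM A σ (a : G) f : IndM A σ) : G → N) 1 = σ a ((f : G → N) 1) := by
  rw [indM_apply, mul_one]
  have h := f.2 1 a⁻¹
  rw [one_mul, inv_inv] at h
  exact h

variable {C : Type} [Group C] [TopologicalSpace C] [IsTopologicalGroup C] (φ : C →* G)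

theorem eval_B2 {z : G → G → IndM A σ}
    (h : pb2 φ z ∈ BKND.B2 ((indM A σ).comp φ)) :
    pb2 (φ.subgroupComap A) (fun a b : A => ((z a b : IndM A σ) : G → N) 1) ∈
      BKND.B2 (σ.comp (φ.subgroupComap A)) := by
  obtain ⟨β, ⟨W, hW, hβ⟩, hz⟩ := h
  refine ⟨fun b => ((β b : IndM A σ) : G → N) 1, ⟨W.subgroupOf (A.comap φ),
    hW.preimage continuous_subtype_val, fun g w hw => ?_⟩, fun a b => ?_⟩
  · have := hβ g w hw
    exact congrArg (fun f : IndM A σ => (f : G → N) 1) this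
  · have e := congrArg (fun f : IndM A σ => (f : G → N) 1) (hz a b)
    have e2 := eval_act σ (φ.subgroupComap A a) (β b)
    have e3 : ((indM A σ (φ a) (β b) : IndM A σ) : G → N) 1 =
        σ (φ.subgroupComap A a) ((β b : G → N) 1) := e2
    have e4 : (((indM A σ (φ a) (β b) - β (a * b) + β a : IndM A σ)) : G → N) 1 =
        ((indM A σ (φ a) (β b) : IndM A σ) : G → N) 1 - (β (a * b) : G → N) 1 +
          (β a : G → N) 1 := rfl
    have e5 : ((z (φ a) (φ b) : IndM A σ) : G → N) 1 =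
        (((indM A σ (φ a) (β b) - β (a * b) + β a : IndM A σ)) : G → N) 1 := e
    rw [e4, e3] at e5
    exact e5

theorem eval_B1 {f : G → IndM A σ}
    (h : pb1 φ f ∈ BKND.B1 ((indM A σ).comp φ)) :
    pb1 (φ.subgroupComap A) (fun a : A => ((f a : IndM A σ) : G → N) 1) ∈
      BKND.B1 (σ.comp (φ.subgroupComap A)) := by
  obtain ⟨m, hm⟩ := h
  refine ⟨(m : G → N) 1, fun a => ?_⟩
  have e := congrArg (fun f : IndM A σ => (f : G → N) 1) (hm a)
  have e2 := eval_act σ (φ.subgroupComap A a) m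
  have e3 : ((indM A σ (φ a) m : IndM A σ) : G → N) 1 =
      σ (φ.subgroupComap A a) ((m : G → N) 1) := e2
  have e5 : ((f (φ a) : IndM A σ) : G → N) 1 =
      ((indM A σ (φ a) m : IndM A σ) : G → N) 1 - (m : G → N) 1 := e
  rw [e3] at e5
  exact e5

end Eval

/-- the image of an open subgroup is open -/
theorem isOpen_map {F : Type} [Field F] {P : Set ℕ} {U : Subgroup (GF F)}
    (hU : IsOpen (U : Set (GF F))) :
    IsOpen ((U.map (QuotientGroup.mk' (RU F P U)) : Subgroup (GU F P U)) : Set (GU F P U)) := by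
  have h := (QuotientGroup.isOpenMap_coe (N := RU F P U)) _ hU
  rw [Subgroup.coe_map]
  exact h

/-- a normal subgroup contained in `A` on which `σ` is trivial acts trivially on the induced
module -/
theorem act_trivial {G : Type} [Group G] {A : Subgroup G} {N : Type} [AddCommGroup N]
    (σ : A →* AddMonoid.End N) (B : Subgroup G) (hB : B.Normal) (hBA : B ≤ A)
    (hσ : ∀ (b : G) (hb : b ∈ B), σ ⟨b, hBA hb⟩ = 1) (w : G) (hw : w ∈ B) (m : IndM A σ) :
    indM A σ w m = m := by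
  apply Subtype.ext
  funext x
  rw [indM_apply]
  have h1 : x⁻¹ * w⁻¹ * x ∈ B := by
    have := hB.conj_mem w⁻¹ (B.inv_mem hw) x⁻¹
    rwa [inv_inv] at this
  have h2 := m.2 x ⟨x⁻¹ * w⁻¹ * x, hBA h1⟩
  have h3 : w⁻¹ * x = x * (x⁻¹ * w⁻¹ * x) := by group
  rw [h3]
  have h4 : σ (⟨x⁻¹ * w⁻¹ * x, hBA h1⟩ : A)⁻¹ = 1 := by
    have h5 : (⟨x⁻¹ * w⁻¹ * x, hBA h1⟩ : A)⁻¹ = ⟨(x⁻¹ * w⁻¹ * x)⁻¹, hBA (B.inv_mem h1)⟩ := rfl
    rw [h5]
    exact hσ _ (B.inv_mem h1)
  rw [h4] at h2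
  exact h2

end GGLT

open GGLT in
theorem stGlt (h1 : StTwa) (h2 : StOna) (h3 : StShi) (hCJ : StCJ) (hCV : StCV) (hCP : StCP) :
    StGlt := by
  intro p _ F _ _ hF2 hFreal c₀ cc hcc Λ U hsit c hccc A A' hAdm k _ _ _ ψ hψ
  obtain ⟨-, hall⟩ := hCJ F hF2 hFreal c₀ hcc.conj
  obtain ⟨hcccont, -, -, -, hplaces⟩ := hall cc hcc
  -- the normal open subgroup
  obtain ⟨B, hBdef⟩ : ∃ B : Subgroup (GU F Λ.P U),
    B = U.map (QuotientGroup.mk' (RU F Λ.P U)) := ⟨_, rfl⟩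
  have hBo : IsOpen (B : Set (GU F Λ.P U)) := by
    rw [hBdef]
    exact isOpen_map hsit.open'
  have hBn : B.Normal := by
    rw [hBdef]
    exact hsit.normal.map _ (QuotientGroup.mk'_surjective _)
  rw [← hBdef] at hAdm
  have hBA : B ≤ A := hAdm.le.trans hAdm.le'
  have hAo : IsOpen (A : Set (GU F Λ.P U)) := Subgroup.isOpen_mono hBA hBo
  have hσ : ∀ (b : GU F Λ.P U) (hb : b ∈ B), kch ψ ⟨b, hBA hb⟩ = 1 := by
    intro b hb
    ext x
    rw [kch_apply, hψ ⟨b, hBA hb⟩ (hAdm.le hb), Units.val_one, one_mul]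
    rfl
  have hSm : Sm (kch ψ) := ⟨B.subgroupOf A, hBo.preimage continuous_subtype_val,
    fun w hw => hσ w hw⟩
  have hρ : ∀ m : IndM A (kch ψ), ∃ W : Subgroup (GU F Λ.P U),
      IsOpen (W : Set (GU F Λ.P U)) ∧ ∀ w ∈ W, indM A (kch ψ) w m = m := fun m =>
    ⟨B, hBo, fun w hw => act_trivial (kch ψ) B hBn hBA hσ w hw m⟩
  obtain ⟨h3a, h3b⟩ := h3 (GU F Λ.P U) A hAo k (kch ψ) hSm
  refine ⟨fun z hz hloc => ?_, fun f hf hloc => ?_⟩
  · obtain ⟨hz1, hz2⟩ := h3a z hz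
    refine hz2 (h1 p F Λ.P U hsit A A' (hBdef ▸ hAdm) k ψ hψ _ hz1 ?_)
    intro l _ hl j
    obtain ⟨i, rfl⟩ := hl
    have key := BKV.AR.key2 hCP hCV Λ c cc hccc hcccont i j (hplaces Λ i j) (IndM A (kch ψ))
      (indM A (kch ψ)) hρ z hz hloc
    exact eval_B2 (kch ψ) (dc Λ.P U j) key
  · obtain ⟨hz1, hz2⟩ := h3b f hf
    refine hz2 (h2 p F Λ.P U hsit A A' (hBdef ▸ hAdm) k ψ hψ _ hz1 ?_)
    intro l _ hl j
    obtain ⟨i, rfl⟩ := hl
    have key := BKV.AR.key1 hCP hCV Λ c cc hccc hcccont i j (hplaces Λ i j) (IndM A (kch ψ))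
      (indM A (kch ψ)) hρ f hf hloc
    exact eval_B1 (kch ψ) (dc Λ.P U j) key

end BKT
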