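import Pool.Agent.Lib.MP_7c08ba_nt.T1.StY
import Pool.Agent.Lib.MP_7c08ba_nt.Met.V.Stmts

set_option autoImplicit false

/-!
Parity for general residual representations, part G: the global arithmetic for the group
`GU F P U`, where `U` is an open normal subgroup of arbitrary index. Definitions and statements.
-/

noncomputable section

namespace BKT

open NumberField IsDedekindDomain BKGen
open BKPar (Loc1 Loc2)
open BKND (Sm)
open BKMet
open BKLoc2 (hq ht)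
open BKGlob2 (Cp fs sn CC0 Prin SP US IsAct Dw Dx jw)
open BKV (RU GU dc)

/-! ### The situation -/

/-- The situation of the global theorems: `U` is an open normal subgroup which fixes the `p`-th
roots of unity, the elements of the inertia groups outside `P` have order prime to `p` modulo `U`,
and all ideals of the subfields of the field fixed by `U` are principal up to the primes above
`P`. -/
structure SitT (p : ℕ) [Fact p.Prime] (F : Type) [Field F] [NumberField F] (P : Set ℕ)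
    (U : Subgroup (GF F)) : Prop where
  odd : p ≠ 2
  memP : p ∈ P
  finP : P.Finite
  prime : ∀ l ∈ P, l.Prime
  open' : IsOpen (U : Set (GF F))
  normal : U.Normal
  root : ∀ g ∈ U, PadicInt.toZMod ((cycF p F g : ℤ_[p]ˣ) : ℤ_[p]) = 1
  inr : ∀ (l : ℕ) [Fact l.Prime] (j : AlgebraicClosure F →+* PadicAlgCl l), l ∉ P →
    ∀ g ∈ Inert F (AlgebraicClosure F) j, ∃ m : ℕ, ¬ p ∣ m ∧ g ^ m ∈ U
  prin : ∀ A' : Subgroup (GF F), U ≤ A' → ∀ (E : IntermediateField F (AlgebraicClosure F))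
    [NumberField E], (∀ x, x ∈ E ↔ ∀ g ∈ A', g x = x) → Prin (SP E P)

/-- `F₁` is isomorphic to the field fixed by the subgroup `A`: `e` is an isomorphism of the
algebraic closures and `b` is the isomorphism of `GF F₁` with `A`. -/
structure BC (F : Type) [Field F] (A : Subgroup (GF F)) (F₁ : Type) [Field F₁]
    (e : AlgebraicClosure F₁ ≃+* AlgebraicClosure F) (b : GF F₁ →* GF F) : Prop where
  act : ∀ g x, b g (e x) = e (g x)
  emb : Topology.IsOpenEmbedding b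
  range : b.range = A

/-- Module BC: the base change exists. -/
def StBc : Prop :=
  ∀ (F : Type) [Field F] [NumberField F] (A : Subgroup (GF F)), IsOpen (A : Set (GF F)) →
    ∃ (F₁ : Type) (_ : Field F₁) (_ : NumberField F₁)
      (e : AlgebraicClosure F₁ ≃+* AlgebraicClosure F) (b : GF F₁ →* GF F), BC F A F₁ e b

/-- Module PRI: `Prin` is invariant under isomorphisms. -/
def StPri : Prop :=
  ∀ (E E' : Type) [Field E] [NumberField E] [Field E'] [NumberField E'] (_ : E ≃+* E') (P : Set ℕ),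
    Prin (SP E P) → Prin (SP E' P)

/-- Module SITB (from PRI, and CY of `HStmts`): the situation after base change, and the
isomorphism of `GU F₁ P U₁` with the image of `A` in `GU F P U`. -/
def StSitb : Prop :=
  ∀ (p : ℕ) [Fact p.Prime] (F : Type) [Field F] [NumberField F] (P : Set ℕ)
    (U : Subgroup (GF F)), SitT p F P U → ∀ A A' : Subgroup (GF F), Adm p U A A' →
    ∀ (F₁ : Type) [Field F₁] [NumberField F₁] (e : AlgebraicClosure F₁ ≃+* AlgebraicClosure F)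
    (b : GF F₁ →* GF F), BC F A F₁ e b →
    (∃ (E₁ : IntermediateField F₁ (AlgebraicClosure F₁)) (_ : NumberField E₁),
      BKV.Sit p F₁ P (A'.comap b) E₁) ∧
    (∀ g, cycF p F (b g) = cycF p F₁ g) ∧
    ∃ θ : GU F₁ P (A'.comap b) ≃ₜ* (A.map (QuotientGroup.mk' (RU F P U))),
      ∀ g : GF F₁, ((θ (QuotientGroup.mk g) : (A.map (QuotientGroup.mk' (RU F P U)))) :
        GU F P U) = QuotientGroup.mk (b g)

/-! ### Classes which are locally trivial -/

/-- the map from the part of the decomposition group of `j` which is contained in `A` -/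
def dcA {F : Type} [Field F] (P : Set ℕ) (U : Subgroup (GF F)) {l : ℕ} [Fact l.Prime]
    (j : AlgebraicClosure F →+* PadicAlgCl l) (A : Subgroup (GU F P U)) :
    A.comap (dc P U j) →* A :=
  (dc P U j).subgroupComap A

/-- Module TWA (from BC, SITB, and TW of `V`): two-classes of subgroups of `GU F P U`. -/
def StTwa : Prop :=
  ∀ (p : ℕ) [Fact p.Prime] (F : Type) [Field F] [NumberField F] (P : Set ℕ)
    (U : Subgroup (GF F)), SitT p F P U → ∀ A A' : Subgroup (GU F P U),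
    Adm p (U.map (QuotientGroup.mk' (RU F P U))) A A' →
    ∀ (k : Type) [Field k] [Finite k] [Algebra (ZMod p) k] (ψ : A →* kˣ),
    (∀ a : A, (a : GU F P U) ∈ A' → ψ a = 1) → ∀ z ∈ BKND.Z2 (kch ψ),
    (∀ (l : ℕ) [Fact l.Prime], l ∈ P → ∀ j : AlgebraicClosure F →+* PadicAlgCl l,
      pb2 (dcA P U j A) z ∈ BKND.B2 (kch (ψ.comp (dcA P U j A)))) → z ∈ BKND.B2 (kch ψ)

/-- Module ONA (from BC, SITB, and ON of `V`): one-classes of subgroups of `GU F P U`. -/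
def StOna : Prop :=
  ∀ (p : ℕ) [Fact p.Prime] (F : Type) [Field F] [NumberField F] (P : Set ℕ)
    (U : Subgroup (GF F)), SitT p F P U → ∀ A A' : Subgroup (GU F P U),
    Adm p (U.map (QuotientGroup.mk' (RU F P U))) A A' →
    ∀ (k : Type) [Field k] [Finite k] [Algebra (ZMod p) k] (ψ : A →* kˣ),
    (∀ a : A, (a : GU F P U) ∈ A' → ψ a = 1) → ∀ f ∈ BKND.Z1 (kch ψ),
    (∀ (l : ℕ) [Fact l.Prime], l ∈ P → ∀ j : AlgebraicClosure F →+* PadicAlgCl l,
      pb1 (dcA P U j A) f ∈ BKND.B1 (kch (ψ.comp (dcA P U j A)))) → f ∈ BKND.B1 (kch ψ)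

/-- Module SHI: Shapiro's lemma, injectivity in degrees one and two. -/
def StShi : Prop :=
  ∀ (G : Type) [Group G] [TopologicalSpace G] [IsTopologicalGroup G] [CompactSpace G]
    (A : Subgroup G), IsOpen (A : Set G) → ∀ (N : Type) [AddCommGroup N] [Finite N]
    (σ : A →* AddMonoid.End N), Sm σ →
    (∀ z ∈ BKND.Z2 (indM A σ), (fun a b : A => ((z a b : IndM A σ) : G → N) 1) ∈ BKND.Z2 σ ∧
      ((fun a b : A => ((z a b : IndM A σ) : G → N) 1) ∈ BKND.B2 σ →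
        z ∈ BKND.B2 (indM A σ))) ∧
    ∀ f ∈ BKND.Z1 (indM A σ), (fun a : A => ((f a : IndM A σ) : G → N) 1) ∈ BKND.Z1 σ ∧
      ((fun a : A => ((f a : IndM A σ) : G → N) 1) ∈ BKND.B1 σ → f ∈ BKND.B1 (indM A σ))

/-- Module GLT (from TWA, ONA, SHI, and CJ, CV, CP of `HStmts`): classes of `GU F P U` with values
in induced modules which are locally trivial. -/
def StGlt : Prop :=
  ∀ (p : ℕ) [Fact p.Prime] (F : Type) [Field F] [NumberField F], Module.finrank ℚ F = 2 →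
    IsEmpty (F →+* ℝ) → ∀ (c₀ : AlgebraicClosure F ≃+* AlgebraicClosure F) (cc : GF F →* GF F),
    CC0 c₀ cc → ∀ (Λ : Pl F) (U : Subgroup (GF F)), SitT p F Λ.P U →
    ∀ c : GU F Λ.P U →* GU F Λ.P U,
    (∀ g : GF F, c (QuotientGroup.mk g) = QuotientGroup.mk (cc g)) →
    ∀ A A' : Subgroup (GU F Λ.P U),
    Adm p (U.map (QuotientGroup.mk' (RU F Λ.P U))) A A' →
    ∀ (k : Type) [Field k] [Finite k] [Algebra (ZMod p) k] (ψ : A →* kˣ),
    (∀ a : A, (a : GU F Λ.P U) ∈ A' → ψ a = 1) →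
    (∀ z ∈ BKND.Z2 (indM A (kch ψ)),
      (∀ w, pb2 (Λ.loc (QuotientGroup.mk' (RU F Λ.P U)) c w) z ∈
        BKND.B2 ((indM A (kch ψ)).comp (Λ.loc (QuotientGroup.mk' (RU F Λ.P U)) c w))) →
      z ∈ BKND.B2 (indM A (kch ψ))) ∧
    ∀ f ∈ BKND.Z1 (indM A (kch ψ)),
      (∀ w, pb1 (Λ.loc (QuotientGroup.mk' (RU F Λ.P U)) c w) f ∈
        BKND.B1 ((indM A (kch ψ)).comp (Λ.loc (QuotientGroup.mk' (RU F Λ.P U)) c w))) →
      f ∈ BKND.B1 (indM A (kch ψ))

/-! ### The group of `S`-units -/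

/-- The situation for an imaginary quadratic field `F` and the places `Λ`. -/
structure SiqT (p : ℕ) [Fact p.Prime] (F : Type) [Field F] [NumberField F]
    (U : Subgroup (GF F)) (Λ : Pl F) (c₀ : AlgebraicClosure F ≃+* AlgebraicClosure F)
    (cc : GF F →* GF F) : Prop where
  sit : SitT p F Λ.P U
  quad : Module.finrank ℚ F = 2
  imag : IsEmpty (F →+* ℝ)
  cc0 : CC0 c₀ cc

/-- Module PWT (as PW of `V`): elements which generate powers of the primes above `P`. -/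
def StPwt : Prop :=
  ∀ (p : ℕ) [Fact p.Prime] (F : Type) [Field F] [NumberField F]
    (U : Subgroup (GF F)) [U.Normal] (Λ : Pl F)
    (c₀ : AlgebraicClosure F ≃+* AlgebraicClosure F) (cc : GF F →* GF F),
    SiqT p F U Λ c₀ cc → ∀ w : Λ.ι × Bool,
    ∃ π : AlgebraicClosure F, π ≠ 0 ∧ (∀ g ∈ U, g π = π) ∧
    (∀ t, Λ.loc (MonoidHom.id (GF F)) cc w t π = π) ∧
    (∀ (l : ℕ) [Fact l.Prime], l ∉ Λ.P → ∀ j : AlgebraicClosure F →+* PadicAlgCl l,
      ‖j π‖ = 1) ∧ ‖jw Λ c₀ w π‖ < 1 ∧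
    ∀ (w' : Λ.ι × Bool) (g : GF F), (w' ≠ w ∨ (QuotientGroup.mk g : GF F ⧸ U) ∉ Dw U Λ cc w) →
      ‖jw Λ c₀ w' (g π)‖ = 1

/-- Module PNT (as PN of `V`): the number of primes above `P` of the field fixed by `U`. -/
def StPnt : Prop :=
  ∀ (p : ℕ) [Fact p.Prime] (F : Type) [Field F] [NumberField F]
    (U : Subgroup (GF F)) [U.Normal] (E : IntermediateField F (AlgebraicClosure F))
    [NumberField E] (Λ : Pl F) (c₀ : AlgebraicClosure F ≃+* AlgebraicClosure F)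
    (cc : GF F →* GF F), SiqT p F U Λ c₀ cc → (∀ x, x ∈ E ↔ ∀ g ∈ U, g x = x) →
    Nat.card (SP E Λ.P) = ∑ w, (Dw U Λ cc w).index

/-- Module RKT (as RK of `V`): the rank of the group of `S`-units. -/
def StRkt : Prop :=
  ∀ (p : ℕ) [Fact p.Prime] (F : Type) [Field F] [NumberField F], Module.finrank ℚ F = 2 →
    ∀ (P : Set ℕ) (U : Subgroup (GF F)) (E : IntermediateField F (AlgebraicClosure F))
    [NumberField E], SitT p F P U → (∀ x, x ∈ E ↔ ∀ g ∈ U, g x = x) →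
    Module.Finite ℤ (Additive (US F P U)) ∧
    Module.finrank ℤ (Additive (US F P U)) + 1 = U.index + Nat.card (SP E P)

/-- Module CUT (from MU, MI of `HStmts`, and PWT, PNT, RKT; as CU of `V`): the structure of the
group of `S`-units. -/
def StCut : Prop :=
  ∀ (p : ℕ) [Fact p.Prime] (F : Type) [Field F] [NumberField F]
    (U : Subgroup (GF F)) [U.Normal] (Λ : Pl F)
    (c₀ : AlgebraicClosure F ≃+* AlgebraicClosure F) (cc : GF F →* GF F),
    SiqT p F U Λ c₀ cc →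
    ∀ a : GF F ⧸ U →* AddMonoid.End (Additive (US F Λ.P U)), IsAct F Λ.P U a →
    ∃ g : ∀ w : Option (Λ.ι × Bool), ((GF F ⧸ U) ⧸ Dx U Λ cc w) → Additive (US F Λ.P U) × ℤ,
      (∀ (d : GF F ⧸ U) (w : Option (Λ.ι × Bool)) (t : (GF F ⧸ U) ⧸ Dx U Λ cc w),
        g w (d • t) = (a d (g w t).1, (g w t).2)) ∧
      LinearIndependent ℤ (fun x : Σ w, (GF F ⧸ U) ⧸ Dx U Λ cc w => g x.1 x.2) ∧
      (AddSubgroup.closure
        (Set.range fun x : Σ w, (GF F ⧸ U) ⧸ Dx U Λ cc w => g x.1 x.2)).index ≠ 0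

/-- Module CGX (from EIG of `LocStmts`; compare CG of `HStmts`): the number of equivariant
homomorphisms from `k(ψ)` to the group of the elements of `M` fixed by `A'`. -/
def StCgx : Prop :=
  ∀ (p : ℕ) [Fact p.Prime] (Γ : Type) [Group Γ] [Finite Γ] (B : Type) [Group B] (π : B →* Γ)
    (A' : Subgroup Γ), A' ≤ π.range → (∀ β, ∀ x ∈ A', π β * x * (π β)⁻¹ ∈ A') →
    ¬ p ∣ A'.relIndex π.range →
    ∀ (M N : Type) [AddCommGroup M] [AddCommGroup N] (a : Γ →* AddMonoid.End M)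
    (b : B →* AddMonoid.End N) (i : N →+ M), Function.Injective i →
    (∀ β n, i (b β n) = a (π β) (i n)) → (∀ m, m ∈ i.range ↔ ∀ x ∈ A', a x m = m) →
    ∀ (W : Type) [Fintype W] (D : W → Subgroup Γ) (g : ∀ w, (Γ ⧸ D w) → M × ℤ),
    (∀ (d : Γ) (w : W) (t : Γ ⧸ D w), g w (d • t) = (a d (g w t).1, (g w t).2)) →
    LinearIndependent ℤ (fun x : Σ w, Γ ⧸ D w => g x.1 x.2) →
    (AddSubgroup.closure (Set.range fun x : Σ w, Γ ⧸ D w => g x.1 x.2)).index ≠ 0 →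
    Finite {x : N // p • x = 0} → ∀ (k : Type) [Field k] [Finite k] [Algebra (ZMod p) k]
    (ψ : B →* kˣ), (∀ β, π β ∈ A' → ψ β = 1) →
    hq p (kch ψ) b * Nat.card (BKND.H0 (kch ψ)) =
      (∏ w, Nat.card {f : Γ ⧸ D w → k // ∀ β t, f (π β • t) = ((ψ β : kˣ) : k) * f t}) *
        ht (kch ψ) b

/-- `b` is the action of the subgroup `A` of `GU F P U` on the `S`-units fixed by `A'` -/
def IsActA (F : Type) [Field F] (P : Set ℕ) (U A' : Subgroup (GF F)) (A : Subgroup (GU F P U))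
    (b : A →* AddMonoid.End (Additive (US F P A'))) : Prop :=
  ∀ (g : GF F) (hg : (QuotientGroup.mk g : GU F P U) ∈ A) (x : Additive (US F P A')),
    (((b ⟨QuotientGroup.mk g, hg⟩ x).toMul : (AlgebraicClosure F)ˣ) : AlgebraicClosure F) =
      g ((x.toMul : (AlgebraicClosure F)ˣ) : AlgebraicClosure F)

/-- Module UAA: the action exists. -/
def StUaa : Prop :=
  ∀ (p : ℕ) [Fact p.Prime] (F : Type) [Field F] (P : Set ℕ) (U : Subgroup (GF F)),
    IsOpen (U : Set (GF F)) → ∀ A A' : Subgroup (GU F P U),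
    Adm p (U.map (QuotientGroup.mk' (RU F P U))) A A' →
    ∃ b : A →* AddMonoid.End (Additive (US F P (A'.comap (QuotientGroup.mk' (RU F P U))))),
      IsActA F P U (A'.comap (QuotientGroup.mk' (RU F P U))) A b

/-- Module CEA (from BC, SITB, and CE, CT of `V`): the Kummer description of `Z¹(A, k(ψ))`. -/
def StCea : Prop :=
  ∀ (p : ℕ) [Fact p.Prime] (F : Type) [Field F] [NumberField F] (P : Set ℕ)
    (U : Subgroup (GF F)), SitT p F P U → ∀ A A' : Subgroup (GU F P U),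
    Adm p (U.map (QuotientGroup.mk' (RU F P U))) A A' →
    ∀ (k : Type) [Field k] [Finite k] [Algebra (ZMod p) k] (ψ ψ' : A →* kˣ),
    (∀ a : A, (a : GU F P U) ∈ A' → ψ a = 1) → (∀ a : A, (a : GU F P U) ∈ A' → ψ' a = 1) →
    ∀ χ : GU F P U →* ℤ_[p]ˣ, (∀ g : GF F, χ (QuotientGroup.mk g) = cycF p F g) →
    Rel (χ.comp A.subtype) ψ ψ' →
    ∀ b : A →* AddMonoid.End (Additive (US F P (A'.comap (QuotientGroup.mk' (RU F P U))))),
    IsActA F P U (A'.comap (QuotientGroup.mk' (RU F P U))) A b →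
    Nat.card (BKND.Z1 (kch ψ)) * Nat.card (BKND.H0 (kch ψ)) =
      Nat.card k * hq p (kch ψ') b ∧
    Finite {x : Additive (US F P (A'.comap (QuotientGroup.mk' (RU F P U)))) // p • x = 0} ∧
    ht (kch ψ') b = Nat.card (BKND.H0 (kch ψ))

/-- Module GCA (from UA of `HStmts`, UAA, CEA, CGX, CUT, LSH): the global Euler characteristic. -/
def StGca : Prop :=
  ∀ (p : ℕ) [Fact p.Prime] (F : Type) [Field F] [NumberField F] (U : Subgroup (GF F)) (Λ : Pl F)
    (c₀ : AlgebraicClosure F ≃+* AlgebraicClosure F) (cc : GF F →* GF F),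
    SiqT p F U Λ c₀ cc →
    ∀ (χ : GU F Λ.P U →* ℤ_[p]ˣ) (c : GU F Λ.P U →* GU F Λ.P U),
    (∀ g : GF F, χ (QuotientGroup.mk g) = cycF p F g) →
    (∀ g : GF F, c (QuotientGroup.mk g) = QuotientGroup.mk (cc g)) →
    ∀ A A' : Subgroup (GU F Λ.P U), Adm p (U.map (QuotientGroup.mk' (RU F Λ.P U))) A A' →
    ∀ (k : Type) [Field k] [Finite k] [Algebra (ZMod p) k] (ψ ψ' : A →* kˣ),
    (∀ a : A, (a : GU F Λ.P U) ∈ A' → ψ a = 1) →
    (∀ a : A, (a : GU F Λ.P U) ∈ A' → ψ' a = 1) → Rel (χ.comp A.subtype) ψ ψ' →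
    Nat.card (BKND.Z1 (indM A (kch ψ))) * Nat.card (BKND.H0 (indM A (kch ψ'))) =
      Nat.card (IndM A (kch ψ)) ^ 2 * ∏ w, Nat.card (BKND.H0 ((indM A (kch ψ')).comp
        (Λ.loc (QuotientGroup.mk' (RU F Λ.P U)) c w)))

/-! ### The reciprocity law and the assembly -/

/-- Module UIT (from UN, CP of `HStmts`, TRM; compare UI of `V`): two-classes of `GU F P U` are
trivial at the places outside `P`. -/
def StUit : Prop :=
  ∀ (p : ℕ) [Fact p.Prime], p ≠ 2 → ∀ (F : Type) [Field F] [NumberField F] (P : Set ℕ)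
    (U : Subgroup (GF F)), U.Normal → IsOpen (U : Set (GF F)) → p ∈ P →
    (∀ (l : ℕ) [Fact l.Prime] (j : AlgebraicClosure F →+* PadicAlgCl l), l ∉ P →
      ∀ g ∈ Inert F (AlgebraicClosure F) j, ∃ m : ℕ, ¬ p ∣ m ∧ g ^ m ∈ U) →
    ∀ χ : GU F P U →* ℤ_[p]ˣ, (∀ g : GF F, χ (QuotientGroup.mk g) = cycF p F g) →
    ∀ z ∈ BKND.Z2 (actA χ), ∀ (l : ℕ) [Fact l.Prime], l ∉ P →
    ∀ j : AlgebraicClosure F →+* PadicAlgCl l,
    pb2 (dc P U j) z ∈ BKND.B2 (actA (χ.comp (dc P U j)))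

/-- The arithmetic input for the group `G = GU F P U₀`, for all finite modules. -/
structure ArithT (p : ℕ) [Fact p.Prime] {F : Type} [Field F] (Λ : Pl F) (U₀ : Subgroup (GF F))
    (χ : GU F Λ.P U₀ →* ℤ_[p]ˣ) (c : GU F Λ.P U₀ →* GU F Λ.P U₀)
    (inv : ∀ i, (GQ (Λ.l i) → GQ (Λ.l i) → QZ p) →+ QZ p) : Prop where
  loc : ∀ i, LocG p (cycL p (Λ.l i)) (inv i) (if Λ.l i = p then 1 else 0)
  glob : GlobI p (Λ.loc (QuotientGroup.mk' (RU F Λ.P U₀)) c) χ
    (U₀.map (QuotientGroup.mk' (RU F Λ.P U₀)))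
  /-- the reciprocity law -/
  recip : ∀ z ∈ BKND.Z2 (actA χ),
    ∑ i, (inv i (pb2 (Λ.loc (QuotientGroup.mk' (RU F Λ.P U₀)) c (i, false)) z) -
      inv i (pb2 (Λ.loc (QuotientGroup.mk' (RU F Λ.P U₀)) c (i, true)) z)) = 0

/-- Module ART2 (from LOG, GLT, GCA, UIT, and LI, LAM, CY, CP, CJ, PL, PR, SA, RE of `HStmts`;
compare AR of `V`): **the arithmetic theorem.** -/
def StArithT : Prop :=
  ∀ (p : ℕ) [Fact p.Prime], p ≠ 2 → ∀ (F : Type) [Field F] [NumberField F],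
    Module.finrank ℚ F = 2 → IsEmpty (F →+* ℝ) → Splits F p →
    ∀ c₀ : AlgebraicClosure F ≃+* AlgebraicClosure F, IsConj c₀ →
    ∀ P₀ : Set ℕ, P₀.Finite → (∀ l ∈ P₀, Splits F l) → p ∈ P₀ →
    ∀ U₀ : Subgroup (GF F), U₀.Normal → IsOpen (U₀ : Set (GF F)) →
    (∀ g ∈ U₀, PadicInt.toZMod ((cycF p F g : ℤ_[p]ˣ) : ℤ_[p]) = 1) →
    (∀ (l : ℕ) [Fact l.Prime] (j : AlgebraicClosure F →+* PadicAlgCl l), l ∉ P₀ →
      ∀ g ∈ Inert F (AlgebraicClosure F) j, ∃ m : ℕ, ¬ p ∣ m ∧ g ^ m ∈ U₀) →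
    (∀ g ∈ U₀, ∀ g' : GF F, (∀ z, g' (c₀ z) = c₀ (g z)) → g' ∈ U₀) →
    ∃ Λ : Pl F, P₀ ⊆ Λ.P ∧ (∃ l ∈ Λ.P, l ≠ p) ∧
      ∀ (χ : GU F Λ.P U₀ →* ℤ_[p]ˣ) (c : GU F Λ.P U₀ →* GU F Λ.P U₀),
      (∀ g : GF F, χ (QuotientGroup.mk g) = cycF p F g) →
      (∀ g g' : GF F, (∀ z, g' (c₀ z) = c₀ (g z)) →
        c (QuotientGroup.mk g) = QuotientGroup.mk g') →
      ∃ inv : ∀ i, (GQ (Λ.l i) → GQ (Λ.l i) → QZ p) →+ QZ p, ArithT p Λ U₀ χ c inv

end BKT
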