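import Pool.Agent.Lib.MP_7c08ba_nt.Met.V.RQ
import Pool.Agent.Lib.MP_7c08ba_nt.T1.StG

set_option autoImplicit false

/-!
Module ONA: one-classes of subgroups of `GU F P U`.
-/

noncomputable section

namespace BKT

open NumberField IsDedekindDomain BKGen
open BKPar (Loc1 Loc2)
open BKMet
open BKGlob2 (Cp fs sn)
open BKV (RU GU dc)

namespace GONA

/-- The preimage of an admissible pair of subgroups of `GU F P U` in `GF F`. -/
theorem adm_comap {p : ℕ} [Fact p.Prime] {F : Type} [Field F] [NumberField F] {P : Set ℕ}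
    {U : Subgroup (GF F)} (hS : SitT p F P U) {A A' : Subgroup (GU F P U)}
    (hA : Adm p (U.map (QuotientGroup.mk' (RU F P U))) A A') :
    Adm p U (A.comap (QuotientGroup.mk' (RU F P U))) (A'.comap (QuotientGroup.mk' (RU F P U))) := by
  have hRU : RU F P U ≤ U := BKV.RQAux.RU_le_U hS.normal hS.open'
  refine ⟨?_, ?_, ?_, ?_, ?_⟩
  · intro u hu
    exact hA.le ⟨u, hu, rfl⟩
  · exact Subgroup.comap_mono hA.le'
  · intro a ha x hx
    have h := hA.nor _ ha _ hx
    exact h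
  · rw [Subgroup.relIndex_comap, Subgroup.map_comap_eq_self_of_surjective
      (QuotientGroup.mk'_surjective _)]
    exact hA.idx
  · intro x hx
    obtain ⟨n, u, hu, hux⟩ := hA.pgr _ hx
    refine ⟨n, ?_⟩
    have h1 : (QuotientGroup.mk u : GU F P U) = QuotientGroup.mk (x ^ p ^ n) := hux
    have h2 : u⁻¹ * x ^ p ^ n ∈ RU F P U := QuotientGroup.eq.1 h1
    have h3 := U.mul_mem hu (hRU h2)
    rwa [mul_inv_cancel_left] at h3

theorem open_comap {p : ℕ} [Fact p.Prime] {F : Type} [Field F] [NumberField F] {P : Set ℕ}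
    {U : Subgroup (GF F)} (hS : SitT p F P U) {A A' : Subgroup (GU F P U)}
    (hA : Adm p (U.map (QuotientGroup.mk' (RU F P U))) A A') :
    IsOpen ((A.comap (QuotientGroup.mk' (RU F P U)) : Subgroup (GF F)) : Set (GF F)) :=
  Subgroup.isOpen_mono ((adm_comap hS hA).le.trans (adm_comap hS hA).le') hS.open'

end GONA

open GONA in
/-- Module ONA. -/
theorem stOna (h1 : StBc) (h2 : StSitb) (h3 : BKV.StON) : StOna := by
  intro p _ F _ _ P U hS A A' hA k _ _ _ ψ hψ f hf hloc
  set q := QuotientGroup.mk' (RU F P U) with hq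
  obtain ⟨F₁, _, _, e, b, hBC⟩ := h1 F (A.comap q) (open_comap hS hA)
  obtain ⟨⟨E₁, _, hsit⟩, -, θ, hθ⟩ := h2 p F P U hS (A.comap q) (A'.comap q) (adm_comap hS hA)
    F₁ e b hBC
  have hmap : (A.comap q).map q = A :=
    Subgroup.map_comap_eq_self_of_surjective (QuotientGroup.mk'_surjective _) A
  let ι : ((A.comap q).map q : Subgroup (GU F P U)) →* A := Subgroup.inclusion hmap.le
  have hιc : Continuous ι := continuous_inclusion hmap.le
  let τ : GU F₁ P ((A'.comap q).comap b) →* A := ι.comp θ.toMulEquiv.toMonoidHom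
  have hτc : Continuous τ := hιc.comp θ.continuous
  have hτ : ∀ g : GF F₁, ((τ (QuotientGroup.mk g) : A) : GU F P U) = QuotientGroup.mk (b g) :=
    fun g => hθ g
  have hsurj : ∀ a : A, ∃ x, τ x = a := by
    intro a
    refine ⟨θ.symm ⟨(a : GU F P U), hmap.ge a.2⟩, ?_⟩
    apply Subtype.ext
    show ((θ (θ.symm ⟨(a : GU F P U), hmap.ge a.2⟩) : ((A.comap q).map q : Subgroup (GU F P U))) :
      GU F P U) = (a : GU F P U)
    rw [ContinuousMulEquiv.apply_symm_apply]
  have key := h3 p F₁ P ((A'.comap q).comap b) E₁ hsit k (ψ.comp τ) (by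
    intro g hg
    refine hψ (τ (QuotientGroup.mk g)) ?_
    rw [hτ]
    exact hg) (fun x => f (τ x)) ⟨?_, ?_⟩ ?_
  · obtain ⟨m, hm⟩ := key
    refine ⟨m, fun a => ?_⟩
    obtain ⟨x, rfl⟩ := hsurj a
    exact hm x
  · obtain ⟨W, hW, hWf⟩ := hf.1
    refine ⟨W.comap τ, hW.preimage hτc, fun g w hw => ?_⟩
    show f (τ (g * w)) = f (τ g)
    rw [map_mul]
    exact hWf (τ g) (τ w) hw
  · intro g h
    show f (τ (g * h)) = f (τ g) + kch (ψ.comp τ) g (f (τ h))
    rw [map_mul, hf.2 (τ g) (τ h)]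
    rfl
  · intro l _ hl j'
    let j : AlgebraicClosure F →+* PadicAlgCl l := j'.comp (e.symm : AlgebraicClosure F →+*
      AlgebraicClosure F₁)
    obtain ⟨m, hm⟩ := hloc l hl j
    refine ⟨m, ?_⟩
    rintro ⟨⟨g, t⟩, hgt⟩
    have hx : ((b g, t) : GF F × GQ l) ∈ Cp (MonoidHom.id (GF F)) j := by
      intro z
      show j' (e.symm (b g z)) = t (j' (e.symm z))
      obtain ⟨z', rfl⟩ := e.surjective z
      rw [hBC.act, RingEquiv.symm_apply_apply, RingEquiv.symm_apply_apply]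
      exact hgt z'
    have hA1 : (QuotientGroup.mk (b g) : GU F P U) ∈ A := by
      have h4 : b g ∈ A.comap q := by
        rw [← hBC.range]
        exact ⟨g, rfl⟩
      exact h4
    have h5 := hm ⟨⟨(b g, t), hx⟩, hA1⟩
    have h6 : dcA P U j A ⟨⟨(b g, t), hx⟩, hA1⟩ = τ (QuotientGroup.mk g) := by
      apply Subtype.ext
      rw [hτ]
      rfl
    have h7 : f (dcA P U j A ⟨⟨(b g, t), hx⟩, hA1⟩) =
        kch ψ (dcA P U j A ⟨⟨(b g, t), hx⟩, hA1⟩) m - m := h5
    rw [h6] at h7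
    exact h7

end BKT
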