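import Pool.Agent.Lib.MP_7c08ba_nt.T1.StG
import Pool.Agent.Lib.MP_7c08ba_nt.Met.HPN
import Pool.Agent.Lib.MP_7c08ba_nt.Met.GPA

set_option autoImplicit false

/-!
Parity for general residual representations, module PNT: the number of primes above `P` of the
field fixed by `U`.
-/

noncomputable section

namespace BKT

open NumberField IsDedekindDomain BKGen BKGen.SUnits BKGlob2
open BKMet (QZ actA kch Rel GF GQ cycF cycL IsConj Pl Splits)

open BKGlob2.PNAux in
theorem stPnt : StPnt := by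
  intro p _ F _ _ U _ E _ Λ c₀ cc hS hE
  have hfU : Finite (GF F ⧸ U) := Subgroup.quotient_finite_of_isOpen U hS.sit.open'
  let f : (Σ w : Λ.ι × Bool, (GF F ⧸ U) ⧸ Dw U Λ cc w) → SP E Λ.P := fun x =>
    ⟨pl (eps E Λ c₀ x.1 (x.2.out.out)), Λ.l x.1.1, ⟨x.1.1, rfl⟩, l_mem_plI _⟩
  have hf : Function.Bijective f := by
    constructor
    · rintro ⟨w, a⟩ ⟨w', a'⟩ h
      have h2 : pl (eps E Λ c₀ w (a.out.out)) = pl (eps E Λ c₀ w' (a'.out.out)) :=
        congrArg Subtype.val h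
      obtain ⟨rfl, h3⟩ := pl_inj (U := U) stPA hS.cc0 hS.sit.open' hE w w' _ _ h2
      rw [QuotientGroup.out_eq', QuotientGroup.out_eq', ← QuotientGroup.eq,
        QuotientGroup.out_eq', QuotientGroup.out_eq'] at h3
      rw [h3]
    · rintro ⟨v, hv⟩
      obtain ⟨w, g, hg⟩ := pl_surj hS.quad hS.cc0 v hv
      refine ⟨⟨w, QuotientGroup.mk (QuotientGroup.mk g)⟩, Subtype.ext ?_⟩
      refine Eq.trans ?_ hg
      apply pl_same hS.cc0 hE
      rw [QuotientGroup.out_eq', ← QuotientGroup.eq, QuotientGroup.out_eq']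
  rw [← Nat.card_congr (Equiv.ofBijective f hf), Nat.card_sigma]
  rfl

end BKT
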