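import Pool.Agent.Lib.MP_7c08ba_nt.T1.StG

set_option autoImplicit false

/-!
Parity for general residual representations, part G, module PRI: `Prin` is invariant under
isomorphisms.
-/

noncomputable section

namespace BKT

open NumberField IsDedekindDomain
open BKGlob2 (Prin SP)

namespace GPRI

section

variable {R S : Type} [CommRing R] [IsDedekindDomain R] [CommRing S] [IsDedekindDomain S]

/-- the inverse image of a prime -/
def cm (φ : R ≃+* S) (v : HeightOneSpectrum S) : HeightOneSpectrum R :=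
  HeightOneSpectrum.comap (φ : R →+* S) φ.surjective v

lemma mem_cm (φ : R ≃+* S) (v : HeightOneSpectrum S) (r : R) :
    r ∈ (cm φ v).asIdeal ↔ φ r ∈ v.asIdeal := Iff.rfl

lemma cm_inj (φ : R ≃+* S) {v w : HeightOneSpectrum S} (h : cm φ v = cm φ w) : v = w := by
  apply HeightOneSpectrum.ext
  ext s
  have h1 : ∀ r : R, φ r ∈ v.asIdeal ↔ φ r ∈ w.asIdeal := by
    intro r
    rw [← mem_cm, ← mem_cm, h]
  obtain ⟨r, rfl⟩ := φ.surjective s
  exact h1 r

lemma mem_pow_cm (φ : R ≃+* S) (v : HeightOneSpectrum S) (n : ℕ) (r : R) :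
    r ∈ (cm φ v).asIdeal ^ n ↔ φ r ∈ v.asIdeal ^ n := by
  have h1 : (cm φ v).asIdeal = v.asIdeal.map (φ.symm : S →+* R) := by
    rw [Ideal.map_comap_of_equiv]
    rfl
  rw [h1, ← Ideal.map_pow, Ideal.map_comap_of_equiv]
  exact Iff.rfl

lemma intVal_cm (φ : R ≃+* S) (v : HeightOneSpectrum S) (r : R) :
    (cm φ v).intValuation r = v.intValuation (φ r) := by
  by_cases hr : r = 0
  · rw [hr, map_zero, map_zero, map_zero]
  · have hr' : φ r ≠ 0 := by simpa using hr
    have key : ∀ n : ℕ, (cm φ v).intValuation r ≤ WithZero.exp (-(n : ℤ)) ↔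
        v.intValuation (φ r) ≤ WithZero.exp (-(n : ℤ)) := by
      intro n
      rw [HeightOneSpectrum.intValuation_le_pow_iff_mem,
        HeightOneSpectrum.intValuation_le_pow_iff_mem, mem_pow_cm]
    have h1 := HeightOneSpectrum.intValuation_if_neg (cm φ v) hr
    have h2 := HeightOneSpectrum.intValuation_if_neg v hr'
    apply le_antisymm
    · rw [h2, key, h2]
    · rw [h1, ← key, h1]

variable {K L : Type} [Field K] [Field L] [Algebra R K] [IsFractionRing R K] [Algebra S L]
  [IsFractionRing S L]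

lemma val_cm (φ : R ≃+* S) (σ : K ≃+* L) (h : ∀ r : R, σ (algebraMap R K r) = algebraMap S L (φ r))
    (v : HeightOneSpectrum S) (x : K) : (cm φ v).valuation K x = v.valuation L (σ x) := by
  obtain ⟨a, b, hb, rfl⟩ := IsFractionRing.div_surjective (A := R) x
  rw [map_div₀, map_div₀, map_div₀, h, h, HeightOneSpectrum.valuation_of_algebraMap,
    HeightOneSpectrum.valuation_of_algebraMap, HeightOneSpectrum.valuation_of_algebraMap,
    HeightOneSpectrum.valuation_of_algebraMap, intVal_cm, intVal_cm]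

end

end GPRI

open GPRI in
/-- Module PRI. -/
theorem stPri : StPri := by
  intro E E' _ _ _ _ σ P hP v' hv'
  set φ : 𝓞 E ≃+* 𝓞 E' := RingOfIntegers.mapRingEquiv σ with hφ
  have hσ : ∀ r : 𝓞 E, σ (algebraMap (𝓞 E) E r) = algebraMap (𝓞 E') E' (φ r) := fun r => rfl
  have hS : ∀ w : HeightOneSpectrum (𝓞 E'), w ∉ SP E' P → cm φ w ∉ SP E P := by
    intro w hw hw'
    apply hw
    obtain ⟨l, hl, hl'⟩ := hw'
    refine ⟨l, hl, ?_⟩
    rw [mem_cm, map_natCast] at hl'
    exact hl'
  obtain ⟨x, hx1, hx2⟩ := hP (cm φ v') (hS v' hv')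
  refine ⟨Units.map (σ : E →* E') x, ?_, ?_⟩
  · have h1 := val_cm φ σ hσ v' (x : E)
    rw [hx1] at h1
    exact h1.symm
  · intro w hw hwv
    have h1 := val_cm φ σ hσ w (x : E)
    rw [hx2 (cm φ w) (hS w hw) (fun h => hwv (cm_inj φ h))] at h1
    exact h1.symm

end BKT
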