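import Pool.Agent.Lib.MP_7c08ba_nt.Met.HRK
import Pool.Agent.Lib.MP_7c08ba_nt.Met.GPB
import Pool.Agent.Lib.MP_7c08ba_nt.Met.GSB
import Pool.Agent.Lib.MP_7c08ba_nt.T1.StG

set_option autoImplicit false

/-!
Module RKT: the rank of the group of `S`-units, for open normal subgroups of arbitrary index.
-/

noncomputable section

namespace BKT

open NumberField IsDedekindDomain BKGen BKGen.SUnits BKGlob2
open BKMet (GF cycF)
open BKGlob2.RK (eq_of_mem finite_SP val_iff)

namespace GRKT

variable {F : Type} [Field F] [NumberField F] {P : Set ℕ}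
  {U : Subgroup (GF F)} {E : IntermediateField F (AlgebraicClosure F)} [NumberField E]

/-- the map from the `S`-units of `E` -/
def toUS (h2 : StPB) (hE : ∀ x, x ∈ E ↔ ∀ g ∈ U, g x = x) (hP : ∀ l ∈ P, l.Prime) :
    (SP E P).unit E →* US F P U :=
  ((Units.map (algebraMap E (AlgebraicClosure F)).toMonoidHom).comp
    ((SP E P).unit E).subtype).codRestrict (US F P U) (by
      rintro ⟨x, hx⟩
      refine ⟨fun g hg => ?_, fun l _ hl J => ?_⟩
      · exact (hE _).1 (x : E).2 g hg
      · refine (val_iff h2 J x).2 (hx _ ?_)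
        rintro ⟨l', hl', hm⟩
        have h3 : (l : 𝓞 E) ∈ (pl (J.comp (algebraMap E (AlgebraicClosure F)))).asIdeal :=
          l_mem_plI _
        have h4 := eq_of_mem (Fact.out : l.Prime) (hP l' hl') _ h3 hm
        exact hl (h4 ▸ hl'))

theorem toUS_val (h2 : StPB) (hE : ∀ x, x ∈ E ↔ ∀ g ∈ U, g x = x) (hP : ∀ l ∈ P, l.Prime)
    (x : (SP E P).unit E) :
    ((toUS h2 hE hP x : (AlgebraicClosure F)ˣ) : AlgebraicClosure F) =
      algebraMap E (AlgebraicClosure F) ((x : Eˣ) : E) := rfl

theorem toUS_bijective (h2 : StPB) (hE : ∀ x, x ∈ E ↔ ∀ g ∈ U, g x = x) (hP : ∀ l ∈ P, l.Prime) :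
    Function.Bijective (toUS h2 hE hP) := by
  constructor
  · intro x y h
    have h1 : algebraMap E (AlgebraicClosure F) ((x : Eˣ) : E) =
        algebraMap E (AlgebraicClosure F) ((y : Eˣ) : E) := by
      rw [← toUS_val h2 hE hP x, ← toUS_val h2 hE hP y, h]
    exact Subtype.ext (Units.ext ((algebraMap E (AlgebraicClosure F)).injective h1))
  · rintro ⟨y, hy1, hy2⟩
    have hyE : (y : AlgebraicClosure F) ∈ E := (hE _).2 hy1
    have hy0 : (⟨(y : AlgebraicClosure F), hyE⟩ : E) ≠ 0 := fun h =>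
      y.ne_zero (congrArg Subtype.val h)
    have hmem : Units.mk0 (⟨(y : AlgebraicClosure F), hyE⟩ : E) hy0 ∈ (SP E P).unit E := by
      intro v hv
      obtain ⟨l, hl, j, hj⟩ := exists_pl v
      obtain ⟨J, hJ⟩ := BKGlob2.ON.exists_lift E j
      have hlP : l ∉ P := by
        intro h
        apply hv
        refine ⟨l, h, ?_⟩
        rw [← hj]
        exact l_mem_plI j
      have h3 := (val_iff h2 J (Units.mk0 (⟨(y : AlgebraicClosure F), hyE⟩ : E) hy0)).1
        (hy2 l hlP J)
      rw [hJ, hj] at h3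
      exact h3
    exact ⟨⟨_, hmem⟩, Subtype.ext (Units.ext rfl)⟩

theorem finrank_eq (hF : Module.finrank ℚ F = 2) (hU : IsOpen (U : Set (GF F)))
    (hE : ∀ x, x ∈ E ↔ ∀ g ∈ U, g x = x) :
    Module.finrank ℚ E = 2 * U.index := by
  have h1 : Module.finrank ℚ E = Module.finrank ℚ F * Module.finrank F E :=
    (Module.finrank_mul_finrank ℚ F E).symm
  have : CharZero (AlgebraicClosure F) := charZero_of_injective_algebraMap
    (algebraMap F (AlgebraicClosure F)).injective
  have h2 : E.fixingSubgroup = U := by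
    ext g
    rw [IntermediateField.mem_fixingSubgroup_iff]
    constructor
    · intro h
      exact BKGlob2.ON.mem_of_fix hU hE g h
    · intro h x hx
      exact (hE x).1 hx g h
  have h3 : Module.finrank F E = U.index := by
    rw [← h2]
    exact IntermediateField.finrank_eq_fixingSubgroup_index (AlgebraicClosure F) E
  rw [h1, hF, h3]

end GRKT

open GRKT in
/-- Module RKT, from the modules SB and PB. -/
theorem stRkt' (h1 : StSB) (h2 : StPB) : StRkt := by
  intro p _ F _ _ hF P U E _ hS hE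
  have hP := hS.prime
  have hfin := finite_SP (E := E) hS.finP hP
  obtain ⟨ζ, hζ⟩ := BKGlob2.ON.exists_zeta p F
  have hζU : ∀ g ∈ U, g ζ = ζ := fun g hg => BKGlob2.ON.zeta_fix hζ g (hS.root g hg)
  have hζE : ζ ∈ E := (hE ζ).2 hζU
  have hζE' : IsPrimitiveRoot (⟨ζ, hζE⟩ : E) p := by
    have : IsPrimitiveRoot (algebraMap E (AlgebraicClosure F) ⟨ζ, hζE⟩) p := hζ
    exact this.of_map_of_injective (algebraMap E (AlgebraicClosure F)).injective
  obtain ⟨h3, h4, -, -⟩ := h1 p Fact.out hS.odd E _ hζE' hfin.toFinset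
  rw [hfin.coe_toFinset] at h3 h4
  let e : (SP E P).unit E ≃* US F P U := MulEquiv.ofBijective _ (toUS_bijective h2 hE hP)
  let f : Additive ((SP E P).unit E) ≃ₗ[ℤ] Additive (US F P U) :=
    (MulEquiv.toAdditive e).toIntLinearEquiv
  have hc : Nat.card (SP E P) = hfin.toFinset.card := by
    rw [Nat.card_coe_set_eq, Set.ncard_eq_toFinset_card _ hfin]
  refine ⟨Module.Finite.equiv f, ?_⟩
  rw [← f.finrank_eq, h4, hc, finrank_eq hF hS.open' hE, Nat.mul_div_cancel_left _ two_pos]

/-- Module RKT. -/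
theorem stRkt : StRkt := stRkt' stSB stPB

end BKT
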