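import Pool.Agent.Lib.MP_7c08ba_nt.T1.StLoc

set_option autoImplicit false

/-!
Parity for general residual representations: module LSH, cocycles with values in an induced
module.
-/

noncomputable section

namespace BKT

open BKPar (Loc1 Loc2)
open BKND (Sm)
open BKMet

namespace LLSH

section Alg

variable {G : Type} [Group G] (A : Subgroup G)

/-- the component in `A`, for the chosen representatives of the classes `x A` -/
def bb (x : G) : A :=
  ⟨((QuotientGroup.mk x : G ⧸ A).out)⁻¹ * x, QuotientGroup.eq.1 (QuotientGroup.out_eq' _)⟩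

theorem bb_val (x : G) : (bb A x : G) = ((QuotientGroup.mk x : G ⧸ A).out)⁻¹ * x := rfl

theorem out_mul_bb (x : G) : (QuotientGroup.mk x : G ⧸ A).out * (bb A x : G) = x := by
  rw [bb_val, mul_inv_cancel_left]

theorem mk_mul (x : G) (a : A) : (QuotientGroup.mk (x * a) : G ⧸ A) = QuotientGroup.mk x :=
  QuotientGroup.mk_mul_of_mem x a.2

theorem bb_mul (x : G) (a : A) : bb A (x * a) = bb A x * a := by
  apply Subtype.ext
  rw [Subgroup.coe_mul, bb_val, bb_val, mk_mul, mul_assoc]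

theorem bb_out (q : G ⧸ A) : bb A q.out = 1 := by
  apply Subtype.ext
  rw [bb_val, QuotientGroup.out_eq', inv_mul_cancel, Subgroup.coe_one]

variable {N : Type} [AddCommGroup N] (σ : A →* AddMonoid.End N)

/-- an induced module is a module of functions on the classes -/
def equivFun : IndM A σ ≃ (G ⧸ A → N) where
  toFun f q := (f : G → N) q.out
  invFun F := ⟨fun x => σ (bb A x)⁻¹ (F (QuotientGroup.mk x)), fun g a => by
    change σ (bb A (g * a))⁻¹ (F (QuotientGroup.mk (g * a))) =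
      σ a⁻¹ (σ (bb A g)⁻¹ (F (QuotientGroup.mk g)))
    rw [bb_mul, mk_mul, mul_inv_rev, map_mul]
    rfl⟩
  left_inv f := by
    apply Subtype.ext
    funext x
    change σ (bb A x)⁻¹ ((f : G → N) (QuotientGroup.mk x : G ⧸ A).out) = (f : G → N) x
    rw [← f.2 (QuotientGroup.mk x : G ⧸ A).out (bb A x), out_mul_bb]
  right_inv F := by
    funext q
    change σ (bb A q.out)⁻¹ (F (QuotientGroup.mk q.out)) = F q
    rw [bb_out, inv_one, map_one, QuotientGroup.out_eq']
    rfl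

/-- the invariants of an induced module -/
def equivH0 : BKND.H0 (indM A σ) ≃ BKND.H0 σ where
  toFun f := ⟨((f : IndM A σ) : G → N) 1, fun a => by
    have h1 := (f : IndM A σ).2 1 a⁻¹
    rw [inv_inv, one_mul] at h1
    rw [← h1]
    have h2 := congrArg (fun m : IndM A σ => (m : G → N) 1) (f.2 (a : G))
    have h3 : ((f : IndM A σ) : G → N) ((a : G)⁻¹ * 1) = ((f : IndM A σ) : G → N) 1 := h2
    rw [mul_one] at h3
    exact h3⟩
  invFun n := ⟨⟨fun _ => n, fun g a => (n.2 a⁻¹).symm⟩, fun g => rfl⟩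
  left_inv f := by
    apply Subtype.ext
    apply Subtype.ext
    funext x
    have h2 := congrArg (fun m : IndM A σ => (m : G → N) x) (f.2 x)
    have h3 : ((f : IndM A σ) : G → N) (x⁻¹ * x) = ((f : IndM A σ) : G → N) x := h2
    rw [inv_mul_cancel] at h3
    exact h3
  right_inv n := rfl

open Classical in
/-- the function supported on `A` with the value `c` at `1` -/
def dl (c : N) : IndM A σ :=
  ⟨fun x => if h : x ∈ A then σ (⟨x, h⟩ : A)⁻¹ c else 0, fun g a => by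
    change (if h : g * a ∈ A then σ (⟨g * a, h⟩ : A)⁻¹ c else 0) =
      σ a⁻¹ (if h : g ∈ A then σ (⟨g, h⟩ : A)⁻¹ c else 0)
    by_cases h : g ∈ A
    · have h' : g * a ∈ A := A.mul_mem h a.2
      have e : (⟨g * a, h'⟩ : A) = ⟨g, h⟩ * a := rfl
      rw [dif_pos h, dif_pos h', e, mul_inv_rev, map_mul]
      rfl
    · have h' : g * a ∉ A := fun h' => h ((Subgroup.mul_mem_cancel_right A a.2).1 h')
      rw [dif_neg h, dif_neg h', map_zero]⟩

open Classical in
theorem dl_one (c : N) : (dl A σ c : G → N) 1 = c := by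
  have h : (1 : G) ∈ A := A.one_mem
  have e : (⟨1, h⟩ : A) = 1 := rfl
  change (if h : (1 : G) ∈ A then σ (⟨1, h⟩ : A)⁻¹ c else 0) = c
  rw [dif_pos h, e, inv_one, map_one]
  rfl

/-- functions on `G` whose translates under `A` are given by a cocycle `w` -/
def Tw (w : A → N) (v : G → N) : Prop := ∀ (a : A) (g : G), v (a * g) = w a + σ a (v g)

variable {A σ}

/-- the standard function with `Tw` -/
def vw (w : A → N) (g : G) : N := w (bb A g⁻¹)⁻¹

theorem tw_vw {w : A → N} (hw : ∀ a b, w (a * b) = w a + σ a (w b)) : Tw A σ w (vw w) := by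
  intro a g
  change w (bb A ((a : G) * g)⁻¹)⁻¹ = w a + σ a (w (bb A g⁻¹)⁻¹)
  have e : ((a : G) * g)⁻¹ = g⁻¹ * ((a⁻¹ : A) : G) := by
    rw [mul_inv_rev]
    rfl
  rw [e, bb_mul, mul_inv_rev, inv_inv, hw]

theorem Tw.sub {w : A → N} {v v' : G → N} (h : Tw A σ w v) (h' : Tw A σ w v') :
    (fun x => v x⁻¹ - v' x⁻¹) ∈ IndM A σ := by
  intro g a
  change v (g * a)⁻¹ - v' (g * a)⁻¹ = σ a⁻¹ (v g⁻¹ - v' g⁻¹)
  have e : (g * (a : G))⁻¹ = ((a⁻¹ : A) : G) * g⁻¹ := by
    rw [mul_inv_rev]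
    rfl
  rw [e, h, h', map_sub]
  abel

theorem Tw.add {w : A → N} {v : G → N} (h : Tw A σ w v) {m : G → N} (hm : m ∈ IndM A σ) :
    Tw A σ w (fun x => v x + m x⁻¹) := by
  intro a g
  have e : ((a : G) * g)⁻¹ = g⁻¹ * ((a⁻¹ : A) : G) := by
    rw [mul_inv_rev]
    rfl
  change v (a * g) + m ((a : G) * g)⁻¹ = w a + σ a (v g + m g⁻¹)
  rw [e, h, hm g⁻¹ a⁻¹, inv_inv, map_add]
  abel

end Alg

section Top

variable {G : Type} [Group G] [TopologicalSpace G] [IsTopologicalGroup G] [CompactSpace G]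
  {A : Subgroup G} {N : Type} [AddCommGroup N] {σ : A →* AddMonoid.End N}

theorem exists_open (hA : IsOpen (A : Set G)) (W : Subgroup A) (hW : IsOpen (W : Set A)) :
    ∃ V : Subgroup G, IsOpen (V : Set G) ∧
      ∀ v ∈ V, ∀ x : G, ∃ w ∈ W, x⁻¹ * v * x = ((w : A) : G) := by
  have h1 : IsOpen ((W.map A.subtype : Subgroup G) : Set G) := by
    rw [Subgroup.coe_map]
    exact hA.isOpenMap_subtype_val _ hW
  have h2 : Finite (G ⧸ W.map A.subtype) := Subgroup.quotient_finite_of_isOpen _ h1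
  have h3 : (W.map A.subtype).FiniteIndex := Subgroup.finiteIndex_of_finite_quotient
  have h4 : (W.map A.subtype).normalCore.FiniteIndex := Subgroup.finiteIndex_normalCore _
  refine ⟨(W.map A.subtype).normalCore, Subgroup.isOpen_of_isClosed_of_finiteIndex _
    (Subgroup.normalCore_isClosed _ (Subgroup.isClosed_of_isOpen _ h1)), fun v hv x => ?_⟩
  have h5 : x⁻¹ * v * x⁻¹⁻¹ ∈ (W.map A.subtype).normalCore :=
    (Subgroup.normalCore_normal _).conj_mem v hv x⁻¹
  rw [inv_inv] at h5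
  obtain ⟨w, hw, e⟩ := (W.map A.subtype).normalCore_le h5
  exact ⟨w, hw, e.symm⟩

theorem sm_indM (hA : IsOpen (A : Set G)) (hσ : Sm σ) : Sm (indM A σ) := by
  obtain ⟨W, hW, hW'⟩ := hσ
  obtain ⟨V, hV, hV'⟩ := exists_open hA W hW
  refine ⟨V, hV, fun v hv => ?_⟩
  ext f x
  change (f : G → N) (v⁻¹ * x) = (f : G → N) x
  obtain ⟨w, hw, e⟩ := hV' v⁻¹ (V.inv_mem hv) x
  have e' : v⁻¹ * x = x * (w : G) := by
    rw [← e]
    group
  rw [e', f.2 x w, hW' w⁻¹ (W.inv_mem hw)]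
  rfl

theorem Tw.loc1 (hA : IsOpen (A : Set G)) (hσ : Sm σ) {w : A → N} (hw : Loc1 w) {v : G → N}
    (h : Tw A σ w v) : Loc1 v := by
  obtain ⟨W, hW, hW'⟩ := hσ
  obtain ⟨W₁, hW₁, hW₁'⟩ := hw
  have h1 : IsOpen ((W ⊓ W₁ : Subgroup A) : Set A) := by
    rw [Subgroup.coe_inf]
    exact hW.inter hW₁
  obtain ⟨V, hV, hV'⟩ := exists_open hA _ h1
  refine ⟨V, hV, fun g u hu => ?_⟩
  have e0 := out_mul_bb A g⁻¹
  set x := (QuotientGroup.mk g⁻¹ : G ⧸ A).out with hx
  set b := bb A g⁻¹ with hb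
  obtain ⟨t, ht, e⟩ := hV' u hu x
  have e1 : g = ((b⁻¹ : A) : G) * x⁻¹ := by
    rw [← inv_inv g, ← e0, mul_inv_rev]
    rfl
  have e2 : g * u = ((b⁻¹ * t : A) : G) * x⁻¹ := by
    rw [Subgroup.coe_mul, ← e, e1]
    group
  rw [e2, h, hW₁' b⁻¹ t ht.2, map_mul, hW' t ht.1, mul_one, ← h, ← e1]

omit [TopologicalSpace G] [IsTopologicalGroup G] [CompactSpace G] in
/-- the function on `G` attached to a cocycle with values in the induced module -/
theorem tw_of {z : G → IndM A σ} (hz : ∀ g h, z (g * h) = z g + indM A σ g (z h)) :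
    Tw A σ (fun a => (z a : G → N) 1) (fun g => (z g : G → N) 1) := by
  intro a g
  change (z (a * g) : G → N) 1 = (z a : G → N) 1 + σ a ((z g : G → N) 1)
  rw [hz]
  change (z a : G → N) 1 + (z g : G → N) ((a : G)⁻¹ * 1) = _
  have h1 := (z g).2 1 a⁻¹
  rw [inv_inv] at h1
  have e : (a : G)⁻¹ * 1 = 1 * ((a⁻¹ : A) : G) := by
    rw [mul_one, one_mul]
    rfl
  rw [e, h1]

omit [TopologicalSpace G] [IsTopologicalGroup G] [CompactSpace G] in
theorem eq_of {z : G → IndM A σ} (hz : ∀ g h, z (g * h) = z g + indM A σ g (z h)) (h x : G) :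
    (z h : G → N) x = (z (x⁻¹ * h) : G → N) 1 - (z x⁻¹ : G → N) 1 := by
  rw [hz]
  change (z h : G → N) x = (z x⁻¹ : G → N) 1 + (z h : G → N) (x⁻¹⁻¹ * 1) - (z x⁻¹ : G → N) 1
  rw [inv_inv, mul_one]
  abel

omit [TopologicalSpace G] [IsTopologicalGroup G] [CompactSpace G] in
theorem one_of {z : G → IndM A σ} (hz : ∀ g h, z (g * h) = z g + indM A σ g (z h)) :
    (z 1 : G → N) 1 = 0 := by
  have h := hz 1 1
  rw [mul_one, map_one] at h
  have h' : z 1 = z 1 + z 1 := h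
  have h'' : z 1 = 0 := by
    have := left_eq_add.1 h'
    exact this
  rw [h'']
  rfl

/-- the restriction of a cocycle to `A`, followed by the evaluation at `1` -/
def res (z : BKND.Z1 (indM A σ)) : BKND.Z1 σ :=
  ⟨fun a => ((z : G → IndM A σ) a : G → N) 1, by
    obtain ⟨⟨W, hW, hW'⟩, hz⟩ := z.2
    refine ⟨⟨W.comap A.subtype, hW.preimage continuous_subtype_val, fun a u hu => ?_⟩,
      fun a b => ?_⟩
    · change ((z : G → IndM A σ) ((a : G) * (u : G)) : G → N) 1 = _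
      rw [hW' a u hu]
    · exact tw_of hz a b⟩

/-- the comparison of cocycles -/
def Φ (y : BKND.Z1 (indM A σ) × N) : BKND.Z1 σ × IndM A σ :=
  (res y.1, ⟨fun x => ((y.1 : G → IndM A σ) x⁻¹ : G → N) 1 - vw (res y.1 : A → N) x⁻¹,
    (tw_of y.1.2.2).sub (tw_vw (res y.1).2.2)⟩ + dl A σ y.2)

theorem Φ_snd (y : BKND.Z1 (indM A σ) × N) (x : G) : ((Φ y).2 : G → N) x =
    ((y.1 : G → IndM A σ) x⁻¹ : G → N) 1 - vw (res y.1 : A → N) x⁻¹ + (dl A σ y.2 : G → N) x := rfl

theorem Φ_inj : Function.Injective (Φ (A := A) (σ := σ)) := by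
  rintro ⟨z, c⟩ ⟨z', c'⟩ h
  have h1 : res z = res z' := congrArg Prod.fst h
  have h2 : ∀ x : G, ((z : G → IndM A σ) x⁻¹ : G → N) 1 - vw (res z : A → N) x⁻¹ +
      (dl A σ c : G → N) x = ((z' : G → IndM A σ) x⁻¹ : G → N) 1 - vw (res z' : A → N) x⁻¹ +
      (dl A σ c' : G → N) x := by
    intro x
    have := congrArg (fun y : BKND.Z1 σ × IndM A σ => (y.2 : G → N) x) h
    exact this
  have h3 : c = c' := by
    have := h2 1
    rw [inv_one, one_of z.2.2, one_of z'.2.2, dl_one, dl_one, h1] at this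
    exact add_left_cancel this
  subst h3
  have h4 : ∀ g : G, ((z : G → IndM A σ) g : G → N) 1 = ((z' : G → IndM A σ) g : G → N) 1 := by
    intro g
    have := h2 g⁻¹
    rw [inv_inv, h1] at this
    exact sub_left_injective (add_right_cancel this)
  have h5 : z = z' := by
    apply Subtype.ext
    funext h
    apply Subtype.ext
    funext x
    rw [eq_of z.2.2, eq_of z'.2.2, h4, h4]
  rw [h5]

theorem Φ_surj (hA : IsOpen (A : Set G)) (hσ : Sm σ) :
    Function.Surjective (Φ (A := A) (σ := σ)) := by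
  rintro ⟨w, m⟩
  set c : N := (m : G → N) 1 + vw (w : A → N) 1 with hc
  set v : G → N := fun g => vw (w : A → N) g + ((m - dl A σ c : IndM A σ) : G → N) g⁻¹ with hv
  have hvt : Tw A σ w v := (tw_vw w.2.2).add (m - dl A σ c).2
  have hv1 : v 1 = 0 := by
    change vw (w : A → N) 1 + ((m : G → N) 1⁻¹ - (dl A σ c : G → N) 1⁻¹) = 0
    rw [inv_one, dl_one, hc]
    abel
  have hvl : Loc1 v := hvt.loc1 hA hσ w.2.1
  have hva : ∀ a : A, v a = (w : A → N) a := by
    intro a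
    have := hvt a 1
    rw [hv1, map_zero, add_zero, mul_one] at this
    exact this
  obtain ⟨W, hW, hW'⟩ := hvl
  let z : BKND.Z1 (indM A σ) := ⟨fun h => ⟨fun x => v (x⁻¹ * h) - v x⁻¹, fun x a => by
      change v ((x * a)⁻¹ * h) - v (x * a)⁻¹ = σ a⁻¹ (v (x⁻¹ * h) - v x⁻¹)
      have e : (x * (a : G))⁻¹ = ((a⁻¹ : A) : G) * x⁻¹ := by
        rw [mul_inv_rev]
        rfl
      rw [e, mul_assoc, hvt, hvt, map_sub]
      abel⟩, ⟨W, hW, fun g u hu => by
      apply Subtype.ext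
      funext x
      change v (x⁻¹ * (g * u)) - v x⁻¹ = v (x⁻¹ * g) - v x⁻¹
      rw [← mul_assoc, hW' _ u hu]⟩, fun g h => by
      apply Subtype.ext
      funext x
      change v (x⁻¹ * (g * h)) - v x⁻¹ =
        v (x⁻¹ * g) - v x⁻¹ + (v ((g⁻¹ * x)⁻¹ * h) - v (g⁻¹ * x)⁻¹)
      rw [mul_inv_rev, inv_inv, mul_assoc x⁻¹ g h]
      abel⟩
  have hz : ∀ g : G, ((z : G → IndM A σ) g : G → N) 1 = v g := by
    intro g
    change v (1⁻¹ * g) - v 1⁻¹ = v g
    rw [inv_one, one_mul, hv1, sub_zero]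
  have hr : res z = w := by
    apply Subtype.ext
    funext a
    change ((z : G → IndM A σ) (a : G) : G → N) 1 = (w : A → N) a
    rw [hz, hva]
  refine ⟨(z, c), Prod.ext hr ?_⟩
  apply Subtype.ext
  funext x
  rw [Φ_snd]
  change ((z : G → IndM A σ) x⁻¹ : G → N) 1 - vw (res z : A → N) x⁻¹ + (dl A σ c : G → N) x =
    (m : G → N) x
  rw [hz, hr]
  change vw (w : A → N) x⁻¹ + ((m : G → N) x⁻¹⁻¹ - (dl A σ c : G → N) x⁻¹⁻¹) -
    vw (w : A → N) x⁻¹ + (dl A σ c : G → N) x = (m : G → N) x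
  rw [inv_inv]
  abel

end Top

end LLSH

open LLSH in
theorem stLsh : StLsh := by
  intro G _ _ _ _ A hA k _ _ ψ hψ
  have hfin : Finite (G ⧸ A) := A.quotient_finite_of_isOpen hA
  have hcard : Nat.card (IndM A (kch ψ)) = Nat.card k ^ A.index := by
    rw [Nat.card_congr (equivFun A (kch ψ)), Nat.card_fun]
    rfl
  refine ⟨hcard, sm_indM hA hψ, Nat.card_congr (equivH0 A (kch ψ)), ?_⟩
  rw [← hcard, ← Nat.card_prod, ← Nat.card_prod]
  exact Nat.card_congr (Equiv.ofBijective _ ⟨Φ_inj, Φ_surj hA hψ⟩)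

end BKT
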