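import Pool.Agent.Lib.MP_7c08ba_nt.T1.StG
import Pool.Agent.Lib.MP_7c08ba_nt.T1.LLSH

set_option autoImplicit false

/-!
Parity for general residual representations: module SHI, Shapiro's lemma (injectivity in degrees
one and two).
-/

noncomputable section

namespace BKT

open BKPar (Loc1 Loc2)
open BKND (Sm)
open BKMet

namespace GSHI

open LLSH

section Alg

variable {G : Type} [Group G] {A : Subgroup G} {N : Type} [AddCommGroup N]
  {σ : A →* AddMonoid.End N}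

theorem val_inv (f : IndM A σ) (a : A) : (f : G → N) (a : G)⁻¹ = σ a ((f : G → N) 1) := by
  have h1 := f.2 1 a⁻¹
  rw [inv_inv, one_mul] at h1
  exact h1

/-- the values of a two-cocycle at an arbitrary element -/
theorem z_eq {z : G → G → IndM A σ}
    (hz : ∀ g h k, indM A σ g (z h k) - z (g * h) k + z g (h * k) - z g h = 0) (h k x : G) :
    (z h k : G → N) x = (z (x⁻¹ * h) k : G → N) 1 - (z x⁻¹ (h * k) : G → N) 1 +
      (z x⁻¹ h : G → N) 1 := by
  have h1 := congrArg (fun f : IndM A σ => (f : G → N) 1) (hz x⁻¹ h k)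
  change (z h k : G → N) (x⁻¹⁻¹ * 1) - (z (x⁻¹ * h) k : G → N) 1 + (z x⁻¹ (h * k) : G → N) 1 -
    (z x⁻¹ h : G → N) 1 = 0 at h1
  rw [inv_inv, mul_one] at h1
  rw [sub_eq_zero] at h1
  rw [← h1]
  abel

/-- the cocycle relation for the values at `1` -/
theorem v_eq {z : G → G → IndM A σ}
    (hz : ∀ g h k, indM A σ g (z h k) - z (g * h) k + z g (h * k) - z g h = 0) (a : A) (h k : G) :
    σ a ((z h k : G → N) 1) = (z (a * h) k : G → N) 1 - (z a (h * k) : G → N) 1 +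
      (z a h : G → N) 1 := by
  rw [← val_inv, z_eq hz, inv_inv]

/-- the component in `A` -/
def rr (A : Subgroup G) (g : G) : A := (bb A g⁻¹)⁻¹

/-- the representative -/
def tt (A : Subgroup G) (g : G) : G := ((QuotientGroup.mk g⁻¹ : G ⧸ A).out)⁻¹

theorem rr_mul_tt (g : G) : (rr A g : G) * tt A g = g := by
  have h1 := out_mul_bb A g⁻¹
  have h2 : (rr A g : G) * tt A g =
    ((QuotientGroup.mk g⁻¹ : G ⧸ A).out * (bb A g⁻¹ : G))⁻¹ := by
    rw [mul_inv_rev]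
    rfl
  rw [h2, h1, inv_inv]

theorem rr_mul (a : A) (g : G) : rr A (a * g) = a * rr A g := by
  have e : ((a : G) * g)⁻¹ = g⁻¹ * ((a⁻¹ : A) : G) := by
    rw [mul_inv_rev]
    rfl
  change (bb A ((a : G) * g)⁻¹)⁻¹ = a * (bb A g⁻¹)⁻¹
  rw [e, bb_mul, mul_inv_rev, inv_inv]

theorem tt_mul (a : A) (g : G) : tt A (a * g) = tt A g := by
  have e : ((a : G) * g)⁻¹ = g⁻¹ * ((a⁻¹ : A) : G) := by
    rw [mul_inv_rev]
    rfl
  change ((QuotientGroup.mk ((a : G) * g)⁻¹ : G ⧸ A).out)⁻¹ = _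
  rw [e, mk_mul]
  rfl

/-- the function `w` -/
def ww (v : G → G → N) (β : A → N) (g : G) : N := β (rr A g) - v (rr A g) (tt A g)

theorem ww_mul {v : G → G → N} {β : A → N}
    (hv : ∀ (a : A) (h k : G), σ a (v h k) = v (a * h) k - v a (h * k) + v a h)
    (hβ : ∀ a b : A, v a b = σ a (β b) - β (a * b) + β a) (b : A) (g : G) :
    ww v β (b * g) = σ b (ww v β g) - v b g + β b := by
  have h1 := hv b (rr A g) (tt A g)
  have h2 := hβ b (rr A g)
  have h3 := rr_mul_tt (A := A) g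
  unfold ww
  rw [rr_mul, tt_mul, map_sub, h1, h3, h2]
  change β (b * rr A g) - v ((b : G) * (rr A g : G)) (tt A g) = _
  abel

/-- the one-cochain -/
def γγ (v : G → G → N) (w : G → N)
    (h : ∀ (b : A) (g k : G), v (b * g) k + w (b * g * k) - w (b * g) =
      σ b (v g k + w (g * k) - w g)) (k : G) : IndM A σ :=
  ⟨fun x => v x⁻¹ k + w (x⁻¹ * k) - w x⁻¹, fun x a => by
    change v (x * a)⁻¹ k + w ((x * a)⁻¹ * k) - w (x * a)⁻¹ =
      σ a⁻¹ (v x⁻¹ k + w (x⁻¹ * k) - w x⁻¹)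
    have e : (x * (a : G))⁻¹ = ((a⁻¹ : A) : G) * x⁻¹ := by
      rw [mul_inv_rev]
      rfl
    rw [e, h]⟩

end Alg

section Top

variable {G : Type} [Group G] [TopologicalSpace G] [IsTopologicalGroup G] [CompactSpace G]
  {A : Subgroup G} {N : Type} [AddCommGroup N] {σ : A →* AddMonoid.End N}

theorem ww_loc (hA : IsOpen (A : Set G)) {v : G → G → N} {β : A → N} (hv : Loc2 v)
    (hβ : Loc1 β) : Loc1 (ww v β) := by
  obtain ⟨W, hW, hW'⟩ := hv
  obtain ⟨W₁, hW₁, hW₁'⟩ := hβ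
  have h1 : IsOpen ((W.comap A.subtype ⊓ W₁ : Subgroup A) : Set A) := by
    rw [Subgroup.coe_inf]
    exact (hW.preimage continuous_subtype_val).inter hW₁
  obtain ⟨V, hV, hV'⟩ := exists_open hA _ h1
  refine ⟨V, hV, fun g u hu => ?_⟩
  obtain ⟨t, ht, e⟩ := hV' u hu (tt A g)⁻¹
  rw [inv_inv] at e
  have e0 := rr_mul_tt (A := A) g
  have e1 : g * u = ((rr A g * t : A) : G) * tt A g := by
    rw [Subgroup.coe_mul, ← e]
    nth_rewrite 1 [← e0]
    group
  have e2 : rr A (tt A g) = 1 := by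
    have h2 := rr_mul (rr A g) (tt A g)
    rw [e0] at h2
    exact mul_eq_left.1 h2.symm
  have e3 : tt A (tt A g) = tt A g := by
    have h2 := tt_mul (rr A g) (tt A g)
    rw [e0] at h2
    exact h2.symm
  unfold ww
  rw [e1, rr_mul, tt_mul, e2, e3, mul_one, hW₁' (rr A g) t ht.2, Subgroup.coe_mul]
  have h3 := hW' (rr A g : G) (tt A g) (t : G) ht.1 1 W.one_mem
  rw [mul_one] at h3
  rw [h3]

theorem two (hA : IsOpen (A : Set G)) {z : G → G → IndM A σ} (hz : z ∈ BKND.Z2 (indM A σ)) :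
    (fun a b : A => ((z a b : IndM A σ) : G → N) 1) ∈ BKND.Z2 σ ∧
      ((fun a b : A => ((z a b : IndM A σ) : G → N) 1) ∈ BKND.B2 σ →
        z ∈ BKND.B2 (indM A σ)) := by
  obtain ⟨⟨W, hW, hW'⟩, hz⟩ := hz
  refine ⟨⟨⟨W.comap A.subtype, hW.preimage continuous_subtype_val,
    fun a b u hu u' hu' => ?_⟩, fun a b c => ?_⟩, ?_⟩
  · change ((z ((a : G) * (u : G)) ((b : G) * (u' : G)) : IndM A σ) : G → N) 1 = _
    rw [hW' a b u hu u' hu']
  · have h1 := v_eq hz a b c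
    rw [h1]
    change (z ((a : G) * b) c : G → N) 1 - (z a ((b : G) * c) : G → N) 1 + (z a b : G → N) 1 -
      (z ((a : G) * b) c : G → N) 1 + (z a ((b : G) * c) : G → N) 1 - (z a b : G → N) 1 = 0
    abel
  · rintro ⟨β, hβ, hβ'⟩
    set v : G → G → N := fun g h => (z g h : G → N) 1 with hv
    have hv1 : ∀ (a : A) (h k : G), σ a (v h k) = v (a * h) k - v a (h * k) + v a h :=
      fun a h k => v_eq hz a h k
    have hv2 : ∀ (a b : A), v a b = σ a (β b) - β (a * b) + β a := hβ'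
    have hvl : Loc2 v := ⟨W, hW, fun g h u hu u' hu' => by
      change ((z (g * u) (h * u') : IndM A σ) : G → N) 1 = _
      rw [hW' g h u hu u' hu']⟩
    have hw := ww_mul hv1 hv2
    have hwl : Loc1 (ww v β) := ww_loc hA hvl hβ
    have key : ∀ (b : A) (g k : G), v (b * g) k + ww v β (b * g * k) - ww v β (b * g) =
        σ b (v g k + ww v β (g * k) - ww v β g) := by
      intro b g k
      rw [mul_assoc, hw, hw, map_sub, map_add, hv1]
      abel
    obtain ⟨V, hV, hV'⟩ := hwl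
    refine ⟨γγ v (ww v β) key, ⟨W ⊓ V, ?_, fun k u hu => ?_⟩, fun h k => ?_⟩
    · rw [Subgroup.coe_inf]
      exact hW.inter hV
    · apply Subtype.ext
      funext x
      change v x⁻¹ (k * u) + ww v β (x⁻¹ * (k * u)) - ww v β x⁻¹ =
        v x⁻¹ k + ww v β (x⁻¹ * k) - ww v β x⁻¹
      have h3 : v x⁻¹ (k * u) = v x⁻¹ k := by
        change (z x⁻¹ (k * u) : G → N) 1 = (z x⁻¹ k : G → N) 1
        have h4 := hW' x⁻¹ k 1 W.one_mem u hu.1
        rw [mul_one] at h4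
        rw [h4]
      rw [h3, ← mul_assoc, hV' _ u hu.2]
    · apply Subtype.ext
      funext x
      change (z h k : G → N) x = (v (h⁻¹ * x)⁻¹ k + ww v β ((h⁻¹ * x)⁻¹ * k) -
        ww v β (h⁻¹ * x)⁻¹) - (v x⁻¹ (h * k) + ww v β (x⁻¹ * (h * k)) - ww v β x⁻¹) +
        (v x⁻¹ h + ww v β (x⁻¹ * h) - ww v β x⁻¹)
      have e : (h⁻¹ * x)⁻¹ = x⁻¹ * h := by
        rw [mul_inv_rev, inv_inv]
      rw [e, ← mul_assoc x⁻¹ h k, z_eq hz]
      change v (x⁻¹ * h) k - v x⁻¹ (h * k) + v x⁻¹ h = _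
      abel

omit [IsTopologicalGroup G] [CompactSpace G] in
theorem one {f : G → IndM A σ} (hf : f ∈ BKND.Z1 (indM A σ)) :
    (fun a : A => ((f a : IndM A σ) : G → N) 1) ∈ BKND.Z1 σ ∧
      ((fun a : A => ((f a : IndM A σ) : G → N) 1) ∈ BKND.B1 σ → f ∈ BKND.B1 (indM A σ)) := by
  have h0 := (res (σ := σ) ⟨f, hf⟩).2
  refine ⟨h0, ?_⟩
  rintro ⟨n, hn⟩
  have hn' : ∀ a : A, ((f a : IndM A σ) : G → N) 1 = σ a n - n := hn
  have hf' := hf.2
  refine ⟨⟨fun x => (f x⁻¹ : G → N) 1 + n, fun x a => ?_⟩, fun g => ?_⟩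
  · change (f (x * a)⁻¹ : G → N) 1 + n = σ a⁻¹ ((f x⁻¹ : G → N) 1 + n)
    have e : (x * (a : G))⁻¹ = ((a⁻¹ : A) : G) * x⁻¹ := by
      rw [mul_inv_rev]
      rfl
    have h1 : (f (((a⁻¹ : A) : G) * x⁻¹) : G → N) 1 =
        (f ((a⁻¹ : A) : G) : G → N) 1 + σ a⁻¹ ((f x⁻¹ : G → N) 1) := tw_of hf' a⁻¹ x⁻¹
    rw [e, h1, hn', map_add]
    abel
  · apply Subtype.ext
    funext x
    change (f g : G → N) x = ((f (g⁻¹ * x)⁻¹ : G → N) 1 + n) - ((f x⁻¹ : G → N) 1 + n)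
    have e : (g⁻¹ * x)⁻¹ = x⁻¹ * g := by
      rw [mul_inv_rev, inv_inv]
    rw [e, eq_of hf' g x]
    abel

end Top

end GSHI

theorem stShi : StShi := by
  intro G _ _ _ _ A hA N _ _ σ _
  exact ⟨fun z hz => GSHI.two hA hz, fun f hf => GSHI.one hf⟩

end BKT
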