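import Pool.Agent.Lib.MP_7c08ba_nt.T1.StG
import Pool.Agent.Lib.MP_7c08ba_nt.Met.V.RQ
import Pool.Agent.Lib.MP_7c08ba_nt.Met.HCY

set_option autoImplicit false
set_option linter.unusedSectionVars false

/-!
Module SITB: the situation after base change, and the isomorphism of `GU F₁ P U₁` with the image of
`A` in `GU F P U`.
-/

noncomputable section

namespace BKT

open NumberField IsDedekindDomain BKGen
open BKMet
open BKGlob2 (Prin SP)
open BKV (RU GU InertAwayU)

namespace GSITB

section Group

variable {p : ℕ} [hp : Fact p.Prime]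

/-- an element whose powers of exponents `p ^ n` and `m`, `m` prime to `p`, are in `U` -/
theorem mem_of_pow {G : Type*} [Group G] {U : Subgroup G} (hn : U.Normal) {g : G} {n m : ℕ}
    (h1 : g ^ p ^ n ∈ U) (hm : ¬ p ∣ m) (h2 : g ^ m ∈ U) : g ∈ U := by
  have e1 : (QuotientGroup.mk g : G ⧸ U) ^ p ^ n = 1 :=
    (QuotientGroup.eq_one_iff (g ^ p ^ n)).2 h1
  have e2 : (QuotientGroup.mk g : G ⧸ U) ^ m = 1 := (QuotientGroup.eq_one_iff (g ^ m)).2 h2
  have h6 : orderOf (QuotientGroup.mk g : G ⧸ U) ∣ Nat.gcd m (p ^ n) :=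
    Nat.dvd_gcd (orderOf_dvd_of_pow_eq_one e2) (orderOf_dvd_of_pow_eq_one e1)
  have h7 : Nat.gcd m (p ^ n) = 1 :=
    (((Nat.Prime.coprime_iff_not_dvd hp.out).2 hm).symm.pow_right n)
  rw [h7, Nat.dvd_one] at h6
  exact (QuotientGroup.eq_one_iff g).1 (orderOf_eq_one_iff.1 h6)

end Group

section Base

variable {F : Type} [Field F] {A : Subgroup (GF F)} {F₁ : Type} [Field F₁]
  {e : AlgebraicClosure F₁ ≃+* AlgebraicClosure F} {b : GF F₁ →* GF F} (h : BC F A F₁ e b)

include h

theorem inert_iff {l : ℕ} [Fact l.Prime] (j : AlgebraicClosure F →+* PadicAlgCl l) (g : GF F₁) :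
    g ∈ Inert F₁ (AlgebraicClosure F₁) (j.comp (e : AlgebraicClosure F₁ →+* AlgebraicClosure F)) ↔
      b g ∈ Inert F (AlgebraicClosure F) j := by
  constructor
  · intro hg y hy
    have h1 := hg (e.symm y) (by
      change ‖j (e (e.symm y))‖ ≤ 1
      rwa [e.apply_symm_apply])
    change ‖j (e (g (e.symm y) - e.symm y))‖ < 1 at h1
    rw [map_sub, ← h.act, e.apply_symm_apply] at h1
    exact h1
  · intro hg x hx
    have h1 := hg (e x) hx
    change ‖j (e (g x - x))‖ < 1
    rw [map_sub, ← h.act]
    exact h1

theorem inj : Function.Injective b := h.emb.injective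

theorem mem_range {g : GF F} (hg : g ∈ A) : ∃ g₁, b g₁ = g := by
  rw [← h.range] at hg
  exact hg

theorem b_mem (g : GF F₁) : b g ∈ A := by
  rw [← h.range]
  exact ⟨g, rfl⟩

theorem comp_symm {l : ℕ} [Fact l.Prime] (j : AlgebraicClosure F₁ →+* PadicAlgCl l) :
    (j.comp (e.symm : AlgebraicClosure F →+* AlgebraicClosure F₁)).comp
      (e : AlgebraicClosure F₁ →+* AlgebraicClosure F) = j := by
  ext x
  change j (e.symm (e x)) = j x
  rw [e.symm_apply_apply]

end Base

section RUeq

variable {p : ℕ} [hp : Fact p.Prime] {F : Type} [Field F] [NumberField F] {P : Set ℕ}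
  {U : Subgroup (GF F)} (hS : SitT p F P U) {A A' : Subgroup (GF F)} (hA : Adm p U A A')
  {F₁ : Type} [Field F₁] [NumberField F₁] {e : AlgebraicClosure F₁ ≃+* AlgebraicClosure F}
  {b : GF F₁ →* GF F} (h : BC F A F₁ e b)

include hS hA h

theorem normal₁ : (A'.comap b).Normal := by
  constructor
  intro x hx g
  change b (g * x * g⁻¹) ∈ A'
  rw [map_mul, map_mul, map_inv]
  exact hA.nor _ (b_mem h g) _ hx

theorem inertU {l : ℕ} [Fact l.Prime] (hl : l ∉ P) (j : AlgebraicClosure F →+* PadicAlgCl l)
    {g : GF F} (hg : g ∈ Inert F (AlgebraicClosure F) j) (hgA : g ∈ A') : g ∈ U := by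
  obtain ⟨n, hn⟩ := hA.pgr g hgA
  obtain ⟨m, hm, hm'⟩ := hS.inr l j hl g hg
  exact mem_of_pow hS.normal hn hm hm'

theorem mem_RU_iff (g : GF F₁) : b g ∈ RU F P U ↔ g ∈ RU F₁ P (A'.comap b) := by
  have hcl : IsClosed (RU F P U : Set (GF F)) := Subgroup.isClosed_topologicalClosure _
  have hcl₁ : IsClosed (RU F₁ P (A'.comap b) : Set (GF F₁)) :=
    Subgroup.isClosed_topologicalClosure _
  constructor
  · intro hg
    have h1 : RU F P U ≤ (RU F₁ P (A'.comap b)).map b := by
      refine BKV.RQAux.RU_le hS.normal _ ?_ fun l _ hl j x hx hxU => ?_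
      · rw [Subgroup.coe_map]
        exact (hcl₁.isCompact.image h.emb.continuous).isClosed
      · obtain ⟨x₁, rfl⟩ := mem_range h (hA.le' (hA.le hxU))
        refine ⟨x₁, ?_, rfl⟩
        refine BKV.RQAux.inert_mem_RU hl _ ((inert_iff h j x₁).2 hx) ?_
        exact hA.le hxU
    obtain ⟨g', hg', hb⟩ := h1 hg
    rw [← inj h hb]
    exact hg'
  · intro hg
    have hle : RU F₁ P (A'.comap b) ≤ (RU F P U).comap b := by
      refine BKV.RQAux.RU_le (normal₁ hS hA h) _ (hcl.preimage h.emb.continuous)
        fun l _ hl j x hx hxU => ?_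
      rw [← comp_symm h j] at hx
      have hx' := (inert_iff h _ x).1 hx
      exact BKV.RQAux.inert_mem_RU hl _ hx' (inertU hS hA h hl _ hx' hxU)
    exact hle hg

end RUeq

end GSITB

open GSITB in
/-- Module SITB. -/
theorem stSitb (hPRI : StPri) : StSitb := by
  intro p hp F _ _ P U hS A A' hA F₁ _ _ e b h
  have hcyc : ∀ g, cycF p F (b g) = cycF p F₁ g := by
    intro g
    have : CharZero (AlgebraicClosure F) := charZero_of_injective_algebraMap
      (algebraMap F (AlgebraicClosure F)).injective
    have : CharZero (AlgebraicClosure F₁) := charZero_of_injective_algebraMap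
      (algebraMap F₁ (AlgebraicClosure F₁)).injective
    exact ((BKGlob2.stCY p F₁ (AlgebraicClosure F₁) F (AlgebraicClosure F)).2
      (e : AlgebraicClosure F₁ →+* AlgebraicClosure F) g (b g) (fun x => (h.act g x).symm)).symm
  have hA'o : IsOpen (A' : Set (GF F)) := Subgroup.isOpen_mono hA.le hS.open'
  have hU₁o : IsOpen ((A'.comap b : Subgroup (GF F₁)) : Set (GF F₁)) :=
    hA'o.preimage h.emb.continuous
  refine ⟨?_, hcyc, ?_⟩
  · -- the fixed fields
    have nf : ∀ (K : Type) [Field K] [NumberField K] (W : Subgroup (GF K)),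
        IsOpen (W : Set (GF K)) → NumberField (IntermediateField.fixedField W) := by
      intro K _ _ W hW
      have hcl : IsClosed (W : Set (GF K)) := W.isClosed_of_isOpen hW
      have hfix : (IntermediateField.fixedField W).fixingSubgroup = W :=
        InfiniteGalois.fixingSubgroup_fixedField (⟨W, hcl⟩ : ClosedSubgroup (GF K))
      have hfd : FiniteDimensional K (IntermediateField.fixedField W) := by
        rw [← InfiniteGalois.isOpen_iff_finite]
        change IsOpen ((IntermediateField.fixedField W).fixingSubgroup : Set (GF K))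
        rw [hfix]
        exact hW
      exact NumberField.of_module_finite K _
    have nf₁ := nf F₁ (A'.comap b) hU₁o
    have nf' := nf F A' hA'o
    have hf₁ : ∀ x, x ∈ IntermediateField.fixedField (A'.comap b) ↔
        ∀ g ∈ A'.comap b, g x = x := fun x => by
      rw [IntermediateField.mem_fixedField_iff]
    have hf' : ∀ x, x ∈ IntermediateField.fixedField A' ↔ ∀ g ∈ A', g x = x := fun x => by
      rw [IntermediateField.mem_fixedField_iff]
    have hmem : ∀ x : AlgebraicClosure F₁, x ∈ IntermediateField.fixedField (A'.comap b) ↔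
        e x ∈ IntermediateField.fixedField A' := by
      intro x
      rw [hf₁, hf']
      constructor
      · intro h1 g hg
        obtain ⟨g₁, rfl⟩ := mem_range h (hA.le' hg)
        rw [h.act, h1 g₁ hg]
      · intro h1 g hg
        apply e.injective
        rw [← h.act]
        exact h1 _ hg
    let ee : IntermediateField.fixedField A' ≃+* IntermediateField.fixedField (A'.comap b) :=
      { toFun := fun y => ⟨e.symm y, (hmem _).2 (by rw [e.apply_symm_apply]; exact y.2)⟩
        invFun := fun x => ⟨e x, (hmem _).1 x.2⟩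
        left_inv := fun y => Subtype.ext (e.apply_symm_apply _)
        right_inv := fun x => Subtype.ext (e.symm_apply_apply _)
        map_mul' := fun x y => Subtype.ext (map_mul e.symm _ _)
        map_add' := fun x y => Subtype.ext (map_add e.symm _ _) }
    refine ⟨IntermediateField.fixedField (A'.comap b), nf₁, ?_⟩
    exact
      { odd := hS.odd
        memP := hS.memP
        finP := hS.finP
        prime := hS.prime
        open' := hU₁o
        normal := normal₁ hS hA h
        index := by
          rw [Subgroup.index_comap, h.range]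
          exact hA.idx
        root := by
          intro g hg
          rw [← hcyc]
          obtain ⟨n, hn⟩ := hA.pgr (b g) hg
          have h1 := hS.root _ hn
          rw [map_pow, Units.val_pow_eq_pow_val, map_pow, ZMod.pow_card_pow] at h1
          exact h1
        field := hf₁
        prin := hPRI _ _ ee P (hS.prin A' hA.le _ hf') }
  · -- the isomorphism
    have hcl : IsClosed (RU F P U : Set (GF F)) := Subgroup.isClosed_topologicalClosure _
    have hT2 : T2Space (GU F P U) := by
      have : IsClosed (RU F P U : Set (GF F)) := hcl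
      infer_instance
    have hcomp : CompactSpace (GU F₁ P (A'.comap b)) := by
      change CompactSpace (GF F₁ ⧸ RU F₁ P (A'.comap b))
      infer_instance
    have hmk : Continuous (QuotientGroup.mk' (RU F P U)) := QuotientGroup.continuous_mk
    let f : GF F₁ →* (A.map (QuotientGroup.mk' (RU F P U))) :=
      ((QuotientGroup.mk' (RU F P U)).comp b).codRestrict _ fun g => ⟨b g, b_mem h g, rfl⟩
    have hf : Continuous f := Continuous.subtype_mk (hmk.comp h.emb.continuous) _
    have hfk : ∀ g, f g = 1 ↔ g ∈ RU F₁ P (A'.comap b) := by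
      intro g
      rw [← mem_RU_iff hS hA h]
      constructor
      · intro h1
        exact (QuotientGroup.eq_one_iff (b g)).1 (congrArg Subtype.val h1)
      · intro h1
        exact Subtype.ext ((QuotientGroup.eq_one_iff (b g)).2 h1)
    let θ₀ : GU F₁ P (A'.comap b) →* (A.map (QuotientGroup.mk' (RU F P U))) :=
      QuotientGroup.lift _ f fun g hg => (hfk g).2 hg
    have hθc : Continuous θ₀ := hf.quotient_lift _
    have hθb : Function.Bijective θ₀ := by
      constructor
      · rw [injective_iff_map_eq_one]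
        intro q hq
        obtain ⟨g, rfl⟩ := QuotientGroup.mk_surjective q
        exact (QuotientGroup.eq_one_iff g).2 ((hfk g).1 hq)
      · rintro ⟨_, a, ha, rfl⟩
        obtain ⟨g, rfl⟩ := mem_range h ha
        exact ⟨QuotientGroup.mk g, rfl⟩
    let θ₁ : GU F₁ P (A'.comap b) ≃* (A.map (QuotientGroup.mk' (RU F P U))) :=
      MulEquiv.ofBijective θ₀ hθb
    have hθ₁ : Continuous θ₁.toEquiv := hθc
    exact ⟨{ θ₁ with
      continuous_toFun := hθc
      continuous_invFun := (Continuous.homeoOfEquivCompactToT2 hθ₁).continuous_invFun },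
      fun g => rfl⟩

end BKT
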