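import Pool.Agent.Lib.MP_7c08ba_nt.T1.StG

set_option autoImplicit false

/-!
Parity for general residual representations, part G, module TWA: two-classes of the subgroups of
`GU F P U` which are trivial at the places in `P` are trivial.
-/

noncomputable section

namespace BKT

open NumberField IsDedekindDomain BKGen
open BKPar (Loc1 Loc2)
open BKND (Sm)
open BKMet
open BKLoc2 (hq ht)
open BKGlob2 (Cp fs sn CC0 Prin SP US IsAct Dw Dx jw)
open BKV (RU GU dc)

namespace GTWA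

/-! ### Pulling back cochains -/

theorem Loc1_comp {D G X : Type*} [Group D] [TopologicalSpace D] [Group G] [TopologicalSpace G]
    {f : G → X} (hf : Loc1 f) (φ : D →* G) (hφ : Continuous φ) : Loc1 fun d => f (φ d) := by
  obtain ⟨W, hW, h⟩ := hf
  exact ⟨W.comap φ, hW.preimage hφ, fun d w hw => by
    change f (φ (d * w)) = f (φ d)
    rw [map_mul]
    exact h _ _ hw⟩

theorem pb2_Z2 {D G M : Type*} [Group D] [TopologicalSpace D] [Group G] [TopologicalSpace G]
    [AddCommGroup M] (f : D →* G) (hf : Continuous f) {ρ : G →* AddMonoid.End M}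
    {z : G → G → M} (hz : z ∈ BKND.Z2 ρ) : pb2 f z ∈ BKND.Z2 (ρ.comp f) := by
  obtain ⟨⟨W, hW, h⟩, h'⟩ := hz
  refine ⟨⟨W.comap f, hW.preimage hf, fun g g' w hw w' hw' => ?_⟩, fun g g' g'' => ?_⟩
  · change z (f (g * w)) (f (g' * w')) = z (f g) (f g')
    rw [map_mul, map_mul]
    exact h _ _ _ hw _ hw'
  · change ρ (f g) (z (f g') (f g'')) - z (f (g * g')) (f g'') + z (f g) (f (g' * g'')) -
      z (f g) (f g') = 0
    rw [map_mul, map_mul]
    exact h' _ _ _

theorem pb2_B2 {D G M : Type*} [Group D] [TopologicalSpace D] [Group G] [TopologicalSpace G]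
    [AddCommGroup M] (f : D →* G) (hf : Continuous f) {ρ : G →* AddMonoid.End M}
    {z : G → G → M} (hz : z ∈ BKND.B2 ρ) : pb2 f z ∈ BKND.B2 (ρ.comp f) := by
  obtain ⟨β, hβ, hβ'⟩ := hz
  refine ⟨fun d => β (f d), Loc1_comp hβ f hf, fun g h => ?_⟩
  change z (f g) (f h) = ρ (f g) (β (f h)) - β (f (g * h)) + β (f g)
  rw [map_mul]
  exact hβ' _ _

theorem pb1_Z1 {D G M : Type*} [Group D] [TopologicalSpace D] [Group G] [TopologicalSpace G]
    [AddCommGroup M] (f : D →* G) (hf : Continuous f) {ρ : G →* AddMonoid.End M}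
    {z : G → M} (hz : z ∈ BKND.Z1 ρ) : pb1 f z ∈ BKND.Z1 (ρ.comp f) := by
  obtain ⟨hz1, hz2⟩ := hz
  refine ⟨Loc1_comp hz1 f hf, fun g h => ?_⟩
  change z (f (g * h)) = z (f g) + ρ (f g) (z (f h))
  rw [map_mul]
  exact hz2 _ _

theorem pb1_B1 {D G M : Type*} [Group D] [Group G] [AddCommGroup M] (f : D →* G)
    {ρ : G →* AddMonoid.End M} {z : G → M} (hz : z ∈ BKND.B1 ρ) :
    pb1 f z ∈ BKND.B1 (ρ.comp f) := by
  obtain ⟨m, hm⟩ := hz
  exact ⟨m, fun g => hm (f g)⟩

/-! ### The preimages of the subgroups in `GF F` -/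

theorem RU_le_U {F : Type} [Field F] {U : Subgroup (GF F)} (hn : U.Normal)
    (hU : IsOpen (U : Set (GF F))) {P : Set ℕ} : RU F P U ≤ U := by
  refine Subgroup.topologicalClosure_minimal _ ?_ (Subgroup.isClosed_of_isOpen U hU)
  refine Subgroup.normalClosure_le_normal ?_
  rintro g ⟨l, hl, j, -, -, hg⟩
  exact hg

theorem map_comap {F : Type} [Field F] {P : Set ℕ} {U : Subgroup (GF F)}
    (A : Subgroup (GU F P U)) :
    (A.comap (QuotientGroup.mk' (RU F P U))).map (QuotientGroup.mk' (RU F P U)) = A :=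
  Subgroup.map_comap_eq_self_of_surjective (QuotientGroup.mk'_surjective _) A

/-- admissible pairs of subgroups of `GU F P U` give admissible pairs of subgroups of `GF F` -/
theorem adm_comap {p : ℕ} {F : Type} [Field F] {P : Set ℕ} {U : Subgroup (GF F)}
    (hn : U.Normal) (hU : IsOpen (U : Set (GF F))) {A A' : Subgroup (GU F P U)}
    (h : Adm p (U.map (QuotientGroup.mk' (RU F P U))) A A') :
    Adm p U (A.comap (QuotientGroup.mk' (RU F P U)))
      (A'.comap (QuotientGroup.mk' (RU F P U))) where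
  le := (Subgroup.le_comap_map _ _).trans (Subgroup.comap_mono h.le)
  le' := Subgroup.comap_mono h.le'
  nor := by
    intro a ha x hx
    change QuotientGroup.mk' (RU F P U) (a * x * a⁻¹) ∈ A'
    rw [map_mul, map_mul, map_inv]
    exact h.nor _ ha _ hx
  idx := by
    rw [Subgroup.relIndex_comap, map_comap]
    exact h.idx
  pgr := by
    intro x hx
    obtain ⟨n, hn'⟩ := h.pgr _ hx
    rw [← map_pow] at hn'
    obtain ⟨u, hu, hux⟩ := hn'
    refine ⟨n, ?_⟩
    have h1 : u⁻¹ * x ^ p ^ n ∈ RU F P U := QuotientGroup.eq.1 hux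
    have h2 := U.mul_mem hu (RU_le_U hn hU h1)
    rwa [mul_inv_cancel_left] at h2

theorem isOpen_comap {F : Type} [Field F] {P : Set ℕ} {U : Subgroup (GF F)}
    (hU : IsOpen (U : Set (GF F))) {A : Subgroup (GU F P U)}
    (h : U.map (QuotientGroup.mk' (RU F P U)) ≤ A) :
    IsOpen ((A.comap (QuotientGroup.mk' (RU F P U)) : Subgroup (GF F)) : Set (GF F)) :=
  Subgroup.isOpen_mono ((Subgroup.le_comap_map _ _).trans (Subgroup.comap_mono h)) hU

/-! ### The base change -/

theorem splitting {H G : Type} [Group H] [TopologicalSpace H] [Group G] [TopologicalSpace G]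
    {B A : Subgroup G} (hBA : B = A) (θ : H ≃ₜ* B) :
    ∃ (τ : H →* A) (σ : A →* H), Continuous τ ∧ Continuous σ ∧ (∀ a, τ (σ a) = a) ∧
      (∀ x, σ (τ x) = x) ∧ ∀ x, ((τ x : A) : G) = ((θ x : B) : G) := by
  subst hBA
  exact ⟨θ.toMulEquiv.toMonoidHom, θ.symm.toMulEquiv.toMonoidHom, θ.continuous, θ.symm.continuous,
    fun a => θ.apply_symm_apply a, fun x => θ.symm_apply_apply x, fun _ => rfl⟩

/-- The data of the base change to the field fixed by the preimage of `A`: a topological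
isomorphism of `GU F₁ P U₁` with `A` and the maps of the decomposition groups. -/
theorem data (h1 : StBc) (h2 : StSitb) (p : ℕ) [Fact p.Prime] (F : Type) [Field F]
    [NumberField F] (P : Set ℕ) (U : Subgroup (GF F)) (hS : SitT p F P U)
    (A A' : Subgroup (GU F P U))
    (hA : Adm p (U.map (QuotientGroup.mk' (RU F P U))) A A') :
    ∃ (F₁ : Type) (_ : Field F₁) (_ : NumberField F₁) (U₁ : Subgroup (GF F₁))
      (E₁ : IntermediateField F₁ (AlgebraicClosure F₁)) (_ : NumberField E₁)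
      (τ : GU F₁ P U₁ →* A) (σ : A →* GU F₁ P U₁),
      BKV.Sit p F₁ P U₁ E₁ ∧ Continuous τ ∧ Continuous σ ∧ (∀ a, τ (σ a) = a) ∧
      (∀ x, σ (τ x) = x) ∧
      (∀ g ∈ U₁, ((τ (QuotientGroup.mk g) : A) : GU F P U) ∈ A') ∧
      ∀ (l : ℕ) [Fact l.Prime] (j' : AlgebraicClosure F₁ →+* PadicAlgCl l),
        ∃ (j : AlgebraicClosure F →+* PadicAlgCl l)
          (m : Cp (MonoidHom.id (GF F₁)) j' →* A.comap (dc P U j)), Continuous m ∧
          ∀ x, dcA P U j A (m x) = τ (dc P U₁ j' x) := by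
  obtain ⟨F₁, iF, iN, e, b, hb⟩ := h1 F (A.comap (QuotientGroup.mk' (RU F P U)))
    (isOpen_comap hS.open' (hA.le.trans hA.le'))
  obtain ⟨⟨E₁, iE, hE⟩, -, θ, hθ⟩ := h2 p F P U hS _ _ (adm_comap hS.normal hS.open' hA) F₁ e b hb
  obtain ⟨τ, σ, hτ, hσ, hτσ, hστ, hτθ⟩ := splitting (map_comap A) θ
  have hθ' : ∀ g : GF F₁, ((τ (QuotientGroup.mk g) : A) : GU F P U) = QuotientGroup.mk (b g) :=
    fun g => (hτθ _).trans (hθ g)
  refine ⟨F₁, iF, iN, _, E₁, iE, τ, σ, hE, hτ, hσ, hτσ, hστ, ?_, ?_⟩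
  · intro g hg
    rw [hθ' g]
    exact hg
  · intro l hl j'
    have hrel : ∀ x : Cp (MonoidHom.id (GF F₁)) j', ∀ z,
        (j'.comp (e.symm : AlgebraicClosure F →+* AlgebraicClosure F₁))
          (b (x : GF F₁ × GQ l).1 z) = (x : GF F₁ × GQ l).2
          ((j'.comp (e.symm : AlgebraicClosure F →+* AlgebraicClosure F₁)) z) := by
      intro x z
      have h3 := x.2 (e.symm z)
      have h4 := hb.act (x : GF F₁ × GQ l).1 (e.symm z)
      rw [RingEquiv.apply_symm_apply] at h4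
      change j' (e.symm (b (x : GF F₁ × GQ l).1 z)) = _
      rw [h4, RingEquiv.symm_apply_apply]
      exact h3
    have hmem : ∀ x : Cp (MonoidHom.id (GF F₁)) j',
        (QuotientGroup.mk (b (x : GF F₁ × GQ l).1) : GU F P U) ∈ A := by
      intro x
      have h5 : b (x : GF F₁ × GQ l).1 ∈ b.range := ⟨_, rfl⟩
      rw [hb.range] at h5
      exact h5
    refine ⟨j'.comp (e.symm : AlgebraicClosure F →+* AlgebraicClosure F₁),
      { toFun := fun x => ⟨⟨(b (x : GF F₁ × GQ l).1, (x : GF F₁ × GQ l).2), hrel x⟩, hmem x⟩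
        map_one' := ?_
        map_mul' := ?_ }, ?_, ?_⟩
    · apply Subtype.ext
      apply Subtype.ext
      exact Prod.ext (map_one b) rfl
    · intro x y
      apply Subtype.ext
      apply Subtype.ext
      exact Prod.ext (map_mul b _ _) rfl
    · exact Continuous.subtype_mk (Continuous.subtype_mk
        ((hb.emb.continuous.comp (continuous_fst.comp continuous_subtype_val)).prodMk
          (continuous_snd.comp continuous_subtype_val)) _) _
    · intro x
      apply Subtype.ext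
      change (QuotientGroup.mk (b (x : GF F₁ × GQ l).1) : GU F P U) = _
      exact (hθ' _).symm

end GTWA

open GTWA in
/-- Module TWA. -/
theorem stTwa (h1 : StBc) (h2 : StSitb) (h3 : BKV.StTW) : StTwa := by
  intro p hp F iF iN P U hS A A' hA k ik ifk ia ψ hψ z hz hloc
  obtain ⟨F₁, iF₁, iN₁, U₁, E₁, iE₁, τ, σ, hSit, hτ, hσ, hτσ, hστ, hU₁, hdec⟩ :=
    data h1 h2 p F P U hS A A' hA
  have hz1 : pb2 τ z ∈ BKND.Z2 ((kch ψ).comp τ) := pb2_Z2 τ hτ hz
  have e0 : (kch ψ).comp τ = kch (ψ.comp τ) := rfl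
  rw [e0] at hz1
  have hloc1 : ∀ (l : ℕ) [Fact l.Prime], l ∈ P → ∀ j' : AlgebraicClosure F₁ →+* PadicAlgCl l,
      pb2 (dc P U₁ j') (pb2 τ z) ∈ BKND.B2 (kch ((ψ.comp τ).comp (dc P U₁ j'))) := by
    intro l hl hlP j'
    obtain ⟨j, m, hm, hm'⟩ := hdec l j'
    have h4 := pb2_B2 m hm (hloc l hlP j)
    have e1 : (dcA P U j A).comp m = τ.comp (dc P U₁ j') := MonoidHom.ext hm'
    have e2 : pb2 m (pb2 (dcA P U j A) z) = pb2 (dc P U₁ j') (pb2 τ z) := by
      funext x y
      change z (dcA P U j A (m x)) (dcA P U j A (m y)) = z (τ (dc P U₁ j' x)) (τ (dc P U₁ j' y))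
      rw [hm', hm']
    have e3 : (kch (ψ.comp (dcA P U j A))).comp m = kch ((ψ.comp τ).comp (dc P U₁ j')) := by
      change kch (ψ.comp ((dcA P U j A).comp m)) = kch (ψ.comp (τ.comp (dc P U₁ j')))
      rw [e1]
    rw [e2, e3] at h4
    exact h4
  have key : pb2 τ z ∈ BKND.B2 (kch (ψ.comp τ)) :=
    h3 p F₁ P U₁ E₁ hSit k (ψ.comp τ) (fun g hg => hψ _ (hU₁ g hg)) _ hz1 hloc1
  have h5 := pb2_B2 σ hσ key
  have e4 : pb2 σ (pb2 τ z) = z := by
    funext x y
    change z (τ (σ x)) (τ (σ y)) = z x y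
    rw [hτσ, hτσ]
  have e5 : (kch (ψ.comp τ)).comp σ = kch ψ := by
    change kch (ψ.comp (τ.comp σ)) = kch ψ
    rw [show τ.comp σ = MonoidHom.id A from MonoidHom.ext hτσ]
    rfl
  rw [e4, e5] at h5
  exact h5

end BKT
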