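import Pool.Agent.Lib.MP_7c08ba_nt.T1.StG
import Pool.Agent.Lib.MP_7c08ba_nt.Met.V.UI2

set_option autoImplicit false

/-!
Parity for general residual representations, module UIT: two-classes of `GU F P U` with coefficients
`ℚ_p / ℤ_p (χ)` are trivial at the places outside `P`.
-/

noncomputable section

namespace BKT

open BKMet

theorem stUit : StUit := by
  intro p _ hp F _ _ P U hUn hUo hpP hUt χ hχ z hz l _ hl j
  exact BKV.aUI2 p hp F P U hUn hUo (fun l _ hl j g hg => hUt l j hl g hg) hpP (QZ p) (actA χ)
    BKGlob2.AR.qz_tors (BKV.UIAux.sm_actA p χ hχ) z hz l hl j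

end BKT
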