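import Pool.Agent.Lib.MP_7c08ba_nt.T1.StH

set_option autoImplicit false

/-!
Parity for general residual representations, module LATM: a bounded open subgroup of `Lⁿ` stable
under the ring of integers has a basis.
-/

noncomputable section

namespace BKT

open BKMet
open Matrix

namespace HLATM

section

variable {p : ℕ} [Fact p.Prime] {L : Type} [NormedField L] [NormedAlgebra ℚ_[p] L]

/-- an integral representation from an integral matrix representation -/
theorem exists_rho {n : ℕ} (A : GL (Fin n) L) {G : Type} [Group G] (V : G →* GL (Fin n) L)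
    (h : ∀ g i j, ‖((A * V g * A⁻¹ : GL (Fin n) L) : Matrix (Fin n) (Fin n) L) i j‖ ≤ 1) :
    ∃ ρ : G →* GL (Fin n) (OO p L), ∀ g, toL p L n (ρ g) = A * V g * A⁻¹ := by
  have hinj : Function.Injective (fun M : Matrix (Fin n) (Fin n) (OO p L) =>
      M.map (OO p L).subtype) := by
    intro M N hMN
    ext i j
    have := congrFun (congrFun hMN i) j
    exact this
  obtain ⟨R, hR⟩ : ∃ R : G → Matrix (Fin n) (Fin n) (OO p L),
      ∀ g, (R g).map (OO p L).subtype = ((A * V g * A⁻¹ : GL (Fin n) L) :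
        Matrix (Fin n) (Fin n) L) :=
    ⟨fun g i j => ⟨_, h g i j⟩, fun g => by
      ext i j
      rfl⟩
  let φ : G →* Matrix (Fin n) (Fin n) (OO p L) :=
    { toFun := R
      map_one' := by
        apply hinj
        change (R 1).map (OO p L).subtype = (1 : Matrix (Fin n) (Fin n) (OO p L)).map
          (OO p L).subtype
        rw [hR, map_one, mul_one, mul_inv_cancel, Matrix.map_one _ (map_zero _) (map_one _)]
        rfl
      map_mul' := by
        intro g k
        apply hinj
        change (R (g * k)).map (OO p L).subtype = (R g * R k).map (OO p L).subtype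
        rw [hR, Matrix.map_mul, hR, hR, map_mul]
        rw [← Units.val_mul]
        congr 1
        group }
  refine ⟨φ.toHomUnits, fun g => ?_⟩
  apply Units.ext
  exact hR g

end

end HLATM

open HLATM in
theorem stLatM : StLatM := by
  intro p _ L _ _ _ n T h0 hadd hsmul hC hε
  have hu := BKND.DG.ultra (p := p) L
  -- scalars
  obtain ⟨C, hC⟩ := hC
  obtain ⟨ε, hε0, hε⟩ := hε
  have hπ0 := pi0_pos p L
  have hπ1 := pi0_lt p L
  have hπne := pi0_ne p L
  obtain ⟨c, hc0, hc⟩ : ∃ c : L, c ≠ 0 ∧ ‖c‖ * C ≤ 1 := by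
    obtain ⟨k, hk⟩ := exists_pow_lt_of_lt_one (show (0 : ℝ) < (|C| + 1)⁻¹ by positivity) hπ1
    refine ⟨((pi0 p L : OO p L) : L) ^ k, pow_ne_zero _ hπne, ?_⟩
    rw [norm_pow]
    have h1 : (0 : ℝ) < |C| + 1 := by positivity
    calc ‖((pi0 p L : OO p L) : L)‖ ^ k * C ≤ ‖((pi0 p L : OO p L) : L)‖ ^ k * (|C| + 1) :=
          mul_le_mul_of_nonneg_left ((le_abs_self C).trans (by linarith)) (by positivity)
      _ ≤ (|C| + 1)⁻¹ * (|C| + 1) := mul_le_mul_of_nonneg_right hk.le h1.le
      _ = 1 := inv_mul_cancel₀ h1.ne'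
  obtain ⟨k, hk⟩ := exists_pow_lt_of_lt_one hε0 hπ1
  obtain ⟨δ, hδ⟩ : ∃ δ : OO p L, δ = pi0 p L ^ k := ⟨_, rfl⟩
  have hδ0 : (δ : L) ≠ 0 := by
    rw [hδ, Subring.coe_pow]
    exact pow_ne_zero _ hπne
  have hδε : ‖(δ : L)‖ ≤ ε := by
    rw [hδ, Subring.coe_pow, norm_pow]
    exact hk.le
  -- the vector of coordinates in `L`
  let v : (Fin n → OO p L) → (Fin n → L) := fun z i => (z i : L)
  have hvadd : ∀ z w, v (z + w) = v z + v w := fun z w => rfl
  have hvsmul : ∀ (a : OO p L) z, v (a • z) = (a : L) • v z := fun a z => rfl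
  have hvnorm : ∀ z, ‖v z‖ ≤ 1 := fun z =>
    (pi_norm_le_iff_of_nonneg zero_le_one).2 fun i => OO.norm_le (z i)
  -- the submodule
  let N : Submodule (OO p L) (Fin n → OO p L) :=
    { carrier := {z | c⁻¹ • v z ∈ T}
      add_mem' := by
        intro z w hz hw
        change c⁻¹ • v (z + w) ∈ T
        rw [hvadd, smul_add]
        exact hadd _ hz _ hw
      zero_mem' := by
        change c⁻¹ • v 0 ∈ T
        have : c⁻¹ • v 0 = 0 := by
          ext i
          change c⁻¹ * ((0 : OO p L) : L) = 0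
          rw [Subring.coe_zero, mul_zero]
        rw [this]
        exact h0
      smul_mem' := by
        intro a z hz
        change c⁻¹ • v (a • z) ∈ T
        rw [hvsmul, smul_comm]
        exact hsmul _ (OO.norm_le a) _ hz }
  have hN : ∀ z, z ∈ N ↔ c⁻¹ • v z ∈ T := fun z => Iff.rfl
  obtain ⟨m, ⟨b⟩⟩ := Submodule.nonempty_basis_of_pid (Pi.basisFun (OO p L) (Fin n)) N
  have hmn : m = n := by
    have h1 : Module.finrank (OO p L) N = m := by
      rw [Module.finrank_eq_card_basis b, Fintype.card_fin]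
    have h2 : Module.finrank (OO p L) (Fin n → OO p L) = n := by
      rw [Module.finrank_fin_fun]
    apply le_antisymm
    · have h3 := LinearMap.finrank_le_finrank_of_injective (f := N.subtype)
        Subtype.val_injective
      rwa [h1, h2] at h3
    · obtain ⟨e, he⟩ : ∃ e : OO p L, e ≠ 0 ∧ ∀ z, e • z ∈ N := by
        obtain ⟨j, hj⟩ := exists_pow_lt_of_lt_one
          (show (0 : ℝ) < ε * ‖c‖ from mul_pos hε0 (norm_pos_iff.2 hc0)) hπ1
        refine ⟨pi0 p L ^ j, pow_ne_zero _ (pi0_ne' p L), fun z => ?_⟩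
        rw [hN, hvsmul]
        apply hε
        rw [norm_smul, norm_smul, norm_inv, Subring.coe_pow, norm_pow]
        have hc1 : 0 < ‖c‖ := norm_pos_iff.2 hc0
        rw [inv_mul_le_iff₀ hc1]
        calc ‖((pi0 p L : OO p L) : L)‖ ^ j * ‖v z‖ ≤ ‖((pi0 p L : OO p L) : L)‖ ^ j * 1 :=
              mul_le_mul_of_nonneg_left (hvnorm z) (by positivity)
          _ ≤ ‖c‖ * ε := by
            rw [mul_one, mul_comm]
            exact hj.le
      have hmf : Module.Finite (OO p L) N := Module.Finite.of_basis b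
      let f : (Fin n → OO p L) →ₗ[OO p L] N :=
        LinearMap.codRestrict N (LinearMap.lsmul (OO p L) (Fin n → OO p L) e) (fun z => he.2 z)
      have hf : Function.Injective f := by
        intro z w hzw
        have h4 : e • z = e • w := congrArg Subtype.val hzw
        exact smul_right_injective _ he.1 h4
      have h3 := LinearMap.finrank_le_finrank_of_injective hf
      rwa [h1, h2] at h3
  subst hmn
  -- the matrix of the basis
  let S : Matrix (Fin m) (Fin m) L := fun i j => c⁻¹ * ((b j : Fin m → OO p L) i : L)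
  have hS : ∀ z : Fin m → OO p L, S *ᵥ (v z) = c⁻¹ • v ((∑ j, z j • b j : N) : Fin m → OO p L) := by
    intro z
    ext i
    have h1 : (S *ᵥ (v z)) i = ∑ j, S i j * (z j : L) := rfl
    have h2 : (c⁻¹ • v ((∑ j, z j • b j : N) : Fin m → OO p L)) i =
        c⁻¹ * ((((∑ j, z j • b j : N) : Fin m → OO p L) i : OO p L) : L) := rfl
    rw [h1, h2]
    have h3 : ((∑ j, z j • b j : N) : Fin m → OO p L) i =
        ∑ j, z j * (b j : Fin m → OO p L) i := by
      rw [Submodule.coe_sum, Finset.sum_apply]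
      rfl
    rw [h3]
    have h4 : ((∑ j, z j * (b j : Fin m → OO p L) i : OO p L) : L) =
        ∑ j, (z j : L) * ((b j : Fin m → OO p L) i : L) := by
      rw [← Subring.subtype_apply, map_sum]
      rfl
    rw [h4, Finset.mul_sum]
    refine Finset.sum_congr rfl fun j _ => ?_
    change c⁻¹ * ((b j : Fin m → OO p L) i : L) * (z j : L) = _
    ring
  have hST : ∀ x, x ∈ T ↔ ∃ z : Fin m → OO p L, x = S *ᵥ (v z) := by
    intro x
    constructor
    · intro hx
      have h1 : ∀ i, ‖(c • x) i‖ ≤ 1 := by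
        intro i
        change ‖c * x i‖ ≤ 1
        rw [norm_mul]
        calc ‖c‖ * ‖x i‖ ≤ ‖c‖ * C :=
              mul_le_mul_of_nonneg_left ((norm_le_pi_norm x i).trans (hC x hx)) (norm_nonneg _)
          _ ≤ 1 := hc
      obtain ⟨w, hw⟩ : ∃ w : Fin m → OO p L, v w = c • x :=
        ⟨fun i => ⟨(c • x) i, h1 i⟩, rfl⟩
      have h2 : w ∈ N := by
        rw [hN, hw, smul_smul, inv_mul_cancel₀ hc0, one_smul]
        exact hx
      refine ⟨fun j => b.repr ⟨w, h2⟩ j, ?_⟩
      rw [hS, b.sum_repr]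
      change x = c⁻¹ • v w
      rw [hw, smul_smul, inv_mul_cancel₀ hc0, one_smul]
    · rintro ⟨z, rfl⟩
      rw [hS]
      exact (hN _).1 (∑ j, z j • b j : N).2
  -- the matrix is invertible
  have hinv : ∃ Z : Matrix (Fin m) (Fin m) L, S * Z = 1 := by
    have h1 : ∀ i : Fin m, ∃ z : Fin m → OO p L, Pi.single i (δ : L) = S *ᵥ (v z) := by
      intro i
      rw [← hST]
      apply hε
      rw [pi_norm_le_iff_of_nonneg hε0.le]
      intro j
      by_cases hij : j = i
      · subst hij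
        rw [Pi.single_eq_same]
        exact hδε
      · rw [Pi.single_eq_of_ne hij, norm_zero]
        exact hε0.le
    choose z hz using h1
    obtain ⟨Z, hZ⟩ : ∃ Z : Matrix (Fin m) (Fin m) L,
        ∀ j i, Z j i = (δ : L)⁻¹ * (z i j : L) := ⟨fun j i => (δ : L)⁻¹ * (z i j : L),
      fun _ _ => rfl⟩
    refine ⟨Z, ?_⟩
    ext k i
    have h2 := congrFun (hz i) k
    have h3 : (S *ᵥ (v (z i))) k = ∑ j, S k j * (z i j : L) := rfl
    rw [h3] at h2
    rw [Matrix.mul_apply]
    simp only [hZ]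
    have h4 : ∑ j, S k j * ((δ : L)⁻¹ * (z i j : L)) = (δ : L)⁻¹ * ∑ j, S k j * (z i j : L) := by
      rw [Finset.mul_sum]
      refine Finset.sum_congr rfl fun j _ => ?_
      ring
    rw [h4, ← h2, Matrix.one_apply]
    by_cases hki : k = i
    · subst hki
      rw [Pi.single_eq_same, if_pos rfl, inv_mul_cancel₀ hδ0]
    · rw [Pi.single_eq_of_ne hki, if_neg hki, mul_zero]
  obtain ⟨Z, hZ⟩ := hinv
  have hZ' : Z * S = 1 := mul_eq_one_comm.1 hZ
  let A : GL (Fin m) L := ⟨Z, S, hZ', hZ⟩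
  have hAT : ∀ x, x ∈ T ↔ ∀ i, ‖((A : Matrix (Fin m) (Fin m) L) *ᵥ x) i‖ ≤ 1 := by
    intro x
    rw [hST]
    constructor
    · rintro ⟨z, rfl⟩ i
      change ‖(Z *ᵥ (S *ᵥ v z)) i‖ ≤ 1
      rw [mulVec_mulVec, hZ', one_mulVec]
      exact OO.norm_le (z i)
    · intro h
      refine ⟨fun i => ⟨(Z *ᵥ x) i, h i⟩, ?_⟩
      change x = S *ᵥ (Z *ᵥ x)
      rw [mulVec_mulVec, hZ, one_mulVec]
  refine ⟨A, hAT, fun G _ V hV => exists_rho A V fun g i j => ?_⟩
  have h1 : S *ᵥ (Pi.single j 1) ∈ T := by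
    rw [hST]
    refine ⟨Pi.single j 1, ?_⟩
    congr 1
    ext i
    change (Pi.single j (1 : L) : Fin m → L) i = (((Pi.single j 1 : Fin m → OO p L) i : OO p L) : L)
    by_cases hij : i = j
    · subst hij
      rw [Pi.single_eq_same, Pi.single_eq_same]
      rfl
    · rw [Pi.single_eq_of_ne hij, Pi.single_eq_of_ne hij]
      rfl
  have h2 := (hAT _).1 (hV g _ h1) i
  have h3 : ((A : Matrix (Fin m) (Fin m) L) *ᵥ ((V g : Matrix (Fin m) (Fin m) L) *ᵥ
      (S *ᵥ (Pi.single j 1)))) = (((A * V g * A⁻¹ : GL (Fin m) L) :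
        Matrix (Fin m) (Fin m) L) *ᵥ (Pi.single j 1)) := by
    rw [mulVec_mulVec, mulVec_mulVec, Units.val_mul, Units.val_mul]
    rfl
  rw [h3, Matrix.mulVec_single_one] at h2
  exact h2

end BKT
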