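import Pool.Agent.Lib.MP_7c08ba_nt.T1.StH

set_option autoImplicit false

/-!
Parity for general residual representations, module MTB: a self-dual lattice with a Lagrangian
lattice, given by sets, gives the metabolic data.
-/

noncomputable section

namespace BKT

open BKMet
open Matrix

namespace HMTB

section

variable {p : ℕ} [Fact p.Prime] {L : Type} [NormedField L] [NormedAlgebra ℚ_[p] L] {n : ℕ}

/-- vectors with integral entries as vectors over `L` -/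
def vc (p : ℕ) [Fact p.Prime] {L : Type} [NormedField L] [NormedAlgebra ℚ_[p] L] {n : ℕ}
    (z : Fin n → OO p L) : Fin n → L := fun i => (z i : L)

theorem vc_add (z w : Fin n → OO p L) : vc p (z + w) = vc p z + vc p w := rfl

theorem vc_smul (a : OO p L) (z : Fin n → OO p L) : vc p (a • z) = (a : L) • vc p z := rfl

theorem vc_zero : vc p (0 : Fin n → OO p L) = (0 : Fin n → L) := rfl

theorem vc_single (i : Fin n) : vc p (Pi.single i (1 : OO p L)) = Pi.single i (1 : L) := by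
  funext j
  unfold vc
  by_cases h : j = i
  · subst h
    rw [Pi.single_eq_same, Pi.single_eq_same]
    rfl
  · rw [Pi.single_eq_of_ne h, Pi.single_eq_of_ne h]
    rfl

theorem vc_mulVec (M : Matrix (Fin n) (Fin n) (OO p L)) (z : Fin n → OO p L) :
    vc p (M *ᵥ z) = M.map (OO p L).subtype *ᵥ vc p z := by
  funext i
  change (OO p L).subtype (∑ j, M i j * z j) = ∑ j, (M i j : L) * (z j : L)
  rw [map_sum]
  rfl

theorem vc_dot (z w : Fin n → OO p L) : ((z ⬝ᵥ w : OO p L) : L) = vc p z ⬝ᵥ vc p w := by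
  change (OO p L).subtype (∑ j, z j * w j) = ∑ j, (z j : L) * (w j : L)
  rw [map_sum]
  rfl

theorem map_inj : Function.Injective (fun M : Matrix (Fin n) (Fin n) (OO p L) =>
    M.map (OO p L).subtype) := by
  intro M N hMN
  ext i j
  exact congrFun (congrFun hMN i) j

/-- the norm of a scalar product -/
theorem dot_le (hu : IsUltrametricDist L) {C D : ℝ} (hC : 0 ≤ C) (hD : 0 ≤ D) (x y : Fin n → L)
    (hx : ∀ i, ‖x i‖ ≤ C) (hy : ∀ i, ‖y i‖ ≤ D) : ‖x ⬝ᵥ y‖ ≤ C * D := by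
  refine IsUltrametricDist.norm_sum_le_of_forall_le_of_nonneg (mul_nonneg hC hD) fun i _ => ?_
  rw [norm_mul]
  exact mul_le_mul (hx i) (hy i) (norm_nonneg _) hC

end

end HMTB

open HMTB in
theorem stMtb (h : StLatM) : StMtb := by
  intro p _ L _ _ _ G _ n V B hB T N hC hVT hVN hT hN
  have hu := BKND.DG.ultra (p := p) L
  obtain ⟨C, hC⟩ := hC
  have h0T : (0 : Fin n → L) ∈ T := by
    rw [hT]
    intro x _
    rw [mulVec_zero, dotProduct_zero, norm_zero]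
    exact zero_le_one
  have haT : ∀ x ∈ T, ∀ y ∈ T, x + y ∈ T := by
    intro x hx y hy
    rw [hT]
    intro z hz
    rw [mulVec_add, dotProduct_add]
    exact (IsUltrametricDist.norm_add_le_max _ _).trans (max_le ((hT x).1 hx z hz)
      ((hT y).1 hy z hz))
  have hsT : ∀ a : L, ‖a‖ ≤ 1 → ∀ x ∈ T, a • x ∈ T := by
    intro a ha x hx
    rw [hT]
    intro z hz
    rw [mulVec_smul, dotProduct_smul, smul_eq_mul, norm_mul]
    exact mul_le_one₀ ha (norm_nonneg _) ((hT x).1 hx z hz)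
  -- the lattice contains a ball
  have hball : ∃ ε : ℝ, 0 < ε ∧ ∀ x : Fin n → L, ‖x‖ ≤ ε → x ∈ T := by
    obtain ⟨D, hD0, hD⟩ : ∃ D : ℝ, 0 ≤ D ∧ ∀ i j, ‖(B : Matrix (Fin n) (Fin n) L) i j‖ ≤ D := by
      refine ⟨∑ i, ∑ j, ‖(B : Matrix (Fin n) (Fin n) L) i j‖,
        Finset.sum_nonneg fun i _ => Finset.sum_nonneg fun j _ => norm_nonneg _, fun i j => ?_⟩
      refine (Finset.single_le_sum (f := fun j => ‖(B : Matrix (Fin n) (Fin n) L) i j‖)
        (fun j _ => norm_nonneg _) (Finset.mem_univ j)).trans ?_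
      exact Finset.single_le_sum
        (f := fun i => ∑ j, ‖(B : Matrix (Fin n) (Fin n) L) i j‖)
        (fun i _ => Finset.sum_nonneg fun j _ => norm_nonneg _) (Finset.mem_univ i)
    have hpos : 0 < |C| * D + 1 := by positivity
    refine ⟨(|C| * D + 1)⁻¹, inv_pos.2 hpos, fun y hy => ?_⟩
    rw [hT]
    intro x hx
    have h1 : ∀ i, ‖((B : Matrix (Fin n) (Fin n) L) *ᵥ y) i‖ ≤ D * (|C| * D + 1)⁻¹ := fun i =>
      dot_le hu hD0 (inv_pos.2 hpos).le _ _ (hD i) fun j => (norm_le_pi_norm y j).trans hy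
    have h2 : ‖x ⬝ᵥ ((B : Matrix (Fin n) (Fin n) L) *ᵥ y)‖ ≤ |C| * (D * (|C| * D + 1)⁻¹) :=
      dot_le hu (abs_nonneg C) (mul_nonneg hD0 (inv_pos.2 hpos).le) _ _
        (fun i => ((norm_le_pi_norm x i).trans (hC x hx)).trans (le_abs_self C)) h1
    refine h2.trans ?_
    rw [← mul_assoc, ← div_eq_mul_inv, div_le_one hpos]
    linarith
  obtain ⟨A, hA, hρ⟩ := h p L n T h0T haT hsT ⟨C, hC⟩ hball
  obtain ⟨ρ, hρ⟩ := hρ G V hVT
  have hAi : ∀ z : Fin n → OO p L,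
      ((A⁻¹ : GL (Fin n) L) : Matrix (Fin n) (Fin n) L) *ᵥ vc p z ∈ T := by
    intro z
    rw [hA]
    intro i
    rw [mulVec_mulVec, ← Units.val_mul, mul_inv_cancel, Units.val_one, one_mulVec]
    exact OO.norm_le (z i)
  have hAe : ∀ x ∈ T, ∃ z : Fin n → OO p L,
      x = ((A⁻¹ : GL (Fin n) L) : Matrix (Fin n) (Fin n) L) *ᵥ vc p z := by
    intro x hx
    refine ⟨fun i => ⟨((A : Matrix (Fin n) (Fin n) L) *ᵥ x) i, (hA x).1 hx i⟩, ?_⟩
    change x = ((A⁻¹ : GL (Fin n) L) : Matrix (Fin n) (Fin n) L) *ᵥ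
      ((A : Matrix (Fin n) (Fin n) L) *ᵥ x)
    rw [mulVec_mulVec, ← Units.val_mul, inv_mul_cancel, Units.val_one, one_mulVec]
  -- the form in the coordinates of the lattice
  obtain ⟨M, hM⟩ : ∃ M : Matrix (Fin n) (Fin n) L,
      M = (((A⁻¹ : GL (Fin n) L) : Matrix (Fin n) (Fin n) L))ᵀ *
        (B : Matrix (Fin n) (Fin n) L) * ((A⁻¹ : GL (Fin n) L) : Matrix (Fin n) (Fin n) L) :=
    ⟨_, rfl⟩
  have hMdot : ∀ x y : Fin n → L, x ⬝ᵥ (M *ᵥ y) =
      (((A⁻¹ : GL (Fin n) L) : Matrix (Fin n) (Fin n) L) *ᵥ x) ⬝ᵥ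
      ((B : Matrix (Fin n) (Fin n) L) *ᵥ
        (((A⁻¹ : GL (Fin n) L) : Matrix (Fin n) (Fin n) L) *ᵥ y)) := by
    intro x y
    rw [hM, ← mulVec_mulVec, ← mulVec_mulVec, dotProduct_mulVec, vecMul_transpose]
  obtain ⟨M', hM'⟩ : ∃ M' : Matrix (Fin n) (Fin n) L,
      M' = (A : Matrix (Fin n) (Fin n) L) *
        ((B⁻¹ : GL (Fin n) L) : Matrix (Fin n) (Fin n) L) *
        ((A : Matrix (Fin n) (Fin n) L))ᵀ := ⟨_, rfl⟩
  have hAA : (A : Matrix (Fin n) (Fin n) L) *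
      ((A⁻¹ : GL (Fin n) L) : Matrix (Fin n) (Fin n) L) = 1 := by
    rw [← Units.val_mul, mul_inv_cancel, Units.val_one]
  have hAA' : ((A⁻¹ : GL (Fin n) L) : Matrix (Fin n) (Fin n) L) *
      (A : Matrix (Fin n) (Fin n) L) = 1 := by
    rw [← Units.val_mul, inv_mul_cancel, Units.val_one]
  have hBB : (B : Matrix (Fin n) (Fin n) L) *
      ((B⁻¹ : GL (Fin n) L) : Matrix (Fin n) (Fin n) L) = 1 := by
    rw [← Units.val_mul, mul_inv_cancel, Units.val_one]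
  have hMM : M * M' = 1 := by
    rw [hM, hM']
    have h1 : (((A⁻¹ : GL (Fin n) L) : Matrix (Fin n) (Fin n) L))ᵀ *
        (B : Matrix (Fin n) (Fin n) L) * ((A⁻¹ : GL (Fin n) L) : Matrix (Fin n) (Fin n) L) *
        ((A : Matrix (Fin n) (Fin n) L) *
        ((B⁻¹ : GL (Fin n) L) : Matrix (Fin n) (Fin n) L) *
        ((A : Matrix (Fin n) (Fin n) L))ᵀ) =
        (((A⁻¹ : GL (Fin n) L) : Matrix (Fin n) (Fin n) L))ᵀ *
        ((B : Matrix (Fin n) (Fin n) L) * ((((A⁻¹ : GL (Fin n) L) : Matrix (Fin n) (Fin n) L) *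
        (A : Matrix (Fin n) (Fin n) L)) *
        ((B⁻¹ : GL (Fin n) L) : Matrix (Fin n) (Fin n) L))) *
        ((A : Matrix (Fin n) (Fin n) L))ᵀ := by
      simp only [Matrix.mul_assoc]
    rw [h1, hAA', Matrix.one_mul, hBB, Matrix.mul_one, ← Matrix.transpose_mul, hAA,
      Matrix.transpose_one]
  have hMint : ∀ i j, ‖M i j‖ ≤ 1 := by
    intro i j
    have h1 : M i j = Pi.single i (1 : L) ⬝ᵥ (M *ᵥ Pi.single j (1 : L)) := by
      rw [mulVec_single_one, single_one_dotProduct]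
      rfl
    rw [h1, hMdot, ← vc_single (p := p), ← vc_single (p := p)]
    exact (hT _).1 (hAi _) _ (hAi _)
  have hM'int : ∀ i j, ‖M' i j‖ ≤ 1 := by
    intro i j
    have h1 : M' i j = ((A : Matrix (Fin n) (Fin n) L) *ᵥ
        (((B⁻¹ : GL (Fin n) L) : Matrix (Fin n) (Fin n) L) *ᵥ
        (((A : Matrix (Fin n) (Fin n) L))ᵀ *ᵥ Pi.single j (1 : L)))) i := by
      rw [mulVec_mulVec, mulVec_mulVec, ← hM', mulVec_single_one]
      rfl
    rw [h1]
    refine (hA _).1 ?_ i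
    rw [hT]
    intro x hx
    rw [mulVec_mulVec, hBB, one_mulVec, dotProduct_mulVec, vecMul_transpose,
      dotProduct_single_one]
    exact (hA x).1 hx j
  obtain ⟨B₀, hB₀⟩ : ∃ B₀ : Matrix (Fin n) (Fin n) (OO p L), B₀.map (OO p L).subtype = M :=
    ⟨fun i j => ⟨M i j, hMint i j⟩, rfl⟩
  obtain ⟨B₁, hB₁⟩ : ∃ B₁ : Matrix (Fin n) (Fin n) (OO p L), B₁.map (OO p L).subtype = M' :=
    ⟨fun i j => ⟨M' i j, hM'int i j⟩, rfl⟩
  have hunit : B₀ * B₁ = 1 := by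
    apply map_inj (p := p) (L := L)
    change (B₀ * B₁).map (OO p L).subtype =
      (1 : Matrix (Fin n) (Fin n) (OO p L)).map (OO p L).subtype
    rw [Matrix.map_mul, hB₀, hB₁, hMM, Matrix.map_one _ (map_zero _) (map_one _)]
  have hdot : ∀ x y : Fin n → OO p L, ((x ⬝ᵥ (B₀ *ᵥ y) : OO p L) : L) =
      (((A⁻¹ : GL (Fin n) L) : Matrix (Fin n) (Fin n) L) *ᵥ vc p x) ⬝ᵥ
      ((B : Matrix (Fin n) (Fin n) L) *ᵥ
        (((A⁻¹ : GL (Fin n) L) : Matrix (Fin n) (Fin n) L) *ᵥ vc p y)) := by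
    intro x y
    rw [vc_dot, vc_mulVec, hB₀, hMdot]
  -- the Lagrangian
  have hNT : ∀ y ∈ N, y ∈ T := fun y hy => ((hN y).1 hy).1
  obtain ⟨N₁, hN₁⟩ : ∃ N₁ : Submodule (OO p L) (Fin n → OO p L), ∀ z, z ∈ N₁ ↔
      ((A⁻¹ : GL (Fin n) L) : Matrix (Fin n) (Fin n) L) *ᵥ vc p z ∈ N := by
    refine ⟨{ carrier := {z | ((A⁻¹ : GL (Fin n) L) : Matrix (Fin n) (Fin n) L) *ᵥ vc p z ∈ N}
              add_mem' := ?_
              zero_mem' := ?_
              smul_mem' := ?_ }, fun z => Iff.rfl⟩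
    · intro z w hz hw
      change _ *ᵥ vc p (z + w) ∈ N
      rw [vc_add, mulVec_add, hN]
      refine ⟨haT _ (hNT _ hz) _ (hNT _ hw), fun x hx => ?_⟩
      rw [mulVec_add, dotProduct_add]
      exact (IsUltrametricDist.norm_add_le_max _ _).trans_lt (max_lt (((hN _).1 hz).2 x hx)
        (((hN _).1 hw).2 x hx))
    · change _ *ᵥ vc p (0 : Fin n → OO p L) ∈ N
      rw [vc_zero, mulVec_zero, hN]
      refine ⟨h0T, fun x _ => ?_⟩
      rw [mulVec_zero, dotProduct_zero, norm_zero]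
      exact zero_lt_one
    · intro a z hz
      change _ *ᵥ vc p (a • z) ∈ N
      rw [vc_smul, mulVec_smul, hN]
      refine ⟨hsT _ (OO.norm_le a) _ (hNT _ hz), fun x hx => ?_⟩
      rw [mulVec_smul, dotProduct_smul, smul_eq_mul, norm_mul]
      calc ‖(a : L)‖ * _ ≤ 1 * _ :=
            mul_le_mul_of_nonneg_right (OO.norm_le a) (norm_nonneg _)
        _ < 1 := by
          rw [one_mul]
          exact ((hN _).1 hz).2 x hx
  refine ⟨A, ρ, B₀, N₁, hρ, ?_, ?_, ?_, ?_, ?_, ?_⟩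
  · apply map_inj (p := p) (L := L)
    change B₀ᵀ.map (OO p L).subtype = B₀.map (OO p L).subtype
    have h1 : B₀ᵀ.map (OO p L).subtype = Mᵀ := by
      rw [← hB₀]
      rfl
    rw [h1, hB₀, hM, Matrix.transpose_mul, Matrix.transpose_mul, hB,
      Matrix.transpose_transpose, Matrix.mul_assoc]
  · exact (Matrix.isUnit_iff_isUnit_det _).1 (IsUnit.of_mul_eq_one _ hunit)
  · rw [hB₀, hM]
    have h1 : ((A : Matrix (Fin n) (Fin n) L))ᵀ *
        ((((A⁻¹ : GL (Fin n) L) : Matrix (Fin n) (Fin n) L))ᵀ *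
        (B : Matrix (Fin n) (Fin n) L) * ((A⁻¹ : GL (Fin n) L) : Matrix (Fin n) (Fin n) L)) *
        (A : Matrix (Fin n) (Fin n) L) =
        (((A : Matrix (Fin n) (Fin n) L))ᵀ *
        (((A⁻¹ : GL (Fin n) L) : Matrix (Fin n) (Fin n) L))ᵀ) *
        (B : Matrix (Fin n) (Fin n) L) * (((A⁻¹ : GL (Fin n) L) : Matrix (Fin n) (Fin n) L) *
        (A : Matrix (Fin n) (Fin n) L)) := by
      simp only [Matrix.mul_assoc]
    rw [h1, hAA', Matrix.mul_one, ← Matrix.transpose_mul, hAA', Matrix.transpose_one,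
      Matrix.one_mul]
  · intro x
    rw [hN₁, vc_smul, mulVec_smul, hN]
    refine ⟨hsT _ (OO.norm_le _) _ (hAi x), fun y hy => ?_⟩
    rw [mulVec_smul, dotProduct_smul, smul_eq_mul, norm_mul]
    calc ‖((pi0 p L : OO p L) : L)‖ * _ ≤ ‖((pi0 p L : OO p L) : L)‖ * 1 :=
          mul_le_mul_of_nonneg_left ((hT _).1 (hAi x) y (hNT y hy)) (norm_nonneg _)
      _ < 1 := by
        rw [mul_one]
        exact pi0_lt p L
  · intro g x hx
    rw [hN₁] at hx ⊢
    have h1 : ((ρ g : Matrix (Fin n) (Fin n) (OO p L))).map (OO p L).subtype =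
        (A : Matrix (Fin n) (Fin n) L) * (V g : Matrix (Fin n) (Fin n) L) *
          ((A⁻¹ : GL (Fin n) L) : Matrix (Fin n) (Fin n) L) := by
      rw [← Units.val_mul, ← Units.val_mul, ← hρ g]
      rfl
    have h2 : ((A⁻¹ : GL (Fin n) L) : Matrix (Fin n) (Fin n) L) *ᵥ
        vc p ((ρ g : Matrix (Fin n) (Fin n) (OO p L)) *ᵥ x) =
        (V g : Matrix (Fin n) (Fin n) L) *ᵥ
          (((A⁻¹ : GL (Fin n) L) : Matrix (Fin n) (Fin n) L) *ᵥ vc p x) := by
      rw [vc_mulVec, h1, mulVec_mulVec, mulVec_mulVec, ← Matrix.mul_assoc, ← Matrix.mul_assoc,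
        hAA', Matrix.one_mul]
    rw [h2]
    exact hVN g _ hx
  · intro y
    rw [hN₁, hN]
    constructor
    · rintro ⟨_, hy⟩ x hx
      rw [pi0_dvd, hdot]
      exact hy _ ((hN₁ x).1 hx)
    · intro hy
      refine ⟨hAi y, fun x hx => ?_⟩
      obtain ⟨z, rfl⟩ := hAe x (hNT x hx)
      have h1 := hy z ((hN₁ z).2 hx)
      rwa [pi0_dvd, hdot] at h1

end BKT
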