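import Pool.Agent.Lib.MP_7c08ba_nt.T1.StH

set_option autoImplicit false

/-!
Parity for general residual representations, module NFM: the condition `NoForm` gives the condition
of PARH.
-/

noncomputable section

namespace BKT

open NumberField BKGen BKMet
open Matrix

namespace HNFM

section Basic

variable {p : ℕ} [Fact p.Prime] {L : Type} [NormedField L] [NormedAlgebra ℚ_[p] L] {n : ℕ}

/-- integral vectors as vectors over `L` -/
def emb (y : Fin n → OO p L) : Fin n → L := fun i => (y i : L)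

theorem emb_inj {y z : Fin n → OO p L} (h : emb y = emb z) : y = z := by
  funext i
  exact Subtype.ext (congrFun h i)

theorem emb_add (y z : Fin n → OO p L) : emb (y + z) = emb y + emb z := rfl

theorem emb_zero : emb (0 : Fin n → OO p L) = 0 := rfl

theorem emb_smul (a : OO p L) (y : Fin n → OO p L) : emb (a • y) = (a : L) • emb y := rfl

theorem emb_mulVec (M : Matrix (Fin n) (Fin n) (OO p L)) (y : Fin n → OO p L) :
    emb (M *ᵥ y) = M.map (OO p L).subtype *ᵥ emb y := by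
  funext i
  change ((∑ j, M i j * y j : OO p L) : L) = ∑ j, (M i j : L) * (y j : L)
  rw [AddSubmonoidClass.coe_finsetSum]
  rfl

/-- lattice coordinates -/
def ee (A : GL (Fin n) L) : (Fin n → OO p L) →+ (Fin n → L) where
  toFun y := ((A⁻¹ : GL (Fin n) L) : Matrix (Fin n) (Fin n) L) *ᵥ emb y
  map_zero' := by rw [emb_zero, mulVec_zero]
  map_add' y z := by rw [emb_add, mulVec_add]

variable {A : GL (Fin n) L}

theorem ee_apply (y : Fin n → OO p L) :
    ee A y = ((A⁻¹ : GL (Fin n) L) : Matrix (Fin n) (Fin n) L) *ᵥ emb y := rfl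

theorem A_ee (y : Fin n → OO p L) : (A : Matrix (Fin n) (Fin n) L) *ᵥ ee A y = emb y := by
  rw [ee_apply, mulVec_mulVec, ← Units.val_mul, mul_inv_cancel, Units.val_one, one_mulVec]

theorem ee_of {x : Fin n → L} {y : Fin n → OO p L}
    (h : (A : Matrix (Fin n) (Fin n) L) *ᵥ x = emb y) : x = ee A y := by
  rw [ee_apply, ← h, mulVec_mulVec, ← Units.val_mul, inv_mul_cancel, Units.val_one, one_mulVec]

theorem ee_inj : Function.Injective (ee (p := p) A) := by
  intro y z h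
  apply emb_inj
  rw [← A_ee (A := A), ← A_ee (A := A), h]

theorem ee_smul (a : OO p L) (y : Fin n → OO p L) : ee A (a • y) = (a : L) • ee A y := by
  rw [ee_apply, ee_apply, emb_smul, mulVec_smul]

theorem ee_smul' (a : L) (ha : ‖a‖ ≤ 1) (y : Fin n → OO p L) :
    a • ee A y = ee A ((⟨a, ha⟩ : OO p L) • y) :=
  (ee_smul (A := A) (⟨a, ha⟩ : OO p L) y).symm

theorem ee_act {G : Type} [Group G] {V : G →* GL (Fin n) L} {ρ : G →* GL (Fin n) (OO p L)}
    (hρ : ∀ g, toL p L n (ρ g) = A * V g * A⁻¹) (g : G) (y : Fin n → OO p L) :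
    (V g : Matrix (Fin n) (Fin n) L) *ᵥ ee A y =
      ee A ((ρ g : Matrix (Fin n) (Fin n) (OO p L)) *ᵥ y) := by
  apply ee_of
  rw [emb_mulVec]
  have h1 : ((ρ g : Matrix (Fin n) (Fin n) (OO p L)).map (OO p L).subtype) =
      ((A * V g * A⁻¹ : GL (Fin n) L) : Matrix (Fin n) (Fin n) L) := by
    rw [← hρ g]
    rfl
  rw [h1, ee_apply, mulVec_mulVec, mulVec_mulVec, Units.val_mul, Units.val_mul, mul_assoc]

/-- the lattice in `Lⁿ` given by `P` -/
def up (A : GL (Fin n) L) (P : Submodule (OO p L) (Fin n → OO p L)) : AddSubgroup (Fin n → L) :=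
  P.toAddSubgroup.map (ee A)

theorem mem_up {P : Submodule (OO p L) (Fin n → OO p L)} {x : Fin n → L} :
    x ∈ up A P ↔ ∃ y ∈ P, ee A y = x := by
  unfold up
  rw [AddSubgroup.mem_map]
  rfl

theorem ee_mem_up {P : Submodule (OO p L) (Fin n → OO p L)} {y : Fin n → OO p L} :
    ee A y ∈ up A P ↔ y ∈ P := by
  rw [mem_up]
  constructor
  · rintro ⟨z, hz, h⟩
    rwa [← ee_inj h]
  · intro h
    exact ⟨y, h, rfl⟩

theorem up_mono {P Q : Submodule (OO p L) (Fin n → OO p L)} : up A P ≤ up A Q ↔ P ≤ Q := by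
  constructor
  · intro h y hy
    exact ee_mem_up.1 (h (ee_mem_up.2 hy))
  · rintro h x hx
    obtain ⟨y, hy, rfl⟩ := mem_up.1 hx
    exact ee_mem_up.2 (h hy)

theorem relIndex_up (P Q : Submodule (OO p L) (Fin n → OO p L)) :
    (up A P).relIndex (up A Q) = P.toAddSubgroup.relIndex Q.toAddSubgroup :=
  AddSubgroup.relIndex_map_map_of_injective _ _ ee_inj

theorem norm_lt_iff (a b : OO p L) : ‖(a : L) - b‖ < 1 ↔
    IsLocalRing.residue (OO p L) a = IsLocalRing.residue (OO p L) b := by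
  have h1 : (a : L) - b = ((a - b : OO p L) : L) := rfl
  rw [h1, ← OO.mem_max, ← sub_eq_zero, ← map_sub]
  exact (IsLocalRing.residue_eq_zero_iff _).symm

theorem norm_lt_iff_zero (a : OO p L) : ‖(a : L)‖ < 1 ↔
    IsLocalRing.residue (OO p L) a = 0 := by
  rw [← OO.mem_max]
  exact (IsLocalRing.residue_eq_zero_iff _).symm

/-- a section of the residue map -/
def sec (x : kk p L) : OO p L := Function.surjInv IsLocalRing.residue_surjective x

theorem res_sec (x : kk p L) : IsLocalRing.residue (OO p L) (sec x) = x :=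
  Function.surjInv_eq _ _

/-- the form on `Lⁿ` -/
def ff (A : GL (Fin n) L) (f : (Fin n → OO p L) → (Fin n → OO p L) → kk p L)
    (x y : Fin n → L) : L :=
  (sec (f (Function.invFun (ee A) x) (Function.invFun (ee A) y)) : L)

theorem ff_ee (f : (Fin n → OO p L) → (Fin n → OO p L) → kk p L) (u v : Fin n → OO p L) :
    ff A f (ee A u) (ee A v) = (sec (f u v) : L) := by
  unfold ff
  rw [Function.leftInverse_invFun ee_inj u, Function.leftInverse_invFun ee_inj v]

/-- the image of a `p`-adic integer in the ring of integers of `L` -/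
theorem norm_Zp (z : ℤ_[p]) : ‖algebraMap ℚ_[p] L (algebraMap ℤ_[p] ℚ_[p] z)‖ ≤ 1 := by
  rw [norm_algebraMap']
  exact z.2

theorem res_Zp (z : ℤ_[p]) :
    IsLocalRing.residue (OO p L) ⟨algebraMap ℚ_[p] L (algebraMap ℤ_[p] ℚ_[p] z), norm_Zp z⟩ =
      algebraMap (ZMod p) (kk p L) (PadicInt.toZMod z) := by
  have h0 : (z - ((PadicInt.toZMod z).val : ℤ_[p])) ∈ IsLocalRing.maximalIdeal ℤ_[p] := by
    have h := PadicInt.toZMod_spec z
    rwa [ZMod.cast_eq_val] at h
  have h1 : ‖z - ((PadicInt.toZMod z).val : ℤ_[p])‖ < 1 := by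
    rw [IsLocalRing.mem_maximalIdeal, PadicInt.mem_nonunits] at h0
    exact h0
  have h2 : algebraMap (ZMod p) (kk p L) (PadicInt.toZMod z) =
      IsLocalRing.residue (OO p L) (((PadicInt.toZMod z).val : ℕ) : OO p L) := by
    rw [map_natCast, ← map_natCast (algebraMap (ZMod p) (kk p L)), ZMod.natCast_val,
      ZMod.cast_id]
  rw [h2, ← norm_lt_iff]
  change ‖algebraMap ℚ_[p] L (algebraMap ℤ_[p] ℚ_[p] z) -
    (((((PadicInt.toZMod z).val : ℕ) : OO p L)) : L)‖ < 1
  have h3 : ((((PadicInt.toZMod z).val : ℕ) : OO p L) : L) =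
      algebraMap ℚ_[p] L (algebraMap ℤ_[p] ℚ_[p] (((PadicInt.toZMod z).val : ℕ) : ℤ_[p])) := by
    rw [map_natCast, map_natCast]
    rfl
  rw [h3, ← map_sub, ← map_sub, norm_algebraMap']
  exact h1

end Basic

section Fin

variable {p : ℕ} [Fact p.Prime] {L : Type} [NormedField L] [NormedAlgebra ℚ_[p] L]
  [FiniteDimensional ℚ_[p] L] {n : ℕ}

/-- adding one element multiplies the index by the order of the residue field -/
theorem step (N : Submodule (OO p L) (Fin n → OO p L)) (x : Fin n → OO p L) (hx : x ∉ N)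
    (hπ : pi0 p L • x ∈ N) :
    N.toAddSubgroup.relIndex (N ⊔ Submodule.span (OO p L) {x}).toAddSubgroup =
      Nat.card (kk p L) := by
  set K := N ⊔ Submodule.span (OO p L) {x} with hK
  have hxK : x ∈ K := Submodule.mem_sup_right (Submodule.mem_span_singleton_self x)
  let φ : OO p L →ₗ[OO p L] (K ⧸ N.comap K.subtype) :=
    (N.comap K.subtype).mkQ ∘ₗ (LinearMap.toSpanSingleton (OO p L) K ⟨x, hxK⟩)
  have hφ : ∀ a : OO p L, φ a = 0 ↔ a • x ∈ N := by
    intro a
    change (N.comap K.subtype).mkQ (a • ⟨x, hxK⟩) = 0 ↔ _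
    rw [Submodule.mkQ_apply, Submodule.Quotient.mk_eq_zero]
    rfl
  have hsurj : Function.Surjective φ := by
    intro q
    obtain ⟨⟨k, hk⟩, rfl⟩ := Submodule.mkQ_surjective _ q
    obtain ⟨m, hm, s, hs, hms⟩ := Submodule.mem_sup.1 hk
    obtain ⟨a, rfl⟩ := Submodule.mem_span_singleton.1 hs
    refine ⟨a, ?_⟩
    change (N.comap K.subtype).mkQ (a • ⟨x, hxK⟩) = _
    rw [Submodule.mkQ_apply, Submodule.mkQ_apply, Submodule.Quotient.eq]
    change a • x - k ∈ N
    rw [← hms, sub_add_cancel_right]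
    exact N.neg_mem hm
  have hker : LinearMap.ker φ = IsLocalRing.maximalIdeal (OO p L) := by
    symm
    refine (IsLocalRing.maximalIdeal.isMaximal (OO p L)).eq_of_le ?_ ?_
    · intro h
      apply hx
      have h1 : (1 : OO p L) ∈ LinearMap.ker φ := by
        rw [h]
        exact Submodule.mem_top
      rw [LinearMap.mem_ker, hφ, one_smul] at h1
      exact h1
    · intro a ha
      rw [pi0_span, Ideal.mem_span_singleton] at ha
      obtain ⟨b, rfl⟩ := ha
      rw [LinearMap.mem_ker, hφ, mul_comm, mul_smul]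
      exact N.smul_mem _ hπ
  have e := φ.quotKerEquivOfSurjective hsurj
  rw [hker] at e
  exact (Nat.card_congr e.toEquiv).symm

theorem chain (P Q : Submodule (OO p L) (Fin n → OO p L)) (hPQ : P ≤ Q)
    (hπ : ∀ x : Fin n → OO p L, pi0 p L • x ∈ P) (d : ℕ)
    (hd : P.toAddSubgroup.relIndex Q.toAddSubgroup = Nat.card (kk p L) ^ d) (i : ℕ) (hi : i ≤ d) :
    ∃ M : Submodule (OO p L) (Fin n → OO p L), P ≤ M ∧ M ≤ Q ∧
      P.toAddSubgroup.relIndex M.toAddSubgroup = Nat.card (kk p L) ^ i := by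
  have hk : 1 < Nat.card (kk p L) := Finite.one_lt_card
  induction i with
  | zero =>
    refine ⟨P, le_rfl, hPQ, ?_⟩
    rw [AddSubgroup.relIndex_self, pow_zero]
  | succ i ih =>
    obtain ⟨M, h1, h2, h3⟩ := ih (Nat.le_of_succ_le hi)
    have h4 : ¬ Q ≤ M := by
      intro h
      have h5 : M = Q := le_antisymm h2 h
      rw [h5, hd] at h3
      have h6 := Nat.pow_right_injective hk h3
      omega
    obtain ⟨x, hxQ, hxM⟩ := Set.not_subset.1 h4
    refine ⟨M ⊔ Submodule.span (OO p L) {x}, h1.trans le_sup_left, ?_, ?_⟩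
    · refine sup_le h2 ?_
      rw [Submodule.span_le, Set.singleton_subset_iff]
      exact hxQ
    · have h5 := step M x hxM (h1 (hπ x))
      have h6 := AddSubgroup.relIndex_mul_relIndex P.toAddSubgroup M.toAddSubgroup
        (M ⊔ Submodule.span (OO p L) {x}).toAddSubgroup h1 (le_sup_left (a := M))
      rw [← h6, h3, h5, pow_succ]

theorem isEven {A : GL (Fin n) L} (P Q : Submodule (OO p L) (Fin n → OO p L)) (hPQ : P ≤ Q)
    (hπ : ∀ x : Fin n → OO p L, pi0 p L • x ∈ P) (d : ℕ) (hev : Even d)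
    (hd : P.toAddSubgroup.relIndex Q.toAddSubgroup = Nat.card (kk p L) ^ d) :
    BKS.IsEven (up A P) (up A Q) := by
  obtain ⟨m, rfl⟩ := hev
  obtain ⟨M, h1, h2, h3⟩ := chain P Q hPQ hπ _ hd m (Nat.le_add_left m m)
  have hk : 0 < Nat.card (kk p L) ^ m := pow_pos Nat.card_pos m
  refine ⟨up A M, up_mono.2 h1, up_mono.2 h2, ?_, ?_⟩
  · intro a ha x hx
    obtain ⟨y, hy, rfl⟩ := mem_up.1 hx
    rw [ee_smul' a ha]
    exact ee_mem_up.2 (M.smul_mem _ hy)
  · rw [relIndex_up, relIndex_up, h3]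
    have h6 := AddSubgroup.relIndex_mul_relIndex P.toAddSubgroup M.toAddSubgroup
      Q.toAddSubgroup h1 h2
    rw [hd, h3, pow_add] at h6
    exact (Nat.eq_of_mul_eq_mul_left hk h6).symm

end Fin

section Main

variable {p : ℕ} [Fact p.Prime] {L : Type} [NormedField L] [NormedAlgebra ℚ_[p] L]
  [FiniteDimensional ℚ_[p] L] {n : ℕ} {F : Type} [Field F] {V : GF F →* GL (Fin n) L}
  {A : GL (Fin n) L} {ρ : GF F →* GL (Fin n) (OO p L)}

theorem isLat {T : AddSubgroup (Fin n → L)} (hT : BKS.IsLat V T)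
    (hA : ∀ x, x ∈ T ↔ ∀ i, ‖((A : Matrix (Fin n) (Fin n) L) *ᵥ x) i‖ ≤ 1)
    (hρ : ∀ g, toL p L n (ρ g) = A * V g * A⁻¹) {P : Submodule (OO p L) (Fin n → OO p L)}
    (hπ : ∀ x : Fin n → OO p L, pi0 p L • x ∈ P) (hs : Stb ρ P) : BKS.IsLat V (up A P) where
  bdd := by
    obtain ⟨C, hC⟩ := hT.bdd
    refine ⟨C, fun x hx => hC x ?_⟩
    obtain ⟨y, _, rfl⟩ := mem_up.1 hx
    rw [hA, A_ee]
    exact fun i => OO.norm_le (y i)
  nhd := by
    obtain ⟨ε, hε, h⟩ := hT.nhd
    have h0 := pi0_pos p L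
    refine ⟨ε * ‖((pi0 p L : OO p L) : L)‖, mul_pos hε h0, fun x hx => ?_⟩
    have h1 : ((pi0 p L : OO p L) : L)⁻¹ • x ∈ T := by
      apply h
      rw [norm_smul, norm_inv, inv_mul_le_iff₀ h0, mul_comm]
      exact hx
    have h2 := (hA _).1 h1
    let y : Fin n → OO p L := fun i => ⟨_, h2 i⟩
    have h3 : ((pi0 p L : OO p L) : L)⁻¹ • x = ee A y := ee_of rfl
    have h4 : x = ee A (pi0 p L • y) := by
      rw [ee_smul, ← h3, smul_smul, mul_inv_cancel₀ (pi0_ne p L), one_smul]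
    rw [h4]
    exact ee_mem_up.2 (hπ y)
  smul := by
    intro a ha x hx
    obtain ⟨y, hy, rfl⟩ := mem_up.1 hx
    rw [ee_smul' a ha]
    exact ee_mem_up.2 (P.smul_mem _ hy)
  stab := by
    intro g x hx
    obtain ⟨y, hy, rfl⟩ := mem_up.1 hx
    change (V g : Matrix (Fin n) (Fin n) L) *ᵥ ee A y ∈ _
    rw [ee_act hρ]
    exact ee_mem_up.2 (hs g y hy)

/-- the submodule of integral vectors given by a lattice -/
def down (A : GL (Fin n) L) {N : AddSubgroup (Fin n → L)} (hN : BKS.IsLat V N) :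
    Submodule (OO p L) (Fin n → OO p L) where
  carrier := {y | ee A y ∈ N}
  add_mem' {a b} ha hb := by
    change ee A (a + b) ∈ N
    rw [map_add]
    exact N.add_mem ha hb
  zero_mem' := by
    change ee A 0 ∈ N
    rw [map_zero]
    exact N.zero_mem
  smul_mem' a x hx := by
    change ee A (a • x) ∈ N
    rw [ee_smul]
    exact hN.smul _ (OO.norm_le a) _ hx

theorem isSimp {T : AddSubgroup (Fin n → L)} (hT : BKS.IsLat V T)
    (hA : ∀ x, x ∈ T ↔ ∀ i, ‖((A : Matrix (Fin n) (Fin n) L) *ᵥ x) i‖ ≤ 1)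
    (hρ : ∀ g, toL p L n (ρ g) = A * V g * A⁻¹) {P Q : Submodule (OO p L) (Fin n → OO p L)}
    (hπ : ∀ x : Fin n → OO p L, pi0 p L • x ∈ P) (hS : Smp ρ P Q) :
    BKS.IsSimp V T (up A P) (up A Q) where
  lat := isLat hT hA hρ hπ hS.stab
  lat' := isLat hT hA hρ (fun x => hS.lt.le (hπ x)) hS.stab'
  red := by
    intro a ha x hx
    have h1 := (hA x).1 hx
    let y : Fin n → OO p L := fun i => ⟨_, h1 i⟩
    have h2 : x = ee A y := ee_of rfl
    obtain ⟨b, hb⟩ := (pi0_dvd p L (⟨a, ha.le⟩ : OO p L)).2 ha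
    have h3 : a • x = ee A (pi0 p L • (b • y)) := by
      rw [smul_smul, ← hb, ee_smul, h2]
    rw [h3]
    exact ee_mem_up.2 (hπ _)
  le := by
    intro x hx
    obtain ⟨y, _, rfl⟩ := mem_up.1 hx
    rw [hA, A_ee]
    exact fun i => OO.norm_le (y i)
  lt := by
    refine lt_of_le_not_ge (up_mono.2 hS.lt.le) fun h => ?_
    exact not_le_of_gt hS.lt (up_mono.1 h)
  simple := by
    intro N hN h1 h2
    have h3 : up A (down (p := p) A hN) = N := by
      apply le_antisymm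
      · intro x hx
        obtain ⟨y, hy, rfl⟩ := mem_up.1 hx
        exact hy
      · intro x hx
        obtain ⟨y, _, rfl⟩ := mem_up.1 (h2 hx)
        exact ee_mem_up.2 hx
    have h4 : Stb ρ (down (p := p) A hN) := by
      intro g x hx
      change ee A _ ∈ N
      rw [← ee_act hρ]
      exact hN.stab g _ hx
    rcases hS.simple _ h4 (fun y hy => h1 (ee_mem_up.2 hy))
      (fun y hy => ee_mem_up.1 (h2 hy)) with h5 | h5
    · left
      rw [← h3, h5]
    · right
      rw [← h3, h5]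

omit [FiniteDimensional ℚ_[p] L] in
theorem isForm {c : AlgebraicClosure F ≃+* AlgebraicClosure F} {σ : F ≃+* F}
    (hcs : BKOdd.ConjHyp c σ) (hρ : ∀ g, toL p L n (ρ g) = A * V g * A⁻¹)
    {P Q : Submodule (OO p L) (Fin n → OO p L)} {f : (Fin n → OO p L) → (Fin n → OO p L) → kk p L}
    (hf : SymF ρ (BKOdd.conj c σ hcs.h) (cycF p F) P Q f) :
    BKS.IsForm p V c (up A P) (up A Q) (ff A f) where
  int := by
    intro x _ y _
    exact OO.norm_le _
  add := by
    intro x hx x' hx' y hy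
    obtain ⟨u, hu, rfl⟩ := mem_up.1 hx
    obtain ⟨u', hu', rfl⟩ := mem_up.1 hx'
    obtain ⟨v, hv, rfl⟩ := mem_up.1 hy
    rw [← map_add, ff_ee, ff_ee, ff_ee, ← Subring.coe_add, norm_lt_iff, map_add, res_sec, res_sec,
      res_sec, hf.add u hu u' hu' v hv]
  smul := by
    intro a ha x hx y hy
    obtain ⟨u, hu, rfl⟩ := mem_up.1 hx
    obtain ⟨v, hv, rfl⟩ := mem_up.1 hy
    rw [ee_smul' a ha, ff_ee, ff_ee]
    change ‖(sec (f ((⟨a, ha⟩ : OO p L) • u) v) : L) -
      (((⟨a, ha⟩ : OO p L) * sec (f u v) : OO p L) : L)‖ < 1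
    rw [norm_lt_iff, map_mul, res_sec, res_sec, hf.smul _ u hu v hv]
  symm := by
    intro x hx y hy
    obtain ⟨u, hu, rfl⟩ := mem_up.1 hx
    obtain ⟨v, hv, rfl⟩ := mem_up.1 hy
    rw [ff_ee, ff_ee, norm_lt_iff, res_sec, res_sec, hf.symm u hu v hv]
  eqv := by
    intro g g' hg x hx y hy
    obtain ⟨u, hu, rfl⟩ := mem_up.1 hx
    obtain ⟨v, hv, rfl⟩ := mem_up.1 hy
    have h1 : g' = BKOdd.conj c σ hcs.h g := by
      ext z
      change g' z = c (g (c.symm z))
      rw [← hg, RingEquiv.apply_symm_apply]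
    have h2 : BKS.vec V g (ee A u) = ee A ((ρ g : Matrix (Fin n) (Fin n) (OO p L)) *ᵥ u) :=
      ee_act hρ g u
    have h3 : BKS.vec V g' (ee A v) = ee A ((ρ g' : Matrix (Fin n) (Fin n) (OO p L)) *ᵥ v) :=
      ee_act hρ g' v
    have h4 : BKS.chi p L g = algebraMap ℚ_[p] L (algebraMap ℤ_[p] ℚ_[p]
      ((cycF p F g : ℤ_[p]ˣ) : ℤ_[p])) := rfl
    rw [h2, h3, h4, ff_ee, ff_ee]
    change ‖(sec (f ((ρ g : Matrix (Fin n) (Fin n) (OO p L)) *ᵥ u)
        ((ρ g' : Matrix (Fin n) (Fin n) (OO p L)) *ᵥ v)) : L) -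
      (((⟨_, norm_Zp ((cycF p F g : ℤ_[p]ˣ) : ℤ_[p])⟩ : OO p L) * sec (f u v) : OO p L) : L)‖ < 1
    rw [norm_lt_iff, map_mul, res_sec, res_sec, res_Zp, h1, hf.eqv g u hu v hv]
  ker := by
    intro x hx
    obtain ⟨u, hu, rfl⟩ := mem_up.1 hx
    rw [ee_mem_up, hf.ker u hu]
    constructor
    · intro h y hy
      obtain ⟨v, hv, rfl⟩ := mem_up.1 hy
      rw [ff_ee, norm_lt_iff_zero, res_sec, h v hv]
    · intro h v hv
      have h1 := h (ee A v) (ee_mem_up.2 hv)
      rwa [ff_ee, norm_lt_iff_zero, res_sec] at h1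

end Main

end HNFM

open HNFM in
/-- the condition `NoForm` gives the condition of PARH -/
theorem stNfm (h : StLatM) : StNfm := by
  intro p _ F _ _ _ c σ hcs L _ _ _ n V hV
  obtain ⟨T, hT, hno⟩ := hV
  obtain ⟨A, hA, hA'⟩ := h p L n (T : Set (Fin n → L)) T.zero_mem
    (fun x hx y hy => T.add_mem hx hy) hT.smul hT.bdd hT.nhd
  obtain ⟨ρ, hρ⟩ := hA' (GF F) V hT.stab
  refine ⟨A, ρ, hρ, ?_⟩
  intro P Q hπ hS hodd f hf
  refine hno (up A P) (up A Q) (isSimp hT hA hρ hπ hS) ?_ (ff A f) (isForm hcs hρ hf)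
  intro hO
  obtain ⟨l, hl, h1, h2, h3⟩ := hO
  obtain ⟨d, hd, hd'⟩ := hodd ⟨l, hl, h1, h2, h3⟩
  exact isEven P Q hS.lt.le hπ d hd hd'

end BKT
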