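import Pool.Agent.Lib.MP_7c08ba_nt.T1.StH

set_option autoImplicit false

/-!
Parity for general residual representations: module PARW2, parity and direct sums.
-/

noncomputable section

namespace BKT

open NumberField BKGen BKMet
open Matrix

namespace HPARW2

section Blk

variable {R : Type} [CommRing R] {n n' : ℕ}

theorem blk_transpose (M : Matrix (Fin n) (Fin n) R) (M' : Matrix (Fin n') (Fin n') R) :
    (blk M M')ᵀ = blk Mᵀ M'ᵀ := by
  unfold blk
  rw [Matrix.transpose_submatrix, Matrix.fromBlocks_transpose]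
  simp

theorem smul_blk (a : R) (M : Matrix (Fin n) (Fin n) R) (M' : Matrix (Fin n') (Fin n') R) :
    blk (a • M) (a • M') = a • blk M M' := by
  unfold blk
  have h : Matrix.fromBlocks (a • M) 0 0 (a • M') = a • Matrix.fromBlocks M 0 0 M' := by
    rw [Matrix.fromBlocks_smul, smul_zero, smul_zero]
  rw [h]
  rfl

theorem blk_mulVec_left (M : Matrix (Fin n) (Fin n) R) (M' : Matrix (Fin n') (Fin n') R)
    (v : Fin (n + n') → R) (i : Fin n) :
    (blk M M' *ᵥ v) (Fin.castAdd n' i) = (M *ᵥ fun k => v (Fin.castAdd n' k)) i := by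
  unfold blk
  simp only [Matrix.mulVec, dotProduct, Fin.sum_univ_add, Matrix.submatrix_apply,
    finSumFinEquiv_symm_apply_castAdd, finSumFinEquiv_symm_apply_natAdd,
    Matrix.fromBlocks_apply₁₁, Matrix.fromBlocks_apply₁₂, Matrix.zero_apply, zero_mul,
    Finset.sum_const_zero, add_zero]

theorem blk_mulVec_right (M : Matrix (Fin n) (Fin n) R) (M' : Matrix (Fin n') (Fin n') R)
    (v : Fin (n + n') → R) (i : Fin n') :
    (blk M M' *ᵥ v) (Fin.natAdd n i) = (M' *ᵥ fun k => v (Fin.natAdd n k)) i := by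
  unfold blk
  simp only [Matrix.mulVec, dotProduct, Fin.sum_univ_add, Matrix.submatrix_apply,
    finSumFinEquiv_symm_apply_castAdd, finSumFinEquiv_symm_apply_natAdd,
    Matrix.fromBlocks_apply₂₁, Matrix.fromBlocks_apply₂₂, Matrix.zero_apply, zero_mul,
    Finset.sum_const_zero, zero_add]

theorem coe_dsum {G : Type} [Group G] (V : G →* GL (Fin n) R) (V' : G →* GL (Fin n') R) (g : G) :
    (dsum V V' g : Matrix (Fin (n + n')) (Fin (n + n')) R) =
      blk (V g : Matrix (Fin n) (Fin n) R) (V' g : Matrix (Fin n') (Fin n') R) := rfl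

theorem coe_blkG (M : GL (Fin n) R) (M' : GL (Fin n') R) :
    (blkG M (-M') : Matrix (Fin (n + n')) (Fin (n + n')) R) =
      blk (M : Matrix (Fin n) (Fin n) R) (-(M' : Matrix (Fin n') (Fin n') R)) := rfl

theorem dsum_eq_one {G : Type} [Group G] (V : G →* GL (Fin n) R) (V' : G →* GL (Fin n') R)
    {g : G} (h : V g = 1) (h' : V' g = 1) : dsum V V' g = 1 := by
  apply Units.ext
  rw [coe_dsum, h, h']
  exact blk_one

theorem dsum_pow {G : Type} [Group G] (V : G →* GL (Fin n) R) (V' : G →* GL (Fin n') R)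
    {g : G} {m m' : ℕ} (h : V g ^ m = 1) (h' : V' g ^ m' = 1) :
    dsum V V' g ^ (m * m') = 1 := by
  rw [← map_pow]
  apply dsum_eq_one
  · rw [map_pow, pow_mul, h, one_pow]
  · rw [map_pow, mul_comm, pow_mul, h', one_pow]

end Blk

end HPARW2

open HPARW2 in
theorem stParW2 (h1 : StParT) (h2 : StSumH) (h3 : StSumT) : StParW2 := by
  intro p _ hp F _ _ hF hIm hsp c σ hcs L _ _ _ n n' V V' B B' hV hV' S ρ B₀ N hM
  have hpp : p.Prime := Fact.out
  obtain ⟨hcont, hfin⟩ := h2 p F L n n' V V' hV.cont hV'.cont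
  obtain ⟨P₀, hP₀, hspl, hram⟩ := hV.ram
  obtain ⟨P₀', hP₀', hspl', hram'⟩ := hV'.ram
  have key := h1 p hp F hF hIm hsp c σ hcs L (n + n') (dsum V V') hcont (P₀ ∪ P₀')
    (hP₀.union hP₀') ?_ ?_ ?_ (blkG B (-B')) ?_ ?_ S ρ B₀ N hM
    (fun j => (h3 p F hF hsp L n n' V V' j).1 (hV.dR j) (hV'.dR j))
    (fun j => (h3 p F hF hsp L n n' V V' j).2.1 (hV.frob j) (hV'.frob j))
  · obtain ⟨hfd, hpar⟩ := key
    obtain ⟨f1, f2, f3⟩ := hfin hfd
    refine ⟨f1, f2, fun j => ?_⟩
    have e1 := hpar j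
    rw [f3, (h3 p F hF hsp L n n' V V' j).2.2 (hV.dR j) (hV'.dR j)] at e1
    omega
  · rintro l (hl | hl)
    · exact hspl l hl
    · exact hspl' l hl
  · intro l _ hlp hl j g hg
    obtain ⟨m, hm, e⟩ := hram l hlp (fun h => hl (Or.inl h)) j g hg
    obtain ⟨m', hm', e'⟩ := hram' l hlp (fun h => hl (Or.inr h)) j g hg
    refine ⟨m * m', fun h => ?_, dsum_pow V V' e e'⟩
    rcases hpp.dvd_mul.1 h with h | h
    · exact hm h
    · exact hm' h
  · intro l _ hlp j v hv
    have a1 : (fun k => v (Fin.castAdd n' k)) = 0 := by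
      refine hV.inv l hlp j _ fun g t hgt => ?_
      funext i
      rw [← blk_mulVec_left _ (V' g : Matrix (Fin n') (Fin n') L)]
      exact congrFun (hv g t hgt) _
    have a2 : (fun k => v (Fin.natAdd n k)) = 0 := by
      refine hV'.inv l hlp j _ fun g t hgt => ?_
      funext i
      rw [← blk_mulVec_right (V g : Matrix (Fin n) (Fin n) L)]
      exact congrFun (hv g t hgt) _
    funext i
    refine Fin.addCases (fun k => ?_) (fun k => ?_) i
    · exact congrFun a1 k
    · exact congrFun a2 k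
  · rw [coe_blkG, blk_transpose, Matrix.transpose_neg, hV.symm, hV'.symm]
  · intro g
    have d1 := hV.dual g
    have d2 := hV'.dual g
    rw [coe_dsum, coe_blkG, blk_transpose, blk_mul]
    change blk _ _ * blk (V _ : Matrix (Fin n) (Fin n) L) (V' _ : Matrix (Fin n') (Fin n') L) = _
    rw [blk_mul, ← smul_blk]
    rw [Matrix.mul_neg, Matrix.neg_mul, smul_neg]
    congr 1
    rw [← d2]
    rfl

end BKT
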