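import Pool.Agent.Lib.MP_7c08ba_nt.T1.StH

set_option autoImplicit false

/-!
Parity for general residual representations, part H, module PTF: the theorem in terms of the
definitions of `BK/Sel.lean` and `BK/ClsT.lean`.
-/

noncomputable section

namespace BKT

open NumberField BKGen BKMet
open Matrix

namespace HPTF

/-- the hypotheses on a representation in the class with a form -/
theorem hyp {p : ℕ} [Fact p.Prime] {F : Type} [Field F]
    {c : AlgebraicClosure F ≃+* AlgebraicClosure F} {σ : F ≃+* F} (hcs : BKOdd.ConjHyp c σ)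
    {L : Type} [NormedField L] [NormedAlgebra ℚ_[p] L] {n : ℕ} {V : GF F →* GL (Fin n) L}
    {B : Matrix (Fin n) (Fin n) L} (hV : BKS.IsRepT p V) (hB : BKS.IsPol p V c B) :
    Hyp p c hcs V (Matrix.nonsingInvUnit B hB.2.1) := by
  obtain ⟨P, hP, hur⟩ := hV.ram
  refine ⟨hV.cont, ⟨(P : Set ℕ), P.finite_toSet, hP, hur⟩, hV.inv, hB.1, ?_, fun j => (hV.dR j).toOdd,
    fun j => ?_⟩
  · intro g
    refine hB.matrix fun z => ?_
    change c (g (c.symm (c z))) = c (g z)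
    rw [RingEquiv.symm_apply_apply]
  · rw [← BKS.frobAt_eq]
    exact hV.frob j

end HPTF

/-- Module PTF. -/
theorem stPtf (h1 : StParH) (h2 : StParW2) (h3 : StWeq) (h4 : StNfm) : StPtf := by
  intro p _ F _ _ hp hF hreal hs c hc L _ _ _ n V B hV hB
  obtain ⟨σ, hcs⟩ := BKS.exists_conjHyp hF hc
  have hH := HPTF.hyp hcs hV hB
  constructor
  · intro hno
    obtain ⟨A, ρ, hA, hno'⟩ := h4 p F hF c σ hcs L n V hno
    obtain ⟨P, hP, hur⟩ := hV.ram
    have h5 := h1 p hp F hF hreal hs c σ hcs L n V hV.cont (P : Set ℕ) P.finite_toSet hP hur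
      hV.inv (Matrix.nonsingInvUnit B hB.2.1) hH.symm hH.dual A ρ hA hno' hH.dR hH.frob
    refine ⟨(BKS.isFin_H1f V).mpr h5.1, fun j => ?_⟩
    rw [BKS.dim_H1f, BKS.tdim_eq]
    exact h5.2 j
  · intro n' V' B' hV' hB' hW
    have hH' := HPTF.hyp hcs hV' hB'
    obtain ⟨S, ρ, B₀, N, hM⟩ := h3 p F L n n' V V' (Matrix.nonsingInvUnit B hB.2.1)
      (Matrix.nonsingInvUnit B' hB'.2.1) hH.symm hH'.symm hW
    obtain ⟨h5, h6, h7⟩ := h2 p hp F hF hreal hs c σ hcs L n n' V V' _ _ hH hH' S ρ B₀ N hM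
    refine ⟨(BKS.isFin_H1f V).mpr h5, (BKS.isFin_H1f V').mpr h6, fun j => ?_⟩
    rw [BKS.dim_H1f, BKS.tdim_eq, BKS.dim_H1f, BKS.tdim_eq]
    exact h7 j

end BKT
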