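import Pool.Agent.Lib.MP_7c08ba_nt.T1.StH

set_option autoImplicit false

/-!
Parity for general residual representations, part H, module WEQ: equivalence in the Witt group gives
the metabolic data of the direct sum.
-/

noncomputable section

namespace BKT

open NumberField BKGen BKMet
open Matrix

namespace HWEQ

section pr

variable {A : Type} {n n' : ℕ}

/-- first component -/
def p1 (x : Fin (n + n') → A) : Fin n → A := fun i => x (finSumFinEquiv (Sum.inl i))

/-- second component -/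
def p2 (x : Fin (n + n') → A) : Fin n' → A := fun i => x (finSumFinEquiv (Sum.inr i))

/-- the vector with given components -/
def jn (z : (Fin n → A) × (Fin n' → A)) : Fin (n + n') → A :=
  fun k => Sum.elim z.1 z.2 (finSumFinEquiv.symm k)

theorem jn_eq (z : (Fin n → A) × (Fin n' → A)) : (p1 (jn z), p2 (jn z)) = z := by
  apply Prod.ext
  · funext i
    simp [p1, jn]
  · funext i
    simp [p2, jn]

end pr

section mat

variable {R : Type} [CommRing R] {n n' : ℕ}

theorem dot_eq (x y : Fin (n + n') → R) : x ⬝ᵥ y = p1 x ⬝ᵥ p1 y + p2 x ⬝ᵥ p2 y := by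
  unfold dotProduct p1 p2
  rw [← Fintype.sum_equiv finSumFinEquiv
    (fun k : Fin n ⊕ Fin n' => x (finSumFinEquiv k) * y (finSumFinEquiv k)) _ fun _ => rfl,
    Fintype.sum_sum_type]

theorem p1_mul (M : Matrix (Fin n) (Fin n) R) (M' : Matrix (Fin n') (Fin n') R)
    (x : Fin (n + n') → R) : p1 (blk M M' *ᵥ x) = M *ᵥ p1 x := by
  funext i
  change (fun k => blk M M' (finSumFinEquiv (Sum.inl i)) k) ⬝ᵥ x = (fun k => M i k) ⬝ᵥ p1 x
  rw [dot_eq]
  have h1 : p1 (fun k => blk M M' (finSumFinEquiv (Sum.inl i)) k) = fun k => M i k := by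
    funext k
    simp [p1, blk, Matrix.submatrix_apply]
  have h2 : p2 (fun k => blk M M' (finSumFinEquiv (Sum.inl i)) k) = 0 := by
    funext k
    simp [p2, blk, Matrix.submatrix_apply]
  rw [h1, h2, zero_dotProduct, add_zero]

theorem p2_mul (M : Matrix (Fin n) (Fin n) R) (M' : Matrix (Fin n') (Fin n') R)
    (x : Fin (n + n') → R) : p2 (blk M M' *ᵥ x) = M' *ᵥ p2 x := by
  funext i
  change (fun k => blk M M' (finSumFinEquiv (Sum.inr i)) k) ⬝ᵥ x = (fun k => M' i k) ⬝ᵥ p2 x
  rw [dot_eq]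
  have h1 : p1 (fun k => blk M M' (finSumFinEquiv (Sum.inr i)) k) = 0 := by
    funext k
    simp [p1, blk, Matrix.submatrix_apply]
  have h2 : p2 (fun k => blk M M' (finSumFinEquiv (Sum.inr i)) k) = fun k => M' i k := by
    funext k
    simp [p2, blk, Matrix.submatrix_apply]
  rw [h1, h2, zero_dotProduct, zero_add]

theorem blk_transpose (M : Matrix (Fin n) (Fin n) R) (M' : Matrix (Fin n') (Fin n') R) :
    (blk M M')ᵀ = blk Mᵀ M'ᵀ := by
  unfold blk
  rw [Matrix.transpose_submatrix, Matrix.fromBlocks_transpose]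
  simp

end mat

theorem form_eq {L : Type} [NormedField L] {n n' : ℕ} (B : Matrix (Fin n) (Fin n) L)
    (B' : Matrix (Fin n') (Fin n') L) (x y : Fin (n + n') → L) :
    x ⬝ᵥ (blk B (-B') *ᵥ y) = BKS.form B B' (p1 x, p2 x) (p1 y, p2 y) := by
  rw [dot_eq, p1_mul, p2_mul, Matrix.neg_mulVec, dotProduct_neg]
  unfold BKS.form
  ring

end HWEQ

open HWEQ in
/-- Module WEQ. -/
theorem stWeq (h : StMtb) : StWeq := by
  intro p _ F _ L _ _ _ n n' V V' B B' hB hB' hW
  obtain ⟨T, N, ⟨C, hC⟩, h2, h3, h4, h5⟩ := hW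
  have hval : ((blkG B (-B') : GL (Fin (n + n')) L) : Matrix (Fin (n + n')) (Fin (n + n')) L) =
      blk (B : Matrix (Fin n) (Fin n) L) (-(B' : Matrix (Fin n') (Fin n') L)) := rfl
  apply h p L (GF F) (n + n') (dsum V V') (blkG B (-B'))
    (by rw [hval, blk_transpose, hB, Matrix.transpose_neg, hB'])
    {x | (p1 x, p2 x) ∈ T} {x | (p1 x, p2 x) ∈ N}
  · refine ⟨max C 0, fun x hx => ?_⟩
    rw [pi_norm_le_iff_of_nonneg (le_max_right _ _)]
    intro k
    have hx1 := hC _ hx
    obtain ⟨s, rfl⟩ := finSumFinEquiv.surjective k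
    cases s with
    | inl i =>
      calc ‖x (finSumFinEquiv (Sum.inl i))‖ = ‖p1 x i‖ := rfl
        _ ≤ ‖p1 x‖ := norm_le_pi_norm _ _
        _ ≤ ‖(p1 x, p2 x)‖ := norm_fst_le (p1 x, p2 x)
        _ ≤ C := hx1
        _ ≤ max C 0 := le_max_left _ _
    | inr i =>
      calc ‖x (finSumFinEquiv (Sum.inr i))‖ = ‖p2 x i‖ := rfl
        _ ≤ ‖p2 x‖ := norm_le_pi_norm _ _
        _ ≤ ‖(p1 x, p2 x)‖ := norm_snd_le (p1 x, p2 x)
        _ ≤ C := hx1
        _ ≤ max C 0 := le_max_left _ _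
  · intro g x hx
    change (p1 (blk _ _ *ᵥ x), p2 (blk _ _ *ᵥ x)) ∈ T
    rw [p1_mul, p2_mul]
    exact h2 g _ hx
  · intro g x hx
    change (p1 (blk _ _ *ᵥ x), p2 (blk _ _ *ᵥ x)) ∈ N
    rw [p1_mul, p2_mul]
    exact h3 g _ hx
  · intro y
    change (p1 y, p2 y) ∈ T ↔ _
    rw [h4]
    constructor
    · intro hy x hx
      rw [hval, form_eq]
      exact hy _ hx
    · intro hy z hz
      have := hy (jn z) (by
        change (p1 (jn z), p2 (jn z)) ∈ T
        rw [jn_eq]
        exact hz)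
      rw [hval, form_eq, jn_eq] at this
      exact this
  · intro y
    change (p1 y, p2 y) ∈ N ↔ _
    rw [h5]
    constructor
    · rintro ⟨hy0, hy⟩
      refine ⟨hy0, fun x hx => ?_⟩
      rw [hval, form_eq]
      exact hy _ hx
    · rintro ⟨hy0, hy⟩
      refine ⟨hy0, fun z hz => ?_⟩
      have := hy (jn z) (by
        change (p1 (jn z), p2 (jn z)) ∈ N
        rw [jn_eq]
        exact hz)
      rw [hval, form_eq, jn_eq] at this
      exact this

end BKT
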