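import Pool.Agent.Lib.MP_7c08ba_nt.T1.StLoc
import Pool.Agent.Lib.MP_7c08ba_nt.Met.LocAll

set_option autoImplicit false

/-!
Parity for general residual representations, local part, module CRV: the transfer from a subgroup of
index prime to `p` is injective on `H²(V, ℚ_p/ℤ_p(1))`.
-/

noncomputable section

namespace BKT

open BKPar (Loc1 Loc2)
open BKND (Sm)
open BKMet
open BKOdd (chm nonarch_subgroup)

namespace LCRV

open BKLoc2

section Cor

variable {p : ℕ} [Fact p.Prime] {G : Type} [Group G] (H : Subgroup G) [Finite (G ⧸ H)]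
  (χ : G →* ℤ_[p]ˣ)

/-- the transfer as an additive homomorphism -/
def corHom : (H → H → QZ p) →+ (G → G → QZ p) :=
  AddMonoidHom.mk' (fun w => corM2 H (actA χ) w) (by
    intro w w'
    have hF : Fintype (G ⧸ H) := Fintype.ofFinite _
    funext g g'
    simp only [TRMAux.corM2_eq, Pi.add_apply, map_add, Finset.sum_add_distrib])

theorem corHom_apply (w : H → H → QZ p) : corHom H χ w = corM2 H (actA χ) w := rfl

end Cor

/-- the classes with values in `ℤ/p` as classes with values in `ℚ_p/ℤ_p` -/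
def imHom (p : ℕ) [Fact p.Prime] (V : Type) : (V → V → ZMod p) →+ (V → V → QZ p) :=
  AddMonoidHom.mk' (fun z => im z) (by
    intro z z'
    funext g h
    change PAAux.j (z g h + z' g h) = PAAux.j (z g h) + PAAux.j (z' g h)
    exact PAAux.j_add _ _)

theorem imHom_apply {p : ℕ} [Fact p.Prime] {V : Type} (z : V → V → ZMod p) :
    imHom p V z = im z := rfl

/-- the trivial action on the integers -/
abbrev trivZ (G : Type) [Group G] : G →* AddMonoid.End ℤ := 1

/-- the pairing of `ℚ_p/ℤ_p` with the integers -/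
def bZ (p : ℕ) [Fact p.Prime] : QZ p →+ ℤ →+ QZ p :=
  AddMonoidHom.mk' (fun x => AddMonoidHom.mk' (fun n : ℤ => n • x) (fun n n' => add_zsmul x n n'))
    (by
      intro x y
      ext
      change (1 : ℤ) • (x + y) = (1 : ℤ) • x + (1 : ℤ) • y
      rw [zsmul_add])

theorem bZ_apply {p : ℕ} [Fact p.Prime] (x : QZ p) (n : ℤ) : bZ p x n = n • x := rfl

/-- transfer of the restriction -/
theorem cor_res {p : ℕ} [Fact p.Prime] {G : Type} [Group G] [TopologicalSpace G]
    [IsTopologicalGroup G] [NonarchimedeanGroup G] (H : Subgroup G) (ho : IsOpen (H : Set G))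
    (hfin : Finite (G ⧸ H)) (χ : G →* ℤ_[p]ˣ) {α : G → G → QZ p} (hα : α ∈ BKND.Z2 (actA χ)) :
    corM2 H (actA χ) (fun g h : H => α g h) - H.index • α ∈ BKND.B2 (actA χ) := by
  have hsm : BKND.Sm (trivZ G) := ⟨⊤, isOpen_univ, fun _ _ => rfl⟩
  obtain ⟨-, -, -, -, h5, -⟩ := stTRM G H ho hfin (QZ p) ℤ (QZ p) (actA χ) (trivZ G) (actA χ)
    (bZ p) hsm (fun n => ⟨⊤, isOpen_univ, fun _ _ => rfl⟩) (by
      intro g n n'
      change n' • actA χ g n = actA χ g (n' • n)
      rw [map_zsmul])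
  have h6 := h5 α hα 1 (fun _ _ => rfl)
  have hF : Fintype (G ⧸ H) := Fintype.ofFinite _
  have e1 : (∑ᶠ q : G ⧸ H, trivZ G q.out (1 : ℤ)) = (H.index : ℤ) := by
    rw [finsum_eq_sum_of_fintype]
    change ∑ q : G ⧸ H, (1 : ℤ) = _
    rw [Finset.sum_const, Finset.card_univ, Subgroup.index, Nat.card_eq_fintype_card,
      nsmul_eq_mul, mul_one]
  rw [e1] at h6
  have e2 : (fun g h : H => bZ p (α g h) 1) = fun g h : H => α g h := by
    funext g h
    rw [bZ_apply, one_zsmul]
  have e3 : (fun g h : G => bZ p (α g h) (H.index : ℤ)) = H.index • α := by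
    funext g h
    rw [bZ_apply, natCast_zsmul]
    rfl
  rw [e2, e3] at h6
  exact h6

end LCRV

open LCRV BKLoc2 in
/-- Module CRV. -/
theorem stCrV : StCrV := by
  intro p l hp _ hp2 V hV hVi z hz hcor
  obtain ⟨z1, hz1⟩ := N4Aux.exists_sys p (PadicAlgCl l)
  have hχ : Continuous (cyL p l) :=
    (stKPE p ℚ_[l] (PadicAlgCl l) (GQ l) (MonoidHom.id _) (N4Aux.open_id _).continuous z1 hz1).1
  have hfin : Finite (GQ l ⧸ V) := V.quotient_finite_of_isOpen hV
  have cV : CompactSpace V := isCompact_iff_compactSpace.1 (V.isClosed_of_isOpen hV).isCompact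
  have nV : NonarchimedeanGroup V := nonarch_subgroup V
  have hχV : Continuous ((cyL p l).comp V.subtype) := hχ.comp continuous_subtype_val
  obtain ⟨a1, -, a3, a4, a5⟩ := stPA p V ((cyL p l).comp V.subtype) hχV
  obtain ⟨-, b2, b3, b4, -⟩ := stPA p (GQ l) (cyL p l) hχ
  -- a class which is not trivial
  obtain ⟨z₀, hz₀, hz₀B⟩ := exists_ne_B2 aInvL stPA stKPE stSC stLam p l hp2
  have hα₀ : im z₀ ∈ BKND.Z2 (actA (cyL p l)) := b2 z₀ hz₀
  have hα₀B : im z₀ ∉ BKND.B2 (actA (cyL p l)) := fun h =>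
    hz₀B (b4 (N4Aux.div_Z1 aZ1A stKPE p l) z₀ hz₀ h)
  have hcorB : ∀ w ∈ BKND.B2 (actA ((cyL p l).comp V.subtype)),
      corHom V (cyL p l) w ∈ BKND.B2 (actA (cyL p l)) := by
    have hsm : BKND.Sm (trivZ (GQ l)) := ⟨⊤, isOpen_univ, fun _ _ => rfl⟩
    obtain ⟨-, -, h3, -, -, -⟩ := stTRM (GQ l) V hV hfin (QZ p) ℤ (QZ p) (actA (cyL p l))
      (trivZ (GQ l)) (actA (cyL p l)) (bZ p) hsm (fun n => ⟨⊤, isOpen_univ, fun _ _ => rfl⟩) (by
        intro g n n'
        change n' • actA (cyL p l) g n = actA (cyL p l) g (n' • n)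
        rw [map_zsmul])
    exact h3
  have hzc : corHom V (cyL p l) z ∈ BKND.B2 (actA (cyL p l)) := hcor
  have hzZ : z ∈ BKND.Z2 (actA ((cyL p l).comp V.subtype)) := hz
  change z ∈ BKND.B2 (actA ((cyL p l).comp V.subtype))
  by_contra hzB
  -- a multiple of order `p`
  obtain ⟨n, hn⟩ := a5 z hzZ
  have hex : ∃ n : ℕ, p ^ n • z ∈ BKND.B2 (actA ((cyL p l).comp V.subtype)) :=
    ⟨n, by rw [hn]; exact zero_mem _⟩
  obtain ⟨j, hj1, hj2⟩ : ∃ j : ℕ, p ^ j • z ∉ BKND.B2 (actA ((cyL p l).comp V.subtype)) ∧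
      p • (p ^ j • z) ∈ BKND.B2 (actA ((cyL p l).comp V.subtype)) := by
    classical
    have h1 := Nat.find_spec hex
    have h2 : Nat.find hex ≠ 0 := by
      intro h0
      rw [h0, pow_zero, one_smul] at h1
      exact hzB h1
    obtain ⟨j, hj⟩ := Nat.exists_eq_succ_of_ne_zero h2
    refine ⟨j, Nat.find_min hex (by omega), ?_⟩
    rw [hj, Nat.succ_eq_add_one, pow_succ'] at h1
    rwa [smul_smul]
  have hjZ : p ^ j • z ∈ BKND.Z2 (actA ((cyL p l).comp V.subtype)) := nsmul_mem hzZ _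
  obtain ⟨w, hw, hw'⟩ := a1 _ hjZ hj2
  have hwB : w ∉ CC.B2 (chm ((cyL p l).comp V.subtype)) := by
    intro h
    have h1 := add_mem hw' (a3 w h)
    rw [sub_add_cancel] at h1
    exact hj1 h1
  have hcw : corHom V (cyL p l) (im w) ∈ BKND.B2 (actA (cyL p l)) := by
    have h1 := hcorB _ hw'
    rw [map_sub, map_nsmul] at h1
    have h2 := sub_mem (nsmul_mem hzc (p ^ j)) h1
    rwa [sub_sub_cancel] at h2
  -- the restriction of the class
  have hres : (fun g h : V => z₀ g h) ∈ CC.Z2 (chm ((cyL p l).comp V.subtype)) := by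
    refine ⟨?_, fun a b c => hz₀.2 a b c⟩
    exact hz₀.1.comp (continuous_subtype_val.prodMap continuous_subtype_val)
  obtain ⟨a, ha⟩ := aLnX p l hp2 V V.subtype hV.isOpenEmbedding_subtypeVal w hw _ hres hwB
  have h1 := hcorB _ (a3 _ ha)
  have e1 : im ((fun g h : V => z₀ g h) - a • w) =
      (fun g h : V => im z₀ g h) - a.val • im w := by
    funext g h
    change PAAux.j (z₀ g h - a * w g h) = PAAux.j (z₀ g h) - a.val • PAAux.j (w g h)
    rw [PAAux.j_sub, N5Aux.j_mul]
  rw [e1, map_sub, map_nsmul] at h1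
  have h2 : corHom V (cyL p l) (fun g h : V => im z₀ g h) ∈ BKND.B2 (actA (cyL p l)) := by
    have := add_mem h1 (nsmul_mem hcw a.val)
    rwa [sub_add_cancel] at this
  have h3 := cor_res V hV hfin (cyL p l) hα₀
  have h4 : V.index • im z₀ ∈ BKND.B2 (actA (cyL p l)) := by
    have := sub_mem h2 h3
    rw [corHom_apply, sub_sub_cancel] at this
    exact this
  have h5 : p • im z₀ = 0 := by
    funext g h
    exact PAAux.p_smul_j _
  have hco : Nat.Coprime V.index p := ((Nat.Prime.coprime_iff_not_dvd hp.out).2 hVi).symm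
  obtain ⟨e, -, he⟩ := Nat.exists_mul_mod_eq_one_of_coprime hco hp.out.one_lt
  apply hα₀B
  have h6 : (V.index * e) • im z₀ = im z₀ := by
    have h7 := Nat.div_add_mod (V.index * e) p
    rw [he] at h7
    rw [← h7, add_smul, one_smul, mul_comm, mul_smul, h5, smul_zero, zero_add]
  rw [← h6, mul_comm, mul_smul]
  exact nsmul_mem h4 e

end BKT
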