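import Pool.Agent.Lib.MP_7c08ba_nt.T1.StLoc
import Pool.Agent.Lib.MP_7c08ba_nt.Met.XPERP
import Pool.Agent.Lib.MP_7c08ba_nt.Met.XPERF
import Pool.Agent.Lib.MP_7c08ba_nt.Met.XHOMS
import Pool.Agent.Lib.MP_7c08ba_nt.Met.XEXT

set_option autoImplicit false

/-!
Parity for general residual representations, module DUP: the dual module and the canonical pair.
-/

noncomputable section

namespace BKT

open BKPar (Loc1 Loc2)
open BKND (Sm)
open BKMet

namespace LDUP

variable {p : ℕ} [hp : Fact p.Prime]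

theorem homs : StHoms := stHoms stExt

section Char

variable {G : Type} [Group G]

/-- the elements on which `χ` is `1` modulo `p ^ n` -/
def ker1 (χ : G →* ℤ_[p]ˣ) (n : ℕ) : Subgroup G :=
  ((Units.map (PadicInt.toZModPow (p := p) n).toMonoidHom).comp χ).ker

theorem mem_ker1 {χ : G →* ℤ_[p]ˣ} {n : ℕ} {g : G} :
    g ∈ ker1 χ n ↔ (p : ℤ_[p]) ^ n ∣ ((χ g : ℤ_[p]ˣ) : ℤ_[p]) - 1 := by
  unfold ker1
  rw [MonoidHom.mem_ker, ← Ideal.mem_span_singleton, ← PadicInt.ker_toZModPow, RingHom.mem_ker,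
    map_sub, map_one, sub_eq_zero, Units.ext_iff]
  rfl

theorem isOpen_ker1 [TopologicalSpace G] [IsTopologicalGroup G] {χ : G →* ℤ_[p]ˣ}
    (hχ : Continuous χ) (n : ℕ) : IsOpen (ker1 χ n : Set G) := by
  apply Subgroup.isOpen_of_mem_nhds (g := 1)
  have h1 : Continuous fun g => ‖((χ g : ℤ_[p]ˣ) : ℤ_[p]) - 1‖ :=
    ((Units.continuous_val.comp hχ).sub continuous_const).norm
  have h0 : (0 : ℝ) < (p : ℝ) ^ (-(n : ℤ)) := by
    have : (0 : ℝ) < p := by exact_mod_cast hp.out.pos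
    positivity
  have h2 : {g : G | ‖((χ g : ℤ_[p]ˣ) : ℤ_[p]) - 1‖ < (p : ℝ) ^ (-(n : ℤ))} ∈ nhds (1 : G) := by
    apply (isOpen_lt h1 continuous_const).mem_nhds
    change ‖((χ 1 : ℤ_[p]ˣ) : ℤ_[p]) - 1‖ < (p : ℝ) ^ (-(n : ℤ))
    rw [map_one, Units.val_one, sub_self, norm_zero]
    exact h0
  filter_upwards [h2] with g hg
  apply mem_ker1.2
  rw [← Ideal.mem_span_singleton, ← PadicInt.norm_le_pow_iff_mem_span_pow]
  exact le_of_lt hg

theorem actA_eq {χ : G →* ℤ_[p]ˣ} {n : ℕ} {g : G} (hg : g ∈ ker1 χ n) {y : QZ p}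
    (hy : p ^ n • y = 0) : actA χ g y = y := by
  obtain ⟨c, hc⟩ := mem_ker1.1 hg
  rw [actA_apply]
  have h1 : ((χ g : ℤ_[p]ˣ) : ℤ_[p]) = 1 + c * ((p ^ n : ℕ) : ℤ_[p]) := by
    push_cast
    linear_combination hc
  rw [h1, add_smul, one_smul, mul_smul, Nat.cast_smul_eq_nsmul, hy, smul_zero, add_zero]

theorem act_inv {M : Type} [AddCommGroup M] (ρ : G →* AddMonoid.End M)
    (g : G) (m : M) : ρ g⁻¹ (ρ g m) = m := by
  change (ρ g⁻¹ * ρ g) m = m
  rw [← map_mul, inv_mul_cancel, map_one]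
  rfl

end Char

/-! ### Finite `p`-groups -/

theorem card_pow {M : Type} [AddCommGroup M] [Finite M] (h : ∃ n : ℕ, ∀ m : M, p ^ n • m = 0) :
    ∃ k : ℕ, Nat.card M = p ^ k := by
  obtain ⟨n, hn⟩ := h
  have h1 : IsPGroup p (Multiplicative M) := fun g => ⟨n, hn (Multiplicative.toAdd g)⟩
  have h3 : Finite (Multiplicative M) := ‹Finite M›
  obtain ⟨k, hk⟩ := (IsPGroup.iff_card (G := Multiplicative M)).mp h1
  exact ⟨k, hk⟩

/-- the evaluation pairing -/
def evp (M : Type) [AddCommGroup M] : M →+ (M →+ QZ p) →+ QZ p :=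
  (AddMonoidHom.id (M →+ QZ p)).flip

theorem evp_apply {M : Type} [AddCommGroup M] (m : M) (f : M →+ QZ p) : evp M m f = f m := rfl

section Eval

variable {M : Type} [AddCommGroup M] [Finite M] (h : ∃ n : ℕ, ∀ m : M, p ^ n • m = 0)
include h

theorem evp_left (m : M) (hm : ∀ f : M →+ QZ p, evp M m f = 0) : m = 0 := by
  by_contra hne
  obtain ⟨f, hf⟩ := ((homs p M).2.2 (card_pow h)).2 m hne
  exact hf (hm f)

omit [Finite M] h in
theorem evp_right (f : M →+ QZ p) (hf : ∀ m : M, evp M m f = 0) : f = 0 := by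
  ext m
  exact hf m

theorem perf (P : Submodule ℤ M) (m : M)
    (hm : ∀ f : M →+ QZ p, (∀ n ∈ P, evp M n f = 0) → evp M m f = 0) : m ∈ P := by
  obtain ⟨-, -, h1⟩ := stPerf homs p M (M →+ QZ p) (evp M) (evp_left h) evp_right
  obtain ⟨-, h2, -⟩ := h1 P.toAddSubgroup
    { carrier := {f | ∀ n ∈ P, evp M n f = 0}
      add_mem' := fun {f f'} hf hf' n hn => by
        rw [map_add, hf n hn, hf' n hn, add_zero]
      zero_mem' := fun n _ => map_zero _
      neg_mem' := fun {f} hf n hn => by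
        rw [map_neg, hf n hn, neg_zero] } fun w => Iff.rfl
  exact (h2 m).2 fun f hf => hm f hf

theorem perf' (P : Submodule ℤ (M →+ QZ p)) (f : M →+ QZ p)
    (hf : ∀ m : M, (∀ n ∈ P, evp M m n = 0) → evp M m f = 0) : f ∈ P := by
  have : Finite (M →+ QZ p) := (homs p M).1
  obtain ⟨-, -, h1⟩ := stPerf homs p (M →+ QZ p) M (evp M).flip evp_right (evp_left h)
  obtain ⟨-, h2, -⟩ := h1 P.toAddSubgroup
    { carrier := {m | ∀ n ∈ P, evp M m n = 0}
      add_mem' := fun {m m'} hm hm' n hn => by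
        rw [map_add, AddMonoidHom.add_apply, hm n hn, hm' n hn, add_zero]
      zero_mem' := fun n _ => by
        rw [map_zero, AddMonoidHom.zero_apply]
      neg_mem' := fun {m} hm n hn => by
        rw [map_neg, AddMonoidHom.neg_apply, hm n hn, neg_zero] } fun w => Iff.rfl
  exact (h2 f).2 fun m hm => hf m hm

end Eval

/-! ### The canonical pair -/

section Can

variable {G : Type} [Group G] [TopologicalSpace G] [IsTopologicalGroup G] {χ : G →* ℤ_[p]ˣ}
  (hχ : Continuous χ) {M : Type} [AddCommGroup M] [Finite M] (ρ : G →* AddMonoid.End M)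
  (hρ : Sm ρ) (h : ∃ n : ℕ, ∀ m : M, p ^ n • m = 0)

include hχ hρ h in
omit [Finite M] in
theorem smD : Sm (dualA χ ρ) := by
  obtain ⟨W, hW, h1⟩ := hρ
  obtain ⟨n, hn⟩ := h
  refine ⟨W ⊓ ker1 χ n, hW.inter (isOpen_ker1 hχ n), ?_⟩
  intro w hw
  ext f m
  change actA χ w (f (ρ w⁻¹ m)) = f m
  rw [h1 w⁻¹ (inv_mem hw.1)]
  change actA χ w (f m) = f m
  apply actA_eq hw.2
  rw [← map_nsmul, hn, map_zero]

/-- the canonical pair -/
def can : Pair ℤ (actA χ) M (M →+ QZ p) where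
  ρ := ρ
  ρ' := dualA χ ρ
  b := evp M
  sm := hρ
  sm' := smD hχ ρ hρ h
  lin := fun g a m => map_zsmul (ρ g) a m
  lin' := fun g a f => map_zsmul (dualA χ ρ g) a f
  eqv := fun g m f => by
    change actA χ g (f (ρ g⁻¹ (ρ g m))) = actA χ g (f m)
    rw [act_inv]
  bal := fun a m f => map_zsmul f a m
  perf := perf h
  perf' := perf' h

end Can

/-! ### Every pair is canonical -/

section Any

variable {G : Type} [Group G] [TopologicalSpace G] {χ : G →* ℤ_[p]ˣ} {M M' : Type}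
  [AddCommGroup M] [Finite M] [AddCommGroup M'] (X : Pair ℤ (actA χ) M M')

include X in
theorem killed : ∃ n : ℕ, ∀ m : M, p ^ n • m = 0 := by
  obtain ⟨k, c, hc, hk⟩ := Nat.exists_eq_pow_mul_and_not_dvd (Nat.card_pos (α := M)).ne' p
    hp.out.ne_one
  refine ⟨k, fun m => ?_⟩
  apply (Submodule.mem_bot ℤ).1
  apply X.perf
  intro m' _
  apply XHOMS.tors hc
  rw [← AddMonoidHom.nsmul_apply, ← map_nsmul, ← mul_smul, mul_comm, ← hk, card_nsmul_eq_zero',
    map_zero, AddMonoidHom.zero_apply]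

theorem bij : Function.Bijective (X.b.flip : M' → M →+ QZ p) := by
  have hi : Function.Injective (X.b.flip : M' → M →+ QZ p) := by
    rw [injective_iff_map_eq_zero]
    intro m' hm'
    exact XPERP.inj X fun m => DFunLike.congr_fun hm' m
  obtain ⟨h1, h2⟩ := XPERP.finite X homs
  have h3 : Nat.card M' = Nat.card M := le_antisymm h2 (XPERP.finite X.flip homs).2
  have h4 : Finite (M →+ QZ p) := (homs p M).1
  apply hi.bijective_of_nat_card_le
  rw [h3]
  exact (homs p M).2.1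

end Any

end LDUP

open LDUP in
/-- Module DUP. -/
theorem stDup : StDup := by
  intro p _ G _ _ _ _ χ hχ M _ _
  refine ⟨fun ρ hρ h => ⟨can hχ ρ hρ h, rfl, rfl, fun _ _ => rfl⟩, fun M' _ X => ?_⟩
  refine ⟨killed X, AddEquiv.ofBijective X.b.flip (bij X), fun m m' => rfl, fun g m' => ?_⟩
  ext m
  change X.b m (X.ρ' g m') = actA χ g (X.b (X.ρ g⁻¹ m) m')
  rw [← X.eqv]
  have h1 : X.ρ g (X.ρ g⁻¹ m) = m := by
    change (X.ρ g * X.ρ g⁻¹) m = m
    rw [← map_mul, mul_inv_cancel, map_one]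
    rfl
  rw [h1]

end BKT
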