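import Pool.Agent.Lib.MP_7c08ba_nt.T1.StLoc
import Pool.Agent.Lib.MP_7c08ba_nt.T1.LDUP
import Pool.Agent.Lib.MP_7c08ba_nt.Met.XCT
import Pool.Agent.Lib.MP_7c08ba_nt.Met.XDUAL

set_option autoImplicit false

/-!
Parity for general residual representations: module LAD, the local Euler characteristic is
additive.
-/

noncomputable section

namespace BKT

open BKPar (Loc1 Loc2)
open BKND (Sm)
open BKMet

namespace LLAD

/-! ### Orders -/

theorem card_exact {A B C : Type*} [AddCommGroup A] [AddCommGroup B] [AddCommGroup C]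
    (a : A →+ B) (b : B →+ C) (ha : Function.Injective a) (hb : Function.Surjective b)
    (hab : ∀ x, b x = 0 ↔ ∃ y, a y = x) : Nat.card B = Nat.card A * Nat.card C := by
  have h1 : Nat.card b.ker = Nat.card A := by
    refine (Nat.card_congr (Equiv.ofBijective (fun x : A => (⟨a x, (hab _).2 ⟨x, rfl⟩⟩ : b.ker))
      ⟨fun x y h => ha (congrArg Subtype.val h), fun y => ?_⟩)).symm
    obtain ⟨x, hx⟩ := (hab y).1 y.2
    exact ⟨x, Subtype.ext hx⟩
  have h2 : Nat.card (B ⧸ b.ker) = Nat.card C :=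
    Nat.card_congr (QuotientAddGroup.quotientKerEquivOfSurjective b hb).toEquiv
  rw [AddSubgroup.card_eq_card_quotient_mul_card_addSubgroup b.ker, h1, h2, mul_comm]

theorem card_rel {V : Type*} [AddCommGroup V] (X₁ X : AddSubgroup V) (h : X₁ ≤ X) :
    Nat.card X = Nat.card X₁ * X₁.relIndex X := by
  have h1 := AddSubgroup.relIndex_mul_relIndex ⊥ X₁ X bot_le h
  rw [AddSubgroup.relIndex_bot_left, AddSubgroup.relIndex_bot_left] at h1
  exact h1.symm

/-! ### The exact sequence -/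

section Seq

variable {p : ℕ} [Fact p.Prime] {D : Type} [Group D] {χ : D →* ℤ_[p]ˣ}
  {M' M M'' : Type} [AddCommGroup M'] [AddCommGroup M] [AddCommGroup M'']
  {ρ' : D →* AddMonoid.End M'} {ρ : D →* AddMonoid.End M} {ρ'' : D →* AddMonoid.End M''}
  {i : M' →+ M} {q : M →+ M''}

theorem act_inv (ρ : D →* AddMonoid.End M) (g : D) (m : M) : ρ g⁻¹ (ρ g m) = m := by
  change (ρ g⁻¹ * ρ g) m = m
  rw [← map_mul, inv_mul_cancel, map_one]
  rfl

/-- homomorphisms to `ℚ_p/ℤ_p` extend -/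
theorem ext (hi : Function.Injective i) (f' : M' →+ QZ p) :
    ∃ F : M →+ QZ p, ∀ x, F (i x) = f' x := by
  obtain ⟨F, hF⟩ := stExt p M i.range
    (f'.comp (AddMonoidHom.ofInjective hi).symm.toAddMonoidHom)
  refine ⟨F, fun x => ?_⟩
  have h1 := hF (AddMonoidHom.ofInjective hi x)
  have h2 : ((AddMonoidHom.ofInjective hi x : i.range) : M) = i x := rfl
  rw [h2] at h1
  rw [h1]
  change f' ((AddMonoidHom.ofInjective hi).symm (AddMonoidHom.ofInjective hi x)) = f' x
  rw [AddEquiv.symm_apply_apply]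

/-- homomorphisms which vanish on the kernel descend -/
theorem desc (hq : Function.Surjective q) (φ : M →+ QZ p) (hφ : ∀ m, q m = 0 → φ m = 0) :
    ∃ c : M'' →+ QZ p, ∀ m, c (q m) = φ m := by
  refine ⟨AddMonoidHom.liftOfRightInverse q (Function.surjInv hq)
    (Function.rightInverse_surjInv hq) ⟨φ, fun m hm => hφ m hm⟩, fun m => ?_⟩
  exact AddMonoidHom.liftOfRightInverse_comp_apply q _ _ ⟨φ, fun m hm => hφ m hm⟩ m

/-- the cocycle attached to an extension -/
theorem exists_c (hi' : ∀ g x, i (ρ' g x) = ρ g (i x)) (hq : Function.Surjective q)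
    (hex : ∀ x, q x = 0 ↔ ∃ y, i y = x) (F : M →+ QZ p) (f' : M' →+ QZ p)
    (hF : ∀ x, F (i x) = f' x) (hf : f' ∈ BKND.H0 (dualA χ ρ')) :
    ∃ c : D → (M'' →+ QZ p), ∀ g m, c g (q m) = dualA χ ρ g F m - F m := by
  have h1 : ∀ g : D, ∃ c : M'' →+ QZ p, ∀ m, c (q m) = (dualA χ ρ g F - F) m := by
    intro g
    apply desc hq
    intro m hm
    obtain ⟨y, rfl⟩ := (hex m).1 hm
    change actA χ g (F (ρ g⁻¹ (i y))) - F (i y) = 0
    rw [← hi', hF, hF, sub_eq_zero]
    exact DFunLike.congr_fun (hf g) y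
  choose c hc using h1
  exact ⟨c, hc⟩

end Seq

section Key

variable {p : ℕ} [Fact p.Prime] {D : Type} [Group D] [TopologicalSpace D] {χ : D →* ℤ_[p]ˣ}
  {inv : (D → D → QZ p) →+ QZ p} (hinv : ∀ z ∈ BKND.B2 (actA χ), inv z = 0)
  {M M'' : Type} [AddCommGroup M] [AddCommGroup M'']
  {ρ : D →* AddMonoid.End M} {ρ'' : D →* AddMonoid.End M''} {q : M →+ M''}

include hinv in
theorem key (hq' : ∀ g x, q (ρ g x) = ρ'' g (q x)) (F : M →+ QZ p) (c : D → (M'' →+ QZ p))
    (hc : ∀ g m, c g (q m) = dualA χ ρ g F m - F m) (x : D → M'') (y : D → M) (hy : Loc1 y)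
    (hxy : ∀ g, q (y g) = x g) :
    inv (fun g h => F (d1 ρ y g h)) = - inv (fun g h => c g (ρ'' g (x h))) := by
  have h1 : (fun g h => F (d1 ρ y g h)) =
      d1 (actA χ) (fun g => F (y g)) - (fun g h => c g (ρ'' g (x h))) := by
    funext g h
    change F (ρ g (y h) - y (g * h) + y g) =
      actA χ g (F (y h)) - F (y (g * h)) + F (y g) - c g (ρ'' g (x h))
    rw [← hxy, ← hq', hc, dualA_apply, act_inv, map_add, map_sub]
    abel
  have h2 : d1 (actA χ) (fun g => F (y g)) ∈ BKND.B2 (actA χ) :=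
    ⟨fun g => F (y g), BKND.Loc1.map hy _, fun g h => rfl⟩
  rw [h1, map_sub, hinv _ h2, zero_sub]

end Key

/-! ### The comparison -/

section Main

variable {p : ℕ} [Fact p.Prime] {D : Type} [Group D] [TopologicalSpace D] [IsTopologicalGroup D]
  [CompactSpace D] {χ : D →* ℤ_[p]ˣ} (hχ : Continuous χ) {inv : (D → D → QZ p) →+ QZ p}
  (hL : LocD p χ inv)
  {M' M M'' : Type} [AddCommGroup M'] [AddCommGroup M] [AddCommGroup M''] [Finite M]
  {ρ' : D →* AddMonoid.End M'} {ρ : D →* AddMonoid.End M} {ρ'' : D →* AddMonoid.End M''}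
  {i : M' →+ M} {q : M →+ M''} (hs : Sm ρ) (hn : ∃ n : ℕ, ∀ m : M, p ^ n • m = 0)
  (hi' : ∀ g x, i (ρ' g x) = ρ g (i x)) (hq' : ∀ g x, q (ρ g x) = ρ'' g (q x))
  (hi : Function.Injective i) (hq : Function.Surjective q)
  (hex : ∀ x, q x = 0 ↔ ∃ y, i y = x)

include hs hi hi' in
omit [IsTopologicalGroup D] [CompactSpace D] [Finite M] in
theorem sm1 : Sm ρ' := by
  obtain ⟨W, hW, h⟩ := hs
  refine ⟨W, hW, fun w hw => ?_⟩
  ext x
  apply hi
  rw [hi', h w hw]
  rfl

include hs hq hq' in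
omit [IsTopologicalGroup D] [CompactSpace D] [Finite M] in
theorem sm2 : Sm ρ'' := by
  obtain ⟨W, hW, h⟩ := hs
  refine ⟨W, hW, fun w hw => ?_⟩
  ext x
  obtain ⟨m, rfl⟩ := hq x
  rw [← hq', h w hw]
  rfl

include hn hi in
omit [Finite M] [Fact p.Prime] in
theorem tor1 : ∃ n : ℕ, ∀ m : M', p ^ n • m = 0 := by
  obtain ⟨n, h⟩ := hn
  refine ⟨n, fun m => hi ?_⟩
  rw [map_nsmul, h, map_zero]

include hn hq in
omit [Finite M] [Fact p.Prime] in
theorem tor2 : ∃ n : ℕ, ∀ m : M'', p ^ n • m = 0 := by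
  obtain ⟨n, h⟩ := hn
  refine ⟨n, fun x => ?_⟩
  obtain ⟨m, rfl⟩ := hq x
  rw [← map_nsmul, h, map_zero]

include hχ in
omit [CompactSpace D] in
theorem psm : PSm (actA χ) := by
  intro a
  obtain ⟨k, hk⟩ := XPERF.qz_pow a
  exact ⟨LDUP.ker1 χ k, LDUP.isOpen_ker1 hχ k, fun w hw => LDUP.actA_eq hw hk⟩

/-- the image of the cocycles -/
def im1 (ρ : D →* AddMonoid.End M) (q : M →+ M'') : AddSubgroup (D → M'') :=
  (BKND.Z1 ρ).map (q.compLeft D)

/-- the image of the invariants of the dual -/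
def im0 (χ : D →* ℤ_[p]ˣ) (ρ : D →* AddMonoid.End M) (i : M' →+ M) : AddSubgroup (M' →+ QZ p) :=
  (BKND.H0 (dualA χ ρ)).map (AddMonoidHom.mk' (fun f : M →+ QZ p => f.comp i)
    fun _ _ => AddMonoidHom.add_comp _ _ _)

omit [IsTopologicalGroup D] [CompactSpace D] [Finite M] in
theorem mem_im1 {x : D → M''} : x ∈ im1 ρ q ↔ ∃ y ∈ BKND.Z1 ρ, ∀ g, q (y g) = x g := by
  constructor
  · rintro ⟨y, hy, rfl⟩
    exact ⟨y, hy, fun g => rfl⟩
  · rintro ⟨y, hy, h⟩
    exact ⟨y, hy, funext h⟩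

omit [TopologicalSpace D] [IsTopologicalGroup D] [CompactSpace D] [Finite M] in
theorem mem_im0 {f' : M' →+ QZ p} :
    f' ∈ im0 χ ρ i ↔ ∃ f ∈ BKND.H0 (dualA χ ρ), ∀ x, f (i x) = f' x := by
  constructor
  · rintro ⟨f, hf, rfl⟩
    exact ⟨f, hf, fun g => rfl⟩
  · rintro ⟨f, hf, h⟩
    exact ⟨f, hf, AddMonoidHom.ext h⟩

include hq' in
omit [IsTopologicalGroup D] [CompactSpace D] [Finite M] in
theorem im1_le : im1 ρ q ≤ BKND.Z1 ρ'' := by
  intro x hx
  obtain ⟨y, hy, h⟩ := mem_im1.1 hx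
  have h1 : x = fun g => q (y g) := funext fun g => (h g).symm
  rw [h1]
  refine ⟨BKND.Loc1.map hy.1 _, fun g k => ?_⟩
  change q (y (g * k)) = q (y g) + ρ'' g (q (y k))
  rw [hy.2, map_add, hq']

include hi' in
omit [TopologicalSpace D] [IsTopologicalGroup D] [CompactSpace D] [Finite M] in
theorem im0_le : im0 χ ρ i ≤ BKND.H0 (dualA χ ρ') := by
  intro f' hf'
  obtain ⟨f, hf, h⟩ := mem_im0.1 hf'
  intro g
  ext x
  rw [dualA_apply, ← h, ← h, hi']
  exact DFunLike.congr_fun (hf g) (i x)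

include hi hi' hex in
omit [IsTopologicalGroup D] [CompactSpace D] [Finite M] in
theorem card1 : Nat.card (BKND.Z1 ρ) = Nat.card (BKND.Z1 ρ') * Nat.card (im1 ρ q) := by
  let a : BKND.Z1 ρ' →+ BKND.Z1 ρ := AddMonoidHom.mk' (fun x => ⟨fun g => i (x.1 g), by
    refine ⟨BKND.Loc1.map x.2.1 _, fun g k => ?_⟩
    change i (x.1 (g * k)) = i (x.1 g) + ρ g (i (x.1 k))
    rw [x.2.2, map_add, hi']⟩) (fun x y => by
      apply Subtype.ext
      funext g
      exact map_add i _ _)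
  let b : BKND.Z1 ρ →+ im1 ρ q := AddMonoidHom.mk' (fun y => ⟨fun g => q (y.1 g),
    mem_im1.2 ⟨y, y.2, fun g => rfl⟩⟩) (fun x y => by
      apply Subtype.ext
      funext g
      exact map_add q _ _)
  refine card_exact a b ?_ ?_ ?_
  · intro x y h
    apply Subtype.ext
    funext g
    exact hi (congrFun (congrArg Subtype.val h) g)
  · rintro ⟨x, hx⟩
    obtain ⟨y, hy, h⟩ := mem_im1.1 hx
    exact ⟨⟨y, hy⟩, Subtype.ext (funext h)⟩
  · intro y
    constructor
    · intro h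
      have h1 : ∀ g, ∃ u, i u = y.1 g := fun g =>
        (hex _).1 (congrFun (congrArg Subtype.val h) g)
      choose u hu using h1
      refine ⟨⟨u, ?_, fun g k => hi ?_⟩, Subtype.ext (funext hu)⟩
      · obtain ⟨W, hW, h2⟩ := y.2.1
        refine ⟨W, hW, fun g w hw => hi ?_⟩
        rw [hu, hu]
        exact h2 g w hw
      · rw [map_add, hi', hu, hu, hu]
        exact y.2.2 g k
    · rintro ⟨x, rfl⟩
      apply Subtype.ext
      funext g
      exact (hex _).2 ⟨x.1 g, rfl⟩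

include hq hq' hex in
omit [TopologicalSpace D] [IsTopologicalGroup D] [CompactSpace D] [Finite M] in
theorem card0 : Nat.card (BKND.H0 (dualA χ ρ)) =
    Nat.card (BKND.H0 (dualA χ ρ'')) * Nat.card (im0 χ ρ i) := by
  let a : BKND.H0 (dualA χ ρ'') →+ BKND.H0 (dualA χ ρ) := AddMonoidHom.mk' (fun x =>
    ⟨x.1.comp q, by
      intro g
      ext m
      change actA χ g (x.1 (q (ρ g⁻¹ m))) = x.1 (q m)
      rw [hq']
      exact DFunLike.congr_fun (x.2 g) (q m)⟩) (fun x y => by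
      apply Subtype.ext
      ext m
      rfl)
  let b : BKND.H0 (dualA χ ρ) →+ im0 χ ρ i := AddMonoidHom.mk' (fun y => ⟨y.1.comp i,
    mem_im0.2 ⟨y, y.2, fun g => rfl⟩⟩) (fun x y => by
      apply Subtype.ext
      ext m
      rfl)
  refine card_exact a b ?_ ?_ ?_
  · intro x y h
    apply Subtype.ext
    ext m
    obtain ⟨m, rfl⟩ := hq m
    exact DFunLike.congr_fun (congrArg Subtype.val h) m
  · rintro ⟨x, hx⟩
    obtain ⟨y, hy, h⟩ := mem_im0.1 hx
    exact ⟨⟨y, hy⟩, Subtype.ext (AddMonoidHom.ext h)⟩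
  · intro y
    constructor
    · intro h
      obtain ⟨c, hc⟩ := desc hq y.1 fun m hm => by
        obtain ⟨u, rfl⟩ := (hex m).1 hm
        exact DFunLike.congr_fun (congrArg Subtype.val h) u
      refine ⟨⟨c, fun g => ?_⟩, Subtype.ext (AddMonoidHom.ext hc)⟩
      ext m
      obtain ⟨m, rfl⟩ := hq m
      rw [dualA_apply, ← hq', hc, hc]
      exact DFunLike.congr_fun (y.2 g) m
    · rintro ⟨x, rfl⟩
      apply Subtype.ext
      ext u
      change x.1 (q (i u)) = 0
      rw [(hex _).2 ⟨u, rfl⟩, map_zero]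

include hχ hL hs hn hi' hq' hi hq hex in
theorem rel (hf : Finite (BKND.Z1 ρ'')) :
    (im0 χ ρ i).relIndex (BKND.H0 (dualA χ ρ')) = (im1 ρ q).relIndex (BKND.Z1 ρ'') := by
  have hinv : ∀ z ∈ BKND.B2 (actA χ), inv z = 0 := by
    rintro z ⟨β, hβ, h⟩
    have h0 : z = d1 (actA χ) β := by
      funext g k
      exact h g k
    refine (hL.inv_eq z ?_).2 ⟨β, hβ, h⟩
    rw [h0]
    refine ⟨XCT.loc2_d1' (psm hχ) hβ, fun g h k => ?_⟩
    exact XCT.d2_d1 (actA χ) β g h k
  have hf1 : Finite M' := Finite.of_injective i hi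
  have hf2 : Finite M'' := Finite.of_surjective q hq
  have hf3 : Finite (M'' →+ QZ p) := (LDUP.homs p M'').1
  have h1 : ∀ f' : M' →+ QZ p, ∃ (F : M →+ QZ p) (c : D → (M'' →+ QZ p)),
      (∀ x, F (i x) = f' x) ∧ (f' ∈ BKND.H0 (dualA χ ρ') →
        ∀ g m, c g (q m) = dualA χ ρ g F m - F m) := by
    intro f'
    obtain ⟨F, hF⟩ := ext hi f'
    by_cases hf' : f' ∈ BKND.H0 (dualA χ ρ')
    · obtain ⟨c, hc⟩ := exists_c hi' hq hex F f' hF hf'
      exact ⟨F, c, hF, fun _ => hc⟩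
    · exact ⟨F, 0, hF, fun h => absurd h hf'⟩
  choose F c hF hc using h1
  let B : (D → M'') → (M' →+ QZ p) → QZ p := fun x f' =>
    - inv (fun g h => c f' g (ρ'' g (x h)))
  have h2 : ∀ x ∈ BKND.Z1 ρ'', ∃ (y : D → M) (u : D → D → M'), Loc1 y ∧ (∀ g, q (y g) = x g) ∧
      (∀ g h, i (u g h) = d1 ρ y g h) ∧ u ∈ BKND.Z2 ρ' ∧
      ∀ f' ∈ BKND.H0 (dualA χ ρ'), B x f' = inv (fun g h => f' (u g h)) := by
    intro x hx
    let y : D → M := fun g => Function.surjInv hq (x g)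
    have hy : Loc1 y := BKND.Loc1.map hx.1 _
    have hxy : ∀ g, q (y g) = x g := fun g => Function.surjInv_eq hq (x g)
    have h3 : ∀ g h, ∃ u, i u = d1 ρ y g h := by
      intro g h
      refine (hex _).1 ?_
      simp only [d1, map_add, map_sub, hq', hxy]
      rw [hx.2]
      abel
    choose u hu using h3
    refine ⟨y, u, hy, hxy, hu, ⟨?_, fun g h k => hi ?_⟩, fun f' hf' => ?_⟩
    · obtain ⟨W, hW, h4⟩ := XCT.loc2_d1 hs hy
      refine ⟨W, hW, fun g g' w hw w' hw' => hi ?_⟩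
      rw [hu, hu]
      exact h4 g g' w hw w' hw'
    · rw [map_zero, map_sub, map_add, map_sub, hi', hu, hu, hu, hu]
      exact XCT.d2_d1 ρ y g h k
    · change - inv (fun g h => c f' g (ρ'' g (x h))) = _
      rw [← key hinv hq' (F f') (c f') (hc f' hf') x y hy hxy]
      congr 1
      funext g h
      rw [← hu, hF]
  refine (stDual stExt LDUP.homs p (D → M'') (M' →+ QZ p) B (BKND.Z1 ρ'') (im1 ρ q)
    (BKND.H0 (dualA χ ρ')) (im0 χ ρ i) ?_ ?_ (im1_le hq') (im0_le hi') ?_ ?_ ?_).1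
  · intro x _ x' _ f' _
    change - inv (fun g h => c f' g (ρ'' g (x h + x' h))) =
      - inv (fun g h => c f' g (ρ'' g (x h))) + - inv (fun g h => c f' g (ρ'' g (x' h)))
    rw [← neg_add, ← map_add]
    congr 2
    funext g h
    change c f' g (ρ'' g (x h + x' h)) = c f' g (ρ'' g (x h)) + c f' g (ρ'' g (x' h))
    rw [map_add, map_add]
  · intro x hx f hf f' hf'
    obtain ⟨y, u, -, -, -, -, hu⟩ := h2 x hx
    rw [hu f hf, hu f' hf', hu _ (add_mem hf hf'), ← map_add]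
    rfl
  · intro x hx
    constructor
    · intro h f' hf'
      obtain ⟨y, hy, hxy⟩ := mem_im1.1 h
      change - inv (fun g h => c f' g (ρ'' g (x h))) = 0
      rw [← key hinv hq' (F f') (c f') (hc f' hf') x y hy.1 hxy]
      have h4 : (fun g h => F f' (d1 ρ y g h)) = (0 : D → D → QZ p) := by
        funext g k
        have h5 : d1 ρ y g k = 0 := by
          simp only [d1]
          rw [hy.2]
          abel
        rw [h5, map_zero]
        rfl
      rw [h4, map_zero]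
    · intro h
      obtain ⟨y, u, hy, hxy, hu, hu2, hB⟩ := h2 x hx
      have h4 : u ∈ BKND.B2 ρ' := by
        refine hL.two M' (M' →+ QZ p) (LDUP.can hχ ρ' (sm1 hs hi' hi) (tor1 hn hi)) u hu2 ?_
        intro f' hf'
        have h7 : ∀ g, dualA χ ρ' g f' = f' := hf'
        rw [← h f' hf', hB f' hf']
        congr 1
        funext g k
        change (dualA χ ρ' (g * k) f') (u g k) = f' (u g k)
        rw [h7 (g * k)]
      obtain ⟨β, hβ, h5⟩ := h4
      refine mem_im1.2 ⟨fun g => y g - i (β g), ⟨BKND.Loc1.map2 hy hβ (fun a b => a - i b), ?_⟩,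
        fun g => ?_⟩
      · intro g k
        have h6 := hu g k
        rw [h5, map_add, map_sub, hi'] at h6
        simp only [d1] at h6
        change y (g * k) - i (β (g * k)) = y g - i (β g) + ρ g (y k - i (β k))
        rw [map_sub, ← sub_eq_zero]
        rw [← sub_eq_zero] at h6
        rw [← h6]
        abel
      · rw [map_sub, (hex _).2 ⟨β g, rfl⟩, sub_zero, hxy]
  · intro f' hf'
    constructor
    · intro h x hx
      obtain ⟨f, hf, h4⟩ := mem_im0.1 h
      obtain ⟨y, u, hy, hxy, hu, -, hB⟩ := h2 x hx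
      rw [hB f' hf']
      have h5 := key hinv hq' f 0 (fun g m => by
        rw [hf g, sub_self]
        rfl) x y hy hxy
      have h6 : (fun g h => f (d1 ρ y g h)) = fun g h => f' (u g h) := by
        funext g k
        rw [← hu, h4]
      rw [← h6, h5]
      have h7 : (fun g h => ((0 : D → (M'' →+ QZ p)) g) (ρ'' g (x h))) =
          (0 : D → D → QZ p) := by
        funext g k
        rfl
      rw [h7, map_zero, neg_zero]
    · intro h
      have h4 : c f' ∈ BKND.B1 (dualA χ ρ'') := by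
        refine hL.one (M'' →+ QZ p) M''
          (LDUP.can hχ ρ'' (sm2 hs hq' hq) (tor2 hn hq)).flip (c f') ⟨?_, ?_⟩ ?_
        · obtain ⟨W, hW, h5⟩ := LDUP.smD hχ ρ hs hn
          refine ⟨W, hW, fun g w hw => ?_⟩
          ext m
          obtain ⟨m, rfl⟩ := hq m
          rw [hc f' hf', hc f' hf', map_mul, h5 w hw, mul_one]
        · intro g k
          ext m
          obtain ⟨m, rfl⟩ := hq m
          change c f' (g * k) (q m) = c f' g (q m) + actA χ g (c f' k (ρ'' g⁻¹ (q m)))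
          rw [hc f' hf', hc f' hf', ← hq', hc f' hf', map_sub, map_mul]
          change actA χ g (dualA χ ρ k (F f') (ρ g⁻¹ m)) - F f' m =
            actA χ g (F f' (ρ g⁻¹ m)) - F f' m +
              (actA χ g (dualA χ ρ k (F f') (ρ g⁻¹ m)) - actA χ g (F f' (ρ g⁻¹ m)))
          abel
        · intro x hx
          have h5 := h x hx
          rw [neg_eq_zero] at h5
          exact h5
      obtain ⟨k, hk⟩ := h4
      refine mem_im0.2 ⟨F f' - k.comp q, fun g => ?_, fun x => ?_⟩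
      · ext m
        have h5 := DFunLike.congr_fun (hk g) (q m)
        rw [hc f' hf'] at h5
        change actA χ g (F f' (ρ g⁻¹ m)) - F f' m =
          actA χ g (k (ρ'' g⁻¹ (q m))) - k (q m) at h5
        change actA χ g (F f' (ρ g⁻¹ m) - k (q (ρ g⁻¹ m))) = F f' m - k (q m)
        rw [hq', map_sub, ← sub_eq_zero]
        rw [← sub_eq_zero] at h5
        rw [← h5]
        abel
      · change F f' (i x) - k (q (i x)) = f' x
        rw [hF, (hex _).2 ⟨x, rfl⟩, map_zero, sub_zero]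
  · have h4 : Nat.card (BKND.Z1 ρ'') ≠ 0 := Nat.card_pos.ne'
    rw [card_rel _ _ (im1_le hq')] at h4
    exact right_ne_zero_of_mul h4

end Main

end LLAD

open LLAD in
/-- Module LAD. -/
theorem stLad (_h : StDup) : StLad := by
  intro p _ D _ _ _ _ χ hχ inv hL hfin δ M' M M'' _ _ _ _ ρ' ρ ρ'' i q hs hn hi' hq' hi hq hex
  have hf1 : Finite M' := Finite.of_injective i hi
  have hf2 : Finite M'' := Finite.of_surjective q hq
  have hz1 := hfin M' ρ' (sm1 hs hi' hi) (tor1 hn hi)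
  have hz := hfin M ρ hs hn
  have hz2 := hfin M'' ρ'' (sm2 hs hq' hq) (tor2 hn hq)
  have hd1 : Finite (M' →+ QZ p) := (LDUP.homs p M').1
  have hd : Finite (M →+ QZ p) := (LDUP.homs p M).1
  have hd2 : Finite (M'' →+ QZ p) := (LDUP.homs p M'').1
  have h1 := card1 (ρ := ρ) (q := q) hi' hi hex
  have h0 := card0 (χ := χ) (ρ := ρ) (i := i) hq' hq hex
  have hm := card_exact i q hi hq hex
  have h2 := card_rel _ _ (im1_le (ρ := ρ) hq')
  have h3 := card_rel _ _ (im0_le (χ := χ) (ρ := ρ) hi')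
  rw [rel hχ hL hs hn hi' hq' hi hq hex hz2] at h3
  have p1 : (0 : ℝ) < Nat.card (BKND.Z1 ρ') := by exact_mod_cast Nat.card_pos
  have p2 : (0 : ℝ) < Nat.card (BKND.Z1 ρ'') := by exact_mod_cast Nat.card_pos
  have p3 : (0 : ℝ) < Nat.card (BKND.H0 (dualA χ ρ')) := by exact_mod_cast Nat.card_pos
  have p4 : (0 : ℝ) < Nat.card (BKND.H0 (dualA χ ρ'')) := by exact_mod_cast Nat.card_pos
  have p5 : (0 : ℝ) < Nat.card M' := by exact_mod_cast Nat.card_pos
  have p6 : (0 : ℝ) < Nat.card M'' := by exact_mod_cast Nat.card_pos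
  have p7 : (0 : ℝ) < Nat.card (BKND.Z1 ρ) := by exact_mod_cast Nat.card_pos
  have p8 : (0 : ℝ) < Nat.card (BKND.H0 (dualA χ ρ)) := by exact_mod_cast Nat.card_pos
  have e1 : (Nat.card (BKND.Z1 ρ) : ℝ) * Nat.card (BKND.H0 (dualA χ ρ')) *
      Nat.card (BKND.H0 (dualA χ ρ'')) =
      Nat.card (BKND.Z1 ρ') * Nat.card (BKND.Z1 ρ'') * Nat.card (BKND.H0 (dualA χ ρ)) := by
    have : Nat.card (BKND.Z1 ρ) * Nat.card (BKND.H0 (dualA χ ρ')) *
      Nat.card (BKND.H0 (dualA χ ρ'')) =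
      Nat.card (BKND.Z1 ρ') * Nat.card (BKND.Z1 ρ'') * Nat.card (BKND.H0 (dualA χ ρ)) := by
      rw [h1, h0, h2, h3]
      ring
    exact_mod_cast this
  have e2 : (Nat.card M : ℝ) = Nat.card M' * Nat.card M'' := by exact_mod_cast hm
  have e3 := congrArg Real.log e1
  rw [Real.log_mul (mul_pos p7 p3).ne' p4.ne', Real.log_mul p7.ne' p3.ne',
    Real.log_mul (mul_pos p1 p2).ne' p8.ne', Real.log_mul p1.ne' p2.ne'] at e3
  unfold FL
  rw [e2, Real.log_mul p5.ne' p6.ne']
  linarith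

end BKT
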