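import Pool.Agent.Lib.MP_7c08ba_nt.T1.StLoc

set_option autoImplicit false

/-!
Parity for general residual representations: module LFN, the group of cocycles with values in a
finite module is finite.
-/

noncomputable section

namespace BKT

open BKPar (Loc1 Loc2)
open BKND (Sm)
open BKMet

namespace LLFN

theorem continuous_toZMod {p : ℕ} [Fact p.Prime] :
    Continuous (PadicInt.toZMod : ℤ_[p] →+* ZMod p) := by
  refine IsLocallyConstant.continuous ((IsLocallyConstant.iff_eventually_eq _).2 fun x => ?_)
  filter_upwards [Metric.ball_mem_nhds x one_pos] with y hy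
  rw [← sub_eq_zero, ← map_sub, ← RingHom.mem_ker, PadicInt.ker_toZMod,
    PadicInt.maximalIdeal_eq_span_p]
  rw [Metric.mem_ball, dist_eq_norm] at hy
  have h1 := (PadicInt.norm_lt_one_iff_dvd (y - x)).1 hy
  exact Ideal.mem_span_singleton.2 h1

/-- the kernel of the character modulo `p` -/
theorem exists_ker {p : ℕ} [Fact p.Prime] {D : Type} [Group D] [TopologicalSpace D]
    (χ : D →* ℤ_[p]ˣ) (hχ : Continuous χ) : ∃ W : Subgroup D, IsOpen (W : Set D) ∧
      ∀ w ∈ W, PadicInt.toZMod ((χ w : ℤ_[p]ˣ) : ℤ_[p]) = 1 := by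
  let f : D →* ZMod p := ((PadicInt.toZMod : ℤ_[p] →+* ZMod p) : ℤ_[p] →* ZMod p).comp
    ((Units.coeHom ℤ_[p]).comp χ)
  have hf : Continuous f := continuous_toZMod.comp (Units.continuous_val.comp hχ)
  refine ⟨f.ker, ?_, fun w hw => hw⟩
  have : (f.ker : Set D) = f ⁻¹' {1} := by
    ext x
    rfl
  rw [this]
  exact (isOpen_discrete _).preimage hf

/-- a group whose elements killed by `p` are finitely many has finitely many elements killed by
`p ^ n` -/
theorem finite_pow {B : Type*} [AddCommGroup B] {p : ℕ} (h : {b : B | p • b = 0}.Finite) (n : ℕ) :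
    {b : B | p ^ n • b = 0}.Finite := by
  induction n with
  | zero =>
    refine (Set.finite_singleton (0 : B)).subset fun b hb => ?_
    have hb' : p ^ 0 • b = 0 := hb
    rw [pow_zero, one_smul] at hb'
    exact hb'
  | succ n ih =>
    have e : {b : B | p ^ (n + 1) • b = 0} = (fun b : B => p • b) ⁻¹' {b | p ^ n • b = 0} := by
      ext b
      change p ^ (n + 1) • b = 0 ↔ p ^ n • p • b = 0
      rw [pow_succ, mul_smul]
    rw [e]
    refine ih.preimage' fun b _ => ?_
    by_cases hb : ∃ b₀ : B, p • b₀ = b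
    · obtain ⟨b₀, rfl⟩ := hb
      refine (h.image (fun x => x + b₀)).subset fun x hx => ?_
      have hx' : p • x = p • b₀ := hx
      refine ⟨x - b₀, ?_, sub_add_cancel x b₀⟩
      change p • (x - b₀) = 0
      rw [smul_sub, hx', sub_self]
    · have : (fun x : B => p • x) ⁻¹' {b} = ∅ := by
        ext x
        constructor
        · intro hx
          exact absurd ⟨x, hx⟩ hb
        · intro hx
          exact absurd hx (Set.notMem_empty x)
      rw [this]
      exact Set.finite_empty

theorem separates_field {K T : Type*} [Field K] [AddCommGroup T] [Module K T] {x : T}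
    (hx : ∀ f : T →+ K, f x = 0) : x = 0 := by
  have h : ∀ φ : Module.Dual K T, φ x = 0 := fun φ => hx φ.toAddMonoidHom
  exact (Module.forall_dual_apply_eq_zero_iff K x).1 h

/-- homomorphisms to `ℤ/p` separate the points of a finite group killed by `p` -/
theorem separates {p : ℕ} [Fact p.Prime] {T : Type*} [AddCommGroup T] (hT : ∀ x : T, p • x = 0)
    {x : T} (hx : ∀ f : T →+ ZMod p, f x = 0) : x = 0 := by
  let inst : Module (ZMod p) T := AddCommGroup.zmodModule hT
  exact separates_field hx

end LLFN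

open LLFN in
theorem stLfn : StLfn := by
  intro p _ D _ _ _ _ χ hχ inv δ hL M _ _ ρ hρ hn
  obtain ⟨n, hn⟩ := hn
  obtain ⟨W1, hW1, h1⟩ := hρ
  obtain ⟨W2, hW2, h2⟩ := exists_ker χ hχ
  obtain ⟨W, hWdef⟩ : ∃ W : Subgroup D, W = W1 ⊓ W2 := ⟨_, rfl⟩
  have hWo : IsOpen (W : Set D) := by
    rw [hWdef, Subgroup.coe_inf]
    exact hW1.inter hW2
  have hWρ : ∀ w ∈ W, ρ w = 1 := fun w hw => h1 w (by
    rw [hWdef] at hw
    exact hw.1)
  have hWχ : ∀ w ∈ W, PadicInt.toZMod ((χ w : ℤ_[p]ˣ) : ℤ_[p]) = 1 := fun w hw => h2 w (by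
    rw [hWdef] at hw
    exact hw.2)
  have hfi : Finite (D ⧸ W) := Subgroup.quotient_finite_of_isOpen W hWo
  -- homomorphisms to `ℤ/p`
  have hZ : Finite (BKND.Z1 (kch (1 : W →* (ZMod p)ˣ))) := by
    have hsm : Sm (kch (1 : W →* (ZMod p)ˣ)) := ⟨⊤, isOpen_univ, fun w _ => by
      ext x
      rw [kch_apply]
      simp⟩
    have hrel : Rel (χ.comp W.subtype) (1 : W →* (ZMod p)ˣ) 1 := by
      intro g
      have := hWχ g.1 g.2
      simp [this]
    have hc := hL.card W hWo (ZMod p) 1 1 hsm hsm hrel
    apply Nat.finite_of_card_ne_zero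
    rw [hc]
    refine mul_ne_zero ?_ (pow_ne_zero _ ?_)
    · exact Nat.card_pos.ne'
    · exact Nat.card_pos.ne'
  -- the cocycles killed by `p`
  have hT : ∀ x : (nsmulAddMonoidHom (α := M) p).ker, p • x = 0 := by
    intro x
    apply Subtype.ext
    exact x.2
  have hfin : {f : BKND.Z1 ρ | p • f = 0}.Finite := by
    let Φ : {f : BKND.Z1 ρ | p • f = 0} →
        (((nsmulAddMonoidHom (α := M) p).ker →+ ZMod p) → BKND.Z1 (kch (1 : W →* (ZMod p)ˣ))) ×
          (D ⧸ W → M) := fun f =>
      (fun lam => ⟨fun w => lam ⟨(f : BKND.Z1 ρ).1 w, by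
          have := congrFun (congrArg Subtype.val f.2) (w : D)
          exact this⟩, by
        refine ⟨?_, ?_⟩
        · obtain ⟨V, hV, h⟩ := (f : BKND.Z1 ρ).2.1
          refine ⟨V.subgroupOf W, hV.preimage continuous_subtype_val, fun g w hw => ?_⟩
          have e := h g w hw
          exact congrArg lam (Subtype.ext e)
        · intro g h
          have e := (f : BKND.Z1 ρ).2.2 g h
          rw [hWρ g.1 g.2] at e
          rw [kch_apply, MonoidHom.one_apply, Units.val_one, one_mul, ← map_add]
          exact congrArg lam (Subtype.ext e)⟩,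
        fun q => (f : BKND.Z1 ρ).1 q.out)
    have hinj : Function.Injective Φ := by
      intro f f' hff
      apply Subtype.ext
      apply Subtype.ext
      have e1 := congrArg Prod.fst hff
      have e2 := congrArg Prod.snd hff
      have key : ∀ w ∈ W, (f : BKND.Z1 ρ).1 w = (f' : BKND.Z1 ρ).1 w := by
        intro w hw
        have hk : ∀ f : {f : BKND.Z1 ρ | p • f = 0},
            (f : BKND.Z1 ρ).1 w ∈ (nsmulAddMonoidHom (α := M) p).ker := fun f => by
          have := congrFun (congrArg Subtype.val f.2) (w : D)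
          exact this
        have h3 : (⟨(f : BKND.Z1 ρ).1 w, hk f⟩ - ⟨(f' : BKND.Z1 ρ).1 w, hk f'⟩ :
            (nsmulAddMonoidHom (α := M) p).ker) = 0 := by
          apply separates hT
          intro lam
          rw [map_sub, sub_eq_zero]
          exact congrFun (congrArg Subtype.val (congrFun e1 lam)) ⟨w, hw⟩
        rw [sub_eq_zero] at h3
        exact congrArg Subtype.val h3
      funext g
      have hg : g = (QuotientGroup.mk g : D ⧸ W).out * ((QuotientGroup.mk g : D ⧸ W).out⁻¹ * g) := by
        group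
      have hw : (QuotientGroup.mk g : D ⧸ W).out⁻¹ * g ∈ W := by
        rw [← QuotientGroup.eq]
        exact Quotient.out_eq' _
      rw [hg, (f : BKND.Z1 ρ).2.2, (f' : BKND.Z1 ρ).2.2, key _ hw]
      have := congrFun e2 (QuotientGroup.mk g : D ⧸ W)
      congr 1
    have : Finite ((nsmulAddMonoidHom (α := M) p).ker →+ ZMod p) :=
      Finite.of_injective (fun f => (f : (nsmulAddMonoidHom (α := M) p).ker → ZMod p))
        DFunLike.coe_injective
    have h4 : Finite {f : BKND.Z1 ρ | p • f = 0} := Finite.of_injective Φ hinj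
    exact h4
  have h5 := finite_pow hfin n
  have h6 : {f : BKND.Z1 ρ | p ^ n • f = 0} = Set.univ := by
    ext f
    constructor
    · intro _
      trivial
    · intro _
      change p ^ n • f = 0
      apply Subtype.ext
      funext g
      exact hn _
  rw [h6] at h5
  exact Set.finite_univ_iff.1 h5

end BKT
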