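import Pool.Agent.Lib.MP_7c08ba_nt.T1.StLoc
import Pool.Agent.Lib.MP_7c08ba_nt.Met.XAll

set_option autoImplicit false

/-!
Parity for general residual representations, module LNZ: one dimensional subquotients for a group
which acts through a `p`-group.
-/

noncomputable section

namespace BKT

open BKPar (Loc1 Loc2)
open BKND (Sm)
open BKMet

namespace LLNZ

variable {p : ℕ} [Fact p.Prime]

/-! ### A fixed vector -/

section Fix

variable {H : Type} [Group H] {A : Type} [AddCommGroup A]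

/-- the group of automorphisms given by an action -/
def Gam (τ : H →* AddMonoid.End A) : Subgroup (AddMonoid.End A)ˣ := τ.toHomUnits.range

theorem isPGroup (τ : H →* AddMonoid.End A) (h : ∀ u, ∃ n : ℕ, τ u ^ p ^ n = 1) :
    IsPGroup p (Gam τ) := by
  rintro ⟨g, u, rfl⟩
  obtain ⟨n, hn⟩ := h u
  refine ⟨n, ?_⟩
  apply Subtype.ext
  apply Units.ext
  rw [Subgroup.coe_pow, Units.val_pow_eq_pow_val]
  exact hn

/-- the elements of `W` killed by `p` -/
def Wp (p : ℕ) (τ : H →* AddMonoid.End A) (W : AddSubgroup A) (hW : ∀ u, ∀ x ∈ W, τ u x ∈ W) :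
    SubMulAction (Gam τ) A where
  carrier := {v | v ∈ W ∧ p • v = 0}
  smul_mem' := by
    rintro ⟨g, u, rfl⟩ v ⟨hv, hv2⟩
    have e : ((⟨τ.toHomUnits u, u, rfl⟩ : Gam τ) • v : A) = τ u v := rfl
    refine ⟨?_, ?_⟩
    · rw [e]
      exact hW u v hv
    · rw [e, ← map_nsmul, hv2, map_zero]

theorem exists_fix [Finite A] (τ : H →* AddMonoid.End A) (h : ∀ u, ∃ n : ℕ, τ u ^ p ^ n = 1)
    (W : AddSubgroup A) (hW : ∀ u, ∀ x ∈ W, τ u x ∈ W) {w : A} (hw : w ∈ W) (hw0 : w ≠ 0)
    (hwp : p • w = 0) : ∃ v ∈ W, v ≠ 0 ∧ p • v = 0 ∧ ∀ u, τ u v = v := by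
  have hd : p ∣ Nat.card (Wp p τ W hW) := by
    let B : AddSubgroup A := W ⊓ (nsmulAddMonoidHom (α := A) p).ker
    have hB : ∀ x, x ∈ B ↔ x ∈ W ∧ p • x = 0 := fun x => Iff.rfl
    have e : Nat.card (Wp p τ W hW) = Nat.card B := rfl
    rw [e]
    have ho : addOrderOf (⟨w, (hB w).2 ⟨hw, hwp⟩⟩ : B) = p := by
      apply addOrderOf_eq_prime
      · apply Subtype.ext
        exact hwp
      · intro h0
        exact hw0 (congrArg Subtype.val h0)
    rw [← ho]
    exact addOrderOf_dvd_natCard _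
  have h0 : (⟨0, W.zero_mem, smul_zero p⟩ : Wp p τ W hW) ∈
      MulAction.fixedPoints (Gam τ) (Wp p τ W hW) := by
    rintro ⟨g, u, rfl⟩
    apply Subtype.ext
    change τ u 0 = 0
    exact map_zero _
  obtain ⟨⟨b, hb1, hb2⟩, hb, hne⟩ :=
    (isPGroup τ h).exists_fixed_point_of_prime_dvd_card_of_fixed_point (Wp p τ W hW) hd h0
  refine ⟨b, hb1, ?_, hb2, fun u => ?_⟩
  · intro h1
    apply hne
    apply Subtype.ext
    exact h1.symm
  · have e := hb ⟨τ.toHomUnits u, u, rfl⟩
    exact congrArg Subtype.val e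

end Fix

/-! ### The fixed line -/

section Line

variable {G : Type} [Group G] [TopologicalSpace G] {χ : G →* ℤ_[p]ˣ}
  {M M' : Type} [AddCommGroup M] [AddCommGroup M'] (X : Pair ℤ (actA χ) M M')

include X in
theorem torsion [Finite M] (x : M) : ∃ n : ℕ, p ^ n • x = 0 := by
  have hpr : p.Prime := Fact.out
  have h0 : addOrderOf x ≠ 0 := (addOrderOf_pos x).ne'
  obtain ⟨n, q, hq, e⟩ := Nat.exists_eq_pow_mul_and_not_dvd h0 p hpr.ne_one
  refine ⟨n, ?_⟩
  have h1 : p ^ n • x ∈ (⊥ : Submodule ℤ M) := by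
    apply X.perf
    intro m' _
    apply XHOMS.tors hq
    have e2 : q • (p ^ n • x) = 0 := by
      rw [smul_smul, mul_comm q, ← e]
      exact addOrderOf_nsmul_eq_zero x
    rw [← AddMonoidHom.nsmul_apply, ← map_nsmul, e2, map_zero]
    rfl
  exact (Submodule.mem_bot ℤ).1 h1

/-- the action on the quotient -/
def actq (H : Subgroup G) (P : Submodule ℤ M) (hP : ∀ h ∈ H, ∀ x ∈ P, X.ρ h x ∈ P) :
    H →* AddMonoid.End (M ⧸ P) where
  toFun h := (P.mapQ P (X.ρ h).toIntLinearMap (fun x hx => hP h h.2 x hx)).toAddMonoidHom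
  map_one' := by
    refine AddMonoidHom.ext fun v => ?_
    obtain ⟨m, rfl⟩ := P.mkQ_surjective v
    change P.mkQ (X.ρ 1 m) = P.mkQ m
    rw [map_one]
    rfl
  map_mul' h h' := by
    refine AddMonoidHom.ext fun v => ?_
    obtain ⟨m, rfl⟩ := P.mkQ_surjective v
    change P.mkQ (X.ρ (h * h') m) = P.mkQ (X.ρ h (X.ρ h' m))
    rw [map_mul]
    rfl

theorem actq_mk (H : Subgroup G) (P : Submodule ℤ M) (hP : ∀ h ∈ H, ∀ x ∈ P, X.ρ h x ∈ P)
    (h : H) (m : M) : actq X H P hP h (P.mkQ m) = P.mkQ (X.ρ h m) := rfl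

theorem actq_pow (H : Subgroup G) (P : Submodule ℤ M) (hP : ∀ h ∈ H, ∀ x ∈ P, X.ρ h x ∈ P)
    (h : H) (n : ℕ) (hn : X.ρ h ^ n = 1) : actq X H P hP h ^ n = 1 := by
  rw [← map_pow]
  refine AddMonoidHom.ext fun v => ?_
  obtain ⟨m, rfl⟩ := P.mkQ_surjective v
  change P.mkQ (X.ρ ((h ^ n : H) : G) m) = P.mkQ m
  rw [Subgroup.coe_pow, map_pow, hn]
  rfl

theorem exists_vec [Finite M] (H : Subgroup G) (hG : PGr p X.ρ H) {P Q : Submodule ℤ M}
    (hP : ∀ h ∈ H, ∀ x ∈ P, X.ρ h x ∈ P) (hQ : ∀ h ∈ H, ∀ x ∈ Q, X.ρ h x ∈ Q) (hlt : P < Q) :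
    ∃ x ∈ Q, x ∉ P ∧ p • x ∈ P ∧ ∀ h ∈ H, X.ρ h x - x ∈ P := by
  obtain ⟨hle, x0, hx0, hx0'⟩ := SetLike.lt_iff_le_and_exists.1 hlt
  obtain ⟨y, hy, hy1, hy2⟩ : ∃ y ∈ Q, y ∉ P ∧ p • y ∈ P := by
    have hex : ∃ n : ℕ, p ^ n • x0 ∈ P := by
      obtain ⟨n, hn⟩ := torsion X x0
      exact ⟨n, by rw [hn]; exact P.zero_mem⟩
    classical
    have hs := Nat.find_spec hex
    rcases Nat.eq_zero_or_pos (Nat.find hex) with h0 | h0
    · rw [h0, pow_zero, one_smul] at hs
      exact absurd hs hx0'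
    · refine ⟨p ^ (Nat.find hex - 1) • x0, Q.smul_of_tower_mem _ hx0,
        Nat.find_min hex (Nat.sub_lt h0 one_pos), ?_⟩
      rw [smul_smul, ← pow_succ', Nat.sub_add_cancel h0]
      exact hs
  haveI : Finite (M ⧸ P) := Finite.of_surjective _ P.mkQ_surjective
  have hW : ∀ u : H, ∀ v ∈ (Q.map P.mkQ).toAddSubgroup,
      actq X H P hP u v ∈ (Q.map P.mkQ).toAddSubgroup := by
    rintro u v ⟨m, hm, rfl⟩
    rw [actq_mk]
    exact ⟨_, hQ u u.2 m hm, rfl⟩
  obtain ⟨v, ⟨x, hx, rfl⟩, hv1, hv2, hv3⟩ := exists_fix (p := p) (actq X H P hP)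
    (fun u => by
      obtain ⟨n, hn⟩ := hG u u.2
      exact ⟨n, actq_pow X H P hP u _ hn⟩)
    (Q.map P.mkQ).toAddSubgroup hW (w := P.mkQ y) ⟨y, hy, rfl⟩
    (fun h => hy1 ((Submodule.Quotient.mk_eq_zero P).1 h))
    (by
      rw [← map_nsmul]
      exact (Submodule.Quotient.mk_eq_zero P).2 hy2)
  refine ⟨x, hx, fun h => hv1 ((Submodule.Quotient.mk_eq_zero P).2 h), ?_, fun h hh => ?_⟩
  · rw [← map_nsmul] at hv2
    exact (Submodule.Quotient.mk_eq_zero P).1 hv2
  · have e := hv3 ⟨h, hh⟩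
    rw [actq_mk] at e
    exact (Submodule.Quotient.eq P).1 e

/-! ### Coordinates -/

theorem zsmul_mem_iff {P : Submodule ℤ M} {x : M} (hx : x ∉ P) (hp : p • x ∈ P) (a : ℤ) :
    a • x ∈ P ↔ (a : ZMod p) = 0 := by
  have hpr : p.Prime := Fact.out
  rw [ZMod.intCast_zmod_eq_zero_iff_dvd]
  constructor
  · intro h
    by_contra hne
    have hc : IsCoprime (p : ℤ) a :=
      (Nat.prime_iff_prime_int.1 hpr).irreducible.coprime_iff_not_dvd.2 hne
    obtain ⟨u, v, huv⟩ := hc
    apply hx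
    have e : x = u • (p • x) + v • (a • x) := by
      rw [← natCast_zsmul x p, smul_smul, smul_smul, ← add_smul, huv, one_smul]
    rw [e]
    exact P.add_mem (P.smul_mem _ hp) (P.smul_mem _ h)
  · rintro ⟨c, rfl⟩
    rw [mul_comm, mul_smul, natCast_zsmul]
    exact P.smul_mem _ hp

open Classical in
/-- the coordinate on `P + ℤ x` -/
def phi (p : ℕ) (P : Submodule ℤ M) (x m : M) : ZMod p :=
  if h : ∃ a : ℤ, m - a • x ∈ P then (h.choose : ZMod p) else 0

theorem phi_eq {P : Submodule ℤ M} {x : M} (hx : x ∉ P) (hp : p • x ∈ P) {m : M} {a : ℤ}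
    (h : m - a • x ∈ P) : phi p P x m = a := by
  have hex : ∃ a : ℤ, m - a • x ∈ P := ⟨a, h⟩
  rw [phi, dif_pos hex]
  have h2 := P.sub_mem h hex.choose_spec
  have e : m - a • x - (m - hex.choose • x) = (hex.choose - a) • x := by
    rw [sub_smul]; abel
  rw [e, zsmul_mem_iff hx hp, Int.cast_sub, sub_eq_zero] at h2
  exact h2

theorem exists_coord {P : Submodule ℤ M} {x m : M} (h : m ∈ P ⊔ Submodule.span ℤ {x}) :
    ∃ a : ℤ, m - a • x ∈ P := by
  obtain ⟨y, hy, z, hz, rfl⟩ := Submodule.mem_sup.1 h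
  obtain ⟨a, rfl⟩ := Submodule.mem_span_singleton.1 hz
  exact ⟨a, by rwa [add_sub_cancel_right]⟩

theorem mem_of_coord {P : Submodule ℤ M} {x m : M} {a : ℤ} (h : m - a • x ∈ P) :
    m ∈ P ⊔ Submodule.span ℤ {x} := by
  have e : m = (m - a • x) + a • x := by abel
  rw [e]
  exact Submodule.add_mem_sup h (Submodule.mem_span_singleton.2 ⟨a, rfl⟩)

open Classical in
/-- the coordinate on the annihilator -/
def phi' (lam : ZMod p →+ QZ p) (x : M) (y : M') : ZMod p :=
  if h : ∃ c : ZMod p, ∀ a : ℤ, X.b (a • x) y = lam ((a : ZMod p) * c) then h.choose else 0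

variable {X}

theorem phi'_eq {lam : ZMod p →+ QZ p} (hl : lam ≠ 0) {x : M} {y : M'} {c : ZMod p}
    (h : ∀ a : ℤ, X.b (a • x) y = lam ((a : ZMod p) * c)) : phi' X lam x y = c := by
  have hex : ∃ c : ZMod p, ∀ a : ℤ, X.b (a • x) y = lam ((a : ZMod p) * c) := ⟨c, h⟩
  rw [phi', dif_pos hex]
  apply XLINES.eq_of_lam hl
  intro t
  obtain ⟨a, rfl⟩ := ZMod.intCast_surjective t
  rw [← h a, ← hex.choose_spec a]

theorem phi'_spec {lam : ZMod p →+ QZ p} (hl : lam ≠ 0) {P : Submodule ℤ M} {x : M}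
    (hp : p • x ∈ P) {y : M'} (hy : y ∈ X.perp P) (a : ℤ) :
    X.b (a • x) y = lam ((a : ZMod p) * phi' X lam x y) := by
  let f : ZMod p →+ QZ p := ZMod.lift p ⟨(zmultiplesHom (QZ p)) (X.b x y), by
    rw [zmultiplesHom_apply, natCast_zsmul, ← AddMonoidHom.nsmul_apply, ← map_nsmul]
    exact hy _ hp⟩
  have hf : ∀ a : ℤ, X.b (a • x) y = f a := by
    intro a
    rw [ZMod.lift_coe]
    change _ = a • X.b x y
    rw [map_zsmul]
    rfl
  obtain ⟨c, hc⟩ := XLINES.exists_lam (stHoms stExt) hl f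
  have hc' : ∀ a : ℤ, X.b (a • x) y = lam ((a : ZMod p) * c) := by
    intro a
    rw [hf, hc]
  rw [phi'_eq hl hc']
  exact hc' a

end Line

end LLNZ

open LLNZ in
theorem stLnz : StLnz := by
  intro p _ G _ _ χ M M' _ _ _ X H hχ hG P Q hP hQ hlt
  obtain ⟨x, hxQ, hxP, hpx, hfix⟩ := exists_vec X H hG hP hQ hlt
  obtain ⟨lam, hlam⟩ := XLINES.exists_ne (p := p) (k := ZMod p) (stHoms stExt)
  have hzs : ∀ a : ℤ, X.b (a • x) = a • X.b x := fun a => map_zsmul _ _ _
  refine ⟨P ⊔ Submodule.span ℤ {x}, ?_, ?_, lam, phi p P x, phi' X lam x, hlam, ?_⟩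
  · refine lt_of_le_of_ne le_sup_left fun h => hxP ?_
    rw [h]
    exact Submodule.mem_sup_right (Submodule.mem_span_singleton_self x)
  · exact sup_le hlt.le ((Submodule.span_singleton_le_iff_mem x Q).2 hxQ)
  · have hstab : ∀ h ∈ H, ∀ (m : M) (a : ℤ), m - a • x ∈ P → X.ρ h m - a • x ∈ P := by
      intro h hh m a hm
      have e : X.ρ h m - a • x = X.ρ h (m - a • x) + a • (X.ρ h x - x) := by
        rw [map_sub, map_zsmul, smul_sub]
        abel
      rw [e]
      exact P.add_mem (hP h hh _ hm) (P.smul_mem _ (hfix h hh))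
    have hperp : ∀ y ∈ X.perp P, ∀ (m : M) (a : ℤ), m - a • x ∈ P → X.b m y = X.b (a • x) y := by
      intro y hy m a hm
      have e := hy _ hm
      rw [map_sub] at e
      exact sub_eq_zero.1 e
    refine
      { le := le_sup_left
        stab := hP
        stab' := ?_
        add := ?_
        ker := ?_
        surj := ?_
        act := ?_
        add' := ?_
        ker' := ?_
        surj' := ?_
        act' := ?_
        pair := ?_ }
    · intro h hh m hm
      obtain ⟨a, ha⟩ := exists_coord hm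
      exact mem_of_coord (hstab h hh m a ha)
    · intro m hm m' hm'
      obtain ⟨a, ha⟩ := exists_coord hm
      obtain ⟨a', ha'⟩ := exists_coord hm'
      have e : m + m' - (a + a') • x ∈ P := by
        have e2 : m + m' - (a + a') • x = (m - a • x) + (m' - a' • x) := by
          rw [add_smul]; abel
        rw [e2]
        exact P.add_mem ha ha'
      rw [phi_eq hxP hpx e, phi_eq hxP hpx ha, phi_eq hxP hpx ha', Int.cast_add]
    · intro m hm
      obtain ⟨a, ha⟩ := exists_coord hm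
      rw [phi_eq hxP hpx ha, ← zsmul_mem_iff hxP hpx]
      constructor
      · intro h
        have e := P.add_mem ha h
        rwa [sub_add_cancel] at e
      · intro h
        have e := P.sub_mem h ha
        rwa [sub_sub_cancel] at e
    · intro c
      obtain ⟨a, rfl⟩ := ZMod.intCast_surjective c
      refine ⟨a • x, Submodule.mem_sup_right (Submodule.mem_span_singleton.2 ⟨a, rfl⟩), ?_⟩
      exact phi_eq hxP hpx (by rw [sub_self]; exact P.zero_mem)
    · intro h m hm
      obtain ⟨a, ha⟩ := exists_coord hm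
      rw [phi_eq hxP hpx ha, phi_eq hxP hpx (hstab h h.2 m a ha)]
      change (a : ZMod p) = 1 * a
      rw [one_mul]
    · intro y hy y' hy'
      apply phi'_eq hlam
      intro a
      rw [map_add, phi'_spec hlam hpx hy, phi'_spec hlam hpx hy', mul_add, map_add]
    · intro y hy
      constructor
      · intro h m hm
        obtain ⟨a, ha⟩ := exists_coord hm
        rw [hperp y hy m a ha, phi'_spec hlam hpx hy, h, mul_zero, map_zero]
      · intro h
        apply phi'_eq hlam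
        intro a
        rw [mul_zero, map_zero]
        exact h _ (Submodule.mem_sup_right (Submodule.mem_span_singleton.2 ⟨a, rfl⟩))
    · have hex : ∃ y ∈ X.perp P, phi' X lam x y ≠ 0 := by
        by_contra hne
        push Not at hne
        apply hxP
        apply X.perf
        intro y hy
        have e := phi'_spec hlam hpx hy 1
        rw [hne y hy, mul_zero, map_zero, one_smul] at e
        exact e
      obtain ⟨y, hy, hy0⟩ := hex
      intro c
      obtain ⟨n, hn⟩ := ZMod.natCast_zmod_surjective (c * (phi' X lam x y)⁻¹)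
      refine ⟨n • y, ?_, ?_⟩
      · intro m hm
        rw [map_nsmul, hy m hm, smul_zero]
      · apply phi'_eq hlam
        intro a
        rw [map_nsmul, phi'_spec hlam hpx hy, ← map_nsmul]
        congr 1
        rw [nsmul_eq_mul, hn]
        field_simp
    · intro h y hy
      apply phi'_eq hlam
      intro a
      have h0 : a • x - a • x ∈ P := by
        rw [sub_self]
        exact P.zero_mem
      have h1 : X.ρ (h : G)⁻¹ (a • x) - a • x ∈ P := hstab _ (H.inv_mem h.2) _ a h0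
      have h2 : X.ρ (h : G) (X.ρ (h : G)⁻¹ (a • x)) = a • x := by
        have e : X.ρ (h : G) * X.ρ (h : G)⁻¹ = 1 := by
          rw [← map_mul, mul_inv_cancel, map_one]
        exact congrArg (fun f : AddMonoid.End M => f (a • x)) e
      have h3 := X.eqv (h : G) (X.ρ (h : G)⁻¹ (a • x)) y
      rw [h2, hperp y hy _ a h1, phi'_spec hlam hpx hy, actA_apply, XLINES.smul_lam,
        hχ _ h.2, map_one, one_mul] at h3
      rw [h3]
      change _ = lam ((a : ZMod p) * (1 * phi' X lam x y))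
      rw [one_mul]
    · intro m hm y hy
      obtain ⟨a, ha⟩ := exists_coord hm
      rw [hperp y hy m a ha, phi_eq hxP hpx ha]
      exact phi'_spec hlam hpx hy a

end BKT
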