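import Pool.Agent.Lib.MP_7c08ba_nt.T1.StLoc
import Pool.Agent.Lib.MP_7c08ba_nt.Met.LLoc
import Pool.Agent.Lib.MP_7c08ba_nt.Met.LTRM

set_option autoImplicit false

/-!
Parity for general residual representations: module LOS, the local axioms for characters of open
subgroups.
-/

noncomputable section

namespace BKT

open BKPar (Loc1 Loc2)
open BKND (Sm)
open BKMet
open BKOdd (hh hh_mul)

namespace LLOS

/-- the transfer of a two-cocycle is a two-cocycle -/
theorem cor_mem {G : Type*} [Group G] [TopologicalSpace G] [IsTopologicalGroup G]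
    (H : Subgroup G) (hH : IsOpen (H : Set G)) [Finite (G ⧸ H)] {M : Type*} [AddCommGroup M]
    (a : G →* AddMonoid.End M) {w : H → H → M} (hw : w ∈ BKND.Z2 (a.comp H.subtype)) :
    BKLoc2.corM2 H a w ∈ BKND.Z2 a := by
  have hF : Fintype (G ⧸ H) := Fintype.ofFinite _
  obtain ⟨hw1, hw2⟩ := hw
  refine ⟨?_, fun g g' g'' => ?_⟩
  · have h1 := BKLoc2.TRMAux.loc2_sum H hH hw1 (fun q x => a q.out x)
    have h2 : BKLoc2.corM2 H a w = fun g g' =>
        ∑ q : G ⧸ H, a (g • (g' • q)).out (w (hh H g (g' • q)) (hh H g' q)) := by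
      funext g g'
      exact BKLoc2.TRMAux.corM2_eq H a w g g'
    rw [h2]
    exact h1
  · simp only [BKLoc2.TRMAux.corM2_eq]
    rw [← BKLoc2.TRMAux.sum_smul_eq H g''
      (fun q => a (g • (g' • q)).out (w (hh H g (g' • q)) (hh H g' q))), map_sum,
      ← Finset.sum_sub_distrib, ← Finset.sum_add_distrib, ← Finset.sum_sub_distrib]
    refine Finset.sum_eq_zero fun q _ => ?_
    have h3 := hw2 (hh H g (g' • (g'' • q))) (hh H g' (g'' • q)) (hh H g'' q)
    simp only [MonoidHom.comp_apply, Subgroup.coe_subtype] at h3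
    rw [← BKLoc2.TRMAux.a_hh H a g (g' • (g'' • q))]
    simp only [hh_mul, mul_smul]
    rw [← map_sub, ← map_add, ← map_sub, h3, map_zero]

/-- the invariant composed with the transfer -/
def invC {G : Type*} [Group G] {p : ℕ} [Fact p.Prime] (V : Subgroup G) [Finite (G ⧸ V)]
    (a : G →* AddMonoid.End (QZ p)) (inv : (G → G → QZ p) →+ QZ p) :
    (V → V → QZ p) →+ QZ p where
  toFun z := inv (BKLoc2.corM2 V a z)
  map_zero' := by
    have h1 : BKLoc2.corM2 V a (0 : V → V → QZ p) = 0 := by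
      have hF : Fintype (G ⧸ V) := Fintype.ofFinite _
      funext g g'
      rw [BKLoc2.TRMAux.corM2_eq]
      refine Finset.sum_eq_zero fun q _ => ?_
      exact map_zero _
    rw [h1, map_zero]
  map_add' := fun w w' => by
    have h1 : BKLoc2.corM2 V a (w + w') = BKLoc2.corM2 V a w + BKLoc2.corM2 V a w' := by
      have hF : Fintype (G ⧸ V) := Fintype.ofFinite _
      funext g g'
      simp only [Pi.add_apply, BKLoc2.TRMAux.corM2_eq, map_add, Finset.sum_add_distrib]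
    rw [h1, map_add]

/-- the transfer of a two-coboundary is a two-coboundary -/
theorem cor_cob {G : Type} [Group G] [TopologicalSpace G] [NonarchimedeanGroup G]
    (H : Subgroup G) (hH : IsOpen (H : Set G)) [Finite (G ⧸ H)] {A : Type} [AddCommGroup A]
    (a : G →* AddMonoid.End A) {w : H → H → A}
    (hw : w ∈ BKND.B2 (a.comp H.subtype)) : BKLoc2.corM2 H a w ∈ BKND.B2 a := by
  have h := BKLoc2.stTRM G H hH inferInstance PUnit PUnit A 1 1 a 0
    ⟨⊤, isOpen_univ, fun _ _ => rfl⟩ (fun n' => ⟨⊤, isOpen_univ, fun _ _ => rfl⟩)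
    (fun g n n' => (map_zero (a g)).symm)
  exact h.2.2.1 w hw

theorem nonarch (l : ℕ) [Fact l.Prime] : NonarchimedeanGroup (GQ l) where
  is_nonarchimedean U hU := by
    obtain ⟨N, hN⟩ := ProfiniteGrp.exist_openNormalSubgroup_sub_open_nhds_of_one
      (isOpen_interior (s := U)) (mem_interior_iff_mem_nhds.2 hU)
    exact ⟨N.toOpenSubgroup, hN.trans interior_subset⟩

theorem card (h1 : StN3V) (p l : ℕ) [Fact p.Prime] [Fact l.Prime] (hp2 : p ≠ 2)
    (V : Subgroup (GQ l)) (hV : IsOpen (V : Set (GQ l))) (k : Type) [Field k] [Finite k]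
    [Algebra (ZMod p) k] (ψ ψ' : V →* kˣ) (hψ : Sm (kch ψ)) (hψ' : Sm (kch ψ'))
    (hrel : Rel ((cycL p l).comp V.subtype) ψ ψ') :
    Nat.card (BKND.Z1 (kch ψ)) =
      Nat.card (BKND.H0 (kch ψ')) * Nat.card k ^ (1 + V.index * (if l = p then 1 else 0)) := by
  obtain ⟨lam, hlam⟩ := BKLoc2.LocAux.exists_lam (p := p) k
  have h5 := h1 p l hp2 V hV k k (kch ψ) (kch ψ') (BKLoc2.LocAux.bk lam) BKLoc2.LocAux.p_smul
    BKLoc2.LocAux.p_smul (BKLoc2.LocAux.tame hψ) (BKLoc2.LocAux.tame hψ')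
    (BKLoc2.LocAux.pair hrel hlam)
  rw [mul_assoc] at h5
  have h6 : (if l = p then Nat.card k ^ V.index else 1) =
      Nat.card k ^ (V.index * (if l = p then 1 else 0)) := by
    split_ifs
    · rw [mul_one]
    · rw [mul_zero, pow_zero]
  rw [BKLoc2.LocAux.card_Z1 (p := p) hψ h5, h6, pow_add, pow_one]
  ring

end LLOS

open LLOS in
/-- Module LOS. -/
theorem stLos (h1 : StN3V) (h2 : StCrV) (h3 : StN4V) (h4 : StN5V) : StLos := by
  intro p l _ _ hp2 inv hinv
  have hna : NonarchimedeanGroup (GQ l) := nonarch l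
  refine ⟨hinv, fun V hV hVp => ?_, fun V hV k _ _ _ ψ ψ' hψ hψ' hrel =>
    card h1 p l hp2 V hV k ψ ψ' hψ hψ' hrel⟩
  have hfin : Finite (GQ l ⧸ V) := V.quotient_finite_of_isOpen hV
  have hiff : ∀ z ∈ BKND.Z2 (actA ((cycL p l).comp V.subtype)),
      invC V (actA (cycL p l)) inv z = 0 ↔
        z ∈ BKND.B2 (actA ((cycL p l).comp V.subtype)) := by
    intro z hz
    have hz' : BKLoc2.corM2 V (actA (cycL p l)) z ∈ BKND.Z2 (actA (cycL p l)) :=
      cor_mem V hV (actA (cycL p l)) hz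
    change inv (BKLoc2.corM2 V (actA (cycL p l)) z) = 0 ↔ _
    rw [hinv _ hz']
    exact ⟨fun h => h2 p l hp2 V hV hVp z hz h, fun h => cor_cob V hV (actA (cycL p l)) h⟩
  refine ⟨invC V (actA (cycL p l)) inv, fun z => rfl, hiff, ?_, ?_, ?_⟩
  · intro k _ _ _ ψ ψ' hψ hψ' hrel lam hlam f hf hcup
    refine h4 p l hp2 V hV hVp k k (kch ψ) (kch ψ') (BKLoc2.LocAux.bk lam)
      BKLoc2.LocAux.p_smul BKLoc2.LocAux.p_smul (BKLoc2.LocAux.tame hψ)
      (BKLoc2.LocAux.tame hψ') (BKLoc2.LocAux.pair hrel hlam) f hf fun y hy => ?_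
    exact (hiff _ (BKLoc2.LocAux.cup_mem hψ' hrel lam hf hy)).1 (hcup y hy)
  · intro k _ _ _ ψ ψ' hψ hψ' hrel lam hlam z hz hcup
    refine h3 p l hp2 V hV hVp k k (kch ψ) (kch ψ') (BKLoc2.LocAux.bk lam)
      BKLoc2.LocAux.p_smul BKLoc2.LocAux.p_smul (BKLoc2.LocAux.tame hψ)
      (BKLoc2.LocAux.tame hψ') (BKLoc2.LocAux.pair hrel hlam) z hz fun y hy => ?_
    exact (hiff _ (BKLoc2.LocAux.mul_mem hrel lam hz hy)).1 (hcup y hy)
  · intro k _ _ _ ψ ψ' hψ hψ' hrel
    exact card h1 p l hp2 V hV k ψ ψ' hψ hψ' hrel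

end BKT
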