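import Pool.Agent.Lib.MP_7c08ba_nt.T1.StLoc
import Pool.Agent.Lib.MP_7c08ba_nt.T1.LLOS
import Pool.Agent.Lib.MP_7c08ba_nt.T1.LDUP

set_option autoImplicit false

/-!
Parity for general residual representations: module LOG, the local theorem.
-/

noncomputable section

namespace BKT

open BKPar (Loc1 Loc2)
open BKND (Sm)
open BKMet

namespace LLOG

/-- an equation between natural numbers from an equation between their logarithms -/
theorem of_log {a b c n : ℕ} (ha : a ≠ 0) (hb : b ≠ 0) (hc : c ≠ 0)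
    (h : Real.log a - Real.log b - (1 + (n : ℝ)) * Real.log c = 0) : a = b * c ^ (1 + n) := by
  have ha' : (0 : ℝ) < a := by exact_mod_cast Nat.pos_of_ne_zero ha
  have hb' : (0 : ℝ) < b := by exact_mod_cast Nat.pos_of_ne_zero hb
  have hc' : (0 : ℝ) < c := by exact_mod_cast Nat.pos_of_ne_zero hc
  have h1 : Real.log (a : ℝ) = Real.log ((b : ℝ) * (c : ℝ) ^ (1 + n)) := by
    rw [Real.log_mul hb'.ne' (pow_pos hc' _).ne', Real.log_pow]
    push_cast
    linarith
  have h2 : (a : ℝ) = (b : ℝ) * (c : ℝ) ^ (1 + n) :=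
    Real.log_injOn_pos (Set.mem_Ioi.2 ha') (Set.mem_Ioi.2 (mul_pos hb' (pow_pos hc' _))) h1
  exact_mod_cast h2

/-- the invariants of the second module of a pair -/
theorem card_H0 {p : ℕ} [Fact p.Prime] {D : Type} [Group D] {χ : D →* ℤ_[p]ˣ} {M M' : Type}
    [AddCommGroup M] [AddCommGroup M'] {ρ : D →* AddMonoid.End M} {ρ' : D →* AddMonoid.End M'}
    (e : M' ≃+ (M →+ QZ p)) (he : ∀ g m', e (ρ' g m') = dualA χ ρ g (e m')) :
    Nat.card (BKND.H0 ρ') = Nat.card (BKND.H0 (dualA χ ρ)) := by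
  refine Nat.card_congr ⟨fun x => ⟨e x, fun g => ?_⟩, fun y => ⟨e.symm y, fun g => ?_⟩,
    fun x => ?_, fun y => ?_⟩
  · rw [← he, x.2 g]
  · apply e.injective
    rw [he, e.apply_symm_apply]
    exact y.2 g
  · exact Subtype.ext (e.symm_apply_apply _)
  · exact Subtype.ext (e.apply_symm_apply _)

end LLOG

open LLOG in
/-- Module LOG: the local theorem. -/
theorem stLog (h1 : StLos) (h2 : StLot) (h3 : StLca) (h4 : StLfn) (h5 : StDup) : StLog := by
  intro p l _ _ hp2 inv hinv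
  have hna : NonarchimedeanGroup (GQ l) := LLOS.nonarch l
  have hχ : Continuous (cycL p l) :=
    cyclotomicCharacter.continuous p ℚ_[l] (PadicAlgCl l)
  have hS := h1 p l hp2 inv hinv
  have hD := h2 p (GQ l) (cycL p l) hχ inv _ hS
  refine ⟨hD.inv_eq, hD.one, hD.two, fun M M' _ _ _ X => ?_⟩
  obtain ⟨hM, e, -, he⟩ := (h5 p (GQ l) (cycL p l) hχ M).2 M' X
  have hF := h3 p (GQ l) (cycL p l) hχ inv _ hS hD M X.ρ X.sm hM
  have hZ := h4 p (GQ l) (cycL p l) hχ inv _ hS M X.ρ X.sm hM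
  have hH : Finite (M →+ QZ p) := (LDUP.homs p M).1
  rw [card_H0 e he]
  exact of_log Nat.card_pos.ne' Nat.card_pos.ne' Nat.card_pos.ne' hF

end BKT
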