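import Pool.Agent.Lib.MP_7c08ba_nt.T1.StLoc
import Pool.Agent.Lib.MP_7c08ba_nt.Met.LLAB
import Pool.Agent.Lib.MP_7c08ba_nt.Met.LTRM
import Pool.Agent.Lib.MP_7c08ba_nt.Met.XPERF
import Pool.Agent.Lib.MP_7c08ba_nt.Met.XAll

set_option autoImplicit false

/-!
Parity for general residual representations, module LOT: local duality for all finite modules.
-/

noncomputable section

namespace BKT

open BKPar (Loc1 Loc2)
open BKND (Sm)
open BKMet
open BKLoc2 (corM corM2)
open BKLoc2.TRMAux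
open BKOdd (hh out_mul_hh)

namespace LLOT

/-! ### Restriction to a subgroup of index prime to `p` -/

section Res

variable {G : Type} [Group G] [TopologicalSpace G] [IsTopologicalGroup G] (H : Subgroup G)
  {N : Type} [AddCommGroup N] (ρ : G →* AddMonoid.End N) (e : ℕ)

omit [IsTopologicalGroup G] in
theorem res1 (hfin : Finite (G ⧸ H)) (hcan : ∀ n : N, e • (H.index • n) = n) :
    ∀ x ∈ BKND.Z1 ρ, (fun h : H => x h) ∈ BKND.B1 (ρ.comp H.subtype) → x ∈ BKND.B1 ρ := by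
  have hF : Fintype (G ⧸ H) := Fintype.ofFinite _
  rintro x ⟨hx, hx'⟩ ⟨m, hm⟩
  set y : G → N := fun g => x g - (ρ g m - m) with hy
  have hyc : ∀ g g', y (g * g') = y g + ρ g (y g') := by
    intro g g'
    have e0 : ρ (g * g') m = ρ g (ρ g' m) := by
      rw [map_mul]
      rfl
    simp only [hy, hx', e0, map_sub]
    abel
  have hyH : ∀ h : H, y h = 0 := by
    intro h
    have := hm h
    simp only [MonoidHom.comp_apply, Subgroup.coe_subtype] at this
    simp only [hy, this, sub_self]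
  have hyr : ∀ (g : G) (q : G ⧸ H), y (g * q.out) = y (g • q).out := by
    intro g q
    rw [← out_mul_hh, hyc, hyH, map_zero, add_zero]
  set s : N := ∑ q : G ⧸ H, y q.out with hs
  have h1 : ∀ g, ρ g s = s - H.index • y g := by
    intro g
    have h2 : ρ g s = ∑ q : G ⧸ H, (y (g • q).out - y g) := by
      rw [hs, map_sum]
      refine Finset.sum_congr rfl fun q _ => ?_
      rw [← hyr, hyc]
      abel
    rw [h2, Finset.sum_sub_distrib, sum_smul_eq H g (fun q => y q.out), Finset.sum_const,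
      Finset.card_univ, Subgroup.index, Nat.card_eq_fintype_card]
  refine ⟨m - e • s, fun g => ?_⟩
  have h3 : y g = e • s - ρ g (e • s) := by
    rw [map_nsmul, h1, smul_sub, hcan]
    abel
  have h4 : x g = y g + (ρ g m - m) := by
    simp only [hy]
    abel
  rw [h4, h3, map_sub]
  abel

theorem res2 (hH : IsOpen (H : Set G)) (hfin : Finite (G ⧸ H))
    (hcan : ∀ n : N, e • (H.index • n) = n)
    (hB2 : ∀ w ∈ BKND.B2 (ρ.comp H.subtype), corM2 H ρ w ∈ BKND.B2 ρ) :
    ∀ α ∈ BKND.Z2 ρ, (fun g h : H => α g h) ∈ BKND.B2 (ρ.comp H.subtype) → α ∈ BKND.B2 ρ := by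
  have hF : Fintype (G ⧸ H) := Fintype.ofFinite _
  rintro α ⟨hα, hα'⟩ hB
  have h1 := hB2 _ hB
  have h2 : corM2 H ρ (fun g h : H => α g h) - H.index • α ∈ BKND.B2 ρ := by
    refine ⟨fun g => ∑ q : G ⧸ H, ga H α g q, ?_, fun g g' => ?_⟩
    · obtain ⟨W1, hW1, hl1⟩ := hα
      have hα2 : Loc1 (fun h : H => fun x : G => α x h) := by
        refine ⟨W1.comap H.subtype, ?_, fun h w hw => ?_⟩
        · exact hW1.preimage continuous_subtype_val
        · funext x
          have := hl1 x h 1 W1.one_mem (w : G) hw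
          rwa [mul_one] at this
      have h1 := loc1_sum H hH hα2 (fun _ q v => v q.out)
      have h2 : Loc1 (fun g : G => ∑ q : G ⧸ H, α g q.out) := by
        refine ⟨W1, hW1, fun g w hw => ?_⟩
        refine Finset.sum_congr rfl fun q _ => ?_
        have := hl1 g q.out w hw 1 W1.one_mem
        rwa [mul_one] at this
      have h3 := BKND.Loc1.map2 h1 h2 (fun u v => u - v)
      refine (congrArg Loc1 ?_).mp h3
      funext g
      rw [← Finset.sum_sub_distrib]
      rfl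
    · simp only [Pi.sub_apply, Pi.smul_apply, corM2_eq]
      have hcard : H.index • α g g' = ∑ q : G ⧸ H, α g g' := by
        rw [Finset.sum_const, Finset.card_univ, Subgroup.index, Nat.card_eq_fintype_card]
      rw [hcard, ← sum_smul_eq H g' (fun q => ga H α g q), map_sum,
        ← Finset.sum_sub_distrib, ← Finset.sum_sub_distrib, ← Finset.sum_add_distrib]
      refine Finset.sum_congr rfl fun q _ => ?_
      rw [ga_eq H ρ hα' g g' q]
      abel
  have h3 : H.index • α ∈ BKND.B2 ρ := by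
    have := (BKND.B2 ρ).sub_mem h1 h2
    rwa [sub_sub_cancel] at this
  have h4 := (BKND.B2 ρ).nsmul_mem h3 e
  have h5 : e • (H.index • α) = α := by
    funext g g'
    exact hcan (α g g')
  rwa [h5] at h4

end Res

/-! ### The restricted pair -/

section Pairs

variable {p : ℕ} [Fact p.Prime] {D : Type} [Group D] [TopologicalSpace D] {χ : D →* ℤ_[p]ˣ}
  {M M' : Type} [AddCommGroup M] [AddCommGroup M'] (X : Pair ℤ (actA χ) M M') (H : Subgroup D)

theorem sm_comp {N : Type} [AddCommGroup N] {ρ : D →* AddMonoid.End N} (h : Sm ρ) :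
    Sm (ρ.comp H.subtype) := by
  obtain ⟨W, hW, hW'⟩ := h
  exact ⟨W.comap H.subtype, hW.preimage continuous_subtype_val, fun w hw => hW' w hw⟩

/-- the restriction of a pair to a subgroup -/
def resP : Pair ℤ (actA (χ.comp H.subtype)) M M' where
  ρ := X.ρ.comp H.subtype
  ρ' := X.ρ'.comp H.subtype
  b := X.b
  sm := sm_comp H X.sm
  sm' := sm_comp H X.sm'
  lin := fun g => X.lin g
  lin' := fun g => X.lin' g
  eqv := fun g => X.eqv g
  bal := X.bal
  perf := X.perf
  perf' := X.perf'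

theorem lines (hZ : StLnz) [Finite M] (hχ : ∀ h ∈ H, PadicInt.toZMod ((χ h : ℤ_[p]ˣ) : ℤ_[p]) = 1)
    (hp : PGr p X.ρ H) : Lines (resP X H) (ZMod p) ⊤ := by
  intro P Q hP hQ hPQ
  obtain ⟨N, hPN, hNQ, lam, φ, φ', hlam, hl⟩ := hZ p D χ M M' X H hχ hp P Q
    (fun h hh x hx => hP ⟨h, hh⟩ x hx) (fun h hh x hx => hQ ⟨h, hh⟩ x hx) hPQ
  exact ⟨N, fun g m hm => hl.stab' g g.2 m hm, hPN.le, hNQ, 1, 1, lam, φ, φ', fun _ _ => rfl,
    fun _ _ => rfl, hlam,
    { add := hl.add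
      ker := hl.ker
      surj := hl.surj
      act := hl.act
      add' := hl.add'
      ker' := hl.ker'
      surj' := hl.surj'
      act' := hl.act'
      pair := hl.pair }⟩

include X in
/-- multiplication by an integer prime to `p` is invertible on `M` -/
theorem can [Finite M] {i : ℕ} (hi : ¬ p ∣ i) : ∃ e : ℕ, ∀ m : M, e • (i • m) = m := by
  obtain ⟨k, hk⟩ := XPERF.card_pow X.b fun m hm => by
    have h := X.perf ⊥ m fun m' _ => hm m'
    simpa using h
  have hp : p.Prime := Fact.out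
  have hc : Nat.Coprime i (p ^ k) := Nat.Coprime.pow_right k
    ((Nat.Prime.coprime_iff_not_dvd hp).2 hi).symm
  obtain ⟨e, he⟩ : ∃ e : ℕ, (e * i) ≡ 1 [MOD p ^ k] := by
    rcases Nat.eq_zero_or_pos k with rfl | hk0
    · exact ⟨0, by rw [pow_zero]; exact Nat.modEq_one⟩
    obtain ⟨e, -, he⟩ := Nat.exists_mul_mod_eq_one_of_coprime hc
      (Nat.one_lt_pow hk0.ne' hp.one_lt)
    refine ⟨e, ?_⟩
    rw [Nat.ModEq, mul_comm, he, Nat.mod_eq_of_lt (Nat.one_lt_pow hk0.ne' hp.one_lt)]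
  refine ⟨e, fun n => ?_⟩
  rw [smul_smul]
  obtain ⟨c, hc⟩ := (Nat.modEq_iff_dvd.1 he.symm : ((p ^ k : ℕ) : ℤ) ∣ _)
  have h1 : ((e * i : ℕ) : ℤ) = 1 + (p ^ k : ℕ) * c := by
    push_cast at hc ⊢
    linarith
  have h2 : (e * i) • n = ((e * i : ℕ) : ℤ) • n := (natCast_zsmul _ _).symm
  have h3 : (p ^ k : ℕ) • n = 0 := by
    rw [← hk]
    exact card_nsmul_eq_zero'
  rw [h2, h1, add_zsmul, one_zsmul, mul_comm, mul_zsmul, natCast_zsmul, h3, smul_zero,
    add_zero]

end Pairs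

/-! ### Small open normal subgroups -/

theorem exists_small {p : ℕ} [Fact p.Prime] {D : Type} [Group D] [TopologicalSpace D]
    [IsTopologicalGroup D] [CompactSpace D] (χ : D →* ℤ_[p]ˣ) (hχ : Continuous χ)
    {M M' : Type} [AddCommGroup M] [AddCommGroup M'] (X : Pair ℤ (actA χ) M M') :
    ∃ U : Subgroup D, U.Normal ∧ IsOpen (U : Set D) ∧ (∀ u ∈ U, X.ρ u = 1) ∧
      (∀ u ∈ U, X.ρ' u = 1) ∧
      ∀ u ∈ U, PadicInt.toZMod ((χ u : ℤ_[p]ˣ) : ℤ_[p]) = 1 := by
  obtain ⟨W, hW, hW'⟩ := X.sm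
  obtain ⟨V, hV, hV'⟩ := X.sm'
  let K : Subgroup D := (Units.map (PadicInt.toZMod (p := p)).toMonoidHom).ker.comap χ
  have hK : ∀ g, g ∈ K ↔ PadicInt.toZMod ((χ g : ℤ_[p]ˣ) : ℤ_[p]) = 1 := by
    intro g
    change Units.map (PadicInt.toZMod (p := p)).toMonoidHom (χ g) = 1 ↔ _
    rw [Units.ext_iff]
    rfl
  have hKo : IsOpen (K : Set D) := by
    have h1 : (K : Set D) = (fun g => ((χ g : ℤ_[p]ˣ) : ℤ_[p])) ⁻¹' Metric.ball 1 1 := by
      ext g
      rw [SetLike.mem_coe, hK, Set.mem_preimage, Metric.mem_ball, dist_eq_norm,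
        PadicInt.norm_lt_one_iff_dvd, ← Ideal.mem_span_singleton, ← PadicInt.maximalIdeal_eq_span_p,
        ← PadicInt.ker_toZMod, RingHom.mem_ker, map_sub, map_one, sub_eq_zero]
    rw [h1]
    exact Metric.isOpen_ball.preimage (Units.continuous_val.comp hχ)
  obtain ⟨U, hU, hUW, hn⟩ := XCT.exists_normal (W ⊓ V ⊓ K) (by
    rw [Subgroup.coe_inf, Subgroup.coe_inf]
    exact (hW.inter hV).inter hKo)
  exact ⟨U, ⟨fun n hn' g => hn g n hn'⟩, hU, fun u hu => hW' u (hUW hu).1.1,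
    fun u hu => hV' u (hUW hu).1.2, fun u hu => (hK u).1 (hUW hu).2⟩

theorem pgr {p : ℕ} {D : Type} [Group D] {M : Type} [AddCommGroup M]
    {ρ : D →* AddMonoid.End M} {U H : Subgroup D} (h1 : ∀ u ∈ U, ρ u = 1)
    (h2 : ∀ h ∈ H, ∃ n : ℕ, h ^ p ^ n ∈ U) : PGr p ρ H := by
  intro h hh
  obtain ⟨n, hn⟩ := h2 h hh
  exact ⟨n, by rw [← map_pow, h1 _ hn]⟩

/-- an element of a `p`-group modulo `U` has `χ` congruent to `1` -/
theorem chi_one {p : ℕ} [Fact p.Prime] {D : Type} [Group D] (χ : D →* ℤ_[p]ˣ)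
    {U H : Subgroup D} (h1 : ∀ u ∈ U, PadicInt.toZMod ((χ u : ℤ_[p]ˣ) : ℤ_[p]) = 1)
    (h2 : ∀ h ∈ H, ∃ n : ℕ, h ^ p ^ n ∈ U) :
    ∀ h ∈ H, PadicInt.toZMod ((χ h : ℤ_[p]ˣ) : ℤ_[p]) = 1 := by
  intro h hh
  obtain ⟨n, hn⟩ := h2 h hh
  have h3 := h1 _ hn
  rw [map_pow, Units.val_pow_eq_pow_val, map_pow, ZMod.pow_card_pow] at h3
  exact h3

/-! ### The invariant of the transfer -/

section Cor

variable {p : ℕ} [Fact p.Prime] {D : Type} [Group D] [TopologicalSpace D] [IsTopologicalGroup D]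
  [CompactSpace D] {χ : D →* ℤ_[p]ˣ}

omit [IsTopologicalGroup D] [CompactSpace D] in
/-- the action on `ℚ_p/ℤ_p` is smooth -/
theorem psm (hχ : Continuous χ) : PSm (actA χ) := by
  intro a
  obtain ⟨k, hk⟩ := XPERF.qz_pow a
  have hk' : ((p : ℤ_[p]) ^ k) • a = 0 := by
    have : ((p ^ k : ℕ) : ℤ_[p]) • a = 0 := by
      rw [Nat.cast_smul_eq_nsmul]
      exact hk
    rwa [Nat.cast_pow] at this
  let I : Ideal ℤ_[p] := Ideal.span {(p : ℤ_[p]) ^ k}
  let W : Subgroup D := (Units.map (Ideal.Quotient.mk I).toMonoidHom).ker.comap χ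
  have hW : ∀ g, g ∈ W ↔ ((χ g : ℤ_[p]ˣ) : ℤ_[p]) - 1 ∈ I := by
    intro g
    change Units.map (Ideal.Quotient.mk I).toMonoidHom (χ g) = 1 ↔ _
    rw [← Ideal.Quotient.eq, Units.ext_iff]
    rfl
  refine ⟨W, ?_, fun w hw => ?_⟩
  · have h1 : (W : Set D) = (fun g => ((χ g : ℤ_[p]ˣ) : ℤ_[p])) ⁻¹'
        Metric.closedBall 1 ((p : ℝ) ^ (-k : ℤ)) := by
      ext g
      rw [SetLike.mem_coe, hW, ← PadicInt.norm_le_pow_iff_mem_span_pow, Set.mem_preimage,
        Metric.mem_closedBall, dist_eq_norm]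
    rw [h1]
    refine (IsUltrametricDist.isOpen_closedBall _ ?_).preimage (Units.continuous_val.comp hχ)
    have : (0 : ℝ) < p := by exact_mod_cast (Fact.out : p.Prime).pos
    positivity
  · obtain ⟨t, ht⟩ := Ideal.mem_span_singleton'.1 ((hW w).1 hw)
    rw [actA_apply]
    have h2 : ((χ w : ℤ_[p]ˣ) : ℤ_[p]) = 1 + t * (p : ℤ_[p]) ^ k := by
      rw [ht]
      ring
    rw [h2, add_smul, one_smul, mul_smul, hk', smul_zero, add_zero]

theorem b2_z2 (hχ : Continuous χ) : BKND.B2 (actA χ) ≤ BKND.Z2 (actA χ) := by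
  rintro z ⟨β, hβ, hz⟩
  have h1 : z = d1 (actA χ) β := by
    funext g h
    exact hz g h
  rw [h1]
  exact ⟨XCT.loc2_d1' (psm hχ) hβ, fun g h k => XCT.d2_d1 (actA χ) β g h k⟩

theorem inv_b2 (hχ : Continuous χ) {inv : (D → D → QZ p) →+ QZ p}
    (hinv : ∀ z ∈ BKND.Z2 (actA χ), inv z = 0 ↔ z ∈ BKND.B2 (actA χ)) {z z' : D → D → QZ p}
    (h : z - z' ∈ BKND.B2 (actA χ)) : inv z = inv z' := by
  have h1 := (hinv _ (b2_z2 hχ h)).2 h
  rw [map_sub] at h1
  exact sub_eq_zero.1 h1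

end Cor

end LLOT

open LLOT

/-- **Module LOT** (from SYG, LNZ, TRM and LAB): local duality for all finite modules. -/
theorem stLot (h1 : StSyg) (h2 : StLnz) : StLot := by
  intro p _ D _ _ _ _ _ χ hχ inv δ hS
  have key : ∀ (M M' : Type) [AddCommGroup M] [AddCommGroup M'] [Finite M]
      (X : Pair ℤ (actA χ) M M'), ∃ H : Subgroup D, IsOpen (H : Set D) ∧ Finite (D ⧸ H) ∧
      (∃ e : ℕ, ∀ m : M, e • (H.index • m) = m) ∧
      ∃ invH : (H → H → QZ p) →+ QZ p, (∀ z, invH z = inv (corM2 H (actA χ) z)) ∧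
      LLAB.SA invH (resP X H) ⊥ ⊤ ∧ LLAB.SB invH (resP X H) ⊥ ⊤ := by
    intro M M' _ _ _ X
    obtain ⟨U, hUn, hU, hU1, hU2, hU3⟩ := exists_small χ hχ X
    obtain ⟨H, -, hHo, hHi, hHp⟩ := h1 p D U hUn hU
    obtain ⟨invH, hi, hL⟩ := hS.syl H hHo hHi
    have hcomp : CompactSpace H := isCompact_iff_compactSpace.1
      (Subgroup.isClosed_of_isOpen H hHo).isCompact
    have hfin : Finite (D ⧸ H) := Subgroup.quotient_finite_of_isOpen H hHo
    have hc := chi_one χ hU3 hHp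
    have l1 := lines X H h2 hc (pgr hU1 hHp)
    have hM' : Finite M' := (XPERP.finite X BKMet.All.homs).1
    have l2 : Lines (resP X H).flip (ZMod p) ⊤ := lines X.flip H h2 hc (pgr hU2 hHp)
    obtain ⟨a1, a2⟩ := stLAB BKMet.All.dual BKMet.All.perp ℤ p H (χ.comp H.subtype) invH (H.index * δ) hL
      M M' (resP X H) (ZMod p) ⊤ isOpen_univ l1 l2 ⊥ ⊤ (fun g m hm => by
        rw [Submodule.mem_bot] at hm ⊢
        rw [hm, map_zero]) (fun g m _ => Submodule.mem_top) bot_le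
    exact ⟨H, hHo, hfin, can X hHi, invH, hi, a1, a2⟩
  refine ⟨hS.inv_eq, ?_, ?_⟩
  · intro M M' _ _ _ X f hf horth
    obtain ⟨H, hHo, hfin, ⟨e, he⟩, invH, hi, hA, -⟩ := key M M' X
    have hT := BKLoc2.stTRM D H hHo hfin M M' (QZ p) X.ρ X.ρ' (actA χ) X.b X.sm'
      (fun n' => by
        obtain ⟨W, hW, hW'⟩ := X.sm'
        exact ⟨W, hW, fun w hw => by rw [hW' w hw]; rfl⟩) X.eqv
    refine res1 H X.ρ e hfin he f hf ?_
    have hfH : Loc1 fun h : H => f h := by
      obtain ⟨W, hW, hW'⟩ := hf.1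
      exact ⟨W.comap H.subtype, hW.preimage continuous_subtype_val, fun g w hw =>
        hW' g w hw⟩
    obtain ⟨m, -, hm⟩ := hA (fun h : H => f h) hfH (fun _ => Submodule.mem_top) (fun g h => by
      rw [Submodule.mem_bot]
      change X.ρ g (f h) - f (g * h) + f g = 0
      rw [hf.2 g h]
      abel) fun y hy _ hy' => by
        have hyZ : y ∈ BKND.Z1 (X.ρ'.comp H.subtype) := by
          refine ⟨hy, fun g h => ?_⟩
          have h3 := hy' g h
          rw [XPERP.perp_top, Submodule.mem_bot] at h3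
          change X.ρ' g (y h) - y (g * h) + y g = 0 at h3
          change y (g * h) = y g + X.ρ' g (y h)
          rw [← sub_eq_zero]
          rw [← neg_eq_zero]
          rw [← h3]
          abel
        rw [hi]
        have h4 := inv_b2 hχ hS.inv_eq (hT.2.2.2.1 f hf y hyZ)
        refine Eq.trans ?_ (h4.trans (horth _ (hT.1 y hyZ)))
        rfl
    refine ⟨m, fun g => ?_⟩
    have h3 := hm g
    rw [Submodule.mem_bot, sub_eq_zero] at h3
    exact h3
  · intro M M' _ _ _ X z hz horth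
    obtain ⟨H, hHo, hfin, ⟨e, he⟩, invH, hi, -, hB⟩ := key M M' X
    have hT := BKLoc2.stTRM D H hHo hfin M M' (QZ p) X.ρ X.ρ' (actA χ) X.b X.sm'
      (fun n' => by
        obtain ⟨W, hW, hW'⟩ := X.sm'
        exact ⟨W, hW, fun w hw => by rw [hW' w hw]; rfl⟩) X.eqv
    have hT' := BKLoc2.stTRM D H hHo hfin M M M X.ρ X.ρ X.ρ 0 X.sm
      (fun n' => by
        obtain ⟨W, hW, hW'⟩ := X.sm
        exact ⟨W, hW, fun w hw => by rw [hW' w hw]; rfl⟩) (fun g n n' => by simp)
    refine res2 H X.ρ e hHo hfin he hT'.2.2.1 z hz ?_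
    have hzH : Loc2 fun g h : H => z g h := by
      obtain ⟨W, hW, hW'⟩ := hz.1
      exact ⟨W.comap H.subtype, hW.preimage continuous_subtype_val, fun g h w hw w' hw' =>
        hW' g h w hw w' hw'⟩
    obtain ⟨β, hβ, -, hβ'⟩ := hB (fun g h : H => z g h) hzH (fun _ _ => Submodule.mem_top)
      (fun g h l => by
        rw [Submodule.mem_bot]
        exact hz.2 g h l) fun m' _ hm' => by
        have hinv : ∀ h ∈ H, X.ρ' h m' = m' := by
          intro h hh
          have h3 := hm' ⟨h, hh⟩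
          rw [XPERP.perp_top, Submodule.mem_bot] at h3
          exact sub_eq_zero.1 h3
        rw [hi]
        have h4 := inv_b2 hχ hS.inv_eq (hT.2.2.2.2.1 z hz m' hinv)
        have hF : Fintype (D ⧸ H) := Fintype.ofFinite _
        have h5 : (∑ᶠ q : D ⧸ H, X.ρ' q.out m') ∈ BKND.H0 X.ρ' := by
          intro g
          rw [finsum_eq_sum_of_fintype, map_sum]
          rw [← sum_smul_eq H g (fun q => X.ρ' q.out m')]
          refine Finset.sum_congr rfl fun q _ => ?_
          rw [← a_hh H X.ρ' g q m', hinv _ (hh H g q).2]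
        have h6 := horth _ h5
        have e1 : corM2 H (actA χ) (cup20 (resP X H).b (resP X H).ρ' (fun g h : H => z g h) m') =
            corM2 H (actA χ) (fun g h : H => X.b (z g h) m') := by
          congr 1
          funext g h
          change X.b (z g h) (X.ρ' (g * h : D) m') = X.b (z g h) m'
          rw [hinv _ (H.mul_mem g.2 h.2)]
        have e2 : cup20 X.b X.ρ' z (∑ᶠ q : D ⧸ H, X.ρ' q.out m') =
            fun g h => X.b (z g h) (∑ᶠ q : D ⧸ H, X.ρ' q.out m') := by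
          funext g h
          change X.b (z g h) (X.ρ' (g * h) _) = _
          rw [h5 (g * h)]
        rw [e1, h4, ← e2]
        exact h6
    refine ⟨β, hβ, fun g h => ?_⟩
    have h3 := hβ' g h
    rw [Submodule.mem_bot, sub_eq_zero] at h3
    exact h3

end BKT
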