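import Pool.Agent.Lib.MP_7c08ba_nt.T1.StLoc
import Pool.Agent.Lib.MP_7c08ba_nt.Met.LLSP

set_option autoImplicit false

/-!
Parity for general residual representations, local part, module LSPV: the multiplicative group of a
finite Galois extension `E` of a finite extension of `ℚ_p`, as a module over the Galois group.
-/

noncomputable section

namespace BKT

open BKMet

namespace LLSPV

open BKGen.NormIdx BKGen.LocalCount Module

section Red

theorem exists_equiv0 (p : ℕ) [hp : Fact p.Prime] (Q : Type) [AddCommGroup Q]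
    [Module (ZMod p) Q] [Finite Q] (n : ℕ) (hcard : Nat.card Q = p ^ n) :
    Nonempty (Q ≃+ (Fin n → ZMod p)) := by
  have hfd : Module.Finite (ZMod p) Q := Module.Finite.of_finite
  have h1 : Nat.card Q = Nat.card (ZMod p) ^ finrank (ZMod p) Q := Module.natCard_eq_pow_finrank
  rw [hcard, Nat.card_zmod] at h1
  have hfr : n = finrank (ZMod p) Q := Nat.pow_right_injective hp.out.two_le h1
  have e : Q ≃ₗ[ZMod p] (Fin n → ZMod p) :=
    LinearEquiv.ofFinrankEq Q (Fin n → ZMod p) (by rw [← hfr, Module.finrank_fin_fun])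
  exact ⟨e.toAddEquiv⟩

/-- elementary abelian groups -/
theorem exists_equiv (p : ℕ) [hp : Fact p.Prime] (Q : Type) [AddCommGroup Q] (n : ℕ)
    (htors : ∀ x : Q, p • x = 0) (hcard : Nat.card Q = p ^ n) :
    Nonempty (Q ≃+ (Fin n → ZMod p)) := by
  have hfin : Finite Q := Nat.finite_of_card_ne_zero (by
    rw [hcard]; exact pow_ne_zero _ hp.out.ne_zero)
  exact @exists_equiv0 p hp Q _ (AddCommGroup.zmodModule htors) hfin n hcard

/-- coordinates of the integers of `k` modulo `p` -/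
theorem exists_red (p : ℕ) [hp : Fact p.Prime] (k : Type) [NormedField k] [IsUltrametricDist k]
    [NormedAlgebra ℚ_[p] k] [FiniteDimensional ℚ_[p] k] (n : ℕ) (hn : finrank ℚ_[p] k = n) :
    ∃ r : k → (Fin n → ZMod p), (∀ a b : k, ‖a‖ ≤ 1 → ‖b‖ ≤ 1 → r (a + b) = r a + r b) ∧
      (∀ f, ∃ a : k, ‖a‖ ≤ 1 ∧ r a = f) ∧
      ∀ a : k, ‖a‖ ≤ 1 → (r a = 0 ↔ ‖a‖ ≤ (p : ℝ)⁻¹) := by
  classical
  have hp0 : (0 : ℝ) < p := by exact_mod_cast hp.out.pos
  set N : AddSubgroup (ball k) := ((ball k).map (mulP p k)).addSubgroupOf (ball k) with hN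
  have hmemN : ∀ a : ball k, a ∈ N ↔ ‖(a : k)‖ ≤ (p : ℝ)⁻¹ := by
    intro a
    rw [hN, AddSubgroup.mem_addSubgroupOf, AddSubgroup.mem_map]
    constructor
    · rintro ⟨b, hb, hb'⟩
      have hb1 : ‖b‖ ≤ 1 := hb
      rw [← hb']
      change ‖(p : k) * b‖ ≤ _
      rw [norm_mul, norm_p p k]
      exact mul_le_of_le_one_right (by positivity) hb1
    · intro h
      refine ⟨(p : k)⁻¹ * a, ?_, ?_⟩
      · change ‖(p : k)⁻¹ * (a : k)‖ ≤ 1
        rw [norm_mul, norm_inv, norm_p p k, inv_inv]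
        calc (p : ℝ) * ‖(a : k)‖ ≤ p * (p : ℝ)⁻¹ := by gcongr
          _ = 1 := mul_inv_cancel₀ hp0.ne'
      · change (p : k) * ((p : k)⁻¹ * a) = a
        exact mul_inv_cancel_left₀ (p_ne_zero p k) _
  have hcard : Nat.card (ball k ⧸ N) = p ^ n := by
    have h1 := idx_ball (p := p) (E := k)
    rw [idx, AddSubgroup.relIndex, AddSubgroup.index_eq_card, hn] at h1
    exact h1
  have htors : ∀ x : ball k ⧸ N, p • x = 0 := by
    intro x
    obtain ⟨a, rfl⟩ := QuotientAddGroup.mk_surjective x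
    rw [← QuotientAddGroup.mk_nsmul, QuotientAddGroup.eq_zero_iff, hmemN]
    have h1 : ((p • a : ball k) : k) = (p : k) * a := by
      rw [AddSubgroup.coe_nsmul, nsmul_eq_mul]
    rw [h1, norm_mul, norm_p p k]
    exact mul_le_of_le_one_right (by positivity) a.2
  obtain ⟨e⟩ := exists_equiv p (ball k ⧸ N) n htors hcard
  refine ⟨fun a => if h : ‖a‖ ≤ 1 then e (QuotientAddGroup.mk (⟨a, h⟩ : ball k)) else 0, ?_, ?_,
    ?_⟩
  · intro a b ha hb
    have hab : ‖a + b‖ ≤ 1 := (IsUltrametricDist.norm_add_le_max a b).trans (max_le ha hb)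
    simp only [dif_pos ha, dif_pos hb, dif_pos hab]
    rw [← map_add, ← QuotientAddGroup.mk_add]
    rfl
  · intro f
    obtain ⟨⟨a, ha⟩, ha'⟩ := QuotientAddGroup.mk_surjective (e.symm f)
    have ha1 : ‖a‖ ≤ 1 := ha
    refine ⟨a, ha1, ?_⟩
    simp only [dif_pos ha1]
    rw [ha', AddEquiv.apply_symm_apply]
  · intro a ha
    simp only [dif_pos ha]
    rw [AddEquiv.map_eq_zero_iff, QuotientAddGroup.eq_zero_iff, hmemN]

end Red

section Abs

variable (p : ℕ) [hp : Fact p.Prime] (E : Type) [NormedField E] [IsUltrametricDist E]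
  [NormedAlgebra ℚ_[p] E] [FiniteDimensional ℚ_[p] E] (k : IntermediateField ℚ_[p] E)
  [IsGalois k E]

/-- the stronger conditions on `m` -/
structure SC (m : ℕ) : Prop where
  cond : Cond p k E m
  sq2 : ∀ (z : E) (j : ℕ), m ≤ j → ‖z‖ ≤ (‖th k E‖ * (p : ℝ)⁻¹ ^ j) ^ 2 →
    z ∈ L p k E (j + 2)

theorem exists_SC : ∃ m, SC p E k m := by
  obtain ⟨C, hC, hb⟩ := bdd p k E
  have hp1 : (1 : ℝ) < p := by exact_mod_cast hp.out.one_lt
  have hr : (p : ℝ)⁻¹ < 1 := inv_lt_one_of_one_lt₀ hp1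
  have hr0 : (0 : ℝ) < (p : ℝ)⁻¹ := by positivity
  set A := ‖th k E‖ with hA
  have hA0 : 0 ≤ A := norm_nonneg _
  obtain ⟨m, hm⟩ := exists_small p (C * A ^ 2 + A) 2
  have h0 : 0 ≤ (p : ℝ)⁻¹ ^ m := by positivity
  have key : ∀ (z : E) (j : ℕ), m ≤ j → ‖z‖ ≤ (A * (p : ℝ)⁻¹ ^ j) ^ 2 →
      z ∈ L p k E (j + 2) := by
    intro z j hj hz τ
    have h1 : C * A ^ 2 * (p : ℝ)⁻¹ ^ j ≤ (p : ℝ)⁻¹ ^ 2 := by
      calc C * A ^ 2 * (p : ℝ)⁻¹ ^ j ≤ C * A ^ 2 * (p : ℝ)⁻¹ ^ m := by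
            gcongr C * A ^ 2 * ?_
            exact pow_le_pow_of_le_one hr0.le hr.le hj
        _ ≤ (C * A ^ 2 + A) * (p : ℝ)⁻¹ ^ m := by
            gcongr
            linarith
        _ ≤ (p : ℝ)⁻¹ ^ 2 := hm
    calc ‖co k E τ z‖ ≤ C * ‖z‖ := hb τ z
      _ ≤ C * (A * (p : ℝ)⁻¹ ^ j) ^ 2 := by gcongr
      _ = (C * A ^ 2 * (p : ℝ)⁻¹ ^ j) * (p : ℝ)⁻¹ ^ j := by ring
      _ ≤ (p : ℝ)⁻¹ ^ 2 * (p : ℝ)⁻¹ ^ j := by gcongr
      _ = (p : ℝ)⁻¹ ^ (j + 2) := by ring
  refine ⟨m, ⟨⟨fun τ x => norm_aut p k E τ x, ?_, ?_⟩, key⟩⟩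
  · intro z j hj hz
    exact L_anti (Nat.le_succ _) (key z j hj hz)
  · calc A * (p : ℝ)⁻¹ ^ m ≤ (C * A ^ 2 + A) * (p : ℝ)⁻¹ ^ m := by
          gcongr
          have : 0 ≤ C * A ^ 2 := by positivity
          linarith
      _ ≤ _ := hm

variable {p E k} {m : ℕ}

/-- the `p`-th power is multiplication by `p`, modulo higher terms -/
theorem pow_sub (h : SC p E k m) {j : ℕ} {x : E} (hx : x ∈ L p k E (m + j)) :
    (1 + x) ^ p - 1 - (p : E) * x ∈ L p k E (m + j + 2) := by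
  have h1 : (1 + x) - 1 ∈ L p k E (m + j) := by
    rwa [add_sub_cancel_left]
  have h2 : ‖1 + x‖ = 1 := h.cond.norm_one h1
  have hx' : ‖x‖ ≤ ‖th k E‖ * (p : ℝ)⁻¹ ^ (m + j) := norm_le h.cond.iso hx
  have e : ∀ n : ℕ, (1 + x) ^ n - 1 = x * ∑ i ∈ Finset.range n, (1 + x) ^ i := by
    intro n
    have := mul_geom_sum (1 + x) n
    rw [add_sub_cancel_left] at this
    exact this.symm
  have e2 : (1 + x) ^ p - 1 - (p : E) * x =
      x * ∑ i ∈ Finset.range p, ((1 + x) ^ i - 1) := by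
    rw [e, Finset.sum_sub_distrib, Finset.sum_const, Finset.card_range, nsmul_eq_mul, mul_one]
    ring
  have h3 : ∀ n : ℕ, ‖∑ i ∈ Finset.range n, (1 + x) ^ i‖ ≤ 1 := by
    intro n
    apply IsUltrametricDist.norm_sum_le_of_forall_le_of_nonneg zero_le_one
    intro i _
    rw [norm_pow, h2, one_pow]
  have h4 : ‖∑ i ∈ Finset.range p, ((1 + x) ^ i - 1)‖ ≤ ‖x‖ := by
    apply IsUltrametricDist.norm_sum_le_of_forall_le_of_nonneg (norm_nonneg _)
    intro i _
    rw [e, norm_mul]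
    exact mul_le_of_le_one_right (norm_nonneg _) (h3 i)
  rw [e2]
  apply h.sq2 _ _ (Nat.le_add_right m j)
  rw [norm_mul, pow_two]
  gcongr
  exact h4.trans hx'

theorem p_mul_mem {j : ℕ} {x : E} :
    (p : E) * x ∈ L p k E (j + 1) ↔ x ∈ L p k E j := by
  have hp1 : (1 : ℝ) < p := by exact_mod_cast hp.out.one_lt
  have hr0 : (0 : ℝ) < (p : ℝ)⁻¹ := by positivity
  have hal : algebraMap k E (p : k) = (p : E) := map_natCast _ _
  rw [mem_L, mem_L]
  apply forall_congr'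
  intro τ
  rw [← hal, co_smul, norm_mul, hal, norm_p p E, pow_succ']
  exact mul_le_mul_iff_right₀ hr0

theorem pow_mem (h : SC p E k m) {j : ℕ} {v : Eˣ} (hv : v ∈ V h.cond j) :
    v ^ p ∈ V h.cond (j + 1) := by
  rw [mem_V] at hv ⊢
  have h1 := pow_sub h hv
  rw [add_sub_cancel] at h1
  have h2 : (p : E) * ((v : E) - 1) ∈ L p k E (m + j + 1) := p_mul_mem.2 hv
  have e : ((v ^ p : Eˣ) : E) - 1 =
      ((v : E) ^ p - 1 - (p : E) * ((v : E) - 1)) + (p : E) * ((v : E) - 1) := by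
    rw [Units.val_pow_eq_pow_val]
    ring
  rw [e]
  exact add_mem (L_anti (Nat.le_succ _) h1) h2

theorem root_step (h : SC p E k m) {j : ℕ} {v : Eˣ} (hv : v ∈ V h.cond (j + 1)) :
    ∃ w ∈ V h.cond j, v / w ^ p ∈ V h.cond (j + 2) := by
  have hpE := p_ne_zero p E
  set x : E := (p : E)⁻¹ * ((v : E) - 1) with hx
  have hpx : (p : E) * x = (v : E) - 1 := mul_inv_cancel_left₀ hpE _
  have hxL : x ∈ L p k E (m + j) := by
    rw [← p_mul_mem, hpx]
    exact hv
  obtain ⟨w, hw, hw'⟩ := exists_unit h.cond hxL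
  refine ⟨w, hw, div_mem_V (pow_mem h hw) ?_⟩
  have h1 := pow_sub h hxL
  have e : (v : E) - (w ^ p : Eˣ) = -((1 + x) ^ p - 1 - (p : E) * x) := by
    rw [Units.val_pow_eq_pow_val, hw', hpx]
    ring
  rw [e]
  exact neg_mem h1

theorem root_all (h : SC p E k m) (n : ℕ) {v : Eˣ} (hv : v ∈ V h.cond 1) :
    ∃ w ∈ V h.cond 0, v / w ^ p ∈ V h.cond (n + 1) := by
  have anti : ∀ i, V h.cond i ≤ V h.cond 0 := by
    intro i
    induction i with
    | zero => exact le_rfl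
    | succ i ih => exact (V_succ_le h.cond i).trans ih
  induction n with
  | zero =>
    exact ⟨1, one_mem _, by rwa [one_pow, div_one]⟩
  | succ n ih =>
    obtain ⟨w, hw, hw'⟩ := ih
    obtain ⟨u, hu, hu'⟩ := root_step h hw'
    refine ⟨w * u, mul_mem hw (anti n hu), ?_⟩
    rwa [mul_pow, ← div_div]

theorem root_V (h : SC p E k m) {v : Eˣ} (hv : v ∈ V h.cond 1) :
    ∃ w ∈ V h.cond 0, w ^ p = v := by
  obtain ⟨M, hM⟩ := root h.cond
  obtain ⟨w, hw, hw'⟩ := root_all h M hv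
  obtain ⟨u, hu, hu'⟩ := hM _ (V_succ_le h.cond M hw')
  refine ⟨w * u, mul_mem hw hu, ?_⟩
  rw [mul_pow, hu', mul_div_cancel]

/-- the coordinate, divided by `p ^ m` -/
def cf (m : ℕ) (x : E) (τ : Gal(E/k)) : k :=
  (IsGalois.normalBasis k E).repr x τ / (p : k) ^ m

omit [IsUltrametricDist E] in
theorem norm_cf (x : E) (τ : Gal(E/k)) :
    ‖cf (p := p) m x τ‖ = ‖co k E τ x‖ * (p : ℝ) ^ m := by
  have h1 : ‖(p : k)‖ = (p : ℝ)⁻¹ := norm_p p k
  rw [cf, norm_div, norm_pow, h1, co_apply, inv_pow, div_inv_eq_mul]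
  rfl

theorem cf_le {x : E} {j : ℕ} :
    x ∈ L p k E (m + j) ↔ ∀ τ : Gal(E/k), ‖cf (p := p) m x τ‖ ≤ (p : ℝ)⁻¹ ^ j := by
  have hp0 : (0 : ℝ) < p := by exact_mod_cast hp.out.pos
  rw [mem_L]
  apply forall_congr'
  intro τ
  rw [norm_cf, pow_add, ← le_div_iff₀ (by positivity), mul_comm, div_eq_mul_inv, inv_pow,
    inv_pow]

omit [IsUltrametricDist E] in
theorem cf_add (x y : E) (τ : Gal(E/k)) :
    cf (p := p) m (x + y) τ = cf (p := p) m x τ + cf (p := p) m y τ := by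
  rw [cf, cf, cf, map_add, Finsupp.add_apply, add_div]

omit [IsUltrametricDist E] in
theorem cf_map (g : Gal(E/k)) (x : E) (τ : Gal(E/k)) :
    cf (p := p) m (g x) τ = cf (p := p) m x (g⁻¹ * τ) := by
  have h1 := co_map k E g τ x
  rw [co_apply, co_apply] at h1
  rw [cf, cf, (algebraMap k E).injective h1]

theorem L_cf {x : E} (hx : x ∈ L p k E m) (τ : Gal(E/k)) : ‖cf (p := p) m x τ‖ ≤ 1 := by
  have h := (cf_le (j := 0)).1 hx τ
  rwa [pow_zero] at h

/-- elements with given coordinates -/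
theorem exists_cf (f : Gal(E/k) → k) (hf : ∀ τ, ‖f τ‖ ≤ 1) :
    ∃ x ∈ L p k E m, ∀ τ, cf (p := p) m x τ = f τ := by
  have hpq : (p : k) ^ m ≠ 0 := pow_ne_zero _ (p_ne_zero p k)
  set x : E := ∑ τ : Gal(E/k), algebraMap k E (f τ * (p : k) ^ m) * τ (th k E) with hx
  have hr : ∀ τ, (IsGalois.normalBasis k E).repr x τ = f τ * (p : k) ^ m := by
    intro τ
    have h1 := co_uniq k E (fun τ => f τ * (p : k) ^ m) τ
    rw [co_apply] at h1
    exact (algebraMap k E).injective h1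
  have hc : ∀ τ, cf (p := p) m x τ = f τ := by
    intro τ
    rw [cf, hr, mul_div_cancel_right₀ _ hpq]
  refine ⟨x, ?_, hc⟩
  have h1 : x ∈ L p k E (m + 0) := by
    rw [cf_le]
    intro τ
    rw [hc, pow_zero]
    exact hf τ
  exact h1

/-- the statement for the fields `E` and `k` -/
theorem abs (p : ℕ) [hp : Fact p.Prime] (E : Type) [NormedField E] [IsUltrametricDist E]
    [NormedAlgebra ℚ_[p] E] [FiniteDimensional ℚ_[p] E] (k : IntermediateField ℚ_[p] E)
    [IsGalois k E] (n : ℕ) (hn : finrank ℚ_[p] k = n) :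
    ∃ U : Subgroup Eˣ,
      (∀ v ∈ U, ‖(v : E)‖ = 1) ∧
      (∀ v ∈ U, ∀ (g : Gal(E/k)) (w : Eˣ), (w : E) = g v → w ∈ U) ∧
      (∃ S : Set Eˣ, S.Finite ∧ ∀ x : Eˣ, ∃ s ∈ S, ∃ v ∈ U, ∃ m : ℤ,
        (x : E) = s * v * (p : E) ^ m) ∧
      (∀ v ∈ U, v ^ p = 1 → v = 1) ∧
      ∃ φ : Eˣ → (Gal(E/k) → Fin n → ZMod p),
        (∀ v ∈ U, ∀ w ∈ U, φ (v * w) = φ v + φ w) ∧
        (∀ f, ∃ v ∈ U, φ v = f) ∧ (∀ v ∈ U, φ v = 0 ↔ ∃ w ∈ U, w ^ p = v) ∧
        ∀ v ∈ U, ∀ (g : Gal(E/k)) (w : Eˣ), (w : E) = g v →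
          ∀ τ, φ w τ = φ v (g⁻¹ * τ) := by
  obtain ⟨m, h⟩ := exists_SC p E k
  have hku : IsUltrametricDist k := inferInstance
  obtain ⟨r, hr1, hr2, hr3⟩ := exists_red p k n hn
  have hr4 : ∀ x ∈ L p k E m, (∀ τ, r (cf (p := p) m x τ) = 0) ↔ x ∈ L p k E (m + 1) := by
    intro x hx
    rw [cf_le]
    apply forall_congr'
    intro τ
    rw [hr3 _ (L_cf hx τ), pow_one]
  refine ⟨V h.cond 0, fun v hv => h.cond.norm_one hv, ?_, ?_, root_one h.cond, ?_⟩
  · intro v hv g w hw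
    have h1 : w = sg g v := Units.ext hw
    rw [h1]
    exact sg_mem h.cond g hv
  · have hfin : Finite (Eˣ ⧸ BB h.cond) :=
      (Subgroup.finiteIndex_iff_finite_quotient).1 ⟨index_BB h.cond⟩
    refine ⟨Set.range (fun q : Eˣ ⧸ BB h.cond => q.out), Set.finite_range _, fun x => ?_⟩
    have h1 : ((x : Eˣ ⧸ BB h.cond)).out⁻¹ * x ∈ BB h.cond := by
      rw [← QuotientGroup.eq, QuotientGroup.out_eq']
    obtain ⟨v, hv, a, ha⟩ := mem_BB.1 h1
    refine ⟨_, ⟨(x : Eˣ ⧸ BB h.cond), rfl⟩, v, hv, a, ?_⟩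
    have h2 : x = (x : Eˣ ⧸ BB h.cond).out * (v * pu p E ^ a) := by
      rw [ha, mul_inv_cancel_left]
    have h3 := congrArg (fun u : Eˣ => (u : E)) h2
    simp only [Units.val_mul, Units.val_zpow_eq_zpow_val] at h3
    rw [mul_assoc]
    exact h3
  · refine ⟨fun v τ => r (cf (p := p) m ((v : E) - 1) τ), ?_, ?_, ?_, ?_⟩
    · intro v hv w hw
      have hv' : (v : E) - 1 ∈ L p k E m := hv
      have hw' : (w : E) - 1 ∈ L p k E m := hw
      have h1 : ((v : E) - 1) * ((w : E) - 1) ∈ L p k E (m + 0 + 1) :=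
        h.cond.sq' (norm_le h.cond.iso hv) (norm_le h.cond.iso hw)
      have h2 : ((v : E) - 1) * ((w : E) - 1) ∈ L p k E m := L_anti (Nat.le_succ _) h1
      funext τ
      change r (cf m (((v * w : Eˣ) : E) - 1) τ) = r (cf m ((v : E) - 1) τ) +
        r (cf m ((w : E) - 1) τ)
      have e : ((v * w : Eˣ) : E) - 1 =
          ((v : E) - 1) + ((w : E) - 1) + ((v : E) - 1) * ((w : E) - 1) := by
        rw [Units.val_mul]; ring
      have e2 := L_cf (add_mem hv' hw') τ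
      rw [e, cf_add, hr1 _ _ e2 (L_cf h2 τ), (hr4 _ h2).2 h1 τ, add_zero, cf_add,
        hr1 _ _ (L_cf hv' τ) (L_cf hw' τ)]
    · intro f
      choose a ha1 ha2 using fun τ => hr2 (f τ)
      obtain ⟨x, hx, hx'⟩ := exists_cf (p := p) (m := m) a ha1
      obtain ⟨v, hv, hv'⟩ := exists_unit h.cond (j := 0) hx
      refine ⟨v, hv, ?_⟩
      funext τ
      change r (cf m ((v : E) - 1) τ) = f τ
      rw [hv', add_sub_cancel_left, hx', ha2]
    · intro v hv
      have hv' : (v : E) - 1 ∈ L p k E m := hv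
      have h1 : (fun τ => r (cf (p := p) m ((v : E) - 1) τ)) = 0 ↔ v ∈ V h.cond 1 := by
        rw [mem_V, ← hr4 _ hv', funext_iff]
        rfl
      rw [h1]
      constructor
      · exact root_V h
      · rintro ⟨w, hw, rfl⟩
        exact pow_mem h hw
    · intro v hv g w hw τ
      change r (cf m ((w : E) - 1) τ) = r (cf m ((v : E) - 1) (g⁻¹ * τ))
      rw [hw, ← cf_map, map_sub, map_one]

end Abs

section Restr

variable {p : ℕ} [hp : Fact p.Prime] {V H : Subgroup (GQ p)}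

theorem mem_fix {x : PadicAlgCl p} :
    x ∈ (IntermediateField.fixedField H : IntermediateField ℚ_[p] (PadicAlgCl p)) ↔
      ∀ h ∈ H, h x = x := IntermediateField.mem_fixedField_iff _ _

theorem map_fix (hn : ∀ v ∈ V, ∀ h ∈ H, v * h * v⁻¹ ∈ H) (v : V) {x : PadicAlgCl p}
    (hx : x ∈ (IntermediateField.fixedField H : IntermediateField ℚ_[p] (PadicAlgCl p))) :
    (v : GQ p) x ∈ (IntermediateField.fixedField H : IntermediateField ℚ_[p] (PadicAlgCl p)) := by
  rw [mem_fix] at hx ⊢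
  intro h hh
  have h1 := hn (v : GQ p)⁻¹ (V.inv_mem v.2) h hh
  rw [inv_inv] at h1
  have h2 : h ((v : GQ p) x) = (v : GQ p) (((v : GQ p)⁻¹ * h * (v : GQ p)) x) := by
    rw [← AlgEquiv.mul_apply, ← AlgEquiv.mul_apply]
    congr 1
    group
  rw [h2, hx _ h1]

/-- the restriction to the fixed field of `H` -/
def rst (hn : ∀ v ∈ V, ∀ h ∈ H, v * h * v⁻¹ ∈ H) :
    V →* ((IntermediateField.fixedField H : IntermediateField ℚ_[p] (PadicAlgCl p)) ≃ₐ[ℚ_[p]]
      (IntermediateField.fixedField H : IntermediateField ℚ_[p] (PadicAlgCl p))) where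
  toFun v :=
    { toFun := fun x => ⟨(v : GQ p) x, map_fix hn v x.2⟩
      invFun := fun x => ⟨((v⁻¹ : V) : GQ p) x, map_fix hn v⁻¹ x.2⟩
      left_inv := by
        intro x
        apply Subtype.ext
        change ((v⁻¹ : V) : GQ p) ((v : GQ p) x) = x
        rw [← AlgEquiv.mul_apply, ← Subgroup.coe_mul, inv_mul_cancel, Subgroup.coe_one,
          AlgEquiv.one_apply]
      right_inv := by
        intro x
        apply Subtype.ext
        change (v : GQ p) (((v⁻¹ : V) : GQ p) x) = x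
        rw [← AlgEquiv.mul_apply, ← Subgroup.coe_mul, mul_inv_cancel, Subgroup.coe_one,
          AlgEquiv.one_apply]
      map_mul' := fun x y => Subtype.ext (map_mul (v : GQ p) _ _)
      map_add' := fun x y => Subtype.ext (map_add (v : GQ p) _ _)
      commutes' := fun r => Subtype.ext ((v : GQ p).commutes r) }
  map_one' := rfl
  map_mul' _ _ := rfl

theorem rst_val (hn : ∀ v ∈ V, ∀ h ∈ H, v * h * v⁻¹ ∈ H) (v : V)
    (x : (IntermediateField.fixedField H : IntermediateField ℚ_[p] (PadicAlgCl p))) :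
    ((rst hn v x : (IntermediateField.fixedField H : IntermediateField ℚ_[p] (PadicAlgCl p))) :
      PadicAlgCl p) = (v : GQ p) x := rfl

end Restr

end LLSPV

open LLSPV BKGen.NormIdx Module in
/-- Module LSPV: the multiplicative group of a finite Galois extension of a finite extension of
`ℚ_p`. -/
theorem stLspV : StLspV := by
  intro p hp V H hV hH hHV hn
  let E : IntermediateField ℚ_[p] (PadicAlgCl p) := IntermediateField.fixedField H
  let F : IntermediateField ℚ_[p] (PadicAlgCl p) := IntermediateField.fixedField V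
  have hfix : E.fixingSubgroup = H := InfiniteGalois.fixingSubgroup_fixedField
    (⟨H, H.isClosed_of_isOpen hH⟩ : ClosedSubgroup (GQ p))
  have hfixF : F.fixingSubgroup = V := InfiniteGalois.fixingSubgroup_fixedField
    (⟨V, V.isClosed_of_isOpen hV⟩ : ClosedSubgroup (GQ p))
  have hmem : ∀ x : PadicAlgCl p, x ∈ E ↔ ∀ h ∈ H, h x = x := fun x =>
    IntermediateField.mem_fixedField_iff _ _
  have hmemF : ∀ x : PadicAlgCl p, x ∈ F ↔ ∀ h ∈ V, h x = x := fun x =>
    IntermediateField.mem_fixedField_iff _ _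
  have hfin : FiniteDimensional ℚ_[p] E := by
    rw [← InfiniteGalois.isOpen_iff_finite, hfix]
    exact hH
  have hFE : F ≤ E := by
    intro x hx
    rw [hmem]
    intro h hh
    exact (hmemF x).1 hx h (hHV hh)
  let ρ : V →* (E ≃ₐ[ℚ_[p]] E) := rst hn
  have hρ : ∀ (v : V) (x : E), ((ρ v x : E) : PadicAlgCl p) = (v : GQ p) x := fun v x => rfl
  let k : IntermediateField ℚ_[p] E := IntermediateField.fixedField ρ.range
  have hfixk : k.fixingSubgroup = ρ.range := IntermediateField.fixingSubgroup_fixedField _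
  have hgal : IsGalois k E := by
    apply IsGalois.of_card_aut_eq_finrank
    rw [IntermediateField.finrank_fixedField_eq_card,
      ← Nat.card_congr (IntermediateField.fixingSubgroupEquiv k).toEquiv, hfixk]
  have hk : k = IntermediateField.restrict hFE := by
    ext x
    rw [IntermediateField.mem_restrict, hmemF]
    change x ∈ IntermediateField.fixedField ρ.range ↔ _
    rw [IntermediateField.mem_fixedField_iff]
    constructor
    · intro h v hv
      have h1 := h (ρ ⟨v, hv⟩) ⟨⟨v, hv⟩, rfl⟩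
      exact congrArg Subtype.val h1
    · rintro h _ ⟨v, rfl⟩
      exact Subtype.ext (h v v.2)
  have hrank : finrank ℚ_[p] k = V.index := by
    rw [hk, ← (IntermediateField.restrictAlgEquiv hFE).toLinearEquiv.finrank_eq,
      IntermediateField.finrank_eq_fixingSubgroup_index, hfixF]
  -- the Galois group
  let ρ1 : V →* Gal(E/k) := (IntermediateField.fixingSubgroupEquiv k).toMonoidHom.comp
    (ρ.codRestrict k.fixingSubgroup (fun v => by rw [hfixk]; exact ⟨v, rfl⟩))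
  have hρ1 : ∀ (v : V) (x : E), ((ρ1 v x : E) : PadicAlgCl p) = (v : GQ p) x := fun v x => rfl
  have hsurj : Function.Surjective ρ1 := by
    intro g
    obtain ⟨⟨g', hg'⟩, rfl⟩ := (IntermediateField.fixingSubgroupEquiv k).surjective g
    have h1 := hg'
    rw [hfixk] at h1
    obtain ⟨v, rfl⟩ := h1
    exact ⟨v, rfl⟩
  have hker : ρ1.ker = H.subgroupOf V := by
    ext v
    rw [MonoidHom.mem_ker, Subgroup.mem_subgroupOf]
    constructor
    · intro h
      rw [← hfix, IntermediateField.mem_fixingSubgroup_iff]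
      intro x hx
      have h1 := DFunLike.congr_fun h ⟨x, hx⟩
      exact congrArg Subtype.val h1
    · intro h
      ext x
      exact (hmem _).1 x.2 _ h
  let e : V ⧸ H.subgroupOf V ≃ Gal(E/k) := (Subgroup.quotientEquivOfEq hker.symm).trans
    (QuotientGroup.quotientKerEquivOfSurjective ρ1 hsurj).toEquiv
  have he0 : ∀ g : V, e (QuotientGroup.mk g) = ρ1 g := fun g => rfl
  have he : ∀ (g : V) (x : E), ((e (QuotientGroup.mk g) x : E) : PadicAlgCl p) = (g : GQ p) x :=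
    fun g x => rfl
  obtain ⟨U, hU1, hU2, ⟨S, hS, hS'⟩, hU4, φ, hφ1, hφ2, hφ3, hφ4⟩ := LLSPV.abs p E k V.index hrank
  let ι : (E : Type)ˣ →* (PadicAlgCl p)ˣ := Units.map ((E.val.toRingHom : E →* PadicAlgCl p))
  have hι : Function.Injective ι := Units.map_injective E.val.toRingHom.injective
  have hιv : ∀ x : (E : Type)ˣ, ((ι x : (PadicAlgCl p)ˣ) : PadicAlgCl p) =
      ((x : E) : PadicAlgCl p) := fun x => rfl
  have hlift : ∀ Y : (PadicAlgCl p)ˣ, (∀ h ∈ H, h (Y : PadicAlgCl p) = Y) → ∃ y, ι y = Y := by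
    intro Y hY
    have h1 : (Y : PadicAlgCl p) ∈ E := (hmem _).2 hY
    have h2 : (⟨Y, h1⟩ : E) ≠ 0 := by
      intro h3
      exact Y.ne_zero (congrArg Subtype.val h3)
    exact ⟨Units.mk0 _ h2, Units.ext rfl⟩
  have hact : ∀ (v : (E : Type)ˣ) (g : V) (w : (PadicAlgCl p)ˣ),
      (w : PadicAlgCl p) = (g : GQ p) (ι v : (PadicAlgCl p)ˣ) →
      ∃ w0 : (E : Type)ˣ, (w0 : E) = e (QuotientGroup.mk g) v ∧ ι w0 = w := by
    intro v g w hw
    refine ⟨sg (e (QuotientGroup.mk g)) v, rfl, ?_⟩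
    apply Units.ext
    rw [hw, hιv, sg_val, he, hιv]
  have hinv : ∀ v, Function.invFun ι (ι v) = v := Function.leftInverse_invFun hι
  refine ⟨U.map ι, ?_, ?_, ?_, ?_, fun v τ => φ (Function.invFun ι v) (e τ), ?_, ?_, ?_, ?_⟩
  · rintro _ ⟨v, hv, rfl⟩
    exact ⟨(hmem _).1 (v : E).2, hU1 v hv⟩
  · rintro _ ⟨v, hv, rfl⟩ g hg w hw
    obtain ⟨w0, hw0, rfl⟩ := hact v ⟨g, hg⟩ w hw
    exact ⟨w0, hU2 v hv _ w0 hw0, rfl⟩
  · refine ⟨ι '' S, hS.image _, fun x hx => ?_⟩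
    obtain ⟨y, rfl⟩ := hlift x hx
    obtain ⟨s, hs, v, hv, m, hm⟩ := hS' y
    refine ⟨ι s, ⟨s, hs, rfl⟩, ι v, ⟨v, hv, rfl⟩, m, ?_⟩
    have h3 := congrArg E.val hm
    rw [map_mul, map_mul, map_zpow₀, map_natCast] at h3
    exact h3
  · rintro _ ⟨v, hv, rfl⟩ h1
    rw [← map_pow] at h1
    have h2 : v ^ p = 1 := hι (by rw [h1, map_one])
    rw [hU4 v hv h2, map_one]
  · rintro _ ⟨v, hv, rfl⟩ _ ⟨w, hw, rfl⟩
    funext τ
    change φ (Function.invFun ι (ι v * ι w)) (e τ) =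
      φ (Function.invFun ι (ι v)) (e τ) + φ (Function.invFun ι (ι w)) (e τ)
    rw [← map_mul, hinv, hinv, hinv, hφ1 v hv w hw, Pi.add_apply]
  · intro f
    obtain ⟨v, hv, hv'⟩ := hφ2 (fun τ => f (e.symm τ))
    refine ⟨ι v, ⟨v, hv, rfl⟩, ?_⟩
    funext τ
    change φ (Function.invFun ι (ι v)) (e τ) = f τ
    rw [hinv, hv']
    exact congrArg f (Equiv.symm_apply_apply e τ)
  · rintro _ ⟨v, hv, rfl⟩
    have h1 : (fun τ => φ (Function.invFun ι (ι v)) (e τ)) = 0 ↔ φ v = 0 := by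
      rw [hinv]
      constructor
      · intro h
        funext τ
        have := congrFun h (e.symm τ)
        rwa [Equiv.apply_symm_apply] at this
      · intro h
        rw [h]
        rfl
    change (fun τ => φ (Function.invFun ι (ι v)) (e τ)) = 0 ↔ _
    rw [h1, hφ3 v hv]
    constructor
    · rintro ⟨w, hw, rfl⟩
      exact ⟨ι w, ⟨w, hw, rfl⟩, (map_pow ι w p).symm⟩
    · rintro ⟨_, ⟨w, hw, rfl⟩, h2⟩
      refine ⟨w, hw, hι ?_⟩
      rw [map_pow, h2]
  · rintro _ ⟨v, hv, rfl⟩ g w hw τ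
    obtain ⟨w0, hw0, rfl⟩ := hact v g w hw
    induction τ using QuotientGroup.induction_on with
    | H t =>
      change φ (Function.invFun ι (ι w0)) (e (QuotientGroup.mk t)) =
        φ (Function.invFun ι (ι v)) (e (QuotientGroup.mk (g⁻¹ * t)))
      rw [hinv, hinv, hφ4 v hv _ w0 hw0, he0, he0, he0, map_mul, map_inv]

end BKT
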