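import Pool.Agent.Lib.MP_7c08ba_nt.T1.StLoc
import Pool.Agent.Lib.MP_7c08ba_nt.Met.LN3
import Pool.Agent.Lib.MP_7c08ba_nt.Odd.L1Top

set_option autoImplicit false

/-!
Module N3V: the order of `H¹(V, N)` for an open subgroup `V` of the Galois group of `ℚ_l`.
-/

noncomputable section

namespace BKT

open BKOdd (GQ chm)
open BKMet (QZ actA cycL)
open BKLoc2
open BKLoc2.N3Aux (index_inf ζ_act exists_mu card_hom Iv card_kum pr ht_prod hq_eq mem_PP hq_prod
  finite_prod hq_int ht_one hq_one norm_gal norm_one_of_sub norm_l norm_zpow_inj ul ul_val ul_fix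
  l_ne bz j_bz card_Iv)

namespace LN3V

variable {p l : ℕ} [hp : Fact p.Prime] [Fact l.Prime] {V : Subgroup (GQ l)}

/-! ### the group acting on units -/

section Units

variable (H : Subgroup V)

/-- the action of the Galois group on units -/
def um (g : V) : (PadicAlgCl l)ˣ →* (PadicAlgCl l)ˣ :=
  Units.map (((g : GQ l) : PadicAlgCl l ≃ₐ[ℚ_[l]] PadicAlgCl l) : PadicAlgCl l →* PadicAlgCl l)

omit hp in
theorem um_val (g : V) (x : (PadicAlgCl l)ˣ) : ((um g x : (PadicAlgCl l)ˣ) : PadicAlgCl l) =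
    (g : GQ l) (x : PadicAlgCl l) := rfl

/-- a group of units which is stable under the Galois group and fixed by `H` -/
structure Stb (W : Subgroup (PadicAlgCl l)ˣ) : Prop where
  st : ∀ g : V, ∀ x ∈ W, um g x ∈ W
  fx : ∀ x ∈ W, ∀ h ∈ H, (h : GQ l) (x : PadicAlgCl l) = x

variable {H} {W : Subgroup (PadicAlgCl l)ˣ}

/-- the action of the Galois group on `W` -/
def act1 (hW : Stb H W) : V →* AddMonoid.End (Additive W) where
  toFun g := MonoidHom.toAdditive (((um g).comp W.subtype).codRestrict W fun x => hW.st g x x.2)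
  map_one' := by
    ext x
    rfl
  map_mul' g h := by
    ext x
    rfl

variable [H.Normal]

/-- the action of the quotient on `W` -/
def act2 (hW : Stb H W) : V ⧸ H →* AddMonoid.End (Additive W) :=
  QuotientGroup.lift H (act1 hW) (by
    intro h hh
    refine DFunLike.ext _ _ fun x => ?_
    apply Additive.toMul.injective
    apply Subtype.ext
    apply Units.ext
    exact hW.fx _ (Additive.toMul x).2 h hh)

omit hp in
theorem act2_val (hW : Stb H W) (g : V) (x : Additive W) :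
    (((Additive.toMul (act2 hW (g : V ⧸ H) x) : W) : (PadicAlgCl l)ˣ) : PadicAlgCl l) =
      (g : GQ l) (((Additive.toMul x : W) : (PadicAlgCl l)ˣ) : PadicAlgCl l) := rfl

variable (H) in
omit [H.Normal] in
/-- the units of the field fixed by `H` -/
def SS : Subgroup (PadicAlgCl l)ˣ where
  carrier := {x | ∀ h ∈ H, (h : GQ l) (x : PadicAlgCl l) = x}
  mul_mem' := by
    intro x y hx hy h hh
    rw [Units.val_mul, map_mul, hx h hh, hy h hh]
  one_mem' := fun h _ => map_one _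
  inv_mem' := by
    intro x hx h hh
    rw [Units.val_inv_eq_inv_val, map_inv₀, hx h hh]

omit hp [H.Normal] in
theorem mem_SS {x : (PadicAlgCl l)ˣ} : x ∈ SS H ↔
    ∀ h ∈ H, (h : GQ l) (x : PadicAlgCl l) = x := Iff.rfl

omit hp in
theorem fx_st {g : V} {x : PadicAlgCl l} (hx : ∀ h ∈ H, (h : GQ l) x = x) :
    ∀ h ∈ H, (h : GQ l) ((g : GQ l) x) = (g : GQ l) x := by
  intro h hh
  have h1 : g⁻¹ * h * g ∈ H := by
    have := ‹H.Normal›.conj_mem h hh g⁻¹
    rwa [inv_inv] at this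
  have h2 : (h : GQ l) ((g : GQ l) x) = (g : GQ l) (((g⁻¹ * h * g : V) : GQ l) x) := by
    have h3 : h * g = g * (g⁻¹ * h * g) := by group
    exact DFunLike.congr_fun (congrArg (fun v : V => (v : GQ l)) h3) x
  rw [h2, hx _ h1]

omit hp in
theorem stb_SS : Stb H (SS H) where
  st := fun _ _ hx => mem_SS.2 (fx_st (mem_SS.1 hx))
  fx := fun _ hx => hx

theorem card_H1 (h1 : StKH) (hV : IsOpen (V : Set (GQ l))) (hH : IsOpen (H : Set V))
    (hpH : ¬ p ∣ H.index)
    {ζ : PadicAlgCl l} (hζ : IsPrimitiveRoot ζ p) (hζH : ∀ h ∈ H, (h : GQ l) ζ = ζ)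
    {N N' : Type} [AddCommGroup N] [AddCommGroup N'] [Finite N] [Finite N']
    {ρ : V →* AddMonoid.End N} {ρ' : V →* AddMonoid.End N'} {b : N →+ N' →+ QZ p}
    (hN : ∀ n : N, p • n = 0) (hN' : ∀ n : N', p • n = 0) (hb : BKLoc2.Pair ((cyL p l).comp V.subtype) ρ ρ' b)
    (hρ : ∀ h ∈ H, ρ h = 1) (hρ' : ∀ h ∈ H, ρ' h = 1) :
    (BKND.B1 ρ).relIndex (BKND.Z1 ρ) =
      hq p (QuotientGroup.lift H ρ' hρ') (act2 (stb_SS (H := H))) := by
  set KR : (V → N) → N' → PadicAlgCl l → Prop := fun x n' a => a ≠ 0 ∧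
    (∀ h ∈ H, V.subtype h a = a) ∧
      ∃ κ : H → ZMod p, BKOdd.IsKum (V.subtype.comp H.subtype) ζ a κ ∧
        ∀ h : H, b (x h) n' = cl p (((κ h).val : ℚ_[p]) / p) with hKR
  have he : Topology.IsOpenEmbedding V.subtype := hV.isOpenEmbedding_subtypeVal
  have hcV : CompactSpace V := BKOdd.L1.compactV he
  have hnV : NonarchimedeanGroup V := BKOdd.L1.nonarchV he
  obtain ⟨k1, k2, k3, k4, k5, k6, k7⟩ := h1 p ℚ_[l] (PadicAlgCl l) V V.subtype
    he ζ hζ H inferInstance hH hpH hζH N N' ρ ρ' b hN hN' hb hρ KR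
    (fun _ _ _ => Iff.rfl)
  have hne : ∀ {x n' a}, KR x n' a → a ≠ 0 := fun h => h.1
  have hfx : ∀ {x n' a}, KR x n' a → ∀ h ∈ H, (h : GQ l) a = a := fun h => h.2.1
  have hpp : ∀ c c' : Additive (SS H), (∃ d : PadicAlgCl l, d ≠ 0 ∧ (∀ h ∈ H, V.subtype h d = d) ∧
      (((Additive.toMul c' : SS H) : (PadicAlgCl l)ˣ) : PadicAlgCl l) =
        ((Additive.toMul c : SS H) : (PadicAlgCl l)ˣ) * d ^ p) ↔
      c' - c ∈ PP p (Additive (SS H)) := by
    intro c c'
    rw [mem_PP]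
    constructor
    · rintro ⟨d, hd, hd', e⟩
      refine ⟨Additive.ofMul ⟨Units.mk0 d hd, hd'⟩, ?_⟩
      rw [eq_sub_iff_add_eq']
      apply Additive.toMul.injective
      apply Subtype.ext
      apply Units.ext
      exact e.symm
    · rintro ⟨d, hd⟩
      refine ⟨((Additive.toMul d : SS H) : (PadicAlgCl l)ˣ), Units.ne_zero _,
        (Additive.toMul d).2, ?_⟩
      rw [eq_sub_iff_add_eq'] at hd
      rw [← hd]
      rfl
  refine card_kum (BKND.Z1 ρ) (BKND.B1 ρ) _ _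
    (fun x n' (c : Additive (SS H)) => KR x n' ((Additive.toMul c : SS H) : (PadicAlgCl l)ˣ))
    ?_ ?_ ?_ ?_ ?_ ?_ ?_
  · intro x hx n'
    obtain ⟨a, ha⟩ := k1 x hx n'
    exact ⟨Additive.ofMul ⟨Units.mk0 a (hne ha), hfx ha⟩, ha⟩
  · intro x hx n' c hc c'
    rw [k2 x hx n' _ hc, ← hpp]
  · intro x hx n' m' c c' hc hc'
    exact k3 x hx n' m' _ _ hc hc'
  · intro x hx n' c d hc
    obtain ⟨v, rfl⟩ := QuotientGroup.mk_surjective d
    exact k4 x hx n' _ v hc
  · intro x hx y hy n' c c' hc hc'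
    exact k5 x hx y hy n' _ _ hc hc'
  · intro x hx
    exact k6 x hx
  · intro A hA1 hA2
    refine k7 (fun n' => ((Additive.toMul (A n') : SS H) : (PadicAlgCl l)ˣ))
      (fun n' => ⟨Units.ne_zero _, (Additive.toMul (A n')).2⟩) (fun n' m' => ?_) fun v n' => ?_
    · obtain ⟨d, -, hd, e⟩ := (hpp _ _).2 (hA1 n' m')
      exact ⟨d, hd, e⟩
    · obtain ⟨d, -, hd, e⟩ := (hpp _ _).2 (hA2 (QuotientGroup.mk v) n')
      exact ⟨d, hd, e⟩

end Units

section Main

variable {H : Subgroup V} [H.Normal] {N' : Type} [AddCommGroup N'] [Finite N']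

theorem main (h2 : StEig) (hi : H.index ≠ 0) (hpH : ¬ p ∣ H.index)
    (hN' : ∀ n : N', p • n = 0) (ρ' : V ⧸ H →* AddMonoid.End N')
    {U : Subgroup (PadicAlgCl l)ˣ} (hU : Stb H U)
    (hU1 : ∀ v ∈ U, ‖(v : PadicAlgCl l)‖ = 1)
    (hS : ∃ S : Set (PadicAlgCl l)ˣ, S.Finite ∧ ∀ x : (PadicAlgCl l)ˣ,
        (∀ h ∈ H, (h : GQ l) (x : PadicAlgCl l) = x) → ∃ s ∈ S, ∃ v ∈ U, ∃ m : ℤ,
        (x : PadicAlgCl l) = s * v * (l : PadicAlgCl l) ^ m)
    (ht' : ∀ v ∈ U, v ^ p = 1 → v = 1) (hf : Finite (Additive U ⧸ PP p (Additive U))) :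
    hq p ρ' (act2 (stb_SS (H := H))) =
      hq p ρ' (act2 hU) * Nat.card (Iv ρ') * ht ρ' (act2 (stb_SS (H := H))) := by
  have hfinΔ : Finite (V ⧸ H) := Nat.finite_of_card_ne_zero hi
  have hcard : ¬ p ∣ Nat.card (V ⧸ H) := hpH
  have hle : U ≤ SS H := fun x hx => mem_SS.2 (hU.fx x hx)
  have hul : ul ∈ SS H := mem_SS.2 fun h _ => ul_fix (h : GQ l)
  let i : Additive U × ℤ →+ Additive (SS H) :=
    AddMonoidHom.coprod (MonoidHom.toAdditive (Subgroup.inclusion hle))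
      (zmultiplesHom (Additive (SS H)) (Additive.ofMul ⟨ul, hul⟩))
  have hiv : ∀ y : Additive U × ℤ, (((Additive.toMul (i y) : SS H) : (PadicAlgCl l)ˣ) :
      PadicAlgCl l) = ((Additive.toMul y.1 : U) : (PadicAlgCl l)ˣ) *
        (l : PadicAlgCl l) ^ y.2 := by
    intro y
    change ((((Subgroup.inclusion hle (Additive.toMul y.1) : SS H) *
      (⟨ul, hul⟩ : SS H) ^ y.2 : SS H) : (PadicAlgCl l)ˣ) : PadicAlgCl l) = _
    rw [Subgroup.coe_mul, Subgroup.coe_zpow, Units.val_mul, Units.val_zpow_eq_zpow_val]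
    rfl
  have hi1 : Function.Injective i := by
    rw [injective_iff_map_eq_zero]
    rintro ⟨v, m⟩ h
    have h3 := hiv (v, m)
    rw [h] at h3
    change (1 : PadicAlgCl l) = _ at h3
    have h4 := congrArg norm h3
    rw [norm_one, norm_mul, hU1 _ (Additive.toMul v).2, one_mul] at h4
    have h5 := norm_zpow_inj h4.symm
    simp only at h5
    subst h5
    rw [zpow_zero, mul_one] at h3
    refine Prod.ext ?_ rfl
    apply Additive.toMul.injective
    apply Subtype.ext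
    apply Units.ext
    exact h3.symm
  have hi2 : ∀ d y, i (pr (act2 hU) (1 : V ⧸ H →* AddMonoid.End ℤ) d y) =
      act2 (stb_SS (H := H)) d (i y) := by
    rintro d ⟨v, m⟩
    obtain ⟨g, rfl⟩ := QuotientGroup.mk_surjective d
    apply Additive.toMul.injective
    apply Subtype.ext
    apply Units.ext
    rw [act2_val, hiv, hiv, map_mul, map_zpow₀, map_natCast]
    rfl
  have hi3 : i.range.index ≠ 0 := by
    obtain ⟨S, hSf, hS⟩ := hS
    classical
    have hfs : Finite S := hSf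
    have hfin : Finite (Additive (SS H) ⧸ i.range) := by
      refine Finite.of_surjective (fun s : S => if h : (s : (PadicAlgCl l)ˣ) ∈ SS H then
        (QuotientAddGroup.mk (Additive.ofMul (⟨s, h⟩ : SS H)) : Additive (SS H) ⧸ i.range)
          else 0) fun x => ?_
      obtain ⟨x, rfl⟩ := QuotientAddGroup.mk_surjective x
      obtain ⟨s, hs, v, hv, m, e⟩ := hS ((Additive.toMul x : SS H) : (PadicAlgCl l)ˣ)
        (Additive.toMul x).2
      have hs' : s ∈ SS H := by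
        have h3 : s = ((Additive.toMul x : SS H) : (PadicAlgCl l)ˣ) * v⁻¹ * (ul ^ m)⁻¹ := by
          rw [eq_mul_inv_iff_mul_eq, eq_mul_inv_iff_mul_eq]
          apply Units.ext
          rw [e, Units.val_mul, Units.val_mul, Units.val_zpow_eq_zpow_val, ul_val]
          ring
        rw [h3]
        exact mul_mem (mul_mem (Additive.toMul x).2 (inv_mem (hle hv)))
          (inv_mem (zpow_mem hul m))
      refine ⟨⟨s, hs⟩, ?_⟩
      simp only [hs', dif_pos]
      rw [QuotientAddGroup.eq]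
      refine ⟨(Additive.ofMul (⟨v, hv⟩ : U), m), ?_⟩
      rw [eq_neg_add_iff_add_eq]
      apply Additive.toMul.injective
      apply Subtype.ext
      apply Units.ext
      change (s : PadicAlgCl l) * (((Additive.toMul (i (Additive.ofMul (⟨v, hv⟩ : U), m)) : SS H) :
        (PadicAlgCl l)ˣ) : PadicAlgCl l) = _
      rw [hiv, e]
      change (s : PadicAlgCl l) * ((v : PadicAlgCl l) * _) = _
      ring
    rw [AddSubgroup.index]
    exact Nat.card_pos.ne'
  have hY : ∀ y : Additive U × ℤ, p • y = 0 → y = 0 := by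
    rintro ⟨v, m⟩ h
    have h3 : p • v = 0 := congrArg Prod.fst h
    have h4 : p • m = 0 := congrArg Prod.snd h
    refine Prod.ext ?_ ?_
    · have h5 := ht' _ (Additive.toMul v).2 (congrArg (fun x : Additive U =>
        ((Additive.toMul x : U) : (PadicAlgCl l)ˣ)) h3)
      apply Additive.toMul.injective
      apply Subtype.ext
      exact h5
    · rw [nsmul_eq_mul, mul_eq_zero] at h4
      rcases h4 with h4 | h4
      · exact absurd h4 (by exact_mod_cast (Fact.out : p.Prime).ne_zero)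
      · exact h4
  have hf2 : Finite (ℤ ⧸ PP p ℤ) := by
    have h3 : NeZero p := ⟨(Fact.out : p.Prime).ne_zero⟩
    refine Finite.of_injective (QuotientAddGroup.lift (PP p ℤ) (Int.castAddHom (ZMod p)) ?_) ?_
    · rintro x ⟨y, rfl⟩
      change ((p • y : ℤ) : ZMod p) = 0
      rw [nsmul_eq_mul, Int.cast_mul, Int.cast_natCast, ZMod.natCast_self, zero_mul]
    · rw [injective_iff_map_eq_zero]
      intro x hx
      obtain ⟨x, rfl⟩ := QuotientAddGroup.mk_surjective x
      change ((x : ℤ) : ZMod p) = 0 at hx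
      rw [ZMod.intCast_zmod_eq_zero_iff_dvd] at hx
      obtain ⟨c, hc⟩ := hx
      rw [QuotientAddGroup.eq_zero_iff]
      exact ⟨c, by rw [hc]; exact nsmul_eq_mul _ _⟩
  have hf3 : Finite {x : Additive (SS H) // p • x = 0} := by
    have h3 : NeZero p := ⟨(Fact.out : p.Prime).ne_zero⟩
    have h4 : Finite (rootsOfUnity p (PadicAlgCl l)) := inferInstance
    refine Finite.of_injective (fun x : {x : Additive (SS H) // p • x = 0} =>
      (⟨((Additive.toMul x.1 : SS H) : (PadicAlgCl l)ˣ), by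
        rw [mem_rootsOfUnity]
        exact congrArg (fun x : Additive (SS H) =>
          ((Additive.toMul x : SS H) : (PadicAlgCl l)ˣ)) x.2⟩ :
        rootsOfUnity p (PadicAlgCl l))) fun x y h => ?_
    apply Subtype.ext
    apply Additive.toMul.injective
    apply Subtype.ext
    exact congrArg (fun z : rootsOfUnity p (PadicAlgCl l) => (z : (PadicAlgCl l)ˣ)) h
  obtain ⟨-, h3⟩ := h2 p (V ⧸ H) hcard N' hN' ρ' (Additive (SS H)) (Additive U × ℤ)
    (act2 (stb_SS (H := H))) (pr (act2 hU) 1) i hi1 hi2 hi3 (finite_prod p hf hf2) hf3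
  rw [ht_one ρ' _ hN' hY, mul_one, hq_prod, hq_int ρ' hN' hcard] at h3
  exact h3

end Main

/-! ### the pairing -/

section Pairing

variable {N N' : Type} [AddCommGroup N] [AddCommGroup N'] [Finite N] [Finite N']
  {ρ : V →* AddMonoid.End N} {ρ' : V →* AddMonoid.End N'} {b : N →+ N' →+ QZ p}
  (hN : ∀ n : N, p • n = 0) (hN' : ∀ n : N', p • n = 0) (hb : BKLoc2.Pair ((cyL p l).comp V.subtype) ρ ρ' b)

include hN hN' hb in
theorem bz_bij : Function.Bijective (bz hN b : N → (N' →+ ZMod p)) ∧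
    Nat.card N = Nat.card N' := by
  have i1 : Function.Injective (bz hN b : N → (N' →+ ZMod p)) := by
    rw [injective_iff_map_eq_zero]
    intro n hn
    refine hb.left n fun n' => ?_
    rw [← j_bz hN, hn, AddMonoidHom.zero_apply]
    rw [← sub_self (0 : ZMod p), PAAux.j_sub, sub_self]
  have i2 : Function.Injective ((bz hN b).flip : N' → (N →+ ZMod p)) := by
    rw [injective_iff_map_eq_zero]
    intro n' hn
    refine hb.right n' fun n => ?_
    have h1 : bz hN b n n' = 0 := DFunLike.congr_fun hn n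
    rw [← j_bz hN, h1]
    rw [← sub_self (0 : ZMod p), PAAux.j_sub, sub_self]
  have f1 : Finite (N' →+ ZMod p) := by
    have h3 : NeZero p := ⟨(Fact.out : p.Prime).ne_zero⟩
    exact Finite.of_injective (fun f : N' →+ ZMod p => (f : N' → ZMod p)) DFunLike.coe_injective
  have f2 : Finite (N →+ ZMod p) := by
    have h3 : NeZero p := ⟨(Fact.out : p.Prime).ne_zero⟩
    exact Finite.of_injective (fun f : N →+ ZMod p => (f : N → ZMod p)) DFunLike.coe_injective
  have c1 := Nat.card_le_card_of_injective _ i1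
  have c2 := Nat.card_le_card_of_injective _ i2
  rw [card_hom N' hN'] at c1
  rw [card_hom N hN] at c2
  have c3 := le_antisymm c1 c2
  exact ⟨i1.bijective_of_nat_card_le (by rw [card_hom N' hN']; exact c2), c3⟩

include hb in
omit [Finite N] [Finite N'] in
theorem bz_eqv (g : V) (n : N) (n' : N') :
    bz hN b (ρ g n) (ρ' g n') = chm (cyL p l) (g : GQ l) * bz hN b n n' := by
  apply PAAux.j_inj
  rw [j_bz hN, hb.eqv, ← j_bz hN]
  exact PAAux.actA_j (χ := cyL p l) (g : GQ l) _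

variable {H : Subgroup V} {ζ : PadicAlgCl l}

/-- the root of unity as an element of `SS H` -/
def zs (hζ : IsPrimitiveRoot ζ p) (hζH : ∀ h ∈ H, (h : GQ l) ζ = ζ) : Additive (SS H) :=
  Additive.ofMul ⟨Units.mk0 ζ (hζ.ne_zero hp.out.ne_zero), hζH⟩

theorem zs_val (hζ : IsPrimitiveRoot ζ p) (hζH : ∀ h ∈ H, (h : GQ l) ζ = ζ) (k : ℕ) :
    (((Additive.toMul (k • zs hζ hζH) : SS H) : (PadicAlgCl l)ˣ) : PadicAlgCl l) = ζ ^ k := rfl

theorem p_zs (hζ : IsPrimitiveRoot ζ p) (hζH : ∀ h ∈ H, (h : GQ l) ζ = ζ) : p • zs hζ hζH = 0 := by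
  apply Additive.toMul.injective
  apply Subtype.ext
  apply Units.ext
  exact hζ.pow_eq_one

/-- the isomorphism of `ℤ/p` with the roots of unity -/
def zt (hζ : IsPrimitiveRoot ζ p) (hζH : ∀ h ∈ H, (h : GQ l) ζ = ζ) : ZMod p →+ Additive (SS H) :=
  ZMod.lift p ⟨zmultiplesHom _ (zs hζ hζH), by
    change (p : ℤ) • zs hζ hζH = 0
    rw [natCast_zsmul, p_zs]⟩

theorem zt_nat (hζ : IsPrimitiveRoot ζ p) (hζH : ∀ h ∈ H, (h : GQ l) ζ = ζ) (k : ℕ) :
    zt hζ hζH (k : ZMod p) = k • zs hζ hζH := by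
  have h1 : ((k : ℤ) : ZMod p) = (k : ZMod p) := by norm_cast
  rw [← h1, zt, ZMod.lift_coe]
  change (k : ℤ) • zs hζ hζH = _
  rw [natCast_zsmul]

theorem zt_val (hζ : IsPrimitiveRoot ζ p) (hζH : ∀ h ∈ H, (h : GQ l) ζ = ζ) (c : ZMod p) :
    (((Additive.toMul (zt hζ hζH c) : SS H) : (PadicAlgCl l)ˣ) : PadicAlgCl l) = ζ ^ c.val := by
  conv_lhs => rw [← ZMod.natCast_zmod_val c, zt_nat]
  rfl

theorem zt_inj (hζ : IsPrimitiveRoot ζ p) (hζH : ∀ h ∈ H, (h : GQ l) ζ = ζ) :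
    Function.Injective (zt hζ hζH) := by
  intro c d h
  have h1 := congrArg (fun x : Additive (SS H) =>
    (((Additive.toMul x : SS H) : (PadicAlgCl l)ˣ) : PadicAlgCl l)) h
  simp only [zt_val] at h1
  exact ZMod.val_injective p (hζ.pow_inj (ZMod.val_lt _) (ZMod.val_lt _) h1)

theorem exists_zt (hζ : IsPrimitiveRoot ζ p) (hζH : ∀ h ∈ H, (h : GQ l) ζ = ζ) {x : Additive (SS H)}
    (hx : p • x = 0) : ∃ c, zt hζ hζH c = x := by
  have h1 : (((Additive.toMul x : SS H) : (PadicAlgCl l)ˣ) : PadicAlgCl l) ^ p = 1 :=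
    congrArg (fun x : Additive (SS H) =>
      (((Additive.toMul x : SS H) : (PadicAlgCl l)ˣ) : PadicAlgCl l)) hx
  have h3 : NeZero p := ⟨(Fact.out : p.Prime).ne_zero⟩
  obtain ⟨i, -, hi⟩ := hζ.eq_pow_of_pow_eq_one h1
  refine ⟨i, ?_⟩
  apply Additive.toMul.injective
  apply Subtype.ext
  apply Units.ext
  rw [zt_nat, zs_val, hi]

theorem act2_zt [H.Normal] (hζ : IsPrimitiveRoot ζ p) (hζH : ∀ h ∈ H, (h : GQ l) ζ = ζ) (g : V)
    (c : ZMod p) : act2 (stb_SS (H := H)) (g : V ⧸ H) (zt hζ hζH c) =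
      zt hζ hζH (chm (cyL p l) (g : GQ l) * c) := by
  apply Additive.toMul.injective
  apply Subtype.ext
  apply Units.ext
  rw [act2_val, zt_val, zt_val, map_pow, ζ_act hζ, ← pow_mul, ZMod.val_mul]
  conv_lhs => rw [← Nat.div_add_mod ((chm (cyL p l) (g : GQ l)).val * c.val) p]
  rw [pow_add, pow_mul, hζ.pow_eq_one, one_pow, one_mul]

include hN hN' hb in
theorem ht_SS [H.Normal] (hζ : IsPrimitiveRoot ζ p) (hζH : ∀ h ∈ H, (h : GQ l) ζ = ζ)
    (hρ' : ∀ h ∈ H, ρ' h = 1) :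
    ht (QuotientGroup.lift H ρ' hρ') (act2 (stb_SS (H := H))) = Nat.card (BKND.H0 ρ) := by
  rw [ht]
  refine (Nat.card_congr (Equiv.ofBijective (fun n : BKND.H0 ρ =>
    (⟨(zt hζ hζH).comp (bz hN b n), fun d n' => ?_⟩ :
    {f : N' →+ Additive (SS H) // ∀ d n', f (QuotientGroup.lift H ρ' hρ' d n') =
      act2 (stb_SS (H := H)) d (f n')})) ⟨?_, ?_⟩)).symm
  · obtain ⟨g, rfl⟩ := QuotientGroup.mk_surjective d
    change zt hζ hζH (bz hN b n (ρ' g n')) = act2 _ (g : V ⧸ H) (zt hζ hζH (bz hN b n n'))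
    rw [act2_zt, ← bz_eqv hN hb]
    have h1 : ρ g (n : N) = n := n.2 g
    rw [h1]
  · intro n m h
    apply Subtype.ext
    apply (bz_bij hN hN' hb).1.1
    ext n'
    apply zt_inj hζ hζH
    exact DFunLike.congr_fun (congrArg Subtype.val h) n'
  · rintro ⟨F, hF⟩
    have h1 : ∀ n', ∃ c, zt hζ hζH c = F n' := fun n' => exists_zt hζ hζH (by
      rw [← map_nsmul, hN', map_zero])
    choose f hf using h1
    let f' : N' →+ ZMod p := AddMonoidHom.mk' f (by
      intro x y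
      apply zt_inj hζ hζH
      rw [map_add, hf, hf, hf, map_add])
    obtain ⟨n, hn⟩ := (bz_bij hN hN' hb).1.2 f'
    have hn' : ∀ n', bz hN b n n' = f n' := fun n' => DFunLike.congr_fun hn n'
    refine ⟨⟨n, fun g => ?_⟩, ?_⟩
    · apply (bz_bij hN hN' hb).1.1
      ext n'
      have h2 : n' = ρ' g (ρ' g⁻¹ n') := by
        change n' = (ρ' g * ρ' g⁻¹) n'
        rw [← map_mul, mul_inv_cancel, map_one]
        rfl
      rw [h2, bz_eqv hN hb, hn', hn']
      apply zt_inj hζ hζH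
      rw [← act2_zt, hf, hf]
      exact (hF (g : V ⧸ H) _).symm
    · apply Subtype.ext
      refine DFunLike.ext _ _ fun n' => ?_
      change zt hζ hζH (bz hN b n n') = F n'
      rw [hn', hf]


end Pairing

/-! ### the regular representation -/

section Reg

variable {Δ N : Type} [Group Δ] [AddCommGroup N] [Finite N]

/-- the action on vectors of functions -/
def reg (p m : ℕ) (Δ : Type) [Group Δ] : Δ →* AddMonoid.End (Δ → Fin m → ZMod p) where
  toFun d :=
    { toFun := fun f τ => f (d⁻¹ * τ)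
      map_zero' := rfl
      map_add' := fun _ _ => rfl }
  map_one' := by
    refine DFunLike.ext _ _ fun f => ?_
    funext τ
    change f (1⁻¹ * τ) = f τ
    rw [inv_one, one_mul]
  map_mul' d d' := by
    refine DFunLike.ext _ _ fun f => ?_
    funext τ
    change f ((d * d')⁻¹ * τ) = f (d'⁻¹ * (d⁻¹ * τ))
    rw [mul_inv_rev, mul_assoc]

theorem ht_reg (hN : ∀ n : N, p • n = 0) (ρ : Δ →* AddMonoid.End N) (m : ℕ) :
    ht ρ (reg p m Δ) = Nat.card N ^ m := by
  have E : {f : N →+ (Δ → Fin m → ZMod p) // ∀ d n, f (ρ d n) = reg p m Δ d (f n)} ≃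
      (Fin m → (N →+ ZMod p)) :=
    { toFun := fun f j => AddMonoidHom.mk' (fun n => f.1 n 1 j) (by
        intro x y
        rw [map_add]
        rfl)
      invFun := fun g => ⟨AddMonoidHom.mk' (fun n τ j => g j (ρ τ⁻¹ n)) (by
        intro x y
        funext τ j
        change g j (ρ τ⁻¹ (x + y)) = g j (ρ τ⁻¹ x) + g j (ρ τ⁻¹ y)
        rw [map_add, map_add]), by
        intro d n
        funext τ j
        change g j (ρ τ⁻¹ (ρ d n)) = g j (ρ (d⁻¹ * τ)⁻¹ n)
        rw [mul_inv_rev, inv_inv, map_mul]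
        rfl⟩
      left_inv := by
        rintro ⟨f, hf⟩
        apply Subtype.ext
        refine DFunLike.ext _ _ fun n => ?_
        funext τ j
        change f (ρ τ⁻¹ n) 1 j = f n τ j
        rw [hf]
        change f n ((τ⁻¹)⁻¹ * 1) j = f n τ j
        rw [inv_inv, mul_one]
      right_inv := by
        intro g
        funext j
        refine DFunLike.ext _ _ fun n => ?_
        change g j (ρ 1⁻¹ n) = g j n
        rw [inv_one, map_one]
        rfl }
  have h1 : Nat.card (Fin m) = m := by simp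
  rw [ht, Nat.card_congr E, Nat.card_fun, card_hom N hN, h1]

end Reg

/-! ### a common kernel -/

theorem exists_H (hV : IsOpen (V : Set (GQ l))) {N N' : Type} [AddCommGroup N] [AddCommGroup N']
    {ρ : V →* AddMonoid.End N} {ρ' : V →* AddMonoid.End N'} (hρ : Tame p ρ)
    (hρ' : Tame p ρ') {ζ : PadicAlgCl l} (hζ : IsPrimitiveRoot ζ p) :
    ∃ H : Subgroup (GQ l), H ≤ V ∧ IsOpen (H : Set (GQ l)) ∧
      (∀ v ∈ V, ∀ h ∈ H, v * h * v⁻¹ ∈ H) ∧ (H.subgroupOf V).Normal ∧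
      IsOpen ((H.subgroupOf V : Subgroup V) : Set V) ∧ (H.subgroupOf V).index ≠ 0 ∧
      ¬ p ∣ (H.subgroupOf V).index ∧
      (∀ h ∈ H.subgroupOf V, (h : GQ l) ζ = ζ) ∧ (∀ h ∈ H.subgroupOf V, ρ h = 1) ∧
      ∀ h ∈ H.subgroupOf V, ρ' h = 1 := by
  obtain ⟨H1, n1, o1, i1, d1, r1⟩ := hρ
  obtain ⟨H2, n2, o2, i2, d2, r2⟩ := hρ'
  obtain ⟨H3, n3, o3, i3, d3, r3⟩ := exists_mu hζ
  have hdvd : (H3.subgroupOf V).index ∣ H3.index := Subgroup.relIndex_dvd_index_of_normal H3 V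
  have i3' : (H3.subgroupOf V).index ≠ 0 := ne_zero_of_dvd_ne_zero i3 hdvd
  have d3' : ¬ p ∣ (H3.subgroupOf V).index := fun h => d3 (h.trans hdvd)
  have o3' : IsOpen ((H3.subgroupOf V : Subgroup V) : Set V) :=
    o3.preimage continuous_subtype_val
  obtain ⟨i4, d4⟩ := index_inf H1 H2 i1 d1 i2 d2
  obtain ⟨i5, d5⟩ := index_inf (H1 ⊓ H2) (H3.subgroupOf V) i4 d4 i3' d3'
  obtain ⟨K, nK, oK, iK, dK, k1, k2, k3⟩ : ∃ K : Subgroup V, K.Normal ∧ IsOpen (K : Set V) ∧
      K.index ≠ 0 ∧ ¬ p ∣ K.index ∧ (∀ h ∈ K, (h : GQ l) ζ = ζ) ∧ (∀ h ∈ K, ρ h = 1) ∧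
      ∀ h ∈ K, ρ' h = 1 := by
    refine ⟨H1 ⊓ H2 ⊓ H3.subgroupOf V, inferInstance, ?_, i5, d5, fun h hh => r3 h hh.2,
      fun h hh => r1 h hh.1.1, fun h hh => r2 h hh.1.2⟩
    rw [Subgroup.coe_inf, Subgroup.coe_inf]
    exact (o1.inter o2).inter o3'
  have hsub : (K.map V.subtype).subgroupOf V = K :=
    Subgroup.comap_map_eq_self_of_injective V.subtype_injective K
  refine ⟨K.map V.subtype, ?_, ?_, ?_, ?_⟩
  · rintro _ ⟨v, -, rfl⟩
    exact v.2
  · have h1 : ((K.map V.subtype : Subgroup (GQ l)) : Set (GQ l)) = Subtype.val '' (K : Set V) :=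
      rfl
    rw [h1]
    exact hV.isOpenMap_subtype_val _ oK
  · intro v hv x hx
    obtain ⟨h, hh, e⟩ := Subgroup.mem_map.1 hx
    have h2 := nK.conj_mem h hh (⟨v, hv⟩ : V)
    refine Subgroup.mem_map.2 ⟨_, h2, ?_⟩
    rw [map_mul, map_mul, map_inv, e]
    rfl
  · rw [hsub]
    exact ⟨nK, oK, iK, dK, k1, k2, k3⟩

end LN3V

open LN3V in
/-- Module N3V. -/
theorem stN3V (h1 : StKH) (h2 : StEig) (h4 : StLsT) (h5 : StLspV) : StN3V := by
  intro p l _ _ _ V hV N N' _ _ _ _ ρ ρ' b hN hN' hρ hρ' hb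
  replace hb : BKLoc2.Pair ((cyL p l).comp V.subtype) ρ ρ' b := hb
  obtain ⟨ζ, hζ⟩ : ∃ ζ : PadicAlgCl l, IsPrimitiveRoot ζ p := by
    have h3 : NeZero (p : PadicAlgCl l) :=
      ⟨by exact_mod_cast (Fact.out : p.Prime).ne_zero⟩
    exact HasEnoughRootsOfUnity.exists_primitiveRoot _ _
  obtain ⟨H', hle, hHo', hconj, hHn, hHo, hi, hpH, hζH, r1, r2⟩ := exists_H hV hρ hρ' hζ
  have hfx : ∀ x : PadicAlgCl l, (∀ h ∈ H', h x = x) ↔
      ∀ h ∈ H'.subgroupOf V, (h : GQ l) x = x := by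
    intro x
    constructor
    · intro h v hv
      exact h v hv
    · intro h v hv
      exact h ⟨v, hle hv⟩ hv
  have hfinΔ : Finite (V ⧸ H'.subgroupOf V) := Nat.finite_of_card_ne_zero hi
  rw [card_H1 h1 hV hHo hpH hζ hζH hN hN' hb r1 r2]
  by_cases hl : l = p
  · subst hl
    rw [if_pos rfl]
    obtain ⟨U, hU1, hU2, hS, ht', φ, f1, f2, f3, f4⟩ := h5 l V H' hV hHo' hle hconj
    have hU : Stb (H'.subgroupOf V) U :=
      ⟨fun g x hx => hU2 x hx g g.2 _ rfl, fun x hx => (hfx _).1 (hU1 x hx).1⟩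
    let φ' : Additive U →+ (V ⧸ H'.subgroupOf V → Fin V.index → ZMod l) := AddMonoidHom.mk'
      (fun v => φ ((Additive.toMul v : U) : (PadicAlgCl l)ˣ))
      (fun v w => f1 _ (Additive.toMul v).2 _ (Additive.toMul w).2)
    have e1 : Function.Surjective φ' := by
      intro f
      obtain ⟨v, hv, e⟩ := f2 f
      exact ⟨Additive.ofMul ⟨v, hv⟩, e⟩
    have e2 : ∀ x, φ' x = 0 ↔ x ∈ PP l (Additive U) := by
      intro x
      rw [mem_PP]
      refine (f3 _ (Additive.toMul x).2).trans ?_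
      constructor
      · rintro ⟨w, hw, e⟩
        refine ⟨Additive.ofMul ⟨w, hw⟩, ?_⟩
        apply Additive.toMul.injective
        apply Subtype.ext
        exact e
      · rintro ⟨w, rfl⟩
        exact ⟨_, (Additive.toMul w).2, rfl⟩
    have e3 : ∀ d x, φ' (act2 hU d x) = reg l V.index (V ⧸ H'.subgroupOf V) d (φ' x) := by
      intro d x
      obtain ⟨g, rfl⟩ := QuotientGroup.mk_surjective d
      funext τ
      refine (f4 _ (Additive.toMul x).2 g _ rfl τ).trans ?_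
      change φ' x (g⁻¹ • τ) = φ' x ((g : V ⧸ H'.subgroupOf V)⁻¹ * τ)
      obtain ⟨t, rfl⟩ := QuotientGroup.mk_surjective τ
      rfl
    have hfin : Finite (Additive U ⧸ PP l (Additive U)) := by
      have h6 : NeZero l := ⟨(Fact.out : l.Prime).ne_zero⟩
      refine Finite.of_injective (QuotientAddGroup.lift (PP l (Additive U)) φ'
        fun x hx => (e2 x).2 hx) ?_
      rw [injective_iff_map_eq_zero]
      intro x hx
      obtain ⟨x, rfl⟩ := QuotientAddGroup.mk_surjective x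
      exact (QuotientAddGroup.eq_zero_iff x).2 ((e2 x).1 hx)
    have hS' : ∃ S : Set (PadicAlgCl l)ˣ, S.Finite ∧ ∀ x : (PadicAlgCl l)ˣ,
        (∀ h ∈ H'.subgroupOf V, (h : GQ l) (x : PadicAlgCl l) = x) → ∃ s ∈ S, ∃ v ∈ U, ∃ m : ℤ,
        (x : PadicAlgCl l) = s * v * (l : PadicAlgCl l) ^ m := by
      obtain ⟨S, hSf, hS⟩ := hS
      exact ⟨S, hSf, fun x hx => hS x ((hfx _).2 hx)⟩
    rw [main h2 hi hpH hN' _ hU (fun v hv => (hU1 v hv).2) hS' ht' hfin,
      hq_eq _ _ l φ' e1 e2 _ e3, ht_reg hN', ht_SS hN hN' hb hζ hζH r2, card_Iv r2,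
      (bz_bij hN hN' hb).2]
    ring
  · rw [if_neg hl]
    obtain ⟨U, hU1, hS, hd, ht'⟩ := h4 p l hl H' hHo'
    have hU : Stb (H'.subgroupOf V) U := by
      refine ⟨fun g x hx => ?_, fun x hx => (hfx _).1 ((hU1 x).1 hx).1⟩
      obtain ⟨h6, h7⟩ := (hU1 x).1 hx
      refine (hU1 _).2 ⟨(hfx _).2 (fx_st ((hfx _).1 h6)), ?_⟩
      have h8 : (g : GQ l) (x : PadicAlgCl l) - 1 = (g : GQ l) ((x : PadicAlgCl l) - 1) := by
        rw [map_sub, map_one]
      rw [um_val, h8, norm_gal]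
      exact h7
    have hdiv : ∀ x : Additive U, ∃ y, p • y = x := by
      intro x
      obtain ⟨w, hw, e⟩ := hd _ (Additive.toMul x).2
      refine ⟨Additive.ofMul ⟨w, hw⟩, ?_⟩
      apply Additive.toMul.injective
      apply Subtype.ext
      exact e
    have hfin : Finite (Additive U ⧸ PP p (Additive U)) := by
      have : Subsingleton (Additive U ⧸ PP p (Additive U)) := by
        refine ⟨fun x y => ?_⟩
        obtain ⟨x, rfl⟩ := QuotientAddGroup.mk_surjective x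
        obtain ⟨y, rfl⟩ := QuotientAddGroup.mk_surjective y
        rw [QuotientAddGroup.eq]
        exact hdiv _
      infer_instance
    have hS' : ∃ S : Set (PadicAlgCl l)ˣ, S.Finite ∧ ∀ x : (PadicAlgCl l)ˣ,
        (∀ h ∈ H'.subgroupOf V, (h : GQ l) (x : PadicAlgCl l) = x) → ∃ s ∈ S, ∃ v ∈ U, ∃ m : ℤ,
        (x : PadicAlgCl l) = s * v * (l : PadicAlgCl l) ^ m := by
      obtain ⟨S, hSf, hS⟩ := hS
      exact ⟨S, hSf, fun x hx => hS x ((hfx _).2 hx)⟩
    rw [main h2 hi hpH hN' _ hU (fun v hv => norm_one_of_sub ((hU1 v).1 hv).2) hS' ht' hfin,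
      hq_one _ _ hdiv, ht_SS hN hN' hb hζ hζH r2, card_Iv r2]
    ring

end BKT
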