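import Pool.Agent.Lib.MP_7c08ba_nt.T1.LCRV
import Pool.Agent.Lib.MP_7c08ba_nt.Met.LN4

set_option autoImplicit false

/-!
Parity for general residual representations, local part, module N4V: duality `H²(N) × H⁰(N')` for
tame modules over an open subgroup of index prime to `p`.
-/

noncomputable section

namespace BKT

open BKPar (Loc1 Loc2)
open BKND (Sm)
open BKMet
open BKOdd (chm nonarch_subgroup)

namespace LN4V

open BKLoc2 LCRV

/-- the transfer sends coboundaries to coboundaries -/
theorem cor_B2 {p : ℕ} [Fact p.Prime] {G : Type} [Group G] [TopologicalSpace G]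
    [IsTopologicalGroup G] [NonarchimedeanGroup G] (H : Subgroup G) (ho : IsOpen (H : Set G))
    (hfin : Finite (G ⧸ H)) (χ : G →* ℤ_[p]ˣ) :
    ∀ w ∈ BKND.B2 (actA (χ.comp H.subtype)), corHom H χ w ∈ BKND.B2 (actA χ) := by
  have hsm : BKND.Sm (trivZ G) := ⟨⊤, isOpen_univ, fun _ _ => rfl⟩
  obtain ⟨-, -, h3, -, -, -⟩ := stTRM G H ho hfin (QZ p) ℤ (QZ p) (actA χ)
    (trivZ G) (actA χ) (bZ p) hsm (fun n => ⟨⊤, isOpen_univ, fun _ _ => rfl⟩) (by
      intro g n n'
      change n' • actA χ g n = actA χ g (n' • n)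
      rw [map_zsmul])
  exact h3

/-- if the index is prime to `p` then the restriction is injective on the classes killed by `p` -/
theorem res_B2 {p : ℕ} [hp : Fact p.Prime] {G : Type} [Group G] [TopologicalSpace G]
    [IsTopologicalGroup G] [NonarchimedeanGroup G] (H : Subgroup G) (ho : IsOpen (H : Set G))
    (hfin : Finite (G ⧸ H)) (hd : ¬ p ∣ H.index) (χ : G →* ℤ_[p]ˣ) {α : G → G → QZ p}
    (hα : α ∈ BKND.Z2 (actA χ)) (hpα : p • α = 0)
    (hc : corHom H χ (fun g h : H => α g h) ∈ BKND.B2 (actA χ)) : α ∈ BKND.B2 (actA χ) := by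
  have h3 := cor_res H ho hfin χ hα
  have h4 : H.index • α ∈ BKND.B2 (actA χ) := by
    have := sub_mem hc h3
    rw [corHom_apply, sub_sub_cancel] at this
    exact this
  have hco : Nat.Coprime H.index p := ((Nat.Prime.coprime_iff_not_dvd hp.out).2 hd).symm
  obtain ⟨e, -, he⟩ := Nat.exists_mul_mod_eq_one_of_coprime hco hp.out.one_lt
  have h6 : (H.index * e) • α = α := by
    have h7 := Nat.div_add_mod (H.index * e) p
    rw [he] at h7
    rw [← h7, add_smul, one_smul, mul_comm, mul_smul, hpα, smul_zero, zero_add]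
  rw [← h6, mul_comm, mul_smul]
  exact nsmul_mem h4 e

/-- the transfer from a subgroup of index prime to `p` is injective on `H²(H, 𝔽_p(χ))` -/
theorem inj_cor (p l : ℕ) [hp : Fact p.Prime] [Fact l.Prime] (hp2 : p ≠ 2) (V : Subgroup (GQ l))
    (hV : IsOpen (V : Set (GQ l))) (hVi : ¬ p ∣ V.index) (H : Subgroup V) [hfH : Finite (V ⧸ H)]
    (hH : IsOpen (H : Set V)) (hHi : ¬ p ∣ H.index) (w : H → H → ZMod p)
    (hw : w ∈ CC.Z2 (chm (((cyL p l).comp V.subtype).comp H.subtype)))
    (hcw : corHom H ((cyL p l).comp V.subtype) (im w) ∈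
      BKND.B2 (actA ((cyL p l).comp V.subtype))) :
    w ∈ CC.B2 (chm (((cyL p l).comp V.subtype).comp H.subtype)) := by
  obtain ⟨z1, hz1⟩ := N4Aux.exists_sys p (PadicAlgCl l)
  have hχ : Continuous (cyL p l) :=
    (stKPE p ℚ_[l] (PadicAlgCl l) (GQ l) (MonoidHom.id _) (N4Aux.open_id _).continuous z1 hz1).1
  have cV : CompactSpace V := isCompact_iff_compactSpace.1 (V.isClosed_of_isOpen hV).isCompact
  have nV : NonarchimedeanGroup V := nonarch_subgroup V
  have cH : CompactSpace H := isCompact_iff_compactSpace.1 (H.isClosed_of_isOpen hH).isCompact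
  have nH : NonarchimedeanGroup H := nonarch_subgroup H
  have hfV : Finite (GQ l ⧸ V) := V.quotient_finite_of_isOpen hV
  have hχV : Continuous ((cyL p l).comp V.subtype) := hχ.comp continuous_subtype_val
  have hχH : Continuous (((cyL p l).comp V.subtype).comp H.subtype) :=
    hχV.comp continuous_subtype_val
  obtain ⟨-, -, a3, -, -⟩ := stPA p H (((cyL p l).comp V.subtype).comp H.subtype) hχH
  obtain ⟨-, v2, -, -, -⟩ := stPA p V ((cyL p l).comp V.subtype) hχV
  obtain ⟨-, b2, b3, b4, -⟩ := stPA p (GQ l) (cyL p l) hχ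
  obtain ⟨z₀, hz₀, hz₀B⟩ := exists_ne_B2 aInvL stPA stKPE stSC stLam p l hp2
  have hα₀ : im z₀ ∈ BKND.Z2 (actA (cyL p l)) := b2 z₀ hz₀
  have hresV : (fun g h : V => z₀ g h) ∈ CC.Z2 (chm ((cyL p l).comp V.subtype)) := by
    refine ⟨?_, fun a b c => hz₀.2 a b c⟩
    exact hz₀.1.comp (continuous_subtype_val.prodMap continuous_subtype_val)
  have hresH : (fun g h : H => z₀ (g : V) (h : V)) ∈
      CC.Z2 (chm (((cyL p l).comp V.subtype).comp H.subtype)) := by
    refine ⟨?_, fun a b c => hz₀.2 (a : V) (b : V) (c : V)⟩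
    exact hresV.1.comp (continuous_subtype_val.prodMap continuous_subtype_val)
  by_contra hwB
  have hem : Topology.IsOpenEmbedding (V.subtype.comp H.subtype) :=
    hV.isOpenEmbedding_subtypeVal.comp hH.isOpenEmbedding_subtypeVal
  obtain ⟨a, ha⟩ := aLnX p l hp2 H (V.subtype.comp H.subtype) hem w hw _ hresH hwB
  have h1 := cor_B2 H hH hfH ((cyL p l).comp V.subtype) _ (a3 _ ha)
  have e1 : im ((fun g h : H => z₀ (g : V) (h : V)) - a • w) =
      (fun g h : H => im z₀ (g : V) (h : V)) - a.val • im w := by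
    funext g h
    change PAAux.j (z₀ (g : V) (h : V) - a * w g h) =
      PAAux.j (z₀ (g : V) (h : V)) - a.val • PAAux.j (w g h)
    rw [PAAux.j_sub, N5Aux.j_mul]
  rw [e1, map_sub, map_nsmul] at h1
  have h2 : corHom H ((cyL p l).comp V.subtype) (fun g h : H => im z₀ (g : V) (h : V)) ∈
      BKND.B2 (actA ((cyL p l).comp V.subtype)) := by
    have := add_mem h1 (nsmul_mem hcw a.val)
    rwa [sub_add_cancel] at this
  have hVZ : (fun g h : V => im z₀ (g : GQ l) (h : GQ l)) ∈
      BKND.Z2 (actA ((cyL p l).comp V.subtype)) := v2 _ hresV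
  have hpV : p • (fun g h : V => im z₀ (g : GQ l) (h : GQ l)) = 0 := by
    funext g h
    exact PAAux.p_smul_j _
  have h3 : (fun g h : V => im z₀ (g : GQ l) (h : GQ l)) ∈
      BKND.B2 (actA ((cyL p l).comp V.subtype)) := res_B2 H hH hfH hHi _ hVZ hpV h2
  have hpG : p • im z₀ = 0 := by
    funext g h
    exact PAAux.p_smul_j _
  have h4 : im z₀ ∈ BKND.B2 (actA (cyL p l)) :=
    res_B2 V hV hfV hVi _ hα₀ hpG (cor_B2 V hV hfV (cyL p l) _ h3)
  exact hz₀B (b4 (N4Aux.div_Z1 aZ1A stKPE p l) z₀ hz₀ h4)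

end LN4V

open LN4V LCRV BKLoc2 N4Aux in
/-- Module N4V: `H²(N) × H⁰(N')` over an open subgroup of index prime to `p`. -/
theorem stN4V : StN4V := by
  intro p l hp _ hp2 V hV hVi N N' _ _ _ _ ρ ρ' b hN hN' hT hT' hP α hα hα0
  obtain ⟨z, hz⟩ := exists_sys p (PadicAlgCl l)
  have hχ0 : Continuous (cyL p l) :=
    (stKPE p ℚ_[l] (PadicAlgCl l) (GQ l) (MonoidHom.id _) (open_id _).continuous z hz).1
  have cV : CompactSpace V := isCompact_iff_compactSpace.1 (V.isClosed_of_isOpen hV).isCompact
  have nV : NonarchimedeanGroup V := nonarch_subgroup V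
  have hχ : Continuous ((cyL p l).comp V.subtype) := hχ0.comp continuous_subtype_val
  obtain ⟨H, hn, ho, hd, hρ, hρ', hc⟩ := exists_H hχ hT hT'
  have hfin : Finite (V ⧸ H) := H.quotient_finite_of_isOpen ho
  have cH : CompactSpace H := isCompact_iff_compactSpace.1 (H.isClosed_of_isOpen ho).isCompact
  have nH : NonarchimedeanGroup H := nonarch_subgroup H
  have hSm : BKND.Sm ρ := ⟨H, ho, hρ⟩
  have hSm' : BKND.Sm ρ' := ⟨H, ho, hρ'⟩
  have hTR := stTRM V H ho hfin N N' (QZ p) ρ ρ' (actA ((cyL p l).comp V.subtype)) b hSm'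
    (fun n' => ⟨H, ho, fun w hw => by rw [hρ' w hw]; rfl⟩) hP.eqv
  have hpb : ∀ n n', p • b n n' = 0 := by
    intro n n'
    rw [← map_nsmul, hN', map_zero]
  have hch1 : chm (((cyL p l).comp V.subtype).comp H.subtype) = 1 := by
    ext h
    exact hc h h.2
  have key : ∀ n' : N', (fun g h : H => PAAux.t (b (α g h) n')) ∈ CC.B2 (1 : H →* ZMod p) := by
    intro n'
    set w0 : H → H → ZMod p := fun g h => PAAux.t (b (α g h) n') with hw0
    have hj : ∀ g h : H, PAAux.j (w0 g h) = b (α g h) n' := fun g h => PAAux.j_t (hpb _ _)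
    have hz0 : w0 ∈ CC.Z2 (1 : H →* ZMod p) := by
      refine ⟨BKOdd.Conv.cont2_iff.2 ?_, fun g h k => ?_⟩
      · obtain ⟨W, hW, hW'⟩ := hα.1
        refine ⟨W.subgroupOf H, hW.preimage continuous_subtype_val,
          fun g h w hw w' hw' => ?_⟩
        change PAAux.t (b (α ((g : V) * w) ((h : V) * w')) n') = _
        rw [hW' _ _ _ (Subgroup.mem_subgroupOf.1 hw) _ (Subgroup.mem_subgroupOf.1 hw')]
      · apply PAAux.j_inj
        rw [MonoidHom.one_apply, one_mul, PAAux.j_add, PAAux.j_add, hj, hj, hj, hj]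
        have h6 := hα.2 (g : V) (h : V) (k : V)
        rw [hρ _ g.2] at h6
        have h7 : α (h : V) k + α (g : V) ((h : V) * k) =
            α ((g : V) * h) k + α (g : V) h := by
          rw [← sub_eq_zero, ← h6]
          change _ = α (h : V) k - _ + _ - _
          abel
        have h8 := congrArg (fun x => b x n') h7
        simp only [map_add, AddMonoidHom.add_apply] at h8
        exact h8
    have hs0 : (∑ᶠ q : V ⧸ H, ρ' q.out n') ∈ BKND.H0 ρ' := by
      have hF : Fintype (V ⧸ H) := Fintype.ofFinite _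
      intro g
      rw [finsum_eq_sum_of_fintype, map_sum,
        ← TRMAux.sum_smul_eq H g (fun q => ρ' q.out n')]
      refine Finset.sum_congr rfl fun q _ => ?_
      have h6 := TRMAux.a_hh H ρ' g q n'
      rw [hρ' _ (BKOdd.hh H g q).2] at h6
      exact h6.symm
    have h8 := hα0 _ hs0
    have h9 := hTR.2.2.2.2.1 α hα n' (fun h hh => by rw [hρ' h hh]; rfl)
    have h10 := (BKND.B2 (actA ((cyL p l).comp V.subtype))).add_mem h9 h8
    rw [sub_add_cancel] at h10
    have h11 : corHom H ((cyL p l).comp V.subtype) (im w0) ∈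
        BKND.B2 (actA ((cyL p l).comp V.subtype)) := by
      have e1 : im w0 = fun g h : H => b (α g h) n' := by
        funext g h
        exact hj g h
      rw [e1, corHom_apply]
      exact h10
    have h12 := inj_cor p l hp2 V hV hVi H ho hd w0 (by rw [hch1]; exact hz0) h11
    rw [hch1] at h12
    exact h12
  obtain ⟨d, e, e', he⟩ := exists_dual hN hN' b hP.left hP.right
  choose f hf hf' using fun i => key (e' i)
  have hres : (fun g h : H => α g h) ∈ BKND.B2 (ρ.comp H.subtype) := by
    refine ⟨fun h => ∑ i, (f i h).val • e i, ?_, fun g h => ?_⟩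
    · have h6 : IsLocallyConstant (fun (h : H) (i : Fin d) => f i h) :=
        (IsLocallyConstant.iff_continuous _).2 (continuous_pi hf)
      exact BKPar.Lift.Loc1.of_isLocallyConstant
        (h6.comp (fun c : Fin d → ZMod p => ∑ i, (c i).val • e i))
    · have h6 : (ρ.comp H.subtype) g = 1 := hρ g g.2
      rw [h6]
      change α (g : V) (h : V) = (∑ i, (f i h).val • e i) -
        (∑ i, (f i (g * h)).val • e i) + ∑ i, (f i g).val • e i
      conv_lhs => rw [he (α (g : V) (h : V))]
      rw [← sub_eq_zero, ← Finset.sum_sub_distrib, ← Finset.sum_add_distrib,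
        ← Finset.sum_sub_distrib]
      refine Finset.sum_eq_zero fun i _ => ?_
      have h7 : PAAux.t (b (α (g : V) (h : V)) (e' i)) + f i (g * h) = f i g + f i h := by
        have h8 := hf' i g h
        simp only [MonoidHom.one_apply, one_mul] at h8
        rw [h8]
        ring
      have h8 := congrArg (fun c : ZMod p => c.val • e i) h7
      simp only [val_add_smul hN] at h8
      rw [sub_eq_zero, ← sub_eq_iff_eq_add.2 h8.symm]
      abel
  exact (hTR.2.2.2.2.2 p hp.out hd hN hSm).2 α hα hres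

end BKT
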