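import Pool.Agent.Lib.MP_7c08ba_nt.T1.LN4V
import Pool.Agent.Lib.MP_7c08ba_nt.Met.LN5

set_option autoImplicit false

/-!
Parity for general residual representations, local part, module N5V: duality `H¹(N) × H¹(N')` for
tame modules over an open subgroup of index prime to `p`.
-/

noncomputable section

namespace BKT

open BKPar (Loc1 Loc2)
open BKND (Sm)
open BKMet
open BKOdd (chm nonarch_subgroup)

open LN4V LCRV BKLoc2 N4Aux N5Aux in
/-- Module N5V: `H¹(N) × H¹(N')` over an open subgroup of index prime to `p`. -/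
theorem stN5V : StN5V := by
  intro p l hp _ hp2 V hV hVi N N' _ _ _ _ ρ ρ' b hN hN' hT hT' hP x hx hx0
  obtain ⟨z, hz⟩ := exists_sys p (PadicAlgCl l)
  have hχ0 : Continuous (cyL p l) :=
    (stKPE p ℚ_[l] (PadicAlgCl l) (GQ l) (MonoidHom.id _) (open_id _).continuous z hz).1
  have cV : CompactSpace V := isCompact_iff_compactSpace.1 (V.isClosed_of_isOpen hV).isCompact
  have nV : NonarchimedeanGroup V := nonarch_subgroup V
  have hχ : Continuous ((cyL p l).comp V.subtype) := hχ0.comp continuous_subtype_val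
  obtain ⟨H, hn, ho, hd, hρ, hρ', hc⟩ := exists_H hχ hT hT'
  have hfin : Finite (V ⧸ H) := H.quotient_finite_of_isOpen ho
  have cH : CompactSpace H := isCompact_iff_compactSpace.1 (H.isClosed_of_isOpen ho).isCompact
  have nH : NonarchimedeanGroup H := nonarch_subgroup H
  have hSm : BKND.Sm ρ := ⟨H, ho, hρ⟩
  have hSm' : BKND.Sm ρ' := ⟨H, ho, hρ'⟩
  have hTR := stTRM V H ho hfin N N' (QZ p) ρ ρ' (actA ((cyL p l).comp V.subtype)) b hSm'
    (fun n' => ⟨H, ho, fun w hw => by rw [hρ' w hw]; rfl⟩) hP.eqv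
  have hζ : IsPrimitiveRoot (z 1) p := by
    have := hz.prim 1
    rwa [pow_one] at this
  have hfix : ∀ h ∈ H, (h : GQ l) (z 1) = z 1 := fun h hh => fix_root stKPE p l hz (hc h hh)
  have hem : Topology.IsOpenEmbedding (V.subtype.comp H.subtype) :=
    hV.isOpenEmbedding_subtypeVal.comp ho.isOpenEmbedding_subtypeVal
  have hnd : BKOdd.NonDeg p H := nonDeg aChT p l hp2 H (V.subtype.comp H.subtype) hem (z 1) hζ
    (fun h => hfix h h.2)
  have hpb : ∀ n n', p • b n n' = 0 := by
    intro n n'
    rw [← map_nsmul, hN', map_zero]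
  have hch1 : chm (((cyL p l).comp V.subtype).comp H.subtype) = 1 := by
    ext h
    exact hc h h.2
  have key : ∀ (n' : N') (h : H), b (x h) n' = 0 := by
    intro n'
    set κ : H → ZMod p := fun h => PAAux.t (b (x h) n') with hκ
    have hj : ∀ h : H, PAAux.j (κ h) = b (x h) n' := fun h => PAAux.j_t (hpb _ _)
    have hκ1 : κ ∈ CC.Z1 (1 : H →* ZMod p) := by
      refine ⟨BKOdd.Conv.cont1_iff.2 ?_, fun g h => ?_⟩
      · obtain ⟨W, hW, hW'⟩ := hx.1
        refine ⟨W.subgroupOf H, hW.preimage continuous_subtype_val, fun g w hw => ?_⟩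
        change PAAux.t (b (x ((g : V) * w)) n') = _
        rw [hW' _ _ (Subgroup.mem_subgroupOf.1 hw)]
      · apply PAAux.j_inj
        rw [MonoidHom.one_apply, one_mul, PAAux.j_add, hj, hj, hj]
        have h7 := hx.2 (g : V) (h : V)
        rw [hρ _ g.2] at h7
        change b (x ((g : V) * h)) n' = _
        rw [h7, map_add, AddMonoidHom.add_apply]
        rfl
    have hκ0 : κ = 0 := by
      by_contra hne
      obtain ⟨φ, hφ, hφ'⟩ := hnd κ hκ1 hne
      apply hφ'
      apply BKOdd.Chain.cup_comm_mem hκ1 hφ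
      set y0 : H → N' := fun h => (φ h).val • n' with hy0
      have hy0Z : y0 ∈ BKND.Z1 (ρ'.comp H.subtype) := by
        refine ⟨BKND.Loc1.map (BKOdd.Conv.cont1_iff.1 hφ.1) (fun c : ZMod p => c.val • n'),
          fun g h => ?_⟩
        rw [show (ρ'.comp H.subtype) g = 1 from hρ' g g.2]
        change (φ (g * h)).val • n' = (φ g).val • n' + (φ h).val • n'
        rw [BKOdd.Chain.z1_mul hφ, val_add_smul hN']
      have h8 := hx0 _ (hTR.1 y0 hy0Z)
      have h9 := hTR.2.2.2.1 x hx y0 hy0Z
      have h10 := (BKND.B2 (actA ((cyL p l).comp V.subtype))).add_mem h9 h8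
      rw [sub_add_cancel] at h10
      have h11 : corHom H ((cyL p l).comp V.subtype) (im (CC.cup κ φ)) ∈
          BKND.B2 (actA ((cyL p l).comp V.subtype)) := by
        have h12 : im (CC.cup κ φ) = fun g h : H => b (x g) (ρ' g (y0 h)) := by
          funext g h
          rw [hρ' g g.2]
          change PAAux.j (κ g * φ h) = b (x g) ((φ h).val • n')
          rw [map_nsmul, ← hj g, mul_comm, j_mul]
        rw [h12, corHom_apply]
        exact h10
      have hz0 : CC.cup κ φ ∈ CC.Z2 (1 : H →* ZMod p) := CC.cup_mem_Z2 hκ1 hφ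
      have h12 := inj_cor p l hp2 V hV hVi H ho hd (CC.cup κ φ) (by rw [hch1]; exact hz0) h11
      rw [hch1] at h12
      exact h12
    intro h
    rw [← hj h, hκ0]
    exact j_zero
  have hres : (fun h : H => x h) ∈ BKND.B1 (ρ.comp H.subtype) := by
    refine ⟨0, fun h => ?_⟩
    rw [map_zero, sub_zero]
    exact hP.left _ fun n' => key n' h
  exact (hTR.2.2.2.2.2 p hp.out hd hN hSm).1 x hx hres

end BKT
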