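import Pool.Agent.Lib.MP_7c08ba_nt.T1.StLoc

set_option autoImplicit false

/-!
Module SYG: the preimage of a Sylow subgroup.
-/

noncomputable section

namespace BKT

theorem stSyg : StSyg := by
  intro p _ G _ _ _ _ U hU hUo
  haveI : U.Normal := hU
  haveI : Finite (G ⧸ U) := Subgroup.quotient_finite_of_isOpen U hUo
  obtain ⟨P⟩ : Nonempty (Sylow p (G ⧸ U)) := inferInstance
  refine ⟨(P : Subgroup (G ⧸ U)).comap (QuotientGroup.mk' U), ?_, ?_, ?_, ?_⟩
  · intro u hu
    rw [Subgroup.mem_comap]
    have : QuotientGroup.mk' U u = 1 := by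
      rw [QuotientGroup.mk'_apply, QuotientGroup.eq_one_iff]
      exact hu
    rw [this]
    exact one_mem _
  · refine Subgroup.isOpen_mono (H₁ := U) ?_ hUo
    intro u hu
    rw [Subgroup.mem_comap]
    have : QuotientGroup.mk' U u = 1 := by
      rw [QuotientGroup.mk'_apply, QuotientGroup.eq_one_iff]
      exact hu
    rw [this]
    exact one_mem _
  · rw [Subgroup.index_comap_of_surjective _ (QuotientGroup.mk'_surjective U)]
    exact P.not_dvd_index
  · intro h hh
    rw [Subgroup.mem_comap] at hh
    obtain ⟨n, hn⟩ := P.isPGroup' ⟨_, hh⟩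
    refine ⟨n, ?_⟩
    have h2 : (QuotientGroup.mk' U h) ^ p ^ n = 1 := by
      have := congrArg Subtype.val hn
      simpa using this
    rw [← map_pow, QuotientGroup.mk'_apply, QuotientGroup.eq_one_iff] at h2
    exact h2

end BKT
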