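import Pool.Agent.Lib.MP_7c08ba_nt.T1.StY
import Pool.Agent.Lib.MP_7c08ba_nt.Met.XANN
import Pool.Agent.Lib.MP_7c08ba_nt.Met.XEXT
import Pool.Agent.Lib.MP_7c08ba_nt.Met.XHOMS
import Pool.Agent.Lib.MP_7c08ba_nt.Met.XPERF

set_option autoImplicit false
set_option linter.unusedSectionVars false

/-!
Parity for general residual representations, part Y, module ANNT: global duality for good modules.
-/

noncomputable section

namespace BKT

open BKPar (Loc1 Loc2)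
open BKND (Sm)
open BKMet

namespace YANNT

open BKMet.XANN (annL mem_annL Nd annL_le index_annL annL_annR annL_eq annL_sup card_B1 B1_le
  finite_B1 card_relIndex)

/-! ### Cochains -/

section Cup

variable {G : Type} [Group G] [TopologicalSpace G] {A : Type} [AddCommGroup A]
  {α : G →* AddMonoid.End A} {M M' : Type} [AddCommGroup M] [AddCommGroup M'] (X : Pair ℤ α M M')

theorem mem_Z1 {ρ : G →* AddMonoid.End M} {f : G → M} : f ∈ BKND.Z1 ρ ↔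
    Loc1 f ∧ ∀ g h, f (g * h) = f g + ρ g (f h) := Iff.rfl

theorem mem_B1 {ρ : G →* AddMonoid.End M} {f : G → M} : f ∈ BKND.B1 ρ ↔
    ∃ m, ∀ g, f g = ρ g m - m := Iff.rfl

theorem cup_Z2 {b : G → M} {e : G → M'} (hb : b ∈ BKND.Z1 X.ρ) (he : e ∈ BKND.Z1 X.ρ') :
    cup11 X.b X.ρ' b e ∈ BKND.Z2 α := by
  rw [mem_Z1] at hb he
  refine ⟨?_, fun g g' g'' => ?_⟩
  · obtain ⟨W1, hW1, h1⟩ := hb.1
    obtain ⟨W2, hW2, h2⟩ := he.1
    obtain ⟨W3, hW3, h3⟩ := X.sm'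
    refine ⟨W1 ⊓ W2 ⊓ W3, ?_, fun g g' w hw w' hw' => ?_⟩
    · rw [Subgroup.coe_inf, Subgroup.coe_inf]
      exact (hW1.inter hW2).inter hW3
    · change X.b (b (g * w)) (X.ρ' (g * w) (e (g' * w'))) = X.b (b g) (X.ρ' g (e g'))
      rw [h1 g w hw.1.1, map_mul, h3 w hw.2, mul_one, h2 g' w' hw'.1.2]
  · change α g (X.b (b g') (X.ρ' g' (e g''))) - X.b (b (g * g')) (X.ρ' (g * g') (e g'')) +
      X.b (b g) (X.ρ' g (e (g' * g''))) - X.b (b g) (X.ρ' g (e g')) = 0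
    have e1 : X.ρ' (g * g') (e g'') = X.ρ' g (X.ρ' g' (e g'')) := by
      rw [map_mul]
      rfl
    rw [← X.eqv, hb.2, he.2, e1]
    simp only [map_add, AddMonoidHom.add_apply]
    abel

theorem Loc1_act {ρ : G →* AddMonoid.End M} (h : Sm ρ) (m : M) : Loc1 fun g => ρ g m := by
  obtain ⟨W, hW, h1⟩ := h
  refine ⟨W, hW, fun g w hw => ?_⟩
  change ρ (g * w) m = ρ g m
  rw [map_mul, h1 w hw, mul_one]

theorem cup_B1_right {b : G → M} {e : G → M'} (hb : b ∈ BKND.Z1 X.ρ) (he : e ∈ BKND.B1 X.ρ') :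
    cup11 X.b X.ρ' b e ∈ BKND.B2 α := by
  rw [mem_Z1] at hb
  rw [mem_B1] at he
  obtain ⟨m, hm⟩ := he
  refine ⟨fun g => -(X.b (b g) (X.ρ' g m)),
    BKND.Loc1.map2 hb.1 (Loc1_act X.sm' m) fun x y => -(X.b x y), fun g g' => ?_⟩
  change X.b (b g) (X.ρ' g (e g')) =
    α g (-(X.b (b g') (X.ρ' g' m))) - -(X.b (b (g * g')) (X.ρ' (g * g') m)) +
      -(X.b (b g) (X.ρ' g m))
  have e1 : X.ρ' (g * g') m = X.ρ' g (X.ρ' g' m) := by
    rw [map_mul]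
    rfl
  rw [map_neg, ← X.eqv, hb.2, hm, e1]
  simp only [map_add, map_sub, AddMonoidHom.add_apply]
  abel

theorem cup_anti {b : G → M} {e : G → M'} (hb : b ∈ BKND.Z1 X.ρ) (he : e ∈ BKND.Z1 X.ρ') :
    cup11 X.b X.ρ' b e + cup11 X.flip.b X.flip.ρ' e b ∈ BKND.B2 α := by
  rw [mem_Z1] at hb he
  refine ⟨fun g => -(X.b (b g) (e g)), BKND.Loc1.map2 hb.1 he.1 fun x y => -(X.b x y),
    fun g g' => ?_⟩
  change X.b (b g) (X.ρ' g (e g')) + X.b (X.ρ g (b g')) (e g) =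
    α g (-(X.b (b g') (e g'))) - -(X.b (b (g * g')) (e (g * g'))) + -(X.b (b g) (e g))
  rw [map_neg, ← X.eqv, hb.2, he.2]
  simp only [map_add, AddMonoidHom.add_apply]
  abel

/-- the cup product as a biadditive map -/
def cupHom {D : Type} [Group D] (b : M →+ M' →+ A) (ρ' : D →* AddMonoid.End M') :
    (D → M) →+ (D → M') →+ (D → D → A) :=
  AddMonoidHom.mk' (fun x => AddMonoidHom.mk' (fun y => cup11 b ρ' x y) fun y y' => by
      funext g h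
      change b (x g) (ρ' g (y h + y' h)) = b (x g) (ρ' g (y h)) + b (x g) (ρ' g (y' h))
      rw [map_add, map_add]) fun x x' => by
    ext y g h
    change b (x g + x' g) (ρ' g (y h)) = b (x g) (ρ' g (y h)) + b (x' g) (ρ' g (y h))
    rw [map_add, AddMonoidHom.add_apply]

theorem cupHom_apply {D : Type} [Group D] (b : M →+ M' →+ A) (ρ' : D →* AddMonoid.End M')
    (x : D → M) (y : D → M') : cupHom b ρ' x y = cup11 b ρ' x y := rfl

end Cup

/-! ### Families of local cocycles -/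

section Fam

variable {S : Type} {G : Type} [Group G] [TopologicalSpace G] {D : S → Type}
  [∀ w, Group (D w)] [∀ w, TopologicalSpace (D w)] {k : Type} [AddCommGroup k]

open Classical in
/-- families of local cocycles which are coboundaries at the places in `T` -/
def Pt (r : ∀ w, D w →* G) (ψ : G →* AddMonoid.End k) (T : Set S) :
    AddSubgroup (∀ w, D w → k) :=
  AddSubgroup.pi Set.univ fun w =>
    if w ∈ T then BKND.B1 (ψ.comp (r w)) else BKND.Z1 (ψ.comp (r w))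

/-- restriction to the local groups -/
def locm (r : ∀ w, D w →* G) : (G → k) →+ (∀ w, D w → k) where
  toFun η w := pb1 (r w) η
  map_zero' := rfl
  map_add' _ _ := rfl

variable {r : ∀ w, D w →* G} {ψ : G →* AddMonoid.End k}

theorem mem_Pt (h : ∀ w, Sm (ψ.comp (r w))) {T : Set S} {b : ∀ w, D w → k} :
    b ∈ Pt r ψ T ↔ (∀ w, b w ∈ BKND.Z1 (ψ.comp (r w))) ∧
      ∀ w ∈ T, b w ∈ BKND.B1 (ψ.comp (r w)) := by
  rw [Pt, AddSubgroup.mem_pi]
  constructor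
  · intro h1
    refine ⟨fun w => ?_, fun w hw => ?_⟩
    · have h2 := h1 w (Set.mem_univ _)
      split_ifs at h2 with hw
      · exact B1_le _ (h w) h2
      · exact h2
    · have h2 := h1 w (Set.mem_univ _)
      rwa [if_pos hw] at h2
  · rintro ⟨h1, h2⟩ w _
    split_ifs with hw
    · exact h2 w hw
    · exact h1 w

theorem card_Pt [Fintype S] (T : Set S) : Nat.card (Pt r ψ T) = ∏ w, (open Classical in
    if w ∈ T then Nat.card (BKND.B1 (ψ.comp (r w))) else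
      Nat.card (BKND.Z1 (ψ.comp (r w)))) := by
  classical
  have e : Nat.card (Pt r ψ T) = Nat.card (∀ w, (if w ∈ T then BKND.B1 (ψ.comp (r w))
      else BKND.Z1 (ψ.comp (r w)) : AddSubgroup (D w → k))) := by
    refine Nat.card_congr ⟨fun x w => ⟨x.1 w, x.2 w (Set.mem_univ _)⟩,
      fun y => ⟨fun w => (y w).1, fun w _ => (y w).2⟩, fun x => rfl, fun y => rfl⟩
  rw [e, Nat.card_pi]
  refine Finset.prod_congr rfl fun w _ => ?_
  split_ifs with hw <;> rfl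

theorem pb1_Z1 {D' : Type} [Group D'] [TopologicalSpace D'] (r' : D' →* G)
    (hr : Continuous r') {f : G → k} (hf : f ∈ BKND.Z1 ψ) :
    pb1 r' f ∈ BKND.Z1 (ψ.comp r') := by
  obtain ⟨⟨W, hW, h1⟩, h2⟩ := hf
  refine ⟨⟨W.comap r', hW.preimage hr, fun d w hw => ?_⟩, fun d d' => ?_⟩
  · change f (r' (d * w)) = f (r' d)
    rw [map_mul]
    exact h1 _ _ hw
  · change f (r' (d * d')) = f (r' d) + _
    rw [map_mul, h2]
    rfl

theorem pb1_B1 {D' : Type} [Group D'] (r' : D' →* G) {f : G → k}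
    (hf : f ∈ BKND.B1 ψ) : pb1 r' f ∈ BKND.B1 (ψ.comp r') := by
  obtain ⟨m, hm⟩ := hf
  exact ⟨m, fun d => hm (r' d)⟩

theorem sm_comp {D' : Type} [Group D'] [TopologicalSpace D'] (r' : D' →* G)
    (hr : Continuous r') (h : Sm ψ) : Sm (ψ.comp r') := by
  obtain ⟨W, hW, h1⟩ := h
  exact ⟨W.comap r', hW.preimage hr, fun w hw => h1 _ hw⟩

end Fam

/-! ### The global situation -/

section Main

variable {p : ℕ} [Fact p.Prime] {S : Type} [Fintype S] {G : Type} [Group G] [TopologicalSpace G]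
  [IsTopologicalGroup G] [CompactSpace G] {D : S → Type} [∀ w, Group (D w)]
  [∀ w, TopologicalSpace (D w)] [∀ w, IsTopologicalGroup (D w)] [∀ w, CompactSpace (D w)]
  {Γ : Glo S G D (QZ p) (QZ p)} {χ : G →* ℤ_[p]ˣ} {δ : S → ℕ}
  {K K' : Type} [AddCommGroup K] [AddCommGroup K'] {Y : Pair ℤ Γ.α K K'}

/-- the local pair -/
def resL (hG : GAxT p Γ χ δ) (Y : Pair ℤ Γ.α K K') (w : S) :
    Pair ℤ (actA (χ.comp (Γ.r w))) K K' where
  ρ := Y.ρ.comp (Γ.r w)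
  ρ' := Y.ρ'.comp (Γ.r w)
  b := Y.b
  sm := sm_comp _ (Γ.cont w) Y.sm
  sm' := sm_comp _ (Γ.cont w) Y.sm'
  lin := fun g => Y.lin (Γ.r w g)
  lin' := fun g => Y.lin' (Γ.r w g)
  eqv := fun g m m' => by
    have h := Y.eqv (Γ.r w g) m m'
    have h2 : Γ.α (Γ.r w g) = actA (χ.comp (Γ.r w)) g := by
      rw [hG.act]
      rfl
    exact h.trans (congrArg (fun e : AddMonoid.End (QZ p) => e (Y.b m m')) h2)
  bal := Y.bal
  perf := Y.perf
  perf' := Y.perf'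

variable (Y) in
theorem flip_rho : Y.flip.ρ = Y.ρ' := rfl

variable (Y) in
theorem flip_rho' : Y.flip.ρ' = Y.ρ := rfl

/-- everything about the pair `Y` -/
structure Sit (hG : GAxT p Γ χ δ) (Y : Pair ℤ Γ.α K K') : Prop where
  good : GoodP Γ Y
  fin' : Finite K'
  card_eq : Nat.card K' = Nat.card K

theorem Sit.flip {hG : GAxT p Γ χ δ} (h : Sit hG Y) : Sit hG Y.flip where
  good :=
    { fin := h.fin'
      two := h.good.two'
      two' := h.good.two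
      one := h.good.one'
      one' := h.good.one
      card := by
        rw [h.card_eq]
        exact h.good.card'
      card' := by
        rw [h.card_eq]
        exact h.good.card }
  fin' := h.good.fin
  card_eq := h.card_eq.symm

/-- the sum of the local pairings -/
def pr (Γ : Glo S G D (QZ p) (QZ p)) (Y : Pair ℤ Γ.α K K') :
    (∀ w, D w → K) →+ (∀ w, D w → K') →+ QZ p :=
  AddMonoidHom.mk' (fun x => AddMonoidHom.mk' (fun y =>
      ∑ w, Γ.inv w (cupHom Y.b (Y.ρ'.comp (Γ.r w)) (x w) (y w))) fun y y' => by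
        rw [← Finset.sum_add_distrib]
        refine Finset.sum_congr rfl fun w _ => ?_
        rw [Pi.add_apply, map_add, map_add]) fun x x' => by
      ext y
      rw [AddMonoidHom.add_apply]
      change ∑ w, _ = ∑ w, _ + ∑ w, _
      rw [← Finset.sum_add_distrib]
      refine Finset.sum_congr rfl fun w _ => ?_
      rw [Pi.add_apply, map_add, AddMonoidHom.add_apply, map_add]

theorem pr_apply (x : ∀ w, D w → K) (y : ∀ w, D w → K') : pr Γ Y x y =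
    ∑ w, Γ.inv w (cup11 Y.b (Y.ρ'.comp (Γ.r w)) (x w) (y w)) := rfl

variable (Y) in
theorem smw (w : S) : Sm (Y.ρ.comp (Γ.r w)) := sm_comp _ (Γ.cont w) Y.sm

variable (Y) in
theorem smw' (w : S) : Sm (Y.ρ'.comp (Γ.r w)) := sm_comp _ (Γ.cont w) Y.sm'

theorem inv_anti (hG : GAxT p Γ χ δ) (w : S) {b : D w → K} {e : D w → K'}
    (hb : b ∈ BKND.Z1 (Y.ρ.comp (Γ.r w))) (he : e ∈ BKND.Z1 (Y.ρ'.comp (Γ.r w))) :
    Γ.inv w (cup11 Y.b (Y.ρ'.comp (Γ.r w)) b e) =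
      -Γ.inv w (cup11 Y.flip.b (Y.flip.ρ'.comp (Γ.r w)) e b) := by
  rw [eq_neg_iff_add_eq_zero, ← map_add]
  refine ((hG.loc w).inv_eq _ (AddSubgroup.add_mem _ ?_ ?_)).2 ?_
  · exact cup_Z2 (resL hG Y w) hb he
  · exact cup_Z2 (resL hG Y w).flip he hb
  · exact cup_anti (resL hG Y w) hb he

theorem inv_right (hG : GAxT p Γ χ δ) (w : S) {b : D w → K} {e : D w → K'}
    (hb : b ∈ BKND.Z1 (Y.ρ.comp (Γ.r w))) (he : e ∈ BKND.B1 (Y.ρ'.comp (Γ.r w))) :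
    Γ.inv w (cup11 Y.b (Y.ρ'.comp (Γ.r w)) b e) = 0 :=
  ((hG.loc w).inv_eq _ (cup_Z2 (resL hG Y w) hb (B1_le _ (smw' Y w) he))).2
    (cup_B1_right (resL hG Y w) hb he)

theorem inv_left (hG : GAxT p Γ χ δ) (w : S) {b : D w → K} {e : D w → K'}
    (hb : b ∈ BKND.B1 (Y.ρ.comp (Γ.r w))) (he : e ∈ BKND.Z1 (Y.ρ'.comp (Γ.r w))) :
    Γ.inv w (cup11 Y.b (Y.ρ'.comp (Γ.r w)) b e) = 0 := by
  rw [inv_anti hG w (B1_le _ (smw Y w) hb) he, inv_right (Y := Y.flip) hG w he hb, neg_zero]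

theorem pr_anti (hG : GAxT p Γ χ δ) {x : ∀ w, D w → K} {y : ∀ w, D w → K'}
    (hx : x ∈ Pt Γ.r Y.ρ ∅) (hy : y ∈ Pt Γ.r Y.ρ' ∅) :
    pr Γ Y x y = - pr Γ Y.flip y x := by
  rw [mem_Pt (smw Y)] at hx
  rw [mem_Pt (smw' Y)] at hy
  rw [pr_apply, pr_apply, ← Finset.sum_neg_distrib]
  exact Finset.sum_congr rfl fun w _ => inv_anti hG w (hx.1 w) (hy.1 w)

variable (Y) in
theorem Pt_mono {T T' : Set S} (h : T ⊆ T') : Pt Γ.r Y.ρ T' ≤ Pt Γ.r Y.ρ T := by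
  intro x hx
  rw [mem_Pt (smw Y)] at hx ⊢
  exact ⟨hx.1, fun w hw => hx.2 w (h hw)⟩

variable (Y) in
theorem Pt_mono' {T T' : Set S} (h : T ⊆ T') : Pt Γ.r Y.ρ' T' ≤ Pt Γ.r Y.ρ' T :=
  Pt_mono Y.flip h

theorem pr_single (w : S) (x : ∀ w, D w → K) (f : D w → K') [DecidableEq S] :
    pr Γ Y x (Pi.single w f) = Γ.inv w (cup11 Y.b (Y.ρ'.comp (Γ.r w)) (x w) f) := by
  rw [pr_apply, Finset.sum_eq_single w]
  · rw [Pi.single_eq_same]
  · intro w' _ hw'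
    rw [Pi.single_eq_of_ne hw', ← cupHom_apply, map_zero, map_zero]
  · intro h
    exact absurd (Finset.mem_univ w) h

/-- an orthogonality relation with a family of places -/
theorem left_iff {hG : GAxT p Γ χ δ} (hY : Sit hG Y) (T : Set S) {x : ∀ w, D w → K}
    (hx : x ∈ Pt Γ.r Y.ρ ∅) :
    x ∈ Pt Γ.r Y.ρ T ↔ ∀ y ∈ Pt Γ.r Y.ρ' Tᶜ, pr Γ Y x y = 0 := by
  classical
  have := hY.good.fin
  rw [mem_Pt (smw Y)] at hx ⊢
  constructor
  · rintro ⟨_, h2⟩ y hy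
    rw [mem_Pt (smw' Y)] at hy
    rw [pr_apply]
    refine Finset.sum_eq_zero fun w _ => ?_
    by_cases hw : w ∈ T
    · exact inv_left hG w (h2 w hw) (hy.1 w)
    · exact inv_right hG w (hx.1 w) (hy.2 w hw)
  · intro h
    refine ⟨hx.1, fun w hw => ?_⟩
    refine (hG.loc w).one K K' (resL hG Y w) _ (hx.1 w) fun f hf => ?_
    have h3 : (Pi.single w f : ∀ w, D w → K') ∈ Pt Γ.r Y.ρ' Tᶜ := by
      rw [mem_Pt (smw' Y)]
      constructor
      · intro w'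
        by_cases hw' : w' = w
        · subst hw'
          rw [Pi.single_eq_same]
          exact hf
        · rw [Pi.single_eq_of_ne hw']
          exact AddSubgroup.zero_mem _
      · intro w' hw'
        have h4 : w' ≠ w := by
          rintro rfl
          exact hw' hw
        rw [Pi.single_eq_of_ne h4]
        exact AddSubgroup.zero_mem _
    have h4 := h _ h3
    rwa [pr_single] at h4

theorem card_Z1w {hG : GAxT p Γ χ δ} (hY : Sit hG Y) (w : S) :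
    Nat.card (BKND.Z1 (Y.ρ.comp (Γ.r w))) =
      Nat.card (BKND.H0 (Y.ρ'.comp (Γ.r w))) * Nat.card K ^ (1 + δ w) := by
  have := hY.good.fin
  exact (hG.loc w).card K K' (resL hG Y w)

theorem finite_Z1w {hG : GAxT p Γ χ δ} (hY : Sit hG Y) (w : S) :
    Nat.card (BKND.Z1 (Y.ρ.comp (Γ.r w))) ≠ 0 := by
  have := hY.good.fin
  have := hY.fin'
  rw [card_Z1w hY]
  exact mul_ne_zero Nat.card_pos.ne' (pow_ne_zero _ Nat.card_pos.ne')

theorem card_Pt_ne {hG : GAxT p Γ χ δ} (hY : Sit hG Y) (T : Set S) :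
    Nat.card (Pt Γ.r Y.ρ T) ≠ 0 := by
  classical
  have := hY.good.fin
  rw [card_Pt, Finset.prod_ne_zero_iff]
  intro w _
  split_ifs
  · have := finite_B1 (Y.ρ.comp (Γ.r w))
    exact Nat.card_pos.ne'
  · exact finite_Z1w hY w

theorem nd {hG : GAxT p Γ χ δ} (hY : Sit hG Y) : Nd (pr Γ Y) (Pt Γ.r Y.ρ ∅)
    (Pt Γ.r Y.ρ Set.univ) (Pt Γ.r Y.ρ' ∅) (Pt Γ.r Y.ρ' Set.univ) where
  le := Pt_mono Y (Set.empty_subset _)
  le' := Pt_mono' Y (Set.empty_subset _)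
  left := by
    intro x hx
    rw [left_iff hY Set.univ hx, Set.compl_univ]
  right := by
    intro y hy
    have h := left_iff (Y := Y.flip) hY.flip Set.univ hy
    rw [Set.compl_univ] at h
    refine h.trans (forall₂_congr fun x hx => ?_)
    rw [pr_anti (Y := Y.flip) hG hy hx, neg_eq_zero]
    rfl
  fin := by
    intro h0
    have h1 := card_relIndex (Pt_mono Y (Set.empty_subset (Set.univ : Set S)))
    rw [h0, mul_zero] at h1
    exact card_Pt_ne hY ∅ h1.symm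

/-! ### Global classes -/

/-- the global cocycles which are trivial at the places in `T` -/
def KT {k : Type} [AddCommGroup k] (r : ∀ w, D w →* G) (ψ : G →* AddMonoid.End k) (T : Set S) :
    AddSubgroup (G → k) :=
  BKND.Z1 ψ ⊓ (Pt r ψ T).comap (locm r)

/-- the image of the global cocycles, plus the coboundaries -/
def La {k : Type} [AddCommGroup k] (r : ∀ w, D w →* G) (ψ : G →* AddMonoid.End k) :
    AddSubgroup (∀ w, D w → k) :=
  (BKND.Z1 ψ).map (locm r) ⊔ Pt r ψ Set.univ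

variable (Y) in
theorem mem_KT {T : Set S} {f : G → K} :
    f ∈ KT Γ.r Y.ρ T ↔ f ∈ BKND.Z1 Y.ρ ∧
      ∀ w ∈ T, pb1 (Γ.r w) f ∈ BKND.B1 (Y.ρ.comp (Γ.r w)) := by
  rw [KT, AddSubgroup.mem_inf, AddSubgroup.mem_comap, mem_Pt (smw Y)]
  constructor
  · rintro ⟨h1, _, h2⟩
    exact ⟨h1, h2⟩
  · rintro ⟨h1, h2⟩
    exact ⟨h1, fun w => pb1_Z1 _ (Γ.cont w) h1, h2⟩

theorem loc_mem {f : G → K} (hf : f ∈ BKND.Z1 Y.ρ) : locm Γ.r f ∈ Pt Γ.r Y.ρ ∅ := by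
  rw [mem_Pt (smw Y)]
  exact ⟨fun w => pb1_Z1 _ (Γ.cont w) hf, fun w hw => absurd hw (Set.notMem_empty w)⟩

variable (Y) in
theorem La_le : La Γ.r Y.ρ ≤ Pt Γ.r Y.ρ ∅ := by
  refine sup_le ?_ (Pt_mono Y (Set.empty_subset _))
  rintro _ ⟨f, hf, rfl⟩
  exact loc_mem hf

variable (Y) in
theorem La_le' : La Γ.r Y.ρ' ≤ Pt Γ.r Y.ρ' ∅ := La_le Y.flip

variable (Y) in
theorem inf_La (T : Set S) :
    La Γ.r Y.ρ ⊓ Pt Γ.r Y.ρ T = (KT Γ.r Y.ρ T).map (locm Γ.r) ⊔ Pt Γ.r Y.ρ Set.univ := by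
  have hle := Pt_mono Y (Set.subset_univ T)
  apply le_antisymm
  · rintro x ⟨h1, h2⟩
    obtain ⟨_, ⟨f, hf, rfl⟩, b, hb, rfl⟩ := AddSubgroup.mem_sup.1 h1
    refine AddSubgroup.mem_sup.2 ⟨_, ⟨f, ⟨hf, ?_⟩, rfl⟩, b, hb, rfl⟩
    change locm Γ.r f ∈ Pt Γ.r Y.ρ T
    have h3 := AddSubgroup.sub_mem _ h2 (hle hb)
    rwa [add_sub_cancel_right] at h3
  · refine sup_le ?_ (le_inf le_sup_right hle)
    rintro _ ⟨f, hf, rfl⟩
    exact ⟨AddSubgroup.mem_sup_left ⟨f, hf.1, rfl⟩, hf.2⟩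

/-- counting global classes -/
theorem glob_count {hG : GAxT p Γ χ δ} (hY : Sit hG Y) (T : Set S) :
    Nat.card (BKND.B1 Y.ρ) * (Pt Γ.r Y.ρ Set.univ).relIndex (La Γ.r Y.ρ ⊓ Pt Γ.r Y.ρ T) =
      Nat.card (KT Γ.r Y.ρ T) := by
  rw [inf_La Y, AddSubgroup.relIndex_sup_right, ← AddSubgroup.relIndex_comap,
    ← AddSubgroup.inf_relIndex_right]
  have e1 : (Pt Γ.r Y.ρ Set.univ).comap (locm Γ.r) ⊓ KT Γ.r Y.ρ T = BKND.B1 Y.ρ := by
    apply le_antisymm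
    · rintro f ⟨h1, h2⟩
      refine hY.good.one f h2.1 fun w => ?_
      have h3 : locm Γ.r f ∈ Pt Γ.r Y.ρ Set.univ := h1
      rw [mem_Pt (smw Y)] at h3
      exact h3.2 w (Set.mem_univ w)
    · intro f hf
      have h1 : ∀ w, pb1 (Γ.r w) f ∈ BKND.B1 (Y.ρ.comp (Γ.r w)) := fun w => pb1_B1 _ hf
      have h2 : f ∈ BKND.Z1 Y.ρ := B1_le _ Y.sm hf
      refine ⟨?_, (mem_KT Y).2 ⟨h2, fun w _ => h1 w⟩⟩
      change locm Γ.r f ∈ Pt Γ.r Y.ρ Set.univ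
      rw [mem_Pt (smw Y)]
      exact ⟨fun w => pb1_Z1 _ (Γ.cont w) h2, fun w _ => h1 w⟩
  rw [e1]
  refine card_relIndex fun f hf => (mem_KT Y).2 ⟨B1_le _ Y.sm hf, fun w _ => pb1_B1 _ hf⟩

/-- reciprocity -/
theorem recip {ε : G → G → QZ p} (hε : ε ∈ BKND.Z2 Γ.α) :
    ∑ w, Γ.inv w (pb2 (Γ.r w) ε) = 0 := by
  have h1 := Γ.tr_eq ε hε.1 (fun _ => 0) (by
    intro w
    rw [zero_sub]
    refine AddSubgroup.neg_mem _ ?_
    obtain ⟨⟨W, hW, h2⟩, h3⟩ := hε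
    refine ⟨⟨W.comap (Γ.r w), hW.preimage (Γ.cont w), fun d d' w' hw' w'' hw'' => ?_⟩,
      fun d d' d'' => ?_⟩
    · change ε (Γ.r w (d * w')) (Γ.r w (d' * w'')) = ε (Γ.r w d) (Γ.r w d')
      rw [map_mul, map_mul]
      exact h2 _ _ _ hw' _ hw''
    · have h4 := h3 (Γ.r w d) (Γ.r w d') (Γ.r w d'')
      rw [← map_mul, ← map_mul] at h4
      exact h4)
  have h2 : d2 Γ.α ε = 0 := by
    funext g h k
    exact hε.2 g h k
  rw [h2] at h1
  have h3 : ((0 : G → G → G → QZ p), (fun _ => 0 : ∀ w, D w → D w → QZ p)) = 0 := rfl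
  rw [h3, map_zero] at h1
  have h4 : ∑ w, Γ.inv w (pb2 (Γ.r w) ε) = - ∑ w, Γ.inv w (0 - pb2 (Γ.r w) ε) := by
    rw [← Finset.sum_neg_distrib]
    refine Finset.sum_congr rfl fun w _ => ?_
    rw [zero_sub, map_neg, neg_neg]
  rw [h4, ← h1, neg_zero]

theorem isotropic {hG : GAxT p Γ χ δ} (hY : Sit hG Y) {x : ∀ w, D w → K} {y : ∀ w, D w → K'}
    (hx : x ∈ La Γ.r Y.ρ) (hy : y ∈ La Γ.r Y.ρ') : pr Γ Y x y = 0 := by
  have hN := nd hY
  obtain ⟨_, ⟨f, hf, rfl⟩, b, hb, rfl⟩ := AddSubgroup.mem_sup.1 hx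
  obtain ⟨_, ⟨e, he, rfl⟩, b', hb', rfl⟩ := AddSubgroup.mem_sup.1 hy
  have h1 : pr Γ Y b (locm Γ.r e + b') = 0 :=
    (hN.left b (hN.le hb)).1 hb _ (La_le' Y hy)
  have h2 : pr Γ Y (locm Γ.r f) b' = 0 :=
    (hN.right b' (hN.le' hb')).1 hb' _ (loc_mem hf)
  rw [map_add (pr Γ Y), AddMonoidHom.add_apply, h1, add_zero, map_add, h2, add_zero,
    pr_apply]
  exact recip (cup_Z2 Y hf he)

theorem index_Pt {hG : GAxT p Γ χ δ} (hY : Sit hG Y) (T : Set S) :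
    (Pt Γ.r Y.ρ T).relIndex (Pt Γ.r Y.ρ ∅) =
      ∏ w, (open Classical in if w ∈ T then Nat.card K ^ δ w *
        Nat.card (BKND.H0 (Y.ρ.comp (Γ.r w))) * Nat.card (BKND.H0 (Y.ρ'.comp (Γ.r w)))
        else 1) := by
  classical
  have := hY.good.fin
  have e1 := card_relIndex (Pt_mono Y (Set.empty_subset T))
  apply Nat.eq_of_mul_eq_mul_left (Nat.pos_of_ne_zero (card_Pt_ne hY T))
  rw [e1, card_Pt, card_Pt, ← Finset.prod_mul_distrib]
  refine Finset.prod_congr rfl fun w _ => ?_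
  rw [if_neg (Set.notMem_empty w)]
  by_cases hw : w ∈ T
  · rw [if_pos hw, if_pos hw, card_Z1w hY w, pow_add, pow_one, ← card_B1 (Y.ρ.comp (Γ.r w))]
    ring
  · rw [if_neg hw, if_neg hw, mul_one]

theorem card_Z1 {hG : GAxT p Γ χ δ} (hY : Sit hG Y) :
    Nat.card (BKND.B1 Y.ρ) * (Pt Γ.r Y.ρ Set.univ).relIndex (La Γ.r Y.ρ) =
      Nat.card (BKND.Z1 Y.ρ) := by
  have h1 := glob_count hY (∅ : Set S)
  rw [inf_eq_left.2 (La_le Y)] at h1
  rw [h1]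
  have e : KT Γ.r Y.ρ ∅ = BKND.Z1 Y.ρ := by
    apply le_antisymm inf_le_left
    exact fun f hf => ⟨hf, loc_mem hf⟩
  rw [e]

theorem index_mul {hG : GAxT p Γ χ δ} (hY : Sit hG Y) :
    (Pt Γ.r Y.ρ Set.univ).relIndex (La Γ.r Y.ρ) *
      (Pt Γ.r Y.ρ' Set.univ).relIndex (La Γ.r Y.ρ') =
        (Pt Γ.r Y.ρ Set.univ).relIndex (Pt Γ.r Y.ρ ∅) := by
  have := hY.good.fin
  have := hY.fin'
  have e1 := card_Z1 hY
  have e2 := card_Z1 hY.flip
  rw [flip_rho] at e2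
  have e3 := hY.good.card
  have e4 := hY.good.card'
  have e5 := card_B1 Y.ρ
  have e6 := card_B1 Y.ρ'
  rw [hY.card_eq] at e6
  have e7 := index_Pt hY Set.univ
  simp only [Set.mem_univ, if_true] at e7
  rw [Finset.prod_mul_distrib, Finset.prod_mul_distrib, Finset.prod_pow_eq_pow_sum, hG.sum] at e7
  have hq : 0 < Nat.card K * Nat.card K := Nat.mul_pos Nat.card_pos Nat.card_pos
  apply Nat.eq_of_mul_eq_mul_left hq
  rw [e7]
  generalize (Pt Γ.r Y.ρ Set.univ).relIndex (La Γ.r Y.ρ) = L at *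
  generalize (Pt Γ.r Y.ρ' Set.univ).relIndex (La Γ.r Y.ρ') = L' at *
  generalize (Pt Γ.r Y.ρ Set.univ).relIndex (Pt Γ.r Y.ρ ∅) = R at *
  generalize ∏ w, Nat.card (BKND.H0 (Y.ρ.comp (Γ.r w))) = A at *
  generalize ∏ w, Nat.card (BKND.H0 (Y.ρ'.comp (Γ.r w))) = A' at *
  calc Nat.card K * Nat.card K * (L * L') =
      (Nat.card (BKND.B1 Y.ρ) * L) * (Nat.card (BKND.B1 Y.ρ') * L') *
        (Nat.card (BKND.H0 Y.ρ) * Nat.card (BKND.H0 Y.ρ')) := by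
        rw [← e5]
        nth_rw 2 [e5]
        rw [← e6]
        ring
    _ = (Nat.card (BKND.Z1 Y.ρ) * Nat.card (BKND.H0 Y.ρ')) *
        (Nat.card (BKND.Z1 Y.ρ') * Nat.card (BKND.H0 Y.ρ)) := by
        rw [e1, e2]
        ring
    _ = Nat.card K * Nat.card K * (Nat.card K ^ 2 * A * A') := by
        rw [e3, e4]
        ring

theorem La_eq (hD : StDual) {hG : GAxT p Γ χ δ} (hY : Sit hG Y) :
    annL (pr Γ Y) (Pt Γ.r Y.ρ ∅) (La Γ.r Y.ρ') = La Γ.r Y.ρ := by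
  have h1 : Pt Γ.r Y.ρ Set.univ ≤ La Γ.r Y.ρ := le_sup_right
  have h2 : Pt Γ.r Y.ρ' Set.univ ≤ La Γ.r Y.ρ' := le_sup_right
  have h3 := index_mul hY
  have h4 := nd hY
  have h5 : ∀ x ∈ La Γ.r Y.ρ, ∀ y ∈ La Γ.r Y.ρ', pr Γ Y x y = 0 :=
    fun x hx y hy => isotropic hY hx hy
  exact annL_eq (A := La Γ.r Y.ρ) (C := La Γ.r Y.ρ') hD h4 h1 (La_le Y) h2 (La_le' Y) h5 h3

theorem La_eq' (hD : StDual) {hG : GAxT p Γ χ δ} (hY : Sit hG Y) :
    annL (pr Γ Y).flip (Pt Γ.r Y.ρ' ∅) (La Γ.r Y.ρ) = La Γ.r Y.ρ' := by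
  have hN := (nd hY).flip hD
  have h1 := annL_annR hD hN (A := La Γ.r Y.ρ') le_sup_right (La_le' Y)
  have h2 := La_eq hD hY
  have h3 : (pr Γ Y).flip.flip = pr Γ Y := rfl
  rw [h3, h2] at h1
  exact h1

theorem ann_M (hD : StDual) {hG : GAxT p Γ χ δ} (hY : Sit hG Y) (T : Set S) :
    annL (pr Γ Y) (Pt Γ.r Y.ρ ∅) (La Γ.r Y.ρ' ⊓ Pt Γ.r Y.ρ' Tᶜ) =
      La Γ.r Y.ρ ⊔ Pt Γ.r Y.ρ T := by
  have hN := nd hY
  have h0 := Pt_mono Y (Set.empty_subset T)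
  rw [← annL_annR hD hN (A := La Γ.r Y.ρ ⊔ Pt Γ.r Y.ρ T) (le_sup_right.trans le_sup_left)
    (sup_le (La_le Y) h0), annL_sup, La_eq' hD hY]
  congr 2
  ext y
  rw [mem_annL]
  constructor
  · intro hy
    have h1 : y ∈ Pt Γ.r Y.ρ' ∅ := Pt_mono' Y (Set.empty_subset Tᶜ) hy
    refine ⟨h1, fun x hx => ?_⟩
    have h2 := (left_iff (Y := Y.flip) hY.flip Tᶜ h1).1 hy
    rw [compl_compl] at h2
    change pr Γ Y x y = 0
    rw [pr_anti hG (h0 hx) h1, h2 x hx, neg_zero]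
  · rintro ⟨h1, h2⟩
    refine (left_iff (Y := Y.flip) hY.flip Tᶜ h1).2 ?_
    rw [compl_compl]
    intro x hx
    rw [pr_anti (Y := Y.flip) hG h1 (h0 hx), neg_eq_zero]
    exact h2 x hx

theorem claim1 (hD : StDual) {hG : GAxT p Γ χ δ} (hY : Sit hG Y) (T : Set S)
    (b : ∀ w, D w → K) (hb : ∀ w, b w ∈ BKND.Z1 (Y.ρ.comp (Γ.r w)))
    (h : ∀ e ∈ BKND.Z1 Y.ρ', (∀ w ∉ T, pb1 (Γ.r w) e ∈ BKND.B1 (Y.ρ'.comp (Γ.r w))) →
        (∑ w, open Classical in if w ∈ T then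
          Γ.inv w (cup11 Y.b (Y.ρ'.comp (Γ.r w)) (b w) (pb1 (Γ.r w) e)) else 0) = 0) :
    ∃ η ∈ BKND.Z1 Y.ρ, ∀ w ∈ T,
        pb1 (Γ.r w) η - b w ∈ BKND.B1 (Y.ρ.comp (Γ.r w)) := by
  classical
  have hN := nd hY
  have h1 : (fun w => if w ∈ T then b w else 0 : ∀ w, D w → K) ∈ Pt Γ.r Y.ρ ∅ := by
    rw [mem_Pt (smw Y)]
    refine ⟨fun w => ?_, fun w hw => absurd hw (Set.notMem_empty w)⟩
    split_ifs with hw
    · exact hb w
    · exact AddSubgroup.zero_mem _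
  have h2 : (fun w => if w ∈ T then b w else 0 : ∀ w, D w → K) ∈
      La Γ.r Y.ρ ⊔ Pt Γ.r Y.ρ T := by
    rw [← ann_M hD hY T, mem_annL]
    refine ⟨h1, fun y hy => ?_⟩
    have hy' : y ∈ (KT Γ.r Y.ρ' Tᶜ).map (locm Γ.r) ⊔ Pt Γ.r Y.ρ' Set.univ := by
      have e := inf_La Y.flip Tᶜ
      exact e ▸ hy
    obtain ⟨_, ⟨e, he, rfl⟩, b', hb', rfl⟩ := AddSubgroup.mem_sup.1 hy'
    have h3 := (mem_KT Y.flip).1 he
    rw [map_add, (hN.right b' (hN.le' hb')).1 hb' _ h1, add_zero, pr_apply,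
      ← h e h3.1 fun w hw => h3.2 w hw]
    refine Finset.sum_congr rfl fun w _ => ?_
    split_ifs with hw
    · rfl
    · rw [← cupHom_apply, map_zero, AddMonoidHom.zero_apply, map_zero]
  obtain ⟨l, hl, z, hz, hlz⟩ := AddSubgroup.mem_sup.1 h2
  obtain ⟨_, ⟨η, hη, rfl⟩, β, hβ, rfl⟩ := AddSubgroup.mem_sup.1 hl
  refine ⟨η, hη, fun w hw => ?_⟩
  rw [mem_Pt (smw Y)] at hβ hz
  have h3 := congrFun hlz w
  rw [if_pos hw] at h3
  have h4 : pb1 (Γ.r w) η - b w = -(β w + z w) := by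
    rw [← h3]
    change pb1 (Γ.r w) η - (pb1 (Γ.r w) η + β w + z w) = _
    abel
  rw [h4]
  exact AddSubgroup.neg_mem _ (AddSubgroup.add_mem _ (hβ.2 w (Set.mem_univ w)) (hz.2 w hw))

theorem claim2 (hD : StDual) {hG : GAxT p Γ χ δ} (hY : Sit hG Y) (T : Set S) :
    (Pt Γ.r Y.ρ T).relIndex (Pt Γ.r Y.ρ ∅) * Nat.card (KT Γ.r Y.ρ T) =
      Nat.card (KT Γ.r Y.ρ' Tᶜ) * Nat.card K *
        ∏ w, Nat.card (BKND.H0 (Y.ρ'.comp (Γ.r w))) := by
  have := hY.good.fin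
  have := hY.fin'
  have hN := nd hY
  have h0 := Pt_mono Y (Set.empty_subset T)
  have hu := Pt_mono Y (Set.subset_univ T)
  have e1 := index_annL hD hN (C := La Γ.r Y.ρ' ⊓ Pt Γ.r Y.ρ' Tᶜ)
    (le_inf le_sup_right (Pt_mono' Y (Set.subset_univ _)))
    (inf_le_left.trans (La_le' Y))
  rw [ann_M hD hY T] at e1
  have e2 := AddSubgroup.relIndex_mul_relIndex (Pt Γ.r Y.ρ T) (La Γ.r Y.ρ ⊔ Pt Γ.r Y.ρ T)
    (Pt Γ.r Y.ρ ∅) le_sup_right (sup_le (La_le Y) h0)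
  rw [AddSubgroup.relIndex_sup_right, ← e1] at e2
  have e3 := AddSubgroup.relIndex_mul_relIndex (Pt Γ.r Y.ρ Set.univ) (La Γ.r Y.ρ ⊓ Pt Γ.r Y.ρ T)
    (La Γ.r Y.ρ) (le_inf le_sup_right hu) inf_le_left
  rw [AddSubgroup.inf_relIndex_left] at e3
  have e4 := glob_count hY T
  have e5 := glob_count hY.flip Tᶜ
  rw [flip_rho] at e5
  have e6 := card_Z1 hY
  have e7 := hY.good.card
  have e8 := card_B1 Y.ρ'
  rw [hY.card_eq] at e8
  have hq : 0 < Nat.card K := Nat.card_pos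
  apply Nat.eq_of_mul_eq_mul_left hq
  rw [← e2, ← e4, ← e5]
  generalize (Pt Γ.r Y.ρ Set.univ).relIndex (La Γ.r Y.ρ ⊓ Pt Γ.r Y.ρ T) = x at *
  generalize (Pt Γ.r Y.ρ' Set.univ).relIndex (La Γ.r Y.ρ' ⊓ Pt Γ.r Y.ρ' Tᶜ) = x' at *
  generalize (Pt Γ.r Y.ρ T).relIndex (La Γ.r Y.ρ) = y at *
  generalize ∏ w, Nat.card (BKND.H0 (Y.ρ'.comp (Γ.r w))) = A' at *
  rw [← e3] at e6
  calc Nat.card K * (y * x' * (Nat.card (BKND.B1 Y.ρ) * x)) =
      x' * Nat.card (BKND.B1 Y.ρ') * (Nat.card (BKND.B1 Y.ρ) * (x * y) *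
        Nat.card (BKND.H0 Y.ρ')) := by
        rw [← e8]
        ring
    _ = Nat.card K * (Nat.card (BKND.B1 Y.ρ') * x' * Nat.card K * A') := by
        rw [e6, e7]
        ring

/-- the second module of a good pair -/
theorem sit (hG : GAxT p Γ χ δ) (h : GoodP Γ Y) : Sit hG Y := by
  have := h.fin
  obtain ⟨h1, h2, -⟩ := (stPerf (stHoms stExt)) p K K' Y.b
    (fun v hv => by
      have h3 := Y.perf ⊥ v fun m' _ => hv m'
      simpa using h3)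
    (fun w hw => by
      have h3 := Y.perf' ⊥ w fun m _ => hw m
      simpa using h3)
  exact ⟨h, h1, h2⟩

end Main

end YANNT

open YANNT in
/-- **Module ANNT.** -/
theorem stAnnT (hD : StDual) : StAnnT := by
  classical
  intro p _ S _ G _ _ _ _ D _ _ _ _ Γ χ δ hG K K' _ _ Y hgood
  have hY : Sit hG Y := sit hG hgood
  have := hY.good.fin
  have := hY.fin'
  refine ⟨fun T b hb h => claim1 hD hY T b hb h, fun T => ⟨?_, ?_⟩⟩
  · have e1 := hY.good.card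
    have h1 : Nat.card (BKND.Z1 Y.ρ) ≠ 0 := by
      intro h0
      rw [h0, zero_mul] at e1
      refine absurd e1.symm (mul_ne_zero (pow_ne_zero _ Nat.card_pos.ne') ?_)
      rw [Finset.prod_ne_zero_iff]
      exact fun w _ => Nat.card_pos.ne'
    exact Nat.finite_of_card_ne_zero h1
  · have e1 := claim2 hD hY T
    rw [index_Pt hY T] at e1
    have e2 : Nat.card {f : G → K | f ∈ BKND.Z1 Y.ρ ∧
        ∀ w ∈ T, pb1 (Γ.r w) f ∈ BKND.B1 (Y.ρ.comp (Γ.r w))} =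
          Nat.card (KT Γ.r Y.ρ T) :=
      Nat.card_congr (Equiv.subtypeEquivRight fun f => (mem_KT Y).symm)
    have e3 : Nat.card {f : G → K' | f ∈ BKND.Z1 Y.ρ' ∧
        ∀ w ∉ T, pb1 (Γ.r w) f ∈ BKND.B1 (Y.ρ'.comp (Γ.r w))} =
          Nat.card (KT Γ.r Y.ρ' Tᶜ) :=
      Nat.card_congr (Equiv.subtypeEquivRight fun f => (mem_KT Y.flip).symm)
    rw [e2, e3]
    have hpos : 0 < ∏ w, (if w ∈ T then Nat.card (BKND.H0 (Y.ρ'.comp (Γ.r w))) else 1) := by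
      refine Finset.prod_pos fun w _ => ?_
      split_ifs
      · exact Nat.card_pos
      · exact Nat.one_pos
    apply Nat.eq_of_mul_eq_mul_left hpos
    have e4 : (∏ w, if w ∈ T then Nat.card K ^ δ w *
        Nat.card (BKND.H0 (Y.ρ.comp (Γ.r w))) * Nat.card (BKND.H0 (Y.ρ'.comp (Γ.r w)))
        else 1) = (Nat.card K ^ ∑ w, if w ∈ T then δ w else 0) *
          (∏ w, if w ∈ T then Nat.card (BKND.H0 (Y.ρ.comp (Γ.r w))) else 1) *
          ∏ w, (if w ∈ T then Nat.card (BKND.H0 (Y.ρ'.comp (Γ.r w))) else 1) := by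
      rw [← Finset.prod_pow_eq_pow_sum, ← Finset.prod_mul_distrib, ← Finset.prod_mul_distrib]
      refine Finset.prod_congr rfl fun w _ => ?_
      split_ifs
      · rfl
      · rw [pow_zero, mul_one, mul_one]
    have e5 : (∏ w, Nat.card (BKND.H0 (Y.ρ'.comp (Γ.r w)))) =
        (∏ w, if w ∈ T then 1 else Nat.card (BKND.H0 (Y.ρ'.comp (Γ.r w)))) *
          ∏ w, (if w ∈ T then Nat.card (BKND.H0 (Y.ρ'.comp (Γ.r w))) else 1) := by
      rw [← Finset.prod_mul_distrib]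
      refine Finset.prod_congr rfl fun w _ => ?_
      split_ifs
      · rw [one_mul]
      · rw [mul_one]
    rw [e4, e5] at e1
    linear_combination e1

end BKT
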