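import Pool.Agent.Lib.MP_7c08ba_nt.T1.StY
import Pool.Agent.Lib.MP_7c08ba_nt.Met.XIND

set_option autoImplicit false

/-!
Parity for general residual representations, part Y, module CNT: the numbers of classes for
`P ≤ N ≤ Q`.
-/

noncomputable section

namespace BKT

open BKPar (Loc1 Loc2)
open BKND (Sm)
open BKMet
open BKMet.XIND (Zr_mono Br_mono ri ri_mul ri_ne)

namespace YCNT

variable {p : ℕ} [Fact p.Prime] {S : Type} [Fintype S] {G : Type} [Group G] [TopologicalSpace G]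
  [IsTopologicalGroup G] [CompactSpace G] {D : S → Type} [∀ w, Group (D w)]
  [∀ w, TopologicalSpace (D w)] (Γ : Glo S G D (QZ p) (QZ p)) {M M' : Type} [AddCommGroup M]
  [AddCommGroup M']

theorem lk_flip (h2 : StSwap) (h3 : StPerp) (X : Pair ℤ Γ.α M M') (T : Set S)
    (P N Q : Submodule ℤ M) (hN : X.Stable N)
    (h : LK Γ X.flip Tᶜ (X.perp Q) (X.perp N) (X.perp P)) :
    ∀ y ∈ X.flip.Zr Γ.r Tᶜ (X.perp N) (X.perp P), (∀ u ∈ X.Zr Γ.r T N Q, CT Γ X T u y = 0) →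
      ∃ y' ∈ X.flip.Zr Γ.r Tᶜ (X.perp Q) (X.perp P),
        y - y' ∈ X.flip.Br Tᶜ (X.perp N) (X.perp P) := by
  intro y hy h0
  refine h y hy (fun u hu => ?_)
  have e : X.flip.flip = X := rfl
  rw [e, compl_compl, (h3 ℤ p G Γ.α M M' X).1 N, (h3 ℤ p G Γ.α M M' X).1 Q] at hu
  rw [← h2 ℤ S G D (QZ p) (QZ p) Γ M M' X T N hN u (Zr_mono X Γ.r T le_rfl le_top hu) y
    (Zr_mono X.flip Γ.r Tᶜ le_rfl le_top hy)]
  exact h0 u hu

end YCNT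

/-- Module CNT. -/
theorem stCnt (h1 : StCT) (h2 : StSwap) (h3 : StPerp) (h4 : StExact) (h5 : StDual) : StCnt := by
  intro p _ S _ G _ _ _ _ D _ _ Γ M M' _ _ _ X T hTn hTn' P N1 Q hP hN1 hQ hPN1 hN1Q hA hA'
    a1 a2 a3 a4
  obtain ⟨hbi, hmono, _, _, hstab, hfin⟩ := h3 ℤ p G Γ.α M M' X
  have hx := (h4 ℤ G S D Γ.r (QZ p) Γ.α M M' X T hTn)
  have hx' := (h4 ℤ G S D Γ.r (QZ p) Γ.α M' M X.flip Tᶜ hTn')
  obtain ⟨_, _, x3⟩ := hx.2 P N1 Q hP hN1 hQ hPN1 hN1Q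
  obtain ⟨_, _, x3'⟩ := hx'.2 (X.perp Q) (X.perp N1) (X.perp P) (hstab Q hQ) (hstab N1 hN1)
    (hstab P hP) (hmono N1 Q hN1Q) (hmono P N1 hPN1)
  have hBZ : X.Br T N1 Q ≤ X.Zr Γ.r T N1 Q := hx.1 N1 Q hN1 hN1Q hQ
  have hBZ' : X.flip.Br Tᶜ (X.perp N1) (X.perp P) ≤ X.flip.Zr Γ.r Tᶜ (X.perp N1) (X.perp P) :=
    hx'.1 (X.perp N1) (X.perp P) (hstab N1 hN1) (hmono P N1 hPN1) (hstab P hP)
  -- the kernels
  set K := (X.Zr Γ.r T P Q) ⊔ (X.Br T N1 Q) with hK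
  set K' := (X.flip.Zr Γ.r Tᶜ (X.perp Q) (X.perp P)) ⊔ (X.flip.Br Tᶜ (X.perp N1) (X.perp P))
    with hK'
  have hKZ : K ≤ X.Zr Γ.r T N1 Q := sup_le (Zr_mono X Γ.r T hPN1 le_rfl) hBZ
  have hKZ' : K' ≤ X.flip.Zr Γ.r Tᶜ (X.perp N1) (X.perp P) :=
    sup_le (Zr_mono X.flip Γ.r Tᶜ (hmono N1 Q hN1Q) le_rfl) hBZ'
  obtain ⟨cadd, cadd', csmul, cN⟩ := h1 ℤ S G D (QZ p) (QZ p) Γ M M' X T
  have cNf := (h1 ℤ S G D (QZ p) (QZ p) Γ M' M X.flip Tᶜ).2.2.2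
  have hA'' := YCNT.lk_flip Γ h2 h3 X T P N1 Q hN1 hA'
  have b1 : ri (X.Br T N1 Q) (X.Zr Γ.r T N1 Q) ≠ 0 := a2
  have hKfin : ri K (X.Zr Γ.r T N1 Q) ≠ 0 := ri_ne (le_sup_right : X.Br T N1 Q ≤ K) b1
  obtain ⟨hdual, _⟩ := h5 p ((G → M) × (S → M)) ((G → M') × (S → M'))
    (fun x y => CT Γ X T x y) (X.Zr Γ.r T N1 Q).toAddSubgroup K.toAddSubgroup
    (X.flip.Zr Γ.r Tᶜ (X.perp N1) (X.perp P)).toAddSubgroup K'.toAddSubgroup
    (fun x _ x' _ y _ => cadd x x' y) (fun x _ y _ y' _ => cadd' x y y')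
    (fun x hx => hKZ hx) (fun y hy => hKZ' hy)
    (fun x hx => by
      constructor
      · intro hxK y hy
        obtain ⟨a, ha, b, hb, rfl⟩ := Submodule.mem_sup.mp hxK
        have e1 : CT Γ X T a y = 0 := (cN P hP).2.2 a (Zr_mono X Γ.r T le_rfl le_top ha) y
          (Zr_mono X.flip Γ.r Tᶜ le_top le_rfl hy)
        have e2 : CT Γ X T b y = 0 := (cN N1 hN1).1 b (Br_mono X T le_rfl le_top hb) y
          (Zr_mono X.flip Γ.r Tᶜ le_rfl le_top hy)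
        change CT Γ X T (a + b) y = 0
        rw [cadd, e1, e2, add_zero]
      · intro h
        obtain ⟨x', hx', hxx'⟩ := hA x hx h
        exact Submodule.mem_sup.mpr ⟨x', hx', x - x', hxx', by abel⟩)
    (fun y hy => by
      constructor
      · intro hyK x hx
        obtain ⟨a, ha, b, hb, rfl⟩ := Submodule.mem_sup.mp hyK
        have hxt : x ∈ X.Zr Γ.r T N1 ⊤ := Zr_mono X Γ.r T le_rfl le_top hx
        have hat : a ∈ X.flip.Zr Γ.r Tᶜ (X.perp N1) ⊤ :=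
          Zr_mono X.flip Γ.r Tᶜ (hmono N1 Q hN1Q) le_top ha
        have e1 : CT Γ X T x a = 0 := by
          rw [h2 ℤ S G D (QZ p) (QZ p) Γ M M' X T N1 hN1 x hxt a hat]
          refine (cNf (X.perp Q) (hstab Q hQ)).2.2 a (Zr_mono X.flip Γ.r Tᶜ le_rfl le_top ha) x ?_
          have e : X.flip.flip = X := rfl
          rw [e, compl_compl, hbi Q]
          exact Zr_mono X Γ.r T le_top le_rfl hx
        have e2 : CT Γ X T x b = 0 := (cN N1 hN1).2.1 x hxt b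
          (Br_mono X.flip Tᶜ le_rfl le_top hb)
        change CT Γ X T x (a + b) = 0
        rw [cadd', e1, e2, add_zero]
      · intro h
        obtain ⟨y', hy', hyy'⟩ := hA'' y hy h
        exact Submodule.mem_sup.mpr ⟨y', hy', y - y', hyy', by abel⟩)
    hKfin
  have hρ : ri K' (X.flip.Zr Γ.r Tᶜ (X.perp N1) (X.perp P)) = ri K (X.Zr Γ.r T N1 Q) := hdual
  have m1 : ri (X.Br T N1 Q) K * ri K (X.Zr Γ.r T N1 Q) =
      ri (X.Br T N1 Q) (X.Zr Γ.r T N1 Q) := ri_mul le_sup_right hKZ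
  have m2 : ri (X.flip.Br Tᶜ (X.perp N1) (X.perp P)) K' * ri K (X.Zr Γ.r T N1 Q) =
      ri (X.flip.Br Tᶜ (X.perp N1) (X.perp P)) (X.flip.Zr Γ.r Tᶜ (X.perp N1) (X.perp P)) := by
    rw [← hρ]
    exact ri_mul le_sup_right hKZ'
  have x3a : hT Γ X T P Q = hT Γ X T P N1 * ri (X.Br T N1 Q) K := x3
  have x3b : hT Γ X.flip Tᶜ (X.perp Q) (X.perp P) =
      hT Γ X.flip Tᶜ (X.perp Q) (X.perp N1) *
        ri (X.flip.Br Tᶜ (X.perp N1) (X.perp P)) K' := x3'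
  have m1' : ri (X.Br T N1 Q) K * ri K (X.Zr Γ.r T N1 Q) = hT Γ X T N1 Q := m1
  have m2' : ri (X.flip.Br Tᶜ (X.perp N1) (X.perp P)) K' * ri K (X.Zr Γ.r T N1 Q) =
      hT Γ X.flip Tᶜ (X.perp N1) (X.perp P) := m2
  have c1 : ri (X.Br T N1 Q) K ≠ 0 := fun h => a2 (by rw [← m1', h, zero_mul])
  have c2 : ri (X.flip.Br Tᶜ (X.perp N1) (X.perp P)) K' ≠ 0 :=
    fun h => a4 (by rw [← m2', h, zero_mul])
  refine ⟨?_, ?_, ?_⟩
  · rw [x3a]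
    exact Nat.mul_ne_zero a1 c1
  · rw [x3b]
    exact Nat.mul_ne_zero a3 c2
  · rw [x3a, x3b, ← m1', ← m2']
    ring

end BKT
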