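import Pool.Agent.Lib.MP_7c08ba_nt.T1.StY
import Pool.Agent.Lib.MP_7c08ba_nt.Met.XPERP
import Pool.Agent.Lib.MP_7c08ba_nt.Met.XHOMS
import Pool.Agent.Lib.MP_7c08ba_nt.Met.XEXT

set_option autoImplicit false
set_option linter.unusedSectionVars false

/-!
Parity for general residual representations, part Y, module EFM: the Euler characteristic for
modules killed by `p` on which `U` acts trivially.
-/

noncomputable section

namespace BKT

open BKPar (Loc1 Loc2)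
open BKND (Sm)
open BKMet

namespace YEFM

/-! ### Two surjections with the same kernel -/

theorem equiv_of_ker {M A B : Type*} [AddCommGroup M] [AddCommGroup A] [AddCommGroup B]
    (a : M →+ A) (b : M →+ B) (ha : Function.Surjective a) (hb : Function.Surjective b)
    (h : ∀ x, a x = 0 ↔ b x = 0) : ∃ e : A ≃+ B, ∀ x, e (a x) = b x := by
  have key : ∀ x y, a x = a y → b x = b y := by
    intro x y hxy
    have h1 : a (x - y) = 0 := by rw [map_sub, hxy, sub_self]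
    have h2 := (h _).1 h1
    rw [map_sub, sub_eq_zero] at h2
    exact h2
  choose s hs using ha
  let f : A →+ B := AddMonoidHom.mk' (fun y => b (s y)) (by
    intro x y
    rw [← map_add]
    apply key
    rw [map_add, hs, hs, hs])
  have hf : ∀ x, f (a x) = b x := fun x => key _ _ (hs _)
  refine ⟨AddEquiv.ofBijective f ⟨?_, ?_⟩, fun x => hf x⟩
  · rw [injective_iff_map_eq_zero]
    intro y hy
    rw [← hs y]
    exact (h _).2 hy
  · intro z
    obtain ⟨x, rfl⟩ := hb z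
    exact ⟨a x, hf x⟩

/-! ### The dual pair -/

section Dup

variable {p : ℕ} [Fact p.Prime] {G : Type} [Group G] [TopologicalSpace G] [IsTopologicalGroup G]
  [CompactSpace G] {χ : G →* ℤ_[p]ˣ} {α : G →* AddMonoid.End (QZ p)}

theorem dup1 (h : StDup) (hα : α = actA χ) (hχ : Continuous χ) {M : Type} [AddCommGroup M]
    [Finite M] (ρ : G →* AddMonoid.End M) (hρ : Sm ρ) (hp : ∃ n : ℕ, ∀ m : M, p ^ n • m = 0) :
    ∃ X : Pair ℤ α M (M →+ QZ p), X.ρ = ρ := by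
  subst hα
  obtain ⟨X, h1, -, -⟩ := (h p G χ hχ M).1 ρ hρ hp
  exact ⟨X, h1⟩

theorem dup2 (h : StDup) (hα : α = actA χ) (hχ : Continuous χ) {M M' : Type} [AddCommGroup M]
    [Finite M] [AddCommGroup M'] (X : Pair ℤ α M M') :
    ∃ e : M' ≃+ (M →+ QZ p), ∀ m m', e m' m = X.b m m' := by
  subst hα
  obtain ⟨-, e, he, -⟩ := (h p G χ hχ M).2 M' X
  exact ⟨e, he⟩

/-- Isomorphic first modules give isomorphic pairs. -/
theorem isQuo_of_equiv (h : StDup) (hα : α = actA χ) (hχ : Continuous χ) {K K' N N' : Type}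
    [AddCommGroup K] [AddCommGroup K'] [AddCommGroup N] [AddCommGroup N'] [Finite K] [Finite N]
    (Y : Pair ℤ α K K') (Z : Pair ℤ α N N') (e : K ≃+ N)
    (he : ∀ g x, e (Y.ρ g x) = Z.ρ g (e x)) :
    ∃ e' : K' → N', IsQuo Y ⊥ ⊤ Z e e' := by
  obtain ⟨u, hu⟩ := dup2 h hα hχ Y
  obtain ⟨v, hv⟩ := dup2 h hα hχ Z
  have h1 : ∀ y : K', ∃ z : N', ∀ x, Z.b (e x) z = Y.b x y := by
    intro y
    refine ⟨v.symm ((u y).comp e.symm.toAddMonoidHom), fun x => ?_⟩
    rw [← hv, AddEquiv.apply_symm_apply, ← hu]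
    change u y (e.symm (e x)) = u y x
    rw [AddEquiv.symm_apply_apply]
  have h2 : ∀ z : N', ∃ y : K', ∀ x, Z.b (e x) z = Y.b x y := by
    intro z
    refine ⟨u.symm ((v z).comp e.toAddMonoidHom), fun x => ?_⟩
    rw [← hu, AddEquiv.apply_symm_apply, ← hv]
    rfl
  have hZ : ∀ z z' : N', (∀ x, Z.b (e x) z = Z.b (e x) z') → z = z' := by
    intro z z' hz
    rw [← sub_eq_zero]
    refine XPERP.inj Z fun n => ?_
    obtain ⟨x, rfl⟩ := e.surjective n
    rw [map_sub, hz x, sub_self]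
  choose e' he' using h1
  refine ⟨e', ?_⟩
  constructor
  · intro x _ y _
    exact map_add e x y
  · intro x _
    rw [Submodule.mem_bot]
    exact e.map_eq_zero_iff
  · intro a
    exact ⟨e.symm a, trivial, e.apply_symm_apply a⟩
  · intro g x _
    exact he g x
  · intro x _ y _
    apply hZ
    intro z
    rw [map_add, he', he', he', map_add]
  · intro x _
    rw [XPERP.perp_top, Submodule.mem_bot]
    constructor
    · intro hx
      refine XPERP.inj Y fun m => ?_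
      rw [← he', hx, map_zero]
    · rintro rfl
      apply hZ
      intro z
      rw [he', map_zero, map_zero]
  · intro a
    obtain ⟨y, hy⟩ := h2 a
    refine ⟨y, ?_, ?_⟩
    · rw [XPERP.perp_bot]
      trivial
    · apply hZ
      intro z
      rw [he', hy]
  · intro g x _
    apply hZ
    intro m
    have h3 : Y.ρ g (Y.ρ g⁻¹ m) = m := by
      change (Y.ρ g * Y.ρ g⁻¹) m = m
      rw [← map_mul, mul_inv_cancel, map_one]
      rfl
    have h4 : Z.b (e m) (Z.ρ' g (e' x)) = Y.b m (Y.ρ' g x) := by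
      rw [← h3, he, Z.eqv, he', ← Y.eqv]
    rw [he', h4]
  · intro x _ y _
    exact (he' y x).symm

end Dup

/-! ### The invariant -/

section Val

variable {p : ℕ} [Fact p.Prime] {S : Type} [Fintype S] {G : Type} [Group G]
  [TopologicalSpace G] {D : S → Type} [∀ w, Group (D w)] [∀ w, TopologicalSpace (D w)]
  (Γ : Glo S G D (QZ p) (QZ p))

/-- the logarithm of the defect of the Euler characteristic -/
def val {M M' : Type} [AddCommGroup M] [AddCommGroup M'] (Y : Pair ℤ Γ.α M M') (T : Set S)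
    (c : ℕ) : ℝ :=
  Real.log (hT Γ Y T ⊥ ⊤) + ((c : ℝ) - 1) * Real.log (Nat.card M) -
    Real.log (hT Γ Y.flip Tᶜ ⊥ ⊤)

open Classical in
/-- the sum of the local degrees -/
def cT (T : Set S) (δ : S → ℕ) : ℕ := ∑ w, if w ∈ T then δ w else 0

theorem relIndex_bot_top {M : Type} [AddCommGroup M] :
    (⊥ : Submodule ℤ M).toAddSubgroup.relIndex (⊤ : Submodule ℤ M).toAddSubgroup =
      Nat.card M := by
  rw [Submodule.bot_toAddSubgroup, Submodule.top_toAddSubgroup, AddSubgroup.relIndex_bot_left]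
  exact Nat.card_congr (Equiv.Set.univ M)

theorem val_of_ef {M M' : Type} [AddCommGroup M] [AddCommGroup M'] [Finite M]
    (Y : Pair ℤ Γ.α M M') (T : Set S) (δ : S → ℕ) (h : EF Γ Y T ⊥ ⊤ δ) :
    val Γ Y T (cT T δ) = 0 := by
  obtain ⟨h1, h2, h3⟩ := h
  rw [relIndex_bot_top] at h3
  rw [XPERP.perp_top, XPERP.perp_bot] at h2 h3
  have h4 := congrArg (fun n : ℕ => Real.log (n : ℝ)) h3
  have hM : ((Nat.card M : ℕ) : ℝ) ≠ 0 := by
    exact_mod_cast Nat.card_pos.ne'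
  have h1' : ((hT Γ Y T ⊥ ⊤ : ℕ) : ℝ) ≠ 0 := by exact_mod_cast h1
  have h2' : ((hT Γ Y.flip Tᶜ ⊥ ⊤ : ℕ) : ℝ) ≠ 0 := by exact_mod_cast h2
  simp only [Nat.cast_mul, Nat.cast_pow] at h4
  rw [Real.log_mul h1' (pow_ne_zero _ hM), Real.log_mul h2' hM, Real.log_pow] at h4
  unfold val
  have h5 : ((cT T δ : ℕ) : ℝ) * Real.log (Nat.card M) =
      ((∑ w, (open Classical in if w ∈ T then δ w else 0) : ℕ) : ℝ) * Real.log (Nat.card M) := rfl
  linarith

theorem ef_of_val {M M' : Type} [AddCommGroup M] [AddCommGroup M'] [Finite M]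
    (Y : Pair ℤ Γ.α M M') (T : Set S) (δ : S → ℕ) (h1 : hT Γ Y T ⊥ ⊤ ≠ 0)
    (h2 : hT Γ Y.flip Tᶜ ⊥ ⊤ ≠ 0) (h : val Γ Y T (cT T δ) = 0) : EF Γ Y T ⊥ ⊤ δ := by
  unfold EF
  rw [relIndex_bot_top, XPERP.perp_top, XPERP.perp_bot]
  refine ⟨h1, h2, ?_⟩
  have hM : ((Nat.card M : ℕ) : ℝ) ≠ 0 := by
    exact_mod_cast Nat.card_pos.ne'
  have h1' : ((hT Γ Y T ⊥ ⊤ : ℕ) : ℝ) ≠ 0 := by exact_mod_cast h1
  have h2' : ((hT Γ Y.flip Tᶜ ⊥ ⊤ : ℕ) : ℝ) ≠ 0 := by exact_mod_cast h2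
  have h4 : Real.log ((hT Γ Y T ⊥ ⊤ : ℕ) * (Nat.card M : ℝ) ^ (cT T δ)) =
      Real.log ((hT Γ Y.flip Tᶜ ⊥ ⊤ : ℕ) * (Nat.card M : ℝ)) := by
    rw [Real.log_mul h1' (pow_ne_zero _ hM), Real.log_mul h2' hM, Real.log_pow]
    unfold val at h
    linarith
  have h5 : (0 : ℝ) < (hT Γ Y T ⊥ ⊤ : ℕ) * (Nat.card M : ℝ) ^ (cT T δ) := by
    have := Nat.cast_nonneg (α := ℝ) (hT Γ Y T ⊥ ⊤)
    positivity
  have h6 : (0 : ℝ) < (hT Γ Y.flip Tᶜ ⊥ ⊤ : ℕ) * (Nat.card M : ℝ) := by positivity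
  have h7 := Real.log_injOn_pos h5 h6 h4
  exact_mod_cast h7

end Val

/-! ### The additive function -/

section Fun

variable {p : ℕ} [Fact p.Prime] {S : Type} [Fintype S] {G : Type} [Group G]
  [TopologicalSpace G] [IsTopologicalGroup G] [CompactSpace G] {D : S → Type}
  [∀ w, Group (D w)] [∀ w, TopologicalSpace (D w)]
  (Γ : Glo S G D (QZ p) (QZ p)) {χ : G →* ℤ_[p]ˣ}

theorem stable_bot {R : Type} [CommRing R] {A M M' : Type} [AddCommGroup A]
    {α : G →* AddMonoid.End A} [AddCommGroup M] [Module R M] [AddCommGroup M'] [Module R M']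
    (X : Pair R α M M') : X.Stable ⊥ := by
  intro g m hm
  rw [Submodule.mem_bot] at hm ⊢
  rw [hm, map_zero]

theorem stable_top {R : Type} [CommRing R] {A M M' : Type} [AddCommGroup A]
    {α : G →* AddMonoid.End A} [AddCommGroup M] [Module R M] [AddCommGroup M'] [Module R M']
    (X : Pair R α M M') : X.Stable ⊤ := fun _ _ _ => trivial

theorem val_congr (hdup : StDup) (hiso : StIso) (hα : Γ.α = actA χ) (hχ : Continuous χ)
    {K K' N N' : Type} [AddCommGroup K] [AddCommGroup K'] [AddCommGroup N] [AddCommGroup N']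
    [Finite K] [Finite N] (Y : Pair ℤ Γ.α K K') (Z : Pair ℤ Γ.α N N') (e : K ≃+ N)
    (he : ∀ g x, e (Y.ρ g x) = Z.ρ g (e x)) (T : Set S) (c : ℕ) :
    val Γ Y T c = val Γ Z T c := by
  obtain ⟨e', h⟩ := isQuo_of_equiv hdup hα hχ Y Z e he
  obtain ⟨h1, -, -⟩ := hiso p S G D Γ K K' Y T ⊥ ⊤ (stable_bot Y) (stable_top Y) bot_le N N' Z e
    e' h
  obtain ⟨-, h2, -⟩ := hiso p S G D Γ K K' Y Tᶜ ⊥ ⊤ (stable_bot Y) (stable_top Y) bot_le N N' Z e
    e' h
  rw [XPERP.perp_top, XPERP.perp_bot] at h2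
  unfold val
  rw [h1, h2, Nat.card_congr e.toEquiv]

/-- the additive function -/
def fv (U : Subgroup G) [U.Normal] (T : Set S) (c : ℕ) (M : Type) [AddCommGroup M]
    (σ : (G ⧸ U) →* AddMonoid.End M) : ℝ :=
  Classical.epsilon fun v => ∀ (M' : Type) (_ : AddCommGroup M') (Y : Pair ℤ Γ.α M M'),
    Y.ρ = σ.comp (QuotientGroup.mk' U) → val Γ Y T c = v

theorem fv_eq (hdup : StDup) (hiso : StIso) (hα : Γ.α = actA χ) (hχ : Continuous χ)
    (U : Subgroup G) [U.Normal] (T : Set S) (c : ℕ) {M M' : Type} [AddCommGroup M]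
    [AddCommGroup M'] [Finite M] (σ : (G ⧸ U) →* AddMonoid.End M) (Y : Pair ℤ Γ.α M M')
    (hY : Y.ρ = σ.comp (QuotientGroup.mk' U)) : fv Γ U T c M σ = val Γ Y T c := by
  have h : ∃ v, ∀ (M' : Type) (_ : AddCommGroup M') (Y : Pair ℤ Γ.α M M'),
      Y.ρ = σ.comp (QuotientGroup.mk' U) → val Γ Y T c = v := by
    refine ⟨val Γ Y T c, fun M'' _ Z hZ => ?_⟩
    refine val_congr Γ hdup hiso hα hχ Z Y (AddEquiv.refl M) (fun g x => ?_) T c
    rw [hZ, hY]
    rfl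
  exact (Classical.epsilon_spec h M' _ Y hY).symm

/-! ### The action on the dual -/

theorem smul_one_add {x : ℤ_[p]} (hx : PadicInt.toZMod x = 1) {y : QZ p} (hy : p • y = 0) :
    x • y = y := by
  have h1 : (p : ℤ_[p]) ∣ x - 1 := by
    rw [← Ideal.mem_span_singleton, ← PadicInt.maximalIdeal_eq_span_p, ← PadicInt.ker_toZMod,
      RingHom.mem_ker, map_sub, hx, map_one, sub_self]
  obtain ⟨t, ht⟩ := h1
  have h2 : x = 1 + t * p := by
    rw [mul_comm, ← ht]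
    ring
  rw [h2, add_smul, one_smul, mul_smul, Nat.cast_smul_eq_nsmul, hy, smul_zero, add_zero]

theorem triv' {α : G →* AddMonoid.End (QZ p)} (hα : α = actA χ) {M M' : Type} [AddCommGroup M]
    [AddCommGroup M'] (X : Pair ℤ α M M') (hp : ∀ m : M, p • m = 0) {u : G} (hu : X.ρ u = 1)
    (hχ : PadicInt.toZMod ((χ u : ℤ_[p]ˣ) : ℤ_[p]) = 1) : X.ρ' u = 1 := by
  ext m'
  change X.ρ' u m' = m'
  rw [← sub_eq_zero]
  refine XPERP.inj X fun m => ?_
  have h1 := X.eqv u m m'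
  have h0 : ∀ y : QZ p, α u y = ((χ u : ℤ_[p]ˣ) : ℤ_[p]) • y := by
    intro y
    rw [hα]
    rfl
  rw [hu, h0] at h1
  have h2 : p • X.b m m' = 0 := by
    have h3 : p • X.b m m' = X.b (p • m) m' := by
      rw [map_nsmul]
      rfl
    rw [h3, hp, map_zero]
    rfl
  rw [smul_one_add hχ h2] at h1
  rw [map_sub, sub_eq_zero]
  exact h1

theorem pgr_of_triv {M : Type} [AddCommGroup M] (ρ : G →* AddMonoid.End M) (U : Subgroup G)
    (h : ∀ u ∈ U, ρ u = 1) : PGr p ρ U := by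
  intro u hu
  refine ⟨0, ?_⟩
  rw [h u hu, one_pow]

theorem sm_of_triv {M : Type} [AddCommGroup M] (ρ : G →* AddMonoid.End M) {U : Subgroup G}
    (hU : IsOpen (U : Set G)) (h : ∀ u ∈ U, ρ u = 1) : Sm ρ := ⟨U, hU, h⟩

theorem comp_mk (U : Subgroup G) [U.Normal] {M : Type} [AddCommGroup M]
    (σ : (G ⧸ U) →* AddMonoid.End M) : ∀ u ∈ U, (σ.comp (QuotientGroup.mk' U)) u = 1 := by
  intro u hu
  have h : QuotientGroup.mk' U u = 1 := (QuotientGroup.eq_one_iff u).2 hu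
  change σ (QuotientGroup.mk' U u) = 1
  rw [h, map_one]

/-! ### Additivity -/

theorem hT_flip_ne {δ : S → ℕ} (hgfn : StGfn) (hhoms : StHoms) {U : Subgroup G}
    (hsit : SitY p Γ χ δ U) {M M' : Type} [AddCommGroup M] [AddCommGroup M'] [Finite M]
    (X : Pair ℤ Γ.α M M') (hX : PGr p X.ρ' U) {T : Set S} (hT' : Tᶜ.Nonempty)
    {P N : Submodule ℤ M} (hP : X.Stable P) (hN : X.Stable N) (hPN : P ≤ N) :
    hT Γ X.flip Tᶜ (X.perp N) (X.perp P) ≠ 0 := by
  have hfin : Finite M' := (XPERP.finite X hhoms).1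
  exact hgfn p S G D Γ χ δ U hsit M' M X.flip hX Tᶜ hT' (X.perp N) (X.perp P)
    (XPERP.stable X hN) (XPERP.stable X hP) (XPERP.perp_anti X hPN)

end Fun

section Add

variable {p : ℕ} [Fact p.Prime] {S : Type} [Fintype S] {G : Type} [Group G]
  [TopologicalSpace G] [IsTopologicalGroup G] [CompactSpace G] {D : S → Type}
  [∀ w, Group (D w)] [∀ w, TopologicalSpace (D w)] [∀ w, IsTopologicalGroup (D w)]
  [∀ w, CompactSpace (D w)] (Γ : Glo S G D (QZ p) (QZ p)) {χ : G →* ℤ_[p]ˣ} {δ : S → ℕ}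
  {U : Subgroup G}

/-- The value for a pair in terms of a stable submodule. -/
theorem val_add (hlkt : StLkT) (hcnt : StCnt) (hgfn : StGfn) (hhoms : StHoms)
    (hsit : SitY p Γ χ δ U) {M M' : Type} [AddCommGroup M] [AddCommGroup M'] [Finite M]
    (X : Pair ℤ Γ.α M M') (hX : PGr p X.ρ U) (hX' : PGr p X.ρ' U) {T : Set S} (hT1 : T.Nonempty)
    (hT2 : Tᶜ.Nonempty) (c : ℕ) {P : Submodule ℤ M} (hP : X.Stable P) :
    val Γ X T c = (Real.log (hT Γ X T ⊥ P) +
      ((c : ℝ) - 1) * Real.log ((⊥ : Submodule ℤ M).toAddSubgroup.relIndex P.toAddSubgroup) -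
      Real.log (hT Γ X.flip Tᶜ (X.perp P) (X.perp ⊥))) +
      (Real.log (hT Γ X T P ⊤) +
      ((c : ℝ) - 1) * Real.log (P.toAddSubgroup.relIndex (⊤ : Submodule ℤ M).toAddSubgroup) -
      Real.log (hT Γ X.flip Tᶜ (X.perp ⊤) (X.perp P))) := by
  have hfin : Finite M' := (XPERP.finite X hhoms).1
  have hb := stable_bot X
  have ht := stable_top X
  have a1 : hT Γ X T ⊥ P ≠ 0 := hgfn p S G D Γ χ δ U hsit M M' X hX T hT1 ⊥ P hb hP bot_le
  have a2 : hT Γ X T P ⊤ ≠ 0 := hgfn p S G D Γ χ δ U hsit M M' X hX T hT1 P ⊤ hP ht le_top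
  have a3 := hT_flip_ne Γ hgfn hhoms hsit X hX' hT2 hP ht le_top
  have a4 := hT_flip_ne Γ hgfn hhoms hsit X hX' hT2 hb hP bot_le
  have k1 : LK Γ X T ⊥ P ⊤ :=
    hlkt p S G D Γ χ δ U hsit M M' X hX T hT1 hT2 ⊥ P ⊤ hb hP ht bot_le le_top
  have k2 : LK Γ X.flip Tᶜ (X.perp ⊤) (X.perp P) (X.perp ⊥) := by
    refine hlkt p S G D Γ χ δ U hsit M' M X.flip hX' Tᶜ hT2 ?_ _ _ _ (XPERP.stable X ht)
      (XPERP.stable X hP) (XPERP.stable X hb) (XPERP.perp_anti X le_top)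
      (XPERP.perp_anti X bot_le)
    rw [compl_compl]
    exact hT1
  obtain ⟨b1, b2, b3⟩ := hcnt p S G D Γ M M' X T hT1 hT2 ⊥ P ⊤ hb hP ht bot_le le_top k1 k2 a1 a2
    a3 a4
  have c1 : (⊥ : Submodule ℤ M).toAddSubgroup.relIndex P.toAddSubgroup *
      P.toAddSubgroup.relIndex (⊤ : Submodule ℤ M).toAddSubgroup = Nat.card M := by
    rw [AddSubgroup.relIndex_mul_relIndex _ _ _ (by exact (bot_le : (⊥ : Submodule ℤ M) ≤ P))
      (by exact (le_top : P ≤ (⊤ : Submodule ℤ M))), relIndex_bot_top]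
  have hM : Nat.card M ≠ 0 := Nat.card_pos.ne'
  have c2 : (⊥ : Submodule ℤ M).toAddSubgroup.relIndex P.toAddSubgroup ≠ 0 := by
    intro h
    rw [h, zero_mul] at c1
    exact hM c1.symm
  have c3 : P.toAddSubgroup.relIndex (⊤ : Submodule ℤ M).toAddSubgroup ≠ 0 := by
    intro h
    rw [h, mul_zero] at c1
    exact hM c1.symm
  have d1 : Real.log (Nat.card M) =
      Real.log ((⊥ : Submodule ℤ M).toAddSubgroup.relIndex P.toAddSubgroup) +
      Real.log (P.toAddSubgroup.relIndex (⊤ : Submodule ℤ M).toAddSubgroup) := by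
    rw [← c1, Nat.cast_mul, Real.log_mul (Nat.cast_ne_zero.2 c2) (Nat.cast_ne_zero.2 c3)]
  have d2 := congrArg (fun n : ℕ => Real.log (n : ℝ)) b3
  simp only [Nat.cast_mul] at d2
  rw [Real.log_mul (Nat.cast_ne_zero.2 b1)
      (mul_ne_zero (Nat.cast_ne_zero.2 a3) (Nat.cast_ne_zero.2 a4)),
    Real.log_mul (Nat.cast_ne_zero.2 a3) (Nat.cast_ne_zero.2 a4),
    Real.log_mul (mul_ne_zero (Nat.cast_ne_zero.2 a1) (Nat.cast_ne_zero.2 a2))
      (Nat.cast_ne_zero.2 b2),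
    Real.log_mul (Nat.cast_ne_zero.2 a1) (Nat.cast_ne_zero.2 a2)] at d2
  have e1 : X.perp ⊤ = ⊥ := XPERP.perp_top X
  have e2 : X.perp ⊥ = ⊤ := XPERP.perp_bot X
  unfold val
  rw [d1]
  rw [e1, e2] at d2 ⊢
  linarith

/-- The value for a subquotient. -/
theorem val_quo (hiso : StIso) {M M' : Type} [AddCommGroup M] [AddCommGroup M'] [Finite M]
    (X : Pair ℤ Γ.α M M') {T : Set S} (c : ℕ) {P N : Submodule ℤ M} (hP : X.Stable P)
    (hN : X.Stable N) (hPN : P ≤ N) {K K' : Type} [AddCommGroup K] [AddCommGroup K']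
    (Y : Pair ℤ Γ.α K K') (φ : M → K) (φ' : M' → K') (h : IsQuo X P N Y φ φ') :
    val Γ Y T c = Real.log (hT Γ X T P N) +
      ((c : ℝ) - 1) * Real.log (P.toAddSubgroup.relIndex N.toAddSubgroup) -
      Real.log (hT Γ X.flip Tᶜ (X.perp N) (X.perp P)) := by
  obtain ⟨h1, -, h3⟩ := hiso p S G D Γ M M' X T P N hP hN hPN K K' Y φ φ' h
  obtain ⟨-, h2, -⟩ := hiso p S G D Γ M M' X Tᶜ P N hP hN hPN K K' Y φ φ' h
  unfold val
  rw [h1, h2, h3]

theorem fv_add (hlkt : StLkT) (hcnt : StCnt) (hiso : StIso) (hgfn : StGfn) (hquo : StQuoP)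
    (hdup : StDup) [U.Normal] (hsit : SitY p Γ χ δ U) {T : Set S} (hT1 : T.Nonempty)
    (hT2 : Tᶜ.Nonempty) (c : ℕ) :
    AddF p (G ⧸ U) (fun (M : Type) [AddCommGroup M] (σ : (G ⧸ U) →* AddMonoid.End M) =>
      fv Γ U T c M σ) := by
  constructor
  intro M₁ M M₂ _ _ _ _ σ₁ σ σ₂ i q hp hi hq hinj hsurj hex
  have hf1 : Finite M₁ := Finite.of_injective i hinj
  have hf2 : Finite M₂ := Finite.of_surjective q hsurj
  have hhoms : StHoms := stHoms stExt
  have hα := hsit.ax.act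
  have hχ := hsit.cont
  have hp1 : ∀ m : M₁, p • m = 0 := by
    intro m
    apply hinj
    rw [map_nsmul, hp, map_zero]
  have hp2 : ∀ m : M₂, p • m = 0 := by
    intro m
    obtain ⟨x, rfl⟩ := hsurj m
    rw [← map_nsmul, hp, map_zero]
  obtain ⟨X, hX⟩ := dup1 hdup hα hχ (σ.comp (QuotientGroup.mk' U))
    (sm_of_triv _ hsit.open' (comp_mk U σ)) ⟨1, fun m => by rw [pow_one, hp]⟩
  obtain ⟨X₁, hX₁⟩ := dup1 hdup hα hχ (σ₁.comp (QuotientGroup.mk' U))
    (sm_of_triv _ hsit.open' (comp_mk U σ₁)) ⟨1, fun m => by rw [pow_one, hp1]⟩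
  obtain ⟨X₂, hX₂⟩ := dup1 hdup hα hχ (σ₂.comp (QuotientGroup.mk' U))
    (sm_of_triv _ hsit.open' (comp_mk U σ₂)) ⟨1, fun m => by rw [pow_one, hp2]⟩
  rw [fv_eq Γ hdup hiso hα hχ U T c σ X hX, fv_eq Γ hdup hiso hα hχ U T c σ₁ X₁ hX₁,
    fv_eq Γ hdup hiso hα hχ U T c σ₂ X₂ hX₂]
  have t1 : ∀ u ∈ U, X.ρ u = 1 := by
    rw [hX]
    exact comp_mk U σ
  have t2 : ∀ u ∈ U, X.ρ' u = 1 := fun u hu => triv' hα X hp (t1 u hu) (hsit.fix u hu)
  have g1 := pgr_of_triv (p := p) X.ρ U t1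
  have g2 := pgr_of_triv (p := p) X.ρ' U t2
  let P : Submodule ℤ M := LinearMap.range i.toIntLinearMap
  have hPm : ∀ x : M, x ∈ P ↔ ∃ y, i y = x := fun x => Iff.rfl
  have hP : X.Stable P := by
    intro g m hm
    obtain ⟨y, rfl⟩ := (hPm m).1 hm
    rw [hPm]
    refine ⟨X₁.ρ g y, ?_⟩
    rw [hX, hX₁]
    exact hi _ _
  have hb := stable_bot X
  have ht := stable_top X
  rw [val_add Γ hlkt hcnt hgfn hhoms hsit X g1 g2 hT1 hT2 c hP]
  obtain ⟨K₁, K₁', _, _, Y₁, φ₁, φ₁', hK₁, q₁, -, -⟩ := hquo p G Γ.α M _ X ⊥ P hb hP bot_le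
  obtain ⟨K₂, K₂', _, _, Y₂, φ₂, φ₂', hK₂, q₂, -, -⟩ := hquo p G Γ.α M _ X P ⊤ hP ht le_top
  rw [← val_quo Γ hiso X c hb hP bot_le Y₁ φ₁ φ₁' q₁, ← val_quo Γ hiso X c hP ht le_top Y₂ φ₂ φ₂' q₂]
  congr 1
  · let f : M₁ →+ K₁ := AddMonoidHom.mk' (fun x => φ₁ (i x)) (by
      intro x y
      rw [map_add]
      exact q₁.add _ ⟨x, rfl⟩ _ ⟨y, rfl⟩)
    have hf : Function.Bijective f := by
      constructor
      · rw [injective_iff_map_eq_zero]
        intro x hx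
        have h1 := (q₁.ker (i x) ⟨x, rfl⟩).1 hx
        rw [Submodule.mem_bot] at h1
        apply hinj
        rw [h1, map_zero]
      · intro a
        obtain ⟨x, ⟨y, hy⟩, hx⟩ := q₁.surj a
        refine ⟨y, ?_⟩
        rw [← hx, ← hy]
        rfl
    refine (val_congr Γ hdup hiso hα hχ X₁ Y₁ (AddEquiv.ofBijective f hf) (fun g x => ?_) T c).symm
    change φ₁ (i (X₁.ρ g x)) = Y₁.ρ g (φ₁ (i x))
    rw [← q₁.act g (i x) ⟨x, rfl⟩, hX₁, hX]
    exact congrArg φ₁ (hi _ _)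
  · obtain ⟨e, he⟩ := equiv_of_ker q (AddMonoidHom.mk' φ₂ (fun x y => q₂.add x trivial y trivial))
      hsurj (fun a => by
        obtain ⟨x, -, hx⟩ := q₂.surj a
        exact ⟨x, hx⟩) (fun x => by
        change q x = 0 ↔ φ₂ x = 0
        rw [q₂.ker x trivial, hex]
        exact (hPm x).symm)
    refine (val_congr Γ hdup hiso hα hχ X₂ Y₂ e (fun g x => ?_) T c).symm
    obtain ⟨y, rfl⟩ := hsurj x
    have h1 : e (q y) = φ₂ y := he y
    have h2 : X₂.ρ g (q y) = q (X.ρ g y) := by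
      rw [hX₂, hX]
      exact (hq _ _).symm
    have h3 : e (q (X.ρ g y)) = φ₂ (X.ρ g y) := he _
    rw [h2, h3, h1]
    exact q₂.act g y trivial

end Add

/-! ### The cyclic case -/

section Cyc

variable {p : ℕ} [Fact p.Prime] {G : Type} [Group G]

/-- the elements of the preimage of `C` which are of `p`-power order modulo `U` -/
def ppart (p : ℕ) (U : Subgroup G) [U.Normal] (C : Subgroup (G ⧸ U)) (hC : IsCyclic C) :
    Subgroup G where
  carrier := {a | a ∈ C.comap (QuotientGroup.mk' U) ∧ ∃ n : ℕ, a ^ p ^ n ∈ U}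
  mul_mem' := by
    rintro a b ⟨ha, m, hm⟩ ⟨hb, n, hn⟩
    refine ⟨mul_mem ha hb, m + n, ?_⟩
    have hcomm : Commute (QuotientGroup.mk' U a) (QuotientGroup.mk' U b) := by
      obtain ⟨z, hz⟩ := hC.exists_generator
      obtain ⟨i, hi⟩ := hz ⟨QuotientGroup.mk' U a, ha⟩
      obtain ⟨j, hj⟩ := hz ⟨QuotientGroup.mk' U b, hb⟩
      have h1 : QuotientGroup.mk' U a = (z : G ⧸ U) ^ i := (congrArg Subtype.val hi).symm
      have h2 : QuotientGroup.mk' U b = (z : G ⧸ U) ^ j := (congrArg Subtype.val hj).symm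
      rw [h1, h2]
      exact (Commute.refl (z : G ⧸ U)).zpow_zpow i j
    have h2 : QuotientGroup.mk' U ((a * b) ^ p ^ (m + n)) = 1 := by
      rw [map_pow, map_mul, hcomm.mul_pow]
      have h3 : QuotientGroup.mk' U a ^ p ^ (m + n) = 1 := by
        have h4 : QuotientGroup.mk' U (a ^ p ^ m) = 1 := (QuotientGroup.eq_one_iff _).2 hm
        rw [pow_add, pow_mul, ← map_pow, h4, one_pow]
      have h5 : QuotientGroup.mk' U b ^ p ^ (m + n) = 1 := by
        have h4 : QuotientGroup.mk' U (b ^ p ^ n) = 1 := (QuotientGroup.eq_one_iff _).2 hn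
        rw [pow_add, mul_comm, pow_mul, ← map_pow, h4, one_pow]
      rw [h3, h5, one_mul]
    exact (QuotientGroup.eq_one_iff _).1 h2
  one_mem' := ⟨one_mem _, 0, by rw [one_pow]; exact one_mem _⟩
  inv_mem' := by
    rintro a ⟨ha, n, hn⟩
    refine ⟨inv_mem ha, n, ?_⟩
    rw [inv_pow]
    exact inv_mem hn

theorem adm_ppart (U : Subgroup G) [U.Normal] [Finite (G ⧸ U)] (C : Subgroup (G ⧸ U))
    (hC : IsCyclic C) : Adm p U (C.comap (QuotientGroup.mk' U)) (ppart p U C hC) := by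
  have hU : U ≤ ppart p U C hC := by
    intro u hu
    refine ⟨?_, 0, ?_⟩
    · have h : QuotientGroup.mk' U u = 1 := (QuotientGroup.eq_one_iff u).2 hu
      rw [Subgroup.mem_comap, h]
      exact one_mem _
    · rw [pow_zero, pow_one]
      exact hu
  have hle : ppart p U C hC ≤ C.comap (QuotientGroup.mk' U) := fun a ha => ha.1
  have hnor : ∀ a ∈ C.comap (QuotientGroup.mk' U), ∀ x ∈ ppart p U C hC,
      a * x * a⁻¹ ∈ ppart p U C hC := by
    rintro a ha x ⟨hx, n, hn⟩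
    refine ⟨mul_mem (mul_mem ha hx) (inv_mem ha), n, ?_⟩
    rw [conj_pow]
    exact ‹U.Normal›.conj_mem _ hn a
  refine ⟨hU, hle, hnor, ?_, fun x hx => hx.2⟩
  intro hp
  have hn : ((ppart p U C hC).subgroupOf (C.comap (QuotientGroup.mk' U))).Normal := by
    constructor
    intro x hx a
    exact hnor a a.2 x hx
  have hfin : Finite (C.comap (QuotientGroup.mk' U) ⧸
      (ppart p U C hC).subgroupOf (C.comap (QuotientGroup.mk' U))) := by
    have h1 : U.FiniteIndex := Subgroup.finiteIndex_of_finite_quotient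
    have h2 : (ppart p U C hC).FiniteIndex := Subgroup.finiteIndex_of_le hU
    have h3 : ((ppart p U C hC).subgroupOf (C.comap (QuotientGroup.mk' U))).FiniteIndex :=
      inferInstance
    exact Subgroup.finite_quotient_of_finiteIndex
  have hp' : p ∣ Nat.card (C.comap (QuotientGroup.mk' U) ⧸
      (ppart p U C hC).subgroupOf (C.comap (QuotientGroup.mk' U))) := hp
  obtain ⟨x, hx⟩ := exists_prime_orderOf_dvd_card' p hp'
  obtain ⟨a, rfl⟩ := QuotientGroup.mk_surjective x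
  have h1 : a ^ p ∈ (ppart p U C hC).subgroupOf (C.comap (QuotientGroup.mk' U)) := by
    rw [← QuotientGroup.eq_one_iff]
    have h2 := pow_orderOf_eq_one (QuotientGroup.mk (s := (ppart p U C hC).subgroupOf
      (C.comap (QuotientGroup.mk' U))) a)
    rw [hx] at h2
    exact h2
  have h2 : ((a : G)) ∈ ppart p U C hC := by
    obtain ⟨-, n, hn⟩ : ((a ^ p : C.comap (QuotientGroup.mk' U)) : G) ∈ ppart p U C hC := h1
    refine ⟨a.2, n + 1, ?_⟩
    rw [pow_succ', pow_mul]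
    exact hn
  have h3 : QuotientGroup.mk (s := (ppart p U C hC).subgroupOf
      (C.comap (QuotientGroup.mk' U))) a = 1 := (QuotientGroup.eq_one_iff _).2 h2
  rw [h3, orderOf_one] at hx
  exact (Fact.out : p.Prime).one_lt.ne hx

/-- the equivalence of the induced modules -/
def indEquiv (U : Subgroup G) [U.Normal] (C : Subgroup (G ⧸ U)) {k : Type} [Field k]
    (ψ : C →* kˣ) :
    IndM C (kch ψ) ≃+ IndM (C.comap (QuotientGroup.mk' U))
      (kch (ψ.comp ((QuotientGroup.mk' U).subgroupComap C))) where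
  toFun F := ⟨fun g => (F : (G ⧸ U) → k) (QuotientGroup.mk' U g), fun g a => by
    change (F : (G ⧸ U) → k) (QuotientGroup.mk' U (g * a)) = _
    rw [map_mul]
    exact F.2 (QuotientGroup.mk' U g) ⟨QuotientGroup.mk' U a, a.2⟩⟩
  invFun f := ⟨fun x => Quotient.liftOn' x (f : G → k) (by
      intro a b hab
      have h1 : a⁻¹ * b ∈ U := QuotientGroup.leftRel_apply.1 hab
      have h2 : QuotientGroup.mk' U (a⁻¹ * b) = 1 := (QuotientGroup.eq_one_iff _).2 h1
      have h3 : a⁻¹ * b ∈ C.comap (QuotientGroup.mk' U) := by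
        rw [Subgroup.mem_comap, h2]
        exact one_mem _
      have h4 := f.2 a ⟨a⁻¹ * b, h3⟩
      rw [show a * ((⟨a⁻¹ * b, h3⟩ : C.comap (QuotientGroup.mk' U)) : G) = b by
        change a * (a⁻¹ * b) = b
        rw [mul_inv_cancel_left]] at h4
      have h5 : (QuotientGroup.mk' U).subgroupComap C
          (⟨a⁻¹ * b, h3⟩ : C.comap (QuotientGroup.mk' U))⁻¹ = 1 := by
        rw [map_inv, inv_eq_one]
        exact Subtype.ext h2
      rw [h4, kch_apply]
      change (f : G → k) a = ((ψ ((QuotientGroup.mk' U).subgroupComap C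
          (⟨a⁻¹ * b, h3⟩ : C.comap (QuotientGroup.mk' U))⁻¹) : kˣ) : k) * (f : G → k) a
      rw [h5, map_one, Units.val_one, one_mul]), by
      intro g a
      obtain ⟨g, rfl⟩ := QuotientGroup.mk_surjective g
      obtain ⟨a, ha⟩ := a
      obtain ⟨a, rfl⟩ := QuotientGroup.mk_surjective a
      exact f.2 g ⟨a, ha⟩⟩
  left_inv F := by
    ext x
    obtain ⟨g, rfl⟩ := QuotientGroup.mk_surjective x
    rfl
  right_inv f := by
    ext g
    rfl
  map_add' F F' := rfl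

theorem indEquiv_act (U : Subgroup G) [U.Normal] (C : Subgroup (G ⧸ U)) {k : Type} [Field k]
    (ψ : C →* kˣ) (g : G) (F : IndM C (kch ψ)) :
    indEquiv U C ψ (indM C (kch ψ) (QuotientGroup.mk' U g) F) =
      indM (C.comap (QuotientGroup.mk' U))
        (kch (ψ.comp ((QuotientGroup.mk' U).subgroupComap C))) g (indEquiv U C ψ F) := by
  ext x
  change (F : (G ⧸ U) → k) ((QuotientGroup.mk' U g)⁻¹ * QuotientGroup.mk' U x) =
    (F : (G ⧸ U) → k) (QuotientGroup.mk' U (g⁻¹ * x))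
  rw [map_mul, map_inv]

end Cyc

/-! ### The vanishing for cyclic subgroups -/

section Van

variable {p : ℕ} [Fact p.Prime]

theorem eq_one_of_pow {k : Type} [Field k] [Algebra (ZMod p) k] {x : kˣ} {n : ℕ}
    (h : x ^ p ^ n = 1) : x = 1 := by
  have hc : CharP k p := charP_of_injective_algebraMap (algebraMap (ZMod p) k).injective p
  have h1 : (x : k) ^ p ^ n = 1 := by
    rw [← Units.val_pow_eq_pow_val, h, Units.val_one]
  have h2 : ((x : k) - 1) ^ p ^ n = 0 := by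
    rw [sub_pow_char_pow, h1, one_pow, sub_self]
  have h3 : (x : k) - 1 = 0 := (pow_eq_zero_iff (pow_pos (Fact.out : p.Prime).pos n).ne').1 h2
  exact Units.ext (sub_eq_zero.1 h3)

theorem exists_lam (k : Type) [Field k] [Finite k] [Algebra (ZMod p) k] :
    ∃ lam : k →+ QZ p, lam ≠ 0 := by
  have h1 : Nat.card k = p ^ Module.finrank (ZMod p) k := by
    rw [Module.natCard_eq_pow_finrank (K := ZMod p) (V := k), Nat.card_zmod]
  obtain ⟨-, h2⟩ := XHOMS.pgroup (p := p) k ⟨_, h1⟩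
  obtain ⟨f, hf⟩ := h2 1 one_ne_zero
  refine ⟨f, fun h => hf ?_⟩
  rw [h]
  rfl

theorem smul_p {k : Type} [Field k] [Algebra (ZMod p) k] (x : k) : p • x = 0 := by
  have hc : CharP k p := charP_of_injective_algebraMap (algebraMap (ZMod p) k).injective p
  rw [nsmul_eq_mul, CharP.cast_eq_zero, zero_mul]

variable {G : Type} [Group G] [TopologicalSpace G] [IsTopologicalGroup G] [CompactSpace G]
  {χ : G →* ℤ_[p]ˣ}

theorem pai1 (h : StPai) {α : G →* AddMonoid.End (QZ p)} (hα : α = actA χ) (hχ : Continuous χ)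
    (A : Subgroup G) (hA : IsOpen (A : Set G)) (k : Type) [Field k] [Finite k]
    [Algebra (ZMod p) k] (ψ ψ' : A →* kˣ) (h1 : Sm (kch ψ)) (h2 : Sm (kch ψ'))
    (h3 : Rel (χ.comp A.subtype) ψ ψ') (lam : k →+ QZ p) (h4 : lam ≠ 0) :
    ∃ Y : Pair ℤ α (IndM A (kch ψ)) (IndM A (kch ψ')), Y.ρ = indM A (kch ψ) ∧
      Y.ρ' = indM A (kch ψ') := by
  subst hα
  obtain ⟨Y, h5, h6, -⟩ := h p G χ hχ A hA k ψ ψ' h1 h2 h3 lam h4
  exact ⟨Y, h5, h6⟩

theorem isQuo_id {α : G →* AddMonoid.End (QZ p)} {M M' : Type} [AddCommGroup M]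
    [AddCommGroup M'] (X : Pair ℤ α M M') : IsQuo X ⊥ ⊤ X id id := by
  constructor
  · intro x _ y _
    rfl
  · intro x _
    rw [Submodule.mem_bot]
    rfl
  · intro a
    exact ⟨a, trivial, rfl⟩
  · intro g x _
    rfl
  · intro x _ y _
    rfl
  · intro x _
    rw [XPERP.perp_top, Submodule.mem_bot]
    rfl
  · intro a
    exact ⟨a, by rw [XPERP.perp_bot]; trivial, rfl⟩
  · intro g x _
    rfl
  · intro x _ y _
    rfl

variable {S : Type} [Fintype S] {D : S → Type} [∀ w, Group (D w)]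
  [∀ w, TopologicalSpace (D w)] [∀ w, IsTopologicalGroup (D w)]
  [∀ w, CompactSpace (D w)] (Γ : Glo S G D (QZ p) (QZ p)) {δ : S → ℕ} {U : Subgroup G}

/-- the value for the module induced from a character -/
theorem val_ind (hlnb : StLnbT) (hpai : StPai) (hgdi : StGdi)
    (hsit : SitY p Γ χ δ U) {A A' : Subgroup G} (hA : IsOpen (A : Set G)) (hadm : Adm p U A A')
    (k : Type) [Field k] [Finite k] [Algebra (ZMod p) k] (ψ : A →* kˣ)
    (hψ : ∀ a : A, (a : G) ∈ U → ψ a = 1) {T : Set S} (hT1 : T.Nonempty) (hT2 : Tᶜ.Nonempty) :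
    Finite (IndM A (kch ψ)) ∧ ∃ (K' : Type) (_ : AddCommGroup K')
      (Y : Pair ℤ Γ.α (IndM A (kch ψ)) K'), Y.ρ = indM A (kch ψ) ∧ val Γ Y T (cT T δ) = 0 := by
  let χk : G →* kˣ := (Units.map ((algebraMap (ZMod p) k).comp
    PadicInt.toZMod : ℤ_[p] →+* k).toMonoidHom).comp χ
  have hχk : ∀ g, ((χk g : kˣ) : k) =
      algebraMap (ZMod p) k (PadicInt.toZMod ((χ g : ℤ_[p]ˣ) : ℤ_[p])) := fun g => rfl
  have hχU : ∀ u ∈ U, χk u = 1 := by
    intro u hu
    apply Units.ext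
    rw [hχk, hsit.fix u hu, map_one, Units.val_one]
  let ψ' : A →* kˣ := (χk.comp A.subtype) * ψ⁻¹
  have hψ'd : ∀ a : A, ψ' a = χk a * (ψ a)⁻¹ := fun a => rfl
  have hψ' : ∀ a : A, (a : G) ∈ U → ψ' a = 1 := by
    intro a ha
    rw [hψ'd, hψ a ha, hχU a ha, inv_one, one_mul]
  have hrel : Rel (χ.comp A.subtype) ψ ψ' := by
    intro a
    change ((ψ a : kˣ) : k) * ((ψ' a : kˣ) : k) = ((χk a : kˣ) : k)
    rw [hψ'd, ← Units.val_mul, mul_comm (χk a), mul_inv_cancel_left]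
  have hWo : IsOpen ((U.comap A.subtype : Subgroup A) : Set A) :=
    hsit.open'.preimage continuous_subtype_val
  have hsm : ∀ θ : A →* kˣ, (∀ a : A, (a : G) ∈ U → θ a = 1) → Sm (kch θ) := by
    intro θ hθ
    refine ⟨U.comap A.subtype, hWo, fun w hw => ?_⟩
    ext x
    rw [kch_apply, hθ w hw, Units.val_one, one_mul]
    rfl
  have hA' : ∀ θ : A →* kˣ, (∀ a : A, (a : G) ∈ U → θ a = 1) →
      ∀ a : A, (a : G) ∈ A' → θ a = 1 := by
    intro θ hθ a ha
    obtain ⟨n, hn⟩ := hadm.pgr a ha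
    apply eq_one_of_pow (p := p) (n := n)
    rw [← map_pow]
    exact hθ _ hn
  obtain ⟨lam, hlam⟩ := exists_lam (p := p) k
  obtain ⟨Y, hY, hY'⟩ := pai1 hpai hsit.ax.act hsit.cont A hA k ψ ψ' (hsm ψ hψ) (hsm ψ' hψ') hrel
    lam hlam
  have hgood : GoodP Γ Y := hgdi p S G D Γ χ U hsit.open' hsit.glob A A' hadm k ψ ψ' (hA' ψ hψ)
    (hA' ψ' hψ') hrel Y hY hY'
  have hfin : Finite (IndM A (kch ψ)) := hgood.fin
  have hef : EF Γ Y T ⊥ ⊤ δ := hlnb p S G D Γ χ δ hsit.ax _ _ Y T hT1 hT2 ⊥ ⊤ (stable_bot Y)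
    (stable_top Y) bot_le _ _ Y hgood id id (isQuo_id Y)
  exact ⟨hfin, _, _, Y, hY, val_of_ef Γ Y T δ hef⟩

/-- the value for the module induced from a character of a cyclic subgroup -/
theorem fv_cyc (hlnb : StLnbT) (hpai : StPai) (hgdi : StGdi) (hiso : StIso)
    (hdup : StDup) [U.Normal] [Finite (G ⧸ U)] (hsit : SitY p Γ χ δ U) {T : Set S}
    (hT1 : T.Nonempty) (hT2 : Tᶜ.Nonempty) (C : Subgroup (G ⧸ U)) (hC : IsCyclic C) (k : Type)
    [Field k] [Finite k] [Algebra (ZMod p) k] (ψ : C →* kˣ) :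
    fv Γ U T (cT T δ) (IndM C (kch ψ)) (indM C (kch ψ)) = 0 := by
  have hadm := adm_ppart (p := p) U C hC
  have hUA : U ≤ C.comap (QuotientGroup.mk' U) := hadm.le.trans hadm.le'
  have hAo : IsOpen ((C.comap (QuotientGroup.mk' U) : Subgroup G) : Set G) :=
    Subgroup.isOpen_mono hUA hsit.open'
  have hψ : ∀ a : C.comap (QuotientGroup.mk' U), (a : G) ∈ U →
      (ψ.comp ((QuotientGroup.mk' U).subgroupComap C)) a = 1 := by
    intro a ha
    have h1 : (QuotientGroup.mk' U).subgroupComap C a = 1 :=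
      Subtype.ext ((QuotientGroup.eq_one_iff _).2 ha)
    change ψ ((QuotientGroup.mk' U).subgroupComap C a) = 1
    rw [h1, map_one]
  obtain ⟨hfin, K', _, Y, hY, hval⟩ := val_ind Γ hlnb hpai hgdi hsit hAo hadm k _ hψ hT1 hT2
  have hfin' : Finite (IndM C (kch ψ)) := Finite.of_equiv _ (indEquiv U C ψ).symm.toEquiv
  have hp : ∀ m : IndM C (kch ψ), p • m = 0 := by
    intro m
    ext x
    exact smul_p (p := p) _
  obtain ⟨X, hX⟩ := dup1 hdup hsit.ax.act hsit.cont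
    ((indM C (kch ψ)).comp (QuotientGroup.mk' U))
    (sm_of_triv _ hsit.open' (comp_mk U _)) ⟨1, fun m => by rw [pow_one, hp]⟩
  rw [fv_eq Γ hdup hiso hsit.ax.act hsit.cont U T _ _ X hX, ← hval]
  refine val_congr Γ hdup hiso hsit.ax.act hsit.cont X Y (indEquiv U C ψ) (fun g x => ?_) T _
  rw [hX, hY]
  exact indEquiv_act U C ψ g x

end Van

end YEFM

open YEFM

/-- Module EFM: the Euler characteristic for modules killed by `p` on which `U` acts trivially. -/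
theorem stEfM (h1 : StArt) (h2 : StLkT) (h3 : StCnt) (h4 : StIso) (h5 : StGfn) (h6 : StQuoP)
    (h7 : StLnbT) (_h8 : StLsh) (h9 : StPai) (h10 : StGdi) (h11 : StDup) : StEfM := by
  intro p _ S _ G _ _ _ _ D _ _ _ _ Γ χ δ U hsit M M' _ _ _ X hp htriv T hT1 hT2
  have hn : U.Normal := hsit.normal
  have hfin : Finite (G ⧸ U) := Subgroup.quotient_finite_of_isOpen U hsit.open'
  have hhoms : StHoms := stHoms stExt
  have t2 : ∀ u ∈ U, X.ρ' u = 1 := fun u hu =>
    triv' hsit.ax.act X hp (htriv u hu) (hsit.fix u hu)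
  have g1 := pgr_of_triv (p := p) X.ρ U htriv
  have g2 := pgr_of_triv (p := p) X.ρ' U t2
  let σ : (G ⧸ U) →* AddMonoid.End M := QuotientGroup.lift U X.ρ htriv
  have hσ : X.ρ = σ.comp (QuotientGroup.mk' U) := by
    ext g
    rfl
  have hart := h1 p (G ⧸ U) _ (fv_add Γ h2 h3 h4 h5 h6 h11 hsit hT1 hT2 (cT T δ))
    (fun C hC k _ _ _ ψ => fv_cyc Γ h7 h9 h10 h4 h11 hsit hT1 hT2 C hC k ψ) M σ hp
  have hval : val Γ X T (cT T δ) = 0 := by
    rw [← fv_eq Γ h11 h4 hsit.ax.act hsit.cont U T (cT T δ) σ X hσ]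
    exact hart
  have a1 : hT Γ X T ⊥ ⊤ ≠ 0 :=
    h5 p S G D Γ χ δ U hsit M M' X g1 T hT1 ⊥ ⊤ (stable_bot X) (stable_top X) bot_le
  have a2 := hT_flip_ne Γ h5 hhoms hsit X g2 hT2 (stable_bot X) (stable_top X) bot_le
  rw [XPERP.perp_top, XPERP.perp_bot] at a2
  exact ef_of_val Γ X T δ a1 a2 hval

end BKT
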