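import Pool.Agent.Lib.MP_7c08ba_nt.T1.StY
import Pool.Agent.Lib.MP_7c08ba_nt.T1.LLNZ
import Pool.Agent.Lib.MP_7c08ba_nt.T1.LDUP
import Pool.Agent.Lib.MP_7c08ba_nt.Met.XPERP
import Pool.Agent.Lib.MP_7c08ba_nt.Met.XHOMS
import Pool.Agent.Lib.MP_7c08ba_nt.Met.XEXT

set_option autoImplicit false

/-!
Parity for general residual representations, part Y, module EFT: the Euler characteristic for all
finite modules.
-/

noncomputable section

namespace BKT

open BKPar (Loc1 Loc2)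
open BKND (Sm)
open BKMet

namespace YEFT

section Flip

variable {p : ℕ} [Fact p.Prime] {G : Type} [Group G] [TopologicalSpace G] {χ : G →* ℤ_[p]ˣ}
  {α : G →* AddMonoid.End (QZ p)} {M M' : Type} [AddCommGroup M] [AddCommGroup M']

/-- An element which acts trivially on `M`, with `χ u = 1` modulo an exponent of `M`. -/
theorem triv_dual (hα : α = actA χ) (X : Pair ℤ α M M') {c : ℕ} (hc : ∀ m : M, c • m = 0) {u : G}
    (hu : X.ρ u = 1) (hχ : ∃ t : ℤ_[p], ((χ u : ℤ_[p]ˣ) : ℤ_[p]) = 1 + t * c) : X.ρ' u = 1 := by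
  ext m'
  change X.ρ' u m' = m'
  rw [← sub_eq_zero]
  refine XPERP.inj X fun m => ?_
  have h1 := X.eqv u m m'
  have h0 : ∀ y : QZ p, α u y = ((χ u : ℤ_[p]ˣ) : ℤ_[p]) • y := by
    intro y
    rw [hα]
    rfl
  rw [hu, h0] at h1
  have h2 : c • X.b m m' = 0 := by
    have h3 : c • X.b m m' = X.b (c • m) m' := by
      rw [map_nsmul]
      rfl
    rw [h3, hc, map_zero]
    rfl
  obtain ⟨t, ht⟩ := hχ
  rw [ht, add_smul, one_smul, mul_smul, Nat.cast_smul_eq_nsmul, h2, smul_zero, add_zero] at h1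
  rw [map_sub, sub_eq_zero]
  exact h1

theorem pgr_flip (hα : α = actA χ) (X : Pair ℤ α M M') (hM : ∃ n : ℕ, ∀ m : M, p ^ n • m = 0)
    (U : Subgroup G) (hU : ∀ u ∈ U, PadicInt.toZMod ((χ u : ℤ_[p]ˣ) : ℤ_[p]) = 1)
    (hX : PGr p X.ρ U) : PGr p X.ρ' U := by
  intro u hu
  obtain ⟨N, hN⟩ := hM
  obtain ⟨n, hn⟩ := hX u hu
  refine ⟨n + N, ?_⟩
  rw [← map_pow]
  refine triv_dual hα X hN ?_ ?_
  · rw [map_pow, pow_add, pow_mul, hn, one_pow]
  · have h1 : (p : ℤ_[p]) ∣ ((χ u : ℤ_[p]ˣ) : ℤ_[p]) ^ p ^ n - 1 := by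
      rw [← Ideal.mem_span_singleton, ← PadicInt.maximalIdeal_eq_span_p, ← PadicInt.ker_toZMod,
        RingHom.mem_ker, map_sub, map_pow, hU u hu, one_pow, map_one, sub_self]
    have h2 := dvd_sub_pow_of_dvd_sub h1 N
    rw [one_pow] at h2
    obtain ⟨t, ht⟩ := h2
    refine ⟨t * p, ?_⟩
    have h3 : ((χ (u ^ p ^ (n + N)) : ℤ_[p]ˣ) : ℤ_[p]) =
        (((χ u : ℤ_[p]ˣ) : ℤ_[p]) ^ p ^ n) ^ p ^ N := by
      rw [map_pow, Units.val_pow_eq_pow_val, pow_add, pow_mul]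
    rw [h3, ← sub_eq_iff_eq_add', ht]
    push_cast
    ring

/-- the module LNZ for an action which is equal to `actA χ` -/
theorem vec (hα : α = actA χ) (X : Pair ℤ α M M') [Finite M] (H : Subgroup G)
    (hG : PGr p X.ρ H) {P Q : Submodule ℤ M} (hP : ∀ h ∈ H, ∀ x ∈ P, X.ρ h x ∈ P)
    (hQ : ∀ h ∈ H, ∀ x ∈ Q, X.ρ h x ∈ Q) (hlt : P < Q) :
    ∃ x ∈ Q, x ∉ P ∧ p • x ∈ P ∧ ∀ h ∈ H, X.ρ h x - x ∈ P := by
  subst hα
  exact LLNZ.exists_vec X H hG hP hQ hlt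

theorem pow_kill [IsTopologicalGroup G] [CompactSpace G] (hα : α = actA χ) (hχ : Continuous χ)
    (X : Pair ℤ α M M') [Finite M] : ∃ n : ℕ, ∀ m : M, p ^ n • m = 0 := by
  subst hα
  exact ((stDup p G χ hχ M).2 M' X).1

/-- the elements of `Q` which are killed by `p` and fixed by `U` modulo `P` -/
def fixp (X : Pair ℤ α M M') (U : Subgroup G) (P Q : Submodule ℤ M) : Submodule ℤ M where
  carrier := {x | x ∈ Q ∧ p • x ∈ P ∧ ∀ u ∈ U, X.ρ u x - x ∈ P}
  add_mem' := by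
    rintro x y ⟨hx1, hx2, hx3⟩ ⟨hy1, hy2, hy3⟩
    refine ⟨Q.add_mem hx1 hy1, ?_, fun u hu => ?_⟩
    · rw [smul_add]
      exact P.add_mem hx2 hy2
    · have e : X.ρ u (x + y) - (x + y) = (X.ρ u x - x) + (X.ρ u y - y) := by
        rw [map_add]
        abel
      rw [e]
      exact P.add_mem (hx3 u hu) (hy3 u hu)
  zero_mem' := by
    refine ⟨Q.zero_mem, ?_, fun u _ => ?_⟩
    · rw [smul_zero]
      exact P.zero_mem
    · rw [map_zero, sub_zero]
      exact P.zero_mem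
  smul_mem' := by
    rintro a x ⟨hx1, hx2, hx3⟩
    refine ⟨Q.smul_mem a hx1, ?_, fun u hu => ?_⟩
    · rw [smul_comm]
      exact P.smul_mem a hx2
    · have e : X.ρ u (a • x) - a • x = a • (X.ρ u x - x) := by
        rw [map_zsmul, smul_sub]
      rw [e]
      exact P.smul_mem a (hx3 u hu)

theorem mem_fixp (X : Pair ℤ α M M') (U : Subgroup G) (P Q : Submodule ℤ M) (x : M) :
    x ∈ fixp (p := p) X U P Q ↔ x ∈ Q ∧ p • x ∈ P ∧ ∀ u ∈ U, X.ρ u x - x ∈ P := Iff.rfl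

theorem fixp_stable (X : Pair ℤ α M M') (U : Subgroup G) (hU : U.Normal) {P Q : Submodule ℤ M}
    (hP : X.Stable P) (hQ : X.Stable Q) : X.Stable (fixp (p := p) X U P Q) := by
  rintro g x ⟨h1, h2, h3⟩
  refine ⟨hQ g x h1, ?_, fun u hu => ?_⟩
  · rw [← map_nsmul]
    exact hP g _ h2
  · have h4 := hP g _ (h3 (g⁻¹ * u * g) (by
      have := hU.conj_mem u hu g⁻¹
      rwa [inv_inv] at this))
    have h5 : X.ρ g (X.ρ (g⁻¹ * u * g) x) = X.ρ u (X.ρ g x) := by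
      change (X.ρ g * X.ρ (g⁻¹ * u * g)) x = (X.ρ u * X.ρ g) x
      rw [← map_mul, ← map_mul]
      congr 2
      group
    rw [map_sub, h5] at h4
    exact h4

end Flip

section Main

variable {p : ℕ} [Fact p.Prime] {S : Type} [Fintype S] {G : Type} [Group G]
  [TopologicalSpace G] [IsTopologicalGroup G] [CompactSpace G] {D : S → Type}
  [∀ w, Group (D w)] [∀ w, TopologicalSpace (D w)] [∀ w, IsTopologicalGroup (D w)]
  [∀ w, CompactSpace (D w)] (Γ : Glo S G D (QZ p) (QZ p)) {χ : G →* ℤ_[p]ˣ} {δ : S → ℕ}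
  {U : Subgroup G}

theorem hT_self {R : Type} [CommRing R] {M M' : Type} [AddCommGroup M] [Module R M]
    [AddCommGroup M'] [Module R M'] (X : Pair R Γ.α M M') (T : Set S) {P : Submodule R M}
    (hP : X.Stable P) : hT Γ X T P P = 1 := by
  have h : X.Zr Γ.r T P P ≤ X.Br T P P := by
    rintro x ⟨h1, h2, -, h4, h5⟩
    refine ⟨h1, ⟨0, P.zero_mem, fun g => ?_, fun w hw => ?_⟩, h5⟩
    · have e : d0 X.ρ (0 : M) g = 0 := by simp [d0]
      rw [e, sub_zero]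
      exact h2 g
    · rw [sub_zero]
      exact (h4 w hw).1
  exact AddSubgroup.relIndex_eq_one.2 h

theorem relIndex_bot_top {M : Type} [AddCommGroup M] :
    (⊥ : Submodule ℤ M).toAddSubgroup.relIndex (⊤ : Submodule ℤ M).toAddSubgroup =
      Nat.card M := by
  rw [Submodule.bot_toAddSubgroup, Submodule.top_toAddSubgroup, AddSubgroup.relIndex_bot_left]
  exact Nat.card_congr (Equiv.Set.univ M)

theorem stable_bot {A M M' : Type} [AddCommGroup A] {α : G →* AddMonoid.End A} [AddCommGroup M]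
    [AddCommGroup M'] (X : Pair ℤ α M M') : X.Stable ⊥ := by
  intro g m hm
  rw [Submodule.mem_bot] at hm ⊢
  rw [hm, map_zero]

theorem stable_top {A M M' : Type} [AddCommGroup A] {α : G →* AddMonoid.End A} [AddCommGroup M]
    [AddCommGroup M'] (X : Pair ℤ α M M') : X.Stable ⊤ := fun _ _ _ => trivial

/-- the formula for a subquotient killed by `p` and fixed by `U` -/
theorem ef_quo (h1 : StEfM) (h4 : StIso) (h6 : StQuoP) (hsit : SitY p Γ χ δ U) {M M' : Type}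
    [AddCommGroup M] [AddCommGroup M'] [Finite M] (X : Pair ℤ Γ.α M M') {T : Set S}
    (hT1 : T.Nonempty) (hT2 : Tᶜ.Nonempty) {P N : Submodule ℤ M} (hP : X.Stable P)
    (hN : X.Stable N) (hPN : P ≤ N) (hp : ∀ x ∈ N, p • x ∈ P)
    (hu : ∀ u ∈ U, ∀ x ∈ N, X.ρ u x - x ∈ P) : EF Γ X T P N δ := by
  obtain ⟨K, K', _, _, Y, φ, φ', hK, hq, hY, hk⟩ := h6 p G Γ.α M M' X P N hP hN hPN
  obtain ⟨e1, e2, e3⟩ := h1 p S G D Γ χ δ U hsit K K' Y (hk p hp) (fun u hU => hY u (hu u hU)) T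
    hT1 hT2
  obtain ⟨i1, -, i3⟩ := h4 p S G D Γ M M' X T P N hP hN hPN K K' Y φ φ' hq
  obtain ⟨-, i2, -⟩ := h4 p S G D Γ M M' X Tᶜ P N hP hN hPN K K' Y φ φ' hq
  rw [relIndex_bot_top] at e3
  rw [XPERP.perp_top, XPERP.perp_bot] at e2 e3
  unfold EF
  rw [i1, i2, i3]
  exact ⟨e1, e2, e3⟩

/-- the formula for `P ≤ N ≤ Q` -/
theorem ef_trans (h2 : StLkT) (h3 : StCnt) (hsit : SitY p Γ χ δ U)
    {M M' : Type} [AddCommGroup M] [AddCommGroup M'] [Finite M] (X : Pair ℤ Γ.α M M')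
    (hX : PGr p X.ρ U) {T : Set S} (hT1 : T.Nonempty) (hT2 : Tᶜ.Nonempty) {P N Q : Submodule ℤ M}
    (hP : X.Stable P) (hN : X.Stable N) (hQ : X.Stable Q) (hPN : P ≤ N) (hNQ : N ≤ Q)
    (e : EF Γ X T P N δ) (f : EF Γ X T N Q δ) : EF Γ X T P Q δ := by
  have hfin : Finite M' := (XPERP.finite X (stHoms stExt)).1
  have hX' : PGr p X.ρ' U := pgr_flip hsit.ax.act X (pow_kill hsit.ax.act hsit.cont X) U hsit.fix
    hX
  have k1 : LK Γ X T P N Q :=
    h2 p S G D Γ χ δ U hsit M M' X hX T hT1 hT2 P N Q hP hN hQ hPN hNQ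
  have k2 : LK Γ X.flip Tᶜ (X.perp Q) (X.perp N) (X.perp P) := by
    refine h2 p S G D Γ χ δ U hsit M' M X.flip hX' Tᶜ hT2 ?_ _ _ _ (XPERP.stable X hQ)
      (XPERP.stable X hN) (XPERP.stable X hP) (XPERP.perp_anti X hNQ) (XPERP.perp_anti X hPN)
    rw [compl_compl]
    exact hT1
  obtain ⟨e1, e2, e3⟩ := e
  obtain ⟨f1, f2, f3⟩ := f
  obtain ⟨c1, c2, c3⟩ := h3 p S G D Γ M M' X T hT1 hT2 P N Q hP hN hQ hPN hNQ k1 k2 e1 f1 f2 e2
  refine ⟨c1, c2, ?_⟩
  have hr : P.toAddSubgroup.relIndex N.toAddSubgroup * N.toAddSubgroup.relIndex Q.toAddSubgroup =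
      P.toAddSubgroup.relIndex Q.toAddSubgroup :=
    AddSubgroup.relIndex_mul_relIndex _ _ _ (by exact hPN) (by exact hNQ)
  have hne : hT Γ X.flip Tᶜ (X.perp Q) (X.perp N) * hT Γ X.flip Tᶜ (X.perp N) (X.perp P) ≠ 0 :=
    mul_ne_zero f2 e2
  apply Nat.eq_of_mul_eq_mul_right (Nat.pos_of_ne_zero hne)
  rw [← hr, mul_pow]
  calc _ = (hT Γ X T P Q * (hT Γ X.flip Tᶜ (X.perp Q) (X.perp N) *
        hT Γ X.flip Tᶜ (X.perp N) (X.perp P))) *
      (P.toAddSubgroup.relIndex N.toAddSubgroup ^ (∑ w, open Classical in if w ∈ T then δ w else 0) *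
      N.toAddSubgroup.relIndex Q.toAddSubgroup ^
        (∑ w, open Classical in if w ∈ T then δ w else 0)) := by ring
    _ = (hT Γ X T P N * P.toAddSubgroup.relIndex N.toAddSubgroup ^
        (∑ w, open Classical in if w ∈ T then δ w else 0)) *
      (hT Γ X T N Q * N.toAddSubgroup.relIndex Q.toAddSubgroup ^
        (∑ w, open Classical in if w ∈ T then δ w else 0)) *
      hT Γ X.flip Tᶜ (X.perp Q) (X.perp P) := by rw [c3]; ring
    _ = _ := by rw [e3, f3]; ring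

end Main

end YEFT

open YEFT in
/-- Module EFT. -/
theorem stEfT (h1 : StEfM) (h2 : StLkT) (h3 : StCnt) (h4 : StIso) (_h5 : StGfn) (h6 : StQuoP) :
    StEfT := by
  intro p _ S _ G _ _ _ _ D _ _ _ _ Γ χ δ U hsit M M' _ _ _ X hX T hT1 hT2 P Q hP hQ hPQ
  induction P using WellFoundedGT.induction with
  | ind P ih =>
    rcases eq_or_lt_of_le hPQ with rfl | hlt
    · refine ⟨?_, ?_, ?_⟩
      · rw [hT_self Γ X T hP]
        exact one_ne_zero
      · rw [hT_self Γ X.flip Tᶜ (XPERP.stable X hP)]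
        exact one_ne_zero
      · rw [hT_self Γ X T hP, hT_self Γ X.flip Tᶜ (XPERP.stable X hP), AddSubgroup.relIndex_self,
          one_pow]
    · obtain ⟨x, hx1, hx2, hx3, hx4⟩ := vec hsit.ax.act X U hX (fun h _ x hx => hP h x hx)
        (fun h _ x hx => hQ h x hx) hlt
      have hN : X.Stable (fixp (p := p) X U P Q) := fixp_stable X U hsit.normal hP hQ
      have hPN : P ≤ fixp (p := p) X U P Q := by
        intro y hy
        refine ⟨hPQ hy, P.smul_of_tower_mem p hy, fun u _ => P.sub_mem (hP u y hy) hy⟩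
      have hNQ : fixp (p := p) X U P Q ≤ Q := fun y hy => hy.1
      have hlt' : P < fixp (p := p) X U P Q := by
        refine lt_of_le_of_ne hPN fun h => hx2 ?_
        rw [h]
        exact ⟨hx1, hx3, hx4⟩
      exact ef_trans Γ h2 h3 hsit X hX hT1 hT2 hP hN hQ hPN hNQ
        (ef_quo Γ h1 h4 h6 hsit X hT1 hT2 hP hN hPN (fun y hy => hy.2.1)
          (fun u hu y hy => hy.2.2 u hu))
        (ih _ hlt' hN hNQ)

end BKT
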