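import Pool.Agent.Lib.MP_7c08ba_nt.T1.StY
import Pool.Agent.Lib.MP_7c08ba_nt.Met.XPERF
import Pool.Agent.Lib.MP_7c08ba_nt.Met.XHOMS
import Pool.Agent.Lib.MP_7c08ba_nt.Met.XEXT

set_option autoImplicit false

/-!
Parity for general residual representations, module FRG: forget the ring.
-/

noncomputable section

namespace BKT

open BKPar (Loc1 Loc2)
open BKND (Sm)
open BKMet

namespace YFRG

variable {R : Type} [CommRing R] {p : ℕ} [Fact p.Prime] {G : Type} [Group G]
  [TopologicalSpace G] {α : G →* AddMonoid.End (QZ p)} {M M' : Type} [AddCommGroup M]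
  [Module R M] [AddCommGroup M'] [Module R M'] [Finite M]

/-- nondegeneracy on the left -/
theorem left (X : Pair R α M M') (v : M) (h : ∀ w, X.b v w = 0) : v = 0 := by
  have h1 := X.perf ⊥ v (fun m' _ => h m')
  exact (Submodule.mem_bot R).1 h1

/-- nondegeneracy on the right -/
theorem right (X : Pair R α M M') (w : M') (h : ∀ v, X.b v w = 0) : w = 0 := by
  have h1 := X.perf' ⊥ w (fun m _ => h m)
  exact (Submodule.mem_bot R).1 h1

theorem perf (X : Pair R α M M') (P : Submodule ℤ M) (m : M)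
    (h : ∀ m', (∀ n ∈ P, X.b n m' = 0) → X.b m m' = 0) : m ∈ P := by
  obtain ⟨_, _, h1⟩ := stPerf (stHoms stExt) p M M' X.b (left X) (right X)
  let C : AddSubgroup M' :=
    { carrier := {m' | ∀ n ∈ P, X.b n m' = 0}
      add_mem' := fun {a b} ha hb n hn => by rw [map_add, ha n hn, hb n hn, add_zero]
      zero_mem' := fun n _ => map_zero _
      neg_mem' := fun {a} ha n hn => by rw [map_neg, ha n hn, neg_zero] }
  obtain ⟨_, h2, _⟩ := h1 P.toAddSubgroup C (fun w => Iff.rfl)
  exact (h2 m).2 (fun w hw => h w hw)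

theorem perf' (X : Pair R α M M') (P : Submodule ℤ M') (m' : M')
    (h : ∀ m, (∀ n ∈ P, X.b m n = 0) → X.b m m' = 0) : m' ∈ P := by
  obtain ⟨hfin, _, _⟩ := stPerf (stHoms stExt) p M M' X.b (left X) (right X)
  obtain ⟨_, _, h1⟩ := stPerf (stHoms stExt) p M' M X.b.flip (right X) (left X)
  let C : AddSubgroup M :=
    { carrier := {m | ∀ n ∈ P, X.b m n = 0}
      add_mem' := fun {a b} ha hb n hn => by
        rw [map_add, AddMonoidHom.add_apply, ha n hn, hb n hn, add_zero]
      zero_mem' := fun n _ => by rw [map_zero]; rfl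
      neg_mem' := fun {a} ha n hn => by
        rw [map_neg, AddMonoidHom.neg_apply, ha n hn, neg_zero] }
  obtain ⟨_, h2, _⟩ := h1 P.toAddSubgroup C (fun w => Iff.rfl)
  exact (h2 m').2 (fun w hw => h w hw)

/-- the pair over the integers -/
def toInt (X : Pair R α M M') : Pair ℤ α M M' where
  ρ := X.ρ
  ρ' := X.ρ'
  b := X.b
  sm := X.sm
  sm' := X.sm'
  lin := fun g a m => map_zsmul _ _ _
  lin' := fun g a m => map_zsmul _ _ _
  eqv := X.eqv
  bal := fun a m m' => by rw [map_zsmul, map_zsmul, AddMonoidHom.zsmul_apply]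
  perf := perf X
  perf' := perf' X

theorem perp_eq (X : Pair R α M M') (P : Submodule R M) :
    (toInt X).perp (P.restrictScalars ℤ) = (X.perp P).restrictScalars ℤ := rfl

end YFRG

open YFRG in
theorem stFrg : StFrg := by
  intro R _ p _ S _ G _ _ _ _ D _ _ Γ M M' _ _ _ _ _ X
  refine ⟨toInt X, rfl, rfl, fun _ _ => rfl, ?_⟩
  intro P
  refine ⟨rfl, fun h => h, ?_⟩
  intro T δ N Q
  refine ⟨fun h => h, fun h => ?_⟩
  exact h

end BKT
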