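import Pool.Agent.Lib.MP_7c08ba_nt.T1.StY
import Pool.Agent.Lib.MP_7c08ba_nt.T1.LLSH

set_option autoImplicit false

/-!
Parity for general residual representations: module GDI, the modules induced from characters are
good.
-/

noncomputable section

namespace BKT

open BKPar (Loc1 Loc2)
open BKND (Sm)
open BKMet

namespace YGDI

/-- the order of a module induced from a character -/
theorem card_indM {G : Type} [Group G] [TopologicalSpace G] [IsTopologicalGroup G]
    [CompactSpace G] (A : Subgroup G) (hA : IsOpen (A : Set G)) (k : Type) [Field k] [Finite k]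
    (ψ : A →* kˣ) :
    Finite (IndM A (kch ψ)) ∧ Nat.card (IndM A (kch ψ)) = Nat.card k ^ A.index := by
  have hfin : Finite (G ⧸ A) := A.quotient_finite_of_isOpen hA
  refine ⟨Finite.of_equiv _ (LLSH.equivFun A (kch ψ)).symm, ?_⟩
  rw [Nat.card_congr (LLSH.equivFun A (kch ψ)), Nat.card_fun]
  rfl

theorem rel_symm {G : Type} [Group G] {p : ℕ} [Fact p.Prime] {χ : G →* ℤ_[p]ˣ} {k : Type}
    [Field k] [Algebra (ZMod p) k] {ψ ψ' : G →* kˣ} (h : Rel χ ψ ψ') : Rel χ ψ' ψ := by
  intro g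
  rw [mul_comm]
  exact h g

end YGDI

open YGDI in
theorem stGdi : StGdi := by
  intro p _ S _ G _ _ _ _ D _ _ Γ χ U hU hg A A' hadm k _ _ _ ψ ψ' hψ hψ' hrel Y hY hY'
  have hA : IsOpen (A : Set G) := Subgroup.isOpen_mono (hadm.le.trans hadm.le') hU
  obtain ⟨hf, hc⟩ := card_indM A hA k ψ
  obtain ⟨hf', hc'⟩ := card_indM A hA k ψ'
  constructor
  · exact hf
  · rw [hY]
    exact hg.two A A' hadm k ψ hψ
  · rw [hY']
    exact hg.two A A' hadm k ψ' hψ'
  · rw [hY]
    exact hg.one A A' hadm k ψ hψ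
  · rw [hY']
    exact hg.one A A' hadm k ψ' hψ'
  · rw [hY, hY']
    exact hg.card A A' hadm k ψ ψ' hψ hψ' hrel
  · rw [hY, hY', hc, ← hc']
    exact hg.card A A' hadm k ψ' ψ hψ' hψ (rel_symm hrel)

end BKT
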