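import Pool.Agent.Lib.MP_7c08ba_nt.T1.StY
import Pool.Agent.Lib.MP_7c08ba_nt.T1.LLFN
import Pool.Agent.Lib.MP_7c08ba_nt.T1.LDUP

set_option autoImplicit false

/-!
Parity for general residual representations, module GFN: the groups `H¹_T(Q / P)` are finite.
-/

noncomputable section

namespace BKT

open BKPar (Loc1 Loc2)
open BKND (Sm)
open BKMet

namespace YGFN

section Quo

variable {V : Type*} [Group V] {N : Type*} [AddCommGroup N]

/-- the action on a quotient -/
def quoA (ρ : V →* AddMonoid.End N) (P : AddSubgroup N) (hP : ∀ v, ∀ x ∈ P, ρ v x ∈ P) :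
    V →* AddMonoid.End (N ⧸ P) where
  toFun v := QuotientAddGroup.map P P (ρ v) (fun x hx => hP v x hx)
  map_one' := by
    apply AddMonoidHom.ext
    intro y
    induction y using QuotientAddGroup.induction_on with
    | H x =>
      change (((ρ 1 x : N)) : N ⧸ P) = (x : N ⧸ P)
      rw [map_one]
      rfl
  map_mul' v w := by
    apply AddMonoidHom.ext
    intro y
    induction y using QuotientAddGroup.induction_on with
    | H x =>
      change (((ρ (v * w) x : N)) : N ⧸ P) = ((ρ v (ρ w x) : N) : N ⧸ P)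
      rw [map_mul]
      rfl

theorem quoA_mk (ρ : V →* AddMonoid.End N) (P : AddSubgroup N) (hP : ∀ v, ∀ x ∈ P, ρ v x ∈ P)
    (v : V) (x : N) : quoA ρ P hP v (x : N ⧸ P) = ((ρ v x : N) : N ⧸ P) := rfl

end Quo

/-- a finite `p`-group `N` with an action of `V` through elements of `p`-power order has a
nonzero fixed element killed by `p` -/
theorem exists_fixed {p : ℕ} [Fact p.Prime] {V : Type*} [Group V] {N : Type*} [AddCommGroup N]
    [Finite N] (ρ : V →* AddMonoid.End N) (hn : ∃ n : ℕ, ∀ x : N, p ^ n • x = 0)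
    (hρ : ∀ v, ∃ n : ℕ, ρ v ^ p ^ n = 1) (hN : ∃ x : N, x ≠ 0) :
    ∃ x : N, x ≠ 0 ∧ (∀ v, ρ v x = x) ∧ p • x = 0 := by
  obtain ⟨n, hn⟩ := hn
  have hp : p.Prime := Fact.out
  -- the group of permutations
  let inst : MulAction V N :=
    { smul := fun v x => ρ v x
      one_smul := fun x => by
        change ρ 1 x = x
        rw [map_one]
        rfl
      mul_smul := fun v w x => by
        change ρ (v * w) x = ρ v (ρ w x)
        rw [map_mul]
        rfl }
  have hsm : ∀ (v : V) (x : N), v • x = ρ v x := fun _ _ => rfl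
  have hpG : IsPGroup p (MulAction.toPermHom V N).range := by
    rintro ⟨_, v, rfl⟩
    obtain ⟨m, hm⟩ := hρ v
    refine ⟨m, Subtype.ext ?_⟩
    change (MulAction.toPermHom V N v) ^ p ^ m = 1
    rw [← map_pow]
    ext x
    rw [MulAction.toPermHom_apply, MulAction.toPerm_apply, hsm, map_pow, hm]
    rfl
  have hdvd : p ∣ Nat.card N := by
    by_contra hnd
    obtain ⟨x, hx⟩ := hN
    apply hx
    have hcop : Nat.Coprime (p ^ n) (Nat.card N) :=
      ((Nat.Prime.coprime_iff_not_dvd hp).2 hnd).pow_left n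
    have h1 : addOrderOf x ∣ p ^ n := addOrderOf_dvd_of_nsmul_eq_zero (hn x)
    have h2 : addOrderOf x ∣ Nat.card N := addOrderOf_dvd_natCard x
    have h3 : addOrderOf x ∣ 1 := by
      rw [← Nat.Coprime.gcd_eq_one hcop]
      exact Nat.dvd_gcd h1 h2
    have h4 : addOrderOf x = 1 := Nat.dvd_one.1 h3
    exact AddMonoid.addOrderOf_eq_one_iff.1 h4
  have h0 : (0 : N) ∈ MulAction.fixedPoints (MulAction.toPermHom V N).range N := by
    rintro ⟨_, v, rfl⟩
    change ρ v 0 = 0
    exact map_zero _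
  obtain ⟨y, hy, hy0⟩ := hpG.exists_fixed_point_of_prime_dvd_card_of_fixed_point N hdvd h0
  have hyfix : ∀ v, ρ v y = y := fun v => hy ⟨_, v, rfl⟩
  -- the multiples of `y`
  have hex : ∃ m : ℕ, p ^ m • y = 0 := ⟨n, hn y⟩
  classical
  obtain ⟨m, hm, hmin⟩ : ∃ m : ℕ, p ^ m • y = 0 ∧ ∀ k < m, p ^ k • y ≠ 0 :=
    ⟨Nat.find hex, Nat.find_spec hex, fun k hk => Nat.find_min hex hk⟩
  have hm0 : m ≠ 0 := by
    rintro rfl
    rw [pow_zero, one_smul] at hm
    exact hy0 hm.symm
  obtain ⟨m', rfl⟩ := Nat.exists_eq_succ_of_ne_zero hm0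
  refine ⟨p ^ m' • y, hmin m' (Nat.lt_succ_self m'), fun v => ?_, ?_⟩
  · rw [map_nsmul, hyfix v]
  · rw [← mul_smul, ← pow_succ']
    exact hm

/-- cocycles with values in a submodule killed by `p` with the trivial action -/
theorem finite_trivial {p : ℕ} [Fact p.Prime] {V : Type*} [Group V] [TopologicalSpace V]
    (hV : Finite (BKND.Z1 (1 : V →* AddMonoid.End (ZMod p)))) {N : Type*} [AddCommGroup N]
    [Finite N] (ρ : V →* AddMonoid.End N) (K : AddSubgroup N) (hK : ∀ x ∈ K, p • x = 0)
    (hK' : ∀ v, ∀ x ∈ K, ρ v x = x) : {f : V → N | f ∈ BKND.Z1 ρ ∧ ∀ v, f v ∈ K}.Finite := by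
  have hT : ∀ x : K, p • x = 0 := fun x => Subtype.ext (hK x.1 x.2)
  have : Finite (K →+ ZMod p) :=
    Finite.of_injective (fun f => (f : K → ZMod p)) DFunLike.coe_injective
  let Φ : {f : V → N | f ∈ BKND.Z1 ρ ∧ ∀ v, f v ∈ K} →
      ((K →+ ZMod p) → BKND.Z1 (1 : V →* AddMonoid.End (ZMod p))) := fun f lam =>
    ⟨fun v => lam ⟨f.1 v, f.2.2 v⟩, by
      refine ⟨?_, fun g h => ?_⟩
      · obtain ⟨W, hW, hf⟩ := f.2.1.1
        exact ⟨W, hW, fun g w hw => congrArg lam (Subtype.ext (hf g w hw))⟩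
      · have e := f.2.1.2 g h
        rw [hK' g _ (f.2.2 h)] at e
        change lam ⟨f.1 (g * h), _⟩ = lam ⟨f.1 g, _⟩ + lam ⟨f.1 h, _⟩
        rw [← map_add]
        exact congrArg lam (Subtype.ext e)⟩
  have hinj : Function.Injective Φ := by
    intro f f' hff
    apply Subtype.ext
    funext v
    have h3 : (⟨f.1 v, f.2.2 v⟩ - ⟨f'.1 v, f'.2.2 v⟩ : K) = 0 := by
      apply LLFN.separates hT
      intro lam
      rw [map_sub, sub_eq_zero]
      exact congrFun (congrArg Subtype.val (congrFun hff lam)) v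
    rw [sub_eq_zero] at h3
    exact congrArg Subtype.val h3
  have h4 := Finite.of_injective Φ hinj
  exact Set.toFinite _

/-- cocycles with values in a finite `p`-group on which `V` acts through elements of `p`-power
order -/
theorem finite_Z1 {p : ℕ} [Fact p.Prime] {V : Type*} [Group V] [TopologicalSpace V]
    (hV : Finite (BKND.Z1 (1 : V →* AddMonoid.End (ZMod p)))) (c : ℕ) :
    ∀ (N : Type) [AddCommGroup N] [Finite N] (ρ : V →* AddMonoid.End N), Nat.card N ≤ c →
      (∃ n : ℕ, ∀ x : N, p ^ n • x = 0) → (∀ v, ∃ n : ℕ, ρ v ^ p ^ n = 1) →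
      Finite (BKND.Z1 ρ) := by
  induction c with
  | zero =>
    intro N _ _ ρ hc
    exact absurd hc (by
      have := Nat.card_pos (α := N)
      omega)
  | succ c ih =>
    intro N _ _ ρ hc hn hρ
    by_cases hN : ∃ x : N, x ≠ 0
    · obtain ⟨x, hx, hfix, hpx⟩ := exists_fixed ρ hn hρ hN
      have hK : ∀ y ∈ AddSubgroup.zmultiples x, p • y = 0 := by
        rintro _ ⟨m, rfl⟩
        change p • (m • x) = 0
        rw [smul_comm, hpx, smul_zero]
      have hK' : ∀ v, ∀ y ∈ AddSubgroup.zmultiples x, ρ v y = y := by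
        rintro v _ ⟨m, rfl⟩
        change ρ v (m • x) = m • x
        rw [map_zsmul, hfix]
      have hP : ∀ v, ∀ y ∈ AddSubgroup.zmultiples x, ρ v y ∈ AddSubgroup.zmultiples x := by
        intro v y hy
        rw [hK' v y hy]
        exact hy
      have hcard : Nat.card (N ⧸ AddSubgroup.zmultiples x) ≤ c := by
        have h1 := AddSubgroup.card_eq_card_quotient_mul_card_addSubgroup
          (AddSubgroup.zmultiples x)
        have h2 : 1 < Nat.card (AddSubgroup.zmultiples x) := by
          rw [Finite.one_lt_card_iff_nontrivial]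
          exact ⟨⟨0, AddSubgroup.zero_mem _⟩, ⟨x, AddSubgroup.mem_zmultiples x⟩, fun e =>
            hx (congrArg Subtype.val e).symm⟩
        have h3 := Nat.card_pos (α := N ⧸ AddSubgroup.zmultiples x)
        nlinarith
      have hfin := ih (N ⧸ AddSubgroup.zmultiples x) (quoA ρ _ hP) hcard
        (by
          obtain ⟨n, hn⟩ := hn
          refine ⟨n, fun y => ?_⟩
          induction y using QuotientAddGroup.induction_on with
          | H y =>
            rw [← QuotientAddGroup.mk_nsmul, hn, QuotientAddGroup.mk_zero])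
        (by
          intro v
          obtain ⟨n, hn⟩ := hρ v
          refine ⟨n, ?_⟩
          rw [← map_pow]
          apply AddMonoidHom.ext
          intro y
          induction y using QuotientAddGroup.induction_on with
          | H y =>
            change ((ρ (v ^ p ^ n) y : N) : N ⧸ AddSubgroup.zmultiples x) = (y : N ⧸ _)
            rw [map_pow, hn]
            rfl)
      -- the map to the cocycles with values in the quotient
      let Ψ : BKND.Z1 ρ → BKND.Z1 (quoA ρ _ hP) := fun f =>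
        ⟨fun v => (f.1 v : N ⧸ AddSubgroup.zmultiples x), BKND.Loc1.map f.2.1 _, fun g h => by
          change ((f.1 (g * h) : N) : N ⧸ AddSubgroup.zmultiples x) =
            (f.1 g : N ⧸ AddSubgroup.zmultiples x) + ((ρ g (f.1 h) : N) : N ⧸ _)
          rw [f.2.2, QuotientAddGroup.mk_add]⟩
      have hS := finite_trivial hV ρ _ hK hK'
      have h5 : (Ψ ⁻¹' Set.univ).Finite := by
        refine Set.Finite.preimage' Set.finite_univ fun b _ => ?_
        by_cases hb : ∃ f₀, Ψ f₀ = b
        · obtain ⟨f₀, rfl⟩ := hb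
          refine Set.Finite.of_finite_image (f := fun f : BKND.Z1 ρ => f.1 - f₀.1)
            (hS.subset ?_) ?_
          · rintro _ ⟨f, hf, rfl⟩
            refine ⟨(BKND.Z1 ρ).sub_mem f.2 f₀.2, fun v => ?_⟩
            have e : (f.1 v : N ⧸ AddSubgroup.zmultiples x) = (f₀.1 v : N ⧸ _) :=
              congrFun (congrArg Subtype.val hf) v
            rw [QuotientAddGroup.eq_iff_sub_mem] at e
            exact e
          · intro f _ f' _ e
            exact Subtype.ext (sub_left_injective e)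
        · have : Ψ ⁻¹' {b} = ∅ := by
            ext f
            constructor
            · intro hf
              exact absurd ⟨f, hf⟩ hb
            · intro hf
              exact absurd hf (Set.notMem_empty f)
          rw [this]
          exact Set.finite_empty
      rw [Set.preimage_univ] at h5
      exact Set.finite_univ_iff.1 h5
    · have hN' : ∀ x : N, x = 0 := fun x => by
        by_contra hx
        exact hN ⟨x, hx⟩
      refine Finite.of_injective (fun _ : BKND.Z1 ρ => ()) fun f f' _ => ?_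
      apply Subtype.ext
      funext v
      exact (hN' (f.1 v)).trans (hN' (f'.1 v)).symm

/-- a subgroup has nonzero relative index if a function with finitely many values tells apart the
classes -/
theorem relIndex_ne_zero {B : Type*} [AddCommGroup B] (H K : AddSubgroup B) {α : Type*} [Finite α]
    (F : K → α) (hF : ∀ x y : K, F x = F y → (x : B) - y ∈ H) : H.relIndex K ≠ 0 := by
  have hfin : Finite (K ⧸ H.addSubgroupOf K) := by
    refine Finite.of_injective (fun q : K ⧸ H.addSubgroupOf K => F q.out) fun q q' e => ?_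
    have h1 := hF _ _ e
    have h2 : (q.out : K ⧸ H.addSubgroupOf K) = (q'.out : K ⧸ H.addSubgroupOf K) := by
      rw [QuotientAddGroup.eq_iff_sub_mem]
      exact h1
    have h3 : (q.out : K ⧸ H.addSubgroupOf K) = q := QuotientAddGroup.out_eq' q
    have h4 : (q'.out : K ⧸ H.addSubgroupOf K) = q' := QuotientAddGroup.out_eq' q'
    rw [h3, h4] at h2
    exact h2
  exact AddSubgroup.index_ne_zero_of_finite (H := H.addSubgroupOf K)

end YGFN

open YGFN in
/-- Module GFN. -/
theorem stGfn (h : StLsh) : StGfn := by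
  intro p _ S _ G _ _ _ _ D _ _ Γ χ δ U hS M M' _ _ _ X hU T hT P Q hP hQ hPQ
  have hUn := hS.normal
  have hUi : Finite (G ⧸ U) := Subgroup.quotient_finite_of_isOpen U hS.open'
  -- homomorphisms from `U` to `ℤ/p`
  have hV : Finite (BKND.Z1 (1 : U →* AddMonoid.End (ZMod p))) := by
    have e1 : kch (1 : U →* (ZMod p)ˣ) = (1 : U →* AddMonoid.End (ZMod p)) := by
      ext u
      rw [kch_apply]
      simp
    have hsm : Sm (kch (1 : U →* (ZMod p)ˣ)) := ⟨⊤, isOpen_univ, fun w _ => by
      rw [e1]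
      rfl⟩
    have hrel : Rel (χ.comp U.subtype) (1 : U →* (ZMod p)ˣ) 1 := by
      intro g
      have := hS.fix g.1 g.2
      simp [this]
    obtain ⟨c1, -, -, c2⟩ := h G U hS.open' (ZMod p) 1 hsm
    have hadm : Adm p U U U := ⟨le_rfl, le_rfl, fun a _ x hx => hUn.conj_mem x hx a, by
      rw [Subgroup.relIndex_self]
      exact Nat.Prime.not_dvd_one Fact.out, fun x hx => ⟨0, by
      rw [pow_zero, pow_one]
      exact hx⟩⟩
    have hc := hS.glob.card U U hadm (ZMod p) 1 1 (fun _ _ => rfl) (fun _ _ => rfl) hrel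
    have hfi : Finite (IndM U (kch (1 : U →* (ZMod p)ˣ))) := by
      apply Nat.finite_of_card_ne_zero
      rw [c1]
      exact pow_ne_zero _ Nat.card_pos.ne'
    have h3 : Nat.card (BKND.Z1 (indM U (kch (1 : U →* (ZMod p)ˣ)))) ≠ 0 := by
      intro h0
      rw [h0, zero_mul] at hc
      refine (mul_ne_zero (pow_ne_zero _ ?_) ?_) hc.symm
      · exact Nat.card_pos.ne'
      · rw [Finset.prod_ne_zero_iff]
        intro w _
        exact Nat.card_pos.ne'
    have h4 : Nat.card (BKND.Z1 (kch (1 : U →* (ZMod p)ˣ))) ≠ 0 := by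
      intro h0
      rw [h0, zero_mul] at c2
      exact mul_ne_zero h3 Nat.card_pos.ne' c2
    rw [e1] at h4
    exact Nat.finite_of_card_ne_zero h4
  -- `M` is a `p`-group
  obtain ⟨n, hn⟩ : ∃ n : ℕ, ∀ m : M, p ^ n • m = 0 := by
    have X' : Pair ℤ (actA χ) M M' := hS.ax.act ▸ X
    exact ((stDup p G χ hS.cont M).2 M' X').1
  have hPU : ∀ u : U, ∀ x ∈ P.toAddSubgroup, X.ρ.comp U.subtype u x ∈ P.toAddSubgroup :=
    fun u x hx => hP u x hx
  have hfin : Finite (BKND.Z1 (quoA (X.ρ.comp U.subtype) P.toAddSubgroup hPU)) := by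
    refine finite_Z1 hV _ _ _ le_rfl ⟨n, fun y => ?_⟩ fun v => ?_
    · induction y using QuotientAddGroup.induction_on with
      | H y => rw [← QuotientAddGroup.mk_nsmul, hn, QuotientAddGroup.mk_zero]
    · obtain ⟨m, hm⟩ := hU v.1 v.2
      refine ⟨m, ?_⟩
      rw [← map_pow]
      apply AddMonoidHom.ext
      intro y
      induction y using QuotientAddGroup.induction_on with
      | H y =>
        change ((X.ρ ((v : G) ^ p ^ m) y : M) : M ⧸ P.toAddSubgroup) = (y : M ⧸ P.toAddSubgroup)
        rw [map_pow, hm]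
        rfl
  let F : (X.Zr Γ.r T P Q).toAddSubgroup →
      BKND.Z1 (quoA (X.ρ.comp U.subtype) P.toAddSubgroup hPU) × (G ⧸ U → M) × (S → M) := fun x =>
    (⟨fun u => (x.1.1 (u : G) : M ⧸ P.toAddSubgroup), by
      refine ⟨?_, fun g h => ?_⟩
      · obtain ⟨W, hW, hf⟩ := x.2.1
        refine ⟨W.subgroupOf U, hW.preimage continuous_subtype_val, fun g w hw => ?_⟩
        exact congrArg _ (hf g w hw)
      · have e := x.2.2.2.1 (g : G) (h : G)
        change ((x.1.1 ((g : G) * h) : M) : M ⧸ P.toAddSubgroup) =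
          (x.1.1 (g : G) : M ⧸ P.toAddSubgroup) +
            ((X.ρ (g : G) (x.1.1 (h : G)) : M) : M ⧸ P.toAddSubgroup)
        rw [← QuotientAddGroup.mk_add, QuotientAddGroup.eq_iff_sub_mem]
        have e' := P.neg_mem e
        have e2 : x.1.1 ((g : G) * h) - (x.1.1 (g : G) + X.ρ (g : G) (x.1.1 (h : G))) =
            - d1 X.ρ x.1.1 g h := by
          rw [d1]
          abel
        rw [e2]
        exact e'⟩, fun q => x.1.1 q.out, x.1.2)
  refine relIndex_ne_zero _ _ F fun x y hxy => ?_
  have e1 := congrArg Prod.fst hxy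
  have e2 : (fun q : G ⧸ U => x.1.1 q.out) = fun q => y.1.1 q.out :=
    congrArg (fun z => z.2.1) hxy
  have e3 : x.1.2 = y.1.2 := congrArg (fun z => z.2.2) hxy
  have hz := (X.Zr Γ.r T P Q).sub_mem x.2 y.2
  refine ⟨hz.1, ⟨0, Q.zero_mem, fun g => ?_, fun w _ => ?_⟩, hz.2.2.2.2⟩
  · have hg : g = (QuotientGroup.mk g : G ⧸ U).out * ((QuotientGroup.mk g : G ⧸ U).out⁻¹ * g) := by
      group
    have hw : (QuotientGroup.mk g : G ⧸ U).out⁻¹ * g ∈ U := by
      rw [← QuotientGroup.eq]
      exact Quotient.out_eq' _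
    have key : ∀ u ∈ U, (x.1 - y.1).1 u ∈ P := by
      intro u hu
      have h1 : (x.1.1 u : M ⧸ P.toAddSubgroup) = (y.1.1 u : M ⧸ P.toAddSubgroup) :=
        congrFun (congrArg Subtype.val e1) ⟨u, hu⟩
      rw [QuotientAddGroup.eq_iff_sub_mem] at h1
      exact h1
    have h2 := hz.2.2.1 (QuotientGroup.mk g : G ⧸ U).out ((QuotientGroup.mk g : G ⧸ U).out⁻¹ * g)
    have h3 : (x.1 - y.1).1 (QuotientGroup.mk g : G ⧸ U).out = 0 := by
      have := congrFun e2 (QuotientGroup.mk g : G ⧸ U)
      change x.1.1 _ - y.1.1 _ = 0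
      rw [sub_eq_zero]
      exact this
    have h4 := hP (QuotientGroup.mk g : G ⧸ U).out _ (key _ hw)
    rw [d1, h3, add_zero, ← hg] at h2
    have h5 := P.sub_mem h4 h2
    rw [sub_sub_cancel] at h5
    have h6 : d0 X.ρ (0 : M) g = 0 := by simp [d0]
    rw [h6, sub_zero]
    exact h5
  · change x.1.2 w - y.1.2 w - 0 ∈ P
    rw [e3, sub_self, sub_zero]
    exact P.zero_mem

end BKT
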