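import Pool.Agent.Lib.MP_7c08ba_nt.T1.StY
import Pool.Agent.Lib.MP_7c08ba_nt.Met.XIND
import Pool.Agent.Lib.MP_7c08ba_nt.Met.XPERP
import Pool.Agent.Lib.MP_7c08ba_nt.Met.XEXACT
import Pool.Agent.Lib.MP_7c08ba_nt.Met.XCT
import Pool.Agent.Lib.MP_7c08ba_nt.Met.XSWAP
import Pool.Agent.Lib.MP_7c08ba_nt.Met.XHOMS
import Pool.Agent.Lib.MP_7c08ba_nt.Met.XDUAL
import Pool.Agent.Lib.MP_7c08ba_nt.Met.XEXT

set_option autoImplicit false

/-!
Parity for general residual representations, part Y, module INDT: the left kernel of the pairing and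
the Euler characteristic for the members of a family of stable submodules with good subquotients,
by induction.
-/

noncomputable section

namespace BKT

open BKPar (Loc1 Loc2)
open BKND (Sm)
open BKMet
open BKMet.XIND

namespace YINDT

variable {p : ℕ} [Fact p.Prime] {S : Type} [Fintype S] {G : Type}
  [Group G] [TopologicalSpace G] [IsTopologicalGroup G] [CompactSpace G] {D : S → Type}
  [∀ w, Group (D w)] [∀ w, TopologicalSpace (D w)] [∀ w, IsTopologicalGroup (D w)]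
  [∀ w, CompactSpace (D w)] (Γ : Glo S G D (QZ p) (QZ p))

/-- The subquotient `N / P` is good. -/
def Gq {M M' : Type} [AddCommGroup M] [AddCommGroup M'] (X : Pair ℤ Γ.α M M')
    (P N : Submodule ℤ M) : Prop :=
  ∃ (K K' : Type) (_ : AddCommGroup K) (_ : AddCommGroup K') (Y : Pair ℤ Γ.α K K')
    (φ : M → K) (φ' : M' → K'), GoodP Γ Y ∧ IsQuo X P N Y φ φ'

/-- A family of stable submodules with good subquotients. -/
def Fam {M M' : Type} [AddCommGroup M] [AddCommGroup M'] (X : Pair ℤ Γ.α M M')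
    (L : Set (Submodule ℤ M)) : Prop :=
  (∀ P ∈ L, X.Stable P) ∧ ∀ P ∈ L, ∀ Q ∈ L, P < Q → ∃ N ∈ L, P < N ∧ N ≤ Q ∧ Gq Γ X P N

variable {Γ}

omit [IsTopologicalGroup G] [CompactSpace G] [∀ w, IsTopologicalGroup (D w)]
  [∀ w, CompactSpace (D w)] in
theorem good_flip (h3 : StPerp) {K K' : Type} [AddCommGroup K] [AddCommGroup K']
    {Y : Pair ℤ Γ.α K K'} (h : GoodP Γ Y) : GoodP Γ Y.flip := by
  haveI := h.fin
  obtain ⟨_, _, _, _, _, hf⟩ := h3 ℤ p G Γ.α K K' Y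
  obtain ⟨hfin, hc, _⟩ := hf inferInstance
  refine ⟨hfin, h.two', h.two, h.one', h.one, ?_, ?_⟩
  · rw [hc]
    exact h.card'
  · rw [hc]
    exact h.card

omit [IsTopologicalGroup G] [CompactSpace G] [∀ w, IsTopologicalGroup (D w)]
  [∀ w, CompactSpace (D w)] in
theorem gq_flip (h3 : StPerp) {M M' : Type} [AddCommGroup M] [AddCommGroup M']
    {X : Pair ℤ Γ.α M M'} {P N : Submodule ℤ M} (h : Gq Γ X P N) :
    Gq Γ X.flip (X.perp N) (X.perp P) := by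
  obtain ⟨K, K', _, _, Y, φ, φ', hY, hq⟩ := h
  have hbi := (h3 ℤ p G Γ.α M M' X).1
  refine ⟨K', K, _, _, Y.flip, φ', φ, good_flip h3 hY, ?_⟩
  refine ⟨hq.add', hq.ker', hq.surj', hq.act', ?_, ?_, ?_, ?_, ?_⟩
  · intro x hx y hy
    rw [hbi N] at hx hy
    exact hq.add x hx y hy
  · intro x hx
    rw [hbi N] at hx
    rw [hbi P]
    exact hq.ker x hx
  · intro a
    obtain ⟨x, hx, hxa⟩ := hq.surj a
    exact ⟨x, by rw [hbi N]; exact hx, hxa⟩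
  · intro g x hx
    rw [hbi N] at hx
    exact hq.act g x hx
  · intro x hx y hy
    rw [hbi N] at hy
    exact hq.pair y hy x hx

omit [IsTopologicalGroup G] [CompactSpace G] [∀ w, IsTopologicalGroup (D w)]
  [∀ w, CompactSpace (D w)] in
/-- The index of a proper member is smaller. -/
theorem ri_lt {M : Type} [AddCommGroup M] [Finite M] {P N Q : Submodule ℤ M} (h : P < N)
    (h' : N ≤ Q) : 0 < ri N Q ∧ ri N Q < ri P Q := by
  have hm : ri P N * ri N Q = ri P Q := ri_mul h.le h'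
  have hpos : ∀ A B : Submodule ℤ M, A ≤ B → 0 < ri A B := by
    intro A B hAB
    have e := card_mul_ri hAB
    rcases Nat.eq_zero_or_pos (ri A B) with h | h
    · rw [h, mul_zero] at e
      exact absurd e.symm (Nat.card_pos (α := B)).ne'
    · exact h
  have h2 : 1 < ri P N := by
    have h0 := hpos P N h.le
    have h1 : ri P N ≠ 1 := fun e => not_le_of_gt h (ri_one.mp e)
    omega
  refine ⟨hpos N Q h', ?_⟩
  rw [← hm]
  calc ri N Q = 1 * ri N Q := (one_mul _).symm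
    _ < ri P N * ri N Q := Nat.mul_lt_mul_of_pos_right h2 (hpos N Q h')

omit [IsTopologicalGroup G] [CompactSpace G] [∀ w, IsTopologicalGroup (D w)]
  [∀ w, CompactSpace (D w)] in
/-- A good subquotient at the top. -/
theorem top_good {M M' : Type} [AddCommGroup M] [AddCommGroup M'] [Finite M]
    {X : Pair ℤ Γ.α M M'} {L : Set (Submodule ℤ M)} (hL : Fam Γ X L) (n : ℕ) :
    ∀ P ∈ L, ∀ Q ∈ L, P < Q → ri P Q = n → ∃ N ∈ L, P ≤ N ∧ N < Q ∧ Gq Γ X N Q := by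
  induction n using Nat.strong_induction_on with
  | _ n IH =>
  intro P hP Q hQ hPQ hn
  obtain ⟨N, hN, hPN, hNQ, hg⟩ := hL.2 P hP Q hQ hPQ
  rcases eq_or_lt_of_le hNQ with h | h
  · subst h
    exact ⟨P, hP, le_rfl, hPQ, hg⟩
  · obtain ⟨N', hN', h1, h2, h3⟩ := IH (ri N Q) (hn ▸ (ri_lt hPN hNQ).2) N hN Q hQ h rfl
    exact ⟨N', hN', hPN.le.trans h1, h2, h3⟩

omit [IsTopologicalGroup G] [CompactSpace G] [∀ w, IsTopologicalGroup (D w)]
  [∀ w, CompactSpace (D w)] in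
theorem fam_flip (h3 : StPerp) {M M' : Type} [AddCommGroup M] [AddCommGroup M'] [Finite M]
    {X : Pair ℤ Γ.α M M'} {L : Set (Submodule ℤ M)} (hL : Fam Γ X L) :
    Fam Γ X.flip (X.perp '' L) := by
  obtain ⟨hbi, hmono, _, _, hstab, _⟩ := h3 ℤ p G Γ.α M M' X
  refine ⟨?_, ?_⟩
  · rintro _ ⟨P, hP, rfl⟩
    exact hstab P (hL.1 P hP)
  · rintro _ ⟨Q, hQ, rfl⟩ _ ⟨P, hP, rfl⟩ hlt
    have hPQ : P < Q := by
      refine lt_of_le_of_ne ?_ ?_
      · have e := (h3 ℤ p G Γ.α M' M X.flip).2.1 _ _ hlt.le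
        rw [hbi P, hbi Q] at e
        exact e
      · rintro rfl
        exact lt_irrefl _ hlt
    obtain ⟨N, hN, h1, h2, h4⟩ := top_good hL _ P hP Q hQ hPQ rfl
    refine ⟨X.perp N, ⟨N, hN, rfl⟩, lt_of_le_of_ne (hmono N Q h2.le) ?_, hmono P N h1,
      gq_flip h3 h4⟩
    intro e
    have e' := congrArg X.flip.perp e
    rw [hbi Q, hbi N] at e'
    exact absurd e' h2.ne'

variable (Γ)

theorem partA (h1 : StCT) (h2 : StSwap) (h3 : StPerp) (h5 : StDual) (h6 : StLnaT)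
    (h7 : StLnbT) (χ : G →* ℤ_[p]ˣ) (δ : S → ℕ) (hG : GAxT p Γ χ δ) (n : ℕ) :
    ∀ (M M' : Type) [AddCommGroup M] [AddCommGroup M'] [Finite M] [Finite M']
    (X : Pair ℤ Γ.α M M') (L : Set (Submodule ℤ M)), Fam Γ X L → ∀ T : Set S, T.Nonempty →
    Tᶜ.Nonempty → ∀ P ∈ L, ∀ N ∈ L, ∀ Q ∈ L, P ≤ N → N ≤ Q →
    ri P N = n → PA Γ X T P N Q := by
  induction n using Nat.strong_induction_on with
  | _ n IH =>
  intro M M' _ _ _ _ X L hL T hT hT' P hPL N hNL Q hQL hPN hNQ hn x hx hkill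
  have hP := hL.1 P hPL
  have hN := hL.1 N hNL
  have hQ := hL.1 Q hQL
  obtain ⟨hbi, hmono, _, _, hstab, hfin⟩ := h3 ℤ p G Γ.α M M' X
  by_cases hNP : N ≤ P
  · have : P = N := le_antisymm hPN hNP
    subst this
    exact ⟨x, hx, by rw [sub_self]; exact (X.Br T P Q).zero_mem⟩
  have hlt : P < N := lt_of_le_not_ge hPN hNP
  obtain ⟨N1, hN1L, hPN1', hN1N, K, K', _, _, Y, φ, φ', hY, hq⟩ := hL.2 P hPL N hNL hlt
  have hN1 := hL.1 N1 hN1L
  have hPN1 : P ≤ N1 := hPN1'.le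
  have hlt' : ri N1 N < n := hn ▸ (ri_lt hPN1' hN1N).2
  -- step 1
  obtain ⟨x1, hx1, hxx1⟩ := IH (ri N1 N) hlt' M M' X L hL T hT hT' N1 hN1L N hNL Q hQL hN1N hNQ rfl
    x hx (fun y hy => hkill y (Zr_mono X.flip Γ.r Tᶜ le_rfl (hmono P N1 hPN1) hy))
  -- step 2
  obtain ⟨cadd, cadd', csmul, cN⟩ := h1 ℤ S G D (QZ p) (QZ p) Γ M M' X T
  have cneg : ∀ u y, CT Γ X T (-u) y = - CT Γ X T u y := by
    intro u y
    have e0 := cadd 0 0 y
    rw [add_zero] at e0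
    have e0' : CT Γ X T 0 y = 0 := left_eq_add.mp e0
    have e1 := cadd u (-u) y
    rw [add_neg_cancel, e0'] at e1
    exact (neg_eq_of_add_eq_zero_right e1.symm).symm
  have csub : ∀ u v y, CT Γ X T (u - v) y = CT Γ X T u y - CT Γ X T v y := by
    intro u v y
    rw [sub_eq_add_neg, cadd, cneg, ← sub_eq_add_neg]
  have hvan : ∀ y ∈ X.flip.Zr Γ.r Tᶜ (X.perp N) (X.perp P), CT Γ X T x1 y = 0 := by
    intro y hy
    have e1 := hkill y hy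
    have e2 := (cN N hN).1 (x - x1) (Br_mono X T le_rfl le_top hxx1) y
      (Zr_mono X.flip Γ.r Tᶜ le_rfl le_top hy)
    rw [csub, e1, zero_sub, neg_eq_zero] at e2
    exact e2
  have hvan2 : ∀ y ∈ X.flip.Br Tᶜ (X.perp N1) (X.perp P), CT Γ X T x1 y = 0 := by
    intro y hy
    exact (cN N1 hN1).2.1 x1 (Zr_mono X Γ.r T le_rfl le_top hx1) y
      (Br_mono X.flip Tᶜ le_rfl le_top hy)
  have hflip : PA Γ X.flip Tᶜ (X.perp N) (X.perp N1) (X.perp P) := by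
    refine IH (ri N1 N) hlt' M' M X.flip (X.perp '' L) (fam_flip h3 hL) Tᶜ hT'
      (by rw [compl_compl]; exact hT) (X.perp N) ⟨N, hNL, rfl⟩
      (X.perp N1) ⟨N1, hN1L, rfl⟩ (X.perp P) ⟨P, hPL, rfl⟩ (hmono N1 N hN1N)
      (hmono P N1 hPN1) ?_
    exact ri_perp Γ h3 X hN1N
  have hflip' := pa_flip Γ h2 h3 X T P N1 N hN1 hflip
  -- the left kernel, as a subgroup
  let Y0 := X.flip.Zr Γ.r Tᶜ (X.perp N1) (X.perp P)
  let Z := X.Zr Γ.r T N1 N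
  let X₁ : AddSubgroup ((G → M') × (S → M')) :=
    { carrier := {y | y ∈ Y0 ∧ ∀ u ∈ Z, CT Γ X T u y = 0}
      add_mem' := by
        rintro y y' ⟨hy, hy1⟩ ⟨hy', hy1'⟩
        exact ⟨Y0.add_mem hy hy', fun u hu => by rw [cadd', hy1 u hu, hy1' u hu, add_zero]⟩
      zero_mem' := by
        refine ⟨Y0.zero_mem, fun u _ => ?_⟩
        have e0 := cadd' u 0 0
        rw [add_zero] at e0
        exact left_eq_add.mp e0
      neg_mem' := by
        rintro y ⟨hy, hy1⟩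
        refine ⟨Y0.neg_mem hy, fun u hu => ?_⟩
        have e0 := cadd' u 0 0
        rw [add_zero] at e0
        have e0' : CT Γ X T u 0 = 0 := left_eq_add.mp e0
        have e1 := cadd' u y (-y)
        rw [add_neg_cancel, e0', hy1 u hu, zero_add] at e1
        exact e1.symm }
  let Z₁ : AddSubgroup ((G → M) × (S → M)) :=
    { carrier := {u | u ∈ Z ∧ ∀ y ∈ Y0, CT Γ X T u y = 0}
      add_mem' := by
        rintro y y' ⟨hy, hy1⟩ ⟨hy', hy1'⟩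
        exact ⟨Z.add_mem hy hy', fun u hu => by rw [cadd, hy1 u hu, hy1' u hu, add_zero]⟩
      zero_mem' := by
        refine ⟨Z.zero_mem, fun u _ => ?_⟩
        have e0 := cadd 0 0 u
        rw [add_zero] at e0
        exact left_eq_add.mp e0
      neg_mem' := by
        rintro y ⟨hy, hy1⟩
        refine ⟨Z.neg_mem hy, fun u hu => ?_⟩
        rw [cneg, hy1 u hu, neg_zero] }
  have hX₁fin : X₁.relIndex Y0.toAddSubgroup ≠ 0 := by
    have e : (X.flip.Br Tᶜ (X.perp N1) (X.perp P)).toAddSubgroup.relIndex Y0.toAddSubgroup ≠ 0 :=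
      (h7 p S G D Γ χ δ hG M M' X T hT hT' P N1 hP hN1 hPN1 K K' Y hY φ φ' hq).2.1
    have hle : (X.flip.Br Tᶜ (X.perp N1) (X.perp P)).toAddSubgroup ⊓ Y0.toAddSubgroup ≤ X₁ := by
      rintro y ⟨hy, hyY⟩
      refine ⟨hyY, fun u hu => ?_⟩
      exact (cN N1 hN1).2.1 u (Zr_mono X Γ.r T le_rfl le_top hu) y
        (Br_mono X.flip Tᶜ le_rfl le_top hy)
    have hd : X₁.relIndex Y0.toAddSubgroup ∣
        ((X.flip.Br Tᶜ (X.perp N1) (X.perp P)).toAddSubgroup ⊓ Y0.toAddSubgroup).relIndex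
          Y0.toAddSubgroup := AddSubgroup.relIndex_dvd_of_le_left _ hle
    rw [AddSubgroup.inf_relIndex_right] at hd
    exact fun h0 => e (Nat.eq_zero_of_zero_dvd (h0 ▸ hd))
  obtain ⟨_, hdual⟩ := h5 p ((G → M') × (S → M')) ((G → M) × (S → M))
    (fun y u => CT Γ X T u y) Y0.toAddSubgroup X₁ Z.toAddSubgroup Z₁
    (fun y _ y' _ u _ => cadd' u y y') (fun y _ u _ u' _ => cadd u u' y)
    (fun y hy => hy.1) (fun u hu => hu.1)
    (fun y hy => ⟨fun h => h.2, fun h => ⟨hy, h⟩⟩) (fun u hu => ⟨fun h => h.2, fun h => ⟨hu, h⟩⟩)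
    hX₁fin
  obtain ⟨u, hu, hu'⟩ := hdual (fun y => CT Γ X T x1 y) (fun y _ y' _ => cadd' x1 y y')
    (fun y hy => by
      obtain ⟨y', hy', hyy'⟩ := hflip' y hy.1 hy.2
      have e : y = y' + (y - y') := by abel
      change CT Γ X T x1 y = 0
      rw [e, cadd', hvan y' hy', hvan2 _ hyy', add_zero])
  -- step 3
  have hx2 : x1 - u ∈ X.Zr Γ.r T N1 Q :=
    (X.Zr Γ.r T N1 Q).sub_mem hx1 (Zr_mono X Γ.r T le_rfl hNQ hu)
  obtain ⟨x3, hx3, hx3'⟩ := h6 p S G D Γ χ δ hG M M' X T hT hT' P N1 Q hP hN1 hQ hPN1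
    (hN1N.trans hNQ) K K' Y hY φ φ' hq (x1 - u) hx2
    (fun y hy => by
      have e : CT Γ X T x1 y = CT Γ X T u y := hu' y hy
      rw [csub, e, sub_self])
  refine ⟨x3, hx3, ?_⟩
  have e : x - x3 = (x - x1) + u + (x1 - u - x3) := by abel
  rw [e]
  exact (X.Br T N Q).add_mem ((X.Br T N Q).add_mem hxx1 (Zr_le_Br X Γ.r T N1 N Q hu))
    (Br_mono X T hN1N le_rfl hx3')

theorem partB (h1 : StCT) (h2 : StSwap) (h3 : StPerp) (h4 : StExact) (h5 : StDual) (h6 : StLnaT)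
    (h7 : StLnbT) (χ : G →* ℤ_[p]ˣ) (δ : S → ℕ) (hG : GAxT p Γ χ δ)
    (M M' : Type) [AddCommGroup M] [AddCommGroup M'] [Finite M] [Finite M']
    (X : Pair ℤ Γ.α M M') (L : Set (Submodule ℤ M)) (hL : Fam Γ X L) (T : Set S)
    (hT : T.Nonempty) (hT' : Tᶜ.Nonempty) (e : ℕ) (he : e = ∑ w, open Classical in
        if w ∈ T then δ w else 0) (n : ℕ) : ∀ P ∈ L, ∀ Q ∈ L, P ≤ Q →
    ri P Q = n →
    ri (X.Br T P Q) (X.Zr Γ.r T P Q) ≠ 0 ∧
    ri (X.flip.Br Tᶜ (X.perp Q) (X.perp P)) (X.flip.Zr Γ.r Tᶜ (X.perp Q) (X.perp P)) ≠ 0 ∧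
    ri (X.Br T P Q) (X.Zr Γ.r T P Q) * ri P Q ^ e =
    ri (X.flip.Br Tᶜ (X.perp Q) (X.perp P)) (X.flip.Zr Γ.r Tᶜ (X.perp Q) (X.perp P)) * ri P Q := by
  induction n using Nat.strong_induction_on with
  | _ n IH =>
  intro P hPL Q hQL hPQ hn
  have hP := hL.1 P hPL
  have hQ := hL.1 Q hQL
  obtain ⟨hbi, hmono, _, _, hstab, hfin⟩ := h3 ℤ p G Γ.α M M' X
  by_cases hQP : Q ≤ P
  · have : P = Q := le_antisymm hPQ hQP
    subst this
    have e1 : ri (X.Br T P P) (X.Zr Γ.r T P P) = 1 := ri_one.mpr (Zr_le_Br X Γ.r T P P P)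
    have e2 : ri (X.flip.Br Tᶜ (X.perp P) (X.perp P))
        (X.flip.Zr Γ.r Tᶜ (X.perp P) (X.perp P)) = 1 :=
      ri_one.mpr (Zr_le_Br X.flip Γ.r Tᶜ (X.perp P) (X.perp P) (X.perp P))
    have e3 : ri P P = 1 := ri_one.mpr le_rfl
    rw [e1, e2, e3, one_pow]
    exact ⟨one_ne_zero, one_ne_zero, rfl⟩
  have hlt : P < Q := lt_of_le_not_ge hPQ hQP
  obtain ⟨N1, hN1L, hPN1', hN1Q, K0, K0', _, _, Y, φ, φ', hY, hq⟩ := hL.2 P hPL Q hQL hlt
  have hN1 := hL.1 N1 hN1L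
  have hPN1 : P ≤ N1 := hPN1'.le
  have hm : ri P N1 * ri N1 Q = ri P Q := ri_mul hPN1 hN1Q
  have hlt' : ri N1 Q < n := hn ▸ (ri_lt hPN1' hN1Q).2
  obtain ⟨b1, b2, b3⟩ := IH (ri N1 Q) hlt' N1 hN1L Q hQL hN1Q rfl
  obtain ⟨l1, l2, l3⟩ := h7 p S G D Γ χ δ hG M M' X T hT hT' P N1 hP hN1 hPN1 K0 K0' Y hY φ φ' hq
  rw [← he] at l3
  have hx := (h4 ℤ G S D Γ.r (QZ p) Γ.α M M' X T hT)
  have hx' := (h4 ℤ G S D Γ.r (QZ p) Γ.α M' M X.flip Tᶜ hT')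
  obtain ⟨_, _, x3⟩ := hx.2 P N1 Q hP hN1 hQ hPN1 hN1Q
  obtain ⟨_, _, x3'⟩ := hx'.2 (X.perp Q) (X.perp N1) (X.perp P) (hstab Q hQ) (hstab N1 hN1)
    (hstab P hP) (hmono N1 Q hN1Q) (hmono P N1 hPN1)
  have hBZ : X.Br T N1 Q ≤ X.Zr Γ.r T N1 Q := hx.1 N1 Q hN1 hN1Q hQ
  have hBZ' : X.flip.Br Tᶜ (X.perp N1) (X.perp P) ≤ X.flip.Zr Γ.r Tᶜ (X.perp N1) (X.perp P) :=
    hx'.1 (X.perp N1) (X.perp P) (hstab N1 hN1) (hmono P N1 hPN1) (hstab P hP)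
  -- the kernels
  set K := (X.Zr Γ.r T P Q) ⊔ (X.Br T N1 Q) with hK
  set K' := (X.flip.Zr Γ.r Tᶜ (X.perp Q) (X.perp P)) ⊔ (X.flip.Br Tᶜ (X.perp N1) (X.perp P))
    with hK'
  have hKZ : K ≤ X.Zr Γ.r T N1 Q := sup_le (Zr_mono X Γ.r T hPN1 le_rfl) hBZ
  have hKZ' : K' ≤ X.flip.Zr Γ.r Tᶜ (X.perp N1) (X.perp P) :=
    sup_le (Zr_mono X.flip Γ.r Tᶜ (hmono N1 Q hN1Q) le_rfl) hBZ'
  obtain ⟨cadd, cadd', csmul, cN⟩ := h1 ℤ S G D (QZ p) (QZ p) Γ M M' X T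
  have cNf := (h1 ℤ S G D (QZ p) (QZ p) Γ M' M X.flip Tᶜ).2.2.2
  have hA : PA Γ X T P N1 Q := partA Γ h1 h2 h3 h5 h6 h7 χ δ hG _ M M' X L hL T hT hT' P hPL N1
    hN1L Q hQL hPN1 hN1Q rfl
  have hA' : PA Γ X.flip Tᶜ (X.perp Q) (X.perp N1) (X.perp P) :=
    partA Γ h1 h2 h3 h5 h6 h7 χ δ hG _ M' M X.flip (X.perp '' L) (fam_flip h3 hL) Tᶜ hT'
      (by rw [compl_compl]; exact hT) (X.perp Q) ⟨Q, hQL, rfl⟩ (X.perp N1) ⟨N1, hN1L, rfl⟩
      (X.perp P) ⟨P, hPL, rfl⟩ (hmono N1 Q hN1Q) (hmono P N1 hPN1) rfl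
  have hA'' := pa_flip Γ h2 h3 X T P N1 Q hN1 hA'
  have hKfin : ri K (X.Zr Γ.r T N1 Q) ≠ 0 := ri_ne (le_sup_right : X.Br T N1 Q ≤ K) b1
  obtain ⟨hdual, _⟩ := h5 p ((G → M) × (S → M)) ((G → M') × (S → M'))
    (fun x y => CT Γ X T x y) (X.Zr Γ.r T N1 Q).toAddSubgroup K.toAddSubgroup
    (X.flip.Zr Γ.r Tᶜ (X.perp N1) (X.perp P)).toAddSubgroup K'.toAddSubgroup
    (fun x _ x' _ y _ => cadd x x' y) (fun x _ y _ y' _ => cadd' x y y')
    (fun x hx => hKZ hx) (fun y hy => hKZ' hy)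
    (fun x hx => by
      constructor
      · intro hxK y hy
        obtain ⟨a, ha, b, hb, rfl⟩ := Submodule.mem_sup.mp hxK
        have e1 : CT Γ X T a y = 0 := (cN P hP).2.2 a (Zr_mono X Γ.r T le_rfl le_top ha) y
          (Zr_mono X.flip Γ.r Tᶜ le_top le_rfl hy)
        have e2 : CT Γ X T b y = 0 := (cN N1 hN1).1 b (Br_mono X T le_rfl le_top hb) y
          (Zr_mono X.flip Γ.r Tᶜ le_rfl le_top hy)
        change CT Γ X T (a + b) y = 0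
        rw [cadd, e1, e2, add_zero]
      · intro h
        obtain ⟨x', hx', hxx'⟩ := hA x hx h
        exact Submodule.mem_sup.mpr ⟨x', hx', x - x', hxx', by abel⟩)
    (fun y hy => by
      constructor
      · intro hyK x hx
        obtain ⟨a, ha, b, hb, rfl⟩ := Submodule.mem_sup.mp hyK
        have hxt : x ∈ X.Zr Γ.r T N1 ⊤ := Zr_mono X Γ.r T le_rfl le_top hx
        have hat : a ∈ X.flip.Zr Γ.r Tᶜ (X.perp N1) ⊤ :=
          Zr_mono X.flip Γ.r Tᶜ (hmono N1 Q hN1Q) le_top ha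
        have e1 : CT Γ X T x a = 0 := by
          rw [h2 ℤ S G D (QZ p) (QZ p) Γ M M' X T N1 hN1 x hxt a hat]
          refine (cNf (X.perp Q) (hstab Q hQ)).2.2 a (Zr_mono X.flip Γ.r Tᶜ le_rfl le_top ha) x ?_
          have e : X.flip.flip = X := rfl
          rw [e, compl_compl, hbi Q]
          exact Zr_mono X Γ.r T le_top le_rfl hx
        have e2 : CT Γ X T x b = 0 := (cN N1 hN1).2.1 x hxt b
          (Br_mono X.flip Tᶜ le_rfl le_top hb)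
        change CT Γ X T x (a + b) = 0
        rw [cadd', e1, e2, add_zero]
      · intro h
        obtain ⟨y', hy', hyy'⟩ := hA'' y hy h
        exact Submodule.mem_sup.mpr ⟨y', hy', y - y', hyy', by abel⟩)
    hKfin
  have hρ : ri K' (X.flip.Zr Γ.r Tᶜ (X.perp N1) (X.perp P)) = ri K (X.Zr Γ.r T N1 Q) := hdual
  set ρ := ri K (X.Zr Γ.r T N1 Q) with hρdef
  have m1 : ri (X.Br T N1 Q) K * ρ = ri (X.Br T N1 Q) (X.Zr Γ.r T N1 Q) :=
    ri_mul le_sup_right hKZ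
  have m2 : ri (X.flip.Br Tᶜ (X.perp N1) (X.perp P)) K' * ρ =
      ri (X.flip.Br Tᶜ (X.perp N1) (X.perp P)) (X.flip.Zr Γ.r Tᶜ (X.perp N1) (X.perp P)) := by
    rw [← hρ]
    exact ri_mul le_sup_right hKZ'
  have x3a : ri (X.Br T P Q) (X.Zr Γ.r T P Q) =
      ri (X.Br T P N1) (X.Zr Γ.r T P N1) * ri (X.Br T N1 Q) K := x3
  have x3b : ri (X.flip.Br Tᶜ (X.perp Q) (X.perp P)) (X.flip.Zr Γ.r Tᶜ (X.perp Q) (X.perp P)) =
      ri (X.flip.Br Tᶜ (X.perp Q) (X.perp N1)) (X.flip.Zr Γ.r Tᶜ (X.perp Q) (X.perp N1)) *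
        ri (X.flip.Br Tᶜ (X.perp N1) (X.perp P)) K' := x3'
  have l1a : ri (X.Br T P N1) (X.Zr Γ.r T P N1) ≠ 0 := l1
  have l2a : ri (X.flip.Br Tᶜ (X.perp N1) (X.perp P))
    (X.flip.Zr Γ.r Tᶜ (X.perp N1) (X.perp P)) ≠ 0 := l2
  have l3a : ri (X.Br T P N1) (X.Zr Γ.r T P N1) * ri P N1 ^ e =
    ri (X.flip.Br Tᶜ (X.perp N1) (X.perp P))
      (X.flip.Zr Γ.r Tᶜ (X.perp N1) (X.perp P)) * ri P N1 := l3
  rw [← m1] at b1 b3
  rw [← m2] at l2a l3a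
  have c1 : ri (X.Br T N1 Q) K ≠ 0 := fun h => b1 (by rw [h, zero_mul])
  have c2 : ri (X.flip.Br Tᶜ (X.perp N1) (X.perp P)) K' ≠ 0 := fun h => l2a (by rw [h, zero_mul])
  refine ⟨?_, ?_, ?_⟩
  · rw [x3a]
    exact Nat.mul_ne_zero l1a c1
  · rw [x3b]
    exact Nat.mul_ne_zero b2 c2
  · rw [x3a, x3b, ← hm]
    have hρ0 : 0 < ρ := Nat.pos_of_ne_zero hKfin
    refine Nat.eq_of_mul_eq_mul_right hρ0 ?_
    calc ri (X.Br T P N1) (X.Zr Γ.r T P N1) * ri (X.Br T N1 Q) K * (ri P N1 * ri N1 Q) ^ e * ρ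
        = (ri (X.Br T P N1) (X.Zr Γ.r T P N1) * ri P N1 ^ e) *
          (ri (X.Br T N1 Q) K * ρ * ri N1 Q ^ e) := by rw [mul_pow]; ring
      _ = _ := by rw [l3a, b3]; ring

end YINDT

/-- Module INDT. -/
theorem stIndT (h1 : StLnaT) (h2 : StLnbT) : StIndT := by
  intro p _ S _ G _ _ _ _ D _ _ _ _ Γ χ δ hG M M' _ _ _ X L hst hL T hT hT' P hP N hN Q hQ hPN hNQ
  have hperp : StPerp := stPerp (stHoms stExt)
  have hdual : StDual := stDual stExt (stHoms stExt)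
  haveI : Finite M' := ((hperp ℤ p G Γ.α M M' X).2.2.2.2.2 inferInstance).1
  have hF : YINDT.Fam Γ X L := ⟨hst, hL⟩
  exact ⟨YINDT.partA Γ stCT stSwap hperp hdual h1 h2 χ δ hG _ M M' X L hF T hT hT' P hP N hN Q hQ
      hPN hNQ rfl,
    YINDT.partB Γ stCT stSwap hperp stExact hdual h1 h2 χ δ hG M M' X L hF T hT hT' _ rfl _ P hP Q
      hQ (hPN.trans hNQ) rfl⟩

end BKT
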