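import Pool.Agent.Lib.MP_7c08ba_nt.T1.StY

set_option autoImplicit false

/-!
Parity for general residual representations, module ISO: the numbers of classes depend only on the
subquotient.
-/

noncomputable section

namespace BKT

open BKPar (Loc1 Loc2)
open BKND (Sm)
open BKMet

namespace YISO

/-- The relative index is invariant under a map which is additive, onto and respects the smaller
subgroups. -/
theorem relIndex_eq {V V' : Type*} [AddCommGroup V] [AddCommGroup V'] (B A : AddSubgroup V)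
    (B' A' : AddSubgroup V') (F : V → V') (hF : ∀ x ∈ A, F x ∈ A')
    (hadd : ∀ x ∈ A, ∀ y ∈ A, F (x + y) = F x + F y) (hsurj : ∀ y ∈ A', ∃ x ∈ A, F x = y)
    (hB : ∀ x ∈ A, F x ∈ B' ↔ x ∈ B) : B.relIndex A = B'.relIndex A' := by
  let f : A →+ A' := AddMonoidHom.mk' (fun x => ⟨F x.1, hF x.1 x.2⟩) (fun x y =>
    Subtype.ext (hadd x.1 x.2 y.1 y.2))
  have hf : Function.Surjective f := by
    rintro ⟨y, hy⟩
    obtain ⟨x, hx, hxy⟩ := hsurj y hy
    exact ⟨⟨x, hx⟩, Subtype.ext hxy⟩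
  have hcom : (B'.addSubgroupOf A').comap f = B.addSubgroupOf A := by
    ext x
    rw [AddSubgroup.mem_comap, AddSubgroup.mem_addSubgroupOf, AddSubgroup.mem_addSubgroupOf]
    exact hB x.1 x.2
  change (B.addSubgroupOf A).index = (B'.addSubgroupOf A').index
  rw [← hcom, AddSubgroup.index_comap_of_surjective _ hf]

section Core

variable {S : Type} {G : Type} [Group G] [TopologicalSpace G] {D : S → Type}
  [∀ w, Group (D w)] (r : ∀ w, D w →* G) {A : Type} [AddCommGroup A]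
  {α : G →* AddMonoid.End A} {M M' : Type} [AddCommGroup M] [AddCommGroup M']
  (X : Pair ℤ α M M') (T : Set S) (P N : Submodule ℤ M) {K K' : Type} [AddCommGroup K]
  [AddCommGroup K'] (Y : Pair ℤ α K K') (φ : M → K)

/-- The hypotheses on `φ`. -/
structure Hyp : Prop where
  stab : X.Stable N
  add : ∀ x ∈ N, ∀ y ∈ N, φ (x + y) = φ x + φ y
  ker : ∀ x ∈ N, φ x = 0 ↔ x ∈ P
  surj : ∀ a : K, ∃ x ∈ N, φ x = a
  act : ∀ g, ∀ x ∈ N, φ (X.ρ g x) = Y.ρ g (φ x)

variable {X T P N Y φ}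

theorem Hyp.zero (h : Hyp X P N Y φ) : φ 0 = 0 := (h.ker 0 N.zero_mem).2 P.zero_mem

theorem Hyp.neg (h : Hyp X P N Y φ) {x : M} (hx : x ∈ N) : φ (-x) = -φ x := by
  have h1 := h.add x hx (-x) (N.neg_mem hx)
  rw [add_neg_cancel, h.zero] at h1
  exact (neg_eq_of_add_eq_zero_right h1.symm).symm

theorem Hyp.sub (h : Hyp X P N Y φ) {x y : M} (hx : x ∈ N) (hy : y ∈ N) :
    φ (x - y) = φ x - φ y := by
  rw [sub_eq_add_neg, h.add x hx _ (N.neg_mem hy), h.neg hy, sub_eq_add_neg]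

theorem Hyp.d0_mem (h : Hyp X P N Y φ) {x : M} (hx : x ∈ N) (g : G) : d0 X.ρ x g ∈ N :=
  N.sub_mem (h.stab g x hx) hx

theorem Hyp.d0_eq (h : Hyp X P N Y φ) {x : M} (hx : x ∈ N) (g : G) :
    φ (d0 X.ρ x g) = d0 Y.ρ (φ x) g := by
  unfold d0
  rw [h.sub (h.stab g x hx) hx, h.act g x hx]

theorem Hyp.d1_mem (h : Hyp X P N Y φ) {z : G → M} (hz : ∀ g, z g ∈ N) (g k : G) :
    d1 X.ρ z g k ∈ N :=
  N.add_mem (N.sub_mem (h.stab g _ (hz k)) (hz _)) (hz g)

theorem Hyp.d1_eq (h : Hyp X P N Y φ) {z : G → M} (hz : ∀ g, z g ∈ N) (g k : G) :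
    φ (d1 X.ρ z g k) = d1 Y.ρ (fun g => φ (z g)) g k := by
  unfold d1
  rw [h.add _ (N.sub_mem (h.stab g _ (hz k)) (hz _)) _ (hz g),
    h.sub (h.stab g _ (hz k)) (hz _), h.act g _ (hz k)]

/-- The map on pairs of functions. -/
def mp (φ : M → K) (x : (G → M) × (S → M)) : (G → K) × (S → K) :=
  (fun g => φ (x.1 g), fun w => φ (x.2 w))

theorem exists_section (h : Hyp X P N Y φ) :
    ∃ s : K → M, s 0 = 0 ∧ (∀ a, s a ∈ N) ∧ ∀ a, φ (s a) = a := by
  classical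
  choose s hs1 hs2 using h.surj
  refine ⟨fun a => if a = 0 then 0 else s a, if_pos rfl, fun a => ?_, fun a => ?_⟩
  · dsimp only
    split_ifs
    · exact N.zero_mem
    · exact hs1 a
  · dsimp only
    split_ifs with h0
    · rw [h.zero, h0]
    · exact hs2 a

/-- The numbers of classes are the same. -/
theorem core (h : Hyp X P N Y φ) :
    (X.Br (S := S) T P N).toAddSubgroup.relIndex (X.Zr r T P N).toAddSubgroup =
      (Y.Br (S := S) T ⊥ ⊤).toAddSubgroup.relIndex (Y.Zr r T ⊥ ⊤).toAddSubgroup := by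
  obtain ⟨s, hs0, hsN, hsφ⟩ := exists_section h
  have hsub : ∀ {x y : M}, x ∈ N → y ∈ N → (φ x = φ y ↔ x - y ∈ P) := by
    intro x y hx hy
    rw [← h.ker _ (N.sub_mem hx hy), h.sub hx hy, sub_eq_zero]
  refine relIndex_eq _ _ _ _ (mp φ) ?_ ?_ ?_ ?_
  · rintro x ⟨hx, hx1, hx2, hx3, hx4⟩
    refine ⟨BKND.Loc1.map hx φ, fun g => Submodule.mem_top, fun g k => ?_, fun w hw =>
      ⟨Submodule.mem_top, fun d => ?_⟩, fun w hw => ?_⟩
    · rw [Submodule.mem_bot]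
      change d1 Y.ρ (fun g => φ (x.1 g)) g k = 0
      rw [← h.d1_eq hx1, h.ker _ (h.d1_mem hx1 g k)]
      exact hx2 g k
    · rw [Submodule.mem_bot]
      change φ (x.1 (r w d)) - d0 Y.ρ (φ (x.2 w)) (r w d) = 0
      rw [← h.d0_eq (hx3 w hw).1, sub_eq_zero, hsub (hx1 _) (h.d0_mem (hx3 w hw).1 _)]
      exact (hx3 w hw).2 d
    · change φ (x.2 w) = 0
      rw [hx4 w hw, h.zero]
  · rintro x ⟨hx, hx1, hx2, hx3, hx4⟩ y ⟨hy, hy1, hy2, hy3, hy4⟩
    refine Prod.ext (funext fun g => h.add _ (hx1 g) _ (hy1 g)) (funext fun w => ?_)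
    change φ (x.2 w + y.2 w) = φ (x.2 w) + φ (y.2 w)
    by_cases hw : w ∈ T
    · exact h.add _ (hx3 w hw).1 _ (hy3 w hw).1
    · rw [hx4 w hw, hy4 w hw, add_zero, h.zero, add_zero]
  · rintro y ⟨hy, hy1, hy2, hy3, hy4⟩
    refine ⟨(fun g => s (y.1 g), fun w => s (y.2 w)), ⟨BKND.Loc1.map hy s, fun g => hsN _,
      fun g k => ?_, fun w hw => ⟨hsN _, fun d => ?_⟩, fun w hw => ?_⟩, ?_⟩
    · change d1 X.ρ (fun g => s (y.1 g)) g k ∈ P
      rw [← h.ker _ (h.d1_mem (fun g => hsN _) g k), h.d1_eq (fun g => hsN _)]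
      have h1 := hy2 g k
      rw [Submodule.mem_bot] at h1
      have h2 : (fun g => φ (s (y.1 g))) = y.1 := funext fun g => hsφ _
      rw [h2]
      exact h1
    · change s (y.1 (r w d)) - d0 X.ρ (s (y.2 w)) (r w d) ∈ P
      rw [← hsub (hsN _) (h.d0_mem (hsN _) _), h.d0_eq (hsN _), hsφ, hsφ, ← sub_eq_zero]
      have h1 := (hy3 w hw).2 d
      rwa [Submodule.mem_bot] at h1
    · change s (y.2 w) = 0
      rw [hy4 w hw, hs0]
    · exact Prod.ext (funext fun g => hsφ _) (funext fun w => hsφ _)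
  · rintro x ⟨hx, hx1, hx2, hx3, hx4⟩
    constructor
    · rintro ⟨-, ⟨a, -, ha1, ha2⟩, -⟩
      refine ⟨hx, ⟨s a, hsN a, fun g => ?_, fun w hw => ?_⟩, hx4⟩
      · rw [← hsub (hx1 g) (h.d0_mem (hsN a) g), h.d0_eq (hsN a), hsφ, ← sub_eq_zero]
        have h1 := ha1 g
        rwa [Submodule.mem_bot] at h1
      · rw [← hsub (hx3 w hw).1 (hsN a), hsφ, ← sub_eq_zero]
        have h1 := ha2 w hw
        rwa [Submodule.mem_bot] at h1
    · rintro ⟨-, ⟨n, hn, hn1, hn2⟩, -⟩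
      refine ⟨BKND.Loc1.map hx φ, ⟨φ n, Submodule.mem_top, fun g => ?_, fun w hw => ?_⟩,
        fun w hw => ?_⟩
      · rw [Submodule.mem_bot]
        change φ (x.1 g) - d0 Y.ρ (φ n) g = 0
        rw [← h.d0_eq hn, sub_eq_zero, hsub (hx1 g) (h.d0_mem hn g)]
        exact hn1 g
      · rw [Submodule.mem_bot]
        change φ (x.2 w) - φ n = 0
        rw [sub_eq_zero, hsub (hx3 w hw).1 hn]
        exact hn2 w hw
      · change φ (x.2 w) = 0
        rw [hx4 w hw, h.zero]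

/-- Annihilators of stable submodules are stable. -/
theorem stable_perp (hP : X.Stable P) : X.flip.Stable (X.perp P) := by
  intro g m' hm' m hm
  have h1 : m = X.ρ g (X.ρ g⁻¹ m) := by
    have h2 : X.ρ (g * g⁻¹) m = X.ρ g (X.ρ g⁻¹ m) := by
      rw [map_mul]
      rfl
    rw [← h2, mul_inv_cancel, map_one]
    rfl
  change X.b m (X.ρ' g m') = 0
  rw [h1, X.eqv, hm' _ (hP g⁻¹ m hm), map_zero]

end Core

end YISO

/-- Module ISO. -/
theorem stIso : StIso := by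
  intro p _ S _ G _ _ _ _ D _ _ Γ M M' _ _ _ X T P N hP hN hPN K K' _ _ Y φ φ' h
  have h1 : YISO.Hyp X P N Y φ := ⟨hN, h.add, h.ker, h.surj, h.act⟩
  have h2 : YISO.Hyp X.flip (X.perp N) (X.perp P) Y.flip φ' :=
    ⟨YISO.stable_perp hP, h.add', h.ker', h.surj', h.act'⟩
  refine ⟨YISO.core Γ.r h1, YISO.core Γ.r h2, ?_⟩
  rw [YISO.relIndex_eq P.toAddSubgroup N.toAddSubgroup (⊥ : AddSubgroup K) ⊤ φ
    (fun x _ => AddSubgroup.mem_top _) (fun x hx y hy => h.add x hx y hy)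
    (fun a _ => h.surj a) (fun x hx => by
      rw [AddSubgroup.mem_bot]
      exact h.ker x hx), AddSubgroup.relIndex_bot_left]
  exact Nat.card_congr AddSubgroup.topEquiv.toEquiv

end BKT
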