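import Pool.Agent.Lib.MP_7c08ba_nt.T1.StY
import Pool.Agent.Lib.MP_7c08ba_nt.T1.YISO
import Pool.Agent.Lib.MP_7c08ba_nt.Met.XEXT
import Pool.Agent.Lib.MP_7c08ba_nt.Met.XHOMS
import Pool.Agent.Lib.MP_7c08ba_nt.Met.XPERP

set_option autoImplicit false

/-!
Parity for general residual representations, module LNBT: the number of classes with values in a
good subquotient.
-/

noncomputable section

namespace BKT

open BKPar (Loc1 Loc2)
open BKND (Sm)
open BKMet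

namespace YLNBT

section Count

variable {S : Type} {G : Type} [Group G] [TopologicalSpace G] {D : S → Type} [∀ w, Group (D w)]
  (r : ∀ w, D w →* G) (T : Set S) {K : Type} [AddCommGroup K] (σ : G →* AddMonoid.End K)

/-- cocycles which are trivial at the places in `T` -/
abbrev AT : Type := {f : G → K // f ∈ BKND.Z1 σ ∧
  ∀ w ∈ T, pb1 (r w) f ∈ BKND.B1 (σ.comp (r w))}

open Classical in
/-- the local groups -/
def KT (w : S) : AddSubgroup K := if w ∈ T then BKND.H0 (σ.comp (r w)) else ⊥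

omit [TopologicalSpace G] in
theorem mem_KT {w : S} (hw : w ∈ T) {x : K} :
    x ∈ KT r T σ w ↔ x ∈ BKND.H0 (σ.comp (r w)) := by
  unfold KT
  rw [if_pos hw]

omit [TopologicalSpace G] in
theorem mem_KT' {w : S} (hw : w ∉ T) {x : K} : x ∈ KT r T σ w ↔ x = 0 := by
  unfold KT
  rw [if_neg hw, AddSubgroup.mem_bot]

omit [TopologicalSpace G] in
open Classical in
theorem card_KT (w : S) : Nat.card (KT r T σ w) =
    if w ∈ T then Nat.card (BKND.H0 (σ.comp (r w))) else 1 := by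
  unfold KT
  split_ifs with hw
  · rfl
  · exact AddSubgroup.card_bot

/-- pairs of a cocycle and local trivialisations at the places in `T` -/
def Pf : Set ((G → K) × (S → K)) :=
  {x | x.1 ∈ BKND.Z1 σ ∧
    (∀ w ∈ T, ∀ d, x.1 (r w d) = d0 σ (x.2 w) (r w d)) ∧ ∀ w ∉ T, x.2 w = 0}

theorem card_Pf [Fintype S] : Nat.card (Pf r T σ) =
    Nat.card (AT r T σ) * ∏ w, (open Classical in
      if w ∈ T then Nat.card (BKND.H0 (σ.comp (r w))) else 1) := by
  classical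
  have hc : ∀ f : AT r T σ, ∃ c : S → K, (∀ w ∈ T, ∀ d, f.1 (r w d) = d0 σ (c w) (r w d)) ∧
      ∀ w ∉ T, c w = 0 := by
    intro f
    have h1 : ∀ w, ∃ a : K, (w ∈ T → ∀ d, f.1 (r w d) = d0 σ a (r w d)) ∧
        (w ∉ T → a = 0) := by
      intro w
      by_cases hw : w ∈ T
      · obtain ⟨a, ha⟩ := f.2.2 w hw
        exact ⟨a, fun _ d => ha d, fun h => absurd hw h⟩
      · exact ⟨0, fun h => absurd h hw, fun _ => rfl⟩
    choose c hc using h1
    exact ⟨c, fun w hw => (hc w).1 hw, fun w hw => (hc w).2 hw⟩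
  choose c hc hc' using hc
  have e1 : Nat.card (Pf r T σ) = Nat.card (AT r T σ × ∀ w, KT r T σ w) := by
    refine Nat.card_congr ⟨fun x => ⟨⟨x.1.1, x.2.1, fun w hw => ⟨x.1.2 w, fun d =>
        x.2.2.1 w hw d⟩⟩, fun w => ⟨x.1.2 w - c ⟨x.1.1, x.2.1, fun w hw => ⟨x.1.2 w, fun d =>
        x.2.2.1 w hw d⟩⟩ w, ?_⟩⟩, fun y => ⟨(y.1.1, fun w => c y.1 w + (y.2 w : K)), ?_⟩, ?_, ?_⟩
    · by_cases hw : w ∈ T
      · refine (mem_KT r T σ hw).2 fun d => ?_
        have h1 := x.2.2.1 w hw d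
        have h2 := hc ⟨x.1.1, x.2.1, fun w hw => ⟨x.1.2 w, fun d =>
          x.2.2.1 w hw d⟩⟩ w hw d
        have h3 := h1.symm.trans h2
        change σ (r w d) (_ - _) = _
        rw [map_sub]
        simp only [d0] at h3
        rw [sub_eq_sub_iff_add_eq_add] at h3 ⊢
        rw [h3]
        abel
      · have h1 := x.2.2.2 w hw
        refine (mem_KT' r T σ hw).2 ?_
        rw [h1, hc' _ w hw, sub_zero]
    · refine ⟨y.1.2.1, fun w hw d => ?_, fun w hw => ?_⟩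
      · have h2 := hc y.1 w hw d
        have h4 := (mem_KT r T σ hw).1 (y.2 w).2 d
        change σ (r w d) _ = _ at h4
        change y.1.1 (r w d) = σ (r w d) (c y.1 w + (y.2 w : K)) - (c y.1 w + (y.2 w : K))
        rw [h2, map_add, h4]
        simp only [d0]
        abel
      · change c y.1 w + (y.2 w : K) = 0
        rw [hc' _ w hw, (mem_KT' r T σ hw).1 (y.2 w).2, add_zero]
    · intro x
      refine Subtype.ext (Prod.ext rfl ?_)
      funext w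
      change c _ w + (x.1.2 w - c _ w) = x.1.2 w
      abel
    · intro y
      refine Prod.ext rfl ?_
      funext w
      refine Subtype.ext ?_
      change c _ w + (y.2 w : K) - c _ w = y.2 w
      abel
  rw [e1, Nat.card_prod, Nat.card_pi]
  congr 1
  exact Finset.prod_congr rfl fun w _ => card_KT r T σ w

variable {A : Type} [AddCommGroup A] {α : G →* AddMonoid.End A} {K' : Type} [AddCommGroup K']
  (Y : Pair ℤ α K K')

theorem mem_Zr (x : (G → K) × (S → K)) : x ∈ Y.Zr r T ⊥ ⊤ ↔ x ∈ Pf r T Y.ρ := by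
  constructor
  · rintro ⟨h1, -, h2, h3, h4⟩
    refine ⟨⟨h1, fun g h => ?_⟩, fun w hw d => ?_, h4⟩
    · have e := (Submodule.mem_bot ℤ).1 (h2 g h)
      simp only [d1] at e
      rw [sub_add_eq_add_sub, sub_eq_zero] at e
      rw [← e, add_comm]
    · have e := (Submodule.mem_bot ℤ).1 ((h3 w hw).2 d)
      exact sub_eq_zero.1 e
  · rintro ⟨⟨h1, h2⟩, h3, h4⟩
    refine ⟨h1, fun g => trivial, fun g h => ?_, fun w hw => ⟨trivial, fun d => ?_⟩, h4⟩
    · rw [Submodule.mem_bot]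
      simp only [d1]
      rw [h2 g h]
      abel
    · rw [Submodule.mem_bot, h3 w hw d, sub_self]

theorem mem_Br (x : (G → K) × (S → K)) : x ∈ Y.Br T ⊥ ⊤ ↔ ∃ a : K,
    (∀ g, x.1 g = d0 Y.ρ a g) ∧ (∀ w ∈ T, x.2 w = a) ∧ ∀ w ∉ T, x.2 w = 0 := by
  constructor
  · rintro ⟨-, ⟨a, -, h1, h2⟩, h3⟩
    exact ⟨a, fun g => sub_eq_zero.1 ((Submodule.mem_bot ℤ).1 (h1 g)),
      fun w hw => sub_eq_zero.1 ((Submodule.mem_bot ℤ).1 (h2 w hw)), h3⟩
  · rintro ⟨a, h1, h2, h3⟩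
    refine ⟨?_, ⟨a, trivial, fun g => ?_, fun w hw => ?_⟩, h3⟩
    · obtain ⟨W, hW, h⟩ := Y.sm
      refine ⟨W, hW, fun g w hw => ?_⟩
      rw [h1, h1]
      simp only [d0, map_mul, h w hw, mul_one]
    · rw [Submodule.mem_bot, h1, sub_self]
    · rw [Submodule.mem_bot, h2 w hw, sub_self]

theorem Br_le : Y.Br T ⊥ ⊤ ≤ Y.Zr r T ⊥ ⊤ := by
  intro x hx
  obtain ⟨a, h1, h2, h3⟩ := (mem_Br T Y x).1 hx
  refine (mem_Zr r T Y x).2 ⟨⟨hx.1, fun g h => ?_⟩, fun w hw d => ?_, h3⟩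
  · rw [h1, h1, h1]
    simp only [d0, map_mul, map_sub]
    change Y.ρ g (Y.ρ h a) - a = _
    abel
  · rw [h1, h2 w hw]

theorem card_Br (hT : T.Nonempty) : Nat.card (Y.Br (G := G) T ⊥ ⊤) = Nat.card K := by
  classical
  obtain ⟨w₀, hw₀⟩ := hT
  refine Nat.card_congr ⟨fun x => x.1.2 w₀, fun a => ⟨(d0 Y.ρ a, fun w => if w ∈ T then a
    else 0), (mem_Br T Y _).2 ⟨a, fun g => rfl, fun w hw => if_pos hw,
    fun w hw => if_neg hw⟩⟩, ?_, ?_⟩
  · rintro ⟨⟨f, c⟩, hfc⟩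
    obtain ⟨a, hx, hx1, hx2⟩ := (mem_Br T Y _).1 hfc
    refine Subtype.ext (Prod.ext ?_ ?_)
    · funext g
      change d0 Y.ρ (c w₀) g = f g
      refine Eq.trans ?_ (hx g).symm
      exact congrArg (fun a => d0 Y.ρ a g) (hx1 w₀ hw₀)
    · funext w
      change (if w ∈ T then c w₀ else 0) = c w
      split_ifs with hw
      · exact (hx1 w₀ hw₀).trans (hx1 w hw).symm
      · exact (hx2 w hw).symm
  · intro a
    exact if_pos hw₀

/-- the number of classes -/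
theorem count [Fintype S] [Finite K] (hT : T.Nonempty)
    (hfin : Finite {f : G → K | f ∈ BKND.Z1 Y.ρ}) :
    (Y.Br T ⊥ ⊤).toAddSubgroup.relIndex (Y.Zr r T ⊥ ⊤).toAddSubgroup ≠ 0 ∧
    (Y.Br T ⊥ ⊤).toAddSubgroup.relIndex (Y.Zr r T ⊥ ⊤).toAddSubgroup * Nat.card K =
      Nat.card (AT r T Y.ρ) * ∏ w, (open Classical in
        if w ∈ T then Nat.card (BKND.H0 (Y.ρ.comp (r w))) else 1) := by
  classical
  have hcard : Nat.card ((Y.Br T ⊥ ⊤).toAddSubgroup.addSubgroupOf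
      (Y.Zr r T ⊥ ⊤).toAddSubgroup) = Nat.card K := by
    rw [← card_Br T Y hT]
    exact Nat.card_congr (AddSubgroup.addSubgroupOfEquivOfLe
      (show (Y.Br T ⊥ ⊤).toAddSubgroup ≤ (Y.Zr r T ⊥ ⊤).toAddSubgroup from
        Br_le r T Y)).toEquiv
  have hmul := AddSubgroup.index_mul_card ((Y.Br T ⊥ ⊤).toAddSubgroup.addSubgroupOf
      (Y.Zr r T ⊥ ⊤).toAddSubgroup)
  have hZ : Nat.card (Y.Zr r T ⊥ ⊤).toAddSubgroup = Nat.card (Pf r T Y.ρ) :=
    Nat.card_congr (Equiv.subtypeEquivRight fun x => mem_Zr r T Y x)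
  rw [hcard, hZ, card_Pf] at hmul
  refine ⟨fun h0 => ?_, hmul⟩
  have h0' : ((Y.Br T ⊥ ⊤).toAddSubgroup.addSubgroupOf
      (Y.Zr r T ⊥ ⊤).toAddSubgroup).index = 0 := h0
  rw [h0', zero_mul] at hmul
  have hfinA : Finite (AT r T Y.ρ) := by
    have : Function.Injective (fun f : AT r T Y.ρ => (⟨f.1, f.2.1⟩ :
        {f : G → K | f ∈ BKND.Z1 Y.ρ})) := fun f g h =>
      Subtype.ext (congrArg (fun x : {f : G → K | f ∈ BKND.Z1 Y.ρ} => x.1) h)
    exact Finite.of_injective _ this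
  have hne : Nonempty (AT r T Y.ρ) := ⟨⟨0, zero_mem _, fun w _ => zero_mem _⟩⟩
  have h1 : Nat.card (AT r T Y.ρ) ≠ 0 := Nat.card_pos.ne'
  have h2 : (∏ w, (if w ∈ T then Nat.card (BKND.H0 (Y.ρ.comp (r w))) else 1)) ≠ 0 := by
    refine Finset.prod_ne_zero_iff.2 fun w _ => ?_
    split_ifs
    · exact Nat.card_pos.ne'
    · exact one_ne_zero
  exact mul_ne_zero h1 h2 hmul.symm

end Count

end YLNBT

/-- **Module LNBT** (from ANNT): the number of classes with values in a good subquotient. -/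
theorem stLnbT (h : StAnnT) : StLnbT := by
  classical
  intro p _ S _ G _ _ _ _ D _ _ _ _ Γ χ δ hG M M' _ _ _ X T hTn hTc P N hP hN hPN K K' _ _ Y hY
    φ φ' hq
  have hK : Finite K := hY.fin
  obtain ⟨-, -, -, -, -, hperp⟩ := stPerp (stHoms stExt) ℤ p G Γ.α K K' Y
  obtain ⟨hK', hcard, -⟩ := hperp hK
  obtain ⟨hfin, e⟩ := (h p S G D Γ χ δ hG K K' Y hY).2 T
  have hfin' : Finite {f : G → K' | f ∈ BKND.Z1 Y.ρ'} := by
    have h1 : Nat.card (BKND.Z1 Y.ρ') ≠ 0 := by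
      intro h0
      have h2 := hY.card'
      rw [h0, zero_mul] at h2
      refine mul_ne_zero (pow_ne_zero _ Nat.card_pos.ne')
        (Finset.prod_ne_zero_iff.2 fun w _ => Nat.card_pos.ne') h2.symm
    exact Nat.finite_of_card_ne_zero h1
  have c1 := YLNBT.count Γ.r T Y hTn hfin
  have c2 := YLNBT.count Γ.r Tᶜ Y.flip hTc hfin'
  have h1 : YISO.Hyp X P N Y φ := ⟨hN, hq.add, hq.ker, hq.surj, hq.act⟩
  have h2 : YISO.Hyp X.flip (X.perp N) (X.perp P) Y.flip φ' :=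
    ⟨YISO.stable_perp hP, hq.add', hq.ker', hq.surj', hq.act'⟩
  have i1 := YISO.core (S := S) (T := T) Γ.r h1
  have i2 := YISO.core (S := S) (T := Tᶜ) Γ.r h2
  have i3 : P.toAddSubgroup.relIndex N.toAddSubgroup = Nat.card K := by
    rw [YISO.relIndex_eq P.toAddSubgroup N.toAddSubgroup (⊥ : AddSubgroup K) ⊤ φ
      (fun x _ => AddSubgroup.mem_top _) (fun x hx y hy => hq.add x hx y hy)
      (fun a _ => hq.surj a) (fun x hx => by
        rw [AddSubgroup.mem_bot]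
        exact hq.ker x hx), AddSubgroup.relIndex_bot_left]
    exact Nat.card_congr AddSubgroup.topEquiv.toEquiv
  unfold EF hT
  rw [i1, i2, i3]
  refine ⟨c1.1, c2.1, ?_⟩
  have hk : 0 < Nat.card K := Nat.card_pos
  have e1 := c1.2
  have e2 := c2.2
  have e3 : ∀ w, (@ite ℕ (w ∈ Tᶜ) (Classical.propDecidable _)
      (Nat.card (BKND.H0 (Y.flip.ρ.comp (Γ.r w)))) 1) =
      if w ∈ T then 1 else Nat.card (BKND.H0 (Y.ρ'.comp (Γ.r w))) := by
    intro w
    by_cases hw : w ∈ T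
    · rw [if_pos hw, if_neg (show ¬ w ∈ Tᶜ from fun h => h hw)]
    · rw [if_neg hw, if_pos (show w ∈ Tᶜ from hw)]
      rfl
  simp only [e3] at e2
  have e4 : Nat.card (YLNBT.AT Γ.r T Y.ρ) = Nat.card {f : G → K | f ∈ BKND.Z1 Y.ρ ∧
      ∀ w ∈ T, pb1 (Γ.r w) f ∈ BKND.B1 (Y.ρ.comp (Γ.r w))} := rfl
  have e5 : Nat.card (YLNBT.AT Γ.r Tᶜ Y.flip.ρ) = Nat.card {f : G → K' | f ∈ BKND.Z1 Y.ρ' ∧
      ∀ w ∉ T, pb1 (Γ.r w) f ∈ BKND.B1 (Y.ρ'.comp (Γ.r w))} := rfl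
  rw [← e4, ← e5] at e
  rw [hcard] at e2
  refine Nat.eq_of_mul_eq_mul_right hk ?_
  calc (Y.Br T ⊥ ⊤).toAddSubgroup.relIndex (Y.Zr Γ.r T ⊥ ⊤).toAddSubgroup *
        Nat.card K ^ (∑ w, if w ∈ T then δ w else 0) * Nat.card K
      = ((Y.Br T ⊥ ⊤).toAddSubgroup.relIndex (Y.Zr Γ.r T ⊥ ⊤).toAddSubgroup * Nat.card K) *
        Nat.card K ^ (∑ w, if w ∈ T then δ w else 0) := by ring
    _ = Nat.card (YLNBT.AT Γ.r T Y.ρ) * Nat.card K ^ (∑ w, if w ∈ T then δ w else 0) *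
        ∏ w, (if w ∈ T then Nat.card (BKND.H0 (Y.ρ.comp (Γ.r w))) else 1) := by
          rw [e1]; ring
    _ = Nat.card (YLNBT.AT Γ.r Tᶜ Y.flip.ρ) * Nat.card K *
        ∏ w, (if w ∈ T then 1 else Nat.card (BKND.H0 (Y.ρ'.comp (Γ.r w)))) := by
          exact e
    _ = (Y.flip.Br Tᶜ ⊥ ⊤).toAddSubgroup.relIndex
      (Y.flip.Zr Γ.r Tᶜ ⊥ ⊤).toAddSubgroup * Nat.card K * Nat.card K := by
          rw [e2]; ring

end BKT
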