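import Pool.Agent.Lib.MP_7c08ba_nt.T1.StY
import Pool.Agent.Lib.MP_7c08ba_nt.Met.XPERF
import Pool.Agent.Lib.MP_7c08ba_nt.Met.XHOMS
import Pool.Agent.Lib.MP_7c08ba_nt.Met.XEXT

set_option autoImplicit false

/-!
Parity for general residual representations, module MAPP: the pair of the modules of functions on
`G / H`.
-/

noncomputable section

namespace BKT

open BKPar (Loc1 Loc2)
open BKND (Sm)
open BKMet

namespace YMAPP

/-- annihilators for a nondegenerate pairing -/
theorem perf_of {p : ℕ} [Fact p.Prime] {V W : Type} [AddCommGroup V] [AddCommGroup W] [Finite V]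
    (b : V →+ W →+ QZ p) (h1 : ∀ v, (∀ w, b v w = 0) → v = 0)
    (h2 : ∀ w, (∀ v, b v w = 0) → w = 0) (P : Submodule ℤ V) (m : V)
    (h : ∀ m', (∀ n ∈ P, b n m' = 0) → b m m' = 0) : m ∈ P := by
  obtain ⟨-, -, h3⟩ := stPerf (stHoms stExt) p V W b h1 h2
  have h4 := h3 P.toAddSubgroup
    { carrier := {w | ∀ v ∈ P, b v w = 0}
      add_mem' := by
        intro x y hx hy v hv
        rw [map_add, hx v hv, hy v hv, add_zero]
      zero_mem' := fun v _ => map_zero _
      neg_mem' := by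
        intro x hx v hv
        rw [map_neg, hx v hv, neg_zero] } (fun w => Iff.rfl)
  exact (h4.2.1 m).2 fun w hw => h w hw

/-- the pairing of functions -/
def bb {Q A M M' : Type} [Finite Q] [AddCommGroup A] [AddCommGroup M] [AddCommGroup M']
    (b : M →+ M' →+ A) : (Q → M) →+ (Q → M') →+ A :=
  AddMonoidHom.mk' (fun f => AddMonoidHom.mk' (fun f' => ∑ᶠ q : Q, b (f q) (f' q))
    fun f' f'' => by
      rw [← finsum_add_distrib (Set.toFinite _) (Set.toFinite _)]
      exact finsum_congr fun q => map_add _ _ _)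
    fun f f₁ => by
      ext f'
      change ∑ᶠ q : Q, b ((f + f₁) q) (f' q) = ∑ᶠ q : Q, b (f q) (f' q) + ∑ᶠ q : Q, b (f₁ q) (f' q)
      rw [← finsum_add_distrib (Set.toFinite _) (Set.toFinite _)]
      refine finsum_congr fun q => ?_
      rw [Pi.add_apply, map_add, AddMonoidHom.add_apply]

theorem bb_apply {Q A M M' : Type} [Finite Q] [AddCommGroup A] [AddCommGroup M]
    [AddCommGroup M'] (b : M →+ M' →+ A) (f : Q → M) (f' : Q → M') :
    bb b f f' = ∑ᶠ q : Q, b (f q) (f' q) := rfl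

open Classical in
theorem bb_left {Q A M M' : Type} [Finite Q] [AddCommGroup A] [AddCommGroup M]
    [AddCommGroup M'] (b : M →+ M' →+ A) (hb : ∀ v, (∀ w, b v w = 0) → v = 0) (f : Q → M)
    (h : ∀ f' : Q → M', bb b f f' = 0) : f = 0 := by
  funext q
  refine hb _ fun w => ?_
  have h1 := h (Pi.single q w)
  rw [bb_apply, finsum_eq_single _ q] at h1
  · rwa [Pi.single_eq_same] at h1
  · intro q' hq'
    rw [Pi.single_eq_of_ne hq', map_zero]

open Classical in
theorem bb_right {Q A M M' : Type} [Finite Q] [AddCommGroup A] [AddCommGroup M]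
    [AddCommGroup M'] (b : M →+ M' →+ A) (hb : ∀ w, (∀ v, b v w = 0) → w = 0) (f' : Q → M')
    (h : ∀ f : Q → M, bb b f f' = 0) : f' = 0 := by
  funext q
  refine hb _ fun v => ?_
  have h1 := h (Pi.single q v)
  rw [bb_apply, finsum_eq_single _ q] at h1
  · rwa [Pi.single_eq_same] at h1
  · intro q' hq'
    rw [Pi.single_eq_of_ne hq', map_zero]
    rfl

/-- smoothness -/
theorem sm_mapA {G : Type} [Group G] [TopologicalSpace G] [IsTopologicalGroup G] [CompactSpace G]
    {M : Type} [AddCommGroup M] (ρ : G →* AddMonoid.End M) (hρ : Sm ρ) (H : Subgroup G)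
    (hH : IsOpen (H : Set G)) : Sm (mapA (G ⧸ H) ρ) := by
  obtain ⟨W, hW, hw⟩ := hρ
  have hfin : Finite (G ⧸ H) := H.quotient_finite_of_isOpen hH
  have hfi : H.FiniteIndex := Subgroup.finiteIndex_of_finite_quotient
  have hcl : IsClosed (H.normalCore : Set G) :=
    H.normalCore_isClosed (H.isClosed_of_isOpen hH)
  have hop : IsOpen (H.normalCore : Set G) :=
    Subgroup.isOpen_of_isClosed_of_finiteIndex _ hcl
  refine ⟨W ⊓ H.normalCore, hW.inter hop, fun g hg => ?_⟩
  ext f q
  rw [mapA_apply, hw g hg.1]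
  change f (g⁻¹ • q) = f q
  have h1 : g⁻¹ • q = q := by
    induction q using QuotientGroup.induction_on with
    | H x =>
      change ((g⁻¹ * x : G) : G ⧸ H) = (x : G ⧸ H)
      rw [QuotientGroup.eq]
      have h2 : x⁻¹ * g * x ∈ H := by
        have h3 := hg.2 x⁻¹
        simpa using h3
      have h4 : (g⁻¹ * x)⁻¹ * x = x⁻¹ * g * x := by group
      rw [h4]
      exact h2
  rw [h1]

end YMAPP

open YMAPP in
theorem stMapP : StMapP := by
  intro p _ G _ _ _ _ α M M' _ _ _ X H hH
  have hfin : Finite (G ⧸ H) := H.quotient_finite_of_isOpen hH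
  have hl : ∀ v, (∀ w, X.b v w = 0) → v = 0 := fun v h =>
    (Submodule.mem_bot ℤ).1 (X.perf ⊥ v fun m' _ => h m')
  have hr : ∀ w, (∀ v, X.b v w = 0) → w = 0 := fun w h =>
    (Submodule.mem_bot ℤ).1 (X.perf' ⊥ w fun m _ => h m)
  obtain ⟨hfM', -, -⟩ := stPerf (stHoms stExt) p M M' X.b hl hr
  refine ⟨{ ρ := mapA (G ⧸ H) X.ρ
            ρ' := mapA (G ⧸ H) X.ρ'
            b := bb X.b
            sm := sm_mapA X.ρ X.sm H hH
            sm' := sm_mapA X.ρ' X.sm' H hH
            lin := fun g a m => map_zsmul _ _ _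
            lin' := fun g a m => map_zsmul _ _ _
            eqv := ?_
            bal := fun a m m' => by rw [map_zsmul, map_zsmul, AddMonoidHom.zsmul_apply]
            perf := perf_of (bb X.b) (bb_left X.b hl) (bb_right X.b hr)
            perf' := fun P m' h => perf_of (bb X.b).flip (bb_right X.b hr) (bb_left X.b hl) P m' h },
          rfl, rfl, fun f f' => rfl⟩
  intro g f f'
  rw [bb_apply, bb_apply]
  have hf : ∀ u : G ⧸ H → QZ p, ∑ᶠ q, α g (u q) = α g (∑ᶠ q, u q) := fun u =>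
    ((α g).map_finsum (Set.toFinite _)).symm
  rw [← hf]
  have h1 : ∀ q : G ⧸ H, X.b (mapA (G ⧸ H) X.ρ g f q) (mapA (G ⧸ H) X.ρ' g f' q) =
      α g (X.b (f (g⁻¹ • q)) (f' (g⁻¹ • q))) := fun q => X.eqv g _ _
  rw [finsum_congr h1]
  exact finsum_comp_equiv (MulAction.toPerm g⁻¹ : Equiv.Perm (G ⧸ H))
    (f := fun q => α g (X.b (f q) (f' q)))

end BKT
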