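import Pool.Agent.Lib.MP_7c08ba_nt.T1.StY

set_option autoImplicit false

/-!
Parity for general residual representations, module MAPS: the submodules `mapS`.
-/

noncomputable section

namespace BKT

open BKMet

namespace YMAPS

variable {G : Type} [Group G] {M : Type} [AddCommGroup M]

theorem ρ_inv_ρ (ρ : G →* AddMonoid.End M) (g : G) (x : M) : ρ g⁻¹ (ρ g x) = x := by
  have h : (ρ g⁻¹ * ρ g) x = x := by
    rw [← map_mul, inv_mul_cancel, map_one]
    rfl
  exact h

theorem ρ_ρ_inv (ρ : G →* AddMonoid.End M) (g : G) (x : M) : ρ g (ρ g⁻¹ x) = x := by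
  have h : (ρ g * ρ g⁻¹) x = x := by
    rw [← map_mul, mul_inv_cancel, map_one]
    rfl
  exact h

theorem ρ_mul (ρ : G →* AddMonoid.End M) (g h : G) (x : M) : ρ g (ρ h x) = ρ (g * h) x := by
  rw [map_mul]
  rfl

open Classical in
theorem single_mem (ρ : G →* AddMonoid.End M) (H : Subgroup G) (P : Submodule ℤ M)
    (hP : ∀ h ∈ H, ∀ x ∈ P, ρ h x ∈ P) (g : G) (x : M) (hx : x ∈ P) :
    (Pi.single (QuotientGroup.mk g : G ⧸ H) (ρ g x) : G ⧸ H → M) ∈ mapS ρ H P := by
  intro g₁
  by_cases h : (QuotientGroup.mk g₁ : G ⧸ H) = QuotientGroup.mk g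
  · rw [h, Pi.single_eq_same, ρ_mul]
    exact hP _ (QuotientGroup.eq.mp h) x hx
  · rw [Pi.single_eq_of_ne h, map_zero]
    exact P.zero_mem

end YMAPS

open YMAPS

theorem stMapS : StMapS := by
  intro p _ G _ _ _ _ α M M' _ _ _ X H hH Z hZ P hP
  have : Finite (G ⧸ H) := Subgroup.quotient_finite_of_isOpen H hH
  have hst : ∀ h ∈ H, ∀ x ∈ X.perp P, X.ρ' h x ∈ X.perp P := by
    intro h hh x hx m hm
    have h1 : X.b m (X.ρ' h x) = X.b (X.ρ h (X.ρ h⁻¹ m)) (X.ρ' h x) := by
      rw [ρ_ρ_inv]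
    rw [h1, X.eqv, hx _ (hP _ (H.inv_mem hh) m hm), map_zero]
  refine ⟨?_, ?_, hst, ?_, ?_⟩
  · intro g f hf x
    rw [hZ.act]
    change X.ρ x⁻¹ (X.ρ g (f (QuotientGroup.mk (g⁻¹ * x)))) ∈ P
    rw [ρ_mul]
    have h1 := hf (g⁻¹ * x)
    rw [mul_inv_rev, inv_inv] at h1
    exact h1
  · apply le_antisymm
    · intro f' hf' g x hx
      classical
      have h1 := hf' _ (single_mem X.ρ H P hP g x hx)
      rw [hZ.pair] at h1
      rw [finsum_eq_single _ (QuotientGroup.mk g : G ⧸ H)] at h1
      · rw [Pi.single_eq_same] at h1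
        have h2 : X.b (X.ρ g x) (f' (QuotientGroup.mk g)) =
            X.b (X.ρ g x) (X.ρ' g (X.ρ' g⁻¹ (f' (QuotientGroup.mk g)))) := by
          rw [ρ_ρ_inv]
        rw [h2, X.eqv] at h1
        have h3 := congrArg (α g⁻¹) h1
        rw [ρ_inv_ρ, map_zero] at h3
        exact h3
      · intro q hq
        rw [Pi.single_eq_of_ne hq, map_zero, AddMonoidHom.zero_apply]
    · intro f' hf' f hf
      rw [hZ.pair]
      have h0 : ∀ q : G ⧸ H, X.b (f q) (f' q) = 0 := by
        intro q
        induction q using QuotientGroup.induction_on with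
        | H g =>
          have h1 : X.b (f (QuotientGroup.mk g)) (f' (QuotientGroup.mk g)) =
              X.b (X.ρ g (X.ρ g⁻¹ (f (QuotientGroup.mk g))))
                (X.ρ' g (X.ρ' g⁻¹ (f' (QuotientGroup.mk g)))) := by
            rw [ρ_ρ_inv, ρ_ρ_inv]
          change X.b (f (QuotientGroup.mk g)) (f' (QuotientGroup.mk g)) = 0
          rw [h1, X.eqv, hf' g _ (hf g), map_zero]
      rw [finsum_congr h0, finsum_zero]
  · intro hX f
    constructor
    · intro hf q
      induction q using QuotientGroup.induction_on with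
      | H g =>
        have h1 := hX g _ (hf g)
        rw [ρ_ρ_inv] at h1
        exact h1
    · intro hf g
      exact hX _ _ (hf _)
  · intro N hN
    constructor
    · intro h f hf g
      exact h (hf g)
    · intro h x hx
      classical
      have h1 := h (single_mem X.ρ H P hP 1 x hx) 1
      rw [Pi.single_eq_same, ρ_inv_ρ] at h1
      exact h1

end BKT
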