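import Pool.Agent.Lib.MP_7c08ba_nt.T1.StY

set_option autoImplicit false

/-!
Parity for general residual representations, module QUOI: the subquotients of the module of
functions on `G / H` are induced from characters of `H`.
-/

noncomputable section

namespace BKT

open BKPar (Loc1 Loc2)
open BKND (Sm)
open BKMet

namespace YQUOI

/-! ### The functional -/

section lamb

variable {p : ℕ} [Fact p.Prime] {k : Type} [Field k] [Algebra (ZMod p) k]

theorem p_smul (x : k) : p • x = 0 := by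
  have h : ((p : ℕ) : k) = 0 := by
    rw [← map_natCast (algebraMap (ZMod p) k), CharP.cast_eq_zero, map_zero]
  rw [nsmul_eq_mul, h, zero_mul]

theorem lam_smul (lam : k →+ QZ p) (c : ℤ_[p]) (x : k) :
    lam (algebraMap (ZMod p) k (PadicInt.toZMod c) * x) = c • lam x := by
  obtain ⟨y, hy⟩ : ∃ y, c = ((PadicInt.toZMod c).val : ℤ_[p]) + p * y := by
    have h1 : c - ((PadicInt.toZMod c).val : ℤ_[p]) ∈ RingHom.ker (PadicInt.toZMod (p := p)) := by
      rw [RingHom.mem_ker, map_sub, map_natCast, ZMod.natCast_zmod_val, sub_self]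
    rw [PadicInt.ker_toZMod, PadicInt.maximalIdeal_eq_span_p, Ideal.mem_span_singleton] at h1
    obtain ⟨y, hy⟩ := h1
    exact ⟨y, by rw [← hy]; ring⟩
  have h1 : algebraMap (ZMod p) k (PadicInt.toZMod c) * x = (PadicInt.toZMod c).val • x := by
    rw [nsmul_eq_mul, ← map_natCast (algebraMap (ZMod p) k), ZMod.natCast_zmod_val]
  have h0 : p • lam x = 0 := by
    rw [← map_nsmul, p_smul (p := p) x, map_zero]
  have h2 : c • lam x = (PadicInt.toZMod c).val • lam x := by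
    conv_lhs => rw [hy]
    rw [add_smul, Nat.cast_smul_eq_nsmul, mul_comm (p : ℤ_[p]) y, mul_smul,
      Nat.cast_smul_eq_nsmul, h0, smul_zero, add_zero]
  rw [h1, map_nsmul, h2]

omit [Algebra (ZMod p) k] in
theorem lam_cancel (lam : k →+ QZ p) (hlam : lam ≠ 0) (a : k) (h : ∀ x, lam (a * x) = 0) :
    a = 0 := by
  by_contra ha
  apply hlam
  ext y
  have h1 := h (a⁻¹ * y)
  rw [mul_inv_cancel_left₀ ha] at h1
  rw [h1]
  rfl

end lamb

/-! ### One side -/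

section side

variable {G : Type} [Group G] (H : Subgroup G) {M : Type} [AddCommGroup M]
  (ρ : G →* AddMonoid.End M)

theorem act_mul (g h : G) (x : M) : ρ (g * h) x = ρ g (ρ h x) := by
  rw [map_mul]; rfl

theorem act_one (x : M) : ρ 1 x = x := by
  rw [map_one]; rfl

theorem act_inv (g : G) (x : M) : ρ g (ρ g⁻¹ x) = x := by
  rw [← act_mul, mul_inv_cancel, act_one]

theorem act_inv' (g : G) (x : M) : ρ g⁻¹ (ρ g x) = x := by
  rw [← act_mul, inv_mul_cancel, act_one]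

theorem side [TopologicalSpace G] (P N : Submodule ℤ M) {k : Type} [Field k] (ψ : H →* kˣ)
    (φ : M → k) (stab : ∀ h ∈ H, ∀ x ∈ N, ρ h x ∈ N)
    (add : ∀ x ∈ N, ∀ y ∈ N, φ (x + y) = φ x + φ y) (ker : ∀ x ∈ N, φ x = 0 ↔ x ∈ P)
    (surj : ∀ a : k, ∃ x ∈ N, φ x = a)
    (act : ∀ h : H, ∀ x ∈ N, φ (ρ h x) = ((ψ h : kˣ) : k) * φ x) :
    ∃ Φ : (G ⧸ H → M) → IndM H (kch ψ),
      (∀ f ∈ mapS ρ H N, ∀ g : G, (Φ f : G → k) g = φ (ρ g⁻¹ (f (QuotientGroup.mk g)))) ∧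
      (∀ f ∈ mapS ρ H N, ∀ f' ∈ mapS ρ H N, Φ (f + f') = Φ f + Φ f') ∧
      (∀ f ∈ mapS ρ H N, Φ f = 0 ↔ f ∈ mapS ρ H P) ∧
      (∀ F : IndM H (kch ψ), ∃ f ∈ mapS ρ H N, Φ f = F) ∧
      (∀ g, ∀ f ∈ mapS ρ H N, mapA (G ⧸ H) ρ g f ∈ mapS ρ H N →
        Φ (mapA (G ⧸ H) ρ g f) = indM H (kch ψ) g (Φ f)) := by
  classical
  have key : ∀ f ∈ mapS ρ H N, (fun g : G => φ (ρ g⁻¹ (f (QuotientGroup.mk g)))) ∈
      IndM H (kch ψ) := by
    intro f hf g a
    have e1 : (QuotientGroup.mk (g * (a : G)) : G ⧸ H) = QuotientGroup.mk g :=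
      QuotientGroup.mk_mul_of_mem g a.2
    have hf' : ρ g⁻¹ (f (QuotientGroup.mk g)) ∈ N := hf g
    change φ (ρ (g * (a : G))⁻¹ (f (QuotientGroup.mk (g * (a : G))))) =
      (((ψ a⁻¹ : kˣ) : k)) * φ (ρ g⁻¹ (f (QuotientGroup.mk g)))
    rw [e1, mul_inv_rev, act_mul]
    exact act a⁻¹ _ hf'
  refine ⟨fun f => if hf : f ∈ mapS ρ H N then ⟨_, key f hf⟩ else 0, ?_, ?_, ?_, ?_, ?_⟩
  · intro f hf g
    simp only [dif_pos hf]
  · intro f hf f' hf'
    have hs := (mapS ρ H N).add_mem hf hf'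
    simp only [dif_pos hf, dif_pos hf', dif_pos hs]
    apply Subtype.ext
    funext g
    change φ (ρ g⁻¹ ((f + f') (QuotientGroup.mk g))) =
      φ (ρ g⁻¹ (f (QuotientGroup.mk g))) + φ (ρ g⁻¹ (f' (QuotientGroup.mk g)))
    rw [Pi.add_apply, map_add]
    exact add _ (hf g) _ (hf' g)
  · intro f hf
    simp only [dif_pos hf]
    constructor
    · intro h g
      have h1 : φ (ρ g⁻¹ (f (QuotientGroup.mk g))) = 0 :=
        congrArg (fun F : IndM H (kch ψ) => (F : G → k) g) h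
      exact (ker _ (hf g)).1 h1
    · intro h
      apply Subtype.ext
      funext g
      exact (ker _ (hf g)).2 (h g)
  · intro F
    choose n hn hφ using surj
    have h0 : ∀ g : G, ∃ a : H, (QuotientGroup.mk g : G ⧸ H).out * (a : G) = g := by
      intro g
      have h1 : (QuotientGroup.mk ((QuotientGroup.mk g : G ⧸ H).out) : G ⧸ H) =
          QuotientGroup.mk g := QuotientGroup.out_eq' _
      rw [QuotientGroup.eq] at h1
      exact ⟨⟨_, h1⟩, by simp⟩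
    have h2 : ∀ g : G, ρ g⁻¹ (ρ (QuotientGroup.mk g : G ⧸ H).out
        (n ((F : G → k) (QuotientGroup.mk g : G ⧸ H).out))) ∈ N ∧
        φ (ρ g⁻¹ (ρ (QuotientGroup.mk g : G ⧸ H).out
        (n ((F : G → k) (QuotientGroup.mk g : G ⧸ H).out)))) = (F : G → k) g := by
      intro g
      obtain ⟨a, ha⟩ := h0 g
      set s := (QuotientGroup.mk g : G ⧸ H).out with hs
      have h3 : g⁻¹ * s = ((a⁻¹ : H) : G) := by
        rw [← ha]
        simp
      rw [← act_mul, h3]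
      refine ⟨stab _ (a⁻¹ : H).2 _ (hn _), ?_⟩
      rw [act a⁻¹ _ (hn _), hφ]
      have h4 := F.2 s a
      rw [ha] at h4
      exact h4.symm
    have hf : (fun q : G ⧸ H => ρ q.out (n ((F : G → k) q.out))) ∈ mapS ρ H N :=
      fun g => (h2 g).1
    refine ⟨_, hf, ?_⟩
    simp only [dif_pos hf]
    apply Subtype.ext
    funext g
    exact (h2 g).2
  · intro g f hf hf'
    simp only [dif_pos hf, dif_pos hf']
    apply Subtype.ext
    funext x
    change φ (ρ x⁻¹ (ρ g (f (g⁻¹ • (QuotientGroup.mk x : G ⧸ H))))) =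
      φ (ρ (g⁻¹ * x)⁻¹ (f (QuotientGroup.mk (g⁻¹ * x))))
    rw [← act_mul, mul_inv_rev, inv_inv]
    rfl

end side

/-! ### Smoothness -/

theorem smooth {G : Type} [Group G] [TopologicalSpace G] (H : Subgroup G) {M : Type}
    [AddCommGroup M] (ρ : G →* AddMonoid.End M) (hρ : Sm ρ) {k : Type} [Field k] (ψ : H →* kˣ)
    (φ : M → k) (N : Submodule ℤ M) (surj : ∀ a : k, ∃ x ∈ N, φ x = a)
    (act : ∀ h : H, ∀ x ∈ N, φ (ρ h x) = ((ψ h : kˣ) : k) * φ x) : Sm (kch ψ) := by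
  obtain ⟨W, hW, h⟩ := hρ
  refine ⟨W.subgroupOf H, hW.preimage continuous_subtype_val, fun w hw => ?_⟩
  obtain ⟨x, hx, hx1⟩ := surj 1
  have h1 := act w x hx
  rw [h w hw, hx1, mul_one] at h1
  have h2 : ((ψ w : kˣ) : k) = 1 := by
    rw [← h1]
    exact hx1
  ext y
  change ((ψ w : kˣ) : k) * y = y
  rw [h2, one_mul]

end YQUOI

open YQUOI in
/-- Module QUOI. -/
theorem stQuoI (h1 : StPai) (h2 : StMapS) : StQuoI := by
  intro p _ G _ _ _ _ χ hχ M M' _ _ _ X H hH Z hZ P N k _ _ _ ψ ψ' lam φ φ' hlam hL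
  obtain ⟨-, a2, a3, -, -⟩ := h2 p G (actA χ) M M' X H hH Z hZ P hL.stab
  obtain ⟨-, b2, b3, -, -⟩ := h2 p G (actA χ) M M' X H hH Z hZ N hL.stab'
  -- the relation
  have hrel : Rel (χ.comp H.subtype) ψ ψ' := by
    intro h
    rw [← sub_eq_zero]
    apply lam_cancel lam hlam
    intro x
    obtain ⟨n, hn, hnx⟩ := hL.surj x
    obtain ⟨m, hm, hm1⟩ := hL.surj' 1
    have e1 := X.eqv h n m
    rw [hL.pair _ (hL.stab' h h.2 n hn) _ (a3 h h.2 m hm), hL.pair n hn m hm, hL.act h n hn,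
      hL.act' h m hm, hnx, hm1, mul_one, mul_one, actA_apply] at e1
    rw [sub_mul, map_sub, sub_eq_zero]
    have e2 := lam_smul lam ((χ (h : G) : ℤ_[p]ˣ) : ℤ_[p]) x
    refine Eq.trans ?_ (e1.trans e2.symm)
    congr 1
    ring
  refine ⟨hrel, ?_⟩
  have hs : Sm (kch ψ) := smooth H X.ρ X.sm ψ φ N hL.surj hL.act
  have hs' : Sm (kch ψ') := smooth H X.ρ' X.sm' ψ' φ' (X.perp P) hL.surj' hL.act'
  obtain ⟨YI, hY, hY', hYb⟩ := h1 p G χ hχ H hH k ψ ψ' hs hs' hrel lam hlam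
  refine ⟨YI, hY, hY', ?_⟩
  obtain ⟨Φ, c1, c2, c3, c4, c5⟩ := side H X.ρ P N ψ φ hL.stab' hL.add hL.ker hL.surj hL.act
  obtain ⟨Φ', d1, d2, d3, d4, d5⟩ := side H X.ρ' (X.perp N) (X.perp P) ψ' φ' a3 hL.add' hL.ker'
    hL.surj' hL.act'
  have zst : Z.Stable (mapS X.ρ H N) := (h2 p G (actA χ) M M' X H hH Z hZ N hL.stab').1
  have zst' : ∀ g, ∀ f ∈ mapS X.ρ' H (X.perp P), Z.ρ' g f ∈ mapS X.ρ' H (X.perp P) := by
    intro g f hf x
    rw [hZ.act', mapA_apply]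
    have h3 : X.ρ' x⁻¹ (X.ρ' g (f (g⁻¹ • (QuotientGroup.mk x : G ⧸ H)))) =
        X.ρ' (g⁻¹ * x)⁻¹ (f (QuotientGroup.mk (g⁻¹ * x))) := by
      rw [← act_mul, mul_inv_rev, inv_inv]
      rfl
    rw [h3]
    exact hf (g⁻¹ * x)
  refine ⟨Φ, Φ', ⟨c2, c3, c4, ?_, ?_, ?_, ?_, ?_, ?_⟩⟩
  · intro g f hf
    have h3 := zst g f hf
    rw [hZ.act] at h3
    rw [hZ.act, hY]
    exact c5 g f hf h3
  · rw [a2]
    exact d2
  · rw [a2, b2]
    exact d3
  · rw [a2]
    exact d4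
  · rw [a2]
    intro g f hf
    have h3 := zst' g f hf
    rw [hZ.act'] at h3
    rw [hZ.act', hY']
    exact d5 g f hf h3
  · rw [a2]
    intro f hf f' hf'
    rw [hZ.pair, hYb]
    apply finsum_congr
    intro q
    rw [c1 f hf, d1 f' hf']
    have e : (QuotientGroup.mk q.out : G ⧸ H) = q := QuotientGroup.out_eq' q
    rw [e]
    have u1 : X.ρ q.out⁻¹ (f q) ∈ N := by
      have := hf q.out
      rwa [e] at this
    have u2 : X.ρ' q.out⁻¹ (f' q) ∈ X.perp P := by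
      have := hf' q.out
      rwa [e] at this
    rw [← hL.pair _ u1 _ u2, ← X.eqv, act_inv, act_inv]

end BKT
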