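import Pool.Agent.Lib.MP_7c08ba_nt.T1.StY

set_option autoImplicit false

/-!
Parity for general residual representations, module QUOP: every subquotient is isomorphic to the
first module of a pair.
-/

noncomputable section

namespace BKT

open BKPar (Loc1 Loc2)
open BKND (Sm)
open BKMet

namespace YQUOP

section Act

variable {G : Type} [Group G] {M : Type} [AddCommGroup M] (P N : AddSubgroup M)

/-- The subquotient `N / P`. -/
abbrev Qu : Type := N ⧸ P.addSubgroupOf N

/-- The class of an element of `N`. -/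
def cl (x : M) (hx : x ∈ N) : Qu P N := QuotientAddGroup.mk (⟨x, hx⟩ : N)

variable {P N}

theorem cl_add {x y : M} (hx : x ∈ N) (hy : y ∈ N) :
    cl P N (x + y) (N.add_mem hx hy) = cl P N x hx + cl P N y hy := rfl

theorem cl_zero_iff {x : M} (hx : x ∈ N) : cl P N x hx = 0 ↔ x ∈ P :=
  (QuotientAddGroup.eq_zero_iff (⟨x, hx⟩ : N)).trans AddSubgroup.mem_addSubgroupOf

theorem cl_eq_iff {x y : M} (hx : x ∈ N) (hy : y ∈ N) :
    cl P N x hx = cl P N y hy ↔ x - y ∈ P := by
  rw [← cl_zero_iff (P := P) (N.sub_mem hx hy)]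
  exact sub_eq_zero.symm

theorem cl_surj (a : Qu P N) : ∃ (x : M) (hx : x ∈ N), cl P N x hx = a := by
  obtain ⟨⟨x, hx⟩, h⟩ := QuotientAddGroup.mk_surjective a
  exact ⟨x, hx, h⟩

theorem cl_nsmul (m : ℕ) {x : M} (hx : x ∈ N) :
    m • cl P N x hx = cl P N (m • x) (N.nsmul_mem hx m) := rfl

variable (ρ : G →* AddMonoid.End M) (hP : ∀ g, ∀ x ∈ P, ρ g x ∈ P)
  (hN : ∀ g, ∀ x ∈ N, ρ g x ∈ N)

/-- The restriction of an action. -/
def resHom (g : G) : N →+ N where
  toFun x := ⟨ρ g x.1, hN g x.1 x.2⟩
  map_zero' := Subtype.ext (map_zero _)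
  map_add' _ _ := Subtype.ext (map_add _ _ _)

/-- The action on the subquotient by one element. -/
def actHom (g : G) : AddMonoid.End (Qu P N) :=
  QuotientAddGroup.map (P.addSubgroupOf N) (P.addSubgroupOf N) (resHom ρ hN g) (by
    intro x hx
    rw [AddSubgroup.mem_comap, AddSubgroup.mem_addSubgroupOf]
    exact hP g x.1 (AddSubgroup.mem_addSubgroupOf.1 hx))

theorem actHom_cl (g : G) {x : M} (hx : x ∈ N) :
    actHom ρ hP hN g (cl P N x hx) = cl P N (ρ g x) (hN g x hx) := rfl

/-- The action on the subquotient. -/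
def act : G →* AddMonoid.End (Qu P N) where
  toFun g := actHom ρ hP hN g
  map_one' := by
    refine AddMonoidHom.ext fun a => ?_
    obtain ⟨x, hx, rfl⟩ := cl_surj a
    change cl P N (ρ 1 x) (hN 1 x hx) = cl P N x hx
    rw [cl_eq_iff, map_one]
    change x - x ∈ P
    rw [sub_self]
    exact P.zero_mem
  map_mul' g h := by
    refine AddMonoidHom.ext fun a => ?_
    obtain ⟨x, hx, rfl⟩ := cl_surj a
    change cl P N (ρ (g * h) x) (hN (g * h) x hx) =
      cl P N (ρ g (ρ h x)) (hN g _ (hN h x hx))
    rw [cl_eq_iff, map_mul]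
    change ρ g (ρ h x) - ρ g (ρ h x) ∈ P
    rw [sub_self]
    exact P.zero_mem

theorem act_cl (g : G) {x : M} (hx : x ∈ N) :
    act ρ hP hN g (cl P N x hx) = cl P N (ρ g x) (hN g x hx) := rfl

end Act

section Bil

variable {M M' A : Type} [AddCommGroup M] [AddCommGroup M'] [AddCommGroup A] (b : M →+ M' →+ A)
  {P N : AddSubgroup M} {P' N' : AddSubgroup M'}
  (h1 : ∀ x ∈ P, ∀ y ∈ N', b x y = 0) (h2 : ∀ x ∈ N, ∀ y ∈ P', b x y = 0)

/-- The pairing of an element with the subquotient. -/
def bil0 (x : N) : Qu P' N' →+ A :=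
  QuotientAddGroup.lift (P'.addSubgroupOf N') ((b x.1).comp N'.subtype) (by
    intro y hy
    exact h2 x.1 x.2 y.1 (AddSubgroup.mem_addSubgroupOf.1 hy))

theorem bil0_cl (x : N) {y : M'} (hy : y ∈ N') : bil0 b h2 x (cl P' N' y hy) = b x.1 y := rfl

/-- The same as an additive map. -/
def bil1 : N →+ Qu P' N' →+ A where
  toFun x := bil0 b h2 x
  map_zero' := by
    refine AddMonoidHom.ext fun a => ?_
    obtain ⟨y, hy, rfl⟩ := cl_surj a
    rw [bil0_cl, AddSubgroup.coe_zero, map_zero]
    rfl
  map_add' x x' := by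
    refine AddMonoidHom.ext fun a => ?_
    obtain ⟨y, hy, rfl⟩ := cl_surj a
    rw [AddMonoidHom.add_apply, bil0_cl, bil0_cl, bil0_cl, AddSubgroup.coe_add, map_add]
    rfl

/-- The pairing of the subquotients. -/
def bil : Qu P N →+ Qu P' N' →+ A :=
  QuotientAddGroup.lift (P.addSubgroupOf N) (bil1 b h2) (by
    intro x hx
    refine AddMonoidHom.ext fun a => ?_
    obtain ⟨y, hy, rfl⟩ := cl_surj a
    exact h1 x.1 (AddSubgroup.mem_addSubgroupOf.1 hx) y hy)

theorem bil_cl {x : M} (hx : x ∈ N) {y : M'} (hy : y ∈ N') :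
    bil b h1 h2 (cl P N x hx) (cl P' N' y hy) = b x y := rfl

end Bil

end YQUOP

open YQUOP in
theorem stQuoP : StQuoP := by
  intro p _ G _ _ _ _ α M M' _ _ _ X P N hPs hNs hPN
  classical
  have hp : ∀ L : Submodule ℤ M, X.Stable L → ∀ g, ∀ y ∈ (X.perp L).toAddSubgroup,
      X.ρ' g y ∈ (X.perp L).toAddSubgroup := by
    intro L hL g y hy x hx
    have e : X.ρ g (X.ρ g⁻¹ x) = x := by
      have e1 : (X.ρ g * X.ρ g⁻¹) x = x := by
        rw [← map_mul, mul_inv_cancel, map_one]
        rfl
      exact e1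
    rw [← e, X.eqv, hy _ (hL g⁻¹ x hx), map_zero]
  have hle : X.perp N ≤ X.perp P := fun y hy x hx => hy x (hPN hx)
  have h1 : ∀ x ∈ P.toAddSubgroup, ∀ y ∈ (X.perp P).toAddSubgroup, X.b x y = 0 :=
    fun x hx y hy => hy x hx
  have h2 : ∀ x ∈ N.toAddSubgroup, ∀ y ∈ (X.perp N).toAddSubgroup, X.b x y = 0 :=
    fun x hx y hy => hy x hx
  let K : Type := Qu P.toAddSubgroup N.toAddSubgroup
  let K' : Type := Qu (X.perp N).toAddSubgroup (X.perp P).toAddSubgroup
  let B : K →+ K' →+ QZ p := bil X.b h1 h2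
  let σ : G →* AddMonoid.End K := act X.ρ hPs hNs
  let σ' : G →* AddMonoid.End K' := act X.ρ' (hp N hNs) (hp P hPs)
  let c : ∀ x ∈ N, K := fun x hx => cl P.toAddSubgroup N.toAddSubgroup x hx
  let c' : ∀ y ∈ X.perp P, K' := fun y hy => cl (X.perp N).toAddSubgroup
    (X.perp P).toAddSubgroup y hy
  have hsurj : ∀ a : K, ∃ (x : M) (hx : x ∈ N), c x hx = a := fun a => cl_surj a
  have hsurj' : ∀ a : K', ∃ (y : M') (hy : y ∈ X.perp P), c' y hy = a := fun a => cl_surj a
  have hB : ∀ x (hx : x ∈ N) y (hy : y ∈ X.perp P), B (c x hx) (c' y hy) = X.b x y :=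
    fun x hx y hy => rfl
  have hc : ∀ g x (hx : x ∈ N), σ g (c x hx) = c (X.ρ g x) (hNs g x hx) :=
    fun g x hx => rfl
  have hc' : ∀ g y (hy : y ∈ X.perp P), σ' g (c' y hy) = c' (X.ρ' g y) (hp P hPs g y hy) :=
    fun g y hy => rfl
  let Y : Pair ℤ α K K' :=
    { ρ := σ
      ρ' := σ'
      b := B
      sm := by
        obtain ⟨W, hW, h⟩ := X.sm
        refine ⟨W, hW, fun w hw => AddMonoidHom.ext fun a => ?_⟩
        obtain ⟨x, hx, rfl⟩ := hsurj a
        change c (X.ρ w x) (hNs w x hx) = c x hx
        refine (cl_eq_iff _ _).2 ?_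
        rw [h w hw]
        change x - x ∈ P
        rw [sub_self]
        exact P.zero_mem
      sm' := by
        obtain ⟨W, hW, h⟩ := X.sm'
        refine ⟨W, hW, fun w hw => AddMonoidHom.ext fun a => ?_⟩
        obtain ⟨y, hy, rfl⟩ := hsurj' a
        change c' (X.ρ' w y) (hp P hPs w y hy) = c' y hy
        refine (cl_eq_iff _ _).2 ?_
        rw [h w hw]
        change y - y ∈ X.perp N
        rw [sub_self]
        exact (X.perp N).zero_mem
      lin := fun g a m => map_zsmul (σ g) a m
      lin' := fun g a m => map_zsmul (σ' g) a m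
      eqv := by
        intro g a a'
        obtain ⟨x, hx, rfl⟩ := hsurj a
        obtain ⟨y, hy, rfl⟩ := hsurj' a'
        rw [hc, hc', hB, hB]
        exact X.eqv g x y
      bal := by
        intro a m m'
        rw [map_zsmul, map_zsmul]
        rfl
      perf := by
        intro L a ha
        obtain ⟨x, hx, rfl⟩ := hsurj a
        let L1 : Submodule ℤ M :=
          { carrier := {z | ∃ hz : z ∈ N, c z hz ∈ L}
            add_mem' := by
              rintro z w ⟨hz, hz'⟩ ⟨hw, hw'⟩
              exact ⟨N.add_mem hz hw, L.add_mem hz' hw'⟩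
            zero_mem' := ⟨N.zero_mem, L.zero_mem⟩
            smul_mem' := by
              rintro a z ⟨hz, hz'⟩
              exact ⟨N.smul_mem a hz, L.smul_mem a hz'⟩ }
        have hx1 : x ∈ L1 := by
          refine X.perf L1 x fun m' hm' => ?_
          have hm1 : m' ∈ X.perp P := by
            intro z hz
            refine hm' z ⟨hPN hz, ?_⟩
            have : c z (hPN hz) = 0 := (cl_zero_iff _).2 hz
            rw [this]
            exact L.zero_mem
          have := ha (c' m' hm1) (by
            intro n hn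
            obtain ⟨z, hz, rfl⟩ := hsurj n
            exact hm' z ⟨hz, hn⟩)
          exact this
        exact hx1.2
      perf' := by
        intro L a ha
        obtain ⟨y, hy, rfl⟩ := hsurj' a
        let L1 : Submodule ℤ M' :=
          { carrier := {z | ∃ hz : z ∈ X.perp P, c' z hz ∈ L}
            add_mem' := by
              rintro z w ⟨hz, hz'⟩ ⟨hw, hw'⟩
              exact ⟨(X.perp P).add_mem hz hw, L.add_mem hz' hw'⟩
            zero_mem' := ⟨(X.perp P).zero_mem, L.zero_mem⟩
            smul_mem' := by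
              rintro a z ⟨hz, hz'⟩
              exact ⟨(X.perp P).smul_mem a hz, L.smul_mem a hz'⟩ }
        have hy1 : y ∈ L1 := by
          refine X.perf' L1 y fun m hm => ?_
          have hm1 : m ∈ N := by
            refine X.perf N m fun m' hm' => hm m' ⟨hle hm', ?_⟩
            have : c' m' (hle hm') = 0 := (cl_zero_iff _).2 hm'
            rw [this]
            exact L.zero_mem
          have := ha (c m hm1) (by
            intro n hn
            obtain ⟨z, hz, rfl⟩ := hsurj' n
            exact hm z ⟨hz, hn⟩)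
          exact this
        exact hy1.2 }
  let φ : M → K := fun x => if h : x ∈ N then c x h else 0
  let φ' : M' → K' := fun y => if h : y ∈ X.perp P then c' y h else 0
  have hφ : ∀ x (hx : x ∈ N), φ x = c x hx := fun x hx => dif_pos hx
  have hφ' : ∀ y (hy : y ∈ X.perp P), φ' y = c' y hy := fun y hy => dif_pos hy
  have hfin : Finite K := Finite.of_surjective (fun x : N => c x.1 x.2) (fun a => by
    obtain ⟨x, hx, h⟩ := hsurj a
    exact ⟨⟨x, hx⟩, h⟩)
  refine ⟨K, K', inferInstance, inferInstance, Y, φ, φ', hfin, ?_, ?_, ?_⟩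
  · exact
      { add := by
          intro x hx y hy
          rw [hφ x hx, hφ y hy, hφ _ (N.add_mem hx hy)]
          rfl
        ker := by
          intro x hx
          rw [hφ x hx]
          exact cl_zero_iff _
        surj := by
          intro a
          obtain ⟨x, hx, h⟩ := hsurj a
          exact ⟨x, hx, (hφ x hx).trans h⟩
        act := by
          intro g x hx
          rw [hφ x hx, hφ _ (hNs g x hx)]
          rfl
        add' := by
          intro x hx y hy
          rw [hφ' x hx, hφ' y hy, hφ' _ ((X.perp P).add_mem hx hy)]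
          rfl
        ker' := by
          intro x hx
          rw [hφ' x hx]
          exact cl_zero_iff _
        surj' := by
          intro a
          obtain ⟨x, hx, h⟩ := hsurj' a
          exact ⟨x, hx, (hφ' x hx).trans h⟩
        act' := by
          intro g x hx
          rw [hφ' x hx, hφ' _ (hp P hPs g x hx)]
          rfl
        pair := by
          intro x hx y hy
          rw [hφ x hx, hφ' y hy]
          rfl }
  · intro g hg
    refine AddMonoidHom.ext fun a => ?_
    obtain ⟨x, hx, rfl⟩ := hsurj a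
    change c (X.ρ g x) (hNs g x hx) = c x hx
    exact (cl_eq_iff _ _).2 (hg x hx)
  · intro m hm a
    obtain ⟨x, hx, rfl⟩ := hsurj a
    change c (m • x) (N.smul_of_tower_mem m hx) = 0
    exact (cl_zero_iff _).2 (hm x hx)

end BKT
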