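import Pool.Agent.Lib.MP_7c08ba_nt.T1.StY

set_option autoImplicit false

/-!
Module RED: the left kernel of the pairing for `M` from that for the functions on `G / H`, if the
index of `H` is prime to `p`.
-/

noncomputable section

namespace BKT

open BKPar (Loc1 Loc2)
open BKND (Sm)
open BKMet

namespace YRED

theorem qz_tors {p : ℕ} [Fact p.Prime] (m : QZ p) : ∃ n : ℕ, p ^ n • m = 0 := by
  obtain ⟨x, rfl⟩ := Submodule.Quotient.mk_surjective _ m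
  obtain ⟨n, hn⟩ : ∃ n : ℕ, ‖x * (p : ℚ_[p]) ^ n‖ ≤ 1 := by
    by_cases hx : x = 0
    · exact ⟨0, by simp [hx]⟩
    · have hp1 : (1 : ℝ) < p := by exact_mod_cast (Fact.out : p.Prime).one_lt
      obtain ⟨n, hn⟩ := pow_unbounded_of_one_lt ‖x‖ hp1
      refine ⟨n, ?_⟩
      rw [norm_mul, norm_pow, Padic.norm_p, inv_pow]
      have h0 : (0 : ℝ) < (p : ℝ) ^ n := by positivity
      rw [← div_eq_mul_inv, div_le_one h0]
      exact hn.le
  refine ⟨n, ?_⟩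
  rw [← Submodule.Quotient.mk_smul, Submodule.Quotient.mk_eq_zero]
  refine ⟨⟨x * (p : ℚ_[p]) ^ n, hn⟩, ?_⟩
  change x * (p : ℚ_[p]) ^ n = _
  rw [nsmul_eq_mul, Nat.cast_pow, mul_comm]

section maps

variable {G : Type} [Group G] [TopologicalSpace G] {A : Type} [AddCommGroup A]
  {α : G →* AddMonoid.End A} {M M' K K' : Type} [AddCommGroup M] [AddCommGroup M']
  [AddCommGroup K] [AddCommGroup K'] (X : Pair ℤ α M M') (Y : Pair ℤ α K K') (F : M →+ K)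

theorem d1_map (hF : ∀ g m, F (X.ρ g m) = Y.ρ g (F m)) (z : G → M) (g h : G) :
    d1 Y.ρ (fun g => F (z g)) g h = F (d1 X.ρ z g h) := by
  simp only [d1, map_add, map_sub, hF]

theorem d0_map (hF : ∀ g m, F (X.ρ g m) = Y.ρ g (F m)) (m : M) (g : G) :
    d0 Y.ρ (F m) g = F (d0 X.ρ m g) := by
  simp only [d0, map_sub, hF]

variable {S : Type} {D : S → Type} [∀ w, Group (D w)] (r : ∀ w, D w →* G) (T : Set S)
  {P Q : Submodule ℤ M} {P' Q' : Submodule ℤ K}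

theorem map_Zr (hF : ∀ g m, F (X.ρ g m) = Y.ρ g (F m)) (hP : ∀ m ∈ P, F m ∈ P')
    (hQ : ∀ m ∈ Q, F m ∈ Q') {x : (G → M) × (S → M)} (hx : x ∈ X.Zr r T P Q) :
    ((fun g => F (x.1 g), fun w => F (x.2 w)) : (G → K) × (S → K)) ∈ Y.Zr r T P' Q' := by
  obtain ⟨h1, h2, h3, h4, h5⟩ := hx
  refine ⟨BKND.Loc1.map h1 F, fun g => hQ _ (h2 g), fun g h => ?_, fun w hw => ⟨hQ _ (h4 w hw).1,
    fun d => ?_⟩, fun w hw => ?_⟩
  · change d1 Y.ρ (fun g => F (x.1 g)) g h ∈ P'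
    rw [d1_map X Y F hF]
    exact hP _ (h3 g h)
  · change F (x.1 (r w d)) - d0 Y.ρ (F (x.2 w)) (r w d) ∈ P'
    rw [d0_map X Y F hF, ← map_sub]
    exact hP _ ((h4 w hw).2 d)
  · change F (x.2 w) = 0
    rw [h5 w hw, map_zero]

theorem map_Br (hF : ∀ g m, F (X.ρ g m) = Y.ρ g (F m)) (hP : ∀ m ∈ P, F m ∈ P')
    (hQ : ∀ m ∈ Q, F m ∈ Q') {x : (G → M) × (S → M)} (hx : x ∈ X.Br T P Q) :
    ((fun g => F (x.1 g), fun w => F (x.2 w)) : (G → K) × (S → K)) ∈ Y.Br T P' Q' := by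
  obtain ⟨h1, ⟨n, hn, h2, h3⟩, h4⟩ := hx
  refine ⟨BKND.Loc1.map h1 F, ⟨F n, hQ _ hn, fun g => ?_, fun w hw => ?_⟩, fun w hw => ?_⟩
  · change F (x.1 g) - d0 Y.ρ (F n) g ∈ P'
    rw [d0_map X Y F hF, ← map_sub]
    exact hP _ (h2 g)
  · change F (x.2 w) - F n ∈ P'
    rw [← map_sub]
    exact hP _ (h3 w hw)
  · change F (x.2 w) = 0
    rw [h4 w hw, map_zero]

end maps

section CT

variable {S : Type} [Fintype S] {G : Type} [Group G] [TopologicalSpace G]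
  {D : S → Type} [∀ w, Group (D w)] [∀ w, TopologicalSpace (D w)] {A E : Type} [AddCommGroup A]
  [AddCommGroup E] (Γ : Glo S G D A E) {M M' K K' : Type} [AddCommGroup M] [AddCommGroup M']
  [AddCommGroup K] [AddCommGroup K'] (X : Pair ℤ Γ.α M M') (Z : Pair ℤ Γ.α K K') (T : Set S)

theorem CT_map (F : M →+ K) (F' : K' →+ M') (hF : ∀ g m, F (X.ρ g m) = Z.ρ g (F m))
    (hF' : ∀ g m, F' (Z.ρ' g m) = X.ρ' g (F' m)) (hb : ∀ m k', Z.b (F m) k' = X.b m (F' k'))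
    (x : (G → M) × (S → M)) (y : (G → K') × (S → K')) :
    CT Γ Z T (fun g => F (x.1 g), fun w => F (x.2 w)) y =
      CT Γ X T x (fun g => F' (y.1 g), fun w => F' (y.2 w)) := by
  unfold CT
  congr 1
  refine Prod.ext ?_ ?_
  · funext g h k
    change Z.b (d1 Z.ρ (fun g => F (x.1 g)) g h) (Z.ρ' (g * h) (y.1 k)) =
      X.b (d1 X.ρ x.1 g h) (X.ρ' (g * h) (F' (y.1 k)))
    rw [d1_map X Z F hF, hb, hF']
  · funext w
    by_cases hw : w ∈ T
    · simp only [Xi, if_pos hw]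
      funext d d'
      change Z.b (F (x.1 (Γ.r w d)) - d0 Z.ρ (F (x.2 w)) (Γ.r w d))
        (Z.ρ' (Γ.r w d) (y.1 (Γ.r w d'))) =
        X.b (x.1 (Γ.r w d) - d0 X.ρ (x.2 w) (Γ.r w d)) (X.ρ' (Γ.r w d) (F' (y.1 (Γ.r w d'))))
      rw [d0_map X Z F hF, ← map_sub, hb, hF']
    · simp only [Xi, if_neg hw]
      funext d d'
      change Z.b (d1 Z.ρ (fun g => F (x.1 g)) (Γ.r w d) (Γ.r w d'))
        (Z.ρ' (Γ.r w (d * d')) (y.2 w)) =
        X.b (d1 X.ρ x.1 (Γ.r w d) (Γ.r w d')) (X.ρ' (Γ.r w (d * d')) (F' (y.2 w)))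
      rw [d1_map X Z F hF, hb, hF']

end CT

/-- constant functions -/
def iota (Q M : Type) [AddCommGroup M] : M →+ (Q → M) where
  toFun m := fun _ => m
  map_zero' := rfl
  map_add' _ _ := rfl

/-- the sum of the values -/
def tau (Q M : Type) [Fintype Q] [AddCommGroup M] : (Q → M) →+ M where
  toFun f := ∑ q, f q
  map_zero' := Finset.sum_const_zero
  map_add' _ _ := Finset.sum_add_distrib

theorem tau_iota (Q M : Type) [Fintype Q] [AddCommGroup M] (m : M) :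
    tau Q M (iota Q M m) = Nat.card Q • m := by
  change ∑ _q : Q, m = _
  rw [Finset.sum_const, Finset.card_univ, Nat.card_eq_fintype_card]

theorem iota_eqv {G Q M : Type} [Group G] [MulAction G Q] [AddCommGroup M]
    (ρ : G →* AddMonoid.End M) (g : G) (m : M) :
    iota Q M (ρ g m) = mapA Q ρ g (iota Q M m) := rfl

theorem tau_eqv {G Q M : Type} [Group G] [MulAction G Q] [Fintype Q] [AddCommGroup M]
    (ρ : G →* AddMonoid.End M) (g : G) (f : Q → M) :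
    tau Q M (mapA Q ρ g f) = ρ g (tau Q M f) := by
  change ∑ q, ρ g (f (g⁻¹ • q)) = ρ g (∑ q, f q)
  rw [← map_sum]
  congr 1
  exact Equiv.sum_comp (MulAction.toPerm g⁻¹ : Equiv.Perm Q) f

/-- `M` is killed by a power of `p` -/
theorem kill {p : ℕ} [Fact p.Prime] {G : Type} [Group G] [TopologicalSpace G]
    {α : G →* AddMonoid.End (QZ p)} {M M' : Type} [AddCommGroup M] [AddCommGroup M'] [Finite M]
    (X : Pair ℤ α M M') : ∃ a : ℕ, ∀ m : M, p ^ a • m = 0 := by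
  have hp : p.Prime := Fact.out
  obtain ⟨a, t, ht, hN⟩ := Nat.exists_eq_pow_mul_and_not_dvd
    (n := Nat.card M) Nat.card_pos.ne' p hp.ne_one
  refine ⟨a, fun m => ?_⟩
  have h := X.perf ⊥ (p ^ a • m) fun m' _ => ?_
  · exact (Submodule.mem_bot ℤ).1 h
  obtain ⟨n, hn⟩ := qz_tors (X.b (p ^ a • m) m')
  have h1 : t • X.b (p ^ a • m) m' = 0 := by
    rw [← AddMonoidHom.nsmul_apply, ← map_nsmul, smul_smul, mul_comm, ← hN,
      card_nsmul_eq_zero', map_zero]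
    rfl
  have h2 := addOrderOf_dvd_of_nsmul_eq_zero h1
  have h3 := addOrderOf_dvd_of_nsmul_eq_zero hn
  have h4 : Nat.Coprime (p ^ n) t := Nat.Coprime.pow_left n ((Nat.Prime.coprime_iff_not_dvd hp).2 ht)
  have h5 := Nat.dvd_gcd h3 h2
  rw [h4.gcd_eq_one, Nat.dvd_one] at h5
  exact AddMonoid.addOrderOf_eq_one_iff.1 h5

end YRED

open YRED in
/-- Module RED -/
theorem stRed : StRed := by
  intro p _ S _ G _ _ _ _ D _ _ Γ M M' _ _ _ X H hH hidx Z hZ T P N Q hP hN hQ hPN hNQ hLK x hx hxy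
  have hp : p.Prime := Fact.out
  have hfin : Finite (G ⧸ H) := Subgroup.quotient_finite_of_isOpen H hH
  let _ : Fintype (G ⧸ H) := Fintype.ofFinite _
  have hi : ∀ g m, iota (G ⧸ H) M (X.ρ g m) = Z.ρ g (iota (G ⧸ H) M m) := by
    intro g m
    rw [hZ.act]
    exact iota_eqv X.ρ g m
  have ht : ∀ g f, tau (G ⧸ H) M (Z.ρ g f) = X.ρ g (tau (G ⧸ H) M f) := by
    intro g f
    rw [hZ.act]
    exact tau_eqv X.ρ g f
  have ht' : ∀ g f, tau (G ⧸ H) M' (Z.ρ' g f) = X.ρ' g (tau (G ⧸ H) M' f) := by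
    intro g f
    rw [hZ.act']
    exact tau_eqv X.ρ' g f
  have hb : ∀ m f', Z.b (iota (G ⧸ H) M m) f' = X.b m (tau (G ⧸ H) M' f') := by
    intro m f'
    rw [hZ.pair, finsum_eq_sum_of_fintype]
    change ∑ q, X.b m (f' q) = X.b m (∑ q, f' q)
    rw [map_sum]
  have himS : ∀ L : Submodule ℤ M, X.Stable L → ∀ m ∈ L, iota (G ⧸ H) M m ∈ mapS X.ρ H L :=
    fun L hL m hm g => hL _ m hm
  have htmS : ∀ L : Submodule ℤ M, X.Stable L → ∀ f ∈ mapS X.ρ H L, tau (G ⧸ H) M f ∈ L := by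
    intro L hL f hf
    refine L.sum_mem fun q _ => ?_
    obtain ⟨g, rfl⟩ := QuotientGroup.mk_surjective q
    have h1 := hL g _ (hf g)
    have h2 : X.ρ g (X.ρ g⁻¹ (f (QuotientGroup.mk g))) = f (QuotientGroup.mk g) := by
      change (X.ρ g * X.ρ g⁻¹) (f (QuotientGroup.mk g)) = _
      rw [← map_mul, mul_inv_cancel, map_one]
      rfl
    rwa [h2] at h1
  have htp : ∀ L : Submodule ℤ M, X.Stable L → ∀ f ∈ Z.perp (mapS X.ρ H L),
      tau (G ⧸ H) M' f ∈ X.perp L := by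
    intro L hL f hf m hm
    rw [← hb]
    exact hf _ (himS L hL m hm)
  obtain ⟨x', hx', hBr⟩ := hLK _ (map_Zr X Z (iota (G ⧸ H) M) Γ.r T hi (himS N hN)
    (himS Q hQ) hx) (fun y hy => by
      rw [CT_map Γ X Z T (iota (G ⧸ H) M) (tau (G ⧸ H) M') hi ht' hb]
      exact hxy _ (map_Zr Z.flip X.flip (tau (G ⧸ H) M') Γ.r Tᶜ ht' (htp N hN) (htp P hP) hy))
  obtain ⟨a, ha⟩ := kill X
  have hcop : Nat.Coprime H.index (p ^ a) :=
    (Nat.Coprime.pow_left a ((Nat.Prime.coprime_iff_not_dvd hp).2 hidx)).symm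
  obtain ⟨u, v, huv⟩ := Nat.isCoprime_iff_coprime.2 hcop
  have hu : ∀ m : M, u • (H.index • m) = m := by
    intro m
    have h1 : (u * (H.index : ℤ) + v * ((p ^ a : ℕ) : ℤ)) • m = m := by rw [huv, one_smul]
    rw [add_smul, mul_smul, mul_smul, natCast_zsmul, natCast_zsmul, ha, smul_zero, add_zero] at h1
    exact h1
  refine ⟨u • (fun g => tau (G ⧸ H) M (x'.1 g), fun w => tau (G ⧸ H) M (x'.2 w)),
    (X.Zr Γ.r T P Q).smul_mem u (map_Zr Z X (tau (G ⧸ H) M) Γ.r T ht (htmS P hP) (htmS Q hQ) hx'),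
    ?_⟩
  have h1 := (X.Br T N Q).smul_mem u
    (map_Br Z X (tau (G ⧸ H) M) T ht (htmS N hN) (htmS Q hQ) hBr)
  convert h1 using 1
  refine Prod.ext (funext fun g => ?_) (funext fun w => ?_)
  · change x.1 g - u • tau (G ⧸ H) M (x'.1 g) =
      u • tau (G ⧸ H) M (iota (G ⧸ H) M (x.1 g) - x'.1 g)
    rw [map_sub, tau_iota, smul_sub]
    congr 1
    exact (hu _).symm
  · change x.2 w - u • tau (G ⧸ H) M (x'.2 w) =
      u • tau (G ⧸ H) M (iota (G ⧸ H) M (x.2 w) - x'.2 w)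
    rw [map_sub, tau_iota, smul_sub]
    congr 1
    exact (hu _).symm

end BKT
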