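import Pool.Agent.Lib.MP_7c08ba_nt.T1.StY
import Pool.Agent.Lib.MP_7c08ba_nt.Met.XSD
import Pool.Agent.Lib.MP_7c08ba_nt.Met.XALT
import Pool.Agent.Lib.MP_7c08ba_nt.Met.XPERP
import Pool.Agent.Lib.MP_7c08ba_nt.Met.XEXACT
import Pool.Agent.Lib.MP_7c08ba_nt.Met.XCT
import Pool.Agent.Lib.MP_7c08ba_nt.Met.XSWAP
import Pool.Agent.Lib.MP_7c08ba_nt.Met.XHOMS
import Pool.Agent.Lib.MP_7c08ba_nt.Met.XDUAL
import Pool.Agent.Lib.MP_7c08ba_nt.Met.XEXT

set_option autoImplicit false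

/-!
Parity for general residual representations, part Y, module SDT: modules with a symmetric form and a
Lagrangian submodule.
-/

noncomputable section

namespace BKT

open BKPar (Loc1 Loc2)
open BKND (Sm)
open BKMet
open BKMet.XSD

/-- Module SDT. -/
theorem stSDT (h : StYR) : StSDT := by
  intro R _ _ _ p _ hp _ ι _ G _ _ _ _ D _ _ _ _ r c hc hcc Γ hΓr hinv htr χ hχ U δ hG hδ' hδ M _ _ _
    X hX hb hL N hN hNp
  have h2 : StSwap := stSwap
  have h3 : StAlt := stAlt (stDual stExt (stHoms stExt))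
  have h4 : StExact := stExact
  have h5 : StPerp := stPerp (stHoms stExt)
  have h6 : StCT := stCT
  have hρ : ∀ g, X.ρ' g = X.ρ (c g) := by
    intro g
    rw [hX]
    rfl
  have e1 : ∀ i, Γ.r (i, false) = r i := fun i => hΓr (i, false)
  have e2 : ∀ i, Γ.r (i, true) = c.comp (r i) := fun i => hΓr (i, true)
  have hr : ∀ (w : ι × Bool) (d : D w.1), c (Γ.r w d) = Γ.r (w.1, !w.2) d := by
    rintro ⟨i, b⟩ d
    cases b
    · change c (Γ.r (i, false) d) = Γ.r (i, true) d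
      rw [e1, e2]
      rfl
    · change c (Γ.r (i, true) d) = Γ.r (i, false) d
      rw [e1, e2]
      exact hcc _
  set T : Set (ι × Bool) := {w | w.2 = false} with hTdef
  have hT : ∀ w, w ∈ Tᶜ ↔ (w.1, !w.2) ∈ T := by
    rintro ⟨i, b⟩
    cases b <;> simp [hTdef]
  obtain ⟨i₀⟩ : Nonempty ι := by
    by_contra h
    rw [not_nonempty_iff] at h
    rw [Finset.univ_eq_empty, Finset.sum_empty] at hδ
    exact absurd hδ (by decide)
  have hT1 : T.Nonempty := ⟨(i₀, false), rfl⟩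
  have hT2 : Tᶜ.Nonempty := ⟨(i₀, true), by simp [hTdef]⟩
  have hsum : ∀ inst : ∀ w : ι × Bool, Decidable (w ∈ T),
      (∑ w, @ite ℕ (w ∈ T) (inst w) (δ w) 0) = 1 := by
    intro inst
    rw [← hδ, Fintype.sum_prod_type]
    refine Finset.sum_congr rfl fun i _ => ?_
    rw [Fintype.sum_bool, if_neg (by simp [hTdef]), if_pos (by simp [hTdef]), zero_add]
  have hbot : X.Stable ⊥ := by
    intro g m hm
    rw [Submodule.mem_bot] at hm ⊢
    rw [hm, map_zero]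
  have htop : X.Stable ⊤ := fun _ _ _ => Submodule.mem_top
  obtain ⟨-, -, p3, p4, -, -⟩ := h5 R p G Γ.α M M X
  -- monotonicity
  have hmono : ∀ P P' Q : Submodule R M, P ≤ P' → X.Zr Γ.r T P Q ≤ X.Zr Γ.r T P' Q := by
    rintro P P' Q hP x ⟨a0, a1, a2, a3, a4⟩
    exact ⟨a0, a1, fun g h => hP (a2 g h), fun w hw => ⟨(a3 w hw).1, fun d => hP ((a3 w hw).2 d)⟩,
      a4⟩
  have hmono' : ∀ P P' Q : Submodule R M, P ≤ P' →
      X.flip.Zr Γ.r Tᶜ P Q ≤ X.flip.Zr Γ.r Tᶜ P' Q := by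
    rintro P P' Q hP x ⟨a0, a1, a2, a3, a4⟩
    exact ⟨a0, a1, fun g h => hP (a2 g h), fun w hw => ⟨(a3 w hw).1, fun d => hP ((a3 w hw).2 d)⟩,
      a4⟩
  obtain ⟨c1, c2, c3, c4⟩ := h6 R (ι × Bool) G (DD D) (QZ p) (QZ p) Γ M M X T
  obtain ⟨x1, x2⟩ := h4 R G (ι × Bool) (DD D) Γ.r (QZ p) Γ.α M M X T hT1
  obtain ⟨-, -, x5⟩ := x2 ⊥ N ⊤ hbot hN htop bot_le le_top
  have ind := h R p (ι × Bool) G (DD D) Γ χ δ U hG M M X hL T hT1 hT2
  obtain ⟨i1, -⟩ := ind ⊥ N ⊤ hbot hN htop bot_le le_top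
  obtain ⟨-, j1, -, -⟩ := ind N N ⊤ hN hN htop le_rfl le_top
  obtain ⟨-, -, -, k1⟩ := ind ⊥ N N hbot hN hN bot_le le_rfl
  unfold BKT.LK at i1
  unfold BKT.hT at j1 k1
  rw [hNp, p4] at i1 k1
  set Z : Submodule R ((G → M) × (ι × Bool → M)) := X.Zr Γ.r T N ⊤ with hZ
  set B : Submodule R ((G → M) × (ι × Bool → M)) := X.Zr Γ.r T ⊥ ⊤ ⊔ X.Br T N ⊤ with hB
  have hBrZ : X.Br T N ⊤ ≤ Z := x1 N ⊤ hN le_top htop
  have hBZ : B ≤ Z := sup_le (hmono ⊥ N ⊤ bot_le) hBrZ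
  have hmul : (X.Br T N ⊤).toAddSubgroup.relIndex B.toAddSubgroup *
      B.toAddSubgroup.relIndex Z.toAddSubgroup =
      (X.Br T N ⊤).toAddSubgroup.relIndex Z.toAddSubgroup :=
    AddSubgroup.relIndex_mul_relIndex _ _ _ (le_sup_right : X.Br T N ⊤ ≤ B) hBZ
  have hfin : B.toAddSubgroup.relIndex Z.toAddSubgroup ≠ 0 := by
    intro h
    rw [h, mul_zero] at hmul
    exact j1 hmul.symm
  have hfin' : (X.Br T N ⊤).toAddSubgroup.relIndex B.toAddSubgroup ≠ 0 := by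
    intro h
    rw [h, zero_mul] at hmul
    exact j1 hmul.symm
  have hcjZ : ∀ y ∈ Z, cj R c y ∈ X.flip.Zr Γ.r Tᶜ N ⊤ := fun y hy =>
    zr_cj X hc hρ hr hT N ⊤ hy
  have hρ' : ∀ g, X.flip.ρ' g = X.flip.ρ (c g) := by
    intro g
    change X.ρ g = X.ρ' (c g)
    rw [hρ, hcc]
  have hT' : ∀ w, w ∈ T ↔ (w.1, !w.2) ∈ Tᶜ := by
    intro w
    rw [hT]
    change w ∈ T ↔ (w.1, !(!w.2)) ∈ T
    rw [Bool.not_not]
  have hcjZ' : ∀ y ∈ X.flip.Zr Γ.r Tᶜ N ⊤, cj R c y ∈ Z := fun y hy =>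
    zr_cj X.flip hc hρ' hr hT' N ⊤ hy
  obtain ⟨a, ha⟩ := h3 R p hp ((G → M) × (ι × Bool → M)) Z B
    (fun x y => CT Γ X T x (cj R c y)) hBZ hfin (fun x _ x' _ y _ => c1 x x' _)
    (fun x _ y _ b => by
      change CT Γ X T (b • x) (cj R c y) = CT Γ X T x (cj R c (b • y))
      rw [c3, map_smul])
    (fun x hx y hy => by
      have hs := h2 R (ι × Bool) G (DD D) (QZ p) (QZ p) Γ M M X T N hN x hx (cj R c y)
        (by rw [hNp]; exact hcjZ y hy)
      change CT Γ X T x (cj R c y) = - CT Γ X T y (cj R c x)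
      rw [hs]
      unfold CT
      rw [xi_cj Γ X hcc hρ hr hb hT, htr])
    (fun x hx => by
      constructor
      · intro hxB y hy
        change CT Γ X T x (cj R c y) = 0
        obtain ⟨u, hu, v, hv, rfl⟩ := Submodule.mem_sup.1 hxB
        have hy' := hcjZ y hy
        rw [c1]
        obtain ⟨-, -, q3⟩ := c4 ⊥ hbot
        obtain ⟨q1, -, -⟩ := c4 N hN
        rw [q3 u hu _ (by rw [p4]; exact hmono' N ⊤ ⊤ le_top hy'),
          q1 v hv _ (by rw [hNp]; exact hy'), add_zero]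
      · intro h
        obtain ⟨x', hx', hxx⟩ := i1 x hx (fun y hy => by
          have := h (cj R c y) (hcjZ' y hy)
          change CT Γ X T x (cj R c (cj R c y)) = 0 at this
          rwa [cj_cj hcc] at this)
        exact Submodule.mem_sup.2 ⟨x', hx', x - x', hxx, by abel⟩)
  obtain ⟨b, hb'⟩ := relIndex_pow R (X.Br T N ⊤) B hfin'
  -- the Euler characteristic
  have hN0 : (⊥ : Submodule R M).toAddSubgroup.relIndex N.toAddSubgroup ≠ 0 := by
    have : Finite (N.toAddSubgroup) := inferInstanceAs (Finite ↥N)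
    exact AddSubgroup.index_ne_zero_of_finite
  have key : ∀ a b d e : ℕ, e = 1 → a * b ^ e = d * b → a * b = d * b := by
    intro a b d e he h
    rwa [he, pow_one] at h
  have k3 := key _ _ _ _ (hsum _) k1
  have k2 := Nat.eq_of_mul_eq_mul_right (Nat.pos_of_ne_zero hN0) k3
  rw [relIndex_cj X hc hρ hr hT N ⊤ hcc] at k2
  refine ⟨b + a, ?_⟩
  rw [x5, k2, ← hmul, hb', ha]
  ring

end BKT
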