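import Pool.Agent.Lib.MP_7c08ba_nt.T1.StY

set_option autoImplicit false

/-!
Parity for general residual representations, module YR: global duality and the Euler characteristic
for modules over a ring `R`.
-/

noncomputable section

namespace BKT

open BKMet

theorem stYR (h1 : StFrg) (h2 : StLkT) (h3 : StEfT) : StYR := by
  intro R _ p _ S _ G _ _ _ _ D _ _ _ _ Γ χ δ U hS M M' _ _ _ _ _ X hU T hT hT' P N Q hP hN hQ
    hPN hNQ
  obtain ⟨Xz, e1, -, -, h⟩ := h1 R p S G D Γ M M' X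
  have hz : PGr p Xz.ρ U := by
    rw [e1]
    exact hU
  exact ⟨((h P).2.2 T δ N Q).1 (h2 p S G D Γ χ δ U hS M M' Xz hz T hT hT' _ _ _ ((h P).2.1 hP)
      ((h N).2.1 hN) ((h Q).2.1 hQ) hPN hNQ),
    ((h P).2.2 T δ N Q).2 (h3 p S G D Γ χ δ U hS M M' Xz hz T hT hT' _ _ ((h P).2.1 hP)
      ((h Q).2.1 hQ) (hPN.trans hNQ))⟩

end BKT
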