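import Pool.Agent.Lib.MP_7c08ba_nt.Met.NAll
import Pool.Agent.Lib.MP_7c08ba_nt.Met.V.FAll
import Pool.Agent.Lib.MP_7c08ba_nt.T1.AARC
import Pool.Agent.Lib.MP_7c08ba_nt.T1.AART
import Pool.Agent.Lib.MP_7c08ba_nt.T1.ACYC
import Pool.Agent.Lib.MP_7c08ba_nt.T1.ADEC
import Pool.Agent.Lib.MP_7c08ba_nt.T1.AINM
import Pool.Agent.Lib.MP_7c08ba_nt.T1.ALAT
import Pool.Agent.Lib.MP_7c08ba_nt.T1.AQIS
import Pool.Agent.Lib.MP_7c08ba_nt.T1.FCUPXT
import Pool.Agent.Lib.MP_7c08ba_nt.T1.FDESCT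
import Pool.Agent.Lib.MP_7c08ba_nt.T1.FGAMT
import Pool.Agent.Lib.MP_7c08ba_nt.T1.FJHT
import Pool.Agent.Lib.MP_7c08ba_nt.T1.FLATTT
import Pool.Agent.Lib.MP_7c08ba_nt.T1.FLOCXT
import Pool.Agent.Lib.MP_7c08ba_nt.T1.FLVT
import Pool.Agent.Lib.MP_7c08ba_nt.T1.FMAINXT
import Pool.Agent.Lib.MP_7c08ba_nt.T1.FNSDT
import Pool.Agent.Lib.MP_7c08ba_nt.T1.FPARH
import Pool.Agent.Lib.MP_7c08ba_nt.T1.FPART
import Pool.Agent.Lib.MP_7c08ba_nt.T1.FPARW
import Pool.Agent.Lib.MP_7c08ba_nt.T1.FPARXT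
import Pool.Agent.Lib.MP_7c08ba_nt.T1.FRAMT
import Pool.Agent.Lib.MP_7c08ba_nt.T1.FSUMH
import Pool.Agent.Lib.MP_7c08ba_nt.T1.FSUMM
import Pool.Agent.Lib.MP_7c08ba_nt.T1.FSUMT
import Pool.Agent.Lib.MP_7c08ba_nt.T1.FU0T
import Pool.Agent.Lib.MP_7c08ba_nt.T1.FUNRT
import Pool.Agent.Lib.MP_7c08ba_nt.T1.GART2
import Pool.Agent.Lib.MP_7c08ba_nt.T1.GBC
import Pool.Agent.Lib.MP_7c08ba_nt.T1.GCEA
import Pool.Agent.Lib.MP_7c08ba_nt.T1.GCGX
import Pool.Agent.Lib.MP_7c08ba_nt.T1.GCUT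
import Pool.Agent.Lib.MP_7c08ba_nt.T1.GGCA
import Pool.Agent.Lib.MP_7c08ba_nt.T1.GGLT
import Pool.Agent.Lib.MP_7c08ba_nt.T1.GONA
import Pool.Agent.Lib.MP_7c08ba_nt.T1.GPNT
import Pool.Agent.Lib.MP_7c08ba_nt.T1.GPRI
import Pool.Agent.Lib.MP_7c08ba_nt.T1.GPWT
import Pool.Agent.Lib.MP_7c08ba_nt.T1.GRKT
import Pool.Agent.Lib.MP_7c08ba_nt.T1.GSHI
import Pool.Agent.Lib.MP_7c08ba_nt.T1.GSITB
import Pool.Agent.Lib.MP_7c08ba_nt.T1.GTWA
import Pool.Agent.Lib.MP_7c08ba_nt.T1.GUAA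
import Pool.Agent.Lib.MP_7c08ba_nt.T1.GUIT
import Pool.Agent.Lib.MP_7c08ba_nt.T1.HLATM
import Pool.Agent.Lib.MP_7c08ba_nt.T1.HMTB
import Pool.Agent.Lib.MP_7c08ba_nt.T1.HNFM
import Pool.Agent.Lib.MP_7c08ba_nt.T1.HPARW2
import Pool.Agent.Lib.MP_7c08ba_nt.T1.HPTF
import Pool.Agent.Lib.MP_7c08ba_nt.T1.HWEQ
import Pool.Agent.Lib.MP_7c08ba_nt.T1.LCRV
import Pool.Agent.Lib.MP_7c08ba_nt.T1.LDUP
import Pool.Agent.Lib.MP_7c08ba_nt.T1.LLAD
import Pool.Agent.Lib.MP_7c08ba_nt.T1.LLCA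
import Pool.Agent.Lib.MP_7c08ba_nt.T1.LLFN
import Pool.Agent.Lib.MP_7c08ba_nt.T1.LLNZ
import Pool.Agent.Lib.MP_7c08ba_nt.T1.LLOG
import Pool.Agent.Lib.MP_7c08ba_nt.T1.LLOS
import Pool.Agent.Lib.MP_7c08ba_nt.T1.LLOT
import Pool.Agent.Lib.MP_7c08ba_nt.T1.LLSH
import Pool.Agent.Lib.MP_7c08ba_nt.T1.LLSPV
import Pool.Agent.Lib.MP_7c08ba_nt.T1.LN3V
import Pool.Agent.Lib.MP_7c08ba_nt.T1.LN4V
import Pool.Agent.Lib.MP_7c08ba_nt.T1.LN5V
import Pool.Agent.Lib.MP_7c08ba_nt.T1.LPAI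
import Pool.Agent.Lib.MP_7c08ba_nt.T1.LSYG
import Pool.Agent.Lib.MP_7c08ba_nt.T1.YANNT
import Pool.Agent.Lib.MP_7c08ba_nt.T1.YCNT
import Pool.Agent.Lib.MP_7c08ba_nt.T1.YEFM
import Pool.Agent.Lib.MP_7c08ba_nt.T1.YEFT
import Pool.Agent.Lib.MP_7c08ba_nt.T1.YFRG
import Pool.Agent.Lib.MP_7c08ba_nt.T1.YGDI
import Pool.Agent.Lib.MP_7c08ba_nt.T1.YGFN
import Pool.Agent.Lib.MP_7c08ba_nt.T1.YINDT
import Pool.Agent.Lib.MP_7c08ba_nt.T1.YISO
import Pool.Agent.Lib.MP_7c08ba_nt.T1.YLKT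
import Pool.Agent.Lib.MP_7c08ba_nt.T1.YLNAT
import Pool.Agent.Lib.MP_7c08ba_nt.T1.YLNBT
import Pool.Agent.Lib.MP_7c08ba_nt.T1.YMAPP
import Pool.Agent.Lib.MP_7c08ba_nt.T1.YMAPS
import Pool.Agent.Lib.MP_7c08ba_nt.T1.YQUOI
import Pool.Agent.Lib.MP_7c08ba_nt.T1.YQUOP
import Pool.Agent.Lib.MP_7c08ba_nt.T1.YRED
import Pool.Agent.Lib.MP_7c08ba_nt.T1.YSDT
import Pool.Agent.Lib.MP_7c08ba_nt.T1.YYR

set_option autoImplicit false

/-!
Parity for general residual representations: assembly of all modules.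
-/

noncomputable section

namespace BKT.All

open BKT

/-! ### Additive functions -/

theorem qis : StQis := stQis
theorem lat : StLat := stLat qis
theorem arc : StArc := stArc
theorem dec : StDec := stDec lat
theorem inm : StInm := stInm
theorem cyc : StCyc := stCyc
theorem art : StArt := stArt arc dec inm cyc

/-! ### The local theory -/

theorem lspV : StLspV := stLspV
theorem n3V : StN3V := stN3V BKLoc2.aKH BKLoc2.stEig BKLoc2.stLsT lspV
theorem crV : StCrV := stCrV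
theorem n4V : StN4V := stN4V
theorem syg : StSyg := stSyg
theorem dup : StDup := stDup
theorem lfn : StLfn := stLfn
theorem lsh : StLsh := stLsh
theorem pai : StPai := stPai

/-! ### Good modules -/

theorem annT : StAnnT := stAnnT BKMet.All.dual
theorem lnaT : StLnaT := stLnaT annT
theorem lnbT : StLnbT := stLnbT annT
theorem indT : StIndT := stIndT lnaT lnbT
theorem mapS : StMapS := stMapS
theorem quoI : StQuoI := stQuoI pai mapS
theorem gdi : StGdi := stGdi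
theorem red : StRed := stRed
theorem gfn : StGfn := stGfn lsh
theorem cnt : StCnt :=
  stCnt BKMet.All.ct BKMet.All.swap BKMet.All.perp BKMet.All.exact' BKMet.All.dual
theorem iso : StIso := stIso
theorem quoP : StQuoP := stQuoP
theorem frg : StFrg := stFrg

/-! ### The global arithmetic -/

theorem bc : StBc := stBc
theorem pri : StPri := stPri
theorem sitb : StSitb := stSitb pri
theorem twa : StTwa := stTwa bc sitb BKV.aTW
theorem ona : StOna := stOna bc sitb BKV.aON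
theorem shi : StShi := stShi
theorem glt : StGlt := stGlt twa ona shi BKGlob2.stCJ BKGlob2.stCV BKGlob2.stCP
theorem pwt : StPwt := stPwt
theorem pnt : StPnt := stPnt
theorem rkt : StRkt := stRkt
theorem cut : StCut := stCut BKGlob2.stMU BKGlob2.stMI pwt pnt rkt
theorem cgx : StCgx := stCgx
theorem uaa : StUaa := stUaa
theorem cea : StCea := stCea bc sitb BKV.aCE BKV.stCT
theorem gca : StGca := stGca BKGlob2.stUA uaa cea cgx cut lsh
theorem uit : StUit := stUit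

/-! ### Groups -/

theorem gamT : StGamT := stGamT
theorem cupXT : StCupXT := stCupXT BKMet.stRL
theorem jhT : StJhT := stJhT
theorem lattT : StLattT := stLattT jhT
theorem u0T : StU0T := stU0T
theorem unrT : StUnrT := stUnrT
theorem latM : StLatM := stLatM
theorem nfm : StNfm := stNfm latM

/-! ### The local theory, second part -/

theorem n5V : StN5V := stN5V
theorem lnz : StLnz := stLnz
theorem los : StLos := stLos n3V crV n4V n5V
theorem lot : StLot := stLot syg lnz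
theorem lad : StLad := stLad dup
theorem lca : StLca := stLca art lad lsh pai dup lfn
theorem log' : StLog := stLog los lot lca lfn dup

/-! ### Parity for the groups -/

theorem ramT : StRamT := stRamT
theorem nsdT : StNsdT := stNsdT ramT
theorem descT : StDescT := stDescT
theorem lvT : StLvT := stLvT BKMet.All.lam BKMet.All.mk BKMet.All.limD
theorem locXT : StLocXT := stLocXT lvT
theorem sumH : StSumH := stSumH
theorem sumT : StSumT := stSumT
theorem sumM : StSumM := stSumM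
theorem mtb : StMtb := stMtb latM
theorem weq : StWeq := stWeq mtb

theorem arithT : StArithT := stArithT log' glt gca uit BKGlob2.aLI BKLoc2.stLam BKGlob2.stCY
  BKGlob2.stCP BKGlob2.stCJ BKGlob2.stPL BKGlob2.aPR BKGlob2.stSA BKGlob2.aRE

theorem mapP : StMapP := stMapP
theorem lkT : StLkT := stLkT syg lnz mapP mapS quoI gdi indT red
theorem efM : StEfM := stEfM art lkT cnt iso gfn quoP lnbT lsh pai gdi dup
theorem efT : StEfT := stEfT efM lkT cnt iso gfn quoP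
theorem yR : StYR := stYR frg lkT efT
theorem sDT : StSDT := stSDT yR
theorem parXT : StParXT := stParXT yR sDT gamT BKMet.All.lam BKMet.All.mk
  BKMet.All.lagr BKMet.All.limG
theorem mainXT : StMainXT := stMainXT parXT locXT cupXT
theorem parT : StParT := stParT arithT mainXT u0T descT unrT BKMet.All.lineQ BKMet.stCrysM
  BKMet.stHodM
theorem parH : StParH := stParH parT lattT nsdT
theorem parW : StParW := stParW parT sumH sumT sumM
theorem parW2 : StParW2 := stParW2 parT sumH sumT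
theorem ptf : StPtf := stPtf parH parW2 weq nfm

end BKT.All
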