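import Pool.Agent.Lib.MP_7c08ba_nt.T1.StGN
import Pool.Agent.Lib.MP_7c08ba_nt.Odd.CycL

set_option autoImplicit false

/-!
Parity for general residual representations, part GN: module CNJ, complex conjugation at a place
which is fixed by it.
-/

noncomputable section

namespace BKT

open NumberField
open BKMet
open BKLoc2 (cy Sys)
open BKGlob2 (CC0)

namespace GNCNJ

/-- the number `-1` modulo `p ^ n` as an exponent -/
theorem pow_neg_one {Ω : Type} [Field Ω] {p : ℕ} [Fact p.Prime] (n : ℕ) (ξ : Ω)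
    (hξ : ξ ^ p ^ n = 1) :
    ξ ^ ((((-1 : ℤ_[p]ˣ) : ℤ_[p]).toZModPow n).val) = ξ⁻¹ := by
  have hne : NeZero (p ^ n) := ⟨pow_ne_zero _ (Fact.out : p.Prime).ne_zero⟩
  have h0 : ξ ≠ 0 := by
    rintro rfl
    rw [zero_pow hne.out] at hξ
    exact zero_ne_one hξ
  have h1 : p ^ n ∣ (((-1 : ℤ_[p]ˣ) : ℤ_[p]).toZModPow n).val + 1 := by
    rw [← ZMod.natCast_eq_zero_iff, Nat.cast_add, ZMod.natCast_val, ZMod.cast_id, Nat.cast_one,
      Units.val_neg, Units.val_one, map_neg, map_one, neg_add_cancel]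
  obtain ⟨c, hc⟩ := h1
  have h2 : ξ ^ ((((-1 : ℤ_[p]ˣ) : ℤ_[p]).toZModPow n).val) * ξ = 1 := by
    rw [← pow_succ, hc, pow_mul, hξ, one_pow]
  exact eq_inv_of_mul_eq_one_left h2

/-- the cyclotomic character of complex conjugation -/
theorem cyc_conj {Ω : Type} [Field Ω] [IsAlgClosed Ω] [CharZero Ω] {p : ℕ} [Fact p.Prime]
    {z : ℕ → Ω} (hz : Sys p z) (c : Ω ≃+* Ω) (hc : ∀ n, c (z n) = (z n)⁻¹) :
    cyclotomicCharacter Ω p c = -1 := by
  apply BKOdd.CycLAux.eq_of (Ω := Ω)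
  intro n ξ hξ
  have hne : NeZero (p ^ n) := ⟨pow_ne_zero _ (Fact.out : p.Prime).ne_zero⟩
  rw [← BKOdd.CycLAux.act n ξ hξ.pow_eq_one c, pow_neg_one n ξ hξ.pow_eq_one]
  obtain ⟨i, -, rfl⟩ := (hz.prim n).eq_pow_of_pow_eq_one hξ.pow_eq_one
  rw [map_pow, hc, inv_pow]

section

variable {F : Type} [Field F] [NumberField F] {l : ℕ} [Fact l.Prime]

instance normal_closure : Normal ℚ (AlgebraicClosure F) := by
  have h1 : Algebra.IsAlgebraic ℚ (AlgebraicClosure F) :=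
    Algebra.IsAlgebraic.trans ℚ F (AlgebraicClosure F)
  have h2 : IsAlgClosure ℚ (AlgebraicClosure F) := ⟨inferInstance, h1⟩
  exact IsAlgClosure.normal ℚ (AlgebraicClosure F)

/-- a ring automorphism as an automorphism over `ℚ` -/
def toQ {Ω : Type} [Field Ω] [CharZero Ω] (c : Ω ≃+* Ω) : Ω ≃ₐ[ℚ] Ω :=
  AlgEquiv.ofRingEquiv (f := c) (fun r => by rw [eq_ratCast, map_ratCast])

theorem toQ_apply {Ω : Type} [Field Ω] [CharZero Ω] (c : Ω ≃+* Ω) (x : Ω) : toQ c x = c x := rfl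

/-- the restriction of an automorphism to the algebraic closure of `F` -/
theorem exists_res (j : AlgebraicClosure F →+* PadicAlgCl l) (t : GQ l) :
    ∃ s : AlgebraicClosure F ≃ₐ[ℚ] AlgebraicClosure F, ∀ x, j (s x) = t (j x) := by
  let a : Algebra (AlgebraicClosure F) (PadicAlgCl l) := j.toAlgebra
  have c : IsScalarTower ℚ (AlgebraicClosure F) (PadicAlgCl l) := inferInstance
  let τ : PadicAlgCl l ≃ₐ[ℚ] PadicAlgCl l := toQ t.toRingEquiv
  exact ⟨τ.restrictNormal (AlgebraicClosure F), fun x =>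
    τ.restrictNormal_commutes (AlgebraicClosure F) x⟩

/-- two automorphisms which are not trivial on `F` agree on `F` -/
theorem agree (hF : Module.finrank ℚ F = 2)
    (g h : AlgebraicClosure F ≃ₐ[ℚ] AlgebraicClosure F)
    (hg : ∃ a : F, g (algebraMap F (AlgebraicClosure F) a) ≠ algebraMap F (AlgebraicClosure F) a)
    (hh : ∃ a : F, h (algebraMap F (AlgebraicClosure F) a) ≠ algebraMap F (AlgebraicClosure F) a)
    (a : F) : g (algebraMap F (AlgebraicClosure F) a) =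
      h (algebraMap F (AlgebraicClosure F) a) := by
  have : Algebra.IsQuadraticExtension ℚ F := ⟨hF⟩
  have hn : Normal ℚ F := Algebra.IsQuadraticExtension.normal ℚ F
  have : IsGalois ℚ F := ⟨⟩
  have hcard : Nat.card (F ≃ₐ[ℚ] F) = 2 := by
    rw [IsGalois.card_aut_eq_finrank, hF]
  obtain ⟨τ, -, hτ⟩ := (Nat.card_eq_two_iff' (1 : F ≃ₐ[ℚ] F)).1 hcard
  have hkey : ∀ f : AlgebraicClosure F ≃ₐ[ℚ] AlgebraicClosure F,
      (∃ a : F, f (algebraMap F (AlgebraicClosure F) a) ≠ algebraMap F (AlgebraicClosure F) a) →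
      f.restrictNormal F = τ := by
    rintro f ⟨b, hb⟩
    refine hτ _ fun h1 => hb ?_
    rw [← AlgEquiv.restrictNormal_commutes, h1]
    rfl
  rw [← AlgEquiv.restrictNormal_commutes, ← AlgEquiv.restrictNormal_commutes, hkey g hg,
    hkey h hh]

end

end GNCNJ

open GNCNJ in
/-- Module CNJ. -/
theorem stCnj (hN : StNpl) (hCJ : BKGlob2.StCJ) (hCY : BKGlob2.StCY) : StCnj := by
  intro p _ hp2 F _ _ hF hR c₀ cc hcc Ξ k
  obtain ⟨-, h1⟩ := hCJ F hF hR c₀ hcc.conj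
  obtain ⟨-, -, -, h2, -⟩ := h1 cc hcc
  obtain ⟨-, hz⟩ := h2 p hp2
  obtain ⟨-, -, hidx, -⟩ := (hN F hF).2 Ξ k
  obtain ⟨⟨z, hSys⟩, -⟩ := hCY p ℚ (AlgebraicClosure F) ℚ (AlgebraicClosure F)
  have hcyc := cyc_conj hSys c₀ (hz z hSys)
  -- an element outside the decomposition group
  obtain ⟨t, ht⟩ : ∃ t : GQ (Ξ.m k), t ∉ Ξ.V k := by
    by_contra h
    push Not at h
    exact Ξ.ne k ((Subgroup.eq_top_iff' _).2 h)
  have htt : t * t ∈ Ξ.V k := Subgroup.mul_self_mem_of_index_two hidx t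
  obtain ⟨g, hg⟩ := exists_res (Ξ.j k) t
  have hg' : ∀ x, Ξ.j k (g⁻¹ x) = t⁻¹ (Ξ.j k x) := by
    intro x
    have h3 := hg (g⁻¹ x)
    have h4 : g (g⁻¹ x) = x := AlgEquiv.apply_symm_apply g x
    rw [h4] at h3
    rw [h3]
    exact (AlgEquiv.symm_apply_apply t _).symm
  have hgne : ∃ a : F, g (algebraMap F (AlgebraicClosure F) a) ≠
      algebraMap F (AlgebraicClosure F) a := by
    by_contra h
    push Not at h
    refine ht ((Ξ.mem k t).2 fun a => ?_)
    rw [← hg, h a]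
  -- the element `h`
  let C : AlgebraicClosure F ≃ₐ[ℚ] AlgebraicClosure F := toQ c₀
  have hC : ∀ x, C x = c₀ x := fun x => rfl
  have hCC : C * C = 1 := by
    ext x
    exact hcc.conj.1 x
  have hCinv : C⁻¹ = C := inv_eq_of_mul_eq_one_left hCC
  have hH : ∀ a : F, (C * g⁻¹) (algebraMap F (AlgebraicClosure F) a) =
      algebraMap F (AlgebraicClosure F) a := by
    have h3 : ∀ a : F, C (algebraMap F (AlgebraicClosure F) a) =
        g (algebraMap F (AlgebraicClosure F) a) := agree hF C g hcc.conj.2 hgne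
    obtain ⟨σ, hσ⟩ : ∃ σ : F ≃ₐ[ℚ] F, ∀ a, g (algebraMap F (AlgebraicClosure F) a) =
        algebraMap F (AlgebraicClosure F) (σ a) := by
      have : Algebra.IsQuadraticExtension ℚ F := ⟨hF⟩
      have hn : Normal ℚ F := Algebra.IsQuadraticExtension.normal ℚ F
      exact ⟨g.restrictNormal F, fun a => (AlgEquiv.restrictNormal_commutes g F a).symm⟩
    intro a
    have h4 : g⁻¹ (algebraMap F (AlgebraicClosure F) a) =
        algebraMap F (AlgebraicClosure F) (σ.symm a) := by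
      have h5 : g (algebraMap F (AlgebraicClosure F) (σ.symm a)) =
          algebraMap F (AlgebraicClosure F) a := by
        rw [hσ, AlgEquiv.apply_symm_apply]
      rw [← h5]
      exact AlgEquiv.symm_apply_apply g _
    change C (g⁻¹ (algebraMap F (AlgebraicClosure F) a)) = _
    rw [h4, h3, hσ, AlgEquiv.apply_symm_apply]
  let h : GF F := AlgEquiv.ofRingEquiv (f := (C * g⁻¹).toRingEquiv) hH
  have hh : ∀ x, h x = C (g⁻¹ x) := fun x => rfl
  have hhinv : ∀ x, h⁻¹ x = g (C x) := by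
    intro x
    have h3 : h (g (C x)) = x := by
      rw [hh]
      have h4 : g⁻¹ (g (C x)) = C x := AlgEquiv.symm_apply_apply g _
      rw [h4]
      exact hcc.conj.1 x
    conv_lhs => rw [← h3]
    exact AlgEquiv.symm_apply_apply h _
  have hcceq : ∀ (f : GF F) x, cc f x = C (f (C x)) := by
    intro f x
    have h3 := hcc.eq f (c₀ x)
    rw [hcc.conj.1] at h3
    exact h3
  refine ⟨t, h, ⟨t * t, htt⟩, ht, rfl, ?_, ?_, ?_⟩
  · intro d d' hd
    have h3 : ∀ y, Ξ.r k d' y = g (Ξ.r k d (g⁻¹ y)) := by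
      intro y
      apply (Ξ.j k).injective
      rw [Ξ.spec, hg, Ξ.spec, hg', hd]
      rfl
    ext x
    rw [hcceq]
    change _ = h (Ξ.r k d' (h⁻¹ x))
    rw [hhinv, h3, hh]
    have h4 : ∀ y, g⁻¹ (g y) = y := fun y => AlgEquiv.symm_apply_apply g y
    rw [h4, h4]
  · have h3 : ∀ y, Ξ.r k ⟨t * t, htt⟩ y = g (g y) := by
      intro y
      apply (Ξ.j k).injective
      rw [Ξ.spec, hg, hg]
      rfl
    rw [eq_inv_iff_mul_eq_one]
    ext x
    change cc h (h (Ξ.r k ⟨t * t, htt⟩ x)) = x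
    have h4 : ∀ y, g⁻¹ (g y) = y := fun y => AlgEquiv.symm_apply_apply g y
    have h5 : ∀ y, C (C y) = y := fun y => hcc.conj.1 y
    rw [hcceq, h3, hh, h5, hh, h4, h5, h4]
  · obtain ⟨-, h3⟩ := hCY p ℚ (AlgebraicClosure F) ℚ_[Ξ.m k] (PadicAlgCl (Ξ.m k))
    have h4 : cy p ℚ (AlgebraicClosure F) g = cycL p (Ξ.m k) t := h3 (Ξ.j k) g t hg
    have h5 : cycF p F h = cy p ℚ (AlgebraicClosure F) (C * g⁻¹) := rfl
    have h6 : cy p ℚ (AlgebraicClosure F) C = -1 := hcyc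
    rw [h5, map_mul, map_inv, h4, h6, inv_mul_cancel_right]

end BKT
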