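import Pool.Agent.Lib.MP_7c08ba_nt.T1.StGN
import Pool.Agent.Lib.MP_7c08ba_nt.Met.HPN
import Pool.Agent.Lib.MP_7c08ba_nt.Met.HPW

set_option autoImplicit false

/-!
Parity for general residual representations and arbitrary ramification at the primes which do not
split, part GN, module MIX: the family of all places.
-/

noncomputable section

namespace BKT

open NumberField IsDedekindDomain BKGen BKGen.SUnits
open BKMet
open BKGlob2 (Cp fs sn CC0 StCJ StPA jw)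

namespace GNMIX

/-! ### Decomposition groups -/

section Dec

variable {F : Type} [Field F] {l : ℕ} [Fact l.Prime]

/-- the decomposition group of `j` if `t ∘ j = J ∘ g` -/
theorem fs_eq {D : Type} [Group D] {J j : AlgebraicClosure F →+* PadicAlgCl l} {r : D →* GF F}
    {q : D →* GQ l} (hs : ∀ (d : D) (x : AlgebraicClosure F), J (r d x) = q d (J x)) {t : GQ l}
    {g : GF F} (hg : ∀ z, t (j z) = J (g z)) (d : Cp (MonoidHom.id (GF F)) j) (d' : D)
    (hd : q d' = t * sn (MonoidHom.id (GF F)) j d * t⁻¹) :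
    fs (MonoidHom.id (GF F)) j d = g⁻¹ * r d' * g := by
  rw [eq_comm, mul_assoc, inv_mul_eq_iff_eq_mul]
  refine AlgEquiv.ext fun z => ?_
  apply J.injective
  have h1 : j (fs (MonoidHom.id (GF F)) j d z) = sn (MonoidHom.id (GF F)) j d (j z) :=
    BKGlob2.Cp_rel (MonoidHom.id (GF F)) j d z
  rw [AlgEquiv.mul_apply, AlgEquiv.mul_apply, hs, hd, ← hg, ← hg, h1, AlgEquiv.mul_apply,
    AlgEquiv.mul_apply, ← AlgEquiv.mul_apply t⁻¹ t, inv_mul_cancel, AlgEquiv.one_apply]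

/-- elements of the decomposition group fix `F` -/
theorem sn_fix {j : AlgebraicClosure F →+* PadicAlgCl l} (d : Cp (MonoidHom.id (GF F)) j) (a : F) :
    sn (MonoidHom.id (GF F)) j d (j (algebraMap F (AlgebraicClosure F) a)) =
      j (algebraMap F (AlgebraicClosure F) a) := by
  have h1 : j (fs (MonoidHom.id (GF F)) j d (algebraMap F (AlgebraicClosure F) a)) =
    sn (MonoidHom.id (GF F)) j d (j (algebraMap F (AlgebraicClosure F) a)) :=
    BKGlob2.Cp_rel (MonoidHom.id (GF F)) j d _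
  rw [← h1, AlgEquiv.commutes]

theorem continuous_sn (j : AlgebraicClosure F →+* PadicAlgCl l) :
    Continuous (sn (MonoidHom.id (GF F)) j) :=
  continuous_snd.comp continuous_subtype_val

end Dec

section Main

variable {F : Type} [Field F] {Λ : Pl F} {Ξ : Npl F}
  {c₀ : AlgebraicClosure F ≃+* AlgebraicClosure F} {cc : GF F →* GF F}

/-- the prime of the place `w` -/
theorem inl_eq (i : Λ.ι) (b : Bool) :
    rM Λ Ξ (MonoidHom.id (GF F)) cc (Sum.inl (i, b)) =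
      Λ.loc (MonoidHom.id (GF F)) cc (i, b) := by
  cases b
  · rfl
  · rfl

theorem spec (hc : CC0 c₀ cc) (w : (Λ.ι × Bool) ⊕ Ξ.κ) (d : MD Λ Ξ w)
    (x : AlgebraicClosure F) :
    jM Λ Ξ c₀ w (rM Λ Ξ (MonoidHom.id (GF F)) cc w d x) = qM Λ Ξ w d (jM Λ Ξ c₀ w x) := by
  rcases w with ⟨i, b⟩ | k
  · rw [inl_eq]
    exact BKGlob2.PNAux.jw_loc hc (i, b) d x
  · exact Ξ.spec k d x

theorem cont (hcc : Continuous cc) (w : (Λ.ι × Bool) ⊕ Ξ.κ) :
    Continuous (rM Λ Ξ (MonoidHom.id (GF F)) cc w) := by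
  rcases w with ⟨i, b⟩ | k
  · cases b
    · exact Λ.cont i
    · exact hcc.comp (Λ.cont i)
  · exact Ξ.cont k

theorem full (hc : CC0 c₀ cc) (w : (Λ.ι × Bool) ⊕ Ξ.κ) (g : GF F) (t : GQ (mm' Λ Ξ w))
    (h : ∀ x, jM Λ Ξ c₀ w (g x) = t (jM Λ Ξ c₀ w x)) :
    ∃ d : MD Λ Ξ w, rM Λ Ξ (MonoidHom.id (GF F)) cc w d = g ∧ qM Λ Ξ w d = t := by
  have key : ∀ d : MD Λ Ξ w, qM Λ Ξ w d = t →
      rM Λ Ξ (MonoidHom.id (GF F)) cc w d = g := by
    intro d hd
    refine AlgEquiv.ext fun x => ?_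
    apply (jM Λ Ξ c₀ w).injective
    rw [spec hc, hd, h]
  suffices hs : ∃ d : MD Λ Ξ w, qM Λ Ξ w d = t by
    obtain ⟨d, hd⟩ := hs
    exact ⟨d, key d hd, hd⟩
  rcases w with ⟨i, b⟩ | k
  · exact ⟨t, rfl⟩
  · refine ⟨⟨t, (Ξ.mem k t).2 fun a => ?_⟩, rfl⟩
    have h1 := h (algebraMap F (AlgebraicClosure F) a)
    rw [AlgEquiv.commutes] at h1
    exact h1.symm

variable [NumberField F]

/-- the restriction of the embedding to `F` -/
def jF (Λ : Pl F) (Ξ : Npl F) (c₀ : AlgebraicClosure F ≃+* AlgebraicClosure F)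
    (w : (Λ.ι × Bool) ⊕ Ξ.κ) : F →+* PadicAlgCl (mm' Λ Ξ w) :=
  (jM Λ Ξ c₀ w).comp (algebraMap F (AlgebraicClosure F))

theorem dist (hPA : StPA) (hc : CC0 c₀ cc) (hs : ∀ i, Splits F (Λ.l i))
    (hn : ∀ k, ¬ Splits F (Ξ.m k)) (w w' : (Λ.ι × Bool) ⊕ Ξ.κ)
    (h : pl (jF Λ Ξ c₀ w) = pl (jF Λ Ξ c₀ w')) : w = w' := by
  have hl : mm' Λ Ξ w = mm' Λ Ξ w' := BKGlob2.HPW.char_eq h
  rcases w with ⟨i, b⟩ | k <;> rcases w' with ⟨i', b'⟩ | k'
  · obtain rfl : i = i' := Λ.inj hl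
    obtain ⟨t, ht⟩ := hPA F (Λ.l i) _ _ h
    obtain ⟨a, ha⟩ := hc.conj.2
    have h1 := ht a
    cases b <;> cases b'
    · rfl
    · exfalso
      change Λ.j i (c₀ (algebraMap F (AlgebraicClosure F) a)) =
        t (Λ.j i (algebraMap F (AlgebraicClosure F) a)) at h1
      rw [BKGlob2.HPW.fixF Λ i t a] at h1
      exact ha ((Λ.j i).injective h1)
    · exfalso
      change Λ.j i (algebraMap F (AlgebraicClosure F) a) =
        t (Λ.j i (c₀ (algebraMap F (AlgebraicClosure F) a))) at h1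
      rw [← BKGlob2.HPW.fixF Λ i t a] at h1
      exact ha ((Λ.j i).injective (t.injective h1)).symm
    · rfl
  · exfalso
    apply hn k'
    have e : Λ.l i = Ξ.m k' := hl
    rw [← e]
    exact hs i
  · exfalso
    apply hn k
    have e : Ξ.m k = Λ.l i' := hl
    rw [e]
    exact hs i'
  · obtain rfl : k = k' := Ξ.inj hl
    rfl

theorem covN (hF : Module.finrank ℚ F = 2) (hc : CC0 c₀ cc) (k : Ξ.κ)
    (j : AlgebraicClosure F →+* PadicAlgCl (Ξ.m k)) :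
    ∃ g : GF F, (∀ x, ‖j x‖ = ‖Ξ.j k (g x)‖) ∧
      ∃ s : Cp (MonoidHom.id (GF F)) j →* Ξ.V k, Continuous s ∧
        ∀ d, fs (MonoidHom.id (GF F)) j d = g⁻¹ * Ξ.r k (s d) * g := by
  obtain ⟨t, g, hg⟩ : ∃ (t : GQ (Ξ.m k)) (g : GF F), ∀ z, t (j z) = Ξ.j k (g z) := by
    rcases BKGlob2.PNAux.two_pl hF (Ξ.j k) c₀ hc.conj j with ⟨g, hg⟩ | ⟨g, hg⟩
    · exact ⟨1, g, hg⟩
    · obtain ⟨t, -, ht⟩ := SetLike.exists_of_lt (lt_top_iff_ne_top.2 (Ξ.ne k))
      have h1 : ∀ a : F, t (Ξ.j k (algebraMap F (AlgebraicClosure F) a)) =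
          Ξ.j k (c₀ (algebraMap F (AlgebraicClosure F) a)) := by
        rcases BKGlob2.PNAux.two_pl hF (Ξ.j k) c₀ hc.conj
          ((t : PadicAlgCl (Ξ.m k) →+* PadicAlgCl (Ξ.m k)).comp (Ξ.j k)) with
          ⟨g', hg'⟩ | ⟨g', hg'⟩
        · exfalso
          apply ht
          rw [Ξ.mem]
          intro a
          have h2 := hg' (algebraMap F (AlgebraicClosure F) a)
          rw [AlgEquiv.commutes] at h2
          exact h2
        · intro a
          have h2 := hg' (algebraMap F (AlgebraicClosure F) a)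
          rw [AlgEquiv.commutes] at h2
          exact h2
      obtain ⟨g', hg'⟩ := BKGlob2.PNAux.exists_gal (Ξ.j k)
        (((t⁻¹ : GQ (Ξ.m k)) : PadicAlgCl (Ξ.m k) →+* PadicAlgCl (Ξ.m k)).comp j) (by
          intro a
          change t⁻¹ (j (algebraMap F (AlgebraicClosure F) a)) = _
          rw [hg, AlgEquiv.commutes, ← h1, ← AlgEquiv.mul_apply, inv_mul_cancel,
            AlgEquiv.one_apply])
      exact ⟨t⁻¹, g', hg'⟩
  have hmem : ∀ d : Cp (MonoidHom.id (GF F)) j,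
      t * sn (MonoidHom.id (GF F)) j d * t⁻¹ ∈ Ξ.V k := by
    intro d
    rw [Ξ.mem]
    intro a
    have h1 : Ξ.j k (algebraMap F (AlgebraicClosure F) a) =
        t (j (algebraMap F (AlgebraicClosure F) a)) := by
      rw [hg, AlgEquiv.commutes]
    rw [h1, AlgEquiv.mul_apply, AlgEquiv.mul_apply, ← AlgEquiv.mul_apply t⁻¹ t, inv_mul_cancel,
      AlgEquiv.one_apply, sn_fix d a]
  let s₀ : Cp (MonoidHom.id (GF F)) j →* GQ (Ξ.m k) :=
    (MulAut.conj t).toMonoidHom.comp (sn (MonoidHom.id (GF F)) j)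
  have hc₀ : Continuous s₀ :=
    (continuous_const.mul (continuous_sn j)).mul continuous_const
  refine ⟨g, fun x => ?_, s₀.codRestrict (Ξ.V k) hmem, ?_, fun d => ?_⟩
  · rw [← hg, norm_equiv]
  · exact hc₀.subtype_mk _
  · exact fs_eq (t := t) (q := (Ξ.V k).subtype) (Ξ.spec k) hg d _ rfl

theorem cov (hF : Module.finrank ℚ F = 2) (hc : CC0 c₀ cc) (w₀ : (Λ.ι × Bool) ⊕ Ξ.κ)
    (j : AlgebraicClosure F →+* PadicAlgCl (mm' Λ Ξ w₀)) :
    ∃ (w : (Λ.ι × Bool) ⊕ Ξ.κ) (g : GF F), (∀ x, ‖j x‖ = ‖jM Λ Ξ c₀ w (g x)‖) ∧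
      ∃ s : Cp (MonoidHom.id (GF F)) j →* MD Λ Ξ w, Continuous s ∧
        ∀ d, fs (MonoidHom.id (GF F)) j d =
          g⁻¹ * rM Λ Ξ (MonoidHom.id (GF F)) cc w (s d) * g := by
  rcases w₀ with ⟨i, b⟩ | k
  · have key : ∀ (b : Bool) (g : GF F), (∀ z, j z = jM Λ Ξ c₀ (Sum.inl (i, b)) (g z)) →
        ∃ (w : (Λ.ι × Bool) ⊕ Ξ.κ) (g : GF F), (∀ x, ‖j x‖ = ‖jM Λ Ξ c₀ w (g x)‖) ∧
        ∃ s : Cp (MonoidHom.id (GF F)) j →* MD Λ Ξ w, Continuous s ∧
          ∀ d, fs (MonoidHom.id (GF F)) j d =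
            g⁻¹ * rM Λ Ξ (MonoidHom.id (GF F)) cc w (s d) * g := by
      intro b g hg
      refine ⟨Sum.inl (i, b), g, fun x => ?_, sn (MonoidHom.id (GF F)) j,
        continuous_sn j, fun d => ?_⟩
      · rw [hg]
        rfl
      · refine fs_eq (t := 1) (q := qM Λ Ξ (Sum.inl (i, b)))
          (spec hc (Sum.inl (i, b))) (fun z => hg z) d _ ?_
        rw [one_mul, inv_one, mul_one]
        rfl
    rcases BKGlob2.PNAux.two_pl hF (Λ.j i) c₀ hc.conj j with ⟨g, hg⟩ | ⟨g, hg⟩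
    · exact key false g hg
    · exact key true g hg
  · obtain ⟨g, h1, s, h2, h3⟩ := covN hF hc k j
    exact ⟨Sum.inr k, g, h1, s, h2, h3⟩

end Main

end GNMIX

open GNMIX in
/-- **Module MIX.** -/
theorem stMix (h1 : StCJ) (h2 : StPA) (h3 : StNpl) : StMix := by
  intro F _ _ hF hI c₀ cc hc Λ Ξ hs
  obtain ⟨-, hn⟩ := h3 F hF
  obtain ⟨hcc, -⟩ := (h1 F hF hI c₀ hc.conj).2 cc hc
  constructor
  · refine
      { cont := fun w => cont hcc w
        spec := fun w d x => spec hc w d x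
        full := fun w g t h => full hc w g t h
        dist := fun w w' h => ?_
        cov := fun l _ hl j => ?_ }
    · apply dist h2 hc hs (fun k => (hn Ξ k).2.2.2) w w'
      apply HeightOneSpectrum.ext
      ext a
      rw [mem_pl, mem_pl]
      exact h a
    · obtain ⟨w₀, rfl⟩ := hl
      exact cov hF hc w₀ j
  · ext l
    constructor
    · rintro ⟨w, rfl⟩
      rcases w with w | k
      · exact Or.inl ⟨w.1, rfl⟩
      · exact Or.inr ⟨k, rfl⟩
    · rintro (⟨i, rfl⟩ | ⟨k, rfl⟩)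
      · exact ⟨Sum.inl (i, false), rfl⟩
      · exact ⟨Sum.inr k, rfl⟩

end BKT
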