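import Pool.Agent.Lib.MP_7c08ba_nt.T1.StGN
import Pool.Agent.Lib.MP_7c08ba_nt.T1.GART2
import Pool.Agent.Lib.MP_7c08ba_nt.T1.LLOT
import Pool.Agent.Lib.MP_7c08ba_nt.T1.LCRV

set_option autoImplicit false

/-!
Parity for general residual representations and arbitrary ramification at the primes which do not
split, module NAR: the arithmetic theorem.
-/

noncomputable section

namespace BKT

open NumberField IsDedekindDomain BKGen
open BKPar (Loc1 Loc2)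
open BKND (Sm)
open BKMet
open BKLoc2 (Sys IsLam StTRM stTRM corM2)
open BKGlob2 (Cp fs CC0 Prin SP InvL StLI StCY StCP StCJ StPL StPR StRE StSA)
open BKV (RU GU dc)

namespace GNNAR

/-- the primes which split -/
theorem primes (hPR : StPR) (hSA : StSA) {F : Type} [Field F] [NumberField F] (P₀ : Set ℕ)
    (hP₀ : P₀.Finite) (U : Subgroup (GF F)) [U.Normal] (hU : IsOpen (U : Set (GF F))) :
    ∃ P : Set ℕ, P.Finite ∧ P.Nonempty ∧ (∀ l ∈ P, l ∉ P₀ ∧ Splits F l) ∧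
      ∀ P' : Set ℕ, P ⊆ P' → ∀ A' : Subgroup (GF F), U ≤ A' →
      ∀ (E : IntermediateField F (AlgebraicClosure F)) [NumberField E],
        (∀ x, x ∈ E ↔ ∀ g ∈ A', g x = x) → Prin (SP E P') := by
  have hfin := GART2.finite_ge U hU
  choose PA hPA1 hPA2 hPA3 hPA4 using GART2.primes hPR P₀ hP₀ U hU
  obtain ⟨l₁, hl₁⟩ := hPA2 ⟨U, le_rfl⟩
  refine ⟨⋃ A, PA A, Set.finite_iUnion hPA1, ⟨l₁, Set.mem_iUnion.2 ⟨_, hl₁⟩⟩, ?_, ?_⟩
  · intro l hl
    obtain ⟨A, hA⟩ := Set.mem_iUnion.1 hl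
    exact hPA3 A l hA
  · intro P' hP' A' hA' E _ hE
    refine (hSA E).1 _ _ ?_ (hPA4 ⟨A', hA'⟩ E hE)
    rintro v ⟨l, hl, hv⟩
    exact ⟨l, hP' (Set.mem_iUnion.2 ⟨_, hl⟩), hv⟩

/-- the maps to `G` at all places -/
theorem loc_eq {F : Type} [Field F] (Λ : Pl F) (Ξ : Npl F)
    (c₀ : AlgebraicClosure F ≃+* AlgebraicClosure F) (cc : GF F →* GF F) {G : Type} [Group G]
    (π : GF F →* G) (c : G →* G) (h : ∀ g, c (π g) = π (cc g)) :
    (mix Λ Ξ c₀ cc).loc π = rM Λ Ξ π c := by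
  funext w
  rcases w with ⟨i, b⟩ | k
  · cases b
    · rfl
    · refine MonoidHom.ext fun d => ?_
      exact (h (Λ.r i d)).symm
  · rfl

section Inv

variable {p l : ℕ} [Fact p.Prime] [Fact l.Prime] (V : Subgroup (GQ l))

/-- the transfer of a coboundary -/
theorem cor_b2 (hV : IsOpen (V : Set (GQ l))) :
    ∀ w ∈ BKND.B2 (actA ((cycL p l).comp V.subtype)),
      corM2 V (actA (cycL p l)) w ∈ BKND.B2 (actA (cycL p l)) := by
  have hfin : Finite (GQ l ⧸ V) := V.quotient_finite_of_isOpen hV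
  have hsm : BKND.Sm (LCRV.trivZ (GQ l)) := ⟨⊤, isOpen_univ, fun _ _ => rfl⟩
  obtain ⟨-, -, h3, -, -, -⟩ := stTRM (GQ l) V hV hfin (QZ p) ℤ (QZ p) (actA (cycL p l))
    (LCRV.trivZ (GQ l)) (actA (cycL p l)) (LCRV.bZ p) hsm
    (fun n => ⟨⊤, isOpen_univ, fun _ _ => rfl⟩) (by
      intro g n n'
      change n' • actA (cycL p l) g n = actA (cycL p l) g (n' • n)
      rw [map_zsmul])
  exact h3

theorem z2_act (t : GQ l) {z : V → V → QZ p}
    (hz : z ∈ BKND.Z2 (actA ((cycL p l).comp V.subtype))) :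
    (fun g g' => actA (cycL p l) t (z g g')) ∈
      BKND.Z2 (actA ((cycL p l).comp V.subtype)) := by
  obtain ⟨⟨W, hW, h1⟩, h2⟩ := hz
  refine ⟨⟨W, hW, fun g h w hw w' hw' => ?_⟩, fun g h k => ?_⟩
  · change actA (cycL p l) t (z (g * w) (h * w')) = actA (cycL p l) t (z g h)
    rw [h1 g h w hw w' hw']
  · have h3 := congrArg (actA (cycL p l) t) (h2 g h k)
    have h4 : actA (cycL p l) t (actA ((cycL p l).comp V.subtype) g (z h k)) =
        actA ((cycL p l).comp V.subtype) g (actA (cycL p l) t (z h k)) := by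
      rw [actA_apply, actA_apply, actA_apply, actA_apply, smul_comm]
    simp only [map_add, map_sub, map_zero, h4] at h3 ⊢
    exact h3

end Inv

section Main

variable {p l : ℕ} [Fact p.Prime] [Fact l.Prime] (V : Subgroup (GQ l))

/-- the kernel of the invariant composed with the transfer -/
theorem inv_ker (hp : p ≠ 2) (hNcr : StNcr) (hCrV : StCrV) (hV : IsOpen (V : Set (GQ l)))
    (hVi : ¬ p ∣ V.index) {inv : (GQ l → GQ l → QZ p) →+ QZ p}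
    (hinv : ∀ z ∈ BKND.Z2 (actA (cycL p l)), inv z = 0 ↔ z ∈ BKND.B2 (actA (cycL p l))) :
    ∀ z ∈ BKND.Z2 (actA ((cycL p l).comp V.subtype)),
      inv (corM2 V (actA (cycL p l)) z) = 0 ↔
        z ∈ BKND.B2 (actA ((cycL p l).comp V.subtype)) := by
  intro z hz
  rw [hinv _ ((hNcr p l hp V hV hVi).2.1 z hz)]
  exact ⟨hCrV p l hp V hV hVi z hz, cor_b2 V hV z⟩

end Main

end GNNAR

/-- Module NAR: the arithmetic theorem. -/
theorem stArithN (h1 : StLog) (h2 : StNlg) (h3 : StNcj) (h4 : StNcr) (h5 : StUgl) (h6 : StUgc)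
    (h7 : StUit) (h8 : StNre) (h9 : StCnj) (h10 : StNpl) (h11 : StMix) (h12 : StCrV) (hLI : StLI)
    (hLam : BKLoc2.StLam) (hCY : StCY) (hCJ : StCJ) (hPL : StPL) (hPR : StPR) (hSA : StSA) :
    StArithN := by
  intro p _ hp F _ _ hF2 hFreal hFp c₀ hc₀ P₀ hP₀fin hP₀split hpP₀ N₀ hN₀fin hN₀p hN₀s U₀ hU₀n
    hU₀o hU₀ζ hU₀r hU₀c
  classical
  -- the primes
  obtain ⟨P₁, hP₁fin, ⟨l₁, hl₁⟩, hP₁, hprin⟩ := GNNAR.primes hPR hSA P₀ hP₀fin U₀ hU₀o
  have hsplit : ∀ l ∈ P₀ ∪ P₁, Splits F l := by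
    rintro l (hl | hl)
    · exact hP₀split l hl
    · exact (hP₁ l hl).2
  obtain ⟨Λ, hΛ⟩ := hPL F (P₀ ∪ P₁) (hP₀fin.union hP₁fin) hsplit
  obtain ⟨hex, hΞ⟩ := h10 F hF2
  obtain ⟨Ξ, hΞP⟩ := hex N₀ hN₀fin hN₀p hN₀s
  have hPsub : P₀ ⊆ Λ.P := by rw [hΛ]; exact Set.subset_union_left
  have hpΛ : p ∈ Λ.P := hPsub hpP₀
  have hsplitΛ : ∀ i, Splits F (Λ.l i) := fun i => hsplit _ (by rw [← hΛ]; exact ⟨i, rfl⟩)
  have hN2 : ∀ k, ¬ p ∣ (Ξ.V k).index := by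
    intro k hk
    rw [(hΞ Ξ k).2.2.1] at hk
    exact hp ((Nat.prime_dvd_prime_iff_eq Fact.out Nat.prime_two).1 hk)
  have hNp : ∀ k, Ξ.m k ≠ p := by
    intro k hk
    have h := (hΞ Ξ k).2.2.2
    rw [hk] at h
    exact h hFp
  refine ⟨Λ, Ξ, hPsub, hsplitΛ, ⟨l₁, ?_, ?_⟩, hΞP, ?_⟩
  · rw [hΛ]; exact Or.inr hl₁
  · rintro rfl
    exact (hP₁ l₁ hl₁).1 hpP₀
  have hinr : ∀ (l : ℕ) [Fact l.Prime] (j : AlgebraicClosure F →+* PadicAlgCl l),
      l ∉ Λ.P ∪ Ξ.P →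
      ∀ g ∈ Inert F (AlgebraicClosure F) j, ∃ m : ℕ, ¬ p ∣ m ∧ g ^ m ∈ U₀ :=
    fun l _ j hl g hg => hU₀r l j (fun h => hl (Or.inl (hPsub h)))
      (fun h => hl (Or.inr (by rw [hΞP]; exact h))) g hg
  have hsit : SitT p F (Λ.P ∪ Ξ.P) U₀ :=
    { odd := hp
      memP := Or.inl hpΛ
      finP := by rw [hΛ, hΞP]; exact (hP₀fin.union hP₁fin).union hN₀fin
      prime := by
        rintro l (hl | hl)
        · obtain ⟨h, -⟩ := hsplit l (by rw [← hΛ]; exact hl)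
          exact h.out
        · exact hN₀p l (by rw [← hΞP]; exact hl)
      open' := hU₀o
      normal := hU₀n
      root := hU₀ζ
      inr := hinr
      prin := hprin _ (by rw [hΛ]; exact fun l hl => Or.inl (Or.inr hl)) }
  intro χ c hχ hc
  obtain ⟨⟨cc, hcc⟩, -⟩ := hCJ F hF2 hFreal c₀ hc₀
  have hccc : ∀ g : GF F, c (QuotientGroup.mk g) = QuotientGroup.mk (cc g) := fun g =>
    hc g (cc g) fun z => hcc.eq g z
  obtain ⟨hgood, hmixP⟩ := h11 F hF2 hFreal c₀ cc hcc Λ Ξ hsplitΛ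
  -- the invariants
  obtain ⟨⟨lam, hlam⟩, -⟩ := hLam p hp
  obtain ⟨⟨z, hz⟩, -⟩ := hCY p F (AlgebraicClosure F) F (AlgebraicClosure F)
  have hzi : ∀ i, Sys p (fun n => Λ.j i (z n)) := fun i =>
    { prim := fun n => (hz.prim n).map_of_injective (Λ.j i).injective
      pow := fun n => by rw [← map_pow, hz.pow] }
  have hzk : ∀ k, Sys p (fun n => Ξ.j k (z n)) := fun k =>
    { prim := fun n => (hz.prim n).map_of_injective (Ξ.j k).injective
      pow := fun n => by rw [← map_pow, hz.pow] }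
  choose inv hinv hInvL using fun i => hLI p hp lam hlam (Λ.l i) (fun n => Λ.j i (z n)) (hzi i)
  choose inv' hinv' hInvL' using
    fun k => hLI p hp lam hlam (Ξ.m k) (fun n => Ξ.j k (z n)) (hzk k)
  have hmk : Continuous (QuotientGroup.mk' (RU F (Λ.P ∪ Ξ.P) U₀)) := QuotientGroup.continuous_mk
  have hfin : ∀ k, Finite (GQ (Ξ.m k) ⧸ Ξ.V k) := fun k =>
    (Ξ.V k).quotient_finite_of_isOpen (hΞ Ξ k).1
  have hχk : ∀ k, Continuous (cycL p (Ξ.m k)) := fun k =>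
    cyclotomicCharacter.continuous p ℚ_[Ξ.m k] (PadicAlgCl (Ξ.m k))
  refine ⟨inv, fun k => (inv' k).comp (LCRV.corHom (Ξ.V k) (cycL p (Ξ.m k))), ?_, ?_, ?_, ?_, ?_⟩
  · exact fun i => h1 p (Λ.l i) hp (inv i) (hinv i).inv_eq
  · exact fun k => h2 p (Ξ.m k) hp (hNp k) (Ξ.V k) (hΞ Ξ k).1 (hN2 k) _
      (GNNAR.inv_ker (Ξ.V k) hp h4 h12 (hΞ Ξ k).1 (hN2 k) (hinv' k).inv_eq)
  · have e := GNNAR.loc_eq Λ Ξ c₀ cc (QuotientGroup.mk' (RU F (Λ.P ∪ Ξ.P) U₀)) c hccc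
    rw [← e]
    refine ⟨?_, ?_, ?_⟩
    · intro A A' hA k _ _ _ ψ hψ
      exact (h5 p F (mix Λ Ξ c₀ cc) _ hmixP hgood U₀ hsit A A' hA k ψ hψ).1
    · intro A A' hA k _ _ _ ψ hψ
      exact (h5 p F (mix Λ Ξ c₀ cc) _ hmixP hgood U₀ hsit A A' hA k ψ hψ).2
    · intro A A' hA k _ _ _ ψ ψ' hψ hψ' hrel
      exact h6 p F hF2 hFreal U₀ (mix Λ Ξ c₀ cc) _ hmixP hgood hsit χ hχ A A' hA k ψ ψ' hψ hψ'
        hrel
  · intro z₂ hz₂
    -- inflation to `GF F`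
    have hinf : pb2 (QuotientGroup.mk' (RU F (Λ.P ∪ Ξ.P) U₀)) z₂ ∈
        BKND.Z2 (actA (cycF p F)) := by
      obtain ⟨⟨W, hW, hW'⟩, h2⟩ := hz₂
      refine ⟨⟨W.comap (QuotientGroup.mk' (RU F (Λ.P ∪ Ξ.P) U₀)), hW.preimage hmk, ?_⟩, ?_⟩
      · intro g h w hw w' hw'
        change z₂ (QuotientGroup.mk' _ (g * w)) (QuotientGroup.mk' _ (h * w')) = _
        rw [map_mul, map_mul]
        exact hW' _ _ _ hw _ hw'
      · intro g h k
        have h3 := h2 (QuotientGroup.mk' _ g) (QuotientGroup.mk' _ h) (QuotientGroup.mk' _ k)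
        have h4 : ∀ x : QZ p, actA χ (QuotientGroup.mk' (RU F (Λ.P ∪ Ξ.P) U₀) g) x =
            actA (cycF p F) g x := by
          intro x
          rw [BKMet.actA_apply, BKMet.actA_apply]
          congr 2
          exact hχ g
        rw [h4] at h3
        exact h3
    have hrec := h8 p hp F hF2 hFreal c₀ cc hcc Λ Ξ hsplitΛ hpΛ hNp lam hlam z hz inv hInvL
      inv' hInvL' (pb2 (QuotientGroup.mk' (RU F (Λ.P ∪ Ξ.P) U₀)) z₂) hinf ?_
    · rw [← hrec]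
      refine congrArg₂ _ (Finset.sum_congr rfl fun i _ => ?_) rfl
      have e2 : pb2 (c.comp ((QuotientGroup.mk' (RU F (Λ.P ∪ Ξ.P) U₀)).comp (Λ.r i))) z₂ =
          pb2 (cc.comp (Λ.r i)) (pb2 (QuotientGroup.mk' (RU F (Λ.P ∪ Ξ.P) U₀)) z₂) := by
        funext t t'
        change z₂ (c (QuotientGroup.mk (Λ.r i t))) (c (QuotientGroup.mk (Λ.r i t'))) =
          z₂ (QuotientGroup.mk (cc (Λ.r i t))) (QuotientGroup.mk (cc (Λ.r i t')))
        rw [hccc, hccc]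
      rw [e2]
      rfl
    · intro l _ hl j
      have h5 := h7 p hp F (Λ.P ∪ Ξ.P) U₀ hU₀n hU₀o (Or.inl hpΛ) hinr χ hχ z₂ hz₂ l hl j
      have e1 : actA ((cycF p F).comp (fs (MonoidHom.id (GF F)) j)) =
          (actA χ).comp ((QuotientGroup.mk' (RU F (Λ.P ∪ Ξ.P) U₀)).comp
            (fs (MonoidHom.id (GF F)) j)) := by
        refine MonoidHom.ext fun d => AddMonoidHom.ext fun x => ?_
        change ((cycF p F (fs (MonoidHom.id (GF F)) j d) : ℤ_[p]ˣ) : ℤ_[p]) • x =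
          ((χ (QuotientGroup.mk (fs (MonoidHom.id (GF F)) j d)) : ℤ_[p]ˣ) : ℤ_[p]) • x
        rw [hχ]
      rw [e1]
      exact h5
  · intro k
    obtain ⟨t, h, s, ht, hs, hconj, hh, hchi⟩ := h9 p hp F hF2 hFreal c₀ cc hcc Ξ k
    have hVn : (Ξ.V k).Normal := (hΞ Ξ k).2.1
    let τ : Ξ.V k →* Ξ.V k :=
      { toFun := fun d => ⟨t * d * t⁻¹, hVn.conj_mem d d.2 t⟩
        map_one' := Subtype.ext (by simp)
        map_mul' := fun d d' => Subtype.ext (by simp [mul_assoc]) }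
    have hτ : ∀ d, (τ d : GQ (Ξ.m k)) = t * d * t⁻¹ := fun _ => rfl
    refine ⟨t, τ, s, QuotientGroup.mk h, ht, hτ, hs, ?_, ?_, ?_, ?_, ?_⟩
    · exact Continuous.subtype_mk
        ((continuous_const.mul continuous_subtype_val).mul continuous_const) _
    · intro d
      change c (QuotientGroup.mk (Ξ.r k d)) = QuotientGroup.mk h *
        QuotientGroup.mk (Ξ.r k (τ d)) * (QuotientGroup.mk h)⁻¹
      rw [hccc, hconj d (τ d) (hτ d)]
      rfl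
    · change c (QuotientGroup.mk h) * QuotientGroup.mk h = (QuotientGroup.mk (Ξ.r k s))⁻¹
      rw [hccc, ← QuotientGroup.mk_mul, hh]
      rfl
    · rw [hχ]
      exact hchi
    · intro z₂ hz₂
      obtain ⟨ha, hb⟩ := h3 p (Ξ.m k) hp (Ξ.V k) hVn (hΞ Ξ k).1 (hN2 k) t τ hτ z₂ hz₂
      exact LLOT.inv_b2 (hχk k) (hinv' k).inv_eq hb

end BKT
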