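import Pool.Agent.Lib.MP_7c08ba_nt.T1.StGN
import Pool.Agent.Lib.MP_7c08ba_nt.Met.LTRM
import Pool.Agent.Lib.MP_7c08ba_nt.Met.HCV

set_option autoImplicit false

/-!
Parity for general residual representations, part GN, module NCJ: the transfer does not change
under conjugation.
-/

noncomputable section

namespace BKT

open BKPar (Loc1 Loc2)
open BKND (Sm)
open BKMet
open BKLoc2

namespace GNNCJ

section Cor

variable {p : ℕ} [Fact p.Prime] {G : Type} [Group G] (H : Subgroup G) [Finite (G ⧸ H)]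
  (χ : G →* ℤ_[p]ˣ)

/-- the transfer as an additive homomorphism -/
def corHom : (H → H → QZ p) →+ (G → G → QZ p) :=
  AddMonoidHom.mk' (fun w => corM2 H (actA χ) w) (by
    intro w w'
    have hF : Fintype (G ⧸ H) := Fintype.ofFinite _
    funext g g'
    simp only [TRMAux.corM2_eq, Pi.add_apply, map_add, Finset.sum_add_distrib])

theorem corHom_apply (w : H → H → QZ p) : corHom H χ w = corM2 H (actA χ) w := rfl

end Cor

/-- the trivial action on the integers -/
abbrev trivZ (G : Type) [Group G] : G →* AddMonoid.End ℤ := 1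

/-- the pairing of `ℚ_p/ℤ_p` with the integers -/
def bZ (p : ℕ) [Fact p.Prime] : QZ p →+ ℤ →+ QZ p :=
  AddMonoidHom.mk' (fun x => AddMonoidHom.mk' (fun n : ℤ => n • x) (fun n n' => add_zsmul x n n'))
    (by
      intro x y
      ext
      change (1 : ℤ) • (x + y) = (1 : ℤ) • x + (1 : ℤ) • y
      rw [zsmul_add])

theorem bZ_apply {p : ℕ} [Fact p.Prime] (x : QZ p) (n : ℤ) : bZ p x n = n • x := rfl

section

variable {p : ℕ} [Fact p.Prime] {G : Type} [Group G] [TopologicalSpace G]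
    [IsTopologicalGroup G] [NonarchimedeanGroup G]

/-- transfer of coboundaries -/
theorem cor_B2 (hT : StTRM) (H : Subgroup G) (ho : IsOpen (H : Set G))
    (hfin : Finite (G ⧸ H)) (χ : G →* ℤ_[p]ˣ) {α : H → H → QZ p}
    (hα : α ∈ BKND.B2 ((actA χ).comp H.subtype)) :
    corM2 H (actA χ) α ∈ BKND.B2 (actA χ) := by
  have hsm : BKND.Sm (trivZ G) := ⟨⊤, isOpen_univ, fun _ _ => rfl⟩
  obtain ⟨-, -, h3, -, -, -⟩ := hT G H ho hfin (QZ p) ℤ (QZ p) (actA χ) (trivZ G) (actA χ)
    (bZ p) hsm (fun n => ⟨⊤, isOpen_univ, fun _ _ => rfl⟩) (by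
      intro g n n'
      change n' • actA χ g n = actA χ g (n' • n)
      rw [map_zsmul])
  exact h3 α hα

/-- transfer of the restriction -/
theorem cor_res (hT : StTRM) (H : Subgroup G) (ho : IsOpen (H : Set G))
    (hfin : Finite (G ⧸ H)) (χ : G →* ℤ_[p]ˣ) {α : G → G → QZ p} (hα : α ∈ BKND.Z2 (actA χ)) :
    corM2 H (actA χ) (fun g h : H => α g h) - H.index • α ∈ BKND.B2 (actA χ) := by
  have hsm : BKND.Sm (trivZ G) := ⟨⊤, isOpen_univ, fun _ _ => rfl⟩
  obtain ⟨-, -, -, -, h5, -⟩ := hT G H ho hfin (QZ p) ℤ (QZ p) (actA χ) (trivZ G) (actA χ)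
    (bZ p) hsm (fun n => ⟨⊤, isOpen_univ, fun _ _ => rfl⟩) (by
      intro g n n'
      change n' • actA χ g n = actA χ g (n' • n)
      rw [map_zsmul])
  have h6 := h5 α hα 1 (fun _ _ => rfl)
  have hF : Fintype (G ⧸ H) := Fintype.ofFinite _
  have e1 : (∑ᶠ q : G ⧸ H, trivZ G q.out (1 : ℤ)) = (H.index : ℤ) := by
    rw [finsum_eq_sum_of_fintype]
    change ∑ q : G ⧸ H, (1 : ℤ) = _
    rw [Finset.sum_const, Finset.card_univ, Subgroup.index, Nat.card_eq_fintype_card,
      nsmul_eq_mul, mul_one]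
  rw [e1] at h6
  have e2 : (fun g h : H => bZ p (α g h) 1) = fun g h : H => α g h := by
    funext g h
    rw [bZ_apply, one_zsmul]
  have e3 : (fun g h : G => bZ p (α g h) (H.index : ℤ)) = H.index • α := by
    funext g h
    rw [bZ_apply, natCast_zsmul]
    rfl
  rw [e2, e3] at h6
  exact h6

end

section Conj

variable {p : ℕ} [Fact p.Prime] {G : Type} [Group G] [TopologicalSpace G]
    [IsTopologicalGroup G]

theorem act_comm (χ : G →* ℤ_[p]ˣ) (g h : G) (x : QZ p) :
    actA χ g (actA χ h x) = actA χ h (actA χ g x) := by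
  simp only [actA_apply, smul_smul]
  rw [mul_comm]

theorem act_conj (χ : G →* ℤ_[p]ˣ) (t g : G) : actA χ (t * g * t⁻¹) = actA χ g := by
  ext x
  have h : χ (t * g * t⁻¹) = χ g := by
    rw [map_mul, map_mul, map_inv, mul_comm (χ t), mul_assoc, mul_inv_cancel, mul_one]
  simp only [actA_apply, h]

/-- the conjugate of a cocycle -/
theorem conj_Z2 (χ : G →* ℤ_[p]ˣ) (t : G) {w : G → G → QZ p} (hw : w ∈ BKND.Z2 (actA χ)) :
    (fun g h => w (t * g * t⁻¹) (t * h * t⁻¹)) ∈ BKND.Z2 (actA χ) := by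
  obtain ⟨⟨W, hW, hwW⟩, hz⟩ := hw
  refine ⟨⟨W.comap (MulAut.conj t).toMonoidHom, ?_, ?_⟩, ?_⟩
  · rw [Subgroup.coe_comap]
    refine hW.preimage ?_
    change Continuous fun x : G => t * x * t⁻¹
    fun_prop
  · intro g h v hv v' hv'
    have hv1 : t * v * t⁻¹ ∈ W := hv
    have hv2 : t * v' * t⁻¹ ∈ W := hv'
    have h1 := hwW (t * g * t⁻¹) (t * h * t⁻¹) _ hv1 _ hv2
    have e1 : t * g * t⁻¹ * (t * v * t⁻¹) = t * (g * v) * t⁻¹ := by group
    have e2 : t * h * t⁻¹ * (t * v' * t⁻¹) = t * (h * v') * t⁻¹ := by group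
    rw [e1, e2] at h1
    exact h1
  · intro g h k
    have h1 := hz (t * g * t⁻¹) (t * h * t⁻¹) (t * k * t⁻¹)
    have e1 : t * g * t⁻¹ * (t * h * t⁻¹) = t * (g * h) * t⁻¹ := by group
    have e2 : t * h * t⁻¹ * (t * k * t⁻¹) = t * (h * k) * t⁻¹ := by group
    rw [e1, e2, act_conj] at h1
    exact h1

/-- the image of a cocycle under the action -/
theorem act_Z2 (χ : G →* ℤ_[p]ˣ) (t : G) {w : G → G → QZ p} (hw : w ∈ BKND.Z2 (actA χ)) :
    (fun g h => actA χ t (w g h)) ∈ BKND.Z2 (actA χ) := by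
  obtain ⟨⟨W, hW, hwW⟩, hz⟩ := hw
  refine ⟨⟨W, hW, fun g h v hv v' hv' => ?_⟩, fun g h k => ?_⟩
  · exact congrArg _ (hwW g h v hv v' hv')
  · have h1 := congrArg (actA χ t) (hz g h k)
    rw [map_zero, map_sub, map_add, map_sub, act_comm] at h1
    exact h1

/-- inner automorphisms -/
theorem conj_B2 (χ : G →* ℤ_[p]ˣ) (t : G) {w : G → G → QZ p} (hw : w ∈ BKND.Z2 (actA χ)) :
    (fun g h => w (t * g * t⁻¹) (t * h * t⁻¹)) - (fun g h => actA χ t (w g h)) ∈
      BKND.B2 (actA χ) := by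
  obtain ⟨⟨W, hW, hwW⟩, hz⟩ := hw
  set f : G → QZ p := fun x => w x t⁻¹ - w t⁻¹ (t * x * t⁻¹) with hf
  have hcont : Continuous fun x : G => t * x * t⁻¹ := by fun_prop
  refine ⟨fun x => - actA χ t (f x), ⟨W ⊓ W.comap (MulAut.conj t).toMonoidHom, ?_, ?_⟩, ?_⟩
  · rw [Subgroup.coe_inf, Subgroup.coe_comap]
    exact hW.inter (hW.preimage hcont)
  · rintro x v ⟨hv, hv'⟩
    have hv2 : t * v * t⁻¹ ∈ W := hv'
    have e1 : w (x * v) t⁻¹ = w x t⁻¹ := by
      have h1 := hwW x t⁻¹ v hv 1 W.one_mem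
      rwa [mul_one] at h1
    have e2 : w t⁻¹ (t * (x * v) * t⁻¹) = w t⁻¹ (t * x * t⁻¹) := by
      have h1 := hwW t⁻¹ (t * x * t⁻¹) 1 W.one_mem _ hv2
      have e3 : t * x * t⁻¹ * (t * v * t⁻¹) = t * (x * v) * t⁻¹ := by group
      rwa [mul_one, e3] at h1
    simp only [hf, e1, e2]
  · intro x y
    have h1 := BKGlob2.CVx.conj2 (actA χ) hz t⁻¹ x y
    rw [inv_inv] at h1
    have h2 := congrArg (actA χ t) h1
    have h3 : ∀ m : QZ p, actA χ t (actA χ t⁻¹ m) = m := by
      intro m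
      have h : actA χ t (actA χ t⁻¹ m) = (actA χ t * actA χ t⁻¹) m := rfl
      rw [h, ← map_mul, mul_inv_cancel, map_one]
      rfl
    rw [h3] at h2
    change w (t * x * t⁻¹) (t * y * t⁻¹) - actA χ t (w x y) =
      actA χ x (- actA χ t (f y)) - (- actA χ t (f (x * y))) + (- actA χ t (f x))
    rw [h2, map_neg, act_comm χ x t]
    simp only [hf, map_sub, map_add]
    abel

end Conj

end GNNCJ

open GNNCJ

theorem GNNCJ.nonarch (l : ℕ) [Fact l.Prime] : NonarchimedeanGroup (GQ l) where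
  is_nonarchimedean U hU := by
    obtain ⟨N, hN⟩ := ProfiniteGrp.exist_openNormalSubgroup_sub_open_nhds_of_one
      (isOpen_interior (s := U)) (mem_interior_iff_mem_nhds.2 hU)
    exact ⟨N.toOpenSubgroup, hN.trans interior_subset⟩

/-- Module NCJ. -/
theorem stNcj (hN : StNcr) (hT : StTRM) : StNcj := by
  intro p l _ _ hp2 V hVn hV hVi t τ hτ z hz
  have hfin : Finite (GQ l ⧸ V) := V.quotient_finite_of_isOpen hV
  have hna : NonarchimedeanGroup (GQ l) := GNNCJ.nonarch l
  set χ : GQ l →* ℤ_[p]ˣ := cycL p l with hχ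
  have hτmul : ∀ g h : V, τ (g * h) = τ g * τ h := by
    intro g h
    apply Subtype.ext
    rw [Subgroup.coe_mul, hτ, hτ, hτ, Subgroup.coe_mul]
    group
  let τ' : V →* V := MonoidHom.mk' τ hτmul
  have hτc : Continuous τ := by
    rw [continuous_induced_rng]
    have e : ((↑) : V → GQ l) ∘ τ = fun d : V => t * (d : GQ l) * t⁻¹ := funext hτ
    rw [e]
    fun_prop
  have hact : ∀ g : V, actA (χ.comp V.subtype) (τ g) = actA (χ.comp V.subtype) g := by
    intro g
    have h1 : actA (χ.comp V.subtype) (τ g) = actA χ (τ g : GQ l) := rfl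
    have h2 : actA (χ.comp V.subtype) g = actA χ (g : GQ l) := rfl
    rw [h1, h2, hτ, act_conj]
  obtain ⟨hN1, -, -⟩ := hN p l hp2 V hV hVi
  refine ⟨?_, ?_⟩
  · obtain ⟨⟨W, hW, hzW⟩, hz'⟩ := hz
    refine ⟨⟨W.comap τ', hW.preimage hτc, ?_⟩, ?_⟩
    · intro g h v hv v' hv'
      have hv1 : τ v ∈ W := hv
      have hv2 : τ v' ∈ W := hv'
      change z (τ (g * v)) (τ (h * v')) = z (τ g) (τ h)
      rw [hτmul, hτmul]
      exact hzW _ _ _ hv1 _ hv2
    · intro g h k
      have h1 := hz' (τ g) (τ h) (τ k)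
      rw [hact, ← hτmul, ← hτmul] at h1
      exact h1
  · obtain ⟨w, hw, β, ⟨W, hW, hβW⟩, hβ⟩ := hN1 z hz
    have hzw : ∀ g h : V, z g h = w g h +
        (actA (χ.comp V.subtype) g (β h) - β (g * h) + β g) := by
      intro g h
      rw [← hβ g h]
      change z g h = w g h + (z g h - w g h)
      abel
    -- the coboundary terms
    have hb1 : (fun g h : V => actA (χ.comp V.subtype) g (β (τ h)) - β (τ (g * h)) + β (τ g)) ∈
        BKND.B2 ((actA χ).comp V.subtype) :=
      ⟨fun g => β (τ g), ⟨W.comap τ', hW.preimage hτc, fun g v hv => by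
        change β (τ (g * v)) = β (τ g)
        rw [hτmul]
        exact hβW _ _ hv⟩, fun g h => rfl⟩
    have hb2 : (fun g h : V => actA χ t
        (actA (χ.comp V.subtype) g (β h) - β (g * h) + β g)) ∈
        BKND.B2 ((actA χ).comp V.subtype) := by
      refine ⟨fun g => actA χ t (β g), ⟨W, hW, fun g v hv => congrArg _ (hβW _ _ hv)⟩,
        fun g h => ?_⟩
      change actA χ t (actA χ (g : GQ l) (β h) - β (g * h) + β g) =
        actA χ (g : GQ l) (actA χ t (β h)) - actA χ t (β (g * h)) + actA χ t (β g)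
      rw [map_add, map_sub, act_comm]
    have hc1 := cor_B2 hT V hV hfin χ hb1
    have hc2 := cor_B2 hT V hV hfin χ hb2
    have hr1 := cor_res hT V hV hfin χ (conj_Z2 χ t hw)
    have hr2 := cor_res hT V hV hfin χ (act_Z2 χ t hw)
    have hcc := nsmul_mem (conj_B2 χ t hw) V.index
    have e1 : (fun g h : V => z (τ g) (τ h)) =
        (fun g h : V => w (t * (g : GQ l) * t⁻¹) (t * (h : GQ l) * t⁻¹)) +
        (fun g h : V => actA (χ.comp V.subtype) g (β (τ h)) - β (τ (g * h)) + β (τ g)) := by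
      funext g h
      change z (τ g) (τ h) = w (t * (g : GQ l) * t⁻¹) (t * (h : GQ l) * t⁻¹) +
        (actA (χ.comp V.subtype) g (β (τ h)) - β (τ (g * h)) + β (τ g))
      rw [hzw, hact, hτ, hτ, hτmul]
    have e2 : (fun g h : V => actA χ t (z g h)) = (fun g h : V => actA χ t (w g h)) +
        (fun g h : V => actA χ t
          (actA (χ.comp V.subtype) g (β h) - β (g * h) + β g)) := by
      funext g h
      change actA χ t (z g h) = actA χ t (w g h) + actA χ t
          (actA (χ.comp V.subtype) g (β h) - β (g * h) + β g)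
      rw [hzw, map_add]
    rw [← corHom_apply V χ] at hc1 hc2 hr1 hr2
    rw [← corHom_apply V χ, ← corHom_apply V χ, e1, e2, map_add, map_add]
    have h3 := sub_mem (add_mem (sub_mem hr1 hr2) (sub_mem hc1 hc2)) (neg_mem hcc)
    rw [smul_sub] at h3
    generalize corHom V χ (fun g h : V => w (t * (g : GQ l) * t⁻¹) (t * (h : GQ l) * t⁻¹)) = A1
      at h3 ⊢
    generalize corHom V χ (fun g h : V => actA (χ.comp V.subtype) g (β (τ h)) - β (τ (g * h)) +
      β (τ g)) = A2 at h3 ⊢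
    generalize corHom V χ (fun g h : V => actA χ t (w g h)) = A3 at h3 ⊢
    generalize corHom V χ (fun g h : V => actA χ t
      (actA (χ.comp V.subtype) g (β h) - β (g * h) + β g)) = A4 at h3 ⊢
    have e3 : ∀ B1 B2 : GQ l → GQ l → QZ p, A1 - B1 - (A3 - B2) + (A2 - A4) - -(B1 - B2) =
      A1 + A2 - (A3 + A4) := by
      intro B1 B2
      abel
    rw [e3] at h3
    exact h3

end BKT
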