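import Pool.Agent.Lib.MP_7c08ba_nt.T1.StGN
import Pool.Agent.Lib.MP_7c08ba_nt.T1.LCRV
import Pool.Agent.Lib.MP_7c08ba_nt.T1.LLOS
import Pool.Agent.Lib.MP_7c08ba_nt.T1.GTWA

set_option autoImplicit false
set_option linter.unusedSectionVars false
set_option linter.overlappingInstances false

/-!
Parity for general residual representations and arbitrary ramification at the primes which do not
split, module NCR: restriction is surjective and the transfer is injective on `H²` for subgroups of
index prime to `p`.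
-/

noncomputable section

namespace BKT

open BKPar (Loc1 Loc2)
open BKND (Sm)
open BKMet
open BKLoc2 (corM2 StTRM stTRM stKPE stPA)
open BKOdd (nonarch_subgroup)

namespace GNNCR

/-- division by a number prime to `p` -/
theorem divide {p : ℕ} [hp : Fact p.Prime] (X : Type) [AddCommGroup X] {m : ℕ} (n : ℕ)
    (hm : ¬ p ∣ m) : ∃ e : ℕ, ∀ y : X, p ^ n • y = 0 → (m * e) • y = y := by
  have hco : Nat.Coprime m p := ((Nat.Prime.coprime_iff_not_dvd hp.out).2 hm).symm
  have hco' : Nat.Coprime m (p ^ (n + 1)) := Nat.Coprime.pow_right _ hco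
  have h1 : 1 < p ^ (n + 1) := Nat.one_lt_pow (Nat.succ_ne_zero n) hp.out.one_lt
  obtain ⟨e, -, he⟩ := Nat.exists_mul_mod_eq_one_of_coprime hco' h1
  refine ⟨e, fun y hy => ?_⟩
  have h2 := Nat.div_add_mod (m * e) (p ^ (n + 1))
  rw [he] at h2
  have h3 : p ^ (n + 1) • y = 0 := by rw [pow_succ', mul_smul, hy, smul_zero]
  rw [← h2, add_smul, one_smul, mul_comm, mul_smul, h3, smul_zero, zero_add]

section Gen

variable {p : ℕ} [Fact p.Prime] {G : Type} [Group G] [TopologicalSpace G]
    [IsTopologicalGroup G] [NonarchimedeanGroup G]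

/-- restriction to a subgroup -/
theorem res_Z2 (H : Subgroup G) (χ : G →* ℤ_[p]ˣ) {α : G → G → QZ p}
    (hα : α ∈ BKND.Z2 (actA χ)) :
    (fun g h : H => α g h) ∈ BKND.Z2 (actA (χ.comp H.subtype)) :=
  GTWA.pb2_Z2 H.subtype continuous_subtype_val hα

theorem res_B2 (H : Subgroup G) (χ : G →* ℤ_[p]ˣ) {α : G → G → QZ p}
    (hα : α ∈ BKND.B2 (actA χ)) :
    (fun g h : H => α g h) ∈ BKND.B2 (actA (χ.comp H.subtype)) :=
  GTWA.pb2_B2 H.subtype continuous_subtype_val hα

/-- If the transfer of `z` is a coboundary and `z` is the restriction of `w`, then `z` is a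
coboundary. -/
theorem inj_of_res (H : Subgroup G) (hH : IsOpen (H : Set G)) (hfin : Finite (G ⧸ H))
    (hi : ¬ p ∣ H.index) (χ : G →* ℤ_[p]ˣ) {z : H → H → QZ p} {w : G → G → QZ p}
    (hw : w ∈ BKND.Z2 (actA χ)) {n : ℕ} (hn : p ^ n • w = 0)
    (hz : z - (fun g h : H => w g h) ∈ BKND.B2 (actA (χ.comp H.subtype)))
    (hc : corM2 H (actA χ) z ∈ BKND.B2 (actA χ)) :
    z ∈ BKND.B2 (actA (χ.comp H.subtype)) := by
  have h1 : LCRV.corHom H χ (z - fun g h : H => w g h) ∈ BKND.B2 (actA χ) :=
    LLOS.cor_cob H hH (actA χ) hz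
  rw [map_sub, LCRV.corHom_apply, LCRV.corHom_apply] at h1
  have h2 := LCRV.cor_res H hH hfin χ hw
  have h3 : H.index • w ∈ BKND.B2 (actA χ) := by
    have h4 := sub_mem hc (add_mem h1 h2)
    have e1 : corM2 H (actA χ) z - (corM2 H (actA χ) z -
        corM2 H (actA χ) (fun g h : H => w g h) +
        (corM2 H (actA χ) (fun g h : H => w g h) - H.index • w)) = H.index • w := by
      abel
    rwa [e1] at h4
  obtain ⟨e, he⟩ := divide (G → G → QZ p) n hi
  have h5 : w ∈ BKND.B2 (actA χ) := by
    have h6 := nsmul_mem h3 e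
    rwa [← mul_smul, mul_comm, he w hn] at h6
  have h7 := add_mem hz (res_B2 H χ h5)
  rwa [sub_add_cancel] at h7

end Gen

section Loc

variable (p l : ℕ) [Fact p.Prime] [Fact l.Prime]

theorem cont_cyc : Continuous (cycL p l) := by
  obtain ⟨z1, hz1⟩ := BKLoc2.N4Aux.exists_sys p (PadicAlgCl l)
  exact (stKPE p ℚ_[l] (PadicAlgCl l) (GQ l) (MonoidHom.id _)
    (BKLoc2.N4Aux.open_id _).continuous z1 hz1).1

variable {p l}

/-- `H²` of an open subgroup is a `p`-primary torsion group -/
theorem tors {V : Subgroup (GQ l)} (hV : IsOpen (V : Set (GQ l)))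
    {z : V → V → QZ p} (hz : z ∈ BKND.Z2 (actA ((cycL p l).comp V.subtype))) :
    ∃ n : ℕ, p ^ n • z = 0 := by
  have cV : CompactSpace V := isCompact_iff_compactSpace.1 (V.isClosed_of_isOpen hV).isCompact
  have nG : NonarchimedeanGroup (GQ l) := LLOS.nonarch l
  have nV : NonarchimedeanGroup V := nonarch_subgroup V
  have hχV : Continuous ((cycL p l).comp V.subtype) := (cont_cyc p l).comp continuous_subtype_val
  obtain ⟨-, -, -, -, a5⟩ := stPA p V ((cycL p l).comp V.subtype) hχV
  exact a5 z hz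

theorem torsG {z : GQ l → GQ l → QZ p} (hz : z ∈ BKND.Z2 (actA (cycL p l))) :
    ∃ n : ℕ, p ^ n • z = 0 := by
  have nG : NonarchimedeanGroup (GQ l) := LLOS.nonarch l
  obtain ⟨-, -, -, -, a5⟩ := stPA p (GQ l) (cycL p l) (cont_cyc p l)
  exact a5 z hz

/-- the restriction is surjective -/
theorem res_surj (hC : StCrV) (hp2 : p ≠ 2) (V : Subgroup (GQ l))
    (hV : IsOpen (V : Set (GQ l))) (hi : ¬ p ∣ V.index) {z : V → V → QZ p}
    (hz : z ∈ BKND.Z2 (actA ((cycL p l).comp V.subtype))) :
    ∃ w ∈ BKND.Z2 (actA (cycL p l)),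
      z - (fun g h : V => w g h) ∈ BKND.B2 (actA ((cycL p l).comp V.subtype)) := by
  have nG : NonarchimedeanGroup (GQ l) := LLOS.nonarch l
  have hfin : Finite (GQ l ⧸ V) := V.quotient_finite_of_isOpen hV
  have hw0 : corM2 V (actA (cycL p l)) z ∈ BKND.Z2 (actA (cycL p l)) :=
    LLOS.cor_mem V hV (actA (cycL p l)) hz
  obtain ⟨n, hn⟩ := torsG hw0
  obtain ⟨e, he⟩ := divide (GQ l → GQ l → QZ p) n hi
  have hw1 : e • corM2 V (actA (cycL p l)) z ∈ BKND.Z2 (actA (cycL p l)) := nsmul_mem hw0 e
  refine ⟨_, hw1, ?_⟩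
  refine hC p l hp2 V hV hi _ (sub_mem hz (res_Z2 V (cycL p l) hw1)) ?_
  change LCRV.corHom V (cycL p l) _ ∈ _
  rw [map_sub, LCRV.corHom_apply, LCRV.corHom_apply]
  have h2 := LCRV.cor_res V hV hfin (cycL p l) hw1
  have e1 : V.index • e • corM2 V (actA (cycL p l)) z = corM2 V (actA (cycL p l)) z := by
    rw [smul_smul, he _ hn]
  rw [e1] at h2
  have h3 := neg_mem h2
  rwa [neg_sub] at h3

/-! ### The image of a subgroup of a subgroup -/

section Sub

variable {G : Type} [Group G] [TopologicalSpace G] (V : Subgroup G) (W : Subgroup V)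

/-- the map to the image -/
def toIm : W →* W.map V.subtype :=
  (W.equivMapOfInjective V.subtype V.subtype_injective).toMonoidHom

/-- the inverse map -/
def ofIm : W.map V.subtype →* W :=
  (W.equivMapOfInjective V.subtype V.subtype_injective).symm.toMonoidHom

theorem toIm_ofIm (x : W.map V.subtype) : toIm V W (ofIm V W x) = x :=
  (W.equivMapOfInjective V.subtype V.subtype_injective).apply_symm_apply x

theorem ofIm_toIm (x : W) : ofIm V W (toIm V W x) = x :=
  (W.equivMapOfInjective V.subtype V.subtype_injective).symm_apply_apply x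

theorem coe_toIm (x : W) : ((toIm V W x : W.map V.subtype) : G) = ((x : V) : G) :=
  Subgroup.coe_equivMapOfInjective_apply W V.subtype V.subtype_injective x

theorem coe_ofIm (x : W.map V.subtype) : (((ofIm V W x : W) : V) : G) = (x : G) := by
  rw [← coe_toIm, toIm_ofIm]

theorem cont_toIm : Continuous (toIm V W) := by
  refine continuous_induced_rng.2 ?_
  change Continuous fun x : W => ((toIm V W x : W.map V.subtype) : G)
  have h : (fun x : W => ((toIm V W x : W.map V.subtype) : G)) = fun x : W => ((x : V) : G) :=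
    funext fun x => coe_toIm V W x
  rw [h]
  exact continuous_subtype_val.comp continuous_subtype_val

theorem cont_ofIm : Continuous (ofIm V W) := by
  refine continuous_induced_rng.2 (continuous_induced_rng.2 ?_)
  change Continuous fun x : W.map V.subtype => (((ofIm V W x : W) : V) : G)
  have h : (fun x : W.map V.subtype => (((ofIm V W x : W) : V) : G)) =
      fun x : W.map V.subtype => (x : G) := funext fun x => coe_ofIm V W x
  rw [h]
  exact continuous_subtype_val

theorem open_im (hV : IsOpen (V : Set G)) (hW : IsOpen (W : Set V)) :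
    IsOpen ((W.map V.subtype : Subgroup G) : Set G) := by
  rw [Subgroup.coe_map]
  exact hV.isOpenEmbedding_subtypeVal.isOpenMap _ hW

end Sub

/-- the transfer between two subgroups is injective -/
theorem cor_inj (hC : StCrV) (hp2 : p ≠ 2) (V : Subgroup (GQ l))
    (hV : IsOpen (V : Set (GQ l))) (hi : ¬ p ∣ V.index) (W : Subgroup V)
    (hW : IsOpen (W : Set V)) (hiW : ¬ p ∣ W.index) {z : W → W → QZ p}
    (hz : z ∈ BKND.Z2 (actA (((cycL p l).comp V.subtype).comp W.subtype)))
    (hc : corM2 W (actA ((cycL p l).comp V.subtype)) z ∈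
      BKND.B2 (actA ((cycL p l).comp V.subtype))) :
    z ∈ BKND.B2 (actA (((cycL p l).comp V.subtype).comp W.subtype)) := by
  have nG : NonarchimedeanGroup (GQ l) := LLOS.nonarch l
  have cV : CompactSpace V := isCompact_iff_compactSpace.1 (V.isClosed_of_isOpen hV).isCompact
  have nV : NonarchimedeanGroup V := nonarch_subgroup V
  have hfin : Finite (V ⧸ W) := W.quotient_finite_of_isOpen hW
  have hp : p.Prime := Fact.out
  have hi' : ¬ p ∣ (W.map V.subtype).index := by
    rw [Subgroup.index_map_subtype, hp.dvd_mul, not_or]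
    exact ⟨hiW, hi⟩
  have hz1 := GTWA.pb2_Z2 (ofIm V W) (cont_ofIm V W) hz
  have e1 : (actA (((cycL p l).comp V.subtype).comp W.subtype)).comp (ofIm V W) =
      actA ((cycL p l).comp (W.map V.subtype).subtype) := by
    refine MonoidHom.ext fun x => ?_
    change actA (((cycL p l).comp V.subtype).comp W.subtype) (ofIm V W x) = _
    have h : actA (cycL p l) (((ofIm V W x : W) : V) : GQ l) = actA (cycL p l) (x : GQ l) := by
      rw [coe_ofIm]
    exact h
  rw [e1] at hz1
  obtain ⟨w, hw, hw'⟩ := res_surj hC hp2 (W.map V.subtype) (open_im V W hV hW) hi' hz1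
  obtain ⟨n, hn⟩ := torsG hw
  have h2 := GTWA.pb2_B2 (toIm V W) (cont_toIm V W) hw'
  have e2 : (actA ((cycL p l).comp (W.map V.subtype).subtype)).comp (toIm V W) =
      actA (((cycL p l).comp V.subtype).comp W.subtype) := by
    refine MonoidHom.ext fun x => ?_
    have h : actA (cycL p l) ((toIm V W x : W.map V.subtype) : GQ l) =
        actA (cycL p l) (((x : W) : V) : GQ l) := by
      rw [coe_toIm]
    exact h
  rw [e2] at h2
  have e3 : pb2 (toIm V W) (pb2 (ofIm V W) z - fun g h : W.map V.subtype => w g h) =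
      z - fun g h : W => w g h := by
    funext g h
    change z (ofIm V W (toIm V W g)) (ofIm V W (toIm V W h)) -
      w (toIm V W g : GQ l) (toIm V W h : GQ l) = z g h - w g h
    rw [ofIm_toIm, ofIm_toIm, coe_toIm, coe_toIm]
  rw [e3] at h2
  have hwV : (fun g h : V => w g h) ∈ BKND.Z2 (actA ((cycL p l).comp V.subtype)) :=
    res_Z2 V (cycL p l) hw
  have hnV : p ^ n • (fun g h : V => w g h) = 0 := by
    funext g h
    exact congrFun (congrFun hn (g : GQ l)) (h : GQ l)
  exact inj_of_res W hW hfin hiW ((cycL p l).comp V.subtype) hwV hnV h2 hc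

end Loc

end GNNCR

open GNNCR in
/-- Module NCR. -/
theorem stNcr (hC : StCrV) (_hT : StTRM) : StNcr := by
  intro p l _ _ hp2 V hV hi
  have hfin : Finite (GQ l ⧸ V) := V.quotient_finite_of_isOpen hV
  exact ⟨fun z hz => res_surj hC hp2 V hV hi hz,
    fun z hz => LLOS.cor_mem V hV (actA (cycL p l)) hz,
    fun W hW hiW z hz hc => cor_inj hC hp2 V hV hi W hW hiW hz hc⟩

end BKT
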