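import Pool.Agent.Lib.MP_7c08ba_nt.T1.StGN

set_option autoImplicit false

/-!
Module NKL: classes of an open subgroup of index prime to `p` vanish far up in the cyclotomic
extension.
-/

noncomputable section

namespace BKT

open BKLoc2 (cyL IsLam)
open BKMet

namespace GNNKL

theorem pull_B2 {D G M : Type*} [Group D] [TopologicalSpace D] [Group G] [TopologicalSpace G]
    [AddCommGroup M] {ρ : G →* AddMonoid.End M} {f : D →* G} (hf : Continuous f)
    {z : G → G → M} (h : z ∈ BKND.B2 ρ) : (fun d d' => z (f d) (f d')) ∈ BKND.B2 (ρ.comp f) := by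
  obtain ⟨β, ⟨W, hW, hβ⟩, e⟩ := h
  refine ⟨fun d => β (f d), ⟨W.comap f, hW.preimage hf, fun g w hw => ?_⟩, fun g h => ?_⟩
  · change β (f (g * w)) = β (f g)
    rw [map_mul]
    exact hβ _ _ hw
  · change z (f g) (f h) = ρ (f g) (β (f h)) - β (f (g * h)) + β (f g)
    rw [e, map_mul]

theorem lam_one {p : ℕ} [Fact p.Prime] {lam : ℤ_[p]ˣ → ℤ_[p]} (h : IsLam lam) : lam 1 = 0 := by
  have h1 := h.mul 1 1
  rw [mul_one] at h1
  simpa using h1

theorem lam_inv {p : ℕ} [Fact p.Prime] {lam : ℤ_[p]ˣ → ℤ_[p]} (h : IsLam lam) (u : ℤ_[p]ˣ) :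
    lam u⁻¹ = -lam u := by
  have h1 := h.mul u u⁻¹
  rw [mul_inv_cancel, lam_one h] at h1
  exact eq_neg_of_add_eq_zero_right h1.symm

/-- the subgroup of the elements on which `lam` of the cyclotomic character is divisible
by `p ^ M` -/
def sub (p l : ℕ) [Fact p.Prime] [Fact l.Prime] {lam : ℤ_[p]ˣ → ℤ_[p]} (h : IsLam lam) (M : ℕ) :
    Subgroup (GQ l) where
  carrier := {g | (p : ℤ_[p]) ^ M ∣ lam (cyL p l g)}
  one_mem' := by
    change (p : ℤ_[p]) ^ M ∣ lam (cyL p l 1)
    rw [map_one, lam_one h]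
    exact dvd_zero _
  mul_mem' := by
    intro a b ha hb
    change (p : ℤ_[p]) ^ M ∣ lam (cyL p l (a * b))
    rw [map_mul, h.mul]
    exact dvd_add ha hb
  inv_mem' := by
    intro a ha
    change (p : ℤ_[p]) ^ M ∣ lam (cyL p l a⁻¹)
    rw [map_inv, lam_inv h]
    exact (dvd_neg).2 ha

end GNNKL

open GNNKL in
/-- Module NKL. -/
theorem stNkl (hKL : BKGlob2.StKL) (hN : StNcr) : StNkl := by
  intro p l _ _ hp lam hlam V hV hi α hα
  obtain ⟨w, hw, hd⟩ := (hN p l hp V hV hi).1 α hα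
  obtain ⟨M₀, hM⟩ := hKL p l hp lam hlam w hw
  refine ⟨M₀, fun M hMM U hU => ?_⟩
  have h1 := hM M hMM (sub p l hlam M) (fun g => Iff.rfl)
  let f : U →* sub p l hlam M :=
    { toFun := fun u => ⟨((u : V) : GQ l), (hU u).1 u.2⟩
      map_one' := rfl
      map_mul' := fun _ _ => rfl }
  have hf : Continuous f :=
    Continuous.subtype_mk (continuous_subtype_val.comp continuous_subtype_val) _
  have h2 := pull_B2 hf h1
  have h3 := pull_B2 (f := U.subtype) continuous_subtype_val hd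
  have h4 : (fun a b : U => α a b) =
      (fun a b : U => (α - fun g h : V => w g h) (U.subtype a) (U.subtype b)) +
        fun a b : U => w (f a : GQ l) (f b : GQ l) := by
    funext a b
    change α a b = (α a b - w ((a : V) : GQ l) ((b : V) : GQ l)) +
      w ((a : V) : GQ l) ((b : V) : GQ l)
    rw [sub_add_cancel]
  rw [h4]
  exact add_mem h3 h2

end BKT
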