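import Pool.Agent.Lib.MP_7c08ba_nt.T1.StGN
import Pool.Agent.Lib.MP_7c08ba_nt.T1.LLOG

set_option autoImplicit false

/-!
Parity for general residual representations and arbitrary ramification at the primes which do not
split, module NLG: the local theorem for an open subgroup of the Galois group of `ℚ_l`.
-/

noncomputable section

namespace BKT

open BKPar (Loc1 Loc2)
open BKND (Sm)
open BKMet

namespace GNNLG

/-- a subgroup of a nonarchimedean group is nonarchimedean -/
theorem nonarch_sub {G : Type*} [Group G] [TopologicalSpace G] [NonarchimedeanGroup G]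
    (H : Subgroup G) : NonarchimedeanGroup H where
  is_nonarchimedean U hU := by
    obtain ⟨W, hW, hWU⟩ := mem_nhds_induced (Subtype.val : H → G) 1 U |>.1 hU
    obtain ⟨V, hV⟩ := NonarchimedeanGroup.is_nonarchimedean W hW
    have ho : IsOpen ((V : Subgroup G).subgroupOf H : Set H) :=
      V.isOpen.preimage continuous_subtype_val
    exact ⟨⟨(V : Subgroup G).subgroupOf H, ho⟩, fun x hx => hWU (hV hx)⟩

end GNNLG

open LLOG GNNLG in
/-- Module NLG: the local theorem for `V`. -/
theorem stNlg (h1 : StNls) (h2 : StLot) (h3 : StLca) (h4 : StLfn) (h5 : StDup) : StNlg := by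
  intro p l _ _ hp2 hlp V hVo hVi inv hinv
  have hna : NonarchimedeanGroup (GQ l) := LLOS.nonarch l
  have hnV : NonarchimedeanGroup V := nonarch_sub V
  have hcV : CompactSpace V := isCompact_iff_compactSpace.1
    (Subgroup.isClosed_of_isOpen V hVo).isCompact
  have hχ : Continuous ((cycL p l).comp V.subtype) :=
    (cyclotomicCharacter.continuous p ℚ_[l] (PadicAlgCl l)).comp continuous_subtype_val
  have hS := h1 p l hp2 hlp V hVo hVi inv hinv
  have hD := h2 p V ((cycL p l).comp V.subtype) hχ inv _ hS
  refine ⟨hD.inv_eq, hD.one, hD.two, fun M M' _ _ _ X => ?_⟩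
  obtain ⟨hM, e, -, he⟩ := (h5 p V ((cycL p l).comp V.subtype) hχ M).2 M' X
  have hF := h3 p V ((cycL p l).comp V.subtype) hχ inv _ hS hD M X.ρ X.sm hM
  have hZ := h4 p V ((cycL p l).comp V.subtype) hχ inv _ hS M X.ρ X.sm hM
  have hH : Finite (M →+ QZ p) := (LDUP.homs p M).1
  rw [card_H0 e he]
  exact of_log Nat.card_pos.ne' Nat.card_pos.ne' Nat.card_pos.ne' hF

end BKT
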