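import Pool.Agent.Lib.MP_7c08ba_nt.T1.StGN
import Pool.Agent.Lib.MP_7c08ba_nt.T1.LLOS
import Pool.Agent.Lib.MP_7c08ba_nt.T1.GTWA
import Pool.Agent.Lib.MP_7c08ba_nt.Met.LocAll
import Pool.Agent.Lib.MP_7c08ba_nt.Met.FGAM

set_option autoImplicit false
set_option linter.unusedSectionVars false

/-!
Parity for general residual representations and arbitrary ramification at the primes which do not
split, module NLS: the local axioms for characters of open subgroups of `V`, `l ≠ p`.
-/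

noncomputable section

namespace BKT

open BKPar (Loc1 Loc2)
open BKND (Sm)
open BKMet

namespace GNNLS

/-- an invariant of the Galois group of `ℚ_l` -/
theorem exists_inv (p l : ℕ) [Fact p.Prime] [Fact l.Prime] (hp2 : p ≠ 2) (hlp : l ≠ p) :
    ∃ inv : (GQ l → GQ l → QZ p) →+ QZ p,
      ∀ z ∈ BKND.Z2 (actA (cycL p l)), inv z = 0 ↔ z ∈ BKND.B2 (actA (cycL p l)) := by
  have hp : p.Prime := Fact.out
  have hl : l.Prime := Fact.out
  obtain ⟨⟨lam, hlam⟩, -⟩ := BKLoc2.stLam p hp2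
  obtain ⟨z, hz⟩ := BKLoc2.N4Aux.exists_sys p (PadicAlgCl l)
  have hu : IsUnit (l : ℤ_[p]) := by
    rw [PadicInt.isUnit_iff]
    have h8 : ¬ p ∣ l := fun h => hlp ((Nat.prime_dvd_prime_iff_eq hp hl).1 h).symm
    refine le_antisymm (PadicInt.norm_le_one _) ?_
    have h9 := (PadicInt.norm_int_lt_one_iff_dvd (p := p) (l : ℤ)).not
    rw [not_lt] at h9
    have h10 := h9.2 (fun h => h8 (by exact_mod_cast h))
    rwa [Int.cast_natCast] at h10
  obtain ⟨u, hu⟩ := hu
  obtain ⟨inv, hinv, -⟩ := BKLoc2.aInvL.1 p l hp2 hlp lam hlam u hu z hz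
  exact ⟨inv, hinv⟩

/-! ### Transport to an isomorphic group -/

section Tr

variable {D E : Type} [Group D] [TopologicalSpace D] [Group E] [TopologicalSpace E]
  {f : D →* E} {g : E →* D}

theorem comp_eq (hgf : ∀ x, g (f x) = x) {M : Type} [AddCommGroup M]
    (ρ : D →* AddMonoid.End M) : (ρ.comp g).comp f = ρ :=
  MonoidHom.ext fun x => congrArg ρ (hgf x)

theorem sm_tr (hg : Continuous g) {k : Type} [Field k] {ψ : D →* kˣ} (h : Sm (kch ψ)) :
    Sm (kch (ψ.comp g)) := by
  obtain ⟨W, hW, h'⟩ := h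
  exact ⟨W.comap g, hW.preimage hg, fun w hw => h' _ hw⟩

theorem card_Z1 (hf : Continuous f) (hg : Continuous g) (hfg : ∀ x, f (g x) = x)
    (hgf : ∀ x, g (f x) = x) {M : Type} [AddCommGroup M] (ρ : D →* AddMonoid.End M) :
    Nat.card (BKND.Z1 (ρ.comp g)) = Nat.card (BKND.Z1 ρ) := by
  refine Nat.card_congr ⟨fun x => ⟨pb1 f x, ?_⟩, fun y => ⟨pb1 g y, ?_⟩, fun x => ?_, fun y => ?_⟩
  · have h := GTWA.pb1_Z1 f hf x.2
    rwa [comp_eq hgf] at h
  · exact GTWA.pb1_Z1 g hg y.2
  · exact Subtype.ext (funext fun a => congrArg (x : E → M) (hfg a))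
  · exact Subtype.ext (funext fun a => congrArg (y : D → M) (hgf a))

theorem H0_eq (hgf : ∀ x, g (f x) = x) {M : Type} [AddCommGroup M]
    (ρ : D →* AddMonoid.End M) : BKND.H0 (ρ.comp g) = BKND.H0 ρ := by
  ext m
  refine ⟨fun h x => ?_, fun h x => h (g x)⟩
  have h1 := h (f x)
  rwa [MonoidHom.comp_apply, hgf] at h1

variable {p : ℕ} [Fact p.Prime]

theorem rel_tr (hfg : ∀ x, f (g x) = x) {χ : E →* ℤ_[p]ˣ} {k : Type} [Field k]
    [Algebra (ZMod p) k] {ψ ψ' : D →* kˣ} (h : Rel (χ.comp f) ψ ψ') :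
    Rel χ (ψ.comp g) (ψ'.comp g) := by
  intro x
  have h1 := h (g x)
  rwa [MonoidHom.comp_apply χ, hfg] at h1

/-- the Euler characteristic of a character -/
theorem card_tr (hf : Continuous f) (hg : Continuous g) (hfg : ∀ x, f (g x) = x)
    (hgf : ∀ x, g (f x) = x) {k : Type} [Field k] {ψ ψ' : D →* kˣ} {n : ℕ}
    (h : Nat.card (BKND.Z1 (kch (ψ.comp g))) =
      Nat.card (BKND.H0 (kch (ψ'.comp g))) * Nat.card k ^ n) :
    Nat.card (BKND.Z1 (kch ψ)) = Nat.card (BKND.H0 (kch ψ')) * Nat.card k ^ n := by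
  have h1 : Nat.card (BKND.Z1 (kch (ψ.comp g))) = Nat.card (BKND.Z1 (kch ψ)) :=
    card_Z1 hf hg hfg hgf (kch ψ)
  have h2 : BKND.H0 (kch (ψ'.comp g)) = BKND.H0 (kch ψ') := H0_eq hgf (kch ψ')
  rw [← h1, ← h2]
  exact h

/-- the local axioms for an isomorphic group -/
theorem locAx_tr (hf : Continuous f) (hg : Continuous g) (hfg : ∀ x, f (g x) = x)
    (hgf : ∀ x, g (f x) = x) {χ : E →* ℤ_[p]ˣ} {inv : (E → E → QZ p) →+ QZ p} {δ : ℕ}
    (h : LocAx p χ inv δ) {inv' : (D → D → QZ p) →+ QZ p}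
    (hi : ∀ z ∈ BKND.Z2 (actA (χ.comp f)), inv' z = 0 ↔ z ∈ BKND.B2 (actA (χ.comp f))) :
    LocAx p (χ.comp f) inv' δ := by
  have eχ : (actA (χ.comp f)).comp g = actA χ :=
    MonoidHom.ext fun x => congrArg (actA χ) (hfg x)
  have key : ∀ z ∈ BKND.Z2 (actA (χ.comp f)), inv' z = 0 → inv (pb2 g z) = 0 := by
    intro z hz h0
    have h1 := GTWA.pb2_B2 g hg ((hi z hz).1 h0)
    rw [eχ] at h1
    have h2 := GTWA.pb2_Z2 g hg hz
    rw [eχ] at h2
    exact (h.inv_eq _ h2).2 h1
  refine ⟨hi, ?_, ?_, ?_⟩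
  · intro k _ _ _ ψ ψ' hψ hψ' hrel lam hlam u hu hcup
    have h1 : pb1 g u ∈ BKND.Z1 (kch (ψ.comp g)) := GTWA.pb1_Z1 g hg (ρ := kch ψ) hu
    have h2 := h.one k (ψ.comp g) (ψ'.comp g) (sm_tr hg hψ) (sm_tr hg hψ') (rel_tr hfg hrel)
      lam hlam _ h1 ?_
    · have h3 := GTWA.pb1_B1 f h2
      have e1 : (kch (ψ.comp g)).comp f = kch ψ := comp_eq hgf (kch ψ)
      rw [e1] at h3
      have e2 : pb1 f (pb1 g u) = u := funext fun a => congrArg u (hgf a)
      rwa [e2] at h3
    · intro v hv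
      have h4 : pb1 f v ∈ BKND.Z1 (kch ψ') := by
        have h5 := GTWA.pb1_Z1 f hf hv
        have e1 : (kch (ψ'.comp g)).comp f = kch ψ' := comp_eq hgf (kch ψ')
        rwa [e1] at h5
      have h6 := key _ (XLINEA.cupk_mem (χ.comp f) ψ ψ' hψ' hrel lam u (pb1 f v) hu h4)
        (hcup _ h4)
      have e3 : pb2 g (cupk ψ' lam u (pb1 f v)) = cupk (ψ'.comp g) lam (pb1 g u) v := by
        funext a b
        change lam (u (g a) * (((ψ' (g a) : kˣ) : k) * v (f (g b)))) = _
        rw [hfg]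
        rfl
      rwa [e3] at h6
  · intro k _ _ _ ψ ψ' hψ hψ' hrel lam hlam z hz hcup
    have h1 : pb2 g z ∈ BKND.Z2 (kch (ψ.comp g)) := GTWA.pb2_Z2 g hg (ρ := kch ψ) hz
    have h2 := h.two k (ψ.comp g) (ψ'.comp g) (sm_tr hg hψ) (sm_tr hg hψ') (rel_tr hfg hrel)
      lam hlam _ h1 ?_
    · have h3 := GTWA.pb2_B2 f hf h2
      have e1 : (kch (ψ.comp g)).comp f = kch ψ := comp_eq hgf (kch ψ)
      rw [e1] at h3
      have e2 : pb2 f (pb2 g z) = z := by
        funext a b
        change z (g (f a)) (g (f b)) = z a b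
        rw [hgf, hgf]
      rwa [e2] at h3
    · intro y hy
      have e4 : BKND.H0 (kch (ψ'.comp g)) = BKND.H0 (kch ψ') := H0_eq hgf (kch ψ')
      have hy' : y ∈ BKND.H0 (kch ψ') := by
        rw [← e4]
        exact hy
      exact key _ (FGAM.lamz_mem (χ.comp f) ψ ψ' hrel lam z hz y hy') (hcup y hy')
  · intro k _ _ _ ψ ψ' hψ hψ' hrel
    exact card_tr hf hg hfg hgf (h.card k (ψ.comp g) (ψ'.comp g) (sm_tr hg hψ) (sm_tr hg hψ')
      (rel_tr hfg hrel))

end Tr

/-! ### The image of a subgroup of a subgroup -/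

section Sub

variable {G : Type} [Group G] [TopologicalSpace G] (V : Subgroup G) (W : Subgroup V)

/-- the map to the image -/
def toIm : W →* W.map V.subtype :=
  (W.equivMapOfInjective V.subtype V.subtype_injective).toMonoidHom

/-- the inverse map -/
def ofIm : W.map V.subtype →* W :=
  (W.equivMapOfInjective V.subtype V.subtype_injective).symm.toMonoidHom

theorem toIm_ofIm (x : W.map V.subtype) : toIm V W (ofIm V W x) = x :=
  (W.equivMapOfInjective V.subtype V.subtype_injective).apply_symm_apply x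

theorem ofIm_toIm (x : W) : ofIm V W (toIm V W x) = x :=
  (W.equivMapOfInjective V.subtype V.subtype_injective).symm_apply_apply x

theorem coe_toIm (x : W) : ((toIm V W x : W.map V.subtype) : G) = ((x : V) : G) :=
  Subgroup.coe_equivMapOfInjective_apply W V.subtype V.subtype_injective x

theorem coe_ofIm (x : W.map V.subtype) : (((ofIm V W x : W) : V) : G) = (x : G) := by
  rw [← coe_toIm, toIm_ofIm]

theorem cont_toIm : Continuous (toIm V W) := by
  refine continuous_induced_rng.2 ?_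
  change Continuous fun x : W => ((toIm V W x : W.map V.subtype) : G)
  have h : (fun x : W => ((toIm V W x : W.map V.subtype) : G)) = fun x : W => ((x : V) : G) :=
    funext fun x => coe_toIm V W x
  rw [h]
  exact continuous_subtype_val.comp continuous_subtype_val

theorem cont_ofIm : Continuous (ofIm V W) := by
  refine continuous_induced_rng.2 (continuous_induced_rng.2 ?_)
  change Continuous fun x : W.map V.subtype => (((ofIm V W x : W) : V) : G)
  have h : (fun x : W.map V.subtype => (((ofIm V W x : W) : V) : G)) =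
      fun x : W.map V.subtype => (x : G) := funext fun x => coe_ofIm V W x
  rw [h]
  exact continuous_subtype_val

theorem open_im (hV : IsOpen (V : Set G)) (hW : IsOpen (W : Set V)) :
    IsOpen ((W.map V.subtype : Subgroup G) : Set G) := by
  rw [Subgroup.coe_map]
  exact hV.isOpenEmbedding_subtypeVal.isOpenMap _ hW

end Sub

end GNNLS

open GNNLS in
/-- Module NLS: the local axioms for characters of open subgroups of `V`. -/
theorem stNls (h1 : StLos) (h2 : StNcr) : StNls := by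
  intro p l hp _ hp2 hlp V hV hVp inv hinv
  obtain ⟨inv0, hinv0⟩ := exists_inv p l hp2 hlp
  have hS := h1 p l hp2 inv0 hinv0
  rw [if_neg hlp] at hS
  have hna : NonarchimedeanGroup (GQ l) := LLOS.nonarch l
  have hnaV : NonarchimedeanGroup V := BKOdd.nonarch_subgroup V
  have cV : CompactSpace V := isCompact_iff_compactSpace.1 (V.isClosed_of_isOpen hV).isCompact
  have hidx : ∀ W : Subgroup V, (W.map V.subtype).index = W.index * V.index := fun W =>
    Subgroup.index_map_subtype W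
  refine ⟨hinv, fun W hW hWp => ?_, fun W hW k _ _ _ ψ ψ' hψ hψ' hrel => ?_⟩
  · have hfin : Finite (V ⧸ W) := W.quotient_finite_of_isOpen hW
    have hW' : ¬ p ∣ (W.map V.subtype).index := by
      rw [hidx, hp.out.dvd_mul, not_or]
      exact ⟨hWp, hVp⟩
    obtain ⟨invW, -, hA⟩ := hS.syl (W.map V.subtype) (open_im V W hV hW) hW'
    rw [mul_zero] at hA ⊢
    refine ⟨LLOS.invC W (actA ((cycL p l).comp V.subtype)) inv, fun z => rfl, ?_⟩
    refine locAx_tr (cont_toIm V W) (cont_ofIm V W) (toIm_ofIm V W) (ofIm_toIm V W) hA ?_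
    intro z hz
    have hz' : z ∈ BKND.Z2 (actA (((cycL p l).comp V.subtype).comp W.subtype)) := hz
    have hc : BKLoc2.corM2 W (actA ((cycL p l).comp V.subtype)) z ∈
        BKND.Z2 (actA ((cycL p l).comp V.subtype)) :=
      LLOS.cor_mem W hW (actA ((cycL p l).comp V.subtype)) hz'
    change inv (BKLoc2.corM2 W (actA ((cycL p l).comp V.subtype)) z) = 0 ↔
      z ∈ BKND.B2 (actA (((cycL p l).comp V.subtype).comp W.subtype))
    rw [hinv _ hc]
    exact ⟨fun h => (h2 p l hp2 V hV hVp).2.2 W hW hWp z hz' h,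
      fun h => LLOS.cor_cob W hW (actA ((cycL p l).comp V.subtype)) h⟩
  · have h4 := hS.card (W.map V.subtype) (open_im V W hV hW) k (ψ.comp (ofIm V W))
      (ψ'.comp (ofIm V W)) (sm_tr (cont_ofIm V W) hψ) (sm_tr (cont_ofIm V W) hψ')
      (rel_tr (f := toIm V W) (toIm_ofIm V W) hrel)
    rw [mul_zero] at h4 ⊢
    exact card_tr (cont_toIm V W) (cont_ofIm V W) (toIm_ofIm V W) (ofIm_toIm V W) h4

end BKT
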