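import Pool.Agent.Lib.MP_7c08ba_nt.T1.StGN
import Pool.Agent.Lib.MP_7c08ba_nt.Odd.Adm

set_option autoImplicit false

/-!
Parity for general residual representations, part GN: module NPL, decomposition groups at primes
which do not split.
-/

noncomputable section

namespace BKT

open NumberField
open BKMet

namespace GNNPL

variable {F : Type} [Field F] {l : ℕ} [Fact l.Prime]

/-- the decomposition group -/
def Vg (j : AlgebraicClosure F →+* PadicAlgCl l) : Subgroup (GQ l) where
  carrier := {t | ∀ a : F, t (j (algebraMap F (AlgebraicClosure F) a)) =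
    j (algebraMap F (AlgebraicClosure F) a)}
  mul_mem' := by
    intro s t hs ht a
    change s (t (j (algebraMap F (AlgebraicClosure F) a))) = _
    rw [ht a, hs a]
  one_mem' := fun a => rfl
  inv_mem' := by
    intro t ht a
    have h1 := congrArg (fun x => t⁻¹ x) (ht a)
    have h2 : t⁻¹ (t (j (algebraMap F (AlgebraicClosure F) a))) =
        j (algebraMap F (AlgebraicClosure F) a) := by
      change (t⁻¹ * t) _ = _
      rw [inv_mul_cancel]
      rfl
    exact h1.symm.trans h2

/-- the restriction of an automorphism -/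
theorem exists_res (j : AlgebraicClosure F →+* PadicAlgCl l) (t : GQ l) (ht : t ∈ Vg j) :
    ∃ s : GF F, ∀ x, j (s x) = t (j x) := by
  let a : Algebra (AlgebraicClosure F) (PadicAlgCl l) := j.toAlgebra
  let b : Algebra F (PadicAlgCl l) := (j.comp (algebraMap F (AlgebraicClosure F))).toAlgebra
  have c : IsScalarTower F (AlgebraicClosure F) (PadicAlgCl l) :=
    IsScalarTower.of_algebraMap_eq' rfl
  let τ : PadicAlgCl l ≃ₐ[F] PadicAlgCl l := AlgEquiv.ofRingEquiv (f := t.toRingEquiv) (by
    intro x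
    exact ht x)
  exact ⟨τ.restrictNormal (AlgebraicClosure F), fun x =>
    τ.restrictNormal_commutes (AlgebraicClosure F) x⟩

/-- the map of the local group -/
theorem exists_map (j : AlgebraicClosure F →+* PadicAlgCl l) :
    ∃ r : Vg j →* GF F, Continuous r ∧
      ∀ (t : Vg j) (x : AlgebraicClosure F), j (r t x) = (t : GQ l) (j x) := by
  choose r hr using fun t : Vg j => exists_res j t t.2
  have h1 : r 1 = 1 := by
    ext x
    apply j.injective
    rw [hr]
    rfl
  have h2 : ∀ s t, r (s * t) = r s * r t := by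
    intro s t
    ext x
    apply j.injective
    change j (r (s * t) x) = j (r s (r t x))
    rw [hr, hr, hr]
    rfl
  refine ⟨⟨⟨r, h1⟩, h2⟩, ?_, hr⟩
  refine BKOdd.Adm.continuous_of_stab _ fun x => ?_
  have h3 : {g : Vg j | (⟨⟨r, h1⟩, h2⟩ : Vg j →* GF F) g x = x} =
      (Subtype.val : Vg j → GQ l) ⁻¹' {g : GQ l | g (j x) = j x} := by
    ext g
    constructor
    · intro h
      change r g x = x at h
      change (g : GQ l) (j x) = j x
      rw [← hr, h]
    · intro h
      change (g : GQ l) (j x) = j x at h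
      change r g x = x
      apply j.injective
      rw [hr, h]
  rw [h3]
  exact continuous_subtype_val.continuousAt.preimage_mem_nhds (BKOdd.Adm.stab_mem_nhds (j x))

/-- an element of the field of `l`-adic numbers -/
theorem mem_ql (y : PadicAlgCl l) (h : ∀ t : GQ l, t y = y) :
    ∃ a : ℚ_[l], algebraMap ℚ_[l] (PadicAlgCl l) a = y := by
  have h1 : y ∈ (⊥ : IntermediateField ℚ_[l] (PadicAlgCl l)) := by
    rw [InfiniteGalois.mem_bot_iff_fixed]
    exact h
  exact IntermediateField.mem_bot.1 h1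

/-- if all automorphisms fix the image of `F` then `l` splits -/
theorem splits (f : F →+* PadicAlgCl l) (h : ∀ (t : GQ l) (a : F), t (f a) = f a) :
    Splits F l := by
  choose g hg using fun a : F => mem_ql (f a) fun t => h t a
  have h1 : g 1 = 1 := by
    apply (algebraMap ℚ_[l] (PadicAlgCl l)).injective
    rw [hg, map_one, map_one]
  have h2 : ∀ a b, g (a * b) = g a * g b := by
    intro a b
    apply (algebraMap ℚ_[l] (PadicAlgCl l)).injective
    rw [hg, map_mul, map_mul, hg, hg]
  have h3 : g 0 = 0 := by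
    apply (algebraMap ℚ_[l] (PadicAlgCl l)).injective
    rw [hg, map_zero, map_zero]
  have h4 : ∀ a b, g (a + b) = g a + g b := by
    intro a b
    apply (algebraMap ℚ_[l] (PadicAlgCl l)).injective
    rw [hg, map_add, map_add, hg, hg]
  exact ⟨inferInstance, ⟨⟨⟨⟨g, h1⟩, h2⟩, h3, h4⟩⟩⟩

variable [NumberField F]

theorem card_emb (hF : Module.finrank ℚ F = 2) :
    Fintype.card (F →+* PadicAlgCl l) = 2 := by
  rw [NumberField.Embeddings.card F (PadicAlgCl l), hF]

/-- if `l` splits then the image of `F` is fixed by all automorphisms -/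
theorem fixed (hF : Module.finrank ℚ F = 2) (g : F →+* ℚ_[l]) (f : F →+* PadicAlgCl l)
    (t : GQ l) (a : F) : t (f a) = f a := by
  classical
  have hq : Algebra.IsQuadraticExtension ℚ F := ⟨hF⟩
  have hcardF : Nat.card (F ≃ₐ[ℚ] F) = 2 := by
    rw [IsGalois.card_aut_eq_finrank, hF]
  obtain ⟨σ, hσ⟩ : ∃ σ : F ≃ₐ[ℚ] F, σ ≠ 1 := by
    by_contra hcon
    push Not at hcon
    have : Nat.card (F ≃ₐ[ℚ] F) ≤ 1 := by
      rw [Finite.card_le_one_iff_subsingleton]
      exact ⟨fun x y => by rw [hcon x, hcon y]⟩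
    omega
  let f₁ : F →+* PadicAlgCl l := (algebraMap ℚ_[l] (PadicAlgCl l)).comp g
  let f₂ : F →+* PadicAlgCl l := f₁.comp (σ : F →+* F)
  have h12 : f₁ ≠ f₂ := by
    intro h
    apply hσ
    ext x
    have h1 : f₁ x = f₁ (σ x) := RingHom.congr_fun h x
    exact (f₁.injective h1).symm
  have h1 : ∀ x, t (f₁ x) = f₁ x := fun x => t.commutes (g x)
  by_cases h13 : f = f₁
  · rw [h13]
    exact h1 a
  · by_cases h23 : f = f₂
    · rw [h23]
      exact h1 (σ a)
    · exfalso
      have h4 : 2 < Fintype.card (F →+* PadicAlgCl l) :=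
        Fintype.two_lt_card_iff.mpr ⟨f₁, f₂, f, h12, fun h => h13 h.symm, fun h => h23 h.symm⟩
      rw [card_emb hF] at h4
      omega

/-- the stabiliser of the image of `F` is open -/
theorem isOpen (f : F →+* PadicAlgCl l) (V : Subgroup (GQ l))
    (hV : ∀ t : GQ l, t ∈ V ↔ ∀ a : F, t (f a) = f a) : IsOpen (V : Set (GQ l)) := by
  let b := Module.finBasis ℚ F
  have h2 : (⋂ i, {t : GQ l | t (f (b i)) = f (b i)}) ∈ nhds (1 : GQ l) :=
    Filter.iInter_mem.2 fun i => BKOdd.Adm.stab_mem_nhds (f (b i))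
  refine Subgroup.isOpen_of_mem_nhds V (g := 1) (Filter.mem_of_superset h2 fun t ht => ?_)
  rw [SetLike.mem_coe, hV]
  have h3 : ((t : PadicAlgCl l →+* PadicAlgCl l).comp f).toRatAlgHom.toLinearMap =
      f.toRatAlgHom.toLinearMap := by
    refine b.ext fun i => ?_
    exact Set.mem_iInter.1 ht i
  intro a
  exact LinearMap.congr_fun h3 a

/-- the index of the stabiliser of the image of `F` is at most two -/
theorem index_le (hF : Module.finrank ℚ F = 2) (f : F →+* PadicAlgCl l) (V : Subgroup (GQ l))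
    (hV : ∀ t : GQ l, t ∈ V ↔ ∀ a : F, t (f a) = f a) : V.index ≤ 2 := by
  have h1 : Function.Injective fun q : GQ l ⧸ V =>
      ((q.out : GQ l) : PadicAlgCl l →+* PadicAlgCl l).comp f := by
    intro q q' hqq
    have h2 : q.out⁻¹ * q'.out ∈ V := by
      rw [hV]
      intro a
      have h3 : q.out (f a) = q'.out (f a) := RingHom.congr_fun hqq a
      change q.out⁻¹ (q'.out (f a)) = f a
      rw [← h3]
      change (q.out⁻¹ * q.out) (f a) = f a
      rw [inv_mul_cancel]
      rfl
    rw [← QuotientGroup.out_eq' q, ← QuotientGroup.out_eq' q']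
    exact QuotientGroup.eq.2 h2
  have h2 := Nat.card_le_card_of_injective _ h1
  rw [Nat.card_eq_fintype_card (α := F →+* PadicAlgCl l), card_emb hF] at h2
  exact h2

/-- an embedding of the algebraic closure -/
theorem exists_emb (hF : Module.finrank ℚ F = 2) :
    Nonempty (AlgebraicClosure F →+* PadicAlgCl l) := by
  have h1 : 0 < Fintype.card (F →+* PadicAlgCl l) := by
    rw [card_emb hF]
    norm_num
  obtain ⟨f⟩ := Fintype.card_pos_iff.1 h1
  let a : Algebra F (PadicAlgCl l) := f.toAlgebra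
  let φ : AlgebraicClosure F →ₐ[F] PadicAlgCl l := IsAlgClosed.lift
  exact ⟨φ.toRingHom⟩

end GNNPL

/-- Module NPL. -/
theorem stNpl : StNpl := by
  intro F _ _ hF
  refine ⟨?_, ?_⟩
  · intro N hN hpr hns
    have h1 : ∀ i : N, ∃ (_ : Fact (i : ℕ).Prime) (j : AlgebraicClosure F →+* PadicAlgCl (i : ℕ))
        (V : Subgroup (GQ (i : ℕ))) (r : V →* GF F), Continuous r ∧
        (∀ (t : V) (x : AlgebraicClosure F), j (r t x) = (t : GQ (i : ℕ)) (j x)) ∧
        (∀ t : GQ (i : ℕ), t ∈ V ↔ ∀ a : F, t (j (algebraMap F (AlgebraicClosure F) a)) =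
          j (algebraMap F (AlgebraicClosure F) a)) ∧ V ≠ ⊤ := by
      intro i
      have hp : Fact (i : ℕ).Prime := ⟨hpr i i.2⟩
      obtain ⟨j⟩ := GNNPL.exists_emb (F := F) (l := (i : ℕ)) hF
      obtain ⟨r, hr, hr'⟩ := GNNPL.exists_map j
      refine ⟨hp, j, GNNPL.Vg j, r, hr, hr', fun t => Iff.rfl, fun htop => hns i i.2 ?_⟩
      refine GNNPL.splits (j.comp (algebraMap F (AlgebraicClosure F))) fun t a => ?_
      have h2 : t ∈ GNNPL.Vg j := by
        rw [htop]
        exact Subgroup.mem_top t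
      exact h2 a
    choose pr j V r hc hs hm hne using h1
    let a : Fintype N := hN.fintype
    refine ⟨{ κ := N, m := fun i => i, pr := pr, inj := Subtype.val_injective, j := j, V := V,
              r := r, cont := hc, spec := hs, mem := hm, ne := hne }, ?_⟩
    exact Subtype.range_coe
  · intro Ξ k
    have hm : ∀ t : GQ (Ξ.m k), t ∈ Ξ.V k ↔
        ∀ a : F, t (((Ξ.j k).comp (algebraMap F (AlgebraicClosure F))) a) =
          ((Ξ.j k).comp (algebraMap F (AlgebraicClosure F))) a := Ξ.mem k
    have ho : IsOpen (Ξ.V k : Set (GQ (Ξ.m k))) := GNNPL.isOpen _ _ hm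
    have hle := GNNPL.index_le hF _ _ hm
    have h0 : (Ξ.V k).index ≠ 0 := by
      have hfin : Finite (GQ (Ξ.m k) ⧸ Ξ.V k) := (Ξ.V k).quotient_finite_of_isOpen ho
      exact Subgroup.index_ne_zero_of_finite
    have h1 : (Ξ.V k).index ≠ 1 := fun h => Ξ.ne k (Subgroup.index_eq_one.1 h)
    have h2 : (Ξ.V k).index = 2 := by omega
    refine ⟨ho, Subgroup.normal_of_index_eq_two h2, h2, ?_⟩
    rintro ⟨hp, ⟨g⟩⟩
    refine Ξ.ne k ((Subgroup.eq_top_iff' _).2 fun t => ?_)
    rw [hm]
    exact fun a => GNNPL.fixed hF g _ t a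

end BKT
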