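import Pool.Agent.Lib.MP_7c08ba_nt.T1.StGN
import Pool.Agent.Lib.MP_7c08ba_nt.T1.LLOS
import Pool.Agent.Lib.MP_7c08ba_nt.T1.LCRV
import Pool.Agent.Lib.MP_7c08ba_nt.Met.HRE

set_option autoImplicit false

/-!
Parity for general residual representations and arbitrary ramification at the primes which do not
split, part GN, module NRE: the reciprocity law.
-/

noncomputable section

namespace BKT

open NumberField IsDedekindDomain BKGen
open BKPar (Loc1 Loc2)
open BKND (Sm)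
open BKMet
open BKLoc2 (hq ht cl sc cy cyL Sys IsKP IsLam IsHom corM2)
open BKGlob2 (Cp fs sn CC0 Prin SP US IsAct InvL)
open BKGlob2.REAux
open BKV (RU GU dc)

namespace GNNRE

section Loc

variable {p : ℕ} [Fact p.Prime] {F : Type} [Field F] [NumberField F] {l : ℕ} [Fact l.Prime]
  {J : AlgebraicClosure F →+* PadicAlgCl l} {V : Subgroup (GQ l)} {r : V →* GF F}

omit [NumberField F] in
/-- the system of roots of unity at the place -/
theorem sys_map (J : AlgebraicClosure F →+* PadicAlgCl l) {z : ℕ → AlgebraicClosure F}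
    (hz : Sys p z) : Sys p (fun n => J (z n)) :=
  ⟨fun n => (hz.prim n).map_of_injective J.injective, fun n => by rw [← map_pow, hz.pow]⟩

omit [NumberField F] in
/-- the Kummer cocycle at the place -/
theorem kp_loc (spec : ∀ (t : V) (x : AlgebraicClosure F), J (r t x) = (t : GQ l) (J x))
    {z : ℕ → AlgebraicClosure F} {a : AlgebraicClosure F} {κ : GF F → ℤ_[p]}
    (hκ : IsKP (MonoidHom.id (GF F)) z a κ) :
    IsKP V.subtype (fun n => J (z n)) (J a) (fun t => κ (r t)) := by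
  obtain ⟨y, h0, h1, h2⟩ := hκ
  refine ⟨fun n => J (y n), congrArg J h0, fun n => by rw [← map_pow, h1], fun n t => ?_⟩
  change (t : GQ l) (J (y n)) = _
  rw [← spec]
  have h3 : (r t) (y n) = z n ^ (PadicInt.toZModPow n (κ (r t))).val * y n := h2 n (r t)
  rw [h3, map_mul, map_pow]

/-- an element of the Galois group of `ℚ_l` which moves `F` -/
theorem conj_eq (hF : Module.finrank ℚ F = 2) {c₀ : AlgebraicClosure F ≃+* AlgebraicClosure F}
    (hc : IsConj c₀) (J : AlgebraicClosure F →+* PadicAlgCl l) {t : GQ l}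
    (ht : ¬ ∀ a : F, t (J (algebraMap F (AlgebraicClosure F) a)) =
      J (algebraMap F (AlgebraicClosure F) a)) (a : F) :
    t (J (algebraMap F (AlgebraicClosure F) a)) =
      J (c₀ (algebraMap F (AlgebraicClosure F) a)) := by
  classical
  have hcard : Fintype.card (F →+* PadicAlgCl l) = 2 := by
    rw [NumberField.Embeddings.card F (PadicAlgCl l), hF]
  let f₁ : F →+* PadicAlgCl l := J.comp (algebraMap F (AlgebraicClosure F))
  let f₂ : F →+* PadicAlgCl l :=
    (J.comp (c₀ : AlgebraicClosure F →+* AlgebraicClosure F)).comp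
      (algebraMap F (AlgebraicClosure F))
  let f₃ : F →+* PadicAlgCl l :=
    ((t : PadicAlgCl l →+* PadicAlgCl l).comp J).comp (algebraMap F (AlgebraicClosure F))
  have h12 : f₁ ≠ f₂ := by
    intro h
    obtain ⟨a, ha⟩ := hc.2
    have h1 : J (algebraMap F (AlgebraicClosure F) a) =
        J (c₀ (algebraMap F (AlgebraicClosure F) a)) := RingHom.congr_fun h a
    exact ha (J.injective h1).symm
  have h13 : f₃ ≠ f₁ := fun h => ht fun a => RingHom.congr_fun h a
  by_cases h23 : f₃ = f₂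
  · exact RingHom.congr_fun h23 a
  · exfalso
    have h4 : 2 < Fintype.card (F →+* PadicAlgCl l) :=
      Fintype.two_lt_card_iff.mpr ⟨f₁, f₂, f₃, h12, fun h => h13 h.symm, fun h => h23 h.symm⟩
    omega

omit [NumberField F] in
/-- the invariant of the transfer of a class which is a product -/
theorem inv_cor {lam : ℤ_[p]ˣ → ℤ_[p]} {z : ℕ → PadicAlgCl l}
    {inv : (GQ l → GQ l → QZ p) →+ QZ p} (hinv : InvL p lam l z inv)
    (hV : IsOpen (V : Set (GQ l))) (hf : Continuous r)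
    (hχ : ∀ t, cycF p F (r t) = cyL p l t) {α : GF F → GF F → QZ p}
    (hα : α ∈ BKND.Z2 (actA (cycF p F))) {κ : GF F → ℤ_[p]} {M : ℕ}
    (hs : sc κ (fun g : GF F => lam (cycF p F g)) M ∈ BKND.Z2 (actA (cycF p F)))
    (hd : α - sc κ (fun g : GF F => lam (cycF p F g)) M ∈ BKND.B2 (actA (cycF p F))) :
    inv (corM2 V (actA (cycL p l)) (pb2 r α)) =
      inv (corM2 V (actA (cycL p l)) (sc (fun t => κ (r t)) (fun g => lam (cyL p l g)) M)) := by
  have hna : NonarchimedeanGroup (GQ l) := LLOS.nonarch l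
  have hfin : Finite (GQ l ⧸ V) := V.quotient_finite_of_isOpen hV
  have e1 : (actA (cycF p F)).comp r = (actA (cycL p l)).comp V.subtype := by
    ext t : 1
    change actA (cycF p F) (r t) = actA (cyL p l) (t : GQ l)
    unfold actA
    simp only [MonoidHom.comp_apply, hχ]
  have hZ := pb2_Z2 hf e1 (sub_mem hα hs)
  have hB := pb2_B2 hf e1 hd
  have f1 : inv (corM2 V (actA (cycL p l))
      (pb2 r (α - sc κ (fun g : GF F => lam (cycF p F g)) M))) = 0 :=
    (hinv.zero _ (LLOS.cor_mem V hV (actA (cycL p l)) hZ)).2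
      (LLOS.cor_cob V hV (actA (cycL p l)) hB)
  have g1 : pb2 r (α - sc κ (fun g : GF F => lam (cycF p F g)) M) =
      pb2 r α - sc (fun t => κ (r t)) (fun g : V => lam (cyL p l g)) M := by
    funext t t'
    change α (r t) (r t') - cl p (((κ (r t) * lam (cycF p F (r t')) :
      ℤ_[p]) : ℚ_[p]) / (p : ℚ_[p]) ^ M) = α (r t) (r t') - cl p (((κ (r t) *
      lam (cyL p l t') : ℤ_[p]) : ℚ_[p]) / (p : ℚ_[p]) ^ M)
    rw [hχ]
  rw [g1, ← LCRV.corHom_apply, map_sub, map_sub, sub_eq_zero] at f1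
  exact f1

end Loc

end GNNRE

open GNNRE

/-- Module NRE: the reciprocity law. -/
theorem stNre (h1 : StNra) (hNsy : StNsy) (hNpl : StNpl) (h2 : BKGlob2.StLX)
    (h3 : BKGlob2.StRN) (h4 : BKGlob2.StRP) (h5 : BKGlob2.StCJ) (h6 : BKGlob2.StCY)
    (h7 : BKLoc2.StKPE) (h8 : BKLoc2.StSC) (h9 : BKLoc2.StCyP) : StNre := by
  intro p _ hp F _ _ hF hR c₀ cc hcc Λ Ξ hSpl hpP hΞp lam hlam z hz inv hinv inv' hinv' α hα hloc
  have hna := nonarch F (AlgebraicClosure F)
  obtain ⟨hc, -, k1, k2, -, -⟩ := h7 p F (AlgebraicClosure F) (GF F) (MonoidHom.id (GF F))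
    continuous_id z hz
  have hc' : Continuous (cycF p F) := hc
  have hθ : IsHom (fun g : GF F => lam (cycF p F g)) :=
    ⟨hlam.cont.comp hc', fun g h => by rw [map_mul, hlam.mul]⟩
  -- the conjugation
  obtain ⟨-, hcj⟩ := h5 F hF hR c₀ hcc.conj
  obtain ⟨c1, c2, c3, c4, -⟩ := hcj cc hcc
  obtain ⟨c4, c5⟩ := c4 p hp
  have hcz := c5 z hz
  -- the subgroup far up
  obtain ⟨M, hM⟩ := h1 p hp F hF hR Λ Ξ hSpl lam hlam α hα hloc
  have hM := hM M le_rfl
  obtain ⟨U, hU⟩ := exists_sub hθ M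
  have hαU := hM U hU
  -- the characters
  have hchar : ∀ i (t : GQ (Λ.l i)), cycF p F (Λ.r i t) = cyL p (Λ.l i) t := fun i t =>
    (h6 p F (AlgebraicClosure F) ℚ_[Λ.l i] (PadicAlgCl (Λ.l i))).2 (Λ.j i) (Λ.r i t) t
      (Λ.spec i t)
  have hchar' : ∀ k (t : Ξ.V k), cycF p F (Ξ.r k t) = cyL p (Ξ.m k) t := fun k t =>
    (h6 p F (AlgebraicClosure F) ℚ_[Ξ.m k] (PadicAlgCl (Ξ.m k))).2 (Ξ.j k) (Ξ.r k t) t
      (Ξ.spec k t)
  obtain ⟨i₀, hi₀⟩ := hpP
  obtain ⟨t₀, ht₀⟩ := lam_surj (l := Λ.l i₀) hi₀ h9 hlam 1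
  -- the global class
  obtain ⟨a, ha0, haf, hak⟩ := h2 p F (AlgebraicClosure F) (GF F) (MonoidHom.id (GF F))
    Topology.IsOpenEmbedding.id z hz (fun g : GF F => lam (cycF p F g)) hθ (Λ.r i₀ t₀)
    (by
      change lam (cycF p F (Λ.r i₀ t₀)) = 1
      rw [hchar, ht₀]) M U hU α hα hαU
  obtain ⟨κ, hκ⟩ := k1 a ha0 haf
  have hd : α - sc κ (fun g : GF F => lam (cycF p F g)) M ∈ BKND.B2 (actA (cycF p F)) :=
    hak κ hκ
  obtain ⟨s1, s2, -, -, -, -⟩ := h8 p (GF F) (cycF p F) hc' _ hθ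
  have hs : sc κ (fun g : GF F => lam (cycF p F g)) M ∈ BKND.Z2 (actA (cycF p F)) :=
    s1 κ (k2 a κ ha0 hκ) M
  have hbot : a ∈ (⊥ : IntermediateField F (AlgebraicClosure F)) := by
    rw [InfiniteGalois.mem_bot_iff_fixed]
    exact haf
  obtain ⟨a₀, rfl⟩ := IntermediateField.mem_bot.1 hbot
  have ha₀ : a₀ ≠ 0 := by
    rintro rfl
    exact ha0 (map_zero _)
  obtain ⟨a', ha', b, hb⟩ := c3 a₀
  have ha'0 : a' ≠ 0 := by
    rintro rfl
    rw [map_zero, map_eq_zero_iff _ c₀.injective] at ha'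
    exact ha0 ha'
  have hb0 : b ≠ 0 := by
    rintro rfl
    rw [map_zero] at hb
    exact mul_ne_zero ha₀ ha'0 hb.symm
  -- the set of primes
  have hrange : Set.range (Sum.elim Λ.l Ξ.m) = Λ.P ∪ Ξ.P := Set.Sum.elim_range _ _
  have hinj : Function.Injective (Sum.elim Λ.l Ξ.m) := by
    rintro (i | k) (i' | k') h
    · exact congrArg Sum.inl (Λ.inj h)
    · exfalso
      have h' : Λ.l i = Ξ.m k' := h
      exact ((hNpl F hF).2 Ξ k').2.2.2 (h' ▸ hSpl i)
    · exfalso
      have h' : Ξ.m k = Λ.l i' := h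
      exact ((hNpl F hF).2 Ξ k).2.2.2 (h' ▸ hSpl i')
    · exact congrArg Sum.inr (Ξ.inj h)
  -- the product formula
  have key := h4 p hp lam hlam (Λ.ι ⊕ Ξ.κ) (Sum.elim Λ.l Ξ.m) hinj (by
    rintro (i | k)
    · exact (Λ.pr i).out
    · exact (Ξ.pr k).out) ⟨Sum.inl i₀, hi₀⟩ b hb0 M
    (fun q hq hqP u hu => by
      have : Fact q.Prime := ⟨hq⟩
      rw [hrange] at hqP
      have hqp : q ≠ p := by
        rintro rfl
        exact hqP (Or.inl ⟨i₀, hi₀⟩)
      refine h3 p hp F hF hR c₀ hcc.conj lam hlam z hz a₀ a' b ha₀ ha' hb κ hκ M q hqp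
        (fun j => ?_) u hu
      have hfs : Continuous (fs (MonoidHom.id (GF F)) j) :=
        continuous_fst.comp continuous_subtype_val
      have e := sub_mem (hloc q hqP j) (pb2_B2 hfs rfl hd :
        pb2 (fs (MonoidHom.id (GF F)) j) (α - sc κ (fun g : GF F => lam (cycF p F g)) M) ∈
          BKND.B2 (actA ((cycF p F).comp (fs (MonoidHom.id (GF F)) j))))
      have e' : pb2 (fs (MonoidHom.id (GF F)) j) α - pb2 (fs (MonoidHom.id (GF F)) j)
          (α - sc κ (fun g : GF F => lam (cycF p F g)) M) =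
          pb2 (fs (MonoidHom.id (GF F)) j) (sc κ (fun g : GF F => lam (cycF p F g)) M) := by
        funext t t'
        exact sub_sub_cancel _ _
      rwa [e'] at e)
    (Sum.elim (fun i => inv i (pb2 (Λ.r i) α) - inv i (pb2 (cc.comp (Λ.r i)) α))
      (fun k => inv' k (corM2 (Ξ.V k) (actA (cycL p (Ξ.m k))) (pb2 (Ξ.r k) α))))
    (by
      rintro (i | k) hi u hu
      · obtain ⟨a₁, a₂, κ₁, κ₂, n1, n2, hm, q1, q2, q3⟩ := inv_two hz (hinv i) (Λ.spec i)
          (Λ.cont i) (hchar i) hcc c1 c2 c4 hcz ha' hb hb0 hα hκ hs hd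
        simp only [Sum.elim_inl] at hi hu ⊢
        rw [q3, (hinv i).ne hi u hu a₁ n1 κ₁ q1 M, (hinv i).ne hi u hu a₂ n2 κ₂ q2 M,
          ← BKLoc2.SCAux.cl_add, ← add_div, ← PadicInt.coe_add, ← add_mul, ← Int.cast_add,
          ← Padic.valuation_mul n1 n2, hm, Padic.valuation_ratCast]
      · simp only [Sum.elim_inr] at hi hu ⊢
        obtain ⟨hVo, hVn, hVi, -⟩ := (hNpl F hF).2 Ξ k
        obtain ⟨t, ht⟩ : ∃ t : GQ (Ξ.m k), t ∉ Ξ.V k := by
          by_contra hcon
          push Not at hcon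
          exact Ξ.ne k ((Subgroup.eq_top_iff' _).2 hcon)
        have htn : ¬ ∀ a : F, t (Ξ.j k (algebraMap F (AlgebraicClosure F) a)) =
            Ξ.j k (algebraMap F (AlgebraicClosure F) a) := fun h => ht ((Ξ.mem k t).2 h)
        have hta := conj_eq hF hcc.conj (Ξ.j k) htn a₀
        rw [ha'] at hta
        rw [inv_cor (hinv' k) hVo (Ξ.cont k) (hchar' k) hα hs hd]
        refine hNsy p (Ξ.m k) hp (hΞp k) lam hlam (fun n => Ξ.j k (z n)) (sys_map (Ξ.j k) hz)
          (inv' k) (hinv' k) (Ξ.V k) hVo hVn hVi t ht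
          (Ξ.j k (algebraMap F (AlgebraicClosure F) a₀)) ?_ ?_ b ?_ _ (kp_loc (Ξ.spec k) hκ) u hu M
        · intro h0
          exact ha0 ((map_eq_zero_iff _ (Ξ.j k).injective).1 h0)
        · intro g hg
          exact (Ξ.mem k g).1 hg a₀
        · rw [hta, ← map_mul, ← map_mul, ← hb]
          simp)
    (by
      rintro (i | k) hi u hu
      · simp only [Sum.elim_inl] at hi ⊢
        obtain ⟨a₁, a₂, κ₁, κ₂, n1, n2, hm, q1, q2, q3⟩ := inv_two hz (hinv i) (Λ.spec i)
          (Λ.cont i) (hchar i) hcc c1 c2 c4 hcz ha' hb hb0 hα hκ hs hd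
        rw [q3]
        exact (hinv i).eq hi u b a₁ a₂ hm hb0 hu κ₁ κ₂ q1 q2 M
      · exact absurd hi (hΞp k))
  rw [Fintype.sum_sum_type] at key
  exact key

end BKT
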