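import Pool.Agent.Lib.MP_7c08ba_nt.T1.StGN
import Pool.Agent.Lib.MP_7c08ba_nt.T1.LCRV
import Pool.Agent.Lib.MP_7c08ba_nt.T1.LLOT

set_option autoImplicit false

/-!
Parity for general residual representations and arbitrary ramification at the primes which do not
split, module NSY: the invariant of the product of a Kummer cocycle with the cyclotomic character,
for a subgroup of index two.
-/

noncomputable section

namespace BKT

open BKMet (QZ actA actA_apply GQ cycL)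
open BKOdd (chZ)
open BKLoc2 (cl sc cy cyL Sys IsKP IsLam IsHom corM2)
open BKGlob2 (InvL)

namespace GNNSY

variable {p : ℕ} [hpf : Fact p.Prime]

theorem isUnit_two (hp : p ≠ 2) : IsUnit ((2 : ℕ) : ℤ_[p]) := by
  rw [PadicInt.isUnit_iff]
  refine le_antisymm (PadicInt.norm_le_one _) ?_
  by_contra h
  rw [not_le] at h
  have h1 : ‖((2 : ℤ) : ℤ_[p])‖ < 1 := by exact_mod_cast h
  rw [PadicInt.norm_int_lt_one_iff_dvd] at h1
  have h2 : p ∣ 2 := by exact_mod_cast h1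
  exact hp ((Nat.prime_dvd_prime_iff_eq hpf.out Nat.prime_two).1 h2)

theorem two_inj (hp : p ≠ 2) {x y : QZ p} (h : 2 • x = 2 • y) : x = y := by
  have h1 : ((2 : ℕ) : ℤ_[p]) • x = ((2 : ℕ) : ℤ_[p]) • y := by
    rw [Nat.cast_smul_eq_nsmul, Nat.cast_smul_eq_nsmul]
    exact h
  exact (isUnit_two hp).smul_left_cancel.1 h1

/-- the Kummer cocycle of a conjugate -/
theorem isKP_conj {l : ℕ} [Fact l.Prime] {z : ℕ → PadicAlgCl l} (hz : Sys p z)
    (V : Subgroup (GQ l)) (t : GQ l) (τ : V → V) (hτ : ∀ d, (τ d : GQ l) = t * d * t⁻¹)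
    {a a' : PadicAlgCl l} (haa : t⁻¹ a = a') {κ : V → ℤ_[p]} (hκ : IsKP V.subtype z a κ) :
    IsKP V.subtype z a' (fun d => ((cyL p l t⁻¹ : ℤ_[p]ˣ) : ℤ_[p]) * κ (τ d)) := by
  obtain ⟨y, y0, yp, yv⟩ := hκ
  refine ⟨fun n => t⁻¹ (y n), ?_, fun n => ?_, fun n v => ?_⟩
  · change t⁻¹ (y 0) = a'
    rw [y0, haa]
  · change (t⁻¹ (y (n + 1))) ^ p = t⁻¹ (y n)
    rw [← map_pow, yp]
  · change (v : GQ l) (t⁻¹ (y n)) = _ * t⁻¹ (y n)
    have h1 : (v : GQ l) * t⁻¹ = t⁻¹ * (τ v : GQ l) := by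
      rw [hτ]
      group
    have h2 : (v : GQ l) (t⁻¹ (y n)) = t⁻¹ ((τ v : GQ l) (y n)) := by
      have := congrArg (fun g : GQ l => g (y n)) h1
      exact this
    have h3 : (τ v : GQ l) (y n) = z n ^ (PadicInt.toZModPow n (κ (τ v))).val * y n := yv n (τ v)
    rw [h2, h3, map_mul, map_pow, BKLoc2.KPEAux.cy_spec hz t⁻¹ n, map_mul,
      BKLoc2.KPEAux.sys_mul hz]

end GNNSY

open GNNSY in
/-- Module NSY: the invariant of a symbol at a place which does not split. -/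
theorem stNsy (hNcj : StNcj) : StNsy := by
  intro p l _ _ hp hlp lam hlam z hz inv hinv V hV hVn hVi t ht a ha hfix b hb κ hκ u hu m
  have hχ : Continuous (cyL p l) :=
    (BKLoc2.stKPE p ℚ_[l] (PadicAlgCl l) (GQ l) (MonoidHom.id _)
      (BKLoc2.N4Aux.open_id _).continuous z hz).1
  have hfin : Finite (GQ l ⧸ V) := V.quotient_finite_of_isOpen hV
  have cV : CompactSpace V := isCompact_iff_compactSpace.1 (V.isClosed_of_isOpen hV).isCompact
  have nV : NonarchimedeanGroup V := BKOdd.nonarch_subgroup V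
  have hχV : Continuous ((cyL p l).comp V.subtype) := hχ.comp continuous_subtype_val
  obtain ⟨-, -, -, k4, k5, k6⟩ := BKLoc2.stKPE p ℚ_[l] (PadicAlgCl l) V V.subtype
    continuous_subtype_val z hz
  obtain ⟨-, -, g3, g4, -, -⟩ := BKLoc2.stKPE p ℚ_[l] (PadicAlgCl l) (GQ l) (MonoidHom.id _)
    (BKLoc2.N4Aux.open_id _).continuous z hz
  -- the element `b`
  have hta : t a ≠ 0 := fun h => ha ((map_eq_zero t).1 h)
  have hb0 : algebraMap ℚ (PadicAlgCl l) b ≠ 0 := by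
    rw [← hb]
    exact mul_ne_zero ha hta
  have hb1 : b ≠ 0 := by
    rintro rfl
    exact hb0 (map_zero _)
  have hbL : algebraMap ℚ_[l] (PadicAlgCl l) (b : ℚ_[l]) = algebraMap ℚ (PadicAlgCl l) b := by
    rw [map_ratCast, eq_ratCast]
  have hbL0 : (b : ℚ_[l]) ≠ 0 := by exact_mod_cast hb1
  -- conjugation
  have htt : t * t ∈ V := Subgroup.mul_self_mem_of_index_two hVi t
  have hta' : t⁻¹ a = t a := by
    have h1 : t (t a) = a := hfix _ htt
    have h2 : t⁻¹ (t (t a)) = t a := by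
      rw [← AlgEquiv.mul_apply, inv_mul_cancel, AlgEquiv.one_apply]
    rw [h1] at h2
    exact h2
  set τ : V → V := fun d => ⟨t * d * t⁻¹, hVn.conj_mem d d.2 t⟩ with hτdef
  have hτ : ∀ d, (τ d : GQ l) = t * d * t⁻¹ := fun _ => rfl
  set κ' : V → ℤ_[p] := fun d => ((cyL p l t⁻¹ : ℤ_[p]ˣ) : ℤ_[p]) * κ (τ d) with hκ'def
  have hκ' : IsKP V.subtype z (t a) κ' := isKP_conj hz V t τ hτ hta' hκ
  -- the logarithm of the cyclotomic character
  have hθ : IsHom (fun g : GQ l => lam (cyL p l g)) :=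
    ⟨hlam.cont.comp hχ, fun g h => by rw [map_mul, hlam.mul]⟩
  have hθV : IsHom (fun g : V => lam (cyL p l g)) :=
    ⟨hlam.cont.comp hχV, fun g h => by rw [Subgroup.coe_mul, map_mul, hlam.mul]⟩
  obtain ⟨s1, s2, -, s4, -, -⟩ := BKLoc2.stSC p V ((cyL p l).comp V.subtype) hχV _ hθV
  obtain ⟨r1, -, -, -, -, -⟩ := BKLoc2.stSC p (GQ l) (cyL p l) hχ _ hθ
  -- transfer and coboundaries
  have hcorB : ∀ w ∈ BKND.B2 (actA ((cyL p l).comp V.subtype)),
      LCRV.corHom V (cyL p l) w ∈ BKND.B2 (actA (cyL p l)) := by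
    have hsm : BKND.Sm (LCRV.trivZ (GQ l)) := ⟨⊤, isOpen_univ, fun _ _ => rfl⟩
    obtain ⟨-, -, h3, -, -, -⟩ := BKLoc2.stTRM (GQ l) V hV hfin (QZ p) ℤ (QZ p) (actA (cyL p l))
      (LCRV.trivZ (GQ l)) (actA (cyL p l)) (LCRV.bZ p) hsm
      (fun n => ⟨⊤, isOpen_univ, fun _ _ => rfl⟩) (by
        intro g n n'
        change n' • actA (cyL p l) g n = actA (cyL p l) g (n' • n)
        rw [map_zsmul])
    exact h3
  -- the conjugate cocycle has the same invariant
  have hconj : inv (LCRV.corHom V (cyL p l) (sc κ' (fun g : V => lam (cyL p l g)) m)) =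
      inv (LCRV.corHom V (cyL p l) (sc κ (fun g : V => lam (cyL p l g)) m)) := by
    have hκZ := k4 a κ ha hκ
    have hκs := (CC.Z1 (chZ ((cy p ℚ_[l] (PadicAlgCl l)).comp V.subtype))).smul_mem
      ((cyL p l t⁻¹ : ℤ_[p]ˣ) : ℤ_[p]) hκZ
    have hZ := s1 _ hκs m
    have hpi : ¬ p ∣ V.index := by
      rw [hVi]
      intro h
      exact hp ((Nat.prime_dvd_prime_iff_eq (Fact.out : p.Prime) Nat.prime_two).1 h)
    obtain ⟨-, h2⟩ := hNcj p l hp V hVn hV hpi t τ hτ _ hZ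
    have e1 : (fun g h : V => sc (((cyL p l t⁻¹ : ℤ_[p]ˣ) : ℤ_[p]) • κ)
        (fun g : V => lam (cyL p l g)) m (τ g) (τ h)) =
        sc κ' (fun g : V => lam (cyL p l g)) m := by
      funext g h
      have e3 : lam (cyL p l (τ h : GQ l)) = lam (cyL p l (h : GQ l)) := by
        rw [hτ, map_mul, map_mul, map_inv, mul_comm (cyL p l t), mul_assoc, mul_inv_cancel,
          mul_one]
      rw [BKLoc2.SCAux.sc_apply, BKLoc2.SCAux.sc_apply, e3]
      rfl
    have e2 : (fun g h : V => actA (cyL p l) t (sc (((cyL p l t⁻¹ : ℤ_[p]ˣ) : ℤ_[p]) • κ)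
        (fun g : V => lam (cyL p l g)) m g h)) = sc κ (fun g : V => lam (cyL p l g)) m := by
      funext g h
      rw [BKLoc2.SCAux.sc_apply, BKLoc2.SCAux.sc_apply, actA_apply, BKLoc2.SCAux.fm_smul]
      congr 1
      rw [Pi.smul_apply, smul_eq_mul, ← mul_assoc, ← mul_assoc, ← Units.val_mul, ← map_mul,
        mul_inv_cancel, map_one, Units.val_one, one_mul]
    have h3 : corM2 V (actA (cyL p l)) (sc κ' (fun g : V => lam (cyL p l g)) m) -
        corM2 V (actA (cyL p l)) (sc κ (fun g : V => lam (cyL p l g)) m) ∈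
        BKND.B2 (actA (cyL p l)) := by
      rw [← e1, ← e2]
      exact h2
    exact LLOT.inv_b2 hχ hinv.zero h3
  -- a Kummer cocycle of `b`
  have hFx : BKOdd.Fx (MonoidHom.id (GQ l)) (algebraMap ℚ_[l] (PadicAlgCl l) (b : ℚ_[l])) := by
    intro g
    exact AlgEquiv.commutes _ _
  obtain ⟨K, hK⟩ := g3 _ (by rw [hbL]; exact hb0) hFx
  have hKZ := g4 _ K (by rw [hbL]; exact hb0) hK
  have hKV : IsKP V.subtype z (a * t a) (fun g : V => K g) := by
    obtain ⟨y, y0, yp, yv⟩ := hK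
    refine ⟨y, ?_, yp, fun n v => yv n v⟩
    rw [y0, hbL, hb]
  have hsum : IsKP V.subtype z (a * t a) (κ + κ') := k5 a (t a) κ κ' ha hta hκ hκ'
  obtain ⟨c, hc⟩ := k6 (a * t a) (κ + κ') (fun g : V => K g) (mul_ne_zero ha hta) hsum hKV
  have hδ := s4 (fun v : V => K v - (κ + κ') v) c hc m
  have hKsc : sc (fun g : V => K g) (fun g : V => lam (cyL p l g)) m =
      sc κ (fun g : V => lam (cyL p l g)) m + sc κ' (fun g : V => lam (cyL p l g)) m +
      sc (fun v : V => K v - (κ + κ') v) (fun g : V => lam (cyL p l g)) m := by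
    rw [← s2, ← s2]
    congr 1
    funext v
    simp only [Pi.add_apply]
    ring
  have hα := r1 K hKZ m
  have hcr := LCRV.cor_res V hV hfin (cyL p l) hα
  have h1 := LLOT.inv_b2 hχ hinv.zero hcr
  have h2 : inv (LCRV.corHom V (cyL p l)
      (sc (fun v : V => K v - (κ + κ') v) (fun g : V => lam (cyL p l g)) m)) = 0 :=
    (hinv.zero _ (LLOT.b2_z2 hχ (hcorB _ hδ))).2 (hcorB _ hδ)
  have h3 : inv (LCRV.corHom V (cyL p l) (sc (fun g : V => K g)
      (fun g : V => lam (cyL p l g)) m)) = 2 •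
      inv (LCRV.corHom V (cyL p l) (sc κ (fun g : V => lam (cyL p l g)) m)) := by
    rw [hKsc, map_add, map_add, map_add, map_add, h2, hconj, add_zero, two_nsmul]
  have h4 : inv (sc K (fun g => lam (cyL p l g)) m) =
      cl p ((((padicValRat l b : ℤ) * lam u : ℤ_[p]) : ℚ_[p]) / (p : ℚ_[p]) ^ m) := by
    have := hinv.ne hlp u hu (b : ℚ_[l]) hbL0 K hK m
    rw [this, Padic.valuation_ratCast]
  have h5 : inv (LCRV.corHom V (cyL p l) (sc (fun g : V => K g)
      (fun g : V => lam (cyL p l g)) m)) = 2 •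
      cl p ((((padicValRat l b : ℤ) * lam u : ℤ_[p]) : ℚ_[p]) / (p : ℚ_[p]) ^ m) := by
    rw [map_nsmul, hVi, h4] at h1
    exact h1
  exact two_inj hp (h3.symm.trans h5)

end BKT
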