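import Pool.Agent.Lib.MP_7c08ba_nt.T1.StG

set_option autoImplicit false

/-!
Parity for general residual representations and arbitrary ramification at the primes which do not
split, part GN: the arithmetic theorem with places which are fixed by the complex conjugation.
Definitions and statements.
-/

noncomputable section

namespace BKT

open NumberField IsDedekindDomain BKGen
open BKPar (Loc1 Loc2)
open BKND (Sm)
open BKMet
open BKLoc2 (hq ht cl sc cy cyL Sys IsKP IsLam IsHom corM2)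
open BKGlob2 (Cp fs sn CC0 Prin SP US IsAct InvL)
open BKV (RU GU dc)

/-! ### Families of local groups -/

section SD

variable {ι κ : Type}

/-- the local groups at the places `(i, false)`, `(i, true)` and `k` -/
abbrev SD (D : ι → Type) (E : κ → Type) : (ι × Bool) ⊕ κ → Type
  | Sum.inl w => D w.1
  | Sum.inr k => E k

variable (D : ι → Type) (E : κ → Type)

instance instGroupSD [∀ i, Group (D i)] [∀ k, Group (E k)] : ∀ w, Group (SD D E w)
  | Sum.inl w => inferInstanceAs (Group (D w.1))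
  | Sum.inr k => inferInstanceAs (Group (E k))

instance instTopSD [∀ i, TopologicalSpace (D i)] [∀ k, TopologicalSpace (E k)] :
    ∀ w, TopologicalSpace (SD D E w)
  | Sum.inl w => inferInstanceAs (TopologicalSpace (D w.1))
  | Sum.inr k => inferInstanceAs (TopologicalSpace (E k))

instance instTopGroupSD [∀ i, Group (D i)] [∀ k, Group (E k)] [∀ i, TopologicalSpace (D i)]
    [∀ k, TopologicalSpace (E k)] [∀ i, IsTopologicalGroup (D i)] [∀ k, IsTopologicalGroup (E k)] :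
    ∀ w, IsTopologicalGroup (SD D E w)
  | Sum.inl w => inferInstanceAs (IsTopologicalGroup (D w.1))
  | Sum.inr k => inferInstanceAs (IsTopologicalGroup (E k))

instance instCompactSD [∀ i, TopologicalSpace (D i)] [∀ k, TopologicalSpace (E k)]
    [∀ i, CompactSpace (D i)] [∀ k, CompactSpace (E k)] : ∀ w, CompactSpace (SD D E w)
  | Sum.inl w => inferInstanceAs (CompactSpace (D w.1))
  | Sum.inr k => inferInstanceAs (CompactSpace (E k))

instance instNonarchSD [∀ i, Group (D i)] [∀ k, Group (E k)] [∀ i, TopologicalSpace (D i)]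
    [∀ k, TopologicalSpace (E k)] [∀ i, NonarchimedeanGroup (D i)]
    [∀ k, NonarchimedeanGroup (E k)] : ∀ w, NonarchimedeanGroup (SD D E w)
  | Sum.inl w => inferInstanceAs (NonarchimedeanGroup (D w.1))
  | Sum.inr k => inferInstanceAs (NonarchimedeanGroup (E k))

variable {D E}

/-- the maps from the local groups to `G` -/
def rS [∀ i, Group (D i)] [∀ k, Group (E k)] {G : Type} [Group G] (r : ∀ i, D i →* G)
    (q : ∀ k, E k →* G) (c : G →* G) : ∀ w, SD D E w →* G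
  | Sum.inl w => rr r c w
  | Sum.inr k => q k

end SD

/-! ### Families of places -/

/-- A finite family of places of the algebraic closure of `F`: embeddings `J w` in the algebraic
closures of the fields `ℚ_l`, and groups `D w` with maps to `GF F` and to the Galois group
of `ℚ_l`. -/
structure Plc (F : Type) [Field F] where
  /-- the index set -/
  S : Type
  [fS : Fintype S]
  /-- the primes -/
  m : S → ℕ
  [pr : ∀ w, Fact (m w).Prime]
  /-- the local groups -/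
  D : S → Type
  [gD : ∀ w, Group (D w)]
  [tD : ∀ w, TopologicalSpace (D w)]
  /-- the embeddings -/
  J : ∀ w, AlgebraicClosure F →+* PadicAlgCl (m w)
  /-- the maps to `GF F` -/
  r : ∀ w, D w →* GF F
  /-- the maps to the Galois groups of `ℚ_l` -/
  q : ∀ w, D w →* GQ (m w)

attribute [instance] Plc.fS Plc.pr Plc.gD Plc.tD

/-- the set of primes -/
def Plc.P {F : Type} [Field F] (Λ : Plc F) : Set ℕ := Set.range Λ.m

/-- the maps to `G`, `π : GF F → G` -/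
def Plc.loc {F : Type} [Field F] (Λ : Plc F) {G : Type} [Group G] (π : GF F →* G) (w : Λ.S) :
    Λ.D w →* G :=
  π.comp (Λ.r w)

/-- The groups `D w` are the decomposition groups, and the places `w` are representatives of the
places of `F` above `P`. -/
structure Plc.Good {F : Type} [Field F] [NumberField F] (Λ : Plc F) : Prop where
  cont : ∀ w, Continuous (Λ.r w)
  spec : ∀ w (d : Λ.D w) (x : AlgebraicClosure F), Λ.J w (Λ.r w d x) = Λ.q w d (Λ.J w x)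
  full : ∀ w (g : GF F) (t : GQ (Λ.m w)), (∀ x, Λ.J w (g x) = t (Λ.J w x)) →
    ∃ d : Λ.D w, Λ.r w d = g ∧ Λ.q w d = t
  dist : ∀ w w' : Λ.S, (∀ a : 𝓞 F, ‖Λ.J w (algebraMap F (AlgebraicClosure F) (a : F))‖ < 1 ↔
    ‖Λ.J w' (algebraMap F (AlgebraicClosure F) (a : F))‖ < 1) → w = w'
  cov : ∀ (l : ℕ) [Fact l.Prime], l ∈ Λ.P → ∀ j : AlgebraicClosure F →+* PadicAlgCl l,
    ∃ (w : Λ.S) (g : GF F), (∀ x, ‖j x‖ = ‖Λ.J w (g x)‖) ∧
      ∃ s : Cp (MonoidHom.id (GF F)) j →* Λ.D w, Continuous s ∧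
        ∀ d, fs (MonoidHom.id (GF F)) j d = g⁻¹ * Λ.r w (s d) * g

section Dn

variable {F : Type} [Field F] (U : Subgroup (GF F)) [U.Normal] (Λ : Plc F)

/-- the decomposition groups in `GF F / U` -/
def Dn (w : Λ.S) : Subgroup (GF F ⧸ U) := ((QuotientGroup.mk' U).comp (Λ.r w)).range

/-- the decomposition groups in `GF F / U`, and the trivial group -/
def Dnx : Option Λ.S → Subgroup (GF F ⧸ U)
  | none => ⊥
  | some w => Dn U Λ w

end Dn

/-- Module UPW (as PWT): elements which generate powers of the primes above `P`. -/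
def StUpw : Prop :=
  ∀ (F : Type) [Field F] [NumberField F] (U : Subgroup (GF F)) [U.Normal],
    IsOpen (U : Set (GF F)) → ∀ (Λ : Plc F) (P : Set ℕ), Λ.P = P → Λ.Good → ∀ w : Λ.S,
    ∃ π : AlgebraicClosure F, π ≠ 0 ∧ (∀ g ∈ U, g π = π) ∧ (∀ d, Λ.r w d π = π) ∧
    (∀ (l : ℕ) [Fact l.Prime], l ∉ P → ∀ j : AlgebraicClosure F →+* PadicAlgCl l,
      ‖j π‖ = 1) ∧ ‖Λ.J w π‖ < 1 ∧
    ∀ (w' : Λ.S) (g : GF F), (w' ≠ w ∨ (QuotientGroup.mk g : GF F ⧸ U) ∉ Dn U Λ w) →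
      ‖Λ.J w' (g π)‖ = 1

/-- Module UPN (as PNT): the number of primes above `P` of the field fixed by `U`. -/
def StUpn : Prop :=
  ∀ (F : Type) [Field F] [NumberField F] (U : Subgroup (GF F)) [U.Normal],
    IsOpen (U : Set (GF F)) → ∀ (E : IntermediateField F (AlgebraicClosure F)) [NumberField E],
    (∀ x, x ∈ E ↔ ∀ g ∈ U, g x = x) → ∀ (Λ : Plc F) (P : Set ℕ), Λ.P = P → Λ.Good →
    Nat.card (SP E P) = ∑ w, (Dn U Λ w).index

/-- Module UCU (from MU, MI of `HStmts`, and UPW, UPN, RKT; as CUT): the structure of the group of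
`S`-units. -/
def StUcu : Prop :=
  ∀ (p : ℕ) [Fact p.Prime] (F : Type) [Field F] [NumberField F], Module.finrank ℚ F = 2 →
    IsEmpty (F →+* ℝ) → ∀ (U : Subgroup (GF F)) [U.Normal] (Λ : Plc F) (P : Set ℕ), Λ.P = P →
    Λ.Good → SitT p F P U →
    ∀ a : GF F ⧸ U →* AddMonoid.End (Additive (US F P U)), IsAct F P U a →
    ∃ g : ∀ w : Option Λ.S, ((GF F ⧸ U) ⧸ Dnx U Λ w) → Additive (US F P U) × ℤ,
      (∀ (d : GF F ⧸ U) (w : Option Λ.S) (t : (GF F ⧸ U) ⧸ Dnx U Λ w),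
        g w (d • t) = (a d (g w t).1, (g w t).2)) ∧
      LinearIndependent ℤ (fun x : Σ w, (GF F ⧸ U) ⧸ Dnx U Λ w => g x.1 x.2) ∧
      (AddSubgroup.closure
        (Set.range fun x : Σ w, (GF F ⧸ U) ⧸ Dnx U Λ w => g x.1 x.2)).index ≠ 0

/-- Module UGL (from TWA, ONA, SHI, and CV, CP of `HStmts`; as GLT): classes of `GU F P U` with
values in induced modules which are locally trivial. -/
def StUgl : Prop :=
  ∀ (p : ℕ) [Fact p.Prime] (F : Type) [Field F] [NumberField F] (Λ : Plc F) (P : Set ℕ),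
    Λ.P = P → Λ.Good →
    ∀ U : Subgroup (GF F), SitT p F P U → ∀ A A' : Subgroup (GU F P U),
    Adm p (U.map (QuotientGroup.mk' (RU F P U))) A A' →
    ∀ (k : Type) [Field k] [Finite k] [Algebra (ZMod p) k] (ψ : A →* kˣ),
    (∀ a : A, (a : GU F P U) ∈ A' → ψ a = 1) →
    (∀ z ∈ BKND.Z2 (indM A (kch ψ)),
      (∀ w, pb2 (Λ.loc (QuotientGroup.mk' (RU F P U)) w) z ∈
        BKND.B2 ((indM A (kch ψ)).comp (Λ.loc (QuotientGroup.mk' (RU F P U)) w))) →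
      z ∈ BKND.B2 (indM A (kch ψ))) ∧
    ∀ f ∈ BKND.Z1 (indM A (kch ψ)),
      (∀ w, pb1 (Λ.loc (QuotientGroup.mk' (RU F P U)) w) f ∈
        BKND.B1 ((indM A (kch ψ)).comp (Λ.loc (QuotientGroup.mk' (RU F P U)) w))) →
      f ∈ BKND.B1 (indM A (kch ψ))

/-- Module UGC (from UA of `HStmts`, UAA, CEA, CGX, UCU, LSH; as GCA): the global Euler
characteristic. -/
def StUgc : Prop :=
  ∀ (p : ℕ) [Fact p.Prime] (F : Type) [Field F] [NumberField F], Module.finrank ℚ F = 2 →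
    IsEmpty (F →+* ℝ) → ∀ (U : Subgroup (GF F)) (Λ : Plc F) (P : Set ℕ), Λ.P = P → Λ.Good →
    SitT p F P U →
    ∀ (χ : GU F P U →* ℤ_[p]ˣ), (∀ g : GF F, χ (QuotientGroup.mk g) = cycF p F g) →
    ∀ A A' : Subgroup (GU F P U), Adm p (U.map (QuotientGroup.mk' (RU F P U))) A A' →
    ∀ (k : Type) [Field k] [Finite k] [Algebra (ZMod p) k] (ψ ψ' : A →* kˣ),
    (∀ a : A, (a : GU F P U) ∈ A' → ψ a = 1) →
    (∀ a : A, (a : GU F P U) ∈ A' → ψ' a = 1) → Rel (χ.comp A.subtype) ψ ψ' →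
    Nat.card (BKND.Z1 (indM A (kch ψ))) * Nat.card (BKND.H0 (indM A (kch ψ'))) =
      Nat.card (IndM A (kch ψ)) ^ 2 * ∏ w, Nat.card (BKND.H0 ((indM A (kch ψ')).comp
        (Λ.loc (QuotientGroup.mk' (RU F P U)) w)))

/-! ### Places which are fixed by the complex conjugation -/

/-- The data at a finite set of primes which do not split in `F`: embeddings `j k`, the
decomposition groups `V k`, of index two in the Galois groups of `ℚ_l`, and the maps to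
`GF F`. -/
structure Npl (F : Type) [Field F] where
  /-- the index set -/
  κ : Type
  [fκ : Fintype κ]
  /-- the primes -/
  m : κ → ℕ
  [pr : ∀ k, Fact (m k).Prime]
  inj : Function.Injective m
  /-- the embeddings of the algebraic closure -/
  j : ∀ k, AlgebraicClosure F →+* PadicAlgCl (m k)
  /-- the decomposition groups -/
  V : ∀ k, Subgroup (GQ (m k))
  /-- the maps to `GF F` -/
  r : ∀ k, V k →* GF F
  cont : ∀ k, Continuous (r k)
  spec : ∀ k (t : V k) (x : AlgebraicClosure F), j k (r k t x) = (t : GQ (m k)) (j k x)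
  mem : ∀ k (t : GQ (m k)), t ∈ V k ↔ ∀ a : F, t (j k (algebraMap F (AlgebraicClosure F) a)) =
    j k (algebraMap F (AlgebraicClosure F) a)
  ne : ∀ k, V k ≠ ⊤

attribute [instance] Npl.fκ Npl.pr

/-- the set of primes -/
def Npl.P {F : Type} [Field F] (Ξ : Npl F) : Set ℕ := Set.range Ξ.m

/-- Module NPL: embeddings for a finite set of primes which do not split; the groups `V k`. -/
def StNpl : Prop :=
  ∀ (F : Type) [Field F] [NumberField F], Module.finrank ℚ F = 2 →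
    (∀ N : Set ℕ, N.Finite → (∀ l ∈ N, l.Prime) → (∀ l ∈ N, ¬ Splits F l) →
      ∃ Ξ : Npl F, Ξ.P = N) ∧
    ∀ (Ξ : Npl F) (k : Ξ.κ), IsOpen (Ξ.V k : Set (GQ (Ξ.m k))) ∧ (Ξ.V k).Normal ∧
      (Ξ.V k).index = 2 ∧ ¬ Splits F (Ξ.m k)

section Mix

variable {F : Type} [Field F] (Λ : Pl F) (Ξ : Npl F)

/-- the local groups at the places `(i, false)`, `(i, true)` and `k` -/
abbrev MD : (Λ.ι × Bool) ⊕ Ξ.κ → Type := SD (fun i => GQ (Λ.l i)) (fun k => Ξ.V k)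

/-- the primes -/
def mm' : (Λ.ι × Bool) ⊕ Ξ.κ → ℕ
  | Sum.inl w => Λ.l w.1
  | Sum.inr k => Ξ.m k

instance instPrime : ∀ w, Fact (mm' Λ Ξ w).Prime
  | Sum.inl w => Λ.pr w.1
  | Sum.inr k => Ξ.pr k

/-- the maps to `G`, `π : GF F → G`, `c` the conjugation of `G` -/
def rM {G : Type} [Group G] (π : GF F →* G) (c : G →* G) : ∀ w, MD Λ Ξ w →* G :=
  rS (fun i => π.comp (Λ.r i)) (fun k => π.comp (Ξ.r k)) c

/-- the maps to the Galois groups of `ℚ_l` -/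
def qM : ∀ w, MD Λ Ξ w →* GQ (mm' Λ Ξ w)
  | Sum.inl w => MonoidHom.id (GQ (Λ.l w.1))
  | Sum.inr k => (Ξ.V k).subtype

/-- the embeddings -/
def jM (c₀ : AlgebraicClosure F ≃+* AlgebraicClosure F) :
    ∀ w, AlgebraicClosure F →+* PadicAlgCl (mm' Λ Ξ w)
  | Sum.inl w => BKGlob2.jw Λ c₀ w
  | Sum.inr k => Ξ.j k

/-- the family of all places -/
def mix (c₀ : AlgebraicClosure F ≃+* AlgebraicClosure F) (cc : GF F →* GF F) : Plc F where
  S := (Λ.ι × Bool) ⊕ Ξ.κ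
  m := mm' Λ Ξ
  D := MD Λ Ξ
  J := jM Λ Ξ c₀
  r := rM Λ Ξ (MonoidHom.id (GF F)) cc
  q := qM Λ Ξ

end Mix

/-- Module MIX (from CJ, PA of `HStmts`/`GStmts`, NPL): the family of all places. -/
def StMix : Prop :=
  ∀ (F : Type) [Field F] [NumberField F], Module.finrank ℚ F = 2 → IsEmpty (F →+* ℝ) →
    ∀ (c₀ : AlgebraicClosure F ≃+* AlgebraicClosure F) (cc : GF F →* GF F), CC0 c₀ cc →
    ∀ (Λ : Pl F) (Ξ : Npl F), (∀ i, Splits F (Λ.l i)) → (mix Λ Ξ c₀ cc).Good ∧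
      (mix Λ Ξ c₀ cc).P = Λ.P ∪ Ξ.P

/-- Module CNJ: the conjugation at the places `k`. -/
def StCnj : Prop :=
  ∀ (p : ℕ) [Fact p.Prime], p ≠ 2 → ∀ (F : Type) [Field F] [NumberField F],
    Module.finrank ℚ F = 2 → IsEmpty (F →+* ℝ) →
    ∀ (c₀ : AlgebraicClosure F ≃+* AlgebraicClosure F) (cc : GF F →* GF F), CC0 c₀ cc →
    ∀ (Ξ : Npl F) (k : Ξ.κ), ∃ (t : GQ (Ξ.m k)) (h : GF F) (s : Ξ.V k), t ∉ Ξ.V k ∧
      (s : GQ (Ξ.m k)) = t * t ∧
      (∀ d d' : Ξ.V k, (d' : GQ (Ξ.m k)) = t * d * t⁻¹ →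
        cc (Ξ.r k d) = h * Ξ.r k d' * h⁻¹) ∧
      cc h * h = (Ξ.r k s)⁻¹ ∧ cycF p F h * cycL p (Ξ.m k) t = -1

/-! ### Local theorems for the subgroups `V` -/

/-- Module NCR (from CRV, TRM): the restriction to a subgroup of index prime to `p` is surjective on
`H²`, and the transfer between two such subgroups is injective. -/
def StNcr : Prop :=
  ∀ (p l : ℕ) [Fact p.Prime] [Fact l.Prime], p ≠ 2 → ∀ V : Subgroup (GQ l),
    IsOpen (V : Set (GQ l)) → ¬ p ∣ V.index →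
    (∀ z ∈ BKND.Z2 (actA ((cycL p l).comp V.subtype)), ∃ w ∈ BKND.Z2 (actA (cycL p l)),
      z - (fun g h : V => w g h) ∈ BKND.B2 (actA ((cycL p l).comp V.subtype))) ∧
    (∀ z ∈ BKND.Z2 (actA ((cycL p l).comp V.subtype)),
      corM2 V (actA (cycL p l)) z ∈ BKND.Z2 (actA (cycL p l))) ∧
    ∀ W : Subgroup V, IsOpen (W : Set V) → ¬ p ∣ W.index →
    ∀ z ∈ BKND.Z2 (actA (((cycL p l).comp V.subtype).comp W.subtype)),
    corM2 W (actA ((cycL p l).comp V.subtype)) z ∈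
      BKND.B2 (actA ((cycL p l).comp V.subtype)) →
    z ∈ BKND.B2 (actA (((cycL p l).comp V.subtype).comp W.subtype))

/-- Module NLS (from LOS, NCR, TRM): the local axioms for characters of open subgroups of `V`,
`l ≠ p`. -/
def StNls : Prop :=
  ∀ (p l : ℕ) [Fact p.Prime] [Fact l.Prime], p ≠ 2 → l ≠ p → ∀ V : Subgroup (GQ l),
    IsOpen (V : Set (GQ l)) → ¬ p ∣ V.index → ∀ inv : (V → V → QZ p) →+ QZ p,
    (∀ z ∈ BKND.Z2 (actA ((cycL p l).comp V.subtype)),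
      inv z = 0 ↔ z ∈ BKND.B2 (actA ((cycL p l).comp V.subtype))) →
    LocS p ((cycL p l).comp V.subtype) inv 0

/-- Module NLG (from NLS, LOT, LCA, LFN, DUP; as LOG): the local theorem for `V`, `l ≠ p`. -/
def StNlg : Prop :=
  ∀ (p l : ℕ) [Fact p.Prime] [Fact l.Prime], p ≠ 2 → l ≠ p → ∀ V : Subgroup (GQ l),
    IsOpen (V : Set (GQ l)) → ¬ p ∣ V.index → ∀ inv : (V → V → QZ p) →+ QZ p,
    (∀ z ∈ BKND.Z2 (actA ((cycL p l).comp V.subtype)),
      inv z = 0 ↔ z ∈ BKND.B2 (actA ((cycL p l).comp V.subtype))) →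
    LocG p ((cycL p l).comp V.subtype) inv 0

/-- Module NCJ (from NCR, TRM): the transfer does not change under conjugation. -/
def StNcj : Prop :=
  ∀ (p l : ℕ) [Fact p.Prime] [Fact l.Prime], p ≠ 2 → ∀ V : Subgroup (GQ l), V.Normal →
    IsOpen (V : Set (GQ l)) → ¬ p ∣ V.index → ∀ (t : GQ l) (τ : V → V),
    (∀ d, (τ d : GQ l) = t * d * t⁻¹) →
    ∀ z ∈ BKND.Z2 (actA ((cycL p l).comp V.subtype)),
    (fun g h => z (τ g) (τ h)) ∈ BKND.Z2 (actA ((cycL p l).comp V.subtype)) ∧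
    corM2 V (actA (cycL p l)) (fun g h => z (τ g) (τ h)) -
      corM2 V (actA (cycL p l)) (fun g h => actA (cycL p l) t (z g h)) ∈
        BKND.B2 (actA (cycL p l))

/-! ### The reciprocity law -/

/-- Module NKL (from KL, NCR): classes of `V` vanish far up in the cyclotomic extension. -/
def StNkl : Prop :=
  ∀ (p l : ℕ) [Fact p.Prime] [Fact l.Prime], p ≠ 2 → ∀ lam : ℤ_[p]ˣ → ℤ_[p], IsLam lam →
    ∀ V : Subgroup (GQ l), IsOpen (V : Set (GQ l)) → ¬ p ∣ V.index →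
    ∀ α ∈ BKND.Z2 (actA ((cyL p l).comp V.subtype)), ∃ M₀ : ℕ, ∀ M ≥ M₀, ∀ U : Subgroup V,
    (∀ g : V, g ∈ U ↔ (p : ℤ_[p]) ^ M ∣ lam (cyL p l g)) →
    (fun a b : U => α a b) ∈ BKND.B2 (actA (((cyL p l).comp V.subtype).comp U.subtype))

/-- Module NRA (from NKL, KL, HA, CJ, CV, CY, CP, NPL, MIX; as RA): a class of the group `GF F` which
is trivial at the places outside `P` becomes trivial far up in the cyclotomic extension. -/
def StNra : Prop :=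
  ∀ (p : ℕ) [Fact p.Prime], p ≠ 2 → ∀ (F : Type) [Field F] [NumberField F],
    Module.finrank ℚ F = 2 → IsEmpty (F →+* ℝ) →
    ∀ (Λ : Pl F) (Ξ : Npl F), (∀ i, Splits F (Λ.l i)) →
    ∀ (lam : ℤ_[p]ˣ → ℤ_[p]), IsLam lam → ∀ α ∈ BKND.Z2 (actA (cycF p F)),
    (∀ (l : ℕ) [Fact l.Prime], l ∉ Λ.P ∪ Ξ.P → ∀ j : AlgebraicClosure F →+* PadicAlgCl l,
      pb2 (fs (MonoidHom.id (GF F)) j) α ∈
        BKND.B2 (actA ((cycF p F).comp (fs (MonoidHom.id (GF F)) j)))) →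
    ∃ M₀ : ℕ, ∀ M ≥ M₀, ∀ U : Subgroup (GF F),
    (∀ g, g ∈ U ↔ (p : ℤ_[p]) ^ M ∣ lam (cycF p F g)) →
    (fun a b : U => α a b) ∈ BKND.B2 (actA ((cycF p F).comp U.subtype))

/-- Module NSY (from NCJ, NCR, KPE, SC): the invariant of the product of a Kummer cocycle with the
cyclotomic character, for a subgroup of index two. -/
def StNsy : Prop :=
  ∀ (p l : ℕ) [Fact p.Prime] [Fact l.Prime], p ≠ 2 → l ≠ p →
    ∀ lam : ℤ_[p]ˣ → ℤ_[p], IsLam lam → ∀ z : ℕ → PadicAlgCl l, Sys p z →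
    ∀ inv : (GQ l → GQ l → QZ p) →+ QZ p, InvL p lam l z inv →
    ∀ V : Subgroup (GQ l), IsOpen (V : Set (GQ l)) → V.Normal → V.index = 2 →
    ∀ t : GQ l, t ∉ V → ∀ a : PadicAlgCl l, a ≠ 0 → (∀ g ∈ V, g a = a) →
    ∀ b : ℚ, a * t a = algebraMap ℚ (PadicAlgCl l) b →
    ∀ κ : V → ℤ_[p], IsKP V.subtype z a κ →
    ∀ u : ℤ_[p]ˣ, ((u : ℤ_[p]ˣ) : ℤ_[p]) = l → ∀ m : ℕ,
    inv (corM2 V (actA (cycL p l)) (sc κ (fun g => lam (cyL p l g)) m)) =
      cl p ((((padicValRat l b : ℤ) * lam u : ℤ_[p]) : ℚ_[p]) / (p : ℚ_[p]) ^ m)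

/-- Module NRE (from NRA, NSY, LX, RN, RP, CJ, CY, CNJ, KPE, SC; as RE): the reciprocity law. -/
def StNre : Prop :=
  ∀ (p : ℕ) [Fact p.Prime], p ≠ 2 → ∀ (F : Type) [Field F] [NumberField F],
    Module.finrank ℚ F = 2 → IsEmpty (F →+* ℝ) →
    ∀ (c₀ : AlgebraicClosure F ≃+* AlgebraicClosure F) (cc : GF F →* GF F), CC0 c₀ cc →
    ∀ (Λ : Pl F) (Ξ : Npl F), (∀ i, Splits F (Λ.l i)) → p ∈ Λ.P → (∀ k, Ξ.m k ≠ p) →
    ∀ lam : ℤ_[p]ˣ → ℤ_[p], IsLam lam → ∀ z : ℕ → AlgebraicClosure F, Sys p z →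
    ∀ inv : ∀ i, (GQ (Λ.l i) → GQ (Λ.l i) → QZ p) →+ QZ p,
    (∀ i, InvL p lam (Λ.l i) (fun n => Λ.j i (z n)) (inv i)) →
    ∀ inv' : ∀ k, (GQ (Ξ.m k) → GQ (Ξ.m k) → QZ p) →+ QZ p,
    (∀ k, InvL p lam (Ξ.m k) (fun n => Ξ.j k (z n)) (inv' k)) →
    ∀ α ∈ BKND.Z2 (actA (cycF p F)),
    (∀ (l : ℕ) [Fact l.Prime], l ∉ Λ.P ∪ Ξ.P → ∀ j : AlgebraicClosure F →+* PadicAlgCl l,
      pb2 (fs (MonoidHom.id (GF F)) j) α ∈
        BKND.B2 (actA ((cycF p F).comp (fs (MonoidHom.id (GF F)) j)))) →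
    ∑ i, (inv i (pb2 (Λ.r i) α) - inv i (pb2 (cc.comp (Λ.r i)) α)) +
      ∑ k, inv' k (corM2 (Ξ.V k) (actA (cycL p (Ξ.m k))) (pb2 (Ξ.r k) α)) = 0

/-! ### The arithmetic theorem -/

/-- The conjugation at the place `k`: `t` is in the Galois group of `ℚ_l`, `h` is in `G`. -/
structure ConjN (p : ℕ) [Fact p.Prime] {l : ℕ} [Fact l.Prime] (V : Subgroup (GQ l)) {G : Type}
    [Group G] (r : V →* G) (c : G →* G) (χ : G →* ℤ_[p]ˣ) (inv : (V → V → QZ p) →+ QZ p)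
    (t : GQ l) (τ : V →* V) (s : V) (h : G) : Prop where
  nmem : t ∉ V
  tau : ∀ d, (τ d : GQ l) = t * d * t⁻¹
  sq : (s : GQ l) = t * t
  cont : Continuous τ
  conj : ∀ d, c (r d) = h * r (τ d) * h⁻¹
  hh : c h * h = (r s)⁻¹
  chi : χ h * cycL p l t = -1
  inv_eq : ∀ z ∈ BKND.Z2 (actA ((cycL p l).comp V.subtype)),
    inv (fun g g' => z (τ g) (τ g')) = inv (fun g g' => actA (cycL p l) t (z g g'))

/-- The arithmetic input for the group `G = GU F P U₀`, for all finite modules, where `P` consists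
of the primes of `Λ`, which split in `F`, and the primes of `Ξ`, which do not split. -/
structure ArithN (p : ℕ) [Fact p.Prime] {F : Type} [Field F] (Λ : Pl F) (Ξ : Npl F)
    (U₀ : Subgroup (GF F)) (χ : GU F (Λ.P ∪ Ξ.P) U₀ →* ℤ_[p]ˣ)
    (c : GU F (Λ.P ∪ Ξ.P) U₀ →* GU F (Λ.P ∪ Ξ.P) U₀)
    (inv : ∀ i, (GQ (Λ.l i) → GQ (Λ.l i) → QZ p) →+ QZ p)
    (invN : ∀ k, (Ξ.V k → Ξ.V k → QZ p) →+ QZ p) : Prop where
  loc : ∀ i, LocG p (cycL p (Λ.l i)) (inv i) (if Λ.l i = p then 1 else 0)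
  locN : ∀ k, LocG p ((cycL p (Ξ.m k)).comp (Ξ.V k).subtype) (invN k) 0
  glob : GlobI p (rM Λ Ξ (QuotientGroup.mk' (RU F (Λ.P ∪ Ξ.P) U₀)) c) χ
    (U₀.map (QuotientGroup.mk' (RU F (Λ.P ∪ Ξ.P) U₀)))
  /-- the reciprocity law -/
  recip : ∀ z ∈ BKND.Z2 (actA χ),
    ∑ i, (inv i (pb2 ((QuotientGroup.mk' (RU F (Λ.P ∪ Ξ.P) U₀)).comp (Λ.r i)) z) -
      inv i (pb2 (c.comp ((QuotientGroup.mk' (RU F (Λ.P ∪ Ξ.P) U₀)).comp (Λ.r i))) z)) +
    ∑ k, invN k (pb2 ((QuotientGroup.mk' (RU F (Λ.P ∪ Ξ.P) U₀)).comp (Ξ.r k)) z) = 0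
  conj : ∀ k, ∃ (t : GQ (Ξ.m k)) (τ : Ξ.V k →* Ξ.V k) (s : Ξ.V k)
    (h : GU F (Λ.P ∪ Ξ.P) U₀), ConjN p (Ξ.V k)
      ((QuotientGroup.mk' (RU F (Λ.P ∪ Ξ.P) U₀)).comp (Ξ.r k)) c χ (invN k) t τ s h

/-- Module NAR (from LOG, NLG, NCJ, NCR, UGL, UGC, UIT, NRE, CNJ, NPL, MIX, and LI, LAM, CY, CP, CJ,
PL, PR, SA of `HStmts`; as ART2): **the arithmetic theorem.** The set `N₀` consists of primes which
do not split in `F`; nothing is assumed about the ramification above `P₀` and `N₀`. -/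
def StArithN : Prop :=
  ∀ (p : ℕ) [Fact p.Prime], p ≠ 2 → ∀ (F : Type) [Field F] [NumberField F],
    Module.finrank ℚ F = 2 → IsEmpty (F →+* ℝ) → Splits F p →
    ∀ c₀ : AlgebraicClosure F ≃+* AlgebraicClosure F, IsConj c₀ →
    ∀ P₀ : Set ℕ, P₀.Finite → (∀ l ∈ P₀, Splits F l) → p ∈ P₀ →
    ∀ N₀ : Set ℕ, N₀.Finite → (∀ l ∈ N₀, l.Prime) → (∀ l ∈ N₀, ¬ Splits F l) →
    ∀ U₀ : Subgroup (GF F), U₀.Normal → IsOpen (U₀ : Set (GF F)) →
    (∀ g ∈ U₀, PadicInt.toZMod ((cycF p F g : ℤ_[p]ˣ) : ℤ_[p]) = 1) →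
    (∀ (l : ℕ) [Fact l.Prime] (j : AlgebraicClosure F →+* PadicAlgCl l), l ∉ P₀ → l ∉ N₀ →
      ∀ g ∈ Inert F (AlgebraicClosure F) j, ∃ m : ℕ, ¬ p ∣ m ∧ g ^ m ∈ U₀) →
    (∀ g ∈ U₀, ∀ g' : GF F, (∀ z, g' (c₀ z) = c₀ (g z)) → g' ∈ U₀) →
    ∃ (Λ : Pl F) (Ξ : Npl F), P₀ ⊆ Λ.P ∧ (∀ i, Splits F (Λ.l i)) ∧ (∃ l ∈ Λ.P, l ≠ p) ∧
      Ξ.P = N₀ ∧
      ∀ (χ : GU F (Λ.P ∪ Ξ.P) U₀ →* ℤ_[p]ˣ)
        (c : GU F (Λ.P ∪ Ξ.P) U₀ →* GU F (Λ.P ∪ Ξ.P) U₀),
      (∀ g : GF F, χ (QuotientGroup.mk g) = cycF p F g) →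
      (∀ g g' : GF F, (∀ z, g' (c₀ z) = c₀ (g z)) →
        c (QuotientGroup.mk g) = QuotientGroup.mk g') →
      ∃ (inv : ∀ i, (GQ (Λ.l i) → GQ (Λ.l i) → QZ p) →+ QZ p)
        (invN : ∀ k, (Ξ.V k → Ξ.V k → QZ p) →+ QZ p), ArithN p Λ Ξ U₀ χ c inv invN

end BKT
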