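import Pool.Agent.Lib.MP_7c08ba_nt.T1.StGN
import Pool.Agent.Lib.MP_7c08ba_nt.T1.GGCA

set_option autoImplicit false

/-!
Parity for general residual representations and arbitrary ramification at the primes which do not
split, part GN, module UGC: the global Euler characteristic for modules induced from characters.
-/

noncomputable section

namespace BKT

open NumberField IsDedekindDomain BKGen
open BKPar (Loc1 Loc2)
open BKND (Sm)
open BKMet
open BKLoc2 (hq ht)
open BKGlob2 (Cp fs sn CC0 Prin SP US IsAct)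
open BKV (RU GU dc)

open GGCA in
/-- Module UGC: the global Euler characteristic. -/
theorem stUgc (h1 : BKGlob2.StUA) (h2 : StUaa) (h3 : StCea) (h4 : StCgx) (h5 : StUcu)
    (h6 : StLsh) : StUgc := by
  intro p hp F iF iN hquad himag U Λ P hP hgood hS χ hχ A A' hA k ik1 ik2 ik3 ψ ψ' hψ hψ' hR
  subst hP
  have hnorm : U.Normal := hS.normal
  have hRU : RU F Λ.P U ≤ U := BKV.RQAux.RU_le_U hS.normal hS.open'
  have hopen := hS.open'
  have : Finite (GF F ⧸ U) := U.quotient_finite_of_isOpen hopen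
  -- the natural map
  let q : GU F Λ.P U →* GF F ⧸ U := QuotientGroup.lift (RU F Λ.P U) (QuotientGroup.mk' U) (by
    rw [QuotientGroup.ker_mk']
    exact hRU)
  have hqm : ∀ g : GF F, q (QuotientGroup.mk g) = QuotientGroup.mk g := fun g => rfl
  have hqs : Function.Surjective q := by
    intro γ
    obtain ⟨g, rfl⟩ := QuotientGroup.mk_surjective γ
    exact ⟨QuotientGroup.mk g, rfl⟩
  have hqk : q.ker = U.map (QuotientGroup.mk' (RU F Λ.P U)) := by
    have h := QuotientGroup.ker_lift (RU F Λ.P U) (QuotientGroup.mk' U) (by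
      rw [QuotientGroup.ker_mk']
      exact hRU)
    exact h.trans (congrArg (Subgroup.map _) (QuotientGroup.ker_mk' U))
  have hkA' : q.ker ≤ A' := hqk.trans_le hA.le
  have hkA : q.ker ≤ A := hkA'.trans hA.le'
  have hψ1 : ∀ a : A, q a = 1 → ψ a = 1 := fun a ha => hψ a (hkA' ha)
  have hψ1' : ∀ a : A, q a = 1 → ψ' a = 1 := fun a ha => hψ' a (hkA' ha)
  -- `A` is open
  have hUo : IsOpen ((U.map (QuotientGroup.mk' (RU F Λ.P U)) : Subgroup (GU F Λ.P U)) :
      Set (GU F Λ.P U)) := QuotientGroup.isOpenMap_coe _ hopen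
  have hAo : IsOpen (A : Set (GU F Λ.P U)) := Subgroup.isOpen_mono (hA.le.trans hA.le') hUo
  have hA'o : IsOpen (A' : Set (GU F Λ.P U)) := Subgroup.isOpen_mono hA.le hUo
  have hsm : ∀ ψ : A →* kˣ, (∀ a : A, (a : GU F Λ.P U) ∈ A' → ψ a = 1) → Sm (kch ψ) := by
    intro ψ hψ
    refine ⟨A'.subgroupOf A, hA'o.preimage continuous_subtype_val, fun w hw => ?_⟩
    ext x
    rw [kch_apply, hψ w hw, Units.val_one, one_mul]
    rfl
  obtain ⟨L1, -, L3, L4⟩ := h6 (GU F Λ.P U) A hAo k ψ (hsm ψ hψ)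
  obtain ⟨L1', -, L3', -⟩ := h6 (GU F Λ.P U) A hAo k ψ' (hsm ψ' hψ')
  -- the actions
  obtain ⟨a, ha⟩ := h1 F Λ.P U
  obtain ⟨b, hb⟩ := h2 p F Λ.P U hopen A A' hA
  obtain ⟨e1, hfin, e2⟩ := h3 p F Λ.P U hS A A' hA k ψ ψ' hψ hψ' χ hχ hR b hb
  obtain ⟨g, hg1, hg2, hg3⟩ := h5 p F hquad himag U Λ Λ.P rfl hgood hS a ha
  -- the inclusion of the groups of units
  have hUA : U ≤ A'.comap (QuotientGroup.mk' (RU F Λ.P U)) := Subgroup.map_le_iff_le_comap.1 hA.le
  have hUS : US F Λ.P (A'.comap (QuotientGroup.mk' (RU F Λ.P U))) ≤ US F Λ.P U :=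
    fun x hx => ⟨fun g hg => hx.1 g (hUA hg), hx.2⟩
  let i : Additive (US F Λ.P (A'.comap (QuotientGroup.mk' (RU F Λ.P U)))) →+
      Additive (US F Λ.P U) := MonoidHom.toAdditive (Subgroup.inclusion hUS)
  have hi : ∀ x, (((i x).toMul : (AlgebraicClosure F)ˣ) : AlgebraicClosure F) =
      ((x.toMul : (AlgebraicClosure F)ˣ) : AlgebraicClosure F) := fun x => rfl
  have hext : ∀ x y : Additive (US F Λ.P U),
      ((x.toMul : (AlgebraicClosure F)ˣ) : AlgebraicClosure F) =
        ((y.toMul : (AlgebraicClosure F)ˣ) : AlgebraicClosure F) → x = y := by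
    intro x y hxy
    exact Additive.toMul.injective (Subtype.ext (Units.ext hxy))
  have hinj : Function.Injective i := by
    intro x y hxy
    have h := congrArg (fun z : Additive (US F Λ.P U) =>
      ((z.toMul : (AlgebraicClosure F)ˣ) : AlgebraicClosure F)) hxy
    exact Additive.toMul.injective (Subtype.ext (Units.ext h))
  have e3 := h4 p (GF F ⧸ U) A (q.comp A.subtype) (A'.map q) ?_ ?_ ?_
    (Additive (US F Λ.P U)) (Additive (US F Λ.P (A'.comap (QuotientGroup.mk' (RU F Λ.P U)))))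
    a b i hinj ?_ ?_ (Option Λ.S) (Dnx U Λ) g hg1 hg2 hg3 hfin k ψ' ?_
  · rw [Fintype.prod_option] at e3
    have f1 : Nat.card {f : (GF F ⧸ U) ⧸ (Dnx U Λ none) → k // ∀ (β : A) t,
        f ((q.comp A.subtype) β • t) = ((ψ' β : kˣ) : k) * f t} = Nat.card k ^ A.index := by
      rw [← L1']
      exact card_fn_bot hqs hkA hψ1'
    have f2 : ∀ w : Λ.S, Nat.card {f : (GF F ⧸ U) ⧸ (Dnx U Λ (some w)) → k //
        ∀ (β : A) t, f ((q.comp A.subtype) β • t) = ((ψ' β : kˣ) : k) * f t} =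
        Nat.card (BKND.H0 ((indM A (kch ψ')).comp
          (Λ.loc (QuotientGroup.mk' (RU F Λ.P U)) w))) := by
      intro w
      rw [← card_fn_range (Λ.loc (QuotientGroup.mk' (RU F Λ.P U)) w) hqs hkA hψ1']
      have h7 : (Dnx U Λ (some w)) =
          (q.comp (Λ.loc (QuotientGroup.mk' (RU F Λ.P U)) w)).range := by
        rfl
      rw [h7]
    rw [f1, e2] at e3
    simp only [f2] at e3
    have hpos : 0 < Nat.card (BKND.H0 (kch ψ)) := Nat.card_pos
    have hposk : 0 < Nat.card k := Nat.card_pos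
    rw [L3', L1]
    refine Nat.eq_of_mul_eq_mul_left (Nat.mul_pos hpos hposk) ?_
    calc Nat.card (BKND.H0 (kch ψ)) * Nat.card k *
          (Nat.card (BKND.Z1 (indM A (kch ψ))) * Nat.card (BKND.H0 (kch ψ')))
        = (Nat.card (BKND.Z1 (indM A (kch ψ))) * Nat.card k) * Nat.card (BKND.H0 (kch ψ)) *
            Nat.card (BKND.H0 (kch ψ')) := by ring
      _ = (Nat.card (BKND.Z1 (kch ψ)) * Nat.card (BKND.H0 (kch ψ))) * Nat.card k ^ A.index *
            Nat.card (BKND.H0 (kch ψ')) := by rw [L4]; ring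
      _ = Nat.card k * Nat.card k ^ A.index *
            (hq p (kch ψ') b * Nat.card (BKND.H0 (kch ψ'))) := by rw [e1]; ring
      _ = _ := by rw [e3]; ring
  · rw [MonoidHom.range_comp, Subgroup.range_subtype]
    exact Subgroup.map_mono hA.le'
  · rintro β _ ⟨x, hx, rfl⟩
    refine ⟨(β : GU F Λ.P U) * x * (β : GU F Λ.P U)⁻¹, hA.nor β β.2 x hx, ?_⟩
    rw [map_mul, map_mul, map_inv]
    rfl
  · rw [MonoidHom.range_comp, Subgroup.range_subtype, Subgroup.relIndex_map_map,
      sup_eq_left.2 hkA', sup_eq_left.2 hkA]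
    exact hA.idx
  · rintro ⟨β, hβ⟩ n
    obtain ⟨g', rfl⟩ := QuotientGroup.mk_surjective β
    apply hext
    rw [hi, hb g' hβ n]
    exact (ha g' (i n)).symm
  · intro m
    constructor
    · rintro ⟨n, rfl⟩ _ ⟨x, hx, rfl⟩
      obtain ⟨g', rfl⟩ := QuotientGroup.mk_surjective x
      apply hext
      rw [hqm, ha g' (i n), hi]
      exact n.toMul.2.1 g' hx
    · intro hm
      have h7 : ∀ g' ∈ A'.comap (QuotientGroup.mk' (RU F Λ.P U)),
          g' ((m.toMul : (AlgebraicClosure F)ˣ) : AlgebraicClosure F) =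
            ((m.toMul : (AlgebraicClosure F)ˣ) : AlgebraicClosure F) := by
        intro g' hg'
        have h8 := hm (q (QuotientGroup.mk g')) ⟨QuotientGroup.mk g', hg', rfl⟩
        rw [hqm] at h8
        rw [← ha g' m, h8]
      refine ⟨Additive.ofMul ⟨(m.toMul : (AlgebraicClosure F)ˣ), h7, m.toMul.2.2⟩, ?_⟩
      exact hext _ _ rfl
  · rintro β ⟨x, hx, hx'⟩
    apply hψ'
    have h7 : q (x⁻¹ * (β : GU F Λ.P U)) = 1 := by
      rw [map_mul, map_inv, hx']
      exact inv_mul_cancel _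
    have h8 := A'.mul_mem hx (hkA' h7)
    rwa [mul_inv_cancel_left] at h8

end BKT
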