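import Pool.Agent.Lib.MP_7c08ba_nt.T1.StGN

set_option autoImplicit false
set_option linter.unusedSectionVars false

/-!
Parity for general residual representations, module UGL: classes of `GU F P U` with values in
induced modules which are locally trivial, for an arbitrary family of places.
-/

noncomputable section

namespace BKT

open NumberField IsDedekindDomain BKGen
open BKPar (Loc1 Loc2)
open BKND (Sm)
open BKMet
open BKGlob2 (Cp fs sn CC0 StCJ StCV StCP)
open BKV (RU GU dc)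

namespace GNUGL

section Eval

variable {G : Type} [Group G] {A : Subgroup G} {N : Type} [AddCommGroup N]
  (σ : A →* AddMonoid.End N)

/-- evaluation at `1` is equivariant -/
theorem eval_act (a : A) (f : IndM A σ) :
    ((indM A σ (a : G) f : IndM A σ) : G → N) 1 = σ a ((f : G → N) 1) := by
  rw [indM_apply, mul_one]
  have h := f.2 1 a⁻¹
  rw [one_mul, inv_inv] at h
  exact h

variable {C : Type} [Group C] [TopologicalSpace C] [IsTopologicalGroup C] (φ : C →* G)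

theorem eval_B2 {z : G → G → IndM A σ}
    (h : pb2 φ z ∈ BKND.B2 ((indM A σ).comp φ)) :
    pb2 (φ.subgroupComap A) (fun a b : A => ((z a b : IndM A σ) : G → N) 1) ∈
      BKND.B2 (σ.comp (φ.subgroupComap A)) := by
  obtain ⟨β, ⟨W, hW, hβ⟩, hz⟩ := h
  refine ⟨fun b => ((β b : IndM A σ) : G → N) 1, ⟨W.subgroupOf (A.comap φ),
    hW.preimage continuous_subtype_val, fun g w hw => ?_⟩, fun a b => ?_⟩
  · have := hβ g w hw
    exact congrArg (fun f : IndM A σ => (f : G → N) 1) this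
  · have e := congrArg (fun f : IndM A σ => (f : G → N) 1) (hz a b)
    have e2 := eval_act σ (φ.subgroupComap A a) (β b)
    have e3 : ((indM A σ (φ a) (β b) : IndM A σ) : G → N) 1 =
        σ (φ.subgroupComap A a) ((β b : G → N) 1) := e2
    have e4 : (((indM A σ (φ a) (β b) - β (a * b) + β a : IndM A σ)) : G → N) 1 =
        ((indM A σ (φ a) (β b) : IndM A σ) : G → N) 1 - (β (a * b) : G → N) 1 +
          (β a : G → N) 1 := rfl
    have e5 : ((z (φ a) (φ b) : IndM A σ) : G → N) 1 =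
        (((indM A σ (φ a) (β b) - β (a * b) + β a : IndM A σ)) : G → N) 1 := e
    rw [e4, e3] at e5
    exact e5

theorem eval_B1 {f : G → IndM A σ}
    (h : pb1 φ f ∈ BKND.B1 ((indM A σ).comp φ)) :
    pb1 (φ.subgroupComap A) (fun a : A => ((f a : IndM A σ) : G → N) 1) ∈
      BKND.B1 (σ.comp (φ.subgroupComap A)) := by
  obtain ⟨m, hm⟩ := h
  refine ⟨(m : G → N) 1, fun a => ?_⟩
  have e := congrArg (fun f : IndM A σ => (f : G → N) 1) (hm a)
  have e2 := eval_act σ (φ.subgroupComap A a) m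
  have e3 : ((indM A σ (φ a) m : IndM A σ) : G → N) 1 =
      σ (φ.subgroupComap A a) ((m : G → N) 1) := e2
  have e5 : ((f (φ a) : IndM A σ) : G → N) 1 =
      ((indM A σ (φ a) m : IndM A σ) : G → N) 1 - (m : G → N) 1 := e
  rw [e3] at e5
  exact e5

end Eval

/-- the image of an open subgroup is open -/
theorem isOpen_map {F : Type} [Field F] {P : Set ℕ} {U : Subgroup (GF F)}
    (hU : IsOpen (U : Set (GF F))) :
    IsOpen ((U.map (QuotientGroup.mk' (RU F P U)) : Subgroup (GU F P U)) : Set (GU F P U)) := by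
  have h := (QuotientGroup.isOpenMap_coe (N := RU F P U)) _ hU
  rw [Subgroup.coe_map]
  exact h

/-- a normal subgroup contained in `A` on which `σ` is trivial acts trivially on the induced
module -/
theorem act_trivial {G : Type} [Group G] {A : Subgroup G} {N : Type} [AddCommGroup N]
    (σ : A →* AddMonoid.End N) (B : Subgroup G) (hB : B.Normal) (hBA : B ≤ A)
    (hσ : ∀ (b : G) (hb : b ∈ B), σ ⟨b, hBA hb⟩ = 1) (w : G) (hw : w ∈ B) (m : IndM A σ) :
    indM A σ w m = m := by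
  apply Subtype.ext
  funext x
  rw [indM_apply]
  have h1 : x⁻¹ * w⁻¹ * x ∈ B := by
    have := hB.conj_mem w⁻¹ (B.inv_mem hw) x⁻¹
    rwa [inv_inv] at this
  have h2 := m.2 x ⟨x⁻¹ * w⁻¹ * x, hBA h1⟩
  have h3 : w⁻¹ * x = x * (x⁻¹ * w⁻¹ * x) := by group
  rw [h3]
  have h4 : σ (⟨x⁻¹ * w⁻¹ * x, hBA h1⟩ : A)⁻¹ = 1 := by
    have h5 : (⟨x⁻¹ * w⁻¹ * x, hBA h1⟩ : A)⁻¹ = ⟨(x⁻¹ * w⁻¹ * x)⁻¹, hBA (B.inv_mem h1)⟩ := rfl
    rw [h5]
    exact hσ _ (B.inv_mem h1)
  rw [h4] at h2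
  exact h2


section Key

variable {F : Type} [Field F] [NumberField F] {P : Set ℕ} {U : Subgroup (GF F)}

theorem mk_cont : Continuous (QuotientGroup.mk' (RU F P U)) :=
  QuotientGroup.continuous_mk

/-- the absolute Galois group is nonarchimedean -/
theorem nonarch (K : Type) [Field K] : NonarchimedeanGroup (GF K) where
  is_nonarchimedean := by
    intro V hV
    rw [krullTopology_mem_nhds_one_iff] at hV
    obtain ⟨E, hE, hEV⟩ := hV
    exact ⟨⟨E.fixingSubgroup, E.fixingSubgroup_isOpen⟩, hEV⟩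

theorem cp_facts (hCP : StCP) {l : ℕ} [Fact l.Prime] (j : AlgebraicClosure F →+* PadicAlgCl l) :
    CompactSpace (Cp (MonoidHom.id (GF F)) j) ∧ Continuous (fs (MonoidHom.id (GF F)) j) := by
  have hna : NonarchimedeanGroup (GF F) := nonarch F
  have hcp := hCP F (AlgebraicClosure F) (GF F) (MonoidHom.id (GF F))
    Topology.IsOpenEmbedding.id l j
  exact ⟨hcp.2.2.1, hcp.2.1⟩

/-- local conditions at all places over the primes in `P` -/
theorem key (hCV : StCV) (hCP : StCP) (Λ : Plc F) (hP : Λ.P = P) (hG : Λ.Good) {l : ℕ}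
    [Fact l.Prime] (hl : l ∈ P) (j : AlgebraicClosure F →+* PadicAlgCl l)
    (M : Type) [AddCommGroup M] (ρ : GU F P U →* AddMonoid.End M)
    (hρ : ∀ m : M, ∃ W : Subgroup (GU F P U), IsOpen (W : Set (GU F P U)) ∧
      ∀ w ∈ W, ρ w m = m) :
    (∀ z ∈ BKND.Z2 ρ,
      (∀ w, pb2 (Λ.loc (QuotientGroup.mk' (RU F P U)) w) z ∈
        BKND.B2 (ρ.comp (Λ.loc (QuotientGroup.mk' (RU F P U)) w))) →
      pb2 (dc P U j) z ∈ BKND.B2 (ρ.comp (dc P U j))) ∧
    ∀ z ∈ BKND.Z1 ρ,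
      (∀ w, pb1 (Λ.loc (QuotientGroup.mk' (RU F P U)) w) z ∈
        BKND.B1 (ρ.comp (Λ.loc (QuotientGroup.mk' (RU F P U)) w))) →
      pb1 (dc P U j) z ∈ BKND.B1 (ρ.comp (dc P U j)) := by
  obtain ⟨w, g, -, s, hs, hgs⟩ := hG.cov l (hP.symm ▸ hl) j
  obtain ⟨hcp1, hcp2⟩ := cp_facts hCP j
  have hb : ∀ d, dc P U j d = (QuotientGroup.mk' (RU F P U) g)⁻¹ *
      Λ.loc (QuotientGroup.mk' (RU F P U)) w (s d) * QuotientGroup.mk' (RU F P U) g := by
    intro d
    have e1 : dc P U j d = QuotientGroup.mk' (RU F P U) (fs (MonoidHom.id (GF F)) j d) := rfl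
    have e2 := congrArg (QuotientGroup.mk' (RU F P U)) (hgs d)
    rw [map_mul, map_mul, map_inv] at e2
    exact e1.trans e2
  have h1 := hCV (GU F P U) (Λ.D w) (Cp (MonoidHom.id (GF F)) j)
    (Λ.loc (QuotientGroup.mk' (RU F P U)) w) (dc P U j) s
    (mk_cont.comp (hG.cont w)) (mk_cont.comp hcp2) hs
    (QuotientGroup.mk' (RU F P U) g) hb M ρ hρ
  exact ⟨fun z hz hw => h1.1 z hz (hw w), fun z hz hw => h1.2 z hz (hw w)⟩

end Key

end GNUGL

open GNUGL in
theorem stUgl (h1 : StTwa) (h2 : StOna) (h3 : StShi) (hCV : StCV) (hCP : StCP) : StUgl := by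
  intro p _ F _ _ Λ P hP hG U hsit A A' hAdm k _ _ _ ψ hψ
  -- the normal open subgroup
  obtain ⟨B, hBdef⟩ : ∃ B : Subgroup (GU F P U),
    B = U.map (QuotientGroup.mk' (RU F P U)) := ⟨_, rfl⟩
  have hBo : IsOpen (B : Set (GU F P U)) := by
    rw [hBdef]
    exact isOpen_map hsit.open'
  have hBn : B.Normal := by
    rw [hBdef]
    exact hsit.normal.map _ (QuotientGroup.mk'_surjective _)
  rw [← hBdef] at hAdm
  have hBA : B ≤ A := hAdm.le.trans hAdm.le'
  have hAo : IsOpen (A : Set (GU F P U)) := Subgroup.isOpen_mono hBA hBo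
  have hσ : ∀ (b : GU F P U) (hb : b ∈ B), kch ψ ⟨b, hBA hb⟩ = 1 := by
    intro b hb
    ext x
    rw [kch_apply, hψ ⟨b, hBA hb⟩ (hAdm.le hb), Units.val_one, one_mul]
    rfl
  have hSm : Sm (kch ψ) := ⟨B.subgroupOf A, hBo.preimage continuous_subtype_val,
    fun w hw => hσ w hw⟩
  have hρ : ∀ m : IndM A (kch ψ), ∃ W : Subgroup (GU F P U),
      IsOpen (W : Set (GU F P U)) ∧ ∀ w ∈ W, indM A (kch ψ) w m = m := fun m =>
    ⟨B, hBo, fun w hw => act_trivial (kch ψ) B hBn hBA hσ w hw m⟩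
  obtain ⟨h3a, h3b⟩ := h3 (GU F P U) A hAo k (kch ψ) hSm
  refine ⟨fun z hz hloc => ?_, fun f hf hloc => ?_⟩
  · obtain ⟨hz1, hz2⟩ := h3a z hz
    refine hz2 (h1 p F P U hsit A A' (hBdef ▸ hAdm) k ψ hψ _ hz1 ?_)
    intro l _ hl j
    exact eval_B2 (kch ψ) (dc P U j)
      ((key hCV hCP Λ hP hG hl j (IndM A (kch ψ)) (indM A (kch ψ)) hρ).1 z hz hloc)
  · obtain ⟨hz1, hz2⟩ := h3b f hf
    refine hz2 (h2 p F P U hsit A A' (hBdef ▸ hAdm) k ψ hψ _ hz1 ?_)
    intro l _ hl j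
    exact eval_B1 (kch ψ) (dc P U j)
      ((key hCV hCP Λ hP hG hl j (IndM A (kch ψ)) (indM A (kch ψ)) hρ).2 f hf hloc)

end BKT
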