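import Pool.Agent.Lib.MP_7c08ba_nt.T1.StGN
import Pool.Agent.Lib.MP_7c08ba_nt.Met.HPN
import Pool.Agent.Lib.MP_7c08ba_nt.Met.GPA

set_option autoImplicit false

/-!
Parity for general residual representations and arbitrary ramification at the primes which do not
split, module UPN: the number of primes above `P` of the field fixed by `U`.
-/

noncomputable section

namespace BKT

open NumberField IsDedekindDomain BKGen BKGen.SUnits BKGlob2
open BKMet (QZ actA kch Rel GF GQ cycF cycL IsConj Pl Splits)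

namespace GNUPN

open BKGlob2.PNAux

variable {F : Type} [Field F] [NumberField F] {U : Subgroup (GF F)} [U.Normal]
  {E : IntermediateField F (AlgebraicClosure F)} [NumberField E] {Λ : Plc F}

variable (E Λ) in
/-- the embedding of `E` given by the place `w` and `g` -/
def em (w : Λ.S) (g : GF F) : E →+* PadicAlgCl (Λ.m w) :=
  ((Λ.J w).comp ((g⁻¹ : GF F) : AlgebraicClosure F →+* AlgebraicClosure F)).comp
    (algebraMap E (AlgebraicClosure F))

omit [NumberField F] [NumberField E] in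
theorem em_apply (w : Λ.S) (g : GF F) (x : E) :
    em E Λ w g x = Λ.J w (g⁻¹ (x : AlgebraicClosure F)) := rfl

theorem same (hΛ : Λ.Good) (hE : ∀ x, x ∈ E ↔ ∀ g ∈ U, g x = x) (w : Λ.S) (g g' : GF F)
    (h : ((QuotientGroup.mk g : GF F ⧸ U)⁻¹ * QuotientGroup.mk g') ∈ Dn U Λ w) :
    pl (em E Λ w g) = pl (em E Λ w g') := by
  obtain ⟨d, hd⟩ := h
  have h1 : (QuotientGroup.mk (Λ.r w d) : GF F ⧸ U) = QuotientGroup.mk (g⁻¹ * g') := hd
  rw [QuotientGroup.eq] at h1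
  refine pl_eq _ _ (Λ.q w d⁻¹) fun x => ?_
  rw [em_apply, em_apply, ← hΛ.spec w d⁻¹, map_inv]
  congr 1
  have h3 : ((Λ.r w d)⁻¹ * (g⁻¹ * g')) (g'⁻¹ (x : AlgebraicClosure F)) =
      g'⁻¹ (x : AlgebraicClosure F) :=
    (hE _).1 (fix_conj hE x.2 g'⁻¹) _ h1
  rw [← h3, ← AlgEquiv.mul_apply, ← AlgEquiv.mul_apply]
  congr 1
  group

/-- different places give different primes -/
theorem inj (hΛ : Λ.Good) (hU : IsOpen (U : Set (GF F)))
    (hE : ∀ x, x ∈ E ↔ ∀ g ∈ U, g x = x) (w w' : Λ.S) (g g' : GF F)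
    (h : pl (em E Λ w g) = pl (em E Λ w' g')) :
    w = w' ∧ ((QuotientGroup.mk g : GF F ⧸ U)⁻¹ * QuotientGroup.mk g') ∈ Dn U Λ w := by
  have hw : w = w' := by
    apply hΛ.dist
    intro a
    have e1 : ∀ (w : Λ.S) (g : GF F), em E Λ w g
        (algebraMap (𝓞 E) E (algebraMap (𝓞 F) (𝓞 E) a)) =
        Λ.J w (algebraMap F (AlgebraicClosure F) (a : F)) := by
      intro w g
      rw [em_apply]
      have e2 : ((algebraMap (𝓞 E) E (algebraMap (𝓞 F) (𝓞 E) a) : E) : AlgebraicClosure F) =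
          algebraMap F (AlgebraicClosure F) (a : F) := rfl
      rw [e2, AlgEquiv.commutes]
    have h1 : algebraMap (𝓞 F) (𝓞 E) a ∈ (pl (em E Λ w g)).asIdeal ↔
        algebraMap (𝓞 F) (𝓞 E) a ∈ (pl (em E Λ w' g')).asIdeal := by rw [h]
    rwa [mem_pl, mem_pl, e1, e1] at h1
  subst hw
  refine ⟨rfl, ?_⟩
  obtain ⟨t, ht⟩ := stPA E (Λ.m w) (em E Λ w g) (em E Λ w g') h
  obtain ⟨τ, hτ⟩ := exists_gal (Λ.J w)
    (((t : GQ (Λ.m w)) : PadicAlgCl (Λ.m w) →+* PadicAlgCl (Λ.m w)).comp (Λ.J w)) (by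
      intro a
      have h1 := ht (algebraMap F E a)
      rw [em_apply, em_apply] at h1
      have e1 : ((algebraMap F E a : E) : AlgebraicClosure F) =
          algebraMap F (AlgebraicClosure F) a := rfl
      rw [e1, AlgEquiv.commutes, AlgEquiv.commutes] at h1
      exact h1.symm)
  have hτ' : ∀ x, Λ.J w (τ x) = t (Λ.J w x) := fun x => (hτ x).symm
  obtain ⟨d, hd, -⟩ := hΛ.full w τ t hτ'
  have h3 : g' * τ * g⁻¹ ∈ U := by
    apply mem_U hU hE
    intro x hx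
    have h4 := ht ⟨x, hx⟩
    rw [em_apply, em_apply] at h4
    have h6 : g'⁻¹ x = τ (g⁻¹ x) := (Λ.J w).injective (h4.trans (hτ' _).symm)
    rw [AlgEquiv.mul_apply, AlgEquiv.mul_apply, ← h6, ← AlgEquiv.mul_apply, mul_inv_cancel,
      AlgEquiv.one_apply]
  have h7 : (QuotientGroup.mk (g' * τ * g⁻¹) : GF F ⧸ U) = 1 :=
    (QuotientGroup.eq_one_iff _).2 h3
  have h8 : (QuotientGroup.mk g : GF F ⧸ U)⁻¹ * QuotientGroup.mk g' =
      (QuotientGroup.mk τ : GF F ⧸ U)⁻¹ := by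
    rw [QuotientGroup.mk_mul, QuotientGroup.mk_mul, QuotientGroup.mk_inv] at h7
    have h9 : (QuotientGroup.mk g' : GF F ⧸ U) = QuotientGroup.mk g *
        (QuotientGroup.mk τ)⁻¹ := by
      rw [mul_inv_eq_one, ← eq_mul_inv_iff_mul_eq] at h7
      exact h7
    rw [h9, inv_mul_cancel_left]
  rw [h8]
  refine inv_mem ⟨d, ?_⟩
  rw [← hd]
  rfl

/-- every prime above `P` comes from a place -/
theorem surj (hΛ : Λ.Good) (v : HeightOneSpectrum (𝓞 E))
    (hv : v ∈ SP E Λ.P) : ∃ (w : Λ.S) (g : GF F), pl (em E Λ w g) = v := by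
  obtain ⟨l, ⟨w₀, rfl⟩, hl⟩ := hv
  have := v.isPrime
  obtain ⟨j, hj⟩ := RT.exists_emb v.asIdeal v.ne_bot hl
  have hjv : pl j = v := by
    apply HeightOneSpectrum.ext
    rw [hj]
    rfl
  let _ : Algebra E (PadicAlgCl (Λ.m w₀)) := j.toAlgebra
  let J : AlgebraicClosure F →ₐ[E] PadicAlgCl (Λ.m w₀) := IsAlgClosed.lift
  have hJ : ∀ x : E, J (x : AlgebraicClosure F) = j x := fun x => J.commutes x
  obtain ⟨w, g, hg, -⟩ := hΛ.cov (Λ.m w₀) ⟨w₀, rfl⟩
    (J : AlgebraicClosure F →+* PadicAlgCl (Λ.m w₀))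
  refine ⟨w, g⁻¹, ?_⟩
  rw [← hjv]
  apply HeightOneSpectrum.ext
  ext a
  rw [mem_pl, mem_pl, em_apply, inv_inv, ← hg, ← hJ]
  rfl

end GNUPN

open GNUPN in
/-- **Module UPN**: the number of primes above `P` of the field fixed by `U`. -/
theorem stUpn : StUpn := by
  intro F _ _ U _ hU E _ hE Λ P hP hΛ
  subst hP
  have hfU : Finite (GF F ⧸ U) := Subgroup.quotient_finite_of_isOpen U hU
  let f : (Σ w : Λ.S, (GF F ⧸ U) ⧸ Dn U Λ w) → SP E Λ.P := fun x =>
    ⟨pl (em E Λ x.1 (x.2.out.out)), Λ.m x.1, ⟨x.1, rfl⟩, l_mem_plI _⟩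
  have hf : Function.Bijective f := by
    constructor
    · rintro ⟨w, a⟩ ⟨w', a'⟩ h
      have h2 : pl (em E Λ w (a.out.out)) = pl (em E Λ w' (a'.out.out)) :=
        congrArg Subtype.val h
      obtain ⟨rfl, h3⟩ := inj (U := U) hΛ hU hE w w' _ _ h2
      rw [QuotientGroup.out_eq', QuotientGroup.out_eq', ← QuotientGroup.eq,
        QuotientGroup.out_eq', QuotientGroup.out_eq'] at h3
      rw [h3]
    · rintro ⟨v, hv⟩
      obtain ⟨w, g, hg⟩ := surj hΛ v hv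
      refine ⟨⟨w, QuotientGroup.mk (QuotientGroup.mk g)⟩, Subtype.ext ?_⟩
      refine Eq.trans ?_ hg
      apply same hΛ hE
      rw [QuotientGroup.out_eq', ← QuotientGroup.eq, QuotientGroup.out_eq']
  rw [← Nat.card_congr (Equiv.ofBijective f hf), Nat.card_sigma]
  rfl

end BKT
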