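import Pool.Agent.Lib.MP_7c08ba_nt.T1.GNUPN
import Pool.Agent.Lib.MP_7c08ba_nt.T1.GPWT

set_option autoImplicit false

/-!
Parity for general residual representations and arbitrary ramification at the primes which do not
split, module UPW: elements which generate powers of the primes above `P`, for uniform families of
places.
-/

noncomputable section

namespace BKT

open NumberField IsDedekindDomain BKGen BKGen.SUnits nonZeroDivisors
open BKMet
open BKGlob2 (Cp fs sn CC0 Prin SP US IsAct)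
open BKGlob2.HPW (exists_gen norm_one out_apply char_eq)

/-- **Module UPW.** -/
theorem stUpw : StUpw := by
  intro F _ _ U _ hU Λ P hP hΛ w
  subst hP
  obtain ⟨E, _, hE⟩ := GPWT.exists_field hU
  obtain ⟨a, ha0, hav, hau⟩ := exists_gen (pl (GNUPN.em E Λ w 1))
  obtain ⟨α, hαd⟩ : ∃ α : AlgebraicClosure F, α = ((a : E) : AlgebraicClosure F) := ⟨_, rfl⟩
  have hα : ∀ g ∈ U, g α = α := by
    rw [hαd]
    exact fun g hg => (hE _).1 (a : E).2 g hg
  have hα0 : α ≠ 0 := by
    rw [hαd]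
    intro h
    apply ha0
    apply RingOfIntegers.coe_injective
    exact Subtype.ext h
  have hfin : Finite (GF F ⧸ U) := Subgroup.quotient_finite_of_isOpen U hU
  have hfin2 : Finite (Dn U Λ w) := Subtype.finite
  let _ : Fintype (Dn U Λ w) := Fintype.ofFinite _
  obtain ⟨π, hπ⟩ : ∃ π : AlgebraicClosure F,
    π = ∏ d : Dn U Λ w, (d : GF F ⧸ U).out α := ⟨_, rfl⟩
  -- the factors
  have hfac : ∀ (g : GF F) (d : GF F ⧸ U), g (d.out α) = (g * d.out) α := fun g d => rfl
  have hperm : ∀ g : GF F, (QuotientGroup.mk g : GF F ⧸ U) ∈ Dn U Λ w → g π = π := by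
    intro g hg
    rw [hπ, map_prod]
    refine Fintype.prod_equiv (Equiv.mulLeft (⟨QuotientGroup.mk g, hg⟩ : Dn U Λ w)) _ _ ?_
    intro d
    rw [hfac, ← out_apply hα (g * (d : GF F ⧸ U).out)]
    congr 2
    rw [QuotientGroup.mk_mul, QuotientGroup.out_eq']
    rfl
  have hone : ∀ (w' : Λ.S) (g : GF F),
      (w' ≠ w ∨ (QuotientGroup.mk g : GF F ⧸ U) ∉ Dn U Λ w) →
      ‖Λ.J w' (g α)‖ = 1 := by
    intro w' g hg
    have e : Λ.J w' (g α) = GNUPN.em E Λ w' g⁻¹ (a : E) := by
      rw [GNUPN.em_apply, inv_inv, hαd]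
    rw [e]
    refine norm_one hau fun hpl => ?_
    obtain ⟨h1, h2⟩ := GNUPN.inj (U := U) hΛ hU hE w' w g⁻¹ 1 hpl
    subst h1
    rcases hg with h | h
    · exact h rfl
    · apply h
      have e2 : (QuotientGroup.mk g⁻¹ : GF F ⧸ U)⁻¹ * QuotientGroup.mk 1 =
          QuotientGroup.mk g := by
        rw [← QuotientGroup.mk_inv, inv_inv, ← QuotientGroup.mk_mul, mul_one]
      rwa [e2] at h2
  refine ⟨π, ?_, ?_, ?_, ?_, ?_, ?_⟩
  · rw [hπ]
    refine Finset.prod_ne_zero_iff.2 fun d _ h => hα0 ?_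
    exact (map_eq_zero_iff _ (AlgEquiv.injective _)).1 h
  · intro g hg
    apply hperm
    have e : (QuotientGroup.mk g : GF F ⧸ U) = 1 := (QuotientGroup.eq_one_iff g).2 hg
    rw [e]
    exact (Dn U Λ w).one_mem
  · intro d
    exact hperm _ ⟨d, rfl⟩
  · intro l _ hl j
    rw [hπ, map_prod, norm_prod]
    refine Finset.prod_eq_one fun d _ => ?_
    rw [hαd]
    refine norm_one (j := (j.comp (((d : GF F ⧸ U).out : AlgebraicClosure F ≃ₐ[F]
      AlgebraicClosure F) : AlgebraicClosure F →+* AlgebraicClosure F)).comp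
        (algebraMap E (AlgebraicClosure F))) hau fun hpl => ?_
    exact hl ⟨w, (char_eq hpl).symm⟩
  · have hlt : ∀ d : Dn U Λ w, ‖Λ.J w ((d : GF F ⧸ U).out α)‖ < 1 := by
      rintro ⟨d, t, rfl⟩
      change ‖Λ.J w ((QuotientGroup.mk (Λ.r w t) : GF F ⧸ U).out α)‖ < 1
      rw [out_apply hα, hΛ.spec, BKGlob2.PNAux.norm_gq, hαd]
      exact hav
    classical
    rw [hπ, map_prod, norm_prod, ← Finset.mul_prod_erase _ _ (Finset.mem_univ 1)]
    refine mul_lt_one_of_nonneg_of_lt_one_left (norm_nonneg _) (hlt 1) ?_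
    exact Finset.prod_le_one (fun d _ => norm_nonneg _) fun d _ => (hlt d).le
  · intro w' g hg
    rw [hπ, map_prod, map_prod, norm_prod]
    refine Finset.prod_eq_one fun d _ => ?_
    rw [hfac]
    apply hone
    rcases hg with h | h
    · exact Or.inl h
    · refine Or.inr fun h2 => h ?_
      rw [QuotientGroup.mk_mul, QuotientGroup.out_eq'] at h2
      exact (Subgroup.mul_mem_cancel_right _ d.2).1 h2

end BKT
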