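import Pool.Agent.Lib.MP_7c08ba_nt.T1.All
import Pool.Agent.Lib.MP_7c08ba_nt.T1.GNCNJ
import Pool.Agent.Lib.MP_7c08ba_nt.T1.GNMIX
import Pool.Agent.Lib.MP_7c08ba_nt.T1.GNNAR
import Pool.Agent.Lib.MP_7c08ba_nt.T1.GNNCJ
import Pool.Agent.Lib.MP_7c08ba_nt.T1.GNNCR
import Pool.Agent.Lib.MP_7c08ba_nt.T1.GNNKL
import Pool.Agent.Lib.MP_7c08ba_nt.T1.GNNLG
import Pool.Agent.Lib.MP_7c08ba_nt.T1.GNNLS
import Pool.Agent.Lib.MP_7c08ba_nt.T1.GNNPL
import Pool.Agent.Lib.MP_7c08ba_nt.T1.GNNRA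
import Pool.Agent.Lib.MP_7c08ba_nt.T1.GNNRE
import Pool.Agent.Lib.MP_7c08ba_nt.T1.GNNSY
import Pool.Agent.Lib.MP_7c08ba_nt.T1.GNUCU
import Pool.Agent.Lib.MP_7c08ba_nt.T1.GNUGC
import Pool.Agent.Lib.MP_7c08ba_nt.T1.GNUGL
import Pool.Agent.Lib.MP_7c08ba_nt.T1.GNUPN
import Pool.Agent.Lib.MP_7c08ba_nt.T1.GNUPW

set_option autoImplicit false

/-!
Parity for general residual representations and arbitrary ramification at the primes which do not
split: the arithmetic theorem, assembly of the modules GN.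
-/

noncomputable section

namespace BKT.GNAll

open BKT

theorem upw : StUpw := stUpw
theorem upn : StUpn := stUpn
theorem ucu : StUcu := stUcu BKGlob2.stMU BKGlob2.stMI upw upn All.rkt
theorem ugl : StUgl := stUgl All.twa All.ona All.shi BKGlob2.stCV BKGlob2.stCP
theorem npl : StNpl := stNpl
theorem mixM : StMix := stMix BKGlob2.stCJ BKGlob2.stPA npl
theorem cnj : StCnj := stCnj npl BKGlob2.stCJ BKGlob2.stCY
theorem ncr : StNcr := stNcr All.crV BKLoc2.stTRM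
theorem nls : StNls := stNls All.los ncr
theorem nlg : StNlg := stNlg nls All.lot All.lca All.lfn All.dup
theorem ncj : StNcj := stNcj ncr BKLoc2.stTRM
theorem nkl : StNkl := stNkl BKGlob2.aKL ncr
theorem nra : StNra := stNra nkl BKGlob2.aKL BKGlob2.aHA BKGlob2.stCJ BKGlob2.stCV BKGlob2.stCY
  BKGlob2.stCP npl mixM
theorem nsy : StNsy := stNsy ncj
theorem nre : StNre := stNre nra nsy npl BKGlob2.stLX BKGlob2.aRN BKGlob2.stRP BKGlob2.stCJ
  BKGlob2.stCY BKLoc2.stKPE BKLoc2.stSC BKLoc2.stCyP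

theorem ugc : StUgc := stUgc BKGlob2.stUA All.uaa All.cea All.cgx ucu All.lsh

/-- **The arithmetic theorem.** -/
theorem arithN : StArithN :=
  stArithN All.log' nlg ncj ncr ugl ugc All.uit nre cnj npl mixM All.crV BKGlob2.aLI
    BKLoc2.stLam BKGlob2.stCY BKGlob2.stCJ BKGlob2.stPL BKGlob2.aPR BKGlob2.stSA

end BKT.GNAll
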