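import Pool.Agent.Lib.MP_7c08ba_nt.T1.StNF
import Pool.Agent.Lib.MP_7c08ba_nt.Met.FCUPX

set_option autoImplicit false

/-!
Parity for general residual representations and arbitrary ramification at the primes which do not
split, part NF, module CUPXN: antisymmetry of the pairing of the restrictions.
-/

noncomputable section

namespace BKT

open BKMet
open Matrix

open BKMet.FCUPX

/-- **Module CUPXN.** -/
theorem stCupXN (h : StRlN) : StCupXN := by
  intro p _ L _ _ _ ι κ _ _ G _ _ _ _ _ D E _ _ _ _ _ _ _ _ _ _ r q c χ inv invN δ U hS n V B hV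
    hB hD i₀ hline htriv htrivN x hx y hy
  -- duality
  have hdual : ∀ g, (V g : Matrix (Fin n) (Fin n) L)ᵀ *
      ((dualC V c B g : GL (Fin n) L) : Matrix (Fin n) (Fin n) L) =
      BKOdd.chL χ L g • (1 : Matrix (Fin n) (Fin n) L) := dualC_dual V c B hD
  have hV' : Continuous (dualC V c B) := by
    change Continuous fun g => B * V (c g) * B⁻¹
    exact (continuous_const.mul (hV.comp hS.cont_c)).mul continuous_const
  have hxZ := mem_Z1_dualC hS.cont_c B hx
  have hyZ := mem_Z1_dualC hS.cont_c B hy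
  have hsym : ∀ u w : Fin n → L, ((B : Matrix (Fin n) (Fin n) L) *ᵥ u) ⬝ᵥ w =
      u ⬝ᵥ ((B : Matrix (Fin n) (Fin n) L) *ᵥ w) := by
    intro u w
    have e1 : (B : Matrix (Fin n) (Fin n) L) *ᵥ u = u ᵥ* (B : Matrix (Fin n) (Fin n) L) := by
      rw [← Matrix.vecMul_transpose, hB]
    rw [e1, Matrix.dotProduct_mulVec]
  -- the cocycle `Z`
  have hZ := cup_mem_Z2 hV' hdual hx hyZ
  have hcc : ∀ (i : ι) (d : D i), c (c (r i d)) = r i d := fun i d => hS.inv_c _
  have hRL := h p L G ι κ D E r q hS.cont_r hS.cont_q c hS.cont_c χ hS.cont_χ hS.χ_c inv invN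
    (fun i => (hS.loc i).inv_eq) (fun k => (hS.locN k).inv_eq) hS.recip i₀ hline _ hZ
    (fun i hi => by
      obtain ⟨h1, h2⟩ := htriv i hi
      constructor
      · obtain ⟨v, hv⟩ := h1 (mem_Z1_comp (hS.cont_r i) hx)
        have e := BKOdd.cup_cob_left (ρ := V.comp (r i)) (ρ' := (dualC V c B).comp (r i))
          (χ := BKOdd.chL (χ.comp (r i)) L) (fun d => hdual (r i d)) v
          (mem_Z1_comp (hS.cont_r i) hyZ)
        rw [hv] at e
        exact e
      · have hxc : (fun d => x (c (r i d))) ∈ BKOdd.Z1 ((V.comp c).comp (r i)) :=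
          mem_Z1_comp (V := V) (f := c.comp (r i)) (hS.cont_c.comp (hS.cont_r i)) hx
        obtain ⟨v, hv⟩ := h2 hxc
        have hd : ∀ d, (((V.comp c).comp (r i)) d : Matrix (Fin n) (Fin n) L)ᵀ *
            (((dualC V c B).comp (c.comp (r i))) d : Matrix (Fin n) (Fin n) L) =
            BKOdd.chL (χ.comp (r i)) L d • (1 : Matrix (Fin n) (Fin n) L) := by
          intro d
          have e1 := hdual (c (r i d))
          have e2 : BKOdd.chL χ L (c (r i d)) = BKOdd.chL (χ.comp (r i)) L d := by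
            change algebraMap ℚ_[p] L (((χ (c (r i d)) : ℤ_[p]ˣ) : ℤ_[p]) : ℚ_[p]) =
              algebraMap ℚ_[p] L (((χ (r i d) : ℤ_[p]ˣ) : ℤ_[p]) : ℚ_[p])
            rw [hS.χ_c]
          rw [e2] at e1
          exact e1
        have e := BKOdd.cup_cob_left (ρ := (V.comp c).comp (r i))
          (ρ' := (dualC V c B).comp (c.comp (r i)))
          (χ := BKOdd.chL (χ.comp (r i)) L) hd v
          (mem_Z1_comp (f := c.comp (r i)) (hS.cont_c.comp (hS.cont_r i)) hyZ)
        rw [hv] at e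
        exact e)
    (fun k => by
      obtain ⟨v, hv⟩ := (htrivN k).1 (mem_Z1_comp (hS.cont_q k) hx)
      have e := BKOdd.cup_cob_left (ρ := V.comp (q k)) (ρ' := (dualC V c B).comp (q k))
        (χ := BKOdd.chL (χ.comp (q k)) L) (fun d => hdual (q k d)) v
        (mem_Z1_comp (hS.cont_q k) hyZ)
      rw [hv] at e
      exact e)
  -- graded commutativity
  have hcomm := BKOdd.cup_comm (ρ := V.comp (r i₀)) (ρ' := (dualC V c B).comp (r i₀))
    (χ := BKOdd.chL (χ.comp (r i₀)) L) (fun d => hdual (r i₀ d))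
    (mem_Z1_comp (hS.cont_r i₀) hy) (mem_Z1_comp (hS.cont_r i₀) hxZ)
  have hlast := Submodule.add_mem _ hRL hcomm
  have e : BKOdd.cupV (V.comp (r i₀))
      (fun d => (B : Matrix (Fin n) (Fin n) L) *ᵥ x (c (r i₀ d))) (fun d => y (r i₀ d)) =
      pb2 (c.comp (r i₀)) (BKOdd.cupV (dualC V c B) x
        (fun g => (B : Matrix (Fin n) (Fin n) L) *ᵥ y (c g))) := by
    funext d d'
    change ((B : Matrix (Fin n) (Fin n) L) *ᵥ x (c (r i₀ d))) ⬝ᵥ
        ((V (r i₀ d) : Matrix (Fin n) (Fin n) L) *ᵥ y (r i₀ d')) =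
      x (c (r i₀ d)) ⬝ᵥ
        ((dualC V c B (c (r i₀ d)) : GL (Fin n) L) : Matrix (Fin n) (Fin n) L) *ᵥ
          ((B : Matrix (Fin n) (Fin n) L) *ᵥ y (c (c (r i₀ d'))))
    rw [dualC_mulVec, hsym, hcc, hcc]
  rw [e] at hlast
  have e2 : ∀ a b d : D i₀ → D i₀ → L, a - b + (d + b) = a + d := by
    intro a b d
    abel
  rw [e2] at hlast
  exact hlast

end BKT
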