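import Pool.Agent.Lib.MP_7c08ba_nt.T1.StNF
import Pool.Agent.Lib.MP_7c08ba_nt.T1.FGAMT

set_option autoImplicit false

/-!
Parity for general residual representations and arbitrary ramification at the primes which do not
split, module GAMN: the global situation of part Y with the conjugation.
-/

noncomputable section

namespace BKT

open BKPar (Loc1 Loc2)
open BKND (Sm)
open BKMet

namespace NFGAMN

/-! ### The trace -/

section Trace

variable {p : ℕ} [Fact p.Prime] {S : Type} [Fintype S] {G : Type} [Group G] [TopologicalSpace G]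
  {D : S → Type} [∀ w, Group (D w)] [∀ w, TopologicalSpace (D w)] (r : ∀ w, D w →* G)
  {A : Type} [AddCommGroup A] (α : G →* AddMonoid.End A)
  (inv : ∀ w, (D w → D w → A) →+ QZ p)

/-- the sum of the invariants -/
def F (ε : G → G → A) (β : ∀ w, D w → D w → A) : QZ p :=
  ∑ w, inv w (β w - pb2 (r w) ε)

omit [TopologicalSpace G] [∀ w, TopologicalSpace (D w)] in
theorem F_add (ε ε' : G → G → A) (β β' : ∀ w, D w → D w → A) :
    F r inv (ε + ε') (β + β') = F r inv ε β + F r inv ε' β' := by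
  unfold F
  rw [← Finset.sum_add_distrib]
  refine Finset.sum_congr rfl fun w _ => ?_
  rw [← map_add]
  congr 1
  funext d d'
  simp only [Pi.add_apply, Pi.sub_apply, pb2]
  abel

variable {α} in
omit [∀ w, TopologicalSpace (D w)] in
theorem F_wd (hrec : ∀ z ∈ BKND.Z2 α, ∑ w, inv w (pb2 (r w) z) = 0)
    {ε ε' : G → G → A} (hε : Loc2 ε) (hε' : Loc2 ε') (h : d2 α ε = d2 α ε')
    (β : ∀ w, D w → D w → A) : F r inv ε β = F r inv ε' β := by
  have hz : ε - ε' ∈ BKND.Z2 α := by
    refine ⟨BKND.Loc2.map2 hε hε' (· - ·), fun g h' k => ?_⟩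
    have e := congrFun (congrFun (congrFun h g) h') k
    simp only [d2] at e
    simp only [Pi.sub_apply, map_sub]
    rw [← sub_eq_zero] at e
    rw [← e]
    abel
  have h0 := hrec _ hz
  have h1 : F r inv (ε - ε') 0 = 0 := by
    unfold F
    rw [← neg_eq_zero, ← Finset.sum_neg_distrib, ← h0]
    refine Finset.sum_congr rfl fun w _ => ?_
    rw [Pi.zero_apply, zero_sub, map_neg, neg_neg]
  have h2 := F_add r inv (ε - ε') ε' 0 β
  rw [sub_add_cancel, zero_add, h1, zero_add] at h2
  exact h2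

/-- the elements on which the trace is prescribed -/
def Y : AddSubgroup ((G → G → G → A) × (∀ w, D w → D w → A)) where
  carrier := {v | ∃ ε : G → G → A, Loc2 ε ∧ v.1 = d2 α ε ∧
    ∀ w, v.2 w - pb2 (r w) ε ∈ BKND.Z2 (α.comp (r w))}
  add_mem' := by
    rintro v v' ⟨ε, h1, h2, h3⟩ ⟨ε', h1', h2', h3'⟩
    refine ⟨ε + ε', BKND.Loc2.map2 h1 h1' (· + ·), ?_, fun w => ?_⟩
    · rw [Prod.fst_add, h2, h2', XTR.d2_add]
    · have e := (BKND.Z2 (α.comp (r w))).add_mem (h3 w) (h3' w)
      have e' : (v + v').2 w - pb2 (r w) (ε + ε') =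
          v.2 w - pb2 (r w) ε + (v'.2 w - pb2 (r w) ε') := by
        funext d d'
        simp only [Prod.snd_add, Pi.add_apply, Pi.sub_apply, pb2]
        abel
      rw [e']
      exact e
  zero_mem' := by
    refine ⟨0, BKND.Loc2.const 0, ?_, fun w => ?_⟩
    · rw [XTR.d2_zero]
      rfl
    · have e' : (0 : (G → G → G → A) × (∀ w, D w → D w → A)).2 w -
          pb2 (r w) (0 : G → G → A) = 0 := by
        funext d d'
        simp [pb2]
      rw [e']
      exact (BKND.Z2 (α.comp (r w))).zero_mem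
  neg_mem' := by
    rintro v ⟨ε, h1, h2, h3⟩
    refine ⟨-ε, BKND.Loc2.map h1 (fun x => -x), ?_, fun w => ?_⟩
    · rw [Prod.fst_neg, h2, XTR.d2_neg]
    · have e := (BKND.Z2 (α.comp (r w))).neg_mem (h3 w)
      have e' : (-v).2 w - pb2 (r w) (-ε) = -(v.2 w - pb2 (r w) ε) := by
        funext d d'
        simp only [Prod.snd_neg, Pi.neg_apply, Pi.sub_apply, pb2]
        abel
      rw [e']
      exact e

variable {α} in
/-- the prescribed values of the trace -/
def f (hrec : ∀ z ∈ BKND.Z2 α, ∑ w, inv w (pb2 (r w) z) = 0) : Y r α →+ QZ p :=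
  AddMonoidHom.mk' (fun v => F r inv v.2.choose v.1.2) (by
    intro v v'
    have h := (v + v').2.choose_spec
    have h1 := v.2.choose_spec
    have h2 := v'.2.choose_spec
    rw [← F_add]
    refine F_wd r inv hrec h.1 (BKND.Loc2.map2 h1.1 h2.1 (· + ·)) ?_ _
    rw [← h.2.1]
    change _ = d2 α (v.2.choose + v'.2.choose)
    rw [XTR.d2_add, ← h1.2.1, ← h2.2.1]
    rfl)

variable {α} in
theorem f_eq (hrec : ∀ z ∈ BKND.Z2 α, ∑ w, inv w (pb2 (r w) z) = 0)
    (v : Y r α) {ε : G → G → A} (hε : Loc2 ε) (h : v.1.1 = d2 α ε) :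
    f r inv hrec v = F r inv ε v.1.2 := by
  have h1 := v.2.choose_spec
  exact F_wd r inv hrec h1.1 hε (by rw [← h1.2.1, h]) _

variable {α} in
/-- the trace -/
theorem exists_tr (hrec : ∀ z ∈ BKND.Z2 α, ∑ w, inv w (pb2 (r w) z) = 0) :
    ∃ tr : ((G → G → G → A) × (∀ w, D w → D w → A)) →+ QZ p,
      ∀ ε : G → G → A, Loc2 ε → ∀ β : ∀ w, D w → D w → A,
        (∀ w, β w - pb2 (r w) ε ∈ BKND.Z2 (α.comp (r w))) →
          tr (d2 α ε, β) = ∑ w, inv w (β w - pb2 (r w) ε) := by
  obtain ⟨tr, h0⟩ := stExt p _ (Y r α) (f r inv hrec)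
  refine ⟨tr, fun ε hε β hβ => ?_⟩
  have hm : (d2 α ε, β) ∈ Y r α := ⟨ε, hε, rfl, hβ⟩
  exact (h0 ⟨_, hm⟩).trans (f_eq r inv hrec ⟨_, hm⟩ hε rfl)

end Trace

/-! ### The family of places -/

section Fam

variable {p : ℕ} [Fact p.Prime] {ι κ : Type} {G : Type} [Group G] {D : ι → Type} {E : κ → Type}
  [∀ i, Group (D i)] [∀ k, Group (E k)]

/-- the local invariants -/
def iv (inv : ∀ i, (D i → D i → QZ p) →+ QZ p) (invN : ∀ k, (E k → E k → QZ p) →+ QZ p) :
    ∀ w : (ι × Bool) ⊕ κ, (SD D E w → SD D E w → QZ p) →+ QZ p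
  | Sum.inl (i, false) => inv i
  | Sum.inl (i, true) => - inv i
  | Sum.inr k => invN k

/-- the maps between the local groups -/
def tt (τ : ∀ k, E k →* E k) : ∀ w : (ι × Bool) ⊕ κ, SD D E w →* SD D E (sg w)
  | Sum.inl (i, _) => MonoidHom.id (D i)
  | Sum.inr k => τ k

/-- the elements of `G` -/
def hh (h : κ → G) : (ι × Bool) ⊕ κ → G
  | Sum.inl _ => 1
  | Sum.inr k => h k

end Fam

end NFGAMN

open NFGAMN in
/-- Module GAMN. -/
theorem stGamN : StGamN := by
  intro p _ hp ι κ _ _ G _ _ _ _ D E _ _ _ _ r q c χ inv invN δ U hS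
  have ec : χ.comp c = χ := MonoidHom.ext hS.χ_c
  have hact : ∀ g, actA χ (c g) = actA χ g := fun g => congrArg (fun f : G →* ℤ_[p]ˣ => actA f g) ec
  have e2 : ∀ i b, (actA χ).comp (rS r q c (Sum.inl (i, b))) = actA (χ.comp (r i)) := by
    intro i b
    cases b
    · rfl
    · ext1 d
      exact hact (r i d)
  have hcont : ∀ w, Continuous (rS r q c w) := by
    rintro (⟨i, b⟩ | k)
    · cases b
      · exact hS.cont_r i
      · exact hS.cont_c.comp (hS.cont_r i)
    · exact hS.cont_q k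
  have hie : ∀ w, ∀ z ∈ BKND.Z2 ((actA χ).comp (rS r q c w)),
      iv inv invN w z = 0 ↔ z ∈ BKND.B2 ((actA χ).comp (rS r q c w)) := by
    rintro (⟨i, b⟩ | k) z hz
    · rw [e2] at hz ⊢
      cases b
      · exact (hS.loc i).inv_eq z hz
      · refine Iff.trans ?_ ((hS.loc i).inv_eq z hz)
        change - inv i z = 0 ↔ inv i z = 0
        exact neg_eq_zero
    · exact (hS.locN k).inv_eq z hz
  have hrec : ∀ z ∈ BKND.Z2 (actA χ), ∑ w, iv inv invN w (pb2 (rS r q c w) z) = 0 := by
    intro z hz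
    rw [← hS.recip z hz, Fintype.sum_sum_type, Fintype.sum_prod_type]
    congr 1
    refine Finset.sum_congr rfl fun i _ => ?_
    rw [Fintype.sum_bool]
    change - inv i (pb2 (c.comp (r i)) z) + inv i (pb2 (r i) z) = _
    abel
  obtain ⟨tr, htr⟩ := exists_tr (rS r q c) (iv inv invN) hrec
  choose τ s h hτ h1 h2 h3 using hS.conj
  let Γ : Glo ((ι × Bool) ⊕ κ) G (SD D E) (QZ p) (QZ p) :=
    Glo.mk (rS r q c) hcont (actA χ) (BKMet.FGAM.psm χ hS.cont_χ) (iv inv invN) hie tr htr
  have hχτ : ∀ k d, χ (q k (τ k d)) = χ (q k d) := by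
    intro k d
    have e := congrArg χ (h1 k d)
    rw [hS.χ_c, map_mul, map_mul, map_inv, mul_comm (χ (h k)), mul_assoc, mul_inv_cancel,
      mul_one] at e
    exact e.symm
  refine ⟨Γ, tt τ, hh h, fun w => rfl, ?_, ?_⟩
  · refine ⟨hS.cont_c, hS.inv_c, hact, ?_, ?_, ?_, ?_, ?_, ?_⟩
    · intro g g' a
      change actA χ g (actA χ g' a) = actA χ g' (actA χ g a)
      rw [actA_apply, actA_apply, actA_apply, actA_apply, smul_smul, smul_smul, mul_comm]
    · rintro (⟨i, b⟩ | k)
      · change (Sum.inl (i, !!b) : (ι × Bool) ⊕ κ) = Sum.inl (i, b)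
        rw [Bool.not_not]
      · rfl
    · rintro (⟨i, b⟩ | k)
      · cases b
        · exact continuous_id
        · exact continuous_id
      · exact hτ k
    · rintro (⟨i, b⟩ | k) d
      · cases b
        · change c (r i d) = 1 * c (r i d) * 1⁻¹
          group
        · change c (c (r i d)) = 1 * r i d * 1⁻¹
          rw [hS.inv_c]
          group
      · exact h1 k d
    · rintro (⟨i, b⟩ | k)
      · refine ⟨1, ?_⟩
        rw [map_one]
        change c 1 * 1 = 1⁻¹
        rw [map_one]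
        group
      · exact ⟨s k, h2 k⟩
    · rintro (⟨i, b⟩ | k) z hz
      · have e1 : ∀ x : QZ p, actA χ (1 : G) x = x := fun x => by
          rw [map_one]
          rfl
        cases b
        · change inv i (fun d d' => actA χ (1 : G) (z d d')) = - - inv i z
          rw [neg_neg]
          congr 1
          funext d d'
          exact e1 _
        · change - inv i (fun d d' => actA χ (1 : G) (z d d')) = - inv i z
          congr 2
          funext d d'
          exact e1 _
      · exact h3 k z hz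
  · refine ⟨⟨rfl, ?_, ?_⟩, hS.cont_χ, hS.normal, hS.open', hS.fix, hS.glob⟩
    · rintro (⟨i, b⟩ | k)
      · cases b
        · exact hS.loc i
        · change LocG p (χ.comp (c.comp (r i))) (- inv i) (δ i)
          rw [← MonoidHom.comp_assoc, ec]
          exact FGAMT.locG_congr (hS.loc i) fun z _ => by
            rw [AddMonoidHom.neg_apply]
            exact neg_eq_zero
      · exact hS.locN k
    · rw [Fintype.sum_sum_type, Fintype.sum_prod_type]
      change ∑ i, ∑ b : Bool, δ i + ∑ k : κ, 0 = 2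
      simp only [Fintype.sum_bool, Finset.sum_const_zero, add_zero]
      rw [Finset.sum_add_distrib, hS.sum]

end BKT
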