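import Pool.Agent.Lib.MP_7c08ba_nt.T1.StU
import Pool.Agent.Lib.MP_7c08ba_nt.Met.XSD
import Pool.Agent.Lib.MP_7c08ba_nt.Met.LMK

set_option autoImplicit false

/-!
Parity for general residual representations and arbitrary ramification at the primes which do not
split, part NF, module H0N: the elements which are fixed modulo the Lagrangian submodules.
-/

noncomputable section

namespace BKT

open NumberField BKGen
open BKPar (Loc1 Loc2)
open BKND (Sm)
open BKMet
open Matrix

namespace NFH0N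

section Vec

variable {p : ℕ} [Fact p.Prime] {L : Type} [NormedField L] [NormedAlgebra ℚ_[p] L] {n : ℕ}

theorem mem_latS {P : Submodule (OO p L) (Fin n → OO p L)} {v : Fin n → L} :
    v ∈ latS p (1 : GL (Fin n) L) P ↔ ∃ x ∈ P, inL p L n x = v := by
  unfold latS
  rw [AddSubgroup.mem_comap]
  change ((1 : GL (Fin n) L) : Matrix (Fin n) (Fin n) L) *ᵥ v ∈ _ ↔ _
  rw [Units.val_one, Matrix.one_mulVec, AddSubgroup.mem_map]
  rfl

theorem inL_apply (x : Fin n → OO p L) (i : Fin n) : inL p L n x i = (x i : L) := rfl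

theorem inL_inj : Function.Injective (inL p L n) := by
  intro x y h
  funext i
  exact Subtype.ext (congrFun h i)

theorem inL_smul (a : OO p L) (x : Fin n → OO p L) :
    inL p L n (a • x) = (a : L) • inL p L n x := by
  funext i
  rfl

theorem inL_mulVec (A : GL (Fin n) (OO p L)) (x : Fin n → OO p L) :
    inL p L n ((A : Matrix (Fin n) (Fin n) (OO p L)) *ᵥ x) =
      (toL p L n A : Matrix (Fin n) (Fin n) L) *ᵥ inL p L n x := by
  funext i
  exact RingHom.map_mulVec (OO p L).subtype (A : Matrix (Fin n) (Fin n) (OO p L)) x i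

/-- multiplication by a scalar -/
def sm (n : ℕ) (a : L) : (Fin n → L) →+ (Fin n → L) where
  toFun v := a • v
  map_zero' := smul_zero a
  map_add' := smul_add a

theorem sm_inj {a : L} (ha : a ≠ 0) : Function.Injective (sm n a) := by
  intro v w h
  exact smul_right_injective _ ha h

end Vec

section Key

variable {p : ℕ} [Fact p.Prime] {L : Type} [NormedField L] [NormedAlgebra ℚ_[p] L]
  [FiniteDimensional ℚ_[p] L] {n : ℕ} {G : Type} [Group G] [TopologicalSpace G] {D : Type}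
  [Group D] {A : Type} [AddCommGroup A] {α : G →* AddMonoid.End A}

theorem key (r : D →* G) (ρ : G →* GL (Fin n) (OO p L)) (k m : ℕ)
    (X : Pair (OO p L) α (MK p L n k) (MK p L n k))
    (hX : ∀ g v, X.ρ g (rv p L k v) =
      rv p L k ((ρ g : Matrix (Fin n) (Fin n) (OO p L)) *ᵥ v))
    (P : Submodule (OO p L) (Fin n → OO p L))
    (hk : ∀ x : Fin n → OO p L, pi0 p L ^ k • x ∈
      P.map (LinearMap.lsmul (OO p L) (Fin n → OO p L) (pi0 p L ^ m)))
    (hm : ∀ w ∈ fixL (((toL p L n).comp ρ).comp r) (latS p 1 P),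
      ((pi0 p L : OO p L) : L) ^ m • w ∈ latS p (1 : GL (Fin n) L) ⊤) :
    ((P.map (LinearMap.lsmul (OO p L) (Fin n → OO p L) (pi0 p L ^ m))).map
      (rv p L k)).toAddSubgroup.relIndex
      (fxp X r ((P.map (LinearMap.lsmul (OO p L) (Fin n → OO p L) (pi0 p L ^ m))).map
        (rv p L k))).toAddSubgroup =
    (latS p 1 P).relIndex (fixL (((toL p L n).comp ρ).comp r) (latS p 1 P)) := by
  set Q := P.map (LinearMap.lsmul (OO p L) (Fin n → OO p L) (pi0 p L ^ m)) with hQ
  have hpi : ((pi0 p L : OO p L) : L) ^ m ≠ 0 := pow_ne_zero m (pi0_ne p L)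
  have hmemQ : ∀ x, x ∈ Q ↔ ∃ y ∈ P, pi0 p L ^ m • y = x := by
    intro x
    rw [hQ, Submodule.mem_map]
    rfl
  have hcoe : ((pi0 p L ^ m : OO p L) : L) = ((pi0 p L : OO p L) : L) ^ m := by
    rw [SubmonoidClass.coe_pow]
  -- membership modulo `π^k`
  have hrv : ∀ x, rv p L k x ∈ Q.map (rv p L k) ↔ x ∈ Q := by
    intro x
    constructor
    · rintro ⟨y, hy, e⟩
      have h1 : rv p L k (x - y) = 0 := by rw [map_sub, e, sub_self]
      have h2 : ∀ i, ∃ b : OO p L, (x - y) i = pi0 p L ^ k * b := by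
        intro i
        have h3 : Ideal.Quotient.mk (Ideal.span {pi0 p L ^ k} : Ideal (OO p L)) ((x - y) i) = 0 :=
          congrFun h1 i
        rw [Ideal.Quotient.eq_zero_iff_mem, Ideal.mem_span_singleton] at h3
        exact h3
      choose b hb using h2
      have h3 : x - y = pi0 p L ^ k • b := by
        funext i
        exact hb i
      have h4 : x = (x - y) + y := by rw [sub_add_cancel]
      rw [h4, h3]
      exact Q.add_mem (hk b) hy
    · intro hx
      exact ⟨x, hx, rfl⟩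
  -- the subgroup of `𝒪^n`
  have hsurj : Function.Surjective (rv p L k : (Fin n → OO p L) →ₗ[OO p L] MK p L n k) :=
    fun y => LMK.rv_surj k y
  set B : AddSubgroup (Fin n → OO p L) :=
    (fxp X r (Q.map (rv p L k))).toAddSubgroup.comap (rv p L k).toAddMonoidHom with hB
  have hmemB : ∀ x, x ∈ B ↔ ∀ d, (ρ (r d) : Matrix (Fin n) (Fin n) (OO p L)) *ᵥ x - x ∈ Q := by
    intro x
    change (∀ d, X.ρ (r d) (rv p L k x) - rv p L k x ∈ Q.map (rv p L k)) ↔ _
    refine forall_congr' fun d => ?_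
    rw [hX, ← map_sub, hrv]
  have h1 : (Q.map (rv p L k)).toAddSubgroup.relIndex
      (fxp X r (Q.map (rv p L k))).toAddSubgroup = Q.toAddSubgroup.relIndex B := by
    have e1 : (fxp X r (Q.map (rv p L k))).toAddSubgroup = B.map (rv p L k).toAddMonoidHom := by
      rw [hB, AddSubgroup.map_comap_eq_self_of_surjective]
      exact hsurj
    have e2 : Q.toAddSubgroup = (Q.map (rv p L k)).toAddSubgroup.comap
        (rv p L k).toAddMonoidHom := by
      ext x
      exact (hrv x).symm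
    rw [e1, ← AddSubgroup.relIndex_comap, ← e2]
  have h2 : Q.toAddSubgroup.map (inL p L n) =
      (latS p 1 P).map (sm n (((pi0 p L : OO p L) : L) ^ m)) := by
    ext v
    rw [AddSubgroup.mem_map, AddSubgroup.mem_map]
    constructor
    · rintro ⟨x, hx, rfl⟩
      obtain ⟨y, hy, rfl⟩ := (hmemQ x).1 hx
      refine ⟨inL p L n y, mem_latS.2 ⟨y, hy, rfl⟩, ?_⟩
      rw [inL_smul, hcoe]
      rfl
    · rintro ⟨w, hw, rfl⟩
      obtain ⟨y, hy, rfl⟩ := mem_latS.1 hw
      refine ⟨pi0 p L ^ m • y, (hmemQ _).2 ⟨y, hy, rfl⟩, ?_⟩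
      rw [inL_smul, hcoe]
      rfl
  have h3 : B.map (inL p L n) = (fixL (((toL p L n).comp ρ).comp r) (latS p 1 P)).map
      (sm n (((pi0 p L : OO p L) : L) ^ m)) := by
    ext v
    rw [AddSubgroup.mem_map, AddSubgroup.mem_map]
    constructor
    · rintro ⟨x, hx, rfl⟩
      refine ⟨(((pi0 p L : OO p L) : L) ^ m)⁻¹ • inL p L n x, ?_, ?_⟩
      · intro d
        obtain ⟨y, hy, e⟩ := (hmemQ _).1 ((hmemB x).1 hx d)
        refine mem_latS.2 ⟨y, hy, ?_⟩
        have e2 := congrArg (inL p L n) e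
        rw [inL_smul, hcoe, map_sub, inL_mulVec] at e2
        change _ = (toL p L n (ρ (r d)) : Matrix (Fin n) (Fin n) L) *ᵥ _ - _
        rw [Matrix.mulVec_smul, ← smul_sub, ← e2, smul_smul, inv_mul_cancel₀ hpi, one_smul]
      · change ((pi0 p L : OO p L) : L) ^ m • (((pi0 p L : OO p L) : L) ^ m)⁻¹ • inL p L n x = _
        rw [smul_smul, mul_inv_cancel₀ hpi, one_smul]
    · rintro ⟨w, hw, rfl⟩
      obtain ⟨x, -, hx⟩ := mem_latS.1 (hm w hw)
      refine ⟨x, (hmemB x).2 fun d => ?_, hx⟩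
      obtain ⟨y, hy, e⟩ := mem_latS.1 (hw d)
      refine (hmemQ _).2 ⟨y, hy, inL_inj ?_⟩
      rw [inL_smul, hcoe, map_sub, inL_mulVec, hx, e, Matrix.mulVec_smul, ← smul_sub]
      rfl
  rw [h1, ← AddSubgroup.relIndex_map_map_of_injective _ _ inL_inj, h2, h3,
    AddSubgroup.relIndex_map_map_of_injective _ _ (sm_inj hpi)]

end Key

end NFH0N

open NFH0N in
theorem stH0n (h : StFxl) : StH0n := by
  intro p _ L _ _ _ G _ _ D _ r n ρ hV N hN A _ α X hX
  -- the exponent of the fixed elements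
  obtain ⟨-, m₀, hm₀⟩ := h p L D n (((toL p L n).comp ρ).comp r) hV 1 ⊤
    (fun x => Submodule.mem_top) (fun d v hv => by
      obtain ⟨x, -, rfl⟩ := mem_latS.1 hv
      exact mem_latS.2 ⟨(ρ (r d) : Matrix (Fin n) (Fin n) (OO p L)) *ᵥ x, Submodule.mem_top,
        inL_mulVec _ _⟩)
  have hsm : ∀ (a : OO p L) (v : Fin n → L), v ∈ latS p (1 : GL (Fin n) L) ⊤ →
      (a : L) • v ∈ latS p (1 : GL (Fin n) L) (⊤ : Submodule (OO p L) (Fin n → OO p L)) := by
    intro a v hv
    obtain ⟨x, -, rfl⟩ := mem_latS.1 hv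
    exact mem_latS.2 ⟨a • x, Submodule.mem_top, inL_smul _ _⟩
  have hm : ∀ (P : Submodule (OO p L) (Fin n → OO p L)) (m : ℕ), m₀ ≤ m →
      ∀ w ∈ fixL (((toL p L n).comp ρ).comp r) (latS p 1 P),
        ((pi0 p L : OO p L) : L) ^ m • w ∈ latS p (1 : GL (Fin n) L) ⊤ := by
    intro P m hm w hw
    have h1 : w ∈ fixL (((toL p L n).comp ρ).comp r) (latS p 1 ⊤) := by
      intro d
      obtain ⟨x, -, e⟩ := mem_latS.1 (hw d)
      exact mem_latS.2 ⟨x, Submodule.mem_top, e⟩
    have h2 := hsm (pi0 p L ^ (m - m₀)) _ (hm₀ w h1)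
    rw [SubmonoidClass.coe_pow, smul_smul, ← pow_add, Nat.sub_add_cancel hm] at h2
    exact h2
  -- the modules at level `k`
  have hkey0 : ∀ m, m₀ ≤ m → ((NNk N (2 * m)).map (rv p L (2 * m))).toAddSubgroup.relIndex
      (fxp (X (2 * m)) r ((NNk N (2 * m)).map (rv p L (2 * m)))).toAddSubgroup =
      (latS p 1 ⊤).relIndex (fixL (((toL p L n).comp ρ).comp r) (latS p 1 ⊤)) := by
    intro m hmm
    have e1 : NNk N (2 * m) = (⊤ : Submodule (OO p L) (Fin n → OO p L)).map
        (LinearMap.lsmul (OO p L) (Fin n → OO p L) (pi0 p L ^ m)) := by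
      unfold NNk
      rw [if_pos (Nat.mul_mod_right 2 m), Nat.mul_div_cancel_left m two_pos]
    rw [e1]
    refine key r ρ (2 * m) m (X (2 * m)) (hX (2 * m)) ⊤ (fun x => ?_) (hm ⊤ m hmm)
    refine ⟨pi0 p L ^ m • x, Submodule.mem_top, ?_⟩
    change pi0 p L ^ m • pi0 p L ^ m • x = _
    rw [smul_smul, ← pow_add, two_mul]
  have hkey1 : ∀ m, m₀ ≤ m →
      ((NNk N (2 * m + 1)).map (rv p L (2 * m + 1))).toAddSubgroup.relIndex
      (fxp (X (2 * m + 1)) r ((NNk N (2 * m + 1)).map (rv p L (2 * m + 1)))).toAddSubgroup =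
      (latS p 1 N).relIndex (fixL (((toL p L n).comp ρ).comp r) (latS p 1 N)) := by
    intro m hmm
    have e1 : NNk N (2 * m + 1) = N.map
        (LinearMap.lsmul (OO p L) (Fin n → OO p L) (pi0 p L ^ m)) := by
      unfold NNk
      have e2 : (2 * m + 1) % 2 ≠ 0 := by omega
      have e3 : (2 * m + 1) / 2 = m := by omega
      rw [if_neg e2, e3]
    rw [e1]
    refine key r ρ (2 * m + 1) m (X (2 * m + 1)) (hX (2 * m + 1)) N (fun x => ?_) (hm N m hmm)
    refine ⟨pi0 p L • pi0 p L ^ m • x, hN _, ?_⟩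
    change pi0 p L ^ m • pi0 p L • pi0 p L ^ m • x = _
    rw [smul_smul, smul_smul]
    congr 1
    ring
  have hfin : ∀ k, ∃ e : ℕ, ((NNk N k).map (rv p L k)).toAddSubgroup.relIndex
      (fxp (X k) r ((NNk N k).map (rv p L k))).toAddSubgroup = Nat.card (kk p L) ^ e := by
    intro k
    refine XSD.relIndex_pow (OO p L) _ _ ?_
    have : Finite (MK p L n k) := inferInstance
    exact AddSubgroup.index_ne_zero_of_finite
  obtain ⟨e, he⟩ := hfin (2 * m₀)
  obtain ⟨e', he'⟩ := hfin (2 * m₀ + 1)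
  refine ⟨e, e', 2 * m₀, ?_, ?_, ?_⟩
  · rw [← hkey0 m₀ le_rfl, he]
  · rw [← hkey1 m₀ le_rfl, he']
  · intro k hk
    rcases Nat.even_or_odd' k with ⟨m, rfl | rfl⟩
    · rw [if_pos (Nat.mul_mod_right 2 m), hkey0 m (by omega), ← hkey0 m₀ le_rfl, he]
    · rw [if_neg (by omega), hkey1 m (by omega), ← hkey1 m₀ le_rfl, he']

end BKT
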