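import Pool.Agent.Lib.MP_7c08ba_nt.T1.StNF
import Pool.Agent.Lib.MP_7c08ba_nt.Met.LLAGR

set_option autoImplicit false

/-!
Parity for general residual representations and arbitrary ramification at the nonsplit primes,
module LAGN: the Lagrangian submodules at all levels.
-/

noncomputable section

namespace BKT

open NumberField BKGen
open BKPar (Loc1 Loc2)
open BKND (Sm)
open BKMet
open Matrix

namespace NFLAGN

variable {p : ℕ} [Fact p.Prime] {L : Type} [NormedField L] [NormedAlgebra ℚ_[p] L]
  [FiniteDimensional ℚ_[p] L]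

theorem nnk_eq {n : ℕ} (N : Submodule (OO p L) (Fin n → OO p L)) (k : ℕ) :
    (NNk N k).map (rv p L k) = LLAGR.Lg k (k / 2) (if k % 2 = 0 then ⊤ else N) := by
  unfold NNk LLAGR.Lg
  rw [← Submodule.map_comp]

end NFLAGN

open NFLAGN

theorem stLagn : StLagn := by
  intro p _ L _ _ _ G _ _ χ n ρ ρ' B hBt hB lam hlam N h1 h2 h3 k X hX
  constructor
  · intro u v
    obtain ⟨x, rfl⟩ := LLAGR.rv_surj u
    obtain ⟨y, rfl⟩ := LLAGR.rv_surj v
    rw [hX.pair, hX.pair, LLAGR.sym hBt]
  · rw [nnk_eq]
    by_cases hk : k % 2 = 0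
    · rw [if_pos hk]
      exact LLAGR.key hB hlam hX 0 (k / 2) (by omega) ⊤ (fun _ => trivial)
        (fun _ _ _ => trivial)
        (fun y => ⟨fun _ x _ => by rw [pow_zero]; exact one_dvd _, fun _ => trivial⟩)
    · rw [if_neg hk]
      refine LLAGR.key hB hlam hX 1 (k / 2) (by omega) N ?_ h2 ?_
      · intro x
        rw [pow_one]
        exact h1 x
      · intro y
        rw [pow_one]
        exact h3 y

end BKT
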