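import Pool.Agent.Lib.MP_7c08ba_nt.T1.StNF
import Pool.Agent.Lib.MP_7c08ba_nt.T1.FLVT
import Pool.Agent.Lib.MP_7c08ba_nt.Met.LLIMA
import Pool.Agent.Lib.MP_7c08ba_nt.Met.LLIMD

set_option autoImplicit false

/-!
Parity for general residual representations and arbitrary ramification, module LFT: cocycles modulo
`π^k` of a representation without cohomology are almost coboundaries.

The cocycles with values in `𝒪^n` form a lattice with basis `y i`; for every cocycle `z` modulo
`π^k` the multiple `π^K z` is congruent modulo `π^k` to a combination of the `y i`, with `K`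
independent of `k`; and the `y i` are coboundaries over `L`.
-/

noncomputable section

namespace BKT

open BKPar (Loc1 Loc2)
open BKND (Sm)
open BKMet
open Matrix

open LLIMD in
/-- **Module LFT**. -/
theorem stLft : StLft := by
  intro p _ L _ _ _ D _ _ _ _ _ χ _ inv δ hax n ρ ρ' _ _ B _ _ lam _ X hX _ hZB
  have hact : ∀ k g v, (X k).ρ g (rv p L k v) =
      rv p L k ((ρ g : Matrix (Fin n) (Fin n) (OO p L)) *ᵥ v) := fun k => (hX k).act
  have hMK : ∀ k, Finite (MK p L n k) := fun k => Pi.finite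
  have hfin : ∀ k, Finite (BKND.Z1 (X k).ρ) := fun k => (FLVT.count1 hax (X k)).1
  obtain ⟨d, y, K, hy1, hy2, -, hy4, -⟩ := lattice ρ (fun k => (X k).ρ) hact stLimA hfin
  have hy' : ∀ i, (fun g => co (y i g)) ∈ BKOdd.Z1 ((toL p L n).comp ρ) := by
    intro i
    refine ⟨continuous_co.comp (hy1 i), fun g h => ?_⟩
    change co (y i (g * h)) = co (y i g) + _ *ᵥ co (y i h)
    rw [hy2, co_add, co_mulVec]
    rfl
  have hw' : ∀ i, ∃ w : Fin n → L, ∀ g, co (y i g) =
      (toL p L n (ρ g) : Matrix (Fin n) (Fin n) L) *ᵥ w - w := by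
    intro i
    obtain ⟨w, hw⟩ := hZB (hy' i)
    exact ⟨w, fun g => (congrFun hw g).symm⟩
  choose w hw using hw'
  refine ⟨K, fun k hk f hf => ?_⟩
  have hz' : ∀ g, ∃ v : Fin n → OO p L, rv p L k v = f g := fun g => rv_surjective k (f g)
  choose z hz using hz'
  have hzf : (fun g => rv p L k (z g)) = f := funext hz
  obtain ⟨a, ha⟩ := hy4 k z (by rw [hzf]; exact hf)
  have hu' : ∀ g, ∃ u : Fin n → OO p L, pi0 p L ^ k • u =
      pi0 p L ^ K • z g - ∑ i, a i • y i g := fun g => (rv_eq_iff k _ _).1 (ha g)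
  choose u hu using hu'
  have h0 : ((pi0 p L : OO p L) : L) ^ K ≠ 0 := pow_ne_zero _ (pi0_ne p L)
  refine ⟨(((pi0 p L : OO p L) : L) ^ K)⁻¹ • ∑ i, (a i : L) • w i, fun g => ?_⟩
  refine ⟨z g - pi0 p L ^ (k - K) • u g, u g, ?_, ?_⟩
  · have h1 : (toL p L n (ρ g) : Matrix (Fin n) (Fin n) L) *ᵥ
        ((((pi0 p L : OO p L) : L) ^ K)⁻¹ • ∑ i, (a i : L) • w i) -
        (((pi0 p L : OO p L) : L) ^ K)⁻¹ • ∑ i, (a i : L) • w i =
        (((pi0 p L : OO p L) : L) ^ K)⁻¹ • ∑ i, (a i : L) • co (y i g) := by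
      rw [Matrix.mulVec_smul, ← smul_sub, Matrix.mulVec_sum, ← Finset.sum_sub_distrib]
      congr 1
      refine Finset.sum_congr rfl fun i _ => ?_
      rw [Matrix.mulVec_smul, ← smul_sub, hw i g]
    have h2 : ∑ i, (a i : L) • co (y i g) = co (∑ i, a i • y i g) := by
      rw [co_sum]
      rfl
    have h3 : ∑ i, a i • y i g = pi0 p L ^ K • (z g - pi0 p L ^ (k - K) • u g) := by
      rw [smul_sub, smul_smul, ← pow_add, Nat.add_sub_cancel' hk, hu g]
      abel
    have h4 : co (∑ i, a i • y i g) = ((pi0 p L : OO p L) : L) ^ K •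
        co (z g - pi0 p L ^ (k - K) • u g) := by
      rw [h3, co_smul, Subring.coe_pow]
    rw [h1, h2, h4, smul_smul, inv_mul_cancel₀ h0, one_smul]
    rfl
  · rw [map_sub, hz g, sub_sub_cancel, map_smul]

end BKT
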