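import Pool.Agent.Lib.MP_7c08ba_nt.T1.StNF
import Pool.Agent.Lib.MP_7c08ba_nt.Met.HPN
import Pool.Agent.Lib.MP_7c08ba_nt.Met.NNSD

set_option autoImplicit false

/-!
Module LNJ: the index of `P` in the invariants modulo `P` does not depend on the choice of the place
above a prime which does not split.
-/

noncomputable section

namespace BKT

open NumberField BKGen
open BKMet
open Matrix

namespace NFLNJ

variable {F : Type} [Field F] [NumberField F] {l : ℕ} [Fact l.Prime]

/-- an automorphism which moves the image of `F` -/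
theorem exists_move (hs : ¬ Splits F l) (f : F →+* PadicAlgCl l) :
    ∃ t : GQ l, (t : PadicAlgCl l →+* PadicAlgCl l).comp f ≠ f := by
  by_contra hcon
  push Not at hcon
  have hfix : ∀ a : F, ∃ b : ℚ_[l], algebraMap ℚ_[l] (PadicAlgCl l) b = f a := by
    intro a
    have h1 : ∀ t : PadicAlgCl l ≃ₐ[ℚ_[l]] PadicAlgCl l, t (f a) = f a := fun t =>
      RingHom.congr_fun (hcon t) a
    have h2 := (InfiniteGalois.mem_bot_iff_fixed (k := ℚ_[l]) (K := PadicAlgCl l) (f a)).2 h1
    exact IntermediateField.mem_bot.1 h2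
  choose φ hφ using hfix
  have hinj := (algebraMap ℚ_[l] (PadicAlgCl l)).injective
  apply hs
  refine ⟨inferInstance, ⟨{
    toFun := φ
    map_one' := hinj (by rw [hφ, map_one, map_one])
    map_mul' := fun a b => hinj (by rw [hφ, map_mul, map_mul, hφ, hφ])
    map_zero' := hinj (by rw [hφ, map_zero, map_zero])
    map_add' := fun a b => hinj (by rw [hφ, map_add, map_add, hφ, hφ]) }⟩⟩

/-- the embeddings above a prime which does not split are conjugate -/
theorem exists_conj (hF : Module.finrank ℚ F = 2) (hs : ¬ Splits F l)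
    (j j' : AlgebraicClosure F →+* PadicAlgCl l) :
    ∃ (g : GF F) (t : GQ l), ∀ z, j' z = t (j (g z)) := by
  by_cases h : j.comp (algebraMap F (AlgebraicClosure F)) =
      j'.comp (algebraMap F (AlgebraicClosure F))
  · obtain ⟨g, hg⟩ := BKGlob2.PNAux.exists_gal j j' fun a => (RingHom.congr_fun h a).symm
    exact ⟨g, 1, hg⟩
  · obtain ⟨t, ht⟩ := exists_move hs (j.comp (algebraMap F (AlgebraicClosure F)))
    have h1 : (t : PadicAlgCl l →+* PadicAlgCl l).comp
        (j.comp (algebraMap F (AlgebraicClosure F))) =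
        j'.comp (algebraMap F (AlgebraicClosure F)) := by
      rcases BKMet.NNSD.emb2 hF _ _ ((t : PadicAlgCl l →+* PadicAlgCl l).comp
        (j.comp (algebraMap F (AlgebraicClosure F)))) h with h2 | h2
      · exact absurd h2 ht
      · exact h2
    obtain ⟨g, hg⟩ := BKGlob2.PNAux.exists_gal
      ((t : PadicAlgCl l →+* PadicAlgCl l).comp j) j' fun a => (RingHom.congr_fun h1 a).symm
    exact ⟨g, t, hg⟩

end NFLNJ

/-- Module LNJ: the index does not depend on the choice of the place above a prime which does not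
split. -/
theorem stLnj : StLnj := by
  intro F _ _ hF l _ hs L _ n V P hP j j'
  obtain ⟨g₀, t₀, h0⟩ := NFLNJ.exists_conj hF hs j j'
  let f : (Fin n → L) →+ (Fin n → L) := (V g₀ : Matrix (Fin n) (Fin n) L).mulVecLin.toAddMonoidHom
  have hf : ∀ v, f v = (V g₀ : Matrix (Fin n) (Fin n) L) *ᵥ v := fun v => rfl
  have hinv : ∀ (g : GF F) (v : Fin n → L), (V g⁻¹ : Matrix (Fin n) (Fin n) L) *ᵥ
      ((V g : Matrix (Fin n) (Fin n) L) *ᵥ v) = v := by
    intro g v
    rw [Matrix.mulVec_mulVec, ← Units.val_mul, ← map_mul, inv_mul_cancel, map_one, Units.val_one,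
      Matrix.one_mulVec]
  have hinv' : ∀ (g : GF F) (v : Fin n → L), (V g : Matrix (Fin n) (Fin n) L) *ᵥ
      ((V g⁻¹ : Matrix (Fin n) (Fin n) L) *ᵥ v) = v := by
    intro g v
    rw [Matrix.mulVec_mulVec, ← Units.val_mul, ← map_mul, mul_inv_cancel, map_one, Units.val_one,
      Matrix.one_mulVec]
  have hPi : ∀ (g : GF F) (v : Fin n → L), (V g : Matrix (Fin n) (Fin n) L) *ᵥ v ∈ P ↔ v ∈ P := by
    intro g v
    constructor
    · intro h
      have := hP g⁻¹ _ h
      rwa [hinv] at this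
    · exact hP g v
  have hsurj : Function.Surjective f := fun v =>
    ⟨(V g₀⁻¹ : Matrix (Fin n) (Fin n) L) *ᵥ v, hinv' g₀ v⟩
  have hP1 : P.comap f = P := by
    ext v
    exact hPi g₀ v
  have hfx : (fixJ V j P).comap f = fixJ V j' P := by
    ext v
    change (∀ (g : GF F) (t : GQ l), (∀ z, j (g z) = t (j z)) →
      (V g : Matrix (Fin n) (Fin n) L) *ᵥ f v - f v ∈ P) ↔
      ∀ (g : GF F) (t : GQ l), (∀ z, j' (g z) = t (j' z)) →
      (V g : Matrix (Fin n) (Fin n) L) *ᵥ v - v ∈ P
    constructor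
    · intro h g t hgt
      have h1 := h (g₀ * g * g₀⁻¹) (t₀⁻¹ * t * t₀) (fun z => by
        have h2 := hgt (g₀⁻¹ z)
        rw [h0, h0] at h2
        have h3 : t₀⁻¹ (t₀ (j (g₀ (g (g₀⁻¹ z))))) = t₀⁻¹ (t (t₀ (j (g₀ (g₀⁻¹ z))))) := by rw [h2]
        rw [← AlgEquiv.mul_apply t₀⁻¹ t₀, inv_mul_cancel, AlgEquiv.one_apply,
          ← AlgEquiv.mul_apply g₀ g₀⁻¹, mul_inv_cancel, AlgEquiv.one_apply] at h3
        exact h3)
      rw [map_mul, map_mul, Units.val_mul, Units.val_mul, hf, ← Matrix.mulVec_mulVec,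
        ← Matrix.mulVec_mulVec, hinv, ← Matrix.mulVec_sub] at h1
      exact (hPi g₀ _).1 h1
    · intro h g t hgt
      have h1 := h (g₀⁻¹ * g * g₀) (t₀ * t * t₀⁻¹) (fun z => by
        rw [h0, h0]
        have h2 := hgt (g₀ z)
        have h3 : g₀ ((g₀⁻¹ * g * g₀) z) = g (g₀ z) := by
          rw [← AlgEquiv.mul_apply, ← mul_assoc, ← mul_assoc, mul_inv_cancel, one_mul]
          rfl
        rw [h3, h2, ← AlgEquiv.mul_apply (t₀ * t * t₀⁻¹) t₀, inv_mul_cancel_right]
        rfl)
      have h4 : (V g : Matrix (Fin n) (Fin n) L) *ᵥ f v - f v =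
          (V g₀ : Matrix (Fin n) (Fin n) L) *ᵥ
            ((V (g₀⁻¹ * g * g₀) : Matrix (Fin n) (Fin n) L) *ᵥ v - v) := by
        rw [Matrix.mulVec_sub, Matrix.mulVec_mulVec, ← Units.val_mul, ← map_mul, ← mul_assoc,
          ← mul_assoc, mul_inv_cancel, one_mul, map_mul, Units.val_mul, ← Matrix.mulVec_mulVec]
        rfl
      rw [h4]
      exact hP g₀ _ h1
  have h5 := AddSubgroup.relIndex_comap P f ((fixJ V j P).comap f)
  rw [AddSubgroup.map_comap_eq_self_of_surjective hsurj, hP1, hfx] at h5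
  exact h5.symm

end BKT
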