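import Pool.Agent.Lib.MP_7c08ba_nt.T1.StNF
import Pool.Agent.Lib.MP_7c08ba_nt.Met.FLOCX

set_option autoImplicit false

/-!
Parity for general residual representations and arbitrary ramification, part NF, module LOCXN: the
local theorem at all places.
-/

noncomputable section

namespace BKT

open BKPar (Loc1 Loc2)
open BKND (Sm)
open BKMet
open Matrix

namespace NFLOCXN

/-- If the degree is zero, all cocycles are coboundaries. -/
theorem both {p : ℕ} [Fact p.Prime] {L : Type} [NormedField L] [NormedAlgebra ℚ_[p] L]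
    [FiniteDimensional ℚ_[p] L] {G D : Type} [Group G] [TopologicalSpace G]
    [IsTopologicalGroup G] [Group D] [TopologicalSpace D] [IsTopologicalGroup D] {n : ℕ}
    {V : G →* GL (Fin n) L} (hV : Continuous V) {c : G →* G} (hc : Continuous c)
    (B : GL (Fin n) L) {χ : D →* ℤ_[p]ˣ} {r : D →* G} (hr : Continuous r)
    (hN : NoInv (V.comp r)) (hN' : NoInv ((V.comp c).comp r))
    (h : LocV χ 0 (V.comp r) ((dualC V c B).comp r)) :
    BKOdd.Z1 (V.comp r) ≤ BKOdd.B1 (V.comp r) ∧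
      BKOdd.Z1 ((V.comp c).comp r) ≤ BKOdd.B1 ((V.comp c).comp r) := by
  have h4 := h.le
  have h5 := h.le'
  rw [add_zero, one_mul] at h4 h5
  exact ⟨FLOCX.Z1_le_B1 (hV.comp hr) hN h.fin h4,
    FLOCX.Z1_le_B1_comp B (FLOCX.Z1_le_B1 ((FLOCX.continuous_dualC hV hc B).comp hr)
      (FLOCX.noInv_dualC hN' B) h.fin' h5)⟩

end NFLOCXN

open NFLOCXN BKMet.FLOCX

/-- Module LOCXN. -/
theorem stLocXN (h : StLvT) : StLocXN := by
  intro p _ L _ _ _ ι κ _ _ G _ _ _ _ D E _ _ _ _ _ _ _ _ _ _ r q c χ inv invN δ U hs n V B hV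
    hB hD S ρ hρ hN hN' hM hM'
  have key : ∀ i, LocV (χ.comp (r i)) (δ i) (V.comp (r i)) ((dualC V c B).comp (r i)) := fun i =>
    h p L (D i) (χ.comp (r i)) (hs.cont_χ.comp (hs.cont_r i)) (inv i) (δ i) (hs.loc i) n
      (V.comp (r i)) ((dualC V c B).comp (r i)) (hV.comp (hs.cont_r i))
      ((continuous_dualC hV hs.cont_c B).comp (hs.cont_r i)) (isDual_loc hD (r i)) S
      (ρ.comp (r i)) (fun g => hρ (r i g)) (hN i) (noInv_dualC (hN' i) B)
  have keyN : ∀ k, LocV (χ.comp (q k)) 0 (V.comp (q k)) ((dualC V c B).comp (q k)) := fun k =>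
    h p L (E k) (χ.comp (q k)) (hs.cont_χ.comp (hs.cont_q k)) (invN k) 0 (hs.locN k) n
      (V.comp (q k)) ((dualC V c B).comp (q k)) (hV.comp (hs.cont_q k))
      ((continuous_dualC hV hs.cont_c B).comp (hs.cont_q k)) (isDual_loc hD (q k)) S
      (ρ.comp (q k)) (fun g => hρ (q k g)) (hM k) (noInv_dualC (hM' k) B)
  refine ⟨key, fun i hi => ?_, fun k => ?_⟩
  · have h3 := key i
    rw [hi] at h3
    exact both hV hs.cont_c B (hs.cont_r i) (hN i) (hN' i) h3
  · exact both hV hs.cont_c B (hs.cont_q k) (hM k) (hM' k) (keyN k)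

end BKT
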