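import Pool.Agent.Lib.MP_7c08ba_nt.T1.StF
import Pool.Agent.Lib.MP_7c08ba_nt.Met.FPARX

set_option autoImplicit false

/-!
Parity for general residual representations, part F, module PARXT: parity and the Euler
characteristic with coefficients in `L`.
-/

noncomputable section

namespace BKT

open BKPar (Loc1 Loc2)
open BKND (Sm)
open BKMet
open Matrix

namespace FPARXT

section Pow

variable {p : ℕ} [Fact p.Prime] {L : Type} [NormedField L] [NormedAlgebra ℚ_[p] L]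
  [FiniteDimensional ℚ_[p] L] {n : ℕ}

/-- `A` is the identity modulo `π^j` -/
def Cg (p : ℕ) [Fact p.Prime] {L : Type} [NormedField L] [NormedAlgebra ℚ_[p] L]
    [FiniteDimensional ℚ_[p] L] {n : ℕ} (j : ℕ) (A : Matrix (Fin n) (Fin n) (OO p L)) : Prop :=
  ∀ x : Fin n → OO p L, ∃ y : Fin n → OO p L, A *ᵥ x - x = pi0 p L ^ j • y

theorem cg_pow {A : Matrix (Fin n) (Fin n) (OO p L)} (hA : Cg p 1 A) (i : ℕ) :
    Cg p 1 (A ^ i) := by
  induction i with
  | zero =>
    intro x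
    refine ⟨0, ?_⟩
    rw [pow_zero, Matrix.one_mulVec, sub_self, smul_zero]
  | succ i ih =>
    intro x
    obtain ⟨y, hy⟩ := hA x
    obtain ⟨z, hz⟩ := ih x
    refine ⟨(A ^ i) *ᵥ y + z, ?_⟩
    rw [pow_succ, ← Matrix.mulVec_mulVec]
    have h1 : A *ᵥ x = x + pi0 p L ^ 1 • y := by
      rw [← hy]
      abel
    rw [h1, Matrix.mulVec_add, Matrix.mulVec_smul, smul_add, ← hz]
    abel

theorem cg_p {A : Matrix (Fin n) (Fin n) (OO p L)} (hA : Cg p 1 A) {j : ℕ} (hj : Cg p j A) :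
    Cg p (j + 1) (A ^ p) := by
  intro x
  obtain ⟨y, hy⟩ := hj x
  have h1 : A ^ p *ᵥ x - x = (∑ i ∈ Finset.range p, A ^ i) *ᵥ (A *ᵥ x - x) := by
    have h2 := congrArg (fun B : Matrix (Fin n) (Fin n) (OO p L) => B *ᵥ x)
      (geom_sum_mul A p)
    simp only [Matrix.sub_mulVec, Matrix.one_mulVec] at h2
    rw [← h2, ← Matrix.mulVec_mulVec, Matrix.sub_mulVec, Matrix.one_mulVec]
  have hz : ∀ i, ∃ z : Fin n → OO p L, A ^ i *ᵥ y - y = pi0 p L ^ 1 • z := fun i =>
    cg_pow hA i y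
  choose z hz using hz
  obtain ⟨a, ha⟩ : pi0 p L ∣ ((p : ℕ) : OO p L) := by
    rw [pi0_dvd, ← OO.mem_max]
    exact OO.p_mem_max
  refine ⟨a • y + ∑ i ∈ Finset.range p, z i, ?_⟩
  rw [h1, hy, Matrix.mulVec_smul]
  have h3 : (∑ i ∈ Finset.range p, A ^ i) *ᵥ y = pi0 p L • (a • y + ∑ i ∈ Finset.range p, z i) := by
    rw [Matrix.sum_mulVec]
    have h4 : ∀ i ∈ Finset.range p, A ^ i *ᵥ y = y + pi0 p L • z i := by
      intro i _
      have h5 := hz i
      rw [pow_one] at h5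
      rw [← h5]
      abel
    rw [Finset.sum_congr rfl h4, Finset.sum_add_distrib, Finset.sum_const, Finset.card_range,
      ← Finset.smul_sum, smul_add, smul_smul, ← ha, Nat.cast_smul_eq_nsmul]
  rw [h3, smul_smul, ← pow_succ]

theorem cg_pp {A : Matrix (Fin n) (Fin n) (OO p L)} (hA : Cg p 1 A) (m : ℕ) :
    Cg p (m + 1) (A ^ p ^ m) := by
  induction m with
  | zero => rwa [pow_zero, pow_one, zero_add]
  | succ m ih =>
    rw [pow_succ, pow_mul]
    exact cg_p (cg_pow hA _) ih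

/-- the elements of `U` act on `(𝒪/π^k)^n` through elements of `p`-power order -/
theorem pgr {G : Type} [Group G] {ρ : G →* GL (Fin n) (OO p L)} {U : Subgroup G}
    (hT : TrivR ρ U) (k : ℕ) (f : G →* AddMonoid.End (MK p L n k))
    (hf : ∀ g v, f g (rv p L k v) = rv p L k ((ρ g : Matrix (Fin n) (Fin n) (OO p L)) *ᵥ v)) :
    PGr p f U := by
  intro u hu
  refine ⟨k, ?_⟩
  rw [← map_pow]
  refine AddMonoidHom.ext fun m => ?_
  obtain ⟨v, rfl⟩ := LMK.rv_surj k m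
  change f (u ^ p ^ k) (rv p L k v) = rv p L k v
  rw [hf, map_pow, Units.val_pow_eq_pow_val]
  have h1 : Cg p 1 (ρ u : Matrix (Fin n) (Fin n) (OO p L)) := by
    intro x
    obtain ⟨y, hy⟩ := hT u hu x
    exact ⟨y, by rw [hy, pow_one]⟩
  obtain ⟨y, hy⟩ := cg_pp h1 k v
  have h2 : (ρ u : Matrix (Fin n) (Fin n) (OO p L)) ^ p ^ k *ᵥ v =
      v + pi0 p L ^ (k + 1) • y := by
    rw [← hy]
    abel
  rw [h2, map_add, map_smul]
  have h3 : pi0 p L ^ (k + 1) • rv p L k y = 0 := by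
    rw [← map_smul]
    funext i
    change Ideal.Quotient.mk _ (pi0 p L ^ (k + 1) * y i) = 0
    rw [Ideal.Quotient.eq_zero_iff_mem, Ideal.mem_span_singleton, pow_succ, mul_assoc]
    exact dvd_mul_right _ _
  rw [h3, add_zero]

end Pow

end FPARXT

open FPARXT in
/-- Module PARXT. -/
theorem stParXT (h1 : StYR) (h2 : StSDT) (h3 : StGamT) (h4 : BKMet.StLam) (h5 : StMk)
    (h6 : StLagr) (h7 : StLimG) : StParXT := by
  intro p _ hp L _ _ _ ι _ G _ _ _ _ _ D _ _ _ _ r c χ inv δ U hS n V B hV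
  obtain ⟨Γ, hr, hi, ht, hsy⟩ := h3 p hp ι G D r c χ inv δ U hS
  obtain ⟨S, ρ, B₀, N, hM, hTr⟩ := hV.metab
  have hρ := hM.int
  have hρc : Continuous ρ := by
    have e1 : Continuous fun g => S * V g * S⁻¹ := (continuous_const.mul hV.cont).mul
      continuous_const
    exact LLV.continuous_lift (W := (MulAut.conj S).toMonoidHom.comp V) e1 hρ
  obtain ⟨ρ', hρ'⟩ : ∃ ρ' : G →* GL (Fin n) (OO p L), ρ' = ρ.comp c := ⟨_, rfl⟩
  have hρc' : Continuous ρ' := by
    rw [hρ']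
    exact hρc.comp hS.cont_c
  have hdual : IsDual χ ((toL p L n).comp ρ) ((toL p L n).comp ρ') (B₀.map (OO p L).subtype) := by
    rw [hρ']
    exact LLATT.dual_conj hV.dual hρ hM.form
  obtain ⟨lam, hlam⟩ := h4 p L
  have hmk := fun k => h5 p L G χ n ρ ρ' hρc hρc' B₀ hM.det hdual lam hlam k
  have hcard : ∀ k, Nat.card (MK p L n k) = Nat.card (kk p L) ^ (n * k) := fun k => (hmk k).1
  choose X hX using fun k => (hmk k).2
  -- the action of `U`
  have hPG : ∀ k, PGr p (X k).ρ U := fun k => pgr hTr k (X k).ρ (hX k).act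
  -- the index
  have hq : 2 ≤ Nat.card (kk p L) := by
    have h0 : Finite (kk p L) := instFiniteRes p L
    exact Finite.one_lt_card
  have hr' : Γ.r = rr r c := funext hr
  have hindex : ∀ k, ((⊥ : Submodule (OO p L) (MK p L n k)).toAddSubgroup.relIndex
      (⊤ : Submodule (OO p L) (MK p L n k)).toAddSubgroup) = Nat.card (kk p L) ^ (n * k) := by
    intro k
    rw [← hcard k]
    change (⊥ : AddSubgroup (MK p L n k)).relIndex (⊤ : AddSubgroup (MK p L n k)) = _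
    rw [AddSubgroup.relIndex_top_right, AddSubgroup.index_bot]
  -- the Euler characteristic at level `k`
  have hind : ∀ (k : ℕ) (T : Set (ι × Bool)), T.Nonempty → Tᶜ.Nonempty →
      ((X k).Br T ⊥ ⊤).toAddSubgroup.relIndex ((X k).Zr (rr r c) T ⊥ ⊤).toAddSubgroup ≠ 0 ∧
      ((X k).flip.Br Tᶜ ⊥ ⊤).toAddSubgroup.relIndex
        ((X k).flip.Zr (rr r c) Tᶜ ⊥ ⊤).toAddSubgroup ≠ 0 ∧
      ((X k).Br T ⊥ ⊤).toAddSubgroup.relIndex ((X k).Zr (rr r c) T ⊥ ⊤).toAddSubgroup *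
        (Nat.card (kk p L) ^ (n * k)) ^ (∑ w, open Classical in if w ∈ T then δ w.1 else 0) =
      ((X k).flip.Br Tᶜ ⊥ ⊤).toAddSubgroup.relIndex
        ((X k).flip.Zr (rr r c) Tᶜ ⊥ ⊤).toAddSubgroup * Nat.card (kk p L) ^ (n * k) := by
    intro k T hT hT'
    obtain ⟨-, e1, e2, e3⟩ := h1 (OO p L) p (ι × Bool) G (DD D) Γ χ (fun w => δ w.1) U hsy
      (MK p L n k) (MK p L n k) (FPARX.tp hsy.ax.act (X k)) (hPG k) T hT hT' ⊥ ⊤ ⊤
      (fun g m hm => by
        rw [(Submodule.mem_bot _).1 hm, map_zero]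
        exact Submodule.zero_mem _) (fun _ _ _ => Submodule.mem_top)
      (fun _ _ _ => Submodule.mem_top) bot_le le_rfl
    obtain ⟨-, -, e4, e5, -⟩ := All.perp (OO p L) p G Γ.α (MK p L n k) (MK p L n k)
      (FPARX.tp hsy.ax.act (X k))
    unfold BKT.hT at e1 e2 e3
    rw [e4, e5, hr'] at e2 e3
    rw [hr'] at e1
    rw [hindex k] at e3
    exact ⟨e1, e2, e3⟩
  -- limits
  have hlim := fun (T : Set (ι × Bool)) (hT : T.Nonempty) (hT' : Tᶜ.Nonempty) =>
    h7 p L G (ι × Bool) (DD D) (rr r c) n V S ρ hρc hρ (QZ p) (actA χ) X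
      (fun k => (hX k).act) T hT (fun k => (hind k T hT hT').1)
  have hlim' := fun (T : Set (ι × Bool)) (hT : T.Nonempty) (hT' : Tᶜ.Nonempty) =>
    h7 p L G (ι × Bool) (DD D) (rr r c) n (V.comp c) S ρ' hρc' (fun g => by
      rw [hρ']
      exact hρ (c g)) (QZ p) (actA χ) (fun k => (X k).flip)
      (fun k => (hX k).act') Tᶜ hT' (fun k => (hind k T hT hT').2.1)
  refine ⟨?_, fun T hT hT' => ?_⟩
  · -- parity
    obtain ⟨i₀⟩ : Nonempty ι := by
      by_contra hne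
      rw [not_nonempty_iff] at hne
      have e1 := hS.sum
      rw [Finset.univ_eq_empty, Finset.sum_empty] at e1
      exact zero_ne_one e1
    obtain ⟨f1, f2, K, hK⟩ := hlim {w | w.2 = false} ⟨(i₀, false), rfl⟩
      ⟨(i₀, true), fun h => Bool.noConfusion (h : true = false)⟩
    refine ⟨f1, ?_⟩
    have hsd : ∀ k, ∃ m : ℕ, ((X k).Br {w : ι × Bool | w.2 = false} ⊥ ⊤).toAddSubgroup.relIndex
        ((X k).Zr (rr r c) {w | w.2 = false} ⊥ ⊤).toAddSubgroup =
          Nat.card (kk p L) ^ (2 * m) := by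
      intro k
      obtain ⟨e1, N', e2, e3⟩ := h6 p L G χ n ρ ρ' B₀ hM.symm hM.det lam hlam N hM.sub hM.stab
        hM.lagr k (X k) (hX k)
      have e4 : (X k).ρ' = (X k).ρ.comp c := by
        apply MonoidHom.ext
        intro g
        apply AddMonoidHom.ext
        intro m
        obtain ⟨v, rfl⟩ := LMK.rv_surj k m
        change (X k).ρ' g (rv p L k v) = (X k).ρ (c g) (rv p L k v)
        rw [(hX k).act', (hX k).act, hρ']
        rfl
      obtain ⟨m, hm⟩ := h2 (OO p L) p hp instAlgRes ι G D r c hS.cont_c hS.inv_c Γ hr hi ht χ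
        hS.χ_c U (fun w => δ w.1) hsy (fun _ => rfl) hS.sum (MK p L n k)
        (FPARX.tp hsy.ax.act (X k)) e4 e1 (hPG k) N' e2 e3
      rw [hr'] at hm
      exact ⟨m, hm⟩
    obtain ⟨m, hm⟩ := hsd K
    obtain ⟨m', hm'⟩ := hsd (K + 1)
    have e1 := hK K le_rfl
    rw [hm, hm', ← pow_add, ← pow_add] at e1
    have e2 := Nat.pow_right_injective hq e1
    omega
  · -- the Euler characteristic
    obtain ⟨f1, f2, K, hK⟩ := hlim T hT hT'
    obtain ⟨f1', f2', K', hK'⟩ := hlim' T hT hT'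
    refine ⟨f1, f1', ?_⟩
    have e1 := hind (max K K') T hT hT'
    have e2 := hind (max K K' + 1) T hT hT'
    exact FPARX.num hq e1.2.1 e1.2.2 e2.2.2 (hK _ (le_max_left _ _)) (hK' _ (le_max_right _ _))

end BKT
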