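import Pool.Agent.Lib.MP_7c08ba_nt.T1.StNF
import Pool.Agent.Lib.MP_7c08ba_nt.T1.FPARXT
import Pool.Agent.Lib.MP_7c08ba_nt.T1.YLNAT

set_option autoImplicit false

/-!
Parity for general residual representations and arbitrary ramification at the primes which do not
split, part NF, module PARXN: parity and the Euler characteristic with coefficients in `L`.
-/

noncomputable section

namespace BKT

open BKPar (Loc1 Loc2)
open BKND (Sm)
open BKMet
open Matrix

namespace NFPARXN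

section Lat

variable {p : ℕ} [Fact p.Prime] {L : Type} [NormedField L] [NormedAlgebra ℚ_[p] L] {n : ℕ}

theorem latS_comap (S : GL (Fin n) L) (P : Submodule (OO p L) (Fin n → OO p L)) :
    latS p S P = (latS p 1 P).comap
      (S : Matrix (Fin n) (Fin n) L).mulVecLin.toAddMonoidHom := by
  ext v
  change (S : Matrix (Fin n) (Fin n) L) *ᵥ v ∈ P.toAddSubgroup.map (inL p L n) ↔
    ((1 : GL (Fin n) L) : Matrix (Fin n) (Fin n) L) *ᵥ
      ((S : Matrix (Fin n) (Fin n) L) *ᵥ v) ∈ P.toAddSubgroup.map (inL p L n)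
  rw [Units.val_one, Matrix.one_mulVec]

theorem fixL_comap {D : Type} [Group D] (V W : D →* GL (Fin n) L) (S : GL (Fin n) L)
    (hW : ∀ d, W d = S * V d * S⁻¹) (P : AddSubgroup (Fin n → L)) :
    fixL V (P.comap (S : Matrix (Fin n) (Fin n) L).mulVecLin.toAddMonoidHom) =
      (fixL W P).comap (S : Matrix (Fin n) (Fin n) L).mulVecLin.toAddMonoidHom := by
  ext v
  change (∀ d, (S : Matrix (Fin n) (Fin n) L) *ᵥ
      ((V d : Matrix (Fin n) (Fin n) L) *ᵥ v - v) ∈ P) ↔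
    ∀ d, (W d : Matrix (Fin n) (Fin n) L) *ᵥ ((S : Matrix (Fin n) (Fin n) L) *ᵥ v) -
      (S : Matrix (Fin n) (Fin n) L) *ᵥ v ∈ P
  refine forall_congr' fun d => ?_
  have h1 : (W d : Matrix (Fin n) (Fin n) L) *ᵥ ((S : Matrix (Fin n) (Fin n) L) *ᵥ v) =
      (S : Matrix (Fin n) (Fin n) L) *ᵥ ((V d : Matrix (Fin n) (Fin n) L) *ᵥ v) := by
    rw [hW, Matrix.mulVec_mulVec, ← Units.val_mul, inv_mul_cancel_right, Units.val_mul,
      Matrix.mulVec_mulVec]
  rw [h1, Matrix.mulVec_sub]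

theorem relIndex_S {D : Type} [Group D] (V W : D →* GL (Fin n) L) (S : GL (Fin n) L)
    (hW : ∀ d, W d = S * V d * S⁻¹) (P : Submodule (OO p L) (Fin n → OO p L)) :
    (latS p S P).relIndex (fixL V (latS p S P)) =
      (latS p 1 P).relIndex (fixL W (latS p 1 P)) := by
  rw [latS_comap, fixL_comap V W S hW, AddSubgroup.relIndex_comap,
    AddSubgroup.map_comap_eq_self_of_surjective]
  intro v
  exact ⟨((S⁻¹ : GL (Fin n) L) : Matrix (Fin n) (Fin n) L) *ᵥ v, LLV.mulVec_inv S v⟩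

theorem lnD_eq [FiniteDimensional ℚ_[p] L] {D : Type} [Group D] (V W : D →* GL (Fin n) L)
    (S : GL (Fin n) L) (hW : ∀ d, W d = S * V d * S⁻¹)
    (P : Submodule (OO p L) (Fin n → OO p L)) {e : ℕ}
    (hq : 2 ≤ Nat.card (kk p L))
    (he : (latS p 1 P).relIndex (fixL W (latS p 1 P)) = Nat.card (kk p L) ^ e) :
    lnD p V (latS p S P) = e := by
  unfold lnD
  rw [relIndex_S V W S hW P, he, Nat.log_pow hq]

end Lat

section Cj

variable {L : Type} [NormedField L] {D : Type} [Group D] {n : ℕ}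

theorem noInv_of {V W : D →* GL (Fin n) L} (S : GL (Fin n) L)
    (hW : ∀ d, W d = S * V d * S⁻¹) (h : NoInv V) : NoInv W := by
  have h1 : W = LLV.cj S V := by
    ext1 d
    exact hW d
  rw [h1]
  exact LLV.noInv_cj h S

theorem Z1_le_of [TopologicalSpace D] {V W : D →* GL (Fin n) L} (S : GL (Fin n) L)
    (hW : ∀ d, W d = S * V d * S⁻¹) (h : BKOdd.Z1 V ≤ BKOdd.B1 V) :
    BKOdd.Z1 W ≤ BKOdd.B1 W := by
  intro x hx
  have h1 : LLV.cj S⁻¹ W = V := by
    ext1 d
    change S⁻¹ * W d * S⁻¹⁻¹ = V d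
    rw [hW]
    group
  have h2 := LLV.mem_Z1_cj S⁻¹ hx
  rw [h1] at h2
  have h3 := h h2
  rw [← h1] at h3
  exact LLV.mem_B1_of_cj S⁻¹ h3

end Cj

/-- the arithmetic of the exponents -/
theorem num {q n f m a b E E' h h' : ℕ} (hq : 2 ≤ q)
    (h1 : h * q ^ E * m = q ^ (2 * a)) (h2 : h' * q ^ E' * m = q ^ (2 * b))
    (h3 : h' * q ^ n = h * q ^ f) : (f + n + (E + E')) % 2 = 0 := by
  have e1 : q ^ (2 * b + n + E) = q ^ (2 * a + f + E') := by
    calc q ^ (2 * b + n + E) = (h' * q ^ E' * m) * q ^ n * q ^ E := by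
          rw [h2, pow_add, pow_add]
      _ = (h' * q ^ n) * q ^ E' * m * q ^ E := by ring
      _ = (h * q ^ E * m) * q ^ f * q ^ E' := by
          rw [h3]
          ring
      _ = q ^ (2 * a + f + E') := by rw [h1, pow_add, pow_add]
  have e2 := Nat.pow_right_injective hq e1
  omega

section Places

variable {ι κ : Type}

theorem mem_TF {w : (ι × Bool) ⊕ κ} : w ∈ TF ι κ ↔ ∃ i, w = Sum.inl (i, false) := Iff.rfl

theorem inl_mem_TF (w : ι × Bool) : (Sum.inl w : (ι × Bool) ⊕ κ) ∈ TF ι κ ↔ w.2 = false := by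
  obtain ⟨i, b⟩ := w
  rw [mem_TF]
  constructor
  · rintro ⟨j, hj⟩
    rw [Sum.inl.injEq, Prod.mk.injEq] at hj
    exact hj.2
  · intro h
    exact ⟨i, by rw [show b = false from h]⟩

theorem inr_mem_TF (k : κ) : (Sum.inr k : (ι × Bool) ⊕ κ) ∉ TF ι κ := by
  rintro ⟨i, hi⟩
  exact Sum.inr_ne_inl hi

theorem sg_not_mem (w : (ι × Bool) ⊕ κ) (hw : w ∈ TF ι κ) : sg w ∉ TF ι κ := by
  obtain ⟨i, rfl⟩ := hw
  change (Sum.inl (i, !false) : (ι × Bool) ⊕ κ) ∉ TF ι κ
  rw [inl_mem_TF]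
  exact Bool.noConfusion

/-- the places which are neither in `TF` nor conjugate to a place in `TF` -/
theorem mem_WW (w : (ι × Bool) ⊕ κ) : (w ∉ TF ι κ ∧ sg w ∉ TF ι κ) ↔ ∃ k, w = Sum.inr k := by
  rcases w with ⟨i, b⟩ | k
  · constructor
    · rintro ⟨h1, h2⟩
      rw [inl_mem_TF] at h1
      have h3 : (Sum.inl (i, !b) : (ι × Bool) ⊕ κ) ∉ TF ι κ := h2
      rw [inl_mem_TF] at h3
      cases b
      · exact absurd rfl h1
      · exact absurd rfl h3
    · rintro ⟨k, hk⟩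
      exact absurd hk Sum.inl_ne_inr
  · exact ⟨fun _ => ⟨k, rfl⟩, fun _ => ⟨inr_mem_TF k, inr_mem_TF k⟩⟩

theorem sum_TF [Fintype ι] [Fintype κ] (δ : ι → ℕ) :
    (∑ w : (ι × Bool) ⊕ κ, open Classical in if w ∈ TF ι κ then dN δ w else 0) = ∑ i, δ i := by
  classical
  rw [Fintype.sum_sum_type, Fintype.sum_prod_type]
  have h1 : ∀ k : κ, (if (Sum.inr k : (ι × Bool) ⊕ κ) ∈ TF ι κ then
      dN δ (Sum.inr k : (ι × Bool) ⊕ κ) else 0) = 0 := fun k => if_neg (inr_mem_TF k)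
  rw [Finset.sum_congr rfl fun k _ => h1 k, Finset.sum_const_zero, add_zero]
  refine Finset.sum_congr rfl fun i _ => ?_
  rw [Fintype.sum_bool, if_neg, if_pos, zero_add]
  · rfl
  · exact (inl_mem_TF (i, false)).2 rfl
  · exact fun h => Bool.noConfusion ((inl_mem_TF (i, true)).1 h)

theorem prod_WW [Fintype ι] [Fintype κ] (f : (ι × Bool) ⊕ κ → ℕ) :
    (∏ w : (ι × Bool) ⊕ κ, open Classical in if w ∉ TF ι κ ∧ sg w ∉ TF ι κ then f w else 1) =
      ∏ k, f (Sum.inr k) := by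
  classical
  rw [Fintype.prod_sum_type]
  have h1 : ∀ w : ι × Bool, (if (Sum.inl w : (ι × Bool) ⊕ κ) ∉ TF ι κ ∧
      sg (Sum.inl w : (ι × Bool) ⊕ κ) ∉ TF ι κ then f (Sum.inl w) else 1) = 1 := fun w =>
    if_neg fun h => by
      obtain ⟨k, hk⟩ := (mem_WW _).1 h
      exact Sum.inl_ne_inr hk
  rw [Finset.prod_congr rfl fun w _ => h1 w, Finset.prod_const_one, one_mul]
  exact Finset.prod_congr rfl fun k _ => if_pos ((mem_WW _).2 ⟨k, rfl⟩)

end Places

end NFPARXN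

open FPARXT NFPARXN in
/-- Module PARXN. -/
theorem stParXN (h1 : StSdn) (h2 : StYR) (h3 : StGamN) (h4 : StLagn) (h5 : StLft) (h6 : StH0n)
    (h7 : StStb) (h8 : BKMet.StLam) (h9 : StMk) (h10 : StLimG) : StParXN := by
  intro p _ hp L _ _ _ ι κ _ _ G _ _ _ _ _ D E _ _ _ _ _ _ _ _ _ r q c χ inv invN δ U hS n V B
    hV hBs hD S ρ B₀ N hM hTr hJ hJ' hZB
  obtain ⟨Γ, τ, h, hr, hCj, hsy⟩ := h3 p hp ι κ G D E r q c χ inv invN δ U hS
  have hρ := hM.int
  have hρc : Continuous ρ := by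
    have e1 : Continuous fun g => S * V g * S⁻¹ := (continuous_const.mul hV).mul
      continuous_const
    exact LLV.continuous_lift (W := (MulAut.conj S).toMonoidHom.comp V) e1 hρ
  obtain ⟨ρ', hρ'⟩ : ∃ ρ' : G →* GL (Fin n) (OO p L), ρ' = ρ.comp c := ⟨_, rfl⟩
  have hρc' : Continuous ρ' := by
    rw [hρ']
    exact hρc.comp hS.cont_c
  have hdual : IsDual χ ((toL p L n).comp ρ) ((toL p L n).comp ρ') (B₀.map (OO p L).subtype) := by
    rw [hρ']
    exact LLATT.dual_conj hD hρ hM.form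
  obtain ⟨lam, hlam⟩ := h8 p L
  have hmk := fun k => h9 p L G χ n ρ ρ' hρc hρc' B₀ hM.det hdual lam hlam k
  have hcard : ∀ k, Nat.card (MK p L n k) = Nat.card (kk p L) ^ (n * k) := fun k => (hmk k).1
  choose X hX using fun k => (hmk k).2
  -- the action of `U`
  have hPG : ∀ k, PGr p (X k).ρ U := fun k => pgr hTr k (X k).ρ (hX k).act
  -- the index
  have hq : 2 ≤ Nat.card (kk p L) := by
    have h0 : Finite (kk p L) := instFiniteRes p L
    exact Finite.one_lt_card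
  have hr' : Γ.r = rS r q c := funext hr
  have hindex : ∀ k, ((⊥ : Submodule (OO p L) (MK p L n k)).toAddSubgroup.relIndex
      (⊤ : Submodule (OO p L) (MK p L n k)).toAddSubgroup) = Nat.card (kk p L) ^ (n * k) := by
    intro k
    rw [← hcard k]
    change (⊥ : AddSubgroup (MK p L n k)).relIndex (⊤ : AddSubgroup (MK p L n k)) = _
    rw [AddSubgroup.relIndex_top_right, AddSubgroup.index_bot]
  -- the Euler characteristic at level `k`
  have hind : ∀ (k : ℕ) (T : Set ((ι × Bool) ⊕ κ)), T.Nonempty → Tᶜ.Nonempty →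
      ((X k).Br T ⊥ ⊤).toAddSubgroup.relIndex ((X k).Zr (rS r q c) T ⊥ ⊤).toAddSubgroup ≠ 0 ∧
      ((X k).flip.Br Tᶜ ⊥ ⊤).toAddSubgroup.relIndex
        ((X k).flip.Zr (rS r q c) Tᶜ ⊥ ⊤).toAddSubgroup ≠ 0 ∧
      ((X k).Br T ⊥ ⊤).toAddSubgroup.relIndex ((X k).Zr (rS r q c) T ⊥ ⊤).toAddSubgroup *
        (Nat.card (kk p L) ^ (n * k)) ^
          (∑ w, open Classical in if w ∈ T then dN δ w else 0) =
      ((X k).flip.Br Tᶜ ⊥ ⊤).toAddSubgroup.relIndex
        ((X k).flip.Zr (rS r q c) Tᶜ ⊥ ⊤).toAddSubgroup * Nat.card (kk p L) ^ (n * k) := by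
    intro k T hT hT'
    obtain ⟨-, e1, e2, e3⟩ := h2 (OO p L) p ((ι × Bool) ⊕ κ) G (SD D E) Γ χ (dN δ) U hsy
      (MK p L n k) (MK p L n k) (FPARX.tp hsy.ax.act (X k)) (hPG k) T hT hT' ⊥ ⊤ ⊤
      (fun g m hm => by
        rw [(Submodule.mem_bot _).1 hm, map_zero]
        exact Submodule.zero_mem _) (fun _ _ _ => Submodule.mem_top)
      (fun _ _ _ => Submodule.mem_top) bot_le le_rfl
    obtain ⟨-, -, e4, e5, -⟩ := All.perp (OO p L) p G Γ.α (MK p L n k) (MK p L n k)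
      (FPARX.tp hsy.ax.act (X k))
    unfold BKT.hT at e1 e2 e3
    rw [e4, e5, hr'] at e2 e3
    rw [hr'] at e1
    rw [hindex k] at e3
    exact ⟨e1, e2, e3⟩
  -- limits
  have hlim := fun (T : Set ((ι × Bool) ⊕ κ)) (hT : T.Nonempty) (hT' : Tᶜ.Nonempty) =>
    h10 p L G ((ι × Bool) ⊕ κ) (SD D E) (rS r q c) n V S ρ hρc hρ (QZ p) (actA χ) X
      (fun k => (hX k).act) T hT (fun k => (hind k T hT hT').1)
  have hlim' := fun (T : Set ((ι × Bool) ⊕ κ)) (hT : T.Nonempty) (hT' : Tᶜ.Nonempty) =>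
    h10 p L G ((ι × Bool) ⊕ κ) (SD D E) (rS r q c) n (V.comp c) S ρ' hρc' (fun g => by
      rw [hρ']
      exact hρ (c g)) (QZ p) (actA χ) (fun k => (X k).flip)
      (fun k => (hX k).act') Tᶜ hT' (fun k => (hind k T hT hT').2.1)
  refine ⟨?_, fun T hT hT' => ?_⟩
  · -- parity
    obtain ⟨i₀⟩ : Nonempty ι := by
      by_contra hne
      rw [not_nonempty_iff] at hne
      have e1 := hS.sum
      rw [Finset.univ_eq_empty, Finset.sum_empty] at e1
      exact zero_ne_one e1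
    have hTne : (TF ι κ).Nonempty := ⟨Sum.inl (i₀, false), (inl_mem_TF _).2 rfl⟩
    obtain ⟨f1, f2, K, hK⟩ := hlim (TF ι κ) hTne
      ⟨Sum.inl (i₀, true), fun h => Bool.noConfusion ((inl_mem_TF (i₀, true)).1 h)⟩
    refine ⟨f1, ?_⟩
    -- the places `k`
    have hNI : ∀ k, NoInv (((toL p L n).comp ρ).comp (q k)) := fun k =>
      noInv_of (V := V.comp (q k)) S (fun d => hρ (q k d)) (hJ k)
    have hNI' : ∀ k, NoInv (((toL p L n).comp ρ').comp (q k)) := fun k =>
      noInv_of (V := (V.comp c).comp (q k)) S (fun d => by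
        rw [hρ']
        exact hρ (c (q k d))) (hJ' k)
    have hZB' : ∀ k, BKOdd.Z1 (((toL p L n).comp ρ).comp (q k)) ≤
        BKOdd.B1 (((toL p L n).comp ρ).comp (q k)) := fun k =>
      Z1_le_of (V := V.comp (q k)) S (fun d => hρ (q k d)) (hZB k)
    have hX0 : ∀ k : κ, ∃ e e' K : ℕ,
        (latS p 1 ⊤).relIndex (fixL (((toL p L n).comp ρ).comp (q k)) (latS p 1 ⊤)) =
          Nat.card (kk p L) ^ e ∧
        (latS p 1 N).relIndex (fixL (((toL p L n).comp ρ).comp (q k)) (latS p 1 N)) =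
          Nat.card (kk p L) ^ e' ∧
        ∀ l, K ≤ l → ((NNk N l).map (rv p L l)).toAddSubgroup.relIndex
          (fxp (X l) (q k) ((NNk N l).map (rv p L l))).toAddSubgroup =
            Nat.card (kk p L) ^ (if l % 2 = 0 then e else e') := fun k =>
      h6 p L G (E k) (q k) n ρ (hNI k) N hM.sub (QZ p) (actA χ) X (fun l => (hX l).act)
    choose e e' K1 he he' hK1 using hX0
    have hln : ∀ k, lnD p (V.comp (q k)) (latS p S ⊤) = e k := fun k =>
      lnD_eq (V.comp (q k)) (((toL p L n).comp ρ).comp (q k)) S (fun d => hρ (q k d)) ⊤ hq (he k)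
    have hln' : ∀ k, lnD p (V.comp (q k)) (latS p S N) = e' k := fun k =>
      lnD_eq (V.comp (q k)) (((toL p L n).comp ρ).comp (q k)) S (fun d => hρ (q k d)) N hq
        (he' k)
    -- the stable images
    have hna : NonarchimedeanGroup G := inferInstance
    have hlft : ∀ k : κ, ∃ a : ℕ, ∀ l, a ≤ l → ∀ f ∈ BKND.Z1 ((X l).ρ.comp (q k)),
        ∃ v : Fin n → L, ∀ d, ∃ y z : Fin n → OO p L,
          (toL p L n (ρ (q k d)) : Matrix (Fin n) (Fin n) L) *ᵥ v - v = inL p L n y ∧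
          f d - rv p L l y = pi0 p L ^ (l - a) • rv p L l z := by
      intro k
      have hact : (actA χ).comp (q k) = actA (χ.comp (q k)) := rfl
      exact h5 p L (E k) (χ.comp (q k)) (hS.cont_χ.comp (hS.cont_q k)) (invN k) 0 (hS.locN k) n
        (ρ.comp (q k)) (ρ'.comp (q k)) (hρc.comp (hS.cont_q k)) (hρc'.comp (hS.cont_q k)) B₀
        hM.det (fun d => hdual (q k d)) lam hlam
        (fun l => YLNAT.res (X l) (q k) (hS.cont_q k) (actA (χ.comp (q k))) hact)
        (fun l => ⟨fun d v => (hX l).act (q k d) v, fun d v => (hX l).act' (q k d) v,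
          (hX l).pair⟩) (hNI' k) (hZB' k)
    obtain ⟨K2, m, hm0, hK2⟩ := h7 p L G ((ι × Bool) ⊕ κ) (SD D E) (rS r q c)
      (fun w => by
        rw [← hr']
        exact Γ.cont w) n ρ hρc N hM.sub hM.stab (QZ p) (actA χ) X (fun l => (hX l).act)
      (TF ι κ) {w | w ∉ TF ι κ ∧ sg w ∉ TF ι κ}
      (fun w hw => by
        obtain ⟨k, rfl⟩ := (mem_WW w).1 hw
        exact hNI k)
      (fun w hw => by
        obtain ⟨k, rfl⟩ := (mem_WW w).1 hw
        exact hlft k)
    have hsd : ∀ l, (∀ k, K1 k ≤ l) → K2 ≤ l →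
        ∃ a : ℕ, ((X l).Br (TF ι κ) ⊥ ⊤).toAddSubgroup.relIndex
          ((X l).Zr (rS r q c) (TF ι κ) ⊥ ⊤).toAddSubgroup *
          Nat.card (kk p L) ^ (∑ k, if l % 2 = 0 then e k else e' k) * m =
          Nat.card (kk p L) ^ (2 * a) := by
      intro l hl1 hl2
      obtain ⟨e1, e2, e3⟩ := h4 p L G χ n ρ ρ' B₀ hM.symm hM.det lam hlam N hM.sub hM.stab
        hM.lagr l (X l) (hX l)
      have e4 : (X l).ρ' = (X l).ρ.comp c := by
        apply MonoidHom.ext
        intro g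
        apply AddMonoidHom.ext
        intro m
        obtain ⟨v, rfl⟩ := LMK.rv_surj l m
        change (X l).ρ' g (rv p L l v) = (X l).ρ (c g) (rv p L l v)
        rw [(hX l).act', (hX l).act, hρ']
        rfl
      obtain ⟨a, ha⟩ := h1 (OO p L) p hp instAlgRes ((ι × Bool) ⊕ κ) G (SD D E) Γ c sg τ h hCj χ
        (dN δ) U hsy (TF ι κ) hTne sg_not_mem ((sum_TF δ).trans hS.sum) (MK p L n l)
        (FPARX.tp hsy.ax.act (X l)) e4 e1 (hPG l) _ e2 e3
      rw [prod_WW] at ha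
      unfold BKT.hT at ha
      rw [hr'] at ha
      have e5 : ∏ k : κ, ((NNk N l).map (rv p L l)).toAddSubgroup.relIndex
          (fxp (FPARX.tp hsy.ax.act (X l)) (rS r q c (Sum.inr k))
            ((NNk N l).map (rv p L l))).toAddSubgroup =
          Nat.card (kk p L) ^ (∑ k, if l % 2 = 0 then e k else e' k) := by
        rw [← Finset.prod_pow_eq_pow_sum]
        refine Finset.prod_congr rfl fun k _ => ?_
        have e6 := hK1 k l (hl1 k)
        split_ifs at e6 ⊢ with e7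
        · exact e6
        · exact e6
      rw [e5] at ha
      exact ⟨a, by
        rw [← ha, ← hK2 l hl2]
        rfl⟩
    obtain ⟨K0, hK0⟩ : ∃ K0, ∀ k, K1 k ≤ K0 := by
      obtain ⟨K0, hK0⟩ := (Set.finite_range K1).bddAbove
      exact ⟨K0, fun k => hK0 ⟨k, rfl⟩⟩
    have e0 : ∀ l, K + K2 + K0 ≤ l → (∑ k, if l % 2 = 0 then e k else e' k) +
        (∑ k, if (l + 1) % 2 = 0 then e k else e' k) = ∑ k, (e k + e' k) := by
      intro l _
      rw [← Finset.sum_add_distrib]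
      refine Finset.sum_congr rfl fun k _ => ?_
      rcases Nat.mod_two_eq_zero_or_one l with e1 | e1
      · rw [if_pos e1, if_neg (by omega)]
      · rw [if_neg (by omega), if_pos (by omega), add_comm]
    obtain ⟨a, ha⟩ := hsd (K + K2 + K0) (fun k => (hK0 k).trans (by omega)) (by omega)
    obtain ⟨b, hb⟩ := hsd (K + K2 + K0 + 1) (fun k => (hK0 k).trans (by omega)) (by omega)
    have e1 := NFPARXN.num hq ha hb (hK (K + K2 + K0) (by omega))
    rw [e0 _ le_rfl] at e1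
    have e2 : ∑ k, (lnD p (V.comp (q k)) (latS p S ⊤) + lnD p (V.comp (q k)) (latS p S N)) =
        ∑ k, (e k + e' k) := Finset.sum_congr rfl fun k _ => by rw [hln, hln']
    rw [e2]
    exact e1
  · -- the Euler characteristic
    obtain ⟨f1, f2, K, hK⟩ := hlim T hT hT'
    obtain ⟨f1', f2', K', hK'⟩ := hlim' T hT hT'
    refine ⟨f1, f1', ?_⟩
    have e1 := hind (max K K') T hT hT'
    have e2 := hind (max K K' + 1) T hT hT'
    exact FPARX.num hq e1.2.1 e1.2.2 e2.2.2 (hK _ (le_max_left _ _)) (hK' _ (le_max_right _ _))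

end BKT
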