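import Pool.Agent.Lib.MP_7c08ba_nt.T1.StNF
import Pool.Agent.Lib.MP_7c08ba_nt.Met.LRL

set_option autoImplicit false

/-!
Parity for arbitrary ramification, module RLN: the reciprocity law with coefficients in `L(χ)`.
-/

noncomputable section

namespace BKT

open BKPar (Loc1 Loc2)
open BKND (Sm)
open BKMet
open BKMet.LRL (cl_add cl_sub cl_zero smul_cl cl_eq locConst_cl kap act_cl loc1_cl mem_Z2 mem_B2)
open Filter Topology

namespace NFRLN

variable {p : ℕ} [Fact p.Prime]

/-- rational coefficients -/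
theorem rat {G : Type} [Group G] [TopologicalSpace G] [IsTopologicalGroup G]
    [CompactSpace G] {ι : Type} [Fintype ι] {D : ι → Type} [∀ i, Group (D i)]
    [∀ i, TopologicalSpace (D i)] [∀ i, IsTopologicalGroup (D i)] [∀ i, CompactSpace (D i)]
    [∀ i, NonarchimedeanGroup (D i)] [NonarchimedeanGroup G]
    {κ : Type} [Fintype κ] {E : κ → Type} [∀ k, Group (E k)]
    [∀ k, TopologicalSpace (E k)] [∀ k, IsTopologicalGroup (E k)] [∀ k, CompactSpace (E k)]
    [∀ k, NonarchimedeanGroup (E k)]
    (r : ∀ i, D i →* G) (hr : ∀ i, Continuous (r i)) (q : ∀ k, E k →* G)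
    (hq : ∀ k, Continuous (q k)) (c : G →* G) (hc : Continuous c)
    (χ : G →* ℤ_[p]ˣ) (hχ : Continuous χ) (hχc : ∀ g, χ (c g) = χ g)
    (inv : ∀ i, (D i → D i → QZ p) →+ QZ p)
    (hinv : ∀ i, ∀ z ∈ BKND.Z2 (actA (χ.comp (r i))), inv i z = 0 ↔
      z ∈ BKND.B2 (actA (χ.comp (r i))))
    (invN : ∀ k, (E k → E k → QZ p) →+ QZ p)
    (hinvN : ∀ k, ∀ z ∈ BKND.Z2 (actA (χ.comp (q k))), invN k z = 0 ↔
      z ∈ BKND.B2 (actA (χ.comp (q k))))
    (hrec : ∀ z ∈ BKND.Z2 (actA χ),
      ∑ i, (inv i (pb2 (r i) z) - inv i (pb2 (c.comp (r i)) z)) +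
        ∑ k, invN k (pb2 (q k) z) = 0)
    (i₀ : ι) (hline : LineAx p (χ.comp (r i₀)))
    (Z : G → G → ℚ_[p]) (hZ : Continuous fun x : G × G => Z x.1 x.2)
    (hZ1 : ∀ g h k, kap χ g * Z h k + Z g (h * k) = Z (g * h) k + Z g h)
    (hb : ∀ i, i ≠ i₀ →
      (∃ β : D i → ℚ_[p], Continuous β ∧ ∀ g h, Z (r i g) (r i h) =
        β g + kap (χ.comp (r i)) g * β h - β (g * h)) ∧
      (∃ β : D i → ℚ_[p], Continuous β ∧ ∀ g h, Z (c (r i g)) (c (r i h)) =
        β g + kap (χ.comp (r i)) g * β h - β (g * h)))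
    (hbN : ∀ k, ∃ β : E k → ℚ_[p], Continuous β ∧ ∀ g h, Z (q k g) (q k h) =
        β g + kap (χ.comp (q k)) g * β h - β (g * h)) :
    ∃ β : D i₀ → ℚ_[p], Continuous β ∧ ∀ g h, Z (r i₀ g) (r i₀ h) - Z (c (r i₀ g)) (c (r i₀ h)) =
        β g + kap (χ.comp (r i₀)) g * β h - β (g * h) := by
  have hkc : ∀ g, kap χ (c g) = kap χ g := fun g => by
    unfold kap
    rw [hχc]
  -- scalar multiples of the class are trivial
  have hscal : ∀ t : ℚ_[p], (fun g h => cl p (t * (Z (r i₀ g) (r i₀ h) -
      Z (c (r i₀ g)) (c (r i₀ h))))) ∈ BKND.B2 (actA (χ.comp (r i₀))) := by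
    intro t
    have hz : (fun g h => cl p (t * Z g h)) ∈ BKND.Z2 (actA χ) := by
      refine mem_Z2 χ (continuous_const.mul hZ) ?_
      intro g h k
      linear_combination t * hZ1 g h k
    have hsum := hrec _ hz
    have hother : ∀ i, i ≠ i₀ → inv i (pb2 (r i) (fun g h => cl p (t * Z g h))) -
        inv i (pb2 (c.comp (r i)) (fun g h => cl p (t * Z g h))) = 0 := by
      intro i hi
      obtain ⟨⟨β, hβ, hβ'⟩, ⟨γ, hγ, hγ'⟩⟩ := hb i hi
      have e1 : pb2 (r i) (fun g h => cl p (t * Z g h)) ∈ BKND.B2 (actA (χ.comp (r i))) := by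
        have h1 := mem_B2 (χ.comp (r i)) (continuous_const.mul hβ : Continuous fun g => t * β g)
        have h2 : pb2 (r i) (fun g h => cl p (t * Z g h)) = fun g h => cl p (t * β g +
            kap (χ.comp (r i)) g * (t * β h) - t * β (g * h)) := by
          funext g h
          change cl p (t * Z (r i g) (r i h)) = _
          rw [hβ']
          congr 1
          ring
        rw [h2]
        exact h1
      have e2 : pb2 (c.comp (r i)) (fun g h => cl p (t * Z g h)) ∈
          BKND.B2 (actA (χ.comp (r i))) := by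
        have h1 := mem_B2 (χ.comp (r i)) (continuous_const.mul hγ : Continuous fun g => t * γ g)
        have h2 : pb2 (c.comp (r i)) (fun g h => cl p (t * Z g h)) = fun g h => cl p (t * γ g +
            kap (χ.comp (r i)) g * (t * γ h) - t * γ (g * h)) := by
          funext g h
          change cl p (t * Z (c (r i g)) (c (r i h))) = _
          rw [hγ']
          congr 1
          ring
        rw [h2]
        exact h1
      have z1 : pb2 (r i) (fun g h => cl p (t * Z g h)) ∈ BKND.Z2 (actA (χ.comp (r i))) := by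
        refine mem_Z2 (χ.comp (r i)) (Z := fun g h => t * Z (r i g) (r i h)) ?_ ?_
        · exact continuous_const.mul (hZ.comp (((hr i).comp continuous_fst).prodMk
            ((hr i).comp continuous_snd)))
        · intro g h k
          have := hZ1 (r i g) (r i h) (r i k)
          rw [map_mul, map_mul]
          change kap χ (r i g) * _ + _ = _
          linear_combination t * this
      have z2 : pb2 (c.comp (r i)) (fun g h => cl p (t * Z g h)) ∈
          BKND.Z2 (actA (χ.comp (r i))) := by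
        refine mem_Z2 (χ.comp (r i)) (Z := fun g h => t * Z (c (r i g)) (c (r i h))) ?_ ?_
        · exact continuous_const.mul (hZ.comp ((hc.comp ((hr i).comp continuous_fst)).prodMk
            (hc.comp ((hr i).comp continuous_snd))))
        · intro g h k
          have := hZ1 (c (r i g)) (c (r i h)) (c (r i k))
          rw [hkc] at this
          rw [map_mul, map_mul, map_mul, map_mul]
          change kap χ (r i g) * _ + _ = _
          linear_combination t * this
      rw [(hinv i _ z1).2 e1, (hinv i _ z2).2 e2, sub_zero]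
    have hotherN : ∀ k, invN k (pb2 (q k) (fun g h => cl p (t * Z g h))) = 0 := by
      intro k
      obtain ⟨β, hβ, hβ'⟩ := hbN k
      have e1 : pb2 (q k) (fun g h => cl p (t * Z g h)) ∈ BKND.B2 (actA (χ.comp (q k))) := by
        have h1 := mem_B2 (χ.comp (q k)) (continuous_const.mul hβ : Continuous fun g => t * β g)
        have h2 : pb2 (q k) (fun g h => cl p (t * Z g h)) = fun g h => cl p (t * β g +
            kap (χ.comp (q k)) g * (t * β h) - t * β (g * h)) := by
          funext g h
          change cl p (t * Z (q k g) (q k h)) = _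
          rw [hβ']
          congr 1
          ring
        rw [h2]
        exact h1
      have z1 : pb2 (q k) (fun g h => cl p (t * Z g h)) ∈ BKND.Z2 (actA (χ.comp (q k))) := by
        refine mem_Z2 (χ.comp (q k)) (Z := fun g h => t * Z (q k g) (q k h)) ?_ ?_
        · exact continuous_const.mul (hZ.comp (((hq k).comp continuous_fst).prodMk
            ((hq k).comp continuous_snd)))
        · intro g h l
          have := hZ1 (q k g) (q k h) (q k l)
          rw [map_mul, map_mul]
          change kap χ (q k g) * _ + _ = _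
          linear_combination t * this
      exact (hinvN k _ z1).2 e1
    rw [Finset.sum_eq_single i₀ (fun i _ hi => hother i hi)
      (fun h => absurd (Finset.mem_univ _) h), Finset.sum_eq_zero (fun k _ => hotherN k),
      add_zero] at hsum
    have z1 : pb2 (r i₀) (fun g h => cl p (t * Z g h)) ∈ BKND.Z2 (actA (χ.comp (r i₀))) := by
      refine mem_Z2 (χ.comp (r i₀)) (Z := fun g h => t * Z (r i₀ g) (r i₀ h)) ?_ ?_
      · exact continuous_const.mul (hZ.comp (((hr i₀).comp continuous_fst).prodMk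
          ((hr i₀).comp continuous_snd)))
      · intro g h k
        have := hZ1 (r i₀ g) (r i₀ h) (r i₀ k)
        rw [map_mul, map_mul]
        change kap χ (r i₀ g) * _ + _ = _
        linear_combination t * this
    have z2 : pb2 (c.comp (r i₀)) (fun g h => cl p (t * Z g h)) ∈
        BKND.Z2 (actA (χ.comp (r i₀))) := by
      refine mem_Z2 (χ.comp (r i₀)) (Z := fun g h => t * Z (c (r i₀ g)) (c (r i₀ h))) ?_ ?_
      · exact continuous_const.mul (hZ.comp ((hc.comp ((hr i₀).comp continuous_fst)).prodMk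
          (hc.comp ((hr i₀).comp continuous_snd))))
      · intro g h k
        have := hZ1 (c (r i₀ g)) (c (r i₀ h)) (c (r i₀ k))
        rw [hkc] at this
        rw [map_mul, map_mul, map_mul, map_mul]
        change kap χ (r i₀ g) * _ + _ = _
        linear_combination t * this
    rw [← map_sub] at hsum
    have hres := (hinv i₀ _ (sub_mem z1 z2)).1 hsum
    have heq : (fun g h => cl p (t * (Z (r i₀ g) (r i₀ h) - Z (c (r i₀ g)) (c (r i₀ h))))) =
        pb2 (r i₀) (fun g h => cl p (t * Z g h)) -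
          pb2 (c.comp (r i₀)) (fun g h => cl p (t * Z g h)) := by
      funext g h
      change _ = cl p (t * Z (r i₀ g) (r i₀ h)) - cl p (t * Z (c (r i₀ g)) (c (r i₀ h)))
      rw [← cl_sub, mul_sub]
    rw [heq]
    exact hres
  obtain ⟨z₀, hz₀, H, hne⟩ := hline
  have hχ' : Continuous (χ.comp (r i₀)) := hχ.comp (hr i₀)
  have hκ : Continuous (BKOdd.chZ (χ.comp (r i₀))) := Units.continuous_val.comp hχ'
  obtain ⟨a, f, hf, hfz⟩ := BKOdd.LineL.line_rat (κ := BKOdd.chZ (χ.comp (r i₀))) hκ hz₀ H
    (fun g h => Z (r i₀ g) (r i₀ h) - Z (c (r i₀ g)) (c (r i₀ h)))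
    ((hZ.comp (((hr i₀).comp continuous_fst).prodMk ((hr i₀).comp continuous_snd))).sub
      (hZ.comp ((hc.comp ((hr i₀).comp continuous_fst)).prodMk
          (hc.comp ((hr i₀).comp continuous_snd))))) (by
      intro g h k
      have h1 := hZ1 (r i₀ g) (r i₀ h) (r i₀ k)
      have h2 := hZ1 (c (r i₀ g)) (c (r i₀ h)) (c (r i₀ k))
      rw [hkc] at h2
      simp only [map_mul]
      change kap χ (r i₀ g) * _ + _ = _
      linear_combination h1 - h2)
  have hfz' : ∀ g h, Z (r i₀ g) (r i₀ h) - Z (c (r i₀ g)) (c (r i₀ h)) =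
      a * (z₀ g h : ℚ_[p]) + (f g + kap (χ.comp (r i₀)) g * f h - f (g * h)) := hfz
  by_cases ha : a = 0
  · refine ⟨f, hf, fun g h => ?_⟩
    rw [hfz', ha, zero_mul, zero_add]
  exfalso
  apply hne
  have hp0 : (p : ℚ_[p]) ≠ 0 := by exact_mod_cast (Fact.out : p.Prime).ne_zero
  have h1 := hscal (a⁻¹ * (p : ℚ_[p])⁻¹)
  have h2 := mem_B2 (χ.comp (r i₀)) (continuous_const.mul hf :
    Continuous fun g => (a⁻¹ * (p : ℚ_[p])⁻¹) * f g)
  have h3 : (fun g h => cl p (((z₀ g h : ℤ_[p]) : ℚ_[p]) / p)) =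
      (fun g h => cl p ((a⁻¹ * (p : ℚ_[p])⁻¹) * (Z (r i₀ g) (r i₀ h) -
        Z (c (r i₀ g)) (c (r i₀ h))))) - (fun g h => cl p ((a⁻¹ * (p : ℚ_[p])⁻¹) * f g +
          kap (χ.comp (r i₀)) g * ((a⁻¹ * (p : ℚ_[p])⁻¹) * f h) -
            (a⁻¹ * (p : ℚ_[p])⁻¹) * f (g * h))) := by
    funext g h
    simp only [Pi.sub_apply]
    rw [← cl_sub, hfz']
    congr 1
    field_simp
    ring
  rw [h3]
  exact sub_mem h1 h2

end NFRLN

theorem stRlN : StRlN := by
  intro p _ L _ _ _ G _ _ _ _ _ ι κ _ _ D E _ _ _ _ _ _ _ _ _ _ r q hr hq c hc χ hχ hχc inv invN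
    hinv hinvN hrec i₀ hline Z hZ hb hbN
  let b := Module.finBasis ℚ_[p] L
  have hcont : ∀ j, Continuous (b.coord j) := fun j =>
    LinearMap.continuous_of_finiteDimensional _
  have hch : ∀ (D' : Type) [Group D'] (χ' : D' →* ℤ_[p]ˣ) (g : D') (x : L),
      BKOdd.chL χ' L g * x = BKMet.LRL.kap χ' g • x := by
    intro D' _ χ' g x
    rw [Algebra.smul_def]
    rfl
  have key : ∀ j, ∃ β : D i₀ → ℚ_[p], Continuous β ∧
      ∀ g h, b.coord j (Z (r i₀ g) (r i₀ h)) - b.coord j (Z (c (r i₀ g)) (c (r i₀ h))) =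
        β g + BKMet.LRL.kap (χ.comp (r i₀)) g * β h - β (g * h) := by
    intro j
    refine NFRLN.rat r hr q hq c hc χ hχ hχc inv hinv invN hinvN hrec i₀ hline
      (fun g h => b.coord j (Z g h)) ((hcont j).comp hZ.1) ?_ ?_ ?_
    · intro g h k
      have := congrArg (b.coord j) (hZ.2 g h k)
      rw [hch, map_add, map_add, map_smul, smul_eq_mul] at this
      exact this
    · intro i hi
      obtain ⟨⟨β, hβ, hβ'⟩, ⟨γ, hγ, hγ'⟩⟩ := hb i hi
      refine ⟨⟨fun g => b.coord j (β g), (hcont j).comp hβ, fun g h => ?_⟩,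
        ⟨fun g => b.coord j (γ g), (hcont j).comp hγ, fun g h => ?_⟩⟩
      · have := congrArg (b.coord j) (hβ' g h)
        rw [hch, map_sub, map_add, map_smul, smul_eq_mul] at this
        exact this
      · have := congrArg (b.coord j) (hγ' g h)
        rw [hch, map_sub, map_add, map_smul, smul_eq_mul] at this
        exact this
    · intro k
      obtain ⟨β, hβ, hβ'⟩ := hbN k
      refine ⟨fun g => b.coord j (β g), (hcont j).comp hβ, fun g h => ?_⟩
      have := congrArg (b.coord j) (hβ' g h)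
      rw [hch, map_sub, map_add, map_smul, smul_eq_mul] at this
      exact this
  choose f hf hfz using key
  refine ⟨fun g => ∑ j, f j g • b j, ?_, fun g h => ?_⟩
  · exact continuous_finsetSum _ fun j _ => (hf j).smul continuous_const
  · rw [hch, Finset.smul_sum, ← Finset.sum_add_distrib, ← Finset.sum_sub_distrib]
    conv_lhs => rw [← b.sum_repr ((pb2 (r i₀) Z - pb2 (c.comp (r i₀)) Z) g h)]
    refine Finset.sum_congr rfl fun j _ => ?_
    rw [smul_smul, ← add_smul, ← sub_smul]
    congr 1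
    have h1 := hfz j g h
    rw [← map_sub] at h1
    exact h1

end BKT
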