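import Pool.Agent.Lib.MP_7c08ba_nt.T1.StU
import Pool.Agent.Lib.MP_7c08ba_nt.Met.LLIMD

set_option autoImplicit false

/-!
Parity with arbitrary ramification at the primes which do not split, module STB: the images of the
classes in the local cohomology stabilise.
-/

noncomputable section

namespace BKT

open BKPar (Loc1 Loc2)
open BKND (Sm)
open BKMet
open Matrix

namespace NFSTB

/-- two subgroups which correspond to each other under a relation have the same index -/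
theorem relIndex_rel {A B : Type*} [AddCommGroup A] [AddCommGroup B] (R : AddSubgroup (A × B))
    (A0 : AddSubgroup A) (B0 : AddSubgroup B) (h : ∀ x ∈ R, x.1 ∈ A0 ↔ x.2 ∈ B0) :
    A0.relIndex (R.map (AddMonoidHom.fst A B)) = B0.relIndex (R.map (AddMonoidHom.snd A B)) := by
  have e1 := AddSubgroup.index_comap A0 ((AddMonoidHom.fst A B).comp R.subtype)
  have e2 := AddSubgroup.index_comap B0 ((AddMonoidHom.snd A B).comp R.subtype)
  have r1 : ((AddMonoidHom.fst A B).comp R.subtype).range = R.map (AddMonoidHom.fst A B) := by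
    rw [AddMonoidHom.range_comp, AddSubgroup.range_subtype]
  have r2 : ((AddMonoidHom.snd A B).comp R.subtype).range = R.map (AddMonoidHom.snd A B) := by
    rw [AddMonoidHom.range_comp, AddSubgroup.range_subtype]
  rw [← r1, ← r2, ← e1, ← e2]
  congr 1
  ext x
  exact h x.1 x.2

theorem loc1_comp {D G X : Type*} [Group D] [TopologicalSpace D] [Group G] [TopologicalSpace G]
    {f : G → X} (hf : Loc1 f) (φ : D →* G) (hφ : Continuous φ) : Loc1 fun d => f (φ d) := by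
  obtain ⟨W, hW, h⟩ := hf
  exact ⟨W.comap φ, hW.preimage hφ, fun d w hw => by
    change f (φ (d * w)) = f (φ d)
    rw [map_mul]; exact h _ _ hw⟩

theorem stab (c : ℕ → ℕ) (K : ℕ) (h : ∀ k, K ≤ k → c (k + 1) ≤ c k) :
    ∃ K' : ℕ, K ≤ K' ∧ ∀ k, K' ≤ k → c k = c K' := by
  have hne : (Set.range fun j => c (K + j)).Nonempty := ⟨_, 0, rfl⟩
  obtain ⟨j, hj⟩ := Nat.sInf_mem hne
  have hmono : ∀ i, K + j ≤ i → c i ≤ c (K + j) := by
    intro i hi
    induction i, hi using Nat.le_induction with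
    | base => exact le_rfl
    | succ i hi ih => exact (h i (by omega)).trans ih
  refine ⟨K + j, by omega, fun k hk => le_antisymm (hmono k hk) ?_⟩
  have hj' : c (K + j) = sInf (Set.range fun j => c (K + j)) := hj
  rw [hj']
  refine Nat.sInf_le ⟨k - K, ?_⟩
  change c (K + (k - K)) = c k
  congr 1
  omega

variable {p : ℕ} [Fact p.Prime] {L : Type} [NormedField L] [NormedAlgebra ℚ_[p] L] {n : ℕ}

theorem inL_inj {u v : Fin n → OO p L} (h : inL p L n u = inL p L n v) : u = v :=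
  funext fun i => Subtype.ext (congrFun h i)

theorem inL_smul (c : OO p L) (u : Fin n → OO p L) :
    inL p L n (c • u) = (c : L) • inL p L n u := rfl

theorem inL_act (g : GL (Fin n) (OO p L)) (u : Fin n → OO p L) :
    (toL p L n g : Matrix (Fin n) (Fin n) L) *ᵥ inL p L n u =
      inL p L n ((g : Matrix (Fin n) (Fin n) (OO p L)) *ᵥ u) := by
  funext i
  exact (RingHom.map_mulVec (OO p L).subtype _ u i).symm

theorem mem_lat (v : Fin n → L) :
    v ∈ latS p (1 : GL (Fin n) L) (⊤ : Submodule (OO p L) (Fin n → OO p L)) ↔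
      ∃ u, inL p L n u = v := by
  have e : ((1 : GL (Fin n) L) : Matrix (Fin n) (Fin n) L) *ᵥ v = v := by
    rw [Units.val_one, Matrix.one_mulVec]
  constructor
  · rintro ⟨u, _, hu⟩
    refine ⟨u, hu.trans ?_⟩
    exact e
  · rintro ⟨u, hu⟩
    exact ⟨u, trivial, hu.trans e.symm⟩

variable [FiniteDimensional ℚ_[p] L]

theorem mem_nn (N : Submodule (OO p L) (Fin n → OO p L)) (k : ℕ) (m : MK p L n k)
    (h : m ∈ (NNk N k).map (rv p L k)) :
    ∃ t : Fin n → OO p L, rv p L k (pi0 p L ^ (k / 2) • t) = m := by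
  obtain ⟨s, ⟨t, _, rfl⟩, rfl⟩ := h
  exact ⟨t, rfl⟩

theorem nn_mem (N : Submodule (OO p L) (Fin n → OO p L)) (hN : ∀ x : Fin n → OO p L,
    pi0 p L • x ∈ N) (k j : ℕ) (hj : k / 2 + 1 ≤ j) (z : Fin n → OO p L) :
    pi0 p L ^ j • rv p L k z ∈ (NNk N k).map (rv p L k) := by
  refine ⟨pi0 p L ^ j • z, ⟨pi0 p L ^ (j - k / 2) • z, ?_, ?_⟩, map_smul _ _ _⟩
  · have e : pi0 p L ^ (j - k / 2) • z = pi0 p L • (pi0 p L ^ (j - k / 2 - 1) • z) := by
      rw [smul_smul, ← pow_succ']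
      congr 2
      omega
    split_ifs with h
    · trivial
    · rw [e]
      exact hN _
  · change pi0 p L ^ (k / 2) • (pi0 p L ^ (j - k / 2) • z) = _
    rw [smul_smul, ← pow_add]
    congr 2
    omega

/-! ### Reduction -/

theorem span_le (k : ℕ) : (Ideal.span {pi0 p L ^ (k + 1)} : Ideal (OO p L)) ≤
    Ideal.span {pi0 p L ^ k} := by
  rw [Ideal.span_singleton_le_span_singleton]
  exact pow_dvd_pow _ (Nat.le_succ k)

/-- reduction from level `k + 1` to level `k` -/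
def red (k : ℕ) : MK p L n (k + 1) →+ MK p L n k where
  toFun m i := Ideal.Quotient.factor (span_le k) (m i)
  map_zero' := by
    funext i
    exact map_zero _
  map_add' m m' := by
    funext i
    exact map_add _ _ _

theorem red_rv (k : ℕ) (v : Fin n → OO p L) : red k (rv p L (k + 1) v) = rv p L k v := rfl

theorem red_smul (k : ℕ) (c : OO p L) (m : MK p L n (k + 1)) :
    red k (c • m) = c • red k m := by
  obtain ⟨v, rfl⟩ := LLIMD.rv_surjective (k + 1) m
  rw [← map_smul, red_rv, red_rv, map_smul]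

/-! ### The relation -/

variable {G : Type} [Group G] [TopologicalSpace G] {S : Type} {D : S → Type}
  [∀ w, Group (D w)] {A : Type} [AddCommGroup A] {α : G →* AddMonoid.End A}

/-- relative cocycles together with the vectors of which their restrictions are the coboundaries -/
def Rk (r : ∀ w, D w →* G) (ρ : G →* GL (Fin n) (OO p L)) (T W : Set S) (a k : ℕ)
    (X : Pair (OO p L) α (MK p L n k) (MK p L n k)) :
    AddSubgroup (((G → MK p L n k) × (S → MK p L n k)) × (S → Fin n → L)) where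
  carrier := {x | x.1 ∈ X.Zr r T ⊥ ⊤ ∧ ∀ w ∈ W, ∀ d, ∃ y z : Fin n → OO p L,
    (toL p L n (ρ (r w d)) : Matrix (Fin n) (Fin n) L) *ᵥ x.2 w - x.2 w = inL p L n y ∧
    x.1.1 (r w d) - rv p L k y = pi0 p L ^ (k - a) • rv p L k z}
  add_mem' := by
    rintro x x' ⟨h1, h2⟩ ⟨h1', h2'⟩
    refine ⟨Submodule.add_mem _ h1 h1', fun w hw d => ?_⟩
    obtain ⟨y, z, e1, e2⟩ := h2 w hw d
    obtain ⟨y', z', e1', e2'⟩ := h2' w hw d
    refine ⟨y + y', z + z', ?_, ?_⟩
    · rw [map_add, ← e1, ← e1']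
      change _ *ᵥ (x.2 w + x'.2 w) - (x.2 w + x'.2 w) = _
      rw [Matrix.mulVec_add]
      abel
    · rw [map_add, map_add, smul_add, ← e2, ← e2']
      change x.1.1 (r w d) + x'.1.1 (r w d) - _ = _
      abel
  zero_mem' := by
    refine ⟨Submodule.zero_mem _, fun w _ d => ⟨0, 0, ?_, ?_⟩⟩
    · change _ *ᵥ (0 : Fin n → L) - (0 : Fin n → L) = _
      rw [Matrix.mulVec_zero, sub_zero, map_zero]
    · change (0 : MK p L n k) - _ = _
      rw [map_zero, sub_zero, smul_zero]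
  neg_mem' := by
    rintro x ⟨h1, h2⟩
    refine ⟨Submodule.neg_mem _ h1, fun w hw d => ?_⟩
    obtain ⟨y, z, e1, e2⟩ := h2 w hw d
    refine ⟨-y, -z, ?_, ?_⟩
    · rw [map_neg, ← e1]
      change _ *ᵥ (- x.2 w) - (- x.2 w) = _
      rw [Matrix.mulVec_neg]
      abel
    · rw [map_neg, map_neg, smul_neg, ← e2]
      change - x.1.1 (r w d) - _ = _
      abel

/-- the tuples which are integral at the places in `W` -/
def Jk (p : ℕ) [Fact p.Prime] (L : Type) [NormedField L] [NormedAlgebra ℚ_[p] L] (n : ℕ)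
    {S : Type} (W : Set S) : AddSubgroup (S → Fin n → L) :=
  ⨅ w : W, (latS p (1 : GL (Fin n) L) (⊤ : Submodule (OO p L) (Fin n → OO p L))).comap
    (Pi.evalAddMonoidHom (fun _ : S => Fin n → L) w.1)

omit [FiniteDimensional ℚ_[p] L] in
theorem mem_Jk (W : Set S) (v : S → Fin n → L) :
    v ∈ Jk p L n W ↔ ∀ w ∈ W, v w ∈ latS p (1 : GL (Fin n) L)
      (⊤ : Submodule (OO p L) (Fin n → OO p L)) := by
  unfold Jk
  rw [AddSubgroup.mem_iInf]
  constructor
  · intro h w hw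
    exact h ⟨w, hw⟩
  · rintro h ⟨w, hw⟩
    exact h w hw

theorem mem_iff (r : ∀ w, D w →* G) (ρ : G →* GL (Fin n) (OO p L)) (T W : Set S) (a k m : ℕ)
    (X : Pair (OO p L) α (MK p L n k) (MK p L n k))
    (hX : ∀ g v, X.ρ g (rv p L k v) =
      rv p L k ((ρ g : Matrix (Fin n) (Fin n) (OO p L)) *ᵥ v))
    (N : Submodule (OO p L) (Fin n → OO p L)) (hN : ∀ x : Fin n → OO p L, pi0 p L • x ∈ N)
    (hk : k / 2 + 1 ≤ k - a) (hm : m ≤ k / 2)
    (hF : ∀ w ∈ W, ∀ v ∈ fixL (((toL p L n).comp ρ).comp (r w))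
      (latS p (1 : GL (Fin n) L) (⊤ : Submodule (OO p L) (Fin n → OO p L))),
      ((pi0 p L : OO p L) : L) ^ m • v ∈ latS p (1 : GL (Fin n) L)
        (⊤ : Submodule (OO p L) (Fin n → OO p L)))
    (x : ((G → MK p L n k) × (S → MK p L n k)) × (S → Fin n → L)) (hx : x ∈ Rk r ρ T W a k X) :
    x.1 ∈ (ltr X r W ((NNk N k).map (rv p L k)) ⊓ X.Zr r T ⊥ ⊤).toAddSubgroup ↔
      x.2 ∈ Jk p L n W := by
  obtain ⟨h1, h2⟩ := hx
  rw [mem_Jk]
  constructor
  · rintro ⟨h3, _⟩ w hw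
    obtain ⟨m0, hm0⟩ := h3 w hw
    obtain ⟨u, rfl⟩ := LLIMD.rv_surjective k m0
    -- the vector `x.2 w - u`
    have h4 : ∀ d, ∃ t : Fin n → OO p L,
        (toL p L n (ρ (r w d)) : Matrix (Fin n) (Fin n) L) *ᵥ (x.2 w - inL p L n u) -
          (x.2 w - inL p L n u) =
          ((pi0 p L : OO p L) : L) ^ (k / 2) • inL p L n t := by
      intro d
      obtain ⟨y, z, e1, e2⟩ := h2 w hw d
      obtain ⟨t, ht⟩ := mem_nn N k _ (hm0 d)
      have e3 : rv p L k (y - ((ρ (r w d) : Matrix (Fin n) (Fin n) (OO p L)) *ᵥ u - u)) =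
          rv p L k (pi0 p L ^ (k / 2) • t - pi0 p L ^ (k - a) • z) := by
        rw [map_sub, map_sub, map_sub, ht, map_smul (rv p L k) (pi0 p L ^ (k - a)) z, ← e2]
        simp only [d0, hX]
        abel
      obtain ⟨s, hs⟩ := (LLIMD.rv_eq_iff k _ _).1 e3
      have e4 : y - ((ρ (r w d) : Matrix (Fin n) (Fin n) (OO p L)) *ᵥ u - u) =
          pi0 p L ^ (k / 2) • (t - pi0 p L ^ (k - a - k / 2) • z + pi0 p L ^ (k - k / 2) • s) := by
        rw [smul_add, smul_sub, smul_smul, smul_smul, ← pow_add, ← pow_add,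
          show k / 2 + (k - a - k / 2) = k - a by omega, show k / 2 + (k - k / 2) = k by omega, hs]
        abel
      refine ⟨t - pi0 p L ^ (k - a - k / 2) • z + pi0 p L ^ (k - k / 2) • s, ?_⟩
      have e5 := congrArg (inL p L n) e4
      rw [inL_smul, map_sub, map_sub, ← e1, ← inL_act] at e5
      rw [Matrix.mulVec_sub]
      have e6 : (((pi0 p L ^ (k / 2) : OO p L)) : L) = ((pi0 p L : OO p L) : L) ^ (k / 2) :=
        Subring.coe_pow _ _ _
      rw [← e6, ← e5]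
      abel
    have hne : ((pi0 p L : OO p L) : L) ^ (k / 2) ≠ 0 := pow_ne_zero _ (pi0_ne p L)
    have h5 : (((pi0 p L : OO p L) : L) ^ (k / 2))⁻¹ • (x.2 w - inL p L n u) ∈
        fixL (((toL p L n).comp ρ).comp (r w))
          (latS p (1 : GL (Fin n) L) (⊤ : Submodule (OO p L) (Fin n → OO p L))) := by
      intro d
      obtain ⟨t, ht⟩ := h4 d
      rw [mem_lat]
      refine ⟨t, ?_⟩
      change _ = (toL p L n (ρ (r w d)) : Matrix (Fin n) (Fin n) L) *ᵥ _ - _
      rw [Matrix.mulVec_smul, ← smul_sub, ht, smul_smul, inv_mul_cancel₀ hne, one_smul]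
    obtain ⟨u', hu'⟩ := (mem_lat _).1 (hF w hw _ h5)
    rw [mem_lat]
    refine ⟨pi0 p L ^ (k / 2 - m) • u' + u, ?_⟩
    rw [map_add, inL_smul, hu', smul_smul, smul_smul, Subring.coe_pow, ← pow_add,
      show k / 2 - m + m = k / 2 by omega, mul_inv_cancel₀ hne, one_smul, sub_add_cancel]
  · intro h3
    refine ⟨fun w hw => ?_, h1⟩
    obtain ⟨u, hu⟩ := (mem_lat _).1 (h3 w hw)
    refine ⟨rv p L k u, fun d => ?_⟩
    obtain ⟨y, z, e1, e2⟩ := h2 w hw d
    rw [← hu, inL_act, ← map_sub] at e1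
    have e3 := inL_inj e1
    have e4 : x.1.1 (r w d) - d0 X.ρ (rv p L k u) (r w d) =
        pi0 p L ^ (k - a) • rv p L k z := by
      rw [← e2, ← e3, map_sub]
      simp only [d0, hX]
    rw [e4]
    exact nn_mem N hN k _ hk z

theorem map_fst (r : ∀ w, D w →* G) [∀ w, TopologicalSpace (D w)] (hr : ∀ w, Continuous (r w))
    (ρ : G →* GL (Fin n) (OO p L)) (T W : Set S) (a k : ℕ)
    (X : Pair (OO p L) α (MK p L n k) (MK p L n k))
    (ha : ∀ w ∈ W, ∀ f ∈ BKND.Z1 (X.ρ.comp (r w)), ∃ v : Fin n → L,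
      ∀ d, ∃ y z : Fin n → OO p L,
        (toL p L n (ρ (r w d)) : Matrix (Fin n) (Fin n) L) *ᵥ v - v = inL p L n y ∧
        f d - rv p L k y = pi0 p L ^ (k - a) • rv p L k z) :
    (Rk r ρ T W a k X).map (AddMonoidHom.fst _ _) = (X.Zr r T ⊥ ⊤).toAddSubgroup := by
  apply le_antisymm
  · rintro _ ⟨x, hx, rfl⟩
    exact hx.1
  · intro x hx
    have h1 : ∀ w, ∃ v : Fin n → L, w ∈ W → ∀ d, ∃ y z : Fin n → OO p L,
        (toL p L n (ρ (r w d)) : Matrix (Fin n) (Fin n) L) *ᵥ v - v = inL p L n y ∧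
        x.1 (r w d) - rv p L k y = pi0 p L ^ (k - a) • rv p L k z := by
      intro w
      by_cases hw : w ∈ W
      · have h2 : (fun d => x.1 (r w d)) ∈ BKND.Z1 (X.ρ.comp (r w)) := by
          refine ⟨loc1_comp hx.1 (r w) (hr w), fun g h => ?_⟩
          have h3 := hx.2.2.1 (r w g) (r w h)
          rw [Submodule.mem_bot] at h3
          simp only [d1] at h3
          change x.1 (r w (g * h)) = x.1 (r w g) + X.ρ (r w g) (x.1 (r w h))
          rw [map_mul]
          rw [← sub_eq_zero, ← neg_eq_zero, ← h3]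
          abel
        obtain ⟨v, hv⟩ := ha w hw _ h2
        exact ⟨v, fun _ => hv⟩
      · exact ⟨0, fun h => absurd h hw⟩
    choose v hv using h1
    exact ⟨(x, v), ⟨hx, fun w hw => hv w hw⟩, rfl⟩

theorem map_snd_le (r : ∀ w, D w →* G) (ρ : G →* GL (Fin n) (OO p L)) (T W : Set S) (a k : ℕ)
    (hak : a ≤ k)
    (X : Pair (OO p L) α (MK p L n k) (MK p L n k))
    (X' : Pair (OO p L) α (MK p L n (k + 1)) (MK p L n (k + 1)))
    (hX : ∀ g v, X.ρ g (rv p L k v) =
      rv p L k ((ρ g : Matrix (Fin n) (Fin n) (OO p L)) *ᵥ v))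
    (hX' : ∀ g v, X'.ρ g (rv p L (k + 1) v) =
      rv p L (k + 1) ((ρ g : Matrix (Fin n) (Fin n) (OO p L)) *ᵥ v)) :
    (Rk r ρ T W a (k + 1) X').map (AddMonoidHom.snd _ _) ≤
      (Rk r ρ T W a k X).map (AddMonoidHom.snd _ _) := by
  have hred : ∀ g m, X.ρ g (red k m) = red k (X'.ρ g m) := by
    intro g m
    obtain ⟨v, rfl⟩ := LLIMD.rv_surjective (k + 1) m
    rw [red_rv, hX, hX', red_rv]
  rintro _ ⟨⟨⟨f, m⟩, v⟩, ⟨h1, h2⟩, rfl⟩
  refine ⟨⟨⟨fun g => red k (f g), fun w => red k (m w)⟩, v⟩, ⟨⟨?_, ?_, ?_, ?_, ?_⟩, ?_⟩, rfl⟩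
  · exact BKND.Loc1.map h1.1 (red k)
  · exact fun _ => trivial
  · intro g h
    have h3 := h1.2.2.1 g h
    rw [Submodule.mem_bot] at h3 ⊢
    simp only [d1] at h3 ⊢
    rw [hred, ← map_sub, ← map_add, h3, map_zero]
  · intro w hw
    refine ⟨trivial, fun d => ?_⟩
    have h3 := (h1.2.2.2.1 w hw).2 d
    rw [Submodule.mem_bot] at h3 ⊢
    simp only [d0] at h3 ⊢
    rw [hred, ← map_sub, ← map_sub, h3, map_zero]
  · intro w hw
    have h3 := h1.2.2.2.2 w hw
    change red k (m w) = 0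
    change m w = 0 at h3
    rw [h3, map_zero]
  · intro w hw d
    obtain ⟨y, z, e1, e2⟩ := h2 w hw d
    refine ⟨y, pi0 p L • z, e1, ?_⟩
    have e3 := congrArg (red k) e2
    rw [red_smul, map_sub, red_rv, red_rv] at e3
    change red k (f (r w d)) - _ = _
    change red k (f (r w d)) - _ = _ at e3
    rw [e3, map_smul (rv p L k) (pi0 p L) z, smul_smul, ← pow_succ,
      show k - a + 1 = k + 1 - a by omega]

theorem relIndex_ne [Finite S] (r : ∀ w, D w →* G) (ρ : G →* GL (Fin n) (OO p L)) (T W : Set S)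
    (a k : ℕ) (X : Pair (OO p L) α (MK p L n k) (MK p L n k))
    (hF : ∀ w ∈ W, (latS p (1 : GL (Fin n) L) (⊤ : Submodule (OO p L) (Fin n → OO p L))).relIndex
      (fixL (((toL p L n).comp ρ).comp (r w))
        (latS p (1 : GL (Fin n) L) (⊤ : Submodule (OO p L) (Fin n → OO p L)))) ≠ 0) :
    (Jk p L n W).relIndex ((Rk r ρ T W a k X).map (AddMonoidHom.snd _ _)) ≠ 0 := by
  refine AddSubgroup.relIndex_iInf_ne_zero fun w => ?_
  rw [AddSubgroup.relIndex_comap]
  refine fun h0 => hF w.1 w.2 (AddSubgroup.relIndex_eq_zero_of_le_right ?_ h0)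
  rintro _ ⟨_, ⟨x, hx, rfl⟩, rfl⟩ d
  obtain ⟨y, z, e1, e2⟩ := hx.2 w.1 w.2 d
  rw [mem_lat]
  exact ⟨y, e1.symm⟩

end NFSTB

open NFSTB in
/-- Module STB. -/
theorem stStb (hfxl : StFxl) : StStb := by
  intro p _ L _ _ _ G _ _ _ _ _ S _ D _ _ r hr n ρ hρ N hN hst A _ α X hX T W hinv hlft
  have h1 : ∀ w, ∃ a : ℕ, w ∈ W → ∀ k, a ≤ k → ∀ f ∈ BKND.Z1 ((X k).ρ.comp (r w)),
      ∃ v : Fin n → L, ∀ d, ∃ y z : Fin n → OO p L,
        (toL p L n (ρ (r w d)) : Matrix (Fin n) (Fin n) L) *ᵥ v - v = inL p L n y ∧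
        f d - rv p L k y = pi0 p L ^ (k - a) • rv p L k z := by
    intro w
    by_cases hw : w ∈ W
    · obtain ⟨a, ha⟩ := hlft w hw
      exact ⟨a, fun _ => ha⟩
    · exact ⟨0, fun h => absurd h hw⟩
  choose aw haw using h1
  have hlat : ∀ w, ∀ d, ∀ v ∈ latS p (1 : GL (Fin n) L)
      (⊤ : Submodule (OO p L) (Fin n → OO p L)),
      ((((toL p L n).comp ρ).comp (r w)) d : Matrix (Fin n) (Fin n) L) *ᵥ v ∈
        latS p (1 : GL (Fin n) L) (⊤ : Submodule (OO p L) (Fin n → OO p L)) := by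
    intro w d v hv
    obtain ⟨u, rfl⟩ := (mem_lat _).1 hv
    exact (mem_lat _).2 ⟨_, (inL_act _ u).symm⟩
  have h2 : ∀ w, ∃ m : ℕ, w ∈ W → ∀ v ∈ fixL (((toL p L n).comp ρ).comp (r w))
      (latS p (1 : GL (Fin n) L) (⊤ : Submodule (OO p L) (Fin n → OO p L))),
      ((pi0 p L : OO p L) : L) ^ m • v ∈ latS p (1 : GL (Fin n) L)
        (⊤ : Submodule (OO p L) (Fin n → OO p L)) := by
    intro w
    by_cases hw : w ∈ W
    · obtain ⟨m, hm⟩ := (hfxl p L (D w) n (((toL p L n).comp ρ).comp (r w)) (hinv w hw) 1 ⊤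
        (fun _ => trivial) (hlat w)).2
      exact ⟨m, fun _ => hm⟩
    · exact ⟨0, fun h => absurd h hw⟩
  choose mw hmw using h2
  have hF : ∀ w ∈ W, (latS p (1 : GL (Fin n) L)
      (⊤ : Submodule (OO p L) (Fin n → OO p L))).relIndex
      (fixL (((toL p L n).comp ρ).comp (r w))
        (latS p (1 : GL (Fin n) L) (⊤ : Submodule (OO p L) (Fin n → OO p L)))) ≠ 0 := by
    intro w hw
    obtain ⟨e, he⟩ := (hfxl p L (D w) n (((toL p L n).comp ρ).comp (r w)) (hinv w hw) 1 ⊤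
      (fun _ => trivial) (hlat w)).1
    rw [he]
    exact pow_ne_zero _ Nat.card_pos.ne'
  set a : ℕ := ∑ w, aw w with ha
  set m : ℕ := ∑ w, mw w with hm
  have hale : ∀ w, aw w ≤ a := fun w => Finset.single_le_sum (f := aw) (fun _ _ => Nat.zero_le _)
    (Finset.mem_univ w)
  have hmle : ∀ w, mw w ≤ m := fun w => Finset.single_le_sum (f := mw) (fun _ _ => Nat.zero_le _)
    (Finset.mem_univ w)
  have haw' : ∀ k, a ≤ k → ∀ w ∈ W, ∀ f ∈ BKND.Z1 ((X k).ρ.comp (r w)),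
      ∃ v : Fin n → L, ∀ d, ∃ y z : Fin n → OO p L,
        (toL p L n (ρ (r w d)) : Matrix (Fin n) (Fin n) L) *ᵥ v - v = inL p L n y ∧
        f d - rv p L k y = pi0 p L ^ (k - a) • rv p L k z := by
    intro k hk w hw f hf
    obtain ⟨v, hv⟩ := haw w hw k ((hale w).trans hk) f hf
    refine ⟨v, fun d => ?_⟩
    obtain ⟨y, z, e1, e2⟩ := hv d
    refine ⟨y, pi0 p L ^ (a - aw w) • z, e1, ?_⟩
    have := hale w
    rw [e2, map_smul, smul_smul, ← pow_add, show k - a + (a - aw w) = k - aw w by omega]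
  have hmw' : ∀ w ∈ W, ∀ v ∈ fixL (((toL p L n).comp ρ).comp (r w))
      (latS p (1 : GL (Fin n) L) (⊤ : Submodule (OO p L) (Fin n → OO p L))),
      ((pi0 p L : OO p L) : L) ^ m • v ∈ latS p (1 : GL (Fin n) L)
        (⊤ : Submodule (OO p L) (Fin n → OO p L)) := by
    intro w hw v hv
    obtain ⟨u, hu⟩ := (mem_lat _).1 (hmw w hw v hv)
    have := hmle w
    refine (mem_lat _).2 ⟨pi0 p L ^ (m - mw w) • u, ?_⟩
    rw [inL_smul, hu, smul_smul, Subring.coe_pow, ← pow_add,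
      show m - mw w + mw w = m by omega]
  obtain ⟨K', hK', hc⟩ := stab (fun k => (Jk p L n W).relIndex
    ((Rk r ρ T W a k (X k)).map (AddMonoidHom.snd _ _))) (2 * a + 2 * m + 2) (fun k hk =>
      AddSubgroup.relIndex_le_of_le_right (map_snd_le r ρ T W a k (by omega) (X k) (X (k + 1))
        (hX k) (hX (k + 1))) (relIndex_ne r ρ T W a k (X k) hF))
  refine ⟨K', _, relIndex_ne r ρ T W a K' (X K') hF, fun k hk => ?_⟩
  rw [← hc k hk]
  rw [← map_fst r hr ρ T W a k (X k) (haw' k (by omega))]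
  exact relIndex_rel _ _ _ (fun x hx => mem_iff r ρ T W a k m (X k) (hX k) N hN (by omega)
    (by omega) hmw' x hx)

end BKT
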