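import Pool.Agent.Lib.MP_7c08ba_nt.T1.StNF
import Pool.Agent.Lib.MP_7c08ba_nt.Met.V.UNR

set_option autoImplicit false

/-!
Parity for general residual representations and arbitrary ramification at the primes which do not
split, module UNRN: cocycles which are unramified away from `p`. At the primes which split this is
the argument of the module UNR of `Met/V`; the embeddings above a prime which does not split are
conjugate under the local Galois group and the Galois group of `F`.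
-/

noncomputable section

namespace BKT

open BKGen BKMet Matrix MP_7c08ba.Crys
open BKMet.FUNR

namespace NFUNRN

variable {F : Type} [Field F] [NumberField F]

/-- the embeddings above a prime which does not split are conjugate -/
theorem exists_conj (hF : Module.finrank ℚ F = 2)
    (c : AlgebraicClosure F ≃+* AlgebraicClosure F) (σ : F ≃+* F) (hcs : BKOdd.ConjHyp c σ)
    (Ξ : Npl F) (k : Ξ.κ) (j : AlgebraicClosure F →+* PadicAlgCl (Ξ.m k)) :
    ∃ (t : GQ (Ξ.m k)) (h : GF F), ∀ z, j z = t (Ξ.j k (h z)) := by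
  rcases BKOdd.two_places hF (Ξ.j k) c σ hcs j with ⟨h, hh⟩ | ⟨h, hh⟩
  · exact ⟨1, h, fun z => by rw [hh]; rfl⟩
  · obtain ⟨t, ht⟩ : ∃ t, t ∉ Ξ.V k := by
      by_contra hc
      push Not at hc
      exact Ξ.ne k ((Subgroup.eq_top_iff' _).2 hc)
    rcases BKOdd.two_places hF (Ξ.j k) c σ hcs
      ((t : PadicAlgCl (Ξ.m k) →+* PadicAlgCl (Ξ.m k)).comp (Ξ.j k)) with ⟨g, hg⟩ | ⟨g, hg⟩
    · exfalso
      refine ht ((Ξ.mem k t).2 fun a => ?_)
      have h1 := hg (algebraMap F (AlgebraicClosure F) a)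
      rw [AlgEquiv.commutes] at h1
      exact h1
    · refine ⟨t, g⁻¹ * h, fun z => ?_⟩
      have h1 := hg ((g⁻¹ * h) z)
      have h2 : g ((g⁻¹ * h) z) = h z := by
        rw [← AlgEquiv.mul_apply, mul_inv_cancel_left]
      rw [h2, ← hh] at h1
      exact h1.symm

/-- the cocycle on the inertia group of a place which does not split -/
theorem local_key' {L : Type} [NormedField L] {n : ℕ}
    {V : GF F →* GL (Fin n) L} {x : GF F → Fin n → L}
    (hx : x ∈ BKOdd.Z1 V) (Ξ : Npl F) (k : Ξ.κ) (j : AlgebraicClosure F →+* PadicAlgCl (Ξ.m k))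
    (hB : BKOdd.Z1 (V.comp (Ξ.r k)) ≤ BKOdd.B1 (V.comp (Ξ.r k)))
    (t₀ : GQ (Ξ.m k)) (h : GF F) (hj : ∀ z, j z = t₀ (Ξ.j k (h z))) :
    ∃ v : Fin n → L, ∀ g ∈ Inert F (AlgebraicClosure F) j,
      x g = (V g : Matrix (Fin n) (Fin n) L) *ᵥ v - v := by
  have h1 : (fun t => x (Ξ.r k t)) ∈ BKOdd.Z1 (V.comp (Ξ.r k)) := by
    refine ⟨hx.1.comp (Ξ.cont k), fun s t => ?_⟩
    change x (Ξ.r k (s * t)) = x (Ξ.r k s) +
      (V (Ξ.r k s) : Matrix (Fin n) (Fin n) L) *ᵥ x (Ξ.r k t)
    rw [map_mul, hx.2]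
  obtain ⟨w, hw⟩ := hB h1
  have hw' : ∀ t, x (Ξ.r k t) = (V (Ξ.r k t) : Matrix (Fin n) (Fin n) L) *ᵥ w - w := fun t =>
    (congrFun hw t).symm
  refine ⟨(V h⁻¹ : Matrix (Fin n) (Fin n) L) *ᵥ (w + x h), fun g hg => ?_⟩
  obtain ⟨t, ht⟩ := BKGlob.exists_cpt j (dec_of_Inert j hg)
  have hinv : ∀ y, t₀⁻¹ (t₀ y) = y := fun y => by
    rw [← AlgEquiv.mul_apply, inv_mul_cancel, AlgEquiv.one_apply]
  have h4 : ∀ z, Ξ.j k (h (g z)) = (t₀⁻¹ * t * t₀) (Ξ.j k (h z)) := by
    intro z
    have h5 := ht z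
    rw [hj, hj] at h5
    rw [AlgEquiv.mul_apply, AlgEquiv.mul_apply, ← h5, hinv]
  have hm : t₀⁻¹ * t * t₀ ∈ Ξ.V k := by
    refine (Ξ.mem k _).2 fun a => ?_
    have h5 := h4 (algebraMap F (AlgebraicClosure F) a)
    rw [AlgEquiv.commutes, AlgEquiv.commutes] at h5
    exact h5.symm
  have h2 : h * g = Ξ.r k ⟨t₀⁻¹ * t * t₀, hm⟩ * h := by
    ext z
    apply (Ξ.j k).injective
    rw [AlgEquiv.mul_apply, AlgEquiv.mul_apply, Ξ.spec]
    exact h4 z
  have h3 : g = h⁻¹ * Ξ.r k ⟨t₀⁻¹ * t * t₀, hm⟩ * h := by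
    rw [mul_assoc, ← h2, inv_mul_cancel_left]
  rw [h3]
  exact coc_conj hx (hw' _)

end NFUNRN

open NFUNRN in
/-- Module UNRN: cocycles which are unramified away from `p`. -/
theorem stUnrN0 : StUnrN := by
  intro p _ F _ _ hF c σ hcs L _ _ _ n V hV Λ Ξ hp _ U hUn hUo hur hloc hloc' x hx
  have hUi : U.index ≠ 0 := by
    have : Finite (GF F ⧸ U) := U.quotient_finite_of_isOpen hUo
    exact Subgroup.index_ne_zero_of_finite
  constructor
  · intro hU
    have h1 : BKV.InertAwayU F (Λ.P ∪ Ξ.P) U ⊆ (kerC hx : Set (GF F)) := by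
      rintro g ⟨l, hl, j, hlP, hg, hgU⟩
      have hlp : l ≠ p := by
        rintro rfl
        exact hlP (Or.inl hp)
      have h2 := hur l hlP j g hg hgU
      obtain ⟨v, hv⟩ := hU l hlp j
      refine ⟨h2, ?_⟩
      rw [hv g hg, h2, Units.val_one, one_mulVec, sub_self]
    have hn := kerC_normal hx
    have h2 : BKV.RU F (Λ.P ∪ Ξ.P) U ≤ kerC hx :=
      Subgroup.topologicalClosure_minimal _ (Subgroup.normalClosure_le_normal h1)
        (kerC_closed hV hx)
    intro g hg
    exact (h2 hg).2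
  · intro hR l _ hlp j
    by_cases hl : l ∈ Λ.P
    · obtain ⟨i, rfl⟩ := hl
      obtain ⟨hB1, hB2⟩ := hloc i hlp
      rcases BKOdd.two_places hF (Λ.j i) c σ hcs j with ⟨h, hh⟩ | ⟨h, hh⟩
      · exact local_key hx (Λ.j i) j (Λ.r i) (Λ.cont i) (Λ.spec i) hB1 h hh
      · have hcs' : ∀ z, c.symm z = c z := fun z => by
          rw [RingEquiv.symm_apply_eq, hcs.hc]
        refine local_key hx ((Λ.j i).comp (c : AlgebraicClosure F →+* AlgebraicClosure F)) j
          ((BKOdd.conj c σ hcs.h).comp (Λ.r i)) ?_ ?_ hB2 h hh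
        · exact (BKOdd.Conj.continuous_conjO c σ hcs.h).comp (Λ.cont i)
        · intro t z
          change Λ.j i (c (c (Λ.r i t (c.symm z)))) = t (Λ.j i (c z))
          rw [hcs.hc, hcs', Λ.spec]
    · by_cases hl' : l ∈ Ξ.P
      · obtain ⟨k, rfl⟩ := hl'
        obtain ⟨t, h, hj⟩ := exists_conj hF c σ hcs Ξ k j
        exact local_key' hx Ξ k j (hloc' k) t h hj
      · let I : Subgroup (GF F) := Pool.Agent.Lib.MP_7c08ba_nt.inert F (Genus.primeOf j)
        have hI : ∀ g : GF F, g ∈ Inert F (AlgebraicClosure F) j → g ∈ I := fun g hg =>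
          BKGlob.inert_of_Inert j hg
        have hI' : ∀ g : GF F, g ∈ I → g ∈ Inert F (AlgebraicClosure F) j := fun g hg =>
          BKGlob.Inert_of_inert j hg
        let N : Subgroup I := U.subgroupOf I
        have hNi : N.index ≠ 0 := fun h => hUi (by
          have h1 : N.index ∣ U.index := Subgroup.relIndex_dvd_index_of_normal U I
          rw [h] at h1
          exact zero_dvd_iff.1 h1)
        have hNf : Finite (I ⧸ N) := Nat.finite_of_card_ne_zero hNi
        have hNn : N.Normal := inferInstance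
        have hL : CharZero L := charZero_of_injective_algebraMap (algebraMap ℚ_[p] L).injective
        obtain ⟨v, hv⟩ := BKV.UNR.coc_fin N hNf (V.comp I.subtype) (fun g => x (g : GF F))
          (fun g h => hx.2 g h) (fun g hg => hR (g : GF F) (Subgroup.le_topologicalClosure _
            (Subgroup.subset_normalClosure ⟨l, inferInstance, j,
              fun h => h.elim hl hl', hI' _ g.2, hg⟩)))
        exact ⟨v, fun g hg => hv ⟨g, hI g hg⟩⟩

/-- Module UNRN, with the input of the plan (which is not needed). -/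
theorem stUnrN (_h : StMix) : StUnrN := stUnrN0

end BKT
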