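import Pool.Agent.Lib.MP_7c08ba_nt.T1.StNF
import Pool.Agent.Lib.MP_7c08ba_nt.Met.FZID

set_option autoImplicit false

/-!
Parity for general residual representations and arbitrary ramification at the primes which do not
split, module ZIDN: the spaces with conditions in terms of cocycles.
-/

noncomputable section

namespace BKT

open BKMet
open BKPar (Loc1 Loc2)
open BKND (Sm)
open Matrix

/-- Module ZIDN: the spaces with conditions in terms of cocycles. -/
theorem stZidN : StZidN := by
  intro L _ ι κ G _ _ _ D E _ _ _ _ r q hr hq c hc hcc n V hV hn1 hn2 hn3 hn4 i₀ i₁ hi hB hBk hfd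
  have rf : ∀ i, rr r c (i, false) = r i := fun i => if_neg (by simp)
  have rt : ∀ i, rr r c (i, true) = c.comp (r i) := fun i => if_pos rfl
  have hVcc : ∀ i, (V.comp c).comp (c.comp (r i)) = V.comp (r i) := by
    intro i
    ext1 d
    change V (c (c (r i d))) = V (r i d)
    rw [hcc]
  -- one place
  have hW1 : ∀ x, x ∈ BKOdd.Z1 V ↔ x ∈ BKOdd.Z1 V ∧
      ∀ w ∈ ({Sum.inl (i₁, false)} : Set ((ι × Bool) ⊕ κ)),
      (fun d => x (rS r q c w d)) ∈ BKOdd.B1 (V.comp (rS r q c w)) := by
    intro x
    refine ⟨fun hx => ⟨hx, ?_⟩, fun h => h.1⟩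
    rintro w rfl
    change (fun d => x (rr r c (i₁, false) d)) ∈ BKOdd.B1 (V.comp (rr r c (i₁, false)))
    rw [rf]
    exact (hB i₁ hi).1 (FZID.res (hr i₁) hx)
  obtain ⟨e1⟩ := FZID.equiv V (rS r q c) {Sum.inl (i₁, false)} (by
    rintro w rfl
    change NoInv (V.comp (rr r c (i₁, false)))
    rw [rf]
    exact hn1 i₁) (BKOdd.Z1 V) hW1
  refine ⟨?_, e1.finrank_eq, fun W hW => ?_, fun W hW => ?_⟩
  · exact LinearEquiv.finiteDimensional e1
  · -- the complement, for the conjugate
    let e : (G → Fin n → L) ≃ₗ[L] (G → Fin n → L) :=
      LinearEquiv.funCongrLeft L (Fin n → L) ⟨c, c, hcc, hcc⟩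
    have he : ∀ f g, e f g = f (c g) := fun f g => rfl
    have hZ : ∀ f, e f ∈ BKOdd.Z1 V ↔ f ∈ BKOdd.Z1 (V.comp c) := by
      intro f
      constructor
      · intro h
        have h1 : (fun g => e f (c g)) = f := by
          funext g
          rw [he, hcc]
        have h2 := FZID.res hc h
        rwa [h1] at h2
      · rintro ⟨h1, h2⟩
        refine ⟨h1.comp hc, fun g h => ?_⟩
        rw [he, he, he, map_mul, h2]
        change _ + (V (c (c g)) : Matrix (Fin n) (Fin n) L) *ᵥ _ = _
        rw [hcc]
    have hfr : Module.finrank L (W.comap (e : (G → Fin n → L) →ₗ[L] (G → Fin n → L))) =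
        Module.finrank L W := by
      have h1 : (W.comap (e : (G → Fin n → L) →ₗ[L] (G → Fin n → L))) =
          W.map (e.symm : (G → Fin n → L) →ₗ[L] (G → Fin n → L)) :=
        Submodule.comap_equiv_eq_map_symm e W
      rw [h1]
      exact LinearEquiv.finrank_map_eq e.symm W
    rw [← hfr]
    refine (Classical.choice (FZID.equiv (V.comp c) (rS r q c) {Sum.inl (i₁, false)}ᶜ
      ?_ _ ?_)).finrank_eq
    · rintro (⟨i, b⟩ | k) -
      · cases b
        · change NoInv ((V.comp c).comp (rr r c (i, false)))
          rw [rf]
          exact hn2 i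
        · change NoInv ((V.comp c).comp (rr r c (i, true)))
          rw [rt, hVcc]
          exact hn1 i
      · exact hn4 k
    · intro f
      rw [Submodule.mem_comap]
      change e f ∈ W ↔ _
      rw [hW, hZ]
      have t0 : (fun d => e f (c (r i₀ d))) = fun d => f (r i₀ d) := by
        funext d
        rw [he, hcc]
      rw [t0]
      constructor
      · rintro ⟨h1, h2, h3⟩
        refine ⟨h1, ?_⟩
        rintro (⟨i, b⟩ | k) -
        · by_cases hii : i = i₀
          · subst hii
            cases b
            · change (fun d => f (rr r c (i, false) d)) ∈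
                BKOdd.B1 ((V.comp c).comp (rr r c (i, false)))
              rw [rf]
              exact h3
            · change (fun d => f (rr r c (i, true) d)) ∈
                BKOdd.B1 ((V.comp c).comp (rr r c (i, true)))
              rw [rt, hVcc]
              exact h2
          · cases b
            · change (fun d => f (rr r c (i, false) d)) ∈
                BKOdd.B1 ((V.comp c).comp (rr r c (i, false)))
              rw [rf]
              exact (hB i hii).2 (FZID.res (hr i) h1)
            · change (fun d => f (rr r c (i, true) d)) ∈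
                BKOdd.B1 ((V.comp c).comp (rr r c (i, true)))
              rw [rt, hVcc]
              exact (hB i hii).1 (FZID.res (hr i) ((hZ f).2 h1))
        · exact (hBk k).2 (FZID.res (hq k) h1)
      · rintro ⟨h1, h2⟩
        refine ⟨h1, ?_, ?_⟩
        · have h3 : (fun d => f (rr r c (i₀, true) d)) ∈
              BKOdd.B1 ((V.comp c).comp (rr r c (i₀, true))) :=
            h2 (Sum.inl (i₀, true)) (by
              intro h
              have h' : (i₀, true) = (i₁, false) := Sum.inl_injective h
              exact absurd (congrArg Prod.snd h') (by simp))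
          rw [rt, hVcc] at h3
          exact h3
        · have h3 : (fun d => f (rr r c (i₀, false) d)) ∈
              BKOdd.B1 ((V.comp c).comp (rr r c (i₀, false))) :=
            h2 (Sum.inl (i₀, false)) (by
              intro h
              have h' : (i₀, false) = (i₁, false) := Sum.inl_injective h
              exact hi (congrArg Prod.fst h').symm)
          rw [rf] at h3
          exact h3
  · refine (Classical.choice (FZID.equiv V (rS r q c) (TF ι κ) ?_ W ?_)).finrank_eq
    · rintro w ⟨i, rfl⟩
      change NoInv (V.comp (rr r c (i, false)))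
      rw [rf]
      exact hn1 i
    · intro x
      rw [hW]
      constructor
      · rintro ⟨h1, h2⟩
        refine ⟨h1, ?_⟩
        rintro w ⟨i, rfl⟩
        change (fun d => x (rr r c (i, false) d)) ∈ BKOdd.B1 (V.comp (rr r c (i, false)))
        rw [rf]
        by_cases hii : i = i₀
        · subst hii
          exact h2
        · exact (hB i hii).1 (FZID.res (hr i) h1)
      · rintro ⟨h1, h2⟩
        have h3 : (fun d => x (rr r c (i₀, false) d)) ∈
            BKOdd.B1 (V.comp (rr r c (i₀, false))) := h2 (Sum.inl (i₀, false)) ⟨i₀, rfl⟩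
        rw [rf] at h3
        exact ⟨h1, h3⟩

end BKT
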