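import Pool.Agent.Lib.MP_7c08ba_nt.T1.StNP
import Pool.Agent.Lib.MP_7c08ba_nt.Met.XSWAP

set_option autoImplicit false

/-!
Parity with arbitrary ramification, module ADJ: the pairing of Cassels and Tate and the restriction
of the set of conditions.
-/

noncomputable section

namespace BKT

open BKPar (Loc1 Loc2)
open BKND (Sm)
open BKMet

namespace NPADJ

open BKMet.XSWAP

section Alg

variable {R : Type} [CommRing R] {G : Type} [Group G] [TopologicalSpace G] {A : Type}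
  [AddCommGroup A] {α : G →* AddMonoid.End A} {M M' : Type} [AddCommGroup M] [Module R M]
  [AddCommGroup M'] [Module R M'] (X : Pair R α M M')

/-- the local computation at the places which are in `T'` and not in `T` -/
theorem loc_mid (N : Submodule R M) (z : G → M) (e : G → M') (m : M) (f : M') (g h : G)
    (hst : ∀ g, ∀ m' ∈ X.perp N, X.ρ' g m' ∈ X.perp N)
    (hz : z g - d0 X.ρ m g ∈ N) (he : e h - d0 X.ρ' f h ∈ X.perp N) :
    X.b (d1 X.ρ z g h) (X.ρ' (g * h) f) - X.b (z g - d0 X.ρ m g) (X.ρ' g (e h)) =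
      α g (X.b (z h - d0 X.ρ m h) (X.ρ' h f)) -
        X.b (z (g * h) - d0 X.ρ m (g * h)) (X.ρ' (g * h) f) +
        X.b (z g - d0 X.ρ m g) (X.ρ' g f) := by
  have v : X.b (z g - d0 X.ρ m g) (X.ρ' g (e h - d0 X.ρ' f h)) = 0 := hst _ _ he _ hz
  rw [← X.eqv]
  simp only [d0, d1, map_add, map_sub, AddMonoidHom.sub_apply, AddMonoidHom.add_apply,
    act_mul] at v ⊢
  linear_combination (norm := abel) -v

end Alg

end NPADJ

open BKMet.XSWAP NPADJ in
theorem stAdj : StAdj := by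
  classical
  intro R _ S _ G _ _ _ _ D _ _ A E _ _ Γ M M' _ _ _ _ X T T' hT N hN
  have hr1 : ∀ (U : Set S) (x : (G → M) × (S → M)) (w : S), w ∈ U →
      (rsz (R := R) U x).2 w = x.2 w := by
    intro U x w hw
    change (if w ∈ U then x.2 w else 0) = x.2 w
    exact if_pos hw
  have hr0 : ∀ (U : Set S) (x : (G → M) × (S → M)) (w : S), w ∉ U →
      (rsz (R := R) U x).2 w = 0 := by
    intro U x w hw
    change (if w ∈ U then x.2 w else 0) = 0
    exact if_neg hw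
  have hr1' : ∀ (U : Set S) (x : (G → M') × (S → M')) (w : S), w ∈ U →
      (rsz (R := R) U x).2 w = x.2 w := by
    intro U x w hw
    change (if w ∈ U then x.2 w else 0) = x.2 w
    exact if_pos hw
  refine ⟨?_, ?_, ?_⟩
  · rintro x ⟨hx, hx1, hx2, hx3, hx4⟩
    refine ⟨hx, hx1, hx2, fun w hw => ?_, fun w hw => hr0 _ _ _ hw⟩
    rw [hr1 T x w hw]
    exact hx3 w (hT hw)
  · rintro x ⟨hx, ⟨n, hn, hn1, hn2⟩, hx4⟩
    refine ⟨hx, ⟨n, hn, hn1, fun w hw => ?_⟩, fun w hw => hr0 _ _ _ hw⟩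
    rw [hr1 T x w hw]
    exact hn2 w (hT hw)
  intro x hx y hy
  obtain ⟨z, m⟩ := x
  obtain ⟨e, f⟩ := y
  obtain ⟨hz, -, hz1, hz2, hz3⟩ := hx
  obtain ⟨he, -, he1, he2, he3⟩ := hy
  change ∀ g h, d1 X.ρ' e g h ∈ X.perp N at he1
  change ∀ w ∈ Tᶜ, f w ∈ (⊤ : Submodule R M') ∧
    ∀ d, e (Γ.r w d) - d0 X.ρ' (f w) (Γ.r w d) ∈ X.perp N at he2
  change ∀ w ∉ Tᶜ, f w = 0 at he3
  change Loc1 z at hz
  change Loc1 e at he
  change ∀ g h, d1 X.ρ z g h ∈ N at hz1
  change ∀ w ∈ T', m w ∈ (⊤ : Submodule R M) ∧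
    ∀ d, z (Γ.r w d) - d0 X.ρ (m w) (Γ.r w d) ∈ N at hz2
  have hst : ∀ g, ∀ m' ∈ X.perp N, X.ρ' g m' ∈ X.perp N := by
    intro g m' hm' n hn
    have e1 := X.eqv g (X.ρ g⁻¹ n) m'
    rw [← act_mul, mul_inv_cancel, act_one, hm' _ (hN _ _ hn), map_zero] at e1
    exact e1
  have hact : Loc2 fun g h => X.ρ' g (e h) :=
    BKND.Loc2.map2 (loc2_fst (loc1_act X.sm')) (loc2_snd he) (fun a b => a b)
  have hactz : Loc2 fun g h => X.ρ g (z h) :=
    BKND.Loc2.map2 (loc2_fst (loc1_act X.sm)) (loc2_snd hz) (fun a b => a b)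
  have hd1z : Loc2 (d1 X.ρ z) :=
    BKND.Loc2.map2 (BKND.Loc2.map2 hactz (loc2_mul hz) (· - ·)) (loc2_fst hz) (· + ·)
  set β : ∀ w, D w → D w → A := (Xi Γ X T (rsz (R := R) T (z, m)) (e, f)).2 -
    (Xi Γ X T' (z, m) (rsz (R := R) T'ᶜ (e, f))).2 with hβ
  have hz0 : ∀ {w : S}, Loc2 (0 : D w → D w → A) := ⟨⊤, isOpen_univ, fun _ _ _ _ _ _ => rfl⟩
  have hB0 : ∀ w, (0 : D w → D w → A) ∈ BKND.B2 (Γ.α.comp (Γ.r w)) := by
    intro w
    refine ⟨fun _ => 0, BKND.Loc1.const 0, fun d d' => ?_⟩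
    simp
  have key : ∀ w, β w - pb2 (Γ.r w) (0 : G → G → A) ∈ BKND.Z2 (Γ.α.comp (Γ.r w)) ∧
      β w - pb2 (Γ.r w) (0 : G → G → A) ∈ BKND.B2 (Γ.α.comp (Γ.r w)) := by
    intro w
    have h0 : β w - pb2 (Γ.r w) (0 : G → G → A) = β w := by
      funext d d'
      exact sub_zero _
    rw [h0]
    by_cases hw : w ∈ T
    · have hβw : β w = 0 := by
        funext d d'
        simp only [hβ, Pi.sub_apply, Xi, if_pos hw, if_pos (hT hw), hr1 T (z, m) w hw]
        exact sub_self _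
      rw [hβw]
      exact ⟨b2_le_z2 _ _ hz0 (hB0 w), hB0 w⟩
    · by_cases hw' : w ∈ T'
      · have hβw : β w = pb2 (Γ.r w) fun g h => X.b (d1 X.ρ z g h) (X.ρ' (g * h) (f w)) -
            X.b (z g - d0 X.ρ (m w) g) (X.ρ' g (e h)) := by
          funext d d'
          simp only [hβ, Pi.sub_apply, Xi, if_neg hw, if_pos hw', cup11, cup20, pb1, pb2,
            MonoidHom.comp_apply, map_mul]
          rfl
        have hB : β w ∈ BKND.B2 (Γ.α.comp (Γ.r w)) := by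
          refine ⟨fun d => X.b (z (Γ.r w d) - d0 X.ρ (m w) (Γ.r w d)) (X.ρ' (Γ.r w d) (f w)),
            BKND.Loc1.map2 (BKND.Loc1.map2 (loc1_pb1 (Γ.cont w) hz)
              (BKND.Loc1.map (loc1_pb1 (Γ.cont w) (loc1_act X.sm)) (fun a => a (m w) - m w))
              (· - ·)) (BKND.Loc1.map (loc1_pb1 (Γ.cont w) (loc1_act X.sm'))
              (fun a => a (f w))) (fun a b => X.b a b), fun d d' => ?_⟩
          have e1 := loc_mid X N z e (m w) (f w) (Γ.r w d) (Γ.r w d') hst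
            ((hz2 w hw').2 d) ((he2 w hw).2 d')
          simp only [hβw, pb2, MonoidHom.comp_apply, (Γ.r w).map_mul]
          exact e1
        refine ⟨b2_le_z2 _ _ ?_ hB, hB⟩
        rw [hβw]
        exact loc2_pb2 (Γ.cont w) (BKND.Loc2.map2 (BKND.Loc2.map2
          hd1z (loc2_mul (BKND.Loc1.map (loc1_act X.sm') (fun a => a (f w))))
            (fun a b => X.b a b))
          (BKND.Loc2.map2 (loc2_fst (BKND.Loc1.map2 hz (BKND.Loc1.map (loc1_act X.sm)
            (fun a => a (m w) - m w)) (· - ·))) hact (fun a b => X.b a b)) (· - ·))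
      · have hβw : β w = 0 := by
          have e2 : (rsz (R := R) T'ᶜ (e, f)).2 w = f w := hr1' T'ᶜ (e, f) w hw'
          funext d d'
          simp only [hβ, Pi.sub_apply, Xi, if_neg hw, if_neg hw', e2]
          exact sub_self _
        rw [hβw]
        exact ⟨b2_le_z2 _ _ hz0 (hB0 w), hB0 w⟩
  have e1 : Xi Γ X T (rsz (R := R) T (z, m)) (e, f) -
      Xi Γ X T' (z, m) (rsz (R := R) T'ᶜ (e, f)) = (d2 Γ.α (0 : G → G → A), β) := by
    refine Prod.ext ?_ rfl
    funext g h k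
    have e3 : d2 Γ.α (0 : G → G → A) g h k = 0 := by
      simp [d2]
    exact (sub_self _).trans e3.symm
  have hε : Loc2 (0 : G → G → A) := ⟨⊤, isOpen_univ, fun _ _ _ _ _ _ => rfl⟩
  have e2 := Γ.tr_eq (0 : G → G → A) hε β (fun w => (key w).1)
  rw [← e1, map_sub, Finset.sum_eq_zero
    (fun w _ => (Γ.inv_eq w _ (key w).1).2 (key w).2), sub_eq_zero] at e2
  exact e2

end BKT
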