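import Pool.Agent.Lib.MP_7c08ba_nt.T1.StNP
import Pool.Agent.Lib.MP_7c08ba_nt.Met.XALT
import Pool.Agent.Lib.MP_7c08ba_nt.Met.XPERP
import Pool.Agent.Lib.MP_7c08ba_nt.Met.XHOMS
import Pool.Agent.Lib.MP_7c08ba_nt.Met.XEXT

set_option autoImplicit false

/-!
Parity with arbitrary ramification at the nonsplit primes, part NP, module ALN: the classes of
`H¹_{T'}(M / N)` whose images in `H¹_T(M / N)` come from `H¹_T(M)`.
-/

noncomputable section

namespace BKT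

open BKPar (Loc1 Loc2)
open BKND (Sm)
open BKMet

namespace NPALN

section Two

variable {p : ℕ} [Fact p.Prime]

theorem two_iff (hp : p ≠ 2) (y : QZ p) : y + y = 0 ↔ y = 0 := by
  constructor
  · intro h
    exact XALT.two_tor hp (eq_neg_of_add_eq_zero_left h)
  · intro h
    rw [h, add_zero]

/-- the local axioms for twice the invariant -/
theorem locG_two (hp : p ≠ 2) {D : Type} [Group D] [TopologicalSpace D] {χ : D →* ℤ_[p]ˣ}
    {inv : (D → D → QZ p) →+ QZ p} {δ : ℕ} (h : LocG p χ inv δ) : LocG p χ (inv + inv) δ where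
  inv_eq := fun z hz => by
    rw [AddMonoidHom.add_apply, two_iff hp]
    exact h.inv_eq z hz
  one := fun M M' _ _ _ X f hf hf' => h.one M M' X f hf fun f' hf'' => by
    have := hf' f' hf''
    rwa [AddMonoidHom.add_apply, two_iff hp] at this
  two := fun M M' _ _ _ X z hz hz' => h.two M M' X z hz fun y hy => by
    have := hz' y hy
    rwa [AddMonoidHom.add_apply, two_iff hp] at this
  card := h.card

variable {S : Type} [Fintype S] {G : Type} [Group G] [TopologicalSpace G] {D : S → Type}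
  [∀ w, Group (D w)] [∀ w, TopologicalSpace (D w)] (Γ : Glo S G D (QZ p) (QZ p))

/-- twice the invariants, and the sum of two traces -/
def dbl (hp : p ≠ 2) (tr' : ((G → G → G → QZ p) × (∀ w, D w → D w → QZ p)) →+ QZ p)
    (htr : ∀ ε : G → G → QZ p, Loc2 ε → ∀ β : ∀ w, D w → D w → QZ p,
      (∀ w, β w - pb2 (Γ.r w) ε ∈ BKND.Z2 (Γ.α.comp (Γ.r w))) →
        tr' (d2 Γ.α ε, β) = ∑ w, Γ.inv w (β w - pb2 (Γ.r w) ε)) : Glo S G D (QZ p) (QZ p) where
  r := Γ.r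
  cont := Γ.cont
  α := Γ.α
  sm := Γ.sm
  inv := fun w => Γ.inv w + Γ.inv w
  inv_eq := fun w z hz => by
    rw [AddMonoidHom.add_apply, two_iff hp]
    exact Γ.inv_eq w z hz
  tr := Γ.tr + tr'
  tr_eq := fun ε hε β hβ => by
    rw [AddMonoidHom.add_apply, Γ.tr_eq ε hε β hβ, htr ε hε β hβ, ← Finset.sum_add_distrib]
    rfl

theorem sitY_dbl (hp : p ≠ 2) (tr' : ((G → G → G → QZ p) × (∀ w, D w → D w → QZ p)) →+ QZ p)
    (htr : ∀ ε : G → G → QZ p, Loc2 ε → ∀ β : ∀ w, D w → D w → QZ p,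
      (∀ w, β w - pb2 (Γ.r w) ε ∈ BKND.Z2 (Γ.α.comp (Γ.r w))) →
        tr' (d2 Γ.α ε, β) = ∑ w, Γ.inv w (β w - pb2 (Γ.r w) ε)) {χ : G →* ℤ_[p]ˣ} {δ : S → ℕ}
    {U : Subgroup G} (h : SitY p Γ χ δ U) : SitY p (dbl Γ hp tr' htr) χ δ U where
  ax := ⟨h.ax.act, fun w => locG_two hp (h.ax.loc w), h.ax.sum⟩
  cont := h.cont
  normal := h.normal
  open' := h.open'
  fix := h.fix
  glob := h.glob

end Two

section Sets

variable {R : Type} [CommRing R] {S : Type} {G : Type} [Group G] [TopologicalSpace G] {A : Type}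
  [AddCommGroup A] {α : G →* AddMonoid.End A} {M M' : Type} [AddCommGroup M] [Module R M]
  [AddCommGroup M'] [Module R M']

theorem sT_compl {σ : S → S} (hσ : ∀ w, σ (σ w) = w) (T : Set S) : sT σ (sT σ T)ᶜ = Tᶜ := by
  ext w
  change ¬ σ (σ w) ∈ T ↔ ¬ w ∈ T
  rw [hσ]

theorem cjz_rsz (X : Pair R α M M') (c : G →* G) (σ : S → S) (h : S → G) (T : Set S)
    (hT : T ⊆ (sT σ T)ᶜ) (x : (G → M) × (S → M)) :
    cjz X c σ h T (rsz (R := R) T x) = rsz (R := R) (sT σ T)ᶜᶜ (cjz X c σ h (sT σ T)ᶜ x) := by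
  refine Prod.ext rfl (funext fun w => ?_)
  classical
  by_cases hw : σ w ∈ T
  · have hw1 : σ w ∈ (sT σ T)ᶜ := hT hw
    have hw2 : w ∈ (sT σ T)ᶜᶜ := by
      rw [compl_compl]
      exact hw
    simp only [cjz, rsz, LinearMap.coe_mk, AddHom.coe_mk, if_pos hw, if_pos hw1, if_pos hw2]
  · have hw2 : w ∉ (sT σ T)ᶜᶜ := by
      rw [compl_compl]
      exact hw
    simp only [cjz, rsz, LinearMap.coe_mk, AddHom.coe_mk, if_neg hw, if_neg hw2]

end Sets

end NPALN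

open NPALN in
/-- Module ALN. -/
theorem stAln (h1 : StAdj) (h2 : StCjz) (h3 : StCnp) (h4 : StSwap) (h5 : StCT) (h6 : StYR)
    (h7 : StAlt) : StAln := by
  intro R _ _ _ p _ hp _ S _ G _ _ _ _ D _ _ _ _ Γ c σ τ h hC χ δ U hG T hT hTσ M _ _ _ X hX hb
    hU N hN hNp
  have hperp : StPerp := stPerp (stHoms stExt)
  obtain ⟨-, -, p3, p4, p5, -⟩ := hperp R p G Γ.α M M X
  set T' : Set S := (sT σ T)ᶜ with hT'
  have hTT' : T ⊆ T' := fun w hw => hTσ w hw
  have hTc : Tᶜ.Nonempty := by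
    obtain ⟨w, hw⟩ := hT
    exact ⟨σ w, hTσ w hw⟩
  have hs1 : sT σ T' = Tᶜ := sT_compl hC.inv T
  have hs2 : T'ᶜ = sT σ T := compl_compl _
  have hbot : X.Stable ⊥ := by
    intro g m hm
    rw [Submodule.mem_bot] at hm ⊢
    rw [hm, map_zero]
  have htop : X.Stable ⊤ := fun _ _ _ => Submodule.mem_top
  -- the conjugate pair
  have hY1 : X.flip.ρ = X.ρ.comp c := hX
  have hY2 : X.flip.ρ' = X.ρ'.comp c := by
    rw [hX]
    ext1 g
    change X.ρ g = X.ρ (c (c g))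
    rw [hC.invol]
  have hY3 : ∀ m m', X.flip.b m m' = X.b m m' := fun m m' => (hb m m').symm
  have hNf : X.flip.Stable N := by
    have := p5 N hN
    rwa [hNp] at this
  have hNpf : X.flip.perp N = N := by
    have := (hperp R p G Γ.α M M X).1 N
    rwa [hNp] at this
  obtain ⟨ja, js, jj⟩ := h2 R p S G D Γ c σ τ h hC M M X X.flip hY1
  obtain ⟨j1, j2, j3, -, j5, -⟩ := jj T' N ⊤ hN htop le_top
  rw [hs1] at j1 j2 j3 j5
  obtain ⟨k1, -, k3, -, -, -⟩ := jj T N ⊤ hN htop le_top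
  obtain ⟨tr', htr, hCN⟩ := h3 p S G D Γ c σ τ h hC
  have hCN' := hCN R M M X X.flip hY1 hY2 hY3 T N hN
  rw [hNp] at hCN'
  obtain ⟨a1, a2, a3⟩ := h1 R S G D (QZ p) (QZ p) Γ M M X T T' hTT' N hN
  rw [hNp] at a3
  set Z : Submodule R ((G → M) × (S → M)) := X.Zr Γ.r T' N ⊤ with hZ
  set B0 : Submodule R ((G → M) × (S → M)) := X.Zr Γ.r T ⊥ ⊤ ⊔ X.Br T N ⊤ with hB0
  set Γ2 : Glo S G D (QZ p) (QZ p) := dbl Γ hp tr' htr with hΓ2
  have hG2 : SitY p Γ2 χ δ U := sitY_dbl Γ hp tr' htr hG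
  let X2 : Pair R Γ2.α M M := X
  have hCT2 : ∀ x y, CT Γ2 X2 T x y = CT Γ X T x y + tr' (Xi Γ X T x y) := fun _ _ => rfl
  obtain ⟨c1, c2, c3, c4⟩ := h5 R S G D (QZ p) (QZ p) Γ2 M M X2 T
  -- the identity for the second trace
  have hid : ∀ x ∈ Z, ∀ y ∈ Z, tr' (Xi Γ X T (rsz (R := R) T x) (cjz X c σ h T' y)) =
      - CT Γ X T (rsz (R := R) T y) (cjz X c σ h T' x) := by
    intro x hx y hy
    have e1 := hCN' (rsz (R := R) T x) (a1 x hx) (cjz X c σ h T' y) (j1 y hy)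
    rw [e1]
    congr 1
    have hu : cjz X c σ h T (rsz (R := R) T x) ∈ X.flip.Zr Γ.r (sT σ T) N ⊤ := k1 _ (a1 x hx)
    have hbr := j3 y hy
    obtain ⟨d1', d2', -, d4⟩ := h5 R S G D (QZ p) (QZ p) Γ M M X.flip (sT σ T)
    obtain ⟨-, d5, -⟩ := d4 N hNf
    have e2 : cjz X.flip c σ h Tᶜ (cjz X c σ h T' y) =
        y + (cjz X.flip c σ h Tᶜ (cjz X c σ h T' y) - y) := by abel
    have e4 : CT Γ X.flip (sT σ T) (cjz X c σ h T (rsz (R := R) T x))
        (cjz X.flip c σ h Tᶜ (cjz X c σ h T' y) - y) = 0 :=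
      d5 _ hu _ (by rw [hNpf]; exact hbr)
    rw [e2, d2', e4, add_zero]
    have e3 := h4 R S G D (QZ p) (QZ p) Γ M M X.flip (sT σ T) N hNf _ hu y
      (by rw [hNpf]; exact hy)
    rw [e3]
    change CT Γ X T' y (cjz X c σ h T (rsz (R := R) T x)) = _
    rw [a3 y hy _ (j1 x hx), cjz_rsz X c σ h T hTT']
  -- finiteness
  have hfin0 : B0.toAddSubgroup.relIndex (X.Zr Γ.r T N ⊤).toAddSubgroup ≠ 0 := by
    have ind := h6 R p S G D Γ χ δ U hG M M X hU T hT hTc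
    obtain ⟨-, j1', -, -⟩ := ind N N ⊤ hN hN htop le_rfl le_top
    unfold BKT.hT at j1'
    intro h0
    apply j1'
    have hle : (X.Br T N ⊤).toAddSubgroup ≤ B0.toAddSubgroup := (le_sup_right : X.Br T N ⊤ ≤ B0)
    exact AddSubgroup.relIndex_eq_zero_of_le_left hle h0
  obtain ⟨l1, -⟩ := h6 R p S G D Γ2 χ δ U hG2 M M X2 hU T hT hTc ⊥ N ⊤ hbot hN htop bot_le le_top
  unfold BKT.LK at l1
  have hp1 : X2.perp N = N := hNp
  have hp2 : X2.perp ⊥ = ⊤ := p4
  rw [hp1, hp2] at l1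
  have hmono : ∀ P P' Q : Submodule R M, P ≤ P' → X.flip.Zr Γ.r Tᶜ P Q ≤ X.flip.Zr Γ.r Tᶜ P' Q := by
    rintro P P' Q hP x ⟨a0, a1, a2, a3, a4⟩
    exact ⟨a0, a1, fun g h => hP (a2 g h), fun w hw => ⟨(a3 w hw).1, fun d => hP ((a3 w hw).2 d)⟩,
      a4⟩
  have hBZ : (B0.comap (rsz (R := R) T)) ⊓ Z ≤ Z := inf_le_right
  obtain ⟨m, hm⟩ := h7 R p hp ((G → M) × (S → M)) Z ((B0.comap (rsz (R := R) T)) ⊓ Z)
    (fun x y => CT Γ2 X2 T (rsz (R := R) T x) (cjz X c σ h T' y)) hBZ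
    (by
      have e1 : ((B0.comap (rsz (R := R) T)) ⊓ Z).toAddSubgroup =
          (B0.toAddSubgroup.comap ((rsz (R := R) T).toAddMonoidHom :
            ((G → M) × (S → M)) →+ ((G → M) × (S → M)))) ⊓ Z.toAddSubgroup := rfl
      rw [e1, AddSubgroup.inf_relIndex_right, AddSubgroup.relIndex_comap]
      have hle : Z.toAddSubgroup.map ((rsz (R := R) T).toAddMonoidHom :
          ((G → M) × (S → M)) →+ ((G → M) × (S → M))) ≤ (X.Zr Γ.r T N ⊤).toAddSubgroup := by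
        rintro _ ⟨x, hx, rfl⟩
        exact a1 x hx
      intro h0
      exact hfin0 (AddSubgroup.relIndex_eq_zero_of_le_right hle h0))
    (fun x _ x' _ y _ => by
      change CT Γ2 X2 T (rsz (R := R) T (x + x')) _ = _
      rw [map_add, c1])
    (fun x _ y _ b => by
      change CT Γ2 X2 T (rsz (R := R) T (b • x)) (cjz X c σ h T' y) =
        CT Γ2 X2 T (rsz (R := R) T x) (cjz X c σ h T' (b • y))
      rw [map_smul, c3, js])
    (fun x hx y hy => by
      rw [hCT2, hCT2, hid x hx y hy, hid y hy x hx]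
      abel)
    (fun x hx => by
      constructor
      · intro hxB y hy
        have hx0 : rsz (R := R) T x ∈ B0 := hxB.1
        obtain ⟨u, hu, v, hv, huv⟩ := Submodule.mem_sup.1 hx0
        have hy' := j1 y hy
        rw [← huv, c1]
        obtain ⟨-, -, q3⟩ := c4 ⊥ hbot
        obtain ⟨q1, -, -⟩ := c4 N hN
        rw [q3 u hu _ (by rw [hp2]; exact hmono N ⊤ ⊤ le_top hy'),
          q1 v hv _ (by rw [hp1]; exact hy'), add_zero]
      · intro h0
        refine ⟨?_, hx⟩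
        obtain ⟨x', hx', hxx⟩ := l1 (rsz (R := R) T x) (a1 x hx) (fun y hy => by
          obtain ⟨z, hz, hzy⟩ := j5 y hy
          have e1 : y = cjz X c σ h T' z - (cjz X c σ h T' z - y) := by abel
          have e2 := h0 z hz
          change CT Γ2 X2 T (rsz (R := R) T x) (cjz X c σ h T' z) = 0 at e2
          obtain ⟨-, q2, -⟩ := c4 N hN
          have e3 := q2 _ (a1 x hx) (cjz X c σ h T' z - y) (by rw [hp1]; exact hzy)
          have e4 := c2 (rsz (R := R) T x) y (cjz X c σ h T' z - y)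
          rw [add_sub_cancel, e2, e3, add_zero] at e4
          exact e4.symm)
        exact Submodule.mem_sup.2 ⟨x', hx', rsz (R := R) T x - x', hxx, by abel⟩)
  exact ⟨m, hm⟩

end BKT
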