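import Pool.Agent.Lib.MP_7c08ba_nt.T1.StNP

set_option autoImplicit false

/-!
Parity for general residual representations, part NP, module CJZ: the conjugation of relative
cocycles.
-/

noncomputable section

namespace BKT

open BKPar (Loc1 Loc2)
open BKND (Sm)
open BKMet

namespace NPCJZ

/-! ### Indices -/

theorem relIndex_eq {A B : Type} [AddCommGroup A] [AddCommGroup B] (f : A →+ B)
    (Z K : AddSubgroup A) (Z' K' : AddSubgroup B) (h1 : ∀ x ∈ Z, f x ∈ Z')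
    (h2 : ∀ x ∈ Z, f x ∈ K' ↔ x ∈ K) (h3 : ∀ y ∈ Z', ∃ x ∈ Z, f x - y ∈ K') :
    K.relIndex Z = K'.relIndex Z' := by
  let g : Z →+ Z' := (f.comp Z.subtype).codRestrict Z' fun x => h1 x.1 x.2
  let φ : Z →+ (Z' ⧸ K'.addSubgroupOf Z') := (QuotientAddGroup.mk' (K'.addSubgroupOf Z')).comp g
  have hker : φ.ker = K.addSubgroupOf Z := by
    ext x
    rw [AddMonoidHom.mem_ker, AddSubgroup.mem_addSubgroupOf, ← h2 x.1 x.2]
    change (QuotientAddGroup.mk' (K'.addSubgroupOf Z')) (g x) = 0 ↔ _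
    rw [QuotientAddGroup.mk'_apply, QuotientAddGroup.eq_zero_iff, AddSubgroup.mem_addSubgroupOf]
    rfl
  have hsurj : Function.Surjective φ := by
    intro y
    obtain ⟨y, rfl⟩ := QuotientAddGroup.mk'_surjective _ y
    obtain ⟨x, hx, hxy⟩ := h3 y.1 y.2
    refine ⟨⟨x, hx⟩, ?_⟩
    change (QuotientAddGroup.mk' (K'.addSubgroupOf Z')) (g ⟨x, hx⟩) =
      (QuotientAddGroup.mk' (K'.addSubgroupOf Z')) y
    rw [← sub_eq_zero, ← map_sub, QuotientAddGroup.mk'_apply, QuotientAddGroup.eq_zero_iff,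
      AddSubgroup.mem_addSubgroupOf]
    exact hxy
  change (K.addSubgroupOf Z).index = (K'.addSubgroupOf Z').index
  rw [← hker, AddSubgroup.index_ker, AddMonoidHom.range_eq_top.mpr hsurj]
  exact Nat.card_congr AddSubgroup.topEquiv.toEquiv

/-! ### The conjugation -/

section Conj

variable {R : Type} [CommRing R] {p : ℕ} [Fact p.Prime] {S : Type} [Fintype S] {G : Type}
  [Group G] [TopologicalSpace G] {D : S → Type} [∀ w, Group (D w)]
  [∀ w, TopologicalSpace (D w)] {Γ : Glo S G D (QZ p) (QZ p)} {c : G →* G} {σ : S → S}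
  {τ : ∀ w, D w →* D (σ w)} {h : S → G} (C : CjP Γ c σ τ h)
  {M M' : Type} [AddCommGroup M] [Module R M] [AddCommGroup M'] [Module R M']

omit [AddCommGroup M] in
theorem loc1_comp (hc : Continuous c) {z : G → M} (hz : Loc1 z) : Loc1 fun g => z (c g) := by
  obtain ⟨W, hW, h⟩ := hz
  refine ⟨W.comap c, hW.preimage hc, fun g w hw => ?_⟩
  change z (c (g * w)) = z (c g)
  rw [map_mul]
  exact h _ _ hw

theorem rho_mul (X : Pair R Γ.α M M') (g g' : G) (m : M) :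
    X.ρ (g * g') m = X.ρ g (X.ρ g' m) := by
  rw [map_mul]
  rfl

theorem snd_pos (X : Pair R Γ.α M M') {T : Set S} (x : (G → M) × (S → M)) {w : S}
    (hw : σ w ∈ T) : (cjz X c σ h T x).2 w = X.ρ (h w) (x.2 (σ w)) - x.1 (h w) := if_pos hw

theorem snd_neg (X : Pair R Γ.α M M') {T : Set S} (x : (G → M) × (S → M)) {w : S}
    (hw : σ w ∉ T) : (cjz X c σ h T x).2 w = 0 := if_neg hw

theorem fst_eq (X : Pair R Γ.α M M') {T : Set S} (x : (G → M) × (S → M)) (g : G) :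
    (cjz X c σ h T x).1 g = x.1 (c g) := rfl

theorem cjz_add (X : Pair R Γ.α M M') (T : Set S) (x x' : (G → M) × (S → M)) :
    cjz X c σ h T (x + x') = cjz X c σ h T x + cjz X c σ h T x' := by
  refine Prod.ext rfl (funext fun w => ?_)
  rw [Prod.snd_add, Pi.add_apply]
  by_cases hw : σ w ∈ T
  · rw [snd_pos X _ hw, snd_pos X _ hw, snd_pos X _ hw, Prod.snd_add, Prod.fst_add, Pi.add_apply,
      Pi.add_apply, map_add]
    abel
  · rw [snd_neg X _ hw, snd_neg X _ hw, snd_neg X _ hw, add_zero]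

theorem cjz_smul (X : Pair R Γ.α M M') (T : Set S) (a : R) (x : (G → M) × (S → M)) :
    cjz X c σ h T (a • x) = a • cjz X c σ h T x := by
  refine Prod.ext rfl (funext fun w => ?_)
  rw [Prod.smul_snd, Pi.smul_apply]
  by_cases hw : σ w ∈ T
  · rw [snd_pos X _ hw, snd_pos X _ hw, Prod.smul_snd, Prod.smul_fst, Pi.smul_apply,
      Pi.smul_apply, X.lin, smul_sub]
  · rw [snd_neg X _ hw, snd_neg X _ hw, smul_zero]

variable (X Y : Pair R Γ.α M M') (hY : Y.ρ = X.ρ.comp c)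

include hY in
theorem rho_eq (g : G) (m : M) : Y.ρ g m = X.ρ (c g) m := by
  rw [hY]
  rfl

include C hY in
theorem symm : X.ρ = Y.ρ.comp c := by
  ext g m
  rw [hY]
  change X.ρ g m = X.ρ (c (c g)) m
  rw [C.invol]

include C in
theorem sT_sT (T : Set S) : sT σ (sT σ T) = T := by
  ext w
  change σ (σ w) ∈ T ↔ w ∈ T
  rw [C.inv]

variable {T : Set S} {P Q : Submodule R M} (hP : X.Stable P) (hQ : X.Stable Q)

include C hY hP hQ in
theorem zr_mem {x : (G → M) × (S → M)} (hx : x ∈ X.Zr Γ.r T P Q) :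
    cjz X c σ h T x ∈ Y.Zr Γ.r (sT σ T) P Q := by
  obtain ⟨h0, h1, h2, h3, h4⟩ := hx
  refine ⟨loc1_comp C.cont h0, fun g => h1 (c g), fun g g' => ?_, fun w hw => ⟨?_, fun d => ?_⟩,
    fun w hw => ?_⟩
  · have e : d1 Y.ρ (cjz X c σ h T x).1 g g' = d1 X.ρ x.1 (c g) (c g') := by
      simp only [d1, fst_eq, rho_eq X Y hY, map_mul c]
    rw [e]
    exact h2 _ _
  · have hw' : σ w ∈ T := hw
    rw [snd_pos X x hw']
    exact Q.sub_mem (hQ _ _ (h3 _ hw').1) (h1 _)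
  · have hw' : σ w ∈ T := hw
    obtain ⟨-, h5⟩ := h3 _ hw'
    have h6 := h5 (τ w d)
    have h7 := hP (h w) _ h6
    have h8 := P.add_mem (P.sub_mem (h2 (c (Γ.r w d)) (h w)) (h2 (h w) (Γ.r (σ w) (τ w d)))) h7
    have hg : c (Γ.r w d) * h w = h w * Γ.r (σ w) (τ w d) := by
      rw [C.conj]
      group
    have e : (cjz X c σ h T x).1 (Γ.r w d) - d0 Y.ρ ((cjz X c σ h T x).2 w) (Γ.r w d) =
        d1 X.ρ x.1 (c (Γ.r w d)) (h w) - d1 X.ρ x.1 (h w) (Γ.r (σ w) (τ w d)) +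
          X.ρ (h w) (x.1 (Γ.r (σ w) (τ w d)) - d0 X.ρ (x.2 (σ w)) (Γ.r (σ w) (τ w d))) := by
      have e1 : X.ρ (c (Γ.r w d)) (X.ρ (h w) (x.2 (σ w))) =
          X.ρ (h w) (X.ρ (Γ.r (σ w) (τ w d)) (x.2 (σ w))) := by
        rw [← rho_mul X, ← rho_mul X, hg]
      rw [snd_pos X x hw', fst_eq]
      simp only [d0, d1, rho_eq X Y hY, map_sub, e1, hg]
      abel
    rw [e]
    exact h8
  · have hw' : σ w ∉ T := hw
    exact snd_neg X x hw'

include C hY hP in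
theorem br_mem {x : (G → M) × (S → M)} (hx : x ∈ X.Br T P Q) :
    cjz X c σ h T x ∈ Y.Br (sT σ T) P Q := by
  obtain ⟨h0, ⟨n, hn, h1, h2⟩, h4⟩ := hx
  refine ⟨loc1_comp C.cont h0, ⟨n, hn, fun g => ?_, fun w hw => ?_⟩, fun w hw => ?_⟩
  · have e : (cjz X c σ h T x).1 g - d0 Y.ρ n g = x.1 (c g) - d0 X.ρ n (c g) := by
      simp only [d0, fst_eq, rho_eq X Y hY]
    rw [e]
    exact h1 _
  · have hw' : σ w ∈ T := hw
    have h5 := P.sub_mem (hP (h w) _ (h2 _ hw')) (h1 (h w))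
    have e : (cjz X c σ h T x).2 w - n =
        X.ρ (h w) (x.2 (σ w) - n) - (x.1 (h w) - d0 X.ρ n (h w)) := by
      rw [snd_pos X x hw', map_sub]
      simp only [d0]
      abel
    rw [e]
    exact h5
  · have hw' : σ w ∉ T := hw
    exact snd_neg X x hw'

include C hY in
theorem cjz_cjz {x : (G → M) × (S → M)} (hx : x ∈ X.Zr Γ.r T P Q) :
    cjz Y c σ h (sT σ T) (cjz X c σ h T x) - x ∈ X.Br T P Q := by
  obtain ⟨h0, h1, h2, h3, h4⟩ := hx
  have e1 : (cjz Y c σ h (sT σ T) (cjz X c σ h T x) - x).1 = fun _ => 0 := by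
    funext g
    change x.1 (c (c g)) - x.1 g = 0
    rw [C.invol, sub_self]
  refine ⟨?_, ⟨0, Q.zero_mem, fun g => ?_, fun w hw => ?_⟩, fun w hw => ?_⟩
  · rw [e1]
    exact BKND.Loc1.const 0
  · rw [e1]
    have e : (0 : M) - d0 X.ρ 0 g = 0 := by simp [d0]
    rw [e]
    exact P.zero_mem
  · have hw1 : σ w ∈ sT σ T := by
      change σ (σ w) ∈ T
      rw [C.inv]
      exact hw
    have hw2 : σ (σ w) ∈ T := hw1
    obtain ⟨s, hs⟩ := C.hh w
    have h5 := (h3 w hw).2 s⁻¹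
    rw [map_inv, ← hs] at h5
    have h6 := P.neg_mem (P.add_mem h5 (h2 (c (h w)) (h (σ w))))
    have e : (cjz Y c σ h (sT σ T) (cjz X c σ h T x) - x).2 w - 0 =
        -(x.1 (c (h w) * h (σ w)) - d0 X.ρ (x.2 w) (c (h w) * h (σ w)) +
          d1 X.ρ x.1 (c (h w)) (h (σ w))) := by
      rw [sub_zero, Prod.snd_sub, Pi.sub_apply, snd_pos Y _ hw1, snd_pos X x hw2, fst_eq, C.inv,
        rho_eq X Y hY]
      simp only [d0, d1, map_sub, rho_mul X]
      abel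
    rw [e]
    exact h6
  · have hw1 : σ w ∉ sT σ T := by
      change ¬ σ (σ w) ∈ T
      rw [C.inv]
      exact hw
    rw [Prod.snd_sub, Pi.sub_apply, snd_neg Y _ hw1, h4 w hw, sub_zero]

end Conj

end NPCJZ

open NPCJZ in
/-- Module CJZ. -/
theorem stCjz : StCjz := by
  intro R _ p _ S _ G _ _ _ _ D _ _ Γ c σ τ h C M M' _ _ _ _ X Y hY
  have hX : X.ρ = Y.ρ.comp c := symm C X Y hY
  refine ⟨fun T x x' => cjz_add X T x x', fun T a x => cjz_smul X T a x,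
    fun T P Q hP hQ hPQ => ?_⟩
  have hP' : Y.Stable P := by
    intro g m hm
    rw [rho_eq X Y hY]
    exact hP _ _ hm
  have hQ' : Y.Stable Q := by
    intro g m hm
    rw [rho_eq X Y hY]
    exact hQ _ _ hm
  have hTT : sT σ (sT σ T) = T := sT_sT C T
  have c1 : ∀ x ∈ X.Zr Γ.r T P Q, cjz X c σ h T x ∈ Y.Zr Γ.r (sT σ T) P Q := fun x hx =>
    zr_mem C X Y hY hP hQ hx
  have c2 : ∀ x ∈ X.Br T P Q, cjz X c σ h T x ∈ Y.Br (sT σ T) P Q := fun x hx =>
    br_mem C X Y hY hP hx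
  have c3 : ∀ x ∈ X.Zr Γ.r T P Q,
      cjz Y c σ h (sT σ T) (cjz X c σ h T x) - x ∈ X.Br T P Q := fun x hx =>
    cjz_cjz C X Y hY hx
  have c4 : ∀ x ∈ X.Zr Γ.r T P Q, cjz X c σ h T x ∈ Y.Br (sT σ T) P Q → x ∈ X.Br T P Q := by
    intro x hx hb
    have k1 := br_mem C Y X hX hP' hb
    rw [hTT] at k1
    have k2 := (X.Br T P Q).sub_mem k1 (c3 x hx)
    rwa [sub_sub_cancel] at k2
  have c5 : ∀ y ∈ Y.Zr Γ.r (sT σ T) P Q, ∃ x ∈ X.Zr Γ.r T P Q,
      cjz X c σ h T x - y ∈ Y.Br (sT σ T) P Q := by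
    intro y hy
    have k1 := zr_mem C Y X hX hP' hQ' hy
    have k2 := cjz_cjz C Y X hX hy
    rw [hTT] at k1 k2
    exact ⟨_, k1, k2⟩
  refine ⟨c1, c2, c3, c4, c5, ?_⟩
  unfold hT
  exact relIndex_eq (AddMonoidHom.mk' (cjz X c σ h T) (cjz_add X T))
    (X.Zr Γ.r T P Q).toAddSubgroup (X.Br T P Q).toAddSubgroup
    (Y.Zr Γ.r (sT σ T) P Q).toAddSubgroup (Y.Br (sT σ T) P Q).toAddSubgroup c1
    (fun x hx => ⟨c4 x hx, c2 x⟩) c5

end BKT
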