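import Pool.Agent.Lib.MP_7c08ba_nt.T1.StNP
import Pool.Agent.Lib.MP_7c08ba_nt.Met.XCT

set_option autoImplicit false

/-!
Parity with arbitrary ramification at the primes which do not split, module CNP: the conjugate of
the pairing of Cassels and Tate is the pairing for another trace.
-/

noncomputable section

namespace BKT

open BKPar (Loc1 Loc2)
open BKND (Sm)
open BKMet

namespace NPCNP

open BKMet.XCT (act_mul Xi_in Xi_out loc1_pb loc2_pb loc1_act)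

/-! ### Inner automorphisms and cochains -/

section Alg

variable {G : Type*} [Group G] {A : Type*} [AddCommGroup A]

/-- the homotopy for functions of three variables -/
def HA (h : G) (a : G → G → G → A) : G → G → A := fun x y =>
  a h⁻¹ (h * x * h⁻¹) (h * y * h⁻¹) - a x h⁻¹ (h * y * h⁻¹) + a x y h⁻¹

/-- the homotopy for functions of two variables -/
def H1 (h : G) (ε : G → G → A) : G → A := fun x => ε h⁻¹ (h * x * h⁻¹) - ε x h⁻¹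

theorem HA_d2 (α : G →* AddMonoid.End A) (h : G) (ε : G → G → A) (x y : G) :
    HA h (d2 α ε) x y =
      α h⁻¹ (ε (h * x * h⁻¹) (h * y * h⁻¹)) - ε x y - d1 α (H1 h ε) x y := by
  have e1 : h⁻¹ * (h * x * h⁻¹) = x * h⁻¹ := by group
  have e2 : h⁻¹ * (h * y * h⁻¹) = y * h⁻¹ := by group
  have e3 : h * x * h⁻¹ * (h * y * h⁻¹) = h * (x * y) * h⁻¹ := by group
  simp only [HA, d2, d1, H1, map_sub, e1, e2, e3]
  abel

theorem act_one {M : Type*} [AddCommGroup M] (ρ : G →* AddMonoid.End M) (m : M) :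
    ρ 1 m = m := by
  rw [map_one]
  rfl

theorem act_inv {M : Type*} [AddCommGroup M] (ρ : G →* AddMonoid.End M) (h : G) (m : M) :
    ρ h (ρ h⁻¹ m) = m := by
  rw [← act_mul, mul_inv_cancel, act_one]

theorem act_cj {M : Type*} [AddCommGroup M] (ρ : G →* AddMonoid.End M) (h δ : G) (m : M) :
    ρ (h * δ * h⁻¹) (ρ h m) = ρ h (ρ δ m) := by
  rw [← act_mul, ← act_mul]
  congr 2
  group

theorem bsub {M M' : Type*} [AddCommGroup M] [AddCommGroup M'] (b : M →+ M' →+ A) (x y : M)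
    (z : M') : b (x - y) z = b x z - b y z := by
  rw [map_sub]
  rfl

/-- the conjugate of an element acts in the same way on the coefficients -/
theorem act_conj (α : G →* AddMonoid.End A)
    (com : ∀ g g' a, α g (α g' a) = α g' (α g a)) (h δ : G) (a : A) :
    α (h * δ * h⁻¹) a = α δ a := by
  rw [act_mul, act_mul, com h δ, act_inv]

end Alg

section Local

variable {R : Type} [CommRing R] {G : Type} [Group G] [TopologicalSpace G] {A : Type}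
  [AddCommGroup A] {α : G →* AddMonoid.End A} {M M' : Type} [AddCommGroup M] [Module R M]
  [AddCommGroup M'] [Module R M'] (X : Pair R α M M')

/-- the difference of a function on the conjugates -/
def kk (h : G) (u : G → M) : G → M := fun δ =>
  u (h * δ * h⁻¹) - X.ρ h (u δ) + (X.ρ (h * δ * h⁻¹) (u h) - u h)

/-- the constant -/
def qq (h : G) (u : G → M) : M := X.ρ h (u h⁻¹) + u h

theorem kk_eq (h : G) (u : G → M) (δ : G) :
    kk X h u δ = d1 X.ρ u (h * δ * h⁻¹) h - d1 X.ρ u h δ := by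
  have e : h * δ * h⁻¹ * h = h * δ := by group
  simp only [kk, d1, e]
  abel

theorem qq_eq (h : G) (u : G → M) : qq X h u = d1 X.ρ u h h⁻¹ + d1 X.ρ u 1 1 := by
  simp only [qq, d1, mul_inv_cancel, act_one, mul_one]
  abel

theorem jj_eq (h : G) (u : G → M) (δ : G) :
    X.ρ h (d1 X.ρ u h⁻¹ (h * δ * h⁻¹)) - X.ρ h (d1 X.ρ u δ h⁻¹) =
      kk X h u δ - (X.ρ (h * δ * h⁻¹) (qq X h u) - qq X h u) := by
  have e1 : h⁻¹ * (h * δ * h⁻¹) = δ * h⁻¹ := by group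
  have e2 : X.ρ (h * δ * h⁻¹) (X.ρ h (u h⁻¹)) = X.ρ h (X.ρ δ (u h⁻¹)) := by
    rw [← act_mul, ← act_mul]
    congr 2
    group
  simp only [kk, qq, d1, e1, map_add, map_sub, act_inv, e2]
  abel

theorem d1_kk (h : G) (u : G → M) (δ δ' : G) :
    d1 X.ρ u (h * δ * h⁻¹) (h * δ' * h⁻¹) - X.ρ h (d1 X.ρ u δ δ') =
      X.ρ (h * δ * h⁻¹) (kk X h u δ') - kk X h u (δ * δ') + kk X h u δ := by
  have e1 : h * δ * h⁻¹ * (h * δ' * h⁻¹) = h * (δ * δ') * h⁻¹ := by group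
  have e2 : X.ρ (h * δ * h⁻¹) (X.ρ (h * δ' * h⁻¹) (u h)) = X.ρ (h * (δ * δ') * h⁻¹) (u h) := by
    rw [← act_mul, e1]
  have e3 : X.ρ (h * δ * h⁻¹) (X.ρ h (u δ')) = X.ρ h (X.ρ δ (u δ')) := by
    rw [← act_mul, ← act_mul]
    congr 2
    group
  simp only [kk, d1, e1, map_add, map_sub, e2, e3]
  abel

/-- annihilators are stable -/
theorem perp_st {N : Submodule R M} (hN : X.Stable N) {m' : M'} (hm : m' ∈ X.perp N) (g : G) :
    X.ρ' g m' ∈ X.perp N := by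
  intro n hn
  have e := X.eqv g (X.ρ g⁻¹ n) m'
  rw [act_inv] at e
  rw [e, hm _ (hN _ _ hn), map_zero]

/-- the pairing of an element of `N` with elements congruent modulo the annihilator of `N` -/
theorem pcong {N : Submodule R M} {n : M} (hn : n ∈ N) {m m' : M'}
    (h : m - m' ∈ X.perp N) : X.b n m = X.b n m' := by
  have e := h n hn
  rw [map_sub, sub_eq_zero] at e
  exact e

variable (N : Submodule R M) (u : G → M) (v : G → M') (h : G)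
  (hu : ∀ g g', d1 X.ρ u g g' ∈ N) (hv : ∀ g g', d1 X.ρ' v g g' ∈ X.perp N)

include hu in
theorem kk_mem (δ : G) : kk X h u δ ∈ N := by
  rw [kk_eq]
  exact N.sub_mem (hu _ _) (hu _ _)

include hu in
theorem qq_mem : qq X h u ∈ N := by
  rw [qq_eq]
  exact N.add_mem (hu _ _) (hu _ _)


include hv in
/-- the values on conjugates -/
theorem v_conj (hN : X.Stable N) (δ : G) :
    v (h * δ * h⁻¹) - (X.ρ' h (v δ) + X.ρ' h (X.ρ' δ (v h⁻¹)) - X.ρ' h (v h⁻¹)) ∈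
      X.perp N := by
  have e1 := hv h (δ * h⁻¹)
  have e2 := perp_st X hN (hv δ h⁻¹) h
  have e3 := hv h h⁻¹
  have e4 := hv 1 1
  have e : v (h * δ * h⁻¹) - (X.ρ' h (v δ) + X.ρ' h (X.ρ' δ (v h⁻¹)) - X.ρ' h (v h⁻¹)) =
      d1 X.ρ' v h h⁻¹ + d1 X.ρ' v 1 1 - d1 X.ρ' v h (δ * h⁻¹) - X.ρ' h (d1 X.ρ' v δ h⁻¹) := by
    have e5 : h * (δ * h⁻¹) = h * δ * h⁻¹ := by group
    simp only [d1, mul_inv_cancel, act_one, mul_one, map_add, map_sub, e5]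
    abel
  rw [e]
  exact (X.perp N).sub_mem ((X.perp N).sub_mem ((X.perp N).add_mem e3 e4) e1) e2


/-- the homotopy for the cup product -/
theorem HA_cup (δ δ' : G) :
    α h (HA h (cup21 X.b X.ρ' (d1 X.ρ u) v) δ δ') =
      X.b (kk X h u δ - (X.ρ (h * δ * h⁻¹) (qq X h u) - qq X h u))
        (X.ρ' (h * δ * h⁻¹) (v (h * δ' * h⁻¹))) +
      α h (X.b (d1 X.ρ u δ δ') (X.ρ' (δ * δ') (v h⁻¹))) := by
  have e1 : X.ρ' h (X.ρ' (h⁻¹ * (h * δ * h⁻¹)) (v (h * δ' * h⁻¹))) =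
      X.ρ' (h * δ * h⁻¹) (v (h * δ' * h⁻¹)) := by
    rw [← act_mul]
    congr 2
    group
  have e2 : X.ρ' h (X.ρ' (δ * h⁻¹) (v (h * δ' * h⁻¹))) =
      X.ρ' (h * δ * h⁻¹) (v (h * δ' * h⁻¹)) := by
    rw [← act_mul]
    congr 2
    group
  rw [← jj_eq]
  simp only [HA, cup21, map_add, map_sub, ← X.eqv, e1, e2, AddMonoidHom.sub_apply]

include hv in
/-- the coboundary of the pairing with a constant -/
theorem d1_const (com : ∀ g g' a, α g (α g' a) = α g' (α g a)) (q : M) (hq : q ∈ N)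
    (δ δ' : G) :
    d1 α (fun δ => X.b q (v (h * δ * h⁻¹))) δ δ' =
      X.b (X.ρ (h * δ * h⁻¹) q - q) (X.ρ' (h * δ * h⁻¹) (v (h * δ' * h⁻¹))) := by
  have e1 : h * (δ * δ') * h⁻¹ = h * δ * h⁻¹ * (h * δ' * h⁻¹) := by group
  have e2 : X.b q (v (h * δ * h⁻¹ * (h * δ' * h⁻¹))) =
      X.b q (X.ρ' (h * δ * h⁻¹) (v (h * δ' * h⁻¹)) + v (h * δ * h⁻¹)) := by
    refine (pcong X hq ?_).symm
    have e := hv (h * δ * h⁻¹) (h * δ' * h⁻¹)
    have e' : X.ρ' (h * δ * h⁻¹) (v (h * δ' * h⁻¹)) + v (h * δ * h⁻¹) -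
        v (h * δ * h⁻¹ * (h * δ' * h⁻¹)) =
        d1 X.ρ' v (h * δ * h⁻¹) (h * δ' * h⁻¹) := by
      simp only [d1]
      abel
    rw [e']
    exact e
  simp only [d1, e1, e2]
  rw [← act_conj α com h δ, ← X.eqv]
  simp only [map_add, map_sub, AddMonoidHom.sub_apply]
  abel

include hu hv in
/-- the local computation at the places whose conjugate is in `T` -/
theorem loc_in (hN : X.Stable N) (com : ∀ g g' a, α g (α g' a) = α g' (α g a)) (m : M)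
    (δ δ' : G) (he : u δ - d0 X.ρ m δ ∈ N) :
    α h (X.b (u δ - d0 X.ρ m δ) (X.ρ' δ (v δ')) +
        HA h (cup21 X.b X.ρ' (d1 X.ρ u) v) δ δ') -
      X.b (u (h * δ * h⁻¹) - d0 X.ρ (X.ρ h m - u h) (h * δ * h⁻¹))
        (X.ρ' (h * δ * h⁻¹) (v (h * δ' * h⁻¹))) =
    d1 α (fun δ => α h (X.b (u δ - d0 X.ρ m δ) (X.ρ' δ (v h⁻¹)))) δ δ' -
      d1 α (fun δ => X.b (qq X h u) (v (h * δ * h⁻¹))) δ δ' := by
  rw [map_add, HA_cup, d1_const X N v h hv com _ (qq_mem X N u h hu)]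
  have e1 : u (h * δ * h⁻¹) - d0 X.ρ (X.ρ h m - u h) (h * δ * h⁻¹) =
      X.ρ h (u δ - d0 X.ρ m δ) + kk X h u δ := by
    have e : X.ρ (h * δ * h⁻¹) (X.ρ h m) = X.ρ h (X.ρ δ m) := by
      rw [← act_mul, ← act_mul]
      congr 2
      group
    simp only [kk, d0, map_sub, e]
    abel
  have e2 : X.b (X.ρ h (u δ - d0 X.ρ m δ)) (X.ρ' (h * δ * h⁻¹) (v (h * δ' * h⁻¹))) =
      X.b (X.ρ h (u δ - d0 X.ρ m δ)) (X.ρ' (h * δ * h⁻¹)
        (X.ρ' h (v δ') + X.ρ' h (X.ρ' δ' (v h⁻¹)) - X.ρ' h (v h⁻¹))) := by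
    refine pcong X (hN _ _ he) ?_
    rw [← map_sub]
    exact perp_st X hN (v_conj X N v h hv hN δ') _
  have e3 (m' : M') : X.ρ' (h * δ * h⁻¹) (X.ρ' h m') = X.ρ' h (X.ρ' δ m') := by
    rw [← act_mul, ← act_mul]
    congr 2
    group
  have e4 : d1 α (fun δ => α h (X.b (u δ - d0 X.ρ m δ) (X.ρ' δ (v h⁻¹)))) δ δ' =
      α h (X.b (d1 X.ρ u δ δ') (X.ρ' (δ * δ') (v h⁻¹)) +
        X.b (u δ - d0 X.ρ m δ) (X.ρ' δ (v h⁻¹) - X.ρ' δ (X.ρ' δ' (v h⁻¹)))) := by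
    have e5 : X.ρ δ (u δ' - d0 X.ρ m δ') - (u (δ * δ') - d0 X.ρ m (δ * δ')) =
        d1 X.ρ u δ δ' - (u δ - d0 X.ρ m δ) := by
      simp only [d1, d0, map_sub, act_mul]
      abel
    have e6 := congrArg (fun t => X.b t (X.ρ' (δ * δ') (v h⁻¹))) e5
    have e7 : α δ (α h (X.b (u δ' - d0 X.ρ m δ') (X.ρ' δ' (v h⁻¹)))) =
        α h (X.b (X.ρ δ (u δ' - d0 X.ρ m δ')) (X.ρ' (δ * δ') (v h⁻¹))) := by
      rw [com δ h, ← X.eqv δ, act_mul]
    change α δ (α h (X.b (u δ' - d0 X.ρ m δ') (X.ρ' δ' (v h⁻¹)))) -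
      α h (X.b (u (δ * δ') - d0 X.ρ m (δ * δ')) (X.ρ' (δ * δ') (v h⁻¹))) +
      α h (X.b (u δ - d0 X.ρ m δ) (X.ρ' δ (v h⁻¹))) = _
    rw [e7, ← map_sub, ← map_add]
    refine congrArg (α h) ?_
    change X.b (X.ρ δ (u δ' - d0 X.ρ m δ') - (u (δ * δ') - d0 X.ρ m (δ * δ')))
      (X.ρ' (δ * δ') (v h⁻¹)) = X.b (d1 X.ρ u δ δ' - (u δ - d0 X.ρ m δ))
      (X.ρ' (δ * δ') (v h⁻¹)) at e6
    rw [bsub X.b (X.ρ δ (u δ' - d0 X.ρ m δ')), bsub X.b (d1 X.ρ u δ δ')] at e6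
    rw [e6, ← act_mul, map_sub (X.b (u δ - d0 X.ρ m δ))]
    abel
  have e8 : X.b (X.ρ h (u δ - d0 X.ρ m δ)) (X.ρ' (h * δ * h⁻¹) (v (h * δ' * h⁻¹))) =
      α h (X.b (u δ - d0 X.ρ m δ) (X.ρ' δ (v δ') + X.ρ' δ (X.ρ' δ' (v h⁻¹)) -
        X.ρ' δ (v h⁻¹))) := by
    rw [e2, ← X.eqv]
    simp only [map_add, map_sub, e3]
  rw [e1, e4, map_add X.b, AddMonoidHom.add_apply, e8]
  generalize X.b (u δ - d0 X.ρ m δ) = B
  generalize X.ρ' (h * δ * h⁻¹) (v (h * δ' * h⁻¹)) = V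
  rw [map_sub X.b, AddMonoidHom.sub_apply]
  simp only [map_add, map_sub]
  abel

include hu hv in
/-- the local computation at the places whose conjugate is not in `T` -/
theorem loc_out (hN : X.Stable N) (com : ∀ g g' a, α g (α g' a) = α g' (α g a)) (n : M')
    (δ δ' : G) (he : v δ' - d0 X.ρ' n δ' ∈ X.perp N) :
    α h (X.b (d1 X.ρ u δ δ') (X.ρ' (δ * δ') n) +
        HA h (cup21 X.b X.ρ' (d1 X.ρ u) v) δ δ') -
      X.b (d1 X.ρ u (h * δ * h⁻¹) (h * δ' * h⁻¹))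
        (X.ρ' (h * δ * h⁻¹ * (h * δ' * h⁻¹)) (X.ρ' h n - v h)) =
    - d1 α (fun δ => X.b (kk X h u δ) (X.ρ' (h * δ * h⁻¹) (X.ρ' h n - v h))) δ δ' -
      d1 α (fun δ => X.b (qq X h u) (v (h * δ * h⁻¹))) δ δ' := by
  rw [map_add, HA_cup, d1_const X N v h hv com _ (qq_mem X N u h hu)]
  set ν : M' := X.ρ' h n - v h with hν
  have e1 : h * (δ * δ') * h⁻¹ = h * δ * h⁻¹ * (h * δ' * h⁻¹) := by group
  -- `v h` is congruent to `- h (v h⁻¹)`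
  have c1 : ν - X.ρ' h (n + v h⁻¹) ∈ X.perp N := by
    have e : ν - X.ρ' h (n + v h⁻¹) = - (d1 X.ρ' v h h⁻¹ + d1 X.ρ' v 1 1) := by
      simp only [hν, d1, mul_inv_cancel, act_one, mul_one, map_add]
      abel
    rw [e]
    exact (X.perp N).neg_mem ((X.perp N).add_mem (hv _ _) (hv _ _))
  have c2 : X.ρ' (h * δ' * h⁻¹) ν - X.ρ' h (X.ρ' δ' (n + v h⁻¹)) ∈ X.perp N := by
    have e : X.ρ' (h * δ' * h⁻¹) ν - X.ρ' h (X.ρ' δ' (n + v h⁻¹)) =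
        X.ρ' (h * δ' * h⁻¹) (ν - X.ρ' h (n + v h⁻¹)) := by
      rw [map_sub _ ν, act_cj]
    rw [e]
    exact perp_st X hN c1 _
  have c3 : v (h * δ' * h⁻¹) - (X.ρ' (h * δ' * h⁻¹) ν - ν) ∈ X.perp N := by
    have e := v_conj X N v h hv hN δ'
    have e' : v (h * δ' * h⁻¹) - (X.ρ' (h * δ' * h⁻¹) ν - ν) =
        v (h * δ' * h⁻¹) - (X.ρ' h (v δ') + X.ρ' h (X.ρ' δ' (v h⁻¹)) - X.ρ' h (v h⁻¹)) +
        X.ρ' h (v δ' - d0 X.ρ' n δ') -
        (X.ρ' (h * δ' * h⁻¹) ν - X.ρ' h (X.ρ' δ' (n + v h⁻¹))) +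
        (ν - X.ρ' h (n + v h⁻¹)) := by
      simp only [d0, map_add, map_sub]
      abel
    rw [e']
    exact (X.perp N).add_mem ((X.perp N).sub_mem ((X.perp N).add_mem e (perp_st X hN he _)) c2) c1
  have e2 : X.b (kk X h u δ) (X.ρ' (h * δ * h⁻¹) (v (h * δ' * h⁻¹))) =
      X.b (kk X h u δ) (X.ρ' (h * δ * h⁻¹ * (h * δ' * h⁻¹)) ν - X.ρ' (h * δ * h⁻¹) ν) := by
    refine pcong X (kk_mem X N u h hu δ) ?_
    rw [act_mul X.ρ' (h * δ * h⁻¹), ← map_sub, ← map_sub]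
    exact perp_st X hN c3 _
  have e3 : α h (X.b (d1 X.ρ u δ δ') (X.ρ' (δ * δ') (n + v h⁻¹))) =
      X.b (X.ρ h (d1 X.ρ u δ δ')) (X.ρ' (h * δ * h⁻¹ * (h * δ' * h⁻¹)) ν) := by
    rw [← X.eqv]
    refine (pcong X (hN _ _ (hu _ _)) ?_).symm
    have e : X.ρ' (h * δ * h⁻¹ * (h * δ' * h⁻¹)) ν - X.ρ' h (X.ρ' (δ * δ') (n + v h⁻¹)) =
        X.ρ' (h * δ * h⁻¹ * (h * δ' * h⁻¹)) (ν - X.ρ' h (n + v h⁻¹)) := by
      rw [map_sub _ ν, ← e1, act_cj]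
    rw [e]
    exact perp_st X hN c1 _
  have e4 : d1 α (fun δ => X.b (kk X h u δ) (X.ρ' (h * δ * h⁻¹) ν)) δ δ' =
      X.b (X.ρ (h * δ * h⁻¹) (kk X h u δ') - kk X h u (δ * δ'))
        (X.ρ' (h * δ * h⁻¹ * (h * δ' * h⁻¹)) ν) + X.b (kk X h u δ) (X.ρ' (h * δ * h⁻¹) ν) := by
    simp only [d1, e1]
    rw [← act_conj α com h δ, ← X.eqv, ← act_mul, bsub]
  have e5 : X.ρ (h * δ * h⁻¹) (kk X h u δ') - kk X h u (δ * δ') =
      d1 X.ρ u (h * δ * h⁻¹) (h * δ' * h⁻¹) - X.ρ h (d1 X.ρ u δ δ') - kk X h u δ := by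
    rw [d1_kk]
    abel
  rw [e4, e5]
  simp only [map_add, map_sub, AddMonoidHom.sub_apply] at e2 e3 ⊢
  rw [e2, ← e3]
  abel

end Local

/-! ### The trace -/

section Trace

variable {p : ℕ} [Fact p.Prime] {S : Type} [Fintype S] {G : Type} [Group G]
    [TopologicalSpace G] {D : S → Type} [∀ w, Group (D w)] [∀ w, TopologicalSpace (D w)]
    (Γ : Glo S G D (QZ p) (QZ p)) (c : G →* G) (σ : S → S) (τ : ∀ w, D w →* D (σ w))
    (h : S → G)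

/-- the conjugation of compactly supported three-cochains -/
def th : ((G → G → G → QZ p) × (∀ w, D w → D w → QZ p)) →+
    ((G → G → G → QZ p) × (∀ w, D w → D w → QZ p)) where
  toFun x := (fun g g' g'' => x.1 (c g) (c g') (c g''), fun w d d' =>
    Γ.α (h w) (x.2 (σ w) (τ w d) (τ w d') +
      HA (h w) x.1 (Γ.r (σ w) (τ w d)) (Γ.r (σ w) (τ w d'))))
  map_zero' := by
    refine Prod.ext rfl ?_
    funext w d d'
    change Γ.α (h w) ((0 : QZ p) + (0 - 0 + 0)) = 0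
    rw [sub_zero, add_zero, add_zero, map_zero]
  map_add' x y := by
    refine Prod.ext rfl ?_
    funext w d d'
    change Γ.α (h w) (x.2 (σ w) (τ w d) (τ w d') + y.2 (σ w) (τ w d) (τ w d') +
      HA (h w) (x.1 + y.1) (Γ.r (σ w) (τ w d)) (Γ.r (σ w) (τ w d'))) =
      Γ.α (h w) (x.2 (σ w) (τ w d) (τ w d') +
        HA (h w) x.1 (Γ.r (σ w) (τ w d)) (Γ.r (σ w) (τ w d'))) +
      Γ.α (h w) (y.2 (σ w) (τ w d) (τ w d') +
        HA (h w) y.1 (Γ.r (σ w) (τ w d)) (Γ.r (σ w) (τ w d')))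
    rw [← map_add]
    refine congrArg (Γ.α (h w)) ?_
    simp only [HA, Pi.add_apply]
    abel

variable {Γ c σ τ h} (hC : CjP Γ c σ τ h)

include hC in
/-- the actions of the local groups on the coefficients -/
theorem act_r (w : S) (d : D w) (a : QZ p) :
    Γ.α (Γ.r w d) a = Γ.α (Γ.r (σ w) (τ w d)) a := by
  rw [← hC.act, hC.conj, act_conj _ hC.com]

variable [IsTopologicalGroup G] [CompactSpace G]

include hC in
/-- the local restriction of a coboundary is a cocycle and a coboundary -/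
theorem pbz (w : S) {φ : G → QZ p} (hφ : Loc1 φ) :
    (fun d d' => d1 Γ.α φ (Γ.r (σ w) (τ w d)) (Γ.r (σ w) (τ w d'))) ∈
      BKND.Z2 (Γ.α.comp (Γ.r w)) ∧
    (fun d d' => d1 Γ.α φ (Γ.r (σ w) (τ w d)) (Γ.r (σ w) (τ w d'))) ∈
      BKND.B2 (Γ.α.comp (Γ.r w)) := by
  constructor
  · refine ⟨?_, fun g g' g'' => ?_⟩
    · have e := loc2_pb (hC.tcont w) (loc2_pb (Γ.cont (σ w)) (XCT.loc2_d1' Γ.sm hφ))
      exact e
    · have e := XCT.d2_d1 Γ.α φ (Γ.r (σ w) (τ w g)) (Γ.r (σ w) (τ w g')) (Γ.r (σ w) (τ w g''))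
      simp only [d2] at e
      change Γ.α (Γ.r w g) (d1 Γ.α φ (Γ.r (σ w) (τ w g')) (Γ.r (σ w) (τ w g''))) -
        d1 Γ.α φ (Γ.r (σ w) (τ w (g * g'))) (Γ.r (σ w) (τ w g'')) +
        d1 Γ.α φ (Γ.r (σ w) (τ w g)) (Γ.r (σ w) (τ w (g' * g''))) -
        d1 Γ.α φ (Γ.r (σ w) (τ w g)) (Γ.r (σ w) (τ w g')) = 0
      rw [act_r hC, map_mul, map_mul, map_mul, map_mul]
      exact e
  · refine ⟨fun d => φ (Γ.r (σ w) (τ w d)), ?_, fun g g' => ?_⟩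
    · have e := loc1_pb (hC.tcont w) (loc1_pb (Γ.cont (σ w)) hφ)
      exact e
    · change d1 Γ.α φ (Γ.r (σ w) (τ w g)) (Γ.r (σ w) (τ w g')) =
        Γ.α (Γ.r w g) (φ (Γ.r (σ w) (τ w g'))) - φ (Γ.r (σ w) (τ w (g * g'))) +
        φ (Γ.r (σ w) (τ w g))
      rw [act_r hC, map_mul, map_mul]
      rfl

omit [CompactSpace G] in
theorem loc1_conj {X : Type*} (h : G) {f : G → X} (hf : Loc1 f) :
    Loc1 fun g => f (h * g * h⁻¹) := by
  have hc : Continuous ((MulAut.conj h).toMonoidHom : G →* G) := by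
    change Continuous fun g => h * g * h⁻¹
    fun_prop
  exact loc1_pb hc hf

omit [CompactSpace G] in
theorem loc1_H1 {A : Type*} [AddCommGroup A] (h : G) {ε : G → G → A} (hε : Loc2 ε) :
    Loc1 (H1 h ε) := by
  obtain ⟨W, hW, hw⟩ := hε
  have e1 : Loc1 fun g => ε h⁻¹ g := ⟨W, hW, fun g w hw' => by
    have := hw h⁻¹ g 1 W.one_mem w hw'
    rwa [mul_one] at this⟩
  have e2 : Loc1 fun g => ε g h⁻¹ := ⟨W, hW, fun g w hw' => by
    have := hw g h⁻¹ w hw' 1 W.one_mem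
    rwa [mul_one] at this⟩
  exact BKND.Loc1.map2 (loc1_conj h e1) e2 (· - ·)

include hC in
/-- the conjugation of the trace -/
theorem tr_th (ε : G → G → QZ p) (hε : Loc2 ε) (β : ∀ w, D w → D w → QZ p)
    (hβ : ∀ w, β w - pb2 (Γ.r w) ε ∈ BKND.Z2 (Γ.α.comp (Γ.r w))) :
    Γ.tr (th Γ c σ τ h (d2 Γ.α ε, β)) = - ∑ w, Γ.inv w (β w - pb2 (Γ.r w) ε) := by
  have hε' : Loc2 (pb2 c ε) := loc2_pb hC.cont hε
  have e0 : th Γ c σ τ h (d2 Γ.α ε, β) = (d2 Γ.α (pb2 c ε), (th Γ c σ τ h (d2 Γ.α ε, β)).2) := by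
    refine Prod.ext ?_ rfl
    funext g g' g''
    change d2 Γ.α ε (c g) (c g') (c g'') = d2 Γ.α (pb2 c ε) g g' g''
    simp only [d2, pb2, hC.act, map_mul]
  have e1 (w : S) : (th Γ c σ τ h (d2 Γ.α ε, β)).2 w - pb2 (Γ.r w) (pb2 c ε) =
      (fun d d' => Γ.α (h w) ((β (σ w) - pb2 (Γ.r (σ w)) ε) (τ w d) (τ w d'))) +
      (fun d d' => d1 Γ.α (fun g => - Γ.α (h w) (H1 (h w) ε g)) (Γ.r (σ w) (τ w d))
        (Γ.r (σ w) (τ w d'))) := by
    funext d d'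
    change Γ.α (h w) (β (σ w) (τ w d) (τ w d') +
      HA (h w) (d2 Γ.α ε) (Γ.r (σ w) (τ w d)) (Γ.r (σ w) (τ w d'))) -
      ε (c (Γ.r w d)) (c (Γ.r w d')) =
      Γ.α (h w) (β (σ w) (τ w d) (τ w d') - ε (Γ.r (σ w) (τ w d)) (Γ.r (σ w) (τ w d'))) +
      d1 Γ.α (fun g => - Γ.α (h w) (H1 (h w) ε g)) (Γ.r (σ w) (τ w d)) (Γ.r (σ w) (τ w d'))
    rw [HA_d2, hC.conj, hC.conj]
    simp only [d1, map_add, map_sub, map_neg, act_inv]
    rw [hC.com (h w) (Γ.r (σ w) (τ w d))]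
    abel
  have hz (w : S) : (fun d d' => Γ.α (h w) ((β (σ w) - pb2 (Γ.r (σ w)) ε) (τ w d) (τ w d'))) ∈
      BKND.Z2 (Γ.α.comp (Γ.r w)) := by
    refine ⟨?_, fun g g' g'' => ?_⟩
    · exact BKND.Loc2.map (loc2_pb (hC.tcont w) (hβ (σ w)).1) fun a => Γ.α (h w) a
    · have e := congrArg (Γ.α (h w)) ((hβ (σ w)).2 (τ w g) (τ w g') (τ w g''))
      rw [map_zero, map_sub, map_add, map_sub] at e
      rw [← e]
      generalize β (σ w) - pb2 (Γ.r (σ w)) ε = z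
      change Γ.α (Γ.r w g) (Γ.α (h w) (z (τ w g') (τ w g''))) -
        Γ.α (h w) (z (τ w (g * g')) (τ w g'')) + Γ.α (h w) (z (τ w g) (τ w (g' * g''))) -
        Γ.α (h w) (z (τ w g) (τ w g')) =
        Γ.α (h w) (Γ.α (Γ.r (σ w) (τ w g)) (z (τ w g') (τ w g''))) -
        Γ.α (h w) (z (τ w g * τ w g') (τ w g'')) + Γ.α (h w) (z (τ w g) (τ w g' * τ w g'')) -
        Γ.α (h w) (z (τ w g) (τ w g'))
      rw [act_r hC, hC.com (h w) (Γ.r (σ w) (τ w g)), map_mul, map_mul]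
  have hφ (w : S) : Loc1 fun g => - Γ.α (h w) (H1 (h w) ε g) :=
    BKND.Loc1.map (loc1_H1 (h w) hε) fun a => - Γ.α (h w) a
  rw [e0, Γ.tr_eq _ hε' _ fun w => ?_]
  · have e2 (w : S) : Γ.inv w ((th Γ c σ τ h (d2 Γ.α ε, β)).2 w - pb2 (Γ.r w) (pb2 c ε)) =
        - Γ.inv (σ w) (β (σ w) - pb2 (Γ.r (σ w)) ε) := by
      rw [e1, map_add, (Γ.inv_eq w _ (pbz hC w (hφ w)).1).2 (pbz hC w (hφ w)).2, add_zero]
      exact hC.anti w _ (hβ (σ w))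
    rw [Finset.sum_congr rfl fun w _ => e2 w, Finset.sum_neg_distrib]
    congr 1
    exact Equiv.sum_comp (Function.Involutive.toPerm σ hC.inv)
      fun w => Γ.inv w (β w - pb2 (Γ.r w) ε)
  · rw [e1]
    exact AddSubgroup.add_mem _ (hz w) (pbz hC w (hφ w)).1

include hC in
/-- the conjugation of the pairing -/
theorem tr_Xi {R : Type} [CommRing R] {M M' : Type} [AddCommGroup M] [Module R M]
    [AddCommGroup M'] [Module R M'] (X Y : Pair R Γ.α M M') (h1 : Y.ρ = X.ρ.comp c)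
    (h2 : Y.ρ' = X.ρ'.comp c) (hb : ∀ m m', Y.b m m' = X.b m m') (T : Set S)
    (N : Submodule R M) (hN : X.Stable N) (x : (G → M) × (S → M)) (hx : x ∈ X.Zr Γ.r T N ⊤)
    (y : (G → M') × (S → M')) (hy : y ∈ X.flip.Zr Γ.r Tᶜ (X.perp N) ⊤) :
    Γ.tr (th Γ c σ τ h (Xi Γ X T x y)) =
      CT Γ Y (sT σ T) (cjz X c σ h T x) (cjz X.flip c σ h Tᶜ y) := by
  obtain ⟨u, m⟩ := x
  obtain ⟨v, n⟩ := y
  obtain ⟨hu, -, hu1, hm, -⟩ := hx
  obtain ⟨hv, -, hv1, hn, -⟩ := hy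
  change Loc1 u at hu
  change Loc1 v at hv
  change ∀ g g', d1 X.ρ u g g' ∈ N at hu1
  change ∀ g g', d1 X.ρ' v g g' ∈ X.perp N at hv1
  change ∀ w ∈ T, m w ∈ (⊤ : Submodule R M) ∧ ∀ d, u (Γ.r w d) - d0 X.ρ (m w) (Γ.r w d) ∈ N at hm
  change ∀ w ∈ Tᶜ, n w ∈ (⊤ : Submodule R M') ∧
    ∀ d, v (Γ.r w d) - d0 X.ρ' (n w) (Γ.r w d) ∈ X.perp N at hn
  set Δ := th Γ c σ τ h (Xi Γ X T (u, m) (v, n)) -
    Xi Γ Y (sT σ T) (cjz X c σ h T (u, m)) (cjz X.flip c σ h Tᶜ (v, n)) with hΔ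
  have hcj (w : S) (d : D w) : c (Γ.r w d) = h w * Γ.r (σ w) (τ w d) * (h w)⁻¹ := hC.conj w d
  have e0 : Δ = (d2 Γ.α 0, Δ.2) := by
    refine Prod.ext ?_ rfl
    funext g g' g''
    change X.b (d1 X.ρ u (c g) (c g')) (X.ρ' (c g * c g') (v (c g''))) -
      Y.b (d1 Y.ρ (fun g => u (c g)) g g') (Y.ρ' (g * g') (v (c g''))) =
      Γ.α g 0 - 0 + 0 - 0
    rw [hb, h1, h2, map_zero, sub_zero, add_zero, sub_zero, sub_eq_zero]
    simp only [d1, MonoidHom.comp_apply, map_mul]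
  have key (w : S) : ∃ φ : G → QZ p, Loc1 φ ∧ Δ.2 w - pb2 (Γ.r w) 0 =
      fun d d' => d1 Γ.α φ (Γ.r (σ w) (τ w d)) (Γ.r (σ w) (τ w d')) := by
    have hdsub (φ ψ : G → QZ p) (g g' : G) : d1 Γ.α (fun g => φ g - ψ g) g g' =
        d1 Γ.α φ g g' - d1 Γ.α ψ g g' := by
      simp only [d1, map_sub]
      abel
    have hdneg (φ : G → QZ p) (g g' : G) : d1 Γ.α (fun g => - φ g) g g' =
        - d1 Γ.α φ g g' := by
      simp only [d1, map_neg]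
      abel
    have hq : Loc1 fun g => X.b (qq X (h w) u) (v (h w * g * (h w)⁻¹)) :=
      BKND.Loc1.map (loc1_conj (h w) hv) fun t => X.b (qq X (h w) u) t
    by_cases hw : σ w ∈ T
    · have hw' : w ∈ sT σ T := hw
      have hw'' : σ w ∉ Tᶜ := fun h => h hw
      refine ⟨fun g => Γ.α (h w) (X.b (u g - d0 X.ρ (m (σ w)) g) (X.ρ' g (v (h w)⁻¹))) -
        X.b (qq X (h w) u) (v (h w * g * (h w)⁻¹)), ?_, ?_⟩
      · refine BKND.Loc1.map2 (BKND.Loc1.map2 (BKND.Loc1.map2 hu (XCT.loc1_d0 X.sm _) (· - ·))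
          (loc1_act X.sm' (v (h w)⁻¹)) fun a b => Γ.α (h w) (X.b a b)) hq (· - ·)
      · funext d d'
        rw [hdsub, ← loc_in X N u v (h w) hu1 hv1 hN hC.com (m (σ w)) _ _ ((hm _ hw).2 _)]
        change Γ.α (h w) ((Xi Γ X T (u, m) (v, n)).2 (σ w) (τ w d) (τ w d') +
          HA (h w) (cup21 X.b X.ρ' (d1 X.ρ u) v) (Γ.r (σ w) (τ w d)) (Γ.r (σ w) (τ w d'))) -
          (Xi Γ Y (sT σ T) (cjz X c σ h T (u, m)) (cjz X.flip c σ h Tᶜ (v, n))).2 w d d' - 0 = _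
        rw [Xi_in Γ X T hw, Xi_in Γ Y (sT σ T) hw', sub_zero]
        change Γ.α (h w) (X.b (u (Γ.r (σ w) (τ w d)) - d0 X.ρ (m (σ w)) (Γ.r (σ w) (τ w d)))
          (X.ρ' (Γ.r (σ w) (τ w d)) (v (Γ.r (σ w) (τ w d')))) +
          HA (h w) (cup21 X.b X.ρ' (d1 X.ρ u) v) (Γ.r (σ w) (τ w d)) (Γ.r (σ w) (τ w d'))) -
          Y.b (u (c (Γ.r w d)) - d0 Y.ρ ((cjz X c σ h T (u, m)).2 w) (Γ.r w d))
            (Y.ρ' (Γ.r w d) (v (c (Γ.r w d')))) = _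
        have e1 : (cjz X c σ h T (u, m)).2 w = X.ρ (h w) (m (σ w)) - u (h w) := if_pos hw
        rw [e1, hb, h1, h2]
        simp only [d0, MonoidHom.comp_apply, hcj]
    · have hw' : w ∉ sT σ T := hw
      have hw'' : σ w ∈ Tᶜ := hw
      refine ⟨fun g => - X.b (kk X (h w) u g) (X.ρ' (h w * g * (h w)⁻¹)
        (X.ρ' (h w) (n (σ w)) - v (h w))) -
        X.b (qq X (h w) u) (v (h w * g * (h w)⁻¹)), ?_, ?_⟩
      · have hk : Loc1 (kk X (h w) u) := by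
          refine BKND.Loc1.map2 (BKND.Loc1.map2 (loc1_conj (h w) hu)
            (BKND.Loc1.map hu fun t => X.ρ (h w) t) (· - ·))
            (BKND.Loc1.map (loc1_conj (h w) (loc1_act X.sm (u (h w)))) fun t => t - u (h w))
            (· + ·)
        refine BKND.Loc1.map2 (BKND.Loc1.map2 hk
          (loc1_conj (h w) (loc1_act X.sm' (X.ρ' (h w) (n (σ w)) - v (h w))))
          fun a b => - X.b a b) hq (· - ·)
      · funext d d'
        rw [hdsub, hdneg,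
          ← loc_out X N u v (h w) hu1 hv1 hN hC.com (n (σ w)) _ _ ((hn _ hw'').2 _)]
        change Γ.α (h w) ((Xi Γ X T (u, m) (v, n)).2 (σ w) (τ w d) (τ w d') +
          HA (h w) (cup21 X.b X.ρ' (d1 X.ρ u) v) (Γ.r (σ w) (τ w d)) (Γ.r (σ w) (τ w d'))) -
          (Xi Γ Y (sT σ T) (cjz X c σ h T (u, m)) (cjz X.flip c σ h Tᶜ (v, n))).2 w d d' - 0 = _
        rw [Xi_out Γ X T hw, Xi_out Γ Y (sT σ T) hw', sub_zero]
        change Γ.α (h w) (X.b (d1 X.ρ u (Γ.r (σ w) (τ w d)) (Γ.r (σ w) (τ w d')))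
          (X.ρ' (Γ.r (σ w) (τ w d * τ w d')) (n (σ w))) +
          HA (h w) (cup21 X.b X.ρ' (d1 X.ρ u) v) (Γ.r (σ w) (τ w d)) (Γ.r (σ w) (τ w d'))) -
          Y.b (d1 Y.ρ (fun g => u (c g)) (Γ.r w d) (Γ.r w d'))
            (Y.ρ' (Γ.r w (d * d')) ((cjz X.flip c σ h Tᶜ (v, n)).2 w)) = _
        have e1 : (cjz X.flip c σ h Tᶜ (v, n)).2 w = X.ρ' (h w) (n (σ w)) - v (h w) :=
          if_pos hw''
        rw [e1, hb, h1, h2]
        simp only [d1, MonoidHom.comp_apply, hcj, map_mul]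
  have e2 : Γ.tr Δ = 0 := by
    rw [e0, Γ.tr_eq 0 (BKND.Loc2.const 0) Δ.2 fun w => ?_]
    · refine Finset.sum_eq_zero fun w _ => ?_
      obtain ⟨φ, hφ, e⟩ := key w
      rw [e]
      exact (Γ.inv_eq w _ (pbz hC w hφ).1).2 (pbz hC w hφ).2
    · obtain ⟨φ, hφ, e⟩ := key w
      rw [e]
      exact (pbz hC w hφ).1
  rw [hΔ, map_sub, sub_eq_zero] at e2
  exact e2

end Trace

end NPCNP

open NPCNP in
/-- **Module CNP**: the conjugate of the pairing is the pairing for another trace. -/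
theorem stCnp : StCnp := by
  intro p _ S _ G _ _ _ _ D _ _ _ Γ c σ τ h hC
  refine ⟨-(Γ.tr.comp (th Γ c σ τ h)), fun ε hε β hβ => ?_,
    fun R _ M M' _ _ _ _ X Y h1 h2 hb T N hN x hx y hy => ?_⟩
  · change - Γ.tr (th Γ c σ τ h (d2 Γ.α ε, β)) = _
    rw [tr_th hC ε hε β hβ, neg_neg]
  · change - Γ.tr (th Γ c σ τ h (Xi Γ X T x y)) = _
    rw [tr_Xi hC X Y h1 h2 hb T N hN x hx y hy]

end BKT
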