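import Pool.Agent.Lib.MP_7c08ba_nt.T1.StNP

set_option autoImplicit false

/-!
Module KRN: the kernel of the map from `H¹_{T'}(M / N)` to `H¹_T(M / N)`.
-/

noncomputable section

namespace BKT

open BKPar (Loc1 Loc2)
open BKND (Sm)
open BKMet

namespace NPKRN

theorem card_mul {M : Type*} [AddCommGroup M] (H K : AddSubgroup M) (h : H ≤ K) :
    Nat.card H * H.relIndex K = Nat.card K := by
  have e := AddSubgroup.relIndex_mul_relIndex ⊥ H K bot_le h
  rwa [AddSubgroup.relIndex_bot_left, AddSubgroup.relIndex_bot_left] at e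

theorem card_pi' {ι : Type*} [Fintype ι] {M : Type*} [AddCommGroup M] (H : ι → AddSubgroup M) :
    Nat.card (AddSubgroup.pi Set.univ H) = ∏ i, Nat.card (H i) := by
  rw [← Nat.card_pi]
  refine Nat.card_congr ⟨fun x i => ⟨x.1 i, x.2 i (Set.mem_univ i)⟩,
    fun y => ⟨fun i => (y i).1, fun i _ => (y i).2⟩, fun x => rfl, fun y => rfl⟩

theorem relIndex_pi' {ι : Type*} [Fintype ι] {M : Type*} [AddCommGroup M] [Finite M]
    (H K : ι → AddSubgroup M) (h : ∀ i, H i ≤ K i) :
    (AddSubgroup.pi Set.univ H).relIndex (AddSubgroup.pi Set.univ K) =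
      ∏ i, (H i).relIndex (K i) := by
  have h1 : AddSubgroup.pi Set.univ H ≤ AddSubgroup.pi Set.univ K :=
    fun x hx i hi => h i (hx i hi)
  have e1 := card_mul _ _ h1
  rw [card_pi', card_pi'] at e1
  have e2 : (∏ i, Nat.card (H i)) * ∏ i, (H i).relIndex (K i) = ∏ i, Nat.card (K i) := by
    rw [← Finset.prod_mul_distrib]
    exact Finset.prod_congr rfl fun i _ => card_mul _ _ (h i)
  have h0 : 0 < ∏ i, Nat.card (H i) := Finset.prod_pos fun i _ => Nat.card_pos
  exact Nat.eq_of_mul_eq_mul_left h0 (e1.trans e2.symm)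

section

variable {R : Type} [CommRing R] {S : Type} {M : Type} [AddCommGroup M] [Module R M] {G : Type}

open Classical in
/-- the difference with the value at the place `w0` -/
def Ph (W : Set S) (w0 : S) : ((G → M) × (S → M)) →+ (S → M) where
  toFun x := fun w => if w ∈ W then x.2 w - x.2 w0 else 0
  map_zero' := by
    ext w
    simp
  map_add' x y := by
    ext w
    by_cases hw : w ∈ W
    · simp only [hw, if_true, Prod.snd_add, Pi.add_apply]
      abel
    · simp [hw]

end

end NPKRN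

open NPKRN in
theorem stKrn : StKrn := by
  classical
  intro R _ S _ G _ _ _ _ D _ r A _ α M M' _ _ _ _ _ X T T' hT hTT N hN
  obtain ⟨w0, hw0⟩ := hT
  set W : Set S := {w | w ∈ T' ∧ w ∉ T} with hW
  have hNf : ∀ w, N ≤ fxp X (r w) N := fun w m hm d => N.sub_mem (hN _ _ hm) hm
  set H : S → AddSubgroup M := fun w => if w ∈ W then N.toAddSubgroup else ⊥ with hH
  set K : S → AddSubgroup M := fun w => if w ∈ W then (fxp X (r w) N).toAddSubgroup else ⊥ with hK
  set B : AddSubgroup ((G → M) × (S → M)) := (X.Br T' N ⊤).toAddSubgroup with hB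
  set Q : AddSubgroup ((G → M) × (S → M)) :=
    (((X.Br T N ⊤).comap (rsz T)) ⊓ X.Zr r T' N ⊤).toAddSubgroup with hQ
  have hQm : ∀ x, x ∈ Q ↔ rsz (R := R) T x ∈ X.Br T N ⊤ ∧ x ∈ X.Zr r T' N ⊤ := fun x => Iff.rfl
  have hBm : ∀ x, x ∈ B ↔ x ∈ X.Br T' N ⊤ := fun x => Iff.rfl
  have hdiff : ∀ (m n : M) g, d0 X.ρ m g - d0 X.ρ n g = X.ρ g (m - n) - (m - n) := by
    intro m n g
    simp only [d0, map_sub]
    abel
  -- the image of Q
  have hmap : Q.map (Ph W w0) = AddSubgroup.pi Set.univ K := by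
    ext m
    constructor
    · rintro ⟨x, hx, rfl⟩ w -
      obtain ⟨⟨hl, ⟨n, -, hn1, hn2⟩, -⟩, hz⟩ := (hQm x).1 hx
      obtain ⟨-, -, -, hz3, hz4⟩ := hz
      by_cases hw : w ∈ W
      · have e : Ph W w0 x w = x.2 w - x.2 w0 := if_pos hw
        rw [hK]
        simp only [hw, if_true]
        change Ph W w0 x w ∈ fxp X (r w) N
        rw [e]
        have e1 : x.2 w - x.2 w0 = (x.2 w - n) - (x.2 w0 - n) := by abel
        rw [e1]
        refine Submodule.sub_mem _ ?_ (hNf w ?_)
        · intro d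
          rw [← hdiff]
          have h1 := (hz3 w hw.1).2 d
          have h2 : x.1 (r w d) - d0 X.ρ n (r w d) ∈ N := hn1 (r w d)
          have e2 : d0 X.ρ (x.2 w) (r w d) - d0 X.ρ n (r w d) =
            (x.1 (r w d) - d0 X.ρ n (r w d)) - (x.1 (r w d) - d0 X.ρ (x.2 w) (r w d)) := by abel
          rw [e2]
          exact N.sub_mem h2 h1
        · have h3 := hn2 w0 hw0
          have e3 : (rsz (R := R) T x).2 w0 = x.2 w0 := if_pos hw0
          rwa [e3] at h3
      · have e : Ph W w0 x w = 0 := if_neg hw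
        rw [e]
        exact AddSubgroup.zero_mem _
    · intro hm
      have hm0 : ∀ w, w ∉ W → m w = 0 := by
        intro w hw
        have h1 := hm w (Set.mem_univ w)
        rw [hK] at h1
        simp only [hw, if_false] at h1
        exact (AddSubgroup.mem_bot).1 h1
      have hm1 : ∀ w, w ∈ W → m w ∈ fxp X (r w) N := by
        intro w hw
        have h1 := hm w (Set.mem_univ w)
        rw [hK] at h1
        simp only [hw, if_true] at h1
        exact h1
      have hz0 : ∀ g : G, d0 X.ρ 0 g = 0 := fun g => by simp [d0]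
      refine ⟨((fun _ => 0), m), (hQm _).2 ⟨⟨BKND.Loc1.const 0, ⟨0, trivial, fun g => ?_,
        fun w hw => ?_⟩, fun w hw => if_neg hw⟩, ⟨BKND.Loc1.const 0, fun g => trivial,
        fun g h => ?_, fun w hw => ⟨trivial, fun d => ?_⟩, fun w hw => ?_⟩⟩, ?_⟩
      · change (0 : M) - d0 X.ρ 0 g ∈ N
        rw [hz0, sub_zero]
        exact N.zero_mem
      · have e3 : (rsz (R := R) T (((fun _ => 0), m) : (G → M) × (S → M))).2 w = m w := if_pos hw
        rw [e3, hm0 w (fun h => h.2 hw), sub_zero]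
        exact N.zero_mem
      · have e4 : d1 X.ρ (fun _ => (0 : M)) g h = 0 := by simp [d1]
        change d1 X.ρ (fun _ => (0 : M)) g h ∈ N
        rw [e4]
        exact N.zero_mem
      · change (0 : M) - d0 X.ρ (m w) (r w d) ∈ N
        by_cases hw' : w ∈ W
        · rw [zero_sub]
          exact N.neg_mem (hm1 w hw' d)
        · rw [hm0 w hw', hz0, sub_zero]
          exact N.zero_mem
      · exact hm0 w fun h => hw h.1
      · ext w
        by_cases hw : w ∈ W
        · have e : Ph W w0 (((fun _ => 0), m) : (G → M) × (S → M)) w = m w - m w0 := if_pos hw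
          rw [e, hm0 w0 (fun h => h.2 hw0), sub_zero]
        · have e : Ph W w0 (((fun _ => 0), m) : (G → M) × (S → M)) w = 0 := if_neg hw
          rw [e, hm0 w hw]
  -- the elements of B
  have hcom : B ⊓ Q = (AddSubgroup.pi Set.univ H).comap (Ph W w0) ⊓ Q := by
    ext x
    constructor
    · rintro ⟨hx, hxQ⟩
      refine ⟨?_, hxQ⟩
      obtain ⟨-, ⟨n, -, -, hn2⟩, -⟩ := (hBm x).1 hx
      intro w _
      rw [hH]
      by_cases hw : w ∈ W
      · have e : Ph W w0 x w = x.2 w - x.2 w0 := if_pos hw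
        simp only [hw, if_true]
        change Ph W w0 x w ∈ N
        rw [e]
        have e1 : x.2 w - x.2 w0 = (x.2 w - n) - (x.2 w0 - n) := by abel
        rw [e1]
        exact N.sub_mem (hn2 w hw.1) (hn2 w0 (hTT hw0))
      · have e : Ph W w0 x w = 0 := if_neg hw
        rw [e]
        exact AddSubgroup.zero_mem _
    · rintro ⟨hx, hxQ⟩
      refine ⟨?_, hxQ⟩
      obtain ⟨⟨hl, ⟨n, -, hn1, hn2⟩, -⟩, hz⟩ := (hQm x).1 hxQ
      obtain ⟨-, -, -, -, hz4⟩ := hz
      refine (hBm x).2 ⟨hl, ⟨n, trivial, hn1, fun w hw => ?_⟩, hz4⟩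
      by_cases hwT : w ∈ T
      · have h3 := hn2 w hwT
        have e3 : (rsz (R := R) T x).2 w = x.2 w := if_pos hwT
        rwa [e3] at h3
      · have hwW : w ∈ W := ⟨hw, hwT⟩
        have h1 := hx w (Set.mem_univ w)
        rw [hH] at h1
        simp only [hwW, if_true] at h1
        have h2 : Ph W w0 x w ∈ N := h1
        have e : Ph W w0 x w = x.2 w - x.2 w0 := if_pos hwW
        rw [e] at h2
        have h3 := hn2 w0 hw0
        have e3 : (rsz (R := R) T x).2 w0 = x.2 w0 := if_pos hw0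
        rw [e3] at h3
        have e1 : x.2 w - n = (x.2 w - x.2 w0) + (x.2 w0 - n) := by abel
        rw [e1]
        exact N.add_mem h2 h3
  have e1 : B.relIndex Q = ((AddSubgroup.pi Set.univ H).comap (Ph W w0)).relIndex Q := by
    rw [← AddSubgroup.inf_relIndex_right, hcom, AddSubgroup.inf_relIndex_right]
  have hHK : ∀ w, H w ≤ K w := by
    intro w
    rw [hH, hK]
    by_cases hw : w ∈ W
    · simp only [hw, if_true]
      exact fun m hm => hNf w hm
    · simp only [hw, if_false]
      exact le_rfl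
  rw [e1, AddSubgroup.relIndex_comap, hmap, relIndex_pi' H K hHK]
  refine Finset.prod_congr rfl fun w _ => ?_
  rw [hH, hK]
  by_cases hw : w ∈ W
  · have hw' : w ∈ T' ∧ w ∉ T := hw
    simp only [hw, if_true]
    rw [if_pos hw']
  · have hw' : ¬ (w ∈ T' ∧ w ∉ T) := hw
    simp only [hw, if_false]
    rw [if_neg hw', AddSubgroup.relIndex_self]

end BKT
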