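import Pool.Agent.Lib.MP_7c08ba_nt.T1.StU
import Pool.Agent.Lib.MP_7c08ba_nt.Met.XSD

set_option autoImplicit false

/-!
Parity for general residual representations and arbitrary ramification at the primes which do not
split, module FXL: the invariants modulo a lattice are finite for a representation without
invariants.
-/

noncomputable section

namespace BKT

open NumberField BKGen BKMet
open Matrix

namespace UFXL

section

variable {p : ℕ} [Fact p.Prime] {L : Type} [NormedField L] [NormedAlgebra ℚ_[p] L] {n : ℕ}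

theorem mem_latS {S : GL (Fin n) L} {P : Submodule (OO p L) (Fin n → OO p L)} {v : Fin n → L} :
    v ∈ latS p S P ↔ ∃ y ∈ P, inL p L n y = (S : Matrix (Fin n) (Fin n) L) *ᵥ v := Iff.rfl

theorem inL_apply (y : Fin n → OO p L) (i : Fin n) : inL p L n y i = (y i : L) := rfl

theorem inL_smul (a : OO p L) (y : Fin n → OO p L) :
    inL p L n (a • y) = (a : L) • inL p L n y := rfl

/-- the lattice as a submodule -/
def latM (S : GL (Fin n) L) (P : Submodule (OO p L) (Fin n → OO p L)) :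
    Submodule (OO p L) (Fin n → L) where
  __ := latS p S P
  smul_mem' := by
    rintro a v ⟨y, hy, hv⟩
    refine ⟨a • y, P.smul_mem a hy, ?_⟩
    rw [inL_smul, hv]
    change (a : L) • ((S : Matrix (Fin n) (Fin n) L) *ᵥ v) =
      (S : Matrix (Fin n) (Fin n) L) *ᵥ ((a : L) • v)
    rw [mulVec_smul]

theorem latM_coe (S : GL (Fin n) L) (P : Submodule (OO p L) (Fin n → OO p L)) :
    (latM S P).toAddSubgroup = latS p S P := rfl

/-- the fixed vectors modulo the lattice as a submodule -/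
def fixM {D : Type} [Group D] (V : D →* GL (Fin n) L) (Q : Submodule (OO p L) (Fin n → L)) :
    Submodule (OO p L) (Fin n → L) where
  __ := fixL V Q.toAddSubgroup
  smul_mem' := by
    intro a v hv d
    have h1 : (V d : Matrix (Fin n) (Fin n) L) *ᵥ v - v ∈ Q := hv d
    have h2 := Q.smul_mem a h1
    have h3 : a • ((V d : Matrix (Fin n) (Fin n) L) *ᵥ v - v) =
        (V d : Matrix (Fin n) (Fin n) L) *ᵥ (a • v) - a • v := by
      change (a : L) • ((V d : Matrix (Fin n) (Fin n) L) *ᵥ v - v) =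
        (V d : Matrix (Fin n) (Fin n) L) *ᵥ ((a : L) • v) - (a : L) • v
      rw [smul_sub, mulVec_smul]
    rwa [h3] at h2

theorem fixM_coe {D : Type} [Group D] (V : D →* GL (Fin n) L)
    (Q : Submodule (OO p L) (Fin n → L)) :
    (fixM V Q).toAddSubgroup = fixL V Q.toAddSubgroup := rfl

/-- vectors of a lattice are bounded -/
theorem norm_le_of_mem {S : GL (Fin n) L} {P : Submodule (OO p L) (Fin n → OO p L)}
    {v : Fin n → L} (h : v ∈ latS p S P) : ‖(S : Matrix (Fin n) (Fin n) L) *ᵥ v‖ ≤ 1 := by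
  obtain ⟨y, -, hy⟩ := h
  have hy' : inL p L n y = (S : Matrix (Fin n) (Fin n) L) *ᵥ v := hy
  rw [← hy', pi_norm_le_iff_of_nonneg zero_le_one]
  exact fun i => OO.norm_le (y i)

end

section

variable {p : ℕ} [Fact p.Prime] {L : Type} [NormedField L] [NormedAlgebra ℚ_[p] L]
  [FiniteDimensional ℚ_[p] L] {n : ℕ}

/-- small vectors are in the lattice -/
theorem mem_of_norm_le {S : GL (Fin n) L} {P : Submodule (OO p L) (Fin n → OO p L)}
    (hP : ∀ x : Fin n → OO p L, pi0 p L • x ∈ P) {v : Fin n → L}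
    (h : ‖(S : Matrix (Fin n) (Fin n) L) *ᵥ v‖ ≤ ‖((pi0 p L : OO p L) : L)‖) :
    v ∈ latS p S P := by
  rw [pi_norm_le_iff_of_nonneg (norm_nonneg _)] at h
  have h0 := pi0_pos p L
  have h1 : ∀ i, ‖((S : Matrix (Fin n) (Fin n) L) *ᵥ v) i / ((pi0 p L : OO p L) : L)‖ ≤ 1 := by
    intro i
    rw [norm_div, div_le_one h0]
    exact h i
  refine ⟨pi0 p L • fun i => (⟨_, h1 i⟩ : OO p L), hP _, ?_⟩
  funext i
  exact mul_div_cancel₀ _ (pi0_ne p L)

include p in
/-- multiplication by a matrix is bounded -/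
theorem exists_bound (A : Matrix (Fin n) (Fin n) L) : ∃ C : ℝ, 0 < C ∧
    ∀ v : Fin n → L, ‖A *ᵥ v‖ ≤ C * ‖v‖ := by
  have h1 := (LinearMap.continuous_of_finiteDimensional
    (A.mulVecLin.restrictScalars ℚ_[p]) : Continuous _)
  let f : (Fin n → L) →L[ℚ_[p]] (Fin n → L) := ⟨A.mulVecLin.restrictScalars ℚ_[p], h1⟩
  refine ⟨‖f‖ + 1, by positivity, fun v => ?_⟩
  refine (f.le_opNorm v).trans ?_
  exact mul_le_mul_of_nonneg_right (by linarith) (norm_nonneg v)

include p in
/-- without invariants, finitely many elements suffice -/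
theorem exists_lower {D : Type} [Group D] (V : D →* GL (Fin n) L) (hV : NoInv V) :
    ∃ C : ℝ, 0 < C ∧ ∀ (v : Fin n → L) (R : ℝ), 0 ≤ R →
      (∀ d, ‖(V d : Matrix (Fin n) (Fin n) L) *ᵥ v - v‖ ≤ R) → ‖v‖ ≤ C * R := by
  classical
  let g : D → (Fin n → L) →ₗ[L] (Fin n → L) := fun d =>
    (V d : Matrix (Fin n) (Fin n) L).mulVecLin - LinearMap.id
  obtain ⟨s, hs⟩ := Finset.exists_inf_le (fun d => LinearMap.ker (g d))
  let f : (Fin n → L) →ₗ[ℚ_[p]] (s → Fin n → L) :=
    LinearMap.pi fun d => (g d).restrictScalars ℚ_[p]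
  have hf : LinearMap.ker f = ⊥ := by
    rw [LinearMap.ker_eq_bot']
    intro v hv
    refine hV v fun d => ?_
    have h1 : v ∈ s.inf fun d => LinearMap.ker (g d) := by
      rw [Submodule.mem_finsetInf]
      intro i hi
      exact congrFun hv ⟨i, hi⟩
    have h2 : g d v = 0 := hs d h1
    exact sub_eq_zero.1 h2
  obtain ⟨K, hK0, hK⟩ := f.exists_antilipschitzWith hf
  refine ⟨K, by exact_mod_cast hK0, fun v R hR h => ?_⟩
  have h1 : ‖v‖ ≤ K * ‖f v‖ := by
    have h2 := hK.le_mul_dist v 0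
    rwa [map_zero, dist_zero_right, dist_zero_right] at h2
  refine h1.trans (mul_le_mul_of_nonneg_left ?_ K.2)
  rw [pi_norm_le_iff_of_nonneg hR]
  exact fun d => h d

theorem norm_small (S : GL (Fin n) L) (C : ℝ) : ∃ m : ℕ,
    ∀ v : Fin n → L, ‖v‖ ≤ C →
      ‖(S : Matrix (Fin n) (Fin n) L) *ᵥ (((pi0 p L : OO p L) : L) ^ m • v)‖ ≤
        ‖((pi0 p L : OO p L) : L)‖ := by
  obtain ⟨B, hB0, hB⟩ := exists_bound (p := p) (S : Matrix (Fin n) (Fin n) L)
  have h0 := pi0_pos p L
  have h1 := pi0_lt p L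
  obtain ⟨m, hm⟩ := exists_pow_lt_of_lt_one
    (show 0 < ‖((pi0 p L : OO p L) : L)‖ / (B * (|C| + 1)) by positivity) h1
  refine ⟨m, fun v hv => ?_⟩
  refine (hB _).trans ?_
  rw [norm_smul, norm_pow]
  rw [lt_div_iff₀ (by positivity)] at hm
  have h2 : ‖v‖ ≤ |C| + 1 := hv.trans ((le_abs_self C).trans (by linarith))
  calc B * (‖((pi0 p L : OO p L) : L)‖ ^ m * ‖v‖)
      ≤ B * (‖((pi0 p L : OO p L) : L)‖ ^ m * (|C| + 1)) := by gcongr
    _ = ‖((pi0 p L : OO p L) : L)‖ ^ m * (B * (|C| + 1)) := by ring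
    _ ≤ _ := hm.le

/-- a bounded set modulo a lattice is finite -/
theorem relIndex_ne_zero {S : GL (Fin n) L} {P : Submodule (OO p L) (Fin n → OO p L)}
    (hP : ∀ x : Fin n → OO p L, pi0 p L • x ∈ P) (Z : AddSubgroup (Fin n → L)) (C : ℝ)
    (hZ : ∀ v ∈ Z, ‖v‖ ≤ C) : (latS p S P).relIndex Z ≠ 0 := by
  have hL : ProperSpace L := FiniteDimensional.proper ℚ_[p] L
  have hu := BKND.DG.ultra (p := p) L
  have hu' : IsUltrametricDist (Fin n → L) := inferInstance
  have h0 := pi0_pos p L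
  let K : AddSubgroup (Fin n → L) :=
    { carrier := Metric.closedBall 0 |C|
      add_mem' := by
        intro a b ha hb
        rw [mem_closedBall_zero_iff] at ha hb ⊢
        exact (IsUltrametricDist.norm_add_le_max a b).trans (max_le ha hb)
      zero_mem' := Metric.mem_closedBall_self (abs_nonneg C)
      neg_mem' := by
        intro a ha
        rw [mem_closedBall_zero_iff] at ha ⊢
        rwa [norm_neg] }
  have hK : CompactSpace K := isCompact_iff_compactSpace.1 (isCompact_closedBall 0 |C|)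
  have hcont : Continuous fun v : Fin n → L => (S : Matrix (Fin n) (Fin n) L) *ᵥ v := by
    fun_prop
  have hopen : IsOpen ((latS p S P : AddSubgroup (Fin n → L)) : Set (Fin n → L)) := by
    have h1 : IsOpen ((fun v : Fin n → L => (S : Matrix (Fin n) (Fin n) L) *ᵥ v) ⁻¹'
        Metric.ball 0 ‖((pi0 p L : OO p L) : L)‖) := Metric.isOpen_ball.preimage hcont
    refine AddSubgroup.isOpen_of_mem_nhds _ (g := 0) ?_
    refine Filter.mem_of_superset (h1.mem_nhds ?_) ?_
    · rw [Set.mem_preimage, mulVec_zero]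
      exact Metric.mem_ball_self h0
    · intro v hv
      rw [Set.mem_preimage, mem_ball_zero_iff] at hv
      exact mem_of_norm_le hP hv.le
  have h2 : IsOpen (((latS p S P).addSubgroupOf K : AddSubgroup K) : Set K) :=
    hopen.preimage continuous_subtype_val
  have h3 : Finite (K ⧸ (latS p S P).addSubgroupOf K) :=
    AddSubgroup.quotient_finite_of_isOpen _ h2
  have h4 : (latS p S P).relIndex K ≠ 0 := Nat.card_pos.ne'
  have h5 : Z ≤ K := by
    intro v hv
    exact mem_closedBall_zero_iff.2 ((hZ v hv).trans (le_abs_self C))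
  intro h6
  have h7 := AddSubgroup.quotientAddSubgroupOfEmbeddingOfLE (latS p S P) h5
  have h8 : Finite (Z ⧸ (latS p S P).addSubgroupOf Z) := Finite.of_injective _ h7.injective
  exact Nat.card_pos.ne' h6

end

end UFXL

open UFXL in
theorem stFxl : StFxl := by
  intro p _ L _ _ _ D _ n V hV S P hP hst
  obtain ⟨B, hB0, hB⟩ := exists_bound (p := p) ((S⁻¹ : GL (Fin n) L) : Matrix (Fin n) (Fin n) L)
  obtain ⟨C, hC0, hC⟩ := exists_lower (p := p) V hV
  have h1 : ∀ v ∈ latS p S P, ‖v‖ ≤ B := by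
    intro v hv
    have h2 := hB ((S : Matrix (Fin n) (Fin n) L) *ᵥ v)
    rw [mulVec_mulVec, ← Units.val_mul, inv_mul_cancel, Units.val_one, one_mulVec] at h2
    exact h2.trans (mul_le_of_le_one_right hB0.le (norm_le_of_mem hv))
  have h2 : ∀ v ∈ fixL V (latS p S P), ‖v‖ ≤ C * B := fun v hv =>
    hC v B hB0.le fun d => h1 _ (hv d)
  refine ⟨?_, ?_⟩
  · have h3 := relIndex_ne_zero (S := S) hP _ _ h2
    exact XSD.relIndex_pow (OO p L) (latM S P) (fixM V (latM S P)) h3
  · obtain ⟨m, hm⟩ := norm_small (p := p) S (C * B)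
    exact ⟨m, fun v hv => mem_of_norm_le hP (hm v (h2 v hv))⟩

end BKT
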