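import Pool.Agent.Lib.MP_7c08ba_nt.T1.StU

set_option autoImplicit false

/-!
Module LEN: the length (longest chain of modules) and the index.
-/

noncomputable section

namespace BKT

open NumberField BKGen BKMet

namespace ULEN

variable (p : ℕ) [Fact p.Prime] (L : Type) [NormedField L] [NormedAlgebra ℚ_[p] L]

/-- `a ↦ a y` -/
def orb {W : Type} [NormedAddCommGroup W] [Module L W] (y : W) : OO p L →+ W where
  toFun a := (a : L) • y
  map_zero' := by
    change (0 : L) • y = 0
    exact zero_smul L y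
  map_add' a b := by
    change ((a : L) + (b : L)) • y = _
    exact add_smul _ _ _

variable {L}

theorem orb_apply {W : Type} [NormedAddCommGroup W] [Module L W] (y : W) (a : OO p L) :
    orb p L y a = (a : L) • y := rfl

variable {W : Type} [NormedAddCommGroup W] [Module L W] {A B : AddSubgroup W}

theorem isMod_sup (hA : BKS.IsMod L A) (y : W) : BKS.IsMod L (A ⊔ (orb p L y).range) := by
  intro a ha x hx
  obtain ⟨u, hu, v, ⟨b, rfl⟩, rfl⟩ := AddSubgroup.mem_sup.1 hx
  rw [smul_add]
  refine AddSubgroup.mem_sup.2 ⟨a • u, hA a ha u hu, _, ⟨(⟨a, ha⟩ : OO p L) * b, rfl⟩, ?_⟩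
  rw [orb_apply, orb_apply, smul_smul]
  rfl

theorem le_sup' (y : W) : y ∈ A ⊔ (orb p L y).range :=
  AddSubgroup.mem_sup_right ⟨1, by
    rw [orb_apply]
    change (1 : L) • y = y
    exact one_smul L y⟩

variable [FiniteDimensional ℚ_[p] L]

theorem card_step (hA : BKS.IsMod L A) {y : W} (hy : y ∉ A)
    (hπ : ((pi0 p L : OO p L) : L) • y ∈ A) :
    A.relIndex (A ⊔ (orb p L y).range) = Nat.card (kk p L) := by
  set f := QuotientAddGroup.mk' A with hf
  have h1 : A.relIndex (A ⊔ (orb p L y).range) =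
      Nat.card ((A ⊔ (orb p L y).range).map f) := by
    rw [← AddSubgroup.relIndex_ker, hf, QuotientAddGroup.ker_mk']
  have h2 : (A ⊔ (orb p L y).range).map f = (f.comp (orb p L y)).range := by
    rw [AddSubgroup.map_sup, AddMonoidHom.range_comp]
    have h3 : A.map f = ⊥ := by
      rw [AddSubgroup.map_eq_bot_iff, hf, QuotientAddGroup.ker_mk']
    rw [h3, bot_sup_eq]
  have h3 : (f.comp (orb p L y)).ker = (IsLocalRing.maximalIdeal (OO p L)).toAddSubgroup := by
    ext a
    rw [AddMonoidHom.mem_ker, AddMonoidHom.comp_apply, hf, QuotientAddGroup.mk'_apply,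
      QuotientAddGroup.eq_zero_iff, Submodule.mem_toAddSubgroup, OO.mem_max, orb_apply]
    constructor
    · intro h
      refine lt_of_le_of_ne (OO.norm_le a) fun h4 => hy ?_
      have ha0 : (a : L) ≠ 0 := by
        rw [← norm_pos_iff, h4]
        exact one_pos
      have h5 := hA (a : L)⁻¹ (by rw [norm_inv, h4, inv_one]) _ h
      rwa [smul_smul, inv_mul_cancel₀ ha0, one_smul] at h5
    · intro h
      obtain ⟨b, rfl⟩ := (pi0_dvd p L a).2 h
      have h5 := hA (b : L) (OO.norm_le b) _ hπ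
      rw [smul_smul] at h5
      have h6 : ((pi0 p L * b : OO p L) : L) = (b : L) * ((pi0 p L : OO p L) : L) := by
        rw [mul_comm]
        rfl
      rwa [h6]
  rw [h1, h2, ← AddSubgroup.index_ker, h3]
  rfl

/-- a power of the uniformizer multiplies into a submodule of finite index -/
theorem pow_mem (hB : BKS.IsMod L B) (hi : A.relIndex B ≠ 0) :
    ∃ n : ℕ, ∀ x ∈ B, ((pi0 p L : OO p L) : L) ^ n • x ∈ A := by
  set N := A.relIndex B with hN
  have c0 : CharZero L := charZero_of_injective_algebraMap (algebraMap ℚ_[p] L).injective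
  have hN0 : (N : L) ≠ 0 := Nat.cast_ne_zero.2 hi
  obtain ⟨n, hn⟩ := exists_pow_lt_of_lt_one (norm_pos_iff.2 hN0) (pi0_lt p L)
  refine ⟨n, fun x hx => ?_⟩
  have h1 : ∀ z ∈ B, N • z ∈ A := by
    intro z hz
    have h2 := AddSubgroup.nsmul_index_mem (A.addSubgroupOf B) (⟨z, hz⟩ : B)
    exact h2
  have h2 : ‖((pi0 p L : OO p L) : L) ^ n / (N : L)‖ ≤ 1 := by
    rw [norm_div, norm_pow]
    exact div_le_one_of_le₀ hn.le (norm_nonneg _)
  have h3 := h1 _ (hB _ h2 x hx)
  rw [← Nat.cast_smul_eq_nsmul L, smul_smul, mul_div_cancel₀ _ hN0] at h3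
  exact h3

/-- one step -/
theorem exists_step (hA : BKS.IsMod L A) (hB : BKS.IsMod L B) (hAB : A < B)
    (hi : A.relIndex B ≠ 0) : ∃ C : AddSubgroup W, BKS.IsMod L C ∧ A < C ∧ C ≤ B ∧
      A.relIndex C = Nat.card (kk p L) := by
  obtain ⟨x, hxB, hxA⟩ := SetLike.exists_of_lt hAB
  obtain ⟨n, hn⟩ := pow_mem p hB hi
  classical
  have hex : ∃ n : ℕ, ((pi0 p L : OO p L) : L) ^ n • x ∈ A := ⟨n, hn x hxB⟩
  set m := Nat.find hex with hm
  have hm1 := Nat.find_spec hex
  have hm0 : m ≠ 0 := by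
    intro h0
    rw [← hm, h0, pow_zero, one_smul] at hm1
    exact hxA hm1
  obtain ⟨j, hj⟩ := Nat.exists_eq_succ_of_ne_zero hm0
  have hy : ((pi0 p L : OO p L) : L) ^ j • x ∉ A := Nat.find_min hex (by omega)
  have hπ : ((pi0 p L : OO p L) : L) • ((pi0 p L : OO p L) : L) ^ j • x ∈ A := by
    rw [smul_smul, ← pow_succ', ← Nat.succ_eq_add_one, ← hj]
    exact hm1
  set y := ((pi0 p L : OO p L) : L) ^ j • x with hyd
  have hyB : y ∈ B := by
    refine hB _ ?_ x hxB
    rw [norm_pow]
    exact pow_le_one₀ (norm_nonneg _) (pi0_lt p L).le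
  refine ⟨A ⊔ (orb p L y).range, isMod_sup p hA y, ?_, ?_, card_step p hA hy hπ⟩
  · refine lt_of_le_of_ne le_sup_left fun h => hy ?_
    rw [h]
    exact le_sup' p y
  · refine sup_le hAB.le ?_
    rintro z ⟨a, rfl⟩
    exact hB _ (OO.norm_le a) _ hyB

/-- every step has index at least `q` -/
theorem le_step (hA : BKS.IsMod L A) (hB : BKS.IsMod L B) (hAB : A < B)
    (hi : A.relIndex B ≠ 0) : Nat.card (kk p L) ≤ A.relIndex B := by
  obtain ⟨C, -, hAC, hCB, hc⟩ := exists_step p hA hB hAB hi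
  have h1 := AddSubgroup.relIndex_mul_relIndex A C B hAC.le hCB
  rw [← hc]
  exact Nat.le_of_dvd (Nat.pos_of_ne_zero hi) ⟨_, h1.symm⟩

/-- A chain of modules. -/
def Chain (P : AddSubgroup W) (Q : Set W) (L : Type) [NormedField L] [Module L W] (m : ℕ) : Prop :=
  ∃ M : ℕ → AddSubgroup W, M 0 = P ∧ (M m : Set W) = Q ∧ (∀ i, BKS.IsMod L (M i)) ∧
    ∀ i < m, M i < M (i + 1)

theorem exists_chain {Q : AddSubgroup W} (hQ : BKS.IsMod L Q) : ∀ (N : ℕ) (P : AddSubgroup W),
    BKS.IsMod L P → P ≤ Q → P.relIndex Q = N → N ≠ 0 →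
    ∃ m : ℕ, N = Nat.card (kk p L) ^ m ∧ Chain P (Q : Set W) L m := by
  have h0 : Finite (kk p L) := instFiniteRes p L
  have hq : 2 ≤ Nat.card (kk p L) := Finite.one_lt_card
  intro N
  induction N using Nat.strong_induction_on with
  | _ N ih =>
    intro P hP hPQ hN hN0
    rcases hPQ.eq_or_lt with rfl | hlt
    · refine ⟨0, ?_, fun _ => P, rfl, rfl, fun _ => hP, fun i hi => absurd hi (Nat.not_lt_zero i)⟩
      rw [pow_zero, ← hN, AddSubgroup.relIndex_self]
    · obtain ⟨C, hC, hPC, hCQ, hc⟩ := exists_step p hP hQ hlt (by rw [hN]; exact hN0)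
      have h1 := AddSubgroup.relIndex_mul_relIndex P C Q hPC.le hCQ
      rw [hc, hN] at h1
      have h2 : C.relIndex Q ≠ 0 := by
        intro h3
        rw [h3, mul_zero] at h1
        exact hN0 h1.symm
      have h3 : C.relIndex Q < N := by
        rw [← h1]
        have := Nat.pos_of_ne_zero h2
        nlinarith
      obtain ⟨m, hm, M, hM0, hMm, hMi, hMl⟩ := ih _ h3 C hC hCQ rfl h2
      refine ⟨m + 1, ?_, fun i => Nat.casesOn i P M, rfl, hMm, ?_, ?_⟩
      · rw [← h1, hm, pow_succ']
      · intro i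
        cases i with
        | zero => exact hP
        | succ i => exact hMi i
      · intro i hi
        cases i with
        | zero =>
          change P < M 0
          rw [hM0]
          exact hPC
        | succ i => exact hMl i (by omega)

theorem chain_le {P Q : AddSubgroup W} (hi : P.relIndex Q ≠ 0) {m : ℕ}
    (h : Chain P (Q : Set W) L m) : Nat.card (kk p L) ^ m ≤ P.relIndex Q := by
  obtain ⟨M, hM0, hMm, hMi, hMl⟩ := h
  have hMm' : M m = Q := SetLike.coe_injective hMm
  have hmono : ∀ i j, i ≤ j → j ≤ m → M i ≤ M j := by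
    intro i j hij hj
    induction j, hij using Nat.le_induction with
    | base => exact le_rfl
    | succ j hij ih => exact (ih (by omega)).trans (hMl j (by omega)).le
  have key : ∀ i ≤ m, Nat.card (kk p L) ^ i ≤ P.relIndex (M i) := by
    intro i
    induction i with
    | zero =>
      intro _
      rw [hM0, pow_zero, AddSubgroup.relIndex_self]
    | succ i ih =>
      intro hi'
      have h1 : P ≤ M i := hM0 ▸ hmono 0 i (Nat.zero_le _) (by omega)
      have h2 := AddSubgroup.relIndex_mul_relIndex P (M i) (M (i + 1)) h1 (hMl i (by omega)).le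
      have h3 : M (i + 1) ≤ Q := hMm' ▸ hmono (i + 1) m hi' le_rfl
      have h4 := AddSubgroup.relIndex_mul_relIndex P (M (i + 1)) Q
        (h1.trans (hMl i (by omega)).le) h3
      have h5 : P.relIndex (M (i + 1)) ≠ 0 := by
        intro h6
        rw [h6, zero_mul] at h4
        exact hi h4.symm
      have h6 : (M i).relIndex (M (i + 1)) ≠ 0 := by
        intro h7
        rw [h7, mul_zero] at h2
        exact h5 h2.symm
      have h7 := le_step p (hMi i) (hMi (i + 1)) (hMl i (by omega)) h6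
      rw [← h2, pow_succ]
      exact Nat.mul_le_mul (ih (by omega)) h7
  have h1 := key m le_rfl
  rwa [hMm'] at h1

end ULEN

open ULEN

theorem stLen : StLen := by
  intro p _ L _ _ _ W _ _ P Q hP hQ hPQ hi
  have h0 : Finite (kk p L) := instFiniteRes p L
  have hq : 1 < Nat.card (kk p L) := Finite.one_lt_card
  obtain ⟨m, hm, hch⟩ := exists_chain p hQ _ P hP hPQ rfl hi
  have hle : ∀ m' : ℕ, Chain P (Q : Set W) L m' → m' ≤ m := by
    intro m' h'
    have h1 := chain_le p hi h'
    rw [hm] at h1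
    exact (Nat.pow_le_pow_iff_right hq).1 h1
  have h1 : BKS.len L P (Q : Set W) = m := by
    apply le_antisymm
    · exact csSup_le ⟨m, hch⟩ fun m' h' => hle m' h'
    · exact le_csSup ⟨m, fun m' h' => hle m' h'⟩ hch
  rw [h1]
  exact hm

end BKT
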