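import Pool.Agent.Lib.MP_7c08ba_nt.T1.StU
import Pool.Agent.Lib.MP_7c08ba_nt.T1.HMTB

set_option autoImplicit false

/-!
Parity for general residual representations and arbitrary ramification at the primes which do not
split, module MTE: the metabolic data give lattices with `IsMet`.
-/

noncomputable section

namespace BKT

open BKMet
open Matrix

namespace UMTE

section

variable {p : ℕ} [Fact p.Prime] {L : Type} [NormedField L] [NormedAlgebra ℚ_[p] L] {n : ℕ}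

theorem mem_latS (S : GL (Fin n) L) (P : Submodule (OO p L) (Fin n → OO p L)) (x : Fin n → L) :
    x ∈ latS p S P ↔ ∃ z ∈ P, HMTB.vc p z = (S : Matrix (Fin n) (Fin n) L) *ᵥ x := Iff.rfl

theorem inv_mulVec (S : GL (Fin n) L) (x : Fin n → L) :
    ((S⁻¹ : GL (Fin n) L) : Matrix (Fin n) (Fin n) L) *ᵥ
      ((S : Matrix (Fin n) (Fin n) L) *ᵥ x) = x := by
  rw [mulVec_mulVec, ← Units.val_mul, inv_mul_cancel, Units.val_one, one_mulVec]

theorem mulVec_inv (S : GL (Fin n) L) (x : Fin n → L) :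
    (S : Matrix (Fin n) (Fin n) L) *ᵥ
      (((S⁻¹ : GL (Fin n) L) : Matrix (Fin n) (Fin n) L) *ᵥ x) = x := by
  rw [mulVec_mulVec, ← Units.val_mul, mul_inv_cancel, Units.val_one, one_mulVec]

end

end UMTE

open UMTE in
theorem stMte : StMte := by
  intro p _ F _ L _ _ _ n V B S ρ B₀ N₁ h
  have hu := BKND.DG.ultra (p := p) L
  have hdot : ∀ x y : Fin n → L, ∀ z w : Fin n → OO p L,
      HMTB.vc p z = (S : Matrix (Fin n) (Fin n) L) *ᵥ x →
      HMTB.vc p w = (S : Matrix (Fin n) (Fin n) L) *ᵥ y →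
      BKS.frm (B : Matrix (Fin n) (Fin n) L) x y = ((z ⬝ᵥ (B₀ *ᵥ w) : OO p L) : L) := by
    intro x y z w hz hw
    rw [HMTB.vc_dot, HMTB.vc_mulVec, hz, hw]
    unfold BKS.frm
    rw [← h.form, ← mulVec_mulVec, ← mulVec_mulVec, dotProduct_mulVec, vecMul_transpose]
  have hact : ∀ g, ∀ P : Submodule (OO p L) (Fin n → OO p L),
      (∀ x ∈ P, (ρ g : Matrix (Fin n) (Fin n) (OO p L)) *ᵥ x ∈ P) →
      ∀ x ∈ latS p S P, BKS.vec V g x ∈ latS p S P := by
    rintro g P hP x ⟨z, hz, hzx⟩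
    have hzx' : HMTB.vc p z = (S : Matrix (Fin n) (Fin n) L) *ᵥ x := hzx
    refine (mem_latS S P _).2 ⟨(ρ g : Matrix (Fin n) (Fin n) (OO p L)) *ᵥ z, hP z hz, ?_⟩
    have h1 : ((ρ g : Matrix (Fin n) (Fin n) (OO p L))).map (OO p L).subtype =
        (S : Matrix (Fin n) (Fin n) L) * (V g : Matrix (Fin n) (Fin n) L) *
          ((S⁻¹ : GL (Fin n) L) : Matrix (Fin n) (Fin n) L) := by
      rw [← Units.val_mul, ← Units.val_mul, ← h.int g]
      rfl
    rw [HMTB.vc_mulVec, h1, hzx', ← mulVec_mulVec, ← mulVec_mulVec, inv_mulVec]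
    rfl
  have htop : ∀ x : Fin n → L, x ∈ latS p S ⊤ ↔
      ∃ z : Fin n → OO p L, HMTB.vc p z = (S : Matrix (Fin n) (Fin n) L) *ᵥ x := by
    intro x
    rw [mem_latS]
    simp
  refine ⟨?_, fun g => hact g ⊤ (fun _ _ => Submodule.mem_top), fun g => hact g N₁ (h.stab g),
    ?_, ?_⟩
  · -- bounded
    obtain ⟨D, hD0, hD⟩ : ∃ D : ℝ, 0 ≤ D ∧ ∀ i j,
        ‖((S⁻¹ : GL (Fin n) L) : Matrix (Fin n) (Fin n) L) i j‖ ≤ D := by
      refine ⟨∑ i, ∑ j, ‖((S⁻¹ : GL (Fin n) L) : Matrix (Fin n) (Fin n) L) i j‖,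
        Finset.sum_nonneg fun i _ => Finset.sum_nonneg fun j _ => norm_nonneg _, fun i j => ?_⟩
      refine (Finset.single_le_sum
        (f := fun j => ‖((S⁻¹ : GL (Fin n) L) : Matrix (Fin n) (Fin n) L) i j‖)
        (fun j _ => norm_nonneg _) (Finset.mem_univ j)).trans ?_
      exact Finset.single_le_sum
        (f := fun i => ∑ j, ‖((S⁻¹ : GL (Fin n) L) : Matrix (Fin n) (Fin n) L) i j‖)
        (fun i _ => Finset.sum_nonneg fun j _ => norm_nonneg _) (Finset.mem_univ i)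
    refine ⟨D * 1, fun x hx => ?_⟩
    obtain ⟨z, hz⟩ := (htop x).1 hx
    rw [pi_norm_le_iff_of_nonneg (by positivity)]
    intro i
    rw [← inv_mulVec S x, ← hz]
    exact HMTB.dot_le hu hD0 zero_le_one _ _ (hD i) fun j => OO.norm_le (z j)
  · -- self-dual
    intro y
    constructor
    · intro hy x hx
      obtain ⟨z, hz⟩ := (htop x).1 hx
      obtain ⟨w, hw⟩ := (htop y).1 hy
      rw [hdot x y z w hz hw]
      exact OO.norm_le _
    · intro hy
      -- the vector `B₀ S y` is integral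
      have h1 : ∀ i, ‖((B₀.map (OO p L).subtype) *ᵥ
          ((S : Matrix (Fin n) (Fin n) L) *ᵥ y)) i‖ ≤ 1 := by
        intro i
        have h2 := hy (((S⁻¹ : GL (Fin n) L) : Matrix (Fin n) (Fin n) L) *ᵥ
          HMTB.vc p (Pi.single i (1 : OO p L))) ((htop _).2 ⟨_, (mulVec_inv S _).symm⟩)
        unfold BKS.frm at h2
        rw [← h.form, ← mulVec_mulVec, ← mulVec_mulVec, dotProduct_mulVec, vecMul_transpose,
          mulVec_inv, HMTB.vc_single, single_one_dotProduct] at h2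
        exact h2
      obtain ⟨u, hu1⟩ : ∃ u : Fin n → OO p L, HMTB.vc p u = (B₀.map (OO p L).subtype) *ᵥ
          ((S : Matrix (Fin n) (Fin n) L) *ᵥ y) := ⟨fun i => ⟨_, h1 i⟩, rfl⟩
      refine (htop y).2 ⟨B₀⁻¹ *ᵥ u, ?_⟩
      rw [HMTB.vc_mulVec, hu1, mulVec_mulVec, ← Matrix.map_mul,
        Matrix.nonsing_inv_mul B₀ h.det, Matrix.map_one _ (map_zero _) (map_one _), one_mulVec]
  · -- Lagrangian
    intro y
    constructor
    · intro hy
      obtain ⟨w, hw, hwy⟩ := (mem_latS S N₁ y).1 hy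
      refine ⟨(htop y).2 ⟨w, hwy⟩, fun x hx => ?_⟩
      obtain ⟨z, hz, hzx⟩ := (mem_latS S N₁ x).1 hx
      rw [hdot x y z w hzx hwy, ← pi0_dvd]
      exact (h.lagr w).1 hw z hz
    · rintro ⟨hy, hxy⟩
      obtain ⟨w, hw⟩ := (htop y).1 hy
      refine (mem_latS S N₁ y).2 ⟨w, (h.lagr w).2 fun z hz => ?_, hw⟩
      rw [pi0_dvd, ← hdot (((S⁻¹ : GL (Fin n) L) : Matrix (Fin n) (Fin n) L) *ᵥ HMTB.vc p z) y z w
        (mulVec_inv S _).symm hw]
      exact hxy _ ((mem_latS S N₁ _).2 ⟨z, hz, (mulVec_inv S _).symm⟩)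

end BKT
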