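import Pool.Agent.Lib.MP_7c08ba_nt.T1.StU
import Pool.Agent.Lib.MP_7c08ba_nt.T1.HMTB

set_option autoImplicit false

/-!
Parity for general residual representations and arbitrary ramification at the primes which do not
split, module MTL: lattices with `IsMet` give the metabolic data; the local terms.
-/

noncomputable section

namespace BKT

open NumberField BKGen BKMet
open Matrix

namespace UMTL

open HMTB

/-- As module MTB, with the sets of the lattices. -/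
theorem mtbS (h : StLatM) (p : ℕ) [Fact p.Prime] (L : Type) [NormedField L]
    [NormedAlgebra ℚ_[p] L] [FiniteDimensional ℚ_[p] L] (G : Type) [Group G] (n : ℕ)
    (V : G →* GL (Fin n) L) (B : GL (Fin n) L) (hB : (B : Matrix (Fin n) (Fin n) L)ᵀ = B)
    (T N : Set (Fin n → L)) (hC : ∃ C : ℝ, ∀ x ∈ T, ‖x‖ ≤ C)
    (hVT : ∀ g, ∀ x ∈ T, (V g : Matrix (Fin n) (Fin n) L) *ᵥ x ∈ T)
    (hVN : ∀ g, ∀ x ∈ N, (V g : Matrix (Fin n) (Fin n) L) *ᵥ x ∈ N)
    (hT : ∀ y, y ∈ T ↔ ∀ x ∈ T, ‖x ⬝ᵥ ((B : Matrix (Fin n) (Fin n) L) *ᵥ y)‖ ≤ 1)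
    (hN : ∀ y, y ∈ N ↔ y ∈ T ∧ ∀ x ∈ N, ‖x ⬝ᵥ ((B : Matrix (Fin n) (Fin n) L) *ᵥ y)‖ < 1) :
    ∃ (S : GL (Fin n) L) (ρ : G →* GL (Fin n) (OO p L))
      (B₀ : Matrix (Fin n) (Fin n) (OO p L)) (N₁ : Submodule (OO p L) (Fin n → OO p L)),
      Metab V B S ρ B₀ N₁ ∧ (∀ x, x ∈ latS p S ⊤ ↔ x ∈ T) ∧ ∀ x, x ∈ latS p S N₁ ↔ x ∈ N := by
  have hu := BKND.DG.ultra (p := p) L
  obtain ⟨C, hC⟩ := hC
  have h0T : (0 : Fin n → L) ∈ T := by
    rw [hT]
    intro x _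
    rw [mulVec_zero, dotProduct_zero, norm_zero]
    exact zero_le_one
  have haT : ∀ x ∈ T, ∀ y ∈ T, x + y ∈ T := by
    intro x hx y hy
    rw [hT]
    intro z hz
    rw [mulVec_add, dotProduct_add]
    exact (IsUltrametricDist.norm_add_le_max _ _).trans (max_le ((hT x).1 hx z hz)
      ((hT y).1 hy z hz))
  have hsT : ∀ a : L, ‖a‖ ≤ 1 → ∀ x ∈ T, a • x ∈ T := by
    intro a ha x hx
    rw [hT]
    intro z hz
    rw [mulVec_smul, dotProduct_smul, smul_eq_mul, norm_mul]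
    exact mul_le_one₀ ha (norm_nonneg _) ((hT x).1 hx z hz)
  -- the lattice contains a ball
  have hball : ∃ ε : ℝ, 0 < ε ∧ ∀ x : Fin n → L, ‖x‖ ≤ ε → x ∈ T := by
    obtain ⟨D, hD0, hD⟩ : ∃ D : ℝ, 0 ≤ D ∧ ∀ i j, ‖(B : Matrix (Fin n) (Fin n) L) i j‖ ≤ D := by
      refine ⟨∑ i, ∑ j, ‖(B : Matrix (Fin n) (Fin n) L) i j‖,
        Finset.sum_nonneg fun i _ => Finset.sum_nonneg fun j _ => norm_nonneg _, fun i j => ?_⟩
      refine (Finset.single_le_sum (f := fun j => ‖(B : Matrix (Fin n) (Fin n) L) i j‖)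
        (fun j _ => norm_nonneg _) (Finset.mem_univ j)).trans ?_
      exact Finset.single_le_sum
        (f := fun i => ∑ j, ‖(B : Matrix (Fin n) (Fin n) L) i j‖)
        (fun i _ => Finset.sum_nonneg fun j _ => norm_nonneg _) (Finset.mem_univ i)
    have hpos : 0 < |C| * D + 1 := by positivity
    refine ⟨(|C| * D + 1)⁻¹, inv_pos.2 hpos, fun y hy => ?_⟩
    rw [hT]
    intro x hx
    have h1 : ∀ i, ‖((B : Matrix (Fin n) (Fin n) L) *ᵥ y) i‖ ≤ D * (|C| * D + 1)⁻¹ := fun i =>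
      dot_le hu hD0 (inv_pos.2 hpos).le _ _ (hD i) fun j => (norm_le_pi_norm y j).trans hy
    have h2 : ‖x ⬝ᵥ ((B : Matrix (Fin n) (Fin n) L) *ᵥ y)‖ ≤ |C| * (D * (|C| * D + 1)⁻¹) :=
      dot_le hu (abs_nonneg C) (mul_nonneg hD0 (inv_pos.2 hpos).le) _ _
        (fun i => ((norm_le_pi_norm x i).trans (hC x hx)).trans (le_abs_self C)) h1
    refine h2.trans ?_
    rw [← mul_assoc, ← div_eq_mul_inv, div_le_one hpos]
    linarith
  obtain ⟨A, hA, hρ⟩ := h p L n T h0T haT hsT ⟨C, hC⟩ hball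
  obtain ⟨ρ, hρ⟩ := hρ G V hVT
  have hAi : ∀ z : Fin n → OO p L,
      ((A⁻¹ : GL (Fin n) L) : Matrix (Fin n) (Fin n) L) *ᵥ vc p z ∈ T := by
    intro z
    rw [hA]
    intro i
    rw [mulVec_mulVec, ← Units.val_mul, mul_inv_cancel, Units.val_one, one_mulVec]
    exact OO.norm_le (z i)
  have hAe : ∀ x ∈ T, ∃ z : Fin n → OO p L,
      x = ((A⁻¹ : GL (Fin n) L) : Matrix (Fin n) (Fin n) L) *ᵥ vc p z := by
    intro x hx
    refine ⟨fun i => ⟨((A : Matrix (Fin n) (Fin n) L) *ᵥ x) i, (hA x).1 hx i⟩, ?_⟩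
    change x = ((A⁻¹ : GL (Fin n) L) : Matrix (Fin n) (Fin n) L) *ᵥ
      ((A : Matrix (Fin n) (Fin n) L) *ᵥ x)
    rw [mulVec_mulVec, ← Units.val_mul, inv_mul_cancel, Units.val_one, one_mulVec]
  -- the form in the coordinates of the lattice
  obtain ⟨M, hM⟩ : ∃ M : Matrix (Fin n) (Fin n) L,
      M = (((A⁻¹ : GL (Fin n) L) : Matrix (Fin n) (Fin n) L))ᵀ *
        (B : Matrix (Fin n) (Fin n) L) * ((A⁻¹ : GL (Fin n) L) : Matrix (Fin n) (Fin n) L) :=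
    ⟨_, rfl⟩
  have hMdot : ∀ x y : Fin n → L, x ⬝ᵥ (M *ᵥ y) =
      (((A⁻¹ : GL (Fin n) L) : Matrix (Fin n) (Fin n) L) *ᵥ x) ⬝ᵥ
      ((B : Matrix (Fin n) (Fin n) L) *ᵥ
        (((A⁻¹ : GL (Fin n) L) : Matrix (Fin n) (Fin n) L) *ᵥ y)) := by
    intro x y
    rw [hM, ← mulVec_mulVec, ← mulVec_mulVec, dotProduct_mulVec, vecMul_transpose]
  obtain ⟨M', hM'⟩ : ∃ M' : Matrix (Fin n) (Fin n) L,
      M' = (A : Matrix (Fin n) (Fin n) L) *
        ((B⁻¹ : GL (Fin n) L) : Matrix (Fin n) (Fin n) L) *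
        ((A : Matrix (Fin n) (Fin n) L))ᵀ := ⟨_, rfl⟩
  have hAA : (A : Matrix (Fin n) (Fin n) L) *
      ((A⁻¹ : GL (Fin n) L) : Matrix (Fin n) (Fin n) L) = 1 := by
    rw [← Units.val_mul, mul_inv_cancel, Units.val_one]
  have hAA' : ((A⁻¹ : GL (Fin n) L) : Matrix (Fin n) (Fin n) L) *
      (A : Matrix (Fin n) (Fin n) L) = 1 := by
    rw [← Units.val_mul, inv_mul_cancel, Units.val_one]
  have hBB : (B : Matrix (Fin n) (Fin n) L) *
      ((B⁻¹ : GL (Fin n) L) : Matrix (Fin n) (Fin n) L) = 1 := by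
    rw [← Units.val_mul, mul_inv_cancel, Units.val_one]
  have hMM : M * M' = 1 := by
    rw [hM, hM']
    have h1 : (((A⁻¹ : GL (Fin n) L) : Matrix (Fin n) (Fin n) L))ᵀ *
        (B : Matrix (Fin n) (Fin n) L) * ((A⁻¹ : GL (Fin n) L) : Matrix (Fin n) (Fin n) L) *
        ((A : Matrix (Fin n) (Fin n) L) *
        ((B⁻¹ : GL (Fin n) L) : Matrix (Fin n) (Fin n) L) *
        ((A : Matrix (Fin n) (Fin n) L))ᵀ) =
        (((A⁻¹ : GL (Fin n) L) : Matrix (Fin n) (Fin n) L))ᵀ *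
        ((B : Matrix (Fin n) (Fin n) L) * ((((A⁻¹ : GL (Fin n) L) : Matrix (Fin n) (Fin n) L) *
        (A : Matrix (Fin n) (Fin n) L)) *
        ((B⁻¹ : GL (Fin n) L) : Matrix (Fin n) (Fin n) L))) *
        ((A : Matrix (Fin n) (Fin n) L))ᵀ := by
      simp only [Matrix.mul_assoc]
    rw [h1, hAA', Matrix.one_mul, hBB, Matrix.mul_one, ← Matrix.transpose_mul, hAA,
      Matrix.transpose_one]
  have hMint : ∀ i j, ‖M i j‖ ≤ 1 := by
    intro i j
    have h1 : M i j = Pi.single i (1 : L) ⬝ᵥ (M *ᵥ Pi.single j (1 : L)) := by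
      rw [mulVec_single_one, single_one_dotProduct]
      rfl
    rw [h1, hMdot, ← vc_single (p := p), ← vc_single (p := p)]
    exact (hT _).1 (hAi _) _ (hAi _)
  have hM'int : ∀ i j, ‖M' i j‖ ≤ 1 := by
    intro i j
    have h1 : M' i j = ((A : Matrix (Fin n) (Fin n) L) *ᵥ
        (((B⁻¹ : GL (Fin n) L) : Matrix (Fin n) (Fin n) L) *ᵥ
        (((A : Matrix (Fin n) (Fin n) L))ᵀ *ᵥ Pi.single j (1 : L)))) i := by
      rw [mulVec_mulVec, mulVec_mulVec, ← hM', mulVec_single_one]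
      rfl
    rw [h1]
    refine (hA _).1 ?_ i
    rw [hT]
    intro x hx
    rw [mulVec_mulVec, hBB, one_mulVec, dotProduct_mulVec, vecMul_transpose,
      dotProduct_single_one]
    exact (hA x).1 hx j
  obtain ⟨B₀, hB₀⟩ : ∃ B₀ : Matrix (Fin n) (Fin n) (OO p L), B₀.map (OO p L).subtype = M :=
    ⟨fun i j => ⟨M i j, hMint i j⟩, rfl⟩
  obtain ⟨B₁, hB₁⟩ : ∃ B₁ : Matrix (Fin n) (Fin n) (OO p L), B₁.map (OO p L).subtype = M' :=
    ⟨fun i j => ⟨M' i j, hM'int i j⟩, rfl⟩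
  have hunit : B₀ * B₁ = 1 := by
    apply map_inj (p := p) (L := L)
    change (B₀ * B₁).map (OO p L).subtype =
      (1 : Matrix (Fin n) (Fin n) (OO p L)).map (OO p L).subtype
    rw [Matrix.map_mul, hB₀, hB₁, hMM, Matrix.map_one _ (map_zero _) (map_one _)]
  have hdot : ∀ x y : Fin n → OO p L, ((x ⬝ᵥ (B₀ *ᵥ y) : OO p L) : L) =
      (((A⁻¹ : GL (Fin n) L) : Matrix (Fin n) (Fin n) L) *ᵥ vc p x) ⬝ᵥ
      ((B : Matrix (Fin n) (Fin n) L) *ᵥ
        (((A⁻¹ : GL (Fin n) L) : Matrix (Fin n) (Fin n) L) *ᵥ vc p y)) := by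
    intro x y
    rw [vc_dot, vc_mulVec, hB₀, hMdot]
  -- the Lagrangian
  have hNT : ∀ y ∈ N, y ∈ T := fun y hy => ((hN y).1 hy).1
  obtain ⟨N₁, hN₁⟩ : ∃ N₁ : Submodule (OO p L) (Fin n → OO p L), ∀ z, z ∈ N₁ ↔
      ((A⁻¹ : GL (Fin n) L) : Matrix (Fin n) (Fin n) L) *ᵥ vc p z ∈ N := by
    refine ⟨{ carrier := {z | ((A⁻¹ : GL (Fin n) L) : Matrix (Fin n) (Fin n) L) *ᵥ vc p z ∈ N}
              add_mem' := ?_
              zero_mem' := ?_
              smul_mem' := ?_ }, fun z => Iff.rfl⟩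
    · intro z w hz hw
      change _ *ᵥ vc p (z + w) ∈ N
      rw [vc_add, mulVec_add, hN]
      refine ⟨haT _ (hNT _ hz) _ (hNT _ hw), fun x hx => ?_⟩
      rw [mulVec_add, dotProduct_add]
      exact (IsUltrametricDist.norm_add_le_max _ _).trans_lt (max_lt (((hN _).1 hz).2 x hx)
        (((hN _).1 hw).2 x hx))
    · change _ *ᵥ vc p (0 : Fin n → OO p L) ∈ N
      rw [vc_zero, mulVec_zero, hN]
      refine ⟨h0T, fun x _ => ?_⟩
      rw [mulVec_zero, dotProduct_zero, norm_zero]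
      exact zero_lt_one
    · intro a z hz
      change _ *ᵥ vc p (a • z) ∈ N
      rw [vc_smul, mulVec_smul, hN]
      refine ⟨hsT _ (OO.norm_le a) _ (hNT _ hz), fun x hx => ?_⟩
      rw [mulVec_smul, dotProduct_smul, smul_eq_mul, norm_mul]
      calc ‖(a : L)‖ * _ ≤ 1 * _ :=
            mul_le_mul_of_nonneg_right (OO.norm_le a) (norm_nonneg _)
        _ < 1 := by
          rw [one_mul]
          exact ((hN _).1 hz).2 x hx
  refine ⟨A, ρ, B₀, N₁, ⟨hρ, ?_, ?_, ?_, ?_, ?_, ?_⟩, ?_, ?_⟩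
  · apply map_inj (p := p) (L := L)
    change B₀ᵀ.map (OO p L).subtype = B₀.map (OO p L).subtype
    have h1 : B₀ᵀ.map (OO p L).subtype = Mᵀ := by
      rw [← hB₀]
      rfl
    rw [h1, hB₀, hM, Matrix.transpose_mul, Matrix.transpose_mul, hB,
      Matrix.transpose_transpose, Matrix.mul_assoc]
  · exact (Matrix.isUnit_iff_isUnit_det _).1 (IsUnit.of_mul_eq_one _ hunit)
  · rw [hB₀, hM]
    have h1 : ((A : Matrix (Fin n) (Fin n) L))ᵀ *
        ((((A⁻¹ : GL (Fin n) L) : Matrix (Fin n) (Fin n) L))ᵀ *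
        (B : Matrix (Fin n) (Fin n) L) * ((A⁻¹ : GL (Fin n) L) : Matrix (Fin n) (Fin n) L)) *
        (A : Matrix (Fin n) (Fin n) L) =
        (((A : Matrix (Fin n) (Fin n) L))ᵀ *
        (((A⁻¹ : GL (Fin n) L) : Matrix (Fin n) (Fin n) L))ᵀ) *
        (B : Matrix (Fin n) (Fin n) L) * (((A⁻¹ : GL (Fin n) L) : Matrix (Fin n) (Fin n) L) *
        (A : Matrix (Fin n) (Fin n) L)) := by
      simp only [Matrix.mul_assoc]
    rw [h1, hAA', Matrix.mul_one, ← Matrix.transpose_mul, hAA', Matrix.transpose_one,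
      Matrix.one_mul]
  · intro x
    rw [hN₁, vc_smul, mulVec_smul, hN]
    refine ⟨hsT _ (OO.norm_le _) _ (hAi x), fun y hy => ?_⟩
    rw [mulVec_smul, dotProduct_smul, smul_eq_mul, norm_mul]
    calc ‖((pi0 p L : OO p L) : L)‖ * _ ≤ ‖((pi0 p L : OO p L) : L)‖ * 1 :=
          mul_le_mul_of_nonneg_left ((hT _).1 (hAi x) y (hNT y hy)) (norm_nonneg _)
      _ < 1 := by
        rw [mul_one]
        exact pi0_lt p L
  · intro g x hx
    rw [hN₁] at hx ⊢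
    have h1 : ((ρ g : Matrix (Fin n) (Fin n) (OO p L))).map (OO p L).subtype =
        (A : Matrix (Fin n) (Fin n) L) * (V g : Matrix (Fin n) (Fin n) L) *
          ((A⁻¹ : GL (Fin n) L) : Matrix (Fin n) (Fin n) L) := by
      rw [← Units.val_mul, ← Units.val_mul, ← hρ g]
      rfl
    have h2 : ((A⁻¹ : GL (Fin n) L) : Matrix (Fin n) (Fin n) L) *ᵥ
        vc p ((ρ g : Matrix (Fin n) (Fin n) (OO p L)) *ᵥ x) =
        (V g : Matrix (Fin n) (Fin n) L) *ᵥ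
          (((A⁻¹ : GL (Fin n) L) : Matrix (Fin n) (Fin n) L) *ᵥ vc p x) := by
      rw [vc_mulVec, h1, mulVec_mulVec, mulVec_mulVec, ← Matrix.mul_assoc, ← Matrix.mul_assoc,
        hAA', Matrix.one_mul]
    rw [h2]
    exact hVN g _ hx
  · intro y
    rw [hN₁, hN]
    constructor
    · rintro ⟨_, hy⟩ x hx
      rw [pi0_dvd, hdot]
      exact hy _ ((hN₁ x).1 hx)
    · intro hy
      refine ⟨hAi y, fun x hx => ?_⟩
      obtain ⟨z, rfl⟩ := hAe x (hNT x hx)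
      have h1 := hy z ((hN₁ z).2 hx)
      rwa [pi0_dvd, hdot] at h1
  · intro x
    constructor
    · rintro ⟨z, _, hz⟩
      have h1 : vc p z = (A : Matrix (Fin n) (Fin n) L) *ᵥ x := hz
      have h2 := hAi z
      rwa [h1, mulVec_mulVec, hAA', one_mulVec] at h2
    · intro hx
      obtain ⟨z, rfl⟩ := hAe x hx
      refine ⟨z, trivial, ?_⟩
      change vc p z = (A : Matrix (Fin n) (Fin n) L) *ᵥ
        (((A⁻¹ : GL (Fin n) L) : Matrix (Fin n) (Fin n) L) *ᵥ vc p z)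
      rw [mulVec_mulVec, hAA, one_mulVec]
  · intro x
    constructor
    · rintro ⟨z, hz', hz⟩
      have h1 : vc p z = (A : Matrix (Fin n) (Fin n) L) *ᵥ x := hz
      have h2 := (hN₁ z).1 hz'
      rwa [h1, mulVec_mulVec, hAA', one_mulVec] at h2
    · intro hx
      obtain ⟨z, rfl⟩ := hAe x (hNT x hx)
      refine ⟨z, (hN₁ z).2 hx, ?_⟩
      change vc p z = (A : Matrix (Fin n) (Fin n) L) *ᵥ
        (((A⁻¹ : GL (Fin n) L) : Matrix (Fin n) (Fin n) L) *ᵥ vc p z)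
      rw [mulVec_mulVec, hAA, one_mulVec]

/-! ### The local terms -/

section Local

variable {F : Type} [Field F] {L : Type} [NormedField L] {n : ℕ}

/-- the decomposition group of the place `j` -/
def decG {l : ℕ} [Fact l.Prime] (j : AlgebraicClosure F →+* PadicAlgCl l) :
    Subgroup (GF F) where
  carrier := {g | ∃ t : GQ l, ∀ z, j (g z) = t (j z)}
  mul_mem' := by
    rintro g g' ⟨t, ht⟩ ⟨t', ht'⟩
    refine ⟨t * t', fun z => ?_⟩
    rw [AlgEquiv.mul_apply, AlgEquiv.mul_apply, ht, ht']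
  one_mem' := ⟨1, fun z => rfl⟩
  inv_mem' := by
    rintro g ⟨t, ht⟩
    refine ⟨t⁻¹, fun z => ?_⟩
    have h1 := ht ((g⁻¹ : GF F) z)
    have h2 : (g : GF F) ((g⁻¹ : GF F) z) = z := by
      rw [← AlgEquiv.mul_apply, mul_inv_cancel, AlgEquiv.one_apply]
    rw [h2] at h1
    rw [h1, ← AlgEquiv.mul_apply, inv_mul_cancel, AlgEquiv.one_apply]

theorem fixL_eq {l : ℕ} [Fact l.Prime] (j : AlgebraicClosure F →+* PadicAlgCl l)
    (V : GF F →* GL (Fin n) L) (P : AddSubgroup (Fin n → L)) :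
    fixL (V.comp (decG j).subtype) P = fixJ V j P := by
  ext v
  constructor
  · intro h g t hgt
    exact h ⟨g, t, hgt⟩
  · rintro h ⟨g, t, hgt⟩
    exact h g t hgt

theorem fixed_eq {l : ℕ} [Fact l.Prime] (j : AlgebraicClosure F →+* PadicAlgCl l)
    (V : GF F →* GL (Fin n) L) (P : AddSubgroup (Fin n → L)) :
    BKS.fixed (BKS.vec V) j P = (fixJ V j P : Set (Fin n → L)) := rfl

/-- the local terms -/
theorem len_eq (h2 : StLen) (h3 : StFxl) (p : ℕ) [Fact p.Prime] [NormedAlgebra ℚ_[p] L]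
    [FiniteDimensional ℚ_[p] L] {l : ℕ} [Fact l.Prime]
    (j : AlgebraicClosure F →+* PadicAlgCl l) (V : GF F →* GL (Fin n) L)
    (hV : ∀ v : Fin n → L, (∀ (g : GF F) (t : GQ l), (∀ z, j (g z) = t (j z)) →
      (V g : Matrix (Fin n) (Fin n) L) *ᵥ v = v) → v = 0) (S : GL (Fin n) L)
    (P : Submodule (OO p L) (Fin n → OO p L)) (hP : ∀ x : Fin n → OO p L, pi0 p L • x ∈ P)
    (hVP : ∀ g, ∀ v ∈ latS p S P, (V g : Matrix (Fin n) (Fin n) L) *ᵥ v ∈ latS p S P)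
    (hM : BKS.IsMod L (latS p S P)) :
    BKS.len L (latS p S P) (BKS.fixed (BKS.vec V) j (latS p S P)) = lnJ p V j (latS p S P) := by
  obtain ⟨⟨e, he⟩, _⟩ := h3 p L (decG j) n (V.comp (decG j).subtype) (fun v hv =>
    hV v fun g t hgt => hv ⟨g, t, hgt⟩) S P hP (fun d => hVP d)
  rw [fixL_eq] at he
  have hq : 1 < Nat.card (kk p L) := Finite.one_lt_card
  have h4 := h2 p L (Fin n → L) (latS p S P) (fixJ V j (latS p S P)) hM ?_ ?_ ?_
  · rw [fixed_eq, lnJ, h4, Nat.log_pow hq]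
  · intro a ha x hx g t hgt
    rw [Matrix.mulVec_smul, ← smul_sub]
    exact hM a ha _ (hx g t hgt)
  · intro v hv g t _
    exact AddSubgroup.sub_mem _ (hVP g v hv) hv
  · rw [he]
    exact pow_ne_zero _ (by omega)

end Local

end UMTL

open UMTL in
theorem stMtl (h1 : StLatM) (h2 : StLen) (h3 : StFxl) : StMtl := by
  intro p _ F _ L _ _ _ n V B hB T N hM
  have hu := BKND.DG.ultra (p := p) L
  obtain ⟨S, ρ, B₀, N₁, hMet, hT, hN⟩ := mtbS h1 p L (GF F) n V B hB T N hM.bdd hM.stab hM.stab'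
    hM.dual hM.lagr
  have eT : latS p S ⊤ = T := AddSubgroup.ext hT
  have eN : latS p S N₁ = N := AddSubgroup.ext hN
  refine ⟨S, ρ, B₀, N₁, hMet, eT, eN, fun l _ j hj => ?_⟩
  have hTM : BKS.IsMod L T := by
    intro a ha x hx
    have hx' := hx
    rw [← SetLike.mem_coe] at hx'
    refine (hM.dual _).2 fun z hz => ?_
    have h4 := (hM.dual x).1 hx z hz
    unfold BKS.frm at h4 ⊢
    rw [mulVec_smul, dotProduct_smul, smul_eq_mul, norm_mul]
    exact mul_le_one₀ ha (norm_nonneg _) h4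
  have hNM : BKS.IsMod L N := by
    intro a ha x hx
    refine (hM.lagr _).2 ⟨hTM a ha x ((hM.lagr x).1 hx).1, fun z hz => ?_⟩
    have h4 := ((hM.lagr x).1 hx).2 z hz
    unfold BKS.frm at h4 ⊢
    rw [mulVec_smul, dotProduct_smul, smul_eq_mul, norm_mul]
    calc ‖a‖ * _ ≤ 1 * _ := mul_le_mul_of_nonneg_right ha (norm_nonneg _)
      _ < 1 := by
        rw [one_mul]
        exact h4
  have f1 := len_eq h2 h3 p j V hj S ⊤ (fun _ => trivial) (by
    rw [eT]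
    exact hM.stab) (by
    rw [eT]
    exact hTM)
  have f2 := len_eq h2 h3 p j V hj S N₁ hMet.sub (by
    rw [eN]
    exact hM.stab') (by
    rw [eN]
    exact hNM)
  rw [← f1, ← f2, eT, eN]
  rfl

end BKT
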