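import Pool.Agent.Lib.MP_7c08ba_nt.T1.StU
import Pool.Agent.Lib.MP_7c08ba_nt.T1.HPARW2

set_option autoImplicit false

/-!
Parity for general residual representations and arbitrary ramification at the primes which do not
split: module PSN, parity for direct sums.
-/

noncomputable section

namespace BKT

open NumberField BKGen BKMet
open Matrix

open HPARW2 in
theorem stPsn (h1 : StParN) (h2 : StSumH) (h3 : StSumT) : StPsn := by
  intro p _ hp F _ _ hF hIm hsp c σ hcs L _ _ _ n n' V V' B B' hV hV' P₀ hP₀ hspl κ _ m _ hm hns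
    j₀ hram hinv hB hB' hdual hdual' S ρ B₀ N hM hdR hfrob
  have hpp : p.Prime := Fact.out
  obtain ⟨hcont, hfin⟩ := h2 p F L n n' V V' hV hV'
  have key := h1 p hp F hF hIm hsp c σ hcs L (n + n') (dsum V V') hcont P₀ hP₀ hspl κ m hm hns j₀
    ?_ ?_ (blkG B (-B')) ?_ ?_ S ρ B₀ N hM
    (fun j => (h3 p F hF hsp L n n' V V' j).1 (hdR j).1 (hdR j).2)
    (fun j => (h3 p F hF hsp L n n' V V' j).2.1 (hfrob j).1 (hfrob j).2)
  · obtain ⟨hfd, hpar⟩ := key
    obtain ⟨f1, f2, f3⟩ := hfin hfd
    refine ⟨f1, f2, fun i => ?_⟩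
    have e1 := hpar i
    rw [f3, (h3 p F hF hsp L n n' V V' i).2.2 (hdR i).1 (hdR i).2] at e1
    rw [← e1]
    congr 1
    omega
  · intro l _ hlp hl hlm j g hg
    obtain ⟨⟨a, ha, e⟩, ⟨a', ha', e'⟩⟩ := hram l hlp hl hlm j g hg
    refine ⟨a * a', fun h => ?_, dsum_pow V V' e e'⟩
    rcases hpp.dvd_mul.1 h with h | h
    · exact ha h
    · exact ha' h
  · intro l _ hlp j v hv
    have a1 : (fun k => v (Fin.castAdd n' k)) = 0 := by
      refine (hinv l hlp j).1 _ fun g t hgt => ?_
      funext i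
      rw [← blk_mulVec_left _ (V' g : Matrix (Fin n') (Fin n') L)]
      exact congrFun (hv g t hgt) _
    have a2 : (fun k => v (Fin.natAdd n k)) = 0 := by
      refine (hinv l hlp j).2 _ fun g t hgt => ?_
      funext i
      rw [← blk_mulVec_right (V g : Matrix (Fin n) (Fin n) L)]
      exact congrFun (hv g t hgt) _
    funext i
    refine Fin.addCases (fun k => ?_) (fun k => ?_) i
    · exact congrFun a1 k
    · exact congrFun a2 k
  · rw [coe_blkG, blk_transpose, Matrix.transpose_neg, hB, hB']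
  · intro g
    have d1 := hdual g
    have d2 := hdual' g
    rw [coe_dsum, coe_blkG, blk_transpose, blk_mul]
    change blk _ _ * blk (V _ : Matrix (Fin n) (Fin n) L) (V' _ : Matrix (Fin n') (Fin n') L) = _
    rw [blk_mul, ← smul_blk]
    rw [Matrix.mul_neg, Matrix.neg_mul, smul_neg]
    congr 1
    rw [← d2]
    rfl

end BKT
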