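import Pool.Agent.Lib.MP_7c08ba_nt.T1.StU
import Pool.Agent.Lib.MP_7c08ba_nt.T1.FPARH

set_option autoImplicit false

/-!
Parity for general residual representations and arbitrary ramification at the primes which do not
split: module PUF, the theorem.
-/

noncomputable section

namespace BKT

open NumberField BKGen BKMet
open Matrix

namespace UPUF

variable {p : ℕ} [Fact p.Prime] {F : Type} [Field F] {L : Type} [NormedField L]
  [NormedAlgebra ℚ_[p] L] {n : ℕ} {V : BKS.Rep (BKS.GF F) L n}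

/-- the form of a polarisation, as an invertible matrix -/
def glB {c : AlgebraicClosure F ≃+* AlgebraicClosure F} {B : Matrix (Fin n) (Fin n) L}
    (h : BKS.IsPol p V c B) : GL (Fin n) L := Matrix.nonsingInvUnit B h.2.1

theorem coe_glB {c : AlgebraicClosure F ≃+* AlgebraicClosure F} {B : Matrix (Fin n) (Fin n) L}
    (h : BKS.IsPol p V c B) : (glB h : Matrix (Fin n) (Fin n) L) = B := rfl

theorem isDual {c : AlgebraicClosure F ≃+* AlgebraicClosure F} {σ : F ≃+* F}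
    (hcs : BKOdd.ConjHyp c σ) {B : Matrix (Fin n) (Fin n) L} (h : BKS.IsPol p V c B) :
    IsDual (cycF p F) V (V.comp (BKOdd.conj c σ hcs.h)) (glB h : Matrix (Fin n) (Fin n) L) := by
  intro g
  refine h.matrix fun z => ?_
  change c (g (c.symm (c z))) = c (g z)
  rw [RingEquiv.symm_apply_apply]

/-- the primes outside the finite set `{l ∈ P | l splits}` and not of the form `m k` -/
theorem primeTo {κ : Type} {m : κ → ℕ} (hC : BKS.Covers p V m) {P : Set ℕ}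
    (hP : ∀ (l : ℕ) [Fact l.Prime], l ≠ p → l ∉ P → BKS.PrimeTo p l V) (l : ℕ) [Fact l.Prime]
    (hlp : l ≠ p) (hl : ¬ (l ∈ P ∧ Splits F l)) (hm : l ∉ Set.range m) : BKS.PrimeTo p l V := by
  by_cases h : l ∈ P
  · rcases hC.all l hlp (fun hs => hl ⟨h, hs⟩) with h1 | ⟨k, hk⟩
    · exact h1
    · exact absurd ⟨k, hk⟩ hm
  · exact hP l hlp h

/-- a prime which does not split is different from `p` -/
theorem ne_p {κ : Type} {m : κ → ℕ} (hC : BKS.Covers p V m) (hs : BKS.Split p F) (k : κ) :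
    m k ≠ p := fun h => hC.split k (by rw [h]; exact hs)

end UPUF

open UPUF in
theorem stPuf (h1 : StParN) (h2 : StPsn) (h3 : StMtl) (h4 : StWql) (h5 : StMte) (h6 : StNfm)
    (h7 : StLattT) (h8 : StNsdT) : StPuf := by
  intro p _ F _ _ hp hF hIm hs c hc L _ _ _ n V B hV hB
  obtain ⟨σ, hcs⟩ := BKS.exists_conjHyp hF hc
  obtain ⟨P, hP⟩ := hV.ram
  refine ⟨fun hNo => ?_, fun T N hM κ _ m _ j hC => ?_,
    fun n' V' B' hV' hB' T N hM κ _ m _ j hC hC' => ?_⟩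
  · obtain ⟨A, ρ, hρ, hN⟩ := h6 p F hF c σ hcs L n V hNo
    have hns : NoSym ρ (BKOdd.conj c σ hcs.h) (cycF p F) := by
      intro P Q hpi hsmp f hf
      refine hN P Q hpi hsmp ?_ f hf
      rintro ⟨l, hl, hram', hlp, hodd⟩
      obtain ⟨d, hd⟩ := FPARH.index_pow P Q hpi
      rcases Nat.even_or_odd d with he | ho
      · exact ⟨d, he, hd⟩
      · exact absurd hf (h8 p hp F hF hIm c σ hcs L n V A ρ hρ l hram' hlp hodd P Q hpi
          hsmp.lt.le hsmp.stab hsmp.stab' d hd ho f)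
    obtain ⟨S, ρ', B₀, N, hM⟩ := h7 p hp L (GF F) n V A ρ hρ (BKOdd.conj c σ hcs.h)
      (BKOdd.Conj.conj_conj hcs.h hcs.hc) (cycF p F) (glB hB) hB.1 (isDual hcs hB) hns
    exact ⟨_, _, h5 p F L n V (glB hB) S ρ' B₀ N hM⟩
  · obtain ⟨S, ρ, B₀, N₁, hMt, hT, hN, hloc⟩ := h3 p F L n V (glB hB) hB.1 T N hM
    obtain ⟨hf, hpar⟩ := h1 p hp F hF hIm hs c σ hcs L n V hV.cont {l | l ∈ P ∧ Splits F l}
      (P.finite_toSet.subset fun l hl => hl.1) (fun l hl => hl.2) κ m hC.inj hC.split j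
      (fun l _ hlp hl hm => primeTo hC hP l hlp hl hm) hV.inv (glB hB) hB.1 (isDual hcs hB)
      S ρ B₀ N₁ hMt (fun i => (hV.dR i).toOdd) (fun i => by
        rw [← BKS.frobAt_eq]
        exact hV.frob i)
    refine ⟨(BKS.isFin_H1f V).mpr hf, fun v => ?_⟩
    have e1 := hpar v
    have e2 : ∑ k, BKS.loc L (BKS.vec V) (j k) T N =
        ∑ k, (lnJ p V (j k) (latS p S ⊤) + lnJ p V (j k) (latS p S N₁)) :=
      Finset.sum_congr rfl fun k _ => hloc (m k) (j k) (hV.inv (m k) (ne_p hC hs k) (j k))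
    rw [BKS.dim_H1f, BKS.tdim_eq, e2]
    omega
  · obtain ⟨P', hP'⟩ := hV'.ram
    obtain ⟨S, ρ, B₀, N₁, hMt, hloc⟩ := h4 p F L n n' V V' (glB hB) (glB hB') hB.1 hB'.1 T N hM
    have hPU : ∀ (l : ℕ) [Fact l.Prime], l ≠ p → l ∉ ((P : Set ℕ) ∪ P') →
        BKS.PrimeTo p l V := fun l _ hlp hl => hP l hlp fun h => hl (Or.inl h)
    have hPU' : ∀ (l : ℕ) [Fact l.Prime], l ≠ p → l ∉ ((P : Set ℕ) ∪ P') →
        BKS.PrimeTo p l V' := fun l _ hlp hl => hP' l hlp fun h => hl (Or.inr h)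
    obtain ⟨hf, hf', hpar⟩ := h2 p hp F hF hIm hs c σ hcs L n n' V V' (glB hB) (glB hB')
      hV.cont hV'.cont {l | l ∈ ((P : Set ℕ) ∪ P') ∧ Splits F l}
      ((P.finite_toSet.union P'.finite_toSet).subset fun l hl => hl.1) (fun l hl => hl.2) κ m
      hC.inj hC.split j
      (fun l _ hlp hl hm i g hg => ⟨primeTo hC hPU l hlp hl hm i g hg,
        primeTo hC' hPU' l hlp hl hm i g hg⟩)
      (fun l _ hlp i => ⟨hV.inv l hlp i, hV'.inv l hlp i⟩) hB.1 hB'.1 (isDual hcs hB)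
      (isDual hcs hB') S ρ B₀ N₁ hMt (fun i => ⟨(hV.dR i).toOdd, (hV'.dR i).toOdd⟩)
      (fun i => by
        rw [← BKS.frobAt_eq, ← BKS.frobAt_eq]
        exact ⟨hV.frob i, hV'.frob i⟩)
    refine ⟨(BKS.isFin_H1f V).mpr hf, (BKS.isFin_H1f V').mpr hf', fun v => ?_⟩
    have e1 := hpar v
    have e2 : ∑ k, BKS.loc L (BKS.vec2 V V') (j k) T N =
        ∑ k, (lnJ p (dsum V V') (j k) (latS p S ⊤) + lnJ p (dsum V V') (j k) (latS p S N₁)) :=
      Finset.sum_congr rfl fun k _ => hloc (m k) (j k) (hV.inv (m k) (ne_p hC hs k) (j k))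
        (hV'.inv (m k) (ne_p hC hs k) (j k))
    rw [BKS.dim_H1f, BKS.tdim_eq, BKS.dim_H1f, BKS.tdim_eq, e2]
    omega

end BKT
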