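import Pool.Agent.Lib.MP_7c08ba_nt.T1.StU
import Pool.Agent.Lib.MP_7c08ba_nt.T1.HWEQ

set_option autoImplicit false

/-!
Parity for general residual representations and arbitrary ramification at the primes which do not
split, part U, module WQL: lattices with `IsMet` in a direct sum give the metabolic data, and the
local terms are given by the indices.
-/

noncomputable section

namespace BKT

open NumberField BKGen BKMet
open Matrix

namespace UWQL

open HWEQ

/-- the identification of the two forms of the direct sum -/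
def eqv (L : Type) [NormedField L] (n n' : ℕ) :
    (Fin (n + n') → L) ≃ₗ[L] (Fin n → L) × (Fin n' → L) where
  toFun x := (p1 x, p2 x)
  invFun z := jn z
  map_add' x y := rfl
  map_smul' a x := rfl
  left_inv x := by
    funext k
    obtain ⟨s, rfl⟩ := finSumFinEquiv.surjective k
    cases s with
    | inl i => simp [p1, jn]
    | inr i => simp [p2, jn]
  right_inv z := jn_eq z

theorem eqv_apply {L : Type} [NormedField L] {n n' : ℕ} (x : Fin (n + n') → L) :
    eqv L n n' x = (p1 x, p2 x) := rfl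

/-- the preimage of a subgroup -/
def pre {L : Type} [NormedField L] {W W' : Type} [NormedAddCommGroup W] [Module L W]
    [NormedAddCommGroup W'] [Module L W'] (e : W ≃ₗ[L] W') (P : AddSubgroup W') :
    AddSubgroup W := P.comap (e : W →+ W')

theorem mem_pre {L : Type} [NormedField L] {W W' : Type} [NormedAddCommGroup W] [Module L W]
    [NormedAddCommGroup W'] [Module L W'] (e : W ≃ₗ[L] W') (P : AddSubgroup W') (x : W) :
    x ∈ pre e P ↔ e x ∈ P := Iff.rfl

theorem pre_symm_pre {L : Type} [NormedField L] {W W' : Type} [NormedAddCommGroup W] [Module L W]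
    [NormedAddCommGroup W'] [Module L W'] (e : W ≃ₗ[L] W') (P : AddSubgroup W) :
    pre e (pre e.symm P) = P := by
  ext x
  rw [mem_pre, mem_pre, LinearEquiv.symm_apply_apply]

theorem isMod_pre {L : Type} [NormedField L] {W W' : Type} [NormedAddCommGroup W] [Module L W]
    [NormedAddCommGroup W'] [Module L W'] (e : W ≃ₗ[L] W') {P : AddSubgroup W'}
    (h : BKS.IsMod L P) : BKS.IsMod L (pre e P) := by
  intro a ha x hx
  rw [mem_pre] at hx ⊢
  rw [map_smul]
  exact h a ha _ hx

theorem lt_pre {L : Type} [NormedField L] {W W' : Type} [NormedAddCommGroup W] [Module L W]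
    [NormedAddCommGroup W'] [Module L W'] (e : W ≃ₗ[L] W') {P Q : AddSubgroup W'}
    (h : P < Q) : pre e P < pre e Q := by
  rw [SetLike.lt_iff_le_and_exists] at h ⊢
  obtain ⟨h1, y, hy, hy'⟩ := h
  refine ⟨fun x hx => h1 hx, e.symm y, ?_, ?_⟩
  · rw [mem_pre, LinearEquiv.apply_symm_apply]
    exact hy
  · rw [mem_pre, LinearEquiv.apply_symm_apply]
    exact hy'

theorem len_aux {L : Type} [NormedField L] {W W' : Type} [NormedAddCommGroup W] [Module L W]
    [NormedAddCommGroup W'] [Module L W'] (e : W ≃ₗ[L] W') (P : AddSubgroup W') (Q : Set W')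
    (m : ℕ) (h : ∃ M : ℕ → AddSubgroup W', M 0 = P ∧ (M m : Set W') = Q ∧
      (∀ i, BKS.IsMod L (M i)) ∧ ∀ i < m, M i < M (i + 1)) :
    ∃ M : ℕ → AddSubgroup W, M 0 = pre e P ∧ (M m : Set W) = e ⁻¹' Q ∧
      (∀ i, BKS.IsMod L (M i)) ∧ ∀ i < m, M i < M (i + 1) := by
  obtain ⟨M, h0, hm, hmod, hlt⟩ := h
  refine ⟨fun i => pre e (M i), congrArg (pre e) h0, ?_, fun i => isMod_pre e (hmod i),
    fun i hi => lt_pre e (hlt i hi)⟩
  rw [← hm]
  rfl

theorem len_pre {L : Type} [NormedField L] {W W' : Type} [NormedAddCommGroup W] [Module L W]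
    [NormedAddCommGroup W'] [Module L W'] (e : W ≃ₗ[L] W') (P : AddSubgroup W') (Q : Set W') :
    BKS.len L (pre e P) (e ⁻¹' Q) = BKS.len L P Q := by
  unfold BKS.len
  congr 1
  ext m
  constructor
  · intro h
    have h' := len_aux e.symm (pre e P) (e ⁻¹' Q) m h
    have e1 : pre e.symm (pre e P) = P := by
      ext x
      rw [mem_pre, mem_pre, LinearEquiv.apply_symm_apply]
    have e2 : e.symm ⁻¹' (e ⁻¹' Q) = Q := by
      ext x
      rw [Set.mem_preimage, Set.mem_preimage, LinearEquiv.apply_symm_apply]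
    rw [e1, e2] at h'
    exact h'
  · exact len_aux e P Q m

theorem vec_dsum {F L : Type} [Field F] [NormedField L] {n n' : ℕ} (V : GF F →* GL (Fin n) L)
    (V' : GF F →* GL (Fin n') L) (g : GF F) (x : Fin (n + n') → L) :
    eqv L n n' (BKS.vec (dsum V V') g x) = BKS.vec2 V V' g (eqv L n n' x) := by
  change (p1 (blk _ _ *ᵥ x), p2 (blk _ _ *ᵥ x)) = _
  rw [p1_mul, p2_mul]
  rfl

theorem fixed_pre {F L : Type} [Field F] [NormedField L] {n n' : ℕ} (V : GF F →* GL (Fin n) L)
    (V' : GF F →* GL (Fin n') L) {l : ℕ} [Fact l.Prime] (j : BKS.Emb l F)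
    (P : AddSubgroup ((Fin n → L) × (Fin n' → L))) :
    BKS.fixed (BKS.vec (dsum V V')) j (pre (eqv L n n') P) =
      eqv L n n' ⁻¹' BKS.fixed (BKS.vec2 V V') j P := by
  ext x
  constructor
  · intro hx g t hgt
    have := hx g t hgt
    rw [mem_pre, map_sub, vec_dsum] at this
    exact this
  · intro hx g t hgt
    rw [mem_pre, map_sub, vec_dsum]
    exact hx g t hgt

theorem loc_pre {F L : Type} [Field F] [NormedField L] {n n' : ℕ} (V : GF F →* GL (Fin n) L)
    (V' : GF F →* GL (Fin n') L) {l : ℕ} [Fact l.Prime] (j : BKS.Emb l F)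
    (T N : AddSubgroup ((Fin n → L) × (Fin n' → L))) :
    BKS.loc L (BKS.vec (dsum V V')) j (pre (eqv L n n') T) (pre (eqv L n n') N) =
      BKS.loc L (BKS.vec2 V V') j T N := by
  unfold BKS.loc
  rw [fixed_pre, fixed_pre, len_pre, len_pre]

theorem isMet_pre {F L : Type} [Field F] [NormedField L] {n n' : ℕ} (V : GF F →* GL (Fin n) L)
    (V' : GF F →* GL (Fin n') L) (B : GL (Fin n) L) (B' : GL (Fin n') L)
    (T N : AddSubgroup ((Fin n → L) × (Fin n' → L)))
    (h : BKS.IsMet (BKS.vec2 V V') (BKS.form (B : Matrix (Fin n) (Fin n) L)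
      (B' : Matrix (Fin n') (Fin n') L)) T N) :
    BKS.IsMet (BKS.vec (dsum V V'))
      (BKS.frm ((blkG B (-B') : GL (Fin (n + n')) L) : Matrix (Fin (n + n')) (Fin (n + n')) L))
      (pre (eqv L n n') T) (pre (eqv L n n') N) := by
  have hval : ((blkG B (-B') : GL (Fin (n + n')) L) : Matrix (Fin (n + n')) (Fin (n + n')) L) =
      blk (B : Matrix (Fin n) (Fin n) L) (-(B' : Matrix (Fin n') (Fin n') L)) := rfl
  have hfrm : ∀ x y : Fin (n + n') → L,
      BKS.frm ((blkG B (-B') : GL (Fin (n + n')) L) : Matrix (Fin (n + n')) (Fin (n + n')) L) x y =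
      BKS.form (B : Matrix (Fin n) (Fin n) L) (B' : Matrix (Fin n') (Fin n') L)
        (eqv L n n' x) (eqv L n n' y) := by
    intro x y
    unfold BKS.frm
    rw [hval, form_eq]
    rfl
  obtain ⟨C, hC⟩ := h.bdd
  refine ⟨⟨max C 0, fun x hx => ?_⟩, ?_, ?_, ?_, ?_⟩
  · rw [pi_norm_le_iff_of_nonneg (le_max_right _ _)]
    intro k
    have hx1 : ‖(p1 x, p2 x)‖ ≤ C := hC _ hx
    obtain ⟨s, rfl⟩ := finSumFinEquiv.surjective k
    cases s with
    | inl i =>
      calc ‖x (finSumFinEquiv (Sum.inl i))‖ = ‖p1 x i‖ := rfl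
        _ ≤ ‖p1 x‖ := norm_le_pi_norm _ _
        _ ≤ ‖(p1 x, p2 x)‖ := norm_fst_le (p1 x, p2 x)
        _ ≤ C := hx1
        _ ≤ max C 0 := le_max_left _ _
    | inr i =>
      calc ‖x (finSumFinEquiv (Sum.inr i))‖ = ‖p2 x i‖ := rfl
        _ ≤ ‖p2 x‖ := norm_le_pi_norm _ _
        _ ≤ ‖(p1 x, p2 x)‖ := norm_snd_le (p1 x, p2 x)
        _ ≤ C := hx1
        _ ≤ max C 0 := le_max_left _ _
  · intro g x hx
    rw [mem_pre, vec_dsum]
    exact h.stab g _ hx
  · intro g x hx
    rw [mem_pre, vec_dsum]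
    exact h.stab' g _ hx
  · intro y
    rw [mem_pre, h.dual]
    constructor
    · intro hy x hx
      rw [hfrm]
      exact hy _ hx
    · intro hy z hz
      have := hy ((eqv L n n').symm z) (by
        rw [mem_pre, LinearEquiv.apply_symm_apply]
        exact hz)
      rw [hfrm, LinearEquiv.apply_symm_apply] at this
      exact this
  · intro y
    rw [mem_pre, h.lagr]
    constructor
    · rintro ⟨hy0, hy⟩
      refine ⟨hy0, fun x hx => ?_⟩
      rw [hfrm]
      exact hy _ hx
    · rintro ⟨hy0, hy⟩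
      refine ⟨hy0, fun z hz => ?_⟩
      have := hy ((eqv L n n').symm z) (by
        rw [mem_pre, LinearEquiv.apply_symm_apply]
        exact hz)
      rw [hfrm, LinearEquiv.apply_symm_apply] at this
      exact this

end UWQL

open HWEQ UWQL in
/-- Module WQL. -/
theorem stWql (h : StMtl) : StWql := by
  intro p _ F _ L _ _ _ n n' V V' B B' hB hB' T N hTN
  have hval : ((blkG B (-B') : GL (Fin (n + n')) L) : Matrix (Fin (n + n')) (Fin (n + n')) L) =
      blk (B : Matrix (Fin n) (Fin n) L) (-(B' : Matrix (Fin n') (Fin n') L)) := rfl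
  obtain ⟨S, ρ, B₀, N₁, hM, hT, hN, hl⟩ := h p F L (n + n') (dsum V V') (blkG B (-B'))
    (by rw [hval, blk_transpose, hB, Matrix.transpose_neg, hB'])
    (pre (eqv L n n') T) (pre (eqv L n n') N) (isMet_pre V V' B B' T N hTN)
  refine ⟨S, ρ, B₀, N₁, hM, fun l _ j h1 h2 => ?_⟩
  rw [← loc_pre]
  apply hl l j
  intro v hv
  have hv' : ∀ (g : GF F) (t : GQ l), (∀ z, j (g z) = t (j z)) →
      BKS.vec2 V V' g (p1 v, p2 v) = (p1 v, p2 v) := by
    intro g t hgt
    have := congrArg (eqv L n n') (hv g t hgt)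
    have e1 := vec_dsum V V' g v
    rw [eqv_apply v] at e1 this
    rw [← e1]
    exact this
  have e1 : p1 v = 0 := h1 (p1 v) fun g t hgt => congrArg Prod.fst (hv' g t hgt)
  have e2 : p2 v = 0 := h2 (p2 v) fun g t hgt => congrArg Prod.snd (hv' g t hgt)
  have e3 : eqv L n n' v = 0 := by
    rw [eqv_apply, e1, e2]
    rfl
  exact (LinearEquiv.map_eq_zero_iff _).mp e3

end BKT
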