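import Pool.Agent.Lib.MP_7c08ba_nt.T1.All
import Pool.Agent.Lib.MP_7c08ba_nt.T1.GNAll
import Pool.Agent.Lib.MP_7c08ba_nt.T1.NFCUPXN
import Pool.Agent.Lib.MP_7c08ba_nt.T1.NFGAMN
import Pool.Agent.Lib.MP_7c08ba_nt.T1.NFH0N
import Pool.Agent.Lib.MP_7c08ba_nt.T1.NFLAGN
import Pool.Agent.Lib.MP_7c08ba_nt.T1.NFLFT
import Pool.Agent.Lib.MP_7c08ba_nt.T1.NFLNJ
import Pool.Agent.Lib.MP_7c08ba_nt.T1.NFLOCXN
import Pool.Agent.Lib.MP_7c08ba_nt.T1.NFMAINXN
import Pool.Agent.Lib.MP_7c08ba_nt.T1.NFPARN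
import Pool.Agent.Lib.MP_7c08ba_nt.T1.NFPARXN
import Pool.Agent.Lib.MP_7c08ba_nt.T1.NFRLN
import Pool.Agent.Lib.MP_7c08ba_nt.T1.NFSTB
import Pool.Agent.Lib.MP_7c08ba_nt.T1.NFUNRN
import Pool.Agent.Lib.MP_7c08ba_nt.T1.NFZIDN
import Pool.Agent.Lib.MP_7c08ba_nt.T1.NPADJ
import Pool.Agent.Lib.MP_7c08ba_nt.T1.NPALN
import Pool.Agent.Lib.MP_7c08ba_nt.T1.NPCJZ
import Pool.Agent.Lib.MP_7c08ba_nt.T1.NPCNP
import Pool.Agent.Lib.MP_7c08ba_nt.T1.NPKRN
import Pool.Agent.Lib.MP_7c08ba_nt.T1.NPSDN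
import Pool.Agent.Lib.MP_7c08ba_nt.T1.UFXL
import Pool.Agent.Lib.MP_7c08ba_nt.T1.ULEN
import Pool.Agent.Lib.MP_7c08ba_nt.T1.UMTE
import Pool.Agent.Lib.MP_7c08ba_nt.T1.UMTL
import Pool.Agent.Lib.MP_7c08ba_nt.T1.UPSN
import Pool.Agent.Lib.MP_7c08ba_nt.T1.UPUF
import Pool.Agent.Lib.MP_7c08ba_nt.T1.UWQL

set_option autoImplicit false

/-!
Parity with arbitrary ramification at the primes which do not split: assembly.
-/

noncomputable section

namespace BKT.AllN

open BKT BKT.All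

/-! ### Forms and signs -/

theorem adj : StAdj := stAdj
theorem cjz : StCjz := stCjz
theorem cnp : StCnp := stCnp
theorem aln : StAln := stAln adj cjz cnp BKMet.All.swap BKMet.All.ct yR BKMet.All.alt
theorem krn : StKrn := stKrn
theorem sdn : StSdn := stSdn aln krn adj cjz BKMet.All.exact' BKMet.All.perp yR

/-! ### Parity for the groups -/

theorem arithN : StArithN := GNAll.arithN
theorem gamN : StGamN := stGamN
theorem lagn : StLagn := stLagn
theorem lft : StLft := stLft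
theorem fxl : StFxl := stFxl
theorem h0n : StH0n := stH0n fxl
theorem stb : StStb := stStb fxl
theorem parXN : StParXN := stParXN sdn yR gamN lagn lft h0n stb BKMet.All.lam BKMet.All.mk
  BKMet.All.limG
theorem locXN : StLocXN := stLocXN lvT
theorem zidN : StZidN := stZidN
theorem rlN : StRlN := stRlN
theorem cupXN : StCupXN := stCupXN rlN
theorem mainXN : StMainXN := stMainXN parXN locXN zidN cupXN
theorem unrN : StUnrN := stUnrN0
theorem lnj : StLnj := stLnj
theorem parN : StParN := stParN arithN mainXN u0T descT unrN lnj BKMet.All.lineQ BKMet.stCrysM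
  BKMet.stHodM

/-! ### The parity theorem with arbitrary ramification -/

theorem len : StLen := stLen
theorem mtl : StMtl := stMtl latM len fxl
theorem wql : StWql := stWql mtl
theorem mte : StMte := stMte
theorem psn : StPsn := stPsn parN sumH sumT
theorem puf : StPuf := stPuf parN psn mtl wql mte nfm lattT nsdT

end BKT.AllN
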