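import Pool.Agent.Lib.MP_7c08ba_nt.T1.StV

set_option autoImplicit false

/-!
Parity for congruent representations, module BCC: the class of representations is stable under
extension of scalars.
-/

noncomputable section

namespace BKT

open NumberField BKGen BKMet
open Matrix

namespace VBCC

section Scalars

variable {F : Type} [Field F] {L L₂ : Type} [NormedField L] [NormedField L₂] {n : ℕ}

theorem mat_ext (φ : L →+* L₂) (V : BKS.Rep (BKS.GF F) L n) (g : BKS.GF F) :
    BKS.mat (BKS.ext φ V) g = (BKS.mat V g).map φ := rfl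

/-- The elements of finite order. -/
theorem pow_ext (φ : L →+* L₂) (V : BKS.Rep (BKS.GF F) L n) (g : BKS.GF F) (m : ℕ)
    (h : V g ^ m = 1) : BKS.ext φ V g ^ m = 1 := by
  change (Matrix.GeneralLinearGroup.map φ (V g)) ^ m = 1
  rw [← map_pow, h, map_one]

theorem primeTo_ext (p : ℕ) (φ : L →+* L₂) (l : ℕ) [Fact l.Prime] (V : BKS.Rep (BKS.GF F) L n)
    (h : BKS.PrimeTo p l V) : BKS.PrimeTo p l (BKS.ext φ V) := by
  intro j g hg
  obtain ⟨m, hm, hV⟩ := h j g hg
  exact ⟨m, hm, pow_ext φ V g m hV⟩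

theorem cont_ext (φ : L →+* L₂) (hφ : Continuous φ) (V : BKS.Rep (BKS.GF F) L n)
    (hV : Continuous V) : Continuous (BKS.ext φ V) := by
  have h1 : Continuous (Matrix.GeneralLinearGroup.map (n := Fin n) φ) := by
    refine Continuous.units_map ((φ.mapMatrix (m := Fin n) : _ →+* _) :
      Matrix (Fin n) (Fin n) L →* Matrix (Fin n) (Fin n) L₂) ?_
    exact Continuous.matrix_map continuous_id hφ
  exact h1.comp hV

/-- A linear functional commutes with the action. -/
theorem functional (φ : L →+* L₂) (V : BKS.Rep (BKS.GF F) L n) (g : BKS.GF F) (v : Fin n → L₂)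
    (f : L₂ → L) (hadd : ∀ (s : Finset (Fin n)) (a : Fin n → L₂), f (∑ i ∈ s, a i) = ∑ i ∈ s, f (a i))
    (hmul : ∀ (a : L) (b : L₂), f (φ a * b) = a * f b) (i : Fin n) :
    f (BKS.vec (BKS.ext φ V) g v i) = BKS.vec V g (fun j => f (v j)) i := by
  change f (∑ j, φ (BKS.mat V g i j) * v j) = ∑ j, BKS.mat V g i j * f (v j)
  rw [hadd]
  exact Finset.sum_congr rfl fun j _ => hmul _ _

end Scalars

/-- A matrix identity from the identity for vectors. -/
theorem mat_of_vec {K : Type} [Field K] {n : ℕ} (A B C : Matrix (Fin n) (Fin n) K) (a : K)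
    (h : ∀ x y : Fin n → K, (A *ᵥ x) ⬝ᵥ (B *ᵥ (C *ᵥ y)) = a * (x ⬝ᵥ (B *ᵥ y))) :
    Aᵀ * B * C = a • B := by
  ext i j
  have h1 := h (Pi.single i 1) (Pi.single j 1)
  have h2 : (A *ᵥ Pi.single i 1) ⬝ᵥ (B *ᵥ (C *ᵥ Pi.single j 1)) = (Aᵀ * B * C) i j := by
    rw [Matrix.mulVec_mulVec, Matrix.mulVec_single_one, Matrix.mulVec_single_one, Matrix.mul_assoc]
    rfl
  have h3 : (Pi.single i 1 : Fin n → K) ⬝ᵥ (B *ᵥ Pi.single j 1) = B i j := by
    rw [Matrix.mulVec_single_one, single_dotProduct, one_mul]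
    rfl
  rw [h2, h3] at h1
  rw [h1]
  rfl

/-- The identity for vectors from the matrix identity. -/
theorem vec_of_mat {K : Type} [Field K] {n : ℕ} (A B C : Matrix (Fin n) (Fin n) K) (a : K)
    (h : Aᵀ * B * C = a • B) (x y : Fin n → K) :
    (A *ᵥ x) ⬝ᵥ (B *ᵥ (C *ᵥ y)) = a * (x ⬝ᵥ (B *ᵥ y)) := by
  have e1 : A *ᵥ x = x ᵥ* Aᵀ := (Matrix.vecMul_transpose A x).symm
  rw [e1, ← Matrix.dotProduct_mulVec, Matrix.mulVec_mulVec, Matrix.mulVec_mulVec, h,
    Matrix.smul_mulVec, dotProduct_smul]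
  rfl

end VBCC

open VBCC

/-- **Module BCC.** -/
theorem stBcc (h1 : StIsm) (h2 : StBct) : StBcc := by
  intro p _ F _ L L₂ _ _ _ _ _ _ φ n V hV
  have hφ : Continuous (φ : L →+* L₂) := by
    have hi : Isometry (φ : L →+* L₂) := by
      refine AddMonoidHomClass.isometry_of_norm (φ : L →+* L₂) ?_
      intro x
      exact h1 p L L₂ φ x
    exact hi.continuous
  refine ⟨⟨?_, ?_, ?_, ?_, ?_⟩, ?_, ?_⟩
  · exact cont_ext _ hφ V hV.cont
  · obtain ⟨P, hP⟩ := hV.ram
    refine ⟨P, ?_⟩
    intro l _ hl hlP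
    exact primeTo_ext p _ l V (hP l hl hlP)
  · intro l _ hl j v hv
    let _ : Algebra L L₂ := (φ : L →+* L₂).toAlgebra
    have hz : ∀ f : Module.Dual L L₂, ∀ i, f (v i) = 0 := by
      intro f
      have h3 : (fun i => f (v i)) = 0 := by
        apply hV.inv l hl j
        intro g t hgt
        funext i
        have h4 := functional (φ : L →+* L₂) V g v (fun x => f x) (fun s a => map_sum f a s)
          (fun a b => f.map_smul a b) i
        rw [hv g t hgt] at h4
        exact h4.symm
      intro i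
      exact congrFun h3 i
    funext i
    exact (Module.forall_dual_apply_eq_zero_iff L (v i)).mp (fun f => hz f i)
  · intro j
    exact (h2 p F L L₂ φ n V j).1 (hV.dR j)
  · intro j
    exact (h2 p F L L₂ φ n V j).2.1 (hV.frob j)
  · intro c B hB
    obtain ⟨hsym, hdet, hform⟩ := hB
    refine ⟨?_, ?_, ?_⟩
    · rw [← Matrix.transpose_map, hsym]
    · have e : (B.map φ).det = φ B.det := (RingHom.map_det (φ : L →+* L₂) B).symm
      rw [e]
      exact hdet.map φ
    · intro g g' hgg x y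
      have e1 := mat_of_vec (BKS.mat V g) B (BKS.mat V g') (BKS.chi p L g) (hform g g' hgg)
      have e2 : ((BKS.mat V g).map φ)ᵀ * B.map φ * (BKS.mat V g').map φ =
          BKS.chi p L₂ g • B.map φ := by
        have e3 := congrArg (fun M : Matrix (Fin n) (Fin n) L => M.map φ) e1
        have e4 : φ (BKS.chi p L g) = BKS.chi p L₂ g := by
          unfold BKS.chi
          exact φ.commutes _
        have e5 : (BKS.chi p L g • B).map φ = BKS.chi p L₂ g • B.map φ := by
          ext i j
          change φ (BKS.chi p L g * B i j) = BKS.chi p L₂ g * φ (B i j)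
          rw [map_mul, e4]
        rw [← e5, ← e3]
        simp only [Matrix.map_mul, Matrix.transpose_map]
      exact vec_of_mat _ _ _ _ e2 x y
  · intro κ l hl
    refine ⟨hl.inj, hl.split, ?_⟩
    intro m _ hm hs
    rcases hl.all m hm hs with h | h
    · exact Or.inl (primeTo_ext p _ m V h)
    · exact Or.inr h

end BKT
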