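import Pool.Agent.Lib.MP_7c08ba_nt.T1.StV

set_option autoImplicit false

/-!
Module BCH: the Selmer group of `V ⊗ L₂`.
-/

noncomputable section

namespace BKT.VBCH

open BKS TensorProduct Matrix

/-! ### Linear algebra -/

section Lin

/-- dimensions and restriction of scalars -/
theorem dims {L L₂ : Type} [Field L] [Field L₂] (φ : L →+* L₂) {d : ℕ} (hd : 0 < d)
    (hfin : letI := φ.toAlgebra; FiniteDimensional L L₂ ∧ Module.finrank L L₂ = d)
    {Z₂ H₂ H : Type} [AddCommGroup Z₂] [Module L₂ Z₂] [AddCommGroup H₂] [Module L₂ H₂]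
    [AddCommGroup H] [Module L H] (π : Z₂ →ₗ[L₂] H₂) (hπ : Function.Surjective π)
    (f : Z₂ → Fin d → H) (fadd : ∀ x y, f (x + y) = f x + f y)
    (fsmul : ∀ (a : L) x, f (φ a • x) = a • f x) (fsurj : Function.Surjective f)
    (fker : ∀ x, f x = 0 ↔ π x = 0) (h : FiniteDimensional L₂ H₂) :
    FiniteDimensional L H ∧ Module.finrank L H = Module.finrank L₂ H₂ := by
  let : Algebra L L₂ := φ.toAlgebra
  have : FiniteDimensional L L₂ := hfin.1
  let m1 : Module L Z₂ := Module.compHom Z₂ φ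
  let m2 : Module L H₂ := Module.compHom H₂ φ
  have : IsScalarTower L L₂ H₂ := IsScalarTower.of_algebraMap_smul fun r x => rfl
  let πL : Z₂ →ₗ[L] H₂ :=
    { toFun := π, map_add' := map_add π, map_smul' := fun a x => map_smul π (φ a) x }
  let fL : Z₂ →ₗ[L] (Fin d → H) := { toFun := f, map_add' := fadd, map_smul' := fsmul }
  have hker : LinearMap.ker πL = LinearMap.ker fL := by
    ext x
    rw [LinearMap.mem_ker, LinearMap.mem_ker]
    exact (fker x).symm
  let e1 : (Z₂ ⧸ LinearMap.ker πL) ≃ₗ[L] H₂ := πL.quotKerEquivOfSurjective hπ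
  let e2 : (Z₂ ⧸ LinearMap.ker fL) ≃ₗ[L] (Fin d → H) := fL.quotKerEquivOfSurjective fsurj
  let e3 : (Z₂ ⧸ LinearMap.ker πL) ≃ₗ[L] (Z₂ ⧸ LinearMap.ker fL) :=
    Submodule.quotEquivOfEq _ _ hker
  let e : H₂ ≃ₗ[L] (Fin d → H) := (e1.symm.trans e3).trans e2
  have : FiniteDimensional L H₂ := FiniteDimensional.trans L L₂ H₂
  have : FiniteDimensional L (Fin d → H) := e.finiteDimensional
  have hH : FiniteDimensional L H :=
    Module.Finite.of_surjective (LinearMap.proj (R := L) (φ := fun _ : Fin d => H) ⟨0, hd⟩)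
      (LinearMap.proj_surjective _)
  refine ⟨hH, ?_⟩
  have h1 : Module.finrank L L₂ * Module.finrank L₂ H₂ = Module.finrank L H₂ :=
    Module.finrank_mul_finrank L L₂ H₂
  have h2 : Module.finrank L H₂ = Module.finrank L (Fin d → H) := e.finrank_eq
  have h3 : Module.finrank L (Fin d → H) = d * Module.finrank L H := by
    rw [Module.finrank_pi_fintype, Finset.sum_const, Finset.card_univ, Fintype.card_fin,
      smul_eq_mul]
  rw [hfin.2, h2, h3] at h1
  exact (Nat.eq_of_mul_eq_mul_left hd h1).symm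

variable {L M : Type} [Field L] [AddCommGroup M] [Module L M] (B Z S : Submodule L M)

/-- the map from `S` to `imQuo` -/
theorem toIm (hS : S ≤ Z) : ∃ π : S →ₗ[L] imQuo B Z S, Function.Surjective π ∧
    ∀ x, π x = 0 ↔ (x : M) ∈ B := by
  have hm : ∀ x : S, ((B.submoduleOf Z).mkQ (⟨x, hS x.2⟩ : Z) : Quo B Z) ∈ imQuo B Z S := by
    intro x
    exact ⟨⟨x, hS x.2⟩, x.2, rfl⟩
  refine ⟨{ toFun := fun x => ⟨(B.submoduleOf Z).mkQ (⟨x, hS x.2⟩ : Z), hm x⟩,
            map_add' := fun x y => rfl, map_smul' := fun a x => rfl }, ?_, ?_⟩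
  · rintro ⟨y, hy⟩
    obtain ⟨z, hz, rfl⟩ := hy
    exact ⟨⟨z, hz⟩, rfl⟩
  · intro x
    have h1 : ((B.submoduleOf Z).mkQ (⟨x, hS x.2⟩ : Z) = 0) ↔ (x : M) ∈ B := by
      rw [Submodule.mkQ_apply, Submodule.Quotient.mk_eq_zero]
      exact Iff.rfl
    refine Iff.trans ?_ h1
    constructor
    · intro h
      exact congrArg Subtype.val h
    · intro h
      exact Subtype.ext h

end Lin

/-! ### Coordinates -/

section Coord

variable {p : ℕ} [Fact p.Prime] {L L₂ : Type} [NormedField L]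
  [NormedAlgebra ℚ_[p] L] [NormedField L₂]
  [NormedAlgebra ℚ_[p] L₂] (φ : L →ₐ[ℚ_[p]] L₂) {d : ℕ} (n : ℕ)

/-- the data of a basis `w` of `L₂` over `L` with the coordinates `c` -/
structure Bas (φ : L →ₐ[ℚ_[p]] L₂) (w : Fin d → L₂) (c : Fin d → L₂ →ₗ[ℚ_[p]] L) : Prop where
  lin : ∀ k (a : L) (x : L₂), c k (φ a * x) = a * c k x
  sum : ∀ x, ∑ k, w k * φ (c k x) = x
  coord : ∀ (a : Fin d → L) k, c k (∑ i, w i * φ (a i)) = a k

/-- coordinates of vectors -/
def cv (c : L₂ →ₗ[ℚ_[p]] L) : (Fin n → L₂) →ₗ[ℚ_[p]] (Fin n → L) :=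
  LinearMap.pi fun i => c ∘ₗ LinearMap.proj i

/-- the vectors `w φ(v)` -/
def ev (w : L₂) : (Fin n → L) →ₗ[ℚ_[p]] (Fin n → L₂) :=
  LinearMap.pi fun i => (LinearMap.mulLeft ℚ_[p] w) ∘ₗ φ.toLinearMap ∘ₗ LinearMap.proj i

variable {n}

theorem cv_apply (c : L₂ →ₗ[ℚ_[p]] L) (v : Fin n → L₂) (i : Fin n) : cv n c v i = c (v i) := rfl

theorem ev_apply (w : L₂) (v : Fin n → L) (i : Fin n) : ev φ n w v i = w * φ (v i) := rfl

variable {φ} {w : Fin d → L₂} {c : Fin d → L₂ →ₗ[ℚ_[p]] L}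

theorem Bas.ev_cv (h : Bas φ w c) (v : Fin n → L₂) : ∑ k, ev φ n (w k) (cv n (c k) v) = v := by
  funext i
  rw [Finset.sum_apply]
  exact h.sum (v i)

theorem Bas.cv_sum (h : Bas φ w c) (v : Fin d → Fin n → L) (k : Fin d) :
    cv n (c k) (∑ i, ev φ n (w i) (v i)) = v k := by
  funext i
  rw [cv_apply, Finset.sum_apply]
  exact h.coord (fun m => v m i) k

theorem Bas.inj (h : Bas φ w c) {v v' : Fin n → L₂}
    (hv : ∀ k, cv n (c k) v = cv n (c k) v') : v = v' := by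
  rw [← h.ev_cv v, ← h.ev_cv v']
  exact Finset.sum_congr rfl fun k _ => by rw [hv k]

theorem Bas.cv_mul (h : Bas φ w c) (A : Matrix (Fin n) (Fin n) L) (v : Fin n → L₂)
    (k : Fin d) : cv n (c k) ((A.map φ) *ᵥ v) = A *ᵥ (cv n (c k) v) := by
  funext i
  rw [cv_apply]
  simp only [Matrix.mulVec, dotProduct, map_sum, Matrix.map_apply, h.lin]
  rfl

theorem ev_mul (w : L₂) (A : Matrix (Fin n) (Fin n) L) (v : Fin n → L) :
    ev φ n w (A *ᵥ v) = (A.map φ) *ᵥ (ev φ n w v) := by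
  funext i
  rw [ev_apply]
  simp only [Matrix.mulVec, dotProduct, map_sum, Matrix.map_apply, map_mul, ev_apply,
    Finset.mul_sum]
  exact Finset.sum_congr rfl fun m _ => by ring

theorem Bas.cv_smul (h : Bas φ w c) (a : L) (v : Fin n → L₂) (k : Fin d) :
    cv n (c k) (φ a • v) = a • cv n (c k) v := by
  funext i
  exact h.lin k a (v i)

/-! ### Tensor products -/

section Ten

variable {B : Type} [CommRing B] [Algebra ℚ_[p] B]

/-- the map `f ⊗ 1` -/
def ten {X Y : Type} [AddCommGroup X] [Module ℚ_[p] X] [AddCommGroup Y] [Module ℚ_[p] Y]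
    (B : Type) [CommRing B] [Algebra ℚ_[p] B] (f : X →ₗ[ℚ_[p]] Y) :
    X ⊗[ℚ_[p]] B →ₗ[ℚ_[p]] Y ⊗[ℚ_[p]] B := LinearMap.rTensor B f

theorem act_tmul (A : Matrix (Fin n) (Fin n) L) (f : B →ₗ[ℚ_[p]] B) (v : Fin n → L) (b : B) :
    act (p := p) A f ((v ⊗ₜ[ℚ_[p]] b : (Fin n → L) ⊗[ℚ_[p]] B) : VB p L n B) =
      ((A *ᵥ v) ⊗ₜ[ℚ_[p]] f b : (Fin n → L) ⊗[ℚ_[p]] B) := rfl

theorem ten_act {L L' : Type} [NormedField L] [NormedAlgebra ℚ_[p] L] [NormedField L']
    [NormedAlgebra ℚ_[p] L'] (A : Matrix (Fin n) (Fin n) L) (A' : Matrix (Fin n) (Fin n) L')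
    (g : (Fin n → L) →ₗ[ℚ_[p]] (Fin n → L')) (hg : ∀ v, g (A *ᵥ v) = A' *ᵥ (g v))
    (f : B →ₗ[ℚ_[p]] B) (x : (Fin n → L) ⊗[ℚ_[p]] B) :
    ten B g (act (p := p) A f (x : VB p L n B)) =
      act (p := p) A' f ((ten B g x : (Fin n → L') ⊗[ℚ_[p]] B) : VB p L' n B) := by
  induction x using TensorProduct.induction_on with
  | zero =>
    have h1 : act (p := p) A f (0 : VB p L n B) = 0 := map_zero (actL A f)
    have h2 : act (p := p) A' f (0 : VB p L' n B) = 0 := map_zero (actL A' f)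
    have h3 : ten B g (0 : (Fin n → L) ⊗[ℚ_[p]] B) = 0 := map_zero _
    rw [h3]
    exact (congrArg (ten B g) h1).trans (h3.trans h2.symm)
  | tmul v b =>
    have h1 := act_tmul (p := p) A f v b
    have h2 := act_tmul (p := p) A' f (g v) b
    refine (congrArg (ten B g) h1).trans ?_
    refine Eq.trans ?_ h2.symm
    change (g (A *ᵥ v)) ⊗ₜ[ℚ_[p]] f b = _
    rw [hg]
  | add x y hx hy =>
    have h1 : act (p := p) A f ((x + y : (Fin n → L) ⊗[ℚ_[p]] B) : VB p L n B) =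
      act (p := p) A f (x : VB p L n B) + act (p := p) A f (y : VB p L n B) :=
      map_add (actL A f) (x : VB p L n B) y
    have h3 : ten B g (x + y) = ten B g x + ten B g y := map_add _ _ _
    have h4 : act (p := p) A' f
        ((ten B g x + ten B g y : (Fin n → L') ⊗[ℚ_[p]] B) : VB p L' n B) =
      act (p := p) A' f ((ten B g x : (Fin n → L') ⊗[ℚ_[p]] B) : VB p L' n B) +
        act (p := p) A' f ((ten B g y : (Fin n → L') ⊗[ℚ_[p]] B) : VB p L' n B) :=
      map_add (actL A' f) _ _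
    rw [h3]
    refine (congrArg (ten B g) h1).trans ?_
    refine Eq.trans ?_ h4.symm
    refine (map_add (ten B g) _ _).trans ?_
    exact congrArg₂ (· + ·) hx hy

end Ten

/-! ### The basis -/

theorem exists_bas [FiniteDimensional ℚ_[p] L] [FiniteDimensional ℚ_[p] L₂]
    (φ : L →ₐ[ℚ_[p]] L₂) : ∃ (d : ℕ) (w : Fin d → L₂) (c : Fin d → L₂ →ₗ[ℚ_[p]] L), 0 < d ∧
      (letI := (φ : L →+* L₂).toAlgebra; FiniteDimensional L L₂ ∧ Module.finrank L L₂ = d) ∧
      Bas φ w c := by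
  let _ : Algebra L L₂ := (φ : L →+* L₂).toAlgebra
  have hs : IsScalarTower ℚ_[p] L L₂ := IsScalarTower.of_algebraMap_eq fun x =>
    (φ.commutes x).symm
  have hf : FiniteDimensional L L₂ := FiniteDimensional.right ℚ_[p] L L₂
  let b := Module.finBasis L L₂
  refine ⟨Module.finrank L L₂, b, fun k =>
    ((b.coord k).restrictScalars ℚ_[p] : L₂ →ₗ[ℚ_[p]] L), Module.finrank_pos, ⟨hf, rfl⟩, ?_⟩
  have hsm : ∀ (a : L) (x : L₂), φ a * x = a • x := fun a x => rfl
  refine ⟨?_, ?_, ?_⟩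
  · intro k a x
    rw [hsm]
    exact map_smul (b.coord k) a x
  · intro x
    have h1 := b.sum_repr x
    refine Eq.trans ?_ h1
    refine Finset.sum_congr rfl fun k _ => ?_
    rw [mul_comm]
    exact hsm _ _
  · intro a k
    have h1 : ∑ i, b i * φ (a i) = ∑ i, a i • b i := by
      refine Finset.sum_congr rfl fun i _ => ?_
      rw [mul_comm]
      exact hsm _ _
    rw [h1]
    have h2 := b.repr_sum_self a
    exact congrFun h2 k

/-! ### The conditions -/

section Cond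

variable {F : Type} [Field F] (V : Rep (GF F) L n)

theorem vec_ext (g : GF F) (v : Fin n → L₂) :
    vec (BKS.ext (φ : L →+* L₂) V) g v = ((mat V g).map φ) *ᵥ v := rfl

theorem Bas.cv_vec (h : Bas φ w c) (g : GF F) (v : Fin n → L₂) (k : Fin d) :
    cv n (c k) (vec (BKS.ext (φ : L →+* L₂) V) g v) = vec V g (cv n (c k) v) :=
  h.cv_mul (mat V g) v k

theorem ev_vec (u : L₂) (g : GF F) (v : Fin n → L) :
    ev φ n u (vec V g v) = vec (BKS.ext (φ : L →+* L₂) V) g (ev φ n u v) :=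
  ev_mul u (mat V g) v

theorem Bas.cv_cob (h : Bas φ w c) (g : GF F) (v : Fin n → L₂) (k : Fin d) :
    cv n (c k) (cob (BKS.ext (φ : L →+* L₂) V) v g) = cob V (cv n (c k) v) g := by
  change cv n (c k) (vec _ g v - v) = vec V g (cv n (c k) v) - cv n (c k) v
  rw [_root_.map_sub, h.cv_vec]

theorem Bas.cob_iff (h : Bas φ w c) (S : Set (GF F)) (x : GF F → Fin n → L₂) :
    (∃ v, ∀ g ∈ S, x g = cob (BKS.ext (φ : L →+* L₂) V) v g) ↔
      ∀ k, ∃ v, ∀ g ∈ S, cv n (c k) (x g) = cob V v g := by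
  constructor
  · rintro ⟨v, hv⟩ k
    refine ⟨cv n (c k) v, fun g hg => ?_⟩
    rw [hv g hg, h.cv_cob]
  · intro H
    choose v hv using H
    refine ⟨∑ i, ev φ n (w i) (v i), fun g hg => ?_⟩
    refine h.inj fun k => ?_
    rw [h.cv_cob, h.cv_sum]
    exact hv k g hg

theorem Bas.coc_iff [FiniteDimensional ℚ_[p] L] [FiniteDimensional ℚ_[p] L₂] (h : Bas φ w c)
    (x : GF F → Fin n → L₂) :
    IsCoc (BKS.ext (φ : L →+* L₂) V) x ↔ ∀ k, IsCoc V (fun g => cv n (c k) (x g)) := by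
  have hc : ∀ k, Continuous (cv n (c k)) := fun k =>
    LinearMap.continuous_of_finiteDimensional _
  have he : ∀ k, Continuous (ev φ n (w k)) := fun k =>
    LinearMap.continuous_of_finiteDimensional _
  constructor
  · rintro ⟨h1, h2⟩ k
    refine ⟨(hc k).comp h1, fun g g' => ?_⟩
    change cv n (c k) (x (g * g')) = cv n (c k) (x g) + vec V g (cv n (c k) (x g'))
    rw [h2, map_add, h.cv_vec]
  · intro H
    refine ⟨?_, fun g g' => ?_⟩
    · have h1 : x = fun g => ∑ k, ev φ n (w k) (cv n (c k) (x g)) := by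
        funext g
        rw [h.ev_cv]
      rw [h1]
      exact continuous_finsetSum _ fun k _ => (he k).comp (H k).1
    · refine h.inj fun k => ?_
      rw [map_add, h.cv_vec]
      exact (H k).2 g g'

theorem Bas.triv_iff {B : Type} [CommRing B] [Algebra ℚ_[p] B] (γ : Action p B) (j : Emb p F)
    (h : Bas φ w c) (x : GF F → Fin n → L₂) :
    IsTriv γ j (BKS.ext (φ : L →+* L₂) V) x ↔
      ∀ k, IsTriv γ j V (fun g => cv n (c k) (x g)) := by
  constructor
  · rintro ⟨b, hb⟩ k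
    refine ⟨ten B (cv n (c k)) b, fun g t hg => ?_⟩
    have h1 := ten_act (p := p) (B := B) ((mat V g).map φ) (mat V g) (cv n (c k))
      (fun v => h.cv_mul (mat V g) v k) (γ t).toLinearMap b
    have h2 := hb g t hg
    refine (congrArg (· - ten B (cv n (c k)) b) h1.symm).trans ?_
    refine (_root_.map_sub (ten B (cv n (c k))) _ _).symm.trans ?_
    refine (congrArg (ten B (cv n (c k))) h2).trans ?_
    rfl
  · intro H
    choose b hb using H
    refine ⟨∑ k, ten B (ev φ n (w k)) (b k), fun g t hg => ?_⟩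
    have h1 : ∀ k, gal γ (BKS.ext (φ : L →+* L₂) V) g t (ten B (ev φ n (w k)) (b k)) =
        ten B (ev φ n (w k)) (gal γ V g t (b k)) := by
      intro k
      exact (ten_act (p := p) (B := B) (mat V g) ((mat V g).map φ) (ev φ n (w k))
        (fun v => ev_mul (w k) (mat V g) v) (γ t).toLinearMap (b k)).symm
    have h2 : gal γ (BKS.ext (φ : L →+* L₂) V) g t (∑ k, ten B (ev φ n (w k)) (b k)) =
        ∑ k, ten B (ev φ n (w k)) (gal γ V g t (b k)) := by
      refine (map_sum (actL (mat (BKS.ext (φ : L →+* L₂) V) g) (γ t).toLinearMap) _ _).trans ?_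
      exact Finset.sum_congr rfl fun k _ => h1 k
    rw [h2]
    refine (Finset.sum_sub_distrib _ _).symm.trans ?_
    have h3 : ∀ k, ten B (ev φ n (w k)) (gal γ V g t (b k)) - ten B (ev φ n (w k)) (b k) =
        BKS.inj p B (ev φ n (w k) (cv n (c k) (x g))) := by
      intro k
      refine (_root_.map_sub (ten B (ev φ n (w k))) _ _).symm.trans ?_
      refine (congrArg (ten B (ev φ n (w k))) (hb k g t hg)).trans ?_
      rfl
    refine (Finset.sum_congr rfl fun k _ => h3 k).trans ?_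
    have h4 : ∀ (s : Finset (Fin d)) (u : Fin d → Fin n → L₂),
        ∑ k ∈ s, BKS.inj p B (u k) = BKS.inj p B (∑ k ∈ s, u k) := by
      intro s u
      exact (TensorProduct.sum_tmul s u (1 : B)).symm
    refine (h4 Finset.univ fun k => ev φ n (w k) (cv n (c k) (x g))).trans ?_
    rw [h.ev_cv]

theorem Bas.sel_iff [FiniteDimensional ℚ_[p] L] [FiniteDimensional ℚ_[p] L₂] (h : Bas φ w c)
    (x : GF F → Fin n → L₂) :
    IsSel p (BKS.ext (φ : L →+* L₂) V) x ↔ ∀ k, IsSel p V (fun g => cv n (c k) (x g)) := by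
  constructor
  · rintro ⟨h1, h2, h3⟩ k
    refine ⟨(h.coc_iff V x).1 h1 k, fun l _ hl j => ?_, fun j => ?_⟩
    · exact (h.cob_iff V (BKGen.Inert F (AlgebraicClosure F) j) x).1 (h2 l hl j) k
    · exact (h.triv_iff V Per.galB j x).1 (h3 j) k
  · intro H
    refine ⟨(h.coc_iff V x).2 fun k => (H k).1, fun l _ hl j => ?_, fun j => ?_⟩
    · exact (h.cob_iff V (BKGen.Inert F (AlgebraicClosure F) j) x).2
        fun k => (H k).2.1 l hl j
    · exact (h.triv_iff V Per.galB j x).2 fun k => (H k).2.2 j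

theorem Bas.b_iff (h : Bas φ w c) (x : Fn (GF F) L₂ n) :
    x ∈ B1 (BKS.ext (φ : L →+* L₂) V) ↔
      ∀ k, (fun g => cv n (c k) (x g) : Fn (GF F) L n) ∈ B1 V := by
  have h1 := h.cob_iff V Set.univ x
  constructor
  · rintro ⟨v, hv⟩ k
    obtain ⟨v', hv'⟩ := h1.1 ⟨v, fun g _ => congrFun hv.symm g⟩ k
    exact ⟨v', funext fun g => (hv' g trivial).symm⟩
  · intro H
    obtain ⟨v, hv⟩ := h1.2 fun k => by
      obtain ⟨v', hv'⟩ := H k
      exact ⟨v', fun g _ => congrFun hv'.symm g⟩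
    exact ⟨v, funext fun g => (hv g trivial).symm⟩

end Cond

end Coord

end BKT.VBCH

namespace BKT

open BKT.VBCH

/-- **Module BCH.** -/
theorem stBch' : ∀ (p : ℕ) [Fact p.Prime] (F : Type) [Field F] (L L₂ : Type) [NormedField L]
    [NormedAlgebra ℚ_[p] L] [FiniteDimensional ℚ_[p] L] [NormedField L₂] [NormedAlgebra ℚ_[p] L₂]
    [FiniteDimensional ℚ_[p] L₂] (φ : L →ₐ[ℚ_[p]] L₂) (n : ℕ) (V : BKS.Rep (BKS.GF F) L n),
    BKS.IsFin (BKS.H1f p (BKS.ext (φ : L →+* L₂) V)) →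
    BKS.IsFin (BKS.H1f p V) ∧
      BKS.dim (BKS.H1f p V) = BKS.dim (BKS.H1f p (BKS.ext (φ : L →+* L₂) V)) := by
  intro p _ F _ L L₂ _ _ _ _ _ _ φ n V hfin
  obtain ⟨d, w, c, hd, hdim, h⟩ := exists_bas φ
  obtain ⟨π, hπ, hπ0⟩ := toIm (BKS.B1 V) (BKS.Z1 V) (BKS.Z1f p V) fun x hx => hx.1
  obtain ⟨π₂, hπ₂, hπ₂0⟩ := toIm (BKS.B1 (BKS.ext (φ : L →+* L₂) V))
    (BKS.Z1 (BKS.ext (φ : L →+* L₂) V)) (BKS.Z1f p (BKS.ext (φ : L →+* L₂) V)) fun x hx => hx.1
  let q : BKS.Z1f p (BKS.ext (φ : L →+* L₂) V) → Fin d → BKS.Z1f p V := fun x k =>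
    ⟨fun g => cv n (c k) (x.1 g), (h.sel_iff V x.1).1 x.2 k⟩
  have hq1 : ∀ x y, q (x + y) = q x + q y := by
    intro x y
    funext k
    apply Subtype.ext
    funext g
    exact map_add (cv n (c k)) (x.1 g) (y.1 g)
  have hq2 : ∀ (a : L) x, q (φ a • x) = a • q x := by
    intro a x
    funext k
    apply Subtype.ext
    funext g
    exact h.cv_smul a (x.1 g) k
  have hq3 : Function.Surjective q := by
    intro y
    have h1 : ∀ k, (fun g => cv n (c k) (∑ i, ev φ n (w i) ((y i).1 g))) = (y k).1 := by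
      intro k
      funext g
      exact h.cv_sum (fun i => (y i).1 g) k
    refine ⟨⟨fun g => ∑ i, ev φ n (w i) ((y i).1 g), (h.sel_iff V _).2 fun k => ?_⟩, ?_⟩
    · rw [h1]
      exact (y k).2
    · funext k
      apply Subtype.ext
      exact h1 k
  refine dims (φ : L →+* L₂) hd hdim π₂ hπ₂ (fun x k => π (q x k)) ?_ ?_ ?_ ?_ hfin
  · intro x y
    funext k
    rw [hq1]
    exact map_add π _ _
  · intro a x
    funext k
    have h1 := congrFun (hq2 a x) k
    exact (congrArg π h1).trans (map_smul π a (q x k))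
  · intro y
    choose z hz using fun k => hπ (y k)
    obtain ⟨x, hx⟩ := hq3 z
    refine ⟨x, ?_⟩
    funext k
    change π (q x k) = y k
    rw [hx]
    exact hz k
  · intro x
    refine Iff.trans ?_ (Iff.trans (h.b_iff V x.1).symm (hπ₂0 x).symm)
    constructor
    · intro H k
      exact (hπ0 (q x k)).1 (congrFun H k)
    · intro H
      funext k
      exact (hπ0 (q x k)).2 (H k)

/-- **Module BCH.** -/
theorem stBch (_ : StIsm) : StBch := stBch'

end BKT
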