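import Pool.Agent.Lib.MP_7c08ba_nt.T1.StV

set_option autoImplicit false

/-!
Module BCT: the modules of Fontaine of `V ⊗ L₂`.
-/

noncomputable section

namespace BKT

namespace VBCT

open BKS Matrix TensorProduct

section Gen

variable {p : ℕ} [Fact p.Prime] {L L' L'' : Type} [NormedField L] [NormedAlgebra ℚ_[p] L]
  [NormedField L'] [NormedAlgebra ℚ_[p] L'] [NormedField L''] [NormedAlgebra ℚ_[p] L'']
  {n : ℕ} {B B' : Type} [CommRing B] [Algebra ℚ_[p] B] [CommRing B'] [Algebra ℚ_[p] B']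

/-- pure tensors -/
def tp (v : Fin n → L) (b : B) : VB p L n B := v ⊗ₜ b

@[elab_as_elim]
theorem ind {P : VB p L n B → Prop} (x : VB p L n B) (h0 : P 0) (h1 : ∀ v b, P (tp v b))
    (h2 : ∀ x y, P x → P y → P (x + y)) : P x :=
  TensorProduct.induction_on (motive := P) x h0 h1 h2

theorem tp_add (v w : Fin n → L) (b : B) : (tp (v + w) b : VB p L n B) = tp v b + tp w b :=
  TensorProduct.add_tmul _ _ _

theorem tp_zero (b : B) : (tp (0 : Fin n → L) b : VB p L n B) = 0 :=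
  TensorProduct.zero_tmul _ _

theorem tp_sum {ι : Type} (s : Finset ι) (v : ι → Fin n → L) (b : B) :
    (tp (∑ i ∈ s, v i) b : VB p L n B) = ∑ i ∈ s, tp (v i) b := by
  classical
  induction s using Finset.induction_on with
  | empty => simpa using tp_zero b
  | insert a s ha ih => rw [Finset.sum_insert ha, Finset.sum_insert ha, tp_add, ih]

theorem smul_tp (a : L) (v : Fin n → L) (b : B) : a • (tp v b : VB p L n B) = tp (a • v) b :=
  TensorProduct.smul_tmul' (R := ℚ_[p]) a v b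

theorem act_tp (A : Matrix (Fin n) (Fin n) L) (f : B' →ₗ[ℚ_[p]] B) (v : Fin n → L) (b : B') :
    act A f (tp v b : VB p L n B') = tp (A *ᵥ v) (f b) := rfl

theorem act_add (A : Matrix (Fin n) (Fin n) L) (f : B' →ₗ[ℚ_[p]] B) (x y : VB p L n B') :
    act A f (x + y) = act A f x + act A f y := map_add (actL A f) x y

theorem act_zero (A : Matrix (Fin n) (Fin n) L) (f : B' →ₗ[ℚ_[p]] B) :
    act A f (0 : VB p L n B') = 0 := map_zero (actL A f)

theorem act_sum (A : Matrix (Fin n) (Fin n) L) (f : B' →ₗ[ℚ_[p]] B) {ι : Type} (s : Finset ι)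
    (x : ι → VB p L n B') : act A f (∑ i ∈ s, x i) = ∑ i ∈ s, act A f (x i) :=
  map_sum (actL A f) x s

/-- the map `T ⊗ 1` -/
def tm (B : Type) [CommRing B] [Algebra ℚ_[p] B] (T : (Fin n → L) →ₗ[ℚ_[p]] (Fin n → L')) :
    VB p L n B →+ VB p L' n B :=
  (TensorProduct.map T (LinearMap.id : B →ₗ[ℚ_[p]] B)).toAddMonoidHom

theorem tm_tp (T : (Fin n → L) →ₗ[ℚ_[p]] (Fin n → L')) (v : Fin n → L) (b : B) :
    tm B T (tp v b) = tp (T v) b := rfl

theorem tm_act (T : (Fin n → L) →ₗ[ℚ_[p]] (Fin n → L')) (A : Matrix (Fin n) (Fin n) L)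
    (A' : Matrix (Fin n) (Fin n) L') (h : ∀ v, T (A *ᵥ v) = A' *ᵥ T v) (f : B' →ₗ[ℚ_[p]] B)
    (x : VB p L n B') : tm B T (act A f x) = act A' f (tm B' T x) := by
  induction x using ind with
  | h0 => rw [act_zero, map_zero, map_zero, act_zero]
  | h1 v b =>
    rw [act_tp, tm_tp, tm_tp, act_tp, h]
  | h2 x y hx hy =>
    rw [act_add, map_add, map_add, act_add, hx, hy]

theorem tm_id (T : (Fin n → L) →ₗ[ℚ_[p]] (Fin n → L)) (h : ∀ v, T v = v) (x : VB p L n B) :
    tm B T x = x := by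
  induction x using ind with
  | h0 => rw [map_zero]
  | h1 v b =>
    rw [tm_tp, h]
  | h2 x y hx hy =>
    rw [map_add, hx, hy]

theorem tm_comp (T : (Fin n → L) →ₗ[ℚ_[p]] (Fin n → L'))
    (T' : (Fin n → L') →ₗ[ℚ_[p]] (Fin n → L'')) (x : VB p L n B) :
    tm B T' (tm B T x) = tm B (T' ∘ₗ T) x := by
  induction x using ind with
  | h0 => simp only [map_zero]
  | h1 v b =>
    rw [tm_tp, tm_tp, tm_tp]
    rfl
  | h2 x y hx hy =>
    rw [map_add, map_add, map_add, hx, hy]

theorem tm_sum {ι : Type} (s : Finset ι) (T : ι → (Fin n → L) →ₗ[ℚ_[p]] (Fin n → L'))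
    (x : VB p L n B) : ∑ i ∈ s, tm B (T i) x = tm B (∑ i ∈ s, T i) x := by
  induction x using ind with
  | h0 => simp only [map_zero, Finset.sum_const_zero]
  | h1 v b =>
    rw [tm_tp, LinearMap.sum_apply, tp_sum]
    rfl
  | h2 x y hx hy =>
    simp only [map_add, Finset.sum_add_distrib, hx, hy]

theorem tm_smul (T : (Fin n → L) →ₗ[ℚ_[p]] (Fin n → L')) (a : L) (a' : L')
    (h : ∀ v, T (a • v) = a' • T v) (x : VB p L n B) : tm B T (a • x) = a' • tm B T x := by
  induction x using ind with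
  | h0 => rw [smul_zero, map_zero, smul_zero]
  | h1 v b =>
    rw [smul_tp, tm_tp, tm_tp, smul_tp, h]
  | h2 x y hx hy =>
    rw [smul_add, map_add, map_add, smul_add, hx, hy]

end Gen

section Lin

variable {L L₂ M M₂ : Type} [Field L] [Field L₂] [Algebra L L₂] [AddCommGroup M] [Module L M]
  [AddCommGroup M₂] [Module L₂ M₂] [Module L M₂] [IsScalarTower L L₂ M₂]

theorem finrank_quot {d : ℕ} (hd : d ≠ 0) (hL : Module.finrank L L₂ = d)
    (e : M₂ ≃ₗ[L] (Fin d → M)) (S T : Submodule L M) (S₂ T₂ : Submodule L₂ M₂)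
    (hS : ∀ x, x ∈ S₂ ↔ ∀ i, e x i ∈ S) (hT : ∀ x, x ∈ T₂ ↔ ∀ i, e x i ∈ T) :
    Module.finrank L₂ (S₂ ⧸ T₂.submoduleOf S₂) = Module.finrank L (S ⧸ T.submoduleOf S) := by
  classical
  let f : S₂ →ₗ[L] (Fin d → S ⧸ T.submoduleOf S) :=
    { toFun := fun x i => (T.submoduleOf S).mkQ ⟨e x.1 i, (hS x.1).1 x.2 i⟩
      map_add' := by
        intro x y
        funext i
        change _ = (T.submoduleOf S).mkQ _ + (T.submoduleOf S).mkQ _
        rw [← map_add]
        congr 1
        apply Subtype.ext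
        change e (x.1 + y.1) i = e x.1 i + e y.1 i
        rw [map_add]
        rfl
      map_smul' := by
        intro a x
        funext i
        change _ = a • (T.submoduleOf S).mkQ _
        rw [← map_smul]
        congr 1
        apply Subtype.ext
        change e (a • x.1) i = a • e x.1 i
        rw [map_smul]
        rfl }
  have hf : Function.Surjective f := by
    intro y
    have h1 : ∀ i, ∃ z : S, (T.submoduleOf S).mkQ z = y i := fun i =>
      Submodule.mkQ_surjective _ (y i)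
    choose z hz using h1
    have h2 : e.symm (fun i => (z i : M)) ∈ S₂ := by
      rw [hS]
      intro i
      rw [LinearEquiv.apply_symm_apply]
      exact (z i).2
    refine ⟨⟨_, h2⟩, ?_⟩
    funext i
    rw [← hz i]
    change (T.submoduleOf S).mkQ _ = _
    congr 1
    apply Subtype.ext
    change e (e.symm _) i = _
    rw [LinearEquiv.apply_symm_apply]
  have hk : LinearMap.ker f = (T₂.submoduleOf S₂).restrictScalars L := by
    ext x
    rw [LinearMap.mem_ker, Submodule.restrictScalars_mem, show (x ∈ T₂.submoduleOf S₂) = ((x : M₂) ∈ T₂)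
      from rfl, hT]
    constructor
    · intro h i
      have h1 := congrFun h i
      change (T.submoduleOf S).mkQ _ = 0 at h1
      rw [Submodule.mkQ_apply, Submodule.Quotient.mk_eq_zero] at h1
      exact h1
    · intro h
      funext i
      change (T.submoduleOf S).mkQ _ = 0
      rw [Submodule.mkQ_apply, Submodule.Quotient.mk_eq_zero]
      exact h i
  have e1 : (S₂ ⧸ T₂.submoduleOf S₂) ≃ₗ[L] (Fin d → S ⧸ T.submoduleOf S) :=
    (Submodule.Quotient.restrictScalarsEquiv L (T₂.submoduleOf S₂)).symm.trans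
      ((Submodule.quotEquivOfEq _ _ hk.symm).trans (f.quotKerEquivOfSurjective hf))
  have h3 : Module.finrank L (S₂ ⧸ T₂.submoduleOf S₂) =
      d * Module.finrank L (S ⧸ T.submoduleOf S) := by
    rw [e1.finrank_eq]
    unfold Module.finrank
    rw [rank_fun, Cardinal.toNat_mul]
    simp
  have h4 : Module.finrank L L₂ * Module.finrank L₂ (S₂ ⧸ T₂.submoduleOf S₂) =
      Module.finrank L (S₂ ⧸ T₂.submoduleOf S₂) := Module.finrank_mul_finrank L L₂ _
  rw [hL, h3] at h4
  exact Nat.eq_of_mul_eq_mul_left (Nat.pos_of_ne_zero hd) h4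

end Lin

section Setup

variable {p : ℕ} [Fact p.Prime] {L L₂ : Type} [NormedField L] [NormedAlgebra ℚ_[p] L]
  [NormedField L₂] [NormedAlgebra ℚ_[p] L₂]

/-- coordinates of `L₂` over `L` -/
structure Dat (φ : L →ₐ[ℚ_[p]] L₂) (d : ℕ) where
  w : Fin d → L₂
  c : Fin d → L₂ →ₗ[ℚ_[p]] L
  c_phi : ∀ i a x, c i (φ a * x) = a * c i x
  sum : ∀ x, ∑ i, φ (c i x) * w i = x
  dual : ∀ i j, c i (w j) = if i = j then 1 else 0

variable {φ : L →ₐ[ℚ_[p]] L₂} {d : ℕ} (D : Dat φ d) (n : ℕ) {B B' : Type} [CommRing B]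
  [Algebra ℚ_[p] B] [CommRing B'] [Algebra ℚ_[p] B']

/-- coordinates of vectors -/
def Dat.C (i : Fin d) : (Fin n → L₂) →ₗ[ℚ_[p]] (Fin n → L) where
  toFun v k := D.c i (v k)
  map_add' v w := by funext k; exact map_add _ _ _
  map_smul' a v := by funext k; exact map_smul _ _ _

/-- vectors from coordinates -/
def Dat.W (i : Fin d) : (Fin n → L) →ₗ[ℚ_[p]] (Fin n → L₂) where
  toFun v k := φ (v k) * D.w i
  map_add' v w := by
    funext k
    change φ (v k + w k) * D.w i = φ (v k) * D.w i + φ (w k) * D.w i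
    rw [map_add, add_mul]
  map_smul' a v := by
    funext k
    change φ (a • v k) * D.w i = a • (φ (v k) * D.w i)
    rw [map_smul, smul_mul_assoc]

theorem Dat.C_apply (i : Fin d) (v : Fin n → L₂) (k : Fin n) : D.C n i v k = D.c i (v k) := rfl

theorem Dat.W_apply (i : Fin d) (v : Fin n → L) (k : Fin n) :
    D.W n i v k = φ (v k) * D.w i := rfl

theorem Dat.C_mul (i : Fin d) (A : Matrix (Fin n) (Fin n) L) (v : Fin n → L₂) :
    D.C n i (A.map φ *ᵥ v) = A *ᵥ D.C n i v := by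
  funext k
  rw [D.C_apply]
  simp only [Matrix.mulVec, dotProduct, Matrix.map_apply, map_sum, D.c_phi, D.C_apply]

theorem Dat.W_mul (i : Fin d) (A : Matrix (Fin n) (Fin n) L) (v : Fin n → L) :
    D.W n i (A *ᵥ v) = A.map φ *ᵥ D.W n i v := by
  funext k
  rw [D.W_apply]
  simp only [Matrix.mulVec, dotProduct, Matrix.map_apply, map_sum, map_mul, D.W_apply,
    Finset.sum_mul, mul_assoc]

/-- coordinates of `V ⊗ L₂ ⊗ B` -/
def Dat.Gm (B : Type) [CommRing B] [Algebra ℚ_[p] B] (i : Fin d) :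
    VB p L₂ n B →+ VB p L n B := tm B (D.C n i)

/-- `V ⊗ B → V ⊗ L₂ ⊗ B` -/
def Dat.Th (B : Type) [CommRing B] [Algebra ℚ_[p] B] (i : Fin d) :
    VB p L n B →+ VB p L₂ n B := tm B (D.W n i)

theorem Dat.sum_Th (x : VB p L₂ n B) : ∑ i, D.Th n B i (D.Gm n B i x) = x := by
  simp only [Dat.Th, Dat.Gm, tm_comp]
  rw [tm_sum]
  apply tm_id
  intro v
  rw [LinearMap.sum_apply]
  funext k
  rw [Finset.sum_apply]
  exact D.sum (v k)

theorem Dat.Gm_Th_same (i : Fin d) (x : VB p L n B) : D.Gm n B i (D.Th n B i x) = x := by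
  simp only [Dat.Th, Dat.Gm, tm_comp]
  apply tm_id
  intro v
  funext k
  change D.c i (φ (v k) * D.w i) = v k
  rw [D.c_phi, D.dual, if_pos rfl, mul_one]

theorem Dat.Gm_Th_ne {i j : Fin d} (h : i ≠ j) (x : VB p L n B) :
    D.Gm n B i (D.Th n B j x) = 0 := by
  simp only [Dat.Th, Dat.Gm, tm_comp]
  have h1 : (D.C n i) ∘ₗ (D.W n j) = 0 := by
    apply LinearMap.ext
    intro v
    funext k
    change D.c i (φ (v k) * D.w j) = 0
    rw [D.c_phi, D.dual, if_neg h, mul_zero]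
  rw [h1]
  induction x using ind with
  | h0 => rw [map_zero]
  | h1 v b =>
    rw [tm_tp]
    exact tp_zero b
  | h2 x y hx hy => rw [map_add, hx, hy, add_zero]

theorem Dat.Gm_sum (y : Fin d → VB p L n B) (i : Fin d) :
    D.Gm n B i (∑ j, D.Th n B j (y j)) = y i := by
  rw [map_sum, Finset.sum_eq_single i]
  · exact D.Gm_Th_same n i _
  · intro j _ hj
    exact D.Gm_Th_ne n (Ne.symm hj) _
  · intro h
    exact absurd (Finset.mem_univ i) h

theorem Dat.Gm_act (i : Fin d) (A : Matrix (Fin n) (Fin n) L) (f : B' →ₗ[ℚ_[p]] B)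
    (x : VB p L₂ n B') : D.Gm n B i (act (A.map φ) f x) = act A f (D.Gm n B' i x) :=
  tm_act _ _ _ (D.C_mul n i A) f x

theorem Dat.Th_act (i : Fin d) (A : Matrix (Fin n) (Fin n) L) (f : B' →ₗ[ℚ_[p]] B)
    (x : VB p L n B') : D.Th n B i (act A f x) = act (A.map φ) f (D.Th n B' i x) :=
  tm_act _ _ _ (D.W_mul n i A) f x

theorem map_one_phi (φ : L →ₐ[ℚ_[p]] L₂) (n : ℕ) :
    (1 : Matrix (Fin n) (Fin n) L).map φ = 1 :=
  Matrix.map_one _ (map_zero φ) (map_one φ)

theorem Dat.Gm_act1 (i : Fin d) (f : B' →ₗ[ℚ_[p]] B) (x : VB p L₂ n B') :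
    D.Gm n B i (act 1 f x) = act 1 f (D.Gm n B' i x) := by
  rw [← D.Gm_act, map_one_phi]

theorem Dat.Th_act1 (i : Fin d) (f : B' →ₗ[ℚ_[p]] B) (x : VB p L n B') :
    D.Th n B i (act 1 f x) = act 1 f (D.Th n B' i x) := by
  rw [D.Th_act, map_one_phi]

theorem Dat.Gm_smul (a : L) (i : Fin d) (x : VB p L₂ n B) :
    D.Gm n B i (φ a • x) = a • D.Gm n B i x := by
  apply tm_smul
  intro v
  funext k
  exact D.c_phi i a (v k)

theorem Dat.Th_smul (a : L) (i : Fin d) (x : VB p L n B) :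
    D.Th n B i (a • x) = φ a • D.Th n B i x := by
  apply tm_smul
  intro v
  funext k
  change φ (a * v k) * D.w i = φ a * (φ (v k) * D.w i)
  rw [map_mul, mul_assoc]

theorem Dat.smul_Th (a : L₂) (j : Fin d) (x : VB p L n B) :
    a • D.Th n B j x = ∑ i, D.Th n B i (D.c i (a * D.w j) • x) := by
  induction x using ind with
  | h0 => simp only [map_zero, smul_zero, Finset.sum_const_zero]
  | h1 v b =>
    simp only [Dat.Th, smul_tp, tm_tp]
    rw [← tp_sum]
    congr 1
    funext k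
    rw [Finset.sum_apply]
    change a * (φ (v k) * D.w j) = ∑ i, φ (D.c i (a * D.w j) * v k) * D.w i
    have h1 : a * (φ (v k) * D.w j) = φ (v k) * ∑ i, φ (D.c i (a * D.w j)) * D.w i := by
      rw [D.sum]
      ring
    rw [h1, Finset.mul_sum]
    refine Finset.sum_congr rfl fun i _ => ?_
    rw [show φ (D.c i (a * D.w j) * v k) = φ (D.c i (a * D.w j)) * φ (v k) from map_mul φ _ _]
    ring
  | h2 x y hx hy => simp only [map_add, smul_add, Finset.sum_add_distrib, hx, hy]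

theorem Dat.Gm_smul2 (a : L₂) (i : Fin d) (x : VB p L₂ n B) :
    D.Gm n B i (a • x) = ∑ j, D.c i (a * D.w j) • D.Gm n B j x := by
  have h : a • x = ∑ j, ∑ i, D.Th n B i (D.c i (a * D.w j) • D.Gm n B j x) := by
    conv_lhs => rw [← D.sum_Th n x, Finset.smul_sum]
    exact Finset.sum_congr rfl fun j _ => D.smul_Th n a j _
  rw [h, Finset.sum_comm, map_sum, Finset.sum_eq_single i]
  · rw [← map_sum (D.Th n B i), D.Gm_Th_same]
  · intro j _ hj
    rw [← map_sum (D.Th n B j), D.Gm_Th_ne n (Ne.symm hj)]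
  · intro h
    exact absurd (Finset.mem_univ i) h

/-- existence of coordinates -/
theorem exists_dat [FiniteDimensional ℚ_[p] L₂] (φ : L →ₐ[ℚ_[p]] L₂) :
    ∃ d : ℕ, d ≠ 0 ∧ (letI := (φ : L →+* L₂).toAlgebra; Module.finrank L L₂ = d) ∧
      Nonempty (Dat φ d) := by
  let _ : Algebra L L₂ := (φ : L →+* L₂).toAlgebra
  have : IsScalarTower ℚ_[p] L L₂ := IsScalarTower.of_algebraMap_eq fun x => (φ.commutes x).symm
  have : FiniteDimensional L L₂ := Module.Finite.of_restrictScalars_finite ℚ_[p] L L₂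
  let b := Module.finBasis L L₂
  refine ⟨Module.finrank L L₂, Module.finrank_pos.ne', rfl, ⟨?_⟩⟩
  exact
    { w := b
      c := fun i => (b.coord i).restrictScalars ℚ_[p]
      c_phi := by
        intro i a x
        change b.coord i (a • x) = a * b.coord i x
        rw [map_smul]
        rfl
      sum := by
        intro x
        exact b.sum_repr x
      dual := by
        intro i j
        change b.repr (b j) i = _
        rw [b.repr_self, Finsupp.single_apply]
        simp only [eq_comm] }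

theorem mat_ext {F : Type} [Field F] (φ : L →ₐ[ℚ_[p]] L₂) (V : Rep (GF F) L n) (g : GF F) :
    mat (ext (φ : L →+* L₂) V) g = (mat V g).map φ := rfl

variable {n} {F : Type} [Field F] (V : Rep (GF F) L n) (γ : Action p B) (H : Subgroup (GF F))
  (j : Emb p F)

theorem Dat.Gm_gal (i : Fin d) (g : GF F) (t : GQ p) (x : VB p L₂ n B) :
    D.Gm n B i (gal γ (ext (φ : L →+* L₂) V) g t x) = gal γ V g t (D.Gm n B i x) := by
  unfold gal
  rw [mat_ext, D.Gm_act]

theorem Dat.Th_gal (i : Fin d) (g : GF F) (t : GQ p) (x : VB p L n B) :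
    D.Th n B i (gal γ V g t x) = gal γ (ext (φ : L →+* L₂) V) g t (D.Th n B i x) := by
  unfold gal
  rw [mat_ext, D.Th_act]

theorem Dat.mem_DB (x : VB p L₂ n B) :
    x ∈ DB γ H j (ext (φ : L →+* L₂) V) ↔ ∀ i, D.Gm n B i x ∈ DB γ H j V := by
  constructor
  · intro h i g hg t ht
    rw [← D.Gm_gal, h g hg t ht]
  · intro h
    rw [← D.sum_Th n x]
    refine Submodule.sum_mem _ fun i _ => ?_
    intro g hg t ht
    rw [← D.Th_gal, h i g hg t ht]

theorem Dat.mem_sub (f : B' →ₐ[ℚ_[p]] B) (x : VB p L₂ n B) :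
    x ∈ sub L₂ n f ↔ ∀ i, D.Gm n B i x ∈ sub L n f := by
  constructor
  · rintro ⟨y, rfl⟩ i
    exact ⟨D.Gm n B' i y, (D.Gm_act1 n i f.toLinearMap y).symm⟩
  · intro h
    choose y hy using h
    refine ⟨∑ i, D.Th n B' i (y i), ?_⟩
    change act 1 f.toLinearMap _ = x
    rw [act_sum, ← D.sum_Th n x]
    refine Finset.sum_congr rfl fun i _ => ?_
    rw [← hy i, ← D.Th_act1]
    rfl

include D in
theorem Dat.adm (h : BKS.Adm γ j V) : BKS.Adm γ j (ext (φ : L →+* L₂) V) := by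
  obtain ⟨Φ, hΦ, hg⟩ := h
  obtain ⟨Ψ, hl, hr⟩ := Function.bijective_iff_has_inverse.1 hΦ.bij
  have h0 : Φ 0 = 0 := by
    have := hΦ.smul 0 0
    simpa using this
  let Φs : VB p L n B →ₗ[L] VB p L n B :=
    { toFun := Φ
      map_add' := hΦ.add
      map_smul' := hΦ.smul }
  refine ⟨fun x => ∑ i, D.Th n B i (Φ (D.Gm n B i x)), ⟨?_, ?_, ?_, ?_⟩, ?_⟩
  · refine Function.bijective_iff_has_inverse.2 ⟨fun x => ∑ i, D.Th n B i (Ψ (D.Gm n B i x)),
      fun x => ?_, fun x => ?_⟩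
    · change ∑ i, D.Th n B i (Ψ (D.Gm n B i (∑ k, D.Th n B k (Φ (D.Gm n B k x))))) = x
      conv_rhs => rw [← D.sum_Th n x]
      refine Finset.sum_congr rfl fun i _ => ?_
      rw [D.Gm_sum, hl]
    · change ∑ i, D.Th n B i (Φ (D.Gm n B i (∑ k, D.Th n B k (Ψ (D.Gm n B k x))))) = x
      conv_rhs => rw [← D.sum_Th n x]
      refine Finset.sum_congr rfl fun i _ => ?_
      rw [D.Gm_sum, hr]
  · intro x y
    change ∑ i, D.Th n B i (Φ (D.Gm n B i (x + y))) = ∑ i, D.Th n B i (Φ (D.Gm n B i x)) +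
      ∑ i, D.Th n B i (Φ (D.Gm n B i y))
    rw [← Finset.sum_add_distrib]
    refine Finset.sum_congr rfl fun i _ => ?_
    rw [map_add, hΦ.add, map_add]
  · intro a x
    change ∑ i, D.Th n B i (Φ (D.Gm n B i (a • x))) = a • ∑ i, D.Th n B i (Φ (D.Gm n B i x))
    rw [Finset.smul_sum]
    have h1 : ∀ i, D.Th n B i (Φ (D.Gm n B i (a • x))) =
        ∑ k, D.Th n B i (D.c i (a * D.w k) • Φ (D.Gm n B k x)) := by
      intro i
      rw [D.Gm_smul2]
      change D.Th n B i (Φs _) = _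
      rw [map_sum, map_sum]
      refine Finset.sum_congr rfl fun k _ => ?_
      rw [map_smul]
      rfl
    rw [Finset.sum_congr rfl fun i _ => h1 i, Finset.sum_comm]
    refine Finset.sum_congr rfl fun k _ => ?_
    rw [D.smul_Th]
  · intro b x
    change ∑ i, D.Th n B i (Φ (D.Gm n B i (act 1 _ x))) =
      act 1 _ (∑ i, D.Th n B i (Φ (D.Gm n B i x)))
    rw [act_sum]
    refine Finset.sum_congr rfl fun i _ => ?_
    rw [D.Gm_act1, ← D.Th_act1]
    congr 1
    exact hΦ.mul b _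
  · intro g t ht x
    change ∑ i, D.Th n B i (Φ (D.Gm n B i (act 1 _ x))) =
      gal γ (ext (φ : L →+* L₂) V) g t (∑ i, D.Th n B i (Φ (D.Gm n B i x)))
    rw [gal, act_sum]
    refine Finset.sum_congr rfl fun i _ => ?_
    rw [D.Gm_act1]
    change _ = gal γ (ext (φ : L →+* L₂) V) g t (D.Th n B i (Φ (D.Gm n B i x)))
    rw [← D.Th_gal]
    congr 1
    exact hg g t ht _

include D in
theorem Dat.bijSub (f : B →ₐ[ℚ_[p]] B) (h : BijSub γ H j V f) :
    BijSub γ H j (ext (φ : L →+* L₂) V) f := by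
  intro y hy
  have h1 : ∀ i, ∃! x, x ∈ DB γ H j V ∧ base f.toLinearMap x - x = D.Gm n B i y := fun i =>
    h _ ((D.mem_DB V γ H j y).1 hy i)
  choose x hx hu using h1
  refine ⟨∑ i, D.Th n B i (x i), ⟨?_, ?_⟩, ?_⟩
  · rw [D.mem_DB]
    intro i
    rw [D.Gm_sum]
    exact (hx i).1
  · change act 1 _ _ - _ = y
    rw [act_sum, ← Finset.sum_sub_distrib]
    conv_rhs => rw [← D.sum_Th n y]
    refine Finset.sum_congr rfl fun i _ => ?_
    rw [← D.Th_act1, ← _root_.map_sub]
    congr 1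
    exact (hx i).2
  · rintro z ⟨hz1, hz2⟩
    rw [← D.sum_Th n z]
    refine Finset.sum_congr rfl fun i _ => ?_
    congr 1
    refine hu i _ ⟨(D.mem_DB V γ H j z).1 hz1 i, ?_⟩
    rw [← hz2, _root_.map_sub]
    congr 1
    exact (D.Gm_act1 n i f.toLinearMap z).symm

include D in
theorem Dat.codim (hd : d ≠ 0)
    (hL : letI := (φ : L →+* L₂).toAlgebra; Module.finrank L L₂ = d) (f : B' →ₐ[ℚ_[p]] B) :
    codimIn (DB γ H j (ext (φ : L →+* L₂) V)) (sub L₂ n f) =
      codimIn (DB γ H j V) (sub L n f) := by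
  let _ : Algebra L L₂ := (φ : L →+* L₂).toAlgebra
  let _ : Module L (VB p L₂ n B) := Module.compHom _ (φ : L →+* L₂)
  have : IsScalarTower L L₂ (VB p L₂ n B) := ⟨fun a b x => mul_smul (φ a) b x⟩
  let e : VB p L₂ n B ≃ₗ[L] (Fin d → VB p L n B) :=
    { toFun := fun x i => D.Gm n B i x
      invFun := fun y => ∑ i, D.Th n B i (y i)
      map_add' := fun x y => funext fun i => map_add _ _ _
      map_smul' := fun a x => funext fun i => D.Gm_smul n a i x
      left_inv := fun x => D.sum_Th n x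
      right_inv := fun y => funext fun i => D.Gm_sum n y i }
  exact finrank_quot hd hL e _ _ _ _ (fun x => D.mem_DB V γ H j x) (fun x => D.mem_sub f x)

end Setup

end VBCT

open VBCT in
theorem stBct (_h : StIsm) : StBct := by
  intro p _ F _ L L₂ _ _ _ _ _ _ φ n V j
  obtain ⟨d, hd, hL, ⟨D⟩⟩ := exists_dat φ
  exact ⟨D.adm V _ j, D.bijSub V _ ⊤ j _, D.codim V _ ⊤ j hd hL _⟩

end BKT
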