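import Pool.Agent.Lib.MP_7c08ba_nt.T1.StV
import Mathlib.RepresentationTheory.AlgebraRepresentation.Basic
import Mathlib.RingTheory.SimpleModule.Basic

set_option autoImplicit false

/-!
Parity for congruent representations, module BNA: density.
-/

noncomputable section

namespace BKT

namespace VBNA

section

variable {K : Type} [Field K] {R : Type} [Ring R] [Algebra K R] {r : ℕ}
  {S : Fin r → Type} [∀ i, AddCommGroup (S i)] [∀ i, Module K (S i)] [∀ i, Module R (S i)]
  [∀ i, IsScalarTower K R (S i)] [∀ i, FiniteDimensional K (S i)] [∀ i, IsSimpleModule R (S i)]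

/-- the endomorphisms of a sum of simple modules which are not isomorphic are diagonal -/
theorem end_eq [IsAlgClosed K] (hS : ∀ i j, i ≠ j → IsEmpty (S i ≃ₗ[R] S j))
    (T : Module.End R (∀ i, S i)) (j : Fin r) : ∃ c : K, ∀ m, T m j = c • m j := by
  classical
  have h1 : ∀ l, l ≠ j → ∀ v : S l, T (Pi.single l v) j = 0 := by
    intro l hl v
    have h := LinearMap.bijective_or_eq_zero
      ((LinearMap.proj j).comp (T.comp (LinearMap.single R S l)) : S l →ₗ[R] S j)
    rcases h with h | h
    · exact ((hS l j hl).false (LinearEquiv.ofBijective _ h)).elim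
    · exact LinearMap.congr_fun h v
  obtain ⟨c, hc⟩ := (IsSimpleModule.algebraMap_end_bijective_of_isAlgClosed
    (A := R) (V := S j) K).2
    ((LinearMap.proj j).comp (T.comp (LinearMap.single R S j)) : S j →ₗ[R] S j)
  refine ⟨c, fun m => ?_⟩
  have h2 : m = ∑ l, Pi.single l (m l) := (Finset.univ_sum_single m).symm
  conv_lhs => rw [h2]
  rw [map_sum, Finset.sum_apply, Finset.sum_eq_single j]
  · exact (LinearMap.congr_fun hc (m j)).symm
  · intro l _ hl
    exact h1 l hl (m l)
  · intro h
    exact absurd (Finset.mem_univ j) h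

/-- density for the sum of simple modules which are not isomorphic -/
theorem exists_mem [IsAlgClosed K] (hS : ∀ i j, i ≠ j → IsEmpty (S i ≃ₗ[R] S j)) (i : Fin r)
    (e : S i →ₗ[K] S i) :
    ∃ x : R, (∀ v : S i, x • v = e v) ∧ ∀ j, j ≠ i → ∀ v : S j, x • v = 0 := by
  classical
  let f : Module.End (Module.End R (∀ i, S i)) (∀ i, S i) :=
    { toFun := fun m => Pi.single i (e (m i))
      map_add' := fun m m' => by rw [Pi.add_apply, map_add, Pi.single_add]
      map_smul' := fun T m => by
        funext j
        obtain ⟨c, hc⟩ := end_eq (K := K) hS T j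
        change Pi.single i (e (T m i)) j = T (Pi.single i (e (m i))) j
        rw [hc]
        by_cases hj : j = i
        · subst hj
          rw [Pi.single_eq_same, Pi.single_eq_same, hc, map_smul]
        · rw [Pi.single_eq_of_ne hj, Pi.single_eq_of_ne hj, smul_zero] }
  obtain ⟨s, hs⟩ := Module.Finite.fg_top (R := K) (M := ∀ i, S i)
  obtain ⟨x, hx⟩ := jacobson_density (R := R) f s
  have hall : ∀ m : ∀ i, S i, x • m = Pi.single i (e (m i)) := by
    intro m
    have hm : m ∈ Submodule.span K (s : Set (∀ i, S i)) := by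
      rw [hs]
      exact Submodule.mem_top
    refine Submodule.span_induction (p := fun m _ => x • m = Pi.single i (e (m i)))
      (fun a ha => (hx a ha).symm) ?_ (fun a b _ _ h1 h2 => ?_) (fun c a _ h => ?_) hm
    · rw [smul_zero, Pi.zero_apply, map_zero, Pi.single_zero]
    · rw [smul_add, h1, h2, Pi.add_apply, map_add, Pi.single_add]
    · rw [smul_comm, h, Pi.smul_apply, map_smul, Pi.single_smul]
  refine ⟨x, fun v => ?_, fun j hj v => ?_⟩
  · have h := congrFun (hall (Pi.single i v)) i
    rw [Pi.smul_apply, Pi.single_eq_same, Pi.single_eq_same] at h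
    exact h
  · have h := congrFun (hall (Pi.single j v)) j
    rw [Pi.smul_apply, Pi.single_eq_same, Pi.single_eq_of_ne hj] at h
    exact h

end

end VBNA

/-- Module BNA: density. -/
theorem stBna : StBna := by
  intro K _ _ G _ r S _ _ _ _ _ _ hS i
  have hn : Nontrivial (S i) := IsSimpleModule.nontrivial (MonoidAlgebra K G) (S i)
  obtain ⟨v, hv⟩ := exists_ne (0 : S i)
  obtain ⟨φ, hφ⟩ := Module.Projective.exists_dual_eq_one K hv
  obtain ⟨x, hx1, hx2⟩ := VBNA.exists_mem (K := K) hS i (φ.smulRight v)
  refine ⟨x, ?_, fun j hj => ?_⟩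
  · have e : ga K (S i) x = φ.smulRight v := LinearMap.ext fun w => hx1 w
    rw [e, LinearMap.trace_smulRight, hφ]
  · exact LinearMap.ext fun w => hx2 j hj w

end BKT
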