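import Pool.Agent.Lib.MP_7c08ba_nt.T1.StV

set_option autoImplicit false

/-!
Module BNB: the characteristic polynomials determine the multiplicities.
-/

noncomputable section

namespace BKT

open Polynomial

namespace VBNB

/-- the trace is the negative of the second coefficient of the characteristic polynomial -/
lemma trace_eq {K V : Type} [Field K] [AddCommGroup V] [Module K V] [FiniteDimensional K V]
    (f : V →ₗ[K] V) : LinearMap.trace K V f = -f.charpoly.nextCoeff := by
  classical
  obtain ⟨b⟩ : Nonempty (Module.Basis (Fin (Module.finrank K V)) K V) := ⟨Module.finBasis K V⟩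
  rw [LinearMap.trace_eq_matrix_trace K b, ← LinearMap.charpoly_toMatrix f b,
    Matrix.trace_eq_neg_charpoly_nextCoeff]

section

variable {K : Type} [Field K] {G : Type} [Group G] {r : ℕ} (S : Fin r → Type)
  [∀ i, AddCommGroup (S i)] [∀ i, Module K (S i)] [∀ i, Module (MonoidAlgebra K G) (S i)]
  [∀ i, IsScalarTower K (MonoidAlgebra K G) (S i)] [∀ i, FiniteDimensional K (S i)]

lemma gch_monic (i : Fin r) (g : G) : (gch K (S i) g).Monic := LinearMap.charpoly_monic _

lemma nextCoeff_prod (m : Fin r → ℕ) (g : G) :
    (∏ i, gch K (S i) g ^ m i).nextCoeff =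
      -∑ i, (m i : K) * LinearMap.trace K (S i) (ga K (S i) (MonoidAlgebra.of K G g)) := by
  rw [Monic.nextCoeff_prod _ _ fun i _ => (gch_monic S i g).pow (m i), ← Finset.sum_neg_distrib]
  refine Finset.sum_congr rfl fun i _ => ?_
  rw [(gch_monic S i g).nextCoeff_pow, trace_eq, nsmul_eq_mul, mul_neg, neg_neg]
  rfl

/-- the linear form `x ↦ ∑ (m i) tr (x | S i)` -/
lemma sum_trace_eq (m m' : Fin r → ℕ)
    (h : ∀ g : G, ∏ i, gch K (S i) g ^ m i = ∏ i, gch K (S i) g ^ m' i) (x : MonoidAlgebra K G) :
    ∑ i, (m i : K) * LinearMap.trace K (S i) (ga K (S i) x) =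
      ∑ i, (m' i : K) * LinearMap.trace K (S i) (ga K (S i) x) := by
  have hg : ∀ g : G, ∑ i, (m i : K) * LinearMap.trace K (S i) (ga K (S i) (MonoidAlgebra.of K G g)) =
      ∑ i, (m' i : K) * LinearMap.trace K (S i) (ga K (S i) (MonoidAlgebra.of K G g)) := by
    intro g
    have h1 := congrArg Polynomial.nextCoeff (h g)
    rw [nextCoeff_prod, nextCoeff_prod] at h1
    exact neg_injective h1
  have hadd : ∀ (i : Fin r) (x y : MonoidAlgebra K G), ga K (S i) (x + y) = ga K (S i) x + ga K (S i) y := by
    intro i x y
    exact map_add (Algebra.lsmul K K (S i)) x y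
  have hsmul : ∀ (i : Fin r) (c : K) (x : MonoidAlgebra K G), ga K (S i) (c • x) = c • ga K (S i) x := by
    intro i c x
    exact map_smul (Algebra.lsmul K K (S i)) c x
  induction x using MonoidAlgebra.induction_on with
  | of g => exact hg g
  | add x y hx hy =>
    simp only [hadd, map_add, mul_add, Finset.sum_add_distrib]
    rw [hx, hy]
  | smul c x hx =>
    have e : ∀ n : Fin r → ℕ, ∑ i, (n i : K) * LinearMap.trace K (S i) (ga K (S i) (c • x)) =
        c * ∑ i, (n i : K) * LinearMap.trace K (S i) (ga K (S i) x) := by
      intro n
      rw [Finset.mul_sum]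
      refine Finset.sum_congr rfl fun i _ => ?_
      rw [hsmul, map_smul, smul_eq_mul]
      ring
    rw [e, e, hx]

end

end VBNB

theorem stBnb (h : StBna) : StBnb := by
  intro p hp K _ _ _ G _ r S _ _ _ _ _ _ hiso
  have key : ∀ N : ℕ, ∀ m m' : Fin r → ℕ, ∑ i, (m i + m' i) = N →
      (∀ g : G, ∏ i, gch K (S i) g ^ m i = ∏ i, gch K (S i) g ^ m' i) → m = m' := by
    intro N
    induction N using Nat.strong_induction_on with
    | _ N ih =>
      intro m m' hN hm
      by_cases hpos : ∃ i, 0 < m i ∧ 0 < m' i
      · obtain ⟨i, hi, hi'⟩ := hpos
        have hsub : ∀ (n : Fin r → ℕ), 0 < n i → ∀ g : G,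
            ∏ j, gch K (S j) g ^ n j = gch K (S i) g * ∏ j, gch K (S j) g ^ (Function.update n i (n i - 1)) j := by
          intro n hn g
          rw [← Finset.mul_prod_erase Finset.univ (fun j => gch K (S j) g ^ n j) (Finset.mem_univ i),
            ← Finset.mul_prod_erase Finset.univ
              (fun j => gch K (S j) g ^ (Function.update n i (n i - 1)) j) (Finset.mem_univ i)]
          have e1 : ∏ j ∈ Finset.univ.erase i, gch K (S j) g ^ n j =
              ∏ j ∈ Finset.univ.erase i, gch K (S j) g ^ (Function.update n i (n i - 1)) j :=
            Finset.prod_congr rfl fun j hj => by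
              rw [Function.update_of_ne (Finset.ne_of_mem_erase hj)]
          rw [e1, Function.update_self, ← mul_assoc, ← pow_succ', Nat.sub_add_cancel hn]
        have hsum : ∀ (n : Fin r → ℕ), 0 < n i →
            ∑ j, n j = ∑ j, (Function.update n i (n i - 1)) j + 1 := by
          intro n hn
          rw [← Finset.add_sum_erase Finset.univ n (Finset.mem_univ i),
            ← Finset.add_sum_erase Finset.univ (Function.update n i (n i - 1)) (Finset.mem_univ i)]
          have e1 : ∑ j ∈ Finset.univ.erase i, n j =
              ∑ j ∈ Finset.univ.erase i, (Function.update n i (n i - 1)) j :=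
            Finset.sum_congr rfl fun j hj => by
              rw [Function.update_of_ne (Finset.ne_of_mem_erase hj)]
          rw [e1, Function.update_self]
          omega
        have h1 := ih (∑ j, ((Function.update m i (m i - 1)) j + (Function.update m' i (m' i - 1)) j))
          (by
            rw [← hN, Finset.sum_add_distrib, Finset.sum_add_distrib, hsum m hi, hsum m' hi']
            omega) (Function.update m i (m i - 1)) (Function.update m' i (m' i - 1)) rfl (by
            intro g
            have h2 := hm g
            rw [hsub m hi g, hsub m' hi' g] at h2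
            exact mul_left_cancel₀ (VBNB.gch_monic S i g).ne_zero h2)
        funext j
        by_cases hj : j = i
        · have h2 := congrFun h1 i
          rw [Function.update_self, Function.update_self] at h2
          rw [hj]
          omega
        · have h2 := congrFun h1 j
          rw [Function.update_of_ne hj, Function.update_of_ne hj] at h2
          exact h2
      · push Not at hpos
        -- all multiplicities are divisible by `p`
        have hdvd : ∀ i, p ∣ m i ∧ p ∣ m' i := by
          intro i
          obtain ⟨x, hx1, hx2⟩ := h K G r S hiso i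
          have h1 := VBNB.sum_trace_eq S m m' hm x
          have h2 : ∀ n : Fin r → ℕ,
              ∑ j, (n j : K) * LinearMap.trace K (S j) (ga K (S j) x) = (n i : K) := by
            intro n
            rw [Finset.sum_eq_single i, hx1, mul_one]
            · intro j _ hj
              rw [hx2 j hj, map_zero, mul_zero]
            · intro hi
              exact absurd (Finset.mem_univ i) hi
          rw [h2, h2] at h1
          rcases Nat.eq_zero_or_pos (m i) with h3 | h3
          · rw [h3, Nat.cast_zero] at h1
            refine ⟨h3 ▸ dvd_zero p, ?_⟩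
            exact (CharP.cast_eq_zero_iff K p (m' i)).1 h1.symm
          · have h4 : m' i = 0 := Nat.le_zero.1 (hpos i h3)
            rw [h4, Nat.cast_zero] at h1
            refine ⟨(CharP.cast_eq_zero_iff K p (m i)).1 h1, h4 ▸ dvd_zero p⟩
        have hp1 : 1 < p := hp.out.one_lt
        choose n hn using fun i => (hdvd i).1
        choose n' hn' using fun i => (hdvd i).2
        by_cases hz : ∑ i, (m i + m' i) = 0
        · have h1 := Finset.sum_eq_zero_iff.1 hz
          funext i
          have h2 := h1 i (Finset.mem_univ i)
          omega
        · have hlt : ∑ i, (n i + n' i) < N := by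
            have h1 : N = p * ∑ i, (n i + n' i) := by
              rw [← hN, Finset.mul_sum]
              exact Finset.sum_congr rfl fun i _ => by rw [hn i, hn' i, mul_add]
            have h2 : 0 < ∑ i, (n i + n' i) := by
              rcases Nat.eq_zero_or_pos (∑ i, (n i + n' i)) with h3 | h3
              · rw [h3, mul_zero] at h1
                omega
              · exact h3
            rw [h1]
            nlinarith
          have h1 := ih _ hlt n n' rfl (by
            intro g
            have h2 := hm g
            have e : ∀ a b : Fin r → ℕ, (∀ i, a i = p * b i) →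
                ∏ i, gch K (S i) g ^ a i = (∏ i, gch K (S i) g ^ b i) ^ p := by
              intro a b hab
              rw [← Finset.prod_pow]
              refine Finset.prod_congr rfl fun i _ => ?_
              rw [hab i, mul_comm, pow_mul]
            rw [e m n hn, e m' n' hn'] at h2
            have : CharP K[X] p := inferInstance
            exact frobenius_inj K[X] p h2)
          funext i
          rw [hn i, hn' i, h1]
  intro m m' hm
  exact key _ m m' rfl hm

end BKT
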