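import Pool.Agent.Lib.MP_7c08ba_nt.T1.StV

set_option autoImplicit false

/-!
The theorem of Brauer and Nesbitt: the characteristic polynomials determine the multiplicities of
the simple modules.
-/

noncomputable section

namespace BKT

open Matrix

namespace VBNT

/-! ### Characteristic polynomials in exact sequences -/

open Module.Basis in
lemma charpoly_sub {K V : Type} [Field K] [AddCommGroup V] [Module K V] [FiniteDimensional K V]
    (W : Submodule K V) (e : V →ₗ[K] V) (he : W ≤ W.comap e) :
    e.charpoly = (e.restrict he).charpoly * (W.mapQ W e he).charpoly := by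
  classical
  let m := Module.Free.ChooseBasisIndex K W
  let bW : Module.Basis m K W := Module.Free.chooseBasis K W
  let n := Module.Free.ChooseBasisIndex K (V ⧸ W)
  let bQ : Module.Basis n K (V ⧸ W) := Module.Free.chooseBasis K (V ⧸ W)
  let b := sumQuot bW bQ
  let A : Matrix m m K := LinearMap.toMatrix bW bW (e.restrict he)
  let B : Matrix m n K := Matrix.of fun i l ↦
    ((sumQuot bW bQ).repr (e ((sumQuot bW bQ) (Sum.inr l)))) (Sum.inl i)
  let D : Matrix n n K := LinearMap.toMatrix bQ bQ (W.mapQ W e he)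
  suffices LinearMap.toMatrix b b e = Matrix.fromBlocks A B 0 D by
    rw [← LinearMap.charpoly_toMatrix e b, this, ← LinearMap.charpoly_toMatrix _ bW,
      ← LinearMap.charpoly_toMatrix _ bQ, Matrix.charpoly_fromBlocks_zero₂₁]
  ext u v
  cases u with
  | inl i =>
    cases v with
    | inl k =>
      simp only [b, sumQuot_inl, Matrix.fromBlocks_apply₁₁, A, LinearMap.toMatrix_apply]
      apply sumQuot_repr_inl_of_mem
    | inr l => simp [b, LinearMap.toMatrix_apply, Matrix.fromBlocks_apply₁₂, B]
  | inr j =>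
    cases v with
    | inl k =>
      suffices W.mkQ (e (bW k)) = 0 by simp [LinearMap.toMatrix_apply, b, this]
      rw [← LinearMap.mem_ker, Submodule.ker_mkQ]
      exact he (Submodule.coe_mem (bW k))
    | inr l =>
      simp only [LinearMap.toMatrix_apply, sumQuot_repr_inr,
        Matrix.fromBlocks_apply₂₂, b, D]
      rw [← sumQuot_inr bW bQ l, W.mapQ_apply]
      simp

lemma charpoly_exact {K A P Q : Type} [Field K] [AddCommGroup A] [Module K A]
    [FiniteDimensional K A] [AddCommGroup P] [Module K P] [FiniteDimensional K P]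
    [AddCommGroup Q] [Module K Q] [FiniteDimensional K Q] (i : P →ₗ[K] A) (q : A →ₗ[K] Q)
    (hi : Function.Injective i) (hq : Function.Surjective q)
    (hex : LinearMap.range i = LinearMap.ker q) (f : A →ₗ[K] A) (fP : P →ₗ[K] P)
    (fQ : Q →ₗ[K] Q) (h1 : ∀ x, f (i x) = i (fP x)) (h2 : ∀ x, q (f x) = fQ (q x)) :
    f.charpoly = fP.charpoly * fQ.charpoly := by
  have he : LinearMap.range i ≤ (LinearMap.range i).comap f := by
    rintro _ ⟨x, rfl⟩
    exact ⟨fP x, (h1 x).symm⟩
  rw [charpoly_sub (LinearMap.range i) f he]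
  have e1 : f.restrict he = (LinearEquiv.ofInjective i hi).conj fP := by
    ext x
    obtain ⟨y, rfl⟩ := (LinearEquiv.ofInjective i hi).surjective x
    rw [LinearEquiv.conj_apply_apply, LinearEquiv.symm_apply_apply]
    simp [h1]
  have e2 : (LinearMap.range i).mapQ (LinearMap.range i) f he =
      ((Submodule.quotEquivOfEq _ _ hex).trans (q.quotKerEquivOfSurjective hq)).symm.conj fQ := by
    apply LinearMap.ext
    intro x
    obtain ⟨y, rfl⟩ := Submodule.Quotient.mk_surjective _ x
    rw [LinearEquiv.conj_apply_apply, LinearEquiv.symm_symm, LinearEquiv.eq_symm_apply]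
    simp [h2]
  rw [e1, e2, LinearEquiv.charpoly_conj, LinearEquiv.charpoly_conj]

/-! ### Bundled simple modules -/

/-- finite dimensional simple modules -/
structure SM (K G : Type) [Field K] [Group G] : Type 1 where
  S : Type
  [i1 : AddCommGroup S]
  [i2 : Module K S]
  [i3 : Module (MonoidAlgebra K G) S]
  [i4 : IsScalarTower K (MonoidAlgebra K G) S]
  [i5 : FiniteDimensional K S]
  [i6 : IsSimpleModule (MonoidAlgebra K G) S]

attribute [instance] SM.i1 SM.i2 SM.i3 SM.i4 SM.i5 SM.i6

/-- isomorphic simple modules -/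
instance st (K G : Type) [Field K] [Group G] : Setoid (SM K G) where
  r X Y := Nonempty (X.S ≃ₗ[MonoidAlgebra K G] Y.S)
  iseqv := ⟨fun _ => ⟨LinearEquiv.refl _ _⟩, fun ⟨e⟩ => ⟨e.symm⟩, fun ⟨e⟩ ⟨e'⟩ => ⟨e.trans e'⟩⟩

lemma gch_iso {K G : Type} [Field K] [Group G] {A B : Type} [AddCommGroup A] [Module K A]
    [Module (MonoidAlgebra K G) A] [IsScalarTower K (MonoidAlgebra K G) A] [FiniteDimensional K A]
    [AddCommGroup B] [Module K B]
    [Module (MonoidAlgebra K G) B] [IsScalarTower K (MonoidAlgebra K G) B] [FiniteDimensional K B]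
    (e : A ≃ₗ[MonoidAlgebra K G] B) (g : G) : gch K A g = gch K B g := by
  unfold gch
  rw [← LinearEquiv.charpoly_conj (e.restrictScalars K)]
  congr 1
  apply LinearMap.ext
  intro x
  rw [LinearEquiv.conj_apply_apply]
  unfold ga
  simp

lemma gch_exact {K G : Type} [Field K] [Group G] {A : Type} [AddCommGroup A] [Module K A]
    [Module (MonoidAlgebra K G) A] [IsScalarTower K (MonoidAlgebra K G) A] [FiniteDimensional K A]
    (P : Submodule (MonoidAlgebra K G) A) [FiniteDimensional K P] [FiniteDimensional K (A ⧸ P)]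
    (g : G) : gch K A g = gch K P g * gch K (A ⧸ P) g := by
  unfold gch
  refine charpoly_exact (P.subtype.restrictScalars K) (P.mkQ.restrictScalars K)
    (Submodule.injective_subtype P) (Submodule.mkQ_surjective P) ?_ _ _ _ ?_ ?_
  · ext x
    constructor
    · rintro ⟨y, rfl⟩
      simp
    · intro hx
      have hx' : P.mkQ x = 0 := hx
      rw [Submodule.mkQ_apply, Submodule.Quotient.mk_eq_zero] at hx'
      exact ⟨⟨x, hx'⟩, rfl⟩
  · intro x
    simp [ga]
  · intro x
    simp [ga]

lemma exists_list (hM : StMul) {K G : Type} [Field K] [Group G]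
    [DecidableEq (Quotient (st K G))] (n : ℕ) :
    ∀ (A : Type) [AddCommGroup A] [Module K A] [Module (MonoidAlgebra K G) A]
      [IsScalarTower K (MonoidAlgebra K G) A] [FiniteDimensional K A],
      Module.finrank K A = n → ∃ l : List (SM K G),
        (∀ g : G, gch K A g = (l.map fun X => gch K X.S g).prod) ∧
        ∀ X : SM K G, mlt (MonoidAlgebra K G) A X.S =
          (l.map fun Y => (⟦Y⟧ : Quotient (st K G))).count ⟦X⟧ := by
  induction n using Nat.strong_induction_on with
  | _ n ih =>
    intro A _ _ _ _ _ hn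
    rcases subsingleton_or_nontrivial A with hA | hA
    · refine ⟨[], fun g => ?_, fun X => ?_⟩
      · have h0 : Module.finrank K A = 0 := Module.finrank_zero_of_subsingleton
        have h1 : (gch K A g).natDegree = 0 := by
          unfold gch
          rw [LinearMap.charpoly_natDegree, h0]
        have h2 : (gch K A g).Monic := LinearMap.charpoly_monic _
        simpa using h2.natDegree_eq_zero.1 h1
      · simpa using (hM (MonoidAlgebra K G) X.S).2.2.2.1 A
    · have hart : IsArtinian (MonoidAlgebra K G) A := isArtinian_of_tower K inferInstance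
      have hnoe : IsNoetherian (MonoidAlgebra K G) A := isNoetherian_of_tower K inferInstance
      obtain ⟨P, hP⟩ := IsAtomic.exists_atom (Submodule (MonoidAlgebra K G) A)
      have hs : IsSimpleModule (MonoidAlgebra K G) P := isSimpleModule_iff_isAtom.2 hP
      have f1 : FiniteDimensional K P :=
        Module.Finite.of_injective (P.subtype.restrictScalars K) (Submodule.injective_subtype P)
      have f2 : FiniteDimensional K (A ⧸ P) :=
        Module.Finite.of_surjective (P.mkQ.restrictScalars K) (Submodule.mkQ_surjective P)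
      have hlt : Module.finrank K (A ⧸ P) < n := by
        have h1 : Module.finrank K (A ⧸ P) + Module.finrank K P = Module.finrank K A := by
          have := Submodule.finrank_quotient_add_finrank (P.restrictScalars K)
          exact this
        have : Nontrivial P := IsSimpleModule.nontrivial (MonoidAlgebra K G) P
        have h2 : 0 < Module.finrank K P := Module.finrank_pos
        omega
      obtain ⟨l, l1, l2⟩ := ih _ hlt (A ⧸ P) rfl
      let X0 : SM K G := ⟨P⟩
      refine ⟨X0 :: l, fun g => ?_, fun X => ?_⟩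
      · rw [gch_exact P g, l1 g]
        simp [X0]
      · have hfl : IsFiniteLength (MonoidAlgebra K G) A :=
          isFiniteLength_iff_isNoetherian_isArtinian.2 ⟨hnoe, hart⟩
        obtain ⟨m1, -, m3, -, -⟩ := hM (MonoidAlgebra K G) X.S
        rw [m1 A hfl P, l2 X, List.map_cons, List.count_cons, add_comm]
        congr 1
        by_cases h : Nonempty (P ≃ₗ[MonoidAlgebra K G] X.S)
        · rw [(m3 P).1 h]
          have : (⟦X0⟧ : Quotient (st K G)) = ⟦X⟧ := Quotient.sound h
          simp [this]
        · rw [(m3 P).2 h]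
          have : (⟦X0⟧ : Quotient (st K G)) ≠ ⟦X⟧ := fun h' => h (Quotient.exact h')
          simp [this]

end VBNT

/-- Module BNT: **the theorem of Brauer and Nesbitt.** -/
theorem stBnt (h1 : StBnb) (h2 : StMul) : StBnt := by
  classical
  intro p _ K _ _ _ G _ A A' _ _ _ _ _ _ _ _ _ _ hch S _ _ _ _ _ _
  obtain ⟨l, l1, l2⟩ := VBNT.exists_list h2 (K := K) (G := G) _ A rfl
  obtain ⟨l', l1', l2'⟩ := VBNT.exists_list h2 (K := K) (G := G) _ A' rfl
  let X0 : VBNT.SM K G := ⟨S⟩
  let T : Finset (Quotient (VBNT.st K G)) :=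
    ((l.map fun Y => ⟦Y⟧) ++ (l'.map fun Y => ⟦Y⟧) ++ [⟦X0⟧]).toFinset
  let e := T.equivFin
  let Fm : Fin T.card → VBNT.SM K G := fun i => (e.symm i).1.out
  have hmk : ∀ i, (⟦Fm i⟧ : Quotient (VBNT.st K G)) = (e.symm i).1 := fun i => Quotient.out_eq _
  have key : ∀ (L : List (VBNT.SM K G)) (_ : ∀ Y ∈ L, (⟦Y⟧ : Quotient (VBNT.st K G)) ∈ T) (g : G),
      (L.map fun X => gch K X.S g).prod =
        ∏ i, gch K (Fm i).S g ^ (L.map fun Y => (⟦Y⟧ : Quotient (VBNT.st K G))).count (e.symm i).1 := by
    intro L hL g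
    have h3 : (L.map fun X => gch K X.S g) =
        (L.map fun Y => (⟦Y⟧ : Quotient (VBNT.st K G))).map fun q => gch K q.out.S g := by
      rw [List.map_map]
      refine List.map_congr_left fun Y _ => ?_
      obtain ⟨e'⟩ : Nonempty (Y.S ≃ₗ[MonoidAlgebra K G] (Quotient.out (⟦Y⟧ : Quotient (VBNT.st K G))).S) :=
        Quotient.exact (Quotient.out_eq (⟦Y⟧ : Quotient (VBNT.st K G))).symm
      exact VBNT.gch_iso e' g
    rw [h3, Finset.prod_list_map_count]
    have h4 : ∏ i, gch K (Fm i).S g ^
        (L.map fun Y => (⟦Y⟧ : Quotient (VBNT.st K G))).count (e.symm i).1 =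
        ∏ q ∈ T, gch K q.out.S g ^ (L.map fun Y => (⟦Y⟧ : Quotient (VBNT.st K G))).count q := by
      rw [← Finset.prod_coe_sort T]
      exact Fintype.prod_equiv e.symm _ _ fun i => rfl
    rw [h4]
    refine Finset.prod_subset ?_ ?_
    · intro q hq
      rw [List.mem_toFinset, List.mem_map] at hq
      obtain ⟨Y, hY, rfl⟩ := hq
      exact hL Y hY
    · intro q _ hq
      rw [List.mem_toFinset] at hq
      rw [List.count_eq_zero_of_not_mem hq, pow_zero]
  have hm := h1 p K G T.card (fun i => (Fm i).S) (by
    intro i j hij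
    refine ⟨fun e' => hij ?_⟩
    have : (⟦Fm i⟧ : Quotient (VBNT.st K G)) = ⟦Fm j⟧ := Quotient.sound ⟨e'⟩
    rw [hmk, hmk] at this
    exact e.symm.injective (Subtype.ext this))
    (fun i => (l.map fun Y => (⟦Y⟧ : Quotient (VBNT.st K G))).count (e.symm i).1)
    (fun i => (l'.map fun Y => (⟦Y⟧ : Quotient (VBNT.st K G))).count (e.symm i).1) (by
      intro g
      have k1 := key l (fun Y hY => by
        simp only [T, List.mem_toFinset, List.mem_append, List.mem_map]
        exact Or.inl (Or.inl ⟨Y, hY, rfl⟩)) g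
      have k2 := key l' (fun Y hY => by
        simp only [T, List.mem_toFinset, List.mem_append, List.mem_map]
        exact Or.inl (Or.inr ⟨Y, hY, rfl⟩)) g
      rw [← k1, ← k2, ← l1 g, ← l1' g, hch g])
  have hT : (⟦X0⟧ : Quotient (VBNT.st K G)) ∈ T := by
    simp [T]
  have h5 := congrFun hm (e ⟨_, hT⟩)
  simp only [Equiv.symm_apply_apply] at h5
  have h6 := l2 X0
  have h7 := l2' X0
  exact h6.trans (h5.trans h7.symm)

end BKT
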