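import Pool.Agent.Lib.MP_7c08ba_nt.T1.StV
import Pool.Agent.Lib.MP_7c08ba_nt.Met.LLV

set_option autoImplicit false

/-!
Parity for congruent representations, module CNG: the lattices for congruent representations.
-/

noncomputable section

namespace BKT

open NumberField BKGen BKMet
open Matrix

namespace VCNG

variable {p : ℕ} [Fact p.Prime] {L : Type} [NormedField L] [NormedAlgebra ℚ_[p] L]

theorem norm_chL {G : Type} [Group G] (χ : G →* ℤ_[p]ˣ) (g : G) : ‖BKOdd.chL χ L g‖ = 1 := by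
  have h1 : BKOdd.chL χ L g * BKOdd.chL χ L g⁻¹ = 1 := by
    rw [← map_mul, mul_inv_cancel, map_one]
  have h2 : ‖BKOdd.chL χ L g‖ * ‖BKOdd.chL χ L g⁻¹‖ = 1 := by
    rw [← norm_mul, h1, norm_one]
  have h3 := LLV.norm_chL_le (L := L) χ g
  have h4 := LLV.norm_chL_le (L := L) χ g⁻¹
  refine le_antisymm h3 ?_
  rw [← h2]
  calc ‖BKOdd.chL χ L g‖ * ‖BKOdd.chL χ L g⁻¹‖ ≤ ‖BKOdd.chL χ L g‖ * 1 :=
        mul_le_mul_of_nonneg_left h4 (norm_nonneg _)
    _ = _ := mul_one _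

theorem res_ne {K : Type} [Field K] {r : OO p L →+* K} (hr : IsRes r) (x : OO p L)
    (hx : ‖(x : L)‖ = 1) : r x ≠ 0 := by
  intro h
  rw [hr x] at h
  exact absurd h (by rw [hx]; exact lt_irrefl _)

theorem res_unit {K : Type} [Field K] (r : OO p L →+* K) (e : (OO p L)ˣ) :
    r (e : OO p L) ≠ 0 :=
  (e.isUnit.map r).ne_zero

theorem charpoly_eq {G : Type} [Group G] {n : ℕ} {V : G →* GL (Fin n) L} {S : GL (Fin n) L}
    {ρ : G →* GL (Fin n) (OO p L)} (h : ∀ g, toL p L n (ρ g) = S * V g * S⁻¹) (g : G) :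
    ((ρ g : Matrix (Fin n) (Fin n) (OO p L)).charpoly).map (OO p L).subtype =
      (V g : Matrix (Fin n) (Fin n) L).charpoly := by
  rw [← Matrix.charpoly_map]
  have h1 : (ρ g : Matrix (Fin n) (Fin n) (OO p L)).map (OO p L).subtype =
      (S : Matrix (Fin n) (Fin n) L) * (V g : Matrix (Fin n) (Fin n) L) *
        ((S⁻¹ : GL (Fin n) L) : Matrix (Fin n) (Fin n) L) := by
    have := congrArg Units.val (h g)
    rw [Units.val_mul, Units.val_mul] at this
    exact this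
  rw [h1, Matrix.coe_units_inv]
  have h2 := Matrix.charpoly_units_conj (S : (Matrix (Fin n) (Fin n) L)ˣ)
    (V g : Matrix (Fin n) (Fin n) L)
  exact h2

theorem coeff_eq {G : Type} [Group G] {n : ℕ} {V : G →* GL (Fin n) L} {S : GL (Fin n) L}
    {ρ : G →* GL (Fin n) (OO p L)} (h : ∀ g, toL p L n (ρ g) = S * V g * S⁻¹) (g : G) (i : ℕ) :
    (((ρ g : Matrix (Fin n) (Fin n) (OO p L)).charpoly.coeff i : OO p L) : L) =
      (V g : Matrix (Fin n) (Fin n) L).charpoly.coeff i := by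
  rw [← charpoly_eq h g, Polynomial.coeff_map]
  rfl

end VCNG

open VCNG in
/-- Module CNG. -/
theorem stCng (h1 : StRes) (h2 : StNrm) (h3 : StTau) (h4 : StWit) (h5 : StXlt) : StCng := by
  intro p _ hp F _ L _ _ _ n n' V V' B A B' A' ρ₀ ρ₀' hρ₀ hρ₀' c hc χ hB hB' hD hD' hcon
  obtain ⟨S, ρ, e, a, hN⟩ := h2 p hp L (GF F) n V A ρ₀ hρ₀ c hc χ B hB hD
  obtain ⟨S', ρ', e', a', hN'⟩ := h2 p hp L (GF F) n' V' A' ρ₀' hρ₀' c hc χ B' hB' hD'
  obtain ⟨K, _, _, _, r, hr, hE⟩ := h1 p L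
  obtain ⟨hz, τ, hτ, hτd, hτc⟩ := h3 p L K r hr (GF F) n V B S ρ e a hN c χ hD
  obtain ⟨hz', τ', hτ', hτd', hτc'⟩ := h3 p L K r hr (GF F) n' V' B' S' ρ' e' a' hN' c χ hD'
  have hunit : ∀ (m : ℕ) (f : Fin m → (OO p L)ˣ),
      IsUnit (Matrix.diagonal (fun i => r ((f i : (OO p L)ˣ) : OO p L))).det := by
    intro m f
    rw [Matrix.det_diagonal]
    exact (Finset.prod_ne_zero_iff.2 fun i _ => res_unit r (f i)).isUnit
  have hcp : ∀ g, (τ g : Matrix (Fin n) (Fin n) K).charpoly =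
      (τ' g : Matrix (Fin n') (Fin n') K).charpoly := by
    intro g
    rw [hτc, hτc']
    ext i
    rw [Polynomial.coeff_map, Polynomial.coeff_map, ← sub_eq_zero, ← map_sub, hr]
    have e1 := coeff_eq hN.int g i
    have e2 := coeff_eq hN'.int g i
    have e3 : (((ρ g : Matrix (Fin n) (Fin n) (OO p L)).charpoly.coeff i -
        (ρ' g : Matrix (Fin n') (Fin n') (OO p L)).charpoly.coeff i : OO p L) : L) =
        (V g : Matrix (Fin n) (Fin n) L).charpoly.coeff i -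
        (V' g : Matrix (Fin n') (Fin n') L).charpoly.coeff i := by
      rw [← e1, ← e2]
      rfl
    rw [e3]
    exact hcon g i
  obtain ⟨P, hP1, hP2⟩ := h4 p hp K (GF F) c hc
    (fun g => r ⟨BKOdd.chL χ L g, LLV.norm_chL_le χ g⟩)
    (fun g => res_ne hr _ (norm_chL χ g)) n n' τ τ'
    (Matrix.diagonal fun i => r ((e i : (OO p L)ˣ) : OO p L))
    (Matrix.diagonal fun i => r ((e' i : (OO p L)ˣ) : OO p L))
    (Matrix.diagonal_transpose _) (Matrix.diagonal_transpose _) (hunit n e) (hunit n' e')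
    (fun g => hτd g ⟨BKOdd.chL χ L g, LLV.norm_chL_le χ g⟩ rfl)
    (fun g => hτd' g ⟨BKOdd.chL χ L g, LLV.norm_chL_le χ g⟩ rfl) hcp
  -- a finite spanning set
  obtain ⟨E₀, hE₀⟩ : ∃ E₀ : Finset ((Fin n → K) × (Fin n' → K)),
      Submodule.span K (E₀ : Set ((Fin n → K) × (Fin n' → K))) = P :=
    (Submodule.fg_def.1 (IsNoetherian.noetherian P)).elim fun s hs =>
      ⟨hs.1.toFinset, by rw [Set.Finite.coe_toFinset]; exact hs.2⟩
  obtain ⟨L₂, _, _, _, φ, ϖ, θ, hϖ, hθ, hθr, hθE⟩ := hE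
    ((⋃ z ∈ E₀, Set.range z.1) ∪ ⋃ z ∈ E₀, Set.range z.2) (by
      apply Set.Finite.union
      · exact Set.Finite.biUnion E₀.finite_toSet fun z _ => Set.finite_range _
      · exact Set.Finite.biUnion E₀.finite_toSet fun z _ => Set.finite_range _)
  obtain ⟨T, N, hTN⟩ := h5 p F L L₂ K r φ ϖ θ hr hϖ hθ hθr n n' V V' B S B' S' ρ ρ' e e' a a'
    hN hN' hz hz' P (by
      intro g y hy
      rw [← hτ, ← hτ']
      exact hP1 g y hy) hP2
    ⟨(E₀ : Set ((Fin n → K) × (Fin n' → K))), hE₀, fun z hz => ⟨fun i => hθE _ (Or.inl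
      (Set.mem_biUnion hz ⟨i, rfl⟩)), fun i => hθE _ (Or.inr (Set.mem_biUnion hz ⟨i, rfl⟩))⟩⟩
  exact ⟨L₂, _, _, ‹_›, φ, T, N, hTN⟩

end BKT
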