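import Pool.Agent.Lib.MP_7c08ba_nt.T1.StV

set_option autoImplicit false

/-!
Module DIA: symmetric matrices over the ring of integers are diagonalizable.
-/

noncomputable section

namespace BKT

open NumberField BKGen BKMet
open Matrix

namespace VDIA

variable {R : Type} [CommRing R]

/-- `B` is congruent to a diagonal matrix -/
def Dg {ι : Type} [Fintype ι] [DecidableEq ι] (B : Matrix ι ι R) : Prop :=
  ∃ P : Matrix ι ι R, IsUnit P ∧ ∃ d : ι → R, Pᵀ * B * P = Matrix.diagonal d

section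

variable {ι κ : Type} [Fintype ι] [DecidableEq ι] [Fintype κ] [DecidableEq κ]

theorem Dg.of_congr {B Q : Matrix ι ι R} (hQ : IsUnit Q) (h : Dg (Qᵀ * B * Q)) : Dg B := by
  obtain ⟨P, hP, d, hd⟩ := h
  refine ⟨Q * P, hQ.mul hP, d, ?_⟩
  rw [← hd, Matrix.transpose_mul]
  simp only [Matrix.mul_assoc]

theorem Dg.of_submatrix {B : Matrix ι ι R} (e : κ ≃ ι) (h : Dg (B.submatrix e e)) : Dg B := by
  obtain ⟨P, hP, d, hd⟩ := h
  refine ⟨P.submatrix e.symm e.symm, ?_, d ∘ e.symm, ?_⟩
  · rw [Matrix.isUnit_iff_isUnit_det] at hP ⊢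
    rwa [Matrix.det_submatrix_equiv_self]
  · have h1 : B = (B.submatrix e e).submatrix e.symm e.symm := by
      rw [Matrix.submatrix_submatrix]
      simp
    rw [Matrix.transpose_submatrix, h1, Matrix.submatrix_mul_equiv, Matrix.submatrix_mul_equiv, hd]
    ext i j
    simp only [Matrix.submatrix_apply, Matrix.diagonal_apply, Function.comp_apply,
      EmbeddingLike.apply_eq_iff_eq]

/-- elimination -/
theorem Dg.elim {B : Matrix (Unit ⊕ κ) (Unit ⊕ κ) R} (hs : Bᵀ = B)
    (hd : ∀ j, B (Sum.inl ()) (Sum.inl ()) ∣ B (Sum.inl ()) (Sum.inr j))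
    (IH : ∀ C : Matrix κ κ R, Cᵀ = C → Dg C) : Dg B := by
  choose w hw using hd
  set a : R := B (Sum.inl ()) (Sum.inl ()) with ha
  have hsij : ∀ i j, B i j = B j i := fun i j => by
    conv_lhs => rw [← hs]
    rfl
  set Q : Matrix (Unit ⊕ κ) (Unit ⊕ κ) R :=
    Matrix.fromBlocks 1 (Matrix.of fun _ j => - w j) 0 1 with hQ
  have hQu : IsUnit Q := by
    rw [Matrix.isUnit_iff_isUnit_det, hQ, Matrix.det_fromBlocks_zero₂₁]
    simp
  set C : Matrix κ κ R := Matrix.of fun i j => B (Sum.inr i) (Sum.inr j) - a * w i * w j with hC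
  have hB : B = Matrix.fromBlocks (Matrix.of fun _ _ => a) (Matrix.of fun _ j => a * w j)
      (Matrix.of fun i _ => a * w i) (Matrix.of fun i j => B (Sum.inr i) (Sum.inr j)) := by
    ext i j
    rcases i with i | i <;> rcases j with j | j
    · rfl
    · simp only [Matrix.fromBlocks_apply₁₂, Matrix.of_apply]
      exact hw j
    · simp only [Matrix.fromBlocks_apply₂₁, Matrix.of_apply]
      rw [hsij]
      exact hw i
    · rfl
  have hCs : Cᵀ = C := by
    ext i j
    simp only [hC, Matrix.transpose_apply, Matrix.of_apply]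
    rw [hsij (Sum.inr j) (Sum.inr i)]
    ring
  have hcong : Qᵀ * B * Q = Matrix.fromBlocks (Matrix.of fun _ _ => a) 0 0 C := by
    rw [hQ, hB, Matrix.fromBlocks_transpose, Matrix.fromBlocks_multiply,
      Matrix.fromBlocks_multiply]
    ext i j
    rcases i with i | i <;> rcases j with j | j
    · simp [Matrix.mul_apply]
    · simp [Matrix.mul_apply]
    · simp [Matrix.mul_apply]
      ring
    · simp [Matrix.mul_apply, hC]
      ring
  obtain ⟨P, hP, d, hd'⟩ := IH C hCs
  refine Dg.of_congr hQu ?_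
  rw [hcong]
  refine ⟨Matrix.fromBlocks 1 0 0 P, ?_, Sum.elim (fun _ => a) d, ?_⟩
  · rw [Matrix.isUnit_iff_isUnit_det] at hP ⊢
    rw [Matrix.det_fromBlocks_zero₂₁, Matrix.det_one, one_mul]
    exact hP
  · rw [Matrix.fromBlocks_transpose, Matrix.fromBlocks_multiply, Matrix.fromBlocks_multiply]
    ext i j
    rcases i with i | i <;> rcases j with j | j
    · simp
    · simp [Matrix.diagonal_apply]
    · simp [Matrix.diagonal_apply]
    · have h3 := congrFun (congrFun hd' i) j
      simp only [Matrix.fromBlocks_apply₂₂, Matrix.transpose_zero, Matrix.zero_mul,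
        Matrix.mul_zero, zero_add, add_zero]
      rw [h3, Matrix.diagonal_apply, Matrix.diagonal_apply]
      simp [Sum.inr.injEq]

end

/-- the pivot -/
theorem pivot [IsLocalRing R] (h2 : IsUnit (2 : R)) (hdv : ∀ a b : R, a ∣ b ∨ b ∣ a) {n : ℕ}
    (B : Matrix (Fin (n + 1)) (Fin (n + 1)) R) (hs : Bᵀ = B) :
    ∃ Q : Matrix (Fin (n + 1)) (Fin (n + 1)) R, IsUnit Q ∧ ∃ i, ∀ k l,
      (Qᵀ * B * Q) i i ∣ (Qᵀ * B * Q) k l := by
  have hsij : ∀ i j, B i j = B j i := fun i j => by
    conv_lhs => rw [← hs]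
    rfl
  -- an entry dividing all the others
  have hmin : ∀ s : Finset (Fin (n + 1) × Fin (n + 1)), s.Nonempty →
      ∃ x ∈ s, ∀ y ∈ s, B x.1 x.2 ∣ B y.1 y.2 := by
    intro s hs'
    induction hs' using Finset.Nonempty.cons_induction with
    | singleton x => exact ⟨x, by simp, by simp⟩
    | cons x s hx hs' ih =>
      obtain ⟨y, hy, hy2⟩ := ih
      rcases hdv (B x.1 x.2) (B y.1 y.2) with h | h
      · refine ⟨x, by simp, ?_⟩
        intro z hz
        rw [Finset.mem_cons] at hz
        rcases hz with rfl | hz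
        · exact dvd_rfl
        · exact h.trans (hy2 z hz)
      · refine ⟨y, by simp [hy], ?_⟩
        intro z hz
        rw [Finset.mem_cons] at hz
        rcases hz with rfl | hz
        · exact h
        · exact hy2 z hz
  obtain ⟨⟨i, j⟩, -, hij⟩ := hmin Finset.univ ⟨(0, 0), Finset.mem_univ _⟩
  have hij' : ∀ k l, B i j ∣ B k l := fun k l => hij (k, l) (Finset.mem_univ _)
  have hgen : ∀ Q : Matrix (Fin (n + 1)) (Fin (n + 1)) R, ∀ k l,
      B i j ∣ (Qᵀ * B * Q) k l := by
    intro Q k l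
    rw [Matrix.mul_apply]
    refine Finset.dvd_sum fun x _ => Dvd.dvd.mul_right ?_ _
    rw [Matrix.mul_apply]
    exact Finset.dvd_sum fun y _ => Dvd.dvd.mul_left (hij' y x) _
  have hfin : ∀ Q : Matrix (Fin (n + 1)) (Fin (n + 1)) R, IsUnit Q → ∀ k,
      (Qᵀ * B * Q) k k ∣ B i j → ∃ Q : Matrix (Fin (n + 1)) (Fin (n + 1)) R, IsUnit Q ∧ ∃ i,
        ∀ k l, (Qᵀ * B * Q) i i ∣ (Qᵀ * B * Q) k l := by
    intro Q hQ k hk
    exact ⟨Q, hQ, k, fun k' l' => hk.trans (hgen Q k' l')⟩
  by_cases hi : B i i ∣ B i j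
  · refine hfin 1 isUnit_one i ?_
    simpa using hi
  by_cases hj : B j j ∣ B i j
  · refine hfin 1 isUnit_one j ?_
    simpa using hj
  have hne : i ≠ j := by
    rintro rfl
    exact hi dvd_rfl
  obtain ⟨a, ha⟩ := hij' i i
  obtain ⟨b, hb⟩ := hij' j j
  have ha' : ¬ IsUnit a := by
    intro h
    apply hi
    obtain ⟨u, rfl⟩ := h
    rw [ha]
    exact ⟨((u⁻¹ : Rˣ) : R), by rw [mul_assoc, Units.mul_inv, mul_one]⟩
  have hb' : ¬ IsUnit b := by
    intro h
    apply hj
    obtain ⟨u, rfl⟩ := h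
    rw [hb]
    exact ⟨((u⁻¹ : Rˣ) : R), by rw [mul_assoc, Units.mul_inv, mul_one]⟩
  have hab : IsUnit (a + b + 2) := by
    by_contra hcon
    have h3 : a + b + 2 ∈ nonunits R := hcon
    have h4 : a + b ∈ nonunits R := IsLocalRing.nonunits_add ha' hb'
    have h5 : -(a + b) ∈ nonunits R := by
      rw [mem_nonunits_iff, IsUnit.neg_iff]
      exact h4
    have h6 := IsLocalRing.nonunits_add h3 h5
    have h7 : a + b + 2 + -(a + b) = (2 : R) := by ring
    rw [h7] at h6
    exact h6 h2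
  refine hfin (Matrix.transvection j i 1) ?_ i ?_
  · rw [Matrix.isUnit_iff_isUnit_det, Matrix.det_transvection_of_ne j i hne.symm]
    exact isUnit_one
  · have h8 : ((Matrix.transvection j i (1 : R))ᵀ * B * Matrix.transvection j i (1 : R)) i i =
        B i j * (a + b + 2) := by
      have h9 : ((Matrix.transvection j i (1 : R))ᵀ * B * Matrix.transvection j i (1 : R)) i i =
          B i i + B j j + B i j + B j i := by
        unfold Matrix.transvection
        rw [Matrix.transpose_add, Matrix.transpose_one, Matrix.transpose_single]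
        rw [Matrix.add_mul, Matrix.one_mul, Matrix.mul_add, Matrix.mul_one, Matrix.add_mul]
        simp only [Matrix.add_apply, Matrix.mul_single_apply_same, Matrix.single_mul_apply_same,
          one_mul, mul_one]
        ring
      rw [h9, hsij j i, ha, hb]
      ring
    rw [h8]
    obtain ⟨u, hu⟩ := hab
    rw [← hu]
    exact ⟨((u⁻¹ : Rˣ) : R), by rw [mul_assoc, Units.mul_inv, mul_one]⟩

theorem all [IsLocalRing R] (h2 : IsUnit (2 : R)) (hdv : ∀ a b : R, a ∣ b ∨ b ∣ a) :
    ∀ (n : ℕ) (B : Matrix (Fin n) (Fin n) R), Bᵀ = B → Dg B := by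
  intro n
  induction n with
  | zero =>
    intro B _
    exact ⟨1, isUnit_one, fun i => i.elim0, by ext i; exact i.elim0⟩
  | succ n ih =>
    intro B hs
    obtain ⟨Q, hQ, i, hi⟩ := pivot h2 hdv B hs
    refine Dg.of_congr hQ ?_
    have hs' : (Qᵀ * B * Q)ᵀ = Qᵀ * B * Q := by
      rw [Matrix.transpose_mul, Matrix.transpose_mul, Matrix.transpose_transpose, hs,
        Matrix.mul_assoc]
    set B1 := Qᵀ * B * Q with hB1
    -- an equivalence sending the point of `Unit` to `i`
    obtain ⟨e, he⟩ : ∃ e : Unit ⊕ Fin n ≃ Fin (n + 1), e (Sum.inl ()) = i := by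
      have e0 : Unit ⊕ Fin n ≃ Fin (n + 1) := Fintype.equivOfCardEq (by simp [add_comm])
      exact ⟨e0.trans (Equiv.swap (e0 (Sum.inl ())) i), by simp⟩
    refine Dg.of_submatrix e ?_
    refine Dg.elim ?_ ?_ ih
    · rw [Matrix.transpose_submatrix, hs']
    · intro j
      simp only [Matrix.submatrix_apply, he]
      exact hi _ _

end VDIA

open VDIA in
/-- Module DIA. -/
theorem stDia : StDia := by
  intro p _ hp L _ _ _ n B hB
  have h2 : IsUnit (2 : OO p L) := by
    by_contra hcon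
    have h3 : (2 : OO p L) ∈ IsLocalRing.maximalIdeal (OO p L) :=
      (IsLocalRing.mem_maximalIdeal _).2 hcon
    have h4 : ((2 : ℕ) : IsLocalRing.ResidueField (OO p L)) = 0 := by
      rw [← IsLocalRing.residue_eq_zero_iff] at h3
      rw [← map_natCast (IsLocalRing.residue (OO p L))]
      exact h3
    have h5 : p ∣ 2 := (CharP.cast_eq_zero_iff (IsLocalRing.ResidueField (OO p L)) p 2).1 h4
    exact hp ((Nat.prime_dvd_prime_iff_eq Fact.out Nat.prime_two).1 h5)
  obtain ⟨P, hP, d, hd⟩ := all h2 (fun a b => ValuationRing.dvd_total a b) n B hB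
  exact ⟨hP.unit, d, hd⟩

end BKT
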