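import Pool.Agent.Lib.MP_7c08ba_nt.T1.VRES

set_option autoImplicit false

/-!
Module ISM: homomorphisms of finite extensions of `ℚ_p` preserve the norm.
-/

noncomputable section

namespace BKT

/-- Module ISM. -/
theorem stIsm : StIsm := fun p _ _ _ _ _ _ _ _ _ φ x => VRES.iso p φ x

end BKT
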