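import Pool.Agent.Lib.MP_7c08ba_nt.T1.StV

set_option autoImplicit false

/-!
Parity for congruent representations, module LTX: continuous representations of compact groups have
stable lattices.
-/

noncomputable section

namespace BKT

open NumberField BKGen BKMet
open Matrix

namespace VLTX

section

variable {L : Type} [NormedField L] {G : Type} [Group G] [TopologicalSpace G] [CompactSpace G]
  {n : ℕ} (V : G →* GL (Fin n) L)

/-- the entries of a continuous representation of a compact group are bounded -/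
theorem exists_bound (hV : Continuous V) :
    ∃ C : ℝ, 0 ≤ C ∧ ∀ g i j, ‖(V g : Matrix (Fin n) (Fin n) L) i j‖ ≤ C := by
  have h1 : ∀ i j, ∃ c : ℝ, ∀ g, ‖(V g : Matrix (Fin n) (Fin n) L) i j‖ ≤ c := by
    intro i j
    have hc : Continuous fun g => (V g : Matrix (Fin n) (Fin n) L) i j :=
      (Units.continuous_val.comp hV).matrix_elem i j
    obtain ⟨c, hc'⟩ := isCompact_univ.exists_bound_of_continuousOn hc.continuousOn
    exact ⟨c, fun g => hc' g (Set.mem_univ g)⟩
  choose c hc using h1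
  refine ⟨∑ i, ∑ j, |c i j|, Finset.sum_nonneg fun i _ => Finset.sum_nonneg fun j _ =>
    abs_nonneg _, fun g i j => ?_⟩
  calc ‖(V g : Matrix (Fin n) (Fin n) L) i j‖ ≤ |c i j| := (hc i j g).trans (le_abs_self _)
    _ ≤ ∑ j, |c i j| := Finset.single_le_sum (f := fun j => |c i j|) (fun j _ => abs_nonneg _)
        (Finset.mem_univ j)
    _ ≤ ∑ i, ∑ j, |c i j| := Finset.single_le_sum (f := fun i => ∑ j, |c i j|)
        (fun i _ => Finset.sum_nonneg fun j _ => abs_nonneg _) (Finset.mem_univ i)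

omit [TopologicalSpace G] [CompactSpace G] in
theorem norm_mulVec_le {C : ℝ} (h0 : 0 ≤ C)
    (hC : ∀ g i j, ‖(V g : Matrix (Fin n) (Fin n) L) i j‖ ≤ C) (g : G) (x : Fin n → L) :
    ‖(V g : Matrix (Fin n) (Fin n) L) *ᵥ x‖ ≤ n * C * ‖x‖ := by
  rw [pi_norm_le_iff_of_nonneg (by positivity)]
  intro i
  calc ‖((V g : Matrix (Fin n) (Fin n) L) *ᵥ x) i‖
      = ‖∑ j, (V g : Matrix (Fin n) (Fin n) L) i j * x j‖ := rfl
    _ ≤ ∑ j, ‖(V g : Matrix (Fin n) (Fin n) L) i j * x j‖ := norm_sum_le _ _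
    _ ≤ ∑ _j : Fin n, C * ‖x‖ := by
        refine Finset.sum_le_sum fun j _ => ?_
        rw [norm_mul]
        exact mul_le_mul (hC g i j) (norm_le_pi_norm x j) (norm_nonneg _) h0
    _ = n * C * ‖x‖ := by
        rw [Finset.sum_const, Finset.card_univ, Fintype.card_fin, nsmul_eq_mul, mul_assoc]

end

end VLTX

open VLTX in
/-- Module LTX. -/
theorem stLtx (h : StLatM) : StLtx := by
  intro p _ L _ _ _ G _ _ _ n V hV
  have : IsUltrametricDist L := IsUltrametricDist.of_normedAlgebra ℚ_[p]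
  obtain ⟨C, h0, hC⟩ := exists_bound V hV
  have hle := norm_mulVec_le V h0 hC
  have hC1 : 0 < n * C + 1 := by positivity
  obtain ⟨A, -, hA⟩ := h p L n {x | ∀ g, ‖(V g : Matrix (Fin n) (Fin n) L) *ᵥ x‖ ≤ 1}
    (fun g => by rw [mulVec_zero, norm_zero]; exact zero_le_one)
    (fun x hx y hy g => by
      rw [mulVec_add, pi_norm_le_iff_of_nonneg zero_le_one]
      intro i
      rw [Pi.add_apply]
      exact (IsUltrametricDist.norm_add_le_max _ _).trans
        (max_le ((norm_le_pi_norm _ i).trans (hx g)) ((norm_le_pi_norm _ i).trans (hy g))))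
    (fun a ha x hx g => by
      rw [mulVec_smul, norm_smul]
      exact mul_le_one₀ ha (norm_nonneg _) (hx g))
    ⟨1, fun x hx => by
      have h1 := hx 1
      rwa [map_one, Units.val_one, one_mulVec] at h1⟩
    ⟨(n * C + 1)⁻¹, inv_pos.mpr hC1, fun x hx g => by
      refine (hle g x).trans ?_
      calc n * C * ‖x‖ ≤ (n * C + 1) * ‖x‖ :=
            mul_le_mul_of_nonneg_right (by linarith) (norm_nonneg _)
        _ ≤ (n * C + 1) * (n * C + 1)⁻¹ := mul_le_mul_of_nonneg_left hx hC1.le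
        _ = 1 := mul_inv_cancel₀ hC1.ne'⟩
  obtain ⟨ρ, hρ⟩ := hA G V (fun g x hx k => by
    have h1 := hx (k * g)
    rwa [map_mul, Units.val_mul, ← mulVec_mulVec] at h1)
  exact ⟨A, ρ, hρ⟩

end BKT
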