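import Pool.Agent.Lib.MP_7c08ba_nt.T1.StV

set_option autoImplicit false

/-!
Module MUL: the multiplicities of the simple modules (the theorem of Jordan and Hölder).
-/

noncomputable section

namespace BKT

namespace VMUL

section Basic

variable {R : Type} [Ring R] {M : Type} [AddCommGroup M] [Module R M]
  {N : Type} [AddCommGroup N] [Module R N]

/-- the factor of a pair of submodules -/
abbrev Qt (A B : Submodule R M) : Type := B ⧸ A.comap B.subtype

lemma qt_iso {x y : Submodule R M × Submodule R M} (h : JordanHolderLattice.Iso x y) :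
    Nonempty (Qt x.1 x.2 ≃ₗ[R] Qt y.1 y.2) := by
  refine JordanHolderLattice.Iso.rel
    (fun x y : Submodule R M × Submodule R M => Nonempty (Qt x.1 x.2 ≃ₗ[R] Qt y.1 y.2))
    ?_ ?_ ?_ ?_ h
  · intro x
    exact ⟨LinearEquiv.refl _ _⟩
  · rintro x y ⟨e⟩
    exact ⟨e.symm⟩
  · rintro x y z ⟨e⟩ ⟨f⟩
    exact ⟨e.trans f⟩
  · intro x y _
    have e := LinearMap.quotientInfEquivSupQuotient y x
    have h1 : Submodule.comap y.subtype y ⊓ Submodule.comap y.subtype x =
        (x ⊓ y).comap y.subtype := by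
      rw [← Submodule.comap_inf, inf_comm]
    rw [sup_comm y x] at e
    exact ⟨e.symm.trans (Submodule.quotEquivOfEq _ _ h1)⟩

lemma qt_congr {A B A' B' : Submodule R M} (hA : A = A') (hB : B = B') (S : Type)
    [AddCommGroup S] [Module R S] :
    Nonempty (Qt A B ≃ₗ[R] S) ↔ Nonempty (Qt A' B' ≃ₗ[R] S) := by
  subst hA
  subst hB
  exact Iff.rfl

lemma cntS_congr {s : CompositionSeries (Submodule R M)} {t : CompositionSeries (Submodule R N)}
    (f : Fin s.length ≃ Fin t.length)
    (h : ∀ i : Fin s.length, Nonempty (Qt (s (Fin.castSucc i)) (s i.succ) ≃ₗ[R]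
      Qt (t (Fin.castSucc (f i))) (t (f i).succ)))
    (S : Type) [AddCommGroup S] [Module R S] : cntS s S = cntS t S := by
  classical
  unfold cntS
  refine Fintype.card_congr (f.subtypeEquiv ?_)
  intro i
  obtain ⟨e⟩ := h i
  exact ⟨fun ⟨g⟩ => ⟨e.symm.trans g⟩, fun ⟨g⟩ => ⟨e.trans g⟩⟩

open Classical in
lemma cntS_sum (s : CompositionSeries (Submodule R M)) (S : Type) [AddCommGroup S] [Module R S] :
    cntS s S = ∑ i : Fin s.length,
      if Nonempty (Qt (s (Fin.castSucc i)) (s i.succ) ≃ₗ[R] S) then 1 else 0 := by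
  unfold cntS
  rw [Fintype.card_subtype, Finset.card_filter]

lemma cntS_smash (s t : CompositionSeries (Submodule R M)) (h : RelSeries.last s = RelSeries.head t)
    (S : Type) [AddCommGroup S] [Module R S] :
    cntS (RelSeries.smash s t h) S = cntS s S + cntS t S := by
  classical
  rw [cntS_sum, cntS_sum s, cntS_sum t]
  have e := Fin.sum_univ_add (M := ℕ) (a := s.length) (b := t.length)
    (fun i => if Nonempty (Qt ((RelSeries.smash s t h) (Fin.castSucc i))
      ((RelSeries.smash s t h) i.succ) ≃ₗ[R] S) then 1 else 0)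
  refine e.trans ?_
  congr 1
  · refine Finset.sum_congr rfl fun i _ => ?_
    exact if_congr (qt_congr (RelSeries.smash_castAdd h i) (RelSeries.smash_succ_castAdd h i) S)
      rfl rfl
  · refine Finset.sum_congr rfl fun i _ => ?_
    exact if_congr (qt_congr (RelSeries.smash_natAdd h i) (RelSeries.smash_succ_natAdd h i) S)
      rfl rfl

/-- transport of a series -/
def mapS (φ : Submodule R M → Submodule R N) (hφ : ∀ A B, A ⋖ B → φ A ⋖ φ B)
    (s : CompositionSeries (Submodule R M)) : CompositionSeries (Submodule R N) :=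
  ⟨s.length, fun i => φ (s i), fun i => hφ _ _ (s.step i)⟩

lemma cntS_mapS (φ : Submodule R M → Submodule R N) (hφ : ∀ A B, A ⋖ B → φ A ⋖ φ B)
    (h : ∀ A B, Nonempty (Qt A B ≃ₗ[R] Qt (φ A) (φ B)))
    (s : CompositionSeries (Submodule R M)) (S : Type) [AddCommGroup S] [Module R S] :
    cntS (mapS φ hφ s) S = cntS s S :=
  (cntS_congr (s := s) (t := mapS φ hφ s) (Equiv.refl _)
    (fun i => h (s (Fin.castSucc i)) (s i.succ)) S).symm

lemma qt_map (f : M →ₗ[R] N) (hf : Function.Injective f) (A B : Submodule R M) :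
    Nonempty (Qt A B ≃ₗ[R] Qt (A.map f) (B.map f)) := by
  refine ⟨Submodule.Quotient.equiv _ _ (Submodule.equivMapOfInjective f hf B) ?_⟩
  ext ⟨y, hy⟩
  constructor
  · rintro ⟨x, hx, hxy⟩
    have hx' : (x : M) ∈ A := hx
    have h1 : f x = y := congrArg Subtype.val hxy
    exact ⟨x, hx', h1⟩
  · rintro ⟨a, ha, hay⟩
    obtain ⟨b, hb, hby⟩ := hy
    have h1 : f a = f b := hay.trans hby.symm
    have h2 : a = b := hf h1
    subst h2
    exact ⟨⟨a, hb⟩, ha, Subtype.ext hby⟩

lemma qt_comap (g : N →ₗ[R] M) (hg : Function.Surjective g) (A B : Submodule R M) :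
    Nonempty (Qt A B ≃ₗ[R] Qt (A.comap g) (B.comap g)) := by
  let L : ↥(B.comap g) →ₗ[R] Qt A B :=
    (A.comap B.subtype).mkQ ∘ₗ (g.restrict (p := B.comap g) (q := B) (fun x hx => hx))
  have hL : Function.Surjective L := by
    intro z
    obtain ⟨b, rfl⟩ := Submodule.mkQ_surjective _ z
    obtain ⟨n, hn⟩ := hg b
    have hn' : n ∈ B.comap g := by
      rw [Submodule.mem_comap, hn]
      exact b.2
    refine ⟨⟨n, hn'⟩, ?_⟩
    change (A.comap B.subtype).mkQ _ = _
    congr 1
    exact Subtype.ext hn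
  have hk : LinearMap.ker L = (A.comap g).comap (B.comap g).subtype := by
    ext x
    rw [LinearMap.mem_ker]
    change (A.comap B.subtype).mkQ _ = 0 ↔ _
    rw [Submodule.mkQ_apply, Submodule.Quotient.mk_eq_zero]
    exact Iff.rfl
  exact ⟨((Submodule.quotEquivOfEq _ _ hk.symm).trans (L.quotKerEquivOfSurjective hL)).symm⟩

lemma mlt_eq (s : CompositionSeries (Submodule R M)) (h0 : RelSeries.head s = ⊥)
    (h1 : RelSeries.last s = ⊤) (S : Type) [AddCommGroup S] [Module R S] :
    mlt R M S = cntS s S := by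
  have h : ∃ s : CompositionSeries (Submodule R M),
      RelSeries.head s = ⊥ ∧ RelSeries.last s = ⊤ := ⟨s, h0, h1⟩
  unfold mlt
  rw [dif_pos h]
  obtain ⟨f, hf⟩ := CompositionSeries.jordan_holder h.choose s
    (h.choose_spec.1.trans h0.symm) (h.choose_spec.2.trans h1.symm)
  exact cntS_congr f (fun i => qt_iso (hf i)) S

lemma mlt_zero (h : ¬ ∃ s : CompositionSeries (Submodule R M),
      RelSeries.head s = ⊥ ∧ RelSeries.last s = ⊤) (S : Type) [AddCommGroup S] [Module R S] :
    mlt R M S = 0 := by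
  unfold mlt
  rw [dif_neg h]

lemma cov_map (P : Submodule R M) (A B : Submodule R P) (h : A ⋖ B) :
    A.map P.subtype ⋖ B.map P.subtype := by
  refine CovBy.image (Submodule.MapSubtype.orderEmbedding P) h ?_
  constructor
  rintro _ ⟨X, rfl⟩ _ ⟨Y, rfl⟩ Z ⟨_, hZ⟩
  refine ⟨Z.comap P.subtype, ?_⟩
  have hZP : Z ≤ P := hZ.trans (Submodule.map_subtype_le P Y)
  change (Z.comap P.subtype).map P.subtype = Z
  rw [Submodule.map_comap_subtype, inf_eq_right.2 hZP]

lemma cov_comap (P : Submodule R M) (A B : Submodule R (M ⧸ P)) (h : A ⋖ B) :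
    A.comap P.mkQ ⋖ B.comap P.mkQ := by
  refine CovBy.image (Submodule.comapMkQOrderEmbedding P) h ?_
  constructor
  rintro _ ⟨X, rfl⟩ _ ⟨Y, rfl⟩ Z ⟨hZ, _⟩
  refine ⟨Z.map P.mkQ, ?_⟩
  have hPZ : P ≤ Z := (Submodule.le_comap_mkQ P X).trans hZ
  change (Z.map P.mkQ).comap P.mkQ = Z
  rw [Submodule.comap_map_mkQ, sup_eq_right.2 hPZ]

lemma mlt_add (hM : IsFiniteLength R M) (P : Submodule R M) (S : Type) [AddCommGroup S]
    [Module R S] : mlt R M S = mlt R P S + mlt R (M ⧸ P) S := by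
  have hP : IsFiniteLength R P := hM.of_injective (f := P.subtype) P.injective_subtype
  have hQ : IsFiniteLength R (M ⧸ P) := hM.of_surjective (f := P.mkQ) P.mkQ_surjective
  obtain ⟨s, s0, s1⟩ := isFiniteLength_iff_exists_compositionSeries.1 hP
  obtain ⟨t, t0, t1⟩ := isFiniteLength_iff_exists_compositionSeries.1 hQ
  have hl : RelSeries.last (mapS (fun A => A.map P.subtype) (cov_map P) s) = P := by
    change (RelSeries.last s).map P.subtype = P
    rw [s1, Submodule.map_subtype_top]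
  have hh : RelSeries.head (mapS (fun A => A.comap P.mkQ) (cov_comap P) t) = P := by
    change (RelSeries.head t).comap P.mkQ = P
    rw [t0, Submodule.comap_bot, Submodule.ker_mkQ]
  rw [mlt_eq (RelSeries.smash (mapS (fun A => A.map P.subtype) (cov_map P) s)
    (mapS (fun A => A.comap P.mkQ) (cov_comap P) t) (hl.trans hh.symm)) ?_ ?_, cntS_smash,
    cntS_mapS _ _ (fun A B => qt_map P.subtype P.injective_subtype A B),
    cntS_mapS _ _ (fun A B => qt_comap P.mkQ P.mkQ_surjective A B), mlt_eq s s0 s1, mlt_eq t t0 t1]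
  · rw [RelSeries.head_smash]
    change (RelSeries.head s).map P.subtype = ⊥
    rw [s0, Submodule.map_bot]
  · rw [RelSeries.last_smash]
    change (RelSeries.last t).comap P.mkQ = ⊤
    rw [t1, Submodule.comap_top]

lemma mlt_le (e : M ≃ₗ[R] N) (s : CompositionSeries (Submodule R M)) (h0 : RelSeries.head s = ⊥)
    (h1 : RelSeries.last s = ⊤) (S : Type) [AddCommGroup S] [Module R S] :
    mlt R M S = mlt R N S := by
  have hc : ∀ A B : Submodule R M, A ⋖ B → A.map (e : M →ₗ[R] N) ⋖ B.map (e : M →ₗ[R] N) := by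
    intro A B h
    exact (apply_covBy_apply_iff (Submodule.orderIsoMapComap e)).2 h
  rw [mlt_eq s h0 h1, mlt_eq (mapS (fun A => A.map (e : M →ₗ[R] N)) hc s) ?_ ?_,
    cntS_mapS _ _ (fun A B => qt_map (e : M →ₗ[R] N) e.injective A B)]
  · change (RelSeries.head s).map (e : M →ₗ[R] N) = ⊥
    rw [h0, Submodule.map_bot]
  · change (RelSeries.last s).map (e : M →ₗ[R] N) = ⊤
    rw [h1, Submodule.map_top, LinearEquiv.range]

lemma mlt_congr (e : M ≃ₗ[R] N) (S : Type) [AddCommGroup S] [Module R S] :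
    mlt R M S = mlt R N S := by
  by_cases h : ∃ s : CompositionSeries (Submodule R M),
      RelSeries.head s = ⊥ ∧ RelSeries.last s = ⊤
  · obtain ⟨s, h0, h1⟩ := h
    exact mlt_le e s h0 h1 S
  · by_cases h' : ∃ s : CompositionSeries (Submodule R N),
        RelSeries.head s = ⊥ ∧ RelSeries.last s = ⊤
    · obtain ⟨s, h0, h1⟩ := h'
      exact (mlt_le e.symm s h0 h1 S).symm
    · rw [mlt_zero h, mlt_zero h']

lemma mlt_sub [Subsingleton M] (S : Type) [AddCommGroup S] [Module R S] : mlt R M S = 0 := by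
  classical
  rw [mlt_eq (RelSeries.singleton _ (⊥ : Submodule R M)) rfl
    (Subsingleton.elim (α := Submodule R M) _ _)]
  unfold cntS
  rw [Fintype.card_eq_zero_iff]
  exact ⟨fun i => Fin.elim0 i.1⟩

/-- the series of a simple module -/
def serS [IsSimpleModule R M] : CompositionSeries (Submodule R M) :=
  ⟨1, ![⊥, ⊤], fun i => by
    have hi : i = 0 := Subsingleton.elim i 0
    subst hi
    exact (bot_covBy_top : (⊥ : Submodule R M) ⋖ ⊤)⟩

lemma qt_top : Nonempty (Qt (⊥ : Submodule R M) ⊤ ≃ₗ[R] M) := by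
  have h : (⊥ : Submodule R M).comap (⊤ : Submodule R M).subtype = ⊥ := by
    rw [Submodule.comap_bot]
    exact Submodule.ker_subtype _
  exact ⟨((Submodule.quotEquivOfEqBot _ h).trans Submodule.topEquiv)⟩

lemma mlt_simple [IsSimpleModule R M] (S : Type) [AddCommGroup S] [Module R S] :
    (Nonempty (M ≃ₗ[R] S) → mlt R M S = 1) ∧ (¬ Nonempty (M ≃ₗ[R] S) → mlt R M S = 0) := by
  classical
  have h : mlt R M S = if Nonempty (M ≃ₗ[R] S) then 1 else 0 := by
    rw [mlt_eq (serS (R := R) (M := M)) rfl rfl, cntS_sum]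
    refine (Fin.sum_univ_one (M := ℕ) _).trans ?_
    refine if_congr ?_ rfl rfl
    obtain ⟨e⟩ := qt_top (R := R) (M := M)
    exact ⟨fun ⟨g⟩ => ⟨e.symm.trans g⟩, fun ⟨g⟩ => ⟨e.trans g⟩⟩
  exact ⟨fun h' => by rw [h, if_pos h'], fun h' => by rw [h, if_neg h']⟩

lemma mlt_congr' (S S' : Type) [AddCommGroup S] [Module R S] [AddCommGroup S'] [Module R S']
    (e : S ≃ₗ[R] S') : mlt R M S = mlt R M S' := by
  classical
  by_cases h : ∃ s : CompositionSeries (Submodule R M),
      RelSeries.head s = ⊥ ∧ RelSeries.last s = ⊤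
  · obtain ⟨s, h0, h1⟩ := h
    rw [mlt_eq s h0 h1, mlt_eq s h0 h1, cntS_sum, cntS_sum]
    refine Finset.sum_congr rfl fun i _ => ?_
    exact if_congr ⟨fun ⟨g⟩ => ⟨g.trans e⟩, fun ⟨g⟩ => ⟨g.trans e.symm⟩⟩ rfl rfl
  · rw [mlt_zero h, mlt_zero h]

end Basic

end VMUL

open VMUL in
/-- **Module MUL.** -/
theorem stMul : StMul := by
  intro R _ S _ _ _
  refine ⟨?_, ?_, ?_, ?_, ?_⟩
  · intro M _ _ hM P
    exact mlt_add hM P S
  · intro M M' _ _ _ _ e
    exact mlt_congr e S
  · intro M _ _ _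
    exact mlt_simple S
  · intro M _ _ _
    exact mlt_sub S
  · intro M _ _ S' _ _ e
    exact mlt_congr' S S' e

end BKT
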