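import Pool.Agent.Lib.MP_7c08ba_nt.T1.StV
import Pool.Agent.Lib.MP_7c08ba_nt.T1.FLATTT

set_option autoImplicit false

/-!
Congruent representations, module NRM: a stable lattice with an orthogonal basis of vectors whose
squares are units or units times the uniformizer.
-/

noncomputable section

namespace BKT

open BKMet
open Matrix

namespace VNRM

open BKMet.LLATT

variable {p : ℕ} [Fact p.Prime] {L : Type} [NormedField L] [NormedAlgebra ℚ_[p] L]
  {G : Type} [Group G] {n : ℕ} [FiniteDimensional ℚ_[p] L]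

theorem exists_max {ρ : G →* GL (Fin n) (OO p L)} (c : G →* G) (hc : ∀ g, c (c g) = g)
    (χ : G →* ℤ_[p]ˣ) {C : Matrix (Fin n) (Fin n) L}
    (hC : Cᵀ = C) (hd : IsDual χ ((toL p L n).comp ρ) (((toL p L n).comp ρ).comp c) C)
    (T₁ : Submodule (OO p L) (Fin n → OO p L)) (N : ℕ)
    (hN : ∀ x : Fin n → OO p L, pi0 p L ^ N • x ∈ T₁) (hs : Stb ρ T₁)
    (hJ : ∀ x ∈ T₁, ∀ y ∈ T₁, bf C x y ∈ J0 p L) :
    ∃ T : Submodule (OO p L) (Fin n → OO p L), T₁ ≤ T ∧ Stb ρ T ∧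
      (∀ x ∈ T, ∀ y ∈ T, bf C x y ∈ J0 p L) ∧
      ∀ y, (∀ x ∈ T, bf C x y ∈ J0 p L) → pi0 p L • y ∈ T := by
  obtain ⟨T, ⟨h1, h2, h3⟩, hmax⟩ := (set_has_maximal_iff_noetherian
    (R := OO p L) (M := Fin n → OO p L)).2 inferInstance
    {T | T₁ ≤ T ∧ Stb ρ T ∧ ∀ x ∈ T, ∀ y ∈ T, bf C x y ∈ J0 p L} ⟨T₁, le_rfl, hs, hJ⟩
  refine ⟨T, h1, h2, h3, ?_⟩
  have hact : ∀ (g : G) (x y : Fin n → OO p L),
      bf C x ((ρ g : Matrix (Fin n) (Fin n) (OO p L)) *ᵥ y) =
      zO p L ((χ (c g) : ℤ_[p]ˣ) : ℤ_[p]) •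
        bf C ((ρ (c g)⁻¹ : Matrix (Fin n) (Fin n) (OO p L)) *ᵥ x) y := by
    intro g x y
    have e1 : (ρ (c g) : Matrix (Fin n) (Fin n) (OO p L)) *ᵥ
        ((ρ (c g)⁻¹ : Matrix (Fin n) (Fin n) (OO p L)) *ᵥ x) = x := by
      rw [mulVec_mulVec, ← Units.val_mul, ← map_mul, mul_inv_cancel, map_one, Units.val_one,
        one_mulVec]
    have e2 := bf_act hd (c g) ((ρ (c g)⁻¹ : Matrix (Fin n) (Fin n) (OO p L)) *ᵥ x) y
    rw [e1, hc] at e2
    exact e2
  have hstep : ∀ k : ℕ, (∀ y, (∀ x ∈ T, bf C x y ∈ J0 p L) → pi0 p L ^ k • y ∈ T) →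
      ∀ y, (∀ x ∈ T, bf C x y ∈ J0 p L) → pi0 p L • y ∈ T := by
    intro k
    induction k with
    | zero =>
      intro h y hy
      have h4 := h y hy
      rw [pow_zero, one_smul] at h4
      exact T.smul_mem _ h4
    | succ k ih =>
      intro h
      rcases Nat.eq_zero_or_pos k with h0 | h0
      · subst h0
        intro y hy
        have h4 := h y hy
        rwa [zero_add, pow_one] at h4
      refine ih fun y hy => ?_
      obtain ⟨j, rfl⟩ : ∃ j, k = j + 1 := ⟨k - 1, by omega⟩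
      -- the larger lattice
      obtain ⟨R, hR⟩ : ∃ R : Submodule (OO p L) (Fin n → OO p L),
          ∀ z, z ∈ R ↔ ∃ t ∈ T, ∃ u, (∀ x ∈ T, bf C x u ∈ J0 p L) ∧
            z = t + pi0 p L ^ (j + 1) • u := by
        refine ⟨{ carrier := {z | ∃ t ∈ T, ∃ u, (∀ x ∈ T, bf C x u ∈ J0 p L) ∧
                    z = t + pi0 p L ^ (j + 1) • u}
                  add_mem' := ?_
                  zero_mem' := ⟨0, T.zero_mem, 0, fun x _ => ?_, by rw [smul_zero, add_zero]⟩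
                  smul_mem' := ?_ }, fun x => Iff.rfl⟩
        · rintro _ _ ⟨t, ht, u, hu, rfl⟩ ⟨t', ht', u', hu', rfl⟩
          refine ⟨t + t', T.add_mem ht ht', u + u', fun x hx => ?_, ?_⟩
          · rw [bf_add_right]
            exact (J0 p L).add_mem (hu x hx) (hu' x hx)
          · rw [smul_add]
            abel
        · have e : bf C x 0 = 0 := by
            unfold bf
            rw [iv_zero, mulVec_zero, dotProduct_zero]
          rw [e]
          exact (J0 p L).zero_mem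
        · rintro r _ ⟨t, ht, u, hu, rfl⟩
          refine ⟨r • t, T.smul_mem r ht, r • u, fun x hx => ?_, ?_⟩
          · rw [bf_smul_right]
            exact (J0 p L).smul_mem r (hu x hx)
          · rw [smul_add, smul_comm]
      have hTR : T ≤ R := fun t ht => (hR t).2 ⟨t, ht, 0, fun x _ => by
        have e : bf C x 0 = 0 := by
          unfold bf
          rw [iv_zero, mulVec_zero, dotProduct_zero]
        rw [e]
        exact (J0 p L).zero_mem, by rw [smul_zero, add_zero]⟩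
      have hyR : pi0 p L ^ (j + 1) • y ∈ R := (hR _).2 ⟨0, T.zero_mem, y, hy, by rw [zero_add]⟩
      by_contra hcon
      refine hmax R ⟨h1.trans hTR, ?_, ?_⟩ (lt_of_le_of_ne hTR fun e => hcon (e ▸ hyR))
      · intro g z hz
        obtain ⟨t, ht, u, hu, rfl⟩ := (hR z).1 hz
        refine (hR _).2 ⟨_, h2 g t ht, (ρ g : Matrix (Fin n) (Fin n) (OO p L)) *ᵥ u,
          fun x hx => ?_, ?_⟩
        · rw [hact]
          exact (J0 p L).smul_mem _ (hu _ (h2 _ _ hx))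
        · rw [mulVec_add, mulVec_smul]
      · intro z hz z' hz'
        obtain ⟨t, ht, u, hu, rfl⟩ := (hR z).1 hz
        obtain ⟨t', ht', u', hu', rfl⟩ := (hR z').1 hz'
        rw [bf_add_left, bf_add_right, bf_add_right]
        refine (J0 p L).add_mem ((J0 p L).add_mem (h3 t ht t' ht') ?_)
          ((J0 p L).add_mem ?_ ?_)
        · rw [bf_smul_right]
          exact (J0 p L).smul_mem _ (hu' t ht)
        · rw [bf_comm hC, bf_smul_right]
          exact (J0 p L).smul_mem _ (hu t' ht')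
        · have e1 : bf C (pi0 p L ^ (j + 1) • u) (pi0 p L ^ (j + 1) • u') =
              pi0 p L ^ j • bf C (pi0 p L ^ (j + 1 + 1) • u) u' := by
            rw [bf_smul_left, bf_smul_right, bf_smul_left, smul_smul, smul_smul, ← pow_add,
              ← pow_add]
            congr 2
            ring
          rw [e1]
          exact (J0 p L).smul_mem _ (hu' _ (h u hu))
  exact hstep N fun y _ => h1 (hN y)

theorem core {ρ : G →* GL (Fin n) (OO p L)}
    (c : G →* G) (hc : ∀ g, c (c g) = g) (χ : G →* ℤ_[p]ˣ)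
    {C : Matrix (Fin n) (Fin n) L}
    (hC : Cᵀ = C) (hd : IsDual χ ((toL p L n).comp ρ) (((toL p L n).comp ρ).comp c) C)
    (hCu : IsUnit C.det) (N : ℕ)
    (h1 : ∀ i j, ‖((pi0 p L : OO p L) : L) ^ (2 * N) * C i j‖ ≤ 1)
    (h2 : ∀ w : Fin n → L, (∀ i, ‖((pi0 p L : OO p L) : L) ^ N * (C *ᵥ w) i‖ ≤ 1) →
      ∀ i, ‖w i‖ ≤ 1) :
    ∃ (Q : GL (Fin n) L) (ρ₁ : G →* GL (Fin n) (OO p L))
      (B₀ : Matrix (Fin n) (Fin n) (OO p L)),
      (∀ g, toL p L n (ρ₁ g) = Q⁻¹ * toL p L n (ρ g) * Q) ∧ B₀ᵀ = B₀ ∧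
      (∀ z : Fin n → OO p L, ∃ y, B₀ *ᵥ y = pi0 p L • z) ∧
      B₀.map (OO p L).subtype =
        (Q : Matrix (Fin n) (Fin n) L)ᵀ * C * (Q : Matrix (Fin n) (Fin n) L) := by
  -- the lattice
  obtain ⟨D, hD⟩ := exists_mat (p := p) (((pi0 p L : OO p L) : L) ^ (2 * N) • C) h1
  obtain ⟨T, hT1, hT2, hT3, hT4⟩ := exists_max c hc χ (C := C) hC hd
    (piE p L (Fin n → OO p L) N) N (fun x => ⟨x, rfl⟩)
    (by
      rintro g _ ⟨x, rfl⟩
      refine ⟨(ρ g : Matrix (Fin n) (Fin n) (OO p L)) *ᵥ x, ?_⟩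
      change pi0 p L ^ N • ((ρ g : Matrix (Fin n) (Fin n) (OO p L)) *ᵥ x) =
        (ρ g : Matrix (Fin n) (Fin n) (OO p L)) *ᵥ (pi0 p L ^ N • x)
      rw [mulVec_smul])
    (by
      rintro _ ⟨x, rfl⟩ _ ⟨y, rfl⟩
      change bf C (pi0 p L ^ N • x) (pi0 p L ^ N • y) ∈ J0 p L
      have e1 : bf C (pi0 p L ^ N • x) (pi0 p L ^ N • y) =
          ((x ⬝ᵥ (D *ᵥ y) : OO p L) : L) := by
        rw [← bf_map, hD, bf_smul_left, bf_smul_right]
        unfold bf
        rw [smul_mulVec, dotProduct_smul]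
        change ((pi0 p L ^ N : OO p L) : L) * (((pi0 p L ^ N : OO p L) : L) * _) = _ * _
        rw [Subring.coe_pow, two_mul, pow_add]
        ring
      rw [e1]
      exact OO.norm_le _)
  have hN : ∀ x : Fin n → OO p L, pi0 p L ^ N • x ∈ T := fun x => hT1 ⟨x, rfl⟩
  obtain ⟨P, hP, hPT⟩ := exists_basis T N hN
  have hPL : (P.map (OO p L).subtype).det ≠ 0 := by
    intro h3
    have h4 : (OO p L).subtype P.det = 0 := by
      rw [RingHom.map_det]
      exact h3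
    exact hP (Subtype.ext h4)
  obtain ⟨Q, hQ⟩ : ∃ Q : GL (Fin n) L, (Q : Matrix (Fin n) (Fin n) L) =
    P.map (OO p L).subtype := ⟨Matrix.GeneralLinearGroup.mkOfDetNeZero _ hPL, rfl⟩
  have hPv : ∀ y, iv (P *ᵥ y) = (Q : Matrix (Fin n) (Fin n) L) *ᵥ iv y := fun y => by
    rw [hQ, iv_mulVec]
  have hQQ : ((Q⁻¹ : GL (Fin n) L) : Matrix (Fin n) (Fin n) L) *
    (Q : Matrix (Fin n) (Fin n) L) = 1 := Units.inv_mul Q
  have hes : ∀ j, iv (Pi.single j 1 : Fin n → OO p L) = (Pi.single j 1 : Fin n → L) := by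
    intro j
    funext i
    unfold iv
    by_cases hij : i = j
    · subst hij
      rw [Pi.single_eq_same, Pi.single_eq_same]
      rfl
    · rw [Pi.single_eq_of_ne hij, Pi.single_eq_of_ne hij]
      rfl
  -- the representation
  obtain ⟨ρ₁, hρ₁⟩ := exists_rho (p := p) (L := L) (n := n)
    (((MulAut.conj Q⁻¹).toMonoidHom).comp ((toL p L n).comp ρ)) (by
      intro g i j
      change ‖((Q⁻¹ * toL p L n (ρ g) * (Q⁻¹)⁻¹ : GL (Fin n) L) : Matrix (Fin n) (Fin n) L) i j‖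
        ≤ 1
      rw [inv_inv]
      obtain ⟨y, hy⟩ := (hPT _).1 (hT2 g _ ((hPT _).2 ⟨Pi.single j 1, rfl⟩))
      have e1 : (Q : Matrix (Fin n) (Fin n) L) *ᵥ iv y =
          ((toL p L n (ρ g) : GL (Fin n) L) : Matrix (Fin n) (Fin n) L) *ᵥ
            ((Q : Matrix (Fin n) (Fin n) L) *ᵥ Pi.single j 1) := by
        rw [← hes, ← hPv, ← hPv, hy]
        exact iv_mulVec _ _
      have e2 : iv y = ((Q⁻¹ * toL p L n (ρ g) * Q : GL (Fin n) L) :
          Matrix (Fin n) (Fin n) L) *ᵥ Pi.single j 1 := by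
        calc iv y = ((Q⁻¹ : GL (Fin n) L) : Matrix (Fin n) (Fin n) L) *ᵥ
              ((Q : Matrix (Fin n) (Fin n) L) *ᵥ iv y) := by
              rw [mulVec_mulVec, hQQ, one_mulVec]
          _ = _ := by
              rw [e1, mulVec_mulVec, mulVec_mulVec]
              rfl
      have e3 := congrFun e2 i
      rw [mulVec_single_one] at e3
      change _ = ((Q⁻¹ * toL p L n (ρ g) * Q : GL (Fin n) L) : Matrix (Fin n) (Fin n) L) i j at e3
      rw [← e3]
      exact OO.norm_le (y i))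
  have hρ₁' : ∀ g, toL p L n (ρ₁ g) = Q⁻¹ * toL p L n (ρ g) * Q := by
    intro g
    rw [hρ₁]
    change Q⁻¹ * toL p L n (ρ g) * (Q⁻¹)⁻¹ = _
    rw [inv_inv]
  -- the form
  have hX : ∀ i j, ‖((Q : Matrix (Fin n) (Fin n) L)ᵀ * C * (Q : Matrix (Fin n) (Fin n) L)) i j‖
      ≤ 1 := by
    intro i j
    have h3 : bf C (P *ᵥ Pi.single i 1) (P *ᵥ Pi.single j 1) ∈ J0 p L :=
      hT3 _ ((hPT _).2 ⟨_, rfl⟩) _ ((hPT _).2 ⟨_, rfl⟩)
    have h4 : bf C (P *ᵥ Pi.single i 1) (P *ᵥ Pi.single j 1) =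
        ((Q : Matrix (Fin n) (Fin n) L)ᵀ * C * (Q : Matrix (Fin n) (Fin n) L)) i j := by
      unfold bf
      rw [hPv, hPv, hes, hes, dot_tr, mulVec_mulVec, mulVec_mulVec,
        single_one_dotProduct, mulVec_single_one]
      rfl
    rw [← h4]
    exact h3
  obtain ⟨B₀, hB₀⟩ := exists_mat (p := p) _ hX
  have hsym : B₀ᵀ = B₀ := by
    apply map_inj
    rw [transpose_map, hB₀, transpose_mul, transpose_mul, transpose_transpose, hC, mul_assoc]
  refine ⟨Q, ρ₁, B₀, hρ₁', hsym, ?_, hB₀⟩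
  intro z
  set X : Matrix (Fin n) (Fin n) L := (Q : Matrix (Fin n) (Fin n) L)ᵀ * C *
    (Q : Matrix (Fin n) (Fin n) L) with hXd
  have hXu : IsUnit X.det := by
    rw [hXd, det_mul, det_mul, det_transpose]
    have h3 : IsUnit (Q : Matrix (Fin n) (Fin n) L).det :=
      (Matrix.isUnit_iff_isUnit_det _).1 Q.isUnit
    exact (h3.mul hCu).mul h3
  set v : Fin n → L := X⁻¹ *ᵥ iv z with hv
  have hXv : X *ᵥ v = iv z := by
    rw [hv, mulVec_mulVec, Matrix.mul_nonsing_inv _ hXu, one_mulVec]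
  set w : Fin n → L := (Q : Matrix (Fin n) (Fin n) L) *ᵥ v with hw
  have hQw : ∀ x', iv (P *ᵥ x') ⬝ᵥ (C *ᵥ w) = ((x' ⬝ᵥ z : OO p L) : L) := by
    intro x'
    rw [coe_dot, ← hXv, hPv, hw, dot_tr, mulVec_mulVec, mulVec_mulVec]
  have hwi : ∀ i, ‖w i‖ ≤ 1 := by
    refine h2 w fun i => ?_
    obtain ⟨x', hx'⟩ := (hPT _).1 (hN (Pi.single i 1))
    have h3 := hQw x'
    rw [hx', iv_smul, hes, smul_dotProduct, single_one_dotProduct] at h3
    change ((pi0 p L ^ N : OO p L) : L) * _ = _ at h3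
    rw [Subring.coe_pow] at h3
    rw [h3]
    exact OO.norm_le _
  obtain ⟨w', hw'⟩ := exists_iv (p := p) w hwi
  have hw'T : pi0 p L • w' ∈ T := by
    refine hT4 w' fun x hx => ?_
    obtain ⟨x', rfl⟩ := (hPT x).1 hx
    have h3 := hQw x'
    have h4 : bf C (P *ᵥ x') w' = ((x' ⬝ᵥ z : OO p L) : L) := by
      rw [← h3]
      unfold bf
      rw [hw']
    rw [h4]
    exact OO.norm_le _
  obtain ⟨y, hy⟩ := (hPT _).1 hw'T
  refine ⟨y, iv_inj ?_⟩
  have h5 : iv y = ((pi0 p L : OO p L) : L) • v := by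
    have h6 : (Q : Matrix (Fin n) (Fin n) L) *ᵥ iv y =
        ((pi0 p L : OO p L) : L) • ((Q : Matrix (Fin n) (Fin n) L) *ᵥ v) := by
      rw [← hPv, hy, iv_smul, hw']
    calc iv y = ((Q⁻¹ : GL (Fin n) L) : Matrix (Fin n) (Fin n) L) *ᵥ
              ((Q : Matrix (Fin n) (Fin n) L) *ᵥ iv y) := by
              rw [mulVec_mulVec, hQQ, one_mulVec]
      _ = _ := by rw [h6, mulVec_smul, mulVec_mulVec, hQQ, one_mulVec]
  rw [iv_mulVec, hB₀, h5, mulVec_smul, hXv, iv_smul]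

/-- an orthogonal basis -/
theorem diag {B₀ : Matrix (Fin n) (Fin n) (OO p L)}
    (hB₀ : ∀ z : Fin n → OO p L, ∃ y, B₀ *ᵥ y = pi0 p L • z) {U : GL (Fin n) (OO p L)}
    {d : Fin n → OO p L} (hU : (U : Matrix (Fin n) (Fin n) (OO p L))ᵀ * B₀ *
      (U : Matrix (Fin n) (Fin n) (OO p L)) = Matrix.diagonal d) (i : Fin n) :
    ∃ (e : (OO p L)ˣ) (a : Bool), d i = e * (if a then pi0 p L else 1) := by
  have hUU : (U : Matrix (Fin n) (Fin n) (OO p L)) *
    ((U⁻¹ : GL (Fin n) (OO p L)) : Matrix (Fin n) (Fin n) (OO p L)) = 1 := Units.mul_inv U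
  have hUT : (U : Matrix (Fin n) (Fin n) (OO p L))ᵀ *
    ((U⁻¹ : GL (Fin n) (OO p L)) : Matrix (Fin n) (Fin n) (OO p L))ᵀ = 1 := by
    rw [← transpose_mul]
    have h : ((U⁻¹ : GL (Fin n) (OO p L)) : Matrix (Fin n) (Fin n) (OO p L)) *
      (U : Matrix (Fin n) (Fin n) (OO p L)) = 1 := Units.inv_mul U
    rw [h, transpose_one]
  obtain ⟨y, hy⟩ := hB₀ (((U⁻¹ : GL (Fin n) (OO p L)) : Matrix (Fin n) (Fin n) (OO p L))ᵀ *ᵥ
    Pi.single i 1)
  have h1 : Matrix.diagonal d *ᵥ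
      (((U⁻¹ : GL (Fin n) (OO p L)) : Matrix (Fin n) (Fin n) (OO p L)) *ᵥ y) =
      pi0 p L • Pi.single i 1 := by
    rw [← hU, mulVec_mulVec, mul_assoc, hUU, mul_one, ← mulVec_mulVec, hy, mulVec_smul,
      mulVec_mulVec, hUT, one_mulVec]
  have h2 := congrFun h1 i
  rw [mulVec_diagonal, Pi.smul_apply, Pi.single_eq_same, smul_eq_mul, mul_one] at h2
  set t : OO p L :=
    (((U⁻¹ : GL (Fin n) (OO p L)) : Matrix (Fin n) (Fin n) (OO p L)) *ᵥ y) i with ht
  by_cases hdu : IsUnit (d i)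
  · obtain ⟨e, he⟩ := hdu
    refine ⟨e, false, ?_⟩
    rw [he]
    simp
  · have h3 := (IsLocalRing.mem_maximalIdeal _).2 hdu
    rw [pi0_span, Ideal.mem_span_singleton] at h3
    obtain ⟨q, hq⟩ := h3
    have h4 : q * t = 1 := by
      have h5 : pi0 p L * (q * t) = pi0 p L * 1 := by
        rw [mul_one, ← mul_assoc, ← hq, h2]
      exact mul_left_cancel₀ (pi0_ne' p L) h5
    refine ⟨Units.mk q t h4 (by rw [mul_comm]; exact h4), true, ?_⟩
    rw [hq]
    simp [mul_comm]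

end VNRM

open BKMet.LLATT in
/-- Module NRM. -/
theorem stNrm (h : StDia) : StNrm := by
  intro p _ hp2 L _ _ _ G _ n V A ρ hρ' c hc χ B hB hd
  -- the scaling
  set s' : Matrix (Fin n) (Fin n) L := ((A⁻¹ : GL (Fin n) L) : Matrix (Fin n) (Fin n) L) with hs'
  have hss : (A : Matrix (Fin n) (Fin n) L) * s' = 1 := Units.mul_inv A
  have hss' : s' * (A : Matrix (Fin n) (Fin n) L) = 1 := Units.inv_mul A
  have hBu : IsUnit (B : Matrix (Fin n) (Fin n) L).det :=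
    (Matrix.isUnit_iff_isUnit_det _).1 B.isUnit
  set C₀ : Matrix (Fin n) (Fin n) L := s'ᵀ * (B : Matrix (Fin n) (Fin n) L) * s' with hC₀
  have hC₀u : IsUnit C₀.det := by
    rw [hC₀, det_mul, det_mul, det_transpose]
    have h3 : IsUnit s'.det := (Matrix.isUnit_iff_isUnit_det _).1 (A⁻¹ : GL (Fin n) L).isUnit
    exact (h3.mul hBu).mul h3
  have hC₀B : (A : Matrix (Fin n) (Fin n) L)ᵀ * C₀ * (A : Matrix (Fin n) (Fin n) L) =
      (B : Matrix (Fin n) (Fin n) L) := by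
    calc (A : Matrix (Fin n) (Fin n) L)ᵀ * C₀ * (A : Matrix (Fin n) (Fin n) L) =
        (s' * (A : Matrix (Fin n) (Fin n) L))ᵀ * (B : Matrix (Fin n) (Fin n) L) *
          (s' * (A : Matrix (Fin n) (Fin n) L)) := by
          rw [hC₀, transpose_mul]
          simp only [mul_assoc]
      _ = (B : Matrix (Fin n) (Fin n) L) := by rw [hss', transpose_one, one_mul, mul_one]
  obtain ⟨s, hs⟩ := exists_bound (p := p) C₀
  obtain ⟨t, ht⟩ := exists_bound (p := p) C₀⁻¹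
  set ϖ : L := ((pi0 p L : OO p L) : L) with hϖ
  have hϖ0 : ϖ ≠ 0 := pi0_ne p L
  set C : Matrix (Fin n) (Fin n) L := (ϖ ^ (2 * (s + t)))⁻¹ • C₀ with hCd
  let u : Lˣ := Units.mk0 (ϖ ^ (s + t)) (pow_ne_zero _ hϖ0)
  set S₀ : GL (Fin n) L := u • A with hS₀
  have hS₀c : (S₀ : Matrix (Fin n) (Fin n) L) = ϖ ^ (s + t) • (A : Matrix (Fin n) (Fin n) L) :=
    rfl
  have hS₀i : ((S₀⁻¹ : GL (Fin n) L) : Matrix (Fin n) (Fin n) L) = (ϖ ^ (s + t))⁻¹ • s' := by
    rw [hS₀]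
    rfl
  have hCB : (S₀ : Matrix (Fin n) (Fin n) L)ᵀ * C * (S₀ : Matrix (Fin n) (Fin n) L) =
      (B : Matrix (Fin n) (Fin n) L) := by
    rw [hS₀c, hCd, transpose_smul, smul_mul_smul_comm, smul_mul_smul_comm, hC₀B]
    have e1 : ϖ ^ (s + t) * (ϖ ^ (2 * (s + t)))⁻¹ * ϖ ^ (s + t) = 1 := by
      rw [mul_right_comm, ← pow_add, ← two_mul]
      exact mul_inv_cancel₀ (pow_ne_zero _ hϖ0)
    rw [e1, one_smul]
  have hρS : ∀ g, toL p L n (ρ g) = S₀ * V g * S₀⁻¹ := by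
    intro g
    rw [hρ']
    apply Units.ext
    change (A : Matrix (Fin n) (Fin n) L) * (V g : Matrix (Fin n) (Fin n) L) * s' =
      (S₀ : Matrix (Fin n) (Fin n) L) * (V g : Matrix (Fin n) (Fin n) L) *
        ((S₀⁻¹ : GL (Fin n) L) : Matrix (Fin n) (Fin n) L)
    rw [hS₀c, hS₀i, smul_mul_assoc, smul_mul_smul_comm, mul_inv_cancel₀ (pow_ne_zero _ hϖ0),
      one_smul]
  have hCs : Cᵀ = C := by
    rw [hCd, transpose_smul, hC₀, transpose_mul, transpose_mul, transpose_transpose, hB, mul_assoc]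
  have hCu : IsUnit C.det := by
    rw [hCd, det_smul]
    exact (IsUnit.mk0 _ (pow_ne_zero _ (inv_ne_zero (pow_ne_zero _ hϖ0)))).mul hC₀u
  have hϖ1 : ‖ϖ‖ ≤ 1 := (pi0_lt p L).le
  obtain ⟨Q, ρ₁, B₀, hρ₁, hsym, hunit, hB₀⟩ := VNRM.core c hc χ hCs
    (dual_conj hd hρS hCB) hCu
    (2 * s + t) (by
      intro i j
      have e1 : ϖ ^ (2 * (2 * s + t)) * C i j = ϖ ^ s * (ϖ ^ s * C₀ i j) := by
        rw [hCd, Matrix.smul_apply, smul_eq_mul]
        have e2 : ϖ ^ (2 * (2 * s + t)) = ϖ ^ (2 * (s + t)) * (ϖ ^ s * ϖ ^ s) := by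
          rw [← pow_add, ← pow_add]
          congr 1
          ring
        rw [e2]
        have e3 : ϖ ^ (2 * (s + t)) ≠ 0 := pow_ne_zero _ hϖ0
        field_simp
      rw [e1, norm_mul, norm_pow]
      exact mul_le_one₀ (pow_le_one₀ (norm_nonneg _) hϖ1) (norm_nonneg _) (hs i j))
    (by
      intro w hw
      obtain ⟨z, hz⟩ := exists_iv (p := p) (fun i => ϖ ^ (2 * s + t) * (C *ᵥ w) i) hw
      obtain ⟨E, hE'⟩ := exists_mat (p := p) (ϖ ^ t • C₀⁻¹) ht
      have hz' : iv z = ϖ ^ (2 * s + t) • (C *ᵥ w) := hz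
      have e1 : w = iv (E *ᵥ z) := by
        rw [iv_mulVec, hE', hz', hCd, smul_mulVec, smul_mulVec, smul_smul, mulVec_smul,
          mulVec_mulVec, Matrix.nonsing_inv_mul _ hC₀u, one_mulVec, smul_smul]
        have e2 : ϖ ^ t * (ϖ ^ (2 * s + t) * (ϖ ^ (2 * (s + t)))⁻¹) = 1 := by
          rw [← mul_assoc, ← pow_add]
          have e3 : t + (2 * s + t) = 2 * (s + t) := by ring
          rw [e3]
          exact mul_inv_cancel₀ (pow_ne_zero _ hϖ0)
        rw [e2, one_smul]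
      intro i
      rw [e1]
      exact OO.norm_le _)
  -- the change of basis
  set S : GL (Fin n) L := Q⁻¹ * S₀ with hS
  have hρ₁S : ∀ g, toL p L n (ρ₁ g) = S * V g * S⁻¹ := by
    intro g
    rw [hρ₁, hρS, hS]
    group
  have hSB : (S : Matrix (Fin n) (Fin n) L)ᵀ * B₀.map (OO p L).subtype *
      (S : Matrix (Fin n) (Fin n) L) = (B : Matrix (Fin n) (Fin n) L) := by
    have hQS : (Q : Matrix (Fin n) (Fin n) L) * (S : Matrix (Fin n) (Fin n) L) =
        (S₀ : Matrix (Fin n) (Fin n) L) := by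
      have e1 : Q * S = S₀ := by
        rw [hS]
        group
      exact congrArg (fun z : GL (Fin n) L => (z : Matrix (Fin n) (Fin n) L)) e1
    rw [hB₀, ← hCB, ← hQS, transpose_mul]
    simp only [mul_assoc]
  -- the orthogonal basis
  obtain ⟨U, d, hU⟩ := h p hp2 L n B₀ hsym
  choose e a hea using fun i => VNRM.diag hunit hU i
  have hdg : dgm e a = (Matrix.diagonal d).map (OO p L).subtype := by
    rw [Matrix.diagonal_map (map_zero _)]
    unfold dgm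
    congr 1
    funext i
    change _ = ((d i : OO p L) : L)
    rw [hea i]
    by_cases hai : a i = true
    · simp [hai]
    · simp [hai]
  set U' : GL (Fin n) L := toL p L n U with hU'
  have hU'c : (U' : Matrix (Fin n) (Fin n) L) =
      (U : Matrix (Fin n) (Fin n) (OO p L)).map (OO p L).subtype := rfl
  have hdg2 : dgm e a = (U' : Matrix (Fin n) (Fin n) L)ᵀ * B₀.map (OO p L).subtype *
      (U' : Matrix (Fin n) (Fin n) L) := by
    rw [hdg, ← hU, Matrix.map_mul, Matrix.map_mul, hU'c, transpose_map]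
  refine ⟨U'⁻¹ * S, ((MulAut.conj U⁻¹).toMonoidHom).comp ρ₁, e, a, ⟨fun g => ?_, ?_⟩⟩
  · change toL p L n (U⁻¹ * ρ₁ g * (U⁻¹)⁻¹) = _
    have e1 : (U'⁻¹ * S)⁻¹ = S⁻¹ * U' := by rw [_root_.mul_inv_rev, inv_inv]
    rw [e1, inv_inv, map_mul, map_mul, map_inv, hρ₁S, ← hU']
    simp only [mul_assoc]
  · have hUS : (U' : Matrix (Fin n) (Fin n) L) *
        ((U'⁻¹ * S : GL (Fin n) L) : Matrix (Fin n) (Fin n) L) =
        (S : Matrix (Fin n) (Fin n) L) := by
      have e1 : U' * (U'⁻¹ * S) = S := by group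
      exact congrArg (fun z : GL (Fin n) L => (z : Matrix (Fin n) (Fin n) L)) e1
    calc _ = ((U' : Matrix (Fin n) (Fin n) L) *
          ((U'⁻¹ * S : GL (Fin n) L) : Matrix (Fin n) (Fin n) L))ᵀ * B₀.map (OO p L).subtype *
          ((U' : Matrix (Fin n) (Fin n) L) *
          ((U'⁻¹ * S : GL (Fin n) L) : Matrix (Fin n) (Fin n) L)) := by
          rw [hdg2, transpose_mul]
          simp only [mul_assoc]
      _ = _ := by rw [hUS, hSB]

end BKT
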