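import Pool.Agent.Lib.MP_7c08ba_nt.T1.StV

set_option autoImplicit false

/-!
Parity for congruent representations: module PVF, the theorem.
-/

noncomputable section

namespace BKT

open NumberField BKGen BKMet
open Matrix

namespace VPVF

variable {p : ℕ} [Fact p.Prime] {F : Type} [Field F] {L : Type} [NormedField L]
  [NormedAlgebra ℚ_[p] L] {n : ℕ} {V : BKS.Rep (BKS.GF F) L n}

/-- the form of a polarisation, as an invertible matrix -/
def glB {c : AlgebraicClosure F ≃+* AlgebraicClosure F} {B : Matrix (Fin n) (Fin n) L}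
    (h : BKS.IsPol p V c B) : GL (Fin n) L := Matrix.nonsingInvUnit B h.2.1

theorem isDual {c : AlgebraicClosure F ≃+* AlgebraicClosure F} {σ : F ≃+* F}
    (hcs : BKOdd.ConjHyp c σ) {B : Matrix (Fin n) (Fin n) L} (h : BKS.IsPol p V c B) :
    IsDual (cycF p F) V (V.comp (BKOdd.conj c σ hcs.h)) (glB h : Matrix (Fin n) (Fin n) L) := by
  intro g
  refine h.matrix fun z => ?_
  change c (g (c.symm (c z))) = c (g z)
  rw [RingEquiv.symm_apply_apply]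

/-- the empty family of primes -/
theorem covers_empty (h : ∀ (l : ℕ) [Fact l.Prime], l ≠ p → ¬ BKS.Split l F → BKS.PrimeTo p l V) :
    BKS.Covers p V (fun k : Empty => k.elim) := by
  constructor
  · intro a
    exact a.elim
  · intro a
    exact a.elim
  · intro m _ hm hs
    exact Or.inl (h m hm hs)

end VPVF

open VPVF in
theorem stPvf (h1 : StPuf) (h2 : StCng) (h3 : StLtx) (h4 : StBch) (h5 : StBct) (h6 : StBcc) :
    StPvf := by
  intro p _ F _ _ hp hF hIm hs c hc L _ _ _ n V B hV hB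
  obtain ⟨σ, hcs⟩ := BKS.exists_conjHyp hF hc
  have hU := h1 p F hp hF hIm hs c hc
  refine ⟨(hU L n V B hV hB).1, (hU L n V B hV hB).2.1, fun n' V' B' hV' hB' => ?_⟩
  have c3 : BKS.Congr V V' → ∃ (L₂ : Type) (_ : NormedField L₂) (_ : NormedAlgebra ℚ_[p] L₂)
      (_ : FiniteDimensional ℚ_[p] L₂) (φ : L →ₐ[ℚ_[p]] L₂)
      (T N : AddSubgroup ((Fin n → L₂) × (Fin n' → L₂))),
      BKS.IsMet (BKS.vec2 (BKS.ext (φ : L →+* L₂) V) (BKS.ext (φ : L →+* L₂) V'))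
        (BKS.form (B.map φ) (B'.map φ)) T N := by
    intro hcg
    obtain ⟨A, ρ, hρ⟩ := h3 p L (GF F) n V hV.cont
    obtain ⟨A', ρ', hρ'⟩ := h3 p L (GF F) n' V' hV'.cont
    exact h2 p hp F L n n' V V' (glB hB) A (glB hB') A' ρ ρ' hρ hρ' (BKOdd.conj c σ hcs.h)
      (BKOdd.Conj.conj_conj hcs.h hcs.hc) (cycF p F) hB.1 hB'.1 (isDual hcs hB)
      (isDual hcs hB') hcg
  have c4 : ∀ (L₂ : Type) [NormedField L₂] [NormedAlgebra ℚ_[p] L₂]
      [FiniteDimensional ℚ_[p] L₂] (φ : L →ₐ[ℚ_[p]] L₂)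
      (T N : AddSubgroup ((Fin n → L₂) × (Fin n' → L₂))),
      BKS.IsMet (BKS.vec2 (BKS.ext (φ : L →+* L₂) V) (BKS.ext (φ : L →+* L₂) V'))
        (BKS.form (B.map φ) (B'.map φ)) T N →
      ∀ (κ : Type) [Fintype κ] (l : κ → ℕ) [∀ k, Fact (l k).Prime] (j : ∀ k, BKS.Emb (l k) F),
      BKS.Covers p V l → BKS.Covers p V' l →
      BKS.IsFin (BKS.H1f p V) ∧ BKS.IsFin (BKS.H1f p V') ∧ ∀ v : BKS.Emb p F,
        (BKS.dim (BKS.H1f p V) + BKS.tdim V v + (BKS.dim (BKS.H1f p V') + BKS.tdim V' v)) % 2 =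
          (∑ k, BKS.loc L₂ (BKS.vec2 (BKS.ext (φ : L →+* L₂) V) (BKS.ext (φ : L →+* L₂) V'))
            (j k) T N) % 2 := by
    intro L₂ _ _ _ φ T N hM κ _ l _ j hC hC'
    obtain ⟨a1, a2, a3⟩ := h6 p F L L₂ φ n V hV
    obtain ⟨b1, b2, b3⟩ := h6 p F L L₂ φ n' V' hV'
    obtain ⟨f1, f2, f3⟩ := (hU L₂ n (BKS.ext (φ : L →+* L₂) V) (B.map φ) a1 (a2 c B hB)).2.2 n'
      (BKS.ext (φ : L →+* L₂) V') (B'.map φ) b1 (b2 c B' hB') T N hM κ l j (a3 κ l hC)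
      (b3 κ l hC')
    obtain ⟨g1, g2⟩ := h4 p F L L₂ φ n V f1
    obtain ⟨g1', g2'⟩ := h4 p F L L₂ φ n' V' f2
    refine ⟨g1, g1', fun v => ?_⟩
    rw [g2, g2', ← (h5 p F L L₂ φ n V v).2.2, ← (h5 p F L L₂ φ n' V' v).2.2]
    exact f3 v
  refine ⟨c3, c4, fun hcg hpt => ?_⟩
  obtain ⟨L₂, _, _, _, φ, T, N, hM⟩ := c3 hcg
  have i1 : ∀ k : Empty, Fact (Nat.Prime ((fun k : Empty => (k.elim : ℕ)) k)) := fun k => k.elim
  obtain ⟨e1, e2, e3⟩ := c4 L₂ φ T N hM Empty (fun k => k.elim) (fun k => k.elim)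
    (covers_empty fun l _ hl hn => (hpt l hl hn).1) (covers_empty fun l _ hl hn => (hpt l hl hn).2)
  refine ⟨e1, e2, fun v => ?_⟩
  have e4 := e3 v
  rw [Finset.univ_eq_empty, Finset.sum_empty] at e4
  omega

end BKT
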