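import Pool.Agent.Lib.MP_7c08ba_nt.T1.StV

set_option autoImplicit false

/-!
Module RES: the algebraic closure of the residue field, and finite extensions of `L` with given
residue elements and a square root of the uniformizer.
-/

noncomputable section

namespace BKT

open BKMet

namespace VRES

open Polynomial

variable (p : ℕ) [Fact p.Prime]

/-- homomorphisms of algebraic extensions of `ℚ_p` preserve the norm -/
theorem iso {A B : Type} [NormedField A] [NormedAlgebra ℚ_[p] A] [Algebra.IsAlgebraic ℚ_[p] A]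
    [NormedField B] [NormedAlgebra ℚ_[p] B] [Algebra.IsAlgebraic ℚ_[p] B] (φ : A →ₐ[ℚ_[p]] B)
    (x : A) : ‖φ x‖ = ‖x‖ := by
  rw [NormedAlgebra.norm_eq_spectralNorm ℚ_[p] x, NormedAlgebra.norm_eq_spectralNorm ℚ_[p] (φ x),
    spectralNorm, spectralNorm, minpoly.algHom_eq φ φ.injective x]

/-- the map of the rings of integers -/
def mapO {A B : Type} [NormedField A] [NormedAlgebra ℚ_[p] A] [NormedField B]
    [NormedAlgebra ℚ_[p] B] (φ : A →+* B) (h : ∀ x, ‖φ x‖ = ‖x‖) : OO p A →+* OO p B :=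
  φ.restrict (OO p A) (OO p B) fun x hx => by
    rw [mem_OO] at hx ⊢
    rw [h]
    exact hx

theorem mapO_coe {A B : Type} [NormedField A] [NormedAlgebra ℚ_[p] A] [NormedField B]
    [NormedAlgebra ℚ_[p] B] (φ : A →+* B) (h : ∀ x, ‖φ x‖ = ‖x‖) (x : OO p A) :
    ((mapO p φ h x : OO p B) : B) = φ x := rfl

/-- the residue field of `PadicAlgCl p` -/
abbrev KK : Type := IsLocalRing.ResidueField (OO p (PadicAlgCl p))

/-- an element of `PadicAlgCl p` which is integral over the ring of integers is in it -/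
theorem integral_mem (f : (OO p (PadicAlgCl p))[X]) (hf : f.Monic) (x : PadicAlgCl p)
    (hx : f.eval₂ (OO p (PadicAlgCl p)).subtype x = 0) : ‖x‖ ≤ 1 := by
  by_contra hcon
  rw [not_le] at hcon
  set n := f.natDegree with hn
  have h1 : x ^ n = - ∑ i ∈ Finset.range n, ((f.coeff i : OO p (PadicAlgCl p)) : PadicAlgCl p) *
      x ^ i := by
    have h2 := hx
    rw [eval₂_eq_sum_range, Finset.sum_range_succ, ← hn, hn, hf.coeff_natDegree, map_one,
      one_mul] at h2
    rw [eq_neg_iff_add_eq_zero, add_comm]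
    exact h2
  rcases Nat.eq_zero_or_pos n with h0 | h0
  · rw [h0] at h1
    simp at h1
  · have hu : IsUltrametricDist (PadicAlgCl p) := inferInstance
    have h2 : ‖x ^ n‖ ≤ ‖x‖ ^ (n - 1) := by
      rw [h1, norm_neg]
      refine IsUltrametricDist.norm_sum_le_of_forall_le_of_nonneg (by positivity) ?_
      intro i hi
      rw [Finset.mem_range] at hi
      rw [norm_mul, norm_pow]
      have h3 : ‖((f.coeff i : OO p (PadicAlgCl p)) : PadicAlgCl p)‖ ≤ 1 := OO.norm_le _
      calc ‖((f.coeff i : OO p (PadicAlgCl p)) : PadicAlgCl p)‖ * ‖x‖ ^ i ≤ 1 * ‖x‖ ^ i :=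
            mul_le_mul_of_nonneg_right h3 (by positivity)
        _ = ‖x‖ ^ i := one_mul _
        _ ≤ ‖x‖ ^ (n - 1) := pow_le_pow_right₀ hcon.le (by omega)
    rw [norm_pow] at h2
    have h3 : ‖x‖ ^ (n - 1) < ‖x‖ ^ n := pow_lt_pow_right₀ hcon (by omega)
    exact absurd h2 (not_le.2 h3)

instance instAlg : IsAlgClosed (KK p) := by
  refine IsAlgClosed.of_exists_root _ ?_
  intro g hg hirr
  have hsurj : Function.Surjective (IsLocalRing.residue (OO p (PadicAlgCl p))) :=
    IsLocalRing.residue_surjective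
  have h1 : g ∈ lifts (IsLocalRing.residue (OO p (PadicAlgCl p))) :=
    (mem_lifts _).2 (map_surjective _ hsurj g)
  obtain ⟨f, hf1, hf2, hf3⟩ := lifts_and_natDegree_eq_and_monic h1 hg
  have hdeg : 0 < g.natDegree := hirr.natDegree_pos
  have h2 : (f.map (OO p (PadicAlgCl p)).subtype).degree ≠ 0 := by
    intro h0
    rw [hf3.degree_map] at h0
    rw [← natDegree_eq_zero_iff_degree_le_zero.2 h0.le, hf2] at hdeg
    omega
  obtain ⟨x, hx⟩ := IsAlgClosed.exists_root _ h2
  have hx' : f.eval₂ (OO p (PadicAlgCl p)).subtype x = 0 := by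
    rw [← eval_map]
    exact hx
  have hx1 := integral_mem p f hf3 x hx'
  set y : OO p (PadicAlgCl p) := ⟨x, hx1⟩ with hy
  have h3 : f.eval y = 0 := by
    have h4 : ((f.eval y : OO p (PadicAlgCl p)) : PadicAlgCl p) = 0 := by
      exact (eval₂_at_apply (p := f) (OO p (PadicAlgCl p)).subtype y).symm.trans hx'
    exact Subtype.ext h4
  refine ⟨IsLocalRing.residue _ y, ?_⟩
  rw [← hf1, eval_map, eval₂_at_apply]
  exact (congrArg _ h3).trans (map_zero _)

end VRES

open VRES in
theorem stRes (_h : StIsm) : StRes := by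
  intro p _ L _ _ _
  set C := PadicAlgCl p with hC
  let φ₀ : L →ₐ[ℚ_[p]] C := IsAlgClosed.lift
  have hφ₀ : ∀ x, ‖(φ₀ : L →+* C) x‖ = ‖x‖ := fun x => iso p φ₀ x
  refine ⟨KK p, inferInstance, inferInstance, inferInstance,
    (IsLocalRing.residue (OO p C)).comp (mapO p (φ₀ : L →+* C) hφ₀), ?_, ?_⟩
  · intro x
    rw [RingHom.comp_apply, IsLocalRing.residue_eq_zero_iff, OO.mem_max, mapO_coe, hφ₀]
  · intro E hE
    have hsurj : Function.Surjective (IsLocalRing.residue (OO p C)) :=
      IsLocalRing.residue_surjective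
    obtain ⟨w, hw⟩ := IsAlgClosed.exists_pow_nat_eq (φ₀ ((pi0 p L : OO p L) : L)) (n := 2)
      (by norm_num)
    let S : Set C := insert w ((fun e : KK p => (((Function.surjInv hsurj e : OO p C)) : C)) '' E)
    have hS : S.Finite := (hE.image _).insert _
    let L₂ : IntermediateField ℚ_[p] C := φ₀.fieldRange ⊔ IntermediateField.adjoin ℚ_[p] S
    have h1 : FiniteDimensional ℚ_[p] φ₀.fieldRange :=
      LinearEquiv.finiteDimensional (AlgEquiv.ofInjectiveField φ₀).toLinearEquiv
    have h2 : FiniteDimensional ℚ_[p] (IntermediateField.adjoin ℚ_[p] S) := by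
      have := hS.to_subtype
      exact IntermediateField.finiteDimensional_adjoin fun x _ => Algebra.IsIntegral.isIntegral x
    have h3 : FiniteDimensional ℚ_[p] L₂ := IntermediateField.finiteDimensional_sup _ _
    have hφ : ∀ x, φ₀ x ∈ L₂ := fun x =>
      (le_sup_left : φ₀.fieldRange ≤ L₂) ⟨x, rfl⟩
    have hSm : ∀ x ∈ S, x ∈ L₂ := fun x hx =>
      (le_sup_right : IntermediateField.adjoin ℚ_[p] S ≤ L₂)
        (IntermediateField.subset_adjoin _ _ hx)
    let φ : L →ₐ[ℚ_[p]] L₂ := φ₀.codRestrict L₂.toSubalgebra hφ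
    have hφc : ∀ x, ((φ x : L₂) : C) = φ₀ x := fun x => rfl
    have hv : ∀ x : L₂, ‖(L₂.val : L₂ →+* C) x‖ = ‖x‖ := fun x => rfl
    refine ⟨L₂, inferInstance, inferInstance, h3, φ, ⟨w, hSm w (Set.mem_insert _ _)⟩,
      (IsLocalRing.residue (OO p C)).comp (mapO p (L₂.val : L₂ →+* C) hv), ?_, ?_, ?_, ?_⟩
    · apply Subtype.ext
      exact hw
    · intro x
      rw [RingHom.comp_apply, IsLocalRing.residue_eq_zero_iff, OO.mem_max, mapO_coe, hv]
    · intro x y hxy
      rw [RingHom.comp_apply, RingHom.comp_apply]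
      congr 1
      apply Subtype.ext
      rw [mapO_coe, mapO_coe]
      change ((y : L₂) : C) = φ₀ x
      rw [hxy]
      exact hφc _
    · intro e he
      have h4 : ((Function.surjInv hsurj e : OO p C) : C) ∈ L₂ :=
        hSm _ (Set.mem_insert_of_mem _ ⟨e, he, rfl⟩)
      refine ⟨⟨⟨_, h4⟩, (Function.surjInv hsurj e).2⟩, ?_⟩
      rw [RingHom.comp_apply]
      exact Function.surjInv_eq hsurj e

end BKT
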