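import Pool.Agent.Lib.MP_7c08ba_nt.T1.StV
import Pool.Agent.Lib.MP_7c08ba_nt.Met.LLV

set_option autoImplicit false

/-!
Parity for congruent representations, module TAU: the reduction as a representation over `K`.
-/

noncomputable section

namespace BKT

open NumberField BKGen BKMet
open Matrix

namespace VTAU

variable {p : ℕ} [Fact p.Prime] {L : Type} [NormedField L] [NormedAlgebra ℚ_[p] L]
  [FiniteDimensional ℚ_[p] L] {n : ℕ}

/-- the entries of the diagonal matrix `dgm e a` -/
def dd (e : Fin n → (OO p L)ˣ) (a : Fin n → Bool) (i : Fin n) : OO p L :=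
  ((e i : (OO p L)ˣ) : OO p L) * (if a i then pi0 p L else 1)

theorem dd_false (e : Fin n → (OO p L)ˣ) (a : Fin n → Bool) {i : Fin n} (h : a i = false) :
    dd e a i = ((e i : (OO p L)ˣ) : OO p L) := by
  rw [dd, h, if_neg (by simp), mul_one]

theorem dd_true (e : Fin n → (OO p L)ˣ) (a : Fin n → Bool) {i : Fin n} (h : a i = true) :
    dd e a i = ((e i : (OO p L)ˣ) : OO p L) * pi0 p L := by
  rw [dd, h, if_pos rfl]

theorem dgm_eq (e : Fin n → (OO p L)ˣ) (a : Fin n → Bool) :
    (Matrix.diagonal (dd e a)).map (OO p L).subtype = dgm e a := by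
  rw [Matrix.diagonal_map (map_zero _)]
  congr 1
  funext i
  simp only [dd]
  cases a i <;> simp

theorem key {G : Type} [Group G] {V : G →* GL (Fin n) L} {B S : GL (Fin n) L}
    {ρ : G →* GL (Fin n) (OO p L)} {e : Fin n → (OO p L)ˣ} {a : Fin n → Bool}
    (hN : Nrm V B S ρ e a) (c : G →* G) (χ : G →* ℤ_[p]ˣ)
    (hD : IsDual χ V (V.comp c) (B : Matrix (Fin n) (Fin n) L)) (g : G) (y : OO p L)
    (hy : (y : L) = BKOdd.chL χ L g) :
    (ρ g : Matrix (Fin n) (Fin n) (OO p L))ᵀ * Matrix.diagonal (dd e a) *
      (ρ (c g) : Matrix (Fin n) (Fin n) (OO p L)) = y • Matrix.diagonal (dd e a) := by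
  apply Matrix.map_injective (f := (OO p L).subtype) Subtype.val_injective
  have h1 : ∀ g, (ρ g : Matrix (Fin n) (Fin n) (OO p L)).map (OO p L).subtype =
      (S : Matrix (Fin n) (Fin n) L) * (V g : Matrix (Fin n) (Fin n) L) *
        ((S⁻¹ : GL (Fin n) L) : Matrix (Fin n) (Fin n) L) := fun g => by
    have := congrArg Units.val (hN.int g)
    rw [Units.val_mul, Units.val_mul] at this
    exact this
  have h2 : (S : Matrix (Fin n) (Fin n) L) * ((S⁻¹ : GL (Fin n) L) : Matrix (Fin n) (Fin n) L) =
      1 := Units.mul_inv S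
  have h3 := hN.form
  have h4 := hD g
  set A : Matrix (Fin n) (Fin n) L := (S : Matrix (Fin n) (Fin n) L)
  set Ai : Matrix (Fin n) (Fin n) L := ((S⁻¹ : GL (Fin n) L) : Matrix (Fin n) (Fin n) L)
  have h5 : Aiᵀ * Aᵀ = 1 := by
    rw [← Matrix.transpose_mul, h2, Matrix.transpose_one]
  have h6 : (y • Matrix.diagonal (dd e a)).map (OO p L).subtype = (y : L) • dgm e a := by
    rw [← dgm_eq]
    ext i j
    rfl
  change (_ * _ * _ : Matrix (Fin n) (Fin n) (OO p L)).map (OO p L).subtype =
    (y • Matrix.diagonal (dd e a)).map (OO p L).subtype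
  rw [h6, hy, Matrix.map_mul, Matrix.map_mul, dgm_eq, Matrix.transpose_map, h1, h1,
    Matrix.transpose_mul, Matrix.transpose_mul]
  calc Aiᵀ * ((V g : Matrix (Fin n) (Fin n) L)ᵀ * Aᵀ) * dgm e a *
        (A * (V (c g) : Matrix (Fin n) (Fin n) L) * Ai)
      = Aiᵀ * ((V g : Matrix (Fin n) (Fin n) L)ᵀ * (Aᵀ * dgm e a * A) *
        (V (c g) : Matrix (Fin n) (Fin n) L)) * Ai := by
        simp only [Matrix.mul_assoc]
    _ = Aiᵀ * (BKOdd.chL χ L g • (B : Matrix (Fin n) (Fin n) L)) * Ai := by
        rw [h3]
        exact congrArg (fun M => Aiᵀ * M * Ai) h4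
    _ = BKOdd.chL χ L g • ((Aiᵀ * Aᵀ) * dgm e a * (A * Ai)) := by
        rw [← h3, Matrix.mul_smul, Matrix.smul_mul]
        simp only [Matrix.mul_assoc]
    _ = BKOdd.chL χ L g • dgm e a := by rw [h5, h2, Matrix.one_mul, Matrix.mul_one]

theorem dvd_entry {G : Type} [Group G] {V : G →* GL (Fin n) L} {B S : GL (Fin n) L}
    {ρ : G →* GL (Fin n) (OO p L)} {e : Fin n → (OO p L)ˣ} {a : Fin n → Bool}
    (hN : Nrm V B S ρ e a) (c : G →* G) (χ : G →* ℤ_[p]ˣ)
    (hD : IsDual χ V (V.comp c) (B : Matrix (Fin n) (Fin n) L)) (g : G) (i j : Fin n)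
    (hi : a i = false) (hj : a j = true) :
    pi0 p L ∣ (ρ g : Matrix (Fin n) (Fin n) (OO p L)) i j := by
  obtain ⟨y, hy⟩ : ∃ y : OO p L, (y : L) = BKOdd.chL χ L g :=
    ⟨⟨BKOdd.chL χ L g, LLV.norm_chL_le χ g⟩, rfl⟩
  have h := key hN c χ hD g y hy
  have h1 : (ρ (c g) : Matrix (Fin n) (Fin n) (OO p L)) *
      (((ρ (c g))⁻¹ : GL (Fin n) (OO p L)) : Matrix (Fin n) (Fin n) (OO p L)) = 1 :=
    Units.mul_inv _
  have h2 : (ρ g : Matrix (Fin n) (Fin n) (OO p L))ᵀ * Matrix.diagonal (dd e a) =
      y • Matrix.diagonal (dd e a) *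
      (((ρ (c g))⁻¹ : GL (Fin n) (OO p L)) : Matrix (Fin n) (Fin n) (OO p L)) := by
    rw [← h, Matrix.mul_assoc _ (ρ (c g) : Matrix (Fin n) (Fin n) (OO p L)) _, h1,
      Matrix.mul_one]
  have h3 := congrFun (congrFun h2 j) i
  rw [Matrix.mul_diagonal, Matrix.transpose_apply, Matrix.smul_mul, Matrix.smul_apply,
    Matrix.diagonal_mul, dd_false e a hi, dd_true e a hj, smul_eq_mul] at h3
  have h4 : (ρ g : Matrix (Fin n) (Fin n) (OO p L)) i j = pi0 p L * (y *
      ((e j : (OO p L)ˣ) : OO p L) *
      (((ρ (c g))⁻¹ : GL (Fin n) (OO p L)) : Matrix (Fin n) (Fin n) (OO p L)) j i *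
      (((e i)⁻¹ : (OO p L)ˣ) : OO p L)) := by
    have h5 : ((e i : (OO p L)ˣ) : OO p L) * (((e i)⁻¹ : (OO p L)ˣ) : OO p L) = 1 :=
      Units.mul_inv _
    calc (ρ g : Matrix (Fin n) (Fin n) (OO p L)) i j
        = (ρ g : Matrix (Fin n) (Fin n) (OO p L)) i j * (((e i : (OO p L)ˣ) : OO p L) *
          (((e i)⁻¹ : (OO p L)ˣ) : OO p L)) := by rw [h5, mul_one]
      _ = _ := by
          rw [← mul_assoc, h3]
          ring
  exact ⟨_, h4⟩

theorem charpoly_btm {K : Type} [Field K] (M : Matrix (Fin n) (Fin n) K) (a : Fin n → Bool)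
    (h : ∀ i j, a i = false → a j = true → M i j = 0) :
    (Matrix.of fun i j => if a i = a j then M i j else 0 : Matrix (Fin n) (Fin n) K).charpoly =
      M.charpoly := by
  have h1 : M.BlockTriangular fun i => !(a i) := by
    intro i j hij
    change (!(a j)) < (!(a i)) at hij
    refine h i j ?_ ?_
    · cases hi : a i
      · rfl
      · rw [hi] at hij
        exact absurd hij (by cases a j <;> decide)
    · cases hj : a j
      · rw [hj] at hij
        exact absurd hij (by cases a i <;> decide)
      · rfl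
  have h2 : (Matrix.of fun i j => if a i = a j then M i j else 0 :
      Matrix (Fin n) (Fin n) K).BlockTriangular fun i => !(a i) := by
    intro i j hij
    change (!(a j)) < (!(a i)) at hij
    rw [Matrix.of_apply, if_neg]
    intro h3
    rw [h3] at hij
    exact lt_irrefl _ hij
  rw [h1.charpoly, h2.charpoly]
  refine Finset.prod_congr rfl fun b _ => ?_
  congr 1
  ext i j
  rw [Matrix.toSquareBlock_def, Matrix.toSquareBlock_def, Matrix.of_apply, Matrix.of_apply,
    Matrix.of_apply, if_pos]
  have := i.2.trans j.2.symm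
  simpa using this

end VTAU

open VTAU in
/-- Module TAU. -/
theorem stTau : StTau := by
  intro p _ L _ _ _ K _ r hr G _ n V B S ρ e a hN c χ hD
  have hpi : r (pi0 p L) = 0 := (hr _).2 (pi0_lt p L)
  have hdv : ∀ x : OO p L, pi0 p L ∣ x → r x = 0 := by
    rintro x ⟨y, rfl⟩
    rw [map_mul, hpi, zero_mul]
  have h0 := dvd_entry hN c χ hD
  have h1 : ∀ g i j, a i = false → a j = true →
      r ((ρ g : Matrix (Fin n) (Fin n) (OO p L)) i j) = 0 := fun g i j hi hj =>
    hdv _ (h0 g i j hi hj)
  have hb : ∀ g i j, a i = a j → btm r ρ a g i j =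
      r ((ρ g : Matrix (Fin n) (Fin n) (OO p L)) i j) := fun g i j h => if_pos h
  have hb' : ∀ g i j, a i ≠ a j → btm r ρ a g i j = 0 := fun g i j h => if_neg h
  let τ₀ : G →* Matrix (Fin n) (Fin n) K :=
    { toFun := btm r ρ a
      map_one' := by
        ext i j
        by_cases hij : i = j
        · subst hij
          rw [hb 1 i i rfl, map_one, Units.val_one, Matrix.one_apply_eq, Matrix.one_apply_eq,
            map_one]
        · rw [Matrix.one_apply_ne hij]
          by_cases h : a i = a j
          · rw [hb 1 i j h, map_one, Units.val_one, Matrix.one_apply_ne hij, map_zero]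
          · exact hb' 1 i j h
      map_mul' := by
        intro g g'
        ext i j
        rw [Matrix.mul_apply]
        by_cases h : a i = a j
        · rw [hb _ i j h, map_mul, Units.val_mul, Matrix.mul_apply, map_sum]
          refine Finset.sum_congr rfl fun k _ => ?_
          rw [map_mul]
          by_cases hk : a i = a k
          · rw [hb g i k hk, hb g' k j (hk.symm.trans h)]
          · rw [hb' g i k hk, zero_mul]
            cases hi : a i
            · have hk' : a k = true := by
                cases h' : a k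
                · exact absurd (hi.trans h'.symm) hk
                · rfl
              rw [h1 g i k hi hk', zero_mul]
            · have hk' : a k = false := by
                cases h' : a k
                · rfl
                · exact absurd (hi.trans h'.symm) hk
              rw [h1 g' k j hk' (h.symm.trans hi), mul_zero]
        · rw [hb' _ i j h]
          symm
          refine Finset.sum_eq_zero fun k _ => ?_
          by_cases hk : a i = a k
          · rw [hb' g' k j (fun h' => h (hk.trans h')), mul_zero]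
          · rw [hb' g i k hk, zero_mul] }
  refine ⟨h1, τ₀.toHomUnits, fun g => rfl, fun g y hy => ?_, fun g => ?_⟩
  · have hk := key hN c χ hD g y hy
    change (btm r ρ a g)ᵀ * _ * btm r ρ a (c g) = _
    ext i j
    have hk' := congrFun (congrFun hk i) j
    rw [Matrix.mul_apply] at hk' ⊢
    simp only [Matrix.mul_diagonal, Matrix.transpose_apply, Matrix.smul_apply, smul_eq_mul]
      at hk' ⊢
    by_cases h : a i = a j
    · cases hi : a i
      · -- the block false
        have hj : a j = false := h.symm.trans hi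
        have hk2 := congrArg r hk'
        rw [map_sum, map_mul] at hk2
        have e1 : r (Matrix.diagonal (dd e a) i j) =
            Matrix.diagonal (fun i => r ((e i : (OO p L)ˣ) : OO p L)) i j := by
          by_cases hij : i = j
          · subst hij
            rw [Matrix.diagonal_apply_eq, Matrix.diagonal_apply_eq, dd_false e a hi]
          · rw [Matrix.diagonal_apply_ne _ hij, Matrix.diagonal_apply_ne _ hij, map_zero]
        rw [← e1, ← hk2]
        refine Finset.sum_congr rfl fun k _ => ?_
        rw [map_mul, map_mul]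
        cases hk3 : a k
        · rw [hb g k i (hk3.trans hi.symm), hb (c g) k j (hk3.trans hj.symm),
            dd_false e a hk3]
        · rw [hb' g k i (by rw [hk3, hi]; decide), dd_true e a hk3, map_mul, hpi]
          ring
      · -- the block true
        have hj : a j = true := h.symm.trans hi
        have hq : ∀ k, ∃ q : OO p L, (ρ g : Matrix (Fin n) (Fin n) (OO p L)) k i * dd e a k *
            (ρ (c g) : Matrix (Fin n) (Fin n) (OO p L)) k j = pi0 p L * q ∧
            r q = btm r ρ a g k i * r ((e k : (OO p L)ˣ) : OO p L) * btm r ρ a (c g) k j := by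
          intro k
          cases hk3 : a k
          · obtain ⟨u, hu⟩ := h0 g k i hk3 hi
            obtain ⟨v, hv⟩ := h0 (c g) k j hk3 hj
            refine ⟨pi0 p L * (u * ((e k : (OO p L)ˣ) : OO p L) * v), ?_, ?_⟩
            · rw [hu, hv, dd_false e a hk3]
              ring
            · rw [hb' g k i (by rw [hk3, hi]; decide), map_mul, hpi]
              ring
          · refine ⟨(ρ g : Matrix (Fin n) (Fin n) (OO p L)) k i *
              ((e k : (OO p L)ˣ) : OO p L) *
              (ρ (c g) : Matrix (Fin n) (Fin n) (OO p L)) k j, ?_, ?_⟩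
            · rw [dd_true e a hk3]
              ring
            · rw [map_mul, map_mul, hb g k i (hk3.trans hi.symm),
                hb (c g) k j (hk3.trans hj.symm)]
        choose q hq1 hq2 using hq
        have e2 : Matrix.diagonal (dd e a) i j = pi0 p L *
            Matrix.diagonal (fun i => ((e i : (OO p L)ˣ) : OO p L)) i j := by
          by_cases hij : i = j
          · subst hij
            rw [Matrix.diagonal_apply_eq, Matrix.diagonal_apply_eq, dd_true e a hi, mul_comm]
          · rw [Matrix.diagonal_apply_ne _ hij, Matrix.diagonal_apply_ne _ hij, mul_zero]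
        have e3 : ∑ k, q k = y *
            Matrix.diagonal (fun i => ((e i : (OO p L)ˣ) : OO p L)) i j := by
          apply mul_left_cancel₀ (pi0_ne' p L)
          rw [Finset.mul_sum, ← Finset.sum_congr rfl fun k _ => hq1 k, hk', e2]
          ring
        have e4 := congrArg r e3
        rw [map_sum, map_mul, Finset.sum_congr rfl fun k _ => hq2 k] at e4
        rw [e4]
        congr 1
        by_cases hij : i = j
        · subst hij
          rw [Matrix.diagonal_apply_eq, Matrix.diagonal_apply_eq]
        · rw [Matrix.diagonal_apply_ne _ hij, Matrix.diagonal_apply_ne _ hij, map_zero]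
    · have hij : i ≠ j := fun h' => h (by rw [h'])
      rw [Matrix.diagonal_apply_ne _ hij, mul_zero]
      refine Finset.sum_eq_zero fun k _ => ?_
      by_cases hk3 : a k = a i
      · rw [hb' (c g) k j (fun h' => h (hk3.symm.trans h')), mul_zero]
      · rw [hb' g k i hk3, zero_mul, zero_mul]
  · have e1 := charpoly_btm ((ρ g : Matrix (Fin n) (Fin n) (OO p L)).map r) a
      (fun i j hi hj => h1 g i j hi hj)
    rw [Matrix.charpoly_map] at e1
    rw [← e1]
    rfl

end BKT
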