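import Pool.Agent.Lib.MP_7c08ba_nt.T1.StV

set_option autoImplicit false

/-!
Parity for congruent representations: module WIT, two representations with forms and with the same
characteristic polynomials.
-/

noncomputable section

namespace BKT

open Matrix

namespace VWIT

section Rep

variable {K : Type} [Field K] {G : Type} [Group G] {n : ℕ}

/-- the representation as a module over the group algebra -/
def RM (_ : G →* GL (Fin n) K) : Type := Fin n → K

variable (τ : G →* GL (Fin n) K)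

instance : AddCommGroup (RM τ) := inferInstanceAs (AddCommGroup (Fin n → K))

instance : Module K (RM τ) := inferInstanceAs (Module K (Fin n → K))

instance : FiniteDimensional K (RM τ) := inferInstanceAs (FiniteDimensional K (Fin n → K))

/-- the underlying vector -/
def un : RM τ ≃ₗ[K] (Fin n → K) := LinearEquiv.refl K (Fin n → K)

/-- the action of the group -/
def hom : G →* Module.End K (RM τ) where
  toFun g := ((un τ).symm.toLinearMap ∘ₗ
    Matrix.toLin' (τ g : Matrix (Fin n) (Fin n) K)) ∘ₗ (un τ).toLinearMap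
  map_one' := by
    refine LinearMap.ext fun v => ?_
    change (un τ).symm (Matrix.toLin' ((τ 1 : GL (Fin n) K) : Matrix (Fin n) (Fin n) K)
      (un τ v)) = v
    rw [map_one, Units.val_one, Matrix.toLin'_one]
    exact (un τ).symm_apply_apply v
  map_mul' g h := by
    refine LinearMap.ext fun v => ?_
    change (un τ).symm (Matrix.toLin' ((τ (g * h) : GL (Fin n) K) : Matrix (Fin n) (Fin n) K)
      (un τ v)) = (un τ).symm (Matrix.toLin' (τ g : Matrix (Fin n) (Fin n) K)
        (un τ ((un τ).symm (Matrix.toLin' (τ h : Matrix (Fin n) (Fin n) K) (un τ v)))))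
    rw [map_mul, Units.val_mul, Matrix.toLin'_mul, LinearEquiv.apply_symm_apply]
    rfl

theorem hom_apply (g : G) (v : RM τ) :
    un τ (hom τ g v) = (τ g : Matrix (Fin n) (Fin n) K) *ᵥ (un τ v) := by
  change un τ ((un τ).symm (Matrix.toLin' _ (un τ v))) = _
  rw [LinearEquiv.apply_symm_apply, Matrix.toLin'_apply]

/-- the action of the group algebra -/
def ahom : MonoidAlgebra K G →ₐ[K] Module.End K (RM τ) :=
  MonoidAlgebra.lift K (Module.End K (RM τ)) G (hom τ)

instance : Module (MonoidAlgebra K G) (RM τ) := Module.compHom (RM τ) (ahom τ).toRingHom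

theorem smul_def (r : MonoidAlgebra K G) (v : RM τ) : r • v = ahom τ r v := rfl

instance : IsScalarTower K (MonoidAlgebra K G) (RM τ) where
  smul_assoc a r v := by
    rw [smul_def, smul_def, map_smul]
    rfl

theorem of_smul (g : G) (v : RM τ) : un τ (MonoidAlgebra.of K G g • v) =
    (τ g : Matrix (Fin n) (Fin n) K) *ᵥ (un τ v) := by
  rw [smul_def, ahom, MonoidAlgebra.lift_of, hom_apply]

theorem gch_eq (g : G) : gch K (RM τ) g = (τ g : Matrix (Fin n) (Fin n) K).charpoly := by
  have h : ga K (RM τ) (MonoidAlgebra.of K G g) =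
      (un τ).symm.conj (Matrix.toLin' (τ g : Matrix (Fin n) (Fin n) K)) := by
    refine LinearMap.ext fun v => (un τ).injective ?_
    change un τ (MonoidAlgebra.of K G g • v) = _
    rw [of_smul, LinearEquiv.conj_apply_apply, LinearEquiv.symm_symm,
      LinearEquiv.apply_symm_apply, Matrix.toLin'_apply]
  unfold gch
  rw [h, LinearEquiv.charpoly_conj, Matrix.charpoly_toLin']

end Rep

section Form

variable {K : Type} [Field K] {G : Type} [Group G] {n n' : ℕ} (τ : G →* GL (Fin n) K)
  (τ' : G →* GL (Fin n') K) (D : Matrix (Fin n) (Fin n) K) (D' : Matrix (Fin n') (Fin n') K)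

/-- the form -/
def frm : (RM τ × RM τ') →ₗ[K] (RM τ × RM τ') →ₗ[K] K :=
  LinearMap.mk₂ K
    (fun x y => un τ x.1 ⬝ᵥ (D *ᵥ un τ y.1) - un τ' x.2 ⬝ᵥ (D' *ᵥ un τ' y.2))
    (fun x x' y => by
      rw [Prod.fst_add, Prod.snd_add, map_add, map_add, add_dotProduct, add_dotProduct]
      ring)
    (fun a x y => by
      rw [Prod.smul_fst, Prod.smul_snd, map_smul, map_smul, smul_dotProduct, smul_dotProduct,
        smul_sub])
    (fun x y y' => by
      rw [Prod.fst_add, Prod.snd_add, map_add, map_add, mulVec_add, mulVec_add, dotProduct_add,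
        dotProduct_add]
      ring)
    (fun a x y => by
      rw [Prod.smul_fst, Prod.smul_snd, map_smul, map_smul, mulVec_smul, mulVec_smul,
        dotProduct_smul, dotProduct_smul, smul_sub])

theorem frm_apply (x y : RM τ × RM τ') : frm τ τ' D D' x y =
    un τ x.1 ⬝ᵥ (D *ᵥ un τ y.1) - un τ' x.2 ⬝ᵥ (D' *ᵥ un τ' y.2) := rfl

variable {τ τ' D D'}

theorem dot_symm {m : ℕ} {E : Matrix (Fin m) (Fin m) K} (hE : Eᵀ = E) (x y : Fin m → K) :
    x ⬝ᵥ (E *ᵥ y) = y ⬝ᵥ (E *ᵥ x) := by
  rw [dotProduct_mulVec, ← mulVec_transpose, hE, dotProduct_comm]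

theorem dot_perf {m : ℕ} {E : Matrix (Fin m) (Fin m) K} (hu : IsUnit E.det)
    (x : Fin m → K) (h : ∀ y, x ⬝ᵥ (E *ᵥ y) = 0) : x = 0 := by
  have h1 : ∀ z, x ⬝ᵥ z = 0 := by
    intro z
    have h2 := h (E⁻¹ *ᵥ z)
    rwa [mulVec_mulVec, mul_nonsing_inv E hu, one_mulVec] at h2
  exact dotProduct_eq_zero x h1

theorem dot_adj {m : ℕ} {E : Matrix (Fin m) (Fin m) K} {M M' : GL (Fin m) K} {a : K}
    (h : (M : Matrix (Fin m) (Fin m) K)ᵀ * E * (M' : Matrix (Fin m) (Fin m) K) = a • E)
    (x y : Fin m → K) :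
    ((M : Matrix (Fin m) (Fin m) K) *ᵥ x) ⬝ᵥ (E *ᵥ y) =
      x ⬝ᵥ (E *ᵥ (a • (((M'⁻¹ : GL (Fin m) K) : Matrix (Fin m) (Fin m) K) *ᵥ y))) := by
  have h1 : (M : Matrix (Fin m) (Fin m) K)ᵀ * E =
      a • (E * ((M'⁻¹ : GL (Fin m) K) : Matrix (Fin m) (Fin m) K)) := by
    rw [← Matrix.smul_mul, ← h, Matrix.mul_assoc, Units.mul_inv, Matrix.mul_one]
  have h2 : ((M : Matrix (Fin m) (Fin m) K) *ᵥ x) ⬝ᵥ (E *ᵥ y) =
      x ⬝ᵥ (((M : Matrix (Fin m) (Fin m) K)ᵀ * E) *ᵥ y) := by
    rw [← mulVec_mulVec, dotProduct_mulVec x, vecMul_transpose]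
  rw [h2, h1, smul_mulVec, mulVec_smul, mulVec_mulVec]

end Form

end VWIT

open VWIT in
theorem stWit (h1 : StLaga) (h2 : StBnt) (h3 : StMul) : StWit := by
  intro p _ hp K _ _ _ G _ c hc x hx n n' τ τ' D D' hD hD' hu hu' hτ hτ' hch
  have h2K : (2 : K) ≠ 0 := by
    intro h
    have h4 : ((2 : ℕ) : K) = 0 := by exact_mod_cast h
    rw [CharP.cast_eq_zero_iff K p] at h4
    exact hp ((Nat.prime_dvd_prime_iff_eq Fact.out Nat.prime_two).1 h4)
  -- the adjoints
  have hs : ∀ r : MonoidAlgebra K G, ∃ r' : MonoidAlgebra K G, ∀ y z : RM τ × RM τ',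
      frm τ τ' D D' (r • y) z = frm τ τ' D D' y (r' • z) := by
    intro r
    induction r using MonoidAlgebra.induction_on with
    | of g =>
      refine ⟨x g • MonoidAlgebra.of K G (c g)⁻¹, fun y z => ?_⟩
      rw [frm_apply, frm_apply, smul_assoc, Prod.smul_fst, Prod.smul_snd, Prod.smul_fst,
        Prod.smul_snd, Prod.smul_fst, Prod.smul_snd, (un τ).map_smul, (un τ').map_smul, of_smul,
        of_smul, of_smul, of_smul, dot_adj (hτ g), dot_adj (hτ' g), map_inv, map_inv]
    | add r₁ r₂ e₁ e₂ =>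
      obtain ⟨s₁, e₁⟩ := e₁
      obtain ⟨s₂, e₂⟩ := e₂
      refine ⟨s₁ + s₂, fun y z => ?_⟩
      rw [add_smul, map_add, LinearMap.add_apply, e₁, e₂, add_smul, map_add]
    | smul a r e =>
      obtain ⟨s, e⟩ := e
      refine ⟨a • s, fun y z => ?_⟩
      rw [smul_assoc a r y, smul_assoc a s z, (frm τ τ' D D').map_smul, LinearMap.smul_apply, e,
        (frm τ τ' D D' y).map_smul]
  choose s hs using hs
  have hF : AdF s (frm τ τ' D D') := by
    refine ⟨?_, ?_, hs⟩
    · intro y z
      rw [frm_apply, frm_apply, dot_symm hD, dot_symm hD']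
    · intro y h
      refine Prod.ext ((un τ).injective ?_) ((un τ').injective ?_)
      · rw [Prod.fst_zero, map_zero]
        refine dot_perf hu _ fun z => ?_
        have h4 := h ((un τ).symm z, 0)
        rwa [frm_apply, map_zero, mulVec_zero, dotProduct_zero, sub_zero,
          LinearEquiv.apply_symm_apply] at h4
      · rw [Prod.snd_zero, map_zero]
        refine dot_perf hu' _ fun z => ?_
        have h4 := h (0, (un τ').symm z)
        rwa [frm_apply, map_zero, mulVec_zero, dotProduct_zero, zero_sub, neg_eq_zero,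
          LinearEquiv.apply_symm_apply] at h4
  -- the multiplicities
  have hev : ∀ (S : Type) [AddCommGroup S] [Module K S] [Module (MonoidAlgebra K G) S]
      [IsScalarTower K (MonoidAlgebra K G) S] [FiniteDimensional K S]
      [IsSimpleModule (MonoidAlgebra K G) S] (h : S →ₗ[K] S →ₗ[K] K), AdF s h →
      Even (mlt (MonoidAlgebra K G) (RM τ × RM τ') S) := by
    intro S _ _ _ _ _ _ _ _
    obtain ⟨hadd, hiso, -, -, -⟩ := h3 (MonoidAlgebra K G) S
    have hbn := h2 p K G (RM τ) (RM τ') (fun g => by rw [gch_eq, gch_eq, hch]) S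
    have hfl : IsFiniteLength (MonoidAlgebra K G) (RM τ × RM τ') := by
      rw [isFiniteLength_iff_isNoetherian_isArtinian]
      have e1 : IsNoetherian K (RM τ × RM τ') := inferInstance
      have e2 : IsArtinian K (RM τ × RM τ') := inferInstance
      exact ⟨isNoetherian_of_tower K e1, isArtinian_of_tower K e2⟩
    have e3 := hadd (RM τ × RM τ') hfl
      (LinearMap.range (LinearMap.inl (MonoidAlgebra K G) (RM τ) (RM τ')))
    have e4 := hiso _ _ (LinearEquiv.ofInjective
      (LinearMap.inl (MonoidAlgebra K G) (RM τ) (RM τ')) LinearMap.inl_injective)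
    have e5 := hiso _ _ ((Submodule.quotEquivOfEq _ _
      (LinearMap.range_inl (MonoidAlgebra K G) (RM τ) (RM τ'))).trans
      (LinearMap.quotKerEquivOfSurjective (LinearMap.snd (MonoidAlgebra K G) (RM τ) (RM τ'))
        LinearMap.snd_surjective))
    rw [← e4, e5, ← hbn] at e3
    rw [e3]
    exact ⟨_, rfl⟩
  obtain ⟨P, hP⟩ := h1 K h2K (MonoidAlgebra K G) s (RM τ × RM τ') (frm τ τ' D D') hF hev
  refine ⟨(P.restrictScalars K).map ((un τ).prodCongr (un τ')).toLinearMap, ?_, ?_⟩
  · rintro g - ⟨y, hy, rfl⟩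
    refine ⟨MonoidAlgebra.of K G g • y, P.smul_mem _ hy, ?_⟩
    exact Prod.ext (of_smul τ g y.1) (of_smul τ' g y.2)
  · intro y
    constructor
    · rintro ⟨y, hy, rfl⟩ - ⟨z, hz, rfl⟩
      exact (hP y).1 hy z hz
    · intro h
      refine ⟨((un τ).symm y.1, (un τ').symm y.2), (hP _).2 fun z hz => ?_, ?_⟩
      · have h4 := h _ ⟨z, hz, rfl⟩
        rw [frm_apply, LinearEquiv.apply_symm_apply, LinearEquiv.apply_symm_apply]
        exact h4
      · exact Prod.ext ((un τ).apply_symm_apply _) ((un τ').apply_symm_apply _)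

end BKT
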