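import Pool.Agent.Lib.MP_7c08ba_nt.T1.StV

set_option autoImplicit false

/-!
Module XLT: the lattices over the extension.
-/

noncomputable section

namespace BKT

open NumberField BKGen BKMet
open Matrix

namespace VXLT

/-! ### Linear algebra -/

section Lin

theorem dot_mul {A : Type} [CommRing A] {n : ℕ} (M D : Matrix (Fin n) (Fin n) A) (x y : Fin n → A) :
    (M *ᵥ x) ⬝ᵥ (D *ᵥ (M *ᵥ y)) = x ⬝ᵥ ((Mᵀ * D * M) *ᵥ y) := by
  rw [← Matrix.mulVec_mulVec, ← Matrix.mulVec_mulVec, Matrix.dotProduct_mulVec x,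
    Matrix.vecMul_transpose]

theorem map_dot {A A' : Type} [CommRing A] [CommRing A'] (f : A →+* A') {n : ℕ}
    (E a b : Fin n → A) :
    f (a ⬝ᵥ (Matrix.diagonal E *ᵥ b)) =
      (fun i => f (a i)) ⬝ᵥ (Matrix.diagonal (fun i => f (E i)) *ᵥ fun i => f (b i)) := by
  simp only [dotProduct, Matrix.mulVec_diagonal, map_sum, map_mul]

theorem map_mulVec' {A A' : Type} [CommRing A] [CommRing A'] (f : A →+* A') {n : ℕ}
    (M : Matrix (Fin n) (Fin n) A) (b : Fin n → A) :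
    (fun i => f ((M *ᵥ b) i)) = M.map f *ᵥ fun i => f (b i) := by
  funext i
  simp only [Matrix.mulVec, dotProduct, map_sum, map_mul, Matrix.map_apply]

end Lin

/-! ### The abstract form -/

section Abs

variable {p : ℕ} [Fact p.Prime] {L₂ : Type} [NormedField L₂] [NormedAlgebra ℚ_[p] L₂]
  {K : Type} [Field K] (θ : OO p L₂ →+* K) {G : Type}

/-- coordinates in which the action and the form are integral -/
structure Dat {n : ℕ} (A : G → (Fin n → L₂) → (Fin n → L₂)) (B : Matrix (Fin n) (Fin n) L₂)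
    (bt : G → Matrix (Fin n) (Fin n) K) (ee : Fin n → K) (S : GL (Fin n) L₂)
    (R : G → Matrix (Fin n) (Fin n) (OO p L₂)) (E : Fin n → OO p L₂) : Prop where
  act : ∀ g x, (S : Matrix (Fin n) (Fin n) L₂) *ᵥ A g x =
    (R g).map (OO p L₂).subtype *ᵥ ((S : Matrix (Fin n) (Fin n) L₂) *ᵥ x)
  form : ∀ x y, x ⬝ᵥ (B *ᵥ y) = ((S : Matrix (Fin n) (Fin n) L₂) *ᵥ x) ⬝ᵥ
    (Matrix.diagonal (fun i => (E i : L₂)) *ᵥ ((S : Matrix (Fin n) (Fin n) L₂) *ᵥ y))
  bt : ∀ g, (R g).map θ = bt g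
  eE : ∀ i, θ (E i) = ee i
  nE : ∀ i, ‖(E i : L₂)‖ = 1

variable {n n' : ℕ}

/-- the coordinates -/
def Phi (S : GL (Fin n) L₂) (S' : GL (Fin n') L₂) :
    ((Fin n → L₂) × (Fin n' → L₂)) →+ ((Fin n → L₂) × (Fin n' → L₂)) :=
  AddMonoidHom.prodMap (Matrix.mulVecLin (S : Matrix (Fin n) (Fin n) L₂)).toAddMonoidHom
    (Matrix.mulVecLin (S' : Matrix (Fin n') (Fin n') L₂)).toAddMonoidHom

/-- a ring homomorphism on pairs of vectors -/
def Psi {A A' : Type} [CommRing A] [CommRing A'] (f : A →+* A') (n n' : ℕ) :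
    ((Fin n → A) × (Fin n' → A)) →+ ((Fin n → A') × (Fin n' → A')) :=
  AddMonoidHom.prodMap (f.toAddMonoidHom.compLeft (Fin n)) (f.toAddMonoidHom.compLeft (Fin n'))

theorem Phi_apply (S : GL (Fin n) L₂) (S' : GL (Fin n') L₂) (x : (Fin n → L₂) × (Fin n' → L₂)) :
    Phi S S' x = ((S : Matrix (Fin n) (Fin n) L₂) *ᵥ x.1,
      (S' : Matrix (Fin n') (Fin n') L₂) *ᵥ x.2) := rfl

theorem Psi_apply {A A' : Type} [CommRing A] [CommRing A'] (f : A →+* A')
    (x : (Fin n → A) × (Fin n' → A)) :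
    Psi f n n' x = (fun i => f (x.1 i), fun i => f (x.2 i)) := rfl

theorem inv_mulVec {A : Type} [CommRing A] (S : GL (Fin n) A) (u : Fin n → A) :
    (S : Matrix (Fin n) (Fin n) A) *ᵥ (((S⁻¹ : GL (Fin n) A) : Matrix (Fin n) (Fin n) A) *ᵥ u) =
      u := by
  rw [Matrix.mulVec_mulVec, ← Units.val_mul, mul_inv_cancel, Units.val_one, Matrix.one_mulVec]

theorem inv_mulVec' {A : Type} [CommRing A] (S : GL (Fin n) A) (u : Fin n → A) :
    ((S⁻¹ : GL (Fin n) A) : Matrix (Fin n) (Fin n) A) *ᵥ ((S : Matrix (Fin n) (Fin n) A) *ᵥ u) =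
      u := by
  rw [Matrix.mulVec_mulVec, ← Units.val_mul, inv_mul_cancel, Units.val_one, Matrix.one_mulVec]

theorem Phi_surj (S : GL (Fin n) L₂) (S' : GL (Fin n') L₂) (u : (Fin n → L₂) × (Fin n' → L₂)) :
    ∃ x, Phi S S' x = u :=
  ⟨(((S⁻¹ : GL (Fin n) L₂) : Matrix (Fin n) (Fin n) L₂) *ᵥ u.1,
    ((S'⁻¹ : GL (Fin n') L₂) : Matrix (Fin n') (Fin n') L₂) *ᵥ u.2), by
    rw [Phi_apply, inv_mulVec, inv_mulVec]⟩

theorem norm_mulVec_le (M : Matrix (Fin n) (Fin n) L₂) (u : Fin n → L₂) (hu : ∀ i, ‖u i‖ ≤ 1) :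
    ‖M *ᵥ u‖ ≤ ∑ i, ∑ j, ‖M i j‖ := by
  rw [pi_norm_le_iff_of_nonneg (Finset.sum_nonneg fun i _ => Finset.sum_nonneg fun j _ =>
    norm_nonneg _)]
  intro i
  calc ‖(M *ᵥ u) i‖ = ‖∑ j, M i j * u j‖ := rfl
    _ ≤ ∑ j, ‖M i j * u j‖ := norm_sum_le _ _
    _ ≤ ∑ j, ‖M i j‖ := Finset.sum_le_sum fun j _ => by
        rw [norm_mul]
        exact mul_le_of_le_one_right (norm_nonneg _) (hu j)
    _ ≤ ∑ i, ∑ j, ‖M i j‖ := Finset.single_le_sum (f := fun i => ∑ j, ‖M i j‖)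
        (fun i _ => Finset.sum_nonneg fun j _ => norm_nonneg _) (Finset.mem_univ i)

variable {F : Type} [Field F]

theorem abs {A : GF F → (Fin n → L₂) → (Fin n → L₂)} {B : Matrix (Fin n) (Fin n) L₂}
    {bt : GF F → Matrix (Fin n) (Fin n) K} {ee : Fin n → K} {S : GL (Fin n) L₂}
    {R : GF F → Matrix (Fin n) (Fin n) (OO p L₂)} {E : Fin n → OO p L₂}
    {A' : GF F → (Fin n' → L₂) → (Fin n' → L₂)} {B' : Matrix (Fin n') (Fin n') L₂}
    {bt' : GF F → Matrix (Fin n') (Fin n') K} {ee' : Fin n' → K} {S' : GL (Fin n') L₂}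
    {R' : GF F → Matrix (Fin n') (Fin n') (OO p L₂)} {E' : Fin n' → OO p L₂}
    (hθ : IsRes θ) (h : Dat θ A B bt ee S R E) (h' : Dat θ A' B' bt' ee' S' R' E')
    (P : Submodule K ((Fin n → K) × (Fin n' → K)))
    (hP : ∀ g, ∀ y ∈ P, (bt g *ᵥ y.1, bt' g *ᵥ y.2) ∈ P)
    (hPP : ∀ y, y ∈ P ↔ ∀ z ∈ P, z.1 ⬝ᵥ (Matrix.diagonal ee *ᵥ y.1) -
      z.2 ⬝ᵥ (Matrix.diagonal ee' *ᵥ y.2) = 0)
    (hE : ∃ E : Set ((Fin n → K) × (Fin n' → K)), Submodule.span K E = P ∧
      ∀ z ∈ E, (∀ i, ∃ y, θ y = z.1 i) ∧ ∀ i, ∃ y, θ y = z.2 i) :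
    ∃ T N : AddSubgroup ((Fin n → L₂) × (Fin n' → L₂)),
      BKS.IsMet (fun (g : GF F) x => (A g x.1, A' g x.2))
        (fun x y => x.1 ⬝ᵥ (B *ᵥ y.1) - x.2 ⬝ᵥ (B' *ᵥ y.2)) T N := by
  set ι : OO p L₂ →+* L₂ := (OO p L₂).subtype with hι
  set Φ := Phi S S' with hΦ
  set Ψ := Psi ι n n' with hΨ
  set Θ := Psi θ n n' with hΘ
  set Q : AddSubgroup ((Fin n → OO p L₂) × (Fin n' → OO p L₂)) :=
    P.toAddSubgroup.comap Θ with hQ
  set T : AddSubgroup ((Fin n → L₂) × (Fin n' → L₂)) := (AddSubgroup.map Ψ ⊤).comap Φ with hT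
  set N : AddSubgroup ((Fin n → L₂) × (Fin n' → L₂)) := (AddSubgroup.map Ψ Q).comap Φ with hN
  have memT : ∀ x, x ∈ T ↔ ∃ a, Ψ a = Φ x := by
    intro x
    rw [hT, AddSubgroup.mem_comap, AddSubgroup.mem_map]
    exact ⟨fun ⟨a, _, ha⟩ => ⟨a, ha⟩, fun ⟨a, ha⟩ => ⟨a, trivial, ha⟩⟩
  have memN : ∀ x, x ∈ N ↔ ∃ a, Θ a ∈ P ∧ Ψ a = Φ x := by
    intro x
    rw [hN, AddSubgroup.mem_comap, AddSubgroup.mem_map]
    exact ⟨fun ⟨a, ha1, ha⟩ => ⟨a, ha1, ha⟩, fun ⟨a, ha1, ha⟩ => ⟨a, ha1, ha⟩⟩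
  -- the form on integral elements
  let FF : ((Fin n → OO p L₂) × (Fin n' → OO p L₂)) → ((Fin n → OO p L₂) × (Fin n' → OO p L₂)) →
    OO p L₂ := fun a b => a.1 ⬝ᵥ (Matrix.diagonal E *ᵥ b.1) - a.2 ⬝ᵥ (Matrix.diagonal E' *ᵥ b.2)
  have hform : ∀ x y a b, Ψ a = Φ x → Ψ b = Φ y →
      x.1 ⬝ᵥ (B *ᵥ y.1) - x.2 ⬝ᵥ (B' *ᵥ y.2) = ι (FF a b) := by
    intro x y a b hx hy
    rw [hΨ, hΦ, Psi_apply, Phi_apply, Prod.mk.injEq] at hx hy
    rw [h.form, h'.form, ← hx.1, ← hx.2, ← hy.1, ← hy.2, map_sub, map_dot, map_dot]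
    rfl
  have hform2 : ∀ a b, θ (FF a b) = (Θ a).1 ⬝ᵥ (Matrix.diagonal ee *ᵥ (Θ b).1) -
      (Θ a).2 ⬝ᵥ (Matrix.diagonal ee' *ᵥ (Θ b).2) := by
    intro a b
    have h1 : ee = fun i => θ (E i) := funext fun i => (h.eE i).symm
    have h2 : ee' = fun i => θ (E' i) := funext fun i => (h'.eE i).symm
    rw [map_sub, map_dot, map_dot, h1, h2]
    rfl
  -- the action
  have hact : ∀ g x a, Ψ a = Φ x → Ψ (R g *ᵥ a.1, R' g *ᵥ a.2) = Φ (A g x.1, A' g x.2) := by
    intro g x a hx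
    rw [hΨ, hΦ, Psi_apply, Phi_apply, Prod.mk.injEq] at hx
    rw [hΨ, hΦ, Psi_apply, Phi_apply, Prod.mk.injEq]
    constructor
    · rw [h.act, ← hx.1]
      exact map_mulVec' ι (R g) a.1
    · rw [h'.act, ← hx.2]
      exact map_mulVec' ι (R' g) a.2
  have hact2 : ∀ g a, Θ (R g *ᵥ a.1, R' g *ᵥ a.2) = (bt g *ᵥ (Θ a).1, bt' g *ᵥ (Θ a).2) := by
    intro g a
    rw [hΘ, Psi_apply, Psi_apply, Prod.mk.injEq, ← h.bt, ← h'.bt]
    exact ⟨map_mulVec' θ (R g) a.1, map_mulVec' θ (R' g) a.2⟩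
  refine ⟨T, N, ⟨?_, ?_, ?_, ?_, ?_⟩⟩
  · -- bounded
    refine ⟨max (∑ i, ∑ j, ‖((S⁻¹ : GL (Fin n) L₂) : Matrix (Fin n) (Fin n) L₂) i j‖)
      (∑ i, ∑ j, ‖((S'⁻¹ : GL (Fin n') L₂) : Matrix (Fin n') (Fin n') L₂) i j‖), fun x hx => ?_⟩
    obtain ⟨a, ha⟩ := (memT x).1 hx
    rw [hΨ, hΦ, Psi_apply, Phi_apply, Prod.mk.injEq] at ha
    rw [Prod.norm_def]
    refine max_le_max ?_ ?_
    · rw [← inv_mulVec' S x.1, ← ha.1]
      exact norm_mulVec_le _ _ fun i => OO.norm_le (a.1 i)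
    · rw [← inv_mulVec' S' x.2, ← ha.2]
      exact norm_mulVec_le _ _ fun i => OO.norm_le (a.2 i)
  · -- stable
    intro g x hx
    obtain ⟨a, ha⟩ := (memT x).1 hx
    exact (memT _).2 ⟨_, hact g x a ha⟩
  · intro g x hx
    obtain ⟨a, ha1, ha⟩ := (memN x).1 hx
    refine (memN _).2 ⟨_, ?_, hact g x a ha⟩
    rw [hact2]
    exact hP g _ ha1
  · -- dual
    intro y
    constructor
    · intro hy x hx
      obtain ⟨a, ha⟩ := (memT x).1 hx
      obtain ⟨b, hb⟩ := (memT y).1 hy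
      change ‖x.1 ⬝ᵥ (B *ᵥ y.1) - x.2 ⬝ᵥ (B' *ᵥ y.2)‖ ≤ 1
      rw [hform x y a b ha hb]
      exact OO.norm_le (FF a b)
    · intro hy
      have h1 : ∀ i, ‖((S : Matrix (Fin n) (Fin n) L₂) *ᵥ y.1) i‖ ≤ 1 := by
        intro i
        obtain ⟨x, hx⟩ := Phi_surj S S' (Psi ι n n' (Pi.single i 1, 0))
        have hxT : x ∈ T := (memT x).2 ⟨_, hx.symm⟩
        have h2 := hy x hxT
        change ‖x.1 ⬝ᵥ (B *ᵥ y.1) - x.2 ⬝ᵥ (B' *ᵥ y.2)‖ ≤ 1 at h2
        rw [Psi_apply, Phi_apply, Prod.mk.injEq] at hx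
        rw [h.form, h'.form, hx.1, hx.2] at h2
        have h3 : (fun j => ι ((Pi.single i 1 : Fin n → OO p L₂) j)) = Pi.single i (1 : L₂) := by
          funext j
          by_cases hj : j = i
          · subst hj
            simp
          · simp [Pi.single_eq_of_ne hj]
        have h4 : (fun j : Fin n' => ι ((0 : Fin n' → OO p L₂) j)) = 0 := by
          funext j
          simp
        rw [h3, h4, zero_dotProduct, sub_zero, single_dotProduct, one_mul,
          Matrix.mulVec_diagonal, norm_mul, h.nE, one_mul] at h2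
        exact h2
      have h1' : ∀ i, ‖((S' : Matrix (Fin n') (Fin n') L₂) *ᵥ y.2) i‖ ≤ 1 := by
        intro i
        obtain ⟨x, hx⟩ := Phi_surj S S' (Psi ι n n' (0, Pi.single i 1))
        have hxT : x ∈ T := (memT x).2 ⟨_, hx.symm⟩
        have h2 := hy x hxT
        change ‖x.1 ⬝ᵥ (B *ᵥ y.1) - x.2 ⬝ᵥ (B' *ᵥ y.2)‖ ≤ 1 at h2
        rw [Psi_apply, Phi_apply, Prod.mk.injEq] at hx
        rw [h.form, h'.form, hx.1, hx.2] at h2
        have h3 : (fun j => ι ((Pi.single i 1 : Fin n' → OO p L₂) j)) = Pi.single i (1 : L₂) := by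
          funext j
          by_cases hj : j = i
          · subst hj
            simp
          · simp [Pi.single_eq_of_ne hj]
        have h4 : (fun j : Fin n => ι ((0 : Fin n → OO p L₂) j)) = 0 := by
          funext j
          simp
        rw [h3, h4, zero_dotProduct, zero_sub, norm_neg, single_dotProduct, one_mul,
          Matrix.mulVec_diagonal, norm_mul, h'.nE, one_mul] at h2
        exact h2
      refine (memT y).2 ⟨(fun i => ⟨_, h1 i⟩, fun i => ⟨_, h1' i⟩), ?_⟩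
      rfl
  · -- Lagrangian
    intro y
    constructor
    · intro hy
      obtain ⟨b, hb1, hb⟩ := (memN y).1 hy
      refine ⟨(memT y).2 ⟨b, hb⟩, fun x hx => ?_⟩
      obtain ⟨a, ha1, ha⟩ := (memN x).1 hx
      change ‖x.1 ⬝ᵥ (B *ᵥ y.1) - x.2 ⬝ᵥ (B' *ᵥ y.2)‖ < 1
      rw [hform x y a b ha hb]
      refine (hθ (FF a b)).1 ?_
      rw [hform2]
      exact (hPP _).1 hb1 _ ha1
    · rintro ⟨hyT, hy⟩
      obtain ⟨b, hb⟩ := (memT y).1 hyT
      refine (memN y).2 ⟨b, ?_, hb⟩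
      obtain ⟨E₀, hE1, hE2⟩ := hE
      refine (hPP _).2 fun z hz => ?_
      rw [← hE1] at hz
      induction hz using Submodule.span_induction with
      | mem z hz =>
        obtain ⟨hz1, hz2⟩ := hE2 z hz
        choose a1 ha1 using hz1
        choose a2 ha2 using hz2
        have h1 : Θ (a1, a2) = z := by
          rw [hΘ, Psi_apply]
          exact Prod.ext (funext ha1) (funext ha2)
        obtain ⟨x, hx⟩ := Phi_surj S S' (Ψ (a1, a2))
        have hxN : x ∈ N := by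
          refine (memN x).2 ⟨(a1, a2), ?_, hx.symm⟩
          rw [h1, ← hE1]
          exact Submodule.subset_span hz
        have h2 := hy x hxN
        change ‖x.1 ⬝ᵥ (B *ᵥ y.1) - x.2 ⬝ᵥ (B' *ᵥ y.2)‖ < 1 at h2
        rw [hform x y _ b hx.symm hb] at h2
        have h3 := (hθ (FF (a1, a2) b)).2 h2
        rw [hform2, h1] at h3
        exact h3
      | zero => simp
      | add z w _ _ hz hw =>
        rw [Prod.fst_add, Prod.snd_add, add_dotProduct, add_dotProduct]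
        linear_combination hz + hw
      | smul c z _ hz =>
        rw [Prod.smul_fst, Prod.smul_snd, smul_dotProduct, smul_dotProduct, ← smul_sub, hz,
          smul_zero]

end Abs

/-! ### The coordinates -/

section Coord

variable {p : ℕ} [Fact p.Prime] {F : Type} [Field F] {L L₂ K : Type} [NormedField L]
  [NormedAlgebra ℚ_[p] L] [FiniteDimensional ℚ_[p] L] [NormedField L₂] [NormedAlgebra ℚ_[p] L₂]
  [FiniteDimensional ℚ_[p] L₂] [Field K]

theorem dat (hI : StIsm) {r : OO p L →+* K} (φ : L →ₐ[ℚ_[p]] L₂) (ϖ : L₂) {θ : OO p L₂ →+* K}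
    (hr : IsRes r) (hϖ : ϖ ^ 2 = φ ((pi0 p L : OO p L) : L)) (hθ : IsRes θ)
    (hc : ∀ (x : OO p L) (y : OO p L₂), (y : L₂) = φ x → θ y = r x) {n : ℕ}
    {V : GF F →* GL (Fin n) L} {B S : GL (Fin n) L} {ρ : GF F →* GL (Fin n) (OO p L)}
    {e : Fin n → (OO p L)ˣ} {a : Fin n → Bool} (hN : Nrm V B S ρ e a)
    (hz : ∀ g i j, a i = false → a j = true →
      r ((ρ g : Matrix (Fin n) (Fin n) (OO p L)) i j) = 0) :
    ∃ (S₂ : GL (Fin n) L₂) (R : GF F → Matrix (Fin n) (Fin n) (OO p L₂)) (E : Fin n → OO p L₂),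
      Dat θ (BKS.vec (BKS.ext (φ : L →+* L₂) V)) ((B : Matrix (Fin n) (Fin n) L).map φ)
        (btm r ρ a) (fun i => r ((e i : (OO p L)ˣ) : OO p L)) S₂ R E := by
  have hiso : ∀ x : L, ‖φ x‖ = ‖x‖ := fun x => hI p L L₂ φ x
  have hw2 : ‖ϖ‖ ^ 2 = ‖((pi0 p L : OO p L) : L)‖ := by
    rw [← norm_pow, hϖ, hiso]
  have hw0 : ϖ ≠ 0 := by
    intro h0
    rw [h0, norm_zero] at hw2
    have := pi0_pos p L
    rw [← hw2] at this
    norm_num at this
  have hwpos : 0 < ‖ϖ‖ := norm_pos_iff.2 hw0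
  have hw1 : ‖ϖ‖ < 1 := by
    have h1 := pi0_lt p L
    rw [← hw2] at h1
    by_contra hcon
    rw [not_lt] at hcon
    exact absurd (one_le_pow₀ hcon (n := 2)) (not_le.2 h1)
  let s : Fin n → L₂ := fun i => if a i then ϖ else 1
  have hs : ∀ i, s i ≠ 0 := by
    intro i
    change (if a i then ϖ else 1) ≠ 0
    split_ifs
    · exact hw0
    · exact one_ne_zero
  -- the norms of the entries
  have hne : ∀ g i j, (a i = a j → ‖s i * φ (((ρ g : Matrix (Fin n) (Fin n) (OO p L)) i j :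
      OO p L) : L) / s j‖ ≤ 1) ∧ (a i ≠ a j → ‖s i * φ (((ρ g : Matrix (Fin n) (Fin n)
      (OO p L)) i j : OO p L) : L) / s j‖ < 1) := by
    intro g i j
    have h1 := OO.norm_le ((ρ g : Matrix (Fin n) (Fin n) (OO p L)) i j)
    rw [← hiso] at h1
    constructor
    · intro h
      have h2 : s i = s j := by
        change (if a i then ϖ else 1) = (if a j then ϖ else 1)
        rw [h]
      rw [h2, mul_div_assoc, mul_div_cancel₀ _ (hs j)]
      exact h1
    · intro h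
      rcases hi : a i with _ | _
      · have hj : a j = true := by
          rcases hj : a j with _ | _
          · exact absurd (hi.trans hj.symm) h
          · rfl
        have h3 : ‖((((ρ g : Matrix (Fin n) (Fin n) (OO p L)) i j : OO p L)) : L)‖ < 1 :=
          (hr _).1 (hz g i j hi hj)
        have h4 := pi0_max p L _ h3
        rw [← hiso, ← hw2] at h4
        have h5 : s i = 1 := by
          change (if a i then ϖ else 1) = 1
          rw [hi]
          rfl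
        have h6 : s j = ϖ := by
          change (if a j then ϖ else 1) = ϖ
          rw [hj]
          rfl
        rw [h5, h6, one_mul, norm_div, div_lt_one hwpos]
        refine lt_of_le_of_lt h4 ?_
        rw [pow_two]
        exact mul_lt_of_lt_one_left hwpos hw1
      · have hj : a j = false := by
          rcases hj : a j with _ | _
          · rfl
          · exact absurd (hi.trans hj.symm) h
        have h5 : s i = ϖ := by
          change (if a i then ϖ else 1) = ϖ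
          rw [hi]
          rfl
        have h6 : s j = 1 := by
          change (if a j then ϖ else 1) = 1
          rw [hj]
          rfl
        rw [h5, h6, div_one, norm_mul]
        exact lt_of_le_of_lt (mul_le_of_le_one_right hwpos.le h1) hw1
  have hne1 : ∀ g i j, ‖s i * φ (((ρ g : Matrix (Fin n) (Fin n) (OO p L)) i j : OO p L) : L) /
      s j‖ ≤ 1 := by
    intro g i j
    by_cases h : a i = a j
    · exact (hne g i j).1 h
    · exact ((hne g i j).2 h).le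
  have hee : ∀ i, ‖φ (((e i : (OO p L)ˣ) : OO p L) : L)‖ = 1 := by
    intro i
    rw [hiso]
    exact (OO.isUnit_iff _).1 (e i).isUnit
  let M : Matrix (Fin n) (Fin n) L₂ := Matrix.diagonal s * (S : Matrix (Fin n) (Fin n) L).map φ
  have hSφ : ((S : Matrix (Fin n) (Fin n) L).map φ).det ≠ 0 := by
    have h1 : ((S : Matrix (Fin n) (Fin n) L).map φ).det = φ (S : Matrix (Fin n) (Fin n) L).det :=
      (RingHom.map_det (φ : L →+* L₂) (S : Matrix (Fin n) (Fin n) L)).symm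
    rw [h1]
    intro h0
    have h2 : (S : Matrix (Fin n) (Fin n) L).det ≠ 0 :=
      ((Matrix.isUnit_iff_isUnit_det _).1 S.isUnit).ne_zero
    exact h2 ((map_eq_zero φ).1 h0)
  have hM : M.det ≠ 0 := by
    change (Matrix.diagonal s * (S : Matrix (Fin n) (Fin n) L).map φ).det ≠ 0
    rw [Matrix.det_mul, Matrix.det_diagonal]
    exact mul_ne_zero (Finset.prod_ne_zero_iff.2 fun i _ => hs i) hSφ
  let S₂ : GL (Fin n) L₂ := Matrix.GeneralLinearGroup.mkOfDetNeZero M hM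
  have hS₂ : (S₂ : Matrix (Fin n) (Fin n) L₂) = M := rfl
  let R : GF F → Matrix (Fin n) (Fin n) (OO p L₂) := fun g => Matrix.of fun i j => ⟨_, hne1 g i j⟩
  have hR : ∀ g, (R g).map (OO p L₂).subtype = Matrix.diagonal s *
      ((ρ g : Matrix (Fin n) (Fin n) (OO p L)).map (OO p L).subtype).map φ *
        Matrix.diagonal (fun i => (s i)⁻¹) := by
    intro g
    ext i j
    rw [Matrix.mul_diagonal, Matrix.diagonal_mul, ← div_eq_mul_inv]
    rfl
  refine ⟨S₂, R, fun i => ⟨_, (hee i).le⟩, ⟨?_, ?_, ?_, ?_, ?_⟩⟩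
  · -- the action
    intro g x
    have h1 : toL p L n (ρ g) * S = S * V g := by
      rw [hN.int g, inv_mul_cancel_right]
    have h2 : (ρ g : Matrix (Fin n) (Fin n) (OO p L)).map (OO p L).subtype *
        (S : Matrix (Fin n) (Fin n) L) =
        (S : Matrix (Fin n) (Fin n) L) * (V g : Matrix (Fin n) (Fin n) L) :=
      congrArg Units.val h1
    have h3 : ((ρ g : Matrix (Fin n) (Fin n) (OO p L)).map (OO p L).subtype).map φ *
        (S : Matrix (Fin n) (Fin n) L).map φ =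
        (S : Matrix (Fin n) (Fin n) L).map φ * (V g : Matrix (Fin n) (Fin n) L).map φ := by
      rw [← Matrix.map_mul, ← Matrix.map_mul, h2]
    have h4 : (Matrix.diagonal fun i => (s i)⁻¹) * Matrix.diagonal s = (1 : Matrix (Fin n) (Fin n) L₂) := by
      rw [Matrix.diagonal_mul_diagonal]
      have : (fun i => (s i)⁻¹ * s i) = fun _ => (1 : L₂) := funext fun i => inv_mul_cancel₀ (hs i)
      rw [this]
      exact Matrix.diagonal_one
    have h5 : (R g).map (OO p L₂).subtype * M = M * (V g : Matrix (Fin n) (Fin n) L).map φ := by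
      rw [hR g]
      change Matrix.diagonal s * ((ρ g : Matrix (Fin n) (Fin n) (OO p L)).map
        (OO p L).subtype).map φ * Matrix.diagonal (fun i => (s i)⁻¹) *
        (Matrix.diagonal s * (S : Matrix (Fin n) (Fin n) L).map φ) =
        Matrix.diagonal s * (S : Matrix (Fin n) (Fin n) L).map φ *
          (V g : Matrix (Fin n) (Fin n) L).map φ
      rw [Matrix.mul_assoc (Matrix.diagonal s) ((S : Matrix (Fin n) (Fin n) L).map φ), ← h3,
        Matrix.mul_assoc (Matrix.diagonal s * _),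
        ← Matrix.mul_assoc (Matrix.diagonal fun i => (s i)⁻¹), h4, Matrix.one_mul,
        Matrix.mul_assoc]
    rw [hS₂]
    change M *ᵥ ((V g : Matrix (Fin n) (Fin n) L).map φ *ᵥ x) = _
    rw [Matrix.mulVec_mulVec, Matrix.mulVec_mulVec, h5]
  · -- the form
    intro x y
    rw [hS₂, dot_mul]
    congr 2
    have h1 : (dgm e a).map φ = Matrix.diagonal s *
        (Matrix.diagonal fun i => φ (((e i : (OO p L)ˣ) : OO p L) : L)) * Matrix.diagonal s := by
      rw [Matrix.diagonal_mul_diagonal, Matrix.diagonal_mul_diagonal]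
      unfold dgm
      rw [Matrix.diagonal_map (map_zero φ)]
      congr 1
      funext i
      rw [map_mul]
      change _ = (if a i then ϖ else 1) * _ * (if a i then ϖ else 1)
      rcases a i with _ | _
      · simp
      · rw [if_pos rfl, if_pos rfl, ← hϖ]
        ring
    have h2 : Mᵀ = ((S : Matrix (Fin n) (Fin n) L).map φ)ᵀ * Matrix.diagonal s := by
      change (Matrix.diagonal s * (S : Matrix (Fin n) (Fin n) L).map φ)ᵀ = _
      rw [Matrix.transpose_mul, Matrix.diagonal_transpose]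
    have h3 : (B : Matrix (Fin n) (Fin n) L).map φ = ((S : Matrix (Fin n) (Fin n) L).map φ)ᵀ *
        (dgm e a).map φ * (S : Matrix (Fin n) (Fin n) L).map φ := by
      rw [← hN.form, Matrix.map_mul, Matrix.map_mul, Matrix.transpose_map]
    rw [h3, h1, h2]
    change _ = _ * _ * (Matrix.diagonal s * (S : Matrix (Fin n) (Fin n) L).map φ)
    simp only [Matrix.mul_assoc]
  · -- the reduction
    intro g
    ext i j
    rw [Matrix.map_apply]
    by_cases h : a i = a j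
    · change _ = if a i = a j then r ((ρ g : Matrix (Fin n) (Fin n) (OO p L)) i j) else 0
      rw [if_pos h]
      refine hc _ _ ?_
      change s i * φ (((ρ g : Matrix (Fin n) (Fin n) (OO p L)) i j : OO p L) : L) / s j = _
      have h2 : s i = s j := by
        change (if a i then ϖ else 1) = (if a j then ϖ else 1)
        rw [h]
      rw [h2, mul_div_assoc, mul_div_cancel₀ _ (hs j)]
    · change _ = if a i = a j then r ((ρ g : Matrix (Fin n) (Fin n) (OO p L)) i j) else 0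
      rw [if_neg h]
      exact (hθ _).2 ((hne g i j).2 h)
  · intro i
    exact hc _ _ rfl
  · intro i
    exact hee i

end Coord

end VXLT

/-- Module XLT. -/
theorem stXlt (h : StIsm) : StXlt := by
  intro p _ F _ L L₂ K _ _ _ _ _ _ _ r φ ϖ θ hr hϖ hθ hc n n' V V' B S B' S' ρ ρ' e e' a a' hN hN'
    hz hz' P hP hPP hE
  obtain ⟨S₂, R, E, hD⟩ := VXLT.dat h φ ϖ hr hϖ hθ hc hN hz
  obtain ⟨S₂', R', E', hD'⟩ := VXLT.dat h φ ϖ hr hϖ hθ hc hN' hz'
  exact VXLT.abs θ hθ hD hD' P hP hPP hE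

end BKT
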