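import Pool.Agent.Lib.MP_7c08ba_nt.T1.StW
import Pool.Agent.Lib.MP_7c08ba_nt.T1.HLATM
import Pool.Agent.Lib.MP_7c08ba_nt.T1.HMTB
import Pool.Agent.Lib.MP_7c08ba_nt.T1.UFXL
import Pool.Agent.Lib.MP_7c08ba_nt.T1.YANNT
import Pool.Agent.Lib.MP_7c08ba_nt.Met.LMK
import Pool.Agent.Lib.MP_7c08ba_nt.Met.LLAM
import Pool.Agent.Lib.MP_7c08ba_nt.Met.LLV
import Pool.Agent.Lib.MP_7c08ba_nt.Met.XDUAL

set_option autoImplicit false

/-!
Parity for congruent representations, module GCOL: the orders of the invariants modulo lattices and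
modulo the dual lattices.
-/

noncomputable section

namespace BKT

open BKPar (Loc1 Loc2)
open BKND (Sm)
open BKMet
open Matrix

namespace WGCOL

open BKMet.XANN (annL mem_annL Nd annL_le index_annL card_B1 B1_le finite_B1 card_relIndex)

theorem dual : StDual := stDual stExt (stHoms stExt)

/-! ### The abstract situation -/

section Abs

variable {p : ℕ} [Fact p.Prime] {D : Type} [Group D] {E E' : Type} [AddCommGroup E]
  [AddCommGroup E']

/-- the action on a quotient -/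
def qact (σ : D →* AddMonoid.End E) (X Y : AddSubgroup E) (hX : ∀ d, ∀ x ∈ X, σ d x ∈ X)
    (hY : ∀ d, ∀ x ∈ Y, σ d x ∈ Y) : D →* AddMonoid.End (Y ⧸ X.addSubgroupOf Y) where
  toFun d := QuotientAddGroup.map (X.addSubgroupOf Y) (X.addSubgroupOf Y)
    (AddMonoidHom.codRestrict ((σ d : E →+ E).comp Y.subtype) Y (fun y => hY d y y.2))
    (fun y hy => hX d y hy)
  map_one' := by
    refine AddMonoidHom.ext fun y => ?_
    obtain ⟨y, rfl⟩ := QuotientAddGroup.mk_surjective y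
    change (QuotientAddGroup.mk (⟨σ 1 y, _⟩ : Y) : Y ⧸ X.addSubgroupOf Y) = QuotientAddGroup.mk y
    congr 1
    apply Subtype.ext
    change σ 1 (y : E) = y
    rw [map_one]
    rfl
  map_mul' a b := by
    refine AddMonoidHom.ext fun y => ?_
    obtain ⟨y, rfl⟩ := QuotientAddGroup.mk_surjective y
    change (QuotientAddGroup.mk (⟨σ (a * b) y, _⟩ : Y) : Y ⧸ X.addSubgroupOf Y) =
      QuotientAddGroup.mk (⟨σ a (σ b y), _⟩ : Y)
    congr 1
    apply Subtype.ext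
    change σ (a * b) (y : E) = σ a (σ b y)
    rw [map_mul]
    rfl

theorem qact_mk (σ : D →* AddMonoid.End E) (X Y : AddSubgroup E) (hX : ∀ d, ∀ x ∈ X, σ d x ∈ X)
    (hY : ∀ d, ∀ x ∈ Y, σ d x ∈ Y) (d : D) (y : Y) :
    qact σ X Y hX hY d (QuotientAddGroup.mk y) = QuotientAddGroup.mk (⟨σ d y, hY d y y.2⟩ : Y) :=
  rfl

theorem mk_eq {X Y : AddSubgroup E} {a b : Y} :
    (QuotientAddGroup.mk a : Y ⧸ X.addSubgroupOf Y) = QuotientAddGroup.mk b ↔
      (b : E) - a ∈ X := by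
  rw [QuotientAddGroup.eq, AddSubgroup.mem_addSubgroupOf, AddSubgroup.coe_add,
    AddSubgroup.coe_neg, neg_add_eq_sub]

theorem mk_zero {X Y : AddSubgroup E} {a : Y} :
    (QuotientAddGroup.mk a : Y ⧸ X.addSubgroupOf Y) = 0 ↔ (a : E) ∈ X := by
  rw [QuotientAddGroup.eq_zero_iff, AddSubgroup.mem_addSubgroupOf]

/-- the pairing of the quotients -/
def bq (B : E →+ E' →+ QZ p) (X Y : AddSubgroup E) (X' Y' : AddSubgroup E')
    (z1 : ∀ x ∈ X, ∀ z ∈ X', B x z = 0) (z2 : ∀ x ∈ Y, ∀ z ∈ Y', B x z = 0) :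
    (Y ⧸ X.addSubgroupOf Y) →+ (X' ⧸ Y'.addSubgroupOf X') →+ QZ p :=
  QuotientAddGroup.lift (X.addSubgroupOf Y)
    (AddMonoidHom.mk' (fun y : Y => QuotientAddGroup.lift (Y'.addSubgroupOf X')
      ((B y).comp X'.subtype) (fun z hz => z2 y y.2 z hz)) (by
        intro a b
        ext z
        change B ((a : E) + b) z = B a z + B b z
        rw [map_add]
        rfl))
    (by
      intro y hy
      ext z
      exact z1 y hy z z.2)

theorem bq_mk (B : E →+ E' →+ QZ p) (X Y : AddSubgroup E) (X' Y' : AddSubgroup E')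
    (z1 : ∀ x ∈ X, ∀ z ∈ X', B x z = 0) (z2 : ∀ x ∈ Y, ∀ z ∈ Y', B x z = 0) (y : Y) (z : X') :
    bq B X Y X' Y' z1 z2 (QuotientAddGroup.mk y) (QuotientAddGroup.mk z) = B y z := rfl

/-- the vectors which are fixed modulo `X` -/
def fx (σ : D →* AddMonoid.End E) (X : AddSubgroup E) : AddSubgroup E where
  carrier := {v | ∀ d, σ d v - v ∈ X}
  add_mem' := by
    intro v w hv hw d
    rw [map_add, add_sub_add_comm]
    exact X.add_mem (hv d) (hw d)
  zero_mem' := fun d => by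
    rw [map_zero, sub_zero]
    exact X.zero_mem
  neg_mem' := by
    intro v hv d
    rw [map_neg, neg_sub_neg, ← neg_sub]
    exact X.neg_mem (hv d)

theorem mem_fx {σ : D →* AddMonoid.End E} {X : AddSubgroup E} {v : E} :
    v ∈ fx σ X ↔ ∀ d, σ d v - v ∈ X := Iff.rfl

theorem fx_mono {σ : D →* AddMonoid.End E} {X Y : AddSubgroup E} (h : X ≤ Y) :
    fx σ X ≤ fx σ Y := fun _ hv d => h (hv d)

theorem le_fx {σ : D →* AddMonoid.End E} {Y : AddSubgroup E} (hY : ∀ d, ∀ x ∈ Y, σ d x ∈ Y) :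
    Y ≤ fx σ Y := fun v hv d => Y.sub_mem (hY d v hv) hv

variable [TopologicalSpace D]

/-- cocycles from vectors which are fixed modulo `Y` -/
def phi (σ : D →* AddMonoid.End E) (X Y : AddSubgroup E) :
    fx σ Y →+ (D → Y ⧸ X.addSubgroupOf Y) where
  toFun v d := QuotientAddGroup.mk (⟨σ d v - v, v.2 d⟩ : Y)
  map_zero' := by
    funext d
    rw [Pi.zero_apply, mk_zero]
    change σ d (0 : E) - 0 ∈ X
    rw [map_zero, sub_zero]
    exact X.zero_mem
  map_add' v w := by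
    funext d
    rw [Pi.add_apply, ← QuotientAddGroup.mk_add]
    congr 1
    apply Subtype.ext
    change σ d ((v : E) + w) - (v + w) = (σ d v - v) + (σ d w - w)
    rw [map_add]
    abel

/-- the number of invariants -/
theorem card_H0 (σ : D →* AddMonoid.End E) (X Y : AddSubgroup E) (hX : ∀ d, ∀ x ∈ X, σ d x ∈ X)
    (hY : ∀ d, ∀ x ∈ Y, σ d x ∈ Y) (hXY : X ≤ Y) :
    Nat.card (BKND.H0 (qact σ X Y hX hY)) * Y.relIndex (fx σ X) = X.relIndex (fx σ X) := by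
  have h1 : (BKND.H0 (qact σ X Y hX hY)).comap (QuotientAddGroup.mk' (X.addSubgroupOf Y)) =
      (fx σ X).addSubgroupOf Y := by
    ext y
    rw [AddSubgroup.mem_comap, AddSubgroup.mem_addSubgroupOf]
    refine forall_congr' fun d => ?_
    change (QuotientAddGroup.mk (⟨σ d y, _⟩ : Y) : Y ⧸ X.addSubgroupOf Y) =
      QuotientAddGroup.mk y ↔ _
    rw [mk_eq, ← neg_sub, AddSubgroup.neg_mem_iff]
  have h2 : ((fx σ X).addSubgroupOf Y).map (QuotientAddGroup.mk' (X.addSubgroupOf Y)) =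
      BKND.H0 (qact σ X Y hX hY) := by
    rw [← h1, AddSubgroup.map_comap_eq_self_of_surjective (QuotientAddGroup.mk'_surjective _)]
  have h3 : Nat.card (BKND.H0 (qact σ X Y hX hY)) = X.relIndex (Y ⊓ fx σ X) := by
    rw [← AddSubgroup.relIndex_bot_left, ← h2, ← AddSubgroup.relIndex_comap,
      AddMonoidHom.comap_bot, QuotientAddGroup.ker_mk',
      ← AddSubgroup.inf_addSubgroupOf_right (fx σ X) Y,
      AddSubgroup.relIndex_addSubgroupOf inf_le_right, inf_comm]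
  rw [h3, AddSubgroup.relIndex_inf_mul_relIndex, inf_eq_left.2 hXY]

/-- the coboundaries among the cocycles `phi` -/
theorem comap_B1 (σ : D →* AddMonoid.End E) (X Y : AddSubgroup E) (hX : ∀ d, ∀ x ∈ X, σ d x ∈ X)
    (hY : ∀ d, ∀ x ∈ Y, σ d x ∈ Y) (hXY : X ≤ Y) :
    (BKND.B1 (qact σ X Y hX hY)).comap (phi σ X Y) = (fx σ X ⊔ Y).addSubgroupOf (fx σ Y) := by
  ext v
  rw [AddSubgroup.mem_comap, AddSubgroup.mem_addSubgroupOf, AddSubgroup.mem_sup]
  constructor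
  · rintro ⟨m, hm⟩
    obtain ⟨y, rfl⟩ := QuotientAddGroup.mk_surjective m
    refine ⟨(v : E) - y, fun d => ?_, y, y.2, sub_add_cancel _ _⟩
    have h1 := hm d
    change (QuotientAddGroup.mk (⟨σ d v - v, v.2 d⟩ : Y) : Y ⧸ X.addSubgroupOf Y) =
      QuotientAddGroup.mk (⟨σ d y, hY d y y.2⟩ : Y) - QuotientAddGroup.mk y at h1
    rw [← QuotientAddGroup.mk_sub, mk_eq] at h1
    have h2 : ((⟨σ d y, hY d y y.2⟩ - y : Y) : E) = σ d y - y := rfl
    rw [h2] at h1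
    have h3 : σ d ((v : E) - y) - (v - y) = -((σ d y - y) - (σ d v - v)) := by
      rw [map_sub]
      abel
    rw [h3]
    exact X.neg_mem h1
  · rintro ⟨u, hu, y, hy, huy⟩
    refine ⟨QuotientAddGroup.mk (⟨y, hy⟩ : Y), fun d => ?_⟩
    change (QuotientAddGroup.mk (⟨σ d v - v, v.2 d⟩ : Y) : Y ⧸ X.addSubgroupOf Y) =
      QuotientAddGroup.mk (⟨σ d y, hY d y hy⟩ : Y) - QuotientAddGroup.mk (⟨y, hy⟩ : Y)
    rw [← QuotientAddGroup.mk_sub, mk_eq]
    have h2 : ((⟨σ d y, hY d y hy⟩ - ⟨y, hy⟩ : Y) : E) = σ d y - y := rfl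
    rw [h2]
    have h3 : (σ d y - y) - (σ d (v : E) - v) = -(σ d u - u) := by
      rw [← huy, map_add]
      abel
    change (σ d y - y) - (σ d (v : E) - v) ∈ X
    rw [h3]
    exact X.neg_mem (hu d)

/-- the order of the group of classes of the cocycles `phi` -/
theorem index_phi (σ : D →* AddMonoid.End E) (X Y : AddSubgroup E) (hX : ∀ d, ∀ x ∈ X, σ d x ∈ X)
    (hY : ∀ d, ∀ x ∈ Y, σ d x ∈ Y) (hXY : X ≤ Y) :
    (BKND.B1 (qact σ X Y hX hY)).relIndex ((phi σ X Y).range ⊔ BKND.B1 (qact σ X Y hX hY)) *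
      Y.relIndex (fx σ X) = Y.relIndex (fx σ Y) := by
  have h1 : (BKND.B1 (qact σ X Y hX hY)).relIndex
      ((phi σ X Y).range ⊔ BKND.B1 (qact σ X Y hX hY)) = (fx σ X ⊔ Y).relIndex (fx σ Y) := by
    rw [AddSubgroup.relIndex_sup_right, ← AddSubgroup.index_comap, comap_B1 σ X Y hX hY hXY]
    rfl
  rw [h1, ← AddSubgroup.relIndex_sup_right (fx σ X) Y, mul_comm,
    AddSubgroup.relIndex_mul_relIndex]
  · exact le_sup_right
  · exact sup_le (fx_mono hXY) (le_fx hY)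

/-! ### The inequality -/

/-- The situation. -/
structure Sit (χ : D →* ℤ_[p]ˣ) (σ : D →* AddMonoid.End E) (σ' : D →* AddMonoid.End E')
    (B : E →+ E' →+ QZ p) (X Y : AddSubgroup E) (X' Y' : AddSubgroup E') : Prop where
  hX : ∀ d, ∀ x ∈ X, σ d x ∈ X
  hY : ∀ d, ∀ x ∈ Y, σ d x ∈ Y
  hX' : ∀ d, ∀ x ∈ X', σ' d x ∈ X'
  hY' : ∀ d, ∀ x ∈ Y', σ' d x ∈ Y'
  le : X ≤ Y
  le' : Y' ≤ X'
  eqv : ∀ d x z, B (σ d x) (σ' d z) = actA χ d (B x z)
  l1 : ∀ x, x ∈ X ↔ ∀ z ∈ X', B x z = 0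
  l2 : ∀ z, z ∈ Y' ↔ ∀ x ∈ Y, B x z = 0
  fin : X.relIndex Y ≠ 0
  fin' : Y'.relIndex X' ≠ 0
  sm : ∃ W : Subgroup D, IsOpen (W : Set D) ∧ ∀ w ∈ W, ∀ y ∈ Y, σ w y - y ∈ X
  sm' : ∃ W : Subgroup D, IsOpen (W : Set D) ∧ ∀ w ∈ W, ∀ y ∈ X', σ' w y - y ∈ Y'
  smv : ∀ v v', ∃ W : Subgroup D, IsOpen (W : Set D) ∧ ∀ w ∈ W, σ w v - v ∈ X ∧
    B (σ w v - v) v' = 0
  smv' : ∀ v', ∃ W : Subgroup D, IsOpen (W : Set D) ∧ ∀ w ∈ W, σ' w v' - v' ∈ Y'

variable {χ : D →* ℤ_[p]ˣ} {σ : D →* AddMonoid.End E} {σ' : D →* AddMonoid.End E'}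
    {B : E →+ E' →+ QZ p} {X Y : AddSubgroup E} {X' Y' : AddSubgroup E'}

theorem Sit.z1 (h : Sit χ σ σ' B X Y X' Y') : ∀ x ∈ X, ∀ z ∈ X', B x z = 0 :=
  fun x hx => (h.l1 x).1 hx

theorem Sit.z2 (h : Sit χ σ σ' B X Y X' Y') : ∀ x ∈ Y, ∀ z ∈ Y', B x z = 0 :=
  fun x hx z hz => (h.l2 z).1 hz x hx

theorem Sit.finM (h : Sit χ σ σ' B X Y X' Y') : Finite (Y ⧸ X.addSubgroupOf Y) :=
  Nat.finite_of_card_ne_zero h.fin

theorem Sit.finM' (h : Sit χ σ σ' B X Y X' Y') : Finite (X' ⧸ Y'.addSubgroupOf X') :=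
  Nat.finite_of_card_ne_zero h.fin'

theorem smQ {X Y : AddSubgroup E} (hX : ∀ d, ∀ x ∈ X, σ d x ∈ X)
    (hY : ∀ d, ∀ x ∈ Y, σ d x ∈ Y)
    (h : ∃ W : Subgroup D, IsOpen (W : Set D) ∧ ∀ w ∈ W, ∀ y ∈ Y, σ w y - y ∈ X) :
    Sm (qact σ X Y hX hY) := by
  obtain ⟨W, hW, h1⟩ := h
  refine ⟨W, hW, fun w hw => AddMonoidHom.ext fun y => ?_⟩
  obtain ⟨y, rfl⟩ := QuotientAddGroup.mk_surjective y
  change (QuotientAddGroup.mk (⟨σ w y, hY w y y.2⟩ : Y) : Y ⧸ X.addSubgroupOf Y) =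
    QuotientAddGroup.mk y
  rw [mk_eq, ← neg_sub, AddSubgroup.neg_mem_iff]
  exact h1 w hw y y.2

/-- the pair -/
def prq (h : Sit χ σ σ' B X Y X' Y') :
    Pair ℤ (actA χ) (Y ⧸ X.addSubgroupOf Y) (X' ⧸ Y'.addSubgroupOf X') where
  ρ := qact σ X Y h.hX h.hY
  ρ' := qact σ' Y' X' h.hY' h.hX'
  b := bq B X Y X' Y' h.z1 h.z2
  sm := smQ h.hX h.hY h.sm
  sm' := smQ h.hY' h.hX' h.sm'
  lin := fun g a m => map_zsmul (qact σ X Y h.hX h.hY g) a m
  lin' := fun g a m => map_zsmul (qact σ' Y' X' h.hY' h.hX' g) a m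
  eqv := by
    intro g m m'
    obtain ⟨y, rfl⟩ := QuotientAddGroup.mk_surjective m
    obtain ⟨z, rfl⟩ := QuotientAddGroup.mk_surjective m'
    exact h.eqv g y z
  bal := fun a m m' => by
    rw [map_zsmul, map_zsmul, AddMonoidHom.zsmul_apply]
  perf := by
    have := h.finM
    refine LMK.perf_of _ ?_ ?_
    · intro m hm
      obtain ⟨y, rfl⟩ := QuotientAddGroup.mk_surjective m
      rw [mk_zero, h.l1]
      exact fun z hz => hm (QuotientAddGroup.mk (⟨z, hz⟩ : X'))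
    · intro m hm
      obtain ⟨z, rfl⟩ := QuotientAddGroup.mk_surjective m
      rw [mk_zero, h.l2]
      exact fun y hy => hm (QuotientAddGroup.mk (⟨y, hy⟩ : Y))
  perf' := by
    have := h.finM'
    refine LMK.perf_of (bq B X Y X' Y' h.z1 h.z2).flip ?_ ?_
    · intro m hm
      obtain ⟨z, rfl⟩ := QuotientAddGroup.mk_surjective m
      rw [mk_zero, h.l2]
      exact fun y hy => hm (QuotientAddGroup.mk (⟨y, hy⟩ : Y))
    · intro m hm
      obtain ⟨y, rfl⟩ := QuotientAddGroup.mk_surjective m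
      rw [mk_zero, h.l1]
      exact fun z hz => hm (QuotientAddGroup.mk (⟨z, hz⟩ : X'))

end Abs

/-! ### Local duality -/

section Coh

variable {p : ℕ} [Fact p.Prime] {D : Type} [Group D] [TopologicalSpace D] {χ : D →* ℤ_[p]ˣ}
  {inv : (D → D → QZ p) →+ QZ p} {M M' : Type} [AddCommGroup M] [AddCommGroup M'] [Finite M]
  [Finite M']

/-- the pairing of cochains -/
def prI (inv : (D → D → QZ p) →+ QZ p) (P : Pair ℤ (actA χ) M M') :
    (D → M) →+ (D → M') →+ QZ p :=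
  AddMonoidHom.mk' (fun x => inv.comp (YANNT.cupHom P.b P.ρ' x)) (by
    intro a b
    ext y
    change inv (YANNT.cupHom P.b P.ρ' (a + b) y) = inv (YANNT.cupHom P.b P.ρ' a y) +
      inv (YANNT.cupHom P.b P.ρ' b y)
    rw [map_add, AddMonoidHom.add_apply, map_add])

theorem prI_apply (P : Pair ℤ (actA χ) M M') (x : D → M) (y : D → M') :
    prI inv P x y = inv (cup11 P.b P.ρ' x y) := rfl

theorem inv_B2 (hG : LocG p χ inv 0) {z : D → D → QZ p} (h1 : z ∈ BKND.Z2 (actA χ))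
    (h2 : z ∈ BKND.B2 (actA χ)) : inv z = 0 := (hG.inv_eq z h1).2 h2

theorem inv_flip (hG : LocG p χ inv 0) (P : Pair ℤ (actA χ) M M') {x : D → M} {y : D → M'}
    (hx : x ∈ BKND.Z1 P.ρ) (hy : y ∈ BKND.Z1 P.ρ') :
    inv (cup11 P.b P.ρ' x y) = - inv (cup11 P.flip.b P.flip.ρ' y x) := by
  have h1 := YANNT.cup_anti P hx hy
  have h2 := (BKND.Z2 (actA χ)).add_mem (YANNT.cup_Z2 P hx hy) (YANNT.cup_Z2 P.flip hy hx)
  have h3 := inv_B2 hG h2 h1
  rw [map_add] at h3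
  exact eq_neg_of_add_eq_zero_left h3

theorem nd (hG : LocG p χ inv 0) (P : Pair ℤ (actA χ) M M') :
    Nd (prI inv P) (BKND.Z1 P.ρ) (BKND.B1 P.ρ) (BKND.Z1 P.ρ') (BKND.B1 P.ρ') where
  le := B1_le _ P.sm
  le' := B1_le _ P.sm'
  left := by
    intro x hx
    constructor
    · intro h y hy
      rw [prI_apply, inv_flip hG P hx hy, inv_B2 hG (YANNT.cup_Z2 P.flip hy hx)
        (YANNT.cup_B1_right P.flip hy h), neg_zero]
    · intro h
      exact hG.one M M' P x hx h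
  right := by
    intro y hy
    constructor
    · intro h x hx
      rw [prI_apply]
      exact inv_B2 hG (YANNT.cup_Z2 P hx hy) (YANNT.cup_B1_right P hx h)
    · intro h
      refine hG.one M' M P.flip y hy fun x hx => ?_
      have h1 := h x hx
      rw [prI_apply, inv_flip hG P hx hy, neg_eq_zero] at h1
      exact h1
  fin := by
    have h1 := hG.card M M' P
    intro h0
    have h2 := card_relIndex (B1_le _ P.sm)
    rw [h0, mul_zero, h1] at h2
    have h3 : 0 < Nat.card (BKND.H0 P.ρ') * Nat.card M ^ (1 + 0) :=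
      Nat.mul_pos Nat.card_pos (pow_pos Nat.card_pos _)
    omega

/-- the order of `H¹` -/
theorem card_H1 (hG : LocG p χ inv 0) (P : Pair ℤ (actA χ) M M') :
    (BKND.B1 P.ρ).relIndex (BKND.Z1 P.ρ) =
      Nat.card (BKND.H0 P.ρ) * Nat.card (BKND.H0 P.ρ') := by
  have h1 := hG.card M M' P
  have h2 := card_relIndex (B1_le _ P.sm)
  have h3 := card_B1 P.ρ
  have h4 := finite_B1 P.ρ
  have h5 : 0 < Nat.card (BKND.B1 P.ρ) := Nat.card_pos
  refine Nat.eq_of_mul_eq_mul_left h5 ?_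
  rw [h2, h1, add_zero, pow_one, ← h3]
  ring

/-- orthogonal subgroups -/
theorem orth (hG : LocG p χ inv 0) (P : Pair ℤ (actA χ) M M') (A : AddSubgroup (D → M))
    (A' : AddSubgroup (D → M')) (h1 : BKND.B1 P.ρ ≤ A) (h2 : A ≤ BKND.Z1 P.ρ)
    (h3 : BKND.B1 P.ρ' ≤ A') (h4 : A' ≤ BKND.Z1 P.ρ')
    (h5 : ∀ x ∈ A, ∀ y ∈ A', inv (cup11 P.b P.ρ' x y) = 0) :
    (BKND.B1 P.ρ).relIndex A * (BKND.B1 P.ρ').relIndex A' ≤
      Nat.card (BKND.H0 P.ρ) * Nat.card (BKND.H0 P.ρ') := by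
  have hN := nd hG P
  have hle : A ≤ annL (prI inv P) (BKND.Z1 P.ρ) A' := fun x hx => ⟨h2 hx, fun y hy => h5 x hx y hy⟩
  have e1 := index_annL dual hN h3 h4
  have e2 := AddSubgroup.relIndex_mul_relIndex (BKND.B1 P.ρ) A
    (annL (prI inv P) (BKND.Z1 P.ρ) A') h1 hle
  have e3 := AddSubgroup.relIndex_mul_relIndex (BKND.B1 P.ρ)
    (annL (prI inv P) (BKND.Z1 P.ρ) A') (BKND.Z1 P.ρ) (h1.trans hle) annL_le
  rw [← card_H1 hG P]
  rw [← e3, e1]
  refine Nat.mul_le_mul_right _ ?_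
  rw [← e2]
  refine Nat.le_mul_of_pos_right _ ?_
  rw [pos_iff_ne_zero]
  intro h0
  rw [h0, mul_zero] at e2
  rw [← e2, zero_mul] at e3
  exact hN.fin e3.symm

end Coh

section Ineq

variable {p : ℕ} [Fact p.Prime] {D : Type} [Group D] [TopologicalSpace D] {E E' : Type}
  [AddCommGroup E] [AddCommGroup E'] {χ : D →* ℤ_[p]ˣ} {σ : D →* AddMonoid.End E}
  {σ' : D →* AddMonoid.End E'} {B : E →+ E' →+ QZ p} {X Y : AddSubgroup E}
  {X' Y' : AddSubgroup E'} {inv : (D → D → QZ p) →+ QZ p}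

theorem phi_Z1 (hX : ∀ d, ∀ x ∈ X, σ d x ∈ X) (hY : ∀ d, ∀ x ∈ Y, σ d x ∈ Y)
    (hs : ∀ v, ∃ W : Subgroup D, IsOpen (W : Set D) ∧ ∀ w ∈ W, σ w v - v ∈ X)
    (v : fx σ Y) : phi σ X Y v ∈ BKND.Z1 (qact σ X Y hX hY) := by
  obtain ⟨W, hW, h1⟩ := hs v
  refine ⟨⟨W, hW, fun g w hw => ?_⟩, fun g g' => ?_⟩
  · change (QuotientAddGroup.mk (⟨σ (g * w) v - v, v.2 (g * w)⟩ : Y) : Y ⧸ X.addSubgroupOf Y) =
      QuotientAddGroup.mk (⟨σ g v - v, v.2 g⟩ : Y)
    rw [mk_eq]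
    change (σ g (v : E) - v) - (σ (g * w) (v : E) - v) ∈ X
    have h2 := hX g _ (h1 w hw)
    have h3 : (σ g (v : E) - v) - (σ (g * w) (v : E) - v) = - σ g (σ w (v : E) - v) := by
      rw [map_mul, map_sub]
      change (σ g (v : E) - v) - (σ g (σ w (v : E)) - v) = _
      abel
    rw [h3]
    exact X.neg_mem h2
  · change (QuotientAddGroup.mk (⟨σ (g * g') v - v, v.2 (g * g')⟩ : Y) : Y ⧸ X.addSubgroupOf Y) =
      QuotientAddGroup.mk (⟨σ g v - v, v.2 g⟩ : Y) +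
        QuotientAddGroup.mk (⟨σ g (σ g' v - v), hY g _ (v.2 g')⟩ : Y)
    rw [← QuotientAddGroup.mk_add]
    congr 1
    apply Subtype.ext
    change σ (g * g') (v : E) - v = (σ g (v : E) - v) + σ g (σ g' v - v)
    rw [map_mul, map_sub]
    change σ g (σ g' (v : E)) - v = _
    abel

theorem orth_phi (hG : LocG p χ inv 0) (h : Sit χ σ σ' B X Y X' Y') (v : fx σ Y)
    (v' : fx σ' X') :
    inv (cup11 (prq h).b (prq h).ρ' (phi σ X Y v) (phi σ' Y' X' v')) = 0 := by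
  have h1 := YANNT.cup_Z2 (prq h)
    (phi_Z1 h.hX h.hY (fun v => by
      obtain ⟨W, hW, h1⟩ := h.smv v 0
      exact ⟨W, hW, fun w hw => (h1 w hw).1⟩) v) (phi_Z1 h.hY' h.hX' h.smv' v')
  refine inv_B2 hG h1 ?_
  obtain ⟨W1, hW1, h2⟩ := h.smv v v'
  obtain ⟨W2, hW2, h3⟩ := h.smv' v'
  refine ⟨fun g => - B (σ g (v : E) - v) (σ' g (v' : E')), ⟨W1 ⊓ W2, hW1.inter hW2,
    fun g w hw => ?_⟩, fun g g' => ?_⟩
  · change - B (σ (g * w) (v : E) - v) (σ' (g * w) (v' : E')) =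
      - B (σ g (v : E) - v) (σ' g (v' : E'))
    have e1 : σ (g * w) (v : E) - v = (σ g (v : E) - v) + σ g (σ w (v : E) - v) := by
      rw [map_mul, map_sub]
      change σ g (σ w (v : E)) - v = _
      abel
    have e2 : σ' (g * w) (v' : E') = σ' g (v' : E') + σ' g (σ' w (v' : E') - v') := by
      rw [map_mul, map_sub]
      change σ' g (σ' w (v' : E')) = _
      abel
    have k1 : B (σ g (v : E) - v) (σ' g (σ' w (v' : E') - v')) = 0 :=
      h.z2 _ (v.2 g) _ (h.hY' g _ (h3 w hw.2))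
    have k2 : B (σ g (σ w (v : E) - v)) (σ' g (v' : E')) = 0 := by
      rw [h.eqv, (h2 w hw.1).2, map_zero]
    have k3 : B (σ g (σ w (v : E) - v)) (σ' g (σ' w (v' : E') - v')) = 0 :=
      h.z2 _ (h.le (h.hX g _ (h2 w hw.1).1)) _ (h.hY' g _ (h3 w hw.2))
    rw [e1, e2, map_add, map_add, AddMonoidHom.add_apply, AddMonoidHom.add_apply, k1, k2, k3]
    abel
  · change B (σ g (v : E) - v) (σ' g (σ' g' (v' : E') - v')) =
      actA χ g (- B (σ g' (v : E) - v) (σ' g' (v' : E'))) -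
        - B (σ (g * g') (v : E) - v) (σ' (g * g') (v' : E')) +
        - B (σ g (v : E) - v) (σ' g (v' : E'))
    rw [map_neg, ← h.eqv, map_mul, map_mul]
    change _ = - B (σ g (σ g' (v : E) - v)) (σ' g (σ' g' (v' : E'))) -
        - B (σ g (σ g' (v : E)) - v) (σ' g (σ' g' (v' : E'))) +
        - B (σ g (v : E) - v) (σ' g (v' : E'))
    simp only [map_sub, AddMonoidHom.sub_apply]
    abel

/-- **The inequality.** -/
theorem ineq (hG : LocG p χ inv 0) (h : Sit χ σ σ' B X Y X' Y') :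
    Y.relIndex (fx σ Y) * X'.relIndex (fx σ' X') ≤ X.relIndex (fx σ X) * Y'.relIndex (fx σ' Y') := by
  have := h.finM
  have := h.finM'
  have e1 := index_phi σ X Y h.hX h.hY h.le
  have e2 := index_phi σ' Y' X' h.hY' h.hX' h.le'
  have e3 := card_H0 σ X Y h.hX h.hY h.le
  have e4 := card_H0 σ' Y' X' h.hY' h.hX' h.le'
  have hZ := phi_Z1 (σ := σ) (X := X) (Y := Y) h.hX h.hY (fun v => by
      obtain ⟨W, hW, h1⟩ := h.smv v 0
      exact ⟨W, hW, fun w hw => (h1 w hw).1⟩)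
  have hZ' := phi_Z1 (σ := σ') (X := Y') (Y := X') h.hY' h.hX' h.smv'
  have e5 := orth hG (prq h) ((phi σ X Y).range ⊔ BKND.B1 (prq h).ρ)
    ((phi σ' Y' X').range ⊔ BKND.B1 (prq h).ρ') le_sup_right
    (sup_le (by
      rintro _ ⟨v, rfl⟩
      exact hZ v) (B1_le _ (prq h).sm)) le_sup_right
    (sup_le (by
      rintro _ ⟨v, rfl⟩
      exact hZ' v) (B1_le _ (prq h).sm')) (by
    have hN := nd hG (prq h)
    intro x hx y hy
    obtain ⟨_, ⟨v, rfl⟩, x₁, hx₁, rfl⟩ := AddSubgroup.mem_sup.1 hx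
    obtain ⟨_, ⟨v', rfl⟩, y₁, hy₁, rfl⟩ := AddSubgroup.mem_sup.1 hy
    change prI inv (prq h) (phi σ X Y v + x₁) (phi σ' Y' X' v' + y₁) = 0
    rw [map_add, map_add, AddMonoidHom.add_apply, AddMonoidHom.add_apply]
    have k1 : prI inv (prq h) (phi σ X Y v) (phi σ' Y' X' v') = 0 := orth_phi hG h v v'
    have k2 : prI inv (prq h) x₁ (phi σ' Y' X' v') = 0 :=
      (hN.left x₁ (B1_le _ (prq h).sm hx₁)).1 hx₁ _ (hZ' v')
    have k3 : prI inv (prq h) (phi σ X Y v) y₁ = 0 :=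
      (hN.right y₁ (B1_le _ (prq h).sm' hy₁)).1 hy₁ _ (hZ v)
    have k4 : prI inv (prq h) x₁ y₁ = 0 :=
      (hN.left x₁ (B1_le _ (prq h).sm hx₁)).1 hx₁ _ (B1_le _ (prq h).sm' hy₁)
    rw [k1, k2, k3, k4]
    simp)
  have e6 : (BKND.B1 (prq h).ρ).relIndex ((phi σ X Y).range ⊔ BKND.B1 (prq h).ρ) *
      (BKND.B1 (prq h).ρ').relIndex ((phi σ' Y' X').range ⊔ BKND.B1 (prq h).ρ') *
      (Y.relIndex (fx σ X) * X'.relIndex (fx σ' Y')) ≤
      Nat.card (BKND.H0 (prq h).ρ) * Nat.card (BKND.H0 (prq h).ρ') *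
      (Y.relIndex (fx σ X) * X'.relIndex (fx σ' Y')) := Nat.mul_le_mul_right _ e5
  calc Y.relIndex (fx σ Y) * X'.relIndex (fx σ' X') = _ := by
        rw [← e1, ← e2]
        exact (mul_mul_mul_comm _ _ _ _)
    _ ≤ _ := e6
    _ = _ := by
        rw [← e3, ← e4]
        exact (mul_mul_mul_comm _ _ _ _)

end Ineq

/-! ### Lattices -/

section Conc

variable {p : ℕ} [Fact p.Prime] {L : Type} [NormedField L] [NormedAlgebra ℚ_[p] L] {n : ℕ}
  {D : Type} [Group D]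

/-- the action on vectors -/
def actV (V : D →* GL (Fin n) L) : D →* AddMonoid.End (Fin n → L) where
  toFun d := ((V d : Matrix (Fin n) (Fin n) L).mulVecLin).toAddMonoidHom
  map_one' := by
    refine AddMonoidHom.ext fun v => ?_
    change ((V 1 : GL (Fin n) L) : Matrix (Fin n) (Fin n) L) *ᵥ v = v
    rw [map_one, Units.val_one, Matrix.one_mulVec]
  map_mul' g h := by
    refine AddMonoidHom.ext fun v => ?_
    change ((V (g * h) : GL (Fin n) L) : Matrix (Fin n) (Fin n) L) *ᵥ v =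
      (V g : Matrix (Fin n) (Fin n) L) *ᵥ ((V h : Matrix (Fin n) (Fin n) L) *ᵥ v)
    rw [map_mul, Units.val_mul, Matrix.mulVec_mulVec]

theorem hh_eq (V : D →* GL (Fin n) L) (X : AddSubgroup (Fin n → L)) :
    hh V X = X.relIndex (fx (actV V) X) := rfl

/-- the pairing -/
def prB (lam : L →ₗ[ℚ_[p]] ℚ_[p]) (β : Matrix (Fin n) (Fin n) L) :
    (Fin n → L) →+ (Fin n → L) →+ QZ p :=
  AddMonoidHom.mk' (fun x => AddMonoidHom.mk' (fun z => cl p (lam (x ⬝ᵥ (β *ᵥ z)))) (by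
    intro y y'
    change cl p (lam (x ⬝ᵥ (β *ᵥ (y + y')))) = cl p _ + cl p _
    rw [Matrix.mulVec_add, dotProduct_add, map_add, LMK.cl_add])) (by
    intro x x'
    refine AddMonoidHom.ext fun y => ?_
    change cl p (lam ((x + x') ⬝ᵥ _)) = cl p _ + cl p _
    rw [add_dotProduct, map_add, LMK.cl_add])

theorem prB_apply (lam : L →ₗ[ℚ_[p]] ℚ_[p]) (β : Matrix (Fin n) (Fin n) L) (x z : Fin n → L) :
    prB lam β x z = cl p (lam (x ⬝ᵥ (β *ᵥ z))) := rfl

theorem mem_dlt {β : Matrix (Fin n) (Fin n) L} {X : AddSubgroup (Fin n → L)} {z : Fin n → L} :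
    z ∈ dlt p β X ↔ ∀ x ∈ X, ‖x ⬝ᵥ (β *ᵥ z)‖ ≤ 1 := Iff.rfl

/-- the rows of `A` are the coordinates of the lattice `X` -/
def IsB (A : GL (Fin n) L) (X : AddSubgroup (Fin n → L)) : Prop :=
  ∀ x, x ∈ X ↔ ‖(A : Matrix (Fin n) (Fin n) L) *ᵥ x‖ ≤ 1

theorem IsB.smul {A : GL (Fin n) L} {X : AddSubgroup (Fin n → L)} (h : IsB A X) (a : L)
    (ha : ‖a‖ ≤ 1) (x : Fin n → L) (hx : x ∈ X) : a • x ∈ X := by
  rw [h] at hx ⊢
  rw [Matrix.mulVec_smul, norm_smul]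
  exact mul_le_one₀ ha (norm_nonneg _) hx

/-- the dual basis -/
def dA (A β : GL (Fin n) L) : GL (Fin n) L := (LLV.tr A)⁻¹ * β

theorem dA_mulVec (A β : GL (Fin n) L) (x z : Fin n → L) :
    x ⬝ᵥ ((β : Matrix (Fin n) (Fin n) L) *ᵥ z) =
      ((A : Matrix (Fin n) (Fin n) L) *ᵥ x) ⬝ᵥ ((dA A β : Matrix (Fin n) (Fin n) L) *ᵥ z) := by
  rw [LLV.dot_tr, dA, Units.val_mul, ← Matrix.mulVec_mulVec, LLV.mulVec_inv]

theorem IsB.dual {A : GL (Fin n) L} {X : AddSubgroup (Fin n → L)} (h : IsB A X)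
    (β : GL (Fin n) L) : IsB (dA A β) (dlt p (β : Matrix (Fin n) (Fin n) L) X) := by
  have hu := BKND.DG.ultra (p := p) L
  intro z
  rw [mem_dlt]
  constructor
  · intro hz
    rw [pi_norm_le_iff_of_nonneg zero_le_one]
    intro i
    have h1 : ((A⁻¹ : GL (Fin n) L) : Matrix (Fin n) (Fin n) L) *ᵥ (Pi.single i (1 : L)) ∈ X := by
      rw [h, LLV.mulVec_inv, pi_norm_le_iff_of_nonneg zero_le_one]
      intro j
      by_cases hj : j = i
      · subst hj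
        rw [Pi.single_eq_same, norm_one]
      · rw [Pi.single_eq_of_ne hj, norm_zero]
        exact zero_le_one
    have h2 := hz _ h1
    rw [dA_mulVec A β, LLV.mulVec_inv, single_dotProduct, one_mul] at h2
    exact h2
  · intro hz x hx
    rw [dA_mulVec A β]
    rw [h, pi_norm_le_iff_of_nonneg zero_le_one] at hx
    rw [pi_norm_le_iff_of_nonneg zero_le_one] at hz
    have h3 := HMTB.dot_le hu zero_le_one zero_le_one _ _ hx hz
    rwa [one_mul] at h3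

/-- biduality -/
theorem IsB.bidual {A : GL (Fin n) L} {X : AddSubgroup (Fin n → L)} (h : IsB A X)
    (β : GL (Fin n) L) (x : Fin n → L) :
    x ∈ X ↔ ∀ z ∈ dlt p (β : Matrix (Fin n) (Fin n) L) X,
      ‖x ⬝ᵥ ((β : Matrix (Fin n) (Fin n) L) *ᵥ z)‖ ≤ 1 := by
  constructor
  · intro hx z hz
    exact hz x hx
  · intro hx
    rw [h, pi_norm_le_iff_of_nonneg zero_le_one]
    intro i
    have h1 : (((dA A β)⁻¹ : GL (Fin n) L) : Matrix (Fin n) (Fin n) L) *ᵥ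
        (Pi.single i (1 : L)) ∈ dlt p (β : Matrix (Fin n) (Fin n) L) X := by
      rw [h.dual β, LLV.mulVec_inv, pi_norm_le_iff_of_nonneg zero_le_one]
      intro j
      by_cases hj : j = i
      · subst hj
        rw [Pi.single_eq_same, norm_one]
      · rw [Pi.single_eq_of_ne hj, norm_zero]
        exact zero_le_one
    have h2 := hx _ h1
    rw [dA_mulVec A β, LLV.mulVec_inv, dotProduct_single, mul_one] at h2
    exact h2

theorem IsB.lt [FiniteDimensional ℚ_[p] L] {V : D →* GL (Fin n) L} {A : GL (Fin n) L}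
    {X : AddSubgroup (Fin n → L)} (h : IsB A X)
    (hst : ∀ d, ∀ x ∈ X, (V d : Matrix (Fin n) (Fin n) L) *ᵥ x ∈ X) : Lt V X where
  bdd := by
    obtain ⟨C, hC0, hC⟩ := UFXL.exists_bound (p := p)
      ((A⁻¹ : GL (Fin n) L) : Matrix (Fin n) (Fin n) L)
    refine ⟨C, fun x hx => ?_⟩
    have h1 := hC ((A : Matrix (Fin n) (Fin n) L) *ᵥ x)
    rw [LLV.inv_mulVec] at h1
    exact h1.trans (mul_le_of_le_one_right hC0.le ((h x).1 hx))
  nhd := by
    obtain ⟨C, hC0, hC⟩ := UFXL.exists_bound (p := p) (A : Matrix (Fin n) (Fin n) L)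
    refine ⟨C⁻¹, inv_pos.2 hC0, fun x hx => ?_⟩
    rw [h]
    refine (hC x).trans ?_
    calc C * ‖x‖ ≤ C * C⁻¹ := mul_le_mul_of_nonneg_left hx hC0.le
      _ = 1 := mul_inv_cancel₀ hC0.ne'
  smul := h.smul
  stab := hst

theorem exB [FiniteDimensional ℚ_[p] L] {V : D →* GL (Fin n) L} {X : AddSubgroup (Fin n → L)}
    (h : Lt V X) : ∃ A : GL (Fin n) L, IsB A X := by
  obtain ⟨A, hA, -⟩ := stLatM p L n (X : Set (Fin n → L)) X.zero_mem
    (fun x hx y hy => X.add_mem hx hy) h.smul h.bdd h.nhd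
  refine ⟨A, fun x => ?_⟩
  rw [pi_norm_le_iff_of_nonneg zero_le_one]
  exact hA x

variable {χ : D →* ℤ_[p]ˣ} {V V' : D →* GL (Fin n) L} {β : GL (Fin n) L}

theorem dual_entry (hD : IsDual χ V V' (β : Matrix (Fin n) (Fin n) L)) (d : D)
    (x z : Fin n → L) :
    ((V d : Matrix (Fin n) (Fin n) L) *ᵥ x) ⬝ᵥ
      ((β : Matrix (Fin n) (Fin n) L) *ᵥ ((V' d : Matrix (Fin n) (Fin n) L) *ᵥ z)) =
      BKOdd.chL χ L d * (x ⬝ᵥ ((β : Matrix (Fin n) (Fin n) L) *ᵥ z)) := by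
  rw [← Matrix.vecMul_transpose, ← Matrix.dotProduct_mulVec, Matrix.mulVec_mulVec,
    Matrix.mulVec_mulVec, hD d, Matrix.smul_mulVec, dotProduct_smul, smul_eq_mul]

theorem stab_dual (hD : IsDual χ V V' (β : Matrix (Fin n) (Fin n) L))
    {X : AddSubgroup (Fin n → L)} (h : Lt V X) (d : D) (z : Fin n → L)
    (hz : z ∈ dlt p (β : Matrix (Fin n) (Fin n) L) X) :
    (V' d : Matrix (Fin n) (Fin n) L) *ᵥ z ∈ dlt p (β : Matrix (Fin n) (Fin n) L) X := by
  intro x hx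
  have h1 : (V d : Matrix (Fin n) (Fin n) L) *ᵥ ((V d⁻¹ : Matrix (Fin n) (Fin n) L) *ᵥ x) = x := by
    rw [Matrix.mulVec_mulVec, ← Units.val_mul, ← map_mul, mul_inv_cancel, map_one, Units.val_one,
      Matrix.one_mulVec]
  rw [← h1, dual_entry hD, norm_mul]
  exact mul_le_one₀ (LLV.norm_chL_le χ d) (norm_nonneg _) (hz _ (h.stab d⁻¹ x hx))

theorem lt_dual [FiniteDimensional ℚ_[p] L]
    (hD : IsDual χ V V' (β : Matrix (Fin n) (Fin n) L)) {X : AddSubgroup (Fin n → L)}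
    (h : Lt V X) : Lt V' (dlt p (β : Matrix (Fin n) (Fin n) L) X) := by
  obtain ⟨A, hA⟩ := exB (p := p) h
  exact IsB.lt (p := p) (hA.dual β) (stab_dual hD h)

theorem eqv_prB (hD : IsDual χ V V' (β : Matrix (Fin n) (Fin n) L)) (lam : L →ₗ[ℚ_[p]] ℚ_[p])
    (d : D) (x z : Fin n → L) :
    prB lam (β : Matrix (Fin n) (Fin n) L) (actV V d x) (actV V' d z) =
      actA χ d (prB lam (β : Matrix (Fin n) (Fin n) L) x z) := by
  change cl p (lam (((V d : Matrix (Fin n) (Fin n) L) *ᵥ x) ⬝ᵥ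
      ((β : Matrix (Fin n) (Fin n) L) *ᵥ ((V' d : Matrix (Fin n) (Fin n) L) *ᵥ z)))) = _
  rw [dual_entry hD, actA_apply, prB_apply, ← LMK.cl_smul]
  have h1 : BKOdd.chL χ L d = algebraMap ℚ_[p] L (((χ d : ℤ_[p]ˣ) : ℤ_[p]) : ℚ_[p]) := rfl
  rw [h1, ← Algebra.smul_def, map_smul, smul_eq_mul]

/-- vanishing of the pairing -/
theorem prB_zero {lam : L →ₗ[ℚ_[p]] ℚ_[p]} (hlam : IsLam p L lam)
    {β : Matrix (Fin n) (Fin n) L} {x z : Fin n → L} (h : ‖x ⬝ᵥ (β *ᵥ z)‖ ≤ 1) :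
    prB lam β x z = 0 := by
  rw [prB_apply, LMK.cl_zero_iff]
  have h1 := (hlam _).2 h 1
  rwa [Subring.coe_one, one_mul] at h1

theorem norm_of_prB {lam : L →ₗ[ℚ_[p]] ℚ_[p]} (hlam : IsLam p L lam)
    {β : Matrix (Fin n) (Fin n) L} {x z : Fin n → L}
    (h : ∀ a : L, ‖a‖ ≤ 1 → prB lam β (a • x) z = 0) : ‖x ⬝ᵥ (β *ᵥ z)‖ ≤ 1 := by
  rw [← hlam]
  intro a
  have h1 := h a (OO.norm_le a)
  rwa [prB_apply, LMK.cl_zero_iff, smul_dotProduct, smul_eq_mul] at h1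

theorem prB_smul (lam : L →ₗ[ℚ_[p]] ℚ_[p]) (β : Matrix (Fin n) (Fin n) L) (a : L)
    (x z : Fin n → L) : prB lam β (a • x) z = prB lam β x (a • z) := by
  rw [prB_apply, prB_apply, smul_dotProduct, Matrix.mulVec_smul, dotProduct_smul]

variable [TopologicalSpace D] [IsTopologicalGroup D] [NonarchimedeanGroup D]

include p in
/-- small elements of the group move bounded vectors only slightly -/
theorem smo (hV : Continuous V) (C ε : ℝ) (hε : 0 < ε) : ∃ W : Subgroup D, IsOpen (W : Set D) ∧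
    ∀ w ∈ W, ∀ y : Fin n → L, ‖y‖ ≤ C →
      ‖(V w : Matrix (Fin n) (Fin n) L) *ᵥ y - y‖ ≤ ε := by
  have hu := BKND.DG.ultra (p := p) L
  have hC : 0 < |C| + 1 := by positivity
  have hε' : 0 < ε / (|C| + 1) := div_pos hε hC
  have h1 : {w : D | ∀ i j, ‖((V w : Matrix (Fin n) (Fin n) L) - 1) i j‖ < ε / (|C| + 1)} ∈
      nhds (1 : D) := by
    have h2 : {w : D | ∀ i j, ‖((V w : Matrix (Fin n) (Fin n) L) - 1) i j‖ < ε / (|C| + 1)} =
        ⋂ i, ⋂ j, {w : D | ‖((V w : Matrix (Fin n) (Fin n) L) - 1) i j‖ < ε / (|C| + 1)} := by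
      ext w
      simp only [Set.mem_iInter, Set.mem_setOf_eq]
    have h3 : IsOpen {w : D | ∀ i j, ‖((V w : Matrix (Fin n) (Fin n) L) - 1) i j‖ <
        ε / (|C| + 1)} := by
      rw [h2]
      refine isOpen_iInter_of_finite fun i => isOpen_iInter_of_finite fun j => ?_
      refine isOpen_lt ?_ continuous_const
      refine Continuous.norm ?_
      exact (((Units.continuous_val.comp hV).sub continuous_const).matrix_elem i j)
    refine h3.mem_nhds fun i j => ?_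
    rw [map_one, Units.val_one, sub_self, Matrix.zero_apply, norm_zero]
    exact hε'
  obtain ⟨W, hW⟩ := NonarchimedeanGroup.is_nonarchimedean _ h1
  refine ⟨W, W.isOpen, fun w hw y hy => ?_⟩
  have h4 := hW hw
  rw [pi_norm_le_iff_of_nonneg hε.le]
  intro i
  have h5 : ((V w : Matrix (Fin n) (Fin n) L) *ᵥ y - y) i =
      ((V w : Matrix (Fin n) (Fin n) L) - 1) i ⬝ᵥ y := by
    have h6 : (V w : Matrix (Fin n) (Fin n) L) *ᵥ y - y =
        ((V w : Matrix (Fin n) (Fin n) L) - 1) *ᵥ y := by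
      rw [Matrix.sub_mulVec, Matrix.one_mulVec]
    rw [h6]
    rfl
  rw [h5]
  have h7 := HMTB.dot_le hu hε'.le hC.le (((V w : Matrix (Fin n) (Fin n) L) - 1) i) y
    (fun j => (h4 i j).le) (fun j => (norm_le_pi_norm y j).trans
      (hy.trans ((le_abs_self C).trans (by linarith))))
  rwa [div_mul_cancel₀ _ hC.ne'] at h7

theorem smL [FiniteDimensional ℚ_[p] L] (hV : Continuous V) {X Y : AddSubgroup (Fin n → L)}
    (hX : Lt V X) (hY : Lt V Y) :
    ∃ W : Subgroup D, IsOpen (W : Set D) ∧ ∀ w ∈ W, ∀ y ∈ Y, actV V w y - y ∈ X := by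
  obtain ⟨C, hC⟩ := hY.bdd
  obtain ⟨ε, hε, h1⟩ := hX.nhd
  obtain ⟨W, hW, h2⟩ := smo (p := p) hV C ε hε
  exact ⟨W, hW, fun w hw y hy => h1 _ (h2 w hw y (hC y hy))⟩

theorem finL [FiniteDimensional ℚ_[p] L] {X Y : AddSubgroup (Fin n → L)}
    (hX : Lt V X) (hY : Lt V Y) : X.relIndex Y ≠ 0 := by
  obtain ⟨A, hA⟩ := exB (p := p) hX
  obtain ⟨C, hC⟩ := hY.bdd
  have h1 : X = latS p A ⊤ := by
    ext x
    rw [hA, UFXL.mem_latS]
    constructor
    · intro h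
      rw [pi_norm_le_iff_of_nonneg zero_le_one] at h
      exact ⟨fun i => ⟨_, h i⟩, trivial, rfl⟩
    · rintro ⟨y, -, hy⟩
      rw [← hy, pi_norm_le_iff_of_nonneg zero_le_one]
      exact fun i => OO.norm_le (y i)
  rw [h1]
  exact UFXL.relIndex_ne_zero (p := p) (P := ⊤) (fun x => Submodule.mem_top) Y C hC

/-- the situation for lattices -/
theorem sit [FiniteDimensional ℚ_[p] L] (hV : Continuous V) (hV' : Continuous V')
    (hD : IsDual χ V V' (β : Matrix (Fin n) (Fin n) L)) {lam : L →ₗ[ℚ_[p]] ℚ_[p]}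
    (hlam : IsLam p L lam) {X Y : AddSubgroup (Fin n → L)} (hX : Lt V X) (hY : Lt V Y)
    (hXY : X ≤ Y) : Sit χ (actV V) (actV V') (prB lam (β : Matrix (Fin n) (Fin n) L)) X Y
      (dlt p (β : Matrix (Fin n) (Fin n) L) X) (dlt p (β : Matrix (Fin n) (Fin n) L) Y) where
  hX := hX.stab
  hY := hY.stab
  hX' := (lt_dual hD hX).stab
  hY' := (lt_dual hD hY).stab
  le := hXY
  le' := fun z hz x hx => hz x (hXY hx)
  eqv := eqv_prB hD lam
  l1 := by
    obtain ⟨A, hA⟩ := exB (p := p) hX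
    intro x
    constructor
    · intro hx z hz
      exact prB_zero hlam (hz x hx)
    · intro h
      rw [hA.bidual β (p := p)]
      intro z hz
      refine norm_of_prB hlam fun a ha => ?_
      rw [prB_smul]
      exact h _ ((hA.dual β).smul a ha z hz)
  l2 := by
    intro z
    constructor
    · intro hz x hx
      exact prB_zero hlam (hz x hx)
    · intro h x hx
      exact norm_of_prB hlam fun a ha => h _ (hY.smul a ha x hx)
  fin := finL (p := p) hX hY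
  fin' := finL (p := p) (lt_dual hD hY) (lt_dual hD hX)
  sm := smL (p := p) hV hX hY
  sm' := smL (p := p) hV' (lt_dual hD hY) (lt_dual hD hX)
  smv := by
    intro v v'
    have hu := BKND.DG.ultra (p := p) L
    obtain ⟨ε, hε, h1⟩ := hX.nhd
    have h0 : 0 < ‖(β : Matrix (Fin n) (Fin n) L) *ᵥ v'‖ + 1 := by positivity
    obtain ⟨W, hW, h2⟩ := smo (p := p) hV ‖v‖
      (min ε (‖(β : Matrix (Fin n) (Fin n) L) *ᵥ v'‖ + 1)⁻¹) (lt_min hε (inv_pos.2 h0))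
    refine ⟨W, hW, fun w hw => ?_⟩
    have h3 := h2 w hw v le_rfl
    refine ⟨h1 _ (h3.trans (min_le_left _ _)), prB_zero hlam ?_⟩
    have h4 := HMTB.dot_le hu (inv_pos.2 h0).le h0.le
      ((V w : Matrix (Fin n) (Fin n) L) *ᵥ v - v) ((β : Matrix (Fin n) (Fin n) L) *ᵥ v')
      (fun i => (norm_le_pi_norm _ i).trans (h3.trans (min_le_right _ _)))
      (fun i => (norm_le_pi_norm _ i).trans (by linarith))
    rwa [inv_mul_cancel₀ h0.ne'] at h4
  smv' := by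
    intro v'
    obtain ⟨ε, hε, h1⟩ := (lt_dual (p := p) hD hY).nhd
    obtain ⟨W, hW, h2⟩ := smo (p := p) hV' ‖v'‖ ε hε
    exact ⟨W, hW, fun w hw => h1 _ (h2 w hw v' le_rfl)⟩

theorem ineqL [FiniteDimensional ℚ_[p] L] {inv : (D → D → QZ p) →+ QZ p} (hG : LocG p χ inv 0)
    (hV : Continuous V) (hV' : Continuous V')
    (hD : IsDual χ V V' (β : Matrix (Fin n) (Fin n) L)) {lam : L →ₗ[ℚ_[p]] ℚ_[p]}
    (hlam : IsLam p L lam) {X Y : AddSubgroup (Fin n → L)} (hX : Lt V X) (hY : Lt V Y)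
    (hXY : X ≤ Y) : hh V Y * hh V' (dlt p (β : Matrix (Fin n) (Fin n) L) X) ≤
      hh V X * hh V' (dlt p (β : Matrix (Fin n) (Fin n) L) Y) := by
  rw [hh_eq, hh_eq, hh_eq, hh_eq]
  exact ineq hG (sit hV hV' hD hlam hX hY hXY)

end Conc

/-! ### Scaling -/

section Scale

variable {p : ℕ} [Fact p.Prime] {L : Type} [NormedField L] [NormedAlgebra ℚ_[p] L] {n : ℕ}
  {D : Type} [Group D]

/-- the lattice `c⁻¹ X` -/
def scl (c : L) (X : AddSubgroup (Fin n → L)) : AddSubgroup (Fin n → L) :=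
  X.comap (DistribSMul.toAddMonoidHom (Fin n → L) c)

theorem mem_scl {c : L} {X : AddSubgroup (Fin n → L)} {x : Fin n → L} :
    x ∈ scl c X ↔ c • x ∈ X := Iff.rfl

theorem hh_scl (V : D →* GL (Fin n) L) {c : L} (hc : c ≠ 0) (X : AddSubgroup (Fin n → L)) :
    hh V (scl c X) = hh V X := by
  have h1 : fixL V (scl c X) = scl c (fixL V X) := by
    ext v
    refine forall_congr' fun d => ?_
    rw [mem_scl, smul_sub, ← Matrix.mulVec_smul]
    rfl
  have h2 : Function.Surjective (DistribSMul.toAddMonoidHom (Fin n → L) c) := by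
    intro x
    refine ⟨c⁻¹ • x, ?_⟩
    change c • c⁻¹ • x = x
    rw [smul_smul, mul_inv_cancel₀ hc, one_smul]
  unfold hh
  rw [h1]
  unfold scl
  rw [AddSubgroup.relIndex_comap, AddSubgroup.map_comap_eq_self_of_surjective h2]

theorem dlt_scl (β : Matrix (Fin n) (Fin n) L) {c : L} (hc : c ≠ 0)
    (X : AddSubgroup (Fin n → L)) : dlt p β (scl c X) = scl c⁻¹ (dlt p β X) := by
  ext z
  rw [mem_scl, mem_dlt, mem_dlt]
  constructor
  · intro h x hx
    have h1 : c⁻¹ • x ∈ scl c X := by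
      rw [mem_scl, smul_smul, mul_inv_cancel₀ hc, one_smul]
      exact hx
    have h2 := h _ h1
    rwa [smul_dotProduct, ← dotProduct_smul, ← Matrix.mulVec_smul] at h2
  · intro h x hx
    have h2 := h (c • x) hx
    rwa [smul_dotProduct, Matrix.mulVec_smul, dotProduct_smul, smul_smul, mul_inv_cancel₀ hc,
      one_smul] at h2

theorem lt_scl {V : D →* GL (Fin n) L} {c : L} (hc : c ≠ 0) {X : AddSubgroup (Fin n → L)}
    (h : Lt V X) : Lt V (scl c X) where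
  bdd := by
    obtain ⟨C, hC⟩ := h.bdd
    refine ⟨‖c‖⁻¹ * C, fun x hx => ?_⟩
    have h1 := hC _ (mem_scl.1 hx)
    rw [norm_smul] at h1
    rwa [le_inv_mul_iff₀ (norm_pos_iff.2 hc)]
  nhd := by
    obtain ⟨ε, hε, h1⟩ := h.nhd
    have hc' := norm_pos_iff.2 hc
    refine ⟨‖c‖⁻¹ * ε, mul_pos (inv_pos.2 hc') hε, fun x hx => ?_⟩
    rw [mem_scl]
    apply h1
    rw [norm_smul]
    rwa [le_inv_mul_iff₀ hc'] at hx
  smul := by
    intro a ha x hx
    rw [mem_scl, smul_comm]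
    exact h.smul a ha _ hx
  stab := by
    intro d x hx
    rw [mem_scl, ← Matrix.mulVec_smul]
    exact h.stab d _ hx

theorem exists_scl [FiniteDimensional ℚ_[p] L] {V : D →* GL (Fin n) L}
    {X Y : AddSubgroup (Fin n → L)} (hX : Lt V X) (hY : Lt V Y) :
    ∃ c : L, c ≠ 0 ∧ Y ≤ scl c X := by
  obtain ⟨C, hC⟩ := hY.bdd
  obtain ⟨ε, hε, h1⟩ := hX.nhd
  obtain ⟨k, hk⟩ := exists_pow_lt_of_lt_one (show (0 : ℝ) < ε / (|C| + 1) by positivity)
    (pi0_lt p L)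
  refine ⟨((pi0 p L : OO p L) : L) ^ k, pow_ne_zero _ (pi0_ne p L), fun y hy => ?_⟩
  rw [mem_scl]
  apply h1
  rw [norm_smul, norm_pow]
  have h2 : ‖y‖ ≤ |C| + 1 := (hC y hy).trans ((le_abs_self C).trans (by linarith))
  rw [lt_div_iff₀ (by positivity)] at hk
  exact (mul_le_mul_of_nonneg_left h2 (by positivity)).trans hk.le

end Scale

end WGCOL

open WGCOL in
/-- **Module GCOL**: the orders of the invariants modulo lattices and modulo the dual lattices. -/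
theorem stGcol : StGcol := by
  intro p _ L _ _ _ D _ _ _ _ _ χ hχ inv hG n V V' β hV hV' _ _ hD X Y hX hY hXY
  refine ⟨lt_dual hD hX, ?_⟩
  obtain ⟨lam, hlam⟩ := stLam p L
  apply le_antisymm
  · exact ineqL hG hV hV' hD hlam hX hY hXY
  · obtain ⟨c, hc, h1⟩ := exists_scl (p := p) hX hY
    have h2 := ineqL hG hV hV' hD hlam hY (lt_scl hc hX) h1
    rw [hh_scl V hc, dlt_scl _ hc, hh_scl V' (inv_ne_zero hc)] at h2
    exact h2

end BKT
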