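import Pool.Agent.Lib.MP_7c08ba_nt.T1.StW
import Pool.Agent.Lib.MP_7c08ba_nt.T1.VLTX
import Pool.Agent.Lib.MP_7c08ba_nt.T1.HLATM
import Pool.Agent.Lib.MP_7c08ba_nt.T1.HWEQ
import Pool.Agent.Lib.MP_7c08ba_nt.T1.FSUMH

set_option autoImplicit false

/-!
Parity for congruent representations, module HYPL: the local term of the sum of two isometric
representations is even.
-/

noncomputable section

namespace BKT

open NumberField BKGen BKMet
open Matrix

namespace WHYPL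

open HWEQ

/-- matrices are bounded -/
theorem bdM {L : Type} [NormedField L] {m n : ℕ} (M : Matrix (Fin m) (Fin n) L) :
    ∃ C : ℝ, 0 ≤ C ∧ ∀ x : Fin n → L, ‖M *ᵥ x‖ ≤ C * ‖x‖ := by
  have hnn : 0 ≤ ∑ i, ∑ j, ‖M i j‖ :=
    Finset.sum_nonneg fun i _ => Finset.sum_nonneg fun j _ => norm_nonneg _
  refine ⟨∑ i, ∑ j, ‖M i j‖, hnn, fun x => ?_⟩
  rw [pi_norm_le_iff_of_nonneg (mul_nonneg hnn (norm_nonneg _))]
  intro i
  calc ‖(M *ᵥ x) i‖ = ‖∑ j, M i j * x j‖ := rfl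
    _ ≤ ∑ j, ‖M i j * x j‖ := norm_sum_le _ _
    _ ≤ ∑ j, ‖M i j‖ * ‖x‖ := Finset.sum_le_sum fun j _ => by
        rw [norm_mul]
        exact mul_le_mul_of_nonneg_left (norm_le_pi_norm x j) (norm_nonneg _)
    _ = (∑ j, ‖M i j‖) * ‖x‖ := (Finset.sum_mul _ _ _).symm
    _ ≤ (∑ i, ∑ j, ‖M i j‖) * ‖x‖ := mul_le_mul_of_nonneg_right
        (Finset.single_le_sum (f := fun i => ∑ j, ‖M i j‖)
          (fun i _ => Finset.sum_nonneg fun j _ => norm_nonneg _) (Finset.mem_univ i))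
        (norm_nonneg _)

theorem norm_add_le_one {p : ℕ} [Fact p.Prime] {L : Type} [NormedField L] [NormedAlgebra ℚ_[p] L]
    {x y : L} (hx : ‖x‖ ≤ 1) (hy : ‖y‖ ≤ 1) : ‖x + y‖ ≤ 1 := by
  have hu := BKND.DG.ultra (p := p) L
  exact (IsUltrametricDist.norm_add_le_max _ _).trans (max_le hx hy)

/-- the product of a matrix with integral entries and a vector with integral entries -/
theorem norm_mulVec_le_one {p : ℕ} [Fact p.Prime] {L : Type} [NormedField L]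
    [NormedAlgebra ℚ_[p] L] {n : ℕ} (M : Matrix (Fin n) (Fin n) L) (hM : ∀ i j, ‖M i j‖ ≤ 1)
    (x : Fin n → L) (hx : ‖x‖ ≤ 1) : ‖M *ᵥ x‖ ≤ 1 := by
  have hu := BKND.DG.ultra (p := p) L
  rw [pi_norm_le_iff_of_nonneg zero_le_one]
  intro i
  change ‖∑ j, M i j * x j‖ ≤ 1
  refine IsUltrametricDist.norm_sum_le_of_forall_le_of_nonneg zero_le_one fun j _ => ?_
  rw [norm_mul]
  exact mul_le_one₀ (hM i j) (norm_nonneg _) ((norm_le_pi_norm x j).trans hx)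

section Coord

variable {L : Type} [NormedField L] {n n' : ℕ}

/-- the difference of the components -/
def uu (A' : Matrix (Fin n) (Fin n') L) : (Fin (n + n') → L) →ₗ[L] (Fin n → L) where
  toFun z := p1 z - A' *ᵥ p2 z
  map_add' x y := by
    change p1 x + p1 y - A' *ᵥ (p2 x + p2 y) = (p1 x - A' *ᵥ p2 x) + (p1 y - A' *ᵥ p2 y)
    rw [mulVec_add]
    abel
  map_smul' a x := by
    change a • p1 x - A' *ᵥ (a • p2 x) = a • (p1 x - A' *ᵥ p2 x)
    rw [mulVec_smul, smul_sub]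

/-- the mean of the components -/
def ww (A' : Matrix (Fin n) (Fin n') L) : (Fin (n + n') → L) →ₗ[L] (Fin n → L) where
  toFun z := (2 : L)⁻¹ • (p1 z + A' *ᵥ p2 z)
  map_add' x y := by
    change (2 : L)⁻¹ • (p1 x + p1 y + A' *ᵥ (p2 x + p2 y)) =
      (2 : L)⁻¹ • (p1 x + A' *ᵥ p2 x) + (2 : L)⁻¹ • (p1 y + A' *ᵥ p2 y)
    rw [mulVec_add, ← smul_add]
    congr 1
    abel
  map_smul' a x := by
    change (2 : L)⁻¹ • (a • p1 x + A' *ᵥ (a • p2 x)) = a • ((2 : L)⁻¹ • (p1 x + A' *ᵥ p2 x))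
    rw [mulVec_smul, ← smul_add, smul_comm]

theorem uu_apply (A' : Matrix (Fin n) (Fin n') L) (z : Fin (n + n') → L) :
    uu A' z = p1 z - A' *ᵥ p2 z := rfl

theorem ww_apply (A' : Matrix (Fin n) (Fin n') L) (z : Fin (n + n') → L) :
    ww A' z = (2 : L)⁻¹ • (p1 z + A' *ᵥ p2 z) := rfl

/-- the vector with given difference and mean -/
def mk (A : Matrix (Fin n') (Fin n) L) (u w : Fin n → L) : Fin (n + n') → L :=
  jn (w + (2 : L)⁻¹ • u, A *ᵥ (w - (2 : L)⁻¹ • u))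

theorem p1_mk (A : Matrix (Fin n') (Fin n) L) (u w : Fin n → L) :
    p1 (mk A u w) = w + (2 : L)⁻¹ • u :=
  congrArg Prod.fst (jn_eq (w + (2 : L)⁻¹ • u, A *ᵥ (w - (2 : L)⁻¹ • u)))

theorem p2_mk (A : Matrix (Fin n') (Fin n) L) (u w : Fin n → L) :
    p2 (mk A u w) = A *ᵥ (w - (2 : L)⁻¹ • u) :=
  congrArg Prod.snd (jn_eq (w + (2 : L)⁻¹ • u, A *ᵥ (w - (2 : L)⁻¹ • u)))

omit [NormedField L] in
theorem ext_p {x y : Fin (n + n') → L} (h1 : p1 x = p1 y) (h2 : p2 x = p2 y) : x = y := by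
  funext k
  obtain ⟨s, rfl⟩ := finSumFinEquiv.surjective k
  cases s with
  | inl i => exact congrFun h1 i
  | inr i => exact congrFun h2 i

variable {A : Matrix (Fin n') (Fin n) L} {A' : Matrix (Fin n) (Fin n') L}

theorem half_add (h2 : (2 : L) ≠ 0) (u : Fin n → L) : (2 : L)⁻¹ • u + (2 : L)⁻¹ • u = u := by
  rw [← add_smul, ← two_mul, mul_inv_cancel₀ h2, one_smul]

theorem uu_mk (h2 : (2 : L) ≠ 0) (h : A' * A = 1) (u w : Fin n → L) : uu A' (mk A u w) = u := by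
  rw [uu_apply, p1_mk, p2_mk, mulVec_mulVec, h, one_mulVec]
  calc w + (2 : L)⁻¹ • u - (w - (2 : L)⁻¹ • u) = (2 : L)⁻¹ • u + (2 : L)⁻¹ • u := by abel
    _ = u := half_add h2 u

theorem ww_mk (h2 : (2 : L) ≠ 0) (h : A' * A = 1) (u w : Fin n → L) : ww A' (mk A u w) = w := by
  rw [ww_apply, p1_mk, p2_mk, mulVec_mulVec, h, one_mulVec]
  calc (2 : L)⁻¹ • (w + (2 : L)⁻¹ • u + (w - (2 : L)⁻¹ • u)) = (2 : L)⁻¹ • (w + w) := by
        congr 1
        abel
    _ = w := by rw [smul_add, half_add h2]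

theorem p1_eq (h2 : (2 : L) ≠ 0) (z : Fin (n + n') → L) :
    p1 z = ww A' z + (2 : L)⁻¹ • uu A' z := by
  rw [uu_apply, ww_apply, smul_add, smul_sub]
  calc p1 z = (2 : L)⁻¹ • p1 z + (2 : L)⁻¹ • p1 z := (half_add h2 _).symm
    _ = _ := by abel

theorem p2_eq (h2 : (2 : L) ≠ 0) (z : Fin (n + n') → L) :
    A' *ᵥ p2 z = ww A' z - (2 : L)⁻¹ • uu A' z := by
  rw [uu_apply, ww_apply, smul_add, smul_sub]
  calc A' *ᵥ p2 z = (2 : L)⁻¹ • (A' *ᵥ p2 z) + (2 : L)⁻¹ • (A' *ᵥ p2 z) := (half_add h2 _).symm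
    _ = _ := by abel

theorem p2_eq' (h2 : (2 : L) ≠ 0) (h : A * A' = 1) (z : Fin (n + n') → L) :
    p2 z = A *ᵥ (ww A' z - (2 : L)⁻¹ • uu A' z) := by
  rw [← p2_eq h2, mulVec_mulVec, h, one_mulVec]

theorem ext_uw (h2 : (2 : L) ≠ 0) (h : A * A' = 1) {x y : Fin (n + n') → L}
    (hu : uu A' x = uu A' y) (hw : ww A' x = ww A' y) : x = y := by
  apply ext_p
  · rw [p1_eq (A' := A') h2 x, p1_eq (A' := A') h2 y, hu, hw]
  · rw [p2_eq' h2 h x, p2_eq' h2 h y, hu, hw]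

/-- the form in the new coordinates -/
theorem form_uw (h2 : (2 : L) ≠ 0) (h : A * A' = 1) {β : Matrix (Fin n) (Fin n) L}
    {β' : Matrix (Fin n') (Fin n') L} (hβ : Aᵀ * β' * A = β) (x y : Fin (n + n') → L) :
    x ⬝ᵥ (blk β (-β') *ᵥ y) = ww A' x ⬝ᵥ (β *ᵥ uu A' y) + uu A' x ⬝ᵥ (β *ᵥ ww A' y) := by
  have h0 : ∀ u v : Fin n → L, (A *ᵥ u) ⬝ᵥ (β' *ᵥ (A *ᵥ v)) = u ⬝ᵥ (β *ᵥ v) := by
    intro u v
    rw [← hβ, ← mulVec_mulVec, ← mulVec_mulVec, dotProduct_mulVec u, vecMul_transpose]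
  rw [dot_eq, p1_mul, p2_mul, Matrix.neg_mulVec, dotProduct_neg, p1_eq (A' := A') h2 x,
    p1_eq (A' := A') h2 y, p2_eq' h2 h x, p2_eq' h2 h y, h0]
  simp only [mulVec_add, mulVec_sub, mulVec_smul, add_dotProduct, dotProduct_add, sub_dotProduct,
    dotProduct_sub, smul_dotProduct, dotProduct_smul, smul_eq_mul]
  field_simp
  ring

end Coord

section Main

variable {p : ℕ} [Fact p.Prime] {L : Type} [NormedField L] [NormedAlgebra ℚ_[p] L] {n n' : ℕ}

variable (p) in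
/-- the lattice given by the matrix `S` -/
def lat (S : Matrix (Fin n) (Fin n) L) : AddSubgroup (Fin n → L) where
  carrier := {x | ‖S *ᵥ x‖ ≤ 1}
  add_mem' := by
    intro x y hx hy
    change ‖S *ᵥ (x + y)‖ ≤ 1
    rw [mulVec_add, pi_norm_le_iff_of_nonneg zero_le_one]
    intro i
    exact norm_add_le_one (p := p) ((norm_le_pi_norm _ i).trans hx)
      ((norm_le_pi_norm _ i).trans hy)
  zero_mem' := by
    change ‖S *ᵥ (0 : Fin n → L)‖ ≤ 1
    rw [mulVec_zero, norm_zero]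
    exact zero_le_one
  neg_mem' := by
    intro x hx
    change ‖S *ᵥ (-x)‖ ≤ 1
    rw [mulVec_neg, norm_neg]
    exact hx

theorem mem_lat (S : Matrix (Fin n) (Fin n) L) (x : Fin n → L) :
    x ∈ lat p S ↔ ‖S *ᵥ x‖ ≤ 1 := Iff.rfl

theorem mem_dlt (β : Matrix (Fin n) (Fin n) L) (X : AddSubgroup (Fin n → L)) (z : Fin n → L) :
    z ∈ dlt p β X ↔ ∀ x ∈ X, ‖x ⬝ᵥ (β *ᵥ z)‖ ≤ 1 := Iff.rfl

variable (p) in
/-- the lattices in the sum -/
def TT (A' : Matrix (Fin n) (Fin n') L) (S β : Matrix (Fin n) (Fin n) L) (c : L) :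
    AddSubgroup (Fin (n + n') → L) :=
  (lat p S).comap (uu A').toAddMonoidHom ⊓ (dlt p β (lat p S)).comap (c⁻¹ • ww A').toAddMonoidHom

theorem mem_TT {A' : Matrix (Fin n) (Fin n') L} {S β : Matrix (Fin n) (Fin n) L} {c : L}
    {z : Fin (n + n') → L} :
    z ∈ TT p A' S β c ↔ uu A' z ∈ lat p S ∧ c⁻¹ • ww A' z ∈ dlt p β (lat p S) := Iff.rfl

/-- the dual in matrix form -/
theorem mem_dlt_lat {S β : GL (Fin n) L} (z : Fin n → L) :
    z ∈ dlt p (β : Matrix (Fin n) (Fin n) L) (lat p (S : Matrix (Fin n) (Fin n) L)) ↔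
      ‖(((S⁻¹ : GL (Fin n) L) : Matrix (Fin n) (Fin n) L)ᵀ * (β : Matrix (Fin n) (Fin n) L)) *ᵥ z‖
        ≤ 1 := by
  have hu := BKND.DG.ultra (p := p) L
  have h1 : ∀ x : Fin n → L, x ⬝ᵥ ((β : Matrix (Fin n) (Fin n) L) *ᵥ z) =
      ((S : Matrix (Fin n) (Fin n) L) *ᵥ x) ⬝ᵥ
        ((((S⁻¹ : GL (Fin n) L) : Matrix (Fin n) (Fin n) L)ᵀ *
          (β : Matrix (Fin n) (Fin n) L)) *ᵥ z) := by
    intro x
    rw [← mulVec_mulVec, dotProduct_mulVec ((S : Matrix (Fin n) (Fin n) L) *ᵥ x), vecMul_transpose,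
      mulVec_mulVec, ← Units.val_mul, inv_mul_cancel, Units.val_one, one_mulVec]
  constructor
  · intro h
    rw [pi_norm_le_iff_of_nonneg zero_le_one]
    intro i
    have h2 := h (((S⁻¹ : GL (Fin n) L) : Matrix (Fin n) (Fin n) L) *ᵥ Pi.single i 1) (by
      rw [mem_lat, mulVec_mulVec, ← Units.val_mul, mul_inv_cancel, Units.val_one, one_mulVec,
        pi_norm_le_iff_of_nonneg zero_le_one]
      intro j
      by_cases hj : j = i
      · subst hj
        rw [Pi.single_eq_same, norm_one]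
      · rw [Pi.single_eq_of_ne hj, norm_zero]
        exact zero_le_one)
    rw [h1, mulVec_mulVec, ← Units.val_mul, mul_inv_cancel, Units.val_one, one_mulVec,
      single_one_dotProduct] at h2
    exact h2
  · intro h x hx
    rw [h1]
    rw [mem_lat] at hx
    change ‖∑ i, _ * _‖ ≤ 1
    refine IsUltrametricDist.norm_sum_le_of_forall_le_of_nonneg zero_le_one fun i _ => ?_
    rw [norm_mul]
    exact mul_le_one₀ ((norm_le_pi_norm _ i).trans hx) (norm_nonneg _)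
      ((norm_le_pi_norm _ i).trans h)

end Main

section Rep

variable {p : ℕ} [Fact p.Prime] {L : Type} [NormedField L] [NormedAlgebra ℚ_[p] L] {n n' m : ℕ}
  {D : Type} [Group D] {χ : D →* ℤ_[p]ˣ} {τ : D →* D} {s : D} {a : ℤ_[p]ˣ}

theorem norm_uL (a : ℤ_[p]ˣ) : ‖uL L a‖ = 1 := by
  unfold uL
  rw [norm_algebraMap', ← PadicInt.norm_def, PadicInt.norm_units]

theorem norm_chL (d : D) : ‖BKOdd.chL χ L d‖ = 1 := norm_uL (χ d)

theorem pair_d {V : D →* GL (Fin n) L} {β : Matrix (Fin n) (Fin n) L}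
    (hd : IsDual χ V (V.comp τ) β) (d : D) (x z : Fin n → L) :
    ((V d : Matrix (Fin n) (Fin n) L) *ᵥ x) ⬝ᵥ
        (β *ᵥ ((V (τ d) : Matrix (Fin n) (Fin n) L) *ᵥ z)) =
      BKOdd.chL χ L d * (x ⬝ᵥ (β *ᵥ z)) := by
  have h1 : x ⬝ᵥ (((V d : Matrix (Fin n) (Fin n) L)ᵀ * β *
      ((V.comp τ) d : Matrix (Fin n) (Fin n) L)) *ᵥ z) =
      x ⬝ᵥ ((BKOdd.chL χ L d • β) *ᵥ z) := by rw [hd d]
  rw [smul_mulVec, dotProduct_smul, ← mulVec_mulVec, ← mulVec_mulVec, dotProduct_mulVec x,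
    vecMul_transpose] at h1
  exact h1

theorem pair_s {V : D →* GL (Fin n) L} {β : GL (Fin n) L} (h : FrmL χ τ s a V β)
    (x z : Fin n → L) :
    x ⬝ᵥ ((β : Matrix (Fin n) (Fin n) L) *ᵥ z) =
      uL L a * (z ⬝ᵥ ((β : Matrix (Fin n) (Fin n) L) *ᵥ
        ((V s : Matrix (Fin n) (Fin n) L) *ᵥ x))) := by
  have h1 : x ⬝ᵥ ((β : Matrix (Fin n) (Fin n) L) *ᵥ z) =
      x ⬝ᵥ ((uL L a • ((V s : Matrix (Fin n) (Fin n) L)ᵀ *
        (β : Matrix (Fin n) (Fin n) L)ᵀ)) *ᵥ z) := by rw [← h.symm]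
  rw [h1, smul_mulVec, dotProduct_smul, ← mulVec_mulVec, dotProduct_mulVec x, vecMul_transpose,
    dotProduct_mulVec, vecMul_transpose, dotProduct_comm, smul_eq_mul]

theorem tau_surj (hsq : ∀ d, τ (τ d) = s * d * s⁻¹) (d : D) : ∃ e, τ e = d :=
  ⟨τ (s⁻¹ * d * s), by rw [hsq]; group⟩

theorem inv_mulVec (M : GL (Fin m) L) (x : Fin m → L) :
    ((M⁻¹ : GL (Fin m) L) : Matrix (Fin m) (Fin m) L) *ᵥ
      ((M : Matrix (Fin m) (Fin m) L) *ᵥ x) = x := by
  rw [mulVec_mulVec, ← Units.val_mul, inv_mul_cancel, Units.val_one, one_mulVec]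

theorem mulVec_inv (M : GL (Fin m) L) (x : Fin m → L) :
    (M : Matrix (Fin m) (Fin m) L) *ᵥ
      (((M⁻¹ : GL (Fin m) L) : Matrix (Fin m) (Fin m) L) *ᵥ x) = x := by
  rw [mulVec_mulVec, ← Units.val_mul, mul_inv_cancel, Units.val_one, one_mulVec]

theorem dlt_stab {V : D →* GL (Fin n) L} {β : Matrix (Fin n) (Fin n) L}
    (hd : IsDual χ V (V.comp τ) β) (hsq : ∀ d, τ (τ d) = s * d * s⁻¹)
    {X : AddSubgroup (Fin n → L)} (hX : ∀ d, ∀ x ∈ X, (V d : Matrix (Fin n) (Fin n) L) *ᵥ x ∈ X)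
    (d : D) {z : Fin n → L} (hz : z ∈ dlt p β X) :
    (V d : Matrix (Fin n) (Fin n) L) *ᵥ z ∈ dlt p β X := by
  obtain ⟨e, rfl⟩ := tau_surj hsq d
  intro x hx
  have h1 := pair_d hd e ((V e⁻¹ : Matrix (Fin n) (Fin n) L) *ᵥ x) z
  rw [map_inv, mulVec_inv] at h1
  rw [h1, norm_mul, norm_chL, one_mul]
  refine hz _ ?_
  rw [← map_inv]
  exact hX _ x hx

theorem dlt_smul {β : Matrix (Fin n) (Fin n) L} {X : AddSubgroup (Fin n → L)} (b : L)
    (hb : ‖b‖ ≤ 1) {z : Fin n → L} (hz : z ∈ dlt p β X) : b • z ∈ dlt p β X := by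
  intro x hx
  rw [mulVec_smul, dotProduct_smul, smul_eq_mul, norm_mul]
  exact mul_le_one₀ hb (norm_nonneg _) (hz x hx)

/-- the double dual -/
theorem ddual {V : D →* GL (Fin n) L} {β S : GL (Fin n) L} (h : FrmL χ τ s a V β)
    (hsq : ∀ d, τ (τ d) = s * d * s⁻¹)
    (hX : ∀ d, ∀ x ∈ lat p (S : Matrix (Fin n) (Fin n) L),
      (V d : Matrix (Fin n) (Fin n) L) *ᵥ x ∈ lat p (S : Matrix (Fin n) (Fin n) L))
    (u : Fin n → L) : u ∈ lat p (S : Matrix (Fin n) (Fin n) L) ↔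
      ∀ w ∈ dlt p (β : Matrix (Fin n) (Fin n) L) (lat p (S : Matrix (Fin n) (Fin n) L)),
        ‖w ⬝ᵥ ((β : Matrix (Fin n) (Fin n) L) *ᵥ u)‖ ≤ 1 := by
  constructor
  · intro hu w hw
    rw [pair_s h, norm_mul, norm_uL, one_mul]
    exact dlt_stab h.dual hsq hX s hw u hu
  · intro hu
    rw [mem_lat, pi_norm_le_iff_of_nonneg zero_le_one]
    intro i
    have h1 : ((β⁻¹ : GL (Fin n) L) : Matrix (Fin n) (Fin n) L) *ᵥ
        ((S : Matrix (Fin n) (Fin n) L)ᵀ *ᵥ Pi.single i 1) ∈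
        dlt p (β : Matrix (Fin n) (Fin n) L) (lat p (S : Matrix (Fin n) (Fin n) L)) := by
      intro x hx
      rw [mulVec_inv, dotProduct_mulVec, vecMul_transpose, dotProduct_single_one]
      exact (norm_le_pi_norm _ i).trans hx
    have h2 := hu _ (dlt_stab h.dual hsq hX s⁻¹ h1)
    rw [pair_s h, norm_mul, norm_uL, one_mul, map_inv, mulVec_inv, mulVec_inv, dotProduct_mulVec,
      vecMul_transpose, dotProduct_single_one] at h2
    exact h2

variable {V : D →* GL (Fin n) L} {V' : D →* GL (Fin n') L} {A : Matrix (Fin n') (Fin n) L}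
  {A' : Matrix (Fin n) (Fin n') L}

theorem uu_d (hA : ∀ d, A' * (V' d : Matrix (Fin n') (Fin n') L) =
    (V d : Matrix (Fin n) (Fin n) L) * A') (d : D) (z : Fin (n + n') → L) :
    uu A' ((dsum V V' d : Matrix (Fin (n + n')) (Fin (n + n')) L) *ᵥ z) =
      (V d : Matrix (Fin n) (Fin n) L) *ᵥ uu A' z := by
  change p1 (blk _ _ *ᵥ z) - A' *ᵥ p2 (blk _ _ *ᵥ z) = _
  rw [p1_mul, p2_mul, mulVec_mulVec, hA, uu_apply, mulVec_sub, mulVec_mulVec]

theorem ww_d (hA : ∀ d, A' * (V' d : Matrix (Fin n') (Fin n') L) =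
    (V d : Matrix (Fin n) (Fin n) L) * A') (d : D) (z : Fin (n + n') → L) :
    ww A' ((dsum V V' d : Matrix (Fin (n + n')) (Fin (n + n')) L) *ᵥ z) =
      (V d : Matrix (Fin n) (Fin n) L) *ᵥ ww A' z := by
  change (2 : L)⁻¹ • (p1 (blk _ _ *ᵥ z) + A' *ᵥ p2 (blk _ _ *ᵥ z)) = _
  rw [p1_mul, p2_mul, mulVec_mulVec, hA, ww_apply, mulVec_smul, mulVec_add, mulVec_mulVec]

/-- the lattices `TT` are stable -/
theorem lt_TT {β S : GL (Fin n) L} (h : FrmL χ τ s a V β) (hsq : ∀ d, τ (τ d) = s * d * s⁻¹)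
    (h2 : (2 : L) ≠ 0) (hAA : A * A' = 1) (hA : ∀ d, A' * (V' d : Matrix (Fin n') (Fin n') L) =
      (V d : Matrix (Fin n) (Fin n) L) * A')
    (hX : ∀ d, ∀ x ∈ lat p (S : Matrix (Fin n) (Fin n) L),
      (V d : Matrix (Fin n) (Fin n) L) *ᵥ x ∈ lat p (S : Matrix (Fin n) (Fin n) L))
    (c : L) (hc : c ≠ 0) : Lt (dsum V V')
      (TT p A' (S : Matrix (Fin n) (Fin n) L) (β : Matrix (Fin n) (Fin n) L) c) := by
  obtain ⟨C1, hC1, hC1'⟩ := bdM ((S⁻¹ : GL (Fin n) L) : Matrix (Fin n) (Fin n) L)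
  obtain ⟨C2, hC2, hC2'⟩ := bdM (((β⁻¹ : GL (Fin n) L) : Matrix (Fin n) (Fin n) L) *
    (S : Matrix (Fin n) (Fin n) L)ᵀ)
  obtain ⟨C3, hC3, hC3'⟩ := bdM A
  obtain ⟨C4, hC4, hC4'⟩ := bdM A'
  obtain ⟨C5, hC5, hC5'⟩ := bdM (S : Matrix (Fin n) (Fin n) L)
  obtain ⟨C6, hC6, hC6'⟩ := bdM (((S⁻¹ : GL (Fin n) L) : Matrix (Fin n) (Fin n) L)ᵀ *
    (β : Matrix (Fin n) (Fin n) L))
  have hp1 : ∀ z : Fin (n + n') → L, ‖p1 z‖ ≤ ‖z‖ := by
    intro z
    rw [pi_norm_le_iff_of_nonneg (norm_nonneg _)]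
    exact fun i => norm_le_pi_norm z _
  have hp2 : ∀ z : Fin (n + n') → L, ‖p2 z‖ ≤ ‖z‖ := by
    intro z
    rw [pi_norm_le_iff_of_nonneg (norm_nonneg _)]
    exact fun i => norm_le_pi_norm z _
  refine ⟨⟨(1 + C3) * (‖c‖ * C2 + ‖(2 : L)⁻¹‖ * C1), fun z hz => ?_⟩, ?_, fun b hb z hz => ?_,
    fun d z hz => ?_⟩
  · rw [mem_TT, mem_lat, mem_dlt_lat] at hz
    obtain ⟨hz1, hz2⟩ := hz
    have hu : ‖uu A' z‖ ≤ C1 := by
      rw [← inv_mulVec S (uu A' z)]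
      exact (hC1' _).trans (mul_le_of_le_one_right hC1 hz1)
    have hw : ‖ww A' z‖ ≤ ‖c‖ * C2 := by
      have e1 : ww A' z = c • ((((β⁻¹ : GL (Fin n) L) : Matrix (Fin n) (Fin n) L) *
          (S : Matrix (Fin n) (Fin n) L)ᵀ) *ᵥ
          ((((S⁻¹ : GL (Fin n) L) : Matrix (Fin n) (Fin n) L)ᵀ *
          (β : Matrix (Fin n) (Fin n) L)) *ᵥ (c⁻¹ • ww A' z))) := by
        rw [← mulVec_mulVec, ← mulVec_mulVec, mulVec_mulVec _ (S : Matrix (Fin n) (Fin n) L)ᵀ,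
          ← transpose_mul, ← Units.val_mul, inv_mul_cancel, Units.val_one, transpose_one,
          one_mulVec, inv_mulVec, smul_smul, mul_inv_cancel₀ hc, one_smul]
      rw [e1, norm_smul]
      exact mul_le_mul_of_nonneg_left ((hC2' _).trans (mul_le_of_le_one_right hC2 hz2))
        (norm_nonneg _)
    have hK : 0 ≤ ‖c‖ * C2 + ‖(2 : L)⁻¹‖ * C1 := by positivity
    have hv1 : ‖ww A' z + (2 : L)⁻¹ • uu A' z‖ ≤ ‖c‖ * C2 + ‖(2 : L)⁻¹‖ * C1 := by
      refine (norm_add_le _ _).trans (add_le_add hw ?_)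
      rw [norm_smul]
      exact mul_le_mul_of_nonneg_left hu (norm_nonneg _)
    have hv2 : ‖ww A' z - (2 : L)⁻¹ • uu A' z‖ ≤ ‖c‖ * C2 + ‖(2 : L)⁻¹‖ * C1 := by
      refine (norm_sub_le _ _).trans (add_le_add hw ?_)
      rw [norm_smul]
      exact mul_le_mul_of_nonneg_left hu (norm_nonneg _)
    have hq1 : ‖p1 z‖ ≤ (1 + C3) * (‖c‖ * C2 + ‖(2 : L)⁻¹‖ * C1) := by
      rw [p1_eq (A' := A') h2 z]
      refine hv1.trans ?_
      nlinarith
    have hq2 : ‖p2 z‖ ≤ (1 + C3) * (‖c‖ * C2 + ‖(2 : L)⁻¹‖ * C1) := by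
      rw [p2_eq' h2 hAA z]
      refine (hC3' _).trans ?_
      nlinarith [mul_le_mul_of_nonneg_left hv2 hC3]
    rw [pi_norm_le_iff_of_nonneg (by positivity)]
    intro k
    obtain ⟨t, rfl⟩ := finSumFinEquiv.surjective k
    cases t with
    | inl i => exact (norm_le_pi_norm (p1 z) i).trans hq1
    | inr i => exact (norm_le_pi_norm (p2 z) i).trans hq2
  · set K : ℝ := C5 * (1 + C4) + C6 * (‖c⁻¹‖ * (‖(2 : L)⁻¹‖ * (1 + C4))) + 1 with hK
    have hK0 : 0 < K := by positivity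
    refine ⟨K⁻¹, inv_pos.2 hK0, fun z hz => ?_⟩
    have hz1 : ‖A' *ᵥ p2 z‖ ≤ C4 * ‖z‖ :=
      (hC4' _).trans (mul_le_mul_of_nonneg_left (hp2 z) hC4)
    have hu : ‖uu A' z‖ ≤ (1 + C4) * ‖z‖ := by
      rw [uu_apply]
      refine (norm_sub_le _ _).trans ?_
      nlinarith [hp1 z]
    have hw : ‖ww A' z‖ ≤ (‖(2 : L)⁻¹‖ * (1 + C4)) * ‖z‖ := by
      rw [ww_apply, norm_smul, mul_assoc]
      refine mul_le_mul_of_nonneg_left ((norm_add_le _ _).trans ?_) (norm_nonneg _)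
      nlinarith [hp1 z]
    have hKz : K * ‖z‖ ≤ 1 := by
      calc K * ‖z‖ ≤ K * K⁻¹ := mul_le_mul_of_nonneg_left hz hK0.le
        _ = 1 := mul_inv_cancel₀ hK0.ne'
    have hn := norm_nonneg z
    have hx1 : 0 ≤ C5 * (1 + C4) * ‖z‖ := by positivity
    have hx2 : 0 ≤ C6 * (‖c⁻¹‖ * (‖(2 : L)⁻¹‖ * (1 + C4))) * ‖z‖ := by positivity
    rw [hK, add_mul, add_mul, one_mul] at hKz
    rw [mem_TT, mem_lat, mem_dlt_lat]
    constructor
    · refine (hC5' _).trans ?_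
      calc C5 * ‖uu A' z‖ ≤ C5 * ((1 + C4) * ‖z‖) := mul_le_mul_of_nonneg_left hu hC5
        _ = C5 * (1 + C4) * ‖z‖ := (mul_assoc _ _ _).symm
        _ ≤ 1 := by linarith
    · refine (hC6' _).trans ?_
      rw [norm_smul]
      calc C6 * (‖c⁻¹‖ * ‖ww A' z‖) ≤ C6 * (‖c⁻¹‖ * ((‖(2 : L)⁻¹‖ * (1 + C4)) * ‖z‖)) :=
            mul_le_mul_of_nonneg_left (mul_le_mul_of_nonneg_left hw (norm_nonneg _)) hC6
        _ = C6 * (‖c⁻¹‖ * (‖(2 : L)⁻¹‖ * (1 + C4))) * ‖z‖ := by ring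
        _ ≤ 1 := by linarith
  · rw [mem_TT] at hz ⊢
    rw [map_smul, map_smul, smul_comm]
    refine ⟨?_, dlt_smul b hb hz.2⟩
    rw [mem_lat, mulVec_smul, norm_smul]
    exact mul_le_one₀ hb (norm_nonneg _) hz.1
  · rw [mem_TT] at hz ⊢
    rw [uu_d hA, ww_d hA, ← mulVec_smul]
    exact ⟨hX d _ hz.1, dlt_stab h.dual hsq hX d hz.2⟩

/-- the lattices `TT` are self-dual -/
theorem dlt_TT {β S : GL (Fin n) L} {β' : GL (Fin n') L} (h : FrmL χ τ s a V β)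
    (hsq : ∀ d, τ (τ d) = s * d * s⁻¹) (h2 : (2 : L) ≠ 0) (hAA : A * A' = 1) (hAA' : A' * A = 1)
    (hβ : Aᵀ * (β' : Matrix (Fin n') (Fin n') L) * A = (β : Matrix (Fin n) (Fin n) L))
    (hX : ∀ d, ∀ x ∈ lat p (S : Matrix (Fin n) (Fin n) L),
      (V d : Matrix (Fin n) (Fin n) L) *ᵥ x ∈ lat p (S : Matrix (Fin n) (Fin n) L))
    (c : L) (hc : c ≠ 0) :
    dlt p (c⁻¹ • (blkG β (-β') : Matrix (Fin (n + n')) (Fin (n + n')) L))
      (TT p A' (S : Matrix (Fin n) (Fin n) L) (β : Matrix (Fin n) (Fin n) L) c) =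
      TT p A' (S : Matrix (Fin n) (Fin n) L) (β : Matrix (Fin n) (Fin n) L) c := by
  have hf : ∀ x z : Fin (n + n') → L,
      x ⬝ᵥ ((c⁻¹ • (blkG β (-β') : Matrix (Fin (n + n')) (Fin (n + n')) L)) *ᵥ z) =
        (c⁻¹ • ww A' x) ⬝ᵥ ((β : Matrix (Fin n) (Fin n) L) *ᵥ uu A' z) +
        uu A' x ⬝ᵥ ((β : Matrix (Fin n) (Fin n) L) *ᵥ (c⁻¹ • ww A' z)) := by
    intro x z
    rw [smul_mulVec, dotProduct_smul]
    change c⁻¹ • (x ⬝ᵥ (blk (β : Matrix (Fin n) (Fin n) L)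
      (-(β' : Matrix (Fin n') (Fin n') L)) *ᵥ z)) = _
    rw [form_uw h2 hAA hβ, smul_add, smul_dotProduct, mulVec_smul, dotProduct_smul]
  ext z
  constructor
  · intro hz
    rw [mem_TT]
    constructor
    · rw [ddual h hsq hX]
      intro w hw
      have h3 := hz (mk A 0 (c • w)) (by
        rw [mem_TT, uu_mk h2 hAA', ww_mk h2 hAA', smul_smul, inv_mul_cancel₀ hc, one_smul]
        exact ⟨zero_mem _, hw⟩)
      rw [hf, uu_mk h2 hAA', ww_mk h2 hAA', smul_smul, inv_mul_cancel₀ hc, one_smul,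
        zero_dotProduct, add_zero] at h3
      exact h3
    · intro u hu
      have h3 := hz (mk A u 0) (by
        rw [mem_TT, uu_mk h2 hAA', ww_mk h2 hAA', smul_zero]
        exact ⟨hu, zero_mem _⟩)
      rw [hf, uu_mk h2 hAA', ww_mk h2 hAA', smul_zero, zero_dotProduct, zero_add] at h3
      exact h3
  · intro hz x hx
    rw [mem_TT] at hz hx
    rw [hf]
    exact norm_add_le_one (p := p) ((ddual h hsq hX _).1 hz.1 _ hx.2) (hz.2 _ hx.1)

/-- the orders for `TT` do not depend on `c` -/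
theorem rel_TT {β S : Matrix (Fin n) (Fin n) L} (h2 : (2 : L) ≠ 0) (hAA : A * A' = 1)
    (hAA' : A' * A = 1) (hA : ∀ d, A' * (V' d : Matrix (Fin n') (Fin n') L) =
      (V d : Matrix (Fin n) (Fin n) L) * A') (c : L) (hc : c ≠ 0) :
    (TT p A' S β 1).relIndex (fixL (dsum V V') (TT p A' S β 1)) =
      (TT p A' S β c).relIndex (fixL (dsum V V') (TT p A' S β c)) := by
  let θ : (Fin (n + n') → L) →+ (Fin (n + n') → L) :=
    { toFun := fun z => mk A (uu A' z) (c • ww A' z)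
      map_zero' := by
        apply ext_uw h2 hAA (A' := A')
        · rw [uu_mk h2 hAA']
        · rw [ww_mk h2 hAA', map_zero, smul_zero]
      map_add' := fun x y => by
        apply ext_uw h2 hAA (A' := A')
        · rw [uu_mk h2 hAA', map_add, map_add, uu_mk h2 hAA', uu_mk h2 hAA']
        · rw [ww_mk h2 hAA', map_add, smul_add, map_add, ww_mk h2 hAA', ww_mk h2 hAA'] }
  have hθu : ∀ z, uu A' (θ z) = uu A' z := fun z => uu_mk h2 hAA' _ _
  have hθw : ∀ z, ww A' (θ z) = c • ww A' z := fun z => ww_mk h2 hAA' _ _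
  have hsurj : Function.Surjective θ := by
    intro z
    refine ⟨mk A (uu A' z) (c⁻¹ • ww A' z), ext_uw h2 hAA (A' := A') ?_ ?_⟩
    · rw [hθu, uu_mk h2 hAA']
    · rw [hθw, ww_mk h2 hAA', smul_smul, mul_inv_cancel₀ hc, one_smul]
  have hT : ∀ z, z ∈ TT p A' S β 1 ↔ θ z ∈ TT p A' S β c := by
    intro z
    rw [mem_TT, mem_TT, hθu, hθw, smul_smul, inv_mul_cancel₀ hc, inv_one]
  have hT' : TT p A' S β 1 = (TT p A' S β c).comap θ := by
    ext z
    exact hT z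
  have hF : (fixL (dsum V V') (TT p A' S β 1)).map θ = fixL (dsum V V') (TT p A' S β c) := by
    have h3 : fixL (dsum V V') (TT p A' S β 1) =
        (fixL (dsum V V') (TT p A' S β c)).comap θ := by
      ext z
      refine forall_congr' fun d => ?_
      have h4 : θ ((dsum V V' d : Matrix (Fin (n + n')) (Fin (n + n')) L) *ᵥ z) =
          (dsum V V' d : Matrix (Fin (n + n')) (Fin (n + n')) L) *ᵥ θ z := by
        apply ext_uw h2 hAA (A' := A')
        · rw [hθu, uu_d hA, uu_d hA, hθu]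
        · rw [hθw, ww_d hA, ww_d hA, hθw, mulVec_smul]
      rw [hT, map_sub, h4]
    rw [h3]
    exact AddSubgroup.map_comap_eq_self_of_surjective hsurj _
  rw [← hF, ← AddSubgroup.relIndex_comap, ← hT']

/-- the form divided by a scalar -/
def gam (B : GL (Fin m) L) (c : L) (hc : c ≠ 0) : GL (Fin m) L where
  val := c⁻¹ • (B : Matrix (Fin m) (Fin m) L)
  inv := c • ((B⁻¹ : GL (Fin m) L) : Matrix (Fin m) (Fin m) L)
  val_inv := by
    rw [smul_mul_smul_comm, inv_mul_cancel₀ hc, ← Units.val_mul, mul_inv_cancel, one_smul]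
    rfl
  inv_val := by
    rw [smul_mul_smul_comm, mul_inv_cancel₀ hc, ← Units.val_mul, inv_mul_cancel, one_smul]
    rfl

theorem coe_gam (B : GL (Fin m) L) (c : L) (hc : c ≠ 0) :
    (gam B c hc : Matrix (Fin m) (Fin m) L) = c⁻¹ • (B : Matrix (Fin m) (Fin m) L) := rfl

theorem frm_gam {W : D →* GL (Fin m) L} {B : GL (Fin m) L} (h : FrmL χ τ s a W B) (c : L)
    (hc : c ≠ 0) : FrmL χ τ s a W (gam B c hc) := by
  constructor
  · intro d
    have h1 := h.dual d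
    rw [coe_gam, Matrix.mul_smul, Matrix.smul_mul, h1, smul_comm]
  · have h1 := h.symm
    rw [coe_gam, transpose_smul, Matrix.mul_smul, smul_comm, ← h1]

theorem blk_smul (b : L) (M : Matrix (Fin n) (Fin n) L) (M' : Matrix (Fin n') (Fin n') L) :
    b • blk M M' = blk (b • M) (b • M') := by
  unfold blk
  ext i j
  simp only [Matrix.smul_apply, Matrix.submatrix_apply]
  rcases finSumFinEquiv.symm i with i | i <;> rcases finSumFinEquiv.symm j with j | j <;> simp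

theorem frm_dsum {β : GL (Fin n) L} {β' : GL (Fin n') L} (h : FrmL χ τ s a V β)
    (h' : FrmL χ τ s a V' β') : FrmL χ τ s a (dsum V V') (blkG β (-β')) := by
  have hval : ((blkG β (-β') : GL (Fin (n + n')) L) : Matrix (Fin (n + n')) (Fin (n + n')) L) =
      blk (β : Matrix (Fin n) (Fin n) L) (-(β' : Matrix (Fin n') (Fin n') L)) := rfl
  constructor
  · intro d
    have h1 := h.dual d
    have h1' := h'.dual d
    rw [hval]
    change (blk _ _)ᵀ * blk _ _ * blk _ _ = _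
    rw [blk_transpose, blk_mul, blk_mul, blk_smul]
    congr 1
    rw [Matrix.mul_neg, Matrix.neg_mul, smul_neg]
    exact congrArg Neg.neg h1'
  · have h1 := h.symm
    have h1' := h'.symm
    rw [hval]
    change _ = uL L a • ((blk _ _)ᵀ * (blk _ _)ᵀ)
    rw [blk_transpose, blk_transpose, blk_mul, blk_smul]
    congr 1
    rw [transpose_neg, Matrix.mul_neg, smul_neg, ← h1']

end Rep

end WHYPL

open WHYPL HWEQ in
/-- Module HYPL: the local term of the sum of two isometric representations is even. -/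
theorem stHypl0 (h1 : StLinv) : StHypl := by
  intro p _ hp2 L _ _ _ D _ _ _ _ _ χ hχ inv hinv τ s a hτ n n' V V' β β' hV hNo hf hf' A A' hAA'
    hAA hA hβ T N hT hN hTd hNd
  have h2 : (2 : L) ≠ 0 := by
    have := charZero_of_injective_algebraMap (algebraMap ℚ_[p] L).injective
    exact two_ne_zero
  have hA' : ∀ d, A' * (V' d : Matrix (Fin n') (Fin n') L) =
      (V d : Matrix (Fin n) (Fin n) L) * A' := by
    intro d
    calc A' * (V' d : Matrix (Fin n') (Fin n') L) =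
          A' * ((V' d : Matrix (Fin n') (Fin n') L) * A) * A' := by
          rw [Matrix.mul_assoc, Matrix.mul_assoc, hAA, Matrix.mul_one]
      _ = (V d : Matrix (Fin n) (Fin n) L) * A' := by
          rw [← hA, ← Matrix.mul_assoc, hAA', Matrix.one_mul]
  have hV'eq : ∀ d, (V' d : Matrix (Fin n') (Fin n') L) =
      A * (V d : Matrix (Fin n) (Fin n) L) * A' := by
    intro d
    rw [hA, Matrix.mul_assoc, hAA, Matrix.mul_one]
  have hV' : Continuous V' := by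
    rw [Units.continuous_iff]
    have hV2 := Units.continuous_iff.1 hV
    constructor
    · have e1 : (Units.val ∘ V') = fun d => A * (V d : Matrix (Fin n) (Fin n) L) * A' := by
        funext d
        exact hV'eq d
      rw [e1]
      exact (continuous_const.matrix_mul hV2.1).matrix_mul continuous_const
    · have e1 : (fun d => (((V' d)⁻¹ : GL (Fin n') L) : Matrix (Fin n') (Fin n') L)) =
          fun d => A * (((V d)⁻¹ : GL (Fin n) L) : Matrix (Fin n) (Fin n) L) * A' := by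
        funext d
        rw [← map_inv, ← map_inv]
        exact hV'eq d⁻¹
      rw [e1]
      exact (continuous_const.matrix_mul hV2.2).matrix_mul continuous_const
  have hW : Continuous (dsum V V') := FSUMH.continuous_dsum V V' hV hV'
  have hNoW : NoInv (dsum V V') := by
    intro z hz
    have hu : uu A' z = 0 := hNo _ fun d => by rw [← uu_d hA', hz]
    have hw : ww A' z = 0 := hNo _ fun d => by rw [← ww_d hA', hz]
    refine ext_uw h2 hAA (A' := A') ?_ ?_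
    · rw [hu, map_zero]
    · rw [hw, map_zero]
  obtain ⟨S, ρ, hS⟩ := stLtx stLatM p L D n V hV
  have hX : ∀ d, ∀ x ∈ lat p (S : Matrix (Fin n) (Fin n) L),
      (V d : Matrix (Fin n) (Fin n) L) *ᵥ x ∈ lat p (S : Matrix (Fin n) (Fin n) L) := by
    intro d x hx
    rw [mem_lat] at hx ⊢
    have e1 : (S : Matrix (Fin n) (Fin n) L) *ᵥ ((V d : Matrix (Fin n) (Fin n) L) *ᵥ x) =
        (toL p L n (ρ d) : Matrix (Fin n) (Fin n) L) *ᵥ
          ((S : Matrix (Fin n) (Fin n) L) *ᵥ x) := by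
      rw [hS, mulVec_mulVec, mulVec_mulVec, ← Units.val_mul, ← Units.val_mul,
        inv_mul_cancel_right]
    rw [e1]
    refine norm_mulVec_le_one (p := p) _ (fun i j => ?_) _ hx
    exact ((ρ d : Matrix (Fin n) (Fin n) (OO p L)) i j).2
  have hpi : ((pi0 p L : OO p L) : L) ≠ 0 := pi0_ne p L
  have hF := frm_dsum hf hf'
  have hF1 := frm_gam hF 1 one_ne_zero
  have hF2 := frm_gam hF ((pi0 p L : OO p L) : L) hpi
  have hd1 := dlt_TT (p := p) (S := S) hf hτ.sq h2 hAA hAA' hβ hX 1 one_ne_zero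
  have hd2 := dlt_TT (p := p) (S := S) hf hτ.sq h2 hAA hAA' hβ hX _ hpi
  have hl1 := lt_TT (p := p) (S := S) hf hτ.sq h2 hAA hA' hX 1 one_ne_zero
  have hl2 := lt_TT (p := p) (S := S) hf hτ.sq h2 hAA hA' hX _ hpi
  have hr := rel_TT (p := p) (V := V) (V' := V') (β := (β : Matrix (Fin n) (Fin n) L))
    (S := (S : Matrix (Fin n) (Fin n) L)) h2 hAA hAA' hA' _ hpi
  have r1 := h1 p hp2 L D χ hχ inv hinv τ s a hτ (n + n') (dsum V V') (gam (blkG β (-β')) 1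
    one_ne_zero) hW hNoW hF1 T _ hT hl1 (by rw [coe_gam, inv_one, one_smul]; exact hTd) hd1
  have r2 := h1 p hp2 L D χ hχ inv hinv τ s a hτ (n + n') (dsum V V') (gam (blkG β (-β'))
    ((pi0 p L : OO p L) : L) hpi) hW hNoW hF2 N _ hN hl2 hNd hd2
  have r3 : lnD p (dsum V V') (TT p A' (S : Matrix (Fin n) (Fin n) L)
      (β : Matrix (Fin n) (Fin n) L) 1) = lnD p (dsum V V') (TT p A'
      (S : Matrix (Fin n) (Fin n) L) (β : Matrix (Fin n) (Fin n) L)
      ((pi0 p L : OO p L) : L)) := by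
    unfold lnD
    rw [hr]
  omega

/-- Module HYPL (the hypothesis on `GCOL` is not needed). -/
theorem stHypl (h1 : StLinv) (_ : StGcol) : StHypl := stHypl0 h1

end BKT
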