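import Pool.Agent.Lib.MP_7c08ba_nt.T1.StW
import Pool.Agent.Lib.MP_7c08ba_nt.T1.FLVT
import Pool.Agent.Lib.MP_7c08ba_nt.T1.UFXL
import Pool.Agent.Lib.MP_7c08ba_nt.T1.YLNAT
import Pool.Agent.Lib.MP_7c08ba_nt.Met.LMK
import Pool.Agent.Lib.MP_7c08ba_nt.Met.LRL
import Pool.Agent.Lib.MP_7c08ba_nt.Met.XCT

set_option autoImplicit false

/-!
Congruent representations, module LINV: the parity of the length of the invariants modulo a
self-dual lattice does not depend on the lattice.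
-/

noncomputable section

namespace BKT

open BKPar (Loc1 Loc2)
open BKND (Sm)
open BKMet
open Matrix

namespace WLINV

/-! ### Bilinear maps on quotients -/

theorem exists_lift2 {R : Type} [CommRing R] {J J' A : Type} [AddCommGroup J] [Module R J]
    [AddCommGroup J'] [Module R J'] [AddCommGroup A] (N : Submodule R J) (N' : Submodule R J')
    (f : J →+ J' →+ A) (h1 : ∀ x ∈ N, ∀ y, f x y = 0) (h2 : ∀ x, ∀ y ∈ N', f x y = 0) :
    ∃ g : (J ⧸ N) →+ (J' ⧸ N') →+ A, ∀ x y,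
      g (Submodule.Quotient.mk x) (Submodule.Quotient.mk y) = f x y := by
  classical
  choose σ hσ using fun q : J ⧸ N => Submodule.Quotient.mk_surjective N q
  choose σ' hσ' using fun q : J' ⧸ N' => Submodule.Quotient.mk_surjective N' q
  have e1 : ∀ x x' : J, (Submodule.Quotient.mk x : J ⧸ N) = Submodule.Quotient.mk x' →
      ∀ y, f x y = f x' y := by
    intro x x' h y
    have h3 := h1 _ ((Submodule.Quotient.eq N).1 h) y
    rw [map_sub, AddMonoidHom.sub_apply, sub_eq_zero] at h3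
    exact h3
  have e2 : ∀ y y' : J', (Submodule.Quotient.mk y : J' ⧸ N') = Submodule.Quotient.mk y' →
      ∀ x, f x y = f x y' := by
    intro y y' h x
    have h3 := h2 x _ ((Submodule.Quotient.eq N').1 h)
    rw [map_sub, sub_eq_zero] at h3
    exact h3
  refine ⟨AddMonoidHom.mk' (fun q => AddMonoidHom.mk' (fun r => f (σ q) (σ' r)) ?_) ?_, ?_⟩
  · intro r r'
    rw [← map_add]
    refine e2 _ _ ?_ _
    rw [hσ', Submodule.Quotient.mk_add, hσ', hσ']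
  · intro q q'
    refine AddMonoidHom.ext fun r => ?_
    change f (σ (q + q')) (σ' r) = f (σ q) (σ' r) + f (σ q') (σ' r)
    rw [← AddMonoidHom.add_apply, ← map_add]
    refine e1 _ _ ?_ _
    rw [hσ, Submodule.Quotient.mk_add, hσ, hσ]
  · intro x y
    change f (σ _) (σ' _) = f x y
    rw [e1 _ x (hσ _), e2 _ y (hσ' _)]

/-! ### Cohomology -/

section Coh

variable {R : Type} [CommRing R] {p : ℕ} [Fact p.Prime] {D : Type} [Group D] [TopologicalSpace D]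
  {χ : D →* ℤ_[p]ˣ} {M M' : Type} [AddCommGroup M] [Module R M] [AddCommGroup M'] [Module R M']

/-- the cocycles -/
def Z1M (X : Pair R (actA χ) M M') : Submodule R (D → M) where
  carrier := {f | f ∈ BKND.Z1 X.ρ}
  add_mem' := fun ha hb => (BKND.Z1 X.ρ).add_mem ha hb
  zero_mem' := (BKND.Z1 X.ρ).zero_mem
  smul_mem' := by
    intro r f hf
    refine ⟨BKND.Loc1.map hf.1 (r • ·), fun g h => ?_⟩
    change r • f (g * h) = r • f g + X.ρ g (r • f h)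
    rw [hf.2, smul_add, X.lin]

/-- the coboundaries -/
def B1M (X : Pair R (actA χ) M M') : Submodule R (D → M) where
  carrier := {f | f ∈ BKND.B1 X.ρ}
  add_mem' := fun ha hb => (BKND.B1 X.ρ).add_mem ha hb
  zero_mem' := (BKND.B1 X.ρ).zero_mem
  smul_mem' := by
    rintro r f ⟨m, hm⟩
    refine ⟨r • m, fun g => ?_⟩
    change r • f g = X.ρ g (r • m) - r • m
    rw [hm, smul_sub, X.lin]

theorem mem_Z1M {X : Pair R (actA χ) M M'} {f : D → M} : f ∈ Z1M X ↔ f ∈ BKND.Z1 X.ρ := Iff.rfl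

theorem mem_B1M {X : Pair R (actA χ) M M'} {f : D → M} : f ∈ B1M X ↔ f ∈ BKND.B1 X.ρ := Iff.rfl

theorem d0_mem (X : Pair R (actA χ) M M') (m : M) : d0 X.ρ m ∈ BKND.Z1 X.ρ := by
  refine ⟨?_, fun g h => ?_⟩
  · obtain ⟨W, hW, h⟩ := X.sm
    refine ⟨W, hW, fun g w hw => ?_⟩
    unfold d0
    rw [XCT.act_mul, h w hw]
    rfl
  · unfold d0
    rw [XCT.act_mul, map_sub]
    abel

theorem B1M_le (X : Pair R (actA χ) M M') : B1M X ≤ Z1M X := by
  rintro f ⟨m, hm⟩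
  have e : f = d0 X.ρ m := funext hm
  rw [e]
  exact d0_mem X m

/-- the first cohomology group -/
abbrev HM (X : Pair R (actA χ) M M') : Type := ↥(Z1M X) ⧸ (B1M X).comap (Z1M X).subtype

/-- the class of a cocycle -/
def cls (X : Pair R (actA χ) M M') : ↥(Z1M X) →ₗ[R] HM X := Submodule.mkQ _

theorem cls_surj (X : Pair R (actA χ) M M') (h : HM X) :
    ∃ (x : D → M) (hx : x ∈ Z1M X), cls X ⟨x, hx⟩ = h := by
  obtain ⟨⟨x, hx⟩, e⟩ := Submodule.mkQ_surjective _ h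
  exact ⟨x, hx, e⟩

theorem cls_eq {X : Pair R (actA χ) M M'} {x y : D → M} {hx : x ∈ Z1M X} {hy : y ∈ Z1M X} :
    cls X ⟨x, hx⟩ = cls X ⟨y, hy⟩ ↔ ∃ m, ∀ d, x d - y d = d0 X.ρ m d := by
  unfold cls
  rw [Submodule.mkQ_apply, Submodule.mkQ_apply, Submodule.Quotient.eq]
  exact Iff.rfl

theorem cls_eq_zero {X : Pair R (actA χ) M M'} {x : D → M} {hx : x ∈ Z1M X} :
    cls X ⟨x, hx⟩ = 0 ↔ ∃ m, ∀ d, x d = d0 X.ρ m d := by
  unfold cls
  rw [Submodule.mkQ_apply, Submodule.Quotient.mk_eq_zero]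
  exact Iff.rfl

/-- the number of classes -/
theorem card_HM {inv : (D → D → QZ p) →+ QZ p} (hax : LocG p χ inv 0) [Finite M]
    (X : Pair R (actA χ) M M') :
    Finite (HM X) ∧ Nat.card (HM X) = Nat.card (BKND.H0 X.ρ') * Nat.card (BKND.H0 X.ρ) := by
  obtain ⟨Z, h1, h2, -⟩ := FLVT.exists_int X
  have h4 := hax.card M M' Z
  rw [h1, h2, add_zero, pow_one] at h4
  have hfin' : Finite M' :=
    ((stPerf (stHoms stExt)) p M M' X.b (FLVT.inj_left X) (FLVT.inj_right X)).1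
  have h5 : Nat.card (BKND.Z1 X.ρ) ≠ 0 := by
    rw [h4]
    exact Nat.mul_ne_zero Nat.card_pos.ne' Nat.card_pos.ne'
  have h5' : Nat.card (Z1M X) ≠ 0 := h5
  have hfZ : Finite (Z1M X) := Nat.finite_of_card_ne_zero h5'
  have h6 : Nat.card (Z1M X) = Nat.card ((B1M X).comap (Z1M X).subtype) * Nat.card (HM X) :=
    Submodule.card_eq_card_quotient_mul_card _
  have h7 : Nat.card ((B1M X).comap (Z1M X).subtype) = Nat.card (B1M X) :=
    Nat.card_congr (Submodule.comapSubtypeEquivOfLe (B1M_le X)).toEquiv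
  -- the coboundaries
  let f : M →+ (D → M) := AddMonoidHom.mk' (fun m => d0 X.ρ m) (fun m m' => by
    funext d
    change X.ρ d (m + m') - (m + m') = (X.ρ d m - m) + (X.ρ d m' - m')
    rw [map_add]
    abel)
  have h8 : f.range = (B1M X).toAddSubgroup := by
    ext x
    constructor
    · rintro ⟨m, rfl⟩
      exact ⟨m, fun g => rfl⟩
    · rintro ⟨m, hm⟩
      exact ⟨m, funext fun g => (hm g).symm⟩
  have h9 : f.ker = BKND.H0 X.ρ := by
    ext m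
    constructor
    · intro h g
      have := congrFun h g
      exact sub_eq_zero.1 this
    · intro h
      funext g
      exact sub_eq_zero.2 (h g)
  have h10 : Nat.card M = Nat.card (BKND.H0 X.ρ) * Nat.card (B1M X) := by
    have e1 := AddSubgroup.card_mul_index f.ker
    rw [AddSubgroup.index_ker, h8, h9] at e1
    exact e1.symm
  refine ⟨Finite.of_surjective (cls X) (Submodule.mkQ_surjective _), ?_⟩
  have h11 : Nat.card (B1M X) ≠ 0 := by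
    intro h0
    rw [h0, mul_zero] at h10
    exact Nat.card_pos.ne' h10
  have h12 : Nat.card (Z1M X) = Nat.card (BKND.H0 X.ρ') * Nat.card M := h4
  rw [h12, h10, h7] at h6
  apply Nat.eq_of_mul_eq_mul_left (Nat.pos_of_ne_zero h11)
  rw [← h6]
  ring

end Coh

/-! ### The conjugation -/

section Conj

variable {p : ℕ} [Fact p.Prime] {D : Type} [Group D] [TopologicalSpace D]
  {χ : D →* ℤ_[p]ˣ} {inv : (D → D → QZ p) →+ QZ p} {τ : D →* D} {s : D} {a : ℤ_[p]ˣ}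

/-- the inverse of the conjugation -/
def sgm (τ : D →* D) (s : D) : D →* D := τ.comp (MulAut.conj s⁻¹).toMonoidHom

theorem sgm_apply (τ : D →* D) (s d : D) : sgm τ s d = τ (s⁻¹ * d * s) := by
  change τ (s⁻¹ * d * s⁻¹⁻¹) = _
  rw [inv_inv]

theorem tau_sgm (h : ConjL p χ inv τ s a) (d : D) : τ (sgm τ s d) = d := by
  rw [sgm_apply, h.sq]
  group

theorem tau_inj (h : ConjL p χ inv τ s a) {d d' : D} (e : τ d = τ d') : d = d' := by
  have e1 := congrArg τ e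
  rw [h.sq, h.sq] at e1
  exact mul_left_cancel (mul_right_cancel e1)

theorem sgm_tau (h : ConjL p χ inv τ s a) (d : D) : sgm τ s (τ d) = d :=
  tau_inj h (tau_sgm h (τ d))

theorem sgm_cont [IsTopologicalGroup D] (h : ConjL p χ inv τ s a) : Continuous (sgm τ s) := by
  have e : (sgm τ s : D → D) = fun d => τ (s⁻¹ * d * s) := funext (sgm_apply τ s)
  rw [e]
  exact h.cont.comp ((continuous_const.mul continuous_id).mul continuous_const)

variable {R : Type} [CommRing R] {M : Type} [AddCommGroup M] [Module R M]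

/-- every cocycle for the conjugate action comes from a cocycle -/
theorem exists_pre [IsTopologicalGroup D] (h : ConjL p χ inv τ s a) (X : Pair R (actA χ) M M)
    (hX : X.ρ' = X.ρ.comp τ) {e : D → M} (he : e ∈ BKND.Z1 X.ρ') :
    (fun d => e (sgm τ s d)) ∈ BKND.Z1 X.ρ ∧ (fun d => (fun d => e (sgm τ s d)) (τ d)) = e := by
  refine ⟨⟨XCT.loc1_pb (sgm_cont h) he.1, fun g g' => ?_⟩, ?_⟩
  · change e (sgm τ s (g * g')) = e (sgm τ s g) + X.ρ g (e (sgm τ s g'))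
    rw [map_mul, he.2, hX]
    change _ + X.ρ (τ (sgm τ s g)) _ = _
    rw [tau_sgm h]
  · funext d
    change e (sgm τ s (τ d)) = e d
    rw [sgm_tau h]

theorem H0_eq (h : ConjL p χ inv τ s a) (X : Pair R (actA χ) M M)
    (hX : X.ρ' = X.ρ.comp τ) : BKND.H0 X.ρ' = BKND.H0 X.ρ := by
  rw [hX]
  ext m
  constructor
  · intro hm g
    have e := hm (sgm τ s g)
    change X.ρ (τ (sgm τ s g)) m = m at e
    rwa [tau_sgm h] at e
  · intro hm g
    exact hm (τ g)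

/-- the cup product of cocycles is a cocycle -/
theorem cup11_mem (X : Pair R (actA χ) M M) {f f' : D → M} (hf : f ∈ BKND.Z1 X.ρ)
    (hf' : f' ∈ BKND.Z1 X.ρ') : cup11 X.b X.ρ' f f' ∈ BKND.Z2 (actA χ) := by
  refine ⟨XCT.loc2_cup11 X.b X.sm' hf.1 hf'.1, fun g h l => ?_⟩
  have e1 := hf.2
  have e2 := hf'.2
  simp only [cup11]
  rw [← X.eqv, e1 g h, e2 h l]
  simp only [XCT.act_mul, map_add, AddMonoidHom.add_apply]
  abel

/-- the cup product with a coboundary -/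
theorem inv_d0 (hinv : ∀ z ∈ BKND.Z2 (actA χ), inv z = 0 ↔ z ∈ BKND.B2 (actA χ))
    (X : Pair R (actA χ) M M) (m : M) {e : D → M} (he : e ∈ BKND.Z1 X.ρ') :
    inv (cup11 X.b X.ρ' (d0 X.ρ m) e) = 0 := by
  refine (hinv _ (cup11_mem X (d0_mem X m) he)).2 ⟨fun g => X.b m (e g), ?_, fun g h => ?_⟩
  · exact BKND.Loc1.map he.1 (fun x => X.b m x)
  · have e1 := XCT.d1_pair' X.b X.ρ X.ρ' (actA χ) X.eqv m e g h
    have e2 : d1 X.ρ' e g h = 0 := by
      unfold d1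
      rw [he.2]
      abel
    rw [e2, map_zero, add_zero] at e1
    exact e1.symm

/-- the form on the first cohomology group -/
theorem exists_form [IsTopologicalGroup D] (hC : ConjL p χ inv τ s a)
    (hax : LocG p χ inv 0) [Finite M] (X : Pair R (actA χ) M M) (hX : X.ρ' = X.ρ.comp τ)
    (hsym : ∀ x ∈ BKND.Z1 X.ρ, ∀ y ∈ BKND.Z1 X.ρ, (fun d => y (τ d)) ∈ BKND.Z1 X.ρ' ∧
      inv (cup11 X.b X.ρ' x (fun d => y (τ d))) = inv (cup11 X.b X.ρ' y (fun d => x (τ d)))) :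
    ∃ f : HM X →+ HM X →+ QZ p,
      (∀ x (hx : x ∈ Z1M X) y (hy : y ∈ Z1M X), f (cls X ⟨x, hx⟩) (cls X ⟨y, hy⟩) =
        inv (cup11 X.b X.ρ' x (fun d => y (τ d)))) ∧
      (∀ (r : R) x y, f (r • x) y = f x (r • y)) ∧ (∀ x y, f x y = f y x) ∧
      ∀ x, (∀ y, f x y = 0) → x = 0 := by
  let F : ↥(Z1M X) →+ ↥(Z1M X) →+ QZ p := AddMonoidHom.mk' (fun x => AddMonoidHom.mk'
    (fun y => inv (cup11 X.b X.ρ' x.1 (fun d => y.1 (τ d)))) (fun y y' => by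
      rw [← map_add]
      congr 1
      funext g h
      change X.b _ (X.ρ' g (y.1 (τ h) + y'.1 (τ h))) = _
      rw [map_add, map_add]
      rfl)) (fun x x' => by
      refine AddMonoidHom.ext fun y => ?_
      change inv _ = inv _ + inv _
      rw [← map_add]
      congr 1
      funext g h
      change X.b (x.1 g + x'.1 g) _ = _
      rw [map_add, AddMonoidHom.add_apply]
      rfl)
  have hF : ∀ x y : ↥(Z1M X), F x y = inv (cup11 X.b X.ρ' x.1 (fun d => y.1 (τ d))) :=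
    fun x y => rfl
  have hFs : ∀ x y, F x y = F y x := fun x y => (hsym x.1 x.2 y.1 y.2).2
  have h1 : ∀ x ∈ (B1M X).comap (Z1M X).subtype, ∀ y, F x y = 0 := by
    rintro x ⟨m, hm⟩ y
    have e : (x : D → M) = d0 X.ρ m := funext hm
    rw [hF, e]
    exact inv_d0 hax.inv_eq X m (hsym x.1 x.2 y.1 y.2).1
  obtain ⟨f, hf⟩ := exists_lift2 _ _ F h1 (fun x y hy => by rw [hFs]; exact h1 y hy x)
  have hf' : ∀ x (hx : x ∈ Z1M X) y (hy : y ∈ Z1M X), f (cls X ⟨x, hx⟩) (cls X ⟨y, hy⟩) =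
      inv (cup11 X.b X.ρ' x (fun d => y (τ d))) := fun x hx y hy => hf _ _
  refine ⟨f, hf', ?_, ?_, ?_⟩
  · intro r x y
    obtain ⟨x, hx, rfl⟩ := cls_surj X x
    obtain ⟨y, hy, rfl⟩ := cls_surj X y
    rw [← map_smul, ← map_smul]
    change f (cls X ⟨r • x, _⟩) (cls X ⟨y, hy⟩) = f (cls X ⟨x, hx⟩) (cls X ⟨r • y, _⟩)
    rw [hf', hf']
    congr 1
    funext g h
    change X.b (r • x g) (X.ρ' g (y (τ h))) = X.b (x g) (X.ρ' g (r • y (τ h)))
    rw [X.lin', X.bal]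
  · intro x y
    obtain ⟨x, hx, rfl⟩ := cls_surj X x
    obtain ⟨y, hy, rfl⟩ := cls_surj X y
    rw [hf', hf']
    exact (hsym x hx y hy).2
  · intro x hx0
    obtain ⟨x, hx, rfl⟩ := cls_surj X x
    rw [cls_eq_zero]
    refine FLVT.dual1 hax X x hx fun e he => ?_
    obtain ⟨e1, e2⟩ := exists_pre hC X hX he
    have e3 := (hf' x hx _ e1).symm.trans (hx0 (cls X ⟨_, e1⟩))
    rwa [e2] at e3

/-- the classes of the cocycles with values in a submodule -/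
def clsP (X : Pair R (actA χ) M M) (P : Submodule R M) : Submodule R (HM X) where
  carrier := {h | ∃ (x : D → M) (hx : x ∈ Z1M X), (∀ d, x d ∈ P) ∧ cls X ⟨x, hx⟩ = h}
  add_mem' := by
    rintro _ _ ⟨x, hx, h1, rfl⟩ ⟨y, hy, h2, rfl⟩
    refine ⟨x + y, (Z1M X).add_mem hx hy, fun d => P.add_mem (h1 d) (h2 d), ?_⟩
    rw [← map_add]
    rfl
  zero_mem' := ⟨0, (Z1M X).zero_mem, fun d => P.zero_mem, (cls X).map_zero⟩
  smul_mem' := by
    rintro r _ ⟨x, hx, h1, rfl⟩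
    refine ⟨r • x, (Z1M X).smul_mem r hx, fun d => P.smul_mem r (h1 d), ?_⟩
    rw [← map_smul]
    rfl

theorem mem_clsP {X : Pair R (actA χ) M M} {P : Submodule R M} {h : HM X} :
    h ∈ clsP X P ↔ ∃ (x : D → M) (hx : x ∈ Z1M X), (∀ d, x d ∈ P) ∧ cls X ⟨x, hx⟩ = h := Iff.rfl

/-- the classes of the cocycles with values in a Lagrangian submodule -/
theorem lagr_clsP [IsTopologicalGroup D] [CompactSpace D] (h2 : StPrpl) (hχ : Continuous χ)
    (hC : ConjL p χ inv τ s a) (hax : LocG p χ inv 0) [Finite M] (X : Pair R (actA χ) M M)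
    (hX : X.ρ' = X.ρ.comp τ)
    (hsym : ∀ x ∈ BKND.Z1 X.ρ, ∀ y ∈ BKND.Z1 X.ρ, (fun d => y (τ d)) ∈ BKND.Z1 X.ρ' ∧
      inv (cup11 X.b X.ρ' x (fun d => y (τ d))) = inv (cup11 X.b X.ρ' y (fun d => x (τ d))))
    (f : HM X →+ HM X →+ QZ p)
    (hf : ∀ x (hx : x ∈ Z1M X) y (hy : y ∈ Z1M X), f (cls X ⟨x, hx⟩) (cls X ⟨y, hy⟩) =
        inv (cup11 X.b X.ρ' x (fun d => y (τ d))))
    (P : Submodule R M) (hP : X.Stable P) (hPP : X.perp P = P) :
    ∀ y, y ∈ clsP X P ↔ ∀ x ∈ clsP X P, f x y = 0 := by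
  have hst : ∀ g, ∀ m ∈ P, X.ρ' g m ∈ P := by
    intro g m hm
    rw [hX]
    exact hP _ _ hm
  intro y
  constructor
  · rintro ⟨y, hy, h3, rfl⟩ _ ⟨x, hx, h4, rfl⟩
    rw [hf]
    have e : cup11 X.b X.ρ' x (fun d => y (τ d)) = 0 := by
      funext g h
      have h5 : X.ρ' g (y (τ h)) ∈ X.perp P := by
        rw [hPP]
        exact hst _ _ (h3 _)
      exact h5 _ (h4 g)
    rw [e, map_zero]
  · intro h3
    obtain ⟨y, hy, rfl⟩ := cls_surj X y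
    obtain ⟨m, hm⟩ := h2 p D χ inv 0 hχ hax R M M X P hP y hy (fun e he heP => by
      obtain ⟨e1, e2⟩ := exists_pre hC X hX he
      have e3 := (hf _ e1 y hy).symm.trans (h3 (cls X ⟨_, e1⟩) ⟨_, e1, fun d => by
        have h4 := heP (sgm τ s d)
        rwa [hPP] at h4, rfl⟩)
      rw [(hsym _ e1 _ hy).2] at e3
      rwa [e2] at e3)
    refine ⟨y - d0 X.ρ m, (Z1M X).sub_mem hy (d0_mem X m), hm, ?_⟩
    rw [cls_eq]
    refine ⟨-m, fun d => ?_⟩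
    change y d - (X.ρ d m - m) - y d = X.ρ d (-m) - -m
    rw [map_neg]
    abel

end Conj

/-- Lagrangian subgroups for a form on a finite group -/
theorem card_perp {p : ℕ} [Fact p.Prime] {H : Type} [AddCommGroup H] [Finite H]
    (f : H →+ H →+ QZ p) (hs : ∀ x y, f x y = f y x) (hn : ∀ x, (∀ y, f x y = 0) → x = 0)
    (A C : AddSubgroup H) (hC : ∀ y, y ∈ C ↔ ∀ x ∈ A, f x y = 0) :
    Nat.card A * Nat.card C = Nat.card H :=
  (((stPerf (stHoms stExt)) p H H f hn (fun w hw => hn w fun v => by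
    rw [hs]; exact hw v)).2.2 A C hC).1

theorem eq_perp {p : ℕ} [Fact p.Prime] {H : Type} [AddCommGroup H] [Finite H]
    (f : H →+ H →+ QZ p) (hs : ∀ x y, f x y = f y x) (hn : ∀ x, (∀ y, f x y = 0) → x = 0)
    (A : AddSubgroup H) (hA : ∀ x ∈ A, ∀ y ∈ A, f x y = 0) (hc : Nat.card A ^ 2 = Nat.card H) :
    ∀ y, y ∈ A ↔ ∀ x ∈ A, f x y = 0 := by
  let C : AddSubgroup H :=
    { carrier := {y | ∀ x ∈ A, f x y = 0}
      add_mem' := by
        intro y y' h h' x hx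
        rw [map_add, h x hx, h' x hx, add_zero]
      zero_mem' := fun x _ => map_zero _
      neg_mem' := by
        intro y h x hx
        rw [map_neg, h x hx, neg_zero] }
  have h1 := card_perp f hs hn A C fun y => Iff.rfl
  have h2 : A ≤ C := fun y hy x hx => hA x hx y hy
  have h3 : Nat.card A = Nat.card C := by
    rw [← hc, pow_two] at h1
    exact (Nat.eq_of_mul_eq_mul_left Nat.card_pos h1).symm
  have h4 : A = C := AddSubgroup.eq_of_le_of_card_ge h2 h3.ge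
  intro y
  constructor
  · intro hy
    exact h2 hy
  · intro hy
    rw [h4]
    exact hy

/-! ### Lattices -/

section Lat

variable {p : ℕ} [Fact p.Prime] {L : Type} [NormedField L] [NormedAlgebra ℚ_[p] L] {n : ℕ}
  {D : Type} [Group D]

/-- a lattice as a submodule -/
def sbm (p : ℕ) [Fact p.Prime] {L : Type} [NormedField L] [NormedAlgebra ℚ_[p] L] {n : ℕ}
    {D : Type} [Group D] {V : D →* GL (Fin n) L} {X : AddSubgroup (Fin n → L)} (hX : Lt V X) :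
    Submodule (OO p L) (Fin n → L) where
  __ := X
  smul_mem' := fun a x hx => hX.smul (a : L) a.2 x hx

/-- the action on vectors -/
def actW (p : ℕ) [Fact p.Prime] {L : Type} [NormedField L] [NormedAlgebra ℚ_[p] L] {n : ℕ}
    {D : Type} [Group D] (V : D →* GL (Fin n) L) (g : D) :
    (Fin n → L) →ₗ[OO p L] (Fin n → L) where
  toFun v := (V g : Matrix (Fin n) (Fin n) L) *ᵥ v
  map_add' := fun v w => mulVec_add _ v w
  map_smul' := fun a v => mulVec_smul _ (a : L) v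

/-- the quotient of two lattices -/
abbrev QM (I J : Submodule (OO p L) (Fin n → L)) : Type := ↥J ⧸ I.comap J.subtype

variable {V : D →* GL (Fin n) L} {I J : Submodule (OO p L) (Fin n → L)}

/-- the class of an element -/
def qm (I J : Submodule (OO p L) (Fin n → L)) : ↥J →ₗ[OO p L] QM I J := Submodule.mkQ _

theorem qm_surj (q : QM I J) : ∃ (v : Fin n → L) (hv : v ∈ J), qm I J ⟨v, hv⟩ = q := by
  obtain ⟨⟨x, hx⟩, e⟩ := Submodule.mkQ_surjective _ q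
  exact ⟨x, hx, e⟩

theorem qm_eq {x y : Fin n → L} {hx : x ∈ J} {hy : y ∈ J} :
    qm I J ⟨x, hx⟩ = qm I J ⟨y, hy⟩ ↔ x - y ∈ I := by
  unfold qm
  rw [Submodule.mkQ_apply, Submodule.mkQ_apply, Submodule.Quotient.eq]
  exact Iff.rfl

theorem qm_eq_zero {x : Fin n → L} {hx : x ∈ J} : qm I J ⟨x, hx⟩ = 0 ↔ x ∈ I := by
  unfold qm
  rw [Submodule.mkQ_apply, Submodule.Quotient.mk_eq_zero]
  exact Iff.rfl

/-- the action on the quotient -/
def actQ (hI : ∀ g, ∀ v ∈ I, (V g : Matrix (Fin n) (Fin n) L) *ᵥ v ∈ I)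
    (hJ : ∀ g, ∀ v ∈ J, (V g : Matrix (Fin n) (Fin n) L) *ᵥ v ∈ J) :
    D →* AddMonoid.End (QM I J) where
  toFun g := ((I.comap J.subtype).mapQ (I.comap J.subtype) ((actW p V g).restrict (hJ g))
    (fun v hv => hI g v hv)).toAddMonoidHom
  map_one' := by
    refine AddMonoidHom.ext fun q => ?_
    obtain ⟨v, hv, rfl⟩ := qm_surj q
    change qm I J ⟨((V 1 : GL (Fin n) L) : Matrix (Fin n) (Fin n) L) *ᵥ v, hJ 1 v hv⟩ =
      qm I J ⟨v, hv⟩
    refine qm_eq.2 ?_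
    rw [map_one, Units.val_one, one_mulVec, sub_self]
    exact I.zero_mem
  map_mul' g h := by
    refine AddMonoidHom.ext fun q => ?_
    obtain ⟨v, hv, rfl⟩ := qm_surj q
    change qm I J ⟨((V (g * h) : GL (Fin n) L) : Matrix (Fin n) (Fin n) L) *ᵥ v,
        hJ (g * h) v hv⟩ =
      qm I J ⟨(V g : Matrix (Fin n) (Fin n) L) *ᵥ ((V h : Matrix (Fin n) (Fin n) L) *ᵥ v),
        hJ g _ (hJ h v hv)⟩
    refine qm_eq.2 ?_
    rw [map_mul, Units.val_mul, mulVec_mulVec, sub_self]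
    exact I.zero_mem

theorem actQ_qm (hI : ∀ g, ∀ v ∈ I, (V g : Matrix (Fin n) (Fin n) L) *ᵥ v ∈ I)
    (hJ : ∀ g, ∀ v ∈ J, (V g : Matrix (Fin n) (Fin n) L) *ᵥ v ∈ J) (g : D) (v : Fin n → L)
    (hv : v ∈ J) : actQ hI hJ g (qm I J ⟨v, hv⟩) =
      qm I J ⟨(V g : Matrix (Fin n) (Fin n) L) *ᵥ v, hJ g v hv⟩ := rfl

theorem actQ_smul (hI : ∀ g, ∀ v ∈ I, (V g : Matrix (Fin n) (Fin n) L) *ᵥ v ∈ I)
    (hJ : ∀ g, ∀ v ∈ J, (V g : Matrix (Fin n) (Fin n) L) *ᵥ v ∈ J) (g : D) (a : OO p L)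
    (q : QM I J) : actQ hI hJ g (a • q) = a • actQ hI hJ g q :=
  ((I.comap J.subtype).mapQ (I.comap J.subtype) ((actW p V g).restrict (hJ g))
    (fun v hv => hI g v hv)).map_smul a q

/-- the elements which fix a vector modulo `I` -/
def stb (hI : ∀ g, ∀ v ∈ I, (V g : Matrix (Fin n) (Fin n) L) *ᵥ v ∈ I) (v : Fin n → L) :
    Subgroup D where
  carrier := {g | (V g : Matrix (Fin n) (Fin n) L) *ᵥ v - v ∈ I}
  mul_mem' := by
    intro g h hg hh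
    have e : ((V (g * h) : GL (Fin n) L) : Matrix (Fin n) (Fin n) L) *ᵥ v - v =
        (V g : Matrix (Fin n) (Fin n) L) *ᵥ ((V h : Matrix (Fin n) (Fin n) L) *ᵥ v - v) +
          ((V g : Matrix (Fin n) (Fin n) L) *ᵥ v - v) := by
      rw [map_mul, Units.val_mul, mulVec_sub, mulVec_mulVec]
      abel
    change _ ∈ I
    rw [e]
    exact I.add_mem (hI _ _ hh) hg
  one_mem' := by
    change ((V 1 : GL (Fin n) L) : Matrix (Fin n) (Fin n) L) *ᵥ v - v ∈ I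
    rw [map_one, Units.val_one, one_mulVec, sub_self]
    exact I.zero_mem
  inv_mem' := by
    intro g hg
    have e : ((V g⁻¹ : GL (Fin n) L) : Matrix (Fin n) (Fin n) L) *ᵥ v - v =
        -(((V g⁻¹ : GL (Fin n) L) : Matrix (Fin n) (Fin n) L) *ᵥ
          ((V g : Matrix (Fin n) (Fin n) L) *ᵥ v - v)) := by
      rw [mulVec_sub, mulVec_mulVec, ← Units.val_mul, ← map_mul, inv_mul_cancel, map_one,
        Units.val_one, one_mulVec]
      abel
    change _ ∈ I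
    rw [e]
    exact I.neg_mem (hI _ _ hg)

theorem mem_stb {hI : ∀ g, ∀ v ∈ I, (V g : Matrix (Fin n) (Fin n) L) *ᵥ v ∈ I} {v : Fin n → L}
    {g : D} : g ∈ stb hI v ↔ (V g : Matrix (Fin n) (Fin n) L) *ᵥ v - v ∈ I := Iff.rfl

variable [TopologicalSpace D]

omit [NormedAlgebra ℚ_[p] L] [Fact p.Prime] in
theorem continuous_mulVec (hV : Continuous V) (v : Fin n → L) :
    Continuous fun g => (V g : Matrix (Fin n) (Fin n) L) *ᵥ v :=
  (Units.continuous_val.comp hV).matrix_mulVec continuous_const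

theorem isOpen_of_ball (hI : ∃ ε : ℝ, 0 < ε ∧ ∀ x : Fin n → L, ‖x‖ ≤ ε → x ∈ I) :
    IsOpen (I : Set (Fin n → L)) := by
  obtain ⟨ε, hε, h⟩ := hI
  refine AddSubgroup.isOpen_of_mem_nhds I.toAddSubgroup (g := 0) ?_
  refine Filter.mem_of_superset (Metric.ball_mem_nhds 0 hε) fun x hx => h x ?_
  rw [mem_ball_zero_iff] at hx
  exact hx.le

theorem isOpen_stb (hV : Continuous V)
    (hI : ∀ g, ∀ v ∈ I, (V g : Matrix (Fin n) (Fin n) L) *ᵥ v ∈ I)
    (hI' : ∃ ε : ℝ, 0 < ε ∧ ∀ x : Fin n → L, ‖x‖ ≤ ε → x ∈ I) (v : Fin n → L) :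
    IsOpen (stb hI v : Set D) :=
  (isOpen_of_ball hI').preimage ((continuous_mulVec hV v).sub continuous_const)

theorem sm_actQ (hV : Continuous V)
    (hI : ∀ g, ∀ v ∈ I, (V g : Matrix (Fin n) (Fin n) L) *ᵥ v ∈ I)
    (hJ : ∀ g, ∀ v ∈ J, (V g : Matrix (Fin n) (Fin n) L) *ᵥ v ∈ J)
    (hI' : ∃ ε : ℝ, 0 < ε ∧ ∀ x : Fin n → L, ‖x‖ ≤ ε → x ∈ I) [Finite (QM I J)] :
    Sm (actQ hI hJ) := by
  choose f hf hf' using fun q : QM I J => qm_surj q
  refine ⟨⨅ q : QM I J, stb hI (f q), ?_, fun w hw => AddMonoidHom.ext fun q => ?_⟩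
  · rw [Subgroup.coe_iInf]
    exact isOpen_iInter_of_finite fun q => isOpen_stb hV hI hI' _
  · have h1 := Subgroup.mem_iInf.1 hw q
    have h2 : actQ hI hJ w (qm I J ⟨f q, hf q⟩) = qm I J ⟨f q, hf q⟩ := by
      rw [actQ_qm, qm_eq]
      exact h1
    rw [hf'] at h2
    exact h2

/-- a bounded subgroup modulo a subgroup containing a ball is finite -/
theorem relIndex_ne [FiniteDimensional ℚ_[p] L] {P Z : AddSubgroup (Fin n → L)}
    (hP : ∃ ε : ℝ, 0 < ε ∧ ∀ x : Fin n → L, ‖x‖ ≤ ε → x ∈ P)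
    (hZ : ∃ C : ℝ, ∀ v ∈ Z, ‖v‖ ≤ C) : P.relIndex Z ≠ 0 := by
  obtain ⟨ε, hε, hP⟩ := hP
  obtain ⟨C, hZ⟩ := hZ
  -- a multiple of the standard lattice
  obtain ⟨k, hk⟩ := exists_pow_lt_of_lt_one hε (pi0_lt p L)
  have h0 : ((pi0 p L : OO p L) : L) ^ k ≠ 0 := pow_ne_zero k (pi0_ne p L)
  let c : Lˣ := (Units.mk0 _ h0)⁻¹
  have hc : (c : L) * ((pi0 p L : OO p L) : L) ^ k = 1 := by
    change ((((pi0 p L : OO p L) : L) ^ k)⁻¹) * _ = 1
    exact inv_mul_cancel₀ h0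
  let S : GL (Fin n) L := Matrix.GeneralLinearGroup.scalar (Fin n) c
  have hS : ∀ v : Fin n → L, (S : Matrix (Fin n) (Fin n) L) *ᵥ v = (c : L) • v := by
    intro v
    change (Matrix.scalar (Fin n) (c : L)) *ᵥ v = _
    rw [Matrix.scalar_apply, ← Matrix.smul_one_eq_diagonal, smul_mulVec, one_mulVec]
  have h1 : latS p S ⊤ ≤ P := by
    intro v hv
    have h2 := UFXL.norm_le_of_mem (p := p) hv
    rw [hS] at h2
    refine hP v ?_
    have h3 : v = ((pi0 p L : OO p L) : L) ^ k • ((c : L) • v) := by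
      rw [smul_smul, mul_comm, hc, one_smul]
    rw [h3, norm_smul, norm_pow]
    calc _ ≤ ‖((pi0 p L : OO p L) : L)‖ ^ k * 1 :=
          mul_le_mul_of_nonneg_left h2 (pow_nonneg (norm_nonneg _) _)
      _ ≤ ε := by
        rw [mul_one]
        exact hk.le
  have h2 := UFXL.relIndex_ne_zero (p := p) (S := S) (P := ⊤) (fun _ => trivial) Z C hZ
  intro h3
  have h4 := AddSubgroup.relIndex_dvd_of_le_left Z h1
  rw [h3] at h4
  exact h2 (zero_dvd_iff.1 h4)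

theorem finite_QM [FiniteDimensional ℚ_[p] L]
    (hI : ∃ ε : ℝ, 0 < ε ∧ ∀ x : Fin n → L, ‖x‖ ≤ ε → x ∈ I)
    (hJ : ∃ C : ℝ, ∀ v ∈ J, ‖v‖ ≤ C) : Finite (QM I J) :=
  Nat.finite_of_card_ne_zero (relIndex_ne (p := p) (P := I.toAddSubgroup)
    (Z := J.toAddSubgroup) hI hJ)

/-! ### The pairing -/

/-- the pairing of vectors -/
def bW (lam : L →ₗ[ℚ_[p]] ℚ_[p]) (β : Matrix (Fin n) (Fin n) L) :
    (Fin n → L) →+ (Fin n → L) →+ QZ p :=
  AddMonoidHom.mk' (fun x => AddMonoidHom.mk' (fun y => cl p (lam (x ⬝ᵥ (β *ᵥ y)))) (fun y y' => by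
    rw [mulVec_add, dotProduct_add, map_add, LMK.cl_add])) (fun x x' => by
    refine AddMonoidHom.ext fun y => ?_
    change cl p (lam ((x + x') ⬝ᵥ _)) = cl p _ + cl p _
    rw [add_dotProduct, map_add, LMK.cl_add])

theorem bW_apply (lam : L →ₗ[ℚ_[p]] ℚ_[p]) (β : Matrix (Fin n) (Fin n) L) (x y : Fin n → L) :
    bW lam β x y = cl p (lam (x ⬝ᵥ (β *ᵥ y))) := rfl

theorem bW_smul (lam : L →ₗ[ℚ_[p]] ℚ_[p]) (β : Matrix (Fin n) (Fin n) L) (a : L)
    (x y : Fin n → L) : bW lam β (a • x) y = bW lam β x (a • y) := by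
  rw [bW_apply, bW_apply, smul_dotProduct, mulVec_smul, dotProduct_smul]

theorem bW_zero {lam : L →ₗ[ℚ_[p]] ℚ_[p]} (hlam : IsLam p L lam)
    (β : Matrix (Fin n) (Fin n) L) {x y : Fin n → L} (h : ‖x ⬝ᵥ (β *ᵥ y)‖ ≤ 1) :
    bW lam β x y = 0 := by
  rw [bW_apply, LMK.cl_zero_iff]
  have h1 := (hlam (x ⬝ᵥ (β *ᵥ y))).2 h 1
  rwa [Subring.coe_one, one_mul] at h1

theorem norm_le_of_bW {lam : L →ₗ[ℚ_[p]] ℚ_[p]} (hlam : IsLam p L lam)
    (β : Matrix (Fin n) (Fin n) L) {x y : Fin n → L}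
    (h : ∀ a : OO p L, bW lam β ((a : L) • x) y = 0) : ‖x ⬝ᵥ (β *ᵥ y)‖ ≤ 1 := by
  rw [← hlam]
  intro a
  have h1 := h a
  rwa [bW_apply, LMK.cl_zero_iff, smul_dotProduct, smul_eq_mul] at h1

theorem dot_act {χ : D →* ℤ_[p]ˣ} {V' : D →* GL (Fin n) L} {β : Matrix (Fin n) (Fin n) L}
    (hd : IsDual χ V V' β) (g : D) (x y : Fin n → L) :
    ((V g : Matrix (Fin n) (Fin n) L) *ᵥ x) ⬝ᵥ
      (β *ᵥ ((V' g : Matrix (Fin n) (Fin n) L) *ᵥ y)) = BKOdd.chL χ L g * (x ⬝ᵥ (β *ᵥ y)) := by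
  rw [← Matrix.vecMul_transpose, ← Matrix.dotProduct_mulVec, Matrix.mulVec_mulVec,
    Matrix.mulVec_mulVec, hd g, Matrix.smul_mulVec, dotProduct_smul, smul_eq_mul]

theorem bW_act {χ : D →* ℤ_[p]ˣ} {V' : D →* GL (Fin n) L} {β : Matrix (Fin n) (Fin n) L}
    (hd : IsDual χ V V' β) (lam : L →ₗ[ℚ_[p]] ℚ_[p]) (g : D) (x y : Fin n → L) :
    bW lam β ((V g : Matrix (Fin n) (Fin n) L) *ᵥ x) ((V' g : Matrix (Fin n) (Fin n) L) *ᵥ y) =
      actA χ g (bW lam β x y) := by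
  rw [bW_apply, bW_apply, dot_act hd, actA_apply, ← LMK.cl_smul]
  have h1 : BKOdd.chL χ L g = algebraMap ℚ_[p] L (((χ g : ℤ_[p]ˣ) : ℤ_[p]) : ℚ_[p]) := rfl
  rw [h1, ← Algebra.smul_def, map_smul, smul_eq_mul]

/-- the pair of the quotient of two lattices -/
theorem exists_pair [FiniteDimensional ℚ_[p] L] [CompactSpace D] [NonarchimedeanGroup D]
    {χ : D →* ℤ_[p]ˣ}
    {inv : (D → D → QZ p) →+ QZ p} {τ : D →* D} {s : D} {a : ℤ_[p]ˣ}
    (hC : ConjL p χ inv τ s a) {β : GL (Fin n) L} (hV : Continuous V) (hF : FrmL χ τ s a V β)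
    (lam : L →ₗ[ℚ_[p]] ℚ_[p]) (hlam : IsLam p L lam)
    (hI : ∀ g, ∀ v ∈ I, (V g : Matrix (Fin n) (Fin n) L) *ᵥ v ∈ I)
    (hJ : ∀ g, ∀ v ∈ J, (V g : Matrix (Fin n) (Fin n) L) *ᵥ v ∈ J)
    (hI' : ∃ ε : ℝ, 0 < ε ∧ ∀ x : Fin n → L, ‖x‖ ≤ ε → x ∈ I)
    (hJ' : ∃ C : ℝ, ∀ v ∈ J, ‖v‖ ≤ C)
    (hl : ∀ x ∈ J, x ∈ I ↔ ∀ z ∈ J, ‖x ⬝ᵥ ((β : Matrix (Fin n) (Fin n) L) *ᵥ z)‖ ≤ 1)
    (hr : ∀ z ∈ J, z ∈ I ↔ ∀ x ∈ J, ‖x ⬝ᵥ ((β : Matrix (Fin n) (Fin n) L) *ᵥ z)‖ ≤ 1) :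
    ∃ X : Pair (OO p L) (actA χ) (QM I J) (QM I J), X.ρ = actQ hI hJ ∧ X.ρ' = X.ρ.comp τ ∧
      ∀ (x : Fin n → L) (hx : x ∈ J) (y : Fin n → L) (hy : y ∈ J),
        X.b (qm I J ⟨x, hx⟩) (qm I J ⟨y, hy⟩) = bW lam (β : Matrix (Fin n) (Fin n) L) x y := by
  have hfin : Finite (QM I J) := finite_QM hI' hJ'
  let f : ↥J →+ ↥J →+ QZ p := AddMonoidHom.mk' (fun x => AddMonoidHom.mk'
    (fun y => bW lam (β : Matrix (Fin n) (Fin n) L) x.1 y.1)
      (fun y y' => map_add (bW lam (β : Matrix (Fin n) (Fin n) L) x.1) y.1 y'.1)) (fun x x' => by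
    refine AddMonoidHom.ext fun y => ?_
    change bW lam (β : Matrix (Fin n) (Fin n) L) (x.1 + x'.1) y.1 = _ + _
    rw [map_add]
    rfl)
  obtain ⟨b, hb⟩ := exists_lift2 (I.comap J.subtype) (I.comap J.subtype) f
    (fun x hx y => bW_zero hlam _ ((hl x.1 x.2).1 hx y.1 y.2))
    (fun x y hy => bW_zero hlam _ ((hr y.1 y.2).1 hy x.1 x.2))
  have hb' : ∀ (x : Fin n → L) (hx : x ∈ J) (y : Fin n → L) (hy : y ∈ J),
      b (qm I J ⟨x, hx⟩) (qm I J ⟨y, hy⟩) = bW lam (β : Matrix (Fin n) (Fin n) L) x y :=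
    fun x hx y hy => hb _ _
  have hbal : ∀ (a : OO p L) m m', b (a • m) m' = b m (a • m') := by
    intro a m m'
    obtain ⟨x, hx, rfl⟩ := qm_surj m
    obtain ⟨y, hy, rfl⟩ := qm_surj m'
    rw [← map_smul, ← map_smul]
    change b (qm I J ⟨(a : L) • x, _⟩) (qm I J ⟨y, hy⟩) =
      b (qm I J ⟨x, hx⟩) (qm I J ⟨(a : L) • y, _⟩)
    rw [hb', hb', bW_smul]
  have hleft : ∀ m, (∀ m', b m m' = 0) → m = 0 := by
    intro m hm
    obtain ⟨x, hx, rfl⟩ := qm_surj m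
    rw [qm_eq_zero, hl x hx]
    intro z hz
    refine norm_le_of_bW hlam _ fun a => ?_
    have h1 := hm (a • qm I J ⟨z, hz⟩)
    rw [← hbal, ← map_smul] at h1
    change b (qm I J ⟨(a : L) • x, _⟩) (qm I J ⟨z, hz⟩) = 0 at h1
    rwa [hb'] at h1
  have hright : ∀ m', (∀ m, b m m' = 0) → m' = 0 := by
    intro m hm
    obtain ⟨x, hx, rfl⟩ := qm_surj m
    rw [qm_eq_zero, hr x hx]
    intro z hz
    refine norm_le_of_bW hlam _ fun a => ?_
    have h1 := hm (a • qm I J ⟨z, hz⟩)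
    rw [← map_smul] at h1
    change b (qm I J ⟨(a : L) • z, _⟩) (qm I J ⟨x, hx⟩) = 0 at h1
    rwa [hb'] at h1
  have hsm := sm_actQ hV hI hJ hI'
  refine ⟨{ ρ := actQ hI hJ
            ρ' := (actQ hI hJ).comp τ
            b := b
            sm := hsm
            sm' := ?_
            lin := actQ_smul hI hJ
            lin' := fun g => actQ_smul hI hJ (τ g)
            eqv := ?_
            bal := hbal
            perf := LMK.perf_of b hleft hright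
            perf' := LMK.perf_of b.flip hright hleft }, rfl, rfl, hb'⟩
  · obtain ⟨W, hW, h⟩ := hsm
    exact ⟨W.comap τ, hW.preimage hC.cont, fun w hw => h _ hw⟩
  · intro g m m'
    obtain ⟨x, hx, rfl⟩ := qm_surj m
    obtain ⟨y, hy, rfl⟩ := qm_surj m'
    change b (qm I J ⟨(V g : Matrix (Fin n) (Fin n) L) *ᵥ x, hJ g x hx⟩)
      (qm I J ⟨(V (τ g) : Matrix (Fin n) (Fin n) L) *ᵥ y, hJ (τ g) y hy⟩) = _
    rw [hb', hb']
    exact bW_act hF.dual lam g x y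

/-! ### Cocycles from vectors -/

/-- the cocycle of a vector which is fixed modulo `J` -/
def kv (I J : Submodule (OO p L) (Fin n → L)) (V : D →* GL (Fin n) L) (v : Fin n → L)
    (hv : v ∈ UFXL.fixM V J) : D → QM I J :=
  fun d => qm I J ⟨(V d : Matrix (Fin n) (Fin n) L) *ᵥ v - v, hv d⟩

theorem kv_mem {χ : D →* ℤ_[p]ˣ} (hV : Continuous V)
    (hI : ∀ g, ∀ v ∈ I, (V g : Matrix (Fin n) (Fin n) L) *ᵥ v ∈ I)
    (hJ : ∀ g, ∀ v ∈ J, (V g : Matrix (Fin n) (Fin n) L) *ᵥ v ∈ J)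
    (hI' : ∃ ε : ℝ, 0 < ε ∧ ∀ x : Fin n → L, ‖x‖ ≤ ε → x ∈ I)
    (X : Pair (OO p L) (actA χ) (QM I J) (QM I J)) (hX : X.ρ = actQ hI hJ) (v : Fin n → L)
    (hv : v ∈ UFXL.fixM V J) : kv I J V v hv ∈ Z1M X := by
  refine ⟨⟨stb hI v, isOpen_stb hV hI hI' v, fun g w hw => ?_⟩, fun g h => ?_⟩
  · refine qm_eq.2 ?_
    have e : ((V (g * w) : GL (Fin n) L) : Matrix (Fin n) (Fin n) L) *ᵥ v - v -
        ((V g : Matrix (Fin n) (Fin n) L) *ᵥ v - v) =
        (V g : Matrix (Fin n) (Fin n) L) *ᵥ ((V w : Matrix (Fin n) (Fin n) L) *ᵥ v - v) := by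
      rw [map_mul, Units.val_mul, mulVec_sub, mulVec_mulVec]
      abel
    rw [e]
    exact hI _ _ hw
  · rw [hX]
    change qm I J ⟨((V (g * h) : GL (Fin n) L) : Matrix (Fin n) (Fin n) L) *ᵥ v - v,
        hv (g * h)⟩ = qm I J (⟨(V g : Matrix (Fin n) (Fin n) L) *ᵥ v - v, hv g⟩ +
        ⟨(V g : Matrix (Fin n) (Fin n) L) *ᵥ ((V h : Matrix (Fin n) (Fin n) L) *ᵥ v - v),
        hJ g _ (hv h)⟩)
    refine qm_eq.2 ?_
    have e : ((V (g * h) : GL (Fin n) L) : Matrix (Fin n) (Fin n) L) *ᵥ v - v -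
        (((V g : Matrix (Fin n) (Fin n) L) *ᵥ v - v) +
        (V g : Matrix (Fin n) (Fin n) L) *ᵥ ((V h : Matrix (Fin n) (Fin n) L) *ᵥ v - v)) =
        0 := by
      rw [map_mul, Units.val_mul, mulVec_sub, mulVec_mulVec]
      abel
    have h1 := I.zero_mem
    rw [← e] at h1
    exact h1

/-- the cocycles of the vectors -/
def kvM {χ : D →* ℤ_[p]ˣ} (hV : Continuous V)
    (hI : ∀ g, ∀ v ∈ I, (V g : Matrix (Fin n) (Fin n) L) *ᵥ v ∈ I)
    (hJ : ∀ g, ∀ v ∈ J, (V g : Matrix (Fin n) (Fin n) L) *ᵥ v ∈ J)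
    (hI' : ∃ ε : ℝ, 0 < ε ∧ ∀ x : Fin n → L, ‖x‖ ≤ ε → x ∈ I)
    (X : Pair (OO p L) (actA χ) (QM I J) (QM I J)) (hX : X.ρ = actQ hI hJ) :
    ↥(UFXL.fixM V J) →ₗ[OO p L] ↥(Z1M X) where
  toFun v := ⟨kv I J V v.1 v.2, kv_mem hV hI hJ hI' X hX v.1 v.2⟩
  map_add' := by
    intro v w
    apply Subtype.ext
    funext d
    have e : (⟨(V d : Matrix (Fin n) (Fin n) L) *ᵥ (v.1 + w.1) - (v.1 + w.1), (v + w).2 d⟩ : ↥J) =
        ⟨(V d : Matrix (Fin n) (Fin n) L) *ᵥ v.1 - v.1, v.2 d⟩ +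
          ⟨(V d : Matrix (Fin n) (Fin n) L) *ᵥ w.1 - w.1, w.2 d⟩ := by
      apply Subtype.ext
      change (V d : Matrix (Fin n) (Fin n) L) *ᵥ (v.1 + w.1) - (v.1 + w.1) =
        ((V d : Matrix (Fin n) (Fin n) L) *ᵥ v.1 - v.1) +
          ((V d : Matrix (Fin n) (Fin n) L) *ᵥ w.1 - w.1)
      rw [mulVec_add]
      abel
    exact congrArg (qm I J) e
  map_smul' := by
    intro a v
    apply Subtype.ext
    funext d
    have e : (⟨(V d : Matrix (Fin n) (Fin n) L) *ᵥ (a • v).1 - (a • v).1, (a • v).2 d⟩ : ↥J) =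
        a • ⟨(V d : Matrix (Fin n) (Fin n) L) *ᵥ v.1 - v.1, v.2 d⟩ := by
      apply Subtype.ext
      change (V d : Matrix (Fin n) (Fin n) L) *ᵥ ((a : L) • v.1) - (a : L) • v.1 =
        (a : L) • ((V d : Matrix (Fin n) (Fin n) L) *ᵥ v.1 - v.1)
      rw [mulVec_smul, smul_sub]
    exact congrArg (qm I J) e

/-- the classes of these cocycles -/
def Phi {χ : D →* ℤ_[p]ˣ} (hV : Continuous V)
    (hI : ∀ g, ∀ v ∈ I, (V g : Matrix (Fin n) (Fin n) L) *ᵥ v ∈ I)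
    (hJ : ∀ g, ∀ v ∈ J, (V g : Matrix (Fin n) (Fin n) L) *ᵥ v ∈ J)
    (hI' : ∃ ε : ℝ, 0 < ε ∧ ∀ x : Fin n → L, ‖x‖ ≤ ε → x ∈ I)
    (X : Pair (OO p L) (actA χ) (QM I J) (QM I J)) (hX : X.ρ = actQ hI hJ) :
    ↥(UFXL.fixM V J) →ₗ[OO p L] HM X :=
  (cls X).comp (kvM hV hI hJ hI' X hX)

section Phi

variable {χ : D →* ℤ_[p]ˣ} (hV : Continuous V)
  (hI : ∀ g, ∀ v ∈ I, (V g : Matrix (Fin n) (Fin n) L) *ᵥ v ∈ I)
  (hJ : ∀ g, ∀ v ∈ J, (V g : Matrix (Fin n) (Fin n) L) *ᵥ v ∈ J)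
  (hI' : ∃ ε : ℝ, 0 < ε ∧ ∀ x : Fin n → L, ‖x‖ ≤ ε → x ∈ I)
  (X : Pair (OO p L) (actA χ) (QM I J) (QM I J)) (hX : X.ρ = actQ hI hJ)

theorem Phi_apply (v : Fin n → L) (hv : v ∈ UFXL.fixM V J) :
    Phi hV hI hJ hI' X hX ⟨v, hv⟩ = cls X ⟨kv I J V v hv, kv_mem hV hI hJ hI' X hX v hv⟩ := rfl

include hX in
theorem d0_qm (j : Fin n → L) (hj : j ∈ J) (d : D) :
    d0 X.ρ (qm I J ⟨j, hj⟩) d =
      qm I J ⟨(V d : Matrix (Fin n) (Fin n) L) *ᵥ j - j, J.sub_mem (hJ d j hj) hj⟩ := by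
  rw [hX]
  rfl

theorem Phi_eq_zero (v : Fin n → L) (hv : v ∈ UFXL.fixM V J) :
    Phi hV hI hJ hI' X hX ⟨v, hv⟩ = 0 ↔ v ∈ UFXL.fixM V I ⊔ J := by
  rw [Phi_apply, cls_eq_zero, Submodule.mem_sup]
  constructor
  · rintro ⟨m, hm⟩
    obtain ⟨j, hj, rfl⟩ := qm_surj m
    refine ⟨v - j, fun d => ?_, j, hj, sub_add_cancel v j⟩
    have h1 := hm d
    rw [d0_qm hI hJ X hX] at h1
    have h2 := qm_eq.1 h1
    have e : (V d : Matrix (Fin n) (Fin n) L) *ᵥ (v - j) - (v - j) =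
        ((V d : Matrix (Fin n) (Fin n) L) *ᵥ v - v) -
          ((V d : Matrix (Fin n) (Fin n) L) *ᵥ j - j) := by
      rw [mulVec_sub]
      abel
    rw [e]
    exact h2
  · rintro ⟨w, hw, j, hj, rfl⟩
    refine ⟨qm I J ⟨j, hj⟩, fun d => ?_⟩
    rw [d0_qm hI hJ X hX]
    refine qm_eq.2 ?_
    have e : (V d : Matrix (Fin n) (Fin n) L) *ᵥ (w + j) - (w + j) -
          ((V d : Matrix (Fin n) (Fin n) L) *ᵥ j - j) =
        (V d : Matrix (Fin n) (Fin n) L) *ᵥ w - w := by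
      rw [mulVec_add]
      abel
    rw [e]
    exact hw d

/-- the submodule of the quotient given by a submodule of `J` -/
def sq (I J P : Submodule (OO p L) (Fin n → L)) : Submodule (OO p L) (QM I J) :=
  (P.comap J.subtype).map (qm I J)

theorem mem_sq {P : Submodule (OO p L) (Fin n → L)} (hIP : I ≤ P) (x : Fin n → L) (hx : x ∈ J) :
    qm I J ⟨x, hx⟩ ∈ sq I J P ↔ x ∈ P := by
  constructor
  · rintro ⟨⟨y, hy⟩, hy', e⟩
    have h1 := P.sub_mem (show y ∈ P from hy') (hIP (qm_eq.1 e))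
    rwa [sub_sub_cancel] at h1
  · intro h
    exact ⟨⟨x, hx⟩, h, rfl⟩

theorem fixM_mono {P Q : Submodule (OO p L) (Fin n → L)} (h : P ≤ Q) :
    UFXL.fixM V P ≤ UFXL.fixM V Q := fun _ hv d => h (hv d)

theorem inter_eq {P : Submodule (OO p L) (Fin n → L)} (hIP : I ≤ P) :
    clsP X (sq I J P) ⊓ LinearMap.range (Phi hV hI hJ hI' X hX) =
      ((UFXL.fixM V P).comap (UFXL.fixM V J).subtype).map (Phi hV hI hJ hI' X hX) := by
  ext h
  constructor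
  · rintro ⟨⟨x, hx, hxP, e1⟩, ⟨⟨v, hv⟩, e2⟩⟩
    rw [← e2, Phi_apply, cls_eq] at e1
    obtain ⟨m, hm⟩ := e1
    obtain ⟨j, hj, rfl⟩ := qm_surj m
    have hjJ : j ∈ UFXL.fixM V J := fun d => J.sub_mem (hJ d j hj) hj
    refine ⟨⟨v, hv⟩ + ⟨j, hjJ⟩, ?_, ?_⟩
    · intro d
      have h1 := hm d
      rw [d0_qm hI hJ X hX] at h1
      have h2 : qm I J (⟨(V d : Matrix (Fin n) (Fin n) L) *ᵥ j - j, J.sub_mem (hJ d j hj) hj⟩ +
          ⟨(V d : Matrix (Fin n) (Fin n) L) *ᵥ v - v, hv d⟩) ∈ sq I J P := by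
        rw [map_add, ← h1]
        have e3 : x d - kv I J V v hv d +
            qm I J ⟨(V d : Matrix (Fin n) (Fin n) L) *ᵥ v - v, hv d⟩ = x d :=
          sub_add_cancel _ _
        rw [e3]
        exact hxP d
      have h3 := (mem_sq hIP _ _).1 h2
      change (V d : Matrix (Fin n) (Fin n) L) *ᵥ (v + j) - (v + j) ∈ P
      have e : (V d : Matrix (Fin n) (Fin n) L) *ᵥ (v + j) - (v + j) =
          ((V d : Matrix (Fin n) (Fin n) L) *ᵥ j - j) +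
            ((V d : Matrix (Fin n) (Fin n) L) *ᵥ v - v) := by
        rw [mulVec_add]
        abel
      rw [e]
      exact h3
    · rw [map_add, e2, (Phi_eq_zero hV hI hJ hI' X hX j hjJ).2 ?_, add_zero]
      exact Submodule.mem_sup_right hj
  · rintro ⟨⟨v, hv⟩, hvP, rfl⟩
    refine ⟨⟨_, kv_mem hV hI hJ hI' X hX v hv, fun d => ?_, rfl⟩, ⟨_, rfl⟩⟩
    exact (mem_sq hIP _ _).2 (hvP d)

theorem card_map {F : Submodule (OO p L) (Fin n → L)} (hF : F ≤ UFXL.fixM V J) :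
    Nat.card ((F.comap (UFXL.fixM V J).subtype).map (Phi hV hI hJ hI' X hX)) =
      (UFXL.fixM V I ⊔ J).toAddSubgroup.relIndex F.toAddSubgroup := by
  have h1 := AddSubgroup.relIndex_ker (F.comap (UFXL.fixM V J).subtype).toAddSubgroup
    (Phi hV hI hJ hI' X hX).toAddMonoidHom
  have h2 : (Phi hV hI hJ hI' X hX).toAddMonoidHom.ker =
      (UFXL.fixM V I ⊔ J).toAddSubgroup.addSubgroupOf (UFXL.fixM V J).toAddSubgroup := by
    ext ⟨v, hv⟩
    exact Phi_eq_zero hV hI hJ hI' X hX v hv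
  have h3 : (F.comap (UFXL.fixM V J).subtype).toAddSubgroup =
      F.toAddSubgroup.addSubgroupOf (UFXL.fixM V J).toAddSubgroup := rfl
  rw [h2, h3] at h1
  have h4 := AddSubgroup.relIndex_addSubgroupOf (H := (UFXL.fixM V I ⊔ J).toAddSubgroup)
    (K := F.toAddSubgroup) (L := (UFXL.fixM V J).toAddSubgroup) hF
  rw [← h4]
  exact h1.symm

include hX in
theorem card_H0 : Nat.card (BKND.H0 X.ρ) =
    I.toAddSubgroup.relIndex (UFXL.fixM V I ⊓ J).toAddSubgroup := by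
  have h1 := AddSubgroup.relIndex_ker ((UFXL.fixM V I).comap J.subtype).toAddSubgroup
    (qm I J).toAddMonoidHom
  have h2 : (qm I J).toAddMonoidHom.ker = I.toAddSubgroup.addSubgroupOf J.toAddSubgroup := by
    ext ⟨v, hv⟩
    exact qm_eq_zero
  have h3 : ((UFXL.fixM V I).comap J.subtype).toAddSubgroup =
      (UFXL.fixM V I ⊓ J).toAddSubgroup.addSubgroupOf J.toAddSubgroup := by
    ext ⟨v, hv⟩
    constructor
    · intro h
      exact ⟨h, hv⟩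
    · intro h
      exact h.1
  have h4 := AddSubgroup.relIndex_addSubgroupOf (H := I.toAddSubgroup)
    (K := (UFXL.fixM V I ⊓ J).toAddSubgroup) (L := J.toAddSubgroup) (fun _ hv => hv.2)
  have h5 : ((UFXL.fixM V I).comap J.subtype).toAddSubgroup.map (qm I J).toAddMonoidHom =
      BKND.H0 X.ρ := by
    rw [hX]
    ext q
    constructor
    · rintro ⟨⟨v, hv⟩, h, rfl⟩ g
      exact qm_eq.2 (h g)
    · intro h
      obtain ⟨v, hv, rfl⟩ := qm_surj q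
      exact ⟨⟨v, hv⟩, fun g => qm_eq.1 (h g), rfl⟩
  rw [h5, h2, h3, h4] at h1
  exact h1.symm

variable [FiniteDimensional ℚ_[p] L] [CompactSpace D] [NonarchimedeanGroup D]
  {inv : (D → D → QZ p) →+ QZ p} {τ : D →* D} {s : D} {a : ℤ_[p]ˣ} {β : GL (Fin n) L}

include hV hI' hX in
theorem isotropic (hC : ConjL p χ inv τ s a) (hF : FrmL χ τ s a V β)
    (hinv : ∀ z ∈ BKND.Z2 (actA χ), inv z = 0 ↔ z ∈ BKND.B2 (actA χ))
    (lam : L →ₗ[ℚ_[p]] ℚ_[p]) (hX' : X.ρ' = X.ρ.comp τ)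
    (hb : ∀ (x : Fin n → L) (hx : x ∈ J) (y : Fin n → L) (hy : y ∈ J),
        X.b (qm I J ⟨x, hx⟩) (qm I J ⟨y, hy⟩) = bW lam (β : Matrix (Fin n) (Fin n) L) x y)
    (hm : ∀ y ∈ BKND.Z1 X.ρ, (fun d => y (τ d)) ∈ BKND.Z1 X.ρ') (v : Fin n → L)
    (hv : v ∈ UFXL.fixM V J) (w : Fin n → L) (hw : w ∈ UFXL.fixM V J) :
    inv (cup11 X.b X.ρ' (kv I J V v hv) (fun d => kv I J V w hw (τ d))) = 0 := by
  refine (hinv _ (cup11_mem X (kv_mem hV hI hJ hI' X hX v hv)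
    (hm _ (kv_mem hV hI hJ hI' X hX w hw)))).2
    ⟨fun g => - bW lam (β : Matrix (Fin n) (Fin n) L)
      ((V g : Matrix (Fin n) (Fin n) L) *ᵥ v - v) ((V (τ g) : Matrix (Fin n) (Fin n) L) *ᵥ w),
      ?_, fun g h => ?_⟩
  · have h1 : Continuous fun g => lam (((V g : Matrix (Fin n) (Fin n) L) *ᵥ v - v) ⬝ᵥ
        ((β : Matrix (Fin n) (Fin n) L) *ᵥ ((V (τ g) : Matrix (Fin n) (Fin n) L) *ᵥ w))) := by
      have h2 := (continuous_mulVec hV v).sub (continuous_const (y := v))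
      have h3 : Continuous fun g => (V (τ g) : Matrix (Fin n) (Fin n) L) *ᵥ w :=
        (continuous_mulVec hV w).comp hC.cont
      have h4 : Continuous fun g => (β : Matrix (Fin n) (Fin n) L) *ᵥ
          ((V (τ g) : Matrix (Fin n) (Fin n) L) *ᵥ w) :=
        Continuous.matrix_mulVec continuous_const h3
      exact (LinearMap.continuous_of_finiteDimensional lam).comp (h2.dotProduct h4)
    exact BKND.Loc1.map (LRL.loc1_cl h1) (fun x => -x)
  · have e1 : ∀ x y : Fin n → L, actA χ g (bW lam (β : Matrix (Fin n) (Fin n) L) x y) =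
        bW lam (β : Matrix (Fin n) (Fin n) L) ((V g : Matrix (Fin n) (Fin n) L) *ᵥ x)
          ((V (τ g) : Matrix (Fin n) (Fin n) L) *ᵥ y) := fun x y =>
      (bW_act hF.dual lam g x y).symm
    have e2 : cup11 X.b X.ρ' (kv I J V v hv) (fun d => kv I J V w hw (τ d)) g h =
        bW lam (β : Matrix (Fin n) (Fin n) L) ((V g : Matrix (Fin n) (Fin n) L) *ᵥ v - v)
          ((V (τ g) : Matrix (Fin n) (Fin n) L) *ᵥ
            ((V (τ h) : Matrix (Fin n) (Fin n) L) *ᵥ w - w)) := by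
      rw [cup11, hX', hX]
      exact hb _ _ _ _
    have e3 : ((V (g * h) : GL (Fin n) L) : Matrix (Fin n) (Fin n) L) *ᵥ v =
        (V g : Matrix (Fin n) (Fin n) L) *ᵥ ((V h : Matrix (Fin n) (Fin n) L) *ᵥ v) := by
      rw [map_mul, Units.val_mul, mulVec_mulVec]
    have e4 : ((V (τ (g * h)) : GL (Fin n) L) : Matrix (Fin n) (Fin n) L) *ᵥ w =
        (V (τ g) : Matrix (Fin n) (Fin n) L) *ᵥ
          ((V (τ h) : Matrix (Fin n) (Fin n) L) *ᵥ w) := by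
      rw [map_mul, map_mul, Units.val_mul, mulVec_mulVec]
    beta_reduce
    rw [e2, map_neg, e1, e3, e4]
    simp only [mulVec_sub, map_sub, AddMonoidHom.sub_apply]
    abel

end Phi

end Lat

/-! ### Indices -/

theorem idx1 {W : Type} [AddCommGroup W] {I P FI FP : AddSubgroup W} (h1 : P ≤ FP)
    (h2 : FI ≤ FP) (h3 : I ≤ FI) (h4 : I ≤ P) :
    P.relIndex FP * I.relIndex (FI ⊓ P) = (FI ⊔ P).relIndex FP * I.relIndex FI := by
  have e1 := AddSubgroup.relIndex_mul_relIndex P (FI ⊔ P) FP le_sup_right (sup_le h2 h1)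
  rw [AddSubgroup.relIndex_sup_right] at e1
  have e2 := AddSubgroup.relIndex_mul_relIndex I (FI ⊓ P) FI (le_inf h3 h4) inf_le_left
  rw [AddSubgroup.inf_relIndex_left] at e2
  rw [← e1, ← e2]
  ring

theorem idx2 {W : Type} [AddCommGroup W] {I A B C : AddSubgroup W} (h1 : I ≤ B)
    (h2 : C = A ⊔ B) (h3 : B ⊓ A = I) :
    I.relIndex C = I.relIndex A * I.relIndex B := by
  subst h2
  have e1 := AddSubgroup.relIndex_mul_relIndex I B (A ⊔ B) h1 le_sup_right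
  rw [AddSubgroup.relIndex_sup_right] at e1
  have e2 := AddSubgroup.inf_relIndex_right B A
  rw [h3] at e2
  rw [← e1, ← e2, mul_comm]

/-! ### Self-dual lattices -/

section Dual

variable {p : ℕ} [Fact p.Prime] {L : Type} [NormedField L] [NormedAlgebra ℚ_[p] L] {n : ℕ}
  {D : Type} [Group D] {V : D →* GL (Fin n) L} {χ : D →* ℤ_[p]ˣ} {τ : D →* D} {s : D}
  {a : ℤ_[p]ˣ} {β : GL (Fin n) L}

theorem form_symm (hF : FrmL χ τ s a V β) (x z : Fin n → L) :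
    x ⬝ᵥ ((β : Matrix (Fin n) (Fin n) L) *ᵥ z) = uL L a *
      (z ⬝ᵥ ((β : Matrix (Fin n) (Fin n) L) *ᵥ ((V s : Matrix (Fin n) (Fin n) L) *ᵥ x))) := by
  conv_lhs => rw [hF.symm]
  rw [smul_mulVec, dotProduct_smul, smul_eq_mul, ← mulVec_mulVec, dotProduct_mulVec,
    vecMul_transpose]
  congr 1
  rw [dotProduct_comm, dotProduct_comm z, ← dotProduct_comm z, mulVec_transpose,
    ← dotProduct_mulVec]

theorem norm_uL (a : ℤ_[p]ˣ) : ‖uL L a‖ = 1 := by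
  unfold uL
  rw [norm_algebraMap', ← PadicInt.norm_def]
  exact PadicInt.norm_units a

theorem left_dual (hF : FrmL χ τ s a V β) {X : AddSubgroup (Fin n → L)} (hX : Lt V X)
    (hXX : dlt p (β : Matrix (Fin n) (Fin n) L) X = X) (x : Fin n → L) :
    x ∈ X ↔ ∀ z ∈ X, ‖x ⬝ᵥ ((β : Matrix (Fin n) (Fin n) L) *ᵥ z)‖ ≤ 1 := by
  constructor
  · intro hx z hz
    rw [← hXX] at hz
    exact hz x hx
  · intro h
    have h1 : (V s : Matrix (Fin n) (Fin n) L) *ᵥ x ∈ X := by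
      rw [← hXX]
      intro z hz
      have h2 := h z hz
      rwa [form_symm hF, norm_mul, norm_uL, one_mul] at h2
    have h2 := hX.stab s⁻¹ _ h1
    rwa [mulVec_mulVec, ← Units.val_mul, ← map_mul, inv_mul_cancel, map_one, Units.val_one,
      one_mulVec] at h2

theorem right_dual {X : AddSubgroup (Fin n → L)}
    (hXX : dlt p (β : Matrix (Fin n) (Fin n) L) X = X) (z : Fin n → L) :
    z ∈ X ↔ ∀ x ∈ X, ‖x ⬝ᵥ ((β : Matrix (Fin n) (Fin n) L) *ᵥ z)‖ ≤ 1 := by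
  conv_lhs => rw [← hXX]
  exact Iff.rfl

theorem bW_symm (hF : FrmL χ τ s a V β) (lam : L →ₗ[ℚ_[p]] ℚ_[p]) (x z : Fin n → L) :
    bW lam (β : Matrix (Fin n) (Fin n) L) x z = (a : ℤ_[p]) •
      bW lam (β : Matrix (Fin n) (Fin n) L) z ((V s : Matrix (Fin n) (Fin n) L) *ᵥ x) := by
  rw [bW_apply, bW_apply, form_symm hF, ← LMK.cl_smul]
  unfold uL
  rw [← Algebra.smul_def, map_smul, smul_eq_mul]

theorem fixL_comp (hτ : ∀ d, ∃ d', τ d' = d) (P : AddSubgroup (Fin n → L)) :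
    fixL (V.comp τ) P = fixL V P := by
  ext v
  constructor
  · intro h d
    obtain ⟨d', rfl⟩ := hτ d
    exact h d'
  · intro h d
    exact h (τ d)

theorem le_fixL {X : AddSubgroup (Fin n → L)}
    (hX : ∀ g, ∀ v ∈ X, (V g : Matrix (Fin n) (Fin n) L) *ᵥ v ∈ X) : X ≤ fixL V X :=
  fun v hv d => X.sub_mem (hX d v hv) hv

theorem fixL_mono {X Y : AddSubgroup (Fin n → L)} (h : X ≤ Y) : fixL V X ≤ fixL V Y :=
  fun _ hv d => h (hv d)

theorem inf_fix {X Y I J : AddSubgroup (Fin n → L)} (mI : ∀ x, x ∈ I ↔ x ∈ X ∧ x ∈ Y)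
    (mJ : ∀ x, x ∈ J ↔ ∃ y ∈ X, ∃ z ∈ Y, y + z = x)
    (hX : ∀ g, ∀ v ∈ X, (V g : Matrix (Fin n) (Fin n) L) *ᵥ v ∈ X)
    (hY : ∀ g, ∀ v ∈ Y, (V g : Matrix (Fin n) (Fin n) L) *ᵥ v ∈ Y) :
    (fixL V I ⊔ J) ⊓ fixL V X = fixL V I ⊔ X := by
  have hIX : I ≤ X := fun x hx => ((mI x).1 hx).1
  have hXJ : X ≤ J := fun x hx => (mJ x).2 ⟨x, hx, 0, Y.zero_mem, add_zero x⟩
  apply le_antisymm
  · rintro v ⟨h1, h2⟩
    obtain ⟨w, hw, j, hj, rfl⟩ := AddSubgroup.mem_sup.1 h1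
    obtain ⟨y, hy, z, hz, rfl⟩ := (mJ j).1 hj
    refine AddSubgroup.mem_sup.2 ⟨w + z, (fixL V I).add_mem hw fun d => (mI _).2 ⟨?_, ?_⟩,
      y, hy, by abel⟩
    · have e : (V d : Matrix (Fin n) (Fin n) L) *ᵥ z - z =
          ((V d : Matrix (Fin n) (Fin n) L) *ᵥ (w + (y + z)) - (w + (y + z))) -
          ((V d : Matrix (Fin n) (Fin n) L) *ᵥ w - w) -
          ((V d : Matrix (Fin n) (Fin n) L) *ᵥ y - y) := by
        rw [mulVec_add, mulVec_add]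
        abel
      rw [e]
      exact X.sub_mem (X.sub_mem (h2 d) (hIX (hw d))) (X.sub_mem (hX d y hy) hy)
    · exact Y.sub_mem (hY d z hz) hz
  · refine sup_le (le_inf le_sup_left (fixL_mono hIX))
      (le_inf (hXJ.trans le_sup_right) (le_fixL hX))

theorem fix_inf {X Y I J : AddSubgroup (Fin n → L)} (mI : ∀ x, x ∈ I ↔ x ∈ X ∧ x ∈ Y)
    (mJ : ∀ x, x ∈ J ↔ ∃ y ∈ X, ∃ z ∈ Y, y + z = x)
    (hX : ∀ g, ∀ v ∈ X, (V g : Matrix (Fin n) (Fin n) L) *ᵥ v ∈ X)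
    (hY : ∀ g, ∀ v ∈ Y, (V g : Matrix (Fin n) (Fin n) L) *ᵥ v ∈ Y) :
    fixL V I ⊓ J = (fixL V I ⊓ X) ⊔ (fixL V I ⊓ Y) := by
  have hIY : I ≤ Y := fun x hx => ((mI x).1 hx).2
  have hXJ : X ≤ J := fun x hx => (mJ x).2 ⟨x, hx, 0, Y.zero_mem, add_zero x⟩
  have hYJ : Y ≤ J := fun x hx => (mJ x).2 ⟨0, X.zero_mem, x, hx, zero_add x⟩
  apply le_antisymm
  · rintro v ⟨h1, h2⟩
    obtain ⟨y, hy, z, hz, rfl⟩ := (mJ v).1 h2
    have h3 : y ∈ fixL V I := by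
      refine fun d => (mI _).2 ⟨X.sub_mem (hX d y hy) hy, ?_⟩
      have e : (V d : Matrix (Fin n) (Fin n) L) *ᵥ y - y =
          ((V d : Matrix (Fin n) (Fin n) L) *ᵥ (y + z) - (y + z)) -
          ((V d : Matrix (Fin n) (Fin n) L) *ᵥ z - z) := by
        rw [mulVec_add]
        abel
      rw [e]
      exact Y.sub_mem (hIY (h1 d)) (Y.sub_mem (hY d z hz) hz)
    have h4 : z ∈ fixL V I := by
      have e : z = (y + z) - y := by abel
      rw [e]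
      exact (fixL V I).sub_mem h1 h3
    exact AddSubgroup.mem_sup.2 ⟨y, ⟨h3, hy⟩, z, ⟨h4, hz⟩, rfl⟩
  · exact sup_le (inf_le_inf_left _ hXJ) (inf_le_inf_left _ hYJ)

end Dual

end WLINV

open WLINV in
/-- **Module LINV**: the parity of the length of `(V / X)^D` is the same for all self-dual
lattices `X`. -/
theorem stLinv (h1 : StSyml) (h2 : StPrpl) (h3 : StGcol) (h4 : StTri) (h5 : StFxl)
    (h6 : StLam) : StLinv := by
  intro p _ hp L _ _ _ D _ _ _ _ _ χ hχ inv hax τ s a hC n V β hV hN hF X Y hX hY hXX hYY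
  obtain ⟨lam, hlam⟩ := h6 p L
  have hu := BKND.DG.ultra (p := p) L
  have hu' : IsUltrametricDist (Fin n → L) := inferInstance
  have hτ : ∀ d, ∃ d', τ d' = d := fun d => ⟨_, tau_sgm hC d⟩
  -- the lattices
  obtain ⟨Xm, hXm⟩ : ∃ Xm : Submodule (OO p L) (Fin n → L), Xm.toAddSubgroup = X :=
    ⟨sbm p hX, rfl⟩
  obtain ⟨Ym, hYm⟩ : ∃ Ym : Submodule (OO p L) (Fin n → L), Ym.toAddSubgroup = Y :=
    ⟨sbm p hY, rfl⟩
  have mX : ∀ x, x ∈ Xm ↔ x ∈ X := fun x => by rw [← hXm]; rfl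
  have mY : ∀ x, x ∈ Ym ↔ x ∈ Y := fun x => by rw [← hYm]; rfl
  obtain ⟨I, hI⟩ : ∃ I, I = Xm ⊓ Ym := ⟨_, rfl⟩
  obtain ⟨J, hJ⟩ : ∃ J, J = Xm ⊔ Ym := ⟨_, rfl⟩
  have mI : ∀ x, x ∈ I ↔ x ∈ X ∧ x ∈ Y := fun x => by
    rw [hI, Submodule.mem_inf, mX, mY]
  have mJ : ∀ x, x ∈ J ↔ ∃ y ∈ X, ∃ z ∈ Y, y + z = x := fun x => by
    rw [hJ, Submodule.mem_sup]
    simp only [mX, mY]
  have hIX : I ≤ Xm := fun x hx => (mX x).2 ((mI x).1 hx).1
  have hIY : I ≤ Ym := fun x hx => (mY x).2 ((mI x).1 hx).2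
  have hXJ : Xm ≤ J := hJ ▸ le_sup_left
  have hYJ : Ym ≤ J := hJ ▸ le_sup_right
  have hIJ : I ≤ J := hIX.trans hXJ
  have hXs : ∀ g, ∀ v ∈ Xm, (V g : Matrix (Fin n) (Fin n) L) *ᵥ v ∈ Xm := fun g v hv =>
    (mX _).2 (hX.stab g v ((mX _).1 hv))
  have hYs : ∀ g, ∀ v ∈ Ym, (V g : Matrix (Fin n) (Fin n) L) *ᵥ v ∈ Ym := fun g v hv =>
    (mY _).2 (hY.stab g v ((mY _).1 hv))
  have hIs : ∀ g, ∀ v ∈ I, (V g : Matrix (Fin n) (Fin n) L) *ᵥ v ∈ I := fun g v hv =>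
    (mI _).2 ⟨hX.stab g v ((mI _).1 hv).1, hY.stab g v ((mI _).1 hv).2⟩
  have hJs : ∀ g, ∀ v ∈ J, (V g : Matrix (Fin n) (Fin n) L) *ᵥ v ∈ J := by
    intro g v hv
    obtain ⟨y, hy, z, hz, rfl⟩ := (mJ _).1 hv
    exact (mJ _).2 ⟨_, hX.stab g y hy, _, hY.stab g z hz, (mulVec_add _ _ _).symm⟩
  have hIb : ∃ ε : ℝ, 0 < ε ∧ ∀ x : Fin n → L, ‖x‖ ≤ ε → x ∈ I := by
    obtain ⟨ε, hε, h⟩ := hX.nhd
    obtain ⟨ε', hε', h'⟩ := hY.nhd
    exact ⟨min ε ε', lt_min hε hε', fun x hx => (mI x).2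
      ⟨h x (hx.trans (min_le_left _ _)), h' x (hx.trans (min_le_right _ _))⟩⟩
  have hJb : ∃ C : ℝ, ∀ v ∈ J, ‖v‖ ≤ C := by
    obtain ⟨C, h⟩ := hX.bdd
    obtain ⟨C', h'⟩ := hY.bdd
    refine ⟨max C C', fun v hv => ?_⟩
    obtain ⟨y, hy, z, hz, rfl⟩ := (mJ _).1 hv
    exact (IsUltrametricDist.norm_add_le_max _ _).trans (max_le_max (h y hy) (h' z hz))
  have hIb' : ∃ C : ℝ, ∀ v ∈ I, ‖v‖ ≤ C := by
    obtain ⟨C, h⟩ := hJb
    exact ⟨C, fun v hv => h v (hIJ hv)⟩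
  have hJb' : ∃ ε : ℝ, 0 < ε ∧ ∀ x : Fin n → L, ‖x‖ ≤ ε → x ∈ J := by
    obtain ⟨ε, hε, h⟩ := hIb
    exact ⟨ε, hε, fun x hx => hIJ (h x hx)⟩
  have ltI : Lt V I.toAddSubgroup := ⟨hIb', hIb, fun c hc x hx =>
    I.smul_mem (⟨c, hc⟩ : OO p L) hx, hIs⟩
  have ltJ : Lt V J.toAddSubgroup := ⟨hJb, hJb', fun c hc x hx =>
    J.smul_mem (⟨c, hc⟩ : OO p L) hx, hJs⟩
  -- duality
  have hl : ∀ x, x ∈ I ↔ ∀ z ∈ J, ‖x ⬝ᵥ ((β : Matrix (Fin n) (Fin n) L) *ᵥ z)‖ ≤ 1 := by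
    intro x
    constructor
    · intro hx w hw
      obtain ⟨y, hy, z, hz, rfl⟩ := (mJ _).1 hw
      rw [mulVec_add, dotProduct_add]
      exact (IsUltrametricDist.norm_add_le_max _ _).trans (max_le
        ((left_dual hF hX hXX x).1 ((mI x).1 hx).1 y hy)
        ((left_dual hF hY hYY x).1 ((mI x).1 hx).2 z hz))
    · intro h
      exact (mI x).2 ⟨(left_dual hF hX hXX x).2 fun z hz => h z (hXJ ((mX z).2 hz)),
        (left_dual hF hY hYY x).2 fun z hz => h z (hYJ ((mY z).2 hz))⟩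
  have hr : ∀ z, z ∈ I ↔ ∀ x ∈ J, ‖x ⬝ᵥ ((β : Matrix (Fin n) (Fin n) L) *ᵥ z)‖ ≤ 1 := by
    intro x
    constructor
    · intro hx w hw
      obtain ⟨y, hy, z, hz, rfl⟩ := (mJ _).1 hw
      rw [add_dotProduct]
      exact (IsUltrametricDist.norm_add_le_max _ _).trans (max_le
        ((right_dual hXX x).1 ((mI x).1 hx).1 y hy)
        ((right_dual hYY x).1 ((mI x).1 hx).2 z hz))
    · intro h
      exact (mI x).2 ⟨(right_dual hXX x).2 fun z hz => h z (hXJ ((mX z).2 hz)),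
        (right_dual hYY x).2 fun z hz => h z (hYJ ((mY z).2 hz))⟩
  have hfin : Finite (QM I J) := finite_QM hIb hJb
  obtain ⟨Z, hZ1, hZ2, hZ3⟩ := exists_pair hC hV hF lam hlam hIs hJs hIb hJb
    (fun x _ => hl x) (fun x _ => hr x)
  have hsym := h1 p D χ inv hχ hax.inv_eq τ s a hC (OO p L) (QM I J) Z hZ2 (by
    intro m m'
    obtain ⟨x, hx, rfl⟩ := qm_surj m
    obtain ⟨y, hy, rfl⟩ := qm_surj m'
    rw [hZ1, actQ_qm, hZ3, hZ3]
    exact bW_symm hF lam x y)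
  obtain ⟨f, hf, hbal, hfs, hfn⟩ := exists_form hC hax Z hZ2 hsym
  obtain ⟨hfinH, hcardH⟩ := card_HM hax Z
  rw [H0_eq hC Z hZ2] at hcardH
  have hH0 : Nat.card (BKND.H0 Z.ρ) ≠ 0 := Nat.card_pos.ne'
  -- the Lagrangian submodules from `X` and `Y`
  have key : ∀ P : Submodule (OO p L) (Fin n → L), I ≤ P → P ≤ J →
      (∀ g, ∀ v ∈ P, (V g : Matrix (Fin n) (Fin n) L) *ᵥ v ∈ P) →
      (∀ z, z ∈ P ↔ ∀ x ∈ P, ‖x ⬝ᵥ ((β : Matrix (Fin n) (Fin n) L) *ᵥ z)‖ ≤ 1) →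
      (∀ y, y ∈ clsP Z (sq I J P) ↔ ∀ x ∈ clsP Z (sq I J P), f x y = 0) := by
    intro P hIP hPJ hPs hPd
    refine lagr_clsP h2 hχ hC hax Z hZ2 hsym f hf _ ?_ ?_
    · intro g m hm
      obtain ⟨x, hx, rfl⟩ := qm_surj m
      rw [hZ1, actQ_qm]
      exact (mem_sq hIP _ _).2 (hPs g x ((mem_sq hIP _ _).1 hm))
    · ext m
      obtain ⟨z, hz, rfl⟩ := qm_surj m
      rw [mem_sq hIP]
      constructor
      · intro h
        refine (hPd z).2 fun x hx => norm_le_of_bW hlam _ fun b => ?_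
        have hbx : (b : L) • x ∈ P := P.smul_mem b hx
        have h7 := h (qm I J ⟨(b : L) • x, hPJ hbx⟩) ((mem_sq hIP _ _).2 hbx)
        rwa [hZ3] at h7
      · intro h m hm
        obtain ⟨x, hx, rfl⟩ := qm_surj m
        rw [hZ3]
        exact bW_zero hlam _ ((hPd z).1 h x ((mem_sq hIP _ _).1 hm))
  have hA := key Xm hIX hXJ hXs (fun z => by
    rw [mX, right_dual hXX]
    simp only [mX])
  have hB := key Ym hIY hYJ hYs (fun z => by
    rw [mY, right_dual hYY]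
    simp only [mY])
  obtain ⟨A, hAd⟩ : ∃ A, A = clsP Z (sq I J Xm) := ⟨_, rfl⟩
  obtain ⟨B, hBd⟩ : ∃ B, B = clsP Z (sq I J Ym) := ⟨_, rfl⟩
  rw [← hAd] at hA
  rw [← hBd] at hB
  have hAB : A ⊓ B = ⊥ := by
    rw [eq_bot_iff]
    rintro h ⟨h7, h8⟩
    rw [SetLike.mem_coe, hAd] at h7
    rw [SetLike.mem_coe, hBd] at h8
    obtain ⟨x, hx, hxP, rfl⟩ := h7
    obtain ⟨y, hy, hyP, e⟩ := h8
    obtain ⟨m, hm⟩ := cls_eq.1 e
    obtain ⟨w, hw, rfl⟩ := qm_surj m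
    obtain ⟨u, huX, v, hvY, rfl⟩ := (mJ _).1 hw
    have huJ : u ∈ J := hXJ ((mX u).2 huX)
    have hvJ : v ∈ J := hYJ ((mY v).2 hvY)
    rw [Submodule.mem_bot, cls_eq_zero]
    refine ⟨qm I J ⟨-u, J.neg_mem huJ⟩, fun d => ?_⟩
    obtain ⟨x', hx', e1⟩ := qm_surj (x d)
    obtain ⟨y', hy', e2⟩ := qm_surj (y d)
    have h9 := hm d
    have h10 := hxP d
    have h11 := hyP d
    rw [← e1] at h9 h10 ⊢
    rw [← e2] at h9 h11
    rw [mem_sq hIX] at h10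
    rw [mem_sq hIY] at h11
    rw [d0_qm hIs hJs Z hZ1] at h9 ⊢
    have h12 := qm_eq.1 ((map_sub (qm I J) ⟨y', hy'⟩ ⟨x', hx'⟩).trans h9)
    refine qm_eq.2 ((mI _).2 ⟨?_, ?_⟩)
    · rw [mulVec_neg]
      refine X.sub_mem ((mX _).1 h10) (X.sub_mem (X.neg_mem (hX.stab d u huX)) (X.neg_mem huX))
    · have e3 : x' - ((V d : Matrix (Fin n) (Fin n) L) *ᵥ (-u) - -u) =
          y' - ((V d : Matrix (Fin n) (Fin n) L) *ᵥ v - v) -
            (y' - x' - ((V d : Matrix (Fin n) (Fin n) L) *ᵥ (u + v) - (u + v))) := by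
        rw [mulVec_neg, mulVec_add]
        abel
      rw [e3]
      exact Y.sub_mem (Y.sub_mem ((mY _).1 h11) (Y.sub_mem (hY.stab d v hvY) hvY))
        ((mI _).1 h12).2
  -- the Lagrangian submodule from the vectors which are fixed modulo `J`
  obtain ⟨C, hCd⟩ : ∃ C, C = LinearMap.range (Phi hV hIs hJs hIb Z hZ1) := ⟨_, rfl⟩
  obtain ⟨K, hK⟩ : ∃ K, K = (UFXL.fixM V I ⊔ J).toAddSubgroup := ⟨_, rfl⟩
  have cC : Nat.card C = K.relIndex (fixL V J.toAddSubgroup) := by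
    have h7 := card_map hV hIs hJs hIb Z hZ1 (le_refl (UFXL.fixM V J))
    rw [Submodule.comap_subtype_self, Submodule.map_top] at h7
    rw [hCd, h7, hK]
    rfl
  have cAC : Nat.card (A ⊓ C : Submodule (OO p L) (HM Z)) = K.relIndex (fixL V X) := by
    rw [hAd, hCd, inter_eq hV hIs hJs hIb Z hZ1 hIX,
      card_map hV hIs hJs hIb Z hZ1 (fixM_mono hXJ), hK, ← hXm]
    rfl
  have cBC : Nat.card (B ⊓ C : Submodule (OO p L) (HM Z)) = K.relIndex (fixL V Y) := by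
    rw [hBd, hCd, inter_eq hV hIs hJs hIb Z hZ1 hIY,
      card_map hV hIs hJs hIb Z hZ1 (fixM_mono hYJ), hK, ← hYm]
    rfl
  have hK' : K = fixL V I.toAddSubgroup ⊔ J.toAddSubgroup := by
    rw [hK, Submodule.sup_toAddSubgroup]
    rfl
  -- the indices are finite
  have hne : ∀ P : AddSubgroup (Fin n → L), Lt V P → P.relIndex (fixL V P) ≠ 0 := by
    intro P hP
    obtain ⟨C₀, hC0, hC1⟩ := UFXL.exists_lower (p := p) V hN
    obtain ⟨C₁, hC2⟩ := hP.bdd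
    refine relIndex_ne (p := p) hP.nhd ⟨C₀ * |C₁|, fun v hv => ?_⟩
    exact hC1 v |C₁| (abs_nonneg _) fun d => (hC2 _ (hv d)).trans (le_abs_self _)
  -- the orders for `I` and `J`
  have hN' : NoInv (V.comp τ) := fun v hv => hN v fun g => by
    obtain ⟨d, rfl⟩ := hτ g
    exact hv d
  have g1 := (h3 p L D χ hχ inv hax n V (V.comp τ) β hV (hV.comp hC.cont) hN hN' hF.dual
    I.toAddSubgroup X ltI hX (fun x hx => ((mI x).1 hx).1)).2
  have g2 := (h3 p L D χ hχ inv hax n V (V.comp τ) β hV (hV.comp hC.cont) hN hN' hF.dual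
    I.toAddSubgroup J.toAddSubgroup ltI ltJ hIJ).2
  have g3 : dlt p (β : Matrix (Fin n) (Fin n) L) J.toAddSubgroup = I.toAddSubgroup := by
    ext z
    exact (hr z).symm
  rw [g3] at g2
  rw [hXX] at g1
  unfold hh at g1 g2
  rw [fixL_comp hτ, fixL_comp hτ] at g1 g2
  have g4 := Nat.eq_of_mul_eq_mul_left (Nat.pos_of_ne_zero (hne X hX))
    (g1.trans (mul_comm _ _))
  rw [g4] at g2
  have g5 := Nat.eq_of_mul_eq_mul_right (Nat.pos_of_ne_zero (hne _ ltI)) g2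
  -- the indices
  have sX : ∀ g, ∀ v ∈ X, (V g : Matrix (Fin n) (Fin n) L) *ᵥ v ∈ X := hX.stab
  have sY : ∀ g, ∀ v ∈ Y, (V g : Matrix (Fin n) (Fin n) L) *ᵥ v ∈ Y := hY.stab
  have mI' : ∀ x, x ∈ I.toAddSubgroup ↔ x ∈ Y ∧ x ∈ X := fun x =>
    (mI x).trans and_comm
  have mJ' : ∀ x, x ∈ J.toAddSubgroup ↔ ∃ y ∈ Y, ∃ z ∈ X, y + z = x := fun x => by
    refine (mJ x).trans ⟨?_, ?_⟩
    · rintro ⟨y, hy, z, hz, e⟩
      exact ⟨z, hz, y, hy, (add_comm z y).trans e⟩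
    · rintro ⟨y, hy, z, hz, e⟩
      exact ⟨z, hz, y, hy, (add_comm z y).trans e⟩
  have iX := inf_fix (V := V) (I := I.toAddSubgroup) (J := J.toAddSubgroup) mI mJ sX sY
  have iY := inf_fix (V := V) (I := I.toAddSubgroup) (J := J.toAddSubgroup) mI' mJ' sY sX
  have iJ := fix_inf (V := V) (I := I.toAddSubgroup) (J := J.toAddSubgroup) mI mJ sX sY
  have hIX' : I.toAddSubgroup ≤ X := fun x hx => ((mI x).1 hx).1
  have hIY' : I.toAddSubgroup ≤ Y := fun x hx => ((mI x).1 hx).2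
  have hIF : I.toAddSubgroup ≤ fixL V I.toAddSubgroup := le_fixL hIs
  have n1 := idx1 (P := X) (le_fixL sX) (fixL_mono (V := V) hIX') hIF hIX'
  have n2 := idx1 (P := Y) (le_fixL sY) (fixL_mono (V := V) hIY') hIF hIY'
  have n3 := idx1 (P := J.toAddSubgroup) (le_fixL hJs)
    (fixL_mono (V := V) (show I.toAddSubgroup ≤ J.toAddSubgroup from hIJ)) hIF hIJ
  have n4 := idx2 (le_inf hIF hIY') iJ (by
    apply le_antisymm
    · rintro v ⟨⟨_, h8⟩, ⟨_, h9⟩⟩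
      exact (mI v).2 ⟨h9, h8⟩
    · exact le_inf (le_inf hIF hIY') (le_inf hIF hIX'))
  rw [← iX, AddSubgroup.inf_relIndex_right, ← hK'] at n1
  rw [← iY, AddSubgroup.inf_relIndex_right, ← hK'] at n2
  rw [← hK', g5] at n3
  -- powers of `q`
  have hq : 1 < Nat.card (kk p L) := Finite.one_lt_card
  obtain ⟨eX, hX1⟩ := XSD.relIndex_pow (OO p L) Xm (UFXL.fixM V Xm) (by
    have h7 := hne X hX
    rw [← hXm] at h7
    exact h7)
  obtain ⟨eY, hY1⟩ := XSD.relIndex_pow (OO p L) Ym (UFXL.fixM V Ym) (by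
    have h7 := hne Y hY
    rw [← hYm] at h7
    exact h7)
  obtain ⟨eI, hI1⟩ := XSD.relIndex_pow (OO p L) I (UFXL.fixM V I) (hne _ ltI)
  have hH := card_H0 hIs hJs Z hZ1
  obtain ⟨u, hu1⟩ := XSD.relIndex_pow (OO p L) I (UFXL.fixM V I ⊓ J) (by
    rw [← hH]
    exact hH0)
  have hX2 : X.relIndex (fixL V X) = Nat.card (kk p L) ^ eX := by
    rw [← hXm]
    exact hX1
  have hY2 : Y.relIndex (fixL V Y) = Nat.card (kk p L) ^ eY := by
    rw [← hYm]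
    exact hY1
  have hI2 : I.toAddSubgroup.relIndex (fixL V I.toAddSubgroup) = Nat.card (kk p L) ^ eI := hI1
  have hu2 : I.toAddSubgroup.relIndex (fixL V I.toAddSubgroup ⊓ J.toAddSubgroup) =
      Nat.card (kk p L) ^ u := hu1
  rw [hu1] at hH
  rw [hH] at hcardH
  have hq0 : ∀ e, 0 < Nat.card (kk p L) ^ e := fun e => pow_pos (by omega) e
  -- the order of `C`
  have cC' : Nat.card C = Nat.card (kk p L) ^ u := by
    rw [hI2, hu2, mul_comm] at n3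
    rw [cC]
    exact (Nat.eq_of_mul_eq_mul_right (hq0 eI) n3).symm
  have hCL : ∀ y, y ∈ C ↔ ∀ x ∈ C, f x y = 0 := by
    refine eq_perp f hfs hfn C.toAddSubgroup ?_ ?_
    · intro x hx y hy
      have hx' : x ∈ C := hx
      have hy' : y ∈ C := hy
      rw [hCd] at hx' hy'
      obtain ⟨⟨v, hv⟩, rfl⟩ := hx'
      obtain ⟨⟨w, hw⟩, rfl⟩ := hy'
      rw [Phi_apply, Phi_apply, hf]
      exact isotropic hV hIs hJs hIb Z hZ1 hC hF hax.inv_eq lam hZ2 hZ3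
        (fun y hy => (hsym y hy y hy).1) v hv w hw
    · have h7 : Nat.card C.toAddSubgroup = Nat.card (kk p L) ^ u := cC'
      rw [h7, hcardH, pow_two]
  -- the order of `A`
  have cA : Nat.card A = Nat.card (kk p L) ^ u := by
    have h7 : Nat.card A * Nat.card A = Nat.card (HM Z) :=
      card_perp f hfs hfn A.toAddSubgroup A.toAddSubgroup hA
    rw [hcardH] at h7
    exact Nat.mul_self_inj.1 h7
  -- three Lagrangian submodules
  obtain ⟨m, hm⟩ := h4 (OO p L) p hp (HM Z) f hbal hfs hfn A B C hA hB hCL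
  rw [hAB, cAC, cBC, cA] at hm
  have h8 : Nat.card (⊥ : Submodule (OO p L) (HM Z)) = 1 := Nat.card_unique
  rw [h8, one_mul] at hm
  rw [hX2, hI2] at n1
  rw [hY2, hI2] at n2
  rw [hu2] at n4
  -- comparison of the exponents
  have h9 : Nat.card (kk p L) ^ (eX + eY + 2 * u) = Nat.card (kk p L) ^ (2 * m + 2 * eI) := by
    have e1 : Nat.card (kk p L) ^ (eX + eY + 2 * u) =
        (Nat.card (kk p L) ^ eX * I.toAddSubgroup.relIndex (fixL V I.toAddSubgroup ⊓ X)) *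
        (Nat.card (kk p L) ^ eY * I.toAddSubgroup.relIndex (fixL V I.toAddSubgroup ⊓ Y)) *
          Nat.card (kk p L) ^ u := by
      have e2 : Nat.card (kk p L) ^ (eX + eY + 2 * u) = Nat.card (kk p L) ^ eX *
          Nat.card (kk p L) ^ eY * Nat.card (kk p L) ^ u * Nat.card (kk p L) ^ u := by
        ring
      rw [e2, n4]
      ring
    rw [e1, n1, n2]
    have e3 : Nat.card (kk p L) ^ (2 * m + 2 * eI) = Nat.card (kk p L) ^ (2 * m) *
        (Nat.card (kk p L) ^ eI * Nat.card (kk p L) ^ eI) := by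
      ring
    rw [e3, ← hm]
    ring
  have h10 : eX + eY + 2 * u = 2 * m + 2 * eI := Nat.pow_right_injective hq h9
  unfold lnD
  rw [hX2, hY2, Nat.log_pow hq, Nat.log_pow hq]
  omega

end BKT
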