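import Pool.Agent.Lib.MP_7c08ba_nt.T1.StW
import Pool.Agent.Lib.MP_7c08ba_nt.T1.GNAll

set_option autoImplicit false

/-!
Parity for congruent representations, module LNKL: the decomposition group of a place above a prime
which does not split, with the conjugation.
-/

noncomputable section

namespace BKT

open NumberField BKGen BKMet
open BKPar (Loc1 Loc2)
open BKND (Sm)
open BKLoc2 (Sys IsLam corM2)
open BKGlob2 (CC0)

namespace WLNKL

/-- multiples of cocycles are cocycles -/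
theorem z2_smul {p : ℕ} [Fact p.Prime] {D : Type} [Group D] [TopologicalSpace D]
    {χ : D →* ℤ_[p]ˣ} (a : ℤ_[p]) {z : D → D → QZ p} (hz : z ∈ BKND.Z2 (actA χ)) :
    (fun g g' => a • z g g') ∈ BKND.Z2 (actA χ) := by
  obtain ⟨⟨W, hW, h1⟩, h2⟩ := hz
  refine ⟨⟨W, hW, fun g h w hw w' hw' => ?_⟩, fun g h k => ?_⟩
  · change a • z (g * w) (h * w') = a • z g h
    rw [h1 g h w hw w' hw']
  · have h3 := congrArg (fun x => a • x) (h2 g h k)
    have h4 : a • actA χ g (z h k) = actA χ g (a • z h k) := by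
      rw [actA_apply, actA_apply, smul_comm]
    simp only [smul_add, smul_sub, smul_zero, h4] at h3 ⊢
    exact h3

section

variable {F : Type} [Field F] {l : ℕ} [Fact l.Prime] (j : AlgebraicClosure F →+* PadicAlgCl l)

/-- the family with one place -/
def one (hne : GNNPL.Vg j ≠ ⊤) (r : GNNPL.Vg j →* GF F) (hr : Continuous r)
    (hs : ∀ (t : GNNPL.Vg j) (x : AlgebraicClosure F), j (r t x) = (t : GQ l) (j x)) : Npl F where
  κ := Unit
  m := fun _ => l
  pr := fun _ => inferInstance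
  inj := fun _ _ _ => rfl
  j := fun _ => j
  V := fun _ => GNNPL.Vg j
  r := fun _ => r
  cont := fun _ => hr
  spec := fun _ => hs
  mem := fun _ _ => Iff.rfl
  ne := fun _ => hne

/-- the decomposition group -/
theorem iff_map (r : GNNPL.Vg j →* GF F)
    (hs : ∀ (t : GNNPL.Vg j) (x : AlgebraicClosure F), j (r t x) = (t : GQ l) (j x))
    (g : GF F) (t : GQ l) : (∀ z, j (g z) = t (j z)) ↔
      ∃ d : GNNPL.Vg j, r d = g ∧ (d : GQ l) = t := by
  constructor
  · intro h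
    have ht : t ∈ GNNPL.Vg j := fun a => by
      rw [← h, AlgEquiv.commutes]
    refine ⟨⟨t, ht⟩, ?_, rfl⟩
    refine AlgEquiv.ext fun x => j.injective ?_
    rw [hs, h]
  · rintro ⟨d, rfl, rfl⟩ z
    exact hs d z

end

end WLNKL

/-- Module LNKL. -/
theorem stLnkl (h10 : StNpl) (h9 : StCnj) (h4 : StNcr) (h3 : StNcj) (h2 : StNlg) :
    StLnkl := by
  intro p l _ _ hp hlp F _ _ hF2 hFreal hns c₀ cc hcc j
  classical
  obtain ⟨r, hr, hs⟩ := GNNPL.exists_map j
  have hne : GNNPL.Vg j ≠ ⊤ := by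
    intro htop
    refine hns ?_
    refine GNNPL.splits (j.comp (algebraMap F (AlgebraicClosure F))) fun t a => ?_
    have h2 : t ∈ GNNPL.Vg j := by
      rw [htop]
      exact Subgroup.mem_top t
    exact h2 a
  obtain ⟨hVo, hVn, hVi, -⟩ : IsOpen (GNNPL.Vg j : Set (GQ l)) ∧ (GNNPL.Vg j).Normal ∧
      (GNNPL.Vg j).index = 2 ∧ ¬ Splits F l := (h10 F hF2).2 (WLNKL.one j hne r hr hs) ()
  obtain ⟨t, h, s, ht, hst, hconj, hh, hchi⟩ : ∃ (t : GQ l) (h : GF F) (s : GNNPL.Vg j),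
      t ∉ GNNPL.Vg j ∧ (s : GQ l) = t * t ∧
      (∀ d d' : GNNPL.Vg j, (d' : GQ l) = t * d * t⁻¹ → cc (r d) = h * r d' * h⁻¹) ∧
      cc h * h = (r s)⁻¹ ∧ cycF p F h * cycL p l t = -1 :=
    h9 p hp F hF2 hFreal c₀ cc hcc (WLNKL.one j hne r hr hs) ()
  have hN2 : ¬ p ∣ (GNNPL.Vg j).index := by
    intro hk
    rw [hVi] at hk
    exact hp ((Nat.prime_dvd_prime_iff_eq Fact.out Nat.prime_two).1 hk)
  -- the invariant
  obtain ⟨⟨lam, hlam⟩, -⟩ := BKLoc2.stLam p hp
  obtain ⟨⟨z, hz⟩, -⟩ := BKGlob2.stCY p F (AlgebraicClosure F) F (AlgebraicClosure F)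
  have hzk : Sys p (fun n => j (z n)) :=
    { prim := fun n => (hz.prim n).map_of_injective j.injective
      pow := fun n => by rw [← map_pow, hz.pow] }
  obtain ⟨inv', hinv', -⟩ := BKGlob2.aLI p hp lam hlam l (fun n => j (z n)) hzk
  have hfin : Finite (GQ l ⧸ GNNPL.Vg j) := (GNNPL.Vg j).quotient_finite_of_isOpen hVo
  have hχ : Continuous (cycL p l) := cyclotomicCharacter.continuous p ℚ_[l] (PadicAlgCl l)
  let τ : GNNPL.Vg j →* GNNPL.Vg j :=
    { toFun := fun d => ⟨t * d * t⁻¹, hVn.conj_mem d d.2 t⟩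
      map_one' := Subtype.ext (by simp)
      map_mul' := fun d d' => Subtype.ext (by simp [mul_assoc]) }
  have hτ : ∀ d, (τ d : GQ l) = t * d * t⁻¹ := fun _ => rfl
  refine ⟨GNNPL.Vg j, r, inv'.comp (LCRV.corHom (GNNPL.Vg j) (cycL p l)), τ, s, h, hVo, hr,
    WLNKL.iff_map j r hs, ?_, ?_, fun d => hconj d (τ d) (hτ d), hh, ?_⟩
  · intro d
    obtain ⟨-, h5⟩ := BKGlob2.stCY p F (AlgebraicClosure F) ℚ_[l] (PadicAlgCl l)
    exact h5 j (r d) d (hs d)
  · exact h2 p l hp hlp (GNNPL.Vg j) hVo hN2 _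
      (GNNAR.inv_ker (GNNPL.Vg j) hp h4 All.crV hVo hN2 hinv'.inv_eq)
  · refine ⟨?_, ?_, ?_, ?_⟩
    · exact Continuous.subtype_mk
        ((continuous_const.mul continuous_subtype_val).mul continuous_const) _
    · intro d
      change cycL p l (t * d * t⁻¹) = cycL p l d
      rw [map_mul, map_mul, map_inv, mul_comm (cycL p l t), mul_inv_cancel_right]
    · intro d
      apply Subtype.ext
      change t * (t * d * t⁻¹) * t⁻¹ = (s : GQ l) * d * (s : GQ l)⁻¹
      rw [hst]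
      group
    · intro z₂ hz₂
      have hz₃ := WLNKL.z2_smul ((cycF p F h : ℤ_[p]ˣ) : ℤ_[p]) hz₂
      obtain ⟨ha, hb⟩ := h3 p l hp (GNNPL.Vg j) hVn hVo hN2 t τ hτ _ hz₃
      have h5 := LLOT.inv_b2 hχ hinv'.inv_eq hb
      have h6 : (fun g g' => actA (cycL p l) t (((cycF p F h : ℤ_[p]ˣ) : ℤ_[p]) • z₂ g g')) =
          - z₂ := by
        funext g g'
        rw [actA_apply, smul_smul, ← Units.val_mul, mul_comm, hchi, Units.val_neg, Units.val_one,
          neg_smul, one_smul]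
        rfl
      rw [h6] at h5
      change inv' (corM2 (GNNPL.Vg j) (actA (cycL p l)) (fun g g' =>
        ((cycF p F h : ℤ_[p]ˣ) : ℤ_[p]) • z₂ (τ g) (τ g'))) =
        - inv' (LCRV.corHom (GNNPL.Vg j) (cycL p l) z₂)
      rw [h5, ← map_neg, ← map_neg]
      rfl

end BKT
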