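import Pool.Agent.Lib.MP_7c08ba_nt.T1.StX
import Pool.Agent.Lib.MP_7c08ba_nt.T1.UMTL
import Pool.Agent.Lib.MP_7c08ba_nt.T1.UWQL
import Pool.Agent.Lib.MP_7c08ba_nt.T1.HLATM
import Pool.Agent.Lib.MP_7c08ba_nt.T1.GNNCR
import Pool.Agent.Lib.MP_7c08ba_nt.Met.HCJ

set_option autoImplicit false

/-!
The parity theorem, module LOP: the parities of the local terms do not depend on the lattices, for a
direct sum. The lemma `XLOP.core` is the statement for an arbitrary continuous representation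
without local invariants.
-/

noncomputable section

namespace BKT

open NumberField BKGen BKMet
open BKGlob2 (CC0)
open Matrix

namespace XLOP

section Forms

variable {L : Type} [Field L] {n : ℕ}

/-- a scalar multiple of an invertible matrix -/
def sg (a : Lˣ) (B : GL (Fin n) L) : GL (Fin n) L where
  val := (a : L) • (B : Matrix (Fin n) (Fin n) L)
  inv := ((a⁻¹ : Lˣ) : L) • ((B⁻¹ : GL (Fin n) L) : Matrix (Fin n) (Fin n) L)
  val_inv := by
    rw [Matrix.smul_mul, Matrix.mul_smul, smul_smul, Units.mul_inv, one_smul, ← Units.val_mul,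
      mul_inv_cancel, Units.val_one]
  inv_val := by
    rw [Matrix.smul_mul, Matrix.mul_smul, smul_smul, Units.inv_mul, one_smul, ← Units.val_mul,
      inv_mul_cancel, Units.val_one]

theorem sg_val (a : Lˣ) (B : GL (Fin n) L) :
    ((sg a B : GL (Fin n) L) : Matrix (Fin n) (Fin n) L) =
      (a : L) • (B : Matrix (Fin n) (Fin n) L) := rfl

/-- the relation of a form as an identity of matrices -/
theorem pol_mat (M M' B : Matrix (Fin n) (Fin n) L) (a : L)
    (h : ∀ x y : Fin n → L, (M *ᵥ x) ⬝ᵥ (B *ᵥ (M' *ᵥ y)) = a * (x ⬝ᵥ (B *ᵥ y))) :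
    Mᵀ * B * M' = a • B := by
  have h1 : ∀ x y : Fin n → L, x ⬝ᵥ ((Mᵀ * B * M') *ᵥ y) = x ⬝ᵥ ((a • B) *ᵥ y) := by
    intro x y
    rw [← mulVec_mulVec, ← mulVec_mulVec, dotProduct_mulVec x Mᵀ, vecMul_transpose, h,
      smul_mulVec, dotProduct_smul, smul_eq_mul]
  ext i j
  have h2 := h1 (Pi.single i 1) (Pi.single j 1)
  rw [single_one_dotProduct, single_one_dotProduct, mulVec_single_one, mulVec_single_one] at h2
  exact h2

end Forms

section Sum

variable {G : Type} [Group G] {L : Type} [NormedField L] {n n' : ℕ} (V : G →* GL (Fin n) L)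
  (V' : G →* GL (Fin n') L)

omit [Group G] in
theorem continuous_blk [TopologicalSpace G] {M : G → Matrix (Fin n) (Fin n) L}
    {M' : G → Matrix (Fin n') (Fin n') L} (hM : Continuous M) (hM' : Continuous M') :
    Continuous fun g => blk (M g) (M' g) := by
  unfold blk
  exact (Continuous.matrix_fromBlocks hM continuous_const continuous_const hM').matrix_submatrix
    _ _

theorem continuous_dsum [TopologicalSpace G] (hV : Continuous V) (hV' : Continuous V') :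
    Continuous (dsum V V') := by
  rw [Units.continuous_iff]
  constructor
  · exact continuous_blk (Units.continuous_val.comp hV) (Units.continuous_val.comp hV')
  · have h1 := Units.continuous_iff.1 hV
    have h2 := Units.continuous_iff.1 hV'
    exact continuous_blk h1.2 h2.2

theorem blk_smul (a : L) (M : Matrix (Fin n) (Fin n) L) (M' : Matrix (Fin n') (Fin n') L) :
    blk (a • M) (a • M') = a • blk M M' := by
  have h : Matrix.fromBlocks (a • M) 0 0 (a • M') = a • Matrix.fromBlocks M 0 0 M' := by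
    rw [Matrix.fromBlocks_smul, smul_zero, smul_zero]
  unfold blk
  rw [h]
  rfl

end Sum

section Lattices

variable (p : ℕ) [Fact p.Prime] {F : Type} [Field F] {L : Type} [NormedField L]
  [NormedAlgebra ℚ_[p] L] [FiniteDimensional ℚ_[p] L] {n : ℕ} {V : GF F →* GL (Fin n) L}
  {B : GL (Fin n) L} {T N : AddSubgroup (Fin n → L)}

include p

theorem smul_T (h : BKS.IsMet (BKS.vec V) (BKS.frm (B : Matrix (Fin n) (Fin n) L)) T N) (a : L)
    (ha : ‖a‖ ≤ 1) (x : Fin n → L) (hx : x ∈ T) : a • x ∈ T := by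
  rw [h.dual]
  intro z hz
  unfold BKS.frm
  rw [mulVec_smul, dotProduct_smul, smul_eq_mul, norm_mul]
  exact mul_le_one₀ ha (norm_nonneg _) ((h.dual x).1 hx z hz)

theorem smul_N (h : BKS.IsMet (BKS.vec V) (BKS.frm (B : Matrix (Fin n) (Fin n) L)) T N) (a : L)
    (ha : ‖a‖ ≤ 1) (x : Fin n → L) (hx : x ∈ N) : a • x ∈ N := by
  rw [h.lagr]
  refine ⟨smul_T p h a ha x ((h.lagr x).1 hx).1, fun z hz => ?_⟩
  unfold BKS.frm
  rw [mulVec_smul, dotProduct_smul, smul_eq_mul, norm_mul]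
  calc ‖a‖ * ‖z ⬝ᵥ ((B : Matrix (Fin n) (Fin n) L) *ᵥ x)‖
      ≤ 1 * ‖z ⬝ᵥ ((B : Matrix (Fin n) (Fin n) L) *ᵥ x)‖ :=
        mul_le_mul_of_nonneg_right ha (norm_nonneg _)
    _ < 1 := by
        rw [one_mul]
        exact ((h.lagr x).1 hx).2 z hz

/-- the uniformiser times `T` is contained in `N` -/
theorem pi_T (h : BKS.IsMet (BKS.vec V) (BKS.frm (B : Matrix (Fin n) (Fin n) L)) T N)
    (x : Fin n → L) (hx : x ∈ T) : ((pi0 p L : OO p L) : L) • x ∈ N := by
  rw [h.lagr]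
  refine ⟨smul_T p h _ (pi0_lt p L).le x hx, fun z hz => ?_⟩
  unfold BKS.frm
  rw [mulVec_smul, dotProduct_smul, smul_eq_mul, norm_mul]
  calc ‖((pi0 p L : OO p L) : L)‖ * ‖z ⬝ᵥ ((B : Matrix (Fin n) (Fin n) L) *ᵥ x)‖
      ≤ ‖((pi0 p L : OO p L) : L)‖ * 1 :=
        mul_le_mul_of_nonneg_left ((h.dual x).1 hx z ((h.lagr z).1 hz).1) (norm_nonneg _)
    _ < 1 := by
        rw [mul_one]
        exact pi0_lt p L

theorem ball_T (h : BKS.IsMet (BKS.vec V) (BKS.frm (B : Matrix (Fin n) (Fin n) L)) T N) :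
    ∃ ε : ℝ, 0 < ε ∧ ∀ x : Fin n → L, ‖x‖ ≤ ε → x ∈ T := by
  have hu := BKND.DG.ultra (p := p) L
  obtain ⟨C, hC⟩ := h.bdd
  obtain ⟨D, hD0, hD⟩ : ∃ D : ℝ, 0 ≤ D ∧ ∀ i j, ‖(B : Matrix (Fin n) (Fin n) L) i j‖ ≤ D := by
    refine ⟨∑ i, ∑ j, ‖(B : Matrix (Fin n) (Fin n) L) i j‖,
      Finset.sum_nonneg fun i _ => Finset.sum_nonneg fun j _ => norm_nonneg _, fun i j => ?_⟩
    refine (Finset.single_le_sum (f := fun j => ‖(B : Matrix (Fin n) (Fin n) L) i j‖)
      (fun j _ => norm_nonneg _) (Finset.mem_univ j)).trans ?_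
    exact Finset.single_le_sum
      (f := fun i => ∑ j, ‖(B : Matrix (Fin n) (Fin n) L) i j‖)
      (fun i _ => Finset.sum_nonneg fun j _ => norm_nonneg _) (Finset.mem_univ i)
  have hpos : 0 < |C| * D + 1 := by positivity
  refine ⟨(|C| * D + 1)⁻¹, inv_pos.2 hpos, fun y hy => ?_⟩
  rw [h.dual]
  intro x hx
  have h1 : ∀ i, ‖((B : Matrix (Fin n) (Fin n) L) *ᵥ y) i‖ ≤ D * (|C| * D + 1)⁻¹ := fun i =>
    HMTB.dot_le hu hD0 (inv_pos.2 hpos).le _ _ (hD i) fun j => (norm_le_pi_norm y j).trans hy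
  have h2 : ‖x ⬝ᵥ ((B : Matrix (Fin n) (Fin n) L) *ᵥ y)‖ ≤ |C| * (D * (|C| * D + 1)⁻¹) :=
    HMTB.dot_le hu (abs_nonneg C) (mul_nonneg hD0 (inv_pos.2 hpos).le) _ _
      (fun i => ((norm_le_pi_norm x i).trans (hC x hx)).trans (le_abs_self C)) h1
  refine h2.trans ?_
  rw [← mul_assoc, ← div_eq_mul_inv, div_le_one hpos]
  linarith

theorem ball_N (h : BKS.IsMet (BKS.vec V) (BKS.frm (B : Matrix (Fin n) (Fin n) L)) T N) :
    ∃ ε : ℝ, 0 < ε ∧ ∀ x : Fin n → L, ‖x‖ ≤ ε → x ∈ N := by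
  obtain ⟨ε, hε, hT⟩ := ball_T p h
  have hpi := pi0_pos p L
  refine ⟨ε * ‖((pi0 p L : OO p L) : L)‖, mul_pos hε hpi, fun x hx => ?_⟩
  have h1 := pi_T p h (((pi0 p L : OO p L) : L)⁻¹ • x) (hT _ (by
    rw [norm_smul, norm_inv, inv_mul_le_iff₀ hpi, mul_comm]
    exact hx))
  rw [smul_smul, mul_inv_cancel₀ (pi0_ne p L), one_smul] at h1
  exact h1

/-- the lattices are stable -/
theorem lt_T {D : Type} [Group D] (r : D →* GF F)
    (h : BKS.IsMet (BKS.vec V) (BKS.frm (B : Matrix (Fin n) (Fin n) L)) T N) :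
    Lt (V.comp r) T :=
  ⟨h.bdd, ball_T p h, smul_T p h, fun d x hx => h.stab (r d) x hx⟩

theorem lt_N {D : Type} [Group D] (r : D →* GF F)
    (h : BKS.IsMet (BKS.vec V) (BKS.frm (B : Matrix (Fin n) (Fin n) L)) T N) :
    Lt (V.comp r) N := by
  obtain ⟨C, hC⟩ := h.bdd
  exact ⟨⟨C, fun x hx => hC x ((h.lagr x).1 hx).1⟩, ball_N p h, smul_N p h,
    fun d x hx => h.stab' (r d) x hx⟩

theorem mem_dlt (β : Matrix (Fin n) (Fin n) L) (X : AddSubgroup (Fin n → L)) (z : Fin n → L) :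
    z ∈ dlt p β X ↔ ∀ x ∈ X, ‖x ⬝ᵥ (β *ᵥ z)‖ ≤ 1 := Iff.rfl

/-- stability under an element of the group and its inverse -/
theorem mem_iff {P : AddSubgroup (Fin n → L)}
    (hP : ∀ g, ∀ x ∈ P, BKS.vec V g x ∈ P) (g : GF F) (x : Fin n → L) :
    (V g : Matrix (Fin n) (Fin n) L) *ᵥ x ∈ P ↔ x ∈ P := by
  constructor
  · intro hx
    have h1 := hP g⁻¹ _ hx
    change (V g⁻¹ : Matrix (Fin n) (Fin n) L) *ᵥ ((V g : Matrix (Fin n) (Fin n) L) *ᵥ x) ∈ P at h1
    rw [mulVec_mulVec, ← Units.val_mul, ← map_mul, inv_mul_cancel, map_one, Units.val_one,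
      one_mulVec] at h1
    exact h1
  · exact hP g x

theorem dlt_T (h : BKS.IsMet (BKS.vec V) (BKS.frm (B : Matrix (Fin n) (Fin n) L)) T N)
    (g : GF F) : dlt p ((B * V g : GL (Fin n) L) : Matrix (Fin n) (Fin n) L) T = T := by
  ext z
  rw [mem_dlt p, ← mem_iff p h.stab g z, h.dual]
  constructor
  · intro hz x hx
    have := hz x hx
    rw [Units.val_mul, ← mulVec_mulVec] at this
    exact this
  · intro hz x hx
    rw [Units.val_mul, ← mulVec_mulVec]
    exact hz x hx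

theorem dlt_N (h : BKS.IsMet (BKS.vec V) (BKS.frm (B : Matrix (Fin n) (Fin n) L)) T N)
    (g : GF F) (a : Lˣ) (ha : (a : L) = ((pi0 p L : OO p L) : L)⁻¹) :
    dlt p ((sg a (B * V g) : GL (Fin n) L) : Matrix (Fin n) (Fin n) L) N = N := by
  have hpi := pi0_pos p L
  have key : ∀ x z : Fin n → L,
      ‖x ⬝ᵥ (((sg a (B * V g) : GL (Fin n) L) : Matrix (Fin n) (Fin n) L) *ᵥ z)‖ ≤ 1 ↔
        ‖BKS.frm (B : Matrix (Fin n) (Fin n) L) x
          ((V g : Matrix (Fin n) (Fin n) L) *ᵥ z)‖ < 1 := by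
    intro x z
    rw [sg_val, smul_mulVec, dotProduct_smul, smul_eq_mul, norm_mul, ha, norm_inv, Units.val_mul,
      ← mulVec_mulVec, inv_mul_le_iff₀ hpi, mul_one]
    constructor
    · intro h1
      exact h1.trans_lt (pi0_lt p L)
    · intro h1
      exact pi0_max p L _ h1
  ext z
  rw [mem_dlt p, ← mem_iff p h.stab' g z, h.lagr]
  constructor
  · intro hz
    have h1 : ∀ x ∈ N, ‖BKS.frm (B : Matrix (Fin n) (Fin n) L) x
        ((V g : Matrix (Fin n) (Fin n) L) *ᵥ z)‖ < 1 := fun x hx => (key x z).1 (hz x hx)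
    refine ⟨?_, h1⟩
    rw [h.dual]
    intro x hx
    have h2 := h1 _ (pi_T p h x hx)
    unfold BKS.frm at h2 ⊢
    rw [smul_dotProduct, smul_eq_mul] at h2
    have h3 := pi0_max p L _ h2
    rw [norm_mul] at h3
    exact (mul_le_iff_le_one_right hpi).1 h3
  · rintro ⟨-, hz⟩ x hx
    exact (key x z).2 (hz x hx)

end Lattices

/-- The parity of the local term does not depend on the lattices, for a continuous representation
without local invariants. -/
theorem core (h1 : StLinv) (h2 : StLnkl) (h3 : StLen) (h4 : StFxl) (p : ℕ) [Fact p.Prime]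
    (hp2 : p ≠ 2) (F : Type) [Field F] [NumberField F] (hF : Module.finrank ℚ F = 2)
    (hR : IsEmpty (F →+* ℝ)) (c : AlgebraicClosure F ≃+* AlgebraicClosure F) (hc : BKS.IsConj c)
    (L : Type) [NormedField L] [NormedAlgebra ℚ_[p] L] [FiniteDimensional ℚ_[p] L] (n : ℕ)
    (V : GF F →* GL (Fin n) L) (hV : Continuous V) (B : GL (Fin n) L)
    (hB : (B : Matrix (Fin n) (Fin n) L)ᵀ = B)
    (hpol : ∀ g g' : GF F, (∀ z, g' (c z) = c (g z)) →
      (V g : Matrix (Fin n) (Fin n) L)ᵀ * (B : Matrix (Fin n) (Fin n) L) *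
        (V g' : Matrix (Fin n) (Fin n) L) = BKS.chi p L g • (B : Matrix (Fin n) (Fin n) L))
    (T N T' N' : AddSubgroup (Fin n → L))
    (hM : BKS.IsMet (BKS.vec V) (BKS.frm (B : Matrix (Fin n) (Fin n) L)) T N)
    (hM' : BKS.IsMet (BKS.vec V) (BKS.frm (B : Matrix (Fin n) (Fin n) L)) T' N')
    (l : ℕ) [Fact l.Prime] (j : BKS.Emb l F) (hlp : l ≠ p) (hns : ¬ BKS.Split l F)
    (hinv : ∀ v : Fin n → L, (∀ (g : GF F) (t : GQ l), (∀ z, j (g z) = t (j z)) →
      (V g : Matrix (Fin n) (Fin n) L) *ᵥ v = v) → v = 0) :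
    BKS.loc L (BKS.vec V) j T N % 2 = BKS.loc L (BKS.vec V) j T' N' % 2 := by
  obtain ⟨⟨cc, hcc⟩, hcj⟩ := BKGlob2.stCJ F hF hR c hc
  obtain ⟨-, hinvol, -, hcyc, -⟩ := hcj cc hcc
  obtain ⟨hcyc, -⟩ := hcyc p hp2
  obtain ⟨D, r, inv, τ, s, h, hDo, hr, hiff, hχ, hLG, hτ, hs, hCL⟩ :=
    h2 p l hp2 hlp F hF hR hns c cc hcc j
  -- the topology of `D`
  have hna : NonarchimedeanGroup (GQ l) := LLOS.nonarch l
  have cD : CompactSpace D := isCompact_iff_compactSpace.1 (D.isClosed_of_isOpen hDo).isCompact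
  have nD : NonarchimedeanGroup D := BKOdd.nonarch_subgroup D
  have hχc : Continuous ((cycL p l).comp D.subtype) :=
    (GNNCR.cont_cyc p l).comp continuous_subtype_val
  have hVD : Continuous (V.comp r) := hV.comp hr
  have hNI : NoInv (V.comp r) := by
    intro v hv
    refine hinv v fun g t hgt => ?_
    obtain ⟨d, hd, -⟩ := (hiff g t).1 hgt
    rw [← hd]
    exact hv d
  -- the polarisation
  have hpol' : ∀ g : GF F, (V g : Matrix (Fin n) (Fin n) L)ᵀ * (B : Matrix (Fin n) (Fin n) L) *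
      (V (cc g) : Matrix (Fin n) (Fin n) L) =
        BKOdd.chL (cycF p F) L g • (B : Matrix (Fin n) (Fin n) L) := fun g =>
    hpol g (cc g) (hcc.eq g)
  have hdual : IsDual ((cycL p l).comp D.subtype) (V.comp r) ((V.comp r).comp τ)
      ((B * V h : GL (Fin n) L) : Matrix (Fin n) (Fin n) L) := by
    intro d
    have e1 : h * r (τ d) = cc (r d) * h := by
      rw [hτ d]
      group
    have e2 : BKOdd.chL ((cycL p l).comp D.subtype) L d = BKOdd.chL (cycF p F) L (r d) := by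
      have := hχ d
      change algebraMap ℚ_[p] L (((cycL p l (d : GQ l) : ℤ_[p]ˣ) : ℤ_[p]) : ℚ_[p]) =
        algebraMap ℚ_[p] L (((cycF p F (r d) : ℤ_[p]ˣ) : ℤ_[p]) : ℚ_[p])
      rw [this]
    rw [e2]
    change (V (r d) : Matrix (Fin n) (Fin n) L)ᵀ *
      ((B * V h : GL (Fin n) L) : Matrix (Fin n) (Fin n) L) *
        (V (r (τ d)) : Matrix (Fin n) (Fin n) L) = _
    rw [Units.val_mul, Matrix.mul_assoc, Matrix.mul_assoc, ← Units.val_mul, ← map_mul, e1,
      map_mul, Units.val_mul, ← Matrix.mul_assoc, ← Matrix.mul_assoc, hpol' (r d),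
      Matrix.smul_mul]
  have hsymm : ((B * V h : GL (Fin n) L) : Matrix (Fin n) (Fin n) L) =
      uL L (cycF p F h) • (((V.comp r) s : Matrix (Fin n) (Fin n) L)ᵀ *
        ((B * V h : GL (Fin n) L) : Matrix (Fin n) (Fin n) L)ᵀ) := by
    have e1 : h * r s = (cc h)⁻¹ := by
      have : r s = (cc h * h)⁻¹ := by
        rw [hs, inv_inv]
      rw [this, _root_.mul_inv_rev, mul_inv_cancel_left]
    have e2 : ((V.comp r) s : Matrix (Fin n) (Fin n) L)ᵀ *
        ((B * V h : GL (Fin n) L) : Matrix (Fin n) (Fin n) L)ᵀ =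
        (V (cc h)⁻¹ : Matrix (Fin n) (Fin n) L)ᵀ * (B : Matrix (Fin n) (Fin n) L) := by
      change (V (r s) : Matrix (Fin n) (Fin n) L)ᵀ *
        ((B * V h : GL (Fin n) L) : Matrix (Fin n) (Fin n) L)ᵀ = _
      rw [Units.val_mul, Matrix.transpose_mul, hB, ← Matrix.mul_assoc, ← Matrix.transpose_mul,
        ← Units.val_mul, ← map_mul, e1]
    have e3 : (V (cc h)⁻¹ : Matrix (Fin n) (Fin n) L)ᵀ * (B : Matrix (Fin n) (Fin n) L) =
        BKOdd.chL (cycF p F) L (cc h)⁻¹ •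
          ((B : Matrix (Fin n) (Fin n) L) * (V h : Matrix (Fin n) (Fin n) L)) := by
      have h5 := hpol' (cc h)⁻¹
      have h6 : cc (cc h)⁻¹ = h⁻¹ := by rw [map_inv, hinvol]
      rw [h6] at h5
      rw [← Matrix.smul_mul, ← h5, Matrix.mul_assoc, ← Units.val_mul, ← map_mul, inv_mul_cancel,
        map_one, Units.val_one, Matrix.mul_one]
    have e4 : uL L (cycF p F h) * BKOdd.chL (cycF p F) L (cc h)⁻¹ = 1 := by
      have e5 : uL L (cycF p F h) = BKOdd.chL (cycF p F) L (cc h) := by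
        change algebraMap ℚ_[p] L (((cycF p F h : ℤ_[p]ˣ) : ℤ_[p]) : ℚ_[p]) =
          algebraMap ℚ_[p] L (((cycF p F (cc h) : ℤ_[p]ˣ) : ℤ_[p]) : ℚ_[p])
        rw [hcyc]
      rw [e5, ← map_mul, mul_inv_cancel, map_one]
    rw [e2, e3, smul_smul, e4, one_smul, Units.val_mul]
  have hF1 : FrmL ((cycL p l).comp D.subtype) τ s (cycF p F h) (V.comp r) (B * V h) :=
    ⟨hdual, hsymm⟩
  obtain ⟨a, ha⟩ : ∃ a : Lˣ, (a : L) = ((pi0 p L : OO p L) : L)⁻¹ :=
    ⟨Units.mk0 _ (inv_ne_zero (pi0_ne p L)), rfl⟩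
  have hF2 : FrmL ((cycL p l).comp D.subtype) τ s (cycF p F h) (V.comp r) (sg a (B * V h)) := by
    refine ⟨fun d => ?_, ?_⟩
    · rw [sg_val, Matrix.mul_smul, Matrix.smul_mul, hdual d, smul_comm]
    · rw [sg_val, Matrix.transpose_smul, Matrix.mul_smul, smul_comm, ← hsymm]
  -- the two invariants
  have k1 := h1 p hp2 L D ((cycL p l).comp D.subtype) hχc inv hLG τ s (cycF p F h) hCL n
    (V.comp r) (B * V h) hVD hNI hF1 T T' (lt_T p r hM) (lt_T p r hM') (dlt_T p hM h) (dlt_T p hM' h)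
  have k2 := h1 p hp2 L D ((cycL p l).comp D.subtype) hχc inv hLG τ s (cycF p F h) hCL n
    (V.comp r) (sg a (B * V h)) hVD hNI hF2 N N' (lt_N p r hM) (lt_N p r hM') (dlt_N p hM h a ha)
    (dlt_N p hM' h a ha)
  -- the local terms
  have hfix : ∀ P : AddSubgroup (Fin n → L), fixJ V j P = fixL (V.comp r) P := by
    intro P
    ext v
    constructor
    · intro hv d
      exact hv (r d) (d : GQ l) ((hiff _ _).2 ⟨d, rfl, rfl⟩)
    · intro hv g t hgt
      obtain ⟨d, hd, -⟩ := (hiff g t).1 hgt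
      rw [← hd]
      exact hv d
  have hloc : ∀ T N : AddSubgroup (Fin n → L),
      BKS.IsMet (BKS.vec V) (BKS.frm (B : Matrix (Fin n) (Fin n) L)) T N →
      BKS.loc L (BKS.vec V) j T N = lnD p (V.comp r) T + lnD p (V.comp r) N := by
    intro T N hTN
    obtain ⟨S, ρ, B₀, N₁, -, hT, hN, hl⟩ := stMtl stLatM h3 h4 p F L n V B hB T N hTN
    rw [hl l j hinv, hT, hN]
    unfold lnJ lnD
    rw [hfix, hfix]
  rw [hloc T N hM, hloc T' N' hM']
  omega

end XLOP

open HWEQ UWQL XLOP in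
/-- Module LOP. -/
theorem stLop (h1 : StLinv) (h2 : StLnkl) (h3 : StLen) (h4 : StFxl) : StLop := by
  intro p _ hp2 F _ _ hF hR c hc L _ _ _ n n' V V' B B' hV hV' hB hB' T N T' N' hM hM' l _ j hlp hns
  obtain ⟨b1, b2, b3⟩ := hB
  obtain ⟨b1', b2', b3'⟩ := hB'
  obtain ⟨B1, hB1⟩ : ∃ B1 : GL (Fin n) L, (B1 : Matrix (Fin n) (Fin n) L) = B :=
    (Matrix.isUnit_iff_isUnit_det B).2 b2
  obtain ⟨B1', hB1'⟩ : ∃ B1' : GL (Fin n') L, (B1' : Matrix (Fin n') (Fin n') L) = B' :=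
    (Matrix.isUnit_iff_isUnit_det B').2 b2'
  rw [← hB1] at b1 b3 hM hM'
  rw [← hB1'] at b1' b3' hM hM'
  have hval : ((blkG B1 (-B1') : GL (Fin (n + n')) L) : Matrix (Fin (n + n')) (Fin (n + n')) L) =
      blk (B1 : Matrix (Fin n) (Fin n) L) (-(B1' : Matrix (Fin n') (Fin n') L)) := rfl
  rw [← loc_pre, ← loc_pre]
  refine core h1 h2 h3 h4 p hp2 F hF hR c hc L (n + n') (dsum V V') ?_ (blkG B1 (-B1')) ?_ ?_ _ _ _ _
    (isMet_pre V V' B1 B1' T N hM) (isMet_pre V V' B1 B1' T' N' hM') l j hlp hns ?_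
  · exact continuous_dsum V V' hV.cont hV'.cont
  · rw [hval, blk_transpose, b1, Matrix.transpose_neg, b1']
  · intro g g' hg
    have e1 := pol_mat (V g : Matrix (Fin n) (Fin n) L) (V g' : Matrix (Fin n) (Fin n) L)
      (B1 : Matrix (Fin n) (Fin n) L) (BKS.chi p L g) (b3 g g' hg)
    have e2 := pol_mat (V' g : Matrix (Fin n') (Fin n') L) (V' g' : Matrix (Fin n') (Fin n') L)
      (B1' : Matrix (Fin n') (Fin n') L) (BKS.chi p L g) (b3' g g' hg)
    rw [hval]
    change (blk (V g : Matrix (Fin n) (Fin n) L) (V' g : Matrix (Fin n') (Fin n') L))ᵀ *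
      blk (B1 : Matrix (Fin n) (Fin n) L) (-(B1' : Matrix (Fin n') (Fin n') L)) *
        blk (V g' : Matrix (Fin n) (Fin n) L) (V' g' : Matrix (Fin n') (Fin n') L) = _
    rw [blk_transpose, blk_mul, blk_mul, e1, Matrix.mul_neg, Matrix.neg_mul, e2, ← smul_neg,
      blk_smul]
  · intro v hv
    have hv' : ∀ (g : GF F) (t : GQ l), (∀ z, j (g z) = t (j z)) →
        BKS.vec2 V V' g (p1 v, p2 v) = (p1 v, p2 v) := by
      intro g t hgt
      have := congrArg (eqv L n n') (hv g t hgt)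
      have e1 := vec_dsum V V' g v
      rw [eqv_apply v] at e1 this
      rw [← e1]
      exact this
    have e1 : p1 v = 0 := hV.inv l hlp j (p1 v) fun g t hgt => congrArg Prod.fst (hv' g t hgt)
    have e2 : p2 v = 0 := hV'.inv l hlp j (p2 v) fun g t hgt => congrArg Prod.snd (hv' g t hgt)
    have e3 : eqv L n n' v = 0 := by
      rw [eqv_apply, e1, e2]
      rfl
    exact (LinearEquiv.map_eq_zero_iff _).mp e3

end BKT
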