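import Pool.Agent.Lib.MP_7c08ba_nt.T1.StW
import Pool.Agent.Lib.MP_7c08ba_nt.T1.XLOP
import Pool.Agent.Lib.MP_7c08ba_nt.T1.UPUF

set_option autoImplicit false

/-!
Parity for congruent representations, module LOI: the parity of the local term does not depend on
the lattices. This is the lemma `XLOP.core` for a representation in the class.
-/

noncomputable section

namespace BKT

open NumberField BKGen BKMet
open Matrix

/-- Module LOI: the parity of the local term does not depend on the lattices. -/
theorem stLoi (h1 : StLinv) (h2 : StLnkl) (h3 : StLen) (h4 : StFxl) : StLoi := by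
  intro p _ hp2 F _ _ hF hR c hc L _ _ _ n V B hV hB T N T' N' hM hM' l _ j hlp hns
  exact XLOP.core h1 h2 h3 h4 p hp2 F hF hR c hc L n V hV.cont (UPUF.glB hB) hB.1
    (fun g g' hg => hB.matrix hg) T N T' N' hM hM' l j hlp hns (hV.inv l hlp j)

end BKT
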