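import Pool.Agent.Lib.MP_7c08ba_nt.T1.StW
import Pool.Agent.Lib.MP_7c08ba_nt.T1.YFRG
import Pool.Agent.Lib.MP_7c08ba_nt.T1.YQUOP

set_option autoImplicit false

/-!
Parity for congruent representations, module PRPL: the annihilator of the image of `H¹(P)`.
-/

noncomputable section

namespace BKT

open BKPar (Loc1 Loc2)
open BKND (Sm)
open BKMet

open YFRG in
/-- Module PRPL. -/
theorem stPrpl : StPrpl := by
  intro p _ D _ _ _ _ χ inv δ _ hL R _ M M' _ _ _ _ _ X P hP x hx hxy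
  obtain ⟨K, K', iK, iK', Y, φ, φ', hfin, hq, -, -⟩ := stQuoP p D (actA χ) M M' (toInt X)
    (P.restrictScalars ℤ) ⊤ hP (fun _ _ _ => Submodule.mem_top) le_top
  have hφ0 : ∀ m m', φ (m + m') = φ m + φ m' := fun m m' =>
    hq.add m Submodule.mem_top m' Submodule.mem_top
  have hsub : ∀ m m', φ (m - m') = φ m - φ m' := fun m m' => by
    rw [eq_sub_iff_add_eq, ← hφ0, sub_add_cancel]
  obtain ⟨⟨W, hW, hxW⟩, hx2⟩ := hx
  have h1 : (fun d => φ (x d)) ∈ BKND.Z1 Y.ρ := by
    refine ⟨⟨W, hW, fun g w hw => ?_⟩, fun g h => ?_⟩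
    · change φ (x (g * w)) = φ (x g)
      rw [hxW g w hw]
    · change φ (x (g * h)) = φ (x g) + Y.ρ g (φ (x h))
      rw [hx2, hφ0, ← hq.act g _ Submodule.mem_top]
      rfl
  -- the annihilator of everything is zero
  have hz : ∀ m' : M', m' ∈ (toInt X).perp (⊤ : Submodule ℤ M) → m' = 0 := fun m' hm' =>
    right X m' fun v => hm' v Submodule.mem_top
  have h2 : ∀ f' ∈ BKND.Z1 Y.ρ', inv (cup11 Y.b Y.ρ' (fun d => φ (x d)) f') = 0 := by
    intro f' hf'
    have hc : ∀ d, ∃ m' : M', m' ∈ (toInt X).perp (P.restrictScalars ℤ) ∧ φ' m' = f' d :=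
      fun d => hq.surj' (f' d)
    choose y hy hyf using hc
    have hinj : ∀ u v : M', u ∈ (toInt X).perp (P.restrictScalars ℤ) →
        v ∈ (toInt X).perp (P.restrictScalars ℤ) → φ' u = φ' v → u = v := by
      intro u v hu hv huv
      have e : φ' (u - v) + φ' v = φ' u := by
        rw [← hq.add' _ (Submodule.sub_mem _ hu hv) _ hv, sub_add_cancel]
      have e0 : φ' (u - v) = 0 := by
        rw [huv] at e
        exact left_eq_add.1 (e.symm.trans (add_comm _ _))
      exact sub_eq_zero.1 (hz _ ((hq.ker' _ (Submodule.sub_mem _ hu hv)).1 e0))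
    have hst : ∀ g, ∀ m' ∈ (toInt X).perp (P.restrictScalars ℤ),
        X.ρ' g m' ∈ (toInt X).perp (P.restrictScalars ℤ) := by
      intro g m' hm' n hn
      have e : X.ρ g (X.ρ g⁻¹ n) = n := by
        have e1 : (X.ρ g * X.ρ g⁻¹) n = n := by
          rw [← map_mul, mul_inv_cancel, map_one]
          rfl
        exact e1
      change X.b n (X.ρ' g m') = 0
      rw [← e, X.eqv, show X.b (X.ρ g⁻¹ n) m' = 0 from hm' _ (hP g⁻¹ n hn), map_zero]
    obtain ⟨⟨W', hW', hfW⟩, hf2⟩ := hf'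
    have hyZ : y ∈ BKND.Z1 X.ρ' := by
      refine ⟨⟨W', hW', fun g w hw => ?_⟩, fun g h => ?_⟩
      · refine hinj _ _ (hy _) (hy _) ?_
        rw [hyf, hyf, hfW g w hw]
      · refine hinj _ _ (hy _) (Submodule.add_mem _ (hy _) (hst _ _ (hy _))) ?_
        rw [hyf, hf2, hq.add' _ (hy _) _ (hst _ _ (hy _)), hyf]
        have e := hq.act' g _ (hy h)
        rw [hyf] at e
        rw [← e]
        rfl
    have e : cup11 Y.b Y.ρ' (fun d => φ (x d)) f' = cup11 X.b X.ρ' x y := by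
      funext g h
      change Y.b (φ (x g)) (Y.ρ' g (f' h)) = X.b (x g) (X.ρ' g (y h))
      rw [← hyf h, ← hq.act' g _ (hy h)]
      exact (hq.pair _ Submodule.mem_top _ (hst g _ (hy h))).symm
    rw [e]
    exact hxy y hyZ fun d => hy d
  obtain ⟨a, ha⟩ := hL.one K K' Y _ h1 h2
  obtain ⟨m, -, rfl⟩ := hq.surj a
  refine ⟨m, fun d => ?_⟩
  have e : φ (x d - d0 X.ρ m d) = 0 := by
    have e1 : φ (x d) = Y.ρ d (φ m) - φ m := ha d
    have e2 : φ (X.ρ d m) = Y.ρ d (φ m) := hq.act d m Submodule.mem_top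
    rw [d0, hsub, hsub, e1, e2, sub_self]
  exact (hq.ker _ Submodule.mem_top).1 e

end BKT
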