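import Pool.Agent.Lib.MP_7c08ba_nt.T1.StW

set_option autoImplicit false

/-!
Parity for congruent representations, invariance of the local terms: module PWF, the theorem.
-/

noncomputable section

namespace BKT

open NumberField BKGen BKMet
open Matrix

namespace WPWF

/-- homomorphisms of finite extensions of `ℚ_p` preserve the norm -/
theorem norm_map (p : ℕ) [Fact p.Prime] {A A' : Type} [NormedField A] [NormedAlgebra ℚ_[p] A]
    [FiniteDimensional ℚ_[p] A] [NormedField A'] [NormedAlgebra ℚ_[p] A']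
    [FiniteDimensional ℚ_[p] A'] (φ : A →ₐ[ℚ_[p]] A') (x : A) : ‖φ x‖ = ‖x‖ := by
  have u1 : IsUltrametricDist A := BKND.DG.ultra (p := p) A
  have u2 : IsUltrametricDist A' := BKND.DG.ultra (p := p) A'
  rw [NormedAlgebra.norm_eq_spectralNorm ℚ_[p] x, NormedAlgebra.norm_eq_spectralNorm ℚ_[p] (φ x),
    spectralNorm, spectralNorm, minpoly.algHom_eq φ φ.injective x]

theorem congr_ext (p : ℕ) [Fact p.Prime] {F : Type} [Field F] {L L₀ : Type} [NormedField L]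
    [NormedAlgebra ℚ_[p] L] [FiniteDimensional ℚ_[p] L] [NormedField L₀] [NormedAlgebra ℚ_[p] L₀]
    [FiniteDimensional ℚ_[p] L₀] (φ : L →ₐ[ℚ_[p]] L₀) {n n' : ℕ} {V : BKS.Rep (BKS.GF F) L n}
    {V' : BKS.Rep (BKS.GF F) L n'} (h : BKS.Congr V V') :
    BKS.Congr (BKS.ext (φ : L →+* L₀) V) (BKS.ext (φ : L →+* L₀) V') := by
  intro g i
  have e : ∀ {m : ℕ} (W : BKS.Rep (BKS.GF F) L m),
      (BKS.mat (BKS.ext (φ : L →+* L₀) W) g).charpoly.coeff i =
        φ ((BKS.mat W g).charpoly.coeff i) := by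
    intro m W
    have e1 : BKS.mat (BKS.ext (φ : L →+* L₀) W) g = (BKS.mat W g).map (φ : L →+* L₀) := rfl
    rw [e1, Matrix.charpoly_map, Polynomial.coeff_map]
    rfl
  rw [e V, e V', ← map_sub, norm_map p φ]
  exact h g i

theorem emb_nonempty (l : ℕ) [Fact l.Prime] (F : Type) [Field F] [NumberField F] :
    Nonempty (BKS.Emb l F) := by
  have h1 : Algebra.IsAlgebraic ℚ (AlgebraicClosure F) := Algebra.IsAlgebraic.trans ℚ F _
  exact ⟨(IsAlgClosed.lift (S := AlgebraicClosure F) (M := PadicAlgCl l) (R := ℚ)).toRingHom⟩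

end WPWF

open WPWF in
/-- Module PWF. -/
theorem stPwf (h1 : StPvf) (h2 : StLoi) (h3 : StIse) (_h4 : StCng) (_h5 : StLtx) (h6 : StBch)
    (h7 : StBct) (h8 : StBcc) : StPwf := by
  intro p _ F _ _ hp hF hIm hs c hc L _ _ _ n V B hV hB
  have hPV := h1 p F hp hF hIm hs c hc
  refine ⟨(hPV L n V B hV hB).1, (hPV L n V B hV hB).2.1, ?_, fun n' V' B' hV' hB' =>
    ⟨((hPV L n V B hV hB).2.2 n' V' B' hV' hB').1,
      ((hPV L n V B hV hB).2.2 n' V' B' hV' hB').2.1, fun hcg hloc => ?_⟩⟩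
  · intro T N T' N' hM hM' l _ j hl hsp
    exact h2 p hp F hF hIm c hc L n V B hV hB T N T' N' hM hM' l j hl hsp
  · obtain ⟨P, hP⟩ := hV.ram
    obtain ⟨P', hP'⟩ := hV'.ram
    classical
    let bad : ℕ → Prop := fun m => ∃ h : Fact m.Prime, m ≠ p ∧ ¬ BKS.Split m F ∧
      ¬ (BKS.PrimeTo p m V ∧ BKS.PrimeTo p m V')
    let κ : Type := {m : ℕ // m ∈ (P ∪ P').filter bad}
    let l : κ → ℕ := fun k => k.1
    have hbad : ∀ k : κ, bad (l k) := fun k => (Finset.mem_filter.1 k.2).2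
    have hfact : ∀ k, Fact (l k).Prime := fun k => (hbad k).1
    have hbad' : ∀ k : κ, l k ≠ p ∧ ¬ BKS.Split (l k) F ∧
        ¬ (BKS.PrimeTo p (l k) V ∧ BKS.PrimeTo p (l k) V') := fun k => (hbad k).2
    have hj : ∀ k, Nonempty (BKS.Emb (l k) F) := fun k => emb_nonempty (l k) F
    let j : ∀ k, BKS.Emb (l k) F := fun k => (hj k).some
    have hiso : ∀ k, BKS.LocIso (l k) V V' := fun k =>
      (hloc (l k) (hbad' k).1 (hbad' k).2.1).resolve_left (hbad' k).2.2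
    have hcov : ∀ (m : ℕ) [Fact m.Prime], m ≠ p → ¬ BKS.Split m F →
        (BKS.PrimeTo p m V ∧ BKS.PrimeTo p m V') ∨ ∃ k : κ, l k = m := by
      intro m hm hmp hms
      by_cases hb : BKS.PrimeTo p m V ∧ BKS.PrimeTo p m V'
      · exact Or.inl hb
      · right
        have hmem : m ∈ P ∪ P' := by
          by_contra hcon
          rw [Finset.mem_union, not_or] at hcon
          exact hb ⟨hP m hmp hcon.1, hP' m hmp hcon.2⟩
        exact ⟨⟨m, Finset.mem_filter.2 ⟨hmem, ⟨hm, hmp, hms, hb⟩⟩⟩, rfl⟩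
    have hinj : Function.Injective l := Subtype.val_injective
    have hC : BKS.Covers p V l := ⟨hinj, fun k => (hbad' k).2.1, fun m hm hmp hms =>
      (hcov m hmp hms).imp_left fun h => h.1⟩
    have hC' : BKS.Covers p V' l := ⟨hinj, fun k => (hbad' k).2.1, fun m hm hmp hms =>
      (hcov m hmp hms).imp_left fun h => h.2⟩
    obtain ⟨L₀, i1, i2, i3, φ₀, hise⟩ := h3 p hp F hF hIm c hc L n n' V V' B B' hV hV' hB hB' κ l j
      (fun k => (hbad' k).1) (fun k => (hbad' k).2.1) hiso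
    obtain ⟨a1, a2, a3⟩ := h8 p F L L₀ φ₀ n V hV
    obtain ⟨b1, b2, b3⟩ := h8 p F L L₀ φ₀ n' V' hV'
    obtain ⟨c3, c4, -⟩ := (hPV L₀ n (BKS.ext (φ₀ : L →+* L₀) V) (B.map φ₀) a1 (a2 c B hB)).2.2 n'
      (BKS.ext (φ₀ : L →+* L₀) V') (B'.map φ₀) b1 (b2 c B' hB')
    obtain ⟨L₂, i4, i5, i6, φ, T, N, hM⟩ := c3 (congr_ext p φ₀ hcg)
    obtain ⟨f1, f2, f3⟩ := c4 L₂ φ T N hM κ l j (a3 κ l hC) (b3 κ l hC')
    obtain ⟨g1, g2⟩ := h6 p F L L₀ φ₀ n V f1
    obtain ⟨g1', g2'⟩ := h6 p F L L₀ φ₀ n' V' f2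
    refine ⟨g1, g1', fun v => ?_⟩
    have e1 := f3 v
    rw [← g2, ← g2', (h7 p F L L₀ φ₀ n V v).2.2, (h7 p F L L₀ φ₀ n' V' v).2.2] at e1
    have e2 : (∑ k, BKS.loc L₂ (BKS.vec2 (BKS.ext (φ : L₀ →+* L₂) (BKS.ext (φ₀ : L →+* L₀) V))
        (BKS.ext (φ : L₀ →+* L₂) (BKS.ext (φ₀ : L →+* L₀) V'))) (j k) T N) % 2 = 0 := by
      rw [Finset.sum_nat_mod, Finset.sum_eq_zero fun k _ => hise L₂ φ T N hM k, Nat.zero_mod]
    omega

end BKT
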