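import Pool.Agent.Lib.MP_7c08ba_nt.T1.StW

set_option autoImplicit false

/-!
Module SQE: square roots of invertible matrices, as polynomials in these matrices, over finite
extensions.
-/

noncomputable section

namespace BKT

open BKMet

namespace WSQE

open Polynomial

/-- If `0` is not a root of the monic polynomial `f` over an algebraically closed field, then `X`
is a square modulo `f`. -/
theorem sq_mod {K : Type} [Field K] [IsAlgClosed K] (h2 : (2 : K) ≠ 0) (f : K[X]) (hf : f.Monic)
    (h0 : f.coeff 0 ≠ 0) : ∃ h : K[X], f ∣ h ^ 2 - X := by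
  classical
  choose c hc using fun x : K => IsAlgClosed.exists_pow_nat_eq x (n := 2) (by norm_num)
  set s : Finset K := f.roots.toFinset with hs
  set g : K[X] := Lagrange.interpolate s id c with hg
  have hgr : ∀ x ∈ s, eval x g = c x := fun x hx =>
    Lagrange.eval_interpolate_at_node (v := id) c Function.injective_id.injOn hx
  -- the element `g` is a square root modulo a nilpotent ideal
  have hdvd : f ∣ (g ^ 2 - X) ^ (Multiset.card f.roots) := by
    have h1 : f = (Multiset.map (fun x => X - C x) f.roots).prod :=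
      (IsAlgClosed.splits f).eq_prod_roots_of_monic hf
    have h3 : (Multiset.map (fun _ : K => g ^ 2 - X) f.roots).prod =
        (g ^ 2 - X) ^ (Multiset.card f.roots) := by
      rw [Multiset.map_const', Multiset.prod_replicate]
    rw [← h3]
    conv_lhs => rw [h1]
    refine Multiset.prod_dvd_prod_of_dvd _ _ ?_
    intro a ha
    rw [dvd_iff_isRoot]
    have ha' : a ∈ s := Multiset.mem_toFinset.2 ha
    change eval a (g ^ 2 - X) = 0
    rw [eval_sub, eval_pow, eval_X, hgr a ha', hc, sub_self]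
  let S := AdjoinRoot f
  let q : K[X] →+* S := AdjoinRoot.mk f
  have hnil : IsNilpotent (q g ^ 2 - q X) := by
    refine ⟨Multiset.card f.roots, ?_⟩
    rw [← map_pow, ← map_sub, ← map_pow]
    exact AdjoinRoot.mk_eq_zero.2 hdvd
  -- `X` is a unit
  have hX : IsUnit (q X) := by
    have h1 : q f = 0 := AdjoinRoot.mk_eq_zero.2 (dvd_refl f)
    have h3 : q f.divX * q X + q (C (f.coeff 0)) = 0 := by
      rw [← map_mul, ← map_add, divX_mul_X_add]
      exact h1
    have h4 : q X * (q f.divX * q (C (-(f.coeff 0)⁻¹))) = 1 := by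
      have h5 : q X * q f.divX = - q (C (f.coeff 0)) := by
        rw [mul_comm, eq_neg_iff_add_eq_zero]
        exact h3
      rw [← mul_assoc, h5, ← map_neg, ← map_mul, ← C_neg, ← C_mul, neg_mul_neg,
        mul_inv_cancel₀ h0, C_1, map_one]
    exact IsUnit.of_mul_eq_one _ h4
  have hg2 : IsUnit (q g) := by
    have h1 : IsUnit (q g ^ 2) := by
      have h3 := hnil.isUnit_add_left_of_commute hX (Commute.all _ _)
      rwa [add_sub_cancel] at h3
    exact (isUnit_pow_iff (by norm_num)).1 h1
  have h2u : IsUnit (2 : S) := by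
    have h1 : IsUnit (2 : K) := IsUnit.mk0 _ h2
    have h3 := h1.map (algebraMap K S)
    rwa [map_ofNat] at h3
  -- Newton
  obtain ⟨r, ⟨-, hr⟩, -⟩ := existsUnique_nilpotent_sub_and_aeval_eq_zero (R := S) (S := S)
    (P := X ^ 2 - C (q X)) (x := q g) (by
      simpa using hnil) (by
      have h1 : aeval (q g) (derivative (X ^ 2 - C (q X) : S[X])) = 2 * q g := by
        simp
        norm_num
      rw [h1]
      exact h2u.mul hg2)
  obtain ⟨h, hh⟩ := AdjoinRoot.mk_surjective r
  refine ⟨h, ?_⟩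
  rw [← AdjoinRoot.mk_eq_zero, map_sub, map_pow, hh]
  have h1 : r ^ 2 - q X = 0 := by simpa using hr
  exact h1

/-- Invertible matrices over an algebraically closed field have square roots which are polynomials
in the matrix. -/
theorem sq_mat {K : Type} [Field K] [IsAlgClosed K] (h2 : (2 : K) ≠ 0) (n : ℕ)
    (M : Matrix (Fin n) (Fin n) K) (hM : M.det ≠ 0) : ∃ h : K[X], (aeval M h) ^ 2 = M := by
  have h0 : M.charpoly.coeff 0 ≠ 0 := by
    intro h
    apply hM
    rw [Matrix.det_eq_sign_charpoly_coeff, h, mul_zero]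
  obtain ⟨h, q, hq⟩ := sq_mod h2 M.charpoly M.charpoly_monic h0
  refine ⟨h, ?_⟩
  have h1 := congrArg (aeval M) hq
  rw [map_mul, Matrix.aeval_self_charpoly, zero_mul, map_sub, map_pow, aeval_X] at h1
  exact sub_eq_zero.1 h1

/-- Polynomials in matrices and homomorphisms of fields. -/
theorem aeval_map_mat {A B : Type} [Field A] [Field B] (φ : A →+* B) (n : ℕ)
    (M : Matrix (Fin n) (Fin n) A) (f : A[X]) :
    (aeval M f).map φ = aeval (M.map φ) (f.map φ) := by
  have h1 : (aeval M f).map φ = (φ.mapMatrix : Matrix (Fin n) (Fin n) A →+* _) (aeval M f) := rfl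
  rw [h1, aeval_def, hom_eval₂, aeval_def, eval₂_map]
  congr 1
  ext a i j
  simp [Matrix.algebraMap_matrix_apply, apply_ite φ]

end WSQE

open WSQE in
/-- **Module SQE.** -/
theorem stSqe : StSqe := by
  intro p _ L _ _ _ κ _ n α
  set C := PadicAlgCl p with hC
  let φ₀ : L →ₐ[ℚ_[p]] C := IsAlgClosed.lift
  have h2 : (2 : C) ≠ 0 := by
    have : CharZero C := algebraRat.charZero C
    exact two_ne_zero
  have hdet : ∀ k, ((α k : Matrix (Fin n) (Fin n) L).map φ₀).det ≠ 0 := by
    intro k
    have e : ((α k : Matrix (Fin n) (Fin n) L).map φ₀).det =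
        φ₀ (α k : Matrix (Fin n) (Fin n) L).det :=
      (RingHom.map_det (φ₀ : L →+* C) (α k : Matrix (Fin n) (Fin n) L)).symm
    rw [e]
    have h3 : (α k : Matrix (Fin n) (Fin n) L).det ≠ 0 :=
      ((Matrix.isUnit_iff_isUnit_det _).1 (α k).isUnit).ne_zero
    exact (map_ne_zero_iff _ φ₀.injective).2 h3
  choose h hh using fun k => sq_mat h2 n _ (hdet k)
  let S : Set C := ⋃ k, ((h k).coeffs : Set C)
  have hS : S.Finite := Set.finite_iUnion fun k => Finset.finite_toSet _
  let L₂ : IntermediateField ℚ_[p] C := φ₀.fieldRange ⊔ IntermediateField.adjoin ℚ_[p] S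
  have h1 : FiniteDimensional ℚ_[p] φ₀.fieldRange :=
    LinearEquiv.finiteDimensional (AlgEquiv.ofInjectiveField φ₀).toLinearEquiv
  have h2 : FiniteDimensional ℚ_[p] (IntermediateField.adjoin ℚ_[p] S) := by
    have := hS.to_subtype
    exact IntermediateField.finiteDimensional_adjoin fun x _ => Algebra.IsIntegral.isIntegral x
  have h3 : FiniteDimensional ℚ_[p] L₂ := IntermediateField.finiteDimensional_sup _ _
  have hφ : ∀ x, φ₀ x ∈ L₂ := fun x =>
    (le_sup_left : φ₀.fieldRange ≤ L₂) ⟨x, rfl⟩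
  have hSm : ∀ x ∈ S, x ∈ L₂ := fun x hx =>
    (le_sup_right : IntermediateField.adjoin ℚ_[p] S ≤ L₂)
      (IntermediateField.subset_adjoin _ _ hx)
  let φ : L →ₐ[ℚ_[p]] L₂ := φ₀.codRestrict L₂.toSubalgebra hφ
  have hφc : ∀ x, ((φ x : L₂) : C) = φ₀ x := fun x => rfl
  have hlift : ∀ k, ∃ f : Polynomial L₂, f.map (L₂.val : L₂ →+* C) = h k := by
    intro k
    rw [← Polynomial.mem_lifts, Polynomial.lifts_iff_coeff_lifts]
    intro i
    by_cases hi : (h k).coeff i = 0
    · rw [hi]
      exact ⟨0, map_zero _⟩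
    · have h4 : (h k).coeff i ∈ L₂ := by
        apply hSm
        refine Set.mem_iUnion.2 ⟨k, ?_⟩
        exact Polynomial.coeff_mem_coeffs hi
      exact ⟨⟨_, h4⟩, rfl⟩
  choose f hf using hlift
  refine ⟨L₂, inferInstance, inferInstance, h3, φ, f, ?_⟩
  intro k
  have hinj : Function.Injective
      (fun M : Matrix (Fin n) (Fin n) L₂ => M.map (L₂.val : L₂ →+* C)) := by
    intro M N hMN
    ext i j
    exact congrFun (congrFun hMN i) j
  apply hinj
  have e1 : ((α k : Matrix (Fin n) (Fin n) L).map φ).map (L₂.val : L₂ →+* C) =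
      (α k : Matrix (Fin n) (Fin n) L).map φ₀ := rfl
  change ((Polynomial.aeval ((α k : Matrix (Fin n) (Fin n) L).map φ) (f k)) ^ 2).map
    (L₂.val : L₂ →+* C) = ((α k : Matrix (Fin n) (Fin n) L).map φ).map (L₂.val : L₂ →+* C)
  rw [e1]
  have e2 : ((Polynomial.aeval ((α k : Matrix (Fin n) (Fin n) L).map φ) (f k)) ^ 2).map
      (L₂.val : L₂ →+* C) = ((Polynomial.aeval ((α k : Matrix (Fin n) (Fin n) L).map φ)
        (f k)).map (L₂.val : L₂ →+* C)) ^ 2 :=
    map_pow ((L₂.val : L₂ →+* C).mapMatrix (m := Fin n)) _ 2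
  rw [e2, aeval_map_mat, e1, hf]
  exact hh k

end BKT
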