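import Pool.Agent.Lib.MP_7c08ba_nt.T1.StW
import Pool.Agent.Lib.MP_7c08ba_nt.T1.LLOT

set_option autoImplicit false

/-!
Parity for congruent representations, module SYML: the local pairing of a module with a form which
is symmetric with respect to a conjugation is symmetric.
-/

noncomputable section

namespace BKT

open BKPar (Loc1 Loc2)
open BKND (Sm)
open BKMet

namespace WSYML

theorem loc1_tau {D : Type} [Group D] [TopologicalSpace D] {τ : D →* D} (hτ : Continuous τ)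
    {Y : Type} {f : D → Y} (hf : Loc1 f) : Loc1 fun d => f (τ d) := by
  obtain ⟨W, hW, h⟩ := hf
  refine ⟨W.comap τ, hW.preimage hτ, fun g w hw => ?_⟩
  change f (τ (g * w)) = f (τ g)
  rw [map_mul]
  exact h _ _ hw

section

variable {p : ℕ} [Fact p.Prime] {D : Type} [Group D] [TopologicalSpace D]
  {χ : D →* ℤ_[p]ˣ} {R : Type} [CommRing R] {M M' : Type} [AddCommGroup M] [Module R M]
  [AddCommGroup M'] [Module R M'] (X : Pair R (actA χ) M M')

theorem act_mul (ρ : D →* AddMonoid.End M) (g h : D) (m : M) : ρ (g * h) m = ρ g (ρ h m) := by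
  rw [map_mul]
  rfl

theorem act_one (ρ : D →* AddMonoid.End M) (m : M) : ρ 1 m = m := by
  rw [map_one]
  rfl

theorem z1_one {ρ : D →* AddMonoid.End M} {x : D → M} (hx : x ∈ BKND.Z1 ρ) : x 1 = 0 := by
  have h := hx.2 1 1
  rw [mul_one, act_one] at h
  exact left_eq_add.1 h

/-- the cup product of cocycles is a cocycle -/
theorem cup11_mem {f : D → M} {f' : D → M'} (hf : f ∈ BKND.Z1 X.ρ) (hf' : f' ∈ BKND.Z1 X.ρ') :
    cup11 X.b X.ρ' f f' ∈ BKND.Z2 (actA χ) := by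
  refine ⟨?_, fun g h l => ?_⟩
  · obtain ⟨W1, hW1, h1⟩ := hf.1
    obtain ⟨W2, hW2, h2⟩ := hf'.1
    obtain ⟨W3, hW3, h3⟩ := X.sm'
    refine ⟨W1 ⊓ W2 ⊓ W3, ?_, fun g g' w hw w' hw' => ?_⟩
    · rw [Subgroup.coe_inf, Subgroup.coe_inf]
      exact (hW1.inter hW2).inter hW3
    · change X.b (f (g * w)) (X.ρ' (g * w) (f' (g' * w'))) = X.b (f g) (X.ρ' g (f' g'))
      rw [h1 g w hw.1.1, map_mul, h3 w hw.2, mul_one, h2 g' w' hw'.1.2]
  · have e1 := hf.2
    have e2 := hf'.2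
    simp only [cup11]
    rw [← X.eqv, e1 g h, e2 h l]
    simp only [act_mul, map_add, AddMonoidHom.add_apply]
    abel

theorem d0_mem (ρ : D →* AddMonoid.End M) (hρ : Sm ρ) (w : M) : d0 ρ w ∈ BKND.Z1 ρ := by
  refine ⟨?_, fun g h => ?_⟩
  · obtain ⟨W, hW, h⟩ := hρ
    refine ⟨W, hW, fun g u hu => ?_⟩
    change ρ (g * u) w - w = ρ g w - w
    rw [map_mul, h u hu, mul_one]
  · change ρ (g * h) w - w = ρ g w - w + ρ g (ρ h w - w)
    rw [act_mul, map_sub]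
    abel

end

section

variable {p : ℕ} [Fact p.Prime] {D : Type} [Group D] [TopologicalSpace D]
  [IsTopologicalGroup D] [CompactSpace D] {χ : D →* ℤ_[p]ˣ} {inv : (D → D → QZ p) →+ QZ p}
  {R : Type} [CommRing R] {M M' : Type} [AddCommGroup M] [Module R M]
  [AddCommGroup M'] [Module R M'] (X : Pair R (actA χ) M M')

theorem inv_sw (hχ : Continuous χ)
    (hinv : ∀ z ∈ BKND.Z2 (actA χ), inv z = 0 ↔ z ∈ BKND.B2 (actA χ))
    {x : D → M} (hx : x ∈ BKND.Z1 X.ρ) {e : D → M'} (he : e ∈ BKND.Z1 X.ρ') :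
    inv (cup11 X.b X.ρ' x e) = - inv (fun g h => X.b (X.ρ g (x h)) (e g)) := by
  have h1 : cup11 X.b X.ρ' x e - -(fun g h => X.b (X.ρ g (x h)) (e g)) ∈
      BKND.B2 (actA χ) := by
    refine ⟨fun g => -(X.b (x g) (e g)),
      BKND.Loc1.map2 hx.1 he.1 fun a b => -(X.b a b), fun g h => ?_⟩
    change X.b (x g) (X.ρ' g (e h)) - -(X.b (X.ρ g (x h)) (e g)) =
      actA χ g (-(X.b (x h) (e h))) - -(X.b (x (g * h)) (e (g * h))) + -(X.b (x g) (e g))
    rw [map_neg, ← X.eqv, hx.2, he.2]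
    simp only [map_add, AddMonoidHom.add_apply]
    abel
  rw [LLOT.inv_b2 hχ hinv h1]
  exact map_neg inv _

theorem inv_d0 (hχ : Continuous χ)
    (hinv : ∀ z ∈ BKND.Z2 (actA χ), inv z = 0 ↔ z ∈ BKND.B2 (actA χ))
    (w : M) {e : D → M'} (he : e ∈ BKND.Z1 X.ρ') :
    inv (cup11 X.b X.ρ' (d0 X.ρ w) e) = 0 := by
  have h1 : cup11 X.b X.ρ' (d0 X.ρ w) e ∈ BKND.B2 (actA χ) := by
    refine ⟨fun g => X.b w (e g), BKND.Loc1.map he.1 fun a => X.b w a, fun g h => ?_⟩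
    change X.b (X.ρ g w - w) (X.ρ' g (e h)) =
      actA χ g (X.b w (e h)) - X.b w (e (g * h)) + X.b w (e g)
    rw [← X.eqv, he.2]
    simp only [map_add, map_sub, AddMonoidHom.sub_apply]
    abel
  exact (hinv _ (LLOT.b2_z2 hχ h1)).2 h1

end

end WSYML

open WSYML in
/-- **Module SYML**: the local pairing is symmetric. -/
theorem stSyml : StSyml := by
  intro p _ D _ _ _ _ χ inv hχ hinv τ s a hC R _ M _ _ _ X hX hb x hx y hy
  have hz1 : ∀ u ∈ BKND.Z1 X.ρ, (fun d => u (τ d)) ∈ BKND.Z1 X.ρ' := by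
    intro u hu
    refine ⟨loc1_tau hC.cont hu.1, fun g h => ?_⟩
    change u (τ (g * h)) = u (τ g) + X.ρ' g (u (τ h))
    rw [map_mul, hu.2, hX]
    rfl
  refine ⟨hz1 y hy, ?_⟩
  have hy' := hz1 y hy
  have hx' := hz1 x hx
  let w : M := X.ρ s⁻¹ (x s)
  have hd := d0_mem X.ρ X.sm w
  have hu : x - d0 X.ρ w ∈ BKND.Z1 X.ρ := sub_mem hx hd
  have hs : x s⁻¹ = -w := by
    have h1 := hx.2 s⁻¹ s
    rw [inv_mul_cancel, z1_one hx] at h1
    exact eq_neg_of_add_eq_zero_left h1.symm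
  have key : ∀ g h : D, X.ρ (τ (τ g)) (x (τ (τ h))) = X.ρ s (X.ρ g ((x - d0 X.ρ w) h)) := by
    intro g h
    rw [hC.sq, hC.sq, hx.2, hx.2, hs]
    have e0 : X.ρ (s * g * s⁻¹) (x s) = X.ρ s (X.ρ g w) := by
      rw [act_mul, act_mul]
    have e1 : ∀ m, X.ρ (s * g * s⁻¹) (X.ρ s m) = X.ρ s (X.ρ g m) := by
      intro m
      rw [← act_mul, inv_mul_cancel_right, act_mul]
    have e2 : X.ρ (s * g * s⁻¹) (X.ρ (s * h) (-w)) = -(X.ρ s (X.ρ g (X.ρ h w))) := by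
      rw [act_mul _ s h, e1, map_neg, map_neg, map_neg]
    rw [map_add, map_add, e0, e1, e2]
    change _ = X.ρ s (X.ρ g (x h - (X.ρ h w - w)))
    simp only [map_sub]
    abel
  have hswap : (fun g h => X.b (X.ρ g ((x - d0 X.ρ w) h)) (y (τ g))) =
      fun g h => (a : ℤ_[p]) • cup11 X.b X.ρ' y (fun d => x (τ d)) (τ g) (τ h) := by
    funext g h
    change _ = (a : ℤ_[p]) • X.b (y (τ g)) (X.ρ' (τ g) (x (τ (τ h))))
    rw [hb, hX]
    change _ = (a : ℤ_[p]) • X.b (y (τ g)) (X.ρ (τ (τ g)) (x (τ (τ h))))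
    rw [key]
  have h1 := inv_sw X hχ hinv hu hy'
  have h2 : inv (cup11 X.b X.ρ' (x - d0 X.ρ w) fun d => y (τ d)) =
      inv (cup11 X.b X.ρ' x fun d => y (τ d)) := by
    have e : (cup11 X.b X.ρ' (x - d0 X.ρ w) fun d => y (τ d)) =
        (cup11 X.b X.ρ' x fun d => y (τ d)) - cup11 X.b X.ρ' (d0 X.ρ w) fun d => y (τ d) := by
      funext g h
      change X.b (x g - d0 X.ρ w g) _ = X.b (x g) _ - X.b (d0 X.ρ w g) _
      rw [map_sub, AddMonoidHom.sub_apply]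
    rw [e, map_sub, inv_d0 X hχ hinv w hy', sub_zero]
  have h3 := hC.anti _ (cup11_mem X hy hx')
  rw [← h2, h1]
  have h4 : inv (fun g h => X.b (X.ρ g ((x - d0 X.ρ w) h)) (y (τ g))) =
      - inv (cup11 X.b X.ρ' y fun d => x (τ d)) := by
    rw [hswap]
    exact h3
  change - inv (fun g h => X.b (X.ρ g ((x - d0 X.ρ w) h)) (y (τ g))) = _
  rw [h4, neg_neg]

end BKT
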