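import Pool.Agent.Lib.MP_7c08ba_nt.T1.StW
import Pool.Agent.Lib.MP_7c08ba_nt.Met.XPERF
import Pool.Agent.Lib.MP_7c08ba_nt.Met.XHOMS
import Pool.Agent.Lib.MP_7c08ba_nt.Met.XEXT
import Pool.Agent.Lib.MP_7c08ba_nt.Met.XSD

set_option autoImplicit false

/-!
Parity for congruent representations, module TRI: three Lagrangian submodules.
-/

noncomputable section

namespace BKT

open BKMet

namespace WTRI

section Card

variable {H : Type} [AddCommGroup H]

theorem card_le' {K L : AddSubgroup H} (h : K ≤ L) :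
    Nat.card K * K.relIndex L = Nat.card L := by
  have h1 := AddSubgroup.relIndex_mul_relIndex (⊥ : AddSubgroup H) K L bot_le h
  rwa [AddSubgroup.relIndex_bot_left, AddSubgroup.relIndex_bot_left] at h1

theorem card_sup (K L : AddSubgroup H) :
    Nat.card (K ⊔ L : AddSubgroup H) * Nat.card (K ⊓ L : AddSubgroup H) =
      Nat.card K * Nat.card L := by
  have h1 : Nat.card L * L.relIndex (K ⊔ L) = Nat.card (K ⊔ L : AddSubgroup H) :=
    card_le' le_sup_right
  have h2 : Nat.card (K ⊓ L : AddSubgroup H) * (K ⊓ L).relIndex K = Nat.card K :=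
    card_le' inf_le_left
  rw [AddSubgroup.relIndex_sup_right] at h1
  rw [AddSubgroup.inf_relIndex_left] at h2
  rw [← h1, ← h2]
  ring

end Card

section Sub

variable {R : Type} [CommRing R] {H : Type} [AddCommGroup H] [Module R H]

theorem card_sup' (K L : Submodule R H) :
    Nat.card (K ⊔ L : Submodule R H) * Nat.card (K ⊓ L : Submodule R H) =
      Nat.card K * Nat.card L := by
  have h := card_sup K.toAddSubgroup L.toAddSubgroup
  rw [← Submodule.sup_toAddSubgroup] at h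
  exact h

theorem card_le (K L : Submodule R H) (h : K ≤ L) :
    Nat.card K * K.toAddSubgroup.relIndex L.toAddSubgroup = Nat.card L :=
  card_le' (H := H) (K := K.toAddSubgroup) (L := L.toAddSubgroup) h

end Sub

theorem perf : StPerf := stPerf (stHoms stExt)

section Main

variable {R : Type} [CommRing R] {p : ℕ} [Fact p.Prime] {H : Type} [AddCommGroup H] [Module R H]
  [Finite H] {b : H →+ H →+ QZ p} (hb : ∀ x y, b x y = b y x)
  (hn : ∀ x, (∀ y, b x y = 0) → x = 0)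
include hb hn

theorem nd (w : H) (h : ∀ v, b v w = 0) : w = 0 := hn w fun y => by rw [hb]; exact h y

/-- the annihilator of an intersection of Lagrangian submodules -/
theorem perp_inf {B C : Submodule R H} (hB : ∀ y, y ∈ B ↔ ∀ x ∈ B, b x y = 0)
    (hC : ∀ y, y ∈ C ↔ ∀ x ∈ C, b x y = 0) (w : H) :
    w ∈ B ⊔ C ↔ ∀ v ∈ B ⊓ C, b v w = 0 := by
  constructor
  · intro hw v hv
    obtain ⟨y, hy, z, hz, rfl⟩ := Submodule.mem_sup.1 hw
    rw [map_add, (hB y).1 hy v hv.1, (hC z).1 hz v hv.2, add_zero]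
  · intro hw
    obtain ⟨-, -, h3⟩ := perf p H H b hn (nd hb hn)
    obtain ⟨-, -, h4⟩ := h3 B.toAddSubgroup B.toAddSubgroup hB
    have h5 := h4 C.toAddSubgroup C.toAddSubgroup hC w (fun v hv hv' => by
      rw [hb]
      exact hw v ⟨hv, hv'⟩)
    rw [← Submodule.sup_toAddSubgroup] at h5
    exact h5

theorem card_sq {A : Submodule R H} (hA : ∀ y, y ∈ A ↔ ∀ x ∈ A, b x y = 0) :
    Nat.card A * Nat.card A = Nat.card H := by
  obtain ⟨-, -, h3⟩ := perf p H H b hn (nd hb hn)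
  exact (h3 A.toAddSubgroup A.toAddSubgroup hA).1

theorem card_Z {A B C : Submodule R H} (hA : ∀ y, y ∈ A ↔ ∀ x ∈ A, b x y = 0)
    (hB : ∀ y, y ∈ B ↔ ∀ x ∈ B, b x y = 0) (hC : ∀ y, y ∈ C ↔ ∀ x ∈ C, b x y = 0) :
    Nat.card (A ⊔ B ⊓ C : Submodule R H) * Nat.card (A ⊓ (B ⊔ C) : Submodule R H) =
      Nat.card H := by
  obtain ⟨-, -, h3⟩ := perf p H H b hn (nd hb hn)
  refine (h3 (A ⊔ B ⊓ C).toAddSubgroup (A ⊓ (B ⊔ C)).toAddSubgroup fun w => ?_).1
  constructor
  · intro hw v hv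
    have hw' : w ∈ A ⊓ (B ⊔ C) := hw
    obtain ⟨y, hy, z, hz, rfl⟩ := Submodule.mem_sup.1 hv
    rw [map_add, AddMonoidHom.add_apply, (hA w).1 hw'.1 y hy,
      (perp_inf hb hn hB hC w).1 hw'.2 z hz, add_zero]
  · intro hw
    have h1 : w ∈ A := (hA w).2 fun x hx => hw x (Submodule.mem_sup_left hx)
    have h2 : w ∈ B ⊔ C := (perp_inf hb hn hB hC w).2 fun x hx =>
      hw x (Submodule.mem_sup_right hx)
    exact ⟨h1, h2⟩

theorem dbl {A B C : Submodule R H} (hA : ∀ y, y ∈ A ↔ ∀ x ∈ A, b x y = 0)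
    (hB : ∀ y, y ∈ B ↔ ∀ x ∈ B, b x y = 0) (hC : ∀ y, y ∈ C ↔ ∀ x ∈ C, b x y = 0) (y : H)
    (hy : ∀ x ∈ A ⊓ (B ⊔ C), b y x = 0) : y ∈ A ⊔ B ⊓ C := by
  obtain ⟨-, -, h3⟩ := perf p H H b hn (nd hb hn)
  obtain ⟨-, -, h4⟩ := h3 A.toAddSubgroup A.toAddSubgroup hA
  have h5 := h4 (B ⊓ C).toAddSubgroup (B ⊔ C).toAddSubgroup (perp_inf hb hn hB hC) y
    (fun v hv hv' => hy v ⟨hv, hv'⟩)
  rw [← Submodule.sup_toAddSubgroup] at h5
  exact h5

end Main

end WTRI

open WTRI in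
theorem stTri (h : BKMet.StAlt) : StTri := by
  intro R _ _ _ p _ hp H _ _ _ b hbal hb hn A B C hA hB hC
  classical
  -- the form
  have hdec : ∀ x : H, ∃ yz : H × H, x ∈ B ⊔ C → yz.1 ∈ B ∧ yz.2 ∈ C ∧ yz.1 + yz.2 = x := by
    intro x
    by_cases hx : x ∈ B ⊔ C
    · obtain ⟨y, hy, z, hz, hyz⟩ := Submodule.mem_sup.1 hx
      exact ⟨(y, z), fun _ => ⟨hy, hz, hyz⟩⟩
    · exact ⟨(0, 0), fun h => absurd h hx⟩
  choose d hd using hdec
  have hBB : ∀ x ∈ B, ∀ y ∈ B, b x y = 0 := fun x hx y hy => (hB y).1 hy x hx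
  have hCC : ∀ x ∈ C, ∀ y ∈ C, b x y = 0 := fun x hx y hy => (hC y).1 hy x hx
  have hAA : ∀ x ∈ A, ∀ y ∈ A, b x y = 0 := fun x hx y hy => (hA y).1 hy x hx
  let s : H → H → QZ p := fun x y => b (d x).1 (d y).2
  -- independence of the decomposition
  have hs : ∀ x x' y z y' z' : H, x ∈ B ⊔ C → x' ∈ B ⊔ C → y ∈ B → z ∈ C → y' ∈ B → z' ∈ C →
      y + z = x → y' + z' = x' → s x x' = b y z' := by
    intro x x' y z y' z' hx hx' hy hz hy' hz' h1 h2
    obtain ⟨k1, k2, k3⟩ := hd x hx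
    obtain ⟨l1, l2, l3⟩ := hd x' hx'
    have e1 : (d x).1 - y = z - (d x).2 := by
      rw [sub_eq_sub_iff_add_eq_add, k3, ← h1, add_comm]
    have e2 : (d x').2 - z' = y' - (d x').1 := by
      rw [sub_eq_sub_iff_add_eq_add, add_comm (d x').2, l3, ← h2]
    have g1 : b ((d x).1 - y) (d x').2 = 0 := by
      rw [e1]
      exact hCC _ (C.sub_mem hz k2) _ l2
    have g2 : b y ((d x').2 - z') = 0 := by
      rw [e2]
      exact hBB _ hy _ (B.sub_mem hy' l1)
    rw [map_sub, AddMonoidHom.sub_apply, sub_eq_zero] at g1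
    rw [map_sub, sub_eq_zero] at g2
    change b (d x).1 (d x').2 = b y z'
    rw [g1, g2]
  set Z : Submodule R H := A ⊓ (B ⊔ C) with hZ
  set B0 : Submodule R H := (A ⊓ B) ⊔ (A ⊓ C) with hB0
  have hB0Z : B0 ≤ Z := by
    refine sup_le (le_inf inf_le_left (inf_le_right.trans le_sup_left))
      (le_inf inf_le_left (inf_le_right.trans le_sup_right))
  have hri : B0.toAddSubgroup.relIndex Z.toAddSubgroup ≠ 0 := by
    intro h0
    have h1 := WTRI.card_le B0 Z hB0Z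
    rw [h0, mul_zero] at h1
    exact absurd h1.symm (Nat.card_pos (α := Z)).ne'
  obtain ⟨m, hm⟩ := h R p hp H Z B0 s hB0Z hri
    (by
      intro x hx x' hx' y hy
      obtain ⟨k1, k2, k3⟩ := hd x hx.2
      obtain ⟨l1, l2, l3⟩ := hd x' hx'.2
      obtain ⟨m1, m2, m3⟩ := hd y hy.2
      rw [hs (x + x') y ((d x).1 + (d x').1) ((d x).2 + (d x').2) (d y).1 (d y).2
        ((B ⊔ C).add_mem hx.2 hx'.2) hy.2 (B.add_mem k1 l1) (C.add_mem k2 l2) m1 m2
        (by rw [add_add_add_comm, k3, l3]) m3, map_add, AddMonoidHom.add_apply])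
    (by
      intro x hx y hy a
      obtain ⟨k1, k2, k3⟩ := hd x hx.2
      obtain ⟨m1, m2, m3⟩ := hd y hy.2
      rw [hs (a • x) y (a • (d x).1) (a • (d x).2) (d y).1 (d y).2
        ((B ⊔ C).smul_mem a hx.2) hy.2 (B.smul_mem a k1) (C.smul_mem a k2) m1 m2
        (by rw [← smul_add, k3]) m3,
        hs x (a • y) (d x).1 (d x).2 (a • (d y).1) (a • (d y).2) hx.2
        ((B ⊔ C).smul_mem a hy.2) k1 k2 (B.smul_mem a m1) (C.smul_mem a m2) k3
        (by rw [← smul_add, m3]), hbal])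
    (by
      intro x hx y hy
      obtain ⟨k1, k2, k3⟩ := hd x hx.2
      obtain ⟨m1, m2, m3⟩ := hd y hy.2
      have h1 := hAA x hx.1 y hy.1
      have h2 : b ((d x).1 + (d x).2) ((d y).1 + (d y).2) = 0 := by
        rw [k3, m3]
        exact h1
      simp only [map_add, AddMonoidHom.add_apply] at h2
      rw [hBB _ k1 _ m1, hCC _ k2 _ m2, zero_add, add_zero, hb (d x).2] at h2
      exact eq_neg_of_add_eq_zero_right h2)
    (by
      intro x hx
      constructor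
      · intro hx0 x' hx'
        obtain ⟨u, hu, v, hv, huv⟩ := Submodule.mem_sup.1 hx0
        obtain ⟨m1, m2, m3⟩ := hd x' hx'.2
        rw [hs x x' u v (d x').1 (d x').2 hx.2 hx'.2 hu.2 hv.2 m1 m2 huv m3]
        have h1 := hAA u hu.1 x' hx'.1
        rw [← m3, map_add, hBB _ hu.2 _ m1, zero_add] at h1
        exact h1
      · intro hx0
        obtain ⟨k1, k2, k3⟩ := hd x hx.2
        have h1 : (d x).1 ∈ A ⊔ B ⊓ C := by
          refine WTRI.dbl hb hn hA hB hC _ fun x' hx' => ?_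
          obtain ⟨m1, m2, m3⟩ := hd x' hx'.2
          rw [← m3, map_add, hBB _ k1 _ m1, zero_add]
          exact hx0 x' hx'
        obtain ⟨u, hu, v, hv, huv⟩ := Submodule.mem_sup.1 h1
        have hu' : u ∈ B := by
          have : u = (d x).1 - v := by rw [← huv, add_sub_cancel_right]
          rw [this]
          exact B.sub_mem k1 hv.1
        have hx1 : x = u + (v + (d x).2) := by rw [← add_assoc, huv, k3]
        have hvA : v + (d x).2 ∈ A := by
          have : v + (d x).2 = x - u := by rw [hx1, add_sub_cancel_left]; rw [← hx1]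
          rw [this]
          exact A.sub_mem hx.1 hu
        rw [hx1]
        exact Submodule.add_mem_sup ⟨hu, hu'⟩ ⟨hvA, C.add_mem hv.2 k2⟩)
  -- the orders
  have c1 := WTRI.card_sq hb hn hA
  have c2 := WTRI.card_Z hb hn hA hB hC
  have c3 := WTRI.card_sup' A (B ⊓ C)
  have c4 := WTRI.card_sup' (A ⊓ B) (A ⊓ C)
  have e4 : (A ⊓ B) ⊓ (A ⊓ C) = A ⊓ (B ⊓ C) := by
    rw [inf_inf_inf_comm, inf_idem]
  rw [e4] at c4
  have c5 := WTRI.card_le B0 Z hB0Z
  rw [hm] at c5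
  obtain ⟨xa, ha⟩ := XSD.card_pow R _ A rfl
  obtain ⟨xab, hab⟩ := XSD.card_pow R _ (A ⊓ B : Submodule R H) rfl
  obtain ⟨xac, hac⟩ := XSD.card_pow R _ (A ⊓ C : Submodule R H) rfl
  obtain ⟨xbc, hbc⟩ := XSD.card_pow R _ (B ⊓ C : Submodule R H) rfl
  obtain ⟨xabc, habc⟩ := XSD.card_pow R _ (A ⊓ (B ⊓ C) : Submodule R H) rfl
  obtain ⟨xz, hz⟩ := XSD.card_pow R _ Z rfl
  obtain ⟨xs, hxs⟩ := XSD.card_pow R _ (A ⊔ B ⊓ C : Submodule R H) rfl
  obtain ⟨xb, hxb⟩ := XSD.card_pow R _ B0 rfl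
  rw [← c1, ha, hxs, hz, ← pow_add, ← pow_add] at c2
  rw [hxs, habc, ha, hbc, ← pow_add, ← pow_add] at c3
  rw [hxb, habc, hab, hac, ← pow_add, ← pow_add] at c4
  rw [hxb, hz, ← pow_add] at c5
  have hq : 1 < Nat.card (IsLocalRing.ResidueField R) := Finite.one_lt_card
  have i2 := Nat.pow_right_injective hq c2
  have i3 := Nat.pow_right_injective hq c3
  have i4 := Nat.pow_right_injective hq c4
  have i5 := Nat.pow_right_injective hq c5
  refine ⟨xa + xabc - m, ?_⟩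
  rw [hab, hbc, hac, ha, ← pow_add, ← pow_add, ← pow_add]
  congr 1
  omega

end BKT
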