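import Pool.Agent.Lib.MP_7c08ba_nt.T1.StX
import Pool.Agent.Lib.MP_7c08ba_nt.T1.WPWF

set_option autoImplicit false

/-!
The parity theorem, final form: module PXF, the theorem.
-/

noncomputable section

namespace BKT

open NumberField BKGen BKMet
open Matrix

namespace XPXF

/-- lattices of `V` as lattices of `V ⊕ 0` -/
theorem isMet_zero {F : Type} [Field F] {L : Type} [NormedField L] {n : ℕ}
    (V : BKS.Rep (BKS.GF F) L n) (B : Matrix (Fin n) (Fin n) L) (V' : BKS.Rep (BKS.GF F) L 0)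
    (B' : Matrix (Fin 0) (Fin 0) L) {T N : AddSubgroup (Fin n → L)}
    (h : BKS.IsMet (BKS.vec V) (BKS.frm B) T N) :
    BKS.IsMet (BKS.vec2 V V') (BKS.form B B') (T.prod ⊤) (N.prod ⊤) := by
  have e : ∀ x y : (Fin n → L) × (Fin 0 → L), BKS.form B B' x y = BKS.frm B x.1 y.1 := by
    intro x y
    have h0 : x.2 ⬝ᵥ (B' *ᵥ y.2) = 0 := by
      rw [Subsingleton.elim x.2 0, zero_dotProduct]
    unfold BKS.form BKS.frm
    rw [h0, sub_zero]
  have hm : ∀ (S : AddSubgroup (Fin n → L)) (x : (Fin n → L) × (Fin 0 → L)),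
      x ∈ S.prod (⊤ : AddSubgroup (Fin 0 → L)) ↔ x.1 ∈ S := by
    intro S x
    rw [AddSubgroup.mem_prod]
    exact ⟨fun hx => hx.1, fun hx => ⟨hx, AddSubgroup.mem_top _⟩⟩
  refine ⟨?_, ?_, ?_, ?_, ?_⟩
  · obtain ⟨C, hC⟩ := h.bdd
    refine ⟨C, fun x hx => ?_⟩
    have h1 := hC x.1 ((hm T x).1 hx)
    have h2 : ‖x.2‖ = 0 := by rw [Subsingleton.elim x.2 0, norm_zero]
    rw [Prod.norm_def, h2]
    exact max_le h1 ((norm_nonneg _).trans h1)
  · intro g x hx
    exact (hm T _).2 (h.stab g x.1 ((hm T x).1 hx))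
  · intro g x hx
    exact (hm N _).2 (h.stab' g x.1 ((hm N x).1 hx))
  · intro y
    rw [hm, h.dual y.1]
    refine ⟨fun hy x hx => ?_, fun hy x hx => ?_⟩
    · rw [e]
      exact hy x.1 ((hm T x).1 hx)
    · have h3 := hy (x, 0) ((hm T (x, 0)).2 hx)
      rwa [e] at h3
  · intro y
    rw [hm, hm, h.lagr y.1]
    refine and_congr_right fun _ => ⟨fun hy x hx => ?_, fun hy x hx => ?_⟩
    · rw [e]
      exact hy x.1 ((hm N x).1 hx)
    · have h3 := hy (x, 0) ((hm N (x, 0)).2 hx)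
      rwa [e] at h3

theorem ext_id (p : ℕ) [Fact p.Prime] {F : Type} [Field F] {L : Type} [NormedField L]
    [NormedAlgebra ℚ_[p] L] {n : ℕ} (V : BKS.Rep (BKS.GF F) L n) :
    BKS.ext ((AlgHom.id ℚ_[p] L : L →ₐ[ℚ_[p]] L) : L →+* L) V = V := by
  refine MonoidHom.ext fun g => Units.ext ?_
  ext i j
  rfl

/-- `V` and `0` are congruent only if both are zero; zero spaces are congruent -/
theorem congr_zero {F : Type} [Field F] {L : Type} [NormedField L]
    (V : BKS.Rep (BKS.GF F) L 0) (V' : BKS.Rep (BKS.GF F) L 0) : BKS.Congr V V' := by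
  intro g i
  have h1 : BKS.mat V g = BKS.mat V' g := Subsingleton.elim _ _
  rw [h1, sub_self, norm_zero]
  exact zero_lt_one

theorem not_locIso {F : Type} [Field F] [NumberField F] {L : Type} [NormedField L] {n : ℕ}
    (V : BKS.Rep (BKS.GF F) L n) (V' : BKS.Rep (BKS.GF F) L 0) (l : ℕ) [Fact l.Prime]
    (hn : n ≠ 0) : ¬ BKS.LocIso l V V' := by
  intro h
  obtain ⟨j⟩ := WPWF.emb_nonempty l F
  obtain ⟨A, A', h1, -, -⟩ := h j
  have h2 : A' * A = 0 := by
    ext i k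
    rw [Matrix.mul_apply, Matrix.zero_apply]
    exact Finset.sum_eq_zero fun x _ => x.elim0
  rw [h2] at h1
  let i : Fin n := ⟨0, Nat.pos_of_ne_zero hn⟩
  have h3 := congrFun (congrFun h1 i) i
  rw [Matrix.zero_apply, Matrix.one_apply_eq] at h3
  exact zero_ne_one h3

end XPXF

open XPXF in
/-- Module PXF. -/
theorem stPxf (h1 : StPwf) (h2 : StLop) (_h3 : StBct) (h4 : StBcc) : StPxf := by
  intro p _ F _ _ hp hF hIm hs c hc L _ _ _ n n' V V' B B' hV hV' hB hB'
  have hP := h1 p F hp hF hIm hs c hc L n V B hV hB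
  have hQ := hP.2.2.2 n' V' B' hV' hB'
  have hex : BKS.Congr V V' ∨ n' = 0 ∧ BKS.NoForm p V c →
      ∃ (L₂ : Type) (_ : NormedField L₂) (_ : NormedAlgebra ℚ_[p] L₂)
        (_ : FiniteDimensional ℚ_[p] L₂) (φ : L →ₐ[ℚ_[p]] L₂)
        (T N : AddSubgroup ((Fin n → L₂) × (Fin n' → L₂))),
        BKS.IsMet2 (φ : L →+* L₂) V B V' B' T N := by
    rintro (hcg | ⟨hn', hno⟩)
    · exact hQ.1 hcg
    · subst hn'
      obtain ⟨T, N, hM⟩ := hP.1 hno
      refine ⟨L, inferInstance, inferInstance, inferInstance, AlgHom.id ℚ_[p] L, T.prod ⊤,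
        N.prod ⊤, ?_⟩
      have h5 := isMet_zero V B V' B' hM
      unfold BKS.IsMet2
      rw [ext_id p V, ext_id p V']
      exact h5
  refine ⟨hex, fun L₂ _ _ _ φ T N hM => ⟨fun κ _ l _ j hC hC' => ?_,
    fun T' N' hM' l _ j hl hsp => ?_⟩, fun hor hloc => ?_⟩
  · exact hQ.2.1 L₂ φ T N hM κ l j hC hC'
  · obtain ⟨a1, a2, -⟩ := h4 p F L L₂ φ n V hV
    obtain ⟨b1, b2, -⟩ := h4 p F L L₂ φ n' V' hV'
    exact h2 p hp F hF hIm c hc L₂ n n' (BKS.ext (φ : L →+* L₂) V) (BKS.ext (φ : L →+* L₂) V')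
      (B.map φ) (B'.map φ) a1 b1 (a2 c B hB) (b2 c B' hB') T N T' N' hM hM' l j hl hsp
  · by_cases hcg : BKS.Congr V V'
    · exact hQ.2.2 hcg hloc
    · obtain ⟨hn', hno⟩ := hor.resolve_left hcg
      obtain ⟨L₂, i1, i2, i3, φ, T, N, hM⟩ := hex hor
      subst hn'
      have hn : n ≠ 0 := by
        intro hn
        subst hn
        exact hcg (congr_zero V V')
      have hpt : ∀ (m : ℕ) [Fact m.Prime], m ≠ p → ¬ BKS.Split m F →
          BKS.PrimeTo p m V ∧ BKS.PrimeTo p m V' := fun m _ hm hms =>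
        (hloc m hm hms).resolve_right (not_locIso V V' m hn)
      let l : Empty → ℕ := fun k => k.elim
      have hfact : ∀ k, Fact (l k).Prime := fun k => k.elim
      let j : ∀ k, BKS.Emb (l k) F := fun k => k.elim
      have hC : BKS.Covers p V l := ⟨fun k => k.elim, fun k => k.elim, fun m hm hmp hms =>
        Or.inl (hpt m hmp hms).1⟩
      have hC' : BKS.Covers p V' l := ⟨fun k => k.elim, fun k => k.elim, fun m hm hmp hms =>
        Or.inl (hpt m hmp hms).2⟩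
      obtain ⟨f1, f2, f3⟩ := hQ.2.1 L₂ φ T N hM Empty l j hC hC'
      refine ⟨f1, f2, fun v => ?_⟩
      have e1 := f3 v
      rw [Finset.univ_eq_empty, Finset.sum_empty, Nat.zero_mod] at e1
      omega

end BKT
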