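import Pool.Agent.Lib.MP_7c08ba_nt.T1.StV

set_option autoImplicit false
set_option linter.unusedSectionVars false

/-!
Parity for congruent representations, module LAGA: a module with a form over an algebraically closed
field, in which the simple modules with a form occur with even multiplicities, has a Lagrangian
submodule.
-/

noncomputable section

namespace BKT

open Matrix

namespace VLAGA

section Orth

variable {K R A : Type} [Field K] [Ring R] [Algebra K R] [AddCommGroup A] [Module K A]
  [Module R A] [IsScalarTower K R A] {s : R → R} {f : A →ₗ[K] A →ₗ[K] K}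

theorem adj' (hf : AdF s f) (r : R) (x y : A) : f x (r • y) = f (s r • x) y := by
  rw [hf.symm, hf.adj, hf.symm]

/-- the orthogonal complement -/
def orth (hf : AdF s f) (P : Submodule R A) : Submodule R A where
  carrier := {y | ∀ x ∈ P, f x y = 0}
  add_mem' := by
    intro y z hy hz x hx
    rw [map_add, hy x hx, hz x hx, add_zero]
  zero_mem' := fun x _ => map_zero _
  smul_mem' := by
    intro r y hy x hx
    rw [adj' hf]
    exact hy _ (P.smul_mem _ hx)

theorem mem_orth (hf : AdF s f) (P : Submodule R A) (y : A) :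
    y ∈ orth hf P ↔ ∀ x ∈ P, f x y = 0 := Iff.rfl

theorem orth_rs (hf : AdF s f) (P : Submodule R A) :
    (orth hf P).restrictScalars K = LinearMap.BilinForm.orthogonal f (P.restrictScalars K) := rfl

theorem nondeg (hf : AdF s f) : LinearMap.BilinForm.Nondegenerate f :=
  ⟨hf.perf, fun y h => hf.perf y fun x => by rw [hf.symm]; exact h x⟩

theorem isRefl (hf : AdF s f) : LinearMap.BilinForm.IsRefl f := fun x y h => by
  rw [hf.symm]; exact h

theorem fd_sub [FiniteDimensional K A] (P : Submodule R A) : FiniteDimensional K P :=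
  inferInstanceAs (FiniteDimensional K (P.restrictScalars K))

theorem fd_quot [FiniteDimensional K A] (P : Submodule R A) : FiniteDimensional K (A ⧸ P) :=
  Module.Finite.of_surjective (P.mkQ.restrictScalars K) P.mkQ_surjective

theorem finrank_quot [FiniteDimensional K A] (P : Submodule R A) :
    Module.finrank K (A ⧸ P) + Module.finrank K P = Module.finrank K A := by
  have h1 := LinearMap.finrank_range_add_finrank_ker (P.mkQ.restrictScalars K)
  have h2 : LinearMap.range (P.mkQ.restrictScalars K) = ⊤ :=
    LinearMap.range_eq_top.2 P.mkQ_surjective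
  have h3 : LinearMap.ker (P.mkQ.restrictScalars K) = P.restrictScalars K := by
    ext x
    rw [LinearMap.mem_ker]
    exact Submodule.Quotient.mk_eq_zero P
  rw [h2, h3, finrank_top] at h1
  exact h1

theorem orth_orth [FiniteDimensional K A] (hf : AdF s f) (P : Submodule R A) :
    orth hf (orth hf P) = P := by
  apply Submodule.restrictScalars_injective K
  rw [orth_rs, orth_rs]
  exact LinearMap.BilinForm.orthogonal_orthogonal (nondeg hf) (isRefl hf) _

theorem isCompl_orth [FiniteDimensional K A] (hf : AdF s f) (P : Submodule R A)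
    (h : Disjoint P (orth hf P)) : IsCompl P (orth hf P) := by
  refine ⟨h, ?_⟩
  have h1 : IsCompl (P.restrictScalars K) (LinearMap.BilinForm.orthogonal f
      (P.restrictScalars K)) := by
    rw [LinearMap.BilinForm.isCompl_orthogonal_iff_disjoint (isRefl hf), Submodule.disjoint_def]
    rw [Submodule.disjoint_def] at h
    exact h
  rw [codisjoint_iff, eq_top_iff]
  intro x _
  have h2 : x ∈ P.restrictScalars K ⊔ LinearMap.BilinForm.orthogonal f
      (P.restrictScalars K) := by
    rw [h1.sup_eq_top]
    exact Submodule.mem_top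
  obtain ⟨y, hy, z, hz, rfl⟩ := Submodule.mem_sup.1 h2
  exact Submodule.add_mem_sup hy hz

theorem orth_anti (hf : AdF s f) {P Q : Submodule R A} (h : P ≤ Q) : orth hf Q ≤ orth hf P :=
  fun _ hy x hx => hy x (h hx)

theorem orth_bot (hf : AdF s f) : orth hf (⊥ : Submodule R A) = ⊤ := by
  rw [eq_top_iff]
  intro y _ x hx
  rw [(Submodule.mem_bot R).1 hx, map_zero, LinearMap.zero_apply]

theorem orth_top (hf : AdF s f) : orth hf (⊤ : Submodule R A) = ⊥ := by
  rw [eq_bot_iff]
  intro y hy
  rw [Submodule.mem_bot]
  exact hf.perf y fun x => by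
    rw [hf.symm]
    exact hy x Submodule.mem_top

/-- the adjoint map -/
theorem exists_adj [FiniteDimensional K A] {S : Type} [AddCommGroup S] [Module K S] [Module R S]
    [IsScalarTower K R S] [FiniteDimensional K S] {h : S →ₗ[K] S →ₗ[K] K} (hf : AdF s f)
    (hh : AdF s h) (T : S →ₗ[R] A) :
    ∃ T' : A →ₗ[R] S, ∀ w y, h w (T' y) = f (T w) y := by
  have hinj : Function.Injective h := by
    rw [← LinearMap.ker_eq_bot, eq_bot_iff]
    intro x hx
    rw [Submodule.mem_bot]
    exact hh.perf x fun y => by
      rw [LinearMap.mem_ker.1 hx]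
      rfl
  have hsurj : Function.Surjective h := by
    have e : Module.finrank K S = Module.finrank K (S →ₗ[K] K) :=
      (Subspace.dual_finrank_eq (K := K) (V := S)).symm
    exact (LinearMap.injective_iff_surjective_of_finrank_eq_finrank e).1 hinj
  have hex : ∀ y : A, ∃ z : S, ∀ w, h z w = f (T w) y := by
    intro y
    obtain ⟨z, hz⟩ := hsurj ((f y).comp (T.restrictScalars K))
    refine ⟨z, fun w => ?_⟩
    rw [hz, hf.symm]
    rfl
  choose t ht using hex
  have huniq : ∀ z z' : S, (∀ w, h z w = h z' w) → z = z' := fun z z' hz =>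
    hinj (LinearMap.ext hz)
  refine ⟨⟨⟨t, fun y y' => huniq _ _ fun w => ?_⟩, fun r y => huniq _ _ fun w => ?_⟩,
    fun w y => ?_⟩
  · rw [ht, map_add, map_add, LinearMap.add_apply, ht, ht]
  · change h (t (r • y)) w = h (r • t y) w
    rw [ht, hh.adj, ht, T.map_smul, adj' hf]
  · change h w (t y) = f (T w) y
    rw [hh.symm, ht]

theorem adj_surj [FiniteDimensional K A] {S : Type} [AddCommGroup S] [Module K S] [Module R S]
    [IsScalarTower K R S] [FiniteDimensional K S] {h : S →ₗ[K] S →ₗ[K] K} (hf : AdF s f)
    (hh : AdF s h) (T : S →ₗ[R] A) (T' : A →ₗ[R] S) (hT : ∀ w y, h w (T' y) = f (T w) y)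
    (hi : Function.Injective T) : Function.Surjective T' := by
  have h1 : orth hh (LinearMap.range T') = ⊥ := by
    rw [eq_bot_iff]
    intro z hz
    rw [Submodule.mem_bot]
    have h2 : T z = 0 := hf.perf _ fun y => by
      rw [← hT, hh.symm]
      exact hz _ ⟨y, rfl⟩
    exact hi (by rw [h2, map_zero])
  have h2 := orth_orth hh (LinearMap.range T')
  rw [h1, orth_bot] at h2
  exact LinearMap.range_eq_top.1 h2.symm

theorem adj_inj [FiniteDimensional K A] {S : Type} [AddCommGroup S] [Module K S] [Module R S]
    [IsScalarTower K R S] [FiniteDimensional K S] {h : S →ₗ[K] S →ₗ[K] K} (hf : AdF s f)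
    (T : S →ₗ[R] A) (T' : A →ₗ[R] S) (hT : ∀ w y, h w (T' y) = f (T w) y)
    (hi : Function.Surjective T) : Function.Injective T' := by
  rw [← LinearMap.ker_eq_bot, eq_bot_iff]
  intro y hy
  rw [Submodule.mem_bot]
  refine hf.perf y fun x => ?_
  obtain ⟨w, rfl⟩ := hi x
  rw [hf.symm, ← hT, LinearMap.mem_ker.1 hy, map_zero]

/-- restriction of the form to a submodule -/
theorem restr (hf : AdF s f) (P : Submodule R A) (hP : Disjoint P (orth hf P)) :
    ∃ h : P →ₗ[K] P →ₗ[K] K, AdF s h ∧ ∀ x y : P, h x y = f x y := by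
  let j : P →ₗ[K] A := P.subtype.restrictScalars K
  refine ⟨f.compl₁₂ j j, ⟨fun x y => hf.symm _ _, fun x hx => ?_, fun r x y => hf.adj r _ _⟩,
    fun x y => rfl⟩
  have h1 : (x : A) ∈ orth hf P := fun y hy => by
    rw [hf.symm]
    exact hx ⟨y, hy⟩
  have h2 := Submodule.disjoint_def.1 hP x x.2 h1
  exact Subtype.ext h2

end Orth

/-- a simple module with positive multiplicity in a semisimple module is a submodule -/
theorem exists_embed (hM : StMul) {R S : Type} [Ring R] [AddCommGroup S] [Module R S]
    [IsSimpleModule R S] : ∀ {M : Type} [AddCommGroup M] [Module R M], IsFiniteLength R M →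
      IsSemisimpleModule R M → mlt R M S ≠ 0 → ∃ j : S →ₗ[R] M, Function.Injective j := by
  intro M _ _ hfl
  induction hfl with
  | of_subsingleton =>
    intro _ h
    exact absurd ((hM R S).2.2.2.1 _) h
  | @of_simple_quotient M _ _ N hq hN ih =>
    intro hss h
    have hfl : IsFiniteLength R M := IsFiniteLength.of_simple_quotient hN
    have h1 := (hM R S).1 M hfl N
    by_cases h2 : mlt R N S = 0
    · have h3 : mlt R (M ⧸ N) S ≠ 0 := by
        rw [h1, h2, zero_add] at h
        exact h
      have h4 : Nonempty ((M ⧸ N) ≃ₗ[R] S) := by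
        by_contra hcon
        exact h3 (((hM R S).2.2.1 (M ⧸ N)).2 hcon)
      obtain ⟨e⟩ := h4
      obtain ⟨Q, hQ⟩ := exists_isCompl N
      refine ⟨(Q.subtype.comp (Submodule.quotientEquivOfIsCompl N Q hQ).toLinearMap).comp
        e.symm.toLinearMap, ?_⟩
      exact (Q.injective_subtype.comp
        (Submodule.quotientEquivOfIsCompl N Q hQ).injective).comp e.symm.injective
    · obtain ⟨j, hj⟩ := ih inferInstance h2
      exact ⟨N.subtype.comp j, N.injective_subtype.comp hj⟩

section Main

variable {K R : Type} [Field K] [Ring R] [Algebra K R]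

theorem fin_len {A : Type} [AddCommGroup A] [Module K A] [Module R A] [IsScalarTower K R A]
    [FiniteDimensional K A] : IsFiniteLength R A := by
  rw [isFiniteLength_iff_isNoetherian_isArtinian]
  exact ⟨isNoetherian_of_tower K inferInstance, isArtinian_of_tower K inferInstance⟩

/-- Schur's lemma -/
theorem schur [IsAlgClosed K] {S : Type} [AddCommGroup S] [Module K S] [Module R S]
    [IsScalarTower K R S] [FiniteDimensional K S] [IsSimpleModule R S] (c : S →ₗ[R] S) :
    ∃ a : K, ∀ x, c x = a • x := by
  have : Nontrivial S := IsSimpleModule.nontrivial R S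
  obtain ⟨a, ha⟩ := Module.End.exists_eigenvalue (c.restrictScalars K : Module.End K S)
  obtain ⟨x, hx⟩ := ha.exists_hasEigenvector
  let P : Submodule R S :=
    { carrier := {x | c x = a • x}
      add_mem' := by
        intro y z hy hz
        change c (y + z) = a • (y + z)
        rw [map_add, smul_add]
        exact congrArg₂ _ hy hz
      zero_mem' := by
        change c 0 = a • 0
        rw [map_zero, smul_zero]
      smul_mem' := by
        intro r y hy
        change c (r • y) = a • (r • y)
        have hy' : c y = a • y := hy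
        rw [map_smul, hy', ← algebraMap_smul R a y, ← algebraMap_smul R a (r • y), smul_smul,
          smul_smul, Algebra.commutes] }
  have hP : P = ⊤ := by
    refine (eq_bot_or_eq_top P).resolve_left fun h => hx.2 ?_
    have h1 : x ∈ P := Module.End.mem_eigenspace_iff.1 hx.1
    rw [h] at h1
    exact (Submodule.mem_bot R).1 h1
  refine ⟨a, fun y => ?_⟩
  have h1 : y ∈ P := by
    rw [hP]
    exact Submodule.mem_top
  exact h1

/-- the range of an injective map from a simple module -/
theorem simple_range {S A : Type} [AddCommGroup S] [Module R S] [AddCommGroup A] [Module R A]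
    [IsSimpleModule R S] (j : S →ₗ[R] A) (hj : Function.Injective j) :
    IsSimpleModule R (LinearMap.range j) :=
  IsSimpleModule.congr (LinearEquiv.ofInjective j hj).symm

/-- isotropic simple submodules -/
theorem exists_iso (hM : StMul) [IsAlgClosed K] {s : R → R} {A : Type}
    [AddCommGroup A] [Module K A] [Module R A] [IsScalarTower K R A] [FiniteDimensional K A]
    [Nontrivial A] {f : A →ₗ[K] A →ₗ[K] K} (hf : AdF s f)
    (hE : ∀ (S : Type) [AddCommGroup S] [Module K S] [Module R S] [IsScalarTower K R S]
      [FiniteDimensional K S] [IsSimpleModule R S] (h : S →ₗ[K] S →ₗ[K] K), AdF s h →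
      Even (mlt R A S)) :
    ∃ I : Submodule R A, IsSimpleModule R I ∧ I ≤ orth hf I := by
  by_contra hno
  push Not at hno
  have hart : IsArtinian R A := isArtinian_of_tower K inferInstance
  -- no degenerate submodules
  have h1 : ∀ P : Submodule R A, Disjoint P (orth hf P) := by
    intro P
    rw [disjoint_iff]
    by_contra hne
    obtain ⟨I, hI, hle⟩ := (eq_bot_or_exists_atom_le (P ⊓ orth hf P)).resolve_left hne
    refine hno I (isSimpleModule_iff_isAtom.2 hI) ?_
    exact (hle.trans inf_le_right).trans (orth_anti hf (hle.trans inf_le_left))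
  have hss : IsSemisimpleModule R A := by
    refine { exists_isCompl := fun P => ⟨orth hf P, isCompl_orth hf P (h1 P)⟩ }
  obtain ⟨S₁, hS₁, -⟩ := (eq_bot_or_exists_atom_le (⊤ : Submodule R A)).resolve_left top_ne_bot
  have hsim : IsSimpleModule R S₁ := isSimpleModule_iff_isAtom.2 hS₁
  have hfd : FiniteDimensional K S₁ := fd_sub S₁
  obtain ⟨h, hh, hhe⟩ := restr hf S₁ (h1 S₁)
  have hev := hE S₁ h hh
  have hm := (hM R S₁).1 A (fin_len (K := K)) S₁
  rw [((hM R S₁).2.2.1 S₁).1 ⟨LinearEquiv.refl R S₁⟩] at hm
  have hne : mlt R (A ⧸ S₁) S₁ ≠ 0 := by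
    intro h0
    rw [hm, h0] at hev
    exact absurd hev (by decide)
  have hcompl := isCompl_orth hf S₁ (h1 S₁)
  have hfdq : FiniteDimensional K (A ⧸ S₁) := fd_quot S₁
  obtain ⟨j, hj⟩ := exists_embed hM (fin_len (K := K) (R := R) (A := A ⧸ S₁)) inferInstance hne
  let e := Submodule.quotientEquivOfIsCompl S₁ (orth hf S₁) hcompl
  let T : S₁ →ₗ[R] A := ((orth hf S₁).subtype.comp e.toLinearMap).comp j
  have hTi : Function.Injective T :=
    ((orth hf S₁).injective_subtype.comp e.injective).comp hj
  have hTm : ∀ x, T x ∈ orth hf S₁ := fun x => (e (j x)).2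
  obtain ⟨T', hT'⟩ := exists_adj hf hh T
  obtain ⟨a, ha⟩ := schur (K := K) (T'.comp T)
  have hTT : ∀ x y, f (T x) (T y) = a * f x y := by
    intro x y
    rw [← hT']
    have h2 : T' (T y) = a • y := ha y
    rw [h2, map_smul, hhe, smul_eq_mul]
  by_cases ha0 : a = 0
  · refine hno (LinearMap.range T) (simple_range T hTi) ?_
    rintro _ ⟨y, rfl⟩ _ ⟨x, rfl⟩
    rw [hTT, ha0, zero_mul]
  · obtain ⟨b, hb⟩ := IsAlgClosed.exists_pow_nat_eq (-a⁻¹) (n := 2) (by norm_num)
    let J : S₁ →ₗ[R] A :=
      { toFun := fun x => (x : A) + b • T x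
        map_add' := by
          intro x y
          rw [map_add, Submodule.coe_add, smul_add]
          abel
        map_smul' := by
          intro r x
          rw [map_smul, Submodule.coe_smul, RingHom.id_apply, smul_add,
            ← algebraMap_smul R b (r • T x), ← algebraMap_smul R b (T x), smul_smul, smul_smul,
            Algebra.commutes] }
    have hJ : ∀ x, J x = (x : A) + b • T x := fun x => rfl
    have hJi : Function.Injective J := by
      rw [← LinearMap.ker_eq_bot, eq_bot_iff]
      intro x hx
      rw [Submodule.mem_bot]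
      have h2 : (x : A) + b • T x = 0 := hx
      have h3 : (x : A) = -(b • T x) := eq_neg_of_add_eq_zero_left h2
      have h4 : (x : A) ∈ orth hf S₁ := by
        rw [h3, ← algebraMap_smul R b (T x)]
        exact Submodule.neg_mem _ (Submodule.smul_mem _ _ (hTm x))
      exact Subtype.ext (Submodule.disjoint_def.1 (h1 S₁) x x.2 h4)
    refine hno (LinearMap.range J) (simple_range J hJi) ?_
    rintro _ ⟨y, rfl⟩ _ ⟨x, rfl⟩
    have h2 : f x (T y) = 0 := hTm y x x.2
    have h3 : f (T x) y = 0 := by
      rw [hf.symm]
      exact hTm x y y.2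
    rw [hJ, hJ, map_add, map_add, LinearMap.add_apply, LinearMap.add_apply, map_smul, map_smul,
      map_smul, LinearMap.smul_apply, LinearMap.smul_apply, h2, h3, hTT]
    have h4 : b * (b * (a * f x y)) = b ^ 2 * a * f x y := by ring
    simp only [smul_eq_mul, mul_zero, add_zero, zero_add]
    rw [h4, hb]
    field_simp
    ring

/-- the form on `B / I` -/
theorem exists_form {s : R → R} {A : Type} [AddCommGroup A] [Module K A] [Module R A]
    [IsScalarTower K R A] {f : A →ₗ[K] A →ₗ[K] K} (hf : AdF s f) (B I : Submodule R A)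
    (hI : ∀ x ∈ I, ∀ y ∈ B, f x y = 0) :
    ∃ f₀ : (↥B ⧸ I.submoduleOf B) →ₗ[K] (↥B ⧸ I.submoduleOf B) →ₗ[K] K,
      ∀ x y : B, f₀ (Submodule.Quotient.mk x) (Submodule.Quotient.mk y) = f x y := by
  have hsurj : ∀ w : ↥B ⧸ I.submoduleOf B, ∃ x : B, Submodule.Quotient.mk x = w := fun w =>
    Submodule.Quotient.mk_surjective _ w
  choose t ht using hsurj
  have hmk : ∀ x y : B, (Submodule.Quotient.mk x : ↥B ⧸ I.submoduleOf B) =
      Submodule.Quotient.mk y ↔ (x : A) - y ∈ I := fun x y => Submodule.Quotient.eq _
  have hwd1 : ∀ x x' y : B, (Submodule.Quotient.mk x : ↥B ⧸ I.submoduleOf B) =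
      Submodule.Quotient.mk x' → f x y = f x' y := by
    intro x x' y h
    have h1 := hI _ ((hmk x x').1 h) y y.2
    rw [map_sub, LinearMap.sub_apply, sub_eq_zero] at h1
    exact h1
  have hwd2 : ∀ x y y' : B, (Submodule.Quotient.mk y : ↥B ⧸ I.submoduleOf B) =
      Submodule.Quotient.mk y' → f x y = f x y' := by
    intro x y y' h
    rw [hf.symm x, hf.symm x]
    exact hwd1 y y' x h
  have hmka : ∀ x y : B, (Submodule.Quotient.mk (x + y) : ↥B ⧸ I.submoduleOf B) =
      Submodule.Quotient.mk x + Submodule.Quotient.mk y := fun x y => rfl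
  have hmks : ∀ (a : K) (x : B), (Submodule.Quotient.mk (a • x) : ↥B ⧸ I.submoduleOf B) =
      a • Submodule.Quotient.mk x := fun a x => rfl
  refine ⟨LinearMap.mk₂ _ (fun w w' => f (t w) (t w')) ?_ ?_ ?_ ?_, ?_⟩
  · intro w w' v
    have h1 := hwd1 (t (w + w')) (t w + t w') (t v) (by rw [hmka, ht, ht, ht])
    rw [h1, Submodule.coe_add, map_add, LinearMap.add_apply]
  · intro c w v
    have h1 := hwd1 (t (c • w)) (c • t w) (t v) (by rw [hmks, ht, ht])
    rw [h1]
    change f (c • (t w : A)) (t v) = _
    rw [map_smul, LinearMap.smul_apply]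
  · intro w v v'
    have h1 := hwd2 (t w) (t (v + v')) (t v + t v') (by rw [hmka, ht, ht, ht])
    rw [h1, Submodule.coe_add, map_add]
  · intro c w v
    have h1 := hwd2 (t w) (t (c • v)) (c • t v) (by rw [hmks, ht, ht])
    rw [h1]
    change f (t w) (c • (t v : A)) = _
    rw [map_smul]
  · intro x y
    exact (hwd1 _ _ _ (ht _)).trans (hwd2 _ _ _ (ht _))

/-- An isotropic simple submodule and the quotient by its orthogonal complement have the same
multiplicities. -/
theorem mlt_dual (hM : StMul) {s : R → R} {A : Type} [AddCommGroup A] [Module K A] [Module R A]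
    [IsScalarTower K R A] [FiniteDimensional K A] {f : A →ₗ[K] A →ₗ[K] K} (hf : AdF s f)
    (I : Submodule R A) [hI : IsSimpleModule R I] {S : Type} [AddCommGroup S] [Module K S]
    [Module R S] [IsScalarTower K R S] [FiniteDimensional K S] [IsSimpleModule R S]
    {h : S →ₗ[K] S →ₗ[K] K} (hh : AdF s h) :
    mlt R I S = mlt R (A ⧸ orth hf I) S := by
  have hIat : IsAtom I := isSimpleModule_iff_isAtom.1 hI
  have hco : IsCoatom (orth hf I) := by
    refine ⟨fun h0 => hIat.1 ?_, fun Q hQ => ?_⟩
    · have h1 := orth_orth hf I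
      rw [h0, orth_top] at h1
      exact h1.symm
    · have h1 : orth hf Q ≤ I := by
        have h2 := orth_anti hf hQ.le
        rwa [orth_orth] at h2
      rcases hIat.le_iff.1 h1 with h2 | h2
      · have h3 := orth_orth hf Q
        rw [h2, orth_bot] at h3
        exact h3.symm
      · exfalso
        have h3 := orth_orth hf Q
        rw [h2] at h3
        exact hQ.ne h3
  have hsim : IsSimpleModule R (A ⧸ orth hf I) := isSimpleModule_iff_isCoatom.2 hco
  have hiff : Nonempty (I ≃ₗ[R] S) ↔ Nonempty ((A ⧸ orth hf I) ≃ₗ[R] S) := by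
    constructor
    · rintro ⟨e⟩
      let T : S →ₗ[R] A := I.subtype.comp e.symm.toLinearMap
      have hTi : Function.Injective T := I.injective_subtype.comp e.symm.injective
      obtain ⟨T', hT'⟩ := exists_adj hf hh T
      have hs := adj_surj hf hh T T' hT' hTi
      have hker : LinearMap.ker T' = orth hf I := by
        ext y
        rw [LinearMap.mem_ker, mem_orth]
        constructor
        · intro h0 x hx
          have h1 := hT' (e ⟨x, hx⟩) y
          rw [h0, map_zero] at h1
          have h2 : T (e ⟨x, hx⟩) = x := by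
            change ((e.symm (e ⟨x, hx⟩) : I) : A) = x
            rw [LinearEquiv.symm_apply_apply]
          rw [h2] at h1
          exact h1.symm
        · intro h0
          refine hh.perf _ fun w => ?_
          rw [hh.symm, hT']
          exact h0 _ (e.symm w).2
      exact ⟨(Submodule.quotEquivOfEq _ _ hker.symm).trans
        (LinearMap.quotKerEquivOfSurjective T' hs)⟩
    · rintro ⟨e⟩
      let T : A →ₗ[R] S := e.toLinearMap.comp (orth hf I).mkQ
      have hTs : Function.Surjective T := e.surjective.comp (Submodule.mkQ_surjective _)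
      obtain ⟨T', hT'⟩ := exists_adj hh hf T
      have hi := adj_inj hh T T' hT' hTs
      have hr : ∀ y, T' y ∈ I := by
        intro y
        rw [← orth_orth hf I]
        intro x hx
        rw [hT']
        have h1 : T x = 0 := by
          change e ((orth hf I).mkQ x) = 0
          rw [Submodule.mkQ_apply, (Submodule.Quotient.mk_eq_zero _).2 hx, map_zero]
        rw [h1, map_zero, LinearMap.zero_apply]
      let T'' : S →ₗ[R] I := T'.codRestrict I hr
      have hT''i : Function.Injective T'' := fun x y hxy => hi (congrArg Subtype.val hxy)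
      have hb : Function.Bijective T'' := by
        refine LinearMap.bijective_of_ne_zero fun h0 => ?_
        have : Nontrivial S := IsSimpleModule.nontrivial R S
        obtain ⟨x, hx⟩ := exists_ne (0 : S)
        exact hx (hT''i (by rw [h0]; rfl))
      exact ⟨(LinearEquiv.ofBijective T'' hb).symm⟩
  by_cases hn : Nonempty (I ≃ₗ[R] S)
  · rw [((hM R S).2.2.1 I).1 hn, ((hM R S).2.2.1 (A ⧸ orth hf I)).1 (hiff.1 hn)]
  · rw [((hM R S).2.2.1 I).2 hn, ((hM R S).2.2.1 (A ⧸ orth hf I)).2 (fun h => hn (hiff.2 h))]

theorem main (hM : StMul) [IsAlgClosed K] (s : R → R) : ∀ (n : ℕ) (A : Type) [AddCommGroup A]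
    [Module K A] [Module R A] [IsScalarTower K R A] [FiniteDimensional K A]
    (f : A →ₗ[K] A →ₗ[K] K), AdF s f →
    (∀ (S : Type) [AddCommGroup S] [Module K S] [Module R S] [IsScalarTower K R S]
      [FiniteDimensional K S] [IsSimpleModule R S] (h : S →ₗ[K] S →ₗ[K] K), AdF s h →
      Even (mlt R A S)) → Module.finrank K A = n →
    ∃ P : Submodule R A, ∀ y, y ∈ P ↔ ∀ x ∈ P, f x y = 0 := by
  intro n
  induction n using Nat.strong_induction_on with
  | _ n ih =>
    intro A _ _ _ _ _ f hf hE hn
    rcases subsingleton_or_nontrivial A with hA | hA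
    · refine ⟨⊤, fun y => ⟨fun _ x _ => ?_, fun _ => Submodule.mem_top⟩⟩
      rw [Subsingleton.elim x 0, map_zero, LinearMap.zero_apply]
    · obtain ⟨I, hI, hII⟩ := exists_iso hM hf hE
      obtain ⟨f₀, hf₀⟩ := exists_form hf (orth hf I) I (fun x hx y hy => hy x hx)
      have hfdB : FiniteDimensional K (orth hf I) := fd_sub _
      have hfd : FiniteDimensional K (↥(orth hf I) ⧸ I.submoduleOf (orth hf I)) := fd_quot _
      have hA₀ : AdF s f₀ := by
        refine ⟨fun x y => ?_, fun x hx => ?_, fun r x y => ?_⟩
        · obtain ⟨x, rfl⟩ := Submodule.Quotient.mk_surjective _ x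
          obtain ⟨y, rfl⟩ := Submodule.Quotient.mk_surjective _ y
          rw [hf₀, hf₀, hf.symm]
        · obtain ⟨x, rfl⟩ := Submodule.Quotient.mk_surjective _ x
          rw [Submodule.Quotient.mk_eq_zero]
          have h0 : (x : A) ∈ orth hf (orth hf I) := by
            intro y hy
            have h1 := hx (Submodule.Quotient.mk ⟨y, hy⟩)
            rw [hf₀] at h1
            rw [hf.symm]
            exact h1
          rw [orth_orth] at h0
          exact h0
        · obtain ⟨x, rfl⟩ := Submodule.Quotient.mk_surjective _ x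
          obtain ⟨y, rfl⟩ := Submodule.Quotient.mk_surjective _ y
          rw [← Submodule.Quotient.mk_smul, ← Submodule.Quotient.mk_smul, hf₀, hf₀]
          exact hf.adj r _ _
      have hE₀ : ∀ (S : Type) [AddCommGroup S] [Module K S] [Module R S] [IsScalarTower K R S]
          [FiniteDimensional K S] [IsSimpleModule R S] (h : S →ₗ[K] S →ₗ[K] K), AdF s h →
          Even (mlt R (↥(orth hf I) ⧸ I.submoduleOf (orth hf I)) S) := by
        intro S _ _ _ _ _ _ h hh
        have h1 := hE S h hh
        have h2 := (hM R S).1 A (fin_len (K := K)) (orth hf I)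
        have h3 := (hM R S).1 (orth hf I) (fin_len (K := K)) (I.submoduleOf (orth hf I))
        have h4 := (hM R S).2.1 _ _ (Submodule.submoduleOfEquivOfLe hII)
        have h5 := mlt_dual hM hf I hh
        rw [h2, h3, h4, h5] at h1
        rw [Nat.even_iff] at h1 ⊢
        omega
      have hlt : Module.finrank K (↥(orth hf I) ⧸ I.submoduleOf (orth hf I)) < n := by
        have h1 := finrank_quot (K := K) (I.submoduleOf (orth hf I))
        have h2 := finrank_quot (K := K) (orth hf I)
        have h3 : 0 < Module.finrank K (I.submoduleOf (orth hf I)) := by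
          have hfdI : FiniteDimensional K (I.submoduleOf (orth hf I)) := fd_sub _
          have : Nontrivial I := IsSimpleModule.nontrivial R I
          have : Nontrivial (I.submoduleOf (orth hf I)) :=
            (Submodule.submoduleOfEquivOfLe hII).toEquiv.nontrivial
          exact Module.finrank_pos
        omega
      obtain ⟨P₀, hP₀⟩ := ih _ hlt _ f₀ hA₀ hE₀ rfl
      have hmem : ∀ y, y ∈ (P₀.comap (I.submoduleOf (orth hf I)).mkQ).map
          (orth hf I).subtype ↔ ∃ hy : y ∈ orth hf I,
            (Submodule.Quotient.mk (⟨y, hy⟩ : orth hf I) :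
              ↥(orth hf I) ⧸ I.submoduleOf (orth hf I)) ∈ P₀ := by
        intro y
        rw [Submodule.mem_map]
        constructor
        · rintro ⟨z, hz, rfl⟩
          exact ⟨z.2, hz⟩
        · rintro ⟨hy, h⟩
          exact ⟨⟨y, hy⟩, h, rfl⟩
      refine ⟨(P₀.comap (I.submoduleOf (orth hf I)).mkQ).map (orth hf I).subtype, fun y => ?_⟩
      constructor
      · intro hy x hx
        obtain ⟨hy1, hy2⟩ := (hmem y).1 hy
        obtain ⟨hx1, hx2⟩ := (hmem x).1 hx
        have h1 := (hP₀ _).1 hy2 _ hx2
        rw [hf₀] at h1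
        exact h1
      · intro hy
        have hy1 : y ∈ orth hf I := by
          intro x hx
          refine hy x ((hmem x).2 ⟨hII hx, ?_⟩)
          have h1 : (Submodule.Quotient.mk (⟨x, hII hx⟩ : orth hf I) :
              ↥(orth hf I) ⧸ I.submoduleOf (orth hf I)) = 0 :=
            (Submodule.Quotient.mk_eq_zero _).2 hx
          rw [h1]
          exact P₀.zero_mem
        refine (hmem y).2 ⟨hy1, (hP₀ _).2 fun x hx => ?_⟩
        obtain ⟨x, rfl⟩ := Submodule.Quotient.mk_surjective _ x
        rw [hf₀]
        exact hy x ((hmem x).2 ⟨x.2, hx⟩)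

end Main

end VLAGA

/-- Module LAGA: a module with a form over an algebraically closed field, in which the simple
modules with a form occur with even multiplicities, has a Lagrangian submodule. -/
theorem stLaga (hM : StMul) : StLaga := by
  intro K _ _ _ R _ _ s A _ _ _ _ _ f hf hE
  exact VLAGA.main hM s _ A f hf hE rfl

end BKT
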