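import Pool.Agent.Lib.MP_7c08ba_nt.T1.StZ
import Pool.Agent.Lib.MP_7c08ba_nt.T1.VLAGA

set_option autoImplicit false
set_option linter.unusedSectionVars false

/-!
The parity theorem, general criterion: module DLT, multiplicities in dual modules.
-/

noncomputable section

namespace BKT

namespace ZDLT

/-- a perfect pairing of two modules, `s r` is adjoint to `r` -/
structure Pf {K R M M' : Type} [Field K] [Ring R] [Algebra K R] [AddCommGroup M] [Module K M]
    [Module R M] [AddCommGroup M'] [Module K M'] [Module R M'] (s : R → R)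
    (f : M →ₗ[K] M' →ₗ[K] K) : Prop where
  l : ∀ x, (∀ y, f x y = 0) → x = 0
  r : ∀ y, (∀ x, f x y = 0) → y = 0
  a : ∀ (r : R) x y, f (r • x) y = f x (s r • y)
  b : ∀ (r : R) x y, f (s r • x) y = f x (r • y)

section Pair

variable {K R M M' : Type} [Field K] [Ring R] [Algebra K R] [AddCommGroup M] [Module K M]
  [Module R M] [IsScalarTower K R M] [FiniteDimensional K M] [AddCommGroup M'] [Module K M']
  [Module R M'] [IsScalarTower K R M'] [FiniteDimensional K M'] {s : R → R}
  {f : M →ₗ[K] M' →ₗ[K] K}

theorem inj (hf : Pf s f) : Function.Injective f := by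
  rw [← LinearMap.ker_eq_bot, eq_bot_iff]
  intro x hx
  rw [Submodule.mem_bot]
  exact hf.l x fun y => by
    rw [LinearMap.mem_ker.1 hx]
    rfl

theorem inj' (hf : Pf s f) : Function.Injective f.flip := by
  rw [← LinearMap.ker_eq_bot, eq_bot_iff]
  intro y hy
  rw [Submodule.mem_bot]
  exact hf.r y fun x => by
    have h := LinearMap.mem_ker.1 hy
    have h2 : f.flip y x = 0 := by
      rw [h]
      rfl
    exact h2

theorem rank_eq (hf : Pf s f) : Module.finrank K M = Module.finrank K M' := by
  have h1 := LinearMap.finrank_le_finrank_of_injective (inj hf)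
  have h2 := LinearMap.finrank_le_finrank_of_injective (inj' hf)
  have e1 : Module.finrank K (M →ₗ[K] K) = Module.finrank K M :=
    Subspace.dual_finrank_eq (K := K) (V := M)
  have e2 : Module.finrank K (M' →ₗ[K] K) = Module.finrank K M' :=
    Subspace.dual_finrank_eq (K := K) (V := M')
  rw [e2] at h1
  rw [e1] at h2
  exact le_antisymm h1 h2

theorem surj (hf : Pf s f) : Function.Surjective f := by
  have e2 : Module.finrank K (M' →ₗ[K] K) = Module.finrank K M' :=
    Subspace.dual_finrank_eq (K := K) (V := M')
  exact (LinearMap.injective_iff_surjective_of_finrank_eq_finrank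
    ((rank_eq hf).trans e2.symm)).1 (inj hf)

theorem surj' (hf : Pf s f) : Function.Surjective f.flip := by
  have e2 : Module.finrank K (M →ₗ[K] K) = Module.finrank K M :=
    Subspace.dual_finrank_eq (K := K) (V := M)
  exact (LinearMap.injective_iff_surjective_of_finrank_eq_finrank
    ((rank_eq hf).symm.trans e2.symm)).1 (inj' hf)

/-- the orthogonal complement of a submodule -/
def orth (hf : Pf s f) (P : Submodule R M) : Submodule R M' where
  carrier := {y | ∀ x ∈ P, f x y = 0}
  add_mem' := by
    intro y z hy hz x hx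
    rw [map_add, hy x hx, hz x hx, add_zero]
  zero_mem' := fun x _ => map_zero _
  smul_mem' := by
    intro r y hy x hx
    rw [← hf.b]
    exact hy _ (P.smul_mem _ hx)

theorem mem_orth (hf : Pf s f) (P : Submodule R M) (y : M') :
    y ∈ orth hf P ↔ ∀ x ∈ P, f x y = 0 := Iff.rfl

theorem dbl (hf : Pf s f) (P : Submodule R M) (x : M) (h : ∀ y ∈ orth hf P, f x y = 0) :
    x ∈ P := by
  by_contra hx
  obtain ⟨φ, h1, h2⟩ := Submodule.exists_le_ker_of_notMem (p := P.restrictScalars K) hx
  obtain ⟨y, rfl⟩ := surj' hf φ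
  refine h1 (h y fun z hz => ?_)
  exact LinearMap.mem_ker.1 (h2 hz)

/-- the annihilator in `M` of a submodule of `M'` is zero only for `M'` -/
theorem eq_top (hf : Pf s f) (Q : Submodule R M') (h : ∀ x, (∀ y ∈ Q, f x y = 0) → x = 0) :
    Q = ⊤ := by
  rw [eq_top_iff]
  intro y _
  by_contra hy
  obtain ⟨φ, h1, h2⟩ := Submodule.exists_le_ker_of_notMem (p := Q.restrictScalars K) hy
  obtain ⟨x, rfl⟩ := surj hf φ
  have h3 := h x fun z hz => LinearMap.mem_ker.1 (h2 hz)
  rw [h3, map_zero] at h1
  exact h1 rfl

theorem coatom (hf : Pf s f) (I : Submodule R M) (hI : IsAtom I) : IsCoatom (orth hf I) := by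
  refine ⟨fun h0 => hI.1 ?_, fun Q hQ => eq_top hf Q fun x hx => ?_⟩
  · rw [eq_bot_iff]
    intro x hx
    rw [Submodule.mem_bot]
    refine hf.l x fun y => ?_
    have h1 : y ∈ orth hf I := by
      rw [h0]
      exact Submodule.mem_top
    exact h1 x hx
  · by_contra hne
    have hxI : x ∈ I := dbl hf I x fun y hy => hx y (hQ.le hy)
    have h1 : Submodule.span R {x} ≤ I := (Submodule.span_singleton_le_iff_mem x I).2 hxI
    have h2 : Submodule.span R {x} = I := (hI.le_iff.1 h1).resolve_left fun h => hne
      (Submodule.span_singleton_eq_bot.1 h)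
    refine hQ.not_ge fun y hy z hz => ?_
    rw [← h2, Submodule.mem_span_singleton] at hz
    obtain ⟨r, rfl⟩ := hz
    rw [hf.a]
    exact hx _ (Q.smul_mem _ hy)

/-- the case of a simple module `S` -/
theorem simple (hM : StMul) (hf : Pf s f) (I : Submodule R M) [hI : IsSimpleModule R I]
    {S : Type} [AddCommGroup S] [Module K S] [Module R S] [IsScalarTower K R S]
    [FiniteDimensional K S] [IsSimpleModule R S] {h : S →ₗ[K] S →ₗ[K] K} (hh : AdF s h) :
    mlt R I S = mlt R (M' ⧸ orth hf I) S := by
  have hIat : IsAtom I := isSimpleModule_iff_isAtom.1 hI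
  have hsim : IsSimpleModule R (M' ⧸ orth hf I) :=
    isSimpleModule_iff_isCoatom.2 (coatom hf I hIat)
  have hinj : Function.Injective h := by
    rw [← LinearMap.ker_eq_bot, eq_bot_iff]
    intro x hx
    rw [Submodule.mem_bot]
    exact hh.perf x fun y => by
      rw [LinearMap.mem_ker.1 hx]
      rfl
  have hsurj : Function.Surjective h := by
    have e : Module.finrank K S = Module.finrank K (S →ₗ[K] K) :=
      (Subspace.dual_finrank_eq (K := K) (V := S)).symm
    exact (LinearMap.injective_iff_surjective_of_finrank_eq_finrank e).1 hinj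
  have hadj : ∀ (r : R) z w, h z (r • w) = h (s r • z) w := by
    intro r z w
    rw [hh.symm, hh.adj, hh.symm]
  have hiff : Nonempty (I ≃ₗ[R] S) ↔ Nonempty ((M' ⧸ orth hf I) ≃ₗ[R] S) := by
    constructor
    · rintro ⟨e⟩
      have hex : ∀ y : M', ∃ z : S, ∀ w, h z w = f (e.symm w : M) y := by
        intro y
        obtain ⟨z, hz⟩ := hsurj ((f.flip y).comp
          ((I.subtype.comp e.symm.toLinearMap).restrictScalars K))
        refine ⟨z, fun w => ?_⟩
        rw [hz]
        rfl
      choose t ht using hex
      have huniq : ∀ z z' : S, (∀ w, h z w = h z' w) → z = z' := fun z z' hz =>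
        hinj (LinearMap.ext hz)
      let T : M' →ₗ[R] S :=
        { toFun := t
          map_add' := fun y y' => huniq _ _ fun w => by
            rw [ht, map_add, map_add, LinearMap.add_apply, ht, ht]
          map_smul' := fun r y => huniq _ _ fun w => by
            rw [RingHom.id_apply, hh.adj, ht, ht, ← hf.b, e.symm.map_smul, Submodule.coe_smul] }
      have hT : ∀ y w, h (T y) w = f (e.symm w : M) y := ht
      have hne : T ≠ 0 := by
        intro h0
        have : Nontrivial S := IsSimpleModule.nontrivial R S
        obtain ⟨w, hw⟩ := exists_ne (0 : S)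
        refine hw ?_
        have h1 : ((e.symm w : I) : M) = 0 := hf.l _ fun y => by
          rw [← hT, h0, LinearMap.zero_apply, map_zero, LinearMap.zero_apply]
        have h2 : e.symm w = 0 := Subtype.ext h1
        rw [← e.apply_symm_apply w, h2, map_zero]
      have hs : Function.Surjective T := LinearMap.surjective_of_ne_zero hne
      have hker : LinearMap.ker T = orth hf I := by
        ext y
        rw [LinearMap.mem_ker, mem_orth]
        constructor
        · intro h0 x hx
          have h1 := hT y (e ⟨x, hx⟩)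
          rw [h0, map_zero, LinearMap.zero_apply, e.symm_apply_apply] at h1
          exact h1.symm
        · intro h0
          refine hh.perf _ fun w => ?_
          rw [hT]
          exact h0 _ (e.symm w).2
      exact ⟨(Submodule.quotEquivOfEq _ _ hker.symm).trans
        (LinearMap.quotKerEquivOfSurjective T hs)⟩
    · rintro ⟨e⟩
      let T : M' →ₗ[R] S := e.toLinearMap.comp (orth hf I).mkQ
      have hTs : Function.Surjective T := e.surjective.comp (Submodule.mkQ_surjective _)
      have hex : ∀ w : S, ∃ x : M, ∀ y, f x y = h w (T y) := by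
        intro w
        obtain ⟨x, hx⟩ := surj hf ((h w).comp (T.restrictScalars K))
        refine ⟨x, fun y => ?_⟩
        rw [hx]
        rfl
      choose t ht using hex
      have huniq : ∀ x x' : M, (∀ y, f x y = f x' y) → x = x' := fun x x' hx =>
        inj hf (LinearMap.ext hx)
      let T' : S →ₗ[R] M :=
        { toFun := t
          map_add' := fun y y' => huniq _ _ fun w => by
            rw [ht, map_add, map_add, LinearMap.add_apply, LinearMap.add_apply, ht, ht]
          map_smul' := fun r w => huniq _ _ fun y => by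
            rw [RingHom.id_apply, ht, hf.a, ht, hh.adj, T.map_smul] }
      have hT' : ∀ w y, f (T' w) y = h w (T y) := ht
      have hr : ∀ w, T' w ∈ I := by
        intro w
        refine dbl hf I _ fun y hy => ?_
        have h1 : T y = 0 := by
          change e ((orth hf I).mkQ y) = 0
          rw [Submodule.mkQ_apply, (Submodule.Quotient.mk_eq_zero _).2 hy, map_zero]
        rw [hT', h1, map_zero]
      let T'' : S →ₗ[R] I := T'.codRestrict I hr
      have hne : T'' ≠ 0 := by
        intro h0
        have : Nontrivial S := IsSimpleModule.nontrivial R S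
        obtain ⟨w, hw⟩ := exists_ne (0 : S)
        refine hw (hh.perf w fun z => ?_)
        obtain ⟨y, rfl⟩ := hTs z
        have h1 : T' w = 0 := congrArg (fun g : S →ₗ[R] I => ((g w : I) : M)) h0
        rw [← hT', h1, map_zero, LinearMap.zero_apply]
      exact ⟨(LinearEquiv.ofBijective T'' (LinearMap.bijective_of_ne_zero hne)).symm⟩
  by_cases hn : Nonempty (I ≃ₗ[R] S)
  · rw [((hM R S).2.2.1 I).1 hn, ((hM R S).2.2.1 (M' ⧸ orth hf I)).1 (hiff.1 hn)]
  · rw [((hM R S).2.2.1 I).2 hn,
      ((hM R S).2.2.1 (M' ⧸ orth hf I)).2 (fun h => hn (hiff.2 h))]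

/-- the pairing of `M / I` and the orthogonal complement of `I` -/
theorem exists_form (hf : Pf s f) (I : Submodule R M) :
    ∃ f₁ : (M ⧸ I) →ₗ[K] (orth hf I) →ₗ[K] K, Pf s f₁ := by
  let g : M →ₗ[K] (orth hf I) →ₗ[K] K := f.compl₂ ((orth hf I).subtype.restrictScalars K)
  have hg : ∀ x (y : orth hf I), g x y = f x y := fun x y => rfl
  have hk : I.restrictScalars K ≤ LinearMap.ker g := by
    intro x hx
    rw [LinearMap.mem_ker]
    ext y
    rw [hg, LinearMap.zero_apply]
    exact y.2 x hx
  let f₁ : (M ⧸ I) →ₗ[K] (orth hf I) →ₗ[K] K :=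
    ((I.restrictScalars K).liftQ g hk).comp
      (Submodule.Quotient.restrictScalarsEquiv K I).symm.toLinearMap
  have h1 : ∀ (x : M) (y : orth hf I), f₁ (Submodule.Quotient.mk x) y = f x y := fun x y => rfl
  refine ⟨f₁, ⟨fun x hx => ?_, fun y hy => ?_, fun r x y => ?_, fun r x y => ?_⟩⟩
  · obtain ⟨x, rfl⟩ := Submodule.Quotient.mk_surjective _ x
    rw [Submodule.Quotient.mk_eq_zero]
    exact dbl hf I x fun y hy => by
      rw [← h1 x ⟨y, hy⟩]
      exact hx ⟨y, hy⟩
  · refine Subtype.ext (hf.r _ fun x => ?_)
    rw [← h1 x y]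
    exact hy _
  · obtain ⟨x, rfl⟩ := Submodule.Quotient.mk_surjective _ x
    rw [← Submodule.Quotient.mk_smul, h1, h1]
    exact hf.a r _ _
  · obtain ⟨x, rfl⟩ := Submodule.Quotient.mk_surjective _ x
    rw [← Submodule.Quotient.mk_smul, h1, h1]
    exact hf.b r _ _

end Pair

theorem main (hM : StMul) {K R : Type} [Field K] [Ring R] [Algebra K R] {s : R → R} {S : Type}
    [AddCommGroup S] [Module K S] [Module R S] [IsScalarTower K R S] [FiniteDimensional K S]
    [IsSimpleModule R S] {h : S →ₗ[K] S →ₗ[K] K} (hh : AdF s h) : ∀ (n : ℕ) (M M' : Type)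
    [AddCommGroup M] [Module K M] [Module R M] [IsScalarTower K R M] [FiniteDimensional K M]
    [AddCommGroup M'] [Module K M'] [Module R M'] [IsScalarTower K R M'] [FiniteDimensional K M']
    (f : M →ₗ[K] M' →ₗ[K] K), Pf s f → Module.finrank K M = n → mlt R M S = mlt R M' S := by
  intro n
  induction n using Nat.strong_induction_on with
  | _ n ih =>
    intro M M' _ _ _ _ _ _ _ _ _ _ f hf hn
    rcases subsingleton_or_nontrivial M with hA | hA
    · have hA' : Subsingleton M' := ⟨fun y z => by
        rw [hf.r y fun x => by rw [Subsingleton.elim x 0, map_zero, LinearMap.zero_apply],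
          hf.r z fun x => by rw [Subsingleton.elim x 0, map_zero, LinearMap.zero_apply]]⟩
      rw [(hM R S).2.2.2.1 M, (hM R S).2.2.2.1 M']
    · have hart : IsArtinian R M := isArtinian_of_tower K inferInstance
      obtain ⟨I, hI, -⟩ := (eq_bot_or_exists_atom_le (⊤ : Submodule R M)).resolve_left top_ne_bot
      have hsim : IsSimpleModule R I := isSimpleModule_iff_isAtom.2 hI
      obtain ⟨f₁, hf₁⟩ := exists_form hf I
      have hfd1 : FiniteDimensional K (M ⧸ I) := VLAGA.fd_quot I
      have hfd2 : FiniteDimensional K (orth hf I) := VLAGA.fd_sub _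
      have hfd3 : FiniteDimensional K I := VLAGA.fd_sub _
      have hlt : Module.finrank K (M ⧸ I) < n := by
        have h1 := VLAGA.finrank_quot (K := K) I
        have : Nontrivial I := IsSimpleModule.nontrivial R I
        have h2 : 0 < Module.finrank K I := Module.finrank_pos
        omega
      have h1 := ih _ hlt (M ⧸ I) (orth hf I) f₁ hf₁ rfl
      have h2 := (hM R S).1 M (VLAGA.fin_len (K := K)) I
      have h3 := (hM R S).1 M' (VLAGA.fin_len (K := K)) (orth hf I)
      have h4 := simple hM hf I hh
      omega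

end ZDLT

/-- Module DLT (from MUL): multiplicities in dual modules of self-dual simple modules. -/
theorem stDlt (h : StMul) : StDlt := by
  intro K _ R _ _ s M M' _ _ _ _ _ _ _ _ _ _ f h1 h2 h3 h4 S _ _ _ _ _ _ g hg
  exact ZDLT.main h hg _ M M' f ⟨h1, h2, h3, h4⟩ rfl

end BKT
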