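import Pool.Agent.Lib.MP_7c08ba_nt.T1.StZ
import Pool.Agent.Lib.MP_7c08ba_nt.T1.WPWF
import Pool.Agent.Lib.MP_7c08ba_nt.T1.VPVF

set_option autoImplicit false

/-!
The parity theorem, with the criterion in terms of the semisimplification of the residual
representation: module PYF, the theorem.
-/

noncomputable section

namespace BKT

open NumberField BKGen BKMet
open Matrix

namespace ZPYF

/-- the cyclotomic character is invariant under complex conjugation -/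
theorem cycF_conj (p : ℕ) [Fact p.Prime] {F : Type} [Field F]
    {c : AlgebraicClosure F ≃+* AlgebraicClosure F} {σ : F ≃+* F} (hcs : BKOdd.ConjHyp c σ)
    (g : GF F) : cycF p F (BKOdd.conj c σ hcs.h g) = cycF p F g := by
  have h1 : MulSemiringAction.toRingAut (GF F) (AlgebraicClosure F) (BKOdd.conj c σ hcs.h g) =
      (c : RingAut (AlgebraicClosure F)) *
        MulSemiringAction.toRingAut (GF F) (AlgebraicClosure F) g *
        (c : RingAut (AlgebraicClosure F))⁻¹ := RingEquiv.ext fun x => rfl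
  change cyclotomicCharacter (AlgebraicClosure F) p _ = cyclotomicCharacter (AlgebraicClosure F) p _
  rw [h1, map_mul, map_mul, map_inv, mul_comm, inv_mul_cancel_left]

theorem conj_spec {F : Type} [Field F] {c : AlgebraicClosure F ≃+* AlgebraicClosure F}
    {σ : F ≃+* F} (hcs : BKOdd.ConjHyp c σ) (g : GF F) (z : AlgebraicClosure F) :
    BKOdd.conj c σ hcs.h g (c z) = c (g z) := by
  change c (g (c.symm (c z))) = c (g z)
  rw [RingEquiv.symm_apply_apply]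

section Ext

variable (p : ℕ) [Fact p.Prime] {F : Type} [Field F] {L L₀ : Type} [NormedField L]
  [NormedAlgebra ℚ_[p] L] [FiniteDimensional ℚ_[p] L] [NormedField L₀] [NormedAlgebra ℚ_[p] L₀]
  [FiniteDimensional ℚ_[p] L₀] (φ : L →ₐ[ℚ_[p]] L₀)

omit [FiniteDimensional ℚ_[p] L] [FiniteDimensional ℚ_[p] L₀] in
theorem chi_ext (g : BKS.GF F) : BKS.chi p L₀ g = φ (BKS.chi p L g) := by
  unfold BKS.chi
  rw [AlgHom.commutes]

/-- `U ⊗ L₀` -/
theorem isResRep_ext {m : ℕ} {U : BKS.GF F → Matrix (Fin m) (Fin m) L} (h : BKS.IsResRep U) :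
    BKS.IsResRep fun g => (U g).map φ := by
  refine ⟨fun g i j => ?_, fun i j => ?_, fun g k i j => ?_⟩
  · rw [Matrix.map_apply, WPWF.norm_map p φ]
    exact h.int g i j
  · have e : ((U 1).map φ - 1) i j = φ ((U 1 - 1) i j) := by
      rw [Matrix.sub_apply, Matrix.sub_apply, Matrix.map_apply, map_sub, Matrix.one_apply,
        Matrix.one_apply]
      split_ifs
      · rw [map_one]
      · rw [map_zero]
    rw [e, WPWF.norm_map p φ]
    exact h.one i j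
  · have e : ((U (g * k)).map φ - (U g).map φ * (U k).map φ) i j =
        φ ((U (g * k) - U g * U k) i j) := by
      rw [← Matrix.map_mul, Matrix.sub_apply, Matrix.sub_apply, Matrix.map_apply,
        Matrix.map_apply, map_sub]
    rw [e, WPWF.norm_map p φ]
    exact h.mul g k i j

theorem hyper_ext {n n' : ℕ} {V : BKS.Rep (BKS.GF F) L n} {V' : BKS.Rep (BKS.GF F) L n'}
    {c : AlgebraicClosure F ≃+* AlgebraicClosure F} (h : BKS.Hyper p V V' c) :
    BKS.Hyper p (BKS.ext (φ : L →+* L₀) V) (BKS.ext (φ : L →+* L₀) V') c := by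
  obtain ⟨m, U, hU, hc⟩ := h
  refine ⟨m, fun g => (U g).map φ, isResRep_ext p φ hU, fun g g' hg i => ?_⟩
  have e1 : ∀ {k : ℕ} (W : BKS.Rep (BKS.GF F) L k), (BKS.mat (BKS.ext (φ : L →+* L₀) W) g).charpoly =
      (BKS.mat W g).charpoly.map (φ : L →+* L₀) := by
    intro k W
    rw [← Matrix.charpoly_map]
    rfl
  have e2 : ((U g).map φ).charpoly = (U g).charpoly.map (φ : L →+* L₀) := by
    rw [← Matrix.charpoly_map]
    rfl
  have e3 : (BKS.chi p L₀ g • ((U g'⁻¹).map φ)ᵀ).charpoly =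
      (BKS.chi p L g • (U g'⁻¹)ᵀ).charpoly.map (φ : L →+* L₀) := by
    rw [← Matrix.charpoly_map]
    congr 1
    ext i j
    rw [Matrix.smul_apply, Matrix.transpose_apply, Matrix.map_apply, Matrix.map_apply,
      Matrix.smul_apply, Matrix.transpose_apply, smul_eq_mul, smul_eq_mul, chi_ext p φ, map_mul]
    rfl
  rw [e1, e1, e2, e3, ← Polynomial.map_mul, ← Polynomial.map_mul, ← Polynomial.map_sub,
    Polynomial.coeff_map]
  have h1 := hc g g' hg i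
  rw [← WPWF.norm_map p φ] at h1
  exact h1

end Ext

/-- the lattices, in the case of a hyperbolic semisimplification -/
theorem hyperMet (h2 : StCnh) (h4 : StLtx) (p : ℕ) [Fact p.Prime] (hp : p ≠ 2) (F : Type) [Field F]
    [NumberField F] (hF : Module.finrank ℚ F = 2)
    (c : AlgebraicClosure F ≃+* AlgebraicClosure F) (hc : BKS.IsConj c) (L : Type) [NormedField L]
    [NormedAlgebra ℚ_[p] L] [FiniteDimensional ℚ_[p] L] (n n' : ℕ) (V : BKS.Rep (GF F) L n)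
    (V' : BKS.Rep (GF F) L n') (B : Matrix (Fin n) (Fin n) L) (B' : Matrix (Fin n') (Fin n') L)
    (hV : BKS.IsRepU p V) (hV' : BKS.IsRepU p V') (hB : BKS.IsPol p V c B)
    (hB' : BKS.IsPol p V' c B') (h : BKS.Hyper p V V' c) :
    ∃ (L₂ : Type) (_ : NormedField L₂) (_ : NormedAlgebra ℚ_[p] L₂)
      (_ : FiniteDimensional ℚ_[p] L₂) (φ : L →ₐ[ℚ_[p]] L₂)
      (T N : AddSubgroup ((Fin n → L₂) × (Fin n' → L₂))),
      BKS.IsMet2 (φ : L →+* L₂) V B V' B' T N := by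
  obtain ⟨σ, hcs⟩ := BKS.exists_conjHyp hF hc
  obtain ⟨A, ρ, hρ⟩ := h4 p L (GF F) n V hV.cont
  obtain ⟨A', ρ', hρ'⟩ := h4 p L (GF F) n' V' hV'.cont
  obtain ⟨m, U, hU, hcg⟩ := h
  exact h2 p hp F L n n' V V' (VPVF.glB hB) A (VPVF.glB hB') A' ρ ρ' hρ hρ'
    (BKOdd.conj c σ hcs.h) (BKOdd.Conj.conj_conj hcs.h hcs.hc) (cycF p F)
    (cycF_conj p hcs) hB.1 hB'.1 (VPVF.isDual hcs hB) (VPVF.isDual hcs hB') m U hU
    (fun g i => hcg g (BKOdd.conj c σ hcs.h g) (conj_spec hcs g) i)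

/-- the parity, in the case of a hyperbolic semisimplification -/
theorem hyperPar (h1 : StPxf) (h2 : StCnh) (h3 : StIse) (h4 : StLtx) (h5 : StBch) (h6 : StBct)
    (h7 : StBcc) (p : ℕ) [Fact p.Prime] (hp : p ≠ 2) (F : Type) [Field F]
    [NumberField F] (hF : Module.finrank ℚ F = 2) (hIm : IsEmpty (F →+* ℝ)) (hs : BKS.Split p F)
    (c : AlgebraicClosure F ≃+* AlgebraicClosure F) (hc : BKS.IsConj c) (L : Type) [NormedField L]
    [NormedAlgebra ℚ_[p] L] [FiniteDimensional ℚ_[p] L] (n n' : ℕ) (V : BKS.Rep (GF F) L n)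
    (V' : BKS.Rep (GF F) L n') (B : Matrix (Fin n) (Fin n) L) (B' : Matrix (Fin n') (Fin n') L)
    (hV : BKS.IsRepU p V) (hV' : BKS.IsRepU p V') (hB : BKS.IsPol p V c B)
    (hB' : BKS.IsPol p V' c B') (h : BKS.Hyper p V V' c)
    (hloc : ∀ (l : ℕ) [Fact l.Prime], l ≠ p → ¬ BKS.Split l F →
      BKS.PrimeTo p l V ∧ BKS.PrimeTo p l V' ∨ BKS.LocIso l V V') :
    BKS.IsFin (BKS.H1f p V) ∧ BKS.IsFin (BKS.H1f p V') ∧ ∀ v : BKS.Emb p F,
      (BKS.dim (BKS.H1f p V) + BKS.tdim V v) % 2 =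
        (BKS.dim (BKS.H1f p V') + BKS.tdim V' v) % 2 := by
  have hPX := h1 p F hp hF hIm hs c hc
  obtain ⟨P, hP⟩ := hV.ram
  obtain ⟨P', hP'⟩ := hV'.ram
  classical
  let bad : ℕ → Prop := fun m => ∃ h : Fact m.Prime, m ≠ p ∧ ¬ BKS.Split m F ∧
    ¬ (BKS.PrimeTo p m V ∧ BKS.PrimeTo p m V')
  let κ : Type := {m : ℕ // m ∈ (P ∪ P').filter bad}
  let l : κ → ℕ := fun k => k.1
  have hbad : ∀ k : κ, bad (l k) := fun k => (Finset.mem_filter.1 k.2).2
  have hfact : ∀ k, Fact (l k).Prime := fun k => (hbad k).1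
  have hbad' : ∀ k : κ, l k ≠ p ∧ ¬ BKS.Split (l k) F ∧
      ¬ (BKS.PrimeTo p (l k) V ∧ BKS.PrimeTo p (l k) V') := fun k => (hbad k).2
  have hj : ∀ k, Nonempty (BKS.Emb (l k) F) := fun k => WPWF.emb_nonempty (l k) F
  let j : ∀ k, BKS.Emb (l k) F := fun k => (hj k).some
  have hiso : ∀ k, BKS.LocIso (l k) V V' := fun k =>
    (hloc (l k) (hbad' k).1 (hbad' k).2.1).resolve_left (hbad' k).2.2
  have hcov : ∀ (m : ℕ) [Fact m.Prime], m ≠ p → ¬ BKS.Split m F →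
      (BKS.PrimeTo p m V ∧ BKS.PrimeTo p m V') ∨ ∃ k : κ, l k = m := by
    intro m hm hmp hms
    by_cases hb : BKS.PrimeTo p m V ∧ BKS.PrimeTo p m V'
    · exact Or.inl hb
    · right
      have hmem : m ∈ P ∪ P' := by
        by_contra hcon
        rw [Finset.mem_union, not_or] at hcon
        exact hb ⟨hP m hmp hcon.1, hP' m hmp hcon.2⟩
      exact ⟨⟨m, Finset.mem_filter.2 ⟨hmem, ⟨hm, hmp, hms, hb⟩⟩⟩, rfl⟩
  have hinj : Function.Injective l := Subtype.val_injective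
  have hC : BKS.Covers p V l := ⟨hinj, fun k => (hbad' k).2.1, fun m hm hmp hms =>
    (hcov m hmp hms).imp_left fun h => h.1⟩
  have hC' : BKS.Covers p V' l := ⟨hinj, fun k => (hbad' k).2.1, fun m hm hmp hms =>
    (hcov m hmp hms).imp_left fun h => h.2⟩
  obtain ⟨L₀, i1, i2, i3, φ₀, hise⟩ := h3 p hp F hF hIm c hc L n n' V V' B B' hV hV' hB hB' κ l j
    (fun k => (hbad' k).1) (fun k => (hbad' k).2.1) hiso
  obtain ⟨a1, a2, a3⟩ := h7 p F L L₀ φ₀ n V hV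
  obtain ⟨b1, b2, b3⟩ := h7 p F L L₀ φ₀ n' V' hV'
  obtain ⟨-, c4, -⟩ := hPX L₀ n n' (BKS.ext (φ₀ : L →+* L₀) V)
    (BKS.ext (φ₀ : L →+* L₀) V') (B.map φ₀) (B'.map φ₀) a1 b1 (a2 c B hB) (b2 c B' hB')
  obtain ⟨L₂, i4, i5, i6, φ, T, N, hM⟩ := hyperMet h2 h4 p hp F hF c hc L₀ n n'
    (BKS.ext (φ₀ : L →+* L₀) V) (BKS.ext (φ₀ : L →+* L₀) V') (B.map φ₀) (B'.map φ₀) a1 b1
    (a2 c B hB) (b2 c B' hB') (hyper_ext p φ₀ h)
  obtain ⟨f1, f2, f3⟩ := (c4 L₂ φ T N hM).1 κ l j (a3 κ l hC) (b3 κ l hC')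
  obtain ⟨g1, g2⟩ := h5 p F L L₀ φ₀ n V f1
  obtain ⟨g1', g2'⟩ := h5 p F L L₀ φ₀ n' V' f2
  refine ⟨g1, g1', fun v => ?_⟩
  have e1 := f3 v
  rw [← g2, ← g2', (h6 p F L L₀ φ₀ n V v).2.2, (h6 p F L L₀ φ₀ n' V' v).2.2] at e1
  have e2 : (∑ k, BKS.loc2 (φ : L₀ →+* L₂) (BKS.ext (φ₀ : L →+* L₀) V)
      (BKS.ext (φ₀ : L →+* L₀) V') (j k) T N) % 2 = 0 := by
    have e3 : ∀ k ∈ Finset.univ, BKS.loc2 (φ : L₀ →+* L₂) (BKS.ext (φ₀ : L →+* L₀) V)
        (BKS.ext (φ₀ : L →+* L₀) V') (j k) T N % 2 = 0 := fun k _ => hise L₂ φ T N hM k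
    rw [Finset.sum_nat_mod, Finset.sum_eq_zero e3, Nat.zero_mod]
  omega

end ZPYF

open ZPYF in
/-- Module PYF. -/
theorem stPyf (h1 : StPxf) (h2 : StCnh) (h3 : StIse) (h4 : StLtx) (h5 : StBch) (h6 : StBct)
    (h7 : StBcc) : StPyf := by
  intro p _ F _ _ hp hF hIm hs c hc L _ _ _ n n' V V' B B' hV hV' hB hB'
  obtain ⟨k1, k2, k3⟩ := h1 p F hp hF hIm hs c hc L n n' V V' B B' hV hV' hB hB'
  refine ⟨?_, k2, ?_⟩
  · rintro (hcg | hhy | hno)
    · exact k1 (Or.inl hcg)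
    · exact hyperMet h2 h4 p hp F hF c hc L n n' V V' B B' hV hV' hB hB' hhy
    · exact k1 (Or.inr hno)
  · rintro (hcg | hhy | hno) hloc
    · exact k3 (Or.inl hcg) hloc
    · exact hyperPar h1 h2 h3 h4 h5 h6 h7 p hp F hF hIm hs c hc L n n' V V' B B' hV hV' hB hB'
        hhy hloc
    · exact k3 (Or.inr hno) hloc

end BKT
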