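import Pool.Agent.Lib.MP_7c08ba_nt.T1.StZ
import Pool.Agent.Lib.MP_7c08ba_nt.T1.VWIT

set_option autoImplicit false

/-!
Parity theorem: module WITH, the sum of two representations with forms has a Lagrangian subspace
if its semisimplification is the one of a sum of a representation and its dual.
-/

noncomputable section

namespace BKT

open Matrix

namespace ZWITH

open VWIT

section Anti

variable {K : Type} [Field K] {G : Type} [Group G] (c : G →* G) (x : G →* K)

/-- the anti-involution on the group -/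
def ahm : G →* (MonoidAlgebra K G)ᵐᵒᵖ where
  toFun g := MulOpposite.op (x g • MonoidAlgebra.of K G (c g)⁻¹)
  map_one' := by
    rw [map_one, map_one, inv_one, map_one, one_smul]
    rfl
  map_mul' g h := by
    rw [← MulOpposite.op_mul, map_mul, map_mul, _root_.mul_inv_rev, map_mul, smul_mul_smul_comm,
      mul_comm (x h) (x g)]

/-- the anti-involution on the group algebra -/
def sa (r : MonoidAlgebra K G) : MonoidAlgebra K G :=
  MulOpposite.unop (MonoidAlgebra.lift K (MonoidAlgebra K G)ᵐᵒᵖ G (ahm c x) r)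

theorem sa_of (g : G) : sa c x (MonoidAlgebra.of K G g) =
    x g • MonoidAlgebra.of K G (c g)⁻¹ := by
  rw [sa, MonoidAlgebra.lift_of]
  rfl

theorem sa_add (r₁ r₂ : MonoidAlgebra K G) : sa c x (r₁ + r₂) = sa c x r₁ + sa c x r₂ := by
  rw [sa, map_add]
  rfl

theorem sa_smul (a : K) (r : MonoidAlgebra K G) : sa c x (a • r) = a • sa c x r := by
  rw [sa, map_smul]
  rfl

variable {m : ℕ} (u : G →* GL (Fin m) K)

/-- the dual representation, in matrices -/
def dm : G →* Matrix (Fin m) (Fin m) K where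
  toFun g := x g • (u (c g)⁻¹ : Matrix (Fin m) (Fin m) K)ᵀ
  map_one' := by
    rw [map_one, map_one, inv_one, map_one, Units.val_one, transpose_one, one_smul]
  map_mul' g h := by
    rw [map_mul, map_mul, _root_.mul_inv_rev, map_mul, Units.val_mul, transpose_mul,
      smul_mul_smul_comm]

/-- the dual representation -/
def ud : G →* GL (Fin m) K := (dm c x u).toHomUnits

theorem ud_val (g : G) : (ud c x u g : Matrix (Fin m) (Fin m) K) =
    x g • (u (c g)⁻¹ : Matrix (Fin m) (Fin m) K)ᵀ := rfl

/-- the pairing -/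
def prg : RM u →ₗ[K] RM (ud c x u) →ₗ[K] K :=
  LinearMap.mk₂ K (fun a b => un u a ⬝ᵥ un (ud c x u) b)
    (fun a a' b => by rw [map_add, add_dotProduct])
    (fun t a b => by rw [map_smul, smul_dotProduct])
    (fun a b b' => by rw [map_add, dotProduct_add])
    (fun t a b => by rw [map_smul, dotProduct_smul])

theorem prg_apply (a : RM u) (b : RM (ud c x u)) :
    prg c x u a b = un u a ⬝ᵥ un (ud c x u) b := rfl

theorem dot_tr (M : Matrix (Fin m) (Fin m) K) (a b : Fin m → K) :
    (M *ᵥ a) ⬝ᵥ b = a ⬝ᵥ (Mᵀ *ᵥ b) := by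
  rw [mulVec_transpose, dotProduct_comm, dotProduct_mulVec, dotProduct_comm]

variable {c x}

theorem prg_adj1 (hc : ∀ g, c (c g) = g) (hx : ∀ g, x (c g) = x g)
    (r : MonoidAlgebra K G) : ∀ a b, prg c x u (r • a) b = prg c x u a (sa c x r • b) := by
  induction r using MonoidAlgebra.induction_on with
  | of g =>
    intro a b
    have h1 : (c (c g)⁻¹)⁻¹ = g := by rw [map_inv, inv_inv, hc]
    have h2 : x g * x (c g)⁻¹ = 1 := by
      rw [← hx g, ← map_mul, mul_inv_cancel, map_one]
    rw [prg_apply, prg_apply, of_smul, sa_of, smul_assoc, map_smul, of_smul, ud_val, dot_tr,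
      h1, smul_mulVec, smul_smul, h2, one_smul]
  | add r₁ r₂ e₁ e₂ =>
    intro a b
    rw [add_smul, map_add, LinearMap.add_apply, e₁, e₂, sa_add, add_smul, map_add]
  | smul t r e =>
    intro a b
    rw [smul_assoc t r a, (prg c x u).map_smul, LinearMap.smul_apply, e, sa_smul,
      smul_assoc t _ b, (prg c x u a).map_smul]

theorem prg_adj2 (r : MonoidAlgebra K G) :
    ∀ a b, prg c x u (sa c x r • a) b = prg c x u a (r • b) := by
  induction r using MonoidAlgebra.induction_on with
  | of g =>
    intro a b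
    rw [prg_apply, prg_apply, sa_of, smul_assoc, map_smul, of_smul, of_smul, ud_val,
      smul_dotProduct, dot_tr, smul_mulVec, dotProduct_smul]
  | add r₁ r₂ e₁ e₂ =>
    intro a b
    rw [sa_add, add_smul, map_add, LinearMap.add_apply, e₁, e₂, add_smul, map_add]
  | smul t r e =>
    intro a b
    rw [sa_smul, smul_assoc t _ a, (prg c x u).map_smul, LinearMap.smul_apply, e,
      smul_assoc t r b, (prg c x u a).map_smul]

theorem prg_perf1 (a : RM u) (h : ∀ b, prg c x u a b = 0) : a = 0 := by
  refine (un u).injective ?_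
  rw [map_zero]
  refine dotProduct_eq_zero _ fun z => ?_
  have h1 := h ((un (ud c x u)).symm z)
  rwa [prg_apply, LinearEquiv.apply_symm_apply] at h1

theorem prg_perf2 (b : RM (ud c x u)) (h : ∀ a, prg c x u a b = 0) : b = 0 := by
  refine (un (ud c x u)).injective ?_
  rw [map_zero]
  refine dotProduct_eq_zero _ fun z => ?_
  have h1 := h ((un u).symm z)
  rwa [prg_apply, LinearEquiv.apply_symm_apply, dotProduct_comm] at h1

end Anti

section Prod

variable {K : Type} [Field K] {G : Type} [Group G] {n n' : ℕ} (τ : G →* GL (Fin n) K)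
  (τ' : G →* GL (Fin n') K)

theorem gch_prod (g : G) : gch K (RM τ × RM τ') g =
    (τ g : Matrix (Fin n) (Fin n) K).charpoly * (τ' g : Matrix (Fin n') (Fin n') K).charpoly := by
  rw [← gch_eq τ g, ← gch_eq τ' g]
  unfold gch
  rw [← LinearMap.charpoly_prodMap]
  rfl

theorem mlt_prod (h3 : StMul) (S : Type) [AddCommGroup S] [Module (MonoidAlgebra K G) S]
    [IsSimpleModule (MonoidAlgebra K G) S] :
    mlt (MonoidAlgebra K G) (RM τ × RM τ') S =
      mlt (MonoidAlgebra K G) (RM τ) S + mlt (MonoidAlgebra K G) (RM τ') S := by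
  obtain ⟨hadd, hiso, -, -, -⟩ := h3 (MonoidAlgebra K G) S
  have hfl : IsFiniteLength (MonoidAlgebra K G) (RM τ × RM τ') := by
    rw [isFiniteLength_iff_isNoetherian_isArtinian]
    have e1 : IsNoetherian K (RM τ × RM τ') := inferInstance
    have e2 : IsArtinian K (RM τ × RM τ') := inferInstance
    exact ⟨isNoetherian_of_tower K e1, isArtinian_of_tower K e2⟩
  have e3 := hadd (RM τ × RM τ') hfl
    (LinearMap.range (LinearMap.inl (MonoidAlgebra K G) (RM τ) (RM τ')))
  have e4 := hiso _ _ (LinearEquiv.ofInjective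
    (LinearMap.inl (MonoidAlgebra K G) (RM τ) (RM τ')) LinearMap.inl_injective)
  have e5 := hiso _ _ ((Submodule.quotEquivOfEq _ _
    (LinearMap.range_inl (MonoidAlgebra K G) (RM τ) (RM τ'))).trans
    (LinearMap.quotKerEquivOfSurjective (LinearMap.snd (MonoidAlgebra K G) (RM τ) (RM τ'))
      LinearMap.snd_surjective))
  rw [← e4, e5] at e3
  exact e3

end Prod

end ZWITH

open VWIT ZWITH in
theorem stWitH (h1 : StLaga) (h2 : StBnt) (h3 : StMul) (h4 : StDlt) : StWitH := by
  intro p _ hp K _ _ _ G _ c hc x0 hx0 hxm hxc n n' m τ τ' u D D' hD hD' hu hu' hτ hτ' hch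
  have h2K : (2 : K) ≠ 0 := by
    intro h
    have h4 : ((2 : ℕ) : K) = 0 := by exact_mod_cast h
    rw [CharP.cast_eq_zero_iff K p] at h4
    exact hp ((Nat.prime_dvd_prime_iff_eq Fact.out Nat.prime_two).1 h4)
  have hx1 : x0 1 = 1 := by
    have h := hxm 1 1
    rw [mul_one] at h
    exact mul_left_cancel₀ (hx0 1) (by rw [← h, mul_one])
  obtain ⟨x, hx⟩ : ∃ x : G →* K, ∀ g, x g = x0 g := ⟨⟨⟨x0, hx1⟩, hxm⟩, fun _ => rfl⟩
  have hxc' : ∀ g, x (c g) = x g := fun g => by rw [hx, hx, hxc]
  -- the adjoints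
  have hs : ∀ r : MonoidAlgebra K G, ∀ y z : RM τ × RM τ',
      frm τ τ' D D' (r • y) z = frm τ τ' D D' y (sa c x r • z) := by
    intro r
    induction r using MonoidAlgebra.induction_on with
    | of g =>
      intro y z
      rw [sa_of, frm_apply, frm_apply, smul_assoc, Prod.smul_fst, Prod.smul_snd, Prod.smul_fst,
        Prod.smul_snd, Prod.smul_fst, Prod.smul_snd, (un τ).map_smul, (un τ').map_smul, of_smul,
        of_smul, of_smul, of_smul, dot_adj (hτ g), dot_adj (hτ' g), map_inv, map_inv, hx]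
    | add r₁ r₂ e₁ e₂ =>
      intro y z
      rw [add_smul, map_add, LinearMap.add_apply, e₁, e₂, sa_add, add_smul, map_add]
    | smul a r e =>
      intro y z
      rw [smul_assoc a r y, sa_smul, smul_assoc a _ z, (frm τ τ' D D').map_smul,
        LinearMap.smul_apply, e, (frm τ τ' D D' y).map_smul]
  have hF : AdF (sa c x) (frm τ τ' D D') := by
    refine ⟨?_, ?_, hs⟩
    · intro y z
      rw [frm_apply, frm_apply, dot_symm hD, dot_symm hD']
    · intro y h
      refine Prod.ext ((un τ).injective ?_) ((un τ').injective ?_)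
      · rw [Prod.fst_zero, map_zero]
        refine dot_perf hu _ fun z => ?_
        have h4 := h ((un τ).symm z, 0)
        rwa [frm_apply, map_zero, mulVec_zero, dotProduct_zero, sub_zero,
          LinearEquiv.apply_symm_apply] at h4
      · rw [Prod.snd_zero, map_zero]
        refine dot_perf hu' _ fun z => ?_
        have h4 := h (0, (un τ').symm z)
        rwa [frm_apply, map_zero, mulVec_zero, dotProduct_zero, zero_sub, neg_eq_zero,
          LinearEquiv.apply_symm_apply] at h4
  -- the multiplicities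
  have hev : ∀ (S : Type) [AddCommGroup S] [Module K S] [Module (MonoidAlgebra K G) S]
      [IsScalarTower K (MonoidAlgebra K G) S] [FiniteDimensional K S]
      [IsSimpleModule (MonoidAlgebra K G) S] (h : S →ₗ[K] S →ₗ[K] K), AdF (sa c x) h →
      Even (mlt (MonoidAlgebra K G) (RM τ × RM τ') S) := by
    intro S _ _ _ _ _ _ h hh
    have hbn := h2 p K G (RM τ × RM τ') (RM u × RM (ud c x u)) (fun g => by
      rw [gch_prod, gch_prod, hch, ud_val, hx]) S
    have hd := h4 K (MonoidAlgebra K G) (sa c x) (RM u) (RM (ud c x u)) (prg c x u)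
      (prg_perf1 u) (prg_perf2 u) (fun r a b => prg_adj1 u hc hxc' r a b)
      (fun r a b => prg_adj2 u r a b) S h hh
    rw [hbn, mlt_prod u (ud c x u) h3 S, ← hd]
    exact ⟨_, rfl⟩
  obtain ⟨P, hP⟩ := h1 K h2K (MonoidAlgebra K G) (sa c x) (RM τ × RM τ') (frm τ τ' D D') hF hev
  refine ⟨(P.restrictScalars K).map ((un τ).prodCongr (un τ')).toLinearMap, ?_, ?_⟩
  · rintro g - ⟨y, hy, rfl⟩
    refine ⟨MonoidAlgebra.of K G g • y, P.smul_mem _ hy, ?_⟩
    exact Prod.ext (of_smul τ g y.1) (of_smul τ' g y.2)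
  · intro y
    constructor
    · rintro ⟨y, hy, rfl⟩ - ⟨z, hz, rfl⟩
      exact (hP y).1 hy z hz
    · intro h
      refine ⟨((un τ).symm y.1, (un τ').symm y.2), (hP _).2 fun z hz => ?_, ?_⟩
      · have h4 := h _ ⟨z, hz, rfl⟩
        rw [frm_apply, LinearEquiv.apply_symm_apply, LinearEquiv.apply_symm_apply]
        exact h4
      · exact Prod.ext ((un τ).apply_symm_apply _) ((un τ').apply_symm_apply _)

end BKT
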