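import Pool.Agent.Lib.MP_7c08ba_nt.T1.AllN
import Pool.Agent.Lib.MP_7c08ba_nt.T1.VBCC
import Pool.Agent.Lib.MP_7c08ba_nt.T1.VBCH
import Pool.Agent.Lib.MP_7c08ba_nt.T1.VBCT
import Pool.Agent.Lib.MP_7c08ba_nt.T1.VBNA
import Pool.Agent.Lib.MP_7c08ba_nt.T1.VBNB
import Pool.Agent.Lib.MP_7c08ba_nt.T1.VBNT
import Pool.Agent.Lib.MP_7c08ba_nt.T1.VCNG
import Pool.Agent.Lib.MP_7c08ba_nt.T1.VDIA
import Pool.Agent.Lib.MP_7c08ba_nt.T1.VISM
import Pool.Agent.Lib.MP_7c08ba_nt.T1.VLAGA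
import Pool.Agent.Lib.MP_7c08ba_nt.T1.VLTX
import Pool.Agent.Lib.MP_7c08ba_nt.T1.VMUL
import Pool.Agent.Lib.MP_7c08ba_nt.T1.VNRM
import Pool.Agent.Lib.MP_7c08ba_nt.T1.VPVF
import Pool.Agent.Lib.MP_7c08ba_nt.T1.VRES
import Pool.Agent.Lib.MP_7c08ba_nt.T1.VTAU
import Pool.Agent.Lib.MP_7c08ba_nt.T1.VWIT
import Pool.Agent.Lib.MP_7c08ba_nt.T1.VXLT
import Pool.Agent.Lib.MP_7c08ba_nt.T1.WGCOL
import Pool.Agent.Lib.MP_7c08ba_nt.T1.WHYPL
import Pool.Agent.Lib.MP_7c08ba_nt.T1.WISE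
import Pool.Agent.Lib.MP_7c08ba_nt.T1.WLINV
import Pool.Agent.Lib.MP_7c08ba_nt.T1.WLNKL
import Pool.Agent.Lib.MP_7c08ba_nt.T1.WLOI
import Pool.Agent.Lib.MP_7c08ba_nt.T1.WPRPL
import Pool.Agent.Lib.MP_7c08ba_nt.T1.WPWF
import Pool.Agent.Lib.MP_7c08ba_nt.T1.WSQE
import Pool.Agent.Lib.MP_7c08ba_nt.T1.WSYML
import Pool.Agent.Lib.MP_7c08ba_nt.T1.WTRI
import Pool.Agent.Lib.MP_7c08ba_nt.T1.XLOP
import Pool.Agent.Lib.MP_7c08ba_nt.T1.XPXF
import Pool.Agent.Lib.MP_7c08ba_nt.T1.ZCNH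
import Pool.Agent.Lib.MP_7c08ba_nt.T1.ZDLT
import Pool.Agent.Lib.MP_7c08ba_nt.T1.ZPYF
import Pool.Agent.Lib.MP_7c08ba_nt.T1.ZWITH

set_option autoImplicit false

/-!
Parity for congruent representations and for residually hyperbolic representations: assembly of the
modules of the parts V, W, X, Z. The final theorem is `pyf : StPyf` (`ParityY`).
-/

noncomputable section

namespace BKT.AllV

open BKT BKT.All BKT.AllN

theorem mul : StMul := stMul
theorem laga : StLaga := stLaga mul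
theorem bna : StBna := stBna
theorem bnb : StBnb := stBnb bna
theorem bnt : StBnt := stBnt bnb mul
theorem wit : StWit := stWit laga bnt mul
theorem dia : StDia := stDia
theorem nrm : StNrm := stNrm dia
theorem tau' : StTau := stTau
theorem ltx : StLtx := stLtx latM
theorem ism : StIsm := stIsm
theorem bch : StBch := stBch'
theorem dlt' : StDlt := stDlt mul
theorem tri : StTri := stTri BKMet.All.alt
theorem syml : StSyml := stSyml
theorem prpl : StPrpl := stPrpl
theorem sqe : StSqe := stSqe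
theorem res : StRes := stRes ism
theorem xlt : StXlt := stXlt ism
theorem bct : StBct := stBct ism
theorem bcc : StBcc := stBcc ism bct
theorem cng : StCng := stCng res nrm tau' wit xlt
theorem pvf : StPvf := stPvf puf cng ltx bch bct bcc
theorem lnkl : StLnkl := stLnkl GNAll.npl GNAll.cnj GNAll.ncr GNAll.ncj GNAll.nlg
theorem gcol : StGcol := stGcol
theorem linv : StLinv := stLinv syml prpl gcol tri fxl BKMet.All.lam
theorem lop : StLop := stLop linv lnkl len fxl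
theorem loi : StLoi := stLoi linv lnkl len fxl
theorem witH : StWitH := stWitH laga bnt mul dlt'

theorem hypl : StHypl := stHypl linv gcol
theorem ise : StIse := stIse sqe lnkl hypl len fxl
theorem pwf : StPwf := stPwf pvf loi ise cng ltx bch bct bcc
theorem pxf : StPxf := stPxf pwf lop bct bcc

theorem cnh : StCnh := stCnh res nrm tau' witH xlt
/-- **The parity theorem.** -/
theorem pyf : StPyf := stPyf pxf cnh ise ltx bch bct bcc

end BKT.AllV
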