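import Pool.Agent.Lib.MP_7c08ba_nt.T1.StR
import Pool.Agent.Lib.MP_7c08ba_nt.Gen.Unram

set_option autoImplicit false

/-!
Module ABD: the automorphisms of the residue field of the algebraic closure commute. They are
determined by their action on the roots of unity of order prime to `l` (Teichmueller
representatives), and on these they are powers.
-/

namespace BKT

namespace RABD

/-- an element with `d' g = g d` acts on the roots of unity as `d` -/
theorem root_eq {Ω : Type} [Field Ω] {N : ℕ} [NeZero N] {ω : Ω} (hω : IsPrimitiveRoot ω N)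
    (g d d' : Ω ≃+* Ω) (h : ∀ x, d' (g x) = g (d x)) : d' ω = d ω := by
  have hg : IsPrimitiveRoot (g ω) N := hω.map_of_injective g.injective
  obtain ⟨m, -, hm⟩ := hg.eq_pow_of_pow_eq_one hω.pow_eq_one
  obtain ⟨b, -, hb⟩ := hω.eq_pow_of_pow_eq_one (ξ := d ω)
    (by rw [← map_pow, hω.pow_eq_one, map_one])
  calc d' ω = d' (g ω ^ m) := by rw [hm]
    _ = (g (d ω)) ^ m := by rw [map_pow, h]
    _ = (g (ω ^ b)) ^ m := by rw [hb]
    _ = (g ω ^ m) ^ b := by rw [map_pow, ← pow_mul, ← pow_mul, mul_comm]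
    _ = ω ^ b := by rw [hm]
    _ = d ω := hb

theorem near {l : ℕ} [Fact l.Prime] {a b c : PadicAlgCl l} (h1 : ‖a - b‖ < 1)
    (h2 : ‖b - c‖ < 1) : ‖a - c‖ < 1 := by
  have h : a - c = (a - b) + (b - c) := by ring
  rw [h]
  exact (IsUltrametricDist.norm_add_le_max _ _).trans_lt (max_lt h1 h2)

end RABD

/-- Module ABD: the automorphisms of the residue field of the algebraic closure commute. -/
theorem stAbd : StAbd := by
  intro l _ F _ _ j g hg d hd d' h
  have hd' : ∀ x, ‖j (d' x)‖ = ‖j x‖ := by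
    intro x
    obtain ⟨y, rfl⟩ := g.surjective x
    rw [h, hg, hg]
    exact hd y
  have hd0 : ∀ x, ‖j (d x)‖ = ‖j x‖ := hd
  intro y hy
  obtain ⟨x, rfl⟩ := d.surjective y
  have h1 : (d' * d⁻¹) (d x) = d' x := by
    rw [AlgEquiv.mul_apply, ← AlgEquiv.mul_apply d⁻¹ d x, inv_mul_cancel, AlgEquiv.one_apply]
  rw [h1, map_sub]
  rw [hd0] at hy
  rcases hy.lt_or_eq with hlt | heq
  · have h2 : ‖j (d' x) - 0‖ < 1 := by rw [sub_zero, hd']; exact hlt
    have h3 : ‖0 - j (d x)‖ < 1 := by rw [zero_sub, norm_neg, hd0]; exact hlt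
    exact RABD.near h2 h3
  · obtain ⟨N, ζ, hN, hζ, hx⟩ := BKGen.exists_root_near (j x) heq
    have hN0 : N ≠ 0 := by
      rintro rfl
      exact hN (dvd_zero _)
    have : NeZero N := ⟨hN0⟩
    have : NeZero (N : AlgebraicClosure F) := ⟨by exact_mod_cast hN0⟩
    obtain ⟨ω, hω⟩ := HasEnoughRootsOfUnity.exists_primitiveRoot (AlgebraicClosure F) N
    have hjω : IsPrimitiveRoot (j ω) N := hω.map_of_injective j.injective
    obtain ⟨i, -, hi⟩ := hjω.eq_pow_of_pow_eq_one hζ
    have h4 : ζ = j (ω ^ i) := by rw [map_pow, hi]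
    subst h4
    have h5 : d' ω = d ω :=
      RABD.root_eq hω g (d : AlgebraicClosure F ≃+* AlgebraicClosure F)
        (d' : AlgebraicClosure F ≃+* AlgebraicClosure F) h
    have h6 : d' (ω ^ i) = d (ω ^ i) := by rw [map_pow, map_pow, h5]
    have h7 : ‖j (d' x) - j (d' (ω ^ i))‖ < 1 := by
      rw [← map_sub, ← map_sub, hd', map_sub]
      exact hx
    have h8 : ‖j (d (ω ^ i)) - j (d x)‖ < 1 := by
      rw [← map_sub, ← map_sub, hd0, map_sub, ← norm_neg, neg_sub]
      exact hx
    rw [h6] at h7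
    exact RABD.near h7 h8

end BKT
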