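import Pool.Agent.Lib.MP_7c08ba_nt.T1.StR
import Pool.Agent.Lib.MP_7c08ba_nt.Met.XSD

set_option autoImplicit false
set_option linter.unusedSectionVars false

/-!
Module CLA: the invariants modulo `X` of `D` and of a Frobenius element.
-/

noncomputable section

namespace BKT

open NumberField BKGen BKMet

namespace RCLA

/-! ### Indices -/

section Idx

variable {W : Type} [AddCommGroup W]

theorem relIndex_map (f : W →+ W) {P Q : AddSubgroup W} (hPQ : P ≤ Q) (hK : f.ker ⊓ Q ≤ P) :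
    (P.map f).relIndex (Q.map f) = P.relIndex Q := by
  rw [AddSubgroup.relIndex_map_map]
  have h1 : Q ⊔ f.ker = Q ⊔ (P ⊔ f.ker) := by
    rw [← sup_assoc, sup_eq_left.2 hPQ]
  rw [h1, AddSubgroup.relIndex_sup_right, ← AddSubgroup.inf_relIndex_right,
    sup_inf_assoc_of_le _ hPQ, sup_eq_left.2 hK]

end Idx

/-! ### Lattices -/

section Lat

variable {p : ℕ} [Fact p.Prime] {L : Type} [NormedField L] [NormedAlgebra ℚ_[p] L]
  [FiniteDimensional ℚ_[p] L] {W : Type} [AddCommGroup W] [Module L W]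

theorem smul_def (a : OO p L) (x : W) : a • x = (a : L) • x := rfl

theorem pow_smul_inj (m : ℕ) {x : W} (h : pi0 p L ^ m • x = 0) : x = 0 := by
  rw [smul_def] at h
  have h1 : ((pi0 p L ^ m : OO p L) : L) ≠ 0 := by
    rw [Subring.coe_pow]
    exact pow_ne_zero _ (pi0_ne p L)
  exact (smul_eq_zero_iff_right h1).1 h

/-- the intersection of the lattices `π^m X` is zero -/
theorem eq_zero {X : Submodule (OO p L) W} (hX : X.FG) {x : W}
    (h : ∀ m : ℕ, ∃ y ∈ X, x = pi0 p L ^ m • y) : x = 0 := by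
  have hfin : Module.Finite (OO p L) X := Module.Finite.iff_fg.2 hX
  have hx : x ∈ X := by
    obtain ⟨y, hy, h1⟩ := h 0
    rw [pow_zero, one_smul] at h1
    rwa [h1]
  have h1 := Ideal.iInf_pow_smul_eq_bot_of_isLocalRing (M := X)
    (IsLocalRing.maximalIdeal (OO p L)) (IsLocalRing.maximalIdeal.isMaximal (OO p L)).ne_top
  have h2 : (⟨x, hx⟩ : X) ∈ (⨅ i : ℕ, IsLocalRing.maximalIdeal (OO p L) ^ i •
      (⊤ : Submodule (OO p L) X)) := by
    rw [Submodule.mem_iInf]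
    intro m
    obtain ⟨y, hy, h3⟩ := h m
    have h4 : (⟨x, hx⟩ : X) = pi0 p L ^ m • (⟨y, hy⟩ : X) := Subtype.ext h3
    rw [h4]
    refine Submodule.smul_mem_smul (Ideal.pow_mem_pow ?_ m) Submodule.mem_top
    rw [pi0_span]
    exact Ideal.mem_span_singleton_self _
  rw [h1, Submodule.mem_bot] at h2
  exact congrArg Subtype.val h2

/-- a uniform exponent -/
theorem exists_pow {P Q : Submodule (OO p L) W} (hQ : Q.FG)
    (h : ∀ x ∈ Q, ∃ r : ℕ, pi0 p L ^ r • x ∈ P) :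
    ∃ r : ℕ, ∀ x ∈ Q, pi0 p L ^ r • x ∈ P := by
  obtain ⟨s, hs⟩ := hQ
  have h1 : ∀ x : s, ∃ r : ℕ, pi0 p L ^ r • (x : W) ∈ P := fun x =>
    h x (by rw [← hs]; exact Submodule.subset_span x.2)
  choose r hr using h1
  refine ⟨∑ x, r x, fun x hx => ?_⟩
  rw [← hs] at hx
  induction hx using Submodule.span_induction with
  | mem x hx =>
    have h2 : ∑ y, r y = (∑ y, r y - r ⟨x, hx⟩) + r ⟨x, hx⟩ := by
      have := Finset.single_le_sum (f := r) (fun i _ => Nat.zero_le _)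
        (Finset.mem_univ (⟨x, hx⟩ : s))
      omega
    rw [h2, pow_add, mul_smul]
    exact P.smul_mem _ (hr ⟨x, hx⟩)
  | zero =>
    rw [smul_zero]
    exact P.zero_mem
  | add x y _ _ hx hy =>
    rw [smul_add]
    exact P.add_mem hx hy
  | smul a x _ hx =>
    rw [smul_comm]
    exact P.smul_mem _ hx

/-- the index is finite -/
theorem relIndex_ne {P Q : Submodule (OO p L) W} (hQ : Q.FG)
    (h : ∀ x ∈ Q, ∃ r : ℕ, pi0 p L ^ r • x ∈ P) :
    P.toAddSubgroup.relIndex Q.toAddSubgroup ≠ 0 := by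
  obtain ⟨r, hr⟩ := exists_pow hQ h
  have hfin : Module.Finite (OO p L) Q := Module.Finite.iff_fg.2 hQ
  have h1 : P.toAddSubgroup.relIndex Q.toAddSubgroup = Nat.card (↥Q ⧸ P.comap Q.subtype) := rfl
  have hT : Module.IsTorsionBySet (OO p L) (↥Q ⧸ P.comap Q.subtype)
      (Ideal.span {pi0 p L ^ r} : Ideal (OO p L)) := by
    rintro y ⟨a, ha⟩
    obtain ⟨x, rfl⟩ := Submodule.mkQ_surjective _ y
    obtain ⟨b, rfl⟩ := Ideal.mem_span_singleton.1 ha
    change (pi0 p L ^ r * b) • _ = _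
    rw [← map_smul, Submodule.mkQ_apply, Submodule.Quotient.mk_eq_zero, Submodule.mem_comap,
      mul_comm, mul_smul]
    exact P.smul_mem _ (hr _ x.2)
  let iM : Module (OO p L ⧸ (Ideal.span {pi0 p L ^ r} : Ideal (OO p L)))
      (↥Q ⧸ P.comap Q.subtype) := hT.module
  have hf : Module.Finite (OO p L ⧸ (Ideal.span {pi0 p L ^ r} : Ideal (OO p L)))
      (↥Q ⧸ P.comap Q.subtype) := by
    obtain ⟨s, hs⟩ := (inferInstance : Module.Finite (OO p L) (↥Q ⧸ P.comap Q.subtype)).fg_top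
    refine ⟨⟨s, ?_⟩⟩
    rw [eq_top_iff]
    intro y _
    have hy : y ∈ Submodule.span (OO p L) (s : Set (↥Q ⧸ P.comap Q.subtype)) := by
      rw [hs]
      exact Submodule.mem_top
    induction hy using Submodule.span_induction with
    | mem x hx => exact Submodule.subset_span hx
    | zero => exact Submodule.zero_mem _
    | add x y _ _ hx hy => exact Submodule.add_mem _ (hx Submodule.mem_top) (hy Submodule.mem_top)
    | smul a x _ hx =>
      exact Submodule.smul_mem _ (Ideal.Quotient.mk _ a) (hx Submodule.mem_top)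
  have hfin2 : Finite (↥Q ⧸ P.comap Q.subtype) :=
    Module.finite_of_finite (OO p L ⧸ (Ideal.span {pi0 p L ^ r} : Ideal (OO p L)))
  rw [h1]
  exact Nat.card_pos.ne'

theorem fg_of_le {P Q : Submodule (OO p L) W} (hQ : Q.FG) (h : P ≤ Q) : P.FG := by
  have hfin : Module.Finite (OO p L) Q := Module.Finite.iff_fg.2 hQ
  have h1 : IsNoetherian (OO p L) Q := inferInstance
  have h2 : (P.comap Q.subtype).FG := IsNoetherian.noetherian _
  have h3 := h2.map Q.subtype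
  rwa [Submodule.map_comap_subtype, inf_eq_right.2 h] at h3

end Lat

/-! ### The representation -/

section Rep

variable {p : ℕ} [Fact p.Prime] {D : Type} [Group D] {I : Subgroup D} {χ : D →* ℤ_[p]ˣ}
  {e : D → ℤ_[p]} {σ : D →* D} {s t : D} {a : ℤ_[p]ˣ} {L : Type} [NormedField L]
  [NormedAlgebra ℚ_[p] L] [FiniteDimensional ℚ_[p] L] {W : Type} [AddCommGroup W] [Module L W]
  {ρ : D →* (W ≃ₗ[L] W)} {φ : D} {X : Submodule (OO p L) W}

theorem rho_smul (d : D) (b : OO p L) (x : W) : ρ d (b • x) = b • ρ d x :=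
  map_smul (ρ d) (b : L) x

theorem rho_mul (d d' : D) (x : W) : ρ (d * d') x = ρ d (ρ d' x) := by
  rw [map_mul]
  rfl

/-- the map `ρ d - 1` -/
def dif (ρ : D →* (W ≃ₗ[L] W)) (d : D) : W →ₗ[OO p L] W :=
  ((ρ d : W →ₗ[L] W) - 1).restrictScalars (OO p L)

theorem dif_apply (d : D) (x : W) : dif (p := p) ρ d x = ρ d x - x := rfl

theorem e_one (h : TamG p I χ e σ s t a) : e 1 = 0 := by
  have h1 := h.hom 1 I.one_mem 1 I.one_mem
  rw [mul_one] at h1
  exact left_eq_add.1 h1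

theorem e_pow (h : TamG p I χ e σ s t a) (k : ℕ) : e (t ^ k) = k := by
  induction k with
  | zero => rw [pow_zero, e_one h, Nat.cast_zero]
  | succ k ih => rw [pow_succ, h.hom _ (I.pow_mem h.tI k) _ h.tI, ih, h.te, Nat.cast_succ]

theorem e_inv (h : TamG p I χ e σ s t a) (i : D) (hi : i ∈ I) : e i⁻¹ = - e i := by
  have h1 := h.hom i hi i⁻¹ (I.inv_mem hi)
  rw [mul_inv_cancel, e_one h] at h1
  exact eq_neg_of_add_eq_zero_right h1.symm

/-- if `x` is fixed by `d` then by its powers -/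
theorem pow_fix {d : D} {x : W} (h : ρ d x = x) (k : ℕ) : ρ (d ^ k) x = x := by
  induction k with
  | zero => rw [pow_zero, map_one]; rfl
  | succ k ih => rw [pow_succ, rho_mul, h, ih]

/-- the vectors fixed by `t` are fixed by `I` -/
theorem fix_of_t (h : TamG p I χ e σ s t a) (hX : LatD I e φ ρ X) {x : W} (hx : ρ t x = x) :
    x ∈ fixW I ρ := by
  obtain ⟨r, hr⟩ := hX.span x
  intro i hi
  have key : ρ i (pi0 p L ^ r • x) - pi0 p L ^ r • x = 0 := by
    refine eq_zero hX.fg fun m => ?_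
    obtain ⟨M, hM⟩ := hX.actI m
    set k := (e i).appr M with hk
    have h1 : (p : ℤ_[p]) ^ M ∣ e (i * (t ^ k)⁻¹) := by
      rw [h.hom i hi _ (I.inv_mem (I.pow_mem h.tI k)), e_inv h _ (I.pow_mem h.tI k), e_pow h,
        ← sub_eq_add_neg]
      exact Ideal.mem_span_singleton.1 (PadicInt.appr_spec M (e i))
    obtain ⟨y, hy, hxy⟩ := hM _ (I.mul_mem hi (I.inv_mem (I.pow_mem h.tI k))) h1 _ hr
    refine ⟨y, hy, ?_⟩
    have h2 : ρ (t ^ k) (pi0 p L ^ r • x) = pi0 p L ^ r • x := by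
      rw [rho_smul, pow_fix hx]
    have h3 : ρ i (pi0 p L ^ r • x) = ρ (i * (t ^ k)⁻¹) (pi0 p L ^ r • x) := by
      conv_rhs => rw [← h2]
      rw [← rho_mul, inv_mul_cancel_right]
    rw [h3, hxy, add_sub_cancel_left]
  rw [rho_smul, ← smul_sub] at key
  exact sub_eq_zero.1 (pow_smul_inj r key)

/-- the vectors fixed by `I` and by `φ` are fixed by `D` -/
theorem fix_of_phi (hX : LatD I e φ ρ X) {x : W} (hx : x ∈ fixW I ρ) (hφ : ρ φ x = x) (d : D) :
    ρ d x = x := by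
  obtain ⟨r, hr⟩ := hX.span x
  have key : ρ d (pi0 p L ^ r • x) - pi0 p L ^ r • x = 0 := by
    refine eq_zero hX.fg fun m => ?_
    obtain ⟨k, i, hi, hM⟩ := hX.actD m d
    obtain ⟨y, hy, hxy⟩ := hM _ hr
    refine ⟨y, hy, ?_⟩
    have h2 : ρ (φ ^ k * i) (pi0 p L ^ r • x) = pi0 p L ^ r • x := by
      rw [rho_smul, rho_mul, hx i hi, pow_fix hφ]
    rw [hxy, h2, add_sub_cancel_left]
  rw [rho_smul, ← smul_sub] at key
  exact sub_eq_zero.1 (pow_smul_inj r key)

theorem fix_stab (h : TamG p I χ e σ s t a) {x : W} (hx : x ∈ fixW I ρ) (d : D) :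
    ρ d x ∈ fixW I ρ := by
  intro i hi
  have h1 : i * d = d * (d⁻¹ * i * d⁻¹⁻¹) := by group
  rw [← rho_mul, h1, rho_mul, hx _ (h.normal d⁻¹ i hi)]

/-- `φ - 1` is injective on the vectors fixed by `I` -/
theorem dif_inj (hinv : ∀ x, (∀ d, ρ d x = x) → x = 0) (hX : LatD I e φ ρ X) {x : W}
    (hx : x ∈ fixW I ρ) (h : dif (p := p) ρ φ x = 0) : x = 0 :=
  hinv x fun d => fix_of_phi hX hx (sub_eq_zero.1 h) d

/-- `φ - 1` is surjective on the vectors fixed by `I` -/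
theorem dif_surj [FiniteDimensional L W] (h : TamG p I χ e σ s t a)
    (hinv : ∀ x, (∀ d, ρ d x = x) → x = 0) (hX : LatD I e φ ρ X) {y : W} (hy : y ∈ fixW I ρ) :
    ∃ x ∈ fixW I ρ, dif (p := p) ρ φ x = y := by
  let g : fixW I ρ →ₗ[L] fixW I ρ :=
    LinearMap.codRestrict _ (((ρ φ : W →ₗ[L] W) - 1) ∘ₗ (fixW I ρ).subtype) fun x =>
      (fixW I ρ).sub_mem (fix_stab h x.2 φ) x.2
  have hg : Function.Injective g := by
    rw [injective_iff_map_eq_zero]
    intro x hx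
    exact Subtype.ext (dif_inj (p := p) hinv hX x.2 (congrArg Subtype.val hx))
  obtain ⟨x, hx⟩ := LinearMap.injective_iff_surjective.1 hg ⟨y, hy⟩
  exact ⟨x, x.2, congrArg Subtype.val hx⟩

theorem fix_le : (fixW I ρ).restrictScalars (OO p L) ≤ modW I ρ X := by
  intro x hx i hi
  rw [hx i hi, sub_self]
  exact X.zero_mem

theorem le_mod (hX : LatD I e φ ρ X) (J : Subgroup D) : X ≤ modW J ρ X :=
  fun x hx i _ => X.sub_mem (hX.stab i x hx) hx

theorem mod_top_le : modW ⊤ ρ X ≤ modW I ρ X := fun _ hx i _ => hx i trivial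

theorem add_le (hX : LatD I e φ ρ X) : addW I ρ X ≤ modW I ρ X :=
  sup_le (le_mod hX I) fix_le

/-- the invariants modulo `X` -/
theorem mem_top (hX : LatD I e φ ρ X) {x : W} (hx : x ∈ modW I ρ X) (hφ : ρ φ x - x ∈ X) :
    x ∈ modW ⊤ ρ X := by
  intro d _
  obtain ⟨r, hr⟩ := hX.span x
  obtain ⟨k, i, hi, hM⟩ := hX.actD r d
  obtain ⟨y, hy, hxy⟩ := hM _ hr
  have h1 : ρ d x - ρ (φ ^ k * i) x - y = 0 := by
    refine pow_smul_inj (p := p) (L := L) r ?_
    rw [smul_sub, smul_sub, ← rho_smul, ← rho_smul, hxy, add_sub_cancel_left, sub_self]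
  have h2 : ∀ k : ℕ, ρ (φ ^ k) x - x ∈ X := by
    intro k
    induction k with
    | zero =>
      rw [pow_zero, map_one]
      change x - x ∈ X
      rw [sub_self]
      exact X.zero_mem
    | succ k ih =>
      have h3 : ρ (φ ^ (k + 1)) x - x = ρ (φ ^ k) (ρ φ x - x) + (ρ (φ ^ k) x - x) := by
        rw [pow_succ, rho_mul, map_sub]
        abel
      rw [h3]
      exact X.add_mem (hX.stab _ _ hφ) ih
  have h3 : ρ d x - x = y + (ρ (φ ^ k) (ρ i x - x) + (ρ (φ ^ k) x - x)) := by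
    have h4 : y = ρ d x - ρ (φ ^ k * i) x := (sub_eq_zero.1 h1).symm
    rw [h4, rho_mul, map_sub]
    abel
  rw [h3]
  exact X.add_mem hy (X.add_mem (hX.stab _ _ (hx i hi)) (h2 k))

/-- part (1) -/
theorem index_ne (h : TamG p I χ e σ s t a) (hX : LatD I e φ ρ X) :
    (addW I ρ X).toAddSubgroup.relIndex (modW I ρ X).toAddSubgroup ≠ 0 := by
  have hker : ∀ x, dif (p := p) ρ t x = 0 → x ∈ fixW I ρ := fun x hx =>
    fix_of_t h hX (sub_eq_zero.1 hx)
  have h1 := relIndex_map (dif (p := p) ρ t).toAddMonoidHom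
    (P := (addW I ρ X).toAddSubgroup) (Q := (modW I ρ X).toAddSubgroup) (add_le hX) (by
      rintro x ⟨hx, -⟩
      exact Submodule.mem_sup_right (hker x hx))
  rw [← h1]
  have h2 := relIndex_ne (p := p) (L := L) (P := (addW I ρ X).map (dif (p := p) ρ t))
    (Q := (modW I ρ X).map (dif (p := p) ρ t)) ?_ ?_
  · exact h2
  · refine fg_of_le hX.fg ?_
    rintro _ ⟨x, hx, rfl⟩
    exact hx t h.tI
  · rintro _ ⟨x, -, rfl⟩
    obtain ⟨r, hr⟩ := hX.span x
    refine ⟨r, ?_⟩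
    rw [← map_smul]
    exact ⟨_, Submodule.mem_sup_left hr, rfl⟩

/-- the vectors `w` of `W^I` with `(φ - 1) w ∈ X` -/
def GX (I : Subgroup D) (ρ : D →* (W ≃ₗ[L] W)) (φ : D) (X : Submodule (OO p L) W) :
    Submodule (OO p L) W :=
  (fixW I ρ).restrictScalars (OO p L) ⊓ X.comap (dif ρ φ)

/-- the vectors of `X` fixed by `I` -/
def YX (I : Subgroup D) (ρ : D →* (W ≃ₗ[L] W)) (X : Submodule (OO p L) W) :
    Submodule (OO p L) W :=
  (fixW I ρ).restrictScalars (OO p L) ⊓ X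

theorem YX_le (hX : LatD I e φ ρ X) : YX I ρ X ≤ GX I ρ φ X :=
  fun x hx => ⟨hx.1, X.sub_mem (hX.stab φ x hx.2) hx.2⟩

theorem map_GX [FiniteDimensional L W] (h : TamG p I χ e σ s t a)
    (hinv : ∀ x, (∀ d, ρ d x = x) → x = 0) (hX : LatD I e φ ρ X) :
    (GX I ρ φ X).map (dif ρ φ) = YX I ρ X := by
  apply le_antisymm
  · rintro _ ⟨x, hx, rfl⟩
    exact ⟨(fixW I ρ).sub_mem (fix_stab h hx.1 φ) hx.1, hx.2⟩
  · rintro y ⟨hy, hyX⟩
    obtain ⟨x, hx, rfl⟩ := dif_surj (p := p) h hinv hX hy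
    exact ⟨x, ⟨hx, hyX⟩, rfl⟩

theorem GX_fg [FiniteDimensional L W] (h : TamG p I χ e σ s t a)
    (hinv : ∀ x, (∀ d, ρ d x = x) → x = 0) (hX : LatD I e φ ρ X) : (GX I ρ φ X).FG := by
  refine Submodule.fg_of_fg_map_of_fg_inf_ker (dif ρ φ) ?_ ?_
  · rw [map_GX h hinv hX]
    exact fg_of_le hX.fg inf_le_right
  · have h1 : GX I ρ φ X ⊓ LinearMap.ker (dif (p := p) ρ φ) = ⊥ := by
      rw [eq_bot_iff]
      rintro x ⟨hx, hk⟩
      exact dif_inj (p := p) hinv hX hx.1 hk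
    rw [h1]
    exact Submodule.fg_bot

theorem index_YG [FiniteDimensional L W] (h : TamG p I χ e σ s t a)
    (hinv : ∀ x, (∀ d, ρ d x = x) → x = 0) (hX : LatD I e φ ρ X) :
    (YX I ρ X).toAddSubgroup.relIndex (GX I ρ φ X).toAddSubgroup ≠ 0 := by
  refine relIndex_ne (GX_fg h hinv hX) fun x hx => ?_
  obtain ⟨r, hr⟩ := hX.span x
  exact ⟨r, (fixW I ρ).smul_mem _ hx.1, hr⟩

/-- the index of `Y_X` in `G_X` is the same for two lattices -/
theorem index_eq [FiniteDimensional L W] (h : TamG p I χ e σ s t a)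
    (hinv : ∀ x, (∀ d, ρ d x = x) → x = 0) {T N : Submodule (OO p L) W} (hT : LatD I e φ ρ T)
    (hN : LatD I e φ ρ N) (hNT : N ≤ T) :
    (YX I ρ N).toAddSubgroup.relIndex (GX I ρ φ N).toAddSubgroup =
      (YX I ρ T).toAddSubgroup.relIndex (GX I ρ φ T).toAddSubgroup := by
  have hG : GX I ρ φ N ≤ GX I ρ φ T := fun x hx => ⟨hx.1, hNT hx.2⟩
  have hY : YX I ρ N ≤ YX I ρ T := fun x hx => ⟨hx.1, hNT hx.2⟩
  have h1 := relIndex_map (dif (p := p) ρ φ).toAddMonoidHom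
    (P := (GX I ρ φ N).toAddSubgroup) (Q := (GX I ρ φ T).toAddSubgroup) hG (by
      rintro x ⟨hk, hx⟩
      rw [dif_inj (p := p) hinv hT hx.1 hk]
      exact AddSubgroup.zero_mem _)
  have h2 : ((GX I ρ φ N).map (dif ρ φ)).toAddSubgroup.relIndex
      ((GX I ρ φ T).map (dif ρ φ)).toAddSubgroup =
      (GX I ρ φ N).toAddSubgroup.relIndex (GX I ρ φ T).toAddSubgroup := h1
  rw [map_GX h hinv hN, map_GX h hinv hT] at h2
  have h3 : (YX I ρ N).toAddSubgroup.relIndex (YX I ρ T).toAddSubgroup ≠ 0 := by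
    refine relIndex_ne (fg_of_le hT.fg inf_le_right) fun x hx => ?_
    obtain ⟨r, hr⟩ := hN.span x
    exact ⟨r, (fixW I ρ).smul_mem _ hx.1, hr⟩
  have h4 := AddSubgroup.relIndex_mul_relIndex (YX I ρ N).toAddSubgroup (YX I ρ T).toAddSubgroup
    (GX I ρ φ T).toAddSubgroup hY (YX_le hT)
  have h5 := AddSubgroup.relIndex_mul_relIndex (YX I ρ N).toAddSubgroup (GX I ρ φ N).toAddSubgroup
    (GX I ρ φ T).toAddSubgroup (YX_le hN) hG
  rw [← h4, ← h2, mul_comm] at h5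
  exact Nat.eq_of_mul_eq_mul_left (Nat.pos_of_ne_zero h3) h5

theorem relIndex_congr {P Q Q' : Submodule (OO p L) W} (h : Q = Q') :
    P.toAddSubgroup.relIndex Q.toAddSubgroup = P.toAddSubgroup.relIndex Q'.toAddSubgroup := by
  rw [h]

theorem relIndex_sup {P Q : Submodule (OO p L) W} :
    P.toAddSubgroup.relIndex (Q ⊔ P).toAddSubgroup = P.toAddSubgroup.relIndex Q.toAddSubgroup := by
  have h1 : (Q ⊔ P).toAddSubgroup = Q.toAddSubgroup ⊔ P.toAddSubgroup :=
    Submodule.sup_toAddSubgroup Q P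
  rw [h1, AddSubgroup.relIndex_sup_right]

theorem relIndex_inf {P Q : Submodule (OO p L) W} :
    (P ⊓ Q).toAddSubgroup.relIndex Q.toAddSubgroup = P.toAddSubgroup.relIndex Q.toAddSubgroup := by
  have h1 : (P ⊓ Q).toAddSubgroup = P.toAddSubgroup ⊓ Q.toAddSubgroup := rfl
  rw [h1, AddSubgroup.inf_relIndex_right]

/-- part (2) -/
theorem index_top [FiniteDimensional L W] (h : TamG p I χ e σ s t a)
    (hinv : ∀ x, (∀ d, ρ d x = x) → x = 0) (hX : LatD I e φ ρ X) (A : Submodule (OO p L) W)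
    (hA : ∀ y, y ∈ A ↔ y ∈ modW I ρ X ∧ ρ φ y - y ∈ addW I ρ X) :
    X.toAddSubgroup.relIndex (modW ⊤ ρ X).toAddSubgroup =
      (YX I ρ X).toAddSubgroup.relIndex (GX I ρ φ X).toAddSubgroup *
        (addW I ρ X).toAddSubgroup.relIndex A.toAddSubgroup := by
  have hA1 : A = modW ⊤ ρ X ⊔ addW I ρ X := by
    apply le_antisymm
    · intro y hy
      obtain ⟨hy1, hy2⟩ := (hA y).1 hy
      obtain ⟨x₀, hx₀, w₀, hw₀, hxw⟩ := Submodule.mem_sup.1 hy2
      obtain ⟨w₁, hw₁, hw⟩ := dif_surj (p := p) h hinv hX hw₀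
      rw [dif_apply] at hw
      have h1 : y - w₁ ∈ modW ⊤ ρ X := by
        refine mem_top hX (Submodule.sub_mem _ hy1 (fix_le hw₁)) ?_
        have h2 : ρ φ (y - w₁) - (y - w₁) = x₀ := by
          rw [map_sub, sub_sub_sub_comm, hw, ← hxw, add_sub_cancel_right]
        rw [h2]
        exact hx₀
      have h2 : y = (y - w₁) + w₁ := (sub_add_cancel _ _).symm
      rw [h2]
      exact Submodule.add_mem_sup h1 (Submodule.mem_sup_right hw₁)
    · refine sup_le ?_ (sup_le ?_ ?_)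
      · intro y hy
        exact (hA y).2 ⟨mod_top_le hy, Submodule.mem_sup_left (hy φ trivial)⟩
      · intro y hy
        exact (hA y).2 ⟨le_mod hX I hy, Submodule.mem_sup_left (X.sub_mem (hX.stab φ y hy) hy)⟩
      · intro y hy
        exact (hA y).2 ⟨fix_le hy,
          Submodule.mem_sup_right ((fixW I ρ).sub_mem (fix_stab h hy φ) hy)⟩
  have h1 : (addW I ρ X).toAddSubgroup.relIndex A.toAddSubgroup =
      (addW I ρ X ⊓ modW ⊤ ρ X).toAddSubgroup.relIndex (modW ⊤ ρ X).toAddSubgroup := by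
    rw [relIndex_inf, hA1, relIndex_sup]
  have h2 : addW I ρ X ⊓ modW ⊤ ρ X = GX I ρ φ X ⊔ X := by
    apply le_antisymm
    · rintro y ⟨hy1, hy2⟩
      obtain ⟨x, hx, w, hw, rfl⟩ := Submodule.mem_sup.1 hy1
      have h3 : w ∈ modW ⊤ ρ X := by
        have h4 : w = (x + w) - x := (add_sub_cancel_left _ _).symm
        rw [h4]
        exact Submodule.sub_mem _ hy2 (le_mod hX ⊤ hx)
      rw [add_comm]
      exact Submodule.add_mem_sup ⟨hw, h3 φ trivial⟩ hx
    · refine sup_le ?_ ?_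
      · rintro w ⟨hw, hwX⟩
        exact ⟨Submodule.mem_sup_right hw, mem_top hX (fix_le hw) hwX⟩
      · intro x hx
        exact ⟨Submodule.mem_sup_left hx, le_mod hX ⊤ hx⟩
  have h3 : X.toAddSubgroup.relIndex (addW I ρ X ⊓ modW ⊤ ρ X).toAddSubgroup =
      (YX I ρ X).toAddSubgroup.relIndex (GX I ρ φ X).toAddSubgroup := by
    have h4 : X ⊓ GX I ρ φ X = YX I ρ X := by
      apply le_antisymm
      · rintro x ⟨hx, hxG⟩
        exact ⟨hxG.1, hx⟩
      · intro x hx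
        exact ⟨hx.2, YX_le hX hx⟩
    rw [h2, relIndex_sup, ← h4, relIndex_inf]
  have h4 := AddSubgroup.relIndex_mul_relIndex X.toAddSubgroup
    (addW I ρ X ⊓ modW ⊤ ρ X).toAddSubgroup (modW ⊤ ρ X).toAddSubgroup
    (fun x hx => ⟨Submodule.mem_sup_left hx, le_mod hX ⊤ hx⟩) (fun x hx => hx.2)
  rw [← h4, h3, h1]

end Rep

end RCLA

open RCLA

theorem stCla : StCla := by
  intro p _ D _ I χ e σ s t a h L _ _ _ W _ _ _ ρ hinv φ T N hT hN hNT
  obtain ⟨k, hk⟩ := BKMet.XSD.relIndex_pow (OO p L) (YX I ρ T) (GX I ρ φ T)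
    (index_YG h hinv hT)
  refine ⟨k, ?_⟩
  rintro X (rfl | rfl)
  · refine ⟨index_ne h hT, fun A hA => ?_⟩
    rw [index_top h hinv hT A hA, hk]
  · refine ⟨index_ne h hN, fun A hA => ?_⟩
    rw [index_top h hinv hN A hA, index_eq h hinv hT hN hNT, hk]

end BKT
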