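import Pool.Agent.Lib.MP_7c08ba_nt.T1.RCLA
import Pool.Agent.Lib.MP_7c08ba_nt.Met.LLAM

set_option autoImplicit false
set_option linter.unusedSectionVars false

/-!
Module CLB: the parity of the length of the invariants of a Frobenius element.
-/

noncomputable section

namespace BKT

open BKGen BKMet

namespace RCLB

/-! ### Linear algebra modulo a submodule of finite index -/

section Fit

variable {R V : Type} [CommRing R] [AddCommGroup V] [Module R V]

theorem finite_quot (B M : Submodule R V)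
    (hfin : B.toAddSubgroup.relIndex M.toAddSubgroup ≠ 0) : Finite (M ⧸ B.submoduleOf M) := by
  have h1 : Nat.card (M ⧸ B.submoduleOf M) = B.toAddSubgroup.relIndex M.toAddSubgroup := by
    rw [AddSubgroup.relIndex, AddSubgroup.index]
    rfl
  exact Nat.finite_of_card_ne_zero (h1.trans_ne hfin)

theorem qm_le (B M : Submodule R V) (g : V →ₗ[R] V) (hM : ∀ x ∈ M, g x ∈ M)
    (hB : ∀ x ∈ B, g x ∈ B) :
    B.submoduleOf M ≤ (B.submoduleOf M).comap (g.restrict hM) := by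
  intro x hx
  exact hB _ hx

/-- the map induced on `M / B` -/
def qm (B M : Submodule R V) (g : V →ₗ[R] V) (hM : ∀ x ∈ M, g x ∈ M) (hB : ∀ x ∈ B, g x ∈ B) :
    (M ⧸ B.submoduleOf M) →ₗ[R] (M ⧸ B.submoduleOf M) :=
  (B.submoduleOf M).mapQ (B.submoduleOf M) (g.restrict hM) (qm_le B M g hM hB)

theorem pow_mem {M : Submodule R V} {g : V →ₗ[R] V} (hM : ∀ x ∈ M, g x ∈ M) (n : ℕ) :
    ∀ x ∈ M, (g ^ n) x ∈ M := by
  induction n with
  | zero => exact fun x hx => hx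
  | succ n ih =>
    intro x hx
    rw [pow_succ', Module.End.mul_apply]
    exact hM _ (ih x hx)

theorem qm_pow (B M : Submodule R V) (g : V →ₗ[R] V) (hM : ∀ x ∈ M, g x ∈ M)
    (hB : ∀ x ∈ B, g x ∈ B) (n : ℕ) (x : V) (hx : x ∈ M) :
    ((qm B M g hM hB) ^ n) (Submodule.Quotient.mk ⟨x, hx⟩) =
      Submodule.Quotient.mk ⟨(g ^ n) x, pow_mem hM n x hx⟩ := by
  induction n with
  | zero => rfl
  | succ n ih =>
    rw [pow_succ', Module.End.mul_apply, ih]
    rw [qm, Submodule.mapQ_apply]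
    congr 1
    apply Subtype.ext
    change g ((g ^ n) x) = (g ^ (n + 1)) x
    rw [pow_succ', Module.End.mul_apply]

theorem mk_eq_zero (B M : Submodule R V) (x : V) (hx : x ∈ M) :
    (Submodule.Quotient.mk ⟨x, hx⟩ : M ⧸ B.submoduleOf M) = 0 ↔ x ∈ B := by
  rw [Submodule.Quotient.mk_eq_zero]
  rfl

/-- the Fitting decomposition -/
theorem fit (B M : Submodule R V) (hfin : B.toAddSubgroup.relIndex M.toAddSubgroup ≠ 0)
    (g : V →ₗ[R] V) (hM : ∀ x ∈ M, g x ∈ M) (hB : ∀ x ∈ B, g x ∈ B) :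
    ∃ N₀ : ℕ, ∀ N ≥ N₀, ∀ z ∈ M, ∃ z' ∈ M, (g ^ N) (z - (g ^ N) z') ∈ B := by
  have hf := finite_quot B M hfin
  obtain ⟨N₀, hN₀⟩ := Filter.eventually_atTop.1
    (qm B M g hM hB).eventually_codisjoint_ker_pow_range_pow
  refine ⟨N₀, fun N hNN z hz => ?_⟩
  have hN := hN₀ N hNN
  have h1 : (Submodule.Quotient.mk ⟨z, hz⟩ : M ⧸ B.submoduleOf M) ∈
      LinearMap.ker ((qm B M g hM hB) ^ N) ⊔ LinearMap.range ((qm B M g hM hB) ^ N) := by
    rw [codisjoint_iff.1 hN]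
    trivial
  obtain ⟨a, ha, b, hb, hab⟩ := Submodule.mem_sup.1 h1
  obtain ⟨c, rfl⟩ := hb
  obtain ⟨⟨z', hz'⟩, rfl⟩ := Submodule.Quotient.mk_surjective _ c
  refine ⟨z', hz', ?_⟩
  have h2 : a = Submodule.Quotient.mk ⟨z - (g ^ N) z', M.sub_mem hz (pow_mem hM N z' hz')⟩ := by
    rw [qm_pow] at hab
    rw [eq_sub_of_add_eq hab]
    rfl
  rw [LinearMap.mem_ker, h2, qm_pow, mk_eq_zero] at ha
  exact ha

theorem sq_sub {A : Type} [Ring A] (v : A) : (v - 1) * (2 + (v - 1)) = v * v - 1 := by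
  have h : (2 : A) = 1 + 1 := by norm_num
  rw [h]
  noncomm_ring

theorem sq_sub' {A : Type} [Ring A] (v : A) : (2 + (v - 1)) * (v - 1) = v ^ 2 - 1 := by
  have h : (2 : A) = 1 + 1 := by norm_num
  rw [h]
  noncomm_ring

/-- an operator `f` with `f - 1` nilpotent on a finite module of odd order -/
theorem unip (h2 : IsUnit (2 : R)) (B G : Submodule R V)
    (hfin : B.toAddSubgroup.relIndex G.toAddSubgroup ≠ 0)
    (f : V →ₗ[R] V) (hG : ∀ x ∈ G, f x ∈ G) (hB : ∀ x ∈ B, f x ∈ B)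
    (hn : ∀ x ∈ G, ∃ K : ℕ, ((f - 1) ^ K) x ∈ B) (k : ℕ) :
    (∃ c : ℕ, 1 ≤ c ∧ ∀ x ∈ G, (f ^ (2 * c)) x - (f ^ k) x ∈ B) ∧
    (∃ r : ℕ, 1 ≤ r ∧ ∀ x ∈ G, (f ^ r) x - x ∈ B) ∧
    (∀ x ∈ G, f (f x) - x ∈ B → f x - x ∈ B) := by
  have hf := finite_quot B G hfin
  set Q := G ⧸ B.submoduleOf G with hQ
  set u : Module.End R Q := qm B G f hG hB with hu
  have hfE : Finite (Module.End R Q) := by
    exact Finite.of_injective (fun g : Module.End R Q => (g : Q → Q)) DFunLike.coe_injective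
  -- `u - 1` is nilpotent
  have hsub : ∀ x (hx : x ∈ G), (u - 1) (Submodule.Quotient.mk ⟨x, hx⟩) =
      Submodule.Quotient.mk ⟨(f - 1) x, G.sub_mem (hG x hx) hx⟩ := by
    intro x hx
    rfl
  have hsubG : ∀ x ∈ G, (f - 1) x ∈ G := fun x hx => G.sub_mem (hG x hx) hx
  have hpow : ∀ (K : ℕ) x (hx : x ∈ G), ((u - 1) ^ K) (Submodule.Quotient.mk ⟨x, hx⟩) =
      Submodule.Quotient.mk ⟨((f - 1) ^ K) x, pow_mem hsubG K x hx⟩ := by
    intro K
    induction K with
    | zero => intro x hx; rfl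
    | succ K ih =>
      intro x hx
      rw [pow_succ', Module.End.mul_apply, ih, hsub]
      congr 1
      apply Subtype.ext
      change (f - 1) (((f - 1) ^ K) x) = ((f - 1) ^ (K + 1)) x
      rw [pow_succ', Module.End.mul_apply]
  have hnil : IsNilpotent (u - 1) := by
    have h1 : ∀ q : Q, ∃ K : ℕ, ((u - 1) ^ K) q = 0 := by
      intro q
      obtain ⟨⟨x, hx⟩, rfl⟩ := Submodule.Quotient.mk_surjective _ q
      obtain ⟨K, hK⟩ := hn x hx
      refine ⟨K, ?_⟩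
      rw [hpow, mk_eq_zero]
      exact hK
    choose K hK using h1
    obtain ⟨N, hN⟩ := (Set.finite_range K).bddAbove
    refine ⟨N, LinearMap.ext fun q => ?_⟩
    have h3 : K q ≤ N := hN ⟨q, rfl⟩
    obtain ⟨j, rfl⟩ := Nat.exists_eq_add_of_le h3
    rw [add_comm, pow_add, Module.End.mul_apply, hK, map_zero]
    rfl
  have h2E : IsUnit (2 : Module.End R Q) := by
    have h3 := h2.map (algebraMap R (Module.End R Q))
    rwa [map_ofNat] at h3
  have hun : ∀ v : Module.End R Q, IsNilpotent v → IsUnit (2 + v) := by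
    intro v hv
    exact (hv.isUnit_add_left_of_commute h2E (Commute.ofNat_right v 2))
  have huu : IsUnit u := by
    have h3 := hnil.isUnit_one_add
    rwa [add_sub_cancel] at h3
  obtain ⟨U, hU⟩ := huu
  have hr0 : 0 < orderOf U := orderOf_pos U
  have hr1 : u ^ orderOf U = 1 := by
    have h3 := pow_orderOf_eq_one U
    have h4 := congrArg (fun z : (Module.End R Q)ˣ => (z : Module.End R Q)) h3
    change ((U ^ orderOf U : (Module.End R Q)ˣ) : Module.End R Q) = 1 at h4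
    rwa [Units.val_pow_eq_pow_val, hU] at h4
  have hodd : ¬ Even (orderOf U) := by
    rintro ⟨c, hc⟩
    have hc0 : 0 < c := by omega
    have h3 : IsNilpotent (u ^ c - 1) := by
      rw [← geom_sum_mul]
      refine Commute.isNilpotent_mul_left ?_ hnil
      exact Commute.sub_right (Commute.sum_left _ _ _ fun i _ => Commute.pow_left rfl i)
        (Commute.one_right _)
    have h4 : (u ^ c - 1) * (2 + (u ^ c - 1)) = 0 := by
      have h5 : u ^ c * u ^ c = 1 := by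
        rw [← pow_add, ← hc, hr1]
      rw [sq_sub, h5, sub_self]
    have h5 : u ^ c - 1 = 0 := ((hun _ h3).mul_left_eq_zero).1 h4
    have h6 : U ^ c = 1 := by
      apply Units.ext
      rw [Units.val_pow_eq_pow_val, hU, Units.val_one]
      exact sub_eq_zero.1 h5
    have h7 := Nat.le_of_dvd hc0 (orderOf_dvd_of_pow_eq_one h6)
    omega
  set r := orderOf U with hr
  refine ⟨⟨k * ((r + 1) / 2) + r, by omega, ?_⟩, ⟨r, hr0, ?_⟩, ?_⟩
  · intro x hx
    have h3 : u ^ (2 * (k * ((r + 1) / 2) + r)) = u ^ k := by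
      have h4 : 2 * (k * ((r + 1) / 2) + r) = r * (k + 2) + k := by
        rw [Nat.not_even_iff_odd] at hodd
        obtain ⟨c, hc⟩ := hodd
        have h5 : (r + 1) / 2 = c + 1 := by omega
        rw [h5, hc]
        ring
      rw [h4, pow_add, pow_mul, hr1, one_pow, one_mul]
    have h4 : (u ^ (2 * (k * ((r + 1) / 2) + r))) (Submodule.Quotient.mk ⟨x, hx⟩) =
        (u ^ k) (Submodule.Quotient.mk ⟨x, hx⟩) := by rw [h3]
    rw [hu, qm_pow, qm_pow] at h4
    exact (Submodule.Quotient.eq (B.submoduleOf G)).1 h4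
  · intro x hx
    have h4 : (u ^ r) (Submodule.Quotient.mk ⟨x, hx⟩) = Submodule.Quotient.mk ⟨x, hx⟩ := by
      rw [hr1]
      rfl
    rw [hu, qm_pow] at h4
    exact (Submodule.Quotient.eq (B.submoduleOf G)).1 h4
  · intro x hx hx2
    have h3 : (2 + (u - 1)) ((u - 1) (Submodule.Quotient.mk ⟨x, hx⟩)) = 0 := by
      rw [← Module.End.mul_apply, sq_sub', LinearMap.sub_apply, hu, qm_pow, sub_eq_zero]
      refine (Submodule.Quotient.eq _).2 ?_
      exact hx2
    obtain ⟨w, hw⟩ := hun _ hnil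
    have h5 : (u - 1) (Submodule.Quotient.mk ⟨x, hx⟩) = 0 := by
      have h6 : ((w⁻¹ : (Module.End R Q)ˣ) : Module.End R Q) * (2 + (u - 1)) = 1 := by
        rw [← hw, Units.inv_mul]
      have h7 := congrArg (fun g : Module.End R Q =>
        g ((u - 1) (Submodule.Quotient.mk ⟨x, hx⟩))) h6
      simp only [Module.End.mul_apply, h3, map_zero] at h7
      exact h7.symm
    rw [hsub, mk_eq_zero] at h5
    exact h5

end Fit

/-! ### The form -/

section Core

variable {p : ℕ} [Fact p.Prime] {L : Type} [NormedField L] [NormedAlgebra ℚ_[p] L]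

theorem cl_eq_zero (x : ℚ_[p]) : cl p x = 0 ↔ ‖x‖ ≤ 1 := by
  rw [cl, Submodule.Quotient.mk_eq_zero, LinearMap.mem_range]
  constructor
  · rintro ⟨y, rfl⟩
    exact PadicInt.norm_le_one y
  · intro h
    exact ⟨⟨x, h⟩, rfl⟩

theorem isUnit_two (hp : p ≠ 2) : IsUnit (2 : OO p L) := by
  rw [OO.isUnit_iff]
  have h1 : (((2 : OO p L) : OO p L) : L) = algebraMap ℚ_[p] L ((2 : ℕ) : ℚ_[p]) := by
    rw [map_natCast]
    rfl
  rw [h1, norm_algebraMap']
  rw [Padic.norm_natCast_eq_one_iff]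
  exact (Nat.coprime_primes Fact.out Nat.prime_two).2 hp

variable [FiniteDimensional ℚ_[p] L] {W : Type} [AddCommGroup W] [Module L W]

theorem core (hAlt : BKMet.StAlt) {lam : L →ₗ[ℚ_[p]] ℚ_[p]} (hlam : IsLam p L lam) (hp : p ≠ 2)
    (B M : Submodule (OO p L) W) (hBM : B ≤ M)
    (hfin : B.toAddSubgroup.relIndex M.toAddSubgroup ≠ 0)
    (F : W →ₗ[L] W) (hFM : ∀ x ∈ M, F x ∈ M) (hFB : ∀ x ∈ B, F x ∈ B)
    (β : W →ₗ[L] W →ₗ[L] L)
    (h1 : ∀ x ∈ B, ∀ z ∈ M, β x z ∈ OO p L) (h2 : ∀ x ∈ M, ∀ z ∈ B, β x z ∈ OO p L)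
    (k₀ : ℕ) (hsym : ∀ x ∈ M, ∀ z ∈ M, β z x - β x ((F ^ k₀) z) ∈ OO p L)
    (hF : ∀ x ∈ M, ∀ z ∈ M, β (F x) (F z) - β x z ∈ OO p L)
    (hker : ∀ z ∈ M, (∀ x ∈ M, β x z ∈ OO p L) → z ∈ B)
    (A : Submodule (OO p L) W) (hA : ∀ y, y ∈ A ↔ y ∈ M ∧ F y - y ∈ B)
    (m : ℕ) (hMu : Mu F B M m) :
    ∃ k : ℕ, B.toAddSubgroup.relIndex A.toAddSubgroup = Nat.card (kk p L) ^ k ∧
      (m + k) % 2 = 0 := by
  obtain ⟨-, G, hG, hGm⟩ := hMu
  have hq : 1 < Nat.card (kk p L) := Finite.one_lt_card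
  have hBA : B ≤ A := fun y hy => (hA y).2 ⟨hBM hy, B.sub_mem (hFB y hy) hy⟩
  have hAG : A ≤ G := fun y hy => (hG y).2 ⟨((hA y).1 hy).1, 1, by
    rw [pow_one]
    exact ((hA y).1 hy).2⟩
  have hmulI : B.toAddSubgroup.relIndex A.toAddSubgroup *
      A.toAddSubgroup.relIndex G.toAddSubgroup = B.toAddSubgroup.relIndex G.toAddSubgroup :=
    AddSubgroup.relIndex_mul_relIndex B.toAddSubgroup A.toAddSubgroup G.toAddSubgroup
      (fun _ h => hBA h) (fun _ h => hAG h)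
  have hGM : G ≤ M := fun y hy => ((hG y).1 hy).1
  have hGfin : B.toAddSubgroup.relIndex G.toAddSubgroup ≠ 0 := by
    rw [hGm]
    exact pow_ne_zero _ (by omega)
  -- the powers of `F`
  have hFMn : ∀ n : ℕ, ∀ x ∈ M, (F ^ n) x ∈ M := by
    intro n
    induction n with
    | zero => exact fun x hx => hx
    | succ n ih =>
      intro x hx
      rw [pow_succ', Module.End.mul_apply]
      exact hFM _ (ih x hx)
  have hFBn : ∀ n : ℕ, ∀ x ∈ B, (F ^ n) x ∈ B := by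
    intro n
    induction n with
    | zero => exact fun x hx => hx
    | succ n ih =>
      intro x hx
      rw [pow_succ', Module.End.mul_apply]
      exact hFB _ (ih x hx)
  have hFG : ∀ x ∈ G, F x ∈ G := by
    intro x hx
    obtain ⟨hx1, K, hK⟩ := (hG x).1 hx
    refine (hG _).2 ⟨hFM x hx1, K, ?_⟩
    have h3 : ((F - 1) ^ K) (F x) = F (((F - 1) ^ K) x) := by
      have h4 : (F - 1) ^ K * F = F * (F - 1) ^ K :=
        (Commute.pow_left (Commute.sub_left (Commute.refl F) (Commute.one_left F)) K)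
      exact congrArg (fun g : Module.End L W => g x) h4
    rw [h3]
    exact hFB _ hK
  have hFGn : ∀ n : ℕ, ∀ x ∈ G, (F ^ n) x ∈ G := by
    intro n
    induction n with
    | zero => exact fun x hx => hx
    | succ n ih =>
      intro x hx
      rw [pow_succ', Module.End.mul_apply]
      exact hFG _ (ih x hx)
  have hFn : ∀ n : ℕ, ∀ x ∈ M, ∀ z ∈ M, β ((F ^ n) x) ((F ^ n) z) - β x z ∈ OO p L := by
    intro n
    induction n with
    | zero =>
      intro x hx z hz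
      rw [pow_zero, Module.End.one_apply, Module.End.one_apply, sub_self]
      exact (OO p L).zero_mem
    | succ n ih =>
      intro x hx z hz
      have h3 := hF _ (hFMn n x hx) _ (hFMn n z hz)
      have h4 := ih x hx z hz
      have h5 := (OO p L).add_mem h3 h4
      rw [sub_add_sub_cancel] at h5
      rw [pow_succ', Module.End.mul_apply, Module.End.mul_apply]
      exact h5
  -- the abstract facts
  set f : W →ₗ[OO p L] W := F.restrictScalars (OO p L) with hf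
  have hfn : ∀ (n : ℕ) (x : W), (f ^ n) x = (F ^ n) x := by
    intro n
    induction n with
    | zero => intro x; rfl
    | succ n ih =>
      intro x
      rw [pow_succ', pow_succ', Module.End.mul_apply, Module.End.mul_apply, ih]
      rfl
  have hfn1 : ∀ (n : ℕ) (x : W), ((f - 1) ^ n) x = ((F - 1) ^ n) x := by
    intro n
    induction n with
    | zero => intro x; rfl
    | succ n ih =>
      intro x
      rw [pow_succ', pow_succ', Module.End.mul_apply, Module.End.mul_apply, ih]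
      rfl
  obtain ⟨⟨c, hc1, hc⟩, ⟨r, hr1, hr⟩, hinj⟩ := unip (isUnit_two hp) B G hGfin f hFG hFB (by
    intro x hx
    obtain ⟨-, K, hK⟩ := (hG x).1 hx
    exact ⟨K, by rw [hfn1]; exact hK⟩) k₀
  simp only [hfn] at hc hr
  obtain ⟨N, hN⟩ := fit B M hfin (f - 1) (fun x hx => M.sub_mem (hFM x hx) hx)
    (fun x hx => B.sub_mem (hFB x hx) hx)
  simp only [hfn1] at hN
  -- periodicity
  have hper : ∀ j : ℕ, ∀ x ∈ G, (F ^ (r * j)) x - x ∈ B := by
    intro j
    induction j with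
    | zero =>
      intro x hx
      rw [mul_zero, pow_zero, Module.End.one_apply, sub_self]
      exact B.zero_mem
    | succ j ih =>
      intro x hx
      have h3 := ih _ (hFGn r x hx)
      have h4 := B.add_mem h3 (hr x hx)
      rw [sub_add_sub_cancel] at h4
      rw [mul_add, mul_one, pow_add, Module.End.mul_apply]
      exact h4
  have hback : ∀ j : ℕ, ∀ x ∈ G, (F ^ j) x ∈ B → x ∈ B := by
    intro j x hx h
    have h3 := hFBn ((r - 1) * j) _ h
    rw [← Module.End.mul_apply, ← pow_add] at h3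
    have h4 : (r - 1) * j + j = r * j := by
      obtain ⟨r', rfl⟩ := Nat.exists_eq_add_of_le hr1
      rw [Nat.add_sub_cancel_left]
      ring
    rw [h4] at h3
    have h5 := B.sub_mem h3 (hper j x hx)
    rwa [sub_sub_cancel] at h5
  have hsurj : ∀ j : ℕ, ∀ y ∈ G, ∃ y' ∈ G, (F ^ j) y' - y ∈ B := by
    intro j y hy
    refine ⟨(F ^ ((r - 1) * j)) y, hFGn _ y hy, ?_⟩
    rw [← Module.End.mul_apply, ← pow_add]
    have h4 : j + (r - 1) * j = r * j := by
      obtain ⟨r', rfl⟩ := Nat.exists_eq_add_of_le hr1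
      rw [Nat.add_sub_cancel_left]
      ring
    rw [h4]
    exact hper j y hy
  -- the left kernel
  have hK : ∀ j : ℕ, ∀ w ∈ G, ((F - 1) ^ j) w ∈ B → ∀ v ∈ M, β w (((F - 1) ^ j) v) ∈ OO p L := by
    intro j
    induction j with
    | zero => exact fun w _ hw v hv => h1 w hw v hv
    | succ j ih =>
      intro w hw hw2 v hv
      set v' := ((F - 1) ^ j) v with hv'
      have hv'M : v' ∈ M := by
        have := pow_mem (g := f - 1) (M := M) (fun x hx => M.sub_mem (hFM x hx) hx) j v hv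
        rwa [hfn1] at this
      obtain ⟨w', hw', hww⟩ := hsurj 1 w hw
      rw [pow_one] at hww
      -- `β w (F v') ≡ β (F w') (F v') ≡ β w' v'`
      have e1 : β (F w') (F v') - β w (F v') ∈ OO p L := by
        rw [← LinearMap.sub_apply, ← map_sub]
        exact h1 _ hww _ (hFM _ hv'M)
      have e2 := hF w' (hGM hw') v' hv'M
      have e3 : β (F w') v' - β w v' ∈ OO p L := by
        rw [← LinearMap.sub_apply, ← map_sub]
        exact h1 _ hww _ hv'M
      have e4 : β ((F - 1) w') v' ∈ OO p L := by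
        refine ih _ (G.sub_mem (hFG _ hw') hw') ?_ v hv
        change ((F - 1) ^ j) ((F - 1) w') ∈ B
        rw [← Module.End.mul_apply, ← pow_succ]
        refine hback 1 _ ?_ ?_
        · have := pow_mem (g := f - 1) (M := G) (fun x hx => G.sub_mem (hFG x hx) hx) (j + 1) w' hw'
          rwa [hfn1] at this
        · rw [pow_one]
          have h5 : F (((F - 1) ^ (j + 1)) w') = ((F - 1) ^ (j + 1)) (F w') := by
            have h4 : F * (F - 1) ^ (j + 1) = (F - 1) ^ (j + 1) * F :=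
              (Commute.pow_right (Commute.sub_right (Commute.refl F) (Commute.one_right F)) (j + 1))
            exact congrArg (fun g : Module.End L W => g w') h4
          rw [h5]
          have h6 : ((F - 1) ^ (j + 1)) (F w' - w) ∈ B := by
            have := pow_mem (g := f - 1) (M := B) (fun x hx => B.sub_mem (hFB x hx) hx) (j + 1)
              _ hww
            rwa [hfn1] at this
          have h7 := B.add_mem h6 hw2
          rwa [map_sub, sub_add_cancel] at h7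
      rw [pow_succ', Module.End.mul_apply, ← hv']
      have e5 : β w ((F - 1) v') = β w (F v') - β w v' := by
        rw [LinearMap.sub_apply, Module.End.one_apply, map_sub]
      have e6 : β ((F - 1) w') v' = β (F w') v' - β w' v' := by
        rw [LinearMap.sub_apply, Module.End.one_apply, map_sub, LinearMap.sub_apply]
      rw [e6] at e4
      rw [e5]
      have e7 := (OO p L).add_mem ((OO p L).sub_mem e2 e1) ((OO p L).sub_mem e3 e4)
      have e8 : β (F w') (F v') - β w' v' - (β (F w') (F v') - β w (F v')) +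
          (β (F w') v' - β w v' - (β (F w') v' - β w' v')) = β w (F v') - β w v' := by ring
      rwa [e8] at e7
  have hleft : ∀ w ∈ G, (∀ y ∈ G, β w y ∈ OO p L) → w ∈ B := by
    intro w hw hwy
    refine hback k₀ w hw (hker _ (hFMn _ _ (hGM hw)) fun x hx => ?_)
    have h3 : β w x ∈ OO p L := by
      obtain ⟨-, K, hK'⟩ := (hG w).1 hw
      have hgM : ∀ y ∈ M, (f - 1) y ∈ M := fun y hy => M.sub_mem (hFM y hy) hy
      have hgB : ∀ y ∈ B, (f - 1) y ∈ B := fun y hy => B.sub_mem (hFB y hy) hy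
      obtain ⟨z', hz', hz⟩ := hN (max N K) (le_max_left _ _) x hx
      have e1 : ((F - 1) ^ max N K) z' ∈ M := by
        have := pow_mem hgM (max N K) z' hz'
        rwa [hfn1] at this
      have e2 : ((F - 1) ^ max N K) w ∈ B := by
        obtain ⟨j, hj⟩ := Nat.exists_eq_add_of_le (le_max_right N K)
        rw [hj, add_comm, pow_add, Module.End.mul_apply, ← hfn1 j]
        exact pow_mem hgB j _ hK'
      have e3 := hK (max N K) w hw e2 z' hz'
      have e4 := hwy (x - ((F - 1) ^ max N K) z') ((hG _).2 ⟨M.sub_mem hx e1, max N K, hz⟩)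
      have e5 := (OO p L).add_mem e4 e3
      rwa [← map_add, sub_add_cancel] at e5
    have h4 := (OO p L).sub_mem h3 (hsym x hx w (hGM hw))
    rwa [sub_sub_cancel] at h4
  -- the alternating form
  have hint : ∀ x : L, ‖lam x‖ ≤ 1 ↔ cl p (lam x) = 0 := fun x => (cl_eq_zero _).symm
  have hcl : ∀ x y : L, x - y ∈ OO p L → cl p (lam x) = cl p (lam y) := by
    intro x y hxy
    rw [← sub_eq_zero]
    change cl p (lam x - lam y) = 0
    rw [← map_sub, cl_eq_zero]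
    have h3 := (hlam (x - y)).2 hxy 1
    rwa [Subring.coe_one, one_mul] at h3
  set S : W → W → QZ p := fun x z => cl p (lam (β ((F ^ 2) x - x) ((F ^ (c + 1)) z))) with hS
  have hSz : ∀ x ∈ G, (x ∈ A ↔ ∀ z ∈ G, S x z = 0) := by
    intro x hx
    have hw : (F ^ 2) x - x ∈ G := G.sub_mem (hFGn 2 x hx) hx
    constructor
    · intro hxA z hz
      have h3 : F x - x ∈ B := ((hA x).1 hxA).2
      have h4 : (F ^ 2) x - x ∈ B := by
        have h5 := B.add_mem (hFB _ h3) h3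
        rw [map_sub, sub_add_sub_cancel] at h5
        exact h5
      have h5 := h1 _ h4 _ (hGM (hFGn (c + 1) z hz))
      have h6 := (hlam _).2 h5 1
      rw [Subring.coe_one, one_mul] at h6
      exact (cl_eq_zero _).2 h6
    · intro h
      have h3 : (F ^ 2) x - x ∈ B := by
        refine hleft _ hw fun y hy => ?_
        obtain ⟨y', hy', hyy⟩ := hsurj (c + 1) y hy
        have h4 : β ((F ^ 2) x - x) ((F ^ (c + 1)) y') ∈ OO p L := by
          refine (hlam _).1 fun a => ?_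
          have h5 := h _ (G.smul_mem a hy')
          rw [hS] at h5
          simp only at h5
          rw [cl_eq_zero] at h5
          have h6 : (F ^ (c + 1)) (a • y') = (a : L) • (F ^ (c + 1)) y' :=
            map_smul (F ^ (c + 1)) (a : L) y'
          rw [h6, map_smul, smul_eq_mul] at h5
          exact h5
        have h5 := h2 _ (hGM hw) _ hyy
        rw [map_sub] at h5
        have h6 := (OO p L).sub_mem h4 h5
        rwa [sub_sub_cancel] at h6
      refine (hA x).2 ⟨hGM hx, hinj x hx h3⟩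
  have k1 : A.toAddSubgroup.relIndex G.toAddSubgroup ≠ 0 := by
    intro h
    apply hGfin
    rw [← hmulI, h, mul_zero]
  have k2 : ∀ x ∈ G, ∀ x' ∈ G, ∀ y ∈ G, S (x + x') y = S x y + S x' y := by
    intro x _ x' _ y _
    change cl p (lam (β ((F ^ 2) (x + x') - (x + x')) ((F ^ (c + 1)) y))) =
      cl p (lam (β ((F ^ 2) x - x) ((F ^ (c + 1)) y)) +
        lam (β ((F ^ 2) x' - x') ((F ^ (c + 1)) y)))
    rw [← map_add lam, ← LinearMap.add_apply, ← map_add β, map_add (F ^ 2), add_sub_add_comm]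
  have k3 : ∀ x ∈ G, ∀ y ∈ G, ∀ a : OO p L, S (a • x) y = S x (a • y) := by
    intro x _ y _ a
    change cl p (lam (β ((F ^ 2) ((a : L) • x) - (a : L) • x) ((F ^ (c + 1)) y))) =
      cl p (lam (β ((F ^ 2) x - x) ((F ^ (c + 1)) ((a : L) • y))))
    rw [LinearMap.map_smul (F ^ 2), LinearMap.map_smul (F ^ (c + 1)), ← smul_sub,
      LinearMap.map_smul β, LinearMap.smul_apply, LinearMap.map_smul (β _)]
  have k4 : ∀ x ∈ G, ∀ y ∈ G, S x y = - S y x := by
    intro x hx z hz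
    have hxM := hGM hx
    have hzM := hGM hz
    obtain ⟨c', rfl⟩ : ∃ c', c = c' + 1 := ⟨c - 1, by omega⟩
    change cl p (lam (β ((F ^ 2) x - x) ((F ^ (c' + 1 + 1)) z))) =
      cl p (- lam (β ((F ^ 2) z - z) ((F ^ (c' + 1 + 1)) x)))
    rw [← map_neg lam]
    apply hcl
    set w := (F ^ 2) z - z with hw
    have hwG : w ∈ G := G.sub_mem (hFGn 2 z hz) hz
    -- `β w (F^(c+1) x) ≡ β (F^(c+1) x) (F^k₀ w) ≡ β (F^(c+1) x) (F^(2c) w) ≡ β x (F^(c-1) w)`
    have e1 := hsym _ (hFMn (c' + 1 + 1) x hxM) _ (hGM hwG)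
    have e2 := h2 _ (hFMn (c' + 1 + 1) x hxM) _ (hc w hwG)
    have e3 := hFn (c' + 1 + 1) x hxM _ (hFMn c' w (hGM hwG))
    rw [← Module.End.mul_apply (F ^ (c' + 1 + 1)) (F ^ c'), ← pow_add] at e3
    have hexp : c' + 1 + 1 + c' = 2 * (c' + 1) := by ring
    rw [hexp] at e3
    -- `β x (F^c' w) = β x (F^(c'+2) z) - β x (F^c' z)`, `β x (F^c' z) ≡ β (F^2 x) (F^(c'+2) z)`
    have e4 : β x ((F ^ c') w) = β x ((F ^ (c' + 1 + 1)) z) - β x ((F ^ c') z) := by
      rw [hw, map_sub, map_sub, ← Module.End.mul_apply, ← pow_add]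
    have e5 := hFn 2 x hxM _ (hFMn c' z hzM)
    rw [← Module.End.mul_apply (F ^ 2) (F ^ c'), ← pow_add] at e5
    have hexp2 : 2 + c' = c' + 1 + 1 := by ring
    rw [hexp2] at e5
    rw [map_sub] at e2
    have e6 : β ((F ^ 2) x - x) ((F ^ (c' + 1 + 1)) z) =
        β ((F ^ 2) x) ((F ^ (c' + 1 + 1)) z) - β x ((F ^ (c' + 1 + 1)) z) := by
      rw [map_sub, LinearMap.sub_apply]
    rw [e6]
    rw [e4] at e3
    have e7 := (OO p L).add_mem ((OO p L).add_mem (OO p L |>.sub_mem e1 e2) e3) e5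
    convert e7 using 1
    ring
  obtain ⟨m', hm'⟩ := hAlt (OO p L) p hp W G A S hAG k1 k2 k3 k4 hSz
  have h3 : A.toAddSubgroup.relIndex G.toAddSubgroup * B.toAddSubgroup.relIndex
      A.toAddSubgroup = B.toAddSubgroup.relIndex G.toAddSubgroup := by
    rw [mul_comm]
    exact hmulI
  rw [hm', hGm] at h3
  have h4 : 2 * m' ≤ m := by
    have h5 : Nat.card (kk p L) ^ (2 * m') ∣ Nat.card (kk p L) ^ m := ⟨_, h3.symm⟩
    exact (Nat.pow_dvd_pow_iff_le_right hq).1 h5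
  obtain ⟨k, rfl⟩ := Nat.exists_eq_add_of_le h4
  refine ⟨k, ?_, by omega⟩
  rw [pow_add] at h3
  exact Nat.eq_of_mul_eq_mul_left (Nat.pow_pos (lt_trans Nat.zero_lt_one hq)) h3

end Core

/-! ### The representation -/

section Rep

open RCLA

variable {p : ℕ} [Fact p.Prime] {D : Type} [Group D] {I : Subgroup D} {χ : D →* ℤ_[p]ˣ}
  {e : D → ℤ_[p]} {σ : D →* D} {s t : D} {a : ℤ_[p]ˣ} {L : Type} [NormedField L]
  [NormedAlgebra ℚ_[p] L] [FiniteDimensional ℚ_[p] L] {W : Type} [AddCommGroup W] [Module L W]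
  {ρ : D →* (W ≃ₗ[L] W)} {φ : D} {X : Submodule (OO p L) W} {γ : W →ₗ[L] W →ₗ[L] L}

theorem chi_one (h : TamG p I χ e σ s t a) {i : D} (hi : i ∈ I) : χ i = 1 := by
  have h1 := h.conj i t h.tI
  rw [h.hom _ (I.mul_mem hi h.tI) _ (I.inv_mem hi), h.hom _ hi _ h.tI, e_inv h _ hi, h.te,
    mul_one] at h1
  apply Units.ext
  rw [← h1]
  change e i + 1 + - e i = 1
  ring

theorem uL_one : uL L (1 : ℤ_[p]ˣ) = 1 := by
  rw [uL, Units.val_one, PadicInt.coe_one, map_one]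

theorem uL_mul (u v : ℤ_[p]ˣ) : uL L (u * v) = uL L u * uL L v := by
  rw [uL, uL, uL, Units.val_mul, PadicInt.coe_mul, map_mul]

/-- `p`-adic integers as elements of `L` -/
def zL (L : Type) [NormedField L] [NormedAlgebra ℚ_[p] L] (c : ℤ_[p]) : L :=
  algebraMap ℚ_[p] L (c : ℚ_[p])

theorem zL_mem (c : ℤ_[p]) : zL L c ∈ OO p L := by
  change ‖algebraMap ℚ_[p] L (c : ℚ_[p])‖ ≤ 1
  rw [norm_algebraMap']
  exact PadicInt.norm_le_one c

theorem rho_inv (d : D) (x : W) : ρ d (ρ d⁻¹ x) = x := by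
  rw [← rho_mul, mul_inv_cancel, map_one]
  rfl

theorem rho_inv' (d : D) (x : W) : ρ d⁻¹ (ρ d x) = x := by
  rw [← rho_mul, inv_mul_cancel, map_one]
  rfl

theorem dual' (hF : FrmD χ σ s a ρ γ) (d : D) (x y : W) :
    γ (ρ d x) y = uL L (χ d) * γ x (ρ (σ d)⁻¹ y) := by
  rw [← hF.dual, rho_inv]

theorem dualI (h : TamG p I χ e σ s t a) (hF : FrmD χ σ s a ρ γ) {i : D} (hi : i ∈ I) (x y : W) :
    γ (ρ i x) y = γ x (ρ (σ i)⁻¹ y) := by
  rw [dual' hF, chi_one h hi, uL_one, one_mul]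

theorem dualI' (h : TamG p I χ e σ s t a) (hF : FrmD χ σ s a ρ γ) {i : D} (hi : i ∈ I) (x y : W) :
    γ (ρ i x - x) y = γ x (ρ (σ i)⁻¹ y - y) := by
  rw [map_sub, map_sub, LinearMap.sub_apply, dualI h hF hi]

theorem int_of (hself : ∀ y, y ∈ X ↔ ∀ x ∈ X, ‖γ x y‖ ≤ 1) {x y : W} (hx : x ∈ X) (hy : y ∈ X) :
    γ x y ∈ OO p L := (hself y).1 hy x hx

/-- the approximation of an element of `I` by powers of `t` -/
theorem apx (h : TamG p I χ e σ s t a) {i : D} (hi : i ∈ I) (M : ℕ) :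
    ∃ k : ℕ, ∃ i₂ ∈ I, (p : ℤ_[p]) ^ M ∣ e i₂ ∧ i = t ^ k * i₂ ∧ e i = k + e i₂ := by
  set k := (e i).appr M with hk
  have h0 : e ((t ^ k)⁻¹ * i) = - k + e i := by
    rw [h.hom _ (I.inv_mem (I.pow_mem h.tI k)) i hi, e_inv h _ (I.pow_mem h.tI k), e_pow h]
  refine ⟨k, (t ^ k)⁻¹ * i, I.mul_mem (I.inv_mem (I.pow_mem h.tI k)) hi, ?_, ?_, ?_⟩
  · rw [h0, neg_add_eq_sub]
    exact Ideal.mem_span_singleton.1 (PadicInt.appr_spec M (e i))
  · rw [mul_inv_cancel_left]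
  · rw [h0]
    ring

/-- the vectors fixed by `t` modulo `X` -/
theorem mod_of_t (h : TamG p I χ e σ s t a) (hX : LatD I e φ ρ X) {x : W}
    (hx : ρ t x - x ∈ X) : x ∈ modW I ρ X := by
  intro i hi
  obtain ⟨N, hN⟩ := hX.span x
  obtain ⟨M, hM⟩ := hX.actI N
  obtain ⟨k, i₂, hi₂, h1, rfl, -⟩ := apx h hi M
  obtain ⟨y, hy, hxy⟩ := hM i₂ hi₂ h1 _ hN
  have h2 : ρ i₂ x = x + y := by
    rw [← sub_eq_zero]
    refine pow_smul_inj (p := p) (L := L) N ?_
    rw [smul_sub, ← rho_smul, hxy, smul_add, sub_self]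
  have h3 : ∀ k : ℕ, ρ (t ^ k) x - x ∈ X := by
    intro k
    induction k with
    | zero =>
      rw [pow_zero, map_one]
      change x - x ∈ X
      rw [sub_self]
      exact X.zero_mem
    | succ k ih =>
      have h3 : ρ (t ^ (k + 1)) x - x = ρ (t ^ k) (ρ t x - x) + (ρ (t ^ k) x - x) := by
        rw [pow_succ, rho_mul, map_sub]
        abel
      rw [h3]
      exact X.add_mem (hX.stab _ _ hx) ih
  have h4 : ρ (t ^ k * i₂) x - x = (ρ (t ^ k) x - x) + ρ (t ^ k) y := by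
    rw [rho_mul, h2, map_add]
    abel
  rw [h4]
  exact X.add_mem (h3 k) (hX.stab _ _ hy)

/-- `⟨(i - 1) x, y⟩ ≡ e(i) ⟨(t - 1) x, y⟩` -/
theorem lin (h : TamG p I χ e σ s t a) (hF : FrmD χ σ s a ρ γ) (hX : LatD I e φ ρ X)
    (hself : ∀ y, y ∈ X ↔ ∀ x ∈ X, ‖γ x y‖ ≤ 1) {x y : W} (hx : x ∈ modW I ρ X)
    (hy : y ∈ modW I ρ X) {i : D} (hi : i ∈ I) :
    γ (ρ i x - x) y - zL L (e i) * γ (ρ t x - x) y ∈ OO p L := by
  -- additivity
  have hadd : ∀ i ∈ I, ∀ i' ∈ I, γ (ρ (i * i') x - x) y -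
      (γ (ρ i x - x) y + γ (ρ i' x - x) y) ∈ OO p L := by
    intro i hi i' hi'
    have h1 : γ (ρ (i * i') x - x) y - (γ (ρ i x - x) y + γ (ρ i' x - x) y) =
        γ (ρ i' x - x) (ρ (σ i)⁻¹ y - y) := by
      rw [← dualI' h hF hi, rho_mul]
      simp only [map_sub, LinearMap.sub_apply]
      ring
    rw [h1]
    exact int_of hself (hx i' hi') (hy _ (I.inv_mem (h.sI i hi)))
  have hpow : ∀ k : ℕ, γ (ρ (t ^ k) x - x) y - (k : L) * γ (ρ t x - x) y ∈ OO p L := by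
    intro k
    induction k with
    | zero =>
      rw [pow_zero, map_one, Nat.cast_zero, zero_mul, sub_zero]
      change γ (x - x) y ∈ OO p L
      rw [sub_self, map_zero, LinearMap.zero_apply]
      exact (OO p L).zero_mem
    | succ k ih =>
      have h1 := (OO p L).add_mem (hadd _ (I.pow_mem h.tI k) t h.tI) ih
      rw [← pow_succ] at h1
      convert h1 using 1
      push_cast
      ring
  obtain ⟨N, hN⟩ := hX.span x
  obtain ⟨N', hN'⟩ := hX.span y
  obtain ⟨M, hM⟩ := hX.actI (N + N')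
  set c := γ (ρ t x - x) y with hc
  obtain ⟨M₂, hM₂⟩ : ∃ M₂ : ℕ, zL L ((p : ℤ_[p]) ^ M₂) * c ∈ OO p L := by
    obtain ⟨n, hn⟩ := exists_pow_lt_of_lt_one (show (0 : ℝ) < (‖c‖ + 1)⁻¹ by positivity)
      (BKND.DG.norm_p_lt (p := p) L)
    refine ⟨n, ?_⟩
    change ‖zL L ((p : ℤ_[p]) ^ n) * c‖ ≤ 1
    have h1 : zL L ((p : ℤ_[p]) ^ n) = ((p : ℕ) : L) ^ n := by
      rw [zL, PadicInt.coe_pow, map_pow, PadicInt.coe_natCast, map_natCast]
    rw [h1, norm_mul, norm_pow]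
    have h2 : ‖((p : ℕ) : L)‖ ^ n * ‖c‖ ≤ (‖c‖ + 1)⁻¹ * (‖c‖ + 1) :=
      mul_le_mul hn.le (by linarith) (norm_nonneg _) (by positivity)
    refine h2.trans ?_
    rw [inv_mul_cancel₀ (by positivity)]
  obtain ⟨k, i₂, hi₂, h1, rfl, h2⟩ := apx h hi (M + M₂)
  have e1 := hadd _ (I.pow_mem h.tI k) i₂ hi₂
  have e2 := hpow k
  have e3 : γ (ρ i₂ x - x) y ∈ OO p L := by
    obtain ⟨y₁, hy₁, hxy⟩ := hM i₂ hi₂ ((pow_dvd_pow _ (Nat.le_add_right M M₂)).trans h1) _ hN
    have h3 : ρ i₂ x - x = pi0 p L ^ N' • y₁ := by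
      rw [← sub_eq_zero]
      refine pow_smul_inj (p := p) (L := L) N ?_
      rw [smul_sub, smul_sub, ← rho_smul, hxy, ← mul_smul, ← pow_add, add_sub_cancel_left,
        sub_self]
    have h4 : γ (ρ i₂ x - x) y = γ y₁ (pi0 p L ^ N' • y) := by
      rw [h3, RCLA.smul_def, RCLA.smul_def, LinearMap.map_smul, LinearMap.smul_apply,
        LinearMap.map_smul]
    rw [h4]
    exact int_of hself hy₁ hN'
  have e4 : zL L (e i₂) * c ∈ OO p L := by
    obtain ⟨d, hd⟩ := h1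
    have h3 : zL L (e i₂) * c = zL L ((p : ℤ_[p]) ^ M * d) * (zL L ((p : ℤ_[p]) ^ M₂) * c) := by
      rw [hd, pow_add]
      simp only [zL, PadicInt.coe_mul, map_mul]
      ring
    rw [h3]
    exact (OO p L).mul_mem (zL_mem _) hM₂
  have e5 : zL L (e (t ^ k * i₂)) = (k : L) + zL L (e i₂) := by
    rw [h2, zL, PadicInt.coe_add, map_add, PadicInt.coe_natCast, map_natCast]
    rfl
  rw [e5]
  have e6 := (OO p L).sub_mem ((OO p L).add_mem ((OO p L).add_mem e1 e2) e3) e4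
  convert e6 using 1
  ring

/-- `⟨(t - 1) x, z⟩` as a bilinear form -/
def bt (ρ : D →* (W ≃ₗ[L] W)) (t : D) (γ : W →ₗ[L] W →ₗ[L] L) : W →ₗ[L] W →ₗ[L] L :=
  γ ∘ₗ ((ρ t : W →ₗ[L] W) - 1)

theorem bt_apply (x z : W) : bt ρ t γ x z = γ (ρ t x - x) z := rfl

theorem bt_left (h : TamG p I χ e σ s t a) (hF : FrmD χ σ s a ρ γ)
    (hself : ∀ y, y ∈ X ↔ ∀ x ∈ X, ‖γ x y‖ ≤ 1) {x z : W} (hx : x ∈ addW I ρ X)
    (hz : z ∈ modW I ρ X) : bt ρ t γ x z ∈ OO p L := by
  obtain ⟨x₀, hx₀, w, hw, rfl⟩ := Submodule.mem_sup.1 hx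
  have h1 : ρ t (x₀ + w) - (x₀ + w) = ρ t x₀ - x₀ := by
    rw [map_add, hw t h.tI]
    abel
  rw [bt_apply, h1, dualI' h hF h.tI]
  exact int_of hself hx₀ (hz _ (I.inv_mem (h.sI t h.tI)))

theorem bt_right (h : TamG p I χ e σ s t a) (hF : FrmD χ σ s a ρ γ)
    (hself : ∀ y, y ∈ X ↔ ∀ x ∈ X, ‖γ x y‖ ≤ 1) {x z : W} (hx : x ∈ modW I ρ X)
    (hz : z ∈ addW I ρ X) : bt ρ t γ x z ∈ OO p L := by
  obtain ⟨z₀, hz₀, w, hw, rfl⟩ := Submodule.mem_sup.1 hz
  have h1 : γ (ρ t x - x) w = 0 := by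
    rw [dualI' h hF h.tI, hw _ (I.inv_mem (h.sI t h.tI)), sub_self, map_zero]
  rw [bt_apply, map_add, h1, add_zero]
  exact int_of hself (hx t h.tI) hz₀

/-- the symmetry of the form -/
theorem bt_symm (h : TamG p I χ e σ s t a) (hF : FrmD χ σ s a ρ γ) (hX : LatD I e φ ρ X)
    (hself : ∀ y, y ∈ X ↔ ∀ x ∈ X, ‖γ x y‖ ≤ 1) {x z : W} (hx : x ∈ modW I ρ X)
    (hz : ρ s z ∈ modW I ρ X) : bt ρ t γ z x - bt ρ t γ x (ρ s z) ∈ OO p L := by
  have hst : σ t ∈ I := h.sI t h.tI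
  have h1 : γ (ρ t z - z) x = uL L a * γ (ρ (σ t)⁻¹ x - x) (ρ s z) := by
    have hs : (σ (σ t)⁻¹)⁻¹ = s * t * s⁻¹ := by rw [map_inv, inv_inv, h.sq]
    rw [hF.symm, map_sub (ρ s), ← rho_mul, dualI' h hF (I.inv_mem hst), hs, ← rho_mul,
      inv_mul_cancel_right]
  have h2 := lin h hF hX hself hx hz (I.inv_mem hst)
  have h3 : uL L a * zL L (e (σ t)⁻¹) = 1 := by
    have h4 := h.se t h.tI
    rw [h.te] at h4
    rw [e_inv h _ hst, uL, zL, ← map_mul, ← PadicInt.coe_mul, mul_neg, h4, neg_neg,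
      PadicInt.coe_one, map_one]
  have h4 : bt ρ t γ z x - bt ρ t γ x (ρ s z) =
      zL L (a : ℤ_[p]) * (γ (ρ (σ t)⁻¹ x - x) (ρ s z) - zL L (e (σ t)⁻¹) * γ (ρ t x - x) (ρ s z)) := by
    rw [bt_apply, bt_apply, h1]
    have h5 : zL L (a : ℤ_[p]) = uL L a := rfl
    rw [h5, mul_sub, ← mul_assoc, h3, one_mul]
  rw [h4]
  exact (OO p L).mul_mem (zL_mem _) h2

/-- the invariance of the form -/
theorem bt_inv (h : TamG p I χ e σ s t a) (hF : FrmD χ σ s a ρ γ) (hX : LatD I e φ ρ X)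
    (hself : ∀ y, y ∈ X ↔ ∀ x ∈ X, ‖γ x y‖ ≤ 1) {x z : W} (hx : x ∈ modW I ρ X)
    (hz : z ∈ modW I ρ X) (d : D) : bt ρ t γ (ρ d x) (ρ d z) - bt ρ t γ x z ∈ OO p L := by
  set i := d⁻¹ * t * d⁻¹⁻¹ with hi
  have hiI : i ∈ I := h.normal d⁻¹ t h.tI
  have hie : (χ d : ℤ_[p]) * e i = 1 := by
    rw [hi, h.conj _ _ h.tI, h.te, mul_one, map_inv, ← Units.val_mul, mul_inv_cancel,
      Units.val_one]
  -- `i' = σ(d)⁻¹ d`
  set i' := (σ d)⁻¹ * d with hi'
  have hi'I : i' ∈ I := by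
    have h1 := h.normal d⁻¹ _ (I.inv_mem (h.sD d))
    have h2 : d⁻¹ * (σ d * d⁻¹)⁻¹ * d⁻¹⁻¹ = i' := by
      rw [hi']
      group
    rwa [h2] at h1
  have h1 : ρ t (ρ d x) - ρ d x = ρ d (ρ i x - x) := by
    rw [map_sub, ← rho_mul, ← rho_mul, hi]
    congr 3
    group
  have h2 : bt ρ t γ (ρ d x) (ρ d z) = uL L (χ d) * γ (ρ i x - x) (ρ i' z) := by
    rw [bt_apply, h1, dual' hF, ← rho_mul]
  have h3 : γ (ρ i x - x) (ρ i' z - z) ∈ OO p L := int_of hself (hx i hiI) (hz i' hi'I)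
  have h4 := lin h hF hX hself hx hz hiI
  have h5 : uL L (χ d) * zL L (e i) = 1 := by
    rw [uL, zL, ← map_mul, ← PadicInt.coe_mul, hie, PadicInt.coe_one, map_one]
  have h6 : bt ρ t γ (ρ d x) (ρ d z) - bt ρ t γ x z = zL L (χ d : ℤ_[p]) *
      (γ (ρ i x - x) (ρ i' z - z) +
        (γ (ρ i x - x) z - zL L (e i) * γ (ρ t x - x) z)) := by
    have h7 : zL L (χ d : ℤ_[p]) = uL L (χ d) := rfl
    rw [h2, h7, mul_add, mul_sub, ← mul_assoc, h5, one_mul, map_sub (γ (ρ i x - x)), bt_apply]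
    ring
  rw [h6]
  exact (OO p L).mul_mem (zL_mem _) ((OO p L).add_mem h3 h4)

theorem tam' (h : TamG p I χ e σ s t a) :
    TamG p I χ (fun d => -(a : ℤ_[p]) * e d) σ s (σ t) a where
  normal := h.normal
  hom := by
    intro i hi i' hi'
    rw [h.hom i hi i' hi']
    ring
  conj := by
    intro d i hi
    rw [h.conj d i hi]
    ring
  tI := h.sI t h.tI
  te := by
    rw [neg_mul, h.se t h.tI, h.te, neg_neg]
  sI := h.sI
  se := by
    intro i hi
    rw [neg_mul, h.se i hi, neg_neg, neg_mul, neg_neg]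
  sq := h.sq
  chi := h.chi
  sD := h.sD
  comm := h.comm

theorem lat' (hX : LatD I e φ ρ X) : LatD I (fun d => -(a : ℤ_[p]) * e d) φ ρ X where
  toLatW := hX.toLatW
  stab := hX.stab
  actI := by
    intro m
    obtain ⟨M, hM⟩ := hX.actI m
    refine ⟨M, fun i hi hd => hM i hi ?_⟩
    rw [neg_mul, dvd_neg] at hd
    exact (Units.dvd_mul_left).1 hd
  actD := hX.actD

theorem nondeg (hX : LatD I e φ ρ X) (hself : ∀ y, y ∈ X ↔ ∀ x ∈ X, ‖γ x y‖ ≤ 1) {y : W}
    (hy : ∀ x, γ x y = 0) : y = 0 := by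
  refine RCLA.eq_zero hX.fg fun m => ?_
  have h0 : ((pi0 p L ^ m : OO p L) : L) ≠ 0 := by
    rw [Subring.coe_pow]
    exact pow_ne_zero _ (pi0_ne p L)
  refine ⟨((pi0 p L ^ m : OO p L) : L)⁻¹ • y, ?_, ?_⟩
  · rw [hself]
    intro x _
    rw [LinearMap.map_smul, hy, smul_zero, norm_zero]
    exact zero_le_one
  · rw [RCLA.smul_def, smul_inv_smul₀ h0]

theorem ker (hSat : StSat) [FiniteDimensional L W] (h : TamG p I χ e σ s t a)
    (hF : FrmD χ σ s a ρ γ) (hX : LatD I e φ ρ X)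
    (hself : ∀ y, y ∈ X ↔ ∀ x ∈ X, ‖γ x y‖ ≤ 1) {z : W}
    (hz : ∀ x ∈ modW I ρ X, bt ρ t γ x z ∈ OO p L) : z ∈ addW I ρ X := by
  obtain ⟨x₀, hx₀, h1⟩ := hSat p L W γ X hX.toLatW hself
    (LinearMap.range ((ρ t : W →ₗ[L] W) - 1)) z (by
      rintro _ hx ⟨x, rfl⟩
      exact hz x (mod_of_t h hX hx))
  have h2 : ρ (σ t)⁻¹ (z - x₀) - (z - x₀) = 0 := by
    refine nondeg hX hself fun x => ?_
    rw [← dualI' h hF h.tI]
    exact h1 _ ⟨x, rfl⟩
  have h3 : ρ (σ t) (z - x₀) = z - x₀ := by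
    have h4 := congrArg (ρ (σ t)) (sub_eq_zero.1 h2)
    rw [rho_inv] at h4
    exact h4.symm
  have h4 : z - x₀ ∈ fixW I ρ := fix_of_t (tam' h) (lat' hX) h3
  have h5 : z = x₀ + (z - x₀) := by abel
  rw [h5]
  exact (addW I ρ X).add_mem (Submodule.mem_sup_left hx₀) (Submodule.mem_sup_right h4)

theorem add_stab (h : TamG p I χ e σ s t a) (hX : LatD I e φ ρ X) (d : D) {x : W}
    (hx : x ∈ addW I ρ X) : ρ d x ∈ addW I ρ X := by
  obtain ⟨x₀, hx₀, w, hw, rfl⟩ := Submodule.mem_sup.1 hx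
  rw [map_add]
  exact (addW I ρ X).add_mem (Submodule.mem_sup_left (hX.stab d _ hx₀))
    (Submodule.mem_sup_right (fix_stab h hw d))

theorem mod_stab (h : TamG p I χ e σ s t a) (hX : LatD I e φ ρ X) (d : D) {x : W}
    (hx : x ∈ modW I ρ X) : ρ d x ∈ modW I ρ X := by
  intro i hi
  have h1 : ρ i (ρ d x) - ρ d x = ρ d (ρ (d⁻¹ * i * d⁻¹⁻¹) x - x) := by
    rw [map_sub, ← rho_mul, ← rho_mul]
    congr 3
    group
  rw [h1]
  exact hX.stab _ _ (hx _ (h.normal d⁻¹ i hi))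

/-- an element of `D` acts on `X_I / (X + W^I)` as a power of `φ` -/
theorem act (h : TamG p I χ e σ s t a) (hX : LatD I e φ ρ X)
    (hfin : (addW I ρ X).toAddSubgroup.relIndex (modW I ρ X).toAddSubgroup ≠ 0) (d : D) :
    ∃ k : ℕ, ∀ x ∈ modW I ρ X, ρ d x - ρ (φ ^ k) x ∈ addW I ρ X := by
  have hf := finite_quot _ _ hfin
  have h1 : ∀ q : (modW I ρ X) ⧸ (addW I ρ X).submoduleOf (modW I ρ X),
      ∃ x : modW I ρ X, Submodule.Quotient.mk x = q ∧ ∃ N : ℕ, pi0 p L ^ N • (x : W) ∈ X := by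
    intro q
    obtain ⟨x, hx⟩ := Submodule.Quotient.mk_surjective _ q
    exact ⟨x, hx, hX.span x⟩
  choose r hr N hN using h1
  obtain ⟨K, hK⟩ := (Set.finite_range N).bddAbove
  obtain ⟨k, i, hi, hM⟩ := hX.actD K d
  refine ⟨k, fun x hx => ?_⟩
  set q : (modW I ρ X) ⧸ (addW I ρ X).submoduleOf (modW I ρ X) := Submodule.Quotient.mk ⟨x, hx⟩
    with hq
  have h2 : x - r q ∈ addW I ρ X := by
    have h3 := hr q
    conv_rhs at h3 => rw [hq]
    exact (Submodule.Quotient.eq ((addW I ρ X).submoduleOf (modW I ρ X))).1 h3.symm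
  have h3 : pi0 p L ^ K • (r q : W) ∈ X := by
    obtain ⟨j, hj⟩ := Nat.exists_eq_add_of_le (hK ⟨q, rfl⟩ : N q ≤ K)
    rw [hj, add_comm, pow_add, mul_smul]
    exact X.smul_mem _ (hN q)
  obtain ⟨y, hy, hxy⟩ := hM _ h3
  have h4 : ρ d (r q) - ρ (φ ^ k * i) (r q) - y = 0 := by
    refine pow_smul_inj (p := p) (L := L) K ?_
    rw [smul_sub, smul_sub, ← rho_smul, ← rho_smul, hxy, add_sub_cancel_left, sub_self]
  have h5 : ρ d x - ρ (φ ^ k) x = ρ d (x - r q) - ρ (φ ^ k) (x - r q) +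
      (y + ρ (φ ^ k) (ρ i (r q) - r q)) := by
    have h6 : y = ρ d (r q) - ρ (φ ^ k * i) (r q) := (sub_eq_zero.1 h4).symm
    rw [h6, rho_mul]
    simp only [map_sub]
    abel
  rw [h5]
  have h6 : y + ρ (φ ^ k) (ρ i (r q) - r q) ∈ X :=
    X.add_mem hy (hX.stab _ _ ((r q).2 i hi))
  exact (addW I ρ X).add_mem ((addW I ρ X).sub_mem (add_stab h hX d h2)
    (add_stab h hX (φ ^ k) h2)) (Submodule.mem_sup_left h6)

theorem rho_pow (d : D) (k : ℕ) (x : W) : ((ρ d : W →ₗ[L] W) ^ k) x = ρ (d ^ k) x := by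
  induction k with
  | zero =>
    rw [pow_zero, pow_zero, map_one]
    rfl
  | succ k ih =>
    rw [pow_succ', pow_succ', Module.End.mul_apply, ih, rho_mul]
    rfl

end Rep

end RCLB

open RCLB in
/-- Module CLB (from SAT, ALT, MUW): the parity of the length of the invariants of a Frobenius
element. -/
theorem stClb (h1 : StSat) (h2 : BKMet.StAlt) (_h3 : StMuw) : StClb := by
  intro p _ hp D _ I χ e σ s t a hT L _ _ _ W _ _ _ ρ γ hF φ X hX hself hfin A hA m hMu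
  obtain ⟨lam, hlam⟩ := BKMet.stLam p L
  obtain ⟨k₀, hk₀⟩ := act hT hX hfin s
  refine core h2 hlam hp (addW I ρ X) (modW I ρ X) (RCLA.add_le hX) hfin (ρ φ : W →ₗ[L] W)
    (fun x hx => mod_stab hT hX φ hx) (fun x hx => add_stab hT hX φ hx) (bt ρ t γ)
    (fun x hx z hz => bt_left hT hF hself hx hz) (fun x hx z hz => bt_right hT hF hself hx hz) k₀
    ?_ (fun x hx z hz => bt_inv hT hF hX hself hx hz φ)
    (fun z _ hz => ker h1 hT hF hX hself hz) A (fun y => hA y) m hMu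
  intro x hx z hz
  rw [rho_pow]
  have h3 := bt_symm hT hF hX hself hx (mod_stab hT hX s hz)
  have h4 := bt_right hT hF hself hx (hk₀ z hz)
  rw [map_sub] at h4
  have h5 := (OO p L).add_mem h3 h4
  rwa [sub_add_sub_cancel] at h5

end BKT
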