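import Pool.Agent.Lib.MP_7c08ba_nt.T1.StR

set_option autoImplicit false

/-!
Module FIT: the multiplicity for `X / π X` and the dimension of the generalized eigenspace.
-/

noncomputable section

namespace BKT

open NumberField BKGen BKMet

namespace RFIT

variable {p : ℕ} [Fact p.Prime] {L : Type} [NormedField L] [NormedAlgebra ℚ_[p] L]
  [FiniteDimensional ℚ_[p] L] {W : Type} [AddCommGroup W] [Module L W]

omit [FiniteDimensional ℚ_[p] L] in
theorem smul_def' (a : OO p L) (x : W) : a • x = (a : L) • x := rfl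

omit [FiniteDimensional ℚ_[p] L] in
theorem map_smulR (g : W →ₗ[L] W) (a : OO p L) (x : W) : g (a • x) = a • g x := by
  rw [smul_def', smul_def', map_smul]

/-- series with coefficients in the ring of integers -/
theorem complR (c : ℕ → OO p L) : ∃ s : OO p L, ∀ M : ℕ, ∃ t : OO p L,
    s = ∑ m ∈ Finset.range M, pi0 p L ^ m * c m + pi0 p L ^ M * t := by
  have hc : CompleteSpace L := FiniteDimensional.complete ℚ_[p] L
  have h0 := pi0_pos p L
  have h1 := pi0_lt p L
  set π : L := ((pi0 p L : OO p L) : L) with hπ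
  have hsum : ∀ M : ℕ, Summable fun m : ℕ => π ^ m * ((c (m + M) : OO p L) : L) := by
    intro M
    refine Summable.of_norm_bounded (g := fun m : ℕ => ‖π‖ ^ m)
      (summable_geometric_of_lt_one (norm_nonneg _) h1) fun m => ?_
    rw [norm_mul, norm_pow]
    exact mul_le_of_le_one_right (pow_nonneg (norm_nonneg _) _) (OO.norm_le _)
  have hmem : ∀ M : ℕ, ‖∑' m : ℕ, π ^ m * ((c (m + M) : OO p L) : L)‖ ≤ 1 := by
    intro M
    have hcl : IsClosed {x : L | ‖x‖ ≤ 1} := isClosed_le continuous_norm continuous_const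
    refine hcl.mem_of_tendsto (hsum M).hasSum (Filter.Eventually.of_forall fun s => ?_)
    have : ∑ m ∈ s, π ^ m * ((c (m + M) : OO p L) : L) ∈ OO p L := by
      refine Subring.sum_mem _ fun m _ => ?_
      exact Subring.mul_mem _ (Subring.pow_mem _ (pi0 p L).2 _) (c (m + M)).2
    exact this
  refine ⟨⟨_, hmem 0⟩, fun M => ⟨⟨_, hmem M⟩, Subtype.ext ?_⟩⟩
  have h2 := (hsum 0).sum_add_tsum_nat_add M
  simp only [add_zero] at h2 ⊢
  rw [← h2]
  push_cast
  rw [← tsum_mul_left]
  congr 1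
  refine tsum_congr fun m => ?_
  rw [← hπ]
  ring

/-- series in a finitely generated module -/
theorem complX (X : Submodule (OO p L) W) (hX : X.FG) (z : ℕ → W) (hz : ∀ m, z m ∈ X) :
    ∃ x ∈ X, ∀ M : ℕ, ∃ y ∈ X,
      x = ∑ m ∈ Finset.range M, pi0 p L ^ m • z m + pi0 p L ^ M • y := by
  obtain ⟨n, v, rfl⟩ := Submodule.fg_iff_exists_fin_generating_family.1 hX
  have hz' : ∀ m, ∃ c : Fin n → OO p L, ∑ i, c i • v i = z m := fun m =>
    (Submodule.mem_span_range_iff_exists_fun _).1 (hz m)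
  choose c hc using hz'
  have hs := fun i : Fin n => complR (fun m => c m i)
  choose s hs using hs
  choose t ht using hs
  refine ⟨∑ i, s i • v i, (Submodule.mem_span_range_iff_exists_fun _).2 ⟨s, rfl⟩, fun M =>
    ⟨∑ i, t i M • v i, (Submodule.mem_span_range_iff_exists_fun _).2 ⟨_, rfl⟩, ?_⟩⟩
  have h1 : ∑ m ∈ Finset.range M, pi0 p L ^ m • z m =
      ∑ i, (∑ m ∈ Finset.range M, pi0 p L ^ m * c m i) • v i := by
    simp only [Finset.sum_smul]
    rw [Finset.sum_comm]
    refine Finset.sum_congr rfl fun m _ => ?_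
    rw [← hc m, Finset.smul_sum]
    refine Finset.sum_congr rfl fun i _ => ?_
    rw [mul_smul]
  rw [h1, Finset.smul_sum, ← Finset.sum_add_distrib]
  refine Finset.sum_congr rfl fun i _ => ?_
  rw [← mul_smul, ← add_smul, ← ht i M]

omit [FiniteDimensional ℚ_[p] L] in
theorem torf (K : Submodule (OO p L) W) : Module.IsTorsionFree (OO p L) K := by
  refine ⟨?_⟩
  intro a ha x y hxy
  have ha0 : (a : L) ≠ 0 := by
    intro h
    have h' : a = 0 := Subtype.ext h
    rw [h'] at ha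
    have := ha.left (show (0 : OO p L) * 1 = 0 * 0 by simp)
    exact one_ne_zero this
  have h1 : (a : L) • (x : W) = (a : L) • (y : W) := congrArg Subtype.val hxy
  have h2 := smul_right_injective W ha0 h1
  exact Subtype.ext h2

theorem mem_piW (X : Submodule (OO p L) W) (x : W) : x ∈ piW X ↔ ∃ y ∈ X, x = pi0 p L • y := by
  unfold piW
  rw [Submodule.mem_map]
  constructor
  · rintro ⟨y, hy, rfl⟩
    exact ⟨y, hy, rfl⟩
  · rintro ⟨y, hy, rfl⟩
    exact ⟨y, hy, rfl⟩

theorem piW_le (X : Submodule (OO p L) W) : piW X ≤ X := by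
  intro x hx
  obtain ⟨y, hy, rfl⟩ := (mem_piW X x).1 hx
  exact X.smul_mem _ hy

theorem exists_pow_mem (c : L) : ∃ m : ℕ, ‖((pi0 p L : OO p L) : L) ^ m * c‖ ≤ 1 := by
  have h0 := pi0_pos p L
  have h1 := pi0_lt p L
  by_cases hc : c = 0
  · exact ⟨0, by simp [hc]⟩
  · have hc0 : 0 < ‖c‖ := norm_pos_iff.2 hc
    obtain ⟨m, hm⟩ := exists_pow_lt_of_lt_one (inv_pos.2 hc0) h1
    refine ⟨m, ?_⟩
    rw [norm_mul, norm_pow]
    calc _ ≤ ‖c‖⁻¹ * ‖c‖ := mul_le_mul_of_nonneg_right hm.le hc0.le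
      _ = 1 := inv_mul_cancel₀ hc0.ne'

/-- the index of `π K` in `K` -/
theorem card_piW (K : Submodule (OO p L) W) (hK : K.FG) :
    (piW K).toAddSubgroup.relIndex K.toAddSubgroup =
      Nat.card (kk p L) ^ Module.finrank L (Submodule.span L (K : Set W)) := by
  have h0 := pi0_pos p L
  have h1 := pi0_lt p L
  have hfin : Module.Finite (OO p L) K := Module.Finite.iff_fg.2 hK
  have htf := torf K
  have hfree : Module.Free (OO p L) K := inferInstance
  set n := Module.finrank (OO p L) K with hn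
  set b : Module.Basis (Fin n) (OO p L) K := Module.finBasis (OO p L) K with hb
  -- the rank
  have hli : LinearIndependent L fun i => ((b i : K) : W) := by
    rw [Fintype.linearIndependent_iff]
    intro c hc i
    have hm : ∀ i, ∃ m : ℕ, ‖((pi0 p L : OO p L) : L) ^ m * c i‖ ≤ 1 := fun i =>
      exists_pow_mem (c i)
    choose m hm using hm
    set M := ∑ i, m i with hM
    have hM' : ∀ i, ‖((pi0 p L : OO p L) : L) ^ M * c i‖ ≤ 1 := by
      intro i
      have h2 : m i ≤ M := Finset.single_le_sum (fun _ _ => Nat.zero_le _) (Finset.mem_univ i)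
      obtain ⟨d, hd⟩ := Nat.exists_eq_add_of_le h2
      rw [hd, add_comm, pow_add, mul_assoc, norm_mul, norm_pow]
      calc _ ≤ 1 * 1 := mul_le_mul (pow_le_one₀ (norm_nonneg _) h1.le) (hm i) (norm_nonneg _)
            zero_le_one
        _ = 1 := one_mul _
    set a : Fin n → OO p L := fun i => ⟨_, hM' i⟩ with ha
    have h2 : ∑ i, a i • b i = 0 := by
      apply Subtype.ext
      rw [Submodule.coe_sum, Submodule.coe_zero]
      have h3 : ∀ i, ((a i • b i : K) : W) =
          ((pi0 p L : OO p L) : L) ^ M • (c i • ((b i : K) : W)) := by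
        intro i
        rw [Submodule.coe_smul, smul_def', smul_smul]
      simp only [h3]
      rw [← Finset.smul_sum, hc, smul_zero]
    have h3 := Fintype.linearIndependent_iff.1 b.linearIndependent a h2 i
    have h4 : ((pi0 p L : OO p L) : L) ^ M * c i = 0 := congrArg Subtype.val h3
    rcases mul_eq_zero.1 h4 with h5 | h5
    · exact absurd h5 (pow_ne_zero _ (pi0_ne p L))
    · exact h5
  have hspan : Submodule.span L (K : Set W) =
      Submodule.span L (Set.range fun i => ((b i : K) : W)) := by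
    apply le_antisymm
    · rw [Submodule.span_le]
      intro x hx
      have h2 := b.sum_repr ⟨x, hx⟩
      have h3 : x = ∑ i, (b.repr ⟨x, hx⟩ i) • ((b i : K) : W) := by
        have h4 := congrArg Subtype.val h2
        rw [Submodule.coe_sum] at h4
        exact h4.symm
      rw [h3]
      refine Submodule.sum_mem _ fun i _ => ?_
      rw [smul_def']
      exact Submodule.smul_mem _ _ (Submodule.subset_span ⟨i, rfl⟩)
    · rw [Submodule.span_le]
      rintro x ⟨i, rfl⟩
      exact Submodule.subset_span (b i).2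
  have hrank : Module.finrank L (Submodule.span L (K : Set W)) = n := by
    rw [hspan, finrank_span_eq_card hli, Fintype.card_fin]
  rw [hrank]
  -- the index
  let φ : K →+ (Fin n → kk p L) :=
    { toFun := fun x i => IsLocalRing.residue (OO p L) (b.repr x i)
      map_zero' := by
        funext i
        simp
      map_add' := fun x y => by
        funext i
        simp }
  have hker : φ.ker = (piW K).toAddSubgroup.addSubgroupOf K.toAddSubgroup := by
    ext x
    rw [AddMonoidHom.mem_ker, AddSubgroup.mem_addSubgroupOf]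
    constructor
    · intro h
      have h2 : ∀ i, ∃ a : OO p L, b.repr x i = pi0 p L * a := by
        intro i
        have h3 : IsLocalRing.residue (OO p L) (b.repr x i) = 0 := congrFun h i
        rw [IsLocalRing.residue_eq_zero_iff, OO.mem_max, ← pi0_dvd] at h3
        exact h3
      choose a ha using h2
      have h3 : (x : W) = pi0 p L • ((∑ i, a i • b i : K) : W) := by
        have h4 := b.sum_repr x
        rw [← Submodule.coe_smul, Finset.smul_sum]
        conv_lhs => rw [← h4]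
        congr 1
        refine Finset.sum_congr rfl fun i _ => ?_
        rw [ha, mul_smul]
      exact (mem_piW K _).2 ⟨_, (∑ i, a i • b i : K).2, h3⟩
    · intro h
      obtain ⟨y, hy, hxy⟩ := (mem_piW K _).1 h
      have h2 : (x : K) = pi0 p L • (⟨y, hy⟩ : K) := Subtype.ext hxy
      funext i
      change IsLocalRing.residue (OO p L) (b.repr x i) = 0
      rw [h2, map_smul, Finsupp.smul_apply, smul_eq_mul, map_mul]
      have h3 : IsLocalRing.residue (OO p L) (pi0 p L) = 0 := by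
        rw [IsLocalRing.residue_eq_zero_iff, OO.mem_max]
        exact h1
      rw [h3, zero_mul]
  have hsurj : Function.Surjective φ := by
    intro y
    have h2 : ∀ i, ∃ a : OO p L, IsLocalRing.residue (OO p L) a = y i := fun i =>
      IsLocalRing.residue_surjective (y i)
    choose a ha using h2
    refine ⟨∑ i, a i • b i, ?_⟩
    funext i
    change IsLocalRing.residue (OO p L) (b.repr (∑ i, a i • b i) i) = y i
    rw [b.repr_sum_self, ha]
  have h2 : (piW K).toAddSubgroup.relIndex K.toAddSubgroup = φ.ker.index := by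
    rw [hker]
    rfl
  rw [h2, AddSubgroup.index_ker]
  have h3 : Nat.card φ.range = Nat.card (Fin n → kk p L) := by
    rw [AddMonoidHom.range_eq_top.2 hsurj]
    exact Nat.card_congr (AddSubgroup.topEquiv).toEquiv
  rw [h3, Nat.card_fun, Nat.card_eq_fintype_card (α := Fin n), Fintype.card_fin]

theorem piW_index_ne (K : Submodule (OO p L) W) (hK : K.FG) :
    (piW K).toAddSubgroup.relIndex K.toAddSubgroup ≠ 0 := by
  rw [card_piW K hK]
  have h0 : Finite (kk p L) := instFiniteRes p L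
  exact pow_ne_zero _ (Nat.card_pos).ne'

section Fit

variable (g : W →ₗ[L] W) (X : Submodule (OO p L) W)

omit [FiniteDimensional ℚ_[p] L] in
theorem pow_memX (hg : ∀ x ∈ X, g x ∈ X) (m : ℕ) : ∀ x ∈ X, (g ^ m) x ∈ X := by
  induction m with
  | zero => intro x hx; exact hx
  | succ m ih =>
    intro x hx
    rw [pow_succ', Module.End.mul_apply]
    exact hg _ (ih x hx)

/-- the images stabilize modulo `π` -/
theorem stab (hX : X.FG) (hg : ∀ x ∈ X, g x ∈ X) :
    ∃ a d : ℕ, 0 < d ∧ ∀ x ∈ X, (g ^ a) x - (g ^ (a + d)) x ∈ piW X := by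
  let gX : X →ₗ[OO p L] X :=
    { toFun := fun x => ⟨g x, hg x x.2⟩
      map_add' := fun x y => Subtype.ext (map_add g (x : W) (y : W))
      map_smul' := fun a x => Subtype.ext (map_smulR g a (x : W)) }
  have hpow : ∀ (m : ℕ) (x : X), (((gX ^ m) x : X) : W) = (g ^ m) (x : W) := by
    intro m
    induction m with
    | zero => intro x; rfl
    | succ m ih =>
      intro x
      rw [pow_succ', pow_succ', Module.End.mul_apply, Module.End.mul_apply, ← ih x]
      rfl
  set P : Submodule (OO p L) X := (piW X).comap X.subtype with hP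
  have hle : P ≤ P.comap gX := by
    intro x hx
    rw [hP, Submodule.mem_comap] at hx
    obtain ⟨y, hy, hxy⟩ := (mem_piW X _).1 hx
    change g (x : W) ∈ piW X
    have hxy' : (x : W) = pi0 p L • y := hxy
    rw [hxy', map_smulR]
    exact (mem_piW X _).2 ⟨_, hg y hy, rfl⟩
  have hfin : Finite (X ⧸ P) := by
    have h1 := piW_index_ne X hX
    have h2 : P.toAddSubgroup.index ≠ 0 := h1
    have h3 : P.toAddSubgroup.FiniteIndex := ⟨h2⟩
    exact AddSubgroup.finite_quotient_of_finiteIndex (H := P.toAddSubgroup)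
  have hfin2 : Finite ((X ⧸ P) →ₗ[OO p L] (X ⧸ P)) :=
    Finite.of_injective _ DFunLike.coe_injective
  obtain ⟨a, b, hab, heq⟩ := Finite.exists_ne_map_eq_of_infinite
    (fun m : ℕ => ((P.mapQ P gX hle) ^ m : (X ⧸ P) →ₗ[OO p L] (X ⧸ P)))
  have key : ∀ a b : ℕ, a < b → ((P.mapQ P gX hle) ^ a : (X ⧸ P) →ₗ[OO p L] (X ⧸ P)) =
      (P.mapQ P gX hle) ^ b →
      ∃ a d : ℕ, 0 < d ∧ ∀ x ∈ X, (g ^ a) x - (g ^ (a + d)) x ∈ piW X := by
    intro a b hab heq
    refine ⟨a, b - a, by omega, fun x hx => ?_⟩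
    have h1 : a + (b - a) = b := by omega
    rw [h1]
    have h2 := congrArg (fun f : (X ⧸ P) →ₗ[OO p L] (X ⧸ P) =>
      f (Submodule.Quotient.mk (⟨x, hx⟩ : X))) heq
    rw [← Submodule.mapQ_pow, ← Submodule.mapQ_pow, Submodule.mapQ_apply, Submodule.mapQ_apply,
      Submodule.Quotient.eq] at h2
    have h3 : ((((gX ^ a) (⟨x, hx⟩ : X) - (gX ^ b) (⟨x, hx⟩ : X)) : X) : W) ∈ piW X := h2
    rw [Submodule.coe_sub, hpow, hpow] at h3
    exact h3
  rcases lt_or_gt_of_ne hab with h | h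
  · exact key a b h heq
  · exact key b a h heq.symm

theorem piW_g (hg : ∀ x ∈ X, g x ∈ X) (m : ℕ) {x : W} (hx : x ∈ piW X) :
    (g ^ m) x ∈ piW X := by
  obtain ⟨y, hy, rfl⟩ := (mem_piW X _).1 hx
  rw [map_smulR]
  exact (mem_piW X _).2 ⟨_, pow_memX g X hg m y hy, rfl⟩

/-- the images are stable modulo `π` -/
theorem stab' (hX : X.FG) (hg : ∀ x ∈ X, g x ∈ X) :
    ∃ a : ℕ, ∀ N ≥ a, ∀ j : ℕ, ∀ x ∈ X, ∃ z ∈ X, (g ^ N) x - (g ^ (N + j)) z ∈ piW X := by
  obtain ⟨a, d, hd, h⟩ := stab g X hX hg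
  have h2 : ∀ k : ℕ, ∀ x ∈ X, (g ^ a) x - (g ^ (a + k * d)) x ∈ piW X := by
    intro k
    induction k with
    | zero =>
      intro x _
      rw [zero_mul, add_zero, sub_self]
      exact Submodule.zero_mem _
    | succ k ih =>
      intro x hx
      have h3 := piW_g g X hg (k * d) (h x hx)
      have h4 := ih x hx
      have h5 : (g ^ a) x - (g ^ (a + (k + 1) * d)) x =
          ((g ^ a) x - (g ^ (a + k * d)) x) + (g ^ (k * d)) ((g ^ a) x - (g ^ (a + d)) x) := by
        rw [map_sub, ← Module.End.mul_apply, ← Module.End.mul_apply, ← pow_add, ← pow_add]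
        have e1 : k * d + a = a + k * d := by ring
        have e2 : k * d + (a + d) = a + (k + 1) * d := by ring
        rw [e1, e2]
        abel
      rw [h5]
      exact Submodule.add_mem _ h4 h3
  refine ⟨a, fun N hN j x hx => ?_⟩
  obtain ⟨e, rfl⟩ := Nat.exists_eq_add_of_le hN
  obtain ⟨k, hk⟩ : ∃ k, j ≤ k * d := ⟨j, Nat.le_mul_of_pos_right j hd⟩
  obtain ⟨r, hr⟩ := Nat.exists_eq_add_of_le hk
  refine ⟨(g ^ r) x, pow_memX g X hg r x hx, ?_⟩
  have h3 := piW_g g X hg e (h2 k x hx)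
  rw [map_sub, ← Module.End.mul_apply, ← Module.End.mul_apply, ← pow_add, ← pow_add] at h3
  rw [← Module.End.mul_apply, ← pow_add]
  have e1 : e + a = a + e := by ring
  have e2 : e + (a + k * d) = a + e + j + r := by rw [hr]; ring
  rw [e1, e2] at h3
  exact h3

/-- Lifting of the nilpotent part. -/
theorem surj (hX : X.FG) (hg : ∀ x ∈ X, g x ∈ X) (x : W) (hx : x ∈ X)
    (hK : ∃ K : ℕ, (g ^ K) x ∈ piW X) :
    ∃ x' ∈ X, (∀ k : ℕ, ∃ m₀ : ℕ, ∀ m ≥ m₀, ∃ y ∈ X, (g ^ m) x' = pi0 p L ^ k • y) ∧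
      x - x' ∈ piW X := by
  obtain ⟨K, hK⟩ := hK
  obtain ⟨a, ha⟩ := stab' g X hX hg
  set N := a + K with hN
  have hN1 : (g ^ N) x ∈ piW X := by
    have h1 := piW_g g X hg a hK
    rwa [← Module.End.mul_apply, ← pow_add] at h1
  -- the property of the approximations
  let P : ℕ → W → Prop := fun m x => x ∈ X ∧ ∀ j ≤ m, ∃ y ∈ X, (g ^ (j * N)) x = pi0 p L ^ j • y
  have hstep : ∀ (m : ℕ) (x : W), ∃ z ∈ X, P m x → P (m + 1) (x + pi0 p L ^ m • z) := by
    intro m x
    by_cases hP : P m x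
    · obtain ⟨y, hy, hxy⟩ := hP.2 m le_rfl
      obtain ⟨z', hz', hz2⟩ := ha N (Nat.le_add_right _ _) ((m + 1) * N) y hy
      refine ⟨-(g ^ N) z', X.neg_mem (pow_memX g X hg N _ hz'), fun _ => ⟨?_, ?_⟩⟩
      · exact X.add_mem hP.1 (X.smul_mem _ (X.neg_mem (pow_memX g X hg N _ hz')))
      · intro j hj
        rcases Nat.lt_or_ge m j with h | h
        · have hj' : j = m + 1 := by omega
          subst hj'
          obtain ⟨w, hw, hw2⟩ := (mem_piW X _).1 hz2
          refine ⟨w, hw, ?_⟩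
          have e1 : (g ^ ((m + 1) * N)) x = pi0 p L ^ m • (g ^ N) y := by
            have : (m + 1) * N = N + m * N := by ring
            rw [this, pow_add, Module.End.mul_apply, hxy, map_smulR]
          have e2 : (g ^ ((m + 1) * N)) ((g ^ N) z') = (g ^ (N + (m + 1) * N)) z' := by
            rw [← Module.End.mul_apply, ← pow_add, add_comm]
          rw [map_add, map_smulR, e1, map_neg, e2, ← smul_add, ← sub_eq_add_neg, hw2, smul_smul,
            pow_succ]
        · obtain ⟨y2, hy2, hxy2⟩ := hP.2 j h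
          obtain ⟨r, hr⟩ := Nat.exists_eq_add_of_le h
          refine ⟨y2 + pi0 p L ^ r • (g ^ (j * N)) (-(g ^ N) z'),
            X.add_mem hy2 (X.smul_mem _ (pow_memX g X hg _ _
              (X.neg_mem (pow_memX g X hg N _ hz')))), ?_⟩
          rw [map_add, map_smulR, hxy2, smul_add, smul_smul, ← pow_add, ← hr]
    · exact ⟨0, X.zero_mem, fun h => absurd h hP⟩
  choose Z hZ hZ2 using hstep
  let s : ℕ → W := fun m => Nat.rec x (fun m s => s + pi0 p L ^ (m + 1) • Z (m + 1) s) m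
  have hs0 : s 0 = x := rfl
  have hs1 : ∀ m, s (m + 1) = s m + pi0 p L ^ (m + 1) • Z (m + 1) (s m) := fun m => rfl
  have hsP : ∀ m, P (m + 1) (s m) := by
    intro m
    induction m with
    | zero =>
      refine ⟨hx, fun j hj => ?_⟩
      rcases Nat.lt_or_ge 0 j with h | h
      · have hj' : j = 1 := by omega
        subst hj'
        obtain ⟨y, hy, hxy⟩ := (mem_piW X _).1 hN1
        refine ⟨y, hy, ?_⟩
        rw [one_mul, pow_one, hs0]
        exact hxy
      · have hj' : j = 0 := by omega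
        subst hj'
        refine ⟨x, hx, ?_⟩
        rw [zero_mul, pow_zero, pow_zero, one_smul, hs0]
        rfl
    | succ m ih =>
      rw [hs1]
      exact hZ2 (m + 1) (s m) ih
  obtain ⟨w, hw, hw2⟩ := complX X hX (fun m => Z (m + 1) (s m)) (fun m => hZ _ _)
  have hsum : ∀ M, s M = x + pi0 p L • ∑ m ∈ Finset.range M, pi0 p L ^ m • Z (m + 1) (s m) := by
    intro M
    induction M with
    | zero => rw [Finset.range_zero, Finset.sum_empty, smul_zero, add_zero, hs0]
    | succ M ih =>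
      rw [Finset.sum_range_succ, smul_add, ← add_assoc, ← ih, hs1, smul_smul, ← pow_succ']
  refine ⟨x + pi0 p L • w, X.add_mem hx (X.smul_mem _ hw), fun k => ⟨k * N, fun m hm => ?_⟩, ?_⟩
  · obtain ⟨y, hy, hwy⟩ := hw2 k
    have h1 : x + pi0 p L • w = s k + pi0 p L ^ (k + 1) • y := by
      rw [hwy, smul_add, ← add_assoc, ← hsum k, smul_smul, ← pow_succ']
    obtain ⟨y2, hy2, h2⟩ := (hsP k).2 k (Nat.le_succ k)
    obtain ⟨r, rfl⟩ := Nat.exists_eq_add_of_le hm
    refine ⟨(g ^ r) y2 + (g ^ (k * N + r)) (pi0 p L • y), ?_, ?_⟩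
    · exact X.add_mem (pow_memX g X hg _ _ hy2) (pow_memX g X hg _ _ (X.smul_mem _ hy))
    · have e1 : (g ^ (k * N + r)) (s k) = pi0 p L ^ k • (g ^ r) y2 := by
        rw [add_comm, pow_add, Module.End.mul_apply, h2, map_smulR]
      rw [h1, map_add, e1, smul_add, pow_succ, mul_smul, map_smulR]
  · refine (mem_piW X _).2 ⟨-w, X.neg_mem hw, ?_⟩
    rw [smul_neg]
    abel

end Fit

theorem span_inf (X : Submodule (OO p L) W) (hX : ∀ x : W, ∃ m : ℕ, pi0 p L ^ m • x ∈ X)
    (U : Submodule L W) :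
    Submodule.span L ((X ⊓ U.restrictScalars (OO p L) : Submodule (OO p L) W) : Set W) = U := by
  apply le_antisymm
  · rw [Submodule.span_le]
    intro x hx
    exact hx.2
  · intro u hu
    obtain ⟨m, hm⟩ := hX u
    have h1 : pi0 p L ^ m • u ∈ (X ⊓ U.restrictScalars (OO p L) : Submodule (OO p L) W) :=
      ⟨hm, (U.restrictScalars (OO p L)).smul_mem _ hu⟩
    have h2 : u = (((pi0 p L : OO p L) : L) ^ m)⁻¹ • (pi0 p L ^ m • u) := by
      rw [smul_def', Subring.coe_pow, smul_smul, inv_mul_cancel₀ (pow_ne_zero _ (pi0_ne p L)),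
        one_smul]
    rw [h2]
    exact Submodule.smul_mem _ _ (Submodule.subset_span h1)

theorem fg_inf (X Y : Submodule (OO p L) W) (hX : X.FG) : (X ⊓ Y).FG := by
  have h1 : IsNoetherian (OO p L) X := isNoetherian_of_fg_of_noetherian X hX
  have h2 : (X ⊓ Y).FG := by
    have h3 := isNoetherian_of_le (s := X ⊓ Y) (t := X) inf_le_left
    exact (isNoetherian_submodule.1 h1) (X ⊓ Y) inf_le_left
  exact h2

omit [FiniteDimensional ℚ_[p] L] in
theorem smul_mem_iff (U : Submodule L W) {a : OO p L} (ha : (a : L) ≠ 0) (x : W) :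
    a • x ∈ U ↔ x ∈ U := by
  constructor
  · intro h
    have h2 := U.smul_mem (a : L)⁻¹ h
    rwa [smul_def', smul_smul, inv_mul_cancel₀ ha, one_smul] at h2
  · intro h
    exact U.smul_mem (a : L) h

end RFIT

open RFIT

theorem stFit : StFit := by
  intro p _ L _ _ _ W _ _ _ f X hX hf hf' U hU U₁ U₂ h1 h2
  set g : W →ₗ[L] W := (f : W →ₗ[L] W) - 1 with hg
  have hgX : ∀ x ∈ X, g x ∈ X := fun x hx => X.sub_mem (hf x hx) hx
  have hgU : ∀ x ∈ U, g x ∈ U := fun x hx => U.sub_mem (hU x hx) hx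
  have hle : U₂ ≤ U₁ := by
    intro x hx
    rw [h1 x]
    exact ⟨Submodule.mem_top, ((h2 x).1 hx).2⟩
  have hleU : U₂ ≤ U := fun x hx => ((h2 x).1 hx).1
  have hU2 : ∀ x, x ∈ U₁ → x ∈ U → x ∈ U₂ := fun x hx hxU => (h2 x).2 ⟨hxU, ((h1 x).1 hx).2⟩
  have hdim := Submodule.finrank_mono hle
  refine ⟨hdim, ?_, ?_⟩
  · exact sup_le_sup_right (piW_le X) _
  -- the modules
  have hUR : ∀ (V : Submodule L W) (x : W), x ∈ V.restrictScalars (OO p L) ↔ x ∈ V :=
    fun V x => Iff.rfl
  set XU : Submodule (OO p L) W := X ⊓ U.restrictScalars (OO p L) with hXU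
  set K₁ : Submodule (OO p L) W := X ⊓ U₁.restrictScalars (OO p L) with hK₁
  set K₂ : Submodule (OO p L) W := X ⊓ U₂.restrictScalars (OO p L) with hK₂
  set P : Submodule (OO p L) W := piW X ⊔ U.restrictScalars (OO p L) with hP
  have hXUfg : XU.FG := fg_inf X _ hX.fg
  have hK₁fg : K₁.FG := fg_inf X _ hX.fg
  have hK₂fg : K₂.FG := fg_inf X _ hX.fg
  have hgXU : ∀ x ∈ XU, g x ∈ XU := fun x hx => ⟨hgX x hx.1, hgU x hx.2⟩
  have hmemP : ∀ x, x ∈ P ↔ ∃ y ∈ X, ∃ u ∈ U, x = pi0 p L • y + u := by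
    intro x
    rw [hP, Submodule.mem_sup]
    constructor
    · rintro ⟨y, hy, u, hu, rfl⟩
      obtain ⟨y', hy', rfl⟩ := (mem_piW X y).1 hy
      exact ⟨y', hy', u, hu, rfl⟩
    · rintro ⟨y, hy, u, hu, rfl⟩
      exact ⟨_, (mem_piW X _).2 ⟨y, hy, rfl⟩, u, hu, rfl⟩
  have hpowU : ∀ (m : ℕ) (x : W), x ∈ U → (g ^ m) x ∈ U := by
    intro m
    induction m with
    | zero => intro x hx; exact hx
    | succ m ih =>
      intro x hx
      rw [pow_succ', Module.End.mul_apply]
      exact hgU _ (ih x hx)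
  have hPg : ∀ (m : ℕ) (x : W), x ∈ P → (g ^ m) x ∈ P := by
    intro m x hx
    obtain ⟨y, hy, u, hu, rfl⟩ := (hmemP x).1 hx
    rw [map_add, map_smulR]
    exact (hmemP _).2 ⟨_, pow_memX g X hgX m y hy, _, hpowU m u hu, rfl⟩
  refine ⟨K₁ ⊔ P, ?_, ?_⟩
  · intro y
    constructor
    · intro hy
      obtain ⟨k, hk, q, hq, rfl⟩ := Submodule.mem_sup.1 hy
      refine ⟨?_, ?_⟩
      · refine Submodule.add_mem _ (Submodule.mem_sup_left hk.1) ?_
        exact sup_le_sup_right (piW_le X) _ hq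
      · obtain ⟨m₀, hm⟩ := ((h1 k).1 hk.2).2 1
        obtain ⟨y, hy, hky⟩ := hm m₀ le_rfl
        refine ⟨m₀, ?_⟩
        rw [map_add]
        refine Submodule.add_mem _ ?_ (hPg m₀ q hq)
        rw [hky, pow_one]
        exact (hmemP _).2 ⟨y, hy, 0, U.zero_mem, (add_zero _).symm⟩
    · rintro ⟨hy, K, hK⟩
      obtain ⟨x, hx, u, hu, rfl⟩ := Submodule.mem_sup.1 hy
      have hgx : (g ^ K) x ∈ P := by
        have h3 : (g ^ K) x = (g ^ K) (x + u) - (g ^ K) u := by
          rw [map_add, add_sub_cancel_right]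
        rw [h3]
        refine Submodule.sub_mem _ hK ((hmemP _).2 ⟨0, X.zero_mem, _, hpowU K u hu, ?_⟩)
        rw [smul_zero, zero_add]
      obtain ⟨x', hx', u', hu', hxu⟩ := (hmemP _).1 hgx
      have hu'X : u' ∈ XU := by
        refine ⟨?_, hu'⟩
        have h3 : u' = (g ^ K) x - pi0 p L • x' := by rw [hxu, add_sub_cancel_left]
        rw [h3]
        exact X.sub_mem (pow_memX g X hgX K x hx) (X.smul_mem _ hx')
      obtain ⟨a, ha⟩ := stab' g XU hXUfg hgXU
      obtain ⟨z, hz, hz2⟩ := ha a le_rfl K u' hu'X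
      have hnil : (g ^ (a + K)) (x - z) ∈ piW X := by
        have h3 : (g ^ (a + K)) (x - z) = (g ^ a) (pi0 p L • x') +
            ((g ^ a) u' - (g ^ (a + K)) z) := by
          rw [map_sub, pow_add, Module.End.mul_apply, hxu, map_add]
          abel
        rw [h3]
        refine Submodule.add_mem _ ?_ ?_
        · rw [map_smulR]
          exact (mem_piW X _).2 ⟨_, pow_memX g X hgX a x' hx', rfl⟩
        · obtain ⟨w, hw, hw2⟩ := (mem_piW XU _).1 hz2
          exact (mem_piW X _).2 ⟨w, hw.1, hw2⟩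
      obtain ⟨k, hk, hk2, hk3⟩ := surj g X hX.fg hgX (x - z) (X.sub_mem hx hz.1) ⟨_, hnil⟩
      have hkU : k ∈ K₁ := ⟨hk, (h1 k).2 ⟨Submodule.mem_top, hk2⟩⟩
      obtain ⟨w, hw, hw2⟩ := (mem_piW X _).1 hk3
      have h3 : x + u = k + (pi0 p L • w + (z + u)) := by
        rw [← hw2]
        abel
      rw [h3]
      refine Submodule.add_mem _ (Submodule.mem_sup_left hkU) (Submodule.mem_sup_right ?_)
      exact (hmemP _).2 ⟨w, hw, _, U.add_mem hz.2 hu, rfl⟩
  -- the index
  have hinf : P ⊓ K₁ = K₂ ⊔ piW K₁ := by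
    apply le_antisymm
    · rintro x ⟨hxP, hxK⟩
      obtain ⟨y, hy, u, hu, hxy⟩ := (hmemP x).1 hxP
      have huX : u ∈ XU := by
        refine ⟨?_, hu⟩
        have h3 : u = x - pi0 p L • y := by rw [hxy, add_sub_cancel_left]
        rw [h3]
        exact X.sub_mem hxK.1 (X.smul_mem _ hy)
      -- the powers of `g` on `u`
      obtain ⟨m₀, hm⟩ := ((h1 x).1 hxK.2).2 1
      obtain ⟨y', hy', hxy'⟩ := hm m₀ le_rfl
      have hnil : (g ^ m₀) u ∈ piW XU := by
        have h3 : (g ^ m₀) u = pi0 p L • (y' - (g ^ m₀) y) := by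
          rw [smul_sub, ← map_smulR (g ^ m₀) (pi0 p L) y]
          rw [← pow_one (pi0 p L), ← hxy', pow_one, hxy, map_add, add_sub_cancel_left]
        refine (mem_piW XU _).2 ⟨_, ⟨X.sub_mem hy' (pow_memX g X hgX m₀ y hy), ?_⟩, h3⟩
        change y' - (g ^ m₀) y ∈ U
        rw [← smul_mem_iff U (pi0_ne p L), ← h3]
        exact hpowU m₀ u hu
      obtain ⟨k, hk, hk2, hk3⟩ := surj g XU hXUfg hgXU u huX ⟨_, hnil⟩
      have hkU2 : k ∈ U₂ := by
        rw [h2 k]
        refine ⟨hk.2, fun j => ?_⟩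
        obtain ⟨m₁, hm₁⟩ := hk2 j
        refine ⟨m₁, fun m hm => ?_⟩
        obtain ⟨y₁, hy₁, h4⟩ := hm₁ m hm
        exact ⟨y₁, hy₁.1, h4⟩
      obtain ⟨w, hw, hw2⟩ := (mem_piW XU _).1 hk3
      have hx2 : x = k + pi0 p L • (y + w) := by
        rw [hxy, smul_add, ← hw2]
        abel
      rw [hx2]
      refine Submodule.add_mem _ (Submodule.mem_sup_left ⟨hk.1, hkU2⟩)
        (Submodule.mem_sup_right ?_)
      refine (mem_piW K₁ _).2 ⟨y + w, ⟨X.add_mem hy hw.1, ?_⟩, rfl⟩
      change y + w ∈ U₁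
      rw [← smul_mem_iff U₁ (pi0_ne p L)]
      have h3 : pi0 p L • (y + w) = x - k := by rw [hx2, add_sub_cancel_left]
      rw [h3]
      exact U₁.sub_mem hxK.2 (hle hkU2)
    · refine sup_le ?_ ?_
      · intro x hx
        exact ⟨Submodule.mem_sup_right (hleU hx.2), hx.1, hle hx.2⟩
      · intro x hx
        obtain ⟨y, hy, rfl⟩ := (mem_piW K₁ x).1 hx
        refine ⟨(hmemP _).2 ⟨y, hy.1, 0, U.zero_mem, (add_zero _).symm⟩, K₁.smul_mem _ hy⟩
  have hinf2 : piW K₁ ⊓ K₂ = piW K₂ := by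
    apply le_antisymm
    · rintro x ⟨hx, hx2⟩
      obtain ⟨y, hy, rfl⟩ := (mem_piW K₁ x).1 hx
      exact (mem_piW K₂ _).2 ⟨y, ⟨hy.1, (smul_mem_iff U₂ (pi0_ne p L) y).1 hx2.2⟩, rfl⟩
    · intro x hx
      obtain ⟨y, hy, rfl⟩ := (mem_piW K₂ x).1 hx
      exact ⟨(mem_piW K₁ _).2 ⟨y, ⟨hy.1, hle hy.2⟩, rfl⟩, K₂.smul_mem _ hy⟩
  have hc1 := card_piW K₁ hK₁fg
  have hc2 := card_piW K₂ hK₂fg
  rw [hK₁, span_inf X hX.span U₁, ← hK₁] at hc1
  rw [hK₂, span_inf X hX.span U₂, ← hK₂] at hc2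
  have e1 : P.toAddSubgroup.relIndex (K₁ ⊔ P).toAddSubgroup =
      P.toAddSubgroup.relIndex K₁.toAddSubgroup := by
    have h6 : (K₁ ⊔ P).toAddSubgroup = K₁.toAddSubgroup ⊔ P.toAddSubgroup :=
      Submodule.sup_toAddSubgroup K₁ P
    rw [h6, AddSubgroup.relIndex_sup_right]
  have e2 : P.toAddSubgroup.relIndex K₁.toAddSubgroup =
      (K₂ ⊔ piW K₁).toAddSubgroup.relIndex K₁.toAddSubgroup := by
    rw [← hinf, ← AddSubgroup.inf_relIndex_right]
    rfl
  have e3 : (piW K₁).toAddSubgroup.relIndex (K₂ ⊔ piW K₁).toAddSubgroup =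
      (piW K₂).toAddSubgroup.relIndex K₂.toAddSubgroup := by
    have h6 : (K₂ ⊔ piW K₁).toAddSubgroup = K₂.toAddSubgroup ⊔ (piW K₁).toAddSubgroup :=
      Submodule.sup_toAddSubgroup K₂ (piW K₁)
    rw [h6, AddSubgroup.relIndex_sup_right, ← hinf2,
      ← AddSubgroup.inf_relIndex_right]
    rfl
  have e4 := AddSubgroup.relIndex_mul_relIndex (piW K₁).toAddSubgroup (K₂ ⊔ piW K₁).toAddSubgroup
    K₁.toAddSubgroup (fun x hx => Submodule.mem_sup_right hx)
    (fun x hx => by
      have h3 : (K₂ ⊔ piW K₁ : Submodule (OO p L) W) ≤ K₁ := by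
        rw [← hinf]
        exact inf_le_right
      exact h3 hx)
  rw [e3, hc2, hc1] at e4
  rw [e1, e2]
  have h0 : Finite (kk p L) := instFiniteRes p L
  have hq : 0 < Nat.card (kk p L) := Nat.card_pos
  have h5 : Nat.card (kk p L) ^ Module.finrank L U₂ *
      Nat.card (kk p L) ^ (Module.finrank L U₁ - Module.finrank L U₂) =
      Nat.card (kk p L) ^ Module.finrank L U₁ := by
    rw [← pow_add]
    congr 1
    omega
  exact Nat.eq_of_mul_eq_mul_left (pow_pos hq _) (e4.trans h5.symm)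

end BKT
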