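import Pool.Agent.Lib.MP_7c08ba_nt.T1.StR

set_option autoImplicit false

/-!
Module MUW: the multiplicity of the eigenvalue one is additive.
-/

noncomputable section

namespace BKT

open NumberField BKGen BKMet

namespace RMUW

section card

variable (p : ℕ) [Fact p.Prime] {L : Type} [NormedField L] [NormedAlgebra ℚ_[p] L]
  [FiniteDimensional ℚ_[p] L] {W : Type} [AddCommGroup W] [Module L W]
  {A B : Submodule (OO p L) W}

omit [FiniteDimensional ℚ_[p] L] in
theorem smul_def' (a : OO p L) (y : W) : a • y = (a : L) • y := rfl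

theorem card_step {y : W} (hy : y ∉ A) (hπ : pi0 p L • y ∈ A) :
    A.toAddSubgroup.relIndex (A ⊔ Submodule.span (OO p L) {y}).toAddSubgroup =
      Nat.card (kk p L) := by
  set f := QuotientAddGroup.mk' A.toAddSubgroup with hf
  set C := A ⊔ Submodule.span (OO p L) {y} with hC
  set o : OO p L →+ W := (LinearMap.toSpanSingleton (OO p L) W y).toAddMonoidHom with ho
  have ho1 : ∀ a, o a = a • y := fun a => rfl
  have h1 : A.toAddSubgroup.relIndex C.toAddSubgroup = Nat.card (C.toAddSubgroup.map f) := by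
    rw [← AddSubgroup.relIndex_ker, hf, QuotientAddGroup.ker_mk']
  have h2 : C.toAddSubgroup.map f = (f.comp o).range := by
    ext z
    constructor
    · rintro ⟨x, hx, rfl⟩
      obtain ⟨u, hu, v, hv, rfl⟩ := Submodule.mem_sup.1 (show x ∈ C from hx)
      obtain ⟨a, rfl⟩ := Submodule.mem_span_singleton.1 hv
      refine ⟨a, ?_⟩
      rw [AddMonoidHom.comp_apply, ho1, map_add]
      have h3 : f u = 0 := by
        rw [hf, QuotientAddGroup.mk'_apply, QuotientAddGroup.eq_zero_iff]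
        exact hu
      rw [h3, zero_add]
    · rintro ⟨a, rfl⟩
      refine ⟨a • y, ?_, rfl⟩
      exact Submodule.mem_sup_right (Submodule.smul_mem _ a (Submodule.mem_span_singleton_self y))
  have h3 : (f.comp o).ker = (IsLocalRing.maximalIdeal (OO p L)).toAddSubgroup := by
    ext a
    rw [AddMonoidHom.mem_ker, AddMonoidHom.comp_apply, hf, QuotientAddGroup.mk'_apply,
      QuotientAddGroup.eq_zero_iff, Submodule.mem_toAddSubgroup, ho1, Submodule.mem_toAddSubgroup]
    constructor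
    · intro h
      by_contra h4
      have h5 : IsUnit a := by
        by_contra h6
        exact h4 ((IsLocalRing.mem_maximalIdeal a).2 h6)
      obtain ⟨u, rfl⟩ := h5
      have h6 := A.smul_mem ((u⁻¹ : (OO p L)ˣ) : OO p L) h
      rw [smul_smul, Units.inv_mul, one_smul] at h6
      exact hy h6
    · intro h
      obtain ⟨b, rfl⟩ := (pi0_dvd p L a).2 ((OO.mem_max a).1 h)
      rw [mul_comm, mul_smul]
      exact A.smul_mem b hπ
  rw [h1, h2, ← AddSubgroup.index_ker, h3]
  rfl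

/-- a power of the uniformizer multiplies into a submodule of finite index -/
theorem pow_mem (hi : A.toAddSubgroup.relIndex B.toAddSubgroup ≠ 0) :
    ∃ n : ℕ, ∀ x ∈ B, (pi0 p L) ^ n • x ∈ A := by
  set N := A.toAddSubgroup.relIndex B.toAddSubgroup with hN
  have c0 : CharZero L := charZero_of_injective_algebraMap (algebraMap ℚ_[p] L).injective
  have hN0 : (N : L) ≠ 0 := Nat.cast_ne_zero.2 hi
  obtain ⟨n, hn⟩ := exists_pow_lt_of_lt_one (norm_pos_iff.2 hN0) (pi0_lt p L)
  refine ⟨n, fun x hx => ?_⟩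
  have h1 : ∀ z ∈ B, N • z ∈ A := by
    intro z hz
    exact AddSubgroup.nsmul_index_mem (A.toAddSubgroup.addSubgroupOf B.toAddSubgroup)
      (⟨z, hz⟩ : B.toAddSubgroup)
  have h2 : ‖((pi0 p L : OO p L) : L) ^ n / (N : L)‖ ≤ 1 := by
    rw [norm_div, norm_pow]
    exact div_le_one_of_le₀ hn.le (norm_nonneg _)
  have h3 := h1 _ (B.smul_mem (⟨_, h2⟩ : OO p L) hx)
  rw [smul_def', ← Nat.cast_smul_eq_nsmul L, smul_smul] at h3
  change ((N : L) * (((pi0 p L : OO p L) : L) ^ n / (N : L))) • x ∈ A at h3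
  rw [mul_div_cancel₀ _ hN0] at h3
  exact h3

/-- the index of a submodule of finite index is a power of `q` -/
theorem exists_card (h : A ≤ B) (hi : A.toAddSubgroup.relIndex B.toAddSubgroup ≠ 0) :
    ∃ m : ℕ, A.toAddSubgroup.relIndex B.toAddSubgroup = Nat.card (kk p L) ^ m := by
  classical
  suffices H : ∀ N : ℕ, ∀ A : Submodule (OO p L) W, A ≤ B →
      A.toAddSubgroup.relIndex B.toAddSubgroup = N → N ≠ 0 →
      ∃ m : ℕ, N = Nat.card (kk p L) ^ m from H _ A h rfl hi
  intro N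
  induction N using Nat.strong_induction_on with
  | _ N ih =>
    intro A hAB hN hN0
    rcases hAB.eq_or_lt with h1 | h1
    · refine ⟨0, ?_⟩
      rw [← hN, h1, AddSubgroup.relIndex_self, pow_zero]
    · obtain ⟨x, hxB, hxA⟩ := SetLike.exists_of_lt h1
      obtain ⟨n, hn⟩ := pow_mem p (A := A) (B := B) (by rw [hN]; exact hN0)
      have hex : ∃ n : ℕ, (pi0 p L) ^ n • x ∈ A := ⟨n, hn x hxB⟩
      set m := Nat.find hex with hm
      have hm1 := Nat.find_spec hex
      have hm0 : m ≠ 0 := by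
        intro h0
        rw [← hm, h0, pow_zero, one_smul] at hm1
        exact hxA hm1
      obtain ⟨j, hj⟩ := Nat.exists_eq_succ_of_ne_zero hm0
      have hy : (pi0 p L) ^ j • x ∉ A := Nat.find_min hex (by omega)
      have hπ : pi0 p L • (pi0 p L) ^ j • x ∈ A := by
        rw [smul_smul, ← pow_succ', ← Nat.succ_eq_add_one, ← hj]
        exact hm1
      have hyB : (pi0 p L) ^ j • x ∈ B := B.smul_mem _ hxB
      set y := (pi0 p L) ^ j • x with hyd
      set C := A ⊔ Submodule.span (OO p L) {y} with hC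
      have hCB : C ≤ B := sup_le hAB ((Submodule.span_singleton_le_iff_mem _ _).2 hyB)
      have hAC : A ≤ C := le_sup_left
      have h2 := AddSubgroup.relIndex_mul_relIndex A.toAddSubgroup C.toAddSubgroup B.toAddSubgroup
        hAC hCB
      have h3 : A.toAddSubgroup.relIndex C.toAddSubgroup = Nat.card (kk p L) :=
        card_step p hy hπ
      have h4 : 1 < Nat.card (kk p L) := Finite.one_lt_card
      rw [h3, hN] at h2
      have h5 : C.toAddSubgroup.relIndex B.toAddSubgroup ≠ 0 := by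
        intro h6
        rw [h6, mul_zero] at h2
        exact hN0 h2.symm
      have h6 : C.toAddSubgroup.relIndex B.toAddSubgroup < N := by
        rw [← h2]
        exact lt_mul_of_one_lt_left (Nat.pos_of_ne_zero h5) h4
      obtain ⟨k, hk⟩ := ih _ h6 C hCB rfl h5
      exact ⟨k + 1, by rw [← h2, hk, pow_succ']⟩

end card

section gen

variable {p : ℕ} [Fact p.Prime] {L : Type} [NormedField L] [NormedAlgebra ℚ_[p] L]
  {W : Type} [AddCommGroup W] [Module L W]

theorem sub_mem' (f : W →ₗ[L] W) {A : Submodule (OO p L) W} (hA : ∀ x ∈ A, f x ∈ A) :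
    ∀ K : ℕ, ∀ x ∈ A, ((f - 1) ^ K) x ∈ A := by
  intro K
  induction K with
  | zero => intro x hx; exact hx
  | succ K ih =>
    intro x hx
    rw [pow_succ', Module.End.mul_apply]
    have h1 := ih x hx
    exact A.sub_mem (hA _ h1) h1

/-- the part of `B` where `f - 1` is nilpotent modulo `A` -/
def gen (f : W →ₗ[L] W) (A B : Submodule (OO p L) W) (hA : ∀ x ∈ A, f x ∈ A) :
    Submodule (OO p L) W where
  carrier := {y | y ∈ B ∧ ∃ K : ℕ, ((f - 1) ^ K) y ∈ A}
  add_mem' := by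
    rintro x y ⟨hx, K, hK⟩ ⟨hy, K', hK'⟩
    refine ⟨B.add_mem hx hy, K + K', ?_⟩
    rw [map_add]
    refine A.add_mem ?_ ?_
    · rw [add_comm, pow_add, Module.End.mul_apply]
      exact sub_mem' f hA K' _ hK
    · rw [pow_add, Module.End.mul_apply]
      exact sub_mem' f hA K _ hK'
  zero_mem' := ⟨B.zero_mem, 0, by rw [map_zero]; exact A.zero_mem⟩
  smul_mem' := by
    rintro a x ⟨hx, K, hK⟩
    refine ⟨B.smul_mem a hx, K, ?_⟩
    have h : ((f - 1) ^ K) (a • x) = a • ((f - 1) ^ K) x := by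
      change ((f - 1) ^ K) ((a : L) • x) = (a : L) • ((f - 1) ^ K) x
      rw [map_smul]
    rw [h]
    exact A.smul_mem a hK

theorem mem_gen (f : W →ₗ[L] W) {A B : Submodule (OO p L) W} (hA : ∀ x ∈ A, f x ∈ A) (y : W) :
    y ∈ gen f A B hA ↔ y ∈ B ∧ ∃ K : ℕ, ((f - 1) ^ K) y ∈ A := Iff.rfl

theorem gen_le (f : W →ₗ[L] W) {A B : Submodule (OO p L) W} (hA : ∀ x ∈ A, f x ∈ A) :
    gen f A B hA ≤ B := fun _ h => h.1

theorem le_gen (f : W →ₗ[L] W) {A B : Submodule (OO p L) W} (hA : ∀ x ∈ A, f x ∈ A)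
    (h : A ≤ B) : A ≤ gen f A B hA := fun _ hx => ⟨h hx, 0, hx⟩

/-- Fitting: an element of `Q` is, up to the kernel of a power of `f - 1` on `Q / P`, in the image
of the powers of `f - 1`. -/
theorem fitting (f : W →ₗ[L] W) {P Q : Submodule (OO p L) W}
    (hi : P.toAddSubgroup.relIndex Q.toAddSubgroup ≠ 0) (hP : ∀ x ∈ P, f x ∈ P)
    (hQ : ∀ x ∈ Q, f x ∈ Q) (K : ℕ) (z : W) (hz : z ∈ Q) :
    ∃ q ∈ Q, ∃ j : ℕ, ((f - 1) ^ j) (z - ((f - 1) ^ K) q) ∈ P := by
  have hfin : Finite (Q.toAddSubgroup ⧸ P.toAddSubgroup.addSubgroupOf Q.toAddSubgroup) :=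
    Nat.finite_of_card_ne_zero hi
  obtain ⟨n, m, hnm, h1⟩ := Finite.exists_ne_map_eq_of_infinite
    (fun n : ℕ => (QuotientAddGroup.mk (⟨((f - 1) ^ n) z, sub_mem' f hQ n z hz⟩ :
      Q.toAddSubgroup) : Q.toAddSubgroup ⧸ P.toAddSubgroup.addSubgroupOf Q.toAddSubgroup))
  have key : ∀ n m : ℕ, n < m → ((f - 1) ^ m) z - ((f - 1) ^ n) z ∈ P →
      ∃ q ∈ Q, ∃ j : ℕ, ((f - 1) ^ j) (z - ((f - 1) ^ K) q) ∈ P := by
    intro n m hnm h
    obtain ⟨d, rfl⟩ := Nat.exists_eq_add_of_lt hnm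
    have h2 : ∀ r : ℕ, ((f - 1) ^ (n + r * (d + 1))) z - ((f - 1) ^ n) z ∈ P := by
      intro r
      induction r with
      | zero =>
        rw [zero_mul, add_zero, sub_self]
        exact P.zero_mem
      | succ r ih =>
        have h3 := sub_mem' f hP (r * (d + 1)) _ h
        rw [map_sub, ← Module.End.mul_apply, ← Module.End.mul_apply, ← pow_add, ← pow_add] at h3
        have h4 := P.add_mem h3 ih
        have e1 : r * (d + 1) + (n + d + 1) = n + (r + 1) * (d + 1) := by ring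
        have e2 : r * (d + 1) + n = n + r * (d + 1) := by ring
        rw [e1, e2, sub_add_sub_cancel] at h4
        exact h4
    refine ⟨((f - 1) ^ (K * d)) z, sub_mem' f hQ _ z hz, n, ?_⟩
    have h3 := P.neg_mem (h2 K)
    rw [neg_sub] at h3
    rw [map_sub, ← Module.End.mul_apply, ← Module.End.mul_apply, ← pow_add, ← pow_add]
    have e : n + K + K * d = n + K * (d + 1) := by ring
    rw [e]
    exact h3
  have h2 := QuotientAddGroup.eq.1 h1
  rw [AddSubgroup.mem_addSubgroupOf] at h2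
  have h3 : -((f - 1) ^ n) z + ((f - 1) ^ m) z ∈ P := h2
  rw [neg_add_eq_sub] at h3
  rcases lt_or_gt_of_ne hnm with h | h
  · exact key n m h h3
  · refine key m n h ?_
    have h4 := P.neg_mem h3
    rwa [neg_sub] at h4

end gen

end RMUW

open RMUW in
/-- **Module MUW.** The multiplicity is additive. -/
theorem stMuw : StMuw := by
  intro p _ L _ _ _ W _ _ f P Q S hPQ hQS hi hP hQ hS
  have hm := AddSubgroup.relIndex_mul_relIndex P.toAddSubgroup Q.toAddSubgroup S.toAddSubgroup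
    hPQ hQS
  have hiPQ : P.toAddSubgroup.relIndex Q.toAddSubgroup ≠ 0 := by
    intro h
    rw [h, zero_mul] at hm
    exact hi hm.symm
  have hiQS : Q.toAddSubgroup.relIndex S.toAddSubgroup ≠ 0 := by
    intro h
    rw [h, mul_zero] at hm
    exact hi hm.symm
  have ex : ∀ A B : Submodule (OO p L) W, A ≤ B → (∀ x ∈ A, f x ∈ A) →
      A.toAddSubgroup.relIndex B.toAddSubgroup ≠ 0 → ∃ m, Mu f A B m := by
    intro A B hAB hA hAi
    have h1 := AddSubgroup.relIndex_mul_relIndex A.toAddSubgroup (gen f A B hA).toAddSubgroup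
      B.toAddSubgroup (le_gen f hA hAB) (gen_le f hA)
    have h2 : A.toAddSubgroup.relIndex (gen f A B hA).toAddSubgroup ≠ 0 := by
      intro h
      rw [h, zero_mul] at h1
      exact hAi h1.symm
    obtain ⟨m, hm⟩ := exists_card p (le_gen f hA hAB) h2
    exact ⟨m, hAB, gen f A B hA, mem_gen f hA, hm⟩
  have hq : 1 < Nat.card (kk p L) := Finite.one_lt_card
  have un : ∀ A B G G' : Submodule (OO p L) W,
      (∀ y, y ∈ G ↔ y ∈ B ∧ ∃ K : ℕ, ((f - 1) ^ K) y ∈ A) →
      (∀ y, y ∈ G' ↔ y ∈ B ∧ ∃ K : ℕ, ((f - 1) ^ K) y ∈ A) → G = G' := by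
    intro A B G G' h h'
    ext y
    rw [h, h']
  refine ⟨ex P Q hPQ hP hiPQ, ex Q S hQS hQ hiQS, ?_, ?_⟩
  · rintro m m' ⟨-, G, hG, h1⟩ ⟨-, G', hG', h1'⟩
    have h2 := un P Q G G' hG hG'
    subst h2
    rw [h1] at h1'
    exact Nat.pow_right_injective hq h1'
  · rintro m m' ⟨-, G₁, hG₁, h1⟩ ⟨-, G₂, hG₂, h2⟩
    refine ⟨hPQ.trans hQS, gen f P S hP, mem_gen f hP, ?_⟩
    set G₃ := gen f P S hP with hG₃
    have hPG₁ : P ≤ G₁ := fun x hx => (hG₁ x).2 ⟨hPQ hx, 0, hx⟩
    have e1 : G₁ = G₃ ⊓ Q := by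
      ext y
      rw [hG₁, Submodule.mem_inf, mem_gen]
      constructor
      · rintro ⟨h3, h4⟩
        exact ⟨⟨hQS h3, h4⟩, h3⟩
      · rintro ⟨⟨-, h4⟩, h3⟩
        exact ⟨h3, h4⟩
    have e2 : G₂ = G₃ ⊔ Q := by
      ext y
      rw [hG₂]
      constructor
      · rintro ⟨hy, K, hK⟩
        obtain ⟨q, hq, j, hj⟩ := fitting f hiPQ hP hQ K _ hK
        rw [← map_sub, ← Module.End.mul_apply, ← pow_add] at hj
        refine Submodule.mem_sup.2 ⟨y - q, ⟨S.sub_mem hy (hQS hq), j + K, hj⟩, q, hq, ?_⟩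
        rw [sub_add_cancel]
      · intro hy
        obtain ⟨u, ⟨hu, K, hK⟩, v, hv, rfl⟩ := Submodule.mem_sup.1 hy
        refine ⟨S.add_mem hu (hQS hv), K, ?_⟩
        rw [map_add]
        exact Q.add_mem (hPQ hK) (sub_mem' f hQ K _ hv)
    have hG13 : G₁ ≤ G₃ := by
      rw [e1]
      exact inf_le_left
    have h3 := AddSubgroup.relIndex_mul_relIndex P.toAddSubgroup G₁.toAddSubgroup
      G₃.toAddSubgroup hPG₁ hG13
    have h4 : G₁.toAddSubgroup.relIndex G₃.toAddSubgroup =
        Q.toAddSubgroup.relIndex G₂.toAddSubgroup := by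
      have h5 : G₁.toAddSubgroup = Q.toAddSubgroup ⊓ G₃.toAddSubgroup := by
        ext y
        rw [e1]
        constructor
        · rintro ⟨h6, h7⟩
          exact ⟨h7, h6⟩
        · rintro ⟨h6, h7⟩
          exact ⟨h7, h6⟩
      have h6 : G₂.toAddSubgroup = Q.toAddSubgroup ⊔ G₃.toAddSubgroup := by
        rw [e2, sup_comm]
        exact Submodule.sup_toAddSubgroup Q G₃
      rw [h5, h6, AddSubgroup.inf_relIndex_right, AddSubgroup.relIndex_sup_left]
    rw [← h3, h4, h1, h2, pow_add]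

end BKT
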