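import Pool.Agent.Lib.MP_7c08ba_nt.T1.RCLB
import Pool.Agent.Lib.MP_7c08ba_nt.T1.RMUW
import Pool.Agent.Lib.MP_7c08ba_nt.T1.RFIT

set_option autoImplicit false
set_option linter.unusedSectionVars false

/-!
Module CLC: the multiplicities for the two lattices `T` and `N`.
-/

noncomputable section

namespace BKT

open BKGen BKMet

namespace RCLC

section Mult

variable {p : ℕ} [Fact p.Prime] {L : Type} [NormedField L] [NormedAlgebra ℚ_[p] L]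
  [FiniteDimensional ℚ_[p] L] {W : Type} [AddCommGroup W] [Module L W]

theorem sub_pow_mem (f : W →ₗ[L] W) {A : Submodule (OO p L) W} (hA : ∀ x ∈ A, f x ∈ A) (K : ℕ) :
    ∀ x ∈ A, ((f - 1) ^ K) x ∈ A :=
  RFIT.pow_memX (f - 1) A (fun x hx => A.sub_mem (hA x hx) hx) K

/-- the second isomorphism theorem for multiplicities -/
theorem mu_sup {f : W →ₗ[L] W} {A B : Submodule (OO p L) W} (hA : ∀ x ∈ A, f x ∈ A)
    (hB : ∀ x ∈ B, f x ∈ B) {m : ℕ} (h : Mu f (A ⊓ B) A m) : Mu f B (A ⊔ B) m := by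
  obtain ⟨-, G, hG, hi⟩ := h
  refine ⟨le_sup_right, G ⊔ B, ?_, ?_⟩
  · intro y
    constructor
    · intro hy
      obtain ⟨g, hg, b, hb, rfl⟩ := Submodule.mem_sup.1 hy
      obtain ⟨hgA, K, hK⟩ := (hG g).1 hg
      refine ⟨Submodule.add_mem_sup hgA hb, K, ?_⟩
      rw [map_add]
      exact B.add_mem hK.2 (sub_pow_mem f hB K b hb)
    · rintro ⟨hy, K, hK⟩
      obtain ⟨a, ha, b, hb, rfl⟩ := Submodule.mem_sup.1 hy
      rw [map_add] at hK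
      have h1 := B.sub_mem hK (sub_pow_mem f hB K b hb)
      rw [add_sub_cancel_right] at h1
      exact Submodule.add_mem_sup ((hG a).2 ⟨ha, K, sub_pow_mem f hA K a ha, h1⟩) hb
  · rw [RCLA.relIndex_sup, ← hi, ← RCLA.relIndex_inf (P := B) (Q := G)]
    have h1 : B ⊓ G = A ⊓ B := by
      ext x
      constructor
      · rintro ⟨h1, h2⟩
        exact ⟨((hG x).1 h2).1, h1⟩
      · rintro ⟨h1, h2⟩
        exact ⟨h2, (hG x).2 ⟨h1, 0, h1, h2⟩⟩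
    rw [h1]

end Mult

section Rep

open RCLA RCLB

variable {p : ℕ} [Fact p.Prime] {D : Type} [Group D] {I : Subgroup D} {χ : D →* ℤ_[p]ˣ}
  {e : D → ℤ_[p]} {σ : D →* D} {s t : D} {a : ℤ_[p]ˣ} {L : Type} [NormedField L]
  [NormedAlgebra ℚ_[p] L] [FiniteDimensional ℚ_[p] L] {W : Type} [AddCommGroup W] [Module L W]
  {ρ : D →* (W ≃ₗ[L] W)} {φ : D} {X T N : Submodule (OO p L) W} {γ : W →ₗ[L] W →ₗ[L] L}

theorem norm_uL (c : ℤ_[p]ˣ) : ‖uL L c‖ = 1 := by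
  rw [uL, norm_algebraMap']
  exact PadicInt.norm_units c

theorem add_stab' (h : TamG p I χ e σ s t a) (hX : ∀ d, ∀ x ∈ X, ρ d x ∈ X) (d : D) {x : W}
    (hx : x ∈ addW I ρ X) : ρ d x ∈ addW I ρ X := by
  obtain ⟨x₀, hx₀, w, hw, rfl⟩ := Submodule.mem_sup.1 hx
  rw [map_add]
  exact (addW I ρ X).add_mem (Submodule.mem_sup_left (hX d _ hx₀))
    (Submodule.mem_sup_right (fix_stab h hw d))

theorem piW_stab (hX : ∀ d, ∀ x ∈ X, ρ d x ∈ X) (d : D) {x : W} (hx : x ∈ piW X) :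
    ρ d x ∈ piW X := by
  obtain ⟨y, hy, rfl⟩ := (RFIT.mem_piW X x).1 hx
  rw [RFIT.mem_piW]
  exact ⟨ρ d y, hX d y hy, rho_smul d _ _⟩

/-- the vectors fixed by `σ(t)⁻¹` modulo `X` -/
theorem mod_of_u (h : TamG p I χ e σ s t a) (hX : LatD I e φ ρ X) {y : W}
    (hy : ρ (σ t)⁻¹ y - y ∈ X) : y ∈ modW I ρ X := by
  refine mod_of_t (tam' h) (lat' hX) ?_
  have h1 := X.neg_mem (hX.stab (σ t) _ hy)
  rw [map_sub, rho_inv, neg_sub] at h1
  exact h1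

theorem u_mem (h : TamG p I χ e σ s t a) : (σ t)⁻¹ ∈ I := I.inv_mem (h.sI t h.tI)

/-- the left kernel of the form `⟨(t - 1) x, y⟩` -/
theorem left_ker (hSat : StSat) [FiniteDimensional L W] (h : TamG p I χ e σ s t a)
    (hF : FrmD χ σ s a ρ γ) (hT : LatD I e φ ρ T)
    (hself : ∀ y, y ∈ T ↔ ∀ x ∈ T, ‖γ x y‖ ≤ 1) {x : W}
    (hx : ∀ y ∈ modW I ρ T, ‖γ (ρ t x - x) y‖ < 1) : x ∈ addW I ρ (piW T) := by
  have h0 := pi0_ne p L
  set z : W := ((pi0 p L : OO p L) : L)⁻¹ • x with hz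
  have hself' : ∀ y, y ∈ T ↔ ∀ x ∈ T, ‖γ.flip x y‖ ≤ 1 := by
    intro y
    have h1 : y ∈ T ↔ ρ s y ∈ T := by
      constructor
      · exact fun h => hT.stab s y h
      · intro h
        have h2 := hT.stab s⁻¹ _ h
        rwa [rho_inv'] at h2
    rw [h1, hself]
    refine forall₂_congr fun x _ => ?_
    rw [LinearMap.flip_apply, hF.symm y x, norm_mul, norm_uL, one_mul]
  obtain ⟨x₀, hx₀, h1⟩ := hSat p L W γ.flip T hT.toLatW hself'
    (LinearMap.range ((ρ (σ t)⁻¹ : W →ₗ[L] W) - 1)) z (by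
      rintro _ hx' ⟨y, rfl⟩
      have h2 : y ∈ modW I ρ T := mod_of_u h hT hx'
      have h3 := hx y h2
      rw [dualI' h hF h.tI] at h3
      have h4 := pi0_max p L _ h3
      rw [LinearMap.flip_apply, hz, map_smul, LinearMap.smul_apply, smul_eq_mul, norm_mul,
        norm_inv, inv_mul_le_iff₀ (pi0_pos p L), mul_one]
      exact h4)
  have h2 : ρ s (ρ t (z - x₀) - (z - x₀)) = 0 := by
    refine nondeg hT hself fun y => ?_
    have h3 := hF.symm (ρ t (z - x₀) - (z - x₀)) y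
    rw [dualI' h hF h.tI] at h3
    have h4 : γ (z - x₀) (ρ (σ t)⁻¹ y - y) = 0 := h1 _ ⟨y, rfl⟩
    rw [h4] at h3
    have h5 : uL L a ≠ 0 := by
      intro h5
      have h6 := norm_uL (L := L) a
      rw [h5, norm_zero] at h6
      exact zero_ne_one h6
    exact (mul_eq_zero.1 h3.symm).resolve_left h5
  have h3 : ρ t (z - x₀) = z - x₀ := sub_eq_zero.1 ((map_eq_zero_iff _ (ρ s).injective).1 h2)
  have h4 : z - x₀ ∈ fixW I ρ := fix_of_t h hT h3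
  have h5 : x = pi0 p L • x₀ + ((pi0 p L : OO p L) : L) • (z - x₀) := by
    rw [smul_sub, hz, smul_inv_smul₀ h0, RCLA.smul_def]
    abel
  rw [h5]
  exact (addW I ρ (piW T)).add_mem
    (Submodule.mem_sup_left ((RFIT.mem_piW T _).2 ⟨x₀, hx₀, rfl⟩))
    (Submodule.mem_sup_right ((fixW I ρ).smul_mem _ h4))

theorem form_le (h : TamG p I χ e σ s t a) (hF : FrmD χ σ s a ρ γ)
    (hself : ∀ y, y ∈ T ↔ ∀ x ∈ T, ‖γ x y‖ ≤ 1) {x y : W} (hx : x ∈ T)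
    (hy : y ∈ modW I ρ T) : ‖γ (ρ t x - x) y‖ ≤ 1 := by
  rw [dualI' h hF h.tI]
  exact (hself _).1 (hy _ (u_mem h)) x hx

theorem form_lt (h : TamG p I χ e σ s t a) (hF : FrmD χ σ s a ρ γ)
    (hself : ∀ y, y ∈ T ↔ ∀ x ∈ T, ‖γ x y‖ ≤ 1) {x y : W} (hx : x ∈ addW I ρ (piW T))
    (hy : y ∈ modW I ρ T) : ‖γ (ρ t x - x) y‖ < 1 := by
  obtain ⟨x₀, hx₀, w, hw, rfl⟩ := Submodule.mem_sup.1 hx
  obtain ⟨x₁, hx₁, rfl⟩ := (RFIT.mem_piW T x₀).1 hx₀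
  have h1 : ρ t (pi0 p L • x₁ + w) - (pi0 p L • x₁ + w) =
      ((pi0 p L : OO p L) : L) • (ρ t x₁ - x₁) := by
    rw [map_add, rho_smul, hw t h.tI, smul_sub, RCLA.smul_def, RCLA.smul_def]
    abel
  rw [h1, map_smul, LinearMap.smul_apply, smul_eq_mul, norm_mul]
  calc ‖((pi0 p L : OO p L) : L)‖ * ‖γ (ρ t x₁ - x₁) y‖ ≤ ‖((pi0 p L : OO p L) : L)‖ * 1 :=
        mul_le_mul_of_nonneg_left (form_le h hF hself hx₁ hy) (norm_nonneg _)
    _ < 1 := by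
      rw [mul_one]
      exact pi0_lt p L

/-- the right kernel of the form `⟨(t - 1) x, y⟩` -/
theorem right_ker (h : TamG p I χ e σ s t a) (hF : FrmD χ σ s a ρ γ) (hN : LatD I e φ ρ N)
    (hs : ∀ y, y ∈ N ↔ ∀ x ∈ N, ‖γ x y‖ < 1) {y : W} :
    y ∈ modW I ρ N ↔ ∀ x ∈ N, ‖γ (ρ t x - x) y‖ < 1 := by
  constructor
  · intro hy x hx
    rw [dualI' h hF h.tI]
    exact (hs _).1 (hy _ (u_mem h)) x hx
  · intro hy
    refine mod_of_u h hN ((hs _).2 fun x hx => ?_)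
    rw [← dualI' h hF h.tI]
    exact hy x hx

end Rep

end RCLC

open RCLA RCLB RCLC in
/-- Module CLC (from MUW, DUL, SAT): the multiplicities for `T` and `N`. -/
theorem stClc (h1 : StMuw) (h2 : StDul) (h3 : StSat) : StClc := by
  intro p _ D _ I χ e σ s t a h L _ _ _ W _ _ _ ρ γ hF φ T N hT hN hNT hπ hself hs hiT hiN
    m₁ m₂ m₃ hm₁ hm₂ hm₃
  have hpN : piW T ≤ N := by
    intro x hx
    obtain ⟨y, hy, rfl⟩ := (RFIT.mem_piW T x).1 hx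
    exact hπ y hy
  -- the submodules
  have le1 : addW I ρ N ≤ addW I ρ T := sup_le_sup_right hNT _
  have le2 : addW I ρ T ≤ modW I ρ T := add_le hT
  have le3 : addW I ρ N ≤ modW I ρ N := add_le hN
  have le4 : modW I ρ N ≤ modW I ρ T := fun x hx i hi => hNT (hx i hi)
  have le5 : addW I ρ (piW T) ≤ addW I ρ N := sup_le_sup_right hpN _
  -- finite indices
  have i1 : (addW I ρ N).toAddSubgroup.relIndex (addW I ρ T).toAddSubgroup ≠ 0 := by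
    have h4 : addW I ρ T = T ⊔ addW I ρ N := by
      unfold addW
      rw [← sup_assoc, sup_eq_left.2 hNT]
    rw [h4, RCLA.relIndex_sup]
    refine RCLA.relIndex_ne hT.fg fun x hx => ⟨1, ?_⟩
    rw [pow_one]
    exact Submodule.mem_sup_left (hπ x hx)
  have i2 : (addW I ρ N).toAddSubgroup.relIndex (modW I ρ T).toAddSubgroup ≠ 0 := by
    rw [← AddSubgroup.relIndex_mul_relIndex (addW I ρ N).toAddSubgroup
      (addW I ρ T).toAddSubgroup (modW I ρ T).toAddSubgroup le1 le2]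
    exact mul_ne_zero i1 hiT
  have i3 : (modW I ρ N).toAddSubgroup.relIndex (modW I ρ T).toAddSubgroup ≠ 0 := by
    rw [← AddSubgroup.relIndex_mul_relIndex (addW I ρ N).toAddSubgroup
      (modW I ρ N).toAddSubgroup (modW I ρ T).toAddSubgroup le3 le4] at i2
    exact right_ne_zero_of_mul i2
  have i4 : (addW I ρ (piW T)).toAddSubgroup.relIndex (addW I ρ T).toAddSubgroup ≠ 0 := by
    have h4 : addW I ρ T = T ⊔ addW I ρ (piW T) := by
      unfold addW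
      rw [← sup_assoc, sup_eq_left.2 (RFIT.piW_le T)]
    rw [h4, RCLA.relIndex_sup]
    refine RCLA.relIndex_ne hT.fg fun x hx => ⟨1, ?_⟩
    rw [pow_one]
    exact Submodule.mem_sup_left ((RFIT.mem_piW T _).2 ⟨x, hx, rfl⟩)
  have i5 : (N ⊓ addW I ρ (piW T)).toAddSubgroup.relIndex N.toAddSubgroup ≠ 0 := by
    refine RCLA.relIndex_ne hN.fg fun x hx => ⟨1, ?_⟩
    rw [pow_one]
    exact ⟨N.smul_mem _ hx,
      Submodule.mem_sup_left ((RFIT.mem_piW T _).2 ⟨x, hNT hx, rfl⟩)⟩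
  -- stability
  have s0 : ∀ d, ∀ x ∈ addW I ρ (piW T), ρ d x ∈ addW I ρ (piW T) := fun d x hx =>
    add_stab' h (fun d x hx => piW_stab hT.stab d hx) d hx
  have s1 : ∀ d, ∀ x ∈ addW I ρ N, ρ d x ∈ addW I ρ N := fun d x hx => add_stab h hN d hx
  have s2 : ∀ d, ∀ x ∈ addW I ρ T, ρ d x ∈ addW I ρ T := fun d x hx => add_stab h hT d hx
  have s3 : ∀ d, ∀ x ∈ modW I ρ N, ρ d x ∈ modW I ρ N := fun d x hx => mod_stab h hN d hx
  have s4 : ∀ d, ∀ x ∈ modW I ρ T, ρ d x ∈ modW I ρ T := fun d x hx => mod_stab h hT d hx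
  have s5 : ∀ d, ∀ x ∈ N ⊓ addW I ρ (piW T), ρ d x ∈ N ⊓ addW I ρ (piW T) :=
    fun d x hx => ⟨hN.stab d x hx.1, s0 d x hx.2⟩
  -- the multiplicities
  obtain ⟨⟨x, hx⟩, -, -, hA⟩ := h1 p L W (ρ φ : W →ₗ[L] W) _ _ _ le1 le2 i2 (s1 φ) (s2 φ) (s4 φ)
  obtain ⟨-, ⟨y, hy⟩, -, hB⟩ := h1 p L W (ρ φ : W →ₗ[L] W) _ _ _ le3 le4 i2 (s1 φ) (s3 φ) (s4 φ)
  obtain ⟨-, -, hC, -⟩ := h1 p L W (ρ φ : W →ₗ[L] W) _ _ _ (le3.trans le4) le_rfl i2 (s1 φ)
    (s4 φ) (s4 φ)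
  have e1 : x + m₁ = m₂ + y := hC _ _ (hA _ _ hx hm₁) (hB _ _ hm₂ hy)
  obtain ⟨⟨y', hy'⟩, -, -, -⟩ := h1 p L W (ρ φ : W →ₗ[L] W) _ _ _
    (inf_le_left : N ⊓ addW I ρ (piW T) ≤ N) le_rfl i5 (s5 φ) (hN.stab φ) (hN.stab φ)
  have hy2 := mu_sup (hN.stab φ) (s0 φ) hy'
  have h5 : N ⊔ addW I ρ (piW T) = addW I ρ N := by
    unfold addW
    rw [← sup_assoc, sup_eq_left.2 hpN]
  rw [h5] at hy2
  obtain ⟨-, -, -, hE⟩ := h1 p L W (ρ φ : W →ₗ[L] W) _ _ _ le5 le1 i4 (s0 φ) (s1 φ) (s2 φ)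
  obtain ⟨-, -, hG, -⟩ := h1 p L W (ρ φ : W →ₗ[L] W) _ _ _ (le5.trans le1) le_rfl i4 (s0 φ)
    (s2 φ) (s2 φ)
  have e2 : y' + x = m₃ := hG _ _ (hE _ _ hy2 hx) hm₃
  have e3 : y' = y := by
    obtain ⟨n, hn⟩ := RMUW.pow_mem p hiT
    refine h2 p D I χ e σ s t a h L W ρ γ hF φ T hT (N ⊓ addW I ρ (piW T)) N (modW I ρ N)
      (modW I ρ T) inf_le_left le4 i5 i3 s5 hN.stab s3 s4 ⟨n + 1, ?_, ?_, ?_, ?_⟩ ?_ ?_ ?_
      y' y hy' hy
    · intro z hz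
      rw [pow_succ, mul_smul]
      exact (N ⊓ addW I ρ (piW T)).smul_mem _ ⟨hπ z hz,
        Submodule.mem_sup_left ((RFIT.mem_piW T _).2 ⟨z, hz, rfl⟩)⟩
    · intro z hz
      rw [pow_succ, mul_smul]
      exact (modW I ρ N).smul_mem _ (le_mod hN I (hπ z hz))
    · intro z hz
      refine ⟨0, (fixW I ρ).zero_mem, ?_⟩
      rw [sub_zero]
      exact T.smul_mem _ (hNT hz)
    · intro z hz
      have h0 : ((pi0 p L ^ n : OO p L) : L) ≠ 0 := by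
        rw [Subring.coe_pow]
        exact pow_ne_zero _ (pi0_ne p L)
      obtain ⟨z₀, hz₀, w, hw, hzw⟩ := Submodule.mem_sup.1 (hn z hz)
      refine ⟨((pi0 p L ^ n : OO p L) : L)⁻¹ • w, (fixW I ρ).smul_mem _ hw, ?_⟩
      rw [pow_succ', mul_smul]
      refine T.smul_mem _ ?_
      rw [smul_sub, ← hzw, RCLA.smul_def (pi0 p L ^ n) (_ • w), smul_inv_smul₀ h0,
        add_sub_cancel_right]
      exact hz₀
    · exact fun z hz w hw => form_le h hF hself (hNT hz) hw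
    · intro z hz
      constructor
      · exact fun hz' w hw => form_lt h hF hself hz'.2 hw
      · exact fun hz' => ⟨hz, left_ker h3 h hF hT hself hz'⟩
    · exact fun w _ => right_ker h hF hN hs
  omega

end BKT
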