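import Pool.Agent.Lib.MP_7c08ba_nt.T1.StR
import Pool.Agent.Lib.MP_7c08ba_nt.T1.GNCNJ
import Pool.Agent.Lib.MP_7c08ba_nt.T1.GNNPL

set_option autoImplicit false

/-!
The parity theorem with explicit local terms: module CVH, the conjugation at a place above a prime
which does not split.
-/

noncomputable section

namespace BKT

open NumberField BKGen BKMet
open BKLoc2 (Sys)
open BKGlob2 (CC0)

namespace RCVH

open GNCNJ

variable {F : Type} [Field F] [NumberField F] {l : ℕ} [Fact l.Prime]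

/-- an automorphism which preserves the place and is not trivial on `F` -/
theorem exists_aut (hl : ¬ Splits F l) (j : AlgebraicClosure F →+* PadicAlgCl l) :
    ∃ g : AlgebraicClosure F ≃ₐ[ℚ] AlgebraicClosure F, (∀ x, ‖j (g x)‖ = ‖j x‖) ∧
      ∃ a : F, g (algebraMap F (AlgebraicClosure F) a) ≠
        algebraMap F (AlgebraicClosure F) a := by
  obtain ⟨t, a, hta⟩ : ∃ (t : GQ l) (a : F),
      t (j (algebraMap F (AlgebraicClosure F) a)) ≠ j (algebraMap F (AlgebraicClosure F) a) := by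
    by_contra hcon
    push Not at hcon
    exact hl (GNNPL.splits (j.comp (algebraMap F (AlgebraicClosure F))) fun t a => hcon t a)
  obtain ⟨g, hg⟩ := exists_res j t
  refine ⟨g, fun x => ?_, a, fun h => hta ?_⟩
  · rw [hg]
    exact (spectralNorm_eq_of_equiv t (j x)).symm
  · rw [← hg, h]

end RCVH

open GNCNJ in
/-- Module CVH. -/
theorem stCvh (hCJ : BKGlob2.StCJ) (hCY : BKGlob2.StCY) : StCvh := by
  intro p _ hp2 F _ _ hF hR c₀ cc hcc l _ hl j
  obtain ⟨-, h1⟩ := hCJ F hF hR c₀ hcc.conj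
  obtain ⟨-, -, -, h2, -⟩ := h1 cc hcc
  obtain ⟨-, hz⟩ := h2 p hp2
  obtain ⟨⟨z, hSys⟩, -⟩ := hCY p ℚ (AlgebraicClosure F) ℚ (AlgebraicClosure F)
  have hcyc := cyc_conj hSys c₀ (hz z hSys)
  obtain ⟨g, hgn, hgne⟩ := RCVH.exists_aut hl j
  -- the element `h`
  let C : AlgebraicClosure F ≃ₐ[ℚ] AlgebraicClosure F := toQ c₀
  have hC : ∀ x, C x = c₀ x := fun x => rfl
  have hH : ∀ a : F, (C * g⁻¹) (algebraMap F (AlgebraicClosure F) a) =
      algebraMap F (AlgebraicClosure F) a := by
    have h3 : ∀ a : F, C (algebraMap F (AlgebraicClosure F) a) =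
        g (algebraMap F (AlgebraicClosure F) a) := agree hF C g hcc.conj.2 hgne
    obtain ⟨σ, hσ⟩ : ∃ σ : F ≃ₐ[ℚ] F, ∀ a, g (algebraMap F (AlgebraicClosure F) a) =
        algebraMap F (AlgebraicClosure F) (σ a) := by
      have : Algebra.IsQuadraticExtension ℚ F := ⟨hF⟩
      have hn : Normal ℚ F := Algebra.IsQuadraticExtension.normal ℚ F
      exact ⟨g.restrictNormal F, fun a => (AlgEquiv.restrictNormal_commutes g F a).symm⟩
    intro a
    have h4 : g⁻¹ (algebraMap F (AlgebraicClosure F) a) =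
        algebraMap F (AlgebraicClosure F) (σ.symm a) := by
      have h5 : g (algebraMap F (AlgebraicClosure F) (σ.symm a)) =
          algebraMap F (AlgebraicClosure F) a := by
        rw [hσ, AlgEquiv.apply_symm_apply]
      rw [← h5]
      exact AlgEquiv.symm_apply_apply g _
    change C (g⁻¹ (algebraMap F (AlgebraicClosure F) a)) = _
    rw [h4, h3, hσ, AlgEquiv.apply_symm_apply]
  let h : GF F := AlgEquiv.ofRingEquiv (f := (C * g⁻¹).toRingEquiv) hH
  have hh : ∀ x, h x = C (g⁻¹ x) := fun x => rfl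
  have hhg : ∀ x, h (g x) = c₀ x := by
    intro x
    rw [hh]
    have h4 : g⁻¹ (g x) = x := AlgEquiv.symm_apply_apply g _
    rw [h4, hC]
  have hhinv : ∀ x, h⁻¹ (c₀ x) = g x := by
    intro x
    rw [← hhg]
    exact AlgEquiv.symm_apply_apply h _
  -- the element `s`
  have hs : ∀ x, (cc h * h) (g (g x)) = x := by
    intro x
    change cc h (h (g (g x))) = x
    rw [hhg, hcc.eq, hhg]
    exact hcc.conj.1 x
  have hs' : ∀ x, (cc h * h)⁻¹ x = g (g x) := by
    intro x
    conv_lhs => rw [← hs x]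
    exact AlgEquiv.symm_apply_apply (cc h * h) _
  refine ⟨g.toRingEquiv, h, (cc h * h)⁻¹, hgn, hhg, hs', ?_, ?_, ?_, ?_⟩
  · intro x
    rw [hs', hgn, hgn]
  · intro d x
    change h⁻¹ (cc d (h (g x))) = g (d x)
    rw [hhg, hcc.eq, hhinv]
  · rw [inv_inv]
  · have h3 : cycF p F h = cyclotomicCharacter (AlgebraicClosure F) p
        (MulSemiringAction.toRingAut (GF F) (AlgebraicClosure F) h) := rfl
    rw [h3, ← map_mul]
    have h4 : MulSemiringAction.toRingAut (GF F) (AlgebraicClosure F) h * g.toRingEquiv =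
        c₀ := by
      ext x
      exact hhg x
    rw [h4, hcyc]

end BKT
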