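import Pool.Agent.Lib.MP_7c08ba_nt.T1.StR

set_option autoImplicit false

/-!
Explicit local terms, module DEX: the numbers `ndel` for `(V ⊕ V') ⊗ L₂`.
-/

noncomputable section

namespace BKT

open NumberField BKGen BKMet
open Matrix

namespace RDEX

/-- the dimension of a product of two subspaces -/
theorem finrank_of_prod {K M M' : Type} [Field K] [AddCommGroup M] [Module K M] [AddCommGroup M']
    [Module K M'] [FiniteDimensional K M] [FiniteDimensional K M'] (P : Submodule K M)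
    (P' : Submodule K M') (U : Submodule K (M × M')) (h : ∀ x, x ∈ U ↔ x.1 ∈ P ∧ x.2 ∈ P') :
    Module.finrank K U = Module.finrank K P + Module.finrank K P' := by
  have e : U ≃ₗ[K] P × P' :=
    { toFun := fun x => (⟨x.1.1, ((h x.1).1 x.2).1⟩, ⟨x.1.2, ((h x.1).1 x.2).2⟩)
      map_add' := fun x y => rfl
      map_smul' := fun a x => rfl
      invFun := fun y => ⟨(y.1.1, y.2.1), (h _).2 ⟨y.1.2, y.2.2⟩⟩
      left_inv := fun x => rfl
      right_inv := fun y => rfl }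
  rw [e.finrank_eq, Module.finrank_prod]

section

variable {F : Type} [Field F] {L L₂ : Type} [NormedField L] [NormedField L₂] {n : ℕ}

/-- the space in the definition of `ndel` -/
def nS (V : BKS.Rep (GF F) L n) {l : ℕ} [Fact l.Prime] (j : BKS.Emb l F) (g : GF F) :
    Submodule L (Fin n → L) :=
  (⨅ h ∈ BKGen.Inert F (AlgebraicClosure F) j, BKS.nilS V h) ⊓ BKS.nilS V g

/-- the second space in the definition of `ndel` -/
def fS (V : BKS.Rep (GF F) L n) {l : ℕ} [Fact l.Prime] (j : BKS.Emb l F) (g : GF F) :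
    Submodule L (Fin n → L) :=
  (⨅ h ∈ BKGen.Inert F (AlgebraicClosure F) j, BKS.fixS V h) ⊓ BKS.nilS V g

theorem mem_nS (V : BKS.Rep (GF F) L n) {l : ℕ} [Fact l.Prime] (j : BKS.Emb l F) (g : GF F)
    (x : Fin n → L) :
    x ∈ nS V j g ↔ (∀ h ∈ Ine j, x ∈ BKS.nilS V h) ∧ x ∈ BKS.nilS V g := by
  unfold nS
  rw [Submodule.mem_inf, Submodule.mem_iInf]
  refine and_congr_left fun _ => forall_congr' fun h => ?_
  rw [Submodule.mem_iInf]

theorem mem_fS (V : BKS.Rep (GF F) L n) {l : ℕ} [Fact l.Prime] (j : BKS.Emb l F) (g : GF F)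
    (x : Fin n → L) :
    x ∈ fS V j g ↔ (∀ h ∈ Ine j, x ∈ BKS.fixS V h) ∧ x ∈ BKS.nilS V g := by
  unfold fS
  rw [Submodule.mem_inf, Submodule.mem_iInf]
  refine and_congr_left fun _ => forall_congr' fun h => ?_
  rw [Submodule.mem_iInf]

theorem ndel_eq (V : BKS.Rep (GF F) L n) {l : ℕ} [Fact l.Prime] (j : BKS.Emb l F) (g : GF F) :
    BKS.ndel V j g = Module.finrank L (nS V j g) - Module.finrank L (fS V j g) := rfl

theorem mem_nilS (V : BKS.Rep (GF F) L n) (h : GF F) (x : Fin n → L) :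
    x ∈ BKS.nilS V h ↔ Filter.Tendsto
      (fun m : ℕ => (((V h : Matrix (Fin n) (Fin n) L) - 1) ^ m) *ᵥ x) Filter.atTop (nhds 0) :=
  Iff.rfl

theorem mem_fixS (V : BKS.Rep (GF F) L n) (h : GF F) (x : Fin n → L) :
    x ∈ BKS.fixS V h ↔ ((V h : Matrix (Fin n) (Fin n) L) - 1) *ᵥ x = 0 := by
  rw [sub_mulVec, one_mulVec, sub_eq_zero]
  exact Iff.rfl

theorem fixS_le (V : BKS.Rep (GF F) L n) (h : GF F) : BKS.fixS V h ≤ BKS.nilS V h := by
  intro x hx
  rw [mem_fixS] at hx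
  rw [mem_nilS]
  refine tendsto_const_nhds.congr' ?_
  filter_upwards [Filter.eventually_ge_atTop 1] with m hm
  obtain ⟨k, rfl⟩ : ∃ k, m = k + 1 := ⟨m - 1, by omega⟩
  rw [pow_succ, ← mulVec_mulVec, hx, mulVec_zero]

theorem fS_le (V : BKS.Rep (GF F) L n) {l : ℕ} [Fact l.Prime] (j : BKS.Emb l F) (g : GF F) :
    fS V j g ≤ nS V j g := by
  intro x hx
  rw [mem_fS] at hx
  rw [mem_nS]
  exact ⟨fun h hh => fixS_le V h (hx.1 h hh), hx.2⟩

theorem coe_ext (φ : L →+* L₂) (V : BKS.Rep (GF F) L n) (h : GF F) :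
    ((BKS.ext φ V h : GL (Fin n) L₂) : Matrix (Fin n) (Fin n) L₂) =
      ((V h : GL (Fin n) L) : Matrix (Fin n) (Fin n) L).map φ := rfl

end

/-- the dimensions of the spaces do not change -/
theorem finrank_ext (h1 : StEgn) (h2 : StKbc) (h3 : StLtx) (p : ℕ) [Fact p.Prime] (F : Type)
    [Field F] [NumberField F] (L L₂ : Type) [NormedField L]
    [NormedAlgebra ℚ_[p] L] [FiniteDimensional ℚ_[p] L] [NormedField L₂] [NormedAlgebra ℚ_[p] L₂]
    [FiniteDimensional ℚ_[p] L₂] (φ : L →ₐ[ℚ_[p]] L₂) (n : ℕ) (V : BKS.Rep (GF F) L n)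
    (hV : Continuous V) (l : ℕ) [Fact l.Prime] (j : BKS.Emb l F) (g : GF F) :
    Module.finrank L₂ (nS (BKS.ext (φ : L →+* L₂) V) j g) = Module.finrank L (nS V j g) ∧
    Module.finrank L₂ (fS (BKS.ext (φ : L →+* L₂) V) j g) = Module.finrank L (fS V j g) := by
  obtain ⟨A, ρ, hρ⟩ := h3 p L (GF F) n V hV
  choose E hE using h1 p L n (GF F) V A ρ hρ
  have hid : ∀ M : Matrix (Fin n) (Fin n) L, M.map (AlgHom.id ℚ_[p] L) = M := fun M => by
    ext i k
    rfl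
  have hL : ∀ (h : GF F) (x : Fin n → L), x ∈ BKS.nilS V h ↔ E h *ᵥ x = 0 := by
    intro h x
    have h4 := hE h L (AlgHom.id ℚ_[p] L) x
    rw [hid, hid] at h4
    rw [mem_nilS]
    exact h4
  have hL2 : ∀ (h : GF F) (x : Fin n → L₂),
      x ∈ BKS.nilS (BKS.ext (φ : L →+* L₂) V) h ↔ (E h).map (φ : L →+* L₂) *ᵥ x = 0 := by
    intro h x
    rw [mem_nilS, coe_ext]
    exact hE h L₂ φ x
  have hf2 : ∀ (h : GF F) (x : Fin n → L₂),
      x ∈ BKS.fixS (BKS.ext (φ : L →+* L₂) V) h ↔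
        (((V h : GL (Fin n) L) : Matrix (Fin n) (Fin n) L) - 1).map (φ : L →+* L₂) *ᵥ x = 0 := by
    intro h x
    rw [mem_fixS, coe_ext]
    have h5 : (((V h : GL (Fin n) L) : Matrix (Fin n) (Fin n) L) - 1).map (φ : L →+* L₂) =
        ((V h : GL (Fin n) L) : Matrix (Fin n) (Fin n) L).map (φ : L →+* L₂) - 1 := by
      rw [Matrix.map_sub _ (map_sub (φ : L →+* L₂)), Matrix.map_one _ (map_zero _) (map_one _)]
    rw [h5]
  constructor
  · refine h2 L L₂ (φ : L →+* L₂) n (Option (Ine j)) (fun k => E (k.elim g (fun h => h.1)))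
      (nS V j g) (nS (BKS.ext (φ : L →+* L₂) V) j g) (fun x => ?_) (fun x => ?_)
    · rw [mem_nS]
      constructor
      · rintro ⟨hx, hg⟩ (_ | ⟨h, hh⟩)
        · exact (hL g x).1 hg
        · exact (hL h x).1 (hx h hh)
      · intro hx
        exact ⟨fun h hh => (hL h x).2 (hx (some ⟨h, hh⟩)), (hL g x).2 (hx none)⟩
    · rw [mem_nS]
      constructor
      · rintro ⟨hx, hg⟩ (_ | ⟨h, hh⟩)
        · exact (hL2 g x).1 hg
        · exact (hL2 h x).1 (hx h hh)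
      · intro hx
        exact ⟨fun h hh => (hL2 h x).2 (hx (some ⟨h, hh⟩)), (hL2 g x).2 (hx none)⟩
  · refine h2 L L₂ (φ : L →+* L₂) n (Option (Ine j))
      (fun k => k.elim (E g) (fun h => ((V h.1 : GL (Fin n) L) : Matrix (Fin n) (Fin n) L) - 1))
      (fS V j g) (fS (BKS.ext (φ : L →+* L₂) V) j g) (fun x => ?_) (fun x => ?_)
    · rw [mem_fS]
      constructor
      · rintro ⟨hx, hg⟩ (_ | ⟨h, hh⟩)
        · exact (hL g x).1 hg
        · exact (mem_fixS V h x).1 (hx h hh)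
      · intro hx
        exact ⟨fun h hh => (mem_fixS V h x).2 (hx (some ⟨h, hh⟩)), (hL g x).2 (hx none)⟩
    · rw [mem_fS]
      constructor
      · rintro ⟨hx, hg⟩ (_ | ⟨h, hh⟩)
        · exact (hL2 g x).1 hg
        · exact (hf2 h x).1 (hx h hh)
      · intro hx
        exact ⟨fun h hh => (hf2 h x).2 (hx (some ⟨h, hh⟩)), (hL2 g x).2 (hx none)⟩

end RDEX

open RDEX in
/-- Module DEX. -/
theorem stDex (h1 : StEgn) (h2 : StKbc) (h3 : StLtx) : StDex := by
  intro p _ F _ _ L L₂ _ _ _ _ _ _ φ n n' V V' hV hV' l _ j g U₁ U₂ hU₁ hU₂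
  obtain ⟨a1, a2⟩ := finrank_ext h1 h2 h3 p F L L₂ φ n V hV l j g
  obtain ⟨b1, b2⟩ := finrank_ext h1 h2 h3 p F L L₂ φ n' V' hV' l j g
  have c1 : Module.finrank L₂ U₁ = Module.finrank L₂ (nS (BKS.ext (φ : L →+* L₂) V) j g) +
      Module.finrank L₂ (nS (BKS.ext (φ : L →+* L₂) V') j g) := by
    refine finrank_of_prod _ _ _ fun x => ?_
    rw [hU₁, mem_nS, mem_nS]
    constructor
    · rintro ⟨hx, h4, h5⟩
      exact ⟨⟨fun h hh => (hx h hh).1, h4⟩, fun h hh => (hx h hh).2, h5⟩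
    · rintro ⟨⟨hx, h4⟩, hy, h5⟩
      exact ⟨fun h hh => ⟨hx h hh, hy h hh⟩, h4, h5⟩
  have c2 : Module.finrank L₂ U₂ = Module.finrank L₂ (fS (BKS.ext (φ : L →+* L₂) V) j g) +
      Module.finrank L₂ (fS (BKS.ext (φ : L →+* L₂) V') j g) := by
    refine finrank_of_prod _ _ _ fun x => ?_
    rw [hU₂, mem_fS, mem_fS]
    constructor
    · rintro ⟨hx, h4, h5⟩
      exact ⟨⟨fun h hh => (hx h hh).1, h4⟩, fun h hh => (hx h hh).2, h5⟩
    · rintro ⟨⟨hx, h4⟩, hy, h5⟩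
      exact ⟨fun h hh => ⟨hx h hh, hy h hh⟩, h4, h5⟩
  rw [c1, c2, a1, a2, b1, b2, ndel_eq, ndel_eq]
  have d1 := Submodule.finrank_mono (fS_le V j g)
  have d2 := Submodule.finrank_mono (fS_le V' j g)
  omega

end BKT
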