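import Pool.Agent.Lib.MP_7c08ba_nt.T1.StR
import Pool.Agent.Lib.MP_7c08ba_nt.T1.RCLA
import Pool.Agent.Lib.MP_7c08ba_nt.Met.XAll
import Pool.Agent.Lib.MP_7c08ba_nt.Met.LLAM
import Pool.Agent.Lib.MP_7c08ba_nt.Met.LMK

set_option autoImplicit false
set_option linter.unusedSectionVars false

/-!
Module DUL: the multiplicities for two dual modules, for a pairing `⟨(t - 1) x, y⟩`.
-/

noncomputable section

namespace BKT

open NumberField BKGen BKMet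

namespace RDUL

/-! ### The norm -/

section Norm

variable {p : ℕ} [Fact p.Prime] {L : Type} [NormedField L] [NormedAlgebra ℚ_[p] L]

theorem lt_add (p : ℕ) [Fact p.Prime] {L : Type} [NormedField L] [NormedAlgebra ℚ_[p] L]
    {x y : L} (hx : ‖x‖ < 1) (hy : ‖y‖ < 1) : ‖x + y‖ < 1 := by
  have hu := BKND.DG.ultra (p := p) L
  exact (IsUltrametricDist.norm_add_le_max x y).trans_lt (max_lt hx hy)

theorem lt_sub (p : ℕ) [Fact p.Prime] {L : Type} [NormedField L] [NormedAlgebra ℚ_[p] L]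
    {x y : L} (hx : ‖x‖ < 1) (hy : ‖y‖ < 1) : ‖x - y‖ < 1 := by
  rw [sub_eq_add_neg]
  exact lt_add p hx (by rwa [norm_neg])

theorem lt_mul {x y : L} (hx : ‖x‖ ≤ 1) (hy : ‖y‖ < 1) : ‖x * y‖ < 1 := by
  rw [norm_mul]
  exact (mul_le_of_le_one_left (norm_nonneg _) hx).trans_lt hy

theorem norm_alg (c : ℤ_[p]) : ‖algebraMap ℚ_[p] L ((c : ℤ_[p]) : ℚ_[p])‖ = ‖c‖ := by
  rw [norm_algebraMap', PadicInt.padic_norm_e_of_padicInt]

theorem norm_uL (c : ℤ_[p]ˣ) : ‖uL L c‖ = 1 := by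
  unfold uL
  rw [norm_alg]
  exact PadicInt.isUnit_iff.1 c.isUnit

theorem lt_iff [FiniteDimensional ℚ_[p] L] {lam : L →ₗ[ℚ_[p]] ℚ_[p]} (hlam : IsLam p L lam)
    (x : L) : ‖x‖ < 1 ↔ ∀ a : OO p L, cl p (lam ((a : L) * (((pi0 p L : OO p L) : L)⁻¹ * x))) = 0 := by
  have h0 := pi0_pos p L
  have h1 : ‖x‖ < 1 ↔ ‖((pi0 p L : OO p L) : L)⁻¹ * x‖ ≤ 1 := by
    rw [norm_mul, norm_inv, inv_mul_le_iff₀ h0, mul_one]
    exact ⟨pi0_max p L x, fun h => h.trans_lt (pi0_lt p L)⟩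
  rw [h1, ← hlam]
  exact forall_congr' fun a => (LMK.cl_zero_iff _).symm

end Norm

/-! ### Perfect pairings -/

section Pair

variable {p : ℕ} [Fact p.Prime] {L : Type} [NormedField L] [NormedAlgebra ℚ_[p] L]
  [FiniteDimensional ℚ_[p] L] {W : Type} [AddCommGroup W] [Module L W]
  {β : W →ₗ[L] W →ₗ[L] L} {P Q P' Q' : Submodule (OO p L) W}

/-- the annihilator of `R` in `Q` modulo the maximal ideal -/
def ann (β : W →ₗ[L] W →ₗ[L] L) (R Q : Submodule (OO p L) W) : Submodule (OO p L) W where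
  carrier := {y | y ∈ Q ∧ ∀ x ∈ R, ‖β x y‖ < 1}
  add_mem' := by
    rintro y y' ⟨h1, h2⟩ ⟨h3, h4⟩
    refine ⟨Q.add_mem h1 h3, fun x hx => ?_⟩
    rw [map_add]
    exact lt_add p (h2 x hx) (h4 x hx)
  zero_mem' := by
    refine ⟨Q.zero_mem, fun x _ => ?_⟩
    rw [map_zero, norm_zero]
    exact zero_lt_one
  smul_mem' := by
    rintro a y ⟨h1, h2⟩
    refine ⟨Q.smul_mem a h1, fun x hx => ?_⟩
    change ‖β x ((a : L) • y)‖ < 1
    rw [map_smul, smul_eq_mul]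
    exact lt_mul a.2 (h2 x hx)

theorem mem_ann {R Q : Submodule (OO p L) W} {y : W} :
    y ∈ ann β R Q ↔ y ∈ Q ∧ ∀ x ∈ R, ‖β x y‖ < 1 := Iff.rfl

/-- the pairing of `Q / P` and `Q' / P'` modulo the maximal ideal is perfect -/
structure Perf (β : W →ₗ[L] W →ₗ[L] L) (P Q P' Q' : Submodule (OO p L) W) : Prop where
  le : P ≤ Q
  le' : P' ≤ Q'
  fin : P.toAddSubgroup.relIndex Q.toAddSubgroup ≠ 0
  left : ∀ x ∈ Q, x ∈ P ↔ ∀ y ∈ Q', ‖β x y‖ < 1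
  right : ∀ y ∈ Q', y ∈ P' ↔ ∀ x ∈ Q, ‖β x y‖ < 1

theorem index_ann (h : Perf β P Q P' Q') {R : Submodule (OO p L) W} (h1 : P ≤ R) (h2 : R ≤ Q) :
    (ann β R Q').toAddSubgroup.relIndex Q'.toAddSubgroup =
      P.toAddSubgroup.relIndex R.toAddSubgroup := by
  obtain ⟨lam, hlam⟩ := stLam p L
  have key : ∀ x y : W, ‖β x y‖ < 1 ↔ ∀ a : OO p L,
      cl p (lam (((pi0 p L : OO p L) : L)⁻¹ * β (a • x) y)) = 0 := by
    intro x y
    rw [lt_iff hlam]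
    refine forall_congr' fun a => ?_
    have h3 : β (a • x) y = (a : L) * β x y := by
      change β ((a : L) • x) y = _
      rw [map_smul, LinearMap.smul_apply, smul_eq_mul]
    rw [h3, mul_left_comm]
  have key' : ∀ x y : W, ‖β x y‖ < 1 ↔ ∀ a : OO p L,
      cl p (lam (((pi0 p L : OO p L) : L)⁻¹ * β x (a • y))) = 0 := by
    intro x y
    rw [lt_iff hlam]
    refine forall_congr' fun a => ?_
    have h3 : β x (a • y) = (a : L) * β x y := by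
      change β x ((a : L) • y) = _
      rw [map_smul, smul_eq_mul]
    rw [h3, mul_left_comm]
  refine (BKMet.All.dual p W W (fun x y => cl p (lam (((pi0 p L : OO p L) : L)⁻¹ * β x y)))
    R.toAddSubgroup P.toAddSubgroup Q'.toAddSubgroup (ann β R Q').toAddSubgroup ?_ ?_ h1
    (fun y hy => hy.1) ?_ ?_ ?_).1
  · intro x _ x' _ y _
    rw [map_add, LinearMap.add_apply, mul_add, map_add, LMK.cl_add]
  · intro x _ y _ y' _
    rw [map_add, mul_add, map_add, LMK.cl_add]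
  · intro x hx
    rw [Submodule.mem_toAddSubgroup, h.left x (h2 hx)]
    constructor
    · intro h3 y hy
      have h4 := (key x y).1 (h3 y hy) 1
      rwa [one_smul] at h4
    · intro h3 y hy
      exact (key' x y).2 fun a => h3 _ (Q'.smul_mem a hy)
  · intro y hy
    constructor
    · intro h3 x hx
      have h4 := (key x y).1 (h3.2 x hx) 1
      rwa [one_smul] at h4
    · intro h3
      exact ⟨hy, fun x hx => (key x y).2 fun a => h3 _ (R.smul_mem a hx)⟩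
  · intro h0
    have h3 := AddSubgroup.relIndex_mul_relIndex P.toAddSubgroup R.toAddSubgroup
      Q.toAddSubgroup h1 h2
    rw [h0, zero_mul] at h3
    exact h.fin h3.symm

theorem index_ne_left {P R Q : Submodule (OO p L) W} (h1 : P ≤ R) (h2 : R ≤ Q)
    (h : P.toAddSubgroup.relIndex Q.toAddSubgroup ≠ 0) :
    P.toAddSubgroup.relIndex R.toAddSubgroup ≠ 0 ∧
      R.toAddSubgroup.relIndex Q.toAddSubgroup ≠ 0 := by
  have h3 := AddSubgroup.relIndex_mul_relIndex P.toAddSubgroup R.toAddSubgroup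
    Q.toAddSubgroup h1 h2
  rw [← h3] at h
  exact ⟨left_ne_zero_of_mul h, right_ne_zero_of_mul h⟩

/-- the double annihilator -/
theorem ann_ann (h : Perf β P Q P' Q') {R : Submodule (OO p L) W} (h1 : P ≤ R) (h2 : R ≤ Q)
    {x : W} (hx : x ∈ Q) : x ∈ R ↔ ∀ y ∈ ann β R Q', ‖β x y‖ < 1 := by
  constructor
  · exact fun hxR y hy => hy.2 x hxR
  · intro hx2
    let R₂ : Submodule (OO p L) W := R ⊔ Submodule.span (OO p L) {x}
    have hle : R ≤ R₂ := le_sup_left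
    have hxR : x ∈ R₂ := Submodule.mem_sup_right (Submodule.mem_span_singleton_self x)
    have hR2 : R₂ ≤ Q := sup_le h2 (by
      rw [Submodule.span_le, Set.singleton_subset_iff]
      exact hx)
    have e1 : ann β R₂ Q' = ann β R Q' := by
      apply le_antisymm
      · exact fun y hy => ⟨hy.1, fun z hz => hy.2 z (hle hz)⟩
      · intro y hy
        refine ⟨hy.1, fun z hz => ?_⟩
        obtain ⟨z₁, hz₁, z₂, hz₂, rfl⟩ := Submodule.mem_sup.1 hz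
        obtain ⟨a, rfl⟩ := Submodule.mem_span_singleton.1 hz₂
        rw [map_add, LinearMap.add_apply]
        refine lt_add p (hy.2 z₁ hz₁) ?_
        change ‖β ((a : L) • x) y‖ < 1
        rw [map_smul, LinearMap.smul_apply, smul_eq_mul]
        exact lt_mul a.2 (hx2 y hy)
    have e2 := index_ann h h1 h2
    have e3 := index_ann h (h1.trans hle) hR2
    rw [e1, e2] at e3
    have e4 := AddSubgroup.relIndex_mul_relIndex P.toAddSubgroup R.toAddSubgroup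
      R₂.toAddSubgroup h1 hle
    rw [← e3] at e4
    have hne := (index_ne_left h1 h2 h.fin).1
    have e5 : R.toAddSubgroup.relIndex R₂.toAddSubgroup = 1 :=
      Nat.eq_of_mul_eq_mul_left (Nat.pos_of_ne_zero hne) (by rw [e4, mul_one])
    exact AddSubgroup.relIndex_eq_one.1 e5 hxR

/-- the upper part -/
theorem Perf.upper (h : Perf β P Q P' Q') {R : Submodule (OO p L) W} (h1 : P ≤ R) (h2 : R ≤ Q) :
    Perf β R Q P' (ann β R Q') where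
  le := h2
  le' := fun y hy => ⟨h.le' hy, fun x hx => (h.right y (h.le' hy)).1 hy x (h2 hx)⟩
  fin := (index_ne_left h1 h2 h.fin).2
  left := fun _ hx => ann_ann h h1 h2 hx
  right := fun y hy => h.right y hy.1

/-- the lower part -/
theorem Perf.lower (h : Perf β P Q P' Q') {R : Submodule (OO p L) W} (h1 : P ≤ R) (h2 : R ≤ Q) :
    Perf β P R (ann β R Q') Q' where
  le := h1
  le' := fun _ hy => hy.1
  fin := (index_ne_left h1 h2 h.fin).1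
  left := fun x hx => h.left x (h2 hx)
  right := fun _ hy => ⟨fun h' => h'.2, fun h' => ⟨hy, h'⟩⟩

theorem Perf.index (h : Perf β P Q P' Q') : P'.toAddSubgroup.relIndex Q'.toAddSubgroup =
    P.toAddSubgroup.relIndex Q.toAddSubgroup := by
  have h1 := index_ann h h.le le_rfl
  have h2 : ann β Q Q' = P' := by
    apply le_antisymm
    · exact fun y hy => (h.right y hy.1).2 hy.2
    · exact fun y hy => ⟨h.le' hy, (h.right y (h.le' hy)).1 hy⟩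
  rwa [h2] at h1

end Pair

/-! ### The multiplicity -/

section Mult

variable {p : ℕ} [Fact p.Prime] {L : Type} [NormedField L] [NormedAlgebra ℚ_[p] L]
  [FiniteDimensional ℚ_[p] L] {W : Type} [AddCommGroup W] [Module L W]
  {β : W →ₗ[L] W →ₗ[L] L} {P Q P' Q' : Submodule (OO p L) W} {F : W ≃ₗ[L] W}

/-- the map `F - 1` -/
abbrev fm (F : W ≃ₗ[L] W) : W →ₗ[L] W := (F : W →ₗ[L] W) - 1

theorem fm_apply (x : W) : fm F x = F x - x := rfl

theorem fm_succ (K : ℕ) (x : W) : (fm F ^ (K + 1)) x = (fm F ^ K) (fm F x) := by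
  rw [pow_succ]
  rfl

theorem fm_comm (K : ℕ) (x : W) : F ((fm F ^ K) x) = (fm F ^ K) (F x) := by
  have h1 : Commute (F : W →ₗ[L] W) (fm F ^ K) :=
    ((Commute.refl (F : W →ₗ[L] W)).sub_right (Commute.one_right _)).pow_right K
  exact LinearMap.congr_fun h1.eq x

theorem fm_mem (hP : ∀ x ∈ P, F x ∈ P) (K : ℕ) : ∀ x ∈ P, (fm F ^ K) x ∈ P := by
  induction K with
  | zero =>
    intro x hx
    rw [pow_zero]
    exact hx
  | succ K ih =>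
    intro x hx
    rw [fm_succ]
    exact ih _ (P.sub_mem (hP x hx) hx)

theorem fm_add (K K' : ℕ) (x : W) : (fm F ^ (K + K')) x = (fm F ^ K) ((fm F ^ K') x) := by
  rw [pow_add]
  rfl

/-- the vectors of `Q` with `(F - 1)^K x ∈ P` -/
def kr (F : W ≃ₗ[L] W) (K : ℕ) (P Q : Submodule (OO p L) W) : Submodule (OO p L) W :=
  P.comap ((fm F ^ K).restrictScalars (OO p L)) ⊓ Q

theorem mem_kr {K : ℕ} {x : W} : x ∈ kr F K P Q ↔ (fm F ^ K) x ∈ P ∧ x ∈ Q := Iff.rfl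

/-- `P` and the image of `Q` under `(F - 1)^K` -/
def rg (F : W ≃ₗ[L] W) (K : ℕ) (P Q : Submodule (OO p L) W) : Submodule (OO p L) W :=
  Q.map ((fm F ^ K).restrictScalars (OO p L)) ⊔ P

theorem index_kr (K : ℕ) : (kr F K P Q).toAddSubgroup.relIndex Q.toAddSubgroup =
    P.toAddSubgroup.relIndex (rg F K P Q).toAddSubgroup := by
  unfold kr rg
  rw [RCLA.relIndex_inf, RCLA.relIndex_sup]
  exact AddSubgroup.relIndex_comap P.toAddSubgroup
    ((fm F ^ K).restrictScalars (OO p L)).toAddMonoidHom Q.toAddSubgroup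

theorem step (hiso : ∀ x ∈ Q, ∀ y ∈ Q', ‖β (F x) (F y) - β x y‖ < 1) {x y : W} (hx : x ∈ Q)
    (hy : y ∈ Q') : ‖β (fm F x) y‖ < 1 ↔ ‖β (F x) (fm F y)‖ < 1 := by
  have h1 : β (fm F x) y + β (F x) (fm F y) = β (F x) (F y) - β x y := by
    rw [fm_apply, fm_apply, map_sub, map_sub, LinearMap.sub_apply]
    ring
  constructor
  · intro h2
    have h3 : β (F x) (fm F y) = (β (F x) (F y) - β x y) - β (fm F x) y := by
      rw [← h1, add_sub_cancel_left]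
    rw [h3]
    exact lt_sub p (hiso x hx y hy) h2
  · intro h2
    have h3 : β (fm F x) y = (β (F x) (F y) - β x y) - β (F x) (fm F y) := by
      rw [← h1, add_sub_cancel_right]
    rw [h3]
    exact lt_sub p (hiso x hx y hy) h2

theorem steps (hQ : ∀ x ∈ Q, F x ∈ Q) (hQ' : ∀ x ∈ Q', F x ∈ Q')
    (hiso : ∀ x ∈ Q, ∀ y ∈ Q', ‖β (F x) (F y) - β x y‖ < 1) (K : ℕ) : ∀ x ∈ Q, ∀ y ∈ Q',
    (‖β ((fm F ^ K) x) y‖ < 1 ↔ ‖β (F^[K] x) ((fm F ^ K) y)‖ < 1) := by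
  induction K with
  | zero =>
    intro x _ y _
    rw [pow_zero]
    rfl
  | succ K ih =>
    intro x hx y hy
    have h1 : (fm F ^ (K + 1)) x = fm F ((fm F ^ K) x) := by
      rw [pow_succ']
      rfl
    rw [h1, step hiso (fm_mem hQ K x hx) hy, fm_comm, Function.iterate_succ_apply, fm_succ]
    exact ih _ (hQ x hx) _ (Q'.sub_mem (hQ' y hy) hy)

theorem ann_rg (h : Perf β P Q P' Q') (hQ : ∀ x ∈ Q, F x ∈ Q) (hQs : ∀ x ∈ Q, F.symm x ∈ Q)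
    (hQ' : ∀ x ∈ Q', F x ∈ Q') (hiso : ∀ x ∈ Q, ∀ y ∈ Q', ‖β (F x) (F y) - β x y‖ < 1) (K : ℕ) :
    ann β (rg F K P Q) Q' = kr F K P' Q' := by
  have hsurj : Set.SurjOn F^[K] (Q : Set W) (Q : Set W) :=
    Set.SurjOn.iterate (fun x hx => ⟨F.symm x, hQs x hx, F.apply_symm_apply x⟩) K
  ext y
  rw [mem_ann, mem_kr, and_comm, and_congr_left_iff]
  intro hy
  rw [h.right _ (fm_mem hQ' K y hy)]
  constructor
  · intro h1 x hx
    obtain ⟨x', hx', rfl⟩ := hsurj hx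
    exact (steps hQ hQ' hiso K x' hx' y hy).1 (h1 _ (Submodule.mem_sup_left ⟨x', hx', rfl⟩))
  · intro h1 x hx
    obtain ⟨_, ⟨x₁, hx₁, rfl⟩, x₂, hx₂, rfl⟩ := Submodule.mem_sup.1 hx
    rw [map_add, LinearMap.add_apply]
    refine lt_add p ?_ ((h.left x₂ (h.le hx₂)).1 hx₂ y hy)
    refine (steps hQ hQ' hiso K x₁ hx₁ y hy).2 (h1 _ ?_)
    have h2 : ∀ K : ℕ, F^[K] x₁ ∈ Q := by
      intro K
      induction K with
      | zero => exact hx₁
      | succ K ih =>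
        rw [Function.iterate_succ_apply']
        exact hQ _ ih
    exact h2 K

theorem index_kr_eq (h : Perf β P Q P' Q') (hP : ∀ x ∈ P, F x ∈ P) (hQ : ∀ x ∈ Q, F x ∈ Q)
    (hQs : ∀ x ∈ Q, F.symm x ∈ Q) (hP' : ∀ x ∈ P', F x ∈ P') (hQ' : ∀ x ∈ Q', F x ∈ Q')
    (hiso : ∀ x ∈ Q, ∀ y ∈ Q', ‖β (F x) (F y) - β x y‖ < 1) (K : ℕ) :
    P.toAddSubgroup.relIndex (kr F K P Q).toAddSubgroup =
      P'.toAddSubgroup.relIndex (kr F K P' Q').toAddSubgroup := by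
  have h1 : P ≤ kr F K P Q := fun x hx => ⟨fm_mem hP K x hx, h.le hx⟩
  have h1' : P' ≤ kr F K P' Q' := fun x hx => ⟨fm_mem hP' K x hx, h.le' hx⟩
  have h2 : rg F K P Q ≤ Q := by
    refine sup_le ?_ h.le
    rintro _ ⟨x, hx, rfl⟩
    exact fm_mem hQ K x hx
  have h0 : P ≤ rg F K P Q := le_sup_right
  have h3 := index_ann h h0 h2
  rw [ann_rg h hQ hQs hQ' hiso K, ← index_kr] at h3
  have h4 := AddSubgroup.relIndex_mul_relIndex P.toAddSubgroup (kr F K P Q).toAddSubgroup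
    Q.toAddSubgroup h1 (fun x hx => hx.2)
  have h5 := AddSubgroup.relIndex_mul_relIndex P'.toAddSubgroup (kr F K P' Q').toAddSubgroup
    Q'.toAddSubgroup h1' (fun x hx => hx.2)
  rw [h.index, ← h4, h3] at h5
  have h6 := h.fin
  rw [← h4] at h6
  exact (Nat.eq_of_mul_eq_mul_right (Nat.pos_of_ne_zero (right_ne_zero_of_mul h6)) h5).symm

theorem stabilize (hP : ∀ x ∈ P, F x ∈ P) (h : P.toAddSubgroup.relIndex Q.toAddSubgroup ≠ 0) :
    ∃ K₀ : ℕ, ∀ K ≥ K₀, ∀ x ∈ Q, (∃ K' : ℕ, (fm F ^ K') x ∈ P) → (fm F ^ K) x ∈ P := by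
  have hfin : Finite (Q.toAddSubgroup ⧸ P.toAddSubgroup.addSubgroupOf Q.toAddSubgroup) :=
    AddSubgroup.index_ne_zero_iff_finite.1 h
  have h1 : ∀ c : Q.toAddSubgroup ⧸ P.toAddSubgroup.addSubgroupOf Q.toAddSubgroup, ∃ K : ℕ,
      (∃ K' : ℕ, (fm F ^ K') (c.out : W) ∈ P) → (fm F ^ K) (c.out : W) ∈ P := by
    intro c
    by_cases h2 : ∃ K' : ℕ, (fm F ^ K') (c.out : W) ∈ P
    · obtain ⟨K', hK'⟩ := h2
      exact ⟨K', fun _ => hK'⟩
    · exact ⟨0, fun h3 => absurd h3 h2⟩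
  choose K hK using h1
  obtain ⟨K₀, hK₀⟩ := Finite.exists_le K
  refine ⟨K₀, ?_⟩
  rintro K₁ hK₁ x hx ⟨K', hK'⟩
  obtain ⟨⟨z, hz⟩, h2⟩ := QuotientAddGroup.mk_out_eq_add
    (P.toAddSubgroup.addSubgroupOf Q.toAddSubgroup) ⟨x, hx⟩
  set c : Q.toAddSubgroup ⧸ P.toAddSubgroup.addSubgroupOf Q.toAddSubgroup :=
    ((⟨x, hx⟩ : Q.toAddSubgroup) :
      Q.toAddSubgroup ⧸ P.toAddSubgroup.addSubgroupOf Q.toAddSubgroup) with hc
  have hz' : (z : W) ∈ P := hz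
  have h3 : (c.out : W) = x + z := congrArg Subtype.val h2
  have h4 : (fm F ^ K c) (c.out : W) ∈ P := by
    refine hK c ⟨K', ?_⟩
    rw [h3, map_add]
    exact P.add_mem hK' (fm_mem hP K' _ hz')
  have h5 : (fm F ^ K c) x ∈ P := by
    have h6 : (fm F ^ K c) x = (fm F ^ K c) (c.out : W) - (fm F ^ K c) (z : W) := by
      rw [← map_sub, h3, add_sub_cancel_right]
    rw [h6]
    exact P.sub_mem h4 (fm_mem hP _ _ hz')
  have h6 : K₁ = (K₁ - K c) + K c := (Nat.sub_add_cancel ((hK₀ c).trans hK₁)).symm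
  rw [h6, fm_add]
  exact fm_mem hP _ _ h5

theorem mu_eq (h : Perf β P Q P' Q') (hP : ∀ x ∈ P, F x ∈ P) (hQ : ∀ x ∈ Q, F x ∈ Q)
    (hQs : ∀ x ∈ Q, F.symm x ∈ Q) (hP' : ∀ x ∈ P', F x ∈ P') (hQ' : ∀ x ∈ Q', F x ∈ Q')
    (hiso : ∀ x ∈ Q, ∀ y ∈ Q', ‖β (F x) (F y) - β x y‖ < 1) {m m' : ℕ}
    (hm : Mu (F : W →ₗ[L] W) P Q m) (hm' : Mu (F : W →ₗ[L] W) P' Q' m') : m = m' := by
  obtain ⟨-, G, hG, hGm⟩ := hm
  obtain ⟨-, G', hG', hGm'⟩ := hm'
  have hfin' : P'.toAddSubgroup.relIndex Q'.toAddSubgroup ≠ 0 := by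
    rw [h.index]
    exact h.fin
  obtain ⟨K₁, hK₁⟩ := stabilize (Q := Q) hP h.fin
  obtain ⟨K₂, hK₂⟩ := stabilize (Q := Q') hP' hfin'
  have e1 : G = kr F (K₁ + K₂) P Q := by
    ext x
    rw [hG, mem_kr]
    constructor
    · rintro ⟨hx, hx'⟩
      exact ⟨hK₁ _ (Nat.le_add_right _ _) x hx hx', hx⟩
    · rintro ⟨hx, hx'⟩
      exact ⟨hx', _, hx⟩
  have e2 : G' = kr F (K₁ + K₂) P' Q' := by
    ext x
    rw [hG', mem_kr]
    constructor
    · rintro ⟨hx, hx'⟩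
      exact ⟨hK₂ _ (Nat.le_add_left _ _) x hx hx', hx⟩
    · rintro ⟨hx, hx'⟩
      exact ⟨hx', _, hx⟩
  rw [e1, index_kr_eq h hP hQ hQs hP' hQ' hiso, ← e2, hGm'] at hGm
  have h2 : 2 ≤ Nat.card (kk p L) := Finite.one_lt_card
  exact Nat.pow_right_injective h2 hGm.symm

end Mult

/-! ### The representation -/

section Rep

variable {p : ℕ} [Fact p.Prime] {D : Type} [Group D] {I : Subgroup D} {χ : D →* ℤ_[p]ˣ}
  {e : D → ℤ_[p]} {σ : D →* D} {s t : D} {a : ℤ_[p]ˣ} {L : Type} [NormedField L]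
  [NormedAlgebra ℚ_[p] L] [FiniteDimensional ℚ_[p] L] {W : Type} [AddCommGroup W] [Module L W]
  {ρ : D →* (W ≃ₗ[L] W)} {γ : W →ₗ[L] W →ₗ[L] L} {φ : D} {X P Q P' Q' : Submodule (OO p L) W}

open RCLA (rho_mul rho_smul pow_smul_inj e_pow e_inv e_one)

theorem chi_I (h : TamG p I χ e σ s t a) {i : D} (hi : i ∈ I) : χ i = 1 := by
  have h1 := h.conj i t h.tI
  rw [h.hom _ (I.mul_mem hi h.tI) _ (I.inv_mem hi), h.hom _ hi _ h.tI, e_inv h i hi, h.te,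
    mul_one, add_right_comm, add_neg_cancel, zero_add] at h1
  exact Units.ext h1.symm

theorem exists_sig (h : TamG p I χ e σ s t a) {i : D} (hi : i ∈ I) : ∃ i' ∈ I, σ i' = i := by
  have h1 : s⁻¹ * i * s ∈ I := by
    have h2 := h.normal s⁻¹ i hi
    rwa [inv_inv] at h2
  refine ⟨σ (s⁻¹ * i * s), h.sI _ h1, ?_⟩
  rw [h.sq]
  group

theorem uL_one : uL L (1 : ℤ_[p]ˣ) = 1 := by
  unfold uL
  rw [Units.val_one, PadicInt.coe_one, map_one]

theorem uL_mul (u : ℤ_[p]ˣ) (c : ℤ_[p]) (huc : (u : ℤ_[p]) * c = 1) :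
    uL L u * algebraMap ℚ_[p] L (c : ℚ_[p]) = 1 := by
  unfold uL
  rw [← map_mul, ← PadicInt.coe_mul, huc, PadicInt.coe_one, map_one]

/-- the pairing `⟨(t - 1) x, y⟩` -/
def bt (γ : W →ₗ[L] W →ₗ[L] L) (ρ : D →* (W ≃ₗ[L] W)) (t : D) : W →ₗ[L] W →ₗ[L] L :=
  γ ∘ₗ ((ρ t : W →ₗ[L] W) - 1)

theorem bt_apply (x y : W) : bt γ ρ t x y = γ (ρ t x - x) y := rfl

/-- `γ(i x, y)` for a vector `y` fixed by `I` -/
theorem dual_I (h : TamG p I χ e σ s t a) (hF : FrmD χ σ s a ρ γ) {i : D} (hi : i ∈ I) (x y : W) :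
    γ (ρ i x) (ρ (σ i) y) = γ x y := by
  rw [hF.dual, chi_I h hi, uL_one, one_mul]

theorem dual_fix (h : TamG p I χ e σ s t a) (hF : FrmD χ σ s a ρ γ) {i : D} (hi : i ∈ I) (x : W)
    {w : W} (hw : w ∈ fixW I ρ) : γ (ρ i x - x) w = 0 := by
  have h1 := dual_I h hF hi x w
  rw [hw _ (h.sI i hi)] at h1
  rw [map_sub, LinearMap.sub_apply, h1, sub_self]

theorem exists_small (p : ℕ) [Fact p.Prime] (L : Type) [NormedField L] [NormedAlgebra ℚ_[p] L]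
    [FiniteDimensional ℚ_[p] L] (z : L) : ∃ r : ℕ, ‖((pi0 p L ^ r : OO p L) : L) * z‖ < 1 := by
  have h1 : Filter.Tendsto (fun r : ℕ => ‖((pi0 p L : OO p L) : L)‖ ^ r * ‖z‖) Filter.atTop
      (nhds (0 * ‖z‖)) :=
    (tendsto_pow_atTop_nhds_zero_of_lt_one (norm_nonneg _) (pi0_lt p L)).mul_const _
  rw [zero_mul] at h1
  obtain ⟨r, hr⟩ := (h1.eventually (gt_mem_nhds zero_lt_one)).exists
  refine ⟨r, ?_⟩
  rw [Subring.coe_pow, norm_mul, norm_pow]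
  exact hr

theorem bounded (hX : X.FG) : ∃ N : ℕ, ∀ x ∈ X, ∀ y ∈ X,
    ‖((pi0 p L ^ N : OO p L) : L) * γ x y‖ < 1 := by
  have h1 : ∀ x : W, ∃ r : ℕ, ∀ y ∈ X, pi0 p L ^ r • y ∈
      ann γ (Submodule.span (OO p L) {x}) (⊤ : Submodule (OO p L) W) := by
    intro x
    refine RCLA.exists_pow hX fun y _ => ?_
    obtain ⟨r, hr⟩ := exists_small p L (γ x y)
    refine ⟨r, trivial, fun x' hx' => ?_⟩
    obtain ⟨b, rfl⟩ := Submodule.mem_span_singleton.1 hx'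
    change ‖γ ((b : L) • x) (((pi0 p L ^ r : OO p L) : L) • y)‖ < 1
    rw [map_smul, smul_eq_mul, map_smul, LinearMap.smul_apply, smul_eq_mul, mul_left_comm]
    exact lt_mul b.2 hr
  obtain ⟨N, hN⟩ := RCLA.exists_pow (P := ann γ.flip X (⊤ : Submodule (OO p L) W)) hX (by
    intro x _
    obtain ⟨r, hr⟩ := h1 x
    refine ⟨r, trivial, fun y hy => ?_⟩
    have h2 := (hr y hy).2 x (Submodule.mem_span_singleton_self x)
    change ‖γ x (((pi0 p L ^ r : OO p L) : L) • y)‖ < 1 at h2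
    change ‖γ (((pi0 p L ^ r : OO p L) : L) • x) y‖ < 1
    rw [map_smul, smul_eq_mul] at h2
    rw [map_smul, LinearMap.smul_apply, smul_eq_mul]
    exact h2)
  refine ⟨N, fun x hx y hy => ?_⟩
  have h2 := (hN x hx).2 y hy
  change ‖γ (((pi0 p L ^ N : OO p L) : L) • x) y‖ < 1 at h2
  rwa [map_smul, LinearMap.smul_apply, smul_eq_mul] at h2

/-- The situation of module DUL. -/
structure Sit (I : Subgroup D) (ρ : D →* (W ≃ₗ[L] W)) (γ : W →ₗ[L] W →ₗ[L] L) (t : D)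
    (X P Q P' Q' : Submodule (OO p L) W) : Prop where
  perf : Perf (bt γ ρ t) P Q P' Q'
  int : ∀ x ∈ Q, ∀ y ∈ Q', ‖γ (ρ t x - x) y‖ ≤ 1
  sP : ∀ d, ∀ x ∈ P, ρ d x ∈ P
  sQ : ∀ d, ∀ x ∈ Q, ρ d x ∈ Q
  sP' : ∀ d, ∀ x ∈ P', ρ d x ∈ P'
  sQ' : ∀ d, ∀ x ∈ Q', ρ d x ∈ Q'
  bd : ∃ r : ℕ, (∀ x ∈ X, pi0 p L ^ r • x ∈ P) ∧ (∀ x ∈ X, pi0 p L ^ r • x ∈ P') ∧
      (∀ x ∈ Q, ∃ w ∈ fixW I ρ, pi0 p L ^ r • (x - w) ∈ X) ∧
      ∀ x ∈ Q', ∃ w ∈ fixW I ρ, pi0 p L ^ r • (x - w) ∈ X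

theorem small_I (h : TamG p I χ e σ s t a) (hF : FrmD χ σ s a ρ γ) (hX : LatD I e φ ρ X)
    (hS : Sit I ρ γ t X P Q P' Q') : ∃ M : ℕ, 1 ≤ M ∧ ∀ i ∈ I, (p : ℤ_[p]) ^ M ∣ e i →
    ∀ x ∈ Q, ρ i x - x ∈ P ∧ ∀ y ∈ Q', ‖γ (ρ i x - x) y‖ < 1 := by
  obtain ⟨r, hr1, -, hr3, hr4⟩ := hS.bd
  obtain ⟨N, hN⟩ := bounded (γ := γ) hX.fg
  obtain ⟨M, hM⟩ := hX.actI (r + (r + N))
  refine ⟨M + 1, Nat.le_add_left _ _, fun i hi hd x hx => ?_⟩
  have hd' : (p : ℤ_[p]) ^ M ∣ e i := (pow_dvd_pow _ (Nat.le_succ M)).trans hd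
  obtain ⟨w, hw, hxw⟩ := hr3 x hx
  obtain ⟨z, hz, hxz⟩ := hM i hi hd' _ hxw
  have h1 : ρ i x - x = pi0 p L ^ (r + N) • z := by
    have h2 : pi0 p L ^ r • (ρ i x - x - pi0 p L ^ (r + N) • z) = 0 := by
      rw [smul_sub, ← mul_smul, ← pow_add, sub_eq_zero]
      have h3 : ρ i x - x = ρ i (x - w) - (x - w) := by
        rw [map_sub, hw i hi]
        abel
      rw [h3, smul_sub, ← rho_smul, hxz, add_sub_cancel_left]
    exact sub_eq_zero.1 (pow_smul_inj r h2)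
  constructor
  · rw [h1, pow_add, mul_comm, mul_smul]
    exact P.smul_mem _ (hr1 z hz)
  · intro y hy
    obtain ⟨w', hw', hyw⟩ := hr4 y hy
    have h2 : γ (ρ i x - x) y = γ (ρ i x - x) (y - w') := by
      rw [map_sub (γ (ρ i x - x)) y w', dual_fix h hF hi x hw', sub_zero]
    rw [h2, h1]
    have h3 : γ (pi0 p L ^ (r + N) • z) (y - w') =
        ((pi0 p L ^ N : OO p L) : L) * γ z (pi0 p L ^ r • (y - w')) := by
      change γ (((pi0 p L ^ (r + N) : OO p L) : L) • z) (y - w') =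
        _ * γ z (((pi0 p L ^ r : OO p L) : L) • (y - w'))
      rw [map_smul, LinearMap.smul_apply, map_smul, smul_eq_mul, smul_eq_mul, pow_add,
        Subring.coe_mul]
      ring
    rw [h3]
    exact hN z hz _ hyw

/-- every element of `I` is a power of `t` times a small element -/
theorem decomp (h : TamG p I χ e σ s t a) (M : ℕ) {i : D} (hi : i ∈ I) :
    ∃ (k : ℕ) (i₂ : D), i₂ ∈ I ∧ i = t ^ k * i₂ ∧ (p : ℤ_[p]) ^ M ∣ e i₂ ∧
      (p : ℤ_[p]) ^ M ∣ e i - k := by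
  refine ⟨(e i).appr M, (t ^ (e i).appr M)⁻¹ * i, I.mul_mem (I.inv_mem (I.pow_mem h.tI _)) hi,
    (mul_inv_cancel_left _ _).symm, ?_, ?_⟩
  · rw [h.hom _ (I.inv_mem (I.pow_mem h.tI _)) _ hi, e_inv h _ (I.pow_mem h.tI _), e_pow h,
      neg_add_eq_sub]
    exact Ideal.mem_span_singleton.1 (PadicInt.appr_spec M (e i))
  · exact Ideal.mem_span_singleton.1 (PadicInt.appr_spec M (e i))

theorem mul_sub (d d' : D) (x : W) :
    ρ (d * d') x - x = (ρ d (ρ d' x) - ρ d' x) + (ρ d' x - x) := by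
  rw [rho_mul, sub_add_sub_cancel]

/-- `⟨(i - 1) z, y⟩` for `z` in `P` -/
theorem star (h : TamG p I χ e σ s t a) (hF : FrmD χ σ s a ρ γ) (hX : LatD I e φ ρ X)
    (hS : Sit I ρ γ t X P Q P' Q') {i : D} (hi : i ∈ I) {z y : W} (hz : z ∈ P) (hy : y ∈ Q') :
    ‖γ (ρ i z - z) y‖ < 1 := by
  obtain ⟨M, -, hM⟩ := small_I h hF hX hS
  have h1 : ∀ k : ℕ, ∀ z ∈ P, ‖γ (ρ (t ^ k) z - z) y‖ < 1 := by
    intro k
    induction k with
    | zero =>
      intro z _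
      rw [pow_zero, map_one]
      change ‖γ (z - z) y‖ < 1
      rw [sub_self, map_zero, LinearMap.zero_apply, norm_zero]
      exact zero_lt_one
    | succ k ih =>
      intro z hz
      rw [pow_succ, mul_sub, map_add, LinearMap.add_apply]
      exact lt_add p (ih _ (hS.sP t z hz))
        ((hS.perf.left z (hS.perf.le hz)).1 hz y hy)
  obtain ⟨k, i₂, hi₂, rfl, hd, -⟩ := decomp h M hi
  rw [mul_sub, map_add, LinearMap.add_apply]
  exact lt_add p (h1 k _ (hS.sP i₂ z hz)) ((hM i₂ hi₂ hd z (hS.perf.le hz)).2 y hy)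

/-- the vectors of `Q` which are fixed by `I` modulo `P` -/
def Q1 (I : Subgroup D) (ρ : D →* (W ≃ₗ[L] W)) (P Q : Submodule (OO p L) W) :
    Submodule (OO p L) W :=
  Q ⊓ modW I ρ P

theorem mem_Q1 {x : W} : x ∈ Q1 I ρ P Q ↔ x ∈ Q ∧ ∀ i ∈ I, ρ i x - x ∈ P := Iff.rfl

/-- `⟨(i - 1) x, y⟩ = e(i) ⟨(t - 1) x, y⟩` for `x` in `Q₁` -/
theorem star2 (h : TamG p I χ e σ s t a) (hF : FrmD χ σ s a ρ γ) (hX : LatD I e φ ρ X)
    (hS : Sit I ρ γ t X P Q P' Q') {i : D} (hi : i ∈ I) {x y : W} (hx : x ∈ Q1 I ρ P Q)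
    (hy : y ∈ Q') :
    ‖γ (ρ i x - x) y - algebraMap ℚ_[p] L (e i : ℚ_[p]) * γ (ρ t x - x) y‖ < 1 := by
  obtain ⟨M, hM1, hM⟩ := small_I h hF hX hS
  have h1 : ∀ k : ℕ, ‖γ (ρ (t ^ k) x - x) y -
      algebraMap ℚ_[p] L ((k : ℤ_[p]) : ℚ_[p]) * γ (ρ t x - x) y‖ < 1 := by
    intro k
    induction k with
    | zero =>
      rw [pow_zero, map_one]
      change ‖γ (x - x) y - _‖ < 1
      rw [sub_self, map_zero, LinearMap.zero_apply, Nat.cast_zero, PadicInt.coe_zero, map_zero,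
        zero_mul, sub_zero, norm_zero]
      exact zero_lt_one
    | succ k ih =>
      have h2 : ρ (t ^ (k + 1)) x - x =
          (ρ t (ρ (t ^ k) x - x) - (ρ (t ^ k) x - x)) + (ρ (t ^ k) x - x) + (ρ t x - x) := by
        rw [pow_succ', rho_mul, map_sub]
        abel
      have h3 := star h hF hX hS h.tI (hx.2 _ (I.pow_mem h.tI k)) hy
      rw [h2, map_add, map_add, LinearMap.add_apply, LinearMap.add_apply, Nat.cast_succ,
        PadicInt.coe_add, map_add, PadicInt.coe_one, map_one, add_mul, one_mul]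
      have h4 := lt_add p h3 ih
      refine lt_of_eq_of_lt (congrArg _ ?_) h4
      ring
  obtain ⟨k, i₂, hi₂, hik, hd, hd'⟩ := decomp h M hi
  have h2 : ρ i x - x = (ρ (t ^ k) (ρ i₂ x - x) - (ρ i₂ x - x)) + (ρ i₂ x - x) +
      (ρ (t ^ k) x - x) := by
    rw [hik, rho_mul, map_sub]
    abel
  have h3 := star h hF hX hS (I.pow_mem h.tI k) (hx.2 i₂ hi₂) hy
  have h4 := (hM i₂ hi₂ hd x hx.1).2 y hy
  have h5 : ‖algebraMap ℚ_[p] L ((e i - k : ℤ_[p]) : ℚ_[p]) * γ (ρ t x - x) y‖ < 1 := by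
    rw [mul_comm]
    refine lt_mul (hS.int x hx.1 y hy) ?_
    rw [norm_alg]
    have h6 : (p : ℤ_[p]) ∣ e i - k := (dvd_pow_self _ (by omega)).trans hd'
    exact PadicInt.norm_lt_one_iff_dvd _ |>.2 h6
  rw [PadicInt.coe_sub, map_sub] at h5
  have h6 := lt_sub p (lt_add p (lt_add p h3 h4) (h1 k)) h5
  refine lt_of_eq_of_lt (congrArg _ ?_) h6
  rw [h2, map_add, map_add, LinearMap.add_apply, LinearMap.add_apply]
  ring

/-- a vector of `Q` fixed by `t` modulo `P` is in `Q₁` -/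
theorem mem_Q1_of_t (h : TamG p I χ e σ s t a) (hF : FrmD χ σ s a ρ γ) (hX : LatD I e φ ρ X)
    (hS : Sit I ρ γ t X P Q P' Q') {x : W} (hx : x ∈ Q) (ht : ρ t x - x ∈ P) :
    x ∈ Q1 I ρ P Q := by
  obtain ⟨M, -, hM⟩ := small_I h hF hX hS
  refine ⟨hx, fun i hi => ?_⟩
  obtain ⟨k, i₂, hi₂, rfl, hd, -⟩ := decomp h M hi
  have h1 : ∀ k : ℕ, ρ (t ^ k) x - x ∈ P := by
    intro k
    induction k with
    | zero =>
      rw [pow_zero, map_one]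
      change x - x ∈ P
      rw [sub_self]
      exact P.zero_mem
    | succ k ih =>
      have h2 : ρ (t ^ (k + 1)) x - x = ρ (t ^ k) (ρ t x - x) + (ρ (t ^ k) x - x) := by
        rw [pow_succ, rho_mul, map_sub]
        abel
      rw [h2]
      exact P.add_mem (hS.sP _ _ ht) ih
  have h2 : ρ (t ^ k * i₂) x - x = ρ (t ^ k) (ρ i₂ x - x) + (ρ (t ^ k) x - x) := by
    rw [rho_mul, map_sub]
    abel
  rw [h2]
  exact P.add_mem (hS.sP _ _ (hM i₂ hi₂ hd x hx).1) (h1 k)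

theorem p_mem (hS : Sit I ρ γ t X P Q P' Q') {x : W} (hx : x ∈ Q) : p • x ∈ P := by
  refine (hS.perf.left _ (Q.smul_of_tower_mem p hx)).2 fun y hy => ?_
  rw [map_nsmul, LinearMap.smul_apply, nsmul_eq_mul, mul_comm]
  exact lt_mul (hS.int x hx y hy) (BKND.DG.norm_p_lt L)

/-- `Q₁` is bigger than `P` -/
theorem exists_Q1 (h : TamG p I χ e σ s t a) (hF : FrmD χ σ s a ρ γ) (hX : LatD I e φ ρ X)
    (hS : Sit I ρ γ t X P Q P' Q') (hne : ¬ Q ≤ P) : ¬ Q1 I ρ P Q ≤ P := by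
  obtain ⟨M, -, hM⟩ := small_I h hF hX hS
  obtain ⟨x₀, hx₀, hx₀'⟩ := SetLike.not_le_iff_exists.1 hne
  let τ : Module.End (OO p L) Q :=
    LinearMap.restrict ((ρ t : W →ₗ[L] W).restrictScalars (OO p L)) (p := Q) (q := Q)
      (fun x hx => hS.sQ t x hx)
  have hτ : ∀ (k : ℕ) (x : Q), ((τ ^ k) x : W) = ρ (t ^ k) x := by
    intro k
    induction k with
    | zero =>
      intro x
      rw [pow_zero, pow_zero, map_one]
      rfl
    | succ k ih =>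
      intro x
      rw [pow_succ, pow_succ, rho_mul]
      exact ih (τ x)
  have h1 : ∀ K : ℕ, ∀ x : Q, (((τ - 1) ^ (K + 1)) x : W) =
      ρ t (((τ - 1) ^ K) x : W) - (((τ - 1) ^ K) x : W) := by
    intro K x
    rw [pow_succ']
    rfl
  have h2 : (((τ - 1) ^ (p ^ M)) (⟨x₀, hx₀⟩ : Q) : W) ∈ P := by
    obtain ⟨r, hr⟩ : ∃ r : Module.End (OO p L) Q,
        τ ^ (p ^ M) = (τ - 1) ^ (p ^ M) + 1 + (p : Module.End (OO p L) Q) * r := by
      obtain ⟨r, hr⟩ := (Commute.one_right (τ - 1)).exists_add_pow_prime_pow_eq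
        (Fact.out : p.Prime) M
      have h0 : τ - 1 + 1 = τ := sub_add_cancel τ 1
      rw [h0, one_pow, mul_assoc, mul_assoc] at hr
      exact ⟨_, hr⟩
    have h3 : ((τ - 1) ^ (p ^ M)) (⟨x₀, hx₀⟩ : Q) =
        ((τ ^ (p ^ M)) ⟨x₀, hx₀⟩ - (⟨x₀, hx₀⟩ : Q)) - p • r ⟨x₀, hx₀⟩ := by
      rw [hr]
      simp only [LinearMap.add_apply, Module.End.one_apply, Module.End.mul_apply,
        Module.End.natCast_apply]
      abel
    rw [h3]
    change ((τ ^ (p ^ M)) (⟨x₀, hx₀⟩ : Q) : W) - x₀ - p • (r ⟨x₀, hx₀⟩ : W) ∈ P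
    rw [hτ]
    refine P.sub_mem (hM _ (I.pow_mem h.tI _) ?_ x₀ hx₀).1 (p_mem hS (r ⟨x₀, hx₀⟩).2)
    rw [e_pow h, Nat.cast_pow]
  have hex : ∃ K : ℕ, (((τ - 1) ^ K) (⟨x₀, hx₀⟩ : Q) : W) ∈ P := ⟨_, h2⟩
  classical
  have h3 := Nat.find_spec hex
  have h4 : Nat.find hex ≠ 0 := by
    intro h0
    rw [h0, pow_zero] at h3
    exact hx₀' h3
  obtain ⟨K, hK⟩ := Nat.exists_eq_succ_of_ne_zero h4
  have h5 : (((τ - 1) ^ K) (⟨x₀, hx₀⟩ : Q) : W) ∉ P :=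
    Nat.find_min hex (by rw [hK]; exact Nat.lt_succ_self K)
  rw [hK, Nat.succ_eq_add_one, h1] at h3
  intro hle
  exact h5 (hle (mem_Q1_of_t h hF hX hS (((τ - 1) ^ K) (⟨x₀, hx₀⟩ : Q)).2 h3))

/-- `I` acts trivially on `Q' / Q₁'` -/
theorem triv (h : TamG p I χ e σ s t a) (hF : FrmD χ σ s a ρ γ) (hX : LatD I e φ ρ X)
    (hS : Sit I ρ γ t X P Q P' Q') {i : D} (hi : i ∈ I) {x y : W} (hx : x ∈ Q1 I ρ P Q)
    (hy : y ∈ Q') : ‖bt γ ρ t x (ρ i y - y)‖ < 1 := by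
  obtain ⟨i', hi', rfl⟩ := exists_sig h hi
  rw [bt_apply]
  set z := ρ t x - x with hz
  have h1 : γ z (ρ (σ i') y - y) = γ (ρ i'⁻¹ z - z) y := by
    have h2 := dual_I h hF hi' (ρ i'⁻¹ z) y
    rw [← rho_mul, mul_inv_cancel, map_one] at h2
    change γ z (ρ (σ i') y) = _ at h2
    rw [map_sub (γ z), h2, map_sub γ (ρ i'⁻¹ z) z, LinearMap.sub_apply]
  rw [h1]
  exact star h hF hX hS (I.inv_mem hi') (hx.2 t h.tI) hy

/-- the pairing of `Q₁` and `Q'` is invariant -/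
theorem invar (h : TamG p I χ e σ s t a) (hF : FrmD χ σ s a ρ γ) (hX : LatD I e φ ρ X)
    (hS : Sit I ρ γ t X P Q P' Q') (d : D) {x y : W} (hx : x ∈ Q1 I ρ P Q) (hy : y ∈ Q') :
    ‖bt γ ρ t (ρ d x) (ρ (σ d) y) - bt γ ρ t x y‖ < 1 := by
  have hi := h.normal d⁻¹ t h.tI
  rw [bt_apply, bt_apply]
  have h1 : ρ t (ρ d x) - ρ d x = ρ d (ρ (d⁻¹ * t * d⁻¹⁻¹) x - x) := by
    rw [map_sub, ← rho_mul, ← rho_mul]
    congr 3
    group
  have h2 := star2 h hF hX hS hi hx hy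
  rw [h.conj d⁻¹ t h.tI, h.te, mul_one] at h2
  have h3 : uL L (χ d) * algebraMap ℚ_[p] L (((χ d⁻¹ : ℤ_[p]ˣ) : ℤ_[p]) : ℚ_[p]) = 1 := by
    refine uL_mul _ _ ?_
    rw [← Units.val_mul, ← map_mul, mul_inv_cancel, map_one, Units.val_one]
  rw [h1, hF.dual]
  have h4 : uL L (χ d) * γ (ρ (d⁻¹ * t * d⁻¹⁻¹) x - x) y - γ (ρ t x - x) y =
      uL L (χ d) * (γ (ρ (d⁻¹ * t * d⁻¹⁻¹) x - x) y -
        algebraMap ℚ_[p] L (((χ d⁻¹ : ℤ_[p]ˣ) : ℤ_[p]) : ℚ_[p]) * γ (ρ t x - x) y) := by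
    rw [_root_.mul_sub, ← mul_assoc, h3, one_mul]
  rw [h4]
  exact lt_mul (norm_uL _).le h2

theorem sQ1 (h : TamG p I χ e σ s t a) (hS : Sit I ρ γ t X P Q P' Q') (d : D) {x : W}
    (hx : x ∈ Q1 I ρ P Q) : ρ d x ∈ Q1 I ρ P Q := by
  refine ⟨hS.sQ d x hx.1, fun i hi => ?_⟩
  have h1 : ρ i (ρ d x) - ρ d x = ρ d (ρ (d⁻¹ * i * d⁻¹⁻¹) x - x) := by
    rw [map_sub, ← rho_mul, ← rho_mul]
    congr 3
    group
  rw [h1]
  exact hS.sP d _ (hx.2 _ (h.normal d⁻¹ i hi))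

/-- the pairing of `Q₁` and `Q'` is invariant -/
theorem invar2 (h : TamG p I χ e σ s t a) (hF : FrmD χ σ s a ρ γ) (hX : LatD I e φ ρ X)
    (hS : Sit I ρ γ t X P Q P' Q') (d : D) {x y : W} (hx : x ∈ Q1 I ρ P Q) (hy : y ∈ Q') :
    ‖bt γ ρ t (ρ d x) (ρ d y) - bt γ ρ t x y‖ < 1 := by
  have hi : d * (σ d)⁻¹ ∈ I := by
    have h1 := I.inv_mem (h.sD d)
    rwa [mul_inv_rev, inv_inv] at h1
  have h1 : ρ d y = ρ (d * (σ d)⁻¹) (ρ (σ d) y) := by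
    rw [← rho_mul, inv_mul_cancel_right]
  have h2 := triv h hF hX hS hi (sQ1 h hS d hx) (hS.sQ' (σ d) y hy)
  have h3 := lt_add p h2 (invar h hF hX hS d hx hy)
  refine lt_of_eq_of_lt (congrArg _ ?_) h3
  rw [h1, map_sub]
  ring

theorem sQ1' (h : TamG p I χ e σ s t a) (hF : FrmD χ σ s a ρ γ) (hX : LatD I e φ ρ X)
    (hS : Sit I ρ γ t X P Q P' Q') (d : D) {y : W}
    (hy : y ∈ ann (bt γ ρ t) (Q1 I ρ P Q) Q') : ρ d y ∈ ann (bt γ ρ t) (Q1 I ρ P Q) Q' := by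
  refine ⟨hS.sQ' d y hy.1, fun x hx => ?_⟩
  have h1 : ρ d (ρ d⁻¹ x) = x := by
    rw [← rho_mul, mul_inv_cancel, map_one]
    rfl
  have h2 := invar2 h hF hX hS d (sQ1 h hS d⁻¹ hx) hy.1
  have h3 := lt_add p h2 (hy.2 _ (sQ1 h hS d⁻¹ hx))
  rwa [h1, sub_add_cancel] at h3

/-- the lower step -/
theorem lower (h : TamG p I χ e σ s t a) (hF : FrmD χ σ s a ρ γ) (hX : LatD I e φ ρ X)
    (hS : Sit I ρ γ t X P Q P' Q') {m m' : ℕ}
    (hm : Mu (ρ φ : W →ₗ[L] W) P (Q1 I ρ P Q) m)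
    (hm' : Mu (ρ φ : W →ₗ[L] W) (ann (bt γ ρ t) (Q1 I ρ P Q) Q') Q' m') : m = m' := by
  have hP1 : P ≤ Q1 I ρ P Q := fun x hx => ⟨hS.perf.le hx, fun i _ => P.sub_mem (hS.sP i x hx) hx⟩
  refine mu_eq (F := ρ φ) (hS.perf.lower hP1 inf_le_left) (hS.sP φ) (fun x hx => sQ1 h hS φ hx)
    (fun x hx => ?_) (fun x hx => sQ1' h hF hX hS φ hx) (hS.sQ' φ)
    (fun x hx y hy => invar2 h hF hX hS φ hx hy) hm hm'
  have h1 : (ρ φ).symm x = ρ φ⁻¹ x := by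
    rw [map_inv]
    rfl
  rw [h1]
  exact sQ1 h hS φ⁻¹ hx

/-- the upper step -/
theorem upper (h : TamG p I χ e σ s t a) (hF : FrmD χ σ s a ρ γ) (hX : LatD I e φ ρ X)
    (hS : Sit I ρ γ t X P Q P' Q') :
    Sit I ρ γ t X (Q1 I ρ P Q) Q P' (ann (bt γ ρ t) (Q1 I ρ P Q) Q') where
  perf := hS.perf.upper
    (fun x hx => ⟨hS.perf.le hx, fun i _ => P.sub_mem (hS.sP i x hx) hx⟩) inf_le_left
  int := fun x hx y hy => hS.int x hx y hy.1
  sP := fun d _ hx => sQ1 h hS d hx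
  sQ := hS.sQ
  sP' := hS.sP'
  sQ' := fun d _ hy => sQ1' h hF hX hS d hy
  bd := by
    obtain ⟨r, h1, h2, h3, h4⟩ := hS.bd
    exact ⟨r, fun x hx => ⟨hS.perf.le (h1 x hx), fun i _ => P.sub_mem (hS.sP i _ (h1 x hx))
      (h1 x hx)⟩, h2, h3, fun x hx => h4 x hx.1⟩

theorem main (hMU : StMuw) (h : TamG p I χ e σ s t a) (hF : FrmD χ σ s a ρ γ)
    (hX : LatD I e φ ρ X) : ∀ (n : ℕ) (P Q P' Q' : Submodule (OO p L) W),
    P.toAddSubgroup.relIndex Q.toAddSubgroup = n → Sit I ρ γ t X P Q P' Q' →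
    ∀ m m', Mu (ρ φ : W →ₗ[L] W) P Q m → Mu (ρ φ : W →ₗ[L] W) P' Q' m' → m = m' := by
  intro n
  induction n using Nat.strong_induction_on with
  | _ n ih =>
    intro P Q P' Q' hn hS m m' hm hm'
    have hfin := hS.perf.fin
    have hfin' : P'.toAddSubgroup.relIndex Q'.toAddSubgroup ≠ 0 := by
      rw [hS.perf.index]
      exact hfin
    have hP1 : P ≤ Q1 I ρ P Q :=
      fun x hx => ⟨hS.perf.le hx, fun i _ => P.sub_mem (hS.sP i x hx) hx⟩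
    have hS2 := upper h hF hX hS
    obtain ⟨⟨m₁, hm₁⟩, ⟨m₂, hm₂⟩, -, hadd⟩ := hMU p L W (ρ φ : W →ₗ[L] W) P (Q1 I ρ P Q) Q hP1
      inf_le_left hfin (hS.sP φ) (fun x hx => sQ1 h hS φ hx) (hS.sQ φ)
    obtain ⟨⟨m₁', hm₁'⟩, ⟨m₂', hm₂'⟩, -, hadd'⟩ := hMU p L W (ρ φ : W →ₗ[L] W) P'
      (ann (bt γ ρ t) (Q1 I ρ P Q) Q') Q' hS2.perf.le' (fun y hy => hy.1) hfin' (hS.sP' φ)
      (fun x hx => sQ1' h hF hX hS φ hx) (hS.sQ' φ)
    obtain ⟨-, -, hun, -⟩ := hMU p L W (ρ φ : W →ₗ[L] W) P Q Q hS.perf.le le_rfl hfin (hS.sP φ)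
      (hS.sQ φ) (hS.sQ φ)
    obtain ⟨-, -, hun', -⟩ := hMU p L W (ρ φ : W →ₗ[L] W) P' Q' Q' hS.perf.le' le_rfl hfin'
      (hS.sP' φ) (hS.sQ' φ) (hS.sQ' φ)
    have e1 : m = m₁ + m₂ := hun _ _ hm (hadd _ _ hm₁ hm₂)
    have e2 : m' = m₁' + m₂' := hun' _ _ hm' (hadd' _ _ hm₁' hm₂')
    have e3 : m₁ = m₂' := lower h hF hX hS hm₁ hm₂'
    by_cases hQP : Q ≤ P
    · -- both quotients are trivial
      have e4 : P.toAddSubgroup.relIndex Q.toAddSubgroup = 1 :=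
        AddSubgroup.relIndex_eq_one.2 hQP
      have hz : ∀ (R R' : Submodule (OO p L) W) (k : ℕ), Mu (ρ φ : W →ₗ[L] W) R R' k →
          R.toAddSubgroup.relIndex R'.toAddSubgroup = 1 → k = 0 := by
        rintro R R' k ⟨-, G, hG, hGk⟩ hRR
        have h1 : R.toAddSubgroup.relIndex G.toAddSubgroup = 1 := by
          refine AddSubgroup.relIndex_eq_one.2 fun x hx => ?_
          exact AddSubgroup.relIndex_eq_one.1 hRR ((hG x).1 hx).1
        rw [h1] at hGk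
        have h2 : 2 ≤ Nat.card (kk p L) := Finite.one_lt_card
        exact (Nat.pow_eq_one.1 hGk.symm).resolve_left (by omega)
      rw [hz _ _ _ hm e4, hz _ _ _ hm' (by rw [hS.perf.index]; exact e4)]
    · have h1 := exists_Q1 h hF hX hS hQP
      have h2 := AddSubgroup.relIndex_mul_relIndex P.toAddSubgroup (Q1 I ρ P Q).toAddSubgroup
        Q.toAddSubgroup hP1 (fun x hx => hx.1)
      have h3 : P.toAddSubgroup.relIndex (Q1 I ρ P Q).toAddSubgroup ≠ 1 :=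
        fun h4 => h1 (AddSubgroup.relIndex_eq_one.1 h4)
      have h4 := index_ne_left hP1 inf_le_left hfin
      have h5 : (Q1 I ρ P Q).toAddSubgroup.relIndex Q.toAddSubgroup < n := by
        rw [← hn, ← h2]
        have h6 : 1 < P.toAddSubgroup.relIndex (Q1 I ρ P Q).toAddSubgroup := by
          have := h4.1
          omega
        exact lt_mul_of_one_lt_left (Nat.pos_of_ne_zero h4.2) h6
      have e4 : m₂ = m₁' := ih _ h5 _ _ _ _ rfl hS2 _ _ hm₂ hm₁'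
      omega

end Rep

end RDUL

open RDUL

theorem stDul (hMU : StMuw) : StDul := by
  intro p _ D _ I χ e σ s t a h L _ _ _ W _ _ _ ρ γ hF φ X hX P Q P' Q' hPQ hPQ' hfin _ sP sQ sP' sQ'
    hbd hint hl hr m m' hm hm'
  exact RDUL.main hMU h hF hX _ P Q P' Q' rfl ⟨⟨hPQ, hPQ', hfin, hl, hr⟩, hint, sP, sQ, sP', sQ', hbd⟩
    m m' hm hm'

end BKT
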