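import Pool.Agent.Lib.MP_7c08ba_nt.T1.StR

set_option autoImplicit false

/-!
Parity with explicit local terms, module EGN: the generalized eigenspace of an element which
stabilizes a lattice is the kernel of a matrix, also after an extension of scalars.
-/

noncomputable section

namespace BKT

open NumberField BKGen
open BKMet
open Matrix
open Filter Topology

namespace REGN

/-! ### The idempotent matrix -/

section Idem

variable {p : ℕ} [Fact p.Prime] {L : Type} [NormedField L] [NormedAlgebra ℚ_[p] L]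
  [FiniteDimensional ℚ_[p] L] {n : ℕ}

/-- A power of a matrix with integral entries is close to an idempotent matrix, which commutes
with it. -/
theorem exists_idem (M : Matrix (Fin n) (Fin n) (OO p L)) :
    ∃ e : Matrix (Fin n) (Fin n) (OO p L), e * e = e ∧ e * M = M * e ∧
      ∃ k : ℕ, ∀ i j, ‖(((M ^ (k + 1)) i j - e i j : OO p L) : L)‖ < 1 := by
  have hc : CompactSpace (Matrix (Fin n) (Fin n) (OO p L)) :=
    inferInstanceAs (CompactSpace (Fin n → Fin n → OO p L))
  have hcl : ∀ x ∈ closure (Set.range fun k : ℕ => M ^ (k + 1)),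
      ∀ y ∈ closure (Set.range fun k : ℕ => M ^ (k + 1)),
      x * y ∈ closure (Set.range fun k : ℕ => M ^ (k + 1)) := by
    intro x hx y hy
    refine map_mem_closure₂ continuous_mul hx hy ?_
    rintro _ ⟨a, rfl⟩ _ ⟨b, rfl⟩
    refine ⟨a + b + 1, ?_⟩
    change M ^ (a + b + 1 + 1) = M ^ (a + 1) * M ^ (b + 1)
    rw [← pow_add]
    congr 1
    ring
  obtain ⟨e, he, hee⟩ := exists_idempotent_in_compact_subsemigroup
    (M := Matrix (Fin n) (Fin n) (OO p L)) (fun r => continuous_mul_const r)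
    (closure (Set.range fun k : ℕ => M ^ (k + 1))) ⟨_, subset_closure ⟨0, rfl⟩⟩
    isClosed_closure.isCompact hcl
  refine ⟨e, hee, ?_, ?_⟩
  · have h1 : IsClosed {B : Matrix (Fin n) (Fin n) (OO p L) | B * M = M * B} :=
      isClosed_eq (continuous_mul_const M) (continuous_const_mul M)
    have h2 : closure (Set.range fun k : ℕ => M ^ (k + 1)) ⊆
        {B : Matrix (Fin n) (Fin n) (OO p L) | B * M = M * B} := by
      refine closure_minimal ?_ h1
      rintro _ ⟨k, rfl⟩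
      change M ^ (k + 1) * M = M * M ^ (k + 1)
      rw [← pow_succ, ← pow_succ']
    exact h2 he
  · have h1 : IsOpen {B : Matrix (Fin n) (Fin n) (OO p L) |
        ∀ i j, ‖((B i j - e i j : OO p L) : L)‖ < 1} := by
      have h2 : {B : Matrix (Fin n) (Fin n) (OO p L) |
          ∀ i j, ‖((B i j - e i j : OO p L) : L)‖ < 1} =
          ⋂ i, ⋂ j, {B | ‖((B i j - e i j : OO p L) : L)‖ < 1} := by
        ext B
        rw [Set.mem_iInter]
        exact ⟨fun h i => Set.mem_iInter.2 fun j => h i j, fun h i j => Set.mem_iInter.1 (h i) j⟩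
      rw [h2]
      refine isOpen_iInter_of_finite fun i => isOpen_iInter_of_finite fun j => ?_
      refine isOpen_lt ?_ continuous_const
      refine continuous_norm.comp (continuous_subtype_val.comp (Continuous.sub ?_ continuous_const))
      exact (continuous_apply j).comp (continuous_apply i)
    have h3 : e ∈ {B : Matrix (Fin n) (Fin n) (OO p L) |
        ∀ i j, ‖((B i j - e i j : OO p L) : L)‖ < 1} := by
      intro i j
      rw [sub_self, Subring.coe_zero, norm_zero]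
      exact one_pos
    obtain ⟨B, hB, k, rfl⟩ := mem_closure_iff.1 he _ h1 h3
    exact ⟨k, hB⟩

end Idem

/-! ### Norms -/

section Norm

variable {K : Type} [NormedField K] [IsUltrametricDist K] {n : ℕ}

theorem norm_mulVec_le (B : Matrix (Fin n) (Fin n) K) {c : ℝ} (hc : 0 ≤ c)
    (hB : ∀ i j, ‖B i j‖ ≤ c) (x : Fin n → K) : ‖B *ᵥ x‖ ≤ c * ‖x‖ := by
  have h0 : 0 ≤ c * ‖x‖ := mul_nonneg hc (norm_nonneg _)
  rw [pi_norm_le_iff_of_nonneg h0]
  intro i
  change ‖∑ j, B i j * x j‖ ≤ c * ‖x‖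
  refine IsUltrametricDist.norm_sum_le_of_forall_le_of_nonneg h0 ?_
  intro j _
  rw [norm_mul]
  exact mul_le_mul (hB i j) (norm_le_pi_norm x j) (norm_nonneg _) hc

theorem tendsto_iff (M e : Matrix (Fin n) (Fin n) K) (hM : ∀ i j, ‖M i j‖ ≤ 1)
    (he : ∀ i j, ‖e i j‖ ≤ 1) (hee : e * e = e) (heM : e * M = M * e) (k : ℕ) {c : ℝ}
    (hc0 : 0 ≤ c) (hc1 : c < 1) (hk : ∀ i j, ‖(M ^ (k + 1) - e) i j‖ ≤ c) (x : Fin n → K) :
    Tendsto (fun m : ℕ => (M ^ m) *ᵥ x) atTop (nhds 0) ↔ e *ᵥ x = 0 := by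
  have hMq : ∀ q : ℕ, e * M ^ q = M ^ q * e := by
    intro q
    exact (Commute.pow_right (show Commute e M from heM) q)
  have hpow : ∀ (q : ℕ) (y : Fin n → K), ‖M ^ q *ᵥ y‖ ≤ ‖y‖ := by
    intro q
    induction q with
    | zero =>
      intro y
      rw [pow_zero, one_mulVec]
    | succ q ih =>
      intro y
      rw [pow_succ, ← mulVec_mulVec]
      refine (ih _).trans ?_
      have h1 := norm_mulVec_le M zero_le_one hM y
      rwa [one_mul] at h1
  constructor
  · intro h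
    have h1 : ∀ y : Fin n → K, e *ᵥ y = y → ‖y‖ ≤ ‖M ^ (k + 1) *ᵥ y‖ := by
      intro y hy
      have h2 : y = M ^ (k + 1) *ᵥ y - (M ^ (k + 1) - e) *ᵥ y := by
        rw [sub_mulVec, hy, sub_sub_cancel]
      have h3 : ‖y‖ ≤ max ‖M ^ (k + 1) *ᵥ y‖ ‖(M ^ (k + 1) - e) *ᵥ y‖ := by
        conv_lhs => rw [h2]
        rw [pi_norm_le_iff_of_nonneg (le_max_of_le_left (norm_nonneg _))]
        intro i
        change ‖(M ^ (k + 1) *ᵥ y) i - ((M ^ (k + 1) - e) *ᵥ y) i‖ ≤ _
        rw [sub_eq_add_neg]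
        refine (IsUltrametricDist.norm_add_le_max _ _).trans ?_
        rw [norm_neg]
        exact max_le_max (norm_le_pi_norm _ i) (norm_le_pi_norm _ i)
      have h4 := norm_mulVec_le (M ^ (k + 1) - e) hc0 hk y
      rcases le_max_iff.1 h3 with h5 | h5
      · exact h5
      · have h6 : ‖y‖ ≤ c * ‖y‖ := h5.trans h4
        have h7 : ‖y‖ ≤ 0 := by
          by_contra h8
          push Not at h8
          have h9 : c * ‖y‖ < 1 * ‖y‖ := mul_lt_mul_of_pos_right hc1 h8
          rw [one_mul] at h9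
          exact absurd h6 (not_le.2 h9)
        exact h7.trans (norm_nonneg _)
    have h2 : ∀ (m : ℕ) (y : Fin n → K), e *ᵥ y = y → ‖y‖ ≤ ‖M ^ ((k + 1) * m) *ᵥ y‖ := by
      intro m
      induction m with
      | zero =>
        intro y _
        rw [mul_zero, pow_zero, one_mulVec]
      | succ m ih =>
        intro y hy
        have h3 : e *ᵥ (M ^ (k + 1) *ᵥ y) = M ^ (k + 1) *ᵥ y := by
          rw [mulVec_mulVec, hMq, ← mulVec_mulVec, hy]
        rw [mul_add, mul_one, pow_add, ← mulVec_mulVec]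
        exact (h1 y hy).trans (ih _ h3)
    have h3 : ∀ m : ℕ, ‖e *ᵥ x‖ ≤ ‖M ^ ((k + 1) * m) *ᵥ x‖ := by
      intro m
      have h4 : e *ᵥ (e *ᵥ x) = e *ᵥ x := by rw [mulVec_mulVec, hee]
      refine (h2 m _ h4).trans ?_
      rw [mulVec_mulVec, ← hMq, ← mulVec_mulVec]
      have h5 := norm_mulVec_le e zero_le_one he (M ^ ((k + 1) * m) *ᵥ x)
      rwa [one_mul] at h5
    have h4 : Tendsto (fun m : ℕ => (k + 1) * m) atTop atTop := by
      refine tendsto_atTop_mono (fun m => ?_) tendsto_id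
      change m ≤ (k + 1) * m
      nlinarith
    have h5 : Tendsto (fun m : ℕ => ‖M ^ ((k + 1) * m) *ᵥ x‖) atTop (nhds 0) := by
      have h6 := (h.comp h4).norm
      rw [norm_zero] at h6
      exact h6
    have h6 : ‖e *ᵥ x‖ ≤ 0 := ge_of_tendsto' h5 h3
    exact norm_le_zero_iff.1 h6
  · intro h
    have h1 : ∀ (m : ℕ) (y : Fin n → K), e *ᵥ y = 0 →
        ‖M ^ ((k + 1) * m) *ᵥ y‖ ≤ c ^ m * ‖y‖ := by
      intro m
      induction m with
      | zero =>
        intro y _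
        rw [mul_zero, pow_zero, one_mulVec, pow_zero, one_mul]
      | succ m ih =>
        intro y hy
        have h3 : e *ᵥ (M ^ (k + 1) *ᵥ y) = 0 := by
          rw [mulVec_mulVec, hMq, ← mulVec_mulVec, hy, mulVec_zero]
        rw [mul_add, mul_one, pow_add, ← mulVec_mulVec]
        refine (ih _ h3).trans ?_
        have h4 : M ^ (k + 1) *ᵥ y = (M ^ (k + 1) - e) *ᵥ y := by
          rw [sub_mulVec, hy, sub_zero]
        rw [h4, pow_succ c m, mul_assoc]
        exact mul_le_mul_of_nonneg_left (norm_mulVec_le _ hc0 hk y) (pow_nonneg hc0 _)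
    have h2 : ∀ m : ℕ, ‖M ^ m *ᵥ x‖ ≤ c ^ (m / (k + 1)) * ‖x‖ := by
      intro m
      have h3 : m = m % (k + 1) + (k + 1) * (m / (k + 1)) := (Nat.mod_add_div m (k + 1)).symm
      have h4 : M ^ m *ᵥ x = M ^ (m % (k + 1)) *ᵥ (M ^ ((k + 1) * (m / (k + 1))) *ᵥ x) := by
        rw [mulVec_mulVec, ← pow_add, ← h3]
      rw [h4]
      exact (hpow _ _).trans (h1 _ x h)
    have h3 : Tendsto (fun m : ℕ => c ^ (m / (k + 1)) * ‖x‖) atTop (nhds 0) := by
      have h4 : Tendsto (fun m : ℕ => m / (k + 1)) atTop atTop :=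
        Nat.tendsto_div_const_atTop (Nat.succ_ne_zero k)
      have h5 := ((tendsto_pow_atTop_nhds_zero_of_lt_one hc0 hc1).comp h4).mul_const ‖x‖
      rw [zero_mul] at h5
      exact h5
    exact squeeze_zero_norm h2 h3

end Norm

/-! ### Embeddings of fields -/

section Emb

variable {p : ℕ} [Fact p.Prime] {L : Type} [NormedField L] [NormedAlgebra ℚ_[p] L]
  [FiniteDimensional ℚ_[p] L] {L₂ : Type} [NormedField L₂] [NormedAlgebra ℚ_[p] L₂]

/-- An embedding of finite extensions of `ℚ_p` does not increase the absolute value. -/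
theorem norm_map_le (φ : L →ₐ[ℚ_[p]] L₂) (a : L) : ‖φ a‖ ≤ ‖a‖ := by
  have h1 : Continuous φ.toLinearMap := LinearMap.continuous_of_finiteDimensional _
  let f : L →L[ℚ_[p]] L₂ := ⟨φ.toLinearMap, h1⟩
  have hf : ∀ b, ‖φ b‖ ≤ ‖f‖ * ‖b‖ := fun b => f.le_opNorm b
  rcases eq_or_ne a 0 with h0 | h0
  · rw [h0, map_zero, norm_zero, norm_zero]
  by_contra h
  push Not at h
  have ha : 0 < ‖a‖ := norm_pos_iff.2 h0
  have h2 : 1 < ‖φ a‖ / ‖a‖ := (one_lt_div ha).2 h
  have h3 : Tendsto (fun m : ℕ => (‖φ a‖ / ‖a‖) ^ m) atTop atTop :=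
    tendsto_pow_atTop_atTop_of_one_lt h2
  obtain ⟨m, hm⟩ := (h3.eventually (eventually_gt_atTop ‖f‖)).exists
  have h4 := hf (a ^ m)
  rw [map_pow, norm_pow, norm_pow] at h4
  rw [div_pow, lt_div_iff₀ (pow_pos ha m)] at hm
  exact absurd h4 (not_le.2 hm)

end Emb

end REGN

open REGN in
theorem stEgn : StEgn := by
  intro p _ L _ _ _ n G _ V A ρ hρ g
  obtain ⟨e, hee, heM, k, hk⟩ := exists_idem (p := p) (L := L) ((ρ g : Matrix (Fin n) (Fin n) (OO p L)) - 1)
  refine ⟨e.map (OO p L).subtype * (A : Matrix (Fin n) (Fin n) L), ?_⟩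
  intro L₂ _ _ _ φ x
  have hu := BKND.DG.ultra (p := p) L₂
  -- the maps on matrices
  let ψ : OO p L →+* L₂ := (φ : L →+* L₂).comp (OO p L).subtype
  have hψ : ∀ a : OO p L, ‖ψ a‖ ≤ ‖(a : L)‖ := fun a => norm_map_le φ (a : L)
  set M : Matrix (Fin n) (Fin n) (OO p L) := (ρ g : Matrix (Fin n) (Fin n) (OO p L)) - 1 with hMdef
  let Φ : Matrix (Fin n) (Fin n) (OO p L) →+* Matrix (Fin n) (Fin n) L₂ := ψ.mapMatrix
  let Φ' : Matrix (Fin n) (Fin n) L →+* Matrix (Fin n) (Fin n) L₂ := (φ : L →+* L₂).mapMatrix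
  have hΦ : ∀ B : Matrix (Fin n) (Fin n) (OO p L), Φ B = Φ' (B.map (OO p L).subtype) := by
    intro B
    ext i j
    rfl
  -- a bound for the entries
  obtain ⟨c, hc0, hc1, hc⟩ : ∃ c : ℝ, 0 ≤ c ∧ c < 1 ∧
      ∀ i j, ‖(((M ^ (k + 1)) i j - e i j : OO p L) : L)‖ ≤ c := by
    let f : Fin n × Fin n → ℝ := fun q => ‖(((M ^ (k + 1)) q.1 q.2 - e q.1 q.2 : OO p L) : L)‖
    rcases isEmpty_or_nonempty (Fin n × Fin n) with h | h
    · exact ⟨0, le_rfl, one_pos, fun i j => (h.false (i, j)).elim⟩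
    · obtain ⟨q, hq⟩ := Finite.exists_max f
      exact ⟨f q, norm_nonneg _, hk q.1 q.2, fun i j => hq (i, j)⟩
  have hmain := tendsto_iff (Φ M) (Φ e) (fun i j => (hψ _).trans (OO.norm_le _))
    (fun i j => (hψ _).trans (OO.norm_le _)) (by rw [← map_mul, hee])
    (by rw [← map_mul, heM, map_mul]) k hc0 hc1
    (by
      intro i j
      have h1 : (Φ M ^ (k + 1) - Φ e) i j = ψ ((M ^ (k + 1)) i j - e i j) := by
        rw [← map_pow, ← map_sub]
        rfl
      rw [h1]
      exact (hψ _).trans (hc i j)) (Φ' (A : Matrix (Fin n) (Fin n) L) *ᵥ x)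
  -- conjugation
  have hA1 : Φ' (A : Matrix (Fin n) (Fin n) L) *
      Φ' ((A⁻¹ : GL (Fin n) L) : Matrix (Fin n) (Fin n) L) = 1 := by
    rw [← map_mul, Units.mul_inv, map_one]
  have hA2 : Φ' ((A⁻¹ : GL (Fin n) L) : Matrix (Fin n) (Fin n) L) *
      Φ' (A : Matrix (Fin n) (Fin n) L) = 1 := by
    rw [← map_mul, Units.inv_mul, map_one]
  have hV : Φ' (V g : Matrix (Fin n) (Fin n) L) - 1 =
      Φ' ((A⁻¹ : GL (Fin n) L) : Matrix (Fin n) (Fin n) L) * Φ M *
        Φ' (A : Matrix (Fin n) (Fin n) L) := by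
    have h1 : (ρ g : Matrix (Fin n) (Fin n) (OO p L)).map (OO p L).subtype =
        (A : Matrix (Fin n) (Fin n) L) * (V g : Matrix (Fin n) (Fin n) L) *
          ((A⁻¹ : GL (Fin n) L) : Matrix (Fin n) (Fin n) L) := by
      have h2 := congrArg (fun u : GL (Fin n) L => (u : Matrix (Fin n) (Fin n) L)) (hρ g)
      exact h2
    have h2 : Φ M = Φ' (A : Matrix (Fin n) (Fin n) L) * Φ' (V g : Matrix (Fin n) (Fin n) L) *
        Φ' ((A⁻¹ : GL (Fin n) L) : Matrix (Fin n) (Fin n) L) - 1 := by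
      rw [hMdef, map_sub, map_one, hΦ, h1, map_mul, map_mul]
    rw [h2, mul_sub, sub_mul, mul_one, hA2]
    congr 1
    rw [← mul_assoc, ← mul_assoc, hA2, one_mul, mul_assoc, hA2, mul_one]
  have hpow : ∀ m : ℕ, (Φ' (V g : Matrix (Fin n) (Fin n) L) - 1) ^ m =
      Φ' ((A⁻¹ : GL (Fin n) L) : Matrix (Fin n) (Fin n) L) * (Φ M) ^ m *
        Φ' (A : Matrix (Fin n) (Fin n) L) := by
    intro m
    induction m with
    | zero => rw [pow_zero, pow_zero, mul_one, hA2]
    | succ m ih =>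
      rw [pow_succ, ih, hV, pow_succ]
      have h3 : ∀ a b c d : Matrix (Fin n) (Fin n) L₂, b * a = 1 →
          a * c * b * (a * d * b) = a * (c * d) * b := by
        intro a b c d hab
        calc a * c * b * (a * d * b) = a * c * (b * a) * d * b := by
              simp only [mul_assoc]
          _ = a * (c * d) * b := by rw [hab]; simp only [mul_assoc, mul_one]
      exact h3 _ _ _ _ hA1
  have hE : (e.map (OO p L).subtype * (A : Matrix (Fin n) (Fin n) L)).map φ =
      Φ e * Φ' (A : Matrix (Fin n) (Fin n) L) := by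
    rw [hΦ, ← map_mul]
    rfl
  rw [hE, ← mulVec_mulVec, ← hmain]
  change Tendsto (fun m : ℕ => ((Φ' (V g : Matrix (Fin n) (Fin n) L) - 1) ^ m) *ᵥ x)
    atTop (nhds 0) ↔ _
  constructor
  · intro h
    have h1 : Continuous fun y : Fin n → L₂ => Φ' (A : Matrix (Fin n) (Fin n) L) *ᵥ y :=
      Continuous.matrix_mulVec continuous_const continuous_id
    have h2 := (h1.tendsto 0).comp h
    rw [mulVec_zero] at h2
    refine h2.congr fun m => ?_
    change Φ' (A : Matrix (Fin n) (Fin n) L) *ᵥ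
      (((Φ' (V g : Matrix (Fin n) (Fin n) L) - 1) ^ m) *ᵥ x) = _
    rw [hpow, mulVec_mulVec, mulVec_mulVec, mul_assoc, ← mul_assoc (Φ' _), hA1, one_mul]
  · intro h
    have h1 : Continuous fun y : Fin n → L₂ =>
        Φ' ((A⁻¹ : GL (Fin n) L) : Matrix (Fin n) (Fin n) L) *ᵥ y :=
      Continuous.matrix_mulVec continuous_const continuous_id
    have h2 := (h1.tendsto 0).comp h
    rw [mulVec_zero] at h2
    refine h2.congr fun m => ?_
    change Φ' ((A⁻¹ : GL (Fin n) L) : Matrix (Fin n) (Fin n) L) *ᵥ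
      ((Φ M) ^ m *ᵥ (Φ' (A : Matrix (Fin n) (Fin n) L) *ᵥ x)) = _
    rw [hpow, mulVec_mulVec, mulVec_mulVec, mul_assoc]

end BKT
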