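import Pool.Agent.Lib.MP_7c08ba_nt.T1.StR
import Pool.Agent.Lib.MP_7c08ba_nt.Gen.Unram

set_option autoImplicit false

/-!
The decomposition group is generated by a Frobenius element and the inertia group: the elements of
the unit ball which are fixed by the Frobenius element modulo the maximal ideal are congruent to
elements of the base field (`near_base`), hence every element of the decomposition group acts on
the roots of unity of order prime to `l` as a power of the Frobenius element (`root_frob`), hence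
also on finitely many residue classes (`frob_near`); the rest is compactness (`main`).
-/

noncomputable section

namespace BKT.RFRD

open BKGen Polynomial

section Res

variable {l : ℕ} [Fact l.Prime]

theorem isUnit_of_norm {x : ball l} (hx : ‖(x : PadicAlgCl l)‖ = 1) : IsUnit x := by
  have h0 : (x : PadicAlgCl l) ≠ 0 := by
    intro h
    rw [h, norm_zero] at hx
    exact zero_ne_one hx
  refine IsUnit.of_mul_eq_one (⟨(x : PadicAlgCl l)⁻¹, ?_⟩ : ball l) ?_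
  · change ‖(x : PadicAlgCl l)⁻¹‖ ≤ 1
    rw [norm_inv, hx, inv_one]
  · apply Subtype.ext
    change (x : PadicAlgCl l) * (x : PadicAlgCl l)⁻¹ = 1
    exact mul_inv_cancel₀ h0

theorem norm_of_isUnit {x : ball l} (hx : IsUnit x) : ‖(x : PadicAlgCl l)‖ = 1 := by
  obtain ⟨u, rfl⟩ := hx
  have h1 : ((u : ball l) : PadicAlgCl l) * (((u⁻¹ : (ball l)ˣ) : ball l) : PadicAlgCl l) = 1 := by
    have := congrArg Subtype.val (Units.mul_inv u)
    exact this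
  have h2 := congrArg norm h1
  rw [norm_mul, norm_one] at h2
  have h3 : ‖((u : ball l) : PadicAlgCl l)‖ ≤ 1 := (u : ball l).2
  have h4 : ‖(((u⁻¹ : (ball l)ˣ) : ball l) : PadicAlgCl l)‖ ≤ 1 := ((u⁻¹ : (ball l)ˣ) : ball l).2
  refine le_antisymm h3 ?_
  by_contra h5
  push Not at h5
  have h6 : ‖((u : ball l) : PadicAlgCl l)‖ * ‖(((u⁻¹ : (ball l)ˣ) : ball l) : PadicAlgCl l)‖ < 1 :=
    mul_lt_one_of_nonneg_of_lt_one_left (norm_nonneg _) h5 h4
  rw [h2] at h6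
  exact lt_irrefl _ h6

theorem not_isUnit_iff {x : ball l} : ¬ IsUnit x ↔ ‖(x : PadicAlgCl l)‖ < 1 := by
  constructor
  · intro h
    exact lt_of_le_of_ne x.2 fun h1 => h (isUnit_of_norm h1)
  · intro h h1
    rw [norm_of_isUnit h1] at h
    exact lt_irrefl _ h

theorem isLocal : IsLocalRing (ball l) := by
  refine IsLocalRing.of_nonunits_add ?_
  intro a b ha hb
  rw [mem_nonunits_iff, not_isUnit_iff] at ha hb ⊢
  exact (IsUltrametricDist.norm_add_le_max _ _).trans_lt (max_lt ha hb)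

attribute [local instance] isLocal

/-- the residue field of the unit ball -/
abbrev kR (l : ℕ) [Fact l.Prime] : Type := IsLocalRing.ResidueField (ball l)

theorem res_eq_zero {x : ball l} :
    IsLocalRing.residue (ball l) x = 0 ↔ ‖(x : PadicAlgCl l)‖ < 1 := by
  rw [IsLocalRing.residue_eq_zero_iff, IsLocalRing.mem_maximalIdeal, mem_nonunits_iff,
    not_isUnit_iff]

theorem res_eq {x y : ball l} : IsLocalRing.residue (ball l) x = IsLocalRing.residue (ball l) y ↔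
    ‖(x : PadicAlgCl l) - y‖ < 1 := by
  rw [← sub_eq_zero, ← map_sub, res_eq_zero]
  rfl

variable {A : Type} [Field A]

/-- the integral elements -/
def OA (i : A →+* PadicAlgCl l) : Subring A := (ball l).comap i

/-- reduction -/
def redA (i : A →+* PadicAlgCl l) : OA i →+* kR l :=
  (IsLocalRing.residue (ball l)).comp (i.restrict (OA i) (ball l) fun _ h => h)

theorem redA_res (i : A →+* PadicAlgCl l) (x : OA i) (z : ball l) :
    redA i x = IsLocalRing.residue (ball l) z ↔ ‖i (x : A) - z‖ < 1 := by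
  change IsLocalRing.residue (ball l) ⟨i (x : A), x.2⟩ = _ ↔ _
  exact res_eq

theorem redA_pow (i : A →+* PadicAlgCl l) (x : OA i) (n : ℕ) :
    redA i x ^ n = redA i x ↔ ‖i (x : A) ^ n - i (x : A)‖ < 1 := by
  rw [← map_pow]
  have h1 := redA_res i (x ^ n) ⟨i (x : A), x.2⟩
  have h2 : ((x ^ n : OA i) : A) = (x : A) ^ n := rfl
  rw [h2, map_pow i] at h1
  exact h1

/-- the elements of the unit ball with `z ^ q = z` modulo the maximal ideal are congruent to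
elements of `A` -/
theorem near_base (i : A →+* PadicAlgCl l) {q : ℕ}
    (hq : IsLeast {m : ℕ | 1 < m ∧ ∀ x : A, ‖i x‖ ≤ 1 → ‖i x ^ m - i x‖ < 1} q)
    (z : PadicAlgCl l) (hz : ‖z‖ ≤ 1) (hzq : ‖z ^ q - z‖ < 1) :
    ∃ a : A, ‖i a‖ ≤ 1 ∧ ‖z - i a‖ < 1 := by
  classical
  obtain ⟨⟨hq1, hqx⟩, hmin⟩ := hq
  have hq0 : q ≠ 0 := by omega
  -- the roots of `X ^ q - X`
  let P : (kR l)[X] := X ^ q - X
  have hP : P ≠ 0 := FiniteField.X_pow_card_sub_X_ne_zero (kR l) hq1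
  have hdeg : P.natDegree = q := FiniteField.X_pow_card_sub_X_natDegree_eq (kR l) hq1
  have hroot : ∀ y : kR l, y ^ q = y → y ∈ P.roots.toFinset := by
    intro y hy
    rw [Multiset.mem_toFinset, mem_roots hP, IsRoot.def]
    simp [P, hy]
  -- the image of the integral elements of `A`
  let S : Subring (kR l) := (redA i).range
  have hS : ∀ y ∈ S, y ^ q = y := by
    rintro _ ⟨x, rfl⟩
    exact (redA_pow i x q).mpr (hqx x x.2)
  have hfin : (S : Set (kR l)).Finite :=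
    (P.roots.toFinset.finite_toSet).subset fun y hy => hroot y (hS y hy)
  have : Finite S := hfin.to_subtype
  let _ : Fintype S := Fintype.ofFinite S
  -- the cardinality of the image is `q`
  have hcard : ∀ y : S, y ^ Fintype.card S = y := by
    let _ : Field S := Fintype.fieldOfDomain S
    exact fun y => FiniteField.pow_card y
  have hcard1 : 1 < Fintype.card S := Fintype.one_lt_card
  have hle : q ≤ Fintype.card S := by
    refine hmin ⟨hcard1, ?_⟩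
    intro x hx
    have h3 := hcard ⟨redA i ⟨x, hx⟩, ⟨_, rfl⟩⟩
    have h4 : redA i ⟨x, hx⟩ ^ Fintype.card S = redA i ⟨x, hx⟩ := congrArg Subtype.val h3
    exact (redA_pow i ⟨x, hx⟩ _).mp h4
  -- so the roots are the elements of the image
  have heq : hfin.toFinset = P.roots.toFinset := by
    refine Finset.eq_of_subset_of_card_le ?_ ?_
    · intro y hy
      exact hroot y (hS y (hfin.mem_toFinset.mp hy))
    · calc P.roots.toFinset.card ≤ Multiset.card P.roots := Multiset.toFinset_card_le _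
        _ ≤ P.natDegree := P.card_roots'
        _ = q := hdeg
        _ ≤ Fintype.card S := hle
        _ = hfin.toFinset.card := by
          rw [← Nat.card_eq_fintype_card, ← Set.ncard_eq_toFinset_card _ hfin]
          rfl
  have h5 : (IsLocalRing.residue (ball l) ⟨z, hz⟩ : kR l) ^ q =
      IsLocalRing.residue (ball l) ⟨z, hz⟩ := by
    rw [← map_pow, res_eq]
    exact hzq
  have h6 := hroot _ h5
  rw [← heq, hfin.mem_toFinset] at h6
  obtain ⟨x, h7⟩ := h6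
  have h8 := (redA_res i x ⟨z, hz⟩).mp h7
  refine ⟨x, x.2, ?_⟩
  rw [← norm_neg, neg_sub]
  exact h8

theorem tri {a b c : PadicAlgCl l} (h : ‖a - b‖ < 1) (h' : ‖b - c‖ < 1) : ‖a - c‖ < 1 := by
  have h1 : a - c = (a - b) + (b - c) := by ring
  rw [h1]
  exact (IsUltrametricDist.norm_add_le_max _ _).trans_lt (max_lt h h')

theorem nsymm {a b : PadicAlgCl l} (h : ‖a - b‖ < 1) : ‖b - a‖ < 1 := by
  rw [← norm_neg, neg_sub]
  exact h

theorem norm_le_of_close {a b : PadicAlgCl l} (hb : ‖b‖ ≤ 1) (h : ‖a - b‖ < 1) : ‖a‖ ≤ 1 := by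
  have h1 : a = (a - b) + b := by ring
  rw [h1]
  exact (IsUltrametricDist.norm_add_le_max _ _).trans (max_le h.le hb)

/-- a homomorphism which preserves the unit ball does not increase the absolute value -/
theorem norm_le_of_ball (j : A →+* PadicAlgCl l) (φ : A →+* A)
    (hA : ∀ x, ‖j x‖ ≤ 1 → ‖j (φ x)‖ ≤ 1) (x : A) : ‖j (φ x)‖ ≤ ‖j x‖ := by
  by_contra hlt
  push Not at hlt
  have hx0 : x ≠ 0 := by
    rintro rfl
    simp at hlt
  have hu : 0 < ‖j x‖ := norm_pos_iff.mpr ((map_ne_zero j).mpr hx0)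
  have hl0 : 0 < ‖(l : PadicAlgCl l)‖ := by
    rw [norm_pos_iff]
    exact_mod_cast (Fact.out : l.Prime).ne_zero
  have hy : 1 < ‖(l : PadicAlgCl l)‖⁻¹ := (one_lt_inv₀ hl0).mpr norm_l_lt
  obtain ⟨a, ha⟩ := pow_unbounded_of_one_lt (‖(l : PadicAlgCl l)‖⁻¹) ((one_lt_div hu).mpr hlt)
  obtain ⟨n, hn1, hn2⟩ := exists_mem_Ioc_zpow (pow_pos hu a) hy
  have hyn : (0 : ℝ) < (‖(l : PadicAlgCl l)‖⁻¹) ^ n := zpow_pos (inv_pos.mpr hl0) n
  have h1 : ‖j (x ^ a * (l : A) ^ (n + 1))‖ = ‖j x‖ ^ a * ((‖(l : PadicAlgCl l)‖⁻¹) ^ (n + 1))⁻¹ := by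
    rw [map_mul, map_pow, map_zpow₀, map_natCast, norm_mul, norm_pow, norm_zpow, inv_zpow, inv_inv]
  have h2 : ‖j (φ (x ^ a * (l : A) ^ (n + 1)))‖ =
      ‖j (φ x)‖ ^ a * ((‖(l : PadicAlgCl l)‖⁻¹) ^ (n + 1))⁻¹ := by
    rw [map_mul, map_pow, map_zpow₀, map_natCast, map_mul, map_pow, map_zpow₀, map_natCast,
      norm_mul, norm_pow, norm_zpow, inv_zpow, inv_inv]
  have hy1 : (0 : ℝ) < (‖(l : PadicAlgCl l)‖⁻¹) ^ (n + 1) := zpow_pos (inv_pos.mpr hl0) _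
  have h3 : ‖j (x ^ a * (l : A) ^ (n + 1))‖ ≤ 1 := by
    rw [h1, ← div_eq_mul_inv, div_le_one hy1]
    exact hn2
  have h4 := hA _ h3
  rw [h2, ← div_eq_mul_inv, div_le_one hy1] at h4
  rw [div_pow, lt_div_iff₀ (pow_pos hu a)] at ha
  have h5 : (‖(l : PadicAlgCl l)‖⁻¹) ^ (n + 1) < ‖(l : PadicAlgCl l)‖⁻¹ * ‖j x‖ ^ a := by
    rw [zpow_add_one₀ (inv_pos.mpr hl0).ne', mul_comm]
    exact mul_lt_mul_of_pos_left hn1 (inv_pos.mpr hl0)
  linarith

theorem norm_eq_of_ball (j : A →+* PadicAlgCl l) (φ : A →+* A)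
    (hA : ∀ x, ‖j x‖ ≤ 1 → ‖j (φ x)‖ ≤ 1) (x : A) : ‖j (φ x)‖ = ‖j x‖ := by
  refine le_antisymm (norm_le_of_ball j φ hA x) ?_
  by_cases hx0 : x = 0
  · rw [hx0]
    simp
  have h1 := norm_le_of_ball j φ hA x⁻¹
  rw [map_inv₀, map_inv₀, map_inv₀, norm_inv, norm_inv] at h1
  have hu : 0 < ‖j x‖ := norm_pos_iff.mpr ((map_ne_zero j).mpr hx0)
  have hv : 0 < ‖j (φ x)‖ := norm_pos_iff.mpr ((map_ne_zero j).mpr ((map_ne_zero φ).mpr hx0))
  exact (inv_le_inv₀ hv hu).mp h1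

end Res

section Roots

attribute [local instance] isLocal

variable {l : ℕ} [Fact l.Prime] {F Ω : Type} [Field F] [Field Ω] [Algebra F Ω]
  (j : Ω →+* PadicAlgCl l)

/-- the action on the integral elements -/
def act (d : Ω ≃ₐ[F] Ω) (hd : ∀ x, ‖j (d x)‖ = ‖j x‖) : OA j →+* OA j :=
  (d : Ω →+* Ω).restrict (OA j) (OA j) fun x hx => by
    change ‖j (d x)‖ ≤ 1
    rw [hd]
    exact hx

theorem root_close {N : ℕ} (hN : ¬ l ∣ N) {a b : Ω} (ha : a ^ N = 1) (hb : b ^ N = 1)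
    (h : ‖j a - j b‖ < 1) : a = b := by
  by_contra hne
  have h1 := norm_root_sub (l := l) hN (ζ := j a) (ζ' := j b) (by rw [← map_pow, ha, map_one])
    (by rw [← map_pow, hb, map_one]) (fun hh => hne (j.injective hh))
  rw [h1] at h
  exact lt_irrefl _ h

variable {q : ℕ} (φ : Ω ≃ₐ[F] Ω)

theorem frob_root (hφ : ∀ x, ‖j x‖ ≤ 1 → ‖j (φ x) - j x ^ q‖ < 1) {N : ℕ} (hN : ¬ l ∣ N) {a : Ω}
    (ha : a ^ N = 1) : φ a = a ^ q := by
  have hN0 : N ≠ 0 := by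
    rintro rfl
    exact hN (dvd_zero _)
  refine root_close j hN (by rw [← map_pow, ha, map_one]) (by rw [← pow_mul, mul_comm, pow_mul, ha,
    one_pow]) ?_
  rw [map_pow j a q]
  refine hφ a ?_
  rw [norm_root hN0 (ζ := j a) (by rw [← map_pow, ha, map_one])]

theorem frob_root_pow (hφ : ∀ x, ‖j x‖ ≤ 1 → ‖j (φ x) - j x ^ q‖ < 1) {N : ℕ} (hN : ¬ l ∣ N) {a : Ω}
    (ha : a ^ N = 1) (i : ℕ) : (φ ^ i) a = a ^ (q ^ i) := by
  induction i with
  | zero => simp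
  | succ i ih =>
    rw [pow_succ', AlgEquiv.mul_apply, ih, map_pow, frob_root j φ hφ hN ha, ← pow_mul, ← pow_succ']

theorem finite_root {N : ℕ} (hN0 : N ≠ 0) : Finite {x : Ω // x ^ N = 1} := by
  have h1 : {x : Ω | x ^ N = 1}.Finite := by
    classical
    have h2 : (X ^ N - 1 : Polynomial Ω) ≠ 0 := by
      have := monic_X_pow_sub_C (1 : Ω) hN0
      rw [C_1] at this
      exact this.ne_zero
    refine ((X ^ N - 1 : Polynomial Ω).roots.toFinset.finite_toSet).subset ?_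
    intro x hx
    rw [Finset.mem_coe, Multiset.mem_toFinset, mem_roots h2, IsRoot.def]
    simp only [eval_sub, eval_pow, eval_X, eval_one]
    rw [sub_eq_zero]
    exact hx
  exact h1.to_subtype

theorem exists_order (hφ : ∀ x, ‖j x‖ ≤ 1 → ‖j (φ x) - j x ^ q‖ < 1) {N : ℕ} (hN : ¬ l ∣ N) {η : Ω}
    (hη : η ^ N = 1) : ∃ f : ℕ, 0 < f ∧ η ^ (q ^ f) = η := by
  have hN0 : N ≠ 0 := by
    rintro rfl
    exact hN (dvd_zero _)
  have := finite_root (Ω := Ω) hN0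
  obtain ⟨a, b, hab, h3⟩ := Finite.exists_ne_map_eq_of_infinite
    (fun i : ℕ => (⟨(φ ^ i) η, by rw [← map_pow, hη, map_one]⟩ : {x : Ω // x ^ N = 1}))
  have h4 : (φ ^ a) η = (φ ^ b) η := congrArg Subtype.val h3
  have key : ∀ a b : ℕ, a < b → (φ ^ a) η = (φ ^ b) η → ∃ f : ℕ, 0 < f ∧ η ^ (q ^ f) = η := by
    intro a b hab h4
    refine ⟨b - a, Nat.sub_pos_of_lt hab, ?_⟩
    rw [← frob_root_pow j φ hφ hN hη]
    apply (φ ^ a).injective
    rw [← AlgEquiv.mul_apply, ← pow_add, Nat.add_sub_cancel' hab.le, ← h4]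
  rcases lt_or_gt_of_ne hab with h | h
  · exact key a b h h4
  · exact key b a h h4.symm

/-- the polynomial with roots `g i` is fixed by `σ` -/
theorem prod_fixed {R : Type*} [CommRing R] [IsDomain R] (σ : R →+* R) (g : ℕ → R) (f : ℕ)
    (hg : ∀ i, σ (g i) = g (i + 1)) (hf : g f = g 0) :
    (∏ i ∈ Finset.range f, (X - C (g i))).map σ = ∏ i ∈ Finset.range f, (X - C (g i)) := by
  have h1 : (∏ i ∈ Finset.range f, (X - C (g i))).map σ =
      ∏ i ∈ Finset.range f, (X - C (g (i + 1))) := by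
    rw [Polynomial.map_prod]
    refine Finset.prod_congr rfl fun i _ => ?_
    rw [Polynomial.map_sub, map_X, map_C, hg]
  have h2 : (∏ i ∈ Finset.range f, (X - C (g (i + 1)))) * (X - C (g 0)) =
      (∏ i ∈ Finset.range f, (X - C (g i))) * (X - C (g f)) := by
    rw [← Finset.prod_range_succ' (fun i => X - C (g i)), Finset.prod_range_succ]
  rw [hf] at h2
  rw [h1]
  exact mul_right_cancel₀ (X_sub_C_ne_zero (g 0)) h2

/-- if the reductions of the coefficients are fixed by `δ`, then `δ` permutes the reductions of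
the roots -/
theorem root_perm {R k : Type*} [CommRing R] [CommRing k] [IsDomain k] (r : R →+* k)
    (δ : R →+* R) (g : ℕ → R) {f : ℕ} (hf0 : 0 < f)
    (h : ∀ n, r (δ ((∏ i ∈ Finset.range f, (X - C (g i))).coeff n)) =
      r ((∏ i ∈ Finset.range f, (X - C (g i))).coeff n)) :
    ∃ i, r (δ (g 0)) = r (g i) := by
  set Q : R[X] := ∏ i ∈ Finset.range f, (X - C (g i)) with hQ
  have hmap : (Q.map δ).map r = Q.map r := by
    ext n
    rw [coeff_map, coeff_map, coeff_map, h]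
  have h0 : (Q.map r).eval (r (δ (g 0))) = 0 := by
    rw [← hmap, eval_map, eval₂_hom, eval_map, eval₂_hom]
    have h1 : Q.eval (g 0) = 0 := by
      rw [hQ, eval_prod]
      refine Finset.prod_eq_zero (Finset.mem_range.mpr hf0) ?_
      rw [eval_sub, eval_X, eval_C, sub_self]
    rw [h1, map_zero, map_zero]
  rw [hQ, Polynomial.map_prod, eval_prod, Finset.prod_eq_zero_iff] at h0
  obtain ⟨i, -, hi⟩ := h0
  rw [Polynomial.map_sub, map_X, map_C, eval_sub, eval_X, eval_C, sub_eq_zero] at hi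
  exact ⟨i, hi⟩

/-- the elements fixed by the Frobenius are congruent to elements of the base field -/
theorem fixed_near (hq : IsLeast {m : ℕ | 1 < m ∧ ∀ x : F, ‖j (algebraMap F Ω x)‖ ≤ 1 →
      ‖j (algebraMap F Ω x) ^ m - j (algebraMap F Ω x)‖ < 1} q)
    (hφ : ∀ x, ‖j x‖ ≤ 1 → ‖j (φ x) - j x ^ q‖ < 1)
    (d : Ω ≃ₐ[F] Ω) (hd : ∀ x, ‖j (d x)‖ = ‖j x‖) (c : Ω) (hc : ‖j c‖ ≤ 1) (h : φ c = c) :
    ‖j (d c) - j c‖ < 1 := by
  have h4 := hφ c hc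
  rw [h] at h4
  obtain ⟨a, ha, h1⟩ := near_base (j.comp (algebraMap F Ω)) hq _ hc (nsymm h4)
  have h2 : ‖j (d c) - j (algebraMap F Ω a)‖ < 1 := by
    have h3 := hd (c - algebraMap F Ω a)
    rw [map_sub, d.commutes, map_sub, map_sub] at h3
    rw [h3]
    exact h1
  exact tri h2 (nsymm h1)

theorem redA_eq_iff (x y : OA j) : redA j x = redA j y ↔ ‖j (x : Ω) - j (y : Ω)‖ < 1 :=
  redA_res j x ⟨j (y : Ω), y.2⟩

/-- an element of the decomposition group acts on a root of unity as a power of the Frobenius -/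
theorem root_frob (hq : IsLeast {m : ℕ | 1 < m ∧ ∀ x : F, ‖j (algebraMap F Ω x)‖ ≤ 1 →
      ‖j (algebraMap F Ω x) ^ m - j (algebraMap F Ω x)‖ < 1} q)
    (hφ : ∀ x, ‖j x‖ ≤ 1 → ‖j (φ x) - j x ^ q‖ < 1) (hφd : ∀ x, ‖j (φ x)‖ = ‖j x‖)
    (d : Ω ≃ₐ[F] Ω) (hd : ∀ x, ‖j (d x)‖ = ‖j x‖) {N : ℕ} (hN : ¬ l ∣ N) {η : Ω}
    (hη : η ^ N = 1) : ∃ m : ℕ, d η = η ^ (q ^ m) := by
  have hN0 : N ≠ 0 := by
    rintro rfl
    exact hN (dvd_zero _)
  obtain ⟨f, hf0, hf⟩ := exists_order j φ hφ hN hη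
  have hnorm : ∀ i : ℕ, ‖j (η ^ i)‖ ≤ 1 := by
    intro i
    rw [map_pow, norm_pow, norm_root hN0 (ζ := j η) (by rw [← map_pow, hη, map_one]), one_pow]
  obtain ⟨g, hg⟩ : ∃ g : ℕ → OA j, ∀ i, (g i : Ω) = η ^ (q ^ i) :=
    ⟨fun i => ⟨η ^ (q ^ i), hnorm _⟩, fun _ => rfl⟩
  have hgf : g f = g 0 := by
    apply Subtype.ext
    rw [hg, hg, hf, pow_zero, pow_one]
  have hgφ : ∀ i, act j φ hφd (g i) = g (i + 1) := by
    intro i
    apply Subtype.ext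
    change φ (g i : Ω) = (g (i + 1) : Ω)
    rw [hg, hg, map_pow, frob_root j φ hφ hN hη, ← pow_mul, ← pow_succ']
  have hQφ := prod_fixed (act j φ hφd) g f hgφ hgf
  have hc : ∀ c : OA j, act j φ hφd c = c → redA j (act j d hd c) = redA j c := by
    intro c hc
    rw [redA_eq_iff]
    exact fixed_near j φ hq hφ d hd (c : Ω) c.2 (congrArg Subtype.val hc)
  obtain ⟨i, hi⟩ := root_perm (redA j) (act j d hd) g hf0 (by
    intro n
    have h1 : act j φ hφd ((∏ i ∈ Finset.range f, (X - C (g i))).coeff n) =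
        (∏ i ∈ Finset.range f, (X - C (g i))).coeff n := by
      rw [← coeff_map, hQφ]
    exact hc _ h1)
  rw [redA_eq_iff] at hi
  have h5 : ‖j (d (g 0 : Ω)) - j (g i : Ω)‖ < 1 := hi
  rw [hg, hg, pow_zero, pow_one] at h5
  exact ⟨i, root_close j hN (by rw [← map_pow, hη, map_one])
    (by rw [← pow_mul, mul_comm, pow_mul, hη, one_pow]) h5⟩

theorem pow_mem_dec (hφd : ∀ x, ‖j (φ x)‖ = ‖j x‖) (m : ℕ) (x : Ω) :
    ‖j ((φ ^ m) x)‖ = ‖j x‖ := by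
  induction m with
  | zero => simp
  | succ m ih => rw [pow_succ', AlgEquiv.mul_apply, hφd, ih]

theorem frob_near [IsAlgClosed Ω] [CharZero Ω]
    (hq : IsLeast {m : ℕ | 1 < m ∧ ∀ x : F, ‖j (algebraMap F Ω x)‖ ≤ 1 →
      ‖j (algebraMap F Ω x) ^ m - j (algebraMap F Ω x)‖ < 1} q)
    (hφ : ∀ x, ‖j x‖ ≤ 1 → ‖j (φ x) - j x ^ q‖ < 1) (hφd : ∀ x, ‖j (φ x)‖ = ‖j x‖)
    (d : Ω ≃ₐ[F] Ω) (hd : ∀ x, ‖j (d x)‖ = ‖j x‖) (S : Finset Ω) :
    ∃ m : ℕ, ∀ x ∈ S, ‖j x‖ ≤ 1 → ‖j (d x) - j ((φ ^ m) x)‖ < 1 := by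
  classical
  have h1 : ∀ x : Ω, ∃ N : ℕ, ¬ l ∣ N ∧ (‖j x‖ = 1 → ∃ ζ : PadicAlgCl l, ζ ^ N = 1 ∧
      ‖j x - ζ‖ < 1) := by
    intro x
    by_cases hx : ‖j x‖ = 1
    · obtain ⟨N, ζ, h2, h3, h4⟩ := exists_root_near (j x) hx
      exact ⟨N, h2, fun _ => ⟨ζ, h3, h4⟩⟩
    · exact ⟨1, (Fact.out : l.Prime).one_lt.ne' ∘ Nat.dvd_one.mp, fun h => absurd h hx⟩
  choose N hN hζ using h1
  have hlN : ¬ l ∣ ∏ x ∈ S, N x := by
    intro h
    obtain ⟨x, -, hx⟩ := (Nat.Prime.prime (Fact.out : l.Prime)).exists_mem_finset_dvd h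
    exact hN x hx
  have hN0 : ∏ x ∈ S, N x ≠ 0 := by
    intro h
    rw [h] at hlN
    exact hlN (dvd_zero _)
  have : NeZero (∏ x ∈ S, N x) := ⟨hN0⟩
  have : NeZero ((∏ x ∈ S, N x : ℕ) : Ω) := ⟨Nat.cast_ne_zero.mpr hN0⟩
  obtain ⟨η, hη⟩ := HasEnoughRootsOfUnity.exists_primitiveRoot Ω (∏ x ∈ S, N x)
  obtain ⟨m, hm⟩ := root_frob j φ hq hφ hφd d hd hlN hη.pow_eq_one
  refine ⟨m, fun x hx hx1 => ?_⟩
  by_cases hx2 : ‖j x‖ = 1
  · obtain ⟨ζ, h2, h3⟩ := hζ x hx2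
    have h4 : ζ ^ (∏ x ∈ S, N x) = 1 := by
      obtain ⟨c, hc⟩ := Finset.dvd_prod_of_mem N hx
      rw [hc, pow_mul, h2, one_pow]
    obtain ⟨a, -, ha⟩ := (hη.map_of_injective j.injective).eq_pow_of_pow_eq_one h4
    have h5 : ‖j (d x) - j (d (η ^ a))‖ < 1 := by
      rw [← map_sub, ← map_sub, hd, map_sub, map_pow j, ha]
      exact h3
    have h6 : ‖j ((φ ^ m) x) - j ((φ ^ m) (η ^ a))‖ < 1 := by
      rw [← map_sub, ← map_sub, pow_mem_dec j φ hφd, map_sub, map_pow j, ha]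
      exact h3
    have h7 : d (η ^ a) = (φ ^ m) (η ^ a) := by
      rw [map_pow d, map_pow (φ ^ m), frob_root_pow j φ hφ hlN hη.pow_eq_one, hm]
    rw [h7] at h5
    exact tri h5 (nsymm h6)
  · have h2 : ‖j x‖ < 1 := lt_of_le_of_ne hx1 hx2
    refine norm_sub_le_max.trans_lt (max_lt ?_ ?_)
    · rw [hd]
      exact h2
    · rw [pow_mem_dec j φ hφd]
      exact h2

end Roots

section Compact

variable {l : ℕ} [Fact l.Prime] {F Ω : Type} [Field F] [Field Ω] [Algebra F Ω]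
  (j : Ω →+* PadicAlgCl l)

theorem closed_near [Algebra.IsIntegral F Ω] (x : Ω) :
    IsClosed {σ : Ω ≃ₐ[F] Ω | ‖j x‖ ≤ 1 → ‖j (σ x - x)‖ < 1} := by
  rw [← isOpen_compl_iff, isOpen_iff_mem_nhds]
  intro σ hσ
  have h2 : IsOpen (MulAction.stabilizer (Ω ≃ₐ[F] Ω) x : Set (Ω ≃ₐ[F] Ω)) :=
    stabilizer_isOpen_of_isIntegral x
  have h3 : IsOpen ((fun τ => σ⁻¹ * τ) ⁻¹'
      (MulAction.stabilizer (Ω ≃ₐ[F] Ω) x : Set (Ω ≃ₐ[F] Ω))) :=
    h2.preimage (continuous_const_mul σ⁻¹)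
  refine Filter.mem_of_superset (h3.mem_nhds (by
    change σ⁻¹ * σ ∈ MulAction.stabilizer (Ω ≃ₐ[F] Ω) x
    rw [inv_mul_cancel]
    exact Subgroup.one_mem _)) ?_
  intro τ hτ
  have h4 : (σ⁻¹ * τ) x = x := hτ
  have h5 : τ x = σ x := by
    have h6 := congrArg σ h4
    rw [← AlgEquiv.mul_apply, mul_inv_cancel_left] at h6
    exact h6
  change ¬ (‖j x‖ ≤ 1 → ‖j (τ x - x)‖ < 1)
  rw [h5]
  exact hσ

theorem main [IsGalois F Ω] [IsAlgClosed Ω] [CharZero Ω] {q : ℕ} (φ : Ω ≃ₐ[F] Ω)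
    (hq : IsLeast {m : ℕ | 1 < m ∧ ∀ x : F, ‖j (algebraMap F Ω x)‖ ≤ 1 →
      ‖j (algebraMap F Ω x) ^ m - j (algebraMap F Ω x)‖ < 1} q)
    (hφ : ∀ x, ‖j x‖ ≤ 1 → ‖j (φ x) - j x ^ q‖ < 1) (hφd : ∀ x, ‖j (φ x)‖ = ‖j x‖)
    (U : Subgroup (Ω ≃ₐ[F] Ω)) (hU : IsOpen (U : Set (Ω ≃ₐ[F] Ω))) (hn : U.Normal)
    (d : Ω ≃ₐ[F] Ω) (hd : ∀ x, ‖j (d x)‖ = ‖j x‖) :
    ∃ k : ℕ, ∃ i ∈ Inert F Ω j, (φ ^ k * i)⁻¹ * d ∈ U := by
  classical
  have hUc : IsClosed (U : Set (Ω ≃ₐ[F] Ω)) := U.isClosed_of_isOpen hU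
  have : Finite ((Ω ≃ₐ[F] Ω) ⧸ U) := U.quotient_finite_of_isOpen hU
  obtain ⟨N, hN0, -, hN⟩ := Subgroup.exists_pow_mem_of_index_ne_zero
    (H := U) (Subgroup.index_ne_zero_of_finite) φ
  by_contra hcon
  push Not at hcon
  have h1 : ∀ k : ℕ, ∃ T : Finset Ω, ∀ g : Ω ≃ₐ[F] Ω, (φ ^ k * g)⁻¹ * d ∈ U →
      ∃ x ∈ T, ¬ (‖j x‖ ≤ 1 → ‖j (g x - x)‖ < 1) := by
    intro k
    have hC : IsClosed {g : Ω ≃ₐ[F] Ω | (φ ^ k * g)⁻¹ * d ∈ U} :=
      hUc.preimage (((continuous_const_mul (φ ^ k)).inv).mul_const d)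
    obtain ⟨T, hT⟩ := hC.isCompact.elim_finite_subfamily_closed
      (fun x : Ω => {σ : Ω ≃ₐ[F] Ω | ‖j x‖ ≤ 1 → ‖j (σ x - x)‖ < 1}) (fun x => closed_near j x) (by
        rw [Set.eq_empty_iff_forall_notMem]
        rintro g ⟨hg1, hg2⟩
        refine hcon k g ?_ hg1
        intro x hx
        exact Set.mem_iInter.mp hg2 x hx)
    refine ⟨T, fun g hg => ?_⟩
    by_contra h2
    push Not at h2
    have h3 : g ∈ ({g : Ω ≃ₐ[F] Ω | (φ ^ k * g)⁻¹ * d ∈ U} ∩ ⋂ x ∈ T,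
        {σ : Ω ≃ₐ[F] Ω | ‖j x‖ ≤ 1 → ‖j (σ x - x)‖ < 1}) := by
      refine ⟨hg, ?_⟩
      rw [Set.mem_iInter₂]
      intro x hx
      exact h2 x hx
    rw [hT] at h3
    exact h3
  choose T hT using h1
  obtain ⟨m, hm⟩ := frob_near j φ hq hφ hφd d hd ((Finset.range N).biUnion T)
  obtain ⟨x, hx1, hx2⟩ := hT (m % N) ((φ ^ m)⁻¹ * d) (by
    have h2 : φ ^ m = φ ^ (m % N) * (φ ^ N) ^ (m / N) := by
      rw [← pow_mul, ← pow_add, Nat.mod_add_div]
    have h3 : (φ ^ (m % N) * ((φ ^ m)⁻¹ * d))⁻¹ * d =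
        d⁻¹ * ((φ ^ N) ^ (m / N)) * d⁻¹⁻¹ := by
      rw [h2]
      have h4 : Commute (φ ^ (m % N)) ((φ ^ N) ^ (m / N)) :=
        ((Commute.refl φ).pow_pow _ _).pow_right _
      rw [h4.eq]
      group
    rw [h3]
    exact hn.conj_mem _ (U.pow_mem hN _) _)
  apply hx2
  intro hx3
  have h5 := hm x (Finset.mem_biUnion.mpr ⟨m % N, Finset.mem_range.mpr (Nat.mod_lt _ hN0), hx1⟩) hx3
  have h6 : ‖j (((φ ^ m)⁻¹ * d) x - x)‖ = ‖j (d x) - j ((φ ^ m) x)‖ := by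
    rw [← pow_mem_dec j φ hφd m, map_sub (φ ^ m), ← AlgEquiv.mul_apply, mul_inv_cancel_left, map_sub]
  rw [h6]
  exact h5

end Compact

end BKT.RFRD

namespace BKT

open BKGen

theorem stFrd : StFrd := by
  intro l _ F _ _ j φ h
  obtain ⟨q, hq, hφ⟩ := h
  have hA : ∀ x, ‖j x‖ ≤ 1 → ‖j (φ x)‖ ≤ 1 := by
    intro x hx
    refine RFRD.norm_le_of_close (b := j x ^ q) ?_ (hφ x hx)
    rw [norm_pow]
    exact pow_le_one₀ (norm_nonneg _) hx
  have hφd : ∀ x, ‖j (φ x)‖ = ‖j x‖ :=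
    RFRD.norm_eq_of_ball j (φ : AlgebraicClosure F →+* AlgebraicClosure F) hA
  exact ⟨hφd, fun U hU hn d hd => RFRD.main j φ hq hφ hφd U hU hn d hd⟩

end BKT
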