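import Pool.Agent.Lib.MP_7c08ba_nt.T1.StR

set_option autoImplicit false

/-!
The dimension of the kernel of a family of matrices does not change under an extension of the
field.
-/

noncomputable section

namespace BKT

open Matrix

namespace RKBC

variable {L L₂ : Type} [Field L] [Field L₂] [Algebra L L₂] {n : ℕ} {ι : Type}

/-- the coordinates of `M x` are `M x_i` -/
theorem coord_mulVec (f : L₂ →ₗ[L] L) (M : Matrix (Fin n) (Fin n) L) (x : Fin n → L₂) :
    (fun a => f ((M.map (algebraMap L L₂) *ᵥ x) a)) = M *ᵥ (fun a => f (x a)) := by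
  funext a
  simp only [Matrix.mulVec, dotProduct, Matrix.map_apply, map_sum]
  refine Finset.sum_congr rfl fun b _ => ?_
  rw [← Algebra.smul_def, map_smul, smul_eq_mul]

theorem main {κ : Type} (E : κ → Matrix (Fin n) (Fin n) L) (U : Submodule L (Fin n → L))
    (U' : Submodule L₂ (Fin n → L₂)) (hU : ∀ x, x ∈ U ↔ ∀ k, E k *ᵥ x = 0)
    (hU' : ∀ x, x ∈ U' ↔ ∀ k, (E k).map (algebraMap L L₂) *ᵥ x = 0) :
    Module.finrank L₂ U' = Module.finrank L U := by
  classical
  let β := Module.Basis.ofVectorSpace L L₂
  let b := Module.finBasis L U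
  -- the coordinates
  have hco : ∀ x, x ∈ U' → ∀ i, (fun a => β.coord i (x a)) ∈ U := by
    intro x hx i
    rw [hU]
    intro k
    rw [← coord_mulVec, (hU' x).1 hx k]
    funext a
    simp
  have hin : ∀ u, u ∈ U → (fun a => algebraMap L L₂ (u a)) ∈ U' := by
    intro u hu
    rw [hU']
    intro k
    funext a
    have h := congrFun ((hU u).1 hu k) a
    simp only [Matrix.mulVec, dotProduct, Matrix.map_apply, Pi.zero_apply] at h ⊢
    rw [← map_zero (algebraMap L L₂), ← h, map_sum]
    exact Finset.sum_congr rfl fun b _ => (map_mul _ _ _).symm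
  let v : Fin (Module.finrank L U) → U' :=
    fun j => ⟨fun a => algebraMap L L₂ ((b j : Fin n → L) a), hin _ (b j).2⟩
  have hli : LinearIndependent L₂ v := by
    rw [Fintype.linearIndependent_iff]
    intro g hg j
    apply β.repr.injective
    rw [map_zero]
    ext i
    rw [Finsupp.zero_apply]
    have hbi := Fintype.linearIndependent_iff.1 b.linearIndependent
      (fun j => β.coord i (g j)) ?_ j
    · exact hbi
    · apply Subtype.ext
      funext a
      have h := congrArg (fun y : U' => (y : Fin n → L₂) a) hg
      have h2 : ∑ j, g j * algebraMap L L₂ ((b j : Fin n → L) a) = 0 := by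
        have h3 := h
        simp only [Submodule.coe_sum, Finset.sum_apply, Submodule.coe_smul, Pi.smul_apply,
          smul_eq_mul, Submodule.coe_zero, Pi.zero_apply, v] at h3
        exact h3
      have h4 := congrArg (β.coord i) h2
      rw [map_sum, map_zero] at h4
      simp only [Submodule.coe_sum, Finset.sum_apply, Submodule.coe_smul, Pi.smul_apply,
        smul_eq_mul, Submodule.coe_zero, Pi.zero_apply]
      rw [← h4]
      refine Finset.sum_congr rfl fun j _ => ?_
      rw [mul_comm (g j), ← Algebra.smul_def, map_smul, smul_eq_mul, mul_comm]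
  have hsu : ∀ u, ∀ hu : u ∈ U, (⟨fun a => algebraMap L L₂ (u a), hin u hu⟩ : U') ∈
      Submodule.span L₂ (Set.range v) := by
    intro u hu
    have h : (⟨fun a => algebraMap L L₂ (u a), hin u hu⟩ : U') =
        ∑ j, algebraMap L L₂ (b.repr ⟨u, hu⟩ j) • v j := by
      apply Subtype.ext
      funext a
      have h2 := congrArg (fun y : U => (y : Fin n → L) a) (b.sum_repr ⟨u, hu⟩)
      simp only [Submodule.coe_sum, Finset.sum_apply, Submodule.coe_smul, Pi.smul_apply,
        smul_eq_mul, v] at h2 ⊢
      rw [← h2, map_sum]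
      exact Finset.sum_congr rfl fun j _ => map_mul _ _ _
    rw [h]
    exact Submodule.sum_mem _ fun j _ => Submodule.smul_mem _ _
      (Submodule.subset_span ⟨j, rfl⟩)
  have hsp : ⊤ ≤ Submodule.span L₂ (Set.range v) := by
    rintro ⟨x, hx⟩ -
    let S : Finset _ := Finset.univ.biUnion fun a => (β.repr (x a)).support
    have h : (⟨x, hx⟩ : U') = ∑ i ∈ S, (β i) •
        (⟨fun a => algebraMap L L₂ (β.coord i (x a)), hin _ (hco x hx i)⟩ : U') := by
      apply Subtype.ext
      funext a
      simp only [Submodule.coe_sum, Finset.sum_apply, Submodule.coe_smul, Pi.smul_apply,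
        smul_eq_mul]
      conv_lhs => rw [← β.linearCombination_repr (x a), Finsupp.linearCombination_apply,
        Finsupp.sum]
      rw [Finset.sum_subset (s₂ := S)]
      · refine Finset.sum_congr rfl fun i _ => ?_
        rw [Algebra.smul_def, mul_comm]
        rfl
      · intro i hi
        exact Finset.mem_biUnion.2 ⟨a, Finset.mem_univ _, hi⟩
      · intro i _ hi
        rw [Finsupp.notMem_support_iff.1 hi, zero_smul]
    rw [h]
    exact Submodule.sum_mem _ fun i _ => Submodule.smul_mem _ _ (hsu _ (hco x hx i))
  have hb := Module.finrank_eq_card_basis (Module.Basis.mk hli hsp)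
  rw [hb, Fintype.card_fin]

end RKBC

/-- Module KBC: the dimension of the kernel of a family of matrices under field extension. -/
theorem stKbc : StKbc := by
  intro L L₂ _ _ φ n κ E U U' hU hU'
  let _ : Algebra L L₂ := φ.toAlgebra
  exact RKBC.main E U U' hU hU'

end BKT
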