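import Pool.Agent.Lib.MP_7c08ba_nt.T1.StR

set_option autoImplicit false

/-!
Explicit local terms, module LTH: the local theorem for representations on which the kernel of the
tame character acts trivially.
-/

noncomputable section

namespace BKT

open BKMet

namespace RLTH

variable {p : ℕ} [Fact p.Prime] {D : Type} [Group D] {L : Type} [NormedField L]
  [NormedAlgebra ℚ_[p] L] [FiniteDimensional ℚ_[p] L] {W : Type} [AddCommGroup W] [Module L W]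
  {I : Subgroup D} {ρ : D →* (W ≃ₗ[L] W)}

theorem mem_fixW {x : W} : x ∈ fixW I ρ ↔ ∀ i ∈ I, ρ i x = x := Iff.rfl

theorem mem_modW {X : Submodule (OO p L) W} {x : W} :
    x ∈ modW I ρ X ↔ ∀ i ∈ I, ρ i x - x ∈ X := Iff.rfl

theorem mem_addW {X : Submodule (OO p L) W} {x : W} :
    x ∈ addW I ρ X ↔ ∃ y ∈ X, ∃ w ∈ fixW I ρ, y + w = x := by
  unfold addW
  rw [Submodule.mem_sup]
  rfl

theorem smul_coe (a : OO p L) (x : W) : a • x = (a : L) • x := rfl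

theorem rho_smul (d : D) (a : OO p L) (x : W) : ρ d (a • x) = a • ρ d x := by
  rw [smul_coe, smul_coe, map_smul]

theorem rho_mul (d d' : D) (x : W) : ρ (d * d') x = ρ d (ρ d' x) := by
  rw [map_mul]
  rfl

theorem rho_inv (d : D) (x : W) : ρ d⁻¹ (ρ d x) = x := by
  rw [← rho_mul, inv_mul_cancel, map_one]
  rfl

theorem rho_inv' (d : D) (x : W) : ρ d (ρ d⁻¹ x) = x := by
  rw [← rho_mul, mul_inv_cancel, map_one]
  rfl

theorem fixW_stab (hn : ∀ d, ∀ i ∈ I, d * i * d⁻¹ ∈ I) (d : D) {x : W} (hx : x ∈ fixW I ρ) :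
    ρ d x ∈ fixW I ρ := by
  intro i hi
  have h1 := hx (d⁻¹ * i * d⁻¹⁻¹) (hn d⁻¹ i hi)
  rw [inv_inv] at h1
  calc ρ i (ρ d x) = ρ d (ρ (d⁻¹ * i * d) x) := by
        rw [← rho_mul, ← rho_mul]
        congr 2
        group
    _ = ρ d x := by rw [h1]

theorem modW_stab (hn : ∀ d, ∀ i ∈ I, d * i * d⁻¹ ∈ I) {X : Submodule (OO p L) W}
    (hX : ∀ d, ∀ x ∈ X, ρ d x ∈ X) (d : D) {x : W} (hx : x ∈ modW I ρ X) :
    ρ d x ∈ modW I ρ X := by
  intro i hi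
  have h1 := hx (d⁻¹ * i * d⁻¹⁻¹) (hn d⁻¹ i hi)
  rw [inv_inv] at h1
  have h2 : ρ i (ρ d x) = ρ d (ρ (d⁻¹ * i * d) x) := by
    rw [← rho_mul, ← rho_mul]
    congr 2
    group
  rw [h2, ← map_sub]
  exact hX d _ h1

theorem addW_stab (hn : ∀ d, ∀ i ∈ I, d * i * d⁻¹ ∈ I) {X : Submodule (OO p L) W}
    (hX : ∀ d, ∀ x ∈ X, ρ d x ∈ X) (d : D) {x : W} (hx : x ∈ addW I ρ X) :
    ρ d x ∈ addW I ρ X := by
  obtain ⟨y, hy, w, hw, rfl⟩ := mem_addW.1 hx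
  rw [map_add]
  exact mem_addW.2 ⟨_, hX d y hy, _, fixW_stab hn d hw, rfl⟩

theorem addW_le (X : Submodule (OO p L) W) (hX : ∀ d, ∀ x ∈ X, ρ d x ∈ X) :
    addW I ρ X ≤ modW I ρ X := by
  intro x hx i hi
  obtain ⟨y, hy, w, hw, rfl⟩ := mem_addW.1 hx
  have h1 : ρ i (y + w) - (y + w) = ρ i y - y := by
    rw [map_add, hw i hi]
    abel
  rw [h1]
  exact X.sub_mem (hX i y hy) hy

/-- the vectors of `modW` which are fixed by `φ` modulo `addW` -/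
def frW (I : Subgroup D) (ρ : D →* (W ≃ₗ[L] W)) (φ : D) (X : Submodule (OO p L) W) :
    Submodule (OO p L) W where
  carrier := {y | y ∈ modW I ρ X ∧ ρ φ y - y ∈ addW I ρ X}
  add_mem' := by
    rintro x y ⟨hx, hx'⟩ ⟨hy, hy'⟩
    refine ⟨Submodule.add_mem _ hx hy, ?_⟩
    have h : ρ φ (x + y) - (x + y) = (ρ φ x - x) + (ρ φ y - y) := by
      rw [map_add]
      abel
    rw [h]
    exact Submodule.add_mem _ hx' hy'
  zero_mem' := by
    refine ⟨Submodule.zero_mem _, ?_⟩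
    rw [map_zero, sub_zero]
    exact Submodule.zero_mem _
  smul_mem' := by
    rintro b x ⟨hx, hx'⟩
    refine ⟨Submodule.smul_mem _ b hx, ?_⟩
    have h : ρ φ (b • x) - b • x = b • (ρ φ x - x) := by
      rw [rho_smul, smul_sub]
    rw [h]
    exact Submodule.smul_mem _ b hx'

theorem lt_one_iff (x : L) :
    ‖x‖ < 1 ↔ ‖(((pi0 p L : OO p L) : L))⁻¹ * x‖ ≤ 1 := by
  have h0 : 0 < ‖((pi0 p L : OO p L) : L)‖ := pi0_pos p L
  rw [norm_mul, norm_inv, inv_mul_le_iff₀ h0, mul_one]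
  exact ⟨fun h => pi0_max p L x h, fun h => h.trans_lt (pi0_lt p L)⟩

end RLTH

open RLTH in
/-- Module LTH. -/
theorem stLth (h1 : StCla) (h2 : StClb) (h3 : StClc) (h4 : StMuw) (h5 : StFit) : StLth := by
  intro p _ hp2 D _ I χ e σ s t a hD L _ _ _ W _ _ _ ρ γ hγ hno φ T N hT hN hNT hTN hdT hdN U₁ U₂
    hU₁ hU₂
  have hn := hD.normal
  obtain ⟨k, hk⟩ := h1 p D I χ e σ s t a hD L W ρ hno φ T N hT hN hNT
  obtain ⟨hT0, hTA⟩ := hk T (Or.inl rfl)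
  obtain ⟨hN0, hNA⟩ := hk N (Or.inr rfl)
  -- the multiplicities
  have hMu : ∀ X : Submodule (OO p L) W, LatD I e φ ρ X →
      (addW I ρ X).toAddSubgroup.relIndex (modW I ρ X).toAddSubgroup ≠ 0 →
      ∃ m, Mu (ρ φ : W →ₗ[L] W) (addW I ρ X) (modW I ρ X) m := by
    intro X hX hX0
    exact (h4 p L W (ρ φ : W →ₗ[L] W) (addW I ρ X) (modW I ρ X) (modW I ρ X)
      (addW_le X hX.stab) le_rfl hX0 (fun x hx => addW_stab hn hX.stab φ hx)
      (fun x hx => modW_stab hn hX.stab φ hx) (fun x hx => modW_stab hn hX.stab φ hx)).1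
  obtain ⟨mT, hmT⟩ := hMu T hT hT0
  obtain ⟨mN, hmN⟩ := hMu N hN hN0
  obtain ⟨kT, hkT, hkT'⟩ := h2 p hp2 D I χ e σ s t a hD L W ρ γ hγ φ T hT hdT hT0 (frW I ρ φ T)
    (fun y => Iff.rfl) mT hmT
  -- the form for `N`
  have hγ' : FrmD χ σ s a ρ ((((pi0 p L : OO p L) : L))⁻¹ • γ) := by
    refine ⟨fun d x y => ?_, fun x y => ?_⟩
    · rw [LinearMap.smul_apply, LinearMap.smul_apply, LinearMap.smul_apply, LinearMap.smul_apply,
        hγ.dual, smul_eq_mul, smul_eq_mul]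
      ring
    · rw [LinearMap.smul_apply, LinearMap.smul_apply, LinearMap.smul_apply, LinearMap.smul_apply,
        hγ.symm x y, smul_eq_mul, smul_eq_mul]
      ring
  have hdN' : ∀ y, y ∈ N ↔ ∀ x ∈ N, ‖((((pi0 p L : OO p L) : L))⁻¹ • γ) x y‖ ≤ 1 := by
    intro y
    rw [hdN y]
    refine forall₂_congr fun x _ => ?_
    rw [LinearMap.smul_apply, LinearMap.smul_apply, smul_eq_mul]
    exact lt_one_iff (γ x y)
  obtain ⟨kN, hkN, hkN'⟩ := h2 p hp2 D I χ e σ s t a hD L W ρ _ hγ' φ N hN hdN' hN0 (frW I ρ φ N)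
    (fun y => Iff.rfl) mN hmN
  -- the multiplicity for `T / π T`
  obtain ⟨hle, hm₀⟩ := h5 p L W (ρ φ) T hT.toLatW (fun x hx => hT.stab φ x hx)
    (fun x hx => by
      have h6 : (ρ φ).symm x = ρ φ⁻¹ x := by
        rw [LinearEquiv.symm_apply_eq, rho_inv']
      rw [h6]
      exact hT.stab φ⁻¹ x hx) (fixW I ρ) (fun x hx => fixW_stab hn φ hx) U₁ U₂ hU₁ hU₂
  have hc := h3 p D I χ e σ s t a hD L W ρ γ hγ φ T N hT hN hNT hTN hdT hdN hT0 hN0 mT mN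
    (Module.finrank L U₁ - Module.finrank L U₂) hmT hmN hm₀
  refine ⟨k + kT, k + kN, ?_, ?_, ?_⟩
  · rw [hTA (frW I ρ φ T) (fun y => Iff.rfl), hkT, pow_add]
  · rw [hNA (frW I ρ φ N) (fun y => Iff.rfl), hkN, pow_add]
  · omega

end BKT
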