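import Pool.Agent.Lib.MP_7c08ba_nt.T1.RLOB
import Pool.Agent.Lib.MP_7c08ba_nt.T1.RLTH
import Pool.Agent.Lib.MP_7c08ba_nt.T1.RCLA

set_option autoImplicit false

/-!
Explicit local terms, module LOZ, part C: the reduction to representations on which the kernel of
the tame character acts trivially.
-/

noncomputable section

namespace BKT

open BKMet

namespace RLOC

section Grp

variable {p : ℕ} [Fact p.Prime] {D : Type} [Group D] {I : Subgroup D} {χ : D →* ℤ_[p]ˣ}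
  {e : D → ℤ_[p]} {σ : D →* D} {s t : D} {a : ℤ_[p]ˣ}

theorem e_one (H : TamG p I χ e σ s t a) : e 1 = 0 := by
  have h := H.hom 1 I.one_mem 1 I.one_mem
  rw [mul_one] at h
  exact left_eq_add.1 h

theorem e_inv (H : TamG p I χ e σ s t a) {i : D} (hi : i ∈ I) : e i⁻¹ = - e i := by
  have h := H.hom i hi i⁻¹ (I.inv_mem hi)
  rw [mul_inv_cancel, e_one H] at h
  exact eq_neg_of_add_eq_zero_right h.symm

theorem e_pow (H : TamG p I χ e σ s t a) {i : D} (hi : i ∈ I) (m : ℕ) :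
    e (i ^ m) = (m : ℤ_[p]) * e i := by
  induction m with
  | zero => rw [pow_zero, e_one H, Nat.cast_zero, zero_mul]
  | succ m ih =>
    rw [pow_succ, H.hom _ (I.pow_mem hi m) i hi, ih]
    push_cast
    ring

/-- the kernel of the tame character -/
def PP (H : TamG p I χ e σ s t a) : Subgroup D where
  carrier := {d | d ∈ I ∧ e d = 0}
  mul_mem' := by
    rintro x y ⟨hx, hx'⟩ ⟨hy, hy'⟩
    exact ⟨I.mul_mem hx hy, by rw [H.hom x hx y hy, hx', hy', add_zero]⟩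
  one_mem' := ⟨I.one_mem, e_one H⟩
  inv_mem' := by
    rintro x ⟨hx, hx'⟩
    exact ⟨I.inv_mem hx, by rw [e_inv H hx, hx', neg_zero]⟩

theorem mem_PP (H : TamG p I χ e σ s t a) {d : D} : d ∈ PP H ↔ d ∈ I ∧ e d = 0 := Iff.rfl

theorem PP_normal (H : TamG p I χ e σ s t a) (d : D) {c : D} (hc : c ∈ PP H) :
    d * c * d⁻¹ ∈ PP H :=
  ⟨H.normal d c hc.1, by rw [H.conj d c hc.1, hc.2, mul_zero]⟩

theorem chi_one (H : TamG p I χ e σ s t a) {i : D} (hi : i ∈ I) : χ i = 1 := by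
  have h1 := H.conj i t H.tI
  rw [H.te, mul_one, H.hom _ (I.mul_mem hi H.tI) _ (I.inv_mem hi), H.hom i hi t H.tI,
    e_inv H hi, H.te] at h1
  apply Units.ext
  rw [Units.val_one, ← h1]
  ring

theorem sig_inj (H : TamG p I χ e σ s t a) : Function.Injective σ := by
  intro d d' h
  have h1 := H.sq d
  rw [h, H.sq d'] at h1
  exact (mul_left_cancel (mul_right_cancel h1)).symm

theorem sig_PP (H : TamG p I χ e σ s t a) {c : D} (hc : c ∈ PP H) : σ c ∈ PP H := by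
  refine ⟨H.sI c hc.1, ?_⟩
  have h1 := H.se c hc.1
  rw [hc.2, neg_zero] at h1
  exact (mul_eq_zero.1 h1).resolve_left a.ne_zero

/-- the conjugation of the kernel of the tame character -/
def tau (H : TamG p I χ e σ s t a) : ↥(PP H) ≃* ↥(PP H) :=
  MulEquiv.ofBijective
    ((σ.comp (PP H).subtype).codRestrict (PP H) fun c => sig_PP H c.2) (by
      constructor
      · intro c c' h
        exact Subtype.ext (sig_inj H (congrArg Subtype.val h))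
      · intro c
        have h1 : s⁻¹ * (c : D) * s ∈ PP H := by
          have := PP_normal H s⁻¹ c.2
          rwa [inv_inv] at this
        refine ⟨⟨σ (s⁻¹ * c * s), sig_PP H h1⟩, Subtype.ext ?_⟩
        change σ (σ (s⁻¹ * c * s)) = c
        rw [H.sq]
        group)

theorem tau_coe (H : TamG p I χ e σ s t a) (c : ↥(PP H)) : ((tau H c : ↥(PP H)) : D) = σ c := rfl

end Grp

section Lat

variable {p : ℕ} [Fact p.Prime] {L : Type} [NormedField L] [NormedAlgebra ℚ_[p] L]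
  [FiniteDimensional ℚ_[p] L] {W : Type} [AddCommGroup W] [Module L W]

theorem smul_coe (c : OO p L) (x : W) : c • x = (c : L) • x := rfl

theorem isUnit_nat {r : ℕ} (hr : ¬ p ∣ r) : IsUnit (r : OO p L) := by
  by_contra h
  have h1 : (r : OO p L) ∈ IsLocalRing.maximalIdeal (OO p L) :=
    (IsLocalRing.mem_maximalIdeal _).2 h
  rw [← IsLocalRing.residue_eq_zero_iff, map_natCast] at h1
  exact hr ((CharP.cast_eq_zero_iff _ p r).1 h1)

theorem p_smul (X : Submodule (OO p L) W) {x : W} (hx : x ∈ X) :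
    ∃ y ∈ X, (p : OO p L) • x = pi0 p L • y := by
  obtain ⟨b, hb⟩ := (pi0_dvd p L (p : OO p L)).2 ((OO.mem_max _).1 OO.p_mem_max)
  refine ⟨b • x, X.smul_mem b hx, ?_⟩
  rw [hb, mul_smul]

/-- unipotent elements -/
theorem nil (hp2 : p ≠ 2) (A : W →ₗ[L] W) (X : Submodule (OO p L) W) (hA : ∀ x ∈ X, A x ∈ X)
    (M : ℕ) (h : ∀ x ∈ X, ∃ y ∈ X, (A ^ (p ^ M)) x = x + pi0 p L • y) (k : ℕ) :
    ∀ m ≥ k * p ^ M, ∀ x ∈ X, ∃ y ∈ X, ((A - 1) ^ m) x = pi0 p L ^ k • y := by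
  have hst : ∀ (m : ℕ), ∀ x ∈ X, ((A - 1) ^ m) x ∈ X := by
    intro m
    induction m with
    | zero => intro x hx; exact hx
    | succ m ih =>
      intro x hx
      rw [pow_succ]
      exact ih _ (X.sub_mem (hA x hx) hx)
  have h1 : ∀ x ∈ X, ∃ y ∈ X, ((A - 1) ^ (p ^ M)) x = pi0 p L • y := by
    intro x hx
    let A' : Module.End (OO p L) W := A.restrictScalars (OO p L)
    let Y : Submodule (OO p L) W := X.map (LinearMap.lsmul (OO p L) W (pi0 p L))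
    have hpow : ∀ (m : ℕ) (z : W), (A' ^ m) z = (A ^ m) z := by
      intro m
      induction m with
      | zero => intro z; rfl
      | succ m ih =>
        intro z
        rw [pow_succ, pow_succ]
        exact ih _
    have hpow' : ∀ (m : ℕ) (z : W), ((A' - 1) ^ m) z = ((A - 1) ^ m) z := by
      intro m
      induction m with
      | zero => intro z; rfl
      | succ m ih =>
        intro z
        rw [pow_succ, pow_succ]
        exact ih _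
    have h2 : ((A' - 1) ^ (p ^ M)) x ∈ Y := by
      refine RLOB.frob p Fact.out hp2 A' Y X hA (fun y hy => ?_) M x hx ?_
      · obtain ⟨z, hz, hz'⟩ := p_smul X hy
        exact ⟨z, hz, hz'.symm⟩
      · obtain ⟨y, hy, hy'⟩ := h x hx
        refine ⟨y, hy, ?_⟩
        rw [hpow, hy', add_sub_cancel_left]
        rfl
    obtain ⟨y, hy, hy'⟩ := h2
    exact ⟨y, hy, by rw [← hpow', ← hy']; rfl⟩
  have h3 : ∀ k : ℕ, ∀ x ∈ X, ∃ y ∈ X, ((A - 1) ^ (k * p ^ M)) x = pi0 p L ^ k • y := by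
    intro k
    induction k with
    | zero =>
      intro x hx
      exact ⟨x, hx, by rw [zero_mul, pow_zero, pow_zero, one_smul]; rfl⟩
    | succ k ih =>
      intro x hx
      obtain ⟨y, hy, hy'⟩ := h1 x hx
      obtain ⟨z, hz, hz'⟩ := ih y hy
      refine ⟨z, hz, ?_⟩
      rw [add_mul, one_mul, pow_add, Module.End.mul_apply, hy', RFIT.map_smulR, hz', smul_smul,
        pow_succ', mul_comm]
  intro m hm x hx
  obtain ⟨y, hy, hy'⟩ := h3 k x hx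
  refine ⟨((A - 1) ^ (m - k * p ^ M)) y, hst _ y hy, ?_⟩
  rw [← RFIT.map_smulR, ← hy', ← Module.End.mul_apply, ← pow_add, Nat.sub_add_cancel hm]

end Lat

/-! ### The fixed space of the kernel of the tame character -/

section Core

variable {p : ℕ} [Fact p.Prime] {D : Type} [Group D] {I : Subgroup D} {χ : D →* ℤ_[p]ˣ}
  {e : D → ℤ_[p]} {σ : D →* D} {s t : D} {a : ℤ_[p]ˣ} {L : Type} [NormedField L]
  [NormedAlgebra ℚ_[p] L] [FiniteDimensional ℚ_[p] L] {W : Type} [AddCommGroup W] [Module L W]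
  {W₁ : Type} [AddCommGroup W₁] [Module L W₁]

/-- the preimage of a lattice -/
def cmp (ι : W₁ →ₗ[L] W) (X : Submodule (OO p L) W) : Submodule (OO p L) W₁ :=
  X.comap (ι.restrictScalars (OO p L))

theorem map_smulR' (ι : W₁ →ₗ[L] W) (c : OO p L) (x : W₁) : ι (c • x) = c • ι x := by
  rw [smul_coe, smul_coe, map_smul]

theorem mem_cmp {ι : W₁ →ₗ[L] W} {X : Submodule (OO p L) W} {x : W₁} :
    x ∈ cmp ι X ↔ ι x ∈ X := Iff.rfl

theorem exists_iff {ι : W₁ →ₗ[L] W} (hι : Function.Injective ι) (X : Submodule (OO p L) W)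
    (k : ℕ) (z : W₁) :
    (∃ y ∈ cmp ι X, z = pi0 p L ^ k • y) ↔ ∃ y ∈ X, ι z = pi0 p L ^ k • y := by
  constructor
  · rintro ⟨y, hy, rfl⟩
    exact ⟨ι y, hy, map_smulR' ι _ y⟩
  · rintro ⟨y, hy, hy'⟩
    have h1 : ι ((((pi0 p L : OO p L) : L) ^ k)⁻¹ • z) = y := by
      rw [map_smul, hy', smul_coe, Subring.coe_pow, smul_smul,
        inv_mul_cancel₀ (pow_ne_zero _ (pi0_ne p L)), one_smul]
    refine ⟨(((pi0 p L : OO p L) : L) ^ k)⁻¹ • z, ?_, ?_⟩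
    · rw [mem_cmp, h1]
      exact hy
    · rw [smul_coe, Subring.coe_pow, smul_smul, mul_inv_cancel₀ (pow_ne_zero _ (pi0_ne p L)),
        one_smul]

theorem latW_cmp {ι : W₁ →ₗ[L] W} (hι : Function.Injective ι) {X : Submodule (OO p L) W}
    (hX : LatW X) : LatW (cmp ι X) := by
  refine ⟨?_, fun x => ?_⟩
  · refine Submodule.fg_of_fg_map_injective (ι.restrictScalars (OO p L)) hι ?_
    refine RCLA.fg_of_le hX.fg ?_
    rintro _ ⟨x, hx, rfl⟩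
    exact hx
  · obtain ⟨m, hm⟩ := hX.span (ι x)
    refine ⟨m, ?_⟩
    rw [mem_cmp, map_smulR' ι]
    exact hm

/-- `(f - 1)^m x → 0` -/
def Zr (X : Submodule (OO p L) W) (f : W →ₗ[L] W) (x : W) : Prop :=
  ∀ k : ℕ, ∃ m₀ : ℕ, ∀ m ≥ m₀, ∃ y ∈ X, ((f - 1) ^ m) x = pi0 p L ^ k • y

theorem Zr.smul {X : Submodule (OO p L) W} {f : W →ₗ[L] W} {x : W} (h : Zr X f x) (c : OO p L) :
    Zr X f (c • x) := by
  intro k
  obtain ⟨m₀, hm₀⟩ := h k
  refine ⟨m₀, fun m hm => ?_⟩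
  obtain ⟨y, hy, hy'⟩ := hm₀ m hm
  exact ⟨c • y, X.smul_mem c hy, by rw [map_smulR', hy', smul_comm]⟩

theorem Zr.of_smul {X : Submodule (OO p L) W} {f : W →ₗ[L] W} {x : W} (r : ℕ)
    (h : Zr X f (pi0 p L ^ r • x)) : Zr X f x := by
  intro k
  obtain ⟨m₀, hm₀⟩ := h (k + r)
  refine ⟨m₀, fun m hm => ?_⟩
  obtain ⟨y, hy, hy'⟩ := hm₀ m hm
  refine ⟨y, hy, ?_⟩
  rw [map_smulR', pow_add, mul_comm, mul_smul] at hy'
  have h1 : pi0 p L ^ r • (((f - 1) ^ m) x - pi0 p L ^ k • y) = 0 := by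
    rw [smul_sub, hy', sub_self]
  exact sub_eq_zero.1 (RCLA.pow_smul_inj r h1)

theorem Zr.nil {X : Submodule (OO p L) W} (hs : ∀ x, ∃ m : ℕ, pi0 p L ^ m • x ∈ X) (hp2 : p ≠ 2)
    (A : W →ₗ[L] W) (hA : ∀ x ∈ X, A x ∈ X)
    (M : ℕ) (h : ∀ x ∈ X, ∃ y ∈ X, (A ^ (p ^ M)) x = x + pi0 p L • y) (x : W) : Zr X A x := by
  obtain ⟨r, hr⟩ := hs x
  refine Zr.of_smul r fun k => ⟨k * p ^ M, fun m hm => ?_⟩
  exact RLOC.nil hp2 A X hA M h k m hm _ hr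

theorem Zr.unip {X : Submodule (OO p L) W} (hX : LatW X) (A : W →ₗ[L] W)
    (hA : ∀ x ∈ X, A x ∈ X)
    (h : ∀ m : ℕ, ∃ r : ℕ, ¬ p ∣ r ∧ ∀ x ∈ X, ∃ y ∈ X, (A ^ r) x = x + pi0 p L ^ m • y) {x : W}
    (hx : Zr X A x) : A x = x := by
  have key : ∀ x ∈ X, Zr X A x → A x = x := by
    intro x hxX hx
    rw [← sub_eq_zero]
    refine RCLA.eq_zero hX.fg fun m => ?_
    obtain ⟨r, hr, hr'⟩ := h m
    obtain ⟨m₀, hm₀⟩ := hx m
    let A' : Module.End (OO p L) W := A.restrictScalars (OO p L)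
    let Y : Submodule (OO p L) W := X.map (LinearMap.lsmul (OO p L) W (pi0 p L ^ m))
    have hpow : ∀ (m : ℕ) (z : W), (A' ^ m) z = (A ^ m) z := by
      intro m
      induction m with
      | zero => intro z; rfl
      | succ m ih =>
        intro z
        rw [pow_succ, pow_succ]
        exact ih _
    have hpow' : ∀ (m : ℕ) (z : W), ((A' - 1) ^ m) z = ((A - 1) ^ m) z := by
      intro m
      induction m with
      | zero => intro z; rfl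
      | succ m ih =>
        intro z
        rw [pow_succ, pow_succ]
        exact ih _
    have h1 : A' x - x ∈ Y := by
      refine RLOB.unip A' Y ?_ r (isUnit_nat hr) x ?_ m₀ ?_
      · rintro _ ⟨y, hy, rfl⟩
        refine ⟨A y, hA y hy, ?_⟩
        change pi0 p L ^ m • A y = A (pi0 p L ^ m • y)
        rw [map_smulR']
      · obtain ⟨y, hy, hy'⟩ := hr' x hxX
        refine ⟨y, hy, ?_⟩
        rw [hpow, hy', add_sub_cancel_left]
        rfl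
      · obtain ⟨y, hy, hy'⟩ := hm₀ m₀ le_rfl
        exact ⟨y, hy, by rw [hpow', hy']; rfl⟩
    obtain ⟨y, hy, hy'⟩ := h1
    exact ⟨y, hy, hy'.symm⟩
  obtain ⟨m, hm⟩ := hX.span x
  have h1 := key _ hm (hx.smul _)
  rw [map_smulR'] at h1
  have h2 : pi0 p L ^ m • (A x - x) = 0 := by rw [smul_sub, h1, sub_self]
  exact sub_eq_zero.1 (RCLA.pow_smul_inj m h2)

theorem core₁ (hLth : StLth) (hPrj : StPrj) (hp2 : p ≠ 2) (H : TamG p I χ e σ s t a)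
    [FiniteDimensional L W] [FiniteDimensional L W₁] (ρ : D →* (W ≃ₗ[L] W))
    (γ : W →ₗ[L] W →ₗ[L] L) (hγ : FrmD χ σ s a ρ γ) (hinv : ∀ x, (∀ d, ρ d x = x) → x = 0)
    (φ : D) (T N : Submodule (OO p L) W) (hT : LatW T) (hNT : N ≤ T)
    (hTN : ∀ x ∈ T, pi0 p L • x ∈ N) (hsT : ∀ d, ∀ x ∈ T, ρ d x ∈ T)
    (hsN : ∀ d, ∀ x ∈ N, ρ d x ∈ N) (hdT : ∀ y, y ∈ T ↔ ∀ x ∈ T, ‖γ x y‖ ≤ 1)
    (hdN : ∀ y, y ∈ N ↔ ∀ x ∈ N, ‖γ x y‖ < 1)
    (hI : ∀ m : ℕ, ∃ M : ℕ, ∀ i ∈ I, (p : ℤ_[p]) ^ M ∣ e i → ∃ c ∈ I, e c = 0 ∧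
      ∀ x ∈ T, ∃ y ∈ T, ρ (c⁻¹ * i) x = x + pi0 p L ^ m • y)
    (hP : ∀ (m : ℕ), ∀ c ∈ I, e c = 0 → ∃ r : ℕ, ¬ p ∣ r ∧
      ∀ x ∈ T, ∃ y ∈ T, ρ (c ^ r) x = x + pi0 p L ^ m • y)
    (hF : ∀ (m : ℕ) (d : D), ∃ k : ℕ, ∃ i ∈ I,
      ∀ x ∈ T, ∃ y ∈ T, ρ ((φ ^ k * i)⁻¹ * d) x = x + pi0 p L ^ m • y)
    (ι : W₁ →ₗ[L] W) (hι : Function.Injective ι) (ρ₁ : D →* (W₁ ≃ₗ[L] W₁))
    (hρ₁ : ∀ d x, ι (ρ₁ d x) = ρ d (ι x)) (hr : ∀ x, x ∈ fixW (PP H) ρ ↔ ∃ y, ι y = x)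
    (U₁ U₂ : Submodule L W)
    (hU₁ : ∀ x, x ∈ U₁ ↔ (∀ h ∈ I, Zr T (ρ h : W →ₗ[L] W) x) ∧ Zr T (ρ φ : W →ₗ[L] W) x)
    (hU₂ : ∀ x, x ∈ U₂ ↔ (∀ h ∈ I, ρ h x = x) ∧ Zr T (ρ φ : W →ₗ[L] W) x) :
    ∃ k k' : ℕ, T.toAddSubgroup.relIndex (modW ⊤ ρ T).toAddSubgroup = Nat.card (kk p L) ^ k ∧
      N.toAddSubgroup.relIndex (modW ⊤ ρ N).toAddSubgroup = Nat.card (kk p L) ^ k' ∧
      (k + k') % 2 = (Module.finrank L U₁ - Module.finrank L U₂) % 2 := by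
  have hN : LatW N := by
    refine ⟨RCLA.fg_of_le hT.fg hNT, fun x => ?_⟩
    obtain ⟨m, hm⟩ := hT.span x
    refine ⟨m + 1, ?_⟩
    rw [pow_succ', mul_smul]
    exact hTN _ hm
  -- the projector
  obtain ⟨E, hE1, hE2, hE3, hE4, hE5⟩ := hPrj p L W ↥(PP H) (ρ.comp (PP H).subtype) T hT
    (fun c x hx => hsT c x hx) (fun m c => by
      obtain ⟨r, hr, hr'⟩ := hP m c c.2.1 c.2.2
      exact ⟨r, hr, hr'⟩)
  have hEfix : ∀ x, E x ∈ fixW (PP H) ρ := fun x c hc => hE1 ⟨c, hc⟩ x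
  have hfix : ∀ x ∈ fixW (PP H) ρ, E x = x := fun x hx => hE2 x fun c => hx c c.2
  have hED : ∀ d x, ρ d (E x) = E (ρ d x) := by
    intro d
    refine hE4 (ρ d) fun c => ⟨⟨d * c * d⁻¹, PP_normal H d c.2⟩, fun x => ?_⟩
    change ρ d (ρ (c : D) x) = ρ (d * c * d⁻¹) (ρ d x)
    rw [← RLTH.rho_mul, ← RLTH.rho_mul, inv_mul_cancel_right]
  have hEγ : ∀ x y, γ (E x) y = γ x (E y) := by
    refine hE5 γ (tau H) fun c x y => ?_
    change γ (ρ (c : D) x) (ρ (σ c) y) = γ x y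
    rw [hγ.dual, chi_one H c.2.1]
    have h1 : uL L (1 : ℤ_[p]ˣ) = 1 := by
      unfold uL
      rw [Units.val_one, PadicInt.coe_one, map_one]
    rw [h1, one_mul]
  have hfixι : ∀ y, E (ι y) = ι y := fun y => hfix _ ((hr _).2 ⟨y, rfl⟩)
  -- powers
  have hpw : ∀ (d : D) (m : ℕ) (x : W₁), ι ((((ρ₁ d : W₁ →ₗ[L] W₁) - 1) ^ m) x) =
      (((ρ d : W →ₗ[L] W) - 1) ^ m) (ι x) := by
    intro d m
    induction m with
    | zero => intro x; rfl
    | succ m ih =>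
      intro x
      rw [pow_succ, pow_succ]
      change ι ((((ρ₁ d : W₁ →ₗ[L] W₁) - 1) ^ m) (ρ₁ d x - x)) =
        (((ρ d : W →ₗ[L] W) - 1) ^ m) (ρ d (ι x) - ι x)
      rw [ih, map_sub, hρ₁]
  -- the form
  let γ₁ : W₁ →ₗ[L] W₁ →ₗ[L] L := γ.compl₁₂ ι ι
  have hγ₁ : FrmD χ σ s a ρ₁ γ₁ := by
    refine ⟨fun d x y => ?_, fun x y => ?_⟩
    · change γ (ι (ρ₁ d x)) (ι (ρ₁ (σ d) y)) = uL L (χ d) * γ (ι x) (ι y)
      rw [hρ₁, hρ₁, hγ.dual]
    · change γ (ι x) (ι y) = uL L a * γ (ι y) (ι (ρ₁ s x))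
      rw [hρ₁, ← hγ.symm]
  have hd : ∀ X : Submodule (OO p L) W, (∀ x ∈ X, E x ∈ X) → ∀ (P : ℝ → Prop),
      (∀ y, y ∈ X ↔ ∀ x ∈ X, P ‖γ x y‖) →
      ∀ y, y ∈ cmp ι X ↔ ∀ x ∈ cmp ι X, P ‖γ₁ x y‖ := by
    intro X hEX P hdX y
    constructor
    · intro hy x hx
      exact (hdX (ι y)).1 hy (ι x) hx
    · intro h
      refine (hdX (ι y)).2 fun x hx => ?_
      rw [← hfixι y, ← hEγ]
      obtain ⟨x', hx'⟩ := (hr _).1 (hEfix x)
      rw [← hx']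
      refine h x' ?_
      rw [mem_cmp, hx']
      exact hEX x hx
  have hET := hE3 T (fun c x hx => hsT c x hx)
  have hEN := hE3 N (fun c x hx => hsN c x hx)
  -- the lattices
  have hLat : ∀ X : Submodule (OO p L) W, LatW X → (∀ d, ∀ x ∈ X, ρ d x ∈ X) →
      (∀ m : ℕ, ∃ M : ℕ, ∀ i ∈ I, (p : ℤ_[p]) ^ M ∣ e i → ∃ c ∈ I, e c = 0 ∧
        ∀ x ∈ X, ∃ y ∈ X, ρ (c⁻¹ * i) x = x + pi0 p L ^ m • y) →
      (∀ (m : ℕ) (d : D), ∃ k : ℕ, ∃ i ∈ I,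
        ∀ x ∈ X, ∃ y ∈ X, ρ ((φ ^ k * i)⁻¹ * d) x = x + pi0 p L ^ m • y) →
      LatD I e φ ρ₁ (cmp ι X) := by
    intro X hX hsX hIX hFX
    refine ⟨latW_cmp hι hX, ?_, ?_, ?_⟩
    · intro d x hx
      rw [mem_cmp, hρ₁]
      exact hsX d _ hx
    · intro m
      obtain ⟨M, hM⟩ := hIX m
      refine ⟨M, fun i hi hei x hx => ?_⟩
      obtain ⟨c, hc, hc0, hcx⟩ := hM i hi hei
      obtain ⟨y, hy, hy'⟩ := hcx (ι x) hx
      have h1 : ρ i (ι x) = ι x + pi0 p L ^ m • ρ c y := by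
        have h2 : ρ i (ι x) = ρ c (ρ (c⁻¹ * i) (ι x)) := by
          rw [← RLTH.rho_mul, mul_inv_cancel_left]
        rw [h2, hy', map_add, RLTH.rho_smul, (hr (ι x)).2 ⟨x, rfl⟩ c ⟨hc, hc0⟩]
      obtain ⟨z, hz, hz'⟩ := (exists_iff hι X m (ρ₁ i x - x)).2 ⟨ρ c y, hsX c y hy, by
        rw [map_sub, hρ₁, h1, add_sub_cancel_left]⟩
      exact ⟨z, hz, by rw [← hz', add_sub_cancel]⟩
    · intro m d
      obtain ⟨k, i, hi, hki⟩ := hFX m d
      refine ⟨k, i, hi, fun x hx => ?_⟩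
      obtain ⟨y, hy, hy'⟩ := hki (ι x) hx
      have h1 : ρ d (ι x) = ρ (φ ^ k * i) (ι x) + pi0 p L ^ m • ρ (φ ^ k * i) y := by
        have h2 : ρ d (ι x) = ρ (φ ^ k * i) (ρ ((φ ^ k * i)⁻¹ * d) (ι x)) := by
          rw [← RLTH.rho_mul, mul_inv_cancel_left]
        rw [h2, hy', map_add, RLTH.rho_smul]
      obtain ⟨z, hz, hz'⟩ := (exists_iff hι X m (ρ₁ d x - ρ₁ (φ ^ k * i) x)).2
        ⟨ρ (φ ^ k * i) y, hsX _ y hy, by
          rw [map_sub, hρ₁, hρ₁, h1, add_sub_cancel_left]⟩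
      exact ⟨z, hz, by rw [← hz', add_sub_cancel]⟩
  have hLT := hLat T hT hsT hI hF
  have hNm : ∀ (m : ℕ) (g : W ≃ₗ[L] W), (∀ x ∈ T, ∃ y ∈ T, g x = x + pi0 p L ^ (m + 1) • y) →
      ∀ x ∈ N, ∃ y ∈ N, g x = x + pi0 p L ^ m • y := by
    intro m g hg x hx
    obtain ⟨y, hy, hy'⟩ := hg x (hNT hx)
    exact ⟨pi0 p L • y, hTN y hy, by rw [hy', pow_succ, mul_smul]⟩
  have hLN := hLat N hN hsN (fun m => by
      obtain ⟨M, hM⟩ := hI (m + 1)
      refine ⟨M, fun i hi hei => ?_⟩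
      obtain ⟨c, hc, hc0, hcx⟩ := hM i hi hei
      exact ⟨c, hc, hc0, hNm m _ hcx⟩) (fun m d => by
      obtain ⟨k, i, hi, hki⟩ := hF (m + 1) d
      exact ⟨k, i, hi, hNm m _ hki⟩)
  -- the eigenspaces
  have hZ : ∀ (d : D) (x : W₁), Zr (cmp ι T) (ρ₁ d : W₁ →ₗ[L] W₁) x ↔
      Zr T (ρ d : W →ₗ[L] W) (ι x) := by
    intro d x
    refine forall_congr' fun k => exists_congr fun m₀ => forall₂_congr fun m _ => ?_
    rw [exists_iff hι, hpw]
  have hnil : ∀ h ∈ I, ∀ x : W₁, Zr (cmp ι T) (ρ₁ h : W₁ →ₗ[L] W₁) x := by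
    intro h hh x
    obtain ⟨M, hM⟩ := hLT.actI 1
    refine Zr.nil hLT.span hp2 _ (fun x hx => hLT.stab h x hx) M (fun x hx => ?_) x
    have h1 : (((ρ₁ h : W₁ →ₗ[L] W₁)) ^ (p ^ M)) x = ρ₁ (h ^ (p ^ M)) x := by
      rw [map_pow]
      have h2 : ∀ (m : ℕ) (z : W₁), ((ρ₁ h : W₁ →ₗ[L] W₁) ^ m) z = ((ρ₁ h) ^ m) z := by
        intro m
        induction m with
        | zero => intro z; rfl
        | succ m ih =>
          intro z
          rw [pow_succ, pow_succ]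
          exact ih _
      exact h2 _ x
    rw [h1]
    obtain ⟨y, hy, hy'⟩ := hM (h ^ (p ^ M)) (I.pow_mem hh _) (by
      rw [e_pow H hh, Nat.cast_pow]
      exact dvd_mul_right _ _) x hx
    rw [pow_one] at hy'
    exact ⟨y, hy, hy'⟩
  have hG₁ : IsGen (cmp ι T) (ρ₁ φ : W₁ →ₗ[L] W₁) ⊤ (U₁.comap ι) := by
    intro x
    rw [Submodule.mem_comap, hU₁]
    constructor
    · rintro ⟨-, h⟩
      exact ⟨trivial, (hZ φ x).2 h⟩
    · rintro ⟨-, h⟩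
      exact ⟨fun h hh => (hZ h x).1 (hnil h hh x), (hZ φ x).1 h⟩
  have hG₂ : IsGen (cmp ι T) (ρ₁ φ : W₁ →ₗ[L] W₁) (fixW I ρ₁) (U₂.comap ι) := by
    intro x
    rw [Submodule.mem_comap, hU₂]
    constructor
    · rintro ⟨h1, h⟩
      exact ⟨fun i hi => hι (by rw [hρ₁]; exact h1 i hi), (hZ φ x).2 h⟩
    · rintro ⟨h1, h⟩
      exact ⟨fun i hi => by rw [← hρ₁, h1 i hi], (hZ φ x).1 h⟩
  have hfr : ∀ U : Submodule L W, (∀ x ∈ U, x ∈ fixW (PP H) ρ) →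
      Module.finrank L (U.comap ι) = Module.finrank L U := by
    intro U hU
    have h1 : (U.comap ι).map ι = U := by
      rw [Submodule.map_comap_eq, inf_eq_right]
      intro x hx
      obtain ⟨y, rfl⟩ := (hr x).1 (hU x hx)
      exact ⟨y, rfl⟩
    rw [LinearEquiv.finrank_eq (Submodule.equivMapOfInjective ι hι (U.comap ι)), h1]
  have hfr₁ : Module.finrank L (U₁.comap ι) = Module.finrank L U₁ := by
    refine hfr U₁ fun x hx c hc => ?_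
    refine Zr.unip hT (ρ c : W →ₗ[L] W) (fun x hx => hsT c x hx) (fun m => ?_)
      (((hU₁ x).1 hx).1 c hc.1)
    obtain ⟨r, hr, hr'⟩ := hP m c hc.1 hc.2
    refine ⟨r, hr, fun x hx => ?_⟩
    obtain ⟨y, hy, hy'⟩ := hr' x hx
    refine ⟨y, hy, ?_⟩
    rw [← hy', map_pow]
    have h2 : ∀ (m : ℕ) (z : W), ((ρ c : W →ₗ[L] W) ^ m) z = ((ρ c) ^ m) z := by
      intro m
      induction m with
      | zero => intro z; rfl
      | succ m ih =>
        intro z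
        rw [pow_succ, pow_succ]
        exact ih _
    exact h2 _ x
  have hfr₂ : Module.finrank L (U₂.comap ι) = Module.finrank L U₂ :=
    hfr U₂ fun x hx c hc => ((hU₂ x).1 hx).1 c hc.1
  obtain ⟨k, k', hk, hk', hkk⟩ := hLth p hp2 D I χ e σ s t a H L W₁ ρ₁ γ₁ hγ₁
    (fun x hx => hι (by
      rw [map_zero]
      exact hinv _ fun d => by rw [← hρ₁, hx d])) φ (cmp ι T) (cmp ι N) hLT hLN
    (fun x hx => hNT hx) (fun x hx => by
      rw [mem_cmp, map_smulR' ι]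
      exact hTN _ hx) (hd T hET.1 (fun r => r ≤ 1) hdT) (hd N hEN.1 (fun r => r < 1) hdN)
    (U₁.comap ι) (U₂.comap ι) hG₁ hG₂
  -- the indices
  have hidx : ∀ X : Submodule (OO p L) W, (∀ d, ∀ x ∈ X, ρ d x ∈ X) → (∀ x ∈ X, E x ∈ X) →
      (∀ x, (∀ c : ↥(PP H), ρ c x - x ∈ X) → x - E x ∈ X) →
      X.toAddSubgroup.relIndex (modW ⊤ ρ X).toAddSubgroup =
      (cmp ι X).toAddSubgroup.relIndex (modW ⊤ ρ₁ (cmp ι X)).toAddSubgroup := by
    intro X hsX hEX hEX'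
    have h1 : (modW ⊤ ρ X).toAddSubgroup = X.toAddSubgroup ⊔
        ((modW ⊤ ρ₁ (cmp ι X)).toAddSubgroup.map ι.toAddMonoidHom) := by
      apply le_antisymm
      · intro x hx
        obtain ⟨y, hy⟩ := (hr _).1 (hEfix x)
        rw [AddSubgroup.mem_sup]
        refine ⟨x - E x, hEX' x fun c => hx c trivial, E x, ⟨y, ?_, hy⟩, sub_add_cancel _ _⟩
        intro d _
        rw [mem_cmp, map_sub, hρ₁, hy, hED, ← map_sub]
        exact hEX _ (hx d trivial)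
      · rw [sup_le_iff]
        constructor
        · intro x hx d _
          exact X.sub_mem (hsX d x hx) hx
        · rintro _ ⟨y, hy, rfl⟩ d _
          have h2 := hy d trivial
          rw [mem_cmp, map_sub, hρ₁] at h2
          exact h2
    rw [h1, AddSubgroup.relIndex_sup_left, ← AddSubgroup.relIndex_comap]
    rfl
  refine ⟨k, k', ?_, ?_, ?_⟩
  · rw [hidx T hsT hET.1 hET.2, hk]
  · rw [hidx N hsN hEN.1 hEN.2, hk']
  · rw [hkk, hfr₁, hfr₂]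

end Core

end RLOC

end BKT
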