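import Pool.Agent.Lib.MP_7c08ba_nt.T1.StR
import Pool.Agent.Lib.MP_7c08ba_nt.T1.VPVF

set_option autoImplicit false

/-!
Explicit local terms, module PZF: the theorem.
-/

noncomputable section

namespace BKT

open NumberField BKGen BKMet
open Matrix Filter

namespace RPZF

section Lat

variable {p : ℕ} [Fact p.Prime] {F : Type} [Field F]

/-- the cyclotomic character is invariant under conjugation -/
theorem cyc_conj (c : AlgebraicClosure F ≃+* AlgebraicClosure F) (σ : F ≃+* F)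
    (h : ∀ a, c (algebraMap F (AlgebraicClosure F) a) = algebraMap F (AlgebraicClosure F) (σ a))
    (g : GF F) : cycF p F (BKOdd.conj c σ h g) = cycF p F g := by
  have h1 : MulSemiringAction.toRingAut (GF F) (AlgebraicClosure F) (BKOdd.conj c σ h g) =
      c * MulSemiringAction.toRingAut (GF F) (AlgebraicClosure F) g * c⁻¹ := by
    ext x
    rfl
  have h2 : cycF p F (BKOdd.conj c σ h g) = cyclotomicCharacter (AlgebraicClosure F) p
      (MulSemiringAction.toRingAut (GF F) (AlgebraicClosure F) (BKOdd.conj c σ h g)) := rfl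
  rw [h2, h1, map_mul, map_mul, map_inv, mul_comm (cyclotomicCharacter (AlgebraicClosure F) p c),
    mul_inv_cancel_right]
  rfl

variable {L L₁ L₂ : Type} [NormedField L] [NormedField L₁] [NormedField L₂]

theorem ext_ext (φ₁ : L →+* L₁) (φ₂ : L₁ →+* L₂) {n : ℕ} (V : BKS.Rep (BKS.GF F) L n) :
    BKS.ext φ₂ (BKS.ext φ₁ V) = BKS.ext (φ₂.comp φ₁) V := by
  apply MonoidHom.ext
  intro g
  apply Units.ext
  rfl

theorem ext_id {n : ℕ} (V : BKS.Rep (BKS.GF F) L n) : BKS.ext (RingHom.id L) V = V := by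
  apply MonoidHom.ext
  intro g
  apply Units.ext
  change ((V g : GL (Fin n) L) : Matrix (Fin n) (Fin n) L).map (RingHom.id L) = _
  exact Matrix.map_id _

end Lat

section Sum

variable {F : Type} [Field F] {L : Type} [NormedField L] {n n' : ℕ}

/-- the representation `V ⊕ V'` -/
def sumR (V : BKS.Rep (BKS.GF F) L n) (V' : BKS.Rep (BKS.GF F) L n') :
    GF F →* (((Fin n → L) × (Fin n' → L)) ≃ₗ[L] ((Fin n → L) × (Fin n' → L))) where
  toFun g := LinearEquiv.ofLinear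
    ((Matrix.toLin' (BKS.mat V g)).prodMap (Matrix.toLin' (BKS.mat V' g)))
    ((Matrix.toLin' (BKS.mat V g⁻¹)).prodMap (Matrix.toLin' (BKS.mat V' g⁻¹)))
    (by
      rw [LinearMap.prodMap_comp, ← Matrix.toLin'_mul, ← Matrix.toLin'_mul]
      have h1 : BKS.mat V g * BKS.mat V g⁻¹ = 1 := by
        change ((V g * V g⁻¹ : GL (Fin n) L) : Matrix (Fin n) (Fin n) L) = 1
        rw [← map_mul, mul_inv_cancel, map_one]
        rfl
      have h2 : BKS.mat V' g * BKS.mat V' g⁻¹ = 1 := by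
        change ((V' g * V' g⁻¹ : GL (Fin n') L) : Matrix (Fin n') (Fin n') L) = 1
        rw [← map_mul, mul_inv_cancel, map_one]
        rfl
      rw [h1, h2, Matrix.toLin'_one, Matrix.toLin'_one, LinearMap.prodMap_id])
    (by
      rw [LinearMap.prodMap_comp, ← Matrix.toLin'_mul, ← Matrix.toLin'_mul]
      have h1 : BKS.mat V g⁻¹ * BKS.mat V g = 1 := by
        change ((V g⁻¹ * V g : GL (Fin n) L) : Matrix (Fin n) (Fin n) L) = 1
        rw [← map_mul, inv_mul_cancel, map_one]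
        rfl
      have h2 : BKS.mat V' g⁻¹ * BKS.mat V' g = 1 := by
        change ((V' g⁻¹ * V' g : GL (Fin n') L) : Matrix (Fin n') (Fin n') L) = 1
        rw [← map_mul, inv_mul_cancel, map_one]
        rfl
      rw [h1, h2, Matrix.toLin'_one, Matrix.toLin'_one, LinearMap.prodMap_id])
  map_one' := by
    apply LinearEquiv.ext
    rintro ⟨x, y⟩
    change (BKS.mat V 1 *ᵥ x, BKS.mat V' 1 *ᵥ y) = (x, y)
    have h1 : BKS.mat V 1 = 1 := by
      change ((V 1 : GL (Fin n) L) : Matrix (Fin n) (Fin n) L) = 1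
      rw [map_one]
      rfl
    have h2 : BKS.mat V' 1 = 1 := by
      change ((V' 1 : GL (Fin n') L) : Matrix (Fin n') (Fin n') L) = 1
      rw [map_one]
      rfl
    rw [h1, h2, Matrix.one_mulVec, Matrix.one_mulVec]
  map_mul' g h := by
    apply LinearEquiv.ext
    rintro ⟨x, y⟩
    change (BKS.mat V (g * h) *ᵥ x, BKS.mat V' (g * h) *ᵥ y) =
      (BKS.mat V g *ᵥ (BKS.mat V h *ᵥ x), BKS.mat V' g *ᵥ (BKS.mat V' h *ᵥ y))
    have h1 : BKS.mat V (g * h) = BKS.mat V g * BKS.mat V h := by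
      change ((V (g * h) : GL (Fin n) L) : Matrix (Fin n) (Fin n) L) = _
      rw [map_mul]
      rfl
    have h2 : BKS.mat V' (g * h) = BKS.mat V' g * BKS.mat V' h := by
      change ((V' (g * h) : GL (Fin n') L) : Matrix (Fin n') (Fin n') L) = _
      rw [map_mul]
      rfl
    rw [h1, h2, Matrix.mulVec_mulVec, Matrix.mulVec_mulVec]

theorem sumR_apply (V : BKS.Rep (BKS.GF F) L n) (V' : BKS.Rep (BKS.GF F) L n') (g : GF F)
    (x : (Fin n → L) × (Fin n' → L)) : sumR V V' g x = BKS.vec2 V V' g x := rfl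

/-- the form on `V ⊕ V'` -/
def sumF (B : Matrix (Fin n) (Fin n) L) (B' : Matrix (Fin n') (Fin n') L) :
    ((Fin n → L) × (Fin n' → L)) →ₗ[L] ((Fin n → L) × (Fin n' → L)) →ₗ[L] L :=
  LinearMap.mk₂ L (fun x y => BKS.form B B' x y)
    (by
      intro x x' y
      unfold BKS.form
      rw [Prod.fst_add, Prod.snd_add, add_dotProduct, add_dotProduct]
      ring)
    (by
      intro a x y
      unfold BKS.form
      rw [Prod.smul_fst, Prod.smul_snd, smul_dotProduct, smul_dotProduct, smul_sub])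
    (by
      intro x y y'
      unfold BKS.form
      rw [Prod.fst_add, Prod.snd_add, Matrix.mulVec_add, Matrix.mulVec_add, dotProduct_add,
        dotProduct_add]
      ring)
    (by
      intro a x y
      unfold BKS.form
      rw [Prod.smul_fst, Prod.smul_snd, Matrix.mulVec_smul, Matrix.mulVec_smul, dotProduct_smul,
        dotProduct_smul, smul_sub])

theorem sumF_apply (B : Matrix (Fin n) (Fin n) L) (B' : Matrix (Fin n') (Fin n') L)
    (x y : (Fin n → L) × (Fin n' → L)) : sumF B B' x y = BKS.form B B' x y := rfl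

theorem pow_sumR (V : BKS.Rep (BKS.GF F) L n) (V' : BKS.Rep (BKS.GF F) L n') (g : GF F) (m : ℕ)
    (x : (Fin n → L) × (Fin n' → L)) :
    (((sumR V V' g : ((Fin n → L) × (Fin n' → L)) →ₗ[L] ((Fin n → L) × (Fin n' → L))) - 1) ^ m) x =
      ((BKS.mat V g - 1) ^ m *ᵥ x.1, (BKS.mat V' g - 1) ^ m *ᵥ x.2) := by
  induction m with
  | zero =>
    rw [pow_zero, pow_zero, pow_zero, Matrix.one_mulVec, Matrix.one_mulVec]
    rfl
  | succ m ih =>
    rw [pow_succ', Module.End.mul_apply, ih, pow_succ', pow_succ', ← Matrix.mulVec_mulVec,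
      ← Matrix.mulVec_mulVec, Matrix.sub_mulVec, Matrix.sub_mulVec, Matrix.one_mulVec,
      Matrix.one_mulVec]
    rfl

theorem tendsto_sumR (V : BKS.Rep (BKS.GF F) L n) (V' : BKS.Rep (BKS.GF F) L n') (g : GF F)
    (x : (Fin n → L) × (Fin n' → L)) :
    Tendsto (fun m : ℕ => (((sumR V V' g : ((Fin n → L) × (Fin n' → L)) →ₗ[L]
      ((Fin n → L) × (Fin n' → L))) - 1) ^ m) x) atTop (nhds 0) ↔ x.1 ∈ BKS.nilS V g ∧ x.2 ∈ BKS.nilS V' g := by
  have h1 : (fun m : ℕ => (((sumR V V' g : ((Fin n → L) × (Fin n' → L)) →ₗ[L]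
      ((Fin n → L) × (Fin n' → L))) - 1) ^ m) x) =
      fun m : ℕ => ((BKS.mat V g - 1) ^ m *ᵥ x.1, (BKS.mat V' g - 1) ^ m *ᵥ x.2) := by
    funext m
    exact pow_sumR V V' g m x
  rw [h1]
  have h2 : (0 : (Fin n → L) × (Fin n' → L)) = (0, 0) := rfl
  rw [h2, Prod.tendsto_iff]
  rfl

theorem fix_sumR (V : BKS.Rep (BKS.GF F) L n) (V' : BKS.Rep (BKS.GF F) L n') (g : GF F)
    (x : (Fin n → L) × (Fin n' → L)) :
    sumR V V' g x = x ↔ x.1 ∈ BKS.fixS V g ∧ x.2 ∈ BKS.fixS V' g :=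
  Prod.ext_iff

end Sum

end RPZF

open RPZF in
/-- Module PZF. -/
theorem stPzf (h1 : StPvf) (h2 : StCnh) (h3 : StLtx) (h6 : StBcc) (h7 : StLoz) (h8 : StDex) :
    StPzf := by
  intro p _ F _ _ hp hF hIm hs c hc L _ _ _ n n' V V' B B' hV hV' hB hB' hcrit
  obtain ⟨σ, hcs⟩ := BKS.exists_conjHyp hF hc
  have hPV := h1 p F hp hF hIm hs c hc
  -- the lattices
  have hlat : ∃ (L₂ : Type) (_ : NormedField L₂) (_ : NormedAlgebra ℚ_[p] L₂)
      (_ : FiniteDimensional ℚ_[p] L₂) (φ : L →ₐ[ℚ_[p]] L₂)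
      (T N : AddSubgroup ((Fin n → L₂) × (Fin n' → L₂))),
      BKS.IsMet (BKS.vec2 (BKS.ext (φ : L →+* L₂) V) (BKS.ext (φ : L →+* L₂) V'))
        (BKS.form (B.map φ) (B'.map φ)) T N := by
    rcases hcrit with hcg | ⟨L₁, _, _, _, φ₁, m, U, hU, hUV⟩ | ⟨hn', hno⟩
    · exact ((hPV L n V B hV hB).2.2 n' V' B' hV' hB').1 hcg
    · obtain ⟨a1, a2, -⟩ := h6 p F L L₁ φ₁ n V hV
      obtain ⟨b1, b2, -⟩ := h6 p F L L₁ φ₁ n' V' hV'
      have hB₁ := a2 c B hB
      have hB₁' := b2 c B' hB'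
      obtain ⟨A, ρ, hρ⟩ := h3 p L₁ (GF F) n (BKS.ext (φ₁ : L →+* L₁) V) a1.cont
      obtain ⟨A', ρ', hρ'⟩ := h3 p L₁ (GF F) n' (BKS.ext (φ₁ : L →+* L₁) V') b1.cont
      obtain ⟨L₂, i1, i2, i3, φ₂, T, N, hM⟩ := h2 p hp F L₁ n n' (BKS.ext (φ₁ : L →+* L₁) V)
        (BKS.ext (φ₁ : L →+* L₁) V') (VPVF.glB hB₁) A (VPVF.glB hB₁') A' ρ ρ' hρ hρ'
        (BKOdd.conj c σ hcs.h) (BKOdd.Conj.conj_conj hcs.h hcs.hc) (cycF p F)
        (fun g => cyc_conj c σ hcs.h g) hB₁.1 hB₁'.1 (VPVF.isDual hcs hB₁)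
        (VPVF.isDual hcs hB₁') m U hU (fun g i => hUV g (BKOdd.conj c σ hcs.h g) (fun z => by
          change c (g (c.symm (c z))) = c (g z)
          rw [RingEquiv.symm_apply_apply]) i)
      refine ⟨L₂, i1, i2, i3, φ₂.comp φ₁, T, N, ?_⟩
      rw [ext_ext, ext_ext] at hM
      exact hM
    · subst hn'
      obtain ⟨T, N, hM⟩ := (hPV L n V B hV hB).1 hno
      refine ⟨L, inferInstance, inferInstance, inferInstance, AlgHom.id ℚ_[p] L,
        T.comap (AddMonoidHom.fst (Fin n → L) (Fin 0 → L)),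
        N.comap (AddMonoidHom.fst (Fin n → L) (Fin 0 → L)), ?_⟩
      have e1 : ((AlgHom.id ℚ_[p] L : L →ₐ[ℚ_[p]] L) : L →+* L) = RingHom.id L := rfl
      rw [e1, ext_id, ext_id]
      have e2 : B.map (AlgHom.id ℚ_[p] L) = B := Matrix.map_id B
      have e3 : B'.map (AlgHom.id ℚ_[p] L) = B' := Matrix.map_id B'
      rw [e2, e3]
      have hf : ∀ x y : (Fin n → L) × (Fin 0 → L), BKS.form B B' x y = BKS.frm B x.1 y.1 := by
        intro x y
        unfold BKS.form BKS.frm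
        have e4 : x.2 ⬝ᵥ (B' *ᵥ y.2) = 0 := by
          unfold dotProduct
          exact Finset.sum_of_isEmpty _
        rw [e4, sub_zero]
      refine ⟨?_, ?_, ?_, ?_, ?_⟩
      · obtain ⟨C, hC⟩ := hM.bdd
        refine ⟨max C 0, fun x hx => ?_⟩
        rw [Prod.norm_def]
        refine max_le ((hC x.1 hx).trans (le_max_left _ _)) ?_
        have e5 : x.2 = 0 := Subsingleton.elim _ _
        rw [e5, norm_zero]
        exact le_max_right _ _
      · exact fun g x hx => hM.stab g x.1 hx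
      · exact fun g x hx => hM.stab' g x.1 hx
      · intro y
        change y.1 ∈ T ↔ _
        rw [hM.dual y.1]
        constructor
        · intro h x hx
          rw [hf]
          exact h x.1 hx
        · intro h x hx
          have h4 := h (x, 0) hx
          rwa [hf] at h4
      · intro y
        change y.1 ∈ N ↔ y.1 ∈ T ∧ _
        rw [hM.lagr y.1]
        refine and_congr_right fun _ => ?_
        constructor
        · intro h x hx
          rw [hf]
          exact h x.1 hx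
        · intro h x hx
          have h4 := h (x, 0) hx
          rwa [hf] at h4
  obtain ⟨L₂, _, _, _, φ, T, N, hM⟩ := hlat
  have hfor := ((hPV L n V B hV hB).2.2 n' V' B' hV' hB').2.1 L₂ φ T N hM
  obtain ⟨a1, a2, -⟩ := h6 p F L L₂ φ n V hV
  obtain ⟨b1, b2, -⟩ := h6 p F L L₂ φ n' V' hV'
  have hB₂ := a2 c B hB
  have hB₂' := b2 c B' hB'
  -- the local terms
  have hloc : ∀ (l : ℕ) [Fact l.Prime] (j : BKS.Emb l F) (g : GF F), l ≠ p → ¬ BKS.Split l F →
      BKS.IsFrb j g →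
      BKS.loc L₂ (BKS.vec2 (BKS.ext (φ : L →+* L₂) V) (BKS.ext (φ : L →+* L₂) V')) j T N % 2 =
        (BKS.ndel V j g + BKS.ndel V' j g) % 2 := by
    intro l _ j g hl hsp hg
    set V₂ := BKS.ext (φ : L →+* L₂) V with hV₂
    set V₂' := BKS.ext (φ : L →+* L₂) V' with hV₂'
    let K₁ : GF F → Submodule L₂ ((Fin n → L₂) × (Fin n' → L₂)) := fun h =>
      (BKS.nilS V₂ h).prod (BKS.nilS V₂' h)
    let K₂ : GF F → Submodule L₂ ((Fin n → L₂) × (Fin n' → L₂)) := fun h =>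
      (BKS.fixS V₂ h).prod (BKS.fixS V₂' h)
    let U₁ : Submodule L₂ ((Fin n → L₂) × (Fin n' → L₂)) := (⨅ h ∈ Ine j, K₁ h) ⊓ K₁ g
    let U₂ : Submodule L₂ ((Fin n → L₂) × (Fin n' → L₂)) := (⨅ h ∈ Ine j, K₂ h) ⊓ K₁ g
    have hU₁ : ∀ x, x ∈ U₁ ↔ (∀ h ∈ Ine j, x.1 ∈ BKS.nilS V₂ h ∧ x.2 ∈ BKS.nilS V₂' h) ∧
        x.1 ∈ BKS.nilS V₂ g ∧ x.2 ∈ BKS.nilS V₂' g := by
      intro x
      simp only [U₁, K₁, Submodule.mem_inf, Submodule.mem_iInf, Submodule.mem_prod]
    have hU₂ : ∀ x, x ∈ U₂ ↔ (∀ h ∈ Ine j, x.1 ∈ BKS.fixS V₂ h ∧ x.2 ∈ BKS.fixS V₂' h) ∧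
        x.1 ∈ BKS.nilS V₂ g ∧ x.2 ∈ BKS.nilS V₂' g := by
      intro x
      simp only [U₂, K₁, K₂, Submodule.mem_inf, Submodule.mem_iInf, Submodule.mem_prod]
    have h9 := h8 p F L L₂ φ n n' V V' hV.cont hV'.cont l j g U₁ U₂ hU₁ hU₂
    rw [← h9]
    refine h7 p hp F hF hIm c hc L₂ ((Fin n → L₂) × (Fin n' → L₂)) (sumR V₂ V₂') ?_
      (sumF (B.map φ) (B'.map φ)) ?_ ?_ T N hM l j hl hsp ?_ g hg U₁ U₂ ?_ ?_
    · intro x
      have hc1 : Continuous fun g : GF F => BKS.mat V₂ g *ᵥ x.1 :=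
        (Units.continuous_val.comp a1.cont).matrix_mulVec continuous_const
      have hc2 : Continuous fun g : GF F => BKS.mat V₂' g *ᵥ x.2 :=
        (Units.continuous_val.comp b1.cont).matrix_mulVec continuous_const
      exact hc1.prodMk hc2
    · intro x y
      rw [sumF_apply, sumF_apply]
      unfold BKS.form
      have e1 : x.1 ⬝ᵥ (B.map φ *ᵥ y.1) = y.1 ⬝ᵥ (B.map φ *ᵥ x.1) := by
        rw [Matrix.dotProduct_mulVec, ← Matrix.mulVec_transpose, hB₂.1, dotProduct_comm]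
      have e2 : x.2 ⬝ᵥ (B'.map φ *ᵥ y.2) = y.2 ⬝ᵥ (B'.map φ *ᵥ x.2) := by
        rw [Matrix.dotProduct_mulVec, ← Matrix.mulVec_transpose, hB₂'.1, dotProduct_comm]
      rw [e1, e2]
    · intro g g' hgg x y
      rw [sumF_apply, sumF_apply]
      change BKS.vec V₂ g x.1 ⬝ᵥ (B.map φ *ᵥ BKS.vec V₂ g' y.1) -
        BKS.vec V₂' g x.2 ⬝ᵥ (B'.map φ *ᵥ BKS.vec V₂' g' y.2) = _
      rw [hB₂.2.2 g g' hgg, hB₂'.2.2 g g' hgg, ← mul_sub]
      rfl
    · intro x hx
      have e1 : x.1 = 0 := a1.inv l hl j x.1 fun g t hgt => congrArg Prod.fst (hx g t hgt)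
      have e2 : x.2 = 0 := b1.inv l hl j x.2 fun g t hgt => congrArg Prod.snd (hx g t hgt)
      exact Prod.ext e1 e2
    · intro x
      rw [hU₁ x]
      refine and_congr (forall₂_congr fun h _ => (tendsto_sumR V₂ V₂' h x).symm)
        (tendsto_sumR V₂ V₂' g x).symm
    · intro x
      rw [hU₂ x]
      refine and_congr (forall₂_congr fun h _ => (fix_sumR V₂ V₂' h x).symm)
        (tendsto_sumR V₂ V₂' g x).symm
  -- finite dimensionality: a covering family
  obtain ⟨P, hP⟩ := hV.ram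
  obtain ⟨P', hP'⟩ := hV'.ram
  classical
  have hfin : BKS.IsFin (BKS.H1f p V) ∧ BKS.IsFin (BKS.H1f p V') := by
    let κ : Type := {m : ℕ // m ∈ (P ∪ P').filter fun m => ∃ _ : Fact m.Prime, ¬ BKS.Split m F}
    let l : κ → ℕ := fun k => k.1
    have hk : ∀ k : κ, ∃ _ : Fact (l k).Prime, ¬ BKS.Split (l k) F := fun k =>
      (Finset.mem_filter.1 k.2).2
    have hfact : ∀ k, Fact (l k).Prime := fun k => (hk k).1
    have hft : Fintype κ := Finset.Subtype.fintype _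
    have hj : ∀ k, Nonempty (BKS.Emb (l k) F) := fun k => by
      have h4 : Algebra.IsAlgebraic ℚ (AlgebraicClosure F) := Algebra.IsAlgebraic.trans ℚ F _
      exact ⟨(IsAlgClosed.lift (S := AlgebraicClosure F) (M := PadicAlgCl (l k))
        (R := ℚ)).toRingHom⟩
    let j : ∀ k, BKS.Emb (l k) F := fun k => (hj k).some
    have hcov : ∀ (m : ℕ) [Fact m.Prime], m ≠ p → ¬ BKS.Split m F →
        (BKS.PrimeTo p m V ∧ BKS.PrimeTo p m V') ∨ ∃ k : κ, l k = m := by
      intro m hm hmp hms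
      by_cases hb : m ∈ P ∪ P'
      · exact Or.inr ⟨⟨m, Finset.mem_filter.2 ⟨hb, hm, hms⟩⟩, rfl⟩
      · rw [Finset.mem_union, not_or] at hb
        exact Or.inl ⟨hP m hmp hb.1, hP' m hmp hb.2⟩
    have hC : BKS.Covers p V l := ⟨Subtype.val_injective, fun k => (hk k).2,
      fun m hm hmp hms => (hcov m hmp hms).imp_left fun h => h.1⟩
    have hC' : BKS.Covers p V' l := ⟨Subtype.val_injective, fun k => (hk k).2,
      fun m hm hmp hms => (hcov m hmp hms).imp_left fun h => h.2⟩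
    obtain ⟨f1, f2, -⟩ := hfor κ l j hC hC'
    exact ⟨f1, f2⟩
  refine ⟨hfin.1, hfin.2, fun κ _ l _ j g hC hC' hg v => ?_⟩
  obtain ⟨-, -, h9⟩ := hfor κ l j hC hC'
  have h10 := h9 v
  have hne : ∀ k, l k ≠ p := by
    intro k hk
    exact hC.split k (hk ▸ hs)
  have h11 : (∑ k, BKS.loc L₂ (BKS.vec2 (BKS.ext (φ : L →+* L₂) V)
      (BKS.ext (φ : L →+* L₂) V')) (j k) T N) % 2 =
      (∑ k, BKS.ndel V (j k) (g k) + ∑ k, BKS.ndel V' (j k) (g k)) % 2 := by
    rw [← Finset.sum_add_distrib, Finset.sum_nat_mod,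
      Finset.sum_congr rfl fun k _ => hloc (l k) (j k) (g k) (hne k) (hC.split k) (hg k),
      ← Finset.sum_nat_mod]
  omega

end BKT
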