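import Pool.Agent.Lib.MP_7c08ba_nt.T1.RLOA
import Pool.Agent.Lib.MP_7c08ba_nt.T1.RLOC
import Pool.Agent.Lib.MP_7c08ba_nt.T1.RPZF

set_option autoImplicit false
set_option linter.unusedSectionVars false

/-!
Explicit local terms, module LOZ: **the local theorem**.
-/

noncomputable section

namespace BKT

open NumberField BKGen BKMet
open BKGlob2 (CC0)

namespace RLOZ

section Fix

variable {p : ℕ} [Fact p.Prime] {D : Type} [Group D] {L : Type} [NormedField L]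
  [NormedAlgebra ℚ_[p] L] [FiniteDimensional ℚ_[p] L] {W : Type} [AddCommGroup W] [Module L W]

/-- the action on a stable subspace -/
def rest (ρ : D →* (W ≃ₗ[L] W)) (U : Submodule L W) (h : ∀ d, ∀ x ∈ U, ρ d x ∈ U) :
    D →* (↥U ≃ₗ[L] ↥U) where
  toFun d :=
    { toFun := fun x => ⟨ρ d x, h d x x.2⟩
      map_add' := fun x y => Subtype.ext (map_add (ρ d) (x : W) y)
      map_smul' := fun b x => Subtype.ext (map_smul (ρ d) b (x : W))
      invFun := fun x => ⟨ρ d⁻¹ x, h d⁻¹ x x.2⟩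
      left_inv := fun x => Subtype.ext (RLTH.rho_inv d (x : W))
      right_inv := fun x => Subtype.ext (RLTH.rho_inv' d (x : W)) }
  map_one' := by
    ext x
    change ρ 1 (x : W) = x
    rw [map_one]
    rfl
  map_mul' d d' := by
    ext x
    exact RLTH.rho_mul d d' (x : W)

theorem rest_coe (ρ : D →* (W ≃ₗ[L] W)) (U : Submodule L W) (h : ∀ d, ∀ x ∈ U, ρ d x ∈ U) (d : D)
    (x : ↥U) : ((rest ρ U h d x : ↥U) : W) = ρ d x := rfl

end Fix

section Main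

variable {p : ℕ} [Fact p.Prime] {F : Type} [Field F] {L : Type} [NormedField L]
  [NormedAlgebra ℚ_[p] L] [FiniteDimensional ℚ_[p] L] {W : Type} [NormedAddCommGroup W]
  [NormedSpace L W] [FiniteDimensional L W]

/-- a module over the ring of integers -/
def toS (T : AddSubgroup W) (h : ∀ a : OO p L, ∀ x ∈ T, (a : L) • x ∈ T) :
    Submodule (OO p L) W where
  carrier := T
  add_mem' := T.add_mem
  zero_mem' := T.zero_mem
  smul_mem' := h

theorem mem_toS {T : AddSubgroup W} {h : ∀ a : OO p L, ∀ x ∈ T, (a : L) • x ∈ T} {x : W} :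
    x ∈ toS T h ↔ x ∈ T := Iff.rfl

theorem smul_T {a : GF F → W → W} {γ : W →ₗ[L] W →ₗ[L] L} {T N : AddSubgroup W}
    (hM : BKS.IsMet a (fun x y => γ x y) T N) (b : OO p L) : ∀ x ∈ T, (b : L) • x ∈ T := by
  intro x hx
  refine (hM.dual _).2 fun y hy => ?_
  change ‖γ y ((b : L) • x)‖ ≤ 1
  rw [map_smul, smul_eq_mul, norm_mul]
  exact mul_le_one₀ (OO.norm_le b) (norm_nonneg _) ((hM.dual x).1 hx y hy)

theorem smul_N {a : GF F → W → W} {γ : W →ₗ[L] W →ₗ[L] L} {T N : AddSubgroup W}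
    (hM : BKS.IsMet a (fun x y => γ x y) T N) (b : OO p L) : ∀ x ∈ N, (b : L) • x ∈ N := by
  intro x hx
  obtain ⟨h1, h2⟩ := (hM.lagr x).1 hx
  refine (hM.lagr _).2 ⟨smul_T hM b x h1, fun y hy => ?_⟩
  change ‖γ y ((b : L) • x)‖ < 1
  rw [map_smul, smul_eq_mul, norm_mul]
  exact mul_lt_one_of_nonneg_of_lt_one_right (OO.norm_le b) (norm_nonneg _) (h2 y hy)

theorem pi_mem {a : GF F → W → W} {γ : W →ₗ[L] W →ₗ[L] L} {T N : AddSubgroup W}
    (hM : BKS.IsMet a (fun x y => γ x y) T N) : ∀ x ∈ T, pi0 p L • x ∈ N := by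
  intro x hx
  refine (hM.lagr _).2 ⟨smul_T hM _ x hx, fun y hy => ?_⟩
  change ‖γ y (((pi0 p L : OO p L) : L) • x)‖ < 1
  rw [map_smul, smul_eq_mul, norm_mul]
  exact mul_lt_one_of_nonneg_of_lt_one_left (norm_nonneg _) (pi0_lt p L)
    ((hM.dual x).1 hx y ((hM.lagr y).1 hy).1)

theorem dualN {a : GF F → W → W} {γ : W →ₗ[L] W →ₗ[L] L} {T N : AddSubgroup W}
    (hM : BKS.IsMet a (fun x y => γ x y) T N) (p : ℕ) [Fact p.Prime] [NormedAlgebra ℚ_[p] L]
    [FiniteDimensional ℚ_[p] L] (y : W) : y ∈ N ↔ ∀ x ∈ N, ‖γ x y‖ < 1 := by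
  constructor
  · intro hy
    exact ((hM.lagr y).1 hy).2
  · intro h
    refine (hM.lagr y).2 ⟨(hM.dual y).2 fun x hx => ?_, h⟩
    have h1 := h _ (pi_mem (p := p) hM x hx)
    change ‖γ (((pi0 p L : OO p L) : L) • x) y‖ < 1 at h1
    rw [map_smul, LinearMap.smul_apply, smul_eq_mul] at h1
    have h2 := pi0_max p L _ h1
    rw [norm_mul] at h2
    exact (mul_le_iff_le_one_right (pi0_pos p L)).1 h2

/-- the form is continuous -/
theorem bound (γ : W →ₗ[L] W →ₗ[L] L) (p : ℕ) [Fact p.Prime] [NormedAlgebra ℚ_[p] L]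
    [FiniteDimensional ℚ_[p] L] : ∃ C : ℝ, ∀ x y, ‖γ x y‖ ≤ C * ‖x‖ * ‖y‖ := by
  classical
  let b := Module.finBasis L W
  choose B hB0 hB using fun i => RLOB.cont_lin p (b.coord i)
  choose G hG0 hG using fun i => RLOB.cont_lin p (γ (b i))
  refine ⟨∑ i, B i * G i, fun x y => ?_⟩
  have h1 : γ x y = ∑ i, b.repr x i * γ (b i) y := by
    conv_lhs => rw [← b.sum_repr x]
    rw [map_sum, LinearMap.sum_apply]
    exact Finset.sum_congr rfl fun i _ => by rw [map_smul, LinearMap.smul_apply, smul_eq_mul]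
  rw [h1, Finset.sum_mul, Finset.sum_mul]
  refine (norm_sum_le _ _).trans (Finset.sum_le_sum fun i _ => ?_)
  rw [norm_mul]
  have h2 : ‖b.repr x i‖ ≤ B i * ‖x‖ := hB i x
  have h3 := hG i y
  calc ‖b.repr x i‖ * ‖γ (b i) y‖ ≤ (B i * ‖x‖) * (G i * ‖y‖) :=
        mul_le_mul h2 h3 (norm_nonneg _) (mul_nonneg (hB0 i).le (norm_nonneg _))
    _ = _ := by ring

theorem span_T {a : GF F → W → W} {γ : W →ₗ[L] W →ₗ[L] L} {T N : AddSubgroup W}
    (hM : BKS.IsMet a (fun x y => γ x y) T N) (p : ℕ) [Fact p.Prime] [NormedAlgebra ℚ_[p] L]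
    [FiniteDimensional ℚ_[p] L] (x : W) : ∃ m : ℕ, pi0 p L ^ m • x ∈ T := by
  obtain ⟨C, hC⟩ := bound γ p
  obtain ⟨B, hB⟩ := hM.bdd
  obtain ⟨m, hm⟩ := RLOB.exists_pow p L (|C| * B * ‖x‖) 1 one_pos
  refine ⟨m, (hM.dual _).2 fun y hy => ?_⟩
  change ‖γ y (((pi0 p L ^ m : OO p L) : L) • x)‖ ≤ 1
  rw [map_smul, smul_eq_mul, norm_mul, Subring.coe_pow, norm_pow]
  refine le_trans (mul_le_mul_of_nonneg_left ?_ (pow_nonneg (norm_nonneg _) _)) (hm m le_rfl).le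
  refine (hC y x).trans ?_
  refine mul_le_mul_of_nonneg_right ?_ (norm_nonneg _)
  exact (mul_le_mul_of_nonneg_right (le_abs_self C) (norm_nonneg _)).trans
    (mul_le_mul_of_nonneg_left (hB y hy) (abs_nonneg _))

/-- the elements which act trivially modulo `π^m T` -/
def UU (ρ : GF F →* (W ≃ₗ[L] W)) (T : Submodule (OO p L) W) (hs : ∀ g, ∀ x ∈ T, ρ g x ∈ T)
    (m : ℕ) : Subgroup (GF F) where
  carrier := {g | ∀ x ∈ T, ∃ y ∈ T, ρ g x = x + pi0 p L ^ m • y}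
  mul_mem' := by
    intro g g' hg hg' x hx
    obtain ⟨y, hy, hy'⟩ := hg' x hx
    obtain ⟨z, hz, hz'⟩ := hg x hx
    refine ⟨z + ρ g y, T.add_mem hz (hs g y hy), ?_⟩
    rw [RLTH.rho_mul, hy', map_add, hz', RLTH.rho_smul, smul_add, add_assoc]
  one_mem' := by
    intro x _
    exact ⟨0, T.zero_mem, by rw [map_one, smul_zero, add_zero]; rfl⟩
  inv_mem' := by
    intro g hg x hx
    obtain ⟨y, hy, hy'⟩ := hg (ρ g⁻¹ x) (hs g⁻¹ x hx)
    rw [RLTH.rho_inv'] at hy'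
    refine ⟨-y, T.neg_mem hy, ?_⟩
    rw [smul_neg, ← sub_eq_add_neg]
    exact eq_sub_of_add_eq hy'.symm

theorem mem_UU {ρ : GF F →* (W ≃ₗ[L] W)} {T : Submodule (OO p L) W}
    {hs : ∀ g, ∀ x ∈ T, ρ g x ∈ T} {m : ℕ} {g : GF F} :
    g ∈ UU ρ T hs m ↔ ∀ x ∈ T, ∃ y ∈ T, ρ g x = x + pi0 p L ^ m • y := Iff.rfl

theorem UU_normal (ρ : GF F →* (W ≃ₗ[L] W)) (T : Submodule (OO p L) W)
    (hs : ∀ g, ∀ x ∈ T, ρ g x ∈ T) (m : ℕ) : (UU ρ T hs m).Normal := by
  refine ⟨fun g hg h x hx => ?_⟩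
  obtain ⟨y, hy, hy'⟩ := hg (ρ h⁻¹ x) (hs h⁻¹ x hx)
  refine ⟨ρ h y, hs h y hy, ?_⟩
  rw [RLTH.rho_mul, RLTH.rho_mul, hy', map_add, RLTH.rho_inv', RLTH.rho_smul]

theorem UU_open (ρ : GF F →* (W ≃ₗ[L] W)) (hρ : ∀ x, Continuous fun g => ρ g x)
    (T : Submodule (OO p L) W) (hT : LatW T)
    (hs : ∀ g, ∀ x ∈ T, ρ g x ∈ T) (m : ℕ) : IsOpen (UU ρ T hs m : Set (GF F)) := by
  obtain ⟨ε, hε, hX⟩ := RLOB.exists_ball T hT.span
  obtain ⟨S, hS⟩ := hT.fg
  have h0 := pi0_pos p L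
  -- a neighborhood of one
  have h1 : ∀ x ∈ S, ∀ᶠ g in nhds (1 : GF F), ∃ y ∈ T, ρ g x = x + pi0 p L ^ m • y := by
    intro x _
    have h2 : ∀ᶠ g in nhds (1 : GF F),
        ‖ρ g x - x‖ < ‖((pi0 p L : OO p L) : L)‖ ^ m * ε := by
      have h3 : Continuous fun g => ‖ρ g x - x‖ := ((hρ x).sub continuous_const).norm
      refine h3.continuousAt.eventually (gt_mem_nhds ?_)
      change ‖ρ (1 : GF F) x - x‖ < ‖((pi0 p L : OO p L) : L)‖ ^ m * ε
      have h4 : ρ (1 : GF F) x = x := by rw [map_one]; rfl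
      rw [h4, sub_self, norm_zero]
      positivity
    refine h2.mono fun g hg => ⟨(((pi0 p L : OO p L) : L) ^ m)⁻¹ • (ρ g x - x), hX _ ?_, ?_⟩
    · rw [norm_smul, norm_inv, norm_pow, inv_mul_lt_iff₀ (by positivity)]
      exact hg
    · rw [RLOB.smul_coe, Subring.coe_pow, smul_smul, mul_inv_cancel₀
        (pow_ne_zero _ (pi0_ne p L)), one_smul, add_sub_cancel]
  have h2 : ∀ᶠ g in nhds (1 : GF F), ∀ x ∈ S, ∃ y ∈ T, ρ g x = x + pi0 p L ^ m • y :=
    (Filter.eventually_all_finset S).2 h1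
  have h3 : ((UU ρ T hs m : Subgroup (GF F)) : Set (GF F)) ∈ nhds (1 : GF F) := by
    refine Filter.mem_of_superset h2 fun g hg x hx => ?_
    have hg' : ∀ x ∈ S, ∃ y ∈ T, ρ g x = x + pi0 p L ^ m • y := hg
    rw [← hS] at hx
    induction hx using Submodule.span_induction with
    | mem x hx => exact hg' x hx
    | zero => exact ⟨0, T.zero_mem, by rw [map_zero, smul_zero, add_zero]⟩
    | add x y _ _ hx hy =>
      obtain ⟨u, hu, hu'⟩ := hx
      obtain ⟨v, hv, hv'⟩ := hy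
      refine ⟨u + v, T.add_mem hu hv, ?_⟩
      rw [map_add, hu', hv', smul_add]
      abel
    | smul b x _ hx =>
      obtain ⟨u, hu, hu'⟩ := hx
      refine ⟨b • u, T.smul_mem b hu, ?_⟩
      rw [RLTH.rho_smul, hu', smul_add, smul_comm]
  exact Subgroup.isOpen_of_mem_nhds _ h3

end Main

end RLOZ

open RLOZ RLOA in
/-- **Module LOZ.** -/
theorem stLoz (hLth : StLth) (hPrj : StPrj) (hTam : StTam) (hFrd : StFrd) (hAbd : StAbd)
    (hCvh : StCvh) (hLen : StLen) : StLoz := by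
  intro p _ hp2 F _ _ hF hIm c hc L _ _ _ W _ _ _ ρ hρ γ hsym hdual T N hM l _ j hlp hns hinv φ hφ
    U₁ U₂ hU₁ hU₂
  obtain ⟨τ, hcs⟩ := BKS.exists_conjHyp hF hc
  let cc := BKOdd.conj c τ hcs.h
  have hccz : ∀ (g : GF F) z, cc g (c z) = c (g z) := by
    intro g z
    change c (g (c.symm (c z))) = c (g z)
    rw [RingEquiv.symm_apply_apply]
  have hcc : CC0 c cc := ⟨hc, hccz⟩
  have hccc : ∀ d, cycF p F (cc d) = cycF p F d := fun d => RPZF.cyc_conj c τ hcs.h d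
  obtain ⟨g, h, s, hg, hh, hs, hsD, hconj, hcch, hcyc⟩ := hCvh p hp2 F hF hIm c cc hcc l hns j
  have HC : Cv p j cc g h s := ⟨hg, hs, hsD, hconj, hcyc, hccc⟩
  obtain ⟨e, he⟩ := hTam p l hlp F j
  obtain ⟨t, ht, het⟩ := he.one
  have HT := tamG HC he (fun g' hg' d hd d' hd' => hAbd l F j g' hg' d hd d' hd') ht het
  obtain ⟨hφD, hFr⟩ := hFrd l F j φ hφ
  -- the lattices
  let T' : Submodule (OO p L) W := toS T (smul_T hM)
  let N' : Submodule (OO p L) W := toS N (smul_N hM)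
  have hT' : LatW T' := RLOB.latW T' hM.bdd (span_T hM p)
  let ρD : DG j →* (W ≃ₗ[L] W) := ρ.comp (Dec F (AlgebraicClosure F) j).subtype
  let γ' : W →ₗ[L] W →ₗ[L] L := γ.compl₂ (ρ h : W →ₗ[L] W)
  have hdual' : ∀ (g : GF F) x y, γ (ρ g x) (ρ (cc g) y) = uL L (cycF p F g) * γ x y :=
    fun g x y => hdual g (cc g) (hccz g) x y
  have hγ' : FrmD (chD p j) (RLOA.sg HC) ⟨s, HC.mem⟩ (cycF p F h) ρD γ' := by
    refine ⟨fun d x y => ?_, fun x y => ?_⟩
    · change γ (ρ (d : GF F) x) (ρ h (ρ (h⁻¹ * cc d * h) y)) = uL L (cycF p F d) * γ x (ρ h y)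
      rw [← RLTH.rho_mul, ← mul_assoc, mul_inv_cancel_left, RLTH.rho_mul, hdual']
    · change γ x (ρ h y) = uL L (cycF p F h) * γ y (ρ h (ρ s x))
      have h1 : h * s = (cc h)⁻¹ := by
        rw [eq_inv_iff_mul_eq_one]
        have h2 : s = (cc h * h)⁻¹ := by rw [hcch, inv_inv]
        rw [h2]
        group
      rw [← RLTH.rho_mul, h1, ← hdual', RLTH.rho_inv', hsym]
  have hstab : ∀ g : GF F, ∀ x ∈ T', ρ g x ∈ T' := fun g x hx => hM.stab g x hx
  have hopen : ∀ m, IsOpen (UU ρ T' hstab m : Set (GF F)) := fun m =>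
    UU_open ρ hρ T' hT' hstab m
  have hnorm : ∀ m, (UU ρ T' hstab m).Normal := fun m => UU_normal ρ T' hstab m
  have hinvD : ∀ x, (∀ d, ρD d x = x) → x = 0 := by
    intro x hx
    refine hinv x fun g' t' hgt => ?_
    have h1 : g' ∈ Dec F (AlgebraicClosure F) j :=
      BKGlob.Cpt.mem_dec (j := j) (σ := g') (t := t') hgt
    exact hx ⟨g', h1⟩
  have hstabh : ∀ x, ρ h x ∈ T → x ∈ T := by
    intro x hx
    have h1 := hM.stab h⁻¹ _ hx
    change ρ h⁻¹ (ρ h x) ∈ T at h1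
    rwa [RLTH.rho_inv] at h1
  have hstabh' : ∀ x, ρ h x ∈ N → x ∈ N := by
    intro x hx
    have h1 := hM.stab' h⁻¹ _ hx
    change ρ h⁻¹ (ρ h x) ∈ N at h1
    rwa [RLTH.rho_inv] at h1
  let P := RLOC.PP HT
  have hst : ∀ d, ∀ x ∈ fixW P ρD, ρD d x ∈ fixW P ρD := fun d x hx =>
    RLTH.fixW_stab (fun d i hi => RLOC.PP_normal HT d hi) d hx
  have hZr : ∀ (f : W →ₗ[L] W) (x : W), RLOC.Zr T' f x ↔
      Filter.Tendsto (fun m : ℕ => ((f - 1) ^ m) x) Filter.atTop (nhds 0) := fun f x =>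
    (RLOB.tendsto_iff T' hM.bdd (span_T hM p) fun m => ((f - 1) ^ m) x).symm
  obtain ⟨k, k', hk, hk', hkk⟩ := RLOC.core₁ hLth hPrj hp2 HT ρD γ' hγ' hinvD ⟨φ, hφD⟩ T' N' hT'
    (fun x hx => ((hM.lagr x).1 hx).1) (fun x hx => pi_mem hM x hx)
    (fun d x hx => hM.stab d x hx) (fun d x hx => hM.stab' d x hx)
    (fun y => by
      constructor
      · intro hy x hx
        exact (hM.dual _).1 (hM.stab h y hy) x hx
      · intro hy
        exact hstabh y ((hM.dual _).2 hy))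
    (fun y => by
      constructor
      · intro hy x hx
        exact (dualN hM p _).1 (hM.stab' h y hy) x hx
      · intro hy
        exact hstabh' y ((dualN hM p _).2 hy))
    (fun m => by
      obtain ⟨M, hM'⟩ := he.cont (UU ρ T' hstab m) (hopen m) (hnorm m)
      refine ⟨M, fun i hi hei => ?_⟩
      obtain ⟨c', hc', hc0, hci⟩ := hM' i hi hei
      exact ⟨⟨c', ine_dec hc'⟩, hc', hc0, hci⟩)
    (fun m c' hc' hc0 => by
      obtain ⟨r, hr, hr'⟩ := he.prime (UU ρ T' hstab m) (hopen m) (hnorm m) c' hc' hc0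
      exact ⟨r, hr, hr'⟩)
    (fun m d => by
      obtain ⟨k, i, hi, hki⟩ := hFr (UU ρ T' hstab m) (hopen m) (hnorm m) d d.2
      exact ⟨k, ⟨i, ine_dec hi⟩, hi, hki⟩)
    (fixW P ρD).subtype Subtype.val_injective (rest ρD (fixW P ρD) hst)
    (fun d x => rfl) (fun x => ⟨fun hx => ⟨⟨x, hx⟩, rfl⟩, fun ⟨y, hy⟩ => hy ▸ y.2⟩) U₁ U₂
    (fun x => by
      rw [hU₁, hZr]
      refine and_congr ?_ Iff.rfl
      constructor
      · intro hx i hi
        exact (hZr _ x).2 (hx i hi)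
      · intro hx i hi
        exact (hZr _ x).1 (hx ⟨i, ine_dec hi⟩ hi))
    (fun x => by
      rw [hU₂, hZr]
      refine and_congr ?_ Iff.rfl
      constructor
      · intro hx i hi
        exact hx i hi
      · intro hx i hi
        exact hx ⟨i, ine_dec hi⟩ hi)
  -- the lengths
  have hq : 1 < Nat.card (kk p L) := by
    have h0 : Finite (kk p L) := instFiniteRes p L
    exact Finite.one_lt_card
  have hlen : ∀ (X : Submodule (OO p L) W) (X₀ : AddSubgroup W), X.toAddSubgroup = X₀ →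
      (∀ d, ∀ x ∈ X, ρD d x ∈ X) → ∀ k : ℕ,
      X.toAddSubgroup.relIndex (modW ⊤ ρD X).toAddSubgroup = Nat.card (kk p L) ^ k →
      BKS.len L X₀ (BKS.fixed (fun g x => ρ g x) j X₀) = k := by
    rintro X _ rfl hsX k hk
    have h1 : BKS.fixed (fun g x => ρ g x) j X.toAddSubgroup =
        ((modW ⊤ ρD X).toAddSubgroup : Set W) := by
      ext x
      constructor
      · intro hx d _
        obtain ⟨t', ht'⟩ := BKGlob.exists_cpt j d.2
        exact hx d t' ht'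
      · intro hx g' t' hgt
        have h1 : g' ∈ Dec F (AlgebraicClosure F) j :=
          BKGlob.Cpt.mem_dec (j := j) (σ := g') (t := t') hgt
        exact hx ⟨g', h1⟩ trivial
    rw [h1]
    have h2 := hLen p L W X.toAddSubgroup (modW ⊤ ρD X).toAddSubgroup
      (fun b hb x hx => X.smul_mem (⟨b, hb⟩ : OO p L) hx)
      (fun b hb x hx => (modW ⊤ ρD X).smul_mem (⟨b, hb⟩ : OO p L) hx)
      (fun x hx d _ => X.sub_mem (hsX d x hx) hx) (by
        rw [hk]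
        exact (pow_pos (by omega) _).ne')
    rw [hk] at h2
    exact (Nat.pow_right_injective (by omega) h2).symm
  unfold BKS.loc
  rw [hlen T' T rfl (fun d x hx => hM.stab d x hx) k hk,
    hlen N' N rfl (fun d x hx => hM.stab' d x hx) k' hk', hkk]

end BKT
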