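import Pool.Agent.Lib.MP_7c08ba_nt.T1.StR
import Mathlib.RingTheory.Ideal.Quotient.Index
import Mathlib.RingTheory.Filtration

set_option autoImplicit false

/-!
Module PRJ: the projector on the invariants of a group which acts through a finite group of order
prime to `p`.
-/

noncomputable section

namespace BKT

open NumberField BKGen BKMet

namespace RPRJ

variable {p : ℕ} [Fact p.Prime] {L : Type} [NormedField L] [NormedAlgebra ℚ_[p] L]

theorem norm_nat {r : ℕ} (hr : ¬ p ∣ r) : ‖((r : ℕ) : L)‖ = 1 := by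
  have h1 : ((r : ℕ) : L) = algebraMap ℚ_[p] L ((r : ℕ) : ℚ_[p]) := by rw [map_natCast]
  rw [h1, norm_algebraMap', Padic.norm_natCast_eq_one_iff]
  exact ((Fact.out : p.Prime).coprime_iff_not_dvd).2 hr

/-- the inverse of a natural number prime to `p` -/
theorem exists_inv {r : ℕ} (hr : ¬ p ∣ r) : ∃ u : OO p L, (u : L) = ((r : ℕ) : L)⁻¹ ∧
    u * (r : OO p L) = 1 := by
  have h1 := norm_nat (L := L) hr
  have h0 : ((r : ℕ) : L) ≠ 0 := by
    rw [← norm_pos_iff, h1]
    exact one_pos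
  refine ⟨⟨((r : ℕ) : L)⁻¹, ?_⟩, rfl, Subtype.ext ?_⟩
  · change ‖((r : ℕ) : L)⁻¹‖ ≤ 1
    rw [norm_inv, h1, inv_one]
  · rw [Subring.coe_mul, Subring.coe_natCast, Subring.coe_one]
    exact inv_mul_cancel₀ h0

variable [FiniteDimensional ℚ_[p] L] {W : Type} [AddCommGroup W] [Module L W]

omit [FiniteDimensional ℚ_[p] L] in
theorem coe_smul' (a : OO p L) (x : W) : a • x = (a : L) • x := rfl

omit [FiniteDimensional ℚ_[p] L] in
theorem smul_cancel {a : OO p L} (ha : (a : L) ≠ 0) {x y : W} (h : a • x = a • y) : x = y := by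
  rw [coe_smul', coe_smul'] at h
  exact smul_right_injective W ha h

omit [FiniteDimensional ℚ_[p] L] in
theorem map_smul_OO (g : W →ₗ[L] W) (a : OO p L) (x : W) : g (a • x) = a • g x := by
  rw [coe_smul', coe_smul', map_smul]

/-- a lattice is separated -/
theorem separated {X : Submodule (OO p L) W} (hX : X.FG) (w : W)
    (h : ∀ m : ℕ, ∃ y ∈ X, w = pi0 p L ^ m • y) : w = 0 := by
  have hfin : Module.Finite (OO p L) X := Module.Finite.iff_fg.2 hX
  have hw : w ∈ X := by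
    obtain ⟨y, hy, hwy⟩ := h 0
    rw [pow_zero, one_smul] at hwy
    rw [hwy]
    exact hy
  have h1 := Ideal.iInf_pow_smul_eq_bot_of_isLocalRing (M := X)
    (IsLocalRing.maximalIdeal (OO p L)) (IsLocalRing.maximalIdeal.isMaximal _).ne_top
  have h2 : (⟨w, hw⟩ : X) ∈ (⨅ i : ℕ, (IsLocalRing.maximalIdeal (OO p L)) ^ i •
      (⊤ : Submodule (OO p L) X)) := by
    rw [Submodule.mem_iInf]
    intro m
    obtain ⟨y, hy, hwy⟩ := h m
    have h3 : (⟨w, hw⟩ : X) = pi0 p L ^ m • (⟨y, hy⟩ : X) := Subtype.ext hwy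
    rw [h3]
    refine Submodule.smul_mem_smul (Ideal.pow_mem_pow ?_ m) Submodule.mem_top
    rw [OO.mem_max]
    exact pi0_lt p L
  rw [h1, Submodule.mem_bot] at h2
  exact congrArg Subtype.val h2

/-- An automorphism congruent to one, such that its powers with exponents prime to `p` are
arbitrarily close to one, is trivial. -/
theorem eq_one {X : Submodule (OO p L) W} (hX : LatW X) (g : W ≃ₗ[L] W)
    (h1 : ∀ x ∈ X, ∃ y ∈ X, g x = x + pi0 p L • y)
    (hr : ∀ m : ℕ, ∃ r : ℕ, ¬ p ∣ r ∧ ∀ x ∈ X, ∃ y ∈ X, (g ^ r) x = x + pi0 p L ^ m • y) :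
    g = 1 := by
  have hpi := pi0_ne p L
  have key : ∀ j : ℕ, ∀ x ∈ X, ∃ y ∈ X, g x = x + pi0 p L ^ (j + 1) • y := by
    intro j
    induction j with
    | zero =>
      intro x hx
      rw [zero_add, pow_one]
      exact h1 x hx
    | succ j ih =>
      -- the map `N` with `g = 1 + π^(j+1) N`
      choose! N hNX hN using ih
      have claim : ∀ r : ℕ, ∀ x ∈ X, ∃ y ∈ X,
          (g ^ r) x = x + pi0 p L ^ (j + 1) • ((r : OO p L) • N x) + pi0 p L ^ (j + 2) • y := by
        intro r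
        induction r with
        | zero =>
          intro x hx
          refine ⟨0, X.zero_mem, ?_⟩
          simp
        | succ r ihr =>
          intro x hx
          obtain ⟨y, hy, hxy⟩ := ihr x hx
          obtain ⟨y', hy', hxy'⟩ := ihr (N x) (hNX x hx)
          have h2 : (g ^ (r + 1)) x = (g ^ r) (g x) := by
            rw [pow_succ]
            rfl
          have h3 : (g ^ r) (pi0 p L ^ (j + 1) • N x) = pi0 p L ^ (j + 1) • (g ^ r) (N x) :=
            map_smul_OO ((g ^ r : W ≃ₗ[L] W) : W →ₗ[L] W) _ _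
          refine ⟨y + (pi0 p L ^ j • ((r : OO p L) • N (N x)) + pi0 p L ^ (j + 1) • y'), ?_, ?_⟩
          · refine X.add_mem hy (X.add_mem (X.smul_mem _ (X.smul_mem _ ?_)) (X.smul_mem _ hy'))
            exact hNX _ (hNX x hx)
          · rw [h2, hN x hx, map_add, h3, hxy, hxy']
            push_cast
            module
      obtain ⟨r, hpr, hr2⟩ := hr (j + 2)
      obtain ⟨u, -, hu⟩ := exists_inv (L := L) hpr
      intro x hx
      obtain ⟨y, hy, hxy⟩ := claim r x hx
      obtain ⟨y₀, hy₀, hxy₀⟩ := hr2 x hx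
      rw [hxy₀, add_assoc] at hxy
      have h3 := add_left_cancel hxy
      have h4 : pi0 p L ^ (j + 1) • ((r : OO p L) • N x) =
          pi0 p L ^ (j + 1) • (pi0 p L • (y₀ - y)) := by
        have h5 : pi0 p L ^ (j + 1) • (pi0 p L • (y₀ - y)) =
            pi0 p L ^ (j + 2) • y₀ - pi0 p L ^ (j + 2) • y := by module
        rw [h5, h3]
        module
      have h5 : (r : OO p L) • N x = pi0 p L • (y₀ - y) := by
        refine smul_cancel (a := pi0 p L ^ (j + 1)) ?_ h4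
        rw [Subring.coe_pow]
        exact pow_ne_zero _ hpi
      have h6 : N x = pi0 p L • (u • (y₀ - y)) := by
        calc N x = (u * (r : OO p L)) • N x := by rw [hu, one_smul]
          _ = u • ((r : OO p L) • N x) := mul_smul _ _ _
          _ = u • (pi0 p L • (y₀ - y)) := by rw [h5]
          _ = _ := smul_comm _ _ _
      refine ⟨u • (y₀ - y), X.smul_mem _ (X.sub_mem hy₀ hy), ?_⟩
      rw [hN x hx, h6]
      module
  have h2 : ∀ x ∈ X, g x = x := by
    intro x hx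
    have h3 : g x - x = 0 := by
      refine separated hX.fg _ fun m => ?_
      obtain ⟨y, hy, hxy⟩ := key m x hx
      refine ⟨pi0 p L • y, X.smul_mem _ hy, ?_⟩
      rw [hxy]
      module
    exact sub_eq_zero.1 h3
  ext x
  obtain ⟨m, hm⟩ := hX.span x
  have h3 := h2 _ hm
  have h4 : g (pi0 p L ^ m • x) = pi0 p L ^ m • g x := map_smul_OO (g : W →ₗ[L] W) _ _
  rw [h4] at h3
  refine smul_cancel (a := pi0 p L ^ m) ?_ h3
  rw [Subring.coe_pow]
  exact pow_ne_zero _ hpi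

section Grp

variable {C : Type} [Group C] {ρ : C →* (W ≃ₗ[L] W)} {X : Submodule (OO p L) W}

theorem eq_one' (hX : LatW X)
    (hr : ∀ (m : ℕ) (c : C), ∃ r : ℕ, ¬ p ∣ r ∧
      ∀ x ∈ X, ∃ y ∈ X, ρ (c ^ r) x = x + pi0 p L ^ m • y) (c : C)
    (h1 : ∀ x ∈ X, ∃ y ∈ X, ρ c x = x + pi0 p L • y) : ρ c = 1 := by
  refine eq_one hX (ρ c) h1 fun m => ?_
  obtain ⟨r, hpr, hr'⟩ := hr m c
  refine ⟨r, hpr, ?_⟩
  rw [← map_pow]
  exact hr'

/-- the reduction is faithful on the image -/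
theorem finite_range (hX : LatW X) (hst : ∀ c, ∀ x ∈ X, ρ c x ∈ X)
    (hr : ∀ (m : ℕ) (c : C), ∃ r : ℕ, ¬ p ∣ r ∧
      ∀ x ∈ X, ∃ y ∈ X, ρ (c ^ r) x = x + pi0 p L ^ m • y) : Finite ρ.range := by
  have hfin : Module.Finite (OO p L) X := Module.Finite.iff_fg.2 hX.fg
  obtain ⟨S, hS⟩ := hX.fg
  have hSX : ∀ s ∈ S, s ∈ X := fun s hs => by
    rw [← hS]
    exact Submodule.subset_span hs
  have hq : Finite (OO p L ⧸ (Ideal.span {pi0 p L} : Ideal (OO p L))) := by
    have h := instFiniteQuot p L 1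
    rwa [pow_one] at h
  have hQ : Finite (X ⧸ ((Ideal.span {pi0 p L} : Ideal (OO p L)) •
      (⊤ : Submodule (OO p L) X))) := by
    have hs : Finite (X ⧸ (⊤ : Submodule (OO p L) X)) := by
      have : Subsingleton (X ⧸ (⊤ : Submodule (OO p L) X)) :=
        Submodule.Quotient.subsingleton_iff.2 rfl
      infer_instance
    exact Submodule.finite_quotient_smul _ hfin.1
  let κ : C → (S → X ⧸ ((Ideal.span {pi0 p L} : Ideal (OO p L)) •
      (⊤ : Submodule (OO p L) X))) := fun c s =>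
    Submodule.Quotient.mk ⟨ρ c s, hst c s (hSX s s.2)⟩
  have hκ : ∀ c c' : C, κ c = κ c' → ρ c = ρ c' := by
    intro c c' h
    have h1 : ∀ s ∈ S, ∃ y ∈ X, ρ c s - ρ c' s = pi0 p L • y := by
      intro s hs
      have h2 := congrFun h ⟨s, hs⟩
      have h3 := (Submodule.Quotient.eq _).1 h2
      rw [Submodule.ideal_span_singleton_smul, Submodule.mem_smul_pointwise_iff_exists] at h3
      obtain ⟨y, -, hy⟩ := h3
      exact ⟨y, y.2, (congrArg Subtype.val hy).symm⟩
    have h2 : ∀ x ∈ X, ∃ y ∈ X, ρ c x - ρ c' x = pi0 p L • y := by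
      intro x hx
      rw [← hS] at hx
      induction hx using Submodule.span_induction with
      | mem s hs => exact h1 s hs
      | zero => exact ⟨0, X.zero_mem, by simp⟩
      | add x y _ _ hx hy =>
        obtain ⟨a, ha, hxa⟩ := hx
        obtain ⟨b, hb, hyb⟩ := hy
        refine ⟨a + b, X.add_mem ha hb, ?_⟩
        rw [map_add, map_add, smul_add, ← hxa, ← hyb]
        abel
      | smul a x _ hx =>
        obtain ⟨b, hb, hxb⟩ := hx
        refine ⟨a • b, X.smul_mem _ hb, ?_⟩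
        have h3 : ρ c (a • x) = a • ρ c x := map_smul_OO (ρ c : W →ₗ[L] W) _ _
        have h4 : ρ c' (a • x) = a • ρ c' x := map_smul_OO (ρ c' : W →ₗ[L] W) _ _
        rw [h3, h4, ← smul_sub, hxb]
        module
    have h3 : ρ (c'⁻¹ * c) = 1 := by
      refine eq_one' hX hr _ fun x hx => ?_
      obtain ⟨y, hy, hxy⟩ := h2 x hx
      refine ⟨ρ c'⁻¹ y, hst _ _ hy, ?_⟩
      have h4 : ρ c'⁻¹ (pi0 p L • y) = pi0 p L • ρ c'⁻¹ y :=
        map_smul_OO (ρ c'⁻¹ : W →ₗ[L] W) _ _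
      rw [← h4, ← hxy, map_sub, map_mul]
      have h5 : ρ c'⁻¹ (ρ c' x) = x := by
        rw [map_inv]
        exact (ρ c').symm_apply_apply x
      rw [h5]
      change ρ c'⁻¹ (ρ c x) = _
      abel
    rw [map_mul, map_inv, inv_mul_eq_one] at h3
    exact h3.symm
  refine Finite.of_injective (fun g : ρ.range => κ g.2.choose) fun g g' h => ?_
  have h1 := hκ _ _ h
  rw [g.2.choose_spec, g'.2.choose_spec] at h1
  exact Subtype.ext h1

theorem card_range (hX : LatW X) (hst : ∀ c, ∀ x ∈ X, ρ c x ∈ X)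
    (hr : ∀ (m : ℕ) (c : C), ∃ r : ℕ, ¬ p ∣ r ∧
      ∀ x ∈ X, ∃ y ∈ X, ρ (c ^ r) x = x + pi0 p L ^ m • y) : ¬ p ∣ Nat.card ρ.range := by
  intro hdvd
  have hfin := finite_range hX hst hr
  obtain ⟨⟨g, c, rfl⟩, hg⟩ := exists_prime_orderOf_dvd_card' p hdvd
  obtain ⟨r, hpr, hr'⟩ := hr 1 c
  rw [pow_one] at hr'
  have h1 : ρ (c ^ r) = 1 := eq_one' hX hr _ hr'
  apply hpr
  rw [← hg]
  refine orderOf_dvd_of_pow_eq_one (Subtype.ext ?_)
  change (ρ c) ^ r = 1
  rw [← map_pow, h1]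

/-- the average over the image -/
def avg (ρ : C →* (W ≃ₗ[L] W)) [Fintype ρ.range] : W →ₗ[L] W :=
  ((Fintype.card ρ.range : ℕ) : L)⁻¹ • ∑ g : ρ.range, ((g : W ≃ₗ[L] W) : W →ₗ[L] W)

theorem avg_apply (ρ : C →* (W ≃ₗ[L] W)) [Fintype ρ.range] (x : W) :
    avg ρ x = ((Fintype.card ρ.range : ℕ) : L)⁻¹ • ∑ g : ρ.range, (g : W ≃ₗ[L] W) x := by
  unfold avg
  rw [LinearMap.smul_apply, LinearMap.sum_apply]
  rfl

omit [FiniteDimensional ℚ_[p] L] in
theorem card_ne [Fintype ρ.range] (h : ¬ p ∣ Fintype.card ρ.range) :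
    ((Fintype.card ρ.range : ℕ) : L) ≠ 0 := by
  rw [← norm_pos_iff, norm_nat (p := p) h]
  exact one_pos

end Grp

end RPRJ

/-- Module PRJ. -/
theorem stPrj : StPrj := by
  intro p _ L _ _ _ W _ _ _ C _ ρ X hX hst hr
  have hfin := RPRJ.finite_range hX hst hr
  have hcard := RPRJ.card_range hX hst hr
  have hF : Fintype ρ.range := Fintype.ofFinite _
  rw [Nat.card_eq_fintype_card] at hcard
  have hne := RPRJ.card_ne (L := L) hcard
  obtain ⟨u, hu, -⟩ := RPRJ.exists_inv (L := L) hcard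
  have hE : ∀ x, RPRJ.avg ρ x = u • ∑ g : ρ.range, (g : W ≃ₗ[L] W) x := by
    intro x
    rw [RPRJ.avg_apply, RPRJ.coe_smul', hu]
  have h1 : ∀ c x, ρ c (RPRJ.avg ρ x) = RPRJ.avg ρ x := by
    intro c x
    rw [RPRJ.avg_apply, map_smul, map_sum]
    congr 1
    exact Fintype.sum_equiv (Equiv.mulLeft (⟨ρ c, c, rfl⟩ : ρ.range)) _ _ fun g => rfl
  have h2 : ∀ x, (∀ c, ρ c x = x) → RPRJ.avg ρ x = x := by
    intro x hx
    have h3 : ∀ g : ρ.range, (g : W ≃ₗ[L] W) x = x := by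
      rintro ⟨g, c, rfl⟩
      exact hx c
    rw [RPRJ.avg_apply, Finset.sum_congr rfl fun g _ => h3 g, Finset.sum_const, Finset.card_univ,
      ← Nat.cast_smul_eq_nsmul L, smul_smul, inv_mul_cancel₀ hne, one_smul]
  have hsub : ∀ x, x - RPRJ.avg ρ x = u • ∑ g : ρ.range, (x - (g : W ≃ₗ[L] W) x) := by
    intro x
    rw [Finset.sum_sub_distrib, smul_sub, ← hE, Finset.sum_const, Finset.card_univ,
      RPRJ.coe_smul', hu, ← Nat.cast_smul_eq_nsmul L, smul_smul, inv_mul_cancel₀ hne, one_smul]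
  refine ⟨RPRJ.avg ρ, h1, h2, ?_, ?_, ?_⟩
  · intro Y hY
    refine ⟨fun y hy => ?_, fun x hx => ?_⟩
    · rw [hE]
      refine Y.smul_mem _ (Y.sum_mem ?_)
      rintro ⟨g, c, rfl⟩ -
      exact hY c y hy
    · rw [hsub]
      refine Y.smul_mem _ (Y.sum_mem ?_)
      rintro ⟨g, c, rfl⟩ -
      have h3 := Y.neg_mem (hx c)
      rwa [neg_sub] at h3
  · intro h hh x
    -- conjugation by `h` permutes the image
    let κ : ρ.range → ρ.range := fun g =>
      ⟨h.symm.trans ((g : W ≃ₗ[L] W).trans h), by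
        obtain ⟨g, c, rfl⟩ := g
        obtain ⟨c', hc'⟩ := hh c
        refine ⟨c', LinearEquiv.ext fun y => ?_⟩
        change ρ c' y = h (ρ c (h.symm y))
        rw [hc', h.apply_symm_apply]⟩
    have hκ : Function.Injective κ := by
      intro g g' hgg
      have h3 : h.symm.trans ((g : W ≃ₗ[L] W).trans h) =
          h.symm.trans ((g' : W ≃ₗ[L] W).trans h) := congrArg Subtype.val hgg
      refine Subtype.ext (LinearEquiv.ext fun y => ?_)
      have h4 := LinearEquiv.congr_fun h3 (h y)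
      change h ((g : W ≃ₗ[L] W) (h.symm (h y))) = h ((g' : W ≃ₗ[L] W) (h.symm (h y))) at h4
      rw [h.symm_apply_apply] at h4
      exact h.injective h4
    rw [RPRJ.avg_apply, RPRJ.avg_apply, map_smul, map_sum]
    congr 1
    refine Fintype.sum_equiv (Equiv.ofBijective κ (Finite.injective_iff_bijective.1 hκ)) _ _ ?_
    intro g
    change h ((g : W ≃ₗ[L] W) x) = h ((g : W ≃ₗ[L] W) (h.symm (h x)))
    rw [h.symm_apply_apply]
  · intro γ τ hγ x y
    have h3 : ∀ g : ρ.range, γ (RPRJ.avg ρ x) ((g : W ≃ₗ[L] W) y) = γ (RPRJ.avg ρ x) y := by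
      rintro ⟨g, c, rfl⟩
      have h4 := hγ (τ.symm c) (RPRJ.avg ρ x) y
      rw [h1, τ.apply_symm_apply] at h4
      exact h4
    have h4 : ∀ g : ρ.range, γ ((g : W ≃ₗ[L] W) x) (RPRJ.avg ρ y) = γ x (RPRJ.avg ρ y) := by
      rintro ⟨g, c, rfl⟩
      have h5 := hγ c x (RPRJ.avg ρ y)
      rw [h1] at h5
      exact h5
    have h5 : γ (RPRJ.avg ρ x) (RPRJ.avg ρ y) = γ (RPRJ.avg ρ x) y := by
      conv_lhs => rw [RPRJ.avg_apply ρ y]
      rw [map_smul, map_sum, Finset.sum_congr rfl fun g _ => h3 g, Finset.sum_const,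
        Finset.card_univ, ← Nat.cast_smul_eq_nsmul L, smul_smul, inv_mul_cancel₀ hne, one_smul]
    have h6 : γ (RPRJ.avg ρ x) (RPRJ.avg ρ y) = γ x (RPRJ.avg ρ y) := by
      conv_lhs => rw [RPRJ.avg_apply ρ x]
      rw [map_smul, LinearMap.smul_apply, map_sum, LinearMap.sum_apply,
        Finset.sum_congr rfl fun g _ => h4 g, Finset.sum_const,
        Finset.card_univ, ← Nat.cast_smul_eq_nsmul L, smul_smul, inv_mul_cancel₀ hne, one_smul]
    rw [← h5, h6]

end BKT
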