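import Pool.Agent.Lib.MP_7c08ba_nt.T1.StR

set_option autoImplicit false

/-!
Module SAT: duality of lattices and subspaces.
-/

noncomputable section

namespace BKT

open NumberField BKGen BKMet

namespace RSAT

variable {p : ℕ} [Fact p.Prime] {L : Type} [NormedField L] [NormedAlgebra ℚ_[p] L]
  [FiniteDimensional ℚ_[p] L] {W : Type} [AddCommGroup W] [Module L W]

omit [FiniteDimensional ℚ_[p] L] in
theorem smul_def' (a : OO p L) (x : W) : a • x = (a : L) • x := rfl

omit [FiniteDimensional ℚ_[p] L] in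
theorem torf (K : Submodule (OO p L) W) : Module.IsTorsionFree (OO p L) K := by
  refine ⟨?_⟩
  intro a ha x y hxy
  have ha0 : (a : L) ≠ 0 := by
    intro h
    have h' : a = 0 := Subtype.ext h
    rw [h'] at ha
    have := ha.left (show (0 : OO p L) * 1 = 0 * 0 by simp)
    exact one_ne_zero this
  have h1 : (a : L) • (x : W) = (a : L) • (y : W) := congrArg Subtype.val hxy
  have h2 := smul_right_injective W ha0 h1
  exact Subtype.ext h2

theorem exists_pow_mem (c : L) : ∃ m : ℕ, ‖((pi0 p L : OO p L) : L) ^ m * c‖ ≤ 1 := by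
  have h0 := pi0_pos p L
  have h1 := pi0_lt p L
  by_cases hc : c = 0
  · exact ⟨0, by simp [hc]⟩
  · have hc0 : 0 < ‖c‖ := norm_pos_iff.2 hc
    obtain ⟨m, hm⟩ := exists_pow_lt_of_lt_one (inv_pos.2 hc0) h1
    refine ⟨m, ?_⟩
    rw [norm_mul, norm_pow]
    calc _ ≤ ‖c‖⁻¹ * ‖c‖ := mul_le_mul_of_nonneg_right hm.le hc0.le
      _ = 1 := inv_mul_cancel₀ hc0.ne'

/-- a basis of a lattice is a basis of the space -/
theorem exists_basis (X : Submodule (OO p L) W) (hX : LatW X) :
    ∃ (n : ℕ) (b : Module.Basis (Fin n) (OO p L) X) (B : Module.Basis (Fin n) L W),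
      ∀ i, B i = ((b i : X) : W) := by
  have h1 := pi0_lt p L
  have hfin : Module.Finite (OO p L) X := Module.Finite.iff_fg.2 hX.fg
  have htf := torf X
  have hfree : Module.Free (OO p L) X := inferInstance
  set b : Module.Basis (Fin (Module.finrank (OO p L) X)) (OO p L) X :=
    Module.finBasis (OO p L) X with hb
  have hli : LinearIndependent L fun i => ((b i : X) : W) := by
    rw [Fintype.linearIndependent_iff]
    intro c hc i
    have hm : ∀ i, ∃ m : ℕ, ‖((pi0 p L : OO p L) : L) ^ m * c i‖ ≤ 1 := fun i =>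
      exists_pow_mem (c i)
    choose m hm using hm
    set M := ∑ i, m i with hM
    have hM' : ∀ i, ‖((pi0 p L : OO p L) : L) ^ M * c i‖ ≤ 1 := by
      intro i
      have h2 : m i ≤ M := Finset.single_le_sum (fun _ _ => Nat.zero_le _) (Finset.mem_univ i)
      obtain ⟨d, hd⟩ := Nat.exists_eq_add_of_le h2
      rw [hd, add_comm, pow_add, mul_assoc, norm_mul, norm_pow]
      calc _ ≤ 1 * 1 := mul_le_mul (pow_le_one₀ (norm_nonneg _) h1.le) (hm i) (norm_nonneg _)
            zero_le_one
        _ = 1 := one_mul _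
    set a : Fin (Module.finrank (OO p L) X) → OO p L := fun i => ⟨_, hM' i⟩ with ha
    have h2 : ∑ i, a i • b i = 0 := by
      apply Subtype.ext
      rw [Submodule.coe_sum, Submodule.coe_zero]
      have h3 : ∀ i, ((a i • b i : X) : W) =
          ((pi0 p L : OO p L) : L) ^ M • (c i • ((b i : X) : W)) := by
        intro i
        rw [Submodule.coe_smul, smul_def', smul_smul]
      simp only [h3]
      rw [← Finset.smul_sum, hc, smul_zero]
    have h3 := Fintype.linearIndependent_iff.1 b.linearIndependent a h2 i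
    have h4 : ((pi0 p L : OO p L) : L) ^ M * c i = 0 := congrArg Subtype.val h3
    rcases mul_eq_zero.1 h4 with h5 | h5
    · exact absurd h5 (pow_ne_zero _ (pi0_ne p L))
    · exact h5
  have hX' : ∀ x ∈ X, x ∈ Submodule.span L (Set.range fun i => ((b i : X) : W)) := by
    intro x hx
    have h2 := b.sum_repr ⟨x, hx⟩
    have h3 : x = ∑ i, (b.repr ⟨x, hx⟩ i) • ((b i : X) : W) := by
      have h4 := congrArg Subtype.val h2
      rw [Submodule.coe_sum] at h4
      exact h4.symm
    rw [h3]
    refine Submodule.sum_mem _ fun i _ => ?_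
    rw [smul_def']
    exact Submodule.smul_mem _ _ (Submodule.subset_span ⟨i, rfl⟩)
  have hspan : ⊤ ≤ Submodule.span L (Set.range fun i => ((b i : X) : W)) := by
    intro x _
    obtain ⟨m, hm⟩ := hX.span x
    have h2 := hX' _ hm
    have h3 : ((pi0 p L ^ m : OO p L) : L) ≠ 0 := by
      rw [Subring.coe_pow]
      exact pow_ne_zero _ (pi0_ne p L)
    rw [smul_def'] at h2
    exact (Submodule.smul_mem_iff _ h3).1 h2
  refine ⟨_, b, Module.Basis.mk hli hspan, fun i => ?_⟩
  rw [Module.Basis.mk_apply]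

end RSAT

open RSAT

theorem stSat : StSat := by
  intro p _ L _ _ _ W _ _ _ γ X hX hself Z z hz
  obtain ⟨n, b, B, hbB⟩ := exists_basis X hX
  have hfin : Module.Finite (OO p L) X := Module.Finite.iff_fg.2 hX.fg
  -- the form is nondegenerate
  have hinj : Function.Injective (LinearMap.flip γ) := by
    rw [injective_iff_map_eq_zero]
    intro y hy
    have h1 : ∀ x, γ x y = 0 := fun x => by
      have := LinearMap.congr_fun hy x
      simpa using this
    have h2 : ∀ c : L, c • y ∈ X := by
      intro c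
      rw [hself]
      intro x _
      rw [map_smul, h1, smul_zero, norm_zero]
      exact zero_le_one
    have h3 : ∀ x (hx : x ∈ X) i, B.repr x i = ((b.repr ⟨x, hx⟩ i : OO p L) : L) := by
      intro x hx i
      have h4 : x = ∑ i, ((b.repr ⟨x, hx⟩ i : OO p L) : L) • B i := by
        have h5 := congrArg Subtype.val (b.sum_repr ⟨x, hx⟩)
        rw [Submodule.coe_sum] at h5
        refine h5.symm.trans (Finset.sum_congr rfl fun i _ => ?_)
        rw [hbB]
        rfl
      conv_lhs => rw [h4]
      rw [B.repr_sum_self]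
    have h4 : ∀ i, B.repr y i = 0 := by
      intro i
      by_contra hne
      obtain ⟨k, hk⟩ := exists_pow_lt_of_lt_one (norm_pos_iff.2 hne) (pi0_lt p L)
      have h5 := h3 _ (h2 ((((pi0 p L : OO p L) : L) ^ k)⁻¹)) i
      have h6 : ‖B.repr ((((pi0 p L : OO p L) : L) ^ k)⁻¹ • y) i‖ ≤ 1 := by
        rw [h5]
        exact OO.norm_le _
      rw [map_smul, Finsupp.smul_apply, smul_eq_mul, norm_mul, norm_inv, norm_pow] at h6
      have h7 : 0 < ‖((pi0 p L : OO p L) : L)‖ ^ k := pow_pos (pi0_pos p L) k
      rw [inv_mul_le_one₀ h7] at h6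
      exact absurd h6 (not_le.2 hk)
    have h5 : B.repr y = 0 := Finsupp.ext h4
    exact (map_eq_zero_iff _ B.repr.injective).1 h5
  have hsurj : Function.Surjective (LinearMap.flip γ) := by
    refine (LinearMap.injective_iff_surjective_of_finrank_eq_finrank ?_).1 hinj
    exact (Subspace.dual_finrank_eq (K := L) (V := W)).symm
  -- the splitting
  set Y : Submodule (OO p L) X := (Z.restrictScalars (OO p L)).comap X.subtype with hY
  have htf : Module.IsTorsionFree (OO p L) (X ⧸ Y) := by
    refine ⟨?_⟩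
    intro a ha u v huv
    have ha0 : (a : L) ≠ 0 := by
      intro h
      have h' : a = 0 := Subtype.ext h
      rw [h'] at ha
      have := ha.left (show (0 : OO p L) * 1 = 0 * 0 by simp)
      exact one_ne_zero this
    obtain ⟨x, rfl⟩ := Submodule.mkQ_surjective Y u
    obtain ⟨x', rfl⟩ := Submodule.mkQ_surjective Y v
    have h1 : Y.mkQ (a • x) = Y.mkQ (a • x') := by
      rw [map_smul, map_smul]
      exact huv
    rw [Submodule.mkQ_apply, Submodule.mkQ_apply, Submodule.Quotient.eq] at h1
    rw [Submodule.mkQ_apply, Submodule.mkQ_apply, Submodule.Quotient.eq]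
    have h2 : (a : L) • (((x - x' : X)) : W) ∈ Z := by
      have h2' : (a : L) • (x : W) - (a : L) • (x' : W) ∈ Z := h1
      rw [← smul_sub] at h2'
      exact h2'
    have h3 := (Submodule.smul_mem_iff Z ha0).1 h2
    exact h3
  have hfr : Module.Free (OO p L) (X ⧸ Y) := inferInstance
  obtain ⟨s, hs⟩ := Module.projective_lifting_property Y.mkQ LinearMap.id
    (Submodule.mkQ_surjective Y)
  have hmem : ∀ x : X, x - s (Y.mkQ x) ∈ Y := by
    intro x
    have h1 : Y.mkQ (x - s (Y.mkQ x)) = 0 := by
      rw [map_sub]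
      have := LinearMap.congr_fun hs (Y.mkQ x)
      rw [LinearMap.comp_apply, LinearMap.id_apply] at this
      rw [this, sub_self]
    rw [← LinearMap.mem_ker, Submodule.ker_mkQ] at h1
    exact h1
  have hzero : ∀ x : X, x ∈ Y → s (Y.mkQ x) = 0 := by
    intro x hx
    have : Y.mkQ x = 0 := by
      rw [← LinearMap.mem_ker, Submodule.ker_mkQ]
      exact hx
    rw [this, map_zero]
  -- the functional
  set F : W →ₗ[L] L := B.constr L fun i =>
    γ (((b i - s (Y.mkQ (b i)) : X)) : W) z with hF
  have hFX : ∀ x : X, F (x : W) = γ (((x - s (Y.mkQ x) : X)) : W) z := by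
    intro x
    have h5 : (x : W) = ∑ i, ((b.repr x i : OO p L) : L) • B i := by
      have h5 := congrArg Subtype.val (b.sum_repr x)
      rw [Submodule.coe_sum] at h5
      refine h5.symm.trans (Finset.sum_congr rfl fun i _ => ?_)
      rw [hbB]
      rfl
    have h6 : ((x - s (Y.mkQ x) : X) : W) =
        ∑ i, ((b.repr x i : OO p L) : L) • (((b i - s (Y.mkQ (b i)) : X)) : W) := by
      have h7 : x - s (Y.mkQ x) = ∑ i, b.repr x i • (b i - s (Y.mkQ (b i))) := by
        conv_lhs => rw [← b.sum_repr x]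
        simp only [map_sum, map_smul, smul_sub, Finset.sum_sub_distrib]
      rw [h7, Submodule.coe_sum]
      rfl
    rw [h6]
    conv_lhs => rw [h5]
    rw [map_sum, map_sum, LinearMap.sum_apply]
    refine Finset.sum_congr rfl fun i _ => ?_
    rw [map_smul, map_smul, LinearMap.smul_apply, hF, Module.Basis.constr_basis]
  obtain ⟨x₀, hx₀⟩ := hsurj F
  have hx₀' : ∀ x, γ x x₀ = F x := fun x => by
    have := LinearMap.congr_fun hx₀ x
    simpa using this
  refine ⟨x₀, ?_, ?_⟩
  · rw [hself]
    intro x hx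
    rw [hx₀', hFX ⟨x, hx⟩]
    exact hz _ (Subtype.mem _) (hmem ⟨x, hx⟩)
  · intro x hx
    obtain ⟨m, hm⟩ := hX.span x
    have h1 : F ((pi0 p L ^ m : OO p L) • x) = γ ((pi0 p L ^ m : OO p L) • x) z := by
      rw [hFX ⟨_, hm⟩, hzero ⟨_, hm⟩ ?_, sub_zero]
      change (pi0 p L ^ m : OO p L) • x ∈ Z
      rw [smul_def']
      exact Z.smul_mem _ hx
    rw [← hx₀', smul_def', map_smul, LinearMap.smul_apply, LinearMap.smul_apply] at h1
    have h3 : ((pi0 p L ^ m : OO p L) : L) ≠ 0 := by
      rw [Subring.coe_pow]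
      exact pow_ne_zero _ (pi0_ne p L)
    have h4 := smul_right_injective L h3 h1
    rw [map_sub, h4, sub_self]

end BKT
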