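import Pool.Agent.Lib.MP_7c08ba_nt.T1.StR
import Pool.Agent.Lib.MP_7c08ba_nt.Met.LKPE
import Pool.Agent.Lib.MP_7c08ba_nt.Met.LN4
import Pool.Agent.Lib.MP_7c08ba_nt.Met.HTI
import Pool.Agent.Lib.MP_7c08ba_nt.Met.HRQ
import Pool.Agent.Lib.MP_7c08ba_nt.Met.GlobAll

set_option autoImplicit false

/-!
Module TAM: the tame character.
-/

noncomputable section

namespace BKT

open NumberField BKGen BKMet
open BKLoc2 (Sys IsKP cy)
open BKPar (Loc1)

namespace RTAM

section

variable {p : ℕ} [Fact p.Prime] {l : ℕ} [Fact l.Prime] {F : Type} [Field F]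
  {j : AlgebraicClosure F →+* PadicAlgCl l}

omit [Fact p.Prime] in
/-- roots of unity of order prime to `l` are fixed by the inertia group -/
theorem fix_root {N : ℕ} (hN : ¬ l ∣ N) {i : GF F} (hi : i ∈ Ine j) {ζ : AlgebraicClosure F}
    (hζ : ζ ^ N = 1) : i ζ = ζ := by
  by_contra hne
  have h1 : (j (i ζ)) ^ N = 1 := by rw [← map_pow, ← map_pow, hζ, map_one, map_one]
  have h2 : (j ζ) ^ N = 1 := by rw [← map_pow, hζ, map_one]
  have hN0 : N ≠ 0 := by rintro rfl; exact hN (dvd_zero _)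
  have h3 := norm_root_sub hN h1 h2 (fun h => hne (j.injective h))
  have h4 := hi ζ (norm_root hN0 h2).le
  rw [map_sub, h3] at h4
  exact lt_irrefl _ h4

omit [Fact p.Prime] in
/-- roots of order prime to `l` of a fixed unit are fixed by the inertia group -/
theorem fix_unit {N : ℕ} (hN : ¬ l ∣ N) {i : GF F} (hi : i ∈ Ine j) {u v : AlgebraicClosure F}
    (h : v ^ N = u) (hu : i u = u) (hn : ‖j u‖ = 1) : i v = v := by
  have hN0 : N ≠ 0 := by rintro rfl; exact hN (dvd_zero _)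
  have hv1 : ‖j v‖ = 1 := by
    have h3 : ‖j v‖ ^ N = 1 := by rw [← norm_pow, ← map_pow, h, hn]
    exact (pow_eq_one_iff_of_nonneg (norm_nonneg _) hN0).mp h3
  have hjv : j v ≠ 0 := by
    intro h0
    rw [h0, norm_zero] at hv1
    exact zero_ne_one hv1
  have hv0 : v ≠ 0 := fun h0 => hjv (by rw [h0, map_zero])
  have hu0 : u ≠ 0 := by rw [← h]; exact pow_ne_zero _ hv0
  have h1 : (i v / v) ^ N = 1 := by
    rw [div_pow, ← map_pow, h, hu, div_self hu0]
  have h1' : (j (i v / v)) ^ N = 1 := by rw [← map_pow, h1, map_one]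
  by_contra hne
  have h2 : j (i v / v) ≠ 1 := fun h0 => hne ((div_eq_one_iff_eq hv0).mp
    (j.injective (by rw [h0, map_one])))
  have h3 := norm_root_sub_one hN h1' h2
  have h4 : j (i v - v) = (j (i v / v) - 1) * j v := by
    rw [map_sub, map_div₀]
    field_simp
  have h5 := hi v hv1.le
  rw [h4, norm_mul, h3, hv1, one_mul] at h5
  exact lt_irrefl _ h5

theorem not_dvd_pow (hlp : l ≠ p) (n : ℕ) : ¬ l ∣ p ^ n := fun h => by
  have h1 := (Fact.out : l.Prime).dvd_of_dvd_pow h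
  exact hlp ((Nat.prime_dvd_prime_iff_eq (Fact.out : l.Prime) (Fact.out : p.Prime)).mp h1)

/-- the inertia group is closed -/
theorem isClosed_ine [CharZero F] : IsClosed (Ine j : Set (GF F)) := by
  have h1 : (Ine j : Set (GF F)) = ⋂ x : AlgebraicClosure F,
      {σ | ‖j x‖ ≤ 1 → ‖j (σ x - x)‖ < 1} := by
    ext σ
    simp only [Set.mem_iInter]
    rfl
  rw [h1]
  refine isClosed_iInter fun x => ?_
  rw [← isOpen_compl_iff, isOpen_iff_mem_nhds]
  intro σ hσ
  have h2 : IsOpen (MulAction.stabilizer (GF F) x : Set (GF F)) :=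
    stabilizer_isOpen_of_isIntegral x
  have h3 : IsOpen ((fun τ => σ⁻¹ * τ) ⁻¹' (MulAction.stabilizer (GF F) x : Set (GF F))) :=
    h2.preimage (continuous_const_mul σ⁻¹)
  refine Filter.mem_of_superset (h3.mem_nhds (by
    change σ⁻¹ * σ ∈ MulAction.stabilizer (GF F) x
    rw [inv_mul_cancel]
    exact Subgroup.one_mem _)) ?_
  intro τ hτ
  have h4 : (σ⁻¹ * τ) x = x := hτ
  have h5 : τ x = σ x := by
    have h6 := congrArg σ h4
    rw [← AlgEquiv.mul_apply, mul_inv_cancel_left] at h6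
    exact h6
  change ¬ (‖j x‖ ≤ 1 → ‖j (τ x - x)‖ < 1)
  rw [h5]
  exact hσ

/-- stabilizers are closed -/
theorem isClosed_stab [CharZero F] (x : AlgebraicClosure F) : IsClosed {σ : GF F | σ x = x} := by
  have h2 : IsOpen (MulAction.stabilizer (GF F) x : Set (GF F)) :=
    stabilizer_isOpen_of_isIntegral x
  exact Subgroup.isClosed_of_isOpen _ h2

/-- the inertia group is closed under multiplication -/
theorem mul_mem {i i' : GF F} (hi : i ∈ Ine j) (hi' : i' ∈ Ine j) : i * i' ∈ Ine j := by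
  intro x hx
  have h1 := hi' x hx
  have h2 : ‖j (i' x)‖ ≤ 1 := by
    have h3 := BKGlob2.TIAux.inert_le j hi' hx
    exact h3
  have h3 := hi (i' x) h2
  have h4 : j ((i * i') x - x) = j (i (i' x) - i' x) + j (i' x - x) := by
    rw [← map_add, AlgEquiv.mul_apply, sub_add_sub_cancel]
  rw [h4]
  exact (IsUltrametricDist.norm_add_le_max _ _).trans_lt (max_lt h3 h1)

theorem pow_mem {i : GF F} (hi : i ∈ Ine j) (n : ℕ) : i ^ n ∈ Ine j := by
  induction n with
  | zero =>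
    intro x hx
    rw [pow_zero, AlgEquiv.one_apply, sub_self, map_zero, norm_zero]
    exact one_pos
  | succ n ih =>
    rw [pow_succ]
    exact mul_mem ih hi

theorem eq_zero_of_dvd {x : ℤ_[p]} (h : ∀ n : ℕ, (p : ℤ_[p]) ^ n ∣ x) : x = 0 := by
  refine PadicInt.ext_of_toZModPow.1 fun n => ?_
  rw [map_zero, ← RingHom.mem_ker, PadicInt.ker_toZModPow, Ideal.mem_span_singleton]
  exact h n

/-- the elements of the inertia group which act trivially up to a high level are in `P U` -/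
theorem cont [CharZero F] {e : GF F → ℤ_[p]} {y : ℕ → AlgebraicClosure F}
    (hy : ∀ n, y (n + 1) ^ p = y n)
    (hd : ∀ i ∈ Ine j, ∀ M : ℕ, (p : ℤ_[p]) ^ M ∣ e i ↔ i (y M) = y M)
    (U : Subgroup (GF F)) (hU : IsOpen (U : Set (GF F))) : ∃ M : ℕ, ∀ i ∈ Ine j,
    (p : ℤ_[p]) ^ M ∣ e i → ∃ c ∈ Ine j, e c = 0 ∧ c⁻¹ * i ∈ U := by
  by_contra hcon
  push Not at hcon
  let K : ℕ → Set (GF F) := fun M => (Ine j ∩ {i | i (y M) = y M}) ∩
    {i | ∃ c ∈ Ine j, e c = 0 ∧ c⁻¹ * i ∈ U}ᶜ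
  have hcl : ∀ M, IsClosed (K M) := by
    intro M
    refine (isClosed_ine.inter (isClosed_stab (y M))).inter ?_
    rw [isClosed_compl_iff]
    have h1 : {i : GF F | ∃ c ∈ Ine j, e c = 0 ∧ c⁻¹ * i ∈ U} =
        ⋃ c ∈ {c : GF F | c ∈ Ine j ∧ e c = 0}, (fun i => c⁻¹ * i) ⁻¹' (U : Set (GF F)) := by
      ext i
      simp only [Set.mem_ofPred_eq, Set.mem_iUnion, Set.mem_preimage, SetLike.mem_coe, exists_prop,
        and_assoc]
    rw [h1]
    exact isOpen_biUnion fun c _ => hU.preimage (continuous_const_mul _)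
  have hne : (⋂ M, K M).Nonempty := by
    refine IsCompact.nonempty_iInter_of_sequence_nonempty_isCompact_isClosed K ?_ ?_
      (hcl 0).isCompact hcl
    · rintro M i ⟨⟨h1, h2⟩, h3⟩
      refine ⟨⟨h1, ?_⟩, h3⟩
      change i (y M) = y M
      have h4 : i (y (M + 1)) = y (M + 1) := h2
      rw [← hy M, map_pow, h4]
    · intro M
      obtain ⟨i, hi, hi', h⟩ := hcon M
      refine ⟨i, ⟨hi, (hd i hi M).1 hi'⟩, ?_⟩
      rintro ⟨c, hc, hc', hcU⟩
      exact h c hc hc' hcU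
  obtain ⟨i, hi⟩ := hne
  rw [Set.mem_iInter] at hi
  have hiI : i ∈ Ine j := (hi 0).1.1
  have h0 : e i = 0 := eq_zero_of_dvd fun n => (hd i hiI n).2 (hi n).1.2
  refine (hi 0).2 ⟨i, hiI, h0, ?_⟩
  rw [inv_mul_cancel]
  exact U.one_mem

/-- the character of a cyclic subgroup of order `p` of a quotient -/
theorem exists_char {G : Type} [Group G] {D : G} (hD : D ≠ 1) (hDp : D ^ p = 1) :
    ∃ f : G → ZMod p, f D = 1 ∧ ∀ x ∈ Subgroup.zpowers D, ∀ x' ∈ Subgroup.zpowers D,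
      f (x * x') = f x + f x' := by
  classical
  have ho : orderOf D = p := orderOf_eq_prime hDp hD
  have huniq : ∀ k k' : ℤ, D ^ k = D ^ k' → (k : ZMod p) = k' := by
    intro k k' h
    have h1 : D ^ (k - k') = 1 := by rw [zpow_sub, h, mul_inv_cancel]
    have h2 := orderOf_dvd_iff_zpow_eq_one.2 h1
    rw [ho] at h2
    have h3 := (ZMod.intCast_zmod_eq_zero_iff_dvd (k - k') p).mpr h2
    rwa [Int.cast_sub, sub_eq_zero] at h3
  let f : G → ZMod p := fun x => if h : x ∈ Subgroup.zpowers D then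
    ((Subgroup.mem_zpowers_iff.1 h).choose : ZMod p) else 0
  have hf : ∀ k : ℤ, f (D ^ k) = k := by
    intro k
    have h : D ^ k ∈ Subgroup.zpowers D := Subgroup.mem_zpowers_iff.2 ⟨k, rfl⟩
    simp only [f]
    rw [dif_pos h]
    exact huniq _ _ (Subgroup.mem_zpowers_iff.1 h).choose_spec
  refine ⟨f, ?_, ?_⟩
  · have h1 := hf 1
    rwa [zpow_one, Int.cast_one] at h1
  · intro x hx x' hx'
    obtain ⟨k, rfl⟩ := Subgroup.mem_zpowers_iff.1 hx
    obtain ⟨k', rfl⟩ := Subgroup.mem_zpowers_iff.1 hx'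
    rw [← zpow_add, hf, hf, hf, Int.cast_add]

/-- a uniformizer -/
theorem exists_unif (E : Type) [Field E] [NumberField E] (jE : E →+* PadicAlgCl l) :
    ∃ π : E, π ≠ 0 ∧ ‖jE π‖ < 1 ∧ ∀ x : E, x ≠ 0 → ∃ m : ℤ, ‖jE x‖ = ‖jE π‖ ^ m := by
  obtain ⟨π, hπ⟩ := (BKGen.SUnits.pl jE).valuation_exists_uniformizer E
  have hπ0 : π ≠ 0 := by
    rintro rfl
    rw [map_zero] at hπ
    exact WithZero.exp_ne_zero hπ.symm
  have h1 : ∀ x : E, x ≠ 0 → ∃ m : ℤ, ‖jE x‖ = ‖jE π‖ ^ m := fun x hx =>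
    BKGlob2.RQAux.norm_zpow_of_val (j := jE) rfl hπ hx
  have hl0 : ((l : ℕ) : E) ≠ 0 := Nat.cast_ne_zero.mpr (Fact.out : l.Prime).ne_zero
  obtain ⟨m, hm⟩ := h1 _ hl0
  rw [map_natCast] at hm
  have hl1 : ‖(l : PadicAlgCl l)‖ < 1 := norm_l_lt
  rcases lt_trichotomy ‖jE π‖ 1 with h | h | h
  · exact ⟨π, hπ0, h, h1⟩
  · rw [h, one_zpow] at hm
    exact absurd hm hl1.ne
  · refine ⟨π⁻¹, inv_ne_zero hπ0, ?_, fun x hx => ?_⟩
    · rw [map_inv₀, norm_inv]
      exact inv_lt_one_of_one_lt₀ h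
    · obtain ⟨k, hk⟩ := h1 x hx
      refine ⟨-k, ?_⟩
      rw [map_inv₀, norm_inv, inv_zpow, zpow_neg, inv_inv]
      exact hk

end

section

variable {p : ℕ} [Fact p.Prime] {l : ℕ} [Fact l.Prime] {F : Type} [Field F] [NumberField F]
  {j : AlgebraicClosure F →+* PadicAlgCl l}

/-- the case of order `p` -/
theorem prime_key (hlp : l ≠ p) {w : F} (hw0 : w ≠ 0)
    (hw1 : ‖j (algebraMap F (AlgebraicClosure F) w)‖ < 1) {y : ℕ → AlgebraicClosure F}
    (hy0 : y 0 = algebraMap F (AlgebraicClosure F) w) (hy : ∀ n, y (n + 1) ^ p = y n)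
    {U : Subgroup (GF F)} (hU : IsOpen (U : Set (GF F))) (hUn : U.Normal) {d : GF F}
    (hd : d ∈ Ine j) (hdy : ∀ M, d (y M) = y M) (hdp : d ^ p ∈ U) : d ∈ U := by
  by_contra hdU
  have hp : p.Prime := Fact.out
  -- the character
  obtain ⟨f, hf1, hf2⟩ := exists_char (p := p) (G := GF F ⧸ U) (D := QuotientGroup.mk' U d)
    (fun h => hdU ((QuotientGroup.eq_one_iff d).1 h)) (by
      rw [← map_pow]
      exact (QuotientGroup.eq_one_iff _).2 hdp)
  let Z : Subgroup (GF F) := (Subgroup.zpowers (QuotientGroup.mk' U d)).comap (QuotientGroup.mk' U)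
  have hUZ : U ≤ Z := by
    intro u hu
    change QuotientGroup.mk' U u ∈ Subgroup.zpowers (QuotientGroup.mk' U d)
    have h1 : QuotientGroup.mk' U u = 1 := (QuotientGroup.eq_one_iff u).2 hu
    rw [h1]
    exact Subgroup.one_mem _
  have hdZ : d ∈ Z := Subgroup.mem_zpowers _
  obtain ⟨ζ, hζ⟩ : ∃ ζ : AlgebraicClosure F, IsPrimitiveRoot ζ p := by
    have : NeZero ((p : ℕ) : AlgebraicClosure F) := ⟨by
      rw [Nat.cast_ne_zero]
      exact hp.ne_zero⟩
    exact HasEnoughRootsOfUnity.exists_primitiveRoot (AlgebraicClosure F) p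
  let V : Subgroup (GF F) := Z ⊓ MulAction.stabilizer (GF F) ζ
  have hV : IsOpen (V : Set (GF F)) := by
    have h1 : IsOpen (Z : Set (GF F)) := Subgroup.isOpen_mono hUZ hU
    have h2 : IsOpen (MulAction.stabilizer (GF F) ζ : Set (GF F)) :=
      stabilizer_isOpen_of_isIntegral ζ
    exact h1.inter h2
  have hVζ : ∀ g ∈ V, g ζ = ζ := fun g hg => hg.2
  have hdV : d ∈ V := ⟨hdZ, by
    change d ζ = ζ
    refine fix_root (N := p) ?_ hd hζ.pow_eq_one
    have h1 := not_dvd_pow hlp 1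
    rwa [pow_one] at h1⟩
  -- the fixed field
  have hfix : (IntermediateField.fixedField V).fixingSubgroup = V :=
    InfiniteGalois.fixingSubgroup_fixedField
      (⟨V, Subgroup.isClosed_of_isOpen V hV⟩ : ClosedSubgroup (GF F))
  let E : IntermediateField F (AlgebraicClosure F) := IntermediateField.fixedField V
  have hEfd : FiniteDimensional F E := by
    rw [← InfiniteGalois.isOpen_iff_finite]
    change IsOpen ((IntermediateField.fixedField V).fixingSubgroup : Set (GF F))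
    rw [hfix]
    exact hV
  have hEnf : NumberField E := NumberField.of_module_finite F E
  obtain ⟨π, hπ0, hπ1, hπ⟩ := exists_unif E (j.comp (algebraMap E (AlgebraicClosure F)))
  have hπ0' : (π : AlgebraicClosure F) ≠ 0 := fun h => hπ0 (Subtype.ext h)
  have hmem : ∀ x : AlgebraicClosure F, x ∈ E ↔ ∀ g ∈ V, g x = x := fun x =>
    IntermediateField.mem_fixedField_iff V x
  have hπV : ∀ g ∈ V, g (π : AlgebraicClosure F) = π := (hmem _).1 π.2
  obtain ⟨K1, -⟩ := BKOdd.stKum BKOdd.stH90 F (AlgebraicClosure F) V V.subtype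
    hV.isOpenEmbedding_subtypeVal p ζ hζ fun g => hVζ g g.2
  obtain ⟨κ, hκZ, hκ⟩ := K1 _ hπ0' fun g => hπV g g.2
  obtain ⟨a, ha⟩ := BKGlob2.aTI p F V hV ζ hζ hVζ l hlp j (π : AlgebraicClosure F) hπ0' hπV
    (fun x hx hxV => by
      obtain ⟨m, hm⟩ := hπ ⟨x, (hmem x).2 hxV⟩ fun h => hx (congrArg Subtype.val h)
      exact ⟨m, hm⟩) κ hκ (fun g => f (QuotientGroup.mk' U g))
    ⟨U, hU, fun g u hu => by
      change f (QuotientGroup.mk' U (g * u)) = f (QuotientGroup.mk' U g)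
      have h1 : QuotientGroup.mk' U u = 1 := (QuotientGroup.eq_one_iff u).2 hu
      rw [map_mul, h1, mul_one]⟩ Z (fun g _ hg => hg.1) (fun r hr s hs => by
      rw [map_mul]
      exact hf2 _ hr _ hs)
  have had := ha d hdV hd
  rw [hf1] at had
  -- the Kummer character is trivial
  obtain ⟨Y, hY0, hYp, hY⟩ := hκ
  set k := (κ ⟨d, hdV⟩).val with hk
  have hdY : d Y = ζ ^ k * Y := hY ⟨d, hdV⟩
  have hwE : algebraMap F (AlgebraicClosure F) w ∈ E := E.algebraMap_mem w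
  have hwE0 : (⟨algebraMap F (AlgebraicClosure F) w, hwE⟩ : E) ≠ 0 := fun h => by
    have h1 : algebraMap F (AlgebraicClosure F) w = 0 := congrArg Subtype.val h
    rw [map_eq_zero] at h1
    exact hw0 h1
  obtain ⟨m, hm⟩ := hπ _ hwE0
  change ‖j (algebraMap F (AlgebraicClosure F) w)‖ = ‖j (π : AlgebraicClosure F)‖ ^ m at hm
  have hπ1' : ‖j (π : AlgebraicClosure F)‖ < 1 := hπ1
  have hjπ : 0 < ‖j (π : AlgebraicClosure F)‖ := norm_pos_iff.mpr fun h => hπ0' (j.injective (by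
    rw [h, map_zero]))
  have hm0 : 0 < m := by
    by_contra hneg
    have h1 : 1 ≤ ‖j (π : AlgebraicClosure F)‖ ^ m := by
      have h2 : ‖j (π : AlgebraicClosure F)‖ ^ m =
          (‖j (π : AlgebraicClosure F)‖⁻¹) ^ (-m) := by
        rw [inv_zpow, zpow_neg, inv_inv]
      rw [h2]
      exact one_le_zpow₀ ((one_le_inv₀ hjπ).2 hπ1'.le) (by omega)
    rw [← hm] at h1
    exact absurd hw1 (not_lt.mpr h1)
  obtain ⟨n, rfl⟩ : ∃ n : ℕ, m = n := ⟨m.toNat, (Int.toNat_of_nonneg hm0.le).symm⟩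
  rw [zpow_natCast] at hm
  obtain ⟨b, n', hn', hnn⟩ := Nat.exists_eq_pow_mul_and_not_dvd
    (Nat.cast_pos.1 hm0).ne' p hp.ne_one
  have hw0' : algebraMap F (AlgebraicClosure F) w ≠ 0 := fun h => hw0 ((map_eq_zero _).1 h)
  set u : AlgebraicClosure F := (π : AlgebraicClosure F) ^ n /
    algebraMap F (AlgebraicClosure F) w with hu
  have hju : ‖j u‖ = 1 := by
    rw [hu, map_div₀, map_pow, norm_div, norm_pow, hm, div_self]
    exact (pow_pos hjπ _).ne'
  have hdu : d u = u := by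
    rw [hu, map_div₀, map_pow, hπV d hdV, AlgEquiv.commutes]
  obtain ⟨v, hv⟩ := IsAlgClosed.exists_pow_nat_eq u (pow_pos hp.pos (b + 1))
  have hdv : d v = v := fix_unit (not_dvd_pow hlp (b + 1)) hd hv hdu hju
  have hyb : y (b + 1) ^ p ^ (b + 1) = algebraMap F (AlgebraicClosure F) w :=
    BKLoc2.KPEAux.seq_top (p := p) hy0 hy (b + 1)
  have hy0' : y (b + 1) ≠ 0 := BKLoc2.KPEAux.seq_ne hw0' hy0 hy (b + 1)
  have hu0 : u ≠ 0 := div_ne_zero (pow_ne_zero _ hπ0') hw0'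
  have hv0 : v ≠ 0 := by
    rintro rfl
    rw [zero_pow (pow_pos hp.pos _).ne'] at hv
    exact hu0 hv.symm
  have hr : (Y ^ n' / (v * y (b + 1))) ^ p ^ (b + 1) = 1 := by
    have h1 : (Y ^ n') ^ p ^ (b + 1) = (π : AlgebraicClosure F) ^ n := by
      rw [← hYp, ← pow_mul, ← pow_mul, hnn, pow_succ]
      congr 1
      ring
    rw [div_pow, mul_pow, hv, hyb, h1, hu, div_mul_cancel₀ _ hw0']
    exact div_self (pow_ne_zero _ hπ0')
  have hdr := fix_root (not_dvd_pow hlp (b + 1)) hd hr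
  have hdY' : d (Y ^ n') = Y ^ n' := by
    have h1 : Y ^ n' = Y ^ n' / (v * y (b + 1)) * (v * y (b + 1)) :=
      (div_mul_cancel₀ _ (mul_ne_zero hv0 hy0')).symm
    rw [h1, map_mul, hdr, map_mul, hdv, hdy]
  have h1 : ζ ^ (k * n') = 1 := by
    rw [map_pow, hdY, mul_pow, ← pow_mul] at hdY'
    exact mul_right_cancel₀ (pow_ne_zero n' hY0) (hdY'.trans (one_mul _).symm)
  have h2 := (hζ.pow_eq_one_iff_dvd _).1 h1
  have h3 : p ∣ k := (hp.dvd_mul.1 h2).resolve_right hn'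
  have h4 : k = 0 := Nat.eq_zero_of_dvd_of_lt h3 (ZMod.val_lt _)
  have h5 : κ ⟨d, hdV⟩ = 0 := (ZMod.val_eq_zero _).1 h4
  rw [h5, mul_zero] at had
  exact one_ne_zero had

/-- the kernel of the tame character has no quotients of order divisible by `p` -/
theorem prime (hlp : l ≠ p) {w : F} (hw0 : w ≠ 0)
    (hw1 : ‖j (algebraMap F (AlgebraicClosure F) w)‖ < 1) {y : ℕ → AlgebraicClosure F}
    (hy0 : y 0 = algebraMap F (AlgebraicClosure F) w) (hy : ∀ n, y (n + 1) ^ p = y n)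
    {U : Subgroup (GF F)} (hU : IsOpen (U : Set (GF F))) (hUn : U.Normal) {d : GF F}
    (hd : d ∈ Ine j) (hdy : ∀ M, d (y M) = y M) : ∃ m : ℕ, ¬ p ∣ m ∧ d ^ m ∈ U := by
  have hp : p.Prime := Fact.out
  have hfin : Finite (GF F ⧸ U) := U.quotient_finite_of_isOpen hU
  have h1 : d ^ Nat.card (GF F ⧸ U) ∈ U := by
    rw [← QuotientGroup.eq_one_iff]
    change QuotientGroup.mk' U (d ^ Nat.card (GF F ⧸ U)) = 1
    rw [map_pow]
    exact pow_card_eq_one'
  obtain ⟨a, m, hm, hc⟩ := Nat.exists_eq_pow_mul_and_not_dvd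
    (Nat.card_pos (α := GF F ⧸ U)).ne' p hp.ne_one
  refine ⟨m, hm, ?_⟩
  have hpow : ∀ (k : ℕ) M, (d ^ k) (y M) = y M := by
    intro k M
    induction k with
    | zero => rfl
    | succ k ih => rw [pow_succ, AlgEquiv.mul_apply, hdy, ih]
  have key : ∀ (b k : ℕ), d ^ (p ^ b * k) ∈ U → d ^ k ∈ U := by
    intro b
    induction b with
    | zero =>
      intro k hk
      rwa [pow_zero, one_mul] at hk
    | succ b ih =>
      intro k hk
      refine ih k (prime_key hlp hw0 hw1 hy0 hy hU hUn (pow_mem hd _) (hpow _) ?_)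
      rw [← pow_mul]
      have h2 : p ^ b * k * p = p ^ (b + 1) * k := by ring
      rwa [h2]
  rw [hc] at h1
  exact key a m h1

/-- the cyclotomic character is trivial on the inertia group -/
theorem cy_one (hlp : l ≠ p) {i : GF F} (hi : i ∈ Ine j) : cy p F (AlgebraicClosure F) i = 1 := by
  rw [← map_one (cy p F (AlgebraicClosure F))]
  refine BKOdd.CycLAux.eq_of (p := p) (Ω := AlgebraicClosure F) _ _ fun n ξ hξ => ?_
  have h1 := BKOdd.CycLAux.act (p := p) n ξ hξ.pow_eq_one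
    (MulSemiringAction.toRingAut (GF F) (AlgebraicClosure F) i)
  have h2 := BKOdd.CycLAux.act (p := p) n ξ hξ.pow_eq_one
    (MulSemiringAction.toRingAut (GF F) (AlgebraicClosure F) 1)
  have h3 : i ξ = ξ := fix_root (not_dvd_pow hlp n) hi hξ.pow_eq_one
  exact h1.symm.trans (h3.trans h2)

end

end RTAM

open RTAM in
/-- Module TAM. -/
theorem stTam : StTam := by
  intro p l _ _ hlp F _ _ j
  have hp : p.Prime := Fact.out
  obtain ⟨w, hw0, hw1, hw⟩ := exists_unif F (j.comp (algebraMap F (AlgebraicClosure F)))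
  obtain ⟨z, hz⟩ := BKLoc2.N4Aux.exists_sys p (AlgebraicClosure F)
  have hw0' : algebraMap F (AlgebraicClosure F) w ≠ 0 := fun h => hw0 ((map_eq_zero _).1 h)
  obtain ⟨-, -, k3, k4, -, -⟩ := BKLoc2.stKPE p F (AlgebraicClosure F) (GF F) (MonoidHom.id _)
    continuous_id z hz
  obtain ⟨κ, hκ⟩ := k3 (algebraMap F (AlgebraicClosure F) w) hw0' fun g => g.commutes w
  have hκZ := k4 _ κ hw0' hκ
  obtain ⟨y, hy0, hy, hyκ⟩ := hκ
  have hy1 : ∀ n (i : GF F), i (y n) = z n ^ (PadicInt.toZModPow n (κ i)).val * y n := hyκ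
  have hyn : ∀ n, y n ≠ 0 := BKLoc2.KPEAux.seq_ne hw0' hy0 hy
  -- divisibility
  have hdvd : ∀ (i : GF F) (M : ℕ), (p : ℤ_[p]) ^ M ∣ κ i ↔ i (y M) = y M := by
    intro i M
    have : NeZero (p ^ M) := ⟨pow_ne_zero _ hp.ne_zero⟩
    rw [← Ideal.mem_span_singleton, ← PadicInt.ker_toZModPow, RingHom.mem_ker]
    constructor
    · intro h
      rw [hy1, h, ZMod.val_zero, pow_zero, one_mul]
    · intro h
      refine BKLoc2.KPEAux.sys_inj hz M (hyn M) _ _ ?_
      rw [← hy1, h, ZMod.val_zero, pow_zero, one_mul]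
  have hadd : ∀ i ∈ Ine j, ∀ i' : GF F, κ (i * i') = κ i + κ i' := by
    intro i hi i'
    rw [hκZ.2 i i']
    change κ i + ((cy p F (AlgebraicClosure F) i : ℤ_[p]ˣ) : ℤ_[p]) * κ i' = _
    rw [cy_one hlp hi, Units.val_one, one_mul]
  -- an element of the inertia group which moves `y 1`
  obtain ⟨t, ht, hty⟩ : ∃ t ∈ Ine j, t (y 1) ≠ y 1 := by
    by_contra hcon
    push Not at hcon
    obtain ⟨b, hb⟩ := norm_of_fixed_inert j (y 1) hcon
    have hb0 : b ≠ 0 := by
      rintro rfl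
      rw [map_zero, map_zero, norm_zero, norm_eq_zero, map_eq_zero] at hb
      exact hyn 1 hb
    obtain ⟨m, hm⟩ := hw b hb0
    change ‖j (algebraMap F (AlgebraicClosure F) b)‖ =
      ‖j (algebraMap F (AlgebraicClosure F) w)‖ ^ m at hm
    have hw1' : ‖j (algebraMap F (AlgebraicClosure F) w)‖ < 1 := hw1
    have hpos : 0 < ‖j (algebraMap F (AlgebraicClosure F) w)‖ := norm_pos_iff.mpr fun h =>
      hw0' (j.injective (by rw [h, map_zero]))
    have h1 : ‖j (algebraMap F (AlgebraicClosure F) w)‖ ^ (1 : ℤ) =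
        ‖j (algebraMap F (AlgebraicClosure F) w)‖ ^ (m * p) := by
      rw [zpow_mul, ← hm, ← hb, zpow_natCast, ← norm_pow, ← map_pow, hy 0, hy0, zpow_one]
    have h2 := (zpow_right_inj₀ hpos hw1'.ne).1 h1
    have h3 : (p : ℤ) ∣ 1 := ⟨m, by rw [h2, mul_comm]⟩
    have h4 : p ∣ 1 := by exact_mod_cast h3
    exact hp.one_lt.ne' (Nat.dvd_one.1 h4)
  have hunit : IsUnit (κ t) := by
    rw [PadicInt.isUnit_iff]
    by_contra hne
    have h1 : ‖κ t‖ < 1 := lt_of_le_of_ne (PadicInt.norm_le_one _) hne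
    have h2 : (p : ℤ_[p]) ∣ κ t := PadicInt.norm_lt_one_iff_dvd _ |>.1 h1
    have h3 := (hdvd t 1).1 (by rwa [pow_one])
    exact hty h3
  obtain ⟨u, hu⟩ := hunit
  refine ⟨fun g => ((u⁻¹ : ℤ_[p]ˣ) : ℤ_[p]) * κ g, ?_, ⟨t, ht, ?_⟩, ?_, ?_, ?_⟩
  · intro i hi i' _
    rw [hadd i hi, mul_add]
  · rw [← hu, Units.inv_mul]
  · intro g hg i hi i' hi' hgi
    rw [mul_left_comm]
    congr 1
    refine PadicInt.ext_of_toZModPow.1 fun n => ?_
    have : NeZero (p ^ n) := ⟨pow_ne_zero _ hp.ne_zero⟩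
    refine BKLoc2.KPEAux.sys_inj hz n (hyn n) _ _ ?_
    rw [← hy1, map_mul, mul_comm, BKLoc2.KPEAux.sys_mul hz]
    -- the quotient of `g⁻¹ y` and `y`
    have hnorm : ∀ x, ‖j (g.symm x)‖ = ‖j x‖ := fun x => by
      rw [← hg (g.symm x), RingEquiv.apply_symm_apply]
    set v : AlgebraicClosure F := g.symm (y n) / y n with hv
    have hyt : y n ^ p ^ n = algebraMap F (AlgebraicClosure F) w :=
      BKLoc2.KPEAux.seq_top (p := p) hy0 hy n
    have hiw : i (g.symm (algebraMap F (AlgebraicClosure F) w)) =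
        g.symm (algebraMap F (AlgebraicClosure F) w) := by
      apply g.injective
      rw [← hgi, RingEquiv.apply_symm_apply]
      exact i'.commutes w
    have hiv : i v = v := by
      refine fix_unit (N := p ^ n) (not_dvd_pow hlp n) hi
        (u := g.symm (algebraMap F (AlgebraicClosure F) w) /
          algebraMap F (AlgebraicClosure F) w) ?_ ?_ ?_
      · rw [hv, div_pow, ← map_pow, hyt]
      · rw [map_div₀, hiw, AlgEquiv.commutes]
      · rw [map_div₀, norm_div, hnorm, div_self]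
        exact norm_ne_zero_iff.mpr fun h => hw0' (j.injective (by rw [h, map_zero]))
    have h1 : g.symm (y n) = v * y n := (div_mul_cancel₀ _ (hyn n)).symm
    have h2 : i' (y n) = g (i (g.symm (y n))) := by
      rw [← hgi, RingEquiv.apply_symm_apply]
    rw [h2, h1, map_mul i, hiv, hy1 n i]
    have h3 : v * (z n ^ (PadicInt.toZModPow n (κ i)).val * y n) =
        z n ^ (PadicInt.toZModPow n (κ i)).val * g.symm (y n) := by
      rw [h1]
      ring
    rw [h3, map_mul, map_pow, RingEquiv.apply_symm_apply, BKOdd.CycLAux.act n (z n)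
      (hz.prim n).pow_eq_one g, ← pow_mul]
    ring
  · intro U hU _
    refine cont (e := fun g => ((u⁻¹ : ℤ_[p]ˣ) : ℤ_[p]) * κ g) hy (fun i _ M => ?_) U hU
    rw [← hdvd i M]
    exact (Units.isUnit (u⁻¹)).dvd_mul_left
  · intro U hU hUn c hc hec
    refine prime hlp hw0 hw1 hy0 hy hU hUn hc fun M => (hdvd c M).1 ?_
    have h1 : κ c = 0 := (mul_eq_zero.1 hec).resolve_left (Units.ne_zero _)
    rw [h1]
    exact dvd_zero _

end BKT
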