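import Pool.Agent.Lib.MP_7c08ba_nt.T1.AllV
import Pool.Agent.Lib.MP_7c08ba_nt.T1.RTAM
import Pool.Agent.Lib.MP_7c08ba_nt.T1.RFRD
import Pool.Agent.Lib.MP_7c08ba_nt.T1.RABD
import Pool.Agent.Lib.MP_7c08ba_nt.T1.RCVH
import Pool.Agent.Lib.MP_7c08ba_nt.T1.RMUW
import Pool.Agent.Lib.MP_7c08ba_nt.T1.RDUL
import Pool.Agent.Lib.MP_7c08ba_nt.T1.RSAT
import Pool.Agent.Lib.MP_7c08ba_nt.T1.RCLB
import Pool.Agent.Lib.MP_7c08ba_nt.T1.RCLC
import Pool.Agent.Lib.MP_7c08ba_nt.T1.RCLA
import Pool.Agent.Lib.MP_7c08ba_nt.T1.RFIT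
import Pool.Agent.Lib.MP_7c08ba_nt.T1.RLTH
import Pool.Agent.Lib.MP_7c08ba_nt.T1.RPRJ
import Pool.Agent.Lib.MP_7c08ba_nt.T1.RLOZ
import Pool.Agent.Lib.MP_7c08ba_nt.T1.REGN
import Pool.Agent.Lib.MP_7c08ba_nt.T1.RKBC
import Pool.Agent.Lib.MP_7c08ba_nt.T1.RDEX
import Pool.Agent.Lib.MP_7c08ba_nt.T1.RPZF

set_option autoImplicit false

/-!
The parity theorem with an explicit formula for the local terms: assembly of the modules of the
part R. The final theorem is `pzf : StPzf` (`ParityZ`).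
-/

noncomputable section

namespace BKT.AllZ

open BKT BKT.All BKT.AllN BKT.AllV

theorem tam : StTam := stTam
theorem frd : StFrd := stFrd
theorem abd : StAbd := stAbd
theorem cvh : StCvh := stCvh BKGlob2.stCJ BKGlob2.stCY
theorem muw : StMuw := stMuw
theorem dul : StDul := stDul muw
theorem sat : StSat := stSat
theorem clb : StClb := stClb sat BKMet.All.alt muw
theorem clc : StClc := stClc muw dul sat
theorem cla : StCla := stCla
theorem fit : StFit := stFit
theorem lth : StLth := stLth cla clb clc muw fit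
theorem prj : StPrj := stPrj
theorem loz : StLoz := stLoz lth prj tam frd abd cvh len
theorem egn : StEgn := stEgn
theorem kbc : StKbc := stKbc
theorem dex : StDex := stDex egn kbc ltx
/-- **The parity theorem.** -/
theorem pzf : StPzf := stPzf pvf cnh ltx bcc loz dex

end BKT.AllZ
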