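import Pool.Agent.Lib.MP_7c08ba_nt.Met.StX
import Pool.Agent.Lib.MP_7c08ba_nt.Met.LocStmts

set_option autoImplicit false

/-!
Parity for general residual representations: induced modules, additive functions, the local and
global axioms for all finite modules. Definitions.
-/

noncomputable section

namespace BKT

open BKPar (Loc1 Loc2)
open BKND (Sm)
open BKMet

/-! ### Induced modules -/

section Ind

variable {G : Type*} [Group G] (A : Subgroup G)

/-- the module induced from the module `N` of `A`: functions on `G` with values in `N` which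
transform by `σ` under `A` -/
def IndM {N : Type*} [AddCommGroup N] (σ : A →* AddMonoid.End N) : AddSubgroup (G → N) where
  carrier := {f | ∀ (g : G) (a : A), f (g * a) = σ a⁻¹ (f g)}
  add_mem' := by
    intro f f' hf hf' g a
    rw [Pi.add_apply, Pi.add_apply, hf g a, hf' g a, map_add]
  zero_mem' := fun g a => (map_zero _).symm
  neg_mem' := by
    intro f hf g a
    rw [Pi.neg_apply, Pi.neg_apply, hf g a, map_neg]

/-- the action of `G` by translation -/
def indM {N : Type*} [AddCommGroup N] (σ : A →* AddMonoid.End N) :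
    G →* AddMonoid.End (IndM A σ) where
  toFun g :=
    { toFun := fun f => ⟨fun x => (f : G → N) (g⁻¹ * x), fun x a => by
        change (f : G → N) (g⁻¹ * (x * a)) = σ a⁻¹ ((f : G → N) (g⁻¹ * x))
        rw [← mul_assoc]
        exact f.2 (g⁻¹ * x) a⟩
      map_zero' := rfl
      map_add' := fun _ _ => rfl }
  map_one' := by
    ext f x
    change (f : G → N) (1⁻¹ * x) = (f : G → N) x
    rw [inv_one, one_mul]
  map_mul' g h := by
    ext f x
    change (f : G → N) ((g * h)⁻¹ * x) = (f : G → N) (h⁻¹ * (g⁻¹ * x))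
    rw [mul_inv_rev, mul_assoc]

theorem indM_apply {N : Type*} [AddCommGroup N] (σ : A →* AddMonoid.End N) (g : G)
    (f : IndM A σ) (x : G) : ((indM A σ g f : IndM A σ) : G → N) x = (f : G → N) (g⁻¹ * x) := rfl

/-- functions on a `G`-set with values in a module -/
def mapA (X : Type*) [MulAction G X] {M : Type*} [AddCommGroup M] (ρ : G →* AddMonoid.End M) :
    G →* AddMonoid.End (X → M) where
  toFun g :=
    { toFun := fun f x => ρ g (f (g⁻¹ • x))
      map_zero' := by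
        funext x
        exact map_zero _
      map_add' := fun f f' => by
        funext x
        exact map_add _ _ _ }
  map_one' := by
    ext f x
    change ρ 1 (f ((1 : G)⁻¹ • x)) = f x
    rw [inv_one, one_smul, map_one]
    rfl
  map_mul' g h := by
    ext f x
    change ρ (g * h) (f ((g * h)⁻¹ • x)) = ρ g (ρ h (f (h⁻¹ • g⁻¹ • x)))
    rw [mul_inv_rev, mul_smul, map_mul]
    rfl

theorem mapA_apply (X : Type*) [MulAction G X] {M : Type*} [AddCommGroup M]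
    (ρ : G →* AddMonoid.End M) (g : G) (f : X → M) (x : X) :
    mapA X ρ g f x = ρ g (f (g⁻¹ • x)) := rfl

end Ind

/-- `f` is an additive function on finite modules killed by `p` with an action of `Γ`. -/
structure AddF (p : ℕ) (Γ : Type) [Group Γ]
    (f : ∀ (M : Type) [AddCommGroup M], (Γ →* AddMonoid.End M) → ℝ) : Prop where
  add : ∀ (M' M M'' : Type) [AddCommGroup M'] [AddCommGroup M] [AddCommGroup M''] [Finite M]
    (ρ' : Γ →* AddMonoid.End M') (ρ : Γ →* AddMonoid.End M) (ρ'' : Γ →* AddMonoid.End M'')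
    (i : M' →+ M) (q : M →+ M''), (∀ m : M, p • m = 0) → (∀ g x, i (ρ' g x) = ρ g (i x)) →
    (∀ g x, q (ρ g x) = ρ'' g (q x)) → Function.Injective i → Function.Surjective q →
    (∀ x, q x = 0 ↔ ∃ y, i y = x) → f M ρ = f M' ρ' + f M'' ρ''

/-- The elements of `U` act through elements of `p`-power order. -/
def PGr (p : ℕ) {G : Type*} [Group G] {M : Type*} [AddCommGroup M] (ρ : G →* AddMonoid.End M)
    (U : Subgroup G) : Prop := ∀ u ∈ U, ∃ n : ℕ, ρ u ^ p ^ n = 1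

/-! ### The local axioms -/

section Loc

variable (p : ℕ) [Fact p.Prime] {D : Type} [Group D] [TopologicalSpace D] (χ : D →* ℤ_[p]ˣ)
  (inv : (D → D → QZ p) →+ QZ p) (δ : ℕ)

/-- The local axioms for all finite modules: local duality and the local Euler characteristic. -/
structure LocG : Prop where
  inv_eq : ∀ z ∈ BKND.Z2 (actA χ), inv z = 0 ↔ z ∈ BKND.B2 (actA χ)
  /-- nondegeneracy on `H¹` -/
  one : ∀ (M M' : Type) [AddCommGroup M] [AddCommGroup M'] [Finite M]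
    (X : Pair ℤ (actA χ) M M'), ∀ f ∈ BKND.Z1 X.ρ,
    (∀ f' ∈ BKND.Z1 X.ρ', inv (cup11 X.b X.ρ' f f') = 0) → f ∈ BKND.B1 X.ρ
  /-- `H²` is dual to `H⁰` -/
  two : ∀ (M M' : Type) [AddCommGroup M] [AddCommGroup M'] [Finite M]
    (X : Pair ℤ (actA χ) M M'), ∀ z ∈ BKND.Z2 X.ρ,
    (∀ y ∈ BKND.H0 X.ρ', inv (cup20 X.b X.ρ' z y) = 0) → z ∈ BKND.B2 X.ρ
  /-- the local Euler characteristic -/
  card : ∀ (M M' : Type) [AddCommGroup M] [AddCommGroup M'] [Finite M]
    (X : Pair ℤ (actA χ) M M'),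
    Nat.card (BKND.Z1 X.ρ) = Nat.card (BKND.H0 X.ρ') * Nat.card M ^ (1 + δ)

/-- The local axioms for characters of open subgroups: duality for subgroups of index prime to
`p`, with the invariant composed with the transfer, and the Euler characteristic. -/
structure LocS : Prop where
  inv_eq : ∀ z ∈ BKND.Z2 (actA χ), inv z = 0 ↔ z ∈ BKND.B2 (actA χ)
  syl : ∀ V : Subgroup D, IsOpen (V : Set D) → ¬ p ∣ V.index →
    ∃ invV : (V → V → QZ p) →+ QZ p, (∀ z, invV z = inv (BKLoc2.corM2 V (actA χ) z)) ∧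
      LocAx p (χ.comp V.subtype) invV (V.index * δ)
  card : ∀ V : Subgroup D, IsOpen (V : Set D) →
    ∀ (k : Type) [Field k] [Finite k] [Algebra (ZMod p) k] (ψ ψ' : V →* kˣ),
    Sm (kch ψ) → Sm (kch ψ') → Rel (χ.comp V.subtype) ψ ψ' →
    Nat.card (BKND.Z1 (kch ψ)) = Nat.card (BKND.H0 (kch ψ')) * Nat.card k ^ (1 + V.index * δ)

end Loc

/-! ### The global axioms -/

/-- `A'` is a normal subgroup of `A` of index prime to `p`, and `A' / U` is a `p`-group. -/
structure Adm (p : ℕ) {G : Type*} [Group G] (U A A' : Subgroup G) : Prop where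
  le : U ≤ A'
  le' : A' ≤ A
  nor : ∀ a ∈ A, ∀ x ∈ A', a * x * a⁻¹ ∈ A'
  idx : ¬ p ∣ A'.relIndex A
  pgr : ∀ x ∈ A', ∃ n : ℕ, x ^ p ^ n ∈ U

/-- The global axioms for the modules induced from characters of subgroups of `G`. -/
structure GlobI (p : ℕ) [Fact p.Prime] {S : Type} [Fintype S] {G : Type} [Group G]
    [TopologicalSpace G] {D : S → Type} [∀ w, Group (D w)] [∀ w, TopologicalSpace (D w)]
    (r : ∀ w, D w →* G) (χ : G →* ℤ_[p]ˣ) (U : Subgroup G) : Prop where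
  two : ∀ A A' : Subgroup G, Adm p U A A' →
    ∀ (k : Type) [Field k] [Finite k] [Algebra (ZMod p) k] (ψ : A →* kˣ),
    (∀ a : A, (a : G) ∈ A' → ψ a = 1) → ∀ z ∈ BKND.Z2 (indM A (kch ψ)),
    (∀ w, pb2 (r w) z ∈ BKND.B2 ((indM A (kch ψ)).comp (r w))) → z ∈ BKND.B2 (indM A (kch ψ))
  one : ∀ A A' : Subgroup G, Adm p U A A' →
    ∀ (k : Type) [Field k] [Finite k] [Algebra (ZMod p) k] (ψ : A →* kˣ),
    (∀ a : A, (a : G) ∈ A' → ψ a = 1) → ∀ f ∈ BKND.Z1 (indM A (kch ψ)),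
    (∀ w, pb1 (r w) f ∈ BKND.B1 ((indM A (kch ψ)).comp (r w))) → f ∈ BKND.B1 (indM A (kch ψ))
  card : ∀ A A' : Subgroup G, Adm p U A A' →
    ∀ (k : Type) [Field k] [Finite k] [Algebra (ZMod p) k] (ψ ψ' : A →* kˣ),
    (∀ a : A, (a : G) ∈ A' → ψ a = 1) → (∀ a : A, (a : G) ∈ A' → ψ' a = 1) →
    Rel (χ.comp A.subtype) ψ ψ' →
    Nat.card (BKND.Z1 (indM A (kch ψ))) * Nat.card (BKND.H0 (indM A (kch ψ'))) =
      Nat.card (IndM A (kch ψ)) ^ 2 * ∏ w, Nat.card (BKND.H0 ((indM A (kch ψ')).comp (r w)))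

section Glob

variable (p : ℕ) [Fact p.Prime] {S : Type} [Fintype S] {G : Type} [Group G]
  [TopologicalSpace G] {D : S → Type} [∀ w, Group (D w)] [∀ w, TopologicalSpace (D w)]
  (Γ : Glo S G D (QZ p) (QZ p))

/-- The axioms for a global situation with coefficients `ℚ_p/ℤ_p(χ)`; the local axioms hold for all
finite modules. -/
structure GAxT (χ : G →* ℤ_[p]ˣ) (δ : S → ℕ) : Prop where
  act : Γ.α = actA χ
  loc : ∀ w, LocG p (χ.comp (Γ.r w)) (Γ.inv w) (δ w)
  sum : ∑ w, δ w = 2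

variable {p}

/-- The global theorems for the pair of finite modules `Y`. -/
structure GoodP {K K' : Type} [AddCommGroup K] [AddCommGroup K'] (Y : Pair ℤ Γ.α K K') :
    Prop where
  fin : Finite K
  two : ∀ z ∈ BKND.Z2 Y.ρ, (∀ w, pb2 (Γ.r w) z ∈ BKND.B2 (Y.ρ.comp (Γ.r w))) →
    z ∈ BKND.B2 Y.ρ
  two' : ∀ z ∈ BKND.Z2 Y.ρ', (∀ w, pb2 (Γ.r w) z ∈ BKND.B2 (Y.ρ'.comp (Γ.r w))) →
    z ∈ BKND.B2 Y.ρ'
  one : ∀ f ∈ BKND.Z1 Y.ρ, (∀ w, pb1 (Γ.r w) f ∈ BKND.B1 (Y.ρ.comp (Γ.r w))) →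
    f ∈ BKND.B1 Y.ρ
  one' : ∀ f ∈ BKND.Z1 Y.ρ', (∀ w, pb1 (Γ.r w) f ∈ BKND.B1 (Y.ρ'.comp (Γ.r w))) →
    f ∈ BKND.B1 Y.ρ'
  card : Nat.card (BKND.Z1 Y.ρ) * Nat.card (BKND.H0 Y.ρ') =
    Nat.card K ^ 2 * ∏ w, Nat.card (BKND.H0 (Y.ρ'.comp (Γ.r w)))
  card' : Nat.card (BKND.Z1 Y.ρ') * Nat.card (BKND.H0 Y.ρ) =
    Nat.card K ^ 2 * ∏ w, Nat.card (BKND.H0 (Y.ρ.comp (Γ.r w)))

end Glob

/-! ### Subquotients -/

section Quo

variable {R : Type} [CommRing R] {G : Type} [Group G] [TopologicalSpace G] {A : Type}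
  [AddCommGroup A] {α : G →* AddMonoid.End A} {M M' : Type} [AddCommGroup M] [Module R M]
  [AddCommGroup M'] [Module R M']

/-- The quotient `N / P` is isomorphic to the first module of the pair `Y` through `φ`, the quotient
of the annihilators is isomorphic to the second module through `φ'`, and the pairings agree. -/
structure IsQuo (X : Pair R α M M') (P N : Submodule R M) {K K' : Type} [AddCommGroup K]
    [AddCommGroup K'] (Y : Pair ℤ α K K') (φ : M → K) (φ' : M' → K') : Prop where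
  add : ∀ x ∈ N, ∀ y ∈ N, φ (x + y) = φ x + φ y
  ker : ∀ x ∈ N, φ x = 0 ↔ x ∈ P
  surj : ∀ a : K, ∃ x ∈ N, φ x = a
  act : ∀ g, ∀ x ∈ N, φ (X.ρ g x) = Y.ρ g (φ x)
  add' : ∀ x ∈ X.perp P, ∀ y ∈ X.perp P, φ' (x + y) = φ' x + φ' y
  ker' : ∀ x ∈ X.perp P, φ' x = 0 ↔ x ∈ X.perp N
  surj' : ∀ a : K', ∃ x ∈ X.perp P, φ' x = a
  act' : ∀ g, ∀ x ∈ X.perp P, φ' (X.ρ' g x) = Y.ρ' g (φ' x)
  pair : ∀ x ∈ N, ∀ y ∈ X.perp P, X.b x y = Y.b (φ x) (φ' y)

variable {p : ℕ} [Fact p.Prime] {β : G →* AddMonoid.End (QZ p)}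

/-- The submodules `P ≤ N` are stable under `H`, the quotient `N / P` is isomorphic to `k(ψ)` as a
module of `H` through `φ`, the quotient of the annihilators is isomorphic to `k(ψ')` through `φ'`,
and the pairing is `lam (φ n * φ' m)`. -/
structure IsLnA (X : Pair R β M M') (H : Subgroup G) (P N : Submodule R M) (k : Type) [Field k]
    (ψ ψ' : H →* kˣ) (lam : k →+ QZ p) (φ : M → k) (φ' : M' → k) : Prop where
  le : P ≤ N
  stab : ∀ h ∈ H, ∀ x ∈ P, X.ρ h x ∈ P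
  stab' : ∀ h ∈ H, ∀ x ∈ N, X.ρ h x ∈ N
  add : ∀ x ∈ N, ∀ y ∈ N, φ (x + y) = φ x + φ y
  ker : ∀ x ∈ N, φ x = 0 ↔ x ∈ P
  surj : ∀ a : k, ∃ x ∈ N, φ x = a
  act : ∀ h : H, ∀ x ∈ N, φ (X.ρ h x) = ((ψ h : kˣ) : k) * φ x
  add' : ∀ x ∈ X.perp P, ∀ y ∈ X.perp P, φ' (x + y) = φ' x + φ' y
  ker' : ∀ x ∈ X.perp P, φ' x = 0 ↔ x ∈ X.perp N
  surj' : ∀ a : k, ∃ x ∈ X.perp P, φ' x = a
  act' : ∀ h : H, ∀ x ∈ X.perp P, φ' (X.ρ' h x) = ((ψ' h : kˣ) : k) * φ' x
  pair : ∀ x ∈ N, ∀ y ∈ X.perp P, X.b x y = lam (φ x * φ' y)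

/-- functions on `G / H` with values in `P` at the class of `1`, and in the translates of `P` at
the other classes -/
def mapS (ρ : G →* AddMonoid.End M) (H : Subgroup G) (P : Submodule ℤ M) :
    Submodule ℤ (G ⧸ H → M) where
  carrier := {f | ∀ g : G, ρ g⁻¹ (f (QuotientGroup.mk g)) ∈ P}
  add_mem' := by
    intro f f' hf hf' g
    rw [Pi.add_apply, map_add]
    exact P.add_mem (hf g) (hf' g)
  zero_mem' := by
    intro g
    rw [Pi.zero_apply, map_zero]
    exact P.zero_mem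
  smul_mem' := by
    intro a f hf g
    rw [Pi.smul_apply, map_zsmul]
    exact P.smul_mem a (hf g)

end Quo

/-! ### The kernel of the pairing -/

section LK

variable {R : Type} [CommRing R] {p : ℕ} [Fact p.Prime] {S : Type} [Fintype S] {G : Type} [Group G]
  [TopologicalSpace G] {D : S → Type} [∀ w, Group (D w)] [∀ w, TopologicalSpace (D w)]
  (Γ : Glo S G D (QZ p) (QZ p)) {M M' : Type} [AddCommGroup M] [Module R M] [AddCommGroup M']
  [Module R M'] (X : Pair R Γ.α M M') (T : Set S) (P N Q : Submodule R M)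

/-- The left kernel of the pairing of the classes with values in `Q / N` with the classes with
values in the annihilator of `P` modulo the annihilator of `N`. -/
def LK : Prop :=
  ∀ x ∈ X.Zr Γ.r T N Q, (∀ y ∈ X.flip.Zr Γ.r Tᶜ (X.perp N) (X.perp P), CT Γ X T x y = 0) →
    ∃ x' ∈ X.Zr Γ.r T P Q, x - x' ∈ X.Br T N Q

/-- the order of the group `H¹_T(Q / P)` -/
def hT : ℕ := (X.Br T P Q).toAddSubgroup.relIndex (X.Zr Γ.r T P Q).toAddSubgroup

open Classical in
/-- The formula for the Euler characteristic. -/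
def EF (δ : S → ℕ) : Prop :=
  hT Γ X T P Q ≠ 0 ∧ hT Γ X.flip Tᶜ (X.perp Q) (X.perp P) ≠ 0 ∧
    hT Γ X T P Q * (P.toAddSubgroup.relIndex Q.toAddSubgroup) ^ (∑ w, if w ∈ T then δ w else 0) =
      hT Γ X.flip Tᶜ (X.perp Q) (X.perp P) * P.toAddSubgroup.relIndex Q.toAddSubgroup

end LK

end BKT
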