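import Pool.Agent.Lib.MP_7c08ba_nt.T1.StF
import Pool.Agent.Lib.MP_7c08ba_nt.Met.V.DESC

set_option autoImplicit false

/-!
Module DESCT: the quotient `GU F P U₀`: the cyclotomic character, complex conjugation and
representations (from the module DESC of `Met/V`).
-/

noncomputable section

namespace BKT

/-- Module DESCT. -/
theorem stDescT : StDescT := by
  intro p _ hp2 F _ _ hF hR c σ hcs P hP U₀ _ _ hU
  exact BKV.stDesc p hp2 F hF hR c σ hcs P hP U₀ hU

end BKT
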