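import Pool.Agent.Lib.MP_7c08ba_nt.Met.HCU
import Pool.Agent.Lib.MP_7c08ba_nt.T1.StG

set_option autoImplicit false

/-!
Module CUT: the structure of the group of `S`-units, for open normal subgroups of arbitrary index.
-/

noncomputable section

namespace BKT

open NumberField IsDedekindDomain BKGen
open BKMet
open BKGlob2 (Cp fs sn CC0 Prin SP US IsAct Dw Dx jw StMU StMI)

namespace GCUT

/-- The field fixed by an open subgroup. -/
theorem exists_field {F : Type} [Field F] [NumberField F] {U : Subgroup (GF F)}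
    (hU : IsOpen (U : Set (GF F))) :
    ∃ (E : IntermediateField F (AlgebraicClosure F)) (_ : NumberField E),
      ∀ x, x ∈ E ↔ ∀ g ∈ U, g x = x := by
  have hfix : (IntermediateField.fixedField U).fixingSubgroup = U :=
    InfiniteGalois.fixingSubgroup_fixedField (⟨U, U.isClosed_of_isOpen hU⟩ :
      ClosedSubgroup (AlgebraicClosure F ≃ₐ[F] AlgebraicClosure F))
  have hfd : FiniteDimensional F (IntermediateField.fixedField U) := by
    rw [← InfiniteGalois.isOpen_iff_finite]
    change IsOpen ((IntermediateField.fixedField U).fixingSubgroup :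
      Set (AlgebraicClosure F ≃ₐ[F] AlgebraicClosure F))
    rw [hfix]
    exact hU
  refine ⟨IntermediateField.fixedField U, NumberField.of_module_finite F _, fun x => ?_⟩
  constructor
  · intro h g hg
    exact h ⟨g, hg⟩
  · intro h g
    exact h g.1 g.2

end GCUT

open BKGlob2.CUaux in
theorem stCut (hMU : StMU) (hMI : StMI) (hPW : StPwt) (hPN : StPnt) (hRK : StRkt) : StCut := by
  classical
  intro p _ F _ _ U _ Λ c₀ cc hS a ha
  have hU : IsOpen (U : Set (GF F)) := hS.sit.open'
  have hfinΔ : Finite (GF F ⧸ U) := U.quotient_finite_of_isOpen hU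
  let _ : Fintype (GF F ⧸ U) := Fintype.ofFinite _
  -- an embedding in ℂ
  obtain ⟨σ⟩ : Nonempty (F →+* ℂ) := inferInstance
  let _ : Algebra F ℂ := σ.toAlgebra
  let φ : AlgebraicClosure F →+* ℂ :=
    (IsAlgClosed.lift (R := F) (M := ℂ) (S := AlgebraicClosure F) :
      AlgebraicClosure F →ₐ[F] ℂ).toRingHom
  obtain ⟨u, hu0, huU, hul, huφ, huP⟩ := hMU F hS.quad hS.imag U hU φ
  choose π hπ0 hπU hπD hπl hπw hπ1 using hPW p F U Λ c₀ cc hS
  -- the elements of US
  let uu : Additive (US F Λ.P U) := Additive.ofMul ⟨Units.mk0 u hu0, huU, fun l _ _ j => hul l j⟩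
  let pp : Λ.ι × Bool → Additive (US F Λ.P U) := fun w =>
    Additive.ofMul ⟨Units.mk0 (π w) (hπ0 w), hπU w, fun l _ hl j => hπl w l hl j⟩
  have vu : vl uu = u := rfl
  have vp : ∀ w, vl (pp w) = π w := fun w => rfl
  let b : Option (Λ.ι × Bool) → Additive (US F Λ.P U) := fun w => w.elim uu pp
  let ε : Option (Λ.ι × Bool) → ℤ := fun w => w.elim 1 (fun _ => 0)
  have hb : ∀ w, ∀ h ∈ Dx U Λ cc w, a h (b w) = b w := by
    intro w h hh
    rcases w with _ | w
    · have : h = 1 := Subgroup.mem_bot.mp hh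
      rw [this, map_one]
      rfl
    · obtain ⟨τ, hτ⟩ := hh
      have h1 : (QuotientGroup.mk (Λ.loc (MonoidHom.id (GF F)) cc w τ) : GF F ⧸ U) = h := hτ
      apply Additive.toMul.injective
      apply Subtype.ext
      apply Units.ext
      have h2 : vl (a h (pp w)) = vl (pp w) := by
        rw [vl_act ha, vp]
        have h3 : (QuotientGroup.mk h.out : GF F ⧸ U) =
            QuotientGroup.mk (Λ.loc (MonoidHom.id (GF F)) cc w τ) := by
          rw [QuotientGroup.out_eq', h1]
        rw [fix_eq (hπU w) h3]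
        exact hπD w τ
      exact h2
  let g : ∀ w : Option (Λ.ι × Bool), ((GF F ⧸ U) ⧸ Dx U Λ cc w) → Additive (US F Λ.P U) × ℤ :=
    fun w t => (a t.out (b w), ε w)
  have hfin : ∀ w : Option (Λ.ι × Bool), Finite ((GF F ⧸ U) ⧸ Dx U Λ cc w) := fun w =>
    inferInstance
  let _ : ∀ w : Option (Λ.ι × Bool), Fintype ((GF F ⧸ U) ⧸ Dx U Λ cc w) := fun w =>
    Fintype.ofFinite _
  have hlin : LinearIndependent ℤ (fun x : Σ w, (GF F ⧸ U) ⧸ Dx U Λ cc w => g x.1 x.2) := by
    rw [Fintype.linearIndependent_iff]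
    intro c hc
    have hc1 : ∑ x : (Σ w, (GF F ⧸ U) ⧸ Dx U Λ cc w), c x • (a x.2.out (b x.1)) = 0 := by
      have := congrArg Prod.fst hc
      rw [Prod.fst_sum] at this
      exact this
    have hc2 : ∑ x : (Σ w, (GF F ⧸ U) ⧸ Dx U Λ cc w), c x * ε x.1 = 0 := by
      have := congrArg Prod.snd hc
      rw [Prod.snd_sum] at this
      exact this
    -- a logarithm applied to the relation
    have hL : ∀ {L : Type} [NormedField L] (ψ : AlgebraicClosure F →+* L),
        ∑ x : (Σ w, (GF F ⧸ U) ⧸ Dx U Λ cc w),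
          (c x : ℝ) * Real.log ‖ψ (x.2.out.out (vl (b x.1)))‖ = 0 := by
      intro L _ ψ
      have h := congrArg (LN (P := Λ.P) (U := U) ψ) hc1
      rw [map_sum, map_zero] at h
      rw [← h]
      refine Finset.sum_congr rfl fun x _ => ?_
      rw [map_zsmul, LN_apply, vl_act ha, zsmul_eq_mul]
    -- the coefficients of the elements `π`
    have hs : ∀ (w₀ : Λ.ι × Bool) (t₀ : (GF F ⧸ U) ⧸ Dx U Λ cc (some w₀)),
        c ⟨some w₀, t₀⟩ = 0 := by
      intro w₀ t₀
      set g' : GF F := (t₀.out⁻¹).out with hg'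
      have hg'm : (QuotientGroup.mk g' : GF F ⧸ U) = t₀.out⁻¹ := QuotientGroup.out_eq' _
      have h := hL ((jw Λ c₀ w₀).comp (g' : AlgebraicClosure F →+* AlgebraicClosure F))
      rw [Finset.sum_eq_single (⟨some w₀, t₀⟩ : Σ w, (GF F ⧸ U) ⧸ Dx U Λ cc w)] at h
      · rcases mul_eq_zero.mp h with h1 | h1
        · exact_mod_cast h1
        · exfalso
          have h2 : g' (t₀.out.out (π w₀)) = π w₀ := by
            have h3 : (QuotientGroup.mk (g' * t₀.out.out) : GF F ⧸ U) = QuotientGroup.mk 1 := by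
              rw [QuotientGroup.mk_mul, hg'm, QuotientGroup.out_eq', inv_mul_cancel]
              rfl
            have h4 := fix_eq (hπU w₀) h3
            rw [AlgEquiv.mul_apply] at h4
            exact h4
          have h3 : Real.log ‖jw Λ c₀ w₀ (g' (t₀.out.out (π w₀)))‖ = 0 := h1
          rw [h2] at h3
          have h4 : 0 < ‖jw Λ c₀ w₀ (π w₀)‖ :=
            norm_pos_iff.mpr ((map_ne_zero _).mpr (hπ0 w₀))
          exact absurd h3 (Real.log_neg h4 (hπw w₀)).ne
      · rintro ⟨w, t⟩ - hne
        have key : ‖jw Λ c₀ w₀ (g' (t.out.out (vl (b w))))‖ = 1 := by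
          rcases w with _ | w
          · exact hul (Λ.l w₀.1) (((jw Λ c₀ w₀).comp
              (g' : AlgebraicClosure F →+* AlgebraicClosure F)).comp
                (t.out.out : AlgebraicClosure F →+* AlgebraicClosure F))
          · have h5 := hπ1 w w₀ (g' * t.out.out)
            rw [AlgEquiv.mul_apply] at h5
            refine h5 ?_
            by_cases hw : w₀ = w
            · right
              subst hw
              rw [QuotientGroup.mk_mul, hg'm, QuotientGroup.out_eq']
              intro h6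
              apply hne
              have h7 : (QuotientGroup.mk t₀.out : (GF F ⧸ U) ⧸ Dx U Λ cc (some w₀)) =
                  QuotientGroup.mk t.out := QuotientGroup.eq.mpr h6
              rw [QuotientGroup.out_eq', QuotientGroup.out_eq'] at h7
              rw [h7]
            · exact Or.inl hw
        have key' : Real.log ‖((jw Λ c₀ w₀).comp
            (g' : AlgebraicClosure F →+* AlgebraicClosure F)) (t.out.out (vl (b w)))‖ = 0 := by
          change Real.log ‖jw Λ c₀ w₀ (g' (t.out.out (vl (b w))))‖ = 0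
          rw [key, Real.log_one]
        rw [key', mul_zero]
      · intro h
        exact absurd (Finset.mem_univ _) h
    -- the coefficients of the unit
    set x : (GF F ⧸ U) → ℤ := fun d => c ⟨none, (QuotientGroup.mk d : (GF F ⧸ U) ⧸ (⊥ : Subgroup _))⟩
      with hx
    have hred : ∀ f : (Σ w, (GF F ⧸ U) ⧸ Dx U Λ cc w) → ℝ,
        ∑ y : (Σ w, (GF F ⧸ U) ⧸ Dx U Λ cc w), (c y : ℝ) * f y =
          ∑ d : GF F ⧸ U, (x d : ℝ) *
            f ⟨none, (QuotientGroup.mk d : (GF F ⧸ U) ⧸ (⊥ : Subgroup _))⟩ := by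
      intro f
      rw [Fintype.sum_sigma, Fintype.sum_option]
      have h0 : ∑ w : Λ.ι × Bool, ∑ t : (GF F ⧸ U) ⧸ Dx U Λ cc (some w),
          (c ⟨some w, t⟩ : ℝ) * f ⟨some w, t⟩ = 0 := by
        refine Finset.sum_eq_zero fun w _ => Finset.sum_eq_zero fun t _ => ?_
        rw [hs w t]
        simp
      rw [h0, add_zero]
      have hb := Fintype.sum_bijective
        (fun d : GF F ⧸ U => (QuotientGroup.mk d : (GF F ⧸ U) ⧸ Dx U Λ cc none))
        (bij_bot (Δ := GF F ⧸ U))
        (fun d => (x d : ℝ) * f ⟨none, (QuotientGroup.mk d : (GF F ⧸ U) ⧸ Dx U Λ cc none)⟩)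
        (fun t => (c ⟨none, t⟩ : ℝ) * f ⟨none, t⟩) (fun d => rfl)
      exact hb.symm
    have hx0 : ∀ d, x d = 0 := by
      have hm := hMI (GF F ⧸ U) (fun d => Real.log ‖φ (d.out u)‖) (by
        intro d hd
        have h1 : d.out ∉ U := by
          intro h
          apply hd
          rw [← QuotientGroup.out_eq' d]
          exact (QuotientGroup.eq_one_iff _).mpr h
        refine Real.log_neg ?_ (huφ _ h1)
        exact norm_pos_iff.mpr ((map_ne_zero _).mpr ((map_ne_zero _).mpr hu0))) (by
        rw [finprod_eq_prod_of_fintype] at huP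
        rw [← Real.log_prod, huP, Real.log_one]
        intro d _
        exact norm_ne_zero_iff.mpr ((map_ne_zero _).mpr ((map_ne_zero _).mpr hu0))) x (by
        intro d'
        have h1 := hL (φ.comp ((d'⁻¹).out : AlgebraicClosure F →+* AlgebraicClosure F))
        rw [hred] at h1
        rw [← h1]
        refine Finset.sum_congr rfl fun d _ => ?_
        have h2 : ((d'⁻¹ * d).out : GF F) u = (d'⁻¹).out (d.out u) := by
          have h3 : (QuotientGroup.mk (d'⁻¹ * d).out : GF F ⧸ U) =
              QuotientGroup.mk ((d'⁻¹).out * d.out) := by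
            rw [QuotientGroup.mk_mul, QuotientGroup.out_eq', QuotientGroup.out_eq',
              QuotientGroup.out_eq']
          rw [fix_eq huU h3, AlgEquiv.mul_apply]
        have h4 : (QuotientGroup.mk d : (GF F ⧸ U) ⧸ (⊥ : Subgroup (GF F ⧸ U))).out = d :=
          mk_out_bot d
        change Real.log ‖φ ((d'⁻¹ * d).out u)‖ * (x d : ℝ) = (x d : ℝ) *
          Real.log ‖φ ((d'⁻¹).out
            ((QuotientGroup.mk d : (GF F ⧸ U) ⧸ (⊥ : Subgroup (GF F ⧸ U))).out.out u))‖
        rw [h4, h2, mul_comm])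
      have hsum : ∑ d : GF F ⧸ U, x d = 0 := by
        have h1 := hred (fun y => (ε y.1 : ℝ))
        have h2 : ∑ y : (Σ w, (GF F ⧸ U) ⧸ Dx U Λ cc w), (c y : ℝ) * (ε y.1 : ℝ) = 0 := by
          exact_mod_cast hc2
        rw [h2] at h1
        have h3 : ∑ d : GF F ⧸ U, (x d : ℝ) * ((1 : ℤ) : ℝ) = 0 := h1.symm
        have h4 : ((∑ d : GF F ⧸ U, x d : ℤ) : ℝ) = 0 := by
          rw [Int.cast_sum]
          rw [← h3]
          refine Finset.sum_congr rfl fun d _ => by simp
        exact_mod_cast h4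
      have h1 : (Fintype.card (GF F ⧸ U) : ℤ) * x 1 = 0 := by
        rw [← hsum, Finset.sum_congr rfl fun d _ => hm d, Finset.sum_const, Finset.card_univ,
          nsmul_eq_mul]
      have h2 : x 1 = 0 := by
        rcases mul_eq_zero.mp h1 with h | h
        · exfalso
          have : Fintype.card (GF F ⧸ U) ≠ 0 := Fintype.card_ne_zero
          exact this (by exact_mod_cast h)
        · exact h
      intro d
      rw [hm d, h2]
    rintro ⟨w, t⟩
    rcases w with _ | w
    · have h := hx0 (t.out)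
      have h1 : (QuotientGroup.mk t.out : (GF F ⧸ U) ⧸ (⊥ : Subgroup (GF F ⧸ U))) = t :=
        QuotientGroup.out_eq' t
      simp only [hx] at h
      rw [h1] at h
      exact h
    · exact hs w t
  refine ⟨g, ?_, hlin, ?_⟩
  · intro d w t
    obtain ⟨h, hh, he⟩ := out_smul (Dx U Λ cc w) d t
    change (a (d • t).out (b w), ε w) = (a d (a t.out (b w)), ε w)
    rw [he, map_mul, map_mul]
    change (a d (a t.out (a h (b w))), ε w) = _
    rw [hb w h hh]
  · obtain ⟨E, _, hE⟩ := GCUT.exists_field hU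
    obtain ⟨hF, hr⟩ := hRK p F hS.quad Λ.P U E hS.sit hE
    have hN := hPN p F U E Λ c₀ cc hS hE
    have := hF
    refine index_ne hlin ?_
    have h1 : Module.finrank ℤ (Additive (US F Λ.P U) × ℤ) =
        Module.finrank ℤ (Additive (US F Λ.P U)) + 1 := finrank_prodZ
    rw [h1, hr, hN, Fintype.card_sigma, Fintype.sum_option]
    have h2 : Fintype.card ((GF F ⧸ U) ⧸ Dx U Λ cc none) = U.index := by
      have h3 : Fintype.card (GF F ⧸ U) = Fintype.card ((GF F ⧸ U) ⧸ Dx U Λ cc none) :=
        Fintype.card_of_bijective (bij_bot (Δ := GF F ⧸ U))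
      rw [← h3, Subgroup.index, Nat.card_eq_fintype_card]
    rw [h2]
    congr 1
    refine Finset.sum_congr rfl fun w _ => ?_
    exact (Nat.card_eq_fintype_card (α := (GF F ⧸ U) ⧸ Dx U Λ cc (some w))).symm

end BKT
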