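import Pool.Agent.Lib.MP_7c08ba_nt.T1.StGN
import Pool.Agent.Lib.MP_7c08ba_nt.Met.HRA

set_option autoImplicit false

/-!
Parity for general residual representations and arbitrary ramification at the primes which do not
split, module NRA: a class of the group `GF F` which is trivial at the places outside `P` becomes
trivial far up in the cyclotomic extension.
-/

noncomputable section

namespace BKT

open NumberField IsDedekindDomain BKGen
open BKPar (Loc1 Loc2)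
open BKND (Sm)
open BKMet
open BKLoc2 (hq ht cl sc cy cyL Sys IsKP IsLam IsHom corM2)
open BKGlob2 (Cp fs sn CC0 Prin SP US IsAct InvL)
open BKV (RU GU dc)
open BKOdd (nonarch_subgroup)

namespace GNNRA

open BKGlob2.RAAux

/-- one place -/
theorem placeD {p : ℕ} [Fact p.Prime] {F : Type} [Field F] [NumberField F]
    (h4 : BKGlob2.StCV) {lam : ℤ_[p]ˣ → ℤ_[p]}
    {α : GF F → GF F → QZ p} (hα : α ∈ BKND.Z2 (actA (cycF p F)))
    (hsm : ∀ m : QZ p, ∃ W : Subgroup (GF F), IsOpen (W : Set (GF F)) ∧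
      ∀ w ∈ W, actA (cycF p F) w m = m)
    {l : ℕ} [Fact l.Prime] {D : Type} [Group D] [TopologicalSpace D]
    (r : D →* GF F) (hr : Continuous r) (χ : D →* ℤ_[p]ˣ)
    (hχ : ∀ t, cycF p F (r t) = χ t) {M : ℕ}
    (hKL : ∀ U : Subgroup D, (∀ g, g ∈ U ↔ (p : ℤ_[p]) ^ M ∣ lam (χ g)) →
      (fun a b : U => pb2 r α a b) ∈ BKND.B2 (actA (χ.comp U.subtype)))
    (U : Subgroup (GF F)) (hU : ∀ g, g ∈ U ↔ (p : ℤ_[p]) ^ M ∣ lam (cycF p F g))
    (j : AlgebraicClosure F →+* PadicAlgCl l) [CompactSpace (Cp U.subtype j)]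
    (hfs : Continuous (fs U.subtype j)) (g : GF F)
    (s : Cp (MonoidHom.id (GF F)) j →* D) (hs : Continuous s)
    (hgs : ∀ d, fs (MonoidHom.id (GF F)) j d = g⁻¹ * r (s d) * g) :
    pb2 (fs U.subtype j) (fun a b : U => α a b) ∈
      BKND.B2 (actA (((cycF p F).comp U.subtype).comp (fs U.subtype j))) := by
  have hUr : ∀ t, t ∈ U.comap r ↔ (p : ℤ_[p]) ^ M ∣ lam (χ t) := by
    intro t
    rw [Subgroup.mem_comap, hU, hχ]
  have h1 := hKL (U.comap r) hUr
  -- the map to the local group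
  have hmem : ∀ d : Cp U.subtype j, s (io U j d) ∈ U.comap r := by
    intro d
    have h5 : ((fs U.subtype j d : U) : GF F) = g⁻¹ * r (s (io U j d)) * g := hgs (io U j d)
    have h6 := (hU _).1 (fs U.subtype j d).2
    rw [h5, map_mul, map_mul, map_inv, mul_comm, mul_inv_cancel_left] at h6
    rw [Subgroup.mem_comap, hU]
    exact h6
  let s' : Cp U.subtype j →* U.comap r := (s.comp (io U j)).codRestrict (U.comap r) hmem
  have hs' : Continuous s' := (hs.comp (io_cont U j)).subtype_mk _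
  have h7 := (h4 (GF F) (U.comap r) (Cp U.subtype j) (r.comp (U.comap r).subtype)
    (U.subtype.comp (fs U.subtype j)) s' (hr.comp continuous_subtype_val)
    (continuous_subtype_val.comp hfs) hs' g (fun d => hgs (io U j d)) (QZ p)
    (actA (cycF p F)) hsm).1 α hα
  refine h7 ?_
  have h8 : (actA (cycF p F)).comp (r.comp (U.comap r).subtype) =
      actA (χ.comp (U.comap r).subtype) := by
    ext1 t
    have h9 : cycF p F (r (t : D)) = χ (t : D) := hχ t
    change actA (cycF p F) (r (t : D)) = actA χ (t : D)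
    ext x
    rw [BKMet.actA_apply, BKMet.actA_apply, h9]
  rw [h8]
  exact h1

end GNNRA

open GNNRA BKGlob2.RAAux

/-- Module NRA: a class of the group `GF F` which is trivial at the places outside `P` becomes
trivial far up in the cyclotomic extension. -/
theorem stNra (h1 : StNkl) (h2 : BKGlob2.StKL) (h3 : BKGlob2.StHA) (h4 : BKGlob2.StCJ)
    (h5 : BKGlob2.StCV) (h6 : BKGlob2.StCY) (h7 : BKGlob2.StCP) (h8 : StNpl) (h9 : StMix) :
    StNra := by
  intro p hp hp2 F iF iN hdim hre Λ Ξ hsp lam hlam α hα hloc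
  obtain ⟨c₀, hc₀⟩ := exists_isConj F hre
  obtain ⟨⟨cc, hcc⟩, -⟩ := h4 F hdim hre c₀ hc₀
  obtain ⟨hgood, hP⟩ := h9 F hdim hre c₀ cc hcc Λ Ξ hsp
  have : NonarchimedeanGroup (GF F) := nonarchF F
  have hχc : Continuous (cycF p F) := cyclotomicCharacter.continuous p F (AlgebraicClosure F)
  -- the characters
  have hr : ∀ (w : (mix Λ Ξ c₀ cc).S) (d : (mix Λ Ξ c₀ cc).D w),
      cycF p F ((mix Λ Ξ c₀ cc).r w d) =
        cyL p ((mix Λ Ξ c₀ cc).m w) ((mix Λ Ξ c₀ cc).q w d) := fun w d =>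
    (h6 p F (AlgebraicClosure F) ℚ_[(mix Λ Ξ c₀ cc).m w]
      (PadicAlgCl ((mix Λ Ξ c₀ cc).m w))).2 ((mix Λ Ξ c₀ cc).J w) ((mix Λ Ξ c₀ cc).r w d)
      ((mix Λ Ξ c₀ cc).q w d) (hgood.spec w d)
  -- far up
  have hkey : ∀ w : (mix Λ Ξ c₀ cc).S, ∃ M₀ : ℕ, ∀ M ≥ M₀,
      ∀ U : Subgroup ((mix Λ Ξ c₀ cc).D w),
      (∀ g, g ∈ U ↔ (p : ℤ_[p]) ^ M ∣
        lam (((cyL p ((mix Λ Ξ c₀ cc).m w)).comp ((mix Λ Ξ c₀ cc).q w)) g)) →
      (fun a b : U => pb2 ((mix Λ Ξ c₀ cc).r w) α a b) ∈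
        BKND.B2 (actA (((cyL p ((mix Λ Ξ c₀ cc).m w)).comp
          ((mix Λ Ξ c₀ cc).q w)).comp U.subtype)) := by
    intro w
    have hz : pb2 ((mix Λ Ξ c₀ cc).r w) α ∈ BKND.Z2 (actA
        ((cyL p ((mix Λ Ξ c₀ cc).m w)).comp ((mix Λ Ξ c₀ cc).q w))) := by
      refine Z2_pb (hgood.cont w) (fun d => ?_) hα
      ext x
      rw [BKMet.actA_apply, BKMet.actA_apply, hr w d]
      rfl
    rcases w with w | k
    · exact h2 p (Λ.l w.1) hp2 lam hlam _ hz
    · obtain ⟨hVo, -, hVi, -⟩ := (h8 F hdim).2 Ξ k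
      refine h1 p (Ξ.m k) hp2 lam hlam (Ξ.V k) hVo ?_ _ hz
      rw [hVi]
      intro hd
      exact hp2 ((Nat.prime_dvd_prime_iff_eq hp.out Nat.prime_two).1 hd)
  choose M₁ hM₁ using hkey
  refine ⟨∑ w, M₁ w, fun M hM U hU => ?_⟩
  have hle : ∀ w, M₁ w ≤ M := fun w =>
    (Finset.single_le_sum (f := M₁) (fun _ _ => Nat.zero_le _) (Finset.mem_univ w)).trans hM
  -- the group `U`
  have hUo : IsOpen (U : Set (GF F)) := by
    have h7 : (U : Set (GF F)) = (fun g => lam (cycF p F g)) ⁻¹' {x | (p : ℤ_[p]) ^ M ∣ x} := by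
      ext g
      exact hU g
    rw [h7]
    exact (isOpen_dvd p M).preimage (hlam.cont.comp hχc)
  have cU : CompactSpace U := isCompact_iff_compactSpace.1 (U.isClosed_of_isOpen hUo).isCompact
  have nU : NonarchimedeanGroup U := nonarch_subgroup U
  have hoe : Topology.IsOpenEmbedding (U.subtype : U → GF F) := hUo.isOpenEmbedding_subtypeVal
  refine h3 p hp2 F (AlgebraicClosure F) U U.subtype hoe _
    (Z2_pb (f := U.subtype) continuous_subtype_val (fun _ => rfl) hα) ?_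
  intro l hl j
  by_cases hlP : l ∈ Λ.P ∪ Ξ.P
  · obtain ⟨-, hfs, hcs, -, -⟩ := h7 F (AlgebraicClosure F) U U.subtype hoe l j
    have hsm : ∀ m : QZ p, ∃ W : Subgroup (GF F), IsOpen (W : Set (GF F)) ∧
        ∀ w ∈ W, actA (cycF p F) w m = m := by
      intro m
      obtain ⟨W, hW, hw⟩ := BKLoc2.PAAux.smooth_act hχc (β := fun _ => m)
        ⟨⊤, isOpen_univ, fun _ _ _ => rfl⟩
      exact ⟨W, hW, fun w hw' => hw w hw' 1⟩
    obtain ⟨w, g, -, s, hs, hgs⟩ := hgood.cov l (by rw [hP]; exact hlP) j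
    exact placeD h5 hα hsm ((mix Λ Ξ c₀ cc).r w) (hgood.cont w)
      ((cyL p ((mix Λ Ξ c₀ cc).m w)).comp ((mix Λ Ξ c₀ cc).q w)) (hr w)
      (hM₁ w M (hle w)) U hU j hfs g s hs hgs
  · exact B2_pb (f := io U j) (io_cont U j) (fun _ => rfl) (hloc l hlP j)

end BKT
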