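import Pool.Agent.Lib.MP_7c08ba_nt.T1.Defs

set_option autoImplicit false

/-!
Shapiro's lemma: a one-class or a two-class with values in an induced module is trivial if its
image with values in the module is trivial.
-/

noncomputable section

namespace BKT

open BKPar (Loc1 Loc2)
open BKND (Sm)
open BKMet

namespace GSH

variable {G : Type*} [Group G] (A : Subgroup G) {N : Type*} [AddCommGroup N]
  (σ : A →* AddMonoid.End N)

/-- evaluation at `1` -/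
def ev : IndM A σ →+ N where
  toFun f := (f : G → N) 1
  map_zero' := rfl
  map_add' _ _ := rfl

variable {A σ}

theorem ev_act (a : A) (f : IndM A σ) : ev A σ (indM A σ (a : G) f) = σ a (ev A σ f) := by
  change (f : G → N) ((a : G)⁻¹ * 1) = σ a ((f : G → N) 1)
  have h := f.2 1 a⁻¹
  rw [inv_inv, one_mul] at h
  rw [mul_one]
  exact h

theorem val_mul (f : IndM A σ) (g : G) (a : A) :
    (f : G → N) (g * a) = σ a⁻¹ ((f : G → N) g) := f.2 g a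

theorem σ_inv (a : A) (x : N) : σ a (σ a⁻¹ x) = x := by
  change (σ a * σ a⁻¹) x = x
  rw [← map_mul, mul_inv_cancel, map_one]
  rfl

theorem σ_inv' (a : A) (x : N) : σ a⁻¹ (σ a x) = x := by
  change (σ a⁻¹ * σ a) x = x
  rw [← map_mul, inv_mul_cancel, map_one]
  rfl

variable [TopologicalSpace G] [IsTopologicalGroup G]

/-- the image of a cocycle -/
theorem ev_Z1 {f : G → IndM A σ} (hf : f ∈ BKND.Z1 (indM A σ)) :
    (fun a : A => ev A σ (f a)) ∈ BKND.Z1 σ := by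
  obtain ⟨⟨W, hW, h1⟩, h2⟩ := hf
  refine ⟨⟨W.comap A.subtype, hW.preimage continuous_subtype_val, fun a w hw => ?_⟩, fun a b => ?_⟩
  · change ev A σ (f ((a : G) * (w : G))) = ev A σ (f a)
    rw [h1 (a : G) (w : G) hw]
  · change ev A σ (f (a * b)) = ev A σ (f a) + σ a (ev A σ (f b))
    rw [h2, map_add, ev_act]

theorem ev_Z2 {z : G → G → IndM A σ} (hz : z ∈ BKND.Z2 (indM A σ)) :
    (fun a b : A => ev A σ (z a b)) ∈ BKND.Z2 σ := by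
  obtain ⟨⟨W, hW, h1⟩, h2⟩ := hz
  refine ⟨⟨W.comap A.subtype, hW.preimage continuous_subtype_val, fun a b w hw w' hw' => ?_⟩,
    fun a b c => ?_⟩
  · change ev A σ (z ((a : G) * (w : G)) ((b : G) * (w' : G))) = ev A σ (z a b)
    rw [h1 (a : G) (b : G) (w : G) hw (w' : G) hw']
  · have h3 := congrArg (ev A σ) (h2 a b c)
    rw [map_zero, map_sub, map_add, map_sub, ev_act] at h3
    exact h3

/-- **Shapiro's lemma** for one-classes. -/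
theorem sh1 {f : G → IndM A σ} (hf : f ∈ BKND.Z1 (indM A σ))
    (h : (fun a : A => ev A σ (f a)) ∈ BKND.B1 σ) : f ∈ BKND.B1 (indM A σ) := by
  obtain ⟨n, hn⟩ := h
  have hn' : ∀ a : A, (f (a : G) : G → N) 1 = σ a n - n := hn
  have h2 := hf.2
  have key : ∀ g x : G, (f (g * x) : G → N) (g * x) =
      (f g : G → N) (g * x) + (f x : G → N) x := by
    intro g x
    have h3 := congrArg (fun F : IndM A σ => (F : G → N) (g * x)) (h2 g x)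
    change (f (g * x) : G → N) (g * x) = (f g : G → N) (g * x) +
      (f x : G → N) (g⁻¹ * (g * x)) at h3
    rw [inv_mul_cancel_left] at h3
    exact h3
  refine ⟨⟨fun x => n - (f x : G → N) x, fun x a => ?_⟩, fun g => ?_⟩
  · change n - (f (x * (a : G)) : G → N) (x * (a : G)) = σ a⁻¹ (n - (f x : G → N) x)
    rw [key x a, map_sub, val_mul (f x) x a]
    have h3 : (f (a : G) : G → N) (a : G) = σ a⁻¹ ((f (a : G) : G → N) 1) := by
      have := val_mul (f (a : G)) 1 a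
      rwa [one_mul] at this
    rw [h3, hn', map_sub, σ_inv']
    abel
  · refine Subtype.ext (funext fun x => ?_)
    change (f g : G → N) x = (n - (f (g⁻¹ * x) : G → N) (g⁻¹ * x)) - (n - (f x : G → N) x)
    have h3 := key g (g⁻¹ * x)
    rw [mul_inv_cancel_left] at h3
    rw [h3]
    abel

/-- the projection to `A` -/
def pr (A : Subgroup G) (g : G) : G := g * (QuotientGroup.mk g⁻¹ : G ⧸ A).out

omit [TopologicalSpace G] [IsTopologicalGroup G] in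
theorem pr_mem (g : G) : pr A g ∈ A := by
  have h : g⁻¹⁻¹ * (QuotientGroup.mk g⁻¹ : G ⧸ A).out ∈ A :=
    QuotientGroup.eq.1 (QuotientGroup.out_eq' (QuotientGroup.mk g⁻¹ : G ⧸ A)).symm
  rwa [inv_inv] at h

omit [TopologicalSpace G] [IsTopologicalGroup G] in
theorem pr_mul {a : G} (ha : a ∈ A) (g : G) : pr A (a * g) = a * pr A g := by
  have h : (QuotientGroup.mk (a * g)⁻¹ : G ⧸ A) = QuotientGroup.mk g⁻¹ := by
    rw [QuotientGroup.eq, inv_inv, mul_inv_cancel_right]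
    exact ha
  unfold pr
  rw [h, mul_assoc]

omit [TopologicalSpace G] [IsTopologicalGroup G] in
theorem pr_right {W : Subgroup G} (hn : W.Normal) (hWA : W ≤ A) {w : G} (hw : w ∈ W) (g : G) :
    ∃ w' ∈ W, pr A (g * w) = pr A g * w' := by
  have h : (QuotientGroup.mk (g * w)⁻¹ : G ⧸ A) = QuotientGroup.mk g⁻¹ := by
    rw [QuotientGroup.eq, inv_inv]
    exact hWA (hn.conj_mem w hw g)
  refine ⟨(QuotientGroup.mk g⁻¹ : G ⧸ A).out⁻¹ * w * (QuotientGroup.mk g⁻¹ : G ⧸ A).out, ?_, ?_⟩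
  · have := hn.conj_mem w hw (QuotientGroup.mk g⁻¹ : G ⧸ A).out⁻¹
    rwa [inv_inv] at this
  · unfold pr
    rw [h]
    group

/-- **Shapiro's lemma** for two-classes. -/
theorem sh2 [CompactSpace G] (hA : IsOpen (A : Set G)) {z : G → G → IndM A σ}
    (hz : z ∈ BKND.Z2 (indM A σ)) (h : (fun a b : A => ev A σ (z a b)) ∈ BKND.B2 σ) :
    z ∈ BKND.B2 (indM A σ) := by
  obtain ⟨⟨Wz, hWz, hzl⟩, hzc⟩ := hz
  obtain ⟨b, ⟨Wb, hWb, hbl⟩, hb⟩ := h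
  -- a small normal subgroup
  have hV0 : IsOpen ((Wz ⊓ Wb.map A.subtype : Subgroup G) : Set G) := by
    rw [Subgroup.coe_inf]
    refine hWz.inter ?_
    rw [Subgroup.coe_map]
    exact hA.isOpenMap_subtype_val _ hWb
  obtain ⟨W, hWn, hWo, hWV⟩ : ∃ W : Subgroup G, W.Normal ∧ IsOpen (W : Set G) ∧
      W ≤ Wz ⊓ Wb.map A.subtype := by
    have hfq : Finite (G ⧸ (Wz ⊓ Wb.map A.subtype)) := Subgroup.quotient_finite_of_isOpen _ hV0
    have hfi : (Wz ⊓ Wb.map A.subtype).FiniteIndex := Subgroup.finiteIndex_of_finite_quotient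
    have hcl := (Wz ⊓ Wb.map A.subtype).normalCore_isClosed (Subgroup.isClosed_of_isOpen _ hV0)
    have hfi' := Subgroup.finiteIndex_normalCore (Wz ⊓ Wb.map A.subtype)
    exact ⟨_, inferInstance, Subgroup.isOpen_of_isClosed_of_finiteIndex _ hcl,
      Subgroup.normalCore_le _⟩
  have hWz' : ∀ w ∈ W, w ∈ Wz := fun w hw => (hWV hw).1
  have hWA : W ≤ A := by
    intro w hw
    obtain ⟨a, -, rfl⟩ := (hWV hw).2
    exact a.2
  have hWb' : ∀ (w : G) (hw : w ∈ W), (⟨w, hWA hw⟩ : A) ∈ Wb := by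
    intro w hw
    obtain ⟨a, ha, hh⟩ := (hWV hw).2
    have : (⟨w, hWA hw⟩ : A) = a := Subtype.ext hh.symm
    rw [this]
    exact ha
  -- the homogeneous cochains
  let φ : G → G → G → N := fun g0 g1 g2 => (z (g0⁻¹ * g1) (g1⁻¹ * g2) : G → N) g0⁻¹
  have φ_eq : ∀ g0 g1 g2, φ g0 g1 g2 = (z (g0⁻¹ * g1) (g1⁻¹ * g2) : G → N) g0⁻¹ :=
    fun _ _ _ => rfl
  have φ_A : ∀ (a : A) (g0 g1 g2 : G), φ (a * g0) (a * g1) (a * g2) = σ a (φ g0 g1 g2) := by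
    intro a g0 g1 g2
    have e1 : ((a : G) * g0)⁻¹ * (a * g1) = g0⁻¹ * g1 := by group
    have e2 : ((a : G) * g1)⁻¹ * (a * g2) = g1⁻¹ * g2 := by group
    have e3 : ((a : G) * g0)⁻¹ = g0⁻¹ * ((a⁻¹ : A) : G) := by
      rw [mul_inv_rev]
      rfl
    rw [φ_eq, φ_eq, e1, e2, e3, val_mul, inv_inv]
  have φ_c : ∀ g0 g1 g2 g3, φ g1 g2 g3 - φ g0 g2 g3 + φ g0 g1 g3 - φ g0 g1 g2 = 0 := by
    intro g0 g1 g2 g3
    have h3 := congrArg (fun F : IndM A σ => (F : G → N) g0⁻¹)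
      (hzc (g0⁻¹ * g1) (g1⁻¹ * g2) (g2⁻¹ * g3))
    have e1 : g0⁻¹ * g1 * (g1⁻¹ * g2) = g0⁻¹ * g2 := by group
    have e2 : g1⁻¹ * g2 * (g2⁻¹ * g3) = g1⁻¹ * g3 := by group
    have e3 : (g0⁻¹ * g1)⁻¹ * g0⁻¹ = g1⁻¹ := by group
    rw [e1, e2] at h3
    change (z (g1⁻¹ * g2) (g2⁻¹ * g3) : G → N) ((g0⁻¹ * g1)⁻¹ * g0⁻¹) -
      (z (g0⁻¹ * g2) (g2⁻¹ * g3) : G → N) g0⁻¹ + (z (g0⁻¹ * g1) (g1⁻¹ * g3) : G → N) g0⁻¹ -
      (z (g0⁻¹ * g1) (g1⁻¹ * g2) : G → N) g0⁻¹ = 0 at h3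
    rw [e3] at h3
    exact h3
  let π : G → A := fun g => ⟨pr A g, pr_mem g⟩
  have π_A : ∀ (a : A) (g : G), π (a * g) = a * π g := fun a g =>
    Subtype.ext (pr_mul a.2 g)
  let bh : A → A → N := fun a0 a1 => σ a0 (b (a0⁻¹ * a1))
  have φ_b : ∀ a0 a1 a2 : A, φ a0 a1 a2 = bh a1 a2 - bh a0 a2 + bh a0 a1 := by
    intro a0 a1 a2
    have h3 := hb (a0⁻¹ * a1) (a1⁻¹ * a2)
    have e1 : a0⁻¹ * a1 * (a1⁻¹ * a2) = a0⁻¹ * a2 := by group
    rw [e1] at h3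
    have h4 : φ a0 a1 a2 = σ a0 (ev A σ (z ((a0⁻¹ * a1 : A) : G) ((a1⁻¹ * a2 : A) : G))) := by
      have h5 := val_mul (z ((a0⁻¹ * a1 : A) : G) ((a1⁻¹ * a2 : A) : G)) 1 a0⁻¹
      rw [inv_inv, one_mul] at h5
      exact h5
    have h6 : σ (a0⁻¹ * a1) (b (a1⁻¹ * a2)) = σ a0⁻¹ (σ a1 (b (a1⁻¹ * a2))) := by
      rw [map_mul]
      rfl
    change ev A σ (z ((a0⁻¹ * a1 : A) : G) ((a1⁻¹ * a2 : A) : G)) = _ at h3
    rw [h4, h3, map_add, map_sub, h6, σ_inv]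
  let B : G → G → N := fun g0 g1 => bh (π g0) (π g1) + (φ (π g0) g0 g1 - φ (π g0) (π g1) g1)
  have B_A : ∀ (a : A) (g0 g1 : G), B (a * g0) (a * g1) = σ a (B g0 g1) := by
    intro a g0 g1
    change bh (π (a * g0)) (π (a * g1)) + (φ (π (a * g0)) (a * g0) (a * g1) -
      φ (π (a * g0)) (π (a * g1)) (a * g1)) = σ a (bh (π g0) (π g1) + (φ (π g0) g0 g1 -
      φ (π g0) (π g1) g1))
    rw [π_A, π_A, map_add, map_sub, ← φ_A, ← φ_A]
    congr 1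
    change σ (a * π g0) (b ((a * π g0)⁻¹ * (a * π g1))) = σ a (σ (π g0) (b ((π g0)⁻¹ * π g1)))
    have e1 : (a * π g0)⁻¹ * (a * π g1) = (π g0)⁻¹ * π g1 := by group
    rw [e1, map_mul]
    rfl
  have key : ∀ g0 g1 g2, φ g0 g1 g2 = B g1 g2 - B g0 g2 + B g0 g1 := by
    intro g0 g1 g2
    have c1 := φ_c (π g0) g0 g1 g2
    have c2 := φ_c (π g0) (π g1) g1 g2
    have c3 := φ_c (π g0) (π g1) (π g2) g2
    have c4 := φ_b (π g0) (π g1) (π g2)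
    change φ g0 g1 g2 = (bh (π g1) (π g2) + (φ (π g1) g1 g2 - φ (π g1) (π g2) g2)) -
      (bh (π g0) (π g2) + (φ (π g0) g0 g2 - φ (π g0) (π g2) g2)) +
      (bh (π g0) (π g1) + (φ (π g0) g0 g1 - φ (π g0) (π g1) g1))
    have e : (bh (π g1) (π g2) + (φ (π g1) g1 g2 - φ (π g1) (π g2) g2)) -
      (bh (π g0) (π g2) + (φ (π g0) g0 g2 - φ (π g0) (π g2) g2)) +
      (bh (π g0) (π g1) + (φ (π g0) g0 g1 - φ (π g0) (π g1) g1)) - φ g0 g1 g2 =
      (φ (π g1) g1 g2 - φ (π g0) g1 g2 + φ (π g0) (π g1) g2 - φ (π g0) (π g1) g1) -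
      (φ g0 g1 g2 - φ (π g0) g1 g2 + φ (π g0) g0 g2 - φ (π g0) g0 g1) -
      (φ (π g1) (π g2) g2 - φ (π g0) (π g2) g2 + φ (π g0) (π g1) g2 -
        φ (π g0) (π g1) (π g2)) -
      (φ (π g0) (π g1) (π g2) - (bh (π g1) (π g2) - bh (π g0) (π g2) + bh (π g0) (π g1))) := by
      abel
    rw [c1, c2, c3, c4, sub_self, sub_self, sub_self, sub_self] at e
    exact (sub_eq_zero.1 e).symm
  have B_l : ∀ g0 g1, ∀ w ∈ W, B g0 (g1 * w) = B g0 g1 := by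
    intro g0 g1 w hw
    obtain ⟨w', hw', hpw⟩ := pr_right (A := A) hWn hWA hw g1
    have hπ : π (g1 * w) = π g1 * ⟨w', hWA hw'⟩ := Subtype.ext hpw
    change bh (π g0) (π (g1 * w)) + (φ (π g0) g0 (g1 * w) - φ (π g0) (π (g1 * w)) (g1 * w)) =
      bh (π g0) (π g1) + (φ (π g0) g0 g1 - φ (π g0) (π g1) g1)
    have e1 : bh (π g0) (π (g1 * w)) = bh (π g0) (π g1) := by
      change σ (π g0) (b ((π g0)⁻¹ * π (g1 * w))) = σ (π g0) (b ((π g0)⁻¹ * π g1))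
      rw [hπ, ← mul_assoc, hbl _ _ (hWb' w' hw')]
    have e2 : φ (π g0) g0 (g1 * w) = φ (π g0) g0 g1 := by
      rw [φ_eq, φ_eq]
      have h3 := hzl ((π g0 : G)⁻¹ * g0) (g0⁻¹ * g1) 1 (one_mem _) w (hWz' w hw)
      rw [mul_one, mul_assoc] at h3
      rw [h3]
    have e3 : φ (π g0) (π (g1 * w)) (g1 * w) = φ (π g0) (π g1) g1 := by
      rw [φ_eq, φ_eq, hπ]
      have h3 := hzl ((π g0 : G)⁻¹ * π g1) ((π g1 : G)⁻¹ * g1) w' (hWz' w' hw')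
        (((π g1 : G)⁻¹ * g1)⁻¹ * w'⁻¹ * ((π g1 : G)⁻¹ * g1) * w) (hWz' _ (by
          refine W.mul_mem ?_ hw
          have := hWn.conj_mem w'⁻¹ (inv_mem hw') ((π g1 : G)⁻¹ * g1)⁻¹
          rwa [inv_inv] at this))
      have e4 : (π g0 : G)⁻¹ * ((π g1 * ⟨w', hWA hw'⟩ : A) : G) = (π g0 : G)⁻¹ * π g1 * w' := by
        rw [Subgroup.coe_mul, mul_assoc]
      have e5 : ((π g1 * ⟨w', hWA hw'⟩ : A) : G)⁻¹ * (g1 * w) = (π g1 : G)⁻¹ * g1 *
          (((π g1 : G)⁻¹ * g1)⁻¹ * w'⁻¹ * ((π g1 : G)⁻¹ * g1) * w) := by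
        rw [Subgroup.coe_mul]
        group
      rw [e4, e5, h3]
    rw [e1, e2, e3]
  refine ⟨fun g => ⟨fun x => B x⁻¹ (x⁻¹ * g), fun x a => ?_⟩, ⟨W, hWo, fun g w hw => ?_⟩,
    fun g h => ?_⟩
  · have e1 : (x * (a : G))⁻¹ = ((a⁻¹ : A) : G) * x⁻¹ := by
      rw [mul_inv_rev]
      rfl
    change B (x * a)⁻¹ ((x * a)⁻¹ * g) = σ a⁻¹ (B x⁻¹ (x⁻¹ * g))
    rw [e1, mul_assoc]
    exact B_A a⁻¹ x⁻¹ (x⁻¹ * g)
  · refine Subtype.ext (funext fun x => ?_)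
    change B x⁻¹ (x⁻¹ * (g * w)) = B x⁻¹ (x⁻¹ * g)
    rw [← mul_assoc]
    exact B_l _ _ w hw
  · refine Subtype.ext (funext fun x => ?_)
    change (z g h : G → N) x = B (g⁻¹ * x)⁻¹ ((g⁻¹ * x)⁻¹ * h) - B x⁻¹ (x⁻¹ * (g * h)) +
      B x⁻¹ (x⁻¹ * g)
    have h3 := key x⁻¹ (x⁻¹ * g) (x⁻¹ * g * h)
    have e1 : (x⁻¹)⁻¹ * (x⁻¹ * g) = g := by group
    have e2 : (x⁻¹ * g)⁻¹ * (x⁻¹ * g * h) = h := by group
    rw [φ_eq, e1, e2, inv_inv] at h3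
    rw [h3]
    have e3 : (g⁻¹ * x)⁻¹ = x⁻¹ * g := by group
    rw [e3, mul_assoc x⁻¹ g h]

end GSH

end BKT
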