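import Pool.Agent.Lib.MP_7c08ba_nt.T1.StG

set_option autoImplicit false

/-!
Parity for general residual representations: module UAA, the action of a subgroup of `GU F P U` on
the group of `S`-units.
-/

noncomputable section

namespace BKT

open BKMet
open BKGlob2 (US)
open BKV (RU GU)

namespace GUAA

variable {F : Type} [Field F] {P : Set ℕ} {V B : Subgroup (GF F)}

theorem mem_US (hB : ∀ g ∈ B, ∀ x ∈ V, g * x * g⁻¹ ∈ V) {g : GF F} (hg : g ∈ B)
    {x : (AlgebraicClosure F)ˣ} (hx : x ∈ US F P V) :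
    Units.map (g : AlgebraicClosure F →* AlgebraicClosure F) x ∈ US F P V := by
  obtain ⟨h1, h2⟩ := hx
  refine ⟨fun u hu => ?_, fun l _ hl j => ?_⟩
  · have h4 : g⁻¹ * u * g ∈ V := by
      have h5 := hB g⁻¹ (B.inv_mem hg) u hu
      rwa [inv_inv] at h5
    have h3 := h1 _ h4
    change u (g (x : AlgebraicClosure F)) = g (x : AlgebraicClosure F)
    calc u (g (x : AlgebraicClosure F)) = (g * (g⁻¹ * u * g)) (x : AlgebraicClosure F) := by
          rw [mul_assoc, mul_inv_cancel_left, AlgEquiv.mul_apply]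
      _ = g ((g⁻¹ * u * g) (x : AlgebraicClosure F)) := by rw [AlgEquiv.mul_apply]
      _ = g (x : AlgebraicClosure F) := by rw [h3]
  · exact h2 l hl (j.comp (g : AlgebraicClosure F →+* AlgebraicClosure F))

/-- an automorphism which normalises `V` acts on the group of `S`-units -/
def act (hB : ∀ g ∈ B, ∀ x ∈ V, g * x * g⁻¹ ∈ V) (g : B) : US F P V →* US F P V where
  toFun x := ⟨Units.map ((g : GF F) : AlgebraicClosure F →* AlgebraicClosure F) x.1,
    mem_US hB g.2 x.2⟩
  map_one' := by
    ext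
    exact map_one (g : GF F)
  map_mul' x y := by
    ext
    exact map_mul (g : GF F) _ _

/-- the action of the group `B` -/
def actH (hB : ∀ g ∈ B, ∀ x ∈ V, g * x * g⁻¹ ∈ V) :
    B →* AddMonoid.End (Additive (US F P V)) where
  toFun g := MonoidHom.toAdditive (act hB g)
  map_one' := by
    ext x
    rfl
  map_mul' g h := by
    ext x
    rfl

end GUAA

open GUAA in
theorem stUaa : StUaa := by
  intro p _ F _ P U _ A A' hadm
  set m : GF F →* GU F P U := QuotientGroup.mk' (RU F P U) with hm
  have hB : ∀ g ∈ A.comap m, ∀ x ∈ A'.comap m, g * x * g⁻¹ ∈ A'.comap m := by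
    intro g hg x hx
    have h1 := hadm.nor _ hg _ hx
    rw [Subgroup.mem_comap, map_mul, map_mul, map_inv]
    exact h1
  have hsurj : Function.Surjective (m.subgroupComap A) := by
    rintro ⟨a, ha⟩
    obtain ⟨g, rfl⟩ := QuotientGroup.mk'_surjective (RU F P U) a
    exact ⟨⟨g, ha⟩, rfl⟩
  have hker : ∀ x ∈ (m.subgroupComap A).ker, actH (P := P) hB x = 1 := by
    rintro ⟨g, hg⟩ hk
    have hg1 : m g = 1 := congrArg Subtype.val hk
    have hg2 : g ∈ A'.comap m := by
      rw [Subgroup.mem_comap, hg1]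
      exact A'.one_mem
    refine AddMonoidHom.ext fun x => ?_
    refine Additive.toMul.injective (Subtype.ext (Units.ext ?_))
    exact x.toMul.2.1 g hg2
  refine ⟨(QuotientGroup.lift (m.subgroupComap A).ker (actH (P := P) hB) hker).comp
    (QuotientGroup.quotientKerEquivOfSurjective (m.subgroupComap A) hsurj).symm.toMonoidHom, ?_⟩
  intro g hg x
  have h1 : (QuotientGroup.quotientKerEquivOfSurjective (m.subgroupComap A) hsurj).symm
      ⟨QuotientGroup.mk g, hg⟩ = QuotientGroup.mk ⟨g, hg⟩ := by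
    rw [MulEquiv.symm_apply_eq]
    rfl
  rw [MonoidHom.comp_apply, MulEquiv.toMonoidHom_eq_coe, MonoidHom.coe_coe, h1]
  rfl

end BKT
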