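import Pool.Agent.Lib.MP_7c08ba_nt.T1.StLoc
import Pool.Agent.Lib.MP_7c08ba_nt.Met.XEXT
import Pool.Agent.Lib.MP_7c08ba_nt.Met.XHOMS
import Pool.Agent.Lib.MP_7c08ba_nt.Met.XPERF

set_option autoImplicit false

/-!
Parity for general residual representations, module PAI: the pair of the modules induced from
`ψ` and `ψ'`.
-/

noncomputable section

namespace BKT

open BKPar (Loc1 Loc2)
open BKND (Sm)
open BKMet

namespace LPAI

variable {p : ℕ} [Fact p.Prime] {G : Type} [Group G]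

/-! ### The functional -/

section lamb

variable {k : Type} [Field k] [Algebra (ZMod p) k]

theorem p_smul (x : k) : p • x = 0 := by
  have h : ((p : ℕ) : k) = 0 := by
    rw [← map_natCast (algebraMap (ZMod p) k), CharP.cast_eq_zero, map_zero]
  rw [nsmul_eq_mul, h, zero_mul]

theorem lam_smul (lam : k →+ QZ p) (c : ℤ_[p]) (x : k) :
    lam (algebraMap (ZMod p) k (PadicInt.toZMod c) * x) = c • lam x := by
  obtain ⟨y, hy⟩ : ∃ y, c = ((PadicInt.toZMod c).val : ℤ_[p]) + p * y := by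
    have h1 : c - ((PadicInt.toZMod c).val : ℤ_[p]) ∈ RingHom.ker (PadicInt.toZMod (p := p)) := by
      rw [RingHom.mem_ker, map_sub, map_natCast, ZMod.natCast_zmod_val, sub_self]
    rw [PadicInt.ker_toZMod, PadicInt.maximalIdeal_eq_span_p, Ideal.mem_span_singleton] at h1
    obtain ⟨y, hy⟩ := h1
    exact ⟨y, by rw [← hy]; ring⟩
  have h1 : algebraMap (ZMod p) k (PadicInt.toZMod c) * x = (PadicInt.toZMod c).val • x := by
    rw [nsmul_eq_mul, ← map_natCast (algebraMap (ZMod p) k), ZMod.natCast_zmod_val]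
  have h0 : p • lam x = 0 := by
    rw [← map_nsmul, p_smul (p := p) x, map_zero]
  have h2 : c • lam x = (PadicInt.toZMod c).val • lam x := by
    conv_lhs => rw [hy]
    rw [add_smul, Nat.cast_smul_eq_nsmul, mul_comm (p : ℤ_[p]) y, mul_smul,
      Nat.cast_smul_eq_nsmul, h0, smul_zero, add_zero]
  rw [h1, map_nsmul, h2]

end lamb

variable {A : Subgroup G} {k : Type} [Field k]

/-! ### Values -/

theorem val_mul {ψ : A →* kˣ} (f : IndM A (kch ψ)) (g : G) (a : A) :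
    (f : G → k) (g * a) = ((ψ a⁻¹ : kˣ) : k) * (f : G → k) g := f.2 g a

theorem inv_mul_out (g : G) : g⁻¹ * (QuotientGroup.mk g : G ⧸ A).out ∈ A :=
  QuotientGroup.eq.1 (Quotient.out_eq' (QuotientGroup.mk g : G ⧸ A)).symm

theorem actA_mul (χ : G →* ℤ_[p]ˣ) (g h : G) (x : QZ p) :
    actA χ (g * h) x = actA χ g (actA χ h x) := by
  rw [map_mul]
  rfl

/-- the summand -/
def fun1 (χ : G →* ℤ_[p]ˣ) (lam : k →+ QZ p) {ψ ψ' : A →* kˣ} (f : IndM A (kch ψ))
    (f' : IndM A (kch ψ')) (g : G) : QZ p :=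
  actA χ g (lam ((f : G → k) g * (f' : G → k) g))

theorem fun1_mul [Algebra (ZMod p) k] {χ : G →* ℤ_[p]ˣ} (lam : k →+ QZ p) {ψ ψ' : A →* kˣ}
    (hr : Rel (χ.comp A.subtype) ψ ψ') (f : IndM A (kch ψ)) (f' : IndM A (kch ψ')) (g : G)
    (a : A) : fun1 χ lam f f' (g * a) = fun1 χ lam f f' g := by
  unfold fun1
  rw [val_mul, val_mul]
  have h1 : ((ψ a⁻¹ : kˣ) : k) * (f : G → k) g * (((ψ' a⁻¹ : kˣ) : k) * (f' : G → k) g) =
      (((ψ a⁻¹ : kˣ) : k) * ((ψ' a⁻¹ : kˣ) : k)) * ((f : G → k) g * (f' : G → k) g) := by ring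
  rw [h1, hr a⁻¹, lam_smul]
  have h2 : ((((χ.comp A.subtype) a⁻¹ : ℤ_[p]ˣ) : ℤ_[p]) •
      lam ((f : G → k) g * (f' : G → k) g)) =
      actA χ ((a : G)⁻¹) (lam ((f : G → k) g * (f' : G → k) g)) := rfl
  rw [h2, ← actA_mul, mul_inv_cancel_right]

theorem fun1_out [Algebra (ZMod p) k] {χ : G →* ℤ_[p]ˣ} (lam : k →+ QZ p) {ψ ψ' : A →* kˣ}
    (hr : Rel (χ.comp A.subtype) ψ ψ') (f : IndM A (kch ψ)) (f' : IndM A (kch ψ')) (g : G) :
    fun1 χ lam f f' (QuotientGroup.mk g : G ⧸ A).out = fun1 χ lam f f' g := by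
  have h1 : (QuotientGroup.mk g : G ⧸ A).out =
      g * ((⟨g⁻¹ * (QuotientGroup.mk g : G ⧸ A).out, inv_mul_out g⟩ : A) : G) := by
    change _ = g * (g⁻¹ * _)
    group
  rw [h1, fun1_mul lam hr]

theorem fun1_act (χ : G →* ℤ_[p]ˣ) (lam : k →+ QZ p) {ψ ψ' : A →* kˣ} (f : IndM A (kch ψ))
    (f' : IndM A (kch ψ')) (g x : G) :
    fun1 χ lam (indM A (kch ψ) g f) (indM A (kch ψ') g f') x =
      actA χ g (fun1 χ lam f f' (g⁻¹ * x)) := by
  unfold fun1
  rw [indM_apply, indM_apply, ← actA_mul, mul_inv_cancel_left]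

/-! ### The pairing -/

section pairing

variable [Finite (G ⧸ A)]

/-- the pairing -/
def bb (χ : G →* ℤ_[p]ˣ) (lam : k →+ QZ p) (ψ ψ' : A →* kˣ) :
    IndM A (kch ψ) →+ IndM A (kch ψ') →+ QZ p :=
  AddMonoidHom.mk' (fun f => AddMonoidHom.mk' (fun f' =>
    ∑ᶠ q : G ⧸ A, fun1 χ lam f f' q.out) (fun f' f'' => by
      rw [← finsum_add_distrib (Set.toFinite _) (Set.toFinite _)]
      refine finsum_congr fun q => ?_
      unfold fun1
      rw [← map_add, ← map_add]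
      congr 2
      change (f : G → k) q.out * ((f' : G → k) q.out + (f'' : G → k) q.out) = _
      ring)) (fun f f'' => by
    refine AddMonoidHom.ext fun f' => ?_
    change (∑ᶠ q : G ⧸ A, fun1 χ lam (f + f'') f' q.out) =
      (∑ᶠ q : G ⧸ A, fun1 χ lam f f' q.out) + ∑ᶠ q : G ⧸ A, fun1 χ lam f'' f' q.out
    rw [← finsum_add_distrib (Set.toFinite _) (Set.toFinite _)]
    refine finsum_congr fun q => ?_
    unfold fun1
    rw [← map_add, ← map_add]
    congr 2
    change ((f : G → k) q.out + (f'' : G → k) q.out) * (f' : G → k) q.out = _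
    ring)

theorem bb_apply (χ : G →* ℤ_[p]ˣ) (lam : k →+ QZ p) {ψ ψ' : A →* kˣ} (f : IndM A (kch ψ))
    (f' : IndM A (kch ψ')) :
    bb χ lam ψ ψ' f f' = ∑ᶠ q : G ⧸ A, fun1 χ lam f f' q.out := rfl

theorem bb_act [Algebra (ZMod p) k] {χ : G →* ℤ_[p]ˣ} (lam : k →+ QZ p) {ψ ψ' : A →* kˣ}
    (hr : Rel (χ.comp A.subtype) ψ ψ') (g : G) (f : IndM A (kch ψ)) (f' : IndM A (kch ψ')) :
    bb χ lam ψ ψ' (indM A (kch ψ) g f) (indM A (kch ψ') g f') =
      actA χ g (bb χ lam ψ ψ' f f') := by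
  have h0 : actA χ g (∑ᶠ q : G ⧸ A, fun1 χ lam f f' q.out) =
      ∑ᶠ q : G ⧸ A, actA χ g (fun1 χ lam f f' q.out) :=
    AddMonoidHom.map_finsum (actA χ g : QZ p →+ QZ p) (Set.toFinite _)
  have h5 : ∑ᶠ q : G ⧸ A, actA χ g (fun1 χ lam f f' q.out) =
      ∑ᶠ q : G ⧸ A, actA χ g (fun1 χ lam f f'
        ((MulAction.toPerm (g⁻¹ : G) : Equiv.Perm (G ⧸ A)) q).out) :=
    (finsum_comp_equiv (MulAction.toPerm (g⁻¹ : G) : Equiv.Perm (G ⧸ A))
      (f := fun q : G ⧸ A => actA χ g (fun1 χ lam f f' q.out))).symm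
  rw [bb_apply, bb_apply, h0, h5]
  refine finsum_congr fun q => ?_
  rw [fun1_act]
  congr 1
  induction q using QuotientGroup.induction_on with
  | H x =>
    change fun1 χ lam f f' (g⁻¹ * (QuotientGroup.mk x : G ⧸ A).out) =
      fun1 χ lam f f' (QuotientGroup.mk (g⁻¹ * x) : G ⧸ A).out
    rw [fun1_out lam hr f f' (g⁻¹ * x)]
    have h1 : g⁻¹ * (QuotientGroup.mk x : G ⧸ A).out =
        g⁻¹ * x * ((⟨x⁻¹ * (QuotientGroup.mk x : G ⧸ A).out, inv_mul_out x⟩ : A) : G) := by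
      change _ = g⁻¹ * x * (x⁻¹ * _)
      group
    rw [h1, fun1_mul lam hr]

open Classical in
/-- the function supported at `g A` -/
def dfun (ψ : A →* kˣ) (g : G) (c : k) (x : G) : k :=
  if h : x⁻¹ * g ∈ A then ((ψ ⟨x⁻¹ * g, h⟩ : kˣ) : k) * c else 0

omit [Finite (G ⧸ A)] in
theorem dfun_pos (ψ : A →* kˣ) {g x : G} (c : k) (h : x⁻¹ * g ∈ A) :
    dfun ψ g c x = ((ψ ⟨x⁻¹ * g, h⟩ : kˣ) : k) * c := dif_pos h

omit [Finite (G ⧸ A)] in
theorem dfun_neg (ψ : A →* kˣ) {g x : G} (c : k) (h : x⁻¹ * g ∉ A) :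
    dfun ψ g c x = 0 := dif_neg h

/-- the function supported at `g A` -/
def delta (ψ : A →* kˣ) (g : G) (c : k) : IndM A (kch ψ) :=
  ⟨dfun ψ g c, by
    intro x a
    by_cases h : x⁻¹ * g ∈ A
    · have h' : (x * (a : G))⁻¹ * g ∈ A := by
        rw [mul_inv_rev, mul_assoc]
        exact A.mul_mem (A.inv_mem a.2) h
      rw [dfun_pos ψ c h, dfun_pos ψ c h', kch_apply, ← mul_assoc, ← Units.val_mul, ← map_mul]
      have h3 : (⟨(x * (a : G))⁻¹ * g, h'⟩ : A) = a⁻¹ * ⟨x⁻¹ * g, h⟩ := by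
        refine Subtype.ext ?_
        change (x * (a : G))⁻¹ * g = (a : G)⁻¹ * (x⁻¹ * g)
        group
      rw [h3]
    · have h' : (x * (a : G))⁻¹ * g ∉ A := by
        intro h'
        apply h
        have h2 := A.mul_mem a.2 h'
        have h3 : (a : G) * ((x * (a : G))⁻¹ * g) = x⁻¹ * g := by group
        rwa [h3] at h2
      rw [dfun_neg ψ c h, dfun_neg ψ c h', map_zero]⟩

omit [Finite (G ⧸ A)] in
theorem delta_self (ψ : A →* kˣ) (g : G) (c : k) : (delta ψ g c : G → k) g = c := by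
  have h : g⁻¹ * g ∈ A := by
    rw [inv_mul_cancel]
    exact A.one_mem
  have h1 : (delta ψ g c : G → k) g = ((ψ ⟨g⁻¹ * g, h⟩ : kˣ) : k) * c := dif_pos h
  have h2 : (⟨g⁻¹ * g, h⟩ : A) = 1 := Subtype.ext (inv_mul_cancel g)
  rw [h1, h2, map_one, Units.val_one, one_mul]

omit [Finite (G ⧸ A)] in
theorem delta_ne (ψ : A →* kˣ) {g x : G} (c : k) (h : x⁻¹ * g ∉ A) :
    (delta ψ g c : G → k) x = 0 := dif_neg h

theorem bb_delta [Algebra (ZMod p) k] {χ : G →* ℤ_[p]ˣ} (lam : k →+ QZ p) {ψ ψ' : A →* kˣ}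
    (hr : Rel (χ.comp A.subtype) ψ ψ') (f : IndM A (kch ψ)) (g : G) (c : k) :
    bb χ lam ψ ψ' f (delta ψ' g c) = actA χ g (lam ((f : G → k) g * c)) := by
  rw [bb_apply, finsum_eq_single _ (QuotientGroup.mk g : G ⧸ A)]
  · rw [fun1_out lam hr]
    unfold fun1
    rw [delta_self]
  · intro q hq
    unfold fun1
    rw [delta_ne, mul_zero, map_zero, map_zero]
    intro h
    apply hq
    rw [← QuotientGroup.eq.2 h]
    exact (Quotient.out_eq' q).symm

theorem delta_bb [Algebra (ZMod p) k] {χ : G →* ℤ_[p]ˣ} (lam : k →+ QZ p) {ψ ψ' : A →* kˣ}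
    (hr : Rel (χ.comp A.subtype) ψ ψ') (f' : IndM A (kch ψ')) (g : G) (c : k) :
    bb χ lam ψ ψ' (delta ψ g c) f' = actA χ g (lam (c * (f' : G → k) g)) := by
  rw [bb_apply, finsum_eq_single _ (QuotientGroup.mk g : G ⧸ A)]
  · rw [fun1_out lam hr]
    unfold fun1
    rw [delta_self]
  · intro q hq
    unfold fun1
    rw [delta_ne, zero_mul, map_zero, map_zero]
    intro h
    apply hq
    rw [← QuotientGroup.eq.2 h]
    exact (Quotient.out_eq' q).symm

theorem actA_inj (χ : G →* ℤ_[p]ˣ) (g : G) {x : QZ p} (h : actA χ g x = 0) : x = 0 := by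
  have h1 : actA χ g⁻¹ (actA χ g x) = x := by
    rw [← actA_mul, inv_mul_cancel, map_one]
    rfl
  rw [← h1, h, map_zero]

theorem ne_left [Algebra (ZMod p) k] {χ : G →* ℤ_[p]ˣ} {lam : k →+ QZ p} (hlam : lam ≠ 0)
    {ψ ψ' : A →* kˣ} (hr : Rel (χ.comp A.subtype) ψ ψ') (f : IndM A (kch ψ))
    (h : ∀ f', bb χ lam ψ ψ' f f' = 0) : f = 0 := by
  obtain ⟨y, hy⟩ := DFunLike.ne_iff.1 hlam
  refine Subtype.ext (funext fun g => ?_)
  change (f : G → k) g = 0
  by_contra hg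
  have h1 := actA_inj χ g ((bb_delta lam hr f g (((f : G → k) g)⁻¹ * y)).symm.trans (h _))
  rw [← mul_assoc, mul_inv_cancel₀ hg, one_mul] at h1
  exact hy h1

theorem ne_right [Algebra (ZMod p) k] {χ : G →* ℤ_[p]ˣ} {lam : k →+ QZ p} (hlam : lam ≠ 0)
    {ψ ψ' : A →* kˣ} (hr : Rel (χ.comp A.subtype) ψ ψ') (f' : IndM A (kch ψ'))
    (h : ∀ f, bb χ lam ψ ψ' f f' = 0) : f' = 0 := by
  obtain ⟨y, hy⟩ := DFunLike.ne_iff.1 hlam
  refine Subtype.ext (funext fun g => ?_)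
  change (f' : G → k) g = 0
  by_contra hg
  have h1 := actA_inj χ g ((delta_bb lam hr f' g (y * ((f' : G → k) g)⁻¹)).symm.trans (h _))
  rw [mul_assoc, inv_mul_cancel₀ hg, mul_one] at h1
  exact hy h1

theorem fin_ind [Finite k] (ψ : A →* kˣ) : Finite (IndM A (kch ψ)) := by
  refine Finite.of_injective (fun (f : IndM A (kch ψ)) (q : G ⧸ A) => (f : G → k) q.out) ?_
  intro f f' h
  refine Subtype.ext (funext fun g => ?_)
  have h1 := congrFun h (QuotientGroup.mk g)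
  change (f : G → k) (QuotientGroup.mk g : G ⧸ A).out =
    (f' : G → k) (QuotientGroup.mk g : G ⧸ A).out at h1
  have h2 : g = (QuotientGroup.mk g : G ⧸ A).out *
      ((⟨g⁻¹ * (QuotientGroup.mk g : G ⧸ A).out, inv_mul_out g⟩⁻¹ : A) : G) := by
    change _ = _ * (g⁻¹ * _)⁻¹
    group
  rw [h2, val_mul, val_mul, h1]

end pairing

/-! ### Smoothness -/

theorem sm_ind [TopologicalSpace G] [IsTopologicalGroup G] [CompactSpace G]
    (hA : IsOpen (A : Set G)) {ψ : A →* kˣ} (h : Sm (kch ψ)) : Sm (indM A (kch ψ)) := by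
  obtain ⟨W, hW, hW1⟩ := h
  have hV : IsOpen ((W.map A.subtype : Subgroup G) : Set G) := by
    rw [Subgroup.coe_map]
    exact hA.isOpenMap_subtype_val _ hW
  have hfin : Finite (G ⧸ W.map A.subtype) := Subgroup.quotient_finite_of_isOpen _ hV
  have : (W.map A.subtype).FiniteIndex := Subgroup.finiteIndex_of_finite_quotient
  have hc : IsClosed (((W.map A.subtype).normalCore : Subgroup G) : Set G) :=
    Subgroup.normalCore_isClosed _ (Subgroup.isClosed_of_isOpen _ hV)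
  refine ⟨(W.map A.subtype).normalCore, Subgroup.isOpen_of_isClosed_of_finiteIndex _ hc, ?_⟩
  intro w hw
  refine AddMonoidHom.ext fun f => Subtype.ext (funext fun x => ?_)
  change (f : G → k) (w⁻¹ * x) = (f : G → k) x
  have h1 : x⁻¹ * w⁻¹ * x⁻¹⁻¹ ∈ (W.map A.subtype).normalCore :=
    (Subgroup.normalCore_normal _).conj_mem _ (Subgroup.inv_mem _ hw) x⁻¹
  obtain ⟨a, ha, ha'⟩ := Subgroup.normalCore_le _ h1
  have h2 : w⁻¹ * x = x * (a : G) := by
    change (a : G) = _ at ha'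
    rw [ha']
    group
  rw [h2]
  have h3 := f.2 x a
  rw [h3, hW1 a⁻¹ (W.inv_mem ha)]
  rfl

end LPAI

open LPAI

theorem stPai : StPai := by
  intro p _ G _ _ _ _ χ _ A hA k _ _ _ ψ ψ' hψ hψ' hr lam hlam
  have hq : Finite (G ⧸ A) := Subgroup.quotient_finite_of_isOpen _ hA
  have hf := fin_ind (A := A) ψ
  have hf' := fin_ind (A := A) ψ'
  have H : StPerf := stPerf (stHoms stExt)
  obtain ⟨-, -, H1⟩ := H p (IndM A (kch ψ)) (IndM A (kch ψ')) (bb χ lam ψ ψ')
    (fun f h => ne_left hlam hr f h) (fun f' h => ne_right hlam hr f' h)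
  obtain ⟨-, -, H2⟩ := H p (IndM A (kch ψ')) (IndM A (kch ψ)) (bb χ lam ψ ψ').flip
    (fun f' h => ne_right hlam hr f' h) (fun f h => ne_left hlam hr f h)
  let Y : Pair ℤ (actA χ) (IndM A (kch ψ)) (IndM A (kch ψ')) :=
    { ρ := indM A (kch ψ)
      ρ' := indM A (kch ψ')
      b := bb χ lam ψ ψ'
      sm := sm_ind hA hψ
      sm' := sm_ind hA hψ'
      lin := fun g a m => map_zsmul _ a m
      lin' := fun g a m => map_zsmul _ a m
      eqv := fun g m m' => bb_act lam hr g m m'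
      bal := fun a m m' => by
        rw [map_zsmul, map_zsmul, AddMonoidHom.zsmul_apply]
      perf := fun P m h => by
        let C : AddSubgroup (IndM A (kch ψ')) :=
          { carrier := {w | ∀ v ∈ P, bb χ lam ψ ψ' v w = 0}
            zero_mem' := fun w _ => map_zero _
            add_mem' := fun {a b} ha hb w hw' => by
              rw [map_add, ha w hw', hb w hw', add_zero]
            neg_mem' := fun {a} ha w hw' => by
              rw [map_neg, ha w hw', neg_zero] }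
        exact (((H1 P.toAddSubgroup C (fun w => Iff.rfl)).2.1) m).2 fun w hw => h w hw
      perf' := fun P m h => by
        let C : AddSubgroup (IndM A (kch ψ)) :=
          { carrier := {w | ∀ v ∈ P, (bb χ lam ψ ψ').flip v w = 0}
            zero_mem' := fun w _ => map_zero _
            add_mem' := fun {a b} ha hb w hw' => by
              rw [map_add, ha w hw', hb w hw', add_zero]
            neg_mem' := fun {a} ha w hw' => by
              rw [map_neg, ha w hw', neg_zero] }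
        exact (((H2 P.toAddSubgroup C (fun w => Iff.rfl)).2.1) m).2 fun w hw => h w hw }
  exact ⟨Y, rfl, rfl, fun f f' => rfl⟩

end BKT
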