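import Pool.Agent.Lib.MP_7c08ba_nt.T1.StLoc
import Pool.Agent.Lib.MP_7c08ba_nt.T1.ACYC
import Pool.Agent.Lib.MP_7c08ba_nt.T1.LDUP
import Pool.Agent.Lib.MP_7c08ba_nt.T1.LLFN
import Pool.Agent.Lib.MP_7c08ba_nt.T1.LPAI

set_option autoImplicit false

/-!
Parity for general residual representations: module LCA, the local Euler characteristic.
-/

noncomputable section

namespace BKT

open BKPar (Loc1 Loc2)
open BKND (Sm)
open BKMet

namespace LLCA

/-! ### Isomorphic modules -/

section Iso

variable {p : ℕ} [Fact p.Prime] {D : Type} [Group D] [TopologicalSpace D] (χ : D →* ℤ_[p]ˣ)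
  (δ : ℕ) {M N : Type} [AddCommGroup M] [AddCommGroup N]

theorem card_Z1 (ρ : D →* AddMonoid.End M) (σ : D →* AddMonoid.End N) (e : M ≃+ N)
    (he : ∀ g m, e (ρ g m) = σ g (e m)) :
    Nat.card (BKND.Z1 ρ) = Nat.card (BKND.Z1 σ) := by
  have he' : ∀ g n, e.symm (σ g n) = ρ g (e.symm n) := fun g n => by
    rw [AddEquiv.symm_apply_eq, he, AddEquiv.apply_symm_apply]
  refine Nat.card_congr
    { toFun := fun f => ⟨fun g => e (f.1 g), BKND.Loc1.map f.2.1 e, fun g h => by
        change e (f.1 (g * h)) = e (f.1 g) + σ g (e (f.1 h))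
        rw [f.2.2 g h, map_add, he]⟩
      invFun := fun f => ⟨fun g => e.symm (f.1 g), BKND.Loc1.map f.2.1 e.symm, fun g h => by
        change e.symm (f.1 (g * h)) = e.symm (f.1 g) + ρ g (e.symm (f.1 h))
        rw [f.2.2 g h, map_add, he']⟩
      left_inv := fun f => Subtype.ext (funext fun g => e.symm_apply_apply _)
      right_inv := fun f => Subtype.ext (funext fun g => e.apply_symm_apply _) }

omit [TopologicalSpace D] in
theorem card_H0 (ρ : D →* AddMonoid.End M) (σ : D →* AddMonoid.End N) (e : M ≃+ N)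
    (he : ∀ g m, e (ρ g m) = σ g (e m)) :
    Nat.card (BKND.H0 ρ) = Nat.card (BKND.H0 σ) := by
  have he' : ∀ g n, e.symm (σ g n) = ρ g (e.symm n) := fun g n => by
    rw [AddEquiv.symm_apply_eq, he, AddEquiv.apply_symm_apply]
  refine Nat.card_congr
    { toFun := fun f => ⟨e f.1, fun g => by
        rw [← he, f.2 g]⟩
      invFun := fun f => ⟨e.symm f.1, fun g => by
        rw [← he', f.2 g]⟩
      left_inv := fun f => Subtype.ext (e.symm_apply_apply _)
      right_inv := fun f => Subtype.ext (e.apply_symm_apply _) }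

theorem FL_congr (ρ : D →* AddMonoid.End M) (σ : D →* AddMonoid.End N) (e : M ≃+ N)
    (he : ∀ g m, e (ρ g m) = σ g (e m)) : FL χ δ ρ = FL χ δ σ := by
  have he' : ∀ g n, e.symm (σ g n) = ρ g (e.symm n) := fun g n => by
    rw [AddEquiv.symm_apply_eq, he, AddEquiv.apply_symm_apply]
  let E : (M →+ QZ p) ≃+ (N →+ QZ p) :=
    { toFun := fun f => f.comp e.symm.toAddMonoidHom
      invFun := fun f => f.comp e.toAddMonoidHom
      left_inv := fun f => by
        ext m
        exact congrArg f (e.symm_apply_apply m)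
      right_inv := fun f => by
        ext m
        exact congrArg f (e.apply_symm_apply m)
      map_add' := fun f f' => rfl }
  have hE : ∀ g f, E (dualA χ ρ g f) = dualA χ σ g (E f) := by
    intro g f
    ext n
    change actA χ g (f (ρ g⁻¹ (e.symm n))) = actA χ g (f (e.symm (σ g⁻¹ n)))
    rw [he']
  unfold FL
  rw [card_Z1 ρ σ e he, card_H0 _ _ E hE, Nat.card_congr e.toEquiv]

end Iso

/-! ### Inflation of an induced module -/

section Infl

variable {D Γ : Type} [Group D] [Group Γ] (q : D →* Γ) (C : Subgroup Γ) {k : Type} [Field k]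
  (ψ : C →* kˣ)

/-- the character of the preimage -/
def ch : C.comap q →* kˣ := ψ.comp (q.subgroupComap C)

theorem ch_apply (a : C.comap q) : ch q C ψ a = ψ ⟨q a, a.2⟩ := rfl

/-- functions on `Γ` as functions on `D` -/
def infl : IndM C (kch ψ) →+ IndM (C.comap q) (kch (ch q C ψ)) where
  toFun f := ⟨fun x => (f : Γ → k) (q x), fun g a => by
    change (f : Γ → k) (q (g * a)) = kch (ch q C ψ) a⁻¹ ((f : Γ → k) (q g))
    rw [map_mul]
    refine (f.2 (q g) ⟨q a, a.2⟩).trans ?_
    rw [kch_apply, kch_apply, map_inv, map_inv, ch_apply]⟩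
  map_zero' := rfl
  map_add' _ _ := rfl

theorem infl_apply (f : IndM C (kch ψ)) (x : D) :
    ((infl q C ψ f : IndM (C.comap q) (kch (ch q C ψ))) : D → k) x = (f : Γ → k) (q x) := rfl

variable {q} in
theorem infl_bij (hq : Function.Surjective q) : Function.Bijective (infl q C ψ) := by
  constructor
  · intro f f' h
    apply Subtype.ext
    funext y
    obtain ⟨x, rfl⟩ := hq y
    exact congrFun (congrArg Subtype.val h) x
  · intro F
    have key : ∀ x x' : D, q x = q x' → (F : D → k) x = (F : D → k) x' := by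
      intro x x' hx
      have hu : x⁻¹ * x' ∈ C.comap q := by
        rw [Subgroup.mem_comap, map_mul, map_inv, hx, inv_mul_cancel]
        exact C.one_mem
      have h1 := F.2 x ⟨x⁻¹ * x', hu⟩
      have h2 : (⟨x⁻¹ * x', hu⟩ : C.comap q) ∈ (ch q C ψ).ker := by
        rw [MonoidHom.mem_ker, ch_apply]
        have : (⟨q (x⁻¹ * x'), hu⟩ : C) = 1 := by
          apply Subtype.ext
          change q (x⁻¹ * x') = 1
          rw [map_mul, map_inv, hx, inv_mul_cancel]
        rw [this, map_one]
      have h3 : kch (ch q C ψ) (⟨x⁻¹ * x', hu⟩ : C.comap q)⁻¹ ((F : D → k) x) =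
          (F : D → k) x := by
        rw [kch_apply, map_inv, MonoidHom.mem_ker.1 h2, inv_one, Units.val_one, one_mul]
      rw [h3] at h1
      rw [← h1]
      exact congrArg (F : D → k) (mul_inv_cancel_left x x')
    have hs : ∀ y, q (Function.surjInv hq y) = y := Function.surjInv_eq hq
    refine ⟨⟨fun y => (F : D → k) (Function.surjInv hq y), fun g a => ?_⟩, ?_⟩
    · obtain ⟨a', ha'⟩ := hq (a : Γ)
      have ha : a' ∈ C.comap q := by
        rw [Subgroup.mem_comap, ha']
        exact a.2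
      have h1 := F.2 (Function.surjInv hq g) ⟨a', ha⟩
      have h2 : (F : D → k) (Function.surjInv hq (g * a)) =
          (F : D → k) (Function.surjInv hq g * a') := by
        apply key
        rw [hs, map_mul, hs, ha']
      change (F : D → k) (Function.surjInv hq (g * a)) =
        kch ψ a⁻¹ ((F : D → k) (Function.surjInv hq g))
      rw [h2]
      refine h1.trans ?_
      rw [kch_apply, kch_apply, map_inv, map_inv, ch_apply]
      have : (⟨q a', ha⟩ : C) = a := Subtype.ext ha'
      rw [this]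
    · apply Subtype.ext
      funext x
      apply key
      rw [hs]

variable {q} in
/-- inflation of the induced module is an induced module -/
def inflE (hq : Function.Surjective q) :
    IndM C (kch ψ) ≃+ IndM (C.comap q) (kch (ch q C ψ)) :=
  AddEquiv.ofBijective (infl q C ψ) (infl_bij C ψ hq)

variable {q} in
theorem inflE_act (hq : Function.Surjective q) (g : D) (f : IndM C (kch ψ)) :
    inflE C ψ hq (((indM C (kch ψ)).comp q) g f) =
      indM (C.comap q) (kch (ch q C ψ)) g (inflE C ψ hq f) := by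
  apply Subtype.ext
  funext x
  change (f : Γ → k) ((q g)⁻¹ * q x) = (f : Γ → k) (q (g⁻¹ * x))
  rw [map_mul, map_inv]

end Infl

/-! ### Modules induced from characters -/

section Char

variable {p : ℕ} [Fact p.Prime] {D : Type} [Group D] [TopologicalSpace D] [IsTopologicalGroup D]
  [CompactSpace D] (χ : D →* ℤ_[p]ˣ)

/-- the second character -/
def ps {k : Type} [Field k] [Algebra (ZMod p) k] (V : Subgroup D) (ψ : V →* kˣ) : V →* kˣ :=
  ((Units.map ((algebraMap (ZMod p) k).comp (PadicInt.toZMod (p := p))).toMonoidHom).comp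
    (χ.comp V.subtype)) * ψ⁻¹

omit [TopologicalSpace D] [IsTopologicalGroup D] [CompactSpace D] in
theorem ps_val {k : Type} [Field k] [Algebra (ZMod p) k] (V : Subgroup D) (ψ : V →* kˣ) (g : V) :
    ((ps χ V ψ g : kˣ) : k) =
      algebraMap (ZMod p) k (PadicInt.toZMod ((χ g : ℤ_[p]ˣ) : ℤ_[p])) * ((ψ g)⁻¹ : kˣ) := rfl

omit [TopologicalSpace D] [IsTopologicalGroup D] [CompactSpace D] in
theorem rel_ps {k : Type} [Field k] [Algebra (ZMod p) k] (V : Subgroup D) (ψ : V →* kˣ) :
    Rel (χ.comp V.subtype) ψ (ps χ V ψ) := by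
  intro g
  rw [ps_val, mul_comm, mul_assoc, Units.inv_mul, mul_one]
  rfl

omit [IsTopologicalGroup D] [CompactSpace D] in
theorem sm_ps (hχ : Continuous χ) {k : Type} [Field k] [Algebra (ZMod p) k] (V : Subgroup D)
    (ψ : V →* kˣ) (hψ : Sm (kch ψ)) : Sm (kch (ps χ V ψ)) := by
  obtain ⟨W, hW, h1⟩ := hψ
  obtain ⟨W', hW', h2⟩ := LLFN.exists_ker χ hχ
  refine ⟨W ⊓ W'.subgroupOf V, hW.inter (hW'.preimage continuous_subtype_val), ?_⟩
  intro w hw
  ext x
  have h3 : ((ψ w : kˣ) : k) = 1 := by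
    have := DFunLike.congr_fun (h1 w hw.1) (1 : k)
    rw [kch_apply, mul_one] at this
    exact this
  have h4 : ψ w = 1 := Units.ext h3
  have h5 := h2 w (Subgroup.mem_subgroupOf.1 hw.2)
  rw [kch_apply, ps_val, h4, h5, map_one, inv_one, Units.val_one, one_mul, one_mul]
  rfl

theorem FL_char (h3 : StLsh) (h4 : StPai) (h5 : StDup) (hχ : Continuous χ)
    {inv : (D → D → QZ p) →+ QZ p} {δ : ℕ} (hL : LocS p χ inv δ) (V : Subgroup D)
    (hV : IsOpen (V : Set D)) (k : Type) [Field k] [Finite k] [Algebra (ZMod p) k]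
    (ψ : V →* kˣ) (hψ : Sm (kch ψ)) : FL χ δ (indM V (kch ψ)) = 0 := by
  have hψ' := sm_ps χ hχ V ψ hψ
  have hR := rel_ps χ V ψ
  obtain ⟨a1, -, -, a4⟩ := h3 D V hV k ψ hψ
  obtain ⟨-, -, b3, -⟩ := h3 D V hV k (ps χ V ψ) hψ'
  have hc := hL.card V hV k ψ (ps χ V ψ) hψ hψ' hR
  have hk : 0 < Nat.card k := Nat.card_pos
  have hfin : Finite (IndM V (kch ψ)) := by
    apply Nat.finite_of_card_ne_zero
    rw [a1]
    exact (pow_pos hk _).ne'
  obtain ⟨lam, hlam⟩ : ∃ lam : k →+ QZ p, lam ≠ 0 := by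
    obtain ⟨f, hf⟩ := ((LDUP.homs p k).2.2 (LDUP.card_pow ⟨1, fun m => by
      rw [pow_one]
      exact LPAI.p_smul m⟩)).2 (1 : k) one_ne_zero
    exact ⟨f, fun h => hf (by rw [h, AddMonoidHom.zero_apply])⟩
  obtain ⟨Y, hY, hY', -⟩ := h4 p D χ hχ V hV k ψ (ps χ V ψ) hψ hψ' hR lam hlam
  obtain ⟨-, e, -, he⟩ := (h5 p D χ hχ (IndM V (kch ψ))).2 (IndM V (kch (ps χ V ψ))) Y
  have hH : Nat.card (BKND.H0 (dualA χ (indM V (kch ψ)))) =
      Nat.card (BKND.H0 (kch (ps χ V ψ))) := by
    rw [← b3, ← hY, ← hY']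
    exact (card_H0 _ _ e he).symm
  have hH0 : 0 < Nat.card (BKND.H0 (kch (ps χ V ψ))) := Nat.card_pos
  have hZ : Nat.card (BKND.Z1 (indM V (kch ψ))) =
      Nat.card (BKND.H0 (kch (ps χ V ψ))) * Nat.card k ^ (V.index + V.index * δ) := by
    apply Nat.eq_of_mul_eq_mul_right hk
    rw [a4, hc]
    ring
  unfold FL
  rw [hH, hZ, a1]
  push_cast
  have hk' : (Nat.card k : ℝ) ≠ 0 := by exact_mod_cast hk.ne'
  have hH' : (Nat.card (BKND.H0 (kch (ps χ V ψ))) : ℝ) ≠ 0 := by exact_mod_cast hH0.ne'
  rw [Real.log_mul hH' (pow_ne_zero _ hk'), Real.log_pow, Real.log_pow]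
  push_cast
  ring

end Char

end LLCA

open LLCA in
theorem stLca (h1 : StArt) (h2 : StLad) (h3 : StLsh) (h4 : StPai) (h5 : StDup) (h6 : StLfn) :
    StLca := by
  intro p _ D _ _ _ _ _ χ hχ inv δ hL hD
  have hfinZ : ∀ (M : Type) [AddCommGroup M] [Finite M] (ρ : D →* AddMonoid.End M), Sm ρ →
      (∃ n : ℕ, ∀ m : M, p ^ n • m = 0) → Finite (BKND.Z1 ρ) := by
    intro M _ _ ρ hρ hn
    exact h6 p D χ hχ inv δ hL M ρ hρ hn
  have hadd := h2 p D χ hχ inv hD hfinZ δ
  -- modules killed by `p`
  have hkill : ∀ (M : Type) [AddCommGroup M] [Finite M] (ρ : D →* AddMonoid.End M), Sm ρ →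
      (∀ m : M, p • m = 0) → FL χ δ ρ = 0 := by
    intro M _ _ ρ hρ hp
    obtain ⟨U, hU⟩ : ∃ U : Subgroup D, U = ρ.ker := ⟨_, rfl⟩
    have hUn : U.Normal := by
      rw [hU]
      infer_instance
    have hUo : IsOpen (U : Set D) := by
      obtain ⟨W, hW, hW1⟩ := hρ
      refine Subgroup.isOpen_mono (H₁ := W) ?_ hW
      rw [hU]
      intro w hw
      exact MonoidHom.mem_ker.2 (hW1 w hw)
    have hfin : Finite (D ⧸ U) := Subgroup.quotient_finite_of_isOpen U hUo
    have hsm : ∀ (N : Type) [AddCommGroup N] (σ : D ⧸ U →* AddMonoid.End N),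
        Sm (σ.comp (QuotientGroup.mk' U)) := by
      intro N _ σ
      refine ⟨U, hUo, fun w hw => ?_⟩
      rw [MonoidHom.comp_apply, QuotientGroup.mk'_apply, (QuotientGroup.eq_one_iff w).2 hw, map_one]
    have hqs : Function.Surjective (QuotientGroup.mk' U) := QuotientGroup.mk'_surjective U
    have hA : AddF p (D ⧸ U) (fun (N : Type) [AddCommGroup N] (σ : D ⧸ U →* AddMonoid.End N) =>
        FL χ δ (σ.comp (QuotientGroup.mk' U))) := by
      refine ⟨?_⟩
      intro N' N N'' _ _ _ _ σ' σ σ'' i q hN hi hq hinj hsur hex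
      exact hadd N' N N'' (σ'.comp (QuotientGroup.mk' U)) (σ.comp (QuotientGroup.mk' U))
        (σ''.comp (QuotientGroup.mk' U)) i q (hsm N σ)
        ⟨1, fun m => by
          rw [pow_one]
          exact hN m⟩ (fun g x => hi _ x) (fun g x => hq _ x) hinj hsur hex
    have hC : ∀ C : Subgroup (D ⧸ U), IsCyclic C → ∀ (k : Type) [Field k] [Finite k]
        [Algebra (ZMod p) k] (ψ : C →* kˣ),
        FL χ δ ((indM C (kch ψ)).comp (QuotientGroup.mk' U)) = 0 := by
      intro C _ k _ _ _ ψ
      have hVo : IsOpen ((C.comap (QuotientGroup.mk' U) : Subgroup D) : Set D) := by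
        refine Subgroup.isOpen_mono (H₁ := U) ?_ hUo
        intro u hu
        rw [Subgroup.mem_comap, QuotientGroup.mk'_apply, (QuotientGroup.eq_one_iff u).2 hu]
        exact C.one_mem
      have hψ : Sm (kch (ch (QuotientGroup.mk' U) C ψ)) := by
        refine ⟨U.subgroupOf _, hUo.preimage continuous_subtype_val, fun w hw => ?_⟩
        ext x
        have hw1 : (⟨QuotientGroup.mk' U w, w.2⟩ : C) = 1 := by
          apply Subtype.ext
          change (QuotientGroup.mk' U) (w : D) = 1
          rw [QuotientGroup.mk'_apply]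
          exact (QuotientGroup.eq_one_iff (w : D)).2 (Subgroup.mem_subgroupOf.1 hw)
        rw [kch_apply, ch_apply, hw1, map_one, Units.val_one, one_mul]
        rfl
      rw [FL_congr χ δ _ (indM (C.comap (QuotientGroup.mk' U))
        (kch (ch (QuotientGroup.mk' U) C ψ))) (inflE C ψ hqs) (inflE_act C ψ hqs)]
      exact FL_char χ h3 h4 h5 hχ hL _ hVo k _ hψ
    have key := h1 p (D ⧸ U) (fun (N : Type) [AddCommGroup N] (σ : D ⧸ U →* AddMonoid.End N) =>
        FL χ δ (σ.comp (QuotientGroup.mk' U))) hA hC M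
      (QuotientGroup.lift U ρ (fun x hx => by
        rw [hU] at hx
        exact MonoidHom.mem_ker.1 hx)) hp
    exact key
  -- devissage
  have main : ∀ n : ℕ, ∀ (M : Type) [AddCommGroup M] [Finite M] (ρ : D →* AddMonoid.End M),
      Sm ρ → (∃ n : ℕ, ∀ m : M, p ^ n • m = 0) → Nat.card M ≤ n → FL χ δ ρ = 0 := by
    intro n
    induction n with
    | zero =>
      intro M _ _ ρ _ _ hM
      have := Nat.card_pos (α := M)
      omega
    | succ n ih =>
      intro M _ _ ρ hρ hn hM
      by_cases hp : ∀ m : M, p • m = 0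
      · exact hkill M ρ hρ hp
      obtain ⟨K, hK⟩ : ∃ K : AddSubgroup M, K = (nsmulAddMonoidHom (α := M) p).ker := ⟨_, rfl⟩
      have hmem : ∀ x, x ∈ K ↔ p • x = 0 := by
        intro x
        rw [hK]
        exact Iff.rfl
      have hst : ∀ g, ∀ x ∈ K, ρ g x ∈ K := by
        intro g x hx
        rw [hmem, ← map_nsmul, (hmem x).1 hx, map_zero]
      have ht : K ≠ ⊤ := by
        intro h
        apply hp
        intro m
        rw [← hmem, h]
        exact AddSubgroup.mem_top m
      have hb : K ≠ ⊥ := by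
        intro h
        obtain ⟨a, ha⟩ := hn
        have hinj : ∀ x : M, p • x = 0 → x = 0 := by
          intro x hx
          have := (hmem x).2 hx
          rw [h] at this
          exact (AddSubgroup.mem_bot).1 this
        have hpow : ∀ b : ℕ, ∀ x : M, p ^ b • x = 0 → x = 0 := by
          intro b
          induction b with
          | zero =>
            intro x hx
            rw [pow_zero, one_smul] at hx
            exact hx
          | succ b ihb =>
            intro x hx
            rw [pow_succ, mul_smul] at hx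
            exact hinj x (ihb _ hx)
        apply hp
        intro m
        rw [hpow a m (ha m), smul_zero]
      have hcard := AddSubgroup.card_eq_card_quotient_mul_card_addSubgroup K
      have hN1 : 1 < Nat.card K := by
        rw [AddSubgroup.one_lt_card_iff_ne_bot]
        exact hb
      have hQ1 : 1 < Nat.card (M ⧸ K) := by
        change 1 < K.index
        have h2 : K.index ≠ 1 := by
          rw [Ne, AddSubgroup.index_eq_one]
          exact ht
        have h3 : K.index ≠ 0 := AddSubgroup.FiniteIndex.index_ne_zero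
        omega
      have hN2 : Nat.card K ≤ n := by
        have h4 : 2 * Nat.card K ≤ Nat.card (M ⧸ K) * Nat.card K := Nat.mul_le_mul_right _ hQ1
        omega
      have hQ2 : Nat.card (M ⧸ K) ≤ n := by
        have h4 : Nat.card (M ⧸ K) * 2 ≤ Nat.card (M ⧸ K) * Nat.card K :=
          Nat.mul_le_mul_left _ hN1
        omega
      obtain ⟨a, ha⟩ := hn
      have h7 := hadd K M (M ⧸ K) (ACYC.resA ρ K hst) ρ (ACYC.quoA ρ K hst) K.subtype
        (QuotientAddGroup.mk' K) hρ ⟨a, ha⟩ (fun g x => rfl) (fun g x => rfl)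
        K.subtype_injective (QuotientAddGroup.mk'_surjective K) (fun x => by
          rw [QuotientAddGroup.mk'_apply, QuotientAddGroup.eq_zero_iff]
          exact ⟨fun hx => ⟨⟨x, hx⟩, rfl⟩, fun ⟨y, hy⟩ => hy ▸ y.2⟩)
      obtain ⟨W, hW, hW1⟩ := hρ
      have hs1 : Sm (ACYC.resA ρ K hst) := by
        refine ⟨W, hW, fun w hw => ?_⟩
        ext x
        change ρ w (x : M) = x
        rw [hW1 w hw]
        rfl
      have hs2 : Sm (ACYC.quoA ρ K hst) := by
        refine ⟨W, hW, fun w hw => ?_⟩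
        apply QuotientAddGroup.addMonoidHom_ext
        ext x
        change (QuotientAddGroup.mk (ρ w x) : M ⧸ K) = QuotientAddGroup.mk x
        rw [hW1 w hw]
        rfl
      rw [h7, ih K (ACYC.resA ρ K hst) hs1 ⟨a, fun x => Subtype.ext (ha x)⟩ hN2,
        ih (M ⧸ K) (ACYC.quoA ρ K hst) hs2 ⟨a, fun x => by
          obtain ⟨y, rfl⟩ := QuotientAddGroup.mk'_surjective K x
          rw [← map_nsmul, ha, map_zero]⟩ hQ2, add_zero]
  intro M _ _ ρ hρ hn
  exact main (Nat.card M) M ρ hρ hn le_rfl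

end BKT
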