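import Pool.Agent.Lib.MP_7c08ba_nt.T1.StNP
import Pool.Agent.Lib.MP_7c08ba_nt.T1.StGN
import Pool.Agent.Lib.MP_7c08ba_nt.T1.StF

set_option autoImplicit false

/-!
Parity for general residual representations and arbitrary ramification at the primes which do not
split, part NF: the theorem for groups and the arithmetic assembly. Definitions and statements.
-/

noncomputable section

namespace BKT

open NumberField BKGen
open BKPar (Loc1 Loc2)
open BKND (Sm)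
open BKMet
open BKV (RU GU dc)
open Matrix

/-! ### The situation -/

section Places

variable {ι κ : Type}

/-- the conjugation on the set of places -/
def sg : (ι × Bool) ⊕ κ → (ι × Bool) ⊕ κ
  | Sum.inl w => Sum.inl (w.1, !w.2)
  | Sum.inr k => Sum.inr k

/-- the degrees -/
def dN (δ : ι → ℕ) : (ι × Bool) ⊕ κ → ℕ
  | Sum.inl w => δ w.1
  | Sum.inr _ => 0

end Places

/-- the places `(i, false)` -/
def TF (ι κ : Type) : Set ((ι × Bool) ⊕ κ) := {w | ∃ i, w = Sum.inl (i, false)}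

/-- A profinite group `G` with a conjugation `c`, local groups `D i → G` (each also taken with the
conjugate map) and local groups `E k → G` whose conjugates are conjugate to them by elements of
`G`; as `SitG`. -/
structure SitN (p : ℕ) [Fact p.Prime] {ι κ : Type} [Fintype ι] [Fintype κ] {G : Type} [Group G]
    [TopologicalSpace G] {D : ι → Type} {E : κ → Type} [∀ i, Group (D i)] [∀ k, Group (E k)]
    [∀ i, TopologicalSpace (D i)] [∀ k, TopologicalSpace (E k)]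
    (r : ∀ i, D i →* G) (q : ∀ k, E k →* G) (c : G →* G) (χ : G →* ℤ_[p]ˣ)
    (inv : ∀ i, (D i → D i → QZ p) →+ QZ p) (invN : ∀ k, (E k → E k → QZ p) →+ QZ p)
    (δ : ι → ℕ) (U : Subgroup G) : Prop where
  cont_r : ∀ i, Continuous (r i)
  cont_q : ∀ k, Continuous (q k)
  cont_c : Continuous c
  inv_c : ∀ g, c (c g) = g
  cont_χ : Continuous χ
  χ_c : ∀ g, χ (c g) = χ g
  normal : U.Normal
  open' : IsOpen (U : Set G)
  fix : ∀ u ∈ U, PadicInt.toZMod ((χ u : ℤ_[p]ˣ) : ℤ_[p]) = 1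
  loc : ∀ i, LocG p (χ.comp (r i)) (inv i) (δ i)
  locN : ∀ k, LocG p (χ.comp (q k)) (invN k) 0
  glob : GlobI p (rS r q c) χ U
  recip : ∀ z ∈ BKND.Z2 (actA χ), ∑ i, (inv i (pb2 (r i) z) - inv i (pb2 (c.comp (r i)) z)) +
    ∑ k, invN k (pb2 (q k) z) = 0
  sum : ∑ i, δ i = 1
  conj : ∀ k, ∃ (τ : E k →* E k) (s : E k) (h : G), Continuous τ ∧
    (∀ d, c (q k d) = h * q k (τ d) * h⁻¹) ∧ c h * h = (q k s)⁻¹ ∧
    ∀ z ∈ BKND.Z2 (actA (χ.comp (q k))),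
      invN k (fun d d' => actA χ h (z (τ d) (τ d'))) = - invN k z

/-- Module GAMN (from EXT; as GAMT): the global situation of part Y with the conjugation. The map
`τ` is the identity at the places `(i, b)`, and `h = 1` there; `inv (i, false) = inv i`,
`inv (i, true) = - inv i`. -/
def StGamN : Prop :=
  ∀ (p : ℕ) [Fact p.Prime], p ≠ 2 → ∀ (ι κ : Type) [Fintype ι] [Fintype κ] (G : Type) [Group G]
    [TopologicalSpace G] [IsTopologicalGroup G] [CompactSpace G] (D : ι → Type) (E : κ → Type)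
    [∀ i, Group (D i)] [∀ k, Group (E k)] [∀ i, TopologicalSpace (D i)]
    [∀ k, TopologicalSpace (E k)] (r : ∀ i, D i →* G) (q : ∀ k, E k →* G) (c : G →* G)
    (χ : G →* ℤ_[p]ˣ) (inv : ∀ i, (D i → D i → QZ p) →+ QZ p)
    (invN : ∀ k, (E k → E k → QZ p) →+ QZ p) (δ : ι → ℕ) (U : Subgroup G),
    SitN p r q c χ inv invN δ U →
    ∃ (Γ : Glo ((ι × Bool) ⊕ κ) G (SD D E) (QZ p) (QZ p))
      (τ : ∀ w, SD D E w →* SD D E (sg w)) (h : (ι × Bool) ⊕ κ → G),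
      (∀ w, Γ.r w = rS r q c w) ∧ CjP Γ c sg τ h ∧ SitY p Γ χ (dN δ) U

/-! ### Lattices -/

section Lattices

variable {p : ℕ} [Fact p.Prime] {L : Type} [NormedField L] [NormedAlgebra ℚ_[p] L] {n : ℕ}

/-- vectors with integral entries as vectors over `L` -/
def inL (p : ℕ) [Fact p.Prime] (L : Type) [NormedField L] [NormedAlgebra ℚ_[p] L] (n : ℕ) :
    (Fin n → OO p L) →+ (Fin n → L) :=
  (OO p L).subtype.toAddMonoidHom.compLeft (Fin n)

/-- the lattice `S⁻¹ P` -/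
def latS (p : ℕ) [Fact p.Prime] {L : Type} [NormedField L] [NormedAlgebra ℚ_[p] L] {n : ℕ}
    (S : GL (Fin n) L) (P : Submodule (OO p L) (Fin n → OO p L)) :
    AddSubgroup (Fin n → L) :=
  (P.toAddSubgroup.map (inL p L n)).comap (S : Matrix (Fin n) (Fin n) L).mulVecLin.toAddMonoidHom

/-- the vectors which are fixed by `D` modulo `P` -/
def fixL {D : Type} [Group D] (V : D →* GL (Fin n) L) (P : AddSubgroup (Fin n → L)) :
    AddSubgroup (Fin n → L) where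
  carrier := {v | ∀ d, (V d : Matrix (Fin n) (Fin n) L) *ᵥ v - v ∈ P}
  add_mem' := by
    intro v w hv hw d
    rw [Matrix.mulVec_add, add_sub_add_comm]
    exact P.add_mem (hv d) (hw d)
  zero_mem' := fun d => by
    rw [Matrix.mulVec_zero, sub_zero]
    exact P.zero_mem
  neg_mem' := by
    intro v hv d
    rw [Matrix.mulVec_neg, neg_sub_neg, ← neg_sub]
    exact P.neg_mem (hv d)

/-- the length of `(V / P)^D` -/
def lnD (p : ℕ) [Fact p.Prime] {L : Type} [NormedField L] [NormedAlgebra ℚ_[p] L] {n : ℕ}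
    {D : Type} [Group D] (V : D →* GL (Fin n) L) (P : AddSubgroup (Fin n → L)) : ℕ :=
  Nat.log (Nat.card (kk p L)) (P.relIndex (fixL V P))

variable [FiniteDimensional ℚ_[p] L]

/-- the lattice `π^m (𝒪^n)` for `k = 2 m` and `π^m N` for `k = 2 m + 1` -/
def NNk (N : Submodule (OO p L) (Fin n → OO p L)) (k : ℕ) :
    Submodule (OO p L) (Fin n → OO p L) :=
  (if k % 2 = 0 then ⊤ else N).map
    (LinearMap.lsmul (OO p L) (Fin n → OO p L) (pi0 p L ^ (k / 2)))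

end Lattices

/-- Module LAGN (as LAGR): the Lagrangian submodules at all levels. -/
def StLagn : Prop :=
  ∀ (p : ℕ) [Fact p.Prime] (L : Type) [NormedField L] [NormedAlgebra ℚ_[p] L]
    [FiniteDimensional ℚ_[p] L] (G : Type) [Group G] [TopologicalSpace G]
    (χ : G →* ℤ_[p]ˣ) (n : ℕ) (ρ ρ' : G →* GL (Fin n) (OO p L))
    (B : Matrix (Fin n) (Fin n) (OO p L)), Bᵀ = B → IsUnit B.det →
    ∀ lam : L →ₗ[ℚ_[p]] ℚ_[p], IsLam p L lam →
    ∀ N : Submodule (OO p L) (Fin n → OO p L), (∀ x : Fin n → OO p L, pi0 p L • x ∈ N) →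
      (∀ g, ∀ x ∈ N, (ρ g : Matrix (Fin n) (Fin n) (OO p L)) *ᵥ x ∈ N) →
      (∀ y, y ∈ N ↔ ∀ x ∈ N, pi0 p L ∣ x ⬝ᵥ (B *ᵥ y)) →
    ∀ (k : ℕ) (X : Pair (OO p L) (actA χ) (MK p L n k) (MK p L n k)), IsMk χ lam k ρ ρ' B X →
    (∀ m m', X.b m m' = X.b m' m) ∧ X.Stable ((NNk N k).map (rv p L k)) ∧
      X.perp ((NNk N k).map (rv p L k)) = (NNk N k).map (rv p L k)

/-- Module LFT (from LFN): cocycles modulo `π^k` of a representation without cohomology. (The group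
`H²(𝒪^n / π^j)` is dual to `H⁰`, and the map from `H²(𝒪^n / π^j)` to `H²(𝒪^n / π^(j + a))` given
by `π^a` is zero; so a cocycle modulo `π^k` is congruent modulo `π^(k - a)` to a cocycle modulo
`π^K`, for all `K`.) -/
def StLft : Prop :=
  ∀ (p : ℕ) [Fact p.Prime] (L : Type) [NormedField L] [NormedAlgebra ℚ_[p] L]
    [FiniteDimensional ℚ_[p] L] (D : Type) [Group D] [TopologicalSpace D] [IsTopologicalGroup D]
    [CompactSpace D] [NonarchimedeanGroup D] (χ : D →* ℤ_[p]ˣ), Continuous χ →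
    ∀ (inv : (D → D → QZ p) →+ QZ p) (δ : ℕ), LocG p χ inv δ →
    ∀ (n : ℕ) (ρ ρ' : D →* GL (Fin n) (OO p L)), Continuous ρ → Continuous ρ' →
    ∀ B : Matrix (Fin n) (Fin n) (OO p L), IsUnit B.det →
    IsDual χ ((toL p L n).comp ρ) ((toL p L n).comp ρ') (B.map (OO p L).subtype) →
    ∀ lam : L →ₗ[ℚ_[p]] ℚ_[p], IsLam p L lam →
    ∀ (X : ∀ k, Pair (OO p L) (actA χ) (MK p L n k) (MK p L n k)),
    (∀ k, IsMk χ lam k ρ ρ' B (X k)) → NoInv ((toL p L n).comp ρ') →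
    BKOdd.Z1 ((toL p L n).comp ρ) ≤ BKOdd.B1 ((toL p L n).comp ρ) →
    ∃ a : ℕ, ∀ k, a ≤ k → ∀ f ∈ BKND.Z1 (X k).ρ, ∃ v : Fin n → L, ∀ d,
      ∃ y z : Fin n → OO p L,
        (toL p L n (ρ d) : Matrix (Fin n) (Fin n) L) *ᵥ v - v = inL p L n y ∧
        f d - rv p L k y = pi0 p L ^ (k - a) • rv p L k z

/-- Module H0N: the elements which are fixed modulo the Lagrangian submodules. -/
def StH0n : Prop :=
  ∀ (p : ℕ) [Fact p.Prime] (L : Type) [NormedField L] [NormedAlgebra ℚ_[p] L]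
    [FiniteDimensional ℚ_[p] L] (G : Type) [Group G] [TopologicalSpace G] (D : Type) [Group D]
    (r : D →* G) (n : ℕ) (ρ : G →* GL (Fin n) (OO p L)),
    NoInv (((toL p L n).comp ρ).comp r) →
    ∀ N : Submodule (OO p L) (Fin n → OO p L), (∀ x : Fin n → OO p L, pi0 p L • x ∈ N) →
    ∀ (A : Type) [AddCommGroup A] (α : G →* AddMonoid.End A)
    (X : ∀ k, Pair (OO p L) α (MK p L n k) (MK p L n k)),
    (∀ k g v, (X k).ρ g (rv p L k v) =
      rv p L k ((ρ g : Matrix (Fin n) (Fin n) (OO p L)) *ᵥ v)) →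
    ∃ e e' K : ℕ,
      (latS p 1 ⊤).relIndex (fixL (((toL p L n).comp ρ).comp r) (latS p 1 ⊤)) =
        Nat.card (kk p L) ^ e ∧
      (latS p 1 N).relIndex (fixL (((toL p L n).comp ρ).comp r) (latS p 1 N)) =
        Nat.card (kk p L) ^ e' ∧
      ∀ k, K ≤ k → ((NNk N k).map (rv p L k)).toAddSubgroup.relIndex
        (fxp (X k) r ((NNk N k).map (rv p L k))).toAddSubgroup =
          Nat.card (kk p L) ^ (if k % 2 = 0 then e else e')

/-- Module STB: the images of the classes in the cohomology of the local groups `D w`, `w ∈ W`, with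
values in the quotient by the Lagrangian submodule stabilise. -/
def StStb : Prop :=
  ∀ (p : ℕ) [Fact p.Prime] (L : Type) [NormedField L] [NormedAlgebra ℚ_[p] L]
    [FiniteDimensional ℚ_[p] L] (G : Type) [Group G] [TopologicalSpace G] [IsTopologicalGroup G]
    [CompactSpace G] [NonarchimedeanGroup G] (S : Type) [Fintype S] (D : S → Type)
    [∀ w, Group (D w)] [∀ w, TopologicalSpace (D w)] (r : ∀ w, D w →* G),
    (∀ w, Continuous (r w)) →
    ∀ (n : ℕ) (ρ : G →* GL (Fin n) (OO p L)), Continuous ρ →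
    ∀ N : Submodule (OO p L) (Fin n → OO p L), (∀ x : Fin n → OO p L, pi0 p L • x ∈ N) →
    (∀ g, ∀ x ∈ N, (ρ g : Matrix (Fin n) (Fin n) (OO p L)) *ᵥ x ∈ N) →
    ∀ (A : Type) [AddCommGroup A] (α : G →* AddMonoid.End A)
    (X : ∀ k, Pair (OO p L) α (MK p L n k) (MK p L n k)),
    (∀ k g v, (X k).ρ g (rv p L k v) =
      rv p L k ((ρ g : Matrix (Fin n) (Fin n) (OO p L)) *ᵥ v)) →
    ∀ T W : Set S,
    (∀ w ∈ W, NoInv (((toL p L n).comp ρ).comp (r w))) →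
    (∀ w ∈ W, ∃ a : ℕ, ∀ k, a ≤ k → ∀ f ∈ BKND.Z1 ((X k).ρ.comp (r w)), ∃ v : Fin n → L,
      ∀ d, ∃ y z : Fin n → OO p L,
        (toL p L n (ρ (r w d)) : Matrix (Fin n) (Fin n) L) *ᵥ v - v = inL p L n y ∧
        f d - rv p L k y = pi0 p L ^ (k - a) • rv p L k z) →
    ∃ K m : ℕ, m ≠ 0 ∧ ∀ k, K ≤ k →
      (ltr (X k) r W ((NNk N k).map (rv p L k)) ⊓ (X k).Zr r T ⊥ ⊤).toAddSubgroup.relIndex
        ((X k).Zr r T ⊥ ⊤).toAddSubgroup = m

/-! ### The theorem for groups -/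

/-- Module PARXN (from SDN, YR, GAMN, LAGN, LFT, H0N, STB, and LAM, MK, LIMG of `Met`; as PARXT):
parity and the Euler characteristic with coefficients in `L`. -/
def StParXN : Prop :=
  ∀ (p : ℕ) [Fact p.Prime], p ≠ 2 → ∀ (L : Type) [NormedField L] [NormedAlgebra ℚ_[p] L]
    [FiniteDimensional ℚ_[p] L] (ι κ : Type) [Fintype ι] [Fintype κ] (G : Type) [Group G]
    [TopologicalSpace G] [IsTopologicalGroup G] [CompactSpace G] [NonarchimedeanGroup G]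
    (D : ι → Type) (E : κ → Type) [∀ i, Group (D i)] [∀ k, Group (E k)]
    [∀ i, TopologicalSpace (D i)] [∀ k, TopologicalSpace (E k)]
    [∀ i, IsTopologicalGroup (D i)] [∀ k, IsTopologicalGroup (E k)] [∀ i, CompactSpace (D i)]
    [∀ k, CompactSpace (E k)] [∀ k, NonarchimedeanGroup (E k)] (r : ∀ i, D i →* G)
    (q : ∀ k, E k →* G) (c : G →* G) (χ : G →* ℤ_[p]ˣ)
    (inv : ∀ i, (D i → D i → QZ p) →+ QZ p) (invN : ∀ k, (E k → E k → QZ p) →+ QZ p)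
    (δ : ι → ℕ) (U : Subgroup G), SitN p r q c χ inv invN δ U → ∀ (n : ℕ)
    (V : G →* GL (Fin n) L) (B : GL (Fin n) L), Continuous V →
    (B : Matrix (Fin n) (Fin n) L)ᵀ = B → IsDual χ V (V.comp c) (B : Matrix (Fin n) (Fin n) L) →
    ∀ (S : GL (Fin n) L) (ρ : G →* GL (Fin n) (OO p L))
      (B₀ : Matrix (Fin n) (Fin n) (OO p L)) (N : Submodule (OO p L) (Fin n → OO p L)),
    Metab V B S ρ B₀ N → TrivR ρ U → (∀ k, NoInv (V.comp (q k))) →
    (∀ k, NoInv ((V.comp c).comp (q k))) →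
    (∀ k, BKOdd.Z1 (V.comp (q k)) ≤ BKOdd.B1 (V.comp (q k))) →
    (FiniteDimensional L (ZTV V (rS r q c) (TF ι κ)) ∧
      (Module.finrank L (ZTV V (rS r q c) (TF ι κ)) + n + ∑ k, (lnD p (V.comp (q k)) (latS p S ⊤) +
        lnD p (V.comp (q k)) (latS p S N))) % 2 = 0) ∧
    ∀ T : Set ((ι × Bool) ⊕ κ), T.Nonempty → Tᶜ.Nonempty →
      FiniteDimensional L (ZTV V (rS r q c) T) ∧
      FiniteDimensional L (ZTV (V.comp c) (rS r q c) Tᶜ) ∧
      Module.finrank L (ZTV V (rS r q c) T) +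
        n * (∑ w, open Classical in if w ∈ T then dN δ w else 0) =
      Module.finrank L (ZTV (V.comp c) (rS r q c) Tᶜ) + n

/-- Module LOCXN (from LVT; as LOCXT): the local theorem at all places. -/
def StLocXN : Prop :=
  ∀ (p : ℕ) [Fact p.Prime] (L : Type) [NormedField L] [NormedAlgebra ℚ_[p] L]
    [FiniteDimensional ℚ_[p] L] (ι κ : Type) [Fintype ι] [Fintype κ] (G : Type) [Group G]
    [TopologicalSpace G] [IsTopologicalGroup G] [CompactSpace G]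
    (D : ι → Type) (E : κ → Type) [∀ i, Group (D i)] [∀ k, Group (E k)]
    [∀ i, TopologicalSpace (D i)] [∀ k, TopologicalSpace (E k)]
    [∀ i, IsTopologicalGroup (D i)] [∀ k, IsTopologicalGroup (E k)] [∀ i, CompactSpace (D i)]
    [∀ k, CompactSpace (E k)] [∀ i, NonarchimedeanGroup (D i)]
    [∀ k, NonarchimedeanGroup (E k)] (r : ∀ i, D i →* G)
    (q : ∀ k, E k →* G) (c : G →* G) (χ : G →* ℤ_[p]ˣ)
    (inv : ∀ i, (D i → D i → QZ p) →+ QZ p) (invN : ∀ k, (E k → E k → QZ p) →+ QZ p)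
    (δ : ι → ℕ) (U : Subgroup G), SitN p r q c χ inv invN δ U → ∀ (n : ℕ)
    (V : G →* GL (Fin n) L) (B : GL (Fin n) L), Continuous V →
    (B : Matrix (Fin n) (Fin n) L)ᵀ = B → IsDual χ V (V.comp c) (B : Matrix (Fin n) (Fin n) L) →
    ∀ (S : GL (Fin n) L) (ρ : G →* GL (Fin n) (OO p L)),
    (∀ g, toL p L n (ρ g) = S * V g * S⁻¹) →
    (∀ i, NoInv (V.comp (r i))) → (∀ i, NoInv ((V.comp c).comp (r i))) →
    (∀ k, NoInv (V.comp (q k))) → (∀ k, NoInv ((V.comp c).comp (q k))) →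
    (∀ i, LocV (χ.comp (r i)) (δ i) (V.comp (r i)) ((dualC V c B).comp (r i))) ∧
    (∀ i, δ i = 0 → BKOdd.Z1 (V.comp (r i)) ≤ BKOdd.B1 (V.comp (r i)) ∧
      BKOdd.Z1 ((V.comp c).comp (r i)) ≤ BKOdd.B1 ((V.comp c).comp (r i))) ∧
    ∀ k, BKOdd.Z1 (V.comp (q k)) ≤ BKOdd.B1 (V.comp (q k)) ∧
      BKOdd.Z1 ((V.comp c).comp (q k)) ≤ BKOdd.B1 ((V.comp c).comp (q k))

/-- Module ZIDN (as ZID): the spaces with conditions in terms of cocycles. -/
def StZidN : Prop :=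
  ∀ (L : Type) [NormedField L] (ι κ : Type) (G : Type) [Group G]
    [TopologicalSpace G] [IsTopologicalGroup G] (D : ι → Type) (E : κ → Type)
    [∀ i, Group (D i)] [∀ k, Group (E k)]
    [∀ i, TopologicalSpace (D i)] [∀ k, TopologicalSpace (E k)] (r : ∀ i, D i →* G)
    (q : ∀ k, E k →* G) (_ : ∀ i, Continuous (r i)) (_ : ∀ k, Continuous (q k))
    (c : G →* G), Continuous c → (∀ g, c (c g) = g) → ∀ (n : ℕ) (V : G →* GL (Fin n) L),
    Continuous V → (∀ i, NoInv (V.comp (r i))) → (∀ i, NoInv ((V.comp c).comp (r i))) →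
    (∀ k, NoInv (V.comp (q k))) → (∀ k, NoInv ((V.comp c).comp (q k))) →
    ∀ i₀ i₁ : ι, i₁ ≠ i₀ →
    (∀ i, i ≠ i₀ → BKOdd.Z1 (V.comp (r i)) ≤ BKOdd.B1 (V.comp (r i)) ∧
      BKOdd.Z1 ((V.comp c).comp (r i)) ≤ BKOdd.B1 ((V.comp c).comp (r i))) →
    (∀ k, BKOdd.Z1 (V.comp (q k)) ≤ BKOdd.B1 (V.comp (q k)) ∧
      BKOdd.Z1 ((V.comp c).comp (q k)) ≤ BKOdd.B1 ((V.comp c).comp (q k))) →
    FiniteDimensional L (ZTV V (rS r q c) {Sum.inl (i₁, false)}) →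
    FiniteDimensional L (BKOdd.Z1 V) ∧
    Module.finrank L (ZTV V (rS r q c) {Sum.inl (i₁, false)}) =
      Module.finrank L (BKOdd.Z1 V) ∧
    (∀ W : Submodule L (G → Fin n → L), (∀ x, x ∈ W ↔ x ∈ BKOdd.Z1 V ∧
      (fun d => x (r i₀ d)) ∈ BKOdd.B1 (V.comp (r i₀)) ∧
      (fun d => x (c (r i₀ d))) ∈ BKOdd.B1 ((V.comp c).comp (r i₀))) →
      Module.finrank L (ZTV (V.comp c) (rS r q c) {Sum.inl (i₁, false)}ᶜ) =
        Module.finrank L W) ∧
    ∀ W : Submodule L (G → Fin n → L), (∀ x, x ∈ W ↔ x ∈ BKOdd.Z1 V ∧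
      (fun d => x (r i₀ d)) ∈ BKOdd.B1 (V.comp (r i₀))) →
      Module.finrank L (ZTV V (rS r q c) (TF ι κ)) = Module.finrank L W

/-- Module RLN (from LINEL; as RL): the reciprocity law with coefficients in `L(χ)`. -/
def StRlN : Prop :=
  ∀ (p : ℕ) [Fact p.Prime] (L : Type) [NormedField L] [NormedAlgebra ℚ_[p] L]
    [FiniteDimensional ℚ_[p] L] (G : Type) [Group G] [TopologicalSpace G] [IsTopologicalGroup G]
    [CompactSpace G] [NonarchimedeanGroup G] (ι κ : Type) [Fintype ι] [Fintype κ]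
    (D : ι → Type) (E : κ → Type) [∀ i, Group (D i)] [∀ k, Group (E k)]
    [∀ i, TopologicalSpace (D i)] [∀ k, TopologicalSpace (E k)]
    [∀ i, IsTopologicalGroup (D i)] [∀ k, IsTopologicalGroup (E k)] [∀ i, CompactSpace (D i)]
    [∀ k, CompactSpace (E k)] [∀ i, NonarchimedeanGroup (D i)]
    [∀ k, NonarchimedeanGroup (E k)]
    (r : ∀ i, D i →* G) (q : ∀ k, E k →* G), (∀ i, Continuous (r i)) →
    (∀ k, Continuous (q k)) → ∀ (c : G →* G), Continuous c →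
    ∀ (χ : G →* ℤ_[p]ˣ), Continuous χ → (∀ g, χ (c g) = χ g) →
    ∀ (inv : ∀ i, (D i → D i → QZ p) →+ QZ p) (invN : ∀ k, (E k → E k → QZ p) →+ QZ p),
    (∀ i, ∀ z ∈ BKND.Z2 (actA (χ.comp (r i))), inv i z = 0 ↔
      z ∈ BKND.B2 (actA (χ.comp (r i)))) →
    (∀ k, ∀ z ∈ BKND.Z2 (actA (χ.comp (q k))), invN k z = 0 ↔
      z ∈ BKND.B2 (actA (χ.comp (q k)))) →
    (∀ z ∈ BKND.Z2 (actA χ), ∑ i, (inv i (pb2 (r i) z) - inv i (pb2 (c.comp (r i)) z)) +
      ∑ k, invN k (pb2 (q k) z) = 0) →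
    ∀ i₀, LineAx p (χ.comp (r i₀)) → ∀ Z ∈ CC.Z2 (BKOdd.chL χ L),
    (∀ i, i ≠ i₀ → pb2 (r i) Z ∈ CC.B2 (BKOdd.chL (χ.comp (r i)) L) ∧
      pb2 (c.comp (r i)) Z ∈ CC.B2 (BKOdd.chL (χ.comp (r i)) L)) →
    (∀ k, pb2 (q k) Z ∈ CC.B2 (BKOdd.chL (χ.comp (q k)) L)) →
    pb2 (r i₀) Z - pb2 (c.comp (r i₀)) Z ∈ CC.B2 (BKOdd.chL (χ.comp (r i₀)) L)

/-- Module CUPXN (from RLN; as CUPXT): antisymmetry of the pairing of the restrictions. -/
def StCupXN : Prop :=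
  ∀ (p : ℕ) [Fact p.Prime] (L : Type) [NormedField L] [NormedAlgebra ℚ_[p] L]
    [FiniteDimensional ℚ_[p] L] (ι κ : Type) [Fintype ι] [Fintype κ] (G : Type) [Group G]
    [TopologicalSpace G] [IsTopologicalGroup G] [CompactSpace G] [NonarchimedeanGroup G]
    (D : ι → Type) (E : κ → Type) [∀ i, Group (D i)] [∀ k, Group (E k)]
    [∀ i, TopologicalSpace (D i)] [∀ k, TopologicalSpace (E k)]
    [∀ i, IsTopologicalGroup (D i)] [∀ k, IsTopologicalGroup (E k)] [∀ i, CompactSpace (D i)]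
    [∀ k, CompactSpace (E k)] [∀ i, NonarchimedeanGroup (D i)]
    [∀ k, NonarchimedeanGroup (E k)] (r : ∀ i, D i →* G)
    (q : ∀ k, E k →* G) (c : G →* G) (χ : G →* ℤ_[p]ˣ)
    (inv : ∀ i, (D i → D i → QZ p) →+ QZ p) (invN : ∀ k, (E k → E k → QZ p) →+ QZ p)
    (δ : ι → ℕ) (U : Subgroup G), SitN p r q c χ inv invN δ U → ∀ (n : ℕ)
    (V : G →* GL (Fin n) L) (B : GL (Fin n) L), Continuous V →
    (B : Matrix (Fin n) (Fin n) L)ᵀ = B → IsDual χ V (V.comp c) (B : Matrix (Fin n) (Fin n) L) →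
    ∀ i₀, LineAx p (χ.comp (r i₀)) →
    (∀ i, i ≠ i₀ → BKOdd.Z1 (V.comp (r i)) ≤ BKOdd.B1 (V.comp (r i)) ∧
      BKOdd.Z1 ((V.comp c).comp (r i)) ≤ BKOdd.B1 ((V.comp c).comp (r i))) →
    (∀ k, BKOdd.Z1 (V.comp (q k)) ≤ BKOdd.B1 (V.comp (q k)) ∧
      BKOdd.Z1 ((V.comp c).comp (q k)) ≤ BKOdd.B1 ((V.comp c).comp (q k))) →
    ∀ x ∈ BKOdd.Z1 V, ∀ y ∈ BKOdd.Z1 V,
      BKOdd.cupV ((dualC V c B).comp (r i₀)) (fun d => x (r i₀ d))
        (fun d => (B : Matrix (Fin n) (Fin n) L) *ᵥ y (c (r i₀ d))) +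
      BKOdd.cupV ((dualC V c B).comp (r i₀)) (fun d => y (r i₀ d))
        (fun d => (B : Matrix (Fin n) (Fin n) L) *ᵥ x (c (r i₀ d))) ∈
      CC.B2 (BKOdd.chL (χ.comp (r i₀)) L)

/-- Module MAINXN (from PARXN, LOCXN, ZIDN, CUPXN, and HOD, LA of `Met`; as MAINXT): **the parity
theorem for groups.** -/
def StMainXN : Prop :=
  ∀ (p : ℕ) [Fact p.Prime], p ≠ 2 → ∀ (L : Type) [NormedField L] [NormedAlgebra ℚ_[p] L]
    [FiniteDimensional ℚ_[p] L] (ι κ : Type) [Fintype ι] [Fintype κ] (G : Type) [Group G]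
    [TopologicalSpace G] [IsTopologicalGroup G] [CompactSpace G] [NonarchimedeanGroup G]
    (D : ι → Type) (E : κ → Type) [∀ i, Group (D i)] [∀ k, Group (E k)]
    [∀ i, TopologicalSpace (D i)] [∀ k, TopologicalSpace (E k)]
    [∀ i, IsTopologicalGroup (D i)] [∀ k, IsTopologicalGroup (E k)] [∀ i, CompactSpace (D i)]
    [∀ k, CompactSpace (E k)] [∀ i, NonarchimedeanGroup (D i)]
    [∀ k, NonarchimedeanGroup (E k)] (r : ∀ i, D i →* G)
    (q : ∀ k, E k →* G) (c : G →* G) (χ : G →* ℤ_[p]ˣ)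
    (inv : ∀ i, (D i → D i → QZ p) →+ QZ p) (invN : ∀ k, (E k → E k → QZ p) →+ QZ p)
    (δ : ι → ℕ) (U : Subgroup G), SitN p r q c χ inv invN δ U → ∀ (n : ℕ)
    (V : G →* GL (Fin n) L) (B : GL (Fin n) L), Continuous V →
    (B : Matrix (Fin n) (Fin n) L)ᵀ = B → IsDual χ V (V.comp c) (B : Matrix (Fin n) (Fin n) L) →
    ∀ (S : GL (Fin n) L) (ρ : G →* GL (Fin n) (OO p L))
      (B₀ : Matrix (Fin n) (Fin n) (OO p L)) (N : Submodule (OO p L) (Fin n → OO p L)),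
    Metab V B S ρ B₀ N → TrivR ρ U →
    (∀ i, NoInv (V.comp (r i))) → (∀ i, NoInv ((V.comp c).comp (r i))) →
    (∀ k, NoInv (V.comp (q k))) → (∀ k, NoInv ((V.comp c).comp (q k))) →
    ∀ i₀, δ i₀ = 1 → (∃ i, i ≠ i₀) → LineAx p (χ.comp (r i₀)) →
    ∀ (Zf : (D i₀ →* GL (Fin n) L) → Submodule L (D i₀ → Fin n → L)) (s s' : ℕ),
    BKOdd.HodgePair (BKOdd.chL (χ.comp (r i₀)) L) Zf (V.comp (r i₀))
      ((dualC V c B).comp (r i₀)) s s' →
    FiniteDimensional L (BKOdd.Z1 V) ∧ s + s' = n ∧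
    FiniteDimensional L (BKOdd.Z1 (V.comp (r i₀))) ∧
    FiniteDimensional L (BKOdd.Z1 ((dualC V c B).comp (r i₀))) ∧
    Module.finrank L (BKOdd.cls (V.comp (r i₀)) (Zf (V.comp (r i₀)))) = s ∧
    Module.finrank L (BKOdd.cls ((dualC V c B).comp (r i₀))
      (Zf ((dualC V c B).comp (r i₀)))) = s' ∧
    (∀ i, i ≠ i₀ → BKOdd.Z1 (V.comp (r i)) ≤ BKOdd.B1 (V.comp (r i)) ∧
      BKOdd.Z1 ((V.comp c).comp (r i)) ≤ BKOdd.B1 ((V.comp c).comp (r i))) ∧
    (∀ k, BKOdd.Z1 (V.comp (q k)) ≤ BKOdd.B1 (V.comp (q k)) ∧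
      BKOdd.Z1 ((V.comp c).comp (q k)) ≤ BKOdd.B1 ((V.comp c).comp (q k))) ∧
    ∀ W : Submodule L (G → Fin n → L), (∀ x, x ∈ W ↔ x ∈ BKOdd.Z1 V ∧
      (fun d => x (r i₀ d)) ∈ Zf (V.comp (r i₀)) ∧
      (fun d => (B : Matrix (Fin n) (Fin n) L) *ᵥ x (c (r i₀ d))) ∈
        Zf ((dualC V c B).comp (r i₀))) →
      (Module.finrank L W + s + n + ∑ k, (lnD p (V.comp (q k)) (latS p S ⊤) +
        lnD p (V.comp (q k)) (latS p S N))) % 2 = 0

/-! ### Arithmetic -/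

section Arith

variable {F : Type} [Field F] {L : Type} [NormedField L] {n : ℕ}

/-- the vectors which are fixed modulo `P` by the decomposition group of the place `j` -/
def fixJ (V : GF F →* GL (Fin n) L) {l : ℕ} [Fact l.Prime]
    (j : AlgebraicClosure F →+* PadicAlgCl l) (P : AddSubgroup (Fin n → L)) :
    AddSubgroup (Fin n → L) where
  carrier := {v | ∀ (g : GF F) (t : GQ l), (∀ z, j (g z) = t (j z)) →
    (V g : Matrix (Fin n) (Fin n) L) *ᵥ v - v ∈ P}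
  add_mem' := by
    intro v w hv hw g t hgt
    rw [Matrix.mulVec_add, add_sub_add_comm]
    exact P.add_mem (hv g t hgt) (hw g t hgt)
  zero_mem' := fun g t _ => by
    rw [Matrix.mulVec_zero, sub_zero]
    exact P.zero_mem
  neg_mem' := by
    intro v hv g t hgt
    rw [Matrix.mulVec_neg, neg_sub_neg, ← neg_sub]
    exact P.neg_mem (hv g t hgt)

/-- the length of the invariants of the decomposition group of the place `j` in `V / P` -/
def lnJ (p : ℕ) [Fact p.Prime] [NormedAlgebra ℚ_[p] L] (V : GF F →* GL (Fin n) L) {l : ℕ}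
    [Fact l.Prime] (j : AlgebraicClosure F →+* PadicAlgCl l) (P : AddSubgroup (Fin n → L)) : ℕ :=
  Nat.log (Nat.card (kk p L)) (P.relIndex (fixJ V j P))

end Arith

/-- Module LNJ: the index does not depend on the choice of the place above a prime which does not
split. -/
def StLnj : Prop :=
  ∀ (F : Type) [Field F] [NumberField F], Module.finrank ℚ F = 2 → ∀ (l : ℕ) [Fact l.Prime],
    ¬ Splits F l → ∀ (L : Type) [NormedField L] (n : ℕ) (V : GF F →* GL (Fin n) L)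
    (P : AddSubgroup (Fin n → L)),
    (∀ g, ∀ v ∈ P, (V g : Matrix (Fin n) (Fin n) L) *ᵥ v ∈ P) →
    ∀ j j' : AlgebraicClosure F →+* PadicAlgCl l,
    P.relIndex (fixJ V j P) = P.relIndex (fixJ V j' P)

/-- Module UNRN (from MIX; as UNRT): cocycles which are unramified away from `p`. -/
def StUnrN : Prop :=
  ∀ (p : ℕ) [Fact p.Prime] (F : Type) [Field F] [NumberField F],
    Module.finrank ℚ F = 2 →
    ∀ (c : AlgebraicClosure F ≃+* AlgebraicClosure F) (σ : F ≃+* F) (hcs : BKOdd.ConjHyp c σ)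
    (L : Type) [NormedField L] [NormedAlgebra ℚ_[p] L] [FiniteDimensional ℚ_[p] L] (n : ℕ)
    (V : GF F →* GL (Fin n) L), Continuous V → ∀ (Λ : Pl F) (Ξ : Npl F), p ∈ Λ.P →
    (∀ i, Splits F (Λ.l i)) →
    ∀ U₀ : Subgroup (GF F), U₀.Normal → IsOpen (U₀ : Set (GF F)) →
    (∀ (l : ℕ) [Fact l.Prime], l ∉ Λ.P ∪ Ξ.P → ∀ j : AlgebraicClosure F →+* PadicAlgCl l,
      ∀ g ∈ Inert F (AlgebraicClosure F) j, g ∈ U₀ → V g = 1) →
    (∀ i, Λ.l i ≠ p → BKOdd.Z1 (V.comp (Λ.r i)) ≤ BKOdd.B1 (V.comp (Λ.r i)) ∧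
      BKOdd.Z1 ((V.comp (BKOdd.conj c σ hcs.h)).comp (Λ.r i)) ≤
        BKOdd.B1 ((V.comp (BKOdd.conj c σ hcs.h)).comp (Λ.r i))) →
    (∀ k, BKOdd.Z1 (V.comp (Ξ.r k)) ≤ BKOdd.B1 (V.comp (Ξ.r k))) →
    ∀ x ∈ BKOdd.Z1 V, BKOdd.UnrAway p V x ↔ ∀ g ∈ RU F (Λ.P ∪ Ξ.P) U₀, x g = 0

/-- Module PARN (from ARITHN, MAINXN, UNRN, LNJ, U0T, DESCT, and LINEQ, CRYM, HODM of `Met`; as
PART): **parity of `H¹_f` for representations with metabolic reduction**, with arbitrary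
ramification at the primes `l k`, which do not split in `F`. -/
def StParN : Prop :=
  ∀ (p : ℕ) [Fact p.Prime], p ≠ 2 → ∀ (F : Type) [Field F] [NumberField F],
    Module.finrank ℚ F = 2 → IsEmpty (F →+* ℝ) → Splits F p →
    ∀ (c : AlgebraicClosure F ≃+* AlgebraicClosure F) (σ : F ≃+* F) (hcs : BKOdd.ConjHyp c σ)
    (L : Type) [NormedField L] [NormedAlgebra ℚ_[p] L] [FiniteDimensional ℚ_[p] L] (n : ℕ)
    (V : GF F →* GL (Fin n) L), Continuous V →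
    ∀ P₀ : Set ℕ, P₀.Finite → (∀ l ∈ P₀, Splits F l) →
    ∀ (κ : Type) [Fintype κ] (m : κ → ℕ) [∀ k, Fact (m k).Prime], Function.Injective m →
    (∀ k, ¬ Splits F (m k)) → ∀ j : ∀ k, AlgebraicClosure F →+* PadicAlgCl (m k),
    (∀ (l : ℕ) [Fact l.Prime], l ≠ p → l ∉ P₀ → l ∉ Set.range m →
      ∀ j : AlgebraicClosure F →+* PadicAlgCl l,
      ∀ g ∈ Inert F (AlgebraicClosure F) j, ∃ m : ℕ, ¬ p ∣ m ∧ V g ^ m = 1) →
    (∀ (l : ℕ) [Fact l.Prime], l ≠ p → ∀ j : AlgebraicClosure F →+* PadicAlgCl l,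
      ∀ v : Fin n → L, (∀ (g : GF F) (t : GQ l), (∀ z, j (g z) = t (j z)) →
        (V g : Matrix (Fin n) (Fin n) L) *ᵥ v = v) → v = 0) →
    ∀ B : GL (Fin n) L, (B : Matrix (Fin n) (Fin n) L)ᵀ = B →
    IsDual (cycF p F) V (V.comp (BKOdd.conj c σ hcs.h)) (B : Matrix (Fin n) (Fin n) L) →
    ∀ (S : GL (Fin n) L) (ρ : GF F →* GL (Fin n) (OO p L))
      (B₀ : Matrix (Fin n) (Fin n) (OO p L)) (N : Submodule (OO p L) (Fin n → OO p L)),
    Metab V B S ρ B₀ N →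
    (∀ j : AlgebraicClosure F →+* PadicAlgCl p, BKOdd.DeRhamAt j V) →
    (∀ j : AlgebraicClosure F →+* PadicAlgCl p, BKOdd.FrobAt ⊤ j V) →
    FiniteDimensional L (BKOdd.H1f p V) ∧ ∀ i : AlgebraicClosure F →+* PadicAlgCl p,
      (Module.finrank L (BKOdd.H1f p V) + BKOdd.tdim i V +
        ∑ k, (lnJ p V (j k) (latS p S ⊤) + lnJ p V (j k) (latS p S N))) % 2 = 0

end BKT
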