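import Pool.Agent.Lib.MP_7c08ba_nt.T1.FPART
import Pool.Agent.Lib.MP_7c08ba_nt.T1.StNF
import Pool.Agent.Lib.MP_7c08ba_nt.T1.GNNPL
import Pool.Agent.Lib.MP_7c08ba_nt.Met.HCY
import Pool.Agent.Lib.MP_7c08ba_nt.Odd.Desc

set_option autoImplicit false

/-!
Parity for general residual representations and arbitrary ramification at the primes which do not
split, part NF, module PARN: parity of `H¹_f` for representations with metabolic reduction.
-/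

noncomputable section

namespace BKT

open Matrix BKGen BKMet MP_7c08ba.Crys
open BKV (RU GU)
open BKMet.FPARM (nonarch symm_eq conj_eq_iff)
open FPART (metab_quot infl_mem_Z1)

namespace NFPARN

/-! ### The dimension is even -/

section Even

variable {p : ℕ} [Fact p.Prime] {L : Type} [NormedField L] [NormedAlgebra ℚ_[p] L]
  [FiniteDimensional ℚ_[p] L] {G : Type} [Group G] {n : ℕ}

theorem residue_iff (a : OO p L) :
    IsLocalRing.residue (OO p L) a = 0 ↔ pi0 p L ∣ a := by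
  rw [IsLocalRing.residue_eq_zero_iff, pi0_span, Ideal.mem_span_singleton]

/-- the dimension of a metabolic space is even -/
theorem even_of_metab {V : G →* GL (Fin n) L} {B S : GL (Fin n) L}
    {ρ : G →* GL (Fin n) (OO p L)} {B₀ : Matrix (Fin n) (Fin n) (OO p L)}
    {N : Submodule (OO p L) (Fin n → OO p L)} (hM : Metab V B S ρ B₀ N) : n % 2 = 0 := by
  let K := IsLocalRing.ResidueField (OO p L)
  let f : OO p L →+* K := IsLocalRing.residue (OO p L)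
  have hf : Function.Surjective f := IsLocalRing.residue_surjective
  let q : (Fin n → OO p L) → (Fin n → K) := fun x i => f (x i)
  have hq : Function.Surjective q := fun y => by
    choose x hx using fun i => hf (y i)
    exact ⟨x, funext hx⟩
  have hdot : ∀ x y, f (x ⬝ᵥ (B₀ *ᵥ y)) = q x ⬝ᵥ ((B₀.map f) *ᵥ q y) := by
    intro x y
    simp only [dotProduct, mulVec, map_sum, map_mul, q, Matrix.map_apply]
  let W : Submodule K (Fin n → K) :=
    { carrier := {y | ∃ x ∈ N, q x = y}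
      add_mem' := by
        rintro _ _ ⟨x, hx, rfl⟩ ⟨y, hy, rfl⟩
        exact ⟨x + y, N.add_mem hx hy, funext fun i => map_add f _ _⟩
      zero_mem' := ⟨0, N.zero_mem, funext fun i => map_zero f⟩
      smul_mem' := by
        rintro a _ ⟨x, hx, rfl⟩
        obtain ⟨b, rfl⟩ := hf a
        exact ⟨b • x, N.smul_mem b hx, funext fun i => map_mul f _ _⟩ }
  have hNW : ∀ x, q x ∈ W ↔ x ∈ N := by
    intro x
    constructor
    · rintro ⟨y, hy, hxy⟩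
      have h1 : ∀ i, pi0 p L ∣ x i - y i := fun i => by
        rw [← residue_iff, map_sub, sub_eq_zero]
        exact (congrFun hxy i).symm
      choose z hz using h1
      have h2 : x = y + pi0 p L • z := by
        funext i
        rw [Pi.add_apply, Pi.smul_apply, smul_eq_mul, ← hz i]
        ring
      rw [h2]
      exact N.add_mem hy (hM.sub z)
    · intro hx
      exact ⟨x, hx, rfl⟩
  let b : LinearMap.BilinForm K (Fin n → K) := Matrix.toBilin' (B₀.map f)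
  have hb : ∀ x y, b x y = x ⬝ᵥ ((B₀.map f) *ᵥ y) := fun x y => Matrix.toBilin'_apply' _ _ _
  have hnd : b.Nondegenerate := by
    apply LinearMap.BilinForm.nondegenerate_toBilin'_of_det_ne_zero'
    have h1 : (B₀.map f).det = f B₀.det := (RingHom.map_det f B₀).symm
    rw [h1]
    exact (hM.det.map f).ne_zero
  have horth : b.orthogonal W = W := by
    ext y
    obtain ⟨y, rfl⟩ := hq y
    rw [hNW, hM.lagr, LinearMap.BilinForm.mem_orthogonal_iff]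
    constructor
    · intro h x hx
      have h1 := h (q x) ⟨x, hx, rfl⟩
      rw [← residue_iff]
      change b (q x) (q y) = 0 at h1
      rw [hb, ← hdot] at h1
      exact h1
    · rintro h _ ⟨x, hx, rfl⟩
      have h1 := (residue_iff _).2 (h x hx)
      change b (q x) (q y) = 0
      rw [hb, ← hdot]
      exact h1
  have h1 := LinearMap.BilinForm.finrank_orthogonal hnd W
  rw [horth, Module.finrank_fintype_fun_eq_card, Fintype.card_fin] at h1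
  have h2 := W.finrank_le
  rw [Module.finrank_fintype_fun_eq_card, Fintype.card_fin] at h2
  omega

end Even

/-! ### The situation -/

section Sit

variable {p : ℕ} [Fact p.Prime] {F : Type} [Field F] {Λ : Pl F} {Ξ : Npl F}
  {U₀ : Subgroup (GF F)}
  {χ : GU F (Λ.P ∪ Ξ.P) U₀ →* ℤ_[p]ˣ} {cG : GU F (Λ.P ∪ Ξ.P) U₀ →* GU F (Λ.P ∪ Ξ.P) U₀}
  {inv : ∀ i, (GQ (Λ.l i) → GQ (Λ.l i) → QZ p) →+ QZ p}
  {invN : ∀ k, (Ξ.V k → Ξ.V k → QZ p) →+ QZ p}

/-- the maps to the quotient -/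
abbrev rU (Λ : Pl F) (Ξ : Npl F) (U₀ : Subgroup (GF F)) (i : Λ.ι) :
    GQ (Λ.l i) →* GU F (Λ.P ∪ Ξ.P) U₀ :=
  (QuotientGroup.mk' (RU F (Λ.P ∪ Ξ.P) U₀)).comp (Λ.r i)

/-- the maps to the quotient -/
abbrev qU (Λ : Pl F) (Ξ : Npl F) (U₀ : Subgroup (GF F)) (k : Ξ.κ) :
    Ξ.V k →* GU F (Λ.P ∪ Ξ.P) U₀ :=
  (QuotientGroup.mk' (RU F (Λ.P ∪ Ξ.P) U₀)).comp (Ξ.r k)

theorem z2_act {G : Type} [Group G] [TopologicalSpace G] (ψ : G →* ℤ_[p]ˣ) (a : ℤ_[p]ˣ)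
    {z : G → G → QZ p} (hz : z ∈ BKND.Z2 (actA ψ)) :
    (fun g g' => (a : ℤ_[p]) • z g g') ∈ BKND.Z2 (actA ψ) := by
  obtain ⟨⟨W, hW, h1⟩, h2⟩ := hz
  refine ⟨⟨W, hW, fun g h w hw w' hw' => ?_⟩, fun g h k => ?_⟩
  · change (a : ℤ_[p]) • (z (g * w) (h * w')) = (a : ℤ_[p]) • (z g h)
    rw [h1 g h w hw w' hw']
  · have h3 := congrArg (fun x => (a : ℤ_[p]) • x) (h2 g h k)
    simp only [actA_apply, smul_add, smul_sub, smul_zero] at h3 ⊢
    rw [smul_comm] at h3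
    exact h3

theorem sit_of (H : ArithN p Λ Ξ U₀ χ cG inv invN) (hn : U₀.Normal)
    (hU : IsOpen (U₀ : Set (GF F)))
    (hfix : ∀ g ∈ U₀, PadicInt.toZMod ((χ (QuotientGroup.mk g) : ℤ_[p]ˣ) : ℤ_[p]) = 1)
    (hχ : Continuous χ)
    (hcG : Continuous cG) (hcc : ∀ g, cG (cG g) = g) (hχc : ∀ g, χ (cG g) = χ g)
    (hloc : ∀ i, χ.comp (rU Λ Ξ U₀ i) = cycL p (Λ.l i))
    (hlocN : ∀ k, χ.comp (qU Λ Ξ U₀ k) = (cycL p (Ξ.m k)).comp (Ξ.V k).subtype)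
    (hp : p ∈ Λ.P) :
    SitN p (rU Λ Ξ U₀) (qU Λ Ξ U₀) cG χ inv invN (fun i => if Λ.l i = p then 1 else 0)
      (U₀.map (QuotientGroup.mk' (RU F (Λ.P ∪ Ξ.P) U₀))) where
  cont_r := fun i => continuous_quotient_mk'.comp (Λ.cont i)
  cont_q := fun k => continuous_quotient_mk'.comp (Ξ.cont k)
  cont_c := hcG
  inv_c := hcc
  cont_χ := hχ
  χ_c := hχc
  normal := hn.map _ (QuotientGroup.mk'_surjective _)
  open' := QuotientGroup.isOpenMap_coe _ hU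
  fix := by
    rintro _ ⟨g, hg, rfl⟩
    exact hfix g hg
  loc := fun i => by
    rw [hloc i]
    exact H.loc i
  locN := fun k => by
    rw [hlocN k]
    exact H.locN k
  glob := H.glob
  recip := H.recip
  sum := by
    obtain ⟨i₀, hi₀⟩ := hp
    rw [Finset.sum_eq_single i₀]
    · rw [if_pos hi₀]
    · intro i _ hi
      rw [if_neg]
      intro h
      exact hi (Λ.inj (h.trans hi₀.symm))
    · intro h
      exact absurd (Finset.mem_univ _) h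
  conj := by
    intro k
    obtain ⟨t, τ, s, h, hC⟩ := H.conj k
    refine ⟨τ, s, h, hC.cont, hC.conj, hC.hh, fun z hz => ?_⟩
    rw [hlocN k] at hz
    have h1 := z2_act _ (χ h) hz
    have h2 := hC.inv_eq _ h1
    have e1 : (fun d d' => actA χ h (z (τ d) (τ d'))) =
        fun g g' => (fun g g' => ((χ h : ℤ_[p]ˣ) : ℤ_[p]) • z g g') (τ g) (τ g') := by
      funext d d'
      rw [actA_apply]
    have e2 : (fun g g' => actA (cycL p (Ξ.m k)) t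
        ((fun g g' => ((χ h : ℤ_[p]ˣ) : ℤ_[p]) • z g g') g g')) = - z := by
      funext g g'
      rw [actA_apply]
      change ((cycL p (Ξ.m k) t : ℤ_[p]ˣ) : ℤ_[p]) • ((χ h : ℤ_[p]ˣ) : ℤ_[p]) • z g g' =
        - z g g'
      rw [smul_smul, ← Units.val_mul, mul_comm, hC.chi, Units.val_neg, Units.val_one, neg_smul,
        one_smul]
    rw [e1, h2, e2, map_neg]

end Sit

/-! ### The local terms -/

section Local

variable {F : Type} [Field F] {L : Type} [NormedField L] {n : ℕ}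

theorem mem_V_of {Ξ : Npl F} {k : Ξ.κ} {g : GF F} {t : GQ (Ξ.m k)}
    (h : ∀ z, Ξ.j k (g z) = t (Ξ.j k z)) : ∃ d : Ξ.V k, (d : GQ (Ξ.m k)) = t ∧ Ξ.r k d = g := by
  have ht : t ∈ Ξ.V k := by
    rw [Ξ.mem]
    intro a
    rw [← h, g.commutes]
  refine ⟨⟨t, ht⟩, rfl, ?_⟩
  ext z
  apply (Ξ.j k).injective
  rw [Ξ.spec, h]

/-- the vectors fixed modulo `P` by the decomposition group -/
theorem fix_eq (V : GF F →* GL (Fin n) L) (Ξ : Npl F) (k : Ξ.κ) (P : AddSubgroup (Fin n → L)) :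
    fixL (V.comp (Ξ.r k)) P = fixJ V (Ξ.j k) P := by
  ext v
  constructor
  · intro h g t hgt
    obtain ⟨d, -, rfl⟩ := mem_V_of hgt
    exact h d
  · intro h d
    exact h (Ξ.r k d) d (Ξ.spec k d)

theorem lnD_eq (p : ℕ) [Fact p.Prime] [NormedAlgebra ℚ_[p] L] (V : GF F →* GL (Fin n) L)
    (Ξ : Npl F) (k : Ξ.κ) (P : AddSubgroup (Fin n → L)) :
    lnD p (V.comp (Ξ.r k)) P = lnJ p V (Ξ.j k) P := by
  unfold lnD lnJ
  rw [fix_eq]

theorem lnJ_congr (h6 : StLnj) {F : Type} [Field F] [NumberField F]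
    (hF : Module.finrank ℚ F = 2) (p : ℕ) [Fact p.Prime] [NormedAlgebra ℚ_[p] L]
    (V : GF F →* GL (Fin n) L) (P : AddSubgroup (Fin n → L))
    (hP : ∀ g, ∀ v ∈ P, (V g : Matrix (Fin n) (Fin n) L) *ᵥ v ∈ P) {l l' : ℕ}
    [i : Fact l.Prime] [i' : Fact l'.Prime] (hl : l = l') (hs : ¬ Splits F l)
    (j : AlgebraicClosure F →+* PadicAlgCl l) (j' : AlgebraicClosure F →+* PadicAlgCl l') :
    lnJ p V j P = lnJ p V j' P := by
  subst hl
  unfold lnJ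
  rw [h6 F hF l hs L n V P hP j j']

/-- the lattices are stable -/
theorem latS_stable {p : ℕ} [Fact p.Prime] [NormedAlgebra ℚ_[p] L] {G : Type} [Group G]
    {V : G →* GL (Fin n) L} {S : GL (Fin n) L} {ρ : G →* GL (Fin n) (OO p L)}
    (hint : ∀ g, toL p L n (ρ g) = S * V g * S⁻¹)
    (P : Submodule (OO p L) (Fin n → OO p L))
    (hP : ∀ g, ∀ x ∈ P, (ρ g : Matrix (Fin n) (Fin n) (OO p L)) *ᵥ x ∈ P) :
    ∀ g, ∀ v ∈ latS p S P, (V g : Matrix (Fin n) (Fin n) L) *ᵥ v ∈ latS p S P := by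
  rintro g v ⟨x, hx, hxv⟩
  refine ⟨(ρ g : Matrix (Fin n) (Fin n) (OO p L)) *ᵥ x, hP g x hx, ?_⟩
  change inL p L n ((ρ g : Matrix (Fin n) (Fin n) (OO p L)) *ᵥ x) =
    (S : Matrix (Fin n) (Fin n) L) *ᵥ ((V g : Matrix (Fin n) (Fin n) L) *ᵥ v)
  change inL p L n x = (S : Matrix (Fin n) (Fin n) L) *ᵥ v at hxv
  have h1 : inL p L n ((ρ g : Matrix (Fin n) (Fin n) (OO p L)) *ᵥ x) =
      (toL p L n (ρ g) : Matrix (Fin n) (Fin n) L) *ᵥ (inL p L n x) := by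
    funext i
    change (OO p L).subtype (((ρ g : Matrix (Fin n) (Fin n) (OO p L)) *ᵥ x) i) =
      ((toL p L n (ρ g) : Matrix (Fin n) (Fin n) L) *ᵥ (fun i => (OO p L).subtype (x i))) i
    simp only [mulVec, dotProduct, map_sum, map_mul]
    rfl
  rw [h1, hxv, hint, Matrix.mulVec_mulVec, Matrix.mulVec_mulVec, ← Units.val_mul,
    ← Units.val_mul]
  congr 2
  group

end Local

/-! ### The theorem at one place -/

section Core

theorem core (h2 : StMainXN) (h5 : StUnrN) (h6 : StLineQ) (h7 : StCrysM) (h8 : StHodM)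
    {p : ℕ} [Fact p.Prime] (hp : p ≠ 2) {F : Type} [Field F] [NumberField F]
    (hF : Module.finrank ℚ F = 2) (c : AlgebraicClosure F ≃+* AlgebraicClosure F) (σ : F ≃+* F)
    (hcs : BKOdd.ConjHyp c σ) {L : Type} [NormedField L] [NormedAlgebra ℚ_[p] L]
    [FiniteDimensional ℚ_[p] L] {n : ℕ} {V : GF F →* GL (Fin n) L} (hV : Continuous V)
    {B : GL (Fin n) L}
    (hinv : ∀ (l : ℕ) [Fact l.Prime], l ≠ p → ∀ j : AlgebraicClosure F →+* PadicAlgCl l,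
      ∀ v : Fin n → L, (∀ (g : GF F) (t : GQ l), (∀ z, j (g z) = t (j z)) →
        (V g : Matrix (Fin n) (Fin n) L) *ᵥ v = v) → v = 0)
    (hdual : IsDual (cycF p F) V (V.comp (BKOdd.conj c σ hcs.h))
      (B : Matrix (Fin n) (Fin n) L))
    (hDR : ∀ j : AlgebraicClosure F →+* PadicAlgCl p, BKOdd.DeRhamAt j V)
    (hFr : ∀ j : AlgebraicClosure F →+* PadicAlgCl p, BKOdd.FrobAt ⊤ j V)
    (hB : (B : Matrix (Fin n) (Fin n) L)ᵀ = B)
    (Λ : Pl F) (Ξ : Npl F) (hspl : ∀ i, Splits F (Λ.l i)) (hΞp : ∀ k, Ξ.m k ≠ p)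
    {U₀ : Subgroup (GF F)} (hn : U₀.Normal) (hU : IsOpen (U₀ : Set (GF F)))
    (hunr : ∀ (l : ℕ) [Fact l.Prime], l ∉ Λ.P ∪ Ξ.P →
      ∀ j : AlgebraicClosure F →+* PadicAlgCl l,
      ∀ g ∈ Inert F (AlgebraicClosure F) j, g ∈ U₀ → V g = 1)
    (i₀ : Λ.ι) (hi₀ : Λ.l i₀ = p) (j₀ : AlgebraicClosure F →+* PadicAlgCl p)
    (hj₀ : HEq (Λ.j i₀) j₀) (hne : ∃ i, i ≠ i₀)
    [CompactSpace (GU F (Λ.P ∪ Ξ.P) U₀)] [NonarchimedeanGroup (GU F (Λ.P ∪ Ξ.P) U₀)]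
    {χ : GU F (Λ.P ∪ Ξ.P) U₀ →* ℤ_[p]ˣ}
    {cG : GU F (Λ.P ∪ Ξ.P) U₀ →* GU F (Λ.P ∪ Ξ.P) U₀}
    {inv : ∀ i, (GQ (Λ.l i) → GQ (Λ.l i) → QZ p) →+ QZ p}
    {invN : ∀ k, (Ξ.V k → Ξ.V k → QZ p) →+ QZ p}
    (H : ArithN p Λ Ξ U₀ χ cG inv invN)
    (hfix : ∀ g ∈ U₀, PadicInt.toZMod ((χ (QuotientGroup.mk g) : ℤ_[p]ˣ) : ℤ_[p]) = 1)
    (hχ : Continuous χ)
    (hcG : Continuous cG) (hcc : ∀ g, cG (cG g) = g) (hχc : ∀ g, χ (cG g) = χ g)
    (hcj : ∀ g : GF F, cG (QuotientGroup.mk g) = QuotientGroup.mk (BKOdd.conj c σ hcs.h g))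
    (hloc : ∀ i, χ.comp (rU Λ Ξ U₀ i) = cycL p (Λ.l i))
    (hlocN : ∀ k, χ.comp (qU Λ Ξ U₀ k) = (cycL p (Ξ.m k)).comp (Ξ.V k).subtype)
    {VG : GU F (Λ.P ∪ Ξ.P) U₀ →* GL (Fin n) L} (hVGc : Continuous VG)
    (hVG : ∀ g : GF F, VG (QuotientGroup.mk g) = V g)
    (hdualG : IsDual χ VG (VG.comp cG) (B : Matrix (Fin n) (Fin n) L))
    {S : GL (Fin n) L} {ρG : GU F (Λ.P ∪ Ξ.P) U₀ →* GL (Fin n) (OO p L)}
    {B₀ : Matrix (Fin n) (Fin n) (OO p L)} {N : Submodule (OO p L) (Fin n → OO p L)}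
    (hMG : Metab VG B S ρG B₀ N)
    (hTG : TrivR ρG (U₀.map (QuotientGroup.mk' (RU F (Λ.P ∪ Ξ.P) U₀))))
    (hdesc : ∀ x ∈ BKOdd.Z1 V, (∀ g ∈ RU F (Λ.P ∪ Ξ.P) U₀, x g = 0) → ∃ y ∈ BKOdd.Z1 VG,
      ∀ g : GF F, y (QuotientGroup.mk g) = x g) :
    FiniteDimensional L (BKOdd.H1f p V) ∧
      (Module.finrank L (BKOdd.H1f p V) + BKOdd.tdim j₀ V +
        ∑ k, (lnJ p V (Ξ.j k) (latS p S ⊤) + lnJ p V (Ξ.j k) (latS p S N))) % 2 = 0 ∧
      BKOdd.tdim j₀ V +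
        BKOdd.tdim (j₀.comp (c : AlgebraicClosure F →+* AlgebraicClosure F)) V = n := by
  subst hi₀
  obtain rfl := eq_of_heq hj₀
  have hsit := sit_of H hn hU hfix hχ hcG hcc hχc hloc hlocN ⟨i₀, rfl⟩
  have hna : ∀ i, NonarchimedeanGroup (GQ (Λ.l i)) := fun i => nonarch _
  have hcp : ∀ i, CompactSpace (GQ (Λ.l i)) := fun i => inferInstance
  -- the place above `p`
  obtain ⟨hN1, hN2, s, s', hHP, ht, ht'⟩ := h8 (Λ.l i₀) F hF c σ hcs L n V hV (Λ.j i₀) (Λ.r i₀)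
    (Λ.cont i₀) (Λ.spec i₀) B hdual (hDR _) (hFr _) (hFr _)
  have hVr : ∀ i, VG.comp (rU Λ Ξ U₀ i) = V.comp (Λ.r i) := fun i =>
    MonoidHom.ext fun t => hVG (Λ.r i t)
  have hVcr : ∀ i, (VG.comp cG).comp (rU Λ Ξ U₀ i) =
      (V.comp (BKOdd.conj c σ hcs.h)).comp (Λ.r i) := fun i => MonoidHom.ext fun t => by
    change VG (cG (QuotientGroup.mk (Λ.r i t))) = V (BKOdd.conj c σ hcs.h (Λ.r i t))
    rw [hcj, hVG]
  have hDr : (dualC VG cG B).comp (rU Λ Ξ U₀ i₀) =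
      (dualC V (BKOdd.conj c σ hcs.h) B).comp (Λ.r i₀) := MonoidHom.ext fun t => by
    change MulAut.conj B (VG (cG (QuotientGroup.mk (Λ.r i₀ t)))) =
      MulAut.conj B (V (BKOdd.conj c σ hcs.h (Λ.r i₀ t)))
    rw [hcj, hVG]
  -- no invariants
  have hNI : ∀ i, NoInv (VG.comp (rU Λ Ξ U₀ i)) := by
    intro i
    rw [hVr i]
    by_cases hi : i = i₀
    · rw [hi]
      exact hN1
    · have hl : Λ.l i ≠ Λ.l i₀ := fun h => hi (Λ.inj h)
      intro v hv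
      refine hinv (Λ.l i) hl (Λ.j i) v fun g t hgt => ?_
      have h1 : g = Λ.r i t := by
        ext z
        apply (Λ.j i).injective
        rw [hgt, Λ.spec]
      rw [h1]
      exact hv t
  have hNI' : ∀ i, NoInv ((VG.comp cG).comp (rU Λ Ξ U₀ i)) := by
    intro i
    rw [hVcr i]
    by_cases hi : i = i₀
    · rw [hi]
      exact hN2
    · have hl : Λ.l i ≠ Λ.l i₀ := fun h => hi (Λ.inj h)
      intro v hv
      refine hinv (Λ.l i) hl ((Λ.j i).comp (c : AlgebraicClosure F →+* AlgebraicClosure F)) v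
        fun g t hgt => ?_
      have h1 : g = BKOdd.conj c σ hcs.h (Λ.r i t) := by
        refine conj_eq_iff c σ hcs (Λ.r i t) g fun z => ?_
        apply c.injective
        apply (Λ.j i).injective
        have h2 := hgt (c z)
        change Λ.j i (c (g (c z))) = t (Λ.j i (c (c z))) at h2
        rw [h2, hcs.hc, hcs.hc, Λ.spec]
      rw [h1]
      exact hv t
  have hVq : ∀ k, VG.comp (qU Λ Ξ U₀ k) = V.comp (Ξ.r k) := fun k =>
    MonoidHom.ext fun t => hVG (Ξ.r k t)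
  have hNIk : ∀ k, NoInv (VG.comp (qU Λ Ξ U₀ k)) := by
    intro k
    rw [hVq k]
    intro v hv
    refine hinv (Ξ.m k) (hΞp k) (Ξ.j k) v fun g t hgt => ?_
    obtain ⟨d, -, rfl⟩ := mem_V_of hgt
    exact hv d
  have hNIk' : ∀ k, NoInv ((VG.comp cG).comp (qU Λ Ξ U₀ k)) := by
    intro k v hv
    refine hinv (Ξ.m k) (hΞp k)
      ((Ξ.j k).comp (c : AlgebraicClosure F →+* AlgebraicClosure F)) v fun g t hgt => ?_
    have h0 : ∀ z, Ξ.j k (BKOdd.conj c σ hcs.h g z) = t (Ξ.j k z) := by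
      intro z
      have h1 := hgt (c z)
      change Ξ.j k (c (g (c z))) = t (Ξ.j k (c (c z))) at h1
      rw [hcs.hc] at h1
      rw [BKOdd.Conj.conj_apply, symm_eq c σ hcs, h1]
    obtain ⟨d, -, hd⟩ := mem_V_of h0
    have h2 := hv d
    have h3 : ((VG.comp cG).comp (qU Λ Ξ U₀ k)) d = V g := by
      change VG (cG (QuotientGroup.mk (Ξ.r k d))) = V g
      rw [hd, hcj, BKOdd.Conj.conj_conj hcs.h hcs.hc, hVG]
    rw [h3] at h2
    exact h2
  have hVo : ∀ k, IsOpen (Ξ.V k : Set (GQ (Ξ.m k))) := fun k => ((stNpl F hF).2 Ξ k).1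
  have hcV : ∀ k, CompactSpace (Ξ.V k) := fun k => isCompact_iff_compactSpace.1
    ((Ξ.V k).isClosed_of_isOpen (hVo k)).isCompact
  have hnG : ∀ k, NonarchimedeanGroup (GQ (Ξ.m k)) := fun k => nonarch _
  have hnV : ∀ k, NonarchimedeanGroup (Ξ.V k) := fun k => BKOdd.nonarch_subgroup _
  -- the parity theorem
  have hHP' : BKOdd.HodgePair (BKOdd.chL (χ.comp (rU Λ Ξ U₀ i₀)) L)
      (Zf (MonoidHom.id (GQ (Λ.l i₀))))
      (VG.comp (rU Λ Ξ U₀ i₀)) ((dualC VG cG B).comp (rU Λ Ξ U₀ i₀)) s s' := by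
    rw [hloc i₀, hVr i₀, hDr]
    exact hHP
  have hline : LineAx (Λ.l i₀) (χ.comp (rU Λ Ξ U₀ i₀)) := by
    rw [hloc i₀]
    exact h6 (Λ.l i₀) hp
  obtain ⟨hfd, hss, hfd1, hfd2, hs, hs', htriv, htrivk, hW⟩ := h2 (Λ.l i₀) hp L Λ.ι Ξ.κ
    (GU F (Λ.P ∪ Ξ.P) U₀) (fun i => GQ (Λ.l i)) (fun k => Ξ.V k) (rU Λ Ξ U₀) (qU Λ Ξ U₀) cG χ
    inv invN (fun i => if Λ.l i = Λ.l i₀ then 1 else 0) _ hsit
    n VG B hVGc hB hdualG S ρG B₀ N hMG hTG hNI hNI' hNIk hNIk' i₀ (if_pos rfl) hne hline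
    (Zf (MonoidHom.id (GQ (Λ.l i₀)))) s s' hHP'
  have htd : BKOdd.tdim (Λ.j i₀) V = s := by
    rw [hVr i₀] at hfd1 hs
    exact ht hfd1 hs
  have htd' : BKOdd.tdim
      ((Λ.j i₀).comp (c : AlgebraicClosure F →+* AlgebraicClosure F)) V = s' := by
    rw [hDr] at hfd2 hs'
    exact ht' hfd2 hs'
  -- the conditions
  have hur := h5 (Λ.l i₀) F hF c σ hcs L n V hV Λ Ξ ⟨i₀, rfl⟩ hspl U₀ hn hU hunr (by
    intro i hi
    have h1 := htriv i (fun h => hi (by rw [h]))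
    rw [hVr i, hVcr i] at h1
    exact h1) (by
    intro k
    have h1 := (htrivk k).1
    rw [hVq k] at h1
    exact h1)
  have hcr := h7 (Λ.l i₀) F hF c σ hcs L n V hV (Λ.j i₀) (Λ.r i₀) (Λ.cont i₀) (Λ.spec i₀) B
  let infl : (GU F (Λ.P ∪ Ξ.P) U₀ → Fin n → L) →ₗ[L] (GF F → Fin n → L) :=
    LinearMap.funLeft L (Fin n → L) (QuotientGroup.mk : GF F → GU F (Λ.P ∪ Ξ.P) U₀)
  have hinj : Function.Injective infl :=
    LinearMap.funLeft_injective_of_surjective _ _ _ QuotientGroup.mk_surjective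
  have hinfl : ∀ x : GU F (Λ.P ∪ Ξ.P) U₀ → Fin n → L, infl x = fun g : GF F => x (QuotientGroup.mk g) :=
    fun x => rfl
  have hWm : ∀ x : GU F (Λ.P ∪ Ξ.P) U₀ → Fin n → L, x ∈ (BKOdd.Z1f (Λ.l i₀) V).comap infl ↔
      x ∈ BKOdd.Z1 VG ∧ (fun d => x (rU Λ Ξ U₀ i₀ d)) ∈
        Zf (MonoidHom.id (GQ (Λ.l i₀))) (VG.comp (rU Λ Ξ U₀ i₀)) ∧
      (fun d => (B : Matrix (Fin n) (Fin n) L) *ᵥ x (cG (rU Λ Ξ U₀ i₀ d))) ∈
        Zf (MonoidHom.id (GQ (Λ.l i₀))) ((dualC VG cG B).comp (rU Λ Ξ U₀ i₀)) := by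
    intro x
    have e1 : (fun d => x (cG (rU Λ Ξ U₀ i₀ d))) =
        fun d => infl x (BKOdd.conj c σ hcs.h (Λ.r i₀ d)) := by
      funext d
      change x (cG (QuotientGroup.mk (Λ.r i₀ d))) =
        x (QuotientGroup.mk (BKOdd.conj c σ hcs.h (Λ.r i₀ d)))
      rw [hcj]
    have e2 : (fun d => (B : Matrix (Fin n) (Fin n) L) *ᵥ x (cG (rU Λ Ξ U₀ i₀ d))) =
        fun d => (B : Matrix (Fin n) (Fin n) L) *ᵥ
          infl x (BKOdd.conj c σ hcs.h (Λ.r i₀ d)) := by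
      funext d
      rw [congrFun e1 d]
    rw [hVr i₀, hDr, e2]
    constructor
    · rintro ⟨hz, -, hc⟩
      exact ⟨(infl_mem_Z1 hVG x).mp hz, (hcr (infl x) hz).mp hc⟩
    · rintro ⟨hz, hc⟩
      have hz' : infl x ∈ BKOdd.Z1 V := (infl_mem_Z1 hVG x).mpr hz
      refine ⟨hz', (hur (infl x) hz').mpr fun g hg => ?_, (hcr (infl x) hz').mpr hc⟩
      change x (QuotientGroup.mk g) = 0
      have h1 : (QuotientGroup.mk g : GU F (Λ.P ∪ Ξ.P) U₀) = 1 := (QuotientGroup.eq_one_iff g).mpr hg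
      rw [h1]
      have h3 := hz.2 1 1
      rw [mul_one, map_one, Units.val_one, Matrix.one_mulVec] at h3
      exact (left_eq_add.mp h3)
  have hrange : BKOdd.Z1f (Λ.l i₀) V ≤ LinearMap.range infl := by
    rintro x ⟨hz, hu, -⟩
    obtain ⟨y, -, hy⟩ := hdesc x hz ((hur x hz).mp hu)
    exact ⟨y, funext hy⟩
  have hmap : ((BKOdd.Z1f (Λ.l i₀) V).comap infl).map infl = BKOdd.Z1f (Λ.l i₀) V := by
    rw [Submodule.map_comap_eq, inf_eq_right.mpr hrange]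
  have hWle : (BKOdd.Z1f (Λ.l i₀) V).comap infl ≤ BKOdd.Z1 VG := fun x hx => ((hWm x).mp hx).1
  have hWfd : FiniteDimensional L ((BKOdd.Z1f (Λ.l i₀) V).comap infl) :=
    Submodule.finiteDimensional_of_le hWle
  have e1 := (Submodule.equivMapOfInjective infl hinj
    ((BKOdd.Z1f (Λ.l i₀) V).comap infl)).finrank_eq
  have hZfd : FiniteDimensional L (BKOdd.Z1f (Λ.l i₀) V) := by
    rw [← hmap]
    infer_instance
  rw [hmap] at e1
  have hpar := hW _ hWm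
  rw [e1] at hpar
  -- coboundaries
  have hB1 : BKOdd.B1 V ≤ BKOdd.Z1f (Λ.l i₀) V := by
    rintro _ ⟨v, rfl⟩
    have hz : BKOdd.cob V v ∈ BKOdd.Z1 V := BKOdd.B1_le hV ⟨v, rfl⟩
    refine ⟨hz, fun l _ _ j => ⟨v, fun g _ => rfl⟩, (hcr _ hz).mpr ⟨?_, ?_⟩⟩
    · exact hHP.bz ⟨v, rfl⟩
    · refine hHP.bz' ⟨(B : Matrix (Fin n) (Fin n) L) *ᵥ v, ?_⟩
      funext t
      have h1 : ((dualC V (BKOdd.conj c σ hcs.h) B).comp (Λ.r i₀)) t =
          B * V (BKOdd.conj c σ hcs.h (Λ.r i₀ t)) * B⁻¹ := rfl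
      rw [BKOdd.cob_apply, BKOdd.cob_apply, h1, Matrix.mulVec_mulVec, ← Units.val_mul,
        inv_mul_cancel_right, Matrix.mulVec_sub, Matrix.mulVec_mulVec, Units.val_mul]
  have hB1n : Module.finrank L (BKOdd.B1 V) = n := by
    have h1 := BKOdd.finrank_B1 (ρ := V)
    have h3 : BKOdd.inv V Set.univ = ⊥ := by
      rw [eq_bot_iff]
      intro v hv
      rw [Submodule.mem_bot]
      exact hN1 v fun t => hv _ trivial
    rw [h3, finrank_bot, add_zero] at h1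
    exact h1
  have hZle : BKOdd.Z1f (Λ.l i₀) V ≤ BKOdd.Z1 V := fun x hx => hx.1
  have h10 := BKOdd.finrank_cls hV (BKOdd.Z1f (Λ.l i₀) V) hB1 hZle
  have h11 := BKOdd.finite_cls (BKOdd.Z1f (Λ.l i₀) V) hZle
  refine ⟨h11, ?_, ?_⟩
  · rw [htd]
    change (Module.finrank L (BKOdd.cls V (BKOdd.Z1f (Λ.l i₀) V)) + s + _) % 2 = 0
    rw [hB1n] at h10
    simp only [hVq, lnD_eq] at hpar
    omega
  · rw [htd, htd', hss]

end Core

end NFPARN

open NFPARN in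
/-- **Module PARN**: parity of `H¹_f` for representations with metabolic reduction, with arbitrary
ramification at the primes which do not split. -/
theorem stParN (h1 : StArithN) (h2 : StMainXN) (h3 : StU0T) (h4 : StDescT) (h5 : StUnrN)
    (h6 : StLnj) (h7 : StLineQ) (h8 : StCrysM) (h9 : StHodM) : StParN := by
  intro p _ hp F _ _ hF hreal hsp c σ hcs L _ _ _ n V hV P₀ hP₀f hP₀s κ _ m _ hm hms jk hunr hinv
    B hB hdual S ρ B₀ N hM hDR hFr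
  have hmp : ∀ k, m k ≠ p := by
    intro k hk
    have h := hms k
    rw [hk] at h
    exact h hsp
  have hpP : p ∈ insert p P₀ ∪ Set.range m := Or.inl (Set.mem_insert _ _)
  have hunr1 : ∀ (l : ℕ) [Fact l.Prime], l ∉ insert p P₀ ∪ Set.range m →
      ∀ j : AlgebraicClosure F →+* PadicAlgCl l,
      ∀ g ∈ Inert F (AlgebraicClosure F) j, ∃ m : ℕ, ¬ p ∣ m ∧ V g ^ m = 1 := by
    intro l _ hl j g hg
    rw [Set.mem_union, Set.mem_insert_iff, not_or, not_or] at hl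
    exact hunr l hl.1.1 hl.1.2 hl.2 j g hg
  obtain ⟨U₀, hUn, hUo, hUχ, hUcj, hUT, hUI⟩ := h3 p hp F hF hreal c σ hcs L n V hV S ρ hM.int
    (insert p P₀ ∪ Set.range m) hpP hunr1
  have hconj : IsConj c := by
    refine ⟨hcs.hc, ?_⟩
    obtain ⟨a, ha⟩ := hcs.hσ
    refine ⟨a, fun h => ha ?_⟩
    rw [hcs.h] at h
    exact (algebraMap F (AlgebraicClosure F)).injective h
  obtain ⟨Λ, Ξ, hΛ, hspl, ⟨l₁, hl₁, hl₁p⟩, hΞ, hAr⟩ := h1 p hp F hF hreal hsp c hconj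
    (insert p P₀) (hP₀f.insert p) (by
      intro l hl
      rcases Set.mem_insert_iff.mp hl with h | h
      · rw [h]
        exact hsp
      · exact hP₀s l h) (Set.mem_insert _ _) (Set.range m) (Set.finite_range m) (by
      rintro _ ⟨k, rfl⟩
      exact Fact.out) (by
      rintro _ ⟨k, rfl⟩
      exact hms k) U₀ hUn hUo hUχ (by
      intro l _ j hl hl' g hg
      exact (hUI l j (fun h => h.elim hl hl') g hg).1) (by
      intro g hg g' hg'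
      rw [conj_eq_iff c σ hcs g g' hg']
      exact hUcj g hg)
  have hpΛ : p ∈ Λ.P := hΛ (Set.mem_insert _ _)
  have hsub : insert p P₀ ∪ Set.range m ⊆ Λ.P ∪ Ξ.P := by
    rw [hΞ]
    exact Set.union_subset_union_left _ hΛ
  have hunrΛ : ∀ (l : ℕ) [Fact l.Prime], l ∉ Λ.P ∪ Ξ.P →
      ∀ j : AlgebraicClosure F →+* PadicAlgCl l,
      ∀ g ∈ Inert F (AlgebraicClosure F) j, g ∈ U₀ → V g = 1 := fun l _ hl j g hg =>
    (hUI l j (fun h => hl (hsub h)) g hg).2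
  obtain ⟨hcomp, hna, -, χ, cG, hχ, hχc, hcG, hcGc, hcc, hχcG, hloc, hdesc⟩ := h4 p hp F hF hreal
    c σ hcs (Λ.P ∪ Ξ.P) (Or.inl hpΛ) U₀ hUn hUo hUcj
  obtain ⟨inv, invN, hAx⟩ := hAr χ cG hχ (by
    intro g g' hg'
    rw [hcG, conj_eq_iff c σ hcs g g' hg'])
  obtain ⟨VG, hVGc, hVG, hdz⟩ := hdesc L n V hV hunrΛ
  have hfix : ∀ g ∈ U₀,
      PadicInt.toZMod ((χ (QuotientGroup.mk g) : ℤ_[p]ˣ) : ℤ_[p]) = 1 := by
    intro g hg
    rw [hχ g]
    exact hUχ g hg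
  have hdualG : IsDual χ VG (VG.comp cG) (B : Matrix (Fin n) (Fin n) L) := by
    intro a
    obtain ⟨g, rfl⟩ := QuotientGroup.mk_surjective a
    have e1 : BKOdd.chL χ L (QuotientGroup.mk g : GU F (Λ.P ∪ Ξ.P) U₀) =
        BKOdd.chL (cycF p F) L g := by
      change algebraMap ℚ_[p] L (((χ (QuotientGroup.mk g) : ℤ_[p]ˣ) : ℤ_[p]) : ℚ_[p]) = _
      rw [hχ]
      rfl
    have e2 : (VG.comp cG) (QuotientGroup.mk g : GU F (Λ.P ∪ Ξ.P) U₀) =
        (V.comp (BKOdd.conj c σ hcs.h)) g := by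
      change VG (cG (QuotientGroup.mk g)) = V (BKOdd.conj c σ hcs.h g)
      rw [hcG, hVG]
    rw [e1, e2, hVG]
    exact hdual g
  obtain ⟨ρG, hMG, hTG⟩ := metab_quot (P := Λ.P ∪ Ξ.P) hVG hM hUT
  obtain ⟨i₀, hi₀⟩ := id hpΛ
  have hne : ∃ i, i ≠ i₀ := by
    obtain ⟨i, hi⟩ := id hl₁
    refine ⟨i, fun h => hl₁p ?_⟩
    rw [← hi, h, hi₀]
  obtain ⟨j₀, hj₀⟩ : ∃ j₀ : AlgebraicClosure F →+* PadicAlgCl p, HEq (Λ.j i₀) j₀ := by
    subst hi₀
    exact ⟨_, HEq.rfl⟩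
  have hloc1 : ∀ i, χ.comp (rU Λ Ξ U₀ i) = cycL p (Λ.l i) := by
    intro i
    refine MonoidHom.ext fun t => ?_
    change χ (QuotientGroup.mk (Λ.r i t)) = _
    rw [hχ]
    exact hloc (Λ.l i) (Λ.j i) (Λ.r i) (Λ.spec i) t
  have hloc2 : ∀ k, χ.comp (qU Λ Ξ U₀ k) = (cycL p (Ξ.m k)).comp (Ξ.V k).subtype := by
    intro k
    refine MonoidHom.ext fun t => ?_
    change χ (QuotientGroup.mk (Ξ.r k t)) = _
    rw [hχ]
    exact (BKGlob2.stCY p F (AlgebraicClosure F) ℚ_[Ξ.m k] (PadicAlgCl (Ξ.m k))).2 (Ξ.j k)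
      (Ξ.r k t) (t : GQ (Ξ.m k)) (Ξ.spec k t)
  have hΞp : ∀ k, Ξ.m k ≠ p := by
    intro k hk
    have h : Ξ.m k ∈ Set.range m := by
      rw [← hΞ]
      exact ⟨k, rfl⟩
    obtain ⟨k', hk'⟩ := h
    exact hmp k' (hk'.trans hk)
  obtain ⟨hfin, hpar, hsum⟩ := core h2 h5 h7 h8 h9 hp hF c σ hcs hV hinv hdual hDR hFr hB Λ Ξ hspl
    hΞp hUn hUo hunrΛ i₀ hi₀ j₀ hj₀ hne hAx hfix hχc hcGc hcc hχcG hcG hloc1 hloc2 hVGc hVG
    hdualG hMG hTG hdz
  -- the local terms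
  have hex : ∀ k : Ξ.κ, ∃ k' : κ, m k' = Ξ.m k := by
    intro k
    have h : Ξ.m k ∈ Set.range m := by
      rw [← hΞ]
      exact ⟨k, rfl⟩
    exact h
  choose e he using hex
  have hebij : Function.Bijective e := by
    constructor
    · intro k k' h
      apply Ξ.inj
      rw [← he, ← he, h]
    · intro k'
      have h : m k' ∈ Ξ.P := by
        rw [hΞ]
        exact ⟨k', rfl⟩
      obtain ⟨k, hk⟩ := h
      refine ⟨k, hm ?_⟩
      rw [he, hk]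
  have hst := latS_stable hM.int ⊤ (fun _ _ _ => Submodule.mem_top)
  have hst' := latS_stable hM.int N hM.stab
  have hsumk : ∑ k, (lnJ p V (Ξ.j k) (latS p S ⊤) + lnJ p V (Ξ.j k) (latS p S N)) =
      ∑ k, (lnJ p V (jk k) (latS p S ⊤) + lnJ p V (jk k) (latS p S N)) := by
    rw [← Equiv.sum_comp (Equiv.ofBijective e hebij)]
    refine Finset.sum_congr rfl fun k _ => ?_
    have hs : ¬ Splits F (Ξ.m k) := by
      rw [← he k]
      exact hms (e k)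
    rw [Equiv.ofBijective_apply, lnJ_congr h6 hF p V _ hst (he k).symm hs (Ξ.j k) (jk (e k)),
      lnJ_congr h6 hF p V _ hst' (he k).symm hs (Ξ.j k) (jk (e k))]
  rw [hsumk] at hpar
  have hev := even_of_metab hM
  refine ⟨hfin, fun j => ?_⟩
  rcases BKOdd.two_places hF j₀ c σ hcs j with ⟨g, hg⟩ | ⟨g, hg⟩
  · rw [BKOdd.tdim_inner j₀ j g V hg]
    exact hpar
  · rw [BKOdd.tdim_inner (j₀.comp (c : AlgebraicClosure F →+* AlgebraicClosure F)) j g V hg]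
    omega

end BKT
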