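import Pool.Agent.Lib.MP_7c08ba_nt.T1.StNP
import Pool.Agent.Lib.MP_7c08ba_nt.Met.XSD

set_option autoImplicit false

/-!
Parity for general residual representations and arbitrary ramification at the primes which do not
split, module SDN: the parity formula for finite modules.
-/

noncomputable section

namespace BKT

open BKPar (Loc1 Loc2)
open BKND (Sm)
open BKMet
open BKMet.XSD

namespace NPSDN

section Idx

variable {R : Type} [CommRing R] {V : Type} [AddCommGroup V] [Module R V]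

theorem sup_add (A B : Submodule R V) :
    (A ⊔ B).toAddSubgroup = A.toAddSubgroup ⊔ B.toAddSubgroup := by
  rw [Submodule.sup_toAddSubgroup]

theorem inf_add (A B : Submodule R V) :
    (A ⊓ B).toAddSubgroup = A.toAddSubgroup ⊓ B.toAddSubgroup := by
  ext x
  rfl

/-- the index in a sum -/
theorem idx_sup (A B : Submodule R V) :
    B.toAddSubgroup.relIndex (A ⊔ B).toAddSubgroup = B.toAddSubgroup.relIndex A.toAddSubgroup := by
  rw [sup_add, AddSubgroup.relIndex_sup_right]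

/-- the index in a submodule -/
theorem idx_inf (A B : Submodule R V) :
    (B ⊓ A).toAddSubgroup.relIndex A.toAddSubgroup = B.toAddSubgroup.relIndex A.toAddSubgroup := by
  rw [inf_add, AddSubgroup.inf_relIndex_right]

/-- the product formula -/
theorem idx_mul (B L A : Submodule R V) (h : B ≤ L) :
    B.toAddSubgroup.relIndex (L ⊓ A).toAddSubgroup * L.toAddSubgroup.relIndex A.toAddSubgroup =
      B.toAddSubgroup.relIndex A.toAddSubgroup := by
  rw [inf_add, AddSubgroup.relIndex_inf_mul_relIndex, inf_eq_left.2]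
  exact h

/-- The comparison of the indices of the preimages under a linear map. -/
theorem idx_comap (f : V →ₗ[R] V) (A B L Z' : Submodule R V)
    (h1 : ∀ x ∈ Z', f x ∈ A ⊔ B → ∃ y ∈ L ⊓ A, f x - y ∈ B)
    (h2 : ∀ y ∈ L ⊓ A, ∃ x ∈ Z', f x = y) :
    (B.comap f ⊓ Z').toAddSubgroup.relIndex ((A ⊔ B).comap f ⊓ Z').toAddSubgroup =
      B.toAddSubgroup.relIndex (L ⊓ A).toAddSubgroup := by
  set K : Submodule R V := (A ⊔ B).comap f ⊓ Z' with hK
  have e1 : (B.comap f ⊓ Z').toAddSubgroup.relIndex K.toAddSubgroup =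
      (B.comap f).toAddSubgroup.relIndex K.toAddSubgroup := by
    rw [← idx_inf K (B.comap f ⊓ Z'), ← idx_inf K (B.comap f), inf_assoc,
      inf_eq_right.2 (inf_le_right : K ≤ Z')]
  have e2 : (B.comap f).toAddSubgroup.relIndex K.toAddSubgroup =
      B.toAddSubgroup.relIndex (K.map f).toAddSubgroup := by
    have e := AddSubgroup.relIndex_comap B.toAddSubgroup f.toAddMonoidHom K.toAddSubgroup
    exact e
  have e3 : K.map f ⊔ B = (L ⊓ A) ⊔ B := by
    apply le_antisymm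
    · refine sup_le ?_ le_sup_right
      rintro _ ⟨x, hx, rfl⟩
      obtain ⟨y, hy, hxy⟩ := h1 x hx.2 hx.1
      exact Submodule.mem_sup.2 ⟨y, hy, f x - y, hxy, by abel⟩
    · refine sup_le ?_ le_sup_right
      intro y hy
      obtain ⟨x, hx, rfl⟩ := h2 y hy
      refine Submodule.mem_sup_left ⟨x, ⟨?_, hx⟩, rfl⟩
      exact Submodule.mem_sup_left hy.2
  rw [e1, e2, ← idx_sup (K.map f) B, e3, idx_sup]

end Idx

section Rel

variable {R : Type} [CommRing R] {S : Type} {G : Type} [Group G] [TopologicalSpace G]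
  {D : S → Type} [∀ w, Group (D w)] {A : Type} [AddCommGroup A] {α : G →* AddMonoid.End A}
  {M M' : Type} [AddCommGroup M] [Module R M] [AddCommGroup M'] [Module R M']
  (X : Pair R α M M') (r : ∀ w, D w →* G)

theorem br_le_ltr (T W : Set S) (N : Submodule R M) : X.Br T N ⊤ ≤ ltr X r W N := by
  rintro x ⟨-, ⟨n, -, hn, -⟩, -⟩ w -
  exact ⟨n, fun d => hn _⟩

theorem sub_triv {N : Submodule R M} {x b : (G → M) × (S → M)} {E : Type} [Group E] {r : E →* G}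
    {m n : M} (hx : ∀ d, x.1 (r d) - d0 X.ρ m (r d) ∈ N)
    (hb : ∀ d, b.1 (r d) - d0 X.ρ n (r d) ∈ N) (d : E) :
    (x - b).1 (r d) - d0 X.ρ (m - n) (r d) ∈ N := by
  have e : (x - b).1 (r d) - d0 X.ρ (m - n) (r d) =
      x.1 (r d) - d0 X.ρ m (r d) - (b.1 (r d) - d0 X.ρ n (r d)) := by
    simp only [d0, Prod.fst_sub, Pi.sub_apply, map_sub]
    abel
  rw [e]
  exact N.sub_mem (hx d) (hb d)

/-- if the restriction of `x` comes from a cocycle `z`, then `z` is trivial at the places of `T'`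
outside `T` -/
theorem down {T T' W : Set S} (hW : W ⊆ T') (N : Submodule R M)
    {x : (G → M) × (S → M)} (hx : x ∈ X.Zr r T' N ⊤)
    (h : rsz (R := R) T x ∈ X.Zr r T ⊥ ⊤ ⊔ X.Br T N ⊤) :
    ∃ y ∈ ltr X r W N ⊓ X.Zr r T ⊥ ⊤, rsz (R := R) T x - y ∈ X.Br T N ⊤ := by
  obtain ⟨z, hz, b, hb, hzb⟩ := Submodule.mem_sup.1 h
  refine ⟨z, ⟨?_, hz⟩, ?_⟩
  · intro w hw
    obtain ⟨-, -, -, hx3, -⟩ := hx
    obtain ⟨-, ⟨n, -, hn, -⟩, -⟩ := hb
    refine ⟨x.2 w - n, fun d => ?_⟩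
    have e : z.1 = (x - b).1 := by
      have e' : z = rsz (R := R) T x - b := by
        rw [← hzb]
        abel
      rw [e']
      rfl
    rw [e]
    exact sub_triv X (hx3 w (hW hw)).2 (fun d => hn _) d
  · have e' : rsz (R := R) T x - z = b := by
      rw [← hzb]
      abel
    rw [e']
    exact hb

open Classical in
/-- a cocycle which is trivial at the places of `T'` outside `T` comes from `T'` -/
theorem up {T T' W : Set S} (hT : T ⊆ T') (hW : ∀ w ∈ T', w ∉ T → w ∈ W) (N : Submodule R M)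
    {y : (G → M) × (S → M)} (hy : y ∈ ltr X r W N ⊓ X.Zr r T ⊥ ⊤) :
    ∃ x ∈ X.Zr r T' N ⊤, rsz (R := R) T x = y := by
  obtain ⟨hl, y0, -, y2, y3, y4⟩ := hy
  have hl' : ∀ w, ∃ m : M, w ∈ W → ∀ d, y.1 (r w d) - d0 X.ρ m (r w d) ∈ N := by
    intro w
    by_cases hw : w ∈ W
    · obtain ⟨m, hm⟩ := hl w hw
      exact ⟨m, fun _ => hm⟩
    · exact ⟨0, fun h => absurd h hw⟩
  choose m hm using hl'
  refine ⟨(y.1, fun w => if w ∈ T then y.2 w else if w ∈ T' then m w else 0), ⟨y0, ?_, ?_, ?_, ?_⟩,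
    ?_⟩
  · exact fun _ => Submodule.mem_top
  · intro g h
    have e := y2 g h
    rw [Submodule.mem_bot] at e
    change d1 X.ρ y.1 g h ∈ N
    rw [e]
    exact N.zero_mem
  · intro w hw
    refine ⟨Submodule.mem_top, fun d => ?_⟩
    change y.1 (r w d) - d0 X.ρ (if w ∈ T then y.2 w else if w ∈ T' then m w else 0) (r w d) ∈ N
    by_cases hwT : w ∈ T
    · rw [if_pos hwT]
      have e := (y3 w hwT).2 d
      rw [Submodule.mem_bot] at e
      rw [e]
      exact N.zero_mem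
    · rw [if_neg hwT, if_pos hw]
      exact hm w (hW w hw hwT) d
  · intro w hw
    change (if w ∈ T then y.2 w else if w ∈ T' then m w else 0) = 0
    rw [if_neg (fun h => hw (hT h)), if_neg hw]
  · refine Prod.ext rfl (funext fun w => ?_)
    change (if w ∈ T then (if w ∈ T then y.2 w else if w ∈ T' then m w else 0) else 0) = y.2 w
    by_cases hwT : w ∈ T
    · rw [if_pos hwT, if_pos hwT]
    · rw [if_neg hwT, y4 w hwT]

end Rel

theorem prod_ite {S : Type} [Fintype S] {P Q : S → Prop} (i : ∀ w, Decidable (P w))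
    (j : ∀ w, Decidable (Q w)) (h : ∀ w, P w ↔ Q w) (f : S → ℕ) :
    (∏ w, @ite ℕ (P w) (i w) (f w) 1) = ∏ w, @ite ℕ (Q w) (j w) (f w) 1 := by
  refine Finset.prod_congr rfl fun w _ => ?_
  by_cases hw : Q w
  · rw [if_pos hw, if_pos ((h w).2 hw)]
  · rw [if_neg hw, if_neg fun h' => hw ((h w).1 h')]

theorem prod_pow {S : Type} [Fintype S] (q : ℕ) (f : S → ℕ) (h : ∀ w, ∃ m, f w = q ^ m) :
    ∃ m, ∏ w, f w = q ^ m := by
  choose m hm using h
  exact ⟨∑ w, m w, by rw [← Finset.prod_pow_eq_pow_sum]; exact Finset.prod_congr rfl fun w _ => hm w⟩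

end NPSDN

open NPSDN in
/-- Module SDN. -/
theorem stSdn (h1 : StAln) (h2 : StKrn) (h3 : StAdj) (h4 : StCjz) (h5 : StExact) (h6 : StPerp)
    (h7 : StYR) : StSdn := by
  intro R _ _ _ p _ hp iA S _ G _ _ _ _ D _ _ _ _ Γ c σ τ h hC χ δ U hS T hT1 hTσ hδ M _ _ _ X
    hX hb hU N hN hNp
  have hbot : X.Stable ⊥ := by
    intro g m hm
    rw [Submodule.mem_bot] at hm ⊢
    rw [hm, map_zero]
  have htop : X.Stable ⊤ := fun _ _ _ => Submodule.mem_top
  obtain ⟨w₀, hw₀⟩ := hT1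
  have hT1 : T.Nonempty := ⟨w₀, hw₀⟩
  have hT2 : Tᶜ.Nonempty := ⟨σ w₀, hTσ w₀ hw₀⟩
  have hTT : T ⊆ (sT σ T)ᶜ := fun w hw hw' => hTσ w hw hw'
  have hT3 : ((sT σ T)ᶜ).Nonempty := ⟨w₀, hTT hw₀⟩
  obtain ⟨-, -, -, p4, -, -⟩ := h6 R p G Γ.α M M X
  -- the parity
  obtain ⟨m, hm⟩ := h1 R p hp iA S G D Γ c σ τ h hC χ δ U hS T hT1 hTσ M X hX hb hU N hN hNp
  -- the kernel
  have hk := h2 R S G D Γ.r (QZ p) Γ.α M M X T (sT σ T)ᶜ hT1 hTT N hN
  obtain ⟨-, a2, -⟩ := h3 R S G D (QZ p) (QZ p) Γ M M X T (sT σ T)ᶜ hTT N hN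
  obtain ⟨x1, x2⟩ := h5 R G S D Γ.r (QZ p) Γ.α M M X T hT1
  obtain ⟨y1, -⟩ := h5 R G S D Γ.r (QZ p) Γ.α M M X (sT σ T)ᶜ hT3
  obtain ⟨-, -, x5⟩ := x2 ⊥ N ⊤ hbot hN htop bot_le le_top
  -- the Euler characteristic
  obtain ⟨-, -, -, k1⟩ := h7 R p S G D Γ χ δ U hS M M X hU T hT1 hT2 ⊥ N N hbot hN hN bot_le le_rfl
  obtain ⟨-, j1, -, -⟩ :=
    h7 R p S G D Γ χ δ U hS M M X hU T hT1 hT2 ⊥ ⊤ ⊤ hbot htop htop bot_le le_rfl
  rw [hNp, p4] at k1
  have hN0 : (⊥ : Submodule R M).toAddSubgroup.relIndex N.toAddSubgroup ≠ 0 := by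
    have : Finite (N.toAddSubgroup) := inferInstanceAs (Finite ↥N)
    exact AddSubgroup.index_ne_zero_of_finite
  have key : ∀ a b d e : ℕ, e = 1 → a * b ^ e = d * b → a * b = d * b := by
    intro a b d e he h
    rwa [he, pow_one] at h
  have k3 := key _ _ _ _ hδ k1
  have k2 := Nat.eq_of_mul_eq_mul_right (Nat.pos_of_ne_zero hN0) k3
  -- conjugation
  have hXf : X.ρ = X.flip.ρ.comp c := by
    refine MonoidHom.ext fun g => ?_
    change X.ρ g = X.ρ' (c g)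
    rw [hX]
    change X.ρ g = X.ρ (c (c g))
    rw [hC.invol]
  have hcj := (h4 R p S G D Γ c σ τ h hC M M X.flip X hXf).2.2 Tᶜ N ⊤
    (by
      intro g x hx
      change X.ρ' g x ∈ N
      rw [hX]
      exact hN _ _ hx) (fun _ _ _ => Submodule.mem_top) le_top
  have hcj' := hcj.2.2.2.2.2
  have eT : sT σ Tᶜ = (sT σ T)ᶜ := rfl
  rw [eT] at hcj'
  rw [hcj'] at k2
  -- the comparison
  set q := Nat.card (IsLocalRing.ResidueField R) with hq
  set W : Set S := {w | w ∉ T ∧ σ w ∉ T} with hWdef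
  set Z : Submodule R ((G → M) × (S → M)) := X.Zr Γ.r T ⊥ ⊤ with hZ
  set B : Submodule R ((G → M) × (S → M)) := X.Br T N ⊤ with hB
  set Z' : Submodule R ((G → M) × (S → M)) := X.Zr Γ.r (sT σ T)ᶜ N ⊤ with hZ'
  set B' : Submodule R ((G → M) × (S → M)) := X.Br (sT σ T)ᶜ N ⊤ with hB'
  set L : Submodule R ((G → M) × (S → M)) := ltr X Γ.r W N with hL
  have hW1 : W ⊆ (sT σ T)ᶜ := fun w hw => hw.2
  have hW2 : ∀ w ∈ (sT σ T)ᶜ, w ∉ T → w ∈ W := fun w hw hw' => ⟨hw', hw⟩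
  have c1 := idx_comap (rsz (R := R) T) Z B L Z'
    (fun x hx hx' => down X Γ.r hW1 N hx hx') (fun y hy => up X Γ.r hTT hW2 N hy)
  have c2 := idx_mul B L Z (br_le_ltr X Γ.r T W N)
  have c3 : B'.toAddSubgroup.relIndex (B.comap (rsz T) ⊓ Z').toAddSubgroup *
      (B.comap (rsz T) ⊓ Z').toAddSubgroup.relIndex ((Z ⊔ B).comap (rsz T) ⊓ Z').toAddSubgroup *
      ((Z ⊔ B).comap (rsz T) ⊓ Z').toAddSubgroup.relIndex Z'.toAddSubgroup =
      B'.toAddSubgroup.relIndex Z'.toAddSubgroup := by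
    have i1 : B'.toAddSubgroup ≤ (B.comap (rsz T) ⊓ Z').toAddSubgroup := fun x hx =>
      ⟨a2 x hx, y1 N ⊤ hN le_top htop hx⟩
    have i2 : (B.comap (rsz T) ⊓ Z').toAddSubgroup ≤
        ((Z ⊔ B).comap (rsz T) ⊓ Z').toAddSubgroup := fun x hx =>
      ⟨Submodule.mem_sup_right hx.1, hx.2⟩
    have i3 : ((Z ⊔ B).comap (rsz T) ⊓ Z').toAddSubgroup ≤ Z'.toAddSubgroup := fun x hx => hx.2
    rw [AddSubgroup.relIndex_mul_relIndex _ _ _ i1 i2,
      AddSubgroup.relIndex_mul_relIndex _ _ _ (i1.trans i2) i3]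
  have c4 : B.toAddSubgroup.relIndex (Z ⊔ B).toAddSubgroup =
      B.toAddSubgroup.relIndex Z.toAddSubgroup := idx_sup Z B
  have hP : ∀ w, (w ∈ (sT σ T)ᶜ ∧ w ∉ T) ↔ (w ∉ T ∧ σ w ∉ T) := fun w =>
    ⟨fun h => ⟨h.2, h.1⟩, fun h => ⟨h.2, h.1⟩⟩
  have hk := hk.trans (prod_ite _ (fun w => Classical.propDecidable (w ∉ T ∧ σ w ∉ T)) hP _)
  obtain ⟨e, he⟩ : ∃ m, ∀ i : ∀ w, Decidable (w ∉ T ∧ σ w ∉ T),
      (∏ w, @ite ℕ (w ∉ T ∧ σ w ∉ T) (i w)
        (N.toAddSubgroup.relIndex (fxp X (Γ.r w) N).toAddSubgroup) 1) = q ^ m := by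
    suffices hs : ∃ m, (∏ w, @ite ℕ (w ∉ T ∧ σ w ∉ T)
        (Classical.propDecidable (w ∉ T ∧ σ w ∉ T))
        (N.toAddSubgroup.relIndex (fxp X (Γ.r w) N).toAddSubgroup) 1) = q ^ m by
      obtain ⟨m, hm⟩ := hs
      exact ⟨m, fun i => (prod_ite i _ (fun w => Iff.rfl) _).trans hm⟩
    refine prod_pow q _ fun w => ?_
    by_cases hw : w ∉ T ∧ σ w ∉ T
    · rw [if_pos hw]
      refine relIndex_pow R N (fxp X (Γ.r w) N) ?_
      have : Finite ((fxp X (Γ.r w) N).toAddSubgroup) :=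
        inferInstanceAs (Finite ↥(fxp X (Γ.r w) N))
      exact AddSubgroup.index_ne_zero_of_finite
    · rw [if_neg hw]
      exact ⟨0, (pow_zero q).symm⟩
  unfold hT at k2 j1 ⊢
  rw [← hB', ← hZ'] at k2
  rw [← hZ] at j1 ⊢
  rw [c4] at x5
  rw [x5] at j1
  have f1 : B.toAddSubgroup.relIndex Z.toAddSubgroup ≠ 0 := right_ne_zero_of_mul j1
  rw [← c2] at f1
  obtain ⟨a, ha⟩ := relIndex_pow R L Z (right_ne_zero_of_mul f1)
  obtain ⟨b, hb'⟩ := relIndex_pow R B (L ⊓ Z) (left_ne_zero_of_mul f1)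
  rw [c1] at c3
  rw [he] at hk
  rw [← hq] at ha hb'
  refine ⟨a + b + e + m, ?_⟩
  rw [he, x5, k2, ← c3, ← c2, hk, hm, ha, hb', idx_inf Z L, ha]
  ring

end BKT
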