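import Pool.Agent.Lib.MP_7c08ba_nt.T1.StR
import Pool.Agent.Lib.MP_7c08ba_nt.Met.HTI

set_option autoImplicit false

/-!
Explicit local terms, module LOZ, part A: the structure of the decomposition group of a place above
a prime which does not split.
-/

noncomputable section

namespace BKT

open NumberField BKGen BKMet
open BKGlob2 (CC0)

namespace RLOA

variable {F : Type} [Field F] {l : ℕ} [Fact l.Prime]

/-- the decomposition group -/
abbrev DG (j : AlgebraicClosure F →+* PadicAlgCl l) : Type := ↥(Dec F (AlgebraicClosure F) j)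

theorem mem_dec {j : AlgebraicClosure F →+* PadicAlgCl l} {g : GF F} :
    g ∈ Dec F (AlgebraicClosure F) j ↔ ∀ x, ‖j (g x)‖ = ‖j x‖ := Iff.rfl

theorem mem_ine {j : AlgebraicClosure F →+* PadicAlgCl l} {g : GF F} :
    g ∈ Ine j ↔ ∀ x, ‖j x‖ ≤ 1 → ‖j (g x - x)‖ < 1 := Iff.rfl

theorem sub_lt {j : AlgebraicClosure F →+* PadicAlgCl l} {x y z : AlgebraicClosure F}
    (h1 : ‖j (x - y)‖ < 1) (h2 : ‖j (y - z)‖ < 1) : ‖j (x - z)‖ < 1 := by
  have h3 : j (x - z) = j (x - y) + j (y - z) := by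
    rw [← map_add, sub_add_sub_cancel]
  rw [h3]
  exact (IsUltrametricDist.norm_add_le_max _ _).trans_lt (max_lt h1 h2)

/-- the inertia group as a subgroup of the decomposition group -/
def II (j : AlgebraicClosure F →+* PadicAlgCl l) : Subgroup (DG j) where
  carrier := {d | (d : GF F) ∈ Ine j}
  mul_mem' := by
    intro a b ha hb x hx
    change ‖j ((a : GF F) ((b : GF F) x) - x)‖ < 1
    refine sub_lt (y := (b : GF F) x) (ha _ ?_) (hb x hx)
    rw [b.2 x]
    exact hx
  one_mem' := by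
    intro x _
    change ‖j (x - x)‖ < 1
    rw [sub_self, map_zero, norm_zero]
    exact one_pos
  inv_mem' := by
    intro a ha x hx
    change ‖j ((a : GF F)⁻¹ x - x)‖ < 1
    have h1 : (a : GF F) ((a : GF F)⁻¹ x) = x := AlgEquiv.apply_symm_apply (a : GF F) x
    have h2 : ‖j ((a : GF F)⁻¹ x)‖ ≤ 1 := by
      have h3 := a.2 ((a : GF F)⁻¹ x)
      rw [h1] at h3
      rw [← h3]
      exact hx
    have h4 := ha _ h2
    rw [h1] at h4
    have h5 : j ((a : GF F)⁻¹ x - x) = - j (x - (a : GF F)⁻¹ x) := by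
      rw [← map_neg, neg_sub]
    rw [h5, norm_neg]
    exact h4

theorem mem_II {j : AlgebraicClosure F →+* PadicAlgCl l} {d : DG j} :
    d ∈ II j ↔ (d : GF F) ∈ Ine j := Iff.rfl

section Norm

variable {j : AlgebraicClosure F →+* PadicAlgCl l}

/-- inertia elements are in the decomposition group -/
theorem ine_dec {g : GF F} (hg : g ∈ Ine j) : g ∈ Dec F (AlgebraicClosure F) j :=
  BKGlob2.TIAux.inert_mem_dec j hg

/-- conjugates of inertia elements under automorphisms which preserve the place -/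
theorem conj_ine {g : AlgebraicClosure F ≃+* AlgebraicClosure F} (hg : ∀ x, ‖j (g x)‖ = ‖j x‖)
    {i i' : GF F} (hi : i ∈ Ine j) (h : ∀ x, i' (g x) = g (i x)) : i' ∈ Ine j := by
  intro x hx
  obtain ⟨y, rfl⟩ := g.surjective x
  rw [h, ← map_sub, hg]
  rw [hg] at hx
  exact hi y hx

theorem conj_dec {g : AlgebraicClosure F ≃+* AlgebraicClosure F} (hg : ∀ x, ‖j (g x)‖ = ‖j x‖)
    {i i' : GF F} (hi : i ∈ Dec F (AlgebraicClosure F) j) (h : ∀ x, i' (g x) = g (i x)) :
    i' ∈ Dec F (AlgebraicClosure F) j := by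
  intro x
  obtain ⟨y, rfl⟩ := g.surjective x
  rw [h, hg, hg]
  exact hi y

end Norm

/-- The data of the conjugation at the place `j`. -/
structure Cv (p : ℕ) [Fact p.Prime] (j : AlgebraicClosure F →+* PadicAlgCl l)
    (cc : GF F →* GF F) (g : AlgebraicClosure F ≃+* AlgebraicClosure F) (h s : GF F) : Prop where
  pres : ∀ x, ‖j (g x)‖ = ‖j x‖
  sq : ∀ x, s x = g (g x)
  mem : s ∈ Dec F (AlgebraicClosure F) j
  conj : ∀ (d : GF F) x, (h⁻¹ * cc d * h) (g x) = g (d x)
  cyc : cycF p F h * cyclotomicCharacter (AlgebraicClosure F) p g = -1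
  cycc : ∀ d, cycF p F (cc d) = cycF p F d

section Data

variable {p : ℕ} [Fact p.Prime] {j : AlgebraicClosure F →+* PadicAlgCl l} {cc : GF F →* GF F}
  {g : AlgebraicClosure F ≃+* AlgebraicClosure F} {h s : GF F}

/-- the conjugation of the decomposition group -/
def sg (H : Cv p j cc g h s) : DG j →* DG j where
  toFun d := ⟨h⁻¹ * cc d * h, conj_dec H.pres d.2 (H.conj d)⟩
  map_one' := by
    apply Subtype.ext
    change h⁻¹ * cc ((1 : DG j) : GF F) * h = 1
    rw [Subgroup.coe_one, map_one, mul_one, inv_mul_cancel]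
  map_mul' a b := by
    apply Subtype.ext
    change h⁻¹ * cc ((a * b : DG j) : GF F) * h = (h⁻¹ * cc a * h) * (h⁻¹ * cc b * h)
    rw [Subgroup.coe_mul, map_mul]
    group

theorem sg_coe (H : Cv p j cc g h s) (d : DG j) : ((sg H d : DG j) : GF F) = h⁻¹ * cc d * h := rfl

/-- the cyclotomic character of the decomposition group -/
def chD (p : ℕ) [Fact p.Prime] (j : AlgebraicClosure F →+* PadicAlgCl l) : DG j →* ℤ_[p]ˣ :=
  (cycF p F).comp (Dec F (AlgebraicClosure F) j).subtype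

theorem tamG (H : Cv p j cc g h s) {e : GF F → ℤ_[p]} (he : Tam p j e)
    (hab : ∀ g' : AlgebraicClosure F ≃+* AlgebraicClosure F, (∀ x, ‖j (g' x)‖ = ‖j x‖) →
      ∀ d ∈ Dec F (AlgebraicClosure F) j, ∀ d' : GF F, (∀ x, d' (g' x) = g' (d x)) →
      d' * d⁻¹ ∈ Ine j) {t : GF F} (ht : t ∈ Ine j) (het : e t = 1) :
    TamG p (II j) (chD p j) (fun d => e d) (sg H) ⟨s, H.mem⟩ ⟨t, ine_dec ht⟩ (cycF p F h) := by
  have hcj : ∀ (d : DG j) (x : GF F) (y : AlgebraicClosure F),
      ((d : GF F) * x * (d : GF F)⁻¹) ((d : GF F).toRingEquiv y) =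
        (d : GF F).toRingEquiv (x y) := by
    intro d x y
    change (d : GF F) (x ((d : GF F)⁻¹ ((d : GF F) y))) = (d : GF F) (x y)
    have h1 : (d : GF F)⁻¹ ((d : GF F) y) = y := AlgEquiv.symm_apply_apply (d : GF F) y
    rw [h1]
  have hnorm : ∀ d : DG j, ∀ i ∈ II j, d * i * d⁻¹ ∈ II j := by
    intro d i hi
    exact conj_ine (g := (d : GF F).toRingEquiv) (fun x => d.2 x) hi (hcj d i)
  refine ⟨hnorm, ?_, ?_, ht, het, ?_, ?_, ?_, ?_, ?_, ?_⟩
  · intro i hi i' hi'
    exact he.hom i hi i' hi'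
  · intro d i hi
    exact he.conj (d : GF F).toRingEquiv (fun x => d.2 x) i hi _ (hnorm d i hi) (hcj d i)
  · intro i hi
    exact conj_ine H.pres hi (H.conj i)
  · intro i hi
    have h1 := he.conj g H.pres i hi _ (conj_ine H.pres hi (H.conj i)) (H.conj i)
    have h2 : ((cycF p F h : ℤ_[p]ˣ) : ℤ_[p]) *
        ((cyclotomicCharacter (AlgebraicClosure F) p g : ℤ_[p]ˣ) : ℤ_[p]) = -1 := by
      rw [← Units.val_mul, H.cyc, Units.val_neg, Units.val_one]
    change ((cycF p F h : ℤ_[p]ˣ) : ℤ_[p]) * e (h⁻¹ * cc i * h) = - e i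
    rw [h1, ← mul_assoc, h2, neg_one_mul]
  · intro d
    apply Subtype.ext
    change h⁻¹ * cc (h⁻¹ * cc d * h) * h = s * d * s⁻¹
    rw [eq_mul_inv_iff_mul_eq]
    ext x
    change (h⁻¹ * cc (h⁻¹ * cc d * h) * h) (s x) = s ((d : GF F) x)
    rw [H.sq, H.conj, H.conj, ← H.sq]
  · intro d
    change cycF p F (h⁻¹ * cc d * h) = cycF p F d
    rw [map_mul, map_mul, map_inv, H.cycc, mul_comm (cycF p F h)⁻¹, inv_mul_cancel_right]
  · intro d
    exact hab g H.pres d d.2 _ (H.conj d)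
  · intro d d'
    exact hab (d : GF F).toRingEquiv (fun x => d.2 x) d' d'.2 _ (hcj d d')

end Data

end RLOA

end BKT
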