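import Pool.Agent.Lib.MP_7c08ba_nt.T1.RFIT

set_option autoImplicit false

/-!
Explicit local terms, module LOZ, part B: lattices in a normed space.
-/

noncomputable section

namespace BKT

open BKMet

namespace RLOB

section Norm

variable {p : ℕ} [Fact p.Prime] {L : Type} [NormedField L] [NormedAlgebra ℚ_[p] L]
  [FiniteDimensional ℚ_[p] L] {W : Type} [NormedAddCommGroup W] [NormedSpace L W]
  [FiniteDimensional L W]

theorem smul_coe (a : OO p L) (x : W) : a • x = (a : L) • x := rfl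

theorem norm_pow_smul (m : ℕ) (x : W) :
    ‖pi0 p L ^ m • x‖ = ‖((pi0 p L : OO p L) : L)‖ ^ m * ‖x‖ := by
  rw [smul_coe, norm_smul, Subring.coe_pow, norm_pow]

variable (p L) in
theorem exists_pow (r ε : ℝ) (hε : 0 < ε) :
    ∃ m₀ : ℕ, ∀ m ≥ m₀, ‖((pi0 p L : OO p L) : L)‖ ^ m * r < ε := by
  have h1 : Filter.Tendsto (fun m : ℕ => ‖((pi0 p L : OO p L) : L)‖ ^ m * r) Filter.atTop
      (nhds 0) := by
    have h2 := (tendsto_pow_atTop_nhds_zero_of_lt_one (norm_nonneg _) (pi0_lt p L)).mul_const r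
    rwa [zero_mul] at h2
  exact Filter.eventually_atTop.1 (h1.eventually (gt_mem_nhds hε))

theorem cont_lin (p : ℕ) [Fact p.Prime] {L : Type} [NormedField L] [NormedAlgebra ℚ_[p] L]
    [FiniteDimensional ℚ_[p] L] {W : Type} [NormedAddCommGroup W] [NormedSpace L W]
    [FiniteDimensional L W] (f : W →ₗ[L] L) : ∃ C : ℝ, 0 < C ∧ ∀ x, ‖f x‖ ≤ C * ‖x‖ := by
  let i1 : NontriviallyNormedField L :=
    { ‹NormedField L› with
      non_trivial := ⟨(((pi0 p L : OO p L) : L))⁻¹, by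
        rw [norm_inv]
        exact (one_lt_inv₀ (pi0_pos p L)).2 (pi0_lt p L)⟩ }
  have i2 : CompleteSpace L := FiniteDimensional.complete ℚ_[p] L
  refine ⟨‖f.toContinuousLinearMap‖ + 1, by positivity, fun x => ?_⟩
  have h1 := f.toContinuousLinearMap.le_opNorm x
  change ‖f x‖ ≤ ‖f.toContinuousLinearMap‖ * ‖x‖ at h1
  refine h1.trans ?_
  exact mul_le_mul_of_nonneg_right (by linarith) (norm_nonneg _)

/-- a module which spans `W` is open -/
theorem exists_ball (X : Submodule (OO p L) W) (hs : ∀ x, ∃ m : ℕ, pi0 p L ^ m • x ∈ X) :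
    ∃ ε : ℝ, 0 < ε ∧ ∀ x : W, ‖x‖ < ε → x ∈ X := by
  classical
  let b := Module.finBasis L W
  choose m hm using fun i => hs (b i)
  choose C hC0 hC using fun i => cont_lin p (b.coord i)
  have h0 := pi0_pos p L
  have h1 := pi0_lt p L
  -- the radius
  have hex : ∃ ε : ℝ, 0 < ε ∧ ∀ i, C i * ε ≤ ‖((pi0 p L : OO p L) : L)‖ ^ m i := by
    by_cases hn : Nonempty (Fin (Module.finrank L W))
    · refine ⟨Finset.univ.inf' (Finset.univ_nonempty) fun i =>
        ‖((pi0 p L : OO p L) : L)‖ ^ m i / C i, ?_, fun i => ?_⟩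
      · rw [Finset.lt_inf'_iff]
        intro i _
        exact div_pos (pow_pos h0 _) (hC0 i)
      · have h2 : Finset.univ.inf' (Finset.univ_nonempty) (fun i =>
            ‖((pi0 p L : OO p L) : L)‖ ^ m i / C i) ≤ ‖((pi0 p L : OO p L) : L)‖ ^ m i / C i :=
          Finset.inf'_le _ (Finset.mem_univ i)
        calc C i * _ ≤ C i * (‖((pi0 p L : OO p L) : L)‖ ^ m i / C i) :=
              mul_le_mul_of_nonneg_left h2 (hC0 i).le
          _ = _ := mul_div_cancel₀ _ (hC0 i).ne'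
    · exact ⟨1, one_pos, fun i => absurd ⟨i⟩ hn⟩
  obtain ⟨ε, hε, hε'⟩ := hex
  refine ⟨ε, hε, fun x hx => ?_⟩
  rw [← b.sum_repr x]
  refine X.sum_mem fun i _ => ?_
  have h3 : ‖b.repr x i‖ ≤ ‖((pi0 p L : OO p L) : L)‖ ^ m i := by
    have h4 : ‖b.coord i x‖ ≤ C i * ‖x‖ := hC i x
    rw [Module.Basis.coord_apply] at h4
    exact h4.trans ((mul_le_mul_of_nonneg_left hx.le (hC0 i).le).trans (hε' i))
  have h5 : b.repr x i • b i =
      (⟨b.repr x i * (((pi0 p L : OO p L) : L) ^ m i)⁻¹, by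
        change ‖_‖ ≤ 1
        rw [norm_mul, norm_inv, norm_pow, mul_inv_le_iff₀ (pow_pos h0 _), one_mul]
        exact h3⟩ : OO p L) • (pi0 p L ^ m i • b i) := by
    rw [smul_coe, smul_coe, smul_smul]
    congr 1
    rw [Subring.coe_pow, mul_assoc, inv_mul_cancel₀ (pow_ne_zero _ (pi0_ne p L)), mul_one]
  rw [h5]
  exact X.smul_mem _ (hm i)

/-- bounded modules which span `W` are lattices -/
theorem latW (X : Submodule (OO p L) W) (hb : ∃ C : ℝ, ∀ x ∈ X, ‖x‖ ≤ C)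
    (hs : ∀ x, ∃ m : ℕ, pi0 p L ^ m • x ∈ X) : LatW X := by
  classical
  refine ⟨?_, hs⟩
  let b := Module.finBasis L W
  obtain ⟨C, hC⟩ := hb
  choose B hB0 hB using fun i => cont_lin p (b.coord i)
  choose m₀ hm₀ using fun i => exists_pow p L (B i * C) 1 one_pos
  let m : ℕ := Finset.univ.sup m₀
  have h0 := pi0_pos p L
  let Y : Submodule (OO p L) W := Submodule.span (OO p L) (Set.range b)
  have hY : Y.FG := Submodule.fg_span (Set.finite_range b)
  have hXY : X.map (LinearMap.lsmul (OO p L) W (pi0 p L ^ m)) ≤ Y := by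
    rintro _ ⟨x, hx, rfl⟩
    change pi0 p L ^ m • x ∈ Y
    rw [← b.sum_repr (pi0 p L ^ m • x)]
    refine Y.sum_mem fun i _ => ?_
    have h3 : ‖b.repr (pi0 p L ^ m • x) i‖ ≤ 1 := by
      have h4 : ‖b.coord i x‖ ≤ B i * ‖x‖ := hB i x
      rw [Module.Basis.coord_apply] at h4
      have h5 : b.repr (pi0 p L ^ m • x) i = ((pi0 p L : OO p L) : L) ^ m * b.repr x i := by
        rw [smul_coe, map_smul, Finsupp.smul_apply, Subring.coe_pow, smul_eq_mul]
      rw [h5, norm_mul, norm_pow]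
      have h6 := (hm₀ i m (Finset.le_sup (Finset.mem_univ i))).le
      refine le_trans (mul_le_mul_of_nonneg_left (h4.trans ?_) (pow_nonneg (norm_nonneg _) _)) h6
      exact mul_le_mul_of_nonneg_left (hC x hx) (hB0 i).le
    have h7 : b.repr (pi0 p L ^ m • x) i • b i =
        (⟨b.repr (pi0 p L ^ m • x) i, h3⟩ : OO p L) • b i := rfl
    rw [h7]
    exact Y.smul_mem _ (Submodule.subset_span ⟨i, rfl⟩)
  have h8 : IsNoetherian (OO p L) Y := isNoetherian_of_fg_of_noetherian Y hY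
  have h9 := (isNoetherian_submodule.1 h8) _ hXY
  refine Submodule.fg_of_fg_map_injective (LinearMap.lsmul (OO p L) W (pi0 p L ^ m)) ?_ h9
  intro x y hxy
  change pi0 p L ^ m • x = pi0 p L ^ m • y at hxy
  rw [smul_coe, smul_coe, Subring.coe_pow] at hxy
  exact smul_right_injective W (pow_ne_zero m (pi0_ne p L)) hxy

theorem tendsto_iff (X : Submodule (OO p L) W) (hb : ∃ C : ℝ, ∀ x ∈ X, ‖x‖ ≤ C)
    (hs : ∀ x, ∃ m : ℕ, pi0 p L ^ m • x ∈ X) (u : ℕ → W) :
    Filter.Tendsto u Filter.atTop (nhds 0) ↔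
      ∀ k : ℕ, ∃ m₀ : ℕ, ∀ m ≥ m₀, ∃ y ∈ X, u m = pi0 p L ^ k • y := by
  have h0 := pi0_pos p L
  constructor
  · intro h k
    obtain ⟨ε, hε, hX⟩ := exists_ball X hs
    obtain ⟨m₀, hm₀⟩ := (Metric.tendsto_atTop.1 h)
      (‖((pi0 p L : OO p L) : L)‖ ^ k * ε) (by positivity)
    refine ⟨m₀, fun m hm => ⟨(((pi0 p L : OO p L) : L) ^ k)⁻¹ • u m, hX _ ?_, ?_⟩⟩
    · rw [norm_smul, norm_inv, norm_pow, inv_mul_lt_iff₀ (by positivity)]
      have h1 := hm₀ m hm
      rwa [dist_zero_right] at h1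
    · rw [smul_coe, Subring.coe_pow, smul_smul, mul_inv_cancel₀ (pow_ne_zero _ (pi0_ne p L)),
        one_smul]
  · intro h
    obtain ⟨C, hC⟩ := hb
    rw [Metric.tendsto_atTop]
    intro ε hε
    obtain ⟨k, hk⟩ := exists_pow p L C ε hε
    obtain ⟨m₀, hm₀⟩ := h k
    refine ⟨m₀, fun m hm => ?_⟩
    obtain ⟨y, hy, hy'⟩ := hm₀ m hm
    rw [dist_zero_right, hy', norm_pow_smul]
    exact (mul_le_mul_of_nonneg_left (hC y hy) (by positivity)).trans_lt (hk k le_rfl)

theorem eq_zero (X : Submodule (OO p L) W) (hb : ∃ C : ℝ, ∀ x ∈ X, ‖x‖ ≤ C) (z : W)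
    (h : ∀ m : ℕ, ∃ y ∈ X, z = pi0 p L ^ m • y) : z = 0 := by
  obtain ⟨C, hC⟩ := hb
  by_contra hz
  obtain ⟨k, hk⟩ := exists_pow p L C ‖z‖ (norm_pos_iff.2 hz)
  obtain ⟨y, hy, hy'⟩ := h k
  have h1 := hk k le_rfl
  have h2 : ‖z‖ ≤ ‖((pi0 p L : OO p L) : L)‖ ^ k * C := by
    rw [hy', norm_pow_smul]
    exact mul_le_mul_of_nonneg_left (hC y hy) (by positivity)
  exact absurd (h2.trans_lt h1) (lt_irrefl _)

end Norm

section Alg

open Polynomial

variable {R : Type} [CommRing R] {M : Type} [AddCommGroup M] [Module R M]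

theorem aeval_mem (A : Module.End R M) (Y : Submodule R M) (hA : ∀ y ∈ Y, A y ∈ Y) (q : R[X])
    {y : M} (hy : y ∈ Y) : aeval A q y ∈ Y := by
  have hp : ∀ (i : ℕ) (z : M), z ∈ Y → (A ^ i) z ∈ Y := by
    intro i
    induction i with
    | zero => intro z hz; exact hz
    | succ i ih =>
      intro z hz
      rw [pow_succ]
      exact ih _ (hA z hz)
  rw [aeval_eq_sum_range, LinearMap.sum_apply]
  exact Y.sum_mem fun i _ => Y.smul_mem _ (hp i y hy)

/-- an element which is unipotent and of finite order `r` on a module where `r` is invertible is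
trivial -/
theorem unip (A : Module.End R M) (Y : Submodule R M) (hA : ∀ y ∈ Y, A y ∈ Y) (r : ℕ)
    (hr : IsUnit (r : R)) (x : M) (h1 : (A ^ r) x - x ∈ Y) (m : ℕ) (h2 : ((A - 1) ^ m) x ∈ Y) :
    A x - x ∈ Y := by
  let G : R[X] := ∑ i ∈ Finset.range r, X ^ i
  have hG : (X - 1 : R[X]) * G = X ^ r - 1 := mul_geom_sum X r
  have hco : IsCoprime (X - 1 : R[X]) G := by
    have h3 : (X - C 1 : R[X]) ∣ G - C (G.eval 1) := X_sub_C_dvd_sub_C_eval
    have h4 : G.eval 1 = (r : R) := by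
      simp [G, eval_finsetSum]
    rw [h4, C_1] at h3
    obtain ⟨H, hH⟩ := h3
    have h5 : G = C (r : R) + (X - 1) * H := by
      rw [← hH]
      ring
    rw [h5]
    have h6 : IsCoprime (X - 1 : R[X]) (C (r : R)) :=
      ⟨0, ((hr.map C).unit⁻¹ : R[X]ˣ), by
        rw [zero_mul, zero_add]
        exact (hr.map C).val_inv_mul⟩
    exact h6.add_mul_left_right H
  obtain ⟨u, v, huv⟩ := hco.pow_left (m := m)
  have h7 : (X - 1 : R[X]) = (u * (X - 1)) * (X - 1) ^ m + v * (X ^ r - 1) := by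
    rw [← hG]
    linear_combination (-(X - 1 : R[X])) * huv
  have h9 : aeval A ((X - 1 : R[X]) ^ m) x ∈ Y := by
    rw [map_pow, map_sub, aeval_X, map_one]
    exact h2
  have h10 : aeval A (X ^ r - 1 : R[X]) x ∈ Y := by
    rw [map_sub, map_pow, aeval_X, map_one, LinearMap.sub_apply, Module.End.one_apply]
    exact h1
  have h8 : A x - x = aeval A (X - 1 : R[X]) x := by
    rw [map_sub, aeval_X, map_one, LinearMap.sub_apply, Module.End.one_apply]
  rw [h8, h7, map_add, map_mul _ (u * (X - 1)), map_mul _ v, LinearMap.add_apply,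
    Module.End.mul_apply, Module.End.mul_apply]
  exact Y.add_mem (aeval_mem A Y hA _ h9) (aeval_mem A Y hA _ h10)

/-- if `A ^ (p ^ m)` is trivial modulo `Y`, then `(A - 1) ^ (p ^ m)` is divisible by `p` modulo
`Y` -/
theorem frob (p : ℕ) (hp : p.Prime) (hp2 : p ≠ 2) (A : Module.End R M) (Y Z : Submodule R M)
    (hA : ∀ y ∈ Z, A y ∈ Z) (hZ : ∀ y ∈ Z, (p : R) • y ∈ Y) (m : ℕ) (x : M) (hx : x ∈ Z)
    (h1 : (A ^ (p ^ m)) x - x ∈ Y) : ((A - 1) ^ (p ^ m)) x ∈ Y := by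
  obtain ⟨q, hq⟩ := exists_add_pow_prime_pow_eq hp (X : R[X]) (-1) m
  have hodd : Odd (p ^ m) := (hp.odd_of_ne_two hp2).pow
  rw [hodd.neg_one_pow, ← sub_eq_add_neg] at hq
  have h2 : ((A - 1) ^ (p ^ m)) x = aeval A ((X - 1 : R[X]) ^ (p ^ m)) x := by
    rw [map_pow, map_sub, aeval_X, map_one]
  rw [h2, hq]
  have h3 : aeval A (X ^ p ^ m + -1 + (p : R[X]) * X * -1 * q) x =
      ((A ^ (p ^ m)) x - x) + (p : R) • aeval A (X * -1 * q) x := by
    rw [mul_assoc (p : R[X]), mul_assoc (p : R[X])]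
    rw [map_add, LinearMap.add_apply, map_add, LinearMap.add_apply, map_pow, aeval_X, map_neg,
      map_one, map_mul, Module.End.mul_apply, map_natCast, LinearMap.neg_apply,
      Module.End.one_apply, ← sub_eq_add_neg]
    congr 1
    rw [Module.End.natCast_apply, ← Nat.cast_smul_eq_nsmul R]
  rw [h3]
  exact Y.add_mem h1 (hZ _ (aeval_mem A Z hA _ hx))

end Alg

end RLOB

end BKT
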