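import Pool.Agent.Lib.MP_7c08ba_nt.T1.StR
import Pool.Agent.Lib.MP_7c08ba_nt.BK.ClsA

set_option autoImplicit false

/-!
Explicit local terms, module ZER: the representation zero, and the final statement.
-/

noncomputable section

namespace BKT

open NumberField BKGen BKMet
open Matrix TensorProduct

namespace RZER

section Zero

variable {p : ℕ} [Fact p.Prime] {F : Type} [Field F] {L : Type} [NormedField L]
  [NormedAlgebra ℚ_[p] L]

instance subVB (B : Type) [CommRing B] [Algebra ℚ_[p] B] : Subsingleton (BKS.VB p L 0 B) := by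
  refine ⟨fun x y => ?_⟩
  have key : ∀ z : (Fin 0 → L) ⊗[ℚ_[p]] B, z = 0 := by
    intro z
    induction z using TensorProduct.induction_on with
    | zero => rfl
    | tmul a b =>
      have h : a = 0 := Subsingleton.elim _ _
      rw [h, TensorProduct.zero_tmul]
    | add a b ha hb => rw [ha, hb, add_zero]
  exact (key x).trans (key y).symm

instance subFn (G : Type) : Subsingleton (BKS.Fn G L 0) :=
  inferInstanceAs (Subsingleton (G → Fin 0 → L))

/-- the representation zero -/
def V0 (F : Type) [Field F] (L : Type) [NormedField L] : BKS.Rep (GF F) L 0 := 1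

theorem isPol (c : AlgebraicClosure F ≃+* AlgebraicClosure F) :
    BKS.IsPol p (V0 F L) c (0 : Matrix (Fin 0) (Fin 0) L) := by
  refine ⟨Matrix.transpose_zero, ?_, fun g g' _ x y => ?_⟩
  · rw [Matrix.det_isEmpty]
    exact isUnit_one
  · unfold dotProduct
    rw [Finset.univ_eq_empty, Finset.sum_empty, Finset.sum_empty, mul_zero]

theorem isRepU : BKS.IsRepU p (V0 F L) := by
  refine ⟨continuous_const, ⟨∅, fun l _ _ _ j g _ => ⟨1, ?_, ?_⟩⟩, fun l _ _ j v _ => ?_,
    fun j => ?_, fun j => ?_⟩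
  · intro h
    have hp : p.Prime := Fact.out
    exact hp.one_lt.ne' (Nat.dvd_one.1 h)
  · exact one_pow 1
  · exact Subsingleton.elim _ _
  · refine ⟨id, ⟨Function.bijective_id, fun _ _ => rfl, fun _ _ => rfl, fun _ _ => rfl⟩,
      fun g t _ x => Subsingleton.elim _ _⟩
  · intro y _
    refine ⟨0, ⟨?_, Subsingleton.elim _ _⟩, fun z _ => Subsingleton.elim _ _⟩
    exact Submodule.zero_mem _

theorem dimH : BKS.dim (BKS.H1f p (V0 F L)) = 0 := by
  have h1 : Subsingleton (BKS.H1 (V0 F L)) := by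
    refine ⟨fun x y => ?_⟩
    obtain ⟨a, rfl⟩ := Submodule.Quotient.mk_surjective _ x
    obtain ⟨b, rfl⟩ := Submodule.Quotient.mk_surjective _ y
    congr 1
    exact Subtype.ext (Subsingleton.elim _ _)
  exact Module.finrank_zero_of_subsingleton

theorem tdim (v : BKS.Emb p F) : BKS.tdim (V0 F L) v = 0 := by
  have h1 : Subsingleton (↥(BKS.DB Per.galD ⊤ v (V0 F L)) ⧸
      (BKS.sub L 0 (Per.jd p)).submoduleOf (BKS.DB Per.galD ⊤ v (V0 F L))) := by
    refine ⟨fun x y => ?_⟩
    obtain ⟨a, rfl⟩ := Submodule.Quotient.mk_surjective _ x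
    obtain ⟨b, rfl⟩ := Submodule.Quotient.mk_surjective _ y
    congr 1
    exact Subtype.ext (Subsingleton.elim _ _)
  exact Module.finrank_zero_of_subsingleton

theorem ndel {l : ℕ} [Fact l.Prime] (j : BKS.Emb l F) (g : GF F) :
    BKS.ndel (V0 F L) j g = 0 := by
  unfold BKS.ndel
  rw [Module.finrank_zero_of_subsingleton]
  exact Nat.zero_sub _

theorem parN (v : BKS.Emb p F) {κ : Type} [Fintype κ] {l : κ → ℕ} [∀ k, Fact (l k).Prime]
    (j : ∀ k, BKS.Emb (l k) F) (g : κ → GF F) : BKS.parN p (V0 F L) v j g = 0 := by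
  unfold BKS.parN
  rw [dimH, tdim, Finset.sum_eq_zero fun k _ => ndel (j k) (g k), add_zero]

theorem covers {V : BKS.Rep (GF F) L 0} {n : ℕ} {W : BKS.Rep (GF F) L n} {κ : Type} {l : κ → ℕ}
    (hV : V = 1) (h : BKS.Covers p W l) : BKS.Covers p V l := by
  refine ⟨h.inj, h.split, fun m _ _ _ => Or.inl fun j g _ => ⟨1, ?_, ?_⟩⟩
  · intro h
    have hp : p.Prime := Fact.out
    exact hp.one_lt.ne' (Nat.dvd_one.1 h)
  · rw [hV]
    exact one_pow 1

end Zero

section Hyp

variable {p : ℕ} [Fact p.Prime] {F : Type} [Field F] {L : Type} [NormedField L]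
  [NormedAlgebra ℚ_[p] L] {n n' : ℕ}

theorem mat_ext {L₂ : Type} [NormedField L₂] (φ : L →+* L₂) (V : BKS.Rep (GF F) L n) (g : GF F) :
    BKS.mat (BKS.ext φ V) g = (BKS.mat V g).map φ := rfl

/-- the criterion of `ParityZ` -/
theorem hyper {V : BKS.Rep (GF F) L n} {V' : BKS.Rep (GF F) L n'}
    {c : AlgebraicClosure F ≃+* AlgebraicClosure F}
    (h : BKS.IsHyp p (fun g => (BKS.mat V g).charpoly * (BKS.mat V' g).charpoly) c) :
    ∃ (L₂ : Type) (_ : NormedField L₂) (_ : NormedAlgebra ℚ_[p] L₂)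
      (_ : FiniteDimensional ℚ_[p] L₂) (φ : L →ₐ[ℚ_[p]] L₂),
      BKS.Hyper p (BKS.ext (φ : L →+* L₂) V) (BKS.ext (φ : L →+* L₂) V') c := by
  obtain ⟨L₂, i1, i2, i3, φ, m, U, hU, hUV⟩ := h
  refine ⟨L₂, i1, i2, i3, φ, m, U, hU, fun g g' hg i => ?_⟩
  have h1 := hUV g g' hg i
  rw [mat_ext, mat_ext]
  have h2 : ((BKS.mat V g).map φ).charpoly = (BKS.mat V g).charpoly.map (φ : L →+* L₂) :=
    Matrix.charpoly_map (BKS.mat V g) (φ : L →+* L₂)
  have h3 : ((BKS.mat V' g).map φ).charpoly = (BKS.mat V' g).charpoly.map (φ : L →+* L₂) :=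
    Matrix.charpoly_map (BKS.mat V' g) (φ : L →+* L₂)
  rw [Polynomial.map_mul, ← h2, ← h3] at h1
  exact h1

end Hyp

end RZER

open RZER in
/-- **The final statement from `ParityZ`.** -/
theorem parityA (h : StPzf) (p : ℕ) [Fact p.Prime] (F : Type) [Field F] [NumberField F]
    (hp : p ≠ 2) (hF : Module.finrank ℚ F = 2) (hIm : IsEmpty (F →+* ℝ)) (hs : BKS.Split p F) :
    BKS.ParityA p F := by
  intro c hc L _ _ _ n V B hV hB
  have hZ := h p F hp hF hIm hs c hc L
  have hcg : BKS.Congr V V := by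
    intro g i
    rw [sub_self, norm_zero]
    exact one_pos
  refine ⟨(hZ n n V V B B hV hV hB hB (Or.inl hcg)).1, fun κ _ l _ j g hl hg v => ⟨?_, ?_⟩⟩
  · intro hcr
    have h1 : BKS.CritZ p V (V0 F L) c := by
      rcases hcr with h2 | h2
      · refine Or.inr (Or.inl (hyper ?_))
        have h3 : (fun g => (BKS.mat V g).charpoly * (BKS.mat (V0 F L) g).charpoly) =
            fun g => (BKS.mat V g).charpoly := by
          funext g
          have h4 : (BKS.mat (V0 F L) g).charpoly = 1 := by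
            unfold Matrix.charpoly
            rw [Matrix.det_isEmpty]
          rw [h4, mul_one]
        rw [h3]
        exact h2
      · exact Or.inr (Or.inr ⟨rfl, h2⟩)
    have h2 := (hZ n 0 V (V0 F L) B 0 hV isRepU hB (isPol c) h1).2.2 κ l j g hl
      (covers rfl hl) hg v
    have h3 : BKS.parN p V v j g % 2 = BKS.parN p (V0 F L) v j g % 2 := h2
    rw [h3, RZER.parN]
  · intro n' V' B' hV' hB' hl' hcr
    have h1 : BKS.CritZ p V V' c := by
      rcases hcr with h2 | h2
      · exact Or.inl h2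
      · exact Or.inr (Or.inl (hyper h2))
    exact (hZ n n' V V' B B' hV hV' hB hB' h1).2.2 κ l j g hl hl' hg v

end BKT
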