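import Pool.Agent.Lib.MP_7c08ba_nt.T1.Defs

set_option autoImplicit false

/-!
Parity for general residual representations, part A: the induction theorem of Artin for additive
functions on finite modules killed by `p`. Statements.
-/

noncomputable section

namespace BKT

open BKMet

/-- Module ARC: the formula of Artin: the constant function `|Γ|` is an integral combination of the
permutation characters of `Γ / C`, `C` cyclic. -/
def StArc : Prop :=
  ∀ (Γ : Type) [Group Γ] [Finite Γ], ∃ a : Subgroup Γ → ℤ, (∀ C, a C ≠ 0 → IsCyclic C) ∧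
    ∀ g : Γ, ∑ᶠ C : Subgroup Γ, a C * (Nat.card {x : Γ ⧸ C // g • x = x} : ℤ) = Nat.card Γ

/-- Module QIS: finite sets with an action of `Γ` and the same numbers of fixed points have
isomorphic permutation representations over `ℚ`. -/
def StQis : Prop :=
  ∀ (Γ : Type) [Group Γ] [Finite Γ] (X Y : Type) [MulAction Γ X] [MulAction Γ Y] [Finite X]
    [Finite Y], (∀ g : Γ, Nat.card {x : X // g • x = x} = Nat.card {y : Y // g • y = y}) →
    ∃ e : (X → ℚ) ≃ₗ[ℚ] (Y → ℚ), ∀ (g : Γ) (f : X → ℚ) (y : Y),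
      e (fun x => f (g⁻¹ • x)) y = e f (g⁻¹ • y)

/-- Module LAT (from QIS): additive functions take the same values on the modules of functions on
`X` and on `Y`. -/
def StLat : Prop :=
  ∀ (p : ℕ), p.Prime → ∀ (Γ : Type) [Group Γ] [Finite Γ]
    (f : ∀ (M : Type) [AddCommGroup M], (Γ →* AddMonoid.End M) → ℝ), AddF p Γ f →
    ∀ (X Y : Type) [MulAction Γ X] [MulAction Γ Y] [Finite X] [Finite Y],
    (∀ g : Γ, Nat.card {x : X // g • x = x} = Nat.card {y : Y // g • y = y}) →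
    ∀ (M : Type) [AddCommGroup M] [Finite M] (ρ : Γ →* AddMonoid.End M),
    (∀ m : M, p • m = 0) → f (X → M) (mapA X ρ) = f (Y → M) (mapA Y ρ)

/-- Module DEC (from LAT): an additive function in terms of the modules of functions on `Γ / C`. -/
def StDec : Prop :=
  ∀ (p : ℕ), p.Prime → ∀ (Γ : Type) [Group Γ] [Finite Γ]
    (f : ∀ (M : Type) [AddCommGroup M], (Γ →* AddMonoid.End M) → ℝ), AddF p Γ f →
    ∀ a : Subgroup Γ → ℤ,
    (∀ g : Γ, ∑ᶠ C : Subgroup Γ, a C * (Nat.card {x : Γ ⧸ C // g • x = x} : ℤ) = Nat.card Γ) →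
    ∀ (M : Type) [AddCommGroup M] [Finite M] (ρ : Γ →* AddMonoid.End M),
    (∀ m : M, p • m = 0) →
    (Nat.card Γ : ℝ) * f M ρ = ∑ᶠ C : Subgroup Γ, (a C : ℝ) * f (Γ ⧸ C → M) (mapA (Γ ⧸ C) ρ)

/-- Module INM: induction is exact; functions on `Γ / C` are induced. -/
def StInm : Prop :=
  ∀ (p : ℕ), p.Prime → ∀ (Γ : Type) [Group Γ] [Finite Γ]
    (f : ∀ (M : Type) [AddCommGroup M], (Γ →* AddMonoid.End M) → ℝ), AddF p Γ f →
    ∀ C : Subgroup Γ,
    AddF p C (fun (N : Type) [AddCommGroup N] (σ : C →* AddMonoid.End N) =>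
      f (IndM C σ) (indM C σ)) ∧
    ∀ (M : Type) [AddCommGroup M] [Finite M] (ρ : Γ →* AddMonoid.End M), (∀ m : M, p • m = 0) →
      f (Γ ⧸ C → M) (mapA (Γ ⧸ C) ρ) =
        f (IndM C (ρ.comp C.subtype)) (indM C (ρ.comp C.subtype))

/-- Module CYC: additive functions on the modules of a cyclic group. -/
def StCyc : Prop :=
  ∀ (p : ℕ) [Fact p.Prime] (C : Type) [Group C] [Finite C], IsCyclic C →
    ∀ (f : ∀ (M : Type) [AddCommGroup M], (C →* AddMonoid.End M) → ℝ), AddF p C f →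
    (∀ (k : Type) [Field k] [Finite k] [Algebra (ZMod p) k] (ψ : C →* kˣ), f k (kch ψ) = 0) →
    ∀ (M : Type) [AddCommGroup M] [Finite M] (ρ : C →* AddMonoid.End M), (∀ m : M, p • m = 0) →
      f M ρ = 0

/-- Module ART (from ARC, DEC, INM, CYC): **the induction theorem**. -/
def StArt : Prop :=
  ∀ (p : ℕ) [Fact p.Prime] (Γ : Type) [Group Γ] [Finite Γ]
    (f : ∀ (M : Type) [AddCommGroup M], (Γ →* AddMonoid.End M) → ℝ), AddF p Γ f →
    (∀ C : Subgroup Γ, IsCyclic C → ∀ (k : Type) [Field k] [Finite k] [Algebra (ZMod p) k]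
      (ψ : C →* kˣ), f (IndM C (kch ψ)) (indM C (kch ψ)) = 0) →
    ∀ (M : Type) [AddCommGroup M] [Finite M] (ρ : Γ →* AddMonoid.End M), (∀ m : M, p • m = 0) →
      f M ρ = 0

end BKT
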