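import Pool.Agent.Lib.MP_7c08ba_nt.T1.StF
import Pool.Agent.Lib.MP_7c08ba_nt.BK.ClsT
import Pool.Agent.Lib.MP_7c08ba_nt.BK.Tr

set_option autoImplicit false

/-!
Parity for general residual representations, part H: the theorem in terms of the definitions of
`BK/Sel.lean` and `BK/ClsT.lean`. Statements.
-/

noncomputable section

namespace BKT

open NumberField BKGen BKMet
open Matrix

/-- Module PARW2 (from PART, SUMH, SUMT; as PARW, without SUMM): parity and direct sums. -/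
def StParW2 : Prop :=
  ∀ (p : ℕ) [Fact p.Prime], p ≠ 2 → ∀ (F : Type) [Field F] [NumberField F],
    Module.finrank ℚ F = 2 → IsEmpty (F →+* ℝ) → Splits F p →
    ∀ (c : AlgebraicClosure F ≃+* AlgebraicClosure F) (σ : F ≃+* F) (hcs : BKOdd.ConjHyp c σ)
    (L : Type) [NormedField L] [NormedAlgebra ℚ_[p] L] [FiniteDimensional ℚ_[p] L] (n n' : ℕ)
    (V : GF F →* GL (Fin n) L) (V' : GF F →* GL (Fin n') L) (B : GL (Fin n) L)
    (B' : GL (Fin n') L), Hyp p c hcs V B → Hyp p c hcs V' B' →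
    ∀ (S : GL (Fin (n + n')) L) (ρ : GF F →* GL (Fin (n + n')) (OO p L))
    (B₀ : Matrix (Fin (n + n')) (Fin (n + n')) (OO p L))
    (N : Submodule (OO p L) (Fin (n + n') → OO p L)),
    Metab (dsum V V') (blkG B (-B')) S ρ B₀ N →
    FiniteDimensional L (BKOdd.H1f p V) ∧ FiniteDimensional L (BKOdd.H1f p V') ∧
    ∀ j : AlgebraicClosure F →+* PadicAlgCl p,
      (Module.finrank L (BKOdd.H1f p V) + BKOdd.tdim j V) % 2 =
        (Module.finrank L (BKOdd.H1f p V') + BKOdd.tdim j V') % 2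

/-- Module LATM: a bounded open subgroup of `Lⁿ` stable under the ring of integers has a basis. -/
def StLatM : Prop :=
  ∀ (p : ℕ) [Fact p.Prime] (L : Type) [NormedField L] [NormedAlgebra ℚ_[p] L]
    [FiniteDimensional ℚ_[p] L] (n : ℕ) (T : Set (Fin n → L)), (0 : Fin n → L) ∈ T →
    (∀ x ∈ T, ∀ y ∈ T, x + y ∈ T) → (∀ a : L, ‖a‖ ≤ 1 → ∀ x ∈ T, a • x ∈ T) →
    (∃ C : ℝ, ∀ x ∈ T, ‖x‖ ≤ C) → (∃ ε : ℝ, 0 < ε ∧ ∀ x : Fin n → L, ‖x‖ ≤ ε → x ∈ T) →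
    ∃ A : GL (Fin n) L, (∀ x, x ∈ T ↔ ∀ i, ‖((A : Matrix (Fin n) (Fin n) L) *ᵥ x) i‖ ≤ 1) ∧
      ∀ (G : Type) [Group G] (V : G →* GL (Fin n) L),
      (∀ g, ∀ x ∈ T, (V g : Matrix (Fin n) (Fin n) L) *ᵥ x ∈ T) →
      ∃ ρ : G →* GL (Fin n) (OO p L), ∀ g, toL p L n (ρ g) = A * V g * A⁻¹

/-- Module MTB (from LATM): a self-dual lattice with a Lagrangian lattice, given by sets, gives the
metabolic data. -/
def StMtb : Prop :=
  ∀ (p : ℕ) [Fact p.Prime] (L : Type) [NormedField L] [NormedAlgebra ℚ_[p] L]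
    [FiniteDimensional ℚ_[p] L] (G : Type) [Group G] (n : ℕ) (V : G →* GL (Fin n) L)
    (B : GL (Fin n) L), (B : Matrix (Fin n) (Fin n) L)ᵀ = B → ∀ T N : Set (Fin n → L),
    (∃ C : ℝ, ∀ x ∈ T, ‖x‖ ≤ C) →
    (∀ g, ∀ x ∈ T, (V g : Matrix (Fin n) (Fin n) L) *ᵥ x ∈ T) →
    (∀ g, ∀ x ∈ N, (V g : Matrix (Fin n) (Fin n) L) *ᵥ x ∈ N) →
    (∀ y, y ∈ T ↔ ∀ x ∈ T, ‖x ⬝ᵥ ((B : Matrix (Fin n) (Fin n) L) *ᵥ y)‖ ≤ 1) →
    (∀ y, y ∈ N ↔ y ∈ T ∧ ∀ x ∈ N, ‖x ⬝ᵥ ((B : Matrix (Fin n) (Fin n) L) *ᵥ y)‖ < 1) →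
    ∃ (S : GL (Fin n) L) (ρ : G →* GL (Fin n) (OO p L))
      (B₀ : Matrix (Fin n) (Fin n) (OO p L)) (N₁ : Submodule (OO p L) (Fin n → OO p L)),
      Metab V B S ρ B₀ N₁

/-- Module WEQ (from MTB): equivalence in the Witt group gives the metabolic data of the direct
sum. -/
def StWeq : Prop :=
  ∀ (p : ℕ) [Fact p.Prime] (F : Type) [Field F] (L : Type) [NormedField L] [NormedAlgebra ℚ_[p] L]
    [FiniteDimensional ℚ_[p] L] (n n' : ℕ) (V : GF F →* GL (Fin n) L)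
    (V' : GF F →* GL (Fin n') L) (B : GL (Fin n) L) (B' : GL (Fin n') L),
    (B : Matrix (Fin n) (Fin n) L)ᵀ = B → (B' : Matrix (Fin n') (Fin n') L)ᵀ = B' →
    BKS.WittEq V (B : Matrix (Fin n) (Fin n) L) V' (B' : Matrix (Fin n') (Fin n') L) →
    ∃ (S : GL (Fin (n + n')) L) (ρ : GF F →* GL (Fin (n + n')) (OO p L))
      (B₀ : Matrix (Fin (n + n')) (Fin (n + n')) (OO p L))
      (N : Submodule (OO p L) (Fin (n + n') → OO p L)),
      Metab (dsum V V') (blkG B (-B')) S ρ B₀ N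

/-- Module NFM (from LATM): the condition `NoForm` gives the condition of PARH. -/
def StNfm : Prop :=
  ∀ (p : ℕ) [Fact p.Prime] (F : Type) [Field F] [NumberField F], Module.finrank ℚ F = 2 →
    ∀ (c : AlgebraicClosure F ≃+* AlgebraicClosure F) (σ : F ≃+* F) (hcs : BKOdd.ConjHyp c σ)
    (L : Type) [NormedField L] [NormedAlgebra ℚ_[p] L] [FiniteDimensional ℚ_[p] L] (n : ℕ)
    (V : GF F →* GL (Fin n) L), BKS.NoForm p V c →
    ∃ (A : GL (Fin n) L) (ρ : GF F →* GL (Fin n) (OO p L)),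
    (∀ g, toL p L n (ρ g) = A * V g * A⁻¹) ∧
    ∀ P Q : Submodule (OO p L) (Fin n → OO p L), (∀ x : Fin n → OO p L, pi0 p L • x ∈ P) →
      Smp ρ P Q → ((∃ (l : ℕ) (_ : Fact l.Prime), Ramd F l ∧ l ≠ p ∧
        ∀ (j : AlgebraicClosure F →+* PadicAlgCl l), ∀ g ∈ Inert F (AlgebraicClosure F) j,
          ∃ m : ℕ, Odd m ∧ V g ^ m = 1) → ∃ d : ℕ, Even d ∧
        P.toAddSubgroup.relIndex Q.toAddSubgroup = Nat.card (kk p L) ^ d) →
      ∀ f, ¬ SymF ρ (BKOdd.conj c σ hcs.h) (cycF p F) P Q f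

/-- Module PTF (from PARH, PARW2, WEQ, NFM): **the theorem.** -/
def StPtf : Prop :=
  ∀ (p : ℕ) [Fact p.Prime] (F : Type) [Field F] [NumberField F], p ≠ 2 →
    Module.finrank ℚ F = 2 → IsEmpty (F →+* ℝ) → BKS.Split p F → BKS.ParityT p F

end BKT
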