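import Pool.Agent.Lib.MP_7c08ba_nt.T1.StA

set_option autoImplicit false

/-!
Parity for general residual representations, local part: local duality and the local Euler
characteristic for all finite modules. Statements.
-/

noncomputable section

namespace BKT

open BKPar (Loc1 Loc2)
open BKND (Sm)
open BKMet
open BKOdd (chm)

/-! ### Open subgroups of the Galois group of `ℚ_l` -/

/-- Module LSPV (as LSP): the multiplicative group of a finite Galois extension `E` of a finite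
extension of `ℚ_p` (`E` is the field fixed by `H`, and the base is the field fixed by `V`). -/
def StLspV : Prop :=
  ∀ (p : ℕ) [Fact p.Prime] (V H : Subgroup (GQ p)), IsOpen (V : Set (GQ p)) →
    IsOpen (H : Set (GQ p)) → H ≤ V → (∀ v ∈ V, ∀ h ∈ H, v * h * v⁻¹ ∈ H) →
    ∃ U : Subgroup (PadicAlgCl p)ˣ,
      (∀ v ∈ U, (∀ h ∈ H, h (v : PadicAlgCl p) = v) ∧ ‖(v : PadicAlgCl p)‖ = 1) ∧
      (∀ v ∈ U, ∀ g ∈ V, ∀ w : (PadicAlgCl p)ˣ, (w : PadicAlgCl p) = g v → w ∈ U) ∧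
      (∃ S : Set (PadicAlgCl p)ˣ, S.Finite ∧ ∀ x : (PadicAlgCl p)ˣ,
        (∀ h ∈ H, h (x : PadicAlgCl p) = x) → ∃ s ∈ S, ∃ v ∈ U, ∃ m : ℤ,
        (x : PadicAlgCl p) = s * v * (p : PadicAlgCl p) ^ m) ∧
      (∀ v ∈ U, v ^ p = 1 → v = 1) ∧
      ∃ φ : (PadicAlgCl p)ˣ → (V ⧸ H.subgroupOf V → Fin V.index → ZMod p),
        (∀ v ∈ U, ∀ w ∈ U, φ (v * w) = φ v + φ w) ∧
        (∀ f, ∃ v ∈ U, φ v = f) ∧ (∀ v ∈ U, φ v = 0 ↔ ∃ w ∈ U, w ^ p = v) ∧
        ∀ v ∈ U, ∀ (g : V) (w : (PadicAlgCl p)ˣ), (w : PadicAlgCl p) = (g : GQ p) v →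
          ∀ τ : V ⧸ H.subgroupOf V, φ w τ = φ v (g⁻¹ • τ)

/-- Module N3V (from KH, EIG, FREE, LST, LSPV; as N3): the order of `H¹(V, N)`. -/
def StN3V : Prop :=
  ∀ (p l : ℕ) [Fact p.Prime] [Fact l.Prime], p ≠ 2 → ∀ V : Subgroup (GQ l),
    IsOpen (V : Set (GQ l)) →
    ∀ (N N' : Type) [AddCommGroup N] [AddCommGroup N'] [Finite N] [Finite N']
    (ρ : V →* AddMonoid.End N) (ρ' : V →* AddMonoid.End N') (b : N →+ N' →+ QZ p),
    (∀ n : N, p • n = 0) → (∀ n : N', p • n = 0) → BKLoc2.Tame p ρ → BKLoc2.Tame p ρ' →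
    BKLoc2.Pair ((cycL p l).comp V.subtype) ρ ρ' b →
    (BKND.B1 ρ).relIndex (BKND.Z1 ρ) =
      Nat.card (BKND.H0 ρ) * Nat.card (BKND.H0 ρ') * (if l = p then Nat.card N ^ V.index else 1)

/-- Module CRV (from LNX, TRM, PA): the transfer from a subgroup of index prime to `p` is injective
on `H²`. -/
def StCrV : Prop :=
  ∀ (p l : ℕ) [Fact p.Prime] [Fact l.Prime], p ≠ 2 → ∀ V : Subgroup (GQ l),
    IsOpen (V : Set (GQ l)) → ¬ p ∣ V.index →
    ∀ z ∈ BKND.Z2 (actA ((cycL p l).comp V.subtype)),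
    BKLoc2.corM2 V (actA (cycL p l)) z ∈ BKND.B2 (actA (cycL p l)) →
    z ∈ BKND.B2 (actA ((cycL p l).comp V.subtype))

/-- Module N4V (from CRV, TRM; as N4): `H²(N) × H⁰(N')` for a subgroup `V` of index prime to
`p`. -/
def StN4V : Prop :=
  ∀ (p l : ℕ) [Fact p.Prime] [Fact l.Prime], p ≠ 2 → ∀ V : Subgroup (GQ l),
    IsOpen (V : Set (GQ l)) → ¬ p ∣ V.index →
    ∀ (N N' : Type) [AddCommGroup N] [AddCommGroup N'] [Finite N] [Finite N']
    (ρ : V →* AddMonoid.End N) (ρ' : V →* AddMonoid.End N') (b : N →+ N' →+ QZ p),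
    (∀ n : N, p • n = 0) → (∀ n : N', p • n = 0) → BKLoc2.Tame p ρ → BKLoc2.Tame p ρ' →
    BKLoc2.Pair ((cycL p l).comp V.subtype) ρ ρ' b →
    ∀ α ∈ BKND.Z2 ρ, (∀ n' ∈ BKND.H0 ρ', (fun g h => b (α g h) n') ∈
      BKND.B2 (actA ((cycL p l).comp V.subtype))) → α ∈ BKND.B2 ρ

/-- Module N5V (from CRV, TRM, CHT; as N5): `H¹(N) × H¹(N')` for a subgroup `V` of index prime to
`p`. -/
def StN5V : Prop :=
  ∀ (p l : ℕ) [Fact p.Prime] [Fact l.Prime], p ≠ 2 → ∀ V : Subgroup (GQ l),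
    IsOpen (V : Set (GQ l)) → ¬ p ∣ V.index →
    ∀ (N N' : Type) [AddCommGroup N] [AddCommGroup N'] [Finite N] [Finite N']
    (ρ : V →* AddMonoid.End N) (ρ' : V →* AddMonoid.End N') (b : N →+ N' →+ QZ p),
    (∀ n : N, p • n = 0) → (∀ n : N', p • n = 0) → BKLoc2.Tame p ρ → BKLoc2.Tame p ρ' →
    BKLoc2.Pair ((cycL p l).comp V.subtype) ρ ρ' b →
    ∀ x ∈ BKND.Z1 ρ, (∀ y ∈ BKND.Z1 ρ', (fun g h => b (x g) (ρ' g (y h))) ∈
      BKND.B2 (actA ((cycL p l).comp V.subtype))) → x ∈ BKND.B1 ρ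

/-- Module LOS (from N3V, CRV, N4V, N5V, TRM; as LOC): the local axioms for characters of open
subgroups. -/
def StLos : Prop :=
  ∀ (p l : ℕ) [Fact p.Prime] [Fact l.Prime], p ≠ 2 →
    ∀ inv : (GQ l → GQ l → QZ p) →+ QZ p,
    (∀ z ∈ BKND.Z2 (actA (cycL p l)), inv z = 0 ↔ z ∈ BKND.B2 (actA (cycL p l))) →
    LocS p (cycL p l) inv (if l = p then 1 else 0)

/-! ### Abstract modules -/

/-- Module SYG: the preimage of a Sylow subgroup. -/
def StSyg : Prop :=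
  ∀ (p : ℕ) [Fact p.Prime] (G : Type) [Group G] [TopologicalSpace G] [IsTopologicalGroup G]
    [CompactSpace G] (U : Subgroup G), U.Normal → IsOpen (U : Set G) →
    ∃ H : Subgroup G, U ≤ H ∧ IsOpen (H : Set G) ∧ ¬ p ∣ H.index ∧ ∀ h ∈ H, ∃ n : ℕ, h ^ p ^ n ∈ U

/-- Module LNZ: if `H` acts through a `p`-group then there are one dimensional subquotients with the
trivial action. -/
def StLnz : Prop :=
  ∀ (p : ℕ) [Fact p.Prime] (G : Type) [Group G] [TopologicalSpace G] (χ : G →* ℤ_[p]ˣ)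
    (M M' : Type) [AddCommGroup M] [AddCommGroup M'] [Finite M] (X : Pair ℤ (actA χ) M M')
    (H : Subgroup G), (∀ h ∈ H, PadicInt.toZMod ((χ h : ℤ_[p]ˣ) : ℤ_[p]) = 1) → PGr p X.ρ H →
    ∀ P Q : Submodule ℤ M, (∀ h ∈ H, ∀ x ∈ P, X.ρ h x ∈ P) → (∀ h ∈ H, ∀ x ∈ Q, X.ρ h x ∈ Q) →
    P < Q → ∃ N : Submodule ℤ M, P < N ∧ N ≤ Q ∧ ∃ (lam : ZMod p →+ QZ p) (φ : M → ZMod p)
      (φ' : M' → ZMod p), lam ≠ 0 ∧ IsLnA X H P N (ZMod p) 1 1 lam φ φ'

section Dual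

variable {p : ℕ} [Fact p.Prime] {G : Type*} [Group G]

/-- the action on the dual module `Hom(M, ℚ_p/ℤ_p(χ))` -/
def dualA (χ : G →* ℤ_[p]ˣ) {M : Type*} [AddCommGroup M] (ρ : G →* AddMonoid.End M) :
    G →* AddMonoid.End (M →+ QZ p) where
  toFun g :=
    { toFun := fun f => (actA χ g).comp (f.comp (ρ g⁻¹))
      map_zero' := by
        ext m
        change actA χ g 0 = 0
        exact map_zero _
      map_add' := fun f f' => by
        ext m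
        change actA χ g (f (ρ g⁻¹ m) + f' (ρ g⁻¹ m)) = _
        rw [map_add]
        rfl }
  map_one' := by
    ext f m
    change actA χ 1 (f (ρ (1 : G)⁻¹ m)) = f m
    rw [inv_one, map_one, map_one]
    rfl
  map_mul' g h := by
    ext f m
    change actA χ (g * h) (f (ρ (g * h)⁻¹ m)) = actA χ g (actA χ h (f (ρ h⁻¹ (ρ g⁻¹ m))))
    rw [mul_inv_rev, map_mul, map_mul]
    rfl

theorem dualA_apply (χ : G →* ℤ_[p]ˣ) {M : Type*} [AddCommGroup M] (ρ : G →* AddMonoid.End M)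
    (g : G) (f : M →+ QZ p) (m : M) : dualA χ ρ g f m = actA χ g (f (ρ g⁻¹ m)) := rfl

end Dual

/-- Module DUP: the dual module of a finite `p`-group with a smooth action: the canonical pair, and
every pair is isomorphic to the canonical one. -/
def StDup : Prop :=
  ∀ (p : ℕ) [Fact p.Prime] (G : Type) [Group G] [TopologicalSpace G] [IsTopologicalGroup G]
    [CompactSpace G] (χ : G →* ℤ_[p]ˣ), Continuous χ → ∀ (M : Type) [AddCommGroup M] [Finite M],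
    (∀ ρ : G →* AddMonoid.End M, Sm ρ → (∃ n : ℕ, ∀ m : M, p ^ n • m = 0) →
      ∃ X : Pair ℤ (actA χ) M (M →+ QZ p), X.ρ = ρ ∧ X.ρ' = dualA χ ρ ∧ ∀ m f, X.b m f = f m) ∧
    ∀ (M' : Type) [AddCommGroup M'] (X : Pair ℤ (actA χ) M M'),
      (∃ n : ℕ, ∀ m : M, p ^ n • m = 0) ∧
      ∃ e : M' ≃+ (M →+ QZ p), (∀ m m', e m' m = X.b m m') ∧
        ∀ g m', e (X.ρ' g m') = dualA χ X.ρ g (e m')

/-- the local duality theorem for all finite modules -/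
structure LocD (p : ℕ) [Fact p.Prime] {D : Type} [Group D] [TopologicalSpace D]
    (χ : D →* ℤ_[p]ˣ) (inv : (D → D → QZ p) →+ QZ p) : Prop where
  inv_eq : ∀ z ∈ BKND.Z2 (actA χ), inv z = 0 ↔ z ∈ BKND.B2 (actA χ)
  one : ∀ (M M' : Type) [AddCommGroup M] [AddCommGroup M'] [Finite M]
    (X : Pair ℤ (actA χ) M M'), ∀ f ∈ BKND.Z1 X.ρ,
    (∀ f' ∈ BKND.Z1 X.ρ', inv (cup11 X.b X.ρ' f f') = 0) → f ∈ BKND.B1 X.ρ
  two : ∀ (M M' : Type) [AddCommGroup M] [AddCommGroup M'] [Finite M]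
    (X : Pair ℤ (actA χ) M M'), ∀ z ∈ BKND.Z2 X.ρ,
    (∀ y ∈ BKND.H0 X.ρ', inv (cup20 X.b X.ρ' z y) = 0) → z ∈ BKND.B2 X.ρ

/-- Module LOT (from SYG, LNZ, TRM and LAB of `StL`): local duality for all finite modules. -/
def StLot : Prop :=
  ∀ (p : ℕ) [Fact p.Prime] (D : Type) [Group D] [TopologicalSpace D] [IsTopologicalGroup D]
    [CompactSpace D] [NonarchimedeanGroup D] (χ : D →* ℤ_[p]ˣ), Continuous χ →
    ∀ (inv : (D → D → QZ p) →+ QZ p) (δ : ℕ), LocS p χ inv δ → LocD p χ inv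

/-- Module LFN: the group of cocycles is finite. -/
def StLfn : Prop :=
  ∀ (p : ℕ) [Fact p.Prime] (D : Type) [Group D] [TopologicalSpace D] [IsTopologicalGroup D]
    [CompactSpace D] (χ : D →* ℤ_[p]ˣ), Continuous χ →
    ∀ (inv : (D → D → QZ p) →+ QZ p) (δ : ℕ), LocS p χ inv δ →
    ∀ (M : Type) [AddCommGroup M] [Finite M] (ρ : D →* AddMonoid.End M), Sm ρ →
    (∃ n : ℕ, ∀ m : M, p ^ n • m = 0) → Finite (BKND.Z1 ρ)

/-- the logarithm of the defect of the local Euler characteristic -/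
def FL {p : ℕ} [Fact p.Prime] {D : Type} [Group D] [TopologicalSpace D] (χ : D →* ℤ_[p]ˣ) (δ : ℕ)
    {M : Type} [AddCommGroup M] (ρ : D →* AddMonoid.End M) : ℝ :=
  Real.log (Nat.card (BKND.Z1 ρ)) - Real.log (Nat.card (BKND.H0 (dualA χ ρ))) -
    (1 + δ) * Real.log (Nat.card M)

/-- Module LAD (from DUAL, DUP): the local Euler characteristic is additive. -/
def StLad : Prop :=
  ∀ (p : ℕ) [Fact p.Prime] (D : Type) [Group D] [TopologicalSpace D] [IsTopologicalGroup D]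
    [CompactSpace D] (χ : D →* ℤ_[p]ˣ), Continuous χ → ∀ (inv : (D → D → QZ p) →+ QZ p),
    LocD p χ inv →
    (∀ (M : Type) [AddCommGroup M] [Finite M] (ρ : D →* AddMonoid.End M), Sm ρ →
      (∃ n : ℕ, ∀ m : M, p ^ n • m = 0) → Finite (BKND.Z1 ρ)) →
    ∀ (δ : ℕ) (M' M M'' : Type) [AddCommGroup M'] [AddCommGroup M] [AddCommGroup M''] [Finite M]
    (ρ' : D →* AddMonoid.End M') (ρ : D →* AddMonoid.End M) (ρ'' : D →* AddMonoid.End M'')
    (i : M' →+ M) (q : M →+ M''), Sm ρ → (∃ n : ℕ, ∀ m : M, p ^ n • m = 0) →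
    (∀ g x, i (ρ' g x) = ρ g (i x)) → (∀ g x, q (ρ g x) = ρ'' g (q x)) →
    Function.Injective i → Function.Surjective q → (∀ x, q x = 0 ↔ ∃ y, i y = x) →
    FL χ δ ρ = FL χ δ ρ' + FL χ δ ρ''

/-- Module LSH: cocycles with values in a module induced from a character. -/
def StLsh : Prop :=
  ∀ (G : Type) [Group G] [TopologicalSpace G] [IsTopologicalGroup G] [CompactSpace G]
    (A : Subgroup G), IsOpen (A : Set G) → ∀ (k : Type) [Field k] [Finite k] (ψ : A →* kˣ),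
    Sm (kch ψ) →
    Nat.card (IndM A (kch ψ)) = Nat.card k ^ A.index ∧ Sm (indM A (kch ψ)) ∧
    Nat.card (BKND.H0 (indM A (kch ψ))) = Nat.card (BKND.H0 (kch ψ)) ∧
    Nat.card (BKND.Z1 (indM A (kch ψ))) * Nat.card k =
      Nat.card (BKND.Z1 (kch ψ)) * Nat.card k ^ A.index

/-- Module PAI: the pair of the modules induced from `ψ` and `ψ'`. -/
def StPai : Prop :=
  ∀ (p : ℕ) [Fact p.Prime] (G : Type) [Group G] [TopologicalSpace G] [IsTopologicalGroup G]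
    [CompactSpace G] (χ : G →* ℤ_[p]ˣ), Continuous χ → ∀ A : Subgroup G, IsOpen (A : Set G) →
    ∀ (k : Type) [Field k] [Finite k] [Algebra (ZMod p) k] (ψ ψ' : A →* kˣ), Sm (kch ψ) →
    Sm (kch ψ') → Rel (χ.comp A.subtype) ψ ψ' → ∀ lam : k →+ QZ p, lam ≠ 0 →
    ∃ Y : Pair ℤ (actA χ) (IndM A (kch ψ)) (IndM A (kch ψ')), Y.ρ = indM A (kch ψ) ∧
      Y.ρ' = indM A (kch ψ') ∧ ∀ f f', Y.b f f' = ∑ᶠ q : G ⧸ A, actA χ q.out
        (lam ((f : G → k) q.out * (f' : G → k) q.out))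

/-- Module LCA (from ART, LAD, LSH, PAI, DUP, LFN): the local Euler characteristic. -/
def StLca : Prop :=
  ∀ (p : ℕ) [Fact p.Prime] (D : Type) [Group D] [TopologicalSpace D] [IsTopologicalGroup D]
    [CompactSpace D] [NonarchimedeanGroup D] (χ : D →* ℤ_[p]ˣ), Continuous χ →
    ∀ (inv : (D → D → QZ p) →+ QZ p) (δ : ℕ), LocS p χ inv δ → LocD p χ inv →
    ∀ (M : Type) [AddCommGroup M] [Finite M] (ρ : D →* AddMonoid.End M), Sm ρ →
    (∃ n : ℕ, ∀ m : M, p ^ n • m = 0) → FL χ δ ρ = 0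

/-- Module LOG (from LOS, LOT, LCA, LFN, DUP): **the local theorem.** -/
def StLog : Prop :=
  ∀ (p l : ℕ) [Fact p.Prime] [Fact l.Prime], p ≠ 2 →
    ∀ inv : (GQ l → GQ l → QZ p) →+ QZ p,
    (∀ z ∈ BKND.Z2 (actA (cycL p l)), inv z = 0 ↔ z ∈ BKND.B2 (actA (cycL p l))) →
    LocG p (cycL p l) inv (if l = p then 1 else 0)

end BKT
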