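import Pool.Agent.Lib.MP_7c08ba_nt.T1.StY

set_option autoImplicit false

/-!
Parity for general residual representations and arbitrary ramification at the primes which do not
split, part NP: the pairing of Cassels and Tate and a conjugation which may fix some of the places.
Definitions and statements.
-/

noncomputable section

namespace BKT

open BKPar (Loc1 Loc2)
open BKND (Sm)
open BKMet

/-! ### Definitions -/

section Defs

variable {R : Type} [CommRing R] {S : Type} {G : Type} [Group G] [TopologicalSpace G]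
  {D : S → Type} [∀ w, Group (D w)] {A : Type} [AddCommGroup A] {α : G →* AddMonoid.End A}
  {M M' : Type} [AddCommGroup M] [Module R M] [AddCommGroup M'] [Module R M']

open Classical in
/-- forget the elements at the places which are not in `T` -/
def rsz (T : Set S) : ((G → M) × (S → M)) →ₗ[R] ((G → M) × (S → M)) where
  toFun x := (x.1, fun w => if w ∈ T then x.2 w else 0)
  map_add' x y := by
    ext w
    · rfl
    · change (if w ∈ T then x.2 w + y.2 w else 0) =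
        (if w ∈ T then x.2 w else 0) + (if w ∈ T then y.2 w else 0)
      split_ifs
      · rfl
      · exact (add_zero 0).symm
  map_smul' a x := by
    ext w
    · rfl
    · change (if w ∈ T then a • x.2 w else 0) = a • (if w ∈ T then x.2 w else 0)
      split_ifs
      · rfl
      · exact (smul_zero a).symm

/-- the places whose conjugate is in `T` -/
def sT (σ : S → S) (T : Set S) : Set S := {w | σ w ∈ T}

open Classical in
/-- The conjugate of a relative cocycle: the restriction of `x.1 ∘ c` to the place `w` is the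
coboundary of `h w (x.2 (σ w)) - x.1 (h w)`. -/
def cjz (X : Pair R α M M') (c : G →* G) (σ : S → S) (h : S → G) (T : Set S)
    (x : (G → M) × (S → M)) : (G → M) × (S → M) :=
  (fun g => x.1 (c g), fun w => if σ w ∈ T then X.ρ (h w) (x.2 (σ w)) - x.1 (h w) else 0)

/-- the elements which are fixed by `D` modulo `N` -/
def fxp (X : Pair R α M M') {E : Type} [Group E] (r : E →* G) (N : Submodule R M) :
    Submodule R M where
  carrier := {m | ∀ d, X.ρ (r d) m - m ∈ N}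
  add_mem' := by
    intro m m' hm hm' d
    rw [map_add, add_sub_add_comm]
    exact N.add_mem (hm d) (hm' d)
  zero_mem' := fun d => by
    rw [map_zero, sub_zero]
    exact N.zero_mem
  smul_mem' := by
    intro a m hm d
    rw [X.lin, ← smul_sub]
    exact N.smul_mem a (hm d)

/-- the cocycles whose restrictions to the places in `W` are trivial modulo `N` -/
def ltr (X : Pair R α M M') (r : ∀ w, D w →* G) (W : Set S) (N : Submodule R M) :
    Submodule R ((G → M) × (S → M)) where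
  carrier := {x | ∀ w ∈ W, ∃ m : M, ∀ d, x.1 (r w d) - d0 X.ρ m (r w d) ∈ N}
  add_mem' := by
    intro x y hx hy w hw
    obtain ⟨m, hm⟩ := hx w hw
    obtain ⟨n, hn⟩ := hy w hw
    refine ⟨m + n, fun d => ?_⟩
    have e : (x + y).1 (r w d) - d0 X.ρ (m + n) (r w d) =
        x.1 (r w d) - d0 X.ρ m (r w d) + (y.1 (r w d) - d0 X.ρ n (r w d)) := by
      simp only [d0, Prod.fst_add, Pi.add_apply, map_add]
      abel
    rw [e]
    exact N.add_mem (hm d) (hn d)
  zero_mem' := fun w _ => ⟨0, fun d => by simp [d0]⟩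
  smul_mem' := by
    intro a x hx w hw
    obtain ⟨m, hm⟩ := hx w hw
    refine ⟨a • m, fun d => ?_⟩
    have e : (a • x).1 (r w d) - d0 X.ρ (a • m) (r w d) =
        a • (x.1 (r w d) - d0 X.ρ m (r w d)) := by
      simp only [d0, Prod.smul_fst, Pi.smul_apply, X.lin, smul_sub]
    rw [e]
    exact N.smul_mem a (hm d)

end Defs

/-- The conjugation `c` of `G` and the places: the conjugate of the map at the place `w` is the map
at the place `σ w`, composed with `τ w` and with the inner automorphism of `h w`. -/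
structure CjP {p : ℕ} [Fact p.Prime] {S : Type} [Fintype S] {G : Type} [Group G]
    [TopologicalSpace G] {D : S → Type} [∀ w, Group (D w)] [∀ w, TopologicalSpace (D w)]
    (Γ : Glo S G D (QZ p) (QZ p)) (c : G →* G) (σ : S → S) (τ : ∀ w, D w →* D (σ w))
    (h : S → G) : Prop where
  cont : Continuous c
  invol : ∀ g, c (c g) = g
  act : ∀ g, Γ.α (c g) = Γ.α g
  com : ∀ g g' a, Γ.α g (Γ.α g' a) = Γ.α g' (Γ.α g a)
  inv : ∀ w, σ (σ w) = w
  tcont : ∀ w, Continuous (τ w)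
  conj : ∀ w d, c (Γ.r w d) = h w * Γ.r (σ w) (τ w d) * (h w)⁻¹
  hh : ∀ w, ∃ s : D w, c (h w) * h (σ w) = (Γ.r w s)⁻¹
  anti : ∀ w, ∀ z ∈ BKND.Z2 (Γ.α.comp (Γ.r (σ w))),
    Γ.inv w (fun d d' => Γ.α (h w) (z (τ w d) (τ w d'))) = - Γ.inv (σ w) z

/-! ### The pairing and the conjugation -/

/-- Module ADJ: the pairing and the restriction of the set of conditions. -/
def StAdj : Prop :=
  ∀ (R : Type) [CommRing R] (S : Type) [Fintype S] (G : Type) [Group G] [TopologicalSpace G]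
    [IsTopologicalGroup G] [CompactSpace G] (D : S → Type) [∀ w, Group (D w)]
    [∀ w, TopologicalSpace (D w)] (A E : Type) [AddCommGroup A] [AddCommGroup E]
    (Γ : Glo S G D A E) (M M' : Type) [AddCommGroup M] [Module R M] [AddCommGroup M']
    [Module R M'] (X : Pair R Γ.α M M') (T T' : Set S), T ⊆ T' → ∀ N : Submodule R M,
    X.Stable N →
    (∀ x ∈ X.Zr Γ.r T' N ⊤, rsz (R := R) T x ∈ X.Zr Γ.r T N ⊤) ∧
    (∀ x ∈ X.Br T' N ⊤, rsz (R := R) T x ∈ X.Br T N ⊤) ∧
    ∀ x ∈ X.Zr Γ.r T' N ⊤, ∀ y ∈ X.flip.Zr Γ.r Tᶜ (X.perp N) ⊤,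
      CT Γ X T (rsz (R := R) T x) y = CT Γ X T' x (rsz (R := R) T'ᶜ y)

/-- Module CJZ: the conjugation of relative cocycles. -/
def StCjz : Prop :=
  ∀ (R : Type) [CommRing R] (p : ℕ) [Fact p.Prime] (S : Type) [Fintype S] (G : Type) [Group G]
    [TopologicalSpace G] [IsTopologicalGroup G] [CompactSpace G] (D : S → Type)
    [∀ w, Group (D w)] [∀ w, TopologicalSpace (D w)] (Γ : Glo S G D (QZ p) (QZ p)) (c : G →* G)
    (σ : S → S) (τ : ∀ w, D w →* D (σ w)) (h : S → G), CjP Γ c σ τ h →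
    ∀ (M M' : Type) [AddCommGroup M] [Module R M] [AddCommGroup M'] [Module R M']
    (X Y : Pair R Γ.α M M'), Y.ρ = X.ρ.comp c →
    (∀ (T : Set S) x x', cjz X c σ h T (x + x') = cjz X c σ h T x + cjz X c σ h T x') ∧
    (∀ (T : Set S) (a : R) x, cjz X c σ h T (a • x) = a • cjz X c σ h T x) ∧
    ∀ (T : Set S) (P Q : Submodule R M), X.Stable P → X.Stable Q → P ≤ Q →
      (∀ x ∈ X.Zr Γ.r T P Q, cjz X c σ h T x ∈ Y.Zr Γ.r (sT σ T) P Q) ∧
      (∀ x ∈ X.Br T P Q, cjz X c σ h T x ∈ Y.Br (sT σ T) P Q) ∧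
      (∀ x ∈ X.Zr Γ.r T P Q,
        cjz Y c σ h (sT σ T) (cjz X c σ h T x) - x ∈ X.Br T P Q) ∧
      (∀ x ∈ X.Zr Γ.r T P Q, cjz X c σ h T x ∈ Y.Br (sT σ T) P Q → x ∈ X.Br T P Q) ∧
      (∀ y ∈ Y.Zr Γ.r (sT σ T) P Q, ∃ x ∈ X.Zr Γ.r T P Q,
        cjz X c σ h T x - y ∈ Y.Br (sT σ T) P Q) ∧
      hT Γ X T P Q = hT Γ Y (sT σ T) P Q

/-- Module CNP: the conjugate of the pairing is, up to the sign, the pairing for another trace. The
function `tr'` is the opposite of `tr` composed with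
`(a, β) ↦ (a ∘ c, h w (β (σ w) ∘ τ w + (H a) ∘ r (σ w) ∘ τ w))`, where
`H a (x, y) = a (γ, γ⁻¹ x γ, γ⁻¹ y γ) - a (x, γ, γ⁻¹ y γ) + a (x, y, γ)` and `γ = (h w)⁻¹`. -/
def StCnp : Prop :=
  ∀ (p : ℕ) [Fact p.Prime] (S : Type) [Fintype S] (G : Type) [Group G] [TopologicalSpace G]
    [IsTopologicalGroup G] [CompactSpace G] (D : S → Type) [∀ w, Group (D w)]
    [∀ w, TopologicalSpace (D w)] [∀ w, IsTopologicalGroup (D w)]
    (Γ : Glo S G D (QZ p) (QZ p)) (c : G →* G) (σ : S → S)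
    (τ : ∀ w, D w →* D (σ w)) (h : S → G), CjP Γ c σ τ h →
    ∃ tr' : ((G → G → G → QZ p) × (∀ w, D w → D w → QZ p)) →+ QZ p,
      (∀ ε : G → G → QZ p, Loc2 ε → ∀ β : ∀ w, D w → D w → QZ p,
        (∀ w, β w - pb2 (Γ.r w) ε ∈ BKND.Z2 (Γ.α.comp (Γ.r w))) →
          tr' (d2 Γ.α ε, β) = ∑ w, Γ.inv w (β w - pb2 (Γ.r w) ε)) ∧
      ∀ (R : Type) [CommRing R] (M M' : Type) [AddCommGroup M] [Module R M] [AddCommGroup M']
        [Module R M'] (X Y : Pair R Γ.α M M'), Y.ρ = X.ρ.comp c → Y.ρ' = X.ρ'.comp c →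
        (∀ m m', Y.b m m' = X.b m m') → ∀ (T : Set S) (N : Submodule R M), X.Stable N →
        ∀ x ∈ X.Zr Γ.r T N ⊤, ∀ y ∈ X.flip.Zr Γ.r Tᶜ (X.perp N) ⊤,
        tr' (Xi Γ X T x y) =
          - CT Γ Y (sT σ T) (cjz X c σ h T x) (cjz X.flip c σ h Tᶜ y)

/-- Module ALN (from ADJ, CJZ, CNP, SWAP, CT, YR, ALT): the classes of `H¹_{T'}(M / N)`, where `T'`
consists of the places whose conjugates are not in `T`, whose images in `H¹_T(M / N)` come
from `H¹_T(M)`: the index is an even power. -/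
def StAln : Prop :=
  ∀ (R : Type) [CommRing R] [IsLocalRing R] [Finite (IsLocalRing.ResidueField R)]
    (p : ℕ) [Fact p.Prime], p ≠ 2 → ∀ (_ : Algebra (ZMod p) (IsLocalRing.ResidueField R))
    (S : Type) [Fintype S] (G : Type) [Group G]
    [TopologicalSpace G] [IsTopologicalGroup G] [CompactSpace G] (D : S → Type)
    [∀ w, Group (D w)] [∀ w, TopologicalSpace (D w)] [∀ w, IsTopologicalGroup (D w)]
    [∀ w, CompactSpace (D w)] (Γ : Glo S G D (QZ p) (QZ p)) (c : G →* G) (σ : S → S)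
    (τ : ∀ w, D w →* D (σ w)) (h : S → G), CjP Γ c σ τ h →
    ∀ (χ : G →* ℤ_[p]ˣ) (δ : S → ℕ) (U : Subgroup G), SitY p Γ χ δ U →
    ∀ T : Set S, T.Nonempty → (∀ w ∈ T, σ w ∉ T) →
    ∀ (M : Type) [AddCommGroup M] [Module R M] [Finite M] (X : Pair R Γ.α M M),
    X.ρ' = X.ρ.comp c → (∀ m m', X.b m m' = X.b m' m) → PGr p X.ρ U →
    ∀ N : Submodule R M, X.Stable N → X.perp N = N →
    ∃ m : ℕ, (((X.Zr Γ.r T ⊥ ⊤ ⊔ X.Br T N ⊤).comap (rsz T)) ⊓
        X.Zr Γ.r (sT σ T)ᶜ N ⊤).toAddSubgroup.relIndex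
        (X.Zr Γ.r (sT σ T)ᶜ N ⊤).toAddSubgroup =
      Nat.card (IsLocalRing.ResidueField R) ^ (2 * m)

/-- Module KRN: the kernel of the map from `H¹_{T'}(M / N)` to `H¹_T(M / N)`. -/
def StKrn : Prop :=
  ∀ (R : Type) [CommRing R] (S : Type) [Fintype S] (G : Type) [Group G] [TopologicalSpace G]
    [IsTopologicalGroup G] [CompactSpace G] (D : S → Type) [∀ w, Group (D w)]
    (r : ∀ w, D w →* G) (A : Type) [AddCommGroup A] (α : G →* AddMonoid.End A) (M M' : Type)
    [AddCommGroup M] [Module R M] [AddCommGroup M'] [Module R M'] [Finite M]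
    (X : Pair R α M M') (T T' : Set S), T.Nonempty → T ⊆ T' → ∀ N : Submodule R M,
    X.Stable N →
    (X.Br T' N ⊤).toAddSubgroup.relIndex
        (((X.Br T N ⊤).comap (rsz T)) ⊓ X.Zr r T' N ⊤).toAddSubgroup =
      ∏ w, (open Classical in if w ∈ T' ∧ w ∉ T then
        N.toAddSubgroup.relIndex (fxp X (r w) N).toAddSubgroup else 1)

/-- Module SDN (from ALN, KRN, ADJ, CJZ, EXACT, PERP, YR): **the parity formula for finite
modules.** -/
def StSdn : Prop :=
  ∀ (R : Type) [CommRing R] [IsLocalRing R] [Finite (IsLocalRing.ResidueField R)]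
    (p : ℕ) [Fact p.Prime], p ≠ 2 → ∀ (_ : Algebra (ZMod p) (IsLocalRing.ResidueField R))
    (S : Type) [Fintype S] (G : Type) [Group G]
    [TopologicalSpace G] [IsTopologicalGroup G] [CompactSpace G] (D : S → Type)
    [∀ w, Group (D w)] [∀ w, TopologicalSpace (D w)] [∀ w, IsTopologicalGroup (D w)]
    [∀ w, CompactSpace (D w)] (Γ : Glo S G D (QZ p) (QZ p)) (c : G →* G) (σ : S → S)
    (τ : ∀ w, D w →* D (σ w)) (h : S → G), CjP Γ c σ τ h →
    ∀ (χ : G →* ℤ_[p]ˣ) (δ : S → ℕ) (U : Subgroup G), SitY p Γ χ δ U →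
    ∀ T : Set S, T.Nonempty → (∀ w ∈ T, σ w ∉ T) →
    (∑ w, open Classical in if w ∈ T then δ w else 0) = 1 →
    ∀ (M : Type) [AddCommGroup M] [Module R M] [Finite M] (X : Pair R Γ.α M M),
    X.ρ' = X.ρ.comp c → (∀ m m', X.b m m' = X.b m' m) → PGr p X.ρ U →
    ∀ N : Submodule R M, X.Stable N → X.perp N = N →
    ∃ m : ℕ, hT Γ X T ⊥ ⊤ *
        (∏ w, (open Classical in if w ∉ T ∧ σ w ∉ T then
          N.toAddSubgroup.relIndex (fxp X (Γ.r w) N).toAddSubgroup else 1)) *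
        ((ltr X Γ.r {w | w ∉ T ∧ σ w ∉ T} N) ⊓ X.Zr Γ.r T ⊥ ⊤).toAddSubgroup.relIndex
          (X.Zr Γ.r T ⊥ ⊤).toAddSubgroup =
      Nat.card (IsLocalRing.ResidueField R) ^ (2 * m)

end BKT
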