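import Pool.Agent.Lib.MP_7c08ba_nt.T1.StZ
import Pool.Agent.Lib.MP_7c08ba_nt.BK.ClsZ

set_option autoImplicit false

/-!
The parity theorem with an explicit formula for the local terms at the primes which do not split:
definitions and statements.
-/

noncomputable section

namespace BKT

open NumberField BKGen BKMet
open BKGlob2 (CC0)
open Matrix

/-! ### The tame character -/

section Tame

variable {F : Type} [Field F] {l : ℕ} [Fact l.Prime]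

/-- the inertia group -/
abbrev Ine (j : AlgebraicClosure F →+* PadicAlgCl l) : Set (GF F) :=
  Inert F (AlgebraicClosure F) j

/-- `e` is, on the inertia group, the tame character with values in `ℤ_p`. -/
structure Tam (p : ℕ) [Fact p.Prime] (j : AlgebraicClosure F →+* PadicAlgCl l)
    (e : GF F → ℤ_[p]) : Prop where
  hom : ∀ i ∈ Ine j, ∀ i' ∈ Ine j, e (i * i') = e i + e i'
  one : ∃ t ∈ Ine j, e t = 1
  conj : ∀ g : AlgebraicClosure F ≃+* AlgebraicClosure F, (∀ x, ‖j (g x)‖ = ‖j x‖) →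
    ∀ i ∈ Ine j, ∀ i' ∈ Ine j, (∀ x, i' (g x) = g (i x)) →
    e i' = ((cyclotomicCharacter (AlgebraicClosure F) p g : ℤ_[p]ˣ) : ℤ_[p]) * e i
  cont : ∀ U : Subgroup (GF F), IsOpen (U : Set (GF F)) → U.Normal → ∃ M : ℕ, ∀ i ∈ Ine j,
    (p : ℤ_[p]) ^ M ∣ e i → ∃ c ∈ Ine j, e c = 0 ∧ c⁻¹ * i ∈ U
  prime : ∀ U : Subgroup (GF F), IsOpen (U : Set (GF F)) → U.Normal → ∀ c ∈ Ine j, e c = 0 →
    ∃ m : ℕ, ¬ p ∣ m ∧ c ^ m ∈ U

end Tame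

/-- Module TAM (from TI of `HStmts`): the tame character. Let `x_n` be a compatible system of
`p^n`-th roots of an element `ϖ` of `F` with `‖j ϖ‖ < 1` maximal and `ζ_n` a system of roots of
unity, then `i x_n = ζ_n^(e i) x_n`. -/
def StTam : Prop :=
  ∀ (p l : ℕ) [Fact p.Prime] [Fact l.Prime], l ≠ p → ∀ (F : Type) [Field F] [NumberField F]
    (j : AlgebraicClosure F →+* PadicAlgCl l), ∃ e : GF F → ℤ_[p], Tam p j e

/-- Module FRD: the decomposition group is generated by a Frobenius element and the inertia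
group. -/
def StFrd : Prop :=
  ∀ (l : ℕ) [Fact l.Prime] (F : Type) [Field F] [NumberField F]
    (j : AlgebraicClosure F →+* PadicAlgCl l) (φ : GF F), BKS.IsFrb j φ →
    φ ∈ Dec F (AlgebraicClosure F) j ∧
    ∀ U : Subgroup (GF F), IsOpen (U : Set (GF F)) → U.Normal →
    ∀ d ∈ Dec F (AlgebraicClosure F) j, ∃ k : ℕ, ∃ i ∈ Ine j, (φ ^ k * i)⁻¹ * d ∈ U

/-- Module ABD: the automorphisms of the residue field of the algebraic closure commute. -/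
def StAbd : Prop :=
  ∀ (l : ℕ) [Fact l.Prime] (F : Type) [Field F] [NumberField F]
    (j : AlgebraicClosure F →+* PadicAlgCl l) (g : AlgebraicClosure F ≃+* AlgebraicClosure F),
    (∀ x, ‖j (g x)‖ = ‖j x‖) → ∀ d ∈ Dec F (AlgebraicClosure F) j, ∀ d' : GF F,
    (∀ x, d' (g x) = g (d x)) → d' * d⁻¹ ∈ Ine j

/-- Module CVH (as CNJ): the conjugation at a place above a prime which does not split. -/
def StCvh : Prop :=
  ∀ (p : ℕ) [Fact p.Prime], p ≠ 2 → ∀ (F : Type) [Field F] [NumberField F],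
    Module.finrank ℚ F = 2 → IsEmpty (F →+* ℝ) →
    ∀ (c₀ : AlgebraicClosure F ≃+* AlgebraicClosure F) (cc : GF F →* GF F), CC0 c₀ cc →
    ∀ (l : ℕ) [Fact l.Prime], ¬ Splits F l → ∀ j : AlgebraicClosure F →+* PadicAlgCl l,
    ∃ (g : AlgebraicClosure F ≃+* AlgebraicClosure F) (h s : GF F),
      (∀ x, ‖j (g x)‖ = ‖j x‖) ∧ (∀ x, h (g x) = c₀ x) ∧ (∀ x, s x = g (g x)) ∧
      s ∈ Dec F (AlgebraicClosure F) j ∧ (∀ (d : GF F) x, (h⁻¹ * cc d * h) (g x) = g (d x)) ∧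
      cc h * h = s⁻¹ ∧ cycF p F h * cyclotomicCharacter (AlgebraicClosure F) p g = -1

/-! ### Local representations -/

section Abs

variable {p : ℕ} [Fact p.Prime] {D : Type} [Group D]

/-- A group `D` with a normal subgroup `I`, the cyclotomic character `χ`, the tame character `e` on
`I`, and a conjugation `σ` whose square is the inner automorphism of `s`; `t` is an element of `I`
with `e t = 1`. -/
structure TamG (p : ℕ) [Fact p.Prime] {D : Type} [Group D] (I : Subgroup D) (χ : D →* ℤ_[p]ˣ)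
    (e : D → ℤ_[p]) (σ : D →* D) (s t : D) (a : ℤ_[p]ˣ) : Prop where
  normal : ∀ d, ∀ i ∈ I, d * i * d⁻¹ ∈ I
  hom : ∀ i ∈ I, ∀ i' ∈ I, e (i * i') = e i + e i'
  conj : ∀ d, ∀ i ∈ I, e (d * i * d⁻¹) = (χ d : ℤ_[p]) * e i
  tI : t ∈ I
  te : e t = 1
  sI : ∀ i ∈ I, σ i ∈ I
  se : ∀ i ∈ I, (a : ℤ_[p]) * e (σ i) = - e i
  sq : ∀ d, σ (σ d) = s * d * s⁻¹
  chi : ∀ d, χ (σ d) = χ d
  sD : ∀ d, σ d * d⁻¹ ∈ I
  comm : ∀ d d', d * d' * d⁻¹ * d'⁻¹ ∈ I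

variable {L : Type} [NormedField L] [NormedAlgebra ℚ_[p] L] [FiniteDimensional ℚ_[p] L]
  {W : Type} [AddCommGroup W] [Module L W]

/-- `X` is a lattice in `W`. -/
structure LatW (X : Submodule (OO p L) W) : Prop where
  fg : X.FG
  span : ∀ x, ∃ m : ℕ, pi0 p L ^ m • x ∈ X

/-- `X` is a lattice in `W` which is stable under `D`, and the action on `W / X` is continuous. -/
structure LatD (I : Subgroup D) (e : D → ℤ_[p]) (φ : D) (ρ : D →* (W ≃ₗ[L] W))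
    (X : Submodule (OO p L) W) : Prop extends LatW X where
  stab : ∀ d, ∀ x ∈ X, ρ d x ∈ X
  actI : ∀ m : ℕ, ∃ M : ℕ, ∀ i ∈ I, (p : ℤ_[p]) ^ M ∣ e i → ∀ x ∈ X, ∃ y ∈ X,
    ρ i x = x + pi0 p L ^ m • y
  actD : ∀ (m : ℕ) (d : D), ∃ k : ℕ, ∃ i ∈ I, ∀ x ∈ X, ∃ y ∈ X,
    ρ d x = ρ (φ ^ k * i) x + pi0 p L ^ m • y

/-- The form `γ` on `W`: `⟨d x, σ(d) y⟩ = χ(d) ⟨x, y⟩` and `⟨x, y⟩ = a ⟨y, s x⟩`. -/
structure FrmD (χ : D →* ℤ_[p]ˣ) (σ : D →* D) (s : D) (a : ℤ_[p]ˣ) (ρ : D →* (W ≃ₗ[L] W))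
    (γ : W →ₗ[L] W →ₗ[L] L) : Prop where
  dual : ∀ d x y, γ (ρ d x) (ρ (σ d) y) = uL L (χ d) * γ x y
  symm : ∀ x y, γ x y = uL L a * γ y (ρ s x)

/-- the vectors which are fixed by `I` -/
def fixW (I : Subgroup D) (ρ : D →* (W ≃ₗ[L] W)) : Submodule L W where
  carrier := {x | ∀ i ∈ I, ρ i x = x}
  add_mem' := by
    intro x y hx hy i hi
    rw [map_add, hx i hi, hy i hi]
  zero_mem' := fun i _ => map_zero _
  smul_mem' := by
    intro b x hx i hi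
    rw [map_smul, hx i hi]

/-- the vectors which are fixed by the subgroup `I` modulo `X` -/
def modW (I : Subgroup D) (ρ : D →* (W ≃ₗ[L] W)) (X : Submodule (OO p L) W) :
    Submodule (OO p L) W where
  carrier := {x | ∀ i ∈ I, ρ i x - x ∈ X}
  add_mem' := by
    intro x y hx hy i hi
    have h : ρ i (x + y) - (x + y) = (ρ i x - x) + (ρ i y - y) := by
      rw [map_add]
      abel
    rw [h]
    exact X.add_mem (hx i hi) (hy i hi)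
  zero_mem' := fun i _ => by
    rw [map_zero, sub_zero]
    exact X.zero_mem
  smul_mem' := by
    intro b x hx i hi
    have h : ρ i (b • x) - b • x = b • (ρ i x - x) := by
      change ρ i ((b : L) • x) - (b : L) • x = (b : L) • (ρ i x - x)
      rw [map_smul, smul_sub]
    rw [h]
    exact X.smul_mem b (hx i hi)

/-- the lattice `X` and the vectors fixed by `I` -/
def addW (I : Subgroup D) (ρ : D →* (W ≃ₗ[L] W)) (X : Submodule (OO p L) W) :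
    Submodule (OO p L) W :=
  X ⊔ (fixW I ρ).restrictScalars (OO p L)

/-- the submodule `π X` -/
def piW (X : Submodule (OO p L) W) : Submodule (OO p L) W :=
  X.map (LinearMap.lsmul (OO p L) W (pi0 p L))

/-- The vectors `y` of `Q` with `(f - 1)^K y ∈ P` for some `K` are a module, and `m` is the length
of its quotient modulo `P`: the multiplicity of the eigenvalue one of `f` on `Q / P`. -/
def Mu (f : W →ₗ[L] W) (P Q : Submodule (OO p L) W) (m : ℕ) : Prop :=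
  P ≤ Q ∧ ∃ G : Submodule (OO p L) W,
    (∀ y, y ∈ G ↔ y ∈ Q ∧ ∃ K : ℕ, ((f - 1) ^ K) y ∈ P) ∧
    P.toAddSubgroup.relIndex G.toAddSubgroup = Nat.card (kk p L) ^ m

/-- `U₁` is the space of the vectors `x` of `U` with `(f - 1)^m x → 0`. -/
def IsGen (X : Submodule (OO p L) W) (f : W →ₗ[L] W) (U U₁ : Submodule L W) : Prop :=
  ∀ x, x ∈ U₁ ↔ x ∈ U ∧ ∀ k : ℕ, ∃ m₀ : ℕ, ∀ m ≥ m₀, ∃ y ∈ X, ((f - 1) ^ m) x = pi0 p L ^ k • y

end Abs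

/-- Module MUL (named MUW): the multiplicity is additive. -/
def StMuw : Prop :=
  ∀ (p : ℕ) [Fact p.Prime] (L : Type) [NormedField L] [NormedAlgebra ℚ_[p] L]
    [FiniteDimensional ℚ_[p] L] (W : Type) [AddCommGroup W] [Module L W] (f : W →ₗ[L] W)
    (P Q S : Submodule (OO p L) W), P ≤ Q → Q ≤ S →
    P.toAddSubgroup.relIndex S.toAddSubgroup ≠ 0 →
    (∀ x ∈ P, f x ∈ P) → (∀ x ∈ Q, f x ∈ Q) → (∀ x ∈ S, f x ∈ S) →
    (∃ m, Mu f P Q m) ∧ (∃ m, Mu f Q S m) ∧ (∀ m m', Mu f P Q m → Mu f P Q m' → m = m') ∧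
    ∀ m m', Mu f P Q m → Mu f Q S m' → Mu f P S (m + m')

/-- Module DUL (from MUW): the multiplicities for two dual modules, for a pairing
`⟨(t - 1) x, y⟩`. -/
def StDul : Prop :=
  ∀ (p : ℕ) [Fact p.Prime] (D : Type) [Group D] (I : Subgroup D) (χ : D →* ℤ_[p]ˣ)
    (e : D → ℤ_[p]) (σ : D →* D) (s t : D) (a : ℤ_[p]ˣ), TamG p I χ e σ s t a →
    ∀ (L : Type) [NormedField L] [NormedAlgebra ℚ_[p] L] [FiniteDimensional ℚ_[p] L]
    (W : Type) [AddCommGroup W] [Module L W] [FiniteDimensional L W] (ρ : D →* (W ≃ₗ[L] W))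
    (γ : W →ₗ[L] W →ₗ[L] L), FrmD χ σ s a ρ γ →
    ∀ (φ : D) (X : Submodule (OO p L) W), LatD I e φ ρ X →
    ∀ P Q P' Q' : Submodule (OO p L) W, P ≤ Q → P' ≤ Q' →
    P.toAddSubgroup.relIndex Q.toAddSubgroup ≠ 0 →
    P'.toAddSubgroup.relIndex Q'.toAddSubgroup ≠ 0 →
    (∀ d, ∀ x ∈ P, ρ d x ∈ P) → (∀ d, ∀ x ∈ Q, ρ d x ∈ Q) →
    (∀ d, ∀ x ∈ P', ρ d x ∈ P') → (∀ d, ∀ x ∈ Q', ρ d x ∈ Q') →
    (∃ r : ℕ, (∀ x ∈ X, pi0 p L ^ r • x ∈ P) ∧ (∀ x ∈ X, pi0 p L ^ r • x ∈ P') ∧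
      (∀ x ∈ Q, ∃ w ∈ fixW I ρ, pi0 p L ^ r • (x - w) ∈ X) ∧
      ∀ x ∈ Q', ∃ w ∈ fixW I ρ, pi0 p L ^ r • (x - w) ∈ X) →
    (∀ x ∈ Q, ∀ y ∈ Q', ‖γ (ρ t x - x) y‖ ≤ 1) →
    (∀ x ∈ Q, x ∈ P ↔ ∀ y ∈ Q', ‖γ (ρ t x - x) y‖ < 1) →
    (∀ y ∈ Q', y ∈ P' ↔ ∀ x ∈ Q, ‖γ (ρ t x - x) y‖ < 1) →
    ∀ m m', Mu (ρ φ : W →ₗ[L] W) P Q m → Mu (ρ φ : W →ₗ[L] W) P' Q' m' → m = m'

/-- Module SAT: duality of lattices and subspaces. -/
def StSat : Prop :=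
  ∀ (p : ℕ) [Fact p.Prime] (L : Type) [NormedField L] [NormedAlgebra ℚ_[p] L]
    [FiniteDimensional ℚ_[p] L] (W : Type) [AddCommGroup W] [Module L W] [FiniteDimensional L W]
    (γ : W →ₗ[L] W →ₗ[L] L) (X : Submodule (OO p L) W), LatW X →
    (∀ y, y ∈ X ↔ ∀ x ∈ X, ‖γ x y‖ ≤ 1) →
    ∀ (Z : Submodule L W) (z : W), (∀ x ∈ X, x ∈ Z → ‖γ x z‖ ≤ 1) →
    ∃ x₀ ∈ X, ∀ x ∈ Z, γ x (z - x₀) = 0

/-- Module CLB (from SAT, ALT, MUW): the parity of the length of the invariants of a Frobenius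
element. -/
def StClb : Prop :=
  ∀ (p : ℕ) [Fact p.Prime], p ≠ 2 → ∀ (D : Type) [Group D] (I : Subgroup D) (χ : D →* ℤ_[p]ˣ)
    (e : D → ℤ_[p]) (σ : D →* D) (s t : D) (a : ℤ_[p]ˣ), TamG p I χ e σ s t a →
    ∀ (L : Type) [NormedField L] [NormedAlgebra ℚ_[p] L] [FiniteDimensional ℚ_[p] L]
    (W : Type) [AddCommGroup W] [Module L W] [FiniteDimensional L W] (ρ : D →* (W ≃ₗ[L] W))
    (γ : W →ₗ[L] W →ₗ[L] L), FrmD χ σ s a ρ γ →
    ∀ (φ : D) (X : Submodule (OO p L) W), LatD I e φ ρ X →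
    (∀ y, y ∈ X ↔ ∀ x ∈ X, ‖γ x y‖ ≤ 1) →
    (addW I ρ X).toAddSubgroup.relIndex (modW I ρ X).toAddSubgroup ≠ 0 →
    ∀ A : Submodule (OO p L) W,
    (∀ y, y ∈ A ↔ y ∈ modW I ρ X ∧ ρ φ y - y ∈ addW I ρ X) →
    ∀ m, Mu (ρ φ : W →ₗ[L] W) (addW I ρ X) (modW I ρ X) m →
    ∃ k : ℕ, (addW I ρ X).toAddSubgroup.relIndex A.toAddSubgroup =
      Nat.card (kk p L) ^ k ∧ (m + k) % 2 = 0

/-- Module CLC (from MUW, DUL, SAT): the multiplicities for `T` and `N`. -/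
def StClc : Prop :=
  ∀ (p : ℕ) [Fact p.Prime] (D : Type) [Group D] (I : Subgroup D) (χ : D →* ℤ_[p]ˣ)
    (e : D → ℤ_[p]) (σ : D →* D) (s t : D) (a : ℤ_[p]ˣ), TamG p I χ e σ s t a →
    ∀ (L : Type) [NormedField L] [NormedAlgebra ℚ_[p] L] [FiniteDimensional ℚ_[p] L]
    (W : Type) [AddCommGroup W] [Module L W] [FiniteDimensional L W] (ρ : D →* (W ≃ₗ[L] W))
    (γ : W →ₗ[L] W →ₗ[L] L), FrmD χ σ s a ρ γ →
    ∀ (φ : D) (T N : Submodule (OO p L) W), LatD I e φ ρ T → LatD I e φ ρ N →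
    N ≤ T → (∀ x ∈ T, pi0 p L • x ∈ N) →
    (∀ y, y ∈ T ↔ ∀ x ∈ T, ‖γ x y‖ ≤ 1) → (∀ y, y ∈ N ↔ ∀ x ∈ N, ‖γ x y‖ < 1) →
    (addW I ρ T).toAddSubgroup.relIndex (modW I ρ T).toAddSubgroup ≠ 0 →
    (addW I ρ N).toAddSubgroup.relIndex (modW I ρ N).toAddSubgroup ≠ 0 →
    ∀ m₁ m₂ m₃, Mu (ρ φ : W →ₗ[L] W) (addW I ρ T) (modW I ρ T) m₁ →
    Mu (ρ φ : W →ₗ[L] W) (addW I ρ N) (modW I ρ N) m₂ →
    Mu (ρ φ : W →ₗ[L] W) (addW I ρ (piW T)) (addW I ρ T) m₃ → (m₁ + m₂ + m₃) % 2 = 0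

/-- Module CLA: the invariants modulo `X` of `D` and of a Frobenius element. -/
def StCla : Prop :=
  ∀ (p : ℕ) [Fact p.Prime] (D : Type) [Group D] (I : Subgroup D) (χ : D →* ℤ_[p]ˣ)
    (e : D → ℤ_[p]) (σ : D →* D) (s t : D) (a : ℤ_[p]ˣ), TamG p I χ e σ s t a →
    ∀ (L : Type) [NormedField L] [NormedAlgebra ℚ_[p] L] [FiniteDimensional ℚ_[p] L]
    (W : Type) [AddCommGroup W] [Module L W] [FiniteDimensional L W] (ρ : D →* (W ≃ₗ[L] W)),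
    (∀ x, (∀ d, ρ d x = x) → x = 0) →
    ∀ (φ : D) (T N : Submodule (OO p L) W), LatD I e φ ρ T → LatD I e φ ρ N → N ≤ T →
    ∃ k : ℕ, ∀ X : Submodule (OO p L) W, (X = T ∨ X = N) →
      (addW I ρ X).toAddSubgroup.relIndex (modW I ρ X).toAddSubgroup ≠ 0 ∧
      ∀ A : Submodule (OO p L) W,
      (∀ y, y ∈ A ↔ y ∈ modW I ρ X ∧ ρ φ y - y ∈ addW I ρ X) →
      X.toAddSubgroup.relIndex (modW ⊤ ρ X).toAddSubgroup =
        Nat.card (kk p L) ^ k * (addW I ρ X).toAddSubgroup.relIndex A.toAddSubgroup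

/-- Module FIT: the multiplicity for `X / π X` and the dimension of the generalized eigenspace. -/
def StFit : Prop :=
  ∀ (p : ℕ) [Fact p.Prime] (L : Type) [NormedField L] [NormedAlgebra ℚ_[p] L]
    [FiniteDimensional ℚ_[p] L] (W : Type) [AddCommGroup W] [Module L W] [FiniteDimensional L W]
    (f : W ≃ₗ[L] W) (X : Submodule (OO p L) W), LatW X → (∀ x ∈ X, f x ∈ X) →
    (∀ x ∈ X, f.symm x ∈ X) → ∀ U : Submodule L W, (∀ x ∈ U, f x ∈ U) →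
    ∀ U₁ U₂ : Submodule L W, IsGen X (f : W →ₗ[L] W) ⊤ U₁ → IsGen X (f : W →ₗ[L] W) U U₂ →
    Module.finrank L U₂ ≤ Module.finrank L U₁ ∧
    Mu (f : W →ₗ[L] W) (piW X ⊔ U.restrictScalars (OO p L)) (X ⊔ U.restrictScalars (OO p L))
      (Module.finrank L U₁ - Module.finrank L U₂)

/-- Module LTH (from CLA, CLB, CLC, MUW, FIT): **the local theorem** for representations on which
the kernel of the tame character acts trivially. -/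
def StLth : Prop :=
  ∀ (p : ℕ) [Fact p.Prime], p ≠ 2 → ∀ (D : Type) [Group D] (I : Subgroup D) (χ : D →* ℤ_[p]ˣ)
    (e : D → ℤ_[p]) (σ : D →* D) (s t : D) (a : ℤ_[p]ˣ), TamG p I χ e σ s t a →
    ∀ (L : Type) [NormedField L] [NormedAlgebra ℚ_[p] L] [FiniteDimensional ℚ_[p] L]
    (W : Type) [AddCommGroup W] [Module L W] [FiniteDimensional L W] (ρ : D →* (W ≃ₗ[L] W))
    (γ : W →ₗ[L] W →ₗ[L] L), FrmD χ σ s a ρ γ → (∀ x, (∀ d, ρ d x = x) → x = 0) →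
    ∀ (φ : D) (T N : Submodule (OO p L) W), LatD I e φ ρ T → LatD I e φ ρ N →
    N ≤ T → (∀ x ∈ T, pi0 p L • x ∈ N) →
    (∀ y, y ∈ T ↔ ∀ x ∈ T, ‖γ x y‖ ≤ 1) → (∀ y, y ∈ N ↔ ∀ x ∈ N, ‖γ x y‖ < 1) →
    ∀ U₁ U₂ : Submodule L W, IsGen T (ρ φ : W →ₗ[L] W) ⊤ U₁ →
    IsGen T (ρ φ : W →ₗ[L] W) (fixW I ρ) U₂ →
    ∃ k k' : ℕ, T.toAddSubgroup.relIndex (modW ⊤ ρ T).toAddSubgroup = Nat.card (kk p L) ^ k ∧
      N.toAddSubgroup.relIndex (modW ⊤ ρ N).toAddSubgroup = Nat.card (kk p L) ^ k' ∧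
      (k + k') % 2 = (Module.finrank L U₁ - Module.finrank L U₂) % 2

/-- Module PRJ: the projector on the invariants of a group which acts through a finite group of
order prime to `p`. -/
def StPrj : Prop :=
  ∀ (p : ℕ) [Fact p.Prime] (L : Type) [NormedField L] [NormedAlgebra ℚ_[p] L]
    [FiniteDimensional ℚ_[p] L] (W : Type) [AddCommGroup W] [Module L W] [FiniteDimensional L W]
    (C : Type) [Group C] (ρ : C →* (W ≃ₗ[L] W)) (X : Submodule (OO p L) W), LatW X →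
    (∀ c, ∀ x ∈ X, ρ c x ∈ X) →
    (∀ (m : ℕ) (c : C), ∃ r : ℕ, ¬ p ∣ r ∧ ∀ x ∈ X, ∃ y ∈ X, ρ (c ^ r) x = x + pi0 p L ^ m • y) →
    ∃ E : W →ₗ[L] W, (∀ c x, ρ c (E x) = E x) ∧ (∀ x, (∀ c, ρ c x = x) → E x = x) ∧
      (∀ Y : Submodule (OO p L) W, (∀ c, ∀ y ∈ Y, ρ c y ∈ Y) →
        (∀ y ∈ Y, E y ∈ Y) ∧ ∀ x, (∀ c, ρ c x - x ∈ Y) → x - E x ∈ Y) ∧
      (∀ g : W ≃ₗ[L] W, (∀ c, ∃ c', ∀ x, g (ρ c x) = ρ c' (g x)) → ∀ x, g (E x) = E (g x)) ∧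
      ∀ (γ : W →ₗ[L] W →ₗ[L] L) (τ : C ≃* C), (∀ c x y, γ (ρ c x) (ρ (τ c) y) = γ x y) →
        ∀ x y, γ (E x) y = γ x (E y)

/-- Module LOZ (from LTH, PRJ, TAM, FRD, ABD, CVH, LEN): **the local theorem.** -/
def StLoz : Prop :=
  ∀ (p : ℕ) [Fact p.Prime], p ≠ 2 → ∀ (F : Type) [Field F] [NumberField F],
    Module.finrank ℚ F = 2 → IsEmpty (F →+* ℝ) →
    ∀ (c : AlgebraicClosure F ≃+* AlgebraicClosure F), BKS.IsConj c →
    ∀ (L : Type) [NormedField L] [NormedAlgebra ℚ_[p] L] [FiniteDimensional ℚ_[p] L]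
    (W : Type) [NormedAddCommGroup W] [NormedSpace L W] [FiniteDimensional L W]
    (ρ : GF F →* (W ≃ₗ[L] W)), (∀ x, Continuous fun g => ρ g x) →
    ∀ γ : W →ₗ[L] W →ₗ[L] L, (∀ x y, γ x y = γ y x) →
    (∀ g g' : GF F, (∀ z, g' (c z) = c (g z)) →
      ∀ x y, γ (ρ g x) (ρ g' y) = BKS.chi p L g * γ x y) →
    ∀ T N : AddSubgroup W, BKS.IsMet (fun g x => ρ g x) (fun x y => γ x y) T N →
    ∀ (l : ℕ) [Fact l.Prime] (j : BKS.Emb l F), l ≠ p → ¬ BKS.Split l F →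
    (∀ x, (∀ (g : GF F) (t : GQ l), BKS.Compat j g t → ρ g x = x) → x = 0) →
    ∀ φ : GF F, BKS.IsFrb j φ → ∀ U₁ U₂ : Submodule L W,
    (∀ x, x ∈ U₁ ↔ (∀ h ∈ Ine j, Filter.Tendsto
        (fun m : ℕ => (((ρ h : W →ₗ[L] W) - 1) ^ m) x) Filter.atTop (nhds 0)) ∧
      Filter.Tendsto (fun m : ℕ => (((ρ φ : W →ₗ[L] W) - 1) ^ m) x) Filter.atTop (nhds 0)) →
    (∀ x, x ∈ U₂ ↔ (∀ h ∈ Ine j, ρ h x = x) ∧
      Filter.Tendsto (fun m : ℕ => (((ρ φ : W →ₗ[L] W) - 1) ^ m) x) Filter.atTop (nhds 0)) →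
    BKS.loc L (fun g x => ρ g x) j T N % 2 =
      (Module.finrank L U₁ - Module.finrank L U₂) % 2

/-! ### Extension of scalars -/

/-- Module EGN: the generalized eigenspace is the kernel of a matrix. -/
def StEgn : Prop :=
  ∀ (p : ℕ) [Fact p.Prime] (L : Type) [NormedField L] [NormedAlgebra ℚ_[p] L]
    [FiniteDimensional ℚ_[p] L] (n : ℕ) (G : Type) [Group G] (V : G →* GL (Fin n) L)
    (A : GL (Fin n) L) (ρ : G →* GL (Fin n) (OO p L)), (∀ g, toL p L n (ρ g) = A * V g * A⁻¹) →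
    ∀ g : G, ∃ E : Matrix (Fin n) (Fin n) L,
    ∀ (L₂ : Type) [NormedField L₂] [NormedAlgebra ℚ_[p] L₂] [FiniteDimensional ℚ_[p] L₂]
      (φ : L →ₐ[ℚ_[p]] L₂) (x : Fin n → L₂),
      Filter.Tendsto (fun m : ℕ => (((V g : Matrix (Fin n) (Fin n) L).map φ - 1) ^ m) *ᵥ x)
        Filter.atTop (nhds 0) ↔ E.map φ *ᵥ x = 0

/-- Module KBC: the dimension of a space defined over `L` does not change over `L₂`. -/
def StKbc : Prop :=
  ∀ (L L₂ : Type) [Field L] [Field L₂] (φ : L →+* L₂) (n : ℕ) (κ : Type)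
    (E : κ → Matrix (Fin n) (Fin n) L) (U : Submodule L (Fin n → L))
    (U' : Submodule L₂ (Fin n → L₂)), (∀ x, x ∈ U ↔ ∀ k, E k *ᵥ x = 0) →
    (∀ x, x ∈ U' ↔ ∀ k, (E k).map φ *ᵥ x = 0) → Module.finrank L₂ U' = Module.finrank L U

/-- Module DEX (from EGN, KBC, LTX): the numbers `ndel` for `W = (V ⊕ V') ⊗ L₂`. -/
def StDex : Prop :=
  ∀ (p : ℕ) [Fact p.Prime] (F : Type) [Field F] [NumberField F] (L L₂ : Type) [NormedField L]
    [NormedAlgebra ℚ_[p] L] [FiniteDimensional ℚ_[p] L] [NormedField L₂] [NormedAlgebra ℚ_[p] L₂]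
    [FiniteDimensional ℚ_[p] L₂] (φ : L →ₐ[ℚ_[p]] L₂) (n n' : ℕ) (V : BKS.Rep (GF F) L n)
    (V' : BKS.Rep (GF F) L n'), Continuous V → Continuous V' →
    ∀ (l : ℕ) [Fact l.Prime] (j : BKS.Emb l F) (g : GF F)
    (U₁ U₂ : Submodule L₂ ((Fin n → L₂) × (Fin n' → L₂))),
    (∀ x, x ∈ U₁ ↔
      (∀ h ∈ Ine j, x.1 ∈ BKS.nilS (BKS.ext (φ : L →+* L₂) V) h ∧
        x.2 ∈ BKS.nilS (BKS.ext (φ : L →+* L₂) V') h) ∧
      x.1 ∈ BKS.nilS (BKS.ext (φ : L →+* L₂) V) g ∧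
      x.2 ∈ BKS.nilS (BKS.ext (φ : L →+* L₂) V') g) →
    (∀ x, x ∈ U₂ ↔
      (∀ h ∈ Ine j, x.1 ∈ BKS.fixS (BKS.ext (φ : L →+* L₂) V) h ∧
        x.2 ∈ BKS.fixS (BKS.ext (φ : L →+* L₂) V') h) ∧
      x.1 ∈ BKS.nilS (BKS.ext (φ : L →+* L₂) V) g ∧
      x.2 ∈ BKS.nilS (BKS.ext (φ : L →+* L₂) V') g) →
    Module.finrank L₂ U₁ - Module.finrank L₂ U₂ = BKS.ndel V j g + BKS.ndel V' j g

/-- Module PZF (from PYF, LOZ, DEX, BCC): **the theorem.** -/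
def StPzf : Prop :=
  ∀ (p : ℕ) [Fact p.Prime] (F : Type) [Field F] [NumberField F], p ≠ 2 →
    Module.finrank ℚ F = 2 → IsEmpty (F →+* ℝ) → BKS.Split p F → BKS.ParityZ p F

end BKT
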