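import Pool.Agent.Lib.MP_7c08ba_nt.T1.StNF
import Pool.Agent.Lib.MP_7c08ba_nt.T1.StH
import Pool.Agent.Lib.MP_7c08ba_nt.BK.ClsU

set_option autoImplicit false

/-!
Parity for general residual representations and arbitrary ramification at the primes which do not
split, part U: the theorem in terms of the definitions of `BK/Sel.lean` and `BK/ClsU.lean`.
Statements.
-/

noncomputable section

namespace BKT

open NumberField BKGen BKMet
open Matrix

/-- Module LEN: the length and the index. -/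
def StLen : Prop :=
  ∀ (p : ℕ) [Fact p.Prime] (L : Type) [NormedField L] [NormedAlgebra ℚ_[p] L]
    [FiniteDimensional ℚ_[p] L] (W : Type) [NormedAddCommGroup W] [Module L W]
    (P Q : AddSubgroup W), BKS.IsMod L P → BKS.IsMod L Q → P ≤ Q → P.relIndex Q ≠ 0 →
    P.relIndex Q = Nat.card (kk p L) ^ BKS.len L P (Q : Set W)

/-- Module FXL: the invariants modulo a lattice are finite for a representation without
invariants. -/
def StFxl : Prop :=
  ∀ (p : ℕ) [Fact p.Prime] (L : Type) [NormedField L] [NormedAlgebra ℚ_[p] L]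
    [FiniteDimensional ℚ_[p] L] (D : Type) [Group D] (n : ℕ) (V : D →* GL (Fin n) L), NoInv V →
    ∀ (S : GL (Fin n) L) (P : Submodule (OO p L) (Fin n → OO p L)),
    (∀ x : Fin n → OO p L, pi0 p L • x ∈ P) →
    (∀ d, ∀ v ∈ latS p S P, (V d : Matrix (Fin n) (Fin n) L) *ᵥ v ∈ latS p S P) →
    (∃ e : ℕ, (latS p S P).relIndex (fixL V (latS p S P)) = Nat.card (kk p L) ^ e) ∧
    ∃ m : ℕ, ∀ v ∈ fixL V (latS p S P), ((pi0 p L : OO p L) : L) ^ m • v ∈ latS p S P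

/-- Module MTL (from MTB, LEN, FXL): lattices with `IsMet` give the metabolic data. -/
def StMtl : Prop :=
  ∀ (p : ℕ) [Fact p.Prime] (F : Type) [Field F] (L : Type) [NormedField L] [NormedAlgebra ℚ_[p] L]
    [FiniteDimensional ℚ_[p] L] (n : ℕ) (V : GF F →* GL (Fin n) L) (B : GL (Fin n) L),
    (B : Matrix (Fin n) (Fin n) L)ᵀ = B → ∀ T N : AddSubgroup (Fin n → L),
    BKS.IsMet (BKS.vec V) (BKS.frm (B : Matrix (Fin n) (Fin n) L)) T N →
    ∃ (S : GL (Fin n) L) (ρ : GF F →* GL (Fin n) (OO p L))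
      (B₀ : Matrix (Fin n) (Fin n) (OO p L)) (N₁ : Submodule (OO p L) (Fin n → OO p L)),
      Metab V B S ρ B₀ N₁ ∧ latS p S ⊤ = T ∧ latS p S N₁ = N ∧
      ∀ (l : ℕ) [Fact l.Prime] (j : AlgebraicClosure F →+* PadicAlgCl l),
      (∀ v : Fin n → L, (∀ (g : GF F) (t : GQ l), (∀ z, j (g z) = t (j z)) →
        (V g : Matrix (Fin n) (Fin n) L) *ᵥ v = v) → v = 0) →
      BKS.loc L (BKS.vec V) j T N = lnJ p V j (latS p S ⊤) + lnJ p V j (latS p S N₁)

/-- Module WQL (from MTB, LEN, FXL; as WEQ and MTL): the same for a direct sum. -/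
def StWql : Prop :=
  ∀ (p : ℕ) [Fact p.Prime] (F : Type) [Field F] (L : Type) [NormedField L] [NormedAlgebra ℚ_[p] L]
    [FiniteDimensional ℚ_[p] L] (n n' : ℕ) (V : GF F →* GL (Fin n) L)
    (V' : GF F →* GL (Fin n') L) (B : GL (Fin n) L) (B' : GL (Fin n') L),
    (B : Matrix (Fin n) (Fin n) L)ᵀ = B → (B' : Matrix (Fin n') (Fin n') L)ᵀ = B' →
    ∀ T N : AddSubgroup ((Fin n → L) × (Fin n' → L)),
    BKS.IsMet (BKS.vec2 V V') (BKS.form (B : Matrix (Fin n) (Fin n) L)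
      (B' : Matrix (Fin n') (Fin n') L)) T N →
    ∃ (S : GL (Fin (n + n')) L) (ρ : GF F →* GL (Fin (n + n')) (OO p L))
      (B₀ : Matrix (Fin (n + n')) (Fin (n + n')) (OO p L))
      (N₁ : Submodule (OO p L) (Fin (n + n') → OO p L)),
      Metab (dsum V V') (blkG B (-B')) S ρ B₀ N₁ ∧
      ∀ (l : ℕ) [Fact l.Prime] (j : AlgebraicClosure F →+* PadicAlgCl l),
      (∀ v : Fin n → L, (∀ (g : GF F) (t : GQ l), (∀ z, j (g z) = t (j z)) →
        (V g : Matrix (Fin n) (Fin n) L) *ᵥ v = v) → v = 0) →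
      (∀ v : Fin n' → L, (∀ (g : GF F) (t : GQ l), (∀ z, j (g z) = t (j z)) →
        (V' g : Matrix (Fin n') (Fin n') L) *ᵥ v = v) → v = 0) →
      BKS.loc L (BKS.vec2 V V') j T N = lnJ p (dsum V V') j (latS p S ⊤) +
        lnJ p (dsum V V') j (latS p S N₁)

/-- Module MTE: the metabolic data give lattices with `IsMet`. -/
def StMte : Prop :=
  ∀ (p : ℕ) [Fact p.Prime] (F : Type) [Field F] (L : Type) [NormedField L] [NormedAlgebra ℚ_[p] L]
    [FiniteDimensional ℚ_[p] L] (n : ℕ) (V : GF F →* GL (Fin n) L) (B : GL (Fin n) L)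
    (S : GL (Fin n) L) (ρ : GF F →* GL (Fin n) (OO p L))
    (B₀ : Matrix (Fin n) (Fin n) (OO p L)) (N₁ : Submodule (OO p L) (Fin n → OO p L)),
    Metab V B S ρ B₀ N₁ →
    BKS.IsMet (BKS.vec V) (BKS.frm (B : Matrix (Fin n) (Fin n) L)) (latS p S ⊤) (latS p S N₁)

/-- Module PSN (from PARN, SUMH, SUMT; as PARW2): parity for direct sums. The primes `m k` do not
split, and the inertia groups act through elements of order prime to `p` at all other primes
outside `p` and a finite set of primes which split. -/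
def StPsn : Prop :=
  ∀ (p : ℕ) [Fact p.Prime], p ≠ 2 → ∀ (F : Type) [Field F] [NumberField F],
    Module.finrank ℚ F = 2 → IsEmpty (F →+* ℝ) → Splits F p →
    ∀ (c : AlgebraicClosure F ≃+* AlgebraicClosure F) (σ : F ≃+* F) (hcs : BKOdd.ConjHyp c σ)
    (L : Type) [NormedField L] [NormedAlgebra ℚ_[p] L] [FiniteDimensional ℚ_[p] L] (n n' : ℕ)
    (V : GF F →* GL (Fin n) L) (V' : GF F →* GL (Fin n') L) (B : GL (Fin n) L)
    (B' : GL (Fin n') L), Continuous V → Continuous V' →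
    ∀ P₀ : Set ℕ, P₀.Finite → (∀ l ∈ P₀, Splits F l) →
    ∀ (κ : Type) [Fintype κ] (m : κ → ℕ) [∀ k, Fact (m k).Prime], Function.Injective m →
    (∀ k, ¬ Splits F (m k)) → ∀ j : ∀ k, AlgebraicClosure F →+* PadicAlgCl (m k),
    (∀ (l : ℕ) [Fact l.Prime], l ≠ p → l ∉ P₀ → l ∉ Set.range m →
      ∀ j : AlgebraicClosure F →+* PadicAlgCl l,
      ∀ g ∈ Inert F (AlgebraicClosure F) j, (∃ m : ℕ, ¬ p ∣ m ∧ V g ^ m = 1) ∧
        ∃ m : ℕ, ¬ p ∣ m ∧ V' g ^ m = 1) →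
    (∀ (l : ℕ) [Fact l.Prime], l ≠ p → ∀ j : AlgebraicClosure F →+* PadicAlgCl l,
      (∀ v : Fin n → L, (∀ (g : GF F) (t : GQ l), (∀ z, j (g z) = t (j z)) →
        (V g : Matrix (Fin n) (Fin n) L) *ᵥ v = v) → v = 0) ∧
      ∀ v : Fin n' → L, (∀ (g : GF F) (t : GQ l), (∀ z, j (g z) = t (j z)) →
        (V' g : Matrix (Fin n') (Fin n') L) *ᵥ v = v) → v = 0) →
    (B : Matrix (Fin n) (Fin n) L)ᵀ = B → (B' : Matrix (Fin n') (Fin n') L)ᵀ = B' →
    IsDual (cycF p F) V (V.comp (BKOdd.conj c σ hcs.h)) (B : Matrix (Fin n) (Fin n) L) →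
    IsDual (cycF p F) V' (V'.comp (BKOdd.conj c σ hcs.h)) (B' : Matrix (Fin n') (Fin n') L) →
    ∀ (S : GL (Fin (n + n')) L) (ρ : GF F →* GL (Fin (n + n')) (OO p L))
    (B₀ : Matrix (Fin (n + n')) (Fin (n + n')) (OO p L))
    (N : Submodule (OO p L) (Fin (n + n') → OO p L)),
    Metab (dsum V V') (blkG B (-B')) S ρ B₀ N →
    (∀ j : AlgebraicClosure F →+* PadicAlgCl p, BKOdd.DeRhamAt j V ∧ BKOdd.DeRhamAt j V') →
    (∀ j : AlgebraicClosure F →+* PadicAlgCl p, BKOdd.FrobAt ⊤ j V ∧ BKOdd.FrobAt ⊤ j V') →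
    FiniteDimensional L (BKOdd.H1f p V) ∧ FiniteDimensional L (BKOdd.H1f p V') ∧
    ∀ i : AlgebraicClosure F →+* PadicAlgCl p,
      (Module.finrank L (BKOdd.H1f p V) + BKOdd.tdim i V +
        (Module.finrank L (BKOdd.H1f p V') + BKOdd.tdim i V') +
        ∑ k, (lnJ p (dsum V V') (j k) (latS p S ⊤) + lnJ p (dsum V V') (j k) (latS p S N))) % 2 = 0

/-- Module PUF (from PARN, PSN, MTL, WQL, MTE, NFM, LATTT, NSDT): **the theorem.** -/
def StPuf : Prop :=
  ∀ (p : ℕ) [Fact p.Prime] (F : Type) [Field F] [NumberField F], p ≠ 2 →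
    Module.finrank ℚ F = 2 → IsEmpty (F →+* ℝ) → BKS.Split p F → BKS.ParityU p F

end BKT
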