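import Pool.Agent.Lib.MP_7c08ba_nt.T1.StU
import Pool.Agent.Lib.MP_7c08ba_nt.BK.ClsV

set_option autoImplicit false

/-!
Parity for congruent representations: lattices over extensions of `L`, forms over the residue field,
the theorem of Brauer and Nesbitt, extension of scalars. Definitions and statements.
-/

noncomputable section

namespace BKT

open NumberField BKGen BKMet
open Matrix

/-! ### Multiplicities -/

section Mult

open Classical in
/-- the number of the factors of the series `s` which are isomorphic to `S` -/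
def cntS {R M : Type} [Ring R] [AddCommGroup M] [Module R M]
    (s : CompositionSeries (Submodule R M)) (S : Type) [AddCommGroup S] [Module R S] : ℕ :=
  Fintype.card {i : Fin s.length // Nonempty ((s i.succ ⧸
    (s (Fin.castSucc i)).comap (s i.succ).subtype) ≃ₗ[R] S)}

open Classical in
/-- the multiplicity of the simple module `S` in `M` -/
def mlt (R M : Type) [Ring R] [AddCommGroup M] [Module R M] (S : Type) [AddCommGroup S]
    [Module R S] : ℕ :=
  if h : ∃ s : CompositionSeries (Submodule R M), RelSeries.head s = ⊥ ∧ RelSeries.last s = ⊤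
  then cntS h.choose S else 0

end Mult

/-- Module MUL: properties of the multiplicities. -/
def StMul : Prop :=
  ∀ (R : Type) [Ring R] (S : Type) [AddCommGroup S] [Module R S] [IsSimpleModule R S],
    (∀ (M : Type) [AddCommGroup M] [Module R M], IsFiniteLength R M → ∀ P : Submodule R M,
      mlt R M S = mlt R P S + mlt R (M ⧸ P) S) ∧
    (∀ (M M' : Type) [AddCommGroup M] [Module R M] [AddCommGroup M'] [Module R M'],
      (M ≃ₗ[R] M') → mlt R M S = mlt R M' S) ∧
    (∀ (M : Type) [AddCommGroup M] [Module R M] [IsSimpleModule R M],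
      (Nonempty (M ≃ₗ[R] S) → mlt R M S = 1) ∧ (¬ Nonempty (M ≃ₗ[R] S) → mlt R M S = 0)) ∧
    (∀ (M : Type) [AddCommGroup M] [Module R M] [Subsingleton M], mlt R M S = 0) ∧
    ∀ (M : Type) [AddCommGroup M] [Module R M] (S' : Type) [AddCommGroup S'] [Module R S'],
      (S ≃ₗ[R] S') → mlt R M S = mlt R M S'

/-! ### Forms -/

section Forms

/-- `f` is a perfect symmetric form on `A`, and `s r` is the adjoint of `r`. -/
structure AdF {K R A : Type} [Field K] [Ring R] [Algebra K R] [AddCommGroup A] [Module K A]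
    [Module R A] (s : R → R) (f : A →ₗ[K] A →ₗ[K] K) : Prop where
  symm : ∀ x y, f x y = f y x
  perf : ∀ x, (∀ y, f x y = 0) → x = 0
  adj : ∀ (r : R) x y, f (r • x) y = f x (s r • y)

end Forms

/-- Module LAGA (from MUL): a module with a form over an algebraically closed field, in which the
simple modules with a form occur with even multiplicities, has a Lagrangian submodule. -/
def StLaga : Prop :=
  ∀ (K : Type) [Field K] [IsAlgClosed K], (2 : K) ≠ 0 → ∀ (R : Type) [Ring R] [Algebra K R]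
    (s : R → R) (A : Type) [AddCommGroup A] [Module K A] [Module R A] [IsScalarTower K R A]
    [FiniteDimensional K A] (f : A →ₗ[K] A →ₗ[K] K), AdF s f →
    (∀ (S : Type) [AddCommGroup S] [Module K S] [Module R S] [IsScalarTower K R S]
      [FiniteDimensional K S] [IsSimpleModule R S] (h : S →ₗ[K] S →ₗ[K] K), AdF s h →
      Even (mlt R A S)) →
    ∃ P : Submodule R A, ∀ y, y ∈ P ↔ ∀ x ∈ P, f x y = 0

/-! ### The theorem of Brauer and Nesbitt -/

section Char

variable (K : Type) [Field K] {G : Type} [Group G] (S : Type) [AddCommGroup S] [Module K S]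
  [Module (MonoidAlgebra K G) S] [IsScalarTower K (MonoidAlgebra K G) S]

/-- the action of an element of the group algebra -/
def ga (x : MonoidAlgebra K G) : S →ₗ[K] S := Algebra.lsmul K K S x

/-- the characteristic polynomial of an element of the group -/
def gch [FiniteDimensional K S] (g : G) : Polynomial K := (ga K S (MonoidAlgebra.of K G g)).charpoly

end Char

/-- Module BNA: density. -/
def StBna : Prop :=
  ∀ (K : Type) [Field K] [IsAlgClosed K] (G : Type) [Group G] (r : ℕ) (S : Fin r → Type)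
    [∀ i, AddCommGroup (S i)] [∀ i, Module K (S i)] [∀ i, Module (MonoidAlgebra K G) (S i)]
    [∀ i, IsScalarTower K (MonoidAlgebra K G) (S i)] [∀ i, FiniteDimensional K (S i)]
    [∀ i, IsSimpleModule (MonoidAlgebra K G) (S i)],
    (∀ i j, i ≠ j → IsEmpty (S i ≃ₗ[MonoidAlgebra K G] S j)) → ∀ i : Fin r,
    ∃ x : MonoidAlgebra K G, LinearMap.trace K (S i) (ga K (S i) x) = 1 ∧
      ∀ j, j ≠ i → ga K (S j) x = 0

/-- Module BNB (from BNA): the characteristic polynomials determine the multiplicities. -/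
def StBnb : Prop :=
  ∀ (p : ℕ) [Fact p.Prime] (K : Type) [Field K] [IsAlgClosed K] [CharP K p] (G : Type) [Group G]
    (r : ℕ) (S : Fin r → Type)
    [∀ i, AddCommGroup (S i)] [∀ i, Module K (S i)] [∀ i, Module (MonoidAlgebra K G) (S i)]
    [∀ i, IsScalarTower K (MonoidAlgebra K G) (S i)] [∀ i, FiniteDimensional K (S i)]
    [∀ i, IsSimpleModule (MonoidAlgebra K G) (S i)],
    (∀ i j, i ≠ j → IsEmpty (S i ≃ₗ[MonoidAlgebra K G] S j)) → ∀ m m' : Fin r → ℕ,
    (∀ g : G, ∏ i, gch K (S i) g ^ m i = ∏ i, gch K (S i) g ^ m' i) → m = m'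

/-- Module BNT (from BNB, MUL): **the theorem of Brauer and Nesbitt.** -/
def StBnt : Prop :=
  ∀ (p : ℕ) [Fact p.Prime] (K : Type) [Field K] [IsAlgClosed K] [CharP K p] (G : Type) [Group G]
    (A A' : Type) [AddCommGroup A] [Module K A] [Module (MonoidAlgebra K G) A]
    [IsScalarTower K (MonoidAlgebra K G) A] [FiniteDimensional K A]
    [AddCommGroup A'] [Module K A'] [Module (MonoidAlgebra K G) A']
    [IsScalarTower K (MonoidAlgebra K G) A'] [FiniteDimensional K A'],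
    (∀ g : G, gch K A g = gch K A' g) →
    ∀ (S : Type) [AddCommGroup S] [Module K S] [Module (MonoidAlgebra K G) S]
      [IsScalarTower K (MonoidAlgebra K G) S] [FiniteDimensional K S]
      [IsSimpleModule (MonoidAlgebra K G) S],
      mlt (MonoidAlgebra K G) A S = mlt (MonoidAlgebra K G) A' S

/-- Module WIT (from LAGA, BNT, MUL): two representations over an algebraically closed field with
forms and with the same characteristic polynomials: the sum has a Lagrangian subspace. -/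
def StWit : Prop :=
  ∀ (p : ℕ) [Fact p.Prime], p ≠ 2 → ∀ (K : Type) [Field K] [IsAlgClosed K] [CharP K p]
    (G : Type) [Group G] (c : G →* G), (∀ g, c (c g) = g) → ∀ x : G → K, (∀ g, x g ≠ 0) →
    ∀ (n n' : ℕ) (τ : G →* GL (Fin n) K) (τ' : G →* GL (Fin n') K)
    (D : Matrix (Fin n) (Fin n) K) (D' : Matrix (Fin n') (Fin n') K),
    Dᵀ = D → D'ᵀ = D' → IsUnit D.det → IsUnit D'.det →
    (∀ g, (τ g : Matrix (Fin n) (Fin n) K)ᵀ * D * (τ (c g) : Matrix (Fin n) (Fin n) K) =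
      x g • D) →
    (∀ g, (τ' g : Matrix (Fin n') (Fin n') K)ᵀ * D' * (τ' (c g) : Matrix (Fin n') (Fin n') K) =
      x g • D') →
    (∀ g, (τ g : Matrix (Fin n) (Fin n) K).charpoly =
      (τ' g : Matrix (Fin n') (Fin n') K).charpoly) →
    ∃ P : Submodule K ((Fin n → K) × (Fin n' → K)),
      (∀ g, ∀ y ∈ P, ((τ g : Matrix (Fin n) (Fin n) K) *ᵥ y.1,
        (τ' g : Matrix (Fin n') (Fin n') K) *ᵥ y.2) ∈ P) ∧
      ∀ y, y ∈ P ↔ ∀ z ∈ P, z.1 ⬝ᵥ (D *ᵥ y.1) - z.2 ⬝ᵥ (D' *ᵥ y.2) = 0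

/-! ### Lattices -/

/-- Module ISM: homomorphisms of finite extensions of `ℚ_p` preserve the norm. -/
def StIsm : Prop :=
  ∀ (p : ℕ) [Fact p.Prime] (L L₂ : Type) [NormedField L] [NormedAlgebra ℚ_[p] L]
    [FiniteDimensional ℚ_[p] L] [NormedField L₂] [NormedAlgebra ℚ_[p] L₂]
    [FiniteDimensional ℚ_[p] L₂] (φ : L →ₐ[ℚ_[p]] L₂) (x : L), ‖φ x‖ = ‖x‖

/-- The ring homomorphism `r` from the ring of integers has the maximal ideal as kernel. -/
def IsRes {p : ℕ} [Fact p.Prime] {L : Type} [NormedField L] [NormedAlgebra ℚ_[p] L] {K : Type}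
    [Field K] (r : OO p L →+* K) : Prop :=
  ∀ x : OO p L, r x = 0 ↔ ‖(x : L)‖ < 1

/-- Module RES (from ISM): the algebraic closure `K` of the residue field, and finite extensions
`L₂` of `L` with given elements of `K` in their residue fields and with a square root of a
uniformizer of `L`. -/
def StRes : Prop :=
  ∀ (p : ℕ) [Fact p.Prime] (L : Type) [NormedField L] [NormedAlgebra ℚ_[p] L]
    [FiniteDimensional ℚ_[p] L], ∃ (K : Type) (_ : Field K) (_ : IsAlgClosed K) (_ : CharP K p)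
    (r : OO p L →+* K), IsRes r ∧ ∀ E : Set K, E.Finite →
    ∃ (L₂ : Type) (_ : NormedField L₂) (_ : NormedAlgebra ℚ_[p] L₂)
      (_ : FiniteDimensional ℚ_[p] L₂) (φ : L →ₐ[ℚ_[p]] L₂) (ϖ : L₂) (θ : OO p L₂ →+* K),
      ϖ ^ 2 = φ ((pi0 p L : OO p L) : L) ∧ IsRes θ ∧
      (∀ (x : OO p L) (y : OO p L₂), (y : L₂) = φ x → θ y = r x) ∧
      ∀ e ∈ E, ∃ y, θ y = e

/-- Module DIA: symmetric matrices over the ring of integers are diagonalizable. -/
def StDia : Prop :=
  ∀ (p : ℕ) [Fact p.Prime], p ≠ 2 → ∀ (L : Type) [NormedField L] [NormedAlgebra ℚ_[p] L]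
    [FiniteDimensional ℚ_[p] L] (n : ℕ) (B : Matrix (Fin n) (Fin n) (OO p L)), Bᵀ = B →
    ∃ (P : GL (Fin n) (OO p L)) (d : Fin n → OO p L),
      (P : Matrix (Fin n) (Fin n) (OO p L))ᵀ * B * (P : Matrix (Fin n) (Fin n) (OO p L)) =
        Matrix.diagonal d

section Nrm

variable {p : ℕ} [Fact p.Prime] {L : Type} [NormedField L] [NormedAlgebra ℚ_[p] L]
  [FiniteDimensional ℚ_[p] L] {n : ℕ}

/-- the diagonal matrix with entries `e i` (for `a i = false`) and `e i π` (for `a i = true`) -/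
def dgm (e : Fin n → (OO p L)ˣ) (a : Fin n → Bool) : Matrix (Fin n) (Fin n) L :=
  Matrix.diagonal fun i => (((e i : (OO p L)ˣ) : OO p L) : L) *
    (if a i then ((pi0 p L : OO p L) : L) else 1)

/-- A stable lattice, given by the matrix `S`, with an orthogonal basis of vectors whose squares are
units or units times the uniformizer. -/
structure Nrm {G : Type} [Group G] (V : G →* GL (Fin n) L) (B : GL (Fin n) L) (S : GL (Fin n) L)
    (ρ : G →* GL (Fin n) (OO p L)) (e : Fin n → (OO p L)ˣ) (a : Fin n → Bool) : Prop where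
  int : ∀ g, toL p L n (ρ g) = S * V g * S⁻¹
  form : (S : Matrix (Fin n) (Fin n) L)ᵀ * dgm e a * (S : Matrix (Fin n) (Fin n) L) =
    (B : Matrix (Fin n) (Fin n) L)

/-- the entries of the block diagonal part of the reduction -/
def btm {K : Type} [Field K] (r : OO p L →+* K) {G : Type} [Group G]
    (ρ : G →* GL (Fin n) (OO p L)) (a : Fin n → Bool) (g : G) : Matrix (Fin n) (Fin n) K :=
  fun i j => if a i = a j then r ((ρ g : Matrix (Fin n) (Fin n) (OO p L)) i j) else 0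

end Nrm

/-- Module NRM (from DIA; the maximal lattice as in FLATTT): existence. -/
def StNrm : Prop :=
  ∀ (p : ℕ) [Fact p.Prime], p ≠ 2 → ∀ (L : Type) [NormedField L] [NormedAlgebra ℚ_[p] L]
    [FiniteDimensional ℚ_[p] L] (G : Type) [Group G] (n : ℕ) (V : G →* GL (Fin n) L)
    (A : GL (Fin n) L) (ρ : G →* GL (Fin n) (OO p L)), (∀ g, toL p L n (ρ g) = A * V g * A⁻¹) →
    ∀ (c : G →* G), (∀ g, c (c g) = g) → ∀ (χ : G →* ℤ_[p]ˣ) (B : GL (Fin n) L),
    (B : Matrix (Fin n) (Fin n) L)ᵀ = B →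
    IsDual χ V (V.comp c) (B : Matrix (Fin n) (Fin n) L) →
    ∃ (S : GL (Fin n) L) (ρ₁ : G →* GL (Fin n) (OO p L)) (e : Fin n → (OO p L)ˣ)
      (a : Fin n → Bool), Nrm V B S ρ₁ e a

/-- Module TAU: the reduction as a representation over `K`. -/
def StTau : Prop :=
  ∀ (p : ℕ) [Fact p.Prime] (L : Type) [NormedField L] [NormedAlgebra ℚ_[p] L]
    [FiniteDimensional ℚ_[p] L] (K : Type) [Field K] (r : OO p L →+* K), IsRes r →
    ∀ (G : Type) [Group G] (n : ℕ) (V : G →* GL (Fin n) L) (B S : GL (Fin n) L)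
    (ρ : G →* GL (Fin n) (OO p L)) (e : Fin n → (OO p L)ˣ) (a : Fin n → Bool),
    Nrm V B S ρ e a → ∀ (c : G →* G) (χ : G →* ℤ_[p]ˣ),
    IsDual χ V (V.comp c) (B : Matrix (Fin n) (Fin n) L) →
    (∀ g i j, a i = false → a j = true →
      r ((ρ g : Matrix (Fin n) (Fin n) (OO p L)) i j) = 0) ∧
    ∃ τ : G →* GL (Fin n) K, (∀ g, (τ g : Matrix (Fin n) (Fin n) K) = btm r ρ a g) ∧
      (∀ g (y : OO p L), (y : L) = BKOdd.chL χ L g →
        (τ g : Matrix (Fin n) (Fin n) K)ᵀ *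
          Matrix.diagonal (fun i => r ((e i : (OO p L)ˣ) : OO p L)) *
          (τ (c g) : Matrix (Fin n) (Fin n) K) =
        r y • Matrix.diagonal (fun i => r ((e i : (OO p L)ˣ) : OO p L))) ∧
      ∀ g, (τ g : Matrix (Fin n) (Fin n) K).charpoly =
        ((ρ g : Matrix (Fin n) (Fin n) (OO p L)).charpoly).map r

/-- Module LTX (from LATM): continuous representations of compact groups have stable lattices. -/
def StLtx : Prop :=
  ∀ (p : ℕ) [Fact p.Prime] (L : Type) [NormedField L] [NormedAlgebra ℚ_[p] L]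
    [FiniteDimensional ℚ_[p] L] (G : Type) [Group G] [TopologicalSpace G] [CompactSpace G] (n : ℕ)
    (V : G →* GL (Fin n) L), Continuous V →
    ∃ (A : GL (Fin n) L) (ρ : G →* GL (Fin n) (OO p L)), ∀ g, toL p L n (ρ g) = A * V g * A⁻¹

/-- Module XLT (from ISM): the lattices over `L₂`: with the coordinates `u = φ(S) x`, the lattice `T`
is given by `‖u i‖ ≤ 1` for `a i = false` and `‖ϖ u i‖ ≤ 1` for `a i = true`, and `N` is the set of
the elements of `T` for which the image over `K` of the vector of these elements `u i`, `ϖ u i` is in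
`P`. -/
def StXlt : Prop :=
  ∀ (p : ℕ) [Fact p.Prime] (F : Type) [Field F] (L L₂ K : Type) [NormedField L]
    [NormedAlgebra ℚ_[p] L] [FiniteDimensional ℚ_[p] L] [NormedField L₂] [NormedAlgebra ℚ_[p] L₂]
    [FiniteDimensional ℚ_[p] L₂] [Field K] (r : OO p L →+* K) (φ : L →ₐ[ℚ_[p]] L₂) (ϖ : L₂)
    (θ : OO p L₂ →+* K), IsRes r → ϖ ^ 2 = φ ((pi0 p L : OO p L) : L) → IsRes θ →
    (∀ (x : OO p L) (y : OO p L₂), (y : L₂) = φ x → θ y = r x) →
    ∀ (n n' : ℕ) (V : GF F →* GL (Fin n) L) (V' : GF F →* GL (Fin n') L) (B S : GL (Fin n) L)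
    (B' S' : GL (Fin n') L) (ρ : GF F →* GL (Fin n) (OO p L))
    (ρ' : GF F →* GL (Fin n') (OO p L)) (e : Fin n → (OO p L)ˣ) (e' : Fin n' → (OO p L)ˣ)
    (a : Fin n → Bool) (a' : Fin n' → Bool), Nrm V B S ρ e a → Nrm V' B' S' ρ' e' a' →
    (∀ g i j, a i = false → a j = true →
      r ((ρ g : Matrix (Fin n) (Fin n) (OO p L)) i j) = 0) →
    (∀ g i j, a' i = false → a' j = true →
      r ((ρ' g : Matrix (Fin n') (Fin n') (OO p L)) i j) = 0) →
    ∀ P : Submodule K ((Fin n → K) × (Fin n' → K)),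
    (∀ g, ∀ y ∈ P, (btm r ρ a g *ᵥ y.1, btm r ρ' a' g *ᵥ y.2) ∈ P) →
    (∀ y, y ∈ P ↔ ∀ z ∈ P,
      z.1 ⬝ᵥ (Matrix.diagonal (fun i => r ((e i : (OO p L)ˣ) : OO p L)) *ᵥ y.1) -
      z.2 ⬝ᵥ (Matrix.diagonal (fun i => r ((e' i : (OO p L)ˣ) : OO p L)) *ᵥ y.2) = 0) →
    (∃ E : Set ((Fin n → K) × (Fin n' → K)), Submodule.span K E = P ∧
      ∀ z ∈ E, (∀ i, ∃ y, θ y = z.1 i) ∧ ∀ i, ∃ y, θ y = z.2 i) →
    ∃ T N : AddSubgroup ((Fin n → L₂) × (Fin n' → L₂)),
      BKS.IsMet (BKS.vec2 (BKS.ext (φ : L →+* L₂) V) (BKS.ext (φ : L →+* L₂) V'))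
        (BKS.form ((B : Matrix (Fin n) (Fin n) L).map φ)
          ((B' : Matrix (Fin n') (Fin n') L).map φ)) T N

/-- Module CNG (from RES, NRM, TAU, WIT, XLT): the lattices for congruent representations. -/
def StCng : Prop :=
  ∀ (p : ℕ) [Fact p.Prime], p ≠ 2 → ∀ (F : Type) [Field F] (L : Type) [NormedField L]
    [NormedAlgebra ℚ_[p] L] [FiniteDimensional ℚ_[p] L] (n n' : ℕ) (V : GF F →* GL (Fin n) L)
    (V' : GF F →* GL (Fin n') L) (B A : GL (Fin n) L) (B' A' : GL (Fin n') L)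
    (ρ : GF F →* GL (Fin n) (OO p L)) (ρ' : GF F →* GL (Fin n') (OO p L)),
    (∀ g, toL p L n (ρ g) = A * V g * A⁻¹) → (∀ g, toL p L n' (ρ' g) = A' * V' g * A'⁻¹) →
    ∀ c : GF F →* GF F, (∀ g, c (c g) = g) → ∀ χ : GF F →* ℤ_[p]ˣ,
    (B : Matrix (Fin n) (Fin n) L)ᵀ = B → (B' : Matrix (Fin n') (Fin n') L)ᵀ = B' →
    IsDual χ V (V.comp c) (B : Matrix (Fin n) (Fin n) L) →
    IsDual χ V' (V'.comp c) (B' : Matrix (Fin n') (Fin n') L) → BKS.Congr V V' →
    ∃ (L₂ : Type) (_ : NormedField L₂) (_ : NormedAlgebra ℚ_[p] L₂)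
      (_ : FiniteDimensional ℚ_[p] L₂) (φ : L →ₐ[ℚ_[p]] L₂)
      (T N : AddSubgroup ((Fin n → L₂) × (Fin n' → L₂))),
      BKS.IsMet (BKS.vec2 (BKS.ext (φ : L →+* L₂) V) (BKS.ext (φ : L →+* L₂) V'))
        (BKS.form ((B : Matrix (Fin n) (Fin n) L).map φ)
          ((B' : Matrix (Fin n') (Fin n') L).map φ)) T N

/-! ### Extension of scalars -/

/-- Module BCH (from ISM): the Selmer group of `V ⊗ L₂`. -/
def StBch : Prop :=
  ∀ (p : ℕ) [Fact p.Prime] (F : Type) [Field F] (L L₂ : Type) [NormedField L]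
    [NormedAlgebra ℚ_[p] L] [FiniteDimensional ℚ_[p] L] [NormedField L₂] [NormedAlgebra ℚ_[p] L₂]
    [FiniteDimensional ℚ_[p] L₂] (φ : L →ₐ[ℚ_[p]] L₂) (n : ℕ) (V : BKS.Rep (GF F) L n),
    BKS.IsFin (BKS.H1f p (BKS.ext (φ : L →+* L₂) V)) →
    BKS.IsFin (BKS.H1f p V) ∧
      BKS.dim (BKS.H1f p V) = BKS.dim (BKS.H1f p (BKS.ext (φ : L →+* L₂) V))

/-- Module BCT (from ISM): the modules of Fontaine of `V ⊗ L₂`. -/
def StBct : Prop :=
  ∀ (p : ℕ) [Fact p.Prime] (F : Type) [Field F] (L L₂ : Type) [NormedField L]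
    [NormedAlgebra ℚ_[p] L] [FiniteDimensional ℚ_[p] L] [NormedField L₂] [NormedAlgebra ℚ_[p] L₂]
    [FiniteDimensional ℚ_[p] L₂] (φ : L →ₐ[ℚ_[p]] L₂) (n : ℕ) (V : BKS.Rep (GF F) L n)
    (j : BKS.Emb p F),
    (BKS.DeRhamAt V j → BKS.DeRhamAt (BKS.ext (φ : L →+* L₂) V) j) ∧
    (BKS.FrobAt V ⊤ j → BKS.FrobAt (BKS.ext (φ : L →+* L₂) V) ⊤ j) ∧
    BKS.tdim (BKS.ext (φ : L →+* L₂) V) j = BKS.tdim V j

/-- Module BCC (from ISM, BCT): the class of representations. -/
def StBcc : Prop :=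
  ∀ (p : ℕ) [Fact p.Prime] (F : Type) [Field F] (L L₂ : Type) [NormedField L]
    [NormedAlgebra ℚ_[p] L] [FiniteDimensional ℚ_[p] L] [NormedField L₂] [NormedAlgebra ℚ_[p] L₂]
    [FiniteDimensional ℚ_[p] L₂] (φ : L →ₐ[ℚ_[p]] L₂) (n : ℕ) (V : BKS.Rep (GF F) L n),
    BKS.IsRepU p V → BKS.IsRepU p (BKS.ext (φ : L →+* L₂) V) ∧
      (∀ (c : AlgebraicClosure F ≃+* AlgebraicClosure F) (B : Matrix (Fin n) (Fin n) L),
        BKS.IsPol p V c B → BKS.IsPol p (BKS.ext (φ : L →+* L₂) V) c (B.map φ)) ∧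
      ∀ (κ : Type) (l : κ → ℕ), BKS.Covers p V l →
        BKS.Covers p (BKS.ext (φ : L →+* L₂) V) l

/-- Module PVF (from PUF, CNG, LTX, BCH, BCT, BCC): **the theorem.** -/
def StPvf : Prop :=
  ∀ (p : ℕ) [Fact p.Prime] (F : Type) [Field F] [NumberField F], p ≠ 2 →
    Module.finrank ℚ F = 2 → IsEmpty (F →+* ℝ) → BKS.Split p F → BKS.ParityV p F

end BKT
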