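import Pool.Agent.Lib.MP_7c08ba_nt.T1.StV
import Pool.Agent.Lib.MP_7c08ba_nt.BK.ClsW

set_option autoImplicit false

/-!
Parity for congruent representations: invariance of the local terms. Definitions and statements.
-/

noncomputable section

namespace BKT

open NumberField BKGen BKMet
open BKPar (Loc1 Loc2)
open BKND (Sm)
open BKGlob2 (CC0)
open Matrix

/-- Module TRI (from ALT): three Lagrangian submodules. -/
def StTri : Prop :=
  ∀ (R : Type) [CommRing R] [IsLocalRing R] [Finite (IsLocalRing.ResidueField R)] (p : ℕ)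
    [Fact p.Prime], p ≠ 2 → ∀ (H : Type) [AddCommGroup H] [Module R H] [Finite H]
    (b : H →+ H →+ QZ p), (∀ (a : R) x y, b (a • x) y = b x (a • y)) → (∀ x y, b x y = b y x) →
    (∀ x, (∀ y, b x y = 0) → x = 0) →
    ∀ A B C : Submodule R H, (∀ y, y ∈ A ↔ ∀ x ∈ A, b x y = 0) →
    (∀ y, y ∈ B ↔ ∀ x ∈ B, b x y = 0) → (∀ y, y ∈ C ↔ ∀ x ∈ C, b x y = 0) →
    ∃ m : ℕ, Nat.card (A ⊓ B : Submodule R H) * Nat.card (B ⊓ C : Submodule R H) *
        Nat.card (A ⊓ C : Submodule R H) * Nat.card A =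
      Nat.card (IsLocalRing.ResidueField R) ^ (2 * m)

/-! ### Local groups with a conjugation -/

/-- A conjugation `τ` of the local group `D`, whose square is the inner automorphism of `s`; for the
decomposition group of a place which is fixed by the conjugation, `τ` is the conjugation by an
element `t` of the Galois group of `ℚ_l`, `s = t²` and `a = -χ(t)⁻¹`. -/
structure ConjL (p : ℕ) [Fact p.Prime] {D : Type} [Group D] [TopologicalSpace D]
    (χ : D →* ℤ_[p]ˣ) (inv : (D → D → QZ p) →+ QZ p) (τ : D →* D) (s : D) (a : ℤ_[p]ˣ) :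
    Prop where
  cont : Continuous τ
  chi : ∀ d, χ (τ d) = χ d
  sq : ∀ d, τ (τ d) = s * d * s⁻¹
  anti : ∀ z ∈ BKND.Z2 (actA χ), inv (fun d d' => (a : ℤ_[p]) • z (τ d) (τ d')) = - inv z

/-- Module SYML: the pairing on `H¹` of a module with a symmetric form with respect to `τ` is
symmetric. -/
def StSyml : Prop :=
  ∀ (p : ℕ) [Fact p.Prime] (D : Type) [Group D] [TopologicalSpace D] [IsTopologicalGroup D]
    [CompactSpace D] (χ : D →* ℤ_[p]ˣ) (inv : (D → D → QZ p) →+ QZ p), Continuous χ →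
    (∀ z ∈ BKND.Z2 (actA χ), inv z = 0 ↔ z ∈ BKND.B2 (actA χ)) →
    ∀ (τ : D →* D) (s : D) (a : ℤ_[p]ˣ), ConjL p χ inv τ s a →
    ∀ (R : Type) [CommRing R] (M : Type) [AddCommGroup M] [Module R M] [Finite M]
    (X : Pair R (actA χ) M M), X.ρ' = X.ρ.comp τ →
    (∀ m m', X.b m m' = (a : ℤ_[p]) • X.b m' (X.ρ s m)) →
    ∀ x ∈ BKND.Z1 X.ρ, ∀ y ∈ BKND.Z1 X.ρ, (fun d => y (τ d)) ∈ BKND.Z1 X.ρ' ∧
      inv (cup11 X.b X.ρ' x (fun d => y (τ d))) = inv (cup11 X.b X.ρ' y (fun d => x (τ d)))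

/-- Module PRPL (from FRG-like forgetting of the ring): the annihilator of the image of `H¹(P)`. -/
def StPrpl : Prop :=
  ∀ (p : ℕ) [Fact p.Prime] (D : Type) [Group D] [TopologicalSpace D] [IsTopologicalGroup D]
    [CompactSpace D] (χ : D →* ℤ_[p]ˣ) (inv : (D → D → QZ p) →+ QZ p) (δ : ℕ), Continuous χ →
    LocG p χ inv δ → ∀ (R : Type) [CommRing R] (M M' : Type) [AddCommGroup M] [Module R M]
    [AddCommGroup M'] [Module R M'] [Finite M] (X : Pair R (actA χ) M M') (P : Submodule R M),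
    X.Stable P → ∀ x ∈ BKND.Z1 X.ρ,
    (∀ y ∈ BKND.Z1 X.ρ', (∀ d, y d ∈ X.perp P) → inv (cup11 X.b X.ρ' x y) = 0) →
    ∃ m : M, ∀ d, x d - d0 X.ρ m d ∈ P

section Lat

variable {p : ℕ} [Fact p.Prime] {L : Type} [NormedField L] [NormedAlgebra ℚ_[p] L] {n : ℕ}

/-- `X` is a lattice stable under `D`. -/
structure Lt {D : Type} [Group D] (V : D →* GL (Fin n) L) (X : AddSubgroup (Fin n → L)) :
    Prop where
  bdd : ∃ C : ℝ, ∀ x ∈ X, ‖x‖ ≤ C
  nhd : ∃ ε : ℝ, 0 < ε ∧ ∀ x : Fin n → L, ‖x‖ ≤ ε → x ∈ X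
  smul : ∀ a : L, ‖a‖ ≤ 1 → ∀ x ∈ X, a • x ∈ X
  stab : ∀ d, ∀ x ∈ X, (V d : Matrix (Fin n) (Fin n) L) *ᵥ x ∈ X

/-- the dual lattice -/
def dlt (p : ℕ) [Fact p.Prime] {L : Type} [NormedField L] [NormedAlgebra ℚ_[p] L] {n : ℕ}
    (β : Matrix (Fin n) (Fin n) L) (X : AddSubgroup (Fin n → L)) : AddSubgroup (Fin n → L) where
  carrier := {z | ∀ x ∈ X, ‖x ⬝ᵥ (β *ᵥ z)‖ ≤ 1}
  add_mem' := by
    intro z w hz hw x hx
    have hu := BKND.DG.ultra (p := p) L
    rw [Matrix.mulVec_add, dotProduct_add]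
    exact (IsUltrametricDist.norm_add_le_max _ _).trans (max_le (hz x hx) (hw x hx))
  zero_mem' := fun x _ => by
    rw [Matrix.mulVec_zero, dotProduct_zero, norm_zero]
    exact zero_le_one
  neg_mem' := by
    intro z hz x hx
    rw [Matrix.mulVec_neg, dotProduct_neg, norm_neg]
    exact hz x hx

/-- the order of `(V / X)^D` -/
def hh {D : Type} [Group D] (V : D →* GL (Fin n) L) (X : AddSubgroup (Fin n → L)) : ℕ :=
  X.relIndex (fixL V X)

/-- `a` as an element of `L` -/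
def uL (L : Type) [NormedField L] [NormedAlgebra ℚ_[p] L] (a : ℤ_[p]ˣ) : L :=
  algebraMap ℚ_[p] L (((a : ℤ_[p]ˣ) : ℤ_[p]) : ℚ_[p])

/-- The form with matrix `β` on `V`: `⟨d x, τ(d) y⟩ = χ(d) ⟨x, y⟩` and
`⟨x, y⟩ = a ⟨y, s x⟩`. -/
structure FrmL {D : Type} [Group D] (χ : D →* ℤ_[p]ˣ) (τ : D →* D) (s : D) (a : ℤ_[p]ˣ)
    (V : D →* GL (Fin n) L) (β : GL (Fin n) L) : Prop where
  dual : IsDual χ V (V.comp τ) (β : Matrix (Fin n) (Fin n) L)
  symm : (β : Matrix (Fin n) (Fin n) L) =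
    uL L a • ((V s : Matrix (Fin n) (Fin n) L)ᵀ * (β : Matrix (Fin n) (Fin n) L)ᵀ)

end Lat

/-- Module GCOL: the orders of the invariants modulo lattices and modulo the dual lattices. -/
def StGcol : Prop :=
  ∀ (p : ℕ) [Fact p.Prime] (L : Type) [NormedField L] [NormedAlgebra ℚ_[p] L]
    [FiniteDimensional ℚ_[p] L] (D : Type) [Group D] [TopologicalSpace D] [IsTopologicalGroup D]
    [CompactSpace D] [NonarchimedeanGroup D] (χ : D →* ℤ_[p]ˣ), Continuous χ →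
    ∀ (inv : (D → D → QZ p) →+ QZ p), LocG p χ inv 0 →
    ∀ (n : ℕ) (V V' : D →* GL (Fin n) L) (β : GL (Fin n) L), Continuous V → Continuous V' →
    NoInv V → NoInv V' → IsDual χ V V' (β : Matrix (Fin n) (Fin n) L) →
    ∀ X Y : AddSubgroup (Fin n → L), Lt V X → Lt V Y → X ≤ Y →
    Lt V' (dlt p (β : Matrix (Fin n) (Fin n) L) X) ∧
    hh V Y * hh V' (dlt p (β : Matrix (Fin n) (Fin n) L) X) =
      hh V X * hh V' (dlt p (β : Matrix (Fin n) (Fin n) L) Y)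

/-- Module LINV (from SYML, PRPL, GCOL, TRI, FXL): **the parity of the length of `(V / X)^D` is the
same for all self-dual lattices `X`.** -/
def StLinv : Prop :=
  ∀ (p : ℕ) [Fact p.Prime], p ≠ 2 → ∀ (L : Type) [NormedField L] [NormedAlgebra ℚ_[p] L]
    [FiniteDimensional ℚ_[p] L] (D : Type) [Group D] [TopologicalSpace D] [IsTopologicalGroup D]
    [CompactSpace D] [NonarchimedeanGroup D] (χ : D →* ℤ_[p]ˣ), Continuous χ →
    ∀ (inv : (D → D → QZ p) →+ QZ p), LocG p χ inv 0 →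
    ∀ (τ : D →* D) (s : D) (a : ℤ_[p]ˣ), ConjL p χ inv τ s a →
    ∀ (n : ℕ) (V : D →* GL (Fin n) L) (β : GL (Fin n) L), Continuous V → NoInv V →
    FrmL χ τ s a V β → ∀ X Y : AddSubgroup (Fin n → L), Lt V X → Lt V Y →
    dlt p (β : Matrix (Fin n) (Fin n) L) X = X → dlt p (β : Matrix (Fin n) (Fin n) L) Y = Y →
    (lnD p V X + lnD p V Y) % 2 = 0

/-- Module HYPL (from LINV, GCOL): the local term of the sum of two isometric representations. The
lattices `X ⊕ X^#` and `X ⊕ πX^#` in the coordinates `x - ψ⁻¹ y` and `(x + ψ⁻¹ y) / 2`. -/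
def StHypl : Prop :=
  ∀ (p : ℕ) [Fact p.Prime], p ≠ 2 → ∀ (L : Type) [NormedField L] [NormedAlgebra ℚ_[p] L]
    [FiniteDimensional ℚ_[p] L] (D : Type) [Group D] [TopologicalSpace D] [IsTopologicalGroup D]
    [CompactSpace D] [NonarchimedeanGroup D] (χ : D →* ℤ_[p]ˣ), Continuous χ →
    ∀ (inv : (D → D → QZ p) →+ QZ p), LocG p χ inv 0 →
    ∀ (τ : D →* D) (s : D) (a : ℤ_[p]ˣ), ConjL p χ inv τ s a →
    ∀ (n n' : ℕ) (V : D →* GL (Fin n) L) (V' : D →* GL (Fin n') L) (β : GL (Fin n) L)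
    (β' : GL (Fin n') L), Continuous V → NoInv V → FrmL χ τ s a V β → FrmL χ τ s a V' β' →
    ∀ (A : Matrix (Fin n') (Fin n) L) (A' : Matrix (Fin n) (Fin n') L), A' * A = 1 → A * A' = 1 →
    (∀ d, A * (V d : Matrix (Fin n) (Fin n) L) = (V' d : Matrix (Fin n') (Fin n') L) * A) →
    Aᵀ * (β' : Matrix (Fin n') (Fin n') L) * A = (β : Matrix (Fin n) (Fin n) L) →
    ∀ T N : AddSubgroup (Fin (n + n') → L), Lt (dsum V V') T → Lt (dsum V V') N →
    dlt p (blkG β (-β') : Matrix (Fin (n + n')) (Fin (n + n')) L) T = T →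
    dlt p (((pi0 p L : OO p L) : L)⁻¹ • (blkG β (-β') : Matrix (Fin (n + n')) (Fin (n + n')) L)) N =
      N →
    (lnD p (dsum V V') T + lnD p (dsum V V') N) % 2 = 0

/-- Module SQE (as RES): square roots of matrices over finite extensions. -/
def StSqe : Prop :=
  ∀ (p : ℕ) [Fact p.Prime] (L : Type) [NormedField L] [NormedAlgebra ℚ_[p] L]
    [FiniteDimensional ℚ_[p] L] (κ : Type) [Finite κ] (n : ℕ) (α : κ → GL (Fin n) L),
    ∃ (L₂ : Type) (_ : NormedField L₂) (_ : NormedAlgebra ℚ_[p] L₂)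
      (_ : FiniteDimensional ℚ_[p] L₂) (φ : L →ₐ[ℚ_[p]] L₂) (f : κ → Polynomial L₂),
      ∀ k, (Polynomial.aeval ((α k : Matrix (Fin n) (Fin n) L).map φ) (f k)) ^ 2 =
        (α k : Matrix (Fin n) (Fin n) L).map φ

/-- Module LNKL (from NPL, CNJ, NCR, NCJ, NLG): the decomposition group of a place above a prime
which does not split, with the conjugation. -/
def StLnkl : Prop :=
  ∀ (p l : ℕ) [Fact p.Prime] [Fact l.Prime], p ≠ 2 → l ≠ p → ∀ (F : Type) [Field F]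
    [NumberField F], Module.finrank ℚ F = 2 → IsEmpty (F →+* ℝ) → ¬ Splits F l →
    ∀ (c₀ : AlgebraicClosure F ≃+* AlgebraicClosure F) (cc : GF F →* GF F), CC0 c₀ cc →
    ∀ j : AlgebraicClosure F →+* PadicAlgCl l,
    ∃ (D : Subgroup (GQ l)) (r : D →* GF F) (inv : (D → D → QZ p) →+ QZ p) (τ : D →* D) (s : D)
      (h : GF F), IsOpen (D : Set (GQ l)) ∧ Continuous r ∧
      (∀ (g : GF F) (t : GQ l), (∀ z, j (g z) = t (j z)) ↔
        ∃ d : D, r d = g ∧ (d : GQ l) = t) ∧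
      (∀ d : D, cycF p F (r d) = cycL p l (d : GQ l)) ∧
      LocG p ((cycL p l).comp D.subtype) inv 0 ∧
      (∀ d, cc (r d) = h * r (τ d) * h⁻¹) ∧ cc h * h = (r s)⁻¹ ∧
      ConjL p ((cycL p l).comp D.subtype) inv τ s (cycF p F h)

/-! ### The theorem -/

/-- Module LOI (from LINV, LNKL, LEN, FXL; translation as MTL): the parity of the local term does
not depend on the lattices. -/
def StLoi : Prop :=
  ∀ (p : ℕ) [Fact p.Prime], p ≠ 2 → ∀ (F : Type) [Field F] [NumberField F],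
    Module.finrank ℚ F = 2 → IsEmpty (F →+* ℝ) →
    ∀ (c : AlgebraicClosure F ≃+* AlgebraicClosure F), BKS.IsConj c →
    ∀ (L : Type) [NormedField L] [NormedAlgebra ℚ_[p] L] [FiniteDimensional ℚ_[p] L] (n : ℕ)
    (V : BKS.Rep (GF F) L n) (B : Matrix (Fin n) (Fin n) L), BKS.IsRepU p V →
    BKS.IsPol p V c B → ∀ T N T' N' : AddSubgroup (Fin n → L),
    BKS.IsMet (BKS.vec V) (BKS.frm B) T N → BKS.IsMet (BKS.vec V) (BKS.frm B) T' N' →
    ∀ (l : ℕ) [Fact l.Prime] (j : BKS.Emb l F), l ≠ p → ¬ BKS.Split l F →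
      BKS.loc L (BKS.vec V) j T N % 2 = BKS.loc L (BKS.vec V) j T' N' % 2

/-- Module ISE (from SQE, LNKL, HYPL, LEN, FXL; translation as WQL): if the restrictions of `V` and
`V'` to decomposition groups are isomorphic, then they are isometric after an extension of scalars
(the two forms differ by a self-adjoint endomorphism, which has a square root that is a polynomial
in it), and the local terms for the sum are even. -/
def StIse : Prop :=
  ∀ (p : ℕ) [Fact p.Prime], p ≠ 2 → ∀ (F : Type) [Field F] [NumberField F],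
    Module.finrank ℚ F = 2 → IsEmpty (F →+* ℝ) →
    ∀ (c : AlgebraicClosure F ≃+* AlgebraicClosure F), BKS.IsConj c →
    ∀ (L : Type) [NormedField L] [NormedAlgebra ℚ_[p] L] [FiniteDimensional ℚ_[p] L] (n n' : ℕ)
    (V : BKS.Rep (GF F) L n) (V' : BKS.Rep (GF F) L n') (B : Matrix (Fin n) (Fin n) L)
    (B' : Matrix (Fin n') (Fin n') L), BKS.IsRepU p V → BKS.IsRepU p V' → BKS.IsPol p V c B →
    BKS.IsPol p V' c B' → ∀ (κ : Type) [Finite κ] (l : κ → ℕ) [∀ k, Fact (l k).Prime]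
    (j : ∀ k, BKS.Emb (l k) F), (∀ k, l k ≠ p) → (∀ k, ¬ BKS.Split (l k) F) →
    (∀ k, BKS.LocIso (l k) V V') →
    ∃ (L₀ : Type) (_ : NormedField L₀) (_ : NormedAlgebra ℚ_[p] L₀)
      (_ : FiniteDimensional ℚ_[p] L₀) (φ₀ : L →ₐ[ℚ_[p]] L₀),
      ∀ (L₂ : Type) [NormedField L₂] [NormedAlgebra ℚ_[p] L₂] [FiniteDimensional ℚ_[p] L₂]
        (φ : L₀ →ₐ[ℚ_[p]] L₂) (T N : AddSubgroup ((Fin n → L₂) × (Fin n' → L₂))),
        BKS.IsMet (BKS.vec2 (BKS.ext (φ : L₀ →+* L₂) (BKS.ext (φ₀ : L →+* L₀) V))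
            (BKS.ext (φ : L₀ →+* L₂) (BKS.ext (φ₀ : L →+* L₀) V')))
          (BKS.form ((B.map φ₀).map φ) ((B'.map φ₀).map φ)) T N →
        ∀ k, BKS.loc L₂ (BKS.vec2 (BKS.ext (φ : L₀ →+* L₂) (BKS.ext (φ₀ : L →+* L₀) V))
            (BKS.ext (φ : L₀ →+* L₂) (BKS.ext (φ₀ : L →+* L₀) V'))) (j k) T N % 2 = 0

/-- Module PWF (from PVF, LOI, ISE, BCH, BCT, BCC): **the theorem.** -/
def StPwf : Prop :=
  ∀ (p : ℕ) [Fact p.Prime] (F : Type) [Field F] [NumberField F], p ≠ 2 →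
    Module.finrank ℚ F = 2 → IsEmpty (F →+* ℝ) → BKS.Split p F → BKS.ParityW p F

end BKT
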