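import Pool.Agent.Lib.MP_7c08ba_nt.T1.StW
import Pool.Agent.Lib.MP_7c08ba_nt.BK.ClsX

set_option autoImplicit false

/-!
The parity theorem, final form. Statements.
-/

noncomputable section

namespace BKT

open NumberField BKGen BKMet
open Matrix

/-- Module LOP (as LOI, for a direct sum; from LINV, LNKL, LEN, FXL): the parity of the local term
does not depend on the lattices. -/
def StLop : Prop :=
  ∀ (p : ℕ) [Fact p.Prime], p ≠ 2 → ∀ (F : Type) [Field F] [NumberField F],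
    Module.finrank ℚ F = 2 → IsEmpty (F →+* ℝ) →
    ∀ (c : AlgebraicClosure F ≃+* AlgebraicClosure F), BKS.IsConj c →
    ∀ (L : Type) [NormedField L] [NormedAlgebra ℚ_[p] L] [FiniteDimensional ℚ_[p] L] (n n' : ℕ)
    (V : BKS.Rep (GF F) L n) (V' : BKS.Rep (GF F) L n') (B : Matrix (Fin n) (Fin n) L)
    (B' : Matrix (Fin n') (Fin n') L), BKS.IsRepU p V → BKS.IsRepU p V' → BKS.IsPol p V c B →
    BKS.IsPol p V' c B' → ∀ T N T' N' : AddSubgroup ((Fin n → L) × (Fin n' → L)),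
    BKS.IsMet (BKS.vec2 V V') (BKS.form B B') T N →
    BKS.IsMet (BKS.vec2 V V') (BKS.form B B') T' N' →
    ∀ (l : ℕ) [Fact l.Prime] (j : BKS.Emb l F), l ≠ p → ¬ BKS.Split l F →
      BKS.loc L (BKS.vec2 V V') j T N % 2 = BKS.loc L (BKS.vec2 V V') j T' N' % 2

/-- Module PXF (from PWF, LOP, BCC): **the theorem.** -/
def StPxf : Prop :=
  ∀ (p : ℕ) [Fact p.Prime] (F : Type) [Field F] [NumberField F], p ≠ 2 →
    Module.finrank ℚ F = 2 → IsEmpty (F →+* ℝ) → BKS.Split p F → BKS.ParityX p F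

end BKT
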