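import Pool.Agent.Lib.MP_7c08ba_nt.T1.StLoc

set_option autoImplicit false

/-!
Parity for general residual representations, part Y: global duality and the global Euler
characteristic for all finite modules. Statements.
-/

noncomputable section

namespace BKT

open BKPar (Loc1 Loc2)
open BKND (Sm)
open BKMet

/-! ### Good modules -/

/-- Module ANNT (from DUAL; as ANN): the image of `H¹(G, K)` in the local groups is the exact
annihilator of the image of `H¹(G, K')`; classes with conditions at the places outside `T`; the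
number of classes which are trivial at the places in `T`. -/
def StAnnT : Prop :=
  ∀ (p : ℕ) [Fact p.Prime] (S : Type) [Fintype S] (G : Type) [Group G] [TopologicalSpace G]
    [IsTopologicalGroup G] [CompactSpace G] (D : S → Type) [∀ w, Group (D w)]
    [∀ w, TopologicalSpace (D w)] [∀ w, IsTopologicalGroup (D w)] [∀ w, CompactSpace (D w)]
    (Γ : Glo S G D (QZ p) (QZ p)) (χ : G →* ℤ_[p]ˣ) (δ : S → ℕ), GAxT p Γ χ δ →
    ∀ (K K' : Type) [AddCommGroup K] [AddCommGroup K'] (Y : Pair ℤ Γ.α K K'), GoodP Γ Y →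
    (∀ (T : Set S) (b : ∀ w, D w → K), (∀ w, b w ∈ BKND.Z1 (Y.ρ.comp (Γ.r w))) →
      (∀ e ∈ BKND.Z1 Y.ρ', (∀ w ∉ T, pb1 (Γ.r w) e ∈ BKND.B1 (Y.ρ'.comp (Γ.r w))) →
        (∑ w, open Classical in if w ∈ T then
          Γ.inv w (cup11 Y.b (Y.ρ'.comp (Γ.r w)) (b w) (pb1 (Γ.r w) e)) else 0) = 0) →
      ∃ η ∈ BKND.Z1 Y.ρ, ∀ w ∈ T,
        pb1 (Γ.r w) η - b w ∈ BKND.B1 (Y.ρ.comp (Γ.r w))) ∧
    ∀ T : Set S, Finite {f : G → K | f ∈ BKND.Z1 Y.ρ} ∧
      Nat.card {f : G → K | f ∈ BKND.Z1 Y.ρ ∧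
          ∀ w ∈ T, pb1 (Γ.r w) f ∈ BKND.B1 (Y.ρ.comp (Γ.r w))} *
        Nat.card K ^ (∑ w, open Classical in if w ∈ T then δ w else 0) *
        ∏ w, (open Classical in if w ∈ T then Nat.card (BKND.H0 (Y.ρ.comp (Γ.r w))) else 1) =
      Nat.card {f : G → K' | f ∈ BKND.Z1 Y.ρ' ∧
          ∀ w ∉ T, pb1 (Γ.r w) f ∈ BKND.B1 (Y.ρ'.comp (Γ.r w))} *
        Nat.card K *
        ∏ w, (open Classical in if w ∈ T then 1 else Nat.card (BKND.H0 (Y.ρ'.comp (Γ.r w))))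

/-- Module LNAT (from ANNT, CT; as LINEA): the left kernel of the pairing for a good subquotient
`N / P`. -/
def StLnaT : Prop :=
  ∀ (p : ℕ) [Fact p.Prime] (S : Type) [Fintype S] (G : Type) [Group G] [TopologicalSpace G]
    [IsTopologicalGroup G] [CompactSpace G] (D : S → Type) [∀ w, Group (D w)]
    [∀ w, TopologicalSpace (D w)] [∀ w, IsTopologicalGroup (D w)] [∀ w, CompactSpace (D w)]
    (Γ : Glo S G D (QZ p) (QZ p)) (χ : G →* ℤ_[p]ˣ) (δ : S → ℕ), GAxT p Γ χ δ →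
    ∀ (M M' : Type) [AddCommGroup M] [AddCommGroup M'] [Finite M] (X : Pair ℤ Γ.α M M')
    (T : Set S), T.Nonempty → Tᶜ.Nonempty →
    ∀ P N Q : Submodule ℤ M, X.Stable P → X.Stable N → X.Stable Q → P ≤ N → N ≤ Q →
    ∀ (K K' : Type) [AddCommGroup K] [AddCommGroup K'] (Y : Pair ℤ Γ.α K K'), GoodP Γ Y →
    ∀ (φ : M → K) (φ' : M' → K'), IsQuo X P N Y φ φ' → LK Γ X T P N Q

/-- Module LNBT (from ANNT; as LINEB): the number of classes with values in a good subquotient. -/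
def StLnbT : Prop :=
  ∀ (p : ℕ) [Fact p.Prime] (S : Type) [Fintype S] (G : Type) [Group G] [TopologicalSpace G]
    [IsTopologicalGroup G] [CompactSpace G] (D : S → Type) [∀ w, Group (D w)]
    [∀ w, TopologicalSpace (D w)] [∀ w, IsTopologicalGroup (D w)] [∀ w, CompactSpace (D w)]
    (Γ : Glo S G D (QZ p) (QZ p)) (χ : G →* ℤ_[p]ˣ) (δ : S → ℕ), GAxT p Γ χ δ →
    ∀ (M M' : Type) [AddCommGroup M] [AddCommGroup M'] [Finite M] (X : Pair ℤ Γ.α M M')
    (T : Set S), T.Nonempty → Tᶜ.Nonempty →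
    ∀ P N : Submodule ℤ M, X.Stable P → X.Stable N → P ≤ N →
    ∀ (K K' : Type) [AddCommGroup K] [AddCommGroup K'] (Y : Pair ℤ Γ.α K K'), GoodP Γ Y →
    ∀ (φ : M → K) (φ' : M' → K'), IsQuo X P N Y φ φ' → EF Γ X T P N δ

/-- Module INDT (from CT, SWAP, PERP, EXACT, DUAL, LNAT, LNBT; as IND): the left kernel of the
pairing and the Euler characteristic for the members of a family of stable submodules with good
subquotients. -/
def StIndT : Prop :=
  ∀ (p : ℕ) [Fact p.Prime] (S : Type) [Fintype S] (G : Type) [Group G] [TopologicalSpace G]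
    [IsTopologicalGroup G] [CompactSpace G] (D : S → Type) [∀ w, Group (D w)]
    [∀ w, TopologicalSpace (D w)] [∀ w, IsTopologicalGroup (D w)] [∀ w, CompactSpace (D w)]
    (Γ : Glo S G D (QZ p) (QZ p)) (χ : G →* ℤ_[p]ˣ) (δ : S → ℕ), GAxT p Γ χ δ →
    ∀ (M M' : Type) [AddCommGroup M] [AddCommGroup M'] [Finite M] (X : Pair ℤ Γ.α M M')
    (𝓛 : Set (Submodule ℤ M)), (∀ P ∈ 𝓛, X.Stable P) →
    (∀ P ∈ 𝓛, ∀ Q ∈ 𝓛, P < Q → ∃ N ∈ 𝓛, P < N ∧ N ≤ Q ∧
      ∃ (K K' : Type) (_ : AddCommGroup K) (_ : AddCommGroup K') (Y : Pair ℤ Γ.α K K')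
        (φ : M → K) (φ' : M' → K'), GoodP Γ Y ∧ IsQuo X P N Y φ φ') →
    ∀ T : Set S, T.Nonempty → Tᶜ.Nonempty → ∀ P ∈ 𝓛, ∀ N ∈ 𝓛, ∀ Q ∈ 𝓛, P ≤ N → N ≤ Q →
      LK Γ X T P N Q ∧ EF Γ X T P Q δ

/-! ### Functions on `G / H` -/

/-- Module MAPP: the pair of the modules of functions on `G / H`. -/
def StMapP : Prop :=
  ∀ (p : ℕ) [Fact p.Prime] (G : Type) [Group G] [TopologicalSpace G] [IsTopologicalGroup G]
    [CompactSpace G] (α : G →* AddMonoid.End (QZ p)) (M M' : Type) [AddCommGroup M]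
    [AddCommGroup M'] [Finite M] (X : Pair ℤ α M M') (H : Subgroup G), IsOpen (H : Set G) →
    ∃ Z : Pair ℤ α (G ⧸ H → M) (G ⧸ H → M'), Z.ρ = mapA (G ⧸ H) X.ρ ∧
      Z.ρ' = mapA (G ⧸ H) X.ρ' ∧ ∀ f f', Z.b f f' = ∑ᶠ q : G ⧸ H, X.b (f q) (f' q)

/-- `Z` is the pair of the modules of functions on `G / H`. -/
structure IsMap {p : ℕ} [Fact p.Prime] {G : Type} [Group G] [TopologicalSpace G]
    {α : G →* AddMonoid.End (QZ p)} {M M' : Type} [AddCommGroup M] [AddCommGroup M']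
    (X : Pair ℤ α M M') (H : Subgroup G) (Z : Pair ℤ α (G ⧸ H → M) (G ⧸ H → M')) : Prop where
  act : Z.ρ = mapA (G ⧸ H) X.ρ
  act' : Z.ρ' = mapA (G ⧸ H) X.ρ'
  pair : ∀ f f', Z.b f f' = ∑ᶠ q : G ⧸ H, X.b (f q) (f' q)

/-- Module MAPS: the submodules `mapS`. -/
def StMapS : Prop :=
  ∀ (p : ℕ) [Fact p.Prime] (G : Type) [Group G] [TopologicalSpace G] [IsTopologicalGroup G]
    [CompactSpace G] (α : G →* AddMonoid.End (QZ p)) (M M' : Type) [AddCommGroup M]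
    [AddCommGroup M'] [Finite M] (X : Pair ℤ α M M') (H : Subgroup G), IsOpen (H : Set G) →
    ∀ Z : Pair ℤ α (G ⧸ H → M) (G ⧸ H → M'), IsMap X H Z →
    ∀ P : Submodule ℤ M, (∀ h ∈ H, ∀ x ∈ P, X.ρ h x ∈ P) →
    Z.Stable (mapS X.ρ H P) ∧ Z.perp (mapS X.ρ H P) = mapS X.ρ' H (X.perp P) ∧
    (∀ h ∈ H, ∀ x ∈ X.perp P, X.ρ' h x ∈ X.perp P) ∧
    (X.Stable P → ∀ f, f ∈ mapS X.ρ H P ↔ ∀ q, f q ∈ P) ∧
    ∀ N : Submodule ℤ M, (∀ h ∈ H, ∀ x ∈ N, X.ρ h x ∈ N) →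
      (P ≤ N ↔ mapS X.ρ H P ≤ mapS X.ρ H N)

/-- Module QUOI (from PAI, MAPS): the subquotients of the module of functions are induced from
characters of `H`. -/
def StQuoI : Prop :=
  ∀ (p : ℕ) [Fact p.Prime] (G : Type) [Group G] [TopologicalSpace G] [IsTopologicalGroup G]
    [CompactSpace G] (χ : G →* ℤ_[p]ˣ), Continuous χ → ∀ (M M' : Type) [AddCommGroup M]
    [AddCommGroup M'] [Finite M] (X : Pair ℤ (actA χ) M M') (H : Subgroup G),
    IsOpen (H : Set G) → ∀ Z : Pair ℤ (actA χ) (G ⧸ H → M) (G ⧸ H → M'), IsMap X H Z →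
    ∀ (P N : Submodule ℤ M) (k : Type) [Field k] [Finite k] [Algebra (ZMod p) k] (ψ ψ' : H →* kˣ)
    (lam : k →+ QZ p) (φ : M → k) (φ' : M' → k), lam ≠ 0 → IsLnA X H P N k ψ ψ' lam φ φ' →
    Rel (χ.comp H.subtype) ψ ψ' ∧ ∃ YI : Pair ℤ (actA χ) (IndM H (kch ψ)) (IndM H (kch ψ')),
      YI.ρ = indM H (kch ψ) ∧ YI.ρ' = indM H (kch ψ') ∧
      ∃ (Φ : (G ⧸ H → M) → IndM H (kch ψ)) (Φ' : (G ⧸ H → M') → IndM H (kch ψ')),
        IsQuo Z (mapS X.ρ H P) (mapS X.ρ H N) YI Φ Φ'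

/-- Module GDI: the modules induced from characters are good. -/
def StGdi : Prop :=
  ∀ (p : ℕ) [Fact p.Prime] (S : Type) [Fintype S] (G : Type) [Group G] [TopologicalSpace G]
    [IsTopologicalGroup G] [CompactSpace G] (D : S → Type) [∀ w, Group (D w)]
    [∀ w, TopologicalSpace (D w)] (Γ : Glo S G D (QZ p) (QZ p)) (χ : G →* ℤ_[p]ˣ)
    (U : Subgroup G), IsOpen (U : Set G) → GlobI p Γ.r χ U → ∀ A A' : Subgroup G,
    Adm p U A A' → ∀ (k : Type) [Field k] [Finite k] [Algebra (ZMod p) k] (ψ ψ' : A →* kˣ),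
    (∀ a : A, (a : G) ∈ A' → ψ a = 1) → (∀ a : A, (a : G) ∈ A' → ψ' a = 1) →
    Rel (χ.comp A.subtype) ψ ψ' →
    ∀ Y : Pair ℤ Γ.α (IndM A (kch ψ)) (IndM A (kch ψ')), Y.ρ = indM A (kch ψ) →
      Y.ρ' = indM A (kch ψ') → GoodP Γ Y

/-- Module RED: the left kernel of the pairing for `M` from that for the functions on `G / H`, if
the index of `H` is prime to `p`. -/
def StRed : Prop :=
  ∀ (p : ℕ) [Fact p.Prime] (S : Type) [Fintype S] (G : Type) [Group G] [TopologicalSpace G]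
    [IsTopologicalGroup G] [CompactSpace G] (D : S → Type) [∀ w, Group (D w)]
    [∀ w, TopologicalSpace (D w)] (Γ : Glo S G D (QZ p) (QZ p)) (M M' : Type) [AddCommGroup M]
    [AddCommGroup M'] [Finite M] (X : Pair ℤ Γ.α M M') (H : Subgroup G), IsOpen (H : Set G) →
    ¬ p ∣ H.index → ∀ Z : Pair ℤ Γ.α (G ⧸ H → M) (G ⧸ H → M'), IsMap X H Z → ∀ (T : Set S)
    (P N Q : Submodule ℤ M), X.Stable P → X.Stable N → X.Stable Q → P ≤ N → N ≤ Q →
    LK Γ Z T (mapS X.ρ H P) (mapS X.ρ H N) (mapS X.ρ H Q) → LK Γ X T P N Q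

/-! ### All finite modules -/

/-- The global situation: `U` is an open normal subgroup on which `χ` is trivial modulo `p`, with the
theorems for the modules induced from characters of the subgroups which contain `U`. -/
structure SitY (p : ℕ) [Fact p.Prime] {S : Type} [Fintype S] {G : Type} [Group G]
    [TopologicalSpace G] {D : S → Type} [∀ w, Group (D w)] [∀ w, TopologicalSpace (D w)]
    (Γ : Glo S G D (QZ p) (QZ p)) (χ : G →* ℤ_[p]ˣ) (δ : S → ℕ) (U : Subgroup G) : Prop where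
  ax : GAxT p Γ χ δ
  cont : Continuous χ
  normal : U.Normal
  open' : IsOpen (U : Set G)
  fix : ∀ u ∈ U, PadicInt.toZMod ((χ u : ℤ_[p]ˣ) : ℤ_[p]) = 1
  glob : GlobI p Γ.r χ U

/-- Module LKT (from SYG, LNZ, MAPP, MAPS, QUOI, GDI, INDT, RED): **global duality for all finite
modules.** -/
def StLkT : Prop :=
  ∀ (p : ℕ) [Fact p.Prime] (S : Type) [Fintype S] (G : Type) [Group G] [TopologicalSpace G]
    [IsTopologicalGroup G] [CompactSpace G] (D : S → Type) [∀ w, Group (D w)]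
    [∀ w, TopologicalSpace (D w)] [∀ w, IsTopologicalGroup (D w)] [∀ w, CompactSpace (D w)]
    (Γ : Glo S G D (QZ p) (QZ p)) (χ : G →* ℤ_[p]ˣ) (δ : S → ℕ) (U : Subgroup G),
    SitY p Γ χ δ U →
    ∀ (M M' : Type) [AddCommGroup M] [AddCommGroup M'] [Finite M] (X : Pair ℤ Γ.α M M'),
    PGr p X.ρ U → ∀ T : Set S, T.Nonempty → Tᶜ.Nonempty →
    ∀ P N Q : Submodule ℤ M, X.Stable P → X.Stable N → X.Stable Q → P ≤ N → N ≤ Q →
    LK Γ X T P N Q

/-- Module GFN (from LSH): the groups `H¹_T` are finite. -/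
def StGfn : Prop :=
  ∀ (p : ℕ) [Fact p.Prime] (S : Type) [Fintype S] (G : Type) [Group G] [TopologicalSpace G]
    [IsTopologicalGroup G] [CompactSpace G] (D : S → Type) [∀ w, Group (D w)]
    [∀ w, TopologicalSpace (D w)] (Γ : Glo S G D (QZ p) (QZ p)) (χ : G →* ℤ_[p]ˣ) (δ : S → ℕ)
    (U : Subgroup G), SitY p Γ χ δ U →
    ∀ (M M' : Type) [AddCommGroup M] [AddCommGroup M'] [Finite M] (X : Pair ℤ Γ.α M M'),
    PGr p X.ρ U → ∀ T : Set S, T.Nonempty →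
    ∀ P Q : Submodule ℤ M, X.Stable P → X.Stable Q → P ≤ Q → hT Γ X T P Q ≠ 0

/-- Module CNT (from CT, SWAP, PERP, EXACT, DUAL): the numbers of classes for `P ≤ N ≤ Q`. -/
def StCnt : Prop :=
  ∀ (p : ℕ) [Fact p.Prime] (S : Type) [Fintype S] (G : Type) [Group G] [TopologicalSpace G]
    [IsTopologicalGroup G] [CompactSpace G] (D : S → Type) [∀ w, Group (D w)]
    [∀ w, TopologicalSpace (D w)] (Γ : Glo S G D (QZ p) (QZ p)) (M M' : Type) [AddCommGroup M]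
    [AddCommGroup M'] [Finite M] (X : Pair ℤ Γ.α M M') (T : Set S), T.Nonempty → Tᶜ.Nonempty →
    ∀ P N Q : Submodule ℤ M, X.Stable P → X.Stable N → X.Stable Q → P ≤ N → N ≤ Q →
    LK Γ X T P N Q → LK Γ X.flip Tᶜ (X.perp Q) (X.perp N) (X.perp P) →
    hT Γ X T P N ≠ 0 → hT Γ X T N Q ≠ 0 → hT Γ X.flip Tᶜ (X.perp Q) (X.perp N) ≠ 0 →
    hT Γ X.flip Tᶜ (X.perp N) (X.perp P) ≠ 0 →
    hT Γ X T P Q ≠ 0 ∧ hT Γ X.flip Tᶜ (X.perp Q) (X.perp P) ≠ 0 ∧
    hT Γ X T P Q * (hT Γ X.flip Tᶜ (X.perp Q) (X.perp N) *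
        hT Γ X.flip Tᶜ (X.perp N) (X.perp P)) =
      hT Γ X T P N * hT Γ X T N Q * hT Γ X.flip Tᶜ (X.perp Q) (X.perp P)

/-- Module ISO: the numbers of classes depend only on the subquotient. -/
def StIso : Prop :=
  ∀ (p : ℕ) [Fact p.Prime] (S : Type) [Fintype S] (G : Type) [Group G] [TopologicalSpace G]
    [IsTopologicalGroup G] [CompactSpace G] (D : S → Type) [∀ w, Group (D w)]
    [∀ w, TopologicalSpace (D w)] (Γ : Glo S G D (QZ p) (QZ p)) (M M' : Type) [AddCommGroup M]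
    [AddCommGroup M'] [Finite M] (X : Pair ℤ Γ.α M M') (T : Set S) (P N : Submodule ℤ M),
    X.Stable P → X.Stable N → P ≤ N → ∀ (K K' : Type) [AddCommGroup K] [AddCommGroup K']
    (Y : Pair ℤ Γ.α K K') (φ : M → K) (φ' : M' → K'), IsQuo X P N Y φ φ' →
    hT Γ X T P N = hT Γ Y T ⊥ ⊤ ∧
    hT Γ X.flip T (X.perp N) (X.perp P) = hT Γ Y.flip T ⊥ ⊤ ∧
    P.toAddSubgroup.relIndex N.toAddSubgroup = Nat.card K

/-- Module QUOP: every subquotient is isomorphic to the first module of a pair. -/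
def StQuoP : Prop :=
  ∀ (p : ℕ) [Fact p.Prime] (G : Type) [Group G] [TopologicalSpace G] [IsTopologicalGroup G]
    [CompactSpace G] (α : G →* AddMonoid.End (QZ p)) (M M' : Type) [AddCommGroup M]
    [AddCommGroup M'] [Finite M] (X : Pair ℤ α M M') (P N : Submodule ℤ M), X.Stable P →
    X.Stable N → P ≤ N →
    ∃ (K K' : Type) (_ : AddCommGroup K) (_ : AddCommGroup K') (Y : Pair ℤ α K K') (φ : M → K)
      (φ' : M' → K'), Finite K ∧ IsQuo X P N Y φ φ' ∧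
      (∀ g, (∀ x ∈ N, X.ρ g x - x ∈ P) → Y.ρ g = 1) ∧ ∀ m : ℕ, (∀ x ∈ N, m • x ∈ P) →
        ∀ a : K, m • a = 0

/-- Module EFM (from ART, LKT, CNT, ISO, GFN, QUOP, LNBT, LSH, PAI, GDI, DUP): the Euler
characteristic for modules killed by `p` on which `U` acts trivially. -/
def StEfM : Prop :=
  ∀ (p : ℕ) [Fact p.Prime] (S : Type) [Fintype S] (G : Type) [Group G] [TopologicalSpace G]
    [IsTopologicalGroup G] [CompactSpace G] (D : S → Type) [∀ w, Group (D w)]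
    [∀ w, TopologicalSpace (D w)] [∀ w, IsTopologicalGroup (D w)] [∀ w, CompactSpace (D w)]
    (Γ : Glo S G D (QZ p) (QZ p)) (χ : G →* ℤ_[p]ˣ) (δ : S → ℕ) (U : Subgroup G),
    SitY p Γ χ δ U →
    ∀ (M M' : Type) [AddCommGroup M] [AddCommGroup M'] [Finite M] (X : Pair ℤ Γ.α M M'),
    (∀ m : M, p • m = 0) → (∀ u ∈ U, X.ρ u = 1) → ∀ T : Set S, T.Nonempty → Tᶜ.Nonempty →
    EF Γ X T ⊥ ⊤ δ

/-- Module EFT (from EFM, LKT, CNT, ISO, GFN, QUOP): **the Euler characteristic for all finite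
modules.** -/
def StEfT : Prop :=
  ∀ (p : ℕ) [Fact p.Prime] (S : Type) [Fintype S] (G : Type) [Group G] [TopologicalSpace G]
    [IsTopologicalGroup G] [CompactSpace G] (D : S → Type) [∀ w, Group (D w)]
    [∀ w, TopologicalSpace (D w)] [∀ w, IsTopologicalGroup (D w)] [∀ w, CompactSpace (D w)]
    (Γ : Glo S G D (QZ p) (QZ p)) (χ : G →* ℤ_[p]ˣ) (δ : S → ℕ) (U : Subgroup G),
    SitY p Γ χ δ U →
    ∀ (M M' : Type) [AddCommGroup M] [AddCommGroup M'] [Finite M] (X : Pair ℤ Γ.α M M'),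
    PGr p X.ρ U → ∀ T : Set S, T.Nonempty → Tᶜ.Nonempty →
    ∀ P Q : Submodule ℤ M, X.Stable P → X.Stable Q → P ≤ Q → EF Γ X T P Q δ

/-! ### Modules over a ring `R` -/

/-- Module FRG: forget the ring. -/
def StFrg : Prop :=
  ∀ (R : Type) [CommRing R] (p : ℕ) [Fact p.Prime] (S : Type) [Fintype S] (G : Type) [Group G]
    [TopologicalSpace G] [IsTopologicalGroup G] [CompactSpace G] (D : S → Type)
    [∀ w, Group (D w)] [∀ w, TopologicalSpace (D w)] (Γ : Glo S G D (QZ p) (QZ p))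
    (M M' : Type) [AddCommGroup M] [Module R M] [AddCommGroup M'] [Module R M'] [Finite M]
    (X : Pair R Γ.α M M'), ∃ Xz : Pair ℤ Γ.α M M', Xz.ρ = X.ρ ∧ Xz.ρ' = X.ρ' ∧
      (∀ m m', Xz.b m m' = X.b m m') ∧
      ∀ P : Submodule R M, Xz.perp (P.restrictScalars ℤ) = (X.perp P).restrictScalars ℤ ∧
      (X.Stable P → Xz.Stable (P.restrictScalars ℤ)) ∧
      ∀ (T : Set S) (δ : S → ℕ) (N Q : Submodule R M),
        (LK Γ Xz T (P.restrictScalars ℤ) (N.restrictScalars ℤ) (Q.restrictScalars ℤ) →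
          LK Γ X T P N Q) ∧
        (EF Γ Xz T (P.restrictScalars ℤ) (Q.restrictScalars ℤ) δ → EF Γ X T P Q δ)

/-- Module YR (from FRG, LKT, EFT): global duality and the Euler characteristic for modules over a
ring `R`. -/
def StYR : Prop :=
  ∀ (R : Type) [CommRing R] (p : ℕ) [Fact p.Prime] (S : Type) [Fintype S] (G : Type) [Group G]
    [TopologicalSpace G] [IsTopologicalGroup G] [CompactSpace G] (D : S → Type)
    [∀ w, Group (D w)] [∀ w, TopologicalSpace (D w)] [∀ w, IsTopologicalGroup (D w)]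
    [∀ w, CompactSpace (D w)] (Γ : Glo S G D (QZ p) (QZ p)) (χ : G →* ℤ_[p]ˣ) (δ : S → ℕ)
    (U : Subgroup G), SitY p Γ χ δ U →
    ∀ (M M' : Type) [AddCommGroup M] [Module R M] [AddCommGroup M'] [Module R M'] [Finite M]
    (X : Pair R Γ.α M M'), PGr p X.ρ U → ∀ T : Set S, T.Nonempty → Tᶜ.Nonempty →
    ∀ P N Q : Submodule R M, X.Stable P → X.Stable N → X.Stable Q → P ≤ N → N ≤ Q →
    LK Γ X T P N Q ∧ EF Γ X T P Q δ

/-- Module SDT (from YR, SWAP, ALT, EXACT, PERP, CT; as SD): the order of the cohomology of a module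
with a symmetric form with respect to the conjugation `c` and a stable Lagrangian submodule `N` is
an even power. -/
def StSDT : Prop :=
  ∀ (R : Type) [CommRing R] [IsLocalRing R] [Finite (IsLocalRing.ResidueField R)]
    (p : ℕ) [Fact p.Prime], p ≠ 2 → ∀ (_ : Algebra (ZMod p) (IsLocalRing.ResidueField R))
    (ι : Type) [Fintype ι] (G : Type) [Group G]
    [TopologicalSpace G] [IsTopologicalGroup G] [CompactSpace G] (D : ι → Type)
    [∀ i, Group (D i)] [∀ i, TopologicalSpace (D i)] [∀ i, IsTopologicalGroup (D i)]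
    [∀ i, CompactSpace (D i)] (r : ∀ i, D i →* G) (c : G →* G), Continuous c →
    (∀ g, c (c g) = g) → ∀ (Γ : Glo (ι × Bool) G (DD D) (QZ p) (QZ p)),
    (∀ w, Γ.r w = rr r c w) → (∀ i, ∀ z, Γ.inv (i, true) z = - Γ.inv (i, false) z) →
    (∀ a β, Γ.tr (cc3 c a, swp (Y := fun i => D i → D i → QZ p) β) = - Γ.tr (a, β)) →
    ∀ (χ : G →* ℤ_[p]ˣ), (∀ g, χ (c g) = χ g) → ∀ (U : Subgroup G) (δ : ι × Bool → ℕ),
    SitY p Γ χ δ U → (∀ i, δ (i, true) = δ (i, false)) → ∑ i, δ (i, false) = 1 →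
    ∀ (M : Type) [AddCommGroup M] [Module R M] [Finite M] (X : Pair R Γ.α M M),
    X.ρ' = X.ρ.comp c → (∀ m m', X.b m m' = X.b m' m) → PGr p X.ρ U →
    ∀ N : Submodule R M, X.Stable N → X.perp N = N →
    ∃ m : ℕ, (X.Br {w | w.2 = false} ⊥ ⊤).toAddSubgroup.relIndex
      (X.Zr Γ.r {w | w.2 = false} ⊥ ⊤).toAddSubgroup =
        Nat.card (IsLocalRing.ResidueField R) ^ (2 * m)

end BKT
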