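import Pool.Agent.Lib.MP_7c08ba_nt.T1.StX
import Pool.Agent.Lib.MP_7c08ba_nt.BK.ClsY

set_option autoImplicit false

/-!
The parity theorem: the criterion in terms of the semisimplification of the residual
representation. Statements.
-/

noncomputable section

namespace BKT

open NumberField BKGen BKMet
open Matrix

/-- Module DLT (from MUL): multiplicities in dual modules of self-dual simple modules. -/
def StDlt : Prop :=
  ∀ (K : Type) [Field K] (R : Type) [Ring R] [Algebra K R] (s : R → R)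
    (M M' : Type) [AddCommGroup M] [Module K M] [Module R M] [IsScalarTower K R M]
    [FiniteDimensional K M] [AddCommGroup M'] [Module K M'] [Module R M'] [IsScalarTower K R M']
    [FiniteDimensional K M'] (f : M →ₗ[K] M' →ₗ[K] K), (∀ x, (∀ y, f x y = 0) → x = 0) →
    (∀ y, (∀ x, f x y = 0) → y = 0) → (∀ (r : R) x y, f (r • x) y = f x (s r • y)) →
    (∀ (r : R) x y, f (s r • x) y = f x (r • y)) →
    ∀ (S : Type) [AddCommGroup S] [Module K S] [Module R S] [IsScalarTower K R S]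
      [FiniteDimensional K S] [IsSimpleModule R S] (h : S →ₗ[K] S →ₗ[K] K), AdF s h →
      mlt R M S = mlt R M' S

/-- Module WITH (from LAGA, BNT, MUL, DLT; as WIT): the sum of two representations with forms over
an algebraically closed field has a Lagrangian subspace if its semisimplification is the one of
`U ⊕ U^*`. -/
def StWitH : Prop :=
  ∀ (p : ℕ) [Fact p.Prime], p ≠ 2 → ∀ (K : Type) [Field K] [IsAlgClosed K] [CharP K p]
    (G : Type) [Group G] (c : G →* G), (∀ g, c (c g) = g) → ∀ x : G → K, (∀ g, x g ≠ 0) →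
    (∀ g h, x (g * h) = x g * x h) → (∀ g, x (c g) = x g) →
    ∀ (n n' m : ℕ) (τ : G →* GL (Fin n) K) (τ' : G →* GL (Fin n') K) (u : G →* GL (Fin m) K)
    (D : Matrix (Fin n) (Fin n) K) (D' : Matrix (Fin n') (Fin n') K),
    Dᵀ = D → D'ᵀ = D' → IsUnit D.det → IsUnit D'.det →
    (∀ g, (τ g : Matrix (Fin n) (Fin n) K)ᵀ * D * (τ (c g) : Matrix (Fin n) (Fin n) K) =
      x g • D) →
    (∀ g, (τ' g : Matrix (Fin n') (Fin n') K)ᵀ * D' * (τ' (c g) : Matrix (Fin n') (Fin n') K) =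
      x g • D') →
    (∀ g, (τ g : Matrix (Fin n) (Fin n) K).charpoly *
        (τ' g : Matrix (Fin n') (Fin n') K).charpoly =
      (u g : Matrix (Fin m) (Fin m) K).charpoly *
        (x g • (u (c g)⁻¹ : Matrix (Fin m) (Fin m) K)ᵀ).charpoly) →
    ∃ P : Submodule K ((Fin n → K) × (Fin n' → K)),
      (∀ g, ∀ y ∈ P, ((τ g : Matrix (Fin n) (Fin n) K) *ᵥ y.1,
        (τ' g : Matrix (Fin n') (Fin n') K) *ᵥ y.2) ∈ P) ∧
      ∀ y, y ∈ P ↔ ∀ z ∈ P, z.1 ⬝ᵥ (D *ᵥ y.1) - z.2 ⬝ᵥ (D' *ᵥ y.2) = 0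

/-- Module CNH (from RES, NRM, TAU, WITH, XLT; as CNG): the lattices over an extension. -/
def StCnh : Prop :=
  ∀ (p : ℕ) [Fact p.Prime], p ≠ 2 → ∀ (F : Type) [Field F] (L : Type) [NormedField L]
    [NormedAlgebra ℚ_[p] L] [FiniteDimensional ℚ_[p] L] (n n' : ℕ) (V : GF F →* GL (Fin n) L)
    (V' : GF F →* GL (Fin n') L) (B A : GL (Fin n) L) (B' A' : GL (Fin n') L)
    (ρ : GF F →* GL (Fin n) (OO p L)) (ρ' : GF F →* GL (Fin n') (OO p L)),
    (∀ g, toL p L n (ρ g) = A * V g * A⁻¹) → (∀ g, toL p L n' (ρ' g) = A' * V' g * A'⁻¹) →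
    ∀ c : GF F →* GF F, (∀ g, c (c g) = g) → ∀ χ : GF F →* ℤ_[p]ˣ, (∀ g, χ (c g) = χ g) →
    (B : Matrix (Fin n) (Fin n) L)ᵀ = B → (B' : Matrix (Fin n') (Fin n') L)ᵀ = B' →
    IsDual χ V (V.comp c) (B : Matrix (Fin n) (Fin n) L) →
    IsDual χ V' (V'.comp c) (B' : Matrix (Fin n') (Fin n') L) →
    ∀ (m : ℕ) (U : GF F → Matrix (Fin m) (Fin m) L), BKS.IsResRep U →
    (∀ (g : GF F) (i : ℕ), ‖((V g : Matrix (Fin n) (Fin n) L).charpoly *
        (V' g : Matrix (Fin n') (Fin n') L).charpoly -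
      (U g).charpoly * (BKOdd.chL χ L g • (U (c g)⁻¹)ᵀ).charpoly).coeff i‖ < 1) →
    ∃ (L₂ : Type) (_ : NormedField L₂) (_ : NormedAlgebra ℚ_[p] L₂)
      (_ : FiniteDimensional ℚ_[p] L₂) (φ : L →ₐ[ℚ_[p]] L₂)
      (T N : AddSubgroup ((Fin n → L₂) × (Fin n' → L₂))),
      BKS.IsMet (BKS.vec2 (BKS.ext (φ : L →+* L₂) V) (BKS.ext (φ : L →+* L₂) V'))
        (BKS.form ((B : Matrix (Fin n) (Fin n) L).map φ)
          ((B' : Matrix (Fin n') (Fin n') L).map φ)) T N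

/-- Module PYF (from PXF, CNH, ISE, LTX, BCH, BCT, BCC; as PWF and PXF): **the theorem.** -/
def StPyf : Prop :=
  ∀ (p : ℕ) [Fact p.Prime] (F : Type) [Field F] [NumberField F], p ≠ 2 →
    Module.finrank ℚ F = 2 → IsEmpty (F →+* ℝ) → BKS.Split p F → BKS.ParityY p F

end BKT
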