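import Pool.Agent.Lib.MP_7c08ba_nt.T1.StW
import Pool.Agent.Lib.MP_7c08ba_nt.T1.UMTL
import Pool.Agent.Lib.MP_7c08ba_nt.T1.UWQL
import Pool.Agent.Lib.MP_7c08ba_nt.T1.HLATM
import Pool.Agent.Lib.MP_7c08ba_nt.T1.VBCC
import Pool.Agent.Lib.MP_7c08ba_nt.T1.VPVF

set_option autoImplicit false

/-!
Parity for congruent representations, module ISE: locally isomorphic representations are isometric
after an extension of scalars, and the local terms for the sum are even.
-/

noncomputable section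

namespace BKT

open NumberField BKGen BKMet
open BKGlob2 (CC0)
open Matrix

namespace WISE

/-! ### Square roots and isometries -/

section Alg

variable {K : Type} [Field K] {n n' : ℕ}

/-- polynomials in an endomorphism commute with the endomorphisms which commute with it -/
theorem aeval_comm {M N : Matrix (Fin n) (Fin n) K} (h : M * N = N * M) (f : Polynomial K) :
    Polynomial.aeval M f * N = N * Polynomial.aeval M f := by
  have h1 : Commute (Polynomial.aeval M f) N := by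
    induction f using Polynomial.induction_on' with
    | add p q hp hq =>
      rw [map_add]
      exact hp.add_left hq
    | monomial k a =>
      rw [Polynomial.aeval_monomial]
      exact (Algebra.commute_algebraMap_left a N).mul_left (Commute.pow_left h k)
  exact h1

/-- polynomials in a self-adjoint endomorphism are self-adjoint -/
theorem aeval_adj {M β : Matrix (Fin n) (Fin n) K} (h : Mᵀ * β = β * M) (f : Polynomial K) :
    (Polynomial.aeval M f)ᵀ * β = β * Polynomial.aeval M f := by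
  induction f using Polynomial.induction_on' with
  | add p q hp hq =>
    rw [map_add, Matrix.transpose_add, Matrix.add_mul, Matrix.mul_add, hp, hq]
  | monomial k a =>
    have hk : (M ^ k)ᵀ * β = β * M ^ k := by
      induction k with
      | zero => rw [pow_zero, Matrix.transpose_one, Matrix.one_mul, Matrix.mul_one]
      | succ k ih =>
        rw [pow_succ, Matrix.transpose_mul, Matrix.mul_assoc, ih, ← Matrix.mul_assoc, h,
          Matrix.mul_assoc, ← pow_succ', ← pow_succ]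
    rw [Polynomial.aeval_monomial, Matrix.algebraMap_eq_diagonal]
    have hd : (Matrix.diagonal ((algebraMap K (Fin n → K)) a) : Matrix (Fin n) (Fin n) K) =
        a • (1 : Matrix (Fin n) (Fin n) K) := by
      ext i j
      rw [Matrix.smul_apply, Matrix.diagonal_apply, Matrix.one_apply]
      split_ifs with hij
      · simp
      · simp
    rw [hd, Matrix.smul_mul, Matrix.one_mul, Matrix.transpose_smul, Matrix.smul_mul, hk,
      Matrix.mul_smul]

/-- **The isometry**: `A` intertwines, `α = β⁻¹ Aᵀ β' A` is self-adjoint and is the square of a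
polynomial in `α`. -/
theorem isometry (β : GL (Fin n) K) (β' : Matrix (Fin n') (Fin n') K)
    (A : Matrix (Fin n') (Fin n) K) (A' : Matrix (Fin n) (Fin n') K) (h1 : A' * A = 1)
    (h2 : A * A' = 1) (α : GL (Fin n) K)
    (hα : (β : Matrix (Fin n) (Fin n) K) * (α : Matrix (Fin n) (Fin n) K) = Aᵀ * β' * A)
    (hadj : (α : Matrix (Fin n) (Fin n) K)ᵀ * (β : Matrix (Fin n) (Fin n) K) =
      (β : Matrix (Fin n) (Fin n) K) * (α : Matrix (Fin n) (Fin n) K)) (f : Polynomial K)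
    (hf : (Polynomial.aeval (α : Matrix (Fin n) (Fin n) K) f) ^ 2 =
      (α : Matrix (Fin n) (Fin n) K)) :
    ∃ (C : Matrix (Fin n') (Fin n) K) (C' : Matrix (Fin n) (Fin n') K), C' * C = 1 ∧
      C * C' = 1 ∧ Cᵀ * β' * C = (β : Matrix (Fin n) (Fin n) K) ∧
      ∀ (v : Matrix (Fin n) (Fin n) K) (v' : Matrix (Fin n') (Fin n') K), A * v = v' * A →
        (α : Matrix (Fin n) (Fin n) K) * v = v * (α : Matrix (Fin n) (Fin n) K) →
        C * v = v' * C := by
  obtain ⟨g, hg⟩ : ∃ g, g = Polynomial.aeval (α : Matrix (Fin n) (Fin n) K) f := ⟨_, rfl⟩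
  have hg2 : g * g = (α : Matrix (Fin n) (Fin n) K) := by
    rw [← hf, hg, pow_two]
  have hgα : g * (α : Matrix (Fin n) (Fin n) K) = (α : Matrix (Fin n) (Fin n) K) * g := by
    rw [hg]
    exact aeval_comm rfl f
  have hgβ : gᵀ * (β : Matrix (Fin n) (Fin n) K) = (β : Matrix (Fin n) (Fin n) K) * g := by
    rw [hg]
    exact aeval_adj hadj f
  obtain ⟨ai, hai⟩ : ∃ ai, ai = ((α⁻¹ : GL (Fin n) K) : Matrix (Fin n) (Fin n) K) := ⟨_, rfl⟩
  have ha1 : (α : Matrix (Fin n) (Fin n) K) * ai = 1 := by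
    rw [hai, ← Units.val_mul, mul_inv_cancel, Units.val_one]
  have ha2 : ai * (α : Matrix (Fin n) (Fin n) K) = 1 := by
    rw [hai, ← Units.val_mul, inv_mul_cancel, Units.val_one]
  -- the inverse of the square root
  have hi1 : (ai * g) * g = 1 := by
    rw [Matrix.mul_assoc, hg2, ha2]
  have hi2 : g * (ai * g) = 1 := by
    rw [← Matrix.mul_assoc]
    have e : g * ai = ai * g := by
      calc g * ai = (ai * (α : Matrix (Fin n) (Fin n) K)) * (g * ai) := by
            rw [ha2, Matrix.one_mul]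
        _ = ai * (g * (α : Matrix (Fin n) (Fin n) K)) * ai := by
            rw [hgα]
            simp only [Matrix.mul_assoc]
        _ = ai * g := by
            rw [Matrix.mul_assoc, Matrix.mul_assoc, ha1, Matrix.mul_one]
    rw [e, Matrix.mul_assoc, hg2, ha2]
  obtain ⟨gi, hgi⟩ : ∃ gi, gi = ai * g := ⟨_, rfl⟩
  rw [← hgi] at hi1 hi2
  refine ⟨A * gi, g * A', ?_, ?_, ?_, ?_⟩
  · rw [Matrix.mul_assoc, ← Matrix.mul_assoc A', h1, Matrix.one_mul, hi2]
  · rw [Matrix.mul_assoc, ← Matrix.mul_assoc gi, hi1, Matrix.one_mul, h2]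
  · have e1 : (A * gi)ᵀ * β' * (A * gi) = giᵀ * (Aᵀ * β' * A) * gi := by
      rw [Matrix.transpose_mul]
      simp only [Matrix.mul_assoc]
    have e2 : giᵀ * gᵀ = 1 := by
      rw [← Matrix.transpose_mul, hi2, Matrix.transpose_one]
    calc (A * gi)ᵀ * β' * (A * gi) =
          giᵀ * ((β : Matrix (Fin n) (Fin n) K) * (g * g)) * gi := by
          rw [e1, ← hα, hg2]
      _ = giᵀ * (((β : Matrix (Fin n) (Fin n) K) * g) * (g * gi)) := by
          simp only [Matrix.mul_assoc]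
      _ = (giᵀ * gᵀ) * (β : Matrix (Fin n) (Fin n) K) := by
          rw [← hgβ, hi2, Matrix.mul_one, Matrix.mul_assoc]
      _ = (β : Matrix (Fin n) (Fin n) K) := by
          rw [e2, Matrix.one_mul]
  · intro v v' hv hc
    have hgv : g * v = v * g := by
      rw [hg]
      exact aeval_comm hc f
    have hgiv : gi * v = v * gi := by
      calc gi * v = gi * (v * (g * gi)) := by rw [hi2, Matrix.mul_one]
        _ = gi * (g * v) * gi := by
            rw [hgv]
            simp only [Matrix.mul_assoc]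
        _ = v * gi := by
            rw [← Matrix.mul_assoc gi, hi1, Matrix.one_mul]
    rw [Matrix.mul_assoc, hgiv, ← Matrix.mul_assoc, hv, Matrix.mul_assoc]

end Alg

/-! ### The forms -/

section Frm

variable {p : ℕ} [Fact p.Prime] {L : Type} [NormedField L] [NormedAlgebra ℚ_[p] L] {n n' : ℕ}

theorem uL_eq {G : Type} [Group G] (χ : G →* ℤ_[p]ˣ) (g : G) :
    uL L (χ g) = BKOdd.chL χ L g := rfl

/-- the form of the decomposition group of a place which is fixed by the conjugation -/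
theorem frmL {G D : Type} [Group G] [Group D] {χG : G →* ℤ_[p]ˣ} {c : G →* G}
    {V : G →* GL (Fin n) L} {B : GL (Fin n) L} (hB : (B : Matrix (Fin n) (Fin n) L)ᵀ = B)
    (hd : IsDual χG V (V.comp c) (B : Matrix (Fin n) (Fin n) L)) {χ : D →* ℤ_[p]ˣ}
    {r : D →* G} {τ : D →* D} {s : D} {h : G} (hχ : ∀ d, χG (r d) = χ d)
    (hτ : ∀ d, c (r d) = h * r (τ d) * h⁻¹) (hs : c h * h = (r s)⁻¹) :
    FrmL χ τ s (χG h) (V.comp r) (B * V h) := by
  constructor
  · intro d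
    have e1 : h * r (τ d) = c (r d) * h := by
      rw [hτ]
      group
    have e2 : (V h : Matrix (Fin n) (Fin n) L) * (V (r (τ d)) : Matrix (Fin n) (Fin n) L) =
        (V (c (r d)) : Matrix (Fin n) (Fin n) L) * (V h : Matrix (Fin n) (Fin n) L) := by
      rw [← Units.val_mul, ← map_mul, e1, map_mul, Units.val_mul]
    have e3 := hd (r d)
    have e4 : BKOdd.chL χG L (r d) = BKOdd.chL χ L d := by
      rw [← uL_eq, ← uL_eq, hχ]
    rw [e4] at e3
    change (V (r d) : Matrix (Fin n) (Fin n) L)ᵀ * ((B : Matrix (Fin n) (Fin n) L) *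
      (V h : Matrix (Fin n) (Fin n) L)) * (V (r (τ d)) : Matrix (Fin n) (Fin n) L) =
      BKOdd.chL χ L d • ((B : Matrix (Fin n) (Fin n) L) * (V h : Matrix (Fin n) (Fin n) L))
    rw [Matrix.mul_assoc, Matrix.mul_assoc (B : Matrix (Fin n) (Fin n) L), e2,
      ← Matrix.mul_assoc, ← Matrix.mul_assoc]
    change (V (r d) : Matrix (Fin n) (Fin n) L)ᵀ * (B : Matrix (Fin n) (Fin n) L) *
      (V (c (r d)) : Matrix (Fin n) (Fin n) L) = _ at e3
    rw [e3, Matrix.smul_mul]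
  · have e1 := congrArg Matrix.transpose (hd h)
    change ((V h : Matrix (Fin n) (Fin n) L)ᵀ * (B : Matrix (Fin n) (Fin n) L) *
      (V (c h) : Matrix (Fin n) (Fin n) L))ᵀ = _ at e1
    rw [Matrix.transpose_mul, Matrix.transpose_mul, Matrix.transpose_transpose,
      Matrix.transpose_smul, hB] at e1
    have e2 : h * r s = (c h)⁻¹ := by
      rw [eq_inv_iff_mul_eq_one]
      have e3 : r s = (c h * h)⁻¹ := by
        rw [hs, inv_inv]
      rw [e3]
      group
    change (B : Matrix (Fin n) (Fin n) L) * (V h : Matrix (Fin n) (Fin n) L) =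
      BKOdd.chL χG L h • ((V (r s) : Matrix (Fin n) (Fin n) L)ᵀ *
        ((B : Matrix (Fin n) (Fin n) L) * (V h : Matrix (Fin n) (Fin n) L))ᵀ)
    have e5 : (V (r s) : Matrix (Fin n) (Fin n) L)ᵀ * (V h : Matrix (Fin n) (Fin n) L)ᵀ =
        (V (c h)⁻¹ : Matrix (Fin n) (Fin n) L)ᵀ := by
      rw [← Matrix.transpose_mul, ← Units.val_mul, ← map_mul, e2]
    have e6 : (V (c h)⁻¹ : Matrix (Fin n) (Fin n) L)ᵀ * (V (c h) : Matrix (Fin n) (Fin n) L)ᵀ =
        1 := by
      rw [← Matrix.transpose_mul, ← Units.val_mul, ← map_mul, mul_inv_cancel, map_one,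
        Units.val_one, Matrix.transpose_one]
    rw [Matrix.transpose_mul, hB, ← Matrix.mul_assoc (V (r s) : Matrix (Fin n) (Fin n) L)ᵀ, e5,
      ← Matrix.mul_smul, ← e1, ← Matrix.mul_assoc (V (c h)⁻¹ : Matrix (Fin n) (Fin n) L)ᵀ, e6,
      Matrix.one_mul]

/-- The form `Aᵀ β' A` differs from `β` by a self-adjoint endomorphism. -/
theorem exists_alpha {D : Type} [Group D] {χ : D →* ℤ_[p]ˣ} {τ : D →* D} {s : D} {a : ℤ_[p]ˣ}
    (hsq : ∀ d, τ (τ d) = s * d * s⁻¹) {V : D →* GL (Fin n) L} {V' : D →* GL (Fin n') L}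
    {β : GL (Fin n) L} {β' : GL (Fin n') L} (h : FrmL χ τ s a V β) (h' : FrmL χ τ s a V' β')
    (A : Matrix (Fin n') (Fin n) L) (A' : Matrix (Fin n) (Fin n') L) (h1 : A' * A = 1)
    (h2 : A * A' = 1)
    (hA : ∀ d, A * (V d : Matrix (Fin n) (Fin n) L) = (V' d : Matrix (Fin n') (Fin n') L) * A) :
    ∃ α : GL (Fin n) L,
      (β : Matrix (Fin n) (Fin n) L) * (α : Matrix (Fin n) (Fin n) L) =
        Aᵀ * (β' : Matrix (Fin n') (Fin n') L) * A ∧
      (α : Matrix (Fin n) (Fin n) L)ᵀ * (β : Matrix (Fin n) (Fin n) L) =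
        (β : Matrix (Fin n) (Fin n) L) * (α : Matrix (Fin n) (Fin n) L) ∧
      ∀ d, (α : Matrix (Fin n) (Fin n) L) * (V d : Matrix (Fin n) (Fin n) L) =
        (V d : Matrix (Fin n) (Fin n) L) * (α : Matrix (Fin n) (Fin n) L) := by
  have hb1 : (β : Matrix (Fin n) (Fin n) L) * ((β⁻¹ : GL (Fin n) L) : Matrix (Fin n) (Fin n) L) =
      1 := by
    rw [← Units.val_mul, mul_inv_cancel, Units.val_one]
  have hb2 : ((β⁻¹ : GL (Fin n) L) : Matrix (Fin n) (Fin n) L) * (β : Matrix (Fin n) (Fin n) L) =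
      1 := by
    rw [← Units.val_mul, inv_mul_cancel, Units.val_one]
  have hb1' : (β' : Matrix (Fin n') (Fin n') L) *
      ((β'⁻¹ : GL (Fin n') L) : Matrix (Fin n') (Fin n') L) = 1 := by
    rw [← Units.val_mul, mul_inv_cancel, Units.val_one]
  have hb2' : ((β'⁻¹ : GL (Fin n') L) : Matrix (Fin n') (Fin n') L) *
      (β' : Matrix (Fin n') (Fin n') L) = 1 := by
    rw [← Units.val_mul, inv_mul_cancel, Units.val_one]
  have h1t : Aᵀ * A'ᵀ = 1 := by
    rw [← Matrix.transpose_mul, h1, Matrix.transpose_one]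
  have h2t : A'ᵀ * Aᵀ = 1 := by
    rw [← Matrix.transpose_mul, h2, Matrix.transpose_one]
  obtain ⟨α, hα⟩ : ∃ α : GL (Fin n) L, (α : Matrix (Fin n) (Fin n) L) =
      ((β⁻¹ : GL (Fin n) L) : Matrix (Fin n) (Fin n) L) *
        (Aᵀ * (β' : Matrix (Fin n') (Fin n') L) * A) := by
    refine ⟨⟨((β⁻¹ : GL (Fin n) L) : Matrix (Fin n) (Fin n) L) *
        (Aᵀ * (β' : Matrix (Fin n') (Fin n') L) * A),
      A' * ((β'⁻¹ : GL (Fin n') L) : Matrix (Fin n') (Fin n') L) * A'ᵀ *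
        (β : Matrix (Fin n) (Fin n) L), ?_, ?_⟩, rfl⟩
    · calc _ = ((β⁻¹ : GL (Fin n) L) : Matrix (Fin n) (Fin n) L) *
            (Aᵀ * ((β' : Matrix (Fin n') (Fin n') L) * ((A * A') *
            ((β'⁻¹ : GL (Fin n') L) : Matrix (Fin n') (Fin n') L)) * A'ᵀ)) *
            (β : Matrix (Fin n) (Fin n) L) := by simp only [Matrix.mul_assoc]
        _ = 1 := by
          rw [h2, Matrix.one_mul, hb1', Matrix.one_mul, h1t, Matrix.mul_one, hb2]
    · calc _ = A' * (((β'⁻¹ : GL (Fin n') L) : Matrix (Fin n') (Fin n') L) *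
            (A'ᵀ * (((β : Matrix (Fin n) (Fin n) L) *
            ((β⁻¹ : GL (Fin n) L) : Matrix (Fin n) (Fin n) L)) * Aᵀ)) *
            (β' : Matrix (Fin n') (Fin n') L)) * A := by simp only [Matrix.mul_assoc]
        _ = 1 := by
          rw [hb1, Matrix.one_mul, h2t, Matrix.mul_one, hb2', Matrix.mul_one, h1]
  have hβα : (β : Matrix (Fin n) (Fin n) L) * (α : Matrix (Fin n) (Fin n) L) =
      Aᵀ * (β' : Matrix (Fin n') (Fin n') L) * A := by
    rw [hα, ← Matrix.mul_assoc, hb1, Matrix.one_mul]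
  -- the form `Aᵀ β' A`
  have hAt : ∀ d, (V d : Matrix (Fin n) (Fin n) L)ᵀ * Aᵀ =
      Aᵀ * (V' d : Matrix (Fin n') (Fin n') L)ᵀ := by
    intro d
    rw [← Matrix.transpose_mul, hA, Matrix.transpose_mul]
  have hγ : ∀ d, (V d : Matrix (Fin n) (Fin n) L)ᵀ *
      ((β : Matrix (Fin n) (Fin n) L) * (α : Matrix (Fin n) (Fin n) L)) *
      (V (τ d) : Matrix (Fin n) (Fin n) L) = BKOdd.chL χ L d •
        ((β : Matrix (Fin n) (Fin n) L) * (α : Matrix (Fin n) (Fin n) L)) := by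
    intro d
    have e1 : (V' d : Matrix (Fin n') (Fin n') L)ᵀ * (β' : Matrix (Fin n') (Fin n') L) *
        (V' (τ d) : Matrix (Fin n') (Fin n') L) =
        BKOdd.chL χ L d • (β' : Matrix (Fin n') (Fin n') L) := h'.dual d
    rw [hβα]
    calc _ = ((V d : Matrix (Fin n) (Fin n) L)ᵀ * Aᵀ) * ((β' : Matrix (Fin n') (Fin n') L) *
          (A * (V (τ d) : Matrix (Fin n) (Fin n) L))) := by simp only [Matrix.mul_assoc]
      _ = Aᵀ * ((V' d : Matrix (Fin n') (Fin n') L)ᵀ * (β' : Matrix (Fin n') (Fin n') L) *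
          (V' (τ d) : Matrix (Fin n') (Fin n') L)) * A := by
          rw [hAt, hA]
          simp only [Matrix.mul_assoc]
      _ = _ := by
          rw [e1, Matrix.mul_smul, Matrix.smul_mul]
  have hcomm : ∀ d, (α : Matrix (Fin n) (Fin n) L) * (V (τ d) : Matrix (Fin n) (Fin n) L) =
      (V (τ d) : Matrix (Fin n) (Fin n) L) * (α : Matrix (Fin n) (Fin n) L) := by
    intro d
    have e1 : (V d : Matrix (Fin n) (Fin n) L)ᵀ * (β : Matrix (Fin n) (Fin n) L) *
        (V (τ d) : Matrix (Fin n) (Fin n) L) =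
        BKOdd.chL χ L d • (β : Matrix (Fin n) (Fin n) L) := h.dual d
    have e2 : ((V d)⁻¹ : GL (Fin n) L).val.transpose * (V d : Matrix (Fin n) (Fin n) L)ᵀ = 1 := by
      rw [← Matrix.transpose_mul, ← Units.val_mul, mul_inv_cancel, Units.val_one,
        Matrix.transpose_one]
    have e3 : (V d : Matrix (Fin n) (Fin n) L)ᵀ * ((β : Matrix (Fin n) (Fin n) L) *
        ((α : Matrix (Fin n) (Fin n) L) * (V (τ d) : Matrix (Fin n) (Fin n) L))) =
        (V d : Matrix (Fin n) (Fin n) L)ᵀ * ((β : Matrix (Fin n) (Fin n) L) *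
        ((V (τ d) : Matrix (Fin n) (Fin n) L) * (α : Matrix (Fin n) (Fin n) L))) := by
      calc _ = (V d : Matrix (Fin n) (Fin n) L)ᵀ *
            ((β : Matrix (Fin n) (Fin n) L) * (α : Matrix (Fin n) (Fin n) L)) *
            (V (τ d) : Matrix (Fin n) (Fin n) L) := by simp only [Matrix.mul_assoc]
        _ = (BKOdd.chL χ L d • (β : Matrix (Fin n) (Fin n) L)) *
            (α : Matrix (Fin n) (Fin n) L) := by
            rw [hγ, Matrix.smul_mul]
        _ = _ := by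
            rw [← e1]
            simp only [Matrix.mul_assoc]
    have e4 := congrArg (fun M => ((β⁻¹ : GL (Fin n) L) : Matrix (Fin n) (Fin n) L) *
      (((V d)⁻¹ : GL (Fin n) L).val.transpose * M)) e3
    change ((β⁻¹ : GL (Fin n) L) : Matrix (Fin n) (Fin n) L) *
      (((V d)⁻¹ : GL (Fin n) L).val.transpose * ((V d : Matrix (Fin n) (Fin n) L)ᵀ * _)) =
      ((β⁻¹ : GL (Fin n) L) : Matrix (Fin n) (Fin n) L) *
      (((V d)⁻¹ : GL (Fin n) L).val.transpose * ((V d : Matrix (Fin n) (Fin n) L)ᵀ * _)) at e4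
    rw [← Matrix.mul_assoc _ (V d : Matrix (Fin n) (Fin n) L)ᵀ,
      ← Matrix.mul_assoc _ (V d : Matrix (Fin n) (Fin n) L)ᵀ, e2, Matrix.one_mul,
      Matrix.one_mul, ← Matrix.mul_assoc _ (β : Matrix (Fin n) (Fin n) L),
      ← Matrix.mul_assoc _ (β : Matrix (Fin n) (Fin n) L), hb2, Matrix.one_mul,
      Matrix.one_mul] at e4
    exact e4
  have hcomm' : ∀ d, (α : Matrix (Fin n) (Fin n) L) * (V d : Matrix (Fin n) (Fin n) L) =
      (V d : Matrix (Fin n) (Fin n) L) * (α : Matrix (Fin n) (Fin n) L) := by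
    intro d
    have e1 : τ (τ (s⁻¹ * d * s)) = d := by
      rw [hsq]
      group
    rw [← e1]
    exact hcomm _
  refine ⟨α, hβα, ?_, hcomm'⟩
  -- self-adjointness
  have e1 : Aᵀ * (β' : Matrix (Fin n') (Fin n') L) * A = uL L a •
      ((V s : Matrix (Fin n) (Fin n) L)ᵀ * (Aᵀ * (β' : Matrix (Fin n') (Fin n') L) * A)ᵀ) := by
    have e2 := h'.symm
    calc Aᵀ * (β' : Matrix (Fin n') (Fin n') L) * A =
          Aᵀ * (uL L a • ((V' s : Matrix (Fin n') (Fin n') L)ᵀ *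
            (β' : Matrix (Fin n') (Fin n') L)ᵀ)) * A := by
          conv_lhs => rw [e2]
      _ = uL L a • ((Aᵀ * (V' s : Matrix (Fin n') (Fin n') L)ᵀ) *
            ((β' : Matrix (Fin n') (Fin n') L)ᵀ * A)) := by
          rw [Matrix.mul_smul, Matrix.smul_mul]
          simp only [Matrix.mul_assoc]
      _ = _ := by
          rw [← hAt, Matrix.transpose_mul, Matrix.transpose_mul, Matrix.transpose_transpose]
          simp only [Matrix.mul_assoc]
  have e3 := h.symm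
  calc (α : Matrix (Fin n) (Fin n) L)ᵀ * (β : Matrix (Fin n) (Fin n) L) =
        (α : Matrix (Fin n) (Fin n) L)ᵀ * (uL L a • ((V s : Matrix (Fin n) (Fin n) L)ᵀ *
          (β : Matrix (Fin n) (Fin n) L)ᵀ)) := by
        conv_lhs => rw [e3]
    _ = uL L a • (((α : Matrix (Fin n) (Fin n) L)ᵀ * (V s : Matrix (Fin n) (Fin n) L)ᵀ) *
          (β : Matrix (Fin n) (Fin n) L)ᵀ) := by
        rw [Matrix.mul_smul, Matrix.mul_assoc]
    _ = uL L a • ((V s : Matrix (Fin n) (Fin n) L)ᵀ *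
          (Aᵀ * (β' : Matrix (Fin n') (Fin n') L) * A)ᵀ) := by
        rw [← Matrix.transpose_mul, ← hcomm' s, Matrix.transpose_mul, Matrix.mul_assoc,
          ← Matrix.transpose_mul, hβα]
    _ = _ := by
        rw [← e1, hβα]

end Frm

/-! ### Extension of scalars -/

section Ext

variable {p : ℕ} [Fact p.Prime] {L L₂ : Type} [NormedField L] [NormedAlgebra ℚ_[p] L]
  [NormedField L₂] [NormedAlgebra ℚ_[p] L₂] {n : ℕ} {D : Type} [Group D]

/-- the representation over the extension -/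
def mp (φ : L →ₐ[ℚ_[p]] L₂) (V : D →* GL (Fin n) L) : D →* GL (Fin n) L₂ :=
  (Matrix.GeneralLinearGroup.map (φ : L →+* L₂)).comp V

theorem mp_val (φ : L →ₐ[ℚ_[p]] L₂) (V : D →* GL (Fin n) L) (d : D) :
    (mp φ V d : Matrix (Fin n) (Fin n) L₂) = (V d : Matrix (Fin n) (Fin n) L).map φ := rfl

/-- the invertible matrix over the extension -/
def gm (φ : L →ₐ[ℚ_[p]] L₂) (β : GL (Fin n) L) : GL (Fin n) L₂ :=
  Matrix.GeneralLinearGroup.map (φ : L →+* L₂) β

theorem gm_val (φ : L →ₐ[ℚ_[p]] L₂) (β : GL (Fin n) L) :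
    (gm φ β : Matrix (Fin n) (Fin n) L₂) = (β : Matrix (Fin n) (Fin n) L).map φ := rfl

theorem map_smul' (φ : L →ₐ[ℚ_[p]] L₂) (a : ℚ_[p]) (M : Matrix (Fin n) (Fin n) L) :
    (algebraMap ℚ_[p] L a • M).map φ = algebraMap ℚ_[p] L₂ a • M.map φ := by
  ext i j
  change φ (algebraMap ℚ_[p] L a * M i j) = algebraMap ℚ_[p] L₂ a * φ (M i j)
  rw [map_mul, φ.commutes]

theorem map_mul' (φ : L →ₐ[ℚ_[p]] L₂) {k l m : ℕ} (M : Matrix (Fin k) (Fin l) L)
    (N : Matrix (Fin l) (Fin m) L) : (M * N).map φ = M.map φ * N.map φ :=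
  Matrix.map_mul (f := (φ : L →+* L₂))

theorem map_one' (φ : L →ₐ[ℚ_[p]] L₂) : (1 : Matrix (Fin n) (Fin n) L).map φ = 1 :=
  Matrix.map_one φ (map_zero φ) (map_one φ)

theorem isDual_mp (φ : L →ₐ[ℚ_[p]] L₂) {χ : D →* ℤ_[p]ˣ} {V V' : D →* GL (Fin n) L}
    {β : Matrix (Fin n) (Fin n) L} (h : IsDual χ V V' β) :
    IsDual χ (mp φ V) (mp φ V') (β.map φ) := by
  intro d
  have e := congrArg (fun M : Matrix (Fin n) (Fin n) L => M.map φ) (h d)
  change ((V d : Matrix (Fin n) (Fin n) L)ᵀ * β * (V' d : Matrix (Fin n) (Fin n) L)).map φ =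
    (algebraMap ℚ_[p] L _ • β).map φ at e
  rw [map_mul', map_mul', map_smul'] at e
  exact e

theorem frmL_mp (φ : L →ₐ[ℚ_[p]] L₂) {χ : D →* ℤ_[p]ˣ} {τ : D →* D} {s : D} {a : ℤ_[p]ˣ}
    {V : D →* GL (Fin n) L} {β : GL (Fin n) L} (h : FrmL χ τ s a V β) :
    FrmL χ τ s a (mp φ V) (gm φ β) := by
  refine ⟨isDual_mp φ h.dual, ?_⟩
  have e := congrArg (fun M : Matrix (Fin n) (Fin n) L => M.map φ) h.symm
  change (β : Matrix (Fin n) (Fin n) L).map φ = (algebraMap ℚ_[p] L _ •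
    ((V s : Matrix (Fin n) (Fin n) L)ᵀ * (β : Matrix (Fin n) (Fin n) L)ᵀ)).map φ at e
  rw [map_smul', map_mul'] at e
  exact e

theorem noInv_mp (φ : L →ₐ[ℚ_[p]] L₂) {V : D →* GL (Fin n) L} (h : NoInv V) :
    NoInv (mp φ V) := by
  intro v hv
  let _ : Algebra L L₂ := (φ : L →+* L₂).toAlgebra
  have hz : ∀ f : Module.Dual L L₂, ∀ i, f (v i) = 0 := by
    intro f
    have h3 : (fun i => f (v i)) = 0 := by
      apply h
      intro d
      funext i
      have h4 : f (((mp φ V d : Matrix (Fin n) (Fin n) L₂) *ᵥ v) i) =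
          ((V d : Matrix (Fin n) (Fin n) L) *ᵥ fun j => f (v j)) i := by
        change f (∑ j, φ ((V d : Matrix (Fin n) (Fin n) L) i j) * v j) =
          ∑ j, (V d : Matrix (Fin n) (Fin n) L) i j * f (v j)
        rw [map_sum]
        exact Finset.sum_congr rfl fun j _ => f.map_smul _ _
      rw [hv d] at h4
      exact h4.symm
    intro i
    exact congrFun h3 i
  funext i
  exact (Module.forall_dual_apply_eq_zero_iff L (v i)).mp (fun f => hz f i)

theorem cont_mp [FiniteDimensional ℚ_[p] L] [TopologicalSpace D] (φ : L →ₐ[ℚ_[p]] L₂)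
    {V : D →* GL (Fin n) L} (h : Continuous V) : Continuous (mp φ V) := by
  have hφ : Continuous φ := φ.toLinearMap.continuous_of_finiteDimensional
  have h1 : Continuous (Matrix.GeneralLinearGroup.map (n := Fin n) (φ : L →+* L₂)) := by
    refine Continuous.units_map (((φ : L →+* L₂).mapMatrix (m := Fin n) : _ →+* _) :
      Matrix (Fin n) (Fin n) L →* Matrix (Fin n) (Fin n) L₂) ?_
    exact Continuous.matrix_map continuous_id hφ
  exact h1.comp h

end Ext

/-! ### Lattices -/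

theorem nonarchQ (l : ℕ) [Fact l.Prime] : NonarchimedeanGroup (GQ l) where
  is_nonarchimedean U hU := by
    obtain ⟨N, hN⟩ := ProfiniteGrp.exist_openNormalSubgroup_sub_open_nhds_of_one
      (isOpen_interior (s := U)) (mem_interior_iff_mem_nhds.2 hU)
    exact ⟨N.toOpenSubgroup, hN.trans interior_subset⟩

section Lat

variable {p : ℕ} [Fact p.Prime] {F : Type} [Field F] {L : Type} [NormedField L]
  [NormedAlgebra ℚ_[p] L] {n : ℕ} {W : GF F →* GL (Fin n) L} {B : Matrix (Fin n) (Fin n) L}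
  {T N : AddSubgroup (Fin n → L)}

theorem isMod_T (h : BKS.IsMet (BKS.vec W) (BKS.frm B) T N) :
    ∀ a : L, ‖a‖ ≤ 1 → ∀ x ∈ T, a • x ∈ T := by
  intro a ha x hx
  refine (h.dual _).2 fun z hz => ?_
  have h4 := (h.dual x).1 hx z hz
  unfold BKS.frm at h4 ⊢
  rw [mulVec_smul, dotProduct_smul, smul_eq_mul, norm_mul]
  exact mul_le_one₀ ha (norm_nonneg _) h4

theorem isMod_N (h : BKS.IsMet (BKS.vec W) (BKS.frm B) T N) :
    ∀ a : L, ‖a‖ ≤ 1 → ∀ x ∈ N, a • x ∈ N := by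
  intro a ha x hx
  refine (h.lagr _).2 ⟨isMod_T h a ha x ((h.lagr x).1 hx).1, fun z hz => ?_⟩
  have h4 := ((h.lagr x).1 hx).2 z hz
  unfold BKS.frm at h4 ⊢
  rw [mulVec_smul, dotProduct_smul, smul_eq_mul, norm_mul]
  calc ‖a‖ * _ ≤ 1 * _ := mul_le_mul_of_nonneg_right ha (norm_nonneg _)
    _ < 1 := by
      rw [one_mul]
      exact h4

theorem pi_mem [FiniteDimensional ℚ_[p] L] (h : BKS.IsMet (BKS.vec W) (BKS.frm B) T N) :
    ∀ x ∈ T, ((pi0 p L : OO p L) : L) • x ∈ N := by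
  intro x hx
  refine (h.lagr _).2 ⟨isMod_T h _ (pi0_lt p L).le x hx, fun z hz => ?_⟩
  have h4 := (h.dual x).1 hx z ((h.lagr z).1 hz).1
  unfold BKS.frm at h4 ⊢
  rw [mulVec_smul, dotProduct_smul, smul_eq_mul, norm_mul]
  calc ‖((pi0 p L : OO p L) : L)‖ * _ ≤ ‖((pi0 p L : OO p L) : L)‖ * 1 :=
        mul_le_mul_of_nonneg_left h4 (norm_nonneg _)
    _ < 1 := by
      rw [mul_one]
      exact pi0_lt p L

theorem mem_N [FiniteDimensional ℚ_[p] L] (h : BKS.IsMet (BKS.vec W) (BKS.frm B) T N)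
    (y : Fin n → L) : y ∈ N ↔ ∀ x ∈ N, ‖BKS.frm B x y‖ < 1 := by
  constructor
  · intro hy
    exact ((h.lagr y).1 hy).2
  · intro hy
    refine (h.lagr y).2 ⟨(h.dual y).2 fun x hx => ?_, hy⟩
    have h1 := pi0_max p L _ (hy _ (pi_mem (p := p) h x hx))
    have h2 : BKS.frm B (((pi0 p L : OO p L) : L) • x) y =
        ((pi0 p L : OO p L) : L) * BKS.frm B x y := by
      unfold BKS.frm
      rw [smul_dotProduct, smul_eq_mul]
    rw [h2, norm_mul] at h1
    exact le_of_mul_le_mul_left (by rw [mul_one]; exact h1) (pi0_pos p L)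

theorem ball_T (hu : IsUltrametricDist L) (h : BKS.IsMet (BKS.vec W) (BKS.frm B) T N) :
    ∃ ε : ℝ, 0 < ε ∧ ∀ x : Fin n → L, ‖x‖ ≤ ε → x ∈ T := by
  obtain ⟨C, hC⟩ := h.bdd
  obtain ⟨D, hD0, hD⟩ : ∃ D : ℝ, 0 ≤ D ∧ ∀ i j, ‖B i j‖ ≤ D := by
    refine ⟨∑ i, ∑ j, ‖B i j‖,
      Finset.sum_nonneg fun i _ => Finset.sum_nonneg fun j _ => norm_nonneg _, fun i j => ?_⟩
    refine (Finset.single_le_sum (f := fun j => ‖B i j‖)
      (fun j _ => norm_nonneg _) (Finset.mem_univ j)).trans ?_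
    exact Finset.single_le_sum (f := fun i => ∑ j, ‖B i j‖)
      (fun i _ => Finset.sum_nonneg fun j _ => norm_nonneg _) (Finset.mem_univ i)
  have hpos : 0 < |C| * D + 1 := by positivity
  refine ⟨(|C| * D + 1)⁻¹, inv_pos.2 hpos, fun y hy => ?_⟩
  refine (h.dual y).2 fun x hx => ?_
  have h1 : ∀ i, ‖(B *ᵥ y) i‖ ≤ D * (|C| * D + 1)⁻¹ := fun i =>
    HMTB.dot_le hu hD0 (inv_pos.2 hpos).le _ _ (hD i) fun j => (norm_le_pi_norm y j).trans hy
  have h2 : ‖x ⬝ᵥ (B *ᵥ y)‖ ≤ |C| * (D * (|C| * D + 1)⁻¹) :=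
    HMTB.dot_le hu (abs_nonneg C) (mul_nonneg hD0 (inv_pos.2 hpos).le) _ _
      (fun i => ((norm_le_pi_norm x i).trans (hC x hx)).trans (le_abs_self C)) h1
  refine h2.trans ?_
  rw [← mul_assoc, ← div_eq_mul_inv, div_le_one hpos]
  linarith

variable (p) in
theorem ball_N [FiniteDimensional ℚ_[p] L] (h : BKS.IsMet (BKS.vec W) (BKS.frm B) T N) :
    ∃ ε : ℝ, 0 < ε ∧ ∀ x : Fin n → L, ‖x‖ ≤ ε → x ∈ N := by
  obtain ⟨ε, hε, hT⟩ := ball_T (BKND.DG.ultra (p := p) L) h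
  have hπ := pi0_pos p L
  refine ⟨ε * ‖((pi0 p L : OO p L) : L)‖, mul_pos hε hπ, fun x hx => ?_⟩
  have h1 : x = ((pi0 p L : OO p L) : L) • (((pi0 p L : OO p L) : L)⁻¹ • x) := by
    rw [smul_smul, mul_inv_cancel₀ (pi0_ne p L), one_smul]
  rw [h1]
  apply pi_mem (p := p) h
  apply hT
  rw [norm_smul, norm_inv, ← div_eq_inv_mul, div_le_iff₀ hπ]
  exact hx

theorem lt_T (hu : IsUltrametricDist L) (h : BKS.IsMet (BKS.vec W) (BKS.frm B) T N) {D : Type}
    [Group D] (r : D →* GF F) : Lt (W.comp r) T :=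
  ⟨h.bdd, ball_T hu h, isMod_T h, fun d => h.stab (r d)⟩

variable (p) in
theorem lt_N [FiniteDimensional ℚ_[p] L] (h : BKS.IsMet (BKS.vec W) (BKS.frm B) T N)
    {D : Type} [Group D] (r : D →* GF F) : Lt (W.comp r) N := by
  obtain ⟨C, hC⟩ := h.bdd
  exact ⟨⟨C, fun x hx => hC x ((h.lagr x).1 hx).1⟩, ball_N p h, isMod_N h,
    fun d => h.stab' (r d)⟩

theorem stab_iff {P : AddSubgroup (Fin n → L)}
    (h : ∀ g, ∀ x ∈ P, BKS.vec W g x ∈ P) (g : GF F) (x : Fin n → L) :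
    (W g : Matrix (Fin n) (Fin n) L) *ᵥ x ∈ P ↔ x ∈ P := by
  constructor
  · intro hx
    have h1 := h g⁻¹ _ hx
    change (W g⁻¹ : Matrix (Fin n) (Fin n) L) *ᵥ ((W g : Matrix (Fin n) (Fin n) L) *ᵥ x) ∈ P at h1
    rwa [mulVec_mulVec, ← Units.val_mul, ← map_mul, inv_mul_cancel, map_one, Units.val_one,
      one_mulVec] at h1
  · exact h g x

theorem dlt_T (h : BKS.IsMet (BKS.vec W) (BKS.frm B) T N) (g : GF F) :
    dlt p (B * (W g : Matrix (Fin n) (Fin n) L)) T = T := by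
  ext z
  change (∀ x ∈ T, ‖x ⬝ᵥ ((B * (W g : Matrix (Fin n) (Fin n) L)) *ᵥ z)‖ ≤ 1) ↔ z ∈ T
  rw [← stab_iff h.stab g z, h.dual]
  simp only [← mulVec_mulVec]
  rfl

theorem dlt_N [FiniteDimensional ℚ_[p] L] (h : BKS.IsMet (BKS.vec W) (BKS.frm B) T N)
    (g : GF F) :
    dlt p (((pi0 p L : OO p L) : L)⁻¹ • (B * (W g : Matrix (Fin n) (Fin n) L))) N = N := by
  ext z
  change (∀ x ∈ N, ‖x ⬝ᵥ ((((pi0 p L : OO p L) : L)⁻¹ •
    (B * (W g : Matrix (Fin n) (Fin n) L))) *ᵥ z)‖ ≤ 1) ↔ z ∈ N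
  rw [← stab_iff h.stab' g z, mem_N (p := p) h]
  refine forall₂_congr fun x _ => ?_
  rw [smul_mulVec, dotProduct_smul, smul_eq_mul, norm_mul, norm_inv, ← mulVec_mulVec,
    ← div_eq_inv_mul, div_le_one (pi0_pos p L)]
  change ‖BKS.frm B x _‖ ≤ _ ↔ ‖BKS.frm B x _‖ < 1
  exact ⟨fun h1 => h1.trans_lt (pi0_lt p L), fun h1 => pi0_max p L _ h1⟩

/-- the local term in terms of the decomposition group -/
theorem lnJ_eq (W : GF F →* GL (Fin n) L) {l : ℕ} [Fact l.Prime]
    (j : AlgebraicClosure F →+* PadicAlgCl l) {D : Subgroup (GQ l)} (r : D →* GF F)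
    (hD : ∀ (g : GF F) (t : GQ l), (∀ z, j (g z) = t (j z)) ↔ ∃ d : D, r d = g ∧ (d : GQ l) = t)
    (P : AddSubgroup (Fin n → L)) : lnJ p W j P = lnD p (W.comp r) P := by
  have e : fixJ W j P = fixL (W.comp r) P := by
    ext v
    constructor
    · intro h d
      exact h (r d) d ((hD _ _).2 ⟨d, rfl, rfl⟩)
    · intro h g t hgt
      obtain ⟨d, rfl, -⟩ := (hD g t).1 hgt
      exact h d
  unfold lnJ lnD
  rw [e]

end Lat

end WISE

open HWEQ UWQL UMTL VPVF WISE in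
/-- **Module ISE.** -/
theorem stIse (h1 : StSqe) (h2 : StLnkl) (h3 : StHypl) (h4 : StLen) (h5 : StFxl) : StIse := by
  intro p _ hp F _ _ hF hIm c hc L _ _ _ n n' V V' B B' hV hV' hB hB' κ _ l _ j hl hs hiso
  obtain ⟨σ, hcs⟩ := BKS.exists_conjHyp hF hc
  have hcc : CC0 c (BKOdd.conj c σ hcs.h) := by
    refine ⟨hc, fun g z => ?_⟩
    change c (g (c.symm (c z))) = c (g z)
    rw [RingEquiv.symm_apply_apply]
  choose D r inv τ s h hDo hr hD hχ hLG hcr hhs hCL using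
    fun k => h2 p (l k) hp (hl k) F hF hIm (hs k) c (BKOdd.conj c σ hcs.h) hcc (j k)
  have fr : ∀ k, FrmL ((cycL p (l k)).comp (D k).subtype) (τ k) (s k) (cycF p F (h k))
      (V.comp (r k)) (glB hB * V (h k)) := fun k =>
    frmL hB.1 (isDual hcs hB) (hχ k) (hcr k) (hhs k)
  have fr' : ∀ k, FrmL ((cycL p (l k)).comp (D k).subtype) (τ k) (s k) (cycF p F (h k))
      (V'.comp (r k)) (glB hB' * V' (h k)) := fun k =>
    frmL hB'.1 (isDual hcs hB') (hχ k) (hcr k) (hhs k)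
  choose A A' hA1 hA2 hA3 using fun k => hiso k (j k)
  have hA4 : ∀ k d, A k * (V.comp (r k) d : Matrix (Fin n) (Fin n) L) =
      (V'.comp (r k) d : Matrix (Fin n') (Fin n') L) * A k := fun k d =>
    hA3 k (r k d) d ((hD k _ _).2 ⟨d, rfl, rfl⟩)
  choose α ha1 ha2 ha3 using fun k =>
    exists_alpha (hCL k).sq (fr k) (fr' k) (A k) (A' k) (hA1 k) (hA2 k) (hA4 k)
  have hni : ∀ k, NoInv (V.comp (r k)) := by
    intro k v hv
    refine hV.inv (l k) (hl k) (j k) v fun g t hgt => ?_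
    obtain ⟨d, rfl, -⟩ := (hD k g t).1 hgt
    exact hv d
  have hni' : ∀ k, NoInv (V'.comp (r k)) := by
    intro k v hv
    refine hV'.inv (l k) (hl k) (j k) v fun g t hgt => ?_
    obtain ⟨d, rfl, -⟩ := (hD k g t).1 hgt
    exact hv d
  obtain ⟨L₀, i1, i2, i3, φ₀, f, hf⟩ := h1 p L κ n α
  refine ⟨L₀, i1, i2, i3, φ₀, ?_⟩
  intro L₂ _ _ _ φ T N hTN k
  -- the isometry over `L₀`
  obtain ⟨C, C', hC1, hC2, hC3, hC4⟩ := isometry (gm φ₀ (glB hB * V (h k)))
    (((glB hB' * V' (h k) : GL (Fin n') L) : Matrix (Fin n') (Fin n') L).map φ₀)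
    ((A k).map φ₀) ((A' k).map φ₀) (by rw [← map_mul', hA1, map_one'])
    (by rw [← map_mul', hA2, map_one']) (gm φ₀ (α k))
    (by
      rw [gm_val, gm_val, ← map_mul', ha1, map_mul', map_mul']
      rfl)
    (by
      rw [gm_val, gm_val, ← map_mul', ← ha2, map_mul']
      rfl) (f k) (hf k)
  have hCV : ∀ d, C * (mp φ₀ (V.comp (r k)) d : Matrix (Fin n) (Fin n) L₀) =
      (mp φ₀ (V'.comp (r k)) d : Matrix (Fin n') (Fin n') L₀) * C := by
    intro d
    refine hC4 _ _ ?_ ?_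
    · rw [mp_val, mp_val, ← map_mul', ← map_mul', hA4]
    · rw [mp_val, gm_val, ← map_mul', ← map_mul', ha3]
  -- the lattices
  have hM := isMet_pre (mp φ (mp φ₀ V)) (mp φ (mp φ₀ V')) (gm φ (gm φ₀ (glB hB)))
    (gm φ (gm φ₀ (glB hB'))) T N hTN
  have hval : ((blkG (gm φ (gm φ₀ (glB hB))) (-(gm φ (gm φ₀ (glB hB')))) :
      GL (Fin (n + n')) L₂) : Matrix (Fin (n + n')) (Fin (n + n')) L₂) =
      blk ((B.map φ₀).map φ) (-((B'.map φ₀).map φ)) := rfl
  have hsym : ((B.map φ₀).map φ)ᵀ = (B.map φ₀).map φ := by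
    rw [← Matrix.transpose_map, ← Matrix.transpose_map, hB.1]
  have hsym' : ((B'.map φ₀).map φ)ᵀ = (B'.map φ₀).map φ := by
    rw [← Matrix.transpose_map, ← Matrix.transpose_map, hB'.1]
  obtain ⟨S, ρ, B₀, N₁, -, eT, eN, hloc⟩ := stMtl stLatM h4 h5 p F L₂ (n + n')
    (dsum (mp φ (mp φ₀ V)) (mp φ (mp φ₀ V')))
    (blkG (gm φ (gm φ₀ (glB hB))) (-(gm φ (gm φ₀ (glB hB')))))
    (by rw [hval, blk_transpose, Matrix.transpose_neg, hsym, hsym']) _ _ hM
  have hloc' := hloc (l k) (j k) ?_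
  · rw [eT, eN, lnJ_eq _ (j k) (r k) (hD k), lnJ_eq _ (j k) (r k) (hD k)] at hloc'
    have hcD : CompactSpace (D k) := isCompact_iff_compactSpace.1
      (Subgroup.isClosed_of_isOpen (D k) (hDo k)).isCompact
    have hu := BKND.DG.ultra (p := p) L₂
    have hnG : NonarchimedeanGroup (GQ (l k)) := nonarchQ (l k)
    have hnD : NonarchimedeanGroup (D k) := BKOdd.nonarch_subgroup (D k)
    have hcχ : Continuous ((cycL p (l k)).comp (D k).subtype) :=
      (cyclotomicCharacter.continuous p ℚ_[l k] (PadicAlgCl (l k))).comp continuous_subtype_val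
    have hblk : (blkG (gm φ (gm φ₀ (glB hB * V (h k)))) (-(gm φ (gm φ₀ (glB hB' * V' (h k))))) :
        Matrix (Fin (n + n')) (Fin (n + n')) L₂) =
        (blkG (gm φ (gm φ₀ (glB hB))) (-(gm φ (gm φ₀ (glB hB')))) :
          Matrix (Fin (n + n')) (Fin (n + n')) L₂) *
        (dsum (mp φ (mp φ₀ V)) (mp φ (mp φ₀ V')) (h k) :
          Matrix (Fin (n + n')) (Fin (n + n')) L₂) := by
      have e1 : (blkG (gm φ (gm φ₀ (glB hB * V (h k)))) (-(gm φ (gm φ₀ (glB hB' * V' (h k))))) :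
          Matrix (Fin (n + n')) (Fin (n + n')) L₂) =
          blk (((B * (V (h k) : Matrix (Fin n) (Fin n) L)).map φ₀).map φ)
            (-(((B' * (V' (h k) : Matrix (Fin n') (Fin n') L)).map φ₀).map φ)) := rfl
      have e2 : (dsum (mp φ (mp φ₀ V)) (mp φ (mp φ₀ V')) (h k) :
          Matrix (Fin (n + n')) (Fin (n + n')) L₂) =
          blk (((V (h k) : Matrix (Fin n) (Fin n) L).map φ₀).map φ)
            (((V' (h k) : Matrix (Fin n') (Fin n') L).map φ₀).map φ) := rfl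
      rw [e1, e2, hval, blk_mul, Matrix.neg_mul, map_mul', map_mul', map_mul', map_mul']
    have hfin := h3 p hp L₂ (D k) ((cycL p (l k)).comp (D k).subtype) hcχ (inv k) (hLG k) (τ k)
      (s k) (cycF p F (h k)) (hCL k) n n' (mp φ (mp φ₀ (V.comp (r k))))
      (mp φ (mp φ₀ (V'.comp (r k)))) (gm φ (gm φ₀ (glB hB * V (h k))))
      (gm φ (gm φ₀ (glB hB' * V' (h k)))) (cont_mp φ (cont_mp φ₀ (hV.cont.comp (hr k))))
      (noInv_mp φ (noInv_mp φ₀ (hni k))) (frmL_mp φ (frmL_mp φ₀ (fr k)))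
      (frmL_mp φ (frmL_mp φ₀ (fr' k))) (C.map φ) (C'.map φ)
      (by rw [← map_mul', hC1, map_one']) (by rw [← map_mul', hC2, map_one'])
      (by
        intro d
        have e1 := map_mul' φ C (mp φ₀ (V.comp (r k)) d : Matrix (Fin n) (Fin n) L₀)
        have e2 := map_mul' φ (mp φ₀ (V'.comp (r k)) d : Matrix (Fin n') (Fin n') L₀) C
        have e3 := congrArg (fun M : Matrix (Fin n') (Fin n) L₀ => M.map φ) (hCV d)
        exact (e1.symm.trans e3).trans e2)
      (by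
        have e1 := map_mul' φ (Cᵀ *
          (((glB hB' * V' (h k) : GL (Fin n') L) : Matrix (Fin n') (Fin n') L).map φ₀)) C
        have e2 := map_mul' φ Cᵀ
          (((glB hB' * V' (h k) : GL (Fin n') L) : Matrix (Fin n') (Fin n') L).map φ₀)
        have e3 := congrArg (fun M : Matrix (Fin n) (Fin n) L₀ => M.map φ) hC3
        rw [e2] at e1
        exact e1.symm.trans e3) (pre (eqv L₂ n n') T) (pre (eqv L₂ n n') N) (lt_T hu hM (r k))
      (lt_N p hM (r k)) (by rw [hblk]; exact dlt_T hM (h k))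
      (by rw [hblk]; exact dlt_N hM (h k))
    have e := loc_pre (mp φ (mp φ₀ V)) (mp φ (mp φ₀ V')) (j k) T N
    rw [hloc'] at e
    exact e ▸ hfin
  · intro v hv
    have hv' : ∀ d : D k, BKS.vec2 (mp φ (mp φ₀ V)) (mp φ (mp φ₀ V')) (r k d) (p1 v, p2 v) =
        (p1 v, p2 v) := by
      intro d
      have e0 := congrArg (eqv L₂ n n') (hv (r k d) d ((hD k _ _).2 ⟨d, rfl, rfl⟩))
      have e1 := vec_dsum (mp φ (mp φ₀ V)) (mp φ (mp φ₀ V')) (r k d) v
      rw [eqv_apply v] at e1 e0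
      rw [← e1]
      exact e0
    have e1 : p1 v = 0 := noInv_mp φ (noInv_mp φ₀ (hni k)) (p1 v) fun d =>
      congrArg Prod.fst (hv' d)
    have e2 : p2 v = 0 := noInv_mp φ (noInv_mp φ₀ (hni' k)) (p2 v) fun d =>
      congrArg Prod.snd (hv' d)
    have e3 : eqv L₂ n n' v = 0 := by
      rw [eqv_apply, e1, e2]
      rfl
    exact (LinearEquiv.map_eq_zero_iff _).mp e3

end BKT
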