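import Pool.Agent.Lib.MP_7c08ba_nt.T1.StY

set_option autoImplicit false

/-!
Parity for general residual representations: module LKT, global duality for all finite modules.
-/

noncomputable section

namespace BKT

open BKPar (Loc1 Loc2)
open BKND (Sm)
open BKMet

namespace YLKT

/-- the module LNZ for an action which is equal to `actA χ` -/
theorem lnz' (h2 : StLnz) (p : ℕ) [Fact p.Prime] (G : Type) [Group G] [TopologicalSpace G]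
    (χ : G →* ℤ_[p]ˣ) (α : G →* AddMonoid.End (QZ p)) (hα : α = actA χ)
    (M M' : Type) [AddCommGroup M] [AddCommGroup M'] [Finite M] (X : Pair ℤ α M M')
    (H : Subgroup G) (hH : ∀ h ∈ H, PadicInt.toZMod ((χ h : ℤ_[p]ˣ) : ℤ_[p]) = 1)
    (hX : PGr p X.ρ H) (P Q : Submodule ℤ M) (hP : ∀ h ∈ H, ∀ x ∈ P, X.ρ h x ∈ P)
    (hQ : ∀ h ∈ H, ∀ x ∈ Q, X.ρ h x ∈ Q) (hPQ : P < Q) :
    ∃ N : Submodule ℤ M, P < N ∧ N ≤ Q ∧ ∃ (lam : ZMod p →+ QZ p) (φ : M → ZMod p)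
      (φ' : M' → ZMod p), lam ≠ 0 ∧ IsLnA X H P N (ZMod p) 1 1 lam φ φ' := by
  subst hα
  exact h2 p G χ M M' X H hH hX P Q hP hQ hPQ

/-- the module QUOI for an action which is equal to `actA χ` -/
theorem quoI' (h5 : StQuoI) (p : ℕ) [Fact p.Prime] (G : Type) [Group G] [TopologicalSpace G]
    [IsTopologicalGroup G] [CompactSpace G] (χ : G →* ℤ_[p]ˣ) (hχ : Continuous χ)
    (α : G →* AddMonoid.End (QZ p)) (hα : α = actA χ) (M M' : Type) [AddCommGroup M]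
    [AddCommGroup M'] [Finite M] (X : Pair ℤ α M M') (H : Subgroup G)
    (hH : IsOpen (H : Set G)) (Z : Pair ℤ α (G ⧸ H → M) (G ⧸ H → M')) (hZ : IsMap X H Z)
    (P N : Submodule ℤ M) (k : Type) [Field k] [Finite k] [Algebra (ZMod p) k] (ψ ψ' : H →* kˣ)
    (lam : k →+ QZ p) (φ : M → k) (φ' : M' → k) (hl : lam ≠ 0)
    (h : IsLnA X H P N k ψ ψ' lam φ φ') :
    Rel (χ.comp H.subtype) ψ ψ' ∧ ∃ YI : Pair ℤ α (IndM H (kch ψ)) (IndM H (kch ψ')),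
      YI.ρ = indM H (kch ψ) ∧ YI.ρ' = indM H (kch ψ') ∧
      ∃ (Φ : (G ⧸ H → M) → IndM H (kch ψ)) (Φ' : (G ⧸ H → M') → IndM H (kch ψ')),
        IsQuo Z (mapS X.ρ H P) (mapS X.ρ H N) YI Φ Φ' := by
  subst hα
  exact h5 p G χ hχ M M' X H hH Z hZ P N k ψ ψ' lam φ φ' hl h

/-- an element of `ZMod p` with a power equal to `1`, the exponent a power of `p` -/
theorem zmod_one {p : ℕ} [Fact p.Prime] (x : ZMod p) (n : ℕ) (h : x ^ p ^ n = 1) : x = 1 := by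
  rwa [ZMod.pow_card_pow] at h

/-- elements with a power of `p` in `U` act through elements of `p`-power order -/
theorem pgr_of {p : ℕ} {G : Type*} [Group G] {M : Type*} [AddCommGroup M]
    (ρ : G →* AddMonoid.End M) (U H : Subgroup G) (hU : PGr p ρ U)
    (hH : ∀ h ∈ H, ∃ n : ℕ, h ^ p ^ n ∈ U) : PGr p ρ H := by
  intro h hh
  obtain ⟨n, hn⟩ := hH h hh
  obtain ⟨m, hm⟩ := hU _ hn
  refine ⟨n + m, ?_⟩
  rw [pow_add, pow_mul, ← map_pow]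
  exact hm

theorem fix_of {p : ℕ} [Fact p.Prime] {G : Type*} [Group G] (χ : G →* ℤ_[p]ˣ)
    (U H : Subgroup G) (hU : ∀ u ∈ U, PadicInt.toZMod ((χ u : ℤ_[p]ˣ) : ℤ_[p]) = 1)
    (hH : ∀ h ∈ H, ∃ n : ℕ, h ^ p ^ n ∈ U) :
    ∀ h ∈ H, PadicInt.toZMod ((χ h : ℤ_[p]ˣ) : ℤ_[p]) = 1 := by
  intro h hh
  obtain ⟨n, hn⟩ := hH h hh
  have := hU _ hn
  rw [map_pow, Units.val_pow_eq_pow_val, map_pow] at this
  exact zmod_one _ n this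

end YLKT

open YLKT in
theorem stLkT (h1 : StSyg) (h2 : StLnz) (h3 : StMapP) (h4 : StMapS) (h5 : StQuoI) (h6 : StGdi)
    (h7 : StIndT) (h8 : StRed) : StLkT := by
  intro p _ S _ G _ _ _ _ D _ _ _ _ Γ χ δ U hS M M' _ _ _ X hP T hT hTc P N Q hPs hNs hQs hPN hNQ
  obtain ⟨H, hUH, hHo, hHi, hHp⟩ := h1 p G U hS.normal hS.open'
  have hχ := fix_of χ U H hS.fix hHp
  have hPG := pgr_of X.ρ U H hP hHp
  obtain ⟨Z, hZ1, hZ2, hZ3⟩ := h3 p G Γ.α M M' X H hHo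
  have hZ : IsMap X H Z := ⟨hZ1, hZ2, hZ3⟩
  have hMS := h4 p G Γ.α M M' X H hHo Z hZ
  haveI : Finite (G ⧸ H) := H.quotient_finite_of_isOpen hHo
  haveI : Finite (G ⧸ H → M) := Pi.finite
  have hst : ∀ L : Submodule ℤ M, X.Stable L → ∀ h ∈ H, ∀ x ∈ L, X.ρ h x ∈ L :=
    fun L hL h _ x hx => hL h x hx
  have hmono : ∀ L K : Submodule ℤ M, (∀ h ∈ H, ∀ x ∈ L, X.ρ h x ∈ L) →
      (∀ h ∈ H, ∀ x ∈ K, X.ρ h x ∈ K) → (L ≤ K ↔ mapS X.ρ H L ≤ mapS X.ρ H K) :=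
    fun L K hL hK => (hMS L hL).2.2.2.2 K hK
  refine h8 p S G D Γ M M' X H hHo hHi Z hZ T P N Q hPs hNs hQs hPN hNQ ?_
  refine (h7 p S G D Γ χ δ hS.ax (G ⧸ H → M) (G ⧸ H → M') Z
    {L | ∃ P : Submodule ℤ M, (∀ h ∈ H, ∀ x ∈ P, X.ρ h x ∈ P) ∧ L = mapS X.ρ H P} ?_ ?_ T hT hTc
    (mapS X.ρ H P) ⟨P, hst P hPs, rfl⟩ (mapS X.ρ H N) ⟨N, hst N hNs, rfl⟩
    (mapS X.ρ H Q) ⟨Q, hst Q hQs, rfl⟩ ((hmono P N (hst P hPs) (hst N hNs)).1 hPN)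
    ((hmono N Q (hst N hNs) (hst Q hQs)).1 hNQ)).1
  · rintro _ ⟨L, hL, rfl⟩
    exact (hMS L hL).1
  · rintro _ ⟨P1, hP1, rfl⟩ _ ⟨Q1, hQ1, rfl⟩ hlt
    have hlt' : P1 < Q1 := by
      rw [lt_iff_le_not_ge] at hlt ⊢
      rw [hmono P1 Q1 hP1 hQ1, hmono Q1 P1 hQ1 hP1]
      exact hlt
    obtain ⟨N1, hPN1, hNQ1, lam, φ, φ', hlam, hln⟩ :=
      lnz' h2 p G χ Γ.α hS.ax.act M M' X H hχ hPG P1 Q1 hP1 hQ1 hlt'
    have hN1 := hln.stab'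
    obtain ⟨hrel, YI, hY1, hY2, Φ, Φ', hq⟩ :=
      quoI' h5 p G χ hS.cont Γ.α hS.ax.act M M' X H hHo Z hZ P1 N1 (ZMod p) 1 1 lam φ φ' hlam hln
    refine ⟨mapS X.ρ H N1, ⟨N1, hN1, rfl⟩, ?_, (hmono N1 Q1 hN1 hQ1).1 hNQ1, ?_⟩
    · rw [lt_iff_le_not_ge] at hPN1 ⊢
      rw [← hmono P1 N1 hP1 hN1, ← hmono N1 P1 hN1 hP1]
      exact hPN1
    · refine ⟨_, _, _, _, YI, Φ, Φ', ?_, hq⟩
      refine h6 p S G D Γ χ U hS.open' hS.glob H H ?_ (ZMod p) 1 1 (fun _ _ => rfl)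
        (fun _ _ => rfl) hrel YI hY1 hY2
      refine ⟨hUH, le_refl _, ?_, ?_, hHp⟩
      · intro a ha x hx
        exact H.mul_mem (H.mul_mem ha hx) (H.inv_mem ha)
      · rw [Subgroup.relIndex_self]
        exact (Nat.Prime.one_lt (Fact.out : p.Prime)).ne' ∘ Nat.dvd_one.1

end BKT
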