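import Pool.Agent.Lib.MP_7c08ba_nt.T1.StZ
import Pool.Agent.Lib.MP_7c08ba_nt.Met.LLV

set_option autoImplicit false

/-!
The parity theorem, module CNH: the lattices over an extension (the criterion in terms of the
semisimplification of the residual representation).
-/

noncomputable section

namespace BKT

open NumberField BKGen BKMet
open Matrix

namespace ZCNH

variable {p : ℕ} [Fact p.Prime] {L : Type} [NormedField L] [NormedAlgebra ℚ_[p] L]

theorem norm_chL {G : Type} [Group G] (χ : G →* ℤ_[p]ˣ) (g : G) : ‖BKOdd.chL χ L g‖ = 1 := by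
  have h1 : BKOdd.chL χ L g * BKOdd.chL χ L g⁻¹ = 1 := by
    rw [← map_mul, mul_inv_cancel, map_one]
  have h2 : ‖BKOdd.chL χ L g‖ * ‖BKOdd.chL χ L g⁻¹‖ = 1 := by
    rw [← norm_mul, h1, norm_one]
  have h3 := LLV.norm_chL_le (L := L) χ g
  have h4 := LLV.norm_chL_le (L := L) χ g⁻¹
  refine le_antisymm h3 ?_
  rw [← h2]
  calc ‖BKOdd.chL χ L g‖ * ‖BKOdd.chL χ L g⁻¹‖ ≤ ‖BKOdd.chL χ L g‖ * 1 :=
        mul_le_mul_of_nonneg_left h4 (norm_nonneg _)
    _ = _ := mul_one _

theorem res_ne {K : Type} [Field K] {r : OO p L →+* K} (hr : IsRes r) (x : OO p L)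
    (hx : ‖(x : L)‖ = 1) : r x ≠ 0 := by
  intro h
  rw [hr x] at h
  exact absurd h (by rw [hx]; exact lt_irrefl _)

theorem res_unit {K : Type} [Field K] (r : OO p L →+* K) (e : (OO p L)ˣ) :
    r (e : OO p L) ≠ 0 :=
  (e.isUnit.map r).ne_zero

theorem charpoly_eq {G : Type} [Group G] {n : ℕ} {V : G →* GL (Fin n) L} {S : GL (Fin n) L}
    {ρ : G →* GL (Fin n) (OO p L)} (h : ∀ g, toL p L n (ρ g) = S * V g * S⁻¹) (g : G) :
    ((ρ g : Matrix (Fin n) (Fin n) (OO p L)).charpoly).map (OO p L).subtype =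
      (V g : Matrix (Fin n) (Fin n) L).charpoly := by
  rw [← Matrix.charpoly_map]
  have h1 : (ρ g : Matrix (Fin n) (Fin n) (OO p L)).map (OO p L).subtype =
      (S : Matrix (Fin n) (Fin n) L) * (V g : Matrix (Fin n) (Fin n) L) *
        ((S⁻¹ : GL (Fin n) L) : Matrix (Fin n) (Fin n) L) := by
    have := congrArg Units.val (h g)
    rw [Units.val_mul, Units.val_mul] at this
    exact this
  rw [h1, Matrix.coe_units_inv]
  have h2 := Matrix.charpoly_units_conj (S : (Matrix (Fin n) (Fin n) L)ˣ)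
    (V g : Matrix (Fin n) (Fin n) L)
  exact h2

/-- polynomials over the ring of integers with congruent coefficients -/
theorem map_res {K : Type} [Field K] {r : OO p L →+* K} (hr : IsRes r)
    (P Q : Polynomial (OO p L)) (h : ∀ i, ‖(P.map (OO p L).subtype -
      Q.map (OO p L).subtype).coeff i‖ < 1) : P.map r = Q.map r := by
  ext i
  rw [Polynomial.coeff_map, Polynomial.coeff_map, ← sub_eq_zero, ← map_sub, hr]
  have h1 := h i
  rw [Polynomial.coeff_sub, Polynomial.coeff_map, Polynomial.coeff_map] at h1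
  exact h1

section Red

variable {F : Type} [Field F] {m : ℕ} {U : GF F → Matrix (Fin m) (Fin m) L}

/-- the matrices over the ring of integers -/
def mo (hU : BKS.IsResRep U) (g : GF F) : Matrix (Fin m) (Fin m) (OO p L) :=
  Matrix.of fun i j => ⟨U g i j, hU.int g i j⟩

theorem mo_map (hU : BKS.IsResRep U) (g : GF F) :
    (mo (p := p) hU g).map (OO p L).subtype = U g := by
  ext i j
  rfl

/-- the representation over the residue field -/
def ru (hU : BKS.IsResRep U) {K : Type} [Field K] (r : OO p L →+* K) (hr : IsRes r) :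
    GF F →* Matrix (Fin m) (Fin m) K where
  toFun g := (mo (p := p) hU g).map r
  map_one' := by
    ext i j
    have h1 : r ((mo (p := p) hU 1 - 1) i j) = 0 := by
      rw [hr]
      have h2 := hU.one i j
      have h3 : (((mo (p := p) hU 1 - 1) i j : OO p L) : L) = (U 1 - 1) i j := by
        rw [Matrix.sub_apply, Matrix.sub_apply, Matrix.one_apply, Matrix.one_apply]
        split_ifs <;> rfl
      rw [h3]
      exact h2
    rw [Matrix.sub_apply, map_sub, sub_eq_zero] at h1
    rw [Matrix.map_apply, h1, Matrix.one_apply, Matrix.one_apply]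
    split_ifs
    · exact map_one r
    · exact map_zero r
  map_mul' g h := by
    have h0 : (mo (p := p) hU g).map r * (mo (p := p) hU h).map r =
        (mo (p := p) hU g * mo (p := p) hU h).map r := by
      rw [Matrix.map_mul]
    rw [h0]
    ext i j
    have h1 : r ((mo (p := p) hU (g * h) - mo (p := p) hU g * mo (p := p) hU h) i j) = 0 := by
      rw [hr]
      have h2 := hU.mul g h i j
      have h3 : (((mo (p := p) hU (g * h) - mo (p := p) hU g * mo (p := p) hU h) i j :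
          OO p L) : L) = (U (g * h) - U g * U h) i j := by
        rw [Matrix.sub_apply, Matrix.sub_apply, Matrix.mul_apply, Matrix.mul_apply]
        rw [AddSubgroupClass.coe_sub, AddSubmonoidClass.coe_finsetSum]
        rfl
      rw [h3]
      exact h2
    rw [Matrix.sub_apply, map_sub, sub_eq_zero] at h1
    rw [Matrix.map_apply, Matrix.map_apply, h1]

end Red

end ZCNH

open ZCNH in
/-- Module CNH. -/
theorem stCnh (h1 : StRes) (h2 : StNrm) (h3 : StTau) (h4 : StWitH) (h5 : StXlt) : StCnh := by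
  intro p _ hp F _ L _ _ _ n n' V V' B A B' A' ρ₀ ρ₀' hρ₀ hρ₀' c hc χ hχ hB hB' hD hD' m U hU hcon
  obtain ⟨S, ρ, e, a, hN⟩ := h2 p hp L (GF F) n V A ρ₀ hρ₀ c hc χ B hB hD
  obtain ⟨S', ρ', e', a', hN'⟩ := h2 p hp L (GF F) n' V' A' ρ₀' hρ₀' c hc χ B' hB' hD'
  obtain ⟨K, _, _, _, r, hr, hE⟩ := h1 p L
  obtain ⟨hz, τ, hτ, hτd, hτc⟩ := h3 p L K r hr (GF F) n V B S ρ e a hN c χ hD
  obtain ⟨hz', τ', hτ', hτd', hτc'⟩ := h3 p L K r hr (GF F) n' V' B' S' ρ' e' a' hN' c χ hD'
  have hunit : ∀ (m : ℕ) (f : Fin m → (OO p L)ˣ),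
      IsUnit (Matrix.diagonal (fun i => r ((f i : (OO p L)ˣ) : OO p L))).det := by
    intro m f
    rw [Matrix.det_diagonal]
    exact (Finset.prod_ne_zero_iff.2 fun i _ => res_unit r (f i)).isUnit
  let y : GF F → OO p L := fun g => ⟨BKOdd.chL χ L g, LLV.norm_chL_le χ g⟩
  have hcp : ∀ g, (τ g : Matrix (Fin n) (Fin n) K).charpoly *
        (τ' g : Matrix (Fin n') (Fin n') K).charpoly =
      (((ru hU r hr).toHomUnits g : GL (Fin m) K) : Matrix (Fin m) (Fin m) K).charpoly *
        (r (y g) • (((ru hU r hr).toHomUnits (c g)⁻¹ : GL (Fin m) K) :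
          Matrix (Fin m) (Fin m) K)ᵀ).charpoly := by
    intro g
    rw [hτc, hτc', ← Polynomial.map_mul]
    have e1 : (((ru hU r hr).toHomUnits g : GL (Fin m) K) : Matrix (Fin m) (Fin m) K) =
        (mo (p := p) hU g).map r := rfl
    have e2 : r (y g) • (((ru hU r hr).toHomUnits (c g)⁻¹ : GL (Fin m) K) :
        Matrix (Fin m) (Fin m) K)ᵀ = (y g • (mo (p := p) hU (c g)⁻¹)ᵀ).map r := by
      ext i j
      exact (map_mul r _ _).symm
    rw [e1, e2, Matrix.charpoly_map, Matrix.charpoly_map, ← Polynomial.map_mul]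
    refine map_res hr _ _ fun i => ?_
    have e3 : (y g • (mo (p := p) hU (c g)⁻¹)ᵀ).map (OO p L).subtype =
        BKOdd.chL χ L g • (U (c g)⁻¹)ᵀ := by
      ext i j
      rfl
    rw [Polynomial.map_mul, Polynomial.map_mul, charpoly_eq hN.int g, charpoly_eq hN'.int g,
      ← Matrix.charpoly_map, ← Matrix.charpoly_map, mo_map, e3]
    exact hcon g i
  obtain ⟨P, hP1, hP2⟩ := h4 p hp K (GF F) c hc (fun g => r (y g))
    (fun g => res_ne hr _ (norm_chL χ g))
    (fun g h => by
      rw [← map_mul]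
      congr 1
      apply Subtype.ext
      exact map_mul (BKOdd.chL χ L) g h)
    (fun g => by
      congr 1
      apply Subtype.ext
      change algebraMap ℚ_[p] L (((χ (c g) : ℤ_[p]ˣ) : ℤ_[p]) : ℚ_[p]) =
        algebraMap ℚ_[p] L (((χ g : ℤ_[p]ˣ) : ℤ_[p]) : ℚ_[p])
      rw [hχ])
    n n' m τ τ' (ru hU r hr).toHomUnits
    (Matrix.diagonal fun i => r ((e i : (OO p L)ˣ) : OO p L))
    (Matrix.diagonal fun i => r ((e' i : (OO p L)ˣ) : OO p L))
    (Matrix.diagonal_transpose _) (Matrix.diagonal_transpose _) (hunit n e) (hunit n' e')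
    (fun g => hτd g (y g) rfl) (fun g => hτd' g (y g) rfl) hcp
  -- a finite spanning set
  obtain ⟨E₀, hE₀⟩ : ∃ E₀ : Finset ((Fin n → K) × (Fin n' → K)),
      Submodule.span K (E₀ : Set ((Fin n → K) × (Fin n' → K))) = P :=
    (Submodule.fg_def.1 (IsNoetherian.noetherian P)).elim fun s hs =>
      ⟨hs.1.toFinset, by rw [Set.Finite.coe_toFinset]; exact hs.2⟩
  obtain ⟨L₂, _, _, _, φ, ϖ, θ, hϖ, hθ, hθr, hθE⟩ := hE
    ((⋃ z ∈ E₀, Set.range z.1) ∪ ⋃ z ∈ E₀, Set.range z.2) (by
      apply Set.Finite.union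
      · exact Set.Finite.biUnion E₀.finite_toSet fun z _ => Set.finite_range _
      · exact Set.Finite.biUnion E₀.finite_toSet fun z _ => Set.finite_range _)
  obtain ⟨T, N, hTN⟩ := h5 p F L L₂ K r φ ϖ θ hr hϖ hθ hθr n n' V V' B S B' S' ρ ρ' e e' a a'
    hN hN' hz hz' P (by
      intro g y hy
      rw [← hτ, ← hτ']
      exact hP1 g y hy) hP2
    ⟨(E₀ : Set ((Fin n → K) × (Fin n' → K))), hE₀, fun z hz => ⟨fun i => hθE _ (Or.inl
      (Set.mem_biUnion hz ⟨i, rfl⟩)), fun i => hθE _ (Or.inr (Set.mem_biUnion hz ⟨i, rfl⟩))⟩⟩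
  exact ⟨L₂, _, _, ‹_›, φ, T, N, hTN⟩

end BKT
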